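import Mathlib

set_option autoImplicit false

namespace Pool.Agent.Lib.MP_af4c59_nt

/-- The data describing the eight conjugates. -/
@[ext]
structure Cfg (K : Type) where
  s : K
  ν : K
  μ0 : K
  μ1 : K
  u0 : K
  u1 : K
  a : K

namespace Cfg

variable {K : Type} [Field K]

/-- The eight conjugates. -/
def seq (κ w : K) (c : Cfg K) : Fin 8 → K :=
  ![c.a, c.ν * (w + c.u0 + c.u1) / c.a, κ * c.μ0 * c.u1 / c.a, -(κ * c.ν * (w + c.u0 - c.u1) / c.a),
    -c.a, -(c.ν * (w + c.u0 + c.u1) / c.a), -(κ * c.μ0 * c.u1 / c.a),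
    κ * c.ν * (w + c.u0 - c.u1) / c.a]

/-- Rotation of a configuration. -/
def rot (κ w : K) (c : Cfg K) : Cfg K :=
  ⟨-c.s, κ * c.ν, c.μ1, c.μ0, c.u1, -c.u0, c.ν * (w + c.u0 + c.u1) / c.a⟩

/-- Reflection of a configuration. -/
def ref (c : Cfg K) : Cfg K := ⟨c.s, c.ν, c.μ0, c.μ1, c.u0, -c.u1, c.a⟩

/-- Image of a configuration under a ring homomorphism. -/
def map (f : K →+* K) (c : Cfg K) : Cfg K := ⟨f c.s, f c.ν, f c.μ0, f c.μ1, f c.u0, f c.u1, f c.a⟩

/-- The defining relations. -/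
structure Valid (κ w : K) (c : Cfg K) : Prop where
  hκ : κ ^ 2 = 1
  hu : c.u0 ^ 2 + c.u1 ^ 2 = w ^ 2
  hμ : c.μ0 * c.μ1 = 2 * c.ν ^ 2
  ha : c.a ^ 2 = c.μ0 * (w + c.u0)
  ν0 : c.ν ≠ 0
  u00 : c.u0 ≠ 0
  u10 : c.u1 ≠ 0

variable [CharZero K] {κ w : K} {c : Cfg K}

lemma Valid.μ00 (h : Valid κ w c) : c.μ0 ≠ 0 := by
  intro h0
  have := h.hμ
  rw [h0, zero_mul] at this
  exact (mul_ne_zero two_ne_zero (pow_ne_zero 2 h.ν0)) this.symm

lemma Valid.μ10 (h : Valid κ w c) : c.μ1 ≠ 0 := by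
  intro h0
  have := h.hμ
  rw [h0, mul_zero] at this
  exact (mul_ne_zero two_ne_zero (pow_ne_zero 2 h.ν0)) this.symm

omit [CharZero K] in
lemma Valid.wu0 (h : Valid κ w c) : w + c.u0 ≠ 0 := by
  intro h0
  apply pow_ne_zero 2 h.u10
  linear_combination h.hu + (w - c.u0) * h0

omit [CharZero K] in
lemma Valid.wu1 (h : Valid κ w c) : w + c.u1 ≠ 0 := by
  intro h0
  apply pow_ne_zero 2 h.u00
  linear_combination h.hu + (w - c.u1) * h0

lemma Valid.a0 (h : Valid κ w c) : c.a ≠ 0 := by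
  intro h0
  have := h.ha
  rw [h0] at this
  exact mul_ne_zero h.μ00 h.wu0 (by rw [← this]; ring)

lemma Valid.c0 (h : Valid κ w c) : w + c.u0 + c.u1 ≠ 0 := by
  intro h0
  apply mul_ne_zero (two_ne_zero (α := K)) (mul_ne_zero h.wu0 h.wu1)
  linear_combination (w + c.u0 + c.u1) * h0 - h.hu

omit [CharZero K] in
lemma Valid.κ0 (h : Valid κ w c) : κ ≠ 0 := by
  intro h0
  have := h.hκ
  rw [h0] at this
  simp at this

lemma Valid.rot (h : Valid κ w c) : Valid κ w (rot κ w c) where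
  hκ := h.hκ
  hu := by simp only [Cfg.rot]; linear_combination h.hu
  hμ := by simp only [Cfg.rot]; linear_combination h.hμ - 2 * c.ν ^ 2 * h.hκ
  ha := by
    simp only [Cfg.rot]
    have := h.a0
    field_simp
    rw [h.ha]
    linear_combination c.ν ^ 2 * h.hu - (w + c.u0) * (w + c.u1) * h.hμ
  ν0 := mul_ne_zero h.κ0 h.ν0
  u00 := h.u10
  u10 := neg_ne_zero.2 h.u00

omit [CharZero K] in
lemma Valid.ref (h : Valid κ w c) : Valid κ w (ref c) where
  hκ := h.hκ
  hu := by simp only [Cfg.ref]; linear_combination h.hu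
  hμ := h.hμ
  ha := h.ha
  ν0 := h.ν0
  u00 := h.u00
  u10 := neg_ne_zero.2 h.u10

lemma Valid.iter (h : Valid κ w c) (j : ℕ) : Valid κ w ((Cfg.rot κ w)^[j] c) := by
  induction j with
  | zero => exact h
  | succ j ih => rw [Function.iterate_succ_apply']; exact ih.rot

lemma seq_rot (h : Valid κ w c) (i : Fin 8) : seq κ w (rot κ w c) i = seq κ w c (i + 1) := by
  have ha := h.a0
  have hc := h.c0
  have hν := h.ν0
  have e1 : κ * c.ν * (w + c.u1 + -c.u0) / (c.ν * (w + c.u0 + c.u1) / c.a) =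
      κ * c.μ0 * c.u1 / c.a := by
    field_simp
    rw [h.ha]
    linear_combination (-κ * c.μ0) * h.hu
  have e2 : κ * c.μ1 * (-c.u0) / (c.ν * (w + c.u0 + c.u1) / c.a) =
      -(κ * c.ν * (w + c.u0 - c.u1) / c.a) := by
    field_simp
    rw [h.ha]
    linear_combination (-κ * c.u0 * (w + c.u0)) * h.hμ - κ * c.ν ^ 2 * h.hu
  have e3 : κ * (κ * c.ν) * (w + c.u1 - -c.u0) / (c.ν * (w + c.u0 + c.u1) / c.a) = c.a := by
    field_simp
    linear_combination (w + c.u0 + c.u1) * h.hκ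
  fin_cases i
  · rfl
  · exact e1
  · exact e2
  · exact congrArg Neg.neg e3
  · rfl
  · exact congrArg Neg.neg e1
  · exact (congrArg Neg.neg e2).trans (neg_neg _)
  · exact e3

lemma seq_iter (h : Valid κ w c) (j : ℕ) (i : Fin 8) :
    seq κ w ((rot κ w)^[j] c) i = seq κ w c (i + Fin.ofNat 8 j) := by
  induction j generalizing i with
  | zero => simp
  | succ j ih =>
    rw [Function.iterate_succ_apply', seq_rot (h.iter j), ih]
    congr 1
    rw [add_assoc, add_comm 1]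
    congr 1
    ext; simp [Fin.val_add]

omit [CharZero K] in
lemma seq_ref_one (c : Cfg K) (i : Fin 8) : seq 1 w (ref c) i = seq 1 w c (7 * i) := by
  fin_cases i <;> simp [seq, ref, sub_eq_add_neg, neg_div]

omit [CharZero K] in
lemma seq_ref_neg (c : Cfg K) (i : Fin 8) : seq (-1) w (ref c) i = seq (-1) w c (3 * i) := by
  fin_cases i <;> simp [seq, ref, sub_eq_add_neg, neg_div]

omit [CharZero K] in
lemma seq_map (f : K →+* K) (hκ : f κ = κ) (hw : f w = w) (c : Cfg K) (i : Fin 8) :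
    f (seq κ w c i) = seq κ w (map f c) i := by
  fin_cases i <;> simp [seq, map, hκ, hw]

omit [CharZero K] in
lemma map_rot (f : K →+* K) (hκ : f κ = κ) (hw : f w = w) (c : Cfg K) :
    map f (rot κ w c) = rot κ w (map f c) := by
  simp [map, rot, hκ, hw]

omit [CharZero K] in
lemma map_iter (f : K →+* K) (hκ : f κ = κ) (hw : f w = w) (c : Cfg K) (j : ℕ) :
    map f ((rot κ w)^[j] c) = (rot κ w)^[j] (map f c) := by
  induction j with
  | zero => rfl
  | succ j ih => rw [Function.iterate_succ_apply', Function.iterate_succ_apply', map_rot f hκ hw, ih]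

lemma iter_a (h : Valid κ w c) (j : ℕ) : ((rot κ w)^[j] c).a = seq κ w c (Fin.ofNat 8 j) := by
  have := seq_iter h j 0
  rw [zero_add] at this
  exact this

lemma iter_four (h : Valid κ w c) :
    (rot κ w)^[4] c = ⟨c.s, c.ν, c.μ0, c.μ1, c.u0, c.u1, -c.a⟩ := by
  have e := iter_a h 4
  have hκ := h.hκ
  ext
  · simp [rot]
  · simp only [rot, Function.iterate_succ, Function.iterate_zero, Function.comp_apply, id]
    linear_combination (κ ^ 2 + 1) * c.ν * hκ
  · simp [rot]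
  · simp [rot]
  · simp [rot]
  · simp [rot]
  · exact e

lemma iter_eight (h : Valid κ w c) : (rot κ w)^[8] c = c := by
  rw [show 8 = 4 + 4 by rfl, Function.iterate_add_apply, iter_four (h.iter 4), iter_four h]
  simp

/-- A valid configuration agreeing with a rotation except possibly in the last entry is a rotation. -/
lemma eq_iter_of_agree (h : Valid κ w c) {c' : Cfg K} (h' : Valid κ w c') (j : ℕ)
    (e : (⟨c'.s, c'.ν, c'.μ0, c'.μ1, c'.u0, c'.u1, 0⟩ : Cfg K) =
      ⟨((rot κ w)^[j] c).s, ((rot κ w)^[j] c).ν, ((rot κ w)^[j] c).μ0, ((rot κ w)^[j] c).μ1,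
        ((rot κ w)^[j] c).u0, ((rot κ w)^[j] c).u1, 0⟩) :
    c' = (rot κ w)^[j] c ∨ c' = (rot κ w)^[4 + j] c := by
  have hj := h.iter j
  rw [Function.iterate_add_apply, iter_four hj]
  simp only [Cfg.mk.injEq, and_true] at e
  obtain ⟨e1, e2, e3, e4, e5, e6⟩ := e
  have : c'.a ^ 2 = ((rot κ w)^[j] c).a ^ 2 := by rw [h'.ha, hj.ha, e3, e5]
  rcases sq_eq_sq_iff_eq_or_eq_neg.1 this with h1 | h1
  · left; ext <;> assumption
  · right; ext <;> assumption

omit [CharZero K] in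
lemma ref_ref (c : Cfg K) : ref (ref c) = c := by simp [ref]

lemma classify_aux (h : Valid κ w c) {c' : Cfg K} (h' : Valid κ w c') (j : ℕ)
    (e1 : c'.s = ((rot κ w)^[j] c).s) (e2 : c'.ν = ((rot κ w)^[j] c).ν)
    (e3 : c'.μ0 = ((rot κ w)^[j] c).μ0) (e4 : c'.μ1 = ((rot κ w)^[j] c).μ1)
    (e5 : c'.u0 = ((rot κ w)^[j] c).u0) :
    ∃ j, c' = (rot κ w)^[j] c ∨ c' = ref ((rot κ w)^[j] c) := by
  have hj := h.iter j
  have : c'.u1 ^ 2 = ((rot κ w)^[j] c).u1 ^ 2 := by
    have a := h'.hu; have b := hj.hu; rw [e5] at a; linear_combination a - b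
  rcases sq_eq_sq_iff_eq_or_eq_neg.1 this with h1 | h1
  · rcases eq_iter_of_agree h h' j (by rw [e1, e2, e3, e4, e5, h1]) with h2 | h2
    · exact ⟨_, Or.inl h2⟩
    · exact ⟨_, Or.inl h2⟩
  · rcases eq_iter_of_agree h h'.ref j (by simp only [ref]; rw [e1, e2, e3, e4, e5, h1, neg_neg])
      with h2 | h2
    · exact ⟨_, Or.inr (by rw [← h2, ref_ref])⟩
    · exact ⟨_, Or.inr (by rw [← h2, ref_ref])⟩

lemma classify (h : Valid κ w c) {c' : Cfg K} (h' : Valid κ w c')
    (e : (c'.s = c.s ∧ c'.ν = c.ν ∧ c'.μ0 = c.μ0 ∧ c'.μ1 = c.μ1 ∧ c'.u0 ^ 2 = c.u0 ^ 2) ∨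
      (c'.s = -c.s ∧ c'.ν = κ * c.ν ∧ c'.μ0 = c.μ1 ∧ c'.μ1 = c.μ0 ∧ c'.u0 ^ 2 = c.u1 ^ 2)) :
    ∃ j, c' = (rot κ w)^[j] c ∨ c' = ref ((rot κ w)^[j] c) := by
  have hκ := h.hκ
  rcases e with ⟨e1, e2, e3, e4, e5⟩ | ⟨e1, e2, e3, e4, e5⟩
  · rcases sq_eq_sq_iff_eq_or_eq_neg.1 e5 with h1 | h1
    · exact classify_aux h h' 0 e1 e2 e3 e4 h1
    · refine classify_aux h h' 2 (by simp [rot, e1]) ?_ (by simp [rot, e3]) (by simp [rot, e4])
        (by simp [rot, h1])
      simp only [rot, Function.iterate_succ, Function.iterate_zero, Function.comp_apply, id, e2]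
      linear_combination (-c.ν) * hκ
  · rcases sq_eq_sq_iff_eq_or_eq_neg.1 e5 with h1 | h1
    · exact classify_aux h h' 1 e1 e2 e3 e4 h1
    · refine classify_aux h h' 3 (by simp [rot, e1]) ?_ (by simp [rot, e3]) (by simp [rot, e4])
        (by simp [rot, h1])
      simp only [rot, Function.iterate_succ, Function.iterate_zero, Function.comp_apply, id, e2]
      linear_combination (-κ * c.ν) * hκ

omit [CharZero K] in
lemma iter_s (c : Cfg K) (j : ℕ) : ((rot κ w)^[j] c).s = (-1) ^ j * c.s := by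
  induction j with
  | zero => simp
  | succ j ih => rw [Function.iterate_succ_apply', pow_succ]; simp only [rot] at ih ⊢; rw [ih]; ring

omit [CharZero K] in
lemma iter_u (c : Cfg K) (j : ℕ) :
    ((rot κ w)^[j] c).u0 * ((rot κ w)^[j] c).u1 = (-1) ^ j * (c.u0 * c.u1) := by
  induction j with
  | zero => simp
  | succ j ih =>
    rw [Function.iterate_succ_apply', pow_succ]
    generalize (rot κ w)^[j] c = d at ih
    simp only [rot]; linear_combination -ih

lemma odd_of_signs (h : Valid κ w c) (hs : c.s ≠ 0) {c' : Cfg K}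
    (e : ∃ j, c' = (rot κ w)^[j] c ∨ c' = ref ((rot κ w)^[j] c)) (e1 : c'.s = -c.s)
    (e2 : c'.u0 * c'.u1 = -(c.u0 * c.u1)) : ∃ j, Odd j ∧ c' = (rot κ w)^[j] c := by
  obtain ⟨j, hj⟩ := e
  have huu := mul_ne_zero h.u00 h.u10
  have hodd : Odd j := by
    by_contra hcon
    have hev := Nat.not_odd_iff_even.1 hcon
    have : c'.s = c.s := by
      rcases hj with rfl | rfl
      · rw [iter_s, hev.neg_one_pow, one_mul]
      · simp only [ref]; rw [iter_s, hev.neg_one_pow, one_mul]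
    apply mul_ne_zero (two_ne_zero (α := K)) hs
    linear_combination e1 - this
  refine ⟨j, hodd, hj.resolve_right ?_⟩
  rintro rfl
  have := iter_u (κ := κ) (w := w) c j
  rw [hodd.neg_one_pow] at this
  simp only [ref] at e2
  apply mul_ne_zero (two_ne_zero (α := K)) huu
  linear_combination e2 + this

lemma ref_of_signs (h : Valid κ w c) (hs : c.s ≠ 0) {c' : Cfg K}
    (e : ∃ j, c' = (rot κ w)^[j] c ∨ c' = ref ((rot κ w)^[j] c)) (e1 : c'.s = c.s)
    (e2 : c'.u0 * c'.u1 = -(c.u0 * c.u1)) : ∃ j, c' = ref ((rot κ w)^[j] c) := by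
  obtain ⟨j, hj⟩ := e
  have huu := mul_ne_zero h.u00 h.u10
  refine ⟨j, hj.resolve_left ?_⟩
  rintro rfl
  have a := iter_u (κ := κ) (w := w) c j
  have b := iter_s (κ := κ) (w := w) c j
  rcases Nat.even_or_odd j with hev | hodd
  · rw [hev.neg_one_pow] at a
    apply mul_ne_zero (two_ne_zero (α := K)) huu
    linear_combination e2 - a
  · rw [hodd.neg_one_pow] at b
    apply mul_ne_zero (two_ne_zero (α := K)) hs
    linear_combination b - e1

end Cfg

end Pool.Agent.Lib.MP_af4c59_nt
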