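import Pool.Agent.Lib.MP_af4c59_nt.Zs

set_option autoImplicit false

namespace Pool.Agent.Lib.MP_af4c59_nt

/-- The bilinear trace form attached to `η`. -/
def Bf (η ξ ξ' : O) : ℤ := 2 * (η * ξ * ξ').re

/-- The cross determinant of the coordinates. -/
def cr (ξ ξ' : O) : ℤ := ξ.re * ξ'.im - ξ.im * ξ'.re

lemma Bf_eq (η ξ ξ' : O) : Bf η ξ ξ' =
    2 * η.re * (ξ.re * ξ'.re + 2 * ξ.im * ξ'.im) + 4 * η.im * (ξ.re * ξ'.im + ξ.im * ξ'.re) := by
  simp only [Bf, Zsqrtd.re_mul, Zsqrtd.im_mul]; ring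

lemma Bf_gram (η ξ ξ' : O) :
    Bf η ξ ξ * Bf η ξ' ξ' - Bf η ξ ξ' ^ 2 = 8 * η.norm * cr ξ ξ' ^ 2 := by
  simp only [Bf_eq, O_norm_def, cr]; ring

lemma R_mul {η ξ ξ' : O} {w w' : ℤ} (h : Bf η ξ ξ = w ^ 2) (h' : Bf η ξ' ξ' = w' ^ 2) :
    (w * w' + Bf η ξ ξ') * (w * w' - Bf η ξ ξ') = 8 * η.norm * cr ξ ξ' ^ 2 := by
  rw [← Bf_gram, h, h']; ring

/-- The linear form controlling the conic modulo the norm. -/
def mf (η ξ : O) : ℤ := ξ.re * η.im + ξ.im * η.re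

lemma Bf_mod (η ξ ξ' : O) : η.im ^ 2 * Bf η ξ ξ' = 2 * η.re * mf η ξ * mf η ξ' -
    η.norm * (2 * η.re * ξ.im * ξ'.im + 2 * η.im * (ξ.re * ξ'.im + ξ.im * ξ'.re)) := by
  simp only [Bf_eq, O_norm_def, mf]; ring

lemma dvd_re_of_dvd_im {p : ℤ} (hp : Prime p) {η : O} (hd : p ∣ η.norm) (hy : p ∣ η.im) :
    p ∣ η.re := by
  apply hp.dvd_of_dvd_pow (n := 2)
  have : η.re ^ 2 = η.norm + 2 * η.im ^ 2 := by rw [O_norm_def]; ring
  rw [this]
  exact dvd_add hd (Dvd.dvd.mul_left (dvd_pow hy two_ne_zero) _)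

lemma dvd_norm_xi {p : ℤ} (hp : Prime p) (hp2 : ¬ p ∣ 2) {η ξ : O} (hd : p ∣ η.norm)
    (hy : ¬ p ∣ η.im) (hB : p ∣ Bf η ξ ξ) : p ∣ ξ.norm := by
  have hx : ¬ p ∣ η.re := by
    intro hx
    have : p ∣ 2 * η.im ^ 2 := by
      have e : 2 * η.im ^ 2 = η.re ^ 2 - η.norm := by rw [O_norm_def]; ring
      rw [e]; exact dvd_sub (dvd_pow hx two_ne_zero) hd
    exact hy (hp.dvd_of_dvd_pow ((hp.dvd_or_dvd this).resolve_left hp2))
  have h1 : p ∣ 2 * η.re * mf η ξ * mf η ξ := by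
    have e := Bf_mod η ξ ξ
    have : 2 * η.re * mf η ξ * mf η ξ = η.im ^ 2 * Bf η ξ ξ +
      η.norm * (2 * η.re * ξ.im * ξ.im + 2 * η.im * (ξ.re * ξ.im + ξ.im * ξ.re)) := by
      rw [e]; ring
    rw [this]
    exact dvd_add (Dvd.dvd.mul_left hB _) (Dvd.dvd.mul_right hd _)
  have h2 : p ∣ mf η ξ := by
    rcases hp.dvd_or_dvd h1 with h | h
    · rcases hp.dvd_or_dvd h with h | h
      · exact absurd ((hp.dvd_or_dvd h).resolve_left hp2) hx
      · exact h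
    · exact h
  have h3 : p ∣ η.im ^ 2 * ξ.norm := by
    have : η.im ^ 2 * ξ.norm = (η.im * ξ.re - ξ.im * η.re) * mf η ξ + ξ.im ^ 2 * η.norm := by
      simp only [O_norm_def, mf]; ring
    rw [this]
    exact dvd_add (Dvd.dvd.mul_left h2 _) (Dvd.dvd.mul_left hd _)
  exact (hp.dvd_or_dvd h3).resolve_left (fun h => hy (hp.dvd_of_dvd_pow h))

lemma parity_contra {p : ℤ} (hp : Prime p) {a b : ℤ} (ha : ¬ p ∣ a) (hb : p ∣ b)
    (hb2 : ¬ p ^ 2 ∣ b) (D : ℤ) (hD : D ≠ 0) (s : ℤ) (h : s ^ 2 * a = b * D ^ 2) : False := by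
  induction hn : D.natAbs using Nat.strong_induction_on generalizing D s with
  | _ n ih =>
    obtain ⟨b', rfl⟩ := hb
    have hb' : ¬ p ∣ b' := fun h1 => hb2 (by rw [sq]; exact mul_dvd_mul_left p h1)
    have h1 : p ∣ s := by
      have : p ∣ s ^ 2 * a := by rw [h, mul_assoc]; exact dvd_mul_right _ _
      exact hp.dvd_of_dvd_pow ((hp.dvd_or_dvd this).resolve_right ha)
    obtain ⟨s', rfl⟩ := h1
    have h2 : p ∣ D := by
      have e : p * (s' ^ 2 * a) = b' * D ^ 2 := by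
        apply mul_left_cancel₀ hp.ne_zero; linear_combination h
      have : p ∣ b' * D ^ 2 := ⟨_, e.symm⟩
      exact hp.dvd_of_dvd_pow ((hp.dvd_or_dvd this).resolve_left hb')
    obtain ⟨D', rfl⟩ := h2
    have hD' : D' ≠ 0 := by rintro rfl; simp at hD
    refine ih D'.natAbs ?_ D' hD' s' ?_ rfl
    · rw [← hn, Int.natAbs_mul]
      have h3 : 2 ≤ p.natAbs := (Int.prime_iff_natAbs_prime.1 hp).two_le
      have h4 : 0 < D'.natAbs := Int.natAbs_pos.2 hD'
      nlinarith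
    · apply mul_left_cancel₀ (pow_ne_zero 2 hp.ne_zero); linear_combination h

/-- The separation lemma. -/
lemma norm_dvd_Rm {η ξ ξ' : O} {w w' : ℤ} (h4 : ¬ 4 ∣ η.norm)
    (hsf : ∀ p : ℤ, Prime p → ¬ p ∣ 2 → ¬ (p ^ 2 ∣ η.re ∧ p ^ 2 ∣ η.im))
    (h : Bf η ξ ξ = w ^ 2) (h' : Bf η ξ' ξ' = w' ^ 2)
    (hc : IsCoprime w ξ.norm) (hc' : IsCoprime w' ξ'.norm) (hD : cr ξ ξ' ≠ 0)
    (hsq : IsSquare (w * w' + Bf η ξ ξ') ∨ IsSquare (2 * (w * w' + Bf η ξ ξ')))
    (hty : ∀ p : ℤ, Prime p → ¬ p ∣ 2 → p ^ 2 ∣ η.norm → ¬ p ∣ η.im → p ∣ w * w' - Bf η ξ ξ') :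
    η.norm ∣ 2 * (w * w' - Bf η ξ ξ') := by
  have hRR := R_mul h h'
  obtain ⟨e, s, he, hs⟩ : ∃ e s : ℤ, (e = 1 ∨ e = 2) ∧ e * (w * w' + Bf η ξ ξ') = s ^ 2 := by
    rcases hsq with ⟨s, hs⟩ | ⟨s, hs⟩
    · exact ⟨1, s, Or.inl rfl, by rw [one_mul, hs, sq]⟩
    · exact ⟨2, s, Or.inr rfl, by rw [hs, sq]⟩
  rw [← Int.natAbs_dvd_natAbs, Nat.dvd_iff_prime_pow_dvd_dvd]
  intro q k hq hk
  have hp : Prime (q : ℤ) := Nat.prime_iff_prime_int.1 hq
  have hk' : (q : ℤ) ^ k ∣ η.norm := by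
    rw [← Int.natAbs_dvd_natAbs]; simpa using hk
  suffices (q : ℤ) ^ k ∣ 2 * (w * w' - Bf η ξ ξ') by
    rw [← Int.natAbs_dvd_natAbs] at this; simpa using this
  set p : ℤ := (q : ℤ) with hpdef
  rcases Nat.eq_zero_or_pos k with rfl | hkpos
  · simp
  have hpd : p ∣ η.norm := (dvd_pow_self p hkpos.ne').trans hk'
  by_cases hp2 : p ∣ 2
  · have hq2 : q = 2 := by
      have : q ∣ 2 := by rw [hpdef] at hp2; exact_mod_cast hp2
      exact (Nat.prime_dvd_prime_iff_eq hq Nat.prime_two).1 this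
    have hp' : p = 2 := by rw [hpdef, hq2]; rfl
    have : k ≤ 1 := by
      by_contra hcon
      apply h4
      have : p ^ 2 ∣ p ^ k := pow_dvd_pow p (by omega)
      rw [hp'] at this hk'
      exact this.trans hk'
    have hk1 : k = 1 := by omega
    rw [hk1, pow_one, hp']; exact dvd_mul_right _ _
  have hpe : ¬ p ∣ e := by
    rcases he with rfl | rfl
    · exact fun h1 => hp.not_isUnit (isUnit_of_dvd_one h1)
    · exact hp2
  apply Dvd.dvd.mul_left
  by_cases hy : p ∣ η.im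
  · have hx := dvd_re_of_dvd_im hp hpd hy
    obtain ⟨x3, hx3⟩ := hx
    obtain ⟨y3, hy3⟩ := hy
    let η3 : O := ⟨x3, y3⟩
    have hB : ∀ a b : O, Bf η a b = p * Bf η3 a b := by
      intro a b; simp only [Bf_eq, hx3, hy3, η3]; ring
    have hN : η.norm = p ^ 2 * η3.norm := by simp only [O_norm_def, hx3, hy3, η3]; ring
    have hw : p ∣ w := hp.dvd_of_dvd_pow (n := 2) (by rw [← h, hB]; exact dvd_mul_right _ _)
    have hw' : p ∣ w' := hp.dvd_of_dvd_pow (n := 2) (by rw [← h', hB]; exact dvd_mul_right _ _)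
    obtain ⟨w3, rfl⟩ := hw
    obtain ⟨w3', rfl⟩ := hw'
    have hB3 : p ∣ Bf η3 ξ ξ := by
      refine ⟨w3 ^ 2, ?_⟩
      apply mul_left_cancel₀ hp.ne_zero; rw [← hB, h]; ring
    have hN3 : ¬ p ∣ η3.norm := by
      intro h3
      by_cases hy' : p ∣ η3.im
      · have hx' := dvd_re_of_dvd_im hp h3 hy'
        apply hsf p hp hp2
        rw [hx3, hy3, sq]
        exact ⟨mul_dvd_mul_left p hx', mul_dvd_mul_left p hy'⟩
      · have := dvd_norm_xi hp hp2 h3 hy' hB3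
        exact hp.not_isUnit (hc.isUnit_of_dvd' (dvd_mul_right _ _) this)
    have hk2 : k ≤ 2 := by
      by_contra hcon
      apply hN3
      have : p ^ 3 ∣ p ^ 2 * η3.norm := by
        rw [← hN]; exact (pow_dvd_pow p (by omega)).trans hk'
      rw [pow_succ] at this
      exact (mul_dvd_mul_iff_left (pow_ne_zero 2 hp.ne_zero)).1 this
    refine (pow_dvd_pow p hk2).trans ?_
    have hs1 : p ∣ s := hp.dvd_of_dvd_pow (n := 2) (by
      rw [← hs, hB]; exact Dvd.dvd.mul_left ⟨w3 * (p * w3') + Bf η3 ξ ξ', by ring⟩ _)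
    obtain ⟨s', rfl⟩ := hs1
    have h5 : p ∣ e * (p * w3 * w3' + Bf η3 ξ ξ') := by
      refine ⟨s' ^ 2, ?_⟩
      apply mul_left_cancel₀ hp.ne_zero
      rw [hB] at hs; linear_combination hs
    have h6 : p ∣ Bf η3 ξ ξ' := by
      have := (hp.dvd_or_dvd h5).resolve_left hpe
      have e2 : Bf η3 ξ ξ' = (p * w3 * w3' + Bf η3 ξ ξ') - p * (w3 * w3') := by ring
      rw [e2]; exact dvd_sub this (dvd_mul_right _ _)
    obtain ⟨c, hc6⟩ := h6
    exact ⟨w3 * w3' - c, by rw [hB, hc6]; ring⟩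
  · have hw : ¬ p ∣ w := by
      intro h1
      have := dvd_norm_xi hp hp2 hpd hy (ξ := ξ) (by rw [h]; exact dvd_pow h1 two_ne_zero)
      exact hp.not_isUnit (hc.isUnit_of_dvd' h1 this)
    have hw' : ¬ p ∣ w' := by
      intro h1
      have := dvd_norm_xi hp hp2 hpd hy (ξ := ξ') (by rw [h']; exact dvd_pow h1 two_ne_zero)
      exact hp.not_isUnit (hc'.isUnit_of_dvd' h1 this)
    by_cases hm : p ∣ w * w' - Bf η ξ ξ'
    · have hR : ¬ p ∣ w * w' + Bf η ξ ξ' := by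
        intro h1
        have : p ∣ 2 * (w * w') := by
          have e2 : 2 * (w * w') = (w * w' + Bf η ξ ξ') + (w * w' - Bf η ξ ξ') := by ring
          rw [e2]; exact dvd_add h1 hm
        rcases hp.dvd_or_dvd ((hp.dvd_or_dvd this).resolve_left hp2) with h2 | h2
        · exact hw h2
        · exact hw' h2
      apply hp.pow_dvd_of_dvd_mul_left k hR
      rw [hRR]
      exact Dvd.dvd.mul_right (Dvd.dvd.mul_left hk' _) _
    · exfalso
      have h2 : ¬ p ^ 2 ∣ η.norm := fun h2 => hm (hty p hp hp2 h2 hy)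
      refine parity_contra hp hm (b := 8 * e * η.norm) (Dvd.dvd.mul_left hpd _) ?_ _ hD s ?_
      · intro h3
        apply h2
        have h8 : ¬ p ∣ 8 * e := by
          intro h9
          rcases hp.dvd_or_dvd h9 with h9 | h9
          · exact hp2 (hp.dvd_of_dvd_pow (n := 3) (by simpa using h9))
          · exact hpe h9
        exact hp.pow_dvd_of_dvd_mul_left 2 h8 h3
      · rw [← hs]; linear_combination e * hRR

/-- The type of a point at a prime. -/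
def typ (p : ℕ) (η ξ : O) (w : ℤ) : Prop :=
  ((η.im * w : ℤ) : ZMod p) =
    Classical.epsilon (fun s : ZMod p => s ^ 2 = 2 * (η.re : ZMod p)) * ((mf η ξ : ℤ) : ZMod p)

lemma field_aux {K : Type*} [Field K] {A A' m m' c σ : K} (h : A ^ 2 = c * m ^ 2)
    (h' : A' ^ 2 = c * m' ^ 2) (hσ : (∃ s, s ^ 2 = c) → σ ^ 2 = c)
    (ht : A = σ * m ↔ A' = σ * m') : A * A' = c * m * m' := by
  by_cases hm : m = 0
  · subst hm
    have : A = 0 := by simpa using h
    simp [this]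
  have hs : σ ^ 2 = c := hσ ⟨A / m, by field_simp; linear_combination h⟩
  by_cases h1 : A = σ * m
  · rw [h1, ht.1 h1, ← hs]; ring
  · have h2 : ¬ A' = σ * m' := fun h2 => h1 (ht.2 h2)
    have h3 : A = - (σ * m) := by
      have : (A - σ * m) * (A + σ * m) = 0 := by linear_combination h - m ^ 2 * hs
      rcases mul_eq_zero.1 this with h4 | h4
      · exact absurd (by linear_combination h4) h1
      · linear_combination h4
    have h4 : A' = - (σ * m') := by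
      have : (A' - σ * m') * (A' + σ * m') = 0 := by linear_combination h' - m' ^ 2 * hs
      rcases mul_eq_zero.1 this with h4 | h4
      · exact absurd (by linear_combination h4) h2
      · linear_combination h4
    rw [h3, h4, ← hs]; ring

lemma dvd_Rm_of_typ {q : ℕ} (hq : q.Prime) {η ξ ξ' : O} {w w' : ℤ} (hd : (q : ℤ) ∣ η.norm)
    (hy : ¬ (q : ℤ) ∣ η.im) (h : Bf η ξ ξ = w ^ 2) (h' : Bf η ξ' ξ' = w' ^ 2)
    (ht : typ q η ξ w ↔ typ q η ξ' w') : (q : ℤ) ∣ w * w' - Bf η ξ ξ' := by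
  have : Fact q.Prime := ⟨hq⟩
  have hp : Prime (q : ℤ) := Nat.prime_iff_prime_int.1 hq
  have hd0 : ((η.norm : ℤ) : ZMod q) = 0 := (ZMod.intCast_zmod_eq_zero_iff_dvd _ _).2 hd
  have key : ∀ a b : O, ((η.im : ZMod q)) ^ 2 * ((Bf η a b : ℤ) : ZMod q) =
      2 * (η.re : ZMod q) * ((mf η a : ℤ) : ZMod q) * ((mf η b : ℤ) : ZMod q) := by
    intro a b
    have := congrArg (fun z : ℤ => (z : ZMod q)) (Bf_mod η a b)
    push_cast at this
    rw [this, hd0]; ring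
  have e1 := key ξ ξ
  have e2 := key ξ' ξ'
  have e3 := key ξ ξ'
  rw [h] at e1; rw [h'] at e2
  push_cast at e1 e2
  have := field_aux (K := ZMod q) (A := ((η.im * w : ℤ) : ZMod q)) (A' := ((η.im * w' : ℤ) : ZMod q))
    (m := ((mf η ξ : ℤ) : ZMod q)) (m' := ((mf η ξ' : ℤ) : ZMod q)) (c := 2 * (η.re : ZMod q))
    (by push_cast; linear_combination e1) (by push_cast; linear_combination e2)
    (fun hex => Classical.epsilon_spec hex) ht
  have h5 : (q : ℤ) ∣ η.im ^ 2 * (w * w' - Bf η ξ ξ') := by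
    rw [← ZMod.intCast_zmod_eq_zero_iff_dvd]
    push_cast at this ⊢
    linear_combination this - e3
  exact (hp.dvd_or_dvd h5).resolve_left (fun h6 => hy (hp.dvd_of_dvd_pow h6))

lemma eq_of_cr_eq_zero {ξ ξ' : O} (hk : 0 < ξ.re) (hk' : 0 < ξ'.re) (hc : IsCoprime ξ.re ξ.im)
    (hc' : IsCoprime ξ'.re ξ'.im) (h : cr ξ ξ' = 0) : ξ = ξ' := by
  unfold cr at h
  have h1 : ξ.re ∣ ξ'.re := hc.dvd_of_dvd_mul_left ⟨ξ'.im, by linear_combination -h⟩
  have h2 : ξ'.re ∣ ξ.re := hc'.dvd_of_dvd_mul_left ⟨ξ.im, by linear_combination h⟩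
  have h3 : ξ.re = ξ'.re := Int.dvd_antisymm hk.le hk'.le h1 h2
  ext
  · exact h3
  · apply mul_left_cancel₀ hk.ne'
    rw [← h3] at h; linear_combination -h

/-- The relation between two points of the conic that generate the same field. -/
def Rel (η : O) (P P' : O × ℤ) : Prop :=
  IsSquare (P.2 * P'.2 + Bf η P.1 P'.1) ∨ IsSquare (2 * (P.2 * P'.2 + Bf η P.1 P'.1))

/-- Points of the conic in the working range. -/
structure Pt (Z g : ℕ) (η : O) (P : O × ℤ) : Prop where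
  k1 : (Z : ℤ) ≤ P.1.re
  k2 : P.1.re ≤ 2 * Z
  v1 : 0 ≤ P.1.im
  v2 : P.1.im ≤ 2 * Z
  cop : IsCoprime P.1.re P.1.im
  eq : Bf η P.1 P.1 = P.2 ^ 2
  copw : IsCoprime P.2 P.1.norm
  big : 16 * (Z : ℤ) ^ 2 ≤ g * P.2

/-- The fibre bound: pairwise related points are few. -/
lemma card_fibre_le {Z g : ℕ} (hZ : 0 < Z) (hg : 0 < g) {η : O} {r : ℤ} (hr : r ≠ 0)
    (hx : 0 ≤ η.re) (hy : 0 ≤ η.im) (hN : 0 < η.norm) (h4 : ¬ 4 ∣ η.norm)
    (hsf : ∀ p : ℤ, Prime p → ¬ p ∣ 2 → ¬ (p ^ 2 ∣ η.re ∧ p ^ 2 ∣ η.im))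
    (hrp : ∀ p : ℤ, Prime p → ¬ p ∣ 2 → p ^ 2 ∣ η.norm → ¬ p ∣ η.im → p ∣ r)
    (S : Finset (O × ℤ)) (hS : ∀ P ∈ S, Pt Z g η P) (hrel : ∀ P ∈ S, ∀ P' ∈ S, Rel η P P') :
    S.card ≤ (2 * g + 1) * 2 ^ r.natAbs.primeFactors.card := by
  classical
  let f : O × ℤ → ℕ × Finset ℕ := fun P =>
    ((P.1.im * g / P.1.re).toNat, r.natAbs.primeFactors.filter (fun q => typ q η P.1 P.2))
  have hZ' : (0 : ℤ) < Z := by exact_mod_cast hZ
  have hg' : (0 : ℤ) < g := by exact_mod_cast hg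
  rw [← Finset.card_range (2 * g + 1), ← Finset.card_powerset, ← Finset.card_product]
  apply Finset.card_le_card_of_injOn f
  · intro P hP
    have hP := hS P hP
    simp only [f, Finset.coe_product, Set.mem_prod, Finset.mem_coe, Finset.mem_range,
      Finset.mem_powerset]
    refine ⟨?_, Finset.filter_subset _ _⟩
    have hk : 0 < P.1.re := lt_of_lt_of_le hZ' hP.k1
    have : P.1.im * g / P.1.re ≤ 2 * g := by
      apply Int.ediv_le_of_le_mul hk
      have := hP.k1; have := hP.v2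
      nlinarith
    omega
  · intro P hP P' hP' hf
    have hR := hrel P hP P' hP'
    have hP := hS P hP
    have hP' := hS P' hP'
    have hk : 0 < P.1.re := lt_of_lt_of_le hZ' hP.k1
    have hk' : 0 < P'.1.re := lt_of_lt_of_le hZ' hP'.k1
    have hw : 0 < P.2 := by
      by_contra hcon
      have := hP.big
      nlinarith
    have hw' : 0 < P'.2 := by
      by_contra hcon
      have := hP'.big
      nlinarith
    by_cases hD : cr P.1 P'.1 = 0
    · have e := eq_of_cr_eq_zero hk hk' hP.cop hP'.cop hD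
      have e2 : P.2 ^ 2 = P'.2 ^ 2 := by rw [← hP.eq, ← hP'.eq, e]
      exact Prod.ext e ((pow_left_inj₀ hw.le hw'.le two_ne_zero).1 e2)
    exfalso
    simp only [f, Prod.mk.injEq] at hf
    obtain ⟨hf1, hf2⟩ := hf
    have hdv := norm_dvd_Rm h4 hsf hP.eq hP'.eq hP.copw hP'.copw hD hR (by
      intro p hp hp2 hpd hpy
      have hq : p.natAbs.Prime := Int.prime_iff_natAbs_prime.1 hp
      have hmem : p.natAbs ∈ r.natAbs.primeFactors := by
        rw [Nat.mem_primeFactors]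
        exact ⟨hq, Int.natAbs_dvd_natAbs.2 (hrp p hp hp2 hpd hpy), Int.natAbs_ne_zero.2 hr⟩
      have ht : typ p.natAbs η P.1 P.2 ↔ typ p.natAbs η P'.1 P'.2 := by
        have := Finset.ext_iff.1 hf2 p.natAbs
        simpa [Finset.mem_filter, hmem] using this
      have := dvd_Rm_of_typ hq (Int.natAbs_dvd.2 ((dvd_pow_self p two_ne_zero).trans hpd))
        (fun h => hpy (Int.natAbs_dvd.1 h)) hP.eq hP'.eq ht
      exact Int.natAbs_dvd.1 this)
    have hRR := R_mul hP.eq hP'.eq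
    have hB : 0 ≤ Bf η P.1 P'.1 := by
      rw [Bf_eq]
      have := hP.v1; have := hP'.v1
      positivity
    set B := Bf η P.1 P'.1
    set D := cr P.1 P'.1 with hDdef
    have hD2 : 0 < D ^ 2 := by positivity
    have hww : 0 < P.2 * P'.2 := mul_pos hw hw'
    have hRm : 0 < P.2 * P'.2 - B := by
      by_contra hcon
      have : 0 < 8 * η.norm * D ^ 2 := by positivity
      nlinarith
    have h1 : η.norm ≤ 2 * (P.2 * P'.2 - B) := Int.le_of_dvd (by linarith) hdv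
    have h2 : P.2 * P'.2 ≤ 16 * D ^ 2 := by
      by_contra hcon
      push Not at hcon
      nlinarith
    -- same cell
    have hq : P.1.im * g / P.1.re = P'.1.im * g / P'.1.re := by
      have a1 : 0 ≤ P.1.im * g / P.1.re := Int.ediv_nonneg (mul_nonneg hP.v1 hg'.le) hk.le
      have a2 : 0 ≤ P'.1.im * g / P'.1.re := Int.ediv_nonneg (mul_nonneg hP'.v1 hg'.le) hk'.le
      omega
    have r1 := Int.emod_add_mul_ediv (P.1.im * g) P.1.re
    have r2 := Int.emod_add_mul_ediv (P'.1.im * g) P'.1.re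
    have r3 := Int.emod_nonneg (P.1.im * g) hk.ne'
    have r4 := Int.emod_lt_of_pos (P.1.im * g) hk
    have r5 := Int.emod_nonneg (P'.1.im * g) hk'.ne'
    have r6 := Int.emod_lt_of_pos (P'.1.im * g) hk'
    rw [← hq] at r2
    set a := P.1.im * g % P.1.re
    set b := P'.1.im * g % P'.1.re
    have hgD : g * D = P.1.re * b - P'.1.re * a := by
      rw [hDdef, cr]; linear_combination (-P.1.re) * r2 + P'.1.re * r1
    have hkk : P.1.re * P'.1.re ≤ 4 * (Z : ℤ) ^ 2 := by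
      have := hP.k2; have := hP'.k2; nlinarith
    have hu : g * D < 4 * (Z : ℤ) ^ 2 := by rw [hgD]; nlinarith
    have hl : - (4 * (Z : ℤ) ^ 2) < g * D := by rw [hgD]; nlinarith
    have h3 : (g * D) ^ 2 < (4 * (Z : ℤ) ^ 2) ^ 2 := by
      apply sq_lt_sq' hl hu
    have h5 : (16 * (Z : ℤ) ^ 2) * (16 * (Z : ℤ) ^ 2) ≤ (g * P.2) * (g * P'.2) :=
      mul_le_mul hP.big hP'.big (by positivity) (by positivity)
    have h6 : (g : ℤ) ^ 2 * (P.2 * P'.2) ≤ (g : ℤ) ^ 2 * (16 * D ^ 2) := by gcongr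
    nlinarith

end Pool.Agent.Lib.MP_af4c59_nt
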