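import Pool.Agent.Lib.MP_af4c59_nt.Zs

set_option autoImplicit false

namespace Pool.Agent.Lib.MP_af4c59_nt

open Finset

lemma card_le_sum_fib {α β : Type*} [DecidableEq β] (S : Finset α) (π : α → β) (I : Finset β)
    (F : β → ℝ) (hI : ∀ a ∈ S, π a ∈ I)
    (hF : ∀ b ∈ I, ((S.filter (fun a => π a = b)).card : ℝ) ≤ F b) :
    (S.card : ℝ) ≤ ∑ b ∈ I, F b := by
  rw [Finset.card_eq_sum_card_fiberwise (f := π) (t := I) (fun a ha => hI a ha)]
  push_cast
  exact Finset.sum_le_sum hF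

lemma card_le_mul_fib {α β : Type*} [DecidableEq β] (S : Finset α) (π : α → β) (I : Finset β)
    (F : ℝ) (hI : ∀ a ∈ S, π a ∈ I)
    (hF : ∀ b ∈ I, ((S.filter (fun a => π a = b)).card : ℝ) ≤ F) :
    (S.card : ℝ) ≤ I.card * F := by
  have := card_le_sum_fib S π I (fun _ => F) hI hF
  simpa using this

/-- The height of an element. -/
def ht (ρ : O) : ℕ := max ρ.re.natAbs ρ.im.natAbs

lemma card_shell (S : Finset O) (h : ℕ) (hh : 0 < h) (hS : ∀ ρ ∈ S, ht ρ = h) : S.card ≤ 12 * h := by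
  classical
  let I : Finset ℤ := Icc (-(h : ℤ)) h
  let E : Finset ℤ := {(h : ℤ), -(h : ℤ)}
  have hI : I.card = 2 * h + 1 := by simp [I]; omega
  have hE : E.card ≤ 2 := Finset.card_le_two
  have : S.card ≤ ((E ×ˢ I) ∪ (I ×ˢ E)).card := by
    apply Finset.card_le_card_of_injOn (fun ρ => (ρ.re, ρ.im))
    · intro ρ hρ
      have := hS ρ hρ
      unfold ht at this
      simp only [I, E, coe_union, coe_product, Set.mem_union, Set.mem_prod, mem_coe, mem_insert,
        mem_singleton, mem_Icc]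
      omega
    · intro a _ b _ hab
      simp only [Prod.mk.injEq] at hab
      ext
      · exact hab.1
      · exact hab.2
  have h2 := Finset.card_union_le (E ×ˢ I) (I ×ˢ E)
  rw [card_product, card_product, hI] at h2
  nlinarith

lemma sum_shell (S : Finset O) (f : ℕ → ℝ) (hf : ∀ h, 0 ≤ f h) (I : Finset ℕ) (h0 : 0 ∉ I)
    (hS : ∀ ρ ∈ S, ht ρ ∈ I) : ∑ ρ ∈ S, f (ht ρ) ≤ ∑ h ∈ I, 12 * h * f h := by
  rw [← Finset.sum_fiberwise_of_maps_to (g := ht) (t := I) hS]
  apply Finset.sum_le_sum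
  intro h hh
  have hpos : 0 < h := Nat.pos_of_ne_zero (by rintro rfl; exact h0 hh)
  rw [Finset.sum_congr rfl (g := fun _ => f h) (fun ρ hρ => by rw [(mem_filter.1 hρ).2])]
  rw [sum_const, nsmul_eq_mul]
  apply mul_le_mul_of_nonneg_right _ (hf h)
  exact_mod_cast card_shell _ h hpos (fun ρ hρ => (mem_filter.1 hρ).2)

lemma card_ht_le (S : Finset O) (H : ℕ) (hS : ∀ ρ ∈ S, ht ρ ≤ H) : S.card ≤ (2 * H + 1) ^ 2 := by
  classical
  let I : Finset ℤ := Icc (-(H : ℤ)) H
  have hI : I.card = 2 * H + 1 := by simp [I]; omega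
  rw [sq, ← hI, ← card_product]
  apply Finset.card_le_card_of_injOn (fun ρ => (ρ.re, ρ.im))
  · intro ρ hρ
    have := hS ρ hρ
    unfold ht at this
    simp only [I, coe_product, Set.mem_prod, mem_coe, mem_Icc]
    omega
  · intro a _ b _ hab
    simp only [Prod.mk.injEq] at hab
    ext
    · exact hab.1
    · exact hab.2

lemma four_pow_omega_le (n : ℕ) (hn : n ≠ 0) : 4 ^ n.primeFactors.card ≤ 16 * n := by
  classical
  rw [← Finset.card_filter_add_card_filter_not (fun p => p < 4), pow_add]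
  apply Nat.mul_le_mul
  · have : (n.primeFactors.filter (fun p => p < 4)).card ≤ ({2, 3} : Finset ℕ).card := by
      apply card_le_card
      intro p hp
      rw [mem_filter] at hp
      have := (Nat.prime_of_mem_primeFactors hp.1).two_le
      simp only [mem_insert, mem_singleton]; omega
    calc _ ≤ 4 ^ 2 := Nat.pow_le_pow_right (by norm_num) (by simpa using this)
      _ = 16 := by norm_num
  · calc 4 ^ (n.primeFactors.filter (fun p => ¬ p < 4)).card
        = ∏ _p ∈ n.primeFactors.filter (fun p => ¬ p < 4), 4 := by simp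
      _ ≤ ∏ p ∈ n.primeFactors.filter (fun p => ¬ p < 4), p :=
        Finset.prod_le_prod' (fun p hp => by have := (mem_filter.1 hp).2; omega)
      _ ≤ ∏ p ∈ n.primeFactors, p :=
        Finset.prod_le_prod_of_subset_of_one_le' (filter_subset _ _)
          (fun p hp _ => (Nat.prime_of_mem_primeFactors hp).one_le)
      _ ≤ n := Nat.le_of_dvd (Nat.pos_of_ne_zero hn) (Nat.prod_primeFactors_dvd n)

lemma two_pow_omega_le (n : ℕ) (hn : n ≠ 0) : (2 : ℝ) ^ n.primeFactors.card ≤ 4 * √n := by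
  have h := four_pow_omega_le n hn
  have h2 : ((2 : ℝ) ^ n.primeFactors.card) ^ 2 ≤ (4 * √n) ^ 2 := by
    rw [mul_pow, Real.sq_sqrt (Nat.cast_nonneg n), ← pow_mul, mul_comm _ 2, pow_mul]
    norm_num
    exact_mod_cast h
  exact (pow_le_pow_iff_left₀ (by positivity) (by positivity) two_ne_zero).1 h2

lemma exists_sum_three_halves : ∃ C : ℝ, 0 < C ∧ ∀ s : Finset ℕ, ∑ g ∈ s, 1 / ((g : ℝ) * √g) ≤ C := by
  have hs : Summable (fun g : ℕ => 1 / (g : ℝ) ^ (3 / 2 : ℝ)) :=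
    Real.summable_one_div_nat_rpow.2 (by norm_num)
  have e : ∀ g : ℕ, 1 / ((g : ℝ) * √g) = 1 / (g : ℝ) ^ (3 / 2 : ℝ) := by
    intro g
    rcases Nat.eq_zero_or_pos g with rfl | hg
    · simp
    · have hg' : (0 : ℝ) < g := by exact_mod_cast hg
      rw [Real.sqrt_eq_rpow, show (3 / 2 : ℝ) = 1 + 1 / 2 by norm_num, Real.rpow_add hg',
        Real.rpow_one]
  refine ⟨∑' g : ℕ, 1 / (g : ℝ) ^ (3 / 2 : ℝ) + 1, ?_, fun s => ?_⟩
  · have : 0 ≤ ∑' g : ℕ, 1 / (g : ℝ) ^ (3 / 2 : ℝ) := tsum_nonneg (fun g => by positivity)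
    linarith
  · simp_rw [e]
    have := hs.sum_le_tsum s (fun g _ => by positivity)
    linarith

lemma sum_inv_sq_tail (s : Finset ℕ) (M : ℕ) (hs : ∀ g ∈ s, M < g) :
    ∑ g ∈ s, (1 : ℝ) / (g : ℝ) ^ 2 ≤ 2 / ((M : ℝ) + 1) := by
  have h := sum_Ioo_inv_sq_le (α := ℝ) M (s.sup id + 1)
  refine le_trans ?_ h
  simp_rw [one_div]
  apply Finset.sum_le_sum_of_subset_of_nonneg
  · intro g hg
    rw [mem_Ioo]
    exact ⟨hs g hg, Nat.lt_succ_of_le (Finset.le_sup (f := id) hg)⟩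
  · intro g _ _; positivity

end Pool.Agent.Lib.MP_af4c59_nt
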