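import Pool.Agent.Lib.MP_af4c59_nt.Family

set_option autoImplicit false

namespace Pool.Agent.Lib.MP_af4c59_nt

open Finset

lemma Af_le_of_bal {ρ η : O} (h0 : 0 < η.re) (h1 : 2 * |η.im| ≤ η.re)
    (h2 : 2 * |(ρ * ρ * η).im| ≤ (ρ * ρ * η).re) : Af ρ ≤ 3 * |ρ.norm| := by
  have hA : 0 ≤ Af ρ := by unfold Af; positivity
  set A := Af ρ with hAdef
  set B := 2 * ρ.re * ρ.im with hB
  have e1 : (ρ * ρ * η).re = A * η.re + 2 * B * η.im := by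
    simp only [hAdef, hB, Af, Zsqrtd.re_mul, Zsqrtd.im_mul]; ring
  have e2 : (ρ * ρ * η).im = A * η.im + B * η.re := by
    simp only [hAdef, hB, Af, Zsqrtd.re_mul, Zsqrtd.im_mul]; ring
  have e3 : ρ.norm ^ 2 = A ^ 2 - 2 * B ^ 2 := by
    simp only [hAdef, hB, Af, O_norm_def]; ring
  rw [e1, e2] at h2
  have a1 := le_abs_self η.im
  have a2 := neg_abs_le η.im
  have a3 := le_abs_self (A * η.im + B * η.re)
  have a4 := neg_abs_le (A * η.im + B * η.re)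
  have k1 : 3 * B ≤ 2 * A := by
    by_contra hcon
    push Not at hcon
    have b1 : 0 < η.re - η.im := by omega
    have b2 : 0 ≤ A * (η.re + 2 * η.im) := mul_nonneg hA (by omega)
    nlinarith [mul_pos (sub_pos.2 hcon) b1]
  have k2 : -(2 * A) ≤ 3 * B := by
    by_contra hcon
    push Not at hcon
    have b1 : 0 < η.re + η.im := by omega
    have b2 : 0 ≤ A * (η.re - 2 * η.im) := mul_nonneg hA (by omega)
    nlinarith [mul_pos (sub_pos.2 hcon) b1]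
  have k3 : A ^ 2 ≤ (3 * |ρ.norm|) ^ 2 := by
    rw [mul_pow, sq_abs, e3]; nlinarith
  exact (pow_le_pow_iff_left₀ hA (by positivity) two_ne_zero).1 k3

lemma abs_norm_le (ρ : O) : |ρ.norm| ≤ 2 * ((ht ρ : ℕ) : ℤ) ^ 2 := by
  have h1 : |ρ.re| ≤ ((ht ρ : ℕ) : ℤ) := by
    rw [← Int.natCast_natAbs]; exact_mod_cast le_max_left _ _
  have h2 : |ρ.im| ≤ ((ht ρ : ℕ) : ℤ) := by
    rw [← Int.natCast_natAbs]; exact_mod_cast le_max_right _ _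
  have h3 := pow_le_pow_left₀ (abs_nonneg _) h1 2
  have h4 := pow_le_pow_left₀ (abs_nonneg _) h2 2
  rw [sq_abs] at h3 h4
  rw [O_norm_def, abs_le]
  constructor <;> nlinarith [sq_nonneg ρ.re, sq_nonneg ρ.im]

lemma coprime_star {ξ : O} (hk : Odd ξ.re) (hc : IsCoprime ξ.re ξ.im) : IsCoprime ξ (star ξ) := by
  obtain ⟨a, b, hab⟩ := hc
  have hN : Odd ξ.norm := by
    rw [O_norm_def]; exact (hk.pow).sub_even (even_two_mul _)
  obtain ⟨t, ht⟩ := hN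
  refine ⟨(ξ.norm : O) * star ξ - ((t ^ 2 + t : ℤ) : O) * ⟨2 * a, b⟩,
    -((t ^ 2 + t : ℤ) : O) * ⟨2 * a, -b⟩, ?_⟩
  have e : ((ξ.norm : O) * star ξ) * ξ = ((ξ.norm * ξ.norm : ℤ) : O) := by
    rw [mul_assoc, mul_comm (star ξ), ← Zsqrtd.norm_eq_mul_conj]; push_cast; ring
  rw [sub_mul, e, ht]
  ext
  · simp only [Zsqrtd.re_add, Zsqrtd.re_sub, Zsqrtd.re_mul, Zsqrtd.im_mul, Zsqrtd.re_neg,
      Zsqrtd.im_neg, Zsqrtd.re_intCast, Zsqrtd.im_intCast, Zsqrtd.re_star, Zsqrtd.im_star,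
      Zsqrtd.re_one]
    linear_combination (-4 * (t ^ 2 + t)) * hab
  · simp only [Zsqrtd.im_add, Zsqrtd.im_sub, Zsqrtd.re_mul, Zsqrtd.im_mul, Zsqrtd.re_neg,
      Zsqrtd.im_neg, Zsqrtd.re_intCast, Zsqrtd.im_intCast, Zsqrtd.re_star, Zsqrtd.im_star,
      Zsqrtd.im_one]
    ring

/-- Reduced data of a member of the family. -/
structure Dat (Z g : ℕ) (ρ η ξ : O) (w : ℤ) : Prop where
  gpos : 0 < g
  pt : Pt Z g (ρ * ρ * η) (ξ, w)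
  kodd : Odd ξ.re
  x4 : 4 ∣ (ρ * ρ * η).re
  yodd : Odd (ρ * ρ * η).im
  y0 : 0 ≤ (ρ * ρ * η).im
  bal : 2 * (ρ * ρ * η).im ≤ (ρ * ρ * η).re
  x2 : (g : ℤ) ^ 2 * (ρ * ρ * η).re ≤ 4608 * (Z : ℤ) ^ 2
  hsf : ∀ p : ℤ, Prime p → ¬ p ∣ 2 → ¬ (p ^ 2 ∣ (ρ * ρ * η).re ∧ p ^ 2 ∣ (ρ * ρ * η).im)
  sf : Squarefree η
  pos1 : 0 < η.re
  bal1 : 2 * |η.im| ≤ η.re

lemma exists_content (x y : ℤ) (hy : y ≠ 0) : ∃ (g : ℕ) (x' y' : ℤ), 0 < g ∧ x = g ^ 2 * x' ∧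
    y = g ^ 2 * y' ∧ ∀ p : ℤ, Prime p → ¬ (p ^ 2 ∣ x' ∧ p ^ 2 ∣ y') := by
  induction hn : y.natAbs using Nat.strong_induction_on generalizing x y with
  | _ n ih =>
    by_cases h : ∀ p : ℤ, Prime p → ¬ (p ^ 2 ∣ x ∧ p ^ 2 ∣ y)
    · exact ⟨1, x, y, one_pos, by simp, by simp, h⟩
    · push Not at h
      obtain ⟨p, hp, ⟨x₁, rfl⟩, ⟨y₁, rfl⟩⟩ := h
      have hy1 : y₁ ≠ 0 := by rintro rfl; simp at hy
      have hp2 : 2 ≤ p.natAbs := (Int.prime_iff_natAbs_prime.1 hp).two_le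
      have hlt : y₁.natAbs < n := by
        rw [← hn, Int.natAbs_mul, Int.natAbs_pow]
        have := Int.natAbs_pos.2 hy1
        have h4 : 4 ≤ p.natAbs ^ 2 := by nlinarith
        nlinarith
      obtain ⟨g, x', y', hg, rfl, rfl, h⟩ := ih _ hlt x₁ y₁ hy1 rfl
      refine ⟨p.natAbs * g, x', y', by positivity, ?_, ?_, h⟩
      · push_cast; rw [mul_pow, sq_abs]; ring
      · push_cast; rw [mul_pow, sq_abs]; ring

lemma Fam.exists_dat {Z : ℕ} (hZ : 0 < Z) {η ξ : O} {w : ℤ} (h : Fam Z η ξ w) :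
    ∃ (g : ℕ) (ρ η₁ : O) (w₂ : ℤ), Dat Z g ρ η₁ ξ w₂ ∧ η = (g : O) ^ 2 * (ρ * ρ * η₁) ∧
      w = g * w₂ := by
  have hy : η.im ≠ 0 := by
    intro h0; have := h.yodd; rw [h0] at this; simp at this
  obtain ⟨g, x, y, hg, hx, hy', hsf⟩ := exists_content η.re η.im hy
  have hg' : (0 : ℤ) < g := by exact_mod_cast hg
  have hg2 : (0 : ℤ) < (g : ℤ) ^ 2 := by positivity
  have hyo : Odd ((g : ℤ) ^ 2 * y) := hy' ▸ h.yodd
  have hgo : Odd ((g : ℤ) ^ 2) := (Int.odd_mul.1 hyo).1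
  have hy2 : Odd y := (Int.odd_mul.1 hyo).2
  have hx4 : 4 ∣ x := by
    have h1 : (4 : ℤ) ∣ (g : ℤ) ^ 2 * x := hx ▸ h.x4
    have h2 : IsCoprime (2 : ℤ) ((g : ℤ) ^ 2) := Int.isCoprime_two_left.2 hgo
    have h3 : IsCoprime ((2 : ℤ) ^ 2) ((g : ℤ) ^ 2) := h2.pow_left
    exact h3.dvd_of_dvd_mul_left h1
  have hy0 : 0 ≤ y := by
    have := h.y0; rw [hy'] at this; exact (mul_nonneg_iff_of_pos_left hg2).1 this
  have hbal : 2 * y ≤ x := by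
    have := h.bal; rw [hy', hx] at this
    by_contra hc; push Not at hc; nlinarith
  have hx0 : 0 < x := by
    have h1 := h.x1
    have : (0 : ℤ) < Z := by exact_mod_cast hZ
    rw [hx] at h1
    by_contra hc; push Not at hc; nlinarith
  have hN : 0 < (⟨x, y⟩ : O).norm := by rw [O_norm_def]; simp only; nlinarith
  obtain ⟨ρ, η₁, he, hs, hp, hb⟩ := exists_decomp ⟨x, y⟩ hx0 hN
  have hη : η = (g : O) ^ 2 * (ρ * ρ * η₁) := by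
    rw [← he]
    ext
    · rw [hx]; simp [sq]
    · rw [hy']; simp [sq]
  have hB : (g : ℤ) ^ 2 * Bf (ρ * ρ * η₁) ξ ξ = w ^ 2 := by
    rw [← h.eq, Bf_eq, Bf_eq, hx, hy', ← he]; ring
  obtain ⟨w₂, rfl⟩ : (g : ℤ) ∣ w := (Int.pow_dvd_pow_iff two_ne_zero).1 ⟨_, hB.symm⟩
  refine ⟨g, ρ, η₁, w₂, ⟨hg, ⟨h.k1, h.k2, h.v1, h.v2, h.cop, ?_, h.copw.of_mul_left_right, h.big⟩,
    h.kodd, ?_, ?_, ?_, ?_, ?_, ?_, hs, hp, hb⟩, hη, rfl⟩
  · apply mul_left_cancel₀ hg2.ne'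
    rw [hB]; ring
  · rw [← he]; exact hx4
  · rw [← he]; exact hy2
  · rw [← he]; exact hy0
  · rw [← he]; exact hbal
  · rw [← he, ← hx]; exact h.x2
  · rw [← he]; exact fun p hp _ => hsf p hp

theorem dat_card (Z : ℕ) (hZ : 10 ^ 8 ≤ Z) : ∃ S : Finset (ℕ × O × O × O × ℤ),
    (∀ a ∈ S, Dat Z a.1 a.2.1 a.2.2.1 a.2.2.2.1 a.2.2.2.2) ∧ (Z : ℝ) ^ 4 ≤ S.card := by
  classical
  obtain ⟨S, hS, hc⟩ := family_card Z hZ
  have hZ0 : 0 < Z := lt_of_lt_of_le (by norm_num) hZ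
  have hex : ∀ a : S, ∃ (g : ℕ) (ρ η₁ : O) (w₂ : ℤ), Dat Z g ρ η₁ a.1.2.1 w₂ ∧
      a.1.1 = (g : O) ^ 2 * (ρ * ρ * η₁) ∧ a.1.2.2 = g * w₂ := fun a => (hS a.1 a.2).exists_dat hZ0
  choose g ρ η₁ w₂ h1 h2 h3 using hex
  refine ⟨univ.image (fun a : S => (g a, ρ a, η₁ a, a.1.2.1, w₂ a)), ?_, ?_⟩
  · intro b hb
    obtain ⟨a, -, rfl⟩ := mem_image.1 hb
    exact h1 a
  · rw [card_image_of_injective]
    · simpa using hc
    · intro a b hab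
      simp only [Prod.mk.injEq] at hab
      obtain ⟨e1, e2, e3, e4, e5⟩ := hab
      ext1
      refine Prod.ext ?_ (Prod.ext e4 ?_)
      · rw [h2 a, h2 b, e1, e2, e3]
      · rw [h3 a, h3 b, e1, e5]

namespace Dat

variable {Z g : ℕ} {ρ η ξ : O} {w : ℤ}

lemma norm_mod (h : Dat Z g ρ η ξ w) : (ρ * ρ * η).norm % 16 = 14 := by
  obtain ⟨a, ha⟩ := h.x4
  obtain ⟨b, hb⟩ := h.yodd
  rw [O_norm_def, ha, hb]
  obtain ⟨c, hc⟩ := Int.even_mul_succ_self b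
  have : (4 * a) ^ 2 - 2 * (2 * b + 1) ^ 2 = 16 * (a ^ 2 - c - 1) + 14 := by
    linear_combination (-8) * hc
  omega

lemma n4 (h : Dat Z g ρ η ξ w) : ¬ 4 ∣ (ρ * ρ * η).norm := by
  have := h.norm_mod; omega

lemma nsq (h : Dat Z g ρ η ξ w) : ¬ IsSquare (ρ * ρ * η).norm := by
  rintro ⟨r, hr⟩
  have h1 := h.norm_mod
  rcases Int.even_or_odd' r with ⟨s, rfl | rfl⟩
  · have : 2 * s * (2 * s) = 4 * (s * s) := by ring
    omega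
  · have : (2 * s + 1) * (2 * s + 1) = 4 * (s * s + s) + 1 := by ring
    omega

lemma nsq2 (h : Dat Z g ρ η ξ w) : ¬ IsSquare (2 * (ρ * ρ * η).norm) := by
  rintro ⟨r, hr⟩
  have h1 := h.norm_mod
  rcases Int.even_or_odd' r with ⟨s, rfl | rfl⟩
  · rcases Int.even_or_odd' s with ⟨t, rfl | rfl⟩
    · have : 2 * (2 * t) * (2 * (2 * t)) = 16 * (t * t) := by ring
      omega
    · have : 2 * (2 * t + 1) * (2 * (2 * t + 1)) = 16 * (t * t + t) + 4 := by ring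
      omega
  · have : (2 * s + 1) * (2 * s + 1) = 4 * (s * s + s) + 1 := by ring
    omega

lemma ypos (h : Dat Z g ρ η ξ w) : 0 < (ρ * ρ * η).im := by
  obtain ⟨b, hb⟩ := h.yodd
  have := h.y0
  omega

lemma npos (h : Dat Z g ρ η ξ w) : 0 < (ρ * ρ * η).norm := by
  have h1 := h.ypos
  have h2 := h.bal
  rw [O_norm_def]; nlinarith

lemma norm_eq (ρ η : O) : (ρ * ρ * η).norm = ρ.norm ^ 2 * η.norm := by
  rw [Zsqrtd.norm_mul, Zsqrtd.norm_mul]; ring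

lemma ρ0 (h : Dat Z g ρ η ξ w) : ρ.norm ≠ 0 := by
  intro h0
  have := h.npos
  rw [norm_eq, h0] at this
  simp at this

lemma ξ0 (h : Dat Z g ρ η ξ w) : ξ ≠ 0 := by
  rintro rfl
  have := h.kodd
  simp at this

lemma hrp (h : Dat Z g ρ η ξ w) (p : ℤ) (hp : Prime p) (hp2 : ¬ p ∣ 2)
    (h1 : p ^ 2 ∣ (ρ * ρ * η).norm) (h2 : ¬ p ∣ (ρ * ρ * η).im) : p ∣ ρ.norm := by
  by_contra hcon
  rw [norm_eq] at h1
  have hc : IsCoprime (p ^ 2) (ρ.norm ^ 2) :=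
    ((hp.irreducible.coprime_iff_not_dvd).2 hcon).pow
  have h3 := dvd_of_sq_dvd_norm hp hp2 h.sf (hc.dvd_of_dvd_mul_left h1)
  apply h2
  have : (p : O) ∣ ρ * ρ * η := Dvd.dvd.mul_left ((Zsqrtd.intCast_dvd _ _).2 h3) _
  exact ((Zsqrtd.intCast_dvd _ _).1 this).2

lemma not_dvd_ρ (h : Dat Z g ρ η ξ w) {p : ℤ} (hp : Prime p) : ¬ (p : O) ∣ ρ := by
  intro hd
  have h1 : ((p ^ 2 : ℤ) : O) ∣ ρ * ρ * η := by
    push_cast; rw [sq]; exact Dvd.dvd.mul_right (mul_dvd_mul hd hd) _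
  have h2 := (Zsqrtd.intCast_dvd _ _).1 h1
  by_cases hp2 : p ∣ 2
  · have h3 : (2 : ℤ) ∣ p := by
      exact (hp.associated_of_dvd Int.prime_two hp2).symm.dvd
    have h4 : (2 : ℤ) ∣ (ρ * ρ * η).im := h3.trans ((dvd_pow_self p two_ne_zero).trans h2.2)
    obtain ⟨b, hb⟩ := h.yodd
    omega
  · exact h.hsf p hp hp2 h2

lemma Bf_mul (ρ η ξ ξ' : O) : Bf η (ρ * ξ) (ρ * ξ') = Bf (ρ * ρ * η) ξ ξ' := by
  unfold Bf; congr 2; ring

lemma prim (h : Dat Z g ρ η ξ w) : IsCoprime (ρ * ξ).re (ρ * ξ).im := by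
  apply isCoprime_of_prime_dvd
  · rintro ⟨h1, h2⟩
    have : ρ * ξ = 0 := Zsqrtd.ext h1 h2
    rcases mul_eq_zero.1 this with h3 | h3
    · exact h.ρ0 (by rw [h3]; simp)
    · exact h.ξ0 h3
  · intro p hp h1 h2
    obtain ⟨c, hc⟩ := (Zsqrtd.intCast_dvd p (ρ * ξ)).2 ⟨h1, h2⟩
    have e : w ^ 2 = p ^ 2 * Bf η c c := by
      have := h.pt.eq
      simp only at this
      rw [← this, ← Bf_mul, hc, Bf_eq, Bf_eq]
      simp only [Zsqrtd.re_mul, Zsqrtd.im_mul, Zsqrtd.re_intCast, Zsqrtd.im_intCast]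
      ring
    have hw : p ∣ w := hp.dvd_of_dvd_pow (n := 2) ⟨p * Bf η c c, by rw [e]; ring⟩
    have hcop : IsCoprime p ξ.norm := IsCoprime.of_isCoprime_of_dvd_left h.pt.copw hw
    obtain ⟨a, b, hab⟩ := hcop
    apply h.not_dvd_ρ hp
    refine ⟨a * ρ + b * c * star ξ, ?_⟩
    have e2 : (a : O) * p + b * (ξ * star ξ) = 1 := by
      rw [← Zsqrtd.norm_eq_mul_conj]; exact_mod_cast hab
    linear_combination (-ρ) * e2 + b * star ξ * hc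

lemma wpos (hZ : 0 < Z) (h : Dat Z g ρ η ξ w) : 0 < w := by
  have h1 := h.pt.big
  have h2 : (0 : ℤ) < Z := by exact_mod_cast hZ
  have h3 : (0 : ℤ) ≤ g := by positivity
  simp only at h1
  by_contra hc; push Not at hc; nlinarith

lemma ht_le (h : Dat Z g ρ η ξ w) : ((ht ρ : ℕ) : ℤ) ^ 2 ≤ 3 * |ρ.norm| :=
  (ht_sq_le_Af ρ).trans (Af_le_of_bal h.pos1 h.bal1 (by rw [abs_of_nonneg h.y0]; exact h.bal))

lemma ht_pos (h : Dat Z g ρ η ξ w) : 0 < ht ρ := by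
  have h1 := abs_norm_le ρ
  have h2 := abs_pos.2 h.ρ0
  by_contra hc
  have : ht ρ = 0 := by omega
  rw [this] at h1
  simp at h1
  exact h.ρ0 h1

lemma norm_le (h : Dat Z g ρ η ξ w) : |(ρ * ρ * η).norm| ≤ (4608 * (Z : ℤ) ^ 2) ^ 2 := by
  have h1 := h.x2
  have h2 := h.ypos
  have h3 := h.bal
  have h4 : (1 : ℤ) ≤ (g : ℤ) ^ 2 := one_le_pow₀ (by exact_mod_cast h.gpos)
  have h5 : (ρ * ρ * η).re ≤ 4608 * (Z : ℤ) ^ 2 := by nlinarith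
  rw [abs_of_pos h.npos, O_norm_def]
  have h6 := pow_le_pow_left₀ (by omega) h5 2
  nlinarith

lemma size (h : Dat Z g ρ η ξ w) :
    η.re * ((g : ℤ) ^ 2 * ((ht ρ : ℕ) : ℤ) ^ 2) ≤ 27648 * (Z : ℤ) ^ 2 := by
  have h1 := h.x2
  have h2 := h.ypos
  have h3 := h.bal
  have h5 : ρ.norm ^ 2 * η.norm ≤ (ρ * ρ * η).re ^ 2 := by
    rw [← norm_eq, O_norm_def]; nlinarith
  have h6 : η.re ^ 2 ≤ 2 * η.norm := by
    have := pow_le_pow_left₀ (by positivity) h.bal1 2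
    rw [mul_pow, sq_abs] at this
    rw [O_norm_def]; nlinarith
  have h7 : η.re * |ρ.norm| ≤ 2 * (ρ * ρ * η).re := by
    apply (pow_le_pow_iff_left₀ (mul_nonneg h.pos1.le (abs_nonneg _)) (by omega) two_ne_zero).1
    rw [mul_pow, sq_abs]
    nlinarith [sq_nonneg ρ.norm, sq_nonneg (ρ * ρ * η).re]
  have h8 := h.ht_le
  have h9 := h.pos1
  calc η.re * ((g : ℤ) ^ 2 * ((ht ρ : ℕ) : ℤ) ^ 2) ≤ η.re * ((g : ℤ) ^ 2 * (3 * |ρ.norm|)) := by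
        gcongr
    _ = 3 * (g : ℤ) ^ 2 * (η.re * |ρ.norm|) := by ring
    _ ≤ 3 * (g : ℤ) ^ 2 * (2 * (ρ * ρ * η).re) := by gcongr
    _ ≤ _ := by nlinarith

lemma n41 (h : Dat Z g ρ η ξ w) : ¬ 4 ∣ η.norm := fun hd =>
  h.n4 (by rw [norm_eq]; exact hd.mul_left _)

lemma npos1 (h : Dat Z g ρ η ξ w) : 0 < η.norm := by
  have := h.npos
  rw [norm_eq] at this
  exact pos_of_mul_pos_right this (sq_nonneg _)

end Dat

end Pool.Agent.Lib.MP_af4c59_nt
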