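import Pool.Agent.Lib.MP_af4c59_nt.Conic

set_option autoImplicit false

namespace Pool.Agent.Lib.MP_af4c59_nt

lemma exists_small_value (D : ℤ) (hD : 0 < D) (a b c : ℤ) (ha : 0 < a) (h : b ^ 2 - 4 * a * c = -D) :
    ∃ t₁ t₂ : ℤ, IsCoprime t₁ t₂ ∧ 3 * (a * t₁ ^ 2 + b * t₁ * t₂ + c * t₂ ^ 2) ^ 2 ≤ D := by
  induction hn : a.natAbs using Nat.strong_induction_on generalizing a b c with
  | _ n ih =>
    obtain ⟨q, hq⟩ := exists_round b (2 * a) (by omega)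
    rw [abs_of_pos (by omega : 0 < 2 * a)] at hq
    set m := -q
    have hb' : |b + 2 * a * m| ≤ a := by
      have : b + 2 * a * m = b - 2 * a * q := by simp [m]; ring
      rw [this]; omega
    set b' := b + 2 * a * m with hb'def
    set c' := a * m ^ 2 + b * m + c with hc'def
    have hdisc : b' ^ 2 - 4 * c' * a = -D := by rw [hb'def, hc'def]; linear_combination h
    have hb2 : b' ^ 2 ≤ a ^ 2 := by rw [← sq_abs b']; exact pow_le_pow_left₀ (abs_nonneg _) hb' 2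
    by_cases hac : a ≤ c'
    · refine ⟨1, 0, isCoprime_one_left, ?_⟩
      nlinarith
    · push Not at hac
      have hc0 : 0 < c' := by
        by_contra hcon
        nlinarith [sq_nonneg b']
      obtain ⟨s₁, s₂, hs, hle⟩ := ih c'.natAbs (by omega) c' b' a hc0 hdisc rfl
      refine ⟨m * s₁ + s₂, s₁, ?_, ?_⟩
      · obtain ⟨u, v, huv⟩ := hs
        exact ⟨v, u - v * m, by linear_combination huv⟩
      · convert hle using 3
        rw [hb'def, hc'def]; ring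

lemma isSquare_of_mul_sq {x s t : ℤ} (hs : s ≠ 0) (h : x * s ^ 2 = t ^ 2) : IsSquare x := by
  have : s ∣ t := (Int.pow_dvd_pow_iff two_ne_zero).1 ⟨x, by rw [← h]; ring⟩
  obtain ⟨u, rfl⟩ := this
  exact ⟨u, by apply mul_left_cancel₀ (pow_ne_zero 2 hs); linear_combination h⟩

lemma three_point {η ξ₁ ξ₂ ξ₃ : O} {w₁ w₂ w₃ s s' : ℤ} (h₁ : Bf η ξ₁ ξ₁ = w₁ ^ 2)
    (h₂ : Bf η ξ₂ ξ₂ = w₂ ^ 2) (h₃ : Bf η ξ₃ ξ₃ = w₃ ^ 2) (hs : s ≠ 0) (hs' : s' ≠ 0)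
    (e : 2 * (w₁ * w₃ + Bf η ξ₁ ξ₃) = s ^ 2) (e' : 2 * (w₂ * w₃ + Bf η ξ₂ ξ₃) = s' ^ 2) :
    IsSquare (2 * (w₁ * w₂ + Bf η ξ₁ ξ₂)) := by
  have g : Bf η ξ₁ ξ₁ * Bf η ξ₂ ξ₂ * Bf η ξ₃ ξ₃ + 2 * Bf η ξ₁ ξ₂ * Bf η ξ₁ ξ₃ * Bf η ξ₂ ξ₃
      - Bf η ξ₃ ξ₃ * Bf η ξ₁ ξ₂ ^ 2 - Bf η ξ₂ ξ₂ * Bf η ξ₁ ξ₃ ^ 2
      - Bf η ξ₁ ξ₁ * Bf η ξ₂ ξ₃ ^ 2 = 0 := by
    simp only [Bf_eq]; ring
  rw [h₁, h₂, h₃] at g
  apply isSquare_of_mul_sq (mul_ne_zero hs hs')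
    (t := 2 * (w₁ * w₂ * w₃ + w₃ * Bf η ξ₁ ξ₂ + w₂ * Bf η ξ₁ ξ₃ + w₁ * Bf η ξ₂ ξ₃))
  rw [mul_pow, ← e, ← e']
  linear_combination 4 * g

/-- Small points on the conic of a squarefree element. -/
structure Sm (η : O) (g : ℕ) (ξ : O) (w : ℤ) : Prop where
  gpos : 0 < g
  wpos : 0 < w
  cop : IsCoprime ξ.re ξ.im
  eq : Bf η ξ ξ = w ^ 2
  small : (g * w) ^ 2 ≤ 16 * η.norm
  gdvd : (g : ℤ) ∣ 32 * η.norm
  gsf : ∀ p : ℤ, Prime p → ¬ p ∣ 2 → ¬ p ^ 2 ∣ g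

lemma descent {η ξ : O} {w : ℤ} (hη : Squarefree η) (hN : 0 < η.norm) (hw : 0 < w)
    (hc : IsCoprime ξ.re ξ.im) (h : Bf η ξ ξ = w ^ 2) :
    ∃ (g : ℕ) (ξ' : O) (w' : ℤ), Sm η g ξ' w' ∧
      ∃ s : ℤ, s ≠ 0 ∧ 2 * (w * (g * w') + Bf η ξ (g * ξ')) = s ^ 2 := by
  obtain ⟨u, u', huv⟩ := hc
  let ξ₀ : O := ⟨-u', u⟩
  have hcr : cr ξ ξ₀ = 1 := by simp only [cr, ξ₀]; linear_combination huv
  have hgram := Bf_gram η ξ ξ₀
  rw [hcr, h] at hgram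
  set B := Bf η ξ ξ₀ with hB
  set c := Bf η ξ₀ ξ₀ with hcdef
  obtain ⟨t₁, t₂, ht, hle⟩ := exists_small_value (32 * η.norm) (by positivity) w (2 * B) (w * c) hw
    (by linear_combination -4 * hgram)
  set φ := w * t₁ ^ 2 + 2 * B * t₁ * t₂ + w * c * t₂ ^ 2 with hφ
  set K := t₁ ^ 2 - c * t₂ ^ 2 with hK
  set U := 2 * w * t₁ + 2 * B * t₂ with hU
  set V := t₂ * U with hV
  have hφpos : 0 < φ := by
    have e : 4 * w * φ = U ^ 2 + 32 * η.norm * t₂ ^ 2 := by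
      rw [hφ, hU]; linear_combination 4 * t₂ ^ 2 * hgram
    by_cases h2 : t₂ = 0
    · have h1 : t₁ ≠ 0 := by
        rintro rfl; rw [h2] at ht; exact not_isCoprime_zero_zero ht
      rw [hφ, h2]
      have : 0 < w * t₁ ^ 2 := by positivity
      linarith
    · have : 0 < 4 * w * φ := by rw [e]; positivity
      by_contra hcon
      nlinarith
  have hquad : ∀ a b : ℤ, Bf η ((a : O) * ξ + (b : O) * ξ₀) ((a : O) * ξ + (b : O) * ξ₀) =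
      a ^ 2 * w ^ 2 + 2 * a * b * B + b ^ 2 * c := by
    intro a b
    rw [← h, hB, hcdef]
    simp only [Bf_eq, Zsqrtd.re_add, Zsqrtd.im_add, Zsqrtd.re_smul, Zsqrtd.im_smul]; ring
  have hφ2 : K ^ 2 * w ^ 2 + 2 * K * V * B + V ^ 2 * c = φ ^ 2 := by
    rw [hφ, hK, hV, hU]; ring
  by_cases hU0 : U = 0
  · refine ⟨1, ξ, w, ⟨one_pos, hw, ⟨u, u', huv⟩, h, ?_, by simp, ?_⟩, 2 * w, by omega, ?_⟩
    · have hV0 : V = 0 := by rw [hV, hU0, mul_zero]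
      rw [hV0] at hφ2
      have hK0 : K ≠ 0 := by
        rintro hK0; rw [hK0] at hφ2
        nlinarith
      have : 1 ≤ K ^ 2 := by
        have : 0 < K ^ 2 := by positivity
        omega
      push_cast
      nlinarith
    · intro p hp _ h1
      exact hp.not_isUnit (isUnit_of_dvd_one ((dvd_pow_self p two_ne_zero).trans (by simpa using h1)))
    · simp only [Nat.cast_one, one_mul]; rw [h]; ring
  · have hg0 : 0 < Int.gcd K V := by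
      rw [Int.gcd_pos_iff]
      by_contra hcon
      push Not at hcon
      rw [hcon.1, hcon.2] at hφ2
      nlinarith
    obtain ⟨K', V', hKV, hK', hV'⟩ := Int.exists_gcd_one hg0
    set g := Int.gcd K V with hgdef
    have hg' : (0 : ℤ) < g := by exact_mod_cast hg0
    have hQ := hquad K' V'
    have hdiv : (g : ℤ) ∣ φ := by
      apply (Int.pow_dvd_pow_iff two_ne_zero).1
      refine ⟨K' ^ 2 * w ^ 2 + 2 * K' * V' * B + V' ^ 2 * c, ?_⟩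
      rw [← hφ2, hK', hV']; ring
    obtain ⟨w', hw'⟩ := hdiv
    have hgK : (g : ℤ) ∣ K := ⟨K', by rw [hK']; ring⟩
    have hgV : (g : ℤ) ∣ V := ⟨V', by rw [hV']; ring⟩
    have hKt : IsCoprime K t₂ := by
      have : IsCoprime (t₁ ^ 2) t₂ := ht.pow_left
      obtain ⟨a, b, hab⟩ := this
      exact ⟨a, b + a * c * t₂, by rw [hK]; linear_combination hab⟩
    have hgt : IsCoprime (g : ℤ) t₂ := hKt.of_isCoprime_of_dvd_left hgK
    have hgU : (g : ℤ) ∣ U := hgt.dvd_of_dvd_mul_left (by rwa [hV] at hgV)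
    have hgd : (g : ℤ) ∣ 32 * η.norm := by
      have e : 32 * η.norm * t₂ ^ 2 = - ((2 * B * t₂ - 2 * w * t₁) * U + 4 * w ^ 2 * K) := by
        rw [hU, hK]; linear_combination (-4) * t₂ ^ 2 * hgram
      have : (g : ℤ) ∣ 32 * η.norm * t₂ ^ 2 := by
        rw [e]; exact (dvd_add (Dvd.dvd.mul_left hgU _) (Dvd.dvd.mul_left hgK _)).neg_right
      exact (hgt.pow_right).dvd_of_dvd_mul_right this
    refine ⟨g, (K' : O) * ξ + (V' : O) * ξ₀, w', ⟨hg0, ?_, ?_, ?_, ?_, hgd, ?_⟩, U, hU0, ?_⟩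
    · rw [hw'] at hφpos; exact (pos_iff_pos_of_mul_pos hφpos).1 hg'
    · obtain ⟨a, b, hab⟩ := Int.isCoprime_iff_gcd_eq_one.2 hKV
      simp only [Zsqrtd.re_add, Zsqrtd.im_add, Zsqrtd.re_smul, Zsqrtd.im_smul, ξ₀]
      refine ⟨a * u - b * ξ.im, a * u' + b * ξ.re, ?_⟩
      linear_combination (a * K' + b * V') * huv + hab
    · rw [hQ]
      apply mul_left_cancel₀ (pow_ne_zero 2 hg'.ne')
      rw [hw', hK', hV'] at hφ2
      linear_combination hφ2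
    · rw [← hw']; nlinarith
    · intro p hp hp2 hpg
      have h32 : ¬ p ∣ 32 := fun h9 => hp2 (hp.dvd_of_dvd_pow (n := 5) (by simpa using h9))
      have hpd : p ^ 2 ∣ η.norm := hp.pow_dvd_of_dvd_mul_left 2 h32 (hpg.trans hgd)
      obtain ⟨⟨x3, hx3⟩, ⟨y3, hy3⟩⟩ := dvd_of_sq_dvd_norm hp hp2 hη hpd
      have hBd : ∀ a b : O, p ∣ Bf η a b := by
        intro a b
        exact ⟨Bf ⟨x3, y3⟩ a b, by simp only [Bf_eq, hx3, hy3]; ring⟩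
      have hpw : p ∣ w := hp.dvd_of_dvd_pow (n := 2) (h ▸ hBd ξ ξ)
      have hpK : p ^ 2 ∣ K := hpg.trans hgK
      have hpt₁ : p ∣ t₁ := by
        apply hp.dvd_of_dvd_pow (n := 2)
        have : t₁ ^ 2 = K + c * t₂ ^ 2 := by rw [hK]; ring
        rw [this]
        exact dvd_add ((dvd_pow_self p two_ne_zero).trans hpK) (Dvd.dvd.mul_right (hBd _ _) _)
      have hpt₂ : ¬ p ∣ t₂ := fun h9 => hp.not_isUnit (ht.isUnit_of_dvd' hpt₁ h9)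
      have hpc : p ^ 2 ∣ c := by
        have : p ^ 2 ∣ c * t₂ ^ 2 := by
          have e : c * t₂ ^ 2 = t₁ ^ 2 - K := by rw [hK]; ring
          rw [e]; exact dvd_sub (pow_dvd_pow_of_dvd hpt₁ 2) hpK
        exact hp.pow_dvd_of_dvd_mul_right 2 (fun h9 => hpt₂ (hp.dvd_of_dvd_pow h9)) this
      have hpB : p ^ 2 ∣ B := by
        have : p ^ 2 ∣ 2 * (B * t₂) := by
          have e : 2 * (B * t₂) = U - 2 * (w * t₁) := by rw [hU]; ring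
          rw [e]
          refine dvd_sub (hpg.trans hgU) (Dvd.dvd.mul_left ?_ _)
          rw [sq]; exact mul_dvd_mul hpw hpt₁
        exact hp.pow_dvd_of_dvd_mul_right 2 hpt₂ (hp.pow_dvd_of_dvd_mul_left 2 hp2 this)
      have hpw2 : p ^ 2 ∣ w ^ 2 := pow_dvd_pow_of_dvd hpw 2
      have ex : 2 * η.re * cr ξ ξ₀ ^ 2 = ξ₀.im ^ 2 * Bf η ξ ξ - 2 * ξ₀.im * ξ.im * Bf η ξ ξ₀ +
          ξ.im ^ 2 * Bf η ξ₀ ξ₀ := by
        simp only [Bf_eq, cr]; ring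
      have ey : 4 * η.im * cr ξ ξ₀ ^ 2 = - ξ₀.im * ξ₀.re * Bf η ξ ξ +
          (ξ₀.im * ξ.re + ξ.im * ξ₀.re) * Bf η ξ ξ₀ - ξ.im * ξ.re * Bf η ξ₀ ξ₀ := by
        simp only [Bf_eq, cr]; ring
      rw [hcr, h, ← hB, ← hcdef, one_pow, mul_one] at ex ey
      refine not_sq_dvd_of_squarefree hp hη ?_ ?_
      · apply hp.pow_dvd_of_dvd_mul_left 2 hp2
        rw [ex]
        exact dvd_add (dvd_sub (Dvd.dvd.mul_left hpw2 _) (Dvd.dvd.mul_left hpB _))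
          (Dvd.dvd.mul_left hpc _)
      · have h4 : ¬ p ∣ 4 := fun h9 => hp2 (hp.dvd_of_dvd_pow (n := 2) (by simpa using h9))
        apply hp.pow_dvd_of_dvd_mul_left 2 h4
        rw [ey]
        exact dvd_sub (dvd_add (Dvd.dvd.mul_left hpw2 _) (Dvd.dvd.mul_left hpB _))
          (Dvd.dvd.mul_left hpc _)
    · have e : Bf η ξ (g * ((K' : O) * ξ + (V' : O) * ξ₀)) = K * w ^ 2 + V * B := by
        rw [← h, hB, hK', hV']
        simp only [Bf_eq, Zsqrtd.re_add, Zsqrtd.im_add, Zsqrtd.re_mul, Zsqrtd.im_mul,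
          Zsqrtd.re_intCast, Zsqrtd.im_intCast, Zsqrtd.re_natCast, Zsqrtd.im_natCast]
        ring
      rw [e, ← hw', hφ, hK, hV, hU]; ring

end Pool.Agent.Lib.MP_af4c59_nt
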