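import Pool.Agent.Lib.MP_af4c59_nt.Small

set_option autoImplicit false

namespace Pool.Agent.Lib.MP_af4c59_nt

open Finset

lemma card_cong_le (S : Finset ℤ) (a : ℤ) (L p : ℕ) (hp : 0 < p) (hS : ∀ i ∈ S, a ≤ i ∧ i < a + L)
    (hc : ∀ i ∈ S, ∀ j ∈ S, (p : ℤ) ∣ i - j) : (S.card : ℝ) ≤ L / p + 1 := by
  have hp' : (0 : ℤ) < p := by exact_mod_cast hp
  have h1 : S.card ≤ (range (L / p + 1)).card := by
    apply card_le_card_of_injOn (fun i => ((i - a) / p).toNat)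
    · intro i hi
      obtain ⟨h1, h2⟩ := hS i hi
      have : (i - a) / p ≤ (L : ℤ) / p := Int.ediv_le_ediv hp' (by omega)
      simp only [coe_range, Set.mem_Iio]
      have h3 : ((L / p : ℕ) : ℤ) = (L : ℤ) / p := by push_cast; rfl
      have h4 : (0 : ℤ) ≤ ((L / p : ℕ) : ℤ) := by positivity
      omega
    · intro i hi j hj hij
      obtain ⟨h1, h2⟩ := hS i hi
      obtain ⟨h3, h4⟩ := hS j hj
      obtain ⟨c, hc⟩ := hc i hi j hj
      have a1 : 0 ≤ (i - a) / p := Int.ediv_nonneg (by omega) hp'.le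
      have a2 : 0 ≤ (j - a) / p := Int.ediv_nonneg (by omega) hp'.le
      have e : (i - a) / p = (j - a) / p := by simp only at hij; omega
      have : i - a = (j - a) + p * c := by omega
      rw [this, Int.add_mul_ediv_left _ _ hp'.ne'] at e
      have : c = 0 := by omega
      rw [this] at hc; omega
  rw [card_range] at h1
  calc (S.card : ℝ) ≤ ((L / p + 1 : ℕ) : ℝ) := by exact_mod_cast h1
    _ ≤ L / p + 1 := by push_cast; gcongr; exact Nat.cast_div_le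

/-- Odd primes up to `N`. -/
def Pr (N : ℕ) : Finset ℕ := (Icc 1 N).filter (fun p => p.Prime ∧ p ≠ 2)

lemma card_Pr (N : ℕ) : ((Pr N).card : ℝ) ≤ N := by
  have := card_filter_le (Icc 1 N) (fun p => p.Prime ∧ p ≠ 2)
  rw [Nat.card_Icc] at this
  exact_mod_cast this

lemma sum_Pr_inv (N : ℕ) : ∑ p ∈ Pr N, (1 : ℝ) / p ≤ 1 + Real.log N := by
  refine le_trans ?_ (harmonic_le_one_add_log N)
  rw [harmonic_eq_sum_Icc]
  push_cast
  simp_rw [one_div]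
  exact sum_le_sum_of_subset_of_nonneg (filter_subset _ _) (fun _ _ _ => by positivity)

lemma sum_Pr_inv_sq (N : ℕ) : ∑ p ∈ Pr N, (1 : ℝ) / (p : ℝ) ^ 2 ≤ 7 / 25 := by
  have h1 : Pr N ⊆ {3, 5, 7} ∪ Ioc 10 (N + 10) := by
    intro p hp
    simp only [Pr, mem_filter, mem_Icc] at hp
    simp only [mem_union, mem_insert, mem_singleton, mem_Ioc]
    obtain ⟨⟨h1, h2⟩, h3, h4⟩ := hp
    by_cases h : 10 < p
    · right; omega
    · left
      have : p ≤ 10 := by omega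
      interval_cases p <;> simp_all (config := {decide := true})
  refine (sum_le_sum_of_subset_of_nonneg h1 (fun _ _ _ => by positivity)).trans ?_
  rw [sum_union (by
    rw [disjoint_left]; intro a ha hb
    simp only [mem_insert, mem_singleton, mem_Ioc] at ha hb; omega)]
  have h2 := sum_Ioc_inv_sq_le_sub (α := ℝ) (k := 10) (n := N + 10) (by norm_num) (by omega)
  have h3 : (0 : ℝ) ≤ ((N + 10 : ℕ) : ℝ)⁻¹ := by positivity
  simp_rw [one_div]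
  rw [sum_insert (by decide), sum_insert (by decide), sum_singleton]
  have h4 : (0 : ℝ) ≤ ((N : ℝ) + 10)⁻¹ := by positivity
  norm_num at h2 ⊢
  linarith

lemma exists_Pr {a b : ℤ} (h : ¬ IsCoprime a b) (ha : 0 < a) (N : ℕ) (hN : a ≤ N)
    (hodd : Odd a ∨ Odd b) : ∃ p ∈ Pr N, (p : ℤ) ∣ a ∧ (p : ℤ) ∣ b := by
  rw [Int.isCoprime_iff_gcd_eq_one] at h
  obtain ⟨p, hp, hd⟩ := Nat.exists_prime_and_dvd h
  have h1 : (p : ℤ) ∣ a := (Int.natCast_dvd_natCast.2 hd).trans (Int.gcd_dvd_left a b)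
  have h2 : (p : ℤ) ∣ b := (Int.natCast_dvd_natCast.2 hd).trans (Int.gcd_dvd_right a b)
  refine ⟨p, ?_, h1, h2⟩
  simp only [Pr, mem_filter, mem_Icc]
  have := Int.le_of_dvd ha h1
  refine ⟨⟨hp.one_le, by omega⟩, hp, ?_⟩
  rintro rfl
  rcases hodd with h | h
  · exact (Int.not_even_iff_odd.2 h) (even_iff_two_dvd.2 (by exact_mod_cast h1))
  · exact (Int.not_even_iff_odd.2 h) (even_iff_two_dvd.2 (by exact_mod_cast h2))

/-- The box of parameters. -/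
noncomputable def Box (Z : ℕ) : Finset (ℤ × ℤ × ℤ) :=
  Ico ((Z / 2 : ℕ) : ℤ) Z ×ˢ Ico (0 : ℤ) (2 * Z) ×ˢ Ico (12 * (Z : ℤ) ^ 2) (24 * (Z : ℤ) ^ 2)

open Classical in
/-- The good parameters. -/
noncomputable def Good (Z : ℕ) : Finset (ℤ × ℤ × ℤ) :=
  (Box Z).filter (fun t => IsCoprime (2 * t.1 + 1) t.2.1 ∧
    IsCoprime t.2.2 ((2 * t.1 + 1) ^ 2 - 2 * t.2.1 ^ 2))

lemma card_bad1 (Z p : ℕ) (hp : p ∈ Pr (2 * Z)) :
    (((Box Z).filter (fun t => (p : ℤ) ∣ 2 * t.1 + 1 ∧ (p : ℤ) ∣ t.2.1)).card : ℝ) ≤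
      (((Z - Z / 2 : ℕ) : ℝ) / p + 1) * ((2 * Z : ℕ) / p + 1) * (12 * (Z : ℝ) ^ 2) := by
  simp only [Pr, mem_filter, mem_Icc] at hp
  obtain ⟨-, hp, hp2⟩ := hp
  have hpi : Prime (p : ℤ) := Nat.prime_iff_prime_int.1 hp
  have hp2' : ¬ (p : ℤ) ∣ 2 := fun h =>
    hp2 ((Nat.prime_dvd_prime_iff_eq hp Nat.prime_two).1 (by exact_mod_cast h))
  have e : (Box Z).filter (fun t => (p : ℤ) ∣ 2 * t.1 + 1 ∧ (p : ℤ) ∣ t.2.1) =
      (Ico ((Z / 2 : ℕ) : ℤ) Z).filter (fun i => (p : ℤ) ∣ 2 * i + 1) ×ˢ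
      (Ico (0 : ℤ) (2 * Z)).filter (fun v => (p : ℤ) ∣ v) ×ˢ
        Ico (12 * (Z : ℤ) ^ 2) (24 * (Z : ℤ) ^ 2) := by
    ext t; simp only [Box, mem_filter, mem_product]; tauto
  rw [e, card_product, card_product, Int.card_Ico]
  have h1 := card_cong_le ((Ico ((Z / 2 : ℕ) : ℤ) Z).filter (fun i => (p : ℤ) ∣ 2 * i + 1))
    ((Z / 2 : ℕ) : ℤ) (Z - Z / 2) p hp.pos (by
      intro i hi; have := mem_Ico.1 (mem_filter.1 hi).1; omega) (by
      intro i hi j hj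
      have : (p : ℤ) ∣ 2 * (i - j) := by
        have := dvd_sub (mem_filter.1 hi).2 (mem_filter.1 hj).2
        rwa [show 2 * i + 1 - (2 * j + 1) = 2 * (i - j) by ring] at this
      exact (hpi.dvd_or_dvd this).resolve_left hp2')
  have h2 := card_cong_le ((Ico (0 : ℤ) (2 * Z)).filter (fun v => (p : ℤ) ∣ v))
    0 (2 * Z) p hp.pos (by
      intro i hi; have := mem_Ico.1 (mem_filter.1 hi).1; omega) (by
      intro i hi j hj
      exact dvd_sub (mem_filter.1 hi).2 (mem_filter.1 hj).2)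
  have h3 : (((24 * (Z : ℤ) ^ 2 - 12 * (Z : ℤ) ^ 2).toNat : ℕ) : ℝ) = 12 * (Z : ℝ) ^ 2 := by
    have : (((24 * (Z : ℤ) ^ 2 - 12 * (Z : ℤ) ^ 2).toNat : ℕ) : ℤ) = 12 * (Z : ℤ) ^ 2 := by
      have := sq_nonneg (Z : ℤ); omega
    exact_mod_cast this
  rw [Nat.cast_mul, Nat.cast_mul, h3, ← mul_assoc]
  gcongr

lemma card_bad2 (Z p : ℕ) (hp : p ∈ Pr (24 * Z ^ 2)) :
    (((Box Z).filter (fun t => (p : ℤ) ∣ t.2.2 ∧
      (p : ℤ) ∣ (2 * t.1 + 1) ^ 2 - 2 * t.2.1 ^ 2)).card : ℝ) ≤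
      (2 * Z) * (2 * (((Z - Z / 2 : ℕ) : ℝ) / p + 1)) * ((12 * Z ^ 2 : ℕ) / p + 1) := by
  classical
  simp only [Pr, mem_filter, mem_Icc] at hp
  obtain ⟨-, hp, hp2⟩ := hp
  have hpi : Prime (p : ℤ) := Nat.prime_iff_prime_int.1 hp
  have hp2' : ¬ (p : ℤ) ∣ 2 := fun h =>
    hp2 ((Nat.prime_dvd_prime_iff_eq hp Nat.prime_two).1 (by exact_mod_cast h))
  have h0 := card_le_mul_fib ((Box Z).filter (fun t => (p : ℤ) ∣ t.2.2 ∧
      (p : ℤ) ∣ (2 * t.1 + 1) ^ 2 - 2 * t.2.1 ^ 2)) (fun t => t.2.1) (Ico (0 : ℤ) (2 * Z))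
      ((2 * (((Z - Z / 2 : ℕ) : ℝ) / p + 1)) * ((12 * Z ^ 2 : ℕ) / p + 1)) (by
        intro t ht
        simp only [Box, mem_filter, mem_product] at ht
        exact ht.1.2.1) (by
        intro v _
        set A := (Ico ((Z / 2 : ℕ) : ℤ) Z).filter (fun i => (p : ℤ) ∣ (2 * i + 1) ^ 2 - 2 * v ^ 2)
        set B := (Ico (12 * (Z : ℤ) ^ 2) (24 * (Z : ℤ) ^ 2)).filter (fun w => (p : ℤ) ∣ w)
        have h1 : (((Box Z).filter (fun t => (p : ℤ) ∣ t.2.2 ∧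
            (p : ℤ) ∣ (2 * t.1 + 1) ^ 2 - 2 * t.2.1 ^ 2)).filter (fun t => t.2.1 = v)).card ≤
            (A ×ˢ B).card := by
          apply card_le_card_of_injOn (fun t => (t.1, t.2.2))
          · intro t ht
            simp only [Box, coe_filter, mem_filter, mem_product, Set.mem_ofPred_eq] at ht
            simp only [A, B, coe_product, Set.mem_prod, mem_coe, mem_filter]
            obtain ⟨⟨⟨h1, h2, h3⟩, h4, h5⟩, h6⟩ := ht
            exact ⟨⟨h1, h6 ▸ h5⟩, h3, h4⟩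
          · intro a ha b hb hab
            simp only [Prod.mk.injEq] at hab
            exact Prod.ext hab.1 (Prod.ext (((mem_filter.1 ha).2).trans ((mem_filter.1 hb).2).symm)
              hab.2)
        have hB := card_cong_le B (12 * (Z : ℤ) ^ 2) (12 * Z ^ 2) p hp.pos (by
          intro i hi; have := mem_Ico.1 (mem_filter.1 hi).1; push_cast; omega) (by
          intro i hi j hj
          exact dvd_sub (mem_filter.1 hi).2 (mem_filter.1 hj).2)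
        have hA : (A.card : ℝ) ≤ 2 * (((Z - Z / 2 : ℕ) : ℝ) / p + 1) := by
          rcases A.eq_empty_or_nonempty with h | ⟨i₀, hi₀⟩
          · rw [h]; simp only [card_empty, Nat.cast_zero]; positivity
          have hrange : ∀ i ∈ A, ((Z / 2 : ℕ) : ℤ) ≤ i ∧ i < ((Z / 2 : ℕ) : ℤ) + (Z - Z / 2 : ℕ) := by
            intro i hi; have := mem_Ico.1 (mem_filter.1 hi).1; omega
          have a1 := card_cong_le (A.filter (fun i => (p : ℤ) ∣ i - i₀)) _ (Z - Z / 2) p hp.pos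
            (fun i hi => hrange i (mem_filter.1 hi).1) (by
              intro i hi j hj
              have := dvd_sub (mem_filter.1 hi).2 (mem_filter.1 hj).2
              rwa [show i - i₀ - (j - i₀) = i - j by ring] at this)
          have a2 := card_cong_le (A.filter (fun i => ¬ (p : ℤ) ∣ i - i₀)) _ (Z - Z / 2) p hp.pos
            (fun i hi => hrange i (mem_filter.1 hi).1) (by
              have key : ∀ i ∈ A.filter (fun i => ¬ (p : ℤ) ∣ i - i₀), (p : ℤ) ∣ i + i₀ + 1 := by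
                intro i hi
                obtain ⟨hi1, hi2⟩ := mem_filter.1 hi
                have : (p : ℤ) ∣ 2 * (2 * ((i - i₀) * (i + i₀ + 1))) := by
                  have := dvd_sub (mem_filter.1 hi1).2 (mem_filter.1 hi₀).2
                  rwa [show (2 * i + 1) ^ 2 - 2 * v ^ 2 - ((2 * i₀ + 1) ^ 2 - 2 * v ^ 2) =
                    2 * (2 * ((i - i₀) * (i + i₀ + 1))) by ring] at this
                exact (hpi.dvd_or_dvd ((hpi.dvd_or_dvd ((hpi.dvd_or_dvd this).resolve_left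
                  hp2')).resolve_left hp2')).resolve_left hi2
              intro i hi j hj
              have := dvd_sub (key i hi) (key j hj)
              rwa [show i + i₀ + 1 - (j + i₀ + 1) = i - j by ring] at this)
          rw [← card_filter_add_card_filter_not (s := A) (fun i => (p : ℤ) ∣ i - i₀)]
          push_cast; linarith
        calc _ ≤ ((A ×ˢ B).card : ℝ) := by exact_mod_cast h1
          _ = A.card * B.card := by rw [card_product]; push_cast; rfl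
          _ ≤ _ := by gcongr)
  rw [Int.card_Ico] at h0
  have h3 : (((2 * (Z : ℤ) - 0).toNat : ℕ) : ℝ) = 2 * (Z : ℝ) := by
    have : (((2 * (Z : ℤ) - 0).toNat : ℕ) : ℤ) = 2 * (Z : ℤ) := by omega
    exact_mod_cast this
  rw [h3, ← mul_assoc] at h0
  exact h0

lemma card_Box (Z : ℕ) : ((Box Z).card : ℝ) = ((Z - Z / 2 : ℕ) : ℝ) * (2 * Z) * (12 * (Z : ℝ) ^ 2) := by
  rw [Box, card_product, card_product, Int.card_Ico, Int.card_Ico, Int.card_Ico]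
  have h1 : ((Z : ℤ) - ((Z / 2 : ℕ) : ℤ)).toNat = Z - Z / 2 := by omega
  have h2 : (2 * (Z : ℤ) - 0).toNat = 2 * Z := by omega
  have h3 : (24 * (Z : ℤ) ^ 2 - 12 * (Z : ℤ) ^ 2).toNat = 12 * Z ^ 2 := by
    have : (24 * (Z : ℤ) ^ 2 - 12 * (Z : ℤ) ^ 2) = ((12 * Z ^ 2 : ℕ) : ℤ) := by push_cast; ring
    rw [this, Int.toNat_natCast]
  rw [h1, h2, h3]; push_cast; ring

lemma card_Good (Z : ℕ) (hZ : 10 ^ 8 ≤ Z) : (Z : ℝ) ^ 4 ≤ (Good Z).card := by
  classical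
  have hsub : Box Z ⊆ Good Z ∪ ((Pr (2 * Z)).biUnion (fun p =>
      (Box Z).filter (fun t => (p : ℤ) ∣ 2 * t.1 + 1 ∧ (p : ℤ) ∣ t.2.1)) ∪
      (Pr (24 * Z ^ 2)).biUnion (fun p => (Box Z).filter (fun t => (p : ℤ) ∣ t.2.2 ∧
        (p : ℤ) ∣ (2 * t.1 + 1) ^ 2 - 2 * t.2.1 ^ 2))) := by
    intro t ht
    have ht' := ht
    simp only [Box, mem_product, mem_Ico] at ht'
    obtain ⟨⟨a1, a2⟩, ⟨a3, a4⟩, a5, a6⟩ := ht'
    simp only [mem_union, mem_biUnion, Good, mem_filter]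
    by_cases h1 : IsCoprime (2 * t.1 + 1) t.2.1
    · by_cases h2 : IsCoprime t.2.2 ((2 * t.1 + 1) ^ 2 - 2 * t.2.1 ^ 2)
      · exact Or.inl ⟨ht, h1, h2⟩
      · right; right
        have hZ0 : (0 : ℤ) < (Z : ℤ) ^ 2 := by have : 0 < Z := by omega
                                               positivity
        obtain ⟨p, hp, h3⟩ := exists_Pr h2 (by omega) (24 * Z ^ 2) (by push_cast; omega)
          (Or.inr ⟨2 * t.1 ^ 2 + 2 * t.1 - t.2.1 ^ 2, by ring⟩)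
        exact ⟨p, hp, ht, h3⟩
    · right; left
      obtain ⟨p, hp, h3⟩ := exists_Pr h1 (by omega) (2 * Z) (by push_cast; omega)
          (Or.inl ⟨t.1, by ring⟩)
      exact ⟨p, hp, ht, h3⟩
  have h1 := card_le_card hsub
  have h2 := (h1.trans (card_union_le _ _)).trans (Nat.add_le_add_left ((card_union_le _ _).trans
    (Nat.add_le_add card_biUnion_le card_biUnion_le)) _)
  have h3 : ((Box Z).card : ℝ) ≤ (Good Z).card +
      (∑ p ∈ Pr (2 * Z), (((Z - Z / 2 : ℕ) : ℝ) / p + 1) * ((2 * Z : ℕ) / p + 1) * (12 * (Z : ℝ) ^ 2) +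
      ∑ p ∈ Pr (24 * Z ^ 2),
        (2 * Z) * (2 * (((Z - Z / 2 : ℕ) : ℝ) / p + 1)) * ((12 * Z ^ 2 : ℕ) / p + 1)) := by
    refine le_trans (Nat.cast_le.2 h2) ?_
    push_cast
    gcongr with p hp p hp
    · exact_mod_cast card_bad1 Z p hp
    · exact_mod_cast card_bad2 Z p hp
  rw [card_Box] at h3
  set I : ℝ := ((Z - Z / 2 : ℕ) : ℝ) with hI
  have hz : (10 : ℝ) ^ 8 ≤ Z := by exact_mod_cast hZ
  have hI1 : I ≤ Z := by rw [hI]; exact_mod_cast Nat.sub_le _ _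
  have hI2 : (Z : ℝ) ≤ 2 * I := by rw [hI]; exact_mod_cast (by omega : Z ≤ 2 * (Z - Z / 2))
  set z : ℝ := (Z : ℝ) with hzdef
  have hz0 : 0 < z := by linarith [show (0 : ℝ) < 10 ^ 8 by norm_num]
  have hs : 10 ^ 4 ≤ √z := Real.le_sqrt_of_sq_le (by norm_num at hz ⊢; linarith)
  have hss : √z * √z = z := Real.mul_self_sqrt hz0.le
  have hlog : Real.log z ≤ 2 * √z := by
    have h := Real.log_le_sub_one_of_pos (Real.sqrt_pos.2 hz0)
    rw [Real.log_sqrt hz0.le] at h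
    linarith
  have hl1 : ∑ p ∈ Pr (2 * Z), (1 : ℝ) / p ≤ 3 * √z := by
    refine (sum_Pr_inv _).trans ?_
    push_cast
    rw [Real.log_mul (by norm_num) hz0.ne']
    have := Real.log_le_sub_one_of_pos (show (0 : ℝ) < 2 by norm_num)
    linarith
  have hl2 : ∑ p ∈ Pr (24 * Z ^ 2), (1 : ℝ) / p ≤ 5 * √z := by
    refine (sum_Pr_inv _).trans ?_
    push_cast
    rw [Real.log_mul (by norm_num) (by positivity), Real.log_pow]
    have := Real.log_le_sub_one_of_pos (show (0 : ℝ) < 24 by norm_num)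
    push_cast
    linarith
  have s1 := sum_Pr_inv_sq (2 * Z)
  have s2 := sum_Pr_inv_sq (24 * Z ^ 2)
  have c1 := card_Pr (2 * Z)
  have c2 := card_Pr (24 * Z ^ 2)
  push_cast at c1 c2 h3
  have e1 : ∑ p ∈ Pr (2 * Z), (I / p + 1) * (2 * z / p + 1) * (12 * z ^ 2) =
      (I * (2 * z) * (12 * z ^ 2)) * ∑ p ∈ Pr (2 * Z), (1 : ℝ) / (p : ℝ) ^ 2 +
      ((I + 2 * z) * (12 * z ^ 2)) * ∑ p ∈ Pr (2 * Z), (1 : ℝ) / p +
      (Pr (2 * Z)).card * (12 * z ^ 2) := by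
    rw [mul_sum, mul_sum, card_eq_sum_ones, Nat.cast_sum, sum_mul, ← sum_add_distrib,
      ← sum_add_distrib]
    exact sum_congr rfl (fun p _ => by push_cast; ring)
  have e2 : ∑ p ∈ Pr (24 * Z ^ 2), (2 * z) * (2 * (I / p + 1)) * (12 * z ^ 2 / p + 1) =
      (2 * (I * (2 * z) * (12 * z ^ 2))) * ∑ p ∈ Pr (24 * Z ^ 2), (1 : ℝ) / (p : ℝ) ^ 2 +
      (4 * z * (I + 12 * z ^ 2)) * ∑ p ∈ Pr (24 * Z ^ 2), (1 : ℝ) / p +
      (Pr (24 * Z ^ 2)).card * (4 * z) := by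
    rw [mul_sum, mul_sum, card_eq_sum_ones, Nat.cast_sum, sum_mul, ← sum_add_distrib,
      ← sum_add_distrib]
    exact sum_congr rfl (fun p _ => by push_cast; ring)
  rw [e1, e2] at h3
  have hI0 : 0 ≤ I := by linarith
  have b1 : (I * (2 * z) * (12 * z ^ 2)) * ∑ p ∈ Pr (2 * Z), (1 : ℝ) / (p : ℝ) ^ 2 ≤
      (I * (2 * z) * (12 * z ^ 2)) * (7 / 25) := by gcongr
  have b2 : (2 * (I * (2 * z) * (12 * z ^ 2))) * ∑ p ∈ Pr (24 * Z ^ 2), (1 : ℝ) / (p : ℝ) ^ 2 ≤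
      (2 * (I * (2 * z) * (12 * z ^ 2))) * (7 / 25) := by gcongr
  have b3 : ((I + 2 * z) * (12 * z ^ 2)) * ∑ p ∈ Pr (2 * Z), (1 : ℝ) / p ≤
      ((z + 2 * z) * (12 * z ^ 2)) * (3 * √z) := by gcongr
  have hz1 : z ≤ z ^ 2 := by nlinarith
  have b4 : (4 * z * (I + 12 * z ^ 2)) * ∑ p ∈ Pr (24 * Z ^ 2), (1 : ℝ) / p ≤
      (4 * z * (z ^ 2 + 12 * z ^ 2)) * (5 * √z) := by
    gcongr; linarith
  have b5 : ((Pr (2 * Z)).card : ℝ) * (12 * z ^ 2) ≤ (2 * z) * (12 * z ^ 2) := by gcongr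
  have b6 : ((Pr (24 * Z ^ 2)).card : ℝ) * (4 * z) ≤ (24 * z ^ 2) * (4 * z) := by gcongr
  have m1 : 12 * z ^ 4 ≤ I * (2 * z) * (12 * z ^ 2) := by
    have : z * (z * (12 * z ^ 2)) ≤ (2 * I) * (z * (12 * z ^ 2)) := by gcongr
    nlinarith
  have m2 : 10 ^ 4 * (z ^ 3 * √z) ≤ z ^ 4 := by
    have : 10 ^ 4 * (z ^ 3 * √z) ≤ √z * (z ^ 3 * √z) := by gcongr
    calc _ ≤ √z * (z ^ 3 * √z) := this
      _ = z ^ 3 * (√z * √z) := by ring
      _ = z ^ 4 := by rw [hss]; ring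
  have m3 : z ^ 3 ≤ z ^ 3 * √z := by
    have : 0 ≤ z ^ 3 := by positivity
    nlinarith
  nlinarith

/-- Members of the working family. -/
structure Fam (Z : ℕ) (η ξ : O) (w : ℤ) : Prop where
  k1 : (Z : ℤ) ≤ ξ.re
  k2 : ξ.re ≤ 2 * Z
  v1 : 0 ≤ ξ.im
  v2 : ξ.im ≤ 2 * Z
  cop : IsCoprime ξ.re ξ.im
  kodd : Odd ξ.re
  eq : Bf η ξ ξ = w ^ 2
  copw : IsCoprime w ξ.norm
  big : 16 * (Z : ℤ) ^ 2 ≤ w
  x4 : 4 ∣ η.re
  yodd : Odd η.im
  y0 : 0 ≤ η.im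
  bal : 2 * η.im ≤ η.re
  x1 : 64 * (Z : ℤ) ^ 2 ≤ η.re
  x2 : η.re ≤ 4608 * (Z : ℤ) ^ 2

lemma exists_eta {Z : ℕ} (hZ : 0 < Z) {t : ℤ × ℤ × ℤ} (ht : t ∈ Good Z) :
    ∃ η : O, Fam Z η ⟨2 * t.1 + 1, t.2.1⟩ (4 * t.2.2) := by
  simp only [Good, Box, mem_filter, mem_product, mem_Ico] at ht
  obtain ⟨⟨⟨a1, a2⟩, ⟨a3, a4⟩, a5, a6⟩, c1, c2⟩ := ht
  set k := 2 * t.1 + 1 with hk
  set v := t.2.1
  set w := t.2.2
  have hZ' : (0 : ℤ) < Z := by exact_mod_cast hZ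
  have k1 : (Z : ℤ) ≤ k := by omega
  have k2 : k ≤ 2 * Z := by omega
  set A := k ^ 2 + 2 * v ^ 2 with hA
  have hA1 : (Z : ℤ) ^ 2 ≤ A := by nlinarith [sq_nonneg v]
  have hA2 : A ≤ 12 * (Z : ℤ) ^ 2 := by nlinarith
  have hA0 : 0 < A := by nlinarith
  have hk2 : IsCoprime k 2 := ⟨1, -t.1, by rw [hk]; ring⟩
  have hcop : IsCoprime A (2 * (k * v)) := by
    have h2 : IsCoprime A 2 := by
      have : IsCoprime (k ^ 2) 2 := hk2.pow_left
      obtain ⟨a, b, hab⟩ := this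
      exact ⟨a, b - a * v ^ 2, by rw [hA]; linear_combination hab⟩
    have h3 : IsCoprime A k := by
      have : IsCoprime (2 * v ^ 2) k := (hk2.symm.mul_left c1.symm.pow_left)
      obtain ⟨a, b, hab⟩ := this
      exact ⟨a, b - a * k, by rw [hA]; linear_combination hab⟩
    have h4 : IsCoprime A v := by
      have : IsCoprime (k ^ 2) v := c1.pow_left
      obtain ⟨a, b, hab⟩ := this
      exact ⟨a, b - a * 2 * v, by rw [hA]; linear_combination hab⟩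
    exact h2.mul_right (h3.mul_right h4)
  obtain ⟨a, b, hab⟩ := hcop
  -- y = 2 y' + 1 with 2 k v y' = 2 w^2 - k v modulo A
  set y' := (b * (2 * w ^ 2 - k * v)) % A with hy'
  have y1 : 0 ≤ y' := Int.emod_nonneg _ hA0.ne'
  have y2 : y' < A := Int.emod_lt_of_pos _ hA0
  have y3 := Int.emod_add_mul_ediv (b * (2 * w ^ 2 - k * v)) A
  set q := b * (2 * w ^ 2 - k * v) / A
  set x := a * (2 * w ^ 2 - k * v) + 2 * (k * v) * q with hx
  have hxe : x * A + k * v * (2 * y' + 1) = 2 * w ^ 2 := by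
    rw [hx]; linear_combination (2 * w ^ 2 - k * v) * hab + 2 * (k * v) * y3
  have hkv : k * v ≤ 4 * (Z : ℤ) ^ 2 := by nlinarith
  have hkv0 : 0 ≤ k * v := mul_nonneg (by omega) a3
  have hZ2 : (0 : ℤ) < (Z : ℤ) ^ 2 := by positivity
  have hw1 : 288 * ((Z : ℤ) ^ 2) ^ 2 ≤ 2 * w ^ 2 := by nlinarith
  have hw2 : 2 * w ^ 2 ≤ 1152 * ((Z : ℤ) ^ 2) ^ 2 := by nlinarith
  have hy4 : k * v * (2 * y' + 1) ≤ 96 * ((Z : ℤ) ^ 2) ^ 2 := by
    have : 2 * y' + 1 ≤ 24 * (Z : ℤ) ^ 2 := by omega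
    nlinarith
  have hy5 : 0 ≤ k * v * (2 * y' + 1) := mul_nonneg hkv0 (by omega)
  have hx1 : 16 * (Z : ℤ) ^ 2 ≤ x := by
    by_contra hcon
    nlinarith
  have hx2 : x ≤ 1152 * (Z : ℤ) ^ 2 := by
    by_contra hcon
    nlinarith
  refine ⟨⟨4 * x, 2 * y' + 1⟩, k1, k2, a3, a4.le, c1, ⟨t.1, rfl⟩, ?_, ?_, by omega, ⟨x, rfl⟩,
    ⟨y', rfl⟩, by simp only; omega, by simp only; omega, by simp only; omega, by simp only; omega⟩
  · rw [Bf_eq]; simp only; linear_combination 8 * hxe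
  · rw [O_norm_def]; simp only
    have h2 : IsCoprime (2 : ℤ) (k ^ 2 - 2 * v ^ 2) := by
      have : IsCoprime (k ^ 2) 2 := hk2.pow_left
      obtain ⟨a, b, hab⟩ := this
      exact ⟨b + a * v ^ 2, a, by linear_combination hab⟩
    have : IsCoprime (2 * 2 * w) (k ^ 2 - 2 * v ^ 2) := (h2.mul_left h2).mul_left c2
    convert this using 1; ring

theorem family_card (Z : ℕ) (hZ : 10 ^ 8 ≤ Z) : ∃ S : Finset (O × O × ℤ),
    (∀ a ∈ S, Fam Z a.1 a.2.1 a.2.2) ∧ (Z : ℝ) ^ 4 ≤ S.card := by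
  classical
  have hZ0 : 0 < Z := by omega
  choose! η hη using fun t (ht : t ∈ Good Z) => exists_eta hZ0 ht
  refine ⟨(Good Z).image (fun t => (η t, ⟨2 * t.1 + 1, t.2.1⟩, 4 * t.2.2)), ?_, ?_⟩
  · intro a ha
    obtain ⟨t, ht, rfl⟩ := mem_image.1 ha
    exact hη t ht
  · rw [card_image_of_injOn]
    · exact card_Good Z hZ
    · intro a _ b _ hab
      simp only [Prod.mk.injEq, Zsqrtd.mk.injEq] at hab
      obtain ⟨-, ⟨h1, h2⟩, h3⟩ := hab
      exact Prod.ext (by omega) (Prod.ext h2 (by omega))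

end Pool.Agent.Lib.MP_af4c59_nt
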