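import Mathlib

set_option autoImplicit false

namespace Pool.Agent.Lib.MP_af4c59_nt

open NumberField Module

/-- The fixed algebraic closure of the rationals. -/
abbrev Ω := AlgebraicClosure ℚ

instance : Algebra.IsAlgebraic ℚ Ω := AlgebraicClosure.isAlgebraic ℚ

instance : IsAlgClosure ℚ Ω := AlgebraicClosure.instIsAlgClosure ℚ

/-- The permutation group condition. -/
def HasGal (n : ℕ) (G : Subgroup (Equiv.Perm (Fin n))) (L : IntermediateField ℚ Ω) : Prop :=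
  ∃ e : (↥L →ₐ[ℚ] Ω) ≃ Fin n, ∀ τ : Equiv.Perm (Fin n), τ ∈ G ↔
    ∃ σ : Ω ≃ₐ[ℚ] Ω, ∀ φ : ↥L →ₐ[ℚ] Ω, τ (e φ) = e (σ.toAlgHom.comp φ)

/-- The set of fields being counted. -/
def FS (n : ℕ) (G : Subgroup (Equiv.Perm (Fin n))) (X : ℝ) : Set (IntermediateField ℚ Ω) :=
  {L | Module.finrank ℚ L = n ∧ HasGal n G L ∧
    ∃ b : Module.Basis (Fin n) ℤ (NumberField.RingOfIntegers ↥L),
      (((|Algebra.discr ℤ ⇑b| : ℤ)) : ℝ) ≤ X}

lemma exists_extend (L : IntermediateField ℚ Ω) (φ : L →ₐ[ℚ] Ω) :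
    ∃ σ : Ω ≃ₐ[ℚ] Ω, ∀ x : L, σ x = φ x := by
  let ψ : Ω →ₐ[ℚ] Ω := φ.liftNormal Ω
  refine ⟨AlgEquiv.ofBijective ψ (Algebra.IsAlgebraic.algHom_bijective ψ), fun x => ?_⟩
  exact φ.liftNormal_commutes Ω x

lemma gal_of_roots {n : ℕ} (G : Subgroup (Equiv.Perm (Fin n))) (a : Fin n → Ω)
    (ha : Function.Injective a) (i₀ : Fin n) (L : IntermediateField ℚ Ω) [FiniteDimensional ℚ L]
    (hL : a i₀ ∈ L) (hfix : ∀ σ : Ω ≃ₐ[ℚ] Ω, σ (a i₀) = a i₀ → ∀ x ∈ L, σ x = x)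
    (h1 : ∀ σ : Ω ≃ₐ[ℚ] Ω, ∃ g ∈ G, ∀ i, σ (a i) = a (g i))
    (h2 : ∀ g ∈ G, ∃ σ : Ω ≃ₐ[ℚ] Ω, ∀ i, σ (a i) = a (g i))
    (h3 : ∀ i, ∃ g ∈ G, g i₀ = i) :
    finrank ℚ L = n ∧ HasGal n G L ∧
      ∃ e : Fin n ≃ (↥L →ₐ[ℚ] Ω), ∀ (σ : Ω ≃ₐ[ℚ] Ω) (i : Fin n), σ (a i₀) = a i →
        ∀ x : L, e i x = σ x := by
  have hex : ∀ φ : L →ₐ[ℚ] Ω, ∃ i, φ ⟨a i₀, hL⟩ = a i := by
    intro φ
    obtain ⟨σ, hσ⟩ := exists_extend L φ
    obtain ⟨g, -, hg⟩ := h1 σ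
    exact ⟨g i₀, by rw [← hσ, ← hg]⟩
  choose f hf using hex
  have hext : ∀ (φ : L →ₐ[ℚ] Ω) (σ : Ω ≃ₐ[ℚ] Ω), σ (a i₀) = a (f φ) → ∀ x : L, φ x = σ x := by
    intro φ σ h x
    obtain ⟨σ', hσ'⟩ := exists_extend L φ
    have : (σ⁻¹ * σ') (a i₀) = a i₀ := by
      have e1 : σ' (a i₀) = σ (a i₀) := by rw [h, ← hf φ, ← hσ']
      rw [AlgEquiv.mul_apply, e1]; exact σ.symm_apply_apply _
    have h4 := hfix _ this x x.2
    rw [AlgEquiv.mul_apply] at h4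
    rw [← hσ']
    conv_rhs => rw [← h4]
    exact (σ.apply_symm_apply _).symm
  have hinj : Function.Injective f := by
    intro φ φ' h
    obtain ⟨σ, hσ⟩ := exists_extend L φ
    ext x
    rw [← hσ, hext φ' σ (by rw [← h, ← hf φ, ← hσ])]
  have hsurj : Function.Surjective f := by
    intro i
    obtain ⟨g, hg, rfl⟩ := h3 i
    obtain ⟨σ, hσ⟩ := h2 g hg
    refine ⟨σ.toAlgHom.comp L.val, ha ?_⟩
    rw [← hf, ← hσ]; rfl
  let e : (L →ₐ[ℚ] Ω) ≃ Fin n := Equiv.ofBijective f ⟨hinj, hsurj⟩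
  have he : ∀ φ, a (e φ) = φ ⟨a i₀, hL⟩ := fun φ => (hf φ).symm
  refine ⟨?_, ⟨e, fun τ => ⟨fun hτ => ?_, ?_⟩⟩, e.symm, ?_⟩
  · rw [← AlgHom.card ℚ L Ω, Fintype.card_congr e, Fintype.card_fin]
  · obtain ⟨σ, hσ⟩ := h2 τ hτ
    refine ⟨σ, fun φ => ha ?_⟩
    rw [← hσ, he, he]; rfl
  · rintro ⟨σ, hσ⟩
    obtain ⟨g, hg, hg2⟩ := h1 σ
    have : τ = g := by
      ext1 i
      obtain ⟨φ, rfl⟩ := e.surjective i
      apply ha
      rw [hσ, ← hg2, he, he]; rfl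
    rwa [this]
  · intro σ i h x
    apply hext
    rw [h]; congr 1; exact (e.apply_symm_apply i).symm

lemma abs_discr_le {L : Type*} [Field L] [NumberField L] {ι : Type*} [Fintype ι] [DecidableEq ι]
    (hι : Fintype.card ι = finrank ℚ L) (b : ι → L) (hb : ∀ i, IsIntegral ℤ (b i))
    (h0 : Algebra.discr ℚ b ≠ 0) : |(discr L : ℚ)| ≤ |Algebra.discr ℚ b| := by
  have hc : Fintype.card (Free.ChooseBasisIndex ℤ (𝓞 L)) = Fintype.card ι := by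
    rw [hι, ← finrank_eq_card_chooseBasisIndex, RingOfIntegers.rank]
  let f := Fintype.equivOfCardEq hc
  let B := (integralBasis L).reindex f
  let P : Matrix ι ι ℤ := fun i j => (RingOfIntegers.basis L).repr ⟨b i, hb i⟩ (f.symm j)
  have hP : b = Matrix.mulVec ((P.map (Int.cast : ℤ → ℚ)).map (algebraMap ℚ L)) B := by
    ext i
    have := B.sum_repr (b i)
    rw [← this]
    simp only [Matrix.mulVec, dotProduct, Matrix.map_apply]
    apply Finset.sum_congr rfl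
    intro j _
    rw [Algebra.smul_def]
    congr 2
    simp only [B, P, Basis.repr_reindex_apply]
    exact integralBasis_repr_apply L ⟨b i, hb i⟩ (f.symm j)
  have h1 : Algebra.discr ℚ b = ((P.det : ℤ) : ℚ) ^ 2 * discr L := by
    rw [hP, Algebra.discr_of_matrix_mulVec, coe_discr]
    congr 1
    · congr 1
      exact ((Int.castRingHom ℚ).map_det P).symm
    · simp only [B, Basis.coe_reindex]; exact Algebra.discr_reindex ℚ _ f
  have hd : P.det ≠ 0 := by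
    rintro h; rw [h1, h] at h0; simp at h0
  rw [h1, abs_mul]
  have : (1 : ℚ) ≤ |((P.det : ℤ) : ℚ) ^ 2| := by
    have h2 : 1 ≤ P.det ^ 2 := by
      have : 0 < P.det ^ 2 := by positivity
      omega
    rw [abs_of_nonneg (by positivity)]; exact_mod_cast h2
  exact le_mul_of_one_le_left (abs_nonneg _) this

lemma mem_FS {n : ℕ} {G : Subgroup (Equiv.Perm (Fin n))} {X : ℝ} {L : IntermediateField ℚ Ω}
    [NumberField L] (h1 : finrank ℚ L = n) (h2 : HasGal n G L) (h3 : ((|discr L| : ℤ) : ℝ) ≤ X) :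
    L ∈ FS n G X := by
  have hc : Fintype.card (Free.ChooseBasisIndex ℤ (𝓞 L)) = Fintype.card (Fin n) := by
    rw [Fintype.card_fin, ← h1, ← finrank_eq_card_chooseBasisIndex, RingOfIntegers.rank]
  refine ⟨h1, h2, (RingOfIntegers.basis L).reindex (Fintype.equivOfCardEq hc), ?_⟩
  rwa [discr_eq_discr]

lemma FS_finite {n : ℕ} (hn : 0 < n) (G : Subgroup (Equiv.Perm (Fin n))) (X : ℝ) :
    (FS n G X).Finite := by
  have h := NumberField.finite_of_discr_bdd Ω ⌈X⌉₊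
  refine Set.Finite.subset (h.image Subtype.val) ?_
  rintro L ⟨h1, -, b, hb⟩
  have hfin : FiniteDimensional ℚ L := Module.finite_of_finrank_pos (by omega)
  refine ⟨⟨L, hfin⟩, ?_, rfl⟩
  have : NumberField L := @NumberField.mk _ _ inferInstance hfin
  simp only [Set.mem_ofPred_eq]
  rw [← discr_eq_discr L b]
  have := hb.trans (Nat.le_ceil X)
  exact_mod_cast this

lemma FS_mono {n : ℕ} (G : Subgroup (Equiv.Perm (Fin n))) {X Y : ℝ} (h : X ≤ Y) :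
    FS n G X ⊆ FS n G Y := by
  rintro L ⟨h1, h2, b, hb⟩
  exact ⟨h1, h2, b, hb.trans h⟩

end Pool.Agent.Lib.MP_af4c59_nt
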