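import Mathlib

set_option autoImplicit false

namespace Pool.Agent.Lib.MP_af4c59_nt

open Equiv

/-- The affine group generated by the translation and multiplication by an involution. -/
def affG (k : Fin 8) (hk : k * k = 1) : Subgroup (Perm (Fin 8)) where
  carrier := {τ | ∃ b, (∀ i, τ i = i + b) ∨ (∀ i, τ i = k * i + b)}
  one_mem' := ⟨0, Or.inl fun i => by simp⟩
  mul_mem' := by
    rintro σ τ ⟨a, ha | ha⟩ ⟨b, hb | hb⟩
    · exact ⟨b + a, Or.inl fun i => by rw [Perm.mul_apply, hb, ha, add_assoc]⟩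
    · exact ⟨b + a, Or.inr fun i => by rw [Perm.mul_apply, hb, ha, add_assoc]⟩
    · exact ⟨k * b + a, Or.inr fun i => by rw [Perm.mul_apply, hb, ha, mul_add, add_assoc]⟩
    · exact ⟨k * b + a, Or.inl fun i => by
        rw [Perm.mul_apply, hb, ha, mul_add, ← mul_assoc, hk, one_mul, add_assoc]⟩
  inv_mem' := by
    rintro σ ⟨a, ha | ha⟩
    · refine ⟨-a, Or.inl fun i => ?_⟩
      rw [Perm.inv_eq_iff_eq, ha]; simp
    · refine ⟨-(k * a), Or.inr fun i => ?_⟩
      rw [Perm.inv_eq_iff_eq, ha, mul_add, ← mul_assoc, hk, mul_neg, ← mul_assoc, hk]; simp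

lemma closure_eq (k : Fin 8) (hk : k * k = 1) (s : Perm (Fin 8)) (hs : ∀ i, s i = k * i) (τ : Perm (Fin 8)) :
    τ ∈ Subgroup.closure {finRotate 8, s} ↔ ∃ b, (∀ i, τ i = i + b) ∨ (∀ i, τ i = k * i + b) := by
  have hr : ∀ b i : Fin 8, (finRotate 8 ^ b.val) i = i + b := by decide
  have h1 : finRotate 8 ∈ Subgroup.closure {finRotate 8, s} := Subgroup.subset_closure (by simp)
  have h2 : s ∈ Subgroup.closure {finRotate 8, s} := Subgroup.subset_closure (by simp)
  constructor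
  · intro h
    refine (Subgroup.closure_le (affG k hk)).2 ?_ h
    rintro x (rfl | rfl)
    · exact ⟨1, Or.inl (by decide)⟩
    · exact ⟨0, Or.inr fun i => by rw [hs, add_zero]⟩
  · rintro ⟨b, hb | hb⟩
    · have : τ = finRotate 8 ^ b.val := Equiv.ext fun i => by rw [hb, hr]
      rw [this]; exact pow_mem h1 _
    · have : τ = finRotate 8 ^ b.val * s := Equiv.ext fun i => by rw [hb, Perm.mul_apply, hr, hs]
      rw [this]; exact mul_mem (pow_mem h1 _) h2

lemma ind_eq (k : Fin 8) (hk : k = 3 ∨ k = 7) (G : Subgroup (Perm (Fin 8)))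
    (hG : ∀ τ, τ ∈ G ↔ ∃ b, (∀ i, τ i = i + b) ∨ (∀ i, τ i = k * i + b)) :
    IsLeast {m : ℕ | ∃ g ∈ G, g ≠ 1 ∧ m = g.cycleType.sum - Multiset.card g.cycleType} 3 := by
  have hr : ∀ b i : Fin 8, (finRotate 8 ^ b.val) i = i + b := by decide
  obtain ⟨s, hs, hs2, hs3⟩ : ∃ s : Perm (Fin 8), (∀ i, s i = k * i) ∧
      (s ≠ 1 ∧ 3 = s.cycleType.sum - Multiset.card s.cycleType) ∧
      ∀ b : Fin 8, 3 ≤ (finRotate 8 ^ b.val * s).cycleType.sum -
        Multiset.card (finRotate 8 ^ b.val * s).cycleType := by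
    rcases hk with rfl | rfl
    · exact ⟨swap 1 3 * swap 2 6 * swap 5 7, by decide, by decide, by decide +kernel⟩
    · exact ⟨swap 1 7 * swap 2 6 * swap 3 5, by decide, by decide, by decide +kernel⟩
  constructor
  · exact ⟨s, (hG s).2 ⟨0, Or.inr fun i => by rw [hs, add_zero]⟩, hs2⟩
  · rintro m ⟨g, hg, hg1, rfl⟩
    obtain ⟨b, hb | hb⟩ := (hG g).1 hg
    · have : g = finRotate 8 ^ b.val := Equiv.ext fun i => by rw [hb, hr]
      have h3 : ∀ b : Fin 8, finRotate 8 ^ b.val ≠ 1 → 3 ≤ (finRotate 8 ^ b.val).cycleType.sum -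
        Multiset.card (finRotate 8 ^ b.val).cycleType := by decide +kernel
      rw [this] at hg1 ⊢
      exact h3 b hg1
    · have : g = finRotate 8 ^ b.val * s := Equiv.ext fun i => by rw [hb, Perm.mul_apply, hr, hs]
      rw [this]; exact hs3 b

end Pool.Agent.Lib.MP_af4c59_nt
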