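import Pool.Agent.Lib.MP_af4c59_nt.H11Tame

/-!
Arithmetic input: integral points, primes, valuation rings.
-/

namespace Pool.Agent.Lib.MP_af4c59_nt.H11

open MvPolynomial

variable {ι Ω : Type} [Field Ω] [CharZero Ω]

/-- Integral points of height at most `H` whose coordinates are permuted by Galois action. -/
def Pt (ε : Ω →+* ℂ) (H : ℕ) (x : ι → Ω) : Prop :=
  (∀ v, IsIntegral ℤ (x v)) ∧ (∀ v, ‖ε (x v)‖ ≤ H) ∧
    ∀ g : Ω ≃ₐ[ℚ] Ω, ∃ π : Equiv.Perm ι, ∀ v, g (x v) = x (π v)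

lemma int_of_rat {q : ℚ} (h : IsIntegral ℤ (algebraMap ℚ Ω q)) : ∃ n : ℤ, (n : ℚ) = q := by
  rw [isIntegral_algebraMap_iff (algebraMap ℚ Ω).injective] at h
  obtain ⟨n, hn⟩ := IsIntegrallyClosed.isIntegral_iff.mp h
  exact ⟨n, by simpa using hn⟩

lemma int_of_fixed [IsGalois ℚ Ω] {β : Ω} (h : IsIntegral ℤ β)
    (hfix : ∀ g : Ω ≃ₐ[ℚ] Ω, g β = β) : ∃ n : ℤ, (n : Ω) = β := by
  obtain ⟨q, rfl⟩ := (InfiniteGalois.mem_range_algebraMap_iff_fixed (k := ℚ) β).mpr hfix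
  obtain ⟨n, rfl⟩ := int_of_rat h
  exact ⟨n, by simp⟩

omit [CharZero Ω] in
lemma isIntegral_aeval {x : ι → Ω} (hx : ∀ v, IsIntegral ℤ (x v)) (P : MvPolynomial ι ℤ) :
    IsIntegral ℤ (aeval x P) := by
  induction P using MvPolynomial.induction_on with
  | C a => rw [aeval_C]; exact isIntegral_algebraMap
  | add p q hp hq => rw [map_add]; exact hp.add hq
  | mul_X p v hp => rw [map_mul, aeval_X]; exact hp.mul (hx v)

lemma ringHom_aeval {S T : Type} [CommRing S] [CommRing T] (φ : S →+* T) (x : ι → S)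
    (P : MvPolynomial ι ℤ) : φ (aeval x P) = aeval (fun v => φ (x v)) P := by
  induction P using MvPolynomial.induction_on with
  | C a => simp
  | add p q hp hq => rw [map_add, map_add, map_add, hp, hq]
  | mul_X p v hp => rw [map_mul, map_mul, map_mul, hp, aeval_X, aeval_X]

lemma eval_map_int {S : Type} [CommRing S] (x : ι → S) (P : MvPolynomial ι ℤ) :
    eval x (map (Int.castRingHom S) P) = aeval x P := by
  rw [eval_map, aeval_def]; rfl

omit [CharZero Ω] in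
lemma natAbs_le_of_norm (ε : Ω →+* ℂ) {u : ℤ} {M : ℕ} (h : ‖ε (u : Ω)‖ ≤ M) : u.natAbs ≤ M := by
  rw [map_intCast, Complex.norm_intCast] at h
  have : ((u.natAbs : ℕ) : ℝ) ≤ M := by rw [Nat.cast_natAbs]; exact_mod_cast h
  exact_mod_cast this

lemma exists_int_multiple [Fintype ι] [DecidableEq ι] [IsGalois ℚ Ω] {ε : Ω →+* ℂ} {H B : ℕ}
    (hH : 2 ≤ H) {x : ι → Ω} (hx : Pt ε H x) {P : MvPolynomial ι ℤ} (hP : Tame H B P)
    (h0 : aeval x P ≠ 0) : ∃ u : ℤ, u ≠ 0 ∧ u.natAbs ≤ H ^ (2 * B * (Fintype.card ι).factorial) ∧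
      ∃ β, IsIntegral ℤ β ∧ (u : Ω) = aeval x P * β := by
  classical
  set T := (Finset.univ.image fun π : Equiv.Perm ι => aeval (fun v => x (π v)) P).filter
    (· ≠ 0) with hT
  have hmem : ∀ b, b ∈ T ↔ (∃ π : Equiv.Perm ι, aeval (fun v => x (π v)) P = b) ∧ b ≠ 0 := by
    intro b; simp [hT]
  have hint : ∀ b ∈ T, IsIntegral ℤ b := by
    intro b hb
    obtain ⟨⟨π, rfl⟩, -⟩ := (hmem b).mp hb
    exact isIntegral_aeval (fun v => hx.1 _) P
  have hfix : ∀ g : Ω ≃ₐ[ℚ] Ω, g (∏ b ∈ T, b) = ∏ b ∈ T, b := by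
    intro g
    obtain ⟨π', hπ'⟩ := hx.2.2 g
    have h1 : T.image g ⊆ T := by
      intro b hb
      obtain ⟨a, ha, rfl⟩ := Finset.mem_image.mp hb
      obtain ⟨⟨π, rfl⟩, ha0⟩ := (hmem a).mp ha
      refine (hmem _).mpr ⟨⟨π' * π, ?_⟩, by simpa using ha0⟩
      have := ringHom_aeval (g : Ω →+* Ω) (fun v => x (π v)) P
      simp only [RingHom.coe_coe, hπ'] at this
      rw [this]; rfl
    have h2 : T.image g = T :=
      Finset.eq_of_subset_of_card_le h1 (by rw [Finset.card_image_of_injective _ g.injective])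
    rw [map_prod]
    conv_rhs => rw [← h2, Finset.prod_image fun a _ b _ h => g.injective h]
  obtain ⟨u, hu⟩ := int_of_fixed (IsIntegral.prod _ hint) hfix
  have hx0 : aeval x P ∈ T := (hmem _).mpr ⟨⟨1, rfl⟩, h0⟩
  refine ⟨u, ?_, ?_, ∏ b ∈ T.erase (aeval x P), b,
    IsIntegral.prod _ fun b hb => hint b (Finset.mem_of_mem_erase hb), ?_⟩
  · rintro rfl
    have : ∏ b ∈ T, b ≠ 0 := Finset.prod_ne_zero_iff.mpr fun b hb => ((hmem b).mp hb).2
    exact this (by simpa using hu.symm)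
  · refine natAbs_le_of_norm ε ?_
    have hH' : (1 : ℝ) ≤ H := by exact_mod_cast (by omega : 1 ≤ H)
    rw [hu, map_prod, norm_prod]
    calc ∏ b ∈ T, ‖ε b‖ ≤ ∏ b ∈ T, (H : ℝ) ^ (2 * B) := by
          refine Finset.prod_le_prod (fun _ _ => norm_nonneg _) fun b hb => ?_
          obtain ⟨⟨π, rfl⟩, -⟩ := (hmem b).mp hb
          rw [ringHom_aeval]
          exact hP.norm_aeval_le hH _ fun v => hx.2.1 _
      _ = (H : ℝ) ^ (2 * B * T.card) := by rw [Finset.prod_const, ← pow_mul]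
      _ ≤ (H : ℝ) ^ (2 * B * (Fintype.card ι).factorial) := by
          refine pow_le_pow_right₀ hH' (Nat.mul_le_mul_left _ ?_)
          refine (Finset.card_filter_le _ _).trans (Finset.card_image_le.trans ?_)
          simp [Fintype.card_perm]
      _ = _ := by push_cast; rfl
  · rw [hu, Finset.mul_prod_erase _ (fun b => b) hx0]

lemma exists_primes (y : ℕ) (hy : 1 ≤ y) : ∀ s : ℕ,
    ∃ P : Finset ℕ, P.card = s ∧ ∀ p ∈ P, p.Prime ∧ y < p ∧ p ≤ 2 ^ s * y := by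
  intro s
  induction s with
  | zero => exact ⟨∅, rfl, by simp⟩
  | succ s ih =>
    obtain ⟨P, h1, h2⟩ := ih
    have h3 : 1 ≤ 2 ^ s := Nat.one_le_two_pow
    obtain ⟨p, hp, h4, h5⟩ := Nat.exists_prime_lt_and_le_two_mul (2 ^ s * y)
      (Nat.mul_ne_zero (by omega) (by omega))
    have h6 : p ∉ P := fun h => by have := (h2 p h).2.2; omega
    refine ⟨insert p P, by rw [Finset.card_insert_of_notMem h6, h1], fun q hq => ?_⟩
    rcases Finset.mem_insert.mp hq with rfl | hq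
    · exact ⟨hp, by nlinarith, by rw [pow_succ]; nlinarith⟩
    · exact ⟨(h2 q hq).1, (h2 q hq).2.1, (h2 q hq).2.2.trans (by rw [pow_succ]; nlinarith)⟩

lemma exists_not_dvd {P : Finset ℕ} {H E : ℕ} (hH : 1 ≤ H) (hc : P.card = E + 1)
    (hP : ∀ p ∈ P, p.Prime ∧ H < p) {u : ℤ} (hu : u ≠ 0) (hle : u.natAbs ≤ H ^ E) :
    ∃ p ∈ P, ¬ (p : ℤ) ∣ u := by
  by_contra h
  push Not at h
  have h1 : ∏ p ∈ P, p ∣ u.natAbs :=
    Finset.prod_primes_dvd _ (fun p hp => (hP p hp).1.prime)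
      fun p hp => Int.natCast_dvd.mp (h p hp)
  have h2 := Nat.le_of_dvd (Int.natAbs_pos.mpr hu) h1
  have h3 : (H + 1) ^ P.card ≤ ∏ p ∈ P, p := Finset.pow_card_le_prod _ _ _ fun p hp => (hP p hp).2
  have h4 : H ^ E < (H + 1) ^ (E + 1) :=
    lt_of_le_of_lt (Nat.pow_le_pow_left (by omega) E) (Nat.pow_lt_pow_right (by omega) (by omega))
  rw [hc] at h3
  omega

lemma exists_val (Ω : Type) [Field Ω] [CharZero Ω] {p : ℕ} (hp : p.Prime) :
    ∃ O : ValuationSubring Ω, (∀ β, IsIntegral ℤ β → β ∈ O) ∧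
      (p : O) ∈ IsLocalRing.maximalIdeal O := by
  let A : Subring Ω := (integralClosure ℤ Ω).toSubring
  have hI : (Ideal.span {(p : A)}) ≠ ⊤ := by
    rw [Ne, Ideal.eq_top_iff_one, Ideal.mem_span_singleton']
    rintro ⟨β, hβ⟩
    have h1 : (β : Ω) * p = 1 := by simpa using congrArg (fun a : A => (a : Ω)) hβ
    have hp0 : (p : Ω) ≠ 0 := by exact_mod_cast hp.ne_zero
    have h2 : (β : Ω) = algebraMap ℚ Ω (1 / p) := by
      rw [map_div₀, map_one, map_natCast, eq_div_iff hp0, h1]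
    have h3 : IsIntegral ℤ (β : Ω) := β.2
    rw [h2] at h3
    obtain ⟨n, hn⟩ := int_of_rat h3
    have hp1 : (p : ℚ) ≠ 0 := by exact_mod_cast hp.ne_zero
    rw [eq_div_iff hp1] at hn
    have h4 : n * p = 1 := by exact_mod_cast hn
    have h5 : (p : ℤ) ∣ 1 := Dvd.intro_left n h4
    exact hp.not_dvd_one (by exact_mod_cast h5)
  obtain ⟨O, h1, h2⟩ := Ideal.image_subset_nonunits_valuationSubring _ hI
  refine ⟨O, fun β hβ => h1 hβ, ?_⟩
  rw [← ValuationSubring.coe_mem_nonunits_iff]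
  exact h2 ⟨(p : A), Ideal.subset_span rfl, by simp⟩

lemma isUnit_int {O : Type} [CommRing O] [IsLocalRing O] {p : ℕ} (hp : p.Prime)
    (hm : (p : O) ∈ IsLocalRing.maximalIdeal O) {u : ℤ} (hu : ¬ (p : ℤ) ∣ u) : IsUnit (u : O) := by
  obtain ⟨a, b, hab⟩ := (Nat.prime_iff_prime_int.mp hp).irreducible.coprime_iff_not_dvd.mpr hu
  have h1 : (b : O) * u = 1 - a * p := by
    have := congrArg (Int.cast : ℤ → O) hab
    push_cast at this
    linear_combination this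
  have h2 : IsUnit (1 - (a : O) * p) :=
    IsLocalRing.isUnit_one_sub_self_of_mem_nonunits _ (Ideal.mul_mem_left _ _ hm)
  rw [← h1] at h2
  exact isUnit_of_mul_isUnit_right h2

lemma dvd_of_mem {O : Type} [CommRing O] [IsLocalRing O] [IsDomain O] [CharZero O] {p : ℕ}
    (hp : p.Prime) (hm : (p : O) ∈ IsLocalRing.maximalIdeal O) : ∀ (E : ℕ) (δ : ℤ),
      (δ : O) ∈ Ideal.span {(p : O) ^ E} → (p : ℤ) ^ E ∣ δ := by
  intro E
  induction E with
  | zero => simp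
  | succ E ih =>
    intro δ hδ
    obtain ⟨o, ho⟩ := Ideal.mem_span_singleton'.mp hδ
    have h1 : (p : ℤ) ∣ δ := by
      by_contra h
      have h2 := isUnit_int hp hm h
      have h3 : (δ : O) ∈ IsLocalRing.maximalIdeal O := by
        rw [← ho, pow_succ, ← mul_assoc]; exact Ideal.mul_mem_left _ _ hm
      exact h3 h2
    obtain ⟨δ', rfl⟩ := h1
    have hp0 : (p : O) ≠ 0 := by exact_mod_cast hp.ne_zero
    rw [pow_succ']
    refine mul_dvd_mul_left _ (ih δ' (Ideal.mem_span_singleton'.mpr ⟨o, ?_⟩))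
    apply mul_left_cancel₀ hp0
    push_cast at ho
    rw [← ho]; ring

end Pool.Agent.Lib.MP_af4c59_nt.H11
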