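import Pool.Agent.Lib.MP_af4c59_nt.H11Jet

/-!
A weak Bezout bound for nondegenerate solutions of polynomial systems over any field.
-/

namespace Pool.Agent.Lib.MP_af4c59_nt.H11

open MvPolynomial

section close

variable {S : Type} [CommRing S] (I : Ideal S)

/-- `a` and `b` have order `s` and agree to order `s + 1`. -/
def Cl (s : ℕ) (a b : S) : Prop := a ∈ I ^ s ∧ b ∈ I ^ s ∧ a - b ∈ I ^ (s + 1)

variable {I}

lemma Cl.one : Cl I 0 1 1 := ⟨by simp, by simp, by simp⟩

lemma Cl.mul {s t : ℕ} {a b c d : S} (h : Cl I s a b) (h' : Cl I t c d) :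
    Cl I (s + t) (a * c) (b * d) := by
  refine ⟨by rw [pow_add]; exact Ideal.mul_mem_mul h.1 h'.1,
    by rw [pow_add]; exact Ideal.mul_mem_mul h.2.1 h'.2.1, ?_⟩
  have : a * c - b * d = (a - b) * c + b * (c - d) := by ring
  rw [this]
  refine add_mem ?_ ?_
  · rw [show s + t + 1 = (s + 1) + t by ring, pow_add]; exact Ideal.mul_mem_mul h.2.2 h'.1
  · rw [show s + t + 1 = s + (t + 1) by ring, pow_add]; exact Ideal.mul_mem_mul h.2.1 h'.2.2

lemma Cl.pow {s : ℕ} {a b : S} (h : Cl I s a b) : ∀ n : ℕ, Cl I (n * s) (a ^ n) (b ^ n)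
  | 0 => by simpa using Cl.one
  | n + 1 => by
    rw [pow_succ, pow_succ, add_mul, one_mul]; exact (Cl.pow h n).mul h

lemma Cl.prod {α : Type} (t : Finset α) (s : α → ℕ) (a b : α → S)
    (h : ∀ i ∈ t, Cl I (s i) (a i) (b i)) :
    Cl I (∑ i ∈ t, s i) (∏ i ∈ t, a i) (∏ i ∈ t, b i) := by
  classical
  induction t using Finset.induction_on with
  | empty => simpa using Cl.one
  | insert i t hi ih =>
    rw [Finset.sum_insert hi, Finset.prod_insert hi, Finset.prod_insert hi]
    exact (h i (Finset.mem_insert_self _ _)).mul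
      (ih fun j hj => h j (Finset.mem_insert_of_mem hj))

lemma aeval_sub_aeval_mem {R σ : Type} [CommRing R] [Algebra R S] (g h : σ → S)
    (hgh : ∀ u, Cl I 1 (g u) (h u)) {s : ℕ} {P : MvPolynomial σ R} (hP : P.IsHomogeneous s) :
    aeval g P - aeval h P ∈ I ^ (s + 1) := by
  rw [P.as_sum, map_sum, map_sum, ← Finset.sum_sub_distrib]
  refine Ideal.sum_mem _ fun α hα => ?_
  rw [aeval_monomial, aeval_monomial, ← mul_sub]
  refine Ideal.mul_mem_left _ _ ?_
  have h1 := Cl.prod α.support (fun u => α u * 1) (fun u => g u ^ α u) (fun u => h u ^ α u)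
    fun u _ => (hgh u).pow (α u)
  have h2 : ∑ u ∈ α.support, α u * 1 = s := by
    have := hP (mem_support_iff.mp hα)
    rw [← this]
    simp [Finsupp.weight_apply, Finsupp.sum]
  rw [h2] at h1
  exact h1.2.2

end close

variable {ι : Type} [Fintype ι] [DecidableEq ι]

lemma hom_inj {R : Type} [CommRing R] (z : ι → R) (Φ : ι → MvPolynomial ι R)
    (h : IsUnit (eval z (jac Φ).det)) {s : ℕ} {P : MvPolynomial ι R} (hP : P.IsHomogeneous s)
    (hm : aeval (fun u => Φ u - C (eval z (Φ u))) P ∈ mx z ^ (s + 1)) : P = 0 := by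
  rw [eval_det_jac] at h
  set A : Matrix ι ι R := Matrix.of fun u v => eval z (pderiv v (Φ u)) with hA
  have hinv : A * A⁻¹ = 1 := Matrix.mul_nonsing_inv A h
  let τ : MvPolynomial ι R →ₐ[R] MvPolynomial ι R :=
    aeval fun v => C (z v) + ∑ u, C (A⁻¹ v u) * X u
  have hX : ∀ u, (X u : MvPolynomial ι R) ∈ mx (0 : ι → R) := fun u => by
    simpa using X_sub_mem (0 : ι → R) u
  have hτ1 : ∀ v, τ (X v - C (z v)) = ∑ u, C (A⁻¹ v u) * X u := by
    intro v; simp [τ, algebraMap_eq]
  have hτ : ∀ v, τ.toRingHom (X v - C (z v)) ∈ mx (0 : ι → R) := by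
    intro v
    show τ (X v - C (z v)) ∈ _
    rw [hτ1]
    exact Ideal.sum_mem _ fun u _ => Ideal.mul_mem_left _ _ (hX u)
  have hcl : ∀ u, Cl (mx (0 : ι → R)) 1 (τ (Φ u - C (eval z (Φ u)))) (X u) := by
    intro u
    have h1 := map_mem_pow τ.toRingHom z _ hτ (taylor_one z (Φ u))
    have h2 : τ (∑ v, C (eval z (pderiv v (Φ u))) * (X v - C (z v))) = X u := by
      rw [map_sum]
      have : ∀ v, τ (C (eval z (pderiv v (Φ u))) * (X v - C (z v)))
          = ∑ w, C (A u v * A⁻¹ v w) * X w := by
        intro v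
        rw [map_mul, hτ1, Finset.mul_sum]
        refine Finset.sum_congr rfl fun w _ => ?_
        simp [τ, algebraMap_eq, hA, mul_assoc]
      simp only [this]
      rw [Finset.sum_comm]
      simp only [← Finset.sum_mul, ← map_sum]
      have h4 : ∀ w, ∑ v, A u v * A⁻¹ v w = (1 : Matrix ι ι R) u w := by
        intro w; rw [← hinv, Matrix.mul_apply]
      simp only [h4, Matrix.one_apply]
      rw [Finset.sum_eq_single u] <;> simp +contextual [eq_comm]
    refine ⟨?_, by simpa using hX u, ?_⟩
    · exact map_mem_pow τ.toRingHom z _ hτ (by simpa using sub_C_mem z (Φ u))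
    · rw [← h2, ← map_sub]; exact h1
  have h3 := aeval_sub_aeval_mem _ _ hcl hP
  have h4 := map_mem_pow τ.toRingHom z _ hτ hm
  have h5 : τ.toRingHom (aeval (fun u => Φ u - C (eval z (Φ u))) P)
      = aeval (fun u => τ (Φ u - C (eval z (Φ u)))) P := by
    show τ _ = _
    rw [← AlgHom.comp_apply, comp_aeval]
  rw [h5] at h4
  have h6 := sub_mem h4 h3
  rw [sub_sub_cancel, aeval_X_left_apply, mx_zero_eq, mem_pow_idealOfVars_iff'] at h6
  ext α
  by_cases hα : α.degree = s
  · exact h6 α (by omega)
  · exact hP.coeff_eq_zero hα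

omit [DecidableEq ι] in
lemma mem_span_box {k : Type} [Field k] (L : ℕ) (P : MvPolynomial ι k) (hP : P.totalDegree ≤ L) :
    P ∈ Submodule.span k (Set.range fun γ : ι → Fin (L + 1) =>
      (monomial (Finsupp.equivFunOnFinite.symm fun u => (γ u : ℕ)) (1 : k))) := by
  rw [P.as_sum]
  refine Submodule.sum_mem _ fun α hα => ?_
  have : monomial α (coeff α P) = coeff α P • monomial α (1 : k) := by simp [smul_monomial]
  rw [this]
  refine Submodule.smul_mem _ _ (Submodule.subset_span ⟨fun u => ⟨α u, ?_⟩, ?_⟩)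
  · have h1 := monomial_le_degreeOf u hα
    have h2 := degreeOf_le_totalDegree P u
    omega
  · simp

theorem bezout {k : Type} [Field k] (Φ : ι → MvPolynomial ι k) (B : ℕ)
    (hdeg : ∀ u, (Φ u).totalDegree ≤ B) (c : ι → k) (Z : Finset (ι → k))
    (hZ : ∀ z ∈ Z, (∀ u, eval z (Φ u) = c u) ∧ eval z (jac Φ).det ≠ 0) :
    Z.card ≤ (1 + B * Fintype.card ι) ^ Fintype.card ι := by
  classical
  rcases Nat.eq_zero_or_pos Z.card with h0 | hM
  · omega
  set M := Z.card with hMdef
  set N := Fintype.card ι with hN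
  have hsep : ∀ z z' : ι → k, ∃ l : MvPolynomial ι k, l.totalDegree ≤ 1 ∧ eval z' l = 0 ∧
      (z' ≠ z → eval z l ≠ 0) := by
    intro z z'
    by_cases h : z' = z
    · exact ⟨0, by simp, by simp, fun h' => absurd h h'⟩
    · obtain ⟨v, hv⟩ := Function.ne_iff.mp h
      refine ⟨X v - C (z' v), ?_, by simp, fun _ => ?_⟩
      · refine (totalDegree_sub _ _).trans ?_
        simp [totalDegree_X]
      · simpa [sub_eq_zero] using hv.symm
  choose l hl1 hl2 hl3 using hsep
  let g : (ι → k) → MvPolynomial ι k := fun z => ∏ z' ∈ Z.erase z, l z z'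
  have hg1 : ∀ z, eval z (g z) ≠ 0 := by
    intro z
    simp only [g, map_prod]
    exact Finset.prod_ne_zero_iff.mpr fun z' hz' => hl3 z z' (Finset.ne_of_mem_erase hz')
  have hg2 : ∀ z z', z' ∈ Z → z' ≠ z → g z ∈ mx z' := by
    intro z z' h1 h2
    rw [mem_mx_iff]
    simp only [g, map_prod]
    exact Finset.prod_eq_zero (Finset.mem_erase.mpr ⟨h2, h1⟩) (hl2 z z')
  have hg3 : ∀ z ∈ Z, (g z).totalDegree ≤ M - 1 := by
    intro z hz
    refine (totalDegree_finsetProd _ _).trans ?_
    refine (Finset.sum_le_card_nsmul _ _ 1 fun z' _ => hl1 z z').trans ?_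
    simp [Finset.card_erase_of_mem hz, hMdef]
  let f : ι → MvPolynomial ι k := fun u => Φ u - C (c u)
  have hf : ∀ z ∈ Z, (fun u => Φ u - C (eval z (Φ u))) = f := by
    intro z hz; funext u; rw [(hZ z hz).1 u]
  have hfm : ∀ z ∈ Z, ∀ u, f u ∈ mx z := by
    intro z hz u; rw [← hf z hz]; exact sub_C_mem z _
  have key : ∀ P : Z → MvPolynomial ι k, ∑ z : Z, g z * aeval f (P z) = 0 →
      ∀ (s : ℕ) (z : Z) (α : ι →₀ ℕ), α.degree < s → (P z).coeff α = 0 := by
    intro P hP s
    induction s with
    | zero => intro z α h; omega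
    | succ s ih =>
      intro z
      have hhc : homogeneousComponent s (P z) = 0 := by
        have h1 : g z * aeval f (P z) ∈ mx (z : ι → k) ^ (s + 1) := by
          rw [← Finset.add_sum_erase _ _ (Finset.mem_univ z), add_eq_zero_iff_eq_neg] at hP
          rw [hP]
          refine neg_mem (Ideal.sum_mem _ fun z' hz' => ?_)
          rw [pow_succ']
          exact Ideal.mul_mem_mul (hg2 z' z z.2
            (fun e => Finset.ne_of_mem_erase hz' (Subtype.ext e.symm)))
            (aeval_mem_pow f _ (hfm z z.2) (ih z'))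
        have h2 : aeval f (P z - homogeneousComponent s (P z)) ∈ mx (z : ι → k) ^ (s + 1) := by
          refine aeval_mem_pow f _ (hfm z z.2) fun α hα => ?_
          rw [coeff_sub, coeff_homogeneousComponent]
          split_ifs with h
          · simp
          · rw [ih z α (by omega)]; simp
        have h3 : (g z - C (eval z (g z))) * aeval f (P z) ∈ mx (z : ι → k) ^ (s + 1) := by
          rw [pow_succ']
          exact Ideal.mul_mem_mul (sub_C_mem _ _) (aeval_mem_pow f _ (hfm z z.2) (ih z))
        have h4 : aeval f (C (eval z (g z)) * homogeneousComponent s (P z))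
            ∈ mx (z : ι → k) ^ (s + 1) := by
          have h5 := sub_mem (sub_mem h1 h3) (Ideal.mul_mem_left _ (C (eval z (g z))) h2)
          convert h5 using 1
          simp only [map_mul, map_sub, aeval_C, algebraMap_eq]
          ring
        have hh : (C (eval z (g z)) * homogeneousComponent s (P z)).IsHomogeneous s := by
          have := (isHomogeneous_C ι (eval (z : ι → k) (g z))).mul
            (homogeneousComponent_isHomogeneous s (P z))
          rwa [zero_add] at this
        have h6 := hom_inj (z : ι → k) Φ (isUnit_iff_ne_zero.mpr (hZ z z.2).2) hh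
          (by rw [hf z z.2]; exact h4)
        rcases mul_eq_zero.mp h6 with h7 | h7
        · exact absurd (C_eq_zero.mp h7) (hg1 z)
        · exact h7
      intro α hα
      by_cases h : α.degree = s
      · have := congrArg (coeff α) hhc
        rw [coeff_homogeneousComponent, if_pos h] at this
        simpa using this
      · exact ih z α (by omega)
  let e : (ι → Fin M) → (ι →₀ ℕ) := fun β => Finsupp.equivFunOnFinite.symm fun u => β u
  have he : Function.Injective e := by
    intro β β' h
    funext u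
    have := congrArg (fun t : ι →₀ ℕ => t u) h
    simpa [e, Fin.ext_iff] using this
  have hli : LinearIndependent k fun p : Z × (ι → Fin M) =>
      g p.1 * aeval f (monomial (e p.2) (1 : k)) := by
    rw [Fintype.linearIndependent_iff]
    intro a ha
    have h1 := key (fun z => ∑ β, monomial (e β) (a (z, β))) (by
      rw [← ha, Fintype.sum_prod_type]
      refine Finset.sum_congr rfl fun z _ => ?_
      rw [map_sum, Finset.mul_sum]
      refine Finset.sum_congr rfl fun β _ => ?_
      rw [← mul_smul_comm, ← map_smul, smul_monomial, smul_eq_mul, mul_one])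
    rintro ⟨z, β⟩
    have h2 := h1 ((e β).degree + 1) z (e β) (by omega)
    rw [coeff_sum, Finset.sum_eq_single β] at h2
    · simpa using h2
    · intro β' _ hβ
      rw [coeff_monomial, if_neg (fun h => hβ (he h))]
    · simp
  set L := (M - 1) + N * ((M - 1) * B) with hL
  have hfd : ∀ u, (f u).totalDegree ≤ B := fun u =>
    (totalDegree_sub _ _).trans (by simpa using hdeg u)
  have h1 := linearIndependent_le_span_aux' _ hli (Set.range fun γ : ι → Fin (L + 1) =>
      (monomial (Finsupp.equivFunOnFinite.symm fun u => (γ u : ℕ)) (1 : k))) (by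
    rintro _ ⟨⟨z, β⟩, rfl⟩
    refine mem_span_box L _ ((totalDegree_mul _ _).trans (add_le_add (hg3 z z.2) ?_))
    rw [aeval_monomial, map_one, one_mul, Finsupp.prod_fintype _ _ (by simp)]
    refine (totalDegree_finsetProd _ _).trans ?_
    refine (Finset.sum_le_card_nsmul _ _ ((M - 1) * B) fun u _ => ?_).trans (by simp [hN])
    refine (totalDegree_pow _ _).trans (Nat.mul_le_mul ?_ (hfd u))
    have := (β u).2
    simp only [e, Finsupp.equivFunOnFinite_symm_apply_apply]
    omega)
  have h2 := Fintype.card_range_le fun γ : ι → Fin (L + 1) =>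
      (monomial (Finsupp.equivFunOnFinite.symm fun u => (γ u : ℕ)) (1 : k))
  have h3 := h1.trans h2
  simp only [Fintype.card_prod, Fintype.card_coe, Fintype.card_fun, Fintype.card_fin] at h3
  have h4 : L + 1 ≤ M * (1 + B * N) := by
    obtain ⟨M', hM'⟩ : ∃ M', M = M' + 1 := ⟨M - 1, by omega⟩
    rw [hL, hM']
    simp only [Nat.add_sub_cancel]
    nlinarith [Nat.zero_le (B * N)]
  have h5 : M * M ^ N ≤ (1 + B * N) ^ N * M ^ N := by
    calc M * M ^ N ≤ (L + 1) ^ N := h3
      _ ≤ (M * (1 + B * N)) ^ N := Nat.pow_le_pow_left h4 _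
      _ = _ := by rw [mul_pow, mul_comm]
  exact Nat.le_of_mul_le_mul_right h5 (pow_pos hM _)

end Pool.Agent.Lib.MP_af4c59_nt.H11
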