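import Pool.Agent.Lib.MP_af4c59_nt.H11Stage

/-!
The abstract counting theorem: iteration of the stages and the choice of initial frames.
-/

namespace Pool.Agent.Lib.MP_af4c59_nt.H11

open MvPolynomial

variable {ι A Ω : Type} [Fintype ι] [DecidableEq ι] [Fintype A] [Field Ω] [CharZero Ω]

namespace Setup

variable {d : Setup ι A Ω}

lemma stage' [IsGalois ℚ Ω] {m E l : ℕ} (h : d.Bd (m / 2) E) (hl : 1 ≤ l)
    (hj : 16 * l ^ 2 * m ≤ d.j) : ∃ E', l * E' ≤ l * E + 2 * d.T + l * m ∧ d.Bd m E' := by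
  rcases Nat.eq_zero_or_pos m with rfl | hm
  · exact ⟨E, by omega, h⟩
  have hlm : 0 < l * m := Nat.mul_pos hl hm
  have h1 := Nat.div_add_mod (2 * d.T) (l * m)
  have h2 := Nat.mod_lt (2 * d.T) hlm
  refine ⟨E + (2 * d.T / (l * m) + 1) * m, ?_, stage h hl hm (Nat.le_add_left _ _) ?_ hj⟩
  · have : l * (E + (2 * d.T / (l * m) + 1) * m)
        = l * E + l * m * (2 * d.T / (l * m)) + l * m := by ring
    omega
  · have : (2 * d.T / (l * m) + 1) * (l * m) = l * m * (2 * d.T / (l * m)) + l * m := by ring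
    omega

lemma bd_all [IsGalois ℚ Ω] : ∀ m l : ℕ, 1 ≤ l → 16 * l ^ 2 * m ≤ d.j →
    ∃ E, l * E ≤ 8 * d.T + 2 * (l * m) ∧ d.Bd m E := by
  intro m
  induction m using Nat.strong_induction_on with
  | _ m ih =>
    intro l hl hj
    rcases Nat.eq_zero_or_pos m with rfl | hm
    · exact ⟨0, by omega, bd_zero⟩
    have e1 : l * (m / 2 / 2) * 4 ≤ l * m := by
      rw [mul_assoc]; exact Nat.mul_le_mul_left _ (by omega)
    have e2 : l * (m / 2) * 2 ≤ l * m := by
      rw [mul_assoc]; exact Nat.mul_le_mul_left _ (by omega)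
    obtain ⟨E0, h0, b0⟩ := ih (m / 2 / 2) (by omega) (2 * l) (by omega) (by
      refine le_trans ?_ hj
      calc 16 * (2 * l) ^ 2 * (m / 2 / 2) = 16 * l * (l * (m / 2 / 2) * 4) := by ring
        _ ≤ 16 * l * (l * m) := Nat.mul_le_mul_left _ e1
        _ = _ := by ring)
    obtain ⟨E1, h1, b1⟩ := stage' b0 hl
      (le_trans (Nat.mul_le_mul_left _ (Nat.div_le_self _ _)) hj)
    obtain ⟨E2, h2, b2⟩ := stage' b1 hl hj
    refine ⟨E2, ?_, b2⟩
    rw [mul_assoc 2 l E0, mul_assoc 2 l] at h0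
    omega

omit [Fintype A] [CharZero Ω] in
lemma exists_frame (hj : 1 ≤ d.j) {x : ι → Ω} (hJ : d.JS x) (U : Finset ι) :
    (∀ u ∈ U, u ∉ d.K0) → ∃ Φ : ι → MvPolynomial ι ℤ, (∀ u ∈ U, ∃ a, Φ u = d.F a) ∧
      (∀ u, u ∉ U → Φ u = X u) ∧ aeval x (jac Φ).det ≠ 0 := by
  induction U using Finset.induction_on with
  | empty =>
    intro _
    refine ⟨fun u => X u, by simp, by simp, ?_⟩
    have : jac (fun u => (X u : MvPolynomial ι ℤ)) = 1 := by
      refine Matrix.ext fun u v => ?_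
      simp [jac, pderiv_X, Matrix.one_apply, Pi.single_apply]
    rw [this]; simp
  | insert w U hw ih =>
    intro hU
    obtain ⟨Φ, h1, h2, h3⟩ := ih fun u hu => hU u (Finset.mem_insert_of_mem hu)
    have hw0 : w ∉ d.K0 := hU w (Finset.mem_insert_self _ _)
    obtain ⟨Q, hQ, hPQ⟩ := hJ (mp Ω (Φ w))
    have hle : eqI (fun u => X u) d.K0 x ≤ eqI (fun u => mp Ω (Φ u)) d.K0 x :=
      eqI_base_le (d := d) (fun u hu => ⟨hu, h2 u fun h => hU u (Finset.mem_insert_of_mem h) hu⟩) x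
    have h4 := eval_Dl_eq_zero (fun u => mp Ω (Φ u)) d.K0 x [w] (d.j + 1) _
      (by simpa using hw0) (by simp; omega) (sup_le_sup_right hle _ hPQ)
    rw [Dl_cons, Dl_nil, map_sub, map_sub, D_frame (fun u => mp Ω (Φ u)) w w, if_pos rfl,
      eval_jac_mp, sub_eq_zero] at h4
    obtain ⟨a, ha⟩ : ∃ a, eval x (D (fun u => mp Ω (Φ u)) w (mp Ω (d.F a))) ≠ 0 := by
      by_contra hcon
      push Not at hcon
      apply h3
      rw [h4]
      refine Submodule.span_induction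
        (p := fun Q _ => eval x (D (fun u => mp Ω (Φ u)) w Q) = 0) ?_ ?_ ?_ ?_ hQ
      · rintro _ ⟨a, rfl⟩; exact hcon a
      · simp
      · intro a b _ _ ha hb; rw [map_add, map_add, ha, hb, add_zero]
      · intro c b _ hb; rw [Derivation.map_smul, smul_eval, hb, mul_zero]
    refine ⟨Function.update Φ w (d.F a), ?_, ?_, ?_⟩
    · intro u hu
      by_cases h : u = w
      · subst h; exact ⟨a, by simp⟩
      · rw [Function.update_of_ne h]
        exact h1 u ((Finset.mem_insert.mp hu).resolve_left h)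
    · intro u hu
      rw [Finset.mem_insert, not_or] at hu
      rw [Function.update_of_ne hu.1]; exact h2 u hu.2
    · rwa [← map_D, eval_map_int, D_eq_det] at ha

theorem count [IsGalois ℚ Ω] (hj1 : 1 ≤ d.j) (hj : 16 * d.K0ᶜ.card ≤ d.j) :
    ∃ c : ℕ, ∀ H, 2 ≤ H → ∀ S : Finset (ι → Ω), (∀ x ∈ S, d.Gd H x) →
      (∀ u ∈ d.K0, ∀ x ∈ S, ∀ y ∈ S, x u = y u) →
      S.card ≤ c * H ^ (8 * d.T + 2 * d.K0ᶜ.card) := by
  classical
  obtain ⟨E, hE, hB⟩ := bd_all (d := d) d.K0ᶜ.card 1 le_rfl (by simpa using hj)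
  obtain ⟨BF, hBF1, hBF⟩ := exists_tame_family d.F
  obtain ⟨c, hc⟩ := hB BF
  let Y : Finset (ι → MvPolynomial ι ℤ) :=
    Fintype.piFinset fun u => insert (X u) (Finset.univ.image d.F)
  refine ⟨Y.card * c, fun H hH S hG hK => ?_⟩
  have := card_le_of_cover S Y (fun x Φ => (∀ u, u ∉ d.K0 → ∃ a, Φ u = d.F a) ∧
    (∀ u ∈ d.K0, Φ u = X u) ∧ aeval x (jac Φ).det ≠ 0) (c * H ^ E) (by
      intro x hx
      obtain ⟨Φ, h1, h2, h3⟩ := exists_frame hj1 (hG x hx).2.2 d.K0ᶜ (by simp)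
      refine ⟨Φ, Fintype.mem_piFinset.mpr fun u => ?_, by simpa using h1, by simpa using h2, h3⟩
      by_cases hu : u ∈ d.K0
      · rw [h2 u (by simpa using hu)]; exact Finset.mem_insert_self _ _
      · obtain ⟨a, ha⟩ := h1 u (by simpa using hu)
        rw [ha]; exact Finset.mem_insert_of_mem (Finset.mem_image_of_mem _ (Finset.mem_univ a)))
    (by
      intro Φ _ S' hS'
      rcases S'.eq_empty_or_nonempty with rfl | ⟨x0, hx0⟩
      · simp
      obtain ⟨h1, h2, -⟩ := (hS' x0 hx0).2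
      refine hc H hH S' Φ d.K0 (fun x hx => hG x (hS' x hx).1) ⟨fun u => ?_,
        fun u hu => ⟨hu, h2 u hu⟩, fun u hu x hx y hy => ?_, fun u hu x hx => ?_,
        fun x hx => (hS' x hx).2.2.2⟩ le_rfl
      · by_cases hu : u ∈ d.K0
        · rw [h2 u hu]; exact (tame_X hH u).mono hH hBF1
        · obtain ⟨a, ha⟩ := h1 u hu
          rw [ha]; exact hBF H hH a
      · rw [h2 u hu, aeval_X, aeval_X]
        exact hK u hu x (hS' x hx).1 y (hS' y hy).1
      · obtain ⟨a, ha⟩ := h1 u hu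
        obtain ⟨n, hn, -⟩ := (hG x (hS' x hx).1).2.1 a
        exact ⟨n, ha ▸ hn⟩)
  refine this.trans ?_
  rw [← mul_assoc]
  exact Nat.mul_le_mul_left _ (Nat.pow_le_pow_right (by omega) (by omega))

end Setup

end Pool.Agent.Lib.MP_af4c59_nt.H11
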