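import Pool.Agent.Lib.MP_af4c59_nt.H11Bezout

/-!
Hermite interpolation of low degree at the vertices of a cube and at generic points.
-/

namespace Pool.Agent.Lib.MP_af4c59_nt.H11

open MvPolynomial

variable {σ Ω : Type} [Fintype σ] [Field Ω]

/-- The ideal of the vertices of the cube. -/
noncomputable def cubeI (σ Ω : Type) [Field Ω] : Ideal (MvPolynomial σ Ω) :=
  Ideal.span (Set.range fun l => X l * (1 - X l))

lemma cube_red0 (P : MvPolynomial σ Ω) :
    ∃ Q : MvPolynomial σ Ω, Q.totalDegree ≤ Fintype.card σ ∧ P - Q ∈ cubeI σ Ω := by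
  refine ⟨∑ α ∈ P.support, C (P.coeff α) * ∏ l ∈ α.support, X l, ?_, ?_⟩
  · refine (totalDegree_finsetSum _ _).trans (Finset.sup_le fun α _ => ?_)
    refine (totalDegree_mul _ _).trans ?_
    rw [totalDegree_C, zero_add]
    refine (totalDegree_finsetProd _ _).trans ?_
    simp only [totalDegree_X]
    simpa using Finset.card_le_univ α.support
  · nth_rewrite 1 [P.as_sum]
    rw [← Finset.sum_sub_distrib]
    refine Ideal.sum_mem _ fun α _ => ?_
    rw [← Ideal.Quotient.eq, monomial_eq, Finsupp.prod, map_mul, map_mul, map_prod, map_prod]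
    congr 1
    refine Finset.prod_congr rfl fun l hl => ?_
    obtain ⟨e, he⟩ : ∃ e, α l = e + 1 :=
      Nat.exists_eq_succ_of_ne_zero (Finsupp.mem_support_iff.mp hl)
    rw [he, map_pow]
    refine IsIdempotentElem.pow_succ_eq e ?_
    rw [IsIdempotentElem, ← map_mul, eq_comm, Ideal.Quotient.eq]
    have : (X l : MvPolynomial σ Ω) - X l * X l = X l * (1 - X l) := by ring
    rw [this]
    exact Ideal.subset_span ⟨l, rfl⟩

lemma cube_red1 : ∀ (s : ℕ) (P : MvPolynomial σ Ω), P ∈ cubeI σ Ω ^ s →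
    ∃ Q : MvPolynomial σ Ω, Q.totalDegree ≤ 2 * s + Fintype.card σ ∧
      P - Q ∈ cubeI σ Ω ^ (s + 1) := by
  intro s
  induction s with
  | zero => intro P _; simpa using cube_red0 P
  | succ s ih =>
    intro P hP
    rw [pow_succ'] at hP
    refine Submodule.mul_induction_on hP ?_ ?_
    · intro a ha b hb
      obtain ⟨c, rfl⟩ := Ideal.mem_span_range_iff_exists_fun.mp ha
      choose Q hQ1 hQ2 using fun l => ih (c l * b) (Ideal.mul_mem_left _ _ hb)
      refine ⟨∑ l, X l * (1 - X l) * Q l, ?_, ?_⟩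
      · refine (totalDegree_finsetSum _ _).trans (Finset.sup_le fun l _ => ?_)
        refine (totalDegree_mul _ _).trans ?_
        have h1 := totalDegree_mul (X l : MvPolynomial σ Ω) (1 - X l)
        have h2 := totalDegree_sub (1 : MvPolynomial σ Ω) (X l)
        have h3 := hQ1 l
        simp only [totalDegree_X, totalDegree_one] at h1 h2
        omega
      · rw [Finset.sum_mul, ← Finset.sum_sub_distrib]
        refine Ideal.sum_mem _ fun l _ => ?_
        have : c l * (X l * (1 - X l)) * b - X l * (1 - X l) * Q l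
            = X l * (1 - X l) * (c l * b - Q l) := by ring
        rw [this, pow_succ' _ (s + 1)]
        exact Ideal.mul_mem_mul (Ideal.subset_span ⟨l, rfl⟩) (hQ2 l)
    · rintro a b ⟨Q, h1, h2⟩ ⟨Q', h1', h2'⟩
      refine ⟨Q + Q', (totalDegree_add _ _).trans (max_le h1 h1'), ?_⟩
      have : a + b - (Q + Q') = (a - Q) + (b - Q') := by ring
      rw [this]; exact add_mem h2 h2'

lemma cube_red (P : MvPolynomial σ Ω) : ∀ k : ℕ,
    ∃ Q : MvPolynomial σ Ω, Q.totalDegree ≤ 2 * k + Fintype.card σ ∧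
      P - Q ∈ cubeI σ Ω ^ (k + 1) := by
  intro k
  induction k with
  | zero => simpa using cube_red0 P
  | succ k ih =>
    obtain ⟨Q, h1, h2⟩ := ih
    obtain ⟨Q', h1', h2'⟩ := cube_red1 (k + 1) _ h2
    refine ⟨Q + Q', (totalDegree_add _ _).trans (max_le (by omega) h1'), ?_⟩
    rwa [← sub_sub]

omit [Fintype σ] in
lemma coprime_mx {y y' : σ → Ω} (h : y ≠ y') : IsCoprime (mx y) (mx y') := by
  obtain ⟨l, hl⟩ := Function.ne_iff.mp h
  have h0 : y' l - y l ≠ 0 := sub_ne_zero.mpr hl.symm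
  refine Ideal.isCoprime_iff_exists.mpr ⟨C (y' l - y l)⁻¹ * (X l - C (y l)),
    Ideal.mul_mem_left _ _ (X_sub_mem y l), -(C (y' l - y l)⁻¹ * (X l - C (y' l))),
    neg_mem (Ideal.mul_mem_left _ _ (X_sub_mem y' l)), ?_⟩
  have : (C (y' l - y l)⁻¹ : MvPolynomial σ Ω) * C (y' l - y l) = 1 := by
    rw [← C_mul, inv_mul_cancel₀ h0, C_1]
  rw [← this, map_sub]; ring

lemma cube_interp {n : Type} [Finite n] (c : n → σ → Ω) (hc : Function.Injective c)
    (h01 : ∀ i l, c i l = 0 ∨ c i l = 1) (k : ℕ) (q : n → MvPolynomial σ Ω) :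
    ∃ g : MvPolynomial σ Ω, g.totalDegree ≤ 2 * k + Fintype.card σ ∧
      ∀ i, g - q i ∈ mx (c i) ^ (k + 1) := by
  obtain ⟨P, hP⟩ := Ideal.exists_forall_sub_mem_ideal (I := fun i => mx (c i) ^ (k + 1))
    (fun i i' h => (coprime_mx (hc.ne h)).pow) q
  obtain ⟨Q, h1, h2⟩ := cube_red P k
  refine ⟨Q, h1, fun i => ?_⟩
  have hle : cubeI σ Ω ≤ mx (c i) := by
    rw [cubeI, Ideal.span_le]
    rintro _ ⟨l, rfl⟩
    show _ ∈ mx (c i)
    rw [mem_mx_iff]
    rcases h01 i l with h | h <;> simp [h]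
  have := sub_mem (hP i) (Ideal.pow_right_mono hle _ h2)
  rwa [sub_sub_sub_cancel_left] at this

/-- Taylor expansion at a point with coordinates in an algebra. -/
noncomputable def sh {R : Type} [CommRing R] [Algebra Ω R] (y : σ → R) :
    MvPolynomial σ Ω →ₐ[Ω] MvPolynomial σ R :=
  aeval fun l => X l + C (y l)

omit [Fintype σ] in
lemma map_sh {R R' : Type} [CommRing R] [Algebra Ω R] [CommRing R'] [Algebra Ω R']
    (φ : R →ₐ[Ω] R') (y : σ → R) (P : MvPolynomial σ Ω) :
    map (φ : R →+* R') (sh y P) = sh (fun l => φ (y l)) P := by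
  induction P using MvPolynomial.induction_on with
  | C a => simp [sh, MvPolynomial.algebraMap_apply]
  | add p q hp hq => simp only [map_add, hp, hq]
  | mul_X p v hp => simp only [map_mul, hp]; simp [sh]

omit [Fintype σ] in
lemma sh_neg_sh (y : σ → Ω) (P : MvPolynomial σ Ω) : sh y (sh (-y) P) = P := by
  induction P using MvPolynomial.induction_on with
  | C a => simp [sh]
  | add p q hp hq => simp only [map_add, hp, hq]
  | mul_X p v hp => simp only [map_mul, hp]; simp [sh]

omit [Fintype σ] in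
lemma mem_pow_iff_sh (y : σ → Ω) (s : ℕ) (P : MvPolynomial σ Ω) :
    P ∈ mx y ^ s ↔ ∀ β : σ →₀ ℕ, β.degree < s → (sh y P).coeff β = 0 := by
  rw [← mem_pow_idealOfVars_iff', ← mx_zero_eq]
  constructor
  · intro h
    refine map_mem_pow (sh y : MvPolynomial σ Ω →ₐ[Ω] _).toRingHom y _ (fun v => ?_) h
    simpa [sh] using X_sub_mem (0 : σ → Ω) v
  · intro h
    have := map_mem_pow (sh (-y) : MvPolynomial σ Ω →ₐ[Ω] _).toRingHom 0 (mx y)
      (fun v => by simpa [sh, sub_eq_add_neg] using X_sub_mem y v) h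
    have e := sh_neg_sh (-y) P
    rw [neg_neg] at e
    rw [← e]; exact this

/-- Interpolation of `k`-jets at the points `y` in degree `2 k + r`. -/
def Itp {n : Type} (y : n × σ → Ω) (k : ℕ) : Prop :=
  ∀ q : n → MvPolynomial σ Ω, ∃ g : MvPolynomial σ Ω, g.totalDegree ≤ 2 * k + Fintype.card σ ∧
    ∀ i, g - q i ∈ mx (fun l => y (i, l)) ^ (k + 1)

lemma generic_one {n : Type} [Fintype n] (hn : Fintype.card n ≤ 2 ^ Fintype.card σ) (k : ℕ) :
    ∃ Θ : MvPolynomial (n × σ) Ω, Θ ≠ 0 ∧ ∀ y, eval y Θ ≠ 0 → Itp y k := by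
  classical
  obtain ⟨e⟩ : Nonempty (n ↪ (σ → Bool)) :=
    Function.Embedding.nonempty_of_card_le (by simpa using hn)
  let c : n → σ → Ω := fun i l => if e i l then 1 else 0
  have hc : Function.Injective c := by
    intro i i' h
    apply e.injective
    funext l
    have := congrFun h l
    simp only [c] at this
    cases h1 : e i l <;> cases h2 : e i' l <;> simp_all
  have h01 : ∀ i l, c i l = 0 ∨ c i l = 1 := by
    intro i l; simp only [c]; split_ifs <;> simp
  let J := {β : σ →₀ ℕ // β.degree ≤ k}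
  have : Finite J := (Finsupp.finite_of_degree_le k).to_subtype
  have : Fintype J := Fintype.ofFinite J
  choose g hg1 hg2 using fun p : n × J => cube_interp c hc h01 k
    fun i => if i = p.1 then sh (-c i) (monomial p.2.1 (1 : Ω)) else 0
  let B : ∀ (R : Type) [CommRing R] [Algebra Ω R], (n × σ → R) → Matrix (n × J) (n × J) R :=
    fun R _ _ y => Matrix.of fun p p' => (sh (fun l => y (p'.1, l)) (g p)).coeff p'.2.1
  have hB : ∀ y : n × σ → Ω, eval y (B _ X).det = (B Ω y).det := by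
    intro y
    rw [RingHom.map_det]
    congr 1
    refine Matrix.ext fun p p' => ?_
    have := map_sh (aeval y : MvPolynomial (n × σ) Ω →ₐ[Ω] Ω) (fun l => X (p'.1, l)) (g p)
    simp only [aeval_X] at this
    simp only [B, RingHom.mapMatrix_apply, Matrix.map_apply, Matrix.of_apply]
    rw [← this, coeff_map]; rfl
  refine ⟨(B _ X).det, fun h0 => ?_, fun y hy q => ?_⟩
  · have h1 := hB fun p => c p.1 p.2
    have h2 : B Ω (fun p => c p.1 p.2) = 1 := by
      refine Matrix.ext fun p p' => ?_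
      have h3 := (mem_pow_iff_sh _ _ _).mp (hg2 p p'.1) p'.2.1 (Nat.lt_succ_of_le p'.2.2)
      rw [map_sub, coeff_sub, sub_eq_zero] at h3
      simp only [B, Matrix.of_apply]
      refine h3.trans ?_
      rw [Matrix.one_apply]
      by_cases h : p'.1 = p.1
      · rw [if_pos h, sh_neg_sh, coeff_monomial]
        by_cases h' : p.2 = p'.2
        · rw [if_pos (by rw [h']), if_pos (Prod.ext h.symm h')]
        · rw [if_neg (fun e => h' (Subtype.ext e)), if_neg (fun e => h' (by rw [e]))]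
      · rw [if_neg h, if_neg (fun e => h (by rw [e]))]; simp
    rw [h0, h2] at h1
    simp at h1
  · rw [hB] at hy
    let t : n × J → Ω := fun p => (sh (fun l => y (p.1, l)) (q p.1)).coeff p.2.1
    let a := Matrix.vecMul t (B Ω y)⁻¹
    have ha : Matrix.vecMul a (B Ω y) = t := by
      rw [Matrix.vecMul_vecMul, Matrix.nonsing_inv_mul _ (isUnit_iff_ne_zero.mpr hy),
        Matrix.vecMul_one]
    refine ⟨∑ p, a p • g p, ?_, fun i => ?_⟩
    · exact (totalDegree_finsetSum _ _).trans
        (Finset.sup_le fun p _ => (totalDegree_smul_le _ _).trans (hg1 p))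
    · rw [mem_pow_iff_sh]
      intro β hβ
      have := congrFun ha (i, ⟨β, Nat.le_of_lt_succ hβ⟩)
      rw [map_sub, coeff_sub, sub_eq_zero, map_sum, coeff_sum]
      simp only [map_smul, coeff_smul, smul_eq_mul]
      exact this

theorem generic {n : Type} [Fintype n] (hn : Fintype.card n ≤ 2 ^ Fintype.card σ) (j : ℕ) :
    ∃ Θ : MvPolynomial (n × σ) Ω, Θ ≠ 0 ∧ ∀ y, eval y Θ ≠ 0 → ∀ k ≤ j, Itp y k := by
  choose Θ h1 h2 using fun k => generic_one (Ω := Ω) hn k
  refine ⟨∏ k ∈ Finset.range (j + 1), Θ k, Finset.prod_ne_zero_iff.mpr fun k _ => h1 k,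
    fun y hy k hk => h2 k y ?_⟩
  rw [map_prod] at hy
  exact Finset.prod_ne_zero_iff.mp hy k (Finset.mem_range.mpr (by omega))

end Pool.Agent.Lib.MP_af4c59_nt.H11
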