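import Pool.Agent.Lib.MP_af4c59_nt.H11Jet

/-!
Derivations dual to a frame of polynomials, and the lower bound for the rank of jets.
-/

namespace Pool.Agent.Lib.MP_af4c59_nt.H11

open MvPolynomial

variable {ι R : Type} [CommRing R] [Fintype ι] [DecidableEq ι]

/-- The derivation dual to the `w`-th member of the frame `Φ`. -/
noncomputable def D (Φ : ι → MvPolynomial ι R) (w : ι) :
    Derivation R (MvPolynomial ι R) (MvPolynomial ι R) :=
  ∑ v, (jac Φ).adjugate v w • pderiv v

lemma D_apply (Φ : ι → MvPolynomial ι R) (w : ι) (P : MvPolynomial ι R) :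
    D Φ w P = ∑ v, (jac Φ).adjugate v w * pderiv v P := by
  have : ∀ s : Finset ι, (∑ v ∈ s, (jac Φ).adjugate v w • pderiv v :
      Derivation R (MvPolynomial ι R) (MvPolynomial ι R)) P
      = ∑ v ∈ s, (jac Φ).adjugate v w * pderiv v P := by
    intro s
    induction s using Finset.induction_on with
    | empty => simp
    | insert a s ha ih => rw [Finset.sum_insert ha, Finset.sum_insert ha, Derivation.add_apply, ih]; simp
  exact this _

omit [Fintype ι] in
lemma jac_update (Φ : ι → MvPolynomial ι R) (w : ι) (P : MvPolynomial ι R) :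
    jac (Function.update Φ w P) = (jac Φ).updateRow w fun v => pderiv v P := by
  ext u v
  by_cases h : u = w
  · subst h; simp [jac]
  · simp [jac, h, Matrix.updateRow_ne]

lemma D_eq_det (Φ : ι → MvPolynomial ι R) (w : ι) (P : MvPolynomial ι R) :
    D Φ w P = (jac (Function.update Φ w P)).det := by
  rw [D_apply, jac_update, ← Matrix.cramer_transpose_apply, Matrix.cramer_eq_adjugate_mulVec,
    ← Matrix.adjugate_transpose]
  simp [Matrix.mulVec, dotProduct]

lemma D_frame (Φ : ι → MvPolynomial ι R) (w u : ι) :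
    D Φ w (Φ u) = if u = w then (jac Φ).det else 0 := by
  rw [D_apply]
  have := congrFun (congrFun (Matrix.mul_adjugate (jac Φ)) u) w
  rw [Matrix.mul_apply] at this
  simp only [Matrix.smul_apply, Matrix.one_apply, smul_eq_mul, mul_ite, mul_one, mul_zero] at this
  rw [← this]
  exact Finset.sum_congr rfl fun v _ => by rw [mul_comm]; rfl

lemma D_C (Φ : ι → MvPolynomial ι R) (w : ι) (a : R) : D Φ w (C a) = 0 :=
  (D Φ w).map_algebraMap a

lemma D_mem_pow (Φ : ι → MvPolynomial ι R) (w : ι) (x : ι → R) (s : ℕ) (P : MvPolynomial ι R)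
    (hP : P ∈ mx x ^ (s + 1)) : D Φ w P ∈ mx x ^ s := by
  rw [D_apply]
  exact Ideal.sum_mem _ fun v _ => Ideal.mul_mem_left _ _ (pderiv_mem_pow x v s P hP)

lemma map_jac {S : Type} [CommRing S] (φ : R →+* S) (Φ : ι → MvPolynomial ι R) :
    map φ (jac Φ).det = (jac fun u => map φ (Φ u)).det := by
  rw [RingHom.map_det]
  congr 1
  ext u v : 2
  simp [jac, pderiv_map]

lemma map_D {S : Type} [CommRing S] (φ : R →+* S) (Φ : ι → MvPolynomial ι R) (w : ι)
    (P : MvPolynomial ι R) : map φ (D Φ w P) = D (fun u => map φ (Φ u)) w (map φ P) := by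
  rw [D_eq_det, D_eq_det, map_jac]
  congr 2
  funext u
  by_cases h : u = w
  · subst h; simp
  · simp [h]

omit [Fintype ι] [DecidableEq ι] in
lemma der_aeval {σ : Type} [Fintype σ] [DecidableEq σ]
    (E : Derivation R (MvPolynomial ι R) (MvPolynomial ι R)) (f : σ → MvPolynomial ι R)
    (P : MvPolynomial σ R) : E (aeval f P) = ∑ u, aeval f (pderiv u P) * E (f u) := by
  induction P using MvPolynomial.induction_on with
  | C a => simp [algebraMap_eq]
  | add p q hp hq => simp only [map_add, hp, hq, add_mul, Finset.sum_add_distrib]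
  | mul_X p w hp =>
    rw [map_mul, aeval_X, Derivation.leibniz, hp]
    have : ∀ u, aeval f (pderiv u (p * X w)) * E (f u)
        = f w * (aeval f (pderiv u p) * E (f u))
          + (if u = w then aeval f p * E (f w) else 0) := by
      intro u
      rw [Derivation.leibniz, pderiv_X]
      by_cases h : u = w
      · subst h; simp; ring
      · have h' : w ≠ u := fun e => h e.symm
        simp [h, h']; ring
    simp only [this, Finset.sum_add_distrib, Finset.sum_ite_eq', Finset.mem_univ, if_true,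
      ← Finset.mul_sum, smul_eq_mul]
    ring

/-- Iterated derivations along a word, the first letter being applied first. -/
noncomputable def Dl (Φ : ι → MvPolynomial ι R) :
    List ι → (MvPolynomial ι R →ₗ[R] MvPolynomial ι R)
  | [] => LinearMap.id
  | w :: l => (Dl Φ l).comp (D Φ w).toLinearMap

@[simp] lemma Dl_nil (Φ : ι → MvPolynomial ι R) (P : MvPolynomial ι R) : Dl Φ [] P = P := rfl

@[simp] lemma Dl_cons (Φ : ι → MvPolynomial ι R) (w : ι) (l : List ι) (P : MvPolynomial ι R) :
    Dl Φ (w :: l) P = Dl Φ l (D Φ w P) := rfl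

lemma map_Dl {S : Type} [CommRing S] (φ : R →+* S) (Φ : ι → MvPolynomial ι R) :
    ∀ (l : List ι) (P : MvPolynomial ι R),
      map φ (Dl Φ l P) = Dl (fun u => map φ (Φ u)) l (map φ P)
  | [], _ => rfl
  | w :: l, P => by rw [Dl_cons, Dl_cons, map_Dl φ Φ l, map_D]

lemma exists_first (Φ : ι → MvPolynomial ι R) (x : ι → R) (p : ι → Prop) :
    ∀ (l : List ι) (P : MvPolynomial ι R), (∀ w ∈ l, p w) → eval x P = 0 →
      eval x (Dl Φ l P) ≠ 0 → ∃ (l₁ : List ι) (w : ι), l₁.length < l.length ∧ p w ∧
        eval x (Dl Φ l₁ P) = 0 ∧ eval x (D Φ w (Dl Φ l₁ P)) ≠ 0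
  | [], P, _, h0, h1 => absurd h0 h1
  | w :: l, P, hp, h0, h1 => by
    by_cases h : eval x (D Φ w P) = 0
    · obtain ⟨l₁, w', hl, hw, h2, h3⟩ :=
        exists_first Φ x p l (D Φ w P) (fun w' hw' => hp w' (List.mem_cons_of_mem _ hw')) h h1
      exact ⟨w :: l₁, w', by simpa using hl, hw, h2, h3⟩
    · exact ⟨[], w, by simp, hp w List.mem_cons_self, h0, h⟩

/-- The ideal of the equations of the frame at the point `x`. -/
noncomputable def eqI (Φ : ι → MvPolynomial ι R) (K : Finset ι) (x : ι → R) :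
    Ideal (MvPolynomial ι R) :=
  Ideal.span ((fun u => Φ u - C (eval x (Φ u))) '' (K : Set ι))

lemma D_mem_eqI (Φ : ι → MvPolynomial ι R) (K : Finset ι) (x : ι → R) {w : ι} (hw : w ∉ K)
    {P : MvPolynomial ι R} (hP : P ∈ eqI Φ K x) : D Φ w P ∈ eqI Φ K x := by
  refine Submodule.span_induction (p := fun P _ => D Φ w P ∈ eqI Φ K x) ?_ ?_ ?_ ?_ hP
  · rintro _ ⟨u, hu, rfl⟩
    have : u ≠ w := fun e => hw (e ▸ hu)
    simp [map_sub, D_frame, this]
  · simp
  · intro a b _ _ ha hb; rw [map_add]; exact add_mem ha hb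
  · intro a b hb ih
    rw [smul_eq_mul, Derivation.leibniz]
    exact add_mem (Ideal.mul_mem_left _ _ ih) (Ideal.mul_mem_right _ _ hb)

omit [Fintype ι] [DecidableEq ι] in
lemma eqI_le (Φ : ι → MvPolynomial ι R) (K : Finset ι) (x : ι → R) : eqI Φ K x ≤ mx x := by
  rw [eqI, Ideal.span_le]
  rintro _ ⟨u, _, rfl⟩
  exact sub_C_mem x _

lemma eval_Dl_eq_zero (Φ : ι → MvPolynomial ι R) (K : Finset ι) (x : ι → R) :
    ∀ (l : List ι) (s : ℕ) (P : MvPolynomial ι R), (∀ w ∈ l, w ∉ K) → l.length < s →
      P ∈ eqI Φ K x ⊔ mx x ^ s → eval x (Dl Φ l P) = 0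
  | [], s, P, _, hs, hP => by
    have : eqI Φ K x ⊔ mx x ^ s ≤ mx x :=
      sup_le (eqI_le Φ K x) (Ideal.pow_le_self (by simp at hs; omega))
    exact eval_eq_zero_of_mem x (this hP)
  | w :: l, s, P, hl, hs, hP => by
    obtain ⟨s, rfl⟩ : ∃ t, s = t + 1 := ⟨s - 1, by simp at hs; omega⟩
    rw [Dl_cons]
    refine eval_Dl_eq_zero Φ K x l s _ (fun w' hw' => hl w' (List.mem_cons_of_mem _ hw'))
      (by simpa using hs) ?_
    obtain ⟨a, ha, b, hb, rfl⟩ := Submodule.mem_sup.mp hP
    rw [map_add]
    exact add_mem (Ideal.mem_sup_left (D_mem_eqI Φ K x (hl w List.mem_cons_self) ha))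
      (Ideal.mem_sup_right (D_mem_pow Φ w x s b hb))

section field

variable {Ω : Type} [Field Ω] [CharZero Ω]

lemma exists_word_hom (Φ : ι → MvPolynomial ι Ω) (K : Finset ι) (x : ι → Ω)
    (hdet : eval x (jac Φ).det ≠ 0) :
    ∀ (s : ℕ) (P : MvPolynomial {u // u ∉ K} Ω) (Q : MvPolynomial ι Ω), P.IsHomogeneous s →
      P ≠ 0 → Q - aeval (fun u : {u // u ∉ K} => Φ u - C (eval x (Φ u))) P ∈ mx x ^ (s + 1) →
      ∃ l : List ι, l.length = s ∧ (∀ w ∈ l, w ∉ K) ∧ eval x (Dl Φ l Q) ≠ 0 := by
  intro s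
  set f : {u // u ∉ K} → MvPolynomial ι Ω := fun u => Φ u - C (eval x (Φ u)) with hf
  have hfm : ∀ u, f u ∈ mx x := fun u => sub_C_mem x _
  induction s with
  | zero =>
    intro P Q hP hP0 hQ
    refine ⟨[], rfl, by simp, ?_⟩
    have h1 : P = C (P.coeff 0) := by
      rw [← totalDegree_eq_zero_iff_eq_C]; exact Nat.le_zero.mp hP.totalDegree_le
    have h2 := eval_eq_zero_of_mem x (by simpa using hQ : Q - aeval f P ∈ mx x)
    rw [h1] at h2
    simp only [aeval_C, algebraMap_eq, map_sub, eval_C] at h2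
    intro h3
    rw [Dl_nil] at h3
    rw [h3, zero_sub, neg_eq_zero] at h2
    apply hP0; rw [h1, h2, map_zero]
  | succ s ih =>
    intro P Q hP hP0 hQ
    obtain ⟨u, hu⟩ : ∃ u, pderiv u P ≠ 0 := by
      by_contra h
      push Not at h
      have h1 := hP.sum_X_mul_pderiv
      simp only [h, mul_zero, Finset.sum_const_zero] at h1
      have h2 : ((s + 1 : ℕ) : Ω) • P = 0 := by rw [Nat.cast_smul_eq_nsmul]; exact h1.symm
      rcases smul_eq_zero.mp h2 with h3 | h3
      · exact absurd h3 (by exact_mod_cast Nat.succ_ne_zero s)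
      · exact hP0 h3
    have hhom : (pderiv u P).IsHomogeneous s := by simpa using hP.pderiv (i := u)
    have hD : D Φ u (aeval f P) = aeval f (pderiv u P) * (jac Φ).det := by
      rw [der_aeval, Finset.sum_eq_single u]
      · simp [hf, D_frame]
      · intro u' _ hu'
        have : (u' : ι) ≠ u := fun e => hu' (Subtype.ext e)
        simp [hf, D_frame, this]
      · simp
    obtain ⟨l, hl1, hl2, hl3⟩ := ih (C (eval x (jac Φ).det) * pderiv u P) (D Φ u Q)
      (by simpa using (isHomogeneous_C _ _).mul hhom)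
      (mul_ne_zero (by simpa using hdet) hu) (by
        have h1 := D_mem_pow Φ u x (s + 1) _ hQ
        rw [map_sub, hD] at h1
        have h2 : aeval f (pderiv u P) * ((jac Φ).det - C (eval x (jac Φ).det))
            ∈ mx x ^ (s + 1) := by
          rw [pow_succ]
          exact Ideal.mul_mem_mul (aeval_mem_pow_of_homogeneous f _ hfm hhom) (sub_C_mem x _)
        have h3 := add_mem h1 h2
        convert h3 using 1
        simp only [map_mul, aeval_C, algebraMap_eq]
        ring)
    exact ⟨u :: l, by simp [hl1], by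
      intro w hw
      rcases List.mem_cons.mp hw with rfl | hw
      · exact u.2
      · exact hl2 w hw, hl3⟩

lemma exists_word_of_ne (Φ : ι → MvPolynomial ι Ω) (K : Finset ι) (x : ι → Ω)
    (hdet : eval x (jac Φ).det ≠ 0) (P : MvPolynomial {u // u ∉ K} Ω) (hP : P ≠ 0) :
    ∃ l : List ι, l.length ≤ P.totalDegree ∧ (∀ w ∈ l, w ∉ K) ∧
      eval x (Dl Φ l (aeval (fun u : {u // u ∉ K} => Φ u - C (eval x (Φ u))) P)) ≠ 0 := by
  classical
  have hex : ∃ s, homogeneousComponent s P ≠ 0 := by
    by_contra h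
    push Not at h
    apply hP
    rw [← sum_homogeneousComponent P]
    simp [h]
  set s := Nat.find hex with hs
  have hs1 : homogeneousComponent s P ≠ 0 := Nat.find_spec hex
  have hs2 : s ≤ P.totalDegree := by
    by_contra h
    exact hs1 (homogeneousComponent_eq_zero _ _ (by omega))
  obtain ⟨l, hl1, hl2, hl3⟩ := exists_word_hom Φ K x hdet s (homogeneousComponent s P)
    (aeval (fun u : {u // u ∉ K} => Φ u - C (eval x (Φ u))) P)
    (homogeneousComponent_isHomogeneous s P) hs1 (by
      rw [← map_sub]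
      refine aeval_mem_pow _ _ (fun u => sub_C_mem x _) fun α hα => ?_
      rw [coeff_sub, coeff_homogeneousComponent]
      split_ifs with h
      · simp
      · have h1 : α.degree < s := by omega
        have h2 : homogeneousComponent α.degree P = 0 := by
          by_contra h3
          exact Nat.find_min hex h1 h3
        have h3 := congrArg (coeff α) h2
        rw [coeff_homogeneousComponent] at h3
        simpa using h3)
  exact ⟨l, by omega, hl2, hl3⟩

/-- If jets of order `j` are spanned, modulo the equations of the frame, by a family `F` and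
fewer than `(b+1)^m` further polynomials, some tangential derivative of some `F a` is nonzero. -/
theorem exists_word (Φ : ι → MvPolynomial ι Ω) (K : Finset ι) (x : ι → Ω)
    (hdet : eval x (jac Φ).det ≠ 0) (j b ρ : ℕ) (hb : b * Kᶜ.card ≤ j)
    (hρ : ρ < (b + 1) ^ Kᶜ.card) {A : Type} (F : A → MvPolynomial ι Ω)
    (g : Fin ρ → MvPolynomial ι Ω)
    (hspan : ∀ P, ∃ Q ∈ Submodule.span Ω (Set.range F) ⊔ Submodule.span Ω (Set.range g),
      P - Q ∈ eqI Φ K x ⊔ mx x ^ (j + 1)) :
    ∃ (a : A) (l : List ι), l.length ≤ j ∧ (∀ w ∈ l, w ∉ K) ∧ eval x (Dl Φ l (F a)) ≠ 0 := by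
  classical
  by_contra hcon
  push Not at hcon
  let W := {l : List ι // l.length ≤ j ∧ ∀ w ∈ l, w ∉ K}
  let Λ : MvPolynomial ι Ω →ₗ[Ω] (W → Ω) :=
    LinearMap.pi fun l => (aeval x : MvPolynomial ι Ω →ₐ[Ω] Ω).toLinearMap.comp (Dl Φ l.1)
  have hΛ : ∀ P l, Λ P l = eval x (Dl Φ l.1 P) := by
    intro P l
    simp [Λ]
  have hmem : ∀ P, Λ P ∈ Submodule.span Ω (Set.range fun i => Λ (g i)) := by
    intro P
    obtain ⟨Q, hQ, hPQ⟩ := hspan P
    have h1 : Λ (P - Q) = 0 := by
      funext l
      rw [hΛ]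
      exact eval_Dl_eq_zero Φ K x l.1 (j + 1) _ l.2.2 (by have := l.2.1; omega) hPQ
    rw [map_sub, sub_eq_zero] at h1
    rw [h1]
    obtain ⟨a, ha, b, hb, rfl⟩ := Submodule.mem_sup.mp hQ
    have h2 : Λ a = 0 := by
      have : Submodule.span Ω (Set.range F) ≤ LinearMap.ker Λ := by
        rw [Submodule.span_le]
        rintro _ ⟨i, rfl⟩
        show Λ (F i) = 0
        funext l
        rw [hΛ]
        exact hcon i l.1 l.2.1 l.2.2
      exact this ha
    rw [map_add, h2, zero_add]
    have h3 := Submodule.mem_map_of_mem (f := Λ) hb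
    rwa [Submodule.map_span, ← Set.range_comp] at h3
  let σ := {u // u ∉ K}
  let f : σ → MvPolynomial ι Ω := fun u => Φ u - C (eval x (Φ u))
  let e : (σ → Fin (b + 1)) → (σ →₀ ℕ) := fun β => Finsupp.equivFunOnFinite.symm fun u => β u
  have he : Function.Injective e := by
    intro β β' h
    funext u
    have := congrArg (fun t : σ →₀ ℕ => t u) h
    simpa [e, Fin.ext_iff] using this
  have hcard : Fintype.card σ = Kᶜ.card := by
    simp [σ, Fintype.card_subtype_compl, Finset.card_compl]
  have hli : LinearIndependent Ω fun β => Λ (aeval f (monomial (e β) (1 : Ω))) := by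
    rw [Fintype.linearIndependent_iff]
    intro c hc
    set P : MvPolynomial σ Ω := ∑ β, monomial (e β) (c β) with hPdef
    have hP0 : Λ (aeval f P) = 0 := by
      rw [← hc, hPdef, map_sum, map_sum]
      refine Finset.sum_congr rfl fun β _ => ?_
      rw [← map_smul, ← map_smul, smul_monomial, smul_eq_mul, mul_one]
    have hP : P = 0 := by
      by_contra hP
      obtain ⟨l, hl1, hl2, hl3⟩ := exists_word_of_ne Φ K x hdet P hP
      have hdeg : P.totalDegree ≤ j := by
        refine (totalDegree_finsetSum _ _).trans (Finset.sup_le fun β _ => ?_)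
        refine (totalDegree_monomial_le _ _).trans (le_trans ?_ hb)
        rw [Finsupp.sum_fintype _ _ (by simp), ← hcard, mul_comm, ← smul_eq_mul,
          ← Finset.card_univ]
        refine Finset.sum_le_card_nsmul _ _ _ fun u _ => ?_
        have := (β u).2
        simp only [e, Finsupp.equivFunOnFinite_symm_apply_apply, id]
        omega
      have := congrFun hP0 ⟨l, hl1.trans hdeg, hl2⟩
      rw [hΛ] at this
      exact hl3 this
    intro β
    have := congrArg (coeff (e β)) hP
    rw [hPdef, coeff_sum, Finset.sum_eq_single β] at this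
    · simpa using this
    · intro β' _ hβ
      rw [coeff_monomial, if_neg (fun h => hβ (he h))]
    · simp
  have h1 := linearIndependent_le_span_aux' _ hli (Set.range fun i => Λ (g i))
    (by rintro _ ⟨β, rfl⟩; exact hmem _)
  have h2 : Fintype.card (Set.range fun i => Λ (g i)) ≤ ρ := by
    simpa using Fintype.card_range_le fun i => Λ (g i)
  rw [Fintype.card_fun, Fintype.card_fin, hcard] at h1
  omega

end field

end Pool.Agent.Lib.MP_af4c59_nt.H11
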