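import Pool.Agent.Lib.MP_af4c59_nt.H11Jet

/-!
Divisibility of interpolation determinants for points in one residue disc.
-/

namespace Pool.Agent.Lib.MP_af4c59_nt.H11

open MvPolynomial

lemma det_mem_pow {O s A : Type} [CommRing O] [Fintype s] [DecidableEq s] (T : Finset A)
    (c : s → A → O) (b : A → s → O) (E : s → s → O) (I : Ideal O) (hE : ∀ i j, E i j ∈ I) :
    (Matrix.of fun i j => ∑ a ∈ T, c i a * b a j + E i j).det ∈ I ^ (Fintype.card s - T.card) := by
  classical
  let co : s → Option T → O := fun i o => o.elim 1 fun a => c i a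
  let w : s → Option T → (s → O) := fun i o => o.elim (E i) fun a => b a
  have h1 : (Matrix.of fun i j => ∑ a ∈ T, c i a * b a j + E i j)
      = fun i => ∑ o : Option T, co i o • w i o := by
    funext i j
    simp only [Matrix.of_apply, Fintype.sum_option, Finset.sum_apply, co, w,
      Option.elim, Pi.smul_apply, smul_eq_mul, one_mul]
    rw [add_comm, ← Finset.sum_coe_sort T]
  have h2 : (Matrix.of fun i j => ∑ a ∈ T, c i a * b a j + E i j).det
      = ∑ f : s → Option T, (∏ i, co i (f i)) • Matrix.det (fun i => w i (f i)) := by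
    rw [h1]
    have := (Matrix.detRowAlternating (n := s) (R := O)).toMultilinearMap.map_sum
      (fun i (o : Option T) => co i o • w i o)
    refine this.trans (Finset.sum_congr rfl fun f _ => ?_)
    exact (Matrix.detRowAlternating (n := s) (R := O)).toMultilinearMap.map_smul_univ
      (fun i => co i (f i)) (fun i => w i (f i))
  rw [h2]
  refine Ideal.sum_mem _ fun f _ => ?_
  rw [smul_eq_mul]
  refine Ideal.mul_mem_left _ _ ?_
  by_cases hf : ∃ i i', i ≠ i' ∧ f i ≠ none ∧ f i = f i'
  · obtain ⟨i, i', hii, h3, h4⟩ := hf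
    obtain ⟨a, ha⟩ := Option.ne_none_iff_exists'.mp h3
    rw [Matrix.det_zero_of_row_eq hii]
    · exact zero_mem _
    · show w i (f i) = w i' (f i')
      rw [← h4, ha]; rfl
  · push Not at hf
    set U := Finset.univ.filter fun i => f i = none with hU
    have hcard : Fintype.card s - T.card ≤ U.card := by
      have h3 : (Finset.univ.filter fun i => ¬ f i = none).card
          ≤ (Finset.univ.image (some : T → Option T)).card := by
        refine Finset.card_le_card_of_injOn f ?_ ?_
        · intro i hi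
          have hi' : f i ≠ none := by simpa using hi
          obtain ⟨a, ha⟩ := Option.ne_none_iff_exists'.mp hi'
          simp [ha]
        · intro i hi i' _ h
          by_contra hne
          exact hf i i' hne (by simpa using hi) h
      have h4 := Finset.card_image_le (s := (Finset.univ : Finset T)) (f := (some : T → Option T))
      have h5 := Finset.card_filter_add_card_filter_not (s := Finset.univ) fun i => f i = none
      simp only [Finset.card_univ, Fintype.card_coe] at h4 h5
      have h6 : (Finset.univ.filter fun i => f i = none).card = U.card := by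
        congr 1
      omega
    refine Ideal.pow_le_pow_right hcard ?_
    rw [← Matrix.det_transpose, Matrix.det_apply']
    refine Ideal.sum_mem _ fun σ _ => Ideal.mul_mem_left _ _ ?_
    rw [← Finset.prod_filter_mul_prod_filter_not Finset.univ fun i => f i = none]
    refine Ideal.mul_mem_right _ _ ?_
    rw [← Finset.prod_const]
    refine Ideal.prod_mem_prod fun i hi => ?_
    have hi' : f i = none := (Finset.mem_filter.mp hi).2
    show w i (f i) (σ i) ∈ I
    rw [hi']; exact hE _ _

variable {ι O : Type} [Fintype ι] [DecidableEq ι] [CommRing O] [IsLocalRing O]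

lemma sub_mem_of_frame (Φ : ι → MvPolynomial ι O) (x0 x : ι → O)
    (h : IsUnit (eval x0 (jac Φ).det)) (hx : ∀ v, x v - x0 v ∈ IsLocalRing.maximalIdeal O)
    (q : Ideal O) (hq : ∀ u, eval x (Φ u) - eval x0 (Φ u) ∈ q) : ∀ v, x v - x0 v ∈ q := by
  set I := (mx x0).map (eval x) with hI
  have hfg : I.FG := Ideal.FG.map (Submodule.fg_span (Set.finite_range _)) _
  have hmax : I ≤ (⊥ : Ideal O).jacobson := by
    rw [IsLocalRing.jacobson_eq_maximalIdeal ⊥ bot_ne_top]
    exact map_mx_le _ _ _ (by simpa using hx)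
  have hle : I ≤ q ⊔ I • I := by
    have h1 := Ideal.map_mono (f := eval x) (gen_of_unit x0 Φ h)
    rw [Ideal.map_sup, Ideal.map_pow, Ideal.map_span] at h1
    refine h1.trans (sup_le_sup ?_ ?_)
    · rw [Ideal.span_le]
      rintro _ ⟨_, ⟨u, rfl⟩, rfl⟩
      simpa using hq u
    · rw [pow_two, smul_eq_mul]
  have := Submodule.le_of_le_smul_of_le_jacobson_bot hfg hmax hle
  intro v
  refine this ?_
  have h2 := Ideal.mem_map_of_mem (eval x) (X_sub_mem x0 v)
  simpa using h2

theorem det_mem {s : Type} [Fintype s] [DecidableEq s] (Φ : ι → MvPolynomial ι O) (K : Finset ι)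
    (x0 : ι → O) (x : s → ι → O) (F : s → MvPolynomial ι O) (q : Ideal O) (J : ℕ)
    (h : IsUnit (eval x0 (jac Φ).det))
    (hx : ∀ j v, x j v - x0 v ∈ IsLocalRing.maximalIdeal O)
    (hq : ∀ j u, eval (x j) (Φ u) - eval x0 (Φ u) ∈ q)
    (hK : ∀ j, ∀ u ∈ K, eval (x j) (Φ u) = eval x0 (Φ u))
    (T : Finset (ι →₀ ℕ)) (hT : ∀ α : ι →₀ ℕ, α.degree < J → (∀ u ∈ K, α u = 0) → α ∈ T) :
    (Matrix.of fun i j => eval (x j) (F i)).det ∈ (q ^ J) ^ (Fintype.card s - T.card) := by
  classical
  set f : ι → MvPolynomial ι O := fun u => Φ u - C (eval x0 (Φ u)) with hf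
  choose P hP1 hP2 using fun i => approx x0 f (fun u => sub_C_mem x0 _) (gen_of_unit x0 Φ h) (F i) J
  let t : s → ι → O := fun j u => eval (x j) (f u)
  have h1 : (Matrix.of fun i j => eval (x j) (F i)) = Matrix.of fun i j =>
      ∑ α ∈ T, (P i).coeff α * (∏ u ∈ α.support, t j u ^ α u)
        + eval (x j) (F i - aeval f (P i)) := by
    ext i j
    simp only [Matrix.of_apply]
    have h2 : eval (x j) (aeval f (P i)) = eval (t j) (P i) := by
      rw [← coe_aeval_eq_eval, ← coe_aeval_eq_eval]
      show aeval (x j) (aeval f (P i)) = aeval (t j) (P i)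
      rw [← AlgHom.comp_apply, comp_aeval]
      rfl
    rw [map_sub, h2, eval_eq (t j) (P i)]
    have h3 : ∑ α ∈ T, (P i).coeff α * (∏ u ∈ α.support, t j u ^ α u)
        = ∑ α ∈ (P i).support, (P i).coeff α * (∏ u ∈ α.support, t j u ^ α u) := by
      refine Finset.sum_congr_of_eq_on_inter ?_ ?_ (fun _ _ _ => rfl)
      · intro α _ hα
        rw [notMem_support_iff.mp hα, zero_mul]
      · intro α hα hαT
        have h4 : α.degree < J := by
          by_contra h5
          exact mem_support_iff.mp hα (hP1 i α (by omega))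
        have h5 : ∃ u ∈ K, α u ≠ 0 := by
          by_contra h6
          push Not at h6
          exact hαT (hT α h4 h6)
        obtain ⟨u, hu, hu'⟩ := h5
        have h6 : t j u = 0 := by simp [t, hf, hK j u hu]
        rw [Finset.prod_eq_zero (Finsupp.mem_support_iff.mpr hu') (by rw [h6, zero_pow hu']),
          mul_zero]
    rw [h3]; ring
  rw [h1]
  refine det_mem_pow T _ _ _ _ fun i j => ?_
  exact map_mem_pow (eval (x j)) x0 q
    (by simpa using sub_mem_of_frame Φ x0 (x j) h (hx j) q (hq j)) (hP2 i)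

omit [CommRing O] [IsLocalRing O] in
/-- The number of monomials of degree `< l * m` in at most `m` variables. -/
lemma exists_monomials (K : Finset ι) (l m : ℕ) (hl : 1 ≤ l) (hm : Kᶜ.card ≤ m) :
    ∃ T : Finset (ι →₀ ℕ), T.card ≤ (4 * l) ^ m ∧
      ∀ α : ι →₀ ℕ, α.degree < l * m → (∀ u ∈ K, α u = 0) → α ∈ T := by
  classical
  set J := l * m with hJ
  let t : ι → Finset ℕ := fun u => if u ∈ K then {0} else Finset.range J
  let T0 := (Fintype.piFinset t).filter fun β => ∑ u, β u < J
  refine ⟨T0.image Finsupp.equivFunOnFinite.symm, Finset.card_image_le.trans ?_, ?_⟩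
  · set z : ℝ := 1 - 1 / (2 * l) with hz
    have hl' : (1 : ℝ) ≤ l := by exact_mod_cast hl
    have hz1 : (1 : ℝ) / (2 * l) ≤ 1 / 2 := by
      apply one_div_le_one_div_of_le <;> linarith
    have hz2 : (0 : ℝ) < 1 / (2 * l) := by positivity
    have hz0 : 0 ≤ z := by linarith
    have hz3 : z < 1 := by linarith
    have hzl : 1 / 2 ≤ z ^ l := by
      have := one_add_mul_le_pow (a := -(1 / (2 * l) : ℝ)) (by linarith) l
      have h2 : (l : ℝ) * -(1 / (2 * l)) = -(1 / 2) := by field_simp
      rw [h2] at this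
      rw [hz, sub_eq_add_neg]; linarith
    have h1 : (T0.card : ℝ) * z ^ J ≤ ∑ β ∈ T0, ∏ u, z ^ β u := by
      rw [← nsmul_eq_mul]
      refine Finset.card_nsmul_le_sum _ _ _ fun β hβ => ?_
      rw [Finset.prod_pow_eq_pow_sum]
      exact pow_le_pow_of_le_one hz0 hz3.le (Finset.mem_filter.mp hβ).2.le
    have h2 : ∑ β ∈ T0, ∏ u, z ^ β u ≤ ∏ u, ∑ e ∈ t u, z ^ e := by
      rw [Finset.prod_univ_sum]
      exact Finset.sum_le_sum_of_subset_of_nonneg (Finset.filter_subset _ _)
        fun β _ _ => Finset.prod_nonneg fun u _ => pow_nonneg hz0 _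
    have h3 : ∏ u, ∑ e ∈ t u, z ^ e ≤ (2 * l : ℝ) ^ m := by
      rw [← Finset.prod_mul_prod_compl K]
      have h4 : ∏ u ∈ K, ∑ e ∈ t u, z ^ e = 1 :=
        Finset.prod_eq_one fun u hu => by simp [t, hu]
      rw [h4, one_mul]
      calc ∏ u ∈ Kᶜ, ∑ e ∈ t u, z ^ e ≤ ∏ u ∈ Kᶜ, (2 * l : ℝ) := by
            refine Finset.prod_le_prod
              (fun u _ => Finset.sum_nonneg fun e _ => pow_nonneg hz0 _) fun u hu => ?_
            have hu' : u ∉ K := Finset.mem_compl.mp hu
            simp only [t, hu', if_false]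
            have h5 := (summable_geometric_of_lt_one hz0 hz3).sum_le_tsum (Finset.range J)
              fun e _ => pow_nonneg hz0 e
            rw [tsum_geometric_of_lt_one hz0 hz3] at h5
            refine h5.trans (le_of_eq ?_)
            rw [hz]; field_simp; ring
        _ = (2 * l : ℝ) ^ Kᶜ.card := by rw [Finset.prod_const]
        _ ≤ _ := pow_le_pow_right₀ (by linarith) hm
    have h4 : (1 / 2 : ℝ) ^ m ≤ z ^ J := by
      rw [hJ, pow_mul]; exact pow_le_pow_left₀ (by norm_num) hzl m
    have h5 : (T0.card : ℝ) * (1 / 2) ^ m ≤ (2 * l : ℝ) ^ m :=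
      (mul_le_mul_of_nonneg_left h4 (Nat.cast_nonneg _)).trans (h1.trans (h2.trans h3))
    have h6 : (T0.card : ℝ) ≤ (4 * l : ℝ) ^ m := by
      have h7 : (4 * l : ℝ) ^ m * (1 / 2) ^ m = (2 * l : ℝ) ^ m := by
        rw [← mul_pow]; congr 1; ring
      rw [← h7] at h5
      exact le_of_mul_le_mul_right h5 (by positivity)
    exact_mod_cast h6
  · intro α h1 h2
    refine Finset.mem_image.mpr ⟨α, Finset.mem_filter.mpr ⟨?_, ?_⟩, by simp⟩
    · rw [Fintype.mem_piFinset]
      intro u
      by_cases hu : u ∈ K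
      · simp [t, hu, h2 u hu]
      · simp only [t, hu, if_false, Finset.mem_range]
        exact lt_of_le_of_lt (Finsupp.le_degree u α) h1
    · rwa [Finsupp.degree_eq_sum] at h1

end Pool.Agent.Lib.MP_af4c59_nt.H11
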