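import Mathlib

/-!
Every number field is spanned by algebraic integers of small house.
-/

namespace Pool.Agent.Lib.MP_af4c59_nt.H11

open MeasureTheory Metric Set Module
open scoped ENNReal NNReal

lemma card_le_of_sep {E : Type} [NormedAddCommGroup E] [NormedSpace ℝ E] [FiniteDimensional ℝ E]
    (s : Finset E) (R : ℝ) (hR : 0 ≤ R) (hs : ∀ c ∈ s, ‖c‖ ≤ R)
    (h : ∀ c ∈ s, ∀ d ∈ s, c ≠ d → 1 ≤ ‖c - d‖) : (s.card : ℝ) ≤ (2 * R + 1) ^ finrank ℝ E := by
  borelize E
  let μ : Measure E := Measure.addHaar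
  have ρpos : 0 < R + 1 / 2 := by positivity
  set A := ⋃ c ∈ s, ball (c : E) (1 / 2) with hA
  have D : Set.Pairwise (s : Set E) (Function.onFun Disjoint fun c => ball (c : E) (1 / 2)) := by
    rintro c hc d hd hcd
    apply ball_disjoint_ball
    rw [dist_eq_norm]
    have := h c hc d hd hcd
    linarith
  have A_subset : A ⊆ ball (0 : E) (R + 1 / 2) := by
    refine iUnion₂_subset fun x hx => ?_
    apply ball_subset_ball'
    rw [dist_zero_right]
    have := hs x hx
    linarith
  have I : (s.card : ℝ≥0∞) * ENNReal.ofReal ((1 / 2) ^ finrank ℝ E) * μ (ball 0 1) ≤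
      ENNReal.ofReal ((R + 1 / 2) ^ finrank ℝ E) * μ (ball 0 1) :=
    calc
      (s.card : ℝ≥0∞) * ENNReal.ofReal ((1 / 2) ^ finrank ℝ E) * μ (ball 0 1) = μ A := by
        rw [hA, measure_biUnion_finset D fun c _ => measurableSet_ball]
        have I : (0 : ℝ) < 1 / 2 := by norm_num
        simp only [μ.addHaar_ball_of_pos _ I]
        simp only [Finset.sum_const, nsmul_eq_mul, mul_assoc]
      _ ≤ μ (ball (0 : E) (R + 1 / 2)) := measure_mono A_subset
      _ = ENNReal.ofReal ((R + 1 / 2) ^ finrank ℝ E) * μ (ball 0 1) := by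
        simp only [μ.addHaar_ball_of_pos _ ρpos]
  have J : (s.card : ℝ≥0∞) * ENNReal.ofReal ((1 / 2) ^ finrank ℝ E)
      ≤ ENNReal.ofReal ((R + 1 / 2) ^ finrank ℝ E) :=
    (ENNReal.mul_le_mul_iff_left (measure_ball_pos _ _ zero_lt_one).ne' measure_ball_lt_top.ne).1 I
  have K := ENNReal.toReal_le_of_le_ofReal (pow_nonneg ρpos.le _) J
  rw [ENNReal.toReal_mul, ENNReal.toReal_natCast, ENNReal.toReal_ofReal (by positivity)] at K
  have e : (R + 1 / 2) ^ finrank ℝ E = (2 * R + 1) ^ finrank ℝ E * (1 / 2) ^ finrank ℝ E := by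
    rw [← mul_pow]; congr 1; ring
  rw [e] at K
  exact le_of_mul_le_mul_right K (by positivity)

lemma measure_le_of_count {G α : Type} [AddGroup G] [AddAction G α] [MeasurableSpace α]
    [MeasurableConstVAdd G α] {μ : Measure α} [VAddInvariantMeasure G α μ] [Countable G]
    {F : Set α} (hF : IsAddFundamentalDomain G F μ) {B : Set α} (hB : MeasurableSet B) (M : ℝ≥0∞)
    (h : ∀ x, ∀ s : Finset G, (∀ g ∈ s, g +ᵥ x ∈ B) → (s.card : ℝ≥0∞) ≤ M) : μ B ≤ M * μ F := by
  classical
  rw [← lintegral_indicator_one hB, hF.lintegral_eq_tsum'', ← lintegral_tsum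
    (f := fun (g : G) x => B.indicator 1 (g +ᵥ x)) fun g => ((measurable_one.indicator hB).comp (measurable_const_vadd g)).aemeasurable,
    ← setLIntegral_const]
  refine lintegral_mono fun x => ?_
  rw [ENNReal.tsum_eq_iSup_sum]
  refine iSup_le fun s => le_trans (le_of_eq ?_)
    (h x (s.filter fun g => g +ᵥ x ∈ B) fun g hg => (Finset.mem_filter.mp hg).2)
  rw [Finset.card_filter]
  push_cast
  refine Finset.sum_congr rfl fun g _ => ?_
  simp [Set.indicator_apply]

open NumberField NumberField.mixedEmbedding NumberField.InfinitePlace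

variable (L : Type) [Field L] [NumberField L]

/-- Algebraic integers all of whose conjugates have absolute value at most `R`. -/
def short (R : ℝ) : Set L := {a | IsIntegral ℤ a ∧ ∀ φ : L →+* ℂ, ‖φ a‖ ≤ R}

variable {L}

open scoped Classical in
lemma le_norm_mixed (a : L) (φ : L →+* ℂ) : ‖φ a‖ ≤ ‖mixedEmbedding L a‖ := by
  rw [norm_eq_sup'_normAtPlace]
  refine le_trans (le_of_eq ?_) (Finset.le_sup' _ (Finset.mem_univ (InfinitePlace.mk φ)))
  rw [normAtPlace_apply, InfinitePlace.apply]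

open scoped Classical in
lemma norm_le_of_mem {x : mixedSpace L} {ρ : ℝ≥0} (hx : x ∈ convexBodyLT L fun _ => ρ) :
    ‖x‖ ≤ ρ := by
  rw [Prod.norm_def]
  refine max_le ((pi_norm_le_iff_of_nonneg ρ.2).mpr fun w => ?_)
    ((pi_norm_le_iff_of_nonneg ρ.2).mpr fun w => ?_)
  · exact (mem_ball_zero_iff.mp (hx.1 w (mem_univ _))).le
  · exact (mem_ball_zero_iff.mp (hx.2 w (mem_univ _))).le

lemma half_lt_finrank {ρ : ℕ} (hρ : 5 ^ finrank ℚ L * (discr L).natAbs < ρ ^ finrank ℚ L) :
    finrank ℚ L < 2 * finrank ℚ (Submodule.span ℚ (short L (2 * ρ))) := by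
  classical
  by_contra hcon
  push Not at hcon
  set W := Submodule.span ℚ (short L (2 * ρ)) with hW
  set d := finrank ℚ L with hd
  set m := finrank ℚ W with hm
  have hd0 : 0 < d := finrank_pos
  have hρ1 : 1 ≤ ρ := by
    rcases Nat.eq_zero_or_pos ρ with rfl | h
    · rw [zero_pow (by omega)] at hρ; omega
    · exact h
  let b := Module.finBasis ℚ W
  let V := Submodule.span ℝ (Set.range fun i => mixedEmbedding L (b i))
  have hV : finrank ℝ V ≤ m := by
    have := finrank_range_le_card (R := ℝ) fun i => mixedEmbedding L (b i)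
    rw [Fintype.card_fin] at this
    exact this
  have hWV : ∀ a ∈ W, mixedEmbedding L a ∈ V := by
    intro a ha
    have h1 := congrArg (fun t : W => mixedEmbedding L t) (b.sum_repr ⟨a, ha⟩)
    simp only [AddSubmonoidClass.coe_finsetSum, map_sum] at h1
    rw [← h1]
    refine Submodule.sum_mem _ fun i _ => ?_
    rw [Submodule.coe_smul, map_rat_smul, ← Rat.cast_smul_eq_qsmul ℝ]
    exact Submodule.smul_mem _ _ (Submodule.subset_span ⟨i, rfl⟩)
  have h_fund := ZSpan.isAddFundamentalDomain' (latticeBasis L) volume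
  have : Countable (Submodule.span ℤ (Set.range (latticeBasis L))).toAddSubgroup := by
    change Countable (Submodule.span ℤ (Set.range (latticeBasis L)))
    infer_instance
  have hmeas : MeasurableSet (convexBodyLT L fun _ => (ρ : ℝ≥0)) :=
    (MeasurableSet.univ_pi fun _ => measurableSet_ball).prod
      (MeasurableSet.univ_pi fun _ => measurableSet_ball)
  have key := measure_le_of_count h_fund hmeas (((5 * ρ) ^ m : ℕ) : ℝ≥0∞) (by
    intro x s hs
    rcases s.eq_empty_or_nonempty with rfl | ⟨g0, hg0⟩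
    · simp
    have hlat : ∀ g g' : (Submodule.span ℤ (Set.range (latticeBasis L))).toAddSubgroup,
        ∃ a : 𝓞 L, mixedEmbedding L a = (g : mixedSpace L) - g' := by
      intro g g'
      have h1 : (g : mixedSpace L) - g' ∈ Submodule.span ℤ (Set.range (latticeBasis L)) :=
        sub_mem g.2 g'.2
      rw [mem_span_latticeBasis] at h1
      obtain ⟨a, ha⟩ := h1
      exact ⟨a, ha⟩
    have hnorm : ∀ g ∈ s, ‖(g : mixedSpace L) - g0‖ ≤ 2 * ρ := by
      intro g hg
      have h1 := norm_le_of_mem (hs g hg)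
      have h2 := norm_le_of_mem (hs g0 hg0)
      have h3 : (g : mixedSpace L) - g0 = (g +ᵥ x) - (g0 +ᵥ x) := by
        show _ = ((g : mixedSpace L) + x) - ((g0 : mixedSpace L) + x)
        abel
      rw [h3]
      refine (norm_sub_le _ _).trans ?_
      simp only [NNReal.coe_natCast] at h1 h2
      linarith
    have hmem : ∀ g ∈ s, (g : mixedSpace L) - g0 ∈ V := by
      intro g hg
      obtain ⟨a, ha⟩ := hlat g g0
      rw [← ha]
      refine hWV _ (Submodule.subset_span ⟨a.2, fun φ => (le_norm_mixed _ φ).trans ?_⟩)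
      rw [ha]; exact hnorm g hg
    let f : s → V := fun g => ⟨(g.1 : mixedSpace L) - g0, hmem g.1 g.2⟩
    have hf : Function.Injective f := by
      intro g g' h
      have := congrArg (fun v : V => (v : mixedSpace L)) h
      simp only [f, sub_left_inj] at this
      exact Subtype.ext (Subtype.ext this)
    have h1 := card_le_of_sep (Finset.univ.image f) (2 * ρ) (by positivity) (by
      intro c hc
      obtain ⟨g, -, rfl⟩ := Finset.mem_image.mp hc
      exact hnorm g.1 g.2) (by
      intro c hc c' hc' hne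
      obtain ⟨g, -, rfl⟩ := Finset.mem_image.mp hc
      obtain ⟨g', -, rfl⟩ := Finset.mem_image.mp hc'
      obtain ⟨a, ha⟩ := hlat g.1 g'.1
      have h2 : ((f g - f g' : V) : mixedSpace L) = mixedEmbedding L a := by
        rw [ha]; simp [f]
      have ha0 : a ≠ 0 := by
        rintro rfl
        apply hne
        rw [← sub_eq_zero]
        exact Subtype.ext (by simpa using h2)
      obtain ⟨φ, hφ⟩ := exists_conjugate_one_le_norm ha0
      rw [Submodule.coe_norm, h2]
      exact hφ.trans (le_norm_mixed _ φ))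
    rw [Finset.card_image_of_injective _ hf, Finset.card_univ, Fintype.card_coe] at h1
    have hρ' : (1 : ℝ) ≤ ρ := by exact_mod_cast hρ1
    have h2 : (s.card : ℝ) ≤ (5 * ρ) ^ m :=
      h1.trans ((pow_le_pow_left₀ (by positivity) (by linarith) _).trans
        (pow_le_pow_right₀ (by linarith) hV))
    exact_mod_cast h2)
  rw [convexBodyLT_volume, volume_fundamentalDomain_latticeBasis, Finset.prod_pow_eq_pow_sum,
    sum_mult_eq] at key
  have h1 : ((ρ : ℝ≥0) ^ d : ℝ≥0) ≤ ((5 * ρ) ^ m : ℕ) * NNReal.sqrt ‖discr L‖₊ := by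
    rw [← ENNReal.coe_le_coe]
    calc (((ρ : ℝ≥0) ^ d : ℝ≥0) : ℝ≥0∞)
        ≤ (convexBodyLTFactor L : ℝ≥0∞) * (((ρ : ℝ≥0) ^ d : ℝ≥0) : ℝ≥0∞) :=
          le_mul_of_one_le_left' (by exact_mod_cast one_le_convexBodyLTFactor L)
      _ ≤ _ := key
      _ ≤ _ := by
          rw [ENNReal.coe_mul, ENNReal.coe_natCast]
          refine mul_le_mul_right (mul_le_of_le_one_left' (pow_le_one' ?_ _)) _
          simp
  have h2 := pow_le_pow_left₀ (zero_le) h1 2
  rw [mul_pow, NNReal.sq_sqrt, ← NNReal.natCast_natAbs] at h2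
  have h3 : (ρ ^ d) ^ 2 ≤ ((5 * ρ) ^ m) ^ 2 * (discr L).natAbs := by exact_mod_cast h2
  have h4 : ((5 * ρ) ^ m) ^ 2 ≤ (5 * ρ) ^ d := by
    rw [← pow_mul]; exact Nat.pow_le_pow_right (by omega) (by omega)
  have h5 : ρ ^ d * ρ ^ d ≤ ρ ^ d * (5 ^ d * (discr L).natAbs) := by
    calc ρ ^ d * ρ ^ d = (ρ ^ d) ^ 2 := by ring
      _ ≤ (5 * ρ) ^ d * (discr L).natAbs := h3.trans (Nat.mul_le_mul_right _ h4)
      _ = _ := by rw [mul_pow]; ring
  have := Nat.le_of_mul_le_mul_left h5 (pow_pos hρ1 _)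
  omega

theorem span_short {ρ : ℕ} (hρ : 5 ^ finrank ℚ L * (discr L).natAbs < ρ ^ finrank ℚ L) :
    Submodule.span ℚ (short L (4 * ρ ^ 2)) = ⊤ := by
  by_contra hcon
  obtain ⟨f, hf0, hf⟩ := Submodule.exists_le_ker_of_lt_top _ (lt_top_iff_ne_top.mpr hcon)
  let B : LinearMap.BilinForm ℚ L := (LinearMap.mul ℚ L).compr₂ f
  have hB : ∀ a b, B a b = f (a * b) := fun _ _ => rfl
  have hsep : ∀ a, (∀ b, f (a * b) = 0) → a = 0 := by
    intro a ha
    by_contra h0
    apply hf0
    ext b
    simpa [mul_inv_cancel_left₀ h0] using ha (a⁻¹ * b)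
  have hnd : B.Nondegenerate :=
    ⟨fun a ha => hsep a ha, fun a ha => hsep a fun b => by rw [mul_comm]; exact ha b⟩
  set W := Submodule.span ℚ (short L (2 * ρ)) with hW
  have hle : W ≤ B.orthogonal W := by
    rw [hW, Submodule.span_le]
    intro a ha
    show a ∈ B.orthogonal _
    rw [LinearMap.BilinForm.mem_orthogonal_iff]
    intro n hn
    have : Submodule.span ℚ (short L (2 * ρ)) ≤ LinearMap.ker (B.flip a) := by
      rw [Submodule.span_le]
      intro c hc
      show f (c * a) = 0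
      refine hf (Submodule.subset_span ⟨hc.1.mul ha.1, fun φ => ?_⟩)
      rw [map_mul, norm_mul]
      calc ‖φ c‖ * ‖φ a‖ ≤ (2 * ρ) * (2 * ρ) :=
            mul_le_mul (hc.2 φ) (ha.2 φ) (norm_nonneg _) (by positivity)
        _ = _ := by ring
    exact this hn
  have h1 := Submodule.finrank_mono hle
  rw [LinearMap.BilinForm.finrank_orthogonal hnd] at h1
  have h2 := half_lt_finrank hρ
  rw [← hW] at h2
  omega

end Pool.Agent.Lib.MP_af4c59_nt.H11
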