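import Pool.Agent.Lib.MP_af4c59_nt.H11Interp
import Pool.Agent.Lib.MP_af4c59_nt.H11Small

/-!
Choice of a generic small tuple of algebraic integers in a number field.
-/

namespace Pool.Agent.Lib.MP_af4c59_nt.H11

open MvPolynomial Module

lemma totalDegree_aeval_le_of_le_one {τ τ' R : Type} [CommRing R] (f : τ → MvPolynomial τ' R)
    (hf : ∀ t, (f t).totalDegree ≤ 1) (P : MvPolynomial τ R) :
    (aeval f P).totalDegree ≤ P.totalDegree := by
  conv_lhs => rw [P.as_sum, map_sum]
  refine (totalDegree_finsetSum _ _).trans (Finset.sup_le fun μ hμ => ?_)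
  rw [aeval_monomial, algebraMap_eq]
  refine (totalDegree_mul _ _).trans ?_
  rw [totalDegree_C, zero_add, Finsupp.prod]
  refine (totalDegree_finsetProd _ _).trans (le_trans ?_ (le_totalDegree hμ))
  refine Finset.sum_le_sum fun t _ => (totalDegree_pow _ _).trans ?_
  simpa using Nat.mul_le_mul_left (μ t) (hf t)

variable {L Ω : Type} [Field L] [NumberField L] [Field Ω] [CharZero Ω]

lemma span_embeddings {I β : Type} [Fintype I] (e : I → (L →ₐ[ℚ] Ω)) (he : Function.Injective e)
    (b : β → L) (hb : Submodule.span ℚ (Set.range b) = ⊤) :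
    Submodule.span Ω (Set.range fun m i => e i (b m)) = ⊤ := by
  classical
  by_contra hcon
  obtain ⟨f, hf0, hf⟩ := Submodule.exists_le_ker_of_lt_top _ (lt_top_iff_ne_top.mpr hcon)
  have hli := (linearIndependent_toLinearMap ℚ L Ω).comp e he
  rw [Fintype.linearIndependent_iff] at hli
  have h1 := hli (fun i => f (Pi.single i 1)) (by
    refine LinearMap.ext_on hb ?_
    rintro _ ⟨m, rfl⟩
    have h2 : f (fun i => e i (b m)) = 0 := hf (Submodule.subset_span ⟨m, rfl⟩)
    rw [LinearMap.pi_apply_eq_sum_univ] at h2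
    rw [LinearMap.zero_apply, ← h2, LinearMap.sum_apply]
    refine Finset.sum_congr rfl fun i _ => ?_
    simp only [Function.comp_apply, LinearMap.smul_apply, AlgHom.toLinearMap_apply, smul_eq_mul]
    rw [mul_comm]
    congr 2
    funext j
    simp [Pi.single_apply, eq_comm])
  apply hf0
  exact LinearMap.pi_ext' fun i => LinearMap.ext_ring (by simpa using h1 i)

lemma exists_good {I σ : Type} [Fintype I] [Fintype σ] (e : I → (L →ₐ[ℚ] Ω))
    (he : Function.Injective e) {R : ℝ} (hR : 0 ≤ R) (hs : Submodule.span ℚ (short L R) = ⊤)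
    {Θ : MvPolynomial (I × σ) Ω} (hΘ : Θ ≠ 0) :
    ∃ α : σ → L, (∀ l, α l ∈ short L (finrank ℚ L * Θ.totalDegree * R)) ∧
      eval (fun p => e p.1 (α p.2)) Θ ≠ 0 := by
  classical
  obtain ⟨b, hb1, hb2, hb3⟩ := exists_linearIndependent ℚ (short L R)
  have : Finite b := hb3.finite
  have : Fintype b := Fintype.ofFinite b
  have hcard : Fintype.card b ≤ finrank ℚ L := hb3.fintype_card_le_finrank
  have hsp := span_embeddings e he (fun m : b => (m : L)) (by
    rw [Subtype.range_coe, hb2, hs])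
  let f : I × σ → MvPolynomial (b × σ) Ω := fun p => ∑ m : b, C (e p.1 m) * X (m, p.2)
  have hev : ∀ t : b × σ → Ω, eval t (aeval f Θ)
      = eval (fun p => ∑ m : b, e p.1 m * t (m, p.2)) Θ := by
    intro t
    rw [← coe_aeval_eq_eval, ← coe_aeval_eq_eval]
    show aeval t (aeval f Θ) = aeval _ Θ
    rw [← AlgHom.comp_apply, comp_aeval]
    simp [f]
  have hP : aeval f Θ ≠ 0 := by
    intro h0
    apply hΘ
    refine MvPolynomial.funext fun y => ?_
    have h1 : ∀ l, ∃ c : b → Ω, ∑ m, c m • (fun i => e i (m : L)) = fun i => y (i, l) :=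
      fun l => (Submodule.mem_span_range_iff_exists_fun Ω).mp (hsp ▸ Submodule.mem_top)
    choose c hc using h1
    have h2 := hev fun q => c q.2 q.1
    rw [h0, map_zero] at h2
    rw [map_zero, h2]
    congr 2
    funext p
    have := congrFun (hc p.2) p.1
    simp only [Finset.sum_apply, Pi.smul_apply, smul_eq_mul] at this
    rw [← this]
    exact Finset.sum_congr rfl fun m _ => mul_comm _ _
  have hdeg : (aeval f Θ).totalDegree ≤ Θ.totalDegree := by
    refine totalDegree_aeval_le_of_le_one f (fun p => ?_) Θ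
    refine (totalDegree_finsetSum _ _).trans (Finset.sup_le fun m _ => ?_)
    refine (totalDegree_mul _ _).trans ?_
    simp [totalDegree_X]
  obtain ⟨t, ht1, ht2⟩ : ∃ t : b × σ → Ω,
      (∀ q, t q ∈ (Finset.range (Θ.totalDegree + 1)).image (Nat.cast : ℕ → Ω)) ∧
        eval t (aeval f Θ) ≠ 0 := by
    by_contra hcon
    push Not at hcon
    refine hP (eq_zero_of_eval_zero_at_prod_finset _ _ (fun q => ?_) hcon)
    rw [Finset.card_image_of_injective _ Nat.cast_injective, Finset.card_range]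
    have := degreeOf_le_totalDegree (aeval f Θ) q
    omega
  choose s hs1 hs2 using fun q => Finset.mem_image.mp (ht1 q)
  refine ⟨fun l => ∑ m : b, (m : L) * s (m, l), fun l => ⟨?_, fun φ => ?_⟩, ?_⟩
  · exact IsIntegral.sum _ fun m _ => (hb1 m.2).1.mul (isIntegral_natCast _)
  · rw [map_sum]
    refine (norm_sum_le _ _).trans ((Finset.sum_le_card_nsmul _ _ (Θ.totalDegree * R)
      fun m _ => ?_).trans ?_)
    · rw [map_mul, norm_mul, map_natCast, Complex.norm_natCast, mul_comm]
      refine mul_le_mul ?_ ((hb1 m.2).2 φ) (norm_nonneg _) (Nat.cast_nonneg _)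
      have := Finset.mem_range.mp (hs1 (m, l))
      exact_mod_cast (by omega : s (m, l) ≤ Θ.totalDegree)
    · rw [nsmul_eq_mul, Finset.card_univ, mul_assoc]
      exact mul_le_mul_of_nonneg_right (by exact_mod_cast hcard) (by positivity)
  · rw [hev] at ht2
    convert ht2 using 3
    simp [hs2]

omit [CharZero Ω] in
lemma exists_theta {E ν σ : Type} [Fintype E] [Fintype ν] [Fintype σ]
    (hn : Fintype.card ν ≤ 2 ^ Fintype.card σ) (l0 : σ) (j : ℕ) :
    ∃ Θ : MvPolynomial ((E × ν) × σ) Ω, Θ ≠ 0 ∧ ∀ y, eval y Θ ≠ 0 →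
      (∀ τ, ∀ k ≤ j, Itp (fun p : ν × σ => y ((τ, p.1), p.2)) k) ∧
        Function.Injective fun i => y (i, l0) := by
  classical
  obtain ⟨Θ, h1, h2⟩ := generic (Ω := Ω) hn j
  refine ⟨(∏ τ : E, rename (fun p : ν × σ => ((τ, p.1), p.2)) Θ) *
    ∏ q ∈ (Finset.univ : Finset (E × ν)).offDiag, (X (q.1, l0) - X (q.2, l0)),
    mul_ne_zero (Finset.prod_ne_zero_iff.mpr fun τ _ => ?_)
      (Finset.prod_ne_zero_iff.mpr fun q hq => ?_), fun y hy => ?_⟩
  · intro h
    refine h1 (rename_injective (fun p : ν × σ => ((τ, p.1), p.2)) ?_ (by simpa using h))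
    intro p p' h'
    simp only [Prod.mk.injEq, true_and] at h'
    exact Prod.ext h'.1 h'.2
  · rw [sub_ne_zero]
    intro h
    exact (Finset.mem_offDiag.mp hq).2.2 (congrArg Prod.fst (X_injective h))
  · rw [map_mul, map_prod, map_prod] at hy
    refine ⟨fun τ => h2 _ ?_, fun i i' h => ?_⟩
    · have := Finset.prod_ne_zero_iff.mp (left_ne_zero_of_mul hy) τ (Finset.mem_univ _)
      rwa [eval_rename] at this
    · by_contra hne
      have := Finset.prod_ne_zero_iff.mp (right_ne_zero_of_mul hy) (i, i')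
        (Finset.mem_offDiag.mpr ⟨Finset.mem_univ _, Finset.mem_univ _, hne⟩)
      simp only [map_sub, eval_X] at this
      exact this (sub_eq_zero.mpr h)

lemma exists_index {K : Type} [Field K] [NumberField K] [Algebra K L] [IsAlgClosed Ω] {n : ℕ}
    (hn : finrank K L = n) : ∃ e : (K →ₐ[ℚ] Ω) × Fin n ≃ (L →ₐ[ℚ] Ω),
      ∀ i a, e i (algebraMap K L a) = i.1 a := by
  have h1 : ∀ f : K →ₐ[ℚ] Ω,
      Nonempty (Fin n ≃ @AlgHom K L Ω _ _ _ _ f.toRingHom.toAlgebra) := by
    intro f
    let _ := f.toRingHom.toAlgebra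
    exact ⟨(Fintype.equivFinOfCardEq (by rw [AlgHom.card, hn])).symm⟩
  refine ⟨((Equiv.sigmaEquivProd _ _).symm.trans
    (Equiv.sigmaCongrRight fun f => (h1 f).some)).trans algHomEquivSigma.symm, fun i a => ?_⟩
  let _ := i.1.toRingHom.toAlgebra
  exact ((h1 i.1).some i.2).commutes a

lemma exists_gen [IsAlgClosed Ω] : ∃ θ : L, IsIntegral ℤ θ ∧
    Function.Injective fun τ : L →ₐ[ℚ] Ω => τ θ := by
  obtain ⟨θ, hθ⟩ := Field.exists_primitive_element ℚ L
  have h1 := (Field.primitive_element_iff_algHom_eq_of_eval' ℚ Ω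
    (fun _ => IsAlgClosed.splits _) θ).mp hθ
  have h2 : IsAlgebraic ℤ θ :=
    (IsFractionRing.isAlgebraic_iff ℤ ℚ L).mpr (Algebra.IsAlgebraic.isAlgebraic θ)
  obtain ⟨y, hy, h3⟩ := h2.exists_integral_multiple
  refine ⟨y • θ, h3, fun τ τ' h => h1 ?_⟩
  simp only [zsmul_eq_mul, map_mul, map_intCast] at h
  exact mul_left_cancel₀ (by exact_mod_cast hy) h

end Pool.Agent.Lib.MP_af4c59_nt.H11
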