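import Pool.Agent.Lib.MP_af4c59_nt.H11Arith
import Pool.Agent.Lib.MP_af4c59_nt.H11Bezout

/-!
The counting framework: good points, frames, and the reduction of the number of free
coordinates for point sets of small rank.
-/

namespace Pool.Agent.Lib.MP_af4c59_nt.H11

open MvPolynomial

lemma card_le_of_cover {α β : Type} (S : Finset α) (Y : Finset β) (p : α → β → Prop) (M : ℕ)
    (h1 : ∀ x ∈ S, ∃ y ∈ Y, p x y)
    (h2 : ∀ y ∈ Y, ∀ S' : Finset α, (∀ x ∈ S', x ∈ S ∧ p x y) → S'.card ≤ M) :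
    S.card ≤ Y.card * M := by
  classical
  have : S ⊆ Y.biUnion fun y => S.filter fun x => p x y := by
    intro x hx
    obtain ⟨y, hy, hp⟩ := h1 x hx
    exact Finset.mem_biUnion.mpr ⟨y, hy, Finset.mem_filter.mpr ⟨hx, hp⟩⟩
  refine (Finset.card_le_card this).trans (Finset.card_biUnion_le.trans ?_)
  exact Finset.sum_le_card_nsmul _ _ _ fun y hy => h2 y hy _ fun x hx => Finset.mem_filter.mp hx

/-- The fixed data of the counting problem. -/
structure Setup (ι A Ω : Type) [Field Ω] where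
  ε : Ω →+* ℂ
  K0 : Finset ι
  F : A → MvPolynomial ι ℤ
  T : ℕ
  j : ℕ
  cF : ℕ

variable {ι A Ω : Type} [Fintype ι] [DecidableEq ι] [Fintype A] [Field Ω] [CharZero Ω]

/-- Base change of integer polynomials. -/
noncomputable abbrev mp (S : Type) [CommRing S] : MvPolynomial ι ℤ →+* MvPolynomial ι S :=
  map (Int.castRingHom S)

namespace Setup

variable (d : Setup ι A Ω)

/-- The family `F` spans all jets of order `j` at `x` along the fibre of the fixed
coordinates. -/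
def JS (x : ι → Ω) : Prop :=
  ∀ P : MvPolynomial ι Ω, ∃ Q ∈ Submodule.span Ω (Set.range fun a => mp Ω (d.F a)),
    P - Q ∈ eqI (fun u => X u) d.K0 x ⊔ mx x ^ (d.j + 1)

/-- Good points. -/
def Gd (H : ℕ) (x : ι → Ω) : Prop :=
  Pt d.ε H x ∧ (∀ a, ∃ n : ℤ, (n : Ω) = aeval x (d.F a) ∧ n.natAbs ≤ d.cF * H ^ d.T) ∧ d.JS x

/-- Frames for a set of points. -/
structure Fr (H B : ℕ) (S : Finset (ι → Ω)) (Φ : ι → MvPolynomial ι ℤ) (K : Finset ι) :
    Prop where
  tame : ∀ u, Tame H B (Φ u)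
  base : ∀ u ∈ d.K0, u ∈ K ∧ Φ u = X u
  const : ∀ u ∈ K, ∀ x ∈ S, ∀ y ∈ S, aeval x (Φ u) = aeval y (Φ u)
  int : ∀ u, u ∉ K → ∀ x ∈ S, ∃ n : ℤ, (n : Ω) = aeval x (Φ u)
  det : ∀ x ∈ S, aeval x (jac Φ).det ≠ 0

/-- The counting bound for frames with at most `m` free coordinates. -/
def Bd (m E : ℕ) : Prop :=
  ∀ B, ∃ c : ℕ, ∀ H, 2 ≤ H → ∀ (S : Finset (ι → Ω)) Φ K, (∀ x ∈ S, d.Gd H x) →
    d.Fr H B S Φ K → Kᶜ.card ≤ m → S.card ≤ c * H ^ E

/-- Low rank of the evaluation matrix. -/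
def LR (H B : ℕ) (S : Finset (ι → Ω)) (ρ : ℕ) : Prop :=
  ∃ (G : A → MvPolynomial ι ℤ) (g : Fin ρ → MvPolynomial ι Ω), (∀ a, Tame H B (G a)) ∧
    (∀ a, ∀ x ∈ S, aeval x (G a) = 0) ∧
    ∀ a, mp Ω (d.F a) ∈ Submodule.span Ω (Set.range fun a => mp Ω (G a))
      ⊔ Submodule.span Ω (Set.range g)

variable {d}

omit [Fintype A] [CharZero Ω] in
lemma Fr.mono {H B B' : ℕ} (hH : 2 ≤ H) {S S' : Finset (ι → Ω)} {Φ : ι → MvPolynomial ι ℤ}
    {K : Finset ι} (h : d.Fr H B S Φ K) (hB : B ≤ B') (hS : ∀ x ∈ S', x ∈ S) :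
    d.Fr H B' S' Φ K :=
  ⟨fun u => (h.tame u).mono hH hB, h.base,
    fun u hu x hx y hy => h.const u hu x (hS x hx) y (hS y hy),
    fun u hu x hx => h.int u hu x (hS x hx), fun x hx => h.det x (hS x hx)⟩

omit [Fintype A] [CharZero Ω] [Fintype ι] [DecidableEq ι] in
lemma LR.mono {H B B' ρ : ℕ} (hH : 2 ≤ H) {S S' : Finset (ι → Ω)} (h : d.LR H B S ρ)
    (hB : B ≤ B') (hS : ∀ x ∈ S', x ∈ S) : d.LR H B' S' ρ := by
  obtain ⟨G, g, h1, h2, h3⟩ := h
  exact ⟨G, g, fun a => (h1 a).mono hH hB, fun a x hx => h2 a x (hS x hx), h3⟩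

omit [Fintype A] [CharZero Ω] in
lemma eval_jac_mp {S : Type} [CommRing S] (x : ι → S) (Φ : ι → MvPolynomial ι ℤ) :
    eval x (jac fun u => mp S (Φ u)).det = aeval x (jac Φ).det := by
  rw [← map_jac, eval_map_int]

omit [Fintype A] [CharZero Ω] [Fintype ι] [DecidableEq ι] in
lemma totalDegree_mp_le {S : Type} [CommRing S] (P : MvPolynomial ι ℤ) :
    (mp S P).totalDegree ≤ P.totalDegree :=
  Finset.sup_mono (support_map_subset _ _)

omit [Fintype A] in
lemma bd_zero : d.Bd 0 0 := by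
  intro B
  refine ⟨(1 + B * Fintype.card ι) ^ Fintype.card ι, fun H _ S Φ K _ hF hK => ?_⟩
  rcases S.eq_empty_or_nonempty with rfl | ⟨x0, hx0⟩
  · simp
  have hK' : ∀ u, u ∈ K := by
    intro u
    by_contra hu
    have := Finset.card_pos.mpr ⟨u, Finset.mem_compl.mpr hu⟩
    omega
  rw [pow_zero, mul_one]
  refine bezout (fun u => mp Ω (Φ u)) B
    (fun u => (totalDegree_mp_le _).trans (hF.tame u).1) (fun u => aeval x0 (Φ u)) S
    fun x hx => ⟨fun u => ?_, ?_⟩
  · rw [eval_map_int]; exact hF.const u (hK' u) x hx x0 hx0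
  · rw [eval_jac_mp]; exact hF.det x hx

omit [Fintype A] [CharZero Ω] [Fintype ι] [DecidableEq ι] in
lemma eqI_base_le {Φ : ι → MvPolynomial ι ℤ} {K : Finset ι}
    (h : ∀ u ∈ d.K0, u ∈ K ∧ Φ u = X u) (x : ι → Ω) :
    eqI (fun u => X u) d.K0 x ≤ eqI (fun u => mp Ω (Φ u)) K x := by
  refine Ideal.span_mono ?_
  rintro _ ⟨u, hu, rfl⟩
  exact ⟨u, (h u hu).1, by simp [(h u hu).2]⟩

omit [Fintype A] in
lemma exists_new {H B ρ b : ℕ} {S : Finset (ι → Ω)} {Φ : ι → MvPolynomial ι ℤ} {K : Finset ι}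
    (hF : d.Fr H B S Φ K) {G : A → MvPolynomial ι ℤ} {g : Fin ρ → MvPolynomial ι Ω}
    (h2 : ∀ a, ∀ x ∈ S, aeval x (G a) = 0)
    (h3 : ∀ a, mp Ω (d.F a) ∈ Submodule.span Ω (Set.range fun a => mp Ω (G a))
      ⊔ Submodule.span Ω (Set.range g))
    (hb : b * Kᶜ.card ≤ d.j) (hρ : ρ < (b + 1) ^ Kᶜ.card) {x : ι → Ω} (hx : x ∈ S)
    (hJ : d.JS x) : ∃ (a : A) (l : List ι) (w : ι), l.length ≤ d.j ∧ w ∉ K ∧
      aeval x (Dl Φ l (G a)) = 0 ∧ aeval x (D Φ w (Dl Φ l (G a))) ≠ 0 := by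
  obtain ⟨a, l, hl1, hl2, hl3⟩ := exists_word (fun u => mp Ω (Φ u)) K x
    (by rw [eval_jac_mp]; exact hF.det x hx) d.j b ρ hb hρ (fun a => mp Ω (G a)) g (by
      intro P
      obtain ⟨Q, hQ, hPQ⟩ := hJ P
      refine ⟨Q, ?_, sup_le_sup_right (eqI_base_le hF.base x) _ hPQ⟩
      refine (Submodule.span_le.mpr ?_) hQ
      rintro _ ⟨a, rfl⟩
      exact h3 a)
  obtain ⟨l₁, w, h4, h5, h6, h7⟩ := exists_first (fun u => mp Ω (Φ u)) x (fun w => w ∉ K) l
    (mp Ω (G a)) hl2 (by rw [eval_map_int]; exact h2 a x hx) hl3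
  refine ⟨a, l₁, w, by omega, h5, ?_, ?_⟩
  · rw [← eval_map_int, map_Dl]; exact h6
  · rw [← eval_map_int, map_D, map_Dl]; exact h7

lemma inner {m E b s : ℕ} (h : d.Bd m E) : ∀ t : ℕ,
    (∀ m', m < m' → m' ≤ m + t → b * m' ≤ d.j ∧ s ≤ (b + 1) ^ m') →
    ∀ B, ∃ c : ℕ, ∀ H, 2 ≤ H → ∀ (S : Finset (ι → Ω)) Φ K ρ, ρ < s → (∀ x ∈ S, d.Gd H x) →
      d.Fr H B S Φ K → d.LR H B S ρ → Kᶜ.card ≤ m + t → S.card ≤ c * H ^ E := by
  classical
  intro t
  induction t with
  | zero =>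
    intro _ B
    obtain ⟨c, hc⟩ := h B
    exact ⟨c, fun H hH S Φ K _ _ hG hF _ hK => hc H hH S Φ K hG hF hK⟩
  | succ t ih =>
    intro ht B
    have ih' := ih fun m' h1 h2 => ht m' h1 (by omega)
    obtain ⟨c1, hc1⟩ := ih' B
    set B' := (fD (Fintype.card ι))^[d.j] B with hB'
    have hBB : B ≤ B' := le_fD_iter _ _ _
    obtain ⟨c2, hc2⟩ := ih' B'
    let Y : Finset (A × List ι × ι) :=
      Finset.univ ×ˢ (List.finite_length_le ι d.j).toFinset ×ˢ Finset.univ
    refine ⟨c1 + Y.card * c2, fun H hH S Φ K ρ hρ hG hF hL hK => ?_⟩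
    by_cases hK' : Kᶜ.card ≤ m + t
    · refine (hc1 H hH S Φ K ρ hρ hG hF hL hK').trans (Nat.mul_le_mul_right _ (by omega))
    have hKe : Kᶜ.card = m + (t + 1) := by omega
    obtain ⟨h1, h2⟩ := ht (m + (t + 1)) (by omega) le_rfl
    obtain ⟨G, g, hG1, hG2, hG3⟩ := hL
    have := card_le_of_cover S Y (fun x y => y.2.1.length ≤ d.j ∧ y.2.2 ∉ K ∧
        aeval x (Dl Φ y.2.1 (G y.1)) = 0 ∧ aeval x (D Φ y.2.2 (Dl Φ y.2.1 (G y.1))) ≠ 0)
      (c2 * H ^ E) (by
        intro x hx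
        obtain ⟨a, l, w, h3⟩ := exists_new hF hG2 hG3 (b := b) (by rw [hKe]; exact h1)
          (by rw [hKe]; omega) hx (hG x hx).2.2
        exact ⟨(a, l, w), by simp [Y, h3.1], h3⟩) (by
        rintro ⟨a, l, w⟩ _ S' hS'
        rcases S'.eq_empty_or_nonempty with rfl | ⟨x0, hx0⟩
        · simp
        have hl : l.length ≤ d.j := (hS' x0 hx0).2.1
        have hw : w ∉ K := (hS' x0 hx0).2.2.1
        refine hc2 H hH S' (Function.update Φ w (Dl Φ l (G a))) (insert w K) ρ hρ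
          (fun x hx => hG x (hS' x hx).1) ⟨?_, ?_, ?_, ?_, ?_⟩
          (LR.mono hH ⟨G, g, hG1, hG2, hG3⟩ hBB fun x hx => (hS' x hx).1) ?_
        · exact tame_update (fun u => (hF.tame u).mono hH hBB) w
            (tame_Dl hH l d.j B _ hl hF.tame (hG1 a))
        · intro u hu
          have h3 := hF.base u hu
          have h4 : u ≠ w := fun e => hw (e ▸ h3.1)
          exact ⟨Finset.mem_insert_of_mem h3.1, by simp [h4, h3.2]⟩
        · intro u hu x hx y hy
          by_cases h4 : u = w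
          · subst h4
            simp only [Function.update_self]
            rw [(hS' x hx).2.2.2.1, (hS' y hy).2.2.2.1]
          · simp only [Function.update_of_ne h4]
            exact hF.const u ((Finset.mem_insert.mp hu).resolve_left h4) x (hS' x hx).1 y
              (hS' y hy).1
        · intro u hu x hx
          rw [Finset.mem_insert, not_or] at hu
          simp only [Function.update_of_ne hu.1]
          exact hF.int u hu.2 x (hS' x hx).1
        · intro x hx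
          rw [← D_eq_det]
          exact (hS' x hx).2.2.2.2
        · rw [Finset.compl_insert, Finset.card_erase_of_mem (Finset.mem_compl.mpr hw)]
          omega)
    refine this.trans ?_
    rw [← mul_assoc]
    exact Nat.mul_le_mul_right _ (by omega)

omit [Fintype ι] [DecidableEq ι] [Fintype A] in
lemma lr_of_det {H BF s : ℕ} (hH : 2 ≤ H) (hBF : ∀ a, Tame H BF (d.F a)) (S : Finset (ι → Ω))
    (hG : ∀ x ∈ S, d.Gd H x)
    (hdet : ∀ (xs : Fin s → ι → Ω) (as : Fin s → A), (∀ i, xs i ∈ S) →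
      (Matrix.of fun i j => aeval (xs j) (d.F (as i))).det = 0) :
    ∃ ρ, ρ < s ∧ d.LR H (s * (d.cF + d.T + BF) + s.factorial) S ρ := by
  classical
  let Pr : ℕ → Prop := fun t => ∃ (xs : Fin t → ι → Ω) (as : Fin t → A), (∀ i, xs i ∈ S) ∧
      (Matrix.of fun i j => aeval (xs j) (d.F (as i))).det ≠ 0
  have hP0 : Pr 0 := ⟨Fin.elim0, Fin.elim0, fun i => i.elim0, by simp⟩
  have hPs : ¬ Pr s := fun ⟨xs, as, h1, h2⟩ => h2 (hdet xs as h1)
  set ρ := Nat.findGreatest Pr s with hρ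
  have h1 : Pr ρ := Nat.findGreatest_spec (Nat.zero_le s) hP0
  have h2 : ρ < s := lt_of_le_of_ne (Nat.findGreatest_le s) fun e => hPs (e ▸ h1)
  have h3 : ¬ Pr (ρ + 1) := Nat.findGreatest_is_greatest (Nat.lt_succ_self _) h2
  clear_value ρ
  obtain ⟨xs, as, hxs, hd⟩ := h1
  choose n hn1 hn2 using fun j a => (hG (xs j) (hxs j)).2.1 a
  let M : A → Matrix (Fin (ρ + 1)) (Fin (ρ + 1)) (MvPolynomial ι ℤ) := fun a =>
    Matrix.of fun i j => Fin.cases (d.F (Fin.cons (α := fun _ => A) a as i))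
      (fun j' => C (n j' (Fin.cons (α := fun _ => A) a as i))) j
  refine ⟨ρ, h2, fun a => (M a).det, fun i => mp Ω (d.F (as i)), fun a => ?_, fun a x hx => ?_,
    fun a => ?_⟩
  · have h4 := tame_det hH (B := d.cF + d.T + BF) (M a) fun i j => by
      refine Fin.cases ?_ (fun j' => ?_) j
      · exact (hBF _).mono hH (by omega)
      · refine tame_C ((hn2 _ _).trans ?_)
        calc d.cF * H ^ d.T ≤ H ^ d.cF * H ^ d.T := Nat.mul_le_mul_right _ (le_pow_self hH _)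
          _ = H ^ (d.cF + d.T) := by rw [pow_add]
          _ ≤ _ := Nat.pow_le_pow_right (by omega) (by omega)
    rw [Fintype.card_fin] at h4
    exact h4.mono hH (add_le_add (Nat.mul_le_mul_right _ h2) (Nat.factorial_le h2))
  · by_contra h4
    refine h3 ⟨Fin.cons x xs, Fin.cons a as, fun i => Fin.cases hx hxs i, ?_⟩
    rw [AlgHom.map_det] at h4
    convert h4 using 2
    ext i j
    refine Fin.cases ?_ (fun j' => ?_) j
    · simp [M]
    · simp [M, hn1]
  · set d0 := (Matrix.of fun i j => aeval (xs j) (d.F (as i))).det with hd0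
    have hminor : ∀ i : Fin (ρ + 1), mp Ω ((M a).submatrix i.succAbove Fin.succ).det
        = C (Matrix.of fun i' j => aeval (xs j)
            (d.F (Fin.cons (α := fun _ => A) a as (i.succAbove i')))).det := by
      intro i
      rw [RingHom.map_det, RingHom.map_det]
      congr 1
      ext i' j : 2
      simp [M, ← hn1]
    have h4 : mp Ω (M a).det = d0 • mp Ω (d.F a) + ∑ i : Fin ρ,
        ((-1) ^ ((i : ℕ) + 1) * (Matrix.of fun i' j => aeval (xs j)
            (d.F (Fin.cons (α := fun _ => A) a as (i.succ.succAbove i')))).det)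
              • mp Ω (d.F (as i)) := by
      rw [Matrix.det_succ_column_zero, map_sum, Fin.sum_univ_succ]
      congr 1
      · rw [map_mul, hminor, smul_eq_C_mul]
        simp [M, hd0, mul_comm]
      · refine Finset.sum_congr rfl fun i _ => ?_
        rw [map_mul, hminor, smul_eq_C_mul]
        simp [M]
        ring
    have h5 : mp Ω (d.F a) = d0⁻¹ • (mp Ω (M a).det - ∑ i : Fin ρ,
        ((-1) ^ ((i : ℕ) + 1) * (Matrix.of fun i' j => aeval (xs j)
            (d.F (Fin.cons (α := fun _ => A) a as (i.succ.succAbove i')))).det)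
              • mp Ω (d.F (as i))) := by
      rw [h4, add_sub_cancel_right, smul_smul, inv_mul_cancel₀ hd, one_smul]
    rw [h5]
    refine Submodule.smul_mem _ _ (sub_mem
      (Submodule.mem_sup_left (Submodule.subset_span ⟨a, rfl⟩))
      (Submodule.mem_sup_right (Submodule.sum_mem _ fun i _ =>
        Submodule.smul_mem _ _ (Submodule.subset_span ⟨i, rfl⟩))))

end Setup

end Pool.Agent.Lib.MP_af4c59_nt.H11
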