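import Pool.Agent.Lib.MP_af4c59_nt.H11Cube
import Pool.Agent.Lib.MP_af4c59_nt.H11Count

/-!
Symmetrised monomials span all jets at generic configurations of points.
-/

namespace Pool.Agent.Lib.MP_af4c59_nt.H11

open MvPolynomial

section rey

variable {I σ : Type} [Fintype I] [DecidableEq I]

/-- Symmetrisation of a product of polynomials in the two groups of variables. -/
noncomputable def rey {R : Type} [CommRing R] (U : MvPolynomial I R)
    (V : MvPolynomial (I × σ) R) : MvPolynomial (I ⊕ I × σ) R :=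
  ∑ π : Equiv.Perm I, rename (fun i => Sum.inl (π i)) U
    * rename (fun p : I × σ => Sum.inr (π p.1, p.2)) V

lemma map_rey {R S : Type} [CommRing R] [CommRing S] (φ : R →+* S) (U : MvPolynomial I R)
    (V : MvPolynomial (I × σ) R) : map φ (rey U V) = rey (map φ U) (map φ V) := by
  simp only [rey, map_sum, map_mul, map_rename]

/-- Exponent vectors of bounded degree. -/
abbrev Deg (I : Type) (T : ℕ) : Type := {ν : I →₀ ℕ // ν.degree ≤ T}

noncomputable instance (I : Type) [Finite I] (T : ℕ) : Fintype (Deg I T) :=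
  have : Finite (Deg I T) := (Finsupp.finite_of_degree_le T).to_subtype
  Fintype.ofFinite _

/-- The symmetrised monomials. -/
noncomputable def fam (I σ : Type) [Fintype I] [DecidableEq I] (T' T : ℕ)
    (a : Deg I T' × Deg (I × σ) T) : MvPolynomial (I ⊕ I × σ) ℤ :=
  rey (monomial a.1.1 1) (monomial a.2.1 1)

lemma rey_mem_span {Ω : Type} [Field Ω] {T' T : ℕ} {U : MvPolynomial I Ω}
    {V : MvPolynomial (I × σ) Ω} (hU : U.totalDegree ≤ T') (hV : V.totalDegree ≤ T) :
    rey U V ∈ Submodule.span Ω (Set.range fun a => mp Ω (fam I σ T' T a)) := by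
  have h : rey U V = ∑ ν ∈ U.support, ∑ μ ∈ V.support,
      (U.coeff ν * V.coeff μ) • rey (monomial ν (1 : Ω)) (monomial μ (1 : Ω)) := by
    conv_lhs => rw [U.as_sum, V.as_sum]
    simp only [rey, map_sum, Finset.sum_mul_sum, Finset.smul_sum]
    rw [Finset.sum_comm]
    refine Finset.sum_congr rfl fun ν _ => ?_
    rw [Finset.sum_comm]
    refine Finset.sum_congr rfl fun μ _ => Finset.sum_congr rfl fun π _ => ?_
    rw [← smul_mul_smul_comm, ← map_smul, ← map_smul (rename _), smul_monomial, smul_monomial]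
    simp
  rw [h]
  refine Submodule.sum_mem _ fun ν hν => Submodule.sum_mem _ fun μ hμ =>
    Submodule.smul_mem _ _ (Submodule.subset_span
      ⟨(⟨ν, (le_totalDegree hν).trans hU⟩, ⟨μ, (le_totalDegree hμ).trans hV⟩), ?_⟩)
  simp [fam, map_rey, map_monomial]

lemma aeval_rey {S : Type} [CommRing S] (x : I ⊕ I × σ → S) (U : MvPolynomial I ℤ)
    (V : MvPolynomial (I × σ) ℤ) : aeval x (rey U V) = ∑ π : Equiv.Perm I,
      aeval (fun i => x (Sum.inl (π i))) U
        * aeval (fun p : I × σ => x (Sum.inr (π p.1, p.2))) V := by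
  simp only [rey, map_sum, map_mul, aeval_rename]; rfl

lemma norm_aeval_monomial {τ : Type} (y : τ → ℂ) (H : ℝ) (hH : 1 ≤ H) (hy : ∀ t, ‖y t‖ ≤ H)
    (ν : τ →₀ ℕ) {T : ℕ} (hν : ν.degree ≤ T) : ‖aeval y (monomial ν (1 : ℤ))‖ ≤ H ^ T := by
  rw [aeval_monomial, map_one, one_mul, Finsupp.prod, norm_prod]
  calc ∏ v ∈ ν.support, ‖y v ^ ν v‖ ≤ ∏ v ∈ ν.support, H ^ ν v :=
        Finset.prod_le_prod (fun _ _ => norm_nonneg _) fun v _ => by
          rw [norm_pow]; exact pow_le_pow_left₀ (norm_nonneg _) (hy v) _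
    _ = H ^ (∑ v ∈ ν.support, ν v) := Finset.prod_pow_eq_pow_sum _ _ _
    _ ≤ _ := pow_le_pow_right₀ hH hν

lemma fam_int {Ω : Type} [Field Ω] [CharZero Ω] [IsGalois ℚ Ω] (ε : Ω →+* ℂ) {H c T' T : ℕ}
    (hH : 1 ≤ H) (hc : 1 ≤ c) (x : I ⊕ I × σ → Ω) (h1 : ∀ v, IsIntegral ℤ (x v))
    (h2 : ∀ i, ‖ε (x (Sum.inl i))‖ ≤ c) (h3 : ∀ p, ‖ε (x (Sum.inr p))‖ ≤ H)
    (h4 : ∀ g : Ω ≃ₐ[ℚ] Ω, ∃ π : Equiv.Perm I, (∀ i, g (x (Sum.inl i)) = x (Sum.inl (π i))) ∧
      ∀ i l, g (x (Sum.inr (i, l))) = x (Sum.inr (π i, l))) (a : Deg I T' × Deg (I × σ) T) :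
    ∃ n : ℤ, (n : Ω) = aeval x (fam I σ T' T a) ∧
      n.natAbs ≤ ((Fintype.card I).factorial * c ^ T') * H ^ T := by
  obtain ⟨n, hn⟩ := int_of_fixed (isIntegral_aeval h1 (fam I σ T' T a)) (by
    intro g
    obtain ⟨π', h5, h6⟩ := h4 g
    rw [fam, aeval_rey, map_sum]
    conv_rhs => rw [← Equiv.sum_comp (Equiv.mulLeft π')]
    refine Finset.sum_congr rfl fun π _ => ?_
    have e1 := ringHom_aeval (g : Ω →+* Ω) (fun i => x (Sum.inl (π i))) (monomial a.1.1 1)
    have e2 := ringHom_aeval (g : Ω →+* Ω) (fun p : I × σ => x (Sum.inr (π p.1, p.2)))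
      (monomial a.2.1 1)
    simp only [RingHom.coe_coe, h5, h6] at e1 e2
    rw [map_mul, e1, e2]; rfl)
  refine ⟨n, hn, natAbs_le_of_norm ε ?_⟩
  rw [hn, fam, aeval_rey, map_sum]
  refine (norm_sum_le _ _).trans ((Finset.sum_le_card_nsmul _ _ ((c : ℝ) ^ T' * (H : ℝ) ^ T)
    fun π _ => ?_).trans (le_of_eq ?_))
  · rw [map_mul, norm_mul, ringHom_aeval, ringHom_aeval]
    exact mul_le_mul
      (norm_aeval_monomial _ _ (by exact_mod_cast hc) (fun i => h2 _) _ a.1.2)
      (norm_aeval_monomial _ _ (by exact_mod_cast hH) (fun p => h3 _) _ a.2.2)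
      (norm_nonneg _) (by positivity)
  · simp [Fintype.card_perm, mul_assoc]

end rey

variable {E ν σ Ω : Type} [Fintype E] [DecidableEq E] [Fintype ν] [DecidableEq ν] [Fintype σ]
  [Field Ω]

omit [DecidableEq ν] [Fintype σ] in
lemma exists_sep (z : E → Ω) (hz : Function.Injective z) :
    ∃ U : MvPolynomial (E × ν) Ω, ∀ b : E × ν → E,
      eval (fun i => z (b i)) U = if ∀ i, b i = i.1 then 1 else 0 := by
  refine ⟨∏ i : E × ν, ∏ τ ∈ Finset.univ.erase i.1, C (z i.1 - z τ)⁻¹ * (X i - C (z τ)),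
    fun b => ?_⟩
  simp only [map_prod, map_mul, eval_C, map_sub, eval_X]
  split_ifs with h
  · refine Finset.prod_eq_one fun i _ => Finset.prod_eq_one fun τ hτ => ?_
    rw [h i]
    exact inv_mul_cancel₀ (sub_ne_zero.mpr (hz.ne (Finset.ne_of_mem_erase hτ).symm))
  · push Not at h
    obtain ⟨i, hi⟩ := h
    exact Finset.prod_eq_zero (Finset.mem_univ i) (Finset.prod_eq_zero
      (Finset.mem_erase.mpr ⟨hi, Finset.mem_univ _⟩) (by simp))

/-- The fixed coordinates. -/
def kz (I σ : Type) [Fintype I] : Finset (I ⊕ I × σ) := Finset.univ.map Function.Embedding.inl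

lemma key_monomial {z : E → Ω} {U : MvPolynomial (E × ν) Ω}
    (hU : ∀ b : E × ν → E, eval (fun i => z (b i)) U = if ∀ i, b i = i.1 then 1 else 0)
    (x : (E × ν) ⊕ (E × ν) × σ → Ω) (hx : ∀ i, x (Sum.inl i) = z i.1) {s : ℕ}
    (hI : ∀ τ, ∀ k ≤ s, Itp (fun p : ν × σ => x (Sum.inr ((τ, p.1), p.2))) k)
    (β : (E × ν) ⊕ (E × ν) × σ →₀ ℕ) (hβ : β.degree = s) :
    ∃ V : MvPolynomial ((E × ν) × σ) Ω,
      V.totalDegree ≤ 2 * s + Fintype.card (E × ν) * Fintype.card σ ∧
      aeval (fun u => X u - C (x u)) (monomial β (1 : Ω)) - rey U V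
        ∈ eqI (fun u => X u) (kz (E × ν) σ) x ⊔ mx x ^ (s + 1) := by
  classical
  set N := eqI (fun u => (X u : MvPolynomial _ Ω)) (kz (E × ν) σ) x with hN
  have hXN : ∀ i, X (Sum.inl i) - C (x (Sum.inl i)) ∈ N := fun i =>
    Ideal.subset_span ⟨Sum.inl i, by simp [kz], by simp⟩
  rw [aeval_monomial, map_one, one_mul, Finsupp.prod_fintype _ _ (by simp), Fintype.prod_sum_type]
  by_cases h0 : ∃ i, β (Sum.inl i) ≠ 0
  · obtain ⟨i, hi⟩ := h0
    refine ⟨0, by simp, Ideal.mem_sup_left ?_⟩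
    simp only [rey, map_zero, mul_zero, Finset.sum_const_zero, sub_zero]
    refine Ideal.mul_mem_right _ _ ?_
    rw [← Finset.mul_prod_erase _ _ (Finset.mem_univ i)]
    exact Ideal.mul_mem_right _ _ (Ideal.pow_mem_of_mem _ (hXN i) _ (Nat.pos_of_ne_zero hi))
  push Not at h0
  simp only [h0, pow_zero, Finset.prod_const_one, one_mul]
  let k : E × ν → ℕ := fun i => ∑ l, β (Sum.inr (i, l))
  have hk : ∑ i, k i = s := by
    rw [← hβ, Finsupp.degree_eq_sum, Fintype.sum_sum_type,
      Fintype.sum_prod_type (fun p : (E × ν) × σ => β (Sum.inr p))]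
    simp [h0, k]
  have hks : ∀ i, k i ≤ s := fun i =>
    hk ▸ Finset.single_le_sum (f := k) (fun _ _ => Nat.zero_le _) (Finset.mem_univ i)
  let y : E × ν → σ → Ω := fun i l => x (Sum.inr (i, l))
  let m : E × ν → MvPolynomial σ Ω := fun i => ∏ l, (X l - C (y i l)) ^ β (Sum.inr (i, l))
  have hm : ∀ i, m i ∈ mx (y i) ^ k i := by
    intro i
    simp only [k, m]
    rw [← Finset.prod_pow_eq_pow_sum]
    exact Ideal.prod_mem_prod fun l _ => Ideal.pow_mem_pow (X_sub_mem _ l) _
  choose g hg1 hg2 using fun i : E × ν => hI i.1 (k i) (hks i)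
    fun i' => if i' = i.2 then m i else 0
  let emb : E × ν → MvPolynomial σ Ω →ₐ[Ω] MvPolynomial ((E × ν) ⊕ (E × ν) × σ) Ω :=
    fun i => rename fun l => Sum.inr (i, l)
  have hemb : ∀ i t P, P ∈ mx (y i) ^ t → emb i P ∈ mx x ^ t := fun i t P hP =>
    map_mem_pow (emb i).toRingHom (y i) _
      (fun l => by simpa [emb] using X_sub_mem x (Sum.inr (i, l))) hP
  refine ⟨∏ i, rename (fun l => (i, l)) (g i), ?_, ?_⟩
  · refine (totalDegree_finsetProd _ _).trans ?_
    refine (Finset.sum_le_sum fun i _ => (totalDegree_rename_le _ _).trans (hg1 i)).trans ?_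
    rw [Finset.sum_add_distrib, ← Finset.mul_sum, hk]
    simp
  set M : MvPolynomial ((E × ν) ⊕ (E × ν) × σ) Ω :=
    ∏ p : (E × ν) × σ, (X (Sum.inr p) - C (x (Sum.inr p))) ^ β (Sum.inr p) with hM
  have hM' : M = ∏ i, emb i (m i) := by
    rw [hM, Fintype.prod_prod_type]
    simp [emb, m, y]
  have hsum : M = ∑ π : Equiv.Perm (E × ν), if π = 1 then M else 0 := by simp
  rw [hsum, rey, ← Finset.sum_sub_distrib]
  refine Submodule.sum_mem _ fun π _ => ?_
  have hW : rename (fun p : (E × ν) × σ => (Sum.inr (π p.1, p.2) : (E × ν) ⊕ (E × ν) × σ))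
      (∏ i, rename (fun l => (i, l)) (g i)) = ∏ i, emb (π i) (g i) := by
    simp only [map_prod, rename_rename]; rfl
  rw [hW]
  have hR : rename (fun i => (Sum.inl (π i) : (E × ν) ⊕ (E × ν) × σ)) U
      - C (if ∀ i, (π i).1 = i.1 then 1 else 0) ∈ N := by
    have := map_mx_le (rename (fun i => (Sum.inl (π i) : (E × ν) ⊕ (E × ν) × σ)) :
      MvPolynomial (E × ν) Ω →ₐ[Ω] _).toRingHom (fun i => z (π i).1) N
      (fun i => by simpa [hx] using hXN (π i)) (Ideal.mem_map_of_mem _ (sub_C_mem _ U))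
    rw [hU] at this
    simpa using this
  have hrest : (if π = 1 then M else 0) - C (if ∀ i, (π i).1 = i.1 then 1 else 0)
      * ∏ i, emb (π i) (g i) ∈ mx x ^ (s + 1) := by
    by_cases hπ : ∀ i, (π i).1 = i.1
    · rw [if_pos hπ, C_1, one_mul]
      have h1 := Cl.prod (I := mx x) Finset.univ k
        (fun i => if π i = i then emb i (m i) else 0) (fun i => emb (π i) (g i)) (by
          intro i _
          have h2 : g i - (if π i = i then m i else 0) ∈ mx (y (π i)) ^ (k i + 1) := by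
            have h3 := hg2 i (π i).2
            have h4 : π i = (i.1, (π i).2) := Prod.ext (hπ i) rfl
            have h5 : (π i = i) ↔ (π i).2 = i.2 := ⟨fun e => by rw [e], fun e => Prod.ext (hπ i) e⟩
            simp only [h5]
            rw [h4]; exact h3
          have h3 : (if π i = i then emb i (m i) else 0)
              = emb (π i) (if π i = i then m i else 0) := by
            split_ifs with h
            · rw [h]
            · simp
          have h4 : (if π i = i then emb i (m i) else 0) ∈ mx x ^ k i := by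
            split_ifs
            · exact hemb _ _ _ (hm i)
            · exact zero_mem _
          have h5 := hemb _ _ _ h2
          rw [map_sub, ← h3] at h5
          refine ⟨h4, ?_, by simpa using neg_mem h5⟩
          simpa using add_mem (Ideal.pow_le_pow_right (Nat.le_succ _) h5) h4)
      have h6 : ∏ i, (if π i = i then emb i (m i) else 0) = if π = 1 then M else 0 := by
        split_ifs with h
        · subst h; simp [hM']
        · obtain ⟨i, hi⟩ : ∃ i, π i ≠ i := by
            by_contra h'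
            push Not at h'
            exact h (Equiv.ext h')
          exact Finset.prod_eq_zero (Finset.mem_univ i) (if_neg hi)
      have h7 := h1.2.2
      rwa [h6, hk] at h7
    · have : π ≠ 1 := by rintro rfl; exact hπ fun i => rfl
      rw [if_neg hπ, if_neg this]; simp
  have := sub_mem (Ideal.mem_sup_right hrest : _ ∈ N ⊔ mx x ^ (s + 1))
    (Ideal.mem_sup_left (Ideal.mul_mem_right (∏ i, emb (π i) (g i)) _ hR))
  convert this using 1
  ring

theorem span_jets {z : E → Ω} {U : MvPolynomial (E × ν) Ω}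
    (hU : ∀ b : E × ν → E, eval (fun i => z (b i)) U = if ∀ i, b i = i.1 then 1 else 0)
    (x : (E × ν) ⊕ (E × ν) × σ → Ω) (hx : ∀ i, x (Sum.inl i) = z i.1) {j T : ℕ}
    (hT : 2 * j + Fintype.card (E × ν) * Fintype.card σ ≤ T)
    (hI : ∀ τ, ∀ k ≤ j, Itp (fun p : ν × σ => x (Sum.inr ((τ, p.1), p.2))) k)
    (P : MvPolynomial ((E × ν) ⊕ (E × ν) × σ) Ω) : ∀ s ≤ j + 1,
    ∃ Q ∈ Submodule.span Ω (Set.range fun a => mp Ω (fam (E × ν) σ U.totalDegree T a)),
      P - Q ∈ eqI (fun u => X u) (kz (E × ν) σ) x ⊔ mx x ^ s := by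
  intro s
  induction s with
  | zero => intro _; exact ⟨0, zero_mem _, by simp⟩
  | succ s ih =>
    intro hs
    obtain ⟨Q, hQ, hPQ⟩ := ih (by omega)
    obtain ⟨a, ha, b, hb, hab⟩ := Submodule.mem_sup.mp hPQ
    obtain ⟨P', h1, h2⟩ := hom_approx x (fun u => X u - C (x u)) (X_sub_mem x) le_sup_left s b hb
    have h3 : ∀ β ∈ P'.support, β.degree = s := by
      intro β hβ
      by_contra h
      exact mem_support_iff.mp hβ (h1.coeff_eq_zero h)
    choose! V hV1 hV2 using fun β (hβ : β ∈ P'.support) =>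
      key_monomial hU x hx (fun τ k hk => hI τ k (by omega)) β (h3 β hβ)
    refine ⟨Q + ∑ β ∈ P'.support, P'.coeff β • rey U (V β), add_mem hQ
      (Submodule.sum_mem _ fun β hβ => Submodule.smul_mem _ _
        (rey_mem_span le_rfl ((hV1 β hβ).trans (by omega)))), ?_⟩
    have h4 : aeval (fun u => X u - C (x u)) P' - ∑ β ∈ P'.support, P'.coeff β • rey U (V β)
        ∈ eqI (fun u => X u) (kz (E × ν) σ) x ⊔ mx x ^ (s + 1) := by
      nth_rewrite 1 [P'.as_sum]
      rw [map_sum, ← Finset.sum_sub_distrib]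
      refine Submodule.sum_mem _ fun β hβ => ?_
      have : monomial β (coeff β P') = coeff β P' • monomial β (1 : Ω) := by
        simp [smul_monomial]
      rw [this, map_smul, ← smul_sub, smul_eq_C_mul]
      exact Ideal.mul_mem_left _ _ (hV2 β hβ)
    have := add_mem (add_mem (Ideal.mem_sup_left ha) (Ideal.mem_sup_right h2)) h4
    convert this using 1
    rw [← sub_sub, ← hab]; ring

end Pool.Agent.Lib.MP_af4c59_nt.H11
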