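import Mathlib

/-!
Jets of polynomials at a point: the ideal of a point, first order Taylor expansion,
approximation by polynomials in a system of local coordinates.
-/

namespace Pool.Agent.Lib.MP_af4c59_nt.H11

open MvPolynomial

variable {ι R : Type} [CommRing R]

/-- The ideal of the point `x`. -/
noncomputable def mx (x : ι → R) : Ideal (MvPolynomial ι R) :=
  Ideal.span (Set.range fun v => X v - C (x v))

lemma X_sub_mem (x : ι → R) (v : ι) : X v - C (x v) ∈ mx x :=
  Ideal.subset_span ⟨v, rfl⟩

lemma sub_C_mem (x : ι → R) (P : MvPolynomial ι R) : P - C (eval x P) ∈ mx x := by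
  induction P using MvPolynomial.induction_on with
  | C a => simp
  | add p q hp hq =>
    have : p + q - C (eval x (p + q)) = (p - C (eval x p)) + (q - C (eval x q)) := by
      simp; ring
    rw [this]; exact add_mem hp hq
  | mul_X p v hp =>
    have : p * X v - C (eval x (p * X v))
        = (p - C (eval x p)) * X v + C (eval x p) * (X v - C (x v)) := by
      simp; ring
    rw [this]
    exact add_mem (Ideal.mul_mem_right _ _ hp) (Ideal.mul_mem_left _ _ (X_sub_mem x v))

lemma map_mx_le {S : Type} [CommRing S] (φ : MvPolynomial ι R →+* S) (x : ι → R) (I : Ideal S)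
    (h : ∀ v, φ (X v - C (x v)) ∈ I) : (mx x).map φ ≤ I := by
  rw [mx, Ideal.map_span, Ideal.span_le]
  rintro _ ⟨_, ⟨v, rfl⟩, rfl⟩
  exact h v

lemma map_mem_pow {S : Type} [CommRing S] (φ : MvPolynomial ι R →+* S) (x : ι → R) (I : Ideal S)
    (h : ∀ v, φ (X v - C (x v)) ∈ I) {s : ℕ} {P : MvPolynomial ι R} (hP : P ∈ mx x ^ s) :
    φ P ∈ I ^ s := by
  have h1 : φ P ∈ (mx x ^ s).map φ := Ideal.mem_map_of_mem _ hP
  rw [Ideal.map_pow] at h1
  exact Ideal.pow_right_mono (map_mx_le φ x I h) s h1

lemma eval_eq_zero_of_mem (x : ι → R) {P : MvPolynomial ι R} (hP : P ∈ mx x) :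
    eval x P = 0 := by
  have := map_mx_le (eval x) x ⊥ (by simp) (Ideal.mem_map_of_mem _ hP)
  simpa using this

lemma mem_mx_iff (x : ι → R) (P : MvPolynomial ι R) : P ∈ mx x ↔ eval x P = 0 := by
  refine ⟨eval_eq_zero_of_mem x, fun h => ?_⟩
  simpa [h] using sub_C_mem x P

lemma mx_zero_eq : mx (0 : ι → R) = idealOfVars ι R := by
  simp [mx, idealOfVars]

/-- Substituting elements of an ideal into a polynomial without terms of degree `< s`. -/
lemma aeval_mem_pow {σ S : Type} [CommRing S] [Algebra R S] (f : σ → S) (I : Ideal S)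
    (hf : ∀ u, f u ∈ I) {s : ℕ} {P : MvPolynomial σ R} (hP : ∀ α, α.degree < s → P.coeff α = 0) :
    aeval f P ∈ I ^ s := by
  have h1 : P ∈ mx (0 : σ → R) ^ s := by
    rw [mx_zero_eq, mem_pow_idealOfVars_iff']; exact hP
  exact map_mem_pow (aeval f : MvPolynomial σ R →ₐ[R] S).toRingHom 0 I (by simpa using hf) h1

lemma aeval_mem_pow_of_homogeneous {σ S : Type} [CommRing S] [Algebra R S] (f : σ → S)
    (I : Ideal S) (hf : ∀ u, f u ∈ I) {s : ℕ} {P : MvPolynomial σ R} (hP : P.IsHomogeneous s) :
    aeval f P ∈ I ^ s :=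
  aeval_mem_pow f I hf fun _ hα => hP.coeff_eq_zero (ne_of_lt hα)

lemma pderiv_mem_pow (x : ι → R) (v : ι) :
    ∀ (s : ℕ) (P : MvPolynomial ι R), P ∈ mx x ^ (s + 1) → pderiv v P ∈ mx x ^ s := by
  intro s
  induction s with
  | zero => intro P _; simp
  | succ s ih =>
    intro P hP
    rw [pow_succ] at hP
    refine Submodule.mul_induction_on hP ?_ ?_
    · intro a ha b hb
      rw [Derivation.leibniz]
      simp only [smul_eq_mul]
      refine add_mem (Ideal.mul_mem_right _ _ ha) ?_
      rw [pow_succ, mul_comm b]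
      exact Ideal.mul_mem_mul (ih a ha) hb
    · intro a b ha hb
      rw [map_add]; exact add_mem ha hb

variable [Fintype ι] [DecidableEq ι]

lemma taylor_one (x : ι → R) (P : MvPolynomial ι R) :
    P - C (eval x P) - ∑ v, C (eval x (pderiv v P)) * (X v - C (x v)) ∈ mx x ^ 2 := by
  induction P using MvPolynomial.induction_on with
  | C a => simp
  | add p q hp hq =>
    have : p + q - C (eval x (p + q)) - ∑ v, C (eval x (pderiv v (p + q))) * (X v - C (x v))
        = (p - C (eval x p) - ∑ v, C (eval x (pderiv v p)) * (X v - C (x v)))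
          + (q - C (eval x q) - ∑ v, C (eval x (pderiv v q)) * (X v - C (x v))) := by
      simp only [map_add, add_mul, Finset.sum_add_distrib]; ring
    rw [this]; exact add_mem hp hq
  | mul_X p w hp =>
    have h1 : ∑ v, C (eval x (pderiv v (p * X w))) * (X v - C (x v))
        = C (x w) * ∑ v, C (eval x (pderiv v p)) * (X v - C (x v))
          + C (eval x p) * (X w - C (x w)) := by
      have : ∀ v, C (eval x (pderiv v (p * X w))) * (X v - C (x v))
          = C (x w) * (C (eval x (pderiv v p)) * (X v - C (x v)))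
            + (if v = w then C (eval x p) * (X w - C (x w)) else 0) := by
        intro v
        rw [Derivation.leibniz, pderiv_X]
        by_cases h : v = w
        · subst h; simp; ring
        · have h' : w ≠ v := fun e => h e.symm
          simp [h, h']; ring
      simp only [this, Finset.sum_add_distrib, Finset.sum_ite_eq', Finset.mem_univ, if_true,
        ← Finset.mul_sum]
    have h2 : p * X w - C (eval x (p * X w))
        - ∑ v, C (eval x (pderiv v (p * X w))) * (X v - C (x v))
        = C (x w) * (p - C (eval x p) - ∑ v, C (eval x (pderiv v p)) * (X v - C (x v)))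
          + (p - C (eval x p)) * (X w - C (x w)) := by
      rw [h1]; simp; ring
    rw [h2]
    refine add_mem (Ideal.mul_mem_left _ _ hp) ?_
    rw [pow_two]
    exact Ideal.mul_mem_mul (sub_C_mem x p) (X_sub_mem x w)

/-- The Jacobian matrix of a family of polynomials. -/
noncomputable def jac (Φ : ι → MvPolynomial ι R) : Matrix ι ι (MvPolynomial ι R) :=
  Matrix.of fun u v => pderiv v (Φ u)

lemma eval_det_jac (x : ι → R) (Φ : ι → MvPolynomial ι R) :
    eval x (jac Φ).det = (Matrix.of fun u v => eval x (pderiv v (Φ u))).det := by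
  rw [RingHom.map_det]; rfl

/-- If the Jacobian is a unit at `x`, the `Φ u - Φ u (x)` generate the ideal of `x`
modulo its square. -/
lemma gen_of_unit (x : ι → R) (Φ : ι → MvPolynomial ι R) (h : IsUnit (eval x (jac Φ).det)) :
    mx x ≤ Ideal.span (Set.range fun u => Φ u - C (eval x (Φ u))) ⊔ mx x ^ 2 := by
  rw [eval_det_jac] at h
  set A : Matrix ι ι R := Matrix.of fun u v => eval x (pderiv v (Φ u)) with hA
  have hinv : A⁻¹ * A = 1 := Matrix.nonsing_inv_mul A h
  set I := Ideal.span (Set.range fun u => Φ u - C (eval x (Φ u))) ⊔ mx x ^ 2 with hI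
  have key : ∀ u, ∑ v, C (A u v) * (X v - C (x v)) ∈ I := by
    intro u
    have h1 := taylor_one x (Φ u)
    have h2 : Φ u - C (eval x (Φ u)) ∈ I := Ideal.mem_sup_left (Ideal.subset_span ⟨u, rfl⟩)
    have h3 := sub_mem h2 (Ideal.mem_sup_right h1 : _ ∈ I)
    simpa [hA] using h3
  nth_rewrite 1 [mx]
  rw [Ideal.span_le]
  rintro _ ⟨w, rfl⟩
  have : X w - C (x w) = ∑ u, C (A⁻¹ w u) * ∑ v, C (A u v) * (X v - C (x v)) := by
    simp only [Finset.mul_sum, ← mul_assoc, ← C_mul]
    rw [Finset.sum_comm]
    simp only [← Finset.sum_mul, ← map_sum]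
    have h4 : ∀ v, ∑ u, A⁻¹ w u * A u v = (1 : Matrix ι ι R) w v := by
      intro v; rw [← hinv, Matrix.mul_apply]
    simp only [h4, Matrix.one_apply]
    rw [Finset.sum_eq_single w] <;> simp +contextual [eq_comm]
  show X w - C (x w) ∈ I
  rw [this]
  exact Ideal.sum_mem _ fun u _ => Ideal.mul_mem_left _ _ (key u)

omit [Fintype ι] [DecidableEq ι] in
/-- Homogeneous approximation in local coordinates. -/
lemma hom_approx {σ : Type} [Fintype σ] (x : ι → R) (f : σ → MvPolynomial ι R)
    (hf : ∀ u, f u ∈ mx x) (hg : mx x ≤ Ideal.span (Set.range f) ⊔ mx x ^ 2) :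
    ∀ (s : ℕ) (Q : MvPolynomial ι R), Q ∈ mx x ^ s →
      ∃ P : MvPolynomial σ R, P.IsHomogeneous s ∧ Q - aeval f P ∈ mx x ^ (s + 1) := by
  intro s
  induction s with
  | zero =>
    intro Q _
    refine ⟨C (eval x Q), isHomogeneous_C _ _, ?_⟩
    simpa using sub_C_mem x Q
  | succ s ih =>
    intro Q hQ
    rw [pow_succ'] at hQ
    refine Submodule.mul_induction_on hQ ?_ ?_
    · intro a ha b hb
      obtain ⟨a1, ha1, a2, ha2, rfl⟩ := Submodule.mem_sup.mp (hg ha)
      obtain ⟨c, rfl⟩ := Ideal.mem_span_range_iff_exists_fun.mp ha1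
      choose P hP1 hP2 using fun u => ih (c u * b) (Ideal.mul_mem_left _ _ hb)
      refine ⟨∑ u, X u * P u, ?_, ?_⟩
      · refine IsHomogeneous.sum _ _ _ fun u _ => ?_
        have := (isHomogeneous_X R u).mul (hP1 u)
        rwa [add_comm] at this
      · have : (∑ u, c u * f u + a2) * b - aeval f (∑ u, X u * P u)
            = ∑ u, f u * (c u * b - aeval f (P u)) + a2 * b := by
          simp only [map_sum, map_mul, aeval_X, mul_sub, Finset.sum_sub_distrib, add_mul,
            Finset.sum_mul]
          have : ∀ u, c u * f u * b = f u * (c u * b) := fun u => by ring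
          simp only [this]; ring
        rw [this]
        refine add_mem (Ideal.sum_mem _ fun u _ => ?_) ?_
        · rw [pow_succ' _ (s + 1)]; exact Ideal.mul_mem_mul (hf u) (hP2 u)
        · rw [show s + 1 + 1 = 2 + s by ring, pow_add]; exact Ideal.mul_mem_mul ha2 hb
    · rintro a b ⟨P, hP1, hP2⟩ ⟨P', hP1', hP2'⟩
      refine ⟨P + P', hP1.add hP1', ?_⟩
      have : a + b - aeval f (P + P') = (a - aeval f P) + (b - aeval f P') := by
        rw [map_add]; ring
      rw [this]; exact add_mem hP2 hP2'

omit [Fintype ι] [DecidableEq ι] in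
/-- Approximation by a polynomial of degree `< J` in local coordinates. -/
lemma approx {σ : Type} [Fintype σ] (x : ι → R) (f : σ → MvPolynomial ι R)
    (hf : ∀ u, f u ∈ mx x) (hg : mx x ≤ Ideal.span (Set.range f) ⊔ mx x ^ 2)
    (Q : MvPolynomial ι R) : ∀ J : ℕ,
      ∃ P : MvPolynomial σ R, (∀ α, J ≤ α.degree → P.coeff α = 0) ∧ Q - aeval f P ∈ mx x ^ J := by
  intro J
  induction J with
  | zero => exact ⟨0, by simp, by simp⟩
  | succ J ih =>
    obtain ⟨P, hP1, hP2⟩ := ih
    obtain ⟨P', hP1', hP2'⟩ := hom_approx x f hf hg J _ hP2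
    refine ⟨P + P', fun α hα => ?_, ?_⟩
    · rw [coeff_add, hP1 α (by omega), hP1'.coeff_eq_zero (by omega), add_zero]
    · have : Q - aeval f (P + P') = Q - aeval f P - aeval f P' := by rw [map_add]; ring
      rw [this]; exact hP2'

end Pool.Agent.Lib.MP_af4c59_nt.H11
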