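import Pool.Agent.Lib.MP_af4c59_nt.H11Good

/-!
The bound for the number of extensions of given degree and bounded discriminant.
-/

namespace Pool.Agent.Lib.MP_af4c59_nt.H11

open MvPolynomial Module NumberField
open scoped IntermediateField

theorem count_fields (K : Type) [Field K] [NumberField K] (n : ℕ) (hn : 2 ≤ n) :
    ∃ c : ℕ, ∀ ρ : ℕ, 1 ≤ ρ → ∀ S : Finset (IntermediateField K (AlgebraicClosure K)),
      (∀ L ∈ S, finrank K L = n ∧ ∃ _ : NumberField L,
        5 ^ (finrank ℚ K * n) * (discr L).natAbs < ρ ^ (finrank ℚ K * n)) →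
      S.card ≤ c * (ρ ^ (finrank ℚ K * n)) ^ (532 * Nat.clog 2 n) := by
  classical
  set Ω := AlgebraicClosure K with hΩ
  have : Algebra.IsAlgebraic ℚ Ω := Algebra.IsAlgebraic.trans ℚ K Ω
  have : IsAlgClosure ℚ Ω := ⟨inferInstance, inferInstance⟩
  have : IsGalois ℚ Ω := IsAlgClosure.isGalois ℚ Ω
  let ε : Ω →+* ℂ := (IsAlgClosed.lift : Ω →ₐ[ℚ] ℂ).toRingHom
  set r := Nat.clog 2 n with hr
  set dd := finrank ℚ K * n with hdd
  have hr1 : 0 < r := Nat.clog_pos (by norm_num) hn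
  have hdd1 : 0 < dd := Nat.mul_pos finrank_pos (by omega)
  let E := K →ₐ[ℚ] Ω
  let I := E × Fin n
  have hI : Fintype.card I = dd := by simp [I, E, hdd]
  set N := dd * r with hN
  have hN1 : 0 < N := Nat.mul_pos hdd1 hr1
  obtain ⟨θ, hθ1, hθ2⟩ := exists_gen (L := K) (Ω := Ω)
  let z : E → Ω := fun τ => τ θ
  obtain ⟨U, hU⟩ := exists_sep (ν := Fin n) z hθ2
  let l0 : Fin r := ⟨0, hr1⟩
  obtain ⟨Θ, hΘ0, hΘ⟩ := exists_theta (Ω := Ω) (E := E) (ν := Fin n) (σ := Fin r)
    (by simpa using Nat.le_pow_clog (by norm_num) n) l0 (16 * N)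
  obtain ⟨cθ, hc1, hc2⟩ : ∃ c : ℕ, 2 ≤ c ∧ ∀ τ, ‖ε (z τ)‖ ≤ c := by
    obtain ⟨c, hc⟩ := exists_nat_ge (∑ τ, ‖ε (z τ)‖)
    refine ⟨c + 2, by omega, fun τ => ?_⟩
    have := Finset.single_le_sum (f := fun τ => ‖ε (z τ)‖) (fun _ _ => norm_nonneg _)
      (Finset.mem_univ τ)
    push_cast
    linarith
  let d : Setup (I ⊕ I × Fin r) (Deg I U.totalDegree × Deg (I × Fin r) (33 * N)) Ω :=
    ⟨ε, kz I (Fin r), fam I (Fin r) U.totalDegree (33 * N), 33 * N, 16 * N,
      (Fintype.card I).factorial * cθ ^ U.totalDegree⟩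
  have hK0 : d.K0ᶜ.card = N := by
    simp [d, kz, Finset.card_compl, hI, hN]
  obtain ⟨c, hc⟩ := d.count (by show 1 ≤ 16 * N; omega) (by rw [hK0])
  set c1 := cθ + dd * Θ.totalDegree * 4 with hc1def
  refine ⟨dd * (c * c1 ^ (266 * N)), fun ρ hρ S hS => ?_⟩
  set H := c1 * ρ ^ 2 with hH
  have hρ2 : 1 ≤ ρ ^ 2 := Nat.one_le_pow _ _ hρ
  have hcH : cθ ≤ H := le_trans (by omega) (Nat.le_mul_of_pos_right c1 hρ2)
  have hpt : ∀ L ∈ S, ∃ x : I ⊕ I × Fin r → Ω, (∀ i, x (Sum.inl i) = z i.1) ∧ d.Gd H x ∧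
      ∃ i, K⟮x (Sum.inr (i, l0))⟯ = L := by
    intro L hL
    obtain ⟨h1, _, h2⟩ := hS L hL
    have hfr : finrank ℚ L = dd := by rw [hdd, ← h1, finrank_mul_finrank]
    obtain ⟨e, he⟩ := exists_index (Ω := Ω) h1
    obtain ⟨α, hα1, hα2⟩ := exists_good e e.injective (R := 4 * ρ ^ 2) (by positivity)
      (span_short (by rwa [hfr])) hΘ0
    obtain ⟨h3, h4⟩ := hΘ _ hα2
    let x : I ⊕ I × Fin r → Ω := Sum.elim (fun i => z i.1) fun p => e p.1 (α p.2)
    have hx1 : ∀ v, IsIntegral ℤ (x v) := by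
      rintro (i | p)
      · exact hθ1.map (i.1 : K →ₐ[ℚ] Ω).toRingHom.toIntAlgHom
      · exact (hα1 p.2).1.map (e p.1).toRingHom.toIntAlgHom
    have hx2 : ∀ p, ‖ε (x (Sum.inr p))‖ ≤ H := by
      intro p
      refine ((hα1 p.2).2 (ε.comp (e p.1).toRingHom)).trans ?_
      rw [hfr]
      have : dd * Θ.totalDegree * (4 * ρ ^ 2) ≤ H := by
        rw [hH, ← mul_assoc]; exact Nat.mul_le_mul_right _ (by omega)
      exact_mod_cast this
    have hx3 : ∀ g : Ω ≃ₐ[ℚ] Ω, ∃ π : Equiv.Perm I,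
        (∀ i, g (x (Sum.inl i)) = x (Sum.inl (π i))) ∧
        ∀ i l, g (x (Sum.inr (i, l))) = x (Sum.inr (π i, l)) := by
      intro g
      let π : Equiv.Perm I := (e.trans (AlgEquiv.arrowCongr AlgEquiv.refl g)).trans e.symm
      have hπ : ∀ i a, e (π i) a = g (e i a) := by intro i a; simp [π]
      refine ⟨π, fun i => ?_, fun i l => (hπ i _).symm⟩
      show g (i.1 θ) = (π i).1 θ
      rw [← he, ← he, hπ]
    refine ⟨x, fun _ => rfl, ⟨⟨hx1, ?_, fun g => ?_⟩, fun a => ?_, fun P => ?_⟩,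
      e.symm (L.val.restrictScalars ℚ), ?_⟩
    · rintro (i | p)
      · exact (hc2 i.1).trans (by exact_mod_cast hcH)
      · exact hx2 p
    · obtain ⟨π, h5, h6⟩ := hx3 g
      refine ⟨Equiv.sumCongr π (Equiv.prodCongr π (Equiv.refl _)), ?_⟩
      rintro (i | ⟨i, l⟩)
      · exact h5 i
      · exact h6 i l
    · exact fam_int ε (by omega) (by omega) x hx1 (fun i => hc2 i.1) hx2 hx3 a
    · exact span_jets hU x (fun _ => rfl) (j := 16 * N)
        (by rw [hI, Fintype.card_fin]; omega) h3 P _ le_rfl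
    · have : Module.Finite K L := Module.Finite.of_restrictScalars_finite ℚ K L
      have h5 : K⟮α l0⟯ = ⊤ := by
        rw [Field.primitive_element_iff_algHom_eq_of_eval' K Ω (fun _ => IsAlgClosed.splits _)]
        intro φ ψ h
        apply AlgHom.restrictScalars_injective ℚ
        apply e.symm.injective
        apply h4
        simpa using h
      have h6 := congrArg IntermediateField.lift h5
      rw [IntermediateField.lift_adjoin_simple, IntermediateField.lift_top] at h6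
      refine Eq.trans ?_ h6
      simp [x]
  choose! x hx1 hx2 hx3 using hpt
  have h1 := card_le_of_cover S (Finset.univ : Finset I)
    (fun L i => K⟮x L (Sum.inr (i, l0))⟯ = L) (c * H ^ (266 * N))
    (fun L hL => (hx3 L hL).imp fun i hi => ⟨Finset.mem_univ _, hi⟩) (by
      intro i _ S' hS'
      have hinj : Set.InjOn x S' := by
        intro L hL L' hL' h
        rw [← (hS' L hL).2, ← (hS' L' hL').2, h]
      rw [← Finset.card_image_of_injOn hinj]
      have h2 := hc H (by omega) (S'.image x) (by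
        intro y hy
        obtain ⟨L, hL, rfl⟩ := Finset.mem_image.mp hy
        exact hx2 L (hS' L hL).1) (by
        intro u hu y hy y' hy'
        obtain ⟨L, hL, rfl⟩ := Finset.mem_image.mp hy
        obtain ⟨L', hL', rfl⟩ := Finset.mem_image.mp hy'
        obtain ⟨i', -, rfl⟩ := Finset.mem_map.mp hu
        exact (hx1 L (hS' L hL).1 i').trans (hx1 L' (hS' L' hL').1 i').symm)
      rw [hK0] at h2
      convert h2 using 3
      show 266 * N = 8 * (33 * N) + 2 * N
      ring)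
  refine h1.trans (le_of_eq ?_)
  rw [Finset.card_univ, hI, hH, mul_pow, ← pow_mul, ← pow_mul, hN]
  ring

end Pool.Agent.Lib.MP_af4c59_nt.H11
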