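import Pool.Agent.Lib.MP_af4c59_nt.H11Inner
import Pool.Agent.Lib.MP_af4c59_nt.H11Det

/-!
One stage of the determinant method: halving the number of free coordinates.
-/

namespace Pool.Agent.Lib.MP_af4c59_nt.H11

open MvPolynomial

variable {ι A Ω : Type} [Fintype ι] [DecidableEq ι] [Fintype A] [Field Ω] [CharZero Ω]

open Classical in
/-- Lift of a point to a valuation subring. -/
noncomputable def lift (O : ValuationSubring Ω) (x : ι → Ω) : ι → O :=
  fun v => if h : x v ∈ O then ⟨x v, h⟩ else 0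

omit [Fintype ι] [DecidableEq ι] [CharZero Ω] in
lemma coe_aeval_lift (O : ValuationSubring Ω) {x : ι → Ω} (hx : ∀ v, x v ∈ O)
    (P : MvPolynomial ι ℤ) : ((aeval (lift O x) P : O) : Ω) = aeval x P := by
  have := ringHom_aeval O.subtype (lift O x) P
  simp only [ValuationSubring.coe_subtype] at this
  rw [this]
  congr 2
  funext v
  simp [lift, hx v]

omit [Fintype ι] [DecidableEq ι] [CharZero Ω] in
lemma aeval_lift_eq (O : ValuationSubring Ω) {x : ι → Ω} (hx : ∀ v, x v ∈ O)
    {P : MvPolynomial ι ℤ} {n : ℤ} (hn : (n : Ω) = aeval x P) : aeval (lift O x) P = (n : O) := by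
  apply Subtype.ext
  rw [coe_aeval_lift O hx, ← hn]; simp

namespace Setup

variable {d : Setup ι A Ω}

omit [Fintype A] in
lemma det_eq_zero {H B l m k p R : ℕ} (hR : R = (4 * l) ^ m) (hH : 2 ≤ H) (hp : p.Prime) (O : ValuationSubring Ω)
    (hO : ∀ β, IsIntegral ℤ β → β ∈ O) (hm : (p : O) ∈ IsLocalRing.maximalIdeal O)
    (hl : 1 ≤ l) (hm1 : 1 ≤ m) (hk1 : 1 ≤ k) (hk : 2 * d.T ≤ k * (l * m))
    (hpH : ((2 * R * d.cF) ^ 2 + 1) * H < p)
    {S : Finset (ι → Ω)} {Φ : ι → MvPolynomial ι ℤ} {K : Finset ι}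
    (hG : ∀ x ∈ S, d.Gd H x) (hF : d.Fr H B S Φ K) (hK : Kᶜ.card ≤ m)
    (hU : ∀ x ∈ S, IsUnit (aeval (lift O x) (jac Φ).det))
    (hr : ∀ x ∈ S, ∀ y ∈ S, ∀ v, lift O x v - lift O y v ∈ IsLocalRing.maximalIdeal O)
    (hc : ∀ x ∈ S, ∀ y ∈ S, ∀ u, aeval (lift O x) (Φ u) - aeval (lift O y) (Φ u)
      ∈ Ideal.span {(p : O) ^ k})
    (xs : Fin (2 * R) → ι → Ω) (as : Fin (2 * R) → A) (hxs : ∀ i, xs i ∈ S) :
    (Matrix.of fun i j => aeval (xs j) (d.F (as i))).det = 0 := by
  classical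
  have hR0 : 0 < R := hR ▸ pow_pos (by omega) _
  have hmem : ∀ x ∈ S, ∀ v, x v ∈ O := fun x hx v => hO _ ((hG x hx).1.1 v)
  obtain ⟨T, hT1, hT2⟩ := exists_monomials K l m hl hK
  let i0 : Fin (2 * R) := ⟨0, by omega⟩
  have h1 := det_mem (fun u => mp O (Φ u)) K (lift O (xs i0)) (fun j => lift O (xs j))
    (fun i => mp O (d.F (as i))) (Ideal.span {(p : O) ^ k}) (l * m)
    (by rw [eval_jac_mp]; exact hU _ (hxs i0)) (fun j v => hr _ (hxs j) _ (hxs i0) v)
    (fun j u => by rw [eval_map_int, eval_map_int]; exact hc _ (hxs j) _ (hxs i0) u)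
    (fun j u hu => by
      rw [eval_map_int, eval_map_int]
      apply Subtype.ext
      rw [coe_aeval_lift O (hmem _ (hxs j)), coe_aeval_lift O (hmem _ (hxs i0))]
      exact hF.const u hu _ (hxs j) _ (hxs i0)) T hT2
  choose n hn1 hn2 using fun j a => (hG (xs j) (hxs j)).2.1 a
  set Mz : Matrix (Fin (2 * R)) (Fin (2 * R)) ℤ := Matrix.of fun i j => n j (as i) with hMz
  have h2 : (Matrix.of fun i j => eval (lift O (xs j)) (mp O (d.F (as i)))).det
      = (Mz.det : O) := by
    have := RingHom.map_det (Int.castRingHom O) Mz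
    rw [eq_intCast] at this
    rw [this]
    congr 1
    refine Matrix.ext fun i j => ?_
    simp only [Matrix.of_apply, RingHom.mapMatrix_apply, Matrix.map_apply, hMz, eq_intCast]
    rw [eval_map_int, aeval_lift_eq O (hmem _ (hxs j)) (hn1 j (as i))]
  have h3 : (Matrix.of fun i j => aeval (xs j) (d.F (as i))).det = (Mz.det : Ω) := by
    have := RingHom.map_det (Int.castRingHom Ω) Mz
    rw [eq_intCast] at this
    rw [this]
    congr 1
    refine Matrix.ext fun i j => ?_
    simp [hMz, hn1]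
  rw [h2, Fintype.card_fin] at h1
  have h4 := Ideal.pow_le_pow_right (I := Ideal.span {(p : O) ^ k} ^ (l * m))
    (show R ≤ 2 * R - T.card by omega) h1
  rw [← pow_mul, Ideal.span_singleton_pow, ← pow_mul] at h4
  have h5 := dvd_of_mem hp hm _ _ h4
  have h6 := Matrix.det_le (A := Mz) (abv := AbsoluteValue.abs) (x := ((d.cF * H ^ d.T : ℕ) : ℤ))
    fun i j => by
      rw [AbsoluteValue.abs_apply, ← Int.natCast_natAbs]
      exact_mod_cast hn2 j (as i)
  rw [AbsoluteValue.abs_apply, ← Int.natCast_natAbs, Fintype.card_fin, nsmul_eq_mul] at h6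
  have h7 : Mz.det.natAbs ≤ (2 * R).factorial * (d.cF * H ^ d.T) ^ (2 * R) := by
    exact_mod_cast h6
  have h8 : (2 * R).factorial * (d.cF * H ^ d.T) ^ (2 * R) < p ^ (k * (l * m * R)) := by
    have h9 : 1 ≤ k * (l * m) := Nat.mul_pos hk1 (Nat.mul_pos hl hm1)
    have h10 : (2 * R * d.cF) ^ 2 * H ^ (2 * d.T) < p ^ (k * (l * m)) := by
      calc (2 * R * d.cF) ^ 2 * H ^ (2 * d.T)
          < ((2 * R * d.cF) ^ 2 + 1) * H ^ (2 * d.T) :=
            Nat.mul_lt_mul_of_pos_right (by omega) (pow_pos (by omega) _)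
        _ ≤ ((2 * R * d.cF) ^ 2 + 1) ^ (k * (l * m)) * H ^ (k * (l * m)) :=
            Nat.mul_le_mul (Nat.le_self_pow (by omega) _) (Nat.pow_le_pow_right (by omega) hk)
        _ = (((2 * R * d.cF) ^ 2 + 1) * H) ^ (k * (l * m)) := (mul_pow _ _ _).symm
        _ ≤ _ := Nat.pow_le_pow_left hpH.le _
    calc (2 * R).factorial * (d.cF * H ^ d.T) ^ (2 * R)
        ≤ (2 * R) ^ (2 * R) * (d.cF * H ^ d.T) ^ (2 * R) :=
          Nat.mul_le_mul_right _ (Nat.factorial_le_pow _)
      _ = ((2 * R * d.cF) ^ 2 * H ^ (2 * d.T)) ^ R := by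
          rw [← mul_pow, pow_mul]; congr 1; ring
      _ < (p ^ (k * (l * m))) ^ R := Nat.pow_lt_pow_left h10 (by omega)
      _ = _ := by rw [← pow_mul]; congr 1; ring
  have h11 : Mz.det = 0 := by
    by_contra h0
    have h12 : p ^ (k * (l * m * R)) ∣ Mz.det.natAbs := Int.natCast_dvd.mp (by exact_mod_cast h5)
    have := Nat.le_of_dvd (Int.natAbs_pos.mpr h0) h12
    omega
  rw [h3, h11, Int.cast_zero]

theorem stage [IsGalois ℚ Ω] {m E l k : ℕ} (h : d.Bd (m / 2) E) (hl : 1 ≤ l) (hm1 : 1 ≤ m)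
    (hk1 : 1 ≤ k) (hk : 2 * d.T ≤ k * (l * m)) (hj : 16 * l ^ 2 * m ≤ d.j) :
    d.Bd m (E + k * m) := by
  classical
  intro B
  set N := Fintype.card ι with hN
  set s := 2 * (4 * l) ^ m with hs
  obtain ⟨BF, -, hBF⟩ := exists_tame_family d.F
  set B2 := B + (s * (d.cF + d.T + BF) + s.factorial) with hB2
  obtain ⟨ci, hci⟩ := inner (b := 16 * l ^ 2 - 1) (s := s) h (m - m / 2) (by
    intro m' h1 h2
    have h3 : m' ≤ m := by omega
    have h4 : 1 ≤ l ^ 2 := Nat.one_le_pow _ _ hl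
    refine ⟨le_trans (Nat.mul_le_mul (by omega) h3) hj, ?_⟩
    rw [show 16 * l ^ 2 - 1 + 1 = (4 * l) ^ 2 by rw [mul_pow]; omega, ← pow_mul]
    calc s ≤ (4 * l) ^ (m + 1) := by rw [hs, pow_succ]; nlinarith [Nat.zero_le ((4 * l) ^ m)]
      _ ≤ _ := Nat.pow_le_pow_right (by omega) (by omega)) B2
  set E1 := 2 * fD N B * N.factorial with hE1
  set y0 := (s * d.cF) ^ 2 + 1 with hy0
  set Bz := (1 + B * N) ^ N with hBz
  refine ⟨(E1 + 1) * ((2 ^ (E1 + 1) * y0) ^ (k * m) * (Bz * ci)),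
    fun H hH S Φ K hG hF hK => ?_⟩
  have hy1 : H ≤ y0 * H := Nat.le_mul_of_pos_left _ (by omega)
  obtain ⟨P, hP1, hP2⟩ := exists_primes (y0 * H) (by omega) (E1 + 1)
  have main := card_le_of_cover S P (fun x p => ∃ (u : ℤ) (β : Ω), ¬ (p : ℤ) ∣ u ∧
      IsIntegral ℤ β ∧ (u : Ω) = aeval x (jac Φ).det * β)
    ((2 ^ (E1 + 1) * (y0 * H)) ^ (k * m) * (Bz * (ci * H ^ E))) (by
      intro x hx
      obtain ⟨u, h1, h2, β, h3, h4⟩ := exists_int_multiple hH (hG x hx).1
        (tame_jac hH hF.tame) (hF.det x hx)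
      obtain ⟨p, hp, h5⟩ := exists_not_dvd (H := H) (E := E1) (by omega) hP1
        (fun p hp => ⟨(hP2 p hp).1, lt_of_le_of_lt hy1 (hP2 p hp).2.1⟩) h1 h2
      exact ⟨p, hp, u, β, h5, h3, h4⟩) (by
      intro p hpP S1 hS1
      obtain ⟨hp, hp1, hp2⟩ := hP2 p hpP
      obtain ⟨O, hO, hm⟩ := exists_val Ω hp
      have hmem : ∀ x ∈ S, ∀ v, x v ∈ O := fun x hx v => hO _ ((hG x hx).1.1 v)
      have hU : ∀ x ∈ S1, IsUnit (aeval (lift O x) (jac Φ).det) := by
        intro x hx
        obtain ⟨hxS, u, β, h1, h2, h3⟩ := hS1 x hx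
        have h4 : (u : O) = aeval (lift O x) (jac Φ).det * ⟨β, hO β h2⟩ := by
          apply Subtype.ext
          simp [coe_aeval_lift O (hmem x hxS), h3]
        have h5 := isUnit_int hp hm h1
        rw [h4] at h5
        exact isUnit_of_mul_isUnit_left h5
      have : NeZero (p ^ k) := ⟨pow_ne_zero _ hp.ne_zero⟩
      have h2 := card_le_of_cover S1 (Finset.univ : Finset ({u // u ∉ K} → ZMod (p ^ k)))
        (fun x c => ∀ u : {u // u ∉ K}, ∃ n : ℤ, (n : Ω) = aeval x (Φ u) ∧ (n : ZMod (p ^ k)) = c u)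
        (Bz * (ci * H ^ E)) (by
          intro x hx
          choose n hn using fun u : {u // u ∉ K} => hF.int u u.2 x (hS1 x hx).1
          exact ⟨fun u => n u, Finset.mem_univ _, fun u => ⟨n u, hn u, rfl⟩⟩) (by
          intro c _ S2 hS2
          have hSS : ∀ x ∈ S2, x ∈ S := fun x hx => (hS1 x (hS2 x hx).1).1
          have hc : ∀ x ∈ S2, ∀ y ∈ S2, ∀ u, aeval (lift O x) (Φ u) - aeval (lift O y) (Φ u)
              ∈ Ideal.span {(p : O) ^ k} := by
            intro x hx y hy u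
            by_cases hu : u ∈ K
            · have : aeval (lift O x) (Φ u) = aeval (lift O y) (Φ u) := by
                apply Subtype.ext
                rw [coe_aeval_lift O (hmem _ (hSS x hx)), coe_aeval_lift O (hmem _ (hSS y hy))]
                exact hF.const u hu _ (hSS x hx) _ (hSS y hy)
              rw [this, sub_self]; exact zero_mem _
            · obtain ⟨n1, h3, h4⟩ := (hS2 x hx).2 ⟨u, hu⟩
              obtain ⟨n2, h5, h6⟩ := (hS2 y hy).2 ⟨u, hu⟩
              rw [aeval_lift_eq O (hmem _ (hSS x hx)) h3, aeval_lift_eq O (hmem _ (hSS y hy)) h5]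
              obtain ⟨t, ht⟩ := (ZMod.intCast_eq_intCast_iff_dvd_sub n2 n1 (p ^ k)).mp
                (h6.trans h4.symm)
              refine Ideal.mem_span_singleton'.mpr ⟨t, ?_⟩
              have := congrArg (Int.cast : ℤ → O) ht
              push_cast at this
              rw [this, mul_comm]
          let r : (ι → Ω) → ι → IsLocalRing.ResidueField O :=
            fun x v => IsLocalRing.residue O (lift O x v)
          have hZ : (S2.image r).card ≤ Bz := by
            rcases S2.eq_empty_or_nonempty with rfl | ⟨x0, hx0⟩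
            · simp
            refine bezout (fun u => mp _ (Φ u)) B
              (fun u => (totalDegree_mp_le _).trans (hF.tame u).1)
              (fun u => aeval (r x0) (Φ u)) _ fun z hz => ?_
            obtain ⟨x, hx, rfl⟩ := Finset.mem_image.mp hz
            refine ⟨fun u => ?_, ?_⟩
            · have e0 : aeval (r x0) (Φ u) = IsLocalRing.residue O (aeval (lift O x0) (Φ u)) :=
                (ringHom_aeval (IsLocalRing.residue O) (lift O x0) _).symm
              rw [eval_map_int, ← ringHom_aeval (IsLocalRing.residue O) (lift O x), e0,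
                ← sub_eq_zero, ← map_sub, IsLocalRing.residue_eq_zero_iff]
              refine (Ideal.span_le.mpr ?_) (hc x hx x0 hx0 u)
              rintro _ rfl
              exact Ideal.pow_mem_of_mem _ hm _ hk1
            · rw [eval_jac_mp, ← ringHom_aeval]
              exact ((hU x (hS2 x hx).1).map _).ne_zero
          refine (card_le_of_cover S2 (S2.image r) (fun x z => r x = z) (ci * H ^ E)
            (fun x hx => ⟨r x, Finset.mem_image_of_mem _ hx, rfl⟩) ?_).trans
            (Nat.mul_le_mul_right _ hZ)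
          intro z _ S3 hS3
          have hSS3 : ∀ x ∈ S3, x ∈ S := fun x hx => hSS x (hS3 x hx).1
          have hG3 : ∀ x ∈ S3, d.Gd H x := fun x hx => hG x (hSS3 x hx)
          obtain ⟨ρ, hρ, hL⟩ := lr_of_det (s := s) hH (hBF H hH) S3 hG3
            (det_eq_zero rfl hH hp O hO hm hl hm1 hk1 hk hp1 hG3 (hF.mono hH le_rfl hSS3) hK
              (fun x hx => hU x (hS2 x (hS3 x hx).1).1)
              (fun x hx y hy v => by
                rw [← IsLocalRing.residue_eq_zero_iff, map_sub, sub_eq_zero]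
                exact congrFun ((hS3 x hx).2.trans (hS3 y hy).2.symm) v)
              (fun x hx y hy => hc x (hS3 x hx).1 y (hS3 y hy).1))
          exact hci H hH S3 Φ K ρ hρ hG3 (hF.mono hH (by omega) hSS3)
            (hL.mono hH (by omega) fun _ hx => hx) (by omega))
      refine h2.trans (Nat.mul_le_mul_right _ ?_)
      have hcard : Fintype.card {u // u ∉ K} = Kᶜ.card := by
        simp [Fintype.card_subtype_compl, Finset.card_compl]
      rw [Finset.card_univ, Fintype.card_fun, ZMod.card, hcard, ← pow_mul]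
      calc p ^ (k * Kᶜ.card) ≤ p ^ (k * m) :=
            Nat.pow_le_pow_right hp.pos (Nat.mul_le_mul_left _ hK)
        _ ≤ _ := Nat.pow_le_pow_left hp2 _)
  refine main.trans (le_of_eq ?_)
  rw [hP1, ← mul_assoc (2 ^ (E1 + 1)), mul_pow, pow_add H]
  ring

end Setup

end Pool.Agent.Lib.MP_af4c59_nt.H11
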