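import Pool.Agent.Lib.MP_af4c59_nt.H11Der

/-!
Degree and height bookkeeping for integer polynomials.
-/

namespace Pool.Agent.Lib.MP_af4c59_nt.H11

open MvPolynomial

variable {ι : Type}

/-- Sum of the absolute values of the coefficients. -/
noncomputable def l1 (P : MvPolynomial ι ℤ) : ℕ := ∑ μ ∈ P.support, (P.coeff μ).natAbs

lemma l1_eq (P : MvPolynomial ι ℤ) (s : Finset (ι →₀ ℕ)) (h : P.support ⊆ s) :
    l1 P = ∑ μ ∈ s, (P.coeff μ).natAbs :=
  Finset.sum_subset h fun μ _ hμ => by rw [notMem_support_iff.mp hμ]; rfl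

lemma l1_add_le (P Q : MvPolynomial ι ℤ) : l1 (P + Q) ≤ l1 P + l1 Q := by
  classical
  rw [l1_eq (P + Q) _ support_add, l1_eq P _ Finset.subset_union_left,
    l1_eq Q _ Finset.subset_union_right, ← Finset.sum_add_distrib]
  exact Finset.sum_le_sum fun μ _ => by rw [coeff_add]; exact Int.natAbs_add_le _ _

lemma l1_zero : l1 (0 : MvPolynomial ι ℤ) = 0 := by simp [l1]

lemma l1_sum_le {α : Type} (s : Finset α) (P : α → MvPolynomial ι ℤ) :
    l1 (∑ a ∈ s, P a) ≤ ∑ a ∈ s, l1 (P a) := by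
  classical
  induction s using Finset.induction_on with
  | empty => simp [l1_zero]
  | insert a s ha ih =>
    rw [Finset.sum_insert ha, Finset.sum_insert ha]
    exact (l1_add_le _ _).trans (by omega)

lemma l1_monomial (μ : ι →₀ ℕ) (a : ℤ) : l1 (monomial μ a) = a.natAbs := by
  classical
  rw [l1_eq _ {μ} support_monomial_subset]
  simp

lemma l1_mul_le (P Q : MvPolynomial ι ℤ) : l1 (P * Q) ≤ l1 P * l1 Q := by
  conv_lhs => rw [P.as_sum, Q.as_sum, Finset.sum_mul_sum]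
  refine (l1_sum_le _ _).trans ?_
  rw [l1, l1, Finset.sum_mul_sum]
  refine Finset.sum_le_sum fun μ _ => (l1_sum_le _ _).trans (Finset.sum_le_sum fun ν _ => ?_)
  rw [monomial_mul, l1_monomial, Int.natAbs_mul]

lemma l1_pderiv_le (v : ι) (P : MvPolynomial ι ℤ) : l1 (pderiv v P) ≤ l1 P * P.totalDegree := by
  conv_lhs => rw [P.as_sum, map_sum]
  refine (l1_sum_le _ _).trans ?_
  rw [l1, Finset.sum_mul]
  refine Finset.sum_le_sum fun μ hμ => ?_
  rw [pderiv_monomial, l1_monomial, Int.natAbs_mul, Int.natAbs_natCast]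
  exact Nat.mul_le_mul_left _ ((monomial_le_degreeOf v hμ).trans (degreeOf_le_totalDegree P v))

lemma totalDegree_pderiv_le' {R : Type} [CommRing R] (v : ι) (P : MvPolynomial ι R) :
    (pderiv v P).totalDegree ≤ P.totalDegree := by
  conv_lhs => rw [P.as_sum, map_sum]
  refine (totalDegree_finsetSum _ _).trans (Finset.sup_le fun μ hμ => ?_)
  rw [pderiv_monomial]
  refine (totalDegree_monomial_le _ _).trans (le_trans ?_ (le_totalDegree hμ))
  exact Finsupp.degree_mono (tsub_le_self : μ - Finsupp.single v 1 ≤ μ)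

/-- Degree at most `B` and height at most `H ^ B`. -/
def Tame (H B : ℕ) (P : MvPolynomial ι ℤ) : Prop := P.totalDegree ≤ B ∧ l1 P ≤ H ^ B

variable {H : ℕ}

lemma le_pow_self (hH : 2 ≤ H) (n : ℕ) : n ≤ H ^ n :=
  (Nat.lt_two_pow_self).le.trans (Nat.pow_le_pow_left hH n)

lemma Tame.mono (hH : 2 ≤ H) {B B' : ℕ} {P : MvPolynomial ι ℤ} (h : Tame H B P) (hB : B ≤ B') :
    Tame H B' P :=
  ⟨h.1.trans hB, h.2.trans (Nat.pow_le_pow_right (by omega) hB)⟩

lemma Tame.mul {B B' : ℕ} {P Q : MvPolynomial ι ℤ} (h : Tame H B P) (h' : Tame H B' Q) :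
    Tame H (B + B') (P * Q) :=
  ⟨(totalDegree_mul _ _).trans (add_le_add h.1 h'.1),
    (l1_mul_le _ _).trans (by rw [pow_add]; exact Nat.mul_le_mul h.2 h'.2)⟩

lemma tame_C {B : ℕ} {a : ℤ} (h : a.natAbs ≤ H ^ B) : Tame H B (C a : MvPolynomial ι ℤ) :=
  ⟨by rw [totalDegree_C]; omega, by rw [← monomial_zero', l1_monomial]; exact h⟩

lemma tame_X (hH : 2 ≤ H) (v : ι) : Tame H 1 (X v : MvPolynomial ι ℤ) :=
  ⟨by simp [totalDegree_X], by rw [X, l1_monomial]; simp; omega⟩

lemma Tame.pderiv (hH : 2 ≤ H) {B : ℕ} {P : MvPolynomial ι ℤ} (h : Tame H B P) (v : ι) :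
    Tame H (2 * B) (pderiv v P) :=
  ⟨(totalDegree_pderiv_le' v P).trans (by have := h.1; omega), (l1_pderiv_le v P).trans (by
    rw [two_mul, pow_add]
    exact Nat.mul_le_mul h.2 (h.1.trans (le_pow_self hH B)))⟩

lemma tame_sum (hH : 2 ≤ H) {α : Type} (s : Finset α) {B : ℕ} (P : α → MvPolynomial ι ℤ)
    (h : ∀ a ∈ s, Tame H B (P a)) : Tame H (B + s.card) (∑ a ∈ s, P a) := by
  refine ⟨(totalDegree_finsetSum _ _).trans (Finset.sup_le fun a ha => ?_),
    (l1_sum_le _ _).trans ?_⟩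
  · have := (h a ha).1; omega
  · refine (Finset.sum_le_card_nsmul _ _ _ fun a ha => (h a ha).2).trans ?_
    rw [smul_eq_mul, pow_add, mul_comm]
    exact Nat.mul_le_mul_left _ (le_pow_self hH _)

lemma tame_prod {α : Type} (s : Finset α) {B : ℕ} (P : α → MvPolynomial ι ℤ)
    (h : ∀ a ∈ s, Tame H B (P a)) : Tame H (s.card * B) (∏ a ∈ s, P a) := by
  classical
  induction s using Finset.induction_on with
  | empty => simpa using (tame_C (ι := ι) (H := H) (B := 0) (a := 1) (by simp))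
  | insert a s ha ih =>
    rw [Finset.prod_insert ha, Finset.card_insert_of_notMem ha, add_mul, one_mul, add_comm]
    exact (h a (Finset.mem_insert_self _ _)).mul
      (ih fun b hb => h b (Finset.mem_insert_of_mem hb))

lemma tame_det (hH : 2 ≤ H) {n : Type} [Fintype n] [DecidableEq n] {B : ℕ}
    (M : Matrix n n (MvPolynomial ι ℤ)) (h : ∀ i j, Tame H B (M i j)) :
    Tame H (Fintype.card n * B + (Fintype.card n).factorial) M.det := by
  rw [Matrix.det_apply']
  have := tame_sum hH Finset.univ (B := Fintype.card n * B)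
    (fun σ : Equiv.Perm n => ((Equiv.Perm.sign σ : ℤ) : MvPolynomial ι ℤ) * ∏ i, M (σ i) i)
    (fun σ _ => by
      have h1 : Tame H 0 (C ((Equiv.Perm.sign σ : ℤ)) : MvPolynomial ι ℤ) :=
        tame_C (by simp)
      have h2 := h1.mul (tame_prod Finset.univ (fun i => M (σ i) i) fun i _ => h _ _)
      simpa using h2)
  simpa [Fintype.card_perm] using this

lemma Tame.norm_aeval_le (hH : 2 ≤ H) {B : ℕ} {P : MvPolynomial ι ℤ} (h : Tame H B P)
    (x : ι → ℂ) (hx : ∀ v, ‖x v‖ ≤ H) : ‖aeval x P‖ ≤ (H : ℝ) ^ (2 * B) := by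
  have hH' : (1 : ℝ) ≤ H := by exact_mod_cast (by omega : 1 ≤ H)
  conv_lhs => rw [P.as_sum, map_sum]
  refine (norm_sum_le _ _).trans ?_
  calc ∑ μ ∈ P.support, ‖aeval x (monomial μ (coeff μ P))‖
      ≤ ∑ μ ∈ P.support, ((P.coeff μ).natAbs : ℝ) * (H : ℝ) ^ B := by
        refine Finset.sum_le_sum fun μ hμ => ?_
        rw [aeval_monomial, norm_mul]
        refine mul_le_mul (by simp) ?_ (norm_nonneg _) (Nat.cast_nonneg _)
        rw [Finsupp.prod, norm_prod]
        calc ∏ v ∈ μ.support, ‖x v ^ μ v‖ ≤ ∏ v ∈ μ.support, (H : ℝ) ^ μ v :=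
              Finset.prod_le_prod (fun _ _ => norm_nonneg _) fun v _ => by
                rw [norm_pow]; exact pow_le_pow_left₀ (norm_nonneg _) (hx v) _
          _ = (H : ℝ) ^ (∑ v ∈ μ.support, μ v) := Finset.prod_pow_eq_pow_sum _ _ _
          _ ≤ _ := pow_le_pow_right₀ hH' ((le_totalDegree hμ).trans h.1)
    _ = (l1 P : ℝ) * (H : ℝ) ^ B := by rw [← Finset.sum_mul, l1]; push_cast; rfl
    _ ≤ (H : ℝ) ^ B * (H : ℝ) ^ B := by
        refine mul_le_mul_of_nonneg_right ?_ (by positivity)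
        exact_mod_cast h.2
    _ = _ := by rw [← pow_add, two_mul]

lemma exists_tame (P : MvPolynomial ι ℤ) : ∃ B, ∀ H, 2 ≤ H → Tame H B P :=
  ⟨P.totalDegree + l1 P, fun _ hH => ⟨by omega,
    (le_pow_self hH _).trans (Nat.pow_le_pow_right (by omega) (by omega))⟩⟩

lemma exists_tame_family {A : Type} [Fintype A] (P : A → MvPolynomial ι ℤ) :
    ∃ B, 1 ≤ B ∧ ∀ H, 2 ≤ H → ∀ a, Tame H B (P a) := by
  choose B hB using fun a => exists_tame (P a)
  exact ⟨∑ a, B a + 1, by omega, fun H hH a => (hB a H hH).mono hH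
    ((Finset.single_le_sum (f := B) (fun _ _ => Nat.zero_le _) (Finset.mem_univ a)).trans
      (by omega))⟩

variable [Fintype ι] [DecidableEq ι]

/-- Growth of the bound under one Jacobian determinant. -/
def fD (N B : ℕ) : ℕ := N * (2 * B) + N.factorial + B

lemma le_fD (N B : ℕ) : B ≤ fD N B := by unfold fD; omega

lemma le_fD_iter (N j B : ℕ) : B ≤ (fD N)^[j] B := by
  induction j with
  | zero => simp
  | succ j ih => rw [Function.iterate_succ_apply']; exact ih.trans (le_fD _ _)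

lemma tame_jac (hH : 2 ≤ H) {B : ℕ} {Φ : ι → MvPolynomial ι ℤ} (h : ∀ u, Tame H B (Φ u)) :
    Tame H (fD (Fintype.card ι) B) (jac Φ).det :=
  (tame_det hH (jac Φ) fun u v => (h u).pderiv hH v).mono hH (by unfold fD; omega)

omit [Fintype ι] in
lemma tame_update {B : ℕ} {Φ : ι → MvPolynomial ι ℤ} (h : ∀ u, Tame H B (Φ u)) (w : ι)
    {P : MvPolynomial ι ℤ} (hP : Tame H B P) : ∀ u, Tame H B (Function.update Φ w P u) := by
  intro u
  by_cases hu : u = w
  · subst hu; simpa using hP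
  · simpa [hu] using h u

lemma tame_D (hH : 2 ≤ H) {B : ℕ} {Φ : ι → MvPolynomial ι ℤ} (h : ∀ u, Tame H B (Φ u)) (w : ι)
    {P : MvPolynomial ι ℤ} (hP : Tame H B P) : Tame H (fD (Fintype.card ι) B) (D Φ w P) := by
  rw [D_eq_det]; exact tame_jac hH (tame_update h w hP)

lemma tame_Dl (hH : 2 ≤ H) {Φ : ι → MvPolynomial ι ℤ} :
    ∀ (l : List ι) (j B : ℕ) (P : MvPolynomial ι ℤ), l.length ≤ j → (∀ u, Tame H B (Φ u)) →
      Tame H B P → Tame H ((fD (Fintype.card ι))^[j] B) (Dl Φ l P)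
  | [], j, B, P, _, _, hP => hP.mono hH (le_fD_iter _ _ _)
  | w :: l, j, B, P, hl, h, hP => by
    obtain ⟨j, rfl⟩ : ∃ t, j = t + 1 := ⟨j - 1, by simp at hl; omega⟩
    rw [Dl_cons, Function.iterate_succ_apply]
    exact tame_Dl hH l j _ _ (by simpa using hl) (fun u => (h u).mono hH (le_fD _ _))
      (tame_D hH h w hP)

end Pool.Agent.Lib.MP_af4c59_nt.H11
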