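import Pool.Agent.Lib.MP_af4c59_nt.H32Defs

set_option autoImplicit false

namespace Pool.Agent.Lib.MP_af4c59_nt.H32

open NumberField Module IsDedekindDomain

namespace ConicA

theorem split {P : ℤ} (hP : Prime P) (k : ℕ) (l : ℤ) :
    ∃ s ≤ k, (s = k ∧ P ^ k ∣ l) ∨ (s < k ∧ ∃ l', l = P ^ s * l' ∧ ¬ P ∣ l') := by
  by_cases h : P ^ k ∣ l
  · exact ⟨k, le_rfl, Or.inl ⟨rfl, h⟩⟩
  · have h0 : l ≠ 0 := by rintro rfl; exact h (dvd_zero _)
    obtain ⟨n, l', h1, h2⟩ := WfDvdMonoid.max_power_factor' h0 hP.not_isUnit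
    have hn : n < k := by
      by_contra hc
      exact h (h2 ▸ (pow_dvd_pow P (not_lt.1 hc)).mul_right l')
    exact ⟨n, hn.le, Or.inr ⟨hn, l', h2, h1⟩⟩

theorem exp_le {P x y : ℤ} (hP : Prime P) {i j : ℕ} (h : P ^ i * x = P ^ j * y) (hx : ¬ P ∣ x) :
    j ≤ i := by
  by_contra hc
  obtain ⟨d, rfl⟩ := Nat.exists_eq_add_of_lt (not_le.1 hc)
  refine hx ⟨P ^ d * y, mul_left_cancel₀ (pow_ne_zero i hP.ne_zero) ?_⟩
  rw [h]
  ring

theorem large {P o : ℤ} (hP : Prime P) {v k : ℕ} (h : P ^ v ∣ o ^ 2) (hk : 2 * k ≤ v + 1) :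
    P ^ k ∣ o := by
  obtain ⟨s, -, ⟨-, h1⟩ | ⟨h1, o', rfl, h2⟩⟩ := split hP k o
  · exact h1
  · exfalso
    obtain ⟨y, hy⟩ := h
    have e : P ^ (2 * s) * o' ^ 2 = P ^ v * y := by rw [← hy]; ring
    have := exp_le hP e fun h3 => h2 (hP.dvd_of_dvd_pow h3)
    omega

theorem small {P a g D l m o : ℤ} (hP : Prime P) {γ s j : ℕ} (ha : ¬ P ∣ a) (hg : ¬ P ∣ g)
    (hl : ¬ P ∣ l)
    (h : a * o ^ 2 = P ^ γ * g * ((P ^ s * l) ^ 2 - P ^ (2 * s + (j + 1)) * D * m ^ 2)) :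
    ∃ t o', o = P ^ t * o' ∧ ¬ P ∣ o' ∧ 2 * t = γ + 2 * s ∧ P ^ (j + 1) ∣ a * o' ^ 2 - g * l ^ 2 := by
  have hn : ¬ P ∣ g * (l ^ 2 - P ^ (j + 1) * D * m ^ 2) := by
    intro h1
    rcases hP.dvd_or_dvd h1 with h2 | h2
    · exact hg h2
    · refine hl (hP.dvd_of_dvd_pow (n := 2) ?_)
      have h3 : P ∣ P ^ (j + 1) * D * m ^ 2 := ⟨P ^ j * D * m ^ 2, by ring⟩
      simpa using h2.add h3
  have e0 : a * o ^ 2 = P ^ (γ + 2 * s) * (g * (l ^ 2 - P ^ (j + 1) * D * m ^ 2)) := by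
    rw [h]; ring
  have h0 : o ≠ 0 := by
    rintro rfl
    have : g * (l ^ 2 - P ^ (j + 1) * D * m ^ 2) = 0 := by
      refine (mul_eq_zero.1 ?_).resolve_left (pow_ne_zero (γ + 2 * s) hP.ne_zero)
      rw [← e0]; ring
    exact hn (this ▸ dvd_zero P)
  obtain ⟨t, o', h1, rfl⟩ := WfDvdMonoid.max_power_factor' h0 hP.not_isUnit
  have e1 : P ^ (2 * t) * (a * o' ^ 2)
      = P ^ (γ + 2 * s) * (g * (l ^ 2 - P ^ (j + 1) * D * m ^ 2)) := by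
    rw [← e0]; ring
  have h2 : ¬ P ∣ a * o' ^ 2 := fun h3 =>
    (hP.dvd_or_dvd h3).elim ha fun h4 => h1 (hP.dvd_of_dvd_pow h4)
  have e2 : 2 * t = γ + 2 * s := le_antisymm (exp_le hP e1.symm hn) (exp_le hP e1 h2)
  rw [e2] at e1
  have e3 := mul_left_cancel₀ (pow_ne_zero _ hP.ne_zero) e1
  exact ⟨t, o', rfl, h1, e2, -(g * D * m ^ 2), by rw [e3]; ring⟩

theorem dich {P A B u : ℤ} (hP : Prime P) {j : ℕ} (h : P ^ j ∣ A * B) (e : A + B = 2 * u)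
    (hu : ¬ P ∣ u) : P ^ j ∣ 2 * A ∨ P ^ j ∣ 2 * B := by
  by_cases hA : P ∣ A
  swap
  · exact Or.inr ((hP.pow_dvd_of_dvd_mul_left j hA h).mul_left 2)
  by_cases hB : P ∣ B
  swap
  · exact Or.inl ((hP.pow_dvd_of_dvd_mul_right j hB h).mul_left 2)
  have h2 : P ∣ 2 := (hP.dvd_or_dvd (e ▸ hA.add hB)).resolve_right hu
  have h3 : (2 : ℤ) ∣ P := (hP.associated_of_dvd Int.prime_two h2).symm.dvd
  obtain ⟨A', rfl⟩ := h3.trans hA
  obtain ⟨B', rfl⟩ := h3.trans hB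
  have e' : A' + B' = u := by linarith
  by_cases hA' : P ∣ A'
  · have hB' : ¬ P ∣ B' := fun hB' => hu (e' ▸ hA'.add hB')
    left
    refine hP.pow_dvd_of_dvd_mul_right j hB' ?_
    rwa [show 2 * (2 * A') * B' = 2 * A' * (2 * B') by ring]
  · right
    refine hP.pow_dvd_of_dvd_mul_left j hA' ?_
    rwa [show A' * (2 * (2 * B')) = 2 * A' * (2 * B') by ring]

/-- choice of a reference point in every class -/
theorem types {X S : Type} (On : X → Prop) (s : X → S) (R R' : X → X → Prop)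
    (h1 : ∀ x y, On x → On y → s x = s y → R x y ∨ R' x y)
    (h2 : ∀ x y r, On x → On y → On r → s x = s r → s y = s r →
      (R x r ∧ R y r) ∨ (R' x r ∧ R' y r) → R x y) :
    ∃ t : X → S × Bool, ∀ x y, On x → On y → t x = t y → R x y := by
  classical
  rcases isEmpty_or_nonempty X with hX | hX
  · exact ⟨fun x => (s x, true), fun x => isEmptyElim x⟩
  have hr : ∀ i : S, ∃ r, (∃ x, On x ∧ s x = i) → On r ∧ s r = i := fun i => by
    by_cases h : ∃ x, On x ∧ s x = i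
    · obtain ⟨x, hx⟩ := h
      exact ⟨x, fun _ => hx⟩
    · exact ⟨Classical.arbitrary X, fun h' => absurd h' h⟩
  choose r hr using hr
  refine ⟨fun x => (s x, decide (R x (r (s x)))), fun x y hx hy h => ?_⟩
  obtain ⟨e1, e2⟩ := Prod.mk.inj h
  obtain ⟨r1, r2⟩ := hr (s x) ⟨x, hx, rfl⟩
  rw [← e1, decide_eq_decide] at e2
  refine h2 x y (r (s x)) hx hy r1 r2.symm (e1.symm.trans r2.symm) ?_
  by_cases hR : R x (r (s x))
  · exact Or.inl ⟨hR, e2.1 hR⟩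
  · exact Or.inr ⟨(h1 _ _ hx r1 r2.symm).resolve_left hR,
      (h1 _ _ hy r1 (e1.symm.trans r2.symm)).resolve_left fun h' => hR (e2.2 h')⟩

/-- the diagonal conic `a o ^ 2 = g (l ^ 2 - D m ^ 2)` -/
theorem diag {P a g D : ℤ} (hP : Prime P) (ha : ¬ P ∣ a) (hg : g ≠ 0) {v : ℕ} (hv : P ^ v ∣ D) :
    ∃ t : ℤ × ℤ × ℤ → Fin (v + 1) × Bool, ∀ x y : ℤ × ℤ × ℤ,
      a * x.2.2 ^ 2 = g * (x.1 ^ 2 - D * x.2.1 ^ 2) →
      a * y.2.2 ^ 2 = g * (y.1 ^ 2 - D * y.2.1 ^ 2) → t x = t y →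
      P ^ v ∣ 2 * (x.1 * y.2.2 - y.1 * x.2.2) := by
  obtain ⟨γ, g', hg', rfl⟩ := WfDvdMonoid.max_power_factor' hg hP.not_isUnit
  obtain ⟨D', rfl⟩ := hv
  choose s hs hs' using split hP ((v + 1) / 2)
  have hL : ∀ x y : ℤ × ℤ × ℤ,
      a * x.2.2 ^ 2 = P ^ γ * g' * (x.1 ^ 2 - P ^ v * D' * x.2.1 ^ 2) →
      a * y.2.2 ^ 2 = P ^ γ * g' * (y.1 ^ 2 - P ^ v * D' * y.2.1 ^ 2) →
      P ^ ((v + 1) / 2) ∣ x.1 → P ^ ((v + 1) / 2) ∣ y.1 →
      P ^ v ∣ 2 * (x.1 * y.2.2 - y.1 * x.2.2) := by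
    have hpw : P ^ v ∣ P ^ ((v + 1) / 2) * P ^ ((v + 1) / 2) := by
      rw [← pow_add]
      exact pow_dvd_pow P (by omega)
    have ho : ∀ x : ℤ × ℤ × ℤ,
        a * x.2.2 ^ 2 = P ^ γ * g' * (x.1 ^ 2 - P ^ v * D' * x.2.1 ^ 2) →
        P ^ ((v + 1) / 2) ∣ x.1 → P ^ ((v + 1) / 2) ∣ x.2.2 := by
      intro x hx h
      refine large hP (v := v) (hP.pow_dvd_of_dvd_mul_left v ha ?_) (by omega)
      rw [hx]
      refine Dvd.dvd.mul_left (dvd_sub ?_ ⟨D' * x.2.1 ^ 2, by ring⟩) _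
      rw [sq]
      exact hpw.trans (mul_dvd_mul h h)
    intro x y hx hy h1 h2
    exact Dvd.dvd.mul_left (dvd_sub (hpw.trans (mul_dvd_mul h1 (ho y hy h2)))
      (hpw.trans (mul_dvd_mul h2 (ho x hx h1)))) 2
  have hS : ∀ x : ℤ × ℤ × ℤ,
      a * x.2.2 ^ 2 = P ^ γ * g' * (x.1 ^ 2 - P ^ v * D' * x.2.1 ^ 2) →
      ∀ i, s x.1 = i → i < (v + 1) / 2 → ∀ j, v = 2 * i + (j + 1) →
      ∃ l o, x.1 = P ^ i * l ∧ x.2.2 = P ^ (γ / 2 + i) * o ∧ ¬ P ∣ l ∧ ¬ P ∣ o ∧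
        P ^ (j + 1) ∣ a * o ^ 2 - g' * l ^ 2 := by
    rintro x hx i rfl hi j hj
    obtain ⟨h1, -⟩ | ⟨-, l, h1, h2⟩ := hs' x.1
    · omega
    · have hx' := hx
      rw [hj] at hx'
      generalize s x.1 = i at *
      rw [h1] at hx'
      obtain ⟨t, o, e1, e2, e3, e4⟩ := small hP ha hg' h2 hx'
      obtain rfl : t = γ / 2 + i := by omega
      exact ⟨l, o, h1, e1, h2, e2, e4⟩
  have hbig : ∀ l, ¬ s l < (v + 1) / 2 → P ^ ((v + 1) / 2) ∣ l := fun l h =>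
    (hs' l).elim (fun h' => h'.2) fun h' => absurd h'.1 h
  refine types (fun x : ℤ × ℤ × ℤ =>
      a * x.2.2 ^ 2 = P ^ γ * g' * (x.1 ^ 2 - P ^ v * D' * x.2.1 ^ 2))
    (fun x => (⟨s x.1, by have := hs x.1; omega⟩ : Fin (v + 1)))
    (fun x y => P ^ v ∣ 2 * (x.1 * y.2.2 - y.1 * x.2.2))
    (fun x y => P ^ v ∣ 2 * (x.1 * y.2.2 + y.1 * x.2.2)) ?_ ?_
  · intro x y hx hy h
    have e : s x.1 = s y.1 := Fin.mk.inj h
    by_cases hi : s y.1 < (v + 1) / 2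
    · obtain ⟨j, hj⟩ : ∃ j, v = 2 * s y.1 + (j + 1) := ⟨v - 2 * s y.1 - 1, by omega⟩
      obtain ⟨l, o, a1, a2, a3, -, a5⟩ := hS x hx _ e hi j hj
      obtain ⟨l', o', b1, b2, -, b4, b5⟩ := hS y hy _ rfl hi j hj
      clear h
      generalize s y.1 = i at *
      have d1 : P ^ (j + 1) ∣ (l * o' - l' * o) * (l * o' + l' * o) := by
        refine hP.pow_dvd_of_dvd_mul_left _ ha ?_
        have := (b5.mul_left (l ^ 2)).sub (a5.mul_left (l' ^ 2))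
        rwa [show l ^ 2 * (a * o' ^ 2 - g' * l' ^ 2) - l' ^ 2 * (a * o ^ 2 - g' * l ^ 2)
          = a * ((l * o' - l' * o) * (l * o' + l' * o)) by ring] at this
      have d2 := dich hP d1 (u := l * o') (by ring) fun h3 => (hP.dvd_or_dvd h3).elim a3 b4
      rw [a1, a2, b1, b2, hj]
      rcases d2 with ⟨z, hz⟩ | ⟨z, hz⟩
      · exact Or.inl ⟨P ^ (γ / 2) * z, by linear_combination (P ^ i * P ^ (γ / 2 + i)) * hz⟩
      · exact Or.inr ⟨P ^ (γ / 2) * z, by linear_combination (P ^ i * P ^ (γ / 2 + i)) * hz⟩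
    · exact Or.inl (hL x y hx hy (hbig _ (e ▸ hi)) (hbig _ hi))
  · intro x y r hx hy hr h h' H
    have e : s x.1 = s r.1 := Fin.mk.inj h
    have e' : s y.1 = s r.1 := Fin.mk.inj h'
    by_cases hi : s r.1 < (v + 1) / 2
    · obtain ⟨j, hj⟩ : ∃ j, v = 2 * s r.1 + (j + 1) := ⟨v - 2 * s r.1 - 1, by omega⟩
      obtain ⟨-, o, -, a2, -⟩ := hS x hx _ e hi j hj
      obtain ⟨-, o', -, b2, -⟩ := hS y hy _ e' hi j hj
      obtain ⟨-, o'', -, c2, -, c4, -⟩ := hS r hr _ rfl hi j hj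
      refine hP.pow_dvd_of_dvd_mul_left _ c4 ?_
      rw [a2, b2, c2] at H
      rw [a2, b2]
      rcases H with ⟨H1, H2⟩ | ⟨H1, H2⟩
      · convert (H1.mul_left o').sub (H2.mul_left o) using 1
        ring
      · convert (H1.mul_left o').sub (H2.mul_left o) using 1
        ring
    · exact hL x y hx hy (hbig _ (e ▸ hi)) (hbig _ (e' ▸ hi))

theorem main {a b c g P : ℤ} (hg : g ≠ 0) {v : ℕ} (hP : Prime P) (ha : ¬ P ∣ a)
    (hv : P ^ v ∣ b ^ 2 - 4 * a * c) :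
    ∃ t : ℤ × ℤ × ℤ → Fin (v + 1) × Bool, ∀ x y z, OnC a b c g x → OnC a b c g y →
      OnC a b c g z → t x = t y → t y = t z → P ^ v ∣ 8 * det3 x y z := by
  obtain ⟨t, ht⟩ := diag hP ha hg hv
  refine ⟨fun x => t (2 * a * x.1 + b * x.2.1, x.2.1, 2 * x.2.2), fun x y z hx hy hz h1 h2 => ?_⟩
  have e : ∀ x, OnC a b c g x → a * (2 * x.2.2) ^ 2
      = g * ((2 * a * x.1 + b * x.2.1) ^ 2 - (b ^ 2 - 4 * a * c) * x.2.1 ^ 2) := fun x hx => by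
    rw [OnC] at hx
    linear_combination (4 * a) * hx
  have d1 := ht _ _ (e x hx) (e y hy) h1
  have d2 := ht _ _ (e y hy) (e z hz) h2
  have d3 := ht _ _ (e x hx) (e z hz) (h1.trans h2)
  refine hP.pow_dvd_of_dvd_mul_left _ ha ?_
  convert ((d3.mul_left y.2.1).sub (d2.mul_left x.2.1)).sub (d1.mul_left z.2.1) using 1
  rw [det3]
  ring

end ConicA

/-- At a prime power dividing the discriminant the points of the conic fall into few types, and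
three points of one type have a determinant divisible by the prime power up to a factor `8`. -/
theorem local_type (a b c g : ℤ) (hg : g ≠ 0) (p v : ℕ) (hp : p.Prime)
    (hprim : ¬ ((p : ℤ) ∣ a ∧ (p : ℤ) ∣ b ∧ (p : ℤ) ∣ c))
    (hv : (p : ℤ) ^ v ∣ b ^ 2 - 4 * a * c) :
    ∃ t : ℤ × ℤ × ℤ → Fin (v + 1) × Bool, ∀ x y z, OnC a b c g x → OnC a b c g y →
      OnC a b c g z → t x = t y → t y = t z → (p : ℤ) ^ v ∣ 8 * det3 x y z := by
  have hP : Prime (p : ℤ) := Nat.prime_iff_prime_int.1 hp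
  by_cases ha : (p : ℤ) ∣ a
  swap
  · exact ConicA.main hg hP ha hv
  by_cases hc : (p : ℤ) ∣ c
  · rcases Nat.eq_zero_or_pos v with rfl | h0
    · exact ⟨fun _ => (0, true), fun x y z _ _ _ _ _ => by simp⟩
    · exfalso
      refine hprim ⟨ha, hP.dvd_of_dvd_pow (n := 2) ?_, hc⟩
      have h1 : (p : ℤ) ∣ b ^ 2 - 4 * a * c := (dvd_pow_self _ h0.ne').trans hv
      simpa using h1.add (hc.mul_left (4 * a))
  · obtain ⟨t, ht⟩ := ConicA.main (a := c) (b := b) (c := a) (v := v) hg hP hc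
      (by rwa [show b ^ 2 - 4 * c * a = b ^ 2 - 4 * a * c by ring])
    have e : ∀ x, OnC a b c g x → OnC c b a g (x.2.1, x.1, x.2.2) := fun x hx => by
      rw [OnC] at hx ⊢
      linear_combination hx
    refine ⟨fun x => t (x.2.1, x.1, x.2.2), fun x y z hx hy hz h1 h2 => ?_⟩
    have := (ht _ _ _ (e x hx) (e y hy) (e z hz) h1 h2).neg_right
    rwa [show -(8 * det3 (x.2.1, x.1, x.2.2) (y.2.1, y.1, y.2.2) (z.2.1, z.1, z.2.2))
      = 8 * det3 x y z by simp only [det3]; ring] at this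

end Pool.Agent.Lib.MP_af4c59_nt.H32
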