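import Pool.Agent.Lib.MP_af4c59_nt.H32Defs

set_option autoImplicit false

namespace Pool.Agent.Lib.MP_af4c59_nt.H32

open NumberField Module IsDedekindDomain

namespace ConicB

/-- The polar form of the conic. -/
def Bf (a b c g : ℤ) (x y : ℤ × ℤ × ℤ) : ℤ :=
  g * (2 * a * x.1 * y.1 + b * (x.1 * y.2.1 + y.1 * x.2.1) + 2 * c * x.2.1 * y.2.1) -
    2 * x.2.2 * y.2.2

theorem gram {a b c g : ℤ} {x y z : ℤ × ℤ × ℤ} (hx : OnC a b c g x) (hy : OnC a b c g y)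
    (hz : OnC a b c g z) : g ^ 2 * (b ^ 2 - 4 * a * c) * det3 x y z ^ 2 =
      Bf a b c g x y * Bf a b c g y z * Bf a b c g x z := by
  unfold OnC at hx hy hz
  have e : g ^ 2 * (b ^ 2 - 4 * a * c) * det3 x y z ^ 2 =
      Bf a b c g x y * Bf a b c g y z * Bf a b c g x z +
      4 * (g * (a * x.1 ^ 2 + b * x.1 * x.2.1 + c * x.2.1 ^ 2) - x.2.2 ^ 2) *
        (g * (a * y.1 ^ 2 + b * y.1 * y.2.1 + c * y.2.1 ^ 2) - y.2.2 ^ 2) *
        (g * (a * z.1 ^ 2 + b * z.1 * z.2.1 + c * z.2.1 ^ 2) - z.2.2 ^ 2) -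
      (g * (a * x.1 ^ 2 + b * x.1 * x.2.1 + c * x.2.1 ^ 2) - x.2.2 ^ 2) * Bf a b c g y z ^ 2 -
      (g * (a * y.1 ^ 2 + b * y.1 * y.2.1 + c * y.2.1 ^ 2) - y.2.2 ^ 2) * Bf a b c g x z ^ 2 -
      (g * (a * z.1 ^ 2 + b * z.1 * z.2.1 + c * z.2.1 ^ 2) - z.2.2 ^ 2) * Bf a b c g x y ^ 2 := by
    unfold det3 Bf
    ring
  rw [e, ← hx, ← hy, ← hz]
  ring

theorem Bf_ne {a b c g : ℤ} (hg : g ≠ 0) (hd : b ^ 2 - 4 * a * c ≠ 0) {x y : ℤ × ℤ × ℤ}
    (hx : OnC a b c g x) (hy : OnC a b c g y) (hxy : x.1 * y.2.1 ≠ x.2.1 * y.1) :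
    Bf a b c g x y ≠ 0 := by
  intro h0
  unfold OnC at hx hy
  have e : Bf a b c g x y * (Bf a b c g x y + 4 * x.2.2 * y.2.2) =
      g ^ 2 * (b ^ 2 - 4 * a * c) * (x.1 * y.2.1 - x.2.1 * y.1) ^ 2 := by
    unfold Bf
    linear_combination (-4 * y.2.2 ^ 2) * hx -
      4 * (g * (a * x.1 ^ 2 + b * x.1 * x.2.1 + c * x.2.1 ^ 2)) * hy
  rw [h0, zero_mul] at e
  exact mul_ne_zero (mul_ne_zero (pow_ne_zero 2 hg) hd) (pow_ne_zero 2 (sub_ne_zero.2 hxy)) e.symm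

theorem eq_of_sq {p : ℕ} [Fact p.Prime] (h2 : p ≠ 2) {W W' : ZMod p} (h : W ^ 2 = W' ^ 2)
    (hb : decide (W.val ≤ p / 2) = decide (W'.val ≤ p / 2)) : W = W' := by
  rcases sq_eq_sq_iff_eq_or_eq_neg.1 h with e | e
  · exact e
  by_cases h0 : W' = 0
  · rw [e, h0, neg_zero]
  exfalso
  have hodd : p % 2 = 1 := (Fact.out : p.Prime).eq_two_or_odd.resolve_left h2
  have h1 := ZMod.val_lt W'
  rw [e, ZMod.neg_val, if_neg h0, decide_eq_decide] at hb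
  omega

theorem sq_dvd {a b c g : ℤ} {p : ℕ} [Fact p.Prime] {x y : ℤ × ℤ × ℤ} (hx : OnC a b c g x)
    (hy : OnC a b c g y) {l : ZMod p} (hl : l ≠ 0) (h1 : (x.1 : ZMod p) = l * y.1)
    (h2 : (x.2.1 : ZMod p) = l * y.2.1) (h3 : (x.2.2 : ZMod p) = l * y.2.2) :
    (p : ℤ) ^ 2 ∣ Bf a b c g x y := by
  obtain ⟨k, rfl⟩ := ZMod.intCast_surjective l
  have key : ∀ s t : ℤ, (s : ZMod p) = k * t → (p : ℤ) ∣ s - k * t := fun s t e => by
    rw [← ZMod.intCast_zmod_eq_zero_iff_dvd]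
    push_cast
    exact sub_eq_zero.2 e
  obtain ⟨e1, f1⟩ := key _ _ h1
  obtain ⟨e2, f2⟩ := key _ _ h2
  obtain ⟨e3, f3⟩ := key _ _ h3
  refine (Nat.prime_iff_prime_int.1 Fact.out).pow_dvd_of_dvd_mul_left 2 (a := k)
    (fun h => hl ((ZMod.intCast_zmod_eq_zero_iff_dvd _ _).2 h))
    ⟨e3 ^ 2 - g * (a * e1 ^ 2 + b * e1 * e2 + c * e2 ^ 2), ?_⟩
  unfold OnC at hx hy
  have e : (p : ℤ) ^ 2 * (e3 ^ 2 - g * (a * e1 ^ 2 + b * e1 * e2 + c * e2 ^ 2)) =
      (p * e3) ^ 2 - g * (a * (p * e1) ^ 2 + b * (p * e1) * (p * e2) + c * (p * e2) ^ 2) := by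
    ring
  rw [e, ← f1, ← f2, ← f3]
  unfold Bf
  linear_combination -hx - k ^ 2 * hy

/-- The type of a point modulo `p`. -/
noncomputable def ty (p : ℕ) [Fact p.Prime] (x : ℤ × ℤ × ℤ) : Fin (p + 1) × Bool :=
  if (x.2.1 : ZMod p) = 0 then
    (Fin.last p, decide (((x.2.2 : ZMod p) / x.1).val ≤ p / 2))
  else
    (⟨((x.1 : ZMod p) / x.2.1).val, (ZMod.val_lt _).trans (Nat.lt_succ_self p)⟩,
      decide (((x.2.2 : ZMod p) / x.2.1).val ≤ p / 2))

theorem fst_ne {p : ℕ} [Fact p.Prime] {u m : ℤ} (h : IsCoprime u m) (hm : (m : ZMod p) = 0) :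
    (u : ZMod p) ≠ 0 := by
  intro hu
  obtain ⟨s, t, e⟩ := h
  have := congrArg (Int.cast : ℤ → ZMod p) e
  push_cast at this
  rw [hu, hm] at this
  simp at this

theorem sq_dvd_of_ty {a b c g : ℤ} {p : ℕ} [Fact p.Prime] (h2 : p ≠ 2) {x y : ℤ × ℤ × ℤ}
    (hx : OnC a b c g x) (hy : OnC a b c g y) (cx : IsCoprime x.1 x.2.1)
    (cy : IsCoprime y.1 y.2.1) (h : ty p x = ty p y) : (p : ℤ) ^ 2 ∣ Bf a b c g x y := by
  have ex := congrArg (Int.cast : ℤ → ZMod p) hx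
  have ey := congrArg (Int.cast : ℤ → ZMod p) hy
  push_cast at ex ey
  unfold ty at h
  split_ifs at h with m1 m2 m2
  · have u1 := fst_ne cx m1
    have u2 := fst_ne cy m2
    rw [m1] at ex
    rw [m2] at ey
    have e := eq_of_sq h2 (W := (x.2.2 : ZMod p) / x.1) (W' := (y.2.2 : ZMod p) / y.1)
      (by rw [div_pow, div_pow, ex, ey]; field_simp; ring) (Prod.ext_iff.1 h).2
    refine sq_dvd hx hy (l := (x.1 : ZMod p) / y.1) (div_ne_zero u1 u2) ?_ ?_ ?_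
    · field_simp
    · rw [m1, m2, mul_zero]
    · field_simp at e ⊢
      linear_combination e
  · have := congrArg Fin.val (Prod.ext_iff.1 h).1
    exact absurd this (ZMod.val_lt ((y.1 : ZMod p) / (y.2.1 : ZMod p))).ne'
  · have := congrArg Fin.val (Prod.ext_iff.1 h).1
    exact absurd this (ZMod.val_lt _).ne
  · have e1 : (x.1 : ZMod p) / x.2.1 = (y.1 : ZMod p) / y.2.1 :=
      ZMod.val_injective p (congrArg Fin.val (Prod.ext_iff.1 h).1)
    have s1 : ((x.2.2 : ZMod p) / x.2.1) ^ 2 =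
        g * (a * ((x.1 : ZMod p) / x.2.1) ^ 2 + b * ((x.1 : ZMod p) / x.2.1) + c) := by
      rw [div_pow, ex]; field_simp
    have s2 : ((y.2.2 : ZMod p) / y.2.1) ^ 2 =
        g * (a * ((y.1 : ZMod p) / y.2.1) ^ 2 + b * ((y.1 : ZMod p) / y.2.1) + c) := by
      rw [div_pow, ey]; field_simp
    have e := eq_of_sq h2 (W := (x.2.2 : ZMod p) / x.2.1) (W' := (y.2.2 : ZMod p) / y.2.1)
      (by rw [s1, s2, e1]) (Prod.ext_iff.1 h).2
    refine sq_dvd hx hy (l := (x.2.1 : ZMod p) / y.2.1) (div_ne_zero m1 m2) ?_ ?_ ?_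
    · field_simp at e1 ⊢
      linear_combination e1
    · field_simp
    · field_simp at e ⊢
      linear_combination e

end ConicB

/-- At a prime of good reduction three points with the same reduction have a determinant
divisible by the cube of the prime. -/
theorem aux_type (a b c g : ℤ) (p : ℕ) (hp : p.Prime)
    (hpd : ¬ (p : ℤ) ∣ 2 * g * (b ^ 2 - 4 * a * c)) :
    ∃ t : ℤ × ℤ × ℤ → Fin (p + 1) × Bool, ∀ x y z, OnC a b c g x → OnC a b c g y →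
      OnC a b c g z → IsCoprime x.1 x.2.1 → IsCoprime y.1 y.2.1 → IsCoprime z.1 z.2.1 →
      t x = t y → t y = t z → (p : ℤ) ^ 3 ∣ det3 x y z := by
  have : Fact p.Prime := ⟨hp⟩
  have hpr := Nat.prime_iff_prime_int.1 hp
  have h2 : p ≠ 2 := by
    rintro rfl
    exact hpd ((dvd_mul_right _ _).mul_right _)
  have hg : ¬ (p : ℤ) ∣ g ^ 2 * (b ^ 2 - 4 * a * c) := fun h => by
    rcases hpr.dvd_or_dvd h with h | h
    · exact hpd (((hpr.dvd_of_dvd_pow h).mul_left _).mul_right _)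
    · exact hpd (h.mul_left _)
  refine ⟨ConicB.ty p, fun x y z hx hy hz cx cy cz e1 e2 => ?_⟩
  have h := mul_dvd_mul (mul_dvd_mul (ConicB.sq_dvd_of_ty h2 hx hy cx cy e1)
    (ConicB.sq_dvd_of_ty h2 hy hz cy cz e2)) (ConicB.sq_dvd_of_ty h2 hx hz cx cz (e1.trans e2))
  rw [← ConicB.gram hx hy hz, ← pow_add, ← pow_add] at h
  have h' := hpr.pow_dvd_of_dvd_mul_left _ hg h
  rw [show 2 + 2 + 2 = 3 * 2 from rfl, pow_mul] at h'
  exact (Int.pow_dvd_pow_iff two_ne_zero).1 h'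

/-- Three different points of a smooth conic are not collinear. -/
theorem det3_ne_zero (a b c g : ℤ) (hg : g ≠ 0) (hd : b ^ 2 - 4 * a * c ≠ 0)
    (x y z : ℤ × ℤ × ℤ) (hx : OnC a b c g x) (hy : OnC a b c g y) (hz : OnC a b c g z)
    (hxy : x.1 * y.2.1 ≠ x.2.1 * y.1) (hxz : x.1 * z.2.1 ≠ x.2.1 * z.1)
    (hyz : y.1 * z.2.1 ≠ y.2.1 * z.1) : det3 x y z ≠ 0 := by
  intro h0
  have h := ConicB.gram hx hy hz
  rw [h0] at h
  exact mul_ne_zero (mul_ne_zero (ConicB.Bf_ne hg hd hx hy hxy) (ConicB.Bf_ne hg hd hy hz hyz))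
    (ConicB.Bf_ne hg hd hx hz hxz) (by rw [← h]; simp)

/-- A prime of prescribed size not dividing `N`. -/
theorem exists_prime_not_dvd (N P : ℕ) (hN : N ≠ 0) (hP : P ≠ 0) :
    ∃ p : ℕ, p.Prime ∧ P < p ∧ p ≤ 2 ^ (N.primeFactors.card + 1) * P ∧ ¬ p ∣ N := by
  by_contra hcon
  push Not at hcon
  choose f hf h1 h2 using fun i : ℕ =>
    Nat.exists_prime_lt_and_le_two_mul (2 ^ i * P) (by positivity)
  have hmono : StrictMono f := strictMono_nat_of_lt_succ fun i => by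
    have a := h2 i
    have b := h1 (i + 1)
    rw [pow_succ] at b
    linarith
  have hP' : 0 < P := Nat.pos_of_ne_zero hP
  have := Finset.card_le_card_of_injOn (s := Finset.range (N.primeFactors.card + 1))
    (t := N.primeFactors) f (fun i hi => by
      have hi' : i + 1 ≤ N.primeFactors.card + 1 := Finset.mem_range.1 hi
      refine Nat.mem_primeFactors.2 ⟨hf i, hcon _ (hf i) ?_ ?_, hN⟩
      · exact (Nat.le_mul_of_pos_left P (by positivity)).trans_lt (h1 i)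
      · refine (h2 i).trans ?_
        rw [← mul_assoc, ← pow_succ']
        exact Nat.mul_le_mul_right _ (Nat.pow_le_pow_right two_pos hi')) hmono.injective.injOn
  rw [Finset.card_range] at this
  omega

end Pool.Agent.Lib.MP_af4c59_nt.H32
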