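import Pool.Agent.Lib.MP_af4c59_nt.H32Div
import Pool.Agent.Lib.MP_af4c59_nt.H32ConicA
import Pool.Agent.Lib.MP_af4c59_nt.H32ConicB

set_option autoImplicit false

namespace Pool.Agent.Lib.MP_af4c59_nt.H32

open NumberField Module IsDedekindDomain

namespace Conic

theorem prim {a b c g u m w : ℤ} (h0 : (u, m) ≠ (0, 0)) (h : OnC a b c g (u, m, w)) :
    ∃ (k : ℤ) (y : ℤ × ℤ × ℤ), 0 < k ∧ u = y.1 * k ∧ m = y.2.1 * k ∧ w = y.2.2 * k ∧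
      IsCoprime y.1 y.2.1 ∧ OnC a b c g y := by
  have hk : 0 < Int.gcd u m := by
    rw [Int.gcd_pos_iff]
    by_contra hc
    push Not at hc
    exact h0 (by rw [hc.1, hc.2])
  obtain ⟨u', m', h1, h2, h3⟩ := Int.exists_gcd_one hk
  generalize Int.gcd u m = k at hk h2 h3
  have hk' : (0 : ℤ) < k := by exact_mod_cast hk
  simp only [OnC] at h
  have h4 : (k : ℤ) ^ 2 ∣ w ^ 2 :=
    ⟨g * (a * u' ^ 2 + b * u' * m' + c * m' ^ 2), by rw [h, h2, h3]; ring⟩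
  obtain ⟨w', h5⟩ := (Int.pow_dvd_pow_iff two_ne_zero).1 h4
  refine ⟨k, (u', m', w'), hk', h2, h3, by rw [h5, mul_comm], Int.isCoprime_iff_gcd_eq_one.2 h1, ?_⟩
  simp only [OnC]
  refine mul_left_cancel₀ (pow_ne_zero 2 hk'.ne') ?_
  rw [h2, h3, h5] at h
  linear_combination h

theorem abs_le_of_mul {u y k : ℤ} {B : ℝ} (hk : 0 < k) (h : u = y * k) (hB : |(u : ℝ)| ≤ B) :
    |(y : ℝ)| ≤ B := by
  have h1 : (1 : ℝ) ≤ k := by exact_mod_cast hk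
  rw [h, Int.cast_mul, abs_mul, abs_of_nonneg (by linarith : (0 : ℝ) ≤ k)] at hB
  nlinarith [abs_nonneg (y : ℝ)]

theorem abs3 {x y z B W : ℝ} (hx : |x| ≤ B) (hy : |y| ≤ B) (hz : |z| ≤ W) :
    -(B ^ 2 * W) ≤ x * y * z ∧ x * y * z ≤ B ^ 2 * W := by
  have hB : 0 ≤ B := (abs_nonneg _).trans hx
  rw [← abs_le, abs_mul, abs_mul, sq]
  exact mul_le_mul (mul_le_mul hx hy (abs_nonneg _) hB) hz (abs_nonneg _) (mul_nonneg hB hB)

/-- Points in a box. -/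
def InBox (B W : ℝ) (x : ℤ × ℤ × ℤ) : Prop :=
  |(x.1 : ℝ)| ≤ B ∧ |(x.2.1 : ℝ)| ≤ B ∧ |(x.2.2 : ℝ)| ≤ W

theorem det_le {B W : ℝ} {x y z : ℤ × ℤ × ℤ} (hx : InBox B W x) (hy : InBox B W y)
    (hz : InBox B W z) : |(det3 x y z : ℝ)| ≤ 6 * (B ^ 2 * W) := by
  have h1 := abs3 hx.1 hy.2.1 hz.2.2
  have h2 := abs3 hx.1 hz.2.1 hy.2.2
  have h3 := abs3 hx.2.1 hy.1 hz.2.2
  have h4 := abs3 hx.2.1 hz.1 hy.2.2
  have h5 := abs3 hy.1 hz.2.1 hx.2.2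
  have h6 := abs3 hy.2.1 hz.1 hx.2.2
  unfold det3
  push_cast
  rw [abs_le]
  constructor <;> linarith [h1.1, h1.2, h2.1, h2.2, h3.1, h3.2, h4.1, h4.2, h5.1, h5.2, h6.1, h6.2]

theorem dvd_of_local {D n : ℤ} (hD : D ≠ 0)
    (h : ∀ p ∈ D.natAbs.primeFactors, (p : ℤ) ^ D.natAbs.factorization p ∣ n) : D ∣ n := by
  rw [← Int.natAbs_dvd_natAbs, Nat.dvd_iff_prime_pow_dvd_dvd]
  intro p k hp hk
  have h0 : D.natAbs ≠ 0 := Int.natAbs_ne_zero.2 hD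
  rcases Nat.eq_zero_or_pos k with rfl | hk0
  · simp
  have h1 := h p (Nat.mem_primeFactors.2 ⟨hp, (dvd_pow_self p hk0.ne').trans hk, h0⟩)
  rw [← Int.natAbs_dvd_natAbs, Int.natAbs_pow, Int.natAbs_natCast] at h1
  exact (pow_dvd_pow p ((hp.pow_dvd_iff_le_factorization h0).1 hk)).trans h1

/-- The pigeonhole count. -/
theorem count {a b c g : ℤ} (hg : g ≠ 0) (hD : b ^ 2 - 4 * a * c ≠ 0)
    (hprim : ∀ p : ℕ, p.Prime → ¬ ((p : ℤ) ∣ a ∧ (p : ℤ) ∣ b ∧ (p : ℤ) ∣ c)) {B W : ℝ}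
    {S : Finset (ℤ × ℤ)} {f : ℤ × ℤ → ℤ × ℤ × ℤ} (h1 : ∀ x ∈ S, InBox B W (f x))
    (h2 : ∀ x ∈ S, OnC a b c g (f x)) (h3 : ∀ x ∈ S, IsCoprime (f x).1 (f x).2.1)
    (h4 : ∀ x ∈ S, ∀ y ∈ S, x ≠ y → (f x).1 * (f y).2.1 ≠ (f x).2.1 * (f y).1) {p₀ : ℕ}
    (hp : p₀.Prime) (hpd : ¬ (p₀ : ℤ) ∣ 2 * g * (b ^ 2 - 4 * a * c))
    (hbig : 48 * (B ^ 2 * W) < (p₀ : ℝ) ^ 3 * |((b ^ 2 - 4 * a * c : ℤ) : ℝ)|) :
    S.card ≤ 2 * ((b ^ 2 - 4 * a * c).natAbs.divisors.card *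
      2 ^ (b ^ 2 - 4 * a * c).natAbs.primeFactors.card * ((p₀ + 1) * 2)) := by
  classical
  have hloc := fun p : (b ^ 2 - 4 * a * c).natAbs.primeFactors =>
    local_type a b c g hg p ((b ^ 2 - 4 * a * c).natAbs.factorization p)
      (Nat.prime_of_mem_primeFactors p.2) (hprim p (Nat.prime_of_mem_primeFactors p.2))
      (by rw [← Int.natAbs_dvd_natAbs, Int.natAbs_pow, Int.natAbs_natCast]; exact Nat.ordProj_dvd _ _)
  choose t ht using hloc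
  obtain ⟨t₀, ht₀⟩ := aux_type a b c g p₀ hp hpd
  generalize hDD : b ^ 2 - 4 * a * c = D at *
  have key := Finset.card_le_mul_card_image_of_maps_to (s := S) (t := Finset.univ)
    (f := fun x => ((fun p => t p (f x), t₀ (f x)) :
      ((p : D.natAbs.primeFactors) → Fin (D.natAbs.factorization p + 1) × Bool) ×
        (Fin (p₀ + 1) × Bool))) (fun _ _ => Finset.mem_univ _) 2 (by
    intro s _
    by_contra hc
    obtain ⟨x, y, z, hx, hy, hz, hxy, hxz, hyz⟩ := Finset.two_lt_card_iff.1 (not_le.1 hc)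
    obtain ⟨hx, ex⟩ := Finset.mem_filter.1 hx
    obtain ⟨hy, ey⟩ := Finset.mem_filter.1 hy
    obtain ⟨hz, ez⟩ := Finset.mem_filter.1 hz
    have e1 := ex.trans ey.symm
    have e2 := ey.trans ez.symm
    have d1 : D ∣ 8 * det3 (f x) (f y) (f z) := dvd_of_local hD fun p hp' =>
      ht ⟨p, hp'⟩ _ _ _ (h2 x hx) (h2 y hy) (h2 z hz) (congrFun (congrArg Prod.fst e1) ⟨p, hp'⟩)
        (congrFun (congrArg Prod.fst e2) ⟨p, hp'⟩)
    have d2 : (p₀ : ℤ) ^ 3 ∣ 8 * det3 (f x) (f y) (f z) :=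
      (ht₀ _ _ _ (h2 x hx) (h2 y hy) (h2 z hz) (h3 x hx) (h3 y hy) (h3 z hz)
        (congrArg Prod.snd e1) (congrArg Prod.snd e2)).mul_left 8
    have d3 : IsCoprime ((p₀ : ℤ) ^ 3) D :=
      ((Nat.prime_iff_prime_int.1 hp).coprime_iff_not_dvd.2
        fun h => hpd (h.mul_left _)).pow_left
    have d4 := det3_ne_zero a b c g hg (hDD ▸ hD) _ _ _ (h2 x hx) (h2 y hy) (h2 z hz)
      (h4 x hx y hy hxy) (h4 x hx z hz hxz) (h4 y hy z hz hyz)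
    have d5 := Int.natAbs_le_of_dvd_ne_zero (d3.mul_dvd d2 d1) (mul_ne_zero (by norm_num) d4)
    have d6 : |(((p₀ : ℤ) ^ 3 * D : ℤ) : ℝ)| ≤ |((8 * det3 (f x) (f y) (f z) : ℤ) : ℝ)| := by
      rw [← Int.cast_abs, ← Int.cast_abs, Int.cast_le, Int.abs_eq_natAbs, Int.abs_eq_natAbs]
      exact_mod_cast d5
    have d7 := det_le (h1 x hx) (h1 y hy) (h1 z hz)
    push_cast at d6
    rw [abs_mul, abs_mul, abs_of_nonneg (by positivity : (0 : ℝ) ≤ (p₀ : ℝ) ^ 3),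
      abs_of_nonneg (by norm_num : (0 : ℝ) ≤ 8)] at d6
    linarith)
  refine key.trans (le_of_eq ?_)
  rw [Finset.card_univ, Fintype.card_prod, Fintype.card_pi, Fintype.card_prod, Fintype.card_fin,
    Fintype.card_bool, Nat.card_divisors (Int.natAbs_ne_zero.2 hD), ← Finset.prod_const,
    ← Finset.prod_mul_distrib]
  simp only [Fintype.card_prod, Fintype.card_fin, Fintype.card_bool]
  rw [Finset.prod_coe_sort D.natAbs.primeFactors fun p => (D.natAbs.factorization p + 1) * 2]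

end Conic

/-- Uniform bound for the number of rational points of a conic in a box. -/
theorem conic_bound {ε : ℝ} (hε : 0 < ε) : ∃ C : ℝ, 0 < C ∧
    ∀ (a b c g : ℤ), g ≠ 0 → b ^ 2 - 4 * a * c ≠ 0 →
      (∀ p : ℕ, p.Prime → ¬ ((p : ℤ) ∣ a ∧ (p : ℤ) ∣ b ∧ (p : ℤ) ∣ c)) →
      ∀ (B W : ℝ), 0 ≤ B → 0 ≤ W → ∀ S : Finset (ℤ × ℤ), NP S →
        (∀ x ∈ S, |(x.1 : ℝ)| ≤ B ∧ |(x.2 : ℝ)| ≤ B ∧
          ∃ w : ℤ, |(w : ℝ)| ≤ W ∧ OnC a b c g (x.1, x.2, w)) →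
        (S.card : ℝ) ≤ C * |((g * (b ^ 2 - 4 * a * c) : ℤ) : ℝ)| ^ ε *
          (1 + (B ^ 2 * W / |((b ^ 2 - 4 * a * c : ℤ) : ℝ)|) ^ ((1 : ℝ) / 3)) := by
  have hη : 0 < ε / 3 := by positivity
  obtain ⟨C₁, hC₁, hτ⟩ := divisor_bound hη
  obtain ⟨C₂, hC₂, hω⟩ := omega_bound 1 hη
  have h2η : (1 : ℝ) ≤ 2 ^ (ε / 3) := Real.one_le_rpow (by norm_num) hη.le
  refine ⟨64 * (C₁ * C₂ * (C₂ * 2 ^ (ε / 3))), by positivity,
    fun a b c g hg hD hprim B W hB hW S hS hpt => ?_⟩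
  have hcount := @Conic.count a b c g hg hD hprim B W S
  generalize b ^ 2 - 4 * a * c = D at hD hcount ⊢
  have hD0 : D.natAbs ≠ 0 := Int.natAbs_ne_zero.2 hD
  have hN0 : (2 * g * D).natAbs ≠ 0 :=
    Int.natAbs_ne_zero.2 (mul_ne_zero (mul_ne_zero two_ne_zero hg) hD)
  have eD : ((D.natAbs : ℕ) : ℝ) = |(D : ℝ)| := by rw [Nat.cast_natAbs, Int.cast_abs]
  have hD1 : (1 : ℝ) ≤ |(D : ℝ)| := by exact_mod_cast Int.one_le_abs hD
  have hg1 : (1 : ℝ) ≤ |(g : ℝ)| := by exact_mod_cast Int.one_le_abs hg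
  have eA : |((g * D : ℤ) : ℝ)| = |(g : ℝ)| * |(D : ℝ)| := by rw [Int.cast_mul, abs_mul]
  have eN : (((2 * g * D).natAbs : ℕ) : ℝ) = 2 * |((g * D : ℤ) : ℝ)| := by
    rw [Nat.cast_natAbs, Int.cast_abs, mul_assoc, Int.cast_mul, abs_mul]
    norm_num
  have hDA : |(D : ℝ)| ≤ |((g * D : ℤ) : ℝ)| := by
    rw [eA]
    nlinarith
  set t : ℝ := (B ^ 2 * W / |(D : ℝ)|) ^ ((1 : ℝ) / 3) with ht
  have ht0 : 0 ≤ t := by positivity
  have ht3 : t ^ 3 * |(D : ℝ)| = B ^ 2 * W := by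
    rw [ht, ← Real.rpow_natCast, ← Real.rpow_mul (by positivity)]
    norm_num
    field_simp
  generalize |((g * D : ℤ) : ℝ)| = A at eN hDA ⊢
  have hA1 : 1 ≤ A := hD1.trans hDA
  have eε : A ^ ε = A ^ (ε / 3) * A ^ (ε / 3) * A ^ (ε / 3) := by
    rw [← Real.rpow_add (by linarith), ← Real.rpow_add (by linarith)]
    congr 1
    ring
  have hAη : 1 ≤ A ^ (ε / 3) := Real.one_le_rpow hA1 hη.le
  by_cases h0 : (0, 0) ∈ S
  · have h1 : S.card ≤ 1 := Finset.card_le_one.2 fun x hx y hy => by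
      have h2 : ∀ z ∈ S, z = (0, 0) := fun z hz => by
        by_contra hc
        exact hS z hz _ h0 hc (by simp)
      rw [h2 x hx, h2 y hy]
    have h2 : (S.card : ℝ) ≤ 1 := by exact_mod_cast h1
    refine h2.trans (one_le_mul_of_one_le_of_one_le (one_le_mul_of_one_le_of_one_le
      (one_le_mul_of_one_le_of_one_le (by norm_num) (one_le_mul_of_one_le_of_one_le
        (one_le_mul_of_one_le_of_one_le hC₁ hC₂) (one_le_mul_of_one_le_of_one_le hC₂ h2η)))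
      (Real.one_le_rpow hA1 hε.le)) (by linarith))
  have hf : ∀ x ∈ S, ∃ (k : ℤ) (y : ℤ × ℤ × ℤ), 0 < k ∧ x.1 = y.1 * k ∧ x.2 = y.2.1 * k ∧
      Conic.InBox B W y ∧ IsCoprime y.1 y.2.1 ∧ OnC a b c g y := by
    intro x hx
    obtain ⟨h1, h2, w, h3, h4⟩ := hpt x hx
    obtain ⟨k, y, hk, e1, e2, e3, h5, h6⟩ := Conic.prim (fun h => h0 (h ▸ hx)) h4
    exact ⟨k, y, hk, e1, e2, ⟨Conic.abs_le_of_mul hk e1 h1, Conic.abs_le_of_mul hk e2 h2,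
      Conic.abs_le_of_mul hk e3 h3⟩, h5, h6⟩
  choose! k f hk e1 e2 h1 h3 h2 using hf
  obtain ⟨p₀, hp, hP1, hP2, hpd⟩ :=
    exists_prime_not_dvd (2 * g * D).natAbs (⌈4 * t⌉₊ + 1) hN0 (Nat.succ_ne_zero _)
  have hp1 : 4 * t < p₀ := by
    have h5 : ((⌈4 * t⌉₊ + 1 : ℕ) : ℝ) < p₀ := by exact_mod_cast hP1
    push_cast at h5
    linarith [Nat.le_ceil (4 * t)]
  have hc := hcount h1 h2 h3 (fun x hx y hy hxy h => hS x hx y hy hxy (by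
      rw [e1 x hx, e2 x hx, e1 y hy, e2 y hy]
      linear_combination k x * k y * h)) hp (fun h => hpd (Int.natCast_dvd.1 h)) (by
      have h5 : (4 * t) ^ 3 < (p₀ : ℝ) ^ 3 := pow_lt_pow_left₀ hp1 (by positivity) (by norm_num)
      have h6 := mul_lt_mul_of_pos_right h5 (by linarith : 0 < |(D : ℝ)|)
      have h7 : 0 ≤ B ^ 2 * W := by positivity
      rw [mul_pow, mul_assoc, ht3] at h6
      linarith)
  have b1 : (D.natAbs.divisors.card : ℝ) ≤ C₁ * A ^ (ε / 3) :=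
    (hτ _).trans (mul_le_mul_of_nonneg_left
      (Real.rpow_le_rpow (Nat.cast_nonneg _) (eD ▸ hDA) hη.le) (by linarith))
  have b2 : (2 : ℝ) ^ D.natAbs.primeFactors.card ≤ C₂ * A ^ (ε / 3) := by
    have h5 := hω _ hD0
    rw [pow_one] at h5
    exact h5.trans (mul_le_mul_of_nonneg_left
      (Real.rpow_le_rpow (Nat.cast_nonneg _) (eD ▸ hDA) hη.le) (by linarith))
  have b3 : (2 : ℝ) ^ (2 * g * D).natAbs.primeFactors.card ≤ C₂ * 2 ^ (ε / 3) * A ^ (ε / 3) := by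
    have h5 := hω _ hN0
    rwa [pow_one, eN, Real.mul_rpow (by norm_num) (by linarith), ← mul_assoc] at h5
  have b4 : (p₀ : ℝ) + 1 ≤ 16 * (C₂ * 2 ^ (ε / 3) * A ^ (ε / 3) * (1 + t)) := by
    have h5 : (p₀ : ℝ) ≤ 2 ^ ((2 * g * D).natAbs.primeFactors.card + 1) * (⌈4 * t⌉₊ + 1) := by
      exact_mod_cast hP2
    have h6 : (⌈4 * t⌉₊ : ℝ) + 1 ≤ 4 * (1 + t) := by
      linarith [Nat.ceil_lt_add_one (by positivity : 0 ≤ 4 * t)]
    have h7 : (1 : ℝ) ≤ p₀ := by exact_mod_cast hp.one_le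
    have h8 := mul_le_mul b3 h6 (by positivity) (by positivity)
    rw [pow_succ] at h5
    nlinarith
  have hc' : (S.card : ℝ) ≤ 2 * (D.natAbs.divisors.card * 2 ^ D.natAbs.primeFactors.card *
      ((p₀ + 1) * 2)) := by exact_mod_cast hc
  calc (S.card : ℝ) ≤ _ := hc'
    _ ≤ 2 * (C₁ * A ^ (ε / 3) * (C₂ * A ^ (ε / 3)) *
        (16 * (C₂ * 2 ^ (ε / 3) * A ^ (ε / 3) * (1 + t)) * 2)) := by gcongr
    _ = _ := by rw [eε]; ring

end Pool.Agent.Lib.MP_af4c59_nt.H32
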