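import Pool.Agent.Lib.MP_af4c59_nt.H32SumA

set_option autoImplicit false

namespace Pool.Agent.Lib.MP_af4c59_nt.H32

open NumberField Module IsDedekindDomain

namespace SumB

lemma gcd3_eq (x : ℤ × ℤ × ℤ) : gcd3 x = Int.gcd x.1 (Int.gcd x.2.1 x.2.2 : ℤ) := rfl

lemma gcd3_mul (k : ℕ) (h d1 d2 : ℤ) :
    gcd3 ((k : ℤ) * h, (k : ℤ) * d1, (k : ℤ) * d2) = k * gcd3 (h, d1, d2) := by
  simp only [gcd3, Int.gcd_mul_left, Int.natAbs_mul, Int.natAbs_natCast, Nat.gcd_mul_left]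

lemma decomp (x : ℤ × ℤ × ℤ) :
    x = ((gcd3 x : ℤ) * (x.1 / gcd3 x), (gcd3 x : ℤ) * (x.2.1 / gcd3 x),
      (gcd3 x : ℤ) * (x.2.2 / gcd3 x)) := by
  have h1 : (gcd3 x : ℤ) ∣ x.1 := Int.gcd_dvd_left x.1 (Int.gcd x.2.1 x.2.2 : ℤ)
  have h0 : (gcd3 x : ℤ) ∣ (Int.gcd x.2.1 x.2.2 : ℤ) := Int.gcd_dvd_right x.1 _
  have h2 : (gcd3 x : ℤ) ∣ x.2.1 := h0.trans (Int.gcd_dvd_left _ _)
  have h3 : (gcd3 x : ℤ) ∣ x.2.2 := h0.trans (Int.gcd_dvd_right _ _)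
  rw [Int.mul_ediv_cancel' h1, Int.mul_ediv_cancel' h2, Int.mul_ediv_cancel' h3]

lemma dvd_mul_gcd_pow {g m a b : ℤ} {n : ℕ} (ha : g ∣ m * a ^ n) (hb : g ∣ m * b ^ n) :
    g ∣ m * (Int.gcd a b : ℤ) ^ n := by
  have h := Int.dvd_coe_gcd ha hb
  rw [Int.gcd_mul_left, Int.pow_gcd_pow] at h
  push_cast at h
  rcases abs_choice m with e | e
  · rwa [e] at h
  · rwa [e, neg_mul, dvd_neg] at h

lemma prim {g m h d1 d2 : ℤ} (ha : g ∣ m * qa h d1 d2) (hb : g ∣ m * qb h d1 d2)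
    (hc : g ∣ m * qc h d1 d2) : g ∣ 27 * m * (gcd3 (h, d1, d2) : ℤ) ^ 9 := by
  have hX : g ∣ m * (3 * cX d1 d2) := by
    have : m * (3 * cX d1 d2) = -(m * qb h d1 d2 + m * qc h d1 d2) := by
      simp only [qb, qc]; ring
    rw [this]
    exact (hb.add hc).neg_right
  have hY : g ∣ m * (3 * cY d1 d2) := by
    have : m * (3 * cY d1 d2) = -(m * qa h d1 d2 + m * qb h d1 d2) := by
      simp only [qa, qb]; ring
    rw [this]
    exact (ha.add hb).neg_right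
  have hC : g ∣ m * (3 * cc h d1 d2) := by
    have : m * (3 * cc h d1 d2) =
        m * qa h d1 d2 * 2 + m * qb h d1 d2 + m * qc h d1 d2 * 2 := by
      simp only [qa, qb, qc]; ring
    rw [this]
    exact ((ha.mul_right 2).add hb).add (hc.mul_right 2)
  have h1 : g ∣ 27 * m * d1 ^ 9 := by
    have : 27 * m * d1 ^ 9 =
        m * (3 * cX d1 d2) * (3 * d1 ^ 4 * (3 * d1 ^ 2 - 6 * d1 * d2)) +
          m * (3 * cY d1 d2) * (3 * d1 ^ 4 * (2 * d1 ^ 2 + 5 * d1 * d2 - 2 * d2 ^ 2)) := by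
      simp only [cX, cY]; ring
    rw [this]
    exact (hX.mul_right _).add (hY.mul_right _)
  have h2 : g ∣ 27 * m * d2 ^ 9 := by
    have : 27 * m * d2 ^ 9 =
        m * (3 * cX d1 d2) * (3 * d2 ^ 4 * (-6 * d1 * d2 + 3 * d2 ^ 2)) +
          m * (3 * cY d1 d2) * (3 * d2 ^ 4 * (2 * d1 ^ 2 + d1 * d2 - 5 * d2 ^ 2)) := by
      simp only [cX, cY]; ring
    rw [this]
    exact (hX.mul_right _).add (hY.mul_right _)
  have h0 : g ∣ 27 * m * h ^ 9 := by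
    have : 27 * m * h ^ 9 =
        m * (3 * cc h d1 d2) * (9 * (h ^ 6 + h ^ 3 * (3 * h * nf d1 d2) +
          (3 * h * nf d1 d2) ^ 2)) +
        (m * (3 * cX d1 d2) * (243 * h ^ 3 * (cX d1 d2 - cY d1 d2)) +
          m * (3 * cY d1 d2) * (243 * h ^ 3 * cY d1 d2)) := by
      simp only [cc, cX, cY, nf]; ring
    rw [this]
    exact (hC.mul_right _).add ((hX.mul_right _).add (hY.mul_right _))
  exact dvd_mul_gcd_pow h0 (dvd_mul_gcd_pow h1 h2)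

lemma gcd3_div {x : ℤ × ℤ × ℤ} (hx : gcd3 x ≠ 0) :
    gcd3 (x.1 / gcd3 x, x.2.1 / gcd3 x, x.2.2 / gcd3 x) = 1 := by
  have h := congrArg gcd3 (decomp x)
  rw [gcd3_mul] at h
  exact (Nat.mul_eq_left hx).1 h.symm

lemma sum_le_of_inj {α β : Type} (s : Finset α) (t : Finset β) (φ : α → β)
    (hφ : Set.InjOn φ s) (hm : ∀ x ∈ s, φ x ∈ t) (f : α → ℝ) (F : β → ℝ)
    (hf : ∀ x ∈ s, f x ≤ F (φ x)) (hF : ∀ y, 0 ≤ F y) : ∑ x ∈ s, f x ≤ ∑ y ∈ t, F y := by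
  classical
  calc ∑ x ∈ s, f x ≤ ∑ x ∈ s, F (φ x) := Finset.sum_le_sum hf
    _ = ∑ y ∈ s.image φ, F y := (Finset.sum_image hφ).symm
    _ ≤ _ := Finset.sum_le_sum_of_subset_of_nonneg (Finset.image_subset_iff.2 hm)
        fun y _ _ => hF y

lemma mem_box {T : ℤ} {x : ℤ × ℤ × ℤ} :
    x ∈ box T ↔ (-T ≤ x.1 ∧ x.1 ≤ T) ∧ (-T ≤ x.2.1 ∧ x.2.1 ≤ T) ∧ (-T ≤ x.2.2 ∧ x.2.2 ≤ T) := by
  simp only [box, Finset.mem_product, Finset.mem_Icc]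

/-- The term for primitive vectors. -/
noncomputable def FF (x : ℤ × ℤ × ℤ) : ℝ :=
  (1 / |((qq x.1 x.2.1 x.2.2 ^ 2 * rr x.1 x.2.1 x.2.2 : ℤ) : ℝ)|) ^ ((1 : ℝ) / 3)

lemma FF_nonneg (x : ℤ × ℤ × ℤ) : 0 ≤ FF x := by
  unfold FF
  positivity

lemma FF_le (x : ℤ × ℤ × ℤ) :
    FF x ≤ 1 / |((qq x.1 x.2.1 x.2.2 : ℤ) : ℝ)| + 1 / |((rr x.1 x.2.1 x.2.2 : ℤ) : ℝ)| := by
  unfold FF
  rw [Int.cast_mul, Int.cast_pow, abs_mul, abs_pow, one_div, mul_inv, ← inv_pow, one_div, one_div,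
    one_div]
  have ha : 0 ≤ |((qq x.1 x.2.1 x.2.2 : ℤ) : ℝ)|⁻¹ := by positivity
  have hb : 0 ≤ |((rr x.1 x.2.1 x.2.2 : ℤ) : ℝ)|⁻¹ := by positivity
  generalize |((qq x.1 x.2.1 x.2.2 : ℤ) : ℝ)|⁻¹ = a at ha
  generalize |((rr x.1 x.2.1 x.2.2 : ℤ) : ℝ)|⁻¹ = b at hb
  have h1 : a ^ 2 * b ≤ (a + b) ^ 3 := by
    have : (a + b) ^ 3 = a ^ 2 * b + (a ^ 3 + 2 * (a ^ 2 * b) + 3 * (a * b ^ 2) + b ^ 3) := by
      ring
    rw [this]
    exact le_add_of_nonneg_right (by positivity)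
  refine (Real.rpow_le_rpow (by positivity) h1 (by norm_num)).trans (le_of_eq ?_)
  have := Real.pow_rpow_inv_natCast (add_nonneg ha hb) (n := 3) (by norm_num)
  simpa using this

lemma inner {ε : ℝ} (hε : 0 < ε) : ∃ C : ℝ, 0 < C ∧ ∀ T : ℤ, 0 ≤ T →
    ∑ x ∈ box T, FF x ≤ C * (T : ℝ) ^ (1 + ε) := by
  obtain ⟨C, hC, h⟩ := sum_recip hε
  refine ⟨5 * C * 3 ^ (1 + ε), by positivity, fun T hT => ?_⟩
  rcases hT.eq_or_lt with rfl | hT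
  · have : box 0 = {(0, 0, 0)} := by simp [box]
    rw [this, Finset.sum_singleton]
    have e : FF (0, 0, 0) = 0 := by simp [FF, qq, rr, nf]
    rw [e]
    positivity
  have h3 := h (3 * T) (by omega)
  have hq : ∑ x ∈ box T, 1 / |((qq x.1 x.2.1 x.2.2 : ℤ) : ℝ)| ≤
      ∑ x ∈ box (3 * T), 4 * (1 / |((x.1 ^ 2 - x.2.1 ^ 2 - 3 * x.2.2 ^ 2 : ℤ) : ℝ)|) := by
    refine sum_le_of_inj _ _ (fun x => (2 * x.1, 2 * x.2.1 - x.2.2, x.2.2)) ?_ ?_ _ _ ?_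
      fun y => by positivity
    · rintro ⟨a, b, c⟩ - ⟨a', b', c'⟩ - e
      simp only [Prod.mk.injEq] at e ⊢
      omega
    · intro x hx
      rw [mem_box] at hx ⊢
      dsimp only
      omega
    · intro x _
      have : ((2 * x.1) ^ 2 - (2 * x.2.1 - x.2.2) ^ 2 - 3 * x.2.2 ^ 2 : ℤ) =
          4 * qq x.1 x.2.1 x.2.2 := by
        simp only [qq, nf]; ring
      dsimp only
      rw [this, Int.cast_mul, abs_mul]
      refine le_of_eq ?_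
      norm_num
      ring
  have hr : ∑ x ∈ box T, 1 / |((rr x.1 x.2.1 x.2.2 : ℤ) : ℝ)| ≤
      ∑ x ∈ box (3 * T), 1 / |((x.1 ^ 2 - x.2.1 ^ 2 - 3 * x.2.2 ^ 2 : ℤ) : ℝ)| := by
    refine sum_le_of_inj _ _ (fun x => (x.1, 2 * x.2.1 - x.2.2, x.2.2)) ?_ ?_ _ _ ?_
      fun y => by positivity
    · rintro ⟨a, b, c⟩ - ⟨a', b', c'⟩ - e
      simp only [Prod.mk.injEq] at e ⊢
      omega
    · intro x hx
      rw [mem_box] at hx ⊢
      dsimp only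
      omega
    · intro x _
      have : (x.1 ^ 2 - (2 * x.2.1 - x.2.2) ^ 2 - 3 * x.2.2 ^ 2 : ℤ) =
          rr x.1 x.2.1 x.2.2 := by
        simp only [rr, nf]; ring
      dsimp only
      rw [this]
  rw [← Finset.mul_sum] at hq
  have h4 := Finset.sum_le_sum fun x (_ : x ∈ box T) => FF_le x
  rw [Finset.sum_add_distrib] at h4
  have h5 : (((3 * T : ℤ) : ℝ)) ^ (1 + ε) = 3 ^ (1 + ε) * (T : ℝ) ^ (1 + ε) := by
    rw [Int.cast_mul, Real.mul_rpow (by norm_num) (by exact_mod_cast hT.le)]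
    norm_num
  rw [h5] at h3
  linarith

lemma div_mem {k : ℕ} (hk : k ≠ 0) {T y : ℤ} (h : -T ≤ (k : ℤ) * y ∧ (k : ℤ) * y ≤ T) :
    -(T / k) ≤ y ∧ y ≤ T / k := by
  have hk' : (0 : ℤ) < k := by exact_mod_cast Nat.pos_of_ne_zero hk
  constructor
  · rw [neg_le, Int.le_ediv_iff_mul_le hk']
    linarith [h.1]
  · rw [Int.le_ediv_iff_mul_le hk']
    linarith [h.2]

lemma fibre {ε C : ℝ} (hε : 0 < ε) (hC : 0 < C)
    (h : ∀ T : ℤ, 0 ≤ T → ∑ x ∈ box T, FF x ≤ C * (T : ℝ) ^ (1 + ε)) {T : ℤ} (hT : 0 ≤ T)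
    (k : ℕ) :
    ∑ x ∈ box T with gcd3 x = k, (((gcd3 x : ℝ) ^ 6) /
      |((qq x.1 x.2.1 x.2.2 ^ 2 * rr x.1 x.2.1 x.2.2 : ℤ) : ℝ)|) ^ ((1 : ℝ) / 3) ≤
      C * (T : ℝ) ^ (1 + ε) * ((k : ℝ) ^ (1 + ε))⁻¹ := by
  rcases eq_or_ne k 0 with rfl | hk
  · refine le_of_eq_of_le (Finset.sum_eq_zero fun x hx => ?_) (by positivity)
    rw [(Finset.mem_filter.1 hx).2]
    simp
  have hk' : (0 : ℝ) < k := by exact_mod_cast Nat.pos_of_ne_zero hk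
  have hkz : (0 : ℤ) < k := by exact_mod_cast Nat.pos_of_ne_zero hk
  have hd : ∀ x : ℤ × ℤ × ℤ, gcd3 x = k →
      x = ((k : ℤ) * (x.1 / k), (k : ℤ) * (x.2.1 / k), (k : ℤ) * (x.2.2 / k)) := by
    intro x hx
    rw [← hx]
    exact decomp x
  refine (sum_le_of_inj _ (box (T / k)) (fun x => (x.1 / k, x.2.1 / k, x.2.2 / k)) ?_ ?_ _ FF ?_
    FF_nonneg).trans ((h _ (Int.ediv_nonneg hT hkz.le)).trans ?_)
  · intro x hx y hy e
    simp only [Prod.mk.injEq] at e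
    rw [hd x (Finset.mem_filter.1 hx).2, hd y (Finset.mem_filter.1 hy).2, e.1, e.2.1, e.2.2]
  · intro x hx
    obtain ⟨h1, h2⟩ := Finset.mem_filter.1 hx
    rw [hd x h2, mem_box] at h1
    rw [mem_box]
    exact ⟨div_mem hk h1.1, div_mem hk h1.2.1, div_mem hk h1.2.2⟩
  · intro x hx
    obtain ⟨-, h2⟩ := Finset.mem_filter.1 hx
    have e : qq x.1 x.2.1 x.2.2 ^ 2 * rr x.1 x.2.1 x.2.2 = (k : ℤ) ^ 6 *
        (qq (x.1 / k) (x.2.1 / k) (x.2.2 / k) ^ 2 * rr (x.1 / k) (x.2.1 / k) (x.2.2 / k)) := by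
      have := hd x h2
      generalize x.1 / k = a at this
      generalize x.2.1 / k = b at this
      generalize x.2.2 / k = c at this
      rw [this]
      simp only [qq, rr, nf]
      ring
    refine le_of_eq ?_
    unfold FF
    dsimp only
    rw [e, h2, Int.cast_mul, abs_mul, Int.cast_pow, Int.cast_natCast,
      abs_of_pos (pow_pos hk' 6), div_mul_eq_div_div, div_self (pow_pos hk' 6).ne']
  · rw [mul_assoc, ← div_eq_mul_inv, ← Real.div_rpow (by exact_mod_cast hT) hk'.le]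
    refine mul_le_mul_of_nonneg_left (Real.rpow_le_rpow ?_ ?_ (by positivity)) hC.le
    · exact_mod_cast Int.ediv_nonneg hT hkz.le
    · rw [le_div_iff₀ hk']
      exact_mod_cast Int.ediv_mul_le T hkz.ne'

end SumB

/-- The sum of the cube roots of the reciprocal primitive discriminants. -/
theorem sum_disc {ε : ℝ} (hε : 0 < ε) : ∃ C : ℝ, 0 < C ∧ ∀ T : ℤ, 1 ≤ T →
    ∑ x ∈ box T, (((gcd3 x : ℝ) ^ 6) /
      |((qq x.1 x.2.1 x.2.2 ^ 2 * rr x.1 x.2.1 x.2.2 : ℤ) : ℝ)|) ^ ((1 : ℝ) / 3) ≤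
      C * (T : ℝ) ^ (1 + ε) := by
  obtain ⟨C, hC, h⟩ := SumB.inner hε
  have hs : Summable fun k : ℕ => ((k : ℝ) ^ (1 + ε))⁻¹ :=
    Real.summable_nat_rpow_inv.2 (by linarith)
  have h0 : 0 ≤ ∑' k : ℕ, ((k : ℝ) ^ (1 + ε))⁻¹ := tsum_nonneg fun k => by positivity
  refine ⟨C * (∑' k : ℕ, ((k : ℝ) ^ (1 + ε))⁻¹ + 1), by positivity, fun T hT => ?_⟩
  have hT0 : 0 ≤ T := by omega
  have hT' : (0 : ℝ) ≤ T := by exact_mod_cast hT0
  rw [← Finset.sum_fiberwise_of_maps_to (t := (box T).image gcd3) (g := gcd3)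
    fun x hx => Finset.mem_image_of_mem _ hx]
  refine (Finset.sum_le_sum fun k _ => SumB.fibre hε hC h hT0 k).trans ?_
  rw [← Finset.mul_sum]
  have h1 := hs.sum_le_tsum ((box T).image gcd3) fun k _ => by positivity
  have h2 : 0 ≤ C * (T : ℝ) ^ (1 + ε) := by positivity
  have h3 := mul_le_mul_of_nonneg_left h1 h2
  nlinarith

/-- The content of the form divides `27 k ^ 3`. -/
theorem content_dvd (x : ℤ × ℤ × ℤ) (g : ℤ) (ha : g ∣ qa x.1 x.2.1 x.2.2)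
    (hb : g ∣ qb x.1 x.2.1 x.2.2) (hc : g ∣ qc x.1 x.2.1 x.2.2) :
    g ∣ 27 * (gcd3 x : ℤ) ^ 3 := by
  rcases eq_or_ne (gcd3 x) 0 with h0 | h0
  · rw [h0]
    simp
  have hd := SumB.decomp x
  have h1 := SumB.gcd3_div h0
  generalize x.1 / gcd3 x = a at hd h1
  generalize x.2.1 / gcd3 x = b at hd h1
  generalize x.2.2 / gcd3 x = c at hd h1
  generalize (gcd3 x : ℤ) = k at hd
  subst hd
  have := SumB.prim (g := g) (m := k ^ 3) (h := a) (d1 := b) (d2 := c)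
    (by refine ha.trans (dvd_of_eq ?_); simp only [qa, cX, cY, cc, nf]; ring)
    (by refine hb.trans (dvd_of_eq ?_); simp only [qb, cX, cY, cc, nf]; ring)
    (by refine hc.trans (dvd_of_eq ?_); simp only [qc, cX, cY, cc, nf]; ring)
  rw [h1] at this
  simpa using this

end Pool.Agent.Lib.MP_af4c59_nt.H32
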