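import Pool.Agent.Lib.MP_af4c59_nt.H32Conic
import Pool.Agent.Lib.MP_af4c59_nt.H32SumB

set_option autoImplicit false

namespace Pool.Agent.Lib.MP_af4c59_nt.H32

open NumberField Module IsDedekindDomain

namespace Core

lemma prim (A B C : ℤ) (h : B ^ 2 - 4 * A * C ≠ 0) : ∃ g a b c : ℤ, 0 < g ∧ A = g * a ∧
    B = g * b ∧ C = g * c ∧ ∀ p : ℕ, p.Prime → ¬ ((p : ℤ) ∣ a ∧ (p : ℤ) ∣ b ∧ (p : ℤ) ∣ c) := by
  set g : ℤ := (Int.gcd (Int.gcd A B : ℤ) C : ℤ) with hg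
  have h1 : g ∣ (Int.gcd A B : ℤ) := Int.gcd_dvd_left _ _
  have hA : g ∣ A := h1.trans (Int.gcd_dvd_left _ _)
  have hB : g ∣ B := h1.trans (Int.gcd_dvd_right _ _)
  have hC : g ∣ C := Int.gcd_dvd_right _ _
  have hg0 : g ≠ 0 := by
    intro h0
    rw [h0, zero_dvd_iff] at hA hB hC
    exact h (by rw [hA, hB]; ring)
  have hpos : 0 < g := lt_of_le_of_ne (Int.natCast_nonneg _) hg0.symm
  obtain ⟨a, ha⟩ := hA
  obtain ⟨b, hb⟩ := hB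
  obtain ⟨c, hc⟩ := hC
  refine ⟨g, a, b, c, hpos, ha, hb, hc, fun p hp ⟨h1, h2, h3⟩ => ?_⟩
  have e1 : g * p ∣ A := by rw [ha]; exact mul_dvd_mul_left g h1
  have e2 : g * p ∣ B := by rw [hb]; exact mul_dvd_mul_left g h2
  have e3 : g * p ∣ C := by rw [hc]; exact mul_dvd_mul_left g h3
  have e4 : g * p ∣ g := Int.dvd_coe_gcd (Int.dvd_coe_gcd e1 e2) e3
  have e5 : (p : ℤ) ∣ 1 := by
    have : g * p ∣ g * 1 := by rwa [mul_one]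
    exact (mul_dvd_mul_iff_left hg0).1 this
  exact hp.one_lt.ne' (Nat.dvd_one.1 (by exact_mod_cast e5))

lemma mono3 {a b c M : ℤ} (ha : |a| ≤ M) (hb : |b| ≤ M) (hc : |c| ≤ M) :
    |a * b * c| ≤ M ^ 3 := by
  rw [abs_mul, abs_mul]
  have h0 : 0 ≤ M := (abs_nonneg _).trans ha
  calc |a| * |b| * |c| ≤ M * M * M := by gcongr
    _ = M ^ 3 := by ring

lemma coef_le {h d1 d2 M : ℤ} (hh : |h| ≤ M) (h1 : |d1| ≤ M) (h2 : |d2| ≤ M) :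
    |qa h d1 d2| ≤ 32 * M ^ 3 ∧ |qb h d1 d2| ≤ 32 * M ^ 3 ∧ |qc h d1 d2| ≤ 32 * M ^ 3 := by
  have m1 := abs_le.1 (mono3 h1 h1 h1)
  have m2 := abs_le.1 (mono3 h1 h1 h2)
  have m3 := abs_le.1 (mono3 h1 h2 h2)
  have m4 := abs_le.1 (mono3 h2 h2 h2)
  have m5 := abs_le.1 (mono3 hh hh hh)
  have m6 := abs_le.1 (mono3 hh h1 h1)
  have m7 := abs_le.1 (mono3 hh h1 h2)
  have m8 := abs_le.1 (mono3 hh h2 h2)
  simp only [qa, qb, qc, cc, cX, cY, nf]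
  refine ⟨abs_le.2 ⟨?_, ?_⟩, abs_le.2 ⟨?_, ?_⟩, abs_le.2 ⟨?_, ?_⟩⟩ <;>
    linarith [m1.1, m1.2, m2.1, m2.2, m3.1, m3.2, m4.1, m4.2, m5.1, m5.2, m6.1, m6.2, m7.1, m7.2,
      m8.1, m8.2]

lemma QQ_le {h d1 d2 M : ℤ} (hh : |h| ≤ M) (h1 : |d1| ≤ M) (h2 : |d2| ≤ M) (b1 b2 : ℤ) :
    QQ h d1 d2 b1 b2 ≤ 192 * M ^ 3 * nf b1 b2 := by
  obtain ⟨ea, eb, ec⟩ := coef_le hh h1 h2
  have l1 := sq_le_nf_left b1 b2
  have l2 := sq_le_nf_right b1 b2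
  have l0 := nf_nonneg b1 b2
  have k1 : b1 ^ 2 ≤ 2 * nf b1 b2 := by linarith
  have k2 : b2 ^ 2 ≤ 2 * nf b1 b2 := by linarith
  have k3 : |b1 * b2| ≤ 2 * nf b1 b2 :=
    abs_le.2 ⟨by nlinarith [sq_nonneg (b1 + b2)], by nlinarith [sq_nonneg (b1 - b2)]⟩
  have h0 : 0 ≤ 32 * M ^ 3 := (abs_nonneg _).trans ea
  have t1 : qa h d1 d2 * b1 ^ 2 ≤ 32 * M ^ 3 * (2 * nf b1 b2) :=
    mul_le_mul (le_of_abs_le ea) k1 (sq_nonneg _) h0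
  have t3 : qc h d1 d2 * b2 ^ 2 ≤ 32 * M ^ 3 * (2 * nf b1 b2) :=
    mul_le_mul (le_of_abs_le ec) k2 (sq_nonneg _) h0
  have t2 : qb h d1 d2 * (b1 * b2) ≤ 32 * M ^ 3 * (2 * nf b1 b2) := by
    refine (le_abs_self _).trans ?_
    rw [abs_mul]
    exact mul_le_mul eb k3 (abs_nonneg _) h0
  unfold QQ
  linarith

lemma disc_le {h d1 d2 M : ℤ} (hh : |h| ≤ M) (hq : 0 < qq h d1 d2) :
    |qq h d1 d2 ^ 2 * rr h d1 d2| ≤ 5 * M ^ 6 := by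
  have l0 := nf_nonneg d1 d2
  have hM : h ^ 2 ≤ M ^ 2 := by
    rw [← sq_abs h]
    exact pow_le_pow_left₀ (abs_nonneg _) hh 2
  have e1 : qq h d1 d2 ≤ M ^ 2 := by unfold qq; linarith
  have e2 : |rr h d1 d2| ≤ 5 * M ^ 2 := by
    unfold qq at hq
    unfold rr
    exact abs_le.2 ⟨by nlinarith [sq_nonneg h], by nlinarith [sq_nonneg M]⟩
  rw [abs_mul, abs_of_nonneg (sq_nonneg _)]
  calc qq h d1 d2 ^ 2 * |rr h d1 d2| ≤ (M ^ 2) ^ 2 * (5 * M ^ 2) := by gcongr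
    _ = 5 * M ^ 6 := by ring

lemma mem_box {x : ℤ × ℤ × ℤ} {H : ℤ} :
    x ∈ box H ↔ |x.1| ≤ H ∧ |x.2.1| ≤ H ∧ |x.2.2| ≤ H := by
  simp only [box, Finset.mem_product, Finset.mem_Icc, abs_le]

lemma card_box {H : ℤ} (hH : 0 ≤ H) : ((box H).card : ℝ) = (2 * (H : ℝ) + 1) ^ 3 := by
  have h1 : (((Finset.Icc (-H) H).card : ℕ) : ℤ) = 2 * H + 1 := by
    rw [Int.card_Icc_of_le _ _ (by omega)]
    ring
  have h2 : (((Finset.Icc (-H) H).card : ℕ) : ℝ) = 2 * (H : ℝ) + 1 := by exact_mod_cast h1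
  simp only [box, Finset.card_product, Nat.cast_mul, h2]
  ring

/-- The bound for one coefficient vector. -/
lemma fibre {η C : ℝ} (hη : 0 < η) (hC : 0 < C)
    (hcon : ∀ (a b c g : ℤ), g ≠ 0 → b ^ 2 - 4 * a * c ≠ 0 →
      (∀ p : ℕ, p.Prime → ¬ ((p : ℤ) ∣ a ∧ (p : ℤ) ∣ b ∧ (p : ℤ) ∣ c)) →
      ∀ (B W : ℝ), 0 ≤ B → 0 ≤ W → ∀ S : Finset (ℤ × ℤ), NP S →
        (∀ x ∈ S, |(x.1 : ℝ)| ≤ B ∧ |(x.2 : ℝ)| ≤ B ∧
          ∃ w : ℤ, |(w : ℝ)| ≤ W ∧ OnC a b c g (x.1, x.2, w)) →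
        (S.card : ℝ) ≤ C * |((g * (b ^ 2 - 4 * a * c) : ℤ) : ℝ)| ^ η *
          (1 + (B ^ 2 * W / |((b ^ 2 - 4 * a * c : ℤ) : ℝ)|) ^ ((1 : ℝ) / 3)))
    {y : ℝ} (hy : 1 ≤ y) {H : ℤ} (hH : (H : ℝ) ≤ 343 * y) {x : ℤ × ℤ × ℤ} (hx : x ∈ box H)
    (S : Finset (ℤ × ℤ)) (hS : NP S) (hY : ∀ b ∈ S, (nf b.1 b.2 : ℝ) ≤ y ^ 3)
    (hP : ∀ b ∈ S, x ∈ PP b.1 b.2) :
    (S.card : ℝ) ≤ C * (15 * 343 ^ 6 * y ^ 6) ^ η * (1 + 460 * y ^ 2 * (((gcd3 x : ℝ) ^ 6) /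
      |((qq x.1 x.2.1 x.2.2 ^ 2 * rr x.1 x.2.1 x.2.2 : ℤ) : ℝ)|) ^ ((1 : ℝ) / 3)) := by
  have hy0 : 0 < y := by linarith
  rcases S.eq_empty_or_nonempty with rfl | ⟨b0, hb0⟩
  · simp only [Finset.card_empty, Nat.cast_zero]
    positivity
  obtain ⟨h0, -, hq, hr, -⟩ := hP b0 hb0
  obtain ⟨x1, x2, x3⟩ := mem_box.1 hx
  have hH0 : (0 : ℝ) ≤ H := by exact_mod_cast (abs_nonneg _).trans x1
  set P : ℤ := qq x.1 x.2.1 x.2.2 ^ 2 * rr x.1 x.2.1 x.2.2 with hPdef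
  have hP0 : P ≠ 0 := mul_ne_zero (pow_ne_zero _ hq.ne') hr
  have hd := disc_QQ x.1 x.2.1 x.2.2
  have hd' : qb x.1 x.2.1 x.2.2 ^ 2 - 4 * qa x.1 x.2.1 x.2.2 * qc x.1 x.2.1 x.2.2 = -3 * P := by
    rw [hd, hPdef]; ring
  obtain ⟨g, a, b, c, hg, ha, hb, hc, hprim⟩ := prim (qa x.1 x.2.1 x.2.2) (qb x.1 x.2.1 x.2.2)
    (qc x.1 x.2.1 x.2.2) (by rw [hd']; exact mul_ne_zero (by norm_num) hP0)
  set D : ℤ := b ^ 2 - 4 * a * c with hD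
  have hgD : g ^ 2 * D = -3 * P := by rw [← hd', ha, hb, hc, hD]; ring
  have hD0 : D ≠ 0 := by
    intro h
    rw [h, mul_zero] at hgD
    exact hP0 (by omega)
  have hsq : Real.sqrt (y ^ 3) ^ 2 = y ^ 3 := Real.sq_sqrt (by positivity)
  have key := hcon a b c g hg.ne' hD0 hprim (2 * Real.sqrt (y ^ 3)) (100000 * y ^ 3)
    (by positivity) (by positivity) S hS (fun z hz => by
      have l1 : (3 : ℝ) * (z.1 : ℝ) ^ 2 ≤ 4 * (nf z.1 z.2 : ℝ) := by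
        exact_mod_cast sq_le_nf_left z.1 z.2
      have l2 : (3 : ℝ) * (z.2 : ℝ) ^ 2 ≤ 4 * (nf z.1 z.2 : ℝ) := by
        exact_mod_cast sq_le_nf_right z.1 z.2
      have l3 := hY z hz
      have l0 : (0 : ℝ) ≤ (nf z.1 z.2 : ℝ) := by exact_mod_cast nf_nonneg z.1 z.2
      refine ⟨abs_le_of_sq_le_sq ?_ (by positivity), abs_le_of_sq_le_sq ?_ (by positivity), ?_⟩
      · rw [mul_pow, hsq]; linarith
      · rw [mul_pow, hsq]; linarith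
      obtain ⟨w, hw⟩ := (hP z hz).2.2.2.2
      refine ⟨w, abs_le_of_sq_le_sq ?_ (by positivity), ?_⟩
      · have e1 := QQ_le x1 x2 x3 z.1 z.2
        rw [hw] at e1
        have e2 : (w : ℝ) * w ≤ 192 * (H : ℝ) ^ 3 * (nf z.1 z.2 : ℝ) := by exact_mod_cast e1
        have e3 : 192 * (H : ℝ) ^ 3 * (nf z.1 z.2 : ℝ) ≤ 192 * (343 * y) ^ 3 * y ^ 3 := by
          gcongr
        have e4 : 0 ≤ y ^ 6 := by positivity
        nlinarith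
      · unfold QQ at hw
        unfold OnC
        rw [ha, hb, hc] at hw
        dsimp only
        linear_combination -hw)
  refine key.trans ?_
  have hgR : (1 : ℝ) ≤ g := by exact_mod_cast hg
  have hDR : 0 < |(D : ℝ)| := abs_pos.2 (by exact_mod_cast hD0)
  have hPR : 0 < |(P : ℝ)| := abs_pos.2 (by exact_mod_cast hP0)
  have hgDR : (g : ℝ) ^ 2 * |(D : ℝ)| = 3 * |(P : ℝ)| := by
    have e : (g : ℝ) ^ 2 * (D : ℝ) = -3 * (P : ℝ) := by exact_mod_cast hgD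
    have e' := congrArg abs e
    rw [abs_mul, abs_mul, abs_of_nonneg (sq_nonneg _)] at e'
    rw [e']
    norm_num
  have hA : |((g * D : ℤ) : ℝ)| ≤ 15 * 343 ^ 6 * y ^ 6 := by
    have e1 : |(P : ℝ)| ≤ 5 * (H : ℝ) ^ 6 := by exact_mod_cast disc_le x1 hq
    have e2 : (H : ℝ) ^ 6 ≤ (343 * y) ^ 6 := by gcongr
    rw [Int.cast_mul, abs_mul, abs_of_pos (by linarith)]
    have e3 : (g : ℝ) * |(D : ℝ)| ≤ (g : ℝ) ^ 2 * |(D : ℝ)| := by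
      gcongr
      nlinarith
    nlinarith
  have hk : (g : ℝ) ≤ 27 * (gcd3 x : ℝ) ^ 3 := by
    have e1 := content_dvd x g ⟨a, ha⟩ ⟨b, hb⟩ ⟨c, hc⟩
    have e2 : 0 < gcd3 x := Nat.gcd_pos_of_pos_left _ (Int.natAbs_pos.2 h0.ne')
    have e3 : g ≤ 27 * (gcd3 x : ℤ) ^ 3 := Int.le_of_dvd (by positivity) e1
    exact_mod_cast e3
  have hB : (2 * Real.sqrt (y ^ 3)) ^ 2 * (100000 * y ^ 3) / |(D : ℝ)| ≤
      (460 * y ^ 2) ^ 3 * ((gcd3 x : ℝ) ^ 6 / |(P : ℝ)|) := by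
    rw [mul_pow, hsq, ← mul_div_assoc, div_le_div_iff₀ hDR hPR]
    have e1 : (g : ℝ) ^ 2 ≤ (27 * (gcd3 x : ℝ) ^ 3) ^ 2 := by gcongr
    have e2 : 3 * |(P : ℝ)| ≤ (27 * (gcd3 x : ℝ) ^ 3) ^ 2 * |(D : ℝ)| := by
      rw [← hgDR]; gcongr
    have e3 : 0 ≤ y ^ 6 := by positivity
    have e4 : 0 ≤ y ^ 6 * ((gcd3 x : ℝ) ^ 6 * |(D : ℝ)|) := by positivity
    have e5 := mul_le_mul_of_nonneg_left e2 e3
    nlinarith
  have hB' : ((2 * Real.sqrt (y ^ 3)) ^ 2 * (100000 * y ^ 3) / |(D : ℝ)|) ^ ((1 : ℝ) / 3) ≤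
      460 * y ^ 2 * ((gcd3 x : ℝ) ^ 6 / |(P : ℝ)|) ^ ((1 : ℝ) / 3) := by
    refine (Real.rpow_le_rpow (by positivity) hB (by norm_num)).trans (le_of_eq ?_)
    rw [Real.mul_rpow (by positivity) (by positivity), one_div,
      show (3 : ℝ)⁻¹ = ((3 : ℕ) : ℝ)⁻¹ by norm_num,
      Real.pow_rpow_inv_natCast (by positivity) (by norm_num)]
  gcongr

end Core

open Pool.Agent.Lib.MP_af4c59_nt.H32.Core in
/-- The core estimate. -/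
theorem core_bound {ε : ℝ} (hε : 0 < ε) : ∃ C : ℝ, 0 < C ∧ ∀ Y : ℝ, 1 ≤ Y →
    ∀ S : Finset (ℤ × ℤ), NP S → (∀ b ∈ S, (nf b.1 b.2 : ℝ) ≤ Y) →
      ∑ b ∈ S, ((PP b.1 b.2).ncard : ℝ) ≤ C * Y ^ (1 + ε) := by
  classical
  obtain ⟨C1, hC1, hcon⟩ := conic_bound (ε := ε / 4) (by positivity)
  obtain ⟨C2, hC2, hsum⟩ := sum_disc hε
  refine ⟨C1 * (15 * 343 ^ 6) ^ (ε / 4) * (687 ^ 3 + 460 * C2 * 343 ^ (1 + ε)),
    by positivity, fun Y hY S hS hb => ?_⟩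
  have hY0 : 0 < Y := by linarith
  set y : ℝ := Y ^ ((3 : ℕ) : ℝ)⁻¹ with hydef
  have hy3 : y ^ 3 = Y := Real.rpow_inv_natCast_pow hY0.le (by norm_num)
  have hy : 1 ≤ y := Real.one_le_rpow hY (by positivity)
  have hy0 : 0 < y := by linarith
  set H : ℤ := ⌈342 * y⌉ with hHdef
  have hH1 : 342 * y ≤ H := Int.le_ceil _
  have hH2 : (H : ℝ) ≤ 343 * y := by
    have := Int.ceil_lt_add_one (342 * y)
    linarith
  have hH3 : 1 ≤ H := by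
    have : (1 : ℝ) ≤ H := by linarith
    exact_mod_cast this
  have hsub : ∀ b ∈ S, ∀ x ∈ PP b.1 b.2, x ∈ box H := by
    intro b hbS x ⟨h0, h1, hq, _⟩
    obtain ⟨e1, e2⟩ := abs_le_of_qq_pos h0 hq
    have h2 : (x.1 : ℝ) ^ 3 ≤ 5000000 * (nf b.1 b.2 : ℝ) := by exact_mod_cast h1
    have h3 : (x.1 : ℝ) ≤ 171 * y := by
      refine le_of_pow_le_pow_left₀ (n := 3) (by norm_num) (by positivity) ?_
      rw [mul_pow, hy3]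
      nlinarith [hb b hbS]
    have h4 : 2 * x.1 ≤ H := by
      have : 2 * (x.1 : ℝ) ≤ H := by linarith
      exact_mod_cast this
    exact mem_box.2 ⟨by rw [abs_of_pos h0]; omega, e1.trans h4, e2.trans h4⟩
  have hcard : ∀ b ∈ S, ((PP b.1 b.2).ncard : ℝ) =
      ∑ x ∈ box H, if x ∈ PP b.1 b.2 then (1 : ℝ) else 0 := by
    intro b hbS
    have : PP b.1 b.2 = ↑((box H).filter (· ∈ PP b.1 b.2)) := by
      ext x
      simp only [Finset.coe_filter, Set.mem_ofPred_eq]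
      exact ⟨fun h => ⟨hsub b hbS x h, h⟩, fun h => h.2⟩
    conv_lhs => rw [this, Set.ncard_coe_finset, Finset.card_filter]
    push_cast
    rfl
  rw [Finset.sum_congr rfl hcard, Finset.sum_comm]
  have hfib : ∀ x ∈ box H, (∑ b ∈ S, if x ∈ PP b.1 b.2 then (1 : ℝ) else 0) ≤
      C1 * (15 * 343 ^ 6 * y ^ 6) ^ (ε / 4) * (1 + 460 * y ^ 2 * (((gcd3 x : ℝ) ^ 6) /
      |((qq x.1 x.2.1 x.2.2 ^ 2 * rr x.1 x.2.1 x.2.2 : ℤ) : ℝ)|) ^ ((1 : ℝ) / 3)) := by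
    intro x hx
    have := fibre (η := ε / 4) (by positivity) hC1 hcon hy hH2 hx
      (S.filter fun b => x ∈ PP b.1 b.2)
      (fun u hu v hv => hS u (Finset.mem_filter.1 hu).1 v (Finset.mem_filter.1 hv).1)
      (fun b h => by rw [hy3]; exact hb b (Finset.mem_filter.1 h).1)
      (fun b h => (Finset.mem_filter.1 h).2)
    rw [Finset.card_filter] at this
    push_cast at this ⊢
    exact this
  refine (Finset.sum_le_sum hfib).trans ?_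
  rw [← Finset.mul_sum, Finset.sum_add_distrib, ← Finset.mul_sum, Finset.sum_const, nsmul_eq_mul,
    mul_one, card_box (by omega)]
  have hHR : (1 : ℝ) ≤ H := by exact_mod_cast hH3
  have e1 : (2 * (H : ℝ) + 1) ^ 3 ≤ 687 ^ 3 * Y := by
    rw [← hy3, ← mul_pow]
    gcongr
    linarith
  have e2 := hsum H hH3
  have e3 : (H : ℝ) ^ (1 + ε) ≤ 343 ^ (1 + ε) * (y * Y ^ (ε / 2)) := by
    refine (Real.rpow_le_rpow (by linarith) hH2 (by positivity)).trans ?_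
    rw [Real.mul_rpow (by norm_num) hy0.le, Real.rpow_add hy0, Real.rpow_one]
    gcongr
    rw [hydef, ← Real.rpow_mul hY0.le]
    refine Real.rpow_le_rpow_of_exponent_le hY ?_
    push_cast
    linarith
  have e4 : (15 * 343 ^ 6 * y ^ 6 : ℝ) ^ (ε / 4) = (15 * 343 ^ 6) ^ (ε / 4) * Y ^ (ε / 2) := by
    have : y ^ 6 = Y ^ (2 : ℝ) := by
      rw [Real.rpow_two, ← hy3]; ring
    rw [Real.mul_rpow (by norm_num) (by positivity), this, ← Real.rpow_mul hY0.le]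
    congr 2
    ring
  have e5 : Y ^ (1 + ε) = Y * Y ^ (ε / 2) * Y ^ (ε / 2) := by
    rw [Real.rpow_add hY0, Real.rpow_one, mul_assoc, ← Real.rpow_add hY0]
    congr 2
    ring
  have e6 : 1 ≤ Y ^ (ε / 2) := Real.one_le_rpow hY (by positivity)
  have e7 : (2 * (H : ℝ) + 1) ^ 3 + 460 * y ^ 2 * ∑ x ∈ box H, (((gcd3 x : ℝ) ^ 6) /
      |((qq x.1 x.2.1 x.2.2 ^ 2 * rr x.1 x.2.1 x.2.2 : ℤ) : ℝ)|) ^ ((1 : ℝ) / 3) ≤
      (687 ^ 3 + 460 * C2 * 343 ^ (1 + ε)) * (Y * Y ^ (ε / 2)) := by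
    have f1 : 687 ^ 3 * Y ≤ 687 ^ 3 * (Y * Y ^ (ε / 2)) := by
      gcongr
      exact le_mul_of_one_le_right hY0.le e6
    have f2 := e2.trans (mul_le_mul_of_nonneg_left e3 hC2.le)
    have f3 := mul_le_mul_of_nonneg_left f2 (show 0 ≤ 460 * y ^ 2 by positivity)
    have f4 : 460 * y ^ 2 * (C2 * (343 ^ (1 + ε) * (y * Y ^ (ε / 2)))) =
        460 * C2 * 343 ^ (1 + ε) * (Y * Y ^ (ε / 2)) := by
      conv_rhs => rw [← hy3]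
      rw [hy3]
      rw [show Y * Y ^ (ε / 2) = y ^ 3 * Y ^ (ε / 2) by rw [hy3]]
      ring
    linarith
  rw [e4, e5]
  calc C1 * ((15 * 343 ^ 6) ^ (ε / 4) * Y ^ (ε / 2)) * _
      ≤ C1 * ((15 * 343 ^ 6) ^ (ε / 4) * Y ^ (ε / 2)) *
        ((687 ^ 3 + 460 * C2 * 343 ^ (1 + ε)) * (Y * Y ^ (ε / 2))) := by gcongr
    _ = _ := by ring

end Pool.Agent.Lib.MP_af4c59_nt.H32
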