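import Pool.Agent.Lib.MP_af4c59_nt.H32Defs

set_option autoImplicit false

namespace Pool.Agent.Lib.MP_af4c59_nt.H32

open NumberField Module IsDedekindDomain

namespace CubA

variable {F : Type*} [Field F] [NumberField F]

/-- Half the sum of the squared differences of the conjugates. -/
def NQ (σ : F ≃ₐ[ℚ] F) (z : F) : F :=
  z ^ 2 + σ z ^ 2 + σ (σ z) ^ 2 - z * σ z - σ z * σ (σ z) - σ (σ z) * z

lemma exists_gen (h3 : finrank ℚ F = 3) [IsGalois ℚ F] : ∃ σ : F ≃ₐ[ℚ] F, σ ≠ 1 ∧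
    (∀ a, σ (σ (σ a)) = a) ∧ ∀ τ : F ≃ₐ[ℚ] F, τ = 1 ∨ τ = σ ∨ τ = σ * σ := by
  have hc : Nat.card (F ≃ₐ[ℚ] F) = 3 := (IsGalois.card_aut_eq_finrank ℚ F).trans h3
  have : Nontrivial (F ≃ₐ[ℚ] F) := Finite.one_lt_card_iff_nontrivial.1 (by omega)
  obtain ⟨σ, hσ⟩ := exists_ne (1 : F ≃ₐ[ℚ] F)
  have h1 : σ * σ * σ = 1 := by
    have := pow_card_eq_one' (x := σ)
    rw [hc] at this
    rw [← this, pow_succ, pow_two]
  refine ⟨σ, hσ, fun a => ?_, fun τ => ?_⟩
  · simpa using congrArg (fun τ : F ≃ₐ[ℚ] F => τ a) h1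
  · have : Fact (Nat.Prime 3) := ⟨Nat.prime_three⟩
    obtain ⟨n, rfl⟩ := mem_powers_of_prime_card hc (g' := τ) hσ
    induction n with
    | zero => exact Or.inl (pow_zero σ)
    | succ n ih =>
      simp only at ih ⊢
      rw [pow_succ]
      rcases ih with h | h | h <;> rw [h]
      · exact Or.inr (Or.inl (one_mul σ))
      · exact Or.inr (Or.inr rfl)
      · exact Or.inl h1

lemma int_of_rat {q : ℚ} (h : IsIntegral ℤ (q : F)) : ∃ n : ℤ, (n : ℚ) = q := by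
  have h1 : IsIntegral ℤ (algebraMap ℚ F q) := by simpa using h
  rw [isIntegral_algebraMap_iff (algebraMap ℚ F).injective] at h1
  simpa using IsIntegrallyClosed.isIntegral_iff.1 h1

lemma int_of_fixed [IsGalois ℚ F] {σ : F ≃ₐ[ℚ] F}
    (cyc : ∀ τ : F ≃ₐ[ℚ] F, τ = 1 ∨ τ = σ ∨ τ = σ * σ) {z : F} (hz : IsIntegral ℤ z)
    (h : σ z = z) : ∃ n : ℤ, z = n := by
  obtain ⟨q, rfl⟩ := (IsGalois.mem_range_algebraMap_iff_fixed (F := ℚ) z).2 fun τ => by
    rcases cyc τ with rfl | rfl | rfl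
    · rfl
    · exact h
    · simp [h]
  obtain ⟨n, rfl⟩ := int_of_rat (F := F) (q := q) (by simpa using hz)
  exact ⟨n, by simp⟩

lemma NQ_fixed {σ : F ≃ₐ[ℚ] F} (σ3 : ∀ a, σ (σ (σ a)) = a) (z : F) : σ (NQ σ z) = NQ σ z := by
  simp only [NQ, map_add, map_sub, map_mul, map_pow, σ3]
  ring

lemma NQ_int (σ : F ≃ₐ[ℚ] F) {z : F} (hz : IsIntegral ℤ z) : IsIntegral ℤ (NQ σ z) := by
  have h1 : IsIntegral ℤ (σ z) := map_isIntegral_int σ hz
  have h2 : IsIntegral ℤ (σ (σ z)) := map_isIntegral_int σ h1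
  exact (((((hz.pow 2).add (h1.pow 2)).add (h2.pow 2)).sub (hz.mul h1)).sub (h1.mul h2)).sub
    (h2.mul hz)

lemma NQ_comb {σ : F ≃ₐ[ℚ] F} (σ3 : ∀ a, σ (σ (σ a)) = a) (θ : F) (r a c : ℚ) :
    NQ σ (r + a * θ + c * σ θ) = ((a ^ 2 - a * c + c ^ 2 : ℚ) : F) * NQ σ θ := by
  simp only [NQ, map_add, map_mul, map_ratCast, σ3]
  push_cast
  ring

lemma NQ_of_fixed {σ : F ≃ₐ[ℚ] F} {z : F} (h : σ z = z) : NQ σ z = 0 := by
  simp only [NQ, h]
  ring

lemma NQ_pos (h3 : finrank ℚ F = 3) {σ : F ≃ₐ[ℚ] F} {z : F} (h : σ z ≠ z) {n : ℤ}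
    (hn : NQ σ z = n) : 0 < n := by
  have h1 := InfinitePlace.nrRealPlaces_pos_of_odd_finrank (K := F) (by rw [h3]; decide)
  classical
  obtain ⟨w, hw⟩ := Fintype.card_pos_iff.1 h1
  set ι : F →+* ℝ := InfinitePlace.embedding_of_isReal hw
  have h2 := congrArg ι hn
  simp only [NQ, map_add, map_sub, map_mul, map_pow, map_intCast] at h2
  have h4 : ι (σ z) - ι z ≠ 0 := sub_ne_zero.2 fun e => h (ι.injective e)
  have h5 : 0 < (ι (σ z) - ι z) ^ 2 := by positivity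
  have h6 : (0 : ℝ) < n := by
    nlinarith [sq_nonneg (ι (σ z) - ι (σ (σ z))), sq_nonneg (ι (σ (σ z)) - ι z)]
  exact_mod_cast h6

lemma exists_not_fixed {σ : F ≃ₐ[ℚ] F} (hσ : σ ≠ 1) : ∃ z : F, IsIntegral ℤ z ∧ σ z ≠ z := by
  by_contra hn
  push Not at hn
  apply hσ
  ext z
  have h1 : IsAlgebraic ℤ z :=
    (IsFractionRing.isAlgebraic_iff ℤ ℚ F).2 (Algebra.IsAlgebraic.isAlgebraic z)
  obtain ⟨y, hy, h2⟩ := h1.exists_integral_multiple
  have h3 := hn _ h2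
  rw [map_zsmul, zsmul_eq_mul, zsmul_eq_mul] at h3
  exact mul_left_cancel₀ (Int.cast_ne_zero.2 hy) h3

lemma nf_zero {a c : ℚ} (h : a ^ 2 - a * c + c ^ 2 = 0) : a = 0 ∧ c = 0 := by
  constructor
  · nlinarith [sq_nonneg (2 * c - a), sq_nonneg a]
  · nlinarith [sq_nonneg (2 * a - c), sq_nonneg c]

lemma span_rat (h3 : finrank ℚ F = 3) {x y : F}
    (indep : ∀ r a c : ℚ, (r : F) + a * x + c * y = 0 → r = 0 ∧ a = 0 ∧ c = 0) (z : F) :
    ∃ r a c : ℚ, z = r + a * x + c * y := by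
  have h1 : LinearIndependent ℚ ![(1 : F), x, y] := by
    rw [Fintype.linearIndependent_iff]
    intro g hg i
    have := indep (g 0) (g 1) (g 2) (by simpa [Fin.sum_univ_three, Rat.smul_def] using hg)
    fin_cases i
    · exact this.1
    · exact this.2.1
    · exact this.2.2
  have h2 := h1.span_eq_top_of_card_eq_finrank (by rw [h3]; simp)
  have h4 : z ∈ Submodule.span ℚ (Set.range ![(1 : F), x, y]) := h2 ▸ Submodule.mem_top
  obtain ⟨g, hg⟩ := (Submodule.mem_span_range_iff_exists_fun ℚ).1 h4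
  exact ⟨g 0, g 1, g 2, by simpa [Fin.sum_univ_three, Rat.smul_def] using hg.symm⟩

end CubA

open CubA in
/-- Structure of the ring of integers of a cyclic cubic field. -/
theorem exists_cub (F : Type*) [Field F] [NumberField F] (h3 : finrank ℚ F = 3)
    [IsGalois ℚ F] : Nonempty (Cub F) := by
  classical
  obtain ⟨σ, hσ, σ3, cyc⟩ := exists_gen h3
  have hN : ∀ z : F, IsIntegral ℤ z → σ z ≠ z → ∃ n : ℕ, 0 < n ∧ NQ σ z = n := by
    intro z hz h
    obtain ⟨n, hn⟩ := int_of_fixed cyc (NQ_int σ hz) (NQ_fixed σ3 z)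
    have h0 := NQ_pos h3 h hn
    lift n to ℕ using h0.le
    exact ⟨n, by exact_mod_cast h0, by simpa using hn⟩
  have hex : ∃ n : ℕ, ∃ z : F, IsIntegral ℤ z ∧ σ z ≠ z ∧ NQ σ z = n := by
    obtain ⟨z, hz, h⟩ := exists_not_fixed hσ
    obtain ⟨n, -, hn⟩ := hN z hz h
    exact ⟨n, z, hz, h, hn⟩
  obtain ⟨θ, θint, θne, hθ⟩ := Nat.find_spec hex
  have hmin : ∀ (n : ℕ) (z : F), IsIntegral ℤ z → σ z ≠ z → NQ σ z = n → Nat.find hex ≤ n :=
    fun n z h1 h2 h3 => Nat.find_min' hex ⟨z, h1, h2, h3⟩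
  generalize Nat.find hex = f at hθ hmin
  have hf : 0 < f := by
    have := NQ_pos h3 θne (n := f) (by simpa using hθ)
    exact_mod_cast this
  have hf0 : (f : F) ≠ 0 := Nat.cast_ne_zero.2 hf.ne'
  have hzero : ∀ r a c : ℚ, σ ((r : F) + a * θ + c * σ θ) = (r : F) + a * θ + c * σ θ →
      a = 0 ∧ c = 0 := by
    intro r a c h
    have h1 := NQ_of_fixed h
    rw [NQ_comb σ3, hθ] at h1
    exact nf_zero (Rat.cast_eq_zero.1 ((mul_eq_zero.1 h1).resolve_right hf0))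
  have indep : ∀ r a c : ℚ, (r : F) + a * θ + c * σ θ = 0 → r = 0 ∧ a = 0 ∧ c = 0 := by
    intro r a c h
    obtain ⟨rfl, rfl⟩ := hzero r a c (by rw [h, map_zero])
    exact ⟨by simpa using h, rfl, rfl⟩
  have σint : IsIntegral ℤ (σ θ) := map_isIntegral_int σ θint
  have hcast : ∀ n : ℤ, IsIntegral ℤ (n : F) := fun n => by
    simpa using isIntegral_algebraMap (R := ℤ) (A := F) (x := n)
  have span : ∀ z : F, IsIntegral ℤ z → ∃ r a c : ℤ, z = r + a * θ + c * σ θ := by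
    intro z hz
    obtain ⟨r, a, c, rfl⟩ := span_rat h3 indep z
    have e : (r : F) + ((a - round a : ℚ) : F) * θ + ((c - round c : ℚ) : F) * σ θ =
        (r : F) + a * θ + c * σ θ - (round a : ℤ) * θ - (round c : ℤ) * σ θ := by
      push_cast
      ring
    have h1 : IsIntegral ℤ
        ((r : F) + ((a - round a : ℚ) : F) * θ + ((c - round c : ℚ) : F) * σ θ) := by
      rw [e]
      exact (hz.sub ((hcast _).mul θint)).sub ((hcast _).mul σint)
    have h2 : a - round a = 0 ∧ c - round c = 0 := by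
      refine hzero r _ _ ?_
      by_contra hne
      obtain ⟨n, -, hn⟩ := hN _ h1 hne
      have h4 : (f : ℚ) ≤ n := by exact_mod_cast hmin n _ h1 hne hn
      rw [NQ_comb σ3, hθ] at hn
      have h5 : ((a - round a) ^ 2 - (a - round a) * (c - round c) + (c - round c) ^ 2) * (f : ℚ)
          = n := by exact_mod_cast hn
      have h6 := abs_le.1 (abs_sub_round a)
      have h7 := abs_le.1 (abs_sub_round c)
      have h8 : (0 : ℚ) < f := by exact_mod_cast hf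
      generalize a - round a = x at h5 h6
      generalize c - round c = y at h5 h7
      have h9 : x ^ 2 - x * y + y ^ 2 ≤ 3 / 4 := by
        nlinarith [mul_nonneg (sub_nonneg.2 h6.1) (sub_nonneg.2 h6.2),
          mul_nonneg (sub_nonneg.2 h7.1) (sub_nonneg.2 h7.2), sq_nonneg (x + y)]
      nlinarith
    rw [h2.1, h2.2] at h1
    obtain ⟨n, rfl⟩ := int_of_rat (F := F) (q := r) (by simpa using h1)
    refine ⟨n, round a, round c, ?_⟩
    conv_lhs => rw [sub_eq_zero.1 h2.1, sub_eq_zero.1 h2.2]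
    simp
  obtain ⟨t, ht⟩ := int_of_fixed cyc ((θint.add σint).add (map_isIntegral_int σ σint))
    (by simp only [map_add, σ3]; ring)
  obtain ⟨c0, c1, c2, hsq⟩ := span _ (θint.pow 2)
  obtain ⟨b1, hb1⟩ : ∃ b : ℤ, b = 3 * c1 - 2 * t := ⟨_, rfl⟩
  obtain ⟨b2, hb2⟩ : ∃ b : ℤ, b = 3 * c2 := ⟨_, rfl⟩
  obtain ⟨e, he⟩ : ∃ e : ℤ, e = 9 * c0 + t ^ 2 + b1 * t + b2 * t := ⟨_, rfl⟩
  obtain ⟨x0, hx0⟩ : ∃ x : F, x = 3 * θ - t := ⟨_, rfl⟩
  obtain ⟨x1, hx1⟩ : ∃ x : F, x = 3 * σ θ - t := ⟨_, rfl⟩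
  have s0 : σ x0 = x1 := by simp [hx0, hx1, map_ofNat]
  have s1 : σ x1 = -x0 - x1 := by
    rw [hx0, hx1]
    simp only [map_sub, map_mul, map_ofNat, map_intCast]
    linear_combination 3 * ht
  have q0 : x0 ^ 2 = e + b1 * x0 + b2 * x1 := by
    rw [hx0, hx1, he, hb1, hb2]
    push_cast
    linear_combination 9 * hsq
  have q1 : x1 ^ 2 = e - b2 * x0 + (b1 - b2) * x1 := by
    have := congrArg σ q0
    simp only [map_pow, map_add, map_mul, map_intCast, s0, s1] at this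
    linear_combination this
  have q2 : 2 * (x0 * x1) = -e + 2 * (b2 - b1) * x0 - 2 * b1 * x1 := by
    have := congrArg σ q1
    simp only [map_pow, map_add, map_sub, map_mul, map_intCast, s0, s1] at this
    linear_combination this - q0 - q1
  have q3 : ((e : F) - 2 * (nf b1 b2 : ℤ)) * (x0 + 2 * x1) = 0 := by
    simp only [nf]
    push_cast
    linear_combination (x0 - 2 * b1) * q2 - 2 * x1 * q0 - 2 * b2 * q1 + 2 * (b2 - b1) * q0
  have q4 : x0 + 2 * x1 ≠ 0 := fun h => by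
    have := (indep (-3 * t) 3 6 (by
      rw [hx0, hx1] at h
      push_cast
      linear_combination h)).2.1
    norm_num at this
  have q5 := sub_eq_zero.1 ((mul_eq_zero.1 q3).resolve_right q4)
  exact ⟨⟨σ, θ, t, b1, b2, h3, inferInstance, cyc, σ3, θint, ht, span, indep, by
    rw [← hx0, ← hx1, q0, q5]⟩⟩

end Pool.Agent.Lib.MP_af4c59_nt.H32
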