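import Pool.Agent.Lib.MP_af4c59_nt.H32Defs

set_option autoImplicit false

namespace Pool.Agent.Lib.MP_af4c59_nt.H32

open NumberField Module IsDedekindDomain

namespace CubB

variable {F : Type*} [Field F] [NumberField F]

lemma int_σθ (c : Cub F) : IsIntegral ℤ (c.σ c.θ) :=
  c.θint.map (c.σ.toAlgHom.toRingHom.toIntAlgHom)

/-- The integral basis. -/
def vec (c : Cub F) : Fin 3 → 𝓞 F := ![1, ⟨c.θ, c.θint⟩, ⟨c.σ c.θ, int_σθ c⟩]

lemma vec0 (c : Cub F) : (vec c 0 : F) = 1 := rfl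

lemma vec1 (c : Cub F) : (vec c 1 : F) = c.θ := rfl

lemma vec2 (c : Cub F) : (vec c 2 : F) = c.σ c.θ := rfl

lemma coe_comb (c : Cub F) (r a d : ℤ) :
    ((r • vec c 0 + a • vec c 1 + d • vec c 2 : 𝓞 F) : F) = r + a * c.θ + d * c.σ c.θ := by
  have h : ∀ x : 𝓞 F, (x : F) = algebraMap (𝓞 F) F x := fun _ => rfl
  rw [h, map_add, map_add, map_zsmul, map_zsmul, map_zsmul, ← h, ← h, ← h, vec0, vec1, vec2]
  simp

lemma vec_li (c : Cub F) : LinearIndependent ℤ (vec c) := by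
  rw [Fintype.linearIndependent_iff]
  intro g hg
  rw [Fin.sum_univ_three] at hg
  have h1 := coe_comb c (g 0) (g 1) (g 2)
  rw [hg] at h1
  obtain ⟨h2, h3, h4⟩ := c.indep (g 0) (g 1) (g 2) (by
    push_cast
    exact h1.symm)
  intro i
  fin_cases i
  · exact_mod_cast h2
  · exact_mod_cast h3
  · exact_mod_cast h4

lemma vec_span (c : Cub F) : ⊤ ≤ Submodule.span ℤ (Set.range (vec c)) := by
  intro z _
  obtain ⟨r, a, d, h⟩ := c.span z z.isIntegral_coe
  have h1 : z = r • vec c 0 + a • vec c 1 + d • vec c 2 :=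
    RingOfIntegers.ext (h.trans (coe_comb c r a d).symm)
  rw [h1]
  have h2 : ∀ i, vec c i ∈ Submodule.span ℤ (Set.range (vec c)) := fun i =>
    Submodule.subset_span ⟨i, rfl⟩
  exact Submodule.add_mem _ (Submodule.add_mem _ (Submodule.smul_mem _ _ (h2 0))
    (Submodule.smul_mem _ _ (h2 1))) (Submodule.smul_mem _ _ (h2 2))

lemma trace_int (c : Cub F) (x y : 𝓞 F) : ((Algebra.trace ℤ (𝓞 F) (x * y) : ℤ) : F) =
    (x : F) * y + c.σ x * c.σ y + c.σ (c.σ x) * c.σ (c.σ y) := by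
  have h1 := c.trace_eq ((x * y : 𝓞 F) : F)
  rw [← Algebra.coe_trace_int, Rat.cast_intCast] at h1
  rw [h1]
  simp

lemma isIntegral_cubic {y : F} {A B : ℤ} (h : y ^ 3 - A * y = B) : IsIntegral ℤ y := by
  refine ⟨Polynomial.X ^ 3 - (Polynomial.C A * Polynomial.X + Polynomial.C B),
    Polynomial.monic_X_pow_sub ?_, ?_⟩
  · exact Polynomial.degree_linear_le.trans_lt (by norm_num)
  · simp only [Polynomial.eval₂_sub, Polynomial.eval₂_add, Polynomial.eval₂_mul,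
      Polynomial.eval₂_X_pow, Polynomial.eval₂_C, Polynomial.eval₂_X]
    simp only [eq_intCast]
    linear_combination h

lemma key (c : Cub F) (a d n A B : ℤ) (hn : n ≠ 0) (hA : n ^ 2 * A = 3 * c.f * nf a d)
    (hB : n ^ 3 * B = c.f * (cX a d * (2 * c.b1 - c.b2) + cY a d * (2 * c.b2 - c.b1))) :
    n ∣ 3 * a ∧ n ∣ 3 * d := by
  have hn' : (n : F) ≠ 0 := Int.cast_ne_zero.2 hn
  have h1 := c.cubic a d
  have hA' := congrArg (Int.cast : ℤ → F) hA
  have hB' := congrArg (Int.cast : ℤ → F) hB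
  simp only [nf, cX, cY] at hA' hB'
  push_cast at hA' hB'
  obtain ⟨y, hy⟩ : ∃ y : F, (a : F) * c.x0 + d * c.x1 = n * y :=
    ⟨((a : F) * c.x0 + d * c.x1) / n, by field_simp⟩
  have h2 : y ^ 3 - A * y = B := by
    apply mul_left_cancel₀ (pow_ne_zero 3 hn')
    rw [hy] at h1
    linear_combination h1 - n * y * hA' - hB'
  obtain ⟨s, a', d', h3, -⟩ := c.coord y (isIntegral_cubic h2)
  obtain ⟨-, h4, h5⟩ := c.indep' ((n * s : ℤ) : ℚ) ((n * a' - 3 * a : ℤ) : ℚ)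
    ((n * d' - 3 * d : ℤ) : ℚ) (by
      push_cast
      linear_combination -3 * hy - n * h3)
  have h6 : n * a' - 3 * a = 0 := by exact_mod_cast h4
  have h7 : n * d' - 3 * d = 0 := by exact_mod_cast h5
  exact ⟨⟨a', by linarith⟩, ⟨d', by linarith⟩⟩

lemma not_sq_dvd (c : Cub F) {p : ℕ} (hp : p.Prime) (h3 : p ≠ 3) : ¬ (p : ℤ) ^ 2 ∣ c.f := by
  rintro ⟨m, hm⟩
  have hp0 : (p : ℤ) ≠ 0 := Int.natCast_ne_zero.2 hp.ne_zero
  have hp' : Prime (p : ℤ) := Nat.prime_iff_prime_int.1 hp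
  have hp3 : ¬ (p : ℤ) ∣ 3 := fun h =>
    h3 ((Nat.prime_dvd_prime_iff_eq hp Nat.prime_three).1 (by exact_mod_cast h))
  have hf : c.f = c.b1 ^ 2 - c.b1 * c.b2 + c.b2 ^ 2 := rfl
  obtain ⟨h1, h2⟩ := key c c.b1 c.b2 p (3 * m * c.f)
    (p * m ^ 2 * (2 * c.b1 ^ 2 - 2 * c.b1 * c.b2 - c.b2 ^ 2)) hp0
    (by
      change _ = 3 * c.f * c.f
      linear_combination -3 * c.f * hm)
    (by
      have e : cX c.b1 c.b2 * (2 * c.b1 - c.b2) + cY c.b1 c.b2 * (2 * c.b2 - c.b1) =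
          c.f * (2 * c.b1 ^ 2 - 2 * c.b1 * c.b2 - c.b2 ^ 2) := by
        rw [hf, cX, cY]
        ring
      rw [e, hm]
      ring)
  obtain ⟨u, hu⟩ := (hp'.dvd_or_dvd h1).resolve_left hp3
  obtain ⟨v, hv⟩ := (hp'.dvd_or_dvd h2).resolve_left hp3
  obtain ⟨h4, -⟩ := key c 1 0 p (3 * m) (m * (2 * u - v)) hp0
    (by
      rw [hm, nf]
      ring)
    (by
      rw [hm, cX, cY, hu, hv]
      ring)
  exact hp3 (by simpa using h4)

lemma not_dvd27 (c : Cub F) : ¬ (27 : ℤ) ∣ c.f := by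
  rintro ⟨m, hm⟩
  have hf : c.f = c.b1 ^ 2 - c.b1 * c.b2 + c.b2 ^ 2 := rfl
  have h3 : Prime (3 : ℤ) := Int.prime_three
  obtain ⟨k, hk⟩ : (3 : ℤ) ∣ 2 * c.b1 - c.b2 :=
    h3.dvd_of_dvd_pow (n := 2) ⟨36 * m - c.b2 ^ 2, by linear_combination 4 * hm - 4 * hf⟩
  obtain ⟨v, hv⟩ : (3 : ℤ) ∣ c.b2 := by
    refine h3.dvd_of_dvd_pow (n := 2) ⟨12 * m - k ^ 2, ?_⟩
    have h4 : (2 * c.b1 - c.b2) ^ 2 + 3 * c.b2 ^ 2 = 108 * m := by
      linear_combination 4 * hm - 4 * hf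
    rw [hk] at h4
    linarith
  obtain ⟨h4, -⟩ := key c 1 (-1) 9 (3 * m) (-(m * v)) (by norm_num)
    (by
      rw [hm, nf]
      ring)
    (by
      rw [hm, cX, cY, hv]
      ring)
  norm_num at h4

lemma root_mem {F : IntermediateField ℚ Ω} [NumberField F] (c : Cub F) (t : ℚ) {X : Ω}
    (h : X ^ 3 - 3 * (t ^ 2 * c.f) * X = t ^ 2 * c.f * (t * (2 * c.b1 - c.b2))) : X ∈ F := by
  have h1 := congrArg (algebraMap F Ω) (c.norm_coord 0 1 0)
  have h2 : c.x0 ^ 2 + c.x0 * c.x1 + c.x1 ^ 2 = 3 * c.f := by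
    linear_combination c.sq0 + c.mul01 + c.sq1
  have h3 := congrArg (algebraMap F Ω) h2
  simp only [map_add, map_sub, map_mul, map_pow, map_neg, map_intCast, map_ofNat, map_zero,
    map_one] at h1 h3
  have m0 : algebraMap F Ω c.x0 ∈ F := c.x0.2
  have m1 : algebraMap F Ω c.x1 ∈ F := c.x1.2
  have mt : (t : Ω) ∈ F := SubfieldClass.ratCast_mem F t
  generalize algebraMap F Ω c.x0 = y0 at h1 h3 m0
  generalize algebraMap F Ω c.x1 = y1 at h1 h3 m1
  have h4 : (X - t * y0) * (X - t * y1) * (X - t * (-y0 - y1)) = 0 := by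
    linear_combination h - (t : Ω) ^ 2 * X * h3 - (t : Ω) ^ 3 * h1
  rcases mul_eq_zero.1 h4 with h5 | h5
  · rcases mul_eq_zero.1 h5 with h6 | h6
    · rw [sub_eq_zero.1 h6]
      exact mul_mem mt m0
    · rw [sub_eq_zero.1 h6]
      exact mul_mem mt m1
  · rw [sub_eq_zero.1 h5]
    exact mul_mem mt (sub_mem (neg_mem m0) m1)

lemma field_le {F F' : IntermediateField ℚ Ω} [NumberField F] [NumberField F']
    (c : Cub F) (c' : Cub F') (h : c.b1 * c'.b2 = c.b2 * c'.b1) : F' ≤ F := by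
  have hf := c.f_pos
  have hf' : c.f = c.b1 ^ 2 - c.b1 * c.b2 + c.b2 ^ 2 := rfl
  have hq : (c.b1 : ℚ) * c'.b2 = c.b2 * c'.b1 := by exact_mod_cast h
  obtain ⟨t, ht1, ht2⟩ : ∃ t : ℚ, (c'.b1 : ℚ) = t * c.b1 ∧ (c'.b2 : ℚ) = t * c.b2 := by
    by_cases h1 : c.b1 = 0
    · have h2 : c.b2 ≠ 0 := by
        intro h2
        rw [hf', h1, h2] at hf
        simp at hf
      have h3 : (c.b2 : ℚ) ≠ 0 := Int.cast_ne_zero.2 h2
      refine ⟨c'.b2 / c.b2, ?_, by field_simp⟩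
      field_simp
      linarith
    · have h3 : (c.b1 : ℚ) ≠ 0 := Int.cast_ne_zero.2 h1
      refine ⟨c'.b1 / c.b1, by field_simp, ?_⟩
      field_simp
      linarith
  have e1 : (c'.b1 : Ω) = t * c.b1 := by exact_mod_cast congrArg (Rat.cast : ℚ → Ω) ht1
  have e2 : (c'.b2 : Ω) = t * c.b2 := by exact_mod_cast congrArg (Rat.cast : ℚ → Ω) ht2
  have e3 : (c'.f : Ω) = t ^ 2 * c.f := by
    simp only [Cub.f, nf]
    push_cast
    rw [e1, e2]
    ring
  have h1 := congrArg (algebraMap F' Ω) (c'.cubic 1 0)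
  have h2 := congrArg (algebraMap F' Ω) (c'.cubic 0 1)
  simp only [map_add, map_sub, map_mul, map_pow, map_intCast, map_ofNat, map_zero,
    map_one] at h1 h2
  rw [e1, e2, e3] at h1 h2
  have m0 : algebraMap F' Ω c'.x0 ∈ F := root_mem c t (by linear_combination h1)
  have m1 : algebraMap F' Ω c'.x1 ∈ F := root_mem c t (by linear_combination h2)
  intro z hz
  have ha : IsAlgebraic ℤ (⟨z, hz⟩ : F') :=
    (IsFractionRing.isAlgebraic_iff ℤ ℚ F').2 (Algebra.IsAlgebraic.isAlgebraic _)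
  obtain ⟨n, hn, hi⟩ := ha.exists_integral_multiple
  obtain ⟨s, a, d, h3, -⟩ := c'.coord _ hi
  have h4 := congrArg (algebraMap F' Ω) h3
  simp only [map_add, map_mul, map_intCast, map_ofNat, zsmul_eq_mul] at h4
  have hn' : (n : Ω) ≠ 0 := Int.cast_ne_zero.2 hn
  have h5 : z = ((s : Ω) + a * algebraMap F' Ω c'.x0 + d * algebraMap F' Ω c'.x1) /
      ((3 * n : ℤ) : Ω) := by
    rw [← h4]
    push_cast
    field_simp
    rfl
  rw [h5]
  exact div_mem (add_mem (add_mem (intCast_mem F s) (mul_mem (intCast_mem F a) m0))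
    (mul_mem (intCast_mem F d) m1)) (intCast_mem F _)

end CubB

theorem Cub.discr_eq {F : Type*} [Field F] [NumberField F] (c : Cub F) :
    discr F = c.f ^ 2 := by
  rw [← discr_eq_discr F (Basis.mk (CubB.vec_li c) (CubB.vec_span c)), Basis.coe_mk,
    Algebra.discr_def, Matrix.det_fin_three]
  apply Int.cast_injective (α := F)
  simp only [Algebra.traceMatrix_apply, Algebra.traceForm_apply]
  push_cast
  simp only [CubB.trace_int c, CubB.vec0, CubB.vec1, CubB.vec2, map_one, c.σ3]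
  have h1 : c.σ (c.σ c.θ) = c.t - c.θ - c.σ c.θ := by linear_combination c.tr
  have h2 : c.x0 ^ 2 + c.x0 * c.x1 + c.x1 ^ 2 = 3 * c.f := by
    linear_combination c.sq0 + c.mul01 + c.sq1
  rw [h1]
  simp only [Cub.x0, Cub.x1] at h2
  linear_combination (((3 * c.θ - c.t) ^ 2 + (3 * c.θ - c.t) * (3 * c.σ c.θ - c.t) +
    (3 * c.σ c.θ - c.t) ^ 2) / 9 + (c.f : F) / 3) * h2

/-- The conductor is squarefree up to a factor `9`. -/
theorem Cub.dvd_nine {F : Type*} [Field F] [NumberField F] (c : Cub F) (D : ℕ)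
    (h : ∀ p : ℕ, p.Prime → (p : ℤ) ∣ c.f → p ∣ D) : c.f ∣ 9 * (D : ℤ) := by
  have h1 : c.f.natAbs ∣ 9 * D := by
    rw [Nat.dvd_iff_prime_pow_dvd_dvd]
    intro p k hp hk
    have hk' : (p : ℤ) ^ k ∣ c.f := by
      rw [← Int.natCast_dvd] at hk
      exact_mod_cast hk
    by_cases h3 : p = 3
    · subst h3
      have h4 : k ≤ 2 := by
        by_contra h5
        exact CubB.not_dvd27 c ((pow_dvd_pow (3 : ℤ) (show 3 ≤ k by omega)).trans hk')
      exact (pow_dvd_pow 3 h4).trans (Dvd.intro D rfl)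
    · have h4 : k ≤ 1 := by
        by_contra h5
        exact CubB.not_sq_dvd c hp h3 ((pow_dvd_pow (p : ℤ) (show 2 ≤ k by omega)).trans hk')
      interval_cases k
      · simp
      · rw [pow_one] at hk' ⊢
        exact (h p hp hk').mul_left 9
  rw [← Int.natAbs_dvd]
  exact_mod_cast h1

/-- The projective class of the structure constants determines the field. -/
theorem Cub.field_eq {F F' : IntermediateField ℚ Ω} [NumberField F] [NumberField F']
    (c : Cub F) (c' : Cub F') (h : c.b1 * c'.b2 = c.b2 * c'.b1) : F = F' :=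
  le_antisymm (CubB.field_le c' c (by linarith)) (CubB.field_le c c' h)

end Pool.Agent.Lib.MP_af4c59_nt.H32
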