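import Pool.Agent.Lib.MP_af4c59_nt.Gen

/-!
Definitions and elementary algebra for the count of quartic fields with group `A_4`.
-/

set_option autoImplicit false

namespace Pool.Agent.Lib.MP_af4c59_nt.H32

open NumberField Module IsDedekindDomain

/-! ### Integer data -/

/-- The norm form of the Eisenstein integers. -/
def nf (a b : ℤ) : ℤ := a ^ 2 - a * b + b ^ 2

/-- First coordinate of the cube of `d1 + d2 ω`. -/
def cX (d1 d2 : ℤ) : ℤ := d1 ^ 3 - 3 * d1 * d2 ^ 2 + d2 ^ 3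

/-- Second coordinate of the cube of `d1 + d2 ω`. -/
def cY (d1 d2 : ℤ) : ℤ := 3 * d1 ^ 2 * d2 - 3 * d1 * d2 ^ 2

/-- The middle coefficient. -/
def cc (h d1 d2 : ℤ) : ℤ := h ^ 3 - 3 * h * nf d1 d2

/-- Coefficient of `b1 ^ 2`. -/
def qa (h d1 d2 : ℤ) : ℤ := 2 * cX d1 d2 - cY d1 d2 + cc h d1 d2

/-- Coefficient of `b1 * b2`. -/
def qb (h d1 d2 : ℤ) : ℤ := -2 * (cX d1 d2 + cY d1 d2) - cc h d1 d2

/-- Coefficient of `b2 ^ 2`. -/
def qc (h d1 d2 : ℤ) : ℤ := -cX d1 d2 + 2 * cY d1 d2 + cc h d1 d2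

/-- The binary quadratic form in `(b1, b2)`. -/
def QQ (h d1 d2 b1 b2 : ℤ) : ℤ :=
  qa h d1 d2 * b1 ^ 2 + qb h d1 d2 * b1 * b2 + qc h d1 d2 * b2 ^ 2

/-- First factor of the discriminant. -/
def qq (h d1 d2 : ℤ) : ℤ := h ^ 2 - nf d1 d2

/-- Second factor of the discriminant. -/
def rr (h d1 d2 : ℤ) : ℤ := h ^ 2 - 4 * nf d1 d2

lemma disc_QQ (h d1 d2 : ℤ) :
    qb h d1 d2 ^ 2 - 4 * qa h d1 d2 * qc h d1 d2 = -3 * qq h d1 d2 ^ 2 * rr h d1 d2 := by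
  simp only [qa, qb, qc, qq, rr, cc, cX, cY, nf]; ring

lemma nf_nonneg (a b : ℤ) : 0 ≤ nf a b := by
  unfold nf; nlinarith [sq_nonneg (2 * a - b), sq_nonneg b]

lemma sq_le_nf_left (a b : ℤ) : 3 * a ^ 2 ≤ 4 * nf a b := by
  unfold nf; nlinarith [sq_nonneg (2 * b - a)]

lemma sq_le_nf_right (a b : ℤ) : 3 * b ^ 2 ≤ 4 * nf a b := by
  unfold nf; nlinarith [sq_nonneg (2 * a - b)]

/-- The small coefficient vectors `(h, d1, d2)` whose conic passes through `(b1, b2)`. -/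
def PP (b1 b2 : ℤ) : Set (ℤ × ℤ × ℤ) :=
  {x | 0 < x.1 ∧ x.1 ^ 3 ≤ 5000000 * nf b1 b2 ∧ 0 < qq x.1 x.2.1 x.2.2 ∧
    rr x.1 x.2.1 x.2.2 ≠ 0 ∧ IsSquare (QQ x.1 x.2.1 x.2.2 b1 b2)}

lemma abs_le_of_qq_pos {h d1 d2 : ℤ} (h0 : 0 < h) (hq : 0 < qq h d1 d2) :
    |d1| ≤ 2 * h ∧ |d2| ≤ 2 * h := by
  have h1 := sq_le_nf_left d1 d2
  have h2 := sq_le_nf_right d1 d2
  unfold qq at hq
  constructor <;> refine abs_le_of_sq_le_sq' ?_ (by omega) |> abs_le.2 <;> nlinarith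

lemma PP_finite (b1 b2 : ℤ) : (PP b1 b2).Finite := by
  set N := 5000000 * nf b1 b2
  refine ((Set.finite_Icc (0 : ℤ) N).prod ((Set.finite_Icc (-(2 * N)) (2 * N)).prod
    (Set.finite_Icc (-(2 * N)) (2 * N)))).subset ?_
  rintro ⟨h, d1, d2⟩ ⟨h0, h1, hq, -⟩
  obtain ⟨e1, e2⟩ := abs_le_of_qq_pos h0 hq
  dsimp only at h0 h1 e1 e2
  have hN : h ≤ N := by
    refine le_trans ?_ h1
    nlinarith [mul_pos h0 h0, mul_nonneg h0.le (mul_self_nonneg (h - 1))]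
  rw [abs_le] at e1 e2
  simp only [Set.mem_prod, Set.mem_Icc]
  omega

/-- The elements of `S` are pairwise non-proportional. -/
def NP (S : Finset (ℤ × ℤ)) : Prop := ∀ x ∈ S, ∀ y ∈ S, x ≠ y → x.1 * y.2 ≠ x.2 * y.1

/-- The determinant of three integer vectors. -/
def det3 (x y z : ℤ × ℤ × ℤ) : ℤ :=
  x.1 * (y.2.1 * z.2.2 - y.2.2 * z.2.1) - x.2.1 * (y.1 * z.2.2 - y.2.2 * z.1) +
    x.2.2 * (y.1 * z.2.1 - y.2.1 * z.1)

/-- The point `(u, m, w)` lies on the conic `w ^ 2 = g (a u ^ 2 + b u m + c m ^ 2)`. -/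
def OnC (a b c g : ℤ) (x : ℤ × ℤ × ℤ) : Prop :=
  x.2.2 ^ 2 = g * (a * x.1 ^ 2 + b * x.1 * x.2.1 + c * x.2.1 ^ 2)

/-- The cube `[-T, T] ^ 3`. -/
noncomputable def box (T : ℤ) : Finset (ℤ × ℤ × ℤ) :=
  Finset.Icc (-T) T ×ˢ Finset.Icc (-T) T ×ˢ Finset.Icc (-T) T

/-- The greatest common divisor of three integers. -/
def gcd3 (x : ℤ × ℤ × ℤ) : ℕ := Nat.gcd x.1.natAbs (Int.gcd x.2.1 x.2.2)

/-! ### Cyclic cubic fields -/

/-- A cyclic cubic field with a generator of its Galois group and an integral basis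
`1, θ, σ θ`. -/
structure Cub (F : Type*) [Field F] [NumberField F] where
  /-- generator of the Galois group -/
  σ : F ≃ₐ[ℚ] F
  /-- generator of the ring of integers -/
  θ : F
  /-- trace of `θ` -/
  t : ℤ
  /-- first structure constant -/
  b1 : ℤ
  /-- second structure constant -/
  b2 : ℤ
  rank : finrank ℚ F = 3
  gal : IsGalois ℚ F
  cyc : ∀ τ : F ≃ₐ[ℚ] F, τ = 1 ∨ τ = σ ∨ τ = σ * σ
  σ3 : ∀ a, σ (σ (σ a)) = a
  θint : IsIntegral ℤ θ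
  tr : θ + σ θ + σ (σ θ) = t
  span : ∀ z : F, IsIntegral ℤ z → ∃ r a c : ℤ, z = r + a * θ + c * σ θ
  indep : ∀ r a c : ℚ, (r : F) + a * θ + c * σ θ = 0 → r = 0 ∧ a = 0 ∧ c = 0
  sq : (3 * θ - t) ^ 2 = 2 * (nf b1 b2 : ℤ) + b1 * (3 * θ - t) + b2 * (3 * σ θ - t)

namespace Cub

variable {F : Type*} [Field F] [NumberField F] (c : Cub F)

/-- The conductor. -/
def f : ℤ := nf c.b1 c.b2

/-- The trace zero element `3 θ - t`. -/
def x0 : F := 3 * c.θ - c.t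

/-- Its conjugate. -/
def x1 : F := 3 * c.σ c.θ - c.t

/-- The general element of the lattice spanned by `f, x0 ^ 2, x1 ^ 2`. -/
def eta (h d1 d2 : ℤ) : F := h * c.f + d1 * (c.x0 ^ 2 - 2 * c.f) + d2 * (c.x1 ^ 2 - 2 * c.f)

lemma σ_x0 : c.σ c.x0 = c.x1 := by
  simp [x0, x1, map_ofNat]

lemma σ_x1 : c.σ c.x1 = -c.x0 - c.x1 := by
  have := c.tr
  simp only [x0, x1, map_sub, map_mul, map_ofNat, map_intCast]
  linear_combination 3 * this

lemma sq0 : c.x0 ^ 2 = 2 * c.f + c.b1 * c.x0 + c.b2 * c.x1 := c.sq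

lemma sq1 : c.x1 ^ 2 = 2 * c.f - c.b2 * c.x0 + (c.b1 - c.b2) * c.x1 := by
  have := congrArg c.σ c.sq0
  simp only [map_pow, map_add, map_mul, map_ofNat, map_intCast, σ_x0, σ_x1] at this
  linear_combination this

lemma mul01 : c.x0 * c.x1 = -c.f + (c.b2 - c.b1) * c.x0 - c.b1 * c.x1 := by
  have := congrArg c.σ c.sq1
  simp only [map_pow, map_add, map_sub, map_mul, map_ofNat, map_intCast, σ_x0, σ_x1] at this
  have h2 : (2 : F) ≠ 0 := two_ne_zero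
  apply mul_left_cancel₀ h2
  linear_combination this - c.sq0 - c.sq1

lemma f_cast : (c.f : F) = (c.b1 : F) ^ 2 - c.b1 * c.b2 + (c.b2 : F) ^ 2 := by
  simp [f, nf]

lemma indep' (r a d : ℚ) (h : (r : F) + a * c.x0 + d * c.x1 = 0) : r = 0 ∧ a = 0 ∧ d = 0 := by
  have := c.indep (r - (a + d) * c.t) (3 * a) (3 * d) (by
    push_cast
    simp only [x0, x1] at h
    linear_combination h)
  obtain ⟨h1, h2, h3⟩ := this
  have ha : a = 0 := by linarith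
  have hd : d = 0 := by linarith
  refine ⟨?_, ha, hd⟩
  rw [ha, hd] at h1
  simpa using h1

lemma x0_ne_zero : c.x0 ≠ 0 := fun h => by
  have := c.indep' 0 1 0 (by simp [h])
  simp at this

lemma f_pos : 0 < c.f := by
  rcases (nf_nonneg c.b1 c.b2).lt_or_eq with h | h
  · exact h
  exfalso
  have h1 := sq_le_nf_left c.b1 c.b2
  have h2 := sq_le_nf_right c.b1 c.b2
  have e1 : c.b1 = 0 := by nlinarith [sq_nonneg c.b1]
  have e2 : c.b2 = 0 := by nlinarith [sq_nonneg c.b2]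
  have := c.sq0
  rw [f, ← h, e1, e2] at this
  exact c.x0_ne_zero (by simpa using this)

/-- Every integer is a third of an integral combination of `1, x0, x1`; the first coordinate is
the trace. -/
lemma coord (z : F) (hz : IsIntegral ℤ z) : ∃ s a d : ℤ, 3 * z = s + a * c.x0 + d * c.x1 ∧
    z + c.σ z + c.σ (c.σ z) = s := by
  obtain ⟨r, a, d, h⟩ := c.span z hz
  have h1 : 3 * z = ((3 * r + (a + d) * c.t : ℤ) : F) + a * c.x0 + d * c.x1 := by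
    rw [h]; simp only [x0, x1]; push_cast; ring
  refine ⟨_, a, d, h1, ?_⟩
  have h2 := congrArg c.σ h1
  have h3 := congrArg c.σ h2
  simp only [map_add, map_sub, map_neg, map_mul, map_ofNat, map_intCast, σ_x0, σ_x1] at h2 h3
  have h4 : (3 : F) ≠ 0 := three_ne_zero
  apply mul_left_cancel₀ h4
  linear_combination h1 + h2 + h3

/-- Multiplication in coordinates. -/
lemma mul_coord (r a d r' a' d' : F) :
    (r + a * c.x0 + d * c.x1) * (r' + a' * c.x0 + d' * c.x1) =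
      (r * r' + c.f * (2 * a * a' + 2 * d * d' - a * d' - d * a')) +
      (r * a' + a * r' + a * a' * c.b1 + (a * d' + d * a') * (c.b2 - c.b1) - d * d' * c.b2) * c.x0 +
      (r * d' + d * r' + a * a' * c.b2 - (a * d' + d * a') * c.b1 +
        d * d' * (c.b1 - c.b2)) * c.x1 := by
  linear_combination a * a' * c.sq0 + (a * d' + d * a') * c.mul01 + d * d' * c.sq1

/-- The second symmetric function in coordinates. -/
lemma e2_coord (r a d : F) :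
    (r + a * c.x0 + d * c.x1) * (r + a * c.x1 + d * (-c.x0 - c.x1)) +
      (r + a * c.x1 + d * (-c.x0 - c.x1)) * (r + a * (-c.x0 - c.x1) + d * c.x0) +
      (r + a * (-c.x0 - c.x1) + d * c.x0) * (r + a * c.x0 + d * c.x1) =
      3 * r ^ 2 - 3 * c.f * (a ^ 2 - a * d + d ^ 2) := by
  linear_combination (-(a ^ 2 - a * d + d ^ 2)) * (c.sq0 + c.mul01 + c.sq1)

/-- The norm in coordinates. -/
lemma norm_coord (r a d : F) :
    (r + a * c.x0 + d * c.x1) * (r + a * c.x1 + d * (-c.x0 - c.x1)) *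
      (r + a * (-c.x0 - c.x1) + d * c.x0) =
      r ^ 3 - 3 * r * c.f * (a ^ 2 - a * d + d ^ 2) +
        c.f * ((a ^ 3 - 3 * a * d ^ 2 + d ^ 3) * (2 * c.b1 - c.b2) +
          (3 * a ^ 2 * d - 3 * a * d ^ 2) * (2 * c.b2 - c.b1)) := by
  have e1 : r + a * c.x1 + d * (-c.x0 - c.x1) = r + (-d) * c.x0 + (a - d) * c.x1 := by ring
  have e2 : r + a * (-c.x0 - c.x1) + d * c.x0 = r + (d - a) * c.x0 + (-a) * c.x1 := by ring
  rw [e1, e2, mul_coord, mul_coord, f_cast]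
  ring

/-- The cubic equation of a trace zero element. -/
lemma cubic (a d : F) :
    (a * c.x0 + d * c.x1) ^ 3 - 3 * c.f * (a ^ 2 - a * d + d ^ 2) * (a * c.x0 + d * c.x1) =
        c.f * ((a ^ 3 - 3 * a * d ^ 2 + d ^ 3) * (2 * c.b1 - c.b2) +
          (3 * a ^ 2 * d - 3 * a * d ^ 2) * (2 * c.b2 - c.b1)) := by
  have e1 : (a * c.x0 + d * c.x1) ^ 3 =
      (0 + a * c.x0 + d * c.x1) * (0 + a * c.x0 + d * c.x1) * (0 + a * c.x0 + d * c.x1) := by ring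
  rw [e1, mul_coord, mul_coord, f_cast]
  ring

lemma eta_coord (h d1 d2 : ℤ) : c.eta h d1 d2 =
    h * c.f + (d1 * c.b1 - d2 * c.b2) * c.x0 + (d1 * c.b2 + d2 * (c.b1 - c.b2)) * c.x1 := by
  rw [eta, sq0, sq1]; ring

lemma σ_eta (h d1 d2 : ℤ) : c.σ (c.eta h d1 d2) =
    h * c.f + (d1 * c.b1 - d2 * c.b2) * c.x1 +
      (d1 * c.b2 + d2 * (c.b1 - c.b2)) * (-c.x0 - c.x1) := by
  rw [eta_coord]
  simp only [map_add, map_sub, map_mul, map_intCast, σ_x0, σ_x1]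

lemma σσ_eta (h d1 d2 : ℤ) : c.σ (c.σ (c.eta h d1 d2)) =
    h * c.f + (d1 * c.b1 - d2 * c.b2) * (-c.x0 - c.x1) +
      (d1 * c.b2 + d2 * (c.b1 - c.b2)) * c.x0 := by
  rw [σ_eta]
  simp only [map_add, map_sub, map_neg, map_mul, map_intCast, σ_x0, σ_x1]
  ring

lemma eta_trace (h d1 d2 : ℤ) :
    c.eta h d1 d2 + c.σ (c.eta h d1 d2) + c.σ (c.σ (c.eta h d1 d2)) = 3 * h * c.f := by
  rw [σσ_eta, σ_eta, eta_coord]; ring

lemma eta_e2 (h d1 d2 : ℤ) :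
    c.eta h d1 d2 * c.σ (c.eta h d1 d2) + c.σ (c.eta h d1 d2) * c.σ (c.σ (c.eta h d1 d2)) +
      c.σ (c.σ (c.eta h d1 d2)) * c.eta h d1 d2 = 3 * (c.f : F) ^ 2 * (qq h d1 d2 : ℤ) := by
  rw [σσ_eta, σ_eta, eta_coord, e2_coord, f_cast]
  simp only [qq, nf]; push_cast; ring

lemma eta_norm (h d1 d2 : ℤ) :
    c.eta h d1 d2 * c.σ (c.eta h d1 d2) * c.σ (c.σ (c.eta h d1 d2)) =
      (c.f : F) ^ 2 * (QQ h d1 d2 c.b1 c.b2 : ℤ) := by
  rw [σσ_eta, σ_eta, eta_coord, norm_coord, f_cast]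
  simp only [QQ, qa, qb, qc, cc, cX, cY, nf]; push_cast; ring

lemma σ_ne_one : c.σ ≠ 1 := fun h => by
  have := c.indep 0 1 (-1) (by simp [h])
  simp at this

lemma σσ_ne_one : c.σ * c.σ ≠ 1 := fun h => by
  apply c.σ_ne_one
  ext a
  have h1 : c.σ (c.σ a) = a := by simpa using congrArg (fun τ : F ≃ₐ[ℚ] F => τ a) h
  have h2 := c.σ3 a
  rwa [h1] at h2

lemma univ_eq [DecidableEq (F ≃ₐ[ℚ] F)] :
    (Finset.univ : Finset (F ≃ₐ[ℚ] F)) = {1, c.σ, c.σ * c.σ} := by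
  ext τ; simpa using c.cyc τ

lemma norm_eq (a : F) : ((Algebra.norm ℚ a : ℚ) : F) = a * c.σ a * c.σ (c.σ a) := by
  classical
  have := c.gal
  have h := Algebra.norm_eq_prod_automorphisms ℚ a
  have h1 : (1 : F ≃ₐ[ℚ] F) ∉ ({c.σ, c.σ * c.σ} : Finset (F ≃ₐ[ℚ] F)) := by
    simp [c.σ_ne_one.symm, c.σσ_ne_one.symm]
  have h2 : c.σ ∉ ({c.σ * c.σ} : Finset (F ≃ₐ[ℚ] F)) := by
    simp [c.σ_ne_one]
  rw [c.univ_eq, Finset.prod_insert h1, Finset.prod_insert h2, Finset.prod_singleton] at h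
  rw [mul_assoc]
  simpa using h

lemma trace_eq (a : F) : ((Algebra.trace ℚ F a : ℚ) : F) = a + c.σ a + c.σ (c.σ a) := by
  classical
  have := c.gal
  have h := trace_eq_sum_automorphisms (K := ℚ) a
  have h1 : (1 : F ≃ₐ[ℚ] F) ∉ ({c.σ, c.σ * c.σ} : Finset (F ≃ₐ[ℚ] F)) := by
    simp [c.σ_ne_one.symm, c.σσ_ne_one.symm]
  have h2 : c.σ ∉ ({c.σ * c.σ} : Finset (F ≃ₐ[ℚ] F)) := by
    simp [c.σ_ne_one]
  rw [c.univ_eq, Finset.sum_insert h1, Finset.sum_insert h2, Finset.sum_singleton] at h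
  rw [add_assoc]
  simpa using h

end Cub

/-! ### Selmer elements -/

section Sel

variable {F : Type*} [Field F] [NumberField F]

/-- `δ` is nonzero, has square norm and even valuation at the primes not dividing `D`. -/
def Good (D : ℕ) (δ : 𝓞 F) : Prop :=
  δ ≠ 0 ∧ IsSquare (Algebra.norm ℚ (δ : F)) ∧
    ∀ P : HeightOneSpectrum (𝓞 F), (D : 𝓞 F) ∉ P.asIdeal →
      Even (multiplicity P.asIdeal (Ideal.span {δ}))

/-- `δ` is nonzero, totally positive, has square norm and generates the square of an ideal. -/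
def SelP (δ : 𝓞 F) : Prop :=
  δ ≠ 0 ∧ IsSquare (Algebra.norm ℚ (δ : F)) ∧ (∀ φ : F →+* ℝ, 0 < φ (δ : F)) ∧
    ∃ I : Ideal (𝓞 F), I ^ 2 = Ideal.span {δ}

/-- The elements of `T` are pairwise inequivalent modulo squares. -/
def Ineq (T : Finset (𝓞 F)) : Prop :=
  ∀ δ ∈ T, ∀ δ' ∈ T, δ ≠ δ' → ¬ IsSquare ((δ : F) * (δ' : F))

end Sel

/-! ### Galois data -/

/-- The automorphisms acting trivially on all conjugates of `L`. -/
def Ker (L : IntermediateField ℚ Ω) : Set (Ω ≃ₐ[ℚ] Ω) :=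
  {g | ∀ (φ : L →ₐ[ℚ] Ω) (x : L), g (φ x) = φ x}

/-- The automorphisms fixing `F` and the square roots of all conjugates of `δ`. -/
def NN (F : IntermediateField ℚ Ω) (δ : Ω) : Set (Ω ≃ₐ[ℚ] Ω) :=
  {g | (∀ x ∈ F, g x = x) ∧ ∀ y : Ω, (∃ s : Ω ≃ₐ[ℚ] Ω, y ^ 2 = s δ) → g y = y}

/-- Three algebraic integers permuted cyclically up to sign, as they come from a quartic field
with group `A_4`. -/
structure Tri (y : Fin 3 → Ω) : Prop where
  int : ∀ i, IsIntegral ℤ (y i)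
  inj : Function.Injective fun i => y i ^ 2
  rot : ∀ g : Ω ≃ₐ[ℚ] Ω, ∃ j : Fin 3, ∀ i, g (y i ^ 2) = y (i + j) ^ 2
  all : ∀ j : Fin 3, ∃ g : Ω ≃ₐ[ℚ] Ω, ∀ i, g (y i ^ 2) = y (i + j) ^ 2
  prod : ∀ g : Ω ≃ₐ[ℚ] Ω, g (y 0 * y 1 * y 2) = y 0 * y 1 * y 2

end Pool.Agent.Lib.MP_af4c59_nt.H32
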