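import Pool.Agent.Lib.MP_af4c59_nt.H32Defs

set_option autoImplicit false

namespace Pool.Agent.Lib.MP_af4c59_nt.H32

open NumberField Module IsDedekindDomain

namespace LowCount

variable (K : Type*) [Field K] [NumberField K]

theorem fin_U (s : ℝ) : {I : Ideal (𝓞 K) | I ≠ ⊥ ∧ (Ideal.absNorm I : ℝ) ≤ s}.Finite :=
  (Ideal.finite_setOfPred_absNorm_le ⌊s⌋₊).subset fun _ hI => Nat.le_floor hI.2

/-- nonzero ideals of norm at most `s` -/
noncomputable def U (s : ℝ) : Finset (Ideal (𝓞 K)) := (fin_U K s).toFinset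

variable {K}

theorem mem_U {s : ℝ} {I : Ideal (𝓞 K)} : I ∈ U K s ↔ I ≠ ⊥ ∧ (Ideal.absNorm I : ℝ) ≤ s := by
  simp [U]

theorem norm_pos {I : Ideal (𝓞 K)} (h : I ≠ ⊥) : 0 < Ideal.absNorm I :=
  Nat.pos_of_ne_zero fun h0 => h (Ideal.absNorm_eq_zero_iff.1 h0)

variable (K)

theorem tendsto_U : Filter.Tendsto (fun s : ℝ => ((U K s).card : ℝ) / s) Filter.atTop
    (nhds (dedekindZeta_residue K)) := by
  refine (NumberField.Ideal.tendsto_norm_le_div_atTop₀ K).congr fun s => ?_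
  congr 2
  rw [← Nat.card_eq_finsetCard]
  exact Nat.card_congr
    ⟨fun I => ⟨I.1.1, mem_U.2 ⟨nonZeroDivisors.ne_zero I.1.2, I.2⟩⟩,
      fun I => ⟨⟨I.1, mem_nonZeroDivisors_of_ne_zero (mem_U.1 I.2).1⟩, (mem_U.1 I.2).2⟩,
      fun _ => rfl, fun _ => rfl⟩

theorem exists_bounds : ∃ k C s₀ : ℝ, 0 < k ∧ 0 < C ∧ 0 < s₀ ∧
    (∀ s, s₀ ≤ s → k * s ≤ (U K s).card) ∧ ∀ t, 0 ≤ t → ((U K t).card : ℝ) ≤ C * t := by
  have hk := dedekindZeta_residue_pos K
  have h1 := (tendsto_U K).eventually (lt_mem_nhds (half_lt_self hk))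
  have h2 := (tendsto_U K).eventually (gt_mem_nhds (lt_add_one (dedekindZeta_residue K)))
  obtain ⟨s₀, hs⟩ := Filter.eventually_atTop.1 (h1.and (h2.and (Filter.eventually_gt_atTop 0)))
  refine ⟨dedekindZeta_residue K / 2, dedekindZeta_residue K + 1 + (U K s₀).card, s₀,
    half_pos hk, by positivity, (hs s₀ le_rfl).2.2, fun s h => ?_, fun t ht => ?_⟩
  · obtain ⟨h3, -, h4⟩ := hs s h
    exact ((lt_div_iff₀ h4).1 h3).le
  · have hc : (0 : ℝ) ≤ (U K s₀).card := Nat.cast_nonneg _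
    rcases le_total s₀ t with h | h
    · obtain ⟨-, h3, h4⟩ := hs t h
      have := (div_lt_iff₀ h4).1 h3
      nlinarith
    · rcases lt_or_ge t 1 with h5 | h5
      · have : U K t = ∅ := Finset.eq_empty_of_forall_notMem fun I hI => by
          have h6 : (1 : ℝ) ≤ Ideal.absNorm I := by exact_mod_cast norm_pos (mem_U.1 hI).1
          linarith [(mem_U.1 hI).2]
        rw [this, Finset.card_empty, Nat.cast_zero]
        positivity
      · have h6 : ((U K t).card : ℝ) ≤ (U K s₀).card := by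
          exact_mod_cast Finset.card_le_card fun I hI =>
            mem_U.2 ⟨(mem_U.1 hI).1, (mem_U.1 hI).2.trans h⟩
        nlinarith

variable {K}

open Classical in
theorem card_dvd_le {C : ℝ} (hC : ∀ t, 0 ≤ t → ((U K t).card : ℝ) ≤ C * t) {s : ℝ} (hs : 0 ≤ s)
    {J : Ideal (𝓞 K)} (hJ : J ≠ ⊥) :
    (((U K s).filter fun I => J ∣ I).card : ℝ) ≤ C * s / Ideal.absNorm J := by
  have hN : (0 : ℝ) < Ideal.absNorm J := by exact_mod_cast norm_pos hJ
  have h1 : ((U K s).filter fun I => J ∣ I) ⊆ (U K (s / Ideal.absNorm J)).image (J * ·) := by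
    intro I hI
    obtain ⟨h2, I', rfl⟩ := Finset.mem_filter.1 hI
    obtain ⟨h3, h4⟩ := mem_U.1 h2
    refine Finset.mem_image.2 ⟨I', mem_U.2 ⟨fun h0 => h3 (by simp [h0]), ?_⟩, rfl⟩
    rw [map_mul, Nat.cast_mul] at h4
    rwa [le_div_iff₀' hN]
  have h2 : (((U K s).filter fun I => J ∣ I).card : ℝ) ≤ (U K (s / Ideal.absNorm J)).card := by
    exact_mod_cast (Finset.card_le_card h1).trans Finset.card_image_le
  rw [mul_div_assoc]
  exact h2.trans (hC _ (by positivity))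

open Classical in
/-- the multiples of members of `D` of norm at most `s` -/
noncomputable def Mult (s : ℝ) (D : Finset (Ideal (𝓞 K))) : Finset (Ideal (𝓞 K)) :=
  (U K s).filter fun I => ∃ J ∈ D, J ∣ I

theorem mem_Mult {s : ℝ} {D : Finset (Ideal (𝓞 K))} {I : Ideal (𝓞 K)} :
    I ∈ Mult s D ↔ I ∈ U K s ∧ ∃ J ∈ D, J ∣ I := by
  simp [Mult]

open Classical in
/-- ideals divisible by a member of a family of ideals of norm at least `N` -/
theorem card_family_le {C : ℝ} (hC0 : 0 < C) (hC : ∀ t, 0 ≤ t → ((U K t).card : ℝ) ≤ C * t)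
    {s : ℝ} (hs : 0 ≤ s) (D : Finset (Ideal (𝓞 K))) {N : ℝ} (hN : 0 < N)
    (hD : ∀ J ∈ D, N ≤ Ideal.absNorm J) :
    ((Mult s D).card : ℝ) ≤ D.card * (C * s / N) := by
  have h1 : Mult s D ⊆ D.biUnion fun J => (U K s).filter fun I => J ∣ I := by
    intro I hI
    obtain ⟨h2, J, h3, h4⟩ := mem_Mult.1 hI
    exact Finset.mem_biUnion.2 ⟨J, h3, Finset.mem_filter.2 ⟨h2, h4⟩⟩
  have h2 : ((Mult s D).card : ℝ) ≤
      ∑ J ∈ D, (((U K s).filter fun I => J ∣ I).card : ℝ) := by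
    exact_mod_cast (Finset.card_le_card h1).trans Finset.card_biUnion_le
  rw [← nsmul_eq_mul]
  refine h2.trans (Finset.sum_le_card_nsmul _ _ _ fun J hJ => ?_)
  have h3 : J ≠ ⊥ := fun h0 => by
    have := hD J hJ
    rw [h0, Ideal.absNorm_bot, Nat.cast_zero] at this
    linarith
  exact (card_dvd_le hC hs h3).trans (div_le_div_of_nonneg_left (by positivity) hN (hD J hJ))

variable (K)

/-- the ideals responsible for `p ^ 2` dividing the norm -/
theorem exists_family {p : ℕ} (hp : p.Prime) : ∃ D : Finset (Ideal (𝓞 K)),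
    D.card ≤ finrank ℚ K * (finrank ℚ K + 1) ∧ (∀ J ∈ D, p ^ 2 ≤ Ideal.absNorm J) ∧
      ∀ I : Ideal (𝓞 K), p ^ 2 ∣ Ideal.absNorm I → ∃ J ∈ D, J ∣ I := by
  classical
  have hp' : Prime (p : ℤ) := Nat.prime_iff_prime_int.1 hp
  have h0 : Ideal.span {(p : ℤ)} ≠ ⊥ := by simpa using hp.ne_zero
  have hmax : (Ideal.span {(p : ℤ)}).IsMaximal :=
    ((Ideal.span_singleton_prime hp'.ne_zero).2 hp').isMaximal h0
  set T := IsDedekindDomain.primesOverFinset (Ideal.span {(p : ℤ)}) (𝓞 K) with hT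
  have hcard : T.card ≤ finrank ℚ K := Ideal.card_primesOverFinset_le_finrank (𝓞 K) ℚ K h0
  have hex : ∀ I : Ideal (𝓞 K), p ∣ Ideal.absNorm I →
      ∃ P ∈ T, P ∣ I ∧ ∃ n, 0 < n ∧ Ideal.absNorm P = p ^ n := by
    intro I hI
    obtain ⟨P, h1, h2, h3⟩ := Ideal.exists_isMaximal_dvd_of_dvd_absNorm' hp I hI
    have hl : P.LiesOver (Ideal.span {(p : ℤ)}) := ⟨h2.symm⟩
    refine ⟨P, (IsDedekindDomain.mem_primesOverFinset_iff h0 _).2 ⟨h1.isPrime, hl⟩, h3,
      P.inertiaDeg ℤ, Ideal.inertiaDeg_pos .., ?_⟩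
    simpa using (Ideal.natAbs_pow_inertiaDeg (p : ℤ) P).symm
  refine ⟨(Finset.image₂ (· * ·) T (insert 1 T)).filter fun J => p ^ 2 ≤ Ideal.absNorm J,
    ?_, fun J hJ => (Finset.mem_filter.1 hJ).2, fun I hI => ?_⟩
  · refine (Finset.card_filter_le _ _).trans ((Finset.card_image₂_le _ _ _).trans ?_)
    exact Nat.mul_le_mul hcard ((Finset.card_insert_le _ _).trans (by omega))
  · obtain ⟨P, h1, ⟨I', rfl⟩, n, hn, h2⟩ := hex I ((dvd_pow_self p two_ne_zero).trans hI)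
    rcases Nat.lt_or_ge n 2 with h3 | h3
    · have h4 : n = 1 := by omega
      rw [map_mul, h2, h4, pow_one, sq] at hI
      obtain ⟨P', h5, h6, n', hn', h7⟩ := hex I' (Nat.dvd_of_mul_dvd_mul_left hp.pos hI)
      refine ⟨P * P', Finset.mem_filter.2 ⟨Finset.mem_image₂_of_mem h1
        (Finset.mem_insert_of_mem h5), ?_⟩, mul_dvd_mul_left _ h6⟩
      rw [map_mul, h2, h7, ← pow_add]
      exact Nat.pow_le_pow_right hp.pos (by omega)
    · refine ⟨P * 1, Finset.mem_filter.2 ⟨Finset.mem_image₂_of_mem h1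
        (Finset.mem_insert_self _ _), ?_⟩, by simp⟩
      rw [mul_one, h2]
      exact Nat.pow_le_pow_right hp.pos h3

variable {K}

theorem fin_dvd {Q : Ideal (𝓞 K)} (hQ : Q ≠ ⊥) : {J | J ∣ Q}.Finite :=
  (Ideal.finite_setOfPred_absNorm_le (Ideal.absNorm Q)).subset fun _ hJ =>
    Nat.le_of_dvd (norm_pos hQ) (map_dvd Ideal.absNorm hJ)

theorem pow_dvd {I J P Q : Ideal (𝓞 K)} {k : ℕ} (hI : I = (I ⊔ Q) * J) (hP : P ∣ J)
    (hQ : P ^ k ∣ Q) : P ^ k ∣ I := by
  have key : ∀ j, j ≤ k → P ^ j ∣ I ⊔ Q := by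
    intro j
    induction j with
    | zero => simp
    | succ j ih =>
      intro hj
      have h1 : P ^ (j + 1) ∣ I := by
        rw [hI, pow_succ]
        exact mul_dvd_mul (ih (by omega)) hP
      have h2 : P ^ (j + 1) ∣ Q := (pow_dvd_pow P hj).trans hQ
      exact Ideal.dvd_iff_le.2 (sup_le (Ideal.le_of_dvd h1) (Ideal.le_of_dvd h2))
  exact (key k le_rfl).trans (Ideal.dvd_iff_le.2 le_sup_left)

end LowCount

open LowCount in
/-- Ideals of squarefree norm prime to `m` have positive lower density. -/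
theorem squarefree_count (K : Type*) [Field K] [NumberField K] (m : ℕ) (hm : m ≠ 0) :
    ∃ κ : ℝ, 0 < κ ∧ ∃ s₀ : ℝ, ∀ s : ℝ, s₀ ≤ s →
      κ * s ≤ (Set.ncard {I : Ideal (𝓞 K) | (Ideal.absNorm I : ℝ) ≤ s ∧
        Squarefree (Ideal.absNorm I) ∧ Nat.Coprime (Ideal.absNorm I) m} : ℕ) := by
  classical
  obtain ⟨k0, C, s₀, hk0, hC0, hs₀, hlow, hC⟩ := exists_bounds K
  set n : ℕ := finrank ℚ K * (finrank ℚ K + 1) with hn
  obtain ⟨P0, hP0⟩ := exists_nat_ge (8 * n * C / k0)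
  set M : ℕ := m * P0.factorial with hM
  have hM0 : M ≠ 0 := mul_ne_zero hm P0.factorial_ne_zero
  have hM1 : Ideal.span {(M : 𝓞 K)} ≠ ⊥ := by simpa using hM0
  set T : Finset (Ideal (𝓞 K)) := (fin_dvd hM1).toFinset.filter (· ≠ ⊤) with hT
  obtain ⟨k, hk⟩ := pow_unbounded_of_one_lt (4 * T.card * C / k0) (one_lt_two (α := ℝ))
  set Q : Ideal (𝓞 K) := Ideal.span {(M : 𝓞 K)} ^ k with hQ
  have hQ0 : Q ≠ ⊥ := pow_ne_zero k hM1
  set W : Finset (Ideal (𝓞 K)) := (fin_dvd hQ0).toFinset with hW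
  have hW0 : (0 : ℝ) < W.card := by
    exact_mod_cast Finset.card_pos.2 ⟨Q, by simp [hW]⟩
  refine ⟨k0 / 2 / W.card, by positivity, s₀, fun s hs => ?_⟩
  have hs0 : 0 < s := hs₀.trans_le hs
  choose! D hD1 hD2 hD3 using fun (p : ℕ) (hp : p.Prime) => exists_family K hp
  have hfin : {I : Ideal (𝓞 K) | (Ideal.absNorm I : ℝ) ≤ s ∧
      Squarefree (Ideal.absNorm I) ∧ Nat.Coprime (Ideal.absNorm I) m}.Finite :=
    (Ideal.finite_setOfPred_absNorm_le ⌊s⌋₊).subset fun _ hI => Nat.le_floor hI.1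
  set Pr := (Finset.Ioo P0 (⌊s⌋₊ + 1)).filter Nat.Prime with hPr
  set B1 := Pr.biUnion fun p => Mult s (D p) with hB1
  set B2 := Mult s (T.image (· ^ k)) with hB2
  set G := Finset.image₂ (· * ·) W hfin.toFinset with hG
  have hcov : U K s ⊆ G ∪ (B1 ∪ B2) := by
    intro I hI
    obtain ⟨hI0, hIs⟩ := mem_U.1 hI
    by_cases h1 : I ∈ B1
    · exact Finset.mem_union_right _ (Finset.mem_union_left _ h1)
    by_cases h2 : I ∈ B2
    · exact Finset.mem_union_right _ (Finset.mem_union_right _ h2)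
    obtain ⟨J, hJ⟩ : I ⊔ Q ∣ I := Ideal.dvd_iff_le.2 le_sup_left
    have hJI : Ideal.absNorm J ∣ Ideal.absNorm I := map_dvd _ (Dvd.intro_left _ hJ.symm)
    have hcop : Nat.Coprime (Ideal.absNorm J) M := by
      refine Nat.coprime_of_dvd fun p hp hpJ hpM => h2 ?_
      obtain ⟨P, h3, h4, h5⟩ := Ideal.exists_isMaximal_dvd_of_dvd_absNorm' hp J hpJ
      have h6 : (p : 𝓞 K) ∈ P := by
        have : (p : ℤ) ∈ P.under ℤ := h4 ▸ Ideal.mem_span_singleton_self _
        simpa [Ideal.under, Ideal.mem_comap] using this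
      have h7 : P ∣ Ideal.span {(M : 𝓞 K)} :=
        Ideal.dvd_span_singleton.2 (P.mem_of_dvd (Nat.cast_dvd_cast hpM) h6)
      refine mem_Mult.2 ⟨hI, P ^ k, Finset.mem_image_of_mem _
        (Finset.mem_filter.2 ⟨by simpa using h7, h3.ne_top⟩), ?_⟩
      exact pow_dvd hJ h5 (pow_dvd_pow_of_dvd h7 k)
    have hsq : Squarefree (Ideal.absNorm J) := by
      refine Nat.squarefree_iff_prime_squarefree.2 fun p hp hpJ => h1 ?_
      have h3 : p ^ 2 ∣ Ideal.absNorm I := by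
        rw [sq]
        exact hpJ.trans hJI
      have h4 : P0 < p := by
        by_contra h5
        have h6 : p ∣ M := ((hp.dvd_factorial).2 (not_lt.1 h5)).mul_left m
        exact hp.one_lt.ne' (Nat.eq_one_of_dvd_coprimes hcop ((Dvd.intro _ rfl).trans hpJ) h6)
      have h5 : p ≤ ⌊s⌋₊ :=
        (Nat.le_of_dvd (norm_pos hI0) ((dvd_pow_self p two_ne_zero).trans h3)).trans
          (Nat.le_floor hIs)
      exact Finset.mem_biUnion.2 ⟨p, Finset.mem_filter.2 ⟨Finset.mem_Ioo.2 ⟨h4, by omega⟩, hp⟩,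
        mem_Mult.2 ⟨hI, hD3 p hp I h3⟩⟩
    refine Finset.mem_union_left _ (Finset.mem_image₂.2 ⟨I ⊔ Q, ?_, J, ?_, hJ.symm⟩)
    · simpa [hW] using Ideal.dvd_iff_le.2 le_sup_right
    · have h3 : (Ideal.absNorm J : ℝ) ≤ Ideal.absNorm I := by
        exact_mod_cast Nat.le_of_dvd (norm_pos hI0) hJI
      exact hfin.mem_toFinset.2 ⟨h3.trans hIs, hsq, hcop.coprime_mul_right_right⟩
  have e1 : (B1.card : ℝ) ≤ k0 / 4 * s := by
    have h1 : (B1.card : ℝ) ≤ ∑ p ∈ Pr, ((Mult s (D p)).card : ℝ) := by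
      exact_mod_cast Finset.card_biUnion_le
    have h2 : ∀ p ∈ Pr, ((Mult s (D p)).card : ℝ) ≤ n * (C * s) * ((p : ℝ) ^ 2)⁻¹ := by
      intro p hp
      have hp' := (Finset.mem_filter.1 hp).2
      have h3 : (0 : ℝ) < p := by exact_mod_cast hp'.pos
      refine (card_family_le hC0 hC hs0.le (D p) (N := (p : ℝ) ^ 2) (by positivity)
        fun J hJ => by exact_mod_cast hD2 p hp' J hJ).trans ?_
      rw [mul_assoc, ← div_eq_mul_inv]
      exact mul_le_mul_of_nonneg_right (by exact_mod_cast hD1 p hp') (by positivity)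
    have h3 : ∑ p ∈ Pr, ((p : ℝ) ^ 2)⁻¹ ≤ 2 / (P0 + 1) :=
      (Finset.sum_le_sum_of_subset_of_nonneg (Finset.filter_subset _ _)
        fun p _ _ => by positivity).trans (sum_Ioo_inv_sq_le P0 _)
    refine h1.trans ((Finset.sum_le_sum h2).trans ?_)
    rw [← Finset.mul_sum]
    refine (mul_le_mul_of_nonneg_left h3 (by positivity)).trans ?_
    rw [div_le_iff₀ hk0] at hP0
    rw [← mul_div_assoc, div_le_iff₀ (by positivity)]
    nlinarith [mul_le_mul_of_nonneg_left hP0 hs0.le, mul_pos hk0 hs0]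
  have e2 : (B2.card : ℝ) ≤ k0 / 4 * s := by
    refine (card_family_le hC0 hC hs0.le _ (N := (2 : ℝ) ^ k) (by positivity)
      fun J hJ => ?_).trans ?_
    · obtain ⟨P, hP, rfl⟩ := Finset.mem_image.1 hJ
      obtain ⟨h1, h2⟩ := Finset.mem_filter.1 hP
      have h3 : P ∣ Ideal.span {(M : 𝓞 K)} := by simpa using h1
      have h4 : P ≠ ⊥ := ne_zero_of_dvd_ne_zero hM1 h3
      have h5 := norm_pos h4
      have h6 : Ideal.absNorm P ≠ 1 := fun h => h2 (Ideal.absNorm_eq_one_iff.1 h)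
      rw [map_pow]
      exact_mod_cast Nat.pow_le_pow_left (by omega : 2 ≤ Ideal.absNorm P) k
    · have h1 : ((T.image (· ^ k)).card : ℝ) ≤ T.card := by
        exact_mod_cast Finset.card_image_le
      refine (mul_le_mul_of_nonneg_right h1 (by positivity)).trans ?_
      rw [div_lt_iff₀ hk0] at hk
      rw [← mul_div_assoc, div_le_iff₀ (by positivity)]
      nlinarith [mul_le_mul_of_nonneg_left hk.le hs0.le]
  have e3 : ((U K s).card : ℝ) ≤ W.card * hfin.toFinset.card + (B1.card + B2.card) := by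
    exact_mod_cast (Finset.card_le_card hcov).trans ((Finset.card_union_le _ _).trans
      (Nat.add_le_add (Finset.card_image₂_le _ _ _) (Finset.card_union_le _ _)))
  rw [Set.ncard_eq_toFinset_card _ hfin, div_mul_eq_mul_div, div_le_iff₀' hW0]
  linarith [hlow s hs]

end Pool.Agent.Lib.MP_af4c59_nt.H32
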