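import Pool.Agent.Lib.MP_af4c59_nt.H32CubB

set_option autoImplicit false

namespace Pool.Agent.Lib.MP_af4c59_nt.H32

open NumberField Module IsDedekindDomain

namespace LowDist

open UniqueFactorizationMonoid

variable {F : Type*} [Field F] [NumberField F]

open Classical in
/-- The exponent of `P` in the principal ideal generated by `w`. -/
noncomputable def vv (P : Ideal (𝓞 F)) (w : 𝓞 F) : ℕ :=
  (normalizedFactors (Ideal.span {w})).count P

lemma vv_mul (P : Ideal (𝓞 F)) {w w' : 𝓞 F} (hw : w ≠ 0) (hw' : w' ≠ 0) :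
    vv P (w * w') = vv P w + vv P w' := by
  unfold vv
  rw [← Ideal.span_singleton_mul_span_singleton,
    normalizedFactors_mul (by simpa using hw) (by simpa using hw'), Multiset.count_add]

lemma vv_even (P : Ideal (𝓞 F)) {w : 𝓞 F} (hw : w ≠ 0) (h : IsSquare (w : F)) :
    Even (vv P w) := by
  obtain ⟨y, hy⟩ := h
  have hi : IsIntegral ℤ y := by
    refine IsIntegral.of_pow (n := 2) (by norm_num) ?_
    rw [sq, ← hy]
    exact w.isIntegral_coe
  obtain ⟨y0, hy0⟩ : ∃ y0 : 𝓞 F, (y0 : F) = y := ⟨⟨y, hi⟩, rfl⟩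
  have e : w = y0 * y0 := by
    apply RingOfIntegers.ext
    rw [hy, ← hy0]
    simp
  have h0 : y0 ≠ 0 := by
    intro h0
    rw [h0, mul_zero] at e
    exact hw e
  rw [e, vv_mul P h0 h0]
  exact Even.add_self _

lemma span_eq_of_vv {w w' : 𝓞 F} (hw : w ≠ 0) (hw' : w' ≠ 0) (h : ∀ P, vv P w = vv P w') :
    Ideal.span {w} = Ideal.span {w'} := by
  classical
  have e : normalizedFactors (Ideal.span {w}) = normalizedFactors (Ideal.span {w'}) := by
    refine Multiset.ext.mpr fun P => ?_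
    have := h P
    unfold vv at this
    convert this
  rw [← Ideal.prod_normalizedFactors_eq_self (I := Ideal.span {w}) (by simpa using hw), e,
    Ideal.prod_normalizedFactors_eq_self (by simpa using hw')]

lemma vv_le_one (P : Ideal (𝓞 F)) {n : ℤ} (hn : Squarefree n)
    (hd : ∀ p : ℤ, Prime p → p ∣ n → ¬ p ∣ discr F) : vv P (n : 𝓞 F) ≤ 1 := by
  classical
  by_contra hlt
  have hn0 : n ≠ 0 := hn.ne_zero
  have hn' : Ideal.span {(n : 𝓞 F)} ≠ 0 := by simpa using hn0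
  have h2 : 2 ≤ (normalizedFactors (Ideal.span {(n : 𝓞 F)})).count P := by
    have h3 : 2 ≤ vv P (n : 𝓞 F) := by omega
    unfold vv at h3
    convert h3
  have hmem : P ∈ normalizedFactors (Ideal.span {(n : 𝓞 F)}) :=
    Multiset.count_pos.mp (by omega)
  have hP : Prime P := prime_of_normalized_factor P hmem
  have hPp : P.IsPrime := Ideal.isPrime_of_prime hP
  have hdvd : P ^ 2 ∣ Ideal.span {(n : 𝓞 F)} := by
    rw [dvd_iff_normalizedFactors_le_normalizedFactors (pow_ne_zero _ hP.ne_zero) hn',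
      normalizedFactors_pow, normalizedFactors_irreducible hP.irreducible, normalize_eq,
      Multiset.nsmul_singleton, ← Multiset.le_count_iff_replicate_le]
    exact h2
  have hnP : (n : 𝓞 F) ∈ P :=
    Ideal.dvd_span_singleton.mp ((dvd_pow_self P two_ne_zero).trans hdvd)
  have hu : (P.under ℤ).IsPrime := inferInstance
  obtain ⟨p, hp⟩ := (IsPrincipalIdealRing.principal (P.under ℤ)).principal
  have hp' : P.under ℤ = Ideal.span {p} := hp
  have hmemiff : ∀ m : ℤ, (m : 𝓞 F) ∈ P ↔ p ∣ m := by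
    intro m
    rw [← Ideal.mem_span_singleton, ← hp', Ideal.under_def, Ideal.mem_comap]
    simp
  have hpn : p ∣ n := (hmemiff n).mp hnP
  have hp0 : p ≠ 0 := by
    rintro rfl
    exact hn0 (zero_dvd_iff.mp hpn)
  have hpp : Prime p := (Ideal.span_singleton_prime hp0).mp (hp' ▸ hu)
  obtain ⟨r, hr⟩ := hpn
  have hrP : ¬ P ∣ Ideal.span {(r : 𝓞 F)} := by
    rw [Ideal.dvd_span_singleton, hmemiff]
    intro h
    exact hpp.not_isUnit (hn p (hr ▸ mul_dvd_mul_left p h))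
  have hdvd' : P ^ 2 ∣ Ideal.span {(p : 𝓞 F)} := by
    rw [hr, Int.cast_mul, ← Ideal.span_singleton_mul_span_singleton] at hdvd
    exact hP.pow_dvd_of_dvd_mul_right 2 hrP hdvd
  have hun : Algebra.IsUnramifiedAt ℤ P :=
    (not_dvd_discr_iff_forall_mem F (𝓞 F) hpp).mp (hd p hpp ⟨r, hr⟩) P hPp
      ((hmemiff p).mpr dvd_rfl)
  have hlo : P.LiesOver (Ideal.span {p}) := ⟨hp'.symm⟩
  have he : (Ideal.span {p}).ramificationIdx' P = 1 := by
    rw [Ideal.ramificationIdx'_eq_ramificationIdx _ _ (by simpa using hp0)]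
    exact Ideal.ramificationIdx_eq_one_of_isUnramifiedAt
  have hmap : (Ideal.span {p}).map (algebraMap ℤ (𝓞 F)) = Ideal.span {(p : 𝓞 F)} := by
    rw [Ideal.map_span, Set.image_singleton]
    simp
  refine (Ideal.ramificationIdx'_ne_one_iff (p := Ideal.span {p}) (P := P) ?_).mpr ?_ he
  · rw [hmap]
    exact Ideal.le_of_dvd ((dvd_pow_self P two_ne_zero).trans hdvd')
  · rw [hmap]
    exact Ideal.le_of_dvd hdvd'

lemma exists_conj (c : Cub F) (w : 𝓞 F) : ∃ w1 : 𝓞 F, (w1 : F) = c.σ w :=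
  ⟨⟨c.σ w, map_isIntegral_int c.σ w.isIntegral_coe⟩, rfl⟩

lemma norm_cast_eq (c : Cub F) (w : 𝓞 F) :
    ((Algebra.norm ℤ w : ℤ) : F) = w * c.σ w * c.σ (c.σ w) := by
  rw [← c.norm_eq, ← Algebra.coe_norm_int]
  simp

lemma conj_data (c : Cub F) (z : 𝓞 F) (hz : Squarefree (Ideal.absNorm (Ideal.span {z})))
    (hc : Nat.Coprime (Ideal.absNorm (Ideal.span {z})) c.f.natAbs) :
    ∃ z1 z2 : 𝓞 F, (z1 : F) = c.σ z ∧ (z2 : F) = c.σ (c.σ z) ∧ z ≠ 0 ∧ z1 ≠ 0 ∧ z2 ≠ 0 ∧
      ∀ P, vv P z + vv P z1 + vv P z2 ≤ 1 := by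
  obtain ⟨z1, h1⟩ := exists_conj c z
  obtain ⟨z2, h2⟩ := exists_conj c z1
  rw [h1] at h2
  rw [Ideal.absNorm_span_singleton] at hz hc
  have hn : Squarefree (Algebra.norm ℤ z) := Int.squarefree_natAbs.mp hz
  have e : ((Algebra.norm ℤ z : ℤ) : 𝓞 F) = z * z1 * z2 := by
    apply RingOfIntegers.ext
    have := norm_cast_eq c z
    rw [← h2, ← h1] at this
    simpa using this
  have h0 : z * z1 * z2 ≠ 0 := by
    rw [← e]
    simpa using hn.ne_zero
  have a0 : z ≠ 0 := left_ne_zero_of_mul (left_ne_zero_of_mul h0)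
  have a1 : z1 ≠ 0 := right_ne_zero_of_mul (left_ne_zero_of_mul h0)
  have a2 : z2 ≠ 0 := right_ne_zero_of_mul h0
  refine ⟨z1, z2, h1, h2, a0, a1, a2, fun P => ?_⟩
  rw [← vv_mul P a0 a1, ← vv_mul P (mul_ne_zero a0 a1) a2, ← e]
  refine vv_le_one P hn fun p hp hpn hpd => ?_
  rw [c.discr_eq] at hpd
  have b1 : p.natAbs ∣ (Algebra.norm ℤ z).natAbs := Int.natAbs_dvd_natAbs.mpr hpn
  have b2 : p.natAbs ∣ c.f.natAbs := Int.natAbs_dvd_natAbs.mpr (hp.dvd_of_dvd_pow hpd)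
  exact hp.not_isUnit (Int.isUnit_iff_natAbs_eq.mpr (Nat.eq_one_of_dvd_coprimes hc b1 b2))

end LowDist

/-- An ideal of squarefree norm is determined by the class of `z σ z` modulo squares. -/
theorem Cub.span_eq {F : Type*} [Field F] [NumberField F] (c : Cub F) (z z' : 𝓞 F)
    (hz : Squarefree (Ideal.absNorm (Ideal.span {z})))
    (hz' : Squarefree (Ideal.absNorm (Ideal.span {z'})))
    (hc : Nat.Coprime (Ideal.absNorm (Ideal.span {z})) c.f.natAbs)
    (hc' : Nat.Coprime (Ideal.absNorm (Ideal.span {z'})) c.f.natAbs)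
    (h : IsSquare ((z : F) * c.σ z * ((z' : F) * c.σ z'))) :
    Ideal.span {z} = Ideal.span {z'} := by
  obtain ⟨z1, z2, h1, h2, a0, a1, a2, ha⟩ := LowDist.conj_data c z hz hc
  obtain ⟨w1, w2, k1, k2, b0, b1, b2, hb⟩ := LowDist.conj_data c z' hz' hc'
  have s1 := h.map c.σ
  have s2 := s1.map c.σ
  simp only [map_mul] at s1 s2
  rw [c.σ3, c.σ3] at s2
  rw [← h2, ← k2] at s2
  rw [← h2, ← k2, ← h1, ← k1] at s1
  rw [← h1, ← k1] at h
  refine LowDist.span_eq_of_vv a0 b0 fun P => ?_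
  have key : ∀ x y u v : 𝓞 F, x ≠ 0 → y ≠ 0 → u ≠ 0 → v ≠ 0 →
      IsSquare ((x : F) * y * ((u : F) * v)) →
      (LowDist.vv P x + LowDist.vv P y + (LowDist.vv P u + LowDist.vv P v)) % 2 = 0 := by
    intro x y u v hx hy hu hv hs
    rw [← LowDist.vv_mul P hx hy, ← LowDist.vv_mul P hu hv,
      ← LowDist.vv_mul P (mul_ne_zero hx hy) (mul_ne_zero hu hv), ← Nat.even_iff]
    refine LowDist.vv_even P (mul_ne_zero (mul_ne_zero hx hy) (mul_ne_zero hu hv)) ?_
    simpa using hs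
  have e0 := key _ _ _ _ a0 a1 b0 b1 h
  have e1 := key _ _ _ _ a1 a2 b1 b2 s1
  have e2 := key _ _ _ _ a2 a0 b2 b0 s2
  have := ha P
  have := hb P
  omega

theorem Cub.σ_ne {F : Type*} [Field F] [NumberField F] (c : Cub F) (z : 𝓞 F)
    (hz : Squarefree (Ideal.absNorm (Ideal.span {z})))
    (h1 : Ideal.absNorm (Ideal.span {z}) ≠ 1) : c.σ z ≠ z := by
  intro h
  obtain ⟨r, a, d, hr⟩ := c.span z z.isIntegral_coe
  have e1 : c.σ (c.σ c.θ) = c.t - c.θ - c.σ c.θ := by linear_combination c.tr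
  have e2 := congrArg c.σ hr
  simp only [map_add, map_mul, map_intCast] at e2
  rw [h, e1] at e2
  obtain ⟨-, i1, i2⟩ := c.indep (d * c.t) (-d - a) (a - 2 * d) (by
    push_cast
    linear_combination hr - e2)
  have hd : d = 0 := by exact_mod_cast (by linarith : (d : ℚ) = 0)
  have ha : a = 0 := by exact_mod_cast (by linarith : (a : ℚ) = 0)
  have hzr : (z : F) = r := by simpa [hd, ha] using hr
  have e3 : Algebra.norm ℤ z = r ^ 3 := by
    have := LowDist.norm_cast_eq c z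
    rw [h, h, hzr] at this
    have h3 : ((Algebra.norm ℤ z : ℤ) : F) = ((r ^ 3 : ℤ) : F) := by
      rw [this]
      push_cast
      ring
    exact_mod_cast h3
  rw [Ideal.absNorm_span_singleton, e3, Int.natAbs_pow] at hz h1
  have hu : IsUnit r.natAbs := hz _ ⟨r.natAbs, by ring⟩
  rw [Nat.isUnit_iff.mp hu] at h1
  exact h1 rfl

end Pool.Agent.Lib.MP_af4c59_nt.H32
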