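import Pool.Agent.Lib.MP_af4c59_nt.H32Defs

set_option autoImplicit false

namespace Pool.Agent.Lib.MP_af4c59_nt.H32

open NumberField Module IsDedekindDomain

namespace LowF

open Polynomial IntermediateField

/-- The cubic polynomial of discriminant `49`. -/
noncomputable def pz : ℤ[X] := X ^ 3 + X ^ 2 - 2 * X - 1

/-- The same polynomial over the rationals. -/
noncomputable def pq : ℚ[X] := X ^ 3 + X ^ 2 - 2 * X - 1

lemma pz_monic : pz.Monic := by
  unfold pz; monicity!

lemma pq_monic : pq.Monic := by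
  unfold pq; monicity!

lemma pq_natDegree : pq.natDegree = 3 := by
  unfold pq; compute_degree!

lemma aeval_pz {A : Type*} [CommRing A] (x : A) : aeval x pz = x ^ 3 + x ^ 2 - 2 * x - 1 := by
  simp [pz, map_ofNat]

lemma aeval_pq {A : Type*} [CommRing A] [Algebra ℚ A] (x : A) :
    aeval x pq = x ^ 3 + x ^ 2 - 2 * x - 1 := by
  simp [pq, map_ofNat]

lemma pq_irreducible : Irreducible pq := by
  apply irreducible_of_degree_le_three_of_not_isRoot
  · rw [pq_natDegree]; decide
  intro x hx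
  have h1 : x ^ 3 + x ^ 2 - 2 * x - 1 = 0 := by
    rw [← aeval_pq]; simpa using hx
  obtain ⟨r, hr, -⟩ := exists_integer_of_is_root_of_monic (K := ℚ) pz_monic (r := x)
    (by rw [aeval_pz, h1])
  have h2 : r ^ 3 + r ^ 2 - 2 * r - 1 = 0 := by
    rw [hr] at h1
    simp only [eq_intCast, algebraMap_int_eq] at h1
    exact_mod_cast h1
  have h3 : r ∣ 1 := ⟨r ^ 2 + r - 2, by linear_combination -h2⟩
  rcases Int.isUnit_iff.1 (isUnit_of_dvd_one h3) with rfl | rfl <;> norm_num at h2

lemma minpoly_eq {K : Type*} [Field K] [Algebra ℚ K] {x : K}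
    (hx : x ^ 3 + x ^ 2 - 2 * x - 1 = 0) : minpoly ℚ x = pq :=
  (minpoly.eq_of_irreducible_of_monic pq_irreducible (by rw [aeval_pq, hx]) pq_monic).symm

lemma isIntegral_root {K : Type*} [CommRing K] {x : K}
    (hx : x ^ 3 + x ^ 2 - 2 * x - 1 = 0) : IsIntegral ℤ x :=
  ⟨pz, pz_monic, by rw [← aeval_def, aeval_pz, hx]⟩

lemma finrank_adjoin {K : Type*} [Field K] [Algebra ℚ K] {x : K}
    (hx : x ^ 3 + x ^ 2 - 2 * x - 1 = 0) : finrank ℚ ℚ⟮x⟯ = 3 := by
  rw [adjoin.finrank ⟨pq, pq_monic, by rw [← aeval_def, aeval_pq, hx]⟩, minpoly_eq hx,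
    pq_natDegree]

lemma trace_root {K : Type*} [Field K] [NumberField K] (h3 : finrank ℚ K = 3) {x : K}
    (hx : x ^ 3 + x ^ 2 - 2 * x - 1 = 0) : Algebra.trace ℚ K x = -1 := by
  have h1 : finrank ℚ⟮x⟯ K = 1 := by
    have := Module.finrank_mul_finrank ℚ ℚ⟮x⟯ K
    rw [finrank_adjoin hx, h3] at this
    omega
  rw [trace_eq_finrank_mul_minpoly_nextCoeff, h1, minpoly_eq hx,
    nextCoeff_of_natDegree_pos (by rw [pq_natDegree]; norm_num), pq_natDegree]
  simp [pq, coeff_X, coeff_one, coeff_X_pow]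

lemma discr_root {K : Type*} [Field K] [NumberField K] (h3 : finrank ℚ K = 3) {x : K}
    (hx : x ^ 3 + x ^ 2 - 2 * x - 1 = 0) : Algebra.discr ℚ ![1, x, x ^ 2] = 49 := by
  have t0 : Algebra.trace ℚ K 1 = 3 := by
    have := Algebra.trace_algebraMap (R := ℚ) (S := K) 1
    rw [map_one, h3] at this
    simpa using this
  have t1 : Algebra.trace ℚ K x = -1 := trace_root h3 hx
  have t2 : Algebra.trace ℚ K (x ^ 2) = 5 := by
    have h := trace_root h3 (x := x ^ 2 - 2) (by
      linear_combination (x ^ 3 - x ^ 2 - 2 * x + 1) * hx)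
    have e : x ^ 2 - 2 = x ^ 2 - 1 - 1 := by ring
    rw [e, map_sub, map_sub, t0] at h
    linarith
  have t3 : Algebra.trace ℚ K (x ^ 3) = -4 := by
    have e : x ^ 3 = x + x + 1 - x ^ 2 := by linear_combination hx
    rw [e, map_sub, map_add, map_add, t0, t1, t2]; norm_num
  have t4 : Algebra.trace ℚ K (x ^ 4) = 13 := by
    have e : x ^ 4 = x ^ 2 + x ^ 2 + x - x ^ 3 := by linear_combination x * hx
    rw [e, map_sub, map_add, map_add, t1, t2, t3]; norm_num
  have e1 : x * x = x ^ 2 := by ring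
  have e2 : x * x ^ 2 = x ^ 3 := by ring
  have e3 : x ^ 2 * x = x ^ 3 := by ring
  have e4 : x ^ 2 * x ^ 2 = x ^ 4 := by ring
  rw [Algebra.discr_def, Matrix.det_fin_three]
  simp only [Algebra.traceMatrix_apply, Algebra.traceForm_apply, Matrix.cons_val_zero,
    Matrix.cons_val_one, Matrix.cons_val, one_mul, mul_one, e1, e2, e3, e4, t0, t1, t2, t3, t4]
  norm_num

lemma pid_root {K : Type*} [Field K] [NumberField K] (h3 : finrank ℚ K = 3) {x : K}
    (hx : x ^ 3 + x ^ 2 - 2 * x - 1 = 0) : IsPrincipalIdealRing (𝓞 K) := by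
  have hd := abs_discr_le (L := K) (ι := Fin 3) (by simp [h3]) ![1, x, x ^ 2] (by
    intro i
    fin_cases i
    · exact isIntegral_one
    · exact isIntegral_root hx
    · exact (isIntegral_root hx).pow 2) (by rw [discr_root h3 hx]; norm_num)
  rw [discr_root h3 hx] at hd
  have hd' : |discr K| ≤ 49 := by
    have : ((|discr K| : ℤ) : ℚ) ≤ 49 := by
      rw [Int.cast_abs]; simpa using hd
    exact_mod_cast this
  have hd'' : ((|discr K| : ℤ) : ℝ) ≤ 49 := by exact_mod_cast hd'
  apply RingOfIntegers.isPrincipalIdealRing_of_abs_discr_lt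
  refine lt_of_le_of_lt hd'' ?_
  have hr := InfinitePlace.card_add_two_mul_card_eq_rank K
  rw [h3] at hr ⊢
  have hc : InfinitePlace.nrComplexPlaces K = 0 ∨ InfinitePlace.nrComplexPlaces K = 1 := by omega
  have hπ := Real.pi_gt_d2
  rcases hc with h | h <;> rw [h] <;> norm_num [Nat.factorial]
  nlinarith

lemma mem_of_fixed (F : IntermediateField ℚ Ω) (y : Ω)
    (h : ∀ g : Ω ≃ₐ[ℚ] Ω, (∀ x ∈ F, g x = x) → g y = y) : y ∈ F := by
  rw [← InfiniteGalois.fixedField_fixingSubgroup F, mem_fixedField_iff]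
  intro g hg
  exact h g fun x hx => (mem_fixingSubgroup_iff F g).1 hg x hx

lemma isSquare_of_fixed (F : IntermediateField ℚ Ω) (y : Ω) (d : F) (hy : y ^ 2 = d)
    (h : ∀ g : Ω ≃ₐ[ℚ] Ω, (∀ x ∈ F, g x = x) → g y = y) : IsSquare d :=
  ⟨⟨y, mem_of_fixed F y h⟩, Subtype.ext (by rw [← hy, sq]; rfl)⟩

/-- The sign attached to a Boolean. -/
noncomputable def sg (a : Bool) : Ω := if a then -1 else 1

lemma sg_xor (a b : Bool) : sg (xor a b) = sg a * sg b := by
  cases a <;> cases b <;> simp [sg]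

lemma map_sg (g : Ω ≃ₐ[ℚ] Ω) (a : Bool) : g (sg a) = sg a := by
  cases a <;> simp [sg]

lemma exists_sg (F : IntermediateField ℚ Ω) (y : Ω) (d : F) (hy : y ^ 2 = d) (g : Ω ≃ₐ[ℚ] Ω)
    (hg : ∀ x ∈ F, g x = x) : ∃ a, g y = sg a * y := by
  have : g y ^ 2 = y ^ 2 := by rw [← map_pow, hy, hg _ d.2]
  rcases sq_eq_sq_iff_eq_or_eq_neg.1 this with h | h
  · exact ⟨false, by simp [sg, h]⟩
  · exact ⟨true, by simp [sg, h]⟩

lemma bool_cases (R : Bool → Bool → Bool → Prop)
    (hmul : ∀ a b d a' b' d', R a b d → R a' b' d' → R (xor a a') (xor b b') (xor d d'))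
    (hno : ¬ R false false true) :
    (∀ a b d, R a b d → d = false) ∨ (∀ a b d, R a b d → xor a d = false) ∨
      (∀ a b d, R a b d → xor b d = false) ∨ (∀ a b d, R a b d → xor (xor a b) d = false) := by
  have a1 : ¬ (R true false true ∧ R true false false) := fun h => hno (hmul _ _ _ _ _ _ h.1 h.2)
  have a2 : ¬ (R false true true ∧ R false true false) := fun h => hno (hmul _ _ _ _ _ _ h.1 h.2)
  have a3 : ¬ (R true true true ∧ R true true false) := fun h => hno (hmul _ _ _ _ _ _ h.1 h.2)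
  have b1 : R true false true → R false true true → R true true false := hmul _ _ _ _ _ _
  have b2 : R true false true → R false true false → R true true true := hmul _ _ _ _ _ _
  have b3 : R true false false → R false true true → R true true true := hmul _ _ _ _ _ _
  have b4 : R true false false → R false true false → R true true false := hmul _ _ _ _ _ _
  have b7' : R true false true → R true true false → R false true true := hmul _ _ _ _ _ _
  have b8' : R false true true → R true true false → R true false true := hmul _ _ _ _ _ _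
  have b5 : R true false true → R true true true → R false true false := hmul _ _ _ _ _ _
  have b6 : R true false false → R true true true → R false true true := hmul _ _ _ _ _ _
  have b7 : R false true true → R true true true → R true false false := hmul _ _ _ _ _ _
  have b8 : R false true false → R true true true → R true false true := hmul _ _ _ _ _ _
  clear hmul
  by_cases hA : R true false true
  · by_cases hB : R false true true
    · refine Or.inr (Or.inr (Or.inr ?_))
      intro a b d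
      cases a <;> cases b <;> cases d <;> simp_all
    · by_cases hC : R true true false
      · exact absurd (b7' hA hC) hB
      refine Or.inr (Or.inl ?_)
      intro a b d
      cases a <;> cases b <;> cases d <;> simp_all
  · by_cases hB : R false true true
    · by_cases hC : R true true false
      · exact absurd (b8' hB hC) hA
      refine Or.inr (Or.inr (Or.inl ?_))
      intro a b d
      cases a <;> cases b <;> cases d <;> simp_all
    · by_cases hC : R true true true
      · refine Or.inr (Or.inl ?_)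
        intro a b d
        cases a <;> cases b <;> cases d <;> simp_all
      · refine Or.inl ?_
        intro a b d
        cases a <;> cases b <;> cases d <;> simp_all

end LowF

open LowF IntermediateField in
/-- A cyclic cubic field of class number one. -/
theorem exists_cubic_pid : ∃ (F : IntermediateField ℚ Ω) (_ : NumberField F),
    finrank ℚ F = 3 ∧ IsGalois ℚ F ∧ IsPrincipalIdealRing (𝓞 F) := by
  obtain ⟨θ, hθ⟩ := IsAlgClosed.exists_aeval_eq_zero Ω pq (by
    rw [Polynomial.degree_eq_natDegree pq_monic.ne_zero, pq_natDegree]; norm_num)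
  rw [aeval_pq] at hθ
  have h3 : finrank ℚ ℚ⟮θ⟯ = 3 := finrank_adjoin hθ
  have hfin : FiniteDimensional ℚ ℚ⟮θ⟯ := Module.finite_of_finrank_pos (by omega)
  have hnf : NumberField ℚ⟮θ⟯ := @NumberField.mk _ _ inferInstance hfin
  have hm : θ ∈ ℚ⟮θ⟯ := mem_adjoin_simple_self ℚ θ
  refine ⟨ℚ⟮θ⟯, hnf, h3, ?_, ?_⟩
  · have hn : Normal ℚ ℚ⟮θ⟯ := by
      refine (normal_iff_forall_map_le' (F := ℚ) (K := ℚ⟮θ⟯)).2 fun g => ?_
      rw [adjoin_map, adjoin_le_iff]
      rintro _ ⟨x, hx, rfl⟩
      rw [Set.mem_singleton_iff.1 hx]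
      have h1 : g θ ^ 3 + g θ ^ 2 - 2 * g θ - 1 = 0 := by
        have := congrArg g hθ
        simpa [map_ofNat] using this
      have h2 : (g θ - θ) * (g θ - (θ ^ 2 - 2)) * (g θ - (1 - θ - θ ^ 2)) = 0 := by
        linear_combination h1 - (θ * g θ - θ ^ 2 + 1) * hθ
      have h4 : (2 : Ω) ∈ ℚ⟮θ⟯ := ofNat_mem _ 2
      change g θ ∈ ℚ⟮θ⟯
      rcases mul_eq_zero.1 h2 with h | h
      · rcases mul_eq_zero.1 h with h | h
        · rw [sub_eq_zero.1 h]; exact hm
        · rw [sub_eq_zero.1 h]; exact sub_mem (pow_mem hm 2) h4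
      · rw [sub_eq_zero.1 h]; exact sub_mem (sub_mem (one_mem _) hm) (pow_mem hm 2)
    exact IsGalois.mk
  · refine pid_root h3 (x := ⟨θ, hm⟩) (Subtype.ext ?_)
    exact hθ

open LowF in
/-- Kummer theory for the biquadratic extension generated by the square roots of the conjugates
of `δ`. -/
theorem Cub.kummer {F : IntermediateField ℚ Ω} [NumberField F] (c : Cub F) (δ δ' : F)
    (hδ : δ ≠ 0) (hN : IsSquare (Algebra.norm ℚ δ)) (h : NN F δ ⊆ NN F δ') :
    IsSquare δ' ∨ IsSquare (δ * δ') ∨ IsSquare (c.σ δ * δ') ∨ IsSquare (c.σ (c.σ δ) * δ') := by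
  have hgal := c.gal
  by_cases hδ' : δ' = 0
  · exact Or.inl (hδ' ▸ IsSquare.zero)
  obtain ⟨y0, h0⟩ := IsAlgClosed.exists_pow_nat_eq (δ : Ω) (n := 2) (by norm_num)
  obtain ⟨y1, h1⟩ := IsAlgClosed.exists_pow_nat_eq (c.σ δ : Ω) (n := 2) (by norm_num)
  obtain ⟨y', h'⟩ := IsAlgClosed.exists_pow_nat_eq (δ' : Ω) (n := 2) (by norm_num)
  obtain ⟨r, hr⟩ := hN
  have hy0 : y0 ≠ 0 := by
    rintro rfl
    exact hδ (Subtype.ext (by simpa using h0.symm))
  have hy1 : y1 ≠ 0 := by
    rintro rfl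
    exact hδ (c.σ.injective (by rw [map_zero]; exact Subtype.ext (by simpa using h1.symm)))
  have hy' : y' ≠ 0 := by
    rintro rfl
    exact hδ' (Subtype.ext (by simpa using h'.symm))
  have hn : (r : Ω) * r = δ * (c.σ δ : F) * (c.σ (c.σ δ) : F) := by
    have := congrArg (fun z : F => (z : Ω)) (c.norm_eq δ)
    rw [hr] at this
    simpa using this
  have h2 : (r / (y0 * y1)) ^ 2 = ((c.σ (c.σ δ) : F) : Ω) := by
    rw [div_pow, div_eq_iff (pow_ne_zero 2 (mul_ne_zero hy0 hy1)), mul_pow, h0, h1, pow_two, hn]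
    ring
  have key : ∀ g : Ω ≃ₐ[ℚ] Ω, (∀ x ∈ F, g x = x) → g y0 = y0 → g y1 = y1 → g y' = y' := by
    intro g hg g0 g1
    have hmem : g ∈ NN F δ := by
      refine ⟨hg, ?_⟩
      rintro y ⟨s, hs⟩
      have e : s δ = ((s.restrictNormal F δ : F) : Ω) := (s.restrictNormal_commutes F δ).symm
      have aux : ∀ z : Ω, g z = z → y ^ 2 = z ^ 2 → g y = y := by
        intro z hz hyz
        rcases sq_eq_sq_iff_eq_or_eq_neg.1 hyz with h | h
        · rw [h, hz]
        · rw [h, map_neg, hz]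
      rcases c.cyc (s.restrictNormal F) with h3 | h3 | h3
      · exact aux y0 g0 (by rw [hs, e, h3, h0]; rfl)
      · exact aux y1 g1 (by rw [hs, e, h3, h1])
      · refine aux (r / (y0 * y1)) ?_ (by rw [hs, e, h3, h2]; rfl)
        rw [map_div₀, map_mul, g0, g1, map_ratCast]
    exact (h hmem).2 y' ⟨1, h'⟩
  let R : Bool → Bool → Bool → Prop := fun a b d => ∃ g : Ω ≃ₐ[ℚ] Ω, (∀ x ∈ F, g x = x) ∧
    g y0 = sg a * y0 ∧ g y1 = sg b * y1 ∧ g y' = sg d * y'
  have hR : ∀ g : Ω ≃ₐ[ℚ] Ω, (∀ x ∈ F, g x = x) → ∃ a b d, R a b d ∧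
      g y0 = sg a * y0 ∧ g y1 = sg b * y1 ∧ g y' = sg d * y' := by
    intro g hg
    obtain ⟨a, ha⟩ := exists_sg F y0 _ h0 g hg
    obtain ⟨b, hb⟩ := exists_sg F y1 _ h1 g hg
    obtain ⟨d, hd⟩ := exists_sg F y' _ h' g hg
    exact ⟨a, b, d, ⟨g, hg, ha, hb, hd⟩, ha, hb, hd⟩
  have s0 : sg false = 1 := by simp [sg]
  have hc := bool_cases R (by
    rintro a b d a' b' d' ⟨g, hg, e0, e1, e2⟩ ⟨g', hg', e0', e1', e2'⟩
    refine ⟨g * g', fun x hx => by rw [AlgEquiv.mul_apply, hg' x hx, hg x hx], ?_, ?_, ?_⟩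
    · rw [AlgEquiv.mul_apply, e0', map_mul, map_sg, e0, sg_xor]; ring
    · rw [AlgEquiv.mul_apply, e1', map_mul, map_sg, e1, sg_xor]; ring
    · rw [AlgEquiv.mul_apply, e2', map_mul, map_sg, e2, sg_xor]; ring) (by
    rintro ⟨g, hg, e0, e1, e2⟩
    rw [s0, one_mul] at e0 e1
    rw [key g hg e0 e1] at e2
    apply hy'
    have e3 : (2 : Ω) * y' = 0 := by
      simp only [sg, if_true] at e2
      linear_combination e2
    simpa using e3)
  rcases hc with hc | hc | hc | hc
  · refine Or.inl (isSquare_of_fixed F y' _ h' fun g hg => ?_)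
    obtain ⟨a, b, d, hr, -, -, e2⟩ := hR g hg
    rw [e2, hc a b d hr, s0, one_mul]
  · refine Or.inr (Or.inl (isSquare_of_fixed F (y0 * y') _ (by rw [mul_pow, h0, h']; rfl)
      fun g hg => ?_))
    obtain ⟨a, b, d, hr, e0, -, e2⟩ := hR g hg
    have := sg_xor a d
    rw [hc a b d hr, s0] at this
    rw [map_mul, e0, e2]
    linear_combination -(y0 * y') * this
  · refine Or.inr (Or.inr (Or.inl (isSquare_of_fixed F (y1 * y') _
      (by rw [mul_pow, h1, h']; rfl) fun g hg => ?_)))
    obtain ⟨a, b, d, hr, -, e1, e2⟩ := hR g hg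
    have := sg_xor b d
    rw [hc a b d hr, s0] at this
    rw [map_mul, e1, e2]
    linear_combination -(y1 * y') * this
  · refine Or.inr (Or.inr (Or.inr (isSquare_of_fixed F (r / (y0 * y1) * y') _
      (by rw [mul_pow, h2, h']; rfl) fun g hg => ?_)))
    obtain ⟨a, b, d, hr, e0, e1, e2⟩ := hR g hg
    have := hc a b d hr
    rw [map_mul, map_div₀, map_mul, map_ratCast, e0, e1, e2]
    cases a <;> cases b <;> cases d <;> simp [sg] at this ⊢ <;> field_simp

end Pool.Agent.Lib.MP_af4c59_nt.H32
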