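import Pool.Agent.Lib.MP_af4c59_nt.H32CubB

set_option autoImplicit false

namespace Pool.Agent.Lib.MP_af4c59_nt.H32

open NumberField Module IsDedekindDomain

namespace LowField

/-- The four sign vectors of product one. -/
def eps : Fin 4 → Fin 3 → ℤ := ![![1, 1, 1], ![1, -1, -1], ![-1, 1, -1], ![-1, -1, 1]]

/-- The index of a sign vector. -/
def idx (s : Fin 3 → ℤ) : Fin 4 :=
  if s 0 = 1 then (if s 1 = 1 then 0 else 1) else (if s 1 = 1 then 2 else 3)

/-- The action on the indices. -/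
def act (j : Fin 3) (m k : Fin 4) : Fin 4 := idx fun i => eps k (i - j) * eps m (i - j)

/-- The sign vector of a product. -/
def mu (m : Fin 4) (j : Fin 3) (m' : Fin 4) : Fin 4 := idx fun i => eps m' i * eps m (i + j)

lemma eps_act : ∀ (j : Fin 3) (m k : Fin 4) (i : Fin 3),
    eps (act j m k) (i + j) = eps k i * eps m i := by decide

lemma eps_mu : ∀ (m : Fin 4) (j : Fin 3) (m' : Fin 4) (i : Fin 3),
    eps (mu m j m') i = eps m' i * eps m (i + j) := by decide

lemma act_perm : ∀ (j : Fin 3) (m : Fin 4), ∃ τ : Equiv.Perm (Fin 4),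
    Equiv.Perm.sign τ = 1 ∧ ∀ k, τ k = act j m k := by decide +kernel

lemma perm_act : ∀ τ : Equiv.Perm (Fin 4), Equiv.Perm.sign τ = 1 →
    ∃ (j : Fin 3) (m : Fin 4), ∀ k, τ k = act j m k := by decide +kernel

lemma act_zero : ∀ k : Fin 4, act 0 k 0 = k := by decide

lemma act_eq_zero : ∀ (j : Fin 3) (m : Fin 4), act j m 0 = 0 → m = 0 := by decide

lemma eps_zero : ∀ i : Fin 3, eps 0 i = 1 := by decide

lemma exists_idx (s : Fin 3 → ℤ) (hs : ∀ i, s i = 1 ∨ s i = -1) (hp : s 0 * s 1 * s 2 = 1) :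
    ∃ m, ∀ i, eps m i = s i := by
  rcases hs 0 with h0 | h0 <;> rcases hs 1 with h1 | h1 <;> rcases hs 2 with h2 | h2 <;>
    rw [h0, h1, h2] at hp <;> first
    | (exfalso; revert hp; decide)
    | (refine ⟨idx s, fun i => ?_⟩
       fin_cases i <;> simp [idx, eps, h0, h1, h2])

/-- The product on pairs. -/
def op (p q : Fin 3 × Fin 4) : Fin 3 × Fin 4 := (q.1 + p.1, mu p.2 q.1 q.2)

lemma words : ∀ (m m' : Fin 4), m ≠ 0 → ∀ x : Fin 3 × Fin 4,
    ∃ A ∈ [op (1, m') (op (1, m') (1, m')), (0, m), op (1, m') (op (0, m) (op (1, m') (1, m'))),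
      op (op (1, m') (1, m')) (op (0, m) (1, m'))],
      ∃ B ∈ [op (1, m') (op (1, m') (1, m')), (1, m'), op (1, m') (1, m')], x = op A B := by
  decide +kernel

lemma gen (P : Fin 3 × Fin 4 → Prop) (hmul : ∀ p q, P p → P q → P (op p q)) (m m' : Fin 4)
    (hm : m ≠ 0) (hv : P (0, m)) (ht : P (1, m')) (x : Fin 3 × Fin 4) : P x := by
  obtain ⟨A, hA, B, hB, rfl⟩ := words m m' hm x
  have h2 := hmul _ _ ht ht
  have h3 := hmul _ _ ht h2
  apply hmul
  · simp only [List.mem_cons, List.not_mem_nil, or_false] at hA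
    rcases hA with rfl | rfl | rfl | rfl
    · exact h3
    · exact hv
    · exact hmul _ _ ht (hmul _ _ hv h2)
    · exact hmul _ _ h2 (hmul _ _ hv ht)
  · simp only [List.mem_cons, List.not_mem_nil, or_false] at hB
    rcases hB with rfl | rfl | rfl
    · exact h3
    · exact ht
    · exact h2

lemma det_aux (y0 y1 y2 t0 t1 t2 : Ω) :
    Matrix.det !![1, 1, 1, 1;
      y0 + y1 + y2, y0 - y1 - y2, -y0 + y1 - y2, -y0 - y1 + y2;
      t0 * y0 + t1 * y1 + t2 * y2, t0 * y0 - t1 * y1 - t2 * y2, -(t0 * y0) + t1 * y1 - t2 * y2,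
        -(t0 * y0) - t1 * y1 + t2 * y2;
      t1 * y0 + t2 * y1 + t0 * y2, t1 * y0 - t2 * y1 - t0 * y2, -(t1 * y0) + t2 * y1 - t0 * y2,
        -(t1 * y0) - t2 * y1 + t0 * y2] =
      -16 * (y0 * y1 * y2) * (t0 * t1 + t1 * t2 + t2 * t0 - t0 ^ 2 - t1 ^ 2 - t2 ^ 2) := by
  rw [Matrix.det_succ_row_zero]
  simp [Fin.sum_univ_succ, Matrix.det_fin_three, Fin.succAbove]
  ring

lemma mem_of_fix (K : IntermediateField ℚ Ω) (x : Ω)
    (h : ∀ g : Ω ≃ₐ[ℚ] Ω, (∀ w ∈ K, g w = w) → g x = x) : x ∈ K := by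
  have : IsGalois ℚ Ω := IsAlgClosure.isGalois ℚ Ω
  rw [← InfiniteGalois.fixedField_fixingSubgroup K, IntermediateField.mem_fixedField_iff]
  intro g hg
  exact h g ((IntermediateField.mem_fixingSubgroup_iff _ _).1 hg)

lemma fix_adjoin (a : Ω) (g : Ω ≃ₐ[ℚ] Ω) (h : g a = a) :
    ∀ x ∈ IntermediateField.adjoin ℚ {a}, g x = x := by
  have : IntermediateField.adjoin ℚ {a} ≤ IntermediateField.fixedField (Subgroup.zpowers g) := by
    rw [IntermediateField.adjoin_simple_le_iff, IntermediateField.mem_fixedField_iff]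
    intro f hf
    have : Subgroup.zpowers g ≤ MulAction.stabilizer (Ω ≃ₐ[ℚ] Ω) a := by
      rw [Subgroup.zpowers_le]; exact h
    exact this hf
  intro x hx
  exact (IntermediateField.mem_fixedField_iff _ _).1 (this hx) g (Subgroup.mem_zpowers g)

/-- `g` acts on the triple `y` by the rotation `p.1` and the signs `p.2`. -/
def E (y : Fin 3 → Ω) (g : Ω ≃ₐ[ℚ] Ω) (p : Fin 3 × Fin 4) : Prop :=
  ∀ i, g (y i) = (eps p.2 i : ℤ) * y (i + p.1)

lemma E_mul {y : Fin 3 → Ω} {g g' : Ω ≃ₐ[ℚ] Ω} {p q : Fin 3 × Fin 4} (h : E y g p)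
    (h' : E y g' q) : E y (g * g') (op p q) := by
  intro i
  rw [AlgEquiv.mul_apply, h' i, map_mul, map_intCast, h]
  simp only [op, eps_mu, add_assoc]
  push_cast
  ring

lemma prod_rot (y : Fin 3 → Ω) (j : Fin 3) :
    y (0 + j) * y (1 + j) * y (2 + j) = y 0 * y 1 * y 2 := by
  fin_cases j
  · rfl
  · change y 1 * y 2 * y 0 = _; ring
  · change y 2 * y 0 * y 1 = _; ring

lemma exists_E (y : Fin 3 → Ω) (g : Ω ≃ₐ[ℚ] Ω) (j : Fin 3)
    (hsq : ∀ i, g (y i ^ 2) = y (i + j) ^ 2) (hp : g (y 0 * y 1 * y 2) = y 0 * y 1 * y 2)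
    (h0 : y 0 * y 1 * y 2 ≠ 0) : ∃ m, E y g (j, m) := by
  have h : ∀ i, ∃ s : ℤ, (s = 1 ∨ s = -1) ∧ g (y i) = s * y (i + j) := by
    intro i
    have := hsq i
    rw [map_pow] at this
    rcases sq_eq_sq_iff_eq_or_eq_neg.1 this with h | h
    · exact ⟨1, Or.inl rfl, by simpa using h⟩
    · exact ⟨-1, Or.inr rfl, by simpa using h⟩
  choose s hs1 hs2 using h
  have h1 : ((s 0 * s 1 * s 2 : ℤ) : Ω) = 1 := by
    apply mul_right_cancel₀ h0
    rw [map_mul, map_mul, hs2, hs2, hs2] at hp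
    have := prod_rot y j
    push_cast
    linear_combination hp - (s 0 * s 1 * s 2 : Ω) * this
  obtain ⟨m, hm⟩ := exists_idx s hs1 (by exact_mod_cast h1)
  exact ⟨m, fun i => by rw [hs2, hm]⟩

/-- The four signed sums. -/
noncomputable def aa (y : Fin 3 → Ω) (k : Fin 4) : Ω := ∑ i, (eps k i : ℤ) * y i

lemma E_aa {y : Fin 3 → Ω} {g : Ω ≃ₐ[ℚ] Ω} {j : Fin 3} {m : Fin 4} (h : E y g (j, m))
    (k : Fin 4) : g (aa y k) = aa y (act j m k) := by
  unfold aa
  rw [map_sum, ← Equiv.sum_comp (Equiv.addRight j) (fun i => ((eps (act j m k) i : ℤ) : Ω) * y i)]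
  refine Finset.sum_congr rfl fun i _ => ?_
  rw [map_mul, map_intCast, h i]
  simp only [Equiv.coe_addRight, eps_act]
  push_cast
  ring

lemma aa0 (y : Fin 3 → Ω) : aa y 0 = y 0 + y 1 + y 2 := by simp [aa, eps, Fin.sum_univ_three]

lemma aa1 (y : Fin 3 → Ω) : aa y 1 = y 0 - y 1 - y 2 := by
  simp [aa, eps, Fin.sum_univ_three]; ring

lemma aa2 (y : Fin 3 → Ω) : aa y 2 = -y 0 + y 1 - y 2 := by
  simp [aa, eps, Fin.sum_univ_three]; ring

lemma aa3 (y : Fin 3 → Ω) : aa y 3 = -y 0 - y 1 + y 2 := by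
  simp [aa, eps, Fin.sum_univ_three]; ring

lemma aa_inj {y : Fin 3 → Ω} (h : Function.Injective fun i => y i ^ 2) :
    Function.Injective (aa y) := by
  have h01 : y 0 ^ 2 ≠ y 1 ^ 2 := fun e => absurd (h e) (by decide)
  have h02 : y 0 ^ 2 ≠ y 2 ^ 2 := fun e => absurd (h e) (by decide)
  have h12 : y 1 ^ 2 ≠ y 2 ^ 2 := fun e => absurd (h e) (by decide)
  have key : ∀ u v : Ω, u ^ 2 ≠ v ^ 2 → 2 * (u + v) ≠ 0 ∧ 2 * (u - v) ≠ 0 := by
    intro u v huv
    refine ⟨fun e => huv ?_, fun e => huv ?_⟩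
    · have : u + v = 0 := by simpa using e
      linear_combination (u - v) * this
    · have : u - v = 0 := by simpa using e
      linear_combination (u + v) * this
  obtain ⟨p01, m01⟩ := key _ _ h01
  obtain ⟨p02, m02⟩ := key _ _ h02
  obtain ⟨p12, m12⟩ := key _ _ h12
  have e0 := aa0 y
  have e1 := aa1 y
  have e2 := aa2 y
  have e3 := aa3 y
  intro k k' e
  fin_cases k <;> fin_cases k' <;> first
    | rfl
    | (exfalso
       simp only [Fin.zero_eta, Fin.mk_one, Fin.reduceFinMk, e0, e1, e2, e3] at e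
       first
        | exact p01 (by linear_combination e)
        | exact p01 (by linear_combination -e)
        | exact p02 (by linear_combination e)
        | exact p02 (by linear_combination -e)
        | exact p12 (by linear_combination e)
        | exact p12 (by linear_combination -e)
        | exact m01 (by linear_combination e)
        | exact m01 (by linear_combination -e)
        | exact m02 (by linear_combination e)
        | exact m02 (by linear_combination -e)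
        | exact m12 (by linear_combination e)
        | exact m12 (by linear_combination -e))

lemma fix_y {y : Fin 3 → Ω} {g : Ω ≃ₐ[ℚ] Ω} (h : ∀ k, g (aa y k) = aa y k) (i : Fin 3) :
    g (y i) = y i := by
  have e0 := h 0
  have e1 := h 1
  have e2 := h 2
  have e3 := h 3
  simp only [aa0, aa1, aa2, aa3, map_add, map_sub, map_neg] at e0 e1 e2 e3
  have h4 : (4 : Ω) ≠ 0 := by norm_num
  apply mul_left_cancel₀ h4
  fin_cases i
  · change 4 * g (y 0) = 4 * y 0
    linear_combination e0 + e1 - e2 - e3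
  · change 4 * g (y 1) = 4 * y 1
    linear_combination e0 - e1 + e2 - e3
  · change 4 * g (y 2) = 4 * y 2
    linear_combination e0 - e1 - e2 + e3

section

variable {F : IntermediateField ℚ Ω} [NumberField F] (c : Cub F)

/-- The three conjugates of an element of `F`. -/
noncomputable def cj (w : F) : Fin 3 → Ω := ![(w : Ω), (c.σ w : F), (c.σ (c.σ w) : F)]

/-- `g` acts on `F` as the `j`-th power of the generator. -/
def R (g : Ω ≃ₐ[ℚ] Ω) (j : Fin 3) : Prop := ∀ (w : F) (i : Fin 3), g (cj c w i) = cj c w (i + j)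

lemma R_of_eq {g : Ω ≃ₐ[ℚ] Ω} (τ : F ≃ₐ[ℚ] F) (h : ∀ w : F, g w = τ w) :
    (τ = 1 → R c g 0) ∧ (τ = c.σ → R c g 1) ∧ (τ = c.σ * c.σ → R c g 2) := by
  refine ⟨?_, ?_, ?_⟩ <;> rintro rfl w i <;> fin_cases i <;> simp [cj, h, c.σ3]

lemma exists_R (g : Ω ≃ₐ[ℚ] Ω) : ∃ j, R c g j := by
  have := c.gal
  have h : ∀ w : F, g w = (g.restrictNormal F) w := fun w =>
    (AlgEquiv.restrictNormal_commutes g F w).symm
  obtain ⟨h0, h1, h2⟩ := R_of_eq c _ h
  rcases c.cyc (g.restrictNormal F) with e | e | e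
  · exact ⟨_, h0 e⟩
  · exact ⟨_, h1 e⟩
  · exact ⟨_, h2 e⟩

lemma exists_R_one : ∃ g, R c g 1 := by
  obtain ⟨g, hg⟩ := exists_extend F (F.val.comp c.σ.toAlgHom)
  exact ⟨g, (R_of_eq c c.σ hg).2.1 rfl⟩

lemma R_zero_iff (g : Ω ≃ₐ[ℚ] Ω) : R c g 0 ↔ ∀ x ∈ F, g x = x := by
  constructor
  · intro h x hx
    exact h ⟨x, hx⟩ 0
  · intro h
    exact (R_of_eq c 1 fun w => h w w.2).1 rfl

lemma cj_int {w : F} (hw : IsIntegral ℤ w) (i : Fin 3) : IsIntegral ℤ (cj c w i) := by
  have h : ∀ v : F, IsIntegral ℤ v → IsIntegral ℤ (v : Ω) := fun v hv =>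
    map_isIntegral_int F.val hv
  fin_cases i
  · exact h _ hw
  · exact h _ (map_isIntegral_int c.σ hw)
  · exact h _ (map_isIntegral_int c.σ (map_isIntegral_int c.σ hw))

lemma delta : cj c c.θ 0 * cj c c.θ 1 + cj c c.θ 1 * cj c c.θ 2 + cj c c.θ 2 * cj c c.θ 0 -
    cj c c.θ 0 ^ 2 - cj c c.θ 1 ^ 2 - cj c c.θ 2 ^ 2 = -(c.f : Ω) := by
  have h : c.θ * c.σ c.θ + c.σ c.θ * c.σ (c.σ c.θ) + c.σ (c.σ c.θ) * c.θ - c.θ ^ 2 - c.σ c.θ ^ 2 -
      c.σ (c.σ c.θ) ^ 2 = -(c.f : F) := by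
    have h1 : c.x0 ^ 2 + c.x0 * c.x1 + c.x1 ^ 2 = 3 * c.f := by
      linear_combination c.sq0 + c.mul01 + c.sq1
    have h2 : c.σ (c.σ c.θ) = c.t - c.θ - c.σ c.θ := by linear_combination c.tr
    have h3 : (3 : F) ≠ 0 := three_ne_zero
    apply mul_left_cancel₀ h3
    rw [h2]
    simp only [Cub.x0, Cub.x1] at h1
    linear_combination -h1
  have := congrArg F.val h
  simpa [cj] using this

/-- The triple of square roots. -/
lemma exists_y (z : F) (hz0 : z ≠ 0) (h2 : c.σ z ≠ z) : ∃ y : Fin 3 → Ω,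
    (∀ i, y i ^ 2 = cj c (z * c.σ z) i) ∧ y 0 * y 1 * y 2 = ((Algebra.norm ℚ z : ℚ) : Ω) ∧
      y 0 * y 1 * y 2 ≠ 0 ∧ Function.Injective fun i => y i ^ 2 := by
  obtain ⟨y0, h0⟩ := IsAlgClosed.exists_pow_nat_eq (cj c (z * c.σ z) 0) (n := 2) (by norm_num)
  obtain ⟨y1, h1⟩ := IsAlgClosed.exists_pow_nat_eq (cj c (z * c.σ z) 1) (n := 2) (by norm_num)
  set z0 : Ω := (z : Ω) with hz0d
  set z1 : Ω := ((c.σ z : F) : Ω) with hz1d
  set z2 : Ω := ((c.σ (c.σ z) : F) : Ω) with hz2d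
  have n0 : z0 ≠ 0 := by simpa [z0] using hz0
  have n1 : z1 ≠ 0 := by simpa [z1] using hz0
  have n2 : z2 ≠ 0 := by simpa [z2] using hz0
  have c0 : cj c (z * c.σ z) 0 = z0 * z1 := by simp [cj, z0, z1]
  have c1 : cj c (z * c.σ z) 1 = z1 * z2 := by simp [cj, z1, z2]
  have c2 : cj c (z * c.σ z) 2 = z2 * z0 := by simp [cj, z0, z2, c.σ3]
  have hN : ((Algebra.norm ℚ z : ℚ) : Ω) = z0 * z1 * z2 := by
    have := congrArg F.val (c.norm_eq z)
    simpa [z0, z1, z2] using this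
  have d01 : z0 ≠ z1 := fun e => h2 (Subtype.ext e.symm)
  have d12 : z1 ≠ z2 := fun e => h2 (c.σ.injective (Subtype.ext e.symm))
  have d02 : z0 ≠ z2 := fun e => h2 (by
    have : c.σ (c.σ z) = z := Subtype.ext e.symm
    have h3 := c.σ3 z
    rwa [this] at h3)
  rw [c0] at h0
  rw [c1] at h1
  have ny0 : y0 ≠ 0 := fun e => mul_ne_zero n0 n1 (by rw [← h0, e]; ring)
  have ny1 : y1 ≠ 0 := fun e => mul_ne_zero n1 n2 (by rw [← h1, e]; ring)
  have h2' : (z0 * z1 * z2 / (y0 * y1)) ^ 2 = z2 * z0 := by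
    rw [div_pow, mul_pow y0, h0, h1]
    field_simp
  have hp : y0 * y1 * (z0 * z1 * z2 / (y0 * y1)) = z0 * z1 * z2 := by field_simp
  have hsq : ∀ i, (![y0, y1, z0 * z1 * z2 / (y0 * y1)] : Fin 3 → Ω) i ^ 2 =
      cj c (z * c.σ z) i := by
    intro i
    fin_cases i
    · exact h0.trans c0.symm
    · exact h1.trans c1.symm
    · exact h2'.trans c2.symm
  refine ⟨![y0, y1, z0 * z1 * z2 / (y0 * y1)], hsq, hp.trans hN.symm, ?_, ?_⟩
  · exact hp.trans_ne (mul_ne_zero (mul_ne_zero n0 n1) n2)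
  · have e01 : z0 * z1 ≠ z1 * z2 := fun e => d02 (mul_left_cancel₀ n1 (by linear_combination e))
    have e02 : z0 * z1 ≠ z2 * z0 := fun e => d12 (mul_left_cancel₀ n0 (by linear_combination e))
    have e12 : z1 * z2 ≠ z2 * z0 := fun e => d01 (mul_left_cancel₀ n2 (by linear_combination -e))
    intro i j e
    simp only [hsq] at e
    fin_cases i <;> fin_cases j <;> first
      | rfl
      | (exfalso
         simp only [Fin.zero_eta, Fin.mk_one, Fin.reduceFinMk, c0, c1, c2] at e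
         first
          | exact e01 e
          | exact e01 e.symm
          | exact e02 e
          | exact e02 e.symm
          | exact e12 e
          | exact e12 e.symm)

end

end LowField

open LowField in
/-- The quartic field attached to an integer of a cyclic cubic field. -/
theorem Cub.exists_quartic {F : IntermediateField ℚ Ω} [NumberField F] (c : Cub F) (z : F)
    (hz : IsIntegral ℤ z) (h1 : ¬ IsSquare (z * c.σ z)) (h2 : c.σ z ≠ z) :
    ∃ L : IntermediateField ℚ Ω, L ∈ FS 4 (alternatingGroup (Fin 4))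
      (256 * (c.f : ℝ) ^ 2 * ((Algebra.norm ℚ z : ℚ) : ℝ) ^ 2) ∧
      Ker L = NN F ((z * c.σ z : F) : Ω) := by
  have hz0 : z ≠ 0 := by
    rintro rfl
    exact h2 (map_zero _)
  obtain ⟨y, hsq, hN, hne, hinj⟩ := exists_y c z hz0 h2
  have hd : IsIntegral ℤ (z * c.σ z) := hz.mul (map_isIntegral_int c.σ hz)
  have hyint : ∀ i, IsIntegral ℤ (y i) := fun i =>
    IsIntegral.of_pow (n := 2) (by norm_num) (by rw [hsq]; exact cj_int c hd i)
  have hRE : ∀ g j, R c g j → ∃ m, E y g (j, m) := by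
    intro g j h
    refine exists_E y g j (fun i => by rw [hsq, hsq, h]) ?_ hne
    rw [hN, map_ratCast]
  have hER : ∀ g j m, E y g (j, m) → R c g j := by
    intro g j m h
    obtain ⟨j', hj'⟩ := exists_R c g
    have e1 : g (y 0 ^ 2) = y (0 + j') ^ 2 := by rw [hsq, hsq, hj']
    have e2 : g (y 0 ^ 2) = y (0 + j) ^ 2 := by
      have hs : ∀ (m : Fin 4) (i : Fin 3), eps m i ^ 2 = 1 := by decide
      rw [map_pow, h 0, mul_pow, ← Int.cast_pow, hs]
      simp
    have : 0 + j' = 0 + j := hinj (e1.symm.trans e2)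
    rwa [← add_left_cancel this]
  have hall : ∀ g, ∃ j m, E y g (j, m) := fun g => by
    obtain ⟨j, hj⟩ := exists_R c g
    exact ⟨j, hRE g j hj⟩
  have hy0 : y 0 ∉ F := fun h => h1 ⟨⟨y 0, h⟩, Subtype.ext (by
    have := hsq 0
    rw [pow_two] at this
    exact this.symm)⟩
  have hsurj : ∀ p, ∃ g, E y g p := by
    obtain ⟨t, ht⟩ := exists_R_one c
    obtain ⟨m', hm'⟩ := hRE t 1 ht
    have : ∃ v : Ω ≃ₐ[ℚ] Ω, (∀ w ∈ F, v w = w) ∧ v (y 0) ≠ y 0 := by
      by_contra hcon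
      push Not at hcon
      exact hy0 (mem_of_fix F _ hcon)
    obtain ⟨v, hv1, hv2⟩ := this
    obtain ⟨m, hm⟩ := hRE v 0 ((R_zero_iff c v).2 hv1)
    have hm0 : m ≠ 0 := by
      rintro rfl
      apply hv2
      simpa [eps_zero] using hm 0
    refine gen (fun p => ∃ g, E y g p) ?_ m m' hm0 ⟨v, hm⟩ ⟨t, hm'⟩
    rintro p q ⟨g, hg⟩ ⟨g', hg'⟩
    exact ⟨g * g', E_mul hg hg'⟩
  have hainj := aa_inj hinj
  have haint : IsIntegral ℚ (aa y 0) := Algebra.IsIntegral.isIntegral _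
  set L : IntermediateField ℚ Ω := IntermediateField.adjoin ℚ {aa y 0} with hLd
  have hfin : FiniteDimensional ℚ L := IntermediateField.adjoin.finiteDimensional haint
  have hL : aa y 0 ∈ L := IntermediateField.mem_adjoin_simple_self ℚ _
  have hfix : ∀ g : Ω ≃ₐ[ℚ] Ω, g (aa y 0) = aa y 0 → ∀ x ∈ L, g x = x := fix_adjoin _
  obtain ⟨hrank, hgal, e, he⟩ := gal_of_roots (alternatingGroup (Fin 4)) (aa y) hainj 0 L hL hfix
    (fun g => by
      obtain ⟨j, m, h⟩ := hall g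
      obtain ⟨τ, hτ1, hτ2⟩ := act_perm j m
      exact ⟨τ, Equiv.Perm.mem_alternatingGroup.2 hτ1, fun k => by rw [hτ2, E_aa h]⟩)
    (fun τ hτ => by
      obtain ⟨j, m, h⟩ := perm_act τ (Equiv.Perm.mem_alternatingGroup.1 hτ)
      obtain ⟨g, hg⟩ := hsurj (j, m)
      exact ⟨g, fun k => by rw [h, E_aa hg]⟩)
    (fun k => by
      obtain ⟨τ, hτ1, hτ2⟩ := act_perm 0 k
      exact ⟨τ, Equiv.Perm.mem_alternatingGroup.2 hτ1, by rw [hτ2, act_zero]⟩)
  have hNF : NumberField L := @NumberField.mk _ _ inferInstance hfin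
  refine ⟨L, mem_FS hrank hgal ?_, ?_⟩
  · -- the discriminant bound
    let u : F → Ω := fun w => ∑ i, cj c w i * y i
    have hu : ∀ w, u w ∈ L := by
      intro w
      refine mem_of_fix L _ fun g hg => ?_
      obtain ⟨j, m, h⟩ := hall g
      have hm : m = 0 := act_eq_zero j m (hainj ((E_aa h 0).symm.trans (hg _ hL)))
      subst hm
      simp only [u]
      rw [map_sum, ← Equiv.sum_comp (Equiv.addRight j) (fun i => cj c w i * y i)]
      refine Finset.sum_congr rfl fun i _ => ?_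
      rw [map_mul, hER g j 0 h, h i]
      simp [eps_zero]
    have huint : ∀ w : F, IsIntegral ℤ w → IsIntegral ℤ (⟨u w, hu w⟩ : L) := by
      intro w hw
      have : IsIntegral ℤ (u w) := IsIntegral.sum _ fun i _ => (cj_int c hw i).mul (hyint i)
      exact (isIntegral_algHom_iff (L.val.toRingHom.toIntAlgHom) L.val.injective).1 this
    have hemb : ∀ (w : F) (k : Fin 4),
        e k ⟨u w, hu w⟩ = ∑ i, (eps k i : ℤ) * (cj c w i * y i) := by
      intro w k
      obtain ⟨g, hg⟩ := hsurj (0, k)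
      rw [he g k (by rw [E_aa hg, act_zero])]
      simp only [u]
      rw [map_sum]
      refine Finset.sum_congr rfl fun i _ => ?_
      rw [map_mul, hER g 0 k hg, hg i]
      simp only [add_zero]
      ring
    let b : Fin 4 → L := ![1, ⟨u 1, hu 1⟩, ⟨u c.θ, hu c.θ⟩, ⟨u (c.σ c.θ), hu (c.σ c.θ)⟩]
    have hb : ∀ i, IsIntegral ℤ (b i) := by
      intro i
      fin_cases i
      · exact isIntegral_one
      · exact huint _ isIntegral_one
      · exact huint _ c.θint
      · exact huint _ (map_isIntegral_int c.σ c.θint)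
    have hdet := Algebra.discr_eq_det_embeddingsMatrixReindex_pow_two ℚ Ω b e
    have q0 : cj c (c.σ c.θ) 0 = cj c c.θ 1 := rfl
    have q1 : cj c (c.σ c.θ) 1 = cj c c.θ 2 := rfl
    have q2 : cj c (c.σ c.θ) 2 = cj c c.θ 0 := by simp [cj, c.σ3]
    have q3 : ∀ i, cj c 1 i = 1 := by intro i; fin_cases i <;> simp [cj]
    have hM : Algebra.embeddingsMatrixReindex ℚ Ω b e = !![1, 1, 1, 1;
        y 0 + y 1 + y 2, y 0 - y 1 - y 2, -y 0 + y 1 - y 2, -y 0 - y 1 + y 2;
        cj c c.θ 0 * y 0 + cj c c.θ 1 * y 1 + cj c c.θ 2 * y 2,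
          cj c c.θ 0 * y 0 - cj c c.θ 1 * y 1 - cj c c.θ 2 * y 2,
          -(cj c c.θ 0 * y 0) + cj c c.θ 1 * y 1 - cj c c.θ 2 * y 2,
          -(cj c c.θ 0 * y 0) - cj c c.θ 1 * y 1 + cj c c.θ 2 * y 2;
        cj c c.θ 1 * y 0 + cj c c.θ 2 * y 1 + cj c c.θ 0 * y 2,
          cj c c.θ 1 * y 0 - cj c c.θ 2 * y 1 - cj c c.θ 0 * y 2,
          -(cj c c.θ 1 * y 0) + cj c c.θ 2 * y 1 - cj c c.θ 0 * y 2,
          -(cj c c.θ 1 * y 0) - cj c c.θ 2 * y 1 + cj c c.θ 0 * y 2] := by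
      have hent : ∀ r k, Algebra.embeddingsMatrixReindex ℚ Ω b e r k = e k (b r) := by
        intro r k
        simp [Algebra.embeddingsMatrixReindex, Algebra.embeddingsMatrix]
      ext r k
      rw [hent]
      fin_cases r
      · change e k 1 = _
        rw [map_one]
        fin_cases k <;> rfl
      · change e k ⟨u 1, hu 1⟩ = _
        rw [hemb]
        fin_cases k <;> simp [Fin.sum_univ_three, eps, q3] <;> ring
      · change e k ⟨u c.θ, hu c.θ⟩ = _
        rw [hemb]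
        fin_cases k <;> simp [Fin.sum_univ_three, eps] <;> ring
      · change e k ⟨u (c.σ c.θ), hu (c.σ c.θ)⟩ = _
        rw [hemb]
        fin_cases k <;> simp [Fin.sum_univ_three, eps, q0, q1, q2] <;> ring
    rw [hM, det_aux, delta, hN] at hdet
    have hdisc : Algebra.discr ℚ b = 256 * (c.f : ℚ) ^ 2 * (Algebra.norm ℚ z : ℚ) ^ 2 := by
      apply (algebraMap ℚ Ω).injective
      rw [hdet]
      simp only [eq_ratCast]
      push_cast
      ring
    have hN0 : (Algebra.norm ℚ z : ℚ) ≠ 0 := fun h => hne (by rw [hN, h]; simp)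
    have hf0 : (c.f : ℚ) ≠ 0 := by exact_mod_cast c.f_pos.ne'
    have hle := abs_discr_le (L := L) (by rw [hrank]; simp) b hb (by rw [hdisc]; positivity)
    rw [hdisc, abs_of_nonneg (a := 256 * (c.f : ℚ) ^ 2 * (Algebra.norm ℚ z : ℚ) ^ 2)
      (by positivity)] at hle
    exact_mod_cast hle
  · -- the kernel
    ext g
    constructor
    · intro hg
      have hk : ∀ k, g (aa y k) = aa y k := by
        intro k
        obtain ⟨s, hs⟩ := hsurj (0, k)
        have e1 : s (aa y 0) = aa y k := by rw [E_aa hs, act_zero]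
        have := hg (e k) ⟨aa y 0, hL⟩
        rwa [he s k e1, e1] at this
      have hy := fix_y hk
      have hE : E y g (0, 0) := fun i => by simp [hy, eps_zero]
      refine ⟨(R_zero_iff c g).1 (hER g 0 0 hE), ?_⟩
      rintro x ⟨s, hs⟩
      obtain ⟨j, hj⟩ := exists_R c s
      have e1 : x ^ 2 = y (0 + j) ^ 2 := by rw [hs, hsq]; exact hj _ 0
      rcases sq_eq_sq_iff_eq_or_eq_neg.1 e1 with h | h
      · rw [h, hy]
      · rw [h, map_neg, hy]
    · rintro ⟨-, hg⟩ φ x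
      have hy : ∀ i, g (y i) = y i := by
        intro i
        apply hg
        obtain ⟨s, hs⟩ := hsurj (i, 0)
        refine ⟨s, ?_⟩
        have := hER s i 0 hs (z * c.σ z) 0
        rw [zero_add] at this
        rw [hsq, ← this]
        rfl
      have hk : ∀ k, g (aa y k) = aa y k := by
        intro k
        simp only [aa, map_sum, map_mul, map_intCast, hy]
      obtain ⟨s, hs⟩ := exists_extend L φ
      obtain ⟨j, m, hE⟩ := hall s
      have e1 : (s⁻¹ * g * s) (aa y 0) = aa y 0 := by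
        rw [AlgEquiv.mul_apply, AlgEquiv.mul_apply, E_aa hE, hk, ← E_aa hE]
        exact s.symm_apply_apply _
      have e2 := hfix _ e1 x x.2
      rw [AlgEquiv.mul_apply, AlgEquiv.mul_apply] at e2
      rw [← hs]
      conv_rhs => rw [← e2]
      exact (s.apply_symm_apply _).symm

end Pool.Agent.Lib.MP_af4c59_nt.H32
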