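import Pool.Agent.Lib.MP_af4c59_nt.H32CubA
import Pool.Agent.Lib.MP_af4c59_nt.H32LowF
import Pool.Agent.Lib.MP_af4c59_nt.H32LowCount
import Pool.Agent.Lib.MP_af4c59_nt.H32LowField
import Pool.Agent.Lib.MP_af4c59_nt.H32LowDist

set_option autoImplicit false

namespace Pool.Agent.Lib.MP_af4c59_nt.H32

open NumberField Module IsDedekindDomain

/-- The conjugate of an integer. -/
noncomputable def Cub.cj {F : Type*} [Field F] [NumberField F] (c : Cub F) (z : 𝓞 F) : 𝓞 F :=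
  ⟨c.σ z, (RingOfIntegers.isIntegral_coe z).map (c.σ.toRingEquiv.toRingHom.toIntAlgHom)⟩

lemma Cub.coe_cj {F : Type*} [Field F] [NumberField F] (c : Cub F) (z : 𝓞 F) :
    (c.cj z : F) = c.σ z := rfl

lemma absNorm_span_cast {F : Type*} [Field F] [NumberField F] (z : 𝓞 F) :
    (Ideal.absNorm (Ideal.span {z}) : ℚ) = |Algebra.norm ℚ (z : F)| := by
  rw [Ideal.absNorm_span_singleton, ← Algebra.coe_norm_int, Nat.cast_natAbs, Int.cast_abs]

lemma Cub.absNorm_cj {F : Type*} [Field F] [NumberField F] (c : Cub F) (z : 𝓞 F) :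
    Ideal.absNorm (Ideal.span {c.cj z}) = Ideal.absNorm (Ideal.span {z}) := by
  have : (Ideal.absNorm (Ideal.span {c.cj z}) : ℚ) = Ideal.absNorm (Ideal.span {z}) := by
    rw [absNorm_span_cast, absNorm_span_cast, coe_cj, Algebra.norm_eq_of_algEquiv]
  exact_mod_cast this

/-- The lower bound. -/
theorem lower_bound : ∃ κ : ℝ, 0 < κ ∧ ∃ X₀ : ℝ, ∀ X : ℝ, X₀ ≤ X →
    κ * X ^ ((1 : ℝ) / 2) ≤ ((FS 4 (alternatingGroup (Fin 4)) X).ncard : ℝ) := by
  classical
  obtain ⟨F, _, h3, hg, hpid⟩ := exists_cubic_pid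
  obtain ⟨c⟩ := exists_cub F h3
  have hf : (0 : ℝ) < c.f := by exact_mod_cast c.f_pos
  obtain ⟨κ, hκ, s₀, hs⟩ := squarefree_count F c.f.natAbs (Int.natAbs_ne_zero.2 c.f_pos.ne')
  set s₁ : ℝ := max s₀ (2 / κ) with hs₁
  have hs₁0 : 0 < s₁ := lt_max_of_lt_right (by positivity)
  refine ⟨κ / (6 * (16 * c.f)), by positivity, (16 * c.f * s₁) ^ 2, fun X hX => ?_⟩
  have hX0 : 0 < X := lt_of_lt_of_le (by positivity) hX
  set s : ℝ := √X / (16 * c.f) with hsdef
  have hss : s₁ ≤ s := by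
    rw [hsdef, le_div_iff₀ (by positivity), mul_comm]
    exact Real.le_sqrt_of_sq_le hX
  have hκs : 2 ≤ κ * s := by
    have : 2 / κ ≤ s := (le_max_right _ _).trans hss
    rwa [div_le_iff₀' hκ] at this
  set A := {I : Ideal (𝓞 F) | (Ideal.absNorm I : ℝ) ≤ s ∧
    Squarefree (Ideal.absNorm I) ∧ Nat.Coprime (Ideal.absNorm I) c.f.natAbs} with hA
  have hcount : κ * s ≤ (A.ncard : ℕ) := hs s ((le_max_left _ _).trans hss)
  have hAfin : A.Finite := Set.finite_of_ncard_pos (by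
    have : (0 : ℝ) < (A.ncard : ℕ) := by linarith
    exact_mod_cast this)
  set B := hAfin.toFinset.erase ⊤ with hB
  have hBm : ∀ I ∈ B, I ≠ ⊤ ∧ I ∈ A := fun I hI => by simpa [hB] using hI
  have hAB : A.ncard ≤ B.card + 1 := by
    rw [Set.ncard_eq_toFinset_card _ hAfin, hB]
    have := Finset.pred_card_le_card_erase (s := hAfin.toFinset) (a := ⊤)
    omega
  have hgen : ∀ I : Ideal (𝓞 F), ∃ z : 𝓞 F, I = Ideal.span {z} := fun I =>
    (IsPrincipalIdealRing.principal I).principal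
  choose z hz using hgen
  have hns : ∀ I ∈ B, ¬ IsSquare ((z I : F) * c.σ (z I)) := by
    intro I hI h
    obtain ⟨h1, -, h2, h3⟩ := hBm I hI
    apply h1
    rw [hz I] at h2 h3
    rw [hz I, c.span_eq (z I) 1 h2 (by simp) h3 (by simp) (by simpa using h)]
    simp
  have hne : ∀ I ∈ B, c.σ (z I) ≠ z I := by
    intro I hI
    obtain ⟨h1, -, h2, -⟩ := hBm I hI
    refine c.σ_ne (z I) (hz I ▸ h2) fun h => h1 ?_
    rw [← hz I] at h
    exact Ideal.absNorm_eq_one_iff.1 h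
  choose! L hL hK using fun I (hI : I ∈ B) =>
    c.exists_quartic (z I : F) (RingOfIntegers.isIntegral_coe _) (hns I hI) (hne I hI)
  have hfin := FS_finite (n := 4) (by norm_num) (alternatingGroup (Fin 4)) X
  have hLX : ∀ I ∈ B, L I ∈ hfin.toFinset := by
    intro I hI
    rw [Set.Finite.mem_toFinset]
    refine FS_mono _ ?_ (hL I hI)
    obtain ⟨-, h1, -⟩ := hBm I hI
    have e : (Ideal.absNorm I : ℝ) = |((Algebra.norm ℚ (z I : F) : ℚ) : ℝ)| := by
      have := absNorm_span_cast (z I)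
      rw [← hz I] at this
      exact_mod_cast congrArg (fun q : ℚ => (q : ℝ)) this
    rw [e, hsdef, le_div_iff₀ (by positivity)] at h1
    have h2 := pow_le_pow_left₀ (by positivity) h1 2
    rw [Real.sq_sqrt hX0.le, mul_pow, sq_abs] at h2
    linarith
  have hfib : B.card ≤ 3 * hfin.toFinset.card := by
    refine Finset.card_le_mul_card_image_of_maps_to hLX 3 fun M _ => ?_
    by_cases hne' : (B.filter fun I => L I = M).Nonempty
    swap
    · rw [Finset.not_nonempty_iff_eq_empty.1 hne']; simp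
    obtain ⟨I₀, hI₀⟩ := hne'
    rw [Finset.mem_filter] at hI₀
    obtain ⟨-, -, a2, a3⟩ := hBm I₀ hI₀.1
    rw [hz I₀] at a2 a3
    refine le_trans (Finset.card_le_card (t := {Ideal.span {z I₀}, Ideal.span {c.cj (z I₀)},
      Ideal.span {c.cj (c.cj (z I₀))}}) fun I hI => ?_) Finset.card_le_three
    rw [Finset.mem_filter] at hI
    obtain ⟨-, -, b2, b3⟩ := hBm I hI.1
    rw [hz I] at b2 b3
    have e : NN F (((z I₀ : F) * c.σ (z I₀) : F) : Ω) = NN F (((z I : F) * c.σ (z I) : F) : Ω) := by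
      rw [← hK I₀ hI₀.1, ← hK I hI.1, hI₀.2, hI.2]
    have h0 : (z I₀ : F) * c.σ (z I₀) ≠ 0 := fun h => hns I₀ hI₀.1 (by rw [h]; exact IsSquare.zero)
    have hN : IsSquare (Algebra.norm ℚ ((z I₀ : F) * c.σ (z I₀))) :=
      ⟨Algebra.norm ℚ (z I₀ : F), by rw [map_mul, Algebra.norm_eq_of_algEquiv]⟩
    simp only [Finset.mem_insert, Finset.mem_singleton]
    rw [hz I]
    rcases c.kummer _ _ h0 hN e.subset with h | h | h | h
    · exact absurd h (hns I hI.1)
    · exact Or.inl (c.span_eq _ _ a2 b2 a3 b3 h).symm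
    · refine Or.inr (Or.inl (c.span_eq _ _ ?_ b2 ?_ b3 ?_).symm)
      · rwa [c.absNorm_cj]
      · rwa [c.absNorm_cj]
      · rwa [map_mul] at h
    · refine Or.inr (Or.inr (c.span_eq _ _ ?_ b2 ?_ b3 ?_).symm)
      · rwa [c.absNorm_cj, c.absNorm_cj]
      · rwa [c.absNorm_cj, c.absNorm_cj]
      · rwa [map_mul, map_mul] at h
  rw [Set.ncard_eq_toFinset_card _ hfin, ← Real.sqrt_eq_rpow]
  have e1 : ((A.ncard : ℕ) : ℝ) ≤ B.card + 1 := by exact_mod_cast hAB
  have e2 : (B.card : ℝ) ≤ 3 * hfin.toFinset.card := by exact_mod_cast hfib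
  have e3 : κ / (6 * (16 * c.f)) * √X = κ * s / 6 := by
    rw [hsdef]; field_simp
  rw [e3]
  linarith

end Pool.Agent.Lib.MP_af4c59_nt.H32
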