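import Pool.Agent.Lib.MP_af4c59_nt.H32Defs

set_option autoImplicit false

namespace Pool.Agent.Lib.MP_af4c59_nt.H32

open NumberField Module IsDedekindDomain

namespace Ram

/-- A ramified prime of a Galois number field has a nontrivial inertia group. -/
lemma exists_inertia (M : Type*) [Field M] [NumberField M] [IsGalois ℚ M] (p : ℕ) (hp : p.Prime)
    (h : (p : ℤ) ∣ discr M) :
    ∃ (P : Ideal (𝓞 M)) (g : M ≃ₐ[ℚ] M), P.IsPrime ∧ P.LiesOver (Ideal.span {(p : ℤ)}) ∧ g ≠ 1 ∧
      ∀ x z : 𝓞 M, (z : M) = g (x : M) → z - x ∈ P := by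
  have hp' : Prime (p : ℤ) := Nat.prime_iff_prime_int.mp hp
  have h1 := (not_dvd_discr_iff_forall_liesOver M (𝓞 M) hp').not
  simp only [not_not, not_forall] at h1
  obtain ⟨P, hPm, hPl, hPu⟩ := h1.mp h
  have hsp : (Ideal.span {(p : ℤ)}).IsPrime := (Ideal.span_singleton_prime hp'.ne_zero).mpr hp'
  have hsm : (Ideal.span {(p : ℤ)}).IsMaximal :=
    hsp.isMaximal (Ideal.span_singleton_eq_bot.not.mpr hp'.ne_zero)
  have hG : IsGaloisGroup Gal(M/ℚ) ℤ (𝓞 M) := IsGaloisGroup.of_isFractionRing Gal(M/ℚ) ℤ (𝓞 M) ℚ M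
  have hover : P.under ℤ = Ideal.span {(p : ℤ)} := hPl.over.symm
  have hfin : Finite (ℤ ⧸ Ideal.span {(p : ℤ)}) :=
    Ideal.finiteQuotientOfFreeOfNeBot _ (Ideal.span_singleton_eq_bot.not.mpr hp'.ne_zero)
  have hperf : PerfectField (Ideal.span {(p : ℤ)}).ResidueField := inferInstance
  have hperf' : PerfectField (P.under ℤ).ResidueField := by
    have : (P.under ℤ).IsMaximal := hover ▸ hsm
    have : Finite (ℤ ⧸ P.under ℤ) := hover ▸ hfin
    infer_instance
  have he : P.ramificationIdx ℤ ≠ 1 := fun he => hPu (Ideal.ramificationIdx_eq_one_iff.mp he)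
  have hc := Ideal.card_inertia_eq_ramificationIdxIn (G := Gal(M/ℚ)) (Ideal.span {(p : ℤ)}) P
  rw [Ideal.ramificationIdxIn_eq_ramificationIdx (Ideal.span {(p : ℤ)}) P Gal(M/ℚ)] at hc
  have hne : P.inertia Gal(M/ℚ) ≠ ⊥ := by
    intro hb
    rw [hb] at hc
    simp at hc
    exact he hc.symm
  obtain ⟨g, hg, hg1⟩ : ∃ g ∈ P.inertia Gal(M/ℚ), g ≠ 1 := by
    by_contra hcon
    push Not at hcon
    exact hne ((Subgroup.eq_bot_iff_forall _).mpr hcon)
  refine ⟨P, g, hPm.isPrime, hPl, hg1, fun x z hz => ?_⟩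
  have h2 : g • x - x ∈ P := hg x
  have h3 : z = g • x := by
    apply RingOfIntegers.ext
    rw [hz]
    rfl
  rw [h3]; exact h2

end Ram

/-- A prime ramified in the normal closure is ramified in the field. -/
theorem dvd_discr_of_normalClosure (L : IntermediateField ℚ Ω) [NumberField L]
    [NumberField (IntermediateField.normalClosure ℚ L Ω)] (p : ℕ) (hp : p.Prime)
    (h : (p : ℤ) ∣ discr (IntermediateField.normalClosure ℚ L Ω)) : (p : ℤ) ∣ discr L := by
  classical
  set M := IntermediateField.normalClosure ℚ L Ω with hM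
  have hN : Normal ℚ Ω := IsAlgClosure.normal ℚ Ω
  have hNM : Normal ℚ M := normalClosure.normal ℚ L Ω
  have hgal : IsGalois ℚ M := ⟨⟩
  obtain ⟨P, g, hP, hPl, hg1, hg⟩ := Ram.exists_inertia M p hp h
  let E : (L →ₐ[ℚ] M) ≃ (L →ₐ[ℚ] Ω) := normalClosure.algHomEquiv ℚ L Ω
  -- some embedding is moved by `g`
  have hmove : ∃ φ : L →ₐ[ℚ] M, g.toAlgHom.comp φ ≠ φ := by
    by_contra hcon
    push Not at hcon
    apply hg1
    let S : IntermediateField ℚ Ω := (IntermediateField.fixedField (Subgroup.zpowers g)).map M.val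
    have hle : M ≤ S := by
      rw [hM, normalClosure_def]
      refine iSup_le fun f => ?_
      rintro _ ⟨x, rfl⟩
      refine ⟨E.symm f x, ?_, rfl⟩
      have hx : g (E.symm f x) = E.symm f x := DFunLike.congr_fun (hcon (E.symm f)) x
      have hst : Subgroup.zpowers g ≤ MulAction.stabilizer (M ≃ₐ[ℚ] M) (E.symm f x) := by
        rw [Subgroup.zpowers_le]
        exact hx
      intro σ
      exact hst σ.2
    ext x
    obtain ⟨z, hz, hzx⟩ := hle x.2
    have hzx' : z = x := Subtype.ext hzx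
    subst hzx'
    have := hz ⟨g, Subgroup.mem_zpowers g⟩
    exact congrArg Subtype.val this
  obtain ⟨φ, hφ⟩ := hmove
  let ι := Free.ChooseBasisIndex ℤ (𝓞 L)
  let b := RingOfIntegers.basis L
  have hcard : Fintype.card ι = Fintype.card (L →ₐ[ℚ] Ω) := by
    rw [AlgHom.card ℚ L Ω, ← finrank_eq_card_basis (integralBasis L)]
  let e : ι ≃ (L →ₐ[ℚ] Ω) := Fintype.equivOfCardEq hcard
  let A : Matrix ι ι (𝓞 M) := fun i j =>
    RingOfIntegers.mapRingHom (E.symm (e j)).toRingHom (b i)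
  let c : 𝓞 M →+* Ω := M.val.toRingHom.comp (algebraMap (𝓞 M) M)
  have hc : Function.Injective c :=
    M.val.toRingHom.injective.comp (RingOfIntegers.coe_injective)
  have hA : c.mapMatrix A = Algebra.embeddingsMatrixReindex ℚ Ω (integralBasis L) e := by
    ext i j
    simp only [Algebra.embeddingsMatrixReindex, RingHom.mapMatrix_apply, Matrix.map_apply,
      Matrix.reindex_apply, Matrix.submatrix_apply, Equiv.refl_symm, Equiv.refl_apply,
      Equiv.symm_symm, Algebra.embeddingsMatrix_apply, integralBasis_apply]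
    rfl
  have hdet : A.det ^ 2 = (discr L : 𝓞 M) := by
    apply hc
    rw [map_pow, RingHom.map_det, hA, ← Algebra.discr_eq_det_embeddingsMatrixReindex_pow_two,
      ← coe_discr, map_intCast, map_intCast]
  have hmem : A.det ∈ P := by
    rw [← Ideal.Quotient.eq_zero_iff_mem, RingHom.map_det]
    have hne : e.symm (E (g.toAlgHom.comp φ)) ≠ e.symm (E φ) := fun hh =>
      hφ (E.injective (e.symm.injective hh))
    refine Matrix.det_zero_of_column_eq hne fun i => ?_
    simp only [RingHom.mapMatrix_apply, Matrix.map_apply]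
    rw [Ideal.Quotient.eq]
    apply hg
    simp only [A, Equiv.apply_symm_apply, Equiv.symm_apply_apply]
    rfl
  have hd : (discr L : 𝓞 M) ∈ P := by
    rw [← hdet]
    exact P.pow_mem_of_mem hmem 2 (by norm_num)
  have hd' : discr L ∈ Ideal.span {(p : ℤ)} := by
    rw [hPl.over, Ideal.under_def, Ideal.mem_comap]
    simpa using hd
  exact Ideal.mem_span_singleton.mp hd'

/-- An element that becomes a square in an unramified extension has even valuation. -/
theorem even_multiplicity (K M : Type*) [Field K] [NumberField K] [Field M] [NumberField M]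
    [Algebra K M] (p : ℕ) (hp : p.Prime) (h : ¬ (p : ℤ) ∣ discr M) (δ : 𝓞 K) (hδ : δ ≠ 0)
    (y : M) (hy : y ^ 2 = algebraMap K M (δ : K)) (P : HeightOneSpectrum (𝓞 K))
    (hP : (p : 𝓞 K) ∈ P.asIdeal) : Even (multiplicity P.asIdeal (Ideal.span {δ})) := by
  have hp' : Prime (p : ℤ) := Nat.prime_iff_prime_int.mp hp
  have hyint : IsIntegral ℤ y := by
    refine IsIntegral.of_pow (n := 2) (by norm_num) ?_
    rw [hy]
    exact (δ.isIntegral_coe).map (algebraMap K M).toIntAlgHom
  let y' : 𝓞 M := ⟨y, hyint⟩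
  have hy' : y' ^ 2 = algebraMap (𝓞 K) (𝓞 M) δ := by
    apply RingOfIntegers.ext
    exact hy
  have hPp := P.isPrime
  have hPm := P.isMaximal
  obtain ⟨Q, hQm, hQl⟩ := Ideal.exists_maximal_ideal_liesOver_of_isIntegral (S := 𝓞 M) P.asIdeal
  have hQp := hQm.isPrime
  have hQ0 : Q ≠ ⊥ := Ideal.ne_bot_of_liesOver_of_ne_bot P.ne_bot Q
  have hpQ : ((p : ℤ) : 𝓞 M) ∈ Q := by
    have h1 : (p : 𝓞 K) ∈ Q.under (𝓞 K) := hQl.over ▸ hP
    rw [Ideal.under_def, Ideal.mem_comap] at h1
    simpa using h1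
  have hu : Algebra.IsUnramifiedAt ℤ Q :=
    (not_dvd_discr_iff_forall_mem M (𝓞 M) hp').mp h Q hQp hpQ
  have hu' : Algebra.IsUnramifiedAt (𝓞 K) Q := Algebra.IsUnramifiedAt.of_restrictScalars ℤ Q
  have he : P.asIdeal.ramificationIdx' Q = 1 := by
    rw [Ideal.ramificationIdx'_eq_ramificationIdx P.asIdeal Q P.ne_bot]
    exact Ideal.ramificationIdx_eq_one Q (𝓞 K)
  have hI : (Ideal.span {δ} : Ideal (𝓞 K)) ≠ ⊥ := Ideal.span_singleton_eq_bot.not.mpr hδ
  have hQpr : Prime Q := Ideal.prime_of_isPrime hQ0 hQp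
  have hm := Ideal.IsDedekindDomain.emultiplicity_map_eq_ramificationIdx'_mul (S := 𝓞 M)
    (v := P.asIdeal) (w := Q) hI P.irreducible hQpr.irreducible hQ0
  rw [he, Nat.cast_one, one_mul, Ideal.map_span, Set.image_singleton, ← hy',
    ← Ideal.span_singleton_pow, emultiplicity_pow hQpr] at hm
  have hy0 : y' ≠ 0 := by
    intro h0
    rw [h0] at hy'
    apply hδ
    apply FaithfulSMul.algebraMap_injective (𝓞 K) (𝓞 M)
    rw [← hy']
    simp
  have hf1 : FiniteMultiplicity Q (Ideal.span {y'}) :=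
    FiniteMultiplicity.of_prime_left hQpr (Ideal.span_singleton_eq_bot.not.mpr hy0)
  have hf2 : FiniteMultiplicity P.asIdeal (Ideal.span {δ}) :=
    FiniteMultiplicity.of_prime_left P.prime hI
  rw [hf1.emultiplicity_eq_multiplicity, hf2.emultiplicity_eq_multiplicity] at hm
  have hm' : 2 * multiplicity Q (Ideal.span {y'}) = multiplicity P.asIdeal (Ideal.span {δ}) := by
    exact_mod_cast hm
  rw [← hm']
  exact even_two_mul _

end Pool.Agent.Lib.MP_af4c59_nt.H32
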