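import Pool.Agent.Lib.MP_af4c59_nt.H32Defs

set_option autoImplicit false

namespace Pool.Agent.Lib.MP_af4c59_nt.H32

open NumberField Module IsDedekindDomain

namespace ResA

/-- The permutation of the embeddings induced by an automorphism. -/
lemma exists_perm {n : ℕ} {L : IntermediateField ℚ Ω} (e : (L →ₐ[ℚ] Ω) ≃ Fin n)
    (g : Ω ≃ₐ[ℚ] Ω) :
    ∃ τ : Equiv.Perm (Fin n), ∀ φ : L →ₐ[ℚ] Ω, τ (e φ) = e (g.toAlgHom.comp φ) := by
  let c : (L →ₐ[ℚ] Ω) ≃ (L →ₐ[ℚ] Ω) :=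
    { toFun := fun φ => g.toAlgHom.comp φ
      invFun := fun φ => g.symm.toAlgHom.comp φ
      left_inv := fun φ => AlgHom.ext fun x => g.symm_apply_apply (φ x)
      right_inv := fun φ => AlgHom.ext fun x => g.apply_symm_apply (φ x) }
  exact ⟨e.permCongr c, fun φ => by simp [c]⟩

lemma exists_prim (L : IntermediateField ℚ Ω) [FiniteDimensional ℚ L] :
    ∃ α : L, IsIntegral ℤ α ∧ Function.Injective fun φ : L →ₐ[ℚ] Ω => φ α := by
  obtain ⟨α, hα⟩ := Field.exists_primitive_element ℚ L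
  have h1 := (Field.primitive_element_iff_algHom_eq_of_eval' ℚ Ω
    (fun s => IsAlgClosed.splits _) α).1 hα
  have h2 : IsAlgebraic ℤ α :=
    (IsFractionRing.isAlgebraic_iff ℤ ℚ L).2 (Algebra.IsAlgebraic.isAlgebraic α)
  obtain ⟨d, hd, hi⟩ := h2.exists_integral_multiple
  refine ⟨d • α, hi, fun φ ψ h => h1 ?_⟩
  simp only [map_zsmul] at h
  exact smul_right_injective Ω hd h

/-- The three sign patterns. -/
def H : Fin 3 → Fin 4 → ℤ := ![![1, 1, -1, -1], ![1, -1, 1, -1], ![1, -1, -1, 1]]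

/-- The relation between a permutation and a rotation. -/
def R (τ : Equiv.Perm (Fin 4)) (j : Fin 3) : Prop :=
  (∀ i k, H i k = H (i + j) (τ 0) * H (i + j) (τ k)) ∧ (∀ i, H (i + j) (τ 0) ^ 2 = 1) ∧
    H (0 + j) (τ 0) * H (1 + j) (τ 0) * H (2 + j) (τ 0) = 1

instance (τ : Equiv.Perm (Fin 4)) (j : Fin 3) : Decidable (R τ j) := by
  unfold R
  infer_instance

lemma rot : ∀ τ : Equiv.Perm (Fin 4), Equiv.Perm.sign τ = 1 → ∃ j, R τ j := by
  decide +kernel

lemma all : ∀ j, ∃ τ : Equiv.Perm (Fin 4), Equiv.Perm.sign τ = 1 ∧ R τ j := by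
  decide +kernel

/-- The resolvents. -/
noncomputable def Y (a : Fin 4 → Ω) (i : Fin 3) : Ω := ∑ k, (H i k : Ω) * a k

lemma map_Y {a : Fin 4 → Ω} {g : Ω ≃ₐ[ℚ] Ω} {τ : Equiv.Perm (Fin 4)} {j : Fin 3} (h : R τ j)
    (hg : ∀ k, g (a k) = a (τ k)) (i : Fin 3) :
    g (Y a i) = (H (i + j) (τ 0) : Ω) * Y a (i + j) := by
  rw [Y, Y, map_sum, ← Equiv.sum_comp τ fun k => (H (i + j) k : Ω) * a k, Finset.mul_sum]
  refine Finset.sum_congr rfl fun k _ => ?_
  rw [map_mul, map_intCast, hg, h.1 i k, Int.cast_mul, mul_assoc]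

lemma map_Y_sq {a : Fin 4 → Ω} {g : Ω ≃ₐ[ℚ] Ω} {τ : Equiv.Perm (Fin 4)} {j : Fin 3} (h : R τ j)
    (hg : ∀ k, g (a k) = a (τ k)) (i : Fin 3) : g (Y a i ^ 2) = Y a (i + j) ^ 2 := by
  rw [map_pow, map_Y h hg, mul_pow, ← Int.cast_pow, h.2.1, Int.cast_one, one_mul]

lemma Y0 (a : Fin 4 → Ω) : Y a 0 = a 0 + a 1 - a 2 - a 3 := by
  simp [Y, H, Fin.sum_univ_four]
  ring

lemma Y1 (a : Fin 4 → Ω) : Y a 1 = a 0 - a 1 + a 2 - a 3 := by
  simp [Y, H, Fin.sum_univ_four]
  ring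

lemma Y2 (a : Fin 4 → Ω) : Y a 2 = a 0 - a 1 - a 2 + a 3 := by
  simp [Y, H, Fin.sum_univ_four]
  ring

lemma Y_inj {a : Fin 4 → Ω} (ha : Function.Injective a) :
    Function.Injective fun i => Y a i ^ 2 := by
  have hn : ∀ k l : Fin 4, k ≠ l → a k - a l ≠ 0 := fun k l h => sub_ne_zero.2 (ha.ne h)
  have h4 : (4 : Ω) ≠ 0 := by norm_num
  have n01 : Y a 0 ^ 2 ≠ Y a 1 ^ 2 := fun h =>
    mul_ne_zero h4 (mul_ne_zero (hn 1 2 (by decide)) (hn 0 3 (by decide))) (by
      rw [Y0, Y1] at h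
      linear_combination h)
  have n02 : Y a 0 ^ 2 ≠ Y a 2 ^ 2 := fun h =>
    mul_ne_zero h4 (mul_ne_zero (hn 1 3 (by decide)) (hn 0 2 (by decide))) (by
      rw [Y0, Y2] at h
      linear_combination h)
  have n12 : Y a 1 ^ 2 ≠ Y a 2 ^ 2 := fun h =>
    mul_ne_zero h4 (mul_ne_zero (hn 2 3 (by decide)) (hn 0 1 (by decide))) (by
      rw [Y1, Y2] at h
      linear_combination h)
  intro i j h
  fin_cases i <;> fin_cases j
  · rfl
  · exact (n01 h).elim
  · exact (n02 h).elim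
  · exact (n01 (Eq.symm h)).elim
  · rfl
  · exact (n12 h).elim
  · exact (n02 (Eq.symm h)).elim
  · exact (n12 (Eq.symm h)).elim
  · rfl

lemma Y_prod (a : Fin 4 → Ω) (j : Fin 3) :
    Y a (0 + j) * Y a (1 + j) * Y a (2 + j) = Y a 0 * Y a 1 * Y a 2 := by
  fin_cases j
  · rfl
  · change Y a 1 * Y a 2 * Y a 0 = _
    ring
  · change Y a 2 * Y a 0 * Y a 1 = _
    ring

end ResA

open ResA in
/-- The resolvent triple of a quartic field with group `A_4`. -/
theorem exists_tri (L : IntermediateField ℚ Ω) (h4 : finrank ℚ L = 4)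
    (hG : HasGal 4 (alternatingGroup (Fin 4)) L) :
    ∃ y : Fin 3 → Ω, Tri y ∧ (∀ i, y i ∈ IntermediateField.normalClosure ℚ L Ω) ∧
      Ker L = {g | ∀ i, g (y i) = y i} := by
  have : FiniteDimensional ℚ L := Module.finite_of_finrank_pos (by omega)
  obtain ⟨e, he⟩ := hG
  obtain ⟨α, hi, hα⟩ := exists_prim L
  set a : Fin 4 → Ω := fun k => e.symm k α with ha
  have ainj : Function.Injective a := hα.comp e.symm.injective
  have act : ∀ (g : Ω ≃ₐ[ℚ] Ω) (τ : Equiv.Perm (Fin 4)),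
      (∀ φ : L →ₐ[ℚ] Ω, τ (e φ) = e (g.toAlgHom.comp φ)) → ∀ k, g (a k) = a (τ k) := by
    intro g τ h k
    have h1 := h (e.symm k)
    rw [e.apply_symm_apply] at h1
    simp only [ha]
    rw [h1, e.symm_apply_apply]
    rfl
  have ex : ∀ g : Ω ≃ₐ[ℚ] Ω, ∃ τ j, R τ j ∧ ∀ k, g (a k) = a (τ k) := fun g => by
    obtain ⟨τ, hτ⟩ := exists_perm e g
    obtain ⟨j, hj⟩ := rot τ (Equiv.Perm.mem_alternatingGroup.1 ((he τ).2 ⟨g, hτ⟩))
    exact ⟨τ, j, hj, act g τ hτ⟩
  refine ⟨Y a, ⟨fun i => ?_, Y_inj ainj, fun g => ?_, fun j => ?_, fun g => ?_⟩, fun i => ?_, ?_⟩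
  · refine IsIntegral.sum _ fun k _ => IsIntegral.mul (isIntegral_intCast _) ?_
    exact hi.map ((e.symm k).toRingHom.toIntAlgHom)
  · obtain ⟨τ, j, hj, hg⟩ := ex g
    exact ⟨j, map_Y_sq hj hg⟩
  · obtain ⟨τ, hτ, hj⟩ := all j
    obtain ⟨g, hg⟩ := (he τ).1 (Equiv.Perm.mem_alternatingGroup.2 hτ)
    exact ⟨g, map_Y_sq hj (act g τ hg)⟩
  · obtain ⟨τ, j, hj, hg⟩ := ex g
    have h1 := congrArg (Int.cast : ℤ → Ω) hj.2.2
    rw [Int.cast_mul, Int.cast_mul, Int.cast_one] at h1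
    rw [map_mul, map_mul, map_Y hj hg, map_Y hj hg, map_Y hj hg, ← Y_prod a j]
    linear_combination (Y a (0 + j) * Y a (1 + j) * Y a (2 + j)) * h1
  · refine sum_mem fun k _ => mul_mem (intCast_mem _ _) ?_
    exact (e.symm k).fieldRange_le_normalClosure ⟨α, rfl⟩
  · ext g
    constructor
    · intro hg i
      rw [Y, map_sum]
      refine Finset.sum_congr rfl fun k _ => ?_
      rw [map_mul, map_intCast]
      exact congrArg _ (hg _ _)
    · intro hg φ x
      obtain ⟨τ, j, -, hτ⟩ := ex g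
      have hT : g (a 0 + a 1 + a 2 + a 3) = a 0 + a 1 + a 2 + a 3 := by
        rw [← Fin.sum_univ_four, map_sum, ← Equiv.sum_comp τ a]
        exact Finset.sum_congr rfl fun k _ => hτ k
      have h0 := hg 0
      have h1 := hg 1
      have h2 := hg 2
      rw [Y0] at h0
      rw [Y1] at h1
      rw [Y2] at h2
      simp only [map_add, map_sub] at hT h0 h1 h2
      have hk : ∀ k, g (a k) = a k := fun k => by
        fin_cases k
        · change g (a 0) = a 0
          linear_combination (hT + h0 + h1 + h2) / 4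
        · change g (a 1) = a 1
          linear_combination (hT + h0 - h1 - h2) / 4
        · change g (a 2) = a 2
          linear_combination (hT - h0 + h1 - h2) / 4
        · change g (a 3) = a 3
          linear_combination (hT - h0 - h1 + h2) / 4
      have h5 : g.toAlgHom.comp φ = φ := hα (by
        have := hk (e φ)
        simp only [ha, e.symm_apply_apply] at this
        exact this)
      exact DFunLike.congr_fun h5 x

/-- The discriminant of a field with even Galois group is a square. -/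
theorem discr_isSquare {n : ℕ} (L : IntermediateField ℚ Ω) [NumberField L]
    (hG : HasGal n (alternatingGroup (Fin n)) L) : IsSquare (discr L) := by
  classical
  obtain ⟨e, he⟩ := hG
  let e' : Free.ChooseBasisIndex ℤ (𝓞 L) ≃ (L →ₐ[ℚ] Ω) := Fintype.equivOfCardEq (by
    rw [AlgHom.card ℚ L Ω, finrank_eq_card_basis (integralBasis L)])
  have h1 := Algebra.discr_eq_det_embeddingsMatrixReindex_pow_two ℚ Ω (integralBasis L) e'
  set M := Algebra.embeddingsMatrixReindex ℚ Ω (integralBasis L) e' with hM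
  have h2 : ∀ g : Ω ≃ₐ[ℚ] Ω, g M.det = M.det := fun g => by
    obtain ⟨τ, hτ⟩ := ResA.exists_perm e g
    have hs : Equiv.Perm.sign ((e'.trans e).symm.permCongr τ) = 1 := by
      rw [Equiv.Perm.sign_permCongr]
      exact Equiv.Perm.mem_alternatingGroup.1 ((he τ).2 ⟨g, hτ⟩)
    have h3 : g.mapMatrix M = M.submatrix id ((e'.trans e).symm.permCongr τ) := by
      ext i j
      simp [hM, Algebra.embeddingsMatrixReindex, hτ]
    rw [AlgEquiv.map_det, h3, Matrix.det_permute', hs]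
    simp
  have : IsGalois ℚ Ω := {}
  obtain ⟨q, hq⟩ := (InfiniteGalois.mem_range_algebraMap_iff_fixed (k := ℚ) M.det).2 h2
  rw [← hq, ← map_pow, ← coe_discr] at h1
  exact Rat.isSquare_intCast_iff.1 ⟨q, by rw [(algebraMap ℚ Ω).injective h1, sq]⟩

end Pool.Agent.Lib.MP_af4c59_nt.H32
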