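import Pool.Agent.Lib.MP_af4c59_nt.H32Defs

set_option autoImplicit false

namespace Pool.Agent.Lib.MP_af4c59_nt.H32

open NumberField Module IsDedekindDomain

namespace ResB

lemma galΩ : IsGalois ℚ Ω := IsAlgClosure.isGalois ℚ Ω

lemma mem_of_fixed (L : IntermediateField ℚ Ω) (x : Ω)
    (h : ∀ g : Ω ≃ₐ[ℚ] Ω, (∀ z ∈ L, g z = z) → g x = x) : x ∈ L := by
  have := galΩ
  rw [← InfiniteGalois.fixedField_fixingSubgroup L, IntermediateField.mem_fixedField_iff]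
  intro g hg
  exact h g ((IntermediateField.mem_fixingSubgroup_iff _ _).1 hg)

lemma fix_adjoin (a : Ω) (g : Ω ≃ₐ[ℚ] Ω) (h : g a = a) :
    ∀ x ∈ IntermediateField.adjoin ℚ {a}, g x = x := by
  intro x hx
  induction hx using IntermediateField.adjoin_induction with
  | mem x hx => rw [Set.mem_singleton_iff.1 hx]; exact h
  | algebraMap x => exact g.commutes x
  | add x y _ _ hx hy => rw [map_add, hx, hy]
  | inv x _ hx => rw [map_inv₀, hx]
  | mul x y _ _ hx hy => rw [map_mul, hx, hy]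

/-- The rotations of three letters. -/
def Rot : Subgroup (Equiv.Perm (Fin 3)) where
  carrier := {g | ∃ j : Fin 3, ∀ i, g i = i + j}
  mul_mem' := by
    rintro a b ⟨j, hj⟩ ⟨k, hk⟩
    exact ⟨k + j, fun i => by rw [Equiv.Perm.mul_apply, hk, hj, add_assoc]⟩
  one_mem' := ⟨0, fun i => by simp⟩
  inv_mem' := by
    rintro a ⟨j, hj⟩
    refine ⟨-j, fun i => ?_⟩
    apply a.injective
    rw [hj (i + -j)]
    simp

lemma NN_sub (F : IntermediateField ℚ Ω) [Normal ℚ F] (δ δ' : F) (hδ : δ ≠ 0) (hδ' : δ' ≠ 0)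
    (h : IsSquare (δ * δ')) : NN F δ ⊆ NN F δ' := by
  obtain ⟨r, hr⟩ := h
  rintro g ⟨hg1, hg2⟩
  refine ⟨hg1, ?_⟩
  rintro y ⟨s, hs⟩
  have hr' : (δ : Ω) * δ' = r * r := by exact_mod_cast congrArg (fun z : F => (z : Ω)) hr
  have h0 : (δ : Ω) ≠ 0 := fun e => hδ (by exact_mod_cast e)
  have h0' : (δ' : Ω) ≠ 0 := fun e => hδ' (by exact_mod_cast e)
  have hsr : s δ * s δ' = s r * s r := by rw [← map_mul, hr', map_mul]
  have hs0 : s δ ≠ 0 := by simpa using h0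
  have hs0' : s δ' ≠ 0 := by simpa using h0'
  have hy : y ≠ 0 := by
    rintro rfl
    exact hs0' (by rw [← hs]; simp)
  have hsr0 : s r ≠ 0 := by
    intro e
    rw [e, mul_zero] at hsr
    exact mul_ne_zero hs0 hs0' hsr
  have hmem : s r ∈ F :=
    ((IntermediateField.normal_iff_forall_map_le' (K := F)).1 ‹Normal ℚ F› s) ⟨r, r.2, rfl⟩
  have h1 := hg2 (s r / y) ⟨s, by
    rw [div_pow, hs, div_eq_iff hs0', hsr, sq]⟩
  rw [map_div₀, hg1 _ hmem] at h1
  have hgy : g y ≠ 0 := by simpa using hy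
  rw [div_eq_div_iff hgy hy] at h1
  exact (mul_left_cancel₀ hsr0 h1).symm

/-- The permutation of the embeddings induced by an automorphism. -/
noncomputable def act (L : IntermediateField ℚ Ω) (g : Ω ≃ₐ[ℚ] Ω) : Equiv.Perm (L →ₐ[ℚ] Ω) where
  toFun φ := g.toAlgHom.comp φ
  invFun φ := g.symm.toAlgHom.comp φ
  left_inv φ := by ext x; simp
  right_inv φ := by ext x; simp

lemma act_apply (L : IntermediateField ℚ Ω) (g : Ω ≃ₐ[ℚ] Ω) (φ : L →ₐ[ℚ] Ω) (x : L) :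
    act L g φ x = g (φ x) := rfl

lemma le_of_image (L0 L L' : IntermediateField ℚ Ω) (h : Ker L0 = Ker L')
    (him : act L0 '' {g | ∀ x ∈ L, g x = x} ⊆ act L0 '' {g | ∀ x ∈ L', g x = x}) : L' ≤ L := by
  intro x hx
  apply mem_of_fixed
  intro g hg
  obtain ⟨g', hg', e⟩ := him ⟨g, hg, rfl⟩
  have hk : g'⁻¹ * g ∈ Ker L0 := by
    intro φ z
    have : g' (φ z) = g (φ z) := by rw [← act_apply, e, act_apply]
    rw [AlgEquiv.mul_apply, ← this]
    exact g'.symm_apply_apply _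
  rw [h] at hk
  have h1 : (g'⁻¹ * g) x = x := hk L'.val ⟨x, hx⟩
  rw [AlgEquiv.mul_apply] at h1
  have h2 : g' (g'⁻¹ (g x)) = g x := g'.apply_symm_apply _
  rw [← h2, h1]
  exact hg' x hx

end ResB

open ResB

/-- The cubic resolvent field attached to a resolvent triple. -/
theorem Tri.field {y : Fin 3 → Ω} (h : Tri y) :
    ∃ (F : IntermediateField ℚ Ω) (_ : NumberField F) (δ : 𝓞 F), finrank ℚ F = 3 ∧
      IsGalois ℚ F ∧ F = IntermediateField.adjoin ℚ {y 0 ^ 2} ∧ ((δ : F) : Ω) = y 0 ^ 2 ∧ δ ≠ 0 ∧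
      IsSquare (Algebra.norm ℚ (δ : F)) ∧ NN F (y 0 ^ 2) = {g | ∀ i, g (y i) = y i} := by
  have := galΩ
  set F : IntermediateField ℚ Ω := IntermediateField.adjoin ℚ {y 0 ^ 2} with hF
  have hint : IsIntegral ℤ (y 0 ^ 2) := (h.int 0).pow 2
  have hfin : FiniteDimensional ℚ F :=
    IntermediateField.adjoin.finiteDimensional (Algebra.IsIntegral.isIntegral (y 0 ^ 2))
  have hNF : NumberField F := @NumberField.mk _ _ inferInstance hfin
  have hmem0 : y 0 ^ 2 ∈ F := IntermediateField.mem_adjoin_simple_self ℚ _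
  have hfix : ∀ σ : Ω ≃ₐ[ℚ] Ω, σ (y 0 ^ 2) = y 0 ^ 2 → ∀ x ∈ F, σ x = x :=
    fun σ hσ => fix_adjoin _ σ hσ
  have hmem : ∀ i, y i ^ 2 ∈ F := by
    intro i
    apply mem_of_fixed
    intro g hg
    obtain ⟨j, hj⟩ := h.rot g
    have e := hj 0
    rw [hg _ hmem0] at e
    have : (0 : Fin 3) = 0 + j := h.inj e
    rw [zero_add] at this
    rw [hj i, ← this, add_zero]
  obtain ⟨hrank, -, e, he⟩ := gal_of_roots Rot (fun i => y i ^ 2) h.inj 0 F hmem0 hfix
    (fun σ => by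
      obtain ⟨j, hj⟩ := h.rot σ
      exact ⟨Equiv.addRight j, ⟨j, fun i => rfl⟩, hj⟩)
    (fun g hg => by
      obtain ⟨j, hj⟩ := hg
      obtain ⟨σ, hσ⟩ := h.all j
      exact ⟨σ, fun i => by rw [hσ i, hj i]⟩)
    (fun i => ⟨Equiv.addRight i, ⟨i, fun _ => rfl⟩, by simp⟩)
  have hnormal : Normal ℚ F := by
    refine (IntermediateField.normal_iff_forall_map_le' (K := F)).2 fun σ => ?_
    rw [hF, IntermediateField.adjoin_map, IntermediateField.adjoin_le_iff]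
    rintro _ ⟨z, hz, rfl⟩
    rw [Set.mem_singleton_iff.1 hz]
    obtain ⟨j, hj⟩ := h.rot σ
    have := hmem (0 + j)
    rw [← hj 0] at this
    exact this
  have hy0 : y 0 ^ 2 ≠ 0 := by
    intro e0
    obtain ⟨g, hg⟩ := h.all 1
    have e1 := hg 0
    rw [e0, map_zero, ← e0] at e1
    have : (0 : Fin 3) = 0 + 1 := h.inj e1
    exact absurd this (by decide)
  have hintF : IsIntegral ℤ (⟨y 0 ^ 2, hmem0⟩ : F) :=
    (isIntegral_algHom_iff (F.val.restrictScalars ℤ) Subtype.val_injective).1 hint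
  refine ⟨F, hNF, ⟨⟨y 0 ^ 2, hmem0⟩, hintF⟩, hrank, {}, rfl, rfl, ?_, ?_, ?_⟩
  · intro e0
    apply hy0
    have := congrArg (fun z : 𝓞 F => ((z : F) : Ω)) e0
    simpa using this
  · obtain ⟨q, hq⟩ := (InfiniteGalois.mem_range_algebraMap_iff_fixed (k := ℚ)
      (y 0 * y 1 * y 2)).2 h.prod
    refine ⟨q, (algebraMap ℚ Ω).injective ?_⟩
    rw [Algebra.norm_eq_prod_embeddings, map_mul, hq, ← e.prod_comp]
    have : ∀ i, e i (⟨y 0 ^ 2, hmem0⟩ : F) = y i ^ 2 := by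
      intro i
      obtain ⟨σ, hσ⟩ := h.all i
      have e1 := hσ 0
      rw [zero_add] at e1
      rw [he σ i e1]
      exact e1
    have e2 : ∀ i, e i (algebraMap (𝓞 F) F ⟨⟨y 0 ^ 2, hmem0⟩, hintF⟩) = y i ^ 2 := this
    simp only [e2, Fin.prod_univ_three]
    ring
  · ext g
    constructor
    · rintro ⟨-, hg⟩ i
      obtain ⟨σ, hσ⟩ := h.all i
      exact hg _ ⟨σ, by rw [hσ 0, zero_add]⟩
    · intro hg
      refine ⟨hfix g (by rw [map_pow, hg 0]), ?_⟩
      rintro z ⟨s, hs⟩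
      obtain ⟨j, hj⟩ := h.rot s
      rw [hj 0] at hs
      rcases sq_eq_sq_iff_eq_or_eq_neg.1 hs with rfl | rfl
      · exact hg _
      · rw [map_neg, hg]

/-- The group `NN F δ` depends only on the class of `δ` modulo squares. -/
theorem NN_congr (F : IntermediateField ℚ Ω) [Normal ℚ F] (δ δ' : F) (hδ : δ ≠ 0) (hδ' : δ' ≠ 0)
    (h : IsSquare (δ * δ')) : NN F δ = NN F δ' :=
  Set.Subset.antisymm (NN_sub F δ δ' hδ hδ' h) (NN_sub F δ' δ hδ' hδ (by rwa [mul_comm]))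

/-- Few quartic fields share a normal closure. -/
theorem fibre_bound (N : Set (Ω ≃ₐ[ℚ] Ω)) (S : Finset (IntermediateField ℚ Ω))
    (hS : ∀ L ∈ S, finrank ℚ L = 4 ∧ Ker L = N) : S.card ≤ 2 ^ 24 := by
  classical
  rcases S.eq_empty_or_nonempty with rfl | ⟨L0, hL0⟩
  · simp
  obtain ⟨h4, hk0⟩ := hS L0 hL0
  have : FiniteDimensional ℚ L0 := Module.finite_of_finrank_pos (by omega)
  have hc : Fintype.card (L0 →ₐ[ℚ] Ω) = 4 := by rw [AlgHom.card ℚ L0 Ω, h4]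
  have hcard : Fintype.card (Set (Equiv.Perm (L0 →ₐ[ℚ] Ω))) = 2 ^ 24 := by
    rw [Fintype.card_set, Fintype.card_perm, hc]
    rfl
  rw [← hcard, ← Finset.card_univ]
  refine Finset.card_le_card_of_injOn (fun L => act L0 '' {g | ∀ x ∈ L, g x = x})
    (fun _ _ => Finset.mem_coe.2 (Finset.mem_univ _)) ?_
  intro L hL L' hL' e
  have k1 : Ker L0 = Ker L := by rw [hk0, (hS L hL).2]
  have k2 : Ker L0 = Ker L' := by rw [hk0, (hS L' hL').2]
  exact le_antisymm (le_of_image L0 L' L k1 e.ge) (le_of_image L0 L L' k2 e.le)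

end Pool.Agent.Lib.MP_af4c59_nt.H32
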