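import Pool.Agent.Lib.MP_af4c59_nt.H32Defs

set_option autoImplicit false

namespace Pool.Agent.Lib.MP_af4c59_nt.H32

open NumberField Module IsDedekindDomain

open scoped nonZeroDivisors NNReal ENNReal in
/-- Minkowski's theorem for a box adapted to `δ`. -/
theorem mink (K : Type*) [Field K] [NumberField K] (J : Ideal (𝓞 K)) (hJ : J ≠ ⊥) (δ : K)
    (hδ : δ ≠ 0) (T : ℝ) (hT : 0 < T)
    (h : (Ideal.absNorm J : ℝ) ^ 2 * |(discr K : ℝ)| <
      T ^ finrank ℚ K * |((Algebra.norm ℚ δ : ℚ) : ℝ)|) :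
    ∃ z ∈ J, z ≠ 0 ∧ ∀ φ : K →+* ℝ, φ (z : K) ^ 2 ≤ T * |φ δ| := by
  classical
  let I : (FractionalIdeal (𝓞 K)⁰ K)ˣ :=
    Units.mk0 (J : FractionalIdeal (𝓞 K)⁰ K) (FractionalIdeal.coeIdeal_ne_zero.2 hJ)
  let f : InfinitePlace K → ℝ≥0 := fun w => ⟨√(T * w δ), Real.sqrt_nonneg _⟩
  have hf : ∀ w, (f w : ℝ) = √(T * w δ) := fun _ => rfl
  have hw : ∀ w : InfinitePlace K, 0 ≤ T * w δ := fun w => mul_nonneg hT.le (apply_nonneg w δ)
  have hP : (∏ w : InfinitePlace K, (f w : ℝ) ^ w.mult) ^ 2 =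
      T ^ finrank ℚ K * |((Algebra.norm ℚ δ : ℚ) : ℝ)| := by
    rw [← Finset.prod_pow]
    have : ∀ w : InfinitePlace K, ((f w : ℝ) ^ w.mult) ^ 2 = T ^ w.mult * w δ ^ w.mult := by
      intro w
      rw [← pow_mul, mul_comm w.mult 2, pow_mul, hf, Real.sq_sqrt (hw w), mul_pow]
    simp only [this, Finset.prod_mul_distrib, Finset.prod_pow_eq_pow_sum,
      InfinitePlace.sum_mult_eq, InfinitePlace.prod_eq_abs_norm, Rat.cast_abs]
  have hP0 : 0 ≤ ∏ w : InfinitePlace K, (f w : ℝ) ^ w.mult := by positivity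
  have h1 : (Ideal.absNorm J : ℝ) * √|(discr K : ℝ)| <
      ∏ w : InfinitePlace K, (f w : ℝ) ^ w.mult := by
    refine lt_of_pow_lt_pow_left₀ 2 hP0 ?_
    rw [hP, mul_pow, Real.sq_sqrt (abs_nonneg _)]
    exact h
  have hlt : mixedEmbedding.minkowskiBound K I <
      MeasureTheory.volume (mixedEmbedding.convexBodyLT K f) := by
    rw [mixedEmbedding.convexBodyLT_volume,
      ← ENNReal.toReal_lt_toReal (mixedEmbedding.minkowskiBound_lt_top K I).ne
        (ENNReal.mul_ne_top ENNReal.coe_ne_top ENNReal.coe_ne_top)]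
    have hI : FractionalIdeal.absNorm I.1 = Ideal.absNorm J := FractionalIdeal.coeIdeal_absNorm J
    simp_rw [mixedEmbedding.minkowskiBound,
      mixedEmbedding.volume_fundamentalDomain_fractionalIdealLatticeBasis,
      mixedEmbedding.volume_fundamentalDomain_latticeBasis, ENNReal.toReal_mul, ENNReal.toReal_pow,
      ENNReal.toReal_inv, ENNReal.coe_toReal, ENNReal.toReal_ofNat, mixedEmbedding.finrank, hI]
    rw [ENNReal.toReal_ofReal (by positivity), ← InfinitePlace.card_add_two_mul_card_eq_rank]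
    simp only [Real.coe_sqrt, coe_nnnorm, Int.norm_eq_abs, NNReal.coe_mul, NNReal.coe_pow,
      NNReal.coe_ofNat, NNReal.coe_real_pi, NNReal.coe_prod, Rat.cast_natCast]
    set r₁ := InfinitePlace.nrRealPlaces K
    set r₂ := InfinitePlace.nrComplexPlaces K
    have h2 : (2 : ℝ) ^ r₂ ≤ Real.pi ^ r₂ := pow_le_pow_left₀ (by norm_num) Real.two_le_pi _
    have h3 : (Ideal.absNorm J : ℝ) * ((2 : ℝ)⁻¹ ^ r₂ * √|(discr K : ℝ)|) * 2 ^ (r₁ + 2 * r₂) =
        2 ^ r₁ * 2 ^ r₂ * ((Ideal.absNorm J : ℝ) * √|(discr K : ℝ)|) := by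
      rw [pow_add, two_mul, pow_add, inv_pow]
      field_simp
    rw [h3]
    calc (2 : ℝ) ^ r₁ * 2 ^ r₂ * ((Ideal.absNorm J : ℝ) * √|(discr K : ℝ)|)
        < 2 ^ r₁ * 2 ^ r₂ * ∏ w : InfinitePlace K, (f w : ℝ) ^ w.mult :=
          mul_lt_mul_of_pos_left h1 (by positivity)
      _ ≤ 2 ^ r₁ * Real.pi ^ r₂ * ∏ w : InfinitePlace K, (f w : ℝ) ^ w.mult := by gcongr
  obtain ⟨a, ha, ha0, hlt'⟩ := mixedEmbedding.exists_ne_zero_mem_ideal_lt K I hlt
  obtain ⟨z, hz, rfl⟩ := (FractionalIdeal.mem_coeIdeal _).1 ha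
  refine ⟨z, hz, fun h0 => ha0 (by simp [h0]), fun φ => ?_⟩
  have h4 := (hlt' (InfinitePlace.mk (Complex.ofRealHom.comp φ))).le
  rw [hf] at h4
  simp only [InfinitePlace.apply, RingHom.comp_apply, Complex.ofRealHom_eq_coe, Complex.norm_real,
    Real.norm_eq_abs] at h4
  have h5 := pow_le_pow_left₀ (abs_nonneg _) h4 2
  rwa [sq_abs, Real.sq_sqrt (by positivity)] at h5

theorem exists_real (K : Type*) [Field K] [NumberField K] (h : Odd (finrank ℚ K)) :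
    Nonempty (K →+* ℝ) := by
  classical
  obtain ⟨w, hw⟩ := Fintype.card_pos_iff.1 (InfinitePlace.nrRealPlaces_pos_of_odd_finrank h)
  exact ⟨InfinitePlace.embedding_of_isReal hw⟩

namespace Mink

variable {F : Type*} [Field F] [NumberField F] (c : Cub F)

lemma tr_coord (z : 𝓞 F) : ∃ a d : ℤ,
    3 * (z : F) = (Algebra.trace ℤ (𝓞 F) z : ℤ) + a * c.x0 + d * c.x1 := by
  obtain ⟨s, a, d, h1, h2⟩ := c.coord z z.isIntegral_coe
  refine ⟨a, d, ?_⟩
  rw [h1, ← h2, ← c.trace_eq, ← Algebra.coe_trace_int]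
  simp

lemma tr_mul (z y : 𝓞 F) : ∃ k : ℤ, 3 * Algebra.trace ℤ (𝓞 F) (z * y) =
    Algebra.trace ℤ (𝓞 F) z * Algebra.trace ℤ (𝓞 F) y + c.f * k := by
  obtain ⟨a, d, h1⟩ := tr_coord c z
  obtain ⟨a', d', h2⟩ := tr_coord c y
  obtain ⟨a'', d'', h3⟩ := tr_coord c (z * y)
  set s := Algebra.trace ℤ (𝓞 F) z
  set s' := Algebra.trace ℤ (𝓞 F) y
  set s'' := Algebra.trace ℤ (𝓞 F) (z * y)
  have h4 := c.mul_coord s a d s' a' d'
  rw [← h1, ← h2] at h4
  refine ⟨2 * a * a' + 2 * d * d' - a * d' - d * a', ?_⟩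
  have h5 := (c.indep'
    ((3 * s'' - (s * s' + c.f * (2 * a * a' + 2 * d * d' - a * d' - d * a')) : ℤ) : ℚ)
    ((3 * a'' - (s * a' + a * s' + a * a' * c.b1 + (a * d' + d * a') * (c.b2 - c.b1) -
      d * d' * c.b2) : ℤ) : ℚ)
    ((3 * d'' - (s * d' + d * s' + a * a' * c.b2 - (a * d' + d * a') * c.b1 +
      d * d' * (c.b1 - c.b2)) : ℤ) : ℚ) (by
      push_cast at h3 ⊢
      linear_combination h4 - 3 * h3)).1
  have h6 : 3 * s'' - (s * s' + c.f * (2 * a * a' + 2 * d * d' - a * d' - d * a')) = 0 := by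
    exact_mod_cast h5
  linarith

/-- The ideal. -/
def lam : Ideal (𝓞 F) where
  carrier := {z | ∀ y, c.f ∣ 3 * Algebra.trace ℤ (𝓞 F) (z * y)}
  zero_mem' := fun y => by simp
  add_mem' := fun {a b} ha hb y => by
    rw [add_mul, map_add, mul_add]
    exact dvd_add (ha y) (hb y)
  smul_mem' := fun r a ha y => by
    rw [smul_eq_mul, mul_comm r a, mul_assoc]
    exact ha _

lemma mem_lam {z : 𝓞 F} (h : c.f ∣ Algebra.trace ℤ (𝓞 F) z) : z ∈ lam c := by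
  intro y
  obtain ⟨k, hk⟩ := tr_mul c z y
  rw [hk]
  exact dvd_add (h.mul_right _) (dvd_mul_right _ _)

lemma lam_norm : (Ideal.absNorm (lam c) : ℤ) ≤ c.f := by
  have hf := c.f_pos
  have : NeZero c.f.natAbs := ⟨by omega⟩
  let τ : 𝓞 F →+ ZMod c.f.natAbs :=
    (Int.castAddHom (ZMod c.f.natAbs)).comp (Algebra.trace ℤ (𝓞 F)).toAddMonoidHom
  have hle : τ.ker ≤ (lam c).toAddSubgroup := by
    intro z hz
    refine mem_lam c ?_
    have h1 : ((Algebra.trace ℤ (𝓞 F) z : ℤ) : ZMod c.f.natAbs) = 0 := hz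
    rw [ZMod.intCast_zmod_eq_zero_iff_dvd] at h1
    exact Int.natAbs_dvd.1 h1
  have h1 := AddSubgroup.index_dvd_of_le hle
  rw [AddSubgroup.index_ker] at h1
  have h2 : Nat.card τ.range ≤ c.f.natAbs := by
    have := AddSubgroup.card_le_card_addGroup τ.range
    rwa [Nat.card_zmod] at this
  have h3 := (Nat.le_of_dvd Nat.card_pos h1).trans h2
  rw [Ideal.absNorm_eq_index]
  omega

lemma lam_mul {z y : 𝓞 F} (hz : z ∈ lam c) (hy : y ∈ lam c) :
    ∃ h d1 d2 : ℤ, 81 * ((z * y : 𝓞 F) : F) = c.eta h d1 d2 := by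
  obtain ⟨a, d, h1⟩ := tr_coord c z
  obtain ⟨a', d', h2⟩ := tr_coord c y
  obtain ⟨k, hk⟩ := hz 1
  obtain ⟨k', hk'⟩ := hy 1
  rw [mul_one] at hk hk'
  have e1 : 9 * (z : F) = c.f * k + (3 * a) * c.x0 + (3 * d) * c.x1 := by
    have : (3 : F) * (Algebra.trace ℤ (𝓞 F) z : ℤ) = c.f * k := by exact_mod_cast congrArg Int.cast hk
    linear_combination 3 * h1 + this
  have e2 : 9 * (y : F) = c.f * k' + (3 * a') * c.x0 + (3 * d') * c.x1 := by
    have : (3 : F) * (Algebra.trace ℤ (𝓞 F) y : ℤ) = c.f * k' := by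
      exact_mod_cast congrArg Int.cast hk'
    linear_combination 3 * h2 + this
  refine ⟨c.f * k * k' + 9 * (2 * a * a' + 2 * d * d' - (a * d' + d * a')),
    3 * (k * a' + k' * a) * (c.b1 - c.b2) + 3 * (k * d' + k' * d) * c.b2 +
      9 * (a * a' - (a * d' + d * a')),
    -3 * (k * a' + k' * a) * c.b2 + 3 * (k * d' + k' * d) * c.b1 +
      9 * (d * d' - (a * d' + d * a')), ?_⟩
  have e3 : 81 * ((z * y : 𝓞 F) : F) = (9 * (z : F)) * (9 * (y : F)) := by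
    push_cast
    ring
  rw [e3, e1, e2, c.mul_coord, c.eta_coord]
  push_cast
  rw [c.f_cast]
  ring

end Mink

/-- The ideal of norm at most `f` whose square lies in the lattice spanned by
`f, x0 ^ 2, x1 ^ 2`. -/
theorem Cub.lat {F : Type*} [Field F] [NumberField F] (c : Cub F) :
    ∃ Λ : Ideal (𝓞 F), Λ ≠ ⊥ ∧ (Ideal.absNorm Λ : ℤ) ≤ c.f ∧
      ∀ η ∈ Λ ^ 2, ∃ h d1 d2 : ℤ, 81 * (η : F) = c.eta h d1 d2 := by
  refine ⟨Mink.lam c, ?_, Mink.lam_norm c, fun η hη => ?_⟩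
  · intro h
    have h1 : (c.f : 𝓞 F) ∈ Mink.lam c := by
      refine Mink.mem_lam c ?_
      have : (c.f : 𝓞 F) = c.f • (1 : 𝓞 F) := by simp
      rw [this, map_smul, smul_eq_mul]
      exact dvd_mul_right _ _
    rw [h, Ideal.mem_bot] at h1
    exact c.f_pos.ne' (by exact_mod_cast h1)
  · rw [pow_two] at hη
    refine Submodule.mul_induction_on hη (fun z hz y hy => Mink.lam_mul c hz hy) ?_
    rintro x y ⟨h, d1, d2, e⟩ ⟨h', d1', d2', e'⟩
    refine ⟨h + h', d1 + d1', d2 + d2', ?_⟩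
    simp only [Cub.eta] at e e' ⊢
    push_cast
    linear_combination e + e'

end Pool.Agent.Lib.MP_af4c59_nt.H32
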