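import Pool.Agent.Lib.MP_af4c59_nt.H32CubB
import Pool.Agent.Lib.MP_af4c59_nt.H32Mink

set_option autoImplicit false

namespace Pool.Agent.Lib.MP_af4c59_nt.H32

open NumberField Module IsDedekindDomain

namespace Sel

/-- In a cubic field a rational multiple of a square with square norm is a square. -/
lemma isSquare_of_rat_mul_sq {F : Type*} [Field F] [NumberField F] (h3 : finrank ℚ F = 3)
    (η w : F) (r : ℚ) (hη : η ≠ 0) (he : η = (r : F) * w ^ 2)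
    (hN : IsSquare (Algebra.norm ℚ η)) : IsSquare η := by
  obtain ⟨q, hq⟩ := hN
  have hr : r ≠ 0 := by
    rintro rfl
    exact hη (by simp [he])
  have hw : w ≠ 0 := by
    rintro rfl
    exact hη (by simp [he])
  have hNw : Algebra.norm ℚ w ≠ 0 := Algebra.norm_ne_zero_iff.2 hw
  have h1 : Algebra.norm ℚ η = r ^ 3 * Algebra.norm ℚ w ^ 2 := by
    rw [he, map_mul, map_pow, ← h3, ← Algebra.norm_algebraMap]
    simp
  have h2 : r = (q / (r * Algebra.norm ℚ w)) ^ 2 := by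
    field_simp
    rw [h1] at hq
    linear_combination hq
  refine ⟨((q / (r * Algebra.norm ℚ w) : ℚ) : F) * w, ?_⟩
  have h4 : (r : F) = ((q / (r * Algebra.norm ℚ w) : ℚ) : F) ^ 2 := by
    rw [← Rat.cast_pow, ← h2]
  rw [he, h4]
  ring

end Sel

/-- In the degenerate case the class is trivial. -/
theorem Cub.isSquare_of_rr {F : Type*} [Field F] [NumberField F] (c : Cub F) (η : F)
    (h d1 d2 : ℤ) (h0 : 0 < h) (hη : η ≠ 0) (he : 81 * η = c.eta h d1 d2) (hr : rr h d1 d2 = 0)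
    (hN : IsSquare (Algebra.norm ℚ η)) : IsSquare η := by
  have hrF : (h : F) ^ 2 - 4 * ((d1 : F) ^ 2 - d1 * d2 + (d2 : F) ^ 2) = 0 := by
    have : ((rr h d1 d2 : ℤ) : F) = 0 := by rw [hr]; simp
    simpa [rr, nf] using this
  by_cases hs : h + 2 * d1 - d2 = 0
  · have hd2 : d2 = 0 := by
      unfold rr nf at hr
      have e : h = d2 - 2 * d1 := by omega
      rw [e] at hr
      have : d2 ^ 2 = 0 := by linarith
      exact pow_eq_zero_iff (two_ne_zero) |>.1 this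
    have hh : h = -2 * d1 := by omega
    have e1 : 6 * c.eta h d1 d2 = h * (c.x0 + 2 * c.x1) ^ 2 := by
      rw [Cub.eta, hd2, hh]
      push_cast
      linear_combination (8 * (d1 : F)) * (c.sq0 + c.mul01 + c.sq1)
    refine Sel.isSquare_of_rat_mul_sq c.rank η (c.x0 + 2 * c.x1) ((h : ℚ) / 486) hη ?_ hN
    push_cast
    linear_combination (1 / 81 : F) * he + (1 / 486 : F) * e1
  · have hsF : ((h : F) + 2 * d1 - d2) ≠ 0 := by exact_mod_cast hs
    have e1 : (0 + (2 * d1 + h - 2 * d2) * c.x0 + (-2 * d2) * c.x1) *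
        (0 + (2 * d1 + h - 2 * d2) * c.x0 + (-2 * d2) * c.x1) =
        4 * ((h : F) + 2 * d1 - d2) * c.eta h d1 d2 := by
      rw [c.mul_coord, c.eta_coord]
      linear_combination (-2 * (c.f : F) + c.b1 * c.x0 + c.b2 * c.x1) * hrF
    refine Sel.isSquare_of_rat_mul_sq c.rank η
      (0 + (2 * d1 + h - 2 * d2) * c.x0 + (-2 * d2) * c.x1)
      (1 / (324 * ((h : ℚ) + 2 * d1 - d2))) hη ?_ hN
    push_cast
    rw [pow_two, e1, ← he]
    field_simp
    ring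

namespace Sel

/-- The small coefficient vector attached to a totally positive Selmer element. -/
lemma exists_vec {F : Type*} [Field F] [NumberField F] (c : Cub F) (δ : 𝓞 F) (hδ : SelP δ)
    (hns : ¬ IsSquare (δ : F)) :
    ∃ x ∈ PP c.b1 c.b2, ∃ η z : F, η ≠ 0 ∧ z ^ 2 = δ * η ∧
      81 * η = c.eta x.1 x.2.1 x.2.2 := by
  obtain ⟨hδ0, hδN, hδpos, I, hI⟩ := hδ
  obtain ⟨Λ, hΛ0, hΛN, hΛ⟩ := c.lat
  have hf := c.f_pos
  have hfR : (0 : ℝ) < c.f := by exact_mod_cast hf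
  have hδF : (δ : F) ≠ 0 := by
    intro h
    exact hδ0 (by exact_mod_cast h)
  have hI0 : I ≠ ⊥ := by
    rintro rfl
    apply hδ0
    have : (Ideal.span {δ} : Ideal (𝓞 F)) = ⊥ := by
      rw [← hI, pow_two, Ideal.bot_mul]
    simpa using this
  obtain ⟨T0, hT0, hT3⟩ : ∃ T0 : ℝ, 0 < T0 ∧ T0 ^ 3 = 8 * (c.f : ℝ) ^ 4 := by
    have hp : (0 : ℝ) < 8 * (c.f : ℝ) ^ 4 := by positivity
    exact ⟨(8 * (c.f : ℝ) ^ 4) ^ ((3 : ℕ)⁻¹ : ℝ), Real.rpow_pos_of_pos hp _,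
      Real.rpow_inv_natCast_pow hp.le (by norm_num)⟩
  have hNδ : Algebra.norm ℚ (δ : F) ≠ 0 := Algebra.norm_ne_zero_iff.2 hδF
  have hIN : (Ideal.absNorm I : ℝ) ^ 2 = |((Algebra.norm ℚ (δ : F) : ℚ) : ℝ)| := by
    have h1 : Ideal.absNorm I ^ 2 = (Algebra.norm ℤ δ).natAbs := by
      rw [← map_pow, hI, Ideal.absNorm_span_singleton]
    have h2 : ((Algebra.norm ℤ δ : ℤ) : ℚ) = Algebra.norm ℚ (δ : F) := Algebra.coe_norm_int δ
    rw [← h2]
    have h3 : ((Ideal.absNorm I ^ 2 : ℕ) : ℝ) = (((Algebra.norm ℤ δ).natAbs : ℕ) : ℝ) := by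
      rw [h1]
    rw [Nat.cast_natAbs] at h3
    push_cast at h3 ⊢
    exact h3
  have hJ0 : Λ * I ≠ ⊥ := mul_ne_zero hΛ0 hI0
  obtain ⟨z, hzJ, hz0, hz⟩ := mink F (Λ * I) hJ0 (δ : F) hδF T0 hT0 (by
    rw [c.rank, hT3, map_mul, c.discr_eq]
    push_cast
    rw [mul_pow, hIN]
    have hpos : (0 : ℝ) < |((Algebra.norm ℚ (δ : F) : ℚ) : ℝ)| := by
      rw [abs_pos]; exact_mod_cast hNδ
    have h1 : (Ideal.absNorm Λ : ℝ) ≤ c.f := by exact_mod_cast hΛN
    have h2 : (Ideal.absNorm Λ : ℝ) ^ 2 ≤ (c.f : ℝ) ^ 2 := by gcongr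
    rw [abs_of_nonneg (sq_nonneg (c.f : ℝ))]
    have h3 : (0 : ℝ) < (c.f : ℝ) ^ 2 := by positivity
    calc (Ideal.absNorm Λ : ℝ) ^ 2 * |((Algebra.norm ℚ (δ : F) : ℚ) : ℝ)| * (c.f : ℝ) ^ 2
        ≤ (c.f : ℝ) ^ 2 * |((Algebra.norm ℚ (δ : F) : ℚ) : ℝ)| * (c.f : ℝ) ^ 2 := by gcongr
      _ = 1 * ((c.f : ℝ) ^ 4 * |((Algebra.norm ℚ (δ : F) : ℚ) : ℝ)|) := by ring
      _ < 8 * ((c.f : ℝ) ^ 4 * |((Algebra.norm ℚ (δ : F) : ℚ) : ℝ)|) := by
          gcongr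
          norm_num
      _ = _ := by ring)
  have hz2 : z ^ 2 ∈ Λ ^ 2 * Ideal.span {δ} := by
    rw [← hI, ← mul_pow]
    exact Ideal.pow_mem_pow hzJ 2
  obtain ⟨η, hηΛ, hη⟩ := Ideal.mem_mul_span_singleton.1 hz2
  obtain ⟨h, d1, d2, he⟩ := hΛ η hηΛ
  have hzF : (z : F) ≠ 0 := by
    intro h
    exact hz0 (by exact_mod_cast h)
  have hηF : (z : F) ^ 2 = (δ : F) * (η : F) := by
    have := congrArg (fun a : 𝓞 F => (a : F)) hη
    simp only [map_mul, map_pow, RingOfIntegers.coe_eq_algebraMap] at this ⊢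
    rw [← this, mul_comm]
  have hη0 : (η : F) ≠ 0 := by
    intro h
    rw [h, mul_zero] at hηF
    exact hzF (pow_eq_zero_iff two_ne_zero |>.1 hηF)
  have hb : ∀ φ : F →+* ℝ, 0 < φ (η : F) ∧ φ (η : F) ≤ T0 := by
    intro φ
    have h1 := hz φ
    have h2 := hδpos φ
    have h3 : φ (z : F) ^ 2 = φ (δ : F) * φ (η : F) := by
      rw [← map_pow, hηF, map_mul]
    have h4 : 0 < φ (z : F) ^ 2 := by
      have : φ (z : F) ≠ 0 := (map_ne_zero φ).2 hzF
      positivity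
    rw [abs_of_pos h2, h3] at h1
    rw [h3] at h4
    refine ⟨(pos_iff_pos_of_mul_pos h4).1 h2, ?_⟩
    rw [mul_comm] at h1
    exact le_of_mul_le_mul_right h1 h2
  obtain ⟨ι⟩ := exists_real F (by rw [c.rank]; decide)
  obtain ⟨p0, q0⟩ := hb ι
  obtain ⟨p1, q1⟩ := hb (ι.comp (c.σ : F →+* F))
  obtain ⟨p2, q2⟩ := hb (ι.comp ((c.σ : F →+* F).comp (c.σ : F →+* F)))
  simp only [RingHom.comp_apply, RingHom.coe_coe] at p1 q1 p2 q2
  have s1 : c.σ (c.eta h d1 d2) = 81 * c.σ (η : F) := by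
    rw [← he, map_mul, map_ofNat]
  have s2 : c.σ (c.σ (c.eta h d1 d2)) = 81 * c.σ (c.σ (η : F)) := by
    rw [s1, map_mul, map_ofNat]
  have t1 := c.eta_trace h d1 d2
  have t2 := c.eta_e2 h d1 d2
  have t3 := c.eta_norm h d1 d2
  rw [s2, s1, ← he] at t1 t2 t3
  have u1 := congrArg ι t1
  have u2 := congrArg ι t2
  simp only [map_add, map_mul, map_pow, map_ofNat, map_intCast] at u1 u2
  set e0 := ι (η : F)
  set e1 := ι (c.σ (η : F))
  set e2 := ι (c.σ (c.σ (η : F)))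
  have hhf : (0 : ℝ) < h * c.f := by linarith
  have hh : (0 : ℝ) < h := (pos_iff_pos_of_mul_pos hhf).2 hfR
  have hh0 : 0 < h := by exact_mod_cast hh
  have hhf' : (h : ℝ) * c.f ≤ 81 * T0 := by linarith
  have hh3 : h ^ 3 ≤ 5000000 * nf c.b1 c.b2 := by
    have a1 : ((h : ℝ) * c.f) ^ 3 ≤ (81 * T0) ^ 3 := by gcongr
    rw [mul_pow, mul_pow, hT3] at a1
    have a2 : (h : ℝ) ^ 3 * (c.f : ℝ) ^ 3 ≤ (5000000 * c.f) * (c.f : ℝ) ^ 3 := by
      have : (0 : ℝ) < (c.f : ℝ) ^ 4 := by positivity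
      nlinarith
    have a3 : (h : ℝ) ^ 3 ≤ 5000000 * c.f := le_of_mul_le_mul_right a2 (by positivity)
    have a4 : h ^ 3 ≤ 5000000 * c.f := by exact_mod_cast a3
    exact a4
  have hq : 0 < qq h d1 d2 := by
    have a1 : (0 : ℝ) < 3 * (c.f : ℝ) ^ 2 * (qq h d1 d2 : ℤ) := by
      rw [← u2]; positivity
    have a2 : (0 : ℝ) < (qq h d1 d2 : ℤ) := (pos_iff_pos_of_mul_pos a1).1 (by positivity)
    exact_mod_cast a2
  obtain ⟨q, hqq⟩ := hδN
  have hq0 : q ≠ 0 := by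
    rintro rfl
    exact hNδ (by simpa using hqq)
  have hNη : Algebra.norm ℚ (η : F) = (Algebra.norm ℚ (z : F) / q) ^ 2 := by
    have := congrArg (Algebra.norm ℚ) hηF
    rw [map_pow, map_mul, hqq] at this
    field_simp
    linear_combination -this
  have hNsq : IsSquare (Algebra.norm ℚ (η : F)) := by
    rw [hNη]; exact IsSquare.sq _
  have hQ : IsSquare (QQ h d1 d2 c.b1 c.b2) := by
    have a1 : ((81 ^ 3 * Algebra.norm ℚ (η : F) : ℚ) : F) =
        (((c.f : ℚ) ^ 2 * (QQ h d1 d2 c.b1 c.b2 : ℤ) : ℚ) : F) := by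
      push_cast
      rw [c.norm_eq, ← t3]
      ring
    have a2 : (81 ^ 3 * Algebra.norm ℚ (η : F) : ℚ) =
        (c.f : ℚ) ^ 2 * (QQ h d1 d2 c.b1 c.b2 : ℤ) := Rat.cast_injective a1
    have hfQ : (c.f : ℚ) ≠ 0 := by exact_mod_cast hf.ne'
    rw [← Rat.isSquare_intCast_iff]
    refine ⟨729 * (Algebra.norm ℚ (z : F) / q) / c.f, ?_⟩
    rw [hNη] at a2
    generalize Algebra.norm ℚ (z : F) / q = y at a2
    field_simp
    linear_combination -a2
  have hr : rr h d1 d2 ≠ 0 := by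
    intro hr
    obtain ⟨y, hy⟩ := c.isSquare_of_rr (η : F) h d1 d2 hh0 hη0 he hr hNsq
    have hy0 : y ≠ 0 := by
      rintro rfl
      exact hη0 (by simpa using hy)
    apply hns
    refine ⟨(z : F) / y, ?_⟩
    rw [hy] at hηF
    field_simp
    linear_combination -hηF
  exact ⟨(h, d1, d2), ⟨hh0, hh3, hq, hr, hQ⟩, η, z, hη0, hηF, he⟩

end Sel

/-- Totally positive Selmer classes inject into the small coefficient vectors. -/
theorem Cub.sel_bound {F : Type*} [Field F] [NumberField F] (c : Cub F) (T : Finset (𝓞 F))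
    (hT : ∀ δ ∈ T, SelP δ) (hI : Ineq T) : T.card ≤ (PP c.b1 c.b2).ncard + 1 := by
  classical
  have h1 : (T.filter fun δ : 𝓞 F => IsSquare (δ : F)).card ≤ 1 := by
    rw [Finset.card_le_one]
    intro a ha b hb
    rw [Finset.mem_filter] at ha hb
    by_contra hab
    exact hI a ha.1 b hb.1 hab (ha.2.mul hb.2)
  have h2 : (T.filter fun δ : 𝓞 F => ¬ IsSquare (δ : F)).card ≤ (PP c.b1 c.b2).ncard := by
    have hex : ∀ δ : 𝓞 F, ∃ x : ℤ × ℤ × ℤ, δ ∈ (T.filter fun δ : 𝓞 F => ¬ IsSquare (δ : F)) →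
        x ∈ PP c.b1 c.b2 ∧ ∃ η z : F, η ≠ 0 ∧ z ^ 2 = δ * η ∧
          81 * η = c.eta x.1 x.2.1 x.2.2 := by
      intro δ
      by_cases hδ : δ ∈ (T.filter fun δ : 𝓞 F => ¬ IsSquare (δ : F))
      · have hδ' := Finset.mem_filter.1 hδ
        obtain ⟨x, hx, hx'⟩ := Sel.exists_vec c δ (hT δ hδ'.1) hδ'.2
        exact ⟨x, fun _ => ⟨hx, hx'⟩⟩
      · exact ⟨0, fun h => absurd h hδ⟩
    choose g hg using hex
    rw [← Set.ncard_coe_finset]
    refine Set.ncard_le_ncard_of_injOn g (fun δ hδ => (hg δ hδ).1) ?_ (PP_finite _ _)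
    intro a ha b hb hab
    obtain ⟨-, η, z, hη0, hz, he⟩ := hg a ha
    obtain ⟨-, η', z', -, hz', he'⟩ := hg b hb
    have ha' := (Finset.mem_filter.1 ha).1
    have hb' := (Finset.mem_filter.1 hb).1
    have hηη : η' = η := by
      rw [← hab, ← he] at he'
      exact mul_left_cancel₀ (by norm_num) he'
    rw [hηη] at hz'
    by_contra hne
    apply hI a ha' b hb' hne
    refine ⟨z * z' / η, ?_⟩
    field_simp
    linear_combination (-(z' ^ 2)) * hz - (a : F) * η * hz'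
  have h3 := Finset.card_filter_add_card_filter_not (s := T) (fun δ : 𝓞 F => IsSquare (δ : F))
  omega

end Pool.Agent.Lib.MP_af4c59_nt.H32
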