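import Pool.Agent.Lib.MP_af4c59_nt.H32Defs

set_option autoImplicit false

namespace Pool.Agent.Lib.MP_af4c59_nt.H32

open NumberField Module IsDedekindDomain

namespace Tor

open UniqueFactorizationMonoid

/-- A nonzero ideal with even multiplicities everywhere is a square. -/
theorem sq_of_even {R : Type*} [CommRing R] [IsDedekindDomain R] (J : Ideal R) (hJ : J ≠ ⊥)
    (h : ∀ P : HeightOneSpectrum R, Even (multiplicity P.asIdeal J)) :
    ∃ I : Ideal R, I ^ 2 = J := by
  classical
  have h2 : ∀ a ∈ normalizedFactors J, 2 ∣ Multiset.count a (normalizedFactors J) := by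
    intro a ha
    have hp : Prime a := prime_of_normalized_factor a ha
    have := h ⟨a, Ideal.isPrime_of_prime hp, hp.ne_zero⟩
    rw [multiplicity_eq_count_normalizedFactors hp.irreducible hJ, normalize_eq] at this
    exact even_iff_two_dvd.mp this
  obtain ⟨u, hu⟩ := Multiset.exists_smul_of_dvd_count _ h2
  refine ⟨u.prod, ?_⟩
  rw [← Multiset.prod_nsmul, ← hu, Ideal.prod_normalizedFactors_eq_self hJ]

theorem mult_mul {R : Type*} [CommRing R] [IsDedekindDomain R] (P : HeightOneSpectrum R)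
    {a b : R} (ha : a ≠ 0) (hb : b ≠ 0) :
    multiplicity P.asIdeal (Ideal.span {a * b}) =
      multiplicity P.asIdeal (Ideal.span {a}) + multiplicity P.asIdeal (Ideal.span {b}) := by
  rw [← Ideal.span_singleton_mul_span_singleton]
  refine multiplicity_mul P.prime ?_
  refine FiniteMultiplicity.of_prime_left P.prime ?_
  rw [Ideal.span_singleton_mul_span_singleton]
  simpa using ⟨ha, hb⟩

theorem exists_prime_mem {R : Type*} [CommRing R] (P : Ideal R) (hP : P.IsPrime) (n : ℕ) :
    n ≠ 0 → (n : R) ∈ P → ∃ p : ℕ, p.Prime ∧ p ∣ n ∧ (p : R) ∈ P := by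
  induction n using Nat.recOnMul with
  | zero => intro h; exact absurd rfl h
  | one =>
    intro _ h
    exact absurd ((Ideal.eq_top_iff_one P).mpr (by simpa using h)) hP.ne_top
  | prime p hp => intro _ h; exact ⟨p, hp, dvd_rfl, h⟩
  | mul a b iha ihb =>
    intro h0 h
    rw [Nat.cast_mul] at h
    rcases hP.mem_or_mem h with h | h
    · obtain ⟨p, hp, hd, hm⟩ := iha (left_ne_zero_of_mul h0) h
      exact ⟨p, hp, hd.mul_right _, hm⟩
    · obtain ⟨p, hp, hd, hm⟩ := ihb (right_ne_zero_of_mul h0) h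
      exact ⟨p, hp, hd.mul_left _, hm⟩

/-- At most `3 ω(D)` primes contain `D`. -/
theorem exists_primes {F : Type*} [Field F] [NumberField F] (h3 : finrank ℚ F = 3)
    (D : ℕ) (hD : D ≠ 0) :
    ∃ S : Finset (Ideal (𝓞 F)), S.card ≤ 3 * D.primeFactors.card ∧
      ∀ P : HeightOneSpectrum (𝓞 F), (D : 𝓞 F) ∈ P.asIdeal → P.asIdeal ∈ S := by
  classical
  refine ⟨D.primeFactors.biUnion
    (fun p => IsDedekindDomain.primesOverFinset (Ideal.span {(p : ℤ)}) (𝓞 F)), ?_, ?_⟩
  · rw [mul_comm]
    refine Finset.card_biUnion_le_card_mul _ _ _ ?_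
    intro p hp
    have hp' : p.Prime := Nat.prime_of_mem_primeFactors hp
    have hq : Prime (p : ℤ) := Nat.prime_iff_prime_int.mp hp'
    have : (Ideal.span {(p : ℤ)}).IsMaximal :=
      PrincipalIdealRing.isMaximal_of_irreducible hq.irreducible
    have h0 : Ideal.span {(p : ℤ)} ≠ ⊥ := by simpa using hp'.ne_zero
    have := Ideal.card_primesOverFinset_le_finrank (𝓞 F) ℚ F h0
    rwa [h3] at this
  · intro P hP
    obtain ⟨p, hp, hd, hm⟩ := exists_prime_mem P.asIdeal P.isPrime D hD hP
    have hq : Prime (p : ℤ) := Nat.prime_iff_prime_int.mp hp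
    have hmax : (Ideal.span {(p : ℤ)}).IsMaximal :=
      PrincipalIdealRing.isMaximal_of_irreducible hq.irreducible
    have h0 : Ideal.span {(p : ℤ)} ≠ ⊥ := by simpa using hp.ne_zero
    refine Finset.mem_biUnion.mpr ⟨p, Nat.mem_primeFactors.mpr ⟨hp, hd, hD⟩, ?_⟩
    rw [IsDedekindDomain.mem_primesOverFinset_iff h0]
    refine ⟨P.isPrime, ⟨?_⟩⟩
    refine hmax.eq_of_le ?_ ?_
    · exact Ideal.comap_ne_top _ P.isPrime.ne_top
    · rw [Ideal.span_singleton_le_iff_mem]
      simpa [Ideal.mem_comap] using hm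

theorem card_real {F : Type*} [Field F] [NumberField F] (h3 : finrank ℚ F = 3) :
    Fintype.card (F →+* ℝ) ≤ 3 := by
  have h1 : Fintype.card (F →+* ℂ) = 3 := by rw [Embeddings.card, h3]
  rw [← h1]
  refine Fintype.card_le_of_injective (fun φ => Complex.ofRealHom.comp φ) ?_
  intro φ ψ h
  ext x
  have := RingHom.congr_fun h x
  simpa using this

end Tor

/-- Classes with even valuation outside `D` are controlled by the totally positive Selmer
classes. -/
theorem torsor_bound {F : Type*} [Field F] [NumberField F] (h3 : finrank ℚ F = 3) (s : ℕ)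
    (hs : ∀ T : Finset (𝓞 F), (∀ δ ∈ T, SelP δ) → Ineq T → T.card ≤ s)
    (D : ℕ) (hD : D ≠ 0) (T : Finset (𝓞 F)) (hT : ∀ δ ∈ T, Good D δ) (hI : Ineq T) :
    T.card ≤ 8 ^ (D.primeFactors.card + 1) * s := by
  classical
  obtain ⟨S, hS, hmem⟩ := Tor.exists_primes h3 D hD
  let f : 𝓞 F → (S → Bool) × ((F →+* ℝ) → Bool) := fun δ =>
    (fun P => decide (Even (multiplicity P.1 (Ideal.span {δ}))), fun φ => decide (0 < φ (δ : F)))
  have hfib : ∀ b ∈ (Finset.univ : Finset ((S → Bool) × ((F →+* ℝ) → Bool))),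
      (T.filter (fun a => f a = b)).card ≤ s := by
    intro b _
    rcases (T.filter (fun a => f a = b)).eq_empty_or_nonempty with h | ⟨δ0, h0⟩
    · simp [h]
    obtain ⟨h0T, h0b⟩ := Finset.mem_filter.mp h0
    obtain ⟨h0ne, h0sq, h0ev⟩ := hT δ0 h0T
    have h0F : (δ0 : F) ≠ 0 := by simpa using h0ne
    have hinj : Function.Injective (fun δ : 𝓞 F => δ * δ0) := mul_left_injective₀ h0ne
    rw [← Finset.card_image_of_injective _ hinj]
    refine hs _ ?_ ?_
    · intro x hx
      obtain ⟨δ, hδ, rfl⟩ := Finset.mem_image.mp hx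
      obtain ⟨hδT, hδb⟩ := Finset.mem_filter.mp hδ
      obtain ⟨hne, hsq, hev⟩ := hT δ hδT
      have hF : (δ : F) ≠ 0 := by simpa using hne
      have hff : f δ = f δ0 := hδb.trans h0b.symm
      refine ⟨mul_ne_zero hne h0ne, ?_, ?_, ?_⟩
      · have : ((δ * δ0 : 𝓞 F) : F) = (δ : F) * (δ0 : F) := by simp
        rw [this, map_mul]
        exact hsq.mul h0sq
      · intro φ
        have h2 : decide (0 < φ (δ : F)) = decide (0 < φ (δ0 : F)) :=
          congrFun (congrArg Prod.snd hff) φ
        have h2' : (0 < φ (δ : F)) ↔ (0 < φ (δ0 : F)) := by simpa using h2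
        have : ((δ * δ0 : 𝓞 F) : F) = (δ : F) * (δ0 : F) := by simp
        rw [this, map_mul]
        have ha : φ (δ : F) ≠ 0 := (map_ne_zero φ).mpr hF
        have hb : φ (δ0 : F) ≠ 0 := (map_ne_zero φ).mpr h0F
        by_cases hc : 0 < φ (δ : F)
        · exact mul_pos hc (h2'.mp hc)
        · have hc' : ¬ 0 < φ (δ0 : F) := fun h => hc (h2'.mpr h)
          exact mul_pos_of_neg_of_neg (lt_of_le_of_ne (not_lt.mp hc) ha)
            (lt_of_le_of_ne (not_lt.mp hc') hb)
      · refine Tor.sq_of_even _ (by simpa using ⟨hne, h0ne⟩) ?_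
        intro P
        rw [Tor.mult_mul P hne h0ne, Nat.even_add]
        by_cases hP : (D : 𝓞 F) ∈ P.asIdeal
        · have h2 : decide (Even (multiplicity P.asIdeal (Ideal.span {δ}))) =
              decide (Even (multiplicity P.asIdeal (Ideal.span {δ0}))) :=
            congrFun (congrArg Prod.fst hff) ⟨P.asIdeal, hmem P hP⟩
          simpa using h2
        · exact iff_of_true (hev P hP) (h0ev P hP)
    · intro x hx y hy hxy hsq
      obtain ⟨δ, hδ, rfl⟩ := Finset.mem_image.mp hx
      obtain ⟨δ', hδ', rfl⟩ := Finset.mem_image.mp hy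
      have hne : δ ≠ δ' := fun h => hxy (by rw [h])
      refine hI δ (Finset.mem_filter.mp hδ).1 δ' (Finset.mem_filter.mp hδ').1 hne ?_
      obtain ⟨r, hr⟩ := hsq
      refine ⟨r / (δ0 : F), ?_⟩
      have e1 : ((δ * δ0 : 𝓞 F) : F) = (δ : F) * (δ0 : F) := by simp
      have e2 : ((δ' * δ0 : 𝓞 F) : F) = (δ' : F) * (δ0 : F) := by simp
      simp only [e1, e2] at hr
      field_simp
      linear_combination hr
  have h1 := Finset.card_le_mul_card_image_of_maps_to (f := f) (s := T)
    (t := Finset.univ) (fun a _ => Finset.mem_univ _) s hfib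
  have h2 : (Finset.univ : Finset ((S → Bool) × ((F →+* ℝ) → Bool))).card ≤
      8 ^ (D.primeFactors.card + 1) := by
    rw [Finset.card_univ, Fintype.card_prod, Fintype.card_fun, Fintype.card_fun,
      Fintype.card_bool, Fintype.card_coe, ← pow_add, show (8 : ℕ) = 2 ^ 3 by norm_num, ← pow_mul]
    refine Nat.pow_le_pow_right (by norm_num) ?_
    have := Tor.card_real h3
    omega
  calc T.card ≤ s * _ := h1
    _ ≤ s * 8 ^ (D.primeFactors.card + 1) := Nat.mul_le_mul_left _ h2
    _ = _ := mul_comm _ _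

end Pool.Agent.Lib.MP_af4c59_nt.H32
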