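import Pool.Agent.Lib.MP_af4c59_nt.H32Outer
import Pool.Agent.Lib.MP_af4c59_nt.H32CubA
import Pool.Agent.Lib.MP_af4c59_nt.H32Sel
import Pool.Agent.Lib.MP_af4c59_nt.H32Tor
import Pool.Agent.Lib.MP_af4c59_nt.H32Ram
import Pool.Agent.Lib.MP_af4c59_nt.H32ResA
import Pool.Agent.Lib.MP_af4c59_nt.H32ResB

set_option autoImplicit false

namespace Pool.Agent.Lib.MP_af4c59_nt.H32

open NumberField Module IsDedekindDomain

lemma exists_prime_mem {F : Type*} [Field F] [NumberField F] (P : HeightOneSpectrum (𝓞 F)) :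
    ∃ p : ℕ, p.Prime ∧ (p : 𝓞 F) ∈ P.asIdeal := by
  have h1 : (P.asIdeal.under ℤ).IsPrime := Ideal.IsPrime.under ℤ P.asIdeal
  have h2 : P.asIdeal.under ℤ ≠ ⊥ := Ideal.under_ne_bot ℤ P.ne_bot
  obtain ⟨x, hx, hp⟩ := h1.exists_mem_prime_of_ne_bot h2
  refine ⟨x.natAbs, Int.prime_iff_natAbs_prime.1 hp, ?_⟩
  have h3 : ((x.natAbs : ℤ)) ∈ P.asIdeal.under ℤ := by
    rcases Int.natAbs_eq x with h | h
    · rwa [← h]
    · have : (x.natAbs : ℤ) = -x := by omega
      rw [this]; exact neg_mem hx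
  have h4 := Ideal.mem_comap.1 h3
  simpa using h4

/-- The resolvent data of a quartic field with group `A_4`. -/
theorem resolvent {X : ℝ} {L : IntermediateField ℚ Ω}
    (hL : L ∈ FS 4 (alternatingGroup (Fin 4)) X) :
    ∃ (F : IntermediateField ℚ Ω) (D : ℕ), D ≠ 0 ∧ (D : ℝ) ^ 2 ≤ X ∧
      ∃ (_ : NumberField F), finrank ℚ F = 3 ∧ IsGalois ℚ F ∧
        (∀ p : ℕ, p.Prime → (p : ℤ) ∣ discr F → p ∣ D) ∧
        ∃ δ : 𝓞 F, Good D δ ∧ Ker L = NN F ((δ : F) : Ω) := by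
  obtain ⟨h4, hG, b, hb⟩ := hL
  have : FiniteDimensional ℚ L := Module.finite_of_finrank_pos (by omega)
  have : NumberField L := ⟨⟩
  set M := IntermediateField.normalClosure ℚ L Ω with hM
  have : NumberField M := ⟨⟩
  obtain ⟨y, hy, hyM, hK⟩ := exists_tri L h4 hG
  obtain ⟨F, _, δ, h3, hgal, hF, hδ, hδ0, hN, hNN⟩ := hy.field
  obtain ⟨r, hr⟩ := discr_isSquare L hG
  have hr0 : r ≠ 0 := by
    rintro rfl
    exact discr_ne_zero L (by simpa using hr)
  have hFM : F ≤ M := by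
    rw [hF, IntermediateField.adjoin_simple_le_iff]
    exact pow_mem (hyM 0) 2
  let _ : Algebra F M := (IntermediateField.inclusion hFM).toRingHom.toAlgebra
  have key : ∀ p : ℕ, p.Prime → (p : ℤ) ∣ discr M → p ∣ r.natAbs := by
    intro p hp h
    have h1 := dvd_discr_of_normalClosure L p hp h
    rw [hr] at h1
    have h2 := (Nat.prime_iff_prime_int.1 hp).dvd_or_dvd h1
    rw [or_self] at h2
    exact Int.natCast_dvd.1 h2
  refine ⟨F, r.natAbs, Int.natAbs_ne_zero.2 hr0, ?_, inferInstance, h3, hgal, ?_, δ,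
    ⟨hδ0, hN, ?_⟩, ?_⟩
  · rw [discr_eq_discr L b, hr] at hb
    have : ((r.natAbs : ℕ) : ℝ) ^ 2 = ((|r * r| : ℤ) : ℝ) := by
      rw [abs_mul_self, Nat.cast_natAbs, ← Int.cast_pow, sq_abs, sq]
    rwa [this]
  · intro p hp h
    exact key p hp (h.trans (discr_dvd_discr F M))
  · intro P hP
    obtain ⟨p, hp, hpP⟩ := exists_prime_mem P
    refine even_multiplicity F M p hp (fun h => hP ?_) δ hδ0 ⟨y 0, hyM 0⟩ ?_ P hpP
    · obtain ⟨k, hk⟩ := key p hp h
      rw [hk, Nat.cast_mul]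
      exact Ideal.mul_mem_right _ _ hpP
    · apply Subtype.ext
      exact hδ.symm
  · rw [hδ, hNN, hK]

/-- The number of quartic fields with given resolvent field and given `D`. -/
theorem fixed_bound (F : IntermediateField ℚ Ω) [NumberField F] (c : Cub F) (D : ℕ) (hD : D ≠ 0)
    (S : Finset (IntermediateField ℚ Ω))
    (hS : ∀ L ∈ S, finrank ℚ L = 4 ∧ ∃ δ : 𝓞 F, Good D δ ∧ Ker L = NN F ((δ : F) : Ω)) :
    S.card ≤ 2 ^ 24 * (8 ^ (D.primeFactors.card + 1) * ((PP c.b1 c.b2).ncard + 1)) := by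
  classical
  have := c.gal
  have h1 : S.card ≤ 2 ^ 24 * (S.image Ker).card := by
    refine Finset.card_le_mul_card_image S _ fun N _ => fibre_bound N _ fun L hL => ?_
    rw [Finset.mem_filter] at hL
    exact ⟨(hS L hL.1).1, hL.2⟩
  refine h1.trans (Nat.mul_le_mul_left _ ?_)
  have h2 : ∀ N ∈ S.image Ker, ∃ δ : 𝓞 F, Good D δ ∧ N = NN F ((δ : F) : Ω) := by
    intro N hN
    obtain ⟨L, hL, rfl⟩ := Finset.mem_image.1 hN
    exact (hS L hL).2
  choose! d hd hd' using h2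
  have h3 : Set.InjOn d (S.image Ker : Finset _) := fun N hN N' hN' h => by
    rw [hd' N hN, hd' N' hN', h]
  rw [← Finset.card_image_of_injOn h3]
  refine torsor_bound c.rank _ c.sel_bound D hD _ ?_ ?_
  · intro δ hδ
    obtain ⟨N, hN, rfl⟩ := Finset.mem_image.1 hδ
    exact hd N hN
  · intro δ hδ δ' hδ' hne hsq
    obtain ⟨N, hN, rfl⟩ := Finset.mem_image.1 hδ
    obtain ⟨N', hN', rfl⟩ := Finset.mem_image.1 hδ'
    apply hne
    have e := NN_congr F (d N : F) (d N' : F) (by exact_mod_cast (hd N hN).1)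
      (by exact_mod_cast (hd N' hN').1) hsq
    rw [← hd' N hN, ← hd' N' hN'] at e
    rw [e]

/-- `b` is the pair of structure constants of some presentation of `F`. -/
def Rep (F : IntermediateField ℚ Ω) (b : ℤ × ℤ) : Prop :=
  ∃ (_ : NumberField F) (c : Cub F), b = (c.b1, c.b2)

/-- The upper bound. -/
theorem upper_bound {ε : ℝ} (hε : 0 < ε) : ∃ C : ℝ, 0 < C ∧ ∀ X : ℝ, 1 ≤ X →
    ((FS 4 (alternatingGroup (Fin 4)) X).ncard : ℝ) ≤ C * X ^ ((1 : ℝ) / 2 + ε) := by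
  classical
  obtain ⟨C, hC, hout⟩ := outer_bound (ε := 2 * ε) (by positivity)
  refine ⟨2 ^ 24 * C, by positivity, fun X hX => ?_⟩
  have hfin := FS_finite (n := 4) (by norm_num) (alternatingGroup (Fin 4)) X
  set A := hfin.toFinset with hA
  have hAm : ∀ L ∈ A, L ∈ FS 4 (alternatingGroup (Fin 4)) X := fun L hL => by
    simpa [hA] using hL
  rw [Set.ncard_eq_toFinset_card _ hfin, ← hA]
  have h0 : ∀ F : IntermediateField ℚ Ω, ∃ b : ℤ × ℤ, (∃ b', Rep F b') → Rep F b := fun F => by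
    by_cases h : ∃ b', Rep F b'
    · obtain ⟨b, hb⟩ := h
      exact ⟨b, fun _ => hb⟩
    · exact ⟨0, fun h' => absurd h' h⟩
  choose bF hbF using h0
  choose! Ff Df hD0 hDX hrest using fun L (hL : L ∈ A) => resolvent (hAm L hL)
  have hrep : ∀ L ∈ A, Rep (Ff L) (bF (Ff L)) := fun L hL => by
    obtain ⟨_, h3, hg, -⟩ := hrest L hL
    obtain ⟨c⟩ := exists_cub (Ff L) h3
    exact hbF _ ⟨_, inferInstance, c, rfl⟩
  have heq : ∀ L ∈ A, ∀ L' ∈ A, (bF (Ff L)).1 * (bF (Ff L')).2 = (bF (Ff L)).2 * (bF (Ff L')).1 →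
      Ff L = Ff L' := fun L hL L' hL' h => by
    obtain ⟨_, c, hc⟩ := hrep L hL
    obtain ⟨_, c', hc'⟩ := hrep L' hL'
    rw [hc, hc'] at h
    exact c.field_eq c' h
  set Z := ⌊√X⌋₊ with hZ
  have hZ1 : 1 ≤ Z := Nat.le_floor (by simpa using Real.one_le_sqrt.2 hX)
  set S := A.image fun L => bF (Ff L) with hS
  have hNP : NP S := by
    intro x hx y hy hne h
    obtain ⟨L, hL, rfl⟩ := Finset.mem_image.1 hx
    obtain ⟨L', hL', rfl⟩ := Finset.mem_image.1 hy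
    exact hne (by rw [heq L hL L' hL' h])
  have hpos : ∀ b ∈ S, 0 < nf b.1 b.2 := by
    intro x hx
    obtain ⟨L, hL, rfl⟩ := Finset.mem_image.1 hx
    obtain ⟨_, c, hc⟩ := hrep L hL
    rw [hc]
    exact c.f_pos
  have hmem : ∀ L ∈ A, Df L ∈ (Finset.Icc 1 Z).filter
      (fun D : ℕ => nf (bF (Ff L)).1 (bF (Ff L)).2 ∣ 9 * (D : ℤ)) := by
    intro L hL
    obtain ⟨_, c, hc⟩ := hrep L hL
    obtain ⟨_, -, -, hp, -⟩ := hrest L hL
    rw [Finset.mem_filter, Finset.mem_Icc, hc]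
    refine ⟨⟨Nat.pos_of_ne_zero (hD0 L hL), Nat.le_floor (Real.le_sqrt_of_sq_le (hDX L hL))⟩,
      c.dvd_nine _ fun p hp' h => hp p hp' ?_⟩
    rw [c.discr_eq]
    exact h.trans (dvd_pow_self _ two_ne_zero)
  have hcard : (A.card : ℝ) ≤ ∑ b ∈ S, ∑ D ∈ (Finset.Icc 1 Z).filter
      (fun D : ℕ => nf b.1 b.2 ∣ 9 * (D : ℤ)), (2 : ℝ) ^ 24 *
        ((8 : ℝ) ^ (D.primeFactors.card + 1) * (((PP b.1 b.2).ncard : ℝ) + 1)) := by
    rw [Finset.card_eq_sum_card_fiberwise (f := fun L => bF (Ff L)) (t := S)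
      (fun L hL => Finset.mem_image_of_mem _ hL), Nat.cast_sum]
    refine Finset.sum_le_sum fun b hb => ?_
    rw [Finset.card_eq_sum_card_fiberwise (f := Df) (t := (Finset.Icc 1 Z).filter
      (fun D : ℕ => nf b.1 b.2 ∣ 9 * (D : ℤ))) (fun L hL => by
        have hL' := Finset.mem_filter.1 (Finset.mem_coe.1 hL)
        rw [← hL'.2]
        exact hmem L hL'.1), Nat.cast_sum]
    refine Finset.sum_le_sum fun D hD => ?_
    obtain ⟨L₀, hL₀, rfl⟩ := Finset.mem_image.1 hb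
    obtain ⟨_, c, hc⟩ := hrep L₀ hL₀
    have hD' : D ≠ 0 := by
      have := (Finset.mem_Icc.1 (Finset.mem_filter.1 hD).1).1
      omega
    have := fixed_bound (Ff L₀) c D hD'
      ((A.filter fun L => bF (Ff L) = bF (Ff L₀)).filter fun L => Df L = D) (by
        intro L hL
        rw [Finset.mem_filter, Finset.mem_filter] at hL
        obtain ⟨⟨hLA, hb'⟩, hD''⟩ := hL
        refine ⟨(hAm L hLA).1, ?_⟩
        have e : Ff L = Ff L₀ := heq L hLA L₀ hL₀ (by rw [hb', mul_comm])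
        have h := hrest L hLA
        rw [hD''] at h
        generalize Ff L = F at e h
        subst e
        obtain ⟨_, -, -, -, h⟩ := h
        exact h)
    have e1 : c.b1 = (bF (Ff L₀)).1 := by rw [hc]
    have e2 : c.b2 = (bF (Ff L₀)).2 := by rw [hc]
    rw [e1, e2] at this
    exact_mod_cast this
  refine hcard.trans ?_
  simp_rw [← Finset.mul_sum]
  rw [mul_assoc]
  refine mul_le_mul_of_nonneg_left ((hout Z hZ1 S hNP hpos).trans ?_) (by positivity)
  refine mul_le_mul_of_nonneg_left ?_ hC.le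
  have h1 : (Z : ℝ) ≤ X ^ ((1 : ℝ) / 2) := by
    rw [← Real.sqrt_eq_rpow]
    exact Nat.floor_le (Real.sqrt_nonneg X)
  calc (Z : ℝ) ^ (1 + 2 * ε) ≤ (X ^ ((1 : ℝ) / 2)) ^ (1 + 2 * ε) :=
        Real.rpow_le_rpow (Nat.cast_nonneg _) h1 (by positivity)
    _ = _ := by
        rw [← Real.rpow_mul (by linarith)]
        congr 1
        ring

end Pool.Agent.Lib.MP_af4c59_nt.H32
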