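import Pool.Agent.Lib.MP_af4c59_nt.H32Core

set_option autoImplicit false

namespace Pool.Agent.Lib.MP_af4c59_nt.H32

open NumberField Module IsDedekindDomain

namespace Outer

theorem card_le {Y : ℝ} (hY : 1 ≤ Y) (S : Finset (ℤ × ℤ))
    (h : ∀ b ∈ S, (nf b.1 b.2 : ℝ) ≤ Y) : (S.card : ℝ) ≤ 25 * Y := by
  have hs : 1 ≤ √Y := Real.one_le_sqrt.2 hY
  have hq : √Y * √Y = Y := Real.mul_self_sqrt (by linarith)
  set k : ℕ := ⌊2 * √Y⌋₊ with hk
  have hk1 : (k : ℝ) ≤ 2 * √Y := Nat.floor_le (by linarith)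
  have hk2 : 2 * √Y < k + 1 := Nat.lt_floor_add_one _
  have key : ∀ a n : ℤ, 3 * a ^ 2 ≤ 4 * n → (n : ℝ) ≤ Y → a ∈ Finset.Icc (-(k : ℤ)) k := by
    intro a n h1 h2
    have h3 : 3 * (a : ℝ) ^ 2 ≤ 4 * n := by exact_mod_cast h1
    have h4 : |(a : ℝ)| ≤ 2 * √Y :=
      abs_le_of_sq_le_sq' (by nlinarith [sq_nonneg (a : ℝ)]) (by linarith) |> abs_le.2
    have h5 : |(a : ℝ)| < k + 1 := h4.trans_lt hk2
    have h6 : |a| < k + 1 := by exact_mod_cast h5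
    rw [Finset.mem_Icc, ← abs_le]
    omega
  have hsub : S ⊆ Finset.Icc (-(k : ℤ)) k ×ˢ Finset.Icc (-(k : ℤ)) k := fun b hb =>
    Finset.mem_product.2 ⟨key _ _ (sq_le_nf_left b.1 b.2) (h b hb),
      key _ _ (sq_le_nf_right b.1 b.2) (h b hb)⟩
  have h1 := Finset.card_le_card hsub
  rw [Finset.card_product, Int.card_Icc, show ((k : ℤ) + 1 - -(k : ℤ)).toNat = 2 * k + 1 by omega]
    at h1
  have h2 : (S.card : ℝ) ≤ (2 * k + 1) * (2 * k + 1) := by exact_mod_cast h1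
  have h3 : (2 * k + 1 : ℝ) ≤ 5 * √Y := by linarith
  have h4 : (2 * k + 1 : ℝ) * (2 * k + 1) ≤ (5 * √Y) * (5 * √Y) :=
    mul_self_le_mul_self (by positivity) h3
  nlinarith

theorem card_D {f : ℤ} (hf : 0 < f) (Z : ℕ) :
    ((Finset.Icc 1 Z).filter (fun D : ℕ => f ∣ 9 * (D : ℤ))).card ≤
      ((Finset.Icc 1 (9 * Z)).filter (fun m : ℕ => f * m ≤ 9 * Z)).card := by
  refine Finset.card_le_card_of_injOn (fun D => (9 * (D : ℤ) / f).toNat) (fun D hD => ?_)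
    fun D hD D' hD' e => ?_
  · obtain ⟨h1, c, hc⟩ := Finset.mem_filter.1 (Finset.mem_coe.1 hD)
    obtain ⟨h2, h3⟩ := Finset.mem_Icc.1 h1
    have hc0 : 0 < c := (mul_pos_iff_of_pos_left hf).1 (by omega)
    have hc1 : c ≤ f * c := by nlinarith
    simp only [hc, Int.mul_ediv_cancel_left _ hf.ne', Finset.coe_filter, Finset.mem_Icc,
      Set.mem_setOf_eq, Int.toNat_of_nonneg hc0.le]
    omega
  · obtain ⟨h1, c, hc⟩ := Finset.mem_filter.1 (Finset.mem_coe.1 hD)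
    obtain ⟨h1', c', hc'⟩ := Finset.mem_filter.1 (Finset.mem_coe.1 hD')
    obtain ⟨h2, -⟩ := Finset.mem_Icc.1 h1
    obtain ⟨h2', -⟩ := Finset.mem_Icc.1 h1'
    have hc0 : 0 < c := (mul_pos_iff_of_pos_left hf).1 (by omega)
    have hc0' : 0 < c' := (mul_pos_iff_of_pos_left hf).1 (by omega)
    simp only [hc, hc', Int.mul_ediv_cancel_left _ hf.ne'] at e
    have e2 : c = c' := by omega
    rw [e2, ← hc'] at hc
    omega

end Outer

/-- Summation over the square root `D` of the discriminant. -/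
theorem outer_bound {ε : ℝ} (hε : 0 < ε) : ∃ C : ℝ, 0 < C ∧ ∀ Z : ℕ, 1 ≤ Z →
    ∀ S : Finset (ℤ × ℤ), NP S → (∀ b ∈ S, 0 < nf b.1 b.2) →
      ∑ b ∈ S, ∑ D ∈ (Finset.Icc 1 Z).filter (fun D : ℕ => nf b.1 b.2 ∣ 9 * (D : ℤ)),
        (8 : ℝ) ^ (D.primeFactors.card + 1) * (((PP b.1 b.2).ncard : ℝ) + 1) ≤
        C * (Z : ℝ) ^ (1 + ε) := by
  have hδ : 0 < ε / 2 := half_pos hε
  obtain ⟨C1, hC1, h1⟩ := core_bound hδ
  obtain ⟨C2, hC2, h2⟩ := omega_bound 3 hδ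
  have hsum : Summable fun m : ℕ => ((m : ℝ) ^ (1 + ε / 2))⁻¹ :=
    Real.summable_nat_rpow_inv.2 (by linarith)
  set T : ℝ := ∑' m : ℕ, ((m : ℝ) ^ (1 + ε / 2))⁻¹ with hT
  have hT0 : 0 ≤ T := tsum_nonneg fun m => by positivity
  refine ⟨8 * C2 * ((C1 + 25) * 9 ^ (1 + ε / 2) * (T + 1)), by positivity, fun Z hZ S hS hpos => ?_⟩
  have hZ' : (1 : ℝ) ≤ Z := by exact_mod_cast hZ
  set w : ℤ × ℤ → ℝ := fun b => ((PP b.1 b.2).ncard : ℝ) + 1 with hw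
  have hw0 : ∀ b, 0 ≤ w b := fun b => by positivity
  have step1 : ∀ b ∈ S,
      ∑ D ∈ (Finset.Icc 1 Z).filter (fun D : ℕ => nf b.1 b.2 ∣ 9 * (D : ℤ)),
        (8 : ℝ) ^ (D.primeFactors.card + 1) * w b ≤ 8 * C2 * (Z : ℝ) ^ (ε / 2) *
          ∑ m ∈ Finset.Icc 1 (9 * Z), if nf b.1 b.2 * m ≤ 9 * Z then w b else 0 := by
    intro b hb
    have e1 : ∀ D ∈ (Finset.Icc 1 Z).filter (fun D : ℕ => nf b.1 b.2 ∣ 9 * (D : ℤ)),
        (8 : ℝ) ^ (D.primeFactors.card + 1) * w b ≤ 8 * C2 * (Z : ℝ) ^ (ε / 2) * w b := by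
      intro D hD
      obtain ⟨h3, h4⟩ := Finset.mem_Icc.1 (Finset.mem_filter.1 hD).1
      have h5 := h2 D (by omega)
      have h6 : (D : ℝ) ^ (ε / 2) ≤ (Z : ℝ) ^ (ε / 2) :=
        Real.rpow_le_rpow (by positivity) (by exact_mod_cast h4) hδ.le
      have h7 : C2 * (D : ℝ) ^ (ε / 2) ≤ C2 * (Z : ℝ) ^ (ε / 2) :=
        mul_le_mul_of_nonneg_left h6 (by linarith)
      refine mul_le_mul_of_nonneg_right ?_ (hw0 b)
      rw [show (2 : ℝ) ^ 3 = 8 by norm_num] at h5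
      rw [pow_succ]
      linarith
    refine (Finset.sum_le_card_nsmul _ _ _ e1).trans ?_
    rw [← Finset.sum_filter, Finset.sum_const, nsmul_eq_mul, nsmul_eq_mul, mul_left_comm]
    refine mul_le_mul_of_nonneg_left (mul_le_mul_of_nonneg_right ?_ (hw0 b)) (by positivity)
    exact_mod_cast Outer.card_D (hpos b hb) Z
  have step2 : ∀ m ∈ Finset.Icc 1 (9 * Z),
      (∑ b ∈ S, if nf b.1 b.2 * m ≤ 9 * Z then w b else 0) ≤
        (C1 + 25) * (9 * Z : ℝ) ^ (1 + ε / 2) * ((m : ℝ) ^ (1 + ε / 2))⁻¹ := by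
    intro m hm
    obtain ⟨h3, h4⟩ := Finset.mem_Icc.1 hm
    have hm0 : (0 : ℝ) < m := by exact_mod_cast h3
    have hY : (1 : ℝ) ≤ 9 * Z / m := by
      rw [le_div_iff₀ hm0, one_mul]
      exact_mod_cast h4
    have hle : ∀ b ∈ S.filter (fun b => nf b.1 b.2 * m ≤ 9 * Z), (nf b.1 b.2 : ℝ) ≤ 9 * Z / m := by
      intro b hb
      rw [le_div_iff₀ hm0]
      exact_mod_cast (Finset.mem_filter.1 hb).2
    have e1 := h1 _ hY _ (fun x hx y hy => hS x (Finset.mem_filter.1 hx).1 y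
      (Finset.mem_filter.1 hy).1) hle
    have e2 := Outer.card_le hY _ hle
    have e3 : (9 * Z / m : ℝ) ≤ (9 * Z / m : ℝ) ^ (1 + ε / 2) :=
      Real.self_le_rpow_of_one_le hY (by linarith)
    rw [← Finset.sum_filter, hw, Finset.sum_add_distrib, Finset.sum_const, nsmul_eq_mul, mul_one,
      mul_assoc, ← div_eq_mul_inv, ← Real.div_rpow (by positivity) hm0.le]
    linarith
  refine (Finset.sum_le_sum step1).trans ?_
  rw [← Finset.mul_sum, Finset.sum_comm]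
  have step3 := (Finset.sum_le_sum step2)
  rw [← Finset.mul_sum] at step3
  have step4 : ∑ m ∈ Finset.Icc 1 (9 * Z), ((m : ℝ) ^ (1 + ε / 2))⁻¹ ≤ T + 1 :=
    (hsum.sum_le_tsum _ fun m _ => by positivity).trans (by linarith)
  have step5 := step3.trans (mul_le_mul_of_nonneg_left step4 (by positivity))
  refine (mul_le_mul_of_nonneg_left step5 (by positivity)).trans (le_of_eq ?_)
  rw [Real.mul_rpow (by norm_num) (by positivity), show 1 + ε = ε / 2 + (1 + ε / 2) by ring,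
    Real.rpow_add (by positivity : (0 : ℝ) < Z) (ε / 2)]
  ring

end Pool.Agent.Lib.MP_af4c59_nt.H32
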