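import Pool.Agent.Lib.MP_af4c59_nt.H32Div

set_option autoImplicit false

namespace Pool.Agent.Lib.MP_af4c59_nt.H32

open NumberField Module IsDedekindDomain

namespace SumA

open Finset

theorem harm {η : ℝ} (hη : 0 < η) : ∃ K : ℝ, 0 < K ∧ ∀ (S : Finset ℤ) (m : ℤ) (N : ℝ), 0 ≤ N →
    (∀ n ∈ S, |((n - m : ℤ) : ℝ)| ≤ N) → ∑ n ∈ S, 1 / |((n - m : ℤ) : ℝ)| ≤ K * N ^ η := by
  have h1 : Summable fun n : ℤ => |(n : ℝ)| ^ (-(1 + η)) :=
    Real.summable_abs_int_rpow (by linarith)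
  have h0 : 0 ≤ ∑' n : ℤ, |(n : ℝ)| ^ (-(1 + η)) := tsum_nonneg fun _ => by positivity
  refine ⟨∑' n : ℤ, |(n : ℝ)| ^ (-(1 + η)) + 1, by positivity, fun S m N hN h => ?_⟩
  have h2 : ∑ n ∈ S, |((n - m : ℤ) : ℝ)| ^ (-(1 + η)) ≤ ∑' n : ℤ, |(n : ℝ)| ^ (-(1 + η)) := by
    rw [← (Equiv.subRight m).tsum_eq]
    exact ((Equiv.subRight m).summable_iff.2 h1).sum_le_tsum S fun _ _ =>
      Real.rpow_nonneg (abs_nonneg _) _
  refine le_trans ?_ (mul_le_mul_of_nonneg_right (h2.trans (le_add_of_nonneg_right zero_le_one))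
    (by positivity))
  rw [sum_mul]
  refine sum_le_sum fun n hn => ?_
  rcases (abs_nonneg ((n - m : ℤ) : ℝ)).eq_or_lt with e | e
  · rw [← e, div_zero]
    positivity
  · refine le_trans (le_of_eq ?_) (mul_le_mul_of_nonneg_left
      (Real.rpow_le_rpow e.le (h n hn) hη.le) (by positivity))
    rw [← Real.rpow_add e, one_div, ← Real.rpow_neg_one]
    congr 1
    ring

theorem reps (P : Finset (ℤ × ℤ)) {n : ℤ} (hn : n ≠ 0) :
    #(P.filter fun p => p.1 ^ 2 - p.2 ^ 2 = n) ≤ #n.natAbs.divisors * 2 := by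
  refine le_trans ?_ (card_product n.natAbs.divisors (univ : Finset Bool)).le
  refine card_le_card_of_injOn (fun p => ((p.1 - p.2).natAbs, decide (0 < p.1 - p.2)))
    (fun p hp => ?_) fun p hp r hr h => ?_
  · refine mem_coe.2 (mem_product.2 ⟨Nat.mem_divisors.2 ⟨Int.natAbs_dvd_natAbs.2
      ⟨p.1 + p.2, ?_⟩, Int.natAbs_ne_zero.2 hn⟩, mem_univ _⟩)
    rw [← (mem_filter.1 hp).2]
    ring
  · have h1 := (mem_filter.1 hp).2
    have h2 := (mem_filter.1 hr).2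
    simp only [Prod.mk.injEq, decide_eq_decide] at h
    have h3 : p.1 - p.2 = r.1 - r.2 := by omega
    have h4 : r.1 - r.2 ≠ 0 := fun e => hn (by rw [← h2, sub_eq_zero.1 e, sub_self])
    have h5 : p.1 + p.2 = r.1 + r.2 :=
      mul_left_cancel₀ h4 (by linear_combination h1 - h2 - (p.1 + p.2) * h3)
    exact Prod.ext (by omega) (by omega)

theorem reps0 (I : Finset ℤ) : #((I ×ˢ I).filter fun p => p.1 ^ 2 - p.2 ^ 2 = 0) ≤ #I * 2 := by
  refine le_trans ?_ (card_product I (univ : Finset Bool)).le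
  refine card_le_card_of_injOn (fun p => (p.1, decide (p.1 = p.2))) (fun p hp => ?_)
    fun p hp r hr h => ?_
  · exact mem_coe.2 (mem_product.2 ⟨(mem_product.1 (mem_filter.1 hp).1).1, mem_univ _⟩)
  · have h1 := sq_eq_sq_iff_eq_or_eq_neg.1 (sub_eq_zero.1 (mem_filter.1 hp).2)
    have h2 := sq_eq_sq_iff_eq_or_eq_neg.1 (sub_eq_zero.1 (mem_filter.1 hr).2)
    simp only [Prod.mk.injEq, decide_eq_decide] at h
    exact Prod.ext h.1 (by omega)

theorem fibre (I J : Finset ℤ) (hJ : ∀ p ∈ I ×ˢ I, p.1 ^ 2 - p.2 ^ 2 ∈ J) {D : ℝ} (h0 : 0 ≤ D)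
    (hD : ∀ n ∈ J, (#n.natAbs.divisors : ℝ) ≤ D) (g : ℤ → ℝ) (hg : ∀ n, 0 ≤ g n) :
    ∑ p ∈ I ×ˢ I, g (p.1 ^ 2 - p.2 ^ 2) ≤ D * 2 * ∑ n ∈ J, g n + #I * 2 * g 0 := by
  have h1 : ∑ n ∈ J, (if n = 0 then #I * 2 * g 0 else 0) ≤ #I * 2 * g 0 := by
    rw [sum_ite_eq']
    have := hg 0
    split_ifs
    · exact le_rfl
    · positivity
  rw [← sum_fiberwise_of_maps_to' hJ g, mul_sum]
  refine le_trans ?_ (add_le_add_right h1 _)
  rw [← sum_add_distrib]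
  refine sum_le_sum fun n hn => ?_
  rw [sum_const, nsmul_eq_mul]
  have h2 := hg n
  split_ifs with h
  · subst h
    have h3 : (#((I ×ˢ I).filter fun p => p.1 ^ 2 - p.2 ^ 2 = 0) : ℝ) ≤ #I * 2 := by
      exact_mod_cast reps0 I
    exact (mul_le_mul_of_nonneg_right h3 h2).trans (le_add_of_nonneg_left (by positivity))
  · have h3 : (#((I ×ˢ I).filter fun p => p.1 ^ 2 - p.2 ^ 2 = n) : ℝ) ≤
        #n.natAbs.divisors * 2 := by
      exact_mod_cast reps (I ×ˢ I) h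
    rw [add_zero]
    exact mul_le_mul_of_nonneg_right (h3.trans (by linarith [hD n hn])) h2

end SumA

/-- The reciprocals of the nonzero values of `x ^ 2 - u ^ 2 - 3 y ^ 2` on a cube. -/
theorem sum_recip {ε : ℝ} (hε : 0 < ε) : ∃ C : ℝ, 0 < C ∧ ∀ T : ℤ, 1 ≤ T →
    ∑ x ∈ box T, 1 / |((x.1 ^ 2 - x.2.1 ^ 2 - 3 * x.2.2 ^ 2 : ℤ) : ℝ)| ≤
      C * (T : ℝ) ^ (1 + ε) := by
  obtain ⟨η, hη, rfl⟩ : ∃ η : ℝ, 0 < η ∧ ε = 4 * η := ⟨ε / 4, by positivity, by ring⟩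
  obtain ⟨C, hC, h1⟩ := divisor_bound hη
  obtain ⟨K, hK, h2⟩ := SumA.harm hη
  refine ⟨6 * C * K * 4 ^ η + 6 * K, by positivity, fun T hT => ?_⟩
  have hT' : (1 : ℝ) ≤ T := by exact_mod_cast hT
  have hT0 : (0 : ℝ) < T := by linarith
  obtain ⟨I, hI⟩ : ∃ I, Finset.Icc (-T) T = I := ⟨_, rfl⟩
  have h3 : ∀ x ∈ I, x ^ 2 ≤ T ^ 2 := fun x hx => by
    rw [← hI, Finset.mem_Icc] at hx
    exact sq_le_sq' hx.1 hx.2
  have h4 : (I.card : ℝ) ≤ 3 * T := by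
    have h4 : (I.card : ℤ) ≤ 3 * T := by
      rw [← hI, Int.card_Icc, Int.toNat_of_nonneg (by omega)]
      omega
    exact_mod_cast h4
  have h5 : ∀ y ∈ I, ∑ p ∈ I ×ˢ I, 1 / |((p.1 ^ 2 - p.2 ^ 2 - 3 * y ^ 2 : ℤ) : ℝ)| ≤
      C * ((T : ℝ) ^ 2) ^ η * 2 * (K * (4 * (T : ℝ) ^ 2) ^ η) +
        6 * T * (1 / |((y - 0 : ℤ) : ℝ)|) := fun y hy => by
    refine (SumA.fibre I (Finset.Icc (-T ^ 2) (T ^ 2)) (fun p hp => ?_)
      (D := C * ((T : ℝ) ^ 2) ^ η) (by positivity) (fun n hn => (h1 _).trans ?_)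
      (fun n => 1 / |((n - 3 * y ^ 2 : ℤ) : ℝ)|) fun _ => by positivity).trans
        (add_le_add (mul_le_mul_of_nonneg_left (h2 _ _ _ (by positivity) fun n hn => ?_)
          (by positivity)) (mul_le_mul (by linarith) ?_ (by positivity) (by positivity)))
    · have k1 := h3 _ (Finset.mem_product.1 hp).1
      have k2 := h3 _ (Finset.mem_product.1 hp).2
      exact Finset.mem_Icc.2 ⟨by linarith [sq_nonneg p.1], by linarith [sq_nonneg p.2]⟩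
    · refine mul_le_mul_of_nonneg_left (Real.rpow_le_rpow (by positivity) ?_ hη.le) (by positivity)
      have k1 : ((n.natAbs : ℤ) : ℝ) ≤ ((T ^ 2 : ℤ) : ℝ) :=
        Int.cast_le.2 (by rw [Int.natCast_natAbs]; exact abs_le.2 (Finset.mem_Icc.1 hn))
      rwa [Int.cast_natCast, Int.cast_pow] at k1
    · have k1 := Finset.mem_Icc.1 hn
      have k2 := h3 y hy
      have k3 : |n - 3 * y ^ 2| ≤ 4 * T ^ 2 :=
        abs_le.2 ⟨by linarith [k1.1], by linarith [k1.2, sq_nonneg y, sq_nonneg T]⟩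
      exact_mod_cast k3
    · rcases eq_or_ne y 0 with rfl | k1
      · simp
      · have k2 : 0 < |y - 0| := by simpa using k1
        have k3 : |y - 0| ≤ |0 - 3 * y ^ 2| := by
          rw [sub_zero, zero_sub, abs_neg, abs_of_nonneg (by positivity : 0 ≤ 3 * y ^ 2), ← sq_abs]
          nlinarith [abs_pos.2 k1]
        exact one_div_le_one_div_of_le (by exact_mod_cast k2) (by exact_mod_cast k3)
  have h6 := h2 I 0 T hT0.le fun n hn => by
    have k1 : |n - 0| ≤ T := by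
      rw [← hI, Finset.mem_Icc] at hn
      exact abs_le.2 (by simpa using hn)
    exact_mod_cast k1
  have h7 : ∑ x ∈ box T, 1 / |((x.1 ^ 2 - x.2.1 ^ 2 - 3 * x.2.2 ^ 2 : ℤ) : ℝ)| =
      ∑ y ∈ I, ∑ p ∈ I ×ˢ I, 1 / |((p.1 ^ 2 - p.2 ^ 2 - 3 * y ^ 2 : ℤ) : ℝ)| := by
    rw [box, hI, Finset.sum_comm]
    simp only [Finset.sum_product]
  have h8 : ((T : ℝ) ^ 2) ^ η = (T : ℝ) ^ η * (T : ℝ) ^ η := by
    rw [sq, Real.mul_rpow hT0.le hT0.le]
  have h9 : (T : ℝ) ^ (1 + 4 * η) = T * ((T : ℝ) ^ η) ^ 4 := by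
    rw [Real.rpow_add hT0, Real.rpow_one, mul_comm 4 η, Real.rpow_mul hT0.le]
    norm_num
  have h10 : 1 ≤ (T : ℝ) ^ η := Real.one_le_rpow hT' hη.le
  rw [h7, h9]
  refine (Finset.sum_le_sum h5).trans ?_
  rw [Finset.sum_add_distrib, Finset.sum_const, nsmul_eq_mul, ← Finset.mul_sum,
    Real.mul_rpow (by norm_num) (by positivity), h8, add_mul]
  generalize (T : ℝ) ^ η = A at *
  refine add_le_add ((mul_le_mul_of_nonneg_right h4 (by positivity)).trans (le_of_eq (by ring)))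
    ((mul_le_mul_of_nonneg_left h6 (by positivity)).trans ?_)
  have h11 : A ≤ A ^ 4 := le_self_pow₀ h10 (by norm_num)
  calc 6 * (T : ℝ) * (K * A) ≤ 6 * T * (K * A ^ 4) := by gcongr
    _ = _ := by ring

end Pool.Agent.Lib.MP_af4c59_nt.H32
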