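import Mathlib

/-!
Elementary arithmetic of the tame part of the discriminant.
-/

namespace Pool.Agent.Lib.MP_af4c59_nt.H50

/-- The part of `D` made of the primes larger than `p0`. -/
def tamePart (p0 D : ℕ) : ℕ := ∏ p ∈ D.primeFactors.filter (p0 < ·), p ^ padicValNat p D

theorem prod_padicValNat {D : ℕ} (hD : D ≠ 0) :
    ∏ p ∈ D.primeFactors, p ^ padicValNat p D = D := by
  conv_rhs => rw [← Nat.prod_factorization_pow_eq_self hD]
  rw [Finsupp.prod, Nat.support_factorization]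
  exact Finset.prod_congr rfl fun p hp => by
    rw [Nat.factorization_def D (Nat.prime_of_mem_primeFactors hp)]

theorem tamePart_pos (p0 D : ℕ) : 0 < tamePart p0 D :=
  Finset.prod_pos fun _ hp =>
    pow_pos (Nat.prime_of_mem_primeFactors (Finset.mem_filter.1 hp).1).pos _

theorem tamePart_le (p0 : ℕ) {D : ℕ} (hD : D ≠ 0) : tamePart p0 D ≤ D := by
  refine Nat.le_of_dvd (Nat.pos_of_ne_zero hD) ?_
  conv_rhs => rw [← prod_padicValNat hD]
  exact Finset.prod_dvd_prod_of_subset _ _ _ (Finset.filter_subset _ _)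

theorem le_tamePart (p0 W : ℕ) {D : ℕ} (hD : D ≠ 0)
    (hW : ∀ p : ℕ, p.Prime → padicValNat p D ≤ W) :
    D ≤ p0.factorial ^ W * tamePart p0 D := by
  have h1 := Finset.prod_filter_not_mul_prod_filter D.primeFactors (fun p => p0 < p)
    (fun p => p ^ padicValNat p D)
  rw [prod_padicValNat hD] at h1
  conv_lhs => rw [← h1]
  refine Nat.mul_le_mul_right _ ?_
  calc ∏ p ∈ D.primeFactors.filter (fun p => ¬ p0 < p), p ^ padicValNat p D
      ≤ ∏ p ∈ D.primeFactors.filter (fun p => ¬ p0 < p), p ^ W :=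
        Finset.prod_le_prod' fun p hp => by
          have hp' := Nat.prime_of_mem_primeFactors (Finset.mem_filter.1 hp).1
          exact Nat.pow_le_pow_right hp'.pos (hW p hp')
    _ = (∏ p ∈ D.primeFactors.filter (fun p => ¬ p0 < p), p) ^ W := Finset.prod_pow _ _ _
    _ ≤ p0.factorial ^ W := by
        refine Nat.pow_le_pow_left (Nat.le_of_dvd p0.factorial_pos ?_) _
        rw [← Finset.prod_Ico_id_eq_factorial]
        refine Finset.prod_dvd_prod_of_subset _ _ _ fun p hp => ?_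
        obtain ⟨hp1, hp2⟩ := Finset.mem_filter.1 hp
        have := (Nat.prime_of_mem_primeFactors hp1).pos
        exact Finset.mem_Ico.2 ⟨this, by omega⟩

theorem prod_prime_pow_dvd (S : Finset ℕ) (hS : ∀ p ∈ S, p.Prime) (e : ℕ → ℕ) (m : ℤ)
    (h : ∀ p ∈ S, (p : ℤ) ^ e p ∣ m) : ∏ p ∈ S, (p : ℤ) ^ e p ∣ m := by
  refine Finset.prod_dvd_of_coprime (fun p hp p' hp' hne => ?_) h
  have h1 : Nat.Coprime p p' := (Nat.coprime_primes (hS p hp) (hS p' hp')).2 hne
  exact (Nat.isCoprime_iff_coprime.2 h1).pow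

theorem tamePart_pow_dvd (p0 D r : ℕ) (m : ℤ)
    (h : ∀ p : ℕ, p.Prime → p0 < p → (p : ℤ) ^ (r * padicValNat p D) ∣ m) :
    ((tamePart p0 D : ℕ) : ℤ) ^ r ∣ m := by
  have h1 : ((tamePart p0 D : ℕ) : ℤ) ^ r =
      ∏ p ∈ D.primeFactors.filter (p0 < ·), (p : ℤ) ^ (r * padicValNat p D) := by
    rw [tamePart, Nat.cast_prod, ← Finset.prod_pow]
    exact Finset.prod_congr rfl fun p _ => by rw [Nat.cast_pow, ← pow_mul, mul_comm]
  rw [h1]
  exact prod_prime_pow_dvd _
    (fun p hp => Nat.prime_of_mem_primeFactors (Finset.mem_filter.1 hp).1) _ m fun p hp =>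
      h p (Nat.prime_of_mem_primeFactors (Finset.mem_filter.1 hp).1) (Finset.mem_filter.1 hp).2

theorem ceil_le_of_le_mul {v s w : ℕ} (hs : 0 < s) (h : v ≤ s * w) : (v + s - 1) / s ≤ w := by
  refine Nat.lt_succ_iff.1 ((Nat.div_lt_iff_lt_mul hs).2 ?_)
  have : (w + 1) * s = s * w + s := by ring
  rw [Nat.succ_eq_add_one, this]
  omega

theorem le_mul_ceil {v s : ℕ} (hs : 0 < s) : v ≤ (v + s - 1) / s * s := by
  have h1 := Nat.div_add_mod (v + s - 1) s
  have h2 := Nat.mod_lt (v + s - 1) hs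
  rw [mul_comm] at h1
  omega

theorem exists_root (E s : ℕ) (hE : 0 < E) (hs : 0 < s) :
    ∃ Q : ℕ, 0 < Q ∧ Q ≤ E ∧ E ≤ Q ^ s ∧ ∀ m : ℤ, (E : ℤ) ∣ m ^ s → (Q : ℤ) ∣ m := by
  have hp : ∀ p ∈ E.primeFactors, p.Prime := fun p hp => Nat.prime_of_mem_primeFactors hp
  refine ⟨∏ p ∈ E.primeFactors, p ^ ((padicValNat p E + s - 1) / s),
    Finset.prod_pos fun p h => pow_pos (hp p h).pos _, ?_, ?_, fun m hm => ?_⟩
  · conv_rhs => rw [← prod_padicValNat hE.ne']
    exact Finset.prod_le_prod' fun p h => Nat.pow_le_pow_right (hp p h).pos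
      (ceil_le_of_le_mul hs (Nat.le_mul_of_pos_left _ hs))
  · conv_lhs => rw [← prod_padicValNat hE.ne']
    rw [← Finset.prod_pow]
    exact Finset.prod_le_prod' fun p h => by
      rw [← pow_mul]
      exact Nat.pow_le_pow_right (hp p h).pos (le_mul_ceil hs)
  · rcases eq_or_ne m 0 with rfl | hm0
    · exact dvd_zero _
    rw [Nat.cast_prod]
    simp only [Nat.cast_pow]
    refine prod_prime_pow_dvd _ hp _ m fun p h => ?_
    have : Fact p.Prime := ⟨hp p h⟩
    have ha : m.natAbs ≠ 0 := Int.natAbs_ne_zero.2 hm0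
    have h1 : E ∣ m.natAbs ^ s := by
      rw [← Int.natAbs_pow]
      exact Int.natCast_dvd.1 hm
    have h2 : p ^ padicValNat p E ∣ m.natAbs ^ s := (pow_padicValNat_dvd).trans h1
    have h3 : padicValNat p E ≤ s * padicValNat p m.natAbs := by
      rw [← padicValNat.pow]
      exact (padicValNat_dvd_iff_le (pow_ne_zero _ ha)).1 h2
    have h4 : p ^ ((padicValNat p E + s - 1) / s) ∣ m.natAbs :=
      (padicValNat_dvd_iff_le ha).2 (ceil_le_of_le_mul hs h3)
    exact_mod_cast Int.natCast_dvd.2 h4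

open Pointwise in
theorem card_divisors_prod_le (S : Finset ℕ) (N : ℕ) (hS : ∀ p ∈ S, p.Prime ∧ N < p) :
    (∏ p ∈ S, p ^ N).divisors.card ≤ ∏ p ∈ S, p := by
  induction S using Finset.induction_on with
  | empty => simp
  | insert p S hp ih =>
    rw [Finset.prod_insert hp, Finset.prod_insert hp, Nat.divisors_mul]
    obtain ⟨h1, h2⟩ := hS p (Finset.mem_insert_self _ _)
    refine Finset.card_mul_le.trans (Nat.mul_le_mul ?_
      (ih fun x hx => hS x (Finset.mem_insert_of_mem hx)))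
    rw [Nat.divisors_prime_pow h1, Finset.card_map, Finset.card_range]
    omega

theorem exists_tameParts (N p0 b Y : ℕ) (hN : N ≤ p0) (hb : 1 ≤ b) :
    ∃ T : Finset ℕ, T.card ≤ Y ^ 2 ∧ ∀ D : ℕ, D ≠ 0 → D ≤ Y ^ b →
      (∀ p : ℕ, p.Prime → p0 < p →
        padicValNat p D ≤ N ∧ (padicValNat p D ≠ 0 → b ≤ padicValNat p D)) →
      tamePart p0 D ∈ T := by
  refine ⟨((Finset.Icc 1 Y).filter fun R => (R ^ N).divisors.card ≤ Y).biUnion
    fun R => (R ^ N).divisors, ?_, fun D hD hDY h => ?_⟩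
  · refine Finset.card_biUnion_le.trans ((Finset.sum_le_card_nsmul _ _ Y
      fun R hR => (Finset.mem_filter.1 hR).2).trans ?_)
    rw [smul_eq_mul, sq]
    refine Nat.mul_le_mul_right _ ((Finset.card_filter_le _ _).trans ?_)
    simp
  set S := D.primeFactors.filter (p0 < ·) with hS
  have hSp : ∀ p ∈ S, p.Prime ∧ p0 < p ∧ p ∣ D := fun p hp => by
    obtain ⟨h1, h2⟩ := Finset.mem_filter.1 hp
    exact ⟨Nat.prime_of_mem_primeFactors h1, h2, Nat.dvd_of_mem_primeFactors h1⟩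
  have hR0 : 0 < ∏ p ∈ S, p := Finset.prod_pos fun p hp => (hSp p hp).1.pos
  have hRY : ∏ p ∈ S, p ≤ Y := by
    refine (Nat.pow_le_pow_iff_left (n := b) (by omega)).1 (le_trans ?_
      ((tamePart_le p0 hD).trans hDY))
    rw [← Finset.prod_pow]
    refine Finset.prod_le_prod' fun p hp => ?_
    obtain ⟨h1, h2, h3⟩ := hSp p hp
    have : Fact p.Prime := ⟨h1⟩
    exact Nat.pow_le_pow_right h1.pos
      ((h p h1 h2).2 (Nat.one_le_iff_ne_zero.1 (one_le_padicValNat_of_dvd hD h3)))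
  refine Finset.mem_biUnion.2 ⟨∏ p ∈ S, p, Finset.mem_filter.2
    ⟨Finset.mem_Icc.2 ⟨hR0, hRY⟩, ?_⟩, Nat.mem_divisors.2 ⟨?_, pow_ne_zero _ hR0.ne'⟩⟩
  · rw [← Finset.prod_pow]
    exact (card_divisors_prod_le S N fun p hp =>
      ⟨(hSp p hp).1, lt_of_le_of_lt hN (hSp p hp).2.1⟩).trans hRY
  · rw [← Finset.prod_pow]
    exact Finset.prod_dvd_prod_of_dvd _ _ fun p hp =>
      pow_dvd_pow _ (h p (hSp p hp).1 (hSp p hp).2.1).1

end Pool.Agent.Lib.MP_af4c59_nt.H50
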