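import Mathlib

/-!
Every lattice has a basis in a box whose volume is comparable with the covolume.
-/

namespace Pool.Agent.Lib.MP_af4c59_nt.H50

/-- Projection along `v` onto the coordinates other than `k`. -/
noncomputable def boxPr {n : ℕ} (v : Fin (n + 1) → ℝ) (k : Fin (n + 1)) :
    (Fin (n + 1) → ℝ) →ₗ[ℝ] (Fin n → ℝ) where
  toFun w := fun i => w (k.succAbove i) - (w k / v k) * v (k.succAbove i)
  map_add' a b := by
    funext i
    simp only [Pi.add_apply]
    ring
  map_smul' c a := by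
    funext i
    simp only [Pi.smul_apply, smul_eq_mul, RingHom.id_apply]
    ring

theorem boxPr_apply {n : ℕ} (v : Fin (n + 1) → ℝ) (k : Fin (n + 1)) (w : Fin (n + 1) → ℝ)
    (i : Fin n) : boxPr v k w i = w (k.succAbove i) - (w k / v k) * v (k.succAbove i) := rfl

theorem boxPr_self {n : ℕ} (v : Fin (n + 1) → ℝ) (k : Fin (n + 1)) (hv : v k ≠ 0) :
    boxPr v k v = 0 := by
  funext i
  rw [boxPr_apply, div_self hv]
  simp

theorem boxPr_surj {n : ℕ} (v : Fin (n + 1) → ℝ) (k : Fin (n + 1)) :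
    Function.Surjective (boxPr v k) := by
  intro w
  refine ⟨Fin.insertNth k (0 : ℝ) w, ?_⟩
  funext i
  rw [boxPr_apply]
  simp

theorem box_ratio {n : ℕ} (v : Fin (n + 1) → ℝ) (k : Fin (n + 1)) (hk : |v k| = ‖v‖)
    (hv : 0 < ‖v‖) (t : ℝ) (j : Fin (n + 1)) : |(t / v k) * v j| ≤ |t| := by
  have h1 : |v j| ≤ ‖v‖ := by simpa using norm_le_pi_norm v j
  rw [abs_mul, abs_div, hk]
  calc |t| / ‖v‖ * |v j| ≤ |t| / ‖v‖ * ‖v‖ := by gcongr
    _ = |t| := by field_simp

theorem boxPr_norm {n : ℕ} (v : Fin (n + 1) → ℝ) (k : Fin (n + 1)) (hk : |v k| = ‖v‖)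
    (hv : 0 < ‖v‖) (w : Fin (n + 1) → ℝ) : ‖boxPr v k w‖ ≤ 2 * ‖w‖ := by
  rw [pi_norm_le_iff_of_nonneg (by positivity)]
  intro i
  rw [boxPr_apply, Real.norm_eq_abs]
  have h1 : |w (k.succAbove i)| ≤ ‖w‖ := by simpa using norm_le_pi_norm w (k.succAbove i)
  have h2 : |w k| ≤ ‖w‖ := by simpa using norm_le_pi_norm w k
  have h3 := box_ratio v k hk hv (w k) (k.succAbove i)
  have h4 := abs_sub (w (k.succAbove i)) ((w k / v k) * v (k.succAbove i))
  linarith

theorem box_coord {n : ℕ} (v : Fin (n + 1) → ℝ) (k : Fin (n + 1)) (hk : |v k| = ‖v‖)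
    (hv : 0 < ‖v‖) (w : Fin (n + 1) → ℝ) (i : Fin n) :
    |w (k.succAbove i)| ≤ |boxPr v k w i| + |w k| := by
  have h3 := box_ratio v k hk hv (w k) (k.succAbove i)
  have h4 := abs_add_le (boxPr v k w i) ((w k / v k) * v (k.succAbove i))
  have h5 : boxPr v k w i + (w k / v k) * v (k.succAbove i) = w (k.succAbove i) := by
    rw [boxPr_apply]; ring
  rw [h5] at h4
  linarith

theorem box_norm {n : ℕ} (v : Fin (n + 1) → ℝ) (k : Fin (n + 1)) (hk : |v k| = ‖v‖)
    (hv : 0 < ‖v‖) (w : Fin (n + 1) → ℝ) : ‖w‖ ≤ ‖boxPr v k w‖ + |w k| := by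
  rw [pi_norm_le_iff_of_nonneg (by positivity)]
  intro j
  rw [Real.norm_eq_abs]
  refine Fin.succAboveCases k ?_ (fun i => ?_) j
  · have := norm_nonneg (boxPr v k w)
    linarith
  · have h1 := box_coord v k hk hv w i
    have h2 : |boxPr v k w i| ≤ ‖boxPr v k w‖ := by
      simpa using norm_le_pi_norm (boxPr v k w) i
    linarith

theorem box_round {n : ℕ} (v : Fin (n + 1) → ℝ) (k : Fin (n + 1)) (hk : |v k| = ‖v‖)
    (hv : 0 < ‖v‖) (w : Fin (n + 1) → ℝ) :
    ∃ m : ℤ, |(w - m • v) k| ≤ ‖v‖ / 2 ∧ boxPr v k (w - m • v) = boxPr v k w := by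
  have hvk : v k ≠ 0 := by
    intro h
    rw [h, abs_zero] at hk
    linarith
  refine ⟨round (w k / v k), ?_, ?_⟩
  · have h1 : (w - (round (w k / v k) : ℤ) • v) k = (w k / v k - round (w k / v k)) * v k := by
      rw [Pi.sub_apply, Pi.smul_apply, zsmul_eq_mul]
      field_simp
    rw [h1, abs_mul, hk]
    have h2 := abs_sub_round (w k / v k)
    nlinarith
  · rw [map_sub, map_zsmul, boxPr_self v k hvk]
    simp

theorem box_det {n : ℕ} (v : Fin (n + 1) → ℝ) (k : Fin (n + 1)) (hvk : v k ≠ 0)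
    (w : Fin n → Fin (n + 1) → ℝ) :
    |(Matrix.of (Fin.cons v w : Fin (n + 1) → Fin (n + 1) → ℝ)).det| =
      |v k| * |(Matrix.of fun j => boxPr v k (w j)).det| := by
  classical
  set B : Matrix (Fin (n + 1)) (Fin (n + 1)) ℝ :=
    Matrix.of (Fin.cons v (fun j => w j - (w j k / v k) • v) : Fin (n + 1) → Fin (n + 1) → ℝ)
    with hB
  have h1 : (Matrix.of (Fin.cons v w : Fin (n + 1) → Fin (n + 1) → ℝ)).det = B.det := by
    refine Matrix.det_eq_of_forall_row_eq_smul_add_const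
      (Fin.cons 0 (fun j => w j k / v k) : Fin (n + 1) → ℝ) 0 (by simp) ?_
    intro i j
    refine Fin.cases ?_ (fun i => ?_) i
    · simp [hB]
    · simp [hB]
  rw [h1, Matrix.det_succ_column B k, Fin.sum_univ_succ]
  have h2 : ∀ i : Fin n, B i.succ k = 0 := by
    intro i
    simp only [hB, Matrix.of_apply, Fin.cons_succ, Pi.sub_apply, Pi.smul_apply, smul_eq_mul]
    field_simp
    ring
  have h3 : B.submatrix (Fin.succAbove 0) k.succAbove = Matrix.of fun j => boxPr v k (w j) := by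
    ext i j
    simp [hB, boxPr_apply]
  have h4 : B 0 k = v k := by simp [hB]
  simp only [h2, mul_zero, zero_mul, Finset.sum_const_zero, add_zero]
  rw [h3, h4, abs_mul, abs_mul, abs_pow, abs_neg, abs_one, one_pow, one_mul]

theorem box (n : ℕ) : ∃ C : ℝ, 1 ≤ C ∧ ∀ (Λ : Submodule ℤ (Fin n → ℝ)) (R l : ℝ), 0 < l →
    (∀ r : ℝ, {v | v ∈ Λ ∧ ‖v‖ ≤ r}.Finite) →
    Submodule.span ℝ {v | v ∈ Λ ∧ ‖v‖ ≤ R} = ⊤ → (∀ v ∈ Λ, v ≠ 0 → l ≤ ‖v‖) →
    ∃ (v : Fin n → Fin n → ℝ) (ρ : Fin n → ℝ), Submodule.span ℤ (Set.range v) = Λ ∧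
      (∀ j i, |v j i| ≤ ρ i) ∧ (∀ i, l ≤ ρ i ∧ ρ i ≤ C * R) ∧
      ∏ i, ρ i ≤ C * |(Matrix.of v).det| := by
  induction n with
  | zero =>
    refine ⟨1, le_rfl, fun Λ R l _ _ _ _ => ⟨fun _ => 0, fun _ => 0, ?_, ?_, ?_, ?_⟩⟩
    · exact Subsingleton.elim _ _
    · intro j; exact j.elim0
    · intro j; exact j.elim0
    · simp
  | succ n ih =>
    obtain ⟨C, hC, ih⟩ := ih
    have h2n : (1 : ℝ) ≤ 2 ^ n := one_le_pow₀ (by norm_num)
    refine ⟨4 * 2 ^ n * C, by nlinarith, fun Λ R l hl hfin hspan hmin => ?_⟩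
    -- a shortest nonzero vector
    have hne : ({v | v ∈ Λ ∧ ‖v‖ ≤ R} \ {0}).Nonempty := by
      by_contra h
      rw [Set.not_nonempty_iff_eq_empty, Set.sdiff_eq_empty] at h
      have h1 : Submodule.span ℝ {v | v ∈ Λ ∧ ‖v‖ ≤ R} ≤ ⊥ := by
        rw [Submodule.span_le]
        intro x hx
        simpa using h hx
      rw [hspan] at h1
      have h2 : (fun _ => (1 : ℝ) : Fin (n + 1) → ℝ) ∈ (⊥ : Submodule ℝ (Fin (n + 1) → ℝ)) :=
        h1 Submodule.mem_top
      have h3 := congrFun ((Submodule.mem_bot ℝ).1 h2) 0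
      simp at h3
    obtain ⟨v, ⟨⟨hvΛ, hvR⟩, hv0⟩, hvmin⟩ :=
      Set.exists_min_image _ (fun x => ‖x‖) ((hfin R).subset Set.sdiff_subset) hne
    have hv0' : v ≠ 0 := by simpa using hv0
    have hv : 0 < ‖v‖ := norm_pos_iff.2 hv0'
    have hshort : ∀ x ∈ Λ, x ≠ 0 → ‖v‖ ≤ ‖x‖ := by
      intro x hx hx0
      by_cases h : ‖x‖ ≤ R
      · exact hvmin x ⟨⟨hx, h⟩, by simpa using hx0⟩
      · linarith [not_le.1 h]
    have hlv : l ≤ ‖v‖ := hmin v hvΛ hv0'
    obtain ⟨k, hk⟩ : ∃ k, |v k| = ‖v‖ := by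
      obtain ⟨k, -, hk⟩ := Finset.exists_max_image Finset.univ (fun i => |v i|)
        Finset.univ_nonempty
      refine ⟨k, le_antisymm (by simpa using norm_le_pi_norm v k) ?_⟩
      rw [pi_norm_le_iff_of_nonneg (abs_nonneg _)]
      intro i
      simpa using hk i (Finset.mem_univ _)
    have hvk : v k ≠ 0 := by
      intro h
      rw [h, abs_zero] at hk
      linarith
    set Λ' : Submodule ℤ (Fin n → ℝ) := Λ.map ((boxPr v k).restrictScalars ℤ) with hΛ'
    have hlift : ∀ x ∈ Λ', ∃ w ∈ Λ, boxPr v k w = x ∧ |w k| ≤ ‖v‖ / 2 := by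
      intro x hx
      obtain ⟨w, hw, rfl⟩ := Submodule.mem_map.1 hx
      obtain ⟨m, hm1, hm2⟩ := box_round v k hk hv w
      exact ⟨w - m • v, Λ.sub_mem hw (Λ.smul_mem m hvΛ), hm2, hm1⟩
    have hfin' : ∀ r : ℝ, {x | x ∈ Λ' ∧ ‖x‖ ≤ r}.Finite := by
      intro r
      refine ((hfin (r + ‖v‖ / 2)).image (boxPr v k)).subset ?_
      rintro x ⟨hx, hxr⟩
      obtain ⟨w, hw, rfl, hwk⟩ := hlift x hx
      refine ⟨w, ⟨hw, ?_⟩, rfl⟩
      have := box_norm v k hk hv w
      linarith
    have hspan' : Submodule.span ℝ {x | x ∈ Λ' ∧ ‖x‖ ≤ 2 * R} = ⊤ := by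
      rw [eq_top_iff]
      have h1 : (⊤ : Submodule ℝ (Fin n → ℝ)) =
          (Submodule.span ℝ {v | v ∈ Λ ∧ ‖v‖ ≤ R}).map (boxPr v k) := by
        rw [hspan, Submodule.map_top, LinearMap.range_eq_top.2 (boxPr_surj v k)]
      rw [h1, Submodule.map_span]
      refine Submodule.span_mono ?_
      rintro _ ⟨w, ⟨hw, hwR⟩, rfl⟩
      refine ⟨Submodule.mem_map.2 ⟨w, hw, rfl⟩, ?_⟩
      have := boxPr_norm v k hk hv w
      linarith
    have hmin' : ∀ x ∈ Λ', x ≠ 0 → ‖v‖ / 2 ≤ ‖x‖ := by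
      intro x hx hx0
      obtain ⟨w, hw, rfl, hwk⟩ := hlift x hx
      have hw0 : w ≠ 0 := by
        rintro rfl
        exact hx0 (map_zero _)
      have h1 := hshort w hw hw0
      have h2 := box_norm v k hk hv w
      linarith
    obtain ⟨v', ρ', hs', hb', hρ', hp'⟩ :=
      ih Λ' (2 * R) (‖v‖ / 2) (by positivity) hfin' hspan' hmin'
    have hv'mem : ∀ j, v' j ∈ Λ' := fun j => hs' ▸ Submodule.subset_span ⟨j, rfl⟩
    choose w hwΛ hwpr hwk using fun j => hlift (v' j) (hv'mem j)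
    have hR : 0 < R := lt_of_lt_of_le hv hvR
    refine ⟨Fin.cons v w, Fin.insertNth k ‖v‖ (fun i => 2 * ρ' i), ?_, ?_, ?_, ?_⟩
    · apply le_antisymm
      · rw [Submodule.span_le]
        rintro _ ⟨j, rfl⟩
        refine Fin.cases ?_ (fun j => ?_) j
        · simpa using hvΛ
        · simpa using hwΛ j
      · intro x hx
        have hsub : Submodule.span ℤ (Set.range w) ≤
            Submodule.span ℤ (Set.range (Fin.cons v w : Fin (n + 1) → Fin (n + 1) → ℝ)) := by
          refine Submodule.span_mono ?_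
          rintro _ ⟨j, rfl⟩
          exact ⟨j.succ, by simp⟩
        have hsubΛ : Submodule.span ℤ (Set.range w) ≤ Λ := by
          rw [Submodule.span_le]
          rintro _ ⟨j, rfl⟩
          exact hwΛ j
        have h1 : boxPr v k x ∈
            (Submodule.span ℤ (Set.range w)).map ((boxPr v k).restrictScalars ℤ) := by
          rw [Submodule.map_span, ← Set.range_comp]
          have h2 : (((boxPr v k).restrictScalars ℤ) ∘ w) = v' := funext hwpr
          rw [h2, hs']
          exact Submodule.mem_map.2 ⟨x, hx, rfl⟩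
        obtain ⟨z, hz, hzx⟩ := Submodule.mem_map.1 h1
        have hzx' : boxPr v k z = boxPr v k x := hzx
        obtain ⟨m, hm1, hm2⟩ := box_round v k hk hv (x - z)
        have hy : x - z - m • v ∈ Λ := Λ.sub_mem (Λ.sub_mem hx (hsubΛ hz)) (Λ.smul_mem m hvΛ)
        have hy0 : x - z - m • v = 0 := by
          by_contra h
          have h3 := hshort _ hy h
          have h4 := box_norm v k hk hv (x - z - m • v)
          rw [hm2, map_sub, hzx', sub_self, norm_zero] at h4
          linarith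
        have hxe : x = z + m • v := by
          rw [sub_sub, sub_eq_zero] at hy0
          exact hy0
        rw [hxe]
        refine Submodule.add_mem _ (hsub hz) (Submodule.smul_mem _ m ?_)
        exact Submodule.subset_span ⟨0, by simp⟩
    · intro j i
      refine Fin.cases ?_ (fun j => ?_) j
      · have h1 : |v i| ≤ ‖v‖ := by simpa using norm_le_pi_norm v i
        refine Fin.succAboveCases k (fun h1 => ?_) (fun i h1 => ?_) i h1
        · simpa using h1
        · have h2 := (hρ' i).1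
          simp only [Fin.cons_zero, Fin.insertNth_apply_succAbove]
          linarith
      · refine Fin.succAboveCases k ?_ (fun i => ?_) i
        · have h2 := hwk j
          simp only [Fin.cons_succ, Fin.insertNth_apply_same]
          linarith
        · have h1 := box_coord v k hk hv (w j) i
          rw [hwpr j] at h1
          have h2 := hwk j
          have h3 := hb' j i
          have h4 := (hρ' i).1
          simp only [Fin.cons_succ, Fin.insertNth_apply_succAbove]
          linarith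
    · intro i
      have hCR : C * R ≤ 2 ^ n * (C * R) := le_mul_of_one_le_left (by positivity) h2n
      have hCR' : R ≤ C * R := le_mul_of_one_le_left hR.le hC
      refine Fin.succAboveCases k ?_ (fun i => ?_) i
      · simp only [Fin.insertNth_apply_same]
        exact ⟨hlv, by nlinarith⟩
      · have h4 := hρ' i
        simp only [Fin.insertNth_apply_succAbove]
        exact ⟨by linarith [h4.1], by nlinarith [h4.2]⟩
    · rw [box_det v k hvk w, hk, Fin.prod_univ_succAbove _ k]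
      have h1 : (fun j => boxPr v k (w j)) = v' := funext hwpr
      simp only [Fin.insertNth_apply_same, Fin.insertNth_apply_succAbove]
      rw [h1, Finset.prod_mul_distrib, Finset.prod_const, Finset.card_univ, Fintype.card_fin]
      have h2 : 0 ≤ C * |(Matrix.of v').det| := by positivity
      have h3 : ‖v‖ * (2 ^ n * ∏ i, ρ' i) ≤ ‖v‖ * (2 ^ n * (C * |(Matrix.of v').det|)) := by
        gcongr
      have h4 : 0 ≤ ‖v‖ * (2 ^ n * (C * |(Matrix.of v').det|)) := by positivity
      nlinarith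

end Pool.Agent.Lib.MP_af4c59_nt.H50
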