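import Pool.Agent.Lib.MP_af4c59_nt.H50Defs
import Pool.Agent.Lib.MP_af4c59_nt.H50Box

/-!
The ring of integers has a basis in a box of volume comparable with the square root of the
discriminant, in coordinates adapted to complex conjugation.
-/

namespace Pool.Agent.Lib.MP_af4c59_nt.H50

open NumberField MvPolynomial Pool.Agent.Lib.MP_af4c59_nt.H11

/-- The conclusion of the box lemma for an arbitrary finite index type. -/
def BoxP (I : Type) [Fintype I] [DecidableEq I] (C : ℝ) : Prop :=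
  ∀ (Λ : Submodule ℤ (I → ℝ)) (R l : ℝ), 0 < l → (∀ r : ℝ, {v | v ∈ Λ ∧ ‖v‖ ≤ r}.Finite) →
    Submodule.span ℝ {v | v ∈ Λ ∧ ‖v‖ ≤ R} = ⊤ → (∀ v ∈ Λ, v ≠ 0 → l ≤ ‖v‖) →
    ∃ (v : I → I → ℝ) (ρ : I → ℝ), (∀ j, v j ∈ Λ) ∧
      (∀ w ∈ Λ, ∃ c : I → ℤ, ∑ j, c j • v j = w) ∧ (∀ j i, |v j i| ≤ ρ i) ∧
      (∀ i, l ≤ ρ i ∧ ρ i ≤ C * R) ∧ ∏ i, ρ i ≤ C * |(Matrix.of v).det|

lemma boxf_index (I : Type) [Fintype I] [DecidableEq I] : ∃ C : ℝ, 1 ≤ C ∧ BoxP I C := by
  obtain ⟨C, hC, h⟩ := box (Fintype.card I)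
  refine ⟨C, hC, fun Λ R l hl hfin hsp hlow => ?_⟩
  let σ := (Fintype.equivFin I).symm
  let E : (I → ℝ) ≃ₗ[ℝ] (Fin (Fintype.card I) → ℝ) := LinearEquiv.funCongrLeft ℝ ℝ σ
  have hn : ∀ w, ‖E w‖ = ‖w‖ := fun w => σ.surjective.pi_norm_comp w
  let Λ' : Submodule ℤ (Fin (Fintype.card I) → ℝ) :=
    Λ.comap (E.symm.restrictScalars ℤ).toLinearMap
  have hm : ∀ w, w ∈ Λ' ↔ E.symm w ∈ Λ := fun _ => Iff.rfl
  have hset : ∀ r : ℝ, {v | v ∈ Λ' ∧ ‖v‖ ≤ r} = E '' {v | v ∈ Λ ∧ ‖v‖ ≤ r} := by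
    intro r
    ext w
    constructor
    · rintro ⟨h1, h2⟩
      refine ⟨E.symm w, ⟨h1, ?_⟩, E.apply_symm_apply w⟩
      rwa [← hn, E.apply_symm_apply]
    · rintro ⟨w, ⟨h1, h2⟩, rfl⟩
      exact ⟨(hm _).2 (by rwa [E.symm_apply_apply]), by rwa [hn]⟩
  obtain ⟨v, ρ, h1, h2, h3, h4⟩ := h Λ' R l hl (fun r => hset r ▸ (hfin r).image _)
    (by
      rw [hset]
      have h5 := Submodule.map_span E.toLinearMap {v | v ∈ Λ ∧ ‖v‖ ≤ R}
      rw [hsp, Submodule.map_top, LinearEquiv.range] at h5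
      exact h5.symm)
    (fun w hw h0 => by
      have h5 := hlow _ ((hm w).1 hw) (fun h6 => h0 (E.symm.map_eq_zero_iff.1 h6))
      rwa [← hn, E.apply_symm_apply] at h5)
  refine ⟨fun j => E.symm (v (σ.symm j)), fun i => ρ (σ.symm i), fun j => ?_, fun w hw => ?_,
    fun j i => h2 _ _, fun i => h3 _, ?_⟩
  · exact (hm _).1 (h1 ▸ Submodule.subset_span ⟨_, rfl⟩)
  · have h5 : E w ∈ Submodule.span ℤ (Set.range v) := by
      rw [h1, hm, E.symm_apply_apply]
      exact hw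
    obtain ⟨c, hc⟩ := (Submodule.mem_span_range_iff_exists_fun ℤ).1 h5
    refine ⟨fun j => c (σ.symm j), E.injective ?_⟩
    rw [← hc, map_sum, ← Equiv.sum_comp σ.symm]
    simp only [map_zsmul, E.apply_symm_apply]
  · rw [Equiv.prod_comp σ.symm ρ]
    refine h4.trans (le_of_eq ?_)
    rw [← Matrix.det_submatrix_equiv_self σ.symm]
    rfl

lemma boxf_mulVec_le {I : Type} [Fintype I] (M : Matrix I I ℂ) (x : I → ℂ) {K R : ℝ}
    (hR : 0 ≤ R) (i : I) (hM : ∑ k, ‖M i k‖ ≤ K) (hx : ∀ k, ‖x k‖ ≤ R) :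
    ‖M.mulVec x i‖ ≤ K * R := by
  refine (norm_sum_le _ _).trans (le_trans ?_ (mul_le_mul_of_nonneg_right hM hR))
  rw [Finset.sum_mul]
  refine Finset.sum_le_sum fun k _ => ?_
  rw [norm_mul]
  exact mul_le_mul_of_nonneg_left (hx k) (norm_nonneg _)

lemma boxf_core {I : Type} [Fintype I] [DecidableEq I] {C K R : ℝ} (hbox : BoxP I C)
    {L : Type} [Field L] [NumberField L] (φ : I ≃ (L →+* ℂ)) (M N : Matrix I I ℂ)
    (hNM : N * M = 1) (t : L →+ (I → ℝ))
    (ht : ∀ a, (fun i => φ i a) = M.mulVec fun k => (t a k : ℂ)) (hK : 1 ≤ K) (hC : 0 ≤ C)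
    (hM : ∀ i, ∑ k, ‖M i k‖ ≤ K) (hN : ∀ k, ∑ i, ‖N k i‖ ≤ K) (hdet : ‖N.det‖ ≤ K)
    (hR : 0 ≤ R) (hs : Submodule.span ℚ (short L R) = ⊤) :
    ∃ (a : I → L) (ρ : I → ℝ), (∀ j, IsIntegral ℤ (a j)) ∧
      Submodule.span ℚ (Set.range a) = ⊤ ∧ (∀ j k, |t (a j) k| ≤ ρ k) ∧
      (∀ k, K⁻¹ ≤ ρ k ∧ ρ k ≤ C * (K * R)) ∧
      (∏ k, ρ k) ^ 2 ≤ C ^ 2 * K ^ 2 * (discr L).natAbs := by
  classical
  have hK0 : 0 < K := by linarith
  have h1 : ∀ a i, ‖φ i a‖ ≤ K * ‖t a‖ := by
    intro a i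
    rw [congrFun (ht a) i]
    refine boxf_mulVec_le M _ (norm_nonneg _) i (hM i) fun k => ?_
    rw [Complex.norm_real]
    exact norm_le_pi_norm (t a) k
  have h2 : ∀ a ∈ short L R, ‖t a‖ ≤ K * R := by
    intro a ha
    refine (pi_norm_le_iff_of_nonneg (by positivity)).2 fun k => ?_
    have h3 : (fun k => (t a k : ℂ)) = N.mulVec fun i => φ i a := by
      rw [ht a, Matrix.mulVec_mulVec, hNM, Matrix.one_mulVec]
    rw [← Complex.norm_real, congrFun h3 k]
    exact boxf_mulVec_le N _ hR k (hN k) fun i => ha.2 _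
  have hinj : Function.Injective t := by
    rw [injective_iff_map_eq_zero]
    intro a ha
    obtain ⟨ψ⟩ : Nonempty (L →+* ℂ) := inferInstance
    have h3 := h1 a (φ.symm ψ)
    rw [ha, norm_zero, mul_zero, norm_le_zero_iff] at h3
    exact (map_eq_zero _).1 h3
  let Λ : Submodule ℤ (I → ℝ) := (integralClosure ℤ L).toSubmodule.map t.toIntLinearMap
  have hm : ∀ v, v ∈ Λ ↔ ∃ a, IsIntegral ℤ a ∧ t a = v := fun _ => Iff.rfl
  let ω : I → L := fun m => integralBasis L (equivReindex L (φ m))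
  have hω : ∀ m, IsIntegral ℤ (ω m) := fun m => by
    simp only [ω, integralBasis_apply]
    exact RingOfIntegers.isIntegral_coe _
  let T : Matrix I I ℝ := Matrix.of fun m k => t (ω m) k
  have hD : (discr L : ℂ) = ((T.det : ℂ) * M.det) ^ 2 := by
    have h3 : (basisMatrix L).submatrix φ φ = T.map Complex.ofRealHom * M.transpose := by
      ext m i
      have h4 := congrFun (ht (ω m)) i
      simp only [Matrix.mulVec, dotProduct] at h4
      simp only [Matrix.submatrix_apply, Matrix.of_apply, canonicalEmbedding.latticeBasis_apply,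
        canonicalEmbedding.apply_at, Matrix.mul_apply, Matrix.map_apply, Matrix.transpose_apply,
        Complex.ofRealHom_eq_coe, T]
      exact h4.trans (Finset.sum_congr rfl fun k _ => mul_comm _ _)
    rw [discr_eq_basisMatrix_det_sq, ← Matrix.det_submatrix_equiv_self φ, h3, Matrix.det_mul,
      Matrix.det_transpose, ← RingHom.mapMatrix_apply, ← RingHom.map_det]
    rfl
  have hT : T.det ≠ 0 := by
    intro h
    rw [h] at hD
    exact discr_ne_zero L (by simpa using hD)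
  obtain ⟨v, ρ, g1, g2, g3, g4, g5⟩ := hbox Λ (K * R) K⁻¹ (inv_pos.2 hK0)
    (fun r => ((Embeddings.finite_of_norm_le L ℂ (K * r)).image t).subset (by
      rintro v ⟨hv, hr⟩
      obtain ⟨a, ha, rfl⟩ := (hm v).1 hv
      refine ⟨a, ⟨ha, fun ψ => ?_⟩, rfl⟩
      have h3 := h1 a (φ.symm ψ)
      rw [φ.apply_symm_apply] at h3
      exact h3.trans (mul_le_mul_of_nonneg_left hr hK0.le)))
    (by
      by_contra hcon
      obtain ⟨f, hf0, hf⟩ := Submodule.exists_le_ker_of_lt_top _ (lt_top_iff_ne_top.mpr hcon)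
      have h3 : (f.toAddMonoidHom.comp t).toRatLinearMap = 0 :=
        LinearMap.ext_on hs fun a ha =>
          hf (Submodule.subset_span ⟨(hm _).2 ⟨a, ha.1, rfl⟩, h2 a ha⟩)
      have h4 : T.mulVec (fun k => f (Pi.single k 1)) = 0 := by
        funext m
        have h5 : f (t (ω m)) = 0 := LinearMap.congr_fun h3 (ω m)
        rw [LinearMap.pi_apply_eq_sum_univ] at h5
        rw [Pi.zero_apply, ← h5]
        refine Finset.sum_congr rfl fun k _ => ?_
        simp only [T, Matrix.of_apply, smul_eq_mul]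
        congr 2
        funext j
        simp [Pi.single_apply, eq_comm]
      have h6 := Matrix.eq_zero_of_mulVec_eq_zero hT h4
      exact hf0 (LinearMap.pi_ext' fun i => LinearMap.ext_ring (by simpa using congrFun h6 i)))
    (fun v hv h0 => by
      obtain ⟨a, ha, rfl⟩ := (hm v).1 hv
      obtain ⟨ψ, hψ⟩ := exists_conjugate_one_le_norm (K := L) (α := ⟨a, ha⟩) (by
        intro h
        have h3 : a = 0 := congrArg Subtype.val h
        exact h0 (by rw [h3, map_zero]))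
      have h3 := h1 a (φ.symm ψ)
      rw [φ.apply_symm_apply] at h3
      rw [inv_le_iff_one_le_mul₀' hK0]
      exact le_trans hψ h3)
  choose a ha hta using fun j => (hm _).1 (g1 j)
  choose U hU using fun m => g2 _ ((hm _).2 ⟨ω m, hω m, rfl⟩)
  have hωa : ∀ m, ω m = ∑ j, U m j • a j := by
    intro m
    apply hinj
    rw [← hU m, map_sum]
    simp only [map_zsmul, hta]
  refine ⟨a, ρ, ha, ?_, fun j k => hta j ▸ g3 j k, g4, ?_⟩
  · rw [eq_top_iff, ← (integralBasis L).span_eq, Submodule.span_le]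
    rintro _ ⟨m, rfl⟩
    have h3 := hωa (φ.symm ((equivReindex L).symm m))
    simp only [ω, Equiv.apply_symm_apply] at h3
    rw [h3]
    exact Submodule.sum_mem _ fun j _ => zsmul_mem (Submodule.subset_span (Set.mem_range_self j)) _
  · have h3 : T = (Matrix.of U).map (Int.castRingHom ℝ) * Matrix.of v := by
      ext m k
      have h4 := congrFun (hU m) k
      simp only [Finset.sum_apply, zsmul_eq_mul] at h4
      simp only [T, Matrix.of_apply, Matrix.mul_apply, Matrix.map_apply, eq_intCast]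
      exact h4.symm
    have h4 : T.det = ((Matrix.of U).det : ℤ) * (Matrix.of v).det := by
      rw [h3, Matrix.det_mul, ← RingHom.mapMatrix_apply, ← RingHom.map_det, eq_intCast]
    have h5 : (1 : ℝ) ≤ |(((Matrix.of U).det : ℤ) : ℝ)| := by
      have h6 : (Matrix.of U).det ≠ 0 := fun h => hT (by rw [h4, h]; simp)
      exact_mod_cast Int.one_le_abs h6
    have h6 : |(Matrix.of v).det| ≤ |T.det| := by
      rw [h4, abs_mul]
      exact le_mul_of_one_le_left (abs_nonneg _) h5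
    have h7 : ((discr L).natAbs : ℝ) = (|T.det| * ‖M.det‖) ^ 2 := by
      have h8 := congrArg norm hD
      rw [norm_pow, norm_mul, Complex.norm_real, Complex.norm_intCast, Real.norm_eq_abs] at h8
      rw [← h8, Nat.cast_natAbs, Int.cast_abs]
    have h8 : ‖N.det‖ * ‖M.det‖ = 1 := by
      rw [← norm_mul, ← Matrix.det_mul, hNM, Matrix.det_one, norm_one]
    have h9 : |T.det| ≤ K * (|T.det| * ‖M.det‖) := by
      have h10 := mul_le_mul_of_nonneg_right hdet (norm_nonneg M.det)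
      have h11 := mul_le_mul_of_nonneg_left (h8 ▸ h10) (abs_nonneg T.det)
      linarith
    have h10 : 0 ≤ ∏ k, ρ k :=
      Finset.prod_nonneg fun k _ => (inv_pos.2 hK0).le.trans (g4 k).1
    rw [h7, ← mul_pow, ← mul_pow, mul_assoc]
    exact pow_le_pow_left₀ h10 (g5.trans (mul_le_mul_of_nonneg_left (h6.trans h9) hC)) 2

variable {I Ω : Type} [Fintype I] [DecidableEq I] [Field Ω] [CharZero Ω]

omit [CharZero Ω] in
lemma boxf_real (ε : Ω →+* ℂ) {x : Ω} (hx : x ∈ Algebra.adjoin ℤ ({-1} : Set Ω)) :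
    starRingEnd ℂ (ε x) = ε x := by
  induction hx using Algebra.adjoin_induction with
  | mem x hx => rw [Set.mem_singleton_iff.1 hx]; simp
  | algebraMap r => simp
  | add x y _ _ h1 h2 => rw [map_add, map_add, h1, h2]
  | mul x y _ _ h1 h2 => rw [map_mul, map_mul, h1, h2]

omit [Fintype I] [DecidableEq I] in
lemma boxf_exists_bound {A : Type} [Finite A] (g : A → ℝ) : ∃ K : ℝ, 1 ≤ K ∧ ∀ a, g a ≤ K := by
  obtain ⟨K, hK⟩ := (Set.finite_range g).bddAbove
  exact ⟨max 1 K, le_max_left _ _, fun a => (hK ⟨a, rfl⟩).trans (le_max_right _ _)⟩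

theorem box_field [IsAlgClosed Ω] (ε : Ω →+* ℂ)
    (B : {c : Equiv.Perm I // c ^ 2 = 1} → Matrix I I Ω)
    (u : {c : Equiv.Perm I // c ^ 2 = 1} → I → ℕ) (hE : ∀ c, Eig c.1 (-1 : Ω) 2 (B c) (u c)) :
    ∃ C : ℕ, 1 ≤ C ∧ ∀ (L : Type) [Field L] [NumberField L] (e : I ≃ (L →ₐ[ℚ] Ω)) (ρ : ℕ),
      5 ^ Fintype.card I * (discr L).natAbs < ρ ^ Fintype.card I →
      ∃ (c : {c : Equiv.Perm I // c ^ 2 = 1}) (a : I → L) (r : I → ℝ),
        (∀ j, IsIntegral ℤ (a j)) ∧ Submodule.span ℚ (Set.range a) = ⊤ ∧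
        (∀ j k, ‖ε ((B c)⁻¹.mulVec (fun i => e i (a j)) k)‖ ≤ r k) ∧
        (∀ j i, ‖ε (e i (a j))‖ ≤ C * ρ ^ 2) ∧
        (∀ k, 1 ≤ r k ∧ r k ≤ C * ρ ^ 2) ∧ (∏ k, r k) ^ 2 ≤ C * (discr L).natAbs := by
  classical
  obtain ⟨C, hC, hbox⟩ := boxf_index I
  let w : {c : Equiv.Perm I // c ^ 2 = 1} → I → ℂ := fun c k => Complex.I ^ u c k
  have hw : ∀ c k, starRingEnd ℂ (w c k) * w c k = 1 := by
    intro c k
    simp only [w, map_pow, Complex.conj_I, ← mul_pow, neg_mul, Complex.I_mul_I, neg_neg, one_pow]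
  let M := fun c => (B c).map ε * Matrix.diagonal (w c)
  let N := fun c => Matrix.diagonal (fun k => starRingEnd ℂ (w c k)) * ((B c)⁻¹).map ε
  have hBB : ∀ c, ((B c)⁻¹).map ε * (B c).map ε = 1 := fun c => by
    rw [← Matrix.map_mul, Matrix.nonsing_inv_mul _ (hE c).det.isUnit,
      Matrix.map_one _ (map_zero ε) (map_one ε)]
  have hNM : ∀ c, N c * M c = 1 := fun c => by
    simp only [M, N]
    rw [Matrix.mul_assoc, ← Matrix.mul_assoc _ ((B c).map ε), hBB, Matrix.one_mul,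
      Matrix.diagonal_mul_diagonal]
    simp only [hw, Matrix.diagonal_one]
  obtain ⟨K, hK, hKb⟩ := boxf_exists_bound fun p : {c : Equiv.Perm I // c ^ 2 = 1} × I =>
    ∑ k, ‖M p.1 p.2 k‖ + ∑ k, ‖N p.1 p.2 k‖ + ‖(N p.1).det‖
  have hK0 : 0 < K := by linarith
  have hC0 : 0 < C := by linarith
  have hbig : 1 ≤ C * K := one_le_mul_of_one_le_of_one_le hC hK
  have hKn : 1 ≤ (K ^ Fintype.card I) ^ 2 := one_le_pow₀ (one_le_pow₀ hK)
  obtain ⟨C', hC'⟩ := exists_nat_ge (4 * (K ^ Fintype.card I) ^ 2 * (C ^ 2 * K ^ 2))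
  have hC1 : (K ^ Fintype.card I) ^ 2 * (C ^ 2 * K ^ 2) ≤ C' := by
    have : 0 ≤ (K ^ Fintype.card I) ^ 2 * (C ^ 2 * K ^ 2) := by positivity
    linarith
  have hC2 : 4 * (K * (C * K)) ≤ C' := by
    refine le_trans ?_ hC'
    have h1 : K * (C * K) ≤ C ^ 2 * K ^ 2 := by
      have : 0 ≤ C * K ^ 2 * (C - 1) := by have : 0 ≤ C - 1 := by linarith
                                           positivity
      nlinarith
    have h2 := le_mul_of_one_le_left (show 0 ≤ C ^ 2 * K ^ 2 by positivity) hKn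
    linarith
  refine ⟨C', ?_, fun L _ _ e ρ hρ => ?_⟩
  · have h1 : (1 : ℝ) ≤ K * (C * K) := one_le_mul_of_one_le_of_one_le hK hbig
    exact_mod_cast (show (1 : ℝ) ≤ C' by linarith)
  have hcard : Fintype.card I = Module.finrank ℚ L := by
    rw [Fintype.card_congr e, AlgHom.card]
  let φ : I ≃ (L →+* ℂ) := Equiv.ofBijective (fun i => ε.comp (e i).toRingHom) (by
    rw [Fintype.bijective_iff_injective_and_card, hcard, Embeddings.card]
    refine ⟨fun i j h => e.injective (AlgHom.ext fun a => ε.injective ?_), rfl⟩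
    exact RingHom.congr_fun h a)
  have hφ : ∀ i a, φ i a = ε (e i a) := fun _ _ => rfl
  let c0 : Equiv.Perm I :=
    φ.trans ((ComplexEmbedding.involutive_conjugate L).toPerm.trans φ.symm)
  have hc0 : ∀ i, φ (c0 i) = ComplexEmbedding.conjugate (φ i) := fun i => φ.apply_symm_apply _
  let c : {c : Equiv.Perm I // c ^ 2 = 1} := ⟨c0, by
    ext i
    apply φ.injective
    rw [sq, Equiv.Perm.mul_apply, hc0, hc0, ComplexEmbedding.involutive_conjugate L]
    rfl⟩
  let y : L → I → ℂ := fun a => (((B c)⁻¹).map ε).mulVec fun i => φ i a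
  have hy : ∀ a k, ε ((B c)⁻¹.mulVec (fun i => e i a) k) = y a k := fun a k =>
    RingHom.map_mulVec ε _ _ k
  have hx : ∀ a, ((B c).map ε).mulVec (y a) = fun i => φ i a := fun a => by
    simp only [y]
    rw [Matrix.mulVec_mulVec, mul_eq_one_comm.1 (hBB c), Matrix.one_mulVec]
  have hconj : ∀ a k, starRingEnd ℂ (y a k) = (-1) ^ u c k * y a k := by
    intro a
    have h1 : ((B c).map ε).mulVec (fun k => starRingEnd ℂ (y a k)) =
        ((B c).map ε).mulVec fun k => (-1) ^ u c k * y a k := by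
      funext i
      have h2 := congrArg (starRingEnd ℂ) (congrFun (hx a) i)
      have h3 := congrFun (hx a) (c0 i)
      rw [hc0, ComplexEmbedding.conjugate_coe_eq, ← h2] at h3
      simp only [Matrix.mulVec, dotProduct, Matrix.map_apply, map_sum, map_mul] at h3 ⊢
      refine Eq.trans (Finset.sum_congr rfl fun k _ => ?_)
        (h3.symm.trans (Finset.sum_congr rfl fun k _ => ?_))
      · rw [boxf_real ε ((hE c).mem i k)]
      · rw [show B c (c0 i) k = _ from (hE c).eig i k, map_mul, map_pow, map_neg, map_one]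
        ring
    have h2 := congrArg (((B c)⁻¹).map ε).mulVec h1
    rw [Matrix.mulVec_mulVec, Matrix.mulVec_mulVec, hBB, Matrix.one_mulVec,
      Matrix.one_mulVec] at h2
    exact congrFun h2
  let t : L →+ (I → ℝ) := AddMonoidHom.mk' (fun a k => ((N c).mulVec (fun i => φ i a) k).re)
    fun a b => by
      funext k
      simp only [map_add, Matrix.mulVec, dotProduct, mul_add, Finset.sum_add_distrib,
        Complex.add_re, Pi.add_apply]
  have hNy : ∀ a k, (N c).mulVec (fun i => φ i a) k = starRingEnd ℂ (w c k) * y a k := by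
    intro a k
    simp only [N, y]
    rw [← Matrix.mulVec_mulVec, Matrix.mulVec_diagonal]
  have hreal : ∀ a, (fun k => (t a k : ℂ)) = (N c).mulVec fun i => φ i a := by
    intro a
    funext k
    refine Complex.conj_eq_iff_re.1 ?_
    rw [hNy, map_mul, hconj, Complex.conj_conj, ← mul_assoc]
    simp only [w, map_pow, Complex.conj_I, ← mul_pow, mul_neg, mul_one]
  have ht : ∀ a, (fun i => φ i a) = (M c).mulVec fun k => (t a k : ℂ) := fun a => by
    rw [hreal, Matrix.mulVec_mulVec, mul_eq_one_comm.1 (hNM c), Matrix.one_mulVec]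
  have hs1 : ∀ i, 0 ≤ ∑ k, ‖M c i k‖ := fun i => Finset.sum_nonneg fun _ _ => norm_nonneg _
  have hs2 : ∀ i, 0 ≤ ∑ k, ‖N c i k‖ := fun i => Finset.sum_nonneg fun _ _ => norm_nonneg _
  have hs3 := norm_nonneg (N c).det
  have hM : ∀ i, ∑ k, ‖M c i k‖ ≤ K := fun i => by
    have := hKb (c, i)
    have := hs2 i
    linarith
  obtain ⟨ψ⟩ : Nonempty (L →+* ℂ) := inferInstance
  obtain ⟨a, r, g1, g2, g3, g4, g5⟩ := boxf_core (R := 4 * ρ ^ 2) hbox φ (M c) (N c) (hNM c) t ht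
    hK hC0.le hM
    (fun i => by
      have := hKb (c, i)
      have := hs1 i
      linarith)
    (by
      have := hKb (c, φ.symm ψ)
      have := hs1 (φ.symm ψ)
      have := hs2 (φ.symm ψ)
      linarith)
    (by positivity) (span_short (by rwa [← hcard]))
  have hr : ∀ k, 0 ≤ r k := fun k => (inv_pos.2 hK0).le.trans (g4 k).1
  have hfin : K * (C * (K * (4 * (ρ : ℝ) ^ 2))) ≤ C' * (ρ : ℝ) ^ 2 := by
    have := mul_le_mul_of_nonneg_right hC2 (sq_nonneg (ρ : ℝ))
    linarith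
  refine ⟨c, a, fun k => K * r k, g1, g2, fun j k => ?_, fun j i => ?_, fun k => ⟨?_, ?_⟩, ?_⟩
  · have h1 := congrArg norm ((congrFun (hreal (a j)) k).trans (hNy (a j) k))
    have h2 : ‖starRingEnd ℂ (w c k)‖ = 1 := by simp [w]
    rw [norm_mul, h2, one_mul, Complex.norm_real, Real.norm_eq_abs] at h1
    rw [hy, ← h1]
    exact (g3 j k).trans (le_mul_of_one_le_left (hr k) hK)
  · rw [← hφ, congrFun (ht (a j)) i]
    refine (boxf_mulVec_le _ _ (by positivity) i (hM i) fun k => ?_).trans hfin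
    rw [Complex.norm_real, Real.norm_eq_abs]
    exact (g3 j k).trans (g4 k).2
  · exact (inv_le_iff_one_le_mul₀' hK0).1 (g4 k).1
  · exact (mul_le_mul_of_nonneg_left (g4 k).2 hK0.le).trans hfin
  · rw [Finset.prod_mul_distrib, Finset.prod_const, Finset.card_univ, mul_pow]
    refine (mul_le_mul_of_nonneg_left g5 (by positivity)).trans ?_
    rw [← mul_assoc]
    exact mul_le_mul_of_nonneg_right hC1 (Nat.cast_nonneg _)

theorem exists_comb {L : Type} [Field L] [NumberField L] (e : I ≃ (L →ₐ[ℚ] Ω)) (a : I → L)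
    (ha : Submodule.span ℚ (Set.range a) = ⊤) {Θ : MvPolynomial I Ω} (hΘ : Θ ≠ 0) :
    ∃ s : I → ℕ, (∀ j, s j ≤ Θ.totalDegree) ∧
      eval (fun i => e i (∑ j, (s j : L) * a j)) Θ ≠ 0 := by
  classical
  have hsp := span_embeddings e e.injective a ha
  let A : Matrix I I Ω := Matrix.of fun i m => e i (a m)
  have hP : sub A Θ ≠ 0 := by
    intro h0
    apply hΘ
    refine MvPolynomial.funext fun y => ?_
    obtain ⟨c, hc⟩ := (Submodule.mem_span_range_iff_exists_fun Ω).mp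
      (hsp ▸ Submodule.mem_top : y ∈ _)
    have h2 := eval_sub A c Θ
    rw [h0, map_zero] at h2
    rw [map_zero, h2]
    congr 2
    funext i
    have := congrFun hc i
    simp only [Finset.sum_apply, Pi.smul_apply, smul_eq_mul] at this
    rw [← this]
    exact Finset.sum_congr rfl fun m _ => mul_comm _ _
  obtain ⟨t, ht1, ht2⟩ : ∃ t : I → Ω,
      (∀ q, t q ∈ (Finset.range (Θ.totalDegree + 1)).image (Nat.cast : ℕ → Ω)) ∧
        eval t (sub A Θ) ≠ 0 := by
    by_contra hcon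
    push Not at hcon
    refine hP (eq_zero_of_eval_zero_at_prod_finset _ _ (fun q => ?_) hcon)
    rw [Finset.card_image_of_injective _ Nat.cast_injective, Finset.card_range]
    have h1 := degreeOf_le_totalDegree (sub A Θ) q
    have h2 := totalDegree_sub_le A Θ
    omega
  choose s hs1 hs2 using fun q => Finset.mem_image.mp (ht1 q)
  refine ⟨s, fun j => Nat.lt_succ_iff.1 (Finset.mem_range.1 (hs1 j)), ?_⟩
  rw [eval_sub] at ht2
  convert ht2 using 3
  funext i
  simp [A, Matrix.mulVec, dotProduct, hs2, mul_comm]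

theorem arch_val (ε : Ω →+* ℂ) (B : Matrix I I Ω) (f : MvPolynomial I ℤ) :
    ∃ cf : ℕ, ∀ (y : I → Ω) (c P : ℝ) (τ : I → ℕ) (d w : ℕ), 1 ≤ c → 1 ≤ P →
      (∀ k, ‖ε (y k)‖ ≤ c * P ^ τ k) → f.totalDegree ≤ d →
      (∀ β ∈ (sub B (mp Ω f)).support, wt τ β ≤ w) →
      ‖ε (aeval (B.mulVec y) f)‖ ≤ cf * c ^ d * P ^ w := by
  obtain ⟨cf, hcf⟩ := exists_nat_ge
    (∑ β ∈ (sub B (mp Ω f)).support, ‖ε (coeff β (sub B (mp Ω f)))‖)
  refine ⟨cf, fun y c P τ d w hc hP hy hd hw => ?_⟩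
  have h1 : aeval (B.mulVec y) f = eval y (sub B (mp Ω f)) := by
    rw [eval_sub, eval_map, aeval_def]
    rfl
  have h2 : (sub B (mp Ω f)).totalDegree ≤ d :=
    (totalDegree_sub_le _ _).trans ((Finset.sup_mono (support_map_subset _ _)).trans hd)
  rw [h1, eval_eq', map_sum, mul_assoc]
  refine (norm_sum_le _ _).trans (le_trans ?_ (mul_le_mul_of_nonneg_right hcf (by positivity)))
  rw [Finset.sum_mul]
  refine Finset.sum_le_sum fun β hβ => ?_
  rw [map_mul, norm_mul, map_prod, norm_prod]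
  refine mul_le_mul_of_nonneg_left ?_ (norm_nonneg _)
  have h3 : ∑ k, β k ≤ d := by
    have h4 := (le_totalDegree hβ).trans h2
    rwa [Finsupp.sum_fintype _ _ (fun _ => rfl)] at h4
  calc ∏ k, ‖ε (y k ^ β k)‖ ≤ ∏ k, (c ^ β k * P ^ (τ k * β k)) := by
        refine Finset.prod_le_prod (fun _ _ => norm_nonneg _) fun k _ => ?_
        rw [map_pow, norm_pow, pow_mul, ← mul_pow]
        exact pow_le_pow_left₀ (norm_nonneg _) (hy k) _
    _ = c ^ (∑ k, β k) * P ^ wt τ β := by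
        rw [Finset.prod_mul_distrib, Finset.prod_pow_eq_pow_sum, Finset.prod_pow_eq_pow_sum, wt]
    _ ≤ c ^ d * P ^ w :=
        mul_le_mul (pow_le_pow_right₀ hc h3) (pow_le_pow_right₀ hP (hw β hβ)) (by positivity)
          (by positivity)

end Pool.Agent.Lib.MP_af4c59_nt.H50
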