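import Pool.Agent.Lib.MP_af4c59_nt.H50Defs

/-!
Counting exponent vectors: concentration of weights and the total number.
-/

namespace Pool.Agent.Lib.MP_af4c59_nt.H50

open Pool.Agent.Lib.MP_af4c59_nt.H11

variable {I : Type} [Fintype I] [DecidableEq I]

lemma gen_le (w : I → ℝ) (h0 : ∀ k, 0 ≤ w k) (h1 : ∀ k, w k < 1) (d : ℕ) (S : Finset (I →₀ ℕ))
    (hS : ∀ β ∈ S, β.degree ≤ d) (x : ℝ) (hx : ∀ β ∈ S, x ≤ ∏ k, w k ^ β k) :
    S.card * x ≤ ∏ k, (1 - w k)⁻¹ := by
  have h2 : (S.card : ℝ) * x ≤ ∑ β ∈ S, ∏ k, w k ^ β k := by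
    rw [← nsmul_eq_mul]
    exact Finset.card_nsmul_le_sum _ _ _ hx
  have h3 : ∑ β ∈ S, ∏ k, w k ^ β k ≤ ∏ k, ∑ e ∈ Finset.range (d + 1), w k ^ e := by
    rw [Finset.prod_univ_sum, ← Finset.sum_image (s := S) (g := fun β : I →₀ ℕ => (β : I → ℕ))
      (f := fun β : I → ℕ => ∏ k, w k ^ β k) DFunLike.coe_injective.injOn]
    refine Finset.sum_le_sum_of_subset_of_nonneg (fun f hf => ?_)
      fun β _ _ => Finset.prod_nonneg fun k _ => pow_nonneg (h0 k) _
    obtain ⟨β, hβ, rfl⟩ := Finset.mem_image.1 hf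
    exact Fintype.mem_piFinset.2 fun k => Finset.mem_range.2
      (Nat.lt_succ_of_le ((Finsupp.le_degree k β).trans (hS β hβ)))
  refine h2.trans (h3.trans (Finset.prod_le_prod
    (fun k _ => Finset.sum_nonneg fun e _ => pow_nonneg (h0 k) _) fun k _ => ?_))
  have h5 := (summable_geometric_of_lt_one (h0 k) (h1 k)).sum_le_tsum (Finset.range (d + 1))
    fun e _ => pow_nonneg (h0 k) e
  rwa [tsum_geometric_of_lt_one (h0 k) (h1 k)] at h5

lemma one_dim {r u b : ℝ} (hr : 1 ≤ r) (hu : |u| ≤ 1) (hb : 4 ≤ b) :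
    r / (1 + r) * Real.exp (u / (r * b)) < 1 ∧
      (1 - r / (1 + r) * Real.exp (u / (r * b)))⁻¹ ≤
        (1 + r) * Real.exp (u / b + 9 * (u ^ 2 / b ^ 2)) := by
  have r0 : 0 < r := by linarith
  have b0 : 0 < b := by linarith
  obtain ⟨t, ht⟩ : ∃ t, t = u / b := ⟨_, rfl⟩
  have t1 : |t| ≤ 1 / 4 := by
    rw [ht, abs_div, abs_of_pos b0]
    gcongr
  have e1 : u / (r * b) = t / r := by rw [ht, div_div, mul_comm]
  have e2 : |t / r| = |t| / r := by rw [abs_div, abs_of_pos r0]
  have s1 : |t / r| ≤ 1 := by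
    rw [e2, div_le_one r0]
    linarith
  rw [e1, ← div_pow, ← ht]
  obtain ⟨y, hy⟩ : ∃ y, y = r * (Real.exp (t / r) - 1) := ⟨_, rfl⟩
  have y1 : |y| ≤ 2 * |t| := by
    have := mul_le_mul_of_nonneg_left (Real.abs_exp_sub_one_le s1) r0.le
    rw [hy, abs_mul, abs_of_pos r0]
    refine this.trans (le_of_eq ?_)
    rw [e2]
    field_simp
  have y2 : y ≤ t + t ^ 2 := by
    have h1 := mul_le_mul_of_nonneg_left
      (le_of_abs_le (Real.abs_exp_sub_one_sub_id_le s1)) r0.le
    have h2 : r * (t / r) = t := by field_simp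
    have h3 : r * (t / r) ^ 2 = t ^ 2 / r := by field_simp
    have h4 : t ^ 2 / r ≤ t ^ 2 := div_le_self (sq_nonneg t) hr
    rw [hy]
    linarith
  have y3 : y ^ 2 ≤ 4 * t ^ 2 := by
    have := pow_le_pow_left₀ (abs_nonneg y) y1 2
    rw [mul_pow, sq_abs, sq_abs] at this
    linarith
  have y4 : y ≤ 1 / 2 := by linarith [le_abs_self y]
  have e3 : 1 - r / (1 + r) * Real.exp (t / r) = (1 - y) / (1 + r) := by
    rw [hy]
    field_simp
    ring
  have y5 : 0 < 1 - y := by linarith
  refine ⟨by linarith [div_pos y5 (show 0 < 1 + r by linarith)], ?_⟩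
  rw [e3, inv_div, div_eq_mul_inv]
  refine mul_le_mul_of_nonneg_left ?_ (by linarith)
  refine le_trans ?_ (Real.add_one_le_exp _)
  refine le_trans ?_ (show y + 2 * y ^ 2 + 1 ≤ _ by linarith)
  rw [inv_le_iff_one_le_mul₀ y5]
  nlinarith [mul_nonneg (sq_nonneg y) (show 0 ≤ 1 - 2 * y by linarith)]

theorem conc (r : ℕ) (hr : 1 ≤ r) (u : I → ℝ) (hu : ∀ k, |u k| ≤ 1) (M A b : ℝ)
    (hM : ∑ k, u k ^ 2 ≤ M) (hb : 4 ≤ b) (S : Finset (I →₀ ℕ))
    (hS : ∀ β ∈ S, β.degree ≤ r * Fintype.card I ∧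
      r * ∑ k, u k + r * A * M / b ≤ ∑ k, u k * β k) :
    (S.card : ℝ) * (r : ℝ) ^ (r * Fintype.card I) ≤
      (1 + r : ℝ) ^ (r * Fintype.card I + Fintype.card I) * Real.exp (-((A - 9) * M / b ^ 2)) := by
  have hr' : (1 : ℝ) ≤ r := by exact_mod_cast hr
  have r0 : (0 : ℝ) < r := by linarith
  have b0 : 0 < b := by linarith
  have z0 : (0 : ℝ) ≤ r / (1 + r) := by positivity
  have z1 : (r : ℝ) / (1 + r) ≤ 1 := by
    rw [div_le_one (by positivity)]
    linarith
  have h1 := gen_le (fun k => r / (1 + r) * Real.exp (u k / (r * b))) (fun k => by positivity)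
    (fun k => (one_dim hr' (hu k) hb).1) _ S (fun β hβ => (hS β hβ).1)
    ((r / (1 + r)) ^ (r * Fintype.card I) * Real.exp ((∑ k, u k) / b + A * M / b ^ 2))
    fun β hβ => by
      simp only [mul_pow, ← Real.exp_nat_mul]
      rw [Finset.prod_mul_distrib, Finset.prod_pow_eq_pow_sum, ← Real.exp_sum]
      refine mul_le_mul (pow_le_pow_of_le_one z0 z1 ?_) (Real.exp_le_exp.2 ?_) (by positivity)
        (by positivity)
      · rw [← Finsupp.degree_eq_sum]
        exact (hS β hβ).1
      · calc _ = (r * ∑ k, u k + r * A * M / b) / (r * b) := by field_simp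
          _ ≤ (∑ k, u k * β k) / (r * b) := by gcongr; exact (hS β hβ).2
          _ = _ := by
            rw [Finset.sum_div]
            exact Finset.sum_congr rfl fun k _ => by ring
  have h2 : ∏ k, (1 - r / (1 + r) * Real.exp (u k / (r * b)))⁻¹ ≤
      (1 + r : ℝ) ^ Fintype.card I * Real.exp ((∑ k, u k) / b + 9 * M / b ^ 2) := by
    refine (Finset.prod_le_prod (fun k _ => inv_nonneg.2 (sub_nonneg.2 (one_dim hr' (hu k) hb).1.le))
      fun k _ => (one_dim hr' (hu k) hb).2).trans ?_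
    rw [Finset.prod_mul_distrib, Finset.prod_const, Finset.card_univ, ← Real.exp_sum,
      Finset.sum_add_distrib, ← Finset.sum_div, ← Finset.mul_sum, ← Finset.sum_div, mul_div_assoc]
    gcongr
  have h3 := h1.trans h2
  rw [show (∑ k, u k) / b + 9 * M / b ^ 2 =
    -((A - 9) * M / b ^ 2) + ((∑ k, u k) / b + A * M / b ^ 2) by ring, Real.exp_add (-_),
    ← mul_assoc, ← mul_assoc, div_pow, ← mul_div_assoc] at h3
  have h4 := le_of_mul_le_mul_right h3 (Real.exp_pos _)
  rw [div_le_iff₀ (by positivity)] at h4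
  refine h4.trans (le_of_eq ?_)
  ring

theorem card_supp (r d : ℕ) (K : Finset I) (S : Finset (I →₀ ℕ))
    (hS : ∀ β ∈ S, β.degree ≤ d ∧ ∀ u, u ∉ K → β u = 0) :
    S.card * r ^ d * (1 + r) ^ Kᶜ.card ≤ (1 + r) ^ (d + Fintype.card I) := by
  have z0 : (0 : ℝ) ≤ r / (1 + r) := by positivity
  have z1 : (r : ℝ) / (1 + r) < 1 := by
    rw [div_lt_one (by positivity)]
    linarith
  have h1 := gen_le (fun k => if k ∈ K then (r : ℝ) / (1 + r) else 0)
    (fun k => by split_ifs <;> simp [z0]) (fun k => by split_ifs <;> simp [z1]) d S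
    (fun β hβ => (hS β hβ).1) ((r / (1 + r)) ^ d) fun β hβ => by
      refine (pow_le_pow_of_le_one z0 z1.le (hS β hβ).1).trans (le_of_eq ?_)
      rw [Finsupp.degree_eq_sum, ← Finset.prod_pow_eq_pow_sum]
      refine Finset.prod_congr rfl fun k _ => ?_
      split_ifs with h
      · rfl
      · simp [(hS β hβ).2 k h]
  have h2 : ∏ k, (1 - if k ∈ K then (r : ℝ) / (1 + r) else 0)⁻¹ = (1 + r : ℝ) ^ K.card := by
    rw [← Finset.prod_mul_prod_compl K, Finset.prod_eq_one (s := Kᶜ)
      (fun k hk => by simp [Finset.mem_compl.1 hk]), mul_one, ← Finset.prod_const]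
    refine Finset.prod_congr rfl fun k hk => ?_
    rw [if_pos hk]
    field_simp
    ring
  rw [h2, div_pow, ← mul_div_assoc, div_le_iff₀ (by positivity), ← pow_add] at h1
  have h3 : S.card * r ^ d ≤ (1 + r) ^ (K.card + d) := by exact_mod_cast h1
  rw [← Finset.card_add_card_compl K, ← add_assoc, pow_add, add_comm d]
  exact Nat.mul_le_mul_right _ h3

lemma mode_le (r N k : ℕ) :
    (r * N + N).choose k * r ^ (r * N + N - k) ≤ (r * N + N).choose N * r ^ (r * N) := by
  obtain ⟨n, hn⟩ : ∃ n, n = r * N + N := ⟨_, rfl⟩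
  have e : r * N = n - N := by omega
  rw [← hn, e]
  have key : ∀ k, n.choose (k + 1) * r ^ (n - (k + 1)) * ((k + 1) * r) =
      n.choose k * r ^ (n - k) * (n - k) := fun k => by
    rcases lt_or_ge k n with h | h
    · rw [show n - k = n - (k + 1) + 1 by omega, pow_succ, show n - (k + 1) + 1 = n - k by omega]
      calc _ = n.choose (k + 1) * (k + 1) * (r ^ (n - (k + 1)) * r) := by ring
        _ = _ := by
          rw [Nat.choose_succ_right_eq]
          ring
    · simp [Nat.choose_eq_zero_of_lt (Nat.lt_succ_of_le h), Nat.sub_eq_zero_of_le h]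
  rcases le_total k N with h | h
  · induction h using Nat.decreasingInduction with
    | self => rfl
    | of_succ k hk ih =>
      refine le_trans (Nat.le_of_mul_le_mul_right ?_ (show 0 < n - k by omega)) ih
      rw [← key]
      refine Nat.mul_le_mul_left _ ?_
      have := Nat.mul_le_mul_right r (show k + 1 ≤ N from hk)
      rw [mul_comm N] at this
      omega
  · induction h with
    | refl => rfl
    | @step k hk ih =>
      have hk' : N ≤ k := hk
      rcases Nat.eq_zero_or_pos r with rfl | hr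
      · rw [Nat.choose_eq_zero_of_lt (by omega), zero_mul]
        exact Nat.zero_le _
      refine le_trans (Nat.le_of_mul_le_mul_right ?_ (show 0 < (k + 1) * r by positivity)) ih
      rw [Nat.succ_eq_add_one, key]
      refine Nat.mul_le_mul_left _ ?_
      have := Nat.mul_le_mul_right r (show N ≤ k + 1 by omega)
      rw [mul_comm N] at this
      omega

theorem card_lower (r : ℕ) :
    (1 + r) ^ (r * Fintype.card I + Fintype.card I) ≤
      (r * Fintype.card I + Fintype.card I + 1) * (1 + r) * r ^ (r * Fintype.card I) *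
        Fintype.card (Deg I (r * Fintype.card I)) := by
  have h1 : ∀ d, (Fintype.card I + d - 1).choose d ≤ Fintype.card (Deg I d) := fun d => by
    rw [← Finset.card_univ, ← Finset.card_finsuppAntidiag_nat_eq_choose, ← Fintype.card_coe]
    refine Fintype.card_le_of_injective (fun β => ⟨β.1, ?_⟩) fun β γ h => ?_
    · rw [Finsupp.degree_eq_sum]
      exact (Finset.mem_finsuppAntidiag.1 β.2).1.le
    · exact Subtype.ext (Subtype.mk.inj h)
  refine le_trans ?_ (Nat.mul_le_mul_left _ (h1 _))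
  generalize Fintype.card I = N
  have h2 : (r * N + N).choose N ≤ (1 + r) * (N + r * N - 1).choose (r * N) := by
    rcases N with _ | N
    · simp
    · have := Nat.add_one_mul_choose_eq (r * (N + 1) + N) N
      rw [show N + 1 + r * (N + 1) - 1 = r * (N + 1) + N by omega, Nat.choose_symm_add]
      refine Nat.le_of_mul_le_mul_right (le_of_eq ?_) (Nat.succ_pos N)
      rw [← add_assoc, ← this, Nat.succ_eq_add_one]
      ring
  calc (1 + r) ^ (r * N + N) ≤ (Finset.range (r * N + N + 1)).card •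
        ((r * N + N).choose N * r ^ (r * N)) := by
        rw [add_pow]
        refine Finset.sum_le_card_nsmul _ _ _ fun k _ => ?_
        rw [one_pow, one_mul, Nat.cast_id, mul_comm]
        exact mode_le r N k
    _ ≤ (r * N + N + 1) * ((1 + r) * (N + r * N - 1).choose (r * N) * r ^ (r * N)) := by
        rw [Finset.card_range, smul_eq_mul]
        gcongr
    _ = _ := by ring

end Pool.Agent.Lib.MP_af4c59_nt.H50
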