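import Mathlib

/-!
A permutation group of order at most `d ^ m`, where `m` is a lower bound for the index of its
non-identity elements, has a colouring with `d` colours and trivial stabiliser.
-/

namespace Pool.Agent.Lib.MP_af4c59_nt.H88

open Equiv Equiv.Perm

variable {α : Type} [Fintype α] [DecidableEq α]

lemma fix_card (g : Perm α) {d : ℕ} :
    (Finset.univ.filter fun χ : α → Fin d => ∀ i, χ (g i) = χ i).card
      * d ^ (g.cycleType.sum - Multiset.card g.cycleType) ≤ d ^ Fintype.card α := by
  classical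
  have hne : ∀ c : g.cycleFactorsFinset, ∃ x, x ∈ c.1.support := fun c =>
    (mem_cycleFactorsFinset_iff.mp c.2).1.nonempty_support
  choose pt hpt using hne
  let β := {i // i ∉ g.support} ⊕ g.cycleFactorsFinset
  let f : (α → Fin d) → β → Fin d := fun χ => Sum.elim (fun i => χ i.1) fun c => χ (pt c)
  have hsc : ∀ χ : α → Fin d, (∀ i, χ (g i) = χ i) → ∀ x y, g.SameCycle x y → χ x = χ y := by
    intro χ hχ x y hxy
    obtain ⟨k, rfl⟩ := hxy.exists_nat_pow_eq
    induction k with
    | zero => simp
    | succ k ih =>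
      rw [pow_succ', Perm.mul_apply, hχ]
      exact ih ⟨k, by simp⟩
  have h1 : (Finset.univ.filter fun χ : α → Fin d => ∀ i, χ (g i) = χ i).card
      ≤ (Finset.univ : Finset (β → Fin d)).card := by
    refine Finset.card_le_card_of_injOn f (fun _ _ => by simp) ?_
    intro χ hχ χ' hχ' h
    simp only [Finset.coe_filter, Finset.mem_univ, true_and, Set.mem_setOf_eq] at hχ hχ'
    funext i
    by_cases hi : i ∈ g.support
    · let c : g.cycleFactorsFinset := ⟨g.cycleOf i, cycleOf_mem_cycleFactorsFinset_iff.mpr hi⟩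
      have h2 : g.SameCycle i (pt c) := (mem_support_cycleOf_iff.mp (hpt c)).1
      rw [hsc χ hχ _ _ h2, hsc χ' hχ' _ _ h2]
      exact congrFun h (Sum.inr c)
    · exact congrFun h (Sum.inl ⟨i, hi⟩)
  have h2 : Multiset.card g.cycleType = g.cycleFactorsFinset.card := by
    rw [cycleType_def, Multiset.card_map]; rfl
  have h3 : Multiset.card g.cycleType ≤ g.cycleType.sum := by
    have := Multiset.card_nsmul_le_sum (s := g.cycleType) (a := 1)
      fun x hx => le_trans (by norm_num) (two_le_of_mem_cycleType hx)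
    simpa using this
  have h4 : g.support.card ≤ Fintype.card α := Finset.card_le_univ _
  have h5 : Fintype.card β = Fintype.card α - g.support.card + g.cycleFactorsFinset.card := by
    simp only [β, Fintype.card_sum, Fintype.card_coe]
    congr 1
    rw [Fintype.card_subtype_compl, Fintype.card_coe]
  rw [Finset.card_univ, Fintype.card_fun, Fintype.card_fin, h5] at h1
  refine (Nat.mul_le_mul_right _ h1).trans (le_of_eq ?_)
  rw [← pow_add]
  congr 1
  rw [sum_cycleType] at h3 ⊢
  omega

theorem exists_colouring (G : Subgroup (Perm α)) {d m : ℕ} (hd : 1 ≤ d)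
    (hm : ∀ g ∈ G, g ≠ 1 → m ≤ g.cycleType.sum - Multiset.card g.cycleType)
    (hG : Nat.card G ≤ d ^ m) :
    ∃ χ : α → Fin d, ∀ g ∈ G, (∀ i, χ (g i) = χ i) → g = 1 := by
  classical
  by_contra hcon
  push Not at hcon
  let T : Finset (Perm α) := (Finset.univ.filter fun g => g ∈ G).erase 1
  have hT : T.card + 1 = Nat.card G := by
    rw [Finset.card_erase_add_one (by simp), Nat.card_eq_fintype_card, Fintype.card_subtype]
  have h1 : (Finset.univ : Finset (α → Fin d)) ⊆
      T.biUnion fun g => Finset.univ.filter fun χ : α → Fin d => ∀ i, χ (g i) = χ i := by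
    intro χ _
    obtain ⟨g, h2, h3, h4⟩ := hcon χ
    exact Finset.mem_biUnion.mpr ⟨g, by simp [T, h2, h4], by simpa using h3⟩
  have h2 := (Finset.card_le_card h1).trans Finset.card_biUnion_le
  rw [Finset.card_univ, Fintype.card_fun, Fintype.card_fin] at h2
  have h3 := Nat.mul_le_mul_right (d ^ m) h2
  rw [Finset.sum_mul] at h3
  have h4 := h3.trans (Finset.sum_le_card_nsmul _ _ (d ^ Fintype.card α) fun g hg => by
    have h5 : g ≠ 1 ∧ g ∈ G := by simpa [T] using hg
    exact (Nat.mul_le_mul_left _ (Nat.pow_le_pow_right hd (hm g h5.2 h5.1))).trans (fix_card g))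
  rw [smul_eq_mul, mul_comm] at h4
  have h6 := Nat.le_of_mul_le_mul_right h4 (pow_pos (by omega) _)
  omega

end Pool.Agent.Lib.MP_af4c59_nt.H88
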