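import Pool.Agent.Lib.MP_af4c59_nt.H50Defs
import Pool.Agent.Lib.MP_af4c59_nt.H88Motion

/-!
Eigenbases of permutations, orbits and supports.
-/

namespace Pool.Agent.Lib.MP_af4c59_nt.H50

variable {I Ω : Type} [Fintype I] [DecidableEq I] [Field Ω] [CharZero Ω]

/-- the projection of the `a.1`-th basis vector on the eigenspace of `ζ ^ a.2` -/
def eigV (π : Equiv.Perm I) (ζ : Ω) (n : ℕ) (a : I × Fin n) (i : I) : Ω :=
  ∑ t ∈ Finset.range n, if (π ^ t) a.1 = i then (ζ ^ a.2.1) ^ t else 0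

omit [Fintype I] [CharZero Ω] in
lemma eigV_eig (π : Equiv.Perm I) {ζ : Ω} {n : ℕ} (hζ : ζ ^ n = 1) (hπ : π ^ n = 1)
    (a : I × Fin n) (i : I) : eigV π ζ n a (π i) = ζ ^ a.2.1 * eigV π ζ n a i := by
  have h1 := Finset.sum_range_succ
    (fun t => if (π ^ t) a.1 = π i then (ζ ^ a.2.1) ^ t else 0) n
  have h2 : (ζ ^ a.2.1) ^ n = 1 := by rw [← pow_mul, mul_comm, pow_mul, hζ, one_pow]
  rw [Finset.sum_range_succ', hπ, h2, pow_zero, pow_zero] at h1
  unfold eigV
  rw [← add_right_cancel h1, Finset.mul_sum]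
  refine Finset.sum_congr rfl fun t _ => ?_
  rw [pow_succ', Equiv.Perm.mul_apply, pow_succ']
  simp only [Equiv.apply_eq_iff_eq, mul_ite, mul_zero]

omit [Fintype I] [CharZero Ω] in
lemma eigV_mem (π : Equiv.Perm I) (ζ : Ω) (n : ℕ) (a : I × Fin n) (i : I) :
    eigV π ζ n a i ∈ Algebra.adjoin ℤ ({ζ} : Set Ω) := by
  refine Subalgebra.sum_mem _ fun t _ => ?_
  split_ifs
  · exact Subalgebra.pow_mem _ (Subalgebra.pow_mem _ (Algebra.self_mem_adjoin_singleton ℤ ζ) _) _
  · exact Subalgebra.zero_mem _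

omit [Fintype I] [CharZero Ω] in
lemma eigV_sum (π : Equiv.Perm I) {ζ : Ω} {n : ℕ} (hn : 0 < n) (hζ : IsPrimitiveRoot ζ n)
    (i0 i : I) : ∑ j : Fin n, eigV π ζ n (i0, j) i = if i0 = i then (n : Ω) else 0 := by
  unfold eigV
  rw [Finset.sum_comm, Finset.sum_eq_single 0]
  · simp only [pow_zero, Equiv.Perm.one_apply]
    split_ifs <;> simp
  · intro t ht h0
    by_cases h : (π ^ t) i0 = i
    · simp only [h, if_true]
      have h1 : ζ ^ t ≠ 1 := hζ.pow_ne_one_of_pos_of_lt h0 (Finset.mem_range.1 ht)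
      have h2 := mul_geom_sum (ζ ^ t) n
      rw [← pow_mul, mul_comm t n, pow_mul, hζ.pow_eq_one, one_pow, sub_self] at h2
      rw [Fin.sum_univ_eq_sum_range (fun j => (ζ ^ j) ^ t) n,
        ← (mul_eq_zero.1 h2).resolve_left (sub_ne_zero.2 h1)]
      exact Finset.sum_congr rfl fun j _ => by rw [← pow_mul, ← pow_mul, mul_comm]
    · simp [h]
  · intro h
    exact absurd (Finset.mem_range.2 hn) h

lemma eigV_span (π : Equiv.Perm I) {ζ : Ω} {n : ℕ} (hn : 0 < n) (hζ : IsPrimitiveRoot ζ n) :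
    Submodule.span Ω (Set.range (eigV π ζ n)) = ⊤ := by
  rw [eq_top_iff, ← (Pi.basisFun Ω I).span_eq, Submodule.span_le]
  rintro _ ⟨i0, rfl⟩
  have h : Pi.basisFun Ω I i0 = (n : Ω)⁻¹ • ∑ j : Fin n, eigV π ζ n (i0, j) := by
    funext i
    have hn' : (n : Ω) ≠ 0 := Nat.cast_ne_zero.2 hn.ne'
    rw [Pi.smul_apply, Finset.sum_apply, eigV_sum π hn hζ, Pi.basisFun_apply, Pi.single_apply]
    by_cases h : i0 = i
    · simp [h, hn']
    · simp [h, Ne.symm h]
  rw [h]
  exact Submodule.smul_mem _ _ (Submodule.sum_mem _ fun j _ => Submodule.subset_span ⟨_, rfl⟩)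

omit [CharZero Ω] in
lemma eig_sym (π : Equiv.Perm I) {ζ : Ω} {n : ℕ} (hζ : IsPrimitiveRoot ζ n) {B : Matrix I I Ω}
    {u : I → ℕ} (hu : ∀ k, u k < n) (hB : B.det ≠ 0)
    (he : ∀ i k, B (π i) k = ζ ^ u k * B i k) : 2 * ∑ k, u k = n * io u := by
  have h1 : (B.transpose * B).det ≠ 0 := by
    rw [Matrix.det_mul, Matrix.det_transpose]; exact mul_ne_zero hB hB
  rw [Matrix.det_apply'] at h1
  obtain ⟨σ, -, h2⟩ := Finset.exists_ne_zero_of_sum_ne_zero h1
  have h3 : ∀ k, u (σ k) + u k = if u k ≠ 0 then n else 0 := by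
    intro k
    have h4 : (B.transpose * B) (σ k) k ≠ 0 :=
      Finset.prod_ne_zero_iff.1 (right_ne_zero_of_mul h2) k (Finset.mem_univ k)
    have h5 : (B.transpose * B) (σ k) k = ζ ^ (u (σ k) + u k) * (B.transpose * B) (σ k) k := by
      simp only [Matrix.mul_apply, Matrix.transpose_apply]
      rw [Finset.mul_sum, ← Equiv.sum_comp π]
      refine Finset.sum_congr rfl fun i _ => ?_
      rw [he, he, pow_add]; ring
    have h6 : ζ ^ (u (σ k) + u k) = 1 := mul_right_cancel₀ h4 (by rw [← h5, one_mul])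
    obtain ⟨c, hc⟩ := (hζ.pow_eq_one_iff_dvd _).1 h6
    have h7 := hu k
    have h8 := hu (σ k)
    have h9 : c < 2 := by
      by_contra h
      have := Nat.mul_le_mul_left n (not_lt.1 h)
      omega
    interval_cases c <;> split_ifs <;> omega
  have h4 : ∑ k, (u (σ k) + u k) = 2 * ∑ k, u k := by
    rw [Finset.sum_add_distrib, Equiv.sum_comp σ u, two_mul]
  rw [← h4, Finset.sum_congr rfl fun k _ => h3 k, ← Finset.sum_filter, Finset.sum_const,
    smul_eq_mul, mul_comm, io]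

omit [CharZero Ω] in
lemma eig_orb (π : Equiv.Perm I) {ζ : Ω} {B : Matrix I I Ω} {u : I → ℕ}
    (hB : LinearIndependent Ω B.col) (he : ∀ i k, B (π i) k = ζ ^ u k * B i k) :
    Fintype.card I ≤ io u + orb π := by
  classical
  have hc : ∀ k : {k // u k = 0}, ∀ x y, π.SameCycle x y → B x k.1 = B y k.1 := by
    intro k x y hxy
    obtain ⟨t, rfl⟩ := hxy.exists_nat_pow_eq
    induction t with
    | zero => simp
    | succ t ih =>
      rw [pow_succ', Equiv.Perm.mul_apply, he, k.2, pow_zero, one_mul]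
      exact ih ⟨t, by simp⟩
  let w : {k // u k = 0} → Quotient (Equiv.Perm.SameCycle.setoid π) → Ω :=
    fun k => Quotient.lift (fun x => B x k.1) (hc k)
  have h1 : LinearIndependent Ω w :=
    LinearIndependent.of_comp (LinearMap.funLeft Ω Ω (Quotient.mk _))
      (hB.comp (fun k : {k // u k = 0} => k.1) Subtype.val_injective)
  haveI := Fintype.ofFinite (Quotient (Equiv.Perm.SameCycle.setoid π))
  have h2 := h1.fintype_card_le_finrank
  rw [Module.finrank_fintype_fun_eq_card, Fintype.card_subtype] at h2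
  have h3 := Finset.card_filter_add_card_filter_not (s := (Finset.univ : Finset I))
    (fun k => u k = 0)
  rw [Finset.card_univ] at h3
  rw [orb, Nat.card_eq_fintype_card, io]
  simp only [ne_eq]
  omega

theorem exists_eig (π : Equiv.Perm I) {ζ : Ω} {n : ℕ} (hn : 0 < n) (hζ : IsPrimitiveRoot ζ n)
    (hπ : π ^ n = 1) : ∃ (B : Matrix I I Ω) (u : I → ℕ), Eig π ζ n B u := by
  obtain ⟨κ, a, -, h1, h2⟩ := exists_linearIndependent' Ω (eigV π ζ n)
  rw [eigV_span π hn hζ] at h1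
  let e : I ≃ κ := (Pi.basisFun Ω I).indexEquiv (Module.Basis.mk h2 h1.ge)
  let B : Matrix I I Ω := Matrix.of fun i k => eigV π ζ n (a (e k)) i
  have h3 : LinearIndependent Ω B.col := h2.comp e e.injective
  have h4 : B.det ≠ 0 :=
    ((Matrix.isUnit_iff_isUnit_det B).1 (Matrix.linearIndependent_cols_iff_isUnit.1 h3)).ne_zero
  have h5 : ∀ i k, B (π i) k = ζ ^ (a (e k)).2.1 * B i k := fun i k =>
    eigV_eig π hζ.pow_eq_one hπ _ i
  have h6 : ∀ k, (a (e k)).2.1 < n := fun k => (a (e k)).2.2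
  exact ⟨B, fun k => (a (e k)).2.1, h6, h4, fun i k => eigV_mem π ζ n _ i, h5,
    eig_sym π hζ h6 h4 h5, eig_orb π h3 h5⟩

theorem orb_one : orb (1 : Equiv.Perm I) = Fintype.card I := by
  rw [orb, ← Nat.card_eq_fintype_card]
  exact (Nat.card_eq_of_bijective (Quotient.mk _)
    ⟨fun x y h => Equiv.Perm.sameCycle_one.1 (Quotient.exact h), Quotient.mk_surjective⟩).symm

lemma eig_cycles (π : Equiv.Perm I) : 2 * Multiset.card π.cycleType ≤ π.support.card := by
  have := Multiset.card_nsmul_le_sum (s := π.cycleType) (a := 2)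
    fun x hx => Equiv.Perm.two_le_of_mem_cycleType hx
  rwa [Equiv.Perm.sum_cycleType, smul_eq_mul, mul_comm] at this

theorem orb_support (π : Equiv.Perm I) : 2 * orb π + π.support.card ≤ 2 * Fintype.card I := by
  classical
  have hne : ∀ c : π.cycleFactorsFinset, ∃ x, x ∈ c.1.support := fun c =>
    (Equiv.Perm.mem_cycleFactorsFinset_iff.mp c.2).1.nonempty_support
  choose pt hpt using hne
  let f : {i // i ∉ π.support} ⊕ π.cycleFactorsFinset →
      Quotient (Equiv.Perm.SameCycle.setoid π) :=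
    Sum.elim (fun i => Quotient.mk _ i.1) fun c => Quotient.mk _ (pt c)
  have hf : Function.Surjective f := by
    intro q
    obtain ⟨i, rfl⟩ := Quotient.mk_surjective q
    by_cases hi : i ∈ π.support
    · let c : π.cycleFactorsFinset :=
        ⟨π.cycleOf i, Equiv.Perm.cycleOf_mem_cycleFactorsFinset_iff.mpr hi⟩
      exact ⟨Sum.inr c, Quotient.sound (Equiv.Perm.mem_support_cycleOf_iff.mp (hpt c)).1.symm⟩
    · exact ⟨Sum.inl ⟨i, hi⟩, rfl⟩
  have h1 := Nat.card_le_card_of_surjective f hf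
  rw [Nat.card_sum, Nat.card_eq_fintype_card (α := {i // i ∉ π.support}),
    Fintype.card_subtype_compl, Fintype.card_coe, Nat.card_eq_fintype_card (α := π.cycleFactorsFinset),
    Fintype.card_coe] at h1
  have h2 : Multiset.card π.cycleType = π.cycleFactorsFinset.card := by
    rw [Equiv.Perm.cycleType_def, Multiset.card_map]; rfl
  have h3 := eig_cycles π
  have h4 : π.support.card ≤ Fintype.card I := Finset.card_le_univ _
  unfold orb
  omega

theorem exists_colouring (Γ : Subgroup (Equiv.Perm I)) {μ : ℕ}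
    (hμ : ∀ π ∈ Γ, π ≠ 1 → 2 * μ ≤ π.support.card) (hΓ : Nat.card Γ ≤ 2 ^ μ) :
    ∃ χ : I → Bool, ∀ π ∈ Γ, (∀ i, χ (π i) = χ i) → π = 1 := by
  obtain ⟨χ, h⟩ := H88.exists_colouring Γ (d := 2) (m := μ) (by norm_num) (fun g h1 h2 => by
    have h3 := hμ g h1 h2
    have h4 := eig_cycles g
    rw [Equiv.Perm.sum_cycleType]
    omega) hΓ
  exact ⟨fun i => finTwoEquiv (χ i), fun π h1 h2 => h π h1 fun i => finTwoEquiv.injective (h2 i)⟩

omit [DecidableEq I] [CharZero Ω] in
lemma eig_cond (Γ : Subgroup (Equiv.Perm I)) : ∃ S : Finset Ω, S.card ≤ Nat.card Γ ∧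
    ∃ f : Cond Ω Γ → Γ × S, Function.Injective f := by
  classical
  refine ⟨(Polynomial.nthRoots (Nat.card Γ) (1 : Ω)).toFinset,
    (Multiset.toFinset_card_le _).trans (Polynomial.card_nthRoots _ _),
    fun q => (⟨q.1.1, q.2.1⟩, ⟨q.1.2, Multiset.mem_toFinset.2
      ((Polynomial.mem_nthRoots Nat.card_pos).2 q.2.2.2.1)⟩), fun q q' h => ?_⟩
  simp only [Prod.mk.injEq, Subtype.mk.injEq] at h
  exact Subtype.ext (Prod.ext h.1 h.2)

instance finite_cond (Γ : Subgroup (Equiv.Perm I)) : Finite (Cond Ω Γ) := by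
  obtain ⟨S, -, f, hf⟩ := eig_cond (Ω := Ω) Γ
  exact Finite.of_injective f hf

theorem card_cond (Γ : Subgroup (Equiv.Perm I)) : Nat.card (Cond Ω Γ) ≤ Nat.card Γ ^ 2 := by
  obtain ⟨S, hS, f, hf⟩ := eig_cond (Ω := Ω) Γ
  refine (Nat.card_le_card_of_injective f hf).trans ?_
  rw [Nat.card_prod, Nat.card_eq_fintype_card (α := S), Fintype.card_coe, sq]
  exact Nat.mul_le_mul_left _ hS

end Pool.Agent.Lib.MP_af4c59_nt.H50
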