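import Pool.Agent.Lib.MP_af4c59_nt.H50Defs

/-!
A family of polynomials whose jets are closed under differentiation has large rank on every
smooth germ.
-/

namespace Pool.Agent.Lib.MP_af4c59_nt.H50

open MvPolynomial Pool.Agent.Lib.MP_af4c59_nt.H11

namespace RankB

section lin

variable {Ω V M : Type} [Field Ω] [AddCommGroup V] [Module Ω V] [AddCommGroup M] [Module Ω M]

lemma step_up (W W' : Submodule Ω V) [FiniteDimensional Ω W] [FiniteDimensional Ω W']
    [FiniteDimensional Ω M] (ψ : W →ₗ[Ω] M) (h : ∀ f : W, ψ f = 0 → (f : V) ∈ W') :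
    Module.finrank Ω W ≤ Module.finrank Ω W' + Module.finrank Ω M := by
  have h1 := LinearMap.finrank_range_add_finrank_ker ψ
  have h2 := Submodule.finrank_le (LinearMap.range ψ)
  have h3 : Module.finrank Ω (LinearMap.ker ψ) ≤ Module.finrank Ω W' := by
    refine LinearMap.finrank_le_finrank_of_injective
      (f := (W.subtype.comp (LinearMap.ker ψ).subtype).codRestrict W' fun f => h f.1 f.2) ?_
    intro a b hab
    have h4 : (a.1.1 : V) = b.1.1 := congrArg (fun t : W' => t.1) hab
    exact Subtype.ext (Subtype.ext h4)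
  omega

lemma step_down (U U' : Submodule Ω V) [FiniteDimensional Ω U] (π : V →ₗ[Ω] M) (hle : U' ≤ U)
    (h : ∀ y ∈ U', π y = 0) :
    Module.finrank Ω (U.map π) + Module.finrank Ω U' ≤ Module.finrank Ω U := by
  have h1 := LinearMap.finrank_range_add_finrank_ker (π.domRestrict U)
  rw [LinearMap.range_domRestrict] at h1
  have h3 : Module.finrank Ω U' ≤ Module.finrank Ω (LinearMap.ker (π.domRestrict U)) := by
    refine LinearMap.finrank_le_finrank_of_injective
      (f := (Submodule.inclusion hle).codRestrict _ fun f => h f.1 f.2) ?_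
    intro a b hab
    exact Subtype.ext (congrArg (fun t => t.1.1) hab)
  omega

end lin

lemma sum_shift (r : ℕ → ℕ) (n : ℕ) : ∀ m : ℕ,
    ∑ k ∈ Finset.range m, (if n ≤ k then r (k - n) else 0) = ∑ j ∈ Finset.range (m - n), r j
  | 0 => by simp
  | m + 1 => by
    rw [Finset.sum_range_succ, sum_shift r n m]
    split_ifs with h
    · rw [Nat.succ_sub h, Finset.sum_range_succ]
    · rw [show m + 1 - n = m - n by omega, add_zero]

variable {I Ω : Type} [Fintype I] [DecidableEq I] [Field Ω]

/-- The content of a word. -/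
noncomputable def cont (l : List I) : I →₀ ℕ := Multiset.toFinsupp (l : Multiset I)

/-- A word with given content. -/
noncomputable def wd (α : I →₀ ℕ) : List I := (Finsupp.toMultiset α).toList

omit [Fintype I] in
lemma cont_cons (u : I) (l : List I) : cont (u :: l) = cont l + Finsupp.single u 1 := by
  rw [cont, cont, ← Multiset.cons_coe, ← Multiset.singleton_add, map_add,
    Multiset.toFinsupp_singleton, add_comm]

omit [Fintype I] in
lemma cont_append (l l' : List I) : cont (l ++ l') = cont l + cont l' := by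
  rw [cont, cont, cont, ← Multiset.coe_add, map_add]

omit [Fintype I] in
lemma cont_wd (α : I →₀ ℕ) : cont (wd α) = α := by
  rw [cont, wd, Multiset.coe_toList, Finsupp.toMultiset_toFinsupp]

omit [Fintype I] [DecidableEq I] in
lemma length_wd (α : I →₀ ℕ) : (wd α).length = α.degree := by
  rw [wd, Multiset.length_toList, Finsupp.card_toMultiset]
  rfl

omit [Fintype I] [DecidableEq I] in
lemma mem_wd {α : I →₀ ℕ} {u : I} (h : u ∈ wd α) : α u ≠ 0 := by
  rwa [wd, Multiset.mem_toList, Finsupp.mem_toMultiset, Finsupp.mem_support_iff] at h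

lemma Dl_append (Φ : I → MvPolynomial I Ω) : ∀ (l l' : List I) (P : MvPolynomial I Ω),
    Dl Φ (l ++ l') P = Dl Φ l' (Dl Φ l P)
  | [], _, _ => rfl
  | u :: l, l', P => by rw [List.cons_append, Dl_cons, Dl_cons, Dl_append Φ l l']

/-- A word reads off one coefficient of the initial form. -/
lemma coeff_of_word [CharZero Ω] (Φ : I → MvPolynomial I Ω) (x : I → Ω)
    (hdet : eval x (jac Φ).det ≠ 0) :
    ∀ (l : List I) (P Q : MvPolynomial I Ω), P.IsHomogeneous l.length →
      Q - aeval (fun u => Φ u - C (eval x (Φ u))) P ∈ mx x ^ (l.length + 1) →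
      eval x (Dl Φ l Q) = 0 → P.coeff (cont l) = 0 := by
  intro l
  set f : I → MvPolynomial I Ω := fun u => Φ u - C (eval x (Φ u)) with hf
  have hfm : ∀ u, f u ∈ mx x := fun u => sub_C_mem x _
  induction l with
  | nil =>
    intro P Q hP hQ h3
    have h1 : P = C (P.coeff 0) := by
      rw [← totalDegree_eq_zero_iff_eq_C]; exact Nat.le_zero.mp hP.totalDegree_le
    have h2 := eval_eq_zero_of_mem x (by simpa using hQ : Q - aeval f P ∈ mx x)
    rw [h1] at h2
    simp only [aeval_C, algebraMap_eq, map_sub, eval_C] at h2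
    rw [Dl_nil] at h3
    rw [h3, zero_sub, neg_eq_zero] at h2
    simpa [cont] using h2
  | cons u l ih =>
    intro P Q hP hQ h3
    have hhom : (pderiv u P).IsHomogeneous l.length := by simpa using hP.pderiv (i := u)
    have hD : D Φ u (aeval f P) = aeval f (pderiv u P) * (jac Φ).det := by
      rw [der_aeval, Finset.sum_eq_single u]
      · simp [hf, D_frame]
      · intro u' _ hu'
        simp [hf, D_frame, hu']
      · simp
    have h4 := ih (C (eval x (jac Φ).det) * pderiv u P) (D Φ u Q)
      (by simpa using (isHomogeneous_C _ _).mul hhom) (by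
        have h1 := D_mem_pow Φ u x (l.length + 1) _ hQ
        rw [map_sub, hD] at h1
        have h2 : aeval f (pderiv u P) * ((jac Φ).det - C (eval x (jac Φ).det))
            ∈ mx x ^ (l.length + 1) := by
          rw [pow_succ]
          exact Ideal.mul_mem_mul (aeval_mem_pow_of_homogeneous f _ hfm hhom) (sub_C_mem x _)
        have h3 := add_mem h1 h2
        convert h3 using 1
        simp only [map_mul, aeval_C, algebraMap_eq]
        ring) h3
    rw [coeff_C_mul, coeff_pderiv] at h4
    rw [cont_cons]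
    rcases mul_eq_zero.mp ((mul_eq_zero.mp h4).resolve_left hdet) with h5 | h5
    · exact h5
    · exact absurd h5 (Nat.cast_add_one_ne_zero _)

lemma close_one (W : Submodule Ω (MvPolynomial I Ω)) (x : I → Ω) (Φ : I → MvPolynomial I Ω)
    {k : ℕ} {f : MvPolynomial I Ω} (hf : f ∈ mx x ^ (k + 1))
    (h : ∀ v : I, ∃ f' ∈ W, f' - pderiv v f ∈ mx x ^ (k + 1)) (u : I) :
    ∃ f' ∈ W, f' - D Φ u f ∈ mx x ^ (k + 1) := by
  choose g hg1 hg2 using h
  refine ⟨∑ v, eval x ((jac Φ).adjugate v u) • g v,
    W.sum_mem fun v _ => W.smul_mem _ (hg1 v), ?_⟩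
  rw [D_apply, ← Finset.sum_sub_distrib]
  refine Ideal.sum_mem _ fun v _ => ?_
  have h1 : ((jac Φ).adjugate v u - C (eval x ((jac Φ).adjugate v u))) * pderiv v f ∈
      mx x ^ (k + 1) := by
    rw [pow_succ']
    exact Ideal.mul_mem_mul (sub_C_mem x _) (pderiv_mem_pow x v k f hf)
  have h2 := sub_mem (Ideal.mul_mem_left _ (C (eval x ((jac Φ).adjugate v u))) (hg2 v)) h1
  convert h2 using 1
  rw [smul_eq_C_mul]
  ring

lemma close_word (W : Submodule Ω (MvPolynomial I Ω)) (x : I → Ω) (Φ : I → MvPolynomial I Ω)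
    {d : ℕ} (hcl : ∀ k ≤ d, ∀ f ∈ W, f ∈ mx x ^ k → ∀ v : I,
      ∃ f' ∈ W, f' - pderiv v f ∈ mx x ^ k) (j : ℕ) :
    ∀ (w : List I) (f Q : MvPolynomial I Ω), j + w.length ≤ d → f ∈ W →
      f ∈ mx x ^ (j + w.length) → Q - f ∈ mx x ^ (j + w.length + 1) →
      ∃ f' ∈ W, f' ∈ mx x ^ j ∧ Dl Φ w Q - f' ∈ mx x ^ (j + 1)
  | [], f, _, _, h1, h2, h3 => ⟨f, h1, h2, h3⟩
  | u :: w, f, Q, h0, h1, h2, h3 => by
    obtain ⟨f1, h4, h5⟩ := close_one W x Φ (k := j + w.length) h2 (hcl _ h0 f h1 h2) u
    have h6 := D_mem_pow Φ u x _ f h2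
    have h7 := D_mem_pow Φ u x _ _ h3
    rw [map_sub] at h7
    refine close_word W x Φ hcl j w f1 (D Φ u Q) (by simp at h0; omega) h4 ?_ ?_
    · simpa using add_mem (Ideal.pow_le_pow_right (Nat.le_succ _) h5) h6
    · have h8 := sub_mem h7 h5
      rwa [sub_sub_sub_cancel_right] at h8

omit [Fintype I] [DecidableEq I] in
lemma eq_zero_of_mem (x : I → Ω) {d : ℕ} {f : MvPolynomial I Ω} (hd : f.totalDegree ≤ d)
    (hf : f ∈ mx x ^ (d + 1)) : f = 0 := by
  have h1 : (sh x f).totalDegree ≤ d := by
    refine le_trans (totalDegree_aeval_le_of_le_one _ (fun l => ?_) f) hd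
    refine (totalDegree_add _ _).trans ?_
    simp [totalDegree_X]
  have h2 : sh x f = 0 := by
    ext β
    rcases le_or_gt β.degree d with h | h
    · exact (mem_pow_iff_sh x _ f).mp hf β (Nat.lt_succ_of_le h)
    · exact coeff_eq_zero_of_totalDegree_lt (h1.trans_lt h)
  have e := sh_neg_sh (-x) f
  rw [neg_neg, h2, map_zero] at e
  exact e.symm

/-- All tangential derivatives of order at most `d` at `x`. -/
noncomputable def Lam (Φ : I → MvPolynomial I Ω) (K : Finset I) (x : I → Ω) (d : ℕ) :
    MvPolynomial I Ω →ₗ[Ω] (List I → Ω) :=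
  LinearMap.pi fun l => if l.length ≤ d ∧ ∀ w ∈ l, w ∉ K then
    (aeval x : MvPolynomial I Ω →ₐ[Ω] Ω).toLinearMap.comp (Dl Φ l) else 0

lemma Lam_apply (Φ : I → MvPolynomial I Ω) (K : Finset I) (x : I → Ω) (d : ℕ)
    (f : MvPolynomial I Ω) (l : List I) :
    Lam Φ K x d f l = if l.length ≤ d ∧ ∀ w ∈ l, w ∉ K then eval x (Dl Φ l f) else 0 := by
  rw [Lam, LinearMap.pi_apply]
  split_ifs <;> simp

/-- The part of a function on words carried by the words of length `k`. -/
noncomputable def pr (I Ω : Type) [Field Ω] (k : ℕ) : (List I → Ω) →ₗ[Ω] (List I → Ω) :=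
  LinearMap.pi fun l => if l.length = k then LinearMap.proj l else 0

omit [Fintype I] [DecidableEq I] in
lemma pr_apply (k : ℕ) (y : List I → Ω) (l : List I) :
    pr I Ω k y l = if l.length = k then y l else 0 := by
  rw [pr, LinearMap.pi_apply]
  split_ifs <;> simp

lemma pr_Lam (Φ : I → MvPolynomial I Ω) (K : Finset I) (x : I → Ω) (d k : ℕ)
    {f : MvPolynomial I Ω} (hf : f ∈ mx x ^ (k + 1)) : pr I Ω k (Lam Φ K x d f) = 0 := by
  funext l
  rw [pr_apply, Lam_apply]
  split_ifs with h1 h2
  · exact eval_Dl_eq_zero Φ K x l (k + 1) f h2.2 (by omega) (Ideal.mem_sup_right hf)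
  · rfl
  · rfl

end RankB

open RankB

variable {I A Ω : Type} [Fintype I] [DecidableEq I] [Fintype A] [Field Ω] [CharZero Ω]

theorem rank_of_closure (F : A → MvPolynomial I Ω) (hF : LinearIndependent Ω F) (d : ℕ)
    (hd : ∀ a, (F a).totalDegree ≤ d) (x : I → Ω)
    (hcl : ∀ k ≤ d, ∀ f ∈ Submodule.span Ω (Set.range F), f ∈ mx x ^ k → ∀ v : I,
      ∃ f' ∈ Submodule.span Ω (Set.range F), f' - pderiv v f ∈ mx x ^ k)
    (Φ : I → MvPolynomial I Ω) (K : Finset I) (hdet : eval x (jac Φ).det ≠ 0)
    (T : Finset (I →₀ ℕ)) (hT : ∀ α : I →₀ ℕ, α.degree ≤ d → (∀ u, u ∉ K → α u = 0) → α ∈ T)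
    (ρ : ℕ) (G : A → MvPolynomial I Ω) (g : Fin ρ → MvPolynomial I Ω)
    (hG : ∀ a, F a ∈ Submodule.span Ω (Set.range G) ⊔ Submodule.span Ω (Set.range g))
    (h0 : ∀ (a : A) (l : List I), l.length ≤ d → (∀ w ∈ l, w ∉ K) →
      eval x (Dl Φ l (G a)) = 0) :
    Fintype.card A ≤ T.card * ρ := by
  classical
  set W := Submodule.span Ω (Set.range F) with hW
  have : FiniteDimensional Ω W := FiniteDimensional.span_of_finite Ω (Set.finite_range F)
  let Wk : ℕ → Submodule Ω (MvPolynomial I Ω) := fun k => W ⊓ (mx x ^ k).restrictScalars Ω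
  have hWk : ∀ k f, f ∈ Wk k ↔ f ∈ W ∧ f ∈ mx x ^ k := fun k f => Iff.rfl
  have : ∀ k, FiniteDimensional Ω (Wk k) := fun k => Submodule.finiteDimensional_inf_left _ _
  let U : ℕ → Submodule Ω (List I → Ω) := fun k => (Wk k).map (Lam Φ K x d)
  let R : ℕ → Submodule Ω (List I → Ω) := fun k => (U k).map (pr I Ω k)
  let r : ℕ → ℕ := fun k => Module.finrank Ω (R k)
  have hW0 : Wk 0 = W := by
    ext f
    simp [hWk]
  have hWd : Wk (d + 1) = ⊥ := by
    rw [eq_bot_iff]
    intro f hf
    have h1 : W ≤ restrictTotalDegree I Ω d := by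
      rw [hW, Submodule.span_le]
      rintro _ ⟨a, rfl⟩
      exact (mem_restrictTotalDegree _ _ _).2 (hd a)
    exact eq_zero_of_mem x ((mem_restrictTotalDegree _ _ _).1 (h1 hf.1)) hf.2
  -- the ranks of the graded pieces add up to at most the rank of all jets
  have hdown : ∀ m, ∑ k ∈ Finset.range m, r k + Module.finrank Ω (U m) ≤
      Module.finrank Ω (U 0) := by
    intro m
    induction m with
    | zero => simp
    | succ m ih =>
      have h1 : r m + Module.finrank Ω (U (m + 1)) ≤ Module.finrank Ω (U m) := by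
        refine step_down (U m) (U (m + 1)) (pr I Ω m) (Submodule.map_mono fun f hf =>
          ⟨hf.1, Ideal.pow_le_pow_right (Nat.le_succ m) hf.2⟩) ?_
        rintro _ ⟨f, hf, rfl⟩
        exact pr_Lam Φ K x d m hf.2
      rw [Finset.sum_range_succ]
      omega
  have hU0 : Module.finrank Ω (U 0) ≤ ρ := by
    have h1 : U 0 ≤ Submodule.span Ω (Set.range fun i => Lam Φ K x d (g i)) := by
      have h2 : Submodule.span Ω (Set.range G) ≤ LinearMap.ker (Lam Φ K x d) := by
        rw [Submodule.span_le]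
        rintro _ ⟨a, rfl⟩
        show Lam Φ K x d (G a) = 0
        funext l
        rw [Lam_apply]
        split_ifs with h
        · exact h0 a l h.1 h.2
        · rfl
      show (Wk 0).map _ ≤ _
      rw [hW0, hW, Submodule.map_span, Submodule.span_le]
      rintro _ ⟨_, ⟨a, rfl⟩, rfl⟩
      obtain ⟨b, hb, c, hc, e⟩ := Submodule.mem_sup.mp (hG a)
      have h3 := Submodule.mem_map_of_mem (f := Lam Φ K x d) hc
      rw [Submodule.map_span, ← Set.range_comp] at h3
      rw [← e, map_add, LinearMap.mem_ker.mp (h2 hb), zero_add]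
      exact h3
    have := FiniteDimensional.span_of_finite Ω (Set.finite_range fun i => Lam Φ K x d (g i))
    refine (Submodule.finrank_mono h1).trans ?_
    exact (finrank_range_le_card (R := Ω) fun i => Lam Φ K x d (g i)).trans
      (Fintype.card_fin ρ).le
  have hr : ∀ m, ∑ k ∈ Finset.range m, r k ≤ ρ := fun m => by
    have := hdown m
    omega
  -- one step of the filtration by the order of vanishing
  have hup : ∀ k ≤ d, Module.finrank Ω (Wk k) ≤ Module.finrank Ω (Wk (k + 1)) +
      ∑ α ∈ T, if α.degree ≤ k then r (k - α.degree) else 0 := by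
    intro k hk
    have hmem : ∀ α : T.filter (fun α => α.degree ≤ k), ∀ f : Wk k,
        pr I Ω (k - α.1.degree) (Lam Φ K x d (Dl Φ (wd α.1) f)) ∈ R (k - α.1.degree) := by
      intro α f
      have h1 := (Finset.mem_filter.mp α.2).2
      have h2 : k - α.1.degree + (wd α.1).length = k := by rw [length_wd]; omega
      obtain ⟨f', h3, h4, h5⟩ := close_word W x Φ hcl (k - α.1.degree) (wd α.1) f f
        (by omega) f.2.1 (by rw [h2]; exact f.2.2) (by simp)
      have h6 := pr_Lam Φ K x d _ h5
      rw [map_sub, map_sub, sub_eq_zero] at h6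
      rw [h6]
      exact Submodule.mem_map_of_mem (Submodule.mem_map_of_mem ⟨h3, h4⟩)
    have h1 := step_up (Wk k) (Wk (k + 1))
      (M := ∀ α : T.filter (fun α => α.degree ≤ k), R (k - α.1.degree))
      (LinearMap.pi fun α => ((pr I Ω (k - α.1.degree)).comp ((Lam Φ K x d).comp
        ((Dl Φ (wd α.1)).comp (Wk k).subtype))).codRestrict _ (hmem α)) (by
      intro f hf
      refine ⟨f.2.1, ?_⟩
      obtain ⟨P, hP, hQ⟩ := hom_approx x (fun u => Φ u - C (eval x (Φ u)))
        (fun u => sub_C_mem x _) (gen_of_unit x Φ (isUnit_iff_ne_zero.mpr hdet)) k f f.2.2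
      have hP0 : P = 0 := by
        ext γ
        by_cases hγ : γ.degree = k
        swap
        · exact hP.coeff_eq_zero hγ
        have e := Finsupp.filter_add_filter_not γ (fun u => u ∈ K)
        have e1 := congrArg Finsupp.degree e
        rw [map_add, hγ] at e1
        have hα : γ.filter (fun u => u ∈ K) ∈ T.filter (fun α => α.degree ≤ k) :=
          Finset.mem_filter.mpr ⟨hT _ (by omega) fun u hu => Finsupp.filter_apply_neg _ _ hu,
            by omega⟩
        have h2 := congrFun (congrArg Subtype.val (congrFun hf ⟨_, hα⟩))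
          (wd (γ.filter fun u => ¬ u ∈ K))
        have h3 : pr I Ω (k - (γ.filter fun u => u ∈ K).degree)
            (Lam Φ K x d (Dl Φ (wd (γ.filter fun u => u ∈ K)) f))
            (wd (γ.filter fun u => ¬ u ∈ K)) = 0 := h2
        rw [pr_apply, if_pos (by rw [length_wd]; omega), Lam_apply, if_pos
          ⟨by rw [length_wd]; omega, fun w hw hK =>
            mem_wd hw (Finsupp.filter_apply_neg _ _ (not_not.mpr hK))⟩, ← Dl_append] at h3
        have h4 : (wd (γ.filter fun u => u ∈ K) ++ wd (γ.filter fun u => ¬ u ∈ K)).length = k := by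
          rw [List.length_append, length_wd, length_wd, e1]
        have h5 := coeff_of_word Φ x hdet _ P f (by rwa [h4]) (by rwa [h4]) h3
        rwa [cont_append, cont_wd, cont_wd, e] at h5
      rw [hP0, map_zero, sub_zero] at hQ
      exact hQ)
    rw [Module.finrank_pi_fintype, Finset.sum_coe_sort (T.filter fun α => α.degree ≤ k)
      (fun α => Module.finrank Ω (R (k - α.degree))), Finset.sum_filter] at h1
    exact h1
  have hsum : ∀ m ≤ d + 1, Module.finrank Ω (Wk 0) ≤ Module.finrank Ω (Wk m) +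
      ∑ k ∈ Finset.range m, ∑ α ∈ T, if α.degree ≤ k then r (k - α.degree) else 0 := by
    intro m
    induction m with
    | zero => simp
    | succ m ih =>
      intro hm
      have h1 := ih (by omega)
      have h2 := hup m (by omega)
      rw [Finset.sum_range_succ]
      omega
  have h1 := hsum (d + 1) le_rfl
  rw [hW0, hWd, finrank_bot, zero_add, hW, finrank_span_eq_card hF, Finset.sum_comm] at h1
  refine h1.trans ?_
  rw [← smul_eq_mul]
  refine Finset.sum_le_card_nsmul _ _ _ fun α _ => ?_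
  rw [sum_shift]
  exact hr _

end Pool.Agent.Lib.MP_af4c59_nt.H50
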