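import Pool.Agent.Lib.MP_af4c59_nt.H50Defs

/-!
A large space of invariant integer polynomials with prescribed vanishing coefficients in
finitely many coordinate systems.
-/

namespace Pool.Agent.Lib.MP_af4c59_nt.H50

open MvPolynomial Pool.Agent.Lib.MP_af4c59_nt.H11

variable {I Ω : Type} [Fintype I] [DecidableEq I] [Field Ω] [CharZero Ω]

/-- Exponent vectors in one orbit of the group. -/
def spaceRel (Γ : Subgroup (Equiv.Perm I)) (d : ℕ) : Setoid (Deg I d) where
  r a b := ∃ π ∈ Γ, Finsupp.mapDomain π a.1 = b.1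
  iseqv := by
    refine ⟨fun a => ⟨1, Γ.one_mem, ?_⟩, ?_, ?_⟩
    · exact Finsupp.mapDomain_id
    · rintro a b ⟨π, hπ, h⟩
      refine ⟨π⁻¹, Γ.inv_mem hπ, ?_⟩
      rw [← h, ← Finsupp.mapDomain_comp]
      have : ((π⁻¹ : Equiv.Perm I) : I → I) ∘ π = id := by funext i; simp
      rw [this, Finsupp.mapDomain_id]
    · rintro a b c ⟨π, hπ, h⟩ ⟨ρ, hρ, h'⟩
      refine ⟨ρ * π, Γ.mul_mem hρ hπ, ?_⟩
      rw [← h', ← h, ← Finsupp.mapDomain_comp]
      rfl

omit [DecidableEq I] in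
lemma space_card (Γ : Subgroup (Equiv.Perm I)) (d : ℕ) :
    Fintype.card (Deg I d) ≤ Nat.card Γ * Nat.card (Quotient (spaceRel Γ d)) := by
  have h : ∀ a : Deg I d, ∃ π : Γ,
      Finsupp.mapDomain π.1 (Quotient.mk (spaceRel Γ d) a).out.1 = a.1 := fun a => by
    obtain ⟨π, hπ, h⟩ := Quotient.mk_out (s := spaceRel Γ d) a
    exact ⟨⟨π, hπ⟩, h⟩
  choose f hf using h
  rw [← Nat.card_prod, ← Nat.card_eq_fintype_card]
  refine Nat.card_le_card_of_injective (fun a => (f a, Quotient.mk (spaceRel Γ d) a)) ?_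
  intro a b hab
  have h1 : f a = f b := congrArg Prod.fst hab
  have h2 : Quotient.mk (spaceRel Γ d) a = Quotient.mk (spaceRel Γ d) b := congrArg Prod.snd hab
  apply Subtype.ext
  rw [← hf a, ← hf b, h1, h2]

lemma space_deg (Γ : Subgroup (Equiv.Perm I)) (d : ℕ) (a : Deg I d) :
    (fam Γ d a).totalDegree ≤ d := by
  unfold fam
  refine (totalDegree_finsetSum _ _).trans (Finset.sup_le fun π _ => ?_)
  refine (totalDegree_rename_le _ _).trans ((totalDegree_monomial_le _ _).trans ?_)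
  exact a.2

lemma space_inv (Γ : Subgroup (Equiv.Perm I)) (d : ℕ) (a : Deg I d) {π : Equiv.Perm I}
    (hπ : π ∈ Γ) : rename π (fam Γ d a) = fam Γ d a := by
  classical
  unfold fam
  rw [map_sum]
  refine Fintype.sum_equiv (Equiv.mulLeft (⟨π, hπ⟩ : Γ)) _ _ fun ρ => ?_
  rw [rename_rename]
  rfl

lemma space_coeff_ne (Γ : Subgroup (Equiv.Perm I)) (d : ℕ) {a b : Deg I d}
    (h : ¬ (spaceRel Γ d).r a b) : coeff b.1 (fam Γ d a) = 0 := by
  classical
  unfold fam
  rw [coeff_sum]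
  refine Finset.sum_eq_zero fun π _ => ?_
  rw [rename_monomial, coeff_monomial, if_neg]
  exact fun h' => h ⟨π.1, π.2, h'⟩

lemma space_coeff_self (Γ : Subgroup (Equiv.Perm I)) (d : ℕ) (a : Deg I d) :
    0 < coeff a.1 (fam Γ d a) := by
  classical
  unfold fam
  rw [coeff_sum]
  refine Finset.sum_pos' (fun π _ => ?_) ⟨1, Finset.mem_univ _, ?_⟩
  · rw [rename_monomial, coeff_monomial]
    split_ifs <;> simp
  · rw [rename_monomial, coeff_monomial, if_pos]
    · exact one_pos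
    · exact Finsupp.mapDomain_id

lemma space_indep (Γ : Subgroup (Equiv.Perm I)) (d : ℕ) :
    LinearIndependent Ω fun w : Quotient (spaceRel Γ d) => mp Ω (fam Γ d w.out) := by
  classical
  have : Fintype (Quotient (spaceRel Γ d)) := Fintype.ofFinite _
  rw [Fintype.linearIndependent_iff]
  intro g hg w
  have h1 := congrArg (coeff w.out.1) hg
  rw [coeff_sum, Finset.sum_eq_single w] at h1
  · rw [coeff_smul, coeff_map, coeff_zero, smul_eq_mul, mul_eq_zero] at h1
    refine h1.resolve_right ?_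
    have := (space_coeff_self Γ d w.out).ne'
    simpa using this
  · intro w' _ hw
    rw [coeff_smul, coeff_map, space_coeff_ne, map_zero, smul_zero]
    exact fun h => hw (Quotient.out_equiv_out.1 h)
  · simp

omit [DecidableEq I] [CharZero Ω] in
lemma space_mem {B : Matrix I I Ω} {S : Subalgebra ℤ Ω} (hB : ∀ i k, B i k ∈ S)
    (f : MvPolynomial I ℤ) (β : I →₀ ℕ) : coeff β (sub B (mp Ω f)) ∈ S := by
  have h : (sub B).toRingHom.comp (mp Ω) = (map S.val.toRingHom).comp
      (aeval fun i => ∑ k, C (⟨B i k, hB i k⟩ : S) * X k :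
        MvPolynomial I ℤ →ₐ[ℤ] MvPolynomial I S).toRingHom := by
    refine MvPolynomial.ringHom_ext (fun r => ?_) (fun i => ?_)
    · simp
    · simp [sub]
  have h2 := RingHom.congr_fun h f
  simp only [RingHom.comp_apply, AlgHom.toRingHom_eq_coe, RingHom.coe_coe] at h2
  rw [h2, coeff_map]
  exact Subtype.mem _

omit [CharZero Ω] in
lemma space_adjoin {ζ x : Ω} {n : ℕ} (hn : 0 < n) (hζ : ζ ^ n = 1)
    (hx : x ∈ Algebra.adjoin ℤ ({ζ} : Set Ω)) :
    ∃ v : Fin n → ℤ, ∑ j, (v j : Ω) * ζ ^ (j : ℕ) = x := by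
  rw [Algebra.adjoin_singleton_eq_range_aeval] at hx
  obtain ⟨p, rfl⟩ := hx
  have h : Polynomial.aeval ζ p ∈
      Submodule.span ℤ (Set.range fun j : Fin n => ζ ^ (j : ℕ)) := by
    rw [Polynomial.aeval_eq_sum_range]
    refine Submodule.sum_mem _ fun i _ => Submodule.smul_mem _ _ (Submodule.subset_span ?_)
    exact ⟨⟨i % n, Nat.mod_lt i hn⟩, (pow_eq_pow_mod i hζ).symm⟩
  obtain ⟨v, hv⟩ := (Submodule.mem_span_range_iff_exists_fun ℤ).1 h
  refine ⟨v, ?_⟩
  simpa using hv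

/-- A large independent family in the kernel of an integer matrix. -/
lemma space_kernel {W J : Type} [Fintype W] [Fintype J] (v : W → J → ℤ) :
    ∃ (w : ℕ) (b : Fin w → W → ℤ), LinearIndependent ℤ b ∧
      (∀ a j, ∑ x, b a x * v x j = 0) ∧ Fintype.card W ≤ w + Fintype.card J := by
  let Φ : (W → ℤ) →ₗ[ℤ] (J → ℤ) := Fintype.linearCombination ℤ v
  let e := Module.finBasis ℤ (LinearMap.ker Φ)
  refine ⟨_, fun a => (e a).1, e.linearIndependent.map' (LinearMap.ker Φ).subtype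
    (Submodule.ker_subtype _), fun a j => ?_, ?_⟩
  · have h : (∑ x, (e a).1 x • v x) j = 0 := congrFun (LinearMap.mem_ker.1 (e a).2) j
    rw [Finset.sum_apply] at h
    exact h
  · have h1 := Submodule.finrank_quotient_add_finrank (LinearMap.ker Φ)
    rw [Φ.quotKerEquivRange.finrank_eq, Module.finrank_fintype_fun_eq_card] at h1
    have h2 := (LinearMap.range Φ).finrank_le
    rw [Module.finrank_fintype_fun_eq_card] at h2
    omega

theorem exists_space (Γ : Subgroup (Equiv.Perm I)) (d : ℕ) {κ : Type} [Fintype κ]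
    (B : κ → Matrix I I Ω) (ζ : κ → Ω) (n : κ → ℕ) (hn : ∀ q, 0 < n q)
    (hζ : ∀ q, ζ q ^ n q = 1) (hB : ∀ q i k, B q i k ∈ Algebra.adjoin ℤ ({ζ q} : Set Ω))
    (Bad : κ → Finset (I →₀ ℕ)) :
    ∃ (w : ℕ) (F : Fin w → MvPolynomial I ℤ), (∀ a, (F a).totalDegree ≤ d) ∧
      (∀ a, ∀ π ∈ Γ, rename π (F a) = F a) ∧ LinearIndependent Ω (fun a => mp Ω (F a)) ∧
      (∀ a q, ∀ β ∈ Bad q, coeff β (sub (B q) (mp Ω (F a))) = 0) ∧
      Fintype.card (Deg I d) ≤ Nat.card Γ * (w + ∑ q, n q * (Bad q).card) := by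
  classical
  have : Fintype (Quotient (spaceRel Γ d)) := Fintype.ofFinite _
  have hv : ∀ (x : Quotient (spaceRel Γ d)) (q : κ) (β : I →₀ ℕ), ∃ v : Fin (n q) → ℤ,
      ∑ j, (v j : Ω) * ζ q ^ (j : ℕ) = coeff β (sub (B q) (mp Ω (fam Γ d x.out))) :=
    fun x q β => space_adjoin (hn q) (hζ q) (space_mem (hB q) _ β)
  choose v hv using hv
  obtain ⟨w, b, hb1, hb2, hb3⟩ := space_kernel (J := Σ q : κ, Fin (n q) × Bad q)
    (fun x j => v x j.1 j.2.2.1 j.2.1)
  have hmp : ∀ a, mp Ω (∑ x, C (b a x) * fam Γ d x.out) =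
      ∑ x, (b a x : Ω) • mp Ω (fam Γ d x.out) := fun a => by
    rw [map_sum]
    refine Finset.sum_congr rfl fun x _ => ?_
    rw [map_mul, map_C, smul_eq_C_mul]
    rfl
  refine ⟨w, fun a => ∑ x, C (b a x) * fam Γ d x.out, fun a => ?_, fun a π hπ => ?_, ?_,
    fun a q β hβ => ?_, ?_⟩
  · refine (totalDegree_finsetSum _ _).trans (Finset.sup_le fun x _ => ?_)
    refine (totalDegree_mul _ _).trans ?_
    rw [totalDegree_C, zero_add]
    exact space_deg Γ d _
  · rw [map_sum]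
    refine Finset.sum_congr rfl fun x _ => ?_
    rw [map_mul, rename_C, space_inv Γ d _ hπ]
  · have h1 : LinearIndependent Ω fun a => algebraMap ℤ Ω ∘ b a :=
      linearIndependent_algebraMap_comp_iff.2 hb1
    have h2 := h1.map' (Fintype.linearCombination Ω fun x : Quotient (spaceRel Γ d) =>
      mp Ω (fam Γ d x.out)) (LinearMap.ker_eq_bot.2
        (space_indep Γ d).fintypeLinearCombination_injective)
    have h3 : (fun a => mp Ω (∑ x, C (b a x) * fam Γ d x.out)) =
        (Fintype.linearCombination Ω fun x : Quotient (spaceRel Γ d) =>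
          mp Ω (fam Γ d x.out)) ∘ fun a => algebraMap ℤ Ω ∘ b a := by
      funext a
      rw [hmp]
      simp [Fintype.linearCombination_apply]
    rw [h3]
    exact h2
  · rw [hmp, map_sum, coeff_sum]
    simp only [map_smul, coeff_smul, smul_eq_mul, ← hv, Finset.mul_sum]
    rw [Finset.sum_comm]
    refine Finset.sum_eq_zero fun j _ => ?_
    have h := hb2 a ⟨q, j, ⟨β, hβ⟩⟩
    have h2 : ((∑ x, b a x * v x q β j : ℤ) : Ω) = 0 := by rw [h, Int.cast_zero]
    push_cast at h2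
    simp only [← mul_assoc]
    rw [← Finset.sum_mul, h2, zero_mul]
  · refine (space_card Γ d).trans (Nat.mul_le_mul_left _ ?_)
    rw [Nat.card_eq_fintype_card]
    simpa [Fintype.card_sigma] using hb3

end Pool.Agent.Lib.MP_af4c59_nt.H50
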