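import Pool.Agent.Lib.MP_af4c59_nt.H50RankA
import Pool.Agent.Lib.MP_af4c59_nt.H50RankB
import Pool.Agent.Lib.MP_af4c59_nt.H50Eig
import Pool.Agent.Lib.MP_af4c59_nt.H50Conc
import Pool.Agent.Lib.MP_af4c59_nt.H50Space

/-!
The weighted family: invariant, of high weight at every tame inertia datum, of low archimedean
weight, and of large rank on germs at generic points.
-/

namespace Pool.Agent.Lib.MP_af4c59_nt.H50

open MvPolynomial Pool.Agent.Lib.MP_af4c59_nt.H11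

variable {I Ω : Type} [Fintype I] [DecidableEq I] [Field Ω] [CharZero Ω]

lemma bad_le {Λ b M : ℕ} (hb : 4 ≤ b) (hM : b ^ 2 * Λ ≤ M) (u : I → ℝ) (hu : ∀ k, |u k| ≤ 1)
    (hs : ∑ k, u k ^ 2 ≤ M) (S : Finset (I →₀ ℕ))
    (hS : ∀ β ∈ S, β.degree ≤ 31 * Fintype.card I ∧
      31 * ∑ k, u k + 868 * (M : ℝ) / b ≤ ∑ k, u k * β k) :
    S.card * 31 ^ (31 * Fintype.card I) * 2 ^ (19 * Λ) ≤
      32 ^ (31 * Fintype.card I + Fintype.card I) := by
  have hb' : (4 : ℝ) ≤ b := by exact_mod_cast hb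
  have h1 := conc 31 (by norm_num) u hu M 28 b hs hb' S (fun β hβ => ⟨(hS β hβ).1, by
    have := (hS β hβ).2
    push_cast
    calc _ = 31 * ∑ k, u k + 868 * (M : ℝ) / b := by ring
      _ ≤ _ := this⟩)
  have h2 : Real.exp (-((28 - 9) * (M : ℝ) / (b : ℝ) ^ 2)) * 2 ^ (19 * Λ) ≤ 1 := by
    have h3 : (2 : ℝ) ^ (19 * Λ) ≤ Real.exp ((19 * Λ : ℕ) : ℝ) := by
      rw [← mul_one ((19 * Λ : ℕ) : ℝ), Real.exp_nat_mul]
      refine pow_le_pow_left₀ (by norm_num) ?_ _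
      have := Real.add_one_le_exp 1
      linarith
    refine (mul_le_mul_of_nonneg_left h3 (Real.exp_pos _).le).trans ?_
    rw [← Real.exp_add, Real.exp_le_one_iff]
    have h4 : ((b : ℝ) ^ 2 * Λ) ≤ M := by exact_mod_cast hM
    have h5 : (Λ : ℝ) ≤ M / (b : ℝ) ^ 2 := by
      rw [le_div_iff₀ (by positivity)]; linarith
    push_cast
    rw [mul_div_assoc]
    linarith
  have h6 : (S.card : ℝ) * 31 ^ (31 * Fintype.card I) * 2 ^ (19 * Λ) ≤
      32 ^ (31 * Fintype.card I + Fintype.card I) := by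
    have h7 : (1 + ((31 : ℕ) : ℝ)) = 32 := by norm_num
    rw [h7] at h1
    calc _ ≤ 32 ^ (31 * Fintype.card I + Fintype.card I) *
          Real.exp (-((28 - 9) * (M : ℝ) / (b : ℝ) ^ 2)) * 2 ^ (19 * Λ) :=
          mul_le_mul_of_nonneg_right (by exact_mod_cast h1) (by positivity)
      _ ≤ _ := by
          rw [mul_assoc]
          exact mul_le_of_le_one_right (by positivity) h2
  exact_mod_cast h6

omit [CharZero Ω] in
lemma le_io {π : Equiv.Perm I} {ζ : Ω} {n : ℕ} {B : Matrix I I Ω} {u : I → ℕ}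
    (h : Eig π ζ n B u) {μ : ℕ} (hμ : 2 * μ ≤ π.support.card) : μ ≤ io u := by
  have h1 := h.orb
  have h2 := orb_support π
  omega

lemma bad_tame {Λ b n : ℕ} (hb : 4 ≤ b) (u : I → ℕ) (hn : 0 < n) (hlt : ∀ k, u k < n)
    (hsym : 2 * ∑ k, u k = n * io u) (hM : b ^ 2 * Λ ≤ io u) (S : Finset (I →₀ ℕ))
    (hS : ∀ β ∈ S, β.degree ≤ 31 * Fintype.card I ∧
      2 * b * wt u β < n * (31 * (b - 56) * io u)) :
    S.card * 31 ^ (31 * Fintype.card I) * 2 ^ (19 * Λ) ≤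
      32 ^ (31 * Fintype.card I + Fintype.card I) := by
  have hn' : (0 : ℝ) < n := by exact_mod_cast hn
  have hb' : (4 : ℝ) ≤ b := by exact_mod_cast hb
  have habs : ∀ k, |-((u k : ℝ) / n)| ≤ 1 := by
    intro k
    rw [abs_neg, abs_of_nonneg (by positivity), div_le_one hn']
    exact_mod_cast (hlt k).le
  refine bad_le hb hM (fun k => -((u k : ℝ) / n)) habs ?_ S fun β hβ => ⟨(hS β hβ).1, ?_⟩
  · rw [io, Finset.card_filter]
    push_cast
    refine Finset.sum_le_sum fun k _ => ?_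
    split_ifs with h
    · rw [← sq_abs]; exact pow_le_one₀ (abs_nonneg _) (habs k)
    · simp [not_not.mp h]
  · have h1 := (hS β hβ).2
    have h2 : 56 ≤ b := by
      by_contra h
      rw [show b - 56 = 0 by omega] at h1
      simp at h1
    have h3 : 2 * (b : ℝ) * (wt u β : ℕ) ≤ n * (31 * ((b : ℝ) - 56) * io u) := by
      have : ((b - 56 : ℕ) : ℝ) = b - 56 := by rw [Nat.cast_sub h2]; norm_num
      rw [← this]
      exact_mod_cast h1.le
    have h4 : ∑ k, -((u k : ℝ) / n) = -((io u : ℝ) / 2) := by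
      have : 2 * ∑ k, (u k : ℝ) = n * io u := by exact_mod_cast hsym
      rw [Finset.sum_neg_distrib, ← Finset.sum_div]
      congr 1
      field_simp
      linarith
    have h5 : ∑ k, -((u k : ℝ) / n) * β k = -(((wt u β : ℕ) : ℝ) / n) := by
      rw [wt]
      push_cast
      rw [Finset.sum_div, ← Finset.sum_neg_distrib]
      exact Finset.sum_congr rfl fun k _ => by ring
    rw [h4, h5]
    have h6 : ((wt u β : ℕ) : ℝ) / n ≤ 31 * ((b : ℝ) - 56) * io u / (2 * b) := by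
      rw [div_le_div_iff₀ hn' (by positivity)]; linarith
    have h7 : 31 * ((b : ℝ) - 56) * io u / (2 * b) = 31 * ((io u : ℝ) / 2) - 868 * io u / b := by
      field_simp; ring
    linarith

lemma bad_arch {Λ b : ℕ} (hb : 4 ≤ b) (τ : I → ℕ) (hτ : ∀ k, τ k ≤ 3 * b)
    (hM : b ^ 2 * Λ ≤ Fintype.card I) (S : Finset (I →₀ ℕ))
    (hS : ∀ β ∈ S, β.degree ≤ 31 * Fintype.card I ∧
      31 * ∑ k, τ k + 2604 * Fintype.card I < wt τ β) :
    S.card * 31 ^ (31 * Fintype.card I) * 2 ^ (19 * Λ) ≤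
      32 ^ (31 * Fintype.card I + Fintype.card I) := by
  have hb' : (4 : ℝ) ≤ b := by exact_mod_cast hb
  have habs : ∀ k, |(τ k : ℝ) / (3 * b)| ≤ 1 := by
    intro k
    rw [abs_of_nonneg (by positivity), div_le_one (by positivity)]
    exact_mod_cast hτ k
  refine bad_le hb hM (fun k => (τ k : ℝ) / (3 * b)) habs ?_ S fun β hβ => ⟨(hS β hβ).1, ?_⟩
  · refine (Finset.sum_le_card_nsmul _ _ 1 fun k _ => ?_).trans (by simp)
    rw [← sq_abs]; exact pow_le_one₀ (abs_nonneg _) (habs k)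
  · have h1 : 31 * ∑ k, (τ k : ℝ) + 2604 * Fintype.card I ≤ (wt τ β : ℕ) := by
      exact_mod_cast (hS β hβ).2.le
    have h5 : ∑ k, (τ k : ℝ) / (3 * b) * β k = ((wt τ β : ℕ) : ℝ) / (3 * b) := by
      rw [wt]
      push_cast
      rw [Finset.sum_div]
      exact Finset.sum_congr rfl fun k _ => by ring
    rw [h5, ← Finset.sum_div, le_div_iff₀ (by positivity)]
    refine le_trans (le_of_eq ?_) h1
    field_simp
    ring

theorem exists_fam (Γ : Subgroup (Equiv.Perm I)) (μ Λ b : ℕ)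
    (hμ : ∀ π ∈ Γ, π ≠ 1 → 2 * μ ≤ π.support.card) (hμN : 2 * μ ≤ Fintype.card I)
    (hΓ : Nat.card Γ ≤ 2 ^ Λ) (hN : Fintype.card I ≤ 2 ^ Λ) (hΛ : 1 ≤ Λ) (hb : 4 ≤ b)
    (hbμ : b ^ 2 * Λ ≤ μ) (B : Cond Ω Γ → Matrix I I Ω) (u : Cond Ω Γ → I → ℕ)
    (hE : ∀ q, Eig q.1.1 q.1.2 (orderOf q.1.2) (B q) (u q)) (B0 : Matrix I I Ω)
    (hB0 : ∀ i k, B0 i k ∈ Algebra.adjoin ℤ ({-1} : Set Ω)) (τ : I → ℕ)
    (hτ : ∀ k, τ k ≤ 3 * b) :
    ∃ (w : ℕ) (F : Fin w → MvPolynomial I ℤ) (Θ : MvPolynomial I Ω),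
      (∀ a, (F a).totalDegree ≤ 31 * Fintype.card I) ∧
      (∀ a, ∀ π ∈ Γ, rename π (F a) = F a) ∧
      (∀ a q, ∀ β ∈ (sub (B q) (mp Ω (F a))).support,
        orderOf q.1.2 * (31 * (b - 56) * io (u q)) ≤ 2 * b * wt (u q) β) ∧
      (∀ a, ∀ β ∈ (sub B0 (mp Ω (F a))).support,
        wt τ β ≤ 31 * ∑ k, τ k + 2604 * Fintype.card I) ∧
      Θ ≠ 0 ∧ ∀ x : I → Ω, eval x Θ ≠ 0 → RK F (31 * Fintype.card I) (2 * Λ + 11) x := by
  classical
  have := Fintype.ofFinite (Cond Ω Γ)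
  set N := Fintype.card I with hNdef
  set d := 31 * N with hd
  set Z := 32 ^ (d + N) with hZ
  have hn0 : 0 < Nat.card Γ := Nat.card_pos
  have hord : ∀ q : Cond Ω Γ, 0 < orderOf q.1.2 := fun q =>
    (isOfFinOrder_iff_pow_eq_one.mpr ⟨_, hn0, q.2.2.2.1⟩).orderOf_pos
  have hord' : ∀ q : Cond Ω Γ, orderOf q.1.2 ≤ Nat.card Γ := fun q =>
    orderOf_le_of_pow_eq_one hn0 q.2.2.2.1
  let All : Finset (I →₀ ℕ) := (Finsupp.finite_of_degree_le d).toFinset
  have hAll : ∀ β, β ∈ All ↔ β.degree ≤ d := fun β => by simp [All]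
  let Bad : Option (Cond Ω Γ) → Finset (I →₀ ℕ) := fun o => o.elim
    (All.filter fun β => 31 * ∑ k, τ k + 2604 * N < wt τ β) fun q =>
    All.filter fun β => 2 * b * wt (u q) β < orderOf q.1.2 * (31 * (b - 56) * io (u q))
  let n : Option (Cond Ω Γ) → ℕ := fun o => o.elim 2 fun q => orderOf q.1.2
  obtain ⟨w, F, h1, h2, h3, h4, h5⟩ := exists_space (Ω := Ω) Γ d (fun o => o.elim B0 B)
    (fun o => o.elim (-1) fun q => q.1.2) n
    (by rintro (_ | q); exacts [two_pos, hord q])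
    (by rintro (_ | q); exacts [by simp [n], pow_orderOf_eq_one _])
    (by rintro (_ | q); exacts [hB0, (hE q).mem]) Bad
  have hbad : ∀ o, (Bad o).card * 31 ^ d * 2 ^ (19 * Λ) ≤ Z := by
    rintro (_ | q)
    · exact bad_arch hb τ hτ (by omega) _ fun β hβ =>
        ⟨(hAll β).mp (Finset.mem_filter.mp hβ).1, (Finset.mem_filter.mp hβ).2⟩
    · exact bad_tame hb (u q) (hord q) (hE q).lt (hE q).sym
        (hbμ.trans (le_io (hE q) (hμ _ q.2.1 q.2.2.1))) _ fun β hβ =>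
        ⟨(hAll β).mp (Finset.mem_filter.mp hβ).1, (Finset.mem_filter.mp hβ).2⟩
  set y := 2 ^ Λ with hy
  have hy2 : 2 ≤ y := Nat.le_self_pow (by omega) 2
  have hsum : (∑ o, n o * (Bad o).card) * 31 ^ d * 2 ^ (19 * Λ) ≤ 2 * y ^ 3 * Z := by
    rw [Finset.sum_mul, Finset.sum_mul]
    refine (Finset.sum_le_card_nsmul _ _ (y * Z) fun o _ => ?_).trans ?_
    · have h6 : n o ≤ y := by
        rcases o with _ | q
        · exact hy2
        · exact (hord' q).trans hΓ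
      rw [mul_assoc, mul_assoc, ← mul_assoc (Bad o).card]
      exact Nat.mul_le_mul h6 (hbad o)
    · have h6 := card_cond (Ω := Ω) Γ
      rw [Nat.card_eq_fintype_card] at h6
      have h7 : Nat.card Γ ^ 2 ≤ y ^ 2 := Nat.pow_le_pow_left hΓ _
      have h8 : 1 ≤ y ^ 2 := Nat.one_le_pow _ _ (by omega)
      rw [smul_eq_mul, Finset.card_univ, Fintype.card_option]
      calc _ ≤ (2 * y ^ 2) * (y * Z) := Nat.mul_le_mul_right _ (by omega)
        _ = _ := by ring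
  have hw : Z ≤ 4096 * y ^ 2 * 31 ^ d * w := by
    have h6 := card_lower (I := I) 31
    rw [← hNdef, ← hd] at h6
    have h7 : Z ≤ 2048 * y ^ 2 * 31 ^ d * (w + ∑ o, n o * (Bad o).card) := by
      calc Z ≤ (d + N + 1) * (1 + 31) * 31 ^ d * Fintype.card (Deg I d) := h6
        _ ≤ (64 * y) * (1 + 31) * 31 ^ d * (y * (w + ∑ o, n o * (Bad o).card)) :=
          Nat.mul_le_mul (Nat.mul_le_mul_right _ (Nat.mul_le_mul_right _ (by omega)))
            (h5.trans (Nat.mul_le_mul_right _ hΓ))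
        _ = _ := by ring
    have h8 : 2 ^ (19 * Λ) = y ^ 19 := by rw [hy, ← pow_mul, mul_comm]
    rw [h8] at hsum
    have h9 : 8192 * y ^ 5 ≤ y ^ 19 := by
      calc 8192 * y ^ 5 ≤ 2 ^ 14 * y ^ 5 := Nat.mul_le_mul_right _ (by norm_num)
        _ ≤ y ^ 14 * y ^ 5 := Nat.mul_le_mul_right _ (Nat.pow_le_pow_left hy2 _)
        _ = _ := by ring
    have h10 : 2 * (Z * y ^ 19) ≤ 4096 * y ^ 2 * 31 ^ d * w * y ^ 19 + Z * y ^ 19 := by
      calc 2 * (Z * y ^ 19)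
          ≤ 2 * (2048 * y ^ 2 * 31 ^ d * (w + ∑ o, n o * (Bad o).card) * y ^ 19) :=
            Nat.mul_le_mul_left _ (Nat.mul_le_mul_right _ h7)
        _ = 4096 * y ^ 2 * 31 ^ d * w * y ^ 19
            + 4096 * y ^ 2 * ((∑ o, n o * (Bad o).card) * 31 ^ d * y ^ 19) := by ring
        _ ≤ 4096 * y ^ 2 * 31 ^ d * w * y ^ 19 + 4096 * y ^ 2 * (2 * y ^ 3 * Z) :=
            Nat.add_le_add_left (Nat.mul_le_mul_left _ hsum) _
        _ = 4096 * y ^ 2 * 31 ^ d * w * y ^ 19 + Z * (8192 * y ^ 5) := by ring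
        _ ≤ _ := Nat.add_le_add_left (Nat.mul_le_mul_left _ h9) _
    exact Nat.le_of_mul_le_mul_right (c := y ^ 19) (by omega) (by positivity)
  have hdeg : ∀ a (M : Matrix I I Ω), ∀ β ∈ (sub M (mp Ω (F a))).support, β ∈ All :=
    fun a M β hβ => (hAll β).mpr ((le_totalDegree hβ).trans ((totalDegree_sub_le _ _).trans
      ((Setup.totalDegree_mp_le _).trans (h1 a))))
  choose Θ hΘ1 hΘ2 using fun k => closure_generic (fun a => mp Ω (F a)) k
  refine ⟨w, F, ∏ k ∈ Finset.range (d + 1), Θ k, h1, h2, fun a q β hβ => ?_, fun a β hβ => ?_,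
    Finset.prod_ne_zero_iff.mpr fun k _ => hΘ1 k, fun x hx Φ K hdet hK ρ hρ G g hG => ?_⟩
  · by_contra h
    exact mem_support_iff.mp hβ (h4 a (some q) β
      (Finset.mem_filter.mpr ⟨hdeg a _ β hβ, not_le.mp h⟩))
  · by_contra h
    exact mem_support_iff.mp hβ (h4 a none β
      (Finset.mem_filter.mpr ⟨hdeg a _ β hβ, not_le.mp h⟩))
  · by_contra hcon
    push Not at hcon
    rw [map_prod, Finset.prod_ne_zero_iff] at hx
    let T := All.filter fun α => ∀ v, v ∉ K → α v = 0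
    have h6 := rank_of_closure (fun a => mp Ω (F a)) h3 d
      (fun a => (Setup.totalDegree_mp_le _).trans (h1 a)) x
      (fun k hk => hΘ2 k x (hx k (Finset.mem_range.mpr (by omega)))) Φ K hdet T
      (fun α h7 h8 => Finset.mem_filter.mpr ⟨(hAll α).mpr h7, h8⟩) ρ G g hG hcon
    rw [Fintype.card_fin] at h6
    have h7 := card_supp 31 d K T fun β hβ =>
      ⟨(hAll β).mp (Finset.mem_filter.mp hβ).1, (Finset.mem_filter.mp hβ).2⟩
    have h8 : 0 < T.card :=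
      Finset.card_pos.mpr ⟨0, Finset.mem_filter.mpr ⟨(hAll 0).mpr (by simp), by simp⟩⟩
    have h9 : T.card * 31 ^ d * 32 ^ Kᶜ.card ≤ T.card * 31 ^ d * (4096 * y ^ 2 * ρ) := by
      calc _ ≤ Z := h7
        _ ≤ 4096 * y ^ 2 * 31 ^ d * w := hw
        _ ≤ 4096 * y ^ 2 * 31 ^ d * (T.card * ρ) := Nat.mul_le_mul_left _ h6
        _ = _ := by ring
    have h10 := Nat.le_of_mul_le_mul_left h9 (by positivity)
    have h11 : 4096 * y ^ 2 ≤ 2 ^ Kᶜ.card := by
      calc 4096 * y ^ 2 = 2 ^ (2 * Λ + 12) := by rw [hy, pow_add, ← pow_mul]; ring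
        _ ≤ _ := Nat.pow_le_pow_right (by norm_num) (by omega)
    have h12 : 32 ^ Kᶜ.card = 2 ^ Kᶜ.card * 16 ^ Kᶜ.card := by rw [← mul_pow]; norm_num
    have h13 : 4096 * y ^ 2 * ρ < 2 ^ Kᶜ.card * 16 ^ Kᶜ.card :=
      lt_of_le_of_lt (Nat.mul_le_mul_right _ h11)
        (Nat.mul_lt_mul_of_pos_left hρ (by positivity))
    omega

end Pool.Agent.Lib.MP_af4c59_nt.H50
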