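import Pool.Agent.Lib.MP_af4c59_nt.H50Defs

/-!
Invariants span all jets at generic points; values of invariants are integers.
-/

namespace Pool.Agent.Lib.MP_af4c59_nt.H50

open MvPolynomial Pool.Agent.Lib.MP_af4c59_nt.H11

variable {I Ω : Type} [Fintype I] [DecidableEq I] [Field Ω] [CharZero Ω]

omit [CharZero Ω] in
open Classical in
lemma jets_sum_mem (Γ : Subgroup (Equiv.Perm I)) {T : ℕ} {V : MvPolynomial I Ω}
    (hV : V.totalDegree ≤ T) :
    (∑ π : Γ, rename π.1 V) ∈ Submodule.span Ω (Set.range fun a => mp Ω (fam Γ T a)) := by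
  have h : (∑ π : Γ, rename π.1 V) = ∑ μ ∈ V.support,
      V.coeff μ • ∑ π : Γ, rename π.1 (monomial μ (1 : Ω)) := by
    conv_lhs => rw [V.as_sum]
    simp only [map_sum, Finset.smul_sum]
    rw [Finset.sum_comm]
    refine Finset.sum_congr rfl fun μ _ => Finset.sum_congr rfl fun π _ => ?_
    rw [← map_smul, smul_monomial]
    simp
  rw [h]
  refine Submodule.sum_mem _ fun μ hμ => Submodule.smul_mem _ _ (Submodule.subset_span
    ⟨⟨μ, (le_totalDegree hμ).trans hV⟩, ?_⟩)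
  simp only [fam, map_sum, map_rename, map_monomial, map_one]

omit [CharZero Ω] in
lemma jets_span (Γ : Subgroup (Equiv.Perm I)) (x : I → Ω) {j T : ℕ}
    (hT : 2 * j + Fintype.card I ≤ T) (hI : Itp (fun q : Γ × I => x (q.1.1 q.2)) j)
    (P : MvPolynomial I Ω) :
    ∃ Q ∈ Submodule.span Ω (Set.range fun a => mp Ω (fam Γ T a)),
      P - Q ∈ mx x ^ (j + 1) := by
  classical
  obtain ⟨V, hV1, hV2⟩ := hI fun π => if π = 1 then P else 0
  refine ⟨_, jets_sum_mem Γ (hV1.trans hT), ?_⟩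
  have hsum : P = ∑ π : Γ, if π = 1 then P else 0 := by simp
  rw [hsum, ← Finset.sum_sub_distrib]
  refine Submodule.sum_mem _ fun π _ => ?_
  have h1 := map_mem_pow (rename π.1 : MvPolynomial I Ω →ₐ[Ω] _).toRingHom _ (mx x)
    (fun p => by simpa using X_sub_mem x (π.1 p)) (hV2 π)
  have h2 := neg_mem h1
  convert h2 using 1
  simp only [AlgHom.toRingHom_eq_coe, RingHom.coe_coe, map_sub, neg_sub]
  congr 1
  split_ifs with h
  · subst h; simp
  · simp

theorem jets_generic (Γ : Subgroup (Equiv.Perm I)) (χ : I → Bool)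
    (hχ : ∀ π ∈ Γ, (∀ i, χ (π i) = χ i) → π = 1) (j T : ℕ) (hT : 2 * j + Fintype.card I ≤ T) :
    ∃ Θ : MvPolynomial I Ω, Θ ≠ 0 ∧ ∀ x : I → Ω, eval x Θ ≠ 0 → Function.Injective x ∧
      ∀ P : MvPolynomial I Ω, ∃ Q ∈ Submodule.span Ω (Set.range fun a => mp Ω (fam Γ T a)),
        P - Q ∈ mx x ^ (j + 1) := by
  classical
  let y0 : I → Ω := fun i => if χ i then 1 else 0
  let c : Γ → I → Ω := fun π i => y0 (π.1 i)
  have hc : Function.Injective c := by
    intro π π' h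
    have h1 : ∀ i, χ (π.1 i) = χ (π'.1 i) := by
      intro i
      have := congrFun h i
      simp only [c, y0] at this
      cases h1 : χ (π.1 i) <;> cases h2 : χ (π'.1 i) <;> simp_all
    have h2 := hχ (π.1 * π'.1⁻¹) (Γ.mul_mem π.2 (Γ.inv_mem π'.2)) (fun i => by
      rw [Equiv.Perm.mul_apply, h1]; simp)
    exact Subtype.ext (mul_inv_eq_one.mp h2)
  obtain ⟨Θ, h1, h2⟩ := H88.generic_at c hc (fun π p => by
    simp only [c, y0]; split_ifs <;> simp) j
  let f : Γ × I → I := fun q => q.1.1 q.2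
  refine ⟨rename f Θ * ∏ q ∈ (Finset.univ : Finset I).offDiag, (X q.1 - X q.2),
    mul_ne_zero (fun h => h1 ?_)
      (Finset.prod_ne_zero_iff.mpr fun q hq => ?_), fun y hy => ?_⟩
  · have := congrArg (eval y0) h
    rwa [eval_rename, map_zero] at this
  · rw [sub_ne_zero]
    intro h
    exact (Finset.mem_offDiag.mp hq).2.2 (X_injective h)
  · rw [map_mul, map_prod] at hy
    refine ⟨fun i i' h => ?_, jets_span Γ y hT (h2 _ ?_)⟩
    · by_contra hne
      have := Finset.prod_ne_zero_iff.mp (right_ne_zero_of_mul hy) (i, i')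
        (Finset.mem_offDiag.mpr ⟨Finset.mem_univ _, Finset.mem_univ _, hne⟩)
      simp only [map_sub, eval_X] at this
      exact this (sub_eq_zero.mpr h)
    · have := left_ne_zero_of_mul hy
      rwa [eval_rename] at this

theorem inv_int [IsGalois ℚ Ω] (Γ : Subgroup (Equiv.Perm I)) (x : I → Ω)
    (h1 : ∀ i, IsIntegral ℤ (x i)) (h2 : ∀ g : Ω ≃ₐ[ℚ] Ω, ∃ π ∈ Γ, ∀ i, g (x i) = x (π i))
    (f : MvPolynomial I ℤ) (hf : ∀ π ∈ Γ, rename π f = f) : ∃ m : ℤ, (m : Ω) = aeval x f := by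
  refine int_of_fixed (isIntegral_aeval h1 f) fun g => ?_
  obtain ⟨π, hπ, h⟩ := h2 g
  have e1 := ringHom_aeval (g : Ω →+* Ω) x f
  simp only [RingHom.coe_coe, h] at e1
  rw [e1]
  conv_rhs => rw [← hf π hπ, aeval_rename]
  rfl

theorem fam_int [IsGalois ℚ Ω] (Γ : Subgroup (Equiv.Perm I)) (ε : Ω →+* ℂ) {H T : ℕ}
    (hH : 1 ≤ H) (x : I → Ω) (h1 : ∀ i, IsIntegral ℤ (x i)) (h3 : ∀ i, ‖ε (x i)‖ ≤ H)
    (h2 : ∀ g : Ω ≃ₐ[ℚ] Ω, ∃ π ∈ Γ, ∀ i, g (x i) = x (π i)) (a : Deg I T) :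
    ∃ m : ℤ, (m : Ω) = aeval x (fam Γ T a) ∧ m.natAbs ≤ Nat.card Γ * H ^ T := by
  classical
  obtain ⟨n, hn⟩ := inv_int Γ x h1 h2 (fam Γ T a) (by
    intro π' hπ'
    rw [fam, map_sum]
    conv_rhs => rw [← Equiv.sum_comp (Equiv.mulLeft (⟨π', hπ'⟩ : Γ))]
    refine Finset.sum_congr rfl fun π _ => ?_
    rw [rename_rename]; rfl)
  refine ⟨n, hn, natAbs_le_of_norm ε ?_⟩
  rw [hn, fam, map_sum, map_sum]
  refine (norm_sum_le _ _).trans ((Finset.sum_le_card_nsmul _ _ ((H : ℝ) ^ T)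
    fun π _ => ?_).trans (le_of_eq ?_))
  · rw [aeval_rename, ringHom_aeval]
    exact norm_aeval_monomial _ _ (by exact_mod_cast hH) (fun p => h3 _) _ a.2
  · simp

end Pool.Agent.Lib.MP_af4c59_nt.H50
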