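import Pool.Agent.Lib.MP_af4c59_nt.H50Tame
import Pool.Agent.Lib.MP_af4c59_nt.H50Eig

/-!
Divisibility of the values of weighted polynomials at tame primes.
-/

namespace Pool.Agent.Lib.MP_af4c59_nt.H50

open NumberField MvPolynomial Pool.Agent.Lib.MP_af4c59_nt.H11

section Val

variable {I Ω : Type} [Fintype I] [DecidableEq I] [Field Ω]

/-- An integer prime to `p` has valuation one. -/
lemma val_int_one (O : ValuationSubring Ω) {p : ℕ} (hp : p.Prime)
    (hv : O.valuation (p : Ω) < 1) {y : ℤ} (hy : ¬ (p : ℤ) ∣ y) : O.valuation (y : Ω) = 1 := by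
  have hle : ∀ z : ℤ, O.valuation (z : Ω) ≤ 1 := fun z =>
    (O.valuation_le_one_iff _).2 (intCast_mem O z)
  refine le_antisymm (hle y) (not_lt.1 fun h => ?_)
  have hc : IsCoprime (p : ℤ) y :=
    (Irreducible.coprime_iff_not_dvd (Nat.prime_iff_prime_int.1 hp).irreducible).2 hy
  obtain ⟨a, b, hab⟩ := hc
  have h1 : (a : Ω) * (p : Ω) + (b : Ω) * (y : Ω) = 1 := by exact_mod_cast congrArg (Int.cast (R := Ω)) hab
  have h2 : O.valuation ((a : Ω) * (p : Ω)) < 1 := by
    rw [map_mul]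
    exact lt_of_le_of_lt (mul_le_of_le_one_left' (hle a)) hv
  have h3 : O.valuation ((b : Ω) * (y : Ω)) < 1 := by
    rw [map_mul]
    exact lt_of_le_of_lt (mul_le_of_le_one_left' (hle b)) h
  have h4 := Valuation.map_add_lt O.valuation h2 h3
  rw [h1, map_one] at h4
  exact lt_irrefl _ h4

/-- Row bounds give a bound for the determinant. -/
lemma val_det_le (O : ValuationSubring Ω) (γ : O.ValueGroup) (M : Matrix I I Ω) (w : I → ℕ)
    (h : ∀ k i, O.valuation (M k i) ≤ γ ^ w k) : O.valuation M.det ≤ γ ^ ∑ k, w k := by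
  rw [Matrix.det_apply']
  refine Valuation.map_sum_le _ fun σ _ => ?_
  rw [map_mul, map_prod]
  have h1 : O.valuation (((Equiv.Perm.sign σ : ℤˣ) : ℤ) : Ω) ≤ 1 :=
    (O.valuation_le_one_iff _).2 (intCast_mem O _)
  refine (mul_le_of_le_one_left' h1).trans ?_
  rw [← Equiv.sum_comp σ w, ← Finset.prod_pow_eq_pow_sum]
  exact Finset.prod_le_prod' fun i _ => h _ _

/-- An integer of valuation at most that of `p ^ E` is divisible by `p ^ E`. -/
lemma dvd_of_val [CharZero Ω] (O : ValuationSubring Ω) {p : ℕ} (hp : p.Prime)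
    (hv : O.valuation (p : Ω) < 1) (E : ℕ) (δ : ℤ)
    (h : O.valuation (δ : Ω) ≤ O.valuation (p : Ω) ^ E) : (p : ℤ) ^ E ∣ δ := by
  have hm : (p : O) ∈ IsLocalRing.maximalIdeal O := by
    rw [ValuationSubring.valuation_lt_one_iff]
    simpa using hv
  refine dvd_of_mem hp hm E δ ?_
  rw [← map_pow, ValuationSubring.valuation_le_iff] at h
  obtain ⟨a, ha⟩ := h
  rw [Ideal.mem_span_singleton']
  refine ⟨a, Subtype.ext ?_⟩
  simpa using ha

omit [DecidableEq I] in
/-- The coefficients of the substituted polynomial lie in the valuation ring. -/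
lemma coeff_sub_mem (O : ValuationSubring Ω) (B : Matrix I I Ω) (hB : ∀ i k, B i k ∈ O)
    (f : MvPolynomial I ℤ) (β : I →₀ ℕ) : coeff β (sub B (mp Ω f)) ∈ O := by
  have h : sub B (mp Ω f) ∈ (MvPolynomial.map (σ := I) O.subtype).range := by
    induction f using MvPolynomial.induction_on with
    | C a =>
      have : sub B (mp Ω (C a)) = (a : MvPolynomial I Ω) := by
        rw [show (C a : MvPolynomial I ℤ) = (a : MvPolynomial I ℤ) from by simp, map_intCast,
          map_intCast]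
      rw [this]
      exact intCast_mem _ a
    | add f g hf hg =>
      rw [map_add, map_add]
      exact add_mem hf hg
    | mul_X f i hf =>
      rw [map_mul, map_mul]
      refine mul_mem hf ?_
      have : sub B (mp Ω (X i)) = ∑ k, C (B i k) * X k := by simp [sub]
      rw [this]
      refine sum_mem fun k _ => mul_mem ?_ ?_
      · exact ⟨C ⟨B i k, hB i k⟩, by simp⟩
      · exact ⟨X k, by simp⟩
  obtain ⟨g, hg⟩ := h
  rw [← hg, coeff_map]
  exact (coeff β g).2

omit [DecidableEq I] in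
/-- Valuation of a value from the weights of the monomials. -/
lemma val_eval_le (O : ValuationSubring Ω) {γ : O.ValueGroup} (hγ : γ ≤ 1) (u : I → ℕ)
    (y : I → Ω) (hy : ∀ k, O.valuation (y k) ≤ γ ^ u k) (g : MvPolynomial I Ω)
    (hg : ∀ β, coeff β g ∈ O) {w : ℕ} (hw : ∀ β ∈ g.support, w ≤ wt u β) :
    O.valuation (eval y g) ≤ γ ^ w := by
  rw [eval_eq']
  refine Valuation.map_sum_le _ fun β hβ => ?_
  rw [map_mul, map_prod]
  refine (mul_le_of_le_one_left' ((O.valuation_le_one_iff _).2 (hg β))).trans ?_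
  refine le_trans ?_ (pow_le_pow_right_of_le_one' hγ (hw β hβ))
  rw [wt, ← Finset.prod_pow_eq_pow_sum]
  refine Finset.prod_le_prod' fun k _ => ?_
  rw [map_pow, pow_mul]
  exact pow_le_pow_left' (hy k) _

lemma Eig.eig_pow {π : Equiv.Perm I} {ζ : Ω} {n : ℕ} {B : Matrix I I Ω} {u : I → ℕ}
    (E : Eig π ζ n B u) (t : ℕ) (i k : I) : B ((π ^ t) i) k = ζ ^ (u k * t) * B i k := by
  induction t with
  | zero => simp
  | succ t ih =>
    rw [pow_succ', Equiv.Perm.mul_apply, E.eig, ih, Nat.mul_succ, pow_add]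
    ring

/-- The eigen-coordinates as averages over the orbits. -/
lemma Eig.coord {π : Equiv.Perm I} {ζ : Ω} {n : ℕ} {B : Matrix I I Ω} {u : I → ℕ}
    (E : Eig π ζ n B u) (hζ : ζ ≠ 0) (x : I → Ω) (k : I) :
    (n : Ω) * (B⁻¹.mulVec x) k =
      ∑ i, B⁻¹ k i * ∑ t ∈ Finset.range n, ζ⁻¹ ^ (u k * t) * x ((π ^ t) i) := by
  have hu : IsUnit B.det := isUnit_iff_ne_zero.2 E.det
  set y := B⁻¹.mulVec x with hy
  have hx : B.mulVec y = x := by
    rw [hy, Matrix.mulVec_mulVec, Matrix.mul_nonsing_inv _ hu, Matrix.one_mulVec]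
  let z : I → Ω := fun l => (∑ t ∈ Finset.range n, ζ⁻¹ ^ (u k * t) * ζ ^ (u l * t)) * y l
  have h1 : ∀ i, ∑ t ∈ Finset.range n, ζ⁻¹ ^ (u k * t) * x ((π ^ t) i) = B.mulVec z i := by
    intro i
    have h2 : ∀ t : ℕ, x ((π ^ t) i) = ∑ l, ζ ^ (u l * t) * B i l * y l := by
      intro t
      rw [← hx]
      simp only [Matrix.mulVec, dotProduct, E.eig_pow]
    simp only [h2, Matrix.mulVec, dotProduct, z, Finset.mul_sum, Finset.sum_mul]
    rw [Finset.sum_comm]
    refine Finset.sum_congr rfl fun l _ => Finset.sum_congr rfl fun t _ => ?_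
    ring
  have h3 : ∑ i, B⁻¹ k i * B.mulVec z i = z k := by
    have : B⁻¹.mulVec (B.mulVec z) = z := by
      rw [Matrix.mulVec_mulVec, Matrix.nonsing_inv_mul _ hu, Matrix.one_mulVec]
    exact congrFun this k
  simp only [h1]
  rw [h3]
  have h4 : ∀ t : ℕ, ζ⁻¹ ^ (u k * t) * ζ ^ (u k * t) = 1 := fun t => by
    rw [← mul_pow, inv_mul_cancel₀ hζ, one_pow]
  simp only [z, h4]
  simp

end Val

variable {I Ω : Type} [Fintype I] [DecidableEq I] [Field Ω] [CharZero Ω] [IsAlgClosed Ω]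
  [IsGalois ℚ Ω]

omit [IsGalois ℚ Ω] in
/-- The discriminant as the square of a determinant of embeddings of integers. -/
lemma exists_disc {L : Type} [Field L] [NumberField L] (e : I ≃ (L →ₐ[ℚ] Ω)) :
    ∃ b : I → L, (∀ j, IsIntegral ℤ (b j)) ∧
      ((discr L : ℤ) : Ω) = (Matrix.of fun i j => e i (b j)).det ^ 2 := by
  have : Algebra.IsAlgebraic ℚ L := inferInstance
  have hc : Fintype.card (Module.Free.ChooseBasisIndex ℤ (𝓞 L)) = Fintype.card I := by
    rw [Fintype.card_congr e, AlgHom.card ℚ L Ω, Module.finrank_eq_card_basis (integralBasis L)]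
  let σ := Fintype.equivOfCardEq hc
  let b := (integralBasis L).reindex σ
  refine ⟨b, fun j => ?_, ?_⟩
  · simp only [b, Module.Basis.reindex_apply, integralBasis_apply]
    exact RingOfIntegers.isIntegral_coe _
  · have h1 := Algebra.discr_eq_det_embeddingsMatrixReindex_pow_two ℚ Ω b e
    have h2 : Algebra.discr ℚ b = (discr L : ℚ) := by
      rw [coe_discr, ← Algebra.discr_reindex ℚ (integralBasis L) σ, ← Module.Basis.coe_reindex]
    rw [h2] at h1
    rw [← Matrix.det_transpose]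
    have h3 : (Matrix.of fun i j => e i (b j)).transpose =
        Algebra.embeddingsMatrixReindex ℚ Ω b e := by
      ext i j
      simp [Algebra.embeddingsMatrixReindex]
    rw [h3, ← h1]
    simp

theorem local_div (Γ : Subgroup (Equiv.Perm I)) (B : Cond Ω Γ → Matrix I I Ω)
    (u : Cond Ω Γ → I → ℕ) (hE : ∀ q, Eig q.1.1 q.1.2 (orderOf q.1.2) (B q) (u q)) {μ : ℕ}
    (hμ : ∀ π ∈ Γ, π ≠ 1 → 2 * μ ≤ π.support.card) :
    ∃ p0 : ℕ, Fintype.card I ≤ p0 ∧ ∀ (L : Type) [Field L] [NumberField L]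
      (e : I ≃ (L →ₐ[ℚ] Ω)), Mon Γ e → ∀ p : ℕ, p.Prime → p0 < p →
      padicValNat p (discr L).natAbs ≤ Fintype.card I ∧
      (padicValNat p (discr L).natAbs ≠ 0 → μ ≤ padicValNat p (discr L).natAbs) ∧
      ∀ (r s : ℕ), 0 < s → ∀ f : MvPolynomial I ℤ,
        (∀ q, ∀ β ∈ (sub (B q) (mp Ω f)).support,
          orderOf q.1.2 * (r * io (u q)) ≤ s * wt (u q) β) →
        ∀ a : L, IsIntegral ℤ a → ∀ m : ℤ, (m : Ω) = aeval (fun i => e i a) f →
          (p : ℤ) ^ (r * padicValNat p (discr L).natAbs) ∣ m ^ s := by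
  classical
  have : Fintype (Cond Ω Γ) := Fintype.ofFinite _
  have : Algebra.IsAlgebraic ℤ ℚ := IsLocalization.isAlgebraic ℚ (nonZeroDivisors ℤ)
  have : Algebra.IsAlgebraic ℤ Ω := Algebra.IsAlgebraic.trans ℤ ℚ Ω
  obtain ⟨c, hc0, hc⟩ := Algebra.IsAlgebraic.exists_integral_multiples ℤ
    (Finset.univ.image fun z : Cond Ω Γ × I × I => (B z.1)⁻¹ z.2.1 z.2.2)
  refine ⟨Fintype.card I + Nat.card Γ + c.natAbs, by omega, ?_⟩
  intro L _ _ e hΓ p hp hp0
  obtain ⟨π, hπΓ, ζ, n, O, γ, hn, hnΓ, hζ, hπn, hO, hγ, hvp, hS, hD⟩ :=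
    tame_val Γ e hΓ hp (by omega) (by omega)
  by_cases hπ : π = 1
  · rw [hπ, orb_one] at hD
    have h0 : padicValNat p (discr L).natAbs = 0 := by omega
    rw [h0]
    refine ⟨Nat.zero_le _, fun h => absurd rfl h, fun r s _ f _ a _ m _ => ?_⟩
    simp
  have hord : orderOf ζ = n := hζ.eq_orderOf.symm
  let q : Cond Ω Γ := ⟨(π, ζ), hπΓ, hπ, by
    obtain ⟨c', hc'⟩ := hnΓ
    show ζ ^ Nat.card Γ = 1
    rw [hc', pow_mul, hζ.pow_eq_one, one_pow], by
    show π ^ orderOf ζ = 1
    rw [hord, hπn]⟩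
  have E : Eig π ζ n (B q) (u q) := by
    have := hE q
    rwa [show orderOf q.1.2 = n from hord] at this
  have hζ0 : ζ ≠ 0 := hζ.ne_zero hn.ne'
  have hv : O.valuation (p : Ω) < 1 := by
    rw [hvp]
    exact pow_lt_one' hγ hn.ne'
  have hΓpos : 0 < Nat.card Γ := Nat.card_pos
  have hcv : O.valuation (c : Ω) = 1 := by
    refine val_int_one O hp hv fun h => ?_
    have h1 := Nat.le_of_dvd (Int.natAbs_pos.2 hc0) (Int.natCast_dvd.1 h)
    omega
  have hnv : O.valuation (n : Ω) = 1 := by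
    have h1 : ¬ (p : ℤ) ∣ (n : ℤ) := fun h => by
      have h2 := Nat.le_of_dvd hn (Int.natCast_dvd_natCast.1 h)
      have h3 := Nat.le_of_dvd hΓpos hnΓ
      omega
    simpa using val_int_one O hp hv h1
  have hinv : ∀ k i, O.valuation ((B q)⁻¹ k i) ≤ 1 := by
    intro k i
    have h1 := hc _ (Finset.mem_image_of_mem _ (Finset.mem_univ (q, k, i)))
    have h2 := (O.valuation_le_one_iff _).2 (hO _ h1)
    rwa [zsmul_eq_mul, map_mul, hcv, one_mul] at h2
  have hB : ∀ i k, B q i k ∈ O := by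
    intro i k
    refine hO _ ?_
    have h1 : Algebra.adjoin ℤ ({ζ} : Set Ω) ≤ integralClosure ℤ Ω := by
      rw [Algebra.adjoin_le_iff, Set.singleton_subset_iff]
      exact hζ.isIntegral hn
    exact h1 (E.mem i k)
  have hy : ∀ a : L, IsIntegral ℤ a → ∀ k,
      O.valuation (((B q)⁻¹.mulVec fun i => e i a) k) ≤ γ ^ u q k := by
    intro a ha k
    have h1 := congrArg O.valuation (E.coord hζ0 (fun i => e i a) k)
    rw [map_mul, hnv, one_mul] at h1
    rw [h1]
    refine Valuation.map_sum_le _ fun i _ => ?_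
    rw [map_mul]
    exact (mul_le_of_le_one_left' (hinv k i)).trans (hS a ha i _ (E.lt k))
  have hu : IsUnit (B q).det := isUnit_iff_ne_zero.2 E.det
  have hio : padicValNat p (discr L).natAbs ≤ io (u q) := by
    have := E.orb
    omega
  refine ⟨by omega, fun _ => ?_, fun r s hs f hf a ha m hm => ?_⟩
  · obtain ⟨b, hb, hdisc⟩ := exists_disc e
    let Y : Matrix I I Ω := (B q)⁻¹ * Matrix.of fun i j => e i (b j)
    have hY : B q * Y = Matrix.of fun i j => e i (b j) := by
      rw [← Matrix.mul_assoc, Matrix.mul_nonsing_inv _ hu, Matrix.one_mul]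
    have h1 : O.valuation Y.det ≤ γ ^ ∑ k, u q k :=
      val_det_le O γ Y (u q) fun k j => hy (b j) (hb j) k
    have h2 : O.valuation (B q).det ≤ 1 := by
      simpa using val_det_le O γ (B q) (fun _ => 0) fun k i => by
        simpa using (O.valuation_le_one_iff _).2 (hB k i)
    have h3 : O.valuation ((discr L : ℤ) : Ω) ≤ O.valuation (p : Ω) ^ io (u q) := by
      rw [hdisc, ← hY, Matrix.det_mul, map_pow, map_mul, hvp, ← pow_mul, ← E.sym, mul_comm 2,
        pow_mul]
      exact pow_le_pow_left' ((mul_le_of_le_one_left' h2).trans h1) 2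
    have h4 := dvd_of_val O hp hv _ _ h3
    have h5 : p ^ io (u q) ∣ (discr L).natAbs := by
      have := Int.natAbs_dvd_natAbs.2 h4
      simpa [Int.natAbs_pow] using this
    have : Fact p.Prime := ⟨hp⟩
    have h6 : io (u q) ≤ padicValNat p (discr L).natAbs :=
      (padicValNat_dvd_iff_le (Int.natAbs_ne_zero.2 (discr_ne_zero L))).1 h5
    have h7 := hμ π hπΓ hπ
    have h8 := orb_support π
    have h9 := E.orb
    omega
  · have hex : ∃ w : ℕ, n * (r * io (u q)) ≤ s * w :=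
      ⟨n * (r * io (u q)), Nat.le_mul_of_pos_left _ hs⟩
    have hw : ∀ β ∈ (sub (B q) (mp Ω f)).support, Nat.find hex ≤ wt (u q) β := by
      intro β hβ
      refine Nat.find_min' hex ?_
      have := hf q β hβ
      rwa [show orderOf q.1.2 = n from hord] at this
    have h1 := val_eval_le O hγ.le (u q) _ (hy a ha) _ (coeff_sub_mem O (B q) hB f) hw
    have h2 : eval ((B q)⁻¹.mulVec fun i => e i a) (sub (B q) (mp Ω f)) = (m : Ω) := by
      rw [eval_sub, Matrix.mulVec_mulVec, Matrix.mul_nonsing_inv _ hu, Matrix.one_mulVec, hm,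
        eval_map, aeval_def]
      rfl
    rw [h2] at h1
    have h3 : O.valuation ((m ^ s : ℤ) : Ω) ≤ O.valuation (p : Ω) ^ (r * io (u q)) := by
      rw [Int.cast_pow, map_pow, hvp, ← pow_mul]
      refine (pow_le_pow_left' h1 s).trans ?_
      rw [← pow_mul, mul_comm _ s]
      exact pow_le_pow_right_of_le_one' hγ.le (Nat.find_spec hex)
    exact (pow_dvd_pow _ (Nat.mul_le_mul_left r hio)).trans (dvd_of_val O hp hv _ _ h3)

end Pool.Agent.Lib.MP_af4c59_nt.H50
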