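import Pool.Agent.Lib.MP_af4c59_nt.H50Stage
import Pool.Agent.Lib.MP_af4c59_nt.H50Fam
import Pool.Agent.Lib.MP_af4c59_nt.H50Val
import Pool.Agent.Lib.MP_af4c59_nt.H50BoxF
import Pool.Agent.Lib.MP_af4c59_nt.H50Jets
import Pool.Agent.Lib.MP_af4c59_nt.H50Arith

/-!
The count of fields whose Galois action lies in a group of large minimal degree.
-/

namespace Pool.Agent.Lib.MP_af4c59_nt.H50

open NumberField MvPolynomial Module Pool.Agent.Lib.MP_af4c59_nt.H11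
open scoped IntermediateField

lemma quot_le {n Q Dt P N b σ c1 c2 : ℕ} (hb : 1 ≤ b) (hDt : 0 < Dt) (hc2 : 1 ≤ c2)
    (h1 : Dt ^ (31 * (b - 56)) ≤ Q ^ (2 * b)) (h2 : Q * n ≤ c1 * P ^ (31 * σ + 2604 * N))
    (h3 : (P ^ σ) ^ 2 ≤ P ^ (2 * N) * (c2 * Dt)) (h4 : Dt ≤ P ^ (b * N)) :
    n ≤ c1 * c2 ^ 31 * P ^ (3503 * N) := by
  have h5 : Dt ^ (31 * b) ≤ Dt ^ (31 * (b - 56)) * P ^ (1736 * (b * N)) := by
    obtain ⟨t, ht⟩ : ∃ t, t = 1736 := ⟨_, rfl⟩
    rw [← ht]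
    calc Dt ^ (31 * b) ≤ Dt ^ (31 * (b - 56) + t) := Nat.pow_le_pow_right hDt (by omega)
      _ = Dt ^ (31 * (b - 56)) * Dt ^ t := pow_add _ _ _
      _ ≤ _ := by
        rw [mul_comm t, pow_mul P]
        exact Nat.mul_le_mul_left _ (Nat.pow_le_pow_left h4 _)
  have h6 : Dt ^ (31 * (b - 56)) * n ^ (2 * b)
      ≤ Dt ^ (31 * (b - 56)) * (c1 * c2 ^ 31 * P ^ (3503 * N)) ^ (2 * b) := by
    calc Dt ^ (31 * (b - 56)) * n ^ (2 * b) ≤ Q ^ (2 * b) * n ^ (2 * b) :=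
          Nat.mul_le_mul_right _ h1
      _ = (Q * n) ^ (2 * b) := (mul_pow _ _ _).symm
      _ ≤ (c1 * P ^ (31 * σ + 2604 * N)) ^ (2 * b) := Nat.pow_le_pow_left h2 _
      _ = c1 ^ (2 * b) * P ^ (5208 * (b * N)) * ((P ^ σ) ^ 2) ^ (31 * b) := by
          rw [mul_pow, mul_assoc, ← pow_mul, ← pow_mul, ← pow_mul, ← pow_add]
          congr 2
          ring
      _ ≤ c1 ^ (2 * b) * P ^ (5208 * (b * N)) * (P ^ (2 * N) * (c2 * Dt)) ^ (31 * b) :=
          Nat.mul_le_mul_left _ (Nat.pow_le_pow_left h3 _)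
      _ = c1 ^ (2 * b) * P ^ (5208 * (b * N)) * P ^ (62 * (b * N)) * c2 ^ (31 * b)
            * Dt ^ (31 * b) := by
          rw [mul_pow, mul_pow, ← pow_mul, show 2 * N * (31 * b) = 62 * (b * N) by ring]
          simp only [mul_assoc]
      _ ≤ c1 ^ (2 * b) * P ^ (5208 * (b * N)) * P ^ (62 * (b * N)) * c2 ^ (31 * (2 * b))
            * (Dt ^ (31 * (b - 56)) * P ^ (1736 * (b * N))) :=
          Nat.mul_le_mul (Nat.mul_le_mul_left _ (Nat.pow_le_pow_right hc2 (by omega))) h5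
      _ = _ := by
          rw [mul_pow, mul_pow, ← pow_mul, ← pow_mul,
            show 3503 * N * (2 * b) = 5208 * (b * N) + 62 * (b * N) + 1736 * (b * N) by ring,
            pow_add, pow_add]
          generalize c1 ^ (2 * b) = a1
          generalize P ^ (5208 * (b * N)) = a2
          generalize P ^ (62 * (b * N)) = a3
          generalize c2 ^ (31 * (2 * b)) = a4
          generalize Dt ^ (31 * (b - 56)) = a5
          generalize P ^ (1736 * (b * N)) = a6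
          ring
  exact (Nat.pow_le_pow_iff_left (by omega)).mp (Nat.le_of_mul_le_mul_left h6 (by positivity))

lemma exists_tau {I : Type} [Fintype I] (r : I → ℝ) {P t : ℕ} (hP : 1 ≤ P)
    (h1 : ∀ k, 1 ≤ r k ∧ r k ≤ (P : ℝ) ^ t) :
    ∃ τ : I → Fin (t + 1), (∀ k, r k ≤ (P : ℝ) ^ (τ k : ℕ)) ∧
      (P : ℝ) ^ (∑ k, (τ k : ℕ)) ≤ (P : ℝ) ^ Fintype.card I * ∏ k, r k := by
  classical
  have hP' : (1 : ℝ) ≤ P := by exact_mod_cast hP
  have hex : ∀ k, ∃ s : ℕ, r k ≤ (P : ℝ) ^ s := fun k => ⟨t, (h1 k).2⟩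
  refine ⟨fun k => ⟨Nat.find (hex k), Nat.lt_succ_of_le (Nat.find_min' _ (h1 k).2)⟩,
    fun k => Nat.find_spec (hex k), ?_⟩
  rw [← Finset.prod_pow_eq_pow_sum, ← Finset.card_univ, ← Finset.prod_const,
    ← Finset.prod_mul_distrib]
  refine Finset.prod_le_prod (fun _ _ => by positivity) fun k _ => ?_
  show (P : ℝ) ^ Nat.find (hex k) ≤ P * r k
  rcases Nat.eq_zero_or_pos (Nat.find (hex k)) with h | h
  · rw [h, pow_zero]; nlinarith [(h1 k).1]
  · have h2 := not_le.mp (Nat.find_min (hex k) (Nat.sub_lt h one_pos))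
    obtain ⟨s, hs⟩ : ∃ s, Nat.find (hex k) = s + 1 := ⟨_, (Nat.sub_add_cancel h).symm⟩
    rw [hs, Nat.add_sub_cancel] at h2
    rw [hs, pow_succ']
    exact mul_le_mul_of_nonneg_left h2.le (by positivity)

theorem core (K : Type) [Field K] [NumberField K] {I : Type} [Fintype I] [DecidableEq I]
    (Γ : Subgroup (Equiv.Perm I)) (μ Λ b : ℕ)
    (hμ : ∀ π ∈ Γ, π ≠ 1 → 2 * μ ≤ π.support.card) (hμN : 2 * μ ≤ Fintype.card I)
    (hΓ : Nat.card Γ ≤ 2 ^ Λ) (hN : Fintype.card I ≤ 2 ^ Λ) (hΛ : 1 ≤ Λ) (hb : 4 ≤ b)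
    (hbμ : b ^ 2 * Λ ≤ μ) :
    ∃ c : ℕ, ∀ P : ℕ, 1 ≤ P → ∀ S : Finset (IntermediateField K (AlgebraicClosure K)),
      (∀ L ∈ S, ∃ _ : NumberField L, (discr L).natAbs ≤ P ^ (b * Fintype.card I) ∧
        ∃ e : I ≃ (L →ₐ[ℚ] AlgebraicClosure K), Mon Γ e) →
      S.card ≤ c * P ^ (19300 * Fintype.card I * Nat.clog 2 b) := by
  classical
  set Ω := AlgebraicClosure K with hΩ
  have : Algebra.IsAlgebraic ℚ Ω := Algebra.IsAlgebraic.trans ℚ K Ω
  have : IsAlgClosure ℚ Ω := ⟨inferInstance, inferInstance⟩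
  have : IsGalois ℚ Ω := IsAlgClosure.isGalois ℚ Ω
  let ε : Ω →+* ℂ := (IsAlgClosed.lift : Ω →ₐ[ℚ] ℂ).toRingHom
  set N := Fintype.card I with hNdef
  have hb2 : 4 * (b * Λ) ≤ μ := by
    refine le_trans ?_ hbμ
    rw [pow_two, mul_assoc]; exact Nat.mul_le_mul_right _ hb
  have hbΛ : 4 * Λ ≤ b * Λ := Nat.mul_le_mul_right _ hb
  have hn0 : 0 < Nat.card Γ := Nat.card_pos
  obtain ⟨χ, hχ⟩ := exists_colouring Γ hμ
    (hΓ.trans (Nat.pow_le_pow_right (by norm_num) (by omega)))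
  obtain ⟨Θ1, hΘ10, hΘ1⟩ := jets_generic (Ω := Ω) Γ χ hχ (216 * N) (433 * N) (by omega)
  let d : Setup I (Deg I (433 * N)) Ω := ⟨ε, ∅, fam Γ (433 * N), 433 * N, 216 * N, Nat.card Γ⟩
  set m1 := max (4 * Λ + 23) (N / b ^ 2) with hm1
  have hm1b : 2 * (b ^ 2 * m1) ≤ 27 * N := by
    rcases max_cases (4 * Λ + 23) (N / b ^ 2) with h | h
    · have h1 : b ^ 2 * m1 ≤ b ^ 2 * (27 * Λ) := Nat.mul_le_mul_left _ (by omega)
      have h2 : b ^ 2 * (27 * Λ) = 27 * (b ^ 2 * Λ) := by ring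
      omega
    · have h1 : b ^ 2 * (N / b ^ 2) ≤ N := Nat.mul_div_le _ _
      rw [hm1, h.1]
      omega
  have hm1r : N < 2 ^ (2 * Nat.clog 2 b) * (m1 + 1) := by
    calc N < b ^ 2 * (N / b ^ 2 + 1) := Nat.lt_mul_div_succ _ (by positivity)
      _ ≤ (2 ^ Nat.clog 2 b) ^ 2 * (m1 + 1) :=
        Nat.mul_le_mul (Nat.pow_le_pow_left (Nat.le_pow_clog (by norm_num) _) _)
          (Nat.succ_le_succ (le_max_right _ _))
      _ = _ := by rw [← pow_mul, mul_comm _ 2]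
  obtain ⟨E0, hE0, hB0⟩ := Setup.bd_all (d := d) m1 b (by omega) (by
    show _ ≤ 216 * N
    rw [mul_assoc]
    omega)
  choose B u hE using fun q : Cond Ω Γ => exists_eig q.1.1
    (isOfFinOrder_iff_pow_eq_one.mpr ⟨_, hn0, q.2.2.2.1⟩).orderOf_pos
    (IsPrimitiveRoot.orderOf q.1.2) q.2.2.2.2
  obtain ⟨p0, hp0, hloc⟩ := local_div Γ B u hE hμ
  choose Bc uc hEc using fun c : {c : Equiv.Perm I // c ^ 2 = 1} =>
    exists_eig (Ω := Ω) c.1 two_pos (IsPrimitiveRoot.neg_one 0 (by norm_num)) c.2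
  obtain ⟨C, hC1, hbox⟩ := box_field ε Bc uc hEc
  let Dat := {c : Equiv.Perm I // c ^ 2 = 1} × (I → Fin (2 * b + 1 + 1))
  choose w F Θ2 hF1 hF2 hF3 hF4 hF5 hF6 using fun q : Dat =>
    exists_fam Γ μ Λ b hμ hμN hΓ hN hΛ hb hbμ B u hE (Bc q.1) (hEc q.1).mem (fun k => q.2 k)
      fun k => by have := (q.2 k).2; omega
  choose cf hcf using fun (q : Dat) (a : Fin (w q)) => arch_val ε (Bc q.1) (F q a)
  let dg : Dat → ℕ := fun q => (Θ1 * Θ2 q).totalDegree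
  set c2 := C * p0.factorial ^ (N ^ 2) with hc2
  have hc21 : 1 ≤ c2 := Nat.mul_pos hC1 (pow_pos (Nat.factorial_pos _) _)
  let cF : Dat → ℕ := fun q => (∑ a, cf q a) * (N * dg q + 1) ^ (31 * N) * c2 ^ 31
  choose cc hcc using fun q : Dat => count2 d rfl (by show 1 ≤ 216 * N; omega) (F q) (3503 * N)
    (31 * N) (cF q) (b * N * (31 * (b - 56))) (3 * b) (2 * Λ + 11) m1 E0 (2 * Nat.clog 2 b)
    (by omega) (le_trans (by omega) (le_max_left _ _)) hm1r hB0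
  choose! Qf hQ1 hQ2 hQ3 hQ4 using fun E (hE : 0 < E) => exists_root E (2 * b) hE (by omega)
  set P0 := 36 * C * (∑ q, N * dg q + 1) + 2 with hP0
  set EE := 3 * b * E0 + (2 * (3503 * N) + N) * (2 * Nat.clog 2 b) with hEE
  set Ex := 19300 * N * Nat.clog 2 b with hEx
  have hexp : 2 * N + EE ≤ Ex := by
    have h1 : 1 < Nat.clog 2 b := (Nat.lt_clog_iff_pow_lt (by norm_num)).mpr (by omega)
    have h2 : b * E0 ≤ 8 * (433 * N) + 2 * (b * m1) := hE0
    have h3 : 4 * (b * m1) ≤ b ^ 2 * m1 := by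
      rw [pow_two, mul_assoc]; exact Nat.mul_le_mul_right _ hb
    have h4 : N * 2 ≤ N * Nat.clog 2 b := Nat.mul_le_mul_left _ h1
    have h5 : (2 * (3503 * N) + N) * (2 * Nat.clog 2 b) = 14014 * (N * Nat.clog 2 b) := by ring
    rw [hEE, hEx, h5, mul_assoc 3, mul_assoc 19300]
    omega
  suffices main : ∀ P : ℕ, P0 ≤ P → ∀ S : Finset (IntermediateField K Ω),
      (∀ L ∈ S, ∃ _ : NumberField L, (discr L).natAbs ≤ P ^ (b * N) ∧
        ∃ e : I ≃ (L →ₐ[ℚ] Ω), Mon Γ e) →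
      S.card ≤ Fintype.card Dat * N * (∑ q, cc q) * P ^ Ex by
    refine ⟨Fintype.card Dat * N * (∑ q, cc q) * P0 ^ Ex, fun P hP S hS => ?_⟩
    rw [mul_assoc _ (P0 ^ Ex), ← mul_pow]
    refine main (P0 * P) (Nat.le_mul_of_pos_right _ hP) S fun L hL => ?_
    obtain ⟨inst, h1, h2⟩ := hS L hL
    exact ⟨inst, h1.trans (Nat.pow_le_pow_left (Nat.le_mul_of_pos_left _ (by omega)) _), h2⟩
  intro P hP S hS
  have hP2 : 2 ≤ P := by omega
  have hP1 : (1 : ℝ) ≤ P := by exact_mod_cast (by omega : 1 ≤ P)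
  obtain ⟨TT, hTT1, hTT2⟩ := exists_tameParts N p0 b (P ^ N) hp0 (by omega)
  have hpt : ∀ L ∈ S, ∃ (x : I → Ω) (q : Dat) (Dt : ℕ) (i : I), Dt ∈ TT ∧ 0 < Dt ∧
      Dt ≤ P ^ (b * N) ∧ (d.Gd (P ^ (3 * b)) x ∧
        (∀ a, ∃ n : ℤ, ((Qf (Dt ^ (31 * (b - 56))) * n : ℤ) : Ω) = aeval x (F q a) ∧
          n.natAbs ≤ cF q * P ^ (3503 * N)) ∧ RK (F q) (31 * N) (2 * Λ + 11) x) ∧
      K⟮x i⟯ = L := by
    intro L hL
    obtain ⟨inst, hD, e, he⟩ := hS L hL
    set D := (discr L).natAbs with hDdef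
    have hD0 : D ≠ 0 := Int.natAbs_ne_zero.mpr (discr_ne_zero L)
    have hfr : finrank ℚ L = N := by rw [hNdef, Fintype.card_congr e, AlgHom.card]
    have hPb : 1 ≤ P ^ b := Nat.one_le_pow _ _ (by omega)
    obtain ⟨c, a, r, ha1, ha2, ha3, ha4, ha5, ha6⟩ := hbox L e (5 * P ^ b + 1) (by
      calc 5 ^ N * D ≤ 5 ^ N * P ^ (b * N) := Nat.mul_le_mul_left _ hD
        _ = (5 * P ^ b) ^ N := by rw [mul_pow, pow_mul]
        _ < _ := Nat.pow_lt_pow_left (Nat.lt_succ_self _) (by omega))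
    have hρ : C * (5 * P ^ b + 1) ^ 2 ≤ 36 * C * P ^ (2 * b) := by
      calc C * (5 * P ^ b + 1) ^ 2 ≤ C * (6 * P ^ b) ^ 2 :=
            Nat.mul_le_mul_left _ (Nat.pow_le_pow_left (by omega) _)
        _ = _ := by rw [mul_pow, ← pow_mul, mul_comm b 2]; ring
    have hCP : 36 * C ≤ P := le_trans (by rw [hP0, mul_add]; omega) hP
    obtain ⟨τ, hτ1, hτ2⟩ := exists_tau r (P := P) (t := 2 * b + 1) (by omega) fun k =>
      ⟨(ha5 k).1, (ha5 k).2.trans (by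
        have : C * (5 * P ^ b + 1) ^ 2 ≤ P ^ (2 * b + 1) := by
          rw [pow_succ' P]; exact hρ.trans (Nat.mul_le_mul_right _ hCP)
        exact_mod_cast this)⟩
    let q : Dat := (c, τ)
    obtain ⟨s, hs1, hs2⟩ := exists_comb e a ha2 (mul_ne_zero hΘ10 (hF5 q))
    set α : L := ∑ j, (s j : L) * a j with hα
    let x : I → Ω := fun i => e i α
    rw [map_mul] at hs2
    obtain ⟨hinj, hJ⟩ := hΘ1 x (left_ne_zero_of_mul hs2)
    have hαi : IsIntegral ℤ α := IsIntegral.sum _ fun j _ => (isIntegral_natCast _).mul (ha1 j)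
    have hx1 : ∀ i, IsIntegral ℤ (x i) := fun i => hαi.map (e i).toRingHom.toIntAlgHom
    have hx3 : ∀ g : Ω ≃ₐ[ℚ] Ω, ∃ π ∈ Γ, ∀ i, g (x i) = x (π i) := fun g => by
      obtain ⟨π, h1, h2⟩ := he g
      exact ⟨π, h1, fun i => (h2 i α).symm⟩
    have hxs : x = ∑ j, (s j : Ω) • fun i => e i (a j) := by
      funext i
      simp [x, hα]
    have hcomb : ∀ (z : I → Ω) (R : ℝ), 0 ≤ R → (∀ j, ‖ε (z j)‖ ≤ R) →
        ‖ε (∑ j, (s j : Ω) * z j)‖ ≤ (N * dg q : ℕ) * R := by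
      intro z R hR hz
      rw [map_sum]
      refine (norm_sum_le _ _).trans ((Finset.sum_le_card_nsmul _ _ (dg q * R)
        fun j _ => ?_).trans (le_of_eq ?_))
      · rw [map_mul, norm_mul, map_natCast, Complex.norm_natCast]
        exact mul_le_mul (by exact_mod_cast hs1 j) (hz j) (norm_nonneg _) (Nat.cast_nonneg _)
      · simp [hNdef, mul_assoc]
    have hx2 : ∀ i, ‖ε (x i)‖ ≤ (P ^ (3 * b) : ℕ) := by
      intro i
      have h1 := hcomb (fun j => e i (a j)) _ (by positivity) fun j => ha4 j i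
      have h2 : x i = ∑ j, (s j : Ω) * e i (a j) := by rw [hxs]; simp
      rw [h2]
      refine h1.trans ?_
      have h3 : N * dg q ≤ ∑ q, N * dg q :=
        Finset.single_le_sum (f := fun q => N * dg q) (fun _ _ => Nat.zero_le _)
          (Finset.mem_univ q)
      have h4 : 36 * C * (N * dg q) ≤ P :=
        le_trans ((Nat.mul_le_mul_left _ (h3.trans (Nat.le_succ _))).trans
          (Nat.le_add_right _ 2)) hP
      have h5 : N * dg q * (C * (5 * P ^ b + 1) ^ 2) ≤ P ^ (3 * b) := by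
        calc _ ≤ N * dg q * (36 * C * P ^ (2 * b)) := Nat.mul_le_mul_left _ hρ
          _ = 36 * C * (N * dg q) * P ^ (2 * b) := by ring
          _ ≤ P * P ^ (2 * b) := Nat.mul_le_mul_right _ h4
          _ = P ^ (2 * b + 1) := (pow_succ' _ _).symm
          _ ≤ _ := Nat.pow_le_pow_right (by omega) (by omega)
      exact_mod_cast h5
    let y : I → Ω := (Bc c)⁻¹.mulVec x
    have hy1 : (Bc c).mulVec y = x := by
      rw [Matrix.mulVec_mulVec, Matrix.mul_nonsing_inv _ (isUnit_iff_ne_zero.mpr (hEc c).det),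
        Matrix.one_mulVec]
    have hy2 : ∀ k, ‖ε (y k)‖ ≤ ((N * dg q + 1 : ℕ) : ℝ) * (P : ℝ) ^ (τ k : ℕ) := by
      intro k
      have h1 := hcomb (fun j => (Bc c)⁻¹.mulVec (fun i => e i (a j)) k) _
        (le_trans zero_le_one (ha5 k).1) fun j => ha3 j k
      have h2 : y k = ∑ j, (s j : Ω) * (Bc c)⁻¹.mulVec (fun i => e i (a j)) k := by
        simp only [y]
        rw [hxs, Matrix.mulVec_sum]
        simp [Matrix.mulVec_smul]
      rw [h2]
      exact h1.trans (mul_le_mul (by exact_mod_cast Nat.le_succ _) (hτ1 k)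
        (le_trans zero_le_one (ha5 k).1) (Nat.cast_nonneg _))
    have hDt0 := tamePart_pos p0 D
    have hDt1 := (tamePart_le p0 hD0).trans hD
    have hDt2 : D ≤ p0.factorial ^ (N ^ 2) * tamePart p0 D :=
      le_tamePart p0 _ hD0 fun p hp => hfr ▸ wild L hp
    have hσ : (P ^ ∑ k, (τ k : ℕ)) ^ 2 ≤ P ^ (2 * N) * (c2 * tamePart p0 D) := by
      have h1 : ((P : ℝ) ^ ∑ k, (τ k : ℕ)) ^ 2 ≤ (P : ℝ) ^ (2 * N) * (C * D) := by
        calc _ ≤ ((P : ℝ) ^ N * ∏ k, r k) ^ 2 := pow_le_pow_left₀ (by positivity) hτ2 _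
          _ = (P : ℝ) ^ (2 * N) * (∏ k, r k) ^ 2 := by rw [mul_pow, ← pow_mul, mul_comm N]
          _ ≤ _ := mul_le_mul_of_nonneg_left ha6 (by positivity)
      have h2 : (P ^ ∑ k, (τ k : ℕ)) ^ 2 ≤ P ^ (2 * N) * (C * D) := by exact_mod_cast h1
      refine h2.trans (Nat.mul_le_mul_left _ ?_)
      rw [hc2, mul_assoc]
      exact Nat.mul_le_mul_left _ hDt2
    refine ⟨x, q, tamePart p0 D, e.symm (L.val.restrictScalars ℚ), hTT2 D hD0
      (by rw [← pow_mul, mul_comm]; exact hD) (fun p hp hp' => ?_), hDt0, hDt1,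
      ⟨⟨⟨hx1, hx2, fun g => (hx3 g).imp fun π h => h.2⟩, fun a' => ?_, fun P' => ?_⟩,
        fun a' => ?_, hF6 q x (right_ne_zero_of_mul hs2)⟩, ?_⟩
    · obtain ⟨h1, h2, -⟩ := hloc L e he p hp hp'
      refine ⟨h1, fun h => le_trans ?_ (h2 h)⟩
      have : b * 1 ≤ b * Λ := Nat.mul_le_mul_left _ hΛ
      omega
    · exact fam_int Γ ε (Nat.one_le_pow _ _ (by omega)) x hx1 hx2 hx3 a'
    · obtain ⟨Q', h1, h2⟩ := hJ P'
      exact ⟨Q', h1, Ideal.mem_sup_right h2⟩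
    · obtain ⟨m, hm⟩ := inv_int Γ x hx1 hx3 (F q a') (hF2 q a')
      have hE0' : 0 < tamePart p0 D ^ (31 * (b - 56)) := pow_pos hDt0 _
      obtain ⟨n, hn⟩ := hQ4 _ hE0' m (by
        push_cast
        exact tamePart_pow_dvd p0 D _ _ fun p hp hp' =>
          (hloc L e he p hp hp').2.2 _ _ (by omega) (F q a') (hF3 q a') α hαi m hm)
      refine ⟨n, by rw [← hn]; exact hm, ?_⟩
      refine quot_le (by omega) hDt0 hc21 (hQ3 _ hE0') ?_ hσ hDt1
      have h1 := hcf q a' y _ _ (fun k => τ k) (31 * N) _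
        (by exact_mod_cast Nat.le_add_left 1 _) hP1 hy2 (hF1 q a') (hF4 q a')
      rw [hy1, ← hm] at h1
      have h2 : m.natAbs ≤ cf q a' * (N * dg q + 1) ^ (31 * N) *
          P ^ (31 * ∑ k, (τ k : ℕ) + 2604 * N) :=
        natAbs_le_of_norm ε (by exact_mod_cast h1)
      rw [hn, Int.natAbs_mul, Int.natAbs_natCast] at h2
      exact h2.trans (Nat.mul_le_mul_right _ (Nat.mul_le_mul_right _
        (Finset.single_le_sum (f := cf q) (fun _ _ => Nat.zero_le _) (Finset.mem_univ a'))))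
    · have : Module.Finite K L := Module.Finite.of_restrictScalars_finite ℚ K L
      have h5 : K⟮α⟯ = ⊤ := by
        rw [Field.primitive_element_iff_algHom_eq_of_eval' K Ω (fun _ => IsAlgClosed.splits _)]
        intro φ ψ h
        apply AlgHom.restrictScalars_injective ℚ
        apply e.symm.injective
        apply hinj
        simpa [x] using h
      have h6 := congrArg IntermediateField.lift h5
      rw [IntermediateField.lift_adjoin_simple, IntermediateField.lift_top] at h6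
      refine Eq.trans ?_ h6
      simp [x]
  choose! x hx using hpt
  have h1 := card_le_of_cover S ((Finset.univ : Finset Dat) ×ˢ TT ×ˢ (Finset.univ : Finset I))
    (fun L z => 0 < z.2.1 ∧ z.2.1 ≤ P ^ (b * N) ∧ (d.Gd (P ^ (3 * b)) (x L) ∧
        (∀ a, ∃ n : ℤ, ((Qf (z.2.1 ^ (31 * (b - 56))) * n : ℤ) : Ω) = aeval (x L) (F z.1 a) ∧
          n.natAbs ≤ cF z.1 * P ^ (3503 * N)) ∧ RK (F z.1) (31 * N) (2 * Λ + 11) (x L)) ∧
      K⟮x L z.2.2⟯ = L) ((∑ q, cc q) * P ^ EE)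
    (fun L hL => by
      obtain ⟨q, Dt, i, h1, h2⟩ := hx L hL
      exact ⟨(q, Dt, i), by simp [h1], h2⟩) (by
      rintro ⟨q, Dt, i⟩ _ S' hS'
      rcases S'.eq_empty_or_nonempty with rfl | ⟨L0, hL0⟩
      · simp
      obtain ⟨h1, h2, -⟩ := (hS' L0 hL0).2
      have hinj : Set.InjOn x S' := by
        intro L hL L' hL' h
        rw [← (hS' L hL).2.2.2.2, ← (hS' L' hL').2.2.2.2, h]
      rw [← Finset.card_image_of_injOn hinj]
      have h3 : 0 < Dt ^ (31 * (b - 56)) := pow_pos h1 _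
      refine (hcc q P hP2 _ (hQ1 _ h3) ((hQ2 _ h3).trans ?_) (S'.image x) fun y hy => ?_).trans
        (Nat.mul_le_mul_right _
          (Finset.single_le_sum (f := cc) (fun _ _ => Nat.zero_le _) (Finset.mem_univ q)))
      · rw [pow_mul P]; exact Nat.pow_le_pow_left h2 _
      · obtain ⟨L, hL, rfl⟩ := Finset.mem_image.mp hy
        exact (hS' L hL).2.2.2.1)
  refine h1.trans ?_
  rw [Finset.card_product, Finset.card_product, Finset.card_univ, Finset.card_univ]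
  calc _ ≤ Fintype.card Dat * ((P ^ N) ^ 2 * N) * ((∑ q, cc q) * P ^ EE) :=
        Nat.mul_le_mul_right _ (Nat.mul_le_mul_left _ (Nat.mul_le_mul_right _ hTT1))
    _ = Fintype.card Dat * N * (∑ q, cc q) * P ^ (2 * N + EE) := by
        rw [pow_add P (2 * N) EE, ← pow_mul P N 2, mul_comm N 2]
        generalize P ^ (2 * N) = a1
        generalize P ^ EE = a2
        ring
    _ ≤ _ := Nat.mul_le_mul_left _ (Nat.pow_le_pow_right (by omega) hexp)

end Pool.Agent.Lib.MP_af4c59_nt.H50
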