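import Pool.Agent.Lib.MP_af4c59_nt.H88Orb

/-!
Definitions for the ramification-weighted determinant method.
-/

namespace Pool.Agent.Lib.MP_af4c59_nt.H50

open MvPolynomial Pool.Agent.Lib.MP_af4c59_nt.H11

variable {I Ω : Type} [Fintype I] [DecidableEq I] [Field Ω]

/-- The linear substitution `x = B y`. -/
noncomputable def sub (B : Matrix I I Ω) : MvPolynomial I Ω →ₐ[Ω] MvPolynomial I Ω :=
  aeval fun i => ∑ k, C (B i k) * X k

/-- The weight of an exponent vector. -/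
def wt (u : I → ℕ) (β : I →₀ ℕ) : ℕ := ∑ k, u k * β k

/-- The number of nonzero weights. -/
def io (u : I → ℕ) : ℕ := (Finset.univ.filter fun k => u k ≠ 0).card

/-- The number of orbits of a permutation. -/
noncomputable def orb (π : Equiv.Perm I) : ℕ :=
  Nat.card (Quotient (Equiv.Perm.SameCycle.setoid π))

/-- The columns of `B` are a basis of eigenvectors of `π`, the `k`-th with eigenvalue
`ζ ^ u k`. -/
structure Eig (π : Equiv.Perm I) (ζ : Ω) (n : ℕ) (B : Matrix I I Ω) (u : I → ℕ) : Prop where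
  lt : ∀ k, u k < n
  det : B.det ≠ 0
  mem : ∀ i k, B i k ∈ Algebra.adjoin ℤ ({ζ} : Set Ω)
  eig : ∀ i k, B (π i) k = ζ ^ u k * B i k
  sym : 2 * ∑ k, u k = n * io u
  orb : Fintype.card I ≤ io u + orb π

/-- The Galois action on the embeddings of `L`, numbered by `e`, lies in `Γ`. -/
def Mon [CharZero Ω] (Γ : Subgroup (Equiv.Perm I)) {L : Type} [Field L] [CharZero L]
    (e : I ≃ (L →ₐ[ℚ] Ω)) : Prop :=
  ∀ g : Ω ≃ₐ[ℚ] Ω, ∃ π ∈ Γ, ∀ i a, e (π i) a = g (e i a)

/-- The possible tame inertia data: a non-identity element and a root of unity. -/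
def Cond (Ω : Type) [Field Ω] (Γ : Subgroup (Equiv.Perm I)) : Type :=
  {q : Equiv.Perm I × Ω //
    q.1 ∈ Γ ∧ q.1 ≠ 1 ∧ q.2 ^ Nat.card Γ = 1 ∧ q.1 ^ orderOf q.2 = 1}

open Classical in
/-- Orbit sums of monomials. -/
noncomputable def fam (Γ : Subgroup (Equiv.Perm I)) (T : ℕ) (a : Deg I T) : MvPolynomial I ℤ :=
  ∑ π : Γ, rename π.1 (monomial a.1 1)

/-- The family `F` has rank at least `16 ^ m` on the jets of order `j` at `x` of every smooth
germ of dimension `m > m0`. -/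
def RK {A : Type} (F : A → MvPolynomial I ℤ) (j m0 : ℕ) (x : I → Ω) : Prop :=
  ∀ (Φ : I → MvPolynomial I Ω) (K : Finset I), eval x (jac Φ).det ≠ 0 → m0 < Kᶜ.card →
    ∀ ρ : ℕ, ρ < 16 ^ Kᶜ.card → ∀ (G : A → MvPolynomial I Ω) (g : Fin ρ → MvPolynomial I Ω),
      (∀ a, mp Ω (F a) ∈ Submodule.span Ω (Set.range G) ⊔ Submodule.span Ω (Set.range g)) →
      ∃ (a : A) (l : List I), l.length ≤ j ∧ (∀ w ∈ l, w ∉ K) ∧ eval x (Dl Φ l (G a)) ≠ 0

omit [DecidableEq I] in
lemma eval_sub (B : Matrix I I Ω) (y : I → Ω) (f : MvPolynomial I Ω) :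
    eval y (sub B f) = eval (B.mulVec y) f := by
  rw [← coe_aeval_eq_eval, ← coe_aeval_eq_eval]
  show aeval y (aeval _ f) = aeval _ f
  rw [← AlgHom.comp_apply, comp_aeval]
  congr 2
  funext i
  simp [Matrix.mulVec, dotProduct]

omit [DecidableEq I] in
lemma totalDegree_sub_le (B : Matrix I I Ω) (f : MvPolynomial I Ω) :
    (sub B f).totalDegree ≤ f.totalDegree := by
  refine totalDegree_aeval_le_of_le_one _ (fun i => ?_) f
  refine (totalDegree_finsetSum _ _).trans (Finset.sup_le fun k _ => ?_)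
  refine (totalDegree_mul _ _).trans ?_
  simp [totalDegree_X]

end Pool.Agent.Lib.MP_af4c59_nt.H50
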