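import Pool.Agent.Lib.MP_af4c59_nt.H50Defs

/-!
Upper bounds for the power of a prime in the discriminant.
-/

namespace Pool.Agent.Lib.MP_af4c59_nt.H50

open NumberField Module

/-- The trace of an idempotent matrix over a local ring is its rank. -/
theorem diff_idem {R ι : Type} [CommRing R] [IsLocalRing R] [Fintype ι] [DecidableEq ι]
    (M : Matrix ι ι R) (hM : M * M = M) :
    ∃ s : ℕ, s ≤ Fintype.card ι ∧ M.trace = s ∧ (s = 0 → M = 0) := by
  set f : (ι → R) →ₗ[R] (ι → R) := Matrix.toLin' M with hf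
  have hff : ∀ y, f (f y) = f y := fun y => by
    rw [hf, ← Matrix.toLin'_mul_apply, hM]
  have hp : LinearMap.IsProj (LinearMap.range f) f := by
    refine ⟨fun y => ⟨y, rfl⟩, ?_⟩
    rintro _ ⟨y, rfl⟩
    exact hff y
  have h1 : Module.Projective R (LinearMap.range f) :=
    Module.Projective.of_split (LinearMap.range f).subtype f.rangeRestrict (by
      ext ⟨_, y, rfl⟩ : 1
      exact Subtype.ext (hff y))
  have h2 : Module.Projective R (LinearMap.ker f) :=
    Module.Projective.of_split (LinearMap.ker f).subtype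
      (LinearMap.codRestrict (LinearMap.ker f) (LinearMap.id - f) fun y => by
        simp [LinearMap.mem_ker, hff]) (by
      ext ⟨y, hy⟩ : 1
      refine Subtype.ext ?_
      have : f y = 0 := hy
      simp [this])
  have h3 : Module.Finite R (LinearMap.ker f) :=
    Module.Finite.of_surjective
      (LinearMap.codRestrict (LinearMap.ker f) (LinearMap.id - f) fun y => by
        simp [LinearMap.mem_ker, hff]) (by
      rintro ⟨y, hy⟩
      refine ⟨y, Subtype.ext ?_⟩
      have : f y = 0 := hy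
      simp [this])
  have h4 : Module.Free R (LinearMap.range f) := Module.free_of_flat_of_isLocalRing
  have h5 : Module.Free R (LinearMap.ker f) := Module.free_of_flat_of_isLocalRing
  refine ⟨finrank R (LinearMap.range f), ?_, ?_, fun h0 => ?_⟩
  · exact (Submodule.finrank_le _).trans (by rw [Module.finrank_fintype_fun_eq_card])
  · rw [← hp.trace, hf, Matrix.trace_toLin'_eq]
  · have h6 : Subsingleton (LinearMap.range f) := (Module.finrank_eq_zero_iff_of_free _ _).1 h0
    have h7 : f = 0 := by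
      refine LinearMap.ext fun y => ?_
      have := Subsingleton.elim (⟨f y, y, rfl⟩ : LinearMap.range f) 0
      exact congrArg Subtype.val this
    exact Matrix.toLin'.injective (by rw [← hf, h7, map_zero])

/-- An element that is idempotent modulo `p ^ t` with trace divisible by `p ^ t` is zero modulo `p ^ t`. -/
theorem diff_trace (L : Type) [Field L] [NumberField L] {p t : ℕ} (hp : p.Prime)
    (hN : finrank ℚ L < p ^ t) {x : 𝓞 L} (hx : ((p : 𝓞 L) ^ t) ∣ x * x - x)
    (htr : ((p : ℤ) ^ t) ∣ Algebra.trace ℤ (𝓞 L) x) : ((p : 𝓞 L) ^ t) ∣ x := by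
  classical
  have := Fact.mk hp
  have hpos : 0 < finrank ℚ L := finrank_pos
  have hnt : Nontrivial (ZMod (p ^ t)) := ZMod.nontrivial_iff.2 (by omega)
  have hloc : IsLocalRing (ZMod (p ^ t)) :=
    IsLocalRing.of_surjective' (PadicInt.toZModPow t) (ZMod.ringHom_surjective _)
  let b := RingOfIntegers.basis L
  let φ : ℤ →+* ZMod (p ^ t) := Int.castRingHom _
  have hφ : ∀ z : ℤ, φ z = 0 ↔ ((p : ℤ) ^ t) ∣ z := fun z => by
    have h := ZMod.intCast_zmod_eq_zero_iff_dvd z (p ^ t)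
    push_cast at h
    exact h
  obtain ⟨y, hy⟩ := hx
  have hM : φ.mapMatrix (Algebra.leftMulMatrix b x) * φ.mapMatrix (Algebra.leftMulMatrix b x) =
      φ.mapMatrix (Algebra.leftMulMatrix b x) := by
    rw [← map_mul, ← map_mul, ← sub_eq_zero, ← map_sub, ← map_sub, hy]
    have h1 : (p : 𝓞 L) ^ t * y = ((p : ℤ) ^ t) • y := by
      rw [zsmul_eq_mul]
      push_cast
      rfl
    rw [h1, map_smul]
    ext i j
    simp only [RingHom.mapMatrix_apply, Matrix.map_apply, Matrix.smul_apply, smul_eq_mul,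
      Matrix.zero_apply]
    exact (hφ _).2 (dvd_mul_right _ _)
  obtain ⟨s, hs, hts, h0⟩ := diff_idem _ hM
  have hcard : Fintype.card (Free.ChooseBasisIndex ℤ (𝓞 L)) = finrank ℚ L := by
    rw [← finrank_eq_card_basis b, RingOfIntegers.rank]
  have h2 : (φ.mapMatrix (Algebra.leftMulMatrix b x)).trace = 0 := by
    rw [RingHom.mapMatrix_apply, ← AddMonoidHom.map_trace, ← Algebra.trace_eq_matrix_trace]
    exact (hφ _).2 htr
  rw [h2] at hts
  have h3 : p ^ t ∣ s := (ZMod.natCast_eq_zero_iff s (p ^ t)).1 hts.symm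
  have h4 : s = 0 := Nat.eq_zero_of_dvd_of_lt h3 (by omega)
  have h5 := h0 h4
  have h6 : ∀ i j, ((p : ℤ) ^ t) ∣ Algebra.leftMulMatrix b x i j := fun i j => by
    have h := congrFun (congrFun h5 i) j
    exact (hφ _).1 h
  have h7 : ∀ i, ((p : ℤ) ^ t) ∣ b.repr x i := fun i => by
    have h := congrFun (Algebra.leftMulMatrix_mulVec_repr b x 1) i
    rw [mul_one] at h
    rw [← h, Matrix.mulVec, dotProduct]
    exact Finset.dvd_sum fun j _ => (h6 i j).mul_right _
  rw [← b.sum_repr x]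
  refine Finset.dvd_sum fun i _ => ?_
  obtain ⟨c, hc⟩ := h7 i
  rw [hc, zsmul_eq_mul]
  push_cast
  rw [mul_assoc]
  exact dvd_mul_right _ _

theorem diff_not_dvd (L : Type) [Field L] [NumberField L] {p t : ℕ} (hp : p.Prime)
    (hN : finrank ℚ L < p ^ t) (J Q : Ideal (𝓞 L)) (hJ : J ≠ ⊤) (hc : J ⊔ Q = ⊤)
    (hm : J * Q = Ideal.span {(p : 𝓞 L) ^ t}) : ¬ J ∣ differentIdeal ℤ (𝓞 L) := by
  have hmap : Ideal.map (algebraMap ℤ (𝓞 L)) (Ideal.span {(p : ℤ) ^ t}) =
      Ideal.span {(p : 𝓞 L) ^ t} := by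
    rw [Ideal.map_span, Set.image_singleton, map_pow, map_natCast]
  obtain ⟨a, ha, x, hx, hax⟩ := Submodule.mem_sup.1 ((Ideal.eq_top_iff_one _).1 hc)
  refine not_dvd_differentIdeal_of_intTrace_not_mem ℤ J Q (hm.trans hmap.symm) x hx ?_
  rw [Algebra.intTrace_eq_trace, Ideal.mem_span_singleton]
  intro htr
  have h1 : ((p : 𝓞 L) ^ t) ∣ x * x - x := by
    rw [← Ideal.mem_span_singleton, ← hm]
    have : x * x - x = -(a * x) := by linear_combination x * hax
    rw [this]
    exact neg_mem (Ideal.mul_mem_mul ha hx)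
  have h2 := diff_trace L hp hN h1 htr
  rw [← Ideal.mem_span_singleton, ← hm] at h2
  apply hJ
  rw [Ideal.eq_top_iff_one, ← hax]
  have h' : J * Q ≤ J := Ideal.mul_le_left
  exact add_mem ha (h' h2)

/-- The splitting of `p ^ t` along the different. -/
theorem diff_split (L : Type) [Field L] [NumberField L] {p t : ℕ} (hp : p.Prime)
    (hN : finrank ℚ L < p ^ t) : ∃ H Q : Ideal (𝓞 L),
      Ideal.absNorm H * Ideal.absNorm Q = p ^ (t * finrank ℚ L) ∧ (p : 𝓞 L) ^ t ∈ Q ∧
      padicValNat p (discr L).natAbs = padicValNat p (Ideal.absNorm H) ∧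
      ∀ P : Ideal (𝓞 L), P.IsMaximal → (p : 𝓞 L) ∈ P → Q ≤ P := by
  have := Fact.mk hp
  have hpos : 0 < finrank ℚ L := finrank_pos
  have ht : t ≠ 0 := by
    rintro rfl
    rw [pow_zero] at hN
    omega
  have hp0 : Ideal.span {(p : 𝓞 L) ^ t} ≠ ⊥ := by
    rw [Ne, Ideal.span_singleton_eq_bot]
    exact pow_ne_zero _ (by exact_mod_cast hp.ne_zero)
  obtain ⟨D, Q, H, hrel, hD, hQ⟩ := UniqueFactorizationMonoid.exists_reduced_factors'
    (differentIdeal ℤ (𝓞 L)) (Ideal.span {(p : 𝓞 L) ^ t}) hp0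
  have hnorm : Ideal.absNorm H * Ideal.absNorm Q = p ^ (t * finrank ℚ L) := by
    rw [← map_mul, hQ, ← Ideal.span_singleton_pow, map_pow, Ideal.absNorm_span_natCast,
      RingOfIntegers.rank, ← pow_mul, mul_comm]
  have hall : ∀ P : Ideal (𝓞 L), P.IsMaximal → (p : 𝓞 L) ∈ P → P ∣ Q := by
    intro P hP hpP
    by_contra hPQ
    obtain ⟨Q', hc, hm⟩ := Ideal.eq_prime_pow_mul_coprime hp0 P
    generalize Multiset.count P _ = e at hm
    have he : e ≠ 0 := by
      rintro rfl
      rw [pow_zero, one_mul] at hm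
      apply hP.ne_top
      rw [← hc, ← hm]
      exact (sup_eq_left.2 ((Ideal.span_singleton_le_iff_mem _).2
        (Ideal.pow_mem_of_mem P hpP t (Nat.pos_of_ne_zero ht)))).symm
    have hP0 : P ≠ ⊥ := by
      rintro rfl
      exact hp.ne_zero (by exact_mod_cast (Ideal.mem_bot.1 hpP))
    have hprime : Prime P := Ideal.prime_of_isPrime hP0 hP.isPrime
    have h1 : P ^ e ∣ H := by
      refine hprime.pow_dvd_of_dvd_mul_right e hPQ ?_
      rw [hQ, hm]
      exact dvd_mul_right _ _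
    refine diff_not_dvd L hp hN (P ^ e) Q' ?_ (Ideal.pow_sup_eq_top hc) hm.symm ?_
    · intro h
      exact hP.ne_top (top_le_iff.1 (h ▸ Ideal.pow_le_self he))
    · rw [← hD]
      exact h1.mul_right _
  have hpD : ¬ p ∣ Ideal.absNorm D := by
    intro hpD
    obtain ⟨P, hP, hPp, hPD⟩ := Ideal.exists_isMaximal_dvd_of_dvd_absNorm' hp D hpD
    have hpP : (p : 𝓞 L) ∈ P := by
      have : (p : ℤ) ∈ P.under ℤ := by rw [hPp]; exact Ideal.mem_span_singleton_self _
      simpa [Ideal.under, Ideal.mem_comap] using this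
    exact hP.ne_top (Ideal.isUnit_iff.1 (hrel hPD (hall P hP hpP)))
  refine ⟨H, Q, hnorm, ?_, ?_, fun P hP hpP => Ideal.le_of_dvd (hall P hP hpP)⟩
  · have h1 : H * Q ≤ Q := Ideal.mul_le_right
    exact h1 (hQ ▸ Ideal.mem_span_singleton_self _)
  · have hH0 : Ideal.absNorm H ≠ 0 := fun h => by
      rw [h, zero_mul] at hnorm
      exact pow_ne_zero _ hp.ne_zero hnorm.symm
    have hD0 : Ideal.absNorm D ≠ 0 := fun h => hpD (h ▸ dvd_zero p)
    rw [← absNorm_differentIdeal L (𝒪 := 𝓞 L), ← hD, map_mul, padicValNat.mul hH0 hD0,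
      padicValNat.eq_zero_of_not_dvd hpD, add_zero]

theorem diff_val {p a b n s : ℕ} (hp : p.Prime) (h : a * b = p ^ n) (hs : p ^ s ∣ b) :
    padicValNat p a + s ≤ n := by
  have := Fact.mk hp
  have h0 : a * b ≠ 0 := h ▸ pow_ne_zero _ hp.ne_zero
  have ha : a ≠ 0 := left_ne_zero_of_mul h0
  have hb : b ≠ 0 := right_ne_zero_of_mul h0
  have h1 := padicValNat.mul (p := p) ha hb
  rw [h, padicValNat.prime_pow] at h1
  have h2 := (padicValNat_dvd_iff_le hb).1 hs
  omega

theorem wild (L : Type) [Field L] [NumberField L] {p : ℕ} (hp : p.Prime) :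
    padicValNat p (discr L).natAbs ≤ finrank ℚ L ^ 2 := by
  obtain ⟨H, Q, h1, _, h2, _⟩ := diff_split L hp (t := finrank ℚ L) (Nat.lt_pow_self hp.one_lt)
  have h3 := diff_val (s := 0) hp h1 (by simp)
  rw [h2, sq]
  omega

theorem tame_disc (L : Type) [Field L] [NumberField L] {p : ℕ} (hp : p.Prime)
    (hN : finrank ℚ L < p) {k : Type} [Field k] (hk : (p : k) = 0) (T : Finset (𝓞 L →+* k)) :
    padicValNat p (discr L).natAbs + T.card ≤ finrank ℚ L := by
  classical
  have := Fact.mk hp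
  obtain ⟨H, Q, h1, hpQ, h2, hall⟩ := diff_split L hp (t := 1) (by rwa [pow_one])
  rw [one_mul] at h1
  rw [pow_one] at hpQ
  rw [h2]
  refine diff_val hp h1 ?_
  rcases T.eq_empty_or_nonempty with rfl | ⟨φ0, _⟩
  · simp
  have hker : ∀ φ : 𝓞 L →+* k, ∀ a ∈ Q, φ a = 0 := by
    intro φ a ha
    have hpφ : (p : 𝓞 L) ∈ RingHom.ker φ := by
      rw [RingHom.mem_ker, map_natCast, hk]
    have hne : RingHom.ker φ ≠ ⊥ := by
      intro h
      rw [h] at hpφ
      exact hp.ne_zero (by exact_mod_cast (Ideal.mem_bot.1 hpφ))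
    exact hall _ ((RingHom.ker_isPrime φ).isMaximal hne) hpφ ha
  have hQ0 : Q ≠ ⊥ := by
    rintro rfl
    exact hp.ne_zero (by exact_mod_cast (Ideal.mem_bot.1 hpQ))
  have hnt : Nontrivial (𝓞 L ⧸ Q) := (Ideal.Quotient.lift Q φ0 (hker φ0)).domain_nontrivial
  have hc1 : CharP (𝓞 L ⧸ Q) p := (CharP.charP_iff_prime_eq_zero hp).2 (by
    rw [← map_natCast (Ideal.Quotient.mk Q), Ideal.Quotient.eq_zero_iff_mem]
    exact hpQ)
  have hc2 : CharP k p := (CharP.charP_iff_prime_eq_zero hp).2 hk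
  let _ := ZMod.algebra (𝓞 L ⧸ Q) p
  let _ := ZMod.algebra k p
  have hfin : Finite (𝓞 L ⧸ Q) := Ideal.finiteQuotientOfFreeOfNeBot Q hQ0
  let F : (𝓞 L →+* k) → ((𝓞 L ⧸ Q) →ₐ[ZMod p] k) := fun φ =>
    { toRingHom := Ideal.Quotient.lift Q φ (hker φ)
      commutes' := fun r => RingHom.congr_fun (RingHom.ext_zmod
        ((Ideal.Quotient.lift Q φ (hker φ)).comp (algebraMap (ZMod p) (𝓞 L ⧸ Q)))
        (algebraMap (ZMod p) k)) r }
  have hF : Function.Injective F := by
    intro φ ψ h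
    refine RingHom.ext fun a => ?_
    exact DFunLike.congr_fun h (Ideal.Quotient.mk Q a)
  have hle : T.card ≤ finrank (ZMod p) (𝓞 L ⧸ Q) := by
    refine le_trans ?_ (card_algHom_le_finrank (ZMod p) (𝓞 L ⧸ Q) k)
    rw [← Nat.card_eq_finsetCard]
    exact Nat.card_le_card_of_injective (fun φ : T => F φ.1)
      fun φ ψ h => Subtype.ext (hF h)
  have hcard : Ideal.absNorm Q = p ^ finrank (ZMod p) (𝓞 L ⧸ Q) := by
    rw [Ideal.absNorm_apply, Submodule.cardQuot_apply,
      Module.natCard_eq_pow_finrank (K := ZMod p), Nat.card_zmod]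
  rw [hcard]
  exact pow_dvd_pow p hle

end Pool.Agent.Lib.MP_af4c59_nt.H50
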