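import Pool.Agent.Lib.MP_af4c59_nt.H50Main
import Pool.Agent.Variants.MP_af4c59_nt.UniformExponent

/-!
The number of degree `n` extensions of a number field `K` of degree `k` with Galois group inside
`G` and absolute norm of the relative discriminant at most `X` is
`O(X ^ (532 * ⌈log₂ d⌉ * ⌈log₂ (s + 2)⌉ / (s + 1)))`, where `d` colours distinguish the elements
of `G` and `2 ^ 17 * s ^ 2 * k * ⌈log₂ (k |G|)⌉` is at most the least index in `G`.
-/

namespace Pool.Agent.Lib.MP_af4c59_nt.H50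

open NumberField

lemma final_weaken {α : Type} {F : ℝ → Set α} {E E' : ℝ} (hE : E ≤ E')
    (h : ∃ c : ℝ, ∀ X : ℝ, 1 ≤ X → ∀ S : Set α, S = F X →
      S.Finite ∧ (S.ncard : ℝ) ≤ c * X ^ E) :
    ∃ c : ℝ, ∀ X : ℝ, 1 ≤ X → ∀ S : Set α, S = F X →
      S.Finite ∧ (S.ncard : ℝ) ≤ c * X ^ E' := by
  obtain ⟨c, hc⟩ := h
  refine ⟨max c 0, fun X hX S hS => ⟨(hc X hX S hS).1, (hc X hX S hS).2.trans ?_⟩⟩
  exact mul_le_mul (le_max_left _ _) (Real.rpow_le_rpow_of_exponent_le hX hE)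
    (Real.rpow_nonneg (by linarith) _) (le_max_right _ _)

lemma final_arith {s : ℕ} (hs : 2 ≤ s) :
    19300 * Nat.clog 2 (256 * s) * (s + 1) ≤ 532 * Nat.clog 2 (s + 2) * (256 * s) := by
  have h1 : Nat.clog 2 (256 * s) ≤ 8 + Nat.clog 2 s := by
    refine Nat.clog_le_of_le_pow ?_
    rw [pow_add]
    exact Nat.mul_le_mul (by norm_num) (Nat.le_pow_clog (by norm_num) s)
  rcases hs.eq_or_lt with rfl | h3
  · have h2 : Nat.clog 2 (256 * 2) ≤ 9 := Nat.clog_le_of_le_pow (by norm_num)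
    have h3 : 1 < Nat.clog 2 (2 + 2) := (Nat.lt_clog_iff_pow_lt (by norm_num)).mpr (by norm_num)
    omega
  · have h2 : Nat.clog 2 s ≤ Nat.clog 2 (s + 2) := Nat.clog_mono_right _ (by omega)
    have h4 : 2 < Nat.clog 2 (s + 2) := (Nat.lt_clog_iff_pow_lt (by norm_num)).mpr (by omega)
    have h5 : Nat.clog 2 (256 * s) ≤ 4 * Nat.clog 2 (s + 2) := by omega
    calc 19300 * Nat.clog 2 (256 * s) * (s + 1)
        ≤ 19300 * (4 * Nat.clog 2 (s + 2)) * (s + 1) :=
          Nat.mul_le_mul_right _ (Nat.mul_le_mul_left _ h5)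
      _ = Nat.clog 2 (s + 2) * (77200 * (s + 1)) := by ring
      _ ≤ Nat.clog 2 (s + 2) * (136192 * s) := Nat.mul_le_mul_left _ (by omega)
      _ = _ := by ring

theorem final :
    ∀ (K : Type) [Field K] [NumberField K] (n : ℕ) (G : Subgroup (Equiv.Perm (Fin n)))
      (d m s : ℕ), 2 ≤ n → 2 ≤ d →
      (∀ g ∈ G, g ≠ 1 → m ≤ g.cycleType.sum - Multiset.card g.cycleType) →
      ((∃ χ : Fin n → Fin d, ∀ g ∈ G, (∀ i, χ (g i) = χ i) → g = 1) ∨ Nat.card G ≤ d ^ m) →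
      2 ^ 17 * s ^ 2 *
        (Module.finrank ℚ K * Nat.clog 2 (Module.finrank ℚ K * Nat.card G)) ≤ m →
      ∃ c : ℝ, ∀ X : ℝ, 1 ≤ X →
      ∀ S : Set (IntermediateField K (AlgebraicClosure K)),
        S = {L : IntermediateField K (AlgebraicClosure K) | Module.finrank K L = n ∧
          (∃ e : (↥L →ₐ[K] AlgebraicClosure K) ≃ Fin n,
            ∀ σ : AlgebraicClosure K ≃ₐ[K] AlgebraicClosure K, ∃ τ ∈ G,
              ∀ φ : ↥L →ₐ[K] AlgebraicClosure K, τ (e φ) = e (σ.toAlgHom.comp φ)) ∧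
          ∃ _ : NumberField L,
            (Ideal.absNorm (differentIdeal (RingOfIntegers K) (RingOfIntegers L)) : ℝ) ≤ X} →
        S.Finite ∧ (S.ncard : ℝ) ≤
          c * X ^ (532 * (Nat.clog 2 d : ℝ) * (Nat.clog 2 (s + 2) : ℝ) / ((s : ℝ) + 1)) := by
  intro K _ _ n G d m s hn hd hm hcol hs
  have hd1 : (1 : ℝ) ≤ Nat.clog 2 d := by exact_mod_cast Nat.clog_pos (by norm_num) hd
  have hs0 : (0 : ℝ) < (s : ℝ) + 1 := by positivity
  by_cases h2 : s < 2
  · have h := Pool.Agent.Variants.MP_af4c59_nt.UniformExponent.result K n G d hn hd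
      (hcol.imp id fun h => ⟨m, hm, h⟩)
    simp only [← Real.rpow_natCast] at h
    refine final_weaken ?_ h
    have h3 : s + 1 ≤ Nat.clog 2 (s + 2) := by
      refine Nat.succ_le_of_lt ((Nat.lt_clog_iff_pow_lt (by norm_num)).mpr ?_)
      interval_cases s <;> norm_num
    have h4 : (s : ℝ) + 1 ≤ Nat.clog 2 (s + 2) := by exact_mod_cast h3
    rw [le_div_iff₀ hs0]
    push_cast
    exact mul_le_mul_of_nonneg_left h4 (by positivity)
  by_cases hG : ∀ i j : Fin n, ∃ g ∈ G, g i = j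
  · refine final_weaken ?_ (main K n G m (256 * s) hn hG (by omega) hm
      (le_trans (le_of_eq (by ring)) hs))
    have h3 : (19300 * Nat.clog 2 (256 * s) * (s + 1) : ℝ) ≤
        532 * Nat.clog 2 (s + 2) * ((256 * s : ℕ) : ℝ) := by
      exact_mod_cast final_arith (not_lt.mp h2)
    have h4 : (0 : ℝ) < ((256 * s : ℕ) : ℝ) := by exact_mod_cast (by omega : 0 < 256 * s)
    rw [div_le_div_iff₀ h4 hs0]
    refine h3.trans (mul_le_mul_of_nonneg_right ?_ h4.le)
    have h5 : (0 : ℝ) ≤ Nat.clog 2 (s + 2) := Nat.cast_nonneg _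
    nlinarith
  · refine ⟨0, fun X hX S hS => ?_⟩
    have hE : S = ∅ := by
      rw [hS]
      refine Set.eq_empty_of_forall_notMem fun L ⟨_, ⟨e, he⟩, _⟩ => hG fun i j => ?_
      have lift : ∀ φ : ↥L →ₐ[K] AlgebraicClosure K,
          ∃ σ : AlgebraicClosure K ≃ₐ[K] AlgebraicClosure K, ∀ a : L, σ a = φ a := fun φ =>
        ⟨AlgEquiv.ofBijective (φ.liftNormal (AlgebraicClosure K))
          (AlgHom.normal_bijective K (AlgebraicClosure K) (AlgebraicClosure K) _), fun a => by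
            simpa using φ.liftNormal_commutes (AlgebraicClosure K) a⟩
      obtain ⟨σ₁, h₁⟩ := lift (e.symm i)
      obtain ⟨σ₂, h₂⟩ := lift (e.symm j)
      obtain ⟨τ, hτ, h3⟩ := he (σ₁.symm.trans σ₂)
      refine ⟨τ, hτ, ?_⟩
      have h4 := h3 (e.symm i)
      rw [Equiv.apply_symm_apply] at h4
      rw [h4, ← Equiv.eq_symm_apply]
      ext a
      simp [← h₁, ← h₂]
    simp [hE]

end Pool.Agent.Lib.MP_af4c59_nt.H50
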