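import Pool.Agent.Lib.MP_af4c59_nt.H50Defs

/-!
Tame inertia in a finite Galois extension of `ℚ`.
-/

namespace Pool.Agent.Lib.MP_af4c59_nt.H50

open NumberField

variable {M : Type} [Field M] [NumberField M] [IsGalois ℚ M]

/-- `y` lies in the ideal `J` of the ring of integers. -/
def In (J : Ideal (𝓞 M)) (y : M) : Prop := ∃ z ∈ J, (z : M) = y

section Abstract

variable {S : Type} [CommRing S] {P : Ideal S}

lemma in_map {g : S →+* S} (hg : ∀ y, g y - y ∈ P) (j : ℕ) {y : S} (hy : y ∈ P ^ j) :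
    g y ∈ P ^ j := by
  have h : P.map g ≤ P := by
    rw [Ideal.map_le_iff_le_comap]
    intro x hx
    have h1 := P.add_mem (hg x) hx
    rwa [sub_add_cancel] at h1
  have h2 := Ideal.mem_map_of_mem g hy
  rw [Ideal.map_pow] at h2
  exact Ideal.pow_right_mono h j h2

lemma in_act {g : S →+* S} (hg : ∀ y, g y - y ∈ P) {u : S}
    (hu : ∀ y ∈ P, g y - u * y ∈ P ^ 2) :
    ∀ j, ∀ y ∈ P ^ j, g y - u ^ j * y ∈ P ^ (j + 1) := by
  intro j
  induction j with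
  | zero =>
    intro y _
    simpa using hg y
  | succ j ih =>
    intro y hy
    rw [pow_succ] at hy
    refine Submodule.mul_induction_on hy (fun a ha b hb => ?_) fun a b ha hb => ?_
    · have e : g (a * b) - u ^ (j + 1) * (a * b) =
          (g a - u ^ j * a) * g b + u ^ j * (a * (g b - u * b)) := by
        rw [map_mul]
        ring
      rw [e]
      refine add_mem ?_ (Ideal.mul_mem_left _ _ ?_)
      · rw [pow_succ P (j + 1)]
        have hb' := in_map hg 1 (by rwa [pow_one])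
        rw [pow_one] at hb'
        exact Ideal.mul_mem_mul (ih a ha) hb'
      · rw [add_assoc, pow_add]
        exact Ideal.mul_mem_mul ha (hu b hb)
    · have e : g (a + b) - u ^ (j + 1) * (a + b) =
          (g a - u ^ (j + 1) * a) + (g b - u ^ (j + 1) * b) := by
        rw [map_add]
        ring
      rw [e]
      exact add_mem ha hb

lemma in_congr {g : S →+* S} {u u' : S} (hu : ∀ y ∈ P, g y - u * y ∈ P ^ 2) (h : u - u' ∈ P) :
    ∀ y ∈ P, g y - u' * y ∈ P ^ 2 := by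
  intro y hy
  have e : g y - u' * y = (g y - u * y) + (u - u') * y := by ring
  rw [e]
  refine add_mem (hu y hy) ?_
  rw [pow_two]
  exact Ideal.mul_mem_mul h hy

lemma in_mul {g g' : S →+* S} (hg : ∀ y, g y - y ∈ P) {u u' : S}
    (hu : ∀ y ∈ P, g y - u * y ∈ P ^ 2) (hu' : ∀ y ∈ P, g' y - u' * y ∈ P ^ 2) :
    ∀ y ∈ P, g (g' y) - u * u' * y ∈ P ^ 2 := by
  intro y hy
  have e : g (g' y) - u * u' * y =
      g (g' y - u' * y) + ((g u' - u') * g y + u' * (g y - u * y)) := by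
    rw [map_sub, map_mul]
    ring
  rw [e]
  refine add_mem (in_map hg 2 (hu' y hy)) (add_mem ?_ (Ideal.mul_mem_left _ _ (hu y hy)))
  have hy' := in_map hg 1 (by rwa [pow_one])
  rw [pow_one] at hy'
  rw [pow_two]
  exact Ideal.mul_mem_mul (hg u') hy'

lemma in_exists [IsDedekindDomain S] [P.IsPrime] (hP : P ≠ ⊥) {a : S} (h1 : a ∈ P)
    (h2 : a ∉ P ^ 2) {g : S →+* S} (hg : ∀ y, g y - y ∈ P) :
    ∃ u, ∀ y ∈ P, g y - u * y ∈ P ^ 2 := by
  have h1' : a ∈ P ^ 1 := by rwa [pow_one]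
  obtain ⟨u, e, he, hu⟩ := Ideal.exists_mul_add_mem_pow_succ hP a (g a) h1' h2 (in_map hg 1 h1')
  refine ⟨u, fun y hy => ?_⟩
  obtain ⟨d, f, hf, rfl⟩ := Ideal.exists_mul_add_mem_pow_succ hP a y h1' h2 (by rwa [pow_one])
  have e1 : g (a * d + f) - u * (a * d + f) =
      e * g d + u * (a * (g d - d)) + g f - u * f := by
    rw [map_add, map_mul, ← hu]
    ring
  rw [e1]
  refine sub_mem (add_mem (add_mem (Ideal.mul_mem_right _ _ he) (Ideal.mul_mem_left _ _ ?_))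
    (in_map hg 2 hf)) (Ideal.mul_mem_left _ _ hf)
  rw [pow_two]
  exact Ideal.mul_mem_mul h1 (hg d)

lemma in_unique [P.IsMaximal] {a : S} (h2 : a ∉ P ^ 2) {x u u' : S} (hu : x - u * a ∈ P ^ 2)
    (hu' : x - u' * a ∈ P ^ 2) : u - u' ∈ P := by
  have h : (u - u') * a ∈ P ^ 2 := by
    have e : (u - u') * a = (x - u' * a) - (x - u * a) := by ring
    rw [e]
    exact sub_mem hu' hu
  exact (Ideal.IsMaximal.mul_mem_pow P h).resolve_right h2

lemma in_faithful [IsDomain S] [IsNoetherianRing S] [hP : P.IsMaximal] {g : S →+* S}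
    (hg : ∀ y, g y - y ∈ P) (hu : ∀ y ∈ P, g y - 1 * y ∈ P ^ 2) {n : ℕ} (hn : (n : S) ∉ P)
    (h1 : ∀ y, g^[n] y = y) (y : S) : g y = y := by
  have hact : ∀ j, ∀ z ∈ P ^ j, ∀ t, g^[t] z - z ∈ P ^ (j + 1) := by
    intro j z hz t
    induction t with
    | zero => simp
    | succ t ih =>
      have h2 := in_act hg hu j z hz
      rw [one_pow, one_mul] at h2
      have e : g^[t + 1] z - z = g (g^[t] z - z) + (g z - z) := by
        rw [Function.iterate_succ_apply', map_sub]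
        ring
      rw [e]
      exact add_mem (in_map hg _ ih) h2
  have key : ∀ j, g y - y ∈ P ^ j := by
    intro j
    induction j with
    | zero => simp
    | succ j ih =>
      have h2 : ∑ t ∈ Finset.range n, g^[t] (g y - y) = 0 := by
        have h3 : ∀ t, g^[t] (g y - y) = g^[t + 1] y - g^[t] y := fun t => by
          rw [iterate_map_sub, Function.iterate_succ_apply]
        simp only [h3]
        rw [Finset.sum_range_sub fun t => g^[t] y, h1, Function.iterate_zero_apply, sub_self]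
      have h4 : (n : S) * (g y - y) =
          -∑ t ∈ Finset.range n, (g^[t] (g y - y) - (g y - y)) := by
        rw [Finset.sum_sub_distrib, h2, Finset.sum_const, Finset.card_range, nsmul_eq_mul,
          zero_sub, neg_neg]
      have h5 : (n : S) * (g y - y) ∈ P ^ (j + 1) := by
        rw [h4]
        exact neg_mem (Ideal.sum_mem _ fun t _ => hact j _ ih t)
      exact (Ideal.IsMaximal.mul_mem_pow P h5).resolve_left hn
  have h6 : g y - y ∈ ⨅ j, P ^ j := Ideal.mem_iInf.mpr key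
  rw [Ideal.iInf_pow_eq_bot_of_isDomain P hP.ne_top] at h6
  exact sub_eq_zero.mp h6

lemma in_prim [IsDomain S] [P.IsPrime] {w : S} {n : ℕ} (hw : IsPrimitiveRoot w n)
    (hn : (n : S) ∉ P) : IsPrimitiveRoot (Ideal.Quotient.mk P w) n := by
  obtain rfl | ⟨m, rfl⟩ : n = 0 ∨ ∃ m, n = m + 1 := by
    cases n
    · exact Or.inl rfl
    · exact Or.inr ⟨_, rfl⟩
  · exact absurd (by simp) hn
  refine IsPrimitiveRoot.mk_of_lt _ (Nat.succ_pos m) (by rw [← map_pow, hw.pow_eq_one, map_one])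
    fun l h0 hl h => hn ?_
  have h1 := hw.prod_one_sub_pow_eq_order
  obtain ⟨k, rfl⟩ : ∃ k, l = k + 1 := ⟨l - 1, by omega⟩
  rw [Nat.cast_add, Nat.cast_one, ← h1]
  refine Ideal.mem_of_dvd P (Finset.dvd_prod_of_mem _ (Finset.mem_range.mpr (by omega : k < m))) ?_
  rw [← Ideal.Quotient.eq, map_one, map_pow, h]

lemma in_eigen [P.IsMaximal] {g : S →+* S} (hg : ∀ y, g y - y ∈ P) {z : S}
    (hz : ∀ y ∈ P, g y - z * y ∈ P ^ 2) {n : ℕ}
    (hp : IsPrimitiveRoot (Ideal.Quotient.mk P z) n) {y : S} {j : ℕ} (hj : j < n)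
    (hy : g y = z ^ j * y) : y ∈ P ^ j := by
  have key : ∀ i, i ≤ j → y ∈ P ^ i := by
    intro i
    induction i with
    | zero => intro _; simp
    | succ i ih =>
      intro hi
      have h1 := in_act hg hz i y (ih (by omega))
      rw [hy, ← sub_mul] at h1
      refine (Ideal.IsMaximal.mul_mem_pow P h1).resolve_left fun h => ?_
      rw [← Ideal.Quotient.eq, map_pow, map_pow] at h
      have := hp.pow_inj hj (by omega) h
      omega
  exact key j le_rfl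

end Abstract

omit [IsGalois ℚ M] in
lemma in_iff {J : Ideal (𝓞 M)} (σ : M ≃ₐ[ℚ] M) (y : 𝓞 M) : In J (σ y - y) ↔ σ • y - y ∈ J := by
  constructor
  · rintro ⟨z, hz, e⟩
    have h : σ • y - y = z := RingOfIntegers.ext (by rw [e]; rfl)
    rwa [h]
  · intro h
    exact ⟨_, h, rfl⟩

theorem inertia {p : ℕ} (hp : p.Prime) (𝔓 : Ideal (𝓞 M)) (h𝔓 : 𝔓.IsMaximal)
    (hp𝔓 : (p : 𝓞 M) ∈ 𝔓) {n0 : ℕ} (hn0 : ¬ p ∣ n0) {ω : M} (hω : IsPrimitiveRoot ω n0)
    (hG : ∀ σ : M ≃ₐ[ℚ] M, σ ω = ω → σ ^ n0 = 1) :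
    ∃ (g : M ≃ₐ[ℚ] M) (ζ : M) (n : ℕ), 0 < n ∧ n ∣ n0 ∧ IsPrimitiveRoot ζ n ∧ g ^ n = 1 ∧
      g ζ = ζ ∧ (∃ 𝔞 : Ideal (𝓞 M), Ideal.span {(p : 𝓞 M)} = 𝔓 ^ n * 𝔞 ∧ 𝔓 ⊔ 𝔞 = ⊤) ∧
      (∀ y : 𝓞 M, ∀ j < n, g y = ζ ^ j * y → y ∈ 𝔓 ^ j) ∧
      ∀ σ : M ≃ₐ[ℚ] M, (∀ y : 𝓞 M, In 𝔓 (σ y - y)) → ∃ t : ℕ, σ = g ^ t := by
  classical
  have hp' : Prime (p : ℤ) := Nat.prime_iff_prime_int.mp hp
  have hb0 : Ideal.span {(p : ℤ)} ≠ ⊥ := Ideal.span_singleton_eq_bot.not.mpr hp'.ne_zero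
  have hsp : (Ideal.span {(p : ℤ)}).IsPrime := (Ideal.span_singleton_prime hp'.ne_zero).mpr hp'
  have hsm : (Ideal.span {(p : ℤ)}).IsMaximal := hsp.isMaximal hb0
  have hover : Ideal.span {(p : ℤ)} = 𝔓.under ℤ := by
    refine hsm.eq_of_le (Ideal.comap_ne_top _ h𝔓.ne_top) ?_
    rw [Ideal.span_singleton_le_iff_mem, Ideal.under_def, Ideal.mem_comap]
    simpa using hp𝔓
  have hl : 𝔓.LiesOver (Ideal.span {(p : ℤ)}) := ⟨hover⟩
  have hP0 : 𝔓 ≠ ⊥ := Ideal.ne_bot_of_liesOver_of_ne_bot hb0 𝔓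
  have hn0' : (n0 : 𝓞 M) ∉ 𝔓 := by
    intro h
    apply hn0
    have h1 : (n0 : ℤ) ∈ 𝔓.under ℤ := by
      rw [Ideal.under_def, Ideal.mem_comap]
      simpa using h
    rwa [← hover, Ideal.mem_span_singleton, Int.natCast_dvd_natCast] at h1
  have hn00 : n0 ≠ 0 := by
    rintro rfl
    exact hn0 (dvd_zero p)
  have : NeZero n0 := ⟨hn00⟩
  have hGal : IsGaloisGroup Gal(M/ℚ) ℤ (𝓞 M) :=
    IsGaloisGroup.of_isFractionRing Gal(M/ℚ) ℤ (𝓞 M) ℚ M
  have hfin : Finite (ℤ ⧸ Ideal.span {(p : ℤ)}) := Ideal.finiteQuotientOfFreeOfNeBot _ hb0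
  have hperf : PerfectField (Ideal.span {(p : ℤ)}).ResidueField := inferInstance
  have hc := Ideal.card_inertia_eq_ramificationIdxIn (G := Gal(M/ℚ)) (Ideal.span {(p : ℤ)}) 𝔓
  have hmap : (Ideal.span {(p : ℤ)}).map (algebraMap ℤ (𝓞 M)) = Ideal.span {(p : 𝓞 M)} := by
    rw [Ideal.map_span, Set.image_singleton, map_natCast]
  have hp0 : Ideal.span {(p : 𝓞 M)} ≠ ⊥ := by
    rw [Ne, Ideal.span_singleton_eq_bot]
    exact_mod_cast hp.ne_zero
  rw [Ideal.ramificationIdxIn_eq_ramificationIdx (Ideal.span {(p : ℤ)}) 𝔓 Gal(M/ℚ),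
    Ideal.IsDedekindDomain.ramificationIdx_eq_normalizedFactors_count (Ideal.span {(p : ℤ)}) 𝔓
      (by rwa [hmap]), hmap] at hc
  obtain ⟨𝔞, h𝔞1, h𝔞2⟩ := Ideal.eq_prime_pow_mul_coprime hp0 𝔓
  rw [← hc] at h𝔞2
  set J := 𝔓.inertia Gal(M/ℚ) with hJ
  let w : 𝓞 M := hω.toInteger
  have hw : IsPrimitiveRoot w n0 := hω.toInteger_isPrimitiveRoot
  have hwq := in_prim hw hn0'
  have hinj : ∀ a b : ℕ, Ideal.Quotient.mk 𝔓 w ^ a = Ideal.Quotient.mk 𝔓 w ^ b →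
      w ^ a = w ^ b := by
    intro a b h
    have hpos : 0 < n0 := Nat.pos_of_ne_zero hn00
    rw [pow_eq_pow_mod a hwq.pow_eq_one, pow_eq_pow_mod b hwq.pow_eq_one] at h
    rw [pow_eq_pow_mod a hw.pow_eq_one, pow_eq_pow_mod b hw.pow_eq_one,
      hwq.pow_inj (Nat.mod_lt _ hpos) (Nat.mod_lt _ hpos) h]
  let r : J → 𝓞 M →+* 𝓞 M := fun σ => MulSemiringAction.toRingHom Gal(M/ℚ) (𝓞 M) σ.1
  have hr : ∀ σ y, r σ y - y ∈ 𝔓 := fun σ y => σ.2 y
  have hfix : ∀ σ : J, r σ w = w := by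
    intro σ
    obtain ⟨i, -, hi⟩ := hw.eq_pow_of_pow_eq_one (ξ := r σ w)
      (by rw [← map_pow, hw.pow_eq_one, map_one])
    have h1 := hr σ w
    rw [← Ideal.Quotient.eq, ← hi, map_pow] at h1
    rw [← hi, hinj i 1 (by rwa [pow_one]), pow_one]
  have hfix' : ∀ σ : J, σ.1 ω = ω := fun σ => congrArg (fun y : 𝓞 M => (y : M)) (hfix σ)
  have hord : ∀ σ : J, σ ^ n0 = 1 := fun σ => Subtype.ext (hG σ.1 (hfix' σ))
  obtain ⟨a, ha1, ha2⟩ := Ideal.exists_mem_pow_notMem_pow_succ 𝔓 hP0 h𝔓.ne_top 1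
  rw [pow_one] at ha1
  choose u hu using fun σ : J => in_exists hP0 ha1 ha2 (hr σ)
  let χ : J →* 𝓞 M ⧸ 𝔓 :=
    { toFun := fun σ => Ideal.Quotient.mk 𝔓 (u σ)
      map_one' := by
        rw [← map_one (Ideal.Quotient.mk 𝔓), Ideal.Quotient.eq]
        refine in_unique ha2 (hu 1 a ha1) ?_
        have h : r 1 a = a := one_smul Gal(M/ℚ) a
        rw [h, one_mul, sub_self]
        exact zero_mem _
      map_mul' := fun σ τ => by
        rw [← map_mul, Ideal.Quotient.eq]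
        refine in_unique ha2 (hu (σ * τ) a ha1) ?_
        have h : r (σ * τ) a = r σ (r τ a) := mul_smul σ.1 τ.1 a
        rw [h]
        exact in_mul (hr σ) (hu σ) (hu τ) a ha1 }
  have hχ : ∀ σ, χ σ = Ideal.Quotient.mk 𝔓 (u σ) := fun _ => rfl
  have hχi : Function.Injective χ := by
    rw [injective_iff_map_eq_one]
    intro σ hσ
    rw [hχ, ← map_one (Ideal.Quotient.mk 𝔓), Ideal.Quotient.eq] at hσ
    have h1 : ∀ t y, (r σ)^[t] y = r (σ ^ t) y := by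
      intro t y
      induction t with
      | zero => exact (one_smul Gal(M/ℚ) y).symm
      | succ t ih =>
        rw [Function.iterate_succ_apply', ih, pow_succ']
        exact (mul_smul σ.1 (σ ^ t).1 y).symm
    have h2 := in_faithful (hr σ) (in_congr (hu σ) hσ) hn0' fun y => by
      rw [h1, hord]
      exact one_smul Gal(M/ℚ) y
    have := hGal.faithful
    exact Subtype.ext (eq_of_smul_eq_smul (α := 𝓞 M) fun y => (h2 y).trans (one_smul _ y).symm)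
  have hcyc : IsCyclic J := isCyclic_of_injective_ringHom χ hχi
  obtain ⟨g, hg⟩ := IsCyclic.exists_monoid_generator (α := J)
  have hgo : orderOf g = Nat.card J := orderOf_eq_card_of_forall_mem_powers hg
  have hprim : IsPrimitiveRoot (χ g) (Nat.card J) := by
    rw [← hgo, ← orderOf_injective χ hχi g]
    exact IsPrimitiveRoot.orderOf _
  obtain ⟨i, -, hi⟩ := hwq.eq_pow_of_pow_eq_one (ξ := χ g) (by rw [← map_pow, hord, map_one])
  have hz : IsPrimitiveRoot (w ^ i) (Nat.card J) := by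
    constructor
    · rw [← pow_mul, hinj (i * Nat.card J) 0 (by rw [pow_mul, hi, hprim.pow_eq_one, pow_zero]),
        pow_zero]
    · intro l hl
      apply hprim.dvd_of_pow_eq_one
      rw [← hi, ← map_pow, ← map_pow, hl, map_one]
  refine ⟨g.1, ω ^ i, Nat.card J, Nat.card_pos, ?_, ?_, ?_, ?_, ⟨𝔞, h𝔞2, h𝔞1⟩, ?_, ?_⟩
  · rw [← hgo]
    exact orderOf_dvd_of_pow_eq_one (hord g)
  · have h := hz.map_of_injective (f := algebraMap (𝓞 M) M) RingOfIntegers.coe_injective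
    rwa [map_pow] at h
  · have h : g ^ Nat.card J = 1 := pow_card_eq_one'
    exact congrArg Subtype.val h
  · rw [map_pow, hfix']
  · intro y j hj hy
    refine in_eigen (hr g) (z := w ^ i) (in_congr (hu g) ?_) (by rwa [map_pow, hi]) hj ?_
    · rw [← Ideal.Quotient.eq, map_pow, hi, hχ]
    · exact RingOfIntegers.ext (by push_cast; exact hy)
  · intro σ hσ
    obtain ⟨t, ht⟩ := hg ⟨σ, fun y => (in_iff σ y).mp (hσ y)⟩
    exact ⟨t, (congrArg Subtype.val ht).symm⟩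

lemma same_aux (𝔓 : Ideal (𝓞 M)) (h𝔓 : 𝔓.IsMaximal) {L : Type} [Field L] [NumberField L]
    [Algebra L M] (τ : M ≃ₐ[ℚ] M)
    (h : ∀ a : 𝓞 L, τ • algebraMap (𝓞 L) (𝓞 M) a - algebraMap (𝓞 L) (𝓞 M) a ∈ 𝔓) :
    ∃ σ : M ≃ₐ[ℚ] M, (∀ y : 𝓞 M, σ • y - y ∈ 𝔓) ∧
      ∀ a, σ (algebraMap L M a) = τ (algebraMap L M a) := by
  have hg : IsGalois L M := IsGalois.tower_top_of_isGalois ℚ L M
  have hfd : FiniteDimensional L M := Module.Finite.of_restrictScalars_finite ℚ L M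
  have hGal : IsGaloisGroup Gal(M/L) (𝓞 L) (𝓞 M) :=
    IsGaloisGroup.of_isFractionRing Gal(M/L) (𝓞 L) (𝓞 M) L M
  have := hGal.commutes
  have := hGal.isInvariant
  let t : 𝓞 M ≃+* 𝓞 M := MulSemiringAction.toRingEquiv Gal(M/ℚ) (𝓞 M) τ
  have ht : ∀ y, t y = τ • y := fun _ => rfl
  obtain ⟨u, hu⟩ := Algebra.IsInvariant.exists_smul_of_under_eq (𝓞 L) (𝓞 M) Gal(M/L) 𝔓
    (𝔓.comap t) (by
      ext a
      rw [Ideal.under_def, Ideal.under_def, Ideal.mem_comap, Ideal.mem_comap, Ideal.mem_comap, ht]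
      constructor
      · intro ha
        have h1 := 𝔓.add_mem (h a) ha
        rwa [sub_add_cancel] at h1
      · intro ha
        have h1 := 𝔓.sub_mem ha (h a)
        rwa [sub_sub_cancel] at h1)
  let v : 𝓞 M ≃+* 𝓞 M := (MulSemiringAction.toRingEquiv Gal(M/L) (𝓞 M) u).trans t
  have hv : ∀ y, v y = τ • u • y := fun _ => rfl
  have hvm : ∀ y, v y ∈ 𝔓 ↔ y ∈ 𝔓 := by
    intro y
    rw [← Ideal.smul_mem_pointwise_smul_iff (a := u) (x := y), ← hu, Ideal.mem_comap]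
    rfl
  have hmap : 𝔓 = 𝔓.map (v : 𝓞 M →+* 𝓞 M) := by
    ext y
    obtain ⟨x, rfl⟩ := v.surjective y
    rw [hvm]
    exact ⟨fun hx => Ideal.mem_map_of_mem (v : 𝓞 M →+* 𝓞 M) hx,
      fun hx => (Ideal.apply_mem_of_equiv_iff (f := v)).mp hx⟩
  let f : (𝓞 M ⧸ 𝔓) ≃ₐ[𝓞 L ⧸ 𝔓.under (𝓞 L)] (𝓞 M ⧸ 𝔓) :=
    AlgEquiv.ofRingEquiv (f := Ideal.quotientEquiv 𝔓 𝔓 v hmap) (by
      intro x
      obtain ⟨a, rfl⟩ := Ideal.Quotient.mk_surjective x
      show Ideal.Quotient.mk 𝔓 (v (algebraMap (𝓞 L) (𝓞 M) a)) =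
        Ideal.Quotient.mk 𝔓 (algebraMap (𝓞 L) (𝓞 M) a)
      rw [Ideal.Quotient.eq, hv, smul_algebraMap]
      exact h a)
  obtain ⟨u', hu'⟩ := Ideal.Quotient.stabilizerHom_surjective Gal(M/L) (𝔓.under (𝓞 L)) 𝔓 f
  have h1 : ∀ y, v y - u'.1 • y ∈ 𝔓 := by
    intro y
    rw [← Ideal.Quotient.eq]
    exact (DFunLike.congr_fun hu' (Ideal.Quotient.mk 𝔓 y)).symm
  refine ⟨τ * (u * u'.1⁻¹).restrictScalars ℚ, fun y => ?_, fun a => ?_⟩
  · have h2 := h1 (u'.1⁻¹ • y)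
    rw [smul_inv_smul] at h2
    exact h2
  · rw [AlgEquiv.mul_apply, AlgEquiv.restrictScalars_apply, AlgEquiv.commutes]

theorem same_orbit (𝔓 : Ideal (𝓞 M)) (h𝔓 : 𝔓.IsMaximal) {L : Type} [Field L] [NumberField L]
    (φ ψ : L →ₐ[ℚ] M) (h : ∀ a : 𝓞 L, In 𝔓 (φ a - ψ a)) :
    ∃ σ : M ≃ₐ[ℚ] M, (∀ y : 𝓞 M, In 𝔓 (σ y - y)) ∧ ∀ a, σ (φ a) = ψ a := by
  let _ : Algebra L M := φ.toRingHom.toAlgebra
  let τ : M ≃ₐ[ℚ] M := AlgEquiv.ofBijective (ψ.liftNormal M)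
    (Algebra.IsAlgebraic.algHom_bijective _)
  have hτ : ∀ a, τ (φ a) = ψ a := fun a => ψ.liftNormal_commutes M a
  obtain ⟨σ, h1, h2⟩ := same_aux 𝔓 h𝔓 (L := L) τ fun a => by
    obtain ⟨z, hz, e⟩ := h a
    have h3 : τ • algebraMap (𝓞 L) (𝓞 M) a - algebraMap (𝓞 L) (𝓞 M) a = -z := by
      apply RingOfIntegers.ext
      show τ (φ a) - φ a = -(z : M)
      rw [e, hτ, neg_sub]
    rw [h3]
    exact neg_mem hz
  exact ⟨σ, fun y => (in_iff σ y).mpr (h1 y), fun a => (h2 a).trans (hτ a)⟩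

end Pool.Agent.Lib.MP_af4c59_nt.H50
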