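import Pool.Agent.Lib.MP_af4c59_nt.H50Defs

/-!
The Galois action over `ℚ` on the embeddings of an extension of `K` lies in a wreath product.
-/

namespace Pool.Agent.Lib.MP_af4c59_nt.H50

open Module Pool.Agent.Lib.MP_af4c59_nt.H11

/-- The wreath product of `G` with the symmetric group on `E`. -/
def wr (E : Type) {n : ℕ} (G : Subgroup (Equiv.Perm (Fin n))) :
    Subgroup (Equiv.Perm (E × Fin n)) where
  carrier := {π | ∃ (s : Equiv.Perm E) (τ : E → G), ∀ t i, π (t, i) = (s t, (τ t).1 i)}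
  one_mem' := ⟨1, 1, fun _ _ => rfl⟩
  mul_mem' := by
    rintro π π' ⟨s, τ, h⟩ ⟨s', τ', h'⟩
    exact ⟨s * s', fun t => τ (s' t) * τ' t, fun t i => by
      rw [Equiv.Perm.mul_apply, h', h]; rfl⟩
  inv_mem' := by
    rintro π ⟨s, τ, h⟩
    refine ⟨s⁻¹, fun t => (τ (s⁻¹ t))⁻¹, fun t i => ?_⟩
    rw [Equiv.Perm.inv_eq_iff_eq, h]
    simp

lemma wr_support {E : Type} [Fintype E] {n : ℕ} {G : Subgroup (Equiv.Perm (Fin n))} {m : ℕ}
    (hmn : m ≤ n) (hm : ∀ g ∈ G, g ≠ 1 → m ≤ g.support.card) [DecidableEq (E × Fin n)] :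
    ∀ π ∈ wr E G, π ≠ 1 → m ≤ π.support.card := by
  rintro π ⟨s, τ, h⟩ h1
  have key : ∀ (t : E) (T : Finset (Fin n)), (∀ i ∈ T, π (t, i) ≠ (t, i)) →
      T.card ≤ π.support.card := fun t T hT =>
    Finset.card_le_card_of_injOn (fun i => (t, i))
      (fun i hi => Finset.mem_coe.2 (Equiv.Perm.mem_support.2 (hT i hi)))
      fun i _ j _ e => (Prod.ext_iff.1 e).2
  obtain ⟨⟨t, i⟩, hi⟩ : ∃ x, π x ≠ x := by
    by_contra hc
    push Not at hc
    exact h1 (Equiv.ext hc)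
  by_cases hs : s t = t
  · have h2 : (τ t).1 ≠ 1 := fun e => hi (by rw [h, hs, e]; rfl)
    refine (hm _ (τ t).2 h2).trans (key t _ fun j hj e => Equiv.Perm.mem_support.1 hj ?_)
    rw [h] at e
    exact (Prod.ext_iff.1 e).2
  · refine hmn.trans (le_trans (by simp) (key t Finset.univ fun j _ e => hs ?_))
    rw [h] at e
    exact (Prod.ext_iff.1 e).1

lemma wr_card (E : Type) [Fintype E] {n : ℕ} (G : Subgroup (Equiv.Perm (Fin n))) :
    Nat.card (wr E G) ≤ (Fintype.card E * Nat.card G) ^ Fintype.card E := by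
  classical
  choose s τ h using fun π : wr E G => π.2
  have h1 : Function.Injective fun π : wr E G => (s π, τ π) := by
    intro π π' e
    obtain ⟨e1, e2⟩ := Prod.ext_iff.1 e
    refine Subtype.ext (Equiv.ext fun ⟨t, i⟩ => ?_)
    rw [h, h, show s π = s π' from e1, show τ π = τ π' from e2]
  refine (Nat.card_le_card_of_injective _ h1).trans ?_
  rw [Nat.card_prod, Nat.card_fun, Nat.card_eq_fintype_card (α := Equiv.Perm E),
    Fintype.card_perm, Nat.card_eq_fintype_card (α := E), mul_pow]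
  exact Nat.mul_le_mul_right _ (Nat.factorial_le_pow _)

theorem exists_wreath (K : Type) [Field K] [NumberField K] {n : ℕ}
    (G : Subgroup (Equiv.Perm (Fin n))) {m : ℕ} (hmn : m ≤ n)
    (hm : ∀ g ∈ G, g ≠ 1 → m ≤ g.support.card)
    [DecidableEq ((K →ₐ[ℚ] AlgebraicClosure K) × Fin n)] :
    ∃ Γ : Subgroup (Equiv.Perm ((K →ₐ[ℚ] AlgebraicClosure K) × Fin n)),
      (∀ π ∈ Γ, π ≠ 1 → m ≤ π.support.card) ∧
      Nat.card Γ ≤ (finrank ℚ K * Nat.card G) ^ finrank ℚ K ∧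
      ∀ (L : IntermediateField K (AlgebraicClosure K)) [NumberField L]
        (e0 : (L →ₐ[K] AlgebraicClosure K) ≃ Fin n),
        (∀ σ : AlgebraicClosure K ≃ₐ[K] AlgebraicClosure K, ∃ τ ∈ G,
          ∀ φ : L →ₐ[K] AlgebraicClosure K, τ (e0 φ) = e0 (σ.toAlgHom.comp φ)) →
        ∃ e : (K →ₐ[ℚ] AlgebraicClosure K) × Fin n ≃ (L →ₐ[ℚ] AlgebraicClosure K),
          Mon Γ e := by
  set Ω := AlgebraicClosure K with hΩ
  have : Algebra.IsAlgebraic ℚ Ω := Algebra.IsAlgebraic.trans ℚ K Ω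
  have : IsAlgClosure ℚ Ω := ⟨inferInstance, inferInstance⟩
  have : IsGalois ℚ Ω := IsAlgClosure.isGalois ℚ Ω
  refine ⟨wr _ G, wr_support hmn hm, ?_, fun L _ e0 h0 => ?_⟩
  · have h1 := wr_card (K →ₐ[ℚ] Ω) G
    rwa [AlgHom.card] at h1
  have hs : ∀ t : K →ₐ[ℚ] Ω, ∃ s : Ω ≃ₐ[ℚ] Ω, ∀ a, s (algebraMap K Ω a) = t a := fun t =>
    ⟨AlgEquiv.ofBijective (t.liftNormal Ω) (AlgHom.normal_bijective ℚ Ω Ω _), fun a => by
      simpa using t.liftNormal_commutes Ω a⟩
  choose s hs using hs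
  let f : (K →ₐ[ℚ] Ω) × Fin n → (L →ₐ[ℚ] Ω) := fun x =>
    (s x.1).toAlgHom.comp ((e0.symm x.2).restrictScalars ℚ)
  have hf : ∀ x a, f x a = s x.1 (e0.symm x.2 a) := fun _ _ => rfl
  have hK : ∀ x a, f x (algebraMap K L a) = x.1 a := fun x a => by
    rw [hf, AlgHom.commutes, hs]
  have hb : Function.Bijective f := by
    constructor
    · rintro ⟨t, i⟩ ⟨t', i'⟩ h
      have h1 : t = t' := AlgHom.ext fun a => by
        rw [← hK (t, i) a, h, hK]
      subst h1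
      have h2 : e0.symm i = e0.symm i' := AlgHom.ext fun a => (s t).injective (by
        rw [← hf (t, i) a, h, hf])
      rw [e0.symm.injective h2]
    · intro ψ
      let t : K →ₐ[ℚ] Ω := ψ.comp (IsScalarTower.toAlgHom ℚ K L)
      let φ : L →ₐ[K] Ω :=
        { ((s t).symm.toAlgHom.comp ψ).toRingHom with
          commutes' := fun a => by
            show (s t).symm (t a) = algebraMap K Ω a
            rw [← hs, AlgEquiv.symm_apply_apply] }
      refine ⟨(t, e0 φ), AlgHom.ext fun a => ?_⟩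
      rw [hf, Equiv.symm_apply_apply]
      exact (s t).apply_symm_apply _
  let e := Equiv.ofBijective f hb
  refine ⟨e, fun g => ?_⟩
  let π : Equiv.Perm ((K →ₐ[ℚ] Ω) × Fin n) :=
    (e.trans (AlgEquiv.arrowCongr AlgEquiv.refl g)).trans e.symm
  have hπ : ∀ i a, e (π i) a = g (e i a) := by intro i a; simp [π]
  refine ⟨π, ?_, hπ⟩
  let u : Equiv.Perm (K →ₐ[ℚ] Ω) := AlgEquiv.arrowCongr AlgEquiv.refl g
  have hu : ∀ t a, u t a = g (t a) := by intro t a; simp [u]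
  let σ : (K →ₐ[ℚ] Ω) → Ω ≃ₐ[K] Ω := fun t =>
    { (((s t).trans g).trans (s (u t)).symm).toRingEquiv with
      commutes' := fun a => by
        show (s (u t)).symm (g (s t (algebraMap K Ω a))) = algebraMap K Ω a
        rw [hs, ← hu, ← hs, AlgEquiv.symm_apply_apply] }
  have hσ : ∀ t a, σ t a = (s (u t)).symm (g (s t a)) := fun _ _ => rfl
  choose τ hτ hτ' using fun t => h0 (σ t)
  refine ⟨u, fun t => ⟨τ t, hτ t⟩, fun t i => e.injective (AlgHom.ext fun a => ?_)⟩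
  have h3 : e0.symm (τ t i) = (σ t).toAlgHom.comp (e0.symm i) := by
    rw [Equiv.symm_apply_eq, ← hτ', Equiv.apply_symm_apply]
  rw [hπ]
  show g (s t (e0.symm i a)) = s (u t) (e0.symm (τ t i) a)
  rw [h3]
  show _ = s (u t) (σ t (e0.symm i a))
  rw [hσ, AlgEquiv.apply_symm_apply]

end Pool.Agent.Lib.MP_af4c59_nt.H50
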