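import Pool.Agent.Lib.MP_af4c59_nt.H50Core
import Pool.Agent.Lib.MP_af4c59_nt.H50Wreath

/-!
The exponent `O(log b / b)` when `b ^ 2 k log(k|G|)` is at most half the least index.
-/

namespace Pool.Agent.Lib.MP_af4c59_nt.H50

open NumberField Module

lemma main_wrap {α : Type} (R : α → ℕ → Prop) (hR : ∀ L Y Y', R L Y → Y ≤ Y' → R L Y')
    {t a c A : ℕ} (ht : 0 < t) (hA : 0 < A) {E : ℝ} (hE : (a : ℝ) ≤ t * E)
    (h : ∀ P : ℕ, 1 ≤ P → ∀ T : Finset α, (∀ L ∈ T, R L (P ^ t)) → T.card ≤ c * P ^ a) :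
    ∃ c' : ℝ, ∀ X : ℝ, 1 ≤ X → ∀ S : Set α, (∀ L ∈ S, R L (A * ⌊X⌋₊)) →
      S.Finite ∧ (S.ncard : ℝ) ≤ c' * X ^ E := by
  classical
  have hE0 : 0 ≤ E := by
    by_contra h0
    have h1 : (t : ℝ) * E < 0 := mul_neg_of_pos_of_neg (by exact_mod_cast ht) (not_le.mp h0)
    have h2 : (0 : ℝ) ≤ a := Nat.cast_nonneg a
    linarith
  refine ⟨c * ((2 ^ t * A : ℕ) : ℝ) ^ E, fun X hX S hS => ?_⟩
  set Y := A * ⌊X⌋₊ with hY
  have hX1 : 1 ≤ ⌊X⌋₊ := Nat.le_floor (by exact_mod_cast hX)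
  have hY1 : 0 < Y := Nat.mul_pos hA hX1
  have hex : ∃ P : ℕ, Y ≤ P ^ t := ⟨Y, Nat.le_self_pow ht.ne' _⟩
  set P := Nat.find hex with hP
  have h1 : Y ≤ P ^ t := Nat.find_spec hex
  have h2 : 1 ≤ P := by
    by_contra h0
    rw [show P = 0 by omega, zero_pow ht.ne'] at h1
    omega
  have h3 : P ^ t ≤ 2 ^ t * Y := by
    rcases h2.eq_or_lt with h0 | h0
    · rw [← h0, one_pow]
      exact Nat.mul_pos (by positivity) hY1
    · have h4 : ¬ Y ≤ (P - 1) ^ t := Nat.find_min hex (by omega)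
      calc P ^ t ≤ (2 * (P - 1)) ^ t := Nat.pow_le_pow_left (by omega) _
        _ = 2 ^ t * (P - 1) ^ t := mul_pow _ _ _
        _ ≤ _ := Nat.mul_le_mul_left _ (by omega)
  have key : ∀ T : Finset α, (T : Set α) ⊆ S → T.card ≤ c * P ^ a := fun T hT =>
    h P h2 T fun L hL => hR _ _ _ (hS L (hT hL)) h1
  have hfin : S.Finite := by
    by_contra hinf
    obtain ⟨T, hT1, hT2⟩ := Set.Infinite.exists_subset_card_eq hinf (c * P ^ a + 1)
    have := key T hT1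
    omega
  refine ⟨hfin, ?_⟩
  rw [Set.ncard_eq_toFinset_card S hfin]
  have h4 := key hfin.toFinset (by simp)
  have hP1 : (1 : ℝ) ≤ P := by exact_mod_cast h2
  have h5 : (P : ℝ) ^ t ≤ ((2 ^ t * A : ℕ) : ℝ) * X := by
    calc (P : ℝ) ^ t ≤ ((2 ^ t * Y : ℕ) : ℝ) := by exact_mod_cast h3
      _ = ((2 ^ t * A : ℕ) : ℝ) * (⌊X⌋₊ : ℝ) := by
          rw [hY]
          push_cast
          ring
      _ ≤ _ := mul_le_mul_of_nonneg_left (Nat.floor_le (by linarith)) (Nat.cast_nonneg _)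
  have h6 : (P : ℝ) ^ a ≤ (((2 ^ t * A : ℕ) : ℝ) * X) ^ E := by
    calc (P : ℝ) ^ a = (P : ℝ) ^ (a : ℝ) := (Real.rpow_natCast _ _).symm
      _ ≤ (P : ℝ) ^ ((t : ℝ) * E) := Real.rpow_le_rpow_of_exponent_le hP1 hE
      _ = ((P : ℝ) ^ t) ^ E := Real.rpow_natCast_mul (by positivity) _ _
      _ ≤ _ := Real.rpow_le_rpow (by positivity) h5 hE0
  calc (hfin.toFinset.card : ℝ) ≤ c * (P : ℝ) ^ a := by exact_mod_cast h4
    _ ≤ c * (((2 ^ t * A : ℕ) : ℝ) * X) ^ E := mul_le_mul_of_nonneg_left h6 (Nat.cast_nonneg _)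
    _ = _ := by rw [Real.mul_rpow (Nat.cast_nonneg _) (by linarith), mul_assoc]

theorem main (K : Type) [Field K] [NumberField K] (n : ℕ) (G : Subgroup (Equiv.Perm (Fin n)))
    (m b : ℕ) (hn : 2 ≤ n) (hG : ∀ i j : Fin n, ∃ g ∈ G, g i = j) (h4 : 4 ≤ b)
    (hm : ∀ g ∈ G, g ≠ 1 → m ≤ g.cycleType.sum - Multiset.card g.cycleType)
    (hb : 2 * b ^ 2 * (finrank ℚ K * Nat.clog 2 (finrank ℚ K * Nat.card G)) ≤ m) :
    ∃ c : ℝ, ∀ X : ℝ, 1 ≤ X → ∀ S : Set (IntermediateField K (AlgebraicClosure K)),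
      S = {L : IntermediateField K (AlgebraicClosure K) | Module.finrank K L = n ∧
        (∃ e : (↥L →ₐ[K] AlgebraicClosure K) ≃ Fin n,
          ∀ σ : AlgebraicClosure K ≃ₐ[K] AlgebraicClosure K, ∃ τ ∈ G,
            ∀ φ : ↥L →ₐ[K] AlgebraicClosure K, τ (e φ) = e (σ.toAlgHom.comp φ)) ∧
        ∃ _ : NumberField L,
          (Ideal.absNorm (differentIdeal (RingOfIntegers K) (RingOfIntegers L)) : ℝ) ≤ X} →
      S.Finite ∧ (S.ncard : ℝ) ≤ c * X ^ (19300 * (Nat.clog 2 b : ℝ) / b) := by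
  classical
  set k := finrank ℚ K with hk
  have hk0 : 0 < k := finrank_pos
  have hnG : n ≤ Nat.card G := by
    have h := Nat.card_le_card_of_surjective (fun g : G => g.1 ⟨0, by omega⟩) fun j => by
      obtain ⟨g, h1, h2⟩ := hG ⟨0, by omega⟩ j
      exact ⟨⟨g, h1⟩, h2⟩
    simpa using h
  have hsupp : ∀ g ∈ G, g ≠ 1 → m ≤ g.support.card := fun g h1 h2 => by
    have h := hm g h1 h2
    rw [Equiv.Perm.sum_cycleType] at h
    omega
  have hmn : m ≤ n := by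
    obtain ⟨g, h1, h2⟩ := hG ⟨0, by omega⟩ ⟨1, by omega⟩
    refine (hsupp g h1 ?_).trans (by simpa using Finset.card_le_univ g.support)
    rintro rfl
    simp at h2
  have hnk : n ≤ k * n := Nat.le_mul_of_pos_left n hk0
  set q := Nat.clog 2 (k * Nat.card G) with hq
  have hq1 : k * Nat.card G ≤ 2 ^ q := Nat.le_pow_clog (by norm_num) _
  have hq0 : 0 < q := Nat.clog_pos (by norm_num)
    (lt_of_lt_of_le (by omega) (Nat.le_mul_of_pos_left _ hk0))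
  set Λ := k * q with hΛ
  have hΛ0 : 0 < Λ := Nat.mul_pos hk0 hq0
  have hb1 : b ^ 2 * Λ ≤ m / 2 := by
    rw [mul_assoc] at hb
    omega
  set DK := (discr K).natAbs ^ n with hDK
  have hDK1 : 0 < DK := pow_pos (Int.natAbs_pos.mpr (discr_ne_zero K)) _
  have hdisc : ∀ (X : ℝ) (L : IntermediateField K (AlgebraicClosure K)) [NumberField L],
      finrank K L = n →
      (Ideal.absNorm (differentIdeal (RingOfIntegers K) (RingOfIntegers L)) : ℝ) ≤ X →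
      (discr L).natAbs ≤ DK * ⌊X⌋₊ := by
    intro X L _ h4 h5
    rw [natAbs_discr_eq_absNorm_differentIdeal_mul_natAbs_discr_pow K (𝓞 K) L (𝓞 L), h4,
      mul_comm]
    exact Nat.mul_le_mul_left _ (Nat.le_floor h5)
  obtain ⟨Γ, hΓ1, hΓ2, hΓ3⟩ := exists_wreath K G hmn hsupp
  have hI : Fintype.card ((K →ₐ[ℚ] AlgebraicClosure K) × Fin n) = k * n := by simp [hk]
  obtain ⟨c, hc⟩ := core K Γ (m / 2) Λ b (fun π h1 h2 => le_trans (by omega) (hΓ1 π h1 h2))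
    (by rw [hI]; omega)
    (hΓ2.trans (by rw [hΛ, mul_comm k q, pow_mul]; exact Nat.pow_le_pow_left hq1 _))
    (by
      rw [hI]
      refine ((Nat.mul_le_mul_left _ hnG).trans hq1).trans ?_
      exact Nat.pow_le_pow_right (by norm_num) (Nat.le_mul_of_pos_left q hk0))
    hΛ0 h4 hb1
  rw [hI] at hc
  obtain ⟨c', hc'⟩ := main_wrap
    (fun (L : IntermediateField K (AlgebraicClosure K)) Y => ∃ _ : NumberField L,
      (discr L).natAbs ≤ Y ∧ ∃ e : (K →ₐ[ℚ] AlgebraicClosure K) × Fin n ≃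
        (L →ₐ[ℚ] AlgebraicClosure K), Mon Γ e)
    (fun L Y Y' ⟨i, h1, h2⟩ h => ⟨i, h1.trans h, h2⟩)
    (Nat.mul_pos (by omega : 0 < b) (by omega : 0 < k * n)) hDK1
    (E := 19300 * (Nat.clog 2 b : ℝ) / b) (by
      have hb0 : (b : ℝ) ≠ 0 := by exact_mod_cast (by omega : b ≠ 0)
      push_cast
      refine le_of_eq ?_
      field_simp) hc
  refine ⟨c', fun X hX S hS => hc' X hX S fun L hL => ?_⟩
  obtain ⟨h1, ⟨e0, he0⟩, inst, h2⟩ := hS ▸ hL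
  exact ⟨inst, hdisc X L h1 h2, hΓ3 L e0 he0⟩

end Pool.Agent.Lib.MP_af4c59_nt.H50
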