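import Pool.Agent.Lib.MP_af4c59_nt.H50Defs

/-!
At a generic point the jets of a linear family of polynomials are closed under differentiation.
-/

namespace Pool.Agent.Lib.MP_af4c59_nt.H50

open MvPolynomial Pool.Agent.Lib.MP_af4c59_nt.H11

variable {I A Ω : Type} [Fintype I] [DecidableEq I] [Fintype A] [Field Ω] [CharZero Ω]

namespace RankAAux

/-- Every matrix over a field has a generalised inverse. -/
lemma ginv_field {F J A : Type} [Field F] [Fintype J] [Fintype A] (M : Matrix J A F) :
    ∃ N : Matrix A J F, M * N * M = M := by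
  classical
  obtain ⟨g, hg⟩ := (Matrix.toLin' M).rangeRestrict.exists_rightInverse_of_surjective
    (LinearMap.range_rangeRestrict _)
  obtain ⟨g', hg'⟩ := LinearMap.exists_extend g
  refine ⟨LinearMap.toMatrix' g', Matrix.toLin'.injective ?_⟩
  rw [Matrix.toLin'_mul, Matrix.toLin'_mul, Matrix.toLin'_toMatrix']
  refine LinearMap.ext fun c => ?_
  have h1 := LinearMap.congr_fun hg' ((Matrix.toLin' M).rangeRestrict c)
  have h2 := congrArg Subtype.val (LinearMap.congr_fun hg ((Matrix.toLin' M).rangeRestrict c))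
  change g' (Matrix.toLin' M c) = _ at h1
  change Matrix.toLin' M (g' (Matrix.toLin' M c)) = _
  rw [h1]
  exact h2

/-- The same over a domain, up to a nonzero factor. -/
lemma ginv {R J A : Type} [CommRing R] [IsDomain R] [Fintype J] [Fintype A] (M : Matrix J A R) :
    ∃ (Θ : R) (N : Matrix A J R), Θ ≠ 0 ∧ M * N * M = Θ • M := by
  obtain ⟨N, hN⟩ := ginv_field (M.map (algebraMap R (FractionRing R)))
  obtain ⟨b, hb⟩ := IsLocalization.exist_integer_multiples_of_finite (nonZeroDivisors R)
    fun p : A × J => N p.1 p.2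
  choose N' hN' using hb
  refine ⟨b, Matrix.of fun a j => N' (a, j), nonZeroDivisors.coe_ne_zero b, ?_⟩
  apply Matrix.map_injective (IsFractionRing.injective R (FractionRing R))
  have h1 : (Matrix.of fun a j => N' (a, j)).map (algebraMap R (FractionRing R)) = (b : R) • N := by
    ext a j
    exact hN' (a, j)
  change (M * (Matrix.of fun a j => N' (a, j)) * M).map _ = (((b : R) • M).map _)
  rw [Matrix.map_mul, Matrix.map_mul, h1, Matrix.mul_smul, Matrix.smul_mul, hN]
  ext j a
  simp [Algebra.smul_def]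

omit [Fintype I] [CharZero Ω] in
lemma coeff_sh_pderiv (v : I) (f : MvPolynomial I Ω) : ∀ α : I →₀ ℕ,
    (sh (X : I → MvPolynomial I Ω) (pderiv v f)).coeff α =
      pderiv v ((sh (X : I → MvPolynomial I Ω) f).coeff α) := by
  induction f using MvPolynomial.induction_on with
  | C a =>
    intro α
    have h1 : sh (X : I → MvPolynomial I Ω) (C a) = C (C a) := by
      simp [sh, MvPolynomial.algebraMap_apply]
    rw [h1, pderiv_C, map_zero, coeff_zero, coeff_C]
    split_ifs <;> simp
  | add p q hp hq =>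
    intro α
    simp only [map_add, coeff_add, hp, hq]
  | mul_X p w hp =>
    intro α
    have h1 : sh (X : I → MvPolynomial I Ω) (X w : MvPolynomial I Ω) = X w + C (X w) := by
      simp [sh]
    have h2 : sh (X : I → MvPolynomial I Ω) (pderiv v (X w : MvPolynomial I Ω)) =
        C (pderiv v (X w : MvPolynomial I Ω)) := by
      by_cases h : w = v
      · subst h
        simp
      · rw [pderiv_X_of_ne h]
        simp
    rw [Derivation.leibniz, smul_eq_mul, smul_eq_mul, map_add, map_mul, map_mul, map_mul, h1, h2,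
      mul_add, mul_comm _ (sh X (pderiv v p)), mul_add]
    simp only [coeff_add, coeff_mul_X', mul_comm _ (C _), coeff_C_mul, hp, map_add,
      Derivation.leibniz, smul_eq_mul]
    split_ifs
    · ring
    · simp only [map_zero]
      ring

omit [Fintype I] [DecidableEq I] [CharZero Ω] in
lemma eval_coeff_sh (x : I → Ω) (f : MvPolynomial I Ω) (α : I →₀ ℕ) :
    eval x ((sh (X : I → MvPolynomial I Ω) f).coeff α) = (sh x f).coeff α := by
  have h1 := map_sh (aeval x : MvPolynomial I Ω →ₐ[Ω] Ω) X f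
  simp only [aeval_X] at h1
  rw [← h1, coeff_map]
  rfl

end RankAAux

set_option linter.unusedSectionVars false in
open RankAAux in
theorem closure_generic (F : A → MvPolynomial I Ω) (k : ℕ) :
    ∃ Θ : MvPolynomial I Ω, Θ ≠ 0 ∧ ∀ x : I → Ω, eval x Θ ≠ 0 →
      ∀ f ∈ Submodule.span Ω (Set.range F), f ∈ mx x ^ k → ∀ v : I,
        ∃ f' ∈ Submodule.span Ω (Set.range F), f' - pderiv v f ∈ mx x ^ k := by
  let J := {β : I →₀ ℕ // β.degree < k}
  have : Finite J :=
    ((Finsupp.finite_of_degree_le k).subset fun β (hβ : β.degree < k) => hβ.le).to_subtype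
  have : Fintype J := Fintype.ofFinite J
  let M : Matrix J A (MvPolynomial I Ω) :=
    Matrix.of fun β a => (sh (X : I → MvPolynomial I Ω) (F a)).coeff β.1
  obtain ⟨Θ, N, h0, hN⟩ := ginv M
  refine ⟨Θ, h0, fun x hx f hf hk v => ?_⟩
  obtain ⟨c, rfl⟩ := (Submodule.mem_span_range_iff_exists_fun Ω).1 hf
  have hM : ∀ (c : A → Ω) (β : J), M.mulVec (fun a => C (c a)) β =
      (sh (X : I → MvPolynomial I Ω) (∑ a, c a • F a)).coeff β.1 := by
    intro c β
    rw [map_sum, coeff_sum]
    refine Finset.sum_congr rfl fun a _ => ?_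
    rw [map_smul, coeff_smul, smul_eq_C_mul, mul_comm]
    rfl
  set y : J → MvPolynomial I Ω := M.mulVec fun a => C (c a) with hy
  have hy0 : ∀ β, eval x (y β) = 0 := fun β => by
    rw [hy, hM, eval_coeff_sh]
    exact (mem_pow_iff_sh _ _ _).1 hk β.1 β.2
  set z : A → MvPolynomial I Ω := N.mulVec y with hz
  have hz0 : ∀ a, eval x (z a) = 0 := fun a => by
    rw [hz, Matrix.mulVec, dotProduct, map_sum]
    exact Finset.sum_eq_zero fun β _ => by rw [map_mul, hy0, mul_zero]
  have h1 : ∀ β, ∑ a, M β a * z a = Θ * y β := fun β => by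
    have h2 : M.mulVec z = Θ • y := by
      rw [hz, hy, Matrix.mulVec_mulVec, Matrix.mulVec_mulVec, hN, Matrix.smul_mulVec]
    exact congrFun h2 β
  refine ⟨∑ a, ((eval x Θ)⁻¹ * eval x (pderiv v (z a))) • F a,
    (Submodule.mem_span_range_iff_exists_fun Ω).2 ⟨_, rfl⟩, (mem_pow_iff_sh _ _ _).2 fun β hβ => ?_⟩
  have h2 := congrArg (fun t => eval x (pderiv v t)) (h1 ⟨β, hβ⟩)
  simp only [map_sum, Derivation.leibniz, smul_eq_mul, map_add, map_mul, hz0, hy0, zero_mul,
    add_zero] at h2
  rw [map_sub, coeff_sub, sub_eq_zero, ← eval_coeff_sh x (pderiv v _), coeff_sh_pderiv,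
    ← hM c ⟨β, hβ⟩, ← eval_coeff_sh, ← hM _ ⟨β, hβ⟩, ← hy]
  apply mul_left_cancel₀ hx
  rw [← h2, Matrix.mulVec, dotProduct, map_sum, Finset.mul_sum]
  refine Finset.sum_congr rfl fun a _ => ?_
  rw [map_mul, eval_C]
  field_simp

end Pool.Agent.Lib.MP_af4c59_nt.H50
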