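import Pool.Agent.Lib.MP_af4c59_nt.H50Defs

/-!
The stages of the determinant method for a second family whose values have a common divisor.
-/

namespace Pool.Agent.Lib.MP_af4c59_nt.H50

open MvPolynomial Pool.Agent.Lib.MP_af4c59_nt.H11 Pool.Agent.Lib.MP_af4c59_nt.H11.Setup

variable {I A A2 Ω : Type} [Fintype I] [DecidableEq I] [Fintype A] [Fintype A2] [Field Ω]
  [CharZero Ω]

omit [Fintype I] [DecidableEq I] [Fintype A] in
lemma lr_of_det {d : Setup I A Ω} {H BF s : ℕ} (hH : 2 ≤ H) (hBF : ∀ a, Tame H BF (d.F a)) (S : Finset (I → Ω))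
    (hG : ∀ x ∈ S, ∀ a, ∃ n : ℤ, (n : Ω) = aeval x (d.F a) ∧ n.natAbs ≤ d.cF * H ^ d.T)
    (hdet : ∀ (xs : Fin s → I → Ω) (as : Fin s → A), (∀ i, xs i ∈ S) →
      (Matrix.of fun i j => aeval (xs j) (d.F (as i))).det = 0) :
    ∃ ρ, ρ < s ∧ d.LR H (s * (d.cF + d.T + BF) + s.factorial) S ρ := by
  classical
  let Pr : ℕ → Prop := fun t => ∃ (xs : Fin t → I → Ω) (as : Fin t → A), (∀ i, xs i ∈ S) ∧
      (Matrix.of fun i j => aeval (xs j) (d.F (as i))).det ≠ 0
  have hP0 : Pr 0 := ⟨Fin.elim0, Fin.elim0, fun i => i.elim0, by simp⟩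
  have hPs : ¬ Pr s := fun ⟨xs, as, h1, h2⟩ => h2 (hdet xs as h1)
  set ρ := Nat.findGreatest Pr s with hρ
  have h1 : Pr ρ := Nat.findGreatest_spec (Nat.zero_le s) hP0
  have h2 : ρ < s := lt_of_le_of_ne (Nat.findGreatest_le s) fun e => hPs (e ▸ h1)
  have h3 : ¬ Pr (ρ + 1) := Nat.findGreatest_is_greatest (Nat.lt_succ_self _) h2
  clear_value ρ
  obtain ⟨xs, as, hxs, hd⟩ := h1
  choose n hn1 hn2 using fun j a => hG (xs j) (hxs j) a
  let M : A → Matrix (Fin (ρ + 1)) (Fin (ρ + 1)) (MvPolynomial I ℤ) := fun a =>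
    Matrix.of fun i j => Fin.cases (d.F (Fin.cons (α := fun _ => A) a as i))
      (fun j' => C (n j' (Fin.cons (α := fun _ => A) a as i))) j
  refine ⟨ρ, h2, fun a => (M a).det, fun i => mp Ω (d.F (as i)), fun a => ?_, fun a x hx => ?_,
    fun a => ?_⟩
  · have h4 := tame_det hH (B := d.cF + d.T + BF) (M a) fun i j => by
      refine Fin.cases ?_ (fun j' => ?_) j
      · exact (hBF _).mono hH (by omega)
      · refine tame_C ((hn2 _ _).trans ?_)
        calc d.cF * H ^ d.T ≤ H ^ d.cF * H ^ d.T := Nat.mul_le_mul_right _ (le_pow_self hH _)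
          _ = H ^ (d.cF + d.T) := by rw [pow_add]
          _ ≤ _ := Nat.pow_le_pow_right (by omega) (by omega)
    rw [Fintype.card_fin] at h4
    exact h4.mono hH (add_le_add (Nat.mul_le_mul_right _ h2) (Nat.factorial_le h2))
  · by_contra h4
    refine h3 ⟨Fin.cons x xs, Fin.cons a as, fun i => Fin.cases hx hxs i, ?_⟩
    rw [AlgHom.map_det] at h4
    convert h4 using 2
    ext i j
    refine Fin.cases ?_ (fun j' => ?_) j
    · simp [M]
    · simp [M, hn1]
  · set d0 := (Matrix.of fun i j => aeval (xs j) (d.F (as i))).det with hd0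
    have hminor : ∀ i : Fin (ρ + 1), mp Ω ((M a).submatrix i.succAbove Fin.succ).det
        = C (Matrix.of fun i' j => aeval (xs j)
            (d.F (Fin.cons (α := fun _ => A) a as (i.succAbove i')))).det := by
      intro i
      rw [RingHom.map_det, RingHom.map_det]
      congr 1
      ext i' j : 2
      simp [M, ← hn1]
    have h4 : mp Ω (M a).det = d0 • mp Ω (d.F a) + ∑ i : Fin ρ,
        ((-1) ^ ((i : ℕ) + 1) * (Matrix.of fun i' j => aeval (xs j)
            (d.F (Fin.cons (α := fun _ => A) a as (i.succ.succAbove i')))).det)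
              • mp Ω (d.F (as i)) := by
      rw [Matrix.det_succ_column_zero, map_sum, Fin.sum_univ_succ]
      congr 1
      · rw [map_mul, hminor, smul_eq_C_mul]
        simp [M, hd0, mul_comm]
      · refine Finset.sum_congr rfl fun i _ => ?_
        rw [map_mul, hminor, smul_eq_C_mul]
        simp [M]
        ring
    have h5 : mp Ω (d.F a) = d0⁻¹ • (mp Ω (M a).det - ∑ i : Fin ρ,
        ((-1) ^ ((i : ℕ) + 1) * (Matrix.of fun i' j => aeval (xs j)
            (d.F (Fin.cons (α := fun _ => A) a as (i.succ.succAbove i')))).det)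
              • mp Ω (d.F (as i))) := by
      rw [h4, add_sub_cancel_right, smul_smul, inv_mul_cancel₀ hd, one_smul]
    rw [h5]
    refine Submodule.smul_mem _ _ (sub_mem
      (Submodule.mem_sup_left (Submodule.subset_span ⟨a, rfl⟩))
      (Submodule.mem_sup_right (Submodule.sum_mem _ fun i _ =>
        Submodule.smul_mem _ _ (Submodule.subset_span ⟨i, rfl⟩))))

/-- The data of the second family. -/
structure Two (I A2 : Type) where
  F : A2 → MvPolynomial I ℤ
  T : ℕ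
  j : ℕ
  cF : ℕ
  EQ : ℕ
  b : ℕ
  m0 : ℕ

namespace Two

variable (d : Setup I A Ω) (t : Two I A2)

/-- The second family as a `Setup`. -/
def st : Setup I A2 Ω := ⟨d.ε, d.K0, t.F, t.EQ + t.T, t.j, t.cF⟩

/-- Good points. -/
def Gd (P Q : ℕ) (x : I → Ω) : Prop :=
  d.Gd (P ^ t.b) x ∧
    (∀ a, ∃ n : ℤ, ((Q * n : ℤ) : Ω) = aeval x (t.F a) ∧ n.natAbs ≤ t.cF * P ^ t.T) ∧
    RK t.F t.j t.m0 x

/-- The counting bound for frames with at most `m` free coordinates. -/
def Bd (m E : ℕ) : Prop :=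
  ∀ B, ∃ c : ℕ, ∀ P, 2 ≤ P → ∀ Q, 0 < Q → Q ≤ P ^ t.EQ → ∀ (S : Finset (I → Ω)) Φ K,
    (∀ x ∈ S, t.Gd d P Q x) → d.Fr (P ^ t.b) B S Φ K → Kᶜ.card ≤ m → S.card ≤ c * P ^ E

variable {d t}

omit [Fintype A] [Fintype A2] in
lemma Bd.mono {m m' E E' : ℕ} (h : t.Bd d m E) (hm : m' ≤ m) (hE : E ≤ E') : t.Bd d m' E' := by
  intro B
  obtain ⟨c, hc⟩ := h B
  refine ⟨c, fun P hP Q h1 h2 S Φ K hG hF hK => (hc P hP Q h1 h2 S Φ K hG hF (by omega)).trans ?_⟩
  exact Nat.mul_le_mul_left _ (Nat.pow_le_pow_right (by omega) hE)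

omit [Fintype I] [DecidableEq I] [Fintype A2] in
lemma two_le (hb : 1 ≤ t.b) {P : ℕ} (hP : 2 ≤ P) : 2 ≤ P ^ t.b :=
  hP.trans (Nat.le_self_pow (by omega) _)

omit [Fintype A] [Fintype A2] in
lemma bd_base (hb : 1 ≤ t.b) {m E : ℕ} (h : d.Bd m E) : t.Bd d m (t.b * E) := by
  intro B
  obtain ⟨c, hc⟩ := h B
  refine ⟨c, fun P hP Q _ _ S Φ K hG hF hK => ?_⟩
  rw [pow_mul]
  exact hc _ (two_le hb hP) S Φ K (fun x hx => (hG x hx).1) hF hK

omit [Fintype A] in
lemma inner (hb : 1 ≤ t.b) {m E s : ℕ} (h : t.Bd d m E) (hm : t.m0 ≤ m) (hs : s ≤ 16 ^ (m + 1)) :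
    ∀ r : ℕ, ∀ B, ∃ c : ℕ, ∀ P, 2 ≤ P → ∀ Q, 0 < Q → Q ≤ P ^ t.EQ →
      ∀ (S : Finset (I → Ω)) Φ K ρ, ρ < s → (∀ x ∈ S, t.Gd d P Q x) →
      d.Fr (P ^ t.b) B S Φ K → (t.st d).LR (P ^ t.b) B S ρ → Kᶜ.card ≤ m + r →
      S.card ≤ c * P ^ E := by
  classical
  intro r
  induction r with
  | zero =>
    intro B
    obtain ⟨c, hc⟩ := h B
    exact ⟨c, fun P hP Q h1 h2 S Φ K _ _ hG hF _ hK => hc P hP Q h1 h2 S Φ K hG hF hK⟩
  | succ r ih' =>
    intro B
    obtain ⟨c1, hc1⟩ := ih' B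
    set B' := (fD (Fintype.card I))^[t.j] B with hB'
    have hBB : B ≤ B' := le_fD_iter _ _ _
    obtain ⟨c2, hc2⟩ := ih' B'
    let Y : Finset (A2 × List I × I) :=
      Finset.univ ×ˢ (List.finite_length_le I t.j).toFinset ×ˢ Finset.univ
    refine ⟨c1 + Y.card * c2, fun P hP Q hQ1 hQ2 S Φ K ρ hρ hG hF hL hK => ?_⟩
    have hH := two_le hb hP
    by_cases hK' : Kᶜ.card ≤ m + r
    · refine (hc1 P hP Q hQ1 hQ2 S Φ K ρ hρ hG hF hL hK').trans
        (Nat.mul_le_mul_right _ (by omega))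
    obtain ⟨G, g, hG1, hG2, hG3⟩ := hL
    have := card_le_of_cover S Y (fun x y => y.2.1.length ≤ t.j ∧ y.2.2 ∉ K ∧
        aeval x (Dl Φ y.2.1 (G y.1)) = 0 ∧ aeval x (D Φ y.2.2 (Dl Φ y.2.1 (G y.1))) ≠ 0)
      (c2 * P ^ E) (by
        intro x hx
        obtain ⟨a, l, hl1, hl2, hl3⟩ := (hG x hx).2.2 (fun u => mp Ω (Φ u)) K
          (by rw [eval_jac_mp]; exact hF.det x hx) (by omega) ρ
          (lt_of_lt_of_le hρ (hs.trans (Nat.pow_le_pow_right (by norm_num) (by omega))))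
          (fun a => mp Ω (G a)) g hG3
        obtain ⟨l₁, w, h4, h5, h6, h7⟩ := exists_first (fun u => mp Ω (Φ u)) x
          (fun w => w ∉ K) l (mp Ω (G a)) hl2 (by rw [eval_map_int]; exact hG2 a x hx) hl3
        have h8 : l₁.length ≤ t.j := by omega
        refine ⟨(a, l₁, w), by simp [Y, h8], h8, h5, ?_, ?_⟩
        · rw [← eval_map_int, map_Dl]; exact h6
        · rw [← eval_map_int, map_D, map_Dl]; exact h7) (by
        rintro ⟨a, l, w⟩ _ S' hS'
        rcases S'.eq_empty_or_nonempty with rfl | ⟨x0, hx0⟩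
        · simp
        have hl : l.length ≤ t.j := (hS' x0 hx0).2.1
        have hw : w ∉ K := (hS' x0 hx0).2.2.1
        refine hc2 P hP Q hQ1 hQ2 S' (Function.update Φ w (Dl Φ l (G a))) (insert w K) ρ hρ
          (fun x hx => hG x (hS' x hx).1) ⟨?_, ?_, ?_, ?_, ?_⟩
          (LR.mono hH ⟨G, g, hG1, hG2, hG3⟩ hBB fun x hx => (hS' x hx).1) ?_
        · exact tame_update (fun u => (hF.tame u).mono hH hBB) w
            (tame_Dl hH l t.j B _ hl hF.tame (hG1 a))
        · intro u hu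
          have h3 := hF.base u hu
          have h4 : u ≠ w := fun e => hw (e ▸ h3.1)
          exact ⟨Finset.mem_insert_of_mem h3.1, by simp [h4, h3.2]⟩
        · intro u hu x hx y hy
          by_cases h4 : u = w
          · subst h4
            simp only [Function.update_self]
            rw [(hS' x hx).2.2.2.1, (hS' y hy).2.2.2.1]
          · simp only [Function.update_of_ne h4]
            exact hF.const u ((Finset.mem_insert.mp hu).resolve_left h4) x (hS' x hx).1 y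
              (hS' y hy).1
        · intro u hu x hx
          rw [Finset.mem_insert, not_or] at hu
          simp only [Function.update_of_ne hu.1]
          exact hF.int u hu.2 x (hS' x hx).1
        · intro x hx
          rw [← D_eq_det]
          exact (hS' x hx).2.2.2.2
        · rw [Finset.compl_insert, Finset.card_erase_of_mem (Finset.mem_compl.mpr hw)]
          omega)
    refine this.trans ?_
    rw [← mul_assoc]
    exact Nat.mul_le_mul_right _ (by omega)

omit [Fintype A] [Fintype A2] in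
lemma det_eq_zero {P Q B m k p R : ℕ} (hR : R = 4 ^ m) (hP : 2 ≤ P) (hp : p.Prime)
    (O : ValuationSubring Ω) (hO : ∀ β, IsIntegral ℤ β → β ∈ O)
    (hm : (p : O) ∈ IsLocalRing.maximalIdeal O) (hm1 : 1 ≤ m) (hk1 : 1 ≤ k)
    (hk : 2 * t.T ≤ k * m) (hpH : ((2 * R * t.cF) ^ 2 + 1) * P < p) (hpQ : ¬ p ∣ Q)
    {S : Finset (I → Ω)} {Φ : I → MvPolynomial I ℤ} {K : Finset I}
    (hG : ∀ x ∈ S, t.Gd d P Q x) (hF : d.Fr (P ^ t.b) B S Φ K) (hK : Kᶜ.card ≤ m)
    (hU : ∀ x ∈ S, IsUnit (aeval (lift O x) (jac Φ).det))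
    (hr : ∀ x ∈ S, ∀ y ∈ S, ∀ v, lift O x v - lift O y v ∈ IsLocalRing.maximalIdeal O)
    (hc : ∀ x ∈ S, ∀ y ∈ S, ∀ u, aeval (lift O x) (Φ u) - aeval (lift O y) (Φ u)
      ∈ Ideal.span {(p : O) ^ k})
    (xs : Fin (2 * R) → I → Ω) (as : Fin (2 * R) → A2) (hxs : ∀ i, xs i ∈ S) :
    (Matrix.of fun i j => aeval (xs j) (t.F (as i))).det = 0 := by
  classical
  have hR0 : 0 < R := hR ▸ pow_pos (by omega) _
  have hmem : ∀ x ∈ S, ∀ v, x v ∈ O := fun x hx v => hO _ ((hG x hx).1.1.1 v)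
  obtain ⟨T, hT1, hT2⟩ := exists_monomials K 1 m le_rfl hK
  rw [one_mul] at hT2
  rw [mul_one] at hT1
  let i0 : Fin (2 * R) := ⟨0, by omega⟩
  have h1 := det_mem (fun u => mp O (Φ u)) K (lift O (xs i0)) (fun j => lift O (xs j))
    (fun i => mp O (t.F (as i))) (Ideal.span {(p : O) ^ k}) m
    (by rw [eval_jac_mp]; exact hU _ (hxs i0)) (fun j v => hr _ (hxs j) _ (hxs i0) v)
    (fun j u => by rw [eval_map_int, eval_map_int]; exact hc _ (hxs j) _ (hxs i0) u)
    (fun j u hu => by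
      rw [eval_map_int, eval_map_int]
      apply Subtype.ext
      rw [coe_aeval_lift O (hmem _ (hxs j)), coe_aeval_lift O (hmem _ (hxs i0))]
      exact hF.const u hu _ (hxs j) _ (hxs i0)) T hT2
  choose n hn1 hn2 using fun j a => (hG (xs j) (hxs j)).2.1 a
  set Mn : Matrix (Fin (2 * R)) (Fin (2 * R)) ℤ := Matrix.of fun i j => n j (as i) with hMn
  set Mz : Matrix (Fin (2 * R)) (Fin (2 * R)) ℤ := (Q : ℤ) • Mn with hMz
  have hMe : ∀ i j, Mz i j = Q * n j (as i) := fun i j => by simp [hMz, hMn]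
  have h2 : (Matrix.of fun i j => eval (lift O (xs j)) (mp O (t.F (as i)))).det
      = (Mz.det : O) := by
    have := RingHom.map_det (Int.castRingHom O) Mz
    rw [eq_intCast] at this
    rw [this]
    congr 1
    refine Matrix.ext fun i j => ?_
    simp only [Matrix.of_apply, RingHom.mapMatrix_apply, Matrix.map_apply, hMe, eq_intCast]
    rw [eval_map_int, aeval_lift_eq O (hmem _ (hxs j)) (hn1 j (as i))]
  have h3 : (Matrix.of fun i j => aeval (xs j) (t.F (as i))).det = (Mz.det : Ω) := by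
    have := RingHom.map_det (Int.castRingHom Ω) Mz
    rw [eq_intCast] at this
    rw [this]
    congr 1
    refine Matrix.ext fun i j => ?_
    simp only [Matrix.of_apply, RingHom.mapMatrix_apply, Matrix.map_apply, hMe, eq_intCast]
    rw [hn1]
  rw [h2, Fintype.card_fin] at h1
  have h4 := Ideal.pow_le_pow_right (I := Ideal.span {(p : O) ^ k} ^ m)
    (show R ≤ 2 * R - T.card by omega) h1
  rw [← pow_mul, Ideal.span_singleton_pow, ← pow_mul] at h4
  have h5' := dvd_of_mem hp hm _ _ h4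
  have h5 : (p : ℤ) ^ (k * (m * R)) ∣ Mn.det := by
    rw [hMz, Matrix.det_smul] at h5'
    refine IsCoprime.dvd_of_dvd_mul_left ?_ h5'
    exact (Nat.isCoprime_iff_coprime.mpr ((Nat.Prime.coprime_iff_not_dvd hp).mpr hpQ)).pow
  have h6 := Matrix.det_le (A := Mn) (abv := AbsoluteValue.abs) (x := ((t.cF * P ^ t.T : ℕ) : ℤ))
    fun i j => by
      rw [AbsoluteValue.abs_apply, ← Int.natCast_natAbs]
      exact_mod_cast hn2 j (as i)
  rw [AbsoluteValue.abs_apply, ← Int.natCast_natAbs, Fintype.card_fin, nsmul_eq_mul] at h6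
  have h7 : Mn.det.natAbs ≤ (2 * R).factorial * (t.cF * P ^ t.T) ^ (2 * R) := by
    exact_mod_cast h6
  have h8 : (2 * R).factorial * (t.cF * P ^ t.T) ^ (2 * R) < p ^ (k * (m * R)) := by
    have h9 : 1 ≤ k * m := Nat.mul_pos hk1 hm1
    have h10 : (2 * R * t.cF) ^ 2 * P ^ (2 * t.T) < p ^ (k * m) := by
      calc (2 * R * t.cF) ^ 2 * P ^ (2 * t.T)
          < ((2 * R * t.cF) ^ 2 + 1) * P ^ (2 * t.T) :=
            Nat.mul_lt_mul_of_pos_right (by omega) (pow_pos (by omega) _)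
        _ ≤ ((2 * R * t.cF) ^ 2 + 1) ^ (k * m) * P ^ (k * m) :=
            Nat.mul_le_mul (Nat.le_self_pow (by omega) _) (Nat.pow_le_pow_right (by omega) hk)
        _ = (((2 * R * t.cF) ^ 2 + 1) * P) ^ (k * m) := (mul_pow _ _ _).symm
        _ ≤ _ := Nat.pow_le_pow_left hpH.le _
    calc (2 * R).factorial * (t.cF * P ^ t.T) ^ (2 * R)
        ≤ (2 * R) ^ (2 * R) * (t.cF * P ^ t.T) ^ (2 * R) :=
          Nat.mul_le_mul_right _ (Nat.factorial_le_pow _)
      _ = ((2 * R * t.cF) ^ 2 * P ^ (2 * t.T)) ^ R := by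
          rw [← mul_pow, pow_mul]; congr 1; ring
      _ < (p ^ (k * m)) ^ R := Nat.pow_lt_pow_left h10 (by omega)
      _ = _ := by rw [← pow_mul]; congr 1; ring
  have h11 : Mn.det = 0 := by
    by_contra h0
    have h12 : p ^ (k * (m * R)) ∣ Mn.det.natAbs := Int.natCast_dvd.mp (by exact_mod_cast h5)
    have := Nat.le_of_dvd (Int.natAbs_pos.mpr h0) h12
    omega
  rw [h3, hMz, Matrix.det_smul, h11, mul_zero, Int.cast_zero]

omit [Fintype A] in
theorem stage [IsGalois ℚ Ω] (hb : 1 ≤ t.b) {m E k : ℕ} (h : t.Bd d (m / 2) E)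
    (hm0 : t.m0 ≤ m / 2) (hm1 : 1 ≤ m) (hk1 : 1 ≤ k) (hk : 2 * t.T ≤ k * m) :
    t.Bd d m (E + k * m) := by
  classical
  intro B
  set N := Fintype.card I with hN
  set s := 2 * 4 ^ m with hs
  obtain ⟨BF, -, hBF⟩ := exists_tame_family t.F
  set B2 := B + (s * (t.cF + (t.EQ + t.T) + BF) + s.factorial) with hB2
  obtain ⟨ci, hci⟩ := inner (s := s) hb h hm0 (by
    calc s ≤ 4 ^ (m + 1) := by rw [hs, pow_succ]; omega
      _ ≤ 4 ^ (2 * (m / 2 + 1)) := Nat.pow_le_pow_right (by norm_num) (by omega)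
      _ = _ := by rw [pow_mul]; norm_num) (m - m / 2) B2
  set E1 := t.b * (2 * fD N B * N.factorial) + t.EQ with hE1
  set y0 := (s * t.cF) ^ 2 + 1 with hy0
  set Bz := (1 + B * N) ^ N with hBz
  refine ⟨(E1 + 1) * ((2 ^ (E1 + 1) * y0) ^ (k * m) * (Bz * ci)),
    fun P hP Q hQ1 hQ2 S Φ K hG hF hK => ?_⟩
  have hH := two_le hb hP
  have hPH : P ≤ P ^ t.b := Nat.le_self_pow (by omega) _
  have hy1 : P ≤ y0 * P := Nat.le_mul_of_pos_left _ (by omega)
  obtain ⟨Pr, hP1, hP2⟩ := exists_primes (y0 * P) (by omega) (E1 + 1)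
  have main := card_le_of_cover S Pr (fun x p => ¬ p ∣ Q ∧ ∃ (u : ℤ) (β : Ω), ¬ (p : ℤ) ∣ u ∧
      IsIntegral ℤ β ∧ (u : Ω) = aeval x (jac Φ).det * β)
    ((2 ^ (E1 + 1) * (y0 * P)) ^ (k * m) * (Bz * (ci * P ^ E))) (by
      intro x hx
      obtain ⟨u, h1, h2, β, h3, h4⟩ := exists_int_multiple hH (hG x hx).1.1
        (tame_jac hH hF.tame) (hF.det x hx)
      obtain ⟨p, hp, h5⟩ := exists_not_dvd (H := P) (E := E1) (u := u * Q) (by omega) hP1
        (fun p hp => ⟨(hP2 p hp).1, lt_of_le_of_lt hy1 (hP2 p hp).2.1⟩)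
        (mul_ne_zero h1 (by exact_mod_cast hQ1.ne')) (by
          rw [Int.natAbs_mul, Int.natAbs_natCast, hE1, pow_add, pow_mul]
          exact Nat.mul_le_mul h2 hQ2)
      exact ⟨p, hp, fun h6 => h5 (Dvd.dvd.mul_left (by exact_mod_cast h6) _), u, β,
        fun h6 => h5 (Dvd.dvd.mul_right h6 _), h3, h4⟩) (by
      intro p hpP S1 hS1
      rcases S1.eq_empty_or_nonempty with rfl | ⟨x1, hx1⟩
      · simp
      have hpQ : ¬ p ∣ Q := (hS1 x1 hx1).2.1
      obtain ⟨hp, hp1, hp2⟩ := hP2 p hpP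
      obtain ⟨O, hO, hm⟩ := exists_val Ω hp
      have hmem : ∀ x ∈ S, ∀ v, x v ∈ O := fun x hx v => hO _ ((hG x hx).1.1.1 v)
      have hU : ∀ x ∈ S1, IsUnit (aeval (lift O x) (jac Φ).det) := by
        intro x hx
        obtain ⟨hxS, -, u, β, h1, h2, h3⟩ := hS1 x hx
        have h4 : (u : O) = aeval (lift O x) (jac Φ).det * ⟨β, hO β h2⟩ := by
          apply Subtype.ext
          simp [coe_aeval_lift O (hmem x hxS), h3]
        have h5 := isUnit_int hp hm h1
        rw [h4] at h5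
        exact isUnit_of_mul_isUnit_left h5
      have : NeZero (p ^ k) := ⟨pow_ne_zero _ hp.ne_zero⟩
      have h2 := card_le_of_cover S1 (Finset.univ : Finset ({u // u ∉ K} → ZMod (p ^ k)))
        (fun x c => ∀ u : {u // u ∉ K}, ∃ n : ℤ, (n : Ω) = aeval x (Φ u) ∧ (n : ZMod (p ^ k)) = c u)
        (Bz * (ci * P ^ E)) (by
          intro x hx
          choose n hn using fun u : {u // u ∉ K} => hF.int u u.2 x (hS1 x hx).1
          exact ⟨fun u => n u, Finset.mem_univ _, fun u => ⟨n u, hn u, rfl⟩⟩) (by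
          intro c _ S2 hS2
          have hSS : ∀ x ∈ S2, x ∈ S := fun x hx => (hS1 x (hS2 x hx).1).1
          have hc : ∀ x ∈ S2, ∀ y ∈ S2, ∀ u, aeval (lift O x) (Φ u) - aeval (lift O y) (Φ u)
              ∈ Ideal.span {(p : O) ^ k} := by
            intro x hx y hy u
            by_cases hu : u ∈ K
            · have : aeval (lift O x) (Φ u) = aeval (lift O y) (Φ u) := by
                apply Subtype.ext
                rw [coe_aeval_lift O (hmem _ (hSS x hx)), coe_aeval_lift O (hmem _ (hSS y hy))]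
                exact hF.const u hu _ (hSS x hx) _ (hSS y hy)
              rw [this, sub_self]; exact zero_mem _
            · obtain ⟨n1, h3, h4⟩ := (hS2 x hx).2 ⟨u, hu⟩
              obtain ⟨n2, h5, h6⟩ := (hS2 y hy).2 ⟨u, hu⟩
              rw [aeval_lift_eq O (hmem _ (hSS x hx)) h3, aeval_lift_eq O (hmem _ (hSS y hy)) h5]
              obtain ⟨t', ht⟩ := (ZMod.intCast_eq_intCast_iff_dvd_sub n2 n1 (p ^ k)).mp
                (h6.trans h4.symm)
              refine Ideal.mem_span_singleton'.mpr ⟨t', ?_⟩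
              have := congrArg (Int.cast : ℤ → O) ht
              push_cast at this
              rw [this, mul_comm]
          let r : (I → Ω) → I → IsLocalRing.ResidueField O :=
            fun x v => IsLocalRing.residue O (lift O x v)
          have hZ : (S2.image r).card ≤ Bz := by
            rcases S2.eq_empty_or_nonempty with rfl | ⟨x0, hx0⟩
            · simp
            refine bezout (fun u => mp _ (Φ u)) B
              (fun u => (totalDegree_mp_le _).trans (hF.tame u).1)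
              (fun u => aeval (r x0) (Φ u)) _ fun z hz => ?_
            obtain ⟨x, hx, rfl⟩ := Finset.mem_image.mp hz
            refine ⟨fun u => ?_, ?_⟩
            · have e0 : aeval (r x0) (Φ u) = IsLocalRing.residue O (aeval (lift O x0) (Φ u)) :=
                (ringHom_aeval (IsLocalRing.residue O) (lift O x0) _).symm
              rw [eval_map_int, ← ringHom_aeval (IsLocalRing.residue O) (lift O x), e0,
                ← sub_eq_zero, ← map_sub, IsLocalRing.residue_eq_zero_iff]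
              refine (Ideal.span_le.mpr ?_) (hc x hx x0 hx0 u)
              rintro _ rfl
              exact Ideal.pow_mem_of_mem _ hm _ hk1
            · rw [eval_jac_mp, ← ringHom_aeval]
              exact ((hU x (hS2 x hx).1).map _).ne_zero
          refine (card_le_of_cover S2 (S2.image r) (fun x z => r x = z) (ci * P ^ E)
            (fun x hx => ⟨r x, Finset.mem_image_of_mem _ hx, rfl⟩) ?_).trans
            (Nat.mul_le_mul_right _ hZ)
          intro z _ S3 hS3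
          have hSS3 : ∀ x ∈ S3, x ∈ S := fun x hx => hSS x (hS3 x hx).1
          have hG3 : ∀ x ∈ S3, t.Gd d P Q x := fun x hx => hG x (hSS3 x hx)
          obtain ⟨ρ, hρ, hL⟩ := lr_of_det (d := t.st d) (s := s) hH (hBF _ hH) S3 (by
              intro x hx a
              obtain ⟨n, h3, h4⟩ := (hG3 x hx).2.1 a
              refine ⟨Q * n, h3, ?_⟩
              rw [Int.natAbs_mul, Int.natAbs_natCast]
              calc Q * n.natAbs ≤ P ^ t.EQ * (t.cF * P ^ t.T) := Nat.mul_le_mul hQ2 h4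
                _ = t.cF * P ^ (t.EQ + t.T) := by rw [pow_add]; ring
                _ ≤ _ := Nat.mul_le_mul_left _ (Nat.pow_le_pow_left hPH _))
            (det_eq_zero rfl hP hp O hO hm hm1 hk1 hk hp1 hpQ hG3 (hF.mono hH le_rfl hSS3) hK
              (fun x hx => hU x (hS2 x (hS3 x hx).1).1)
              (fun x hx y hy v => by
                rw [← IsLocalRing.residue_eq_zero_iff, map_sub, sub_eq_zero]
                exact congrFun ((hS3 x hx).2.trans (hS3 y hy).2.symm) v)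
              (fun x hx y hy => hc x (hS3 x hx).1 y (hS3 y hy).1))
          exact hci P hP Q hQ1 hQ2 S3 Φ K ρ hρ hG3 (hF.mono hH (by omega) hSS3)
            (hL.mono hH (Nat.le_add_left _ _) fun _ hx => hx) (by omega))
      refine h2.trans (Nat.mul_le_mul_right _ ?_)
      have hcard : Fintype.card {u // u ∉ K} = Kᶜ.card := by
        simp [Fintype.card_subtype_compl, Finset.card_compl]
      rw [Finset.card_univ, Fintype.card_fun, ZMod.card, hcard, ← pow_mul]
      calc p ^ (k * Kᶜ.card) ≤ p ^ (k * m) :=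
            Nat.pow_le_pow_right hp.pos (Nat.mul_le_mul_left _ hK)
        _ ≤ _ := Nat.pow_le_pow_left hp2 _)
  refine main.trans (le_of_eq ?_)
  rw [hP1, ← mul_assoc (2 ^ (E1 + 1)), mul_pow, pow_add P]
  ring

omit [Fintype A] in
lemma bd_pow [IsGalois ℚ Ω] (hb : 1 ≤ t.b) {m1 E N : ℕ} (hm : 2 * t.m0 + 1 ≤ m1)
    (h : t.Bd d m1 E) :
    ∀ r m : ℕ, m < 2 ^ r * (m1 + 1) → m ≤ N → t.Bd d m (E + (2 * t.T + N) * r) := by
  intro r
  induction r with
  | zero => intro m h1 _; exact h.mono (by omega) (by omega)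
  | succ r ih =>
    intro m h1 h2
    by_cases h3 : m ≤ m1
    · exact h.mono h3 (by omega)
    have h4 := ih (m / 2) (by rw [pow_succ', mul_assoc] at h1; omega) (by omega)
    have hm1 : 0 < m := by omega
    have h5 := Nat.div_add_mod (2 * t.T) m
    have h6 := Nat.mod_lt (2 * t.T) hm1
    have h7 : (2 * t.T / m + 1) * m = m * (2 * t.T / m) + m := by ring
    refine (stage hb (k := 2 * t.T / m + 1) h4 (by omega) hm1 (Nat.le_add_left _ _)
      (by omega)).mono le_rfl ?_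
    rw [mul_add (2 * t.T + N), mul_one]
    omega

end Two

theorem count2 [IsGalois ℚ Ω] (d : Setup I A Ω) (hK0 : d.K0 = ∅) (hj1 : 1 ≤ d.j)
    (F : A2 → MvPolynomial I ℤ) (T j cF EQ b m0 m1 E0 r : ℕ) (hb : 1 ≤ b) (hm : 2 * m0 + 1 ≤ m1)
    (hr : Fintype.card I < 2 ^ r * (m1 + 1)) (h0 : d.Bd m1 E0) :
    ∃ c : ℕ, ∀ P : ℕ, 2 ≤ P → ∀ Q : ℕ, 0 < Q → Q ≤ P ^ EQ → ∀ S : Finset (I → Ω),
      (∀ x ∈ S, d.Gd (P ^ b) x ∧
        (∀ a, ∃ n : ℤ, ((Q * n : ℤ) : Ω) = aeval x (F a) ∧ n.natAbs ≤ cF * P ^ T) ∧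
        RK F j m0 x) →
      S.card ≤ c * P ^ (b * E0 + (2 * T + Fintype.card I) * r) := by
  classical
  let t : Two I A2 := ⟨F, T, j, cF, EQ, b, m0⟩
  have hB := Two.bd_pow (t := t) (N := Fintype.card I) hb hm (Two.bd_base (t := t) hb h0)
    r (Fintype.card I) hr le_rfl
  obtain ⟨BF, hBF1, hBF⟩ := exists_tame_family d.F
  obtain ⟨c, hc⟩ := hB BF
  let Y : Finset (I → MvPolynomial I ℤ) :=
    Fintype.piFinset fun _ => Finset.univ.image d.F
  refine ⟨Y.card * c, fun P hP Q hQ1 hQ2 S hG => ?_⟩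
  have hH : 2 ≤ P ^ b := Two.two_le (t := t) hb hP
  rw [mul_assoc]
  refine card_le_of_cover S Y (fun x Φ => (∀ u, ∃ a, Φ u = d.F a) ∧ aeval x (jac Φ).det ≠ 0) _
    (fun x hx => ?_) fun Φ _ S' hS' => ?_
  · obtain ⟨Φ, h1, -, h3⟩ := exists_frame hj1 (hG x hx).1.2.2 Finset.univ (by simp [hK0])
    refine ⟨Φ, Fintype.mem_piFinset.mpr fun u => ?_, fun u => h1 u (Finset.mem_univ _), h3⟩
    obtain ⟨a, ha⟩ := h1 u (Finset.mem_univ _)
    rw [ha]; exact Finset.mem_image_of_mem _ (Finset.mem_univ a)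
  · rcases S'.eq_empty_or_nonempty with rfl | ⟨x0, hx0⟩
    · simp
    have h1 := (hS' x0 hx0).2.1
    refine hc P hP Q hQ1 hQ2 S' Φ ∅ (fun x hx => hG x (hS' x hx).1) ⟨fun u => ?_,
      fun u hu => by simp [hK0] at hu, fun u hu => by simp at hu, fun u _ x hx => ?_,
      fun x hx => (hS' x hx).2.2⟩ (by simp)
    · obtain ⟨a, ha⟩ := h1 u
      rw [ha]; exact hBF _ hH a
    · obtain ⟨a, ha⟩ := h1 u
      obtain ⟨n, hn, -⟩ := (hG x (hS' x hx).1).1.2.1 a
      exact ⟨n, ha ▸ hn⟩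

end Pool.Agent.Lib.MP_af4c59_nt.H50
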