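import Pool.Agent.Lib.MP_af4c59_nt.H50Diff
import Pool.Agent.Lib.MP_af4c59_nt.H50Inertia

/-!
Tame inertia seen through a valuation of the algebraic closure.
-/

namespace Pool.Agent.Lib.MP_af4c59_nt.H50

open NumberField Pool.Agent.Lib.MP_af4c59_nt.H11

namespace TameAux

section Val

variable {R Γ₀ : Type} [CommRing R] [LinearOrderedCommGroupWithZero Γ₀]

theorem val_max [IsNoetherianRing R] (v : Valuation R Γ₀) (h1 : ∀ z, v z ≤ 1) (𝔓 : Ideal R) :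
    ∃ x ∈ 𝔓, ∀ z ∈ 𝔓, v z ≤ v x := by
  classical
  obtain ⟨S, hS⟩ : 𝔓.FG := IsNoetherian.noetherian 𝔓
  obtain ⟨x, hx, hm⟩ := Finset.exists_max_image (insert 0 S) (fun z => v z)
    (Finset.insert_nonempty _ _)
  subst hS
  refine ⟨x, ?_, fun z hz => ?_⟩
  · rcases Finset.mem_insert.1 hx with rfl | hx
    · exact zero_mem _
    · exact Submodule.subset_span hx
  · induction hz using Submodule.span_induction with
    | mem z hz => exact hm z (Finset.mem_insert_of_mem hz)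
    | zero => simp
    | add a b _ _ ha hb => exact v.map_add_le ha hb
    | smul a b _ hb =>
      rw [smul_eq_mul, map_mul]
      exact (mul_le_mul' (h1 a) hb).trans_eq (one_mul _)

theorem val_pow (v : Valuation R Γ₀) (h1 : ∀ z, v z ≤ 1) (𝔓 : Ideal R) (γ : Γ₀)
    (h2 : ∀ z ∈ 𝔓, v z ≤ γ) (j : ℕ) : ∀ z ∈ 𝔓 ^ j, v z ≤ γ ^ j := by
  induction j with
  | zero => intro z _; rw [pow_zero]; exact h1 z
  | succ j ih =>
    intro z hz
    rw [pow_succ] at hz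
    refine Submodule.mul_induction_on hz (fun a ha b hb => ?_) fun a b ha hb => v.map_add_le ha hb
    rw [map_mul, pow_succ]
    exact mul_le_mul' (ih a ha) (h2 b hb)

theorem val_low (v : Valuation R Γ₀) (h1 : ∀ z, v z ≤ 1) (𝔓 : Ideal R)
    (h : ∀ z, z ∈ 𝔓 ↔ v z < 1) (x : R) (hx : x ∈ 𝔓) (n : ℕ) (p : R) (𝔞 : Ideal R)
    (e1 : Ideal.span {p} = 𝔓 ^ n * 𝔞) (e2 : 𝔓 ⊔ 𝔞 = ⊤) : v x ^ n ≤ v p := by
  obtain ⟨a, ha, s, hs, e⟩ := Submodule.mem_sup.1 (e2.ge (Submodule.mem_top (x := (1 : R))))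
  have hs1 : v s = 1 := by
    refine le_antisymm (h1 s) (not_lt.1 fun c => ?_)
    have := (h _).1 (𝔓.add_mem ha ((h s).2 c))
    rw [e, map_one] at this
    exact lt_irrefl _ this
  have hm2 : x ^ n * s ∈ Ideal.span {p} := e1.ge (Ideal.mul_mem_mul (Ideal.pow_mem_pow hx n) hs)
  obtain ⟨c, hc⟩ := Ideal.mem_span_singleton'.1 hm2
  calc v x ^ n = v (x ^ n * s) := by rw [map_mul, map_pow, hs1, mul_one]
    _ = v c * v p := by rw [← hc, map_mul]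
    _ ≤ 1 * v p := mul_le_mul' (h1 c) le_rfl
    _ = v p := one_mul _

/-- The largest value of a valuation on its prime ideal controls the powers of the ideal. -/
theorem val_aux [IsNoetherianRing R] (v : Valuation R Γ₀) (h1 : ∀ z, v z ≤ 1) (𝔓 : Ideal R)
    (h : ∀ z, z ∈ 𝔓 ↔ v z < 1) : ∃ γ : Γ₀, γ < 1 ∧ (∀ j, ∀ z ∈ 𝔓 ^ j, v z ≤ γ ^ j) ∧
      ∀ (n : ℕ) (p : R) (𝔞 : Ideal R), Ideal.span {p} = 𝔓 ^ n * 𝔞 → 𝔓 ⊔ 𝔞 = ⊤ → v p = γ ^ n := by
  obtain ⟨x, hx, h2⟩ := val_max v h1 𝔓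
  refine ⟨v x, (h x).1 hx, val_pow v h1 𝔓 _ h2, fun n p 𝔞 e1 e2 => ?_⟩
  have h3 : p ∈ 𝔓 ^ n * 𝔞 := e1.le (Ideal.mem_span_singleton_self p)
  have h4 : 𝔓 ^ n * 𝔞 ≤ 𝔓 ^ n := Ideal.mul_le_left
  exact le_antisymm (val_pow v h1 𝔓 _ h2 n p (h4 h3)) (val_low v h1 𝔓 h x hx n p 𝔞 e1 e2)

end Val

/-- The twisted orbit sum is an eigenvector. -/
theorem eig {M : Type} [Field M] [CharZero M] (g : M ≃ₐ[ℚ] M) {ζ : M} {n : ℕ} (hn : 0 < n)
    (hζ : ζ ^ n = 1) (hg : g ^ n = 1) (hgζ : g ζ = ζ) (j : ℕ) (x : M) :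
    g (∑ t ∈ Finset.range n, ζ⁻¹ ^ (j * t) * (g ^ t) x) =
      ζ ^ j * ∑ t ∈ Finset.range n, ζ⁻¹ ^ (j * t) * (g ^ t) x := by
  have h0 : ζ ≠ 0 := by
    rintro rfl
    rw [zero_pow hn.ne'] at hζ
    exact zero_ne_one hζ
  have e1 := Finset.sum_range_succ (fun t => ζ⁻¹ ^ (j * t) * (g ^ t) x) n
  have e2 := Finset.sum_range_succ' (fun t => ζ⁻¹ ^ (j * t) * (g ^ t) x) n
  have e3 : ζ⁻¹ ^ (j * n) * (g ^ n) x = ζ⁻¹ ^ (j * 0) * (g ^ 0) x := by
    rw [hg, mul_comm j n, pow_mul, inv_pow, hζ]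
    simp
  rw [e1, e3, add_left_inj] at e2
  conv_rhs => rw [e2]
  rw [map_sum, Finset.mul_sum]
  refine Finset.sum_congr rfl fun t _ => ?_
  rw [map_mul, map_pow, map_inv₀, hgζ, pow_succ' g, AlgEquiv.mul_apply, mul_add, mul_one, pow_add,
    inv_pow ζ j]
  field_simp

variable {I Ω : Type} [Fintype I] [DecidableEq I] [Field Ω] [CharZero Ω] [IsAlgClosed Ω]
  [IsGalois ℚ Ω]

omit [DecidableEq I] [IsAlgClosed Ω] in
/-- The field generated by the conjugates of `L` and a root of unity. -/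
theorem exists_field {L : Type} [Field L] [NumberField L] (e : I ≃ (L →ₐ[ℚ] Ω)) {ω : Ω} {n0 : ℕ}
    (h0 : 0 < n0) (hω : IsPrimitiveRoot ω n0) :
    ∃ M : IntermediateField ℚ Ω, FiniteDimensional ℚ M ∧ Normal ℚ M ∧ ω ∈ M ∧
      (∀ i a, e i a ∈ M) ∧
      ∀ g : Ω ≃ₐ[ℚ] Ω, g ω = ω → (∀ i a, g (e i a) = e i a) → ∀ y ∈ M, g y = y := by
  have : NeZero n0 := ⟨h0.ne'⟩
  have f1 : ∀ i, FiniteDimensional ℚ (e i).fieldRange := fun i =>
    (e i).toLinearMap.finiteDimensional_range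
  have f2 : FiniteDimensional ℚ (IntermediateField.adjoin ℚ {ω}) :=
    IntermediateField.adjoin.finiteDimensional (Algebra.IsIntegral.isIntegral ω)
  obtain ⟨M, hM⟩ : ∃ M : IntermediateField ℚ Ω,
    M = IntermediateField.adjoin ℚ {ω} ⊔ ⨆ i, (e i).fieldRange := ⟨_, rfl⟩
  have m1 : ω ∈ M := hM ▸ (le_sup_left : _ ≤ IntermediateField.adjoin ℚ {ω} ⊔
    ⨆ i, (e i).fieldRange) (IntermediateField.mem_adjoin_simple_self ℚ ω)
  have m2 : ∀ i a, e i a ∈ M := fun i a => hM ▸ (le_sup_right : _ ≤ IntermediateField.adjoin ℚ {ω} ⊔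
    ⨆ i, (e i).fieldRange) (le_iSup (fun i => (e i).fieldRange) i ⟨a, rfl⟩)
  have m3 : ∀ N : IntermediateField ℚ Ω, ω ∈ N → (∀ i a, e i a ∈ N) → M ≤ N := fun N a b =>
    hM ▸ sup_le (IntermediateField.adjoin_simple_le_iff.2 a)
      (iSup_le fun i => by rintro _ ⟨a, rfl⟩; exact b i a)
  refine ⟨M, hM ▸ inferInstance, IntermediateField.normal_iff_forall_map_le.2 fun σ => ?_, m1, m2,
    fun g a b y hy => ?_⟩
  · refine IntermediateField.map_le_iff_le_comap.2 (m3 _ ?_ fun i a => ?_)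
    · obtain ⟨i, -, hi⟩ := hω.eq_pow_of_pow_eq_one (ξ := σ ω)
        (by rw [← map_pow, hω.pow_eq_one, map_one])
      show σ ω ∈ M
      exact hi ▸ pow_mem m1 i
    · show σ (e i a) ∈ M
      have := m2 (e.symm (σ.comp (e i))) a
      rwa [Equiv.apply_symm_apply] at this
  · exact m3 ((AlgHom.equalizer (g : Ω →ₐ[ℚ] Ω) (AlgHom.id ℚ Ω)).toIntermediateField
      fun x hx => by
        have hx' : g x = x := hx
        show g x⁻¹ = x⁻¹
        rw [map_inv₀, hx']) a b hy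

omit [Fintype I] [DecidableEq I] [IsAlgClosed Ω] in
/-- An automorphism of `M` acts on the embeddings through an element of `Γ`. -/
theorem lift (Γ : Subgroup (Equiv.Perm I)) {L : Type} [Field L] [NumberField L]
    (e : I ≃ (L →ₐ[ℚ] Ω)) (hΓ : Mon Γ e) (M : IntermediateField ℚ Ω) (σ : M ≃ₐ[ℚ] M) :
    ∃ π ∈ Γ, ∃ G : Ω ≃ₐ[ℚ] Ω, (∀ (t : ℕ) (y : M), (G ^ t) y = (σ ^ t) y) ∧
      ∀ (t : ℕ) i a, e ((π ^ t) i) a = (G ^ t) (e i a) := by
  obtain ⟨π, hπ, h⟩ := hΓ (σ.liftNormal Ω)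
  refine ⟨π, hπ, σ.liftNormal Ω, fun t => ?_, fun t => ?_⟩
  · induction t with
    | zero => intro y; rfl
    | succ t ih =>
      intro y
      rw [pow_succ', pow_succ', AlgEquiv.mul_apply, AlgEquiv.mul_apply, ih]
      exact σ.liftNormal_commutes Ω _
  · induction t with
    | zero => intro i a; rfl
    | succ t ih =>
      intro i a
      rw [pow_succ', pow_succ', AlgEquiv.mul_apply, Equiv.Perm.mul_apply, h, ih]

omit [DecidableEq I] in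
theorem orb_le {β : Type} [DecidableEq β] (π : Equiv.Perm I) (χ : I → β)
    (h : ∀ i i', χ i = χ i' → π.SameCycle i i') : orb π ≤ (Finset.univ.image χ).card := by
  rw [← Nat.card_eq_finsetCard]
  refine Nat.card_le_card_of_injective
    (fun q => (⟨χ q.out, Finset.mem_image_of_mem _ (Finset.mem_univ _)⟩ :
      (Finset.univ.image χ : Finset β))) fun q q' e => ?_
  rw [← q.out_eq, ← q'.out_eq]
  exact Quotient.sound (h _ _ (congrArg Subtype.val e))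

end TameAux

variable {I Ω : Type} [Fintype I] [DecidableEq I] [Field Ω] [CharZero Ω] [IsAlgClosed Ω]
  [IsGalois ℚ Ω]

theorem tame_val (Γ : Subgroup (Equiv.Perm I)) {L : Type} [Field L] [NumberField L]
    (e : I ≃ (L →ₐ[ℚ] Ω)) (hΓ : Mon Γ e) {p : ℕ} (hp : p.Prime) (h1 : Nat.card Γ < p)
    (h2 : Fintype.card I < p) :
    ∃ π ∈ Γ, ∃ (ζ : Ω) (n : ℕ) (O : ValuationSubring Ω) (γ : O.ValueGroup),
      0 < n ∧ n ∣ Nat.card Γ ∧ IsPrimitiveRoot ζ n ∧ π ^ n = 1 ∧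
      (∀ β, IsIntegral ℤ β → β ∈ O) ∧ γ < 1 ∧ O.valuation (p : Ω) = γ ^ n ∧
      (∀ a : L, IsIntegral ℤ a → ∀ i, ∀ j < n,
        O.valuation (∑ t ∈ Finset.range n, ζ⁻¹ ^ (j * t) * e ((π ^ t) i) a) ≤ γ ^ j) ∧
      padicValNat p (discr L).natAbs + orb π ≤ Fintype.card I := by
  classical
  have h0 : 0 < Nat.card Γ := Nat.card_pos
  have : NeZero (Nat.card Γ) := ⟨h0.ne'⟩
  obtain ⟨ω, hω⟩ := HasEnoughRootsOfUnity.exists_primitiveRoot Ω (Nat.card Γ)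
  obtain ⟨M, f1, f2, m1, m2, m3⟩ := TameAux.exists_field e h0 hω
  have : NumberField M := ⟨⟩
  have : IsGalois ℚ M := ⟨⟩
  obtain ⟨O, hO, hm⟩ := exists_val Ω hp
  obtain ⟨φ, hφ⟩ : ∃ φ : I → (L →ₐ[ℚ] M), ∀ i a, (φ i a : Ω) = e i a :=
    ⟨fun i => (e i).codRestrict M.toSubalgebra (m2 i), fun _ _ => rfl⟩
  obtain ⟨ρ, hρ⟩ : ∃ ρ : 𝓞 M →+* O, ∀ z, (ρ z : Ω) = ((z : M) : Ω) :=
    ⟨((algebraMap M Ω).comp (algebraMap (𝓞 M) M)).codRestrict O fun z =>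
      hO _ (map_isIntegral_int (algebraMap M Ω) z.2), fun _ => rfl⟩
  obtain ⟨𝔓, h𝔓⟩ : ∃ 𝔓 : Ideal (𝓞 M), 𝔓 = (IsLocalRing.maximalIdeal O).comap ρ := ⟨_, rfl⟩
  have hp𝔓 : (p : 𝓞 M) ∈ 𝔓 := by rw [h𝔓, Ideal.mem_comap, map_natCast]; exact hm
  have hmax : 𝔓.IsMaximal := by
    have : 𝔓.IsPrime := h𝔓 ▸ inferInstance
    refine this.isMaximal fun c => ?_
    rw [c, Ideal.mem_bot] at hp𝔓
    exact hp.ne_zero (by exact_mod_cast hp𝔓)
  have hω' : IsPrimitiveRoot (⟨ω, m1⟩ : M) (Nat.card Γ) :=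
    IsPrimitiveRoot.of_map_of_injective (f := algebraMap M Ω) hω (algebraMap M Ω).injective
  obtain ⟨g, ζ, n, a1, a2, a3, a4, a5, ⟨𝔞, a6, a7⟩, a8, a9⟩ := inertia hp 𝔓 hmax hp𝔓
    (Nat.not_dvd_of_pos_of_lt h0 h1) hω' (fun σ hσ => by
      obtain ⟨π, hπ, G, b1, b2⟩ := TameAux.lift Γ e hΓ M σ
      have b3 : π ^ Nat.card Γ = 1 :=
        congrArg Subtype.val (pow_card_eq_one' (x := (⟨π, hπ⟩ : Γ)))
      have b4 : ∀ t : ℕ, (σ ^ t) ⟨ω, m1⟩ = ⟨ω, m1⟩ := fun t => by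
        induction t with
        | zero => rfl
        | succ t ih => rw [pow_succ', AlgEquiv.mul_apply, ih, hσ]
      refine AlgEquiv.ext fun y => Subtype.ext ?_
      rw [← b1]
      exact m3 _ ((b1 _ ⟨ω, m1⟩).trans (by rw [b4])) (fun i a => by rw [← b2, b3]; rfl) y y.2)
  obtain ⟨π, hπ, G, b1, b2⟩ := TameAux.lift Γ e hΓ M g
  have key : ∀ (t : ℕ) i a, e ((π ^ t) i) a = ((g ^ t) (φ i a) : M) := fun t i a => by
    rw [b2, ← b1, hφ]
  obtain ⟨γ, c1, c2, c3⟩ := TameAux.val_aux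
    (O.valuation.comap ((algebraMap M Ω).comp (algebraMap (𝓞 M) M)))
    (fun z => (O.valuation_le_one_iff _).2 (hO _ (map_isIntegral_int (algebraMap M Ω) z.2))) 𝔓
    (fun z => by rw [h𝔓, Ideal.mem_comap, O.valuation_lt_one_iff, hρ]; rfl)
  refine ⟨π, hπ, ζ, n, O, γ, a1, a2, a3.map_of_injective (algebraMap M Ω).injective,
    Equiv.ext fun i => e.injective (AlgHom.ext fun a => ?_), hO, c1, ?_, fun a ha i j hj => ?_, ?_⟩
  · rw [key, a4]
    exact hφ i a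
  · simpa using c3 n p 𝔞 a6 a7
  · have hy : IsIntegral ℤ (∑ t ∈ Finset.range n, ζ⁻¹ ^ (j * t) * (g ^ t) (φ i a)) :=
      IsIntegral.sum _ fun t _ => ((a3.inv.isIntegral a1).pow _).mul
        (map_isIntegral_int (g ^ t) (map_isIntegral_int (φ i) ha))
    have := c2 j _ (a8 ⟨_, hy⟩ j hj (TameAux.eig g a1 a3.pow_eq_one a4 a5 j _))
    refine le_of_eq_of_le (congrArg _ ?_) this
    simp [key]
  · have hN : Module.finrank ℚ L = Fintype.card I := by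
      rw [Fintype.card_congr e, AlgHom.card]
    obtain ⟨χ, hχ⟩ : ∃ χ : I → (𝓞 L →+* IsLocalRing.ResidueField O), ∀ i a,
        χ i a = IsLocalRing.residue O (ρ (RingOfIntegers.mapRingHom (φ i : L →+* M) a)) :=
      ⟨fun i => (IsLocalRing.residue O).comp (ρ.comp (RingOfIntegers.mapRingHom (φ i : L →+* M))),
        fun _ _ => rfl⟩
    have d1 := tame_disc L hp (hN ▸ h2) (k := IsLocalRing.ResidueField O)
      (by rw [← map_natCast (IsLocalRing.residue O), IsLocalRing.residue_eq_zero_iff]; exact hm)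
      (Finset.univ.image χ)
    have d2 := TameAux.orb_le π χ fun i i' hi => by
      obtain ⟨σ, s1, s2⟩ := same_orbit 𝔓 hmax (φ i) (φ i') fun a =>
        ⟨RingOfIntegers.mapRingHom (φ i : L →+* M) a - RingOfIntegers.mapRingHom (φ i' : L →+* M) a,
          by
            rw [h𝔓, Ideal.mem_comap, ← IsLocalRing.residue_eq_zero_iff, map_sub, map_sub, ← hχ,
              ← hχ, hi, sub_self], rfl⟩
      obtain ⟨t, rfl⟩ := a9 σ s1
      refine ⟨t, e.injective (AlgHom.ext fun a => ?_)⟩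
      rw [zpow_natCast, key, s2, hφ]
    omega

end Pool.Agent.Lib.MP_af4c59_nt.H50
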