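import Pool.Agent.Lib.MP_af4c59_nt.H57Coord

/-!
Polynomial identities for spinors in ten dimensions.
-/

set_option autoImplicit false

namespace Pool.Agent.Lib.MP_af4c59_nt.H57

open Matrix

section

variable {R : Type} [CommRing R]

theorem cliff1 (u v : Fin 10 → R) (x : Fin 16 → R) :
    gat u (gam v x) + gat v (gam u x) = BV u v • x := by
  apply ext16 <;> simp only [Pi.add_apply, Pi.smul_apply, smul_eq_mul, gat_c, gam_c, BV] <;> ring

theorem cliff2 (u v : Fin 10 → R) (r : Fin 16 → R) :
    gam u (gat v r) + gam v (gat u r) = BV u v • r := by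
  apply ext16 <;> simp only [Pi.add_apply, Pi.smul_apply, smul_eq_mul, gat_c, gam_c, BV] <;> ring

theorem gat_gam_self (v : Fin 10 → R) (x : Fin 16 → R) : gat v (gam v x) = qV v • x := by
  apply ext16 <;> simp only [Pi.smul_apply, smul_eq_mul, gat_c, gam_c, qV] <;> ring

theorem gam_gat_self (v : Fin 10 → R) (r : Fin 16 → R) : gam v (gat v r) = qV v • r := by
  apply ext16 <;> simp only [Pi.smul_apply, smul_eq_mul, gat_c, gam_c, qV] <;> ring

theorem gam_symm (v : Fin 10 → R) (x y : Fin 16 → R) : x ⬝ᵥ gam v y = y ⬝ᵥ gam v x := by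
  simp only [dot16, gam_c]; ring

theorem gat_symm (v : Fin 10 → R) (x y : Fin 16 → R) : x ⬝ᵥ gat v y = y ⬝ᵥ gat v x := by
  simp only [dot16, gat_c]; ring

theorem mu_BV (x y : Fin 16 → R) (a : Fin 10 → R) : BV (mu x y) a = x ⬝ᵥ gam a y := by
  simp only [dot16, gam_c, mu_c, BV]; ring

theorem mu_comm (x y : Fin 16 → R) : mu x y = mu y x := by
  apply ext10 <;> simp only [mu_c] <;> ring

theorem fierz (x y z : Fin 16 → R) :
    gam (mu x y) z + gam (mu y z) x + gam (mu z x) y = 0 := by
  apply ext16 <;> simp only [Pi.add_apply, Pi.zero_apply, gam_c, mu_c] <;> ring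

theorem fierz2 (r s w : Fin 16 → R) :
    ∑ a : Fin 10, gat (Pi.single (a + 5) 1) (gam (mu (gat (Pi.single a 1) r) s) w) =
      (2 : R) • ((s ⬝ᵥ r) • w - (w ⬝ᵥ r) • s + gat (mu s w) r) := by
  rw [sum10]
  apply ext16 <;>
    simp only [Pi.add_apply, Pi.sub_apply, Pi.smul_apply, smul_eq_mul, gat_c, gam_c, mu_c, dot16,
      Fin.reduceAdd, Pi.single_apply, Fin.reduceEq, if_true, if_false, zero_mul, one_mul, neg_zero,
      add_zero, zero_add, sub_zero, zero_sub, neg_mul, neg_neg] <;> ring

theorem BV_comm (u v : Fin 10 → R) : BV u v = BV v u := by simp only [BV]; ring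

theorem BV_self (v : Fin 10 → R) : BV v v = 2 * qV v := by simp only [BV, qV]; ring

theorem BV_ext {u v : Fin 10 → R} (h : ∀ a, BV u a = BV v a) : u = v := by
  have e : ∀ (i : Fin 10) (w : Fin 10 → R), BV w (Pi.single (i + 5) 1) = w i := by
    apply all10 <;> intro w <;> simp [BV]
  funext i
  rw [← e i u, ← e i v, h]

theorem BV_add (u v a : Fin 10 → R) : BV (u + v) a = BV u a + BV v a := by
  simp only [BV, Pi.add_apply]; ring

theorem BV_smul (c : R) (u a : Fin 10 → R) : BV (c • u) a = c * BV u a := by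
  simp only [BV, Pi.smul_apply, smul_eq_mul]; ring

theorem qV_smul (c : R) (u : Fin 10 → R) : qV (c • u) = c ^ 2 * qV u := by
  simp only [qV, Pi.smul_apply, smul_eq_mul]; ring

theorem gam_add (v : Fin 10 → R) (x y : Fin 16 → R) : gam v (x + y) = gam v x + gam v y := by
  apply ext16 <;> simp only [Pi.add_apply, gam_c] <;> ring

theorem gam_sub (v : Fin 10 → R) (x y : Fin 16 → R) : gam v (x - y) = gam v x - gam v y := by
  apply ext16 <;> simp only [Pi.sub_apply, gam_c] <;> ring

theorem gam_smul (c : R) (v : Fin 10 → R) (x : Fin 16 → R) : gam v (c • x) = c • gam v x := by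
  apply ext16 <;> simp only [Pi.smul_apply, smul_eq_mul, gam_c] <;> ring

theorem gam_neg (v : Fin 10 → R) (x : Fin 16 → R) : gam v (-x) = -gam v x := by
  apply ext16 <;> simp only [Pi.neg_apply, gam_c] <;> ring

theorem gam_zero (v : Fin 10 → R) : gam v 0 = 0 := by
  apply ext16 <;> simp only [Pi.zero_apply, gam_c] <;> ring

theorem add_gam (u v : Fin 10 → R) (x : Fin 16 → R) : gam (u + v) x = gam u x + gam v x := by
  apply ext16 <;> simp only [Pi.add_apply, gam_c] <;> ring

theorem smul_gam (c : R) (v : Fin 10 → R) (x : Fin 16 → R) : gam (c • v) x = c • gam v x := by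
  apply ext16 <;> simp only [Pi.smul_apply, smul_eq_mul, gam_c] <;> ring

theorem zero_gam (x : Fin 16 → R) : gam (0 : Fin 10 → R) x = 0 := by
  apply ext16 <;> simp only [Pi.zero_apply, gam_c] <;> ring

theorem gat_add (v : Fin 10 → R) (x y : Fin 16 → R) : gat v (x + y) = gat v x + gat v y := by
  apply ext16 <;> simp only [Pi.add_apply, gat_c] <;> ring

theorem gat_sub (v : Fin 10 → R) (x y : Fin 16 → R) : gat v (x - y) = gat v x - gat v y := by
  apply ext16 <;> simp only [Pi.sub_apply, gat_c] <;> ring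

theorem gat_smul (c : R) (v : Fin 10 → R) (x : Fin 16 → R) : gat v (c • x) = c • gat v x := by
  apply ext16 <;> simp only [Pi.smul_apply, smul_eq_mul, gat_c] <;> ring

theorem gat_neg (v : Fin 10 → R) (x : Fin 16 → R) : gat v (-x) = -gat v x := by
  apply ext16 <;> simp only [Pi.neg_apply, gat_c] <;> ring

theorem gat_zero (v : Fin 10 → R) : gat v 0 = 0 := by
  apply ext16 <;> simp only [Pi.zero_apply, gat_c] <;> ring

theorem add_gat (u v : Fin 10 → R) (x : Fin 16 → R) : gat (u + v) x = gat u x + gat v x := by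
  apply ext16 <;> simp only [Pi.add_apply, gat_c] <;> ring

theorem smul_gat (c : R) (v : Fin 10 → R) (x : Fin 16 → R) : gat (c • v) x = c • gat v x := by
  apply ext16 <;> simp only [Pi.smul_apply, smul_eq_mul, gat_c] <;> ring

theorem zero_gat (x : Fin 16 → R) : gat (0 : Fin 10 → R) x = 0 := by
  apply ext16 <;> simp only [Pi.zero_apply, gat_c] <;> ring

theorem mu_smul (c : R) (x y : Fin 16 → R) : mu (c • x) y = c • mu x y := by
  apply ext10 <;> simp only [Pi.smul_apply, smul_eq_mul, mu_c] <;> ring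

theorem gamM_mulVec (v : Fin 10 → R) (x : Fin 16 → R) : gamM v *ᵥ x = gam v x := by
  funext i
  have h : gam v x i = (Pi.single i 1 : Fin 16 → R) ⬝ᵥ gam v x := by simp
  rw [h, gam_symm]
  simp only [mulVec, gamM, dotProduct, of_apply]
  refine Finset.sum_congr rfl fun j _ => ?_
  have h1 : gam v (Pi.single j 1) i = (Pi.single i 1 : Fin 16 → R) ⬝ᵥ gam v (Pi.single j 1) := by
    simp
  rw [h1, gam_symm, mul_comm]
  simp

theorem gatM_mulVec (v : Fin 10 → R) (x : Fin 16 → R) : gatM v *ᵥ x = gat v x := by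
  funext i
  have h : gat v x i = (Pi.single i 1 : Fin 16 → R) ⬝ᵥ gat v x := by simp
  rw [h, gat_symm]
  simp only [mulVec, gatM, dotProduct, of_apply]
  refine Finset.sum_congr rfl fun j _ => ?_
  have h1 : gat v (Pi.single j 1) i = (Pi.single i 1 : Fin 16 → R) ⬝ᵥ gat v (Pi.single j 1) := by
    simp
  rw [h1, gat_symm, mul_comm]
  simp

theorem gamM_symm (v : Fin 10 → R) : (gamM v).IsSymm := by
  ext i j
  have h := gam_symm v (Pi.single i 1) (Pi.single j 1)
  simpa [gamM] using h.symm

theorem gatM_symm (v : Fin 10 → R) : (gatM v).IsSymm := by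
  ext i j
  have h := gat_symm v (Pi.single i 1) (Pi.single j 1)
  simpa [gatM] using h.symm

theorem gatM_kkM (v : Fin 10 → R) : gatM v * kkM = KV v := by
  ext i j
  have h := congrFun (gatM_mulVec v (kk j)) i
  exact h

theorem trace_gatM_gamM (u v : Fin 10 → R) : (gatM v * gamM u).trace = 8 * BV u v := by
  have h : ∀ i, (gatM v * gamM u) i i = gat v (gam u (Pi.single i 1)) i := by
    intro i
    rw [← gatM_mulVec]
    simp [Matrix.mul_apply, mulVec, dotProduct, gamM]
  simp only [trace, diag_apply, h, sum16, gat_c, gam_c, BV, Pi.single_apply, Fin.reduceEq, if_true,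
    if_false]
  ring

theorem MK_eq (v : Fin 10 → R) (i j : Fin 4) : MK v i j = kk i ⬝ᵥ gat v (kk j) := by
  revert i j
  apply all4 <;> apply all4 <;> simp only [MK_c, dot16, gat_c, kk_c] <;> ring

theorem kkM_KV (v : Fin 10 → R) : kkMᵀ * KV v = MK v := by
  ext i j
  rw [MK_eq]
  rfl

theorem MK_symm (v : Fin 10 → R) : (MK v).IsSymm := by
  ext i j
  revert i j
  apply all4 <;> apply all4 <;> simp only [transpose_apply, MK_c]

theorem m2_symm (v : Fin 10 → R) : (m2 v).IsSymm := by
  ext i j
  revert i j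
  apply all4 <;> apply all4 <;> simp only [transpose_apply, m2_c]

theorem MK_smul (c : R) (v : Fin 10 → R) : MK (c • v) = c • MK v := by
  ext i j
  revert i j
  apply all4 <;> apply all4 <;>
    simp only [Matrix.smul_apply, Pi.smul_apply, smul_eq_mul, MK_c] <;> ring

theorem m2_smul (c : R) (v : Fin 10 → R) : m2 (c • v) = c • m2 v := by
  ext i j
  revert i j
  apply all4 <;> apply all4 <;>
    simp only [Matrix.smul_apply, Pi.smul_apply, smul_eq_mul, m2_c] <;> ring

theorem m2_tau {m : Matrix (Fin 4) (Fin 4) R} (h : m.IsSymm) : m2 (tau m) = (2 : R) • m := by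
  have e : ∀ i j, m j i = m i j := fun i j => h.apply i j
  ext i j
  revert i j
  apply all4 <;> apply all4 <;>
    simp only [Matrix.smul_apply, smul_eq_mul, m2_c, tau_c, e 0 1, e 0 2, e 0 3, e 1 2, e 1 3,
      e 2 3] <;> ring

end

theorem kk_iota (s : Fin 6 → O) (j : Fin 4) : kk j ⬝ᵥ iota s = 0 := by
  revert j
  apply all4 <;> simp only [dot16, kk_c, iota_c] <;> ring

theorem iota_smul (n : ℤ) (s : Fin 6 → O) : iota (n • s) = n • iota s := by
  apply ext16 <;> simp only [iota_c, Pi.smul_apply, QuadraticAlgebra.re_smul,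
    QuadraticAlgebra.im_smul, smul_eq_mul] <;> ring

theorem iota_inj : Function.Injective iota := by
  intro s s' h
  have e := fun i => congrFun h i
  have e0 := e 0; have e1 := e 1; have e2 := e 2; have e3 := e 3; have e4 := e 4; have e5 := e 5
  have e6 := e 6; have e7 := e 7; have e8 := e 8; have e9 := e 9; have e10 := e 10
  have e11 := e 11; have e12 := e 12; have e13 := e 13; have e14 := e 14; have e15 := e 15
  simp only [iota_c] at e0 e1 e2 e3 e4 e5 e6 e7 e8 e9 e10 e11 e12 e13 e14 e15
  funext k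
  fin_cases k <;> ext <;> simp only [Fin.zero_eta, Fin.mk_one, Fin.reduceFinMk] <;> omega

end Pool.Agent.Lib.MP_af4c59_nt.H57
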