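import Pool.Agent.Lib.MP_af4c59_nt.H57MFn
import Pool.Agent.Lib.MP_af4c59_nt.H57Spin

/-!
The vector annihilates the spinor.
-/

set_option autoImplicit false

namespace Pool.Agent.Lib.MP_af4c59_nt.H57

open Matrix

theorem ca2_nat0 {θ X1 X2 X3 X4 Y1 Y2 Y3 Y4 l0 l1 l2 l3 l4 F1 F2 G1 G2 H21 H22 a1 a3 b0 b1 b3 : ℂ}
    (hθ : θ ^ 2 + θ - 1 = 0) (hD : (X1 * Y4 - X4 * Y1) = -θ * (X2 * Y3 - X3 * Y2)) (h1 : (X1 * Y4 - X4 * Y1) ≠ 0) (h2 : (X2 * Y3 - X3 * Y2) ≠ 0)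
    (hF1 : (X1 * Y4 - X4 * Y1) * (X1 * Y4 - X4 * Y1) * F1 = -X1 * Y1 * l3 + X1 * Y4 * l0 + X4 * Y1 * l0 - X4 * Y4 * l2) 
    (hF2 : (X1 * Y4 - X4 * Y1) * (X1 * Y4 - X4 * Y1) * F2 = -2 * X1 * X4 * l0 + X1 ^ 2 * l3 + X4 ^ 2 * l2) 
    (hG1 : (X2 * Y3 - X3 * Y2) * (X2 * Y3 - X3 * Y2) * G1 = -X2 * Y2 * l1 + X2 * Y3 * l0 + X3 * Y2 * l0 - X3 * Y3 * l4) 
    (hG2 : (X2 * Y3 - X3 * Y2) * (X2 * Y3 - X3 * Y2) * G2 = -2 * X2 * X3 * l0 + X2 ^ 2 * l1 + X3 ^ 2 * l4) 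
    (hH21 : (X1 * Y4 - X4 * Y1) * (X2 * Y3 - X3 * Y2) * H21 = -X1 * Y2 * l2 + X1 * Y3 * l1 + X4 * Y2 * l4 - X4 * Y3 * l3) 
    (hH22 : (X1 * Y4 - X4 * Y1) * (X2 * Y3 - X3 * Y2) * H22 = X1 * X2 * l2 - X1 * X3 * l1 - X2 * X4 * l4 + X3 * X4 * l3) 
    (ha1 : (X1 * Y4 - X4 * Y1) * a1 = X1 * X2 ^ 2 - X3 ^ 2 * X4) 
    (ha3 : (X1 * Y4 - X4 * Y1) * a3 = X1 * X2 * Y2 - X3 * X4 * Y3) 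
    (hb0 : (X2 * Y3 - X3 * Y2) * b0 = X1 ^ 2 * Y3 - X4 ^ 2 * Y2) 
    (hb1 : (X2 * Y3 - X3 * Y2) * b1 = -X1 ^ 2 * X3 + X2 * X4 ^ 2) 
    (hb3 : (X2 * Y3 - X3 * Y2) * b3 = -X1 * X3 * Y1 + X2 * X4 * Y4) :
    F1 * b1 + F2 * b3 - G1 * b1 - G1 * b1 * θ + G2 * b0 + G2 * b0 * θ - H21 * a1 * θ - H22 * a3 * θ = 0 := by
  have h : (X1 * Y4 - X4 * Y1) * (X1 * Y4 - X4 * Y1) * (X2 * Y3 - X3 * Y2) * (F1 * b1 + F2 * b3 - G1 * b1 - G1 * b1 * θ + G2 * b0 + G2 * b0 * θ - H21 * a1 * θ - H22 * a3 * θ) = 0 := by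
    linear_combination (1) * (X2 * Y3 - X3 * Y2) * b1 * hF1 +
      (1) * (-X1 * Y1 * l3 + X1 * Y4 * l0 + X4 * Y1 * l0 - X4 * Y4 * l2) * hb1 +
      (1) * (X2 * Y3 - X3 * Y2) * b3 * hF2 +
      (1) * (-2 * X1 * X4 * l0 + X1 ^ 2 * l3 + X4 ^ 2 * l2) * hb3 +
      (-1 - θ) * ((X1 * Y4 - X4 * Y1) - θ * (X2 * Y3 - X3 * Y2)) * (X2 * Y3 - X3 * Y2) * G1 * b1 * hD +
      (-θ ^ 2 - θ ^ 3) * (X2 * Y3 - X3 * Y2) * b1 * hG1 +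
      (-θ ^ 2 - θ ^ 3) * (-X2 * Y2 * l1 + X2 * Y3 * l0 + X3 * Y2 * l0 - X3 * Y3 * l4) * hb1 +
      (1 + θ) * ((X1 * Y4 - X4 * Y1) - θ * (X2 * Y3 - X3 * Y2)) * (X2 * Y3 - X3 * Y2) * G2 * b0 * hD +
      (θ ^ 2 + θ ^ 3) * (X2 * Y3 - X3 * Y2) * b0 * hG2 +
      (θ ^ 2 + θ ^ 3) * (-2 * X2 * X3 * l0 + X2 ^ 2 * l1 + X3 ^ 2 * l4) * hb0 +
      (-θ) * (X1 * Y4 - X4 * Y1) * a1 * hH21 +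
      (-θ) * (-X1 * Y2 * l2 + X1 * Y3 * l1 + X4 * Y2 * l4 - X4 * Y3 * l3) * ha1 +
      (-θ) * (X1 * Y4 - X4 * Y1) * a3 * hH22 +
      (-θ) * (X1 * X2 * l2 - X1 * X3 * l1 - X2 * X4 * l4 + X3 * X4 * l3) * ha3 +
      (X1 * X2 * X4 * l3 + X1 * X3 * X4 * l2 - X1 ^ 2 * X3 * l0 - X2 * X4 ^ 2 * l0) * hD +
      (-X1 ^ 2 * X2 * X3 * Y2 * l1 * θ - X1 ^ 2 * X2 * X3 * Y3 * l0 * θ + X1 ^ 2 * X2 ^ 2 * Y3 * l1 * θ + X1 ^ 2 * X3 ^ 2 * Y2 * l0 * θ + X2 * X3 * X4 ^ 2 * Y2 * l0 * θ + X2 * X3 * X4 ^ 2 * Y3 * l4 * θ - X2 ^ 2 * X4 ^ 2 * Y3 * l0 * θ - X3 ^ 2 * X4 ^ 2 * Y2 * l4 * θ) * hθ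
  simpa [h1, h2] using h

theorem ca2_nat1 {θ X1 X2 X3 X4 Y1 Y2 Y3 Y4 l0 l1 l2 l3 l4 F1 F2 G0 G1 H21 H22 a3 a5 b0 b1 b2 : ℂ}
    (hθ : θ ^ 2 + θ - 1 = 0) (hD : (X1 * Y4 - X4 * Y1) = -θ * (X2 * Y3 - X3 * Y2)) (h1 : (X1 * Y4 - X4 * Y1) ≠ 0) (h2 : (X2 * Y3 - X3 * Y2) ≠ 0)
    (hF1 : (X1 * Y4 - X4 * Y1) * (X1 * Y4 - X4 * Y1) * F1 = -X1 * Y1 * l3 + X1 * Y4 * l0 + X4 * Y1 * l0 - X4 * Y4 * l2) 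
    (hF2 : (X1 * Y4 - X4 * Y1) * (X1 * Y4 - X4 * Y1) * F2 = -2 * X1 * X4 * l0 + X1 ^ 2 * l3 + X4 ^ 2 * l2) 
    (hG0 : (X2 * Y3 - X3 * Y2) * (X2 * Y3 - X3 * Y2) * G0 = -2 * Y2 * Y3 * l0 + Y2 ^ 2 * l1 + Y3 ^ 2 * l4) 
    (hG1 : (X2 * Y3 - X3 * Y2) * (X2 * Y3 - X3 * Y2) * G1 = -X2 * Y2 * l1 + X2 * Y3 * l0 + X3 * Y2 * l0 - X3 * Y3 * l4) 
    (hH21 : (X1 * Y4 - X4 * Y1) * (X2 * Y3 - X3 * Y2) * H21 = -X1 * Y2 * l2 + X1 * Y3 * l1 + X4 * Y2 * l4 - X4 * Y3 * l3) 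
    (hH22 : (X1 * Y4 - X4 * Y1) * (X2 * Y3 - X3 * Y2) * H22 = X1 * X2 * l2 - X1 * X3 * l1 - X2 * X4 * l4 + X3 * X4 * l3) 
    (ha3 : (X1 * Y4 - X4 * Y1) * a3 = X1 * X2 * Y2 - X3 * X4 * Y3) 
    (ha5 : (X1 * Y4 - X4 * Y1) * a5 = X1 * Y2 ^ 2 - X4 * Y3 ^ 2) 
    (hb0 : (X2 * Y3 - X3 * Y2) * b0 = X1 ^ 2 * Y3 - X4 ^ 2 * Y2) 
    (hb1 : (X2 * Y3 - X3 * Y2) * b1 = -X1 ^ 2 * X3 + X2 * X4 ^ 2) 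
    (hb2 : (X2 * Y3 - X3 * Y2) * b2 = X1 * Y1 * Y3 - X4 * Y2 * Y4) :
    F1 * b0 + F2 * b2 - G0 * b1 - G0 * b1 * θ + G1 * b0 + G1 * b0 * θ + H21 * a3 * θ + H22 * a5 * θ = 0 := by
  have h : (X1 * Y4 - X4 * Y1) * (X1 * Y4 - X4 * Y1) * (X2 * Y3 - X3 * Y2) * (F1 * b0 + F2 * b2 - G0 * b1 - G0 * b1 * θ + G1 * b0 + G1 * b0 * θ + H21 * a3 * θ + H22 * a5 * θ) = 0 := by
    linear_combination (1) * (X2 * Y3 - X3 * Y2) * b0 * hF1 +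
      (1) * (-X1 * Y1 * l3 + X1 * Y4 * l0 + X4 * Y1 * l0 - X4 * Y4 * l2) * hb0 +
      (1) * (X2 * Y3 - X3 * Y2) * b2 * hF2 +
      (1) * (-2 * X1 * X4 * l0 + X1 ^ 2 * l3 + X4 ^ 2 * l2) * hb2 +
      (-1 - θ) * ((X1 * Y4 - X4 * Y1) - θ * (X2 * Y3 - X3 * Y2)) * (X2 * Y3 - X3 * Y2) * G0 * b1 * hD +
      (-θ ^ 2 - θ ^ 3) * (X2 * Y3 - X3 * Y2) * b1 * hG0 +
      (-θ ^ 2 - θ ^ 3) * (-2 * Y2 * Y3 * l0 + Y2 ^ 2 * l1 + Y3 ^ 2 * l4) * hb1 +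
      (1 + θ) * ((X1 * Y4 - X4 * Y1) - θ * (X2 * Y3 - X3 * Y2)) * (X2 * Y3 - X3 * Y2) * G1 * b0 * hD +
      (θ ^ 2 + θ ^ 3) * (X2 * Y3 - X3 * Y2) * b0 * hG1 +
      (θ ^ 2 + θ ^ 3) * (-X2 * Y2 * l1 + X2 * Y3 * l0 + X3 * Y2 * l0 - X3 * Y3 * l4) * hb0 +
      (θ) * (X1 * Y4 - X4 * Y1) * a3 * hH21 +
      (θ) * (-X1 * Y2 * l2 + X1 * Y3 * l1 + X4 * Y2 * l4 - X4 * Y3 * l3) * ha3 +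
      (θ) * (X1 * Y4 - X4 * Y1) * a5 * hH22 +
      (θ) * (X1 * X2 * l2 - X1 * X3 * l1 - X2 * X4 * l4 + X3 * X4 * l3) * ha5 +
      (-X1 * X4 * Y2 * l3 - X1 * X4 * Y3 * l2 + X1 ^ 2 * Y3 * l0 + X4 ^ 2 * Y2 * l0) * hD +
      (-X1 ^ 2 * X2 * Y2 * Y3 * l1 * θ + X1 ^ 2 * X2 * Y3 ^ 2 * l0 * θ - X1 ^ 2 * X3 * Y2 * Y3 * l0 * θ + X1 ^ 2 * X3 * Y2 ^ 2 * l1 * θ + X2 * X4 ^ 2 * Y2 * Y3 * l0 * θ - X2 * X4 ^ 2 * Y3 ^ 2 * l4 * θ + X3 * X4 ^ 2 * Y2 * Y3 * l4 * θ - X3 * X4 ^ 2 * Y2 ^ 2 * l0 * θ) * hθ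
  simpa [h1, h2] using h

theorem ca2_nat2 {θ X1 X2 X3 X4 Y1 Y2 Y3 Y4 l0 l1 l2 l3 l4 F1 F2 G1 G2 H12 H22 a0 a1 a3 b1 b3 : ℂ}
    (hθ : θ ^ 2 + θ - 1 = 0) (hD : (X1 * Y4 - X4 * Y1) = -θ * (X2 * Y3 - X3 * Y2)) (h1 : (X1 * Y4 - X4 * Y1) ≠ 0) (h2 : (X2 * Y3 - X3 * Y2) ≠ 0)
    (hF1 : (X1 * Y4 - X4 * Y1) * (X1 * Y4 - X4 * Y1) * F1 = -X1 * Y1 * l3 + X1 * Y4 * l0 + X4 * Y1 * l0 - X4 * Y4 * l2) 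
    (hF2 : (X1 * Y4 - X4 * Y1) * (X1 * Y4 - X4 * Y1) * F2 = -2 * X1 * X4 * l0 + X1 ^ 2 * l3 + X4 ^ 2 * l2) 
    (hG1 : (X2 * Y3 - X3 * Y2) * (X2 * Y3 - X3 * Y2) * G1 = -X2 * Y2 * l1 + X2 * Y3 * l0 + X3 * Y2 * l0 - X3 * Y3 * l4) 
    (hG2 : (X2 * Y3 - X3 * Y2) * (X2 * Y3 - X3 * Y2) * G2 = -2 * X2 * X3 * l0 + X2 ^ 2 * l1 + X3 ^ 2 * l4) 
    (hH12 : (X1 * Y4 - X4 * Y1) * (X2 * Y3 - X3 * Y2) * H12 = -X2 * Y1 * l2 + X2 * Y4 * l4 + X3 * Y1 * l1 - X3 * Y4 * l3) 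
    (hH22 : (X1 * Y4 - X4 * Y1) * (X2 * Y3 - X3 * Y2) * H22 = X1 * X2 * l2 - X1 * X3 * l1 - X2 * X4 * l4 + X3 * X4 * l3) 
    (ha0 : (X1 * Y4 - X4 * Y1) * a0 = -X2 ^ 2 * Y1 + X3 ^ 2 * Y4) 
    (ha1 : (X1 * Y4 - X4 * Y1) * a1 = X1 * X2 ^ 2 - X3 ^ 2 * X4) 
    (ha3 : (X1 * Y4 - X4 * Y1) * a3 = X1 * X2 * Y2 - X3 * X4 * Y3) 
    (hb1 : (X2 * Y3 - X3 * Y2) * b1 = -X1 ^ 2 * X3 + X2 * X4 ^ 2) 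
    (hb3 : (X2 * Y3 - X3 * Y2) * b3 = -X1 * X3 * Y1 + X2 * X4 * Y4) :
    F1 * a1 - F2 * a0 + G1 * a1 + G1 * a1 * θ + G2 * a3 + G2 * a3 * θ + 2 * H12 * b1 + H12 * b1 * θ + 2 * H22 * b3 + H22 * b3 * θ = 0 := by
  have h : (X1 * Y4 - X4 * Y1) * (X2 * Y3 - X3 * Y2) * (X2 * Y3 - X3 * Y2) * (F1 * a1 - F2 * a0 + G1 * a1 + G1 * a1 * θ + G2 * a3 + G2 * a3 * θ + 2 * H12 * b1 + H12 * b1 * θ + 2 * H22 * b3 + H22 * b3 * θ) = 0 := by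
    linear_combination -(1) * (1 + θ) ^ 2 * ((X1 * Y4 - X4 * Y1) - θ * (X2 * Y3 - X3 * Y2)) * (X1 * Y4 - X4 * Y1) * F1 * a1 * hD +
      -(1) * (θ ^ 2 + θ + 1) * (X2 * Y3 - X3 * Y2) ^ 2 * (X1 * Y4 - X4 * Y1) * F1 * a1 * hθ +
      (1 + 2 * θ + θ ^ 2) * (X1 * Y4 - X4 * Y1) * a1 * hF1 +
      (1 + 2 * θ + θ ^ 2) * (-X1 * Y1 * l3 + X1 * Y4 * l0 + X4 * Y1 * l0 - X4 * Y4 * l2) * ha1 +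
      -(-1) * (1 + θ) ^ 2 * ((X1 * Y4 - X4 * Y1) - θ * (X2 * Y3 - X3 * Y2)) * (X1 * Y4 - X4 * Y1) * F2 * a0 * hD +
      -(-1) * (θ ^ 2 + θ + 1) * (X2 * Y3 - X3 * Y2) ^ 2 * (X1 * Y4 - X4 * Y1) * F2 * a0 * hθ +
      (-1 - 2 * θ - θ ^ 2) * (X1 * Y4 - X4 * Y1) * a0 * hF2 +
      (-1 - 2 * θ - θ ^ 2) * (-2 * X1 * X4 * l0 + X1 ^ 2 * l3 + X4 ^ 2 * l2) * ha0 +
      (1 + θ) * (X1 * Y4 - X4 * Y1) * a1 * hG1 +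
      (1 + θ) * (-X2 * Y2 * l1 + X2 * Y3 * l0 + X3 * Y2 * l0 - X3 * Y3 * l4) * ha1 +
      (1 + θ) * (X1 * Y4 - X4 * Y1) * a3 * hG2 +
      (1 + θ) * (-2 * X2 * X3 * l0 + X2 ^ 2 * l1 + X3 ^ 2 * l4) * ha3 +
      (2 + θ) * (X2 * Y3 - X3 * Y2) * b1 * hH12 +
      (2 + θ) * (-X2 * Y1 * l2 + X2 * Y4 * l4 + X3 * Y1 * l1 - X3 * Y4 * l3) * hb1 +
      (2 + θ) * (X2 * Y3 - X3 * Y2) * b3 * hH22 +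
      (2 + θ) * (X1 * X2 * l2 - X1 * X3 * l1 - X2 * X4 * l4 + X3 * X4 * l3) * hb3 +
      (-2 * X1 * X2 * X3 * l4 - X1 * X2 * X3 * l4 * θ + 2 * X1 * X2 ^ 2 * l0 + X1 * X2 ^ 2 * l0 * θ - 2 * X2 * X3 * X4 * l1 - X2 * X3 * X4 * l1 * θ + 2 * X3 ^ 2 * X4 * l0 + X3 ^ 2 * X4 * l0 * θ) * hD +
      (-X1 * X2 * X3 ^ 2 * Y2 * l4 + X1 * X2 ^ 2 * X3 * Y2 * l0 + X1 * X2 ^ 2 * X3 * Y3 * l4 - X1 * X2 ^ 2 * X4 * Y1 * l0 - X1 * X2 ^ 2 * X4 * Y4 * l2 - X1 * X2 ^ 3 * Y3 * l0 + X1 * X3 ^ 2 * X4 * Y1 * l3 + X1 * X3 ^ 2 * X4 * Y4 * l0 + X1 ^ 2 * X2 ^ 2 * Y4 * l0 - X1 ^ 2 * X3 ^ 2 * Y4 * l3 - X2 * X3 ^ 2 * X4 * Y2 * l1 - X2 * X3 ^ 2 * X4 * Y3 * l0 + X2 ^ 2 * X3 * X4 * Y3 * l1 + X2 ^ 2 * X4 ^ 2 * Y1 * l2 - X3 ^ 2 * X4 ^ 2 * Y1 * l0 + X3 ^ 3 * X4 *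 Y2 * l0) * hθ
  simpa [h1, h2] using h

theorem ca2_nat3 {θ X1 X2 X3 X4 Y1 Y2 Y3 Y4 l0 l1 l2 l3 l4 F1 F2 G1 G2 H11 H21 a2 a3 a5 b1 b3 : ℂ}
    (hθ : θ ^ 2 + θ - 1 = 0) (hD : (X1 * Y4 - X4 * Y1) = -θ * (X2 * Y3 - X3 * Y2)) (h1 : (X1 * Y4 - X4 * Y1) ≠ 0) (h2 : (X2 * Y3 - X3 * Y2) ≠ 0)
    (hF1 : (X1 * Y4 - X4 * Y1) * (X1 * Y4 - X4 * Y1) * F1 = -X1 * Y1 * l3 + X1 * Y4 * l0 + X4 * Y1 * l0 - X4 * Y4 * l2) 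
    (hF2 : (X1 * Y4 - X4 * Y1) * (X1 * Y4 - X4 * Y1) * F2 = -2 * X1 * X4 * l0 + X1 ^ 2 * l3 + X4 ^ 2 * l2) 
    (hG1 : (X2 * Y3 - X3 * Y2) * (X2 * Y3 - X3 * Y2) * G1 = -X2 * Y2 * l1 + X2 * Y3 * l0 + X3 * Y2 * l0 - X3 * Y3 * l4) 
    (hG2 : (X2 * Y3 - X3 * Y2) * (X2 * Y3 - X3 * Y2) * G2 = -2 * X2 * X3 * l0 + X2 ^ 2 * l1 + X3 ^ 2 * l4) 
    (hH11 : (X1 * Y4 - X4 * Y1) * (X2 * Y3 - X3 * Y2) * H11 = Y1 * Y2 * l2 - Y1 * Y3 * l1 - Y2 * Y4 * l4 + Y3 * Y4 * l3) 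
    (hH21 : (X1 * Y4 - X4 * Y1) * (X2 * Y3 - X3 * Y2) * H21 = -X1 * Y2 * l2 + X1 * Y3 * l1 + X4 * Y2 * l4 - X4 * Y3 * l3) 
    (ha2 : (X1 * Y4 - X4 * Y1) * a2 = -X2 * Y1 * Y2 + X3 * Y3 * Y4) 
    (ha3 : (X1 * Y4 - X4 * Y1) * a3 = X1 * X2 * Y2 - X3 * X4 * Y3) 
    (ha5 : (X1 * Y4 - X4 * Y1) * a5 = X1 * Y2 ^ 2 - X4 * Y3 ^ 2) 
    (hb1 : (X2 * Y3 - X3 * Y2) * b1 = -X1 ^ 2 * X3 + X2 * X4 ^ 2) 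
    (hb3 : (X2 * Y3 - X3 * Y2) * b3 = -X1 * X3 * Y1 + X2 * X4 * Y4) :
    F1 * a3 - F2 * a2 + G1 * a3 + G1 * a3 * θ + G2 * a5 + G2 * a5 * θ - 2 * H11 * b1 - H11 * b1 * θ - 2 * H21 * b3 - H21 * b3 * θ = 0 := by
  have h : (X1 * Y4 - X4 * Y1) * (X2 * Y3 - X3 * Y2) * (X2 * Y3 - X3 * Y2) * (F1 * a3 - F2 * a2 + G1 * a3 + G1 * a3 * θ + G2 * a5 + G2 * a5 * θ - 2 * H11 * b1 - H11 * b1 * θ - 2 * H21 * b3 - H21 * b3 * θ) = 0 := by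
    linear_combination -(1) * (1 + θ) ^ 2 * ((X1 * Y4 - X4 * Y1) - θ * (X2 * Y3 - X3 * Y2)) * (X1 * Y4 - X4 * Y1) * F1 * a3 * hD +
      -(1) * (θ ^ 2 + θ + 1) * (X2 * Y3 - X3 * Y2) ^ 2 * (X1 * Y4 - X4 * Y1) * F1 * a3 * hθ +
      (1 + 2 * θ + θ ^ 2) * (X1 * Y4 - X4 * Y1) * a3 * hF1 +
      (1 + 2 * θ + θ ^ 2) * (-X1 * Y1 * l3 + X1 * Y4 * l0 + X4 * Y1 * l0 - X4 * Y4 * l2) * ha3 +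
      -(-1) * (1 + θ) ^ 2 * ((X1 * Y4 - X4 * Y1) - θ * (X2 * Y3 - X3 * Y2)) * (X1 * Y4 - X4 * Y1) * F2 * a2 * hD +
      -(-1) * (θ ^ 2 + θ + 1) * (X2 * Y3 - X3 * Y2) ^ 2 * (X1 * Y4 - X4 * Y1) * F2 * a2 * hθ +
      (-1 - 2 * θ - θ ^ 2) * (X1 * Y4 - X4 * Y1) * a2 * hF2 +
      (-1 - 2 * θ - θ ^ 2) * (-2 * X1 * X4 * l0 + X1 ^ 2 * l3 + X4 ^ 2 * l2) * ha2 +
      (1 + θ) * (X1 * Y4 - X4 * Y1) * a3 * hG1 +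
      (1 + θ) * (-X2 * Y2 * l1 + X2 * Y3 * l0 + X3 * Y2 * l0 - X3 * Y3 * l4) * ha3 +
      (1 + θ) * (X1 * Y4 - X4 * Y1) * a5 * hG2 +
      (1 + θ) * (-2 * X2 * X3 * l0 + X2 ^ 2 * l1 + X3 ^ 2 * l4) * ha5 +
      (-2 - θ) * (X2 * Y3 - X3 * Y2) * b1 * hH11 +
      (-2 - θ) * (Y1 * Y2 * l2 - Y1 * Y3 * l1 - Y2 * Y4 * l4 + Y3 * Y4 * l3) * hb1 +
      (-2 - θ) * (X2 * Y3 - X3 * Y2) * b3 * hH21 +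
      (-2 - θ) * (-X1 * Y2 * l2 + X1 * Y3 * l1 + X4 * Y2 * l4 - X4 * Y3 * l3) * hb3 +
      (2 * X1 * X2 * Y2 * l0 + X1 * X2 * Y2 * l0 * θ - 2 * X1 * X3 * Y2 * l4 - X1 * X3 * Y2 * l4 * θ - 2 * X2 * X4 * Y3 * l1 - X2 * X4 * Y3 * l1 * θ + 2 * X3 * X4 * Y3 * l0 + X3 * X4 * Y3 * l0 * θ) * hD +
      (X1 * X2 * X3 * Y2 * Y3 * l4 + X1 * X2 * X3 * Y2 ^ 2 * l0 - X1 * X2 * X4 * Y1 * Y2 * l0 - X1 * X2 * X4 * Y2 * Y4 * l2 - X1 * X2 ^ 2 * Y2 * Y3 * l0 + X1 * X3 * X4 * Y1 * Y3 * l3 + X1 * X3 * X4 * Y3 * Y4 * l0 - X1 * X3 ^ 2 * Y2 ^ 2 * l4 + X1 ^ 2 * X2 * Y2 * Y4 * l0 - X1 ^ 2 * X3 * Y3 * Y4 * l3 - X2 * X3 * X4 * Y2 * Y3 * l1 - X2 * X3 * X4 * Y3 ^ 2 * l0 + X2 * X4 ^ 2 * Y1 * Y2 * l2 + X2 ^ 2 * X4 * Y3 ^ 2 * l1 - X3 * X4 ^ 2 * Y1 * Y3 * l0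 + X3 ^ 2 * X4 * Y2 * Y3 * l0) * hθ
  simpa [h1, h2] using h

theorem ca2_nat4 {θ X1 X2 X3 X4 Y1 Y2 Y3 Y4 l0 l1 l2 l3 l4 G0 G1 G2 H11 H12 H21 H22 a1 a3 a5 b0 b1 b2 b3 : ℂ}
    (hθ : θ ^ 2 + θ - 1 = 0) (hD : (X1 * Y4 - X4 * Y1) = -θ * (X2 * Y3 - X3 * Y2)) (h1 : (X1 * Y4 - X4 * Y1) ≠ 0) (h2 : (X2 * Y3 - X3 * Y2) ≠ 0)
    (hG0 : (X2 * Y3 - X3 * Y2) * (X2 * Y3 - X3 * Y2) * G0 = -2 * Y2 * Y3 * l0 + Y2 ^ 2 * l1 + Y3 ^ 2 * l4) 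
    (hG1 : (X2 * Y3 - X3 * Y2) * (X2 * Y3 - X3 * Y2) * G1 = -X2 * Y2 * l1 + X2 * Y3 * l0 + X3 * Y2 * l0 - X3 * Y3 * l4) 
    (hG2 : (X2 * Y3 - X3 * Y2) * (X2 * Y3 - X3 * Y2) * G2 = -2 * X2 * X3 * l0 + X2 ^ 2 * l1 + X3 ^ 2 * l4) 
    (hH11 : (X1 * Y4 - X4 * Y1) * (X2 * Y3 - X3 * Y2) * H11 = Y1 * Y2 * l2 - Y1 * Y3 * l1 - Y2 * Y4 * l4 + Y3 * Y4 * l3) 
    (hH12 : (X1 * Y4 - X4 * Y1) * (X2 * Y3 - X3 * Y2) * H12 = -X2 * Y1 * l2 + X2 * Y4 * l4 + X3 * Y1 * l1 - X3 * Y4 * l3) 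
    (hH21 : (X1 * Y4 - X4 * Y1) * (X2 * Y3 - X3 * Y2) * H21 = -X1 * Y2 * l2 + X1 * Y3 * l1 + X4 * Y2 * l4 - X4 * Y3 * l3) 
    (hH22 : (X1 * Y4 - X4 * Y1) * (X2 * Y3 - X3 * Y2) * H22 = X1 * X2 * l2 - X1 * X3 * l1 - X2 * X4 * l4 + X3 * X4 * l3) 
    (ha1 : (X1 * Y4 - X4 * Y1) * a1 = X1 * X2 ^ 2 - X3 ^ 2 * X4) 
    (ha3 : (X1 * Y4 - X4 * Y1) * a3 = X1 * X2 * Y2 - X3 * X4 * Y3) 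
    (ha5 : (X1 * Y4 - X4 * Y1) * a5 = X1 * Y2 ^ 2 - X4 * Y3 ^ 2) 
    (hb0 : (X2 * Y3 - X3 * Y2) * b0 = X1 ^ 2 * Y3 - X4 ^ 2 * Y2) 
    (hb1 : (X2 * Y3 - X3 * Y2) * b1 = -X1 ^ 2 * X3 + X2 * X4 ^ 2) 
    (hb2 : (X2 * Y3 - X3 * Y2) * b2 = X1 * Y1 * Y3 - X4 * Y2 * Y4) 
    (hb3 : (X2 * Y3 - X3 * Y2) * b3 = -X1 * X3 * Y1 + X2 * X4 * Y4) :
    G0 * a1 + 2 * G1 * a3 + G2 * a5 - H11 * b1 - H11 * b1 * θ + H12 * b0 + H12 * b0 * θ - H21 * b3 - H21 * b3 * θ + H22 * b2 + H22 * b2 * θ = 0 := by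
  have h : (X1 * Y4 - X4 * Y1) * (X2 * Y3 - X3 * Y2) * (X2 * Y3 - X3 * Y2) * (G0 * a1 + 2 * G1 * a3 + G2 * a5 - H11 * b1 - H11 * b1 * θ + H12 * b0 + H12 * b0 * θ - H21 * b3 - H21 * b3 * θ + H22 * b2 + H22 * b2 * θ) = 0 := by
    linear_combination (1) * (X1 * Y4 - X4 * Y1) * a1 * hG0 +
      (1) * (-2 * Y2 * Y3 * l0 + Y2 ^ 2 * l1 + Y3 ^ 2 * l4) * ha1 +
      (2) * (X1 * Y4 - X4 * Y1) * a3 * hG1 +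
      (2) * (-X2 * Y2 * l1 + X2 * Y3 * l0 + X3 * Y2 * l0 - X3 * Y3 * l4) * ha3 +
      (1) * (X1 * Y4 - X4 * Y1) * a5 * hG2 +
      (1) * (-2 * X2 * X3 * l0 + X2 ^ 2 * l1 + X3 ^ 2 * l4) * ha5 +
      (-1 - θ) * (X2 * Y3 - X3 * Y2) * b1 * hH11 +
      (-1 - θ) * (Y1 * Y2 * l2 - Y1 * Y3 * l1 - Y2 * Y4 * l4 + Y3 * Y4 * l3) * hb1 +
      (1 + θ) * (X2 * Y3 - X3 * Y2) * b0 * hH12 +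
      (1 + θ) * (-X2 * Y1 * l2 + X2 * Y4 * l4 + X3 * Y1 * l1 - X3 * Y4 * l3) * hb0 +
      (-1 - θ) * (X2 * Y3 - X3 * Y2) * b3 * hH21 +
      (-1 - θ) * (-X1 * Y2 * l2 + X1 * Y3 * l1 + X4 * Y2 * l4 - X4 * Y3 * l3) * hb3 +
      (1 + θ) * (X2 * Y3 - X3 * Y2) * b2 * hH22 +
      (1 + θ) * (X1 * X2 * l2 - X1 * X3 * l1 - X2 * X4 * l4 + X3 * X4 * l3) * hb2 +
      (X1 * X2 * Y3 * l4 + X1 * X2 * Y3 * l4 * θ - X1 * X3 * Y2 * l4 - X1 * X3 * Y2 * l4 * θ - X2 * X4 * Y3 * l1 - X2 * X4 * Y3 * l1 * θ + X3 * X4 * Y2 * l1 + X3 * X4 * Y2 * l1 * θ) * hD +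
      (2 * X1 * X2 * X3 * Y2 * Y3 * l4 - X1 * X2 ^ 2 * Y3 ^ 2 * l4 - X1 * X3 ^ 2 * Y2 ^ 2 * l4 - 2 * X2 * X3 * X4 * Y2 * Y3 * l1 + X2 ^ 2 * X4 * Y3 ^ 2 * l1 + X3 ^ 2 * X4 * Y2 ^ 2 * l1) * hθ
  simpa [h1, h2] using h

theorem ca2_nat5 {θ X1 X2 X3 X4 Y1 Y2 Y3 Y4 l0 l1 l2 l3 l4 F1 F2 G0 G1 H11 H21 a3 a4 a5 b0 b2 : ℂ}
    (hθ : θ ^ 2 + θ - 1 = 0) (hD : (X1 * Y4 - X4 * Y1) = -θ * (X2 * Y3 - X3 * Y2)) (h1 : (X1 * Y4 - X4 * Y1) ≠ 0) (h2 : (X2 * Y3 - X3 * Y2) ≠ 0)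
    (hF1 : (X1 * Y4 - X4 * Y1) * (X1 * Y4 - X4 * Y1) * F1 = -X1 * Y1 * l3 + X1 * Y4 * l0 + X4 * Y1 * l0 - X4 * Y4 * l2) 
    (hF2 : (X1 * Y4 - X4 * Y1) * (X1 * Y4 - X4 * Y1) * F2 = -2 * X1 * X4 * l0 + X1 ^ 2 * l3 + X4 ^ 2 * l2) 
    (hG0 : (X2 * Y3 - X3 * Y2) * (X2 * Y3 - X3 * Y2) * G0 = -2 * Y2 * Y3 * l0 + Y2 ^ 2 * l1 + Y3 ^ 2 * l4) 
    (hG1 : (X2 * Y3 - X3 * Y2) * (X2 * Y3 - X3 * Y2) * G1 = -X2 * Y2 * l1 + X2 * Y3 * l0 + X3 * Y2 * l0 - X3 * Y3 * l4) 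
    (hH11 : (X1 * Y4 - X4 * Y1) * (X2 * Y3 - X3 * Y2) * H11 = Y1 * Y2 * l2 - Y1 * Y3 * l1 - Y2 * Y4 * l4 + Y3 * Y4 * l3) 
    (hH21 : (X1 * Y4 - X4 * Y1) * (X2 * Y3 - X3 * Y2) * H21 = -X1 * Y2 * l2 + X1 * Y3 * l1 + X4 * Y2 * l4 - X4 * Y3 * l3) 
    (ha3 : (X1 * Y4 - X4 * Y1) * a3 = X1 * X2 * Y2 - X3 * X4 * Y3) 
    (ha4 : (X1 * Y4 - X4 * Y1) * a4 = -Y1 * Y2 ^ 2 + Y3 ^ 2 * Y4) 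
    (ha5 : (X1 * Y4 - X4 * Y1) * a5 = X1 * Y2 ^ 2 - X4 * Y3 ^ 2) 
    (hb0 : (X2 * Y3 - X3 * Y2) * b0 = X1 ^ 2 * Y3 - X4 ^ 2 * Y2) 
    (hb2 : (X2 * Y3 - X3 * Y2) * b2 = X1 * Y1 * Y3 - X4 * Y2 * Y4) :
    F1 * a5 - F2 * a4 - G0 * a3 - G0 * a3 * θ - G1 * a5 - G1 * a5 * θ + 2 * H11 * b0 + H11 * b0 * θ + 2 * H21 * b2 + H21 * b2 * θ = 0 := by
  have h : (X1 * Y4 - X4 * Y1) * (X2 * Y3 - X3 * Y2) * (X2 * Y3 - X3 * Y2) * (F1 * a5 - F2 * a4 - G0 * a3 - G0 * a3 * θ - G1 * a5 - G1 * a5 * θ + 2 * H11 * b0 + H11 * b0 * θ + 2 * H21 * b2 + H21 * b2 * θ) = 0 := by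
    linear_combination -(1) * (1 + θ) ^ 2 * ((X1 * Y4 - X4 * Y1) - θ * (X2 * Y3 - X3 * Y2)) * (X1 * Y4 - X4 * Y1) * F1 * a5 * hD +
      -(1) * (θ ^ 2 + θ + 1) * (X2 * Y3 - X3 * Y2) ^ 2 * (X1 * Y4 - X4 * Y1) * F1 * a5 * hθ +
      (1 + 2 * θ + θ ^ 2) * (X1 * Y4 - X4 * Y1) * a5 * hF1 +
      (1 + 2 * θ + θ ^ 2) * (-X1 * Y1 * l3 + X1 * Y4 * l0 + X4 * Y1 * l0 - X4 * Y4 * l2) * ha5 +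
      -(-1) * (1 + θ) ^ 2 * ((X1 * Y4 - X4 * Y1) - θ * (X2 * Y3 - X3 * Y2)) * (X1 * Y4 - X4 * Y1) * F2 * a4 * hD +
      -(-1) * (θ ^ 2 + θ + 1) * (X2 * Y3 - X3 * Y2) ^ 2 * (X1 * Y4 - X4 * Y1) * F2 * a4 * hθ +
      (-1 - 2 * θ - θ ^ 2) * (X1 * Y4 - X4 * Y1) * a4 * hF2 +
      (-1 - 2 * θ - θ ^ 2) * (-2 * X1 * X4 * l0 + X1 ^ 2 * l3 + X4 ^ 2 * l2) * ha4 +
      (-1 - θ) * (X1 * Y4 - X4 * Y1) * a3 * hG0 +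
      (-1 - θ) * (-2 * Y2 * Y3 * l0 + Y2 ^ 2 * l1 + Y3 ^ 2 * l4) * ha3 +
      (-1 - θ) * (X1 * Y4 - X4 * Y1) * a5 * hG1 +
      (-1 - θ) * (-X2 * Y2 * l1 + X2 * Y3 * l0 + X3 * Y2 * l0 - X3 * Y3 * l4) * ha5 +
      (2 + θ) * (X2 * Y3 - X3 * Y2) * b0 * hH11 +
      (2 + θ) * (Y1 * Y2 * l2 - Y1 * Y3 * l1 - Y2 * Y4 * l4 + Y3 * Y4 * l3) * hb0 +
      (2 + θ) * (X2 * Y3 - X3 * Y2) * b2 * hH21 +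
      (2 + θ) * (-X1 * Y2 * l2 + X1 * Y3 * l1 + X4 * Y2 * l4 - X4 * Y3 * l3) * hb2 +
      (-2 * X1 * Y2 * Y3 * l4 - X1 * Y2 * Y3 * l4 * θ + 2 * X1 * Y2 ^ 2 * l0 + X1 * Y2 ^ 2 * l0 * θ - 2 * X4 * Y2 * Y3 * l1 - X4 * Y2 * Y3 * l1 * θ + 2 * X4 * Y3 ^ 2 * l0 + X4 * Y3 ^ 2 * l0 * θ) * hD +
      (X1 * X2 * Y2 * Y3 ^ 2 * l4 - X1 * X2 * Y2 ^ 2 * Y3 * l0 - X1 * X3 * Y2 ^ 2 * Y3 * l4 + X1 * X3 * Y2 ^ 3 * l0 - X1 * X4 * Y1 * Y2 ^ 2 * l0 + X1 * X4 * Y1 * Y3 ^ 2 * l3 - X1 * X4 * Y2 ^ 2 * Y4 * l2 + X1 * X4 * Y3 ^ 2 * Y4 * l0 + X1 ^ 2 * Y2 ^ 2 * Y4 * l0 - X1 ^ 2 * Y3 ^ 2 * Y4 * l3 + X2 * X4 * Y2 * Y3 ^ 2 * l1 - X2 * X4 * Y3 ^ 3 * l0 + X3 * X4 * Y2 * Y3 ^ 2 * l0 - X3 * X4 * Y2 ^ 2 * Y3 * l1 + X4 ^ 2 * Y1 * Y2 ^ 2 * l2 - X4 ^ 2 * Y1 * Y3 ^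 2 * l0) * hθ
  simpa [h1, h2] using h

theorem ca2_nat6 {θ X1 X2 X3 X4 Y1 Y2 Y3 Y4 l0 l1 l2 l3 l4 F0 F2 G1 G2 H11 H12 H21 H22 a0 a1 a2 a3 b1 b2 b3 b5 : ℂ}
    (hθ : θ ^ 2 + θ - 1 = 0) (hD : (X1 * Y4 - X4 * Y1) = -θ * (X2 * Y3 - X3 * Y2)) (h1 : (X1 * Y4 - X4 * Y1) ≠ 0) (h2 : (X2 * Y3 - X3 * Y2) ≠ 0)
    (hF0 : (X1 * Y4 - X4 * Y1) * (X1 * Y4 - X4 * Y1) * F0 = -2 * Y1 * Y4 * l0 + Y1 ^ 2 * l3 + Y4 ^ 2 * l2) 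
    (hF2 : (X1 * Y4 - X4 * Y1) * (X1 * Y4 - X4 * Y1) * F2 = -2 * X1 * X4 * l0 + X1 ^ 2 * l3 + X4 ^ 2 * l2) 
    (hG1 : (X2 * Y3 - X3 * Y2) * (X2 * Y3 - X3 * Y2) * G1 = -X2 * Y2 * l1 + X2 * Y3 * l0 + X3 * Y2 * l0 - X3 * Y3 * l4) 
    (hG2 : (X2 * Y3 - X3 * Y2) * (X2 * Y3 - X3 * Y2) * G2 = -2 * X2 * X3 * l0 + X2 ^ 2 * l1 + X3 ^ 2 * l4) 
    (hH11 : (X1 * Y4 - X4 * Y1) * (X2 * Y3 - X3 * Y2) * H11 = Y1 * Y2 * l2 - Y1 * Y3 * l1 - Y2 * Y4 * l4 + Y3 * Y4 * l3) 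
    (hH12 : (X1 * Y4 - X4 * Y1) * (X2 * Y3 - X3 * Y2) * H12 = -X2 * Y1 * l2 + X2 * Y4 * l4 + X3 * Y1 * l1 - X3 * Y4 * l3) 
    (hH21 : (X1 * Y4 - X4 * Y1) * (X2 * Y3 - X3 * Y2) * H21 = -X1 * Y2 * l2 + X1 * Y3 * l1 + X4 * Y2 * l4 - X4 * Y3 * l3) 
    (hH22 : (X1 * Y4 - X4 * Y1) * (X2 * Y3 - X3 * Y2) * H22 = X1 * X2 * l2 - X1 * X3 * l1 - X2 * X4 * l4 + X3 * X4 * l3) 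
    (ha0 : (X1 * Y4 - X4 * Y1) * a0 = -X2 ^ 2 * Y1 + X3 ^ 2 * Y4) 
    (ha1 : (X1 * Y4 - X4 * Y1) * a1 = X1 * X2 ^ 2 - X3 ^ 2 * X4) 
    (ha2 : (X1 * Y4 - X4 * Y1) * a2 = -X2 * Y1 * Y2 + X3 * Y3 * Y4) 
    (ha3 : (X1 * Y4 - X4 * Y1) * a3 = X1 * X2 * Y2 - X3 * X4 * Y3) 
    (hb1 : (X2 * Y3 - X3 * Y2) * b1 = -X1 ^ 2 * X3 + X2 * X4 ^ 2) 
    (hb2 : (X2 * Y3 - X3 * Y2) * b2 = X1 * Y1 * Y3 - X4 * Y2 * Y4) 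
    (hb3 : (X2 * Y3 - X3 * Y2) * b3 = -X1 * X3 * Y1 + X2 * X4 * Y4) 
    (hb5 : (X2 * Y3 - X3 * Y2) * b5 = X2 * Y4 ^ 2 - X3 * Y1 ^ 2) :
    F0 * b1 - F2 * b5 + 2 * G1 * b3 + 2 * G1 * b3 * θ - 2 * G2 * b2 - 2 * G2 * b2 * θ - H11 * a1 * θ - H12 * a3 * θ - H21 * a0 * θ - H22 * a2 * θ = 0 := by
  have h : (X1 * Y4 - X4 * Y1) * (X1 * Y4 - X4 * Y1) * (X2 * Y3 - X3 * Y2) * (F0 * b1 - F2 * b5 + 2 * G1 * b3 + 2 * G1 * b3 * θ - 2 * G2 * b2 - 2 * G2 * b2 * θ - H11 * a1 * θ - H12 * a3 * θ - H21 * a0 * θ - H22 * a2 * θ) = 0 := by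
    linear_combination (1) * (X2 * Y3 - X3 * Y2) * b1 * hF0 +
      (1) * (-2 * Y1 * Y4 * l0 + Y1 ^ 2 * l3 + Y4 ^ 2 * l2) * hb1 +
      (-1) * (X2 * Y3 - X3 * Y2) * b5 * hF2 +
      (-1) * (-2 * X1 * X4 * l0 + X1 ^ 2 * l3 + X4 ^ 2 * l2) * hb5 +
      (2 + 2 * θ) * ((X1 * Y4 - X4 * Y1) - θ * (X2 * Y3 - X3 * Y2)) * (X2 * Y3 - X3 * Y2) * G1 * b3 * hD +
      (2 * θ ^ 2 + 2 * θ ^ 3) * (X2 * Y3 - X3 * Y2) * b3 * hG1 +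
      (2 * θ ^ 2 + 2 * θ ^ 3) * (-X2 * Y2 * l1 + X2 * Y3 * l0 + X3 * Y2 * l0 - X3 * Y3 * l4) * hb3 +
      (-2 - 2 * θ) * ((X1 * Y4 - X4 * Y1) - θ * (X2 * Y3 - X3 * Y2)) * (X2 * Y3 - X3 * Y2) * G2 * b2 * hD +
      (-2 * θ ^ 2 - 2 * θ ^ 3) * (X2 * Y3 - X3 * Y2) * b2 * hG2 +
      (-2 * θ ^ 2 - 2 * θ ^ 3) * (-2 * X2 * X3 * l0 + X2 ^ 2 * l1 + X3 ^ 2 * l4) * hb2 +
      (-θ) * (X1 * Y4 - X4 * Y1) * a1 * hH11 +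
      (-θ) * (Y1 * Y2 * l2 - Y1 * Y3 * l1 - Y2 * Y4 * l4 + Y3 * Y4 * l3) * ha1 +
      (-θ) * (X1 * Y4 - X4 * Y1) * a3 * hH12 +
      (-θ) * (-X2 * Y1 * l2 + X2 * Y4 * l4 + X3 * Y1 * l1 - X3 * Y4 * l3) * ha3 +
      (-θ) * (X1 * Y4 - X4 * Y1) * a0 * hH21 +
      (-θ) * (-X1 * Y2 * l2 + X1 * Y3 * l1 + X4 * Y2 * l4 - X4 * Y3 * l3) * ha0 +
      (-θ) * (X1 * Y4 - X4 * Y1) * a2 * hH22 +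
      (-θ) * (X1 * X2 * l2 - X1 * X3 * l1 - X2 * X4 * l4 + X3 * X4 * l3) * ha2 +
      (-X1 * X2 * Y4 * l3 + 2 * X1 * X3 * Y1 * l0 - X1 * X3 * Y4 * l2 - X2 * X4 * Y1 * l3 + 2 * X2 * X4 * Y4 * l0 - X3 * X4 * Y1 * l2) * hD +
      (2 * X1 * X2 * X3 * Y1 * Y2 * l1 * θ + 2 * X1 * X2 * X3 * Y1 * Y3 * l0 * θ - 2 * X1 * X2 ^ 2 * Y1 * Y3 * l1 * θ - 2 * X1 * X3 ^ 2 * Y1 * Y2 * l0 * θ - 2 * X2 * X3 * X4 * Y2 * Y4 * l0 * θ - 2 * X2 * X3 * X4 * Y3 * Y4 * l4 * θ + 2 * X2 ^ 2 * X4 * Y3 * Y4 * l0 * θ + 2 * X3 ^ 2 * X4 * Y2 * Y4 * l4 * θ) * hθ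
  simpa [h1, h2] using h

theorem ca2_nat7 {θ X1 X2 X3 X4 Y1 Y2 Y3 Y4 l0 l1 l2 l3 l4 F1 F2 G1 G2 H11 H12 a1 a3 b2 b3 b5 : ℂ}
    (hθ : θ ^ 2 + θ - 1 = 0) (hD : (X1 * Y4 - X4 * Y1) = -θ * (X2 * Y3 - X3 * Y2)) (h1 : (X1 * Y4 - X4 * Y1) ≠ 0) (h2 : (X2 * Y3 - X3 * Y2) ≠ 0)
    (hF1 : (X1 * Y4 - X4 * Y1) * (X1 * Y4 - X4 * Y1) * F1 = -X1 * Y1 * l3 + X1 * Y4 * l0 + X4 * Y1 * l0 - X4 * Y4 * l2) 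
    (hF2 : (X1 * Y4 - X4 * Y1) * (X1 * Y4 - X4 * Y1) * F2 = -2 * X1 * X4 * l0 + X1 ^ 2 * l3 + X4 ^ 2 * l2) 
    (hG1 : (X2 * Y3 - X3 * Y2) * (X2 * Y3 - X3 * Y2) * G1 = -X2 * Y2 * l1 + X2 * Y3 * l0 + X3 * Y2 * l0 - X3 * Y3 * l4) 
    (hG2 : (X2 * Y3 - X3 * Y2) * (X2 * Y3 - X3 * Y2) * G2 = -2 * X2 * X3 * l0 + X2 ^ 2 * l1 + X3 ^ 2 * l4) 
    (hH11 : (X1 * Y4 - X4 * Y1) * (X2 * Y3 - X3 * Y2) * H11 = Y1 * Y2 * l2 - Y1 * Y3 * l1 - Y2 * Y4 * l4 + Y3 * Y4 * l3) 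
    (hH12 : (X1 * Y4 - X4 * Y1) * (X2 * Y3 - X3 * Y2) * H12 = -X2 * Y1 * l2 + X2 * Y4 * l4 + X3 * Y1 * l1 - X3 * Y4 * l3) 
    (ha1 : (X1 * Y4 - X4 * Y1) * a1 = X1 * X2 ^ 2 - X3 ^ 2 * X4) 
    (ha3 : (X1 * Y4 - X4 * Y1) * a3 = X1 * X2 * Y2 - X3 * X4 * Y3) 
    (hb2 : (X2 * Y3 - X3 * Y2) * b2 = X1 * Y1 * Y3 - X4 * Y2 * Y4) 
    (hb3 : (X2 * Y3 - X3 * Y2) * b3 = -X1 * X3 * Y1 + X2 * X4 * Y4) 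
    (hb5 : (X2 * Y3 - X3 * Y2) * b5 = X2 * Y4 ^ 2 - X3 * Y1 ^ 2) :
    F1 * b3 + F2 * b5 - G1 * b3 - G1 * b3 * θ + G2 * b2 + G2 * b2 * θ + H11 * a1 * θ + H12 * a3 * θ = 0 := by
  have h : (X1 * Y4 - X4 * Y1) * (X1 * Y4 - X4 * Y1) * (X2 * Y3 - X3 * Y2) * (F1 * b3 + F2 * b5 - G1 * b3 - G1 * b3 * θ + G2 * b2 + G2 * b2 * θ + H11 * a1 * θ + H12 * a3 * θ) = 0 := by
    linear_combination (1) * (X2 * Y3 - X3 * Y2) * b3 * hF1 +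
      (1) * (-X1 * Y1 * l3 + X1 * Y4 * l0 + X4 * Y1 * l0 - X4 * Y4 * l2) * hb3 +
      (1) * (X2 * Y3 - X3 * Y2) * b5 * hF2 +
      (1) * (-2 * X1 * X4 * l0 + X1 ^ 2 * l3 + X4 ^ 2 * l2) * hb5 +
      (-1 - θ) * ((X1 * Y4 - X4 * Y1) - θ * (X2 * Y3 - X3 * Y2)) * (X2 * Y3 - X3 * Y2) * G1 * b3 * hD +
      (-θ ^ 2 - θ ^ 3) * (X2 * Y3 - X3 * Y2) * b3 * hG1 +
      (-θ ^ 2 - θ ^ 3) * (-X2 * Y2 * l1 + X2 * Y3 * l0 + X3 * Y2 * l0 - X3 * Y3 * l4) * hb3 +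
      (1 + θ) * ((X1 * Y4 - X4 * Y1) - θ * (X2 * Y3 - X3 * Y2)) * (X2 * Y3 - X3 * Y2) * G2 * b2 * hD +
      (θ ^ 2 + θ ^ 3) * (X2 * Y3 - X3 * Y2) * b2 * hG2 +
      (θ ^ 2 + θ ^ 3) * (-2 * X2 * X3 * l0 + X2 ^ 2 * l1 + X3 ^ 2 * l4) * hb2 +
      (θ) * (X1 * Y4 - X4 * Y1) * a1 * hH11 +
      (θ) * (Y1 * Y2 * l2 - Y1 * Y3 * l1 - Y2 * Y4 * l4 + Y3 * Y4 * l3) * ha1 +
      (θ) * (X1 * Y4 - X4 * Y1) * a3 * hH12 +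
      (θ) * (-X2 * Y1 * l2 + X2 * Y4 * l4 + X3 * Y1 * l1 - X3 * Y4 * l3) * ha3 +
      (X1 * X2 * Y4 * l3 - X1 * X3 * Y1 * l0 - X2 * X4 * Y4 * l0 + X3 * X4 * Y1 * l2) * hD +
      (-X1 * X2 * X3 * Y1 * Y2 * l1 * θ - X1 * X2 * X3 * Y1 * Y3 * l0 * θ + X1 * X2 ^ 2 * Y1 * Y3 * l1 * θ + X1 * X3 ^ 2 * Y1 * Y2 * l0 * θ + X2 * X3 * X4 * Y2 * Y4 * l0 * θ + X2 * X3 * X4 * Y3 * Y4 * l4 * θ - X2 ^ 2 * X4 * Y3 * Y4 * l0 * θ - X3 ^ 2 * X4 * Y2 * Y4 * l4 * θ) * hθ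
  simpa [h1, h2] using h

theorem ca2_nat8 {θ X1 X2 X3 X4 Y1 Y2 Y3 Y4 l0 l1 l2 l3 l4 F0 F2 G0 G1 H11 H12 H21 H22 a2 a3 a4 a5 b0 b2 b3 b4 : ℂ}
    (hθ : θ ^ 2 + θ - 1 = 0) (hD : (X1 * Y4 - X4 * Y1) = -θ * (X2 * Y3 - X3 * Y2)) (h1 : (X1 * Y4 - X4 * Y1) ≠ 0) (h2 : (X2 * Y3 - X3 * Y2) ≠ 0)
    (hF0 : (X1 * Y4 - X4 * Y1) * (X1 * Y4 - X4 * Y1) * F0 = -2 * Y1 * Y4 * l0 + Y1 ^ 2 * l3 + Y4 ^ 2 * l2) 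
    (hF2 : (X1 * Y4 - X4 * Y1) * (X1 * Y4 - X4 * Y1) * F2 = -2 * X1 * X4 * l0 + X1 ^ 2 * l3 + X4 ^ 2 * l2) 
    (hG0 : (X2 * Y3 - X3 * Y2) * (X2 * Y3 - X3 * Y2) * G0 = -2 * Y2 * Y3 * l0 + Y2 ^ 2 * l1 + Y3 ^ 2 * l4) 
    (hG1 : (X2 * Y3 - X3 * Y2) * (X2 * Y3 - X3 * Y2) * G1 = -X2 * Y2 * l1 + X2 * Y3 * l0 + X3 * Y2 * l0 - X3 * Y3 * l4) 
    (hH11 : (X1 * Y4 - X4 * Y1) * (X2 * Y3 - X3 * Y2) * H11 = Y1 * Y2 * l2 - Y1 * Y3 * l1 - Y2 * Y4 * l4 + Y3 * Y4 * l3) 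
    (hH12 : (X1 * Y4 - X4 * Y1) * (X2 * Y3 - X3 * Y2) * H12 = -X2 * Y1 * l2 + X2 * Y4 * l4 + X3 * Y1 * l1 - X3 * Y4 * l3) 
    (hH21 : (X1 * Y4 - X4 * Y1) * (X2 * Y3 - X3 * Y2) * H21 = -X1 * Y2 * l2 + X1 * Y3 * l1 + X4 * Y2 * l4 - X4 * Y3 * l3) 
    (hH22 : (X1 * Y4 - X4 * Y1) * (X2 * Y3 - X3 * Y2) * H22 = X1 * X2 * l2 - X1 * X3 * l1 - X2 * X4 * l4 + X3 * X4 * l3) 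
    (ha2 : (X1 * Y4 - X4 * Y1) * a2 = -X2 * Y1 * Y2 + X3 * Y3 * Y4) 
    (ha3 : (X1 * Y4 - X4 * Y1) * a3 = X1 * X2 * Y2 - X3 * X4 * Y3) 
    (ha4 : (X1 * Y4 - X4 * Y1) * a4 = -Y1 * Y2 ^ 2 + Y3 ^ 2 * Y4) 
    (ha5 : (X1 * Y4 - X4 * Y1) * a5 = X1 * Y2 ^ 2 - X4 * Y3 ^ 2) 
    (hb0 : (X2 * Y3 - X3 * Y2) * b0 = X1 ^ 2 * Y3 - X4 ^ 2 * Y2) 
    (hb2 : (X2 * Y3 - X3 * Y2) * b2 = X1 * Y1 * Y3 - X4 * Y2 * Y4) 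
    (hb3 : (X2 * Y3 - X3 * Y2) * b3 = -X1 * X3 * Y1 + X2 * X4 * Y4) 
    (hb4 : (X2 * Y3 - X3 * Y2) * b4 = Y1 ^ 2 * Y3 - Y2 * Y4 ^ 2) :
    F0 * b0 - F2 * b4 + 2 * G0 * b3 + 2 * G0 * b3 * θ - 2 * G1 * b2 - 2 * G1 * b2 * θ + H11 * a3 * θ + H12 * a5 * θ + H21 * a2 * θ + H22 * a4 * θ = 0 := by
  have h : (X1 * Y4 - X4 * Y1) * (X1 * Y4 - X4 * Y1) * (X2 * Y3 - X3 * Y2) * (F0 * b0 - F2 * b4 + 2 * G0 * b3 + 2 * G0 * b3 * θ - 2 * G1 * b2 - 2 * G1 * b2 * θ + H11 * a3 * θ + H12 * a5 * θ + H21 * a2 * θ + H22 * a4 * θ) = 0 := by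
    linear_combination (1) * (X2 * Y3 - X3 * Y2) * b0 * hF0 +
      (1) * (-2 * Y1 * Y4 * l0 + Y1 ^ 2 * l3 + Y4 ^ 2 * l2) * hb0 +
      (-1) * (X2 * Y3 - X3 * Y2) * b4 * hF2 +
      (-1) * (-2 * X1 * X4 * l0 + X1 ^ 2 * l3 + X4 ^ 2 * l2) * hb4 +
      (2 + 2 * θ) * ((X1 * Y4 - X4 * Y1) - θ * (X2 * Y3 - X3 * Y2)) * (X2 * Y3 - X3 * Y2) * G0 * b3 * hD +
      (2 * θ ^ 2 + 2 * θ ^ 3) * (X2 * Y3 - X3 * Y2) * b3 * hG0 +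
      (2 * θ ^ 2 + 2 * θ ^ 3) * (-2 * Y2 * Y3 * l0 + Y2 ^ 2 * l1 + Y3 ^ 2 * l4) * hb3 +
      (-2 - 2 * θ) * ((X1 * Y4 - X4 * Y1) - θ * (X2 * Y3 - X3 * Y2)) * (X2 * Y3 - X3 * Y2) * G1 * b2 * hD +
      (-2 * θ ^ 2 - 2 * θ ^ 3) * (X2 * Y3 - X3 * Y2) * b2 * hG1 +
      (-2 * θ ^ 2 - 2 * θ ^ 3) * (-X2 * Y2 * l1 + X2 * Y3 * l0 + X3 * Y2 * l0 - X3 * Y3 * l4) * hb2 +
      (θ) * (X1 * Y4 - X4 * Y1) * a3 * hH11 +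
      (θ) * (Y1 * Y2 * l2 - Y1 * Y3 * l1 - Y2 * Y4 * l4 + Y3 * Y4 * l3) * ha3 +
      (θ) * (X1 * Y4 - X4 * Y1) * a5 * hH12 +
      (θ) * (-X2 * Y1 * l2 + X2 * Y4 * l4 + X3 * Y1 * l1 - X3 * Y4 * l3) * ha5 +
      (θ) * (X1 * Y4 - X4 * Y1) * a2 * hH21 +
      (θ) * (-X1 * Y2 * l2 + X1 * Y3 * l1 + X4 * Y2 * l4 - X4 * Y3 * l3) * ha2 +
      (θ) * (X1 * Y4 - X4 * Y1) * a4 * hH22 +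
      (θ) * (X1 * X2 * l2 - X1 * X3 * l1 - X2 * X4 * l4 + X3 * X4 * l3) * ha4 +
      (-2 * X1 * Y1 * Y3 * l0 + X1 * Y2 * Y4 * l3 + X1 * Y3 * Y4 * l2 + X4 * Y1 * Y2 * l3 + X4 * Y1 * Y3 * l2 - 2 * X4 * Y2 * Y4 * l0) * hD +
      (2 * X1 * X2 * Y1 * Y2 * Y3 * l1 * θ - 2 * X1 * X2 * Y1 * Y3 ^ 2 * l0 * θ + 2 * X1 * X3 * Y1 * Y2 * Y3 * l0 * θ - 2 * X1 * X3 * Y1 * Y2 ^ 2 * l1 * θ - 2 * X2 * X4 * Y2 * Y3 * Y4 * l0 * θ + 2 * X2 * X4 * Y3 ^ 2 * Y4 * l4 * θ - 2 * X3 * X4 * Y2 * Y3 * Y4 * l4 * θ + 2 * X3 * X4 * Y2 ^ 2 * Y4 * l0 * θ) * hθ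
  simpa [h1, h2] using h

theorem ca2_nat9 {θ X1 X2 X3 X4 Y1 Y2 Y3 Y4 l0 l1 l2 l3 l4 F1 F2 G0 G1 H11 H12 a3 a5 b2 b3 b4 : ℂ}
    (hθ : θ ^ 2 + θ - 1 = 0) (hD : (X1 * Y4 - X4 * Y1) = -θ * (X2 * Y3 - X3 * Y2)) (h1 : (X1 * Y4 - X4 * Y1) ≠ 0) (h2 : (X2 * Y3 - X3 * Y2) ≠ 0)
    (hF1 : (X1 * Y4 - X4 * Y1) * (X1 * Y4 - X4 * Y1) * F1 = -X1 * Y1 * l3 + X1 * Y4 * l0 + X4 * Y1 * l0 - X4 * Y4 * l2) 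
    (hF2 : (X1 * Y4 - X4 * Y1) * (X1 * Y4 - X4 * Y1) * F2 = -2 * X1 * X4 * l0 + X1 ^ 2 * l3 + X4 ^ 2 * l2) 
    (hG0 : (X2 * Y3 - X3 * Y2) * (X2 * Y3 - X3 * Y2) * G0 = -2 * Y2 * Y3 * l0 + Y2 ^ 2 * l1 + Y3 ^ 2 * l4) 
    (hG1 : (X2 * Y3 - X3 * Y2) * (X2 * Y3 - X3 * Y2) * G1 = -X2 * Y2 * l1 + X2 * Y3 * l0 + X3 * Y2 * l0 - X3 * Y3 * l4) 
    (hH11 : (X1 * Y4 - X4 * Y1) * (X2 * Y3 - X3 * Y2) * H11 = Y1 * Y2 * l2 - Y1 * Y3 * l1 - Y2 * Y4 * l4 + Y3 * Y4 * l3) 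
    (hH12 : (X1 * Y4 - X4 * Y1) * (X2 * Y3 - X3 * Y2) * H12 = -X2 * Y1 * l2 + X2 * Y4 * l4 + X3 * Y1 * l1 - X3 * Y4 * l3) 
    (ha3 : (X1 * Y4 - X4 * Y1) * a3 = X1 * X2 * Y2 - X3 * X4 * Y3) 
    (ha5 : (X1 * Y4 - X4 * Y1) * a5 = X1 * Y2 ^ 2 - X4 * Y3 ^ 2) 
    (hb2 : (X2 * Y3 - X3 * Y2) * b2 = X1 * Y1 * Y3 - X4 * Y2 * Y4) 
    (hb3 : (X2 * Y3 - X3 * Y2) * b3 = -X1 * X3 * Y1 + X2 * X4 * Y4) 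
    (hb4 : (X2 * Y3 - X3 * Y2) * b4 = Y1 ^ 2 * Y3 - Y2 * Y4 ^ 2) :
    F1 * b2 + F2 * b4 - G0 * b3 - G0 * b3 * θ + G1 * b2 + G1 * b2 * θ - H11 * a3 * θ - H12 * a5 * θ = 0 := by
  have h : (X1 * Y4 - X4 * Y1) * (X1 * Y4 - X4 * Y1) * (X2 * Y3 - X3 * Y2) * (F1 * b2 + F2 * b4 - G0 * b3 - G0 * b3 * θ + G1 * b2 + G1 * b2 * θ - H11 * a3 * θ - H12 * a5 * θ) = 0 := by
    linear_combination (1) * (X2 * Y3 - X3 * Y2) * b2 * hF1 +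
      (1) * (-X1 * Y1 * l3 + X1 * Y4 * l0 + X4 * Y1 * l0 - X4 * Y4 * l2) * hb2 +
      (1) * (X2 * Y3 - X3 * Y2) * b4 * hF2 +
      (1) * (-2 * X1 * X4 * l0 + X1 ^ 2 * l3 + X4 ^ 2 * l2) * hb4 +
      (-1 - θ) * ((X1 * Y4 - X4 * Y1) - θ * (X2 * Y3 - X3 * Y2)) * (X2 * Y3 - X3 * Y2) * G0 * b3 * hD +
      (-θ ^ 2 - θ ^ 3) * (X2 * Y3 - X3 * Y2) * b3 * hG0 +
      (-θ ^ 2 - θ ^ 3) * (-2 * Y2 * Y3 * l0 + Y2 ^ 2 * l1 + Y3 ^ 2 * l4) * hb3 +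
      (1 + θ) * ((X1 * Y4 - X4 * Y1) - θ * (X2 * Y3 - X3 * Y2)) * (X2 * Y3 - X3 * Y2) * G1 * b2 * hD +
      (θ ^ 2 + θ ^ 3) * (X2 * Y3 - X3 * Y2) * b2 * hG1 +
      (θ ^ 2 + θ ^ 3) * (-X2 * Y2 * l1 + X2 * Y3 * l0 + X3 * Y2 * l0 - X3 * Y3 * l4) * hb2 +
      (-θ) * (X1 * Y4 - X4 * Y1) * a3 * hH11 +
      (-θ) * (Y1 * Y2 * l2 - Y1 * Y3 * l1 - Y2 * Y4 * l4 + Y3 * Y4 * l3) * ha3 +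
      (-θ) * (X1 * Y4 - X4 * Y1) * a5 * hH12 +
      (-θ) * (-X2 * Y1 * l2 + X2 * Y4 * l4 + X3 * Y1 * l1 - X3 * Y4 * l3) * ha5 +
      (X1 * Y1 * Y3 * l0 - X1 * Y2 * Y4 * l3 - X4 * Y1 * Y3 * l2 + X4 * Y2 * Y4 * l0) * hD +
      (-X1 * X2 * Y1 * Y2 * Y3 * l1 * θ + X1 * X2 * Y1 * Y3 ^ 2 * l0 * θ - X1 * X3 * Y1 * Y2 * Y3 * l0 * θ + X1 * X3 * Y1 * Y2 ^ 2 * l1 * θ + X2 * X4 * Y2 * Y3 * Y4 * l0 * θ - X2 * X4 * Y3 ^ 2 * Y4 * l4 * θ + X3 * X4 * Y2 * Y3 * Y4 * l4 * θ - X3 * X4 * Y2 ^ 2 * Y4 * l0 * θ) * hθ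
  simpa [h1, h2] using h

theorem ca2_nat10 {θ X1 X2 X3 X4 Y1 Y2 Y3 Y4 l0 l1 l2 l3 l4 F0 F1 G1 G2 H12 H22 a0 a1 a2 b3 b5 : ℂ}
    (hθ : θ ^ 2 + θ - 1 = 0) (hD : (X1 * Y4 - X4 * Y1) = -θ * (X2 * Y3 - X3 * Y2)) (h1 : (X1 * Y4 - X4 * Y1) ≠ 0) (h2 : (X2 * Y3 - X3 * Y2) ≠ 0)
    (hF0 : (X1 * Y4 - X4 * Y1) * (X1 * Y4 - X4 * Y1) * F0 = -2 * Y1 * Y4 * l0 + Y1 ^ 2 * l3 + Y4 ^ 2 * l2) 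
    (hF1 : (X1 * Y4 - X4 * Y1) * (X1 * Y4 - X4 * Y1) * F1 = -X1 * Y1 * l3 + X1 * Y4 * l0 + X4 * Y1 * l0 - X4 * Y4 * l2) 
    (hG1 : (X2 * Y3 - X3 * Y2) * (X2 * Y3 - X3 * Y2) * G1 = -X2 * Y2 * l1 + X2 * Y3 * l0 + X3 * Y2 * l0 - X3 * Y3 * l4) 
    (hG2 : (X2 * Y3 - X3 * Y2) * (X2 * Y3 - X3 * Y2) * G2 = -2 * X2 * X3 * l0 + X2 ^ 2 * l1 + X3 ^ 2 * l4) 
    (hH12 : (X1 * Y4 - X4 * Y1) * (X2 * Y3 - X3 * Y2) * H12 = -X2 * Y1 * l2 + X2 * Y4 * l4 + X3 * Y1 * l1 - X3 * Y4 * l3) 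
    (hH22 : (X1 * Y4 - X4 * Y1) * (X2 * Y3 - X3 * Y2) * H22 = X1 * X2 * l2 - X1 * X3 * l1 - X2 * X4 * l4 + X3 * X4 * l3) 
    (ha0 : (X1 * Y4 - X4 * Y1) * a0 = -X2 ^ 2 * Y1 + X3 ^ 2 * Y4) 
    (ha1 : (X1 * Y4 - X4 * Y1) * a1 = X1 * X2 ^ 2 - X3 ^ 2 * X4) 
    (ha2 : (X1 * Y4 - X4 * Y1) * a2 = -X2 * Y1 * Y2 + X3 * Y3 * Y4) 
    (hb3 : (X2 * Y3 - X3 * Y2) * b3 = -X1 * X3 * Y1 + X2 * X4 * Y4) 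
    (hb5 : (X2 * Y3 - X3 * Y2) * b5 = X2 * Y4 ^ 2 - X3 * Y1 ^ 2) :
    F0 * a1 - F1 * a0 + G1 * a0 + G1 * a0 * θ + G2 * a2 + G2 * a2 * θ - 2 * H12 * b3 - H12 * b3 * θ - 2 * H22 * b5 - H22 * b5 * θ = 0 := by
  have h : (X1 * Y4 - X4 * Y1) * (X2 * Y3 - X3 * Y2) * (X2 * Y3 - X3 * Y2) * (F0 * a1 - F1 * a0 + G1 * a0 + G1 * a0 * θ + G2 * a2 + G2 * a2 * θ - 2 * H12 * b3 - H12 * b3 * θ - 2 * H22 * b5 - H22 * b5 * θ) = 0 := by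
    linear_combination -(1) * (1 + θ) ^ 2 * ((X1 * Y4 - X4 * Y1) - θ * (X2 * Y3 - X3 * Y2)) * (X1 * Y4 - X4 * Y1) * F0 * a1 * hD +
      -(1) * (θ ^ 2 + θ + 1) * (X2 * Y3 - X3 * Y2) ^ 2 * (X1 * Y4 - X4 * Y1) * F0 * a1 * hθ +
      (1 + 2 * θ + θ ^ 2) * (X1 * Y4 - X4 * Y1) * a1 * hF0 +
      (1 + 2 * θ + θ ^ 2) * (-2 * Y1 * Y4 * l0 + Y1 ^ 2 * l3 + Y4 ^ 2 * l2) * ha1 +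
      -(-1) * (1 + θ) ^ 2 * ((X1 * Y4 - X4 * Y1) - θ * (X2 * Y3 - X3 * Y2)) * (X1 * Y4 - X4 * Y1) * F1 * a0 * hD +
      -(-1) * (θ ^ 2 + θ + 1) * (X2 * Y3 - X3 * Y2) ^ 2 * (X1 * Y4 - X4 * Y1) * F1 * a0 * hθ +
      (-1 - 2 * θ - θ ^ 2) * (X1 * Y4 - X4 * Y1) * a0 * hF1 +
      (-1 - 2 * θ - θ ^ 2) * (-X1 * Y1 * l3 + X1 * Y4 * l0 + X4 * Y1 * l0 - X4 * Y4 * l2) * ha0 +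
      (1 + θ) * (X1 * Y4 - X4 * Y1) * a0 * hG1 +
      (1 + θ) * (-X2 * Y2 * l1 + X2 * Y3 * l0 + X3 * Y2 * l0 - X3 * Y3 * l4) * ha0 +
      (1 + θ) * (X1 * Y4 - X4 * Y1) * a2 * hG2 +
      (1 + θ) * (-2 * X2 * X3 * l0 + X2 ^ 2 * l1 + X3 ^ 2 * l4) * ha2 +
      (-2 - θ) * (X2 * Y3 - X3 * Y2) * b3 * hH12 +
      (-2 - θ) * (-X2 * Y1 * l2 + X2 * Y4 * l4 + X3 * Y1 * l1 - X3 * Y4 * l3) * hb3 +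
      (-2 - θ) * (X2 * Y3 - X3 * Y2) * b5 * hH22 +
      (-2 - θ) * (X1 * X2 * l2 - X1 * X3 * l1 - X2 * X4 * l4 + X3 * X4 * l3) * hb5 +
      (2 * X2 * X3 * Y1 * l4 + X2 * X3 * Y1 * l4 * θ + 2 * X2 * X3 * Y4 * l1 + X2 * X3 * Y4 * l1 * θ - 2 * X2 ^ 2 * Y1 * l0 - X2 ^ 2 * Y1 * l0 * θ - 2 * X3 ^ 2 * Y4 * l0 - X3 ^ 2 * Y4 * l0 * θ) * hD +
      (-X1 * X2 ^ 2 * Y1 * Y4 * l0 + X1 * X2 ^ 2 * Y4 ^ 2 * l2 + X1 * X3 ^ 2 * Y1 * Y4 * l3 - X1 * X3 ^ 2 * Y4 ^ 2 * l0 + X2 * X3 ^ 2 * Y1 * Y2 * l4 + X2 * X3 ^ 2 * Y2 * Y4 * l1 + X2 * X3 ^ 2 * Y3 * Y4 * l0 - X2 ^ 2 * X3 * Y1 * Y2 * l0 - X2 ^ 2 * X3 * Y1 * Y3 * l4 - X2 ^ 2 * X3 * Y3 * Y4 * l1 - X2 ^ 2 * X4 * Y1 * Y4 * l2 + X2 ^ 2 * X4 * Y1 ^ 2 * l0 + X2 ^ 3 * Y1 * Y3 * l0 + X3 ^ 2 * X4 * Y1 * Y4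 * l0 - X3 ^ 2 * X4 * Y1 ^ 2 * l3 - X3 ^ 3 * Y2 * Y4 * l0) * hθ
  simpa [h1, h2] using h

theorem ca2_nat11 {θ X1 X2 X3 X4 Y1 Y2 Y3 Y4 l0 l1 l2 l3 l4 F0 F1 G1 G2 H11 H21 a2 a3 a4 b3 b5 : ℂ}
    (hθ : θ ^ 2 + θ - 1 = 0) (hD : (X1 * Y4 - X4 * Y1) = -θ * (X2 * Y3 - X3 * Y2)) (h1 : (X1 * Y4 - X4 * Y1) ≠ 0) (h2 : (X2 * Y3 - X3 * Y2) ≠ 0)
    (hF0 : (X1 * Y4 - X4 * Y1) * (X1 * Y4 - X4 * Y1) * F0 = -2 * Y1 * Y4 * l0 + Y1 ^ 2 * l3 + Y4 ^ 2 * l2) 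
    (hF1 : (X1 * Y4 - X4 * Y1) * (X1 * Y4 - X4 * Y1) * F1 = -X1 * Y1 * l3 + X1 * Y4 * l0 + X4 * Y1 * l0 - X4 * Y4 * l2) 
    (hG1 : (X2 * Y3 - X3 * Y2) * (X2 * Y3 - X3 * Y2) * G1 = -X2 * Y2 * l1 + X2 * Y3 * l0 + X3 * Y2 * l0 - X3 * Y3 * l4) 
    (hG2 : (X2 * Y3 - X3 * Y2) * (X2 * Y3 - X3 * Y2) * G2 = -2 * X2 * X3 * l0 + X2 ^ 2 * l1 + X3 ^ 2 * l4) 
    (hH11 : (X1 * Y4 - X4 * Y1) * (X2 * Y3 - X3 * Y2) * H11 = Y1 * Y2 * l2 - Y1 * Y3 * l1 - Y2 * Y4 * l4 + Y3 * Y4 * l3) 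
    (hH21 : (X1 * Y4 - X4 * Y1) * (X2 * Y3 - X3 * Y2) * H21 = -X1 * Y2 * l2 + X1 * Y3 * l1 + X4 * Y2 * l4 - X4 * Y3 * l3) 
    (ha2 : (X1 * Y4 - X4 * Y1) * a2 = -X2 * Y1 * Y2 + X3 * Y3 * Y4) 
    (ha3 : (X1 * Y4 - X4 * Y1) * a3 = X1 * X2 * Y2 - X3 * X4 * Y3) 
    (ha4 : (X1 * Y4 - X4 * Y1) * a4 = -Y1 * Y2 ^ 2 + Y3 ^ 2 * Y4) 
    (hb3 : (X2 * Y3 - X3 * Y2) * b3 = -X1 * X3 * Y1 + X2 * X4 * Y4) 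
    (hb5 : (X2 * Y3 - X3 * Y2) * b5 = X2 * Y4 ^ 2 - X3 * Y1 ^ 2) :
    F0 * a3 - F1 * a2 + G1 * a2 + G1 * a2 * θ + G2 * a4 + G2 * a4 * θ + 2 * H11 * b3 + H11 * b3 * θ + 2 * H21 * b5 + H21 * b5 * θ = 0 := by
  have h : (X1 * Y4 - X4 * Y1) * (X2 * Y3 - X3 * Y2) * (X2 * Y3 - X3 * Y2) * (F0 * a3 - F1 * a2 + G1 * a2 + G1 * a2 * θ + G2 * a4 + G2 * a4 * θ + 2 * H11 * b3 + H11 * b3 * θ + 2 * H21 * b5 + H21 * b5 * θ) = 0 := by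
    linear_combination -(1) * (1 + θ) ^ 2 * ((X1 * Y4 - X4 * Y1) - θ * (X2 * Y3 - X3 * Y2)) * (X1 * Y4 - X4 * Y1) * F0 * a3 * hD +
      -(1) * (θ ^ 2 + θ + 1) * (X2 * Y3 - X3 * Y2) ^ 2 * (X1 * Y4 - X4 * Y1) * F0 * a3 * hθ +
      (1 + 2 * θ + θ ^ 2) * (X1 * Y4 - X4 * Y1) * a3 * hF0 +
      (1 + 2 * θ + θ ^ 2) * (-2 * Y1 * Y4 * l0 + Y1 ^ 2 * l3 + Y4 ^ 2 * l2) * ha3 +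
      -(-1) * (1 + θ) ^ 2 * ((X1 * Y4 - X4 * Y1) - θ * (X2 * Y3 - X3 * Y2)) * (X1 * Y4 - X4 * Y1) * F1 * a2 * hD +
      -(-1) * (θ ^ 2 + θ + 1) * (X2 * Y3 - X3 * Y2) ^ 2 * (X1 * Y4 - X4 * Y1) * F1 * a2 * hθ +
      (-1 - 2 * θ - θ ^ 2) * (X1 * Y4 - X4 * Y1) * a2 * hF1 +
      (-1 - 2 * θ - θ ^ 2) * (-X1 * Y1 * l3 + X1 * Y4 * l0 + X4 * Y1 * l0 - X4 * Y4 * l2) * ha2 +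
      (1 + θ) * (X1 * Y4 - X4 * Y1) * a2 * hG1 +
      (1 + θ) * (-X2 * Y2 * l1 + X2 * Y3 * l0 + X3 * Y2 * l0 - X3 * Y3 * l4) * ha2 +
      (1 + θ) * (X1 * Y4 - X4 * Y1) * a4 * hG2 +
      (1 + θ) * (-2 * X2 * X3 * l0 + X2 ^ 2 * l1 + X3 ^ 2 * l4) * ha4 +
      (2 + θ) * (X2 * Y3 - X3 * Y2) * b3 * hH11 +
      (2 + θ) * (Y1 * Y2 * l2 - Y1 * Y3 * l1 - Y2 * Y4 * l4 + Y3 * Y4 * l3) * hb3 +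
      (2 + θ) * (X2 * Y3 - X3 * Y2) * b5 * hH21 +
      (2 + θ) * (-X1 * Y2 * l2 + X1 * Y3 * l1 + X4 * Y2 * l4 - X4 * Y3 * l3) * hb5 +
      (-2 * X2 * Y1 * Y2 * l0 - X2 * Y1 * Y2 * l0 * θ + 2 * X2 * Y3 * Y4 * l1 + X2 * Y3 * Y4 * l1 * θ + 2 * X3 * Y1 * Y2 * l4 + X3 * Y1 * Y2 * l4 * θ - 2 * X3 * Y3 * Y4 * l0 - X3 * Y3 * Y4 * l0 * θ) * hD +
      (-X1 * X2 * Y1 * Y2 * Y4 * l0 + X1 * X2 * Y2 * Y4 ^ 2 * l2 + X1 * X3 * Y1 * Y3 * Y4 * l3 - X1 * X3 * Y3 * Y4 ^ 2 * l0 - X2 * X3 * Y1 * Y2 * Y3 * l4 - X2 * X3 * Y1 * Y2 ^ 2 * l0 + X2 * X3 * Y2 * Y3 * Y4 * l1 + X2 * X3 * Y3 ^ 2 * Y4 * l0 - X2 * X4 * Y1 * Y2 * Y4 * l2 + X2 * X4 * Y1 ^ 2 * Y2 * l0 + X2 ^ 2 * Y1 * Y2 * Y3 * l0 - X2 ^ 2 * Y3 ^ 2 * Y4 * l1 + X3 * X4 * Y1 * Y3 * Y4 * l0 - X3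 * X4 * Y1 ^ 2 * Y3 * l3 + X3 ^ 2 * Y1 * Y2 ^ 2 * l4 - X3 ^ 2 * Y2 * Y3 * Y4 * l0) * hθ
  simpa [h1, h2] using h

theorem ca2_nat12 {θ X1 X2 X3 X4 Y1 Y2 Y3 Y4 l0 l1 l2 l3 l4 G0 G1 G2 H11 H12 H21 H22 a0 a2 a4 b2 b3 b4 b5 : ℂ}
    (hθ : θ ^ 2 + θ - 1 = 0) (hD : (X1 * Y4 - X4 * Y1) = -θ * (X2 * Y3 - X3 * Y2)) (h1 : (X1 * Y4 - X4 * Y1) ≠ 0) (h2 : (X2 * Y3 - X3 * Y2) ≠ 0)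
    (hG0 : (X2 * Y3 - X3 * Y2) * (X2 * Y3 - X3 * Y2) * G0 = -2 * Y2 * Y3 * l0 + Y2 ^ 2 * l1 + Y3 ^ 2 * l4) 
    (hG1 : (X2 * Y3 - X3 * Y2) * (X2 * Y3 - X3 * Y2) * G1 = -X2 * Y2 * l1 + X2 * Y3 * l0 + X3 * Y2 * l0 - X3 * Y3 * l4) 
    (hG2 : (X2 * Y3 - X3 * Y2) * (X2 * Y3 - X3 * Y2) * G2 = -2 * X2 * X3 * l0 + X2 ^ 2 * l1 + X3 ^ 2 * l4) 
    (hH11 : (X1 * Y4 - X4 * Y1) * (X2 * Y3 - X3 * Y2) * H11 = Y1 * Y2 * l2 - Y1 * Y3 * l1 - Y2 * Y4 * l4 + Y3 * Y4 * l3) 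
    (hH12 : (X1 * Y4 - X4 * Y1) * (X2 * Y3 - X3 * Y2) * H12 = -X2 * Y1 * l2 + X2 * Y4 * l4 + X3 * Y1 * l1 - X3 * Y4 * l3) 
    (hH21 : (X1 * Y4 - X4 * Y1) * (X2 * Y3 - X3 * Y2) * H21 = -X1 * Y2 * l2 + X1 * Y3 * l1 + X4 * Y2 * l4 - X4 * Y3 * l3) 
    (hH22 : (X1 * Y4 - X4 * Y1) * (X2 * Y3 - X3 * Y2) * H22 = X1 * X2 * l2 - X1 * X3 * l1 - X2 * X4 * l4 + X3 * X4 * l3) 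
    (ha0 : (X1 * Y4 - X4 * Y1) * a0 = -X2 ^ 2 * Y1 + X3 ^ 2 * Y4) 
    (ha2 : (X1 * Y4 - X4 * Y1) * a2 = -X2 * Y1 * Y2 + X3 * Y3 * Y4) 
    (ha4 : (X1 * Y4 - X4 * Y1) * a4 = -Y1 * Y2 ^ 2 + Y3 ^ 2 * Y4) 
    (hb2 : (X2 * Y3 - X3 * Y2) * b2 = X1 * Y1 * Y3 - X4 * Y2 * Y4) 
    (hb3 : (X2 * Y3 - X3 * Y2) * b3 = -X1 * X3 * Y1 + X2 * X4 * Y4) 
    (hb4 : (X2 * Y3 - X3 * Y2) * b4 = Y1 ^ 2 * Y3 - Y2 * Y4 ^ 2) 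
    (hb5 : (X2 * Y3 - X3 * Y2) * b5 = X2 * Y4 ^ 2 - X3 * Y1 ^ 2) :
    G0 * a0 + 2 * G1 * a2 + G2 * a4 + H11 * b3 + H11 * b3 * θ - H12 * b2 - H12 * b2 * θ + H21 * b5 + H21 * b5 * θ - H22 * b4 - H22 * b4 * θ = 0 := by
  have h : (X1 * Y4 - X4 * Y1) * (X2 * Y3 - X3 * Y2) * (X2 * Y3 - X3 * Y2) * (G0 * a0 + 2 * G1 * a2 + G2 * a4 + H11 * b3 + H11 * b3 * θ - H12 * b2 - H12 * b2 * θ + H21 * b5 + H21 * b5 * θ - H22 * b4 - H22 * b4 * θ) = 0 := by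
    linear_combination (1) * (X1 * Y4 - X4 * Y1) * a0 * hG0 +
      (1) * (-2 * Y2 * Y3 * l0 + Y2 ^ 2 * l1 + Y3 ^ 2 * l4) * ha0 +
      (2) * (X1 * Y4 - X4 * Y1) * a2 * hG1 +
      (2) * (-X2 * Y2 * l1 + X2 * Y3 * l0 + X3 * Y2 * l0 - X3 * Y3 * l4) * ha2 +
      (1) * (X1 * Y4 - X4 * Y1) * a4 * hG2 +
      (1) * (-2 * X2 * X3 * l0 + X2 ^ 2 * l1 + X3 ^ 2 * l4) * ha4 +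
      (1 + θ) * (X2 * Y3 - X3 * Y2) * b3 * hH11 +
      (1 + θ) * (Y1 * Y2 * l2 - Y1 * Y3 * l1 - Y2 * Y4 * l4 + Y3 * Y4 * l3) * hb3 +
      (-1 - θ) * (X2 * Y3 - X3 * Y2) * b2 * hH12 +
      (-1 - θ) * (-X2 * Y1 * l2 + X2 * Y4 * l4 + X3 * Y1 * l1 - X3 * Y4 * l3) * hb2 +
      (1 + θ) * (X2 * Y3 - X3 * Y2) * b5 * hH21 +
      (1 + θ) * (-X1 * Y2 * l2 + X1 * Y3 * l1 + X4 * Y2 * l4 - X4 * Y3 * l3) * hb5 +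
      (-1 - θ) * (X2 * Y3 - X3 * Y2) * b4 * hH22 +
      (-1 - θ) * (X1 * X2 * l2 - X1 * X3 * l1 - X2 * X4 * l4 + X3 * X4 * l3) * hb4 +
      (-X2 * Y1 * Y3 * l4 - X2 * Y1 * Y3 * l4 * θ + X2 * Y3 * Y4 * l1 + X2 * Y3 * Y4 * l1 * θ + X3 * Y1 * Y2 * l4 + X3 * Y1 * Y2 * l4 * θ - X3 * Y2 * Y4 * l1 - X3 * Y2 * Y4 * l1 * θ) * hD +
      (-2 * X2 * X3 * Y1 * Y2 * Y3 * l4 + 2 * X2 * X3 * Y2 * Y3 * Y4 * l1 + X2 ^ 2 * Y1 * Y3 ^ 2 * l4 - X2 ^ 2 * Y3 ^ 2 * Y4 * l1 + X3 ^ 2 * Y1 * Y2 ^ 2 * l4 - X3 ^ 2 * Y2 ^ 2 * Y4 * l1) * hθ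
  simpa [h1, h2] using h

theorem ca2_nat13 {θ X1 X2 X3 X4 Y1 Y2 Y3 Y4 l0 l1 l2 l3 l4 F0 F1 G0 G1 H11 H21 a2 a4 a5 b2 b4 : ℂ}
    (hθ : θ ^ 2 + θ - 1 = 0) (hD : (X1 * Y4 - X4 * Y1) = -θ * (X2 * Y3 - X3 * Y2)) (h1 : (X1 * Y4 - X4 * Y1) ≠ 0) (h2 : (X2 * Y3 - X3 * Y2) ≠ 0)
    (hF0 : (X1 * Y4 - X4 * Y1) * (X1 * Y4 - X4 * Y1) * F0 = -2 * Y1 * Y4 * l0 + Y1 ^ 2 * l3 + Y4 ^ 2 * l2) 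
    (hF1 : (X1 * Y4 - X4 * Y1) * (X1 * Y4 - X4 * Y1) * F1 = -X1 * Y1 * l3 + X1 * Y4 * l0 + X4 * Y1 * l0 - X4 * Y4 * l2) 
    (hG0 : (X2 * Y3 - X3 * Y2) * (X2 * Y3 - X3 * Y2) * G0 = -2 * Y2 * Y3 * l0 + Y2 ^ 2 * l1 + Y3 ^ 2 * l4) 
    (hG1 : (X2 * Y3 - X3 * Y2) * (X2 * Y3 - X3 * Y2) * G1 = -X2 * Y2 * l1 + X2 * Y3 * l0 + X3 * Y2 * l0 - X3 * Y3 * l4) 
    (hH11 : (X1 * Y4 - X4 * Y1) * (X2 * Y3 - X3 * Y2) * H11 = Y1 * Y2 * l2 - Y1 * Y3 * l1 - Y2 * Y4 * l4 + Y3 * Y4 * l3) 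
    (hH21 : (X1 * Y4 - X4 * Y1) * (X2 * Y3 - X3 * Y2) * H21 = -X1 * Y2 * l2 + X1 * Y3 * l1 + X4 * Y2 * l4 - X4 * Y3 * l3) 
    (ha2 : (X1 * Y4 - X4 * Y1) * a2 = -X2 * Y1 * Y2 + X3 * Y3 * Y4) 
    (ha4 : (X1 * Y4 - X4 * Y1) * a4 = -Y1 * Y2 ^ 2 + Y3 ^ 2 * Y4) 
    (ha5 : (X1 * Y4 - X4 * Y1) * a5 = X1 * Y2 ^ 2 - X4 * Y3 ^ 2) 
    (hb2 : (X2 * Y3 - X3 * Y2) * b2 = X1 * Y1 * Y3 - X4 * Y2 * Y4) 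
    (hb4 : (X2 * Y3 - X3 * Y2) * b4 = Y1 ^ 2 * Y3 - Y2 * Y4 ^ 2) :
    F0 * a5 - F1 * a4 - G0 * a2 - G0 * a2 * θ - G1 * a4 - G1 * a4 * θ - 2 * H11 * b2 - H11 * b2 * θ - 2 * H21 * b4 - H21 * b4 * θ = 0 := by
  have h : (X1 * Y4 - X4 * Y1) * (X2 * Y3 - X3 * Y2) * (X2 * Y3 - X3 * Y2) * (F0 * a5 - F1 * a4 - G0 * a2 - G0 * a2 * θ - G1 * a4 - G1 * a4 * θ - 2 * H11 * b2 - H11 * b2 * θ - 2 * H21 * b4 - H21 * b4 * θ) = 0 := by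
    linear_combination -(1) * (1 + θ) ^ 2 * ((X1 * Y4 - X4 * Y1) - θ * (X2 * Y3 - X3 * Y2)) * (X1 * Y4 - X4 * Y1) * F0 * a5 * hD +
      -(1) * (θ ^ 2 + θ + 1) * (X2 * Y3 - X3 * Y2) ^ 2 * (X1 * Y4 - X4 * Y1) * F0 * a5 * hθ +
      (1 + 2 * θ + θ ^ 2) * (X1 * Y4 - X4 * Y1) * a5 * hF0 +
      (1 + 2 * θ + θ ^ 2) * (-2 * Y1 * Y4 * l0 + Y1 ^ 2 * l3 + Y4 ^ 2 * l2) * ha5 +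
      -(-1) * (1 + θ) ^ 2 * ((X1 * Y4 - X4 * Y1) - θ * (X2 * Y3 - X3 * Y2)) * (X1 * Y4 - X4 * Y1) * F1 * a4 * hD +
      -(-1) * (θ ^ 2 + θ + 1) * (X2 * Y3 - X3 * Y2) ^ 2 * (X1 * Y4 - X4 * Y1) * F1 * a4 * hθ +
      (-1 - 2 * θ - θ ^ 2) * (X1 * Y4 - X4 * Y1) * a4 * hF1 +
      (-1 - 2 * θ - θ ^ 2) * (-X1 * Y1 * l3 + X1 * Y4 * l0 + X4 * Y1 * l0 - X4 * Y4 * l2) * ha4 +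
      (-1 - θ) * (X1 * Y4 - X4 * Y1) * a2 * hG0 +
      (-1 - θ) * (-2 * Y2 * Y3 * l0 + Y2 ^ 2 * l1 + Y3 ^ 2 * l4) * ha2 +
      (-1 - θ) * (X1 * Y4 - X4 * Y1) * a4 * hG1 +
      (-1 - θ) * (-X2 * Y2 * l1 + X2 * Y3 * l0 + X3 * Y2 * l0 - X3 * Y3 * l4) * ha4 +
      (-2 - θ) * (X2 * Y3 - X3 * Y2) * b2 * hH11 +
      (-2 - θ) * (Y1 * Y2 * l2 - Y1 * Y3 * l1 - Y2 * Y4 * l4 + Y3 * Y4 * l3) * hb2 +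
      (-2 - θ) * (X2 * Y3 - X3 * Y2) * b4 * hH21 +
      (-2 - θ) * (-X1 * Y2 * l2 + X1 * Y3 * l1 + X4 * Y2 * l4 - X4 * Y3 * l3) * hb4 +
      (2 * Y1 * Y2 * Y3 * l4 + Y1 * Y2 * Y3 * l4 * θ - 2 * Y1 * Y2 ^ 2 * l0 - Y1 * Y2 ^ 2 * l0 * θ + 2 * Y2 * Y3 * Y4 * l1 + Y2 * Y3 * Y4 * l1 * θ - 2 * Y3 ^ 2 * Y4 * l0 - Y3 ^ 2 * Y4 * l0 * θ) * hD +
      (-X1 * Y1 * Y2 ^ 2 * Y4 * l0 + X1 * Y1 * Y3 ^ 2 * Y4 * l3 + X1 * Y2 ^ 2 * Y4 ^ 2 * l2 - X1 * Y3 ^ 2 * Y4 ^ 2 * l0 - X2 * Y1 * Y2 * Y3 ^ 2 * l4 + X2 * Y1 * Y2 ^ 2 * Y3 * l0 - X2 * Y2 * Y3 ^ 2 * Y4 * l1 + X2 * Y3 ^ 3 * Y4 * l0 + X3 * Y1 * Y2 ^ 2 * Y3 * l4 - X3 * Y1 * Y2 ^ 3 * l0 - X3 * Y2 * Y3 ^ 2 * Y4 * l0 + X3 * Y2 ^ 2 * Y3 * Y4 * l1 - X4 * Y1 * Y2 ^ 2 * Y4 * l2 + X4 * Y1 * Y3 ^ 2 * Y4 *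 l0 + X4 * Y1 ^ 2 * Y2 ^ 2 * l0 - X4 * Y1 ^ 2 * Y3 ^ 2 * l3) * hθ
  simpa [h1, h2] using h

theorem ca2_nat14 {θ X1 X2 X3 X4 Y1 Y2 Y3 Y4 l0 l1 l2 l3 l4 F0 F1 G1 G2 H11 H12 a0 a2 b3 b4 b5 : ℂ}
    (hθ : θ ^ 2 + θ - 1 = 0) (hD : (X1 * Y4 - X4 * Y1) = -θ * (X2 * Y3 - X3 * Y2)) (h1 : (X1 * Y4 - X4 * Y1) ≠ 0) (h2 : (X2 * Y3 - X3 * Y2) ≠ 0)
    (hF0 : (X1 * Y4 - X4 * Y1) * (X1 * Y4 - X4 * Y1) * F0 = -2 * Y1 * Y4 * l0 + Y1 ^ 2 * l3 + Y4 ^ 2 * l2) 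
    (hF1 : (X1 * Y4 - X4 * Y1) * (X1 * Y4 - X4 * Y1) * F1 = -X1 * Y1 * l3 + X1 * Y4 * l0 + X4 * Y1 * l0 - X4 * Y4 * l2) 
    (hG1 : (X2 * Y3 - X3 * Y2) * (X2 * Y3 - X3 * Y2) * G1 = -X2 * Y2 * l1 + X2 * Y3 * l0 + X3 * Y2 * l0 - X3 * Y3 * l4) 
    (hG2 : (X2 * Y3 - X3 * Y2) * (X2 * Y3 - X3 * Y2) * G2 = -2 * X2 * X3 * l0 + X2 ^ 2 * l1 + X3 ^ 2 * l4) 
    (hH11 : (X1 * Y4 - X4 * Y1) * (X2 * Y3 - X3 * Y2) * H11 = Y1 * Y2 * l2 - Y1 * Y3 * l1 - Y2 * Y4 * l4 + Y3 * Y4 * l3) 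
    (hH12 : (X1 * Y4 - X4 * Y1) * (X2 * Y3 - X3 * Y2) * H12 = -X2 * Y1 * l2 + X2 * Y4 * l4 + X3 * Y1 * l1 - X3 * Y4 * l3) 
    (ha0 : (X1 * Y4 - X4 * Y1) * a0 = -X2 ^ 2 * Y1 + X3 ^ 2 * Y4) 
    (ha2 : (X1 * Y4 - X4 * Y1) * a2 = -X2 * Y1 * Y2 + X3 * Y3 * Y4) 
    (hb3 : (X2 * Y3 - X3 * Y2) * b3 = -X1 * X3 * Y1 + X2 * X4 * Y4) 
    (hb4 : (X2 * Y3 - X3 * Y2) * b4 = Y1 ^ 2 * Y3 - Y2 * Y4 ^ 2) 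
    (hb5 : (X2 * Y3 - X3 * Y2) * b5 = X2 * Y4 ^ 2 - X3 * Y1 ^ 2) :
    F0 * b3 + F1 * b5 + G1 * b5 + G1 * b5 * θ - G2 * b4 - G2 * b4 * θ + H11 * a0 * θ + H12 * a2 * θ = 0 := by
  have h : (X1 * Y4 - X4 * Y1) * (X1 * Y4 - X4 * Y1) * (X2 * Y3 - X3 * Y2) * (F0 * b3 + F1 * b5 + G1 * b5 + G1 * b5 * θ - G2 * b4 - G2 * b4 * θ + H11 * a0 * θ + H12 * a2 * θ) = 0 := by
    linear_combination (1) * (X2 * Y3 - X3 * Y2) * b3 * hF0 +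
      (1) * (-2 * Y1 * Y4 * l0 + Y1 ^ 2 * l3 + Y4 ^ 2 * l2) * hb3 +
      (1) * (X2 * Y3 - X3 * Y2) * b5 * hF1 +
      (1) * (-X1 * Y1 * l3 + X1 * Y4 * l0 + X4 * Y1 * l0 - X4 * Y4 * l2) * hb5 +
      (1 + θ) * ((X1 * Y4 - X4 * Y1) - θ * (X2 * Y3 - X3 * Y2)) * (X2 * Y3 - X3 * Y2) * G1 * b5 * hD +
      (θ ^ 2 + θ ^ 3) * (X2 * Y3 - X3 * Y2) * b5 * hG1 +
      (θ ^ 2 + θ ^ 3) * (-X2 * Y2 * l1 + X2 * Y3 * l0 + X3 * Y2 * l0 - X3 * Y3 * l4) * hb5 +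
      (-1 - θ) * ((X1 * Y4 - X4 * Y1) - θ * (X2 * Y3 - X3 * Y2)) * (X2 * Y3 - X3 * Y2) * G2 * b4 * hD +
      (-θ ^ 2 - θ ^ 3) * (X2 * Y3 - X3 * Y2) * b4 * hG2 +
      (-θ ^ 2 - θ ^ 3) * (-2 * X2 * X3 * l0 + X2 ^ 2 * l1 + X3 ^ 2 * l4) * hb4 +
      (θ) * (X1 * Y4 - X4 * Y1) * a0 * hH11 +
      (θ) * (Y1 * Y2 * l2 - Y1 * Y3 * l1 - Y2 * Y4 * l4 + Y3 * Y4 * l3) * ha0 +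
      (θ) * (X1 * Y4 - X4 * Y1) * a2 * hH12 +
      (θ) * (-X2 * Y1 * l2 + X2 * Y4 * l4 + X3 * Y1 * l1 - X3 * Y4 * l3) * ha2 +
      (-X2 * Y1 * Y4 * l3 + X2 * Y4 ^ 2 * l0 - X3 * Y1 * Y4 * l2 + X3 * Y1 ^ 2 * l0) * hD +
      (X2 * X3 * Y1 ^ 2 * Y2 * l1 * θ + X2 * X3 * Y1 ^ 2 * Y3 * l0 * θ - X2 * X3 * Y2 * Y4 ^ 2 * l0 * θ - X2 * X3 * Y3 * Y4 ^ 2 * l4 * θ - X2 ^ 2 * Y1 ^ 2 * Y3 * l1 * θ + X2 ^ 2 * Y3 * Y4 ^ 2 * l0 * θ - X3 ^ 2 * Y1 ^ 2 * Y2 * l0 * θ + X3 ^ 2 * Y2 * Y4 ^ 2 * l4 * θ) * hθ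
  simpa [h1, h2] using h

theorem ca2_nat15 {θ X1 X2 X3 X4 Y1 Y2 Y3 Y4 l0 l1 l2 l3 l4 F0 F1 G0 G1 H11 H12 a2 a4 b2 b4 b5 : ℂ}
    (hθ : θ ^ 2 + θ - 1 = 0) (hD : (X1 * Y4 - X4 * Y1) = -θ * (X2 * Y3 - X3 * Y2)) (h1 : (X1 * Y4 - X4 * Y1) ≠ 0) (h2 : (X2 * Y3 - X3 * Y2) ≠ 0)
    (hF0 : (X1 * Y4 - X4 * Y1) * (X1 * Y4 - X4 * Y1) * F0 = -2 * Y1 * Y4 * l0 + Y1 ^ 2 * l3 + Y4 ^ 2 * l2) 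
    (hF1 : (X1 * Y4 - X4 * Y1) * (X1 * Y4 - X4 * Y1) * F1 = -X1 * Y1 * l3 + X1 * Y4 * l0 + X4 * Y1 * l0 - X4 * Y4 * l2) 
    (hG0 : (X2 * Y3 - X3 * Y2) * (X2 * Y3 - X3 * Y2) * G0 = -2 * Y2 * Y3 * l0 + Y2 ^ 2 * l1 + Y3 ^ 2 * l4) 
    (hG1 : (X2 * Y3 - X3 * Y2) * (X2 * Y3 - X3 * Y2) * G1 = -X2 * Y2 * l1 + X2 * Y3 * l0 + X3 * Y2 * l0 - X3 * Y3 * l4) 
    (hH11 : (X1 * Y4 - X4 * Y1) * (X2 * Y3 - X3 * Y2) * H11 = Y1 * Y2 * l2 - Y1 * Y3 * l1 - Y2 * Y4 * l4 + Y3 * Y4 * l3) 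
    (hH12 : (X1 * Y4 - X4 * Y1) * (X2 * Y3 - X3 * Y2) * H12 = -X2 * Y1 * l2 + X2 * Y4 * l4 + X3 * Y1 * l1 - X3 * Y4 * l3) 
    (ha2 : (X1 * Y4 - X4 * Y1) * a2 = -X2 * Y1 * Y2 + X3 * Y3 * Y4) 
    (ha4 : (X1 * Y4 - X4 * Y1) * a4 = -Y1 * Y2 ^ 2 + Y3 ^ 2 * Y4) 
    (hb2 : (X2 * Y3 - X3 * Y2) * b2 = X1 * Y1 * Y3 - X4 * Y2 * Y4) 
    (hb4 : (X2 * Y3 - X3 * Y2) * b4 = Y1 ^ 2 * Y3 - Y2 * Y4 ^ 2) 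
    (hb5 : (X2 * Y3 - X3 * Y2) * b5 = X2 * Y4 ^ 2 - X3 * Y1 ^ 2) :
    F0 * b2 + F1 * b4 + G0 * b5 + G0 * b5 * θ - G1 * b4 - G1 * b4 * θ - H11 * a2 * θ - H12 * a4 * θ = 0 := by
  have h : (X1 * Y4 - X4 * Y1) * (X1 * Y4 - X4 * Y1) * (X2 * Y3 - X3 * Y2) * (F0 * b2 + F1 * b4 + G0 * b5 + G0 * b5 * θ - G1 * b4 - G1 * b4 * θ - H11 * a2 * θ - H12 * a4 * θ) = 0 := by
    linear_combination (1) * (X2 * Y3 - X3 * Y2) * b2 * hF0 +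
      (1) * (-2 * Y1 * Y4 * l0 + Y1 ^ 2 * l3 + Y4 ^ 2 * l2) * hb2 +
      (1) * (X2 * Y3 - X3 * Y2) * b4 * hF1 +
      (1) * (-X1 * Y1 * l3 + X1 * Y4 * l0 + X4 * Y1 * l0 - X4 * Y4 * l2) * hb4 +
      (1 + θ) * ((X1 * Y4 - X4 * Y1) - θ * (X2 * Y3 - X3 * Y2)) * (X2 * Y3 - X3 * Y2) * G0 * b5 * hD +
      (θ ^ 2 + θ ^ 3) * (X2 * Y3 - X3 * Y2) * b5 * hG0 +
      (θ ^ 2 + θ ^ 3) * (-2 * Y2 * Y3 * l0 + Y2 ^ 2 * l1 + Y3 ^ 2 * l4) * hb5 +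
      (-1 - θ) * ((X1 * Y4 - X4 * Y1) - θ * (X2 * Y3 - X3 * Y2)) * (X2 * Y3 - X3 * Y2) * G1 * b4 * hD +
      (-θ ^ 2 - θ ^ 3) * (X2 * Y3 - X3 * Y2) * b4 * hG1 +
      (-θ ^ 2 - θ ^ 3) * (-X2 * Y2 * l1 + X2 * Y3 * l0 + X3 * Y2 * l0 - X3 * Y3 * l4) * hb4 +
      (-θ) * (X1 * Y4 - X4 * Y1) * a2 * hH11 +
      (-θ) * (Y1 * Y2 * l2 - Y1 * Y3 * l1 - Y2 * Y4 * l4 + Y3 * Y4 * l3) * ha2 +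
      (-θ) * (X1 * Y4 - X4 * Y1) * a4 * hH12 +
      (-θ) * (-X2 * Y1 * l2 + X2 * Y4 * l4 + X3 * Y1 * l1 - X3 * Y4 * l3) * ha4 +
      (Y1 * Y2 * Y4 * l3 + Y1 * Y3 * Y4 * l2 - Y1 ^ 2 * Y3 * l0 - Y2 * Y4 ^ 2 * l0) * hD +
      (X2 * Y1 ^ 2 * Y2 * Y3 * l1 * θ - X2 * Y1 ^ 2 * Y3 ^ 2 * l0 * θ - X2 * Y2 * Y3 * Y4 ^ 2 * l0 * θ + X2 * Y3 ^ 2 * Y4 ^ 2 * l4 * θ + X3 * Y1 ^ 2 * Y2 * Y3 * l0 * θ - X3 * Y1 ^ 2 * Y2 ^ 2 * l1 * θ - X3 * Y2 * Y3 * Y4 ^ 2 * l4 * θ + X3 * Y2 ^ 2 * Y4 ^ 2 * l0 * θ) * hθ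
  simpa [h1, h2] using h

theorem ca2_core {θ X1 X2 X3 X4 Y1 Y2 Y3 Y4 l0 l1 l2 l3 l4 m00 m01 m02 m03 m11 m12 m13 m22 m23 m33 r0 i0 r1 i1 r2 i2 r3 i3 r4 i4 r5 i5 : ℂ}
    (hθ : θ ^ 2 + θ - 1 = 0) (hD : (X1 * Y4 - X4 * Y1) = -θ * (X2 * Y3 - X3 * Y2)) (h1 : (X1 * Y4 - X4 * Y1) ≠ 0) (h2 : (X2 * Y3 - X3 * Y2) ≠ 0)
    (hF0 : (X1 * Y4 - X4 * Y1) * (X1 * Y4 - X4 * Y1) * (m00 + 2 * m01 * θ + m11 * θ ^ 2) = -2 * Y1 * Y4 * l0 + Y1 ^ 2 * l3 + Y4 ^ 2 * l2)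
    (hF1 : (X1 * Y4 - X4 * Y1) * (X1 * Y4 - X4 * Y1) * (m02 + m03 * θ + m12 * θ + m13 * θ ^ 2) = -X1 * Y1 * l3 + X1 * Y4 * l0 + X4 * Y1 * l0 - X4 * Y4 * l2)
    (hF2 : (X1 * Y4 - X4 * Y1) * (X1 * Y4 - X4 * Y1) * (m22 + 2 * m23 * θ + m33 * θ ^ 2) = -2 * X1 * X4 * l0 + X1 ^ 2 * l3 + X4 ^ 2 * l2)
    (hG0 : (X2 * Y3 - X3 * Y2) * (X2 * Y3 - X3 * Y2) * (m00 - 2 * m01 - 2 * m01 * θ + m11 + 2 * m11 * θ + m11 * θ ^ 2) = -2 * Y2 * Y3 * l0 + Y2 ^ 2 * l1 + Y3 ^ 2 * l4)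
    (hG1 : (X2 * Y3 - X3 * Y2) * (X2 * Y3 - X3 * Y2) * (m02 - m03 - m03 * θ - m12 - m12 * θ + m13 + 2 * m13 * θ + m13 * θ ^ 2) = -X2 * Y2 * l1 + X2 * Y3 * l0 + X3 * Y2 * l0 - X3 * Y3 * l4)
    (hG2 : (X2 * Y3 - X3 * Y2) * (X2 * Y3 - X3 * Y2) * (m22 - 2 * m23 - 2 * m23 * θ + m33 + 2 * m33 * θ + m33 * θ ^ 2) = -2 * X2 * X3 * l0 + X2 ^ 2 * l1 + X3 ^ 2 * l4)
    (hH11 : (X1 * Y4 - X4 * Y1) * (X2 * Y3 - X3 * Y2) * (m00 - m01 - m11 * θ - m11 * θ ^ 2) = Y1 * Y2 * l2 - Y1 * Y3 * l1 - Y2 * Y4 * l4 + Y3 * Y4 * l3)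
    (hH12 : (X1 * Y4 - X4 * Y1) * (X2 * Y3 - X3 * Y2) * (m02 - m03 - m03 * θ + m12 * θ - m13 * θ - m13 * θ ^ 2) = -X2 * Y1 * l2 + X2 * Y4 * l4 + X3 * Y1 * l1 - X3 * Y4 * l3)
    (hH21 : (X1 * Y4 - X4 * Y1) * (X2 * Y3 - X3 * Y2) * (m02 + m03 * θ - m12 - m12 * θ - m13 * θ - m13 * θ ^ 2) = -X1 * Y2 * l2 + X1 * Y3 * l1 + X4 * Y2 * l4 - X4 * Y3 * l3)
    (hH22 : (X1 * Y4 - X4 * Y1) * (X2 * Y3 - X3 * Y2) * (m22 - m23 - m33 * θ - m33 * θ ^ 2) = X1 * X2 * l2 - X1 * X3 * l1 - X2 * X4 * l4 + X3 * X4 * l3)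
    (ha0 : (X1 * Y4 - X4 * Y1) * (i0 * θ + r0) = -X2 ^ 2 * Y1 + X3 ^ 2 * Y4)
    (ha1 : (X1 * Y4 - X4 * Y1) * (i1 * θ + r1) = X1 * X2 ^ 2 - X3 ^ 2 * X4)
    (ha2 : (X1 * Y4 - X4 * Y1) * (i2 * θ + r2) = -X2 * Y1 * Y2 + X3 * Y3 * Y4)
    (ha3 : (X1 * Y4 - X4 * Y1) * (i3 * θ + r3) = X1 * X2 * Y2 - X3 * X4 * Y3)
    (ha4 : (X1 * Y4 - X4 * Y1) * (i4 * θ + r4) = -Y1 * Y2 ^ 2 + Y3 ^ 2 * Y4)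
    (ha5 : (X1 * Y4 - X4 * Y1) * (i5 * θ + r5) = X1 * Y2 ^ 2 - X4 * Y3 ^ 2)
    (hb0 : (X2 * Y3 - X3 * Y2) * (-i0 - i0 * θ + r0) = X1 ^ 2 * Y3 - X4 ^ 2 * Y2)
    (hb1 : (X2 * Y3 - X3 * Y2) * (-i1 - i1 * θ + r1) = -X1 ^ 2 * X3 + X2 * X4 ^ 2)
    (hb2 : (X2 * Y3 - X3 * Y2) * (-i2 - i2 * θ + r2) = X1 * Y1 * Y3 - X4 * Y2 * Y4)
    (hb3 : (X2 * Y3 - X3 * Y2) * (-i3 - i3 * θ + r3) = -X1 * X3 * Y1 + X2 * X4 * Y4)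
    (hb4 : (X2 * Y3 - X3 * Y2) * (-i4 - i4 * θ + r4) = Y1 ^ 2 * Y3 - Y2 * Y4 ^ 2)
    (hb5 : (X2 * Y3 - X3 * Y2) * (-i5 - i5 * θ + r5) = X2 * Y4 ^ 2 - X3 * Y1 ^ 2) :
    i2 * m01 + 2 * i2 * m11 - i4 * m02 + i4 * m03 + 4 * i4 * m12 - i4 * m13 + i5 * m00 - 4 * i5 * m01 + 3 * i5 * m11 + m00 * r2 - m00 * r5 - 3 * m01 * r2 + 2 * m01 * r5 + 2 * m02 * r4 - 2 * m03 * r4 - 2 * m11 * r5 - 3 * m12 * r4 + 2 * m13 * r4 = 0 ∧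
    2 * i2 * m00 + i2 * m01 - i2 * m11 + 4 * i4 * m03 + 3 * i4 * m12 - 6 * i4 * m13 + 2 * i5 * m00 - 6 * i5 * m01 + 5 * i5 * m11 - m00 * r2 - m00 * r5 + 4 * m01 * r5 - 3 * m03 * r4 - m11 * r2 - 3 * m11 * r5 - m12 * r4 + 2 * m13 * r4 = 0 ∧
    i0 * m01 + i0 * m11 + 2 * i2 * m12 + 2 * i3 * m11 + i4 * m23 - i4 * m33 - i5 * m03 + i5 * m12 + 2 * i5 * m13 - m01 * r0 + m01 * r3 - m03 * r2 + m03 * r5 - 2 * m11 * r3 - 2 * m12 * r2 + 2 * m13 * r2 - 2 * m13 * r5 - 2 * m23 * r4 + 2 * m33 * r4 = 0 ∧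
    i0 * m01 - 2 * i2 * m02 + 2 * i2 * m03 + 2 * i2 * m12 - 2 * i2 * m13 - 3 * i3 * m01 + 3 * i3 * m11 - 3 * i4 * m23 + 3 * i4 * m33 - 2 * i5 * m02 + i5 * m03 + 2 * i5 * m12 - 2 * i5 * m13 + 3 * m01 * r3 + m02 * r2 + m02 * r5 - 2 * m03 * r2 - m11 * r0 - 2 * m11 * r3 - m12 * r2 - m12 * r5 + m13 * r2 + m13 * r5 + m23 * r4 - m33 * r4 = 0 ∧
    -i0 * m00 - i2 * m03 + 2 * i2 * m13 - 7 * i3 * m11 + i4 * m22 - 3 * i4 * m23 + 3 * i4 * m33 + 4 * i5 * m03 - 2 * i5 * m12 - 8 * i5 * m13 + m00 * r0 - m00 * r3 + 3 * m03 * r2 - 2 * m03 * r5 - m11 * r0 + 3 * m11 * r3 + 3 * m12 * r2 + 2 * m12 * r5 - 6 * m13 * r2 + 4 * m13 * r5 - 2 * m22 * r4 + 6 * m23 * r4 - 6 * m33 * r4 = 0 ∧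
    -i0 * m00 + i0 * m11 - i2 * m02 + i2 * m12 - i2 * m13 + 3 * i3 * m00 - i3 * m11 - 3 * i4 * m22 + 9 * i4 * m23 - 9 * i4 * m33 + 6 * i5 * m02 - 2 * i5 * m03 - 6 * i5 * m12 + 6 * i5 * m13 - 3 * m00 * r3 - 4 * m02 * r5 + 3 * m03 * r2 + 2 * m03 * r5 + m11 * r0 + 4 * m12 * r5 - 4 * m13 * r5 + m22 * r4 - 3 * m23 * r4 + 3 * m33 * r4 = 0 ∧
    -i0 * m00 - 2 * i2 * m03 - 3 * i2 * m12 + 4 * i2 * m13 - 2 * i3 * m00 + 7 * i3 * m01 - i4 * m22 + 3 * i4 * m23 - 2 * i4 * m33 - 3 * i5 * m03 + 2 * i5 * m12 + 6 * i5 * m13 + 2 * m00 * r3 + m01 * r0 - 3 * m01 * r3 + 2 * m03 * r5 - m12 * r2 - m12 * r5 - 4 * m13 * r5 + 2 * m22 * r4 - 6 * m23 * r4 + 4 * m33 * r4 = 0 ∧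
    -i0 * m01 + i2 * m02 - 3 * i2 * m03 - i2 * m12 + i2 * m13 - 3 * i3 * m00 + i3 * m01 + 3 * i4 * m22 - 9 * i4 * m23 + 6 * i4 * m33 - 5 * i5 * m02 + 2 * i5 * m03 + 5 * i5 * m12 - 5 * i5 * m13 + m00 * r0 + 2 * m00 * r3 - m01 * r0 + m02 * r2 + 3 * m02 * r5 - m03 * r2 - m03 * r5 - m12 * r2 - 3 * m12 * r5 + m13 * r2 + 3 * m13 * r5 - m22 * r4 + 3 * m23 * r4 - 2 * m33 * r4 = 0 ∧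
    -i0 * m02 + i0 * m03 - i0 * m13 + 3 * i1 * m11 - i2 * m23 + i2 * m33 + 3 * i3 * m12 + i5 * m22 + i5 * m23 - i5 * m33 + m02 * r0 - m02 * r3 - m03 * r0 + m03 * r3 - m11 * r1 - m12 * r0 - 2 * m12 * r3 + m13 * r0 - m13 * r3 + m22 * r2 - m22 * r5 + m23 * r5 - m33 * r5 = 0 ∧
    -i0 * m02 + i0 * m03 + i0 * m12 - i0 * m13 - 3 * i1 * m01 - 2 * i2 * m23 + 2 * i2 * m33 - 2 * i3 * m02 + 2 * i3 * m03 - i3 * m12 - 2 * i3 * m13 - i5 * m22 + i5 * m33 + m01 * r1 + 2 * m02 * r3 - 2 * m03 * r3 + m12 * r0 + 2 * m13 * r3 - m22 * r2 + m22 * r5 + 3 * m23 * r2 - m23 * r5 - 2 * m33 * r2 = 0 ∧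
    -i0 * m12 + 3 * i1 * m00 - 3 * i2 * m22 + 9 * i2 * m23 - 8 * i2 * m33 + 7 * i3 * m02 - 7 * i3 * m03 - 6 * i3 * m12 + 7 * i3 * m13 + i5 * m22 - 3 * i5 * m23 - i5 * m33 - m00 * r1 + m02 * r0 - 3 * m02 * r3 - m03 * r0 + 3 * m03 * r3 - 2 * m12 * r0 + 3 * m12 * r3 + m13 * r0 - 3 * m13 * r3 + 3 * m22 * r2 - 9 * m23 * r2 + 6 * m33 * r2 + 2 * m33 * r5 = 0 ∧
    -i0 * m12 + 2 * i0 * m13 - i1 * m11 + 2 * i2 * m22 - 7 * i2 * m23 + 7 * i2 * m33 + 3 * i3 * m03 + 3 * i3 * m12 - 6 * i3 * m13 + 2 * i5 * m22 - m03 * r0 - 2 * m03 * r3 + 2 * m11 * r1 - 3 * m12 * r3 + 6 * m13 * r3 - m22 * r2 - m22 * r5 + 3 * m23 * r2 - m23 * r5 - 3 * m33 * r2 + m33 * r5 = 0 ∧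
    i0 * m03 + i1 * m01 - 2 * i2 * m22 + 7 * i2 * m23 - 5 * i2 * m33 - i3 * m03 - 3 * i3 * m12 + 6 * i3 * m13 - 2 * i5 * m22 + i5 * m23 + i5 * m33 - 2 * m01 * r1 + m03 * r0 + m12 * r0 + 2 * m12 * r3 - 2 * m13 * r0 - 4 * m13 * r3 + m22 * r2 + m22 * r5 - 2 * m23 * r2 + m33 * r2 - m33 * r5 = 0 ∧
    -i0 * m03 - i0 * m12 + 2 * i0 * m13 - i1 * m00 + i2 * m33 - 6 * i3 * m03 + i3 * m12 - 2 * i3 * m13 + i5 * m22 - 3 * i5 * m23 - 3 * i5 * m33 + 2 * m00 * r1 - 2 * m03 * r0 + 3 * m03 * r3 - m12 * r0 + 2 * m13 * r0 + m22 * r2 - m22 * r5 - 3 * m23 * r2 + 3 * m23 * r5 + 3 * m33 * r2 + m33 * r5 = 0 ∧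
    -2 * i0 * m22 + 6 * i0 * m23 - 5 * i0 * m33 - 3 * i1 * m03 - 4 * i1 * m12 + 6 * i1 * m13 - 2 * i3 * m22 - i3 * m23 + i3 * m33 + m03 * r1 + 3 * m12 * r1 - 2 * m13 * r1 + m22 * r0 + m22 * r3 - 4 * m23 * r0 + 3 * m33 * r0 + m33 * r3 = 0 ∧
    -i0 * m22 + 4 * i0 * m23 - 3 * i0 * m33 + i1 * m02 - 4 * i1 * m03 - i1 * m12 + i1 * m13 - i3 * m23 - 2 * i3 * m33 - 2 * m02 * r1 + 3 * m03 * r1 + 2 * m12 * r1 - 2 * m13 * r1 + m22 * r0 - m22 * r3 - 2 * m23 * r0 + 3 * m23 * r3 + 2 * m33 * r0 = 0 := by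
  have n0 := ca2_nat0 hθ hD h1 h2 hF1 hF2 hG1 hG2 hH21 hH22 ha1 ha3 hb0 hb1 hb3
  have n1 := ca2_nat1 hθ hD h1 h2 hF1 hF2 hG0 hG1 hH21 hH22 ha3 ha5 hb0 hb1 hb2
  have n2 := ca2_nat2 hθ hD h1 h2 hF1 hF2 hG1 hG2 hH12 hH22 ha0 ha1 ha3 hb1 hb3
  have n3 := ca2_nat3 hθ hD h1 h2 hF1 hF2 hG1 hG2 hH11 hH21 ha2 ha3 ha5 hb1 hb3
  have n4 := ca2_nat4 hθ hD h1 h2 hG0 hG1 hG2 hH11 hH12 hH21 hH22 ha1 ha3 ha5 hb0 hb1 hb2 hb3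
  have n5 := ca2_nat5 hθ hD h1 h2 hF1 hF2 hG0 hG1 hH11 hH21 ha3 ha4 ha5 hb0 hb2
  have n6 := ca2_nat6 hθ hD h1 h2 hF0 hF2 hG1 hG2 hH11 hH12 hH21 hH22 ha0 ha1 ha2 ha3 hb1 hb2 hb3 hb5
  have n7 := ca2_nat7 hθ hD h1 h2 hF1 hF2 hG1 hG2 hH11 hH12 ha1 ha3 hb2 hb3 hb5
  have n8 := ca2_nat8 hθ hD h1 h2 hF0 hF2 hG0 hG1 hH11 hH12 hH21 hH22 ha2 ha3 ha4 ha5 hb0 hb2 hb3 hb4
  have n9 := ca2_nat9 hθ hD h1 h2 hF1 hF2 hG0 hG1 hH11 hH12 ha3 ha5 hb2 hb3 hb4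
  have n10 := ca2_nat10 hθ hD h1 h2 hF0 hF1 hG1 hG2 hH12 hH22 ha0 ha1 ha2 hb3 hb5
  have n11 := ca2_nat11 hθ hD h1 h2 hF0 hF1 hG1 hG2 hH11 hH21 ha2 ha3 ha4 hb3 hb5
  have n12 := ca2_nat12 hθ hD h1 h2 hG0 hG1 hG2 hH11 hH12 hH21 hH22 ha0 ha2 ha4 hb2 hb3 hb4 hb5
  have n13 := ca2_nat13 hθ hD h1 h2 hF0 hF1 hG0 hG1 hH11 hH21 ha2 ha4 ha5 hb2 hb4
  have n14 := ca2_nat14 hθ hD h1 h2 hF0 hF1 hG1 hG2 hH11 hH12 ha0 ha2 hb3 hb4 hb5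
  have n15 := ca2_nat15 hθ hD h1 h2 hF0 hF1 hG0 hG1 hH11 hH12 ha2 ha4 hb2 hb4 hb5
  refine ⟨?_, ?_, ?_, ?_, ?_, ?_, ?_, ?_, ?_, ?_, ?_, ?_, ?_, ?_, ?_, ?_⟩
  · linear_combination (-(2 / 5) + (1 / 5) * θ) * n13 + (-(1 / 5) - (2 / 5) * θ) * n15 +
      (-(3 / 5) * i2 * m00 - (2 / 5) * i2 * m00 * θ - (1 / 5) * i2 * m01 + (1 / 5) * i2 * m01 * θ - (2 / 5) * i2 * m01 * θ ^ 2 - 2 * i2 * m11 - (4 / 5) * i2 * m11 * θ + (4 / 5) * i2 * m11 * θ ^ 3 + (1 / 5) * i4 * m02 - (4 / 5) * i4 * m03 - (4 / 5) * i4 * m03 * θ - (2 / 5) * i4 * m03 * θ ^ 2 - 3 * i4 * m12 - (3 / 5) * i4 * m12 * θ - (4 / 5) * i4 * m12 * θ ^ 2 + (4 / 5) * i4 * m13 + (4 / 5) * i4 * m13 * θ + (8 / 5) * i4 * m13 * θ ^ 2 + (6 / 5) * i4 * m13 * θ ^ 3 - (4 / 5) * i5 * m00 - (2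 / 5) * i5 * m00 * θ + (18 / 5) * i5 * m01 + (8 / 5) * i5 * m01 * θ + (4 / 5) * i5 * m01 * θ ^ 2 - (14 / 5) * i5 * m11 - (8 / 5) * i5 * m11 * θ - (8 / 5) * i5 * m11 * θ ^ 2 - (2 / 5) * i5 * m11 * θ ^ 3 + (2 / 5) * m00 * r5 + (7 / 5) * m01 * r2 - (2 / 5) * m01 * r2 * θ - (8 / 5) * m01 * r5 - (4 / 5) * m01 * r5 * θ - (2 / 5) * m02 * r4 + (7 / 5) * m03 * r4 + (4 / 5) * m03 * r4 * θ + (2 / 5) * m11 * r2 + (3 / 5) * m11 * r2 * θ + (2 / 5) * m11 * r2 * θ ^ 2 + (9 / 5) * m11 * r5 + (4 / 5) * m11 * r5 * θ + (2 / 5) * m11 * r5 * θ ^ 2 + (8 / 5) * m12 * r4 - (2 / 5) * m12 * r4 * θ - (7 / 5) * m13 * r4 - (1 / 5) * m13 * r4 * θ) * hθ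
  · linear_combination (-(1 / 5) + (3 / 5) * θ) * n13 + (-(3 / 5) - (1 / 5) * θ) * n15 +
      (-(9 / 5) * i2 * m00 - (1 / 5) * i2 * m00 * θ - (3 / 5) * i2 * m01 - (2 / 5) * i2 * m01 * θ - (6 / 5) * i2 * m01 * θ ^ 2 + i2 * m11 + (8 / 5) * i2 * m11 * θ + 3 * i2 * m11 * θ ^ 2 + (7 / 5) * i2 * m11 * θ ^ 3 - (2 / 5) * i4 * m02 - (17 / 5) * i4 * m03 - (7 / 5) * i4 * m03 * θ - (6 / 5) * i4 * m03 * θ ^ 2 - 2 * i4 * m12 + (1 / 5) * i4 * m12 * θ - (2 / 5) * i4 * m12 * θ ^ 2 + (27 / 5) * i4 * m13 + (17 / 5) * i4 * m13 * θ + (24 / 5) * i4 * m13 * θ ^ 2 + (8 / 5) * i4 * m13 * θ ^ 3 - (7 / 5) * i5 * m00 - (1 / 5) * i5 * m00 * θ + (24 / 5) * i5 * m01 + (4 / 5) * i5 * m01 * θ + (2 / 5) * i5 * m01 * θ ^ 2 - (22 / 5) * i5 * m11 - (9 / 5) * i5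 * m11 * θ - (9 / 5) * i5 * m11 * θ ^ 2 - (1 / 5) * i5 * m11 * θ ^ 3 + m00 * r2 + (1 / 5) * m00 * r5 - (4 / 5) * m01 * r2 - (6 / 5) * m01 * r2 * θ - (14 / 5) * m01 * r5 - (2 / 5) * m01 * r5 * θ + (4 / 5) * m02 * r4 + (11 / 5) * m03 * r4 + (2 / 5) * m03 * r4 * θ + (6 / 5) * m11 * r2 + (4 / 5) * m11 * r2 * θ + (1 / 5) * m11 * r2 * θ ^ 2 + (12 / 5) * m11 * r5 + (2 / 5) * m11 * r5 * θ + (1 / 5) * m11 * r5 * θ ^ 2 - (1 / 5) * m12 * r4 - (6 / 5) * m12 * r4 * θ - (6 / 5) * m13 * r4 + (2 / 5) * m13 * r4 * θ) * hθ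
  · linear_combination ((1 / 5) * θ) * n5 + (-(1 / 5) - (1 / 5) * θ) * n8 + (-(1 / 5) - (2 / 5) * θ) * n9 + ((1 / 5) * θ) * n11 + ((1 / 5) * θ) * n12 + (-(1 / 5)) * n14 +
      ((1 / 5) * i0 * m00 + (1 / 5) * i0 * m00 * θ - i0 * m01 - (1 / 5) * i0 * m01 * θ - i0 * m11 - i0 * m11 * θ - (6 / 5) * i0 * m11 * θ ^ 2 - (1 / 5) * i0 * m11 * θ ^ 3 + (1 / 5) * i2 * m03 + (4 / 5) * i2 * m03 * θ + (4 / 5) * i2 * m03 * θ ^ 2 - (9 / 5) * i2 * m12 - (3 / 5) * i2 * m12 * θ - (2 / 5) * i2 * m12 * θ ^ 2 - (1 / 5) * i2 * m13 - i2 * m13 * θ - (7 / 5) * i2 * m13 * θ ^ 2 - (2 / 5) * i2 * m13 * θ ^ 3 + (2 / 5) * i3 * m00 + (2 / 5) * i3 * m00 * θ - (2 / 5) * i3 * m01 - (3 / 5) * i3 * m01 * θ - (2 / 5) * i3 * m01 * θ ^ 2 - (9 / 5) * i3 * m11 - i3 *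 m11 * θ - i3 * m11 * θ ^ 2 - (1 / 5) * i4 * m22 - (1 / 5) * i4 * m22 * θ - (3 / 5) * i4 * m23 + (2 / 5) * i4 * m23 * θ + (2 / 5) * i4 * m23 * θ ^ 2 + (4 / 5) * i4 * m33 - (1 / 5) * i4 * m33 * θ ^ 2 - (1 / 5) * i4 * m33 * θ ^ 3 + (2 / 5) * i5 * m02 + (2 / 5) * i5 * m02 * θ + (4 / 5) * i5 * m03 + (2 / 5) * i5 * m03 * θ + (2 / 5) * i5 * m03 * θ ^ 2 - (6 / 5) * i5 * m12 - i5 * m12 * θ - (4 / 5) * i5 * m12 * θ ^ 2 - (9 / 5) * i5 * m13 - i5 * m13 * θ - i5 * m13 * θ ^ 2 - (1 / 5) * m00 * r0 - (2 / 5) * m00 * r3 + m01 * r0 - (3 / 5) * m01 * r3 - (2 / 5) * m01 * r3 * θ - (2 / 5) * m02 * r5 + (4 / 5) * m03 * r2 - (4 / 5) * m03 * r5 - (2 / 5) * m03 * r5 * θ + (1 / 5) * m11 * r0 * θ + (1 / 5) * m11 * r0 * θ ^ 2 + (9 / 5) * m11 * r3 + m11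 * r3 * θ + (4 / 5) * m11 * r3 * θ ^ 2 + (9 / 5) * m12 * r2 + (2 / 5) * m12 * r2 * θ + (1 / 5) * m12 * r5 - (9 / 5) * m13 * r2 - (3 / 5) * m13 * r2 * θ - (2 / 5) * m13 * r2 * θ ^ 2 + (9 / 5) * m13 * r5 + m13 * r5 * θ + (4 / 5) * m13 * r5 * θ ^ 2 + (1 / 5) * m22 * r4 + (8 / 5) * m23 * r4 + (2 / 5) * m23 * r4 * θ - (9 / 5) * m33 * r4 - (4 / 5) * m33 * r4 * θ - (3 / 5) * m33 * r4 * θ ^ 2) * hθ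
  · linear_combination ((1 / 5) - (1 / 5) * θ) * n5 + (-(1 / 5)) * n8 + ((2 / 5) * θ) * n11 + (-(1 / 5)) * n12 + ((1 / 5) + (1 / 5) * θ) * n14 +
      (-(1 / 5) * i0 * m00 - (2 / 5) * i0 * m00 * θ - (3 / 5) * i0 * m01 + (2 / 5) * i0 * m01 * θ + (1 / 5) * i0 * m11 * θ + (3 / 5) * i0 * m11 * θ ^ 2 + (2 / 5) * i0 * m11 * θ ^ 3 + i2 * m02 - (4 / 5) * i2 * m02 * θ - (7 / 5) * i2 * m03 + (2 / 5) * i2 * m03 * θ + (2 / 5) * i2 * m03 * θ ^ 2 - (6 / 5) * i2 * m12 + (4 / 5) * i2 * m12 * θ + (2 / 5) * i2 * m12 * θ ^ 2 + (8 / 5) * i2 * m13 + (1 / 5) * i2 * m13 * θ + (1 / 5) * i2 * m13 * θ ^ 2 + (2 / 5) * i3 * m00 + (1 / 5) * i3 * m00 * θ + 2 * i3 * m01 + (2 / 5) * i3 * m01 * θ ^ 2 - (13 / 5) * i3 * m11 - (7 / 5) * i3 * m11 * θ - 2 * i3 *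 m11 * θ ^ 2 - (3 / 5) * i3 * m11 * θ ^ 3 - (1 / 5) * i4 * m22 - (3 / 5) * i4 * m22 * θ + (14 / 5) * i4 * m23 + (8 / 5) * i4 * m23 * θ + (6 / 5) * i4 * m23 * θ ^ 2 - (14 / 5) * i4 * m33 - (9 / 5) * i4 * m33 * θ - (11 / 5) * i4 * m33 * θ ^ 2 - (3 / 5) * i4 * m33 * θ ^ 3 + (9 / 5) * i5 * m02 + (2 / 5) * i5 * m02 * θ - (4 / 5) * i5 * m03 + (1 / 5) * i5 * m03 * θ + (2 / 5) * i5 * m03 * θ ^ 2 - 2 * i5 * m12 - i5 * m12 * θ - (2 / 5) * i5 * m12 * θ ^ 2 + (9 / 5) * i5 * m13 + (2 / 5) * i5 * m13 * θ - (1 / 5) * i5 * m13 * θ ^ 2 - (2 / 5) * i5 * m13 * θ ^ 3 - (3 / 5) * m00 * r3 - (8 / 5) * m01 * r3 + (2 / 5) * m01 * r3 * θ - (2 / 5) * m02 * r2 - (4 / 5) * m02 * r5 + (9 / 5) * m03 * r2 + (4 / 5) * m03 * r2 * θ + (4 / 5) * m11 * r0 + (7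 / 5) * m11 * r3 + (1 / 5) * m11 * r3 * θ ^ 2 + (3 / 5) * m12 * r2 + (6 / 5) * m12 * r5 + (4 / 5) * m12 * r5 * θ - m13 * r2 - (4 / 5) * m13 * r2 * θ - (2 / 5) * m13 * r2 * θ ^ 2 - m13 * r5 - (2 / 5) * m13 * r5 * θ - (1 / 5) * m22 * r4 - (2 / 5) * m23 * r4 + (2 / 5) * m23 * r4 * θ + (3 / 5) * m33 * r4 - (2 / 5) * m33 * r4 * θ - (1 / 5) * m33 * r4 * θ ^ 2) * hθ
  · linear_combination ((2 / 5) - (2 / 5) * θ) * n5 + ((1 / 5) + (1 / 5) * θ) * n8 + (-(1 / 5) + (3 / 5) * θ) * n9 + (-(1 / 5) - (3 / 5) * θ) * n11 + (-(1 / 5) * θ) * n12 + ((2 / 5) + (2 / 5) * θ) * n14 +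
      (-(4 / 5) * i0 * m00 * θ + (4 / 5) * i0 * m01 + (4 / 5) * i0 * m01 * θ + (4 / 5) * i0 * m11 * θ + (8 / 5) * i0 * m11 * θ ^ 2 + (4 / 5) * i0 * m11 * θ ^ 3 + (2 / 5) * i2 * m03 - (7 / 5) * i2 * m03 * θ - (6 / 5) * i2 * m03 * θ ^ 2 + (1 / 5) * i2 * m12 + (1 / 5) * i2 * m12 * θ - (2 / 5) * i2 * m12 * θ ^ 2 - (7 / 5) * i2 * m13 + (7 / 5) * i2 * m13 * θ + (14 / 5) * i2 * m13 * θ ^ 2 + (8 / 5) * i2 * m13 * θ ^ 3 - (3 / 5) * i3 * m00 - i3 * m00 * θ + (4 / 5) * i3 * m01 + 2 * i3 * m01 * θ + (6 / 5) * i3 * m01 * θ ^ 2 + (32 / 5) * i3 * m11 + (17 / 5) * i3 * m11 * θ + (17 / 5) * i3 * m11 * θ ^ 2 - (1 / 5) * i3 * m11 * θ ^ 3 - (1 / 5) * i4 * m22 + (1 / 5) * i4 * m22 * θ + (11 / 5) * i4 * m23 + (2 / 5) * i4 * m23 * θ - (2 / 5) * i4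 * m23 * θ ^ 2 - (13 / 5) * i4 * m33 - (4 / 5) * i4 * m33 * θ - (1 / 5) * i4 * m33 * θ ^ 2 + (1 / 5) * i4 * m33 * θ ^ 3 - (2 / 5) * i5 * m02 - (2 / 5) * i5 * m02 * θ - (18 / 5) * i5 * m03 - (8 / 5) * i5 * m03 * θ - (6 / 5) * i5 * m03 * θ ^ 2 + 2 * i5 * m12 + (6 / 5) * i5 * m12 * θ + (6 / 5) * i5 * m12 * θ ^ 2 + (38 / 5) * i5 * m13 + (24 / 5) * i5 * m13 * θ + (24 / 5) * i5 * m13 * θ ^ 2 + (2 / 5) * i5 * m13 * θ ^ 3 + m00 * r3 - (4 / 5) * m01 * r0 + (2 / 5) * m01 * r3 * θ + (2 / 5) * m02 * r5 - (11 / 5) * m03 * r2 + (2 / 5) * m03 * r2 * θ + 2 * m03 * r5 + (6 / 5) * m03 * r5 * θ + m11 * r0 - (14 / 5) * m11 * r3 - (8 / 5) * m11 * r3 * θ - (7 / 5) * m11 * r3 * θ ^ 2 - 3 * m12 * r2 - (6 / 5) * m12 * r2 * θ - (8 / 5) * m12 * r5 + (2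 / 5) * m12 * r5 * θ + (26 / 5) * m13 * r2 + (6 / 5) * m13 * r2 * θ + (4 / 5) * m13 * r2 * θ ^ 2 - 4 * m13 * r5 - (14 / 5) * m13 * r5 * θ - 2 * m13 * r5 * θ ^ 2 + (3 / 5) * m22 * r4 - (24 / 5) * m23 * r4 - 2 * m23 * r4 * θ + (27 / 5) * m33 * r4 + (12 / 5) * m33 * r4 * θ + (7 / 5) * m33 * r4 * θ ^ 2) * hθ
  · linear_combination (-(2 / 5) + (4 / 5) * θ) * n5 + ((1 / 5)) * n8 + ((1 / 5) + (2 / 5) * θ) * n9 + (-(2 / 5) - (1 / 5) * θ) * n11 + ((1 / 5)) * n12 + (-(4 / 5) - (2 / 5) * θ) * n14 +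
      ((8 / 5) * i0 * m00 + (6 / 5) * i0 * m00 * θ - (4 / 5) * i0 * m01 - (6 / 5) * i0 * m01 * θ - i0 * m11 - (8 / 5) * i0 * m11 * θ - (14 / 5) * i0 * m11 * θ ^ 2 - (6 / 5) * i0 * m11 * θ ^ 3 + 2 * i2 * m02 + (9 / 5) * i2 * m02 * θ - (2 / 5) * i2 * m03 - (3 / 5) * i2 * m03 * θ - (1 / 5) * i2 * m03 * θ ^ 2 - 2 * i2 * m12 - (13 / 5) * i2 * m12 * θ - i2 * m12 * θ ^ 2 + (6 / 5) * i2 * m13 + (3 / 5) * i2 * m13 * θ - (2 / 5) * i2 * m13 * θ ^ 2 - (3 / 5) * i2 * m13 * θ ^ 3 - (9 / 5) * i3 * m00 + (3 / 5) * i3 * m00 * θ - (1 / 5) * i3 * m01 - (1 / 5) * i3 * m01 * θ - (4 / 5) * i3 * m01 * θ ^ 2 + (4 / 5) * i3 * m11 + (1 / 5) * i3 * m11 * θ + (4 / 5) * i3 * m11 * θ ^ 2 + (1 / 5) * i3 * m11 * θ ^ 3 + (12 / 5) * i4 * m22 + (3 / 5) * i4 *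 m22 * θ - (38 / 5) * i4 * m23 - 2 * i4 * m23 * θ - (6 / 5) * i4 * m23 * θ ^ 2 + (41 / 5) * i4 * m33 + (21 / 5) * i4 * m33 * θ + (22 / 5) * i4 * m33 * θ ^ 2 + (3 / 5) * i4 * m33 * θ ^ 3 - (19 / 5) * i5 * m02 + (3 / 5) * i5 * m02 * θ + (6 / 5) * i5 * m03 - (3 / 5) * i5 * m03 * θ - i5 * m03 * θ ^ 2 + (23 / 5) * i5 * m12 + (2 / 5) * i5 * m12 * θ + (1 / 5) * i5 * m12 * θ ^ 2 - (26 / 5) * i5 * m13 - (9 / 5) * i5 * m13 * θ - (6 / 5) * i5 * m13 * θ ^ 2 + (1 / 5) * i5 * m13 * θ ^ 3 - (2 / 5) * m00 * r0 + (9 / 5) * m00 * r3 + (2 / 5) * m01 * r0 - (3 / 5) * m01 * r3 - (12 / 5) * m01 * r3 * θ - (3 / 5) * m02 * r2 + (9 / 5) * m02 * r5 - (13 / 5) * m03 * r2 - m03 * r2 * θ - (8 / 5) * m03 * r5 - (7 / 5) * m03 * r5 * θ - (4 / 5) * m11 * r0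 + (2 / 5) * m11 * r0 * θ + (2 / 5) * m11 * r0 * θ ^ 2 + (3 / 5) * m11 * r3 + (9 / 5) * m11 * r3 * θ + (3 / 5) * m11 * r3 * θ ^ 2 + m12 * r2 + (7 / 5) * m12 * r2 * θ - 3 * m12 * r5 - m12 * r5 * θ - (1 / 5) * m13 * r2 + (1 / 5) * m13 * r2 * θ ^ 2 + (18 / 5) * m13 * r5 + (9 / 5) * m13 * r5 * θ + (3 / 5) * m13 * r5 * θ ^ 2 - (1 / 5) * m22 * r4 + 2 * m23 * r4 + (2 / 5) * m23 * r4 * θ - (12 / 5) * m33 * r4 - (2 / 5) * m33 * r4 * θ - (1 / 5) * m33 * r4 * θ ^ 2) * hθ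
  · linear_combination (-(1 / 5) + (2 / 5) * θ) * n5 + ((1 / 5) + (1 / 5) * θ) * n8 + ((2 / 5) - (1 / 5) * θ) * n9 + ((3 / 5)) * n11 + (-(1 / 5) * θ) * n12 + (-(2 / 5) - (1 / 5) * θ) * n14 +
      ((6 / 5) * i0 * m00 + (3 / 5) * i0 * m00 * θ - (2 / 5) * i0 * m01 - (3 / 5) * i0 * m01 * θ - (2 / 5) * i0 * m11 * θ - i0 * m11 * θ ^ 2 - (3 / 5) * i0 * m11 * θ ^ 3 + 2 * i2 * m03 + i2 * m03 * θ + (2 / 5) * i2 * m03 * θ ^ 2 + (13 / 5) * i2 * m12 + (4 / 5) * i2 * m12 * θ + (4 / 5) * i2 * m12 * θ ^ 2 - 4 * i2 * m13 - (16 / 5) * i2 * m13 * θ - (19 / 5) * i2 * m13 * θ ^ 2 - (6 / 5) * i2 * m13 * θ ^ 3 + (6 / 5) * i3 * m00 + (2 / 5) * i3 * m00 * θ - (29 / 5) * i3 * m01 - (13 / 5) * i3 * m01 * θ - 2 * i3 * m01 * θ ^ 2 + (4 / 5) * i3 * m11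 * θ + (9 / 5) * i3 * m11 * θ ^ 2 + (8 / 5) * i3 * m11 * θ ^ 3 + (2 / 5) * i4 * m22 + (1 / 5) * i4 * m22 * θ - (11 / 5) * i4 * m23 - (4 / 5) * i4 * m23 * θ - (2 / 5) * i4 * m23 * θ ^ 2 + (8 / 5) * i4 * m33 + (2 / 5) * i4 * m33 * θ + (2 / 5) * i4 * m33 * θ ^ 2 + (1 / 5) * i4 * m33 * θ ^ 3 - (2 / 5) * i5 * m02 - (2 / 5) * i5 * m02 * θ + (13 / 5) * i5 * m03 + (1 / 5) * i5 * m03 * θ - (6 / 5) * i5 * m12 + (2 / 5) * i5 * m12 * θ - (2 / 5) * i5 * m12 * θ ^ 2 - (28 / 5) * i5 * m13 - (12 / 5) * i5 * m13 * θ - (7 / 5) * i5 * m13 * θ ^ 2 + (4 / 5) * i5 * m13 * θ ^ 3 - (1 / 5) * m00 * r0 - (2 / 5) * m00 * r3 - (3 / 5) * m01 * r0 + (7 / 5) * m01 * r3 + (2 / 5) * m01 * r3 * θ + (2 / 5) * m02 * r5 - (3 / 5) * m03 * r2 - (6 / 5) * m03 * r2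 * θ - (9 / 5) * m03 * r5 + (1 / 5) * m11 * r0 * θ + (1 / 5) * m11 * r0 * θ ^ 2 + (1 / 5) * m11 * r3 - (1 / 5) * m11 * r3 * θ + (4 / 5) * m12 * r2 - (6 / 5) * m12 * r5 * θ + (3 / 5) * m13 * r2 + (9 / 5) * m13 * r2 * θ + (6 / 5) * m13 * r2 * θ ^ 2 + (19 / 5) * m13 * r5 + (7 / 5) * m13 * r5 * θ + (4 / 5) * m13 * r5 * θ ^ 2 - (3 / 5) * m22 * r4 + 4 * m23 * r4 + (2 / 5) * m23 * r4 * θ - 3 * m33 * r4 + (1 / 5) * m33 * r4 * θ ^ 2) * hθ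
  · linear_combination ((2 / 5) - (3 / 5) * θ) * n5 + ((1 / 5)) * n8 + ((2 / 5) - (1 / 5) * θ) * n9 + ((1 / 5)) * n11 + ((1 / 5)) * n12 + ((3 / 5) + (2 / 5) * θ) * n14 +
      (-i0 * m00 - i0 * m00 * θ + (9 / 5) * i0 * m01 + i0 * m01 * θ + i0 * m11 * θ + 2 * i0 * m11 * θ ^ 2 + i0 * m11 * θ ^ 3 - 2 * i2 * m02 - (6 / 5) * i2 * m02 * θ + (14 / 5) * i2 * m03 + (1 / 5) * i2 * m03 * θ + (9 / 5) * i2 * m12 + (8 / 5) * i2 * m12 * θ + (2 / 5) * i2 * m12 * θ ^ 2 - i2 * m13 + (2 / 5) * i2 * m13 * θ + (7 / 5) * i2 * m13 * θ ^ 2 + (4 / 5) * i2 * m13 * θ ^ 3 + (9 / 5) * i3 * m00 - (3 / 5) * i3 * m00 * θ - (2 / 5) * i3 * m01 + (3 / 5) * i3 * m01 * θ + (4 / 5) * i3 * m01 * θ ^ 2 - (2 / 5) * i3 * m11 * θ ^ 2 - (1 / 5) * i3 * m11 * θ ^ 3 - (12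 / 5) * i4 * m22 - (2 / 5) * i4 * m22 * θ + (38 / 5) * i4 * m23 + (8 / 5) * i4 * m23 * θ + (4 / 5) * i4 * m23 * θ ^ 2 - (27 / 5) * i4 * m33 - (12 / 5) * i4 * m33 * θ - (12 / 5) * i4 * m33 * θ ^ 2 - (2 / 5) * i4 * m33 * θ ^ 3 + (16 / 5) * i5 * m02 - (2 / 5) * i5 * m02 * θ - (7 / 5) * i5 * m03 + (2 / 5) * i5 * m03 * θ ^ 2 - (19 / 5) * i5 * m12 - (1 / 5) * i5 * m12 * θ + (22 / 5) * i5 * m13 + (9 / 5) * i5 * m13 * θ + (7 / 5) * i5 * m13 * θ ^ 2 + (1 / 5) * m00 * r0 - m00 * r3 - (1 / 5) * m01 * r0 + (1 / 5) * m01 * r3 + (8 / 5) * m01 * r3 * θ + (2 / 5) * m02 * r2 - (6 / 5) * m02 * r5 + (3 / 5) * m03 * r2 + (4 / 5) * m03 * r2 * θ + (4 / 5) * m03 * r5 + (6 / 5) * m03 * r5 * θ + (1 / 5) * m11 * r0 - (1 / 5) * m11 * r0 * θ - (1 / 5) *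 m11 * r0 * θ ^ 2 - (2 / 5) * m11 * r3 - (7 / 5) * m11 * r3 * θ - (3 / 5) * m11 * r3 * θ ^ 2 - (2 / 5) * m12 * r2 - (6 / 5) * m12 * r2 * θ + (11 / 5) * m12 * r5 + (4 / 5) * m12 * r5 * θ - (2 / 5) * m13 * r2 + (1 / 5) * m13 * r2 * θ - (14 / 5) * m13 * r5 - (9 / 5) * m13 * r5 * θ - (4 / 5) * m13 * r5 * θ ^ 2 + (2 / 5) * m22 * r4 - (12 / 5) * m23 * r4 - (4 / 5) * m23 * r4 * θ + (9 / 5) * m33 * r4 + (4 / 5) * m33 * r4 * θ + (2 / 5) * m33 * r4 * θ ^ 2) * hθ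
  · linear_combination ((1 / 5)) * n1 + (-(1 / 5) - (1 / 5) * θ) * n3 + ((1 / 5) * θ) * n4 + (-(1 / 5) - (1 / 5) * θ) * n6 + (-(3 / 5) - (1 / 5) * θ) * n7 + ((1 / 5) * θ) * n10 +
      ((3 / 5) * i0 * m02 - (1 / 5) * i0 * m02 * θ - (4 / 5) * i0 * m03 - (1 / 5) * i0 * m03 * θ - (1 / 5) * i0 * m03 * θ ^ 2 + (1 / 5) * i0 * m12 + (3 / 5) * i0 * m12 * θ + (3 / 5) * i0 * m12 * θ ^ 2 + (4 / 5) * i0 * m13 - (1 / 5) * i0 * m13 * θ ^ 2 - (1 / 5) * i0 * m13 * θ ^ 3 - (14 / 5) * i1 * m11 - (8 / 5) * i1 * m11 * θ - (8 / 5) * i1 * m11 * θ ^ 2 + (3 / 5) * i2 * m23 - (2 / 5) * i2 * m23 * θ - (4 / 5) * i2 * m33 - (1 / 5) * i2 * m33 * θ - (2 / 5) * i2 * m33 * θ ^ 2 - (1 / 5) * i3 * m02 * θ + (1 / 5) * i3 * m03 + (3 / 5) * i3 * m03 * θ + (1 /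 5) * i3 * m03 * θ ^ 2 - (12 / 5) * i3 * m12 - (1 / 5) * i3 * m12 * θ ^ 2 - (1 / 5) * i3 * m13 - (3 / 5) * i3 * m13 * θ - (1 / 5) * i3 * m13 * θ ^ 2 + (1 / 5) * i3 * m13 * θ ^ 3 - (3 / 5) * i5 * m22 - i5 * m23 - (1 / 5) * i5 * m23 * θ - (2 / 5) * i5 * m23 * θ ^ 2 + i5 * m33 + (4 / 5) * i5 * m33 * θ + (6 / 5) * i5 * m33 * θ ^ 2 + (2 / 5) * i5 * m33 * θ ^ 3 - (3 / 5) * m02 * r0 + (3 / 5) * m02 * r3 + (4 / 5) * m03 * r0 + (1 / 5) * m03 * r0 * θ - m03 * r3 - (3 / 5) * m03 * r3 * θ + (4 / 5) * m11 * r1 + (4 / 5) * m12 * r0 + (1 / 5) * m12 * r0 * θ + (8 / 5) * m12 * r3 - (1 / 5) * m12 * r3 * θ - (4 / 5) * m13 * r0 + (1 / 5) * m13 * r0 * θ ^ 2 + m13 * r3 + (3 / 5) * m13 * r3 * θ + (1 / 5) * m13 * r3 * θ ^ 2 - (4 / 5) * m22 * r2 + (2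 / 5) * m22 * r5 + (2 / 5) * m23 * r2 + (4 / 5) * m23 * r2 * θ - (3 / 5) * m23 * r5 - (2 / 5) * m23 * r5 * θ - (1 / 5) * m33 * r2 - (2 / 5) * m33 * r2 * θ + (4 / 5) * m33 * r5 + (1 / 5) * m33 * r5 * θ) * hθ
  · linear_combination ((1 / 5) * θ) * n1 + ((1 / 5) - (1 / 5) * θ) * n3 + ((1 / 5) - (1 / 5) * θ) * n4 + ((2 / 5) + (1 / 5) * θ) * n6 + ((3 / 5) + (1 / 5) * θ) * n7 + (-(1 / 5)) * n10 +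
      ((4 / 5) * i0 * m02 + (1 / 5) * i0 * m02 * θ - (4 / 5) * i0 * m03 + (1 / 5) * i0 * m03 * θ ^ 2 - i0 * m12 - (4 / 5) * i0 * m12 * θ - (3 / 5) * i0 * m12 * θ ^ 2 + i0 * m13 + (4 / 5) * i0 * m13 * θ + (4 / 5) * i0 * m13 * θ ^ 2 + (1 / 5) * i0 * m13 * θ ^ 3 + (1 / 5) * i1 * m00 + (1 / 5) * i1 * m00 * θ + (12 / 5) * i1 * m01 + (2 / 5) * i1 * m01 * θ + (2 / 5) * i1 * m01 * θ ^ 2 - (1 / 5) * i1 * m11 * θ - (3 / 5) * i1 * m11 * θ ^ 2 - (3 / 5) * i1 * m11 * θ ^ 3 - (1 / 5) * i2 * m22 * θ + (9 / 5) * i2 * m23 + (4 / 5) * i2 * m23 * θ + (2 / 5) * i2 * m23 * θ ^ 2 - (9 / 5) * i2 * m33 - (4 / 5) * i2 * m33 * θ - (4 / 5) * i2 * m33 * θ ^ 2 - (1 / 5) * i2 * m33 * θ ^ 3 + (7 / 5) * i3 * m02 + (3 / 5) * i3 * m02 * θ - (7 / 5) * i3 * m03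 - (1 / 5) * i3 * m03 * θ - (1 / 5) * i3 * m03 * θ ^ 2 + (3 / 5) * i3 * m12 - (6 / 5) * i3 * m12 * θ - (3 / 5) * i3 * m12 * θ ^ 2 + (9 / 5) * i3 * m13 + (6 / 5) * i3 * m13 * θ + (6 / 5) * i3 * m13 * θ ^ 2 + (1 / 5) * i3 * m13 * θ ^ 3 + (2 / 5) * i5 * m22 + (2 / 5) * i5 * m23 - (1 / 5) * i5 * m23 * θ - (2 / 5) * i5 * m23 * θ ^ 2 - i5 * m33 - (1 / 5) * i5 * m33 * θ + (1 / 5) * i5 * m33 * θ ^ 2 + (2 / 5) * i5 * m33 * θ ^ 3 - (1 / 5) * m00 * r1 - (4 / 5) * m01 * r1 - (2 / 5) * m01 * r1 * θ + (1 / 5) * m02 * r0 - (3 / 5) * m02 * r3 + (1 / 5) * m03 * r0 * θ + (4 / 5) * m03 * r3 - (3 / 5) * m03 * r3 * θ + (1 / 5) * m11 * r1 + (4 / 5) * m11 * r1 * θ + (3 / 5) * m11 * r1 * θ ^ 2 - (4 / 5) * m12 * r0 + (1 / 5) * m12 * r0 * θ - (1 / 5)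 * m12 * r3 + (3 / 5) * m12 * r3 * θ - (1 / 5) * m13 * r0 - (4 / 5) * m13 * r0 * θ - (3 / 5) * m13 * r0 * θ ^ 2 - (6 / 5) * m13 * r3 + (3 / 5) * m13 * r3 * θ + (3 / 5) * m13 * r3 * θ ^ 2 + (3 / 5) * m22 * r2 - (12 / 5) * m23 * r2 - (2 / 5) * m23 * r2 * θ - (1 / 5) * m23 * r5 - (2 / 5) * m23 * r5 * θ + (8 / 5) * m33 * r2 - (1 / 5) * m33 * r2 * θ ^ 2 + (2 / 5) * m33 * r5 + (3 / 5) * m33 * r5 * θ + (2 / 5) * m33 * r5 * θ ^ 2) * hθ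
  · linear_combination ((1 / 5) - (1 / 5) * θ) * n1 + (-(2 / 5) + θ) * n3 + (-(1 / 5) + (2 / 5) * θ) * n4 + (-(3 / 5) - (2 / 5) * θ) * n6 + (-(1 / 5) - (2 / 5) * θ) * n7 + ((1 / 5) + (1 / 5) * θ) * n10 +
      (-(1 / 5) * i0 * m02 - (2 / 5) * i0 * m02 * θ - (1 / 5) * i0 * m03 * θ - (2 / 5) * i0 * m03 * θ ^ 2 + (6 / 5) * i0 * m12 + (7 / 5) * i0 * m12 * θ + (6 / 5) * i0 * m12 * θ ^ 2 - (1 / 5) * i0 * m13 - (4 / 5) * i0 * m13 * θ - i0 * m13 * θ ^ 2 - (2 / 5) * i0 * m13 * θ ^ 3 - (16 / 5) * i1 * m00 - (6 / 5) * i1 * m00 * θ + (3 / 5) * i1 * m01 + (3 / 5) * i1 * m01 * θ - (2 / 5) * i1 * m01 * θ ^ 2 + (1 / 5) * i1 * m11 + (8 / 5) * i1 * m11 * θ + 3 * i1 * m11 * θ ^ 2 + (8 / 5) * i1 * m11 * θ ^ 3 + 2 * i2 * m22 + (1 / 5) * i2 * m22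 * θ - (36 / 5) * i2 * m23 - (6 / 5) * i2 * m23 * θ - (2 / 5) * i2 * m23 * θ ^ 2 + 7 * i2 * m33 + (13 / 5) * i2 * m33 * θ + (12 / 5) * i2 * m33 * θ ^ 2 + (1 / 5) * i2 * m33 * θ ^ 3 - (32 / 5) * i3 * m02 - (14 / 5) * i3 * m02 * θ + (28 / 5) * i3 * m03 + (4 / 5) * i3 * m03 * θ + (2 / 5) * i3 * m03 * θ ^ 2 + 6 * i3 * m12 + (21 / 5) * i3 * m12 * θ + (12 / 5) * i3 * m12 * θ ^ 2 - 6 * i3 * m13 - (9 / 5) * i3 * m13 * θ - (7 / 5) * i3 * m13 * θ ^ 2 - i5 * m22 - i5 * m22 * θ + (13 / 5) * i5 * m23 + 2 * i5 * m23 * θ + 2 * i5 * m23 * θ ^ 2 + i5 * m33 - i5 * m33 * θ ^ 2 - i5 * m33 * θ ^ 3 + (6 / 5) * m00 * r1 - (1 / 5) * m01 * r1 + (2 / 5) * m01 * r1 * θ - (4 / 5) * m02 * r0 + (6 / 5) * m02 * r3 + (4 / 5) * m03 * r0 - (4 / 5) * m03 * r3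 + 2 * m03 * r3 * θ - (2 / 5) * m11 * r1 - (9 / 5) * m11 * r1 * θ - (8 / 5) * m11 * r1 * θ ^ 2 + (8 / 5) * m12 * r0 - (11 / 5) * m12 * r3 - (4 / 5) * m12 * r3 * θ - (3 / 5) * m13 * r0 + (4 / 5) * m13 * r0 * θ + (4 / 5) * m13 * r0 * θ ^ 2 + (6 / 5) * m13 * r3 - 3 * m13 * r3 * θ - (12 / 5) * m13 * r3 * θ ^ 2 - (7 / 5) * m22 * r2 - (3 / 5) * m22 * r5 + (34 / 5) * m23 * r2 + (6 / 5) * m23 * r2 * θ + (8 / 5) * m23 * r5 + 2 * m23 * r5 * θ - (24 / 5) * m33 * r2 - (2 / 5) * m33 * r2 * θ + (1 / 5) * m33 * r2 * θ ^ 2 - (13 / 5) * m33 * r5 - (12 / 5) * m33 * r5 * θ - (7 / 5) * m33 * r5 * θ ^ 2) * hθ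
  · linear_combination (-(1 / 5) * θ) * n1 + ((2 / 5) - (3 / 5) * θ) * n3 + ((1 / 5)) * n4 + ((1 / 5)) * n6 + (-(1 / 5) - (2 / 5) * θ) * n7 + ((1 / 5)) * n10 +
      (-(1 / 5) * i0 * m02 - (1 / 5) * i0 * m02 * θ + (1 / 5) * i0 * m03 + (2 / 5) * i0 * m03 * θ + (1 / 5) * i0 * m03 * θ ^ 2 + i0 * m12 + (2 / 5) * i0 * m12 * θ + (1 / 5) * i0 * m12 * θ ^ 2 - 2 * i0 * m13 - (7 / 5) * i0 * m13 * θ - (7 / 5) * i0 * m13 * θ ^ 2 - (1 / 5) * i0 * m13 * θ ^ 3 + (4 / 5) * i1 * m00 + (6 / 5) * i1 * m00 * θ - i1 * m01 - (9 / 5) * i1 * m01 * θ - (2 / 5) * i1 * m01 * θ ^ 2 + i1 * m11 - i1 * m11 * θ ^ 2 - (4 / 5) * i1 * m11 * θ ^ 3 - (8 / 5) * i2 * m22 - (2 / 5) * i2 * m22 * θ + 6 * i2 * m23 + (8 / 5) * i2 * m23 * θ + (4 / 5) * i2 * m23 * θ ^ 2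 - (32 / 5) * i2 * m33 - (16 / 5) * i2 * m33 * θ - (16 / 5) * i2 * m33 * θ ^ 2 - (2 / 5) * i2 * m33 * θ ^ 3 + i3 * m02 + (11 / 5) * i3 * m02 * θ - (14 / 5) * i3 * m03 - (6 / 5) * i3 * m03 * θ - (3 / 5) * i3 * m03 * θ ^ 2 - (17 / 5) * i3 * m12 - (14 / 5) * i3 * m12 * θ - (7 / 5) * i3 * m12 * θ ^ 2 + (27 / 5) * i3 * m13 + 2 * i3 * m13 * θ + (7 / 5) * i3 * m13 * θ ^ 2 - (1 / 5) * i3 * m13 * θ ^ 3 - (6 / 5) * i5 * m22 + (4 / 5) * i5 * m22 * θ - (2 / 5) * i5 * m23 - (7 / 5) * i5 * m23 * θ - (6 / 5) * i5 * m23 * θ ^ 2 + (1 / 5) * i5 * m33 * θ + (3 / 5) * i5 * m33 * θ ^ 2 + (2 / 5) * i5 * m33 * θ ^ 3 - (2 / 5) * m00 * r1 + (3 / 5) * m01 * r1 + (2 / 5) * m01 * r1 * θ + (1 / 5) * m02 * r0 + (1 / 5) * m02 * r3 + (3 / 5) * m03 * r0 - (1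 / 5) * m03 * r0 * θ + m03 * r3 - m03 * r3 * θ - (9 / 5) * m11 * r1 - (1 / 5) * m11 * r1 * θ - (1 / 5) * m12 * r0 - (1 / 5) * m12 * r0 * θ + (13 / 5) * m12 * r3 + (3 / 5) * m12 * r3 * θ + (1 / 5) * m13 * r0 + (2 / 5) * m13 * r0 * θ + (1 / 5) * m13 * r0 * θ ^ 2 - (23 / 5) * m13 * r3 + (2 / 5) * m13 * r3 * θ + (1 / 5) * m13 * r3 * θ ^ 2 + (2 / 5) * m22 * r2 + (4 / 5) * m22 * r5 - (12 / 5) * m23 * r2 - (4 / 5) * m23 * r2 * θ + (1 / 5) * m23 * r5 - (6 / 5) * m23 * r5 * θ + (13 / 5) * m33 * r2 + (4 / 5) * m33 * r2 * θ + (2 / 5) * m33 * r2 * θ ^ 2 - (2 / 5) * m33 * r5 + m33 * r5 * θ + (2 / 5) * m33 * r5 * θ ^ 2) * hθ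
  · linear_combination (-(1 / 5) + (1 / 5) * θ) * n1 + (-(2 / 5) + (2 / 5) * θ) * n3 + ((1 / 5) * θ) * n4 + (-(1 / 5) - (1 / 5) * θ) * n6 + (-(1 / 5) - (1 / 5) * θ) * n10 +
      ((2 / 5) * i0 * m02 + (2 / 5) * i0 * m02 * θ - (6 / 5) * i0 * m03 - i0 * m03 * θ - (4 / 5) * i0 * m03 * θ ^ 2 - (1 / 5) * i0 * m12 - (1 / 5) * i0 * m12 * θ + (1 / 5) * i0 * m13 + (3 / 5) * i0 * m13 * θ + (4 / 5) * i0 * m13 * θ ^ 2 + (2 / 5) * i0 * m13 * θ ^ 3 - (4 / 5) * i1 * m00 - i1 * m00 * θ + (1 / 5) * i1 * m01 + (8 / 5) * i1 * m01 * θ + (2 / 5) * i1 * m01 * θ ^ 2 - (1 / 5) * i1 * m11 + (4 / 5) * i1 * m11 * θ ^ 2 + (3 / 5) * i1 * m11 * θ ^ 3 + (9 / 5) * i2 * m22 + (3 / 5) * i2 * m22 * θ - (31 / 5) * i2 * m23 - 2 * i2 * m23 * θ - (6 / 5) * i2 * m23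 * θ ^ 2 + (23 / 5) * i2 * m33 + (12 / 5) * i2 * m33 * θ + (13 / 5) * i2 * m33 * θ ^ 2 + (3 / 5) * i2 * m33 * θ ^ 3 - (4 / 5) * i3 * m02 - (8 / 5) * i3 * m02 * θ + i3 * m03 + (2 / 5) * i3 * m03 * θ + (17 / 5) * i3 * m12 + (14 / 5) * i3 * m12 * θ + (8 / 5) * i3 * m12 * θ ^ 2 - (28 / 5) * i3 * m13 - (14 / 5) * i3 * m13 * θ - (12 / 5) * i3 * m13 * θ ^ 2 + (7 / 5) * i5 * m22 - (2 / 5) * i5 * m22 * θ - (3 / 5) * i5 * m23 + (4 / 5) * i5 * m23 * θ + (4 / 5) * i5 * m23 * θ ^ 2 - i5 * m33 - i5 * m33 * θ - (7 / 5) * i5 * m33 * θ ^ 2 - (2 / 5) * i5 * m33 * θ ^ 3 + (3 / 5) * m00 * r1 + (4 / 5) * m01 * r1 - (2 / 5) * m01 * r1 * θ - (2 / 5) * m02 * r0 - (3 / 5) * m03 * r0 + (2 / 5) * m03 * r3 + (4 / 5) * m03 * r3 * θ + (1 / 5) * m11 * r1 -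 (1 / 5) * m11 * r1 * θ ^ 2 - (3 / 5) * m12 * r0 - 2 * m12 * r3 - (4 / 5) * m12 * r3 * θ + (8 / 5) * m13 * r0 + (2 / 5) * m13 * r0 * θ + (2 / 5) * m13 * r0 * θ ^ 2 + (16 / 5) * m13 * r3 - (3 / 5) * m22 * r2 - (4 / 5) * m22 * r5 + (8 / 5) * m23 * r2 + (2 / 5) * m23 * r2 * θ + (2 / 5) * m23 * r5 + (4 / 5) * m23 * r5 * θ - (4 / 5) * m33 * r2 + (1 / 5) * m33 * r2 * θ ^ 2 + (3 / 5) * m33 * r5 - (2 / 5) * m33 * r5 * θ) * hθ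
  · linear_combination ((1 / 5) - (2 / 5) * θ) * n1 + (-(1 / 5)) * n3 + ((1 / 5) - (1 / 5) * θ) * n4 + ((2 / 5) + (1 / 5) * θ) * n6 + ((4 / 5) + (3 / 5) * θ) * n7 + ((2 / 5) + (1 / 5) * θ) * n10 +
      (-(3 / 5) * i0 * m02 - (3 / 5) * i0 * m02 * θ + (7 / 5) * i0 * m03 + (7 / 5) * i0 * m03 * θ + i0 * m03 * θ ^ 2 + (6 / 5) * i0 * m12 + (3 / 5) * i0 * m12 * θ + (1 / 5) * i0 * m12 * θ ^ 2 - (11 / 5) * i0 * m13 - 2 * i0 * m13 * θ - (11 / 5) * i0 * m13 * θ ^ 2 - (3 / 5) * i0 * m13 * θ ^ 3 + (3 / 5) * i1 * m00 + (1 / 5) * i1 * m00 * θ - (1 / 5) * i1 * m01 - (7 / 5) * i1 * m01 * θ - (4 / 5) * i1 * m01 * θ ^ 2 + (1 / 5) * i1 * m11 + i1 * m11 * θ + (6 / 5) * i1 * m11 * θ ^ 2 + (3 / 5) * i1 * m11 * θ ^ 3 - (2 / 5) * i2 * m22 + (1 / 5)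 * i2 * m23 - (2 / 5) * i2 * m23 * θ - i2 * m33 - (3 / 5) * i2 * m33 * θ - (4 / 5) * i2 * m33 * θ ^ 2 - (1 / 5) * i3 * m02 - (1 / 5) * i3 * m02 * θ + (26 / 5) * i3 * m03 + (7 / 5) * i3 * m03 * θ + (7 / 5) * i3 * m03 * θ ^ 2 - (4 / 5) * i3 * m12 - (3 / 5) * i3 * m12 * θ - i3 * m12 * θ ^ 2 + 2 * i3 * m13 + (9 / 5) * i3 * m13 * θ + (9 / 5) * i3 * m13 * θ ^ 2 - (1 / 5) * i3 * m13 * θ ^ 3 - (3 / 5) * i5 * m22 + (1 / 5) * i5 * m22 * θ + (11 / 5) * i5 * m23 - (1 / 5) * i5 * m23 * θ + 3 * i5 * m33 + (11 / 5) * i5 * m33 * θ + 2 * i5 * m33 * θ ^ 2 - (1 / 5) * i5 * m33 * θ ^ 3 - m00 * r1 - (1 / 5) * m01 * r1 + (4 / 5) * m01 * r1 * θ + (3 / 5) * m02 * r0 + (1 / 5) * m02 * r3 + (6 / 5) * m03 * r0 - (1 / 5) * m03 * r0 * θ - (12 / 5) * m03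 * r3 + (1 / 5) * m03 * r3 * θ - (1 / 5) * m11 * r1 * θ + (1 / 5) * m11 * r1 * θ ^ 2 + (2 / 5) * m12 * r0 - (1 / 5) * m12 * r0 * θ - (2 / 5) * m12 * r3 - (3 / 5) * m12 * r3 * θ - (7 / 5) * m13 * r0 - (1 / 5) * m13 * r0 * θ ^ 2 + (1 / 5) * m13 * r3 + (2 / 5) * m13 * r3 * θ + (1 / 5) * m13 * r3 * θ ^ 2 + (3 / 5) * m22 * r5 + 2 * m23 * r2 + (4 / 5) * m23 * r2 * θ - (11 / 5) * m23 * r5 - (13 / 5) * m33 * r2 - (6 / 5) * m33 * r2 * θ - (4 / 5) * m33 * r2 * θ ^ 2 - m33 * r5 - (3 / 5) * m33 * r5 * θ - (3 / 5) * m33 * r5 * θ ^ 2) * hθ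
  · linear_combination ((3 / 5) + (1 / 5) * θ) * n0 + (-(1 / 5) + (3 / 5) * θ) * n2 +
      ((7 / 5) * i0 * m22 + (1 / 5) * i0 * m22 * θ - (24 / 5) * i0 * m23 - (4 / 5) * i0 * m23 * θ - (2 / 5) * i0 * m23 * θ ^ 2 + (22 / 5) * i0 * m33 + (9 / 5) * i0 * m33 * θ + (9 / 5) * i0 * m33 * θ ^ 2 + (1 / 5) * i0 * m33 * θ ^ 3 + (2 / 5) * i1 * m02 + 2 * i1 * m03 - (1 / 5) * i1 * m03 * θ + (2 / 5) * i1 * m03 * θ ^ 2 + (17 / 5) * i1 * m12 + (7 / 5) * i1 * m12 * θ + (6 / 5) * i1 * m12 * θ ^ 2 - (27 / 5) * i1 * m13 - (17 / 5) * i1 * m13 * θ - (24 / 5) * i1 * m13 * θ ^ 2 - (8 / 5) * i1 * m13 * θ ^ 3 + (9 / 5) * i3 * m22 + (1 / 5) * i3 * m22 * θ + (3 / 5) * i3 * m23 + (2 / 5) * i3 * m23 * θ + (6 / 5) * i3 * m23 * θ ^ 2 - i3 * m33 - (8 / 5) *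 i3 * m33 * θ - 3 * i3 * m33 * θ ^ 2 - (7 / 5) * i3 * m33 * θ ^ 3 - (4 / 5) * m02 * r1 + (1 / 5) * m03 * r1 + (6 / 5) * m03 * r1 * θ - (11 / 5) * m12 * r1 - (2 / 5) * m12 * r1 * θ + (6 / 5) * m13 * r1 - (2 / 5) * m13 * r1 * θ - (1 / 5) * m22 * r0 - m22 * r3 + (14 / 5) * m23 * r0 + (2 / 5) * m23 * r0 * θ + (4 / 5) * m23 * r3 + (6 / 5) * m23 * r3 * θ - (12 / 5) * m33 * r0 - (2 / 5) * m33 * r0 * θ - (1 / 5) * m33 * r0 * θ ^ 2 - (6 / 5) * m33 * r3 - (4 / 5) * m33 * r3 * θ - (1 / 5) * m33 * r3 * θ ^ 2) * hθ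
  · linear_combination ((1 / 5) + (2 / 5) * θ) * n0 + (-(2 / 5) + (1 / 5) * θ) * n2 +
      ((4 / 5) * i0 * m22 + (2 / 5) * i0 * m22 * θ - (18 / 5) * i0 * m23 - (8 / 5) * i0 * m23 * θ - (4 / 5) * i0 * m23 * θ ^ 2 + (14 / 5) * i0 * m33 + (8 / 5) * i0 * m33 * θ + (8 / 5) * i0 * m33 * θ ^ 2 + (2 / 5) * i0 * m33 * θ ^ 3 - (1 / 5) * i1 * m02 + 3 * i1 * m03 + (3 / 5) * i1 * m03 * θ + (4 / 5) * i1 * m03 * θ ^ 2 + (4 / 5) * i1 * m12 + (4 / 5) * i1 * m12 * θ + (2 / 5) * i1 * m12 * θ ^ 2 - (4 / 5) * i1 * m13 - (4 / 5) * i1 * m13 * θ - (8 / 5) * i1 * m13 * θ ^ 2 - (6 / 5) * i1 * m13 * θ ^ 3 + (3 / 5) * i3 * m22 + (2 / 5) * i3 * m22 * θ + (1 / 5) * i3 * m23 - (1 / 5) * i3 * m23 * θ + (2 / 5) * i3 * m23 * θ ^ 2 + 2 * i3 * m33 + (4 / 5) *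 i3 * m33 * θ - (4 / 5) * i3 * m33 * θ ^ 3 + (2 / 5) * m02 * r1 - (8 / 5) * m03 * r1 + (2 / 5) * m03 * r1 * θ - (7 / 5) * m12 * r1 - (4 / 5) * m12 * r1 * θ + (7 / 5) * m13 * r1 + (1 / 5) * m13 * r1 * θ - (2 / 5) * m22 * r0 + (8 / 5) * m23 * r0 + (4 / 5) * m23 * r0 * θ - (7 / 5) * m23 * r3 + (2 / 5) * m23 * r3 * θ - (9 / 5) * m33 * r0 - (4 / 5) * m33 * r0 * θ - (2 / 5) * m33 * r0 * θ ^ 2 - (2 / 5) * m33 * r3 - (3 / 5) * m33 * r3 * θ - (2 / 5) * m33 * r3 * θ ^ 2) * hθ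

theorem ann_of {X Y l : Fin 5 → ℂ} {m : Matrix (Fin 4) (Fin 4) ℤ} {s : Fin 6 → O}
    (hc : d1 X Y = -(th1 : ℂ) * d2 X Y) (h2 : d2 X Y ≠ 0) (hm : MF X Y l m) (hs : SCO X Y s) :
    gam (tau m) (iota s) = 0 := by
  have hθ : (th1 : ℂ) ^ 2 + th1 - 1 = 0 := by
    have h : ((th1 * th1 : ℝ) : ℂ) = ((1 - th1 : ℝ) : ℂ) := by rw [th1_sq]
    push_cast at h
    linear_combination h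
  have h0 : (th1 : ℂ) ≠ 0 := by
    intro h
    rw [h] at hθ
    norm_num at hθ
  have ht : (th2 : ℂ) = -1 - th1 := by rw [th2_eq]; push_cast; ring
  have h1 : d1 X Y ≠ 0 := by rw [hc]; exact mul_ne_zero (neg_ne_zero.2 h0) h2
  have e : ∀ i j, m j i = m i j := fun i j => hm.1.apply i j
  have F := cramer2 (hm.eq 1 1 (by decide) (by decide)) (hm.eq 1 4 (by decide) (by decide))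
    (hm.eq 4 1 (by decide) (by decide)) (hm.eq 4 4 (by decide) (by decide))
  have G := cramer2 (hm.eq 2 2 (by decide) (by decide)) (hm.eq 2 3 (by decide) (by decide))
    (hm.eq 3 2 (by decide) (by decide)) (hm.eq 3 3 (by decide) (by decide))
  have H := cramer2 (hm.eq 1 2 (by decide) (by decide)) (hm.eq 1 3 (by decide) (by decide))
    (hm.eq 4 2 (by decide) (by decide)) (hm.eq 4 3 (by decide) (by decide))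
  simp only [ec_om, ht, pc, Fin.reduceAdd, e 0 1, e 0 2, e 0 3, e 1 2, e 1 3, e 2 3] at F G H
  obtain ⟨⟨a0, a1, a2⟩, ⟨a3, a4, a5⟩, ⟨b0, b1, b2⟩, ⟨b3, b4, b5⟩⟩ := hs
  have A0 := cramer1 a0 a3
  have A1 := cramer1 a1 a4
  have A2 := cramer1 a2 a5
  have B0 := cramer1 b0 b3
  have B1 := cramer1 b1 b4
  have B2 := cramer1 b2 b5
  simp only [c1_apply, c2_apply, e1_apply, e2_apply, Complex.ofReal_add, Complex.ofReal_mul,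
    Complex.ofReal_intCast, ht] at A0 A1 A2 B0 B1 B2
  have K := ca2_core (θ := (th1 : ℂ)) (X1 := X 1) (Y1 := Y 1) (X2 := X 2) (Y2 := Y 2) (X3 := X 3) (Y3 := Y 3) (X4 := X 4) (Y4 := Y 4) (l0 := l 0) (l1 := l 1) (l2 := l 2) (l3 := l 3) (l4 := l 4) (m00 := (m 0 0 : ℂ)) (m01 := (m 0 1 : ℂ)) (m02 := (m 0 2 : ℂ)) (m03 := (m 0 3 : ℂ)) (m11 := (m 1 1 : ℂ)) (m12 := (m 1 2 : ℂ)) (m13 := (m 1 3 : ℂ)) (m22 := (m 2 2 : ℂ)) (m23 := (m 2 3 : ℂ)) (m33 := (m 3 3 : ℂ)) (r0 := ((s 0).re : ℂ)) (i0 := ((s 0).im : ℂ)) (r1 := ((s 1).re : ℂ)) (i1 := ((s 1).im : ℂ)) (r2 := ((s 2).re : ℂ)) (i2 := ((s 2).im : ℂ)) (r3 := ((s 3).re : ℂ)) (i3 := ((s 3).im : ℂ)) (r4 := ((s 4).re : ℂ)) (i4 := ((s 4).im : ℂ)) (r5 := ((s 5).re : ℂ)) (i5 := ((s 5).im : ℂ))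
    hθ hc h1 h2
    (by linear_combination F.1)
    (by linear_combination F.2.1)
    (by linear_combination F.2.2.2)
    (by linear_combination G.1)
    (by linear_combination G.2.1)
    (by linear_combination G.2.2.2)
    (by linear_combination H.1)
    (by linear_combination H.2.1)
    (by linear_combination H.2.2.1)
    (by linear_combination H.2.2.2)
    (by linear_combination A0.1)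
    (by linear_combination A0.2)
    (by linear_combination A1.1)
    (by linear_combination A1.2)
    (by linear_combination A2.1)
    (by linear_combination A2.2)
    (by linear_combination B0.1)
    (by linear_combination B0.2)
    (by linear_combination B1.1)
    (by linear_combination B1.2)
    (by linear_combination B2.1)
    (by linear_combination B2.2)
  apply ext16 <;> apply Int.cast_injective (α := ℂ) <;>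
    simp only [gam_c, tau_c, iota_c, Pi.zero_apply] <;> push_cast
  · linear_combination K.1
  · linear_combination K.2.1
  · linear_combination K.2.2.1
  · linear_combination K.2.2.2.1
  · linear_combination K.2.2.2.2.1
  · linear_combination K.2.2.2.2.2.1
  · linear_combination K.2.2.2.2.2.2.1
  · linear_combination K.2.2.2.2.2.2.2.1
  · linear_combination K.2.2.2.2.2.2.2.2.1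
  · linear_combination K.2.2.2.2.2.2.2.2.2.1
  · linear_combination K.2.2.2.2.2.2.2.2.2.2.1
  · linear_combination K.2.2.2.2.2.2.2.2.2.2.2.1
  · linear_combination K.2.2.2.2.2.2.2.2.2.2.2.2.1
  · linear_combination K.2.2.2.2.2.2.2.2.2.2.2.2.2.1
  · linear_combination K.2.2.2.2.2.2.2.2.2.2.2.2.2.2.1
  · linear_combination K.2.2.2.2.2.2.2.2.2.2.2.2.2.2.2

end Pool.Agent.Lib.MP_af4c59_nt.H57
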