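import Pool.Agent.Lib.MP_af4c59_nt.H57CA3

/-!
The quadric through the five points has rank at least three.
-/

set_option autoImplicit false

namespace Pool.Agent.Lib.MP_af4c59_nt.H57

open Matrix

/-- The form in Fourier coordinates. -/
def ca5Phi (u v l : Fin 5 → ℂ) : ℂ :=
  2 * (u 1 * v 1 * l 3 - (u 1 * v 4 + u 4 * v 1) * l 0 + u 4 * v 4 * l 2) -
    2 * (u 2 * v 2 * l 1 - (u 2 * v 3 + u 3 * v 2) * l 0 + u 3 * v 3 * l 4) -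
    ((l 2 * u 1 * v 2 - l 1 * u 1 * v 3 - l 4 * u 4 * v 2 + l 3 * u 4 * v 3) +
      (l 2 * v 1 * u 2 - l 1 * v 1 * u 3 - l 4 * v 4 * u 2 + l 3 * v 4 * u 3))

/-- A character of the pentagon. -/
noncomputable def ca5ch (k : ℕ) : Fin 5 → ℂ := fun j => z5 ^ (k * j.val)

theorem ca5_val34 : ((3 : Fin 5) : ℕ) = 3 ∧ ((4 : Fin 5) : ℕ) = 4 := ⟨rfl, rfl⟩

theorem ca5_v00 (z : Fin 5 → ℂ) : ca5Phi (ca5ch 0) (ca5ch 0) (ft z) = 0 := by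
  simp only [ca5Phi, ca5ch, ft_c, Fin.val_one, Fin.val_two, ca5_val34]
  linear_combination (0) * z5_sum

theorem ca5_v11 (z : Fin 5 → ℂ) : ca5Phi (ca5ch 1) (ca5ch 1) (ft z) = 0 := by
  simp only [ca5Phi, ca5ch, ft_c, Fin.val_one, Fin.val_two, ca5_val34]
  linear_combination (2 * z 0 * z5 ^ 2 - 4 * z 0 * z5 ^ 3 + 2 * z 0 * z5 ^ 4 + 2 * z 2 * z5 ^ 3 - 2 * z 2 * z5 ^ 4 - 2 * z 2 * z5 ^ 7 + 2 * z 2 * z5 ^ 8 - 2 * z 3 * z5 ^ 4 + 2 * z 3 * z5 ^ 5 + 2 * z 3 * z5 ^ 6 - 2 * z 3 * z5 ^ 7 + 2 * z 4 * z5 ^ 4 - 2 * z 4 * z5 ^ 5 - 2 * z 4 * z5 ^ 6 + 2 * z 4 * z5 ^ 7) * z5_sum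

theorem ca5_v22 (z : Fin 5 → ℂ) : ca5Phi (ca5ch 2) (ca5ch 2) (ft z) = 0 := by
  simp only [ca5Phi, ca5ch, ft_c, Fin.val_one, Fin.val_two, ca5_val34]
  linear_combination (2 * z 0 * z5 ^ 4 - 2 * z 0 * z5 ^ 5 - 2 * z 0 * z5 ^ 6 + 2 * z 0 * z5 ^ 7 + 2 * z 0 * z5 ^ 9 - 2 * z 0 * z5 ^ 10 - 2 * z 0 * z5 ^ 11 + 2 * z 0 * z5 ^ 12 + 2 * z 1 * z5 ^ 7 - 4 * z 1 * z5 ^ 8 + 2 * z 1 * z5 ^ 9 + 2 * z 1 * z5 ^ 12 - 4 * z 1 * z5 ^ 13 + 2 * z 1 * z5 ^ 14 + 2 * z 2 * z5 ^ 5 - 2 * z 2 * z5 ^ 6 - 2 * z 2 * z5 ^ 15 + 2 * z 2 * z5 ^ 16 - 2 * z 3 * z5 ^ 7 + 4 * z 3 * z5 ^ 8 - 2 * z 3 * z5 ^ 9 - 2 * z 3 * z5 ^ 12 + 4 * z 3 * z5 ^ 13 - 2 * z 3 * z5 ^ 14 + 2 * z 4 * z5 ^ 6 - 2 * z 4 * z5 ^ 7 - 2 * z 4 * z5 ^ 9 + 2 * z 4 * z5 ^ 10 + 2 * z 4 * z5 ^ 11 - 2 * z 4 * z5 ^ 12 -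 2 * z 4 * z5 ^ 14 + 2 * z 4 * z5 ^ 15) * z5_sum

theorem ca5_v01 (z : Fin 5 → ℂ) : ca5Phi (ca5ch 0) (ca5ch 1) (ft z) = -5 * (z5 + z5 ^ 4 - z5 ^ 2 - z5 ^ 3) * (z 4 + z 2) := by
  simp only [ca5Phi, ca5ch, ft_c, Fin.val_one, Fin.val_two, ca5_val34]
  linear_combination (-2 * z 1 * z5 + 5 * z 1 * z5 ^ 2 - 4 * z 1 * z5 ^ 3 + z 1 * z5 ^ 4 + 3 * z 2 * z5 - 4 * z 2 * z5 ^ 2 - z 2 * z5 ^ 3 + 2 * z 2 * z5 ^ 4 - 2 * z 3 * z5 + 3 * z 3 * z5 ^ 2 - z 3 * z5 ^ 4 + 3 * z 4 * z5 - 6 * z 4 * z5 ^ 2 + 3 * z 4 * z5 ^ 3) * z5_sum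

theorem ca5_v02 (z : Fin 5 → ℂ) : ca5Phi (ca5ch 0) (ca5ch 2) (ft z) = 5 * (z5 + z5 ^ 4 - z5 ^ 2 - z5 ^ 3) * (z 3 + z 4) := by
  simp only [ca5Phi, ca5ch, ft_c, Fin.val_one, Fin.val_two, ca5_val34]
  linear_combination (-2 * z 1 * z5 ^ 2 + 3 * z 1 * z5 ^ 3 - z 1 * z5 ^ 5 + z 1 * z5 ^ 6 - 2 * z 1 * z5 ^ 7 + z 1 * z5 ^ 8 - 2 * z 2 * z5 ^ 2 + 4 * z 2 * z5 ^ 3 + z 2 * z5 ^ 4 - 3 * z 2 * z5 ^ 5 - z 2 * z5 ^ 6 - z 2 * z5 ^ 7 + 2 * z 2 * z5 ^ 8 - 5 * z 3 * z5 + 8 * z 3 * z5 ^ 2 + z 3 * z5 ^ 3 - 7 * z 3 * z5 ^ 4 + 3 * z 3 * z5 ^ 5 + z 3 * z5 ^ 7 - z 3 * z5 ^ 8 - 5 * z 4 * z5 + 8 * z 4 * z5 ^ 2 + 2 * z 4 * z5 ^ 3 - 6 * z 4 * z5 ^ 4 + z 4 * z5 ^ 5 - 2 * z 4 * z5 ^ 6 + 2 * z 4 * z5 ^ 7) * z5_sum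

theorem ca5_v12 (z : Fin 5 → ℂ) : ca5Phi (ca5ch 1) (ca5ch 2) (ft z) = -5 * (z5 + z5 ^ 4 - z5 ^ 2 - z5 ^ 3) * (z 0 + z 3) := by
  simp only [ca5Phi, ca5ch, ft_c, Fin.val_one, Fin.val_two, ca5_val34]
  linear_combination (5 * z 0 * z5 - 10 * z 0 * z5 ^ 2 + 2 * z 0 * z5 ^ 3 + 7 * z 0 * z5 ^ 4 - 4 * z 0 * z5 ^ 5 + z 0 * z5 ^ 6 - 3 * z 0 * z5 ^ 7 + 2 * z 0 * z5 ^ 8 - z 1 * z5 ^ 7 + 4 * z 1 * z5 ^ 8 - 5 * z 1 * z5 ^ 9 + 2 * z 1 * z5 ^ 10 + 2 * z 2 * z5 ^ 4 - 2 * z 2 * z5 ^ 5 - 2 * z 2 * z5 ^ 6 + 5 * z 2 * z5 ^ 7 - 4 * z 2 * z5 ^ 8 + z 2 * z5 ^ 9 - 2 * z 2 * z5 ^ 11 + 2 * z 2 * z5 ^ 12 + 5 * z 3 * z5 - 10 * z 3 * z5 ^ 2 + 10 * z 3 * z5 ^ 4 - 6 * z 3 * z5 ^ 5 + 3 * z 3 * z5 ^ 6 - 3 * z 3 * z5 ^ 7 - z 3 * z5 ^ 8 + 3 * z 3 * z5 ^ 9 - z 3 * z5 ^ 11 + 2 * z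 4 * z5 ^ 5 - 4 * z 4 * z5 ^ 6 + 3 * z 4 * z5 ^ 7 - z 4 * z5 ^ 9 - 2 * z 4 * z5 ^ 10 + 2 * z 4 * z5 ^ 11) * z5_sum

theorem ca5_symm (u v l : Fin 5 → ℂ) : ca5Phi u v l = ca5Phi v u l := by
  simp only [ca5Phi]; ring

theorem ca5_smul (u v l : Fin 5 → ℂ) (c : ℂ) : ca5Phi u v (c • l) = c * ca5Phi u v l := by
  simp only [ca5Phi, Pi.smul_apply, smul_eq_mul]; ring

theorem ca5_A {θ : ℂ} (hθ : θ ^ 2 + θ - 1 = 0) (m00 m01 m02 m03 m11 m12 m13 m22 m23 m33 k0 k1 k2 k3 n0 n1 n2 n3 : ℂ) :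
    5 * (-k0 * m02 * n3 - k0 * m03 * n2 + 2 * k0 * m03 * n3 - k0 * m12 * n2 + k0 * m12 * n3 + 2 * k0 * m13 * n2 - 3 * k0 * m13 * n3 + k0 * m22 * n1 + 2 * k0 * m23 * n0 - 3 * k0 * m23 * n1 - 2 * k0 * m33 * n0 + 3 * k0 * m33 * n1 - k1 * m02 * n2 + 2 * k1 * m02 * n3 + k1 * m03 * n2 - 3 * k1 * m03 * n3 + 2 * k1 * m12 * n2 - 3 * k1 * m12 * n3 - 3 * k1 * m13 * n2 + 4 * k1 * m13 * n3 + k1 * m22 * n0 - 2 * k1 * m22 * n1 - 3 * k1 * m23 * n0 + 6 * k1 * m23 * n1 + 3 * k1 * m33 * n0 - 4 * k1 * m33 * n1 + k2 * m00 * n3 + 2 * k2 * m01 * n2 - 3 * k2 * m01 * n3 - k2 * m02 * n1 - k2 * m03 * n0 + k2 * m03 * n1 - 2 * k2 * m11 * n2 + 3 * k2 * m11 * n3 - k2 * m12 * n0 + 2 * k2 * m12 * n1 + 2 * k2 * m13 * n0 - 3 * k2 * m13 * n1 + k3 * m00 * n2 - 2 * k3 * m00 * n3 - 3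 * k3 * m01 * n2 + 6 * k3 * m01 * n3 - k3 * m02 * n0 + 2 * k3 * m02 * n1 + 2 * k3 * m03 * n0 - 3 * k3 * m03 * n1 + 3 * k3 * m11 * n2 - 4 * k3 * m11 * n3 + k3 * m12 * n0 - 3 * k3 * m12 * n1 - 3 * k3 * m13 * n0 + 4 * k3 * m13 * n1) =
      (1 + θ) * (2 * θ ^ 2 * (-k0 * m02 * n2 - k0 * m02 * n3 * θ - k0 * m03 * n2 * θ - k0 * m03 * n3 * θ ^ 2 - k0 * m12 * n2 * θ - k0 * m12 * n3 * θ ^ 2 - k0 * m13 * n2 * θ ^ 2 - k0 * m13 * n3 * θ ^ 3 + k0 * m22 * n0 + k0 * m22 * n1 * θ + 2 * k0 * m23 * n0 * θ + 2 * k0 * m23 * n1 * θ ^ 2 + k0 * m33 * n0 * θ ^ 2 + k0 * m33 * n1 * θ ^ 3 - k1 * m02 * n2 * θ - k1 * m02 * n3 * θ ^ 2 - k1 * m03 * n2 * θ ^ 2 - k1 * m03 * n3 * θ ^ 3 - k1 * m12 * n2 * θ ^ 2 - k1 * m12 * n3 * θ ^ 3 - k1 * m13 * n2 * θ ^ 3 - k1 * m13 * n3 * θ ^ 4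 + k1 * m22 * n0 * θ + k1 * m22 * n1 * θ ^ 2 + 2 * k1 * m23 * n0 * θ ^ 2 + 2 * k1 * m23 * n1 * θ ^ 3 + k1 * m33 * n0 * θ ^ 3 + k1 * m33 * n1 * θ ^ 4 + k2 * m00 * n2 + k2 * m00 * n3 * θ + 2 * k2 * m01 * n2 * θ + 2 * k2 * m01 * n3 * θ ^ 2 - k2 * m02 * n0 - k2 * m02 * n1 * θ - k2 * m03 * n0 * θ - k2 * m03 * n1 * θ ^ 2 + k2 * m11 * n2 * θ ^ 2 + k2 * m11 * n3 * θ ^ 3 - k2 * m12 * n0 * θ - k2 * m12 * n1 * θ ^ 2 - k2 * m13 * n0 * θ ^ 2 - k2 * m13 * n1 * θ ^ 3 + k3 * m00 * n2 * θ + k3 * m00 * n3 * θ ^ 2 + 2 * k3 * m01 * n2 * θ ^ 2 + 2 * k3 * m01 * n3 * θ ^ 3 - k3 * m02 * n0 * θ - k3 * m02 * n1 * θ ^ 2 - k3 * m03 * n0 * θ ^ 2 - k3 * m03 * n1 * θ ^ 3 + k3 * m11 * n2 * θ ^ 3 + k3 * m11 * n3 * θ ^ 4 - k3 * m12 * n0 * θ ^ 2 - k3 * m12 * n1 * θ ^ 3 - k3 * m13 *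 n0 * θ ^ 3 - k3 * m13 * n1 * θ ^ 4) - 2 * (-k0 * m02 * n2 + k0 * m02 * n3 + k0 * m02 * n3 * θ + k0 * m03 * n2 + k0 * m03 * n2 * θ - k0 * m03 * n3 - 2 * k0 * m03 * n3 * θ - k0 * m03 * n3 * θ ^ 2 + k0 * m12 * n2 + k0 * m12 * n2 * θ - k0 * m12 * n3 - 2 * k0 * m12 * n3 * θ - k0 * m12 * n3 * θ ^ 2 - k0 * m13 * n2 - 2 * k0 * m13 * n2 * θ - k0 * m13 * n2 * θ ^ 2 + k0 * m13 * n3 + 3 * k0 * m13 * n3 * θ + 3 * k0 * m13 * n3 * θ ^ 2 + k0 * m13 * n3 * θ ^ 3 + k0 * m22 * n0 - k0 * m22 * n1 - k0 * m22 * n1 * θ - 2 * k0 * m23 * n0 - 2 * k0 * m23 * n0 * θ + 2 * k0 * m23 * n1 + 4 * k0 * m23 * n1 * θ + 2 * k0 * m23 * n1 * θ ^ 2 + k0 * m33 * n0 + 2 * k0 * m33 * n0 * θ + k0 * m33 * n0 * θ ^ 2 - k0 * m33 * n1 - 3 * k0 * m33 * n1 * θ - 3 * k0 * m33 * n1 * θ ^ 2 - k0 *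 m33 * n1 * θ ^ 3 + k1 * m02 * n2 + k1 * m02 * n2 * θ - k1 * m02 * n3 - 2 * k1 * m02 * n3 * θ - k1 * m02 * n3 * θ ^ 2 - k1 * m03 * n2 - 2 * k1 * m03 * n2 * θ - k1 * m03 * n2 * θ ^ 2 + k1 * m03 * n3 + 3 * k1 * m03 * n3 * θ + 3 * k1 * m03 * n3 * θ ^ 2 + k1 * m03 * n3 * θ ^ 3 - k1 * m12 * n2 - 2 * k1 * m12 * n2 * θ - k1 * m12 * n2 * θ ^ 2 + k1 * m12 * n3 + 3 * k1 * m12 * n3 * θ + 3 * k1 * m12 * n3 * θ ^ 2 + k1 * m12 * n3 * θ ^ 3 + k1 * m13 * n2 + 3 * k1 * m13 * n2 * θ + 3 * k1 * m13 * n2 * θ ^ 2 + k1 * m13 * n2 * θ ^ 3 - k1 * m13 * n3 - 4 * k1 * m13 * n3 * θ - 6 * k1 * m13 * n3 * θ ^ 2 - 4 * k1 * m13 * n3 * θ ^ 3 - k1 * m13 * n3 * θ ^ 4 - k1 * m22 * n0 - k1 * m22 * n0 * θ + k1 * m22 * n1 + 2 * k1 * m22 * n1 * θ + k1 * m22 * n1 * θ ^ 2 + 2 * k1 * m23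 * n0 + 4 * k1 * m23 * n0 * θ + 2 * k1 * m23 * n0 * θ ^ 2 - 2 * k1 * m23 * n1 - 6 * k1 * m23 * n1 * θ - 6 * k1 * m23 * n1 * θ ^ 2 - 2 * k1 * m23 * n1 * θ ^ 3 - k1 * m33 * n0 - 3 * k1 * m33 * n0 * θ - 3 * k1 * m33 * n0 * θ ^ 2 - k1 * m33 * n0 * θ ^ 3 + k1 * m33 * n1 + 4 * k1 * m33 * n1 * θ + 6 * k1 * m33 * n1 * θ ^ 2 + 4 * k1 * m33 * n1 * θ ^ 3 + k1 * m33 * n1 * θ ^ 4 + k2 * m00 * n2 - k2 * m00 * n3 - k2 * m00 * n3 * θ - 2 * k2 * m01 * n2 - 2 * k2 * m01 * n2 * θ + 2 * k2 * m01 * n3 + 4 * k2 * m01 * n3 * θ + 2 * k2 * m01 * n3 * θ ^ 2 - k2 * m02 * n0 + k2 * m02 * n1 + k2 * m02 * n1 * θ + k2 * m03 * n0 + k2 * m03 * n0 * θ - k2 * m03 * n1 - 2 * k2 * m03 * n1 * θ - k2 * m03 * n1 * θ ^ 2 + k2 * m11 * n2 + 2 * k2 * m11 * n2 * θ + k2 * m11 * n2 * θ ^ 2 - k2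 * m11 * n3 - 3 * k2 * m11 * n3 * θ - 3 * k2 * m11 * n3 * θ ^ 2 - k2 * m11 * n3 * θ ^ 3 + k2 * m12 * n0 + k2 * m12 * n0 * θ - k2 * m12 * n1 - 2 * k2 * m12 * n1 * θ - k2 * m12 * n1 * θ ^ 2 - k2 * m13 * n0 - 2 * k2 * m13 * n0 * θ - k2 * m13 * n0 * θ ^ 2 + k2 * m13 * n1 + 3 * k2 * m13 * n1 * θ + 3 * k2 * m13 * n1 * θ ^ 2 + k2 * m13 * n1 * θ ^ 3 - k3 * m00 * n2 - k3 * m00 * n2 * θ + k3 * m00 * n3 + 2 * k3 * m00 * n3 * θ + k3 * m00 * n3 * θ ^ 2 + 2 * k3 * m01 * n2 + 4 * k3 * m01 * n2 * θ + 2 * k3 * m01 * n2 * θ ^ 2 - 2 * k3 * m01 * n3 - 6 * k3 * m01 * n3 * θ - 6 * k3 * m01 * n3 * θ ^ 2 - 2 * k3 * m01 * n3 * θ ^ 3 + k3 * m02 * n0 + k3 * m02 * n0 * θ - k3 * m02 * n1 - 2 * k3 * m02 * n1 * θ - k3 * m02 * n1 * θ ^ 2 - k3 * m03 * n0 - 2 * k3 * m03 * n0 * θ -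 k3 * m03 * n0 * θ ^ 2 + k3 * m03 * n1 + 3 * k3 * m03 * n1 * θ + 3 * k3 * m03 * n1 * θ ^ 2 + k3 * m03 * n1 * θ ^ 3 - k3 * m11 * n2 - 3 * k3 * m11 * n2 * θ - 3 * k3 * m11 * n2 * θ ^ 2 - k3 * m11 * n2 * θ ^ 3 + k3 * m11 * n3 + 4 * k3 * m11 * n3 * θ + 6 * k3 * m11 * n3 * θ ^ 2 + 4 * k3 * m11 * n3 * θ ^ 3 + k3 * m11 * n3 * θ ^ 4 - k3 * m12 * n0 - 2 * k3 * m12 * n0 * θ - k3 * m12 * n0 * θ ^ 2 + k3 * m12 * n1 + 3 * k3 * m12 * n1 * θ + 3 * k3 * m12 * n1 * θ ^ 2 + k3 * m12 * n1 * θ ^ 3 + k3 * m13 * n0 + 3 * k3 * m13 * n0 * θ + 3 * k3 * m13 * n0 * θ ^ 2 + k3 * m13 * n0 * θ ^ 3 - k3 * m13 * n1 - 4 * k3 * m13 * n1 * θ - 6 * k3 * m13 * n1 * θ ^ 2 - 4 * k3 * m13 * n1 * θ ^ 3 - k3 * m13 * n1 * θ ^ 4) + θ * (-2 * k0 * m02 * n2 + k0 * m02 * n3 + k0 * m03 * n2 + 2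 * k0 * m03 * n3 * θ + 2 * k0 * m03 * n3 * θ ^ 2 + k0 * m12 * n2 - k0 * m12 * n3 - 2 * k0 * m12 * n3 * θ - 2 * k0 * m12 * n3 * θ ^ 2 + 2 * k0 * m13 * n2 * θ + 2 * k0 * m13 * n2 * θ ^ 2 - k0 * m13 * n3 * θ - k0 * m13 * n3 * θ ^ 2 + 2 * k0 * m22 * n0 - k0 * m22 * n1 - 2 * k0 * m23 * n0 + k0 * m23 * n1 - 2 * k0 * m33 * n0 * θ - 2 * k0 * m33 * n0 * θ ^ 2 + k0 * m33 * n1 * θ + k0 * m33 * n1 * θ ^ 2 + k1 * m02 * n2 + 2 * k1 * m02 * n3 * θ + 2 * k1 * m02 * n3 * θ ^ 2 - k1 * m03 * n2 - 2 * k1 * m03 * n2 * θ - 2 * k1 * m03 * n2 * θ ^ 2 - k1 * m03 * n3 * θ - k1 * m03 * n3 * θ ^ 2 + 2 * k1 * m12 * n2 * θ + 2 * k1 * m12 * n2 * θ ^ 2 - k1 * m12 * n3 * θ - k1 * m12 * n3 * θ ^ 2 - k1 * m13 * n2 * θ - k1 * m13 * n2 * θ ^ 2 - 2 * k1 * m13 * n3 * θ ^ 2 - 4 * k1 * m13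 * n3 * θ ^ 3 - 2 * k1 * m13 * n3 * θ ^ 4 - k1 * m22 * n0 - 2 * k1 * m22 * n1 * θ - 2 * k1 * m22 * n1 * θ ^ 2 + k1 * m23 * n0 + 2 * k1 * m23 * n1 * θ + 2 * k1 * m23 * n1 * θ ^ 2 + k1 * m33 * n0 * θ + k1 * m33 * n0 * θ ^ 2 + 2 * k1 * m33 * n1 * θ ^ 2 + 4 * k1 * m33 * n1 * θ ^ 3 + 2 * k1 * m33 * n1 * θ ^ 4 + 2 * k2 * m00 * n2 - k2 * m00 * n3 - 2 * k2 * m01 * n2 + k2 * m01 * n3 - 2 * k2 * m02 * n0 + k2 * m02 * n1 + k2 * m03 * n0 - k2 * m03 * n1 - 2 * k2 * m03 * n1 * θ - 2 * k2 * m03 * n1 * θ ^ 2 - 2 * k2 * m11 * n2 * θ - 2 * k2 * m11 * n2 * θ ^ 2 + k2 * m11 * n3 * θ + k2 * m11 * n3 * θ ^ 2 + k2 * m12 * n0 + 2 * k2 * m12 * n1 * θ + 2 * k2 * m12 * n1 * θ ^ 2 + 2 * k2 * m13 * n0 * θ + 2 * k2 * m13 * n0 * θ ^ 2 - k2 * m13 * n1 * θ - k2 * m13 * n1 * θ ^ 2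 - k3 * m00 * n2 - 2 * k3 * m00 * n3 * θ - 2 * k3 * m00 * n3 * θ ^ 2 + k3 * m01 * n2 + 2 * k3 * m01 * n3 * θ + 2 * k3 * m01 * n3 * θ ^ 2 + k3 * m02 * n0 + 2 * k3 * m02 * n1 * θ + 2 * k3 * m02 * n1 * θ ^ 2 + 2 * k3 * m03 * n0 * θ + 2 * k3 * m03 * n0 * θ ^ 2 - k3 * m03 * n1 * θ - k3 * m03 * n1 * θ ^ 2 + k3 * m11 * n2 * θ + k3 * m11 * n2 * θ ^ 2 + 2 * k3 * m11 * n3 * θ ^ 2 + 4 * k3 * m11 * n3 * θ ^ 3 + 2 * k3 * m11 * n3 * θ ^ 4 - k3 * m12 * n0 - 2 * k3 * m12 * n0 * θ - 2 * k3 * m12 * n0 * θ ^ 2 - k3 * m12 * n1 * θ - k3 * m12 * n1 * θ ^ 2 - k3 * m13 * n0 * θ - k3 * m13 * n0 * θ ^ 2 - 2 * k3 * m13 * n1 * θ ^ 2 - 4 * k3 * m13 * n1 * θ ^ 3 - 2 * k3 * m13 * n1 * θ ^ 4)) := by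
  linear_combination (2 * k0 * m02 * n2 + 2 * k0 * m02 * n2 * θ + 3 * k0 * m02 * n3 + 2 * k0 * m02 * n3 * θ ^ 2 + 3 * k0 * m03 * n2 + 2 * k0 * m03 * n2 * θ ^ 2 - 8 * k0 * m03 * n3 - 2 * k0 * m03 * n3 * θ - 2 * k0 * m03 * n3 * θ ^ 2 + 2 * k0 * m03 * n3 * θ ^ 3 + 3 * k0 * m12 * n2 + 2 * k0 * m12 * n2 * θ ^ 2 - 3 * k0 * m12 * n3 + 2 * k0 * m12 * n3 * θ + 2 * k0 * m12 * n3 * θ ^ 2 + 2 * k0 * m12 * n3 * θ ^ 3 - 8 * k0 * m13 * n2 - 2 * k0 * m13 * n2 * θ - 2 * k0 * m13 * n2 * θ ^ 2 + 2 * k0 * m13 * n2 * θ ^ 3 + 13 * k0 * m13 * n3 + 5 * k0 * m13 * n3 * θ + 5 * k0 * m13 * n3 * θ ^ 2 + 2 * k0 * m13 * n3 * θ ^ 4 - 2 * k0 * m22 * n0 - 2 * k0 * m22 * n0 * θ - 3 * k0 * m22 * n1 - 2 * k0 * m22 * n1 * θ ^ 2 - 6 * k0 * m23 * n0 - 4 * k0 * m23 * n0 * θ ^ 2 + 11 *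 k0 * m23 * n1 - 4 * k0 * m23 * n1 * θ ^ 3 + 8 * k0 * m33 * n0 + 2 * k0 * m33 * n0 * θ + 2 * k0 * m33 * n0 * θ ^ 2 - 2 * k0 * m33 * n0 * θ ^ 3 - 13 * k0 * m33 * n1 - 5 * k0 * m33 * n1 * θ - 5 * k0 * m33 * n1 * θ ^ 2 - 2 * k0 * m33 * n1 * θ ^ 4 + 3 * k1 * m02 * n2 + 2 * k1 * m02 * n2 * θ ^ 2 - 8 * k1 * m02 * n3 - 2 * k1 * m02 * n3 * θ - 2 * k1 * m02 * n3 * θ ^ 2 + 2 * k1 * m02 * n3 * θ ^ 3 - 3 * k1 * m03 * n2 + 2 * k1 * m03 * n2 * θ + 2 * k1 * m03 * n2 * θ ^ 2 + 2 * k1 * m03 * n2 * θ ^ 3 + 13 * k1 * m03 * n3 + 5 * k1 * m03 * n3 * θ + 5 * k1 * m03 * n3 * θ ^ 2 + 2 * k1 * m03 * n3 * θ ^ 4 - 8 * k1 * m12 * n2 - 2 * k1 * m12 * n2 * θ - 2 * k1 * m12 * n2 * θ ^ 2 + 2 * k1 * m12 * n2 * θ ^ 3 + 13 * k1 * m12 * n3 + 5 * k1 * m12 * n3 * θ + 5 * k1 * m12 * n3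 * θ ^ 2 + 2 * k1 * m12 * n3 * θ ^ 4 + 13 * k1 * m13 * n2 + 5 * k1 * m13 * n2 * θ + 5 * k1 * m13 * n2 * θ ^ 2 + 2 * k1 * m13 * n2 * θ ^ 4 - 18 * k1 * m13 * n3 - 8 * k1 * m13 * n3 * θ - 6 * k1 * m13 * n3 * θ ^ 2 + 4 * k1 * m13 * n3 * θ ^ 3 + 2 * k1 * m13 * n3 * θ ^ 4 + 2 * k1 * m13 * n3 * θ ^ 5 - 3 * k1 * m22 * n0 - 2 * k1 * m22 * n0 * θ ^ 2 + 8 * k1 * m22 * n1 + 2 * k1 * m22 * n1 * θ + 2 * k1 * m22 * n1 * θ ^ 2 - 2 * k1 * m22 * n1 * θ ^ 3 + 11 * k1 * m23 * n0 - 4 * k1 * m23 * n0 * θ ^ 3 - 26 * k1 * m23 * n1 - 10 * k1 * m23 * n1 * θ - 10 * k1 * m23 * n1 * θ ^ 2 - 4 * k1 * m23 * n1 * θ ^ 4 - 13 * k1 * m33 * n0 - 5 * k1 * m33 * n0 * θ - 5 * k1 * m33 * n0 * θ ^ 2 - 2 * k1 * m33 * n0 * θ ^ 4 + 18 * k1 * m33 * n1 + 8 * k1 * m33 * n1 * θ + 6 * k1 * m33 *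 n1 * θ ^ 2 - 4 * k1 * m33 * n1 * θ ^ 3 - 2 * k1 * m33 * n1 * θ ^ 4 - 2 * k1 * m33 * n1 * θ ^ 5 - 2 * k2 * m00 * n2 - 2 * k2 * m00 * n2 * θ - 3 * k2 * m00 * n3 - 2 * k2 * m00 * n3 * θ ^ 2 - 6 * k2 * m01 * n2 - 4 * k2 * m01 * n2 * θ ^ 2 + 11 * k2 * m01 * n3 - 4 * k2 * m01 * n3 * θ ^ 3 + 2 * k2 * m02 * n0 + 2 * k2 * m02 * n0 * θ + 3 * k2 * m02 * n1 + 2 * k2 * m02 * n1 * θ ^ 2 + 3 * k2 * m03 * n0 + 2 * k2 * m03 * n0 * θ ^ 2 - 3 * k2 * m03 * n1 + 2 * k2 * m03 * n1 * θ + 2 * k2 * m03 * n1 * θ ^ 2 + 2 * k2 * m03 * n1 * θ ^ 3 + 8 * k2 * m11 * n2 + 2 * k2 * m11 * n2 * θ + 2 * k2 * m11 * n2 * θ ^ 2 - 2 * k2 * m11 * n2 * θ ^ 3 - 13 * k2 * m11 * n3 - 5 * k2 * m11 * n3 * θ - 5 * k2 * m11 * n3 * θ ^ 2 - 2 * k2 * m11 * n3 * θ ^ 4 + 3 * k2 * m12 * n0 + 2 * k2 *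 m12 * n0 * θ ^ 2 - 8 * k2 * m12 * n1 - 2 * k2 * m12 * n1 * θ - 2 * k2 * m12 * n1 * θ ^ 2 + 2 * k2 * m12 * n1 * θ ^ 3 - 8 * k2 * m13 * n0 - 2 * k2 * m13 * n0 * θ - 2 * k2 * m13 * n0 * θ ^ 2 + 2 * k2 * m13 * n0 * θ ^ 3 + 13 * k2 * m13 * n1 + 5 * k2 * m13 * n1 * θ + 5 * k2 * m13 * n1 * θ ^ 2 + 2 * k2 * m13 * n1 * θ ^ 4 - 3 * k3 * m00 * n2 - 2 * k3 * m00 * n2 * θ ^ 2 + 8 * k3 * m00 * n3 + 2 * k3 * m00 * n3 * θ + 2 * k3 * m00 * n3 * θ ^ 2 - 2 * k3 * m00 * n3 * θ ^ 3 + 11 * k3 * m01 * n2 - 4 * k3 * m01 * n2 * θ ^ 3 - 26 * k3 * m01 * n3 - 10 * k3 * m01 * n3 * θ - 10 * k3 * m01 * n3 * θ ^ 2 - 4 * k3 * m01 * n3 * θ ^ 4 + 3 * k3 * m02 * n0 + 2 * k3 * m02 * n0 * θ ^ 2 - 8 * k3 * m02 * n1 - 2 * k3 * m02 * n1 * θ - 2 * k3 * m02 * n1 * θ ^ 2 + 2 * k3 * m02 * n1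 * θ ^ 3 - 8 * k3 * m03 * n0 - 2 * k3 * m03 * n0 * θ - 2 * k3 * m03 * n0 * θ ^ 2 + 2 * k3 * m03 * n0 * θ ^ 3 + 13 * k3 * m03 * n1 + 5 * k3 * m03 * n1 * θ + 5 * k3 * m03 * n1 * θ ^ 2 + 2 * k3 * m03 * n1 * θ ^ 4 - 13 * k3 * m11 * n2 - 5 * k3 * m11 * n2 * θ - 5 * k3 * m11 * n2 * θ ^ 2 - 2 * k3 * m11 * n2 * θ ^ 4 + 18 * k3 * m11 * n3 + 8 * k3 * m11 * n3 * θ + 6 * k3 * m11 * n3 * θ ^ 2 - 4 * k3 * m11 * n3 * θ ^ 3 - 2 * k3 * m11 * n3 * θ ^ 4 - 2 * k3 * m11 * n3 * θ ^ 5 - 3 * k3 * m12 * n0 + 2 * k3 * m12 * n0 * θ + 2 * k3 * m12 * n0 * θ ^ 2 + 2 * k3 * m12 * n0 * θ ^ 3 + 13 * k3 * m12 * n1 + 5 * k3 * m12 * n1 * θ + 5 * k3 * m12 * n1 * θ ^ 2 + 2 * k3 * m12 * n1 * θ ^ 4 + 13 * k3 * m13 * n0 + 5 * k3 * m13 * n0 * θ + 5 * k3 * m13 * n0 * θ ^ 2 + 2 * k3 * m13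 * n0 * θ ^ 4 - 18 * k3 * m13 * n1 - 8 * k3 * m13 * n1 * θ - 6 * k3 * m13 * n1 * θ ^ 2 + 4 * k3 * m13 * n1 * θ ^ 3 + 2 * k3 * m13 * n1 * θ ^ 4 + 2 * k3 * m13 * n1 * θ ^ 5) * hθ

theorem ca5_B {x y x' y' u w u' w' A B C D a b c d : ℂ} :
    (x' * u' * A + x' * w' * B + y' * u' * C + y' * w' * D) * (a * x + b * y) * (c * u + d * w) -
      (x' * u * A + x' * w * B + y' * u * C + y' * w * D) * (a * x + b * y) * (c * u' + d * w') -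
      (x * u' * A + x * w' * B + y * u' * C + y * w' * D) * (a * x' + b * y') * (c * u + d * w) +
      (x * u * A + x * w * B + y * u * C + y * w * D) * (a * x' + b * y') * (c * u' + d * w') =
      (x * y' - x' * y) * (u * w' - u' * w) * (D * a * c - C * a * d - B * b * c + A * b * d) := by
  ring

theorem ca5_val {X Y l : Fin 5 → ℂ} {m : Matrix (Fin 4) (Fin 4) ℤ}
    (hd : d1 X Y = -(th1 : ℂ) * d2 X Y) (hm : MF X Y l m) {κ κ' : Fin 4 → ℂ} {u v : Fin 5 → ℂ}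
    (hu : ∀ j : Fin 5, j ≠ 0 → ∑ a, κ a * fr X Y a j = u j)
    (hv : ∀ j : Fin 5, j ≠ 0 → ∑ a, κ' a * fr X Y a j = v j) :
    5 * d2 X Y ^ 2 * bf (mc ℂ (MK (tau m))) κ κ' = (1 + th1) * ca5Phi u v l := by
  have hθ : (th1 : ℂ) ^ 2 + th1 - 1 = 0 := by
    have h : ((th1 * th1 : ℝ) : ℂ) = ((1 - th1 : ℝ) : ℂ) := by rw [th1_sq]
    push_cast at h
    linear_combination h
  have ht : (th2 : ℂ) = -1 - th1 := by rw [th2_eq]; push_cast; ring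
  have e : ∀ i j, m j i = m i j := fun i j => hm.1.apply i j
  have E := fun j k hj hk => hm.eq j k hj hk
  have E11 := E 1 1 (by decide) (by decide)
  have E14 := E 1 4 (by decide) (by decide)
  have E41 := E 4 1 (by decide) (by decide)
  have E44 := E 4 4 (by decide) (by decide)
  have E22 := E 2 2 (by decide) (by decide)
  have E23 := E 2 3 (by decide) (by decide)
  have E32 := E 3 2 (by decide) (by decide)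
  have E33 := E 3 3 (by decide) (by decide)
  have E12 := E 1 2 (by decide) (by decide)
  have E13 := E 1 3 (by decide) (by decide)
  have E42 := E 4 2 (by decide) (by decide)
  have E43 := E 4 3 (by decide) (by decide)
  simp only [ec_om, Fin.reduceAdd] at E11 E14 E41 E44 E22 E23 E32 E33 E12 E13 E42 E43
  have f : ∀ (κ : Fin 4 → ℂ) (j : Fin 5), ∑ a, κ a * fr X Y a j =
      (κ 0 + ec j om * κ 1) * X j + (κ 2 + ec j om * κ 3) * Y j := by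
    intro κ j
    simp only [Fin.sum_univ_four, fr, cons_val_zero, cons_val_one, cons_val]
    ring
  simp only [f] at hu hv
  have u1 := hu 1 (by decide)
  have u2 := hu 2 (by decide)
  have u3 := hu 3 (by decide)
  have u4 := hu 4 (by decide)
  have v1 := hv 1 (by decide)
  have v2 := hv 2 (by decide)
  have v3 := hv 3 (by decide)
  have v4 := hv 4 (by decide)
  simp only [ec_om] at u1 u2 u3 u4 v1 v2 v3 v4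
  have BF := @ca5_B (X 1) (Y 1) (X 4) (Y 4) (X 1) (Y 1) (X 4) (Y 4) (pc m th1 th1 0 1 0 1)
    (pc m th1 th1 0 1 2 3) (pc m th1 th1 2 3 0 1) (pc m th1 th1 2 3 2 3)
    (κ 0 + th1 * κ 1) (κ 2 + th1 * κ 3) (κ' 0 + th1 * κ' 1) (κ' 2 + th1 * κ' 3)
  have BG := @ca5_B (X 2) (Y 2) (X 3) (Y 3) (X 2) (Y 2) (X 3) (Y 3) (pc m th2 th2 0 1 0 1)
    (pc m th2 th2 0 1 2 3) (pc m th2 th2 2 3 0 1) (pc m th2 th2 2 3 2 3)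
    (κ 0 + th2 * κ 1) (κ 2 + th2 * κ 3) (κ' 0 + th2 * κ' 1) (κ' 2 + th2 * κ' 3)
  have BH := @ca5_B (X 1) (Y 1) (X 4) (Y 4) (X 2) (Y 2) (X 3) (Y 3) (pc m th1 th2 0 1 0 1)
    (pc m th1 th2 0 1 2 3) (pc m th1 th2 2 3 0 1) (pc m th1 th2 2 3 2 3)
    (κ 0 + th1 * κ 1) (κ 2 + th1 * κ 3) (κ' 0 + th2 * κ' 1) (κ' 2 + th2 * κ' 3)
  have BH' := @ca5_B (X 1) (Y 1) (X 4) (Y 4) (X 2) (Y 2) (X 3) (Y 3) (pc m th1 th2 0 1 0 1)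
    (pc m th1 th2 0 1 2 3) (pc m th1 th2 2 3 0 1) (pc m th1 th2 2 3 2 3)
    (κ' 0 + th1 * κ' 1) (κ' 2 + th1 * κ' 3) (κ 0 + th2 * κ 1) (κ 2 + th2 * κ 3)
  rw [E11, E14, E41, E44, u1, u4, v1, v4] at BF
  rw [E22, E23, E32, E33, u2, u3, v2, v3] at BG
  rw [E12, E13, E42, E43, u1, u4, v2, v3] at BH
  rw [E12, E13, E42, E43, v1, v4, u2, u3] at BH'
  have hd' : X 1 * Y 4 - X 4 * Y 1 = -(th1 : ℂ) * (X 2 * Y 3 - X 3 * Y 2) := hd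
  rw [hd'] at BF BH BH'
  have A := ca5_A hθ (m 0 0 : ℂ) (m 0 1 : ℂ) (m 0 2 : ℂ) (m 0 3 : ℂ) (m 1 1 : ℂ) (m 1 2 : ℂ) (m 1 3 : ℂ) (m 2 2 : ℂ) (m 2 3 : ℂ) (m 3 3 : ℂ)
    (κ 0) (κ 1) (κ 2) (κ 3) (κ' 0) (κ' 1) (κ' 2) (κ' 3)
  simp only [ht, pc, e 0 1, e 0 2, e 0 3, e 1 2, e 1 3, e 2 3] at BF BG BH BH'
  simp only [bf, dotProduct, mulVec, Fin.sum_univ_four, mc, map_apply, MK_c, tau_c, ca5Phi, d2]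
  push_cast
  linear_combination (X 2 * Y 3 - X 3 * Y 2) ^ 2 * A -
    (1 + (th1 : ℂ)) * (2 * BF - 2 * BG - BH - BH')

theorem rk_MK {X Y z : Fin 5 → ℂ} {m : Matrix (Fin 4) (Fin 4) ℤ} {c : ℂ} (hc : c ≠ 0)
    (hd : d1 X Y = -(th1 : ℂ) * d2 X Y) (h2 : d2 X Y ≠ 0) (hm : MF X Y (c • ft z) m)
    (hz : ∀ i j, z i + z j ≠ 0) : Rk 3 (MK (tau m)) := by
  have hp : (0 : ℝ) < th1 := by linarith [th1_bd.1]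
  have h0 : (th1 : ℂ) ≠ 0 := by exact_mod_cast hp.ne'
  have h0' : (1 + th1 : ℂ) ≠ 0 := by exact_mod_cast (by linarith : (1 + th1 : ℝ) ≠ 0)
  have h5 : z5 + z5 ^ 4 - z5 ^ 2 - z5 ^ 3 ≠ 0 := by
    have h : z5 + z5 ^ 4 - z5 ^ 2 - z5 ^ 3 = ((th1 - th2 : ℝ) : ℂ) := by
      push_cast
      linear_combination z5_th1 - z5_th2
    rw [h, th2_eq]
    exact_mod_cast (by linarith : (th1 - (-1 - th1) : ℝ) ≠ 0)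
  have h1 : d1 X Y ≠ 0 := by rw [hd]; exact mul_ne_zero (neg_ne_zero.2 h0) h2
  choose κ hκ using fun k : ℕ => exists_cov h1 h2 (ca5ch k)
  have val : ∀ i j : ℕ, bf (mc ℂ (MK (tau m))) (κ i) (κ j) =
      (1 + th1) * c * ca5Phi (ca5ch i) (ca5ch j) (ft z) / (5 * d2 X Y ^ 2) := by
    intro i j
    have h := ca5_val hd hm (hκ i) (hκ j)
    rw [ca5_smul] at h
    field_simp
    linear_combination h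
  let K : Matrix (Fin 4) (Fin 3) ℂ := Matrix.of fun a i => κ i.val a
  have hK : ∀ i j, (Kᵀ * (mc ℂ (MK (tau m)) * K)) i j = bf (mc ℂ (MK (tau m))) (κ i.val) (κ j.val) :=
    fun i j => rfl
  have hR : Rk 3 (Kᵀ * (mc ℂ (MK (tau m)) * K)) := by
    refine ⟨id, id, ?_⟩
    rw [submatrix_id_id, det_fin_three]
    simp only [hK, val, Fin.val_zero, Fin.val_one, Fin.val_two, ca5_symm (ca5ch 1) (ca5ch 0),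
      ca5_symm (ca5ch 2) (ca5ch 0), ca5_symm (ca5ch 2) (ca5ch 1), ca5_v00, ca5_v11, ca5_v22,
      ca5_v01, ca5_v02, ca5_v12]
    have a1 := hz 4 2
    have a2 := hz 3 4
    have a3 := hz 0 3
    generalize z 4 + z 2 = p at a1 ⊢
    generalize z 3 + z 4 = q at a2 ⊢
    generalize z 0 + z 3 = r at a3 ⊢
    generalize z5 + z5 ^ 4 - z5 ^ 2 - z5 ^ 3 = s at h5 ⊢
    generalize (1 + th1 : ℂ) = w at h0' ⊢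
    generalize d2 X Y = D at h2 ⊢
    have key : (2 : ℂ) * (w * c * s / D ^ 2) ^ 3 * p * q * r ≠ 0 := by
      simp [h0', hc, h5, h2, a1, a2, a3]
    intro hh
    apply key
    rw [← hh]
    field_simp
    ring
  exact Rk_mc.1 hR.of_mul_left.of_mul_right

end Pool.Agent.Lib.MP_af4c59_nt.H57
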