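import Pool.Agent.Lib.MP_af4c59_nt.H57Cov0

/-!
Covers by cells and subpolynomial functions.
-/

set_option autoImplicit false

namespace Pool.Agent.Lib.MP_af4c59_nt.H57

open Matrix

section SP

variable {f g : ℝ → ℝ}

theorem SP.const {c : ℝ} (hc : 1 ≤ c) : SP fun _ => c := by
  refine ⟨fun _ _ => hc, fun _ _ _ _ => le_rfl, fun ε hε => ⟨c, by linarith, fun x hx => ?_⟩⟩
  exact le_mul_of_one_le_right (by linarith) (Real.one_le_rpow hx hε.le)

theorem SP.mul (hf : SP f) (hg : SP g) : SP fun x => f x * g x := by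
  refine ⟨fun x hx => one_le_mul_of_one_le_of_one_le (hf.one_le x hx) (hg.one_le x hx),
    fun x y hx h => mul_le_mul (hf.mono x y hx h) (hg.mono x y hx h)
      (by linarith [hg.one_le x hx]) (by linarith [hf.one_le y (hx.trans h)]), fun ε hε => ?_⟩
  obtain ⟨C, hC, h1⟩ := hf.sub (ε / 2) (by linarith)
  obtain ⟨D, hD, h2⟩ := hg.sub (ε / 2) (by linarith)
  refine ⟨C * D, mul_pos hC hD, fun x hx => ?_⟩
  have hx0 : 0 < x := by linarith
  have h3 : x ^ ε = x ^ (ε / 2) * x ^ (ε / 2) := by rw [← Real.rpow_add hx0, add_halves]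
  calc f x * g x ≤ C * x ^ (ε / 2) * (D * x ^ (ε / 2)) :=
        mul_le_mul (h1 x hx) (h2 x hx) (by linarith [hg.one_le x hx]) (by positivity)
    _ = C * D * x ^ ε := by rw [h3]; ring

theorem SP.add (hf : SP f) (hg : SP g) : SP fun x => f x + g x := by
  refine ⟨fun x hx => by linarith [hf.one_le x hx, hg.one_le x hx],
    fun x y hx h => add_le_add (hf.mono x y hx h) (hg.mono x y hx h), fun ε hε => ?_⟩
  obtain ⟨C, hC, h1⟩ := hf.sub ε hε
  obtain ⟨D, hD, h2⟩ := hg.sub ε hε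
  exact ⟨C + D, add_pos hC hD, fun x hx => by linarith [h1 x hx, h2 x hx]⟩

theorem SP.cmul (hf : SP f) {c : ℝ} (hc : 1 ≤ c) : SP fun x => c * f x := by
  exact (SP.const hc).mul hf

theorem SP.pow (hf : SP f) (k : ℕ) : SP fun x => f x ^ k := by
  induction k with
  | zero => simpa using SP.const (le_refl (1 : ℝ))
  | succ k ih => simpa only [pow_succ] using ih.mul hf

theorem SP.comp (hf : SP f) {c : ℝ} (hc : 1 ≤ c) (k : ℕ) : SP fun x => f (c * x ^ k) := by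
  have h1 : ∀ x : ℝ, 1 ≤ x → 1 ≤ c * x ^ k := fun x hx =>
    one_le_mul_of_one_le_of_one_le hc (one_le_pow₀ hx)
  refine ⟨fun x hx => hf.one_le _ (h1 x hx), fun x y hx h => hf.mono _ _ (h1 x hx)
    (mul_le_mul_of_nonneg_left (pow_le_pow_left₀ (by linarith) h k) (by linarith)), fun ε hε => ?_⟩
  have hk : (0 : ℝ) < k + 1 := by positivity
  obtain ⟨C, hC, h2⟩ := hf.sub (ε / (k + 1)) (by positivity)
  have hc0 : 0 < c := by linarith
  refine ⟨C * c ^ (ε / (k + 1)), by positivity, fun x hx => (h2 _ (h1 x hx)).trans ?_⟩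
  have hx0 : 0 < x := by linarith
  rw [Real.mul_rpow hc0.le (by positivity), ← Real.rpow_natCast x k, ← Real.rpow_mul hx0.le,
    ← mul_assoc]
  refine mul_le_mul_of_nonneg_left (Real.rpow_le_rpow_of_exponent_le hx ?_) (by positivity)
  rw [← mul_div_assoc, div_le_iff₀ hk]
  nlinarith

theorem SP.pos (hf : SP f) {x : ℝ} (hx : 1 ≤ x) : 0 < f x :=
  lt_of_lt_of_le one_pos (hf.one_le x hx)

theorem le_two_pow_lg (x : ℝ) : x ≤ 2 ^ lg x := by
  have h1 : ⌈x⌉₊ ≤ 2 ^ lg x := Nat.le_pow_clog (by norm_num) _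
  exact (Nat.le_ceil x).trans (by exact_mod_cast h1)

theorem lg_mono {x y : ℝ} (h : x ≤ y) : lg x ≤ lg y := by
  exact Nat.clog_mono_right 2 (Nat.ceil_mono h)

theorem cov_two_pow_lg_le {x : ℝ} (hx : 1 ≤ x) : (2 : ℝ) ^ lg x ≤ 4 * x := by
  by_cases h : 1 < ⌈x⌉₊
  · have h1 : 2 ^ (lg x).pred < ⌈x⌉₊ := Nat.pow_pred_clog_lt_self (by norm_num) h
    have h2 : 2 ^ lg x ≤ 2 * 2 ^ (lg x).pred := by
      rw [← pow_succ']
      exact Nat.pow_le_pow_right (by norm_num) (by rw [Nat.pred_eq_sub_one]; omega)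
    have h3 : 2 ^ lg x ≤ 2 * ⌈x⌉₊ := by omega
    have h4 : (2 : ℝ) ^ lg x ≤ 2 * ⌈x⌉₊ := by exact_mod_cast h3
    have h5 := Nat.ceil_lt_add_one (by linarith : 0 ≤ x)
    linarith
  · have h1 : lg x = 0 := Nat.clog_of_right_le_one (not_lt.1 h) 2
    rw [h1, pow_zero]
    linarith

theorem SP_lg : SP fun x => (lg x : ℝ) + 1 := by
  refine ⟨fun x _ => le_add_of_nonneg_left (Nat.cast_nonneg _), fun x y _ h => ?_, fun ε hε => ?_⟩
  · have h1 : (lg x : ℝ) ≤ lg y := by exact_mod_cast lg_mono h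
    linarith
  · have hs : (1 : ℝ) < 2 ^ ε := Real.one_lt_rpow (by norm_num) hε
    have hK : 0 < 1 + 1 / ((2 : ℝ) ^ ε - 1) := by
      have : 0 < 1 / ((2 : ℝ) ^ ε - 1) := one_div_pos.2 (by linarith)
      linarith
    refine ⟨(1 + 1 / ((2 : ℝ) ^ ε - 1)) * 4 ^ ε, by positivity, fun x hx => ?_⟩
    refine (H32.succ_le_mul_pow hs (lg x)).trans ?_
    rw [mul_assoc]
    refine mul_le_mul_of_nonneg_left ?_ hK.le
    rw [← Real.mul_rpow (by norm_num) (by linarith), ← Real.rpow_natCast,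
      ← Real.rpow_mul (by norm_num), mul_comm ε, Real.rpow_mul (by norm_num), Real.rpow_natCast]
    exact Real.rpow_le_rpow (by positivity) (cov_two_pow_lg_le hx) hε.le

theorem cov_div_bound {K : ℝ} (hK : 1 ≤ K) (k : ℕ) {ε : ℝ} (hε : 0 < ε) :
    ∃ C : ℝ, 1 ≤ C ∧ ∀ n : ℕ, n ≠ 0 →
      K ^ n.primeFactors.card * (n.divisors.card : ℝ) ^ k ≤ C * (n : ℝ) ^ ε := by
  have hk : (0 : ℝ) < k + 1 := by positivity
  obtain ⟨C, hC, h1⟩ := H32.omega_bound (lg K) (η := ε / (k + 1)) (by positivity)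
  obtain ⟨D, hD, h2⟩ := H32.divisor_bound (η := ε / (k + 1)) (by positivity)
  refine ⟨C * D ^ k, one_le_mul_of_one_le_of_one_le hC (one_le_pow₀ hD), fun n hn => ?_⟩
  have h3 : K ^ n.primeFactors.card ≤ C * (n : ℝ) ^ (ε / (k + 1)) :=
    (pow_le_pow_left₀ (by linarith) (le_two_pow_lg K) _).trans (h1 n hn)
  have h4 : (n.divisors.card : ℝ) ^ k ≤ (D * (n : ℝ) ^ (ε / (k + 1))) ^ k :=
    pow_le_pow_left₀ (Nat.cast_nonneg _) (h2 n) k
  have h5 : ((n : ℝ) ^ (ε / (k + 1))) ^ (k + 1) = (n : ℝ) ^ ε := by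
    rw [← Real.rpow_natCast, ← Real.rpow_mul (Nat.cast_nonneg _)]
    congr 1
    push_cast
    field_simp
  calc _ ≤ C * (n : ℝ) ^ (ε / (k + 1)) * (D * (n : ℝ) ^ (ε / (k + 1))) ^ k :=
        mul_le_mul h3 h4 (by positivity) (by positivity)
    _ = C * D ^ k * (n : ℝ) ^ ε := by rw [← h5, mul_pow]; ring

/-- The divisor bound. -/
theorem SP_div {K : ℝ} (hK : 1 ≤ K) (k : ℕ) : ∃ f, SP f ∧ ∀ (N : ℝ) (n : ℕ), n ≠ 0 → (n : ℝ) ≤ N →
    K ^ n.primeFactors.card * (n.divisors.card : ℝ) ^ k ≤ f N := by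
  refine ⟨fun N => (Finset.range (⌊N⌋₊ + 1)).sup' Finset.nonempty_range_add_one
    fun n => K ^ n.primeFactors.card * (n.divisors.card : ℝ) ^ k, ⟨fun x hx => ?_, fun x y _ h => ?_,
      fun ε hε => ?_⟩, fun N n _ hn => ?_⟩
  · have h1 : 1 ∈ Finset.range (⌊x⌋₊ + 1) :=
      Finset.mem_range.2 (Nat.lt_succ_of_le (Nat.le_floor (by exact_mod_cast hx)))
    refine le_trans ?_ (Finset.le_sup'
      (fun n : ℕ => K ^ n.primeFactors.card * (n.divisors.card : ℝ) ^ k) h1)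
    simp
  · exact Finset.sup'_mono _ (Finset.range_subset_range.2 (Nat.succ_le_succ (Nat.floor_mono h))) _
  · obtain ⟨C, hC, h1⟩ := cov_div_bound hK k hε
    refine ⟨C, by linarith, fun x hx => Finset.sup'_le _ _ fun n hn => ?_⟩
    have h2 : (n : ℝ) ≤ x := by
      have h3 : n ≤ ⌊x⌋₊ := Nat.lt_succ_iff.1 (Finset.mem_range.1 hn)
      exact le_trans (by exact_mod_cast h3) (Nat.floor_le (by linarith))
    rcases eq_or_ne n 0 with rfl | hn0
    · have h4 : (0 : ℝ) ^ k ≤ 1 := pow_le_one₀ le_rfl zero_le_one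
      have h5 := one_le_mul_of_one_le_of_one_le hC (Real.one_le_rpow hx hε.le)
      simp only [Nat.primeFactors_zero, Finset.card_empty, pow_zero, Nat.divisors_zero,
        Nat.cast_zero, one_mul]
      linarith
    · exact (h1 n hn0).trans (mul_le_mul_of_nonneg_left
        (Real.rpow_le_rpow (Nat.cast_nonneg _) h2 hε.le) (by linarith))
  · exact Finset.le_sup' (fun n : ℕ => K ^ n.primeFactors.card * (n.divisors.card : ℝ) ^ k)
      (Finset.mem_range.2 (Nat.lt_succ_of_le (Nat.le_floor hn)))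

end SP

/-- The dyadic level of a number between `a` and `2 ^ L * a`. -/
theorem exists_level {a x : ℝ} (ha : 0 < a) (h1 : a ≤ x) {L : ℕ} (h2 : x ≤ 2 ^ L * a) :
    ∃ i : ℕ, i ≤ L ∧ 2 ^ i * a ≤ x ∧ x ≤ 2 ^ (i + 1) * a := by
  induction L with
  | zero =>
    refine ⟨0, le_rfl, by simpa using h1, ?_⟩
    rw [pow_zero, one_mul] at h2
    norm_num
    linarith
  | succ L ih =>
    by_cases h : x ≤ 2 ^ L * a
    · obtain ⟨i, hi, h3⟩ := ih h
      exact ⟨i, hi.trans (Nat.le_succ L), h3⟩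
    · exact ⟨L, Nat.le_succ L, (not_le.1 h).le, h2⟩

/-! ### From local to global -/

theorem glob {ι : Type} (X : Finset ι) {n : ℕ} (hn : n ≠ 0) (Φ : ℕ → Finset ι → Prop)
    (hH : ∀ p, Her (Φ p)) (K : ℝ) (k : ℕ) (a : ℕ → ℕ)
    (h : ∀ p ∈ n.primeFactors, Cov X (Φ p) (K * ((n.factorization p : ℝ) + 1) ^ k * (p : ℝ) ^ a p)) :
    Cov X (fun C => ∀ p ∈ n.primeFactors, Φ p C)
      (K ^ n.primeFactors.card * (n.divisors.card : ℝ) ^ k *
        ((∏ p ∈ n.primeFactors, p ^ a p : ℕ) : ℝ)) := by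
  refine (Cov.prod n.primeFactors Φ hH _ h).mono (le_of_eq ?_)
  rw [Finset.prod_mul_distrib, Finset.prod_mul_distrib, Finset.prod_const, Finset.prod_pow,
    Nat.card_divisors hn]
  push_cast
  rfl

theorem prod_pow_dvd {n : ℕ} (s : ℕ → ℕ) {b : ℤ}
    (h : ∀ p ∈ n.primeFactors, (p : ℤ) ^ s p ∣ b) :
    ((∏ p ∈ n.primeFactors, p ^ s p : ℕ) : ℤ) ∣ b := by
  push_cast
  refine Finset.prod_dvd_of_coprime (fun p hp q hq hpq => ?_) h
  have h1 : Nat.Coprime p q :=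
    (Nat.coprime_primes (Nat.prime_of_mem_primeFactors hp) (Nat.prime_of_mem_primeFactors hq)).2 hpq
  exact (Nat.isCoprime_iff_coprime.2 h1).pow

theorem cov_fac_prod (n : ℕ) (e : ℕ → ℕ) (q : ℕ) :
    (∏ p ∈ n.primeFactors, p ^ e p).factorization q = if q ∈ n.primeFactors then e q else 0 := by
  rw [Nat.factorization_prod fun p hp => pow_ne_zero _ (Nat.prime_of_mem_primeFactors hp).ne_zero,
    Finsupp.finsetSum_apply, ← Finset.sum_ite_eq']
  refine Finset.sum_congr rfl fun p hp => ?_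
  rw [(Nat.prime_of_mem_primeFactors hp).factorization_pow, Finsupp.single_apply]

/-- Comparison of two products from the comparison of the exponents. -/
theorem prod_pow_le {n a b : ℕ} (ha : a ≠ 0) (hb : b ≠ 0) (r s : ℕ → ℕ) (c : ℕ)
    (hout : ∀ p : ℕ, p.Prime → p ∣ a → p ∈ n.primeFactors)
    (h : ∀ p ∈ n.primeFactors, r p + padicValNat p a ≤ padicValNat p b + s p + c * e2v p) :
    (∏ p ∈ n.primeFactors, p ^ r p) * a ≤ 2 ^ c * b * ∏ p ∈ n.primeFactors, p ^ s p := by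
  have hp0 : ∀ e : ℕ → ℕ, ∏ p ∈ n.primeFactors, p ^ e p ≠ 0 := fun e =>
    Finset.prod_ne_zero_iff.2 fun p hp => pow_ne_zero _ (Nat.prime_of_mem_primeFactors hp).ne_zero
  have h2 : 2 ^ c ≠ 0 := pow_ne_zero _ two_ne_zero
  have hR : 2 ^ c * b * ∏ p ∈ n.primeFactors, p ^ s p ≠ 0 :=
    mul_ne_zero (mul_ne_zero h2 hb) (hp0 s)
  refine Nat.le_of_dvd (Nat.pos_of_ne_zero hR)
    ((Nat.factorization_prime_le_iff_dvd (mul_ne_zero (hp0 r) ha) hR).1 fun q hq => ?_)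
  rw [Nat.factorization_mul (hp0 r) ha, Nat.factorization_mul (mul_ne_zero h2 hb) (hp0 s),
    Nat.factorization_mul h2 hb, Nat.factorization_pow]
  simp only [Finsupp.add_apply, Finsupp.smul_apply, smul_eq_mul, cov_fac_prod]
  by_cases hm : q ∈ n.primeFactors
  · have h3 := h q hm
    rw [if_pos hm, if_pos hm, Nat.factorization_def a hq, Nat.factorization_def b hq,
      Nat.factorization_def 2 hq]
    unfold e2v at h3
    omega
  · rw [if_neg hm, Nat.factorization_eq_zero_of_not_dvd fun hd => hm (hout q hq hd)]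
    omega

end Pool.Agent.Lib.MP_af4c59_nt.H57
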