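import Pool.Agent.Lib.MP_af4c59_nt.H57Pent

/-!
The symmetric tensor attached to an element of the different.
-/

set_option autoImplicit false

namespace Pool.Agent.Lib.MP_af4c59_nt.H57

open Matrix

open NumberField

variable {L : Type} [Field L] [NumberField L] {φ : Fin 5 → (L →+* ℂ)}

/-- The dual basis for the trace form. -/
theorem exists_dual (h : Pent φ) : ∃ (b : Fin 5 → 𝓞 L) (w : Fin 5 → L),
    (∀ (k : Fin 5) (z : 𝓞 L), ∃ n : ℤ, Algebra.trace ℚ L (w k * z) = n) ∧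
      ∀ i j, ∑ k, φ i (b k : L) * φ j (w k) = if i = j then 1 else 0 := by
  obtain ⟨b⟩ := h.basis
  let B : Module.Basis (Fin 5) ℚ L := b.localizationLocalization ℚ (nonZeroDivisors ℤ) L
  have hB : ∀ i, B i = (b i : L) := fun i => b.localizationLocalization_apply ℚ _ L i
  have ht : ∀ i k, Algebra.trace ℚ L ((b i : L) * B.traceDual k) = if i = k then 1 else 0 :=
    fun i k => by rw [← hB]; exact B.trace_mul_traceDual i k
  refine ⟨b, B.traceDual, fun k z => ⟨b.repr z k, ?_⟩, fun i j => ?_⟩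
  · have hz : (z : L) = ∑ i, (b.repr z i : ℚ) • (b i : L) := by
      conv_lhs => rw [← b.sum_repr z]
      simp [Algebra.smul_def]
    rw [hz, Finset.mul_sum, map_sum]
    simp only [mul_comm (B.traceDual k), smul_mul_assoc, map_smul, ht]
    simp
  · have h1 : (Matrix.of fun k i => φ i (b k : L)) * (Matrix.of fun i k => φ i (B.traceDual k)) =
        1 := by
      ext k k'
      simp only [Matrix.mul_apply, of_apply, ← map_mul]
      rw [h.sum_trace, ht, one_apply]
      split_ifs <;> simp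
    have h3 := mul_eq_one_comm.1 h1
    have h2 := congrFun (congrFun h3 j) i
    simp only [Matrix.mul_apply, of_apply, one_apply] at h2
    simp only [mul_comm (φ i _), h2, eq_comm]

theorem diff_mul {l : 𝓞 L} (hl : l ∈ differentIdeal ℤ (𝓞 L)) {w : L}
    (hw : ∀ z : 𝓞 L, ∃ n : ℤ, Algebra.trace ℚ L (w * z) = n) : ∃ z : 𝓞 L, (l : L) * w = z := by
  have h1 : (l : L) ∈ IsLocalization.coeSubmodule L (differentIdeal ℤ (𝓞 L)) := ⟨l, hl, rfl⟩
  rw [coeSubmodule_differentIdeal ℤ ℚ, Submodule.mem_div_iff_forall_mul_mem] at h1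
  have h2 : w ∈ Submodule.traceDual ℤ ℚ (1 : Submodule (𝓞 L) L) := by
    rw [Submodule.mem_traceDual]
    intro a ha
    obtain ⟨z, rfl⟩ := Submodule.mem_one.1 ha
    obtain ⟨n, hn⟩ := hw z
    exact ⟨n, hn.symm⟩
  obtain ⟨z, hz⟩ := Submodule.mem_one.1 (h1 w h2)
  exact ⟨z, hz.symm⟩

omit [NumberField L] in
theorem mf_coef {x y : 𝓞 L} (hs : Span φ 5 x y) (z : 𝓞 L) : ∃ C : Fin 4 → ℤ, ∀ j : Fin 5, j ≠ 0 →
    ∑ a, (C a : ℂ) * fr ((5 : ℂ) • hat φ x) ((5 : ℂ) • hat φ y) a j = 25 * hat φ z j := by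
  obtain ⟨a, b, hab⟩ := hs z
  refine ⟨![a.re, a.im, b.re, b.im], fun j hj => ?_⟩
  have h := hab j hj
  simp only [Pi.smul_apply, smul_eq_mul, lc] at h
  rw [ec_apply j a, ec_apply j b] at h
  simp only [Fin.sum_univ_four, fr, Matrix.cons_val, Pi.smul_apply, smul_eq_mul]
  linear_combination (-5) * h

theorem frame_MF (h : Pent φ) {x y : 𝓞 L} (hs : Span φ 5 x y) {l : 𝓞 L}
    (hl : l ∈ differentIdeal ℤ (𝓞 L)) :
    ∃ m, MF ((5 : ℂ) • hat φ x) ((5 : ℂ) • hat φ y) ((625 : ℂ) • hat φ l) m := by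
  obtain ⟨b, w, hw, hd⟩ := exists_dual h
  choose C hC using fun k => mf_coef hs (b k)
  let v : Fin 4 → L := fun a => ∑ k, (C k a : L) * w k
  have hv : ∀ (a : Fin 4) (z : 𝓞 L), ∃ n : ℤ, Algebra.trace ℚ L (v a * z) = n := fun a z => by
    choose n hn using fun k => hw k z
    refine ⟨∑ k, C k a * n k, ?_⟩
    simp only [v, Finset.sum_mul, map_sum, ← zsmul_eq_mul, smul_mul_assoc, map_zsmul, hn]
    simp
  have hm : ∀ a b : Fin 4, ∃ n : ℤ, Algebra.trace ℚ L ((l : L) * v a * v b) = n := fun a b => by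
    obtain ⟨z, hz⟩ := diff_mul hl (hv a)
    rw [hz, mul_comm]
    exact hv b z
  choose m hm using hm
  have hf : ∀ (i j : Fin 5), j ≠ 0 →
      ∑ a, fr ((5 : ℂ) • hat φ x) ((5 : ℂ) • hat φ y) a j * φ i (v a) =
        25 * z5 ^ (i.val * j.val) := fun i j hj => by
    have e1 : ∑ a, fr ((5 : ℂ) • hat φ x) ((5 : ℂ) • hat φ y) a j * φ i (v a) =
        ∑ k, 25 * hat φ (b k) j * φ i (w k) := by
      simp only [v, map_sum, map_mul, map_intCast, Finset.mul_sum]
      rw [Finset.sum_comm]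
      refine Finset.sum_congr rfl fun k _ => ?_
      rw [← hC k j hj, Finset.sum_mul]
      exact Finset.sum_congr rfl fun a _ => by ring
    have e2 : ∑ k, 25 * hat φ (b k) j * φ i (w k) =
        ∑ i' : Fin 5, 25 * z5 ^ (i'.val * j.val) * ∑ k, φ i' (b k : L) * φ i (w k) := by
      simp only [hat, ft, em, Finset.mul_sum, Finset.sum_mul]
      rw [Finset.sum_comm]
      exact Finset.sum_congr rfl fun i' _ => Finset.sum_congr rfl fun k _ => by ring
    rw [e1, e2]
    simp [hd]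
  refine ⟨Matrix.of m, ?_, fun j k hj hk => ?_⟩
  · ext a b
    have : (m b a : ℚ) = m a b := by rw [← hm, ← hm, mul_right_comm]
    exact_mod_cast this
  · have e : ∀ a b, ((Matrix.of m a b : ℤ) : ℂ) = ∑ i, φ i (l : L) * φ i (v a) * φ i (v b) :=
      fun a b => by
        simp only [← map_mul]
        rw [h.sum_trace, hm]
        simp
    have e3 : ∑ a : Fin 4, ∑ b : Fin 4, fr ((5 : ℂ) • hat φ x) ((5 : ℂ) • hat φ y) a j *
        ((Matrix.of m a b : ℤ) : ℂ) * fr ((5 : ℂ) • hat φ x) ((5 : ℂ) • hat φ y) b k =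
        ∑ i, φ i (l : L) * (∑ a, fr ((5 : ℂ) • hat φ x) ((5 : ℂ) • hat φ y) a j * φ i (v a)) *
          ∑ b, fr ((5 : ℂ) • hat φ x) ((5 : ℂ) • hat φ y) b k * φ i (v b) := by
      simp only [e, Fin.sum_univ_four, Fin.sum_univ_five]
      ring
    rw [e3]
    simp only [hf _ j hj, hf _ k hk]
    rw [Pi.smul_apply, smul_eq_mul, hat, ← ft_char, Finset.mul_sum]
    exact Finset.sum_congr rfl fun i _ => by simp only [em]; ring

end Pool.Agent.Lib.MP_af4c59_nt.H57
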