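import Pool.Agent.Lib.MP_af4c59_nt.H57Pent
import Pool.Agent.Shared.Subspace.Lattice

/-!
Short independent elements of an ideal.
-/

set_option autoImplicit false

namespace Pool.Agent.Lib.MP_af4c59_nt.H57

open Matrix

open NumberField

/-- The real model of the vector of conjugates. -/
noncomputable def rm (z : Fin 5 → ℂ) : Fin 5 → ℝ := fun i => (z i).re + (z i).im

theorem mink_conj {L : Type} [Field L] [NumberField L] {φ : Fin 5 → (L →+* ℂ)} (h : Pent φ) :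
    ∃ σ : Fin 5 ≃ Fin 5, ∀ (x : 𝓞 L) (i : Fin 5),
      em φ x (σ i) = (starRingEnd ℂ) (em φ x i) := by
  choose s hs using fun i => h.surj ((starRingEnd ℂ).comp (φ i))
  have hinj : Function.Injective s := by
    intro i j hij
    apply h.inj
    ext x
    have h1 : (starRingEnd ℂ).comp (φ i) x = (starRingEnd ℂ).comp (φ j) x := by
      rw [← hs i, ← hs j, hij]
    exact (starRingEnd ℂ).injective h1
  refine ⟨Equiv.ofBijective s (Finite.injective_iff_bijective.1 hinj), fun x i => ?_⟩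
  show φ (s i) (x : L) = _
  rw [hs i]
  rfl

theorem Pent.rm_dot {L : Type} [Field L] [NumberField L] {φ : Fin 5 → (L →+* ℂ)} (h : Pent φ)
    (x y : 𝓞 L) : ((rm (em φ x) ⬝ᵥ rm (em φ y) : ℝ) : ℂ) =
      ∑ i, em φ x i * (starRingEnd ℂ) (em φ y i) := by
  obtain ⟨σ, hσ⟩ := mink_conj h
  have key : ∀ u w : 𝓞 L, ∑ i, (em φ u i).re * (em φ w i).im = 0 := by
    intro u w
    have h1 := Equiv.sum_comp σ fun i => (em φ u i).re * (em φ w i).im
    simp only [hσ, Complex.conj_re, Complex.conj_im, mul_neg, Finset.sum_neg_distrib] at h1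
    linarith
  have k1 := key x y
  have k2 := key y x
  simp only [Fin.sum_univ_five] at k1 k2
  apply Complex.ext
  · simp only [Complex.ofReal_re, dotProduct, rm, Fin.sum_univ_five, Complex.add_re,
      Complex.mul_re, Complex.conj_re, Complex.conj_im]
    linarith
  · simp only [Complex.ofReal_im, Fin.sum_univ_five, Complex.add_im,
      Complex.mul_im, Complex.conj_re, Complex.conj_im]
    linarith

/-- The real model as an additive map. -/
noncomputable def mink_F {L : Type} [Field L] [NumberField L] (φ : Fin 5 → (L →+* ℂ)) :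
    𝓞 L →+ (Fin 5 → ℝ) where
  toFun x := rm (em φ x)
  map_zero' := by ext i; simp [rm, em]
  map_add' x y := by ext i; simp only [rm, em_add, Pi.add_apply, Complex.add_re, Complex.add_im]; ring

theorem mink_gram {L : Type} [Field L] [NumberField L] {φ : Fin 5 → (L →+* ℂ)} (h : Pent φ)
    (l : Fin 5 → 𝓞 L) : (Matrix.of fun k => mink_F φ (l k)).det ^ 2 =
      ‖(Matrix.of fun k => em φ (l k)).det‖ ^ 2 := by
  set R : Matrix (Fin 5) (Fin 5) ℝ := Matrix.of fun k => mink_F φ (l k) with hR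
  set E : Matrix (Fin 5) (Fin 5) ℂ := Matrix.of fun k => em φ (l k) with hE
  have h1 : Complex.ofRealHom.mapMatrix (R * Rᵀ) = E * Eᴴ := by
    ext i j
    exact h.rm_dot (l i) (l j)
  have h2 := congrArg Matrix.det h1
  rw [← RingHom.map_det, det_mul, det_mul, det_transpose, det_conjTranspose,
    Complex.star_def, Complex.mul_conj, Complex.normSq_eq_norm_sq] at h2
  rw [sq]
  exact Complex.ofReal_injective h2

theorem mink_norm {L : Type} [Field L] [NumberField L] {φ : Fin 5 → (L →+* ℂ)} (h : Pent φ)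
    (x : 𝓞 L) : ‖em φ x‖ ≤ 3 * ‖mink_F φ x‖ := by
  have h0 : 0 ≤ 3 * ‖mink_F φ x‖ := by positivity
  have h1 := h.rm_dot x x
  simp only [Complex.mul_conj, Complex.normSq_eq_norm_sq] at h1
  have h2 : rm (em φ x) ⬝ᵥ rm (em φ x) = ∑ i, ‖em φ x i‖ ^ 2 := by exact_mod_cast h1
  have h3 : rm (em φ x) ⬝ᵥ rm (em φ x) ≤ 5 * ‖mink_F φ x‖ ^ 2 := by
    have : ∀ i, rm (em φ x) i * rm (em φ x) i ≤ ‖mink_F φ x‖ ^ 2 := fun i => by
      have h4 : |rm (em φ x) i| ≤ ‖mink_F φ x‖ := norm_le_pi_norm (mink_F φ x) i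
      rw [← sq, ← sq_abs]
      exact pow_le_pow_left₀ (abs_nonneg _) h4 2
    calc _ ≤ ∑ _i : Fin 5, ‖mink_F φ x‖ ^ 2 := Finset.sum_le_sum fun i _ => this i
      _ = _ := by simp
  refine (pi_norm_le_iff_of_nonneg h0).2 fun i => ?_
  have h5 : ‖em φ x i‖ ^ 2 ≤ ∑ j, ‖em φ x j‖ ^ 2 :=
    Finset.single_le_sum (f := fun j => ‖em φ x j‖ ^ 2) (fun j _ => sq_nonneg _) (Finset.mem_univ i)
  refine le_of_sq_le_sq ?_ h0
  nlinarith [sq_nonneg ‖mink_F φ x‖]

theorem mink_det (v w : Fin 5 → Fin 5 → ℝ) (t : Fin 5 → Fin 5 → ℤ)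
    (h : ∀ k, w k = ∑ j, t k j • v j) :
    (Matrix.of w).det = ((Matrix.of t).det : ℝ) * (Matrix.of v).det := by
  have h1 : Matrix.of w = (Int.castRingHom ℝ).mapMatrix (Matrix.of t) * Matrix.of v := by
    ext k i
    simp [h k, Matrix.mul_apply]
  rw [h1, det_mul, ← RingHom.map_det]
  rfl

theorem mink_fin {L : Type} [Field L] [NumberField L] {φ : Fin 5 → (L →+* ℂ)} (h : Pent φ)
    (r : ℝ) : {x : 𝓞 L | ‖mink_F φ x‖ ≤ r}.Finite := by
  have h1 := (NumberField.Embeddings.finite_of_norm_le L ℂ (3 * r)).preimage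
    (f := fun x : 𝓞 L => (x : L)) (RingOfIntegers.coe_injective.injOn)
  refine h1.subset fun x hx => ⟨x.2, fun ψ => ?_⟩
  obtain ⟨i, rfl⟩ := h.surj ψ
  have h2 : ‖em φ x i‖ ≤ ‖em φ x‖ := norm_le_pi_norm _ i
  have h3 := mink_norm h x
  have h4 : ‖mink_F φ x‖ ≤ r := hx
  exact h2.trans (by linarith)

theorem mink_basis {L : Type} [Field L] [NumberField L] {φ : Fin 5 → (L →+* ℂ)} (h : Pent φ)
    {I : Ideal (𝓞 L)} (hI : I ≠ ⊥) : ∃ a : Fin 5 → 𝓞 L, (∀ k, a k ∈ I) ∧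
      (Matrix.of fun k => mink_F φ (a k)).det ≠ 0 ∧
      (Matrix.of fun k => mink_F φ (a k)).det ^ 2 =
        (Ideal.absNorm I : ℝ) ^ 2 * |((discr L : ℤ) : ℝ)| := by
  obtain ⟨b⟩ := h.basis
  let bI := Ideal.selfBasis b I hI
  have h1 := Ideal.natAbs_det_basis_change b I bI
  have h2 := mink_det (fun k => mink_F φ (b k)) (fun k => mink_F φ (bI k))
    (fun k j => b.repr (bI k) j) fun k => by
      conv_lhs => rw [← b.sum_repr (bI k : 𝓞 L)]
      rw [map_sum]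
      simp only [map_zsmul]
  have h3 : (Matrix.of fun k j => b.repr (bI k) j).det = b.det ((↑) ∘ bI) := by
    rw [Module.Basis.det_apply, ← det_transpose]
    rfl
  have h4 : (((Matrix.of fun k j => b.repr (bI k) j).det : ℤ) : ℝ) ^ 2 =
      (Ideal.absNorm I : ℝ) ^ 2 := by
    rw [h3, ← h1, Nat.cast_natAbs, Int.cast_abs, sq_abs]
  have h5 : (Matrix.of fun k => mink_F φ (bI k)).det ^ 2 =
      (Ideal.absNorm I : ℝ) ^ 2 * |((discr L : ℤ) : ℝ)| := by
    rw [h2, mul_pow, h4, mink_gram h, h.det_sq]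
  refine ⟨fun k => bI k, fun k => (bI k).2, fun h0 => ?_, h5⟩
  have h6 : (Ideal.absNorm I : ℝ) ≠ 0 := by
    exact_mod_cast fun h7 => hI (Ideal.absNorm_eq_zero_iff.1 h7)
  have h7 : ((discr L : ℤ) : ℝ) ≠ 0 := by exact_mod_cast discr_ne_zero L
  rw [h0] at h5
  have h8 : 0 < (Ideal.absNorm I : ℝ) ^ 2 * |((discr L : ℤ) : ℝ)| := by positivity
  rw [← h5] at h8
  norm_num at h8

theorem mink2 : ∃ C : ℝ, 1 ≤ C ∧ ∀ (L : Type) [Field L] [NumberField L]
    (φ : Fin 5 → (L →+* ℂ)) (I : Ideal (𝓞 L)), Pent φ → I ≠ ⊥ →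
    ∃ (l : Fin 5 → 𝓞 L) (lam : Fin 5 → ℝ), (∀ k, l k ∈ I) ∧ (∀ k, ‖em φ (l k)‖ ≤ lam k) ∧
      Monotone lam ∧ (Matrix.of fun k => em φ (l k)).det ≠ 0 ∧
      (∏ k, lam k) ^ 2 ≤ C * (Ideal.absNorm I : ℝ) ^ 2 * |((discr L : ℤ) : ℝ)| := by
  obtain ⟨C, hC, hred⟩ := Pool.Agent.Subspace.lattice_reduction 5
  have hC3 : 1 ≤ 3 * C := by linarith
  refine ⟨((3 * C) ^ 5 * C) ^ 2, one_le_pow₀ (one_le_mul_of_one_le_of_one_le (one_le_pow₀ hC3) hC),
    fun L _ _ φ I h hI => ?_⟩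
  obtain ⟨a, ha, ha0, ha2⟩ := mink_basis h hI
  obtain ⟨v, pm, lam, hv, hgen, hpos, hmono, hbd, hprod⟩ :=
    hred (I.toAddSubgroup.map (mink_F φ))
      (fun r => ((mink_fin h r).image (mink_F φ)).subset (by
        rintro _ ⟨⟨x, -, rfl⟩, hx⟩
        exact ⟨x, hx, rfl⟩))
      (fun w hw => eq_zero_of_mulVec_eq_zero ha0 (funext fun k => by
        have := hw _ ⟨a k, ha k, rfl⟩
        rw [dotProduct_comm] at this
        exact this))
  choose l hl hlv using hv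
  choose t ht using fun k => hgen _ ⟨a k, ha k, rfl⟩
  have hd := mink_det v (fun k => mink_F φ (a k)) t ht
  have hv' : (Matrix.of fun k => mink_F φ (l k)) = Matrix.of v := by
    congr 1; exact funext hlv
  have hp : 0 < ∏ k, lam k := Finset.prod_pos fun k _ => hpos k
  have ht0 : (Matrix.of t).det ≠ 0 := fun h0 => ha0 (by rw [hd, h0]; simp)
  have hv0 : (Matrix.of v).det ≠ 0 := fun h0 => ha0 (by rw [hd, h0]; simp)
  have ht1 : 1 ≤ (((Matrix.of t).det : ℤ) : ℝ) ^ 2 := by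
    exact_mod_cast (one_le_sq_iff_one_le_abs _).2 (Int.one_le_abs ht0)
  have hle : (Matrix.of v).det ^ 2 ≤ (Ideal.absNorm I : ℝ) ^ 2 * |((discr L : ℤ) : ℝ)| := by
    rw [← ha2, hd, mul_pow]
    exact le_mul_of_one_le_left (sq_nonneg _) ht1
  refine ⟨l, fun k => 3 * C * lam k, hl, fun k => (mink_norm h (l k)).trans ?_,
    fun i j hij => mul_le_mul_of_nonneg_left (hmono hij) (by linarith), fun h0 => hv0 ?_, ?_⟩
  · have h1 : ‖v k‖ ≤ C * lam k := by
      refine (pi_norm_le_iff_of_nonneg (mul_nonneg (by linarith) (hpos k).le)).2 fun i => ?_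
      have h2 := hbd (pm.symm i) k
      rw [Equiv.apply_symm_apply] at h2
      exact h2.trans (mul_le_mul_of_nonneg_left (min_le_right _ _) (by linarith))
    rw [hlv k]
    linarith
  · have h1 := mink_gram h l
    rw [hv', h0, norm_zero] at h1
    exact pow_eq_zero_iff (two_ne_zero) |>.1 (by rw [h1]; norm_num)
  · rw [Finset.prod_mul_distrib, Finset.prod_const, Finset.card_univ, Fintype.card_fin]
    have h1 : (3 * C) ^ 5 * ∏ k, lam k ≤ (3 * C) ^ 5 * C * |(Matrix.of v).det| := by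
      rw [mul_assoc]
      exact mul_le_mul_of_nonneg_left hprod (by positivity)
    have h2 := pow_le_pow_left₀ (by positivity) h1 2
    rw [mul_pow _ |_|, sq_abs] at h2
    rw [mul_assoc (((3 * C) ^ 5 * C) ^ 2)]
    exact h2.trans (mul_le_mul_of_nonneg_left hle (by positivity))

theorem short : ∃ C : ℝ, 1 ≤ C ∧ ∀ (L : Type) [Field L] [NumberField L]
    (φ : Fin 5 → (L →+* ℂ)), Pent φ → ∃ (x : 𝓞 L) (r : ℝ), ¬ Eq0 (hat φ x) 0 ∧
      Bd0 (hat φ x) r ∧ r ^ 8 ≤ C * |((discr L : ℤ) : ℝ)| := by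
  obtain ⟨C, hC, hm⟩ := mink2
  refine ⟨5 ^ 8 * C, by linarith, fun L _ _ φ h => ?_⟩
  obtain ⟨l, lam, -, hl, hmono, hdet, hprod⟩ := hm L φ ⊤ h top_ne_bot
  rw [Ideal.absNorm_top, Nat.cast_one, one_pow, mul_one] at hprod
  have hl0 : l 0 ≠ 0 := fun h0 => hdet (det_eq_zero_of_row_eq_zero 0 fun i => by
    simp [h0, em])
  have h0 : 1 ≤ lam 0 := (h.one_le hl0).trans (hl 0)
  have h1 : lam 0 ≤ lam 1 := hmono (by decide)
  have h2 : lam 1 ≤ lam 2 := hmono (by decide)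
  have h3 : lam 1 ≤ lam 3 := hmono (by decide)
  have h4 : lam 1 ≤ lam 4 := hmono (by decide)
  have hp : 0 ≤ lam 1 := by linarith
  have h5 : lam 1 ^ 4 ≤ ∏ k, lam k := by
    rw [Fin.prod_univ_five]
    have p0 : 0 ≤ lam 0 := by linarith
    have p2 : 0 ≤ lam 2 := by linarith
    have p3 : 0 ≤ lam 3 := by linarith
    calc lam 1 ^ 4 = 1 * lam 1 * lam 1 * lam 1 * lam 1 := by ring
      _ ≤ _ := by gcongr
  have h6 : (5 * lam 1) ^ 8 ≤ 5 ^ 8 * C * |((discr L : ℤ) : ℝ)| := by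
    have h7 := pow_le_pow_left₀ (by positivity) h5 2
    calc (5 * lam 1) ^ 8 = 5 ^ 8 * (lam 1 ^ 4) ^ 2 := by ring
      _ ≤ 5 ^ 8 * (C * |((discr L : ℤ) : ℝ)|) := by gcongr; exact h7.trans hprod
      _ = _ := by ring
  have hbd : ∀ k, lam k ≤ lam 1 → Bd0 (hat φ (l k)) (5 * lam 1) := fun k hk j _ =>
    (norm_ft _ j).trans (by linarith [hl k])
  by_cases e0 : Eq0 (hat φ (l 0)) 0
  · refine ⟨l 1, _, fun e1 => hdet ?_, hbd 1 le_rfl, h6⟩
    obtain ⟨n0, hn0⟩ := h.const e0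
    obtain ⟨n1, hn1⟩ := h.const e1
    have hn : (n0 : ℂ) ≠ 0 := by
      intro h7
      apply hl0
      rw [hn0, Int.cast_eq_zero.1 h7, Int.cast_zero]
    refine exists_vecMul_eq_zero_iff.1 ⟨![(n1 : ℂ), -(n0 : ℂ), 0, 0, 0], fun h7 => hn ?_, ?_⟩
    · simpa using congrFun h7 1
    · ext i
      simp [vecMul, dotProduct, Fin.sum_univ_five, hn0, hn1, em_intCast, mul_comm]
  · exact ⟨l 0, _, e0, hbd 0 h1, h6⟩

end Pool.Agent.Lib.MP_af4c59_nt.H57
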