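import Pool.Agent.Lib.MP_af4c59_nt.H57Scale

/-!
Pure spinors and lines.
-/

set_option autoImplicit false

namespace Pool.Agent.Lib.MP_af4c59_nt.H57

open Matrix

section

variable {R : Type} [CommRing R]

theorem h57pure_single (i : Fin 10) (w : Fin 10 → R) : BV w (Pi.single (i + 5) 1) = w i := by
  revert i
  apply all10 <;> simp [BV]

theorem h57pure_key {v : Fin 10 → R} {x : Fin 16 → R} (hx : gam v x = 0) (a : Fin 10 → R)
    (r : Fin 16 → R) : x ⬝ᵥ gam a (gat v r) = BV a v * (x ⬝ᵥ r) := by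
  have h1 : gam a (gat v r) = BV a v • r - gam v (gat a r) := by
    rw [← cliff2]; abel
  rw [h1, dotProduct_sub, dotProduct_smul, gam_symm v x, hx, dotProduct_zero, sub_zero,
    smul_eq_mul]

theorem h57pure_back (u : Fin 10 → R) {v : Fin 10 → R} {y : Fin 16 → R} (hy : gam v y = 0) :
    gat v (gam u y) = BV u v • y := by
  rw [← cliff1, hy, gat_zero, zero_add]

theorem h57pure_gen (u a : Fin 10 → R) {v : Fin 10 → R} {x y : Fin 16 → R} (hx : gam v x = 0)
    (hy : gam v y = 0) : BV u v * BV (mu x y) a = BV a v * BV (mu x y) u := by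
  have h1 := h57pure_key hx a (gam u y)
  rw [h57pure_back u hy, gam_smul, dotProduct_smul, smul_eq_mul] at h1
  rw [mu_BV, mu_BV, h1]

/-- On the kernel of a primitive null vector the ten quadrics are proportional. -/
theorem mu_eq_smul {u v : Fin 10 → R} (h : BV u v = 1) {x y : Fin 16 → R} (hx : gam v x = 0)
    (hy : gam v y = 0) : mu x y = (x ⬝ᵥ gam u y) • v := by
  apply BV_ext
  intro a
  have h1 := h57pure_gen u a hx hy
  rw [h, one_mul] at h1
  rw [h1, BV_smul, mu_BV, BV_comm v a, mul_comm]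

theorem proj_iff {u v : Fin 10 → R} (h : BV u v = 1) (hq : qV v = 0) (x : Fin 16 → R) :
    (gatM v * gamM u) *ᵥ x = x ↔ gam v x = 0 := by
  rw [← Matrix.mulVec_mulVec, gamM_mulVec, gatM_mulVec]
  constructor
  · intro hx
    rw [← hx, gam_gat_self, hq, zero_smul]
  · intro hx
    rw [h57pure_back u hx, h, one_smul]

theorem gat_gam_gat {u v : Fin 10 → R} (h : BV u v = 1) (hq : qV v = 0) :
    gatM v * gamM u * gatM v = gatM v := by
  apply Matrix.ext_of_mulVec_single
  intro i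
  rw [← Matrix.mulVec_mulVec, proj_iff h hq, gatM_mulVec, gam_gat_self, hq, zero_smul]

theorem h57pure_smul [IsDomain R] {c : R} {s : Fin 16 → R} (hs : s ≠ 0) (h : c • s = 0) :
    c = 0 := by
  obtain ⟨i, hi⟩ := Function.ne_iff.mp hs
  have h1 := congrFun h i
  simp only [Pi.smul_apply, smul_eq_mul, Pi.zero_apply, mul_eq_zero] at h1
  rcases h1 with h1 | h1
  · exact h1
  · exact absurd h1 hi

theorem BV_eq_zero [IsDomain R] {u v : Fin 10 → R} {s : Fin 16 → R} (hs : s ≠ 0)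
    (hu : gam u s = 0) (hv : gam v s = 0) : BV u v = 0 := by
  apply h57pure_smul hs
  rw [← h57pure_back u hv, hu, gat_zero]

theorem qV_eq_zero [IsDomain R] {v : Fin 10 → R} {s : Fin 16 → R} (hs : s ≠ 0)
    (hv : gam v s = 0) : qV v = 0 := by
  apply h57pure_smul hs
  rw [← gat_gam_self, hv, gat_zero]

theorem h57pure_par {v : Fin 10 → R} {s : Fin 16 → R} (hv : gam v s = 0) (i j : Fin 10) :
    v i * mu s s j = v j * mu s s i := by
  have h1 := h57pure_gen (Pi.single (i + 5) 1) (Pi.single (j + 5) 1) hv hv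
  rwa [BV_comm _ v, BV_comm _ v, h57pure_single, h57pure_single, h57pure_single,
    h57pure_single] at h1

theorem h57pure_neg_gam {s s' : Fin 16 → R} (h : mu s s' = 0) (x : Fin 16 → R) :
    gam (mu x s) s' = -gam (mu s' x) s := by
  have h1 := fierz x s s'
  rw [h, zero_gam, add_zero] at h1
  exact eq_neg_of_add_eq_zero_left h1

end

theorem h57pure_ann {K : Type} [Field K] [CharZero K] {s : Fin 16 → K} (hp : mu s s = 0)
    (x : Fin 16 → K) : gam (mu x s) s = 0 := by
  have h1 := h57pure_neg_gam hp x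
  rw [mu_comm s x] at h1
  have h2 : (2 : K) • gam (mu x s) s = 0 := by
    rw [two_smul]
    nth_rewrite 1 [h1]
    exact neg_add_cancel _
  rcases smul_eq_zero.mp h2 with h3 | h3
  · exact absurd h3 two_ne_zero
  · exact h3

theorem prim_BV {v : Fin 10 → ℤ} (h : Prim v) : ∃ u, BV u v = 1 := by
  obtain ⟨w, hw⟩ := h
  refine ⟨fun i => w (i + 5), ?_⟩
  rw [← hw, dot10]
  simp only [BV, Fin.reduceAdd]
  ring

theorem pure_of_two {v w : Fin 10 → ℤ} {s : Fin 16 → ℤ} (hvw : NP v w) (hv : gam v s = 0)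
    (hw : gam w s = 0) : mu s s = 0 := by
  obtain ⟨i, j, hij⟩ := hvw
  have hd : v i * w j - v j * w i ≠ 0 := sub_ne_zero.mpr hij
  funext k
  have a1 := h57pure_par hv i k
  have a2 := h57pure_par hv j k
  have b1 := h57pure_par hw i j
  have b2 := h57pure_par hw k i
  have b3 := h57pure_par hw k j
  have a3 := h57pure_par hv i j
  have hi : mu s s i = 0 := by
    have : (v i * w j - v j * w i) * mu s s i = 0 := by
      linear_combination (-v i) * b1 + w i * a3
    exact (mul_eq_zero.mp this).resolve_left hd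
  have hj : mu s s j = 0 := by
    have : (v i * w j - v j * w i) * mu s s j = 0 := by
      linear_combination (-v j) * b1 + w j * a3
    exact (mul_eq_zero.mp this).resolve_left hd
  have : (v i * w j - v j * w i) * mu s s k = 0 := by
    rw [hi] at a1
    rw [hj] at a2
    linear_combination w j * a1 - w i * a2
  exact (mul_eq_zero.mp this).resolve_left hd

/-- The annihilator of a spinor has dimension at most five. -/
theorem ann_span {v : Fin 5 → Fin 10 → ℚ} (hv : LinearIndependent ℚ v) {s : Fin 16 → ℚ}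
    (hs : s ≠ 0) (h : ∀ k, gam (v k) s = 0) {y : Fin 10 → ℚ} (hy : gam y s = 0) :
    ∃ c : Fin 5 → ℚ, y = ∑ k, c k • v k := by
  by_contra hc
  have hn : y ∉ Submodule.span ℚ (Set.range v) := by
    intro hm
    obtain ⟨c, hc'⟩ := (Submodule.mem_span_range_iff_exists_fun ℚ).mp hm
    exact hc ⟨c, hc'.symm⟩
  have hli : LinearIndependent ℚ (Fin.cons y v : Fin 6 → Fin 10 → ℚ) :=
    linearIndependent_finCons.mpr ⟨hv, hn⟩
  set w : Fin 6 → Fin 10 → ℚ := Fin.cons y v with hw
  have hws : ∀ k, gam (w k) s = 0 := by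
    intro k
    refine Fin.cases ?_ (fun i => ?_) k
    · exact hy
    · exact h i
  let e : (Fin 10 → ℚ) ≃ₗ[ℚ] (Fin 10 → ℚ) :=
    LinearEquiv.funCongrLeft ℚ ℚ (Equiv.addRight (5 : Fin 10))
  have hli2 : LinearIndependent ℚ (e.toLinearMap ∘ w) := hli.map' _ e.ker
  let M : Matrix (Fin 6) (Fin 10) ℚ := Matrix.of w
  let N : Matrix (Fin 6) (Fin 10) ℚ := Matrix.of (e.toLinearMap ∘ w)
  have hM : M.rank = 6 := by
    have := LinearIndependent.rank_matrix (M := M) hli
    simpa using this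
  have hN : Nᵀ.rank = 6 := by
    have := LinearIndependent.rank_matrix (M := N) hli2
    rw [Matrix.rank_transpose]
    simpa using this
  have hz : M * Nᵀ = 0 := by
    ext k l
    have h0 : BV (w k) (w l) = 0 := BV_eq_zero hs (hws k) (hws l)
    have h1 : (M * Nᵀ) k l = ∑ i : Fin 10, w k i * w l (i + 5) := rfl
    rw [h1, sum10, Matrix.zero_apply, ← h0]
    simp only [BV, Fin.reduceAdd]
    ring
  have := Matrix.rank_add_rank_le_card_of_mul_eq_zero hz
  rw [hM, hN] at this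
  simp at this

theorem line_prop {K : Type} [Field K] [CharZero K] {v w : Fin 10 → K} {s s' : Fin 16 → K}
    (hs : s ≠ 0) (hp : mu s s = 0) (hv : gam v s = 0) (hw : gam w s = 0) (h : mu s s' = 0)
    (r : Fin 16 → K) : (s ⬝ᵥ r) • gat v (gam w s') = (gat v (gam w s') ⬝ᵥ r) • s := by
  have h1 : mu s (gat v (gam w s')) = 0 := by
    apply BV_ext
    intro a
    rw [mu_BV, h57pure_key hv, gam_symm w s s', hw, dotProduct_zero, mul_zero]
    simp [BV]
  have h2 : ∀ x, gam (mu x s) (gat v (gam w s')) = 0 := by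
    intro x
    have hy := h57pure_ann hp x
    have hyv : BV (mu x s) v = 0 := BV_eq_zero hs hy hv
    have hyw : BV (mu x s) w = 0 := BV_eq_zero hs hy hw
    have e1 := cliff2 (mu x s) v (gam w s')
    rw [hyv, zero_smul] at e1
    have e2 := cliff1 (mu x s) w s'
    rw [hyw, zero_smul, h57pure_neg_gam h x, gat_neg, h57pure_back _ hw] at e2
    have e3 : gat (mu x s) (gam w s') = BV (mu s' x) w • s := by
      rw [← sub_eq_zero, sub_eq_add_neg]; exact e2
    rw [e3, gam_smul, hv, smul_zero, add_zero] at e1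
    exact e1
  have h3 := fierz2 r s (gat v (gam w s'))
  simp only [h2, gat_zero, Finset.sum_const_zero, h1, zero_gat, add_zero] at h3
  rcases smul_eq_zero.mp h3.symm with h4 | h4
  · exact absurd h4 two_ne_zero
  · exact sub_eq_zero.mp h4

theorem h57pure_sum_gat {R : Type} [CommRing R] (c : Fin 5 → R) (v : Fin 5 → Fin 10 → R)
    (x : Fin 16 → R) : gat (∑ k, c k • v k) x = ∑ k, c k • gat (v k) x := by
  simp only [Fin.sum_univ_five, add_gat, smul_gat]

theorem h57pure_gat_sum_gam {R : Type} [CommRing R] (c : Fin 5 → R) (v : Fin 5 → Fin 10 → R)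
    (u : Fin 10 → R) (x : Fin 16 → R) :
    gat u (gam (∑ k, c k • v k) x) = ∑ k, c k • gat u (gam (v k) x) := by
  simp only [Fin.sum_univ_five, add_gam, smul_gam, gat_add, gat_smul]

theorem line_ne {v : Fin 5 → Fin 10 → ℚ} (hv : LinearIndependent ℚ v) {s s' : Fin 16 → ℚ}
    (hp : mu s s = 0) (h : ∀ k, gam (v k) s = 0) (hs : mu s s' = 0) (hn : NP s s') :
    ∃ i j, i ≠ j ∧ gat (v i) (gam (v j) s') ≠ 0 := by
  by_contra hc
  push Not at hc
  obtain ⟨i0, j0, hij⟩ := hn
  have hs0 : s ≠ 0 := by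
    rintro rfl
    simp at hij
  have hall : ∀ i j, gat (v i) (gam (v j) s') = 0 := by
    intro i j
    by_cases e : i = j
    · rw [e, gat_gam_self, qV_eq_zero hs0 (h j), zero_smul]
    · exact hc i j e
  have hy : ∀ y y', gam y s = 0 → gam y' s = 0 → gat y (gam y' s') = 0 := by
    intro y y' h1 h2
    obtain ⟨c, rfl⟩ := ann_span hv hs0 h h1
    obtain ⟨d, rfl⟩ := ann_span hv hs0 h h2
    rw [h57pure_sum_gat]
    simp only [h57pure_gat_sum_gam, hall, smul_zero, Finset.sum_const_zero]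
  have hx : ∀ x, gam (mu x s) s' = 0 := by
    intro x
    rw [h57pure_neg_gam hs x, neg_eq_zero]
    funext i
    have h1 := hy _ _ (h57pure_ann hp (Pi.single i 1)) (h57pure_ann hp x)
    rw [h57pure_neg_gam hs x, gat_neg, neg_eq_zero,
      h57pure_back _ (h57pure_ann hp (Pi.single i 1))] at h1
    have h2 := h57pure_smul hs0 h1
    rw [BV_comm, mu_BV] at h2
    simpa using h2
  have h3 := fierz2 (Pi.single i0 1) s s'
  simp only [hx, gat_zero, Finset.sum_const_zero, hs, zero_gat, add_zero] at h3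
  rcases smul_eq_zero.mp h3.symm with h4 | h4
  · exact absurd h4 two_ne_zero
  · have h5 := congrFun (sub_eq_zero.mp h4) j0
    simp only [dotProduct_single, mul_one, Pi.smul_apply, smul_eq_mul] at h5
    exact hij (by rw [h5, mul_comm])

theorem h57pure_vc_inj {n : Type} {x y : n → ℤ} (h : vc ℚ x = vc ℚ y) : x = y := by
  funext i
  have := congrFun h i
  simpa [vc] using this

theorem h57pure_vc_zero (K : Type) [CommRing K] {n : Type} : vc K (0 : n → ℤ) = 0 := by
  funext i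
  simp [vc]

theorem lineW {v : Fin 5 → Fin 10 → ℤ} (hv : LinearIndependent ℚ fun k => vc ℚ (v k))
    {s s' : Fin 16 → ℤ} (hs : Prim s) (hp : mu s s = 0) (h : ∀ k, gam (v k) s = 0)
    (hs' : mu s s' = 0) (hn : NP s s') {t : ℝ} (ht : 0 < t) :
    ∃ i j, i ≠ j ∧ ‖tS t s‖ ^ 2 ≤ 25 * ‖tV t (v i)‖ * ‖tV t (v j)‖ * ar (tS t s) (tS t s') := by
  obtain ⟨w, hw⟩ := hs
  have hpQ : mu (vc ℚ s) (vc ℚ s) = 0 := by rw [← vc_mu, hp, h57pure_vc_zero]
  have hQ : ∀ k, gam (vc ℚ (v k)) (vc ℚ s) = 0 := fun k => by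
    rw [← vc_gam, h k, h57pure_vc_zero]
  have hsQ : mu (vc ℚ s) (vc ℚ s') = 0 := by rw [← vc_mu, hs', h57pure_vc_zero]
  have hnQ : NP (vc ℚ s) (vc ℚ s') := NP_vc.mpr hn
  have hs0 : vc ℚ s ≠ 0 := by
    intro h0
    obtain ⟨i, j, hij⟩ := hnQ
    rw [h0] at hij
    simp at hij
  obtain ⟨i, j, hij, hne⟩ := line_ne hv hpQ hQ hsQ hnQ
  refine ⟨i, j, hij, ?_⟩
  have h1 := line_prop hs0 hpQ (hQ i) (hQ j) hsQ (vc ℚ w)
  rw [← vc_gam, ← vc_gat] at h1 hne
  set ω := gat (v i) (gam (v j) s') with hω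
  rw [← vc_dot, ← vc_dot, hw, Int.cast_one, one_smul, ← vc_smul] at h1
  have h2 : ω = (ω ⬝ᵥ w) • s := h57pure_vc_inj h1
  set n : ℤ := ω ⬝ᵥ w with hn'
  have hn0 : n ≠ 0 := by
    intro h0
    apply hne
    rw [h2, h0, zero_smul, h57pure_vc_zero]
  have hn1 : (1 : ℝ) ≤ ‖(n : ℝ)‖ := by
    rw [Real.norm_eq_abs]
    exact_mod_cast Int.one_le_abs hn0
  obtain ⟨c, hc⟩ := exists_sub_le (tS t s) (tS t s')
  have h3 : gam (tV t (v j)) (tS t s) = 0 := by
    rw [tV, tS, gam_sc ht.ne', ← vc_gam, h j, h57pure_vc_zero]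
    funext k
    simp [scT]
  have h4 : tS t ω = gat (tV t (v i)) (gam (tV t (v j)) (tS t s' - c • tS t s)) := by
    rw [gam_sub, gam_smul, h3, smul_zero, sub_zero, tV, tV, tS, tS, gam_sc ht.ne', gat_sc ht.ne',
      hω, vc_gat, vc_gam]
  have h5 : ‖tS t s‖ ≤ ‖tS t ω‖ := by
    rw [h2, tS_smul, norm_smul]
    exact le_mul_of_one_le_left (norm_nonneg _) hn1
  have h6 : ‖tS t ω‖ ≤ 5 * ‖tV t (v i)‖ * (5 * ‖tV t (v j)‖ * ‖tS t s' - c • tS t s‖) := by
    rw [h4]
    refine (norm_gat _ _).trans ?_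
    exact mul_le_mul_of_nonneg_left (norm_gam _ _) (by positivity)
  calc ‖tS t s‖ ^ 2 = ‖tS t s‖ * ‖tS t s‖ := sq _
    _ ≤ ‖tS t s‖ * (5 * ‖tV t (v i)‖ * (5 * ‖tV t (v j)‖ * ‖tS t s' - c • tS t s‖)) :=
      mul_le_mul_of_nonneg_left (h5.trans h6) (norm_nonneg _)
    _ = 25 * ‖tV t (v i)‖ * ‖tV t (v j)‖ * (‖tS t s‖ * ‖tS t s' - c • tS t s‖) := by ring
    _ ≤ _ := mul_le_mul_of_nonneg_left hc (by positivity)

end Pool.Agent.Lib.MP_af4c59_nt.H57
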