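import Pool.Agent.Lib.MP_af4c59_nt.H57SpanA

/-!
A basis over the quadratic ring.
-/

set_option autoImplicit false

namespace Pool.Agent.Lib.MP_af4c59_nt.H57

open Matrix

open NumberField

variable {L : Type} [Field L] [NumberField L] {φ : Fin 5 → (L →+* ℂ)}

theorem span_T (h : Pent φ) (x : 𝓞 L) :
    ∃ x' : 𝓞 L, Eq0 (hat φ x') fun j => ec j om * hat φ x j := by
  obtain ⟨x', hx'⟩ := h.hT x
  exact ⟨x', fun j hj => by rw [hat, hx', ft_opT _ j hj]; rfl⟩

theorem span_top (h : Pent φ) {x y x' y' : 𝓞 L} (hs : Span φ 1 x y)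
    (hx : Eq0 (hat φ x') fun j => ec j om * hat φ x j)
    (hy : Eq0 (hat φ y') fun j => ec j om * hat φ y j) :
    ⊤ ≤ Submodule.span ℤ (Set.range ![1, x, x', y, y']) := by
  intro z _
  obtain ⟨a, b, hab⟩ := hs z
  obtain ⟨n, hn⟩ := h.const
    (x := z + (-a.re) • x + (-a.im) • x' + (-b.re) • y + (-b.im) • y') (by
      intro j hj
      have h1 := hab j hj
      have h2 := hx j hj
      have h3 := hy j hj
      simp only [hat_add, hat_zsmul, Pi.add_apply, Pi.smul_apply, smul_eq_mul, Pi.zero_apply,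
        one_mul, lc] at h1 h2 h3 ⊢
      rw [h1, h2, h3, ec_apply j a, ec_apply j b]
      push_cast
      ring)
  have hz : z = n • (1 : 𝓞 L) + a.re • x + a.im • x' + b.re • y + b.im • y' := by
    rw [zsmul_one, ← hn]
    simp only [neg_smul]
    abel
  rw [hz]
  have hm : ∀ i : Fin 5, (![1, x, x', y, y'] : Fin 5 → 𝓞 L) i ∈
      Submodule.span ℤ (Set.range ![1, x, x', y, y']) := fun i => Submodule.subset_span ⟨i, rfl⟩
  exact add_mem (add_mem (add_mem (add_mem (Submodule.smul_mem _ _ (hm 0))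
    (Submodule.smul_mem _ _ (hm 1))) (Submodule.smul_mem _ _ (hm 2)))
    (Submodule.smul_mem _ _ (hm 3))) (Submodule.smul_mem _ _ (hm 4))

theorem span_prod (h : Pent φ) {n : ℂ} {x y : 𝓞 L} (hs : Span φ n x y) (u v : 𝓞 L) :
    ∃ a b : O,
      n * hat φ u 3 * (n * hat φ v 3) = c1 a * (n * hat φ x 1) + c1 b * (n * hat φ y 1) ∧
      n * hat φ u 2 * (n * hat φ v 2) = c1 a * (n * hat φ x 4) + c1 b * (n * hat φ y 4) ∧
      n * hat φ u 1 * (n * hat φ v 1) = c2 a * (n * hat φ x 2) + c2 b * (n * hat φ y 2) ∧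
      n * hat φ u 4 * (n * hat φ v 4) = c2 a * (n * hat φ x 3) + c2 b * (n * hat φ y 3) := by
  obtain ⟨z, hz⟩ := h.hP u v
  obtain ⟨a, b, hab⟩ := hs z
  obtain ⟨p1, p4, p2, p3⟩ := ft_opP (em φ u) (em φ v)
  rw [← hz] at p1 p2 p3 p4
  have q1 : n * ft (em φ z) 1 = c1 a * hat φ x 1 + c1 b * hat φ y 1 := hab 1 (by decide)
  have q2 : n * ft (em φ z) 2 = c2 a * hat φ x 2 + c2 b * hat φ y 2 := hab 2 (by decide)
  have q3 : n * ft (em φ z) 3 = c2 a * hat φ x 3 + c2 b * hat φ y 3 := hab 3 (by decide)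
  have q4 : n * ft (em φ z) 4 = c1 a * hat φ x 4 + c1 b * hat φ y 4 := hab 4 (by decide)
  unfold hat at *
  refine ⟨a, b, ?_, ?_, ?_, ?_⟩
  · linear_combination n * q1 - n ^ 2 * p1
  · linear_combination n * q4 - n ^ 2 * p4
  · linear_combination n * q2 - n ^ 2 * p2
  · linear_combination n * q3 - n ^ 2 * p3

theorem span_disc (h : Pent φ) {x y : 𝓞 L} (hs : Span φ 1 x y) :
    ‖d1 (hat φ x) (hat φ y) * d2 (hat φ x) (hat φ y)‖ ^ 2 = 5 * |((discr L : ℤ) : ℝ)| := by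
  obtain ⟨x', hx⟩ := span_T h x
  obtain ⟨y', hy⟩ := span_T h y
  have htop := span_top h hs hx hy
  have hcard : Fintype.card (Fin 5) = Module.finrank ℤ (𝓞 L) := by
    rw [RingOfIntegers.rank, h.deg, Fintype.card_fin]
  have h1 := h.det_sq (basisOfTopLeSpanOfCardEqFinrank _ htop hcard)
  rw [coe_basisOfTopLeSpanOfCardEqFinrank] at h1
  have h2 := det_ft fun k => em φ ((![1, x, x', y, y'] : Fin 5 → 𝓞 L) k)
  have h3 := det_frame (hat φ x) (hat φ x') (hat φ y) (hat φ y') hx hy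
  have h4 : (Matrix.of fun k j => ft (em φ ((![1, x, x', y, y'] : Fin 5 → 𝓞 L) k)) j) =
      Matrix.of ![![5, 0, 0, 0, 0], hat φ x, hat φ x', hat φ y, hat φ y'] := by
    rw [← hat_one (φ := φ)]
    ext k j
    fin_cases k <;> rfl
  rw [h4, h3, h1] at h2
  linarith

theorem sco_of_span (h : Pent φ) {n : ℂ} {x y : 𝓞 L} (hs : Span φ n x y) :
    ∃ s, SCO (n • hat φ x) (n • hat φ y) s := by
  obtain ⟨a0, a1, h1, h2, h3, h4⟩ := span_prod h hs x x
  obtain ⟨a2, a3, k1, k2, k3, k4⟩ := span_prod h hs x y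
  obtain ⟨a4, a5, l1, l2, l3, l4⟩ := span_prod h hs y y
  exact ⟨![a0, a1, a2, a3, a4, a5], ⟨h1, k1, l1⟩, ⟨h2, k2, l2⟩, ⟨h3, k3, l3⟩, ⟨h4, k4, l4⟩⟩

/-- A change of frame of determinant one. -/
theorem Span.change {n : ℂ} {x y x' y' : 𝓞 L} (hs : Span φ n x y) {a b c d : O}
    (hd : a * d - b * c = 1) (hx : Eq0 (hat φ x') (lc a b (hat φ x) (hat φ y)))
    (hy : Eq0 (hat φ y') (lc c d (hat φ x) (hat φ y))) : Span φ n x' y' := by
  intro z
  obtain ⟨p, q, hpq⟩ := hs z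
  refine ⟨p * d - q * c, q * a - p * b, fun j hj => ?_⟩
  have h1 := hpq j hj
  have h2 := hx j hj
  have h3 := hy j hj
  have h4 := congrArg (ec j) hd
  simp only [lc, map_sub, map_mul, map_one] at h1 h2 h3 h4 ⊢
  rw [h1, h2, h3]
  linear_combination (-(ec j p * hat φ x j + ec j q * hat φ y j)) * h4

end Pool.Agent.Lib.MP_af4c59_nt.H57
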