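import Pool.Agent.Lib.MP_af4c59_nt.H57CA1
import Pool.Agent.Lib.MP_af4c59_nt.H57CA2
import Pool.Agent.Lib.MP_af4c59_nt.H57CA5
import Pool.Agent.Lib.MP_af4c59_nt.H57MF
import Pool.Agent.Lib.MP_af4c59_nt.H57Mink
import Pool.Agent.Lib.MP_af4c59_nt.H57Span
import Pool.Agent.Lib.MP_af4c59_nt.H57Pure
import Pool.Agent.Lib.MP_af4c59_nt.H57Cov

/-!
The spinor of a frame belongs to the counted set.
-/

set_option autoImplicit false

namespace Pool.Agent.Lib.MP_af4c59_nt.H57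

open Matrix

open NumberField

theorem adm_np {v : Fin 5 → Fin 10 → ℤ} (hi : LinearIndependent ℚ fun k => vc ℚ (v k)) :
    NP (v 0) (v 1) := by
  by_contra hn
  simp only [NP, not_exists, not_not] at hn
  have h0 : vc ℚ (v 0) ≠ 0 := hi.ne_zero 0
  obtain ⟨i, hi0⟩ := Function.ne_iff.1 h0
  have := Fintype.linearIndependent_iff.1 hi ![(v 1 i : ℚ), -(v 0 i : ℚ), 0, 0, 0] (by
    funext j
    have h : ((v 0 i * v 1 j : ℤ) : ℚ) = ((v 0 j * v 1 i : ℤ) : ℚ) := by rw [hn i j]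
    push_cast at h
    simp [Fin.sum_univ_five, vc]
    linear_combination -h) 1
  simp at this
  exact hi0 (by simp [vc, this])

theorem adm_norm_le {n : Type} [Fintype n] {k : ℤ} (hk : 0 < k) (x : n → ℝ) :
    ‖x‖ ≤ ‖(k : ℝ) • x‖ := by
  rw [norm_smul, Real.norm_eq_abs]
  have h1 : (1 : ℝ) ≤ k := by exact_mod_cast hk
  rw [abs_of_pos (by linarith)]
  nlinarith [norm_nonneg x]

theorem adm_pair {τ : Fin 5 → ℝ} (hm : Monotone τ) (h0 : 0 ≤ τ 0) {i j : Fin 5} (hij : i ≠ j) :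
    τ i * τ j ≤ τ 3 * τ 4 := by
  have hp : ∀ k, 0 ≤ τ k := fun k => h0.trans (hm (Fin.zero_le k))
  have key : ∀ i j : Fin 5, i < j → τ i * τ j ≤ τ 3 * τ 4 := by
    intro i j h
    have h1 : i ≤ 3 := by
      have := j.isLt
      rw [Fin.lt_def] at h
      rw [Fin.le_def]
      show i.val ≤ 3
      omega
    have h2 : j ≤ 4 := by
      have := j.isLt
      rw [Fin.le_def]
      show j.val ≤ 4
      omega
    exact mul_le_mul (hm h1) (hm h2) (hp j) (hp 3)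
  rcases lt_or_gt_of_ne hij with h | h
  · exact key i j h
  · rw [mul_comm]; exact key j i h

/-- From five short independent annihilating vectors to the counted set. -/
theorem adm_of_five {c B t : ℝ} (hc : 1 ≤ c) (hB : 0 < B) (ht : 1 ≤ t) {v : Fin 5 → Fin 10 → ℤ}
    {τ : Fin 5 → ℝ} {s : Fin 16 → ℤ} (hs : s ≠ 0) (hk : ∀ j, kk j ⬝ᵥ s = 0)
    (hb : ‖tS t s‖ ≤ c * B) (hi : LinearIndependent ℚ fun k => vc ℚ (v k))
    (ha : ∀ k, gam (v k) s = 0) (hτ : ∀ k, ‖tV t (v k)‖ ≤ τ k) (hm : Monotone τ)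
    (hp : ∏ k, τ k ≤ c * B ^ 2) (hl : ∃ k, v k 5 ≠ 0 ∨ v k 6 ≠ 0 ∨ v k 7 ≠ 0)
    (h1 : Rk 3 (MK (v 0))) (h2 : Rk 3 (m2 (v 0))) :
    ∃ (n : ℤ) (s₀ : Fin 16 → ℤ) (w : Fin 10 → ℤ), n ≠ 0 ∧ s = n • s₀ ∧ GoodV (25 * c) B t w ∧
      Adm (25 * c) B t w s₀ := by
  obtain ⟨n, s₀, hn, hprim, rfl⟩ := exists_prim s hs
  have hv0 : v 0 ≠ 0 := by
    intro h
    apply hi.ne_zero 0
    funext j
    simp [vc, h]
  obtain ⟨k, w, hk0, hw, hvw⟩ := exists_prim (v 0) hv0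
  have hs0 : s₀ ≠ 0 := by
    rintro rfl
    simp at hs
  have ha0 : ∀ j, gam (v j) s₀ = 0 := by
    intro j
    have := ha j
    rw [gam_smul] at this
    exact (smul_eq_zero.1 this).resolve_left hn.ne'
  have haw : gam w s₀ = 0 := by
    have := ha0 0
    rw [hvw, smul_gam] at this
    exact (smul_eq_zero.1 this).resolve_left hk0.ne'
  have hT : ‖tV t w‖ ≤ τ 0 := by
    refine le_trans ?_ (hτ 0)
    rw [hvw, tV_smul]
    exact adm_norm_le hk0 _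
  have hT0 : 0 ≤ ‖tV t w‖ := norm_nonneg _
  have h0 : 0 ≤ τ 0 := hT0.trans hT
  have hp0 : ∀ j, 0 ≤ τ j := fun j => h0.trans (hm (Fin.zero_le j))
  have hTj : ∀ j, ‖tV t w‖ ≤ τ j := fun j => hT.trans (hm (Fin.zero_le j))
  have hpure : mu s₀ s₀ = 0 := pure_of_two (adm_np hi) (ha0 0) (ha0 1)
  rw [Fin.prod_univ_five] at hp
  have hcB : 0 ≤ c * B ^ 2 := by positivity
  have h3 : ‖tV t w‖ ^ 3 ≤ τ 0 * τ 1 * τ 2 := by
    have : ‖tV t w‖ ^ 3 = ‖tV t w‖ * ‖tV t w‖ * ‖tV t w‖ := by ring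
    rw [this]
    exact mul_le_mul (mul_le_mul (hTj 0) (hTj 1) hT0 (hp0 0)) (hTj 2) hT0
      (mul_nonneg (hp0 0) (hp0 1))
  have hgen : ∀ a : ℝ, 0 ≤ a → a ≤ τ 3 * τ 4 → ‖tV t w‖ ^ 3 * a ≤ c * B ^ 2 := by
    intro a ha0 ha1
    refine le_trans ?_ hp
    calc ‖tV t w‖ ^ 3 * a ≤ (τ 0 * τ 1 * τ 2) * (τ 3 * τ 4) :=
          mul_le_mul h3 ha1 ha0 (mul_nonneg (mul_nonneg (hp0 0) (hp0 1)) (hp0 2))
      _ = _ := by ring
  refine ⟨n, s₀, w, hn.ne', rfl, ⟨prim_BV hw, qV_eq_zero hs0 haw, ?_, ?_, ?_, ?_⟩,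
    ⟨hprim, ?_, hpure, haw, ?_, ?_⟩⟩
  · rw [hvw, MK_smul] at h1
    exact Rk.of_smul h1
  · rw [hvw, m2_smul] at h2
    exact Rk.of_smul h2
  · have := hgen (‖tV t w‖ * ‖tV t w‖) (by positivity)
      (mul_le_mul (hTj 3) (hTj 4) hT0 (hp0 3))
    nlinarith
  · obtain ⟨j, hj⟩ := hl
    have h4 : t ^ 2 ≤ τ 4 := by
      refine ((tV_lo' (by linarith) hj).trans (hτ j)).trans (hm ?_)
      have := j.isLt
      rw [Fin.le_def]
      show j.val ≤ 4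
      omega
    have := hgen (‖tV t w‖ * t ^ 2) (by positivity)
      (mul_le_mul (hTj 3) h4 (by positivity) (hp0 3))
    nlinarith
  · intro j
    have := hk j
    rw [dotProduct_smul, smul_eq_mul] at this
    exact (mul_eq_zero.1 this).resolve_left hn.ne'
  · have h5 : ‖tS t s₀‖ ≤ c * B := by
      refine le_trans ?_ hb
      rw [tS_smul]
      exact adm_norm_le hn _
    have : 0 ≤ c * B := by positivity
    nlinarith
  · intro s' hs' hnp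
    obtain ⟨i, j, hij, hle⟩ := lineW hi hprim hpure ha0 hs' hnp (by linarith : 0 < t)
    have har := ar_nonneg (tS t s₀) (tS t s')
    have h6 := hgen (‖tV t (v i)‖ * ‖tV t (v j)‖) (by positivity)
      ((mul_le_mul (hτ i) (hτ j) (norm_nonneg _) (hp0 i)).trans (adm_pair hm h0 hij))
    calc ‖tV t w‖ ^ 3 * ‖tS t s₀‖ ^ 2
        ≤ ‖tV t w‖ ^ 3 * (25 * ‖tV t (v i)‖ * ‖tV t (v j)‖ * ar (tS t s₀) (tS t s')) :=
          mul_le_mul_of_nonneg_left hle (by positivity)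
      _ = 25 * (‖tV t w‖ ^ 3 * (‖tV t (v i)‖ * ‖tV t (v j)‖)) * ar (tS t s₀) (tS t s') := by ring
      _ ≤ 25 * (c * B ^ 2) * ar (tS t s₀) (tS t s') := by gcongr
      _ = _ := by ring

theorem adm_exists (c : ℝ) (hc : 1 ≤ c) : ∃ c' : ℝ, 1 ≤ c' ∧ ∀ (L : Type) [Field L]
    [NumberField L] (φ : Fin 5 → (L →+* ℂ)) (B t : ℝ) (x y : 𝓞 L), Pent φ → 1 ≤ B → 1 ≤ t →
    |((discr L : ℤ) : ℝ)| ≤ (2 * B) ^ 8 → Span φ 5 x y → Shape c B t (hat φ x) (hat φ y) →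
    Att c' B t ((5 : ℂ) • hat φ x) ((5 : ℂ) • hat φ y) := by
  obtain ⟨C, hC, hmink⟩ := mink2
  obtain ⟨cv, hcv, hv⟩ := size_v (5 * c) (by linarith)
  obtain ⟨cs, hcs, hsz⟩ := size_s (5 * c) (by linarith)
  set c0 : ℝ := cs * ((3125 * cv) ^ 5 * C * 2 ^ 12) with hc0
  have hA : (1 : ℝ) ≤ (3125 * cv) ^ 5 * C * 2 ^ 12 := by
    have : (1 : ℝ) ≤ (3125 * cv) ^ 5 := one_le_pow₀ (by linarith)
    have h2 : (1 : ℝ) ≤ (3125 * cv) ^ 5 * C := one_le_mul_of_one_le_of_one_le this hC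
    linarith
  have hc1 : cs ≤ c0 := le_mul_of_one_le_right (by linarith) hA
  have hc2 : (3125 * cv) ^ 5 * C * 2 ^ 12 ≤ c0 := le_mul_of_one_le_left (by linarith) hcs
  refine ⟨25 * c0, by linarith, ?_⟩
  intro L _ _ φ B t x y hP hB ht hd hsp hsh
  have hB0 : 0 < B := by linarith
  have ht0 : 0 < t := by linarith
  have hsh5 := hsh.five
  obtain ⟨-, hd1, hd2⟩ := hsh5.d_lo hB0
  obtain ⟨s, hs⟩ := sco_of_span hP hsp
  obtain ⟨l, lam, hl, hlam, hmono, hdet, hprod⟩ :=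
    hmink L φ (differentIdeal ℤ (𝓞 L)) hP differentIdeal_ne_bot
  choose m hm using fun k => frame_MF hP hsp (hl k)
  have hl0 : l 0 ≠ 0 := by
    intro h
    apply hdet
    apply Matrix.det_eq_zero_of_row_eq_zero 0
    intro j
    simp [em, h]
  have hlam0 : ∀ k, 0 ≤ lam k := fun k => (norm_nonneg _).trans (hlam k)
  have h625 : (625 : ℂ) ≠ 0 := by norm_num
  have hnorm : ((Ideal.absNorm (differentIdeal ℤ (𝓞 L)) : ℕ) : ℝ) = |((discr L : ℤ) : ℝ)| := by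
    rw [NumberField.absNorm_differentIdeal L (𝓞 L), Nat.cast_natAbs, Int.cast_abs]
  rw [hnorm] at hprod
  have hprod' : ∏ k, lam k ≤ C * (2 * B) ^ 12 := by
    refine le_of_sq_le_sq ?_ (by positivity)
    have hD := abs_nonneg ((discr L : ℤ) : ℝ)
    calc (∏ k, lam k) ^ 2 ≤ C * |((discr L : ℤ) : ℝ)| ^ 2 * |((discr L : ℤ) : ℝ)| := hprod
      _ ≤ C * ((2 * B) ^ 8) ^ 2 * (2 * B) ^ 8 := by gcongr
      _ = C * ((2 * B) ^ 12) ^ 2 := by ring
      _ ≤ C ^ 2 * ((2 * B) ^ 12) ^ 2 := by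
        gcongr
        nlinarith
      _ = _ := by ring
  obtain ⟨n, s₀, w, hn, he, hg, ha⟩ := adm_of_five (c := c0) (B := B) (t := t)
    (v := fun k => tau (m k)) (τ := fun k => cv * (3125 * lam k) / B ^ 2) (s := iota s)
    (by linarith) hB0 ht (iota_ne hs hd1) (kk_iota s)
    ((hsz B t _ _ s hB0 ht0 hsh5 hs).trans (mul_le_mul_of_nonneg_right hc1 hB0.le))
    (indep_tau h625 hm hdet) (fun k => ann_of hsh5.cls hd2 (hm k) hs)
    (fun k => hv B t _ _ _ _ _ hB0 ht0 hsh5 (hm k) fun j => by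
      rw [Pi.smul_apply, norm_smul]
      have h1 := norm_ft (em φ (l k)) j
      have h2 := hlam k
      have h3 : ‖(625 : ℂ)‖ = 625 := by simp
      rw [h3]
      unfold hat
      linarith)
    (fun a b hab => by
      have := hmono hab
      dsimp only
      gcongr)
    (by
      have h1 : ∏ k, cv * (3125 * lam k) / B ^ 2 = (3125 * cv) ^ 5 * (∏ k, lam k) / B ^ 10 := by
        simp only [Fin.prod_univ_five]
        field_simp
      rw [h1, div_le_iff₀ (by positivity)]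
      calc (3125 * cv) ^ 5 * ∏ k, lam k ≤ (3125 * cv) ^ 5 * (C * (2 * B) ^ 12) := by gcongr
        _ = ((3125 * cv) ^ 5 * C * 2 ^ 12) * B ^ 12 := by ring
        _ ≤ c0 * B ^ 12 := by gcongr
        _ = _ := by ring)
    (low_ne h625 hd1 hm hdet)
    (rk_MK h625 hsh5.cls hd2 (hm 0) (hP.add_ne hl0))
    (rk_m h625 (hm 0) (em_ne_zero hl0))
  exact ⟨hd1, hd2, s, n, s₀, w, hn, he, hs, hg, ha⟩

end Pool.Agent.Lib.MP_af4c59_nt.H57
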