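import Pool.Agent.Lib.MP_af4c59_nt.H57Defs

/-!
Gram identities and casts.
-/

set_option autoImplicit false

namespace Pool.Agent.Lib.MP_af4c59_nt.H57

open Matrix

section

variable {R : Type} [CommRing R]

theorem bf_comm {n : Type} [Fintype n] {A : Matrix n n R} (hA : A.IsSymm) (x y : n → R) :
    bf A x y = bf A y x := by
  unfold bf
  rw [Matrix.dotProduct_mulVec, ← Matrix.mulVec_transpose, hA.eq, dotProduct_comm]

theorem bf_add_left {n : Type} [Fintype n] (A : Matrix n n R) (x x' y : n → R) :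
    bf A (x + x') y = bf A x y + bf A x' y := by
  simp only [bf, add_dotProduct]

theorem bf_add_right {n : Type} [Fintype n] (A : Matrix n n R) (x y y' : n → R) :
    bf A x (y + y') = bf A x y + bf A x y' := by
  simp only [bf, Matrix.mulVec_add, dotProduct_add]

theorem bf_sub_left {n : Type} [Fintype n] (A : Matrix n n R) (x x' y : n → R) :
    bf A (x - x') y = bf A x y - bf A x' y := by
  simp only [bf, sub_dotProduct]

theorem bf_sub_right {n : Type} [Fintype n] (A : Matrix n n R) (x y y' : n → R) :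
    bf A x (y - y') = bf A x y - bf A x y' := by
  simp only [bf, Matrix.mulVec_sub, dotProduct_sub]

theorem bf_smul_left {n : Type} [Fintype n] (A : Matrix n n R) (c : R) (x y : n → R) :
    bf A (c • x) y = c * bf A x y := by
  simp only [bf, smul_dotProduct, smul_eq_mul]

theorem bf_smul_right {n : Type} [Fintype n] (A : Matrix n n R) (c : R) (x y : n → R) :
    bf A x (c • y) = c * bf A x y := by
  simp only [bf, Matrix.mulVec_smul, dotProduct_smul, smul_eq_mul]

theorem bf_conj {m n : Type} [Fintype m] [Fintype n] (A : Matrix n n R) (P : Matrix n m R)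
    (x y : m → R) : bf (Pᵀ * A * P) x y = bf A (P *ᵥ x) (P *ᵥ y) := by
  unfold bf
  rw [← Matrix.mulVec_mulVec, ← Matrix.mulVec_mulVec, Matrix.dotProduct_mulVec,
    Matrix.vecMul_transpose]

theorem bf_diag {n : Type} [Fintype n] [DecidableEq n] (d x y : n → R) :
    bf (Matrix.diagonal d) x y = ∑ i, d i * x i * y i := by
  unfold bf
  simp only [dotProduct, Matrix.mulVec_diagonal]
  exact Finset.sum_congr rfl fun i _ => by ring

theorem bf_cast {n : Type} [Fintype n] (A : Matrix n n ℤ) (x y : n → ℤ) :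
    ((bf A x y : ℤ) : R) = bf (mc R A) (vc R x) (vc R y) := by
  simp [bf, mc, vc, dotProduct, Matrix.mulVec]

theorem mc_mul {l m n : Type} [Fintype m] (A : Matrix l m ℤ) (B : Matrix m n ℤ) :
    mc R (A * B) = mc R A * mc R B := by
  ext i j
  simp [mc, Matrix.mul_apply]

theorem mc_transpose {m n : Type} (A : Matrix m n ℤ) : mc R Aᵀ = (mc R A)ᵀ := rfl

theorem mc_one {n : Type} [DecidableEq n] : mc R (1 : Matrix n n ℤ) = 1 := by
  ext i j
  simp only [mc, Matrix.map_apply, Matrix.one_apply]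
  split_ifs <;> simp

theorem mc_det {n : Type} [Fintype n] [DecidableEq n] (A : Matrix n n ℤ) :
    (mc R A).det = ((A.det : ℤ) : R) := by
  exact ((Int.castRingHom R).map_det A).symm

theorem mc_submatrix {k l m n : Type} (A : Matrix m n ℤ) (f : k → m) (g : l → n) :
    mc R (A.submatrix f g) = (mc R A).submatrix f g := rfl

theorem vc_mulVec {m n : Type} [Fintype n] (A : Matrix m n ℤ) (x : n → ℤ) :
    vc R (A *ᵥ x) = mc R A *ᵥ vc R x := by
  ext i
  simp [mc, vc, dotProduct, Matrix.mulVec]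

theorem vc_dot {n : Type} [Fintype n] (x y : n → ℤ) :
    ((x ⬝ᵥ y : ℤ) : R) = vc R x ⬝ᵥ vc R y := by
  simp [vc, dotProduct]

theorem vc_smul {n : Type} (c : ℤ) (x : n → ℤ) : vc R (c • x) = (c : R) • vc R x := by
  ext i
  simp [vc]

theorem NP_vc [CharZero R] {n : Type} {x y : n → ℤ} : NP (vc R x) (vc R y) ↔ NP x y := by
  unfold NP vc
  refine exists_congr fun i => exists_congr fun j => ?_
  rw [← Int.cast_mul, ← Int.cast_mul, Int.cast_injective.ne_iff]

theorem NP.symm {n : Type} {x y : n → R} (h : NP x y) : NP y x := by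
  obtain ⟨i, j, hij⟩ := h
  exact ⟨i, j, fun e => hij (by rw [mul_comm, mul_comm (x j)]; exact e.symm)⟩

theorem gram_minor {m n : Type} [Fintype n] (P : Matrix m n R) (x y : n → R) (i j : m) :
    (P *ᵥ x) i * (P *ᵥ y) j - (P *ᵥ x) j * (P *ᵥ y) i =
      ∑ k, ∑ l, P i k * P j l * (x k * y l - x l * y k) := by
  simp only [Matrix.mulVec, dotProduct]
  rw [mul_comm (∑ k, P j k * x k), Finset.sum_mul_sum, Finset.sum_mul_sum,
    ← Finset.sum_sub_distrib]
  refine Finset.sum_congr rfl fun k _ => ?_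
  rw [← Finset.sum_sub_distrib]
  exact Finset.sum_congr rfl fun l _ => by ring

theorem gram_np {m n : Type} [Fintype n] {P : Matrix m n R} {x y : n → R}
    (h : NP (P *ᵥ x) (P *ᵥ y)) : NP x y := by
  obtain ⟨i, j, hij⟩ := h
  by_contra hn
  unfold NP at hn
  push Not at hn
  refine hij (sub_eq_zero.1 ?_)
  rw [gram_minor]
  exact Finset.sum_eq_zero fun k _ => Finset.sum_eq_zero fun l _ => by rw [hn k l]; ring

/-- An injective linear map over a field keeps non-proportional pairs. -/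
theorem NP_mulVec {K : Type} [Field K] {m n : Type} [Fintype m] [Fintype n] [DecidableEq n]
    {P : Matrix m n K} {Q : Matrix n m K} (h : Q * P = 1) {x y : n → K} (hxy : NP x y) :
    NP (P *ᵥ x) (P *ᵥ y) := by
  refine gram_np (P := Q) ?_
  rwa [Matrix.mulVec_mulVec, Matrix.mulVec_mulVec, h, Matrix.one_mulVec, Matrix.one_mulVec]

theorem NP_of_mulVec {m n : Type} [Fintype n] {P : Matrix m n R} {x y : n → R}
    (h : NP (P *ᵥ x) (P *ᵥ y)) : NP x y := by
  exact gram_np h

/-- The Gram determinant of `a, a', x` against `a, a', y`. -/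
theorem gram3 {A : Matrix (Fin 3) (Fin 3) R} (hA : A.IsSymm) (a a' x y : Fin 3 → R) :
    bf A x y * (bf A a a' ^ 2 - bf A a a * bf A a' a') =
      bf A a a' * (bf A x a * bf A y a' + bf A y a * bf A x a') - bf A a' a' * bf A x a * bf A y a -
        bf A a a * bf A x a' * bf A y a' - A.det * det3 a a' x * det3 a a' y := by
  have h01 := hA.apply 0 1
  have h02 := hA.apply 0 2
  have h12 := hA.apply 1 2
  simp only [bf, det3, dotProduct, Matrix.mulVec, Fin.sum_univ_three, Matrix.det_fin_three,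
    h01, h02, h12]
  ring

theorem gram_iso {A : Matrix (Fin 3) (Fin 3) R} (hA : A.IsSymm) {x y z : Fin 3 → R}
    (hx : bf A x x = 0) (hy : bf A y y = 0) (hz : bf A z z = 0) :
    A.det * det3 x y z ^ 2 = 2 * bf A x y * bf A y z * bf A x z := by
  have h := gram3 hA x y z z
  rw [hx, hy, hz, bf_comm hA z x, bf_comm hA z y] at h
  linear_combination h

theorem isoNP [IsDomain R] {A : Matrix (Fin 3) (Fin 3) R} (hA : A.IsSymm) (hD : A.det ≠ 0)
    {x y : Fin 3 → R} (hx : bf A x x = 0) (hy : bf A y y = 0) (h : NP x y) : bf A x y ≠ 0 := by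
  intro h0
  have key : ∀ e : Fin 3 → R, det3 x y e = 0 := fun e => by
    have h1 := gram3 hA x y e e
    rw [hx, hy, h0] at h1
    have h2 : A.det * (det3 x y e * det3 x y e) = 0 := by linear_combination h1
    exact mul_self_eq_zero.1 ((mul_eq_zero.1 h2).resolve_left hD)
  have k0 := key ![1, 0, 0]
  have k1 := key ![0, 1, 0]
  have k2 := key ![0, 0, 1]
  simp only [det3, Matrix.cons_val_zero, Matrix.cons_val_one, Matrix.cons_val] at k0 k1 k2
  obtain ⟨i, j, hij⟩ := h
  apply hij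
  fin_cases i <;> fin_cases j <;> simp only [Fin.zero_eta, Fin.mk_one, Fin.reduceFinMk] <;>
    first | rfl | linear_combination k0 | linear_combination -k0 | linear_combination k1 |
      linear_combination -k1 | linear_combination k2 | linear_combination -k2

end

theorem ar_nonneg {n : Type} [Fintype n] (x y : n → ℝ) : 0 ≤ ar x y := norm_nonneg _

theorem gram_le_ar {n : Type} [Fintype n] (x y : n → ℝ) (i j : n) :
    |x i * y j - x j * y i| ≤ ar x y :=
  norm_le_pi_norm (fun p : n × n => x p.1 * y p.2 - x p.2 * y p.1) (i, j)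

theorem gram_ar_le {n : Type} [Fintype n] {x y : n → ℝ} {r : ℝ} (hr : 0 ≤ r)
    (h : ∀ i j, |x i * y j - x j * y i| ≤ r) : ar x y ≤ r :=
  (pi_norm_le_iff_of_nonneg hr).2 fun p => h p.1 p.2

theorem ar_comm {n : Type} [Fintype n] (x y : n → ℝ) : ar x y = ar y x := by
  unfold ar
  rw [← norm_neg]
  congr 1
  ext p
  simp only [Pi.neg_apply]
  ring

theorem ar_pos {n : Type} [Fintype n] {x y : n → ℝ} : 0 < ar x y ↔ NP x y := by
  unfold ar NP
  rw [norm_pos_iff, Function.ne_iff]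
  constructor
  · rintro ⟨p, hp⟩
    exact ⟨p.1, p.2, sub_ne_zero.1 hp⟩
  · rintro ⟨i, j, hp⟩
    exact ⟨(i, j), sub_ne_zero.2 hp⟩

theorem ar_le {n : Type} [Fintype n] (x y : n → ℝ) : ar x y ≤ 2 * ‖x‖ * ‖y‖ := by
  refine gram_ar_le (by positivity) fun i j => (abs_sub _ _).trans ?_
  rw [abs_mul, abs_mul]
  have a1 : |x i| * |y j| ≤ ‖x‖ * ‖y‖ :=
    mul_le_mul (norm_le_pi_norm x i) (norm_le_pi_norm y j) (abs_nonneg _) (norm_nonneg _)
  have a2 : |x j| * |y i| ≤ ‖x‖ * ‖y‖ :=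
    mul_le_mul (norm_le_pi_norm x j) (norm_le_pi_norm y i) (abs_nonneg _) (norm_nonneg _)
  linarith

theorem ar_comb {n : Type} [Fintype n] (p q : n → ℝ) (a b c d : ℝ) :
    ar (a • p + b • q) (c • p + d • q) = |a * d - b * c| * ar p q := by
  unfold ar
  rw [← Real.norm_eq_abs, ← norm_smul]
  congr 1
  ext r
  simp only [Pi.add_apply, Pi.smul_apply, smul_eq_mul]
  ring

theorem ar_mulVec {m n : Type} [Fintype m] [Fintype n] {P : Matrix m n ℝ} {a : ℝ} (ha : 0 ≤ a)
    (h : Ent P a) (x y : n → ℝ) :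
    ar (P *ᵥ x) (P *ᵥ y) ≤ ((Fintype.card n : ℝ) * a) ^ 2 * ar x y := by
  have h0 := ar_nonneg x y
  refine gram_ar_le (by positivity) fun i j => ?_
  rw [gram_minor]
  calc |∑ k, ∑ l, P i k * P j l * (x k * y l - x l * y k)|
      ≤ ∑ k, ∑ l, |P i k * P j l * (x k * y l - x l * y k)| :=
        (Finset.abs_sum_le_sum_abs _ _).trans
          (Finset.sum_le_sum fun k _ => Finset.abs_sum_le_sum_abs _ _)
    _ ≤ ∑ _k : n, ∑ _l : n, a * a * ar x y :=
        Finset.sum_le_sum fun k _ => Finset.sum_le_sum fun l _ => by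
          rw [abs_mul, abs_mul]
          exact mul_le_mul (mul_le_mul (h i k) (h j l) (abs_nonneg _) ha) (gram_le_ar x y k l)
            (abs_nonneg _) (by positivity)
    _ = _ := by
        simp only [Finset.sum_const, Finset.card_univ, nsmul_eq_mul]
        ring

theorem norm_mulVec_le {m n : Type} [Fintype m] [Fintype n] {P : Matrix m n ℝ} {a : ℝ}
    (ha : 0 ≤ a) (h : Ent P a) (x : n → ℝ) : ‖P *ᵥ x‖ ≤ (Fintype.card n : ℝ) * a * ‖x‖ := by
  refine (pi_norm_le_iff_of_nonneg (by positivity)).2 fun i => ?_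
  calc ‖(P *ᵥ x) i‖ = |∑ k, P i k * x k| := rfl
    _ ≤ ∑ k, |P i k * x k| := Finset.abs_sum_le_sum_abs _ _
    _ ≤ ∑ _k : n, a * ‖x‖ := Finset.sum_le_sum fun k _ => by
        rw [abs_mul]
        exact mul_le_mul (h i k) (norm_le_pi_norm x k) (abs_nonneg _) ha
    _ = _ := by
        simp only [Finset.sum_const, Finset.card_univ, nsmul_eq_mul]
        ring

/-- Reduction of `y` modulo `x`. -/
theorem exists_sub_le {n : Type} [Fintype n] (x y : n → ℝ) :
    ∃ c : ℝ, ‖x‖ * ‖y - c • x‖ ≤ ar x y := by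
  rcases eq_or_ne x 0 with rfl | hx
  · exact ⟨0, by rw [norm_zero, zero_mul]; exact ar_nonneg _ _⟩
  obtain ⟨i0, -⟩ := Function.ne_iff.1 hx
  obtain ⟨k, -, hk⟩ := Finset.exists_max_image Finset.univ (fun i => |x i|) ⟨i0, Finset.mem_univ _⟩
  have h1 : ‖x‖ ≤ |x k| :=
    (pi_norm_le_iff_of_nonneg (abs_nonneg _)).2 fun i => hk i (Finset.mem_univ _)
  have h2 : 0 < |x k| := (norm_pos_iff.2 hx).trans_le h1
  have h3 : x k ≠ 0 := abs_pos.1 h2
  refine ⟨y k / x k, ?_⟩
  have h4 : ‖y - (y k / x k) • x‖ ≤ ar x y / |x k| := by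
    refine (pi_norm_le_iff_of_nonneg (div_nonneg (ar_nonneg _ _) h2.le)).2 fun i => ?_
    rw [le_div_iff₀ h2, Real.norm_eq_abs, ← abs_mul]
    refine le_trans (le_of_eq ?_) (gram_le_ar x y k i)
    congr 1
    simp only [Pi.sub_apply, Pi.smul_apply, smul_eq_mul]
    field_simp
  rw [le_div_iff₀ h2] at h4
  have := mul_le_mul_of_nonneg_right h1 (norm_nonneg (y - (y k / x k) • x))
  linarith

theorem QD.sub {A : Matrix (Fin 4) (Fin 4) ℤ} {P : Matrix (Fin 4) (Fin 4) ℝ} {ν : Fin 4 → ℝ}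
    {X Y : Finset (Fin 4 → ℤ)} {N B H : ℝ} (h : QD A P ν X N B H) (hY : Y ⊆ X) :
    QD A P ν Y N B H := by
  exact ⟨h.symm, h.diag, h.detP, h.sorted, fun x hx => h.iso x (hY hx),
    fun x hx y hy => h.pw x (hY hx) y (hY hy), fun x hx => h.bd x (hY hx),
    fun x hx => h.lo x (hY hx), fun x hx y hy => h.bN x (hY hx) y (hY hy), h.oneN, h.Bpos,
    h.Hpos, h.HN, fun x hx y hy => h.line x (hY hx) y (hY hy)⟩

theorem QD.bf_eq {A : Matrix (Fin 4) (Fin 4) ℤ} {P : Matrix (Fin 4) (Fin 4) ℝ} {ν : Fin 4 → ℝ}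
    {X : Finset (Fin 4 → ℤ)} {N B H : ℝ} (h : QD A P ν X N B H) (x y : Fin 4 → ℤ) :
    ((bf A x y : ℤ) : ℝ) = bf (Matrix.diagonal ν) (P *ᵥ vc ℝ x) (P *ᵥ vc ℝ y) := by
  rw [bf_cast, h.diag, bf_conj]

theorem QD.det_eq {A : Matrix (Fin 4) (Fin 4) ℤ} {P : Matrix (Fin 4) (Fin 4) ℝ} {ν : Fin 4 → ℝ}
    {X : Finset (Fin 4 → ℤ)} {N B H : ℝ} (h : QD A P ν X N B H) :
    ((A.det : ℤ) : ℝ) = P.det ^ 2 * (ν 0 * ν 1 * ν 2 * ν 3) := by
  rw [← mc_det, h.diag, Matrix.det_mul, Matrix.det_mul, Matrix.det_transpose, Matrix.det_diagonal,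
    Fin.prod_univ_four]
  ring

theorem NoL.sub {n : Type} [Fintype n] {A : Matrix n n ℤ} {X Y : Finset (n → ℤ)} (h : NoL A X)
    (hY : Y ⊆ X) : NoL A Y := by
  exact ⟨fun x hx => h.iso x (hY hx), fun x hx y hy => h.pw x (hY hx) y (hY hy),
    fun x hx y hy => h.ne x (hY hx) y (hY hy)⟩

theorem her_LD (A : Matrix (Fin 4) (Fin 4) ℤ) (S : ℤ) : Her (LD A S) := by
  exact fun _ _ hD h x₁ a x₂ b y₁ c y₂ d => h x₁ (hD a) x₂ (hD b) y₁ (hD c) y₂ (hD d)

end Pool.Agent.Lib.MP_af4c59_nt.H57
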