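import Pool.Agent.Lib.MP_af4c59_nt.H57Spin
import Pool.Agent.Lib.MP_af4c59_nt.H57Gram

/-!
Rescaling, norms and casts of the spinor maps.
-/

set_option autoImplicit false

namespace Pool.Agent.Lib.MP_af4c59_nt.H57

open Matrix

theorem scale_prod {m n : Type} [Fintype m] [Fintype n] (v : m → ℝ) (x : n → ℝ) (a : m) (i : n) :
    |v a * x i| ≤ ‖v‖ * ‖x‖ := by
  rw [abs_mul]
  exact mul_le_mul (norm_le_pi_norm v a) (norm_le_pi_norm x i) (abs_nonneg _) (norm_nonneg _)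

theorem scale_five {a b c d e M : ℝ} (ha : |a| ≤ M) (hb : |b| ≤ M) (hc : |c| ≤ M) (hd : |d| ≤ M)
    (he : |e| ≤ M) : |a + b + c + d + e| ≤ 5 * M := by
  rw [abs_le] at *
  constructor <;> linarith [ha.1, ha.2, hb.1, hb.2, hc.1, hc.2, hd.1, hd.2, he.1, he.2]

theorem scale_eight {a b c d e f g h M : ℝ} (ha : |a| ≤ M) (hb : |b| ≤ M) (hc : |c| ≤ M)
    (hd : |d| ≤ M) (he : |e| ≤ M) (hf : |f| ≤ M) (hg : |g| ≤ M) (hh : |h| ≤ M) :
    |a + b + c + d + e + f + g + h| ≤ 8 * M := by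
  rw [abs_le] at *
  constructor <;> linarith [ha.1, ha.2, hb.1, hb.2, hc.1, hc.2, hd.1, hd.2, he.1, he.2, hf.1, hf.2,
    hg.1, hg.2, hh.1, hh.2]

theorem scale_single {R : Type} [CommRing R] (j : Fin 16) :
    vc R (Pi.single j 1 : Fin 16 → ℤ) = Pi.single j 1 := by
  funext k
  by_cases hk : k = j
  · subst hk; simp [vc]
  · simp [vc, hk]

theorem scale_one_le {n : Type} [Fintype n] {v : n → ℤ} (hv : v ≠ 0) : 1 ≤ ‖vc ℝ v‖ := by
  obtain ⟨a, ha⟩ := Function.ne_iff.1 hv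
  refine le_trans ?_ (norm_le_pi_norm (vc ℝ v) a)
  have h1 : (1 : ℝ) ≤ |((v a : ℤ) : ℝ)| := by exact_mod_cast Int.one_le_abs ha
  exact h1

theorem scale_wV : ∀ a, wV a ≤ (2 : ℕ) := by decide

theorem scale_wS : ∀ a, wS a ≤ (3 : ℕ) := by decide

theorem scale_norm {t : ℝ} (ht : 1 ≤ t) (k : ℕ) {n : Type} [Fintype n] (w : n → ℤ)
    (hw : ∀ a, w a ≤ k) (v : n → ℤ) : ‖vc ℝ v‖ ≤ t ^ k * ‖fun a => t ^ (-w a) * vc ℝ v a‖ := by
  have ht0 : 0 < t := by linarith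
  refine (pi_norm_le_iff_of_nonneg (by positivity)).2 fun a => ?_
  have h1 := norm_le_pi_norm (fun a => t ^ (-w a) * vc ℝ v a) a
  have h2 : 1 ≤ t ^ k * t ^ (-w a) := by
    rw [← zpow_natCast, ← zpow_add₀ ht0.ne']
    exact one_le_zpow₀ ht (by linarith [hw a])
  rw [norm_mul, Real.norm_of_nonneg (zpow_pos ht0 _).le] at h1
  calc ‖vc ℝ v a‖ ≤ t ^ k * t ^ (-w a) * ‖vc ℝ v a‖ := le_mul_of_one_le_left (norm_nonneg _) h2
    _ = t ^ k * (t ^ (-w a) * ‖vc ℝ v a‖) := by ring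
    _ ≤ _ := by gcongr

theorem gam_sc {t : ℝ} (ht : t ≠ 0) (v : Fin 10 → ℝ) (x : Fin 16 → ℝ) :
    gam (scV t v) (scS t x) = scT t (gam v x) := by
  apply ext16 <;> simp only [gam_c, scV, scS, scT, wV_c, wS_c, neg_neg, neg_zero, _root_.zpow_neg,
    zpow_ofNat] <;> field_simp

theorem gat_sc {t : ℝ} (ht : t ≠ 0) (v : Fin 10 → ℝ) (r : Fin 16 → ℝ) :
    gat (scV t v) (scT t r) = scS t (gat v r) := by
  apply ext16 <;> simp only [gat_c, scV, scS, scT, wV_c, wS_c, neg_neg, neg_zero, _root_.zpow_neg,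
    zpow_ofNat] <;> field_simp

theorem mu_sc {t : ℝ} (ht : t ≠ 0) (x y : Fin 16 → ℝ) :
    mu (scS t x) (scS t y) = scV t (mu x y) := by
  apply ext10 <;> simp only [mu_c, scV, scS, wV_c, wS_c, neg_neg, neg_zero, _root_.zpow_neg,
    zpow_ofNat] <;> field_simp

theorem qV_sc {t : ℝ} (ht : t ≠ 0) (v : Fin 10 → ℝ) : qV (scV t v) = qV v := by
  simp only [qV, scV, wV_c, neg_neg, neg_zero, _root_.zpow_neg,
    zpow_ofNat]
  field_simp

theorem MK_sc {t : ℝ} (ht : t ≠ 0) (v : Fin 10 → ℝ) (i j : Fin 4) :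
    MK (scV t v) i j = t ^ (-wK i) * t ^ (-wK j) * MK v i j := by
  revert i j
  apply all4 <;> apply all4 <;> simp only [MK_c, scV, wV_c, wK_c, neg_neg, neg_zero, _root_.zpow_neg,
    zpow_ofNat] <;> field_simp

theorem m2_sc {t : ℝ} (ht : t ≠ 0) (v : Fin 10 → ℝ) (i j : Fin 4) :
    m2 (scV t v) i j = t ^ (wK i) * t ^ (wK j) * m2 v i j := by
  revert i j
  apply all4 <;> apply all4 <;> simp only [m2_c, scV, wV_c, wK_c, neg_neg, neg_zero, _root_.zpow_neg,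
    zpow_ofNat] <;> field_simp

theorem gatM_sc {t : ℝ} (ht : t ≠ 0) (v : Fin 10 → ℝ) (i j : Fin 16) :
    gatM (scV t v) i j = t ^ (-wS i) * gatM v i j * t ^ (-wS j) := by
  have h1 : scT t (Pi.single j 1) = t ^ (wS j) • (Pi.single j 1 : Fin 16 → ℝ) := by
    funext k
    by_cases hk : k = j
    · subst hk; simp [scT]
    · simp [scT, hk]
  have h2 := congrFun (gat_sc ht v (Pi.single j 1)) i
  rw [h1, gat_smul] at h2
  simp only [Pi.smul_apply, smul_eq_mul, scS] at h2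
  simp only [gatM, Matrix.of_apply]
  rw [← h2, _root_.zpow_neg t (wS j)]
  have h3 : t ^ wS j ≠ 0 := zpow_ne_zero _ ht
  field_simp

theorem kk_sc {t : ℝ} (ht : t ≠ 0) (i : Fin 16) (j : Fin 4) :
    (kk j i : ℝ) * t ^ (-wK j) = t ^ (-wS i) * kk j i := by
  revert i j
  apply all16 <;> apply all4 <;> simp only [kk_c, wS_c, wK_c, mul_zero, mul_comm]

theorem scV_smul (t c : ℝ) (v : Fin 10 → ℝ) : scV t (c • v) = c • scV t v := by
  funext i
  simp only [scV, Pi.smul_apply, smul_eq_mul]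
  ring

theorem scS_smul (t c : ℝ) (v : Fin 16 → ℝ) : scS t (c • v) = c • scS t v := by
  funext i
  simp only [scS, Pi.smul_apply, smul_eq_mul]
  ring

theorem tV_smul (t : ℝ) (c : ℤ) (v : Fin 10 → ℤ) : tV t (c • v) = (c : ℝ) • tV t v := by
  rw [tV, vc_smul, scV_smul, tV]

theorem tS_smul (t : ℝ) (c : ℤ) (v : Fin 16 → ℤ) : tS t (c • v) = (c : ℝ) • tS t v := by
  rw [tS, vc_smul, scS_smul, tS]

theorem norm_gam (v : Fin 10 → ℝ) (x : Fin 16 → ℝ) : ‖gam v x‖ ≤ 5 * ‖v‖ * ‖x‖ := by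
  have h := scale_prod v x
  rw [mul_assoc]
  refine (pi_norm_le_iff_of_nonneg (by positivity)).2 ?_
  apply all16 <;> simp only [gam_c, Real.norm_eq_abs, sub_eq_add_neg, neg_mul] <;>
    apply scale_five <;> first | exact h _ _ | (rw [abs_neg]; exact h _ _)

theorem norm_gat (v : Fin 10 → ℝ) (x : Fin 16 → ℝ) : ‖gat v x‖ ≤ 5 * ‖v‖ * ‖x‖ := by
  have h := scale_prod v x
  rw [mul_assoc]
  refine (pi_norm_le_iff_of_nonneg (by positivity)).2 ?_
  apply all16 <;> simp only [gat_c, Real.norm_eq_abs, sub_eq_add_neg, neg_mul] <;>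
    apply scale_five <;> first | exact h _ _ | (rw [abs_neg]; exact h _ _)

theorem norm_mu (x y : Fin 16 → ℝ) : ‖mu x y‖ ≤ 8 * ‖x‖ * ‖y‖ := by
  have h := scale_prod x y
  rw [mul_assoc]
  refine (pi_norm_le_iff_of_nonneg (by positivity)).2 ?_
  apply all10 <;> simp only [mu_c, Real.norm_eq_abs, sub_eq_add_neg, neg_mul] <;>
    apply scale_eight <;> first | exact h _ _ | (rw [abs_neg]; exact h _ _)

theorem ent_gatM (v : Fin 10 → ℝ) : Ent (gatM v) (5 * ‖v‖) := by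
  intro i j
  have h1 := norm_gat v (Pi.single j 1)
  rw [Pi.norm_single, norm_one, mul_one] at h1
  exact (norm_le_pi_norm (gat v (Pi.single j 1)) i).trans h1

theorem ent_kkM : Ent (kkM : Matrix (Fin 16) (Fin 4) ℝ) 2 := by
  intro i j
  simp only [kkM, Matrix.of_apply]
  revert i j
  apply all16 <;> apply all4 <;> simp only [kk_c] <;> norm_num

theorem ent_KV (v : Fin 10 → ℝ) : Ent (KV v) (10 * ‖v‖) := by
  intro i j
  have h1 := norm_gat v (kk j)
  have h2 : ‖(kk j : Fin 16 → ℝ)‖ ≤ 2 :=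
    (pi_norm_le_iff_of_nonneg (by norm_num)).2 fun k => ent_kkM k j
  refine ((norm_le_pi_norm (gat v (kk j)) i).trans h1).trans ?_
  nlinarith [norm_nonneg v]

theorem ent_MM (b : Bool) (v : Fin 10 → ℝ) : Ent (MM b v) (12 * ‖v‖) := by
  have h : ∀ a, -‖v‖ ≤ v a ∧ v a ≤ ‖v‖ := fun a => abs_le.1 (norm_le_pi_norm v a)
  have h0 := h 0; have h1 := h 1; have h2 := h 2; have h3 := h 3; have h4 := h 4
  have h5 := h 5; have h6 := h 6; have h7 := h 7; have h8 := h 8; have h9 := h 9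
  have hn := norm_nonneg v
  cases b
  · show Ent (m2 v) _
    unfold Ent
    apply all4 <;> apply all4 <;> simp only [m2_c] <;> rw [abs_le] <;> constructor <;> linarith
  · show Ent (MK v) _
    unfold Ent
    apply all4 <;> apply all4 <;> simp only [MK_c] <;> rw [abs_le] <;> constructor <;> linarith

section

variable {R : Type} [CommRing R]

theorem vc_gam (v : Fin 10 → ℤ) (x : Fin 16 → ℤ) : vc R (gam v x) = gam (vc R v) (vc R x) := by
  apply ext16 <;> simp only [vc, gam_c] <;> push_cast <;> rfl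

theorem vc_gat (v : Fin 10 → ℤ) (x : Fin 16 → ℤ) : vc R (gat v x) = gat (vc R v) (vc R x) := by
  apply ext16 <;> simp only [vc, gat_c] <;> push_cast <;> rfl

theorem vc_mu (x y : Fin 16 → ℤ) : vc R (mu x y) = mu (vc R x) (vc R y) := by
  apply ext10 <;> simp only [vc, mu_c] <;> push_cast <;> rfl

theorem cast_qV (v : Fin 10 → ℤ) : ((qV v : ℤ) : R) = qV (vc R v) := by
  simp only [vc, qV]
  push_cast
  rfl

theorem cast_BV (u v : Fin 10 → ℤ) : ((BV u v : ℤ) : R) = BV (vc R u) (vc R v) := by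
  simp only [vc, BV]
  push_cast
  rfl

theorem mc_gatM (v : Fin 10 → ℤ) : mc R (gatM v) = gatM (vc R v) := by
  ext i j
  have h := congrFun (vc_gat (R := R) v (Pi.single j 1)) i
  rw [scale_single] at h
  exact h

theorem mc_gamM (v : Fin 10 → ℤ) : mc R (gamM v) = gamM (vc R v) := by
  ext i j
  have h := congrFun (vc_gam (R := R) v (Pi.single j 1)) i
  rw [scale_single] at h
  exact h

theorem mc_kkM : mc R kkM = kkM := by
  ext i j
  simp only [mc, kkM, Matrix.map_apply, Matrix.of_apply]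
  revert i j
  apply all16 <;> apply all4 <;> simp only [kk_c] <;> push_cast <;> rfl

theorem mc_MK (v : Fin 10 → ℤ) : mc R (MK v) = MK (vc R v) := by
  ext i j
  simp only [mc, Matrix.map_apply]
  revert i j
  apply all4 <;> apply all4 <;> simp only [MK_c, vc] <;> push_cast <;> rfl

theorem mc_m2 (v : Fin 10 → ℤ) : mc R (m2 v) = m2 (vc R v) := by
  ext i j
  simp only [mc, Matrix.map_apply]
  revert i j
  apply all4 <;> apply all4 <;> simp only [m2_c, vc] <;> push_cast <;> rfl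

end

theorem tV_lo {t : ℝ} (ht : 1 ≤ t) {v : Fin 10 → ℤ} (hv : v ≠ 0) : 1 ≤ t ^ 2 * ‖tV t v‖ := by
  exact (scale_one_le hv).trans (scale_norm ht 2 wV scale_wV v)

theorem tV_lo' {t : ℝ} (ht : 0 < t) {v : Fin 10 → ℤ} (hv : v 5 ≠ 0 ∨ v 6 ≠ 0 ∨ v 7 ≠ 0) :
    t ^ 2 ≤ ‖tV t v‖ := by
  have key : ∀ a, wV a = -2 → v a ≠ 0 → t ^ 2 ≤ ‖tV t v‖ := fun a ha hv => by
    refine le_trans ?_ (norm_le_pi_norm (tV t v) a)
    have h1 : (1 : ℝ) ≤ |((v a : ℤ) : ℝ)| := by exact_mod_cast Int.one_le_abs hv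
    simp only [tV, scV, vc, ha, neg_neg, zpow_ofNat, Real.norm_eq_abs, abs_mul]
    rw [abs_of_pos (pow_pos ht 2)]
    exact le_mul_of_one_le_right (by positivity) h1
  rcases hv with h | h | h
  · exact key 5 rfl h
  · exact key 6 rfl h
  · exact key 7 rfl h

theorem tS_lo {t : ℝ} (ht : 1 ≤ t) {s : Fin 16 → ℤ} (hs : s ≠ 0) : 1 ≤ t ^ 3 * ‖tS t s‖ := by
  exact (scale_one_le hs).trans (scale_norm ht 3 wS scale_wS s)

theorem norm_vc_le_tV {t : ℝ} (ht : 1 ≤ t) (v : Fin 10 → ℤ) : ‖vc ℝ v‖ ≤ t ^ 2 * ‖tV t v‖ := by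
  exact scale_norm ht 2 wV scale_wV v

theorem norm_vc_le_tS {t : ℝ} (ht : 1 ≤ t) (s : Fin 16 → ℤ) : ‖vc ℝ s‖ ≤ t ^ 3 * ‖tS t s‖ := by
  exact scale_norm ht 3 wS scale_wS s

end Pool.Agent.Lib.MP_af4c59_nt.H57
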