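import Pool.Agent.Lib.MP_af4c59_nt.H57MFn
import Pool.Agent.Lib.MP_af4c59_nt.H57Scale

/-!
Sizes of the vector and of the spinor attached to a frame.
-/

set_option autoImplicit false

namespace Pool.Agent.Lib.MP_af4c59_nt.H57

open Matrix

theorem ca1_two {a b Z : ℝ} (h1 : |a + th1 * b| ≤ Z) (h2 : |a + th2 * b| ≤ Z) :
    |a| ≤ 2 * Z ∧ |b| ≤ 2 * Z := by
  rw [th2_eq] at h2
  obtain ⟨t1, t2⟩ := th1_bd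
  have hZ : 0 ≤ Z := (abs_nonneg _).trans h1
  rw [abs_le] at h1 h2
  have hb : |b| ≤ Z := by
    rw [abs_le]
    constructor <;> nlinarith [h1.1, h1.2, h2.1, h2.2]
  have hb' := abs_le.1 hb
  refine ⟨?_, by linarith⟩
  rw [abs_le]
  constructor <;> nlinarith [h1.1, h1.2, hb'.1, hb'.2]

theorem ca1_pc (m : Matrix (Fin 4) (Fin 4) ℤ) (θ θ' : ℝ) (a a' b b' : Fin 4) :
    ‖pc m θ θ' a a' b b'‖ = |((m a b : ℝ) + θ' * m a b') + θ * (m a' b + θ' * m a' b')| := by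
  rw [← Real.norm_eq_abs, ← Complex.norm_real, pc]
  congr 1
  push_cast
  ring

theorem ca1_four {m : Matrix (Fin 4) (Fin 4) ℤ} {a a' b b' : Fin 4} {Z : ℝ}
    (h11 : ‖pc m th1 th1 a a' b b'‖ ≤ Z) (h12 : ‖pc m th1 th2 a a' b b'‖ ≤ Z)
    (h21 : ‖pc m th2 th1 a a' b b'‖ ≤ Z) (h22 : ‖pc m th2 th2 a a' b b'‖ ≤ Z) :
    |(m a b : ℝ)| ≤ 4 * Z ∧ |(m a b' : ℝ)| ≤ 4 * Z ∧ |(m a' b : ℝ)| ≤ 4 * Z ∧
      |(m a' b' : ℝ)| ≤ 4 * Z := by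
  rw [ca1_pc] at h11 h12 h21 h22
  obtain ⟨p1, p2⟩ := ca1_two h11 h21
  obtain ⟨q1, q2⟩ := ca1_two h12 h22
  obtain ⟨r1, r2⟩ := ca1_two p1 q1
  obtain ⟨s1, s2⟩ := ca1_two p2 q2
  refine ⟨?_, ?_, ?_, ?_⟩ <;> linarith

theorem ca1_t3 {p q l : ℂ} {P Q r : ℝ} (hp : ‖p‖ ≤ P) (hq : ‖q‖ ≤ Q) (hl : ‖l‖ ≤ r) :
    ‖p * q * l‖ ≤ P * Q * r := by
  have := (norm_nonneg _).trans hp
  have := (norm_nonneg _).trans hq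
  rw [norm_mul, norm_mul]
  gcongr

theorem ca1_div2 {D D' A e₁ e₂ e₃ e₄ : ℂ} {B M : ℝ} (hB : 0 < B) (hD : B ^ 2 ≤ 2 * ‖D‖)
    (hD' : B ^ 2 ≤ 2 * ‖D'‖) (h : D * D' * A = e₁ - e₂ - e₃ + e₄ ∨ D * D' * A = -e₁ + e₂ + e₃ - e₄)
    (h₁ : ‖e₁‖ ≤ M) (h₂ : ‖e₂‖ ≤ M) (h₃ : ‖e₃‖ ≤ M) (h₄ : ‖e₄‖ ≤ M) : ‖A‖ ≤ 16 * M / B ^ 4 := by
  have k : ‖e₁ - e₂ - e₃ + e₄‖ ≤ 4 * M := by
    have a1 := norm_add_le (e₁ - e₂ - e₃) e₄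
    have a2 := norm_sub_le (e₁ - e₂) e₃
    have a3 := norm_sub_le e₁ e₂
    linarith
  have k2 : ‖D‖ * ‖D'‖ * ‖A‖ ≤ 4 * M := by
    rw [← norm_mul, ← norm_mul]
    rcases h with h | h
    · rw [h]; exact k
    · rw [h, ← norm_neg, show -(-e₁ + e₂ + e₃ - e₄) = e₁ - e₂ - e₃ + e₄ by ring]
      exact k
  rw [le_div_iff₀ (by positivity)]
  calc ‖A‖ * B ^ 4 = B ^ 2 * B ^ 2 * ‖A‖ := by ring
    _ ≤ (2 * ‖D‖) * (2 * ‖D'‖) * ‖A‖ := by gcongr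
    _ = 4 * (‖D‖ * ‖D'‖ * ‖A‖) := by ring
    _ ≤ 16 * M := by linarith

theorem ca1_cr2 {X Y l : Fin 5 → ℂ} {m : Matrix (Fin 4) (Fin 4) ℤ} (h : MF X Y l m)
    {B α β r : ℝ} (hB : 0 < B) (hX : Bd0 X α) (hY : Bd0 Y β) (hl : ∀ j, ‖l j‖ ≤ r)
    {j j' k k' : Fin 5} (hj : j ≠ 0) (hj' : j' ≠ 0) (hk : k ≠ 0) (hk' : k' ≠ 0) {θ θ' : ℂ}
    (ej : ec j om = θ) (ej' : ec j' om = θ) (ek : ec k om = θ') (ek' : ec k' om = θ')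
    (dj : B ^ 2 ≤ 2 * ‖X j * Y j' - X j' * Y j‖) (dk : B ^ 2 ≤ 2 * ‖X k * Y k' - X k' * Y k‖) :
    ‖pc m θ θ' 0 1 0 1‖ ≤ 16 * (β * β * r) / B ^ 4 ∧
      ‖pc m θ θ' 0 1 2 3‖ ≤ 16 * (β * α * r) / B ^ 4 ∧
      ‖pc m θ θ' 2 3 2 3‖ ≤ 16 * (α * α * r) / B ^ 4 := by
  have h1 := h.eq j k hj hk
  have h2 := h.eq j k' hj hk'
  have h3 := h.eq j' k hj' hk
  have h4 := h.eq j' k' hj' hk'
  rw [ej, ek] at h1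
  rw [ej, ek'] at h2
  rw [ej', ek] at h3
  rw [ej', ek'] at h4
  obtain ⟨c1, c2, -, c4⟩ := cramer2 h1 h2 h3 h4
  refine ⟨ca1_div2 hB dj dk (Or.inl c1) ?_ ?_ ?_ ?_,
    ca1_div2 hB dj dk (Or.inr (c2.trans (by rw [neg_mul, neg_mul]))) ?_ ?_ ?_ ?_,
    ca1_div2 hB dj dk (Or.inl c4) ?_ ?_ ?_ ?_⟩
  · exact ca1_t3 (hY _ hj') (hY _ hk') (hl _)
  · exact ca1_t3 (hY _ hj') (hY _ hk) (hl _)
  · exact ca1_t3 (hY _ hj) (hY _ hk') (hl _)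
  · exact ca1_t3 (hY _ hj) (hY _ hk) (hl _)
  · exact ca1_t3 (hY _ hj') (hX _ hk') (hl _)
  · exact ca1_t3 (hY _ hj') (hX _ hk) (hl _)
  · exact ca1_t3 (hY _ hj) (hX _ hk') (hl _)
  · exact ca1_t3 (hY _ hj) (hX _ hk) (hl _)
  · exact ca1_t3 (hX _ hj') (hX _ hk') (hl _)
  · exact ca1_t3 (hX _ hj') (hX _ hk) (hl _)
  · exact ca1_t3 (hX _ hj) (hX _ hk') (hl _)
  · exact ca1_t3 (hX _ hj) (hX _ hk) (hl _)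

theorem ca1_sc {x u Z K : ℝ} (hu : 0 ≤ u) (h : |x| ≤ Z) (e : u * Z = K) :
    -K ≤ u * x ∧ u * x ≤ K := by
  rw [← abs_le, abs_mul, abs_of_nonneg hu, ← e]
  gcongr

theorem size_v (c : ℝ) (hc : 1 ≤ c) : ∃ c' : ℝ, 1 ≤ c' ∧ ∀ (B t r : ℝ) (X Y l : Fin 5 → ℂ)
    (m : Matrix (Fin 4) (Fin 4) ℤ), 0 < B → 0 < t → Shape c B t X Y → MF X Y l m →
    (∀ j, ‖l j‖ ≤ r) → ‖tV t (tau m)‖ ≤ c' * r / B ^ 2 := by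
  refine ⟨7 * (64 * c ^ 2), by nlinarith, ?_⟩
  intro B t r X Y l m hB ht hS hM hl
  have hr : 0 ≤ r := (norm_nonneg _).trans (hl 0)
  have hd1 : B ^ 2 ≤ 2 * ‖X 1 * Y 4 - X 4 * Y 1‖ := (hS.d_lo hB).1
  have hd2 : B ^ 2 ≤ 2 * ‖X 2 * Y 3 - X 3 * Y 2‖ := by
    have h : B ^ 2 ≤ ‖X 2 * Y 3 - X 3 * Y 2‖ := hS.lo
    have := norm_nonneg (X 2 * Y 3 - X 3 * Y 2)
    linarith
  obtain ⟨o1, o2, o3, o4⟩ := ec_om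
  obtain ⟨a11, b11, c11⟩ := ca1_cr2 hM hB hS.bX hS.bY hl (by decide) (by decide) (by decide)
    (by decide) o1 o4 o1 o4 hd1 hd1
  obtain ⟨a12, b12, c12⟩ := ca1_cr2 hM hB hS.bX hS.bY hl (by decide) (by decide) (by decide)
    (by decide) o1 o4 o2 o3 hd1 hd2
  obtain ⟨a21, b21, c21⟩ := ca1_cr2 hM hB hS.bX hS.bY hl (by decide) (by decide) (by decide)
    (by decide) o2 o3 o1 o4 hd2 hd1
  obtain ⟨a22, b22, c22⟩ := ca1_cr2 hM hB hS.bX hS.bY hl (by decide) (by decide) (by decide)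
    (by decide) o2 o3 o2 o3 hd2 hd2
  obtain ⟨m00, m01, -, m11⟩ := ca1_four a11 a12 a21 a22
  obtain ⟨m02, m03, m12, m13⟩ := ca1_four b11 b12 b21 b22
  obtain ⟨m22, m23, -, m33⟩ := ca1_four c11 c12 c21 c22
  set K : ℝ := 64 * c ^ 2 * r / B ^ 2 with hK
  have hK0 : 0 ≤ K := by positivity
  have e1 : t ^ (-(2 : ℤ)) * (4 * (16 * (c * B * t * (c * B * t) * r) / B ^ 4)) = K := by
    rw [hK, _root_.zpow_neg, zpow_ofNat]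
    field_simp
    ring
  have e2 : 4 * (16 * (c * B * t * (c * B / t) * r) / B ^ 4) = K := by
    rw [hK]
    field_simp
    ring
  have e3 : t ^ (2 : ℤ) * (4 * (16 * (c * B / t * (c * B / t) * r) / B ^ 4)) = K := by
    rw [hK, zpow_ofNat]
    field_simp
    ring
  have p1 : 0 ≤ t ^ (-(2 : ℤ)) := by positivity
  have p3 : 0 ≤ t ^ (2 : ℤ) := by positivity
  obtain ⟨n00, n00'⟩ := ca1_sc p1 m00 e1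
  obtain ⟨n01, n01'⟩ := ca1_sc p1 m01 e1
  obtain ⟨n11, n11'⟩ := ca1_sc p1 m11 e1
  obtain ⟨n22, n22'⟩ := ca1_sc p3 m22 e3
  obtain ⟨n23, n23'⟩ := ca1_sc p3 m23 e3
  obtain ⟨n33, n33'⟩ := ca1_sc p3 m33 e3
  rw [e2, abs_le] at m02 m03 m12 m13
  obtain ⟨n02, n02'⟩ := m02
  obtain ⟨n03, n03'⟩ := m03
  obtain ⟨n12, n12'⟩ := m12
  obtain ⟨n13, n13'⟩ := m13
  have e4 : 7 * (64 * c ^ 2) * r / B ^ 2 = 7 * K := by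
    rw [hK]
    ring
  rw [e4, pi_norm_le_iff_of_nonneg (by positivity)]
  apply all10 <;> simp only [tV, scV, vc, wV_c, tau_c, neg_neg, neg_zero, zpow_zero, one_mul,
    Real.norm_eq_abs, abs_le] <;> push_cast <;> constructor <;> linarith

theorem ca1_div1 {D a p p' y y' : ℂ} {B P Q : ℝ} (hB : 0 < B) (hD : B ^ 2 ≤ 2 * ‖D‖)
    (h : D * a = p * y' - p' * y) (hp : ‖p‖ ≤ P) (hp' : ‖p'‖ ≤ P) (hy : ‖y‖ ≤ Q) (hy' : ‖y'‖ ≤ Q) :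
    ‖a‖ ≤ 4 * (P * Q) / B ^ 2 := by
  have hP := (norm_nonneg _).trans hp
  have k : ‖D‖ * ‖a‖ ≤ 2 * (P * Q) := by
    rw [← norm_mul, h]
    refine (norm_sub_le _ _).trans ?_
    rw [norm_mul, norm_mul]
    have : ‖p‖ * ‖y'‖ ≤ P * Q := by gcongr
    have : ‖p'‖ * ‖y‖ ≤ P * Q := by gcongr
    linarith
  rw [le_div_iff₀ (by positivity)]
  calc ‖a‖ * B ^ 2 ≤ ‖a‖ * (2 * ‖D‖) := by gcongr
    _ = 2 * (‖D‖ * ‖a‖) := by ring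
    _ ≤ 4 * (P * Q) := by linarith

theorem ca1_t2 {p q : ℂ} {P Q : ℝ} (hp : ‖p‖ ≤ P) (hq : ‖q‖ ≤ Q) : ‖p * q‖ ≤ P * Q := by
  have := (norm_nonneg _).trans hp
  rw [norm_mul]
  gcongr

theorem ca1_cr1 {x y x' y' u w u' w' : ℂ} {a : Fin 6 → ℂ} (h : SC1 x y u w a)
    (h' : SC1 x' y' u' w' a) {B α β : ℝ} (hB : 0 < B) (hD : B ^ 2 ≤ 2 * ‖x * y' - x' * y‖)
    (hx : ‖x‖ ≤ α) (hx' : ‖x'‖ ≤ α) (hu : ‖u‖ ≤ α) (hu' : ‖u'‖ ≤ α)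
    (hy : ‖y‖ ≤ β) (hy' : ‖y'‖ ≤ β) (hw : ‖w‖ ≤ β) (hw' : ‖w'‖ ≤ β) :
    ‖a 0‖ ≤ 4 * (α * α * β) / B ^ 2 ∧ ‖a 1‖ ≤ 4 * (α * α * α) / B ^ 2 ∧
      ‖a 2‖ ≤ 4 * (α * β * β) / B ^ 2 ∧ ‖a 3‖ ≤ 4 * (α * β * α) / B ^ 2 ∧
      ‖a 4‖ ≤ 4 * (β * β * β) / B ^ 2 ∧ ‖a 5‖ ≤ 4 * (β * β * α) / B ^ 2 := by
  obtain ⟨h1, h2, h3⟩ := h
  obtain ⟨k1, k2, k3⟩ := h'
  obtain ⟨c0, c1⟩ := cramer1 h1 k1
  obtain ⟨c2, c3⟩ := cramer1 h2 k2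
  obtain ⟨c4, c5⟩ := cramer1 h3 k3
  exact ⟨ca1_div1 hB hD c0 (ca1_t2 hu hu) (ca1_t2 hu' hu') hy hy',
    ca1_div1 hB hD c1 (ca1_t2 hu' hu') (ca1_t2 hu hu) hx' hx,
    ca1_div1 hB hD c2 (ca1_t2 hu hw) (ca1_t2 hu' hw') hy hy',
    ca1_div1 hB hD c3 (ca1_t2 hu' hw') (ca1_t2 hu hw) hx' hx,
    ca1_div1 hB hD c4 (ca1_t2 hw hw) (ca1_t2 hw' hw') hy hy',
    ca1_div1 hB hD c5 (ca1_t2 hw' hw') (ca1_t2 hw hw) hx' hx⟩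

theorem ca1_ob {a : O} {Z u K : ℝ} (h1 : ‖c1 a‖ ≤ Z) (h2 : ‖c2 a‖ ≤ Z) (hu : 0 ≤ u)
    (e : u * (2 * Z) = K) :
    (-K ≤ u * a.re ∧ u * a.re ≤ K) ∧ (-K ≤ u * a.im ∧ u * a.im ≤ K) := by
  rw [c1_apply, Complex.norm_real] at h1
  rw [c2_apply, Complex.norm_real] at h2
  obtain ⟨k1, k2⟩ := OB.of_e h1 h2
  exact ⟨ca1_sc hu k1 e, ca1_sc hu k2 e⟩

theorem size_s (c : ℝ) (hc : 1 ≤ c) : ∃ c' : ℝ, 1 ≤ c' ∧ ∀ (B t : ℝ) (X Y : Fin 5 → ℂ)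
    (s : Fin 6 → O), 0 < B → 0 < t → Shape c B t X Y → SCO X Y s →
    ‖tS t (iota s)‖ ≤ c' * B := by
  have hc3 : 1 ≤ c ^ 3 := one_le_pow₀ hc
  refine ⟨11 * (8 * c ^ 3), by linarith, ?_⟩
  intro B t X Y s hB ht hS hM
  have hd1 : B ^ 2 ≤ 2 * ‖X 1 * Y 4 - X 4 * Y 1‖ := (hS.d_lo hB).1
  have hd2 : B ^ 2 ≤ 2 * ‖X 2 * Y 3 - X 3 * Y 2‖ := by
    have h : B ^ 2 ≤ ‖X 2 * Y 3 - X 3 * Y 2‖ := hS.lo
    have := norm_nonneg (X 2 * Y 3 - X 3 * Y 2)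
    linarith
  obtain ⟨s1, s4, s2, s3⟩ := hM
  have x1 := hS.bX 1 (by decide)
  have x2 := hS.bX 2 (by decide)
  have x3 := hS.bX 3 (by decide)
  have x4 := hS.bX 4 (by decide)
  have y1 := hS.bY 1 (by decide)
  have y2 := hS.bY 2 (by decide)
  have y3 := hS.bY 3 (by decide)
  have y4 := hS.bY 4 (by decide)
  obtain ⟨a0, a1, a2, a3, a4, a5⟩ := ca1_cr1 s1 s4 hB hd1 x1 x4 x3 x2 y1 y4 y3 y2
  obtain ⟨b0, b1, b2, b3, b4, b5⟩ := ca1_cr1 s2 s3 hB hd2 x2 x3 x1 x4 y2 y3 y1 y4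
  set K : ℝ := 8 * c ^ 3 * B with hK
  have hK0 : 0 ≤ K := by positivity
  obtain ⟨⟨p0, q0⟩, r0, t0⟩ := ca1_ob (u := t ^ (1 : ℤ)) (K := K) a0 b0 (by positivity)
    (by rw [hK, zpow_one]; field_simp; ring)
  obtain ⟨⟨p1, q1⟩, r1, t1⟩ := ca1_ob (u := t ^ (3 : ℤ)) (K := K) a1 b1 (by positivity)
    (by rw [hK, zpow_ofNat]; field_simp; ring)
  obtain ⟨⟨p2, q2⟩, r2, t2⟩ := ca1_ob (u := t ^ (-(1 : ℤ))) (K := K) a2 b2 (by positivity)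
    (by rw [hK, _root_.zpow_neg, zpow_one]; field_simp; ring)
  obtain ⟨⟨p3, q3⟩, r3, t3⟩ := ca1_ob (u := t ^ (1 : ℤ)) (K := K) a3 b3 (by positivity)
    (by rw [hK, zpow_one]; field_simp; ring)
  obtain ⟨⟨p4, q4⟩, r4, t4⟩ := ca1_ob (u := t ^ (-(3 : ℤ))) (K := K) a4 b4 (by positivity)
    (by rw [hK, _root_.zpow_neg, zpow_ofNat]; field_simp; ring)
  obtain ⟨⟨p5, q5⟩, r5, t5⟩ := ca1_ob (u := t ^ (-(1 : ℤ))) (K := K) a5 b5 (by positivity)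
    (by rw [hK, _root_.zpow_neg, zpow_one]; field_simp; ring)
  have e4 : 11 * (8 * c ^ 3) * B = 11 * K := by
    rw [hK]
    ring
  rw [e4, pi_norm_le_iff_of_nonneg (by positivity)]
  generalize K = K' at *
  apply all16 <;> simp only [tS, scS, vc, wS_c, iota_c, neg_neg, Real.norm_eq_abs, abs_le] <;>
    push_cast <;> constructor <;> linarith

theorem iota_ne {X Y : Fin 5 → ℂ} {s : Fin 6 → O} (h : SCO X Y s) (h1 : d1 X Y ≠ 0) :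
    iota s ≠ 0 := by
  intro h0
  have hz : iota 0 = 0 := by
    have := iota_smul 0 0
    rwa [zero_smul, zero_smul] at this
  have hs : s = 0 := iota_inj (h0.trans hz.symm)
  subst hs
  obtain ⟨-, -, ⟨k1, -⟩, ⟨k4, -⟩⟩ := h
  simp only [Pi.zero_apply, map_zero, zero_mul, add_zero, mul_self_eq_zero] at k1 k4
  apply h1
  rw [d1, k1, k4]
  ring

end Pool.Agent.Lib.MP_af4c59_nt.H57
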