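import Pool.Agent.Lib.MP_af4c59_nt.H57Lin0

/-!
Minors of products, unimodular completion, maximal minors.
-/

set_option autoImplicit false

namespace Pool.Agent.Lib.MP_af4c59_nt.H57

open Matrix

theorem lin_rank (a k : ℕ) (F : Matrix (Fin k) (Fin a ⊕ Fin k) ℤ) :
    a ≤ Module.finrank ℤ (LinearMap.ker F.mulVecLin) := by
  have h1 := (LinearMap.ker F.mulVecLin).finrank_quotient_add_finrank
  have h2 := F.mulVecLin.quotKerEquivRange.finrank_eq
  have h3 := (LinearMap.range F.mulVecLin).finrank_le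
  simp only [Module.finrank_fintype_fun_eq_card, Fintype.card_sum, Fintype.card_fin] at h1 h3
  omega

/-- A unimodular matrix whose first columns lie in the kernel. -/
theorem adapt (a k : ℕ) (F : Matrix (Fin k) (Fin a ⊕ Fin k) ℤ) :
    ∃ W W' : Matrix (Fin a ⊕ Fin k) (Fin a ⊕ Fin k) ℤ, W * W' = 1 ∧ F * W.toCols₁ = 0 := by
  obtain ⟨n, bM, bN, f, c, snf⟩ :=
    (LinearMap.ker F.mulVecLin).smithNormalForm (Pi.basisFun ℤ (Fin a ⊕ Fin k))
  have hn : a ≤ n := by
    have := lin_rank a k F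
    rwa [Module.finrank_eq_card_basis bN, Fintype.card_fin] at this
  obtain ⟨σ, hσ⟩ := Equiv.Perm.exists_extending_pair (f := (Sum.inl : Fin a → Fin a ⊕ Fin k))
    (g := fun i => f (Fin.castLE hn i)) Sum.inl_injective
    (f.injective.comp (Fin.castLE_injective hn))
  have hk : ∀ i, F *ᵥ bM (f i) = 0 := fun i => by
    have h0 : c i ≠ 0 := fun h => bN.ne_zero i (Subtype.ext (by rw [snf, h, zero_smul]; rfl))
    have h1 : F *ᵥ (bN i : Fin a ⊕ Fin k → ℤ) = 0 := (bN i).2
    rw [snf, mulVec_smul] at h1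
    exact (smul_eq_zero.1 h1).resolve_left h0
  refine ⟨(Pi.basisFun ℤ (Fin a ⊕ Fin k)).toMatrix (bM.reindex σ.symm),
    (bM.reindex σ.symm).toMatrix (Pi.basisFun ℤ (Fin a ⊕ Fin k)),
    Module.Basis.toMatrix_mul_toMatrix_flip _ _, ?_⟩
  ext i j
  have h := congrFun (hk (Fin.castLE hn j)) i
  rw [← hσ j] at h
  simpa [Matrix.mul_apply, Module.Basis.toMatrix_apply, mulVec, dotProduct] using h

/-- A basis of the orthogonal complement of a primitive vector. -/
theorem compl4 {c : Fin 4 → ℤ} (hc : Prim c) :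
    ∃ U U' : Matrix (Fin 4) (Fin 4) ℤ, U * U' = 1 ∧ c ᵥ* U = Pi.single 3 1 := by
  obtain ⟨w, hw⟩ := hc
  let e : Fin 3 ⊕ Fin 1 ≃ Fin 4 := finSumFinEquiv
  obtain ⟨W, W', h1, h2⟩ := adapt 3 1 (Matrix.of fun _ j => c (e j))
  let V : Matrix (Fin 4) (Fin 4) ℤ := W.submatrix e.symm e.symm
  let V' : Matrix (Fin 4) (Fin 4) ℤ := W'.submatrix e.symm e.symm
  have hV : V * V' = 1 := by
    simp only [V, V']
    rw [submatrix_mul_equiv, h1, submatrix_one_equiv]
  have hz : ∀ j : Fin 3, (c ᵥ* V) (e (Sum.inl j)) = 0 := fun j => by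
    have h := congrFun (congrFun h2 0) j
    simp only [Matrix.mul_apply, of_apply, toCols₁_apply, Matrix.zero_apply] at h
    simp only [vecMul, dotProduct, V, submatrix_apply, Equiv.symm_apply_apply]
    rw [← h, ← e.sum_comp]
    simp only [Equiv.symm_apply_apply]
  have z0 : (c ᵥ* V) 0 = 0 := hz 0
  have z1 : (c ᵥ* V) 1 = 0 := hz 1
  have z2 : (c ᵥ* V) 2 = 0 := hz 2
  have hu : (c ᵥ* V) 3 * (V' *ᵥ w) 3 = 1 := by
    have h : (c ᵥ* V) ⬝ᵥ (V' *ᵥ w) = 1 := by
      rw [← dotProduct_mulVec, mulVec_mulVec, hV, one_mulVec, hw]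
    simpa [dotProduct, Fin.sum_univ_four, z0, z1, z2] using h
  have hs : (c ᵥ* V) 3 * (c ᵥ* V) 3 = 1 := by
    rcases Int.eq_one_or_neg_one_of_mul_eq_one hu with h | h <;> rw [h] <;> rfl
  refine ⟨(c ᵥ* V) 3 • V, (c ᵥ* V) 3 • V', ?_, ?_⟩
  · rw [Matrix.smul_mul, Matrix.mul_smul, smul_smul, hs, one_smul, hV]
  · rw [vecMul_smul]
    funext j
    fin_cases j
    · simp [z0]
    · simp [z1]
    · simp [z2]
    · simpa using hs

/-- The rows of a maximal minor. -/
theorem auerbach {m : Type} [Fintype m] {k : ℕ} (J : Matrix m (Fin k) ℝ) (h : Rk k J) :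
    ∃ (f : Fin k → m) (R : Matrix m (Fin k) ℝ), (J.submatrix f id).det ≠ 0 ∧ Ent R 1 ∧
      J = R * J.submatrix f id ∧ R.submatrix f id = 1 := by
  classical
  obtain ⟨f0, g, h0⟩ := h
  have hg : Function.Injective g := fun i j hij => by
    by_contra hne
    exact h0 (det_zero_of_column_eq hne fun r => by simp [hij])
  have h1 : (J.submatrix f0 id).det ≠ 0 := fun hz => by
    apply h0
    have := det_permute' (Equiv.ofBijective g (Finite.injective_iff_bijective.1 hg))
      (J.submatrix f0 id)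
    rw [hz, mul_zero] at this
    exact this
  obtain ⟨f, -, hf⟩ := Finset.exists_max_image Finset.univ
    (fun f : Fin k → m => |(J.submatrix f id).det|) ⟨f0, Finset.mem_univ _⟩
  have hp : 0 < |(J.submatrix f id).det| := (abs_pos.2 h1).trans_le (hf f0 (Finset.mem_univ _))
  have hd : (J.submatrix f id).det ≠ 0 := abs_pos.1 hp
  have hU : IsUnit (J.submatrix f id).det := hd.isUnit
  refine ⟨f, J * (J.submatrix f id)⁻¹, hd, fun i j => ?_, ?_, ?_⟩
  · have h2 := congrFun (det_smul_inv_vecMul_eq_cramer_transpose (J.submatrix f id) (J i) hU) j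
    rw [cramer_transpose_apply] at h2
    have h3 : (J.submatrix f id).updateRow j (J i) = J.submatrix (Function.update f j i) id := by
      ext r s
      by_cases hr : r = j
      · subst hr
        simp
      · simp [updateRow_ne hr, Function.update_of_ne hr]
    have h4 := hf (Function.update f j i) (Finset.mem_univ _)
    rw [← h3, ← h2, Pi.smul_apply, smul_eq_mul, abs_mul] at h4
    exact (mul_le_iff_le_one_right hp).1 h4
  · rw [Matrix.mul_assoc, nonsing_inv_mul _ hU, Matrix.mul_one]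
  · have : (J * (J.submatrix f id)⁻¹).submatrix f id = J.submatrix f id * (J.submatrix f id)⁻¹ := rfl
    rw [this, mul_nonsing_inv _ hU]

/-- The spectral theorem with sorted eigenvalues. -/
theorem spec {n : ℕ} (A : Matrix (Fin n) (Fin n) ℝ) (hA : A.IsSymm) :
    ∃ (U : Matrix (Fin n) (Fin n) ℝ) (ν : Fin n → ℝ), Uᵀ * U = 1 ∧ U * Uᵀ = 1 ∧ Ent U 1 ∧
      A = Uᵀ * Matrix.diagonal ν * U ∧ ∀ i j, i ≤ j → |ν j| ≤ |ν i| := by
  have hH : A.IsHermitian := by
    unfold IsHermitian
    rw [conjTranspose_eq_transpose_of_trivial]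
    exact hA
  obtain ⟨V, hV1, hV2⟩ : ∃ V : Matrix (Fin n) (Fin n) ℝ, V * Vᵀ = 1 ∧
      A = V * diagonal hH.eigenvalues * Vᵀ := by
    refine ⟨hH.eigenvectorUnitary, ?_, ?_⟩
    · have := hH.eigenvectorUnitary.2.2
      rwa [star_eq_conjTranspose, conjTranspose_eq_transpose_of_trivial] at this
    · have := hH.spectral_theorem
      rw [Unitary.conjStarAlgAut_apply, star_eq_conjTranspose,
        conjTranspose_eq_transpose_of_trivial] at this
      exact this
  let σ := Tuple.sort fun i => -|hH.eigenvalues i|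
  have h1 : (Vᵀ.submatrix σ id)ᵀ * Vᵀ.submatrix σ id = 1 := by
    rw [transpose_submatrix, transpose_transpose, submatrix_mul_equiv, hV1]
    rfl
  have h2 : Vᵀ.submatrix σ id * (Vᵀ.submatrix σ id)ᵀ = 1 := mul_eq_one_comm.1 h1
  refine ⟨Vᵀ.submatrix σ id, hH.eigenvalues ∘ σ, h1, h2, fun i j => ?_, ?_, fun i j hij => ?_⟩
  · have h := congrFun (congrFun h2 i) i
    rw [Matrix.mul_apply, one_apply_eq] at h
    simp only [transpose_apply] at h
    have h3 := Finset.single_le_sum (f := fun r => Vᵀ.submatrix σ id i r * Vᵀ.submatrix σ id i r)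
      (fun r _ => mul_self_nonneg _) (Finset.mem_univ j)
    rw [h] at h3
    exact abs_le_one_iff_mul_self_le_one.2 h3
  · rw [transpose_submatrix, transpose_transpose, ← submatrix_diagonal_equiv, submatrix_mul_equiv,
      submatrix_mul_equiv]
    exact hV2
  · exact neg_le_neg_iff.1 (Tuple.monotone_sort (fun i => -|hH.eigenvalues i|) hij)

end Pool.Agent.Lib.MP_af4c59_nt.H57
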