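import Pool.Agent.Lib.MP_af4c59_nt.H57MFn
import Pool.Agent.Lib.MP_af4c59_nt.H57Scale
import Pool.Agent.Lib.MP_af4c59_nt.H57Lin

/-!
Rank conditions and independence.
-/

set_option autoImplicit false

namespace Pool.Agent.Lib.MP_af4c59_nt.H57

open Matrix

theorem ca3_th_ne : (th1 : ℂ) - (th2 : ℂ) ≠ 0 := by
  have h : th1 - th2 ≠ 0 := by
    rw [th2_eq]
    linarith [th1_bd.1]
  exact_mod_cast h

/-- A covector with prescribed values on the frame. -/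
theorem exists_cov {X Y : Fin 5 → ℂ} (h1 : d1 X Y ≠ 0) (h2 : d2 X Y ≠ 0) (z : Fin 5 → ℂ) :
    ∃ κ : Fin 4 → ℂ, ∀ j : Fin 5, j ≠ 0 → ∑ a, κ a * fr X Y a j = z j := by
  have h3 := ca3_th_ne
  obtain ⟨e1, e2, e3, e4⟩ := ec_om
  obtain ⟨a1, ha1⟩ : ∃ a, a * d1 X Y = z 1 * Y 4 - z 4 * Y 1 := ⟨_, div_mul_cancel₀ _ h1⟩
  obtain ⟨b1, hb1⟩ : ∃ a, a * d1 X Y = X 1 * z 4 - X 4 * z 1 := ⟨_, div_mul_cancel₀ _ h1⟩
  obtain ⟨a2, ha2⟩ : ∃ a, a * d2 X Y = z 2 * Y 3 - z 3 * Y 2 := ⟨_, div_mul_cancel₀ _ h2⟩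
  obtain ⟨b2, hb2⟩ : ∃ a, a * d2 X Y = X 2 * z 3 - X 3 * z 2 := ⟨_, div_mul_cancel₀ _ h2⟩
  obtain ⟨p, hp⟩ : ∃ a, a * ((th1 : ℂ) - th2) = a1 - a2 := ⟨_, div_mul_cancel₀ _ h3⟩
  obtain ⟨q, hq⟩ : ∃ a, a * ((th1 : ℂ) - th2) = b1 - b2 := ⟨_, div_mul_cancel₀ _ h3⟩
  have key : ∀ j, ∑ a, (![a1 - p * th1, p, b1 - q * th1, q] : Fin 4 → ℂ) a * fr X Y a j =
      (a1 - p * th1 + p * ec j om) * X j + (b1 - q * th1 + q * ec j om) * Y j := by
    intro j
    simp only [Fin.sum_univ_four, fr, Matrix.cons_val]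
    ring
  refine ⟨![a1 - p * th1, p, b1 - q * th1, q], all5 (fun h => absurd rfl h) (fun _ => ?_)
    (fun _ => ?_) (fun _ => ?_) (fun _ => ?_)⟩
  · rw [key, e1]
    refine mul_right_cancel₀ h1 ?_
    unfold d1 at *
    linear_combination X 1 * ha1 + Y 1 * hb1
  · rw [key, e2]
    refine mul_right_cancel₀ h2 ?_
    unfold d2 at *
    linear_combination X 2 * ha2 + Y 2 * hb2 -
      (X 2 * Y 3 - X 3 * Y 2) * X 2 * hp - (X 2 * Y 3 - X 3 * Y 2) * Y 2 * hq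
  · rw [key, e3]
    refine mul_right_cancel₀ h2 ?_
    unfold d2 at *
    linear_combination X 3 * ha2 + Y 3 * hb2 -
      (X 2 * Y 3 - X 3 * Y 2) * X 3 * hp - (X 2 * Y 3 - X 3 * Y 2) * Y 3 * hq
  · rw [key, e4]
    refine mul_right_cancel₀ h1 ?_
    unfold d1 at *
    linear_combination X 4 * ha1 + Y 4 * hb1

/-- A character of the pentagon. -/
noncomputable def ca3_chi (s : Fin 5) : Fin 5 → ℂ := fun j => z5 ^ (j.val * s.val)

theorem ca3_ft_one (s : Fin 5) : ft (fun _ => (1 : ℂ)) s = if s = 0 then 5 else 0 := by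
  obtain ⟨h0, h1, h2, h3, h4⟩ := ft_c fun _ => (1 : ℂ)
  have hs := z5_sum
  revert s
  refine all5 ?_ ?_ ?_ ?_ ?_
  · rw [h0, if_pos rfl]
    norm_num
  · rw [h1, if_neg (by decide)]
    linear_combination hs
  · rw [h2, if_neg (by decide)]
    linear_combination hs
  · rw [h3, if_neg (by decide)]
    linear_combination hs
  · rw [h4, if_neg (by decide)]
    linear_combination hs

theorem ca3_ft_chi (s t n : Fin 5) : ft (ca3_chi s - ca3_chi t) n =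
    (if n + s = 0 then 5 else 0) - if n + t = 0 then 5 else 0 := by
  rw [← ca3_ft_one, ← ca3_ft_one, ← ft_char, ← ft_char, ← Finset.sum_sub_distrib]
  refine Finset.sum_congr rfl fun i _ => ?_
  simp only [ca3_chi, Pi.sub_apply]
  ring

theorem ca3_pair {X Y z : Fin 5 → ℂ} {m : Matrix (Fin 4) (Fin 4) ℤ} {c : ℂ}
    (hm : MF X Y (c • ft z) m) {α β : Fin 5 → ℂ} (hα : α 0 = 0) (hβ : β 0 = 0) :
    ∑ b, (∑ a, (∑ j, α j * fr X Y a j) * (m a b : ℂ)) * ∑ k, β k * fr X Y b k =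
      c * ∑ n, z n * ft α n * ft β n := by
  have h1 : ∀ j k : Fin 5, α j * β k * ∑ a : Fin 4, ∑ b : Fin 4,
      fr X Y a j * (m a b : ℂ) * fr X Y b k =
      α j * β k * (c * ∑ n : Fin 5, z n * z5 ^ (n.val * j.val) * z5 ^ (n.val * k.val)) := by
    intro j k
    by_cases hj : j = 0
    · rw [hj, hα, zero_mul, zero_mul, zero_mul]
    by_cases hk : k = 0
    · rw [hk, hβ, mul_zero, zero_mul, zero_mul]
    rw [hm.2 j k hj hk, ft_char]
    rfl
  have h2 : ∑ b, (∑ a, (∑ j, α j * fr X Y a j) * (m a b : ℂ)) * ∑ k, β k * fr X Y b k =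
      ∑ j, ∑ k, α j * β k * ∑ a : Fin 4, ∑ b : Fin 4, fr X Y a j * (m a b : ℂ) * fr X Y b k := by
    simp only [Fin.sum_univ_four, Fin.sum_univ_five]
    ring
  have h3 : ∀ (γ : Fin 5 → ℂ) (n : Fin 5), ft γ n = ∑ j : Fin 5, z5 ^ (n.val * j.val) * γ j :=
    fun γ n => Finset.sum_congr rfl fun j _ => by rw [mul_comm j.val]
  rw [h2]
  simp only [h1, h3]
  obtain ⟨w, hw⟩ : ∃ w : Fin 5 → Fin 5 → ℂ, ∀ n j : Fin 5, z5 ^ (n.val * j.val) = w n j :=
    ⟨_, fun _ _ => rfl⟩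
  simp only [hw]
  simp only [Fin.sum_univ_five]
  ring

theorem rk_m {X Y z : Fin 5 → ℂ} {m : Matrix (Fin 4) (Fin 4) ℤ} {c : ℂ} (hc : c ≠ 0)
    (hm : MF X Y (c • ft z) m) (hz : ∀ i, z i ≠ 0) : Rk 3 (m2 (tau m)) := by
  let s : Fin 3 → Fin 5 := ![0, 4, 3]
  let r : Fin 3 → Fin 5 := ![0, 1, 2]
  let A : Matrix (Fin 3) (Fin 4) ℂ :=
    Matrix.of fun i a => ∑ j, (ca3_chi (s i) - ca3_chi 2) j * fr X Y a j
  let B : Matrix (Fin 4) (Fin 3) ℂ :=
    Matrix.of fun b k => ∑ j, (ca3_chi (s k) - ca3_chi 1) j * fr X Y b j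
  have h0 : ∀ u v : Fin 5, (ca3_chi u - ca3_chi v) 0 = 0 := fun u v => by simp [ca3_chi]
  have h1 : A * mc ℂ m * B = Matrix.diagonal fun i => 25 * c * z (r i) := by
    ext i k
    have := ca3_pair hm (h0 (s i) 2) (h0 (s k) 1)
    simp only [ca3_ft_chi] at this
    refine Eq.trans ?_ (this.trans ?_)
    · simp only [Matrix.mul_apply, A, B, Matrix.of_apply, mc, Matrix.map_apply]
    · rw [Fin.sum_univ_five]
      fin_cases i <;> fin_cases k <;> simp +decide [s, r, Matrix.diagonal] <;> ring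
  have h2 : Rk 3 (A * mc ℂ m * B) := by
    refine ⟨id, id, ?_⟩
    rw [Matrix.submatrix_id_id, h1, Matrix.det_diagonal]
    exact Finset.prod_ne_zero_iff.2 fun i _ => mul_ne_zero (mul_ne_zero (by norm_num) hc) (hz _)
  rw [m2_tau hm.1]
  exact (Rk_mc.1 h2.of_mul_right.of_mul_left).smul two_ne_zero

/-- The symmetric matrix of a vector as a linear map. -/
def ca3_m2 : (Fin 10 → ℚ) →ₗ[ℚ] Matrix (Fin 4) (Fin 4) ℚ where
  toFun := m2
  map_add' u v := by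
    ext a b
    revert a b
    refine all4 (all4 ?_ ?_ ?_ ?_) (all4 ?_ ?_ ?_ ?_) (all4 ?_ ?_ ?_ ?_) (all4 ?_ ?_ ?_ ?_) <;>
      simp only [m2_c, Matrix.add_apply, Pi.add_apply] <;> ring
  map_smul' t v := by
    ext a b
    revert a b
    refine all4 (all4 ?_ ?_ ?_ ?_) (all4 ?_ ?_ ?_ ?_) (all4 ?_ ?_ ?_ ?_) (all4 ?_ ?_ ?_ ?_) <;>
      simp only [m2_c, Matrix.smul_apply, Pi.smul_apply, smul_eq_mul, RingHom.id_apply] <;> ring

theorem ca3_ft_sum (g : Fin 5 → ℂ) (z : Fin 5 → Fin 5 → ℂ) (s : Fin 5) :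
    ft (∑ k, g k • z k) s = ∑ k, g k * ft (z k) s := by
  simp only [Fin.sum_univ_five, ft_add, ft_smul, Pi.add_apply, Pi.smul_apply, smul_eq_mul]

theorem indep_tau {X Y : Fin 5 → ℂ} {z : Fin 5 → Fin 5 → ℂ} {m : Fin 5 → Matrix (Fin 4) (Fin 4) ℤ}
    {c : ℂ} (hc : c ≠ 0) (hm : ∀ k, MF X Y (c • ft (z k)) (m k)) (hz : (Matrix.of z).det ≠ 0) :
    LinearIndependent ℚ fun k => vc ℚ (tau (m k)) := by
  rw [Fintype.linearIndependent_iff]
  intro g hg
  have h1 : ∀ a b, ∑ k, (g k : ℂ) * (m k a b : ℂ) = 0 := by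
    intro a b
    have h2 := congrArg ca3_m2 hg
    rw [map_sum, map_zero] at h2
    have h3 : ∀ k, ca3_m2 (g k • vc ℚ (tau (m k))) = g k • mc ℚ ((2 : ℤ) • m k) := fun k => by
      rw [map_smul, ← m2_tau (hm k).1, mc_m2]
      rfl
    simp only [h3] at h2
    have h4 := congrFun (congrFun h2 a) b
    simp only [Matrix.sum_apply, Matrix.smul_apply, mc, Matrix.map_apply, smul_eq_mul,
      Matrix.zero_apply, Fin.sum_univ_five] at h4
    have h5 : ∑ k, g k * (m k a b : ℚ) = 0 := by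
      rw [Fin.sum_univ_five]
      push_cast at h4
      linarith
    exact_mod_cast h5
  have h2 : ∀ j k : Fin 5, j ≠ 0 → k ≠ 0 → ft (∑ n, (g n : ℂ) • z n) (j + k) = 0 := by
    intro j k hj hk
    refine mul_left_cancel₀ hc ?_
    have h3 : ∀ n, c * ft (z n) (j + k) =
        ∑ a : Fin 4, ∑ b : Fin 4, fr X Y a j * (m n a b : ℂ) * fr X Y b k :=
      fun n => ((hm n).2 j k hj hk).symm
    have h4 : c * ∑ n, (g n : ℂ) * ft (z n) (j + k) =
        ∑ a : Fin 4, ∑ b : Fin 4, fr X Y a j * (∑ n, (g n : ℂ) * (m n a b : ℂ)) * fr X Y b k := by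
      rw [Finset.mul_sum]
      simp only [mul_left_comm c, h3]
      simp only [Fin.sum_univ_five, Fin.sum_univ_four]
      ring
    rw [ca3_ft_sum, h4]
    simp only [h1, mul_zero, zero_mul, Finset.sum_const_zero]
  have h3 : ∑ n, (g n : ℂ) • z n = 0 := by
    refine ft_inj (ext5 ?_ ?_ ?_ ?_ ?_)
    · exact h2 1 4 (by decide) (by decide)
    · exact h2 2 4 (by decide) (by decide)
    · exact h2 1 1 (by decide) (by decide)
    · exact h2 1 2 (by decide) (by decide)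
    · exact h2 2 2 (by decide) (by decide)
  have h4 : (fun n => (g n : ℂ)) ᵥ* Matrix.of z = 0 := by
    rw [← h3]
    funext i
    simp only [Matrix.vecMul, dotProduct, Matrix.of_apply, Finset.sum_apply, Pi.smul_apply,
      smul_eq_mul]
  intro i
  have h5 : (g i : ℂ) = 0 := congrFun (Matrix.eq_zero_of_vecMul_eq_zero hz h4) i
  exact_mod_cast h5

theorem ca3_z5_ne : z5 - z5 ^ 4 ≠ 0 := by
  intro h
  have h5 := z5_pow
  have h0 : z5 ≠ 0 := by
    intro h0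
    rw [h0] at h5
    norm_num at h5
  have h3 : z5 ^ 3 = 1 := mul_left_cancel₀ h0 (by linear_combination -h)
  have h1 : z5 = 1 := by linear_combination (z5 ^ 3 + 1) * h3 - z5 * h5
  have hs := z5_sum
  rw [h1] at hs
  norm_num at hs

theorem low_ne {X Y : Fin 5 → ℂ} {z : Fin 5 → Fin 5 → ℂ} {m : Fin 5 → Matrix (Fin 4) (Fin 4) ℤ}
    {c : ℂ} (hc : c ≠ 0) (h1 : d1 X Y ≠ 0) (hm : ∀ k, MF X Y (c • ft (z k)) (m k))
    (hz : (Matrix.of z).det ≠ 0) :
    ∃ k, tau (m k) 5 ≠ 0 ∨ tau (m k) 6 ≠ 0 ∨ tau (m k) 7 ≠ 0 := by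
  by_contra hcon
  push Not at hcon
  obtain ⟨e1, -, -, e4⟩ := ec_om
  let w : Fin 5 → ℂ := fun i => (X 4 * z5 ^ (i.val * (1 : Fin 5).val) -
    X 1 * z5 ^ (i.val * (4 : Fin 5).val)) ^ 2
  have h2 : Matrix.of z *ᵥ w = 0 := by
    funext k
    obtain ⟨t5, t6, t7⟩ := hcon k
    simp only [tau_c] at t5 t6 t7
    have m33 : m k 3 3 = 0 := by omega
    have m23 : m k 2 3 = 0 := by omega
    have m22 : m k 2 2 = 0 := by omega
    have m32 : m k 3 2 = 0 := by rw [← m23]; exact (hm k).1.apply 2 3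
    have hD : pc (m k) th1 th1 2 3 2 3 = 0 := by simp [pc, m33, m23, m22, m32]
    have q1 := (hm k).eq 1 1 (by decide) (by decide)
    have q2 := (hm k).eq 1 4 (by decide) (by decide)
    have q3 := (hm k).eq 4 1 (by decide) (by decide)
    have q4 := (hm k).eq 4 4 (by decide) (by decide)
    simp only [e1, e4] at q1 q2 q3 q4
    have q := (cramer2 q1 q2 q3 q4).2.2.2
    rw [hD, mul_zero] at q
    simp only [Pi.smul_apply, smul_eq_mul, ← ft_char] at q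
    refine mul_left_cancel₀ hc ?_
    simp only [Matrix.mulVec, dotProduct, Matrix.of_apply, Pi.zero_apply, mul_zero, w]
    rw [q]
    obtain ⟨u, hu⟩ : ∃ u : Fin 5 → Fin 5 → ℂ, ∀ n j : Fin 5, z5 ^ (n.val * j.val) = u n j :=
      ⟨_, fun _ _ => rfl⟩
    simp only [hu]
    simp only [Fin.sum_univ_five]
    ring
  have h3 := Matrix.eq_zero_of_mulVec_eq_zero hz h2
  have w0 : X 4 - X 1 = 0 := by
    have := pow_eq_zero_iff (two_ne_zero) |>.1 (congrFun h3 0)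
    simpa using this
  have w1 : X 4 * z5 - X 1 * z5 ^ 4 = 0 := by
    have := pow_eq_zero_iff (two_ne_zero) |>.1 (congrFun h3 1)
    simpa using this
  have x1 : X 1 = 0 :=
    (mul_eq_zero.1 (by linear_combination w1 - z5 * w0 : X 1 * (z5 - z5 ^ 4) = 0)).resolve_right
      ca3_z5_ne
  have x4 : X 4 = 0 := by linear_combination w0 + x1
  exact h1 (by rw [d1, x1, x4]; ring)

end Pool.Agent.Lib.MP_af4c59_nt.H57
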