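import Pool.Agent.Lib.MP_af4c59_nt.H57Scale
import Pool.Agent.Lib.MP_af4c59_nt.H57Lin

/-!
Natural coordinates of a null vector.
-/

set_option autoImplicit false

namespace Pool.Agent.Lib.MP_af4c59_nt.H57

open Matrix

theorem nat6_inj {v w : Fin 10 → ℤ} (h : nat6 (m2 v) = nat6 (m2 w)) : v = w := by
  have h1 := congrArg (fun w => w.f0.re) h
  have h2 := congrArg (fun w => w.f0.im) h
  have h3 := congrArg (fun w => w.f1.re) h
  have h4 := congrArg (fun w => w.f1.im) h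
  have h5 := congrArg (fun w => w.f2.re) h
  have h6 := congrArg (fun w => w.f2.im) h
  have h7 := congrArg (fun w => w.h12.re) h
  have h8 := congrArg (fun w => w.h12.im) h
  have h9 := congrArg (fun w => w.h11) h
  have h10 := congrArg (fun w => w.h22) h
  simp only [nat6, m2_c] at h1 h2 h3 h4 h5 h6 h7 h8 h9 h10
  apply ext10 <;> omega

/-- The weights of the rows of the two matrices. -/
def wM (b : Bool) : Fin 4 → ℤ := if b then wK else -wK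

theorem nat_entry (b : Bool) {t : ℝ} (ht : t ≠ 0) (v : Fin 10 → ℤ) (i j : Fin 4) :
    ((MM b v i j : ℤ) : ℝ) = t ^ wM b i * t ^ wM b j * MM b (tV t v) i j := by
  have hi : t ^ wK i ≠ 0 := zpow_ne_zero _ ht
  have hj : t ^ wK j ≠ 0 := zpow_ne_zero _ ht
  cases b
  · have e : ((m2 v i j : ℤ) : ℝ) = m2 (vc ℝ v) i j := congrFun (congrFun (mc_m2 v) i) j
    change ((m2 v i j : ℤ) : ℝ) = t ^ (-wK i) * t ^ (-wK j) * m2 (scV t (vc ℝ v)) i j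
    rw [e, m2_sc ht, _root_.zpow_neg, _root_.zpow_neg]
    field_simp
  · have e : ((MK v i j : ℤ) : ℝ) = MK (vc ℝ v) i j := congrFun (congrFun (mc_MK v) i) j
    change ((MK v i j : ℤ) : ℝ) = t ^ wK i * t ^ wK j * MK (scV t (vc ℝ v)) i j
    rw [e, MK_sc ht, _root_.zpow_neg, _root_.zpow_neg]
    field_simp

theorem minor_sc (b : Bool) {t : ℝ} (ht : t ≠ 0) (v : Fin 10 → ℤ) (f g : Fin 2 → Fin 4) :
    ((((MM b v).submatrix f g).det : ℤ) : ℝ) =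
      t ^ (wM b (f 0) + wM b (f 1) + wM b (g 0) + wM b (g 1)) *
        ((MM b (tV t v)).submatrix f g).det := by
  rw [det_fin_two, det_fin_two]
  simp only [submatrix_apply]
  push_cast
  simp only [nat_entry b ht v, zpow_add₀ ht]
  ring

/-- A two by two minor. -/
def nat_mn (A : Matrix (Fin 4) (Fin 4) ℤ) (i j k l : Fin 4) : ℤ := A i k * A j l - A i l * A j k

theorem nat_mn_eq (A : Matrix (Fin 4) (Fin 4) ℤ) (i j k l : Fin 4) :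
    nat_mn A i j k l = (A.submatrix ![i, j] ![k, l]).det := by
  rw [det_fin_two]
  rfl

theorem nat_mn_le (b : Bool) {t Y : ℝ} (ht : 1 ≤ t) {v : Fin 10 → ℤ}
    (hY : yM (MM b (tV t v)) ≤ Y) (i j k l : Fin 4) :
    |((nat_mn (MM b v) i j k l : ℤ) : ℝ)| ≤ t ^ (wM b i + wM b j + wM b k + wM b l) * Y := by
  have ht0 : 0 < t := by linarith
  rw [nat_mn_eq, minor_sc b ht0.ne', abs_mul, abs_of_pos (zpow_pos ht0 _)]
  exact mul_le_mul_of_nonneg_left ((bdM_yM _ _ _).trans hY) (zpow_pos ht0 _).le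

theorem nat_ok (b : Bool) {t Y : ℝ} (ht : 1 ≤ t) {v : Fin 10 → ℤ} {g : ℤ}
    (hg : DvdM 2 (MM b v) g) (hY : yM (MM b (tV t v)) ≤ Y) (i j k l : Fin 4)
    (h : wM b i + wM b j + wM b k + wM b l ≤ 0) :
    g ∣ nat_mn (MM b v) i j k l ∧ -Y ≤ ((nat_mn (MM b v) i j k l : ℤ) : ℝ) ∧
      ((nat_mn (MM b v) i j k l : ℤ) : ℝ) ≤ Y := by
  have hY0 : 0 ≤ Y := (norm_nonneg _).trans hY
  refine ⟨nat_mn_eq _ i j k l ▸ hg _ _, abs_le.1 ((nat_mn_le b ht hY i j k l).trans ?_)⟩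
  exact mul_le_of_le_one_left hY0 (zpow_le_one_of_nonpos₀ ht h)

theorem nat_ok4 (b : Bool) {t Y : ℝ} (ht : 1 ≤ t) {v : Fin 10 → ℤ} {g : ℤ}
    (hg : DvdM 2 (MM b v) g) (hY : yM (MM b (tV t v)) ≤ Y) (i j k l : Fin 4)
    (h : wM b i + wM b j + wM b k + wM b l = 4) :
    g ∣ nat_mn (MM b v) i j k l ∧ -(Y * t ^ 4) ≤ ((nat_mn (MM b v) i j k l : ℤ) : ℝ) ∧
      ((nat_mn (MM b v) i j k l : ℤ) : ℝ) ≤ Y * t ^ 4 := by
  refine ⟨nat_mn_eq _ i j k l ▸ hg _ _, abs_le.1 ((nat_mn_le b ht hY i j k l).trans ?_)⟩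
  rw [h, zpow_ofNat, mul_comm]

theorem nat_coord {t T : ℝ} (ht : 1 ≤ t) {v : Fin 10 → ℤ} (hT : ‖tV t v‖ ≤ T) (a : Fin 10) :
    -(T * t ^ 2) ≤ (v a : ℝ) ∧ (v a : ℝ) ≤ T * t ^ 2 := by
  have h1 : |(v a : ℝ)| ≤ ‖vc ℝ v‖ := norm_le_pi_norm (vc ℝ v) a
  have h2 := norm_vc_le_tV ht v
  have h3 : t ^ 2 * ‖tV t v‖ ≤ t ^ 2 * T := mul_le_mul_of_nonneg_left hT (sq_nonneg t)
  exact abs_le.1 (by linarith)

theorem nat_size {Z : ℝ} {v : Fin 10 → ℤ} (h : ∀ a, -Z ≤ (v a : ℝ) ∧ (v a : ℝ) ≤ Z) :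
    OB (nat6 (m2 v)).f0 (40 * Z) ∧ OB (nat6 (m2 v)).f1 (40 * Z) ∧ OB (nat6 (m2 v)).f2 (40 * Z) ∧
      OB (nat6 (m2 v)).h12 (40 * Z) ∧ |((nat6 (m2 v)).h11 : ℝ)| ≤ 40 * Z ∧
      |((nat6 (m2 v)).h22 : ℝ)| ≤ 40 * Z := by
  obtain ⟨a0, b0⟩ := h 0
  obtain ⟨a1, b1⟩ := h 1
  obtain ⟨a2, b2⟩ := h 2
  obtain ⟨a3, b3⟩ := h 3
  obtain ⟨a4, b4⟩ := h 4
  obtain ⟨a5, b5⟩ := h 5
  obtain ⟨a6, b6⟩ := h 6
  obtain ⟨a7, b7⟩ := h 7
  obtain ⟨a8, b8⟩ := h 8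
  obtain ⟨a9, b9⟩ := h 9
  simp only [OB, nat6, m2_c, abs_le]
  push_cast
  refine ⟨⟨⟨?_, ?_⟩, ?_, ?_⟩, ⟨⟨?_, ?_⟩, ?_, ?_⟩, ⟨⟨?_, ?_⟩, ?_, ?_⟩, ⟨⟨?_, ?_⟩, ?_, ?_⟩,
    ⟨?_, ?_⟩, ?_, ?_⟩ <;> linarith

theorem nat_q {v : Fin 10 → ℤ} (hq : qV v = 0) :
    QuadraticAlgebra.trace (-om * ((nat6 (m2 v)).f0 * (nat6 (m2 v)).f2 -
      (nat6 (m2 v)).f1 * (nat6 (m2 v)).f1)) =
      (nat6 (m2 v)).h11 * (nat6 (m2 v)).h22 - QuadraticAlgebra.norm (nat6 (m2 v)).h12 := by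
  simp only [QuadraticAlgebra.trace_def, QuadraticAlgebra.norm_def, QuadraticAlgebra.re_mul,
    QuadraticAlgebra.im_mul, QuadraticAlgebra.re_sub, QuadraticAlgebra.im_sub,
    QuadraticAlgebra.re_neg, QuadraticAlgebra.im_neg, om, nat6, m2_c]
  unfold qV at hq
  linear_combination 20 * hq

/-- A combination of ten divisible and bounded numbers. -/
theorem nat_comb {g : ℤ} {Y : ℝ} (x c : Fin 10 → ℤ)
    (h : ∀ i, g ∣ x i ∧ -Y ≤ (x i : ℝ) ∧ (x i : ℝ) ≤ Y) (hc : ∑ i, |c i| ≤ 200) {y : ℤ}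
    (hy : y = ∑ i, c i * x i) : g ∣ y ∧ |(y : ℝ)| ≤ 200 * Y := by
  have hY : 0 ≤ Y := by linarith [(h 0).2.1, (h 0).2.2]
  refine ⟨hy ▸ Finset.dvd_sum fun i _ => (h i).1.mul_left _, ?_⟩
  rw [hy]
  push_cast
  refine (Finset.abs_sum_le_sum_abs _ _).trans ?_
  have h1 : ∀ i ∈ Finset.univ, |(c i : ℝ) * x i| ≤ |(c i : ℝ)| * Y := fun i _ => by
    rw [abs_mul]
    exact mul_le_mul_of_nonneg_left (abs_le.2 (h i).2) (abs_nonneg _)
  refine (Finset.sum_le_sum h1).trans ?_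
  rw [← Finset.sum_mul]
  refine mul_le_mul_of_nonneg_right ?_ hY
  exact_mod_cast hc

theorem nat_one {g x y : ℤ} {Y : ℝ} (c : ℤ) (h : g ∣ x ∧ -Y ≤ (x : ℝ) ∧ (x : ℝ) ≤ Y)
    (hc : |c| ≤ 200) (hy : y = c * x) : g ∣ y ∧ |(y : ℝ)| ≤ 200 * Y := by
  have hY : 0 ≤ Y := by linarith [h.2.1, h.2.2]
  refine ⟨hy ▸ h.1.mul_left _, ?_⟩
  rw [hy]
  push_cast
  rw [abs_mul]
  refine mul_le_mul ?_ (abs_le.2 h.2) (abs_nonneg _) (by norm_num)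
  exact_mod_cast hc

/-- The ten minors of weight zero. -/
def nat_ten (A : Matrix (Fin 4) (Fin 4) ℤ) : Fin 10 → ℤ :=
  ![nat_mn A 0 1 2 3, nat_mn A 0 2 0 2, nat_mn A 0 2 0 3, nat_mn A 0 2 1 2, nat_mn A 0 2 1 3,
    nat_mn A 0 3 0 3, nat_mn A 0 3 1 3, nat_mn A 1 2 1 2, nat_mn A 1 2 1 3, nat_mn A 1 3 1 3]

theorem nat_ten_ok (b : Bool) {t Y : ℝ} (ht : 1 ≤ t) {v : Fin 10 → ℤ} {g : ℤ}
    (hg : DvdM 2 (MM b v) g) (hY : yM (MM b (tV t v)) ≤ Y) :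
    ∀ i, g ∣ nat_ten (MM b v) i ∧ -Y ≤ (nat_ten (MM b v) i : ℝ) ∧ (nat_ten (MM b v) i : ℝ) ≤ Y := by
  intro i
  revert i
  apply all10 <;> exact nat_ok b ht hg hY _ _ _ _ (by cases b <;> decide)

theorem nat_sum (c : Fin 10 → ℤ) (A : Matrix (Fin 4) (Fin 4) ℤ) :
    ∑ i, c i * nat_ten A i = c 0 * nat_mn A 0 1 2 3 + c 1 * nat_mn A 0 2 0 2 +
      c 2 * nat_mn A 0 2 0 3 + c 3 * nat_mn A 0 2 1 2 + c 4 * nat_mn A 0 2 1 3 +
      c 5 * nat_mn A 0 3 0 3 + c 6 * nat_mn A 0 3 1 3 + c 7 * nat_mn A 1 2 1 2 +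
      c 8 * nat_mn A 1 2 1 3 + c 9 * nat_mn A 1 3 1 3 := by
  rw [sum10]
  rfl

theorem nat_id_m2 (v : Fin 10 → ℤ) :
    ((nat6 (m2 v)).f0 * (nat6 (m2 v)).f2 - (nat6 (m2 v)).f1 * (nat6 (m2 v)).f1).re =
      ∑ i, ![-2, 1, 0, 0, 4, 1, -2, 1, -2, 2] i * nat_ten (m2 v) i ∧
    ((nat6 (m2 v)).f0 * (nat6 (m2 v)).f2 - (nat6 (m2 v)).f1 * (nat6 (m2 v)).f1).im =
      ∑ i, ![2, 0, 2, 2, -4, -1, 4, -1, 4, -3] i * nat_ten (m2 v) i ∧
    1 * QuadraticAlgebra.norm (nat6 (m2 v)).f1 + -1 * QuadraticAlgebra.norm (nat6 (m2 v)).h12 =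
      5 * nat_mn (m2 v) 0 1 2 3 ∧
    1 * QuadraticAlgebra.norm (nat6 (m2 v)).f0 + -1 * (nat6 (m2 v)).h11 ^ 2 =
      5 * nat_mn (m2 v) 0 1 0 1 ∧
    1 * QuadraticAlgebra.norm (nat6 (m2 v)).f2 + -1 * (nat6 (m2 v)).h22 ^ 2 =
      5 * nat_mn (m2 v) 2 3 2 3 := by
  refine ⟨?_, ?_, ?_, ?_, ?_⟩ <;>
  · simp only [nat_sum, nat_mn, QuadraticAlgebra.norm_def, QuadraticAlgebra.re_mul,
      QuadraticAlgebra.im_mul, QuadraticAlgebra.re_sub, QuadraticAlgebra.im_sub, nat6, m2_c,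
      Matrix.cons_val]
    ring

theorem nat_id_MK (v : Fin 10 → ℤ) :
    ((nat6 (m2 v)).f0 * (nat6 (m2 v)).f2 - (nat6 (m2 v)).f1 * (nat6 (m2 v)).f1).re =
      ∑ i, ![-10, 13, 16, 16, 20, 5, 6, 5, 6, 2] i * nat_ten (MK v) i ∧
    ((nat6 (m2 v)).f0 * (nat6 (m2 v)).f2 - (nat6 (m2 v)).f1 * (nat6 (m2 v)).f1).im =
      ∑ i, ![-6, 8, 10, 10, 12, 3, 4, 3, 4, 1] i * nat_ten (MK v) i ∧
    4 * QuadraticAlgebra.norm (nat6 (m2 v)).f1 + 1 * QuadraticAlgebra.norm (nat6 (m2 v)).h12 =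
      -20 * nat_mn (MK v) 0 1 2 3 ∧
    4 * QuadraticAlgebra.norm (nat6 (m2 v)).f0 + 1 * (nat6 (m2 v)).h11 ^ 2 =
      -20 * nat_mn (MK v) 2 3 2 3 ∧
    4 * QuadraticAlgebra.norm (nat6 (m2 v)).f2 + 1 * (nat6 (m2 v)).h22 ^ 2 =
      -20 * nat_mn (MK v) 0 1 0 1 := by
  refine ⟨?_, ?_, ?_, ?_, ?_⟩ <;>
  · simp only [nat_sum, nat_mn, QuadraticAlgebra.norm_def, QuadraticAlgebra.re_mul,
      QuadraticAlgebra.im_mul, QuadraticAlgebra.re_sub, QuadraticAlgebra.im_sub, nat6, m2_c, MK_c,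
      Matrix.cons_val]
    ring

theorem vcond_of (b : Bool) {t T Y : ℝ} (ht : 1 ≤ t) {v : Fin 10 → ℤ} (hq : qV v = 0)
    (hT : ‖tV t v‖ ≤ T) {g : ℤ} (hg : DvdM 2 (MM b v) g) (hY : yM (MM b (tV t v)) ≤ Y) :
    VCond (if b then 4 else 1) (if b then 1 else -1) g (200 * Y) (40 * (T * t ^ 2)) (t ^ 4)
      (nat6 (m2 v)) := by
  obtain ⟨s0, s1, s2, s12, s11, s22⟩ := nat_size (nat_coord ht hT)
  have h10 := nat_ten_ok b ht hg hY
  cases b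
  · obtain ⟨e1, e2, e3, e4, e5⟩ := nat_id_m2 v
    have k1 := nat_comb _ _ h10 (by decide) e1
    have k2 := nat_comb _ _ h10 (by decide) e2
    have k3 := nat_one 5 (nat_ok false ht hg hY 0 1 2 3 (by decide)) (by decide) e3
    have k4 := nat_one 5 (nat_ok4 false ht hg hY 0 1 0 1 (by decide)) (by decide) e4
    have k5 := nat_one 5 (nat_ok false ht hg hY 2 3 2 3 (by decide)) (by decide) e5
    exact ⟨s0, s1, s2, s12, s11, s22, nat_q hq, ⟨k1.1, k2.1⟩, ⟨k1.2, k2.2⟩, k3.1, k3.2, k4.1,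
      k4.2.trans (le_of_eq (by ring)), k5.1, k5.2⟩
  · obtain ⟨e1, e2, e3, e4, e5⟩ := nat_id_MK v
    have k1 := nat_comb _ _ h10 (by decide) e1
    have k2 := nat_comb _ _ h10 (by decide) e2
    have k3 := nat_one (-20) (nat_ok true ht hg hY 0 1 2 3 (by decide)) (by decide) e3
    have k4 := nat_one (-20) (nat_ok4 true ht hg hY 2 3 2 3 (by decide)) (by decide) e4
    have k5 := nat_one (-20) (nat_ok true ht hg hY 0 1 0 1 (by decide)) (by decide) e5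
    exact ⟨s0, s1, s2, s12, s11, s22, nat_q hq, ⟨k1.1, k2.1⟩, ⟨k1.2, k2.2⟩, k3.1, k3.2, k4.1,
      k4.2.trans (le_of_eq (by ring)), k5.1, k5.2⟩

theorem nat_rank_one (M : Matrix (Fin 3) (Fin 3) ℤ) (a c : Fin 3)
    (h : ∀ i j, M a c * M i j = M a j * M i c) : M.det = 0 := by
  by_cases h0 : M a c = 0
  · by_cases h1 : ∀ j, M a j = 0
    · exact det_eq_zero_of_row_eq_zero a h1
    · obtain ⟨j, hj⟩ := not_forall.1 h1
      refine det_eq_zero_of_column_eq_zero c fun i => ?_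
      have := h i j
      rw [h0, zero_mul] at this
      exact (mul_eq_zero.1 this.symm).resolve_left hj
  · have e : M a c ^ 3 * M.det = 0 := by
      have e1 : M a c ^ 3 * M.det =
          (M a c * M 0 0) * (M a c * M 1 1) * (M a c * M 2 2) -
          (M a c * M 0 0) * (M a c * M 1 2) * (M a c * M 2 1) -
          (M a c * M 0 1) * (M a c * M 1 0) * (M a c * M 2 2) +
          (M a c * M 0 1) * (M a c * M 1 2) * (M a c * M 2 0) +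
          (M a c * M 0 2) * (M a c * M 1 0) * (M a c * M 2 1) -
          (M a c * M 0 2) * (M a c * M 1 1) * (M a c * M 2 0) := by
        rw [det_fin_three]
        ring
      rw [e1]
      simp only [h]
      ring
    exact (mul_eq_zero.1 e).resolve_left (pow_ne_zero 3 h0)

theorem nat_neg_wt : ∀ (b : Bool) (f : Fin 3 → Fin 4), Function.Injective f →
    ∃ i, wM b (f i) = -1 := by
  decide

theorem nat_wt_le : ∀ (b : Bool) (i : Fin 4), wM b i ≤ 1 := by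
  decide

/-- A matrix of rank three has a nonzero minor of weight at most zero. -/
theorem exists_low_minor (b : Bool) {A : Matrix (Fin 4) (Fin 4) ℤ} (h : Rk 3 A) :
    ∃ f g : Fin 2 → Fin 4, (A.submatrix f g).det ≠ 0 ∧
      wM b (f 0) + wM b (f 1) + wM b (g 0) + wM b (g 1) ≤ 0 := by
  obtain ⟨f, g, hd⟩ := h
  have hf : Function.Injective f := by
    intro i j hij
    by_contra hne
    exact hd (det_zero_of_row_eq hne (by funext k; simp only [submatrix_apply, hij]))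
  have hg : Function.Injective g := by
    intro i j hij
    by_contra hne
    exact hd (det_zero_of_column_eq hne fun k => by simp only [submatrix_apply, hij])
  obtain ⟨a, ha⟩ := nat_neg_wt b f hf
  obtain ⟨c, hc⟩ := nat_neg_wt b g hg
  by_contra hne
  apply hd
  refine nat_rank_one _ a c fun i j => ?_
  by_contra h1
  apply hne
  refine ⟨![f a, f i], ![g c, g j], ?_, ?_⟩
  · rw [← nat_mn_eq]
    exact sub_ne_zero.2 h1
  · have h2 := nat_wt_le b (f i)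
    have h3 := nat_wt_le b (g j)
    change wM b (f a) + wM b (f i) + wM b (g c) + wM b (g j) ≤ 0
    omega

theorem wt_minor (b : Bool) {t : ℝ} (ht : 1 ≤ t) {v : Fin 10 → ℤ} (h : Rk 3 (MM b v)) :
    1 ≤ gM (MM b v) ∧ (gM (MM b v) : ℝ) ≤ yM (MM b (tV t v)) := by
  refine ⟨gM_pos h.pred, ?_⟩
  obtain ⟨f, g, hd, hw⟩ := exists_low_minor b h
  have ht0 : 0 < t := by linarith
  have h1 : (gM (MM b v) : ℤ) ≤ |((MM b v).submatrix f g).det| :=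
    Int.le_of_dvd (abs_pos.2 hd) ((dvd_abs _ _).2 (gM_dvd _ f g))
  have h2 : (gM (MM b v) : ℝ) ≤ |((((MM b v).submatrix f g).det : ℤ) : ℝ)| := by
    exact_mod_cast h1
  refine h2.trans ?_
  rw [minor_sc b ht0.ne', abs_mul, abs_of_pos (zpow_pos ht0 _)]
  exact (mul_le_of_le_one_left (abs_nonneg _) (zpow_le_one_of_nonpos₀ ht hw)).trans (bdM_yM _ f g)

theorem yM_MM_le (b : Bool) (v : Fin 10 → ℝ) : yM (MM b v) ≤ 288 * ‖v‖ ^ 2 := by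
  refine (yM_le ((ent_MM b v).bdM 2)).trans (le_of_eq ?_)
  norm_num [Nat.factorial]
  ring

theorem wt_lo (b : Bool) {t T : ℝ} (ht : 1 ≤ t) {v : Fin 10 → ℤ} (h : Rk 3 (MM b v))
    (hT : ‖tV t v‖ ≤ T) : 1 ≤ 288 * wt b t T v := by
  obtain ⟨h1, h2⟩ := wt_minor b ht h
  have h1' : (1 : ℝ) ≤ gM (MM b v) := by exact_mod_cast h1
  have h3 := yM_MM_le b (tV t v)
  have h4 : ‖tV t v‖ ^ 2 ≤ T ^ 2 := pow_le_pow_left₀ (norm_nonneg _) hT 2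
  unfold wt
  rw [← mul_div_assoc, le_div_iff₀ (by linarith)]
  nlinarith [sq_nonneg T]

theorem wt_mono (b : Bool) (t : ℝ) {T T' : ℝ} (h0 : 0 ≤ T) (h : T ≤ T') (v : Fin 10 → ℤ) :
    0 ≤ wt b t T v ∧ wt b t T v ≤ wt b t T' v := by
  have hy : 0 ≤ yM (MM b (tV t v)) := norm_nonneg _
  unfold wt
  refine ⟨by positivity, div_le_div_of_nonneg_right ?_ hy⟩
  exact mul_le_mul_of_nonneg_left (pow_le_pow_left₀ h0 h 2) (Nat.cast_nonneg _)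

end Pool.Agent.Lib.MP_af4c59_nt.H57
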