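import Pool.Agent.Lib.MP_af4c59_nt.H57VC
import Pool.Agent.Lib.MP_af4c59_nt.H57Nat

/-!
The weighted count of null vectors.
-/

set_option autoImplicit false

namespace Pool.Agent.Lib.MP_af4c59_nt.H57

open Matrix

theorem ws_pos {t T : ℝ} (h : 1 ≤ T * t ^ 2) : 0 < T := by
  by_contra hT
  have h1 : T ≤ 0 := not_lt.1 hT
  nlinarith [sq_nonneg t]

theorem vc_apply : ∃ f, SP f ∧ ∀ (b : Bool) (t T Y : ℝ) (g : ℕ) (S : Finset (Fin 10 → ℤ)),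
    1 ≤ t → 1 ≤ T * t ^ 2 → 0 < g → (g : ℝ) ≤ Y →
    (∀ v ∈ S, qV v = 0 ∧ ‖tV t v‖ ≤ T ∧ DvdM 2 (MM b v) (g : ℤ) ∧ yM (MM b (tV t v)) ≤ Y) →
    (S.card : ℝ) ≤ f (T * t ^ 2) * (Y / g) ^ 3 * (T ^ 2 * t ^ 4 + T * t ^ 6) := by
  classical
  obtain ⟨f, hf, H⟩ := vcount
  refine ⟨fun x => (200 ^ 3 * 1600) * f (40 * x ^ 1),
    (hf.comp (by norm_num) 1).cmul (by norm_num), ?_⟩
  intro b t T Y g S ht hT hg hY hS
  have hT0 : 0 < T := ws_pos hT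
  have hg0 : (0 : ℝ) < g := by exact_mod_cast hg
  have hY0 : 0 < Y := lt_of_lt_of_le hg0 hY
  have hcard : (S.image fun v => nat6 (m2 v)).card = S.card :=
    Finset.card_image_of_injective _ fun v w h => nat6_inj h
  have h1 := H (if b then 4 else 1) (if b then 1 else -1) (g : ℤ) (200 * Y) (40 * (T * t ^ 2))
    (t ^ 4) (S.image fun v => nat6 (m2 v)) (by cases b <;> simp) (by cases b <;> simp)
    (by exact_mod_cast hg) (by push_cast; linarith) (by linarith) (one_le_pow₀ ht) (by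
      intro w hw
      obtain ⟨v, hv, rfl⟩ := Finset.mem_image.1 hw
      obtain ⟨a1, a2, a3, a4⟩ := hS v hv
      exact vcond_of b ht a1 a2 a3 a4)
  rw [hcard] at h1
  refine h1.trans ?_
  have hF : 0 < f (40 * (T * t ^ 2)) := hf.pos (by linarith)
  have ht0 : 0 < t := by linarith
  have e1 : (200 * Y / ((g : ℤ) : ℝ)) ^ 3 = 200 ^ 3 * (Y / g) ^ 3 := by
    push_cast
    ring
  have e2 : (40 * (T * t ^ 2)) ^ 2 + 40 * (T * t ^ 2) * t ^ 4 ≤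
      1600 * (T ^ 2 * t ^ 4 + T * t ^ 6) := by
    have : 0 < T * t ^ 6 := by positivity
    nlinarith
  rw [e1]
  simp only [pow_one]
  calc f (40 * (T * t ^ 2)) * (200 ^ 3 * (Y / g) ^ 3) *
        ((40 * (T * t ^ 2)) ^ 2 + 40 * (T * t ^ 2) * t ^ 4)
      ≤ f (40 * (T * t ^ 2)) * (200 ^ 3 * (Y / g) ^ 3) * (1600 * (T ^ 2 * t ^ 4 + T * t ^ 6)) :=
        mul_le_mul_of_nonneg_left e2 (by positivity)
    _ = _ := by ring

theorem ws_harm (m : ℕ) : ∑ g ∈ Finset.Icc 1 (2 ^ m), ((g : ℕ) : ℝ)⁻¹ ≤ (m : ℝ) + 1 := by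
  have h1 := harmonic_le_one_add_log (2 ^ m)
  rw [harmonic_eq_sum_Icc] at h1
  push_cast at h1
  refine h1.trans ?_
  rw [Real.log_pow]
  have h2 : Real.log 2 ≤ 1 := by
    have := Real.log_le_sub_one_of_pos (x := 2) (by norm_num)
    linarith
  have h3 : (0 : ℝ) ≤ m := Nat.cast_nonneg m
  nlinarith

theorem wsum : ∃ f, SP f ∧ ∀ (b : Bool) (t T : ℝ) (S : Finset (Fin 10 → ℤ)),
    1 ≤ t → 1 ≤ T * t ^ 2 → (∀ v ∈ S, qV v = 0 ∧ Rk 3 (MM b v) ∧ ‖tV t v‖ ≤ T) →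
    ∑ v ∈ S, wt b t T v ^ 2 ≤ f (T * t ^ 2) * T ^ 6 * (T ^ 2 * t ^ 4 + T * t ^ 6) := by
  classical
  obtain ⟨f, hf, H⟩ := vc_apply
  refine ⟨fun x => 4608 * ((((lg (288 * x ^ 2) : ℕ) : ℝ) + 1) ^ 2 * f x),
    (((SP_lg.comp (by norm_num) 2).pow 2).mul hf).cmul (by norm_num), ?_⟩
  intro b t T S ht hT hS
  have hT0 : 0 < T := ws_pos hT
  have ht0 : 0 < t := by linarith
  have hF : 0 < f (T * t ^ 2) := hf.pos hT
  set L : ℕ := lg (288 * (T * t ^ 2) ^ 2) with hL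
  set W : ℝ := T ^ 2 * t ^ 4 + T * t ^ 6 with hW
  have hW0 : 0 < W := by positivity
  have hy : ∀ v ∈ S, yM (MM b (tV t v)) ≤ 288 * T ^ 2 := by
    intro v hv
    refine (yM_MM_le b _).trans ?_
    have h1 := (hS v hv).2.2
    have h2 : ‖tV t v‖ ^ 2 ≤ T ^ 2 := pow_le_pow_left₀ (norm_nonneg _) h1 2
    linarith
  have hlev : ∀ v ∈ S, ∃ i : ℕ, i ≤ L ∧ (2 : ℝ) ^ i ≤ yM (MM b (tV t v)) ∧
      yM (MM b (tV t v)) ≤ 2 ^ (i + 1) := by
    intro v hv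
    obtain ⟨g1, g2⟩ := wt_minor b ht (hS v hv).2.1
    have g1' : (1 : ℝ) ≤ gM (MM b v) := by exact_mod_cast g1
    have h2 : yM (MM b (tV t v)) ≤ 2 ^ L * 1 := by
      rw [mul_one]
      refine (hy v hv).trans (le_trans ?_ (le_two_pow_lg _))
      have h3 : 1 ≤ t ^ 4 := one_le_pow₀ ht
      have h4 : 0 < T ^ 2 := by positivity
      nlinarith
    obtain ⟨i, h3, h4, h5⟩ := exists_level one_pos (g1'.trans g2) h2
    exact ⟨i, h3, by simpa using h4, by simpa using h5⟩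
  choose! lev hlev using hlev
  have hmap : ∀ v ∈ S, (lev v, gM (MM b v)) ∈
      Finset.range (L + 1) ×ˢ Finset.Icc 1 (2 ^ (L + 1)) := by
    intro v hv
    obtain ⟨g1, g2⟩ := wt_minor b ht (hS v hv).2.1
    obtain ⟨h3, -, h5⟩ := hlev v hv
    refine Finset.mem_product.2 ⟨Finset.mem_range.2 (by omega), Finset.mem_Icc.2 ⟨g1, ?_⟩⟩
    have h6 : (2 : ℝ) ^ (lev v + 1) ≤ 2 ^ (L + 1) := pow_le_pow_right₀ (by norm_num) (by omega)
    have h7 : ((gM (MM b v) : ℕ) : ℝ) ≤ 2 ^ (L + 1) := g2.trans (h5.trans h6)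
    exact_mod_cast h7
  have hfib : ∀ p ∈ Finset.range (L + 1) ×ˢ Finset.Icc 1 (2 ^ (L + 1)),
      ∑ v ∈ S with (lev v, gM (MM b v)) = p, wt b t T v ^ 2 ≤
        2304 * f (T * t ^ 2) * T ^ 6 * W * ((p.2 : ℕ) : ℝ)⁻¹ := by
    rintro ⟨i, g⟩ hp
    have hg : 0 < g := (Finset.mem_Icc.1 (Finset.mem_product.1 hp).2).1
    have hg0 : (0 : ℝ) < g := by exact_mod_cast hg
    rcases (S.filter fun v => (lev v, gM (MM b v)) = (i, g)).eq_empty_or_nonempty with he | ⟨v0, hv0⟩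
    · rw [he, Finset.sum_empty]
      positivity
    have key : ∀ v ∈ S.filter fun v => (lev v, gM (MM b v)) = (i, g),
        v ∈ S ∧ gM (MM b v) = g ∧ (2 : ℝ) ^ i ≤ yM (MM b (tV t v)) ∧
          yM (MM b (tV t v)) ≤ 2 ^ (i + 1) := by
      intro v hv
      obtain ⟨h1, h2⟩ := Finset.mem_filter.1 hv
      obtain ⟨h3, h4⟩ := Prod.mk.inj h2
      obtain ⟨-, h5, h6⟩ := hlev v h1
      rw [h3] at h5 h6
      exact ⟨h1, h4, h5, h6⟩
    obtain ⟨a1, a2, a3, a4⟩ := key v0 hv0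
    have hi : (2 : ℝ) ^ i ≤ 288 * T ^ 2 := a3.trans (hy v0 a1)
    have hgi : (g : ℝ) ≤ 2 ^ (i + 1) := by
      have := (wt_minor b ht (hS v0 a1).2.1).2
      rw [a2] at this
      exact this.trans a4
    have hc := H b t T (2 ^ (i + 1)) g _ ht hT hg hgi (fun v hv => by
      obtain ⟨b1, b2, -, b4⟩ := key v hv
      refine ⟨(hS v b1).1, (hS v b1).2.2, ?_, b4⟩
      rw [← b2]
      exact gM_dvd _)
    have h2i : (0 : ℝ) < 2 ^ i := by positivity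
    have hw : ∀ v ∈ S.filter fun v => (lev v, gM (MM b v)) = (i, g),
        wt b t T v ^ 2 ≤ (g * T ^ 2 / 2 ^ i) ^ 2 := by
      intro v hv
      obtain ⟨-, b2, b3, -⟩ := key v hv
      have h0 : 0 ≤ wt b t T v := (wt_mono b t hT0.le le_rfl v).1
      refine pow_le_pow_left₀ h0 ?_ 2
      unfold wt
      rw [b2]
      exact div_le_div_of_nonneg_left (by positivity) h2i b3
    refine (Finset.sum_le_card_nsmul _ _ _ hw).trans ?_
    rw [nsmul_eq_mul]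
    refine (mul_le_mul_of_nonneg_right hc (by positivity)).trans ?_
    have e : f (T * t ^ 2) * (2 ^ (i + 1) / (g : ℝ)) ^ 3 * W * (g * T ^ 2 / 2 ^ i) ^ 2 =
        8 * f (T * t ^ 2) * T ^ 4 * W * (g : ℝ)⁻¹ * 2 ^ i := by
      field_simp
      ring
    rw [e]
    calc 8 * f (T * t ^ 2) * T ^ 4 * W * (g : ℝ)⁻¹ * 2 ^ i
        ≤ 8 * f (T * t ^ 2) * T ^ 4 * W * (g : ℝ)⁻¹ * (288 * T ^ 2) :=
          mul_le_mul_of_nonneg_left hi (by positivity)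
      _ = _ := by ring
  rw [← Finset.sum_fiberwise_of_maps_to hmap]
  refine (Finset.sum_le_sum hfib).trans ?_
  rw [Finset.sum_product]
  simp only [← Finset.mul_sum, Finset.sum_const, Finset.card_range, nsmul_eq_mul]
  have hh := ws_harm (L + 1)
  have hL0 : (0 : ℝ) ≤ L := Nat.cast_nonneg L
  have hh2 : ∑ g ∈ Finset.Icc 1 (2 ^ (L + 1)), ((g : ℕ) : ℝ)⁻¹ ≤ 2 * ((L : ℝ) + 1) := by
    refine hh.trans ?_
    push_cast
    linarith
  have hC : 0 ≤ 2304 * f (T * t ^ 2) * T ^ 6 * W := by positivity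
  push_cast
  calc 2304 * f (T * t ^ 2) * T ^ 6 * W *
        (((L : ℝ) + 1) * ∑ g ∈ Finset.Icc 1 (2 ^ (L + 1)), ((g : ℕ) : ℝ)⁻¹)
      ≤ 2304 * f (T * t ^ 2) * T ^ 6 * W * (((L : ℝ) + 1) * (2 * ((L : ℝ) + 1))) :=
        mul_le_mul_of_nonneg_left (mul_le_mul_of_nonneg_left hh2 (by positivity)) hC
    _ = _ := by ring

end Pool.Agent.Lib.MP_af4c59_nt.H57
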