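import Pool.Agent.Lib.MP_af4c59_nt.H57PerV
import Pool.Agent.Lib.MP_af4c59_nt.H57WS

/-!
The count of pure spinors in a box.
-/

set_option autoImplicit false

namespace Pool.Agent.Lib.MP_af4c59_nt.H57

open Matrix

theorem ct_ne {c B t : ℝ} {v : Fin 10 → ℤ} (h : GoodV c B t v) : v ≠ 0 := by
  rintro rfl
  obtain ⟨u, hu⟩ := h.prim
  simp [BV] at hu

theorem ct_rk {c B t : ℝ} {v : Fin 10 → ℤ} (h : GoodV c B t v) (b : Bool) : Rk 3 (MM b v) := by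
  cases b
  · exact h.rm
  · exact h.rK

theorem ct_top {c B t : ℝ} (hc : 1 ≤ c) (hB : 1 ≤ B) (ht : 1 ≤ t) (htB : t ≤ c * B)
    {v : Fin 10 → ℤ} (h : GoodV c B t v) : t ^ 2 * ‖tV t v‖ ≤ c ^ 3 * B ^ 4 := by
  have h1 : 1 ≤ c * B ^ 2 := one_le_mul_of_one_le_of_one_le hc (one_le_pow₀ hB)
  have h2 : ‖tV t v‖ ≤ c * B ^ 2 := by
    rcases le_total ‖tV t v‖ 1 with u | u
    · exact u.trans h1
    · exact (le_self_pow₀ u (by norm_num)).trans h.T5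
  have h3 : t ^ 2 ≤ (c * B) ^ 2 := pow_le_pow_left₀ (by linarith) htB 2
  calc t ^ 2 * ‖tV t v‖ ≤ (c * B) ^ 2 * (c * B ^ 2) :=
        mul_le_mul h3 h2 (norm_nonneg _) (by positivity)
    _ = c ^ 3 * B ^ 4 := by ring

/-- The count at one level. -/
theorem ct_level {c : ℝ} (hc : 1 ≤ c) {f1 f2 : ℝ → ℝ} (s1 : SP f1) (s2 : SP f2)
    (h1 : ∀ (B t : ℝ) (v : Fin 10 → ℤ)
      (S : Finset (Fin 16 → ℤ)), 1 ≤ B → 1 ≤ t → t ≤ c * B → GoodV c B t v →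
      (∀ s ∈ S, Adm c B t v s) →
      (S.card : ℝ) ≤ f1 B * (B ^ 2 / ‖tV t v‖ ^ 3) *
        (wt true t ‖tV t v‖ v ^ 2 + wt false t ‖tV t v‖ v ^ 2))
    (h2 : ∀ (b : Bool) (t T : ℝ) (S : Finset (Fin 10 → ℤ)),
      1 ≤ t → 1 ≤ T * t ^ 2 → (∀ v ∈ S, qV v = 0 ∧ Rk 3 (MM b v) ∧ ‖tV t v‖ ≤ T) →
      ∑ v ∈ S, wt b t T v ^ 2 ≤ f2 (T * t ^ 2) * T ^ 6 * (T ^ 2 * t ^ 4 + T * t ^ 6))
    {B t T : ℝ} (hB : 1 ≤ B) (ht : 1 ≤ t) (htB : t ≤ c * B) (C : Finset (Fin 16 → ℤ))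
    (v : (Fin 16 → ℤ) → (Fin 10 → ℤ))
    (hv : ∀ s ∈ C, GoodV c B t (v s) ∧ Adm c B t (v s) s ∧ ‖tV t (v s)‖ ≤ T ∧
      T ≤ 2 * ‖tV t (v s)‖) :
    (C.card : ℝ) ≤ 768 * c * (f1 B * f2 (2 * c ^ 3 * B ^ 4)) * B ^ 4 * t ^ 4 := by
  classical
  have c3 : 1 ≤ 2 * c ^ 3 := by linarith [one_le_pow₀ (n := 3) hc]
  have X1 : 1 ≤ 2 * c ^ 3 * B ^ 4 := one_le_mul_of_one_le_of_one_le c3 (one_le_pow₀ hB)
  have p1 := s1.pos hB
  have p2 := s2.pos X1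
  have t0 : 0 < t := by linarith
  rcases C.eq_empty_or_nonempty with rfl | ⟨s0, hs0⟩
  · simp only [Finset.card_empty, Nat.cast_zero]
    positivity
  obtain ⟨g0, -, u0, u0'⟩ := hv s0 hs0
  have l0 := tV_lo ht (ct_ne g0)
  have n0 : 0 ≤ ‖tV t (v s0)‖ := norm_nonneg _
  have Tt : 1 ≤ T * t ^ 2 := by nlinarith [mul_le_mul_of_nonneg_left u0 (sq_nonneg t)]
  have T0 : 0 < T := by
    by_contra hn
    have := mul_nonpos_of_nonpos_of_nonneg (not_lt.1 hn) (sq_nonneg t)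
    linarith
  have Tt' : T * t ^ 2 ≤ 2 * c ^ 3 * B ^ 4 := by
    have := ct_top hc hB ht htB g0
    nlinarith [mul_le_mul_of_nonneg_left u0' (sq_nonneg t)]
  have T5 : T ^ 5 ≤ 32 * (c * B ^ 2) := by
    have := pow_le_pow_left₀ T0.le u0' 5
    rw [mul_pow] at this
    linarith [g0.T5]
  have T4 : T ^ 4 * t ^ 2 ≤ 16 * (c * B ^ 2) := by
    have := mul_le_mul_of_nonneg_right (pow_le_pow_left₀ T0.le u0' 4) (sq_nonneg t)
    rw [mul_pow] at this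
    linarith [g0.T4]
  have key := card_le_sum (X := C) v (C.image v) (fun x hx => Finset.mem_image_of_mem v hx)
    (fun w => f1 B * (8 * B ^ 2 / T ^ 3) * (wt true t T w ^ 2 + wt false t T w ^ 2))
    (fun w hw D hD hw' => by
      obtain ⟨s, hs, rfl⟩ := Finset.mem_image.1 hw
      obtain ⟨g, -, u, u'⟩ := hv s hs
      have n1 : 0 < ‖tV t (v s)‖ := by linarith
      refine (h1 B t (v s) D hB ht htB g (fun x hx => hw' x hx ▸ (hv x (hD hx)).2.1)).trans ?_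
      have a1 := wt_mono true t n1.le u (v s)
      have a2 := wt_mono false t n1.le u (v s)
      have a3 : B ^ 2 / ‖tV t (v s)‖ ^ 3 ≤ 8 * B ^ 2 / T ^ 3 := by
        rw [div_le_div_iff₀ (by positivity) (by positivity)]
        have := mul_le_mul_of_nonneg_left (pow_le_pow_left₀ T0.le u' 3) (sq_nonneg B)
        rw [mul_pow] at this
        linarith
      exact mul_le_mul (mul_le_mul_of_nonneg_left a3 p1.le)
        (add_le_add (pow_le_pow_left₀ a1.1 a1.2 2) (pow_le_pow_left₀ a2.1 a2.2 2))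
        (by positivity) (by positivity))
  rw [← Finset.mul_sum, Finset.sum_add_distrib] at key
  have hw : ∀ b : Bool, ∑ w ∈ C.image v, wt b t T w ^ 2 ≤
      f2 (2 * c ^ 3 * B ^ 4) * T ^ 6 * (T ^ 2 * t ^ 4 + T * t ^ 6) := fun b => by
    refine (h2 b t T (C.image v) ht Tt (fun w hw => ?_)).trans ?_
    · obtain ⟨s, hs, rfl⟩ := Finset.mem_image.1 hw
      obtain ⟨g, -, u, -⟩ := hv s hs
      exact ⟨g.q, ct_rk g b, u⟩
    · exact mul_le_mul_of_nonneg_right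
        (mul_le_mul_of_nonneg_right (s2.mono _ _ Tt Tt') (by positivity)) (by positivity)
  refine key.trans ((mul_le_mul_of_nonneg_left (add_le_add (hw true) (hw false))
    (by positivity)).trans ?_)
  have e : f1 B * (8 * B ^ 2 / T ^ 3) *
      (f2 (2 * c ^ 3 * B ^ 4) * T ^ 6 * (T ^ 2 * t ^ 4 + T * t ^ 6) +
        f2 (2 * c ^ 3 * B ^ 4) * T ^ 6 * (T ^ 2 * t ^ 4 + T * t ^ 6)) =
      16 * (f1 B * f2 (2 * c ^ 3 * B ^ 4)) * B ^ 2 * t ^ 4 * (T ^ 5 + T ^ 4 * t ^ 2) := by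
    field_simp
    ring
  rw [e]
  calc 16 * (f1 B * f2 (2 * c ^ 3 * B ^ 4)) * B ^ 2 * t ^ 4 * (T ^ 5 + T ^ 4 * t ^ 2)
      ≤ 16 * (f1 B * f2 (2 * c ^ 3 * B ^ 4)) * B ^ 2 * t ^ 4 * (48 * (c * B ^ 2)) :=
        mul_le_mul_of_nonneg_left (by linarith) (by positivity)
    _ = _ := by ring

theorem CT (c : ℝ) (hc : 1 ≤ c) : ∃ f, SP f ∧ ∀ (B t : ℝ) (S : Finset (Fin 16 → ℤ)),
    1 ≤ B → 1 ≤ t → t ≤ c * B → (∀ s ∈ S, ∃ v, GoodV c B t v ∧ Adm c B t v s) →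
    (S.card : ℝ) ≤ f B * B ^ 4 * t ^ 4 := by
  classical
  obtain ⟨f1, s1, h1⟩ := perV c hc
  obtain ⟨f2, s2, h2⟩ := wsum
  have c3 : 1 ≤ c ^ 3 := one_le_pow₀ hc
  refine ⟨fun x => ((lg (c ^ 3 * x ^ 4) : ℝ) + 1) * (768 * c * (f1 x * f2 (2 * c ^ 3 * x ^ 4))),
    (SP_lg.comp c3 4).mul ((s1.mul (s2.comp (by linarith) 4)).cmul (by linarith)), ?_⟩
  intro B t S hB ht htB hS
  have t0 : 0 < t := by linarith
  have t2 : 0 < t ^ 2 := by positivity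
  choose! v hv using hS
  have hl : ∀ s ∈ S, ∃ i : ℕ, i ≤ lg (c ^ 3 * B ^ 4) ∧ 2 ^ i * 1 ≤ t ^ 2 * ‖tV t (v s)‖ ∧
      t ^ 2 * ‖tV t (v s)‖ ≤ 2 ^ (i + 1) * 1 := fun s hs =>
    exists_level one_pos (tV_lo ht (ct_ne (hv s hs).1))
      (by rw [mul_one]; exact (ct_top hc hB ht htB (hv s hs).1).trans (le_two_pow_lg _))
  choose! lv hlv using hl
  have X1 : 1 ≤ 2 * c ^ 3 * B ^ 4 :=
    one_le_mul_of_one_le_of_one_le (by linarith) (one_le_pow₀ hB)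
  have p1 := s1.pos hB
  have p2 := s2.pos X1
  have key := card_le_fib (X := S) lv (Finset.range (lg (c ^ 3 * B ^ 4) + 1))
    (fun x hx => Finset.mem_range.2 (Nat.lt_succ_of_le (hlv x hx).1))
    (J := (lg (c ^ 3 * B ^ 4) : ℝ) + 1) (by simp)
    (n := 768 * c * (f1 B * f2 (2 * c ^ 3 * B ^ 4)) * B ^ 4 * t ^ 4) (by positivity)
    (fun i _ C hC hi => ct_level hc s1 s2 h1 h2 (T := 2 ^ (i + 1) / t ^ 2) hB ht htB C v
      (fun s hs => by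
        obtain ⟨-, a, b⟩ := hlv s (hC hs)
        rw [hi s hs] at a b
        refine ⟨(hv s (hC hs)).1, (hv s (hC hs)).2, ?_, ?_⟩
        · rw [le_div_iff₀ t2]; linarith
        · rw [div_le_iff₀ t2, pow_succ]; linarith))
  refine key.trans (le_of_eq ?_)
  ring

end Pool.Agent.Lib.MP_af4c59_nt.H57
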