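import Pool.Agent.Lib.MP_af4c59_nt.H57Cell0

/-!
Points of a quadric surface in one cell.
-/

set_option autoImplicit false

namespace Pool.Agent.Lib.MP_af4c59_nt.H57

open Matrix

theorem cell_mul_cols {T M : Matrix (Fin 4) (Fin 4) ℤ} {ξ : Fin 4 → Fin 4 → ℤ}
    (h : ∀ k, (fun i => M i k) = T *ᵥ ξ k) : M = T * Matrix.of fun i k => ξ k i := by
  ext i k
  have := congrFun (h k) i
  simpa [Matrix.mul_apply, Matrix.mulVec, dotProduct] using this

/-- A basis of the lattice generated by `X`. -/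
theorem spanBasis {X : Finset (Fin 4 → ℤ)} (h : Full X) :
    ∃ T : Matrix (Fin 4) (Fin 4) ℤ, T.det ≠ 0 ∧ (∀ x ∈ X, ∃ ξ, x = T *ᵥ ξ) ∧
      ∀ k, (fun i => T i k) ∈ Submodule.span ℤ (X : Set (Fin 4 → ℤ)) := by
  obtain ⟨M, hM, hX⟩ := h
  obtain ⟨Λ, hΛ⟩ : ∃ Λ, Λ = Submodule.span ℤ (X : Set (Fin 4 → ℤ)) := ⟨_, rfl⟩
  have hsub : ∀ x ∈ X, x ∈ Λ := fun x hx => by rw [hΛ]; exact Submodule.subset_span hx
  have hli : LinearIndependent ℤ fun k : Fin 4 => (⟨fun i => M i k, hsub _ (hX k)⟩ : Λ) :=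
    LinearIndependent.of_comp Λ.subtype (Matrix.linearIndependent_cols_of_det_ne_zero hM)
  have h4 : Module.finrank ℤ Λ = 4 := by
    have h1 := hli.fintype_card_le_finrank
    have h2 := Submodule.finrank_le Λ
    simp only [Fintype.card_fin, Module.finrank_fintype_fun_eq_card] at h1 h2
    omega
  let b := Module.finBasisOfFinrankEq ℤ Λ h4
  have hT : ∀ x ∈ X, ∃ ξ, x = (Matrix.of fun i k => (b k : Fin 4 → ℤ) i) *ᵥ ξ := fun x hx => by
    refine ⟨fun k => b.repr ⟨x, hsub x hx⟩ k, ?_⟩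
    have h1 := congrArg Subtype.val (b.sum_repr ⟨x, hsub x hx⟩)
    funext i
    have h2 := congrFun h1 i
    simp only [AddSubmonoidClass.coe_finsetSum, SetLike.val_smul, Finset.sum_apply, Pi.smul_apply,
      smul_eq_mul] at h2
    rw [← h2]
    simp [Matrix.mulVec, dotProduct, mul_comm]
  refine ⟨_, ?_, hT, fun k => ?_⟩
  · choose ξ hξ using fun k => hT _ (hX k)
    intro h0
    apply hM
    rw [cell_mul_cols hξ, Matrix.det_mul, h0, zero_mul]
  · rw [← hΛ]; exact (b k).2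

/-- If no four elements are independent, the form has a ternary model. -/
theorem not_full {A : Matrix (Fin 4) (Fin 4) ℤ} (hA : A.IsSymm) {X : Finset (Fin 4 → ℤ)}
    (h : ¬ Full X) : ∃ (A' : Matrix (Fin 3) (Fin 3) ℝ) (z : (Fin 4 → ℤ) → Fin 3 → ℝ), A'.IsSymm ∧
      ∀ x ∈ X, ∀ y ∈ X, ((bf A x y : ℤ) : ℝ) = bf A' (z x) (z y) := by
  obtain ⟨f, hf, hsp, hli⟩ := Submodule.exists_fun_fin_finrank_span_eq ℝ
    (vc ℝ '' (X : Set (Fin 4 → ℤ)))
  have hmem : ∀ x ∈ X, vc ℝ x ∈ Submodule.span ℝ (Set.range f) := fun x hx => by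
    rw [hsp]; exact Submodule.subset_span ⟨x, hx, rfl⟩
  have hle := Submodule.finrank_le (Submodule.span ℝ (vc ℝ '' (X : Set (Fin 4 → ℤ))))
  simp only [Module.finrank_fintype_fun_eq_card, Fintype.card_fin] at hle
  generalize Module.finrank ℝ (Submodule.span ℝ (vc ℝ '' (X : Set (Fin 4 → ℤ)))) = r at f hf hli hmem hle
  have hr : r ≤ 3 := by
    by_contra hr
    obtain rfl : r = 4 := by omega
    apply h
    choose x hx hxf using hf
    refine ⟨Matrix.of fun i k => x k i, fun h0 => ?_, fun k => hx k⟩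
    have hu : IsUnit (mc ℝ (Matrix.of fun i k => x k i)) := by
      rw [← Matrix.linearIndependent_cols_iff_isUnit]
      have : (mc ℝ (Matrix.of fun i k => x k i)).col = f := by
        funext k
        rw [← hxf k]
        rfl
      rw [this]; exact hli
    rw [Matrix.isUnit_iff_isUnit_det, mc_det, h0] at hu
    simp at hu
  let t : Fin 3 → Fin 4 → ℝ := fun k => if hk : k.val < r then f ⟨k.val, hk⟩ else 0
  have hsub : Submodule.span ℝ (Set.range f) ≤ Submodule.span ℝ (Set.range t) := by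
    apply Submodule.span_mono
    rintro _ ⟨k, rfl⟩
    exact ⟨⟨k.val, by omega⟩, by simp [t]⟩
  have hz : ∀ x ∈ X, ∃ z : Fin 3 → ℝ, vc ℝ x = (Matrix.of fun i k => t k i) *ᵥ z := fun x hx => by
    obtain ⟨c, hc⟩ := (Submodule.mem_span_range_iff_exists_fun ℝ).1 (hsub (hmem x hx))
    refine ⟨c, ?_⟩
    rw [← hc]
    funext i
    simp [Matrix.mulVec, dotProduct, mul_comm]
  choose! z hz using hz
  refine ⟨(Matrix.of fun i k => t k i)ᵀ * mc ℝ A * Matrix.of fun i k => t k i, z, ?_, ?_⟩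
  · unfold Matrix.IsSymm
    rw [Matrix.transpose_mul, Matrix.transpose_mul, Matrix.transpose_transpose, ← mc_transpose,
      hA.eq, Matrix.mul_assoc]
  · intro x hx y hy
    rw [bf_conj, ← hz x hx, ← hz y hy, bf_cast]

theorem cell_sqfree {S d m g : ℕ} (hS : Squarefree S) (hd : d ≠ 0) (h : d ^ 2 * g = S * m ^ 2) :
    ∃ j, m = d * j ∧ g = S * j ^ 2 := by
  obtain ⟨d', m', hc, h1, h2⟩ := Nat.exists_coprime d m
  have hg : Nat.gcd d m ≠ 0 := Nat.gcd_ne_zero_left hd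
  generalize Nat.gcd d m = e at h1 h2 hg
  subst h1 h2
  have h3 : d' ^ 2 * g = S * m' ^ 2 := by
    apply Nat.eq_of_mul_eq_mul_left (pow_pos (Nat.pos_of_ne_zero hg) 2)
    linarith [h]
  have h4 : d' ^ 2 ∣ S := (Nat.Coprime.pow 2 2 hc).dvd_of_dvd_mul_right ⟨g, h3.symm⟩
  have h5 : d' = 1 := Nat.isUnit_iff.1 (hS d' (by rw [← sq]; exact h4))
  subst h5
  exact ⟨m', by ring, by simpa using h3⟩

theorem cell_dvd {A : Matrix (Fin 4) (Fin 4) ℤ} {X : Finset (Fin 4 → ℤ)} {σ : ℤ}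
    (h : ∀ x ∈ X, ∀ y ∈ X, σ ∣ bf A x y) {x y : Fin 4 → ℤ}
    (hx : x ∈ Submodule.span ℤ (X : Set (Fin 4 → ℤ)))
    (hy : y ∈ Submodule.span ℤ (X : Set (Fin 4 → ℤ))) : σ ∣ bf A x y := by
  induction hx using Submodule.span_induction with
  | mem x hx =>
    induction hy using Submodule.span_induction with
    | mem y hy => exact h x hx y hy
    | zero => simp [bf]
    | add y y' _ _ h1 h2 => rw [bf_add_right]; exact dvd_add h1 h2
    | smul c y _ h1 => rw [bf_smul_right]; exact Dvd.dvd.mul_left h1 c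
  | zero => simp [bf]
  | add x x' _ _ h1 h2 => rw [bf_add_left]; exact dvd_add h1 h2
  | smul c x _ h1 => rw [bf_smul_left]; exact Dvd.dvd.mul_left h1 c

theorem cell_gram (T A : Matrix (Fin 4) (Fin 4) ℤ) (a b : Fin 4) :
    (Tᵀ * A * T) a b = bf A (fun i => T i a) (fun i => T i b) := by
  rw [Matrix.mul_assoc]
  simp [Matrix.mul_apply, bf, dotProduct, Matrix.mulVec]

theorem cell_lower {A : Matrix (Fin 4) (Fin 4) ℤ} {X : Finset (Fin 4 → ℤ)} {σ : ℕ}
    (hX : NoL A X) (h : ∀ x ∈ X, ∀ y ∈ X, (σ : ℤ) ∣ bf A x y) {x y : Fin 4 → ℤ} (hx : x ∈ X)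
    (hy : y ∈ X) (hxy : x ≠ y) : (σ : ℝ) ≤ |((bf A x y : ℤ) : ℝ)| := by
  have h1 := Int.le_abs_of_dvd (hX.ne x hx y hy hxy) (h x hx y hy)
  exact_mod_cast h1

theorem cell_full {g : ℝ → ℝ} (hg0 : SP g)
    (hg : ∀ (N y : ℝ) (G : Matrix (Fin 4) (Fin 4) ℤ) (S j : ℕ)
      (X : Finset (Fin 4 → ℤ)), G.IsSymm → G.det.natAbs = S * j ^ 2 → Squarefree S → j ≠ 0 →
      1 ≤ y → y ≤ N → NoL G X → (∀ x ∈ X, ∀ x' ∈ X, |((bf G x x' : ℤ) : ℝ)| ≤ y) → Full X →
      (X.card : ℝ) ≤ g N * (√S + y / √S))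
    (N Y : ℝ) (A : Matrix (Fin 4) (Fin 4) ℤ) (S k σ : ℕ) (X : Finset (Fin 4 → ℤ)) (hN : 1 ≤ N)
    (hA : A.IsSymm) (hD : A.det.natAbs = S * k ^ 2) (hS : Squarefree S) (hk : k ≠ 0) (hσ : 0 < σ)
    (hX : NoL A X)
    (hb : ∀ x ∈ X, ∀ x' ∈ X, (σ : ℤ) ∣ bf A x x' ∧ |((bf A x x' : ℤ) : ℝ)| ≤ Y ∧
      |((bf A x x' : ℤ) : ℝ)| ≤ N) (hF : Full X) :
    (X.card : ℝ) ≤ g N * (√S + Y / (σ * √S)) := by
  classical
  obtain ⟨T, hT, hξ, hsp⟩ := spanBasis hF
  obtain ⟨M, hM, hMX⟩ := hF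
  choose! ξ hξ using hξ
  have hσ' : (σ : ℤ) ≠ 0 := by exact_mod_cast hσ.ne'
  have hσR : (1 : ℝ) ≤ σ := by exact_mod_cast hσ
  have hdv : ∀ a b, (σ : ℤ) ∣ (Tᵀ * A * T) a b := fun a b => by
    rw [cell_gram]
    exact cell_dvd (fun x hx y hy => (hb x hx y hy).1) (hsp a) (hsp b)
  choose G0 hG0 using hdv
  obtain ⟨G, hG⟩ : ∃ G : Matrix (Fin 4) (Fin 4) ℤ, Tᵀ * A * T = (σ : ℤ) • G :=
    ⟨Matrix.of G0, by ext a b; simp [hG0]⟩
  have hGs : G.IsSymm := by
    have h1 : (Tᵀ * A * T)ᵀ = Tᵀ * A * T := by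
      rw [Matrix.transpose_mul, Matrix.transpose_mul, Matrix.transpose_transpose, hA.eq,
        Matrix.mul_assoc]
    rw [hG, Matrix.transpose_smul] at h1
    exact smul_right_injective _ hσ' h1
  have hdet : (σ ^ 2) ^ 2 * G.det.natAbs = S * (T.det.natAbs * k) ^ 2 := by
    have h1 := congrArg (fun B => B.det.natAbs) hG
    simp only [Matrix.det_mul, Matrix.det_transpose, Matrix.det_smul, Fintype.card_fin,
      Int.natAbs_mul, Int.natAbs_pow, Int.natAbs_natCast, hD] at h1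
    linarith [h1]
  obtain ⟨j, hj1, hj2⟩ := cell_sqfree hS (pow_ne_zero 2 hσ.ne') hdet
  have hj : j ≠ 0 := by
    rintro rfl
    exact mul_ne_zero (Int.natAbs_ne_zero.2 hT) hk (by simpa using hj1)
  have hbf : ∀ x ∈ X, ∀ y ∈ X, bf A x y = σ * bf G (ξ x) (ξ y) := fun x hx y hy => by
    have h1 := bf_conj A T (ξ x) (ξ y)
    rw [← hξ x hx, ← hξ y hy, hG] at h1
    rw [← h1]
    unfold bf
    rw [Matrix.smul_mulVec, dotProduct_smul, smul_eq_mul]
  have hinj : Set.InjOn ξ (X : Set (Fin 4 → ℤ)) := fun x hx y hy hxy => by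
    rw [hξ x hx, hξ y hy, hxy]
  have h01 : (fun i => M i 0) ≠ fun i => M i 1 := fun h =>
    hM (Matrix.det_zero_of_column_eq (i := 0) (j := 1) (by decide) fun i => congrFun h i)
  have hlow := cell_lower hX (fun x hx y hy => (hb x hx y hy).1) (hMX 0) (hMX 1) h01
  have hmin : (σ : ℝ) ≤ min Y N :=
    le_min (hlow.trans (hb _ (hMX 0) _ (hMX 1)).2.1) (hlow.trans (hb _ (hMX 0) _ (hMX 1)).2.2)
  have hσpos : (0 : ℝ) < σ := by linarith
  have hres := hg N (min Y N / σ) G S j (X.image ξ) hGs hj2 hS hj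
    (by rw [le_div_iff₀ hσpos]; linarith)
    ((div_le_self (by linarith) hσR).trans (min_le_right _ _)) ?_ ?_ ?_
  · rw [Finset.card_image_of_injOn hinj] at hres
    refine hres.trans ?_
    have := (hg0.pos hN).le
    rw [div_div]
    gcongr
    exact min_le_left _ _
  · refine ⟨?_, ?_, ?_⟩
    · intro u hu
      obtain ⟨x, hx, rfl⟩ := Finset.mem_image.1 hu
      have h1 := hbf x hx x hx
      rw [hX.iso x hx] at h1
      exact (mul_eq_zero.1 h1.symm).resolve_left hσ'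
    · intro u hu v hv huv
      obtain ⟨x, hx, rfl⟩ := Finset.mem_image.1 hu
      obtain ⟨y, hy, rfl⟩ := Finset.mem_image.1 hv
      have h1 := hX.pw x hx y hy fun h => huv (by rw [h])
      rw [hξ x hx, hξ y hy] at h1
      exact NP_of_mulVec h1
    · intro u hu v hv huv h0
      obtain ⟨x, hx, rfl⟩ := Finset.mem_image.1 hu
      obtain ⟨y, hy, rfl⟩ := Finset.mem_image.1 hv
      apply hX.ne x hx y hy fun h => huv (by rw [h])
      rw [hbf x hx y hy, h0, mul_zero]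
  · intro u hu v hv
    obtain ⟨x, hx, rfl⟩ := Finset.mem_image.1 hu
    obtain ⟨y, hy, rfl⟩ := Finset.mem_image.1 hv
    have h1 := le_min (hb x hx y hy).2.1 (hb x hx y hy).2.2
    rw [hbf x hx y hy] at h1
    push_cast at h1
    rw [abs_mul, abs_of_pos hσpos] at h1
    rw [le_div_iff₀ hσpos]
    linarith
  · refine ⟨Matrix.of fun i k => ξ (fun a => M a k) i, fun h0 => hM ?_, fun k => ?_⟩
    · rw [cell_mul_cols fun k => hξ _ (hMX k), Matrix.det_mul, h0, mul_zero]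
    · exact Finset.mem_image.2 ⟨_, hMX k, rfl⟩

theorem cell : ∃ f, SP f ∧ ∀ (N Y : ℝ) (A : Matrix (Fin 4) (Fin 4) ℤ) (S k σ : ℕ)
    (X : Finset (Fin 4 → ℤ)), 1 ≤ N → A.IsSymm → A.det.natAbs = S * k ^ 2 → Squarefree S →
    k ≠ 0 → 0 < σ → 0 ≤ Y → NoL A X →
    (∀ x ∈ X, ∀ x' ∈ X, (σ : ℤ) ∣ bf A x x' ∧ |((bf A x x' : ℤ) : ℝ)| ≤ Y ∧
      |((bf A x x' : ℤ) : ℝ)| ≤ N) →
    (X.card : ℝ) ≤ f N * (√S + Y / (σ * √S)) := by
  obtain ⟨g, hg0, hg⟩ := cell0
  refine ⟨fun N => g N + 50 * ((lg N : ℝ) + 1), hg0.add (SP_lg.cmul (by norm_num)), ?_⟩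
  intro N Y A S k σ X hN hA hD hS hk hσ hY hX hb
  have hσR : (1 : ℝ) ≤ σ := by exact_mod_cast hσ
  have hσpos : (0 : ℝ) < σ := by linarith
  have hS1 : (1 : ℝ) ≤ √S := by
    rw [Real.one_le_sqrt]
    exact_mod_cast Nat.pos_of_ne_zero hS.ne_zero
  have hq : 0 ≤ Y / (σ * √S) := by positivity
  have hgN := (hg0.pos hN).le
  have hl : (0 : ℝ) ≤ lg N := Nat.cast_nonneg _
  by_cases hF : Full X
  · refine (cell_full hg0 hg N Y A S k σ X hN hA hD hS hk hσ hX hb hF).trans ?_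
    gcongr
    linarith
  obtain ⟨A', z, hA', hz⟩ := not_full hA hF
  have h1 := packR (X := X) (x := z) (Y := min Y N) (L := lg N) hA' hσpos
    (fun i hi => by rw [← hz i hi i hi, hX.iso i hi, Int.cast_zero])
    (fun i hi j hj hij => by
      rw [← hz i hi j hj]
      exact cell_lower hX (fun x hx y hy => (hb x hx y hy).1) hi hj hij)
    (fun i hi j hj => by
      rw [← hz i hi j hj]
      exact le_min (hb i hi j hj).2.1 (hb i hi j hj).2.2)
    ((min_le_right _ _).trans ((le_two_pow_lg N).trans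
      (le_mul_of_one_le_right (by positivity) hσR)))
  have h2 : √(min Y N / σ) ≤ (√S + Y / (σ * √S)) / 2 := by
    apply Real.sqrt_le_iff.2 ⟨by positivity, ?_⟩
    have e : Y / σ = √S * (Y / (σ * √S)) := by field_simp
    have h3 : min Y N / σ ≤ Y / σ := by gcongr; exact min_le_left _ _
    nlinarith [sq_nonneg (√S - Y / (σ * √S))]
  refine h1.trans ?_
  calc ((lg N : ℝ) + 5) * (16 * √(min Y N / σ) + 2)
      ≤ (5 * ((lg N : ℝ) + 1)) * (10 * (√S + Y / (σ * √S))) := by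
        gcongr <;> linarith
    _ = 50 * ((lg N : ℝ) + 1) * (√S + Y / (σ * √S)) := by ring
    _ ≤ _ := by
        gcongr
        linarith

end Pool.Agent.Lib.MP_af4c59_nt.H57
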