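import Pool.Agent.Lib.MP_af4c59_nt.H57Cov
import Pool.Agent.Lib.MP_af4c59_nt.H57Lin

/-!
Few planes cover a box.
-/

set_option autoImplicit false

namespace Pool.Agent.Lib.MP_af4c59_nt.H57

open Matrix

/-- The number of dual vectors in a box at most doubles the side by a bounded factor. -/
theorem box_double (M : Matrix (Fin 4) (Fin 4) ℤ) {R : ℤ} (hR : 0 < R) {n : ℝ}
    (h : ∀ S : Finset (Fin 4 → ℤ), (∀ c ∈ S, ∀ k, |(c ᵥ* M) k| ≤ R) → (S.card : ℝ) ≤ n)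
    (S : Finset (Fin 4 → ℤ)) (hS : ∀ c ∈ S, ∀ k, |(c ᵥ* M) k| ≤ 4 * R) :
    (S.card : ℝ) ≤ 9 ^ 4 * n := by
  classical
  have hn : 0 ≤ n := by simpa using h ∅ (by simp)
  refine card_le_fib (fun c : Fin 4 → ℤ => fun k => (c ᵥ* M) k / R)
    (Fintype.piFinset fun _ : Fin 4 => Finset.Icc (-4 : ℤ) 4) ?_ ?_ hn ?_
  · intro c hc
    rw [Fintype.mem_piFinset]
    intro k
    have h1 := abs_le.1 (hS c hc k)
    rw [Finset.mem_Icc]
    constructor
    · exact Int.le_ediv_of_mul_le hR (by linarith [h1.1])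
    · exact Int.ediv_le_of_le_mul hR h1.2
  · rw [Fintype.card_piFinset]
    have e : (Finset.Icc (-4 : ℤ) 4).card = 9 := by decide
    simp only [e]
    norm_num
  · intro q _ C _ hC
    rcases C.eq_empty_or_nonempty with rfl | ⟨c₀, hc₀⟩
    · simpa using hn
    have hcard : (C.image fun c => c - c₀).card = C.card :=
      Finset.card_image_of_injective _ (sub_left_injective)
    rw [← hcard]
    refine h _ fun d hd k => ?_
    obtain ⟨c, hc, rfl⟩ := Finset.mem_image.1 hd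
    have e : (c ᵥ* M) k / R = (c₀ ᵥ* M) k / R := by
      have a1 := congrFun (hC c hc) k
      have a2 := congrFun (hC c₀ hc₀) k
      exact a1.trans a2.symm
    rw [Matrix.sub_vecMul, Pi.sub_apply]
    have b1 := Int.mul_ediv_add_emod ((c ᵥ* M) k) R
    have b2 := Int.mul_ediv_add_emod ((c₀ ᵥ* M) k) R
    have b3 := Int.emod_nonneg ((c ᵥ* M) k) hR.ne'
    have b4 := Int.emod_nonneg ((c₀ ᵥ* M) k) hR.ne'
    have b5 := Int.emod_lt_of_pos ((c ᵥ* M) k) hR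
    have b6 := Int.emod_lt_of_pos ((c₀ ᵥ* M) k) hR
    rw [e] at b1
    rw [abs_le]
    constructor <;> linarith

theorem planes_inj (M : Matrix (Fin 4) (Fin 4) ℤ) (hM : M.det ≠ 0) :
    Function.Injective fun c : Fin 4 → ℤ => c ᵥ* M := by
  intro c c' h
  have h0 : (c - c') ᵥ* M = 0 := by
    rw [Matrix.sub_vecMul]
    exact sub_eq_zero.2 h
  exact sub_eq_zero.1 (Matrix.eq_zero_of_vecMul_eq_zero hM h0)

theorem planes_card (M : Matrix (Fin 4) (Fin 4) ℤ) (hM : M.det ≠ 0) :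
    Nat.card ((Fin 4 → ℤ) ⧸ LinearMap.range M.vecMulLinear) = M.det.natAbs := by
  have hi : Function.Injective M.vecMulLinear := planes_inj M hM
  rw [← Submodule.natAbs_det_equiv _ (LinearEquiv.ofInjective M.vecMulLinear hi)]
  have e : (LinearMap.range M.vecMulLinear).subtype ∘ₗ AddMonoidHom.toIntLinearMap
      ((LinearEquiv.ofInjective M.vecMulLinear hi :
        (Fin 4 → ℤ) ≃ₗ[ℤ] LinearMap.range M.vecMulLinear) :
          (Fin 4 → ℤ) →+ LinearMap.range M.vecMulLinear) = Matrix.toLin' Mᵀ := by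
    refine LinearMap.ext fun c => ?_
    rw [Matrix.toLin'_apply, Matrix.mulVec_transpose]
    rfl
  rw [e, LinearMap.det_toLin', Matrix.det_transpose]

/-- A lower bound for the number of dual vectors in a box. -/
theorem box_lower (M : Matrix (Fin 4) (Fin 4) ℤ) (hM : M.det ≠ 0) (R : ℕ) :
    ∃ S : Finset (Fin 4 → ℤ), (∀ c ∈ S, ∀ k, |(c ᵥ* M) k| ≤ R) ∧
      ((R : ℝ) + 1) ^ 4 ≤ |((M.det : ℤ) : ℝ)| * S.card := by
  classical
  have hc := planes_card M hM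
  set N := LinearMap.range M.vecMulLinear with hN
  have hfin : Finite ((Fin 4 → ℤ) ⧸ N) :=
    Nat.finite_of_card_ne_zero (by rw [hc]; exact Int.natAbs_ne_zero.2 hM)
  have := Fintype.ofFinite ((Fin 4 → ℤ) ⧸ N)
  set B : Finset (Fin 4 → ℤ) := Fintype.piFinset fun _ : Fin 4 => Finset.Icc (0 : ℤ) R with hB
  have hBc : B.card = (R + 1) ^ 4 := by
    rw [hB, Fintype.card_piFinset]
    simp
  obtain ⟨q, -, hq⟩ := Finset.exists_max_image (Finset.univ : Finset ((Fin 4 → ℤ) ⧸ N))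
    (fun q => (B.filter fun ζ => N.mkQ ζ = q).card) Finset.univ_nonempty
  set C := B.filter fun ζ => N.mkQ ζ = q with hC
  have h1 : B.card ≤ C.card * (Finset.univ : Finset ((Fin 4 → ℤ) ⧸ N)).card :=
    Finset.card_le_mul_card_image_of_maps_to (f := fun ζ => N.mkQ ζ)
      (fun _ _ => Finset.mem_univ _) _ fun b hb => hq b hb
  rw [Finset.card_univ, ← Nat.card_eq_fintype_card, hc, hBc] at h1
  have hne : C.Nonempty := by
    rw [← Finset.card_pos]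
    by_contra h0
    have h0' : C.card = 0 := by omega
    rw [h0', zero_mul] at h1
    exact absurd h1 (not_le.2 (by positivity))
  obtain ⟨ζ₀, hζ₀⟩ := hne
  have hex : ∀ ζ ∈ C, ∃ c : Fin 4 → ℤ, c ᵥ* M = ζ - ζ₀ := fun ζ hζ => by
    have a1 := (Finset.mem_filter.1 hζ).2
    have a2 := (Finset.mem_filter.1 hζ₀).2
    have a3 : ζ - ζ₀ ∈ N := (Submodule.Quotient.eq N).1 (a1.trans a2.symm)
    exact a3
  choose! g hg using hex
  refine ⟨C.image g, fun c hc' k => ?_, ?_⟩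
  · obtain ⟨ζ, hζ, rfl⟩ := Finset.mem_image.1 hc'
    rw [hg ζ hζ, Pi.sub_apply]
    have a1 := Finset.mem_Icc.1 (Fintype.mem_piFinset.1 (Finset.mem_filter.1 hζ).1 k)
    have a2 := Finset.mem_Icc.1 (Fintype.mem_piFinset.1 (Finset.mem_filter.1 hζ₀).1 k)
    rw [abs_le]
    constructor <;> linarith [a1.1, a1.2, a2.1, a2.2]
  · have hcard : (C.image g).card = C.card := by
      refine Finset.card_image_of_injOn fun ζ hζ ζ' hζ' h => ?_
      have a1 := hg ζ hζ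
      rw [h, hg ζ' hζ'] at a1
      exact (sub_left_injective a1).symm
    rw [hcard, ← Int.cast_abs, ← Int.natCast_natAbs, mul_comm]
    exact_mod_cast h1

theorem planes_dot {M : Matrix (Fin 4) (Fin 4) ℤ} {x : Fin 4 → ℤ} (hx : InBox M x)
    (c : Fin 4 → ℤ) {R : ℤ} (hc : ∀ k, |(c ᵥ* M) k| ≤ R) : |c ⬝ᵥ x| ≤ 4 * R := by
  obtain ⟨u, hu, hxu⟩ := hx
  have e : ((c ⬝ᵥ x : ℤ) : ℝ) = ∑ k, (((c ᵥ* M) k : ℤ) : ℝ) * u k := by
    have e1 : ((c ⬝ᵥ x : ℤ) : ℝ) = vc ℝ c ⬝ᵥ vc ℝ x := by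
      simp [dotProduct, vc]
    rw [e1, hxu, Matrix.dotProduct_mulVec]
    simp [dotProduct, vc, mc, Matrix.vecMul]
  have h1 : |((c ⬝ᵥ x : ℤ) : ℝ)| ≤ 4 * (R : ℝ) := by
    rw [e]
    refine (Finset.abs_sum_le_sum_abs _ _).trans ?_
    have h2 : ∀ k ∈ (Finset.univ : Finset (Fin 4)),
        |(((c ᵥ* M) k : ℤ) : ℝ) * u k| ≤ (R : ℝ) := fun k _ => by
      rw [abs_mul]
      have a1 : |(((c ᵥ* M) k : ℤ) : ℝ)| ≤ (R : ℝ) := by exact_mod_cast hc k
      exact (mul_le_of_le_one_right (abs_nonneg _) (hu k)).trans a1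
    have h3 := Finset.sum_le_card_nsmul _ _ _ h2
    simpa using h3
  exact_mod_cast h1

theorem planes_ex (M : Matrix (Fin 4) (Fin 4) ℤ) (hM : M.det ≠ 0) :
    ∃ r : ℕ, ∃ S : Finset (Fin 4 → ℤ), (∀ c ∈ S, ∀ k, |(c ᵥ* M) k| ≤ 2 ^ r) ∧
      8 * 2 ^ r + 1 < S.card := by
  obtain ⟨r, hr⟩ := pow_unbounded_of_one_lt (9 * |((M.det : ℤ) : ℝ)|) (one_lt_two (α := ℝ))
  obtain ⟨S, hS, h1⟩ := box_lower M hM (2 ^ r)
  refine ⟨r, S, fun c hc k => by exact_mod_cast hS c hc k, ?_⟩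
  by_contra h0
  have h2 : (S.card : ℝ) ≤ 8 * 2 ^ r + 1 := by exact_mod_cast not_lt.1 h0
  rw [Nat.cast_pow, Nat.cast_ofNat] at h1
  have h3 : (1 : ℝ) ≤ 2 ^ r := one_le_pow₀ one_le_two
  generalize (2 : ℝ) ^ r = t at *
  have h4 := abs_nonneg ((M.det : ℤ) : ℝ)
  generalize |((M.det : ℤ) : ℝ)| = D at *
  have h5 : D * (S.card : ℝ) ≤ D * (9 * t) := mul_le_mul_of_nonneg_left (by linarith) h4
  have h6 : t ^ 2 ≤ (t + 1) ^ 4 := by nlinarith [sq_nonneg t, sq_nonneg (t ^ 2), pow_pos (by linarith : 0 < t) 3]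
  nlinarith

theorem planes : ∃ K : ℝ, 1 ≤ K ∧ ∀ M : Matrix (Fin 4) (Fin 4) ℤ, M.det ≠ 0 → ∃ r : ℕ,
    (8 : ℝ) ^ r ≤ K * |((M.det : ℤ) : ℝ)| ∧
    (∀ x : Fin 4 → ℤ, InBox M x → ∃ c : Fin 4 → ℤ, Prim c ∧ c ⬝ᵥ x = 0 ∧
      ∀ k, |(c ᵥ* M) k| ≤ 2 ^ r) ∧
    ∀ i ≤ r, ∀ S : Finset (Fin 4 → ℤ), (∀ c ∈ S, ∀ k, |(c ᵥ* M) k| ≤ 2 ^ i) →
      (S.card : ℝ) ≤ K * 2 ^ i := by
  classical
  refine ⟨9 ^ 5, by norm_num, fun M hM => ?_⟩
  have hex := planes_ex M hM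
  have hD : (1 : ℝ) ≤ |((M.det : ℤ) : ℝ)| := by exact_mod_cast Int.one_le_abs hM
  obtain ⟨S₀, hS₀, hc₀⟩ := Nat.find_spec hex
  have hmin : ∀ i < Nat.find hex, ∀ S : Finset (Fin 4 → ℤ),
      (∀ c ∈ S, ∀ k, |(c ᵥ* M) k| ≤ 2 ^ i) → (S.card : ℝ) ≤ 9 * 2 ^ i := fun i hi S hS => by
    have h1 := Nat.find_min hex hi
    have h2 : S.card ≤ 8 * 2 ^ i + 1 := not_lt.1 fun h => h1 ⟨S, hS, h⟩
    have h3 : (S.card : ℝ) ≤ 8 * 2 ^ i + 1 := by exact_mod_cast h2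
    have h4 : (1 : ℝ) ≤ 2 ^ i := one_le_pow₀ one_le_two
    linarith
  generalize Nat.find hex = r₀ at hS₀ hc₀ hmin
  refine ⟨r₀ + 1, ?_, ?_, ?_⟩
  · rcases r₀ with _ | j
    · norm_num
      linarith
    · obtain ⟨S, hS, h1⟩ := box_lower M hM (2 ^ j)
      have h2 := hmin j (Nat.lt_succ_self j) S fun c hc k => by exact_mod_cast hS c hc k
      rw [Nat.cast_pow, Nat.cast_ofNat] at h1
      have e : (8 : ℝ) ^ (j + 1 + 1) = 64 * ((2 : ℝ) ^ j) ^ 3 := by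
        rw [← pow_mul, mul_comm j 3, pow_mul]
        norm_num [pow_succ]
        ring
      rw [e]
      have h3 : (0 : ℝ) < 2 ^ j := by positivity
      generalize (2 : ℝ) ^ j = t at *
      generalize |((M.det : ℤ) : ℝ)| = D at *
      have h5 : D * (S.card : ℝ) ≤ D * (9 * t) := mul_le_mul_of_nonneg_left h2 (by linarith)
      have h6 : t ^ 4 ≤ (t + 1) ^ 4 := pow_le_pow_left₀ h3.le (by linarith) 4
      have h7 : t ^ 3 * t ≤ 9 * D * t := by nlinarith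
      have h8 : t ^ 3 ≤ 9 * D := le_of_mul_le_mul_right h7 h3
      linarith
  · intro x hx
    have hmap : ∀ c ∈ S₀, c ⬝ᵥ x ∈ Finset.Icc (-(4 * 2 ^ r₀) : ℤ) (4 * 2 ^ r₀) := fun c hc =>
      Finset.mem_Icc.2 (abs_le.1 (planes_dot hx c (hS₀ c hc)))
    have hlt : (Finset.Icc (-(4 * 2 ^ r₀) : ℤ) (4 * 2 ^ r₀)).card < S₀.card := by
      refine lt_of_le_of_lt (le_of_eq ?_) hc₀
      rw [Int.card_Icc]
      have e : (4 * 2 ^ r₀ + 1 - -(4 * 2 ^ r₀) : ℤ) = ((8 * 2 ^ r₀ + 1 : ℕ) : ℤ) := by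
        push_cast
        ring
      rw [e, Int.toNat_natCast]
    obtain ⟨c, hc, c', hc', hne, he⟩ := Finset.exists_ne_map_eq_of_card_lt_of_maps_to hlt hmap
    obtain ⟨k, y, hk, hy, hky⟩ := exists_prim (c - c') (sub_ne_zero.2 hne)
    refine ⟨y, hy, ?_, fun j => ?_⟩
    · have h1 : (c - c') ⬝ᵥ x = 0 := by rw [sub_dotProduct]; exact sub_eq_zero.2 he
      rw [hky, smul_dotProduct, smul_eq_mul] at h1
      exact (mul_eq_zero.1 h1).resolve_left hk.ne'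
    · have h1 : ((c - c') ᵥ* M) j = k * (y ᵥ* M) j := by
        rw [hky, Matrix.smul_vecMul, Pi.smul_apply, smul_eq_mul]
      rw [Matrix.sub_vecMul, Pi.sub_apply] at h1
      have h2 := (abs_sub _ _).trans (add_le_add (hS₀ c hc j) (hS₀ c' hc' j))
      rw [h1, abs_mul, abs_of_pos hk] at h2
      have h3 := abs_nonneg ((y ᵥ* M) j)
      rw [pow_succ]
      nlinarith
  · intro i hi S hS
    have h1 : (1 : ℝ) ≤ 2 ^ i := one_le_pow₀ one_le_two
    rcases lt_or_ge i r₀ with h | h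
    · have := hmin i h S hS
      linarith
    have hS' : ∀ c ∈ S, ∀ k, |(c ᵥ* M) k| ≤ 2 ^ (r₀ + 1) := fun c hc k =>
      (hS c hc k).trans (pow_le_pow_right₀ one_le_two hi)
    rcases r₀ with _ | j
    · have h2 : S.card ≤ (Fintype.piFinset fun _ : Fin 4 => Finset.Icc (-2 : ℤ) 2).card := by
        refine Finset.card_le_card_of_injOn (fun c => c ᵥ* M) (fun c hc => ?_)
          (planes_inj M hM).injOn
        rw [Finset.mem_coe, Fintype.mem_piFinset]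
        intro k
        exact Finset.mem_Icc.2 (abs_le.1 (by simpa using hS' c hc k))
      rw [Fintype.card_piFinset] at h2
      have h3 : S.card ≤ 625 := by simpa using h2
      have h4 : (S.card : ℝ) ≤ 625 := by exact_mod_cast h3
      linarith
    · have h2 := box_double M (R := 2 ^ j) (by positivity) (hmin j (Nat.lt_succ_self j)) S
        fun c hc k => (hS' c hc k).trans (le_of_eq (by ring))
      have h3 : (2 : ℝ) ^ j ≤ 2 ^ i := pow_le_pow_right₀ one_le_two (by omega)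
      linarith

end Pool.Agent.Lib.MP_af4c59_nt.H57
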