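import Pool.Agent.Lib.MP_af4c59_nt.H57Plane
import Pool.Agent.Lib.MP_af4c59_nt.H57Planes

/-!
Points in one cell, unimodular normalisation.
-/

set_option autoImplicit false

namespace Pool.Agent.Lib.MP_af4c59_nt.H57

open Matrix

/-- Four elements of `X` are independent. -/
def Full (X : Finset (Fin 4 → ℤ)) : Prop :=
  ∃ M : Matrix (Fin 4) (Fin 4) ℤ, M.det ≠ 0 ∧ ∀ k, (fun i => M i k) ∈ X

theorem exists_box {X : Finset (Fin 4 → ℤ)} (h : Full X) :
    ∃ M : Matrix (Fin 4) (Fin 4) ℤ, M.det ≠ 0 ∧ (∀ k, (fun i => M i k) ∈ X) ∧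
      ∀ x ∈ X, InBox M x := by
  obtain ⟨M, hM, hX⟩ := h
  let J : Matrix X (Fin 4) ℝ := Matrix.of fun x i => ((x.1 i : ℤ) : ℝ)
  have hsub : ∀ f : Fin 4 → X, J.submatrix f id =
      (mc ℝ (Matrix.of fun i k => (f k).1 i : Matrix (Fin 4) (Fin 4) ℤ))ᵀ := by
    intro f
    ext i k
    rfl
  have hR : Rk 4 J := by
    refine ⟨fun k => ⟨_, hX k⟩, id, ?_⟩
    rw [hsub, Matrix.det_transpose, mc_det]
    exact_mod_cast hM
  obtain ⟨f, R, h1, h2, h3, -⟩ := auerbach J hR
  refine ⟨Matrix.of fun i k => (f k).1 i, ?_, fun k => (f k).2, ?_⟩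
  · rw [hsub, Matrix.det_transpose, mc_det] at h1
    exact_mod_cast h1
  · intro x hx
    refine ⟨fun k => R ⟨x, hx⟩ k, fun k => h2 _ _, ?_⟩
    funext i
    have := congrFun (congrFun h3 ⟨x, hx⟩) i
    rw [Matrix.mul_apply] at this
    change J ⟨x, hx⟩ i = ∑ k, J (f k) i * R ⟨x, hx⟩ k
    rw [this]
    exact Finset.sum_congr rfl fun k _ => mul_comm _ _

theorem cell0_one_le {v : Fin 4 → ℤ} (hv : v ≠ 0) : 1 ≤ ‖vc ℝ v‖ := by
  obtain ⟨i, hi⟩ := Function.ne_iff.mp hv
  have h1 : (1 : ℝ) ≤ ‖vc ℝ v i‖ := by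
    rw [Real.norm_eq_abs]
    have : (1 : ℤ) ≤ |v i| := Int.one_le_abs hi
    unfold vc
    exact_mod_cast this
  exact h1.trans (norm_le_pi_norm _ i)

theorem cell0_ne {M : Matrix (Fin 4) (Fin 4) ℤ} (hM : M.det ≠ 0) {c : Fin 4 → ℤ} (hc : Prim c) :
    c ᵥ* M ≠ 0 := by
  intro h
  have h1 : c = 0 := Matrix.eq_zero_of_vecMul_eq_zero hM h
  obtain ⟨w, hw⟩ := hc
  rw [h1] at hw
  simp at hw

theorem cell0_ent {G M : Matrix (Fin 4) (Fin 4) ℤ} (a b : Fin 4) :
    (Mᵀ * G * M) a b = bf G (fun i => M i a) (fun i => M i b) := by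
  rw [Matrix.mul_assoc]
  rfl

theorem cell0 : ∃ f, SP f ∧ ∀ (N y : ℝ) (G : Matrix (Fin 4) (Fin 4) ℤ) (S j : ℕ)
    (X : Finset (Fin 4 → ℤ)), G.IsSymm → G.det.natAbs = S * j ^ 2 → Squarefree S → j ≠ 0 →
    1 ≤ y → y ≤ N → NoL G X → (∀ x ∈ X, ∀ x' ∈ X, |((bf G x x' : ℤ) : ℝ)| ≤ y) → Full X →
    (X.card : ℝ) ≤ f N * (√S + y / √S) := by
  classical
  obtain ⟨K, hK, hpl⟩ := planes
  obtain ⟨f0, hf0, hpc⟩ := planeCount
  refine ⟨fun N => 12 * K ^ 2 * ((lg (5 * K * N ^ 2) + 1) * f0 (5 * K * N ^ 2)),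
    ((SP_lg.mul hf0).comp (c := 5 * K) (by linarith) 2).cmul (by nlinarith), ?_⟩
  intro N y G S j X hG hD hS hj hy hyN hNo hb hF
  obtain ⟨M, hM, hMX, hbox⟩ := exists_box hF
  obtain ⟨r, hr, hc, hcard⟩ := hpl M hM
  have hent : Ent (mc ℝ (Mᵀ * G * M)) y := by
    intro a b
    have := hb _ (hMX a) _ (hMX b)
    rw [← cell0_ent] at this
    exact this
  have hS1 : (1 : ℝ) ≤ S := by exact_mod_cast Nat.one_le_iff_ne_zero.mpr hS.ne_zero
  have hj1 : (1 : ℝ) ≤ j := by exact_mod_cast Nat.one_le_iff_ne_zero.mpr hj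
  have hq1 : (1 : ℝ) ≤ √S := Real.one_le_sqrt.mpr hS1
  have hq0 : (0 : ℝ) < √S := by linarith
  have hqq : √S * √S = (S : ℝ) := Real.mul_self_sqrt (by linarith)
  have hN1 : 1 ≤ N := hy.trans hyN
  set q := √(S : ℝ) with hq
  set m := |((M.det : ℤ) : ℝ)| with hm
  have hm0 : 0 ≤ m := abs_nonneg _
  have hdet : m ^ 2 * (S * j ^ 2) ≤ 24 * y ^ 4 := by
    have h1 := hent.det_le
    rw [mc_det, Matrix.det_mul, Matrix.det_mul, Matrix.det_transpose] at h1
    have h2 : |((G.det : ℤ) : ℝ)| = S * j ^ 2 := by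
      rw [← Int.cast_abs, ← Nat.cast_natAbs, hD]
      push_cast
      rfl
    rw [Int.cast_mul, Int.cast_mul, abs_mul, abs_mul, h2, ← hm] at h1
    simp only [Fintype.card_fin, Nat.factorial] at h1
    norm_num at h1
    nlinarith
  have hmq : m * q ≤ 5 * y ^ 2 := by
    apply le_of_sq_le_sq _ (by positivity) |> fun h => h
    have h1 : (m * q) ^ 2 = m ^ 2 * S := by rw [mul_pow, sq q, hqq]
    have h2 : m ^ 2 * S ≤ m ^ 2 * (S * j ^ 2) := by
      have : (S : ℝ) ≤ S * j ^ 2 := le_mul_of_one_le_right (by linarith) (one_le_pow₀ hj1)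
      exact mul_le_mul_of_nonneg_left this (sq_nonneg _)
    have h3 : 0 ≤ y ^ 4 := by positivity
    nlinarith
  set W := q + y / q with hW
  have hyq : 0 ≤ y / q := by positivity
  have hW1 : 1 ≤ W := by linarith
  have hmW : m ≤ 5 * W ^ 3 := by
    have h1 : q * (y / q) ^ 2 ≤ W * W ^ 2 := by
      have a1 : q ≤ W := by linarith
      have a2 : y / q ≤ W := by linarith
      gcongr
    have h2 : q * (y / q) ^ 2 * q = y ^ 2 := by field_simp
    have h3 : m * q ≤ 5 * (q * (y / q) ^ 2) * q := by nlinarith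
    have h4 := le_of_mul_le_mul_right h3 hq0
    nlinarith
  have hrW : (2 : ℝ) ^ r ≤ 5 * K * W := by
    have h1 : ((2 : ℝ) ^ r) ^ 3 = 8 ^ r := by
      rw [← pow_mul, mul_comm, pow_mul]; norm_num
    have h2 : 5 * K ≤ (5 * K) ^ 3 := le_self_pow₀ (by linarith) (by norm_num)
    have h3 : ((2 : ℝ) ^ r) ^ 3 ≤ (5 * K * W) ^ 3 := by
      rw [h1, mul_pow]
      calc (8 : ℝ) ^ r ≤ K * m := hr
        _ ≤ K * (5 * W ^ 3) := by gcongr
        _ = 5 * K * W ^ 3 := by ring
        _ ≤ (5 * K) ^ 3 * W ^ 3 := by gcongr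
    exact le_of_pow_le_pow_left₀ (by norm_num) (by positivity) h3
  set N' := 5 * K * N ^ 2 with hN'
  have hrN : (2 : ℝ) ^ r ≤ N' := by
    have h1 : (2 : ℝ) ^ r ≤ 8 ^ r := by gcongr; norm_num
    have h2 : m ≤ 5 * y ^ 2 := by nlinarith
    calc (2 : ℝ) ^ r ≤ K * m := h1.trans hr
      _ ≤ K * (5 * y ^ 2) := by gcongr
      _ ≤ K * (5 * N ^ 2) := by gcongr
      _ = N' := by rw [hN']; ring
  have hyN' : y ≤ N' := by
    have : N ≤ N ^ 2 := by nlinarith
    nlinarith
  have hN'1 : 1 ≤ N' := hy.trans hyN'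
  have hf1 := hf0.one_le N' hN'1
  have hrl : r ≤ lg N' := by
    have := hrN.trans (le_two_pow_lg N')
    exact (pow_le_pow_iff_right₀ (by norm_num : (1 : ℝ) < 2)).mp this
  choose! c hc1 hc2 hc3 using fun x (hx : x ∈ X) => hc x (hbox x hx)
  have hnorm : ∀ x ∈ X, ‖vc ℝ (c x ᵥ* M)‖ ≤ 2 ^ r := by
    intro x hx
    refine (pi_norm_le_iff_of_nonneg (by positivity)).mpr fun k => ?_
    rw [Real.norm_eq_abs]
    unfold vc
    exact_mod_cast hc3 x hx k
  choose! lv hl1 hl2 hl3 using fun x (hx : x ∈ X) =>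
    exists_level one_pos (cell0_one_le (cell0_ne hM (hc1 x hx))) (L := r)
      (by rw [mul_one]; exact hnorm x hx)
  have hmain := card_le_fib (X := X) (J := (lg N' : ℝ) + 1) (n := 12 * K ^ 2 * f0 N' * W) lv
    (Finset.range (r + 1)) (fun x hx => Finset.mem_range.mpr (Nat.lt_succ_of_le (hl1 x hx)))
    (by rw [Finset.card_range]; exact_mod_cast Nat.succ_le_succ hrl) (by positivity) (by
      intro i hi C hC hCi
      have hir : i ≤ r := Nat.lt_succ_iff.mp (Finset.mem_range.mp hi)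
      have h2i : (0 : ℝ) < 2 ^ i := by positivity
      have h1 := card_le_fib (X := C) (J := K * 2 ^ (i + 1)) (n := f0 N' * (1 + y / (2 ^ i * q)))
        c (C.image c) (fun x hx => Finset.mem_image_of_mem c hx) (by
          have := hcard (min (i + 1) r) (min_le_right _ _) (C.image c) (by
            intro c' hc' k
            obtain ⟨x, hx, rfl⟩ := Finset.mem_image.mp hc'
            rcases le_total (i + 1) r with h | h
            · rw [min_eq_left h]
              have a1 := hl3 x (hC hx)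
              rw [hCi x hx, mul_one] at a1
              have a2 := (norm_le_pi_norm _ k).trans a1
              rw [Real.norm_eq_abs] at a2
              unfold vc at a2
              exact_mod_cast a2
            · rw [min_eq_right h]
              exact hc3 x (hC hx) k)
          refine this.trans ?_
          gcongr
          · norm_num
          · exact min_le_left _ _) (by positivity) (by
          intro c' hc' D hD' hDc
          obtain ⟨x, hx, rfl⟩ := Finset.mem_image.mp hc'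
          have a1 := hl2 x (hC hx)
          rw [hCi x hx, mul_one] at a1
          refine hpc N' y (2 ^ i) G M S j (c x) D hG hD hS hj hM hent hy hyN' (hc1 x (hC hx)) h2i
            a1 ((hnorm x (hC hx)).trans hrN) (hNo.sub (hD'.trans hC))
            (fun u hu v hv => hb u (hC (hD' hu)) v (hC (hD' hv))) ?_
          intro u hu
          exact ⟨by rw [← hDc u hu]; exact hc2 u (hC (hD' hu)), hbox u (hC (hD' hu))⟩)
      refine h1.trans ?_
      have h2 : K * 2 ^ (i + 1) * (f0 N' * (1 + y / (2 ^ i * q))) =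
          2 * K * f0 N' * (2 ^ i + y / q) := by
        rw [pow_succ]
        field_simp
      have h3 : (2 : ℝ) ^ i ≤ 2 ^ r := by gcongr; norm_num
      have h4 : (2 : ℝ) ^ i + y / q ≤ 6 * K * W := by nlinarith
      rw [h2]
      calc 2 * K * f0 N' * (2 ^ i + y / q) ≤ 2 * K * f0 N' * (6 * K * W) := by gcongr
        _ = _ := by ring)
  refine hmain.trans (le_of_eq ?_)
  ring

end Pool.Agent.Lib.MP_af4c59_nt.H57
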