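import Pool.Agent.Lib.MP_af4c59_nt.H57Gram

/-!
Lines on a diagonal quadric surface.
-/

set_option autoImplicit false

namespace Pool.Agent.Lib.MP_af4c59_nt.H57

open Matrix

variable {K : Type} [Field K] {d a b a' b' : Fin 4 → K} {l l' : K}

/-- The line through `a` and `b` lies on the quadric. -/
def OnQ (d a b : Fin 4 → K) : Prop :=
  bf (Matrix.diagonal d) a a = 0 ∧ bf (Matrix.diagonal d) a b = 0 ∧ bf (Matrix.diagonal d) b b = 0

theorem line_all {p : Fin 4 → Prop} (h0 : p 0) (h1 : p 1) (h2 : p 2) (h3 : p 3) : ∀ i, p i := by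
  intro i
  fin_cases i
  exacts [h0, h1, h2, h3]

theorem line_bf (d x y : Fin 4 → K) : bf (Matrix.diagonal d) x y =
    d 0 * x 0 * y 0 + d 1 * x 1 * y 1 + d 2 * x 2 * y 2 + d 3 * x 3 * y 3 := by
  rw [bf_diag, Fin.sum_univ_four]

theorem line_rul : Rul d a b l ↔
    d 0 * (b 3 * a 0 - a 3 * b 0) = l * (a 1 * b 2 - a 2 * b 1) ∧
      d 1 * (b 3 * a 1 - a 3 * b 1) = l * (a 2 * b 0 - a 0 * b 2) ∧
        d 2 * (b 3 * a 2 - a 3 * b 2) = l * (a 0 * b 1 - a 1 * b 0) := by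
  refine ⟨fun h => ⟨h 0, h 1, h 2⟩, fun h i => ?_⟩
  fin_cases i
  exacts [h.1, h.2.1, h.2.2]

theorem line_sq (h : OnQ d a b) :
    d 1 * d 2 * (a 1 * b 2 - a 2 * b 1) ^ 2 = d 0 * d 3 * (b 3 * a 0 - a 3 * b 0) ^ 2 ∧
      d 0 * d 2 * (a 2 * b 0 - a 0 * b 2) ^ 2 = d 1 * d 3 * (b 3 * a 1 - a 3 * b 1) ^ 2 ∧
        d 0 * d 1 * (a 0 * b 1 - a 1 * b 0) ^ 2 = d 2 * d 3 * (b 3 * a 2 - a 3 * b 2) ^ 2 := by
  obtain ⟨h1, h2, h3⟩ := h
  rw [line_bf] at h1 h2 h3
  refine ⟨?_, ?_, ?_⟩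
  · linear_combination (d 1 * a 1 * a 1 + d 2 * a 2 * a 2) * h3 -
      (d 0 * b 0 * b 0 + d 3 * b 3 * b 3) * h1 -
      (d 1 * a 1 * b 1 + d 2 * a 2 * b 2 - d 0 * a 0 * b 0 - d 3 * a 3 * b 3) * h2
  · linear_combination (d 0 * a 0 * a 0 + d 2 * a 2 * a 2) * h3 -
      (d 1 * b 1 * b 1 + d 3 * b 3 * b 3) * h1 -
      (d 0 * a 0 * b 0 + d 2 * a 2 * b 2 - d 1 * a 1 * b 1 - d 3 * a 3 * b 3) * h2
  · linear_combination (d 0 * a 0 * a 0 + d 1 * a 1 * a 1) * h3 -
      (d 2 * b 2 * b 2 + d 3 * b 3 * b 3) * h1 -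
      (d 0 * a 0 * b 0 + d 1 * a 1 * b 1 - d 2 * a 2 * b 2 - d 3 * a 3 * b 3) * h2

theorem line_cross (h : OnQ d a b) :
    d 0 * (b 3 * a 0 - a 3 * b 0) * (a 2 * b 0 - a 0 * b 2) =
        d 1 * (b 3 * a 1 - a 3 * b 1) * (a 1 * b 2 - a 2 * b 1) ∧
      d 0 * (b 3 * a 0 - a 3 * b 0) * (a 0 * b 1 - a 1 * b 0) =
        d 2 * (b 3 * a 2 - a 3 * b 2) * (a 1 * b 2 - a 2 * b 1) ∧
      d 1 * (b 3 * a 1 - a 3 * b 1) * (a 0 * b 1 - a 1 * b 0) =
        d 2 * (b 3 * a 2 - a 3 * b 2) * (a 2 * b 0 - a 0 * b 2) := by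
  obtain ⟨h1, h2, h3⟩ := h
  rw [line_bf] at h1 h2 h3
  refine ⟨?_, ?_, ?_⟩
  · linear_combination a 2 * (b 3 * h2 - a 3 * h3) - b 2 * (b 3 * h1 - a 3 * h2)
  · linear_combination b 1 * (b 3 * h1 - a 3 * h2) - a 1 * (b 3 * h2 - a 3 * h3)
  · linear_combination a 0 * (b 3 * h2 - a 3 * h3) - b 0 * (b 3 * h1 - a 3 * h2)

theorem line_cr_ne (hd : ∀ i, d i ≠ 0) (h : OnQ d a b) (hn : NP a b) :
    a 1 * b 2 - a 2 * b 1 ≠ 0 ∨ a 2 * b 0 - a 0 * b 2 ≠ 0 ∨ a 0 * b 1 - a 1 * b 0 ≠ 0 := by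
  by_contra hc
  simp only [not_or, not_not] at hc
  obtain ⟨n0, n1, n2⟩ := hc
  obtain ⟨s0, s1, s2⟩ := line_sq h
  rw [n0] at s0
  rw [n1] at s1
  rw [n2] at s2
  have key : ∀ {c e z : K}, e ≠ 0 → c * 0 ^ 2 = e * d 3 * z ^ 2 → z = 0 := fun he hz =>
    pow_eq_zero_iff (two_ne_zero) |>.1 ((mul_eq_zero.1 (hz.symm.trans (by ring))).resolve_left
      (mul_ne_zero he (hd 3)))
  have z0 := key (hd 0) s0
  have z1 := key (hd 1) s1
  have z2 := key (hd 2) s2
  obtain ⟨i, j, hij⟩ := hn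
  refine hij (line_all (p := fun i => ∀ j, a i * b j = a j * b i) (line_all ?_ ?_ ?_ ?_)
    (line_all ?_ ?_ ?_ ?_) (line_all ?_ ?_ ?_ ?_) (line_all ?_ ?_ ?_ ?_) i j)
  · rfl
  · linear_combination n2
  · linear_combination -n1
  · linear_combination z0
  · linear_combination -n2
  · rfl
  · linear_combination n0
  · linear_combination z1
  · linear_combination n1
  · linear_combination -n0
  · rfl
  · linear_combination z2
  · linear_combination -z0
  · linear_combination -z1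
  · linear_combination -z2
  · rfl

theorem line_term {e c f z z' n n' ε : K} (he : e ≠ 0) (h : e * z = l * n)
    (h' : e * z' = ε * l * n') (hε : ε ^ 2 = 1) (hl : l ^ 2 * f = e * c) :
    c * n * n' = ε * (f * (e * z * z')) :=
  mul_left_cancel₀ he (by
    linear_combination (-n * n') * hl - ε * f * (e * z') * h - ε * f * (l * n) * h' -
      f * l ^ 2 * n * n' * hε)

theorem line_dd {ε : K} (hd : ∀ i, d i ≠ 0) (h : Rul d a b l) (h' : Rul d a' b' (ε * l))
    (hε : ε ^ 2 = 1) (hl : l ^ 2 * d 3 = d 0 * d 1 * d 2) :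
    dd (Matrix.diagonal d) a b a' b' =
      (1 + ε) * d 3 * bf (Matrix.diagonal d) (zv a b) (zv a' b') := by
  obtain ⟨h0, h1, h2⟩ := line_rul.1 h
  obtain ⟨k0, k1, k2⟩ := line_rul.1 h'
  have t0 := line_term (c := d 1 * d 2) (f := d 3) (hd 0) h0 k0 hε (by rw [hl]; ring)
  have t1 := line_term (c := d 0 * d 2) (f := d 3) (hd 1) h1 k1 hε (by rw [hl]; ring)
  have t2 := line_term (c := d 0 * d 1) (f := d 3) (hd 2) h2 k2 hε (by rw [hl]; ring)
  simp only [dd, line_bf, zv, Pi.sub_apply, Pi.smul_apply, smul_eq_mul]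
  linear_combination t0 + t1 + t2

theorem line_zv3 (d a b a' b' : Fin 4 → K) :
    bf (Matrix.diagonal d) (zv a b) (zv a' b') =
      bf (Matrix.diagonal fun i : Fin 3 => d i.castSucc) (fun i => zv a b i.castSucc)
        (fun i => zv a' b' i.castSucc) := by
  have h : zv a b (Fin.last 3) = 0 := by
    show b 3 * a 3 - a 3 * b 3 = 0
    ring
  rw [bf_diag, bf_diag, Fin.sum_univ_castSucc, h, mul_zero, zero_mul, add_zero]

theorem line_iso (h : OnQ d a b) : bf (Matrix.diagonal d) (zv a b) (zv a b) = 0 := by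
  obtain ⟨h1, h2, h3⟩ := h
  rw [line_bf] at h1 h2 h3
  simp only [line_bf, zv, Pi.sub_apply, Pi.smul_apply, smul_eq_mul]
  linear_combination b 3 ^ 2 * h1 - 2 * a 3 * b 3 * h2 + a 3 ^ 2 * h3

theorem line_zne (hd : ∀ i, d i ≠ 0) (hq : OnQ d a b) (hn : NP a b) (h : Rul d a b l)
    (hl : l ≠ 0) : ∃ k : Fin 3, zv a b k.castSucc ≠ 0 := by
  have key : ∀ k : Fin 3, cr a b k ≠ 0 → zv a b k.castSucc ≠ 0 := fun k hk hz =>
    mul_ne_zero hl hk (by rw [← h k, hz, mul_zero])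
  rcases line_cr_ne hd hq hn with k | k | k
  exacts [⟨0, key 0 k⟩, ⟨1, key 1 k⟩, ⟨2, key 2 k⟩]

theorem line_span {κ : K} (hn : NP a b) (hκ : κ ≠ 0)
    (h : ∀ i j, a' i * b' j - a' j * b' i = κ * (a i * b j - a j * b i)) :
    (∃ p q : K, a' = p • a + q • b) ∧ ∃ p q : K, b' = p • a + q • b := by
  obtain ⟨i, j, hij⟩ := hn
  have h0 : a i * b j - a j * b i ≠ 0 := sub_ne_zero.2 hij
  have key : ∀ x : Fin 4 → K, (∀ k, x i * (a' j * b' k - a' k * b' j) +
      x j * (a' k * b' i - a' i * b' k) + x k * (a' i * b' j - a' j * b' i) = 0) →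
      ∃ p q : K, x = p • a + q • b := by
    intro x hx
    refine ⟨(x i * b j - x j * b i) / (a i * b j - a j * b i),
      (x j * a i - x i * a j) / (a i * b j - a j * b i), funext fun k => ?_⟩
    have h1 := hx k
    rw [h, h, h] at h1
    simp only [Pi.add_apply, Pi.smul_apply, smul_eq_mul]
    rw [div_mul_eq_mul_div, div_mul_eq_mul_div, ← add_div, eq_div_iff h0]
    apply mul_left_cancel₀ hκ
    linear_combination h1
  exact ⟨key a' fun k => by ring, key b' fun k => by ring⟩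

theorem rul_exists (hd : ∀ i, d i ≠ 0) (h : OnQ d a b) (hn : NP a b) :
    ∃ l, Rul d a b l ∧ l ^ 2 * d 3 = d 0 * d 1 * d 2 := by
  obtain ⟨s0, s1, s2⟩ := line_sq h
  obtain ⟨c01, c02, c12⟩ := line_cross h
  rcases line_cr_ne hd h hn with k | k | k
  · refine ⟨d 0 * (b 3 * a 0 - a 3 * b 0) / (a 1 * b 2 - a 2 * b 1), line_rul.2 ⟨?_, ?_, ?_⟩, ?_⟩
    · rw [div_mul_cancel₀ _ k]
    · rw [div_mul_eq_mul_div, eq_div_iff k]; exact c01.symm
    · rw [div_mul_eq_mul_div, eq_div_iff k]; exact c02.symm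
    · rw [div_pow, div_mul_eq_mul_div, div_eq_iff (pow_ne_zero 2 k)]
      linear_combination (-d 0) * s0
  · refine ⟨d 1 * (b 3 * a 1 - a 3 * b 1) / (a 2 * b 0 - a 0 * b 2), line_rul.2 ⟨?_, ?_, ?_⟩, ?_⟩
    · rw [div_mul_eq_mul_div, eq_div_iff k]; exact c01
    · rw [div_mul_cancel₀ _ k]
    · rw [div_mul_eq_mul_div, eq_div_iff k]; exact c12.symm
    · rw [div_pow, div_mul_eq_mul_div, div_eq_iff (pow_ne_zero 2 k)]
      linear_combination (-d 1) * s1
  · refine ⟨d 2 * (b 3 * a 2 - a 3 * b 2) / (a 0 * b 1 - a 1 * b 0), line_rul.2 ⟨?_, ?_, ?_⟩, ?_⟩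
    · rw [div_mul_eq_mul_div, eq_div_iff k]; exact c02
    · rw [div_mul_eq_mul_div, eq_div_iff k]; exact c12
    · rw [div_mul_cancel₀ _ k]
    · rw [div_pow, div_mul_eq_mul_div, div_eq_iff (pow_ne_zero 2 k)]
      linear_combination (-d 2) * s2

theorem rul_comb (h : Rul d a b l) (p q r s : K) : Rul d (p • a + q • b) (r • a + s • b) l := by
  obtain ⟨h0, h1, h2⟩ := line_rul.1 h
  refine line_rul.2 ⟨?_, ?_, ?_⟩ <;> simp only [Pi.add_apply, Pi.smul_apply, smul_eq_mul]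
  · linear_combination (p * s - q * r) * h0
  · linear_combination (p * s - q * r) * h1
  · linear_combination (p * s - q * r) * h2

theorem rul_same (hd : ∀ i, d i ≠ 0) (h : Rul d a b l) (h' : Rul d a' b' l)
    (hl : l ^ 2 * d 3 = d 0 * d 1 * d 2) :
    dd (Matrix.diagonal d) a b a' b' = 2 * d 3 * bf (Matrix.diagonal d) (zv a b) (zv a' b') := by
  rw [line_dd (ε := 1) hd h (by rwa [one_mul]) (by ring) hl]
  ring

theorem rul_opp (hd : ∀ i, d i ≠ 0) (h : Rul d a b l) (h' : Rul d a' b' (-l))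
    (hl : l ^ 2 * d 3 = d 0 * d 1 * d 2) : dd (Matrix.diagonal d) a b a' b' = 0 := by
  rw [line_dd (ε := -1) hd h (by rwa [neg_one_mul]) (by ring) hl]
  ring

/-- Two lines of one ruling with vanishing pairing determinant are equal. -/
theorem rul_plane [CharZero K] (hd : ∀ i, d i ≠ 0) (hq : OnQ d a b) (hn : NP a b)
    (hq' : OnQ d a' b') (hn' : NP a' b') (h : Rul d a b l) (h' : Rul d a' b' l)
    (hl : l ^ 2 * d 3 = d 0 * d 1 * d 2) (h0 : dd (Matrix.diagonal d) a b a' b' = 0) :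
    (∃ p q : K, a' = p • a + q • b) ∧ ∃ p q : K, b' = p • a + q • b := by
  have hl0 : l ≠ 0 := by
    rintro rfl
    exact mul_ne_zero (mul_ne_zero (hd 0) (hd 1)) (hd 2) (by rw [← hl]; ring)
  rw [rul_same hd h h' hl, line_zv3] at h0
  have h1 := (mul_eq_zero.1 h0).resolve_left (mul_ne_zero two_ne_zero (hd 3))
  have h2 : ¬ NP (fun i : Fin 3 => zv a b i.castSucc) fun i : Fin 3 => zv a' b' i.castSucc :=
    fun hh => isoNP (Matrix.isSymm_diagonal _)
      (by rw [Matrix.det_diagonal]; exact Finset.prod_ne_zero_iff.2 fun i _ => hd _)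
      (by rw [← line_zv3]; exact line_iso hq) (by rw [← line_zv3]; exact line_iso hq') hh h1
  simp only [NP, not_exists, not_not] at h2
  obtain ⟨k, hk⟩ := line_zne hd hq hn h hl0
  obtain ⟨k', hk'⟩ := line_zne hd hq' hn' h' hl0
  obtain ⟨κ, hκ⟩ : ∃ κ : K, ∀ j : Fin 3, zv a' b' j.castSucc = κ * zv a b j.castSucc :=
    ⟨zv a' b' k.castSucc / zv a b k.castSucc, fun j => by
      rw [div_mul_eq_mul_div, eq_div_iff hk]
      linear_combination h2 k j⟩
  have hκ0 : κ ≠ 0 := by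
    rintro rfl
    exact hk' (by rw [hκ, zero_mul])
  have hc : ∀ j : Fin 3, cr a' b' j = κ * cr a b j := fun j =>
    mul_left_cancel₀ hl0 (by linear_combination κ * h j - h' j + d j.castSucc * hκ j)
  have z0 : b' 3 * a' 0 - a' 3 * b' 0 = κ * (b 3 * a 0 - a 3 * b 0) := hκ 0
  have z1 : b' 3 * a' 1 - a' 3 * b' 1 = κ * (b 3 * a 1 - a 3 * b 1) := hκ 1
  have z2 : b' 3 * a' 2 - a' 3 * b' 2 = κ * (b 3 * a 2 - a 3 * b 2) := hκ 2
  have n0 : a' 1 * b' 2 - a' 2 * b' 1 = κ * (a 1 * b 2 - a 2 * b 1) := hc 0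
  have n1 : a' 2 * b' 0 - a' 0 * b' 2 = κ * (a 2 * b 0 - a 0 * b 2) := hc 1
  have n2 : a' 0 * b' 1 - a' 1 * b' 0 = κ * (a 0 * b 1 - a 1 * b 0) := hc 2
  refine line_span hn hκ0 (line_all (line_all ?_ ?_ ?_ ?_) (line_all ?_ ?_ ?_ ?_)
    (line_all ?_ ?_ ?_ ?_) (line_all ?_ ?_ ?_ ?_))
  · ring
  · linear_combination n2
  · linear_combination -n1
  · linear_combination z0
  · linear_combination -n2
  · ring
  · linear_combination n0
  · linear_combination z1
  · linear_combination n1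
  · linear_combination -n0
  · ring
  · linear_combination z2
  · linear_combination -z0
  · linear_combination -z1
  · linear_combination -z2
  · ring

theorem dd_comb {n : Type} [Fintype n] (A : Matrix n n K) (a b a' b' : n → K)
    (p q r s p' q' r' s' : K) :
    dd A (p • a + q • b) (r • a + s • b) (p' • a' + q' • b') (r' • a' + s' • b') =
      (p * s - q * r) * (p' * s' - q' * r') * dd A a b a' b' := by
  simp only [dd, bf_add_left, bf_add_right, bf_smul_left, bf_smul_right]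
  ring

theorem dd_of_not_NP {n : Type} [Fintype n] (A : Matrix n n K) {a b : n → K} (h : ¬ NP a b)
    (a' b' : n → K) : dd A a b a' b' = 0 ∧ dd A a' b' a b = 0 := by
  simp only [NP, not_exists, not_not] at h
  have key : ∀ u v : n → K, (a ⬝ᵥ u) * (b ⬝ᵥ v) = (a ⬝ᵥ v) * (b ⬝ᵥ u) := by
    intro u v
    simp only [dotProduct, Finset.sum_mul_sum]
    rw [Finset.sum_comm]
    exact Finset.sum_congr rfl fun i _ => Finset.sum_congr rfl fun j _ => by
      linear_combination (u j * v i) * h j i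
  constructor
  · rw [dd, bf, bf, bf, bf, key, sub_self]
  · simp only [dd, bf, Matrix.dotProduct_mulVec]
    rw [dotProduct_comm _ a, dotProduct_comm _ b, dotProduct_comm _ b, dotProduct_comm _ a, key]
    ring

theorem lineId (hd : ∀ i, d i ≠ 0) (h : OnQ d a b) (h' : OnQ d a' b') :
    dd (Matrix.diagonal d) a b a' b' = 0 ∨
      dd (Matrix.diagonal d) a b a' b' =
        2 * d 3 * bf (Matrix.diagonal d) (zv a b) (zv a' b') := by
  by_cases hn : NP a b
  · by_cases hn' : NP a' b'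
    · obtain ⟨l, h1, h2⟩ := rul_exists hd h hn
      obtain ⟨l', h1', h2'⟩ := rul_exists hd h' hn'
      rcases sq_eq_sq_iff_eq_or_eq_neg.1 (mul_right_cancel₀ (hd 3) (h2'.trans h2.symm)) with
        rfl | rfl
      · exact Or.inr (rul_same hd h1 h1' h2)
      · exact Or.inl (rul_opp hd h1 h1' h2)
    · exact Or.inl (dd_of_not_NP _ hn' a b).2
  · exact Or.inl (dd_of_not_NP _ hn a' b').1

theorem bf_zv (A : Matrix (Fin 4) (Fin 4) K) (a b a' b' : Fin 4 → K) :
    bf A (zv a b) (zv a' b') = b 3 * b' 3 * bf A a a' - b 3 * a' 3 * bf A a b' -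
      a 3 * b' 3 * bf A b a' + a 3 * a' 3 * bf A b b' := by
  simp only [zv, bf_sub_left, bf_sub_right, bf_smul_left, bf_smul_right]
  ring

/-- The ternary model of the points with last coordinate zero. -/
theorem bf_zv3 (d a b a' b' : Fin 4 → K) :
    bf (Matrix.diagonal d) (zv a b) (zv a' b') =
      bf (Matrix.diagonal fun i : Fin 3 => d i.castSucc) (fun i => zv a b i.castSucc)
        (fun i => zv a' b' i.castSucc) := by
  exact line_zv3 d a b a' b'

end Pool.Agent.Lib.MP_af4c59_nt.H57
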