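import Pool.Agent.Lib.MP_af4c59_nt.H57CoreR
import Pool.Agent.Lib.MP_af4c59_nt.H57Line

/-!
Points on one line.
-/

set_option autoImplicit false

namespace Pool.Agent.Lib.MP_af4c59_nt.H57

open Matrix

theorem richa_level {A : Matrix (Fin 4) (Fin 4) ℤ} {P : Matrix (Fin 4) (Fin 4) ℝ}
    {ν : Fin 4 → ℝ} {X C : Finset (Fin 4 → ℤ)} {N B H R : ℝ} {p q : Fin 4 → ℝ}
    (h : QD A P ν X N B H) (hz : ∀ x ∈ X, ∃ a b : ℝ, P *ᵥ vc ℝ x = a • p + b • q)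
    (ho : ∀ x ∈ X, ∀ y ∈ X, bf A x y = 0) (hC : C ⊆ X) (hR : 0 < R)
    (hl : ∀ x ∈ C, R ≤ ‖P *ᵥ vc ℝ x‖ ∧ ‖P *ᵥ vc ℝ x‖ ≤ 2 * R) :
    (C.card : ℝ) ≤ 640 * ((lg (8 * N ^ 1) : ℝ) + 1) * (1 + B ^ 2 / H) := by
  have hB := h.Bpos
  have hH := h.Hpos
  have hσ : 0 < H * R ^ 2 / B ^ 2 := by positivity
  have hq : 8 * R ^ 2 / (H * R ^ 2 / B ^ 2) = 8 * (B ^ 2 / H) := by field_simp
  have hBN : B ^ 2 / H ≤ N := by rw [div_le_iff₀ hH]; exact h.HN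
  have hL : 8 * R ^ 2 ≤ 2 ^ lg (8 * N ^ 1) * (H * R ^ 2 / B ^ 2) := by
    rw [← div_le_iff₀ hσ, hq]
    refine le_trans ?_ (le_two_pow_lg _)
    rw [pow_one]
    linarith
  have key := packDet (X := C) (L := lg (8 * N ^ 1)) p q (fun x => P *ᵥ vc ℝ x)
    (fun x hx => hz x (hC hx)) hσ (show 0 ≤ 8 * R ^ 2 by positivity) (fun x hx y hy hxy => by
      have h1 := h.line x (hC hx) y (hC hy) hxy (ho x (hC hx) y (hC hy))
      have h2 : R ^ 2 ≤ ‖P *ᵥ vc ℝ x‖ ^ 2 := pow_le_pow_left₀ hR.le (hl x hx).1 2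
      rw [div_le_iff₀ (by positivity)]
      nlinarith) (fun x hx y hy => by
      refine (ar_le _ _).trans ?_
      have h1 := mul_le_mul (hl x hx).2 (hl y hy).2 (norm_nonneg _) (by positivity)
      nlinarith) hL
  rw [hq] at key
  refine key.trans ?_
  have h0 : 0 ≤ B ^ 2 / H := by positivity
  have h1 : (0 : ℝ) ≤ lg (8 * N ^ 1) := Nat.cast_nonneg _
  have h2 : 2 * (lg (8 * N ^ 1) : ℝ) + 5 ≤ 5 * ((lg (8 * N ^ 1) : ℝ) + 1) := by linarith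
  have h3 : 16 * (8 * (B ^ 2 / H)) + 2 ≤ 128 * (1 + B ^ 2 / H) := by linarith
  refine (mul_le_mul h2 h3 (by positivity) (by positivity)).trans (le_of_eq ?_)
  ring

/-- Points on one line. -/
theorem lineCount : ∃ f, SP f ∧ ∀ (A : Matrix (Fin 4) (Fin 4) ℤ) (P : Matrix (Fin 4) (Fin 4) ℝ)
    (ν : Fin 4 → ℝ) (X : Finset (Fin 4 → ℤ)) (N B H : ℝ) (p q : Fin 4 → ℝ), QD A P ν X N B H →
    (∀ x ∈ X, ∃ a b : ℝ, P *ᵥ vc ℝ x = a • p + b • q) → (∀ x ∈ X, ∀ y ∈ X, bf A x y = 0) →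
    (X.card : ℝ) ≤ f N * (1 + B ^ 2 / H) := by
  refine ⟨fun x => ((lg x : ℝ) + 1) * (640 * ((lg (8 * x ^ 1) : ℝ) + 1)),
    SP_lg.mul ((SP_lg.comp (by norm_num) 1).cmul (by norm_num)), ?_⟩
  intro A P ν X N B H p q h hz ho
  have hB := h.Bpos
  have hH := h.Hpos
  have hN : 0 < N := lt_of_lt_of_le one_pos h.oneN
  have ha : 0 < B / N := by positivity
  have hex : ∀ x ∈ X, ∃ i : ℕ, i ≤ lg N ∧ 2 ^ i * (B / N) ≤ ‖P *ᵥ vc ℝ x‖ ∧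
      ‖P *ᵥ vc ℝ x‖ ≤ 2 ^ (i + 1) * (B / N) := by
    intro x hx
    refine exists_level ha ?_ ?_
    · rw [div_le_iff₀ hN, mul_comm]; exact h.lo x hx
    · refine (h.bd x hx).trans ?_
      have h1 := mul_le_mul_of_nonneg_right (le_two_pow_lg N) ha.le
      rwa [mul_div_cancel₀ _ hN.ne'] at h1
  choose! c hc using hex
  have key := card_le_fib (X := X) (J := (lg N : ℝ) + 1)
    (n := 640 * ((lg (8 * N ^ 1) : ℝ) + 1) * (1 + B ^ 2 / H)) c (Finset.range (lg N + 1))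
    (fun x hx => Finset.mem_range.2 (Nat.lt_succ_of_le (hc x hx).1)) (by simp) (by positivity)
    (fun k _ C hC hk => richa_level (R := 2 ^ k * (B / N)) h hz ho hC (by positivity)
      fun x hx => by
        have h1 := (hc x (hC hx)).2
        rw [hk x hx] at h1
        refine ⟨h1.1, h1.2.trans (le_of_eq ?_)⟩
        ring)
  refine key.trans (le_of_eq ?_)
  ring

theorem richa_onq {A : Matrix (Fin 4) (Fin 4) ℤ} {P : Matrix (Fin 4) (Fin 4) ℝ}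
    {ν : Fin 4 → ℝ} {X : Finset (Fin 4 → ℤ)} {N B H : ℝ} (h : QD A P ν X N B H)
    {x y : Fin 4 → ℤ} (hx : x ∈ X) (hy : y ∈ X) (hxy : bf A x y = 0) :
    OnQ ν (P *ᵥ vc ℝ x) (P *ᵥ vc ℝ y) := by
  refine ⟨?_, ?_, ?_⟩
  · rw [← h.bf_eq, h.iso x hx, Int.cast_zero]
  · rw [← h.bf_eq, hxy, Int.cast_zero]
  · rw [← h.bf_eq, h.iso y hy, Int.cast_zero]

theorem richa_term {s t u B Y : ℝ} (hs : |s| ≤ B) (ht : |t| ≤ B) (hu : |u| ≤ Y) :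
    |s * t * u| ≤ B ^ 2 * Y := by
  have hB : 0 ≤ B := (abs_nonneg _).trans hs
  rw [abs_mul, abs_mul, sq]
  exact mul_le_mul (mul_le_mul hs ht (abs_nonneg _) hB) hu (abs_nonneg _) (mul_nonneg hB hB)

theorem realLine {A : Matrix (Fin 4) (Fin 4) ℤ} {P : Matrix (Fin 4) (Fin 4) ℝ} {ν : Fin 4 → ℝ}
    {X : Finset (Fin 4 → ℤ)} {N B H Y : ℝ} (h : QD A P ν X N B H) (h3 : ν 3 ≠ 0)
    (hY : ∀ x ∈ X, ∀ y ∈ X, |((bf A x y : ℤ) : ℝ)| ≤ Y) {a b a' b' : Fin 4 → ℤ} (ha : a ∈ X)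
    (hb : b ∈ X) (ha' : a' ∈ X) (hb' : b' ∈ X) (h1 : bf A a b = 0) (h2 : bf A a' b' = 0) :
    |((dd A a b a' b' : ℤ) : ℝ)| ≤ 8 * |ν 3| * B ^ 2 * Y := by
  have hν : ∀ i, ν i ≠ 0 := fun i h0 => by
    have := h.sorted i 3 (Fin.le_last i)
    rw [h0, abs_zero] at this
    exact h3 (abs_nonpos_iff.1 this)
  have hY0 : 0 ≤ Y := (abs_nonneg _).trans (hY a ha a ha)
  have e : ((dd A a b a' b' : ℤ) : ℝ) = dd (Matrix.diagonal ν)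
      (P *ᵥ vc ℝ a) (P *ᵥ vc ℝ b) (P *ᵥ vc ℝ a') (P *ᵥ vc ℝ b') := by
    unfold dd
    push_cast
    simp only [h.bf_eq]
  have hc : ∀ x ∈ X, |(P *ᵥ vc ℝ x) 3| ≤ B := fun x hx =>
    (Real.norm_eq_abs _ ▸ norm_le_pi_norm (P *ᵥ vc ℝ x) 3).trans (h.bd x hx)
  rw [e]
  rcases lineId hν (richa_onq h ha hb h1) (richa_onq h ha' hb' h2) with h0 | h0
  · rw [h0, abs_zero]; positivity
  · rw [h0, bf_zv, ← h.bf_eq, ← h.bf_eq, ← h.bf_eq, ← h.bf_eq, abs_mul, abs_mul, abs_two]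
    have t1 := abs_le.1 (richa_term (hc b hb) (hc b' hb') (hY a ha a' ha'))
    have t2 := abs_le.1 (richa_term (hc b hb) (hc a' ha') (hY a ha b' hb'))
    have t3 := abs_le.1 (richa_term (hc a ha) (hc b' hb') (hY b hb a' ha'))
    have t4 := abs_le.1 (richa_term (hc a ha) (hc a' ha') (hY b hb b' hb'))
    rw [show 8 * |ν 3| * B ^ 2 * Y = 2 * |ν 3| * (4 * (B ^ 2 * Y)) by ring]
    refine mul_le_mul_of_nonneg_left (abs_le.2 ⟨?_, ?_⟩) (by positivity)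
    · linarith [t1.1, t2.2, t3.2, t4.1]
    · linarith [t1.2, t2.1, t3.1, t4.2]

end Pool.Agent.Lib.MP_af4c59_nt.H57
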