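import Pool.Agent.Lib.MP_af4c59_nt.H57JordanP

/-!
Diagonalisation of symmetric matrices over the p-adic numbers.
-/

set_option autoImplicit false

namespace Pool.Agent.Lib.MP_af4c59_nt.H57

open Matrix

theorem jordan_pair {n : ℕ} {w : Fin (n + 2) → ℝ} (h0 : ∀ i, 0 ≤ w i)
    (hs : ∀ i j, i ≤ j → w j ≤ w i) {i j : Fin (n + 2)} (hij : i ≠ j) :
    w i * w j ≤ w 0 * w 1 := by
  have key : ∀ k l : Fin (n + 2), k < l → w k * w l ≤ w 0 * w 1 := fun k l hkl => by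
    have h1 : (1 : Fin (n + 2)) ≤ l := by
      rw [Fin.le_def, Fin.val_one]
      have := Fin.lt_def.1 hkl
      omega
    exact mul_le_mul (hs 0 k (Fin.zero_le k)) (hs 1 l h1) (h0 l) (h0 0)
  rcases lt_or_gt_of_ne hij with h | h
  · exact key i j h
  · rw [mul_comm]
    exact key j i h

theorem jordan_minor {p : ℕ} [Fact p.Prime] {n : ℕ}
    (L : Matrix (Fin (n + 2)) (Fin (n + 2)) ℚ_[p]) (d : Fin (n + 2) → ℚ_[p]) {E : ℝ}
    (hE : 0 ≤ E) (hL : ∀ i j, ‖L i j‖ ≤ E) (hs : ∀ i j, i ≤ j → ‖d j‖ ≤ ‖d i‖)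
    (f g : Fin 2 → Fin (n + 2)) :
    ‖((Lᵀ * Matrix.diagonal d * L).submatrix f g).det‖ ≤ E ^ 4 * (‖d 0‖ * ‖d 1‖) := by
  have hLL : ∀ i j k l, ‖L i j * L k l‖ ≤ E ^ 2 := fun i j k l => by
    rw [norm_mul, sq]
    exact mul_le_mul (hL i j) (hL k l) (norm_nonneg _) hE
  rw [Matrix.mul_assoc, det_mul_sub]
  refine IsUltrametricDist.norm_sum_le_of_forall_le_of_nonneg (by positivity) fun h _ => ?_
  have e1 : ((Matrix.diagonal d * L).submatrix h g).det =
      d (h 0) * d (h 1) * (L (h 0) (g 0) * L (h 1) (g 1) + -(L (h 0) (g 1) * L (h 1) (g 0))) := by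
    rw [Matrix.det_fin_two]
    simp only [Matrix.submatrix_apply, Matrix.diagonal_mul]
    ring
  rw [e1, Fin.prod_univ_two, Matrix.transpose_apply, Matrix.transpose_apply]
  by_cases hh : h 0 = h 1
  · have : L (h 0) (g 0) * L (h 1) (g 1) + -(L (h 0) (g 1) * L (h 1) (g 0)) = 0 := by
      rw [hh]; ring
    rw [this, mul_zero, mul_zero, norm_zero]
    positivity
  · have h1 : ‖L (h 0) (g 0) * L (h 1) (g 1) + -(L (h 0) (g 1) * L (h 1) (g 0))‖ ≤ E ^ 2 :=
      (Padic.nonarchimedean _ _).trans (max_le (hLL _ _ _ _) (by rw [norm_neg]; exact hLL _ _ _ _))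
    have h2 : ‖d (h 0) * d (h 1)‖ ≤ ‖d 0‖ * ‖d 1‖ := by
      rw [norm_mul]
      exact jordan_pair (w := fun i => ‖d i‖) (fun i => norm_nonneg _) hs hh
    rw [norm_mul, norm_mul (d (h 0) * d (h 1))]
    calc _ ≤ E ^ 2 * (‖d 0‖ * ‖d 1‖ * E ^ 2) :=
          mul_le_mul (hLL _ _ _ _) (mul_le_mul h2 h1 (norm_nonneg _) (by positivity))
            (by positivity) (by positivity)
      _ = _ := by ring

theorem jordan_zpow_sum {ι : Type} {x : ℝ} (hx : x ≠ 0) (s : Finset ι) (a : ι → ℤ) :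
    x ^ (∑ i ∈ s, a i) = ∏ i ∈ s, x ^ a i := by
  classical
  induction s using Finset.induction_on with
  | empty => simp
  | insert i s hi ih => rw [Finset.sum_insert hi, Finset.prod_insert hi, zpow_add₀ hx, ih]

theorem jordan_cast_det {K : Type} [CommRing K] {m k : Type} [Fintype k] [DecidableEq k]
    (A : Matrix m m ℤ) (f g : k → m) :
    ((mc K A).submatrix f g).det = (((A.submatrix f g).det : ℤ) : K) :=
  (Int.cast_det (A.submatrix f g)).symm

theorem jordanZ (p : ℕ) [Fact p.Prime] (n : ℕ) (A : Matrix (Fin (n + 2)) (Fin (n + 2)) ℤ)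
    (hA : A.IsSymm) (hD : A.det ≠ 0) {c : ℤ} (hc : c ≠ 0) (hg : GcdDvd 2 A c) :
    ∃ (L : Matrix (Fin (n + 2)) (Fin (n + 2)) ℚ_[p]) (d : Fin (n + 2) → ℚ_[p])
      (a : Fin (n + 2) → ℤ), mc ℚ_[p] A = Lᵀ * Matrix.diagonal d * L ∧
      (∀ (x : Fin (n + 2) → ℤ) (i : Fin (n + 2)),
        ‖(L *ᵥ vc ℚ_[p] x) i‖ ≤ (p : ℝ) ^ (e2v p : ℤ)) ∧
      (∀ i, ‖d i‖ = (p : ℝ) ^ (-a i)) ∧ Monotone a ∧
      ∑ i, a i = padicValNat p A.det.natAbs ∧ (∀ i, -((n + 2 : ℤ) * e2v p) ≤ a i) ∧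
      a 0 + a 1 ≤ padicValNat p c.natAbs + 4 * e2v p := by
  have hp1 : (1 : ℝ) < p := by exact_mod_cast (Fact.out : p.Prime).one_lt
  have hp0 : (0 : ℝ) < p := by linarith
  obtain ⟨L, d, hAL, hL, hdet, hs, hd⟩ := jordanP (n + 2) (mc ℚ_[p] A) (hA.map _) 1
    fun i j => Padic.norm_int_le_one (A i j)
  have hE : (0 : ℝ) < (p : ℝ) ^ (e2v p : ℤ) := zpow_pos hp0 _
  have hL' : ∀ i j, ‖L i j‖ ≤ (p : ℝ) ^ (e2v p : ℤ) := fun i j => by
    have h := hL i j
    rwa [norm_two, _root_.zpow_neg, inv_mul_le_iff₀ hE, mul_one] at h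
  have hdA : ((A.det : ℤ) : ℚ_[p]) = L.det * (∏ i, d i) * L.det := by
    have h := jordan_cast_det (K := ℚ_[p]) A id id
    rw [Matrix.submatrix_id_id, Matrix.submatrix_id_id] at h
    rw [← h, hAL, Matrix.det_mul, Matrix.det_mul, Matrix.det_transpose, Matrix.det_diagonal]
  have hA0 : ((A.det : ℤ) : ℚ_[p]) ≠ 0 := by exact_mod_cast hD
  have hd0 : ∀ i, d i ≠ 0 := fun i hi => by
    apply hA0
    rw [hdA, Finset.prod_eq_zero (Finset.mem_univ i) hi, mul_zero, zero_mul]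
  have hv : ∀ i, ‖d i‖ = (p : ℝ) ^ (-(d i).valuation) := fun i =>
    Padic.norm_eq_zpow_neg_valuation (hd0 i)
  refine ⟨L, d, fun i => (d i).valuation, hAL, fun x i => ?_, hv, fun i j hij => ?_, ?_,
    fun i => ?_, ?_⟩
  · rw [Matrix.mulVec, dotProduct]
    refine IsUltrametricDist.norm_sum_le_of_forall_le_of_nonneg hE.le fun j _ => ?_
    rw [norm_mul]
    exact (mul_le_of_le_one_right (norm_nonneg _) (Padic.norm_int_le_one (x j))).trans (hL' i j)
  · have h := hs i j hij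
    rw [hv, hv, zpow_le_zpow_iff_right₀ hp1] at h
    exact neg_le_neg_iff.1 h
  · have h1 : ‖((A.det : ℤ) : ℚ_[p])‖ = (p : ℝ) ^ (-∑ i, (d i).valuation) := by
      rw [hdA, norm_mul, norm_mul, hdet, one_mul, mul_one, norm_prod, ← Finset.sum_neg_distrib,
        jordan_zpow_sum hp0.ne']
      exact Finset.prod_congr rfl fun i _ => hv i
    rw [Padic.norm_eq_zpow_neg_valuation hA0, zpow_right_inj₀ hp0 hp1.ne',
      Padic.valuation_intCast] at h1
    exact (neg_injective h1).symm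
  · have h := hd i
    rw [norm_two, hv, ← zpow_natCast, ← _root_.zpow_mul, ← zpow_add₀ hp0.ne',
      zpow_le_one_iff_right₀ hp1] at h
    push_cast at h
    linarith
  · have hdv : DvdM 2 A
        ((p : ℤ) ^ ((d 0).valuation + (d 1).valuation - 4 * (e2v p : ℤ)).toNat) := fun f g => by
      refine dvd_of_norm_le ?_
      rw [← jordan_cast_det, hAL]
      refine (jordan_minor L d hE.le hL' hs f g).trans (le_of_eq ?_)
      rw [hv 0, hv 1, ← zpow_natCast, ← _root_.zpow_mul, ← zpow_add₀ hp0.ne', ← zpow_add₀ hp0.ne']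
      congr 1
      push_cast
      ring
    have h := ((padicValInt_dvd_iff _ c).1 (hg _ hdv)).resolve_left hc
    unfold padicValInt at h
    show (d 0).valuation + (d 1).valuation ≤ _
    omega

end Pool.Agent.Lib.MP_af4c59_nt.H57
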