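import Pool.Agent.Lib.MP_af4c59_nt.H57CoreP
import Pool.Agent.Lib.MP_af4c59_nt.H57Jordan

/-!
Cells on a conic.
-/

set_option autoImplicit false

namespace Pool.Agent.Lib.MP_af4c59_nt.H57

open Matrix

theorem tern_term {p : ℕ} [Fact p.Prime] {d u v : ℚ_[p]} {a a' e : ℤ} (hd : ‖d‖ = (p : ℝ) ^ (-a))
    (hu : ‖u‖ ≤ (p : ℝ) ^ e) (hv : ‖v‖ ≤ (p : ℝ) ^ e) (ha : a' ≤ a - 2 * e) :
    ‖d * u * v‖ ≤ (p : ℝ) ^ (-a') := by
  have hp : (1 : ℝ) < p := by exact_mod_cast (Fact.out : p.Prime).one_lt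
  have hp0 : (0 : ℝ) < p := by linarith
  rw [norm_mul, norm_mul, hd]
  calc (p : ℝ) ^ (-a) * ‖u‖ * ‖v‖ ≤ (p : ℝ) ^ (-a) * (p : ℝ) ^ e * (p : ℝ) ^ e := by gcongr
    _ = (p : ℝ) ^ (-a + e + e) := by rw [zpow_add₀ hp0.ne', zpow_add₀ hp0.ne']
    _ ≤ (p : ℝ) ^ (-a') := zpow_le_zpow_right₀ hp.le (by omega)

/-- The coarse cells. -/
theorem tern_coarse (p : ℕ) [Fact p.Prime] {A : Matrix (Fin 3) (Fin 3) ℤ}
    {L : Matrix (Fin 3) (Fin 3) ℚ_[p]} {d : Fin 3 → ℚ_[p]} {a : Fin 3 → ℤ}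
    (hL : mc ℚ_[p] A = Lᵀ * Matrix.diagonal d * L)
    (hz : ∀ (x : Fin 3 → ℤ) (i : Fin 3), ‖(L *ᵥ vc ℚ_[p] x) i‖ ≤ (p : ℝ) ^ (e2v p : ℤ))
    (hd : ∀ i, ‖d i‖ = (p : ℝ) ^ (-a i)) (hm : Monotone a) {X : Finset (Fin 3 → ℤ)}
    (h0 : ∀ x ∈ X, bf A x x = 0) :
    Part X (fun x y => (p : ℤ) ^ (a 2 - 3 * e2v p).toNat ∣ bf A x y)
      (((a 2 - a 0).toNat : ℝ) + 1) := by
  have hp : (1 : ℝ) < p := by exact_mod_cast (Fact.out : p.Prime).one_lt
  have hp0 : (0 : ℝ) < p := by linarith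
  have h01 : a 0 ≤ a 1 := hm (by decide)
  have h02 : a 0 ≤ a 2 := hm (by decide)
  have hb : ∀ x y : Fin 3 → ℤ, ((bf A x y : ℤ) : ℚ_[p]) =
      bf (Matrix.diagonal ![d 0, d 1, 0]) (L *ᵥ vc ℚ_[p] x) (L *ᵥ vc ℚ_[p] y) +
        d 2 * (L *ᵥ vc ℚ_[p] x) 2 * (L *ᵥ vc ℚ_[p] y) 2 := by
    intro x y
    rw [bf_cast, hL, bf_conj, bf_diag, bf_diag, Fin.sum_univ_three, Fin.sum_univ_three]
    simp
  have hy : (a 0 - 2 * e2v p) + ((a 2 - a 0).toNat : ℤ) = a 2 - 2 * e2v p := by omega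
  have hPA := PA (p := p) (A := Matrix.diagonal ![d 0, d 1, 0]) (X := X)
    (x := fun x => L *ᵥ vc ℚ_[p] x) (y := a 0 - 2 * e2v p) (Matrix.isSymm_diagonal _)
    (by rw [Matrix.det_diagonal, Fin.prod_univ_three]; simp) (a 2 - a 0).toNat
    (by
      intro x hx
      have e := hb x x
      rw [h0 x hx, Int.cast_zero] at e
      rw [eq_neg_of_add_eq_zero_left e.symm, norm_neg, hy]
      exact tern_term (hd 2) (hz x 2) (hz x 2) le_rfl)
    (by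
      intro x _ y _
      rw [bf_diag, Fin.sum_univ_three]
      have e0 := tern_term (a' := a 0 - 2 * e2v p) (hd 0) (hz x 0) (hz y 0) le_rfl
      have e1 := tern_term (a' := a 0 - 2 * e2v p) (hd 1) (hz x 1) (hz y 1) (by omega)
      have e2 := Padic.nonarchimedean (d 0 * (L *ᵥ vc ℚ_[p] x) 0 * (L *ᵥ vc ℚ_[p] y) 0)
        (d 1 * (L *ᵥ vc ℚ_[p] x) 1 * (L *ᵥ vc ℚ_[p] y) 1)
      simpa using e2.trans (max_le e0 e1))
  refine hPA.imp ?_
  intro x _ y _ hxy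
  apply dvd_of_norm_le
  rw [hb]
  refine (Padic.nonarchimedean _ _).trans (max_le ?_ (tern_term (hd 2) (hz x 2) (hz y 2) (by omega)))
  rw [norm_mul, norm_two, hy] at hxy
  have e : (p : ℝ) ^ (-(a 2 - 2 * (e2v p : ℤ))) =
      (p : ℝ) ^ (-(e2v p : ℤ)) * (p : ℝ) ^ (-(a 2 - 3 * (e2v p : ℤ))) := by
    rw [← zpow_add₀ hp0.ne']
    congr 1
    ring
  rw [e] at hxy
  exact le_of_mul_le_mul_left hxy (by positivity)

/-- The parity refinement. -/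
theorem tern_fine (p : ℕ) [Fact p.Prime] {A : Matrix (Fin 3) (Fin 3) ℤ} (hA : A.IsSymm)
    (hD : A.det ≠ 0) {C : Finset (Fin 3 → ℤ)} (h0 : ∀ x ∈ C, bf A x x = 0) (hX : PW C) {s₀ s : ℕ}
    (hs : s ≤ s₀ + 1) (hpar : s % 2 = (padicValNat p A.det.natAbs + e2v p) % 2)
    (hC : Clq (fun x y => (p : ℤ) ^ s₀ ∣ bf A x y) C) :
    Part C (fun x y => (p : ℤ) ^ s ∣ bf A x y) 3 := by
  classical
  rcases C.eq_empty_or_nonempty with rfl | ⟨x₀, hx₀⟩
  · exact Cov.one (fun x hx => absurd hx (Finset.notMem_empty x)) (by norm_num)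
  refine Part.of_color (fun x => if x = x₀ then 2 else padicValInt p (bf A x₀ x) % 2)
    (Finset.range 3) ?_ (by simp) ?_
  · intro x _
    rw [Finset.mem_range]
    split_ifs <;> omega
  · intro y hy z hz hc
    by_cases hyz : y = z
    · rw [← hyz, h0 y hy]
      exact dvd_zero _
    have hy0 : y ≠ x₀ := by
      intro e
      have hz0 : z ≠ x₀ := fun e' => hyz (e.trans e'.symm)
      simp only [if_pos e, if_neg hz0] at hc
      omega
    have hz0 : z ≠ x₀ := by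
      intro e
      simp only [if_pos e, if_neg hy0] at hc
      omega
    simp only [if_neg hy0, if_neg hz0] at hc
    have n1 := isoNP hA hD (h0 _ hx₀) (h0 _ hy) (hX _ hx₀ _ hy hy0.symm)
    have n2 := isoNP hA hD (h0 _ hy) (h0 _ hz) (hX _ hy _ hz hyz)
    have n3 := isoNP hA hD (h0 _ hx₀) (h0 _ hz) (hX _ hx₀ _ hz hz0.symm)
    have hg := gram_iso hA (h0 _ hx₀) (h0 _ hy) (h0 _ hz)
    have n4 : det3 x₀ y z ≠ 0 := by
      intro e
      rw [e] at hg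
      exact (mul_ne_zero (mul_ne_zero (mul_ne_zero two_ne_zero n1) n2) n3) (by rw [← hg]; ring)
    have hv := congrArg (padicValInt p) hg
    rw [sq, padicValInt.mul hD (mul_ne_zero n4 n4), padicValInt.mul n4 n4,
      padicValInt.mul (mul_ne_zero (mul_ne_zero two_ne_zero n1) n2) n3,
      padicValInt.mul (mul_ne_zero two_ne_zero n1) n2, padicValInt.mul two_ne_zero n1] at hv
    have e1 : padicValInt p 2 = e2v p := rfl
    have e2 : padicValInt p A.det = padicValNat p A.det.natAbs := rfl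
    have e3 := ((padicValInt_dvd_iff s₀ _).1 (hC y hy z hz)).resolve_left n2
    refine (padicValInt_dvd_iff s _).2 (Or.inr ?_)
    omega

theorem locTern (p : ℕ) [Fact p.Prime] {A : Matrix (Fin 3) (Fin 3) ℤ} (hA : A.IsSymm)
    (hD : A.det ≠ 0) {S j : ℕ} (hS : Squarefree S) (hj : j ≠ 0)
    (hg : GcdDvd 2 A ((S * j ^ 2 : ℕ) : ℤ)) {X : Finset (Fin 3 → ℤ)}
    (h0 : ∀ x ∈ X, bf A x x = 0) (hX : PW X) :
    ∃ s : ℕ, Part X (fun x y => (p : ℤ) ^ s ∣ bf A x y)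
        (30 * ((padicValNat p A.det.natAbs : ℝ) + 1)) ∧
      padicValNat p A.det.natAbs ≤ s + 2 * padicValNat p j + 7 * e2v p := by
  have hS0 : S ≠ 0 := hS.ne_zero
  have hc : ((S * j ^ 2 : ℕ) : ℤ) ≠ 0 := by
    exact_mod_cast mul_ne_zero hS0 (pow_ne_zero 2 hj)
  obtain ⟨L, d, a, hL, hz, hd, hm, hsum, hlo, h01⟩ : ∃ (L : Matrix (Fin 3) (Fin 3) ℚ_[p])
      (d : Fin 3 → ℚ_[p]) (a : Fin 3 → ℤ), mc ℚ_[p] A = Lᵀ * Matrix.diagonal d * L ∧
      (∀ (x : Fin 3 → ℤ) (i : Fin 3), ‖(L *ᵥ vc ℚ_[p] x) i‖ ≤ (p : ℝ) ^ (e2v p : ℤ)) ∧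
      (∀ i, ‖d i‖ = (p : ℝ) ^ (-a i)) ∧ Monotone a ∧
      ∑ i, a i = padicValNat p A.det.natAbs ∧ (∀ i, -(((1 : ℕ) + 2 : ℤ) * e2v p) ≤ a i) ∧
      a 0 + a 1 ≤ padicValNat p ((S * j ^ 2 : ℕ) : ℤ).natAbs + 4 * e2v p :=
    jordanZ p 1 A hA hD hc hg
  have hco := tern_coarse p hL hz hd hm h0
  have he := e2v_le p
  have hvS : padicValNat p S ≤ 1 := by
    rw [← Nat.factorization_def S Fact.out]
    exact hS.natFactorization_le_one p
  rw [Int.natAbs_natCast, padicValNat.mul hS0 (pow_ne_zero 2 hj), padicValNat.pow j 2] at h01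
  have hsum' : a 0 + a 1 + a 2 = padicValNat p A.det.natAbs := by
    rw [← hsum]
    exact (Fin.sum_univ_three a).symm
  have l0 := hlo 0
  have l1 := hlo 1
  obtain ⟨s, hs0, hs1, hpar⟩ : ∃ s : ℕ, (a 2 - 3 * e2v p).toNat ≤ s ∧
      s ≤ (a 2 - 3 * e2v p).toNat + 1 ∧ s % 2 = (padicValNat p A.det.natAbs + e2v p) % 2 := by
    by_cases e : (a 2 - 3 * e2v p).toNat % 2 = (padicValNat p A.det.natAbs + e2v p) % 2
    · exact ⟨_, le_rfl, Nat.le_succ _, e⟩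
    · exact ⟨_, Nat.le_succ _, le_rfl, by omega⟩
  refine ⟨s, ?_, by omega⟩
  have hb := Cov.bind hco (J' := 3) (by norm_num) fun C hCX hC =>
    tern_fine p hA hD (fun x hx => h0 x (hCX hx)) (her_PW X C hCX hX) hs1 hpar hC
  refine Cov.mono hb ?_
  have h9 : (a 2 - a 0).toNat ≤ padicValNat p A.det.natAbs + 9 := by omega
  have h9' : ((a 2 - a 0).toNat : ℝ) ≤ (padicValNat p A.det.natAbs : ℝ) + 9 := by exact_mod_cast h9
  have hn : (0 : ℝ) ≤ padicValNat p A.det.natAbs := Nat.cast_nonneg _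
  linarith

theorem globTern : ∃ f, SP f ∧ ∀ (N : ℝ) (A : Matrix (Fin 3) (Fin 3) ℤ) (S j : ℕ)
    (X : Finset (Fin 3 → ℤ)), A.IsSymm → A.det ≠ 0 → |((A.det : ℤ) : ℝ)| ≤ N → Squarefree S →
    j ≠ 0 → GcdDvd 2 A ((S * j ^ 2 : ℕ) : ℤ) → (∀ x ∈ X, bf A x x = 0) → PW X →
    ∃ σ : ℕ, 0 < σ ∧ Part X (fun x y => (σ : ℤ) ∣ bf A x y) (f N) ∧
      |((A.det : ℤ) : ℝ)| ≤ 128 * σ * (j : ℝ) ^ 2 := by
  obtain ⟨f, hf, hdiv⟩ := SP_div (K := 30) (by norm_num) 1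
  refine ⟨f, hf, ?_⟩
  intro N A S j X hA hD hN hS hj hg h0 hX
  have hloc : ∀ p : ℕ, ∃ s : ℕ, p.Prime → Part X (fun x y => (p : ℤ) ^ s ∣ bf A x y)
      (30 * ((padicValNat p A.det.natAbs : ℝ) + 1)) ∧
      padicValNat p A.det.natAbs ≤ s + 2 * padicValNat p j + 7 * e2v p := by
    intro p
    by_cases hp : p.Prime
    · have := Fact.mk hp
      obtain ⟨s, hs⟩ := locTern p hA hD hS hj hg h0 hX
      exact ⟨s, fun _ => hs⟩
    · exact ⟨0, fun h => absurd h hp⟩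
  choose s hs using hloc
  have hn : A.det.natAbs ≠ 0 := Int.natAbs_ne_zero.2 hD
  have habs : |((A.det : ℤ) : ℝ)| = (A.det.natAbs : ℝ) := by
    rw [Nat.cast_natAbs, Int.cast_abs]
  refine ⟨∏ p ∈ A.det.natAbs.primeFactors, p ^ s p,
    Finset.prod_pos fun p hp => pow_pos (Nat.prime_of_mem_primeFactors hp).pos _, ?_, ?_⟩
  · have hG := glob X hn (fun p => Clq fun x y => (p : ℤ) ^ s p ∣ bf A x y) (fun _ => her_clq _)
      30 1 (fun _ => 0) (by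
        intro p hp
        have hpp := Nat.prime_of_mem_primeFactors hp
        rw [Nat.factorization_def _ hpp, pow_one, pow_zero, mul_one]
        exact (hs p hpp).1)
    refine Cov.mono (Cov.imp hG ?_) ?_
    · intro C _ hC x hx y hy
      exact prod_pow_dvd s fun p hp => hC p hp x hx y hy
    · simpa using hdiv N _ hn (habs ▸ hN)
  · have hle := prod_pow_le (n := A.det.natAbs) hn (pow_ne_zero 2 hj) (fun _ => 0) s 7
      (fun p hp hd => Nat.mem_primeFactors.2 ⟨hp, hd, hn⟩) (by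
        intro p hp
        have hpp := Nat.prime_of_mem_primeFactors hp
        have := Fact.mk hpp
        have e := (hs p hpp).2
        rw [padicValNat.pow j 2]
        omega)
    simp only [pow_zero, Finset.prod_const_one, one_mul] at hle
    have hle' : ((A.det.natAbs : ℕ) : ℝ) ≤
        ((2 ^ 7 * j ^ 2 * ∏ p ∈ A.det.natAbs.primeFactors, p ^ s p : ℕ) : ℝ) := by
      exact_mod_cast hle
    rw [habs]
    refine hle'.trans (le_of_eq ?_)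
    rw [Nat.cast_mul, Nat.cast_mul]
    push_cast
    ring

end Pool.Agent.Lib.MP_af4c59_nt.H57
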