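import Pool.Agent.Lib.MP_af4c59_nt.H57ConeA
import Pool.Agent.Lib.MP_af4c59_nt.H57Tern
import Pool.Agent.Lib.MP_af4c59_nt.H57RichA

/-!
Points on a quadric cone.
-/

set_option autoImplicit false

namespace Pool.Agent.Lib.MP_af4c59_nt.H57

open Matrix

theorem cone_comap {ι κ : Type} [DecidableEq κ] {X : Finset ι} (u : ι → κ) {Φ : Finset κ → Prop}
    {J : ℝ} (h : Cov (X.image u) Φ J) : Cov X (fun C => ∃ D, Φ D ∧ ∀ x ∈ C, u x ∈ D) J := by
  classical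
  obtain ⟨S, hS, hΦ, hc⟩ := h
  refine ⟨S.image fun D => X.filter fun x => u x ∈ D, ?_, ?_, ?_⟩
  · exact le_trans (by exact_mod_cast Finset.card_image_le) hS
  · intro C hC
    obtain ⟨D, hD, rfl⟩ := Finset.mem_image.1 hC
    exact ⟨Finset.filter_subset _ _, D, (hΦ D hD).2, fun x hx => (Finset.mem_filter.1 hx).2⟩
  · intro x hx
    obtain ⟨D, hD, hxD⟩ := hc (u x) (Finset.mem_image_of_mem u hx)
    exact ⟨_, Finset.mem_image_of_mem _ hD, Finset.mem_filter.2 ⟨hx, hxD⟩⟩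

theorem cone_vc (P : Matrix (Fin 4) (Fin 4) ℝ) (T : Matrix (Fin 4) (Fin 3) ℤ) (r : Fin 4 → ℤ)
    (J i : ℤ) (u : Fin 3 → ℤ) :
    P *ᵥ vc ℝ (T *ᵥ (J • u) + i • r) =
      (J : ℝ) • (P *ᵥ vc ℝ (T *ᵥ u)) + (i : ℝ) • (P *ᵥ vc ℝ r) := by
  have h : vc ℝ (T *ᵥ (J • u) + i • r) = (J : ℝ) • vc ℝ (T *ᵥ u) + (i : ℝ) • vc ℝ r := by
    rw [Matrix.mulVec_smul]
    funext k
    simp [vc]
  rw [h, Matrix.mulVec_add, Matrix.mulVec_smul, Matrix.mulVec_smul]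

/-- The points with given direction and level. -/
theorem cone_fib {P : Matrix (Fin 4) (Fin 4) ℝ} {T : Matrix (Fin 4) (Fin 3) ℤ} {r : Fin 4 → ℤ}
    {τ B : ℝ} (hτ : τ ≠ 0) (hB : 0 < B) (hr : P *ᵥ vc ℝ r = τ • Pi.single 3 1)
    {C : Finset (Fin 4 → ℤ)} (J i : (Fin 4 → ℤ) → ℤ) (u : Fin 3 → ℤ) (k : ℕ)
    (hx : ∀ x ∈ C, x = T *ᵥ (J x • u) + i x • r) (hJ : ∀ x ∈ C, 2 ^ k ≤ J x ∧ J x < 2 ^ (k + 1))
    (hb : ∀ x ∈ C, ‖P *ᵥ vc ℝ x‖ ≤ B) : (C.card : ℝ) ≤ 2 ^ k * (2 * (B / |τ|) + 1) := by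
  have hτ' : 0 < |τ| := abs_pos.2 hτ
  refine card_le_fib J (Finset.Ico (2 ^ k) (2 ^ (k + 1))) (fun x hx' => Finset.mem_Ico.2 (hJ x hx'))
    ?_ (by positivity) ?_
  · have h1 : (2 : ℤ) ^ (k + 1) - 2 ^ k = ((2 ^ k : ℕ) : ℤ) := by push_cast; ring
    rw [Int.card_Ico, h1, Int.toNat_natCast]
    push_cast
    exact le_rfl
  · intro j _ D hD hj
    have h := card_le_int (X := D) i (g := 1) (a := -((j : ℝ) * (P *ᵥ vc ℝ (T *ᵥ u)) 3) / τ)
      (r := B / |τ|) ?_ one_pos (by positivity) ?_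
    · simpa using h
    · intro x hxD y hyD hxy
      rw [hx x (hD hxD), hx y (hD hyD), hj x hxD, hj y hyD, hxy]
    · intro x hxD
      refine ⟨one_dvd _, ?_⟩
      have h1 : P *ᵥ vc ℝ x = (j : ℝ) • (P *ᵥ vc ℝ (T *ᵥ u)) + (i x : ℝ) • (P *ᵥ vc ℝ r) := by
        rw [← cone_vc, ← hj x hxD, ← hx x (hD hxD)]
      have h2 : (P *ᵥ vc ℝ x) 3 = (j : ℝ) * (P *ᵥ vc ℝ (T *ᵥ u)) 3 + (i x : ℝ) * τ := by
        rw [h1, hr]
        simp
      have h3 : |(P *ᵥ vc ℝ x) 3| ≤ B := (norm_le_pi_norm (P *ᵥ vc ℝ x) 3).trans (hb x (hD hxD))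
      have h4 : (i x : ℝ) - -((j : ℝ) * (P *ᵥ vc ℝ (T *ᵥ u)) 3) / τ = (P *ᵥ vc ℝ x) 3 / τ := by
        rw [h2]; field_simp; ring
      rw [h4, abs_div]
      exact div_le_div_of_nonneg_right h3 hτ'.le

theorem cone_num {σ τ d n0 n01 n2 B c m : ℝ} (hσ : 1 ≤ σ) (hτ : 0 < τ) (hd : 0 < d) (h01 : 0 < n01)
    (h2 : 0 < n2) (h20 : n2 ≤ n0) (hB : 0 < B) (hc : 0 < c) (hm : 0 < m)
    (hk : (d * n01 * n2) ^ 2 ≤ 128 * σ * c ^ 2 * τ ^ 2) :
    18 * (5 * B * n2 / (m * √σ)) * (m * (2 * (B / τ) + 1)) ≤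
      2160 * (B * n0 + c * B ^ 2 / (d * n01)) := by
  have hs : 1 ≤ √σ := Real.one_le_sqrt.2 hσ
  have hs2 : √σ ^ 2 = σ := Real.sq_sqrt (by linarith)
  have hk' : d * n01 * n2 ≤ 12 * c * √σ * τ := by
    refine (abs_le_of_sq_le_sq' ?_ (by positivity)).2
    have : (12 * c * √σ * τ) ^ 2 = 144 * σ * c ^ 2 * τ ^ 2 := by
      rw [mul_pow, mul_pow, mul_pow, hs2]; ring
    rw [this]
    have : 0 ≤ σ * c ^ 2 * τ ^ 2 := by positivity
    nlinarith
  have h1 : n2 / (√σ * τ) ≤ 12 * (c / (d * n01)) := by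
    rw [← mul_div_assoc, div_le_div_iff₀ (by positivity) (by positivity)]
    nlinarith
  have h3 : n2 / √σ ≤ n0 := (div_le_self h2.le hs).trans h20
  have h4 : 18 * (5 * B * n2 / (m * √σ)) * (m * (2 * (B / τ) + 1)) =
      180 * B ^ 2 * (n2 / (√σ * τ)) + 90 * B * (n2 / √σ) := by
    field_simp
    ring
  have h5 := mul_le_mul_of_nonneg_left h1 (by positivity : 0 ≤ 180 * B ^ 2)
  have h6 := mul_le_mul_of_nonneg_left h3 (by positivity : 0 ≤ 90 * B)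
  have h7 : 0 ≤ B * n0 := mul_nonneg hB.le (h2.le.trans h20)
  have h8 : c * B ^ 2 / (d * n01) = B ^ 2 * (c / (d * n01)) := by ring
  rw [h4, h8]
  linarith

/-- The number of directions. -/
theorem cone_dirs {A' : Matrix (Fin 3) (Fin 3) ℤ} (hA : A'.IsSymm) (hD : A'.det ≠ 0)
    {U : Finset (Fin 3 → ℤ)} {σ : ℕ} (hσ : 0 < σ) (h0 : ∀ u ∈ U, bf A' u u = 0) (hpw : PW U)
    (hdv : ∀ u ∈ U, ∀ v ∈ U, (σ : ℤ) ∣ bf A' u v) {N B n2 m : ℝ} (hB : 0 < B) (h2 : 0 < n2)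
    (hm : 0 < m) (hN : ∀ u ∈ U, ∀ v ∈ U, |((bf A' u v : ℤ) : ℝ)| ≤ N)
    (hY : ∀ u ∈ U, ∀ v ∈ U, m ^ 2 * |((bf A' u v : ℤ) : ℝ)| ≤ 18 * n2 ^ 2 * B ^ 2)
    {a b : Fin 3 → ℤ} (ha : a ∈ U) (hb : b ∈ U) (hab : a ≠ b) :
    (U.card : ℝ) ≤ ((lg N : ℝ) + 5) * (18 * (5 * B * n2 / (m * √σ))) := by
  have hσ1 : (1 : ℝ) ≤ σ := by exact_mod_cast hσ
  have hlo : ∀ u ∈ U, ∀ v ∈ U, u ≠ v → (σ : ℝ) ≤ |((bf A' u v : ℤ) : ℝ)| := by
    intro u hu v hv huv
    have h := Int.le_of_dvd (abs_pos.2 (isoNP hA hD (h0 u hu) (h0 v hv) (hpw u hu v hv huv)))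
      ((dvd_abs _ _).2 (hdv u hu v hv))
    exact_mod_cast h
  have hY' : ∀ u ∈ U, ∀ v ∈ U, |((bf A' u v : ℤ) : ℝ)| ≤ min N (18 * n2 ^ 2 * B ^ 2 / m ^ 2) := by
    intro u hu v hv
    refine le_min (hN u hu v hv) ?_
    rw [le_div_iff₀ (by positivity), mul_comm]
    exact hY u hu v hv
  set Y := min N (18 * n2 ^ 2 * B ^ 2 / m ^ 2) with hYd
  have hp := packR (A := mc ℝ A') (X := U) (x := vc ℝ) (Y := Y) (σ := σ) (L := lg N)
    (hA.map _) (by linarith) (fun u hu => by rw [← bf_cast, h0 u hu, Int.cast_zero])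
    (fun u hu v hv huv => by rw [← bf_cast]; exact hlo u hu v hv huv)
    (fun u hu v hv => by rw [← bf_cast]; exact hY' u hu v hv)
    (((min_le_left _ _).trans (le_two_pow_lg N)).trans
      (le_mul_of_one_le_right (by positivity) hσ1))
  have h1 : 1 ≤ √(Y / σ) := by
    rw [Real.one_le_sqrt, le_div_iff₀ (by linarith), one_mul]
    exact (hlo a ha b hb hab).trans (hY' a ha b hb)
  have hs : 0 < √(σ : ℝ) := Real.sqrt_pos.2 (by linarith)
  have hs2 : √(σ : ℝ) ^ 2 = σ := Real.sq_sqrt (by linarith)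
  have h3 : √(Y / σ) ≤ 5 * B * n2 / (m * √σ) := by
    rw [Real.sqrt_le_left (by positivity), div_pow, mul_pow m, hs2, ← div_div]
    refine div_le_div_of_nonneg_right ((min_le_right _ _).trans ?_) (by linarith)
    refine div_le_div_of_nonneg_right ?_ (by positivity)
    have : 0 ≤ n2 ^ 2 * B ^ 2 := by positivity
    nlinarith
  refine hp.trans (mul_le_mul_of_nonneg_left ?_ (by positivity))
  linarith

theorem cone : ∃ f, SP f ∧ ∀ (A : Matrix (Fin 4) (Fin 4) ℤ) (P : Matrix (Fin 4) (Fin 4) ℝ)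
    (ν : Fin 4 → ℝ) (X : Finset (Fin 4 → ℤ)) (N B H : ℝ) (D₀ : ℤ) (c : ℕ), QD A P ν X N B H →
    A.det = 0 → D₀ ≠ 0 → |(D₀ : ℝ)| ≤ N → GcdDvd 3 A D₀ → c ≠ 0 → GcdDvd 2 A (c : ℤ) →
    (∀ x ∈ X, ∀ y ∈ X, |((bf A x y : ℤ) : ℝ)| ≤ 18 * |ν 2| * B ^ 2) →
    (X.card : ℝ) ≤ f N * (1 + B ^ 2 / H + B * √|ν 0| + c * B ^ 2 / (|P.det| * √|ν 0 * ν 1|)) := by
  classical
  obtain ⟨f1, hf1, hline⟩ := lineCount
  obtain ⟨f2, hf2, hglob⟩ := globTern
  refine ⟨fun N => 1 + 2 * f2 N * (2 * ((lg N : ℝ) + 1) * (f1 N + 10800 * ((lg N : ℝ) + 1))),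
    (SP.const le_rfl).add ((hf2.cmul one_le_two).mul ((SP_lg.cmul one_le_two).mul
      (hf1.add (SP_lg.cmul (by norm_num))))), ?_⟩
  intro A P ν X N B H D₀ c h hdet hD₀ hDN hg3 hc hg2 hY
  obtain ⟨A', T, r, τ, hA, hD, hdvd, hg, hτ, hν2, hr, hdt, hdec, hbf⟩ :=
    cone_data h hdet hD₀ hg3 hg2
  choose ξ i hx using hdec
  choose! J u hJ hu hξ using fun (x : Fin 4 → ℤ) (hx : ξ x ≠ 0) => exists_prim (ξ x) hx
  have hN := h.oneN
  have hB := h.Bpos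
  have hH := h.Hpos
  have hP : 0 < |P.det| := abs_pos.2 h.detP
  have hn2 : 0 < |ν 2| := abs_pos.2 hν2
  have hn1 : 0 < |ν 1| := hn2.trans_le (h.sorted 1 2 (by decide))
  have hn20 : |ν 2| ≤ |ν 0| := h.sorted 0 2 (by decide)
  have hn0 : 0 < |ν 0| := hn2.trans_le hn20
  have hn01 : 0 < |ν 0 * ν 1| := by rw [abs_mul]; positivity
  have hc' : (0 : ℝ) < c := by exact_mod_cast Nat.pos_of_ne_zero hc
  have hF1 := hf1.pos hN
  have hF2 := hf2.pos hN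
  set W := 1 + B ^ 2 / H + B * √|ν 0| + c * B ^ 2 / (|P.det| * √|ν 0 * ν 1|) with hW
  have hW1 : 1 + B ^ 2 / H ≤ W := by
    have : 0 ≤ B * √|ν 0| + c * B ^ 2 / (|P.det| * √|ν 0 * ν 1|) := by positivity
    linarith
  have hW2 : B * √|ν 0| + c * B ^ 2 / (|P.det| * √|ν 0 * ν 1|) ≤ W := by
    have : 0 ≤ 1 + B ^ 2 / H := by positivity
    linarith
  have hW3 : 1 ≤ W := by
    have : 0 ≤ B ^ 2 / H := by positivity
    linarith
  set X1 := X.filter fun x => ξ x ≠ 0 with hX1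
  have hmem : ∀ x ∈ X1, x ∈ X ∧ ξ x ≠ 0 := fun x hx' => Finset.mem_filter.1 hx'
  have hx1 : ∀ x ∈ X1, x = T *ᵥ (J x • u x) + i x • r := fun x hx' => by
    rw [← hξ x (hmem x hx').2]; exact hx x
  have hb1 : ∀ x ∈ X1, ∀ y ∈ X1, bf A x y = J x * J y * bf A' (u x) (u y) := by
    intro x hx' y hy'
    conv_lhs => rw [hx1 x hx', hx1 y hy']
    rw [hbf, bf_smul_left, bf_smul_right, mul_assoc]
  have hiso : ∀ x ∈ X1, bf A' (u x) (u x) = 0 := by
    intro x hx'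
    have h1 := hb1 x hx' x hx'
    have h2 := (hJ x (hmem x hx').2).ne'
    rw [h.iso x (hmem x hx').1] at h1
    exact (mul_eq_zero.1 h1.symm).resolve_left (mul_ne_zero h2 h2)
  have h0 : (X.filter fun x => ¬ ξ x ≠ 0).card ≤ 1 := by
    refine Finset.card_le_one.2 fun x hx' y hy' => ?_
    by_contra hne
    obtain ⟨hxX, hx0⟩ := Finset.mem_filter.1 hx'
    obtain ⟨hyX, hy0⟩ := Finset.mem_filter.1 hy'
    obtain ⟨a, b, hab⟩ := h.pw x hxX y hyX hne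
    apply hab
    rw [hx x, hx y, not_not.1 hx0, not_not.1 hy0]
    simp only [Matrix.mulVec_zero, zero_add, Pi.smul_apply, smul_eq_mul]
    ring
  have hdN : |((A'.det : ℤ) : ℝ)| ≤ N := by
    refine le_trans ?_ hDN
    exact_mod_cast Int.le_of_dvd (abs_pos.2 hD₀) ((abs_dvd _ _).2 ((dvd_abs _ _).2 hdvd))
  have hg' : GcdDvd 2 A' ((1 * c ^ 2 : ℕ) : ℤ) := by
    intro d hd
    push_cast
    rw [one_mul]
    exact dvd_pow (hg d hd) two_ne_zero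
  have hcov : Cov (X1.image u) (fun D => PW D ∧ ∃ σ : ℕ, 0 < σ ∧
      (∀ a ∈ D, ∀ b ∈ D, (σ : ℤ) ∣ bf A' a b) ∧
      |((A'.det : ℤ) : ℝ)| ≤ 128 * σ * (c : ℝ) ^ 2) (2 * f2 N) := by
    refine (halve (X1.image u) ?_).bind hF2.le ?_
    · intro a ha
      obtain ⟨x, hx', rfl⟩ := Finset.mem_image.1 ha
      exact hu x (hmem x hx').2
    · intro C hC hpw
      obtain ⟨σ, hσ, hpart, hle⟩ := hglob N A' 1 c C hA hD hdN squarefree_one hc hg' (by
        intro a ha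
        obtain ⟨x, hx', rfl⟩ := Finset.mem_image.1 (hC ha)
        exact hiso x hx') hpw
      exact Cov.imp hpart fun D hD' hq => ⟨her_PW C D hD' hpw, σ, hσ, hq, hle⟩
  have hcard : (X1.card : ℝ) ≤
      2 * f2 N * (2 * ((lg N : ℝ) + 1) * ((f1 N + 10800 * ((lg N : ℝ) + 1)) * W)) := by
    refine (cone_comap u hcov).card_le (by positivity) ?_
    rintro C hC ⟨D, ⟨hpw, σ, hσ, hdv, hle⟩, hD'⟩
    refine card_le_fib (fun x => min (Nat.log 2 (J x).toNat) (lg N + 1))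
      (Finset.range (lg N + 2)) (fun x _ => Finset.mem_range.2 (by omega)) ?_ (by positivity) ?_
    · rw [Finset.card_range]
      push_cast
      have : (0 : ℝ) ≤ lg N := Nat.cast_nonneg _
      linarith
    intro k _ E hE hk
    have hE1 : ∀ x ∈ E, x ∈ X1 := fun x hx' => hC (hE hx')
    have hEX : E ⊆ X := fun x hx' => (hmem x (hE1 x hx')).1
    have hlo : ∀ x ∈ E, (2 : ℤ) ^ k ≤ J x := by
      intro x hx'
      have h1 := hJ x (hmem x (hE1 x hx')).2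
      have h2 : k ≤ Nat.log 2 (J x).toNat := by rw [← hk x hx']; exact min_le_left _ _
      have h3 : 2 ^ k ≤ (J x).toNat :=
        (Nat.pow_le_pow_right two_pos h2).trans (Nat.pow_log_le_self 2 (by omega))
      have h4 : ((2 ^ k : ℕ) : ℤ) ≤ J x := by omega
      exact_mod_cast h4
    have hmul : ∀ x ∈ E, ∀ y ∈ E, ((2 : ℝ) ^ k) ^ 2 * |((bf A' (u x) (u y) : ℤ) : ℝ)| ≤
        |((bf A x y : ℤ) : ℝ)| := by
      intro x hx' y hy'
      have h1 : (2 : ℝ) ^ k ≤ J x := by exact_mod_cast hlo x hx'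
      have h2 : (2 : ℝ) ^ k ≤ J y := by exact_mod_cast hlo y hy'
      have h3 : (0 : ℝ) < 2 ^ k := by positivity
      rw [hb1 x (hE1 x hx') y (hE1 y hy')]
      push_cast
      rw [abs_mul, abs_of_pos (mul_pos (h3.trans_le h1) (h3.trans_le h2)), sq]
      exact mul_le_mul_of_nonneg_right (mul_le_mul h1 h2 h3.le (h3.le.trans h1)) (abs_nonneg _)
    by_cases hone : ∀ x ∈ E, ∀ y ∈ E, u x = u y
    · rcases E.eq_empty_or_nonempty with rfl | ⟨x0, hx0⟩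
      · rw [Finset.card_empty, Nat.cast_zero]; positivity
      have h1 := hline A P ν E N B H (P *ᵥ vc ℝ (T *ᵥ u x0)) (P *ᵥ vc ℝ r) (h.sub hEX)
        (fun x hx' => ⟨J x, i x, by rw [← cone_vc, ← hone x hx' x0 hx0, ← hx1 x (hE1 x hx')]⟩)
        (fun x hx' y hy' => by
          rw [hb1 x (hE1 x hx') y (hE1 y hy'), ← hone x hx' y hy', hiso x (hE1 x hx'), mul_zero])
      refine h1.trans (mul_le_mul ?_ hW1 (by positivity) (by positivity))
      have : (0 : ℝ) ≤ 10800 * ((lg N : ℝ) + 1) := by positivity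
      linarith
    push Not at hone
    obtain ⟨x0, hx0, y0, hy0, hne⟩ := hone
    have hUD : E.image u ⊆ D := by
      intro a ha
      obtain ⟨x, hx', rfl⟩ := Finset.mem_image.1 ha
      exact hD' x (hE hx')
    have hone' : (1 : ℝ) ≤ |((bf A' (u x0) (u y0) : ℤ) : ℝ)| := by
      have h1 := isoNP hA hD (hiso x0 (hE1 x0 hx0)) (hiso y0 (hE1 y0 hy0))
        (hpw _ (hD' x0 (hE hx0)) _ (hD' y0 (hE hy0)) hne)
      exact_mod_cast Int.one_le_abs h1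
    have h2k : (1 : ℝ) ≤ 2 ^ k := one_le_pow₀ one_le_two
    have hklt : k < lg N + 1 := by
      by_contra hn
      have h1 : (2 : ℝ) ^ (lg N + 1) ≤ 2 ^ k := pow_le_pow_right₀ one_le_two (by omega)
      have h2 := le_two_pow_lg N
      have h3 := (hmul x0 hx0 y0 hy0).trans (h.bN x0 (hEX hx0) y0 (hEX hy0))
      rw [pow_succ] at h1
      have h4 : ((2 : ℝ) ^ k) ^ 2 * 1 ≤ N :=
        (mul_le_mul_of_nonneg_left hone' (by positivity)).trans h3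
      nlinarith
    have hhi : ∀ x ∈ E, J x < (2 : ℤ) ^ (k + 1) := by
      intro x hx'
      have h1 := hJ x (hmem x (hE1 x hx')).2
      have h2 : Nat.log 2 (J x).toNat = k := by have := hk x hx'; omega
      have h3 : (J x).toNat < 2 ^ (k + 1) := by rw [← h2]; exact Nat.lt_pow_succ_log_self one_lt_two _
      have h4 : J x < ((2 ^ (k + 1) : ℕ) : ℤ) := by omega
      exact_mod_cast h4
    have hs2 : √|ν 2| ^ 2 = |ν 2| := Real.sq_sqrt hn2.le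
    have hU := cone_dirs hA hD (U := E.image u) hσ
      (by
        intro a ha
        obtain ⟨x, hx', rfl⟩ := Finset.mem_image.1 ha
        exact hiso x (hE1 x hx'))
      (her_PW D _ hUD hpw) (fun a ha b hb => hdv a (hUD ha) b (hUD hb)) (N := N) hB
      (Real.sqrt_pos.2 hn2) (m := 2 ^ k) (by positivity)
      (by
        intro a ha b hb
        obtain ⟨x, hx', rfl⟩ := Finset.mem_image.1 ha
        obtain ⟨y, hy', rfl⟩ := Finset.mem_image.1 hb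
        refine le_trans ?_ ((hmul x hx' y hy').trans (h.bN x (hEX hx') y (hEX hy')))
        exact le_mul_of_one_le_left (abs_nonneg _) (one_le_pow₀ h2k))
      (by
        intro a ha b hb
        obtain ⟨x, hx', rfl⟩ := Finset.mem_image.1 ha
        obtain ⟨y, hy', rfl⟩ := Finset.mem_image.1 hb
        rw [hs2]
        exact (hmul x hx' y hy').trans (hY x (hEX hx') y (hEX hy')))
      (Finset.mem_image_of_mem u hx0) (Finset.mem_image_of_mem u hy0) hne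
    have hτ' : 0 < |τ| := abs_pos.2 hτ
    have hE2 := card_le_fib (X := E) u (E.image u) (fun x hx' => Finset.mem_image_of_mem u hx') hU
      (n := 2 ^ k * (2 * (B / |τ|) + 1)) (by positivity) (fun a _ F hF ha =>
        cone_fib (T := T) hτ hB hr J i a k
          (fun x hx' => by rw [← ha x hx']; exact hx1 x (hE1 x (hF hx')))
          (fun x hx' => ⟨hlo x (hF hx'), hhi x (hF hx')⟩) (fun x hx' => h.bd x (hEX (hF hx'))))
    have hkey : (|P.det| * √|ν 0 * ν 1| * √|ν 2|) ^ 2 ≤ 128 * σ * (c : ℝ) ^ 2 * |τ| ^ 2 := by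
      have h1 : (|P.det| * √|ν 0 * ν 1| * √|ν 2|) ^ 2 = |((A'.det : ℤ) : ℝ)| * |τ| ^ 2 := by
        rw [mul_pow, mul_pow, hs2, Real.sq_sqrt hn01.le, ← abs_pow, ← abs_pow, ← abs_mul, ← abs_mul,
          ← abs_mul, hdt, mul_assoc]
      rw [h1]
      exact mul_le_mul_of_nonneg_right hle (by positivity)
    have hnum := cone_num (σ := σ) (by exact_mod_cast hσ) hτ' hP (Real.sqrt_pos.2 hn01)
      (Real.sqrt_pos.2 hn2) (Real.sqrt_le_sqrt hn20) hB hc' (m := 2 ^ k) (by positivity) hkey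
    have hl : (0 : ℝ) ≤ lg N := Nat.cast_nonneg _
    calc (E.card : ℝ) ≤ _ := hE2
      _ = ((lg N : ℝ) + 5) * (18 * (5 * B * √|ν 2| / (2 ^ k * √σ)) *
          (2 ^ k * (2 * (B / |τ|) + 1))) := mul_assoc _ _ _
      _ ≤ (5 * ((lg N : ℝ) + 1)) * (2160 * W) :=
          mul_le_mul (by linarith) (hnum.trans (by linarith)) (by positivity) (by positivity)
      _ = 10800 * ((lg N : ℝ) + 1) * W := by ring
      _ ≤ _ := mul_le_mul_of_nonneg_right (by linarith) (by linarith)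
  have hsplit : (X.card : ℝ) ≤ X1.card + 1 := by
    have := Finset.card_filter_add_card_filter_not (s := X) fun x => ξ x ≠ 0
    have h1 : X.card ≤ X1.card + 1 := by rw [hX1]; omega
    exact_mod_cast h1
  calc (X.card : ℝ) ≤ W + 2 * f2 N *
        (2 * ((lg N : ℝ) + 1) * ((f1 N + 10800 * ((lg N : ℝ) + 1)) * W)) := by linarith
    _ = _ := by ring

end Pool.Agent.Lib.MP_af4c59_nt.H57
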