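import Pool.Agent.Lib.MP_af4c59_nt.H57Defs
import Pool.Agent.Lib.MP_af4c59_nt.H32Div

/-!
Covers by cells.
-/

set_option autoImplicit false

namespace Pool.Agent.Lib.MP_af4c59_nt.H57

open Matrix

section Cov

variable {ι : Type} {X Y : Finset ι} {Φ Ψ : Finset ι → Prop} {R : ι → ι → Prop} {J J' n : ℝ}

theorem Cov.nonneg (h : Cov X Φ J) : 0 ≤ J := by
  obtain ⟨S, h1, -⟩ := h
  exact (Nat.cast_nonneg _).trans h1

theorem Cov.mono (h : Cov X Φ J) (hJ : J ≤ J') : Cov X Φ J' := by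
  obtain ⟨S, h1, h2⟩ := h
  exact ⟨S, h1.trans hJ, h2⟩

theorem Cov.imp (h : Cov X Φ J) (hi : ∀ C ⊆ X, Φ C → Ψ C) : Cov X Ψ J := by
  obtain ⟨S, h1, h2, h3⟩ := h
  exact ⟨S, h1, fun C hC => ⟨(h2 C hC).1, hi C (h2 C hC).1 (h2 C hC).2⟩, h3⟩

theorem Cov.one (h : Φ X) (hJ : 1 ≤ J) : Cov X Φ J := by
  refine ⟨{X}, by simpa using hJ, fun C hC => ?_, fun x hx => ⟨X, Finset.mem_singleton_self _, hx⟩⟩
  rw [Finset.mem_singleton.1 hC]
  exact ⟨Finset.Subset.refl _, h⟩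

theorem Cov.bind (h : Cov X Φ J) (hJ : 0 ≤ J') (hb : ∀ C ⊆ X, Φ C → Cov C Ψ J') :
    Cov X Ψ (J * J') := by
  classical
  obtain ⟨S, h1, h2, h3⟩ := h
  have hb' : ∀ C ∈ S, Cov C Ψ J' := fun C hC => hb C (h2 C hC).1 (h2 C hC).2
  choose! T hT1 hT2 hT3 using hb'
  refine ⟨S.biUnion T, ?_, fun D hD => ?_, fun x hx => ?_⟩
  · have h4 : ((S.biUnion T).card : ℝ) ≤ ∑ C ∈ S, ((T C).card : ℝ) := by
      exact_mod_cast Finset.card_biUnion_le
    refine h4.trans ((Finset.sum_le_sum hT1).trans ?_)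
    rw [Finset.sum_const, nsmul_eq_mul]
    exact mul_le_mul_of_nonneg_right h1 hJ
  · obtain ⟨C, hC, hD⟩ := Finset.mem_biUnion.1 hD
    exact ⟨(hT2 C hC D hD).1.trans (h2 C hC).1, (hT2 C hC D hD).2⟩
  · obtain ⟨C, hC, hx⟩ := h3 x hx
    obtain ⟨D, hD, hx⟩ := hT3 C hC x hx
    exact ⟨D, Finset.mem_biUnion.2 ⟨C, hC, hD⟩, hx⟩

theorem Cov.sub (hH : Her Φ) (h : Cov X Φ J) (hY : Y ⊆ X) : Cov Y Φ J := by
  classical
  obtain ⟨S, h1, h2, h3⟩ := h
  refine ⟨S.image fun C => C ∩ Y, le_trans ?_ h1, fun D hD => ?_, fun x hx => ?_⟩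
  · exact_mod_cast Finset.card_image_le
  · obtain ⟨C, hC, rfl⟩ := Finset.mem_image.1 hD
    exact ⟨Finset.inter_subset_right, hH C _ Finset.inter_subset_left (h2 C hC).2⟩
  · obtain ⟨C, hC, hxC⟩ := h3 x (hY hx)
    exact ⟨C ∩ Y, Finset.mem_image_of_mem _ hC, Finset.mem_inter.2 ⟨hxC, hx⟩⟩

theorem Cov.and (hH : Her Φ) (hH' : Her Ψ) (h : Cov X Φ J) (h' : Cov X Ψ J') :
    Cov X (fun C => Φ C ∧ Ψ C) (J * J') :=
  h.bind h'.nonneg fun C hC hΦ =>
    (h'.sub hH' hC).imp fun D hD hΨ => ⟨hH C D hD hΦ, hΨ⟩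

theorem Cov.card_le (h : Cov X Φ J) (hn : 0 ≤ n) (hc : ∀ C ⊆ X, Φ C → (C.card : ℝ) ≤ n) :
    (X.card : ℝ) ≤ J * n := by
  classical
  obtain ⟨S, h1, h2, h3⟩ := h
  have h4 : X ⊆ S.biUnion id := fun x hx => by
    obtain ⟨C, hC, hx⟩ := h3 x hx
    exact Finset.mem_biUnion.2 ⟨C, hC, hx⟩
  have h5 : (X.card : ℝ) ≤ ∑ C ∈ S, (C.card : ℝ) := by
    exact_mod_cast (Finset.card_le_card h4).trans Finset.card_biUnion_le
  refine h5.trans ((Finset.sum_le_sum fun C hC => hc C (h2 C hC).1 (h2 C hC).2).trans ?_)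
  rw [Finset.sum_const, nsmul_eq_mul]
  exact mul_le_mul_of_nonneg_right h1 hn

theorem Cov.of_color {κ : Type} (c : ι → κ) (S : Finset κ) (hS : ∀ x ∈ X, c x ∈ S)
    (hJ : (S.card : ℝ) ≤ J) (h : ∀ k ∈ S, ∀ C ⊆ X, (∀ x ∈ C, c x = k) → Φ C) : Cov X Φ J := by
  classical
  refine ⟨S.image fun k => X.filter fun x => c x = k, le_trans ?_ hJ, fun D hD => ?_,
    fun x hx => ?_⟩
  · exact_mod_cast Finset.card_image_le
  · obtain ⟨k, hk, rfl⟩ := Finset.mem_image.1 hD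
    exact ⟨Finset.filter_subset _ _,
      h k hk _ (Finset.filter_subset _ _) fun x hx => (Finset.mem_filter.1 hx).2⟩
  · exact ⟨_, Finset.mem_image_of_mem _ (hS x hx), Finset.mem_filter.2 ⟨hx, rfl⟩⟩

theorem Part.of_color {κ : Type} (c : ι → κ) (S : Finset κ) (hS : ∀ x ∈ X, c x ∈ S)
    (hJ : (S.card : ℝ) ≤ J) (h : ∀ x ∈ X, ∀ y ∈ X, c x = c y → R x y) : Part X R J :=
  Cov.of_color c S hS hJ fun _ _ _ hC hk x hx y hy =>
    h x (hC hx) y (hC hy) ((hk x hx).trans (hk y hy).symm)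

theorem her_clq (R : ι → ι → Prop) : Her (Clq R) :=
  fun _ _ hD h x hx y hy => h x (hD hx) y (hD hy)

theorem Part.imp {R' : ι → ι → Prop} (h : Part X R J)
    (hi : ∀ x ∈ X, ∀ y ∈ X, R x y → R' x y) : Part X R' J :=
  Cov.imp h fun _ hC hR x hx y hy => hi x (hC hx) y (hC hy) (hR x hx y hy)

theorem Part.comap {κ : Type} {Z : Finset κ} (g : κ → ι) (hg : ∀ z ∈ Z, g z ∈ X)
    (h : Part X R J) : Part Z (fun a b => R (g a) (g b)) J := by
  classical
  obtain ⟨S, h1, h2, h3⟩ := h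
  refine ⟨S.image fun C => Z.filter fun z => g z ∈ C, le_trans ?_ h1, fun D hD => ?_,
    fun z hz => ?_⟩
  · exact_mod_cast Finset.card_image_le
  · obtain ⟨C, hC, rfl⟩ := Finset.mem_image.1 hD
    exact ⟨Finset.filter_subset _ _, fun a ha b hb =>
      (h2 C hC).2 _ (Finset.mem_filter.1 ha).2 _ (Finset.mem_filter.1 hb).2⟩
  · obtain ⟨C, hC, hx⟩ := h3 _ (hg z hz)
    exact ⟨_, Finset.mem_image_of_mem _ hC, Finset.mem_filter.2 ⟨hz, hx⟩⟩

theorem Cov.prod {κ : Type} (S : Finset κ) (F : κ → Finset ι → Prop) (hH : ∀ k, Her (F k))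
    (j : κ → ℝ) (h : ∀ k ∈ S, Cov X (F k) (j k)) :
    Cov X (fun C => ∀ k ∈ S, F k C) (∏ k ∈ S, j k) := by
  classical
  induction S using Finset.induction_on with
  | empty => exact Cov.one (fun k hk => absurd hk (Finset.notMem_empty k)) (by simp)
  | insert a S ha ih =>
    rw [Finset.prod_insert ha]
    have h1 := ih fun k hk => h k (Finset.mem_insert_of_mem hk)
    have h2 : Her fun C => ∀ k ∈ S, F k C := fun C D hD hC k hk => hH k C D hD (hC k hk)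
    refine (Cov.and (hH a) h2 (h a (Finset.mem_insert_self _ _)) h1).imp fun C _ hC k hk => ?_
    rcases Finset.mem_insert.1 hk with rfl | hk
    · exact hC.1
    · exact hC.2 k hk

/-- Counting by fibres, with a bound for each fibre. -/
theorem card_le_sum {κ : Type} (c : ι → κ) (S : Finset κ) (hS : ∀ x ∈ X, c x ∈ S) (b : κ → ℝ)
    (h : ∀ k ∈ S, ∀ C ⊆ X, (∀ x ∈ C, c x = k) → (C.card : ℝ) ≤ b k) :
    (X.card : ℝ) ≤ ∑ k ∈ S, b k := by
  classical
  rw [Finset.card_eq_sum_card_fiberwise (f := c) (t := S) fun x hx => hS x hx]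
  push_cast
  exact Finset.sum_le_sum fun k hk =>
    h k hk _ (Finset.filter_subset _ _) fun x hx => (Finset.mem_filter.1 hx).2

/-- Counting by fibres, with a common bound. -/
theorem card_le_fib {κ : Type} (c : ι → κ) (S : Finset κ) (hS : ∀ x ∈ X, c x ∈ S)
    (hJ : (S.card : ℝ) ≤ J) (hn : 0 ≤ n)
    (h : ∀ k ∈ S, ∀ C ⊆ X, (∀ x ∈ C, c x = k) → (C.card : ℝ) ≤ n) : (X.card : ℝ) ≤ J * n := by
  refine (card_le_sum c S hS (fun _ => n) h).trans ?_
  rw [Finset.sum_const, nsmul_eq_mul]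
  exact mul_le_mul_of_nonneg_right hJ hn

/-- An injection into the integers of an interval. -/
theorem card_le_int (c : ι → ℤ) (hc : ∀ x ∈ X, ∀ y ∈ X, c x = c y → x = y) {g : ℤ} (hg : 0 < g)
    {a r : ℝ} (hr : 0 ≤ r) (h : ∀ x ∈ X, g ∣ c x ∧ |(c x : ℝ) - a| ≤ r) :
    (X.card : ℝ) ≤ 2 * r / g + 1 := by
  have hg' : (0 : ℝ) < g := by exact_mod_cast hg
  have h1 : X.card ≤ (Finset.Icc ⌈(a - r) / g⌉ ⌊(a + r) / g⌋).card := by
    refine Finset.card_le_card_of_injOn (fun x => c x / g) (fun x hx => ?_) fun x hx y hy hxy => ?_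
    · obtain ⟨⟨k, hk⟩, h2⟩ := h x hx
      have h3 : c x / g = k := by rw [hk, Int.mul_ediv_cancel_left _ hg.ne']
      have h4 : (c x : ℝ) = k * g := by rw [hk]; push_cast; ring
      rw [h4, abs_le] at h2
      simp only [Finset.coe_Icc, Set.mem_Icc, h3]
      refine ⟨Int.ceil_le.2 ?_, Int.le_floor.2 ?_⟩
      · rw [div_le_iff₀ hg']; linarith [h2.1]
      · rw [le_div_iff₀ hg']; linarith [h2.2]
    · refine hc x hx y hy ?_
      have h2 := Int.mul_ediv_cancel' (h x hx).1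
      have h3 := Int.mul_ediv_cancel' (h y hy).1
      have h4 : c x / g = c y / g := hxy
      rw [← h2, ← h3, h4]
  have h0 : 0 ≤ 2 * r / g := by positivity
  rw [Int.card_Icc] at h1
  rcases le_total 0 (⌊(a + r) / g⌋ + 1 - ⌈(a - r) / g⌉) with h2 | h2
  · have h3 : (X.card : ℤ) ≤ ⌊(a + r) / g⌋ + 1 - ⌈(a - r) / g⌉ := by
      rw [← Int.toNat_of_nonneg h2]; exact_mod_cast h1
    have h4 : (X.card : ℝ) ≤ (⌊(a + r) / g⌋ : ℝ) + 1 - (⌈(a - r) / g⌉ : ℝ) := by exact_mod_cast h3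
    have h5 := Int.floor_le ((a + r) / g)
    have h6 := Int.le_ceil ((a - r) / g)
    have h7 : (a + r) / g - (a - r) / g = 2 * r / g := by ring
    linarith
  · rw [Int.toNat_of_nonpos h2] at h1
    have h3 : (X.card : ℝ) ≤ 0 := by exact_mod_cast h1
    linarith

end Cov

theorem cov0_pm {m : ℕ} {x y : Fin m → ℤ} (hx : Prim x) (hy : Prim y) (h : ¬NP x y) :
    x = y ∨ x = -y := by
  obtain ⟨w, hw⟩ := hx
  obtain ⟨w', hw'⟩ := hy
  have h1 : ∀ i j, x i * y j = x j * y i := fun i j => by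
    by_contra h2
    exact h ⟨i, j, h2⟩
  have h2 : x = (x ⬝ᵥ w') • y := by
    ext i
    calc x i = x i * (y ⬝ᵥ w') := by rw [hw', mul_one]
      _ = ∑ j, x i * y j * w' j := by simp only [dotProduct, Finset.mul_sum, mul_assoc]
      _ = ∑ j, x j * w' j * y i := Finset.sum_congr rfl fun j _ => by rw [h1 i j]; ring
      _ = ((x ⬝ᵥ w') • y) i := by
        simp only [dotProduct, Pi.smul_apply, smul_eq_mul, Finset.sum_mul]
  have h3 : (x ⬝ᵥ w') * (y ⬝ᵥ w) = 1 := by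
    rw [← hw]
    conv_rhs => rw [h2]
    rw [smul_dotProduct, smul_eq_mul]
  rcases Int.eq_one_or_neg_one_of_mul_eq_one h3 with h4 | h4
  · left; rw [h2, h4, one_smul]
  · right; rw [h2, h4, neg_smul, one_smul]

/-- Primitive vectors split into two sets of pairwise non-proportional vectors. -/
theorem halve {m : ℕ} (X : Finset (Fin m → ℤ)) (h : ∀ x ∈ X, Prim x) : Cov X PW 2 := by
  classical
  refine Cov.of_color (fun x => decide (toLex x < toLex (-x))) Finset.univ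
    (fun _ _ => Finset.mem_univ _) (by simp) fun k _ C hC hk x hx y hy hxy => ?_
  by_contra hn
  rcases cov0_pm (h x (hC hx)) (h y (hC hy)) hn with h1 | h1
  · exact hxy h1
  · have h2 := (hk x hx).trans (hk y hy).symm
    rw [decide_eq_decide, h1, neg_neg] at h2
    have h3 : toLex (-y) ≠ toLex y := fun h4 => hxy (h1.trans (toLex.injective h4))
    rcases lt_or_gt_of_ne h3 with h4 | h4
    · exact lt_asymm h4 (h2.1 h4)
    · exact lt_asymm h4 (h2.2 h4)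

theorem her_PW {n R : Type} [Mul R] : Her (PW : Finset (n → R) → Prop) :=
  fun _ _ hD h x hx y hy => h x (hD hx) y (hD hy)

theorem exists_prim {m : ℕ} (x : Fin m → ℤ) (hx : x ≠ 0) :
    ∃ (k : ℤ) (y : Fin m → ℤ), 0 < k ∧ Prim y ∧ x = k • y := by
  obtain ⟨w, hw⟩ := Finset.gcd_eq_sum_mul (Finset.univ : Finset (Fin m)) x
  have hd : ∀ i, Finset.univ.gcd x ∣ x i := fun i => Finset.gcd_dvd (Finset.mem_univ i)
  generalize Finset.univ.gcd x = d at hw hd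
  have hd0 : d ≠ 0 := by
    rintro rfl
    exact hx (funext fun i => zero_dvd_iff.1 (hd i))
  have hd' : ∀ i, |d| ∣ x i := fun i => (abs_dvd _ _).2 (hd i)
  choose y hy using hd'
  refine ⟨|d|, y, abs_pos.2 hd0, ⟨fun i => d.sign * w i, ?_⟩, funext fun i => hy i⟩
  apply mul_left_cancel₀ (abs_pos.2 hd0).ne'
  calc |d| * (y ⬝ᵥ fun i => d.sign * w i) = d.sign * ∑ i, x i * w i := by
        simp only [dotProduct, Finset.mul_sum]
        exact Finset.sum_congr rfl fun i _ => by rw [hy i]; ring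
    _ = |d| * 1 := by rw [← hw, mul_one, Int.sign_mul_self_eq_abs]

end Pool.Agent.Lib.MP_af4c59_nt.H57
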