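import Pool.Agent.Lib.MP_af4c59_nt.H57Lin
import Pool.Agent.Lib.MP_af4c59_nt.H57Cov0

/-!
The ternary form of a cone.
-/

set_option autoImplicit false

namespace Pool.Agent.Lib.MP_af4c59_nt.H57

open Matrix

theorem conea_dvd {k : ℕ} (A : Matrix (Fin k) (Fin k) ℤ) : DvdM k A A.det := by
  intro f g
  have e : A.submatrix f g = (1 : Matrix (Fin k) (Fin k) ℤ).submatrix f id * A *
      (1 : Matrix (Fin k) (Fin k) ℤ).submatrix id g := by
    ext i j
    simp [Matrix.mul_apply, Matrix.one_apply]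
  rw [e, det_mul, det_mul]
  exact Dvd.dvd.mul_right (Dvd.intro_left _ rfl) _

theorem conea_split {R : Type} [CommRing R] (V : Matrix (Fin 4) (Fin 4) R) (y : Fin 4 → R) :
    V *ᵥ y = V.submatrix id Fin.castSucc *ᵥ (fun i : Fin 3 => y i.castSucc) +
      y 3 • fun i => V i 3 := by
  funext i
  simp only [Matrix.mulVec, dotProduct, Fin.sum_univ_castSucc (n := 3), Pi.add_apply,
    Pi.smul_apply, smul_eq_mul, submatrix_apply, id]
  rw [mul_comm (y 3)]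
  rfl

theorem conea_diag (Q : Matrix (Fin 4) (Fin 3) ℝ) (ν : Fin 4 → ℝ) (h : ν 3 = 0) :
    (Qᵀ * Matrix.diagonal ν * Q).det =
      (Q.submatrix Fin.castSucc id).det ^ 2 * (ν 0 * ν 1 * ν 2) := by
  have e : Qᵀ * Matrix.diagonal ν * Q = (Q.submatrix Fin.castSucc id)ᵀ *
      Matrix.diagonal (fun i : Fin 3 => ν i.castSucc) * Q.submatrix Fin.castSucc id := by
    ext i j
    have h' : ν (Fin.last 3) = 0 := h
    simp only [Matrix.mul_apply, Matrix.diagonal_apply, transpose_apply, submatrix_apply, id,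
      mul_ite, mul_zero, Finset.sum_ite_eq', Finset.mem_univ, if_true]
    rw [Fin.sum_univ_castSucc, h']
    simp
  rw [e, det_mul, det_mul, det_transpose, det_diagonal, Fin.prod_univ_three]
  change _ * (ν 0 * ν 1 * ν 2) * _ = _
  ring

theorem conea_det (M : Matrix (Fin 4) (Fin 4) ℝ) (h : ∀ i : Fin 3, M i.castSucc 3 = 0) :
    M.det = M 3 3 * (M.submatrix Fin.castSucc Fin.castSucc).det := by
  rw [det_succ_column M (Fin.last 3), Fin.sum_univ_castSucc]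
  have h' : ∀ i : Fin 3, M i.castSucc (Fin.last 3) = 0 := h
  simp only [h', mul_zero, zero_mul, Finset.sum_const_zero, zero_add, Fin.succAbove_last]
  norm_num
  exact Or.inl rfl

/-- The ternary form of a quadric cone. -/
theorem cone_data {A : Matrix (Fin 4) (Fin 4) ℤ} {P : Matrix (Fin 4) (Fin 4) ℝ} {ν : Fin 4 → ℝ}
    {X : Finset (Fin 4 → ℤ)} {N B H : ℝ} (h : QD A P ν X N B H) (hD : A.det = 0) {D₀ c : ℤ}
    (hD₀ : D₀ ≠ 0) (hg3 : GcdDvd 3 A D₀) (hg2 : GcdDvd 2 A c) :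
    ∃ (A' : Matrix (Fin 3) (Fin 3) ℤ) (T : Matrix (Fin 4) (Fin 3) ℤ) (r : Fin 4 → ℤ) (τ : ℝ),
      A'.IsSymm ∧ A'.det ≠ 0 ∧ A'.det ∣ D₀ ∧ GcdDvd 2 A' c ∧ τ ≠ 0 ∧ ν 2 ≠ 0 ∧
      P *ᵥ vc ℝ r = τ • Pi.single 3 1 ∧
      ((A'.det : ℤ) : ℝ) * τ ^ 2 = P.det ^ 2 * (ν 0 * ν 1 * ν 2) ∧
      (∀ x : Fin 4 → ℤ, ∃ (ξ : Fin 3 → ℤ) (i : ℤ), x = T *ᵥ ξ + i • r) ∧
      ∀ (ξ ξ' : Fin 3 → ℤ) (i i' : ℤ),
        bf A (T *ᵥ ξ + i • r) (T *ᵥ ξ' + i' • r) = bf A' ξ ξ' := by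
  obtain ⟨r₀, hr₀, hAr₀⟩ := Matrix.exists_mulVec_eq_zero_iff.2 hD
  obtain ⟨k, r, hk, hr, rfl⟩ := exists_prim r₀ hr₀
  have hAr : A *ᵥ r = 0 := by
    rw [Matrix.mulVec_smul] at hAr₀
    exact (smul_eq_zero.1 hAr₀).resolve_left hk.ne'
  obtain ⟨U, U', hU, hrU⟩ := compl4 hr
  have hVr : (fun i => U'ᵀ i 3) = r := by
    have : r = Pi.single 3 1 ᵥ* U' := by rw [← hrU, vecMul_vecMul, hU, vecMul_one]
    rw [this]
    funext i
    simp
  have hVV : U'ᵀ * Uᵀ = 1 := by rw [← transpose_mul, hU, transpose_one]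
  set V := U'ᵀ with hV
  set T : Matrix (Fin 4) (Fin 3) ℤ := V.submatrix id Fin.castSucc with hT
  set T' : Matrix (Fin 3) (Fin 4) ℤ := Uᵀ.submatrix Fin.castSucc id with hT'
  have hx : ∀ x : Fin 4 → ℤ, x = T *ᵥ (T' *ᵥ x) + (Uᵀ *ᵥ x) 3 • r := by
    intro x
    conv_lhs => rw [← Matrix.one_mulVec x, ← hVV, ← mulVec_mulVec, conea_split, hVr]
    rfl
  have hb0 : ∀ y, bf A y r = 0 := fun y => by simp only [bf, hAr, dotProduct_zero]
  have hb : ∀ (ξ ξ' : Fin 3 → ℤ) (i i' : ℤ),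
      bf A (T *ᵥ ξ + i • r) (T *ᵥ ξ' + i' • r) = bf (Tᵀ * A * T) ξ ξ' := by
    intro ξ ξ' i i'
    rw [bf_conj, bf_add_right, bf_smul_right, hb0, bf_add_left, bf_smul_left,
      bf_comm h.symm r, hb0]
    ring
  have hAT : A * (T * T') = A := by
    refine Matrix.ext_of_mulVec_single fun j => ?_
    conv_rhs => rw [hx (Pi.single j 1)]
    rw [mulVec_add, Matrix.mulVec_smul, hAr, smul_zero, add_zero, ← mulVec_mulVec,
      ← mulVec_mulVec]
  have hA : A = T'ᵀ * (Tᵀ * A * T) * T' := by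
    have h1 : (T * T')ᵀ * A = A := by
      have := congrArg Matrix.transpose hAT
      rwa [transpose_mul, h.symm.eq] at this
    calc A = (T * T')ᵀ * (A * (T * T')) := by rw [hAT, h1]
      _ = _ := by simp only [transpose_mul, Matrix.mul_assoc]
  have hdv : ∀ (k : ℕ) (d : ℤ), DvdM k (Tᵀ * A * T) d → DvdM k A d := by
    intro k d hd
    rw [hA]
    exact (hd.mul_left _).mul_right _
  have hdiv : (Tᵀ * A * T).det ∣ D₀ := hg3 _ (hdv 3 _ (conea_dvd _))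
  have hne : (Tᵀ * A * T).det ≠ 0 := fun h0 => hD₀ (by rw [h0] at hdiv; exact zero_dvd_iff.1 hdiv)
  have hν3 : ν 3 = 0 := by
    have h1 := h.det_eq
    rw [hD, Int.cast_zero, eq_comm, mul_eq_zero] at h1
    have h2 : ν 0 * ν 1 * ν 2 * ν 3 = 0 := h1.resolve_left (pow_ne_zero 2 h.detP)
    have h3 : ∀ i, ν i = 0 → ν 3 = 0 := fun i hi => by
      have := h.sorted i 3 (Fin.le_last i)
      rw [hi, abs_zero] at this
      exact abs_nonpos_iff.1 this
    simp only [mul_eq_zero] at h2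
    rcases h2 with ((h2 | h2) | h2) | h2 <;> exact h3 _ h2
  have hdet : (((Tᵀ * A * T).det : ℤ) : ℝ) =
      ((P * mc ℝ T).submatrix Fin.castSucc id).det ^ 2 * (ν 0 * ν 1 * ν 2) := by
    rw [← conea_diag _ _ hν3, ← mc_det, mc_mul, mc_mul, mc_transpose, h.diag]
    simp only [transpose_mul, Matrix.mul_assoc]
  have hνne : ν 0 * ν 1 * ν 2 ≠ 0 := by
    intro h0
    rw [h0, mul_zero] at hdet
    exact hne (by exact_mod_cast hdet)
  have hν0 : ν 0 ≠ 0 := fun h0 => hνne (by rw [h0]; ring)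
  have hν1 : ν 1 ≠ 0 := fun h0 => hνne (by rw [h0]; ring)
  have hν2 : ν 2 ≠ 0 := fun h0 => hνne (by rw [h0]; ring)
  have hPr : ∀ i : Fin 3, (P *ᵥ vc ℝ r) i.castSucc = 0 := by
    have h1 : Pᵀ *ᵥ (Matrix.diagonal ν *ᵥ (P *ᵥ vc ℝ r)) = 0 := by
      rw [mulVec_mulVec, mulVec_mulVec, ← h.diag, ← vc_mulVec, hAr]
      funext i
      simp [vc]
    have h2 := Matrix.eq_zero_of_mulVec_eq_zero (by rw [det_transpose]; exact h.detP) h1
    intro i
    have h3 := congrFun h2 i.castSucc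
    rw [mulVec_diagonal, Pi.zero_apply, mul_eq_zero] at h3
    refine h3.resolve_left ?_
    fin_cases i
    exacts [hν0, hν1, hν2]
  have hcol : ∀ i, (P * mc ℝ V) i 3 = (P *ᵥ vc ℝ r) i := by
    intro i
    rw [← hVr]
    rfl
  have hPV : P.det ^ 2 =
      (P *ᵥ vc ℝ r) 3 ^ 2 * ((P * mc ℝ T).submatrix Fin.castSucc id).det ^ 2 := by
    have h1 := conea_det (P * mc ℝ V) fun i => by rw [hcol, hPr]
    rw [hcol, det_mul, mc_det] at h1
    have h2 : V.det * Uᵀ.det = 1 := by rw [← det_mul, hVV, det_one]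
    have h3 : ((V.det : ℤ) : ℝ) ^ 2 = 1 := by
      rcases Int.eq_one_or_neg_one_of_mul_eq_one h2 with h4 | h4 <;> simp [h4]
    have h4 : (P * mc ℝ V).submatrix Fin.castSucc Fin.castSucc =
        (P * mc ℝ T).submatrix Fin.castSucc id := rfl
    rw [← mul_pow, ← h4, ← h1, mul_pow, h3, mul_one]
  refine ⟨Tᵀ * A * T, T, r, (P *ᵥ vc ℝ r) 3, ?_, hne, hdiv, fun d hd => hg2 d (hdv 2 d hd), ?_,
    hν2, ?_, ?_, fun x => ⟨_, _, hx x⟩, hb⟩
  · rw [Matrix.IsSymm, transpose_mul, transpose_mul, transpose_transpose, h.symm.eq,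
      Matrix.mul_assoc]
  · intro h0
    rw [h0] at hPV
    exact pow_ne_zero 2 h.detP (by rw [hPV]; ring)
  · funext i
    induction i using Fin.lastCases with
    | last => simp [show Fin.last 3 = 3 from rfl]
    | cast i =>
      have hi : i.castSucc ≠ (3 : Fin 4) := Fin.castSucc_ne_last i
      rw [hPr, Pi.smul_apply, Pi.single_eq_of_ne hi, smul_zero]
  · rw [hdet, hPV]
    ring

end Pool.Agent.Lib.MP_af4c59_nt.H57
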