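import Pool.Agent.Lib.MP_af4c59_nt.H57O0

/-!
Arithmetic of the ring of the golden ratio.
-/

set_option autoImplicit false

namespace Pool.Agent.Lib.MP_af4c59_nt.H57

open Matrix

theorem o_th1_pos : 0 < th1 := by linarith [th1_bd.1]

theorem o_th2_eq : th2 = -th1⁻¹ := by
  have h := th1_mul_th2
  have h0 := o_th1_pos.ne'
  field_simp
  linarith

theorem o_om_mul : om * (1 + om) = 1 := by
  ext <;> simp [om, QuadraticAlgebra.re_one, QuadraticAlgebra.im_one]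

theorem o_unit (k : ℤ) : ∃ u u' : O, u * u' = 1 ∧ e1 u = th1 ^ k ∧ e2 u = th2 ^ k := by
  have h1 : e1 (1 + om) = th1⁻¹ := by
    have h := congrArg e1 o_om_mul
    rw [map_mul, map_one, e1_om] at h
    exact eq_inv_of_mul_eq_one_right h
  have h2 : e2 (1 + om) = th2⁻¹ := by
    have h := congrArg e2 o_om_mul
    rw [map_mul, map_one, e2_om] at h
    exact eq_inv_of_mul_eq_one_right h
  obtain ⟨n, rfl | rfl⟩ := k.eq_nat_or_neg
  · refine ⟨om ^ n, (1 + om) ^ n, ?_, ?_, ?_⟩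
    · rw [← mul_pow, o_om_mul, one_pow]
    · rw [map_pow, e1_om, zpow_natCast]
    · rw [map_pow, e2_om, zpow_natCast]
  · refine ⟨(1 + om) ^ n, om ^ n, ?_, ?_, ?_⟩
    · rw [← mul_pow, mul_comm, o_om_mul, one_pow]
    · rw [map_pow, h1, _root_.zpow_neg, zpow_natCast, inv_pow]
    · rw [map_pow, h2, _root_.zpow_neg, zpow_natCast, inv_pow]

theorem o_abs_th2 (k : ℤ) : |th2 ^ k| = (th1 ^ k)⁻¹ := by
  rw [abs_zpow, o_th2_eq, abs_neg, abs_of_pos (inv_pos.2 o_th1_pos), _root_.inv_zpow]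

theorem o_balance {x y : ℝ} (hx : 0 < x) (hy : 0 < y) : ∃ k : ℤ,
    th1 ^ k * x ≤ 2 * ((th1 ^ k)⁻¹ * y) ∧ (th1 ^ k)⁻¹ * y ≤ 2 * (th1 ^ k * x) := by
  have h0 := o_th1_pos
  have hb := th1_bd
  have hc : 1 < (th1⁻¹) ^ 2 := by
    have : 1 < th1⁻¹ := (one_lt_inv₀ h0).2 (by linarith [hb.2])
    nlinarith
  have hc4 : (th1⁻¹) ^ 2 ≤ 4 := by
    have h1 : th1⁻¹ ≤ 2 := by
      rw [inv_le_comm₀ h0 (by norm_num)]
      linarith [hb.1]
    have h2 : 0 < th1⁻¹ := inv_pos.2 h0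
    nlinarith
  obtain ⟨n, hn1, hn2⟩ := exists_mem_Ico_zpow (x := 2 * x / y) (by positivity) hc
  have ht : 0 < th1 ^ n := zpow_pos h0 n
  have e : ((th1⁻¹) ^ 2) ^ n = ((th1 ^ n)⁻¹) ^ 2 := by
    rw [sq, mul_zpow, _root_.inv_zpow, sq]
  rw [zpow_add_one₀ (by positivity), e] at hn2
  rw [e] at hn1
  refine ⟨n, ?_, ?_⟩
  · generalize th1 ^ n = t at *
    rw [div_lt_iff₀ hy] at hn2
    have h3 : 2 * x ≤ (t⁻¹) ^ 2 * 4 * y := by
      refine hn2.le.trans ?_
      gcongr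
    have h4 : t * ((t⁻¹) ^ 2 * 4 * y) = 4 * (t⁻¹ * y) := by field_simp
    nlinarith
  · generalize th1 ^ n = t at *
    rw [le_div_iff₀ hy] at hn1
    have h4 : t * ((t⁻¹) ^ 2 * y) = t⁻¹ * y := by field_simp
    nlinarith

/-- Balancing by a unit. -/
theorem balance {x y : ℝ} (hx : 0 < x) (hy : 0 < y) : ∃ u u' : O, u * u' = 1 ∧
    |e1 u| * x ≤ 2 * (|e2 u| * y) ∧ |e2 u| * y ≤ 2 * (|e1 u| * x) := by
  obtain ⟨k, h1, h2⟩ := o_balance hx hy
  obtain ⟨u, u', hu, a1, a2⟩ := o_unit k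
  refine ⟨u, u', hu, ?_, ?_⟩
  · rw [a1, a2, o_abs_th2, abs_of_pos (zpow_pos o_th1_pos k)]
    exact h1
  · rw [a1, a2, o_abs_th2, abs_of_pos (zpow_pos o_th1_pos k)]
    exact h2

theorem o_small {v : O} (h0 : |e1 v| * |e2 v| = 1) (h1 : |e1 v| ≤ 2 * |e2 v|)
    (h2 : |e2 v| ≤ 2 * |e1 v|) : v = 1 ∨ v = -1 := by
  have hb := th1_bd
  have a1 : |e1 v| < 3 / 2 := by nlinarith [abs_nonneg (e1 v), abs_nonneg (e2 v)]
  have a2 : |e2 v| < 3 / 2 := by nlinarith [abs_nonneg (e1 v), abs_nonneg (e2 v)]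
  have hn : |QuadraticAlgebra.norm v| = 1 := by
    have : ((|QuadraticAlgebra.norm v| : ℤ) : ℝ) = 1 := by
      rw [Int.cast_abs, ← e1_mul_e2, abs_mul, h0]
    exact_mod_cast this
  obtain ⟨a, b⟩ := v
  rw [e1_apply, abs_lt] at a1
  rw [e2_apply, th2_eq, abs_lt] at a2
  simp only at a1 a2
  rw [QuadraticAlgebra.norm_def] at hn
  simp only at hn
  have b1 : b < 2 := by
    by_contra hc
    have : (2 : ℝ) ≤ b := by exact_mod_cast not_lt.1 hc
    nlinarith [a1.1, a1.2, a2.1, a2.2]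
  have b2 : -2 < b := by
    by_contra hc
    have : (b : ℝ) ≤ -2 := by exact_mod_cast not_lt.1 hc
    nlinarith [a1.1, a1.2, a2.1, a2.2]
  have c1 : 2 * a - b < 3 := by
    have : (2 * a - b : ℝ) < 3 := by nlinarith [a1.1, a1.2, a2.1, a2.2]
    exact_mod_cast this
  have c2 : -3 < 2 * a - b := by
    have : (-3 : ℝ) < 2 * a - b := by nlinarith [a1.1, a1.2, a2.1, a2.2]
    exact_mod_cast this
  have d1 : a < 2 := by omega
  have d2 : -2 < a := by omega
  interval_cases a <;> interval_cases b <;>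
    first
    | (left; rfl)
    | (right; rfl)
    | (exfalso; revert hn; decide)
    | (exfalso; push_cast at a1 a2; linarith [a1.1, a1.2, a2.1, a2.2, hb.1, hb.2])

theorem o_s5_sq : s5 * s5 = 5 := by
  ext <;> simp [s5, QuadraticAlgebra.re_ofNat, QuadraticAlgebra.im_ofNat]

theorem o_norm_s5 : QuadraticAlgebra.norm s5 = -5 := by
  rw [QuadraticAlgebra.norm_def]
  simp [s5]

theorem o_norm_unit {w w' : O} (h : w * w' = 1) : |QuadraticAlgebra.norm w| = 1 := by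
  have h1 := congrArg QuadraticAlgebra.norm h
  rw [map_mul, map_one] at h1
  rcases Int.eq_one_or_neg_one_of_mul_eq_one h1 with h2 | h2 <;> simp [h2]

theorem o_of_abs {u w w' : O} (hw : w * w' = 1) (h : |e1 u * e1 w| = |-th1 * e2 w|) :
    ∃ g g' : O, g * g' = 5 ∧ |QuadraticAlgebra.norm g| ≤ 5 ∧ e1 u * e1 g = -th1 * e2 g := by
  have hn := o_norm_unit hw
  rcases abs_eq_abs.1 h with h1 | h1
  · refine ⟨w, 5 * w', ?_, by rw [hn]; norm_num, h1⟩
    linear_combination 5 * hw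
  · refine ⟨w * s5, w' * s5, ?_, ?_, ?_⟩
    · linear_combination (s5 * s5) * hw + o_s5_sq
    · rw [map_mul, abs_mul, hn, o_norm_s5]
      norm_num
    · rw [map_mul, map_mul, e1_s5, e2_s5]
      linear_combination √5 * h1

/-- A unit of norm minus one is minus the generator up to a coboundary. -/
theorem norm_neg_one {u : O} (h : QuadraticAlgebra.norm u = -1) : ∃ g g' : O, g * g' = 5 ∧
    |QuadraticAlgebra.norm g| ≤ 5 ∧ e1 u * e1 g = -th1 * e2 g := by
  have h0 := o_th1_pos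
  have hp : e1 u * e2 u = -1 := by rw [e1_mul_e2, h]; norm_num
  have hx : 0 < |e1 u| := abs_pos.2 fun hc => by simp [hc] at hp
  have hy : 0 < |e2 u| := abs_pos.2 fun hc => by simp [hc] at hp
  obtain ⟨k, h1, h2⟩ := o_balance hx hy
  obtain ⟨w, w', -, a1, a2⟩ := o_unit k
  have ht : 0 < th1 ^ k := zpow_pos h0 k
  have b1 : |e1 (w * u)| = th1 ^ k * |e1 u| := by rw [map_mul, abs_mul, a1, abs_of_pos ht]
  have b2 : |e2 (w * u)| = (th1 ^ k)⁻¹ * |e2 u| := by rw [map_mul, abs_mul, a2, o_abs_th2]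
  have hab : |e1 u| * |e2 u| = 1 := by rw [← abs_mul, hp]; norm_num
  have hs : w * u = 1 ∨ w * u = -1 := by
    refine o_small ?_ (by rw [b1, b2]; exact h1) (by rw [b1, b2]; exact h2)
    rw [b1, b2]
    field_simp
    exact hab
  have hm : e1 (w * u) * e2 (w * u) = 1 := by
    rcases hs with hs | hs <;> simp [hs]
  have hb : th1 ^ k * |e1 u| = 1 := by
    rw [← b1]
    rcases hs with hs | hs <;> simp [hs]
  have hk : (-1 : ℝ) ^ k = -1 := by
    rw [map_mul, map_mul, a1, a2] at hm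
    rw [← th1_mul_th2, mul_zpow, th1_mul_th2]
    linear_combination (-1) * hm + (th1 ^ k * th2 ^ k) * hp
  obtain ⟨j, rfl | rfl⟩ := Int.even_or_odd' k
  · rw [_root_.zpow_mul] at hk
    norm_num at hk
  · obtain ⟨g, g', hg, c1, c2⟩ := o_unit (j + 1)
    refine o_of_abs hg ?_
    have hj : 0 < th1 ^ j := zpow_pos h0 j
    rw [abs_mul, abs_mul, c1, c2, o_abs_th2, abs_neg, abs_of_pos h0,
      abs_of_pos (zpow_pos h0 (j + 1)), zpow_add_one₀ h0.ne']
    rw [zpow_add_one₀ h0.ne', two_mul, zpow_add₀ h0.ne'] at hb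
    field_simp
    linear_combination hb

theorem exists_coprime {a b : O} (h : a ≠ 0 ∨ b ≠ 0) :
    ∃ g a' b' : O, g ≠ 0 ∧ a = g * a' ∧ b = g * b' ∧ IsCoprime a' b' := by
  classical
  let _ : GCDMonoid O := IsBezout.toGCDDomain O
  obtain ⟨a', b', ha, hb, hu⟩ := extract_gcd a b
  refine ⟨gcd a b, a', b', ?_, ha, hb, (gcd_isUnit_iff a' b').1 hu⟩
  intro h0
  rw [gcd_eq_zero_iff] at h0
  rcases h with h | h
  · exact h h0.1
  · exact h h0.2

theorem o_mul_star (a : O) : a * star a = ((QuadraticAlgebra.norm a : ℤ) : O) := by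
  rw [← QuadraticAlgebra.algebraMap_norm_eq_mul_star]
  simp

theorem o_not_dvd {b c : O} (hb : IsCoprime b (star b)) (hc : star c = c ∨ star c = -c)
    (hn : ¬ IsUnit (QuadraticAlgebra.norm c)) : ¬ c ∣ b := by
  rintro ⟨d, hd⟩
  have h1 : c ∣ star b := by
    rw [hd, star_mul']
    rcases hc with hc | hc <;> rw [hc]
    · exact dvd_mul_right _ _
    · exact (dvd_neg.2 dvd_rfl).mul_right _
  exact hn (QuadraticAlgebra.isUnit_iff_norm_isUnit.1 (hb.isUnit_of_dvd' ⟨d, hd⟩ h1))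

theorem o_int_dvd {b : O} {l : ℤ} (h1 : l ∣ b.re) (h2 : l ∣ b.im) : (⟨l, 0⟩ : O) ∣ b := by
  obtain ⟨x, hx⟩ := h1
  obtain ⟨y, hy⟩ := h2
  exact ⟨⟨x, y⟩, by ext <;> simp [hx, hy]⟩

theorem o_seven {b : O} (hb : IsCoprime b (star b)) {l : ℕ} (hl : l.Prime)
    (hd : (l : ℤ) ∣ QuadraticAlgebra.norm b) : 7 ≤ l := by
  by_contra hc
  have h2 := hl.two_le
  have h7 : l < 7 := not_le.1 hc
  rw [QuadraticAlgebra.norm_def] at hd
  have hu : ∀ m : ℤ, ¬ IsUnit (m * m) → m ∣ b.re → m ∣ b.im → False := fun m hm h1 h2 =>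
    o_not_dvd hb (c := ⟨m, 0⟩) (Or.inl (by ext <;> simp))
      (by rw [QuadraticAlgebra.norm_def]; simpa using hm) (o_int_dvd h1 h2)
  interval_cases l
  · have h : ∀ x y : ZMod 2, x * x + -1 * x * y - 1 * y * y = 0 → x = 0 ∧ y = 0 := by decide
    have h3 := h b.re b.im (by exact_mod_cast (ZMod.intCast_zmod_eq_zero_iff_dvd _ 2).2 hd)
    exact hu 2 (by decide) ((ZMod.intCast_zmod_eq_zero_iff_dvd _ 2).1 h3.1)
      ((ZMod.intCast_zmod_eq_zero_iff_dvd _ 2).1 h3.2)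
  · have h : ∀ x y : ZMod 3, x * x + -1 * x * y - 1 * y * y = 0 → x = 0 ∧ y = 0 := by decide
    have h3 := h b.re b.im (by exact_mod_cast (ZMod.intCast_zmod_eq_zero_iff_dvd _ 3).2 hd)
    exact hu 3 (by decide) ((ZMod.intCast_zmod_eq_zero_iff_dvd _ 3).1 h3.1)
      ((ZMod.intCast_zmod_eq_zero_iff_dvd _ 3).1 h3.2)
  · exact absurd hl (by decide)
  · have h : ∀ x y : ZMod 5, x * x + -1 * x * y - 1 * y * y = 0 → x + 2 * y = 0 := by decide
    have h3 := h b.re b.im (by exact_mod_cast (ZMod.intCast_zmod_eq_zero_iff_dvd _ 5).2 hd)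
    have h4 : ((5 : ℕ) : ℤ) ∣ b.re + 2 * b.im :=
      (ZMod.intCast_zmod_eq_zero_iff_dvd _ 5).1 (by exact_mod_cast h3)
    obtain ⟨m, hm⟩ := h4
    refine o_not_dvd hb (c := s5) (Or.inr (by ext <;> simp [s5])) (by rw [o_norm_s5]; decide)
      ⟨⟨m, 2 * m - b.im⟩, ?_⟩
    push_cast at hm
    ext <;> simp [s5] <;> linarith
  · exact absurd hl (by decide)

theorem o_six {a b δ κ : O} (hb : b ≠ 0) (w : O) (hw : a = w * star b)
    (hc : IsCoprime b (star b)) (h1 : δ * b ^ 2 = a ^ 2 * star δ) (h2 : star δ ^ 2 = κ * δ)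
    (hδ : δ ≠ 0) : QuadraticAlgebra.norm b ^ 6 ∣ QuadraticAlgebra.norm δ := by
  have hsb : star b ≠ 0 := star_ne_zero.2 hb
  have d1 : star b ^ 2 ∣ δ := by
    refine (hc.symm.pow (m := 2) (n := 2)).dvd_of_dvd_mul_right ⟨w ^ 2 * star δ, ?_⟩
    rw [h1, hw]
    ring
  obtain ⟨δ0, h0⟩ := d1
  have hs : star δ = b ^ 2 * star δ0 := by rw [h0, star_mul', star_pow, star_star]
  have hδ0 : star δ0 ≠ 0 := star_ne_zero.2 fun hz => hδ (by rw [h0, hz, mul_zero])
  have e0 : δ0 = w ^ 2 * star δ0 := by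
    refine mul_left_cancel₀ (mul_ne_zero (pow_ne_zero 2 hsb) (pow_ne_zero 2 hb)) ?_
    rw [hs, hw] at h1
    linear_combination h1 - b ^ 2 * h0
  have e4 : star δ0 * b ^ 4 = star b ^ 2 * (κ * w ^ 2) := by
    refine mul_left_cancel₀ hδ0 ?_
    rw [hs] at h2
    linear_combination h2 + κ * h0 + κ * star b ^ 2 * e0
  have d2 : star b ^ 2 ∣ star δ0 :=
    (hc.symm.pow (m := 2) (n := 4)).dvd_of_dvd_mul_right ⟨_, e4⟩
  have d3 : b ^ 2 ∣ δ0 := by
    obtain ⟨c, hc'⟩ := d2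
    refine ⟨star c, ?_⟩
    have := congrArg star hc'
    rwa [star_star, star_mul', star_pow, star_star] at this
  have d4 : star b ^ 2 ∣ δ0 := by
    rw [e0]
    exact d2.mul_left _
  obtain ⟨δ1, h5⟩ := (hc.pow (m := 2) (n := 2)).mul_dvd d3 d4
  refine ⟨QuadraticAlgebra.norm δ1, ?_⟩
  rw [h0, h5]
  simp only [map_mul, map_pow, QuadraticAlgebra.norm_star]
  ring

/-- The ratio of the two determinants is a unit. -/
theorem rho_core {p q δ κ : O} (hq : q ≠ 0)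
    (hn : QuadraticAlgebra.norm p = -QuadraticAlgebra.norm q) (h1 : δ * q ^ 2 = p ^ 2 * star δ)
    (h2 : star δ ^ 2 = κ * δ) (hδ : δ ≠ 0)
    (ht : ∀ l : ℕ, l.Prime → 7 ≤ l → ¬ (l : ℤ) ^ 6 ∣ QuadraticAlgebra.norm δ) :
    ∃ u : O, QuadraticAlgebra.norm u = -1 ∧ p = u * q := by
  obtain ⟨g, a, b, hg, rfl, rfl, hab⟩ := exists_coprime (a := p) (b := q) (Or.inr hq)
  have hb : b ≠ 0 := fun h => hq (by rw [h, mul_zero])
  have hNg : QuadraticAlgebra.norm g ≠ 0 := fun h => hg (norm_eq_zero h)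
  have hN : QuadraticAlgebra.norm a = -QuadraticAlgebra.norm b := by
    refine mul_left_cancel₀ hNg ?_
    rw [map_mul, map_mul] at hn
    linear_combination hn
  have hst : a * star a = -(b * star b) := by
    rw [o_mul_star, o_mul_star, hN]
    push_cast
    rfl
  have d1 : b ∣ star a := hab.symm.dvd_of_dvd_mul_left ⟨-star b, by rw [hst]; ring⟩
  obtain ⟨c, hc⟩ := d1
  have hw : a = star c * star b := by
    have := congrArg star hc
    rwa [star_star, star_mul', mul_comm] at this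
  have hcop : IsCoprime b (star b) := by
    have := hab.symm
    rw [hw] at this
    exact this.of_mul_right_right
  have h3 : δ * b ^ 2 = a ^ 2 * star δ := by
    refine mul_left_cancel₀ (pow_ne_zero 2 hg) ?_
    linear_combination h1
  have h6 := o_six hb (star c) hw hcop h3 h2 hδ
  have hu : (QuadraticAlgebra.norm b).natAbs = 1 := by
    by_contra hne
    have hl := Nat.minFac_prime hne
    have hd : (((QuadraticAlgebra.norm b).natAbs.minFac : ℕ) : ℤ) ∣ QuadraticAlgebra.norm b :=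
      Int.natCast_dvd.2 (Nat.minFac_dvd _)
    exact ht _ hl (o_seven hcop hl hd) ((pow_dvd_pow_of_dvd hd 6).trans h6)
  obtain ⟨b', hb'⟩ := (QuadraticAlgebra.isUnit_iff_norm_isUnit.2
    (Int.isUnit_iff_natAbs_eq.2 hu)).exists_right_inv
  refine ⟨a * b', ?_, by linear_combination (-(g * a)) * hb'⟩
  have h7 := congrArg QuadraticAlgebra.norm hb'
  rw [map_mul, map_one] at h7
  rw [map_mul, hN]
  linear_combination (-1) * h7

end Pool.Agent.Lib.MP_af4c59_nt.H57
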