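import Pool.Agent.Lib.MP_af4c59_nt.H57Conic0
import Pool.Agent.Lib.MP_af4c59_nt.H57O

/-!
Points on a conic and elements of given norm.
-/

set_option autoImplicit false

namespace Pool.Agent.Lib.MP_af4c59_nt.H57

open Matrix

theorem conic_norm (a : O) :
    QuadraticAlgebra.norm a = a.re * a.re - a.re * a.im - a.im * a.im := by
  rw [QuadraticAlgebra.norm_def]; ring

theorem conic_mul_le {x y Z : ℝ} (hx : |x| ≤ Z) (hy : |y| ≤ Z) :
    -(Z ^ 2) ≤ x * y ∧ x * y ≤ Z ^ 2 := by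
  rw [← abs_le, abs_mul, sq]
  exact mul_le_mul hx hy (abs_nonneg _) ((abs_nonneg _).trans hx)

theorem conic_norm_le {a : O} {Z : ℝ} (h : OB a Z) :
    |((QuadraticAlgebra.norm a : ℤ) : ℝ)| ≤ 3 * Z ^ 2 := by
  rw [conic_norm]
  push_cast
  have h1 := conic_mul_le h.1 h.1
  have h2 := conic_mul_le h.1 h.2
  have h3 := conic_mul_le h.2 h.2
  rw [abs_le]
  constructor <;> linarith [h1.1, h1.2, h2.1, h2.2, h3.1, h3.2]

theorem conic_fib {ι : Type} (X : Finset ι) (φ : ι → ℤ) {c : ℤ} (hc : c ≠ 0)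
    (hφ : ∀ x ∈ X, φ x ∣ c) {n : ℝ} (hn : 0 ≤ n)
    (h : ∀ k : ℤ, ∀ C ⊆ X, (∀ x ∈ C, φ x = k) → (C.card : ℝ) ≤ n) :
    (X.card : ℝ) ≤ 2 * (c.natAbs.divisors.card : ℝ) * n := by
  classical
  refine card_le_fib φ (c.natAbs.divisors.image (fun d : ℕ => (d : ℤ)) ∪
    c.natAbs.divisors.image (fun d : ℕ => -(d : ℤ))) (fun x hx => ?_) ?_ hn fun k _ => h k
  · have h1 : (φ x).natAbs ∈ c.natAbs.divisors :=
      Nat.mem_divisors.2 ⟨Int.natAbs_dvd_natAbs.2 (hφ x hx), Int.natAbs_ne_zero.2 hc⟩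
    rcases Int.natAbs_eq (φ x) with h2 | h2
    · exact Finset.mem_union_left _ (Finset.mem_image.2 ⟨_, h1, h2.symm⟩)
    · exact Finset.mem_union_right _ (Finset.mem_image.2 ⟨_, h1, h2.symm⟩)
  · have h1 := Finset.card_union_le (c.natAbs.divisors.image (fun d : ℕ => (d : ℤ)))
      (c.natAbs.divisors.image (fun d : ℕ => -(d : ℤ)))
    have h2 : (c.natAbs.divisors.image (fun d : ℕ => (d : ℤ))).card ≤ c.natAbs.divisors.card :=
      Finset.card_image_le
    have h3 : (c.natAbs.divisors.image (fun d : ℕ => -(d : ℤ))).card ≤ c.natAbs.divisors.card :=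
      Finset.card_image_le
    have h4 : (c.natAbs.divisors.image (fun d : ℕ => (d : ℤ)) ∪
        c.natAbs.divisors.image (fun d : ℕ => -(d : ℤ))).card ≤ 2 * c.natAbs.divisors.card := by
      omega
    exact_mod_cast h4

theorem conic_div : ∃ f, SP f ∧ ∀ (N : ℝ) (c : ℤ), c ≠ 0 → |(c : ℝ)| ≤ N →
    (c.natAbs.divisors.card : ℝ) ≤ f N := by
  obtain ⟨f, hf, h⟩ := SP_div (K := 1) le_rfl 1
  refine ⟨f, hf, fun N c hc hN => ?_⟩
  have := h N c.natAbs (Int.natAbs_ne_zero.2 hc) (by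
    rw [Nat.cast_natAbs, Int.cast_abs]; exact hN)
  simpa using this

theorem conic_bf (n : ℤ) (x y : Fin 3 → ℤ) :
    bf !![2, -1, 0; -1, -2, 0; 0, 0, -2 * n] x y =
      2 * (x 0 * y 0) - x 0 * y 1 - x 1 * y 0 - 2 * (x 1 * y 1) - 2 * n * (x 2 * y 2) := by
  simp [bf, dotProduct, Matrix.mulVec, Fin.sum_univ_three]
  ring

theorem conic_adj (n : ℤ) :
    bf (mc ℝ !![2, -1, 0; -1, -2, 0; 0, 0, -2 * n]).adjugate ![0, 0, 1] ![0, 0, 1] = -5 := by
  simp [bf, dotProduct, Matrix.mulVec, Fin.sum_univ_three, Matrix.adjugate_fin_three, mc]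
  norm_num

/-- Elements of given norm. -/
theorem rep1 : ∃ f, SP f ∧ ∀ (Z : ℝ) (n : ℤ) (X : Finset O), 1 ≤ Z →
    (∀ a ∈ X, OB a Z ∧ QuadraticAlgebra.norm a = n) → (X.card : ℝ) ≤ f Z := by
  classical
  obtain ⟨f, hf, h⟩ := conic
  have hf' : SP fun x => 2 * f (60 * x ^ 2) :=
    (hf.comp (c := 60) (by norm_num) 2).cmul (by norm_num)
  refine ⟨_, hf', fun Z n X hZ hX => ?_⟩
  by_cases hn : n = 0
  · have h1 : X.card ≤ 1 := Finset.card_le_one.2 fun a ha b hb => by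
      rw [norm_eq_zero ((hX a ha).2.trans hn), norm_eq_zero ((hX b hb).2.trans hn)]
    have h2 : (X.card : ℝ) ≤ 1 := by exact_mod_cast h1
    exact h2.trans (hf'.one_le Z hZ)
  rcases X.eq_empty_or_nonempty with rfl | ⟨a0, ha0⟩
  · simpa using (hf'.pos hZ).le
  have hZ2 : 1 ≤ Z ^ 2 := one_le_pow₀ hZ
  have hnZ : |(n : ℝ)| ≤ 3 * Z ^ 2 := (hX a0 ha0).2 ▸ conic_norm_le (hX a0 ha0).1
  let g : O → Fin 3 → ℤ := fun a => ![a.re, a.im, 1]
  have hg : Function.Injective g := fun a b hab =>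
    QuadraticAlgebra.ext (congrFun hab 0) (congrFun hab 1)
  have hdet : (!![2, -1, 0; -1, -2, 0; 0, 0, -2 * n] : Matrix (Fin 3) (Fin 3) ℤ).det = 10 * n := by
    simp [Matrix.det_fin_three]
    ring
  have key := h (60 * Z ^ 2) !![2, -1, 0; -1, -2, 0; 0, 0, -2 * n] 5 1 (X.image g) ![0, 0, 1] 1
    (by linarith) (by
      ext i j
      fin_cases i <;> fin_cases j <;> rfl) (by rw [hdet]; omega) (by
      rw [hdet]
      push_cast
      rw [abs_mul, abs_of_pos (by norm_num : (0 : ℝ) < 10)]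
      linarith) (Nat.prime_five.prime.squarefree) one_ne_zero (fun d hd => by
      have h1 := hd ![0, 1] ![0, 1]
      have h2 : ((!![2, -1, 0; -1, -2, 0; 0, 0, -2 * n] : Matrix (Fin 3) (Fin 3) ℤ).submatrix
          ![0, 1] ![0, 1]).det = -5 := by
        simp [Matrix.det_fin_two]
      rw [h2] at h1
      simpa using h1) (fun x hx => by
      obtain ⟨a, ha, rfl⟩ := Finset.mem_image.1 hx
      have h1 := (hX a ha).2
      rw [conic_norm] at h1
      rw [conic_bf]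
      change 2 * (a.re * a.re) - a.re * a.im - a.im * a.re - 2 * (a.im * a.im) -
        2 * n * (1 * 1) = 0
      linear_combination 2 * h1) (fun x hx y hy hxy => by
      obtain ⟨a, ha, rfl⟩ := Finset.mem_image.1 hx
      obtain ⟨b, hb, rfl⟩ := Finset.mem_image.1 hy
      by_contra hc
      apply hxy
      have h0 : a.re * 1 = 1 * b.re := by_contra fun h => hc ⟨0, 2, h⟩
      have h1 : a.im * 1 = 1 * b.im := by_contra fun h => hc ⟨1, 2, h⟩
      rw [show a = b from QuadraticAlgebra.ext (by linarith) (by linarith)]) (fun x hx y hy => by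
      obtain ⟨a, ha, rfl⟩ := Finset.mem_image.1 hx
      obtain ⟨b, hb, rfl⟩ := Finset.mem_image.1 hy
      rw [conic_bf]
      change |((2 * (a.re * b.re) - a.re * b.im - a.im * b.re - 2 * (a.im * b.im) -
        2 * n * (1 * 1) : ℤ) : ℝ)| ≤ _
      push_cast
      have h1 := conic_mul_le (hX a ha).1.1 (hX b hb).1.1
      have h2 := conic_mul_le (hX a ha).1.1 (hX b hb).1.2
      have h3 := conic_mul_le (hX a ha).1.2 (hX b hb).1.1
      have h4 := conic_mul_le (hX a ha).1.2 (hX b hb).1.2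
      have h5 := abs_le.1 hnZ
      rw [abs_le]
      constructor <;> linarith [h1.1, h1.2, h2.1, h2.2, h3.1, h3.2, h4.1, h4.2, h5.1, h5.2])
    zero_le_one (fun x hx => by
      obtain ⟨a, ha, rfl⟩ := Finset.mem_image.1 hx
      simp [g, vc, dotProduct, Fin.sum_univ_three]) (by rw [conic_adj]; norm_num)
  rw [Finset.card_image_of_injective _ hg, conic_adj] at key
  have h5 : (1 : ℝ) ≤ √|(-5 : ℝ)| := Real.one_le_sqrt.2 (by norm_num)
  have h6 : ((1 : ℕ) : ℝ) * 1 / √|(-5 : ℝ)| ≤ 1 := by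
    rw [div_le_one (by linarith), Nat.cast_one, one_mul]
    exact h5
  have h7 : 0 < f (60 * Z ^ 2) := hf.pos (by linarith)
  nlinarith

/-- Factorisations in the quadratic ring. -/
theorem rep2 : ∃ f, SP f ∧ ∀ (Z : ℝ) (c : O) (X : Finset (O × O)), 1 ≤ Z → c ≠ 0 →
    (∀ a ∈ X, OB a.1 Z ∧ OB a.2 Z ∧ a.1 * a.2 = c) → (X.card : ℝ) ≤ f Z := by
  classical
  obtain ⟨f, hf, h⟩ := rep1
  obtain ⟨g, hg, h'⟩ := conic_div
  have hf' : SP fun x => 2 * g (9 * x ^ 4) * f x :=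
    ((hg.comp (c := 9) (by norm_num) 4).cmul (by norm_num)).mul hf
  refine ⟨_, hf', fun Z c X hZ hc hX => ?_⟩
  rcases X.eq_empty_or_nonempty with rfl | ⟨a0, ha0⟩
  · simpa using (hf'.pos hZ).le
  have hc' : QuadraticAlgebra.norm c ≠ 0 := fun h0 => hc (norm_eq_zero h0)
  have hcZ : |((QuadraticAlgebra.norm c : ℤ) : ℝ)| ≤ 9 * Z ^ 4 := by
    rw [← (hX a0 ha0).2.2, map_mul, Int.cast_mul, abs_mul]
    calc _ ≤ 3 * Z ^ 2 * (3 * Z ^ 2) := mul_le_mul (conic_norm_le (hX a0 ha0).1)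
          (conic_norm_le (hX a0 ha0).2.1) (abs_nonneg _) (by positivity)
      _ = _ := by ring
  have key := conic_fib X (fun a => QuadraticAlgebra.norm a.1) hc' (fun a ha => by
      rw [← (hX a ha).2.2, map_mul]
      exact dvd_mul_right _ _) (hf.pos hZ).le fun k C hC hk => by
    have hinj : Set.InjOn Prod.fst (C : Set (O × O)) := fun a ha b hb hab => by
      have h1 := (hX a (hC ha)).2.2
      have h2 := (hX b (hC hb)).2.2
      have h3 : a.1 ≠ 0 := fun h0 => hc (by rw [← h1, h0, zero_mul])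
      refine Prod.ext hab (mul_left_cancel₀ h3 ?_)
      rw [h1, hab, h2]
    rw [← Finset.card_image_of_injOn hinj]
    refine h Z k _ hZ fun x hx => ?_
    obtain ⟨a, ha, rfl⟩ := Finset.mem_image.1 hx
    exact ⟨(hX a (hC ha)).1, hk a ha⟩
  refine key.trans (mul_le_mul_of_nonneg_right ?_ (hf.pos hZ).le)
  exact mul_le_mul_of_nonneg_left (h' _ _ hc' hcZ) (by norm_num)

/-- Factorisations of an integer. -/
theorem rep3 : ∃ f, SP f ∧ ∀ (Z : ℝ) (c : ℤ) (X : Finset (ℤ × ℤ)), 1 ≤ Z → c ≠ 0 →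
    (∀ a ∈ X, |(a.1 : ℝ)| ≤ Z ∧ |(a.2 : ℝ)| ≤ Z ∧ a.1 * a.2 = c) → (X.card : ℝ) ≤ f Z := by
  obtain ⟨g, hg, h'⟩ := conic_div
  have hf' : SP fun x => 2 * g (1 * x ^ 2) := (hg.comp (c := 1) le_rfl 2).cmul (by norm_num)
  refine ⟨_, hf', fun Z c X hZ hc hX => ?_⟩
  rcases X.eq_empty_or_nonempty with rfl | ⟨a0, ha0⟩
  · simpa using (hf'.pos hZ).le
  have hcZ : |(c : ℝ)| ≤ 1 * Z ^ 2 := by
    rw [← (hX a0 ha0).2.2, Int.cast_mul, one_mul]
    exact abs_le.2 (conic_mul_le (hX a0 ha0).1 (hX a0 ha0).2.1)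
  have key := conic_fib X (fun a => a.1) hc (fun a ha => by
      rw [← (hX a ha).2.2]
      exact dvd_mul_right _ _) zero_le_one fun k C hC hk => by
    have h1 : C.card ≤ 1 := Finset.card_le_one.2 fun a ha b hb => by
      have h1 := (hX a (hC ha)).2.2
      have h2 := (hX b (hC hb)).2.2
      have hab : a.1 = b.1 := (hk a ha).trans (hk b hb).symm
      have h3 : a.1 ≠ 0 := fun h0 => hc (by rw [← h1, h0, zero_mul])
      refine Prod.ext hab (mul_left_cancel₀ h3 ?_)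
      rw [h1, hab, h2]
    exact_mod_cast h1
  rw [mul_one] at key
  exact key.trans (mul_le_mul_of_nonneg_left (h' _ _ hc hcZ) (by norm_num))

end Pool.Agent.Lib.MP_af4c59_nt.H57
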