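import Pool.Agent.Lib.MP_af4c59_nt.H57Cov
import Pool.Agent.Lib.MP_af4c59_nt.H57Gram

/-!
Real cells on a ternary quadratic form.
-/

set_option autoImplicit false

namespace Pool.Agent.Lib.MP_af4c59_nt.H57

open Matrix

theorem corer_mul2 {a b a' b' : ℝ} (ha : |a| ≤ a') (hb : |b| ≤ b') : |a * b| ≤ a' * b' := by
  rw [abs_mul]
  exact mul_le_mul ha hb (abs_nonneg _) ((abs_nonneg _).trans ha)

theorem corer_mul3 {a b c a' b' c' : ℝ} (ha : |a| ≤ a') (hb : |b| ≤ b') (hc : |c| ≤ c') :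
    |a * b * c| ≤ a' * b' * c' := corer_mul2 (corer_mul2 ha hb) hc

theorem corer_delta {β ε ε' E : ℝ} (hE : 0 < E) (hβ : 8 * E < |β|) (h1 : |ε| ≤ E)
    (h2 : |ε'| ≤ E) : E * E ≤ |β| ^ 2 / 64 ∧ 63 / 64 * |β| ^ 2 ≤ β ^ 2 - ε * ε' ∧
      β ^ 2 - ε * ε' ≤ 65 / 64 * |β| ^ 2 := by
  have a : E * E ≤ |β| ^ 2 / 64 := by nlinarith
  have b := abs_le.1 (corer_mul2 h1 h2)
  have c := sq_abs β
  exact ⟨a, by linarith [b.2], by linarith [b.1]⟩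

theorem corer_D {β ε ε' E D u w δ e M : ℝ} (hE : 0 < E) (hβ : 8 * E < |β|) (h1 : |ε| ≤ E)
    (h2 : |ε'| ≤ E) (he : |e| ≤ E) (hu : |u| ≤ M) (hw : |w| ≤ |β|)
    (g : e * (β ^ 2 - ε * ε') = β * (u * w + u * w) - ε' * u * u - ε * w * w - D * δ * δ) :
    |D * δ * δ| ≤ 2 * M * |β| ^ 2 + E * M * M + 129 / 64 * E * |β| ^ 2 := by
  obtain ⟨-, d1, d2⟩ := corer_delta hE hβ h1 h2
  have d0 : |β ^ 2 - ε * ε'| ≤ 65 / 64 * |β| ^ 2 :=
    abs_le.2 ⟨by nlinarith [sq_nonneg |β|], d2⟩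
  have a1 := abs_le.1 (corer_mul2 he d0)
  have a2 := abs_le.1 (corer_mul3 (le_refl |β|) hu hw)
  have a3 := abs_le.1 (corer_mul3 h2 hu hu)
  have a4 := abs_le.1 (corer_mul3 h1 hw hw)
  refine abs_le.2 ⟨?_, ?_⟩ <;> linarith [a1.1, a1.2, a2.1, a2.2, a3.1, a3.2, a4.1, a4.2]

theorem corer_low {β ε ε' E D u w δ e u' w' δ' e' b : ℝ} (hE : 0 < E) (hβ : 8 * E < |β|)
    (h1 : |ε| ≤ E) (h2 : |ε'| ≤ E) (he : |e| ≤ E) (he' : |e'| ≤ E) (hu : |u| ≤ E)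
    (hu' : |u'| ≤ E) (hw : |w| ≤ |β|) (hw' : |w'| ≤ |β|)
    (g1 : e * (β ^ 2 - ε * ε') = β * (u * w + u * w) - ε' * u * u - ε * w * w - D * δ * δ)
    (g2 : e' * (β ^ 2 - ε * ε') =
      β * (u' * w' + u' * w') - ε' * u' * u' - ε * w' * w' - D * δ' * δ')
    (g : b * (β ^ 2 - ε * ε') = β * (u * w' + u' * w) - ε' * u * u' - ε * w * w' - D * δ * δ') :
    |b| ≤ 8 * E := by
  obtain ⟨d0, d1, -⟩ := corer_delta hE hβ h1 h2
  have b0 : 0 < |β| ^ 2 := pow_pos (by linarith) 2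
  have c0 := mul_le_mul_of_nonneg_left d0 hE.le
  have c1 := mul_pos hE b0
  have k1 : |D * δ * δ| ≤ 4.04 * (E * |β| ^ 2) := by
    linarith [corer_D hE hβ h1 h2 he hu hw g1]
  have k2 : |D * δ' * δ'| ≤ 4.04 * (E * |β| ^ 2) := by
    linarith [corer_D hE hβ h1 h2 he' hu' hw' g2]
  have k3 : |D * δ * δ'| ≤ 4.04 * (E * |β| ^ 2) := by
    refine abs_le_of_sq_le_sq ?_ (by linarith)
    linarith [(abs_le.1 (corer_mul2 k1 k2)).2]
  have a0 := abs_le.1 k3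
  have a1 := abs_le.1 (corer_mul3 (le_refl |β|) hu hw')
  have a2 := abs_le.1 (corer_mul3 (le_refl |β|) hu' hw)
  have a3 := abs_le.1 (corer_mul3 h2 hu hu')
  have a4 := abs_le.1 (corer_mul3 h1 hw hw')
  have p : 0 < β ^ 2 - ε * ε' := by linarith
  have c2 := mul_le_mul_of_nonneg_left d1 hE.le
  refine le_of_mul_le_mul_right ?_ p
  rw [← abs_of_pos p, ← abs_mul, abs_of_pos p, g]
  refine abs_le.2 ⟨?_, ?_⟩ <;>
    linarith [a0.1, a0.2, a1.1, a1.2, a2.1, a2.2, a3.1, a3.2, a4.1, a4.2]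

theorem corer_high {β ε ε' E D u w δ e u' w' δ' e' b U κ : ℝ} (hE : 0 < E) (hβ : 8 * E < |β|)
    (h1 : |ε| ≤ E) (h2 : |ε'| ≤ E) (he : |e| ≤ E) (he' : |e'| ≤ E) (hU : 0 < U) (hu : U ≤ |u|)
    (hv : |u| ≤ 2 * U) (hu' : U ≤ |u'|) (hv' : |u'| ≤ 2 * U) (hw : |w| ≤ |β|) (hw' : |w'| ≤ |β|)
    (hκ : κ ^ 2 * (β ^ 2 - ε * ε') = 2 * |D| * U ^ 2)
    (g1 : e * (β ^ 2 - ε * ε') = β * (u * w + u * w) - ε' * u * u - ε * w * w - D * δ * δ)
    (g2 : e' * (β ^ 2 - ε * ε') =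
      β * (u' * w' + u' * w') - ε' * u' * u' - ε * w' * w' - D * δ' * δ')
    (g : b * (β ^ 2 - ε * ε') = β * (u * w' + u' * w) - ε' * u * u' - ε * w * w' - D * δ * δ') :
    |b| ≤ 8 * E + (κ * (δ / u) - κ * (δ' / u')) ^ 2 := by
  obtain ⟨-, d1, -⟩ := corer_delta hE hβ h1 h2
  have b0 : 0 < |β| ^ 2 := pow_pos (by linarith) 2
  have p : 0 < β ^ 2 - ε * ε' := by linarith
  have p0 : 0 < |u| := by linarith
  have p1 : 0 < |u'| := by linarith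
  have u0 : u ≠ 0 := abs_pos.1 p0
  have u1 : u' ≠ 0 := abs_pos.1 p1
  obtain ⟨t, ht⟩ : ∃ t, t = δ / u - δ' / u' := ⟨_, rfl⟩
  have e1 : u' * δ - u * δ' = u * u' * t := by
    rw [ht]
    field_simp
  obtain ⟨Δ, hΔ⟩ : ∃ Δ, Δ = β ^ 2 - ε * ε' := ⟨_, rfl⟩
  rw [← hΔ] at d1 p hκ g1 g2 g
  have id : u * u' * b * Δ * 2 = u' * u' * e * Δ + u * u * e' * Δ
      + ε * (u' * w - u * w') * (u' * w - u * w') + D * ((u * u' * t) * (u * u' * t)) := by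
    rw [← e1]
    linear_combination (2 * u * u') * g - u' ^ 2 * g1 - u ^ 2 * g2
  have q0 := mul_pos p0 p1
  have q1 : |u| * |u'| ≤ 4 * U ^ 2 := by nlinarith
  have q2 : |u| * |u| + |u'| * |u'| ≤ 5 / 2 * (|u| * |u'|) := by
    nlinarith [mul_nonneg (show 0 ≤ 2 * |u| - |u'| by linarith)
      (show 0 ≤ 2 * |u'| - |u| by linarith)]
  have a0 : |Δ| ≤ Δ := (abs_of_pos p).le
  have a1 := corer_mul2 (corer_mul3 (le_refl |u'|) (le_refl |u'|) he) a0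
  have a2 := corer_mul2 (corer_mul3 (le_refl |u|) (le_refl |u|) he') a0
  have a3 : |u' * w - u * w'| ≤ (|u'| + |u|) * |β| := by
    linarith [abs_sub (u' * w) (u * w'), corer_mul2 (le_refl |u'|) hw,
      corer_mul2 (le_refl |u|) hw']
  have a4 := corer_mul3 h1 a3 a3
  have a5 : |D * ((u * u' * t) * (u * u' * t))| = |u| * |u'| * (|D| * t ^ 2 * (|u| * |u'|)) := by
    rw [abs_mul, abs_mul, abs_mul, abs_mul, ← sq_abs t]
    ring
  have a6 : |u * u' * b * Δ * 2| = |u| * |u'| * (|b| * Δ * 2) := by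
    rw [abs_mul, abs_mul, abs_mul, abs_mul, abs_of_pos p, abs_two]
    ring
  have a7 := mul_le_mul_of_nonneg_left q1 (mul_nonneg (abs_nonneg D) (sq_nonneg t))
  have a8 := mul_le_mul_of_nonneg_left a7 q0.le
  have a9 := mul_le_mul_of_nonneg_left q2 (mul_pos hE p).le
  have c1 := mul_le_mul_of_nonneg_left q2 (mul_pos hE b0).le
  have c2 := mul_le_mul_of_nonneg_left d1 (mul_pos hE q0).le
  have c3 := mul_pos (mul_pos hE q0) p
  have c4 : |u| * |u'| * (|D| * t ^ 2 * (4 * U ^ 2)) = |u| * |u'| * (κ ^ 2 * t ^ 2 * Δ * 2) := by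
    linear_combination (-2 * |u| * |u'| * t ^ 2) * hκ
  have c5 := abs_add_le (u' * u' * e * Δ + u * u * e' * Δ
      + ε * (u' * w - u * w') * (u' * w - u * w')) (D * ((u * u' * t) * (u * u' * t)))
  have c6 := abs_add_three (u' * u' * e * Δ) (u * u * e' * Δ)
      (ε * (u' * w - u * w') * (u' * w - u * w'))
  rw [← id, a6, a5] at c5
  rw [← mul_sub, ← ht, mul_pow]
  refine le_of_mul_le_mul_left ?_ (mul_pos (mul_pos q0 p) two_pos)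
  linarith

theorem corer_xi {β ε ε' E D u w δ e U κ : ℝ} (hE : 0 < E) (hβ : 8 * E < |β|)
    (h1 : |ε| ≤ E) (h2 : |ε'| ≤ E) (he : |e| ≤ E) (hU : 0 < U) (hu : U ≤ |u|) (hv : |u| ≤ |β|)
    (hw : |w| ≤ |β|) (hκ : κ ^ 2 * (β ^ 2 - ε * ε') = 2 * |D| * U ^ 2)
    (g : e * (β ^ 2 - ε * ε') = β * (u * w + u * w) - ε' * u * u - ε * w * w - D * δ * δ) :
    (κ * (δ / u)) ^ 2 ≤ 5 * |β| := by
  obtain ⟨-, d1, -⟩ := corer_delta hE hβ h1 h2
  have b1 : 0 < |β| := by linarith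
  have b0 : 0 < |β| ^ 2 := pow_pos b1 2
  have p : 0 < β ^ 2 - ε * ε' := by linarith
  have u0 : u ≠ 0 := abs_pos.1 (by linarith)
  have k := corer_D hE hβ h1 h2 he hv hw g
  obtain ⟨t, ht⟩ : ∃ t, t = δ / u := ⟨_, rfl⟩
  have e1 : δ = t * u := by
    rw [ht]
    field_simp
  have a1 : |D * δ * δ| = |D| * t ^ 2 * |u| ^ 2 := by
    rw [e1, abs_mul, abs_mul, abs_mul, ← sq_abs t]
    ring
  have a2 := mul_le_mul_of_nonneg_left (pow_le_pow_left₀ hU.le hu 2)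
    (mul_nonneg (abs_nonneg D) (sq_nonneg t))
  have a3 := mul_le_mul_of_nonneg_right hβ.le b0.le
  have a4 := mul_le_mul_of_nonneg_left d1 b1.le
  have a5 : (κ * t) ^ 2 * (β ^ 2 - ε * ε') = 2 * (|D| * t ^ 2 * U ^ 2) := by
    linear_combination t ^ 2 * hκ
  have a6 := mul_pos b1 b0
  rw [← ht]
  refine le_of_mul_le_mul_right ?_ p
  linarith

theorem corer_level {E v : ℝ} (h : E < v) :
    ∀ L : ℕ, v ≤ 2 ^ L * E → ∃ j < L, 2 ^ j * E ≤ v ∧ v ≤ 2 * (2 ^ j * E) := by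
  intro L
  induction L with
  | zero =>
    intro a
    rw [pow_zero, one_mul] at a
    exact absurd a (not_le.2 h)
  | succ n ih =>
    intro a
    rcases le_total v (2 ^ n * E) with b | b
    · obtain ⟨j, hj, c⟩ := ih b
      exact ⟨j, by omega, c⟩
    · exact ⟨n, by omega, b, by rw [pow_succ] at a; linarith⟩

variable {ι : Type} {A : Matrix (Fin 3) (Fin 3) ℝ} {X : Finset ι} {x : ι → Fin 3 → ℝ}
  {E Y σ : ℝ} {L : ℕ}

theorem coreR (hA : A.IsSymm) (hE : 0 < E) (h1 : ∀ i ∈ X, |bf A (x i) (x i)| ≤ E)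
    (h2 : ∀ i ∈ X, ∀ j ∈ X, |bf A (x i) (x j)| ≤ Y) (hL : Y ≤ 2 ^ L * E) :
    Cov X (fun C => ∃ ξ : ι → ℝ, (∀ i ∈ C, ξ i ^ 2 ≤ 5 * Y) ∧ (A.det = 0 → ∀ i, ξ i = 0) ∧
      ∀ i ∈ C, ∀ j ∈ C, |bf A (x i) (x j)| ≤ 8 * E + (ξ i - ξ j) ^ 2) ((L : ℝ) + 1) := by
  have triv : ∀ C ⊆ X, (∀ i ∈ C, ∀ j ∈ C, |bf A (x i) (x j)| ≤ 8 * E) →
      ∃ ξ : ι → ℝ, (∀ i ∈ C, ξ i ^ 2 ≤ 5 * Y) ∧ (A.det = 0 → ∀ i, ξ i = 0) ∧
      ∀ i ∈ C, ∀ j ∈ C, |bf A (x i) (x j)| ≤ 8 * E + (ξ i - ξ j) ^ 2 := by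
    intro C hC h
    refine ⟨fun _ => 0, fun i hi => ?_, fun _ _ => rfl, fun i hi j hj => ?_⟩
    · linarith [abs_nonneg (bf A (x i) (x i)), h2 i (hC hi) i (hC hi)]
    · linarith [h i hi j hj]
  by_cases hs : ∀ i ∈ X, ∀ j ∈ X, |bf A (x i) (x j)| ≤ 8 * E
  · exact Cov.one (triv X (Finset.Subset.refl X) hs) (by linarith [Nat.cast_nonneg (α := ℝ) L])
  push Not at hs
  obtain ⟨i0, hi0, j0, hj0, hs⟩ := hs
  obtain ⟨⟨a, a'⟩, hm, hmax⟩ := Finset.exists_max_image (X ×ˢ X)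
    (fun p => |bf A (x p.1) (x p.2)|) ⟨(i0, j0), Finset.mem_product.2 ⟨hi0, hj0⟩⟩
  obtain ⟨ha, ha'⟩ := Finset.mem_product.1 hm
  have mx : ∀ i ∈ X, ∀ j ∈ X, |bf A (x i) (x j)| ≤ |bf A (x a) (x a')| := fun i hi j hj =>
    hmax (i, j) (Finset.mem_product.2 ⟨hi, hj⟩)
  have hβ : 8 * E < |bf A (x a) (x a')| := hs.trans_le (mx i0 hi0 j0 hj0)
  have col : ∀ i ∈ X, ∃ k ≤ L, (k = L ∧ |bf A (x i) (x a)| ≤ E) ∨
      (k < L ∧ 2 ^ k * E ≤ |bf A (x i) (x a)| ∧ |bf A (x i) (x a)| ≤ 2 * (2 ^ k * E)) := by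
    intro i hi
    rcases le_or_gt |bf A (x i) (x a)| E with h | h
    · exact ⟨L, le_rfl, Or.inl ⟨rfl, h⟩⟩
    · obtain ⟨k, hk, h⟩ := corer_level h L ((h2 i hi a ha).trans hL)
      exact ⟨k, hk.le, Or.inr ⟨hk, h⟩⟩
  choose! c hc using col
  refine Cov.of_color c (Finset.range (L + 1))
    (fun i hi => Finset.mem_range.2 (Nat.lt_succ_of_le (hc i hi).1))
    (by rw [Finset.card_range]; push_cast; exact le_rfl) fun k _ C hC hk => ?_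
  by_cases e : k = L
  · have lo : ∀ i ∈ C, |bf A (x i) (x a)| ≤ E := fun i hi =>
      ((hc i (hC hi)).2.resolve_right fun h => by have := hk i hi; omega).2
    exact triv C hC fun i hi j hj =>
      corer_low hE hβ (h1 a ha) (h1 a' ha') (h1 i (hC hi)) (h1 j (hC hj)) (lo i hi) (lo j hj)
        (mx i (hC hi) a' ha') (mx j (hC hj) a' ha') (gram3 hA _ _ _ _) (gram3 hA _ _ _ _)
        (gram3 hA _ _ _ _)
  have hi' : ∀ i ∈ C, 2 ^ k * E ≤ |bf A (x i) (x a)| ∧ |bf A (x i) (x a)| ≤ 2 * (2 ^ k * E) := by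
    intro i hi
    have h := ((hc i (hC hi)).2.resolve_left fun h => e ((hk i hi).symm.trans h.1)).2
    rwa [hk i hi] at h
  have hU : 0 < 2 ^ k * E := by positivity
  obtain ⟨-, d1, -⟩ := corer_delta hE hβ (h1 a ha) (h1 a' ha')
  have p : 0 < bf A (x a) (x a') ^ 2 - bf A (x a) (x a) * bf A (x a') (x a') := by
    linarith [pow_pos (show 0 < |bf A (x a) (x a')| by linarith) 2]
  obtain ⟨κ, hκ, hκ0⟩ : ∃ κ : ℝ, κ ^ 2 * (bf A (x a) (x a') ^ 2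
      - bf A (x a) (x a) * bf A (x a') (x a')) = 2 * |A.det| * (2 ^ k * E) ^ 2 ∧
      (A.det = 0 → κ = 0) := by
    refine ⟨√(2 * |A.det| * (2 ^ k * E) ^ 2 / (bf A (x a) (x a') ^ 2
      - bf A (x a) (x a) * bf A (x a') (x a'))), ?_, fun h => ?_⟩
    · rw [Real.sq_sqrt (div_nonneg (by positivity) p.le), div_mul_cancel₀ _ p.ne']
    · rw [h, abs_zero, mul_zero, zero_mul, zero_div, Real.sqrt_zero]
  refine ⟨fun i => κ * (det3 (x a) (x a') (x i) / bf A (x i) (x a)), fun i hi => ?_,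
    fun h i => by rw [hκ0 h]; exact zero_mul _, fun i hi j hj => ?_⟩
  · have := corer_xi hE hβ (h1 a ha) (h1 a' ha') (h1 i (hC hi)) hU (hi' i hi).1
      (mx i (hC hi) a ha) (mx i (hC hi) a' ha') hκ (gram3 hA _ _ _ _)
    linarith [h2 a ha a' ha']
  · exact corer_high hE hβ (h1 a ha) (h1 a' ha') (h1 i (hC hi)) (h1 j (hC hj)) hU (hi' i hi).1
      (hi' i hi).2 (hi' j hj).1 (hi' j hj).2 (mx i (hC hi) a' ha') (mx j (hC hj) a' ha') hκ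
      (gram3 hA _ _ _ _) (gram3 hA _ _ _ _) (gram3 hA _ _ _ _)

theorem RA (hA : A.IsSymm) (hD : A.det = 0) (hE : 0 < E) (h1 : ∀ i ∈ X, |bf A (x i) (x i)| ≤ E)
    (h2 : ∀ i ∈ X, ∀ j ∈ X, |bf A (x i) (x j)| ≤ Y) (hL : Y ≤ 2 ^ L * E) :
    Part X (fun i j => |bf A (x i) (x j)| ≤ 8 * E) ((L : ℝ) + 1) := by
  refine (coreR hA hE h1 h2 hL).imp ?_
  rintro C - ⟨ξ, -, a, b⟩ i hi j hj
  have c := b i hi j hj
  rw [a hD i, a hD j] at c
  linarith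

theorem RB (hA : A.IsSymm) (hE : 0 < E) (h1 : ∀ i ∈ X, |bf A (x i) (x i)| ≤ E)
    (h2 : ∀ i ∈ X, ∀ j ∈ X, |bf A (x i) (x j)| ≤ Y) (hL : Y ≤ 2 ^ L * E) :
    Part X (fun i j => |bf A (x i) (x j)| ≤ 9 * E) (((L : ℝ) + 1) * (5 * √(Y / E) + 2)) := by
  have s0 := Real.sqrt_nonneg (Y / E)
  refine (coreR hA hE h1 h2 hL).bind (by linarith) ?_
  rintro C - ⟨ξ, a, -, b⟩
  have e0 := Real.sqrt_pos.2 hE
  have e1 := Real.sq_sqrt hE.le
  refine Part.of_color (fun i => ⌊ξ i / √E⌋)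
    (Finset.Icc ⌊-(5 / 2 * √(Y / E))⌋ ⌊5 / 2 * √(Y / E)⌋) (fun i hi => ?_) ?_ fun i hi j hj h => ?_
  · have y0 : 0 ≤ Y / E := div_nonneg (by linarith [a i hi, sq_nonneg (ξ i)]) hE.le
    have c : |ξ i / √E| ≤ 5 / 2 * √(Y / E) := by
      refine abs_le_of_sq_le_sq ?_ (by linarith)
      have d := div_le_div_of_nonneg_right (a i hi) hE.le
      rw [mul_div_assoc] at d
      rw [div_pow, mul_pow, e1, Real.sq_sqrt y0]
      linarith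
    exact Finset.mem_Icc.2 ⟨Int.floor_mono (abs_le.1 c).1, Int.floor_mono (abs_le.1 c).2⟩
  · have c : ⌊-(5 / 2 * √(Y / E))⌋ ≤ ⌊5 / 2 * √(Y / E)⌋ := Int.floor_mono (by linarith)
    have d := congrArg (Int.cast (R := ℝ))
      (Int.card_Icc_of_le _ _ (c.trans (Int.le_add_one le_rfl)))
    push_cast at d
    linarith [Int.floor_le (5 / 2 * √(Y / E)), Int.lt_floor_add_one (-(5 / 2 * √(Y / E)))]
  · have c := (Int.abs_sub_lt_one_of_floor_eq_floor h).le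
    rw [← sub_div, ← sq_le_one_iff_abs_le_one, div_pow, e1, div_le_one hE] at c
    linarith [b i hi j hj]

theorem packR (hA : A.IsSymm) (hσ : 0 < σ) (h0 : ∀ i ∈ X, bf A (x i) (x i) = 0)
    (h1 : ∀ i ∈ X, ∀ j ∈ X, i ≠ j → σ ≤ |bf A (x i) (x j)|)
    (h2 : ∀ i ∈ X, ∀ j ∈ X, |bf A (x i) (x j)| ≤ Y) (hL : Y ≤ 2 ^ L * σ) :
    (X.card : ℝ) ≤ ((L : ℝ) + 5) * (16 * √(Y / σ) + 2) := by
  have a := RB (E := σ / 10) (L := L + 4) hA (by linarith)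
    (fun i hi => by rw [h0 i hi, abs_zero]; linarith) h2 (by
      have : 0 < 2 ^ L * σ := by positivity
      rw [pow_add]
      linarith)
  have b := Cov.card_le a zero_le_one fun C hC h => by
    have c : C.card ≤ 1 := Finset.card_le_one.2 fun i hi j hj => by
      by_contra ne
      linarith [h1 i (hC hi) j (hC hj) ne, h i hi j hj]
    exact_mod_cast c
  have c : √(Y / (σ / 10)) ≤ 16 / 5 * √(Y / σ) := by
    rcases le_total Y 0 with y | y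
    · rw [Real.sqrt_eq_zero_of_nonpos (div_nonpos_of_nonpos_of_nonneg y (by linarith))]
      positivity
    · have y0 := div_nonneg y hσ.le
      refine Real.sqrt_le_iff.2 ⟨by positivity, ?_⟩
      rw [mul_pow, Real.sq_sqrt y0, div_div_eq_mul_div, mul_div_right_comm]
      linarith
  rw [mul_one] at b
  push_cast at b
  refine b.trans (mul_le_mul (by linarith) (by linarith) (by positivity) (by positivity))

/-- Vectors in a plane with all areas between `σ` and `Y`. -/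
theorem packDet {n : Type} [Fintype n] (p q : n → ℝ) (z : ι → n → ℝ)
    (hz : ∀ i ∈ X, ∃ a b : ℝ, z i = a • p + b • q) (hσ : 0 < σ) (hY : 0 ≤ Y)
    (h1 : ∀ i ∈ X, ∀ j ∈ X, i ≠ j → σ ≤ ar (z i) (z j))
    (h2 : ∀ i ∈ X, ∀ j ∈ X, ar (z i) (z j) ≤ Y) (hL : Y ≤ 2 ^ L * σ) :
    (X.card : ℝ) ≤ (2 * (L : ℝ) + 5) * (16 * (Y / σ) + 2) := by
  choose! a b hz using hz
  obtain ⟨r, hr⟩ : ∃ r, r = ar p q := ⟨_, rfl⟩
  have f : ∀ i j, bf !![0, 0, r ^ 2; 0, -2 * r ^ 2, 0; r ^ 2, 0, 0] ![a i ^ 2, a i * b i, b i ^ 2]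
      ![a j ^ 2, a j * b j, b j ^ 2] = (|a i * b j - b i * a j| * r) ^ 2 := by
    intro i j
    rw [mul_pow, sq_abs]
    simp [bf, Matrix.mulVec, dotProduct, Fin.sum_univ_three]
    ring
  have g : ∀ i ∈ X, ∀ j ∈ X, |bf !![0, 0, r ^ 2; 0, -2 * r ^ 2, 0; r ^ 2, 0, 0]
      ![a i ^ 2, a i * b i, b i ^ 2] ![a j ^ 2, a j * b j, b j ^ 2]| = ar (z i) (z j) ^ 2 := by
    intro i hi j hj
    rw [f, abs_of_nonneg (sq_nonneg _), hz i hi, hz j hj, ar_comb, hr]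
  have s : (!![0, 0, r ^ 2; 0, -2 * r ^ 2, 0; r ^ 2, 0, 0] : Matrix (Fin 3) (Fin 3) ℝ).IsSymm := by
    ext i j
    fin_cases i <;> fin_cases j <;> rfl
  have c := packR (X := X) (x := fun i => ![a i ^ 2, a i * b i, b i ^ 2]) (Y := Y ^ 2)
    (L := 2 * L) s (pow_pos hσ 2)
    (fun i _ => by rw [f, mul_comm (b i), sub_self, abs_zero, zero_mul, zero_pow two_ne_zero])
    (fun i hi j hj ne => by rw [g i hi j hj]; exact pow_le_pow_left₀ hσ.le (h1 i hi j hj ne) 2)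
    (fun i hi j hj => by rw [g i hi j hj]; exact pow_le_pow_left₀ (ar_nonneg _ _) (h2 i hi j hj) 2)
    (by rw [pow_mul', ← mul_pow]; exact pow_le_pow_left₀ hY hL 2)
  rw [← div_pow, Real.sqrt_sq (div_nonneg hY hσ.le)] at c
  push_cast at c
  exact c

end Pool.Agent.Lib.MP_af4c59_nt.H57
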