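import Pool.Agent.Lib.MP_af4c59_nt.H57Tern
import Pool.Agent.Lib.MP_af4c59_nt.H57CoreR

/-!
Points on a conic.
-/

set_option autoImplicit false

namespace Pool.Agent.Lib.MP_af4c59_nt.H57

open Matrix

theorem conic0_bf (A : Matrix (Fin 3) (Fin 3) ℝ) (c : ℝ) (w x y : Fin 3 → ℝ) :
    bf (A - c • vecMulVec w w) x y = bf A x y - c * (w ⬝ᵥ x) * (w ⬝ᵥ y) := by
  simp only [bf, dotProduct, mulVec, Fin.sum_univ_three, Matrix.sub_apply, Matrix.smul_apply,
    vecMulVec_apply, smul_eq_mul]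
  ring

theorem conic0_det (A : Matrix (Fin 3) (Fin 3) ℝ) (c : ℝ) (w : Fin 3 → ℝ) :
    (A - c • vecMulVec w w).det = A.det - c * bf A.adjugate w w := by
  simp [bf, dotProduct, mulVec, Fin.sum_univ_three, det_fin_three, adjugate_fin_three,
    vecMulVec_apply]
  ring

theorem conic0_symm {A : Matrix (Fin 3) (Fin 3) ℝ} (hA : A.IsSymm) (c : ℝ) (w : Fin 3 → ℝ) :
    (A - c • vecMulVec w w).IsSymm := by
  refine Matrix.IsSymm.ext fun i j => ?_
  simp only [Matrix.sub_apply, Matrix.smul_apply, vecMulVec_apply, hA.apply i j, mul_comm (w j)]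

theorem conic0_sqrt {D δ r σ j Y : ℝ} (hδ : δ ≠ 0) (hσ : 0 < σ) (hj : 0 ≤ j) (hr : 0 ≤ r)
    (hD : |D| ≤ 128 * σ * j ^ 2) (hY : Y ≤ 9 * (|D / δ| * r ^ 2)) :
    √(Y / σ) ≤ 34 * (j * r / √|δ|) := by
  have h1 : 0 < |δ| := abs_pos.2 hδ
  refine Real.sqrt_le_iff.2 ⟨by positivity, ?_⟩
  rw [mul_pow, div_pow, Real.sq_sqrt h1.le, div_le_iff₀ hσ]
  refine hY.trans ?_
  rw [abs_div]
  have h2 : 0 ≤ σ * j ^ 2 * r ^ 2 / |δ| := by positivity
  calc 9 * (|D| / |δ| * r ^ 2) ≤ 9 * (128 * σ * j ^ 2 / |δ| * r ^ 2) := by gcongr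
    _ = 1152 * (σ * j ^ 2 * r ^ 2 / |δ|) := by ring
    _ ≤ 1156 * (σ * j ^ 2 * r ^ 2 / |δ|) := by linarith
    _ = _ := by ring

theorem conic : ∃ f, SP f ∧ ∀ (N : ℝ) (A : Matrix (Fin 3) (Fin 3) ℤ) (S j : ℕ)
    (X : Finset (Fin 3 → ℤ)) (w : Fin 3 → ℝ) (r : ℝ), 1 ≤ N → A.IsSymm → A.det ≠ 0 →
    |((A.det : ℤ) : ℝ)| ≤ N → Squarefree S → j ≠ 0 → GcdDvd 2 A ((S * j ^ 2 : ℕ) : ℤ) →
    (∀ x ∈ X, bf A x x = 0) → PW X → (∀ x ∈ X, ∀ y ∈ X, |((bf A x y : ℤ) : ℝ)| ≤ N) → 0 ≤ r →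
    (∀ x ∈ X, |w ⬝ᵥ vc ℝ x| ≤ r) → bf (mc ℝ A).adjugate w w ≠ 0 →
    (X.card : ℝ) ≤ f N * (1 + j * r / √|bf (mc ℝ A).adjugate w w|) := by
  obtain ⟨g, hg, H⟩ := globTern
  refine ⟨fun x => g x * ((lg (21 * x ^ 1) : ℝ) + 1) * (2720 * ((lg x : ℝ) + 1)),
    (hg.mul (SP_lg.comp (c := 21) (by norm_num) 1)).mul (SP_lg.cmul (by norm_num)), ?_⟩
  intro N A S j X w r hN hA hD hDN hS hj hG h0 hX hb hr hw hδ
  obtain ⟨σ, hσ, hP, hσD⟩ := H N A S j X hA hD hDN hS hj hG h0 hX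
  set δ := bf (mc ℝ A).adjugate w w with hδdef
  set c : ℝ := ((A.det : ℤ) : ℝ) / δ with hc
  set E := |c| * r ^ 2 with hE
  set q : ℝ := j * r / √|δ| with hq
  have hq0 : 0 ≤ q := by positivity
  have hE0 : 0 ≤ E := by positivity
  have hAr : (mc ℝ A).IsSymm := hA.map _
  have hww : ∀ x ∈ X, ∀ y ∈ X, |c * (w ⬝ᵥ vc ℝ x) * (w ⬝ᵥ vc ℝ y)| ≤ E := by
    intro x hx y hy
    rw [mul_assoc, abs_mul, abs_mul, hE, sq]
    exact mul_le_mul_of_nonneg_left (mul_le_mul (hw x hx) (hw y hy) (abs_nonneg _) hr)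
      (abs_nonneg _)
  have hE' : 0 < max E (1 / 20) := lt_of_lt_of_le (by norm_num) (le_max_right _ _)
  have hR := RA (A := mc ℝ A - c • vecMulVec w w) (X := X) (x := vc ℝ) (E := max E (1 / 20))
    (Y := N + E) (L := lg (21 * N ^ 1)) (conic0_symm hAr c w)
    (by rw [conic0_det, mc_det, hc, div_mul_cancel₀ _ hδ, sub_self]) hE'
    (fun x hx => by
      rw [conic0_bf, ← bf_cast, h0 x hx, Int.cast_zero, zero_sub, abs_neg]
      exact (hww x hx x hx).trans (le_max_left _ _))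
    (fun x hx y hy => by
      rw [conic0_bf, ← bf_cast]
      exact (abs_sub _ _).trans (add_le_add (hb x hx y hy) (hww x hx y hy)))
    (by
      refine le_trans ?_ (mul_le_mul_of_nonneg_right (le_two_pow_lg _) hE'.le)
      have h1 := mul_le_mul_of_nonneg_left (le_max_right E (1 / 20)) (by linarith : 0 ≤ N)
      have h2 := mul_le_mul_of_nonneg_right hN hE'.le
      have h3 := le_max_left E (1 / 20)
      rw [pow_one]
      linarith)
  have hlg : (0 : ℝ) ≤ lg N := Nat.cast_nonneg _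
  have hcell := (Cov.and (her_clq _) (her_clq _) hP hR).card_le
    (n := 2720 * ((lg N : ℝ) + 1) * (1 + q)) (by positivity) fun C hC ⟨h1, h2⟩ => by
      have h3 : ∀ x ∈ C, ∀ y ∈ C, |((bf A x y : ℤ) : ℝ)| ≤ 9 * max E (1 / 20) := by
        intro x hx y hy
        have h4 := h2 x hx y hy
        beta_reduce at h4
        rw [conic0_bf, ← bf_cast] at h4
        have h5 := (hww x (hC hx) y (hC hy)).trans (le_max_left _ (1 / 20))
        have h6 := abs_sub_abs_le_abs_sub ((bf A x y : ℤ) : ℝ)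
          (c * (w ⬝ᵥ vc ℝ x) * (w ⬝ᵥ vc ℝ y))
        linarith
      have h4 : ∀ x ∈ C, ∀ y ∈ C, x ≠ y → bf A x y ≠ 0 := fun x hx y hy hxy =>
        isoNP hA hD (h0 x (hC hx)) (h0 y (hC hy)) (hX x (hC hx) y (hC hy) hxy)
      rcases le_total E (1 / 20) with h5 | h5
      · have h6 : C.card ≤ 1 := Finset.card_le_one.2 fun x hx y hy => by
          by_contra hxy
          have h7 := h3 x hx y hy
          rw [max_eq_right h5] at h7
          have h8 : (1 : ℝ) ≤ |((bf A x y : ℤ) : ℝ)| := by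
            exact_mod_cast Int.one_le_abs (h4 x hx y hy hxy)
          linarith
        have h7 : (C.card : ℝ) ≤ 1 := by exact_mod_cast h6
        nlinarith [mul_nonneg hlg hq0]
      · rw [max_eq_left h5] at h3
        have hσ' : (0 : ℝ) < σ := by exact_mod_cast hσ
        have hσ1 : (1 : ℝ) ≤ σ := by exact_mod_cast hσ
        have h6 := packR (A := mc ℝ A) (X := C) (x := vc ℝ) (σ := σ) (Y := min (9 * E) N)
          (L := lg N) hAr hσ'
          (fun x hx => by rw [← bf_cast, h0 x (hC hx), Int.cast_zero])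
          (fun x hx y hy hxy => by
            rw [← bf_cast]
            have h7 := Int.le_of_dvd (abs_pos.2 (h4 x hx y hy hxy)) ((dvd_abs _ _).2 (h1 x hx y hy))
            exact_mod_cast h7)
          (fun x hx y hy => by
            rw [← bf_cast]
            exact le_min (h3 x hx y hy) (hb x (hC hx) y (hC hy)))
          ((min_le_right _ _).trans ((le_two_pow_lg N).trans
            (le_mul_of_one_le_right (by positivity) hσ1)))
        have h7 : √(min (9 * E) N / σ) ≤ 34 * q :=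
          conic0_sqrt hδ hσ' (Nat.cast_nonneg _) hr hσD (min_le_left _ _)
        refine h6.trans ?_
        calc ((lg N : ℝ) + 5) * (16 * √(min (9 * E) N / σ) + 2)
            ≤ (5 * ((lg N : ℝ) + 1)) * (544 * (1 + q)) :=
              mul_le_mul (by linarith) (by linarith) (by positivity) (by positivity)
          _ = _ := by ring
  refine hcell.trans (le_of_eq ?_)
  ring

end Pool.Agent.Lib.MP_af4c59_nt.H57
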