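import Pool.Agent.Lib.MP_af4c59_nt.H57Defs

/-!
Coordinates of the spinor maps.
-/

set_option autoImplicit false

namespace Pool.Agent.Lib.MP_af4c59_nt.H57

open Matrix

theorem ext4 {α : Type} {x y : Fin 4 → α} (h0 : x 0 = y 0) (h1 : x 1 = y 1) (h2 : x 2 = y 2) (h3 : x 3 = y 3) :
    x = y := by
  funext i
  fin_cases i
  exacts [h0, h1, h2, h3]

theorem all4 {p : Fin 4 → Prop} (h0 : p 0) (h1 : p 1) (h2 : p 2) (h3 : p 3) :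
    ∀ i, p i := by
  intro i
  fin_cases i
  exacts [h0, h1, h2, h3]

theorem ext5 {α : Type} {x y : Fin 5 → α} (h0 : x 0 = y 0) (h1 : x 1 = y 1) (h2 : x 2 = y 2) (h3 : x 3 = y 3) (h4 : x 4 = y 4) :
    x = y := by
  funext i
  fin_cases i
  exacts [h0, h1, h2, h3, h4]

theorem all5 {p : Fin 5 → Prop} (h0 : p 0) (h1 : p 1) (h2 : p 2) (h3 : p 3) (h4 : p 4) :
    ∀ i, p i := by
  intro i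
  fin_cases i
  exacts [h0, h1, h2, h3, h4]

theorem ext10 {α : Type} {x y : Fin 10 → α} (h0 : x 0 = y 0) (h1 : x 1 = y 1) (h2 : x 2 = y 2) (h3 : x 3 = y 3) (h4 : x 4 = y 4) (h5 : x 5 = y 5) (h6 : x 6 = y 6) (h7 : x 7 = y 7) (h8 : x 8 = y 8) (h9 : x 9 = y 9) :
    x = y := by
  funext i
  fin_cases i
  exacts [h0, h1, h2, h3, h4, h5, h6, h7, h8, h9]

theorem all10 {p : Fin 10 → Prop} (h0 : p 0) (h1 : p 1) (h2 : p 2) (h3 : p 3) (h4 : p 4) (h5 : p 5) (h6 : p 6) (h7 : p 7) (h8 : p 8) (h9 : p 9) :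
    ∀ i, p i := by
  intro i
  fin_cases i
  exacts [h0, h1, h2, h3, h4, h5, h6, h7, h8, h9]

theorem ext16 {α : Type} {x y : Fin 16 → α} (h0 : x 0 = y 0) (h1 : x 1 = y 1) (h2 : x 2 = y 2) (h3 : x 3 = y 3) (h4 : x 4 = y 4) (h5 : x 5 = y 5) (h6 : x 6 = y 6) (h7 : x 7 = y 7) (h8 : x 8 = y 8) (h9 : x 9 = y 9) (h10 : x 10 = y 10) (h11 : x 11 = y 11) (h12 : x 12 = y 12) (h13 : x 13 = y 13) (h14 : x 14 = y 14) (h15 : x 15 = y 15) :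
    x = y := by
  funext i
  fin_cases i
  exacts [h0, h1, h2, h3, h4, h5, h6, h7, h8, h9, h10, h11, h12, h13, h14, h15]

theorem all16 {p : Fin 16 → Prop} (h0 : p 0) (h1 : p 1) (h2 : p 2) (h3 : p 3) (h4 : p 4) (h5 : p 5) (h6 : p 6) (h7 : p 7) (h8 : p 8) (h9 : p 9) (h10 : p 10) (h11 : p 11) (h12 : p 12) (h13 : p 13) (h14 : p 14) (h15 : p 15) :
    ∀ i, p i := by
  intro i
  fin_cases i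
  exacts [h0, h1, h2, h3, h4, h5, h6, h7, h8, h9, h10, h11, h12, h13, h14, h15]

theorem sum10 {M : Type} [AddCommMonoid M] (f : Fin 10 → M) :
    ∑ i, f i = f 0 + f 1 + f 2 + f 3 + f 4 + f 5 + f 6 + f 7 + f 8 + f 9 := by
  simp only [Fin.sum_univ_castSucc, Fin.sum_univ_zero, zero_add]
  rfl

theorem sum16 {M : Type} [AddCommMonoid M] (f : Fin 16 → M) :
    ∑ i, f i = f 0 + f 1 + f 2 + f 3 + f 4 + f 5 + f 6 + f 7 + f 8 + f 9 + f 10 + f 11 + f 12 + f 13 + f 14 + f 15 := by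
  simp only [Fin.sum_univ_castSucc, Fin.sum_univ_zero, zero_add]
  rfl

section

variable {R : Type} [CommRing R]

theorem gam_c (v : Fin 10 → R) (x : Fin 16 → R) :
    gam v x 0 = v 2 * x 11 - v 1 * x 12 + v 0 * x 13 + v 4 * x 14 - v 3 * x 15 ∧
    gam v x 1 = -v 2 * x 8 + v 1 * x 9 - v 0 * x 10 + v 8 * x 14 + v 9 * x 15 ∧
    gam v x 2 = v 2 * x 5 - v 1 * x 7 - v 4 * x 10 - v 8 * x 13 - v 5 * x 15 ∧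
    gam v x 3 = -v 2 * x 4 + v 1 * x 6 + v 3 * x 10 - v 9 * x 13 + v 5 * x 14 ∧
    gam v x 4 = -v 2 * x 3 + v 0 * x 7 + v 4 * x 9 + v 8 * x 12 - v 6 * x 15 ∧
    gam v x 5 = v 2 * x 2 - v 0 * x 6 - v 3 * x 9 + v 9 * x 12 + v 6 * x 14 ∧
    gam v x 6 = v 1 * x 3 - v 0 * x 5 - v 4 * x 8 - v 8 * x 11 - v 7 * x 15 ∧
    gam v x 7 = -v 1 * x 2 + v 0 * x 4 + v 3 * x 8 - v 9 * x 11 + v 7 * x 14 ∧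
    gam v x 8 = -v 2 * x 1 - v 4 * x 6 + v 3 * x 7 - v 5 * x 12 - v 6 * x 13 ∧
    gam v x 9 = v 1 * x 1 + v 4 * x 4 - v 3 * x 5 + v 5 * x 11 - v 7 * x 13 ∧
    gam v x 10 = -v 0 * x 1 - v 4 * x 2 + v 3 * x 3 + v 6 * x 11 + v 7 * x 12 ∧
    gam v x 11 = v 2 * x 0 - v 8 * x 6 - v 9 * x 7 + v 5 * x 9 + v 6 * x 10 ∧
    gam v x 12 = -v 1 * x 0 + v 8 * x 4 + v 9 * x 5 - v 5 * x 8 + v 7 * x 10 ∧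
    gam v x 13 = v 0 * x 0 - v 8 * x 2 - v 9 * x 3 - v 6 * x 8 - v 7 * x 9 ∧
    gam v x 14 = v 4 * x 0 + v 8 * x 1 + v 5 * x 3 + v 6 * x 5 + v 7 * x 7 ∧
    gam v x 15 = -v 3 * x 0 + v 9 * x 1 - v 5 * x 2 - v 6 * x 4 - v 7 * x 6 :=
  ⟨rfl, rfl, rfl, rfl, rfl, rfl, rfl, rfl, rfl, rfl, rfl, rfl, rfl, rfl, rfl, rfl⟩

theorem gat_c (v : Fin 10 → R) (r : Fin 16 → R) :
    gat v r 0 = v 7 * r 11 - v 6 * r 12 + v 5 * r 13 + v 9 * r 14 - v 8 * r 15 ∧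
    gat v r 1 = -v 7 * r 8 + v 6 * r 9 - v 5 * r 10 + v 3 * r 14 + v 4 * r 15 ∧
    gat v r 2 = v 7 * r 5 - v 6 * r 7 - v 9 * r 10 - v 3 * r 13 - v 0 * r 15 ∧
    gat v r 3 = -v 7 * r 4 + v 6 * r 6 + v 8 * r 10 - v 4 * r 13 + v 0 * r 14 ∧
    gat v r 4 = -v 7 * r 3 + v 5 * r 7 + v 9 * r 9 + v 3 * r 12 - v 1 * r 15 ∧
    gat v r 5 = v 7 * r 2 - v 5 * r 6 - v 8 * r 9 + v 4 * r 12 + v 1 * r 14 ∧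
    gat v r 6 = v 6 * r 3 - v 5 * r 5 - v 9 * r 8 - v 3 * r 11 - v 2 * r 15 ∧
    gat v r 7 = -v 6 * r 2 + v 5 * r 4 + v 8 * r 8 - v 4 * r 11 + v 2 * r 14 ∧
    gat v r 8 = -v 7 * r 1 - v 9 * r 6 + v 8 * r 7 - v 0 * r 12 - v 1 * r 13 ∧
    gat v r 9 = v 6 * r 1 + v 9 * r 4 - v 8 * r 5 + v 0 * r 11 - v 2 * r 13 ∧
    gat v r 10 = -v 5 * r 1 - v 9 * r 2 + v 8 * r 3 + v 1 * r 11 + v 2 * r 12 ∧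
    gat v r 11 = v 7 * r 0 - v 3 * r 6 - v 4 * r 7 + v 0 * r 9 + v 1 * r 10 ∧
    gat v r 12 = -v 6 * r 0 + v 3 * r 4 + v 4 * r 5 - v 0 * r 8 + v 2 * r 10 ∧
    gat v r 13 = v 5 * r 0 - v 3 * r 2 - v 4 * r 3 - v 1 * r 8 - v 2 * r 9 ∧
    gat v r 14 = v 9 * r 0 + v 3 * r 1 + v 0 * r 3 + v 1 * r 5 + v 2 * r 7 ∧
    gat v r 15 = -v 8 * r 0 + v 4 * r 1 - v 0 * r 2 - v 1 * r 4 - v 2 * r 6 :=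
  ⟨rfl, rfl, rfl, rfl, rfl, rfl, rfl, rfl, rfl, rfl, rfl, rfl, rfl, rfl, rfl, rfl⟩

theorem mu_c (x y : Fin 16 → R) :
    mu x y 0 = -x 2 * y 15 + x 3 * y 14 - x 8 * y 12 + x 9 * y 11 + x 11 * y 9 - x 12 * y 8 + x 14 * y 3 - x 15 * y 2 ∧
    mu x y 1 = -x 4 * y 15 + x 5 * y 14 - x 8 * y 13 + x 10 * y 11 + x 11 * y 10 - x 13 * y 8 + x 14 * y 5 - x 15 * y 4 ∧
    mu x y 2 = -x 6 * y 15 + x 7 * y 14 - x 9 * y 13 + x 10 * y 12 + x 12 * y 10 - x 13 * y 9 + x 14 * y 7 - x 15 * y 6 ∧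
    mu x y 3 = x 1 * y 14 - x 2 * y 13 + x 4 * y 12 - x 6 * y 11 - x 11 * y 6 + x 12 * y 4 - x 13 * y 2 + x 14 * y 1 ∧
    mu x y 4 = x 1 * y 15 - x 3 * y 13 + x 5 * y 12 - x 7 * y 11 - x 11 * y 7 + x 12 * y 5 - x 13 * y 3 + x 15 * y 1 ∧
    mu x y 5 = x 0 * y 13 - x 1 * y 10 + x 4 * y 7 - x 5 * y 6 - x 6 * y 5 + x 7 * y 4 - x 10 * y 1 + x 13 * y 0 ∧
    mu x y 6 = -x 0 * y 12 + x 1 * y 9 - x 2 * y 7 + x 3 * y 6 + x 6 * y 3 - x 7 * y 2 + x 9 * y 1 - x 12 * y 0 ∧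
    mu x y 7 = x 0 * y 11 - x 1 * y 8 + x 2 * y 5 - x 3 * y 4 - x 4 * y 3 + x 5 * y 2 - x 8 * y 1 + x 11 * y 0 ∧
    mu x y 8 = -x 0 * y 15 + x 3 * y 10 - x 5 * y 9 + x 7 * y 8 + x 8 * y 7 - x 9 * y 5 + x 10 * y 3 - x 15 * y 0 ∧
    mu x y 9 = x 0 * y 14 - x 2 * y 10 + x 4 * y 9 - x 6 * y 8 - x 8 * y 6 + x 9 * y 4 - x 10 * y 2 + x 14 * y 0 :=
  ⟨rfl, rfl, rfl, rfl, rfl, rfl, rfl, rfl, rfl, rfl⟩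

theorem tau_c (m : Matrix (Fin 4) (Fin 4) R) :
    tau m 0 = m 0 0 ∧
    tau m 1 = m 0 1 ∧
    tau m 2 = m 1 1 ∧
    tau m 3 = m 0 2 - m 0 3 - m 1 2 + m 1 3 ∧
    tau m 4 = m 1 2 ∧
    tau m 5 = m 3 3 - m 2 3 ∧
    tau m 6 = -m 2 2 + 3 * m 2 3 - 3 * m 3 3 ∧
    tau m 7 = m 2 2 - 3 * m 2 3 + 2 * m 3 3 ∧
    tau m 8 = m 0 3 + m 1 2 - 2 * m 1 3 ∧
    tau m 9 = m 0 3 :=
  ⟨rfl, rfl, rfl, rfl, rfl, rfl, rfl, rfl, rfl, rfl⟩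

theorem MK_c (v : Fin 10 → R) :
    MK v 0 0 = -2 * v 5 ∧
    MK v 0 1 = -v 6 ∧
    MK v 0 2 = -v 8 ∧
    MK v 0 3 = -v 3 - v 4 + v 8 ∧
    MK v 1 0 = -v 6 ∧
    MK v 1 1 = -2 * v 7 ∧
    MK v 1 2 = -v 3 + v 8 - v 9 ∧
    MK v 1 3 = 2 * v 3 - v 8 ∧
    MK v 2 0 = -v 8 ∧
    MK v 2 1 = -v 3 + v 8 - v 9 ∧
    MK v 2 2 = 2 * v 1 - 2 * v 2 ∧
    MK v 2 3 = v 0 - 3 * v 1 + 3 * v 2 ∧
    MK v 3 0 = -v 3 - v 4 + v 8 ∧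
    MK v 3 1 = 2 * v 3 - v 8 ∧
    MK v 3 2 = v 0 - 3 * v 1 + 3 * v 2 ∧
    MK v 3 3 = -2 * v 0 + 6 * v 1 - 4 * v 2 :=
  ⟨rfl, rfl, rfl, rfl, rfl, rfl, rfl, rfl, rfl, rfl, rfl, rfl, rfl, rfl, rfl, rfl⟩

theorem m2_c (v : Fin 10 → R) :
    m2 v 0 0 = 2 * v 0 ∧
    m2 v 0 1 = 2 * v 1 ∧
    m2 v 0 2 = 2 * v 3 + v 4 + v 8 + v 9 ∧
    m2 v 0 3 = 2 * v 9 ∧
    m2 v 1 0 = 2 * v 1 ∧
    m2 v 1 1 = 2 * v 2 ∧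
    m2 v 1 2 = 2 * v 4 ∧
    m2 v 1 3 = v 4 - v 8 + v 9 ∧
    m2 v 2 0 = 2 * v 3 + v 4 + v 8 + v 9 ∧
    m2 v 2 1 = 2 * v 4 ∧
    m2 v 2 2 = -6 * v 5 - 2 * v 6 ∧
    m2 v 2 3 = -2 * v 5 - 2 * v 6 - 2 * v 7 ∧
    m2 v 3 0 = 2 * v 9 ∧
    m2 v 3 1 = v 4 - v 8 + v 9 ∧
    m2 v 3 2 = -2 * v 5 - 2 * v 6 - 2 * v 7 ∧
    m2 v 3 3 = -2 * v 6 - 2 * v 7 :=
  ⟨rfl, rfl, rfl, rfl, rfl, rfl, rfl, rfl, rfl, rfl, rfl, rfl, rfl, rfl, rfl, rfl⟩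

theorem kk_c  :
    (kk 0 0 : R) = 0 ∧
    (kk 0 1 : R) = 0 ∧
    (kk 0 2 : R) = 0 ∧
    (kk 0 3 : R) = 0 ∧
    (kk 0 4 : R) = -1 ∧
    (kk 0 5 : R) = 0 ∧
    (kk 0 6 : R) = 1 ∧
    (kk 0 7 : R) = 1 ∧
    (kk 0 8 : R) = 0 ∧
    (kk 0 9 : R) = 0 ∧
    (kk 0 10 : R) = 0 ∧
    (kk 0 11 : R) = 0 ∧
    (kk 0 12 : R) = 0 ∧
    (kk 0 13 : R) = 0 ∧
    (kk 0 14 : R) = 0 ∧
    (kk 0 15 : R) = 0 ∧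
    (kk 1 0 : R) = 0 ∧
    (kk 1 1 : R) = 0 ∧
    (kk 1 2 : R) = 1 ∧
    (kk 1 3 : R) = 0 ∧
    (kk 1 4 : R) = -1 ∧
    (kk 1 5 : R) = -1 ∧
    (kk 1 6 : R) = 0 ∧
    (kk 1 7 : R) = 0 ∧
    (kk 1 8 : R) = 0 ∧
    (kk 1 9 : R) = 0 ∧
    (kk 1 10 : R) = 0 ∧
    (kk 1 11 : R) = 0 ∧
    (kk 1 12 : R) = 0 ∧
    (kk 1 13 : R) = 0 ∧
    (kk 1 14 : R) = 0 ∧
    (kk 1 15 : R) = 0 ∧
    (kk 2 0 : R) = 0 ∧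
    (kk 2 1 : R) = 0 ∧
    (kk 2 2 : R) = 0 ∧
    (kk 2 3 : R) = 0 ∧
    (kk 2 4 : R) = 0 ∧
    (kk 2 5 : R) = 0 ∧
    (kk 2 6 : R) = 0 ∧
    (kk 2 7 : R) = 0 ∧
    (kk 2 8 : R) = -1 ∧
    (kk 2 9 : R) = 1 ∧
    (kk 2 10 : R) = 0 ∧
    (kk 2 11 : R) = 0 ∧
    (kk 2 12 : R) = 0 ∧
    (kk 2 13 : R) = 1 ∧
    (kk 2 14 : R) = 0 ∧
    (kk 2 15 : R) = 0 ∧
    (kk 3 0 : R) = 0 ∧
    (kk 3 1 : R) = 0 ∧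
    (kk 3 2 : R) = 0 ∧
    (kk 3 3 : R) = 0 ∧
    (kk 3 4 : R) = 0 ∧
    (kk 3 5 : R) = 0 ∧
    (kk 3 6 : R) = 0 ∧
    (kk 3 7 : R) = 0 ∧
    (kk 3 8 : R) = 1 ∧
    (kk 3 9 : R) = -1 ∧
    (kk 3 10 : R) = 1 ∧
    (kk 3 11 : R) = 1 ∧
    (kk 3 12 : R) = 0 ∧
    (kk 3 13 : R) = -2 ∧
    (kk 3 14 : R) = 0 ∧
    (kk 3 15 : R) = 0 :=
  ⟨rfl, rfl, rfl, rfl, rfl, rfl, rfl, rfl, rfl, rfl, rfl, rfl, rfl, rfl, rfl, rfl, rfl, rfl, rfl, rfl, rfl, rfl, rfl, rfl, rfl, rfl, rfl, rfl, rfl, rfl, rfl, rfl, rfl, rfl, rfl, rfl, rfl, rfl, rfl, rfl, rfl, rfl, rfl, rfl, rfl, rfl, rfl, rfl, rfl, rfl, rfl, rfl, rfl, rfl, rfl, rfl, rfl, rfl, rfl, rfl, rfl, rfl, rfl, rfl⟩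

theorem dot16 (x y : Fin 16 → R) : x ⬝ᵥ y = x 0 * y 0 + x 1 * y 1 + x 2 * y 2 + x 3 * y 3 + x 4 * y 4 + x 5 * y 5 + x 6 * y 6 + x 7 * y 7 + x 8 * y 8 + x 9 * y 9 + x 10 * y 10 + x 11 * y 11 + x 12 * y 12 + x 13 * y 13 + x 14 * y 14 + x 15 * y 15 :=
  sum16 _

theorem dot10 (x y : Fin 10 → R) : x ⬝ᵥ y = x 0 * y 0 + x 1 * y 1 + x 2 * y 2 + x 3 * y 3 + x 4 * y 4 + x 5 * y 5 + x 6 * y 6 + x 7 * y 7 + x 8 * y 8 + x 9 * y 9 :=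
  sum10 _

end

theorem iota_c (s : Fin 6 → O) :
    iota s 0 = 2 * (s 1).re - (s 1).im ∧
    iota s 1 = (s 1).re - 3 * (s 1).im ∧
    iota s 2 = (s 0).re + (s 0).im - (s 3).im ∧
    iota s 3 = (s 0).re - 3 * (s 3).re + 7 * (s 3).im ∧
    iota s 4 = (s 0).re + 2 * (s 3).re - 3 * (s 3).im ∧
    iota s 5 = (s 0).im - 2 * (s 3).re + 2 * (s 3).im ∧
    iota s 6 = (s 0).im + 3 * (s 3).re - 3 * (s 3).im ∧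
    iota s 7 = (s 0).re - (s 0).im - (s 3).re ∧
    iota s 8 = (s 2).re + (s 2).im + 3 * (s 5).re - 5 * (s 5).im ∧
    iota s 9 = (s 2).im + 4 * (s 5).re - 6 * (s 5).im ∧
    iota s 10 = (s 2).re - 2 * (s 2).im + (s 5).re - 2 * (s 5).im ∧
    iota s 11 = 2 * (s 2).im - 2 * (s 5).re + 3 * (s 5).im ∧
    iota s 12 = 3 * (s 2).re - (s 2).im - 2 * (s 5).re + 4 * (s 5).im ∧
    iota s 13 = (s 2).re - (s 5).re + (s 5).im ∧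
    iota s 14 = -(s 4).re + 3 * (s 4).im ∧
    iota s 15 = -2 * (s 4).re + (s 4).im :=
  ⟨rfl, rfl, rfl, rfl, rfl, rfl, rfl, rfl, rfl, rfl, rfl, rfl, rfl, rfl, rfl, rfl⟩

theorem wS_c  :
    wS 0 = -3 ∧
    wS 1 = -3 ∧
    wS 2 = -1 ∧
    wS 3 = -1 ∧
    wS 4 = -1 ∧
    wS 5 = -1 ∧
    wS 6 = -1 ∧
    wS 7 = -1 ∧
    wS 8 = 1 ∧
    wS 9 = 1 ∧
    wS 10 = 1 ∧
    wS 11 = 1 ∧
    wS 12 = 1 ∧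
    wS 13 = 1 ∧
    wS 14 = 3 ∧
    wS 15 = 3 :=
  ⟨rfl, rfl, rfl, rfl, rfl, rfl, rfl, rfl, rfl, rfl, rfl, rfl, rfl, rfl, rfl, rfl⟩

theorem wV_c  :
    wV 0 = 2 ∧
    wV 1 = 2 ∧
    wV 2 = 2 ∧
    wV 3 = 0 ∧
    wV 4 = 0 ∧
    wV 5 = -2 ∧
    wV 6 = -2 ∧
    wV 7 = -2 ∧
    wV 8 = 0 ∧
    wV 9 = 0 :=
  ⟨rfl, rfl, rfl, rfl, rfl, rfl, rfl, rfl, rfl, rfl⟩

theorem wK_c  :
    wK 0 = -1 ∧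
    wK 1 = -1 ∧
    wK 2 = 1 ∧
    wK 3 = 1 :=
  ⟨rfl, rfl, rfl, rfl⟩

end Pool.Agent.Lib.MP_af4c59_nt.H57
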