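import Pool.Agent.Lib.MP_af4c59_nt.H57Cov
import Pool.Agent.Lib.MP_af4c59_nt.H57Gram

/-!
Cells on a ternary quadratic form over the p-adic numbers.
-/

set_option autoImplicit false

namespace Pool.Agent.Lib.MP_af4c59_nt.H57

open Matrix

variable {p : ℕ} [Fact p.Prime] {ι : Type} {A : Matrix (Fin 3) (Fin 3) ℚ_[p]} {X : Finset ι}
  {x : ι → Fin 3 → ℚ_[p]} {y : ℤ}

theorem corep_add {a b : ℚ_[p]} {c : ℝ} (ha : ‖a‖ ≤ c) (hb : ‖b‖ ≤ c) : ‖a + b‖ ≤ c :=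
  (Padic.nonarchimedean a b).trans (max_le ha hb)

theorem corep_sub {a b : ℚ_[p]} {c : ℝ} (ha : ‖a‖ ≤ c) (hb : ‖b‖ ≤ c) : ‖a - b‖ ≤ c := by
  rw [sub_eq_add_neg]
  exact corep_add ha (by rwa [norm_neg])

theorem corep_two (a : ℚ_[p]) : ‖2 * a‖ ≤ ‖a‖ := by
  rw [two_mul]
  exact corep_add le_rfl le_rfl

theorem corep_mul3 {a b c : ℚ_[p]} {r s t : ℝ} (ha : ‖a‖ ≤ r) (hb : ‖b‖ ≤ s) (hc : ‖c‖ ≤ t) :
    ‖a * b * c‖ ≤ r * s * t := by
  have hr : 0 ≤ r := (norm_nonneg _).trans ha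
  have hs : 0 ≤ s := (norm_nonneg _).trans hb
  rw [norm_mul, norm_mul]
  exact mul_le_mul (mul_le_mul ha hb (norm_nonneg _) hr) hc (norm_nonneg _) (mul_nonneg hr hs)

theorem corep_delta {b0 e e' : ℚ_[p]} {E : ℝ} (he : ‖e‖ ≤ E) (he' : ‖e'‖ ≤ E) (hb : E < ‖b0‖) :
    ‖b0 ^ 2 - e * e'‖ = ‖b0‖ ^ 2 := by
  have hE : 0 ≤ E := (norm_nonneg _).trans he
  have h1 : ‖-(e * e')‖ < ‖b0 ^ 2‖ := by
    rw [norm_neg, norm_mul, norm_pow]
    have : ‖e‖ * ‖e'‖ ≤ E * E := mul_le_mul he he' (norm_nonneg _) hE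
    nlinarith
  rw [sub_eq_add_neg, Padic.add_eq_max_of_ne h1.ne', max_eq_left h1.le, norm_pow]

/-- The size of the transverse coordinate. -/
theorem corep_D {b0 u v e e' D d q Δ : ℚ_[p]} {M E : ℝ}
    (hI : q * Δ = b0 * (u * v + u * v) - e' * u * u - e * v * v - D * d * d)
    (hΔ : ‖Δ‖ = ‖b0‖ ^ 2) (hu : ‖u‖ ≤ M) (hv : ‖v‖ ≤ ‖b0‖) (he : ‖e‖ ≤ E) (he' : ‖e'‖ ≤ E)
    (hq : ‖q‖ ≤ E) (hEM : E ≤ M) (hM : M ≤ ‖b0‖) : ‖D * d * d‖ ≤ M * ‖b0‖ ^ 2 := by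
  have hE : 0 ≤ E := (norm_nonneg _).trans he
  have hM0 : 0 ≤ M := hE.trans hEM
  have hb : 0 ≤ ‖b0‖ := norm_nonneg _
  have e1 : D * d * d = b0 * u * v + b0 * u * v - e' * u * u - e * v * v - q * Δ := by
    linear_combination hI
  have k1 : ‖b0 * u * v‖ ≤ M * ‖b0‖ ^ 2 :=
    (corep_mul3 le_rfl hu hv).trans (le_of_eq (by ring))
  have k2 : ‖e' * u * u‖ ≤ M * ‖b0‖ ^ 2 :=
    (corep_mul3 (he'.trans hEM) (hu.trans hM) (hu.trans hM)).trans (le_of_eq (by ring))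
  have k3 : ‖e * v * v‖ ≤ M * ‖b0‖ ^ 2 :=
    (corep_mul3 (he.trans hEM) hv hv).trans (le_of_eq (by ring))
  have k4 : ‖q * Δ‖ ≤ M * ‖b0‖ ^ 2 := by
    rw [norm_mul, hΔ]
    exact mul_le_mul_of_nonneg_right (hq.trans hEM) (by positivity)
  rw [e1]
  exact corep_sub (corep_sub (corep_sub (corep_add k1 k1) k2) k3) k4

/-- Two points almost orthogonal to the first base point. -/
theorem corep_small {b0 u v u' v' e e' D d d' q Δ : ℚ_[p]} {E : ℝ}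
    (hI : q * Δ = b0 * (u * v' + u' * v) - e' * u * u' - e * v * v' - D * d * d')
    (hΔ : ‖Δ‖ = ‖b0‖ ^ 2) (hu : ‖u‖ ≤ E) (hv : ‖v‖ ≤ ‖b0‖) (hu' : ‖u'‖ ≤ E) (hv' : ‖v'‖ ≤ ‖b0‖)
    (he : ‖e‖ ≤ E) (he' : ‖e'‖ ≤ E) (hb : E < ‖b0‖) (hd : ‖D * d * d‖ ≤ E * ‖b0‖ ^ 2)
    (hd' : ‖D * d' * d'‖ ≤ E * ‖b0‖ ^ 2) : ‖q‖ ≤ E := by
  have hE : 0 ≤ E := (norm_nonneg _).trans he
  have hb0 : 0 < ‖b0‖ := hE.trans_lt hb
  have k0 : ‖D * d * d'‖ ≤ E * ‖b0‖ ^ 2 := by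
    have h0 : 0 ≤ E * ‖b0‖ ^ 2 := by positivity
    have h1 : ‖D * d * d'‖ * ‖D * d * d'‖ = ‖D * d * d‖ * ‖D * d' * d'‖ := by
      simp only [norm_mul]; ring
    have h2 : ‖D * d * d‖ * ‖D * d' * d'‖ ≤ (E * ‖b0‖ ^ 2) * (E * ‖b0‖ ^ 2) :=
      mul_le_mul hd hd' (norm_nonneg _) h0
    exact (mul_self_le_mul_self_iff (norm_nonneg _) h0).2 (h1 ▸ h2)
  have k1 : ‖b0 * u * v'‖ ≤ E * ‖b0‖ ^ 2 :=
    (corep_mul3 le_rfl hu hv').trans (le_of_eq (by ring))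
  have k1' : ‖b0 * u' * v‖ ≤ E * ‖b0‖ ^ 2 :=
    (corep_mul3 le_rfl hu' hv).trans (le_of_eq (by ring))
  have k2 : ‖e' * u * u'‖ ≤ E * ‖b0‖ ^ 2 :=
    (corep_mul3 he' (hu.trans hb.le) (hu'.trans hb.le)).trans (le_of_eq (by ring))
  have k3 : ‖e * v * v'‖ ≤ E * ‖b0‖ ^ 2 :=
    (corep_mul3 he hv hv').trans (le_of_eq (by ring))
  have e1 : q * Δ = b0 * u * v' + b0 * u' * v - e' * u * u' - e * v * v' - D * d * d' := by
    linear_combination hI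
  have k : ‖q * Δ‖ ≤ E * ‖b0‖ ^ 2 := by
    rw [e1]
    exact corep_sub (corep_sub (corep_sub (corep_add k1 k1') k2) k3) k0
  rw [norm_mul, hΔ] at k
  exact le_of_mul_le_mul_right k (by positivity)

/-- Two points at the same level. -/
theorem corep_level {b0 u v u' v' e e' D d d' q q1 q2 Δ : ℚ_[p]} {E U : ℝ}
    (hI : q * Δ = b0 * (u * v' + u' * v) - e' * u * u' - e * v * v' - D * d * d')
    (hI1 : q1 * Δ = b0 * (u * v + u * v) - e' * u * u - e * v * v - D * d * d)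
    (hI2 : q2 * Δ = b0 * (u' * v' + u' * v') - e' * u' * u' - e * v' * v' - D * d' * d')
    (hΔ : ‖Δ‖ = ‖b0‖ ^ 2) (hU : 0 < U) (hu : ‖u‖ = U) (hv : ‖v‖ ≤ ‖b0‖) (hu' : ‖u'‖ = U)
    (hv' : ‖v'‖ ≤ ‖b0‖) (he : ‖e‖ ≤ E) (hq1 : ‖q1‖ ≤ E) (hq2 : ‖q2‖ ≤ E) (hb : E < ‖b0‖) :
    ‖2 * q‖ ≤ max E (‖D‖ * U ^ 2 / ‖b0‖ ^ 2 * ‖d / u - d' / u'‖ ^ 2) := by
  have hE : 0 ≤ E := (norm_nonneg _).trans he
  have hb0 : 0 < ‖b0‖ := hE.trans_lt hb
  have hu0 : u ≠ 0 := by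
    intro h; rw [h, norm_zero] at hu; exact hU.ne hu
  have hu0' : u' ≠ 0 := by
    intro h; rw [h, norm_zero] at hu'; exact hU.ne hu'
  set m := max E (‖D‖ * U ^ 2 / ‖b0‖ ^ 2 * ‖d / u - d' / u'‖ ^ 2) with hm
  have hEm : E ≤ m := le_max_left _ _
  have hm2 : ‖D‖ * U ^ 2 / ‖b0‖ ^ 2 * ‖d / u - d' / u'‖ ^ 2 ≤ m := le_max_right _ _
  have e0 : u' * d - u * d' = u * u' * (d / u - d' / u') := by
    field_simp
  have e1 : 2 * q * (u * u') * Δ = q1 * (u' * u') * Δ + q2 * (u * u) * Δ +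
      e * (u' * v - u * v') * (u' * v - u * v') +
      D * (u * u' * (d / u - d' / u')) * (u * u' * (d / u - d' / u')) := by
    rw [← e0]
    linear_combination 2 * (u * u') * hI - (u' * u') * hI1 - (u * u) * hI2
  have hc : 0 < U ^ 2 * ‖b0‖ ^ 2 := by positivity
  have k1 : ‖q1 * (u' * u') * Δ‖ ≤ m * (U ^ 2 * ‖b0‖ ^ 2) :=
    (corep_mul3 (hq1.trans hEm) (le_of_eq (by rw [norm_mul, hu'])) hΔ.le).trans
      (le_of_eq (by ring))
  have k2 : ‖q2 * (u * u) * Δ‖ ≤ m * (U ^ 2 * ‖b0‖ ^ 2) :=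
    (corep_mul3 (hq2.trans hEm) (le_of_eq (by rw [norm_mul, hu])) hΔ.le).trans
      (le_of_eq (by ring))
  have k30 : ‖u' * v - u * v'‖ ≤ U * ‖b0‖ := by
    refine corep_sub ?_ ?_
    · rw [norm_mul, hu']; exact mul_le_mul_of_nonneg_left hv hU.le
    · rw [norm_mul, hu]; exact mul_le_mul_of_nonneg_left hv' hU.le
  have k3 : ‖e * (u' * v - u * v') * (u' * v - u * v')‖ ≤ m * (U ^ 2 * ‖b0‖ ^ 2) :=
    (corep_mul3 (he.trans hEm) k30 k30).trans (le_of_eq (by ring))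
  have k4 : ‖D * (u * u' * (d / u - d' / u')) * (u * u' * (d / u - d' / u'))‖ ≤
      m * (U ^ 2 * ‖b0‖ ^ 2) := by
    refine le_trans (le_of_eq ?_) (mul_le_mul_of_nonneg_right hm2 hc.le)
    simp only [norm_mul, hu, hu']
    field_simp
  have k : ‖2 * q * (u * u') * Δ‖ ≤ m * (U ^ 2 * ‖b0‖ ^ 2) := by
    rw [e1]
    exact corep_add (corep_add (corep_add k1 k2) k3) k4
  rw [norm_mul, norm_mul, norm_mul u, hu, hu', hΔ] at k
  refine le_of_mul_le_mul_right (le_trans (le_of_eq (by ring)) k) hc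

theorem corep_mod (f : ℕ) (a b : ℤ_[p]) (h : PadicInt.toZModPow f a = PadicInt.toZModPow f b) :
    ‖a - b‖ ≤ (p : ℝ) ^ (-(f : ℤ)) := by
  have hk : a - b ∈ RingHom.ker (PadicInt.toZModPow (p := p) f) := by
    rw [RingHom.mem_ker, map_sub, h, sub_self]
  rwa [PadicInt.ker_toZModPow, ← PadicInt.norm_le_pow_iff_mem_span_pow] at hk

theorem coreP (hA : A.IsSymm) (h : ℕ)
    (h1 : ∀ i ∈ X, ‖bf A (x i) (x i)‖ ≤ (p : ℝ) ^ (-(y + h)))
    (h2 : ∀ i ∈ X, ∀ j ∈ X, ‖bf A (x i) (x j)‖ ≤ (p : ℝ) ^ (-y)) :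
    Cov X (fun C => ∃ (w : ℝ) (τ : ι → ℚ_[p]), 0 ≤ w ∧ (A.det = 0 → w = 0) ∧
      (∀ i ∈ C, w * ‖τ i‖ ^ 2 ≤ (p : ℝ) ^ (-y)) ∧
      ∀ i ∈ C, ∀ j ∈ C, ‖2 * bf A (x i) (x j)‖ ≤
        max ((p : ℝ) ^ (-(y + h))) (w * ‖τ i - τ j‖ ^ 2)) ((h : ℝ) + 1) := by
  classical
  have hp1 : (1 : ℝ) < p := by exact_mod_cast (Fact.out : p.Prime).one_lt
  have hp0 : (0 : ℝ) < p := by linarith
  have hJ : (1 : ℝ) ≤ (h : ℝ) + 1 := by
    have : (0 : ℝ) ≤ h := Nat.cast_nonneg _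
    linarith
  set E : ℝ := (p : ℝ) ^ (-(y + h)) with hE
  have hY0 : (0 : ℝ) ≤ (p : ℝ) ^ (-y) := (zpow_pos hp0 _).le
  rcases X.eq_empty_or_nonempty with hX | hX
  · refine Cov.one ⟨0, fun _ => 0, le_rfl, fun _ => rfl, ?_, ?_⟩ hJ <;> simp [hX]
  obtain ⟨⟨a, a'⟩, haa, hmax⟩ := (X ×ˢ X).exists_max_image
    (fun z : ι × ι => ‖bf A (x z.1) (x z.2)‖) (hX.product hX)
  rw [Finset.mem_product] at haa
  obtain ⟨ha, ha'⟩ := haa
  have hmx : ∀ i ∈ X, ∀ j ∈ X, ‖bf A (x i) (x j)‖ ≤ ‖bf A (x a) (x a')‖ := fun i hi j hj =>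
    hmax (i, j) (Finset.mem_product.2 ⟨hi, hj⟩)
  by_cases hb : ‖bf A (x a) (x a')‖ ≤ E
  · refine Cov.one ⟨0, fun _ => 0, le_rfl, fun _ => rfl, ?_, ?_⟩ hJ
    · intro i _; simpa using hY0
    · intro i hi j hj
      exact (corep_two _).trans (((hmx i hi j hj).trans hb).trans (le_max_left _ _))
  rw [not_le] at hb
  have hE0 : 0 < E := zpow_pos hp0 _
  have hb0 : 0 < ‖bf A (x a) (x a')‖ := hE0.trans hb
  have hΔ := corep_delta (h1 a ha) (h1 a' ha') hb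
  refine Cov.of_color
    (fun i => if ‖bf A (x i) (x a)‖ ≤ E then y + h else (bf A (x i) (x a)).valuation)
    (Finset.Icc y (y + h)) ?_ ?_ ?_
  · intro i hi
    rw [Finset.mem_Icc]
    split_ifs with hc
    · omega
    · rw [not_le] at hc
      have hne : bf A (x i) (x a) ≠ 0 := by
        intro h0; rw [h0, norm_zero] at hc; exact absurd hc (not_lt.2 hE0.le)
      have hle := h2 i hi a ha
      rw [Padic.norm_eq_zpow_neg_valuation hne] at hc hle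
      rw [hE, zpow_lt_zpow_iff_right₀ hp1] at hc
      rw [zpow_le_zpow_iff_right₀ hp1] at hle
      omega
  · rw [Int.card_Icc]
    have : (y + h + 1 - y).toNat = h + 1 := by omega
    rw [this]
    push_cast
    exact le_rfl
  · intro k _ C hC hc
    have key : ∀ i ∈ C, (k = y + h → ‖bf A (x i) (x a)‖ ≤ E) ∧
        (k ≠ y + h → ‖bf A (x i) (x a)‖ = (p : ℝ) ^ (-k)) := by
      intro i hi
      have hci := hc i hi
      by_cases hs : ‖bf A (x i) (x a)‖ ≤ E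
      · rw [if_pos hs] at hci
        exact ⟨fun _ => hs, fun hk => absurd hci.symm hk⟩
      · rw [if_neg hs] at hci
        have hne : bf A (x i) (x a) ≠ 0 := by
          intro h0; rw [h0, norm_zero] at hs; exact hs hE0.le
        have hn := Padic.norm_eq_zpow_neg_valuation hne
        rw [hci] at hn
        exact ⟨fun hk => by rw [hn, hk], fun _ => hn⟩
    by_cases hk : k = y + h
    · refine ⟨0, fun _ => 0, le_rfl, fun _ => rfl, ?_, ?_⟩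
      · intro i _; simpa using hY0
      · intro i hi j hj
        have hi' := hC hi
        have hj' := hC hj
        refine (corep_two _).trans (le_trans ?_ (le_max_left _ _))
        exact corep_small (gram3 hA (x a) (x a') (x i) (x j)) hΔ ((key i hi).1 hk)
          (hmx i hi' a' ha') ((key j hj).1 hk) (hmx j hj' a' ha') (h1 a ha) (h1 a' ha') hb
          (corep_D (gram3 hA (x a) (x a') (x i) (x i)) hΔ ((key i hi).1 hk) (hmx i hi' a' ha')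
            (h1 a ha) (h1 a' ha') (h1 i hi') le_rfl hb.le)
          (corep_D (gram3 hA (x a) (x a') (x j) (x j)) hΔ ((key j hj).1 hk) (hmx j hj' a' ha')
            (h1 a ha) (h1 a' ha') (h1 j hj') le_rfl hb.le)
    · have hU : (0 : ℝ) < (p : ℝ) ^ (-k) := zpow_pos hp0 _
      refine ⟨‖A.det‖ * ((p : ℝ) ^ (-k)) ^ 2 / ‖bf A (x a) (x a')‖ ^ 2,
        fun i => det3 (x a) (x a') (x i) / bf A (x i) (x a), by positivity,
        fun h0 => by simp [h0], ?_, ?_⟩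
      · intro i hi
        have hi' := hC hi
        have hd := corep_D (gram3 hA (x a) (x a') (x i) (x i)) hΔ (hmx i hi' a ha)
          (hmx i hi' a' ha') (h1 a ha) (h1 a' ha') (h1 i hi') hb.le le_rfl
        refine le_trans ?_ (h2 a ha a' ha')
        rw [norm_mul, norm_mul] at hd
        rw [norm_div, (key i hi).2 hk]
        have e1 : ‖A.det‖ * ((p : ℝ) ^ (-k)) ^ 2 / ‖bf A (x a) (x a')‖ ^ 2 *
            (‖det3 (x a) (x a') (x i)‖ / (p : ℝ) ^ (-k)) ^ 2 =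
            ‖A.det‖ * ‖det3 (x a) (x a') (x i)‖ * ‖det3 (x a) (x a') (x i)‖ /
              ‖bf A (x a) (x a')‖ ^ 2 := by
          field_simp
        rw [e1, div_le_iff₀ (by positivity)]
        exact hd
      · intro i hi j hj
        have hi' := hC hi
        have hj' := hC hj
        exact corep_level (gram3 hA (x a) (x a') (x i) (x j)) (gram3 hA (x a) (x a') (x i) (x i))
          (gram3 hA (x a) (x a') (x j) (x j)) hΔ hU ((key i hi).2 hk) (hmx i hi' a' ha')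
          ((key j hj).2 hk) (hmx j hj' a' ha') (h1 a ha) (h1 i hi') (h1 j hj') hb

theorem PA (hA : A.IsSymm) (hD : A.det = 0) (h : ℕ)
    (h1 : ∀ i ∈ X, ‖bf A (x i) (x i)‖ ≤ (p : ℝ) ^ (-(y + h)))
    (h2 : ∀ i ∈ X, ∀ j ∈ X, ‖bf A (x i) (x j)‖ ≤ (p : ℝ) ^ (-y)) :
    Part X (fun i j => ‖2 * bf A (x i) (x j)‖ ≤ (p : ℝ) ^ (-(y + h))) ((h : ℝ) + 1) := by
  refine (coreP hA h h1 h2).imp ?_
  rintro C _ ⟨w, τ, _, hw, _, hC⟩ i hi j hj
  have := hC i hi j hj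
  rw [hw hD, zero_mul] at this
  have hp0 : (0 : ℝ) < p := by exact_mod_cast (Fact.out : p.Prime).pos
  rwa [max_eq_left (zpow_pos hp0 _).le] at this

theorem PB (hA : A.IsSymm) (f : ℕ)
    (h1 : ∀ i ∈ X, ‖bf A (x i) (x i)‖ ≤ (p : ℝ) ^ (-(y + 2 * f)))
    (h2 : ∀ i ∈ X, ∀ j ∈ X, ‖bf A (x i) (x j)‖ ≤ (p : ℝ) ^ (-y)) :
    Part X (fun i j => ‖2 * bf A (x i) (x j)‖ ≤ (p : ℝ) ^ (-(y + 2 * f)))
      ((2 * (f : ℝ) + 1) * (p : ℝ) ^ f) := by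
  classical
  have hp1 : (1 : ℝ) < p := by exact_mod_cast (Fact.out : p.Prime).one_lt
  have hp0 : (0 : ℝ) < p := by linarith
  have hc : ((2 * f : ℕ) : ℤ) = 2 * (f : ℤ) := by push_cast; ring
  have h0 := coreP hA (2 * f) (by rw [hc]; exact h1) h2
  rw [hc] at h0
  have hc' : ((2 * f : ℕ) : ℝ) + 1 = 2 * (f : ℝ) + 1 := by push_cast; ring
  rw [hc'] at h0
  have hJ : (1 : ℝ) ≤ (p : ℝ) ^ f := one_le_pow₀ hp1.le
  refine h0.bind (by positivity) ?_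
  rintro C _ ⟨w, τ, hw0, _, hτ, hC⟩
  rcases C.eq_empty_or_nonempty with hX | hX
  · refine Cov.one ?_ hJ
    intro i hi
    simp [hX] at hi
  obtain ⟨a, ha, hmax⟩ := C.exists_max_image (fun i => ‖τ i‖) hX
  by_cases hz : τ a = 0
  · refine Cov.one ?_ hJ
    intro i hi j hj
    have hi0 : τ i = 0 := by
      have := hmax i hi
      rw [hz, norm_zero] at this
      exact norm_le_zero_iff.1 this
    have hj0 : τ j = 0 := by
      have := hmax j hj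
      rw [hz, norm_zero] at this
      exact norm_le_zero_iff.1 this
    have := hC i hi j hj
    rw [hi0, hj0, sub_zero, norm_zero] at this
    refine this.trans (max_le le_rfl ?_)
    have := (zpow_pos hp0 (-(y + 2 * (f : ℤ)))).le
    simpa using this
  have ha0 : 0 < ‖τ a‖ := norm_pos_iff.2 hz
  have hint : ∀ i ∈ C, ‖τ i / τ a‖ ≤ 1 := fun i hi => by
    rw [norm_div, div_le_one ha0]; exact hmax i hi
  have hne : NeZero (p ^ f) := ⟨pow_ne_zero _ (Fact.out : p.Prime).ne_zero⟩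
  refine Part.of_color
    (fun i => if hi : ‖τ i / τ a‖ ≤ 1 then PadicInt.toZModPow f (⟨τ i / τ a, hi⟩ : ℤ_[p]) else 0)
    Finset.univ (fun _ _ => Finset.mem_univ _) ?_ ?_
  · rw [Finset.card_univ, ZMod.card]
    push_cast
    exact le_rfl
  · intro i hi j hj hij
    simp only [dif_pos (hint i hi), dif_pos (hint j hj)] at hij
    have hk' : ‖τ i / τ a - τ j / τ a‖ ≤ (p : ℝ) ^ (-(f : ℤ)) := corep_mod f _ _ hij
    rw [← sub_div, norm_div, div_le_iff₀ ha0] at hk'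
    refine (hC i hi j hj).trans (max_le le_rfl ?_)
    have hsq : ‖τ i - τ j‖ ^ 2 ≤ ((p : ℝ) ^ (-(f : ℤ)) * ‖τ a‖) ^ 2 :=
      pow_le_pow_left₀ (norm_nonneg _) hk' 2
    have e1 : (p : ℝ) ^ (-(y + 2 * (f : ℤ))) = ((p : ℝ) ^ (-(f : ℤ))) ^ 2 * (p : ℝ) ^ (-y) := by
      rw [sq, ← zpow_add₀ hp0.ne', ← zpow_add₀ hp0.ne']
      congr 1
      ring
    rw [e1]
    calc w * ‖τ i - τ j‖ ^ 2 ≤ w * ((p : ℝ) ^ (-(f : ℤ)) * ‖τ a‖) ^ 2 :=
          mul_le_mul_of_nonneg_left hsq hw0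
      _ = ((p : ℝ) ^ (-(f : ℤ))) ^ 2 * (w * ‖τ a‖ ^ 2) := by ring
      _ ≤ _ := mul_le_mul_of_nonneg_left (hτ a ha) (by positivity)

end Pool.Agent.Lib.MP_af4c59_nt.H57
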