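import Pool.Agent.Lib.MP_af4c59_nt.Gen

/-!
Definitions for the count of quintic fields with dihedral Galois group.
-/

set_option autoImplicit false

namespace Pool.Agent.Lib.MP_af4c59_nt.H57

open Matrix

/-! ### Covers and subpolynomial functions -/

/-- `X` is covered by at most `J` subsets, each with property `Φ`. -/
def Cov {ι : Type} (X : Finset ι) (Φ : Finset ι → Prop) (J : ℝ) : Prop :=
  ∃ S : Finset (Finset ι), (S.card : ℝ) ≤ J ∧ (∀ C ∈ S, C ⊆ X ∧ Φ C) ∧ ∀ x ∈ X, ∃ C ∈ S, x ∈ C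

/-- All pairs of elements of `C` are related. -/
def Clq {ι : Type} (R : ι → ι → Prop) (C : Finset ι) : Prop := ∀ x ∈ C, ∀ y ∈ C, R x y

/-- `X` is covered by at most `J` cliques of `R`. -/
def Part {ι : Type} (X : Finset ι) (R : ι → ι → Prop) (J : ℝ) : Prop := Cov X (Clq R) J

/-- A property of finite sets that passes to subsets. -/
def Her {ι : Type} (Φ : Finset ι → Prop) : Prop := ∀ C D : Finset ι, D ⊆ C → Φ C → Φ D

/-- A monotone function of subpolynomial growth on `[1, ∞)`. -/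
structure SP (f : ℝ → ℝ) : Prop where
  one_le : ∀ x, 1 ≤ x → 1 ≤ f x
  mono : ∀ x y, 1 ≤ x → x ≤ y → f x ≤ f y
  sub : ∀ ε : ℝ, 0 < ε → ∃ C : ℝ, 0 < C ∧ ∀ x, 1 ≤ x → f x ≤ C * x ^ ε

/-- The binary logarithm rounded up. -/
noncomputable def lg (x : ℝ) : ℕ := Nat.clog 2 ⌈x⌉₊

/-! ### Forms, minors, areas -/

/-- The bilinear form of a matrix. -/
def bf {n R : Type} [Fintype n] [CommRing R] (A : Matrix n n R) (x y : n → R) : R :=
  x ⬝ᵥ A *ᵥ y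

/-- Cast of an integer vector. -/
def vc (K : Type) [IntCast K] {n : Type} (x : n → ℤ) : n → K := fun i => (x i : K)

/-- Cast of an integer matrix. -/
def mc (K : Type) [IntCast K] {m n : Type} (A : Matrix m n ℤ) : Matrix m n K :=
  A.map fun a => (a : K)

/-- Two vectors are not proportional. -/
def NP {n R : Type} [Mul R] (x y : n → R) : Prop := ∃ i j, x i * y j ≠ x j * y i

/-- Distinct elements are not proportional. -/
def PW {n R : Type} [Mul R] (X : Finset (n → R)) : Prop := ∀ x ∈ X, ∀ y ∈ X, x ≠ y → NP x y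

/-- A primitive integer vector. -/
def Prim {n : Type} [Fintype n] (x : n → ℤ) : Prop := ∃ w : n → ℤ, x ⬝ᵥ w = 1

/-- The largest two by two minor of a pair of real vectors. -/
noncomputable def ar {n : Type} [Fintype n] (x y : n → ℝ) : ℝ :=
  ‖fun p : n × n => x p.1 * y p.2 - x p.2 * y p.1‖

/-- The determinant of three vectors. -/
def det3 {R : Type} [CommRing R] (a b c : Fin 3 → R) : R :=
  a 0 * (b 1 * c 2 - b 2 * c 1) - a 1 * (b 0 * c 2 - b 2 * c 0) + a 2 * (b 0 * c 1 - b 1 * c 0)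

/-- The cross product of the first three coordinates of two vectors of length four. -/
def cr {R : Type} [CommRing R] (a b : Fin 4 → R) : Fin 3 → R :=
  ![a 1 * b 2 - a 2 * b 1, a 2 * b 0 - a 0 * b 2, a 0 * b 1 - a 1 * b 0]

/-- The point of the line through `a` and `b` with last coordinate zero. -/
def zv {R : Type} [CommRing R] (a b : Fin 4 → R) : Fin 4 → R := b 3 • a - a 3 • b

/-- The pairing determinant of two pairs of vectors. -/
def dd {n R : Type} [Fintype n] [CommRing R] (A : Matrix n n R) (x₁ x₂ y₁ y₂ : n → R) : R :=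
  bf A x₁ y₁ * bf A x₂ y₂ - bf A x₁ y₂ * bf A x₂ y₁

/-- The ruling constant of the line through `a` and `b` on a diagonal quadric surface. -/
def Rul {R : Type} [CommRing R] (d a b : Fin 4 → R) (l : R) : Prop :=
  ∀ i : Fin 3, d i.castSucc * zv a b i.castSucc = l * cr a b i

/-- All minors of size `k` are divisible by `d`. -/
def DvdM {m n : Type} (k : ℕ) (A : Matrix m n ℤ) (d : ℤ) : Prop :=
  ∀ (f : Fin k → m) (g : Fin k → n), d ∣ (A.submatrix f g).det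

/-- Every common divisor of the minors of size `k` divides `c`. -/
def GcdDvd {m n : Type} (k : ℕ) (A : Matrix m n ℤ) (c : ℤ) : Prop :=
  ∀ d : ℤ, DvdM k A d → d ∣ c

/-- All minors of size `k` are at most `μ` in absolute value. -/
def BdM {m n : Type} (k : ℕ) (A : Matrix m n ℝ) (μ : ℝ) : Prop :=
  ∀ (f : Fin k → m) (g : Fin k → n), |(A.submatrix f g).det| ≤ μ

/-- Some minor of size `k` is not zero. -/
def Rk {m n R : Type} [CommRing R] (k : ℕ) (A : Matrix m n R) : Prop :=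
  ∃ (f : Fin k → m) (g : Fin k → n), (A.submatrix f g).det ≠ 0

/-- All entries are at most `a` in absolute value. -/
def Ent {m n : Type} (A : Matrix m n ℝ) (a : ℝ) : Prop := ∀ i j, |A i j| ≤ a

/-- The greatest common divisor of the two by two minors. -/
def gM (A : Matrix (Fin 4) (Fin 4) ℤ) : ℕ :=
  Finset.univ.gcd fun p : (Fin 2 → Fin 4) × (Fin 2 → Fin 4) => (A.submatrix p.1 p.2).det.natAbs

/-- The largest two by two minor. -/
noncomputable def yM (A : Matrix (Fin 4) (Fin 4) ℝ) : ℝ :=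
  ‖fun p : (Fin 2 → Fin 4) × (Fin 2 → Fin 4) => (A.submatrix p.1 p.2).det‖

/-- Pairing determinants of orthogonal pairs are divisible by `S`. -/
def LD (A : Matrix (Fin 4) (Fin 4) ℤ) (S : ℤ) (C : Finset (Fin 4 → ℤ)) : Prop :=
  ∀ x₁ ∈ C, ∀ x₂ ∈ C, ∀ y₁ ∈ C, ∀ y₂ ∈ C, bf A x₁ x₂ = 0 → bf A y₁ y₂ = 0 → S ∣ dd A x₁ x₂ y₁ y₂

/-- The exponent of `p` in two. -/
def e2v (p : ℕ) : ℕ := padicValNat p 2

/-- A set of rational points of a quadric surface with its real frame. -/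
structure QD (A : Matrix (Fin 4) (Fin 4) ℤ) (P : Matrix (Fin 4) (Fin 4) ℝ) (ν : Fin 4 → ℝ)
    (X : Finset (Fin 4 → ℤ)) (N B H : ℝ) : Prop where
  symm : A.IsSymm
  diag : mc ℝ A = Pᵀ * Matrix.diagonal ν * P
  detP : P.det ≠ 0
  sorted : ∀ i j, i ≤ j → |ν j| ≤ |ν i|
  iso : ∀ x ∈ X, bf A x x = 0
  pw : PW X
  bd : ∀ x ∈ X, ‖P *ᵥ vc ℝ x‖ ≤ B
  lo : ∀ x ∈ X, B ≤ N * ‖P *ᵥ vc ℝ x‖
  bN : ∀ x ∈ X, ∀ y ∈ X, |((bf A x y : ℤ) : ℝ)| ≤ N
  oneN : 1 ≤ N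
  Bpos : 0 < B
  Hpos : 0 < H
  HN : B ^ 2 ≤ N * H
  line : ∀ x ∈ X, ∀ y ∈ X, x ≠ y → bf A x y = 0 →
    H * ‖P *ᵥ vc ℝ x‖ ^ 2 ≤ B ^ 2 * ar (P *ᵥ vc ℝ x) (P *ᵥ vc ℝ y)

/-- A set of pairwise non-proportional and non-orthogonal isotropic vectors. -/
structure NoL {n : Type} [Fintype n] (A : Matrix n n ℤ) (X : Finset (n → ℤ)) : Prop where
  iso : ∀ x ∈ X, bf A x x = 0
  pw : PW X
  ne : ∀ x ∈ X, ∀ y ∈ X, x ≠ y → bf A x y ≠ 0

/-- `x` is a combination of the columns of `M` with coefficients at most one. -/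
def InBox (M : Matrix (Fin 4) (Fin 4) ℤ) (x : Fin 4 → ℤ) : Prop :=
  ∃ u : Fin 4 → ℝ, (∀ i, |u i| ≤ 1) ∧ vc ℝ x = mc ℝ M *ᵥ u

/-! ### The ring of integers of the field of the golden ratio -/

/-- The ring generated by a root of `x ^ 2 + x - 1`. -/
abbrev O := QuadraticAlgebra ℤ 1 (-1)

/-- The positive root of `x ^ 2 + x - 1`. -/
noncomputable def th1 : ℝ := (-1 + √5) / 2

/-- The negative root of `x ^ 2 + x - 1`. -/
noncomputable def th2 : ℝ := (-1 - √5) / 2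

lemma th1_sq : th1 * th1 = 1 - th1 := by
  have h : √5 * √5 = 5 := Real.mul_self_sqrt (by norm_num)
  unfold th1; nlinarith

lemma th2_sq : th2 * th2 = 1 - th2 := by
  have h : √5 * √5 = 5 := Real.mul_self_sqrt (by norm_num)
  unfold th2; nlinarith

/-- The embedding attached to a root of `x ^ 2 + x - 1`. -/
def emb {K : Type} [CommRing K] (θ : K) (h : θ * θ = 1 - θ) : O →+* K where
  toFun a := (a.re : K) + (a.im : K) * θ
  map_one' := by simp [QuadraticAlgebra.re_one, QuadraticAlgebra.im_one]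
  map_mul' a b := by
    simp only [QuadraticAlgebra.re_mul, QuadraticAlgebra.im_mul]
    push_cast
    linear_combination (-((a.im : K) * (b.im : K))) * h
  map_zero' := by simp
  map_add' a b := by
    simp only [QuadraticAlgebra.re_add, QuadraticAlgebra.im_add]
    push_cast
    ring

/-- The first real embedding. -/
noncomputable def e1 : O →+* ℝ := emb th1 th1_sq

/-- The second real embedding. -/
noncomputable def e2 : O →+* ℝ := emb th2 th2_sq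

/-- The first complex embedding. -/
noncomputable def c1 : O →+* ℂ := Complex.ofRealHom.comp e1

/-- The second complex embedding. -/
noncomputable def c2 : O →+* ℂ := Complex.ofRealHom.comp e2

/-- The embedding through which the ring acts on the Fourier coefficient number `j ≠ 0`. -/
noncomputable def ec : Fin 5 → (O →+* ℂ) := ![c1, c1, c2, c2, c1]

/-- The generator. -/
def om : O := ⟨0, 1⟩

/-- The square root of five. -/
def s5 : O := ⟨1, 2⟩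

/-- Both coordinates are at most `Z` in absolute value. -/
def OB (a : O) (Z : ℝ) : Prop := |(a.re : ℝ)| ≤ Z ∧ |(a.im : ℝ)| ≤ Z

/-- Both coordinates are divisible by `g`. -/
def OD (g : ℤ) (a : O) : Prop := g ∣ a.re ∧ g ∣ a.im

/-- Natural coordinates of a symmetric tensor. -/
structure Nat6 where
  f0 : O
  f1 : O
  f2 : O
  h12 : O
  h11 : ℤ
  h22 : ℤ

/-- The conditions on natural coordinates used to count vectors. -/
structure VCond (a b g : ℤ) (Y Z u : ℝ) (w : Nat6) : Prop where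
  b0 : OB w.f0 Z
  b1 : OB w.f1 Z
  b2 : OB w.f2 Z
  b12 : OB w.h12 Z
  b11 : |(w.h11 : ℝ)| ≤ Z
  b22 : |(w.h22 : ℝ)| ≤ Z
  q : QuadraticAlgebra.trace (-om * (w.f0 * w.f2 - w.f1 * w.f1)) =
    w.h11 * w.h22 - QuadraticAlgebra.norm w.h12
  dD : OD g (w.f0 * w.f2 - w.f1 * w.f1)
  bD : OB (w.f0 * w.f2 - w.f1 * w.f1) Y
  dE : g ∣ a * QuadraticAlgebra.norm w.f1 + b * QuadraticAlgebra.norm w.h12
  bE : |((a * QuadraticAlgebra.norm w.f1 + b * QuadraticAlgebra.norm w.h12 : ℤ) : ℝ)| ≤ Y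
  dE0 : g ∣ a * QuadraticAlgebra.norm w.f0 + b * w.h11 ^ 2
  bE0 : |((a * QuadraticAlgebra.norm w.f0 + b * w.h11 ^ 2 : ℤ) : ℝ)| ≤ Y * u
  dE2 : g ∣ a * QuadraticAlgebra.norm w.f2 + b * w.h22 ^ 2
  bE2 : |((a * QuadraticAlgebra.norm w.f2 + b * w.h22 ^ 2 : ℤ) : ℝ)| ≤ Y

/-- The natural coordinates of a symmetric matrix. -/
def nat6 (m : Matrix (Fin 4) (Fin 4) ℤ) : Nat6 where
  f0 := ⟨m 0 0 + m 1 1, 2 * m 0 1 - m 1 1⟩
  f1 := ⟨m 0 2 + m 1 3, m 0 3 + m 1 2 - m 1 3⟩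
  f2 := ⟨m 2 2 + m 3 3, 2 * m 2 3 - m 3 3⟩
  h12 := ⟨m 0 2 - m 0 3 - m 1 3, m 1 2 - m 0 3⟩
  h11 := m 0 0 - m 0 1 - m 1 1
  h22 := m 2 2 - m 2 3 - m 3 3

/-! ### Spinors -/

section Spin

variable {R : Type} [CommRing R]

/-- The split quadratic form in ten variables. -/
def qV (v : Fin 10 → R) : R := v 0 * v 5 + v 1 * v 6 + v 2 * v 7 + v 3 * v 8 + v 4 * v 9

/-- Its bilinear form. -/
def BV (u v : Fin 10 → R) : R :=
  u 0 * v 5 + u 1 * v 6 + u 2 * v 7 + u 3 * v 8 + u 4 * v 9 +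
    (u 5 * v 0 + u 6 * v 1 + u 7 * v 2 + u 8 * v 3 + u 9 * v 4)

/-- Clifford multiplication from even to odd spinors. -/
def gam (v : Fin 10 → R) (x : Fin 16 → R) : Fin 16 → R :=
  ![v 2 * x 11 - v 1 * x 12 + v 0 * x 13 + v 4 * x 14 - v 3 * x 15,
    -v 2 * x 8 + v 1 * x 9 - v 0 * x 10 + v 8 * x 14 + v 9 * x 15,
    v 2 * x 5 - v 1 * x 7 - v 4 * x 10 - v 8 * x 13 - v 5 * x 15,
    -v 2 * x 4 + v 1 * x 6 + v 3 * x 10 - v 9 * x 13 + v 5 * x 14,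
    -v 2 * x 3 + v 0 * x 7 + v 4 * x 9 + v 8 * x 12 - v 6 * x 15,
    v 2 * x 2 - v 0 * x 6 - v 3 * x 9 + v 9 * x 12 + v 6 * x 14,
    v 1 * x 3 - v 0 * x 5 - v 4 * x 8 - v 8 * x 11 - v 7 * x 15,
    -v 1 * x 2 + v 0 * x 4 + v 3 * x 8 - v 9 * x 11 + v 7 * x 14,
    -v 2 * x 1 - v 4 * x 6 + v 3 * x 7 - v 5 * x 12 - v 6 * x 13,
    v 1 * x 1 + v 4 * x 4 - v 3 * x 5 + v 5 * x 11 - v 7 * x 13,
    -v 0 * x 1 - v 4 * x 2 + v 3 * x 3 + v 6 * x 11 + v 7 * x 12,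
    v 2 * x 0 - v 8 * x 6 - v 9 * x 7 + v 5 * x 9 + v 6 * x 10,
    -v 1 * x 0 + v 8 * x 4 + v 9 * x 5 - v 5 * x 8 + v 7 * x 10,
    v 0 * x 0 - v 8 * x 2 - v 9 * x 3 - v 6 * x 8 - v 7 * x 9,
    v 4 * x 0 + v 8 * x 1 + v 5 * x 3 + v 6 * x 5 + v 7 * x 7,
    -v 3 * x 0 + v 9 * x 1 - v 5 * x 2 - v 6 * x 4 - v 7 * x 6]

/-- Clifford multiplication from odd to even spinors. -/
def gat (v : Fin 10 → R) (r : Fin 16 → R) : Fin 16 → R :=
  ![v 7 * r 11 - v 6 * r 12 + v 5 * r 13 + v 9 * r 14 - v 8 * r 15,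
    -v 7 * r 8 + v 6 * r 9 - v 5 * r 10 + v 3 * r 14 + v 4 * r 15,
    v 7 * r 5 - v 6 * r 7 - v 9 * r 10 - v 3 * r 13 - v 0 * r 15,
    -v 7 * r 4 + v 6 * r 6 + v 8 * r 10 - v 4 * r 13 + v 0 * r 14,
    -v 7 * r 3 + v 5 * r 7 + v 9 * r 9 + v 3 * r 12 - v 1 * r 15,
    v 7 * r 2 - v 5 * r 6 - v 8 * r 9 + v 4 * r 12 + v 1 * r 14,
    v 6 * r 3 - v 5 * r 5 - v 9 * r 8 - v 3 * r 11 - v 2 * r 15,
    -v 6 * r 2 + v 5 * r 4 + v 8 * r 8 - v 4 * r 11 + v 2 * r 14,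
    -v 7 * r 1 - v 9 * r 6 + v 8 * r 7 - v 0 * r 12 - v 1 * r 13,
    v 6 * r 1 + v 9 * r 4 - v 8 * r 5 + v 0 * r 11 - v 2 * r 13,
    -v 5 * r 1 - v 9 * r 2 + v 8 * r 3 + v 1 * r 11 + v 2 * r 12,
    v 7 * r 0 - v 3 * r 6 - v 4 * r 7 + v 0 * r 9 + v 1 * r 10,
    -v 6 * r 0 + v 3 * r 4 + v 4 * r 5 - v 0 * r 8 + v 2 * r 10,
    v 5 * r 0 - v 3 * r 2 - v 4 * r 3 - v 1 * r 8 - v 2 * r 9,
    v 9 * r 0 + v 3 * r 1 + v 0 * r 3 + v 1 * r 5 + v 2 * r 7,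
    -v 8 * r 0 + v 4 * r 1 - v 0 * r 2 - v 1 * r 4 - v 2 * r 6]

/-- The bilinear map from pairs of even spinors to vectors. -/
def mu (x y : Fin 16 → R) : Fin 10 → R :=
  ![-x 2 * y 15 + x 3 * y 14 - x 8 * y 12 + x 9 * y 11 + x 11 * y 9 - x 12 * y 8 + x 14 * y 3 - x 15 * y 2,
    -x 4 * y 15 + x 5 * y 14 - x 8 * y 13 + x 10 * y 11 + x 11 * y 10 - x 13 * y 8 + x 14 * y 5 - x 15 * y 4,
    -x 6 * y 15 + x 7 * y 14 - x 9 * y 13 + x 10 * y 12 + x 12 * y 10 - x 13 * y 9 + x 14 * y 7 - x 15 * y 6,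
    x 1 * y 14 - x 2 * y 13 + x 4 * y 12 - x 6 * y 11 - x 11 * y 6 + x 12 * y 4 - x 13 * y 2 + x 14 * y 1,
    x 1 * y 15 - x 3 * y 13 + x 5 * y 12 - x 7 * y 11 - x 11 * y 7 + x 12 * y 5 - x 13 * y 3 + x 15 * y 1,
    x 0 * y 13 - x 1 * y 10 + x 4 * y 7 - x 5 * y 6 - x 6 * y 5 + x 7 * y 4 - x 10 * y 1 + x 13 * y 0,
    -x 0 * y 12 + x 1 * y 9 - x 2 * y 7 + x 3 * y 6 + x 6 * y 3 - x 7 * y 2 + x 9 * y 1 - x 12 * y 0,
    x 0 * y 11 - x 1 * y 8 + x 2 * y 5 - x 3 * y 4 - x 4 * y 3 + x 5 * y 2 - x 8 * y 1 + x 11 * y 0,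
    -x 0 * y 15 + x 3 * y 10 - x 5 * y 9 + x 7 * y 8 + x 8 * y 7 - x 9 * y 5 + x 10 * y 3 - x 15 * y 0,
    x 0 * y 14 - x 2 * y 10 + x 4 * y 9 - x 6 * y 8 - x 8 * y 6 + x 9 * y 4 - x 10 * y 2 + x 14 * y 0]

/-- The four odd spinors that cut out the linear section. -/
def kk : Fin 4 → Fin 16 → R :=
  ![![0, 0, 0, 0, -1, 0, 1, 1, 0, 0, 0, 0, 0, 0, 0, 0],
    ![0, 0, 1, 0, -1, -1, 0, 0, 0, 0, 0, 0, 0, 0, 0, 0],
    ![0, 0, 0, 0, 0, 0, 0, 0, -1, 1, 0, 0, 0, 1, 0, 0],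
    ![0, 0, 0, 0, 0, 0, 0, 0, 1, -1, 1, 1, 0, -2, 0, 0]]

/-- The form on the span of the four odd spinors. -/
def MK (v : Fin 10 → R) : Matrix (Fin 4) (Fin 4) R :=
  !![-2 * v 5, -v 6, -v 8, -v 3 - v 4 + v 8;
    -v 6, -2 * v 7, -v 3 + v 8 - v 9, 2 * v 3 - v 8;
    -v 8, -v 3 + v 8 - v 9, 2 * v 1 - 2 * v 2, v 0 - 3 * v 1 + 3 * v 2;
    -v 3 - v 4 + v 8, 2 * v 3 - v 8, v 0 - 3 * v 1 + 3 * v 2, -2 * v 0 + 6 * v 1 - 4 * v 2]

/-- Twice the symmetric tensor attached to a vector. -/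
def m2 (v : Fin 10 → R) : Matrix (Fin 4) (Fin 4) R :=
  !![2 * v 0, 2 * v 1, 2 * v 3 + v 4 + v 8 + v 9, 2 * v 9;
    2 * v 1, 2 * v 2, 2 * v 4, v 4 - v 8 + v 9;
    2 * v 3 + v 4 + v 8 + v 9, 2 * v 4, -6 * v 5 - 2 * v 6, -2 * v 5 - 2 * v 6 - 2 * v 7;
    2 * v 9, v 4 - v 8 + v 9, -2 * v 5 - 2 * v 6 - 2 * v 7, -2 * v 6 - 2 * v 7]

/-- The vector attached to a symmetric tensor. -/
def tau (m : Matrix (Fin 4) (Fin 4) R) : Fin 10 → R :=
  ![m 0 0, m 0 1, m 1 1, m 0 2 - m 0 3 - m 1 2 + m 1 3, m 1 2,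
    m 3 3 - m 2 3, -m 2 2 + 3 * m 2 3 - 3 * m 3 3, m 2 2 - 3 * m 2 3 + 2 * m 3 3,
    m 0 3 + m 1 2 - 2 * m 1 3, m 0 3]

/-- The matrix of `gam v`. -/
def gamM (v : Fin 10 → R) : Matrix (Fin 16) (Fin 16) R :=
  Matrix.of fun i j => gam v (Pi.single j 1) i

/-- The matrix of `gat v`. -/
def gatM (v : Fin 10 → R) : Matrix (Fin 16) (Fin 16) R :=
  Matrix.of fun i j => gat v (Pi.single j 1) i

/-- The four odd spinors as columns. -/
def kkM : Matrix (Fin 16) (Fin 4) R := Matrix.of fun i j => kk j i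

/-- The images of the four odd spinors. -/
def KV (v : Fin 10 → R) : Matrix (Fin 16) (Fin 4) R := Matrix.of fun i j => gat v (kk j) i

/-- One of the two symmetric matrices attached to a vector. -/
def MM (b : Bool) (v : Fin 10 → R) : Matrix (Fin 4) (Fin 4) R := if b then MK v else m2 v

end Spin

/-- The spinor attached to six structure constants. -/
def iota (s : Fin 6 → O) : Fin 16 → ℤ :=
  ![2 * (s 1).re - (s 1).im,
    (s 1).re - 3 * (s 1).im,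
    (s 0).re + (s 0).im - (s 3).im,
    (s 0).re - 3 * (s 3).re + 7 * (s 3).im,
    (s 0).re + 2 * (s 3).re - 3 * (s 3).im,
    (s 0).im - 2 * (s 3).re + 2 * (s 3).im,
    (s 0).im + 3 * (s 3).re - 3 * (s 3).im,
    (s 0).re - (s 0).im - (s 3).re,
    (s 2).re + (s 2).im + 3 * (s 5).re - 5 * (s 5).im,
    (s 2).im + 4 * (s 5).re - 6 * (s 5).im,
    (s 2).re - 2 * (s 2).im + (s 5).re - 2 * (s 5).im,
    2 * (s 2).im - 2 * (s 5).re + 3 * (s 5).im,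
    3 * (s 2).re - (s 2).im - 2 * (s 5).re + 4 * (s 5).im,
    (s 2).re - (s 5).re + (s 5).im,
    -(s 4).re + 3 * (s 4).im,
    -2 * (s 4).re + (s 4).im]

/-- Weights of the spinor coordinates. -/
def wS : Fin 16 → ℤ := ![-3, -3, -1, -1, -1, -1, -1, -1, 1, 1, 1, 1, 1, 1, 3, 3]

/-- Weights of the vector coordinates. -/
def wV : Fin 10 → ℤ := ![2, 2, 2, 0, 0, -2, -2, -2, 0, 0]

/-- Weights of the four odd spinors. -/
def wK : Fin 4 → ℤ := ![-1, -1, 1, 1]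

/-- The rescaled vector. -/
noncomputable def scV (t : ℝ) (v : Fin 10 → ℝ) : Fin 10 → ℝ := fun a => t ^ (-wV a) * v a

/-- The rescaled even spinor. -/
noncomputable def scS (t : ℝ) (x : Fin 16 → ℝ) : Fin 16 → ℝ := fun i => t ^ (-wS i) * x i

/-- The rescaled odd spinor. -/
noncomputable def scT (t : ℝ) (r : Fin 16 → ℝ) : Fin 16 → ℝ := fun i => t ^ (wS i) * r i

/-- The rescaled real vector of an integer vector. -/
noncomputable def tV (t : ℝ) (v : Fin 10 → ℤ) : Fin 10 → ℝ := scV t (vc ℝ v)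

/-- The rescaled real spinor of an integer spinor. -/
noncomputable def tS (t : ℝ) (s : Fin 16 → ℤ) : Fin 16 → ℝ := scS t (vc ℝ s)

/-- The weight of a vector in the final sum. -/
noncomputable def wt (b : Bool) (t T : ℝ) (v : Fin 10 → ℤ) : ℝ :=
  (gM (MM b v) : ℝ) * T ^ 2 / yM (MM b (tV t v))

/-- The short null vectors. -/
structure GoodV (c B t : ℝ) (v : Fin 10 → ℤ) : Prop where
  prim : ∃ u, BV u v = 1
  q : qV v = 0
  rK : Rk 3 (MK v)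
  rm : Rk 3 (m2 v)
  T5 : ‖tV t v‖ ^ 5 ≤ c * B ^ 2
  T4 : ‖tV t v‖ ^ 4 * t ^ 2 ≤ c * B ^ 2

/-- The pure spinors that are counted. -/
structure Adm (c B t : ℝ) (v : Fin 10 → ℤ) (s : Fin 16 → ℤ) : Prop where
  prim : Prim s
  lin : ∀ j, kk j ⬝ᵥ s = 0
  pure : mu s s = 0
  ann : gam v s = 0
  bd : ‖tS t s‖ ≤ c * B
  line : ∀ s' : Fin 16 → ℤ, mu s s' = 0 → NP s s' →
    ‖tV t v‖ ^ 3 * ‖tS t s‖ ^ 2 ≤ c * B ^ 2 * ar (tS t s) (tS t s')

/-- An adapted basis of the rank eight lattice with its inverse Gram matrix. -/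
structure DZ (Γ Ψ : Matrix (Fin 16) (Fin 16) ℤ) (K : Matrix (Fin 16) (Fin 4) ℤ)
    (J : Matrix (Fin 16) (Fin 4 ⊕ Fin 4) ℤ) (Lf : Matrix (Fin 4 ⊕ Fin 4) (Fin 16) ℤ)
    (H : Matrix (Fin 4 ⊕ Fin 4) (Fin 4 ⊕ Fin 4) ℤ) (G : Matrix (Fin 4) (Fin 4) ℤ) : Prop where
  sΓ : Γ.IsSymm
  sΨ : Ψ.IsSymm
  mem : Γ * Ψ * J = J
  linv : Lf * J = 1
  inv : Jᵀ * Ψ * J * H = 1
  gam_eq : Γ = J * H * Jᵀ
  kj : Jᵀ * K = Matrix.fromRows 0 G
  detG : G.det ≠ 0
  span : ∀ x : Fin 16 → ℤ, (Γ * Ψ) *ᵥ x = x → Kᵀ *ᵥ x = 0 → ∃ ξ : Fin 4 → ℤ, x = J.toCols₁ *ᵥ ξ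

/-! ### Quintic fields -/

/-- A primitive fifth root of unity. -/
noncomputable def z5 : ℂ := Complex.exp (2 * Real.pi * Complex.I / 5)

/-- The Fourier transform on the pentagon. -/
noncomputable def ft (z : Fin 5 → ℂ) : Fin 5 → ℂ := fun j => ∑ i : Fin 5, z5 ^ (i.val * j.val) * z i

/-- Five times the trace free part of the inverse Fourier transform. -/
noncomputable def ift (X : Fin 5 → ℂ) : Fin 5 → ℂ := fun i =>
  z5 ^ (4 * i.val) * X 1 + z5 ^ (3 * i.val) * X 2 + z5 ^ (2 * i.val) * X 3 + z5 ^ i.val * X 4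

/-- The sum over the two neighbours. -/
def opT (z : Fin 5 → ℂ) : Fin 5 → ℂ := fun i => z (i + 1) + z (i - 1)

/-- The symmetric convolution. -/
def opP (z w : Fin 5 → ℂ) : Fin 5 → ℂ := fun i => ∑ a : Fin 5, z (i + a) * w (i - a)

/-- The determinant at the first place. -/
def d1 (X Y : Fin 5 → ℂ) : ℂ := X 1 * Y 4 - X 4 * Y 1

/-- The determinant at the second place. -/
def d2 (X Y : Fin 5 → ℂ) : ℂ := X 2 * Y 3 - X 3 * Y 2

/-- Equality of the coefficients of nonzero frequency. -/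
def Eq0 (X Y : Fin 5 → ℂ) : Prop := ∀ j : Fin 5, j ≠ 0 → X j = Y j

/-- A bound for the coefficients of nonzero frequency. -/
def Bd0 (X : Fin 5 → ℂ) (r : ℝ) : Prop := ∀ j : Fin 5, j ≠ 0 → ‖X j‖ ≤ r

/-- A linear combination with coefficients in the quadratic ring. -/
noncomputable def lc (a b : O) (X Y : Fin 5 → ℂ) : Fin 5 → ℂ :=
  fun j => ec j a * X j + ec j b * Y j

/-- Three equations of the multiplication table. -/
def SC1 (x y x' y' : ℂ) (a : Fin 6 → ℂ) : Prop :=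
  x' * x' = a 0 * x + a 1 * y ∧ x' * y' = a 2 * x + a 3 * y ∧ y' * y' = a 4 * x + a 5 * y

/-- The multiplication table of the symmetric convolution. -/
def SC (X Y : Fin 5 → ℂ) (a b : Fin 6 → ℂ) : Prop :=
  SC1 (X 1) (Y 1) (X 3) (Y 3) a ∧ SC1 (X 4) (Y 4) (X 2) (Y 2) a ∧
    SC1 (X 2) (Y 2) (X 1) (Y 1) b ∧ SC1 (X 3) (Y 3) (X 4) (Y 4) b

/-- The multiplication table has entries `s` in the quadratic ring. -/
def SCO (X Y : Fin 5 → ℂ) (s : Fin 6 → O) : Prop :=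
  SC X Y (fun k => c1 (s k)) (fun k => c2 (s k))

/-- The four lattice vectors of a frame. -/
noncomputable def fr (X Y : Fin 5 → ℂ) : Fin 4 → Fin 5 → ℂ :=
  ![X, fun j => ec j om * X j, Y, fun j => ec j om * Y j]

/-- The matrix `m` expresses the diagonal tensor with Fourier coefficients `l` in the frame. -/
def MF (X Y l : Fin 5 → ℂ) (m : Matrix (Fin 4) (Fin 4) ℤ) : Prop :=
  m.IsSymm ∧ ∀ j k : Fin 5, j ≠ 0 → k ≠ 0 →
    ∑ a : Fin 4, ∑ b : Fin 4, fr X Y a j * (m a b : ℂ) * fr X Y b k = l (j + k)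

/-- The shape of a frame. -/
structure Shape (c B t : ℝ) (X Y : Fin 5 → ℂ) : Prop where
  cls : d1 X Y = -(th1 : ℂ) * d2 X Y
  lo : B ^ 2 ≤ ‖d2 X Y‖
  bX : Bd0 X (c * B / t)
  bY : Bd0 Y (c * B * t)

section Field

open NumberField

variable {L : Type} [Field L] [NumberField L]

/-- The vector of conjugates. -/
def em (φ : Fin 5 → (L →+* ℂ)) (x : 𝓞 L) : Fin 5 → ℂ := fun i => φ i (x : L)

/-- The Fourier coefficients of the vector of conjugates. -/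
noncomputable def hat (φ : Fin 5 → (L →+* ℂ)) (x : 𝓞 L) : Fin 5 → ℂ := ft (em φ x)

/-- A quintic field whose embeddings form a pentagon. -/
structure Pent (φ : Fin 5 → (L →+* ℂ)) : Prop where
  deg : Module.finrank ℚ L = 5
  inj : Function.Injective φ
  hT : ∀ x : 𝓞 L, ∃ y : 𝓞 L, em φ y = opT (em φ x)
  hP : ∀ x y : 𝓞 L, ∃ z : 𝓞 L, em φ z = opP (em φ x) (em φ y)

/-- The pair `x, y` generates `n` times the ring of integers modulo constants. -/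
def Span (φ : Fin 5 → (L →+* ℂ)) (n : ℂ) (x y : 𝓞 L) : Prop :=
  ∀ z : 𝓞 L, ∃ a b : O, Eq0 (n • hat φ z) (lc a b (hat φ x) (hat φ y))

end Field

/-- A spinor of the counted set is attached to the frame. -/
def Att (c B t : ℝ) (X Y : Fin 5 → ℂ) : Prop :=
  d1 X Y ≠ 0 ∧ d2 X Y ≠ 0 ∧ ∃ (s : Fin 6 → O) (n : ℤ) (s₀ : Fin 16 → ℤ) (v : Fin 10 → ℤ),
    n ≠ 0 ∧ iota s = n • s₀ ∧ SCO X Y s ∧ GoodV c B t v ∧ Adm c B t v s₀

/-- The field `L` is represented at level `B, t`. -/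
def Rep (ι : Ω →+* ℂ) (c B t : ℝ) (L : IntermediateField ℚ Ω) : Prop :=
  Module.finrank ℚ L = 5 ∧ ∃ (i : Fin 5) (X Y : Fin 5 → ℂ) (a : Ω),
    a ∈ L ∧ a ∉ (⊥ : IntermediateField ℚ Ω) ∧ ι a = ift X i ∧
      ∀ α : O, OB α (t ^ 2) → Att c B t X (lc α 1 X Y)

/-- The dihedral group of the pentagon. -/
def D5 : Subgroup (Equiv.Perm (Fin 5)) := Subgroup.closure {finRotate 5, Fin.revPerm}

end Pool.Agent.Lib.MP_af4c59_nt.H57
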