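import Pool.Agent.Lib.MP_af4c59_nt.H57Four
import Pool.Agent.Lib.MP_af4c59_nt.H57Spin

/-!
The multiplication table determines the frame.
-/

set_option autoImplicit false

namespace Pool.Agent.Lib.MP_af4c59_nt.H57

open Matrix

theorem det_root {p q p' q' α : ℂ} (h1 : p' * p' = α * (p * p)) (h2 : p' * q' = α * (p * q))
    (h3 : q' * q' = α * (q * q)) (h : p ≠ 0 ∨ q ≠ 0) :
    ∃ γ : ℂ, α = γ ^ 2 ∧ p' = γ * p ∧ q' = γ * q := by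
  have h4 : p' * q - q' * p = 0 := by
    refine pow_eq_zero_iff (two_ne_zero) |>.1 ?_
    linear_combination q ^ 2 * h1 - 2 * p * q * h2 + p ^ 2 * h3
  rcases h with h | h
  · refine ⟨p' / p, ?_, by field_simp, ?_⟩
    · field_simp
      linear_combination -h1
    · field_simp
      linear_combination -h4
  · refine ⟨q' / q, ?_, ?_, by field_simp⟩
    · field_simp
      linear_combination -h3
    · field_simp
      linear_combination h4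

theorem det_step {x y p q z w r s x' y' p' q' : ℂ} {a : Fin 6 → ℂ} (h1 : SC1 x y p q a)
    (h2 : SC1 z w r s a) (h3 : SC1 x' y' p' q' a) (hd : x * w - z * y ≠ 0)
    (he : r * q - p * s ≠ 0) :
    (∃ γ : ℂ, x' = γ ^ 2 * x ∧ y' = γ ^ 2 * y ∧ p' = γ * p ∧ q' = γ * q) ∨
      ∃ γ : ℂ, x' = γ ^ 2 * z ∧ y' = γ ^ 2 * w ∧ p' = γ * r ∧ q' = γ * s := by
  obtain ⟨α, β, hx, hy⟩ : ∃ α β : ℂ, x' = α * x + β * z ∧ y' = α * y + β * w := by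
    refine ⟨(x' * w - z * y') / (x * w - z * y), (x * y' - x' * y) / (x * w - z * y), ?_, ?_⟩ <;>
    · rw [div_mul_eq_mul_div, div_mul_eq_mul_div, ← add_div, eq_div_iff hd]
      ring
  obtain ⟨a1, a2, a3⟩ := h1
  obtain ⟨b1, b2, b3⟩ := h2
  obtain ⟨c1, c2, c3⟩ := h3
  have e1 : p' * p' = α * (p * p) + β * (r * r) := by
    rw [c1, a1, b1, hx, hy]; ring
  have e2 : p' * q' = α * (p * q) + β * (r * s) := by
    rw [c2, a2, b2, hx, hy]; ring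
  have e3 : q' * q' = α * (q * q) + β * (s * s) := by
    rw [c3, a3, b3, hx, hy]; ring
  have e4 : α * β * (r * q - p * s) ^ 2 = 0 := by
    have : (p' * p') * (q' * q') - (p' * q') * (p' * q') = 0 := by ring
    rw [e1, e2, e3] at this
    linear_combination this
  have hpq : p ≠ 0 ∨ q ≠ 0 := by
    by_contra hc
    push Not at hc
    exact he (by rw [hc.1, hc.2]; ring)
  have hrs : r ≠ 0 ∨ s ≠ 0 := by
    by_contra hc
    push Not at hc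
    exact he (by rw [hc.1, hc.2]; ring)
  rcases mul_eq_zero.1 ((mul_eq_zero.1 e4).resolve_right (pow_ne_zero 2 he)) with h | h
  · right
    rw [h, zero_mul, zero_add] at e1 e2 e3 hx hy
    obtain ⟨γ, hγ, hp, hq⟩ := det_root e1 e2 e3 hrs
    exact ⟨γ, by rw [hx, hγ], by rw [hy, hγ], hp, hq⟩
  · left
    rw [h, zero_mul, add_zero] at e1 e2 e3 hx hy
    obtain ⟨γ, hγ, hp, hq⟩ := det_root e1 e2 e3 hpq
    exact ⟨γ, by rw [hx, hγ], by rw [hy, hγ], hp, hq⟩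

theorem det_scal {x y p q γ δ : ℂ} {b : Fin 6 → ℂ} (h1 : SC1 x y p q b)
    (h2 : SC1 (δ * x) (δ * y) (γ ^ 2 * p) (γ ^ 2 * q) b) (h : p ≠ 0 ∨ q ≠ 0) : δ = γ ^ 4 := by
  obtain ⟨a1, -, a3⟩ := h1
  obtain ⟨b1, -, b3⟩ := h2
  rcases h with h | h
  · refine mul_right_cancel₀ (mul_ne_zero h h) ?_
    linear_combination δ * a1 - b1
  · refine mul_right_cancel₀ (mul_ne_zero h h) ?_
    linear_combination δ * a3 - b3

theorem det_fin {X Y X' Y' : Fin 5 → ℂ} {a b : Fin 6 → ℂ} {γ δ : ℂ} (h : SC X Y a b)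
    (h' : SC X' Y' a b) (hd : d1 X Y ≠ 0) (hd' : d1 X' Y' ≠ 0)
    (e1 : X' 1 = γ ^ 2 * X 1 ∧ Y' 1 = γ ^ 2 * Y 1 ∧ X' 3 = γ * X 3 ∧ Y' 3 = γ * Y 3)
    (e4 : X' 4 = δ ^ 2 * X 4 ∧ Y' 4 = δ ^ 2 * Y 4 ∧ X' 2 = δ * X 2 ∧ Y' 2 = δ * Y 2) :
    γ ∈ Polynomial.nthRootsFinset 15 (1 : ℂ) ∧
      Eq0 X' ![0, γ ^ 2 * X 1, γ ^ 4 * X 2, γ * X 3, γ ^ 8 * X 4] ∧
      Eq0 Y' ![0, γ ^ 2 * Y 1, γ ^ 4 * Y 2, γ * Y 3, γ ^ 8 * Y 4] := by
  obtain ⟨x1, y1, x3, y3⟩ := e1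
  obtain ⟨x4, y4, x2, y2⟩ := e4
  have n1 : X 1 ≠ 0 ∨ Y 1 ≠ 0 := by
    by_contra hc
    push Not at hc
    exact hd (by rw [d1, hc.1, hc.2]; ring)
  have n4 : X 4 ≠ 0 ∨ Y 4 ≠ 0 := by
    by_contra hc
    push Not at hc
    exact hd (by rw [d1, hc.1, hc.2]; ring)
  have k2 := h'.2.2.1
  have k3 := h'.2.2.2
  rw [x1, y1, x2, y2] at k2
  rw [x3, y3, x4, y4] at k3
  have hδ : δ = γ ^ 4 := det_scal h.2.2.1 k2 n1
  have hγ : γ = δ ^ 4 := det_scal h.2.2.2 k3 n4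
  have hγ0 : γ ≠ 0 := fun h0 => hd' (by rw [d1, x1, y1, h0]; ring)
  have h15 : γ ^ 15 = 1 := by
    refine mul_left_cancel₀ hγ0 ?_
    rw [hδ] at hγ
    linear_combination -hγ
  refine ⟨(Polynomial.mem_nthRootsFinset (by norm_num) _).2 h15, ?_, ?_⟩
  · refine all5 (fun h => absurd rfl h) (fun _ => x1) (fun _ => ?_) (fun _ => x3) fun _ => ?_
    · rw [x2, hδ]; rfl
    · rw [x4, hδ, ← pow_mul]; rfl
  · refine all5 (fun h => absurd rfl h) (fun _ => y1) (fun _ => ?_) (fun _ => y3) fun _ => ?_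
    · rw [y2, hδ]; rfl
    · rw [y4, hδ, ← pow_mul]; rfl

theorem det_card : (Polynomial.nthRootsFinset 15 (1 : ℂ)).card ≤ 15 := by
  classical
  rw [Polynomial.nthRootsFinset_def]
  exact (Multiset.toFinset_card_le _).trans (Polynomial.card_nthRoots 15 1)

theorem det30 (a b : Fin 6 → ℂ) : ∃ Z : Finset ((Fin 5 → ℂ) × (Fin 5 → ℂ)), Z.card ≤ 30 ∧
    ∀ X Y, SC X Y a b → d1 X Y ≠ 0 → d2 X Y ≠ 0 → ∃ p ∈ Z, Eq0 X p.1 ∧ Eq0 Y p.2 := by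
  classical
  by_cases hex : ∃ X Y, SC X Y a b ∧ d1 X Y ≠ 0 ∧ d2 X Y ≠ 0
  swap
  · exact ⟨∅, by simp, fun X Y h h1 h2 => absurd ⟨X, Y, h, h1, h2⟩ hex⟩
  obtain ⟨X, Y, h, h1, h2⟩ := hex
  let tw : (Fin 5 → ℂ) → (Fin 5 → ℂ) → ℂ → (Fin 5 → ℂ) × (Fin 5 → ℂ) := fun U V γ =>
    (![0, γ ^ 2 * U 1, γ ^ 4 * U 2, γ * U 3, γ ^ 8 * U 4],
      ![0, γ ^ 2 * V 1, γ ^ 4 * V 2, γ * V 3, γ ^ 8 * V 4])
  let X₁ : Fin 5 → ℂ := ![0, X 4, X 3, X 2, X 1]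
  let Y₁ : Fin 5 → ℂ := ![0, Y 4, Y 3, Y 2, Y 1]
  have hs : SC X₁ Y₁ a b := ⟨h.2.1, h.1, h.2.2.2, h.2.2.1⟩
  have hs1 : d1 X₁ Y₁ ≠ 0 := fun h0 => h1 (by
    have h3 : X 4 * Y 1 - X 1 * Y 4 = 0 := h0
    rw [d1]
    linear_combination -h3)
  refine ⟨(Polynomial.nthRootsFinset 15 (1 : ℂ)).image (tw X Y) ∪
    (Polynomial.nthRootsFinset 15 (1 : ℂ)).image (tw X₁ Y₁), ?_, fun X' Y' h' h1' _ => ?_⟩
  · have := det_card
    have k1 := Finset.card_image_le (s := Polynomial.nthRootsFinset 15 (1 : ℂ)) (f := tw X Y)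
    have k2 := Finset.card_image_le (s := Polynomial.nthRootsFinset 15 (1 : ℂ)) (f := tw X₁ Y₁)
    refine (Finset.card_union_le _ _).trans ?_
    omega
  · rcases det_step h.1 h.2.1 h'.1 h1 h2 with ⟨γ, e1⟩ | ⟨γ, e1⟩ <;>
      rcases det_step h.1 h.2.1 h'.2.1 h1 h2 with ⟨δ, e4⟩ | ⟨δ, e4⟩
    · exact absurd (by rw [d1, e1.1, e1.2.1, e4.1, e4.2.1]; ring) h1'
    · obtain ⟨k1, k2, k3⟩ := det_fin h h' h1 h1' e1 e4
      exact ⟨tw X Y γ, Finset.mem_union_left _ (Finset.mem_image_of_mem _ k1), k2, k3⟩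
    · obtain ⟨k1, k2, k3⟩ := det_fin hs h' hs1 h1' e1 e4
      exact ⟨tw X₁ Y₁ γ, Finset.mem_union_right _ (Finset.mem_image_of_mem _ k1), k2, k3⟩
    · exact absurd (by rw [d1, e1.1, e1.2.1, e4.1, e4.2.1]; ring) h1'

theorem det_sc1 {x y p q : ℂ} {a : Fin 6 → ℂ} (h : SC1 x y p q a) (c : ℂ) :
    SC1 (c * x) (c * y) (c * p) (c * q) (c • a) := by
  obtain ⟨a1, a2, a3⟩ := h
  simp only [SC1, Pi.smul_apply, smul_eq_mul]
  exact ⟨by linear_combination c ^ 2 * a1, by linear_combination c ^ 2 * a2,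
    by linear_combination c ^ 2 * a3⟩

theorem SC.smul {X Y : Fin 5 → ℂ} {a b : Fin 6 → ℂ} (h : SC X Y a b) (c : ℂ) :
    SC (c • X) (c • Y) (c • a) (c • b) := by
  exact ⟨det_sc1 h.1 c, det_sc1 h.2.1 c, det_sc1 h.2.2.1 c, det_sc1 h.2.2.2 c⟩

theorem det_iota0 {s : Fin 6 → O} (h : iota s = 0) : s = 0 := by
  obtain ⟨i0, i1, i2, i3, i4, i5, i6, i7, i8, i9, i10, i11, i12, i13, i14, i15⟩ := iota_c s
  rw [h, Pi.zero_apply] at i0 i1 i2 i3 i4 i5 i6 i7 i8 i9 i10 i11 i12 i13 i14 i15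
  have k0 : (s 0).re = 0 ∧ (s 0).im = 0 ∧ (s 3).re = 0 ∧ (s 3).im = 0 := by omega
  have k2 : (s 2).re = 0 ∧ (s 2).im = 0 ∧ (s 5).re = 0 ∧ (s 5).im = 0 := by omega
  have k1 : (s 1).re = 0 ∧ (s 1).im = 0 := by omega
  have k4 : (s 4).re = 0 ∧ (s 4).im = 0 := by omega
  funext k
  fin_cases k
  · exact QuadraticAlgebra.ext k0.1 k0.2.1
  · exact QuadraticAlgebra.ext k1.1 k1.2
  · exact QuadraticAlgebra.ext k2.1 k2.2.1
  · exact QuadraticAlgebra.ext k0.2.2.1 k0.2.2.2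
  · exact QuadraticAlgebra.ext k4.1 k4.2
  · exact QuadraticAlgebra.ext k2.2.2.1 k2.2.2.2

theorem det_iota {s s' : Fin 6 → O} {m n : ℤ} (h : m • iota s = n • iota s') (k : Fin 6) :
    m • s k = n • s' k := by
  have h1 : iota (m • s - n • s') = m • iota s - n • iota s' := by
    apply ext16 <;>
      simp only [iota_c, Pi.sub_apply, Pi.smul_apply, QuadraticAlgebra.re_sub,
        QuadraticAlgebra.im_sub, QuadraticAlgebra.re_smul, QuadraticAlgebra.im_smul,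
        smul_eq_mul] <;> ring
  rw [h, sub_self] at h1
  exact congrFun (sub_eq_zero.1 (det_iota0 h1)) k

/-- The frames attached to multiples of one spinor. -/
theorem fibre30 (s₀ : Fin 16 → ℤ) : ∃ Z : Finset ((Fin 5 → ℂ) × (Fin 5 → ℂ)), Z.card ≤ 30 ∧
    ∀ (X Y : Fin 5 → ℂ) (s : Fin 6 → O) (n : ℤ), n ≠ 0 → iota s = n • s₀ → SCO X Y s →
      d1 X Y ≠ 0 → d2 X Y ≠ 0 → ∃ p ∈ Z, Eq0 X ((n : ℂ) • p.1) ∧ Eq0 Y ((n : ℂ) • p.2) := by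
  by_cases hex : ∃ (s : Fin 6 → O) (n : ℤ), n ≠ 0 ∧ iota s = n • s₀
  swap
  · exact ⟨∅, by simp, fun X Y s n hn hs _ _ _ => absurd ⟨s, n, hn, hs⟩ hex⟩
  obtain ⟨s₁, m, hm, hs₁⟩ := hex
  obtain ⟨Z, hZ, hZ'⟩ := det30 ((m : ℂ)⁻¹ • fun k => c1 (s₁ k)) ((m : ℂ)⁻¹ • fun k => c2 (s₁ k))
  refine ⟨Z, hZ, fun X Y s n hn hs h h1 h2 => ?_⟩
  have hm' : (m : ℂ) ≠ 0 := by exact_mod_cast hm
  have hn' : (n : ℂ) ≠ 0 := by exact_mod_cast hn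
  have key : ∀ k, m • s k = n • s₁ k := det_iota (by rw [hs, hs₁, smul_comm])
  have hc : ∀ φ : O →+* ℂ,
      ((n : ℂ)⁻¹ • fun k => φ (s k)) = (m : ℂ)⁻¹ • fun k => φ (s₁ k) := fun φ => by
    funext k
    have h3 := congrArg φ (key k)
    rw [map_zsmul, map_zsmul, zsmul_eq_mul, zsmul_eq_mul] at h3
    simp only [Pi.smul_apply, smul_eq_mul]
    field_simp
    linear_combination h3
  have h3 := SC.smul h (n : ℂ)⁻¹
  rw [hc c1, hc c2] at h3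
  have hi : (n : ℂ)⁻¹ ^ 2 ≠ 0 := pow_ne_zero 2 (inv_ne_zero hn')
  obtain ⟨p, hp, k1, k2⟩ := hZ' _ _ h3
    (fun h0 => mul_ne_zero hi h1 (by
      simp only [d1, Pi.smul_apply, smul_eq_mul] at h0 ⊢
      linear_combination h0))
    (fun h0 => mul_ne_zero hi h2 (by
      simp only [d2, Pi.smul_apply, smul_eq_mul] at h0 ⊢
      linear_combination h0))
  refine ⟨p, hp, fun j hj => ?_, fun j hj => ?_⟩
  · rw [Pi.smul_apply, ← k1 j hj, Pi.smul_apply, smul_inv_smul₀ hn']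
  · rw [Pi.smul_apply, ← k2 j hj, Pi.smul_apply, smul_inv_smul₀ hn']

end Pool.Agent.Lib.MP_af4c59_nt.H57
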