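import Pool.Agent.Lib.MP_af4c59_nt.H57Jac

/-!
The lattice of rank eight and its adapted basis.
-/

set_option autoImplicit false

namespace Pool.Agent.Lib.MP_af4c59_nt.H57

open Matrix

theorem dualz_idem {n : ℕ} {P : Matrix (Fin n) (Fin n) ℤ} (h : P * P = P) :
    ∃ (r : ℕ) (J : Matrix (Fin n) (Fin r) ℤ) (Lf : Matrix (Fin r) (Fin n) ℤ),
      J * Lf = P ∧ Lf * J = 1 := by
  let π : (Fin n → ℤ) →ₗ[ℤ] (Fin n → ℤ) := Matrix.toLin' P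
  let b := Module.finBasis ℤ (LinearMap.range π)
  let e := Pi.basisFun ℤ (Fin n)
  refine ⟨_, LinearMap.toMatrix b e (LinearMap.range π).subtype,
    LinearMap.toMatrix e b π.rangeRestrict, ?_, ?_⟩
  · rw [← LinearMap.toMatrix_comp e b e]
    have h1 : (LinearMap.range π).subtype ∘ₗ π.rangeRestrict = π := rfl
    rw [h1, LinearMap.toMatrix_eq_toMatrix', LinearMap.toMatrix'_toLin']
  · rw [← LinearMap.toMatrix_comp b e b]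
    have h1 : π.rangeRestrict ∘ₗ (LinearMap.range π).subtype = LinearMap.id := by
      refine LinearMap.ext fun x => Subtype.ext ?_
      obtain ⟨x, y, rfl⟩ := x
      change P *ᵥ (P *ᵥ y) = P *ᵥ y
      rw [Matrix.mulVec_mulVec, h]
    rw [h1, LinearMap.toMatrix_id]

theorem dualz_dvd_self {n : ℕ} (G : Matrix (Fin n) (Fin n) ℤ) : DvdM n G G.det := by
  intro f g
  have h1 : G.submatrix f g = (1 : Matrix (Fin n) (Fin n) ℤ).submatrix f id * G *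
      (1 : Matrix (Fin n) (Fin n) ℤ).submatrix id g := by
    conv_lhs => rw [← Matrix.one_mul G, ← Matrix.mul_one (1 * G)]
    rw [Matrix.submatrix_mul _ _ f id g Function.bijective_id,
      Matrix.submatrix_mul _ _ f id id Function.bijective_id, Matrix.submatrix_id_id]
  rw [h1, Matrix.det_mul, Matrix.det_mul]
  exact (dvd_mul_left _ _).mul_right _

theorem dualz_gk {Γ : Matrix (Fin 16) (Fin 16) ℤ} {K : Matrix (Fin 16) (Fin 4) ℤ}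
    {J : Matrix (Fin 16) (Fin 4 ⊕ Fin 4) ℤ} {H : Matrix (Fin 4 ⊕ Fin 4) (Fin 4 ⊕ Fin 4) ℤ}
    {G : Matrix (Fin 4) (Fin 4) ℤ} (h1 : Γ = J * H * Jᵀ) (h2 : Jᵀ * K = Matrix.fromRows 0 G) :
    Γ * K = (J * H).toCols₂ * G := by
  rw [h1, Matrix.mul_assoc, h2]
  conv_lhs => rw [← Matrix.fromCols_toCols (J * H)]
  rw [Matrix.fromCols_mul_fromRows, Matrix.mul_zero, zero_add]

theorem exists_basis8 {Γ Ψ : Matrix (Fin 16) (Fin 16) ℤ} (h : Γ * Ψ * Γ = Γ)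
    (ht : (Γ * Ψ).trace = 8) :
    ∃ (J : Matrix (Fin 16) (Fin 4 ⊕ Fin 4) ℤ) (Lf : Matrix (Fin 4 ⊕ Fin 4) (Fin 16) ℤ),
      J * Lf = Γ * Ψ ∧ Lf * J = 1 := by
  have h1 : Γ * Ψ * (Γ * Ψ) = Γ * Ψ := by rw [← Matrix.mul_assoc, h]
  obtain ⟨r, J, Lf, h2, h3⟩ := dualz_idem h1
  have h4 : (r : ℤ) = 8 := by
    rw [← ht, ← h2, Matrix.trace_mul_comm, h3, Matrix.trace_one, Fintype.card_fin]
  have h5 : r = 4 + 4 := by exact_mod_cast h4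
  subst h5
  refine ⟨J.submatrix id finSumFinEquiv, Lf.submatrix finSumFinEquiv id, ?_, ?_⟩
  · rw [Matrix.submatrix_mul_equiv, h2, Matrix.submatrix_id_id]
  · rw [← Matrix.submatrix_mul _ _ _ id _ Function.bijective_id, h3, Matrix.submatrix_one_equiv]

theorem dualZ {Γ Ψ : Matrix (Fin 16) (Fin 16) ℤ} (hΓ : Γ.IsSymm) (hΨ : Ψ.IsSymm)
    (h : Γ * Ψ * Γ = Γ) (ht : (Γ * Ψ).trace = 8) {K : Matrix (Fin 16) (Fin 4) ℤ}
    (hK : Rk 4 (Γ * K)) : ∃ J Lf H G, DZ Γ Ψ K J Lf H G := by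
  obtain ⟨J0, L0, h1, h2⟩ := exists_basis8 h ht
  obtain ⟨W, W', h3, h4⟩ := adapt 4 4 (Kᵀ * J0)
  have h5 : W' * W = 1 := mul_eq_one_comm.1 h3
  obtain ⟨J, hJ⟩ : ∃ J, J = J0 * W := ⟨_, rfl⟩
  obtain ⟨Lf, hL⟩ : ∃ Lf, Lf = W' * L0 := ⟨_, rfl⟩
  have a1 : J * Lf = Γ * Ψ := by
    rw [hJ, hL, Matrix.mul_assoc, ← Matrix.mul_assoc W, h3, Matrix.one_mul, h1]
  have a2 : Lf * J = 1 := by
    rw [hJ, hL, Matrix.mul_assoc, ← Matrix.mul_assoc L0, h2, Matrix.one_mul, h5]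
  have a3 : Γ * Ψ * J = J := by rw [← a1, Matrix.mul_assoc, a2, Matrix.mul_one]
  have a4 : Lfᵀ * Jᵀ = Ψ * Γ := by
    rw [← Matrix.transpose_mul, a1, Matrix.transpose_mul, hΓ.eq, hΨ.eq]
  have a5 : J * Lf * Γ = Γ := by rw [a1, h]
  have a6 : Γ = J * (Lf * Γ * Lfᵀ) * Jᵀ := by
    calc Γ = Γ * (Ψ * Γ) := by rw [← Matrix.mul_assoc, h]
      _ = J * Lf * Γ * (Lfᵀ * Jᵀ) := by rw [a5, a4]
      _ = _ := by simp only [Matrix.mul_assoc]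
  have a7 : Jᵀ * Ψ * J * (Lf * Γ * Lfᵀ) = 1 := by
    calc Jᵀ * Ψ * J * (Lf * Γ * Lfᵀ) = Jᵀ * (Ψ * (J * Lf * Γ)) * Lfᵀ := by
          simp only [Matrix.mul_assoc]
      _ = Jᵀ * (Lfᵀ * Jᵀ) * Lfᵀ := by rw [a5, a4]
      _ = (Lf * J)ᵀ * (Lf * J)ᵀ := by simp only [Matrix.transpose_mul, Matrix.mul_assoc]
      _ = 1 := by rw [a2, Matrix.transpose_one, Matrix.mul_one]
  have a8 : Jᵀ * K = Matrix.fromRows 0 (Jᵀ * K).toRows₂ := by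
    have b1 : (Jᵀ * K).toRows₁ = 0 := by
      have b2 : Jᵀ * K = (Kᵀ * J0 * W)ᵀ := by
        rw [hJ, Matrix.mul_assoc, Matrix.transpose_mul Kᵀ, Matrix.transpose_transpose]
      rw [b2]
      ext i j
      exact congrFun (congrFun h4 j) i
    rw [← b1, Matrix.fromRows_toRows]
  have a9 : (Jᵀ * K).toRows₂.det ≠ 0 := by
    rw [dualz_gk a6 a8] at hK
    obtain ⟨f, g, hfg⟩ := hK.of_mul_left
    intro h0
    have b1 := dualz_dvd_self (Jᵀ * K).toRows₂ f g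
    rw [h0, zero_dvd_iff] at b1
    exact hfg b1
  refine ⟨J, Lf, Lf * Γ * Lfᵀ, (Jᵀ * K).toRows₂, hΓ, hΨ, a3, a2, a7, a6, a8, a9,
    fun x hx hk => ⟨(Lf *ᵥ x) ∘ Sum.inl, ?_⟩⟩
  have b1 : J *ᵥ (Lf *ᵥ x) = x := by rw [Matrix.mulVec_mulVec, a1, hx]
  have b2 : (Jᵀ * K)ᵀ *ᵥ (Lf *ᵥ x) = 0 := by
    rw [Matrix.transpose_mul, Matrix.transpose_transpose, ← Matrix.mulVec_mulVec, b1, hk]
  rw [a8, Matrix.transpose_fromRows, Matrix.fromCols_mulVec, Matrix.transpose_zero,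
    Matrix.zero_mulVec, zero_add] at b2
  have b3 := Matrix.eq_zero_of_mulVec_eq_zero (by rwa [Matrix.det_transpose]) b2
  conv_lhs => rw [← b1, ← Matrix.fromCols_toCols J]
  rw [Matrix.fromCols_mulVec, b3, Matrix.mulVec_zero, add_zero]

variable {Γ Ψ : Matrix (Fin 16) (Fin 16) ℤ} {K : Matrix (Fin 16) (Fin 4) ℤ}
  {J : Matrix (Fin 16) (Fin 4 ⊕ Fin 4) ℤ} {Lf : Matrix (Fin 4 ⊕ Fin 4) (Fin 16) ℤ}
  {H : Matrix (Fin 4 ⊕ Fin 4) (Fin 4 ⊕ Fin 4) ℤ} {G : Matrix (Fin 4) (Fin 4) ℤ}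

theorem DZ.form (h : DZ Γ Ψ K J Lf H G) : Kᵀ * (Γ * K) = Gᵀ * H.toBlocks₂₂ * G := by
  have h1 : Kᵀ * (Γ * K) = (Jᵀ * K)ᵀ * H * (Jᵀ * K) := by
    conv_lhs => rw [h.gam_eq]
    simp only [Matrix.transpose_mul, Matrix.transpose_transpose, Matrix.mul_assoc]
  rw [h1, h.kj, Matrix.transpose_fromRows, Matrix.transpose_zero]
  conv_lhs => rw [← Matrix.fromBlocks_toBlocks H]
  rw [Matrix.fromCols_mul_fromBlocks, Matrix.fromCols_mul_fromRows, Matrix.mul_zero,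
    Matrix.zero_mul, zero_add, zero_add]

theorem DZ.dvd4 (h : DZ Γ Ψ K J Lf H G) : DvdM 4 (Γ * K) G.det := by
  rw [dualz_gk h.gam_eq h.kj]
  exact (dualz_dvd_self G).mul_left _

theorem DZ.dvdM (h : DZ Γ Ψ K J Lf H G) {k : ℕ} (hk : k ≤ 4) {d : ℤ}
    (hd : DvdM k (J.toCols₁ᵀ * Ψ * J.toCols₁) d) : DvdM k (Kᵀ * (Γ * K)) d := by
  rw [h.form]
  exact ((jacD (Jᵀ * Ψ * J) H h.inv hk hd).mul_left _).mul_right _

theorem DZ.det_le (h : DZ Γ Ψ K J Lf H G) :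
    |(J.toCols₁ᵀ * Ψ * J.toCols₁).det| ≤ |(Kᵀ * (Γ * K)).det| := by
  have h1 : (Jᵀ * Ψ * J).det * H.toBlocks₂₂.det = (J.toCols₁ᵀ * Ψ * J.toCols₁).det :=
    jac_det (Jᵀ * Ψ * J) H h.inv
  have h2 : (Jᵀ * Ψ * J).det * H.det = 1 := by rw [← Matrix.det_mul, h.inv, Matrix.det_one]
  have h3 : |(Jᵀ * Ψ * J).det| = 1 := Int.isUnit_iff_abs_eq.1 (IsUnit.of_mul_eq_one _ h2)
  have h4 : 1 ≤ |G.det| := Int.one_le_abs h.detG
  have h5 := abs_nonneg H.toBlocks₂₂.det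
  rw [← h1, h.form, Matrix.det_mul, Matrix.det_mul, Matrix.det_transpose, abs_mul, abs_mul,
    abs_mul, h3, one_mul]
  calc |H.toBlocks₂₂.det| = 1 * |H.toBlocks₂₂.det| * 1 := by ring
    _ ≤ _ := by gcongr

theorem DZ.linv1 (h : DZ Γ Ψ K J Lf H G) : Lf.toRows₁ * J.toCols₁ = 1 := by
  ext i j
  have h1 := congrFun (congrFun h.linv (Sum.inl i)) (Sum.inl j)
  have h2 : (1 : Matrix (Fin 4 ⊕ Fin 4) (Fin 4 ⊕ Fin 4) ℤ) (Sum.inl i) (Sum.inl j) =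
      (1 : Matrix (Fin 4) (Fin 4) ℤ) i j := by
    simp only [Matrix.one_apply, Sum.inl.injEq]
  exact h1.trans h2

theorem DZ.mem1 (h : DZ Γ Ψ K J Lf H G) : Γ * Ψ * J.toCols₁ = J.toCols₁ := by
  ext i j
  exact congrFun (congrFun h.mem i) (Sum.inl j)

end Pool.Agent.Lib.MP_af4c59_nt.H57
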