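import Pool.Agent.Lib.MP_af4c59_nt.H57TwoStep
import Pool.Agent.Lib.MP_af4c59_nt.H57DualZ

/-!
Comparison of covolumes.
-/

set_option autoImplicit false

namespace Pool.Agent.Lib.MP_af4c59_nt.H57

open Matrix

theorem dualr_bdM_det {n : ℕ} (M : Matrix (Fin n) (Fin n) ℝ) : BdM n M |M.det| := by
  intro f g
  by_cases hf : Function.Injective f
  · by_cases hg : Function.Injective g
    · have hf' := Finite.injective_iff_bijective.1 hf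
      have hg' := Finite.injective_iff_bijective.1 hg
      exact (Matrix.abs_det_submatrix_equiv_equiv (Equiv.ofBijective f hf')
        (Equiv.ofBijective g hg') M).le
    · simp only [Function.Injective, not_forall] at hg
      obtain ⟨i, j, hij, hne⟩ := hg
      rw [Matrix.det_zero_of_column_eq hne (fun k => by simp [hij])]
      simp
  · simp only [Function.Injective, not_forall] at hf
    obtain ⟨i, j, hij, hne⟩ := hf
    rw [Matrix.det_zero_of_row_eq hne (funext fun k => by simp [hij])]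
    simp

theorem dualr_bdM_mono {m n : Type} {k : ℕ} {M : Matrix m n ℝ} {a b : ℝ} (h : BdM k M a)
    (hab : a ≤ b) : BdM k M b := fun f g => (h f g).trans hab

theorem dualr_ent_mono {m n : Type} {M : Matrix m n ℝ} {a b : ℝ} (h : Ent M a)
    (hab : a ≤ b) : Ent M b := fun f g => (h f g).trans hab

theorem dualr_cols1 {l m : Type} [Fintype m] (A : Matrix l m ℝ)
    (B : Matrix m (Fin 4 ⊕ Fin 4) ℝ) : (A * B).toCols₁ = A * B.toCols₁ := by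
  ext i j; simp [Matrix.mul_apply]

theorem dualr_cols1_blocks {l : Type} (A : Matrix l (Fin 4 ⊕ Fin 4) ℝ)
    (P Q P₁ : Matrix (Fin 4) (Fin 4) ℝ) :
    (A * Matrix.fromBlocks P Q 0 P₁).toCols₁ = A.toCols₁ * P := by
  ext i j; simp [Matrix.mul_apply, Fintype.sum_sum_type]

theorem dualr_mul_rows {l : Type} (A : Matrix l (Fin 4 ⊕ Fin 4) ℝ)
    (Θ : Matrix (Fin 4) (Fin 4) ℝ) :
    A * Matrix.fromRows (0 : Matrix (Fin 4) (Fin 4) ℝ) Θ = A.toCols₂ * Θ := by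
  ext i j; simp [Matrix.mul_apply, Fintype.sum_sum_type]

theorem dualr_rows_mul (A : Matrix (Fin 4 ⊕ Fin 4) (Fin 4 ⊕ Fin 4) ℝ)
    (Θ : Matrix (Fin 4) (Fin 4) ℝ) :
    (Matrix.fromRows (0 : Matrix (Fin 4) (Fin 4) ℝ) Θ)ᵀ * A.toCols₂ = Θᵀ * A.toBlocks₂₂ := by
  ext i j; simp [Matrix.mul_apply, Fintype.sum_sum_type, Matrix.toBlocks₂₂]

theorem dualr_gram11 (W : Matrix (Fin 16) (Fin 4 ⊕ Fin 4) ℝ) (Ψ : Matrix (Fin 16) (Fin 16) ℝ) :
    (Wᵀ * Ψ * W).toBlocks₁₁ = W.toCols₁ᵀ * Ψ * W.toCols₁ := by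
  ext i j; simp [Matrix.mul_apply, Matrix.toBlocks₁₁]

theorem dualr_gram_apply {l : Type} (W : Matrix (Fin 16) l ℝ) (Ψ : Matrix (Fin 16) (Fin 16) ℝ)
    (a b : l) : (Wᵀ * Ψ * W) a b = bf Ψ (fun i => W i a) (fun i => W i b) := by
  rw [Matrix.mul_assoc]
  simp [Matrix.mul_apply, bf, dotProduct, Matrix.mulVec]

theorem dualr_theta {P Q P₁ G : Matrix (Fin 4) (Fin 4) ℝ} (hP : P.det ≠ 0)
    {M : Matrix (Fin 4 ⊕ Fin 4) (Fin 4) ℝ}
    (h : (Matrix.fromBlocks P Q 0 P₁)ᵀ * M = Matrix.fromRows 0 G) :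
    M = Matrix.fromRows 0 M.toRows₂ ∧ P₁ᵀ * M.toRows₂ = G := by
  rw [← Matrix.fromRows_toRows M, Matrix.fromBlocks_transpose, Matrix.fromBlocks_mul_fromRows,
    Matrix.fromRows_ext_iff] at h
  obtain ⟨h1, h2⟩ := h
  simp only [Matrix.transpose_zero, Matrix.zero_mul, add_zero] at h1
  have hu : IsUnit Pᵀ.det := by rw [Matrix.det_transpose]; exact hP.isUnit
  have h0 : M.toRows₁ = 0 := by
    rw [← Matrix.one_mul M.toRows₁, ← Matrix.nonsing_inv_mul _ hu, Matrix.mul_assoc, h1,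
      Matrix.mul_zero]
  rw [h0, Matrix.mul_zero, zero_add] at h2
  refine ⟨?_, h2⟩
  rw [← h0, Matrix.fromRows_toRows]

theorem dualr_sq {x y : ℝ} (hy : 0 ≤ y) (h : x ^ 2 ≤ 40320 * y ^ 2) : |x| ≤ 201 * y := by
  apply abs_le_of_sq_le_sq _ (by positivity)
  nlinarith [sq_nonneg y]

theorem dualr_core (c₀ : ℝ) (hc₀ : 1 ≤ c₀) (T : ℝ) (hT : 0 < T)
    (Z : Matrix (Fin 16) (Fin 4 ⊕ Fin 4) ℝ) (Lz : Matrix (Fin 4 ⊕ Fin 4) (Fin 16) ℝ)
    (P Q P₁ G : Matrix (Fin 4) (Fin 4) ℝ)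
    (G' H' : Matrix (Fin 4 ⊕ Fin 4) (Fin 4 ⊕ Fin 4) ℝ) (Γ' : Matrix (Fin 16) (Fin 16) ℝ)
    (K' : Matrix (Fin 16) (Fin 4) ℝ) (g : ℝ) (hP : P.det ≠ 0) (hZ : Ent Z 1) (hLz : Ent Lz 2)
    (hLZ : Lz * Z = 1) (hGH : G' * H' = 1) (hdet : |H'.det| = (P.det * P₁.det) ^ 2)
    (hΓ : Γ' = Z * H' * Zᵀ) (hG' : Ent G' (c₀ / T)) (hΓ' : Ent Γ' (c₀ * T)) (hK' : Ent K' c₀)
    (hK : (Matrix.fromBlocks P Q 0 P₁)ᵀ * (Zᵀ * K') = Matrix.fromRows 0 G)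
    (hg : |G.det| = g) (hg1 : 1 ≤ g) :
    |P.det| ≤ (201 * (1024 * c₀) ^ 4 * (24 * (16 * c₀) ^ 4)) * T ^ 4 ∧
      BdM 4 (Γ' * K') (((32768 * c₀) ^ 4 * (201 * c₀ ^ 4)) * g * |P.det|) ∧
      ∀ μ : ℝ, BdM 2 G'.toBlocks₁₁ μ → BdM 2 (K'ᵀ * (Γ' * K'))
        (((64 * c₀) ^ 4 * (720 * c₀ ^ 4 * (40320 * (1024 * c₀) ^ 8))) * T ^ 4 * μ) := by
  have hc : 0 < c₀ := by linarith
  have hH'eq : H' = Lz * Γ' * Lzᵀ := by
    rw [hΓ]
    calc H' = (Lz * Z) * H' * (Lz * Z)ᵀ := by rw [hLZ]; simp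
      _ = _ := by rw [Matrix.transpose_mul]; simp only [Matrix.mul_assoc]
  have hH' : Ent H' (1024 * c₀ * T) := by
    rw [hH'eq]
    have h1 := Ent.mul (by norm_num) hLz hΓ'
    have h2 := Ent.mul (by positivity) h1 hLz.transpose
    refine dualr_ent_mono h2 (le_of_eq ?_)
    simp only [Fintype.card_fin]; push_cast; ring
  have hdH : |H'.det| ≤ 40320 * (1024 * c₀ * T) ^ 8 := by
    have := hH'.det_le
    simpa [Nat.factorial] using this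
  have hdG : |G'.det| ≤ 40320 * (c₀ / T) ^ 8 := by
    have := hG'.det_le
    simpa [Nat.factorial] using this
  have hdGH : |G'.det| * |H'.det| = 1 := by
    rw [← abs_mul, ← Matrix.det_mul, hGH]; simp
  have hY1 : |P.det * P₁.det| ≤ 201 * (1024 * c₀ * T) ^ 4 := by
    apply dualr_sq (by positivity)
    rw [← hdet, ← pow_mul]; exact hdH
  have hY2 : T ^ 4 ≤ 201 * (c₀ ^ 4 * |P.det * P₁.det|) := by
    have h1 : (T ^ 4) ^ 2 ≤ 40320 * (c₀ ^ 4 * |P.det * P₁.det|) ^ 2 := by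
      have h2 : 1 ≤ 40320 * (c₀ / T) ^ 8 * (P.det * P₁.det) ^ 2 := by
        rw [← hdet, ← hdGH]
        exact mul_le_mul_of_nonneg_right hdG (abs_nonneg _)
      have h3 : (T ^ 4) ^ 2 * (40320 * (c₀ / T) ^ 8 * (P.det * P₁.det) ^ 2) =
          40320 * (c₀ ^ 4 * |P.det * P₁.det|) ^ 2 := by
        rw [mul_pow (c₀ ^ 4), sq_abs]; field_simp
      rw [← h3]
      exact le_mul_of_one_le_right (by positivity) h2
    exact (le_abs_self _).trans (dualr_sq (by positivity) h1)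
  obtain ⟨hM, hΘ⟩ := dualr_theta hP hK
  obtain ⟨Θ, hΘd⟩ : ∃ Θ, Θ = (Zᵀ * K').toRows₂ := ⟨_, rfl⟩
  rw [← hΘd] at hM hΘ
  have hEΘ : Ent Θ (16 * c₀) := by
    have h1 := Ent.mul (by norm_num) hZ.transpose hK'
    intro i j
    rw [hΘd]
    have := h1 (Sum.inr i) j
    simpa using this
  have hdΘ : |Θ.det| ≤ 24 * (16 * c₀) ^ 4 := by
    have := hEΘ.det_le
    simpa [Nat.factorial] using this
  have hgΘ : |P₁.det| * |Θ.det| = g := by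
    rw [← hg, ← hΘ, Matrix.det_mul, Matrix.det_transpose, abs_mul]
  have hΓK : Γ' * K' = Z * H'.toCols₂ * Θ := by
    rw [hΓ, Matrix.mul_assoc, hM, dualr_mul_rows]
    congr 1
  refine ⟨?_, ?_, ?_⟩
  · calc |P.det| ≤ |P.det| * g := le_mul_of_one_le_right (abs_nonneg _) hg1
      _ = |P.det * P₁.det| * |Θ.det| := by rw [← hgΘ, abs_mul, mul_assoc]
      _ ≤ (201 * (1024 * c₀ * T) ^ 4) * (24 * (16 * c₀) ^ 4) := by gcongr
      _ = _ := by ring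
  · rw [hΓK]
    have h1 : Ent H'.toCols₂ (1024 * c₀ * T) := fun i j => hH' i (Sum.inr j)
    have h2 := Ent.mul (by norm_num) hZ h1
    have h3 := (dualr_bdM_det Θ).mul_left (by positivity) (abs_nonneg _) h2
    refine dualr_bdM_mono h3 ?_
    simp only [Fintype.card_fin, Fintype.card_sum]
    push_cast
    calc (4 * (8 * 1 * (1024 * c₀ * T))) ^ 4 * |Θ.det|
        = (32768 * c₀) ^ 4 * T ^ 4 * |Θ.det| := by ring
      _ ≤ (32768 * c₀) ^ 4 * (201 * (c₀ ^ 4 * |P.det * P₁.det|)) * |Θ.det| := by gcongr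
      _ = _ := by rw [← hgΘ, abs_mul]; ring
  · intro μ hμ
    have hμ0 : 0 ≤ μ := (abs_nonneg _).trans (hμ (fun _ => 0) (fun _ => 0))
    have h1 : K'ᵀ * (Γ' * K') = Θᵀ * H'.toBlocks₂₂ * Θ := by
      rw [hΓK, ← dualr_rows_mul, ← hM, Matrix.transpose_mul, Matrix.transpose_transpose]
      simp only [Matrix.mul_assoc]
    rw [h1]
    have h2 := jacR G' H' hGH (by positivity) hG' hμ
    have h3 := h2.mul_left (by positivity) (by positivity) hEΘ.transpose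
    have h4 := h3.mul_right (by positivity) (by positivity) hEΘ
    refine dualr_bdM_mono h4 ?_
    simp only [Fintype.card_fin]
    push_cast
    calc (4 * (16 * c₀)) ^ 2 * ((4 * (16 * c₀)) ^ 2 * (720 * (c₀ / T) ^ 4 * μ * |H'.det|))
        ≤ (4 * (16 * c₀)) ^ 2 * ((4 * (16 * c₀)) ^ 2 *
          (720 * (c₀ / T) ^ 4 * μ * (40320 * (1024 * c₀ * T) ^ 8))) := by gcongr
      _ = _ := by field_simp; ring

theorem dualR (c₀ : ℝ) (hc₀ : 1 ≤ c₀) : ∃ c : ℝ, 1 ≤ c ∧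
    ∀ (Γ Ψ : Matrix (Fin 16) (Fin 16) ℤ) (K : Matrix (Fin 16) (Fin 4) ℤ)
      (J : Matrix (Fin 16) (Fin 4 ⊕ Fin 4) ℤ) (Lf : Matrix (Fin 4 ⊕ Fin 4) (Fin 16) ℤ)
      (H : Matrix (Fin 4 ⊕ Fin 4) (Fin 4 ⊕ Fin 4) ℤ) (G : Matrix (Fin 4) (Fin 4) ℤ)
      (d : Fin 16 → ℝ) (e : Fin 4 → ℝ) (T : ℝ) (Γ' : Matrix (Fin 16) (Fin 16) ℝ)
      (K' : Matrix (Fin 16) (Fin 4) ℝ), DZ Γ Ψ K J Lf H G → (∀ i, d i ≠ 0) → ∏ j, e j = 1 →
      0 < T → Γ' = Matrix.diagonal d * mc ℝ Γ * Matrix.diagonal d →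
      Matrix.diagonal d * K' = mc ℝ K * Matrix.diagonal e → Ent Γ' (c₀ * T) → Ent K' c₀ →
      (∀ x y : Fin 16 → ℝ, mc ℝ (Γ * Ψ) *ᵥ x = x → mc ℝ (Γ * Ψ) *ᵥ y = y →
        T * |bf (mc ℝ Ψ) x y| ≤ c₀ * ‖Matrix.diagonal d *ᵥ x‖ * ‖Matrix.diagonal d *ᵥ y‖) →
      ∃ (f : Fin 4 → Fin 16) (R : Matrix (Fin 16) (Fin 4) ℝ) (P A' : Matrix (Fin 4) (Fin 4) ℝ),
        P = (Matrix.diagonal d * mc ℝ J.toCols₁).submatrix f id ∧ P.det ≠ 0 ∧ Ent R 1 ∧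
        Matrix.diagonal d * mc ℝ J.toCols₁ = R * P ∧ A'.IsSymm ∧
        mc ℝ (J.toCols₁ᵀ * Ψ * J.toCols₁) = Pᵀ * A' * P ∧ Ent A' (c / T) ∧
        |P.det| ≤ c * T ^ 4 ∧ BdM 4 (Γ' * K') (c * |((G.det : ℤ) : ℝ)| * |P.det|) ∧
        ∀ μ : ℝ, BdM 2 A' μ → BdM 2 (K'ᵀ * (Γ' * K')) (c * T ^ 4 * μ) := by
  have hc : 0 < c₀ := by linarith
  obtain ⟨a₁, ha₁⟩ : ∃ a, a = 201 * (1024 * c₀) ^ 4 * (24 * (16 * c₀) ^ 4) := ⟨_, rfl⟩
  obtain ⟨a₂, ha₂⟩ : ∃ a, a = (32768 * c₀) ^ 4 * (201 * c₀ ^ 4) := ⟨_, rfl⟩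
  obtain ⟨a₃, ha₃⟩ : ∃ a, a = (64 * c₀) ^ 4 * (720 * c₀ ^ 4 * (40320 * (1024 * c₀) ^ 8)) :=
    ⟨_, rfl⟩
  have p₁ : 0 ≤ a₁ := by rw [ha₁]; positivity
  have p₂ : 0 ≤ a₂ := by rw [ha₂]; positivity
  have p₃ : 0 ≤ a₃ := by rw [ha₃]; positivity
  refine ⟨c₀ + a₁ + a₂ + a₃, by linarith, ?_⟩
  intro Γ Ψ K J Lf H G d e T Γ' K' hD hd he hT hΓ' hK' hEΓ hEK hb
  have hmem : mc ℝ (Γ * Ψ) * mc ℝ J = mc ℝ J := by rw [← mc_mul, hD.mem]
  have hlinv : mc ℝ Lf * mc ℝ J = 1 := by rw [← mc_mul, hD.linv, mc_one]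
  have hinv : (mc ℝ J)ᵀ * mc ℝ Ψ * mc ℝ J * mc ℝ H = 1 := by
    rw [← mc_transpose, ← mc_mul, ← mc_mul, ← mc_mul, hD.inv, mc_one]
  have hgam : mc ℝ Γ = mc ℝ J * mc ℝ H * (mc ℝ J)ᵀ := by
    rw [← mc_transpose, ← mc_mul, ← mc_mul, ← hD.gam_eq]
  have hkj : (mc ℝ J)ᵀ * mc ℝ K = Matrix.fromRows 0 (mc ℝ G) := by
    rw [← mc_transpose, ← mc_mul, hD.kj]
    ext (i | i) j <;> simp [mc]
  have hΨ : (mc ℝ Ψ)ᵀ = mc ℝ Ψ := by rw [← mc_transpose, hD.sΨ.eq]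
  have hdH : |(mc ℝ H).det| = 1 := by
    have h1 : (Jᵀ * Ψ * J).det * H.det = 1 := by rw [← Matrix.det_mul, hD.inv, Matrix.det_one]
    rw [mc_det]
    rcases Int.eq_one_or_neg_one_of_mul_eq_one' h1 with h | h <;> simp [h.2]
  have hg1 : 1 ≤ |((G.det : ℤ) : ℝ)| := by
    have := Int.one_le_abs hD.detG
    exact_mod_cast this
  have hJ1 : mc ℝ J.toCols₁ = (mc ℝ J).toCols₁ := rfl
  have hA : mc ℝ (J.toCols₁ᵀ * Ψ * J.toCols₁) =
      (mc ℝ J).toCols₁ᵀ * mc ℝ Ψ * (mc ℝ J).toCols₁ := by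
    rw [mc_mul, mc_mul, mc_transpose, hJ1]
  have hdG : (mc ℝ G).det = ((G.det : ℤ) : ℝ) := mc_det G
  rw [hJ1, hA]
  generalize mc ℝ (Γ * Ψ) = Pr at hmem hb
  generalize mc ℝ J = Jr at *
  generalize mc ℝ Lf = Lr at *
  generalize mc ℝ Ψ = Ψr at *
  generalize mc ℝ H = Hr at *
  generalize mc ℝ Γ = Γr at *
  generalize mc ℝ K = Kr at *
  generalize mc ℝ G = Gr at *
  have hDD : Matrix.diagonal (fun i => (d i)⁻¹) * Matrix.diagonal d = 1 := by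
    rw [Matrix.diagonal_mul_diagonal, ← Matrix.diagonal_one]
    congr 1
    funext i
    exact inv_mul_cancel₀ (hd i)
  have hl2 : Lr * Matrix.diagonal (fun i => (d i)⁻¹) * (Matrix.diagonal d * Jr) = 1 := by
    rw [Matrix.mul_assoc, ← Matrix.mul_assoc _ _ Jr, hDD, Matrix.one_mul, hlinv]
  obtain ⟨f, Z, Lz, Q, P₁, hP, hP₁, hZ, hLz, hLZ, hJ⟩ := two_step _ _ hl2
  rw [dualr_cols1] at hP hJ
  obtain ⟨P, hPd⟩ : ∃ P, P = (Matrix.diagonal d * Jr.toCols₁).submatrix f id := ⟨_, rfl⟩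
  rw [← hPd] at hP hJ
  obtain ⟨Y, hY⟩ : ∃ Y, Y = Matrix.fromBlocks P Q 0 P₁ := ⟨_, rfl⟩
  have hdY : Y.det = P.det * P₁.det := by rw [hY, Matrix.det_fromBlocks_zero₂₁]
  have hu : IsUnit Y.det := by rw [hdY]; exact (mul_ne_zero hP hP₁).isUnit
  have hR : Matrix.diagonal d * Jr.toCols₁ = Z.toCols₁ * P := by
    rw [← dualr_cols1, hJ, dualr_cols1_blocks]
  rw [← hY] at hJ
  obtain ⟨W, hW⟩ : ∃ W, W = Jr * Y⁻¹ := ⟨_, rfl⟩
  have hWY : W * Y = Jr := by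
    rw [hW, Matrix.mul_assoc, Matrix.nonsing_inv_mul _ hu, Matrix.mul_one]
  have hDW : Matrix.diagonal d * W = Z := by
    rw [hW, ← Matrix.mul_assoc, hJ, Matrix.mul_assoc, Matrix.mul_nonsing_inv _ hu, Matrix.mul_one]
  have hPW : Pr * W = W := by rw [hW, ← Matrix.mul_assoc, hmem]
  have hW1 : Jr.toCols₁ = W.toCols₁ * P := by rw [← hWY, hY, dualr_cols1_blocks]
  have hG' : Ent (Wᵀ * Ψr * W) (c₀ / T) := by
    intro a b
    have hfix : ∀ a, Pr *ᵥ (fun i => W i a) = fun i => W i a := fun a => by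
      funext i
      have := congrFun (congrFun hPW i) a
      simpa [Matrix.mul_apply, Matrix.mulVec, dotProduct] using this
    have hn : ∀ a, ‖Matrix.diagonal d *ᵥ (fun i => W i a)‖ ≤ 1 := fun a => by
      refine (pi_norm_le_iff_of_nonneg zero_le_one).2 fun i => ?_
      have h1 := hZ i a
      rw [← hDW] at h1
      simpa [Matrix.mulVec_diagonal, Matrix.diagonal_mul] using h1
    have h1 := hb _ _ (hfix a) (hfix b)
    rw [dualr_gram_apply, le_div_iff₀ hT, mul_comm]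
    refine h1.trans ?_
    calc c₀ * ‖Matrix.diagonal d *ᵥ (fun i => W i a)‖ * ‖Matrix.diagonal d *ᵥ (fun i => W i b)‖
        ≤ c₀ * 1 * 1 := by gcongr <;> exact hn _
      _ = c₀ := by ring
  have hGH : Wᵀ * Ψr * W * (Y * Hr * Yᵀ) = 1 := by
    calc Wᵀ * Ψr * W * (Y * Hr * Yᵀ) = Wᵀ * Ψr * (W * Y) * Hr * Yᵀ := by
          simp only [Matrix.mul_assoc]
      _ = Y⁻¹ᵀ * (Jrᵀ * Ψr * Jr * Hr) * Yᵀ := by
          rw [hWY]
          nth_rewrite 1 [hW]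
          rw [Matrix.transpose_mul]
          simp only [Matrix.mul_assoc]
      _ = 1 := by
          rw [hinv, Matrix.mul_one, ← Matrix.transpose_mul, Matrix.mul_nonsing_inv _ hu,
            Matrix.transpose_one]
  have hdet : |(Y * Hr * Yᵀ).det| = (P.det * P₁.det) ^ 2 := by
    rw [Matrix.det_mul, Matrix.det_mul, Matrix.det_transpose, abs_mul, abs_mul, hdH, mul_one,
      ← sq, sq_abs, hdY]
  have hΓ2 : Γ' = Z * (Y * Hr * Yᵀ) * Zᵀ := by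
    calc Γ' = (Matrix.diagonal d * Jr) * Hr * (Matrix.diagonal d * Jr)ᵀ := by
          rw [hΓ', hgam, Matrix.transpose_mul, Matrix.diagonal_transpose]
          simp only [Matrix.mul_assoc]
      _ = _ := by
          rw [hJ, Matrix.transpose_mul]
          simp only [Matrix.mul_assoc]
  have hK2 : (Matrix.fromBlocks P Q 0 P₁)ᵀ * (Zᵀ * K') =
      Matrix.fromRows 0 (Gr * Matrix.diagonal e) := by
    rw [← hY, ← Matrix.mul_assoc, ← Matrix.transpose_mul, ← hJ, Matrix.transpose_mul,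
      Matrix.diagonal_transpose, Matrix.mul_assoc, hK', ← Matrix.mul_assoc, hkj,
      Matrix.fromRows_mul, Matrix.zero_mul]
  have hg : |(Gr * Matrix.diagonal e).det| = |((G.det : ℤ) : ℝ)| := by
    rw [Matrix.det_mul, Matrix.det_diagonal, he, mul_one, hdG]
  obtain ⟨r₁, r₂, r₃⟩ := dualr_core c₀ hc₀ T hT Z Lz P Q P₁ _ _ _ Γ' K' _ hP hZ hLz hLZ hGH hdet
    hΓ2 hG' hEΓ hEK hK2 hg hg1
  rw [← ha₁] at r₁
  rw [← ha₂] at r₂
  rw [← ha₃] at r₃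
  refine ⟨f, Z.toCols₁, P, (Wᵀ * Ψr * W).toBlocks₁₁, hPd, hP, fun i j => hZ i (Sum.inl j), hR,
    ?_, ?_, ?_, ?_, ?_, ?_⟩
  · rw [dualr_gram11]
    unfold Matrix.IsSymm
    rw [Matrix.transpose_mul, Matrix.transpose_mul, Matrix.transpose_transpose, hΨ,
      Matrix.mul_assoc]
  · rw [dualr_gram11, hW1, Matrix.transpose_mul]
    simp only [Matrix.mul_assoc]
  · intro i j
    refine (hG' (Sum.inl i) (Sum.inl j)).trans ?_
    gcongr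
    linarith
  · refine r₁.trans ?_
    gcongr
    linarith
  · refine dualr_bdM_mono r₂ ?_
    gcongr
    linarith
  · intro μ hμ
    have hμ0 : 0 ≤ μ := (abs_nonneg _).trans (hμ (fun _ => 0) (fun _ => 0))
    refine dualr_bdM_mono (r₃ μ hμ) ?_
    gcongr
    linarith

end Pool.Agent.Lib.MP_af4c59_nt.H57
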