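import Pool.Agent.Lib.MP_af4c59_nt.H57Four0

/-!
Fourier analysis on the pentagon.
-/

set_option autoImplicit false

namespace Pool.Agent.Lib.MP_af4c59_nt.H57

open Matrix

theorem det_ft (M : Fin 5 → Fin 5 → ℂ) :
    ‖(Matrix.of fun k j => ft (M k) j).det‖ ^ 2 = 5 ^ 5 * ‖(Matrix.of M).det‖ ^ 2 := by
  let F : Matrix (Fin 5) (Fin 5) ℂ := Matrix.of fun k j => ft (Pi.single k 1) j
  have hF : ∀ k j, F k j = z5 ^ (k.val * j.val) := by
    intro k j
    simp [F, ft, Pi.single_apply]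
  have h1 : (Matrix.of fun k j => ft (M k) j) = Matrix.of M * F := by
    ext k j
    simp only [Matrix.mul_apply, Matrix.of_apply, hF, ft, mul_comm]
  have h2 : F * Fᴴ = (5 : ℂ) • (1 : Matrix (Fin 5) (Fin 5) ℂ) := by
    ext k l
    have h3 := ft_conj (Pi.single k 1) (Pi.single l 1)
    simp only [Matrix.mul_apply, Matrix.conjTranspose_apply, Matrix.smul_apply, F, Matrix.of_apply,
      smul_eq_mul, Matrix.one_apply]
    change ∑ j, ft (Pi.single k 1) j * (starRingEnd ℂ) (ft (Pi.single l 1) j) = _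
    rw [← h3]
    congr 1
    simp [Pi.single_apply, eq_comm]
  have h4 : ‖F.det‖ ^ 2 = 5 ^ 5 := by
    have h5 := congrArg (fun A => ‖Matrix.det A‖) h2
    simp only [Matrix.det_mul, Matrix.det_conjTranspose, norm_mul, norm_star, Matrix.det_smul,
      Matrix.det_one, mul_one, Fintype.card_fin, norm_pow, Complex.norm_ofNat] at h5
    rw [sq, h5]
  rw [h1, Matrix.det_mul, norm_mul, mul_pow, h4, mul_comm]

theorem four_det (X X' Y Y' : Fin 5 → ℂ) :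
    (Matrix.of ![![5, 0, 0, 0, 0], X, X', Y, Y']).det = 5 *
      ((X 1 * X' 2 - X 2 * X' 1) * (Y 3 * Y' 4 - Y 4 * Y' 3) -
        (X 1 * X' 3 - X 3 * X' 1) * (Y 2 * Y' 4 - Y 4 * Y' 2) +
        (X 1 * X' 4 - X 4 * X' 1) * (Y 2 * Y' 3 - Y 3 * Y' 2) +
        (X 2 * X' 3 - X 3 * X' 2) * (Y 1 * Y' 4 - Y 4 * Y' 1) -
        (X 2 * X' 4 - X 4 * X' 2) * (Y 1 * Y' 3 - Y 3 * Y' 1) +
        (X 3 * X' 4 - X 4 * X' 3) * (Y 1 * Y' 2 - Y 2 * Y' 1)) := by
  simp [Matrix.det_succ_row_zero, Fin.sum_univ_succ, Fin.succAbove]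
  ring

/-- The determinant of a frame together with the constant vector. -/
theorem det_frame (X X' Y Y' : Fin 5 → ℂ) (hX : Eq0 X' fun j => ec j om * X j)
    (hY : Eq0 Y' fun j => ec j om * Y j) :
    ‖(Matrix.of ![![5, 0, 0, 0, 0], X, X', Y, Y']).det‖ = 25 * ‖d1 X Y * d2 X Y‖ := by
  obtain ⟨e1', e2', e3', e4'⟩ := ec_om
  have x1 := hX 1 (by decide)
  have x2 := hX 2 (by decide)
  have x3 := hX 3 (by decide)
  have x4 := hX 4 (by decide)
  have y1 := hY 1 (by decide)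
  have y2 := hY 2 (by decide)
  have y3 := hY 3 (by decide)
  have y4 := hY 4 (by decide)
  simp only [e1', e2', e3', e4'] at x1 x2 x3 x4 y1 y2 y3 y4
  have h5 : ((th1 : ℂ) - th2) ^ 2 = 5 := by
    have h1 : (th2 : ℂ) = -1 - th1 := by exact_mod_cast congrArg (fun x : ℝ => (x : ℂ)) th2_eq
    have h2 : (th1 : ℂ) * th1 = 1 - th1 := by
      exact_mod_cast congrArg (fun x : ℝ => (x : ℂ)) th1_sq
    rw [h1]
    linear_combination 4 * h2
  have h6 : (Matrix.of ![![5, 0, 0, 0, 0], X, X', Y, Y']).det = -25 * (d1 X Y * d2 X Y) := by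
    rw [four_det, x1, x2, x3, x4, y1, y2, y3, y4, d1, d2]
    linear_combination (-5 * ((X 1 * Y 4 - X 4 * Y 1) * (X 2 * Y 3 - X 3 * Y 2))) * h5
  rw [h6, norm_mul]
  simp

theorem d_lc (a b c d : O) (X Y : Fin 5 → ℂ) :
    d1 (lc a b X Y) (lc c d X Y) = c1 (a * d - b * c) * d1 X Y ∧
      d2 (lc a b X Y) (lc c d X Y) = c2 (a * d - b * c) * d2 X Y := by
  obtain ⟨e1', e2', e3', e4'⟩ := ec_c
  simp only [d1, d2, lc, e1', e2', e3', e4', map_sub, map_mul]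
  constructor <;> ring

theorem d_congr {X X' Y Y' : Fin 5 → ℂ} (hX : Eq0 X X') (hY : Eq0 Y Y') :
    d1 X Y = d1 X' Y' ∧ d2 X Y = d2 X' Y' := by
  simp only [d1, d2, hX 1 (by decide), hX 2 (by decide), hX 3 (by decide), hX 4 (by decide),
    hY 1 (by decide), hY 2 (by decide), hY 3 (by decide), hY 4 (by decide), and_self]

theorem SCO.congr {X X' Y Y' : Fin 5 → ℂ} (hX : Eq0 X X') (hY : Eq0 Y Y') {s : Fin 6 → O}
    (h : SCO X Y s) : SCO X' Y' s := by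
  unfold SCO SC at h ⊢
  rwa [← hX 1 (by decide), ← hX 2 (by decide), ← hX 3 (by decide), ← hX 4 (by decide),
    ← hY 1 (by decide), ← hY 2 (by decide), ← hY 3 (by decide), ← hY 4 (by decide)]

theorem Att.congr {c B t : ℝ} {X X' Y Y' : Fin 5 → ℂ} (hX : Eq0 X X') (hY : Eq0 Y Y')
    (h : Att c B t X Y) : Att c B t X' Y' := by
  obtain ⟨h1, h2, s, n, s₀, v, hn, hs, hsc, hv, ha⟩ := h
  obtain ⟨e1', e2'⟩ := d_congr hX hY
  exact ⟨e1' ▸ h1, e2' ▸ h2, s, n, s₀, v, hn, hs, hsc.congr hX hY, hv, ha⟩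

theorem Shape.congr {c B t : ℝ} {X X' Y Y' : Fin 5 → ℂ} (hX : Eq0 X X') (hY : Eq0 Y Y')
    (h : Shape c B t X Y) : Shape c B t X' Y' := by
  obtain ⟨e1', e2'⟩ := d_congr hX hY
  exact ⟨e1' ▸ e2' ▸ h.cls, e2' ▸ h.lo, fun j hj => hX j hj ▸ h.bX j hj,
    fun j hj => hY j hj ▸ h.bY j hj⟩

theorem Shape.translate {c B t : ℝ} {X Y : Fin 5 → ℂ} (h : Shape c B t X Y) (ht : 0 < t) {a : O}
    (ha : OB a (t ^ 2)) : Shape (4 * c) B t X (lc a 1 X Y) := by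
  have hd : d1 X (lc a 1 X Y) = d1 X Y ∧ d2 X (lc a 1 X Y) = d2 X Y := by
    obtain ⟨e1', e2', e3', e4'⟩ := ec_c
    simp only [d1, d2, lc, e1', e2', e3', e4', map_one]
    constructor <;> ring
  have h0 : 0 ≤ c * B / t := (norm_nonneg _).trans (h.bX 1 (by decide))
  refine ⟨by rw [hd.1, hd.2]; exact h.cls, by rw [hd.2]; exact h.lo, fun j hj => ?_, fun j hj => ?_⟩
  · refine (h.bX j hj).trans ?_
    rw [mul_assoc, mul_div_assoc 4]
    linarith
  · have h1 := ha.ec_le j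
    have h2 := h.bX j hj
    have h3 := h.bY j hj
    calc ‖lc a 1 X Y j‖ ≤ ‖ec j a‖ * ‖X j‖ + ‖Y j‖ := by
          simp only [lc, map_one, one_mul]
          exact (norm_add_le _ _).trans (by rw [norm_mul])
      _ ≤ 3 * t ^ 2 * (c * B / t) + c * B * t := by gcongr
      _ = 4 * c * B * t := by field_simp; ring

theorem Shape.five {c B t : ℝ} {X Y : Fin 5 → ℂ} (h : Shape c B t X Y) :
    Shape (5 * c) B t ((5 : ℂ) • X) ((5 : ℂ) • Y) := by
  have hd : d1 ((5 : ℂ) • X) ((5 : ℂ) • Y) = 25 * d1 X Y ∧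
      d2 ((5 : ℂ) • X) ((5 : ℂ) • Y) = 25 * d2 X Y := by
    simp only [d1, d2, Pi.smul_apply, smul_eq_mul]
    constructor <;> ring
  refine ⟨by rw [hd.1, hd.2, h.cls]; ring, ?_, fun j hj => ?_, fun j hj => ?_⟩
  · rw [hd.2, norm_mul, Complex.norm_ofNat]
    have h1 := h.lo
    have h2 := norm_nonneg (d2 X Y)
    linarith
  · rw [Pi.smul_apply, norm_smul, Complex.norm_ofNat, mul_assoc, mul_div_assoc]
    have h1 := h.bX j hj
    linarith
  · rw [Pi.smul_apply, norm_smul, Complex.norm_ofNat, mul_assoc, mul_assoc, ← mul_assoc c]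
    have h1 := h.bY j hj
    linarith

theorem Shape.d_lo {c B t : ℝ} {X Y : Fin 5 → ℂ} (h : Shape c B t X Y) (hB : 0 < B) :
    B ^ 2 ≤ 2 * ‖d1 X Y‖ ∧ d1 X Y ≠ 0 ∧ d2 X Y ≠ 0 := by
  have h1 := h.lo
  have h2 : 0 < B ^ 2 := by positivity
  have h3 := th1_bd.1
  have h4 : ‖d1 X Y‖ = th1 * ‖d2 X Y‖ := by
    rw [h.cls, norm_mul, norm_neg, Complex.norm_real, Real.norm_eq_abs, abs_of_pos (by linarith)]
  have h5 : B ^ 2 ≤ 2 * ‖d1 X Y‖ := by
    rw [h4]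
    nlinarith
  exact ⟨h5, norm_pos_iff.1 (by linarith), norm_pos_iff.1 (by linarith)⟩

end Pool.Agent.Lib.MP_af4c59_nt.H57
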