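import Pool.Agent.Lib.MP_af4c59_nt.H57O
import Pool.Agent.Lib.MP_af4c59_nt.H57Coord

/-!
The Fourier transform on the pentagon.
-/

set_option autoImplicit false

namespace Pool.Agent.Lib.MP_af4c59_nt.H57

open Matrix

theorem four0_prim : IsPrimitiveRoot z5 5 := by
  have h := Complex.isPrimitiveRoot_exp 5 (by norm_num)
  simpa [z5] using h

theorem z5_pow : z5 ^ 5 = 1 := by
  exact four0_prim.pow_eq_one

theorem z5_sum : 1 + z5 + z5 ^ 2 + z5 ^ 3 + z5 ^ 4 = 0 := by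
  have h := four0_prim.geom_sum_eq_zero (by norm_num)
  simp only [Finset.sum_range_succ, Finset.sum_range_zero] at h
  linear_combination h

theorem four0_norm : ‖z5‖ = 1 := four0_prim.norm'_eq_one (by norm_num)

theorem four0_conj : (starRingEnd ℂ) z5 = z5 ^ 4 := by
  have h1 : z5 * (starRingEnd ℂ) z5 = 1 := by
    rw [Complex.mul_conj, Complex.normSq_eq_norm_sq, four0_norm]; norm_num
  linear_combination z5 ^ 4 * h1 - (starRingEnd ℂ) z5 * z5_pow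

theorem z5_th1 : z5 + z5 ^ 4 = (th1 : ℂ) := by
  have h1 : z5.re = Real.cos (2 * (Real.pi / 5)) := by
    have : z5 = Complex.exp (((2 * (Real.pi / 5) : ℝ) : ℂ) * Complex.I) := by
      unfold z5; congr 1; push_cast; ring
    rw [this, Complex.exp_ofReal_mul_I_re]
  have h5 : √5 * √5 = 5 := Real.mul_self_sqrt (by norm_num)
  have h2 : 2 * z5.re = th1 := by
    rw [h1, Real.cos_two_mul, Real.cos_pi_div_five]
    unfold th1
    nlinarith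
  rw [← four0_conj, Complex.add_conj, h2]

theorem z5_th2 : z5 ^ 2 + z5 ^ 3 = (th2 : ℂ) := by
  rw [th2_eq]
  push_cast
  linear_combination z5_sum - z5_th1

theorem norm_z5 : ‖z5‖ = 1 := by
  exact four0_norm

theorem conj_z5 : (starRingEnd ℂ) z5 = z5 ^ 4 := by
  exact four0_conj

theorem ec_om : ec 1 om = (th1 : ℂ) ∧ ec 2 om = (th2 : ℂ) ∧ ec 3 om = (th2 : ℂ) ∧
    ec 4 om = (th1 : ℂ) := by
  have h1 : c1 om = (th1 : ℂ) := by rw [c1_apply, e1_om]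
  have h2 : c2 om = (th2 : ℂ) := by rw [c2_apply, e2_om]
  exact ⟨h1, h2, h2, h1⟩

theorem ec_apply (j : Fin 5) (a : O) : ec j a = (a.re : ℂ) + (a.im : ℂ) * ec j om := by
  have h1 : c1 a = (a.re : ℂ) + (a.im : ℂ) * c1 om := by
    rw [c1_apply, c1_apply, e1_om, e1_apply]; push_cast; ring
  have h2 : c2 a = (a.re : ℂ) + (a.im : ℂ) * c2 om := by
    rw [c2_apply, c2_apply, e2_om, e2_apply]; push_cast; ring
  fin_cases j
  exacts [h1, h1, h2, h2, h1]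

theorem four0_mod (k : ℕ) : z5 ^ k = z5 ^ (k % 5) := pow_eq_pow_mod k z5_pow

theorem four0_p : z5 ^ 5 = 1 ∧ z5 ^ 6 = z5 ∧ z5 ^ 7 = z5 ^ 2 ∧ z5 ^ 8 = z5 ^ 3 ∧
    z5 ^ 9 = z5 ^ 4 ∧ z5 ^ 10 = 1 ∧ z5 ^ 11 = z5 ∧ z5 ^ 12 = z5 ^ 2 ∧ z5 ^ 13 = z5 ^ 3 ∧
    z5 ^ 14 = z5 ^ 4 ∧ z5 ^ 15 = 1 ∧ z5 ^ 16 = z5 ∧ z5 ^ 17 = z5 ^ 2 ∧ z5 ^ 18 = z5 ^ 3 ∧
    z5 ^ 19 = z5 ^ 4 ∧ z5 ^ 20 = 1 := by
  refine ⟨?_, ?_, ?_, ?_, ?_, ?_, ?_, ?_, ?_, ?_, ?_, ?_, ?_, ?_, ?_, ?_⟩ <;> rw [four0_mod] <;> norm_num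

theorem four0_p4 : z5 ^ 4 = -1 - z5 - z5 ^ 2 - z5 ^ 3 := by
  linear_combination z5_sum

theorem ft_c (z : Fin 5 → ℂ) : ft z 0 = z 0 + z 1 + z 2 + z 3 + z 4 ∧
    ft z 1 = z 0 + z5 * z 1 + z5 ^ 2 * z 2 + z5 ^ 3 * z 3 + z5 ^ 4 * z 4 ∧
    ft z 2 = z 0 + z5 ^ 2 * z 1 + z5 ^ 4 * z 2 + z5 * z 3 + z5 ^ 3 * z 4 ∧
    ft z 3 = z 0 + z5 ^ 3 * z 1 + z5 * z 2 + z5 ^ 4 * z 3 + z5 ^ 2 * z 4 ∧
    ft z 4 = z 0 + z5 ^ 4 * z 1 + z5 ^ 3 * z 2 + z5 ^ 2 * z 3 + z5 * z 4 := by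
  refine ⟨?_, ?_, ?_, ?_, ?_⟩ <;> simp [ft, Fin.sum_univ_five, four0_p]

theorem ft_add (z w : Fin 5 → ℂ) : ft (z + w) = ft z + ft w := by
  ext j
  simp [ft, mul_add, Finset.sum_add_distrib]

theorem ft_smul (c : ℂ) (z : Fin 5 → ℂ) : ft (c • z) = c • ft z := by
  ext j
  simp only [ft, Pi.smul_apply, smul_eq_mul, Finset.mul_sum]
  exact Finset.sum_congr rfl fun i _ => by ring

theorem four0_opT (z : Fin 5 → ℂ) : opT z 0 = z 1 + z 4 ∧ opT z 1 = z 2 + z 0 ∧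
    opT z 2 = z 3 + z 1 ∧ opT z 3 = z 4 + z 2 ∧ opT z 4 = z 0 + z 3 := ⟨rfl, rfl, rfl, rfl, rfl⟩

theorem four0_opP (z w : Fin 5 → ℂ) :
    opP z w 0 = z 0 * w 0 + z 1 * w 4 + z 2 * w 3 + z 3 * w 2 + z 4 * w 1 ∧
    opP z w 1 = z 1 * w 1 + z 2 * w 0 + z 3 * w 4 + z 4 * w 3 + z 0 * w 2 ∧
    opP z w 2 = z 2 * w 2 + z 3 * w 1 + z 4 * w 0 + z 0 * w 4 + z 1 * w 3 ∧
    opP z w 3 = z 3 * w 3 + z 4 * w 2 + z 0 * w 1 + z 1 * w 0 + z 2 * w 4 ∧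
    opP z w 4 = z 4 * w 4 + z 0 * w 3 + z 1 * w 2 + z 2 * w 1 + z 3 * w 0 := by
  refine ⟨?_, ?_, ?_, ?_, ?_⟩ <;> (unfold opP; rw [Fin.sum_univ_five]; rfl)

theorem ft_opT (z : Fin 5 → ℂ) (j : Fin 5) (hj : j ≠ 0) : ft (opT z) j = ec j om * ft z j := by
  obtain ⟨a0, a1, a2, a3, a4⟩ := ft_c z
  obtain ⟨b0, b1, b2, b3, b4⟩ := ft_c (opT z)
  obtain ⟨c0, c1, c2, c3, c4⟩ := four0_opT z
  obtain ⟨d1, d2, d3, d4⟩ := ec_om
  have e1 : ft (opT z) 1 = ec 1 om * ft z 1 := by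
    rw [a1, b1, c0, c1, c2, c3, c4, d1, ← z5_th1]
    ring_nf; simp only [four0_p]; ring
  have e2 : ft (opT z) 2 = ec 2 om * ft z 2 := by
    rw [a2, b2, c0, c1, c2, c3, c4, d2, ← z5_th2]
    ring_nf; simp only [four0_p]; ring
  have e3 : ft (opT z) 3 = ec 3 om * ft z 3 := by
    rw [a3, b3, c0, c1, c2, c3, c4, d3, ← z5_th2]
    ring_nf; simp only [four0_p]; ring
  have e4 : ft (opT z) 4 = ec 4 om * ft z 4 := by
    rw [a4, b4, c0, c1, c2, c3, c4, d4, ← z5_th1]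
    ring_nf; simp only [four0_p]; ring
  fin_cases j
  exacts [absurd rfl hj, e1, e2, e3, e4]

theorem ft_opT0 (z : Fin 5 → ℂ) : ft (opT z) 0 = 2 * ft z 0 := by
  obtain ⟨c0, c1, c2, c3, c4⟩ := four0_opT z
  rw [(ft_c z).1, (ft_c (opT z)).1, c0, c1, c2, c3, c4]
  ring

theorem ft_opP (z w : Fin 5 → ℂ) : ft (opP z w) 1 = ft z 3 * ft w 3 ∧
    ft (opP z w) 4 = ft z 2 * ft w 2 ∧ ft (opP z w) 2 = ft z 1 * ft w 1 ∧
    ft (opP z w) 3 = ft z 4 * ft w 4 := by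
  obtain ⟨a0, a1, a2, a3, a4⟩ := ft_c z
  obtain ⟨a0', a1', a2', a3', a4'⟩ := ft_c w
  obtain ⟨b0, b1, b2, b3, b4⟩ := ft_c (opP z w)
  obtain ⟨c0, c1, c2, c3, c4⟩ := four0_opP z w
  refine ⟨?_, ?_, ?_, ?_⟩
  · rw [a3, a3', b1, c0, c1, c2, c3, c4]
    ring_nf; simp only [four0_p]; ring
  · rw [a2, a2', b4, c0, c1, c2, c3, c4]
    ring_nf; simp only [four0_p]; ring
  · rw [a1, a1', b2, c0, c1, c2, c3, c4]
    ring_nf; simp only [four0_p]; ring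
  · rw [a4, a4', b3, c0, c1, c2, c3, c4]
    ring_nf; simp only [four0_p]; ring

theorem ift_ft (z : Fin 5 → ℂ) (i : Fin 5) : ift (ft z) i = 5 * z i - ft z 0 := by
  obtain ⟨a0, a1, a2, a3, a4⟩ := ft_c z
  unfold ift
  rw [a0, a1, a2, a3, a4]
  fin_cases i <;> simp <;> ring_nf <;> simp only [four0_p, four0_p4] <;> ring

theorem ift_congr {X Y : Fin 5 → ℂ} (h : Eq0 X Y) : ift X = ift Y := by
  ext i
  unfold ift
  rw [h 1 (by decide), h 2 (by decide), h 3 (by decide), h 4 (by decide)]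

theorem ift_smul (c : ℂ) (X : Fin 5 → ℂ) : ift (c • X) = c • ift X := by
  ext i
  simp only [ift, Pi.smul_apply, smul_eq_mul]
  ring

theorem ft_inj {z : Fin 5 → ℂ} (h : ft z = 0) : z = 0 := by
  ext i
  have h1 := ift_ft z i
  rw [h] at h1
  simpa [ift] using h1

theorem ft_mul (z w : Fin 5 → ℂ) : 5 * ∑ i, z i * w i = ft z 0 * ft w 0 +
    (ft z 1 * ft w 4 + ft z 4 * ft w 1) + (ft z 2 * ft w 3 + ft z 3 * ft w 2) := by
  obtain ⟨a0, a1, a2, a3, a4⟩ := ft_c z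
  obtain ⟨b0, b1, b2, b3, b4⟩ := ft_c w
  rw [a0, a1, a2, a3, a4, b0, b1, b2, b3, b4, Fin.sum_univ_five]
  ring_nf
  simp only [four0_p, four0_p4]
  ring

theorem ft_conj (z w : Fin 5 → ℂ) :
    5 * ∑ i, z i * (starRingEnd ℂ) (w i) = ∑ j, ft z j * (starRingEnd ℂ) (ft w j) := by
  obtain ⟨a0, a1, a2, a3, a4⟩ := ft_c w
  obtain ⟨b0, b1, b2, b3, b4⟩ := ft_c fun i => (starRingEnd ℂ) (w i)
  have e0 : (starRingEnd ℂ) (ft w 0) = ft (fun i => (starRingEnd ℂ) (w i)) 0 := by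
    rw [a0, b0]; simp only [map_add]
  have e1 : (starRingEnd ℂ) (ft w 1) = ft (fun i => (starRingEnd ℂ) (w i)) 4 := by
    rw [a1, b4]; simp only [map_add, map_mul, map_pow, conj_z5]
    ring_nf; simp only [four0_p]; ring
  have e2 : (starRingEnd ℂ) (ft w 2) = ft (fun i => (starRingEnd ℂ) (w i)) 3 := by
    rw [a2, b3]; simp only [map_add, map_mul, map_pow, conj_z5]
    ring_nf; simp only [four0_p]; ring
  have e3 : (starRingEnd ℂ) (ft w 3) = ft (fun i => (starRingEnd ℂ) (w i)) 2 := by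
    rw [a3, b2]; simp only [map_add, map_mul, map_pow, conj_z5]
    ring_nf; simp only [four0_p]; ring
  have e4 : (starRingEnd ℂ) (ft w 4) = ft (fun i => (starRingEnd ℂ) (w i)) 1 := by
    rw [a4, b1]; simp only [map_add, map_mul, map_pow, conj_z5]
    ring_nf; simp only [four0_p]; ring
  rw [ft_mul z fun i => (starRingEnd ℂ) (w i), Fin.sum_univ_five, e0, e1, e2, e3, e4]
  ring

/-- The convolution of characters. -/
theorem ft_char (z : Fin 5 → ℂ) (j k : Fin 5) :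
    ∑ i : Fin 5, z i * z5 ^ (i.val * j.val) * z5 ^ (i.val * k.val) = ft z (j + k) := by
  unfold ft
  refine Finset.sum_congr rfl fun i _ => ?_
  rw [mul_assoc, ← pow_add, mul_comm, four0_mod, four0_mod (i.val * (j + k).val), Fin.val_add,
    ← mul_add, Nat.mul_mod_mod]

theorem norm_ft (z : Fin 5 → ℂ) (j : Fin 5) : ‖ft z j‖ ≤ 5 * ‖z‖ := by
  unfold ft
  refine (norm_sum_le _ _).trans ?_
  calc ∑ i : Fin 5, ‖z5 ^ (i.val * j.val) * z i‖ ≤ ∑ _i : Fin 5, ‖z‖ :=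
        Finset.sum_le_sum fun i _ => by
          rw [norm_mul, norm_pow, norm_z5, one_pow, one_mul]
          exact norm_le_pi_norm z i
    _ = 5 * ‖z‖ := by simp

theorem norm_ift {X : Fin 5 → ℂ} {r : ℝ} (h : Bd0 X r) (i : Fin 5) : ‖ift X i‖ ≤ 4 * r := by
  have h1 : ∀ (k : ℕ) (j : Fin 5), j ≠ 0 → ‖z5 ^ k * X j‖ ≤ r := fun k j hj => by
    rw [norm_mul, norm_pow, norm_z5, one_pow, one_mul]
    exact h j hj
  unfold ift
  refine (norm_add_le_of_le (norm_add_le_of_le (norm_add_le_of_le (h1 _ 1 (by decide))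
    (h1 _ 2 (by decide))) (h1 _ 3 (by decide))) (h1 _ 4 (by decide))).trans (by linarith)

end Pool.Agent.Lib.MP_af4c59_nt.H57
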