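import Pool.Agent.Lib.MP_af4c59_nt.H57Defs

/-!
The discriminant of a quintic field at large primes.
-/

set_option autoImplicit false

namespace Pool.Agent.Lib.MP_af4c59_nt.H57

open Matrix

open NumberField

/-- The trace of a nonzero idempotent is its rank. -/
theorem tame_idem {k R : Type} [Field k] [CommRing R] [Algebra k R] [Module.Finite k R] {x : R}
    (hx : x * x = x) (h0 : x ≠ 0) :
    ∃ n : ℕ, 1 ≤ n ∧ n ≤ Module.finrank k R ∧ Algebra.trace k R x = n := by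
  have hp : LinearMap.IsProj (LinearMap.range (Algebra.lmul k R x)) (Algebra.lmul k R x) := by
    refine ⟨fun y => ⟨y, rfl⟩, ?_⟩
    rintro _ ⟨y, rfl⟩
    change x * (x * y) = x * y
    rw [← mul_assoc, hx]
  refine ⟨Module.finrank k (LinearMap.range (Algebra.lmul k R x)), ?_, Submodule.finrank_le _, ?_⟩
  · rw [Submodule.one_le_finrank_iff]
    intro h
    have h1 : x ∈ LinearMap.range (Algebra.lmul k R x) := ⟨1, mul_one x⟩
    rw [h] at h1
    exact h0 h1
  · rw [Algebra.trace_apply]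
    exact hp.trace

set_option linter.deprecated false in
theorem tame_not_dvd (L : Type) [Field L] [NumberField L] (h5 : Module.finrank ℚ L = 5) {p : ℕ}
    (hp : p.Prime) (h7 : 7 ≤ p) (J Q : Ideal (𝓞 L)) (hJ : J ≠ ⊤) (hc : J ⊔ Q = ⊤)
    (hm : J * Q = Ideal.map (algebraMap ℤ (𝓞 L)) (Ideal.span {(p : ℤ)})) :
    ¬ J ∣ differentIdeal ℤ (𝓞 L) := by
  have hpp : Prime (p : ℤ) := Nat.prime_iff_prime_int.1 hp
  have hmax : (Ideal.span {(p : ℤ)}).IsMaximal :=
    ((Ideal.span_singleton_prime hpp.ne_zero).2 hpp).isMaximal (by simpa using hp.ne_zero)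
  obtain ⟨a, ha, x, hx, hax⟩ := Submodule.mem_sup.1 ((Ideal.eq_top_iff_one _).1 hc)
  refine not_dvd_differentIdeal_of_intTrace_not_mem ℤ J Q hm x hx ?_
  rw [← Ideal.Quotient.eq_zero_iff_mem, ← Algebra.trace_quotient_eq_of_isDedekindDomain]
  let := Ideal.Quotient.field (Ideal.span {(p : ℤ)})
  have hfin : Module.Finite (ℤ ⧸ Ideal.span {(p : ℤ)})
      (𝓞 L ⧸ Ideal.map (algebraMap ℤ (𝓞 L)) (Ideal.span {(p : ℤ)})) :=
    Module.Finite.of_restrictScalars_finite ℤ _ _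
  have h1 : Ideal.Quotient.mk (Ideal.map (algebraMap ℤ (𝓞 L)) (Ideal.span {(p : ℤ)})) x *
      Ideal.Quotient.mk _ x = Ideal.Quotient.mk _ x := by
    rw [← map_mul, Ideal.Quotient.eq, ← hm]
    have : x * x - x = -(a * x) := by linear_combination x * hax
    rw [this]
    exact neg_mem (Ideal.mul_mem_mul ha hx)
  have h2 : Ideal.Quotient.mk (Ideal.map (algebraMap ℤ (𝓞 L)) (Ideal.span {(p : ℤ)})) x ≠ 0 := by
    rw [Ne, Ideal.Quotient.eq_zero_iff_mem, ← hm]
    intro h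
    apply hJ
    rw [Ideal.eq_top_iff_one, ← hax]
    have h' : J * Q ≤ J := Ideal.mul_le_left
    exact add_mem ha (h' h)
  obtain ⟨n, hn1, hn2, hn⟩ := tame_idem (k := ℤ ⧸ Ideal.span {(p : ℤ)}) h1 h2
  rw [Ideal.finrank_quotient_map (Ideal.span {(p : ℤ)}) ℚ L, h5] at hn2
  intro h
  have h3 : ((n : ℤ) : ℤ ⧸ Ideal.span {(p : ℤ)}) = 0 := by
    rw [Int.cast_natCast, ← hn]
    exact h
  have h4 : (n : ℤ) ∈ Ideal.span {(p : ℤ)} := Ideal.Quotient.eq_zero_iff_mem.1 h3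
  rw [Ideal.mem_span_singleton, Int.natCast_dvd_natCast] at h4
  have := Nat.le_of_dvd hn1 h4
  omega

theorem tame (L : Type) [Field L] [NumberField L] (h5 : Module.finrank ℚ L = 5) {p : ℕ}
    (hp : p.Prime) (h7 : 7 ≤ p) : ¬ (p : ℤ) ^ 6 ∣ discr L := by
  intro hd
  have hmap : Ideal.map (algebraMap ℤ (𝓞 L)) (Ideal.span {(p : ℤ)}) = Ideal.span {(p : 𝓞 L)} := by
    rw [Ideal.map_span, Set.image_singleton, map_natCast]
  have hp0 : Ideal.span {(p : 𝓞 L)} ≠ ⊥ := by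
    rw [Ne, Ideal.span_singleton_eq_bot]
    exact_mod_cast hp.ne_zero
  obtain ⟨D, Q, H, hrel, hD, hQ⟩ := UniqueFactorizationMonoid.exists_reduced_factors'
    (differentIdeal ℤ (𝓞 L)) (Ideal.span {(p : 𝓞 L)}) hp0
  have hH : Ideal.absNorm H ∣ p ^ 5 := by
    have := map_dvd Ideal.absNorm (Dvd.intro _ hQ)
    rwa [Ideal.absNorm_span_natCast, RingOfIntegers.rank, h5] at this
  have hd' : p ^ 6 ∣ Ideal.absNorm H * Ideal.absNorm D := by
    rw [← map_mul, hD, absNorm_differentIdeal L, ← Int.natCast_dvd_natCast, Int.dvd_natAbs]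
    exact_mod_cast hd
  have hpD : p ∣ Ideal.absNorm D := by
    have h1 : p ^ 5 * p ∣ p ^ 5 * Ideal.absNorm D :=
      (pow_succ p 5 ▸ hd').trans (Nat.mul_dvd_mul_right hH _)
    exact Nat.dvd_of_mul_dvd_mul_left (pow_pos hp.pos 5) h1
  obtain ⟨P, hP, hPp, hPD⟩ := Ideal.exists_isMaximal_dvd_of_dvd_absNorm' hp D hpD
  have hpP : (p : 𝓞 L) ∈ P := by
    have : (p : ℤ) ∈ P.under ℤ := by rw [hPp]; exact Ideal.mem_span_singleton_self _
    simpa [Ideal.under, Ideal.mem_comap] using this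
  obtain ⟨Q', hc, hm⟩ := Ideal.eq_prime_pow_mul_coprime hp0 P
  generalize Multiset.count P _ = e at hm
  have he : e ≠ 0 := by
    rintro rfl
    rw [pow_zero, one_mul] at hm
    apply hP.ne_top
    rw [← hc, ← hm]
    exact (sup_eq_left.2 ((Ideal.span_singleton_le_iff_mem _).2 hpP)).symm
  have hP0 : P ≠ ⊥ := by
    rintro rfl
    exact hp.ne_zero (by exact_mod_cast (Ideal.mem_bot.1 hpP))
  have hprime : Prime P := Ideal.prime_of_isPrime hP0 hP.isPrime
  have hPQ : ¬ P ∣ Q := fun h => hprime.not_isUnit (hrel hPD h)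
  have h1 : P ^ e ∣ H := by
    refine hprime.pow_dvd_of_dvd_mul_right e hPQ ?_
    rw [hQ, hm]
    exact dvd_mul_right _ _
  refine tame_not_dvd L h5 hp h7 (P ^ e) Q' ?_ (Ideal.pow_sup_eq_top hc) (by rw [hmap, ← hm]) ?_
  · intro h
    exact hP.ne_top (top_le_iff.1 (h ▸ Ideal.pow_le_self he))
  · rw [← hD]
    exact h1.mul_right _

end Pool.Agent.Lib.MP_af4c59_nt.H57
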