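import Pool.Agent.Lib.MP_af4c59_nt.H57Span
import Pool.Agent.Lib.MP_af4c59_nt.H57Tame

/-!
The class of the ratio of the two determinants.
-/

set_option autoImplicit false

namespace Pool.Agent.Lib.MP_af4c59_nt.H57

open Matrix

open NumberField

variable {L : Type} [Field L] [NumberField L] {φ : Fin 5 → (L →+* ℂ)}

theorem rho_star1 (a : O) : c1 (star a) = c2 a := by
  rw [c1_apply, c2_apply, e1_star]

theorem rho_star2 (a : O) : c2 (star a) = c1 a := by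
  rw [c1_apply, c2_apply, e2_star]

theorem rho_norm (a : O) : c1 a * c2 a = ((QuadraticAlgebra.norm a : ℤ) : ℂ) := by
  rw [c1_apply, c2_apply, ← Complex.ofReal_mul, e1_mul_e2, Complex.ofReal_intCast]

theorem rho_inj : Function.Injective c1 := ec_inj 1

theorem rho_s5 : c2 s5 = -c1 s5 ∧ c1 s5 ^ 2 = 5 := by
  rw [c1_apply, c2_apply, e1_s5, e2_s5, Complex.ofReal_neg, ← Complex.ofReal_pow,
    Real.sq_sqrt (by norm_num)]
  exact ⟨rfl, Complex.ofReal_ofNat 5⟩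

theorem rho_c1 (a b : ℤ) : c1 ⟨a, b⟩ = (a : ℂ) + b * (th1 : ℂ) := by
  rw [c1_apply, e1_apply]
  push_cast
  rfl

theorem rho_c2 (a b : ℤ) : c2 ⟨a, b⟩ = (a : ℂ) + b * (th2 : ℂ) := by
  rw [c2_apply, e2_apply]
  push_cast
  rfl

theorem rho_int (h : Pent φ) (x y : 𝓞 L) : ∃ a : ℤ,
    hat φ x 1 * hat φ y 4 + hat φ x 4 * hat φ y 1 +
      (hat φ x 2 * hat φ y 3 + hat φ x 3 * hat φ y 2) = a := by
  obtain ⟨n, hn⟩ := h.sum_int (x * y)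
  obtain ⟨a, ha⟩ := h.sum_int x
  obtain ⟨b, hb⟩ := h.sum_int y
  have e := ft_mul (em φ x) (em φ y)
  rw [em_mul] at hn
  simp only [Pi.mul_apply] at hn
  rw [Fin.sum_univ_five] at ha hb
  rw [hn, (ft_c (em φ x)).1, (ft_c (em φ y)).1, ha, hb] at e
  refine ⟨5 * n - a * b, ?_⟩
  unfold hat
  push_cast
  linear_combination -e

theorem Pent.gram (h : Pent φ) (x y : 𝓞 L) : ∃ g : O,
    c1 s5 * (hat φ x 1 * hat φ y 4 + hat φ x 4 * hat φ y 1) = c1 g ∧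
      c2 s5 * (hat φ x 2 * hat φ y 3 + hat φ x 3 * hat φ y 2) = c2 g := by
  obtain ⟨z, hz⟩ := h.act om 0 x y
  obtain ⟨a, ha⟩ := rho_int h x y
  obtain ⟨b, hb⟩ := rho_int h z y
  rw [hz 1 (by decide), hz 2 (by decide), hz 3 (by decide), hz 4 (by decide)] at hb
  simp only [lc, map_zero, zero_mul, add_zero, ec_om.1, ec_om.2.1, ec_om.2.2.1, ec_om.2.2.2] at hb
  have t : (th2 : ℂ) = -1 - (th1 : ℂ) := by
    rw [th2_eq]
    push_cast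
    rfl
  refine ⟨⟨b + a, a⟩, ?_, ?_⟩
  · rw [s5, rho_c1, rho_c1]
    push_cast
    rw [← ha, ← hb, t]
    ring
  · rw [s5, rho_c2, rho_c2]
    push_cast
    rw [← ha, ← hb, t]
    ring

theorem rho_case {D₁ D₂ : ℂ} (h1 : D₁ ≠ 0) (h2 : D₂ ≠ 0) {g q δ κ : O} (hg : g ≠ 0)
    (e1 : c1 q * D₁ = c2 g * D₂) (e2 : c2 q * D₂ = -(c1 g * D₁)) (a1 : c1 δ = 5 * D₁ ^ 2)
    (a2 : c2 δ = 5 * D₂ ^ 2) (hκ : star δ ^ 2 = κ * δ) :
    ∃ p q δ κ : O, q ≠ 0 ∧ QuadraticAlgebra.norm p = -QuadraticAlgebra.norm q ∧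
      c1 q * D₁ = c1 p * D₂ ∧ c1 δ = 5 * D₁ ^ 2 ∧ c2 δ = 5 * D₂ ^ 2 ∧
      δ * q ^ 2 = p ^ 2 * star δ ∧ star δ ^ 2 = κ * δ := by
  refine ⟨star g, q, δ, κ, ?_, ?_, by rw [rho_star1, e1], a1, a2, rho_inj ?_, hκ⟩
  · rintro rfl
    rw [map_zero, zero_mul, eq_comm, neg_eq_zero] at e2
    exact hg (rho_inj (((mul_eq_zero.1 e2).resolve_right h1).trans (map_zero c1).symm))
  · rw [QuadraticAlgebra.norm_star]
    have e : ((QuadraticAlgebra.norm g : ℤ) : ℂ) = ((-QuadraticAlgebra.norm q : ℤ) : ℂ) := by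
      rw [Int.cast_neg, ← rho_norm, ← rho_norm]
      refine mul_right_cancel₀ (mul_ne_zero h1 h2) ?_
      linear_combination (c2 q * D₂) * e1 + (c2 g * D₂) * e2
    exact_mod_cast e
  · rw [map_mul, map_mul, map_pow, map_pow, rho_star1, rho_star1, a1, a2]
    linear_combination (5 * (c1 q * D₁ + c2 g * D₂)) * e1

/-- The ratio of the determinants, from the multiplication table and the Gram matrix. -/
theorem ratio {X Y : Fin 5 → ℂ} {s : Fin 6 → O} (hs : SCO X Y s) (h1 : d1 X Y ≠ 0)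
    (h2 : d2 X Y ≠ 0) {g₁₁ g₁₂ g₂₂ : O}
    (a11 : c1 s5 * (X 1 * X 4 + X 4 * X 1) = c1 g₁₁) (b11 : c2 s5 * (X 2 * X 3 + X 3 * X 2) = c2 g₁₁)
    (a12 : c1 s5 * (X 1 * Y 4 + X 4 * Y 1) = c1 g₁₂) (b12 : c2 s5 * (X 2 * Y 3 + X 3 * Y 2) = c2 g₁₂)
    (a22 : c1 s5 * (Y 1 * Y 4 + Y 4 * Y 1) = c1 g₂₂) (b22 : c2 s5 * (Y 2 * Y 3 + Y 3 * Y 2) = c2 g₂₂) :
    ∃ p q δ κ : O, q ≠ 0 ∧ QuadraticAlgebra.norm p = -QuadraticAlgebra.norm q ∧
      c1 q * d1 X Y = c1 p * d2 X Y ∧ c1 δ = 5 * d1 X Y ^ 2 ∧ c2 δ = 5 * d2 X Y ^ 2 ∧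
      δ * q ^ 2 = p ^ 2 * star δ ∧ star δ ^ 2 = κ * δ := by
  obtain ⟨⟨p1, p2, p3⟩, ⟨q1, q2, q3⟩, ⟨r1, r2, r3⟩, t1, t2, t3⟩ := hs
  dsimp only at p1 p2 p3 q1 q2 q3 r1 r2 r3 t1 t2 t3
  obtain ⟨s2, s1⟩ := rho_s5
  rw [s2] at b11 b12 b22
  obtain ⟨A, hA⟩ : ∃ A, A = s 0 * s 3 - s 1 * s 2 := ⟨_, rfl⟩
  obtain ⟨B, hB⟩ : ∃ B, B = s 0 * s 5 - s 1 * s 4 := ⟨_, rfl⟩
  obtain ⟨C, hC⟩ : ∃ C, C = s 2 * s 5 - s 3 * s 4 := ⟨_, rfl⟩
  have A1 : c1 A * d1 X Y = -(X 2 * X 3) * d2 X Y := by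
    rw [hA, map_sub, map_mul, map_mul, d1, d2]
    linear_combination (-(X 2 * Y 2)) * p1 - (c1 (s 0) * X 1 + c1 (s 1) * Y 1) * q2
      + (X 3 * Y 3) * q1 + (c1 (s 0) * X 4 + c1 (s 1) * Y 4) * p2
  have B1 : c1 B * d1 X Y = -(X 2 * Y 3 + X 3 * Y 2) * d2 X Y := by
    rw [hB, map_sub, map_mul, map_mul, d1, d2]
    linear_combination (-(Y 2 * Y 2)) * p1 - (c1 (s 0) * X 1 + c1 (s 1) * Y 1) * q3
      + (Y 3 * Y 3) * q1 + (c1 (s 0) * X 4 + c1 (s 1) * Y 4) * p3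
  have C1 : c1 C * d1 X Y = -(Y 2 * Y 3) * d2 X Y := by
    rw [hC, map_sub, map_mul, map_mul, d1, d2]
    linear_combination (-(Y 2 * Y 2)) * p2 - (c1 (s 2) * X 1 + c1 (s 3) * Y 1) * q3
      + (Y 3 * Y 3) * q2 + (c1 (s 2) * X 4 + c1 (s 3) * Y 4) * p3
  have A2 : c2 A * d2 X Y = X 1 * X 4 * d1 X Y := by
    rw [hA, map_sub, map_mul, map_mul, d1, d2]
    linear_combination (-(X 4 * Y 4)) * r1 - (c2 (s 0) * X 2 + c2 (s 1) * Y 2) * t2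
      + (X 1 * Y 1) * t1 + (c2 (s 0) * X 3 + c2 (s 1) * Y 3) * r2
  have B2 : c2 B * d2 X Y = (X 1 * Y 4 + X 4 * Y 1) * d1 X Y := by
    rw [hB, map_sub, map_mul, map_mul, d1, d2]
    linear_combination (-(Y 4 * Y 4)) * r1 - (c2 (s 0) * X 2 + c2 (s 1) * Y 2) * t3
      + (Y 1 * Y 1) * t1 + (c2 (s 0) * X 3 + c2 (s 1) * Y 3) * r3
  have C2 : c2 C * d2 X Y = Y 1 * Y 4 * d1 X Y := by
    rw [hC, map_sub, map_mul, map_mul, d1, d2]
    linear_combination (-(Y 4 * Y 4)) * r2 - (c2 (s 2) * X 2 + c2 (s 3) * Y 2) * t3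
      + (Y 1 * Y 1) * t2 + (c2 (s 2) * X 3 + c2 (s 3) * Y 3) * r3
  have a1 : c1 (g₁₂ ^ 2 - g₁₁ * g₂₂) = 5 * d1 X Y ^ 2 := by
    rw [map_sub, map_mul, map_pow, ← a11, ← a12, ← a22, ← s1, d1]
    ring
  have a2 : c2 (g₁₂ ^ 2 - g₁₁ * g₂₂) = 5 * d2 X Y ^ 2 := by
    rw [map_sub, map_mul, map_pow, ← b11, ← b12, ← b22, ← s1, d2]
    ring
  have hκ : star (g₁₂ ^ 2 - g₁₁ * g₂₂) ^ 2 = 5 * (B ^ 2 - 4 * (A * C)) * (g₁₂ ^ 2 - g₁₁ * g₂₂) := by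
    apply rho_inj
    rw [map_pow, rho_star1, map_mul, a1, a2, map_mul, map_sub, map_mul, map_mul, map_pow,
      map_ofNat, map_ofNat]
    have e : d2 X Y ^ 2 = (X 2 * Y 3 + X 3 * Y 2) ^ 2 - 4 * (X 2 * X 3 * (Y 2 * Y 3)) := by
      rw [d2]
      ring
    linear_combination (25 * d2 X Y ^ 2) * e
      - (25 * (c1 B * d1 X Y - (X 2 * Y 3 + X 3 * Y 2) * d2 X Y)) * B1
      + (100 * (c1 C * d1 X Y)) * A1 - (100 * (X 2 * X 3 * d2 X Y)) * C1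
  by_cases n11 : g₁₁ = 0
  · by_cases n12 : g₁₂ = 0
    · exfalso
      rw [n11, n12, zero_mul, sub_zero, zero_pow two_ne_zero, map_zero] at a1
      exact mul_ne_zero (by norm_num) (pow_ne_zero 2 h1) a1.symm
    · refine rho_case h1 h2 n12 (q := s5 * B) ?_ ?_ a1 a2 hκ
      · rw [map_mul, ← b12]
        linear_combination c1 s5 * B1
      · rw [map_mul, ← a12, s2]
        linear_combination (-c1 s5) * B2
  · refine rho_case h1 h2 n11 (q := 2 * s5 * A) ?_ ?_ a1 a2 hκ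
    · rw [map_mul, map_mul, map_ofNat, ← b11]
      linear_combination (2 * c1 s5) * A1
    · rw [map_mul, map_mul, map_ofNat, ← a11, s2]
      linear_combination (-2 * c1 s5) * A2

theorem rho_unit (h : Pent φ) {x y : 𝓞 L} (hs : Span φ 1 x y) : ∃ u : O,
    QuadraticAlgebra.norm u = -1 ∧ d1 (hat φ x) (hat φ y) = c1 u * d2 (hat φ x) (hat φ y) := by
  have hd := span_disc h hs
  have n0 : d1 (hat φ x) (hat φ y) * d2 (hat φ x) (hat φ y) ≠ 0 := by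
    intro e
    rw [e, norm_zero, zero_pow two_ne_zero] at hd
    have a : (0 : ℝ) < |((discr L : ℤ) : ℝ)| := abs_pos.2 (Int.cast_ne_zero.2 (discr_ne_zero L))
    linarith
  obtain ⟨s, hc⟩ := sco_of_span h hs
  rw [one_smul, one_smul] at hc
  obtain ⟨g₁₁, a11, b11⟩ := h.gram x x
  obtain ⟨g₁₂, a12, b12⟩ := h.gram x y
  obtain ⟨g₂₂, a22, b22⟩ := h.gram y y
  obtain ⟨p, q, δ, κ, hq, hn, e, a1, a2, k1, k2⟩ :=
    ratio hc (left_ne_zero_of_mul n0) (right_ne_zero_of_mul n0) a11 b11 a12 b12 a22 b22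
  have hδ : δ ≠ 0 := by
    rintro rfl
    rw [map_zero] at a1
    exact mul_ne_zero (by norm_num) (pow_ne_zero 2 (left_ne_zero_of_mul n0)) a1.symm
  have nd : |QuadraticAlgebra.norm δ| = |125 * discr L| := by
    have b : ((QuadraticAlgebra.norm δ : ℤ) : ℂ) =
        25 * (d1 (hat φ x) (hat φ y) * d2 (hat φ x) (hat φ y)) ^ 2 := by
      rw [← rho_norm, a1, a2]
      ring
    have c := congrArg norm b
    rw [Complex.norm_intCast, norm_mul, norm_pow, hd, Complex.norm_ofNat] at c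
    have d : |((QuadraticAlgebra.norm δ : ℤ) : ℝ)| = |125 * ((discr L : ℤ) : ℝ)| := by
      rw [c, abs_mul, abs_of_pos (show (0 : ℝ) < 125 by norm_num)]
      ring
    exact_mod_cast d
  obtain ⟨u, hu, rfl⟩ := rho_core hq hn k1 k2 hδ fun l hl h7 hd => by
    rw [← dvd_abs, nd, dvd_abs] at hd
    have c : Nat.Coprime (l ^ 6) (5 ^ 3) :=
      Nat.Coprime.pow 6 3 ((Nat.coprime_primes hl Nat.prime_five).2 (by omega))
    have c' : IsCoprime ((l : ℤ) ^ 6) 125 := by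
      exact_mod_cast Nat.isCoprime_iff_coprime.2 c
    exact tame L h.deg hl h7 (c'.dvd_of_dvd_mul_left hd)
  refine ⟨u, hu, mul_left_cancel₀ ((map_ne_zero_iff c1 rho_inj).2 hq) ?_⟩
  rw [e, map_mul]
  ring

theorem fix_class (h : Pent φ) : ∃ x y : 𝓞 L, Span φ 5 x y ∧
    d1 (hat φ x) (hat φ y) = -(th1 : ℂ) * d2 (hat φ x) (hat φ y) ∧
    5 * |((discr L : ℤ) : ℝ)| ≤ ‖d1 (hat φ x) (hat φ y) * d2 (hat φ x) (hat φ y)‖ ^ 2 ∧
    ‖d1 (hat φ x) (hat φ y) * d2 (hat φ x) (hat φ y)‖ ^ 2 ≤ 125 * |((discr L : ℤ) : ℝ)| := by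
  obtain ⟨x, y, hs⟩ := span_exists h
  obtain ⟨u, hu, e⟩ := rho_unit h hs
  obtain ⟨g, g', hg, hN, hug⟩ := norm_neg_one hu
  obtain ⟨z, hz⟩ := h.act g 0 x y
  have hy : Eq0 (hat φ y) (lc 0 1 (hat φ x) (hat φ y)) := fun j _ => by
    rw [lc, map_zero, map_one, zero_mul, one_mul, zero_add]
  obtain ⟨f1, f2⟩ := d_congr hz hy
  obtain ⟨k1, k2⟩ := d_lc g 0 0 1 (hat φ x) (hat φ y)
  rw [mul_one, mul_zero, sub_zero] at k1 k2
  rw [k1] at f1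
  rw [k2] at f2
  have hug' : c1 u * c1 g = -(th1 : ℂ) * c2 g := by
    rw [c1_apply, c1_apply, c2_apply]
    exact_mod_cast hug
  have g0 : QuadraticAlgebra.norm g ≠ 0 := fun a => by
    rw [norm_eq_zero a, zero_mul] at hg
    have b := congrArg c1 hg
    rw [map_zero, map_ofNat] at b
    norm_num at b
  have n1 : (1 : ℝ) ≤ |((QuadraticAlgebra.norm g : ℤ) : ℝ)| := by
    exact_mod_cast Int.one_le_abs g0
  have n5 : |((QuadraticAlgebra.norm g : ℤ) : ℝ)| ≤ 5 := by exact_mod_cast hN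
  have nn : ‖d1 (hat φ z) (hat φ y) * d2 (hat φ z) (hat φ y)‖ ^ 2 =
      |((QuadraticAlgebra.norm g : ℤ) : ℝ)| ^ 2 * (5 * |((discr L : ℤ) : ℝ)|) := by
    rw [f1, f2, mul_mul_mul_comm, rho_norm, norm_mul, mul_pow, span_disc h hs,
      Complex.norm_intCast]
  have D0 : (0 : ℝ) ≤ 5 * |((discr L : ℤ) : ℝ)| := by positivity
  refine ⟨z, y, fun w => ?_, ?_, ?_, ?_⟩
  · obtain ⟨a, b, hab⟩ := hs w
    refine ⟨a * g', 5 * b, fun j hj => ?_⟩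
    have c := hab j hj
    have d := congrArg (ec j) hg
    rw [one_smul, lc] at c
    rw [map_mul, map_ofNat] at d
    rw [Pi.smul_apply, smul_eq_mul, c, lc, hz j hj, lc, map_mul, map_mul, map_zero, map_ofNat]
    linear_combination (-(ec j a * hat φ x j)) * d
  · rw [f1, f2, e]
    linear_combination d2 (hat φ x) (hat φ y) * hug'
  · rw [nn]
    exact le_mul_of_one_le_left D0 (one_le_pow₀ n1)
  · rw [nn]
    have a := mul_le_mul_of_nonneg_right (pow_le_pow_left₀ (abs_nonneg _) n5 2) D0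
    linarith

end Pool.Agent.Lib.MP_af4c59_nt.H57
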