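import Pool.Agent.Lib.MP_af4c59_nt.H57FrameA
import Pool.Agent.Lib.MP_af4c59_nt.H57Rho
import Pool.Agent.Lib.MP_af4c59_nt.H57Mink

/-!
A reduced frame.
-/

set_option autoImplicit false

namespace Pool.Agent.Lib.MP_af4c59_nt.H57

open Matrix

open NumberField

theorem frame_bd {X : Fin 5 → ℂ} {r : ℝ} (h1 : n1 X ≤ r) (h2 : n2 X ≤ r) : Bd0 X r := by
  intro j hj
  unfold n1 at h1
  unfold n2 at h2
  rw [max_le_iff] at h1 h2
  fin_cases j
  · exact absurd rfl hj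
  · exact h1.1
  · exact h2.1
  · exact h2.2
  · exact h1.2

theorem frame_pos1 {X Y : Fin 5 → ℂ} (h : d1 X Y ≠ 0) : 0 < n1 X := by
  by_contra hc
  unfold n1 at hc
  rw [not_lt, max_le_iff, norm_le_zero_iff, norm_le_zero_iff] at hc
  apply h
  unfold d1
  rw [hc.1, hc.2]
  ring

theorem frame_pos2 {X Y : Fin 5 → ℂ} (h : d2 X Y ≠ 0) : 0 < n2 X := by
  by_contra hc
  unfold n2 at hc
  rw [not_lt, max_le_iff, norm_le_zero_iff, norm_le_zero_iff] at hc
  apply h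
  unfold d2
  rw [hc.1, hc.2]
  ring

theorem frame_ne {X Y : Fin 5 → ℂ} (h : d1 X Y ≠ 0) : ¬ Eq0 X 0 := by
  intro hc
  apply h
  unfold d1
  rw [hc 1 (by decide), hc 4 (by decide)]
  simp

theorem frame_th : 1 / 2 ≤ th1 ∧ th1 ≤ 1 := by
  have h : √5 * √5 = 5 := Real.mul_self_sqrt (by norm_num)
  have h0 : 0 ≤ √5 := Real.sqrt_nonneg 5
  unfold th1
  constructor <;> nlinarith

theorem frame_last {n m D d B c t : ℝ} (hm : 0 < m) (hn : n ≤ 2 * m) (hmn : m ≤ n) (hd : d ≤ D)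
    (hD : D ≤ 20 * B ^ 2) (hB : 1 ≤ B) (hc : 1 ≤ c) (ht : 1 ≤ t) (h1 : n ≤ c * B)
    (h2 : c * B ≤ 2 * t * n) : 2 * m + d / m ≤ (4 * c + 80) * B * t := by
  have h3 : d / m ≤ 80 * B * t := by
    rw [div_le_iff₀ hm]
    have h4 : B ≤ 4 * t * m := by nlinarith
    nlinarith
  have h5 : c * B ≤ c * B * t := le_mul_of_one_le_right (by positivity) ht
  have h6 : 0 ≤ c * B * t := by positivity
  nlinarith

theorem frame_exists : ∃ c : ℝ, 1 ≤ c ∧ ∀ (L : Type) [Field L] [NumberField L]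
    (φ : Fin 5 → (L →+* ℂ)) (B : ℝ), Pent φ → 1 ≤ B → B ^ 8 ≤ |((discr L : ℤ) : ℝ)| →
    |((discr L : ℤ) : ℝ)| ≤ (2 * B) ^ 8 →
    ∃ (k : ℕ) (x y : 𝓞 L), (2 : ℝ) ^ k ≤ c * B ∧ Span φ 5 x y ∧
      Shape c B (2 ^ k) (hat φ x) (hat φ y) := by
  obtain ⟨C, hC, hsh⟩ := short
  refine ⟨4 * (16 * C) + 80, by linarith, ?_⟩
  intro L _ _ φ B h hB hlo hhi
  obtain ⟨x₀, r, h0, hr, hr8⟩ := hsh L φ h
  obtain ⟨x, y, hs, hcl, ha, hb⟩ := fix_class h
  obtain ⟨t1, t2⟩ := frame_th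
  have hr0 : 0 ≤ r := by have := h.hat_lo h0 hr; linarith
  have hrB : r ≤ 2 * C * B := by
    refine le_of_pow_le_pow_left₀ (n := 8) (by norm_num) (by positivity) (hr8.trans ?_)
    have a1 : C ≤ C ^ 8 := le_self_pow₀ hC (by norm_num)
    calc C * |((discr L : ℤ) : ℝ)| ≤ C ^ 8 * (2 * B) ^ 8 := by gcongr
      _ = _ := by ring
  set D := ‖d2 (hat φ x) (hat φ y)‖ with hD
  have hD0 : 0 ≤ D := norm_nonneg _
  have hd1 : ‖d1 (hat φ x) (hat φ y)‖ = th1 * D := by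
    rw [hcl, norm_mul, norm_neg, Complex.norm_real, Real.norm_eq_abs, abs_of_nonneg (by linarith)]
  rw [norm_mul, hd1, ← hD] at ha hb
  have hsq : (th1 * D * D) ^ 2 = th1 ^ 2 * D ^ 4 := by ring
  rw [hsq] at ha hb
  have hD4 : 0 ≤ D ^ 4 := by positivity
  have hB8 : 0 < B ^ 8 := by positivity
  have hDlo : B ^ 2 ≤ D := by
    refine le_of_pow_le_pow_left₀ (n := 4) (by norm_num) hD0 ?_
    have a1 : th1 ^ 2 ≤ 1 := by nlinarith
    have a2 : th1 ^ 2 * D ^ 4 ≤ D ^ 4 := mul_le_of_le_one_left hD4 a1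
    have a3 : (B ^ 2) ^ 4 = B ^ 8 := by ring
    linarith
  have hDhi : D ≤ 20 * B ^ 2 := by
    refine le_of_pow_le_pow_left₀ (n := 4) (by norm_num) (by positivity) ?_
    have a1 : 1 / 4 ≤ th1 ^ 2 := by nlinarith
    have a2 : 1 / 4 * D ^ 4 ≤ th1 ^ 2 * D ^ 4 := mul_le_mul_of_nonneg_right a1 hD4
    have a3 : (20 * B ^ 2) ^ 4 = 160000 * B ^ 8 := by ring
    have a4 : (2 * B) ^ 8 = 256 * B ^ 8 := by ring
    linarith
  have hDpos : 0 < D := lt_of_lt_of_le (by positivity) hDlo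
  have hn2 : d2 (hat φ x) (hat φ y) ≠ 0 := norm_pos_iff.mp hDpos
  have hn1 : d1 (hat φ x) (hat φ y) ≠ 0 := by
    rw [← norm_pos_iff, hd1]
    positivity
  obtain ⟨x', y', hs', e1', e2', b1, b2, b3⟩ := first_vector h hs hn1 hn2 h0 hr
  have hn1' : d1 (hat φ x') (hat φ y') ≠ 0 := by rw [e1']; exact hn1
  have hn2' : d2 (hat φ x') (hat φ y') ≠ 0 := by rw [e2']; exact hn2
  have p1 := frame_pos1 hn1'
  have p2 := frame_pos2 hn2'
  obtain ⟨y'', hs'', f1, f2, g1, g2⟩ := second_vector h hs' p1 p2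
  rw [e1'] at f1 g1
  rw [e2'] at f2 g2
  set a := n1 (hat φ x') with ha'
  set b := n2 (hat φ x') with hb'
  set n := max a b with hn
  have hna : a ≤ n := le_max_left _ _
  have hnb : b ≤ n := le_max_right _ _
  have hn2a : n ≤ 2 * a := max_le (by linarith) b2
  have hn2b : n ≤ 2 * b := max_le b1 (by linarith)
  have hn0 : 0 < n := by linarith
  have hn4 : 1 ≤ 4 * n := h.hat_lo (frame_ne hn1') (frame_bd hna hnb)
  have hnr : n ≤ 8 * r := by
    refine le_of_pow_le_pow_left₀ (n := 2) (by norm_num) (by positivity) ?_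
    have a1 : n ^ 2 ≤ 2 * (a * b) := by
      rcases le_total a b with hab | hab
      · rw [hn, max_eq_right hab]; nlinarith
      · rw [hn, max_eq_left hab]; nlinarith
    nlinarith
  have hnB : n ≤ 16 * C * B := by linarith
  obtain ⟨k, k1, k2⟩ := exists_nat_pow_near (x := 16 * C * B / n) (y := (2 : ℝ))
    ((one_le_div hn0).mpr hnB) (by norm_num)
  rw [le_div_iff₀ hn0] at k1
  rw [div_lt_iff₀ hn0, pow_succ] at k2
  have ht : (1 : ℝ) ≤ 2 ^ k := one_le_pow₀ (by norm_num)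
  have hCB : 0 < C * B := by positivity
  refine ⟨k, x', y'', by nlinarith, hs'', ?_, ?_, ?_, ?_⟩
  · rw [f1, f2, hcl]
  · rw [f2]; exact hDlo
  · have : n ≤ (4 * (16 * C) + 80) * B / 2 ^ k := by
      rw [le_div_iff₀ (by positivity)]
      nlinarith
    exact frame_bd (hna.trans this) (hnb.trans this)
  · refine frame_bd (g1.trans ?_) (g2.trans ?_)
    · exact frame_last (D := D) p1 hn2a hna (by rw [hd1]; nlinarith) hDhi hB (by linarith) ht hnB
        (by linarith)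
    · exact frame_last (D := D) p2 hn2b hnb le_rfl hDhi hB (by linarith) ht hnB (by linarith)

end Pool.Agent.Lib.MP_af4c59_nt.H57
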