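import Pool.Agent.Lib.MP_af4c59_nt.H57Span

/-!
Reduction of a frame.
-/

set_option autoImplicit false

namespace Pool.Agent.Lib.MP_af4c59_nt.H57

open Matrix

open NumberField

/-- The size at the first place. -/
noncomputable def n1 (X : Fin 5 → ℂ) : ℝ := max ‖X 1‖ ‖X 4‖

/-- The size at the second place. -/
noncomputable def n2 (X : Fin 5 → ℂ) : ℝ := max ‖X 2‖ ‖X 3‖

/-- Reduction of a vector of the complex plane modulo the real multiples of another. -/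
theorem reduce2 {x x' y y' : ℂ} (h0 : 0 < max ‖x‖ ‖x'‖)
    (h : (y * (starRingEnd ℂ) x + y' * (starRingEnd ℂ) x').im = 0) :
    ∃ a : ℝ, max ‖x‖ ‖x'‖ * ‖y - a * x‖ ≤ ‖x * y' - x' * y‖ ∧
      max ‖x‖ ‖x'‖ * ‖y' - a * x'‖ ≤ ‖x * y' - x' * y‖ := by
  obtain ⟨N, hN⟩ : ∃ N : ℝ, N = ‖x‖ ^ 2 + ‖x'‖ ^ 2 := ⟨_, rfl⟩
  have hx := norm_nonneg x
  have hx' := norm_nonneg x'
  have hN0 : 0 < N := by
    rcases lt_max_iff.1 h0 with h1 | h1 <;> rw [hN] <;> positivity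
  have hNc : (N : ℂ) = x * (starRingEnd ℂ) x + x' * (starRingEnd ℂ) x' := by
    rw [Complex.mul_conj, Complex.mul_conj, Complex.normSq_eq_norm_sq, Complex.normSq_eq_norm_sq,
      hN, Complex.ofReal_add]
  obtain ⟨S, hS⟩ : ∃ S : ℝ, (S : ℂ) = y * (starRingEnd ℂ) x + y' * (starRingEnd ℂ) x' :=
    ⟨_, Complex.ext (Complex.ofReal_re _) (by rw [Complex.ofReal_im, h])⟩
  have ha : (N : ℂ) * ((S / N : ℝ) : ℂ) = S := by
    rw [← Complex.ofReal_mul, mul_div_cancel₀ _ hN0.ne']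
  have e1 : (N : ℂ) * (y - ((S / N : ℝ) : ℂ) * x) = -(starRingEnd ℂ) x' * (x * y' - x' * y) := by
    linear_combination y * hNc - x * ha - x * hS
  have e2 : (N : ℂ) * (y' - ((S / N : ℝ) : ℂ) * x') = (starRingEnd ℂ) x * (x * y' - x' * y) := by
    linear_combination y' * hNc - x' * ha - x' * hS
  have f1 := congrArg norm e1
  have f2 := congrArg norm e2
  rw [norm_mul, norm_mul, Complex.norm_real, Real.norm_of_nonneg hN0.le] at f1 f2
  rw [norm_neg] at f1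
  rw [Complex.norm_conj] at f1 f2
  have g1 : max ‖x‖ ‖x'‖ * ‖x'‖ ≤ N := by
    rcases le_total ‖x‖ ‖x'‖ with h1 | h1
    · rw [max_eq_right h1]; nlinarith
    · rw [max_eq_left h1]; nlinarith
  have g2 : max ‖x‖ ‖x'‖ * ‖x‖ ≤ N := by
    rcases le_total ‖x‖ ‖x'‖ with h1 | h1
    · rw [max_eq_right h1]; nlinarith
    · rw [max_eq_left h1]; nlinarith
  have hD := norm_nonneg (x * y' - x' * y)
  refine ⟨S / N, le_of_mul_le_mul_left ?_ hN0, le_of_mul_le_mul_left ?_ hN0⟩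
  · rw [mul_left_comm, f1, ← mul_assoc]
    exact mul_le_mul_of_nonneg_right g1 hD
  · rw [mul_left_comm, f2, ← mul_assoc]
    exact mul_le_mul_of_nonneg_right g2 hD

theorem framea_pos {x x' y y' : ℂ} (h : x * y' - x' * y ≠ 0) : 0 < max ‖x‖ ‖x'‖ := by
  by_contra hc
  have h1 := (max_le_iff.1 (not_lt.1 hc))
  exact h (by rw [norm_le_zero_iff.1 h1.1, norm_le_zero_iff.1 h1.2]; ring)

theorem framea_scale {W X Y : Fin 5 → ℂ} {g a b : O} (h : Eq0 W (lc (g * a) (g * b) X Y)) :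
    n1 W = |e1 g| * n1 (lc a b X Y) ∧ n2 W = |e2 g| * n2 (lc a b X Y) := by
  have k : ∀ j : Fin 5, j ≠ 0 → ‖W j‖ = ‖ec j g‖ * ‖lc a b X Y j‖ := fun j hj => by
    rw [h j hj, ← norm_mul, lc, lc, map_mul, map_mul]
    congr 1
    ring
  have q1 : ‖c1 g‖ = |e1 g| := by rw [c1_apply, Complex.norm_real, Real.norm_eq_abs]
  have q2 : ‖c2 g‖ = |e2 g| := by rw [c2_apply, Complex.norm_real, Real.norm_eq_abs]
  obtain ⟨w1, w2, w3, w4⟩ := ec_c
  rw [n1, n1, n2, n2, k 1 (by decide), k 4 (by decide), k 2 (by decide), k 3 (by decide),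
    w1, w2, w3, w4, q1, q2, mul_max_of_nonneg _ _ (abs_nonneg _),
    mul_max_of_nonneg _ _ (abs_nonneg _)]
  exact ⟨rfl, rfl⟩

theorem framea_bd {X : Fin 5 → ℂ} {r : ℝ} (h : Bd0 X r) :
    n1 ((5 : ℂ) • X) ≤ 5 * r ∧ n2 ((5 : ℂ) • X) ≤ 5 * r := by
  have k : ∀ j : Fin 5, j ≠ 0 → ‖((5 : ℂ) • X) j‖ ≤ 5 * r := fun j hj => by
    rw [Pi.smul_apply, smul_eq_mul, norm_mul, Complex.norm_ofNat]
    exact mul_le_mul_of_nonneg_left (h j hj) (by norm_num)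
  exact ⟨max_le (k 1 (by decide)) (k 4 (by decide)), max_le (k 2 (by decide)) (k 3 (by decide))⟩

theorem framea_one_le {g : O} (hg : g ≠ 0) : 1 ≤ |e1 g| * |e2 g| := by
  rw [← abs_mul, e1_mul_e2, ← Int.cast_abs]
  exact_mod_cast Int.one_le_abs fun h => hg (norm_eq_zero h)

theorem framea_unit {u u' : O} (h : u * u' = 1) : |e1 u| * |e2 u| ≤ 1 := by
  have h1 := framea_one_le (right_ne_zero_of_mul_eq_one h)
  have h2 : |e1 u| * |e1 u'| = 1 := by rw [← abs_mul, ← map_mul, h, map_one, abs_one]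
  have h3 : |e2 u| * |e2 u'| = 1 := by rw [← abs_mul, ← map_mul, h, map_one, abs_one]
  have h4 := mul_le_mul_of_nonneg_left h1 (mul_nonneg (abs_nonneg (e1 u)) (abs_nonneg (e2 u)))
  have h5 : |e1 u| * |e2 u| * (|e1 u'| * |e2 u'|) = 1 := by
    rw [mul_mul_mul_comm, h2, h3, one_mul]
  linarith

theorem framea_red {x y : ℂ} {a e n D : ℝ} (hn : 0 < n) (hx : ‖x‖ ≤ n) (he : |-a - e| ≤ 2)
    (h : n * ‖y - a * x‖ ≤ D) : ‖(e : ℂ) * x + y‖ ≤ 2 * n + D / n := by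
  have h1 : (e : ℂ) * x + y = -(((-a - e : ℝ) : ℂ) * x) + (y - a * x) := by
    push_cast
    ring
  rw [h1]
  refine (norm_add_le _ _).trans (add_le_add ?_ ?_)
  · rw [norm_neg, norm_mul, Complex.norm_real, Real.norm_eq_abs]
    exact mul_le_mul he hx (norm_nonneg _) (by norm_num)
  · rw [le_div_iff₀ hn, mul_comm]
    exact h

variable {L : Type} [Field L] [NumberField L] {φ : Fin 5 → (L →+* ℂ)}

/-- A frame whose first vector is short and balanced. -/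
theorem first_vector (h : Pent φ) {x y x₀ : 𝓞 L} (hs : Span φ 5 x y)
    (h1 : d1 (hat φ x) (hat φ y) ≠ 0) (h2 : d2 (hat φ x) (hat φ y) ≠ 0)
    (h0 : ¬ Eq0 (hat φ x₀) 0) {r : ℝ} (hr : Bd0 (hat φ x₀) r) :
    ∃ x' y' : 𝓞 L, Span φ 5 x' y' ∧ d1 (hat φ x') (hat φ y') = d1 (hat φ x) (hat φ y) ∧
      d2 (hat φ x') (hat φ y') = d2 (hat φ x) (hat φ y) ∧ n1 (hat φ x') ≤ 2 * n2 (hat φ x') ∧
      n2 (hat φ x') ≤ 2 * n1 (hat φ x') ∧ n1 (hat φ x') * n2 (hat φ x') ≤ 25 * r ^ 2 := by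
  obtain ⟨a, b, hab⟩ := hs x₀
  have hne : a ≠ 0 ∨ b ≠ 0 := by
    by_contra hc
    simp only [not_or, not_not] at hc
    refine h0 fun j hj => ?_
    have := hab j hj
    rw [hc.1, hc.2, lc, map_zero, zero_mul, zero_mul, add_zero, Pi.smul_apply, smul_eq_mul] at this
    exact (mul_eq_zero.1 this).resolve_left (by norm_num)
  obtain ⟨g, a', b', hg, rfl, rfl, p, q, hpq⟩ := exists_coprime hne
  obtain ⟨k1, k2⟩ := d_lc a' b' (-q) p (hat φ x) (hat φ y)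
  rw [show a' * p - b' * -q = 1 by linear_combination hpq, map_one, one_mul] at k1 k2
  have p1 : 0 < n1 (lc a' b' (hat φ x) (hat φ y)) := framea_pos (by rw [← d1, k1]; exact h1)
  have p2 : 0 < n2 (lc a' b' (hat φ x) (hat φ y)) := framea_pos (by rw [← d2, k2]; exact h2)
  obtain ⟨u, u', hu, b1, b2⟩ := balance p1 p2
  obtain ⟨x', hx'⟩ := h.act (u * a') (u * b') x y
  obtain ⟨y', hy'⟩ := h.act (-(u' * q)) (u' * p) x y
  have hd : u * a' * (u' * p) - u * b' * -(u' * q) = 1 := by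
    linear_combination (u * u') * hpq + hu
  obtain ⟨c1', c2'⟩ := d_congr hx' hy'
  obtain ⟨l1, l2⟩ := d_lc (u * a') (u * b') (-(u' * q)) (u' * p) (hat φ x) (hat φ y)
  rw [hd, map_one, one_mul] at l1 l2
  obtain ⟨s1, s2⟩ := framea_scale hx'
  obtain ⟨t1, t2⟩ := framea_scale hab
  obtain ⟨r1, r2⟩ := framea_bd hr
  refine ⟨x', y', hs.change hd hx' hy', c1'.trans l1, c2'.trans l2, by rw [s1, s2]; exact b1,
    by rw [s1, s2]; exact b2, ?_⟩
  rw [s1, s2]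
  rw [t1] at r1
  rw [t2] at r2
  have hu1 := framea_unit hu
  have hg1 := framea_one_le hg
  generalize n1 (lc a' b' (hat φ x) (hat φ y)) = A at p1 r1 ⊢
  generalize n2 (lc a' b' (hat φ x) (hat φ y)) = B at p2 r2 ⊢
  have m1 := mul_le_mul r1 r2 (by positivity) (le_trans (by positivity) r1)
  have m2 := mul_le_mul_of_nonneg_right hu1 (mul_pos p1 p2).le
  have m3 := mul_le_mul_of_nonneg_right hg1 (mul_pos p1 p2).le
  linarith

/-- Reduction of the second vector. -/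
theorem second_vector (h : Pent φ) {x y : 𝓞 L} (hs : Span φ 5 x y) (h1 : 0 < n1 (hat φ x))
    (h2 : 0 < n2 (hat φ x)) :
    ∃ y' : 𝓞 L, Span φ 5 x y' ∧ d1 (hat φ x) (hat φ y') = d1 (hat φ x) (hat φ y) ∧
      d2 (hat φ x) (hat φ y') = d2 (hat φ x) (hat φ y) ∧
      n1 (hat φ y') ≤ 2 * n1 (hat φ x) + ‖d1 (hat φ x) (hat φ y)‖ / n1 (hat φ x) ∧
      n2 (hat φ y') ≤ 2 * n2 (hat φ x) + ‖d2 (hat φ x) (hat φ y)‖ / n2 (hat φ x) := by
  obtain ⟨k1, k2⟩ := h.herm x y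
  obtain ⟨a1, u1, u4⟩ := reduce2 h1 k1
  obtain ⟨a2, u2, u3⟩ := reduce2 h2 k2
  obtain ⟨α, v1, v2⟩ := round_O (-a1) (-a2)
  obtain ⟨y', hy'⟩ := h.act α 1 x y
  have hx : Eq0 (hat φ x) (lc 1 0 (hat φ x) (hat φ y)) := fun j _ => by
    rw [lc, map_one, map_zero, one_mul, zero_mul, add_zero]
  have hd : (1 : O) * 1 - 0 * α = 1 := by ring
  obtain ⟨c1', c2'⟩ := d_congr hx hy'
  obtain ⟨l1, l2⟩ := d_lc 1 0 α 1 (hat φ x) (hat φ y)
  rw [hd, map_one, one_mul] at l1 l2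
  have hj : ∀ j : Fin 5, j ≠ 0 → hat φ y' j = ec j α * hat φ x j + hat φ y j := fun j hj => by
    rw [hy' j hj, lc, map_one, one_mul]
  refine ⟨y', hs.change hd hx hy', c1'.trans l1, c2'.trans l2, max_le ?_ ?_, max_le ?_ ?_⟩
  · rw [hj 1 (by decide)]
    exact framea_red h1 (le_max_left _ _) v1 u1
  · rw [hj 4 (by decide)]
    exact framea_red h1 (le_max_right _ _) v1 u4
  · rw [hj 2 (by decide)]
    exact framea_red h2 (le_max_left _ _) v2 u2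
  · rw [hj 3 (by decide)]
    exact framea_red h2 (le_max_right _ _) v2 u3

end Pool.Agent.Lib.MP_af4c59_nt.H57
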