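import Pool.Agent.Lib.MP_af4c59_nt.H57I3

/-!
The index of the four odd spinors divides the minors of the symmetric tensor.
-/

set_option autoImplicit false

namespace Pool.Agent.Lib.MP_af4c59_nt.H57

open Matrix

/-- The table of representing vectors. -/
def mrel_tab : Fin 4 → Fin 4 → Fin 10 → ℤ :=
  ![![![0, 0, 0, 0, 0, 2, 0, 0, 0, 0], ![0, 0, 0, 0, 0, 0, 2, 0, 0, 0],
      ![0, 0, 0, 1, 1, 0, 0, 0, 2, 1], ![0, 0, 0, 0, 2, 0, 0, 0, 0, 0]],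
    ![![0, 0, 0, 0, 0, 0, 2, 0, 0, 0], ![0, 0, 0, 0, 0, 0, 0, 2, 0, 0],
      ![0, 0, 0, 0, 0, 0, 0, 0, 0, 2], ![0, 0, 0, -1, 1, 0, 0, 0, 0, 1]],
    ![![0, 0, 0, 1, 1, 0, 0, 0, 2, 1], ![0, 0, 0, 0, 0, 0, 0, 0, 0, 2],
      ![-6, -2, 0, 0, 0, 0, 0, 0, 0, 0], ![-2, -2, -2, 0, 0, 0, 0, 0, 0, 0]],
    ![![0, 0, 0, 0, 2, 0, 0, 0, 0, 0], ![0, 0, 0, -1, 1, 0, 0, 0, 0, 1],
      ![-2, -2, -2, 0, 0, 0, 0, 0, 0, 0], ![0, -2, -2, 0, 0, 0, 0, 0, 0, 0]]]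

theorem mrel_gat {R : Type} [CommRing R] (v : Fin 10 → R) (κ : Fin 4 → R) :
    gat v (kkM *ᵥ κ) = KV v *ᵥ κ := by
  rw [← gatM_mulVec, mulVec_mulVec]
  exact congrArg (fun M : Matrix (Fin 16) (Fin 4) R => M *ᵥ κ) (gatM_kkM v)

theorem mrel_quad {R : Type} [CommRing R] (v : Fin 10 → R) (κ : Fin 4 → R) :
    (kkM *ᵥ κ) ⬝ᵥ gat v (kkM *ᵥ κ) = κ ⬝ᵥ MK v *ᵥ κ := by
  have h : (kkM : Matrix (Fin 16) (Fin 4) R)ᵀ *ᵥ (KV v *ᵥ κ) = MK v *ᵥ κ := by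
    rw [mulVec_mulVec]
    exact congrArg (fun M : Matrix (Fin 4) (Fin 4) R => M *ᵥ κ) (kkM_KV v)
  rw [mrel_gat, ← h, dotProduct_mulVec κ, vecMul_transpose]

theorem mrel_quad' {R : Type} [CommRing R] (v : Fin 10 → R) (κ : Fin 4 → R) :
    κ ⬝ᵥ MK v *ᵥ κ = -2 * v 5 * κ 0 ^ 2 - 2 * v 6 * κ 0 * κ 1 - 2 * v 8 * κ 0 * κ 2 +
      2 * (-v 3 - v 4 + v 8) * κ 0 * κ 3 - 2 * v 7 * κ 1 ^ 2 + 2 * (-v 3 + v 8 - v 9) * κ 1 * κ 2 +
      2 * (2 * v 3 - v 8) * κ 1 * κ 3 + (2 * v 1 - 2 * v 2) * κ 2 ^ 2 +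
      2 * (v 0 - 3 * v 1 + 3 * v 2) * κ 2 * κ 3 + (-2 * v 0 + 6 * v 1 - 4 * v 2) * κ 3 ^ 2 := by
  simp only [dotProduct, mulVec, Fin.sum_univ_four, MK_c]
  ring

/-- The vectors that represent the entries of `m2`. -/
theorem exists_rep : ∃ a : Fin 4 → Fin 4 → Fin 10 → ℤ, (∀ i j k, |a i j k| ≤ 6) ∧
    ∀ (R : Type) [CommRing R], (∀ (v : Fin 10 → R) (i j : Fin 4),
      m2 v i j = BV (vc R (a i j)) v) ∧ ∀ (κ : Fin 4 → R) (i j : Fin 4),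
      (kkM *ᵥ κ) ⬝ᵥ gat (vc R (a i j)) (kkM *ᵥ κ) = -4 * κ i * κ j := by
  refine ⟨mrel_tab, by decide, fun R _ => ⟨fun v => ?_, fun κ => ?_⟩⟩
  · apply all4 <;> apply all4 <;> simp only [m2_c, BV, vc] <;> simp [mrel_tab] <;> ring
  · simp only [mrel_quad, mrel_quad', vc]
    apply all4 <;> apply all4 <;> simp [mrel_tab] <;> ring

theorem rel_id {R : Type} [CommRing R] (a b v : Fin 10 → R) (r : Fin 16 → R) :
    BV a v * (r ⬝ᵥ gat b r) - BV b v * (r ⬝ᵥ gat a r) =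
      r ⬝ᵥ gat b (gam a (gat v r)) - r ⬝ᵥ gat a (gam b (gat v r)) := by
  have key : ∀ a b : Fin 10 → R, BV a v * (r ⬝ᵥ gat b r) =
      r ⬝ᵥ gat b (gam a (gat v r)) + gat b r ⬝ᵥ gam v (gat a r) := by
    intro a b
    have h := cliff2 a v r
    rw [← smul_eq_mul, ← smul_dotProduct, ← h, add_dotProduct, gat_symm b r,
      dotProduct_comm (gat b r)]
  rw [key a b, key b a, gam_symm v (gat b r)]
  ring

/-- The vector of three by three minors of three rows. -/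
theorem exists_cross {R : Type} [CommRing R] (M : Matrix (Fin 16) (Fin 4) R) (f : Fin 3 → Fin 16) :
    ∃ κ : Fin 4 → R, (∀ a : Fin 4, κ a = (M.submatrix f a.succAbove).det ∨
      κ a = -(M.submatrix f a.succAbove).det) ∧
      ∀ i, (M *ᵥ κ) i = (M.submatrix (Fin.cons i f : Fin 4 → Fin 16) id).det := by
  refine ⟨fun a => (-1) ^ (a : ℕ) * (M.submatrix f a.succAbove).det, fun a => ?_, fun i => ?_⟩
  · rcases neg_one_pow_eq_or R (a : ℕ) with h | h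
    · left; simp only [h, one_mul]
    · right; simp only [h, neg_one_mul]
  · rw [det_succ_row_zero]
    simp only [mulVec, dotProduct]
    refine Finset.sum_congr rfl fun j _ => ?_
    have e : (M.submatrix (Fin.cons i f : Fin 4 → Fin 16) id).submatrix Fin.succ j.succAbove =
        M.submatrix f j.succAbove := by
      ext x y
      simp
    rw [e]
    simp only [submatrix_apply, Fin.cons_zero, id]
    ring

/-- The basic relation between entries of the symmetric tensor and the vector of minors. -/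
theorem mrel_rel {R : Type} [CommRing R] {a : Fin 4 → Fin 4 → Fin 10 → ℤ}
    (h1 : ∀ (v : Fin 10 → R) (i j : Fin 4), m2 v i j = BV (vc R (a i j)) v)
    (h2 : ∀ (κ : Fin 4 → R) (i j : Fin 4),
      (kkM *ᵥ κ) ⬝ᵥ gat (vc R (a i j)) (kkM *ᵥ κ) = -4 * κ i * κ j)
    (v : Fin 10 → R) (κ : Fin 4 → R) (c i j : Fin 4) :
    4 * m2 v i j * κ c ^ 2 = 4 * m2 v c c * κ i * κ j +
      ((kkM *ᵥ κ) ⬝ᵥ gat (vc R (a i j)) (gam (vc R (a c c)) (KV v *ᵥ κ)) -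
        (kkM *ᵥ κ) ⬝ᵥ gat (vc R (a c c)) (gam (vc R (a i j)) (KV v *ᵥ κ))) := by
  have h := rel_id (vc R (a c c)) (vc R (a i j)) v (kkM *ᵥ κ)
  rw [h2, h2, ← h1, ← h1, mrel_gat] at h
  linear_combination h

theorem mrel_det {R : Type} [CommRing R] (m : Matrix (Fin 4) (Fin 4) R) (f f' : Fin 2 → Fin 4) :
    (m.submatrix f f').det = m (f 0) (f' 0) * m (f 1) (f' 1) - m (f 0) (f' 1) * m (f 1) (f' 0) := by
  rw [det_fin_two]
  rfl

theorem mrelZ {u v : Fin 10 → ℤ} (h : BV u v = 1) (hq : qV v = 0) {g : ℤ} (hg : DvdM 4 (KV v) g)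
    (f f' : Fin 2 → Fin 4) : g ∣ 16 * ((m2 v).submatrix f f').det := by
  obtain ⟨a, -, ha⟩ := exists_rep
  obtain ⟨h1, h2⟩ := ha ℤ
  have key : ∀ (f3 : Fin 3 → Fin 16) (c : Fin 4),
      g ∣ ((KV v).submatrix f3 c.succAbove).det ^ 4 * (16 * ((m2 v).submatrix f f').det) := by
    intro f3 c
    obtain ⟨κ, hκ, hM⟩ := exists_cross (KV v) f3
    have hw : ∀ i, ∃ w, (KV v *ᵥ κ) i = g * w := fun i => by
      rw [hM]
      exact hg _ _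
    choose w hw using hw
    have hw' : KV v *ᵥ κ = g • w := funext hw
    have he : ∀ i j, ∃ e, 4 * m2 v i j * κ c ^ 2 = 4 * m2 v c c * κ i * κ j + g * e := by
      intro i j
      refine ⟨(kkM *ᵥ κ) ⬝ᵥ gat (vc ℤ (a i j)) (gam (vc ℤ (a c c)) w) -
        (kkM *ᵥ κ) ⬝ᵥ gat (vc ℤ (a c c)) (gam (vc ℤ (a i j)) w), ?_⟩
      rw [mrel_rel h1 h2 v κ c i j, hw']
      simp only [gam_smul, gat_smul, dotProduct_smul, smul_eq_mul]
      ring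
    choose e he using he
    have h4 : ((KV v).submatrix f3 c.succAbove).det ^ 4 = κ c ^ 4 := by
      rcases hκ c with h | h <;> rw [h]
      ring
    rw [h4, mrel_det]
    refine ⟨4 * m2 v c c * κ (f 0) * κ (f' 0) * e (f 1) (f' 1) +
      4 * m2 v c c * κ (f 1) * κ (f' 1) * e (f 0) (f' 0) + g * e (f 0) (f' 0) * e (f 1) (f' 1) -
      (4 * m2 v c c * κ (f 0) * κ (f' 1) * e (f 1) (f' 0) +
      4 * m2 v c c * κ (f 1) * κ (f' 0) * e (f 0) (f' 1) + g * e (f 0) (f' 1) * e (f 1) (f' 0)), ?_⟩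
    have e1 : (4 * m2 v (f 0) (f' 0) * κ c ^ 2) * (4 * m2 v (f 1) (f' 1) * κ c ^ 2) -
        (4 * m2 v (f 0) (f' 1) * κ c ^ 2) * (4 * m2 v (f 1) (f' 0) * κ c ^ 2) = _ := rfl
    conv_rhs at e1 => rw [he (f 0) (f' 0), he (f 1) (f' 1), he (f 0) (f' 1), he (f 1) (f' 0)]
    linear_combination e1
  generalize 16 * ((m2 v).submatrix f f').det = E at key ⊢
  rcases Nat.eq_zero_or_pos (Int.gcd g E) with h0 | h0
  · rw [(Int.gcd_eq_zero_iff.1 h0).2]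
    exact dvd_zero _
  obtain ⟨g', E', hc, hg', hE'⟩ := Int.exists_gcd_one h0
  have hd : ((Int.gcd g E : ℕ) : ℤ) ≠ 0 := by exact_mod_cast h0.ne'
  generalize ((Int.gcd g E : ℕ) : ℤ) = d at hg' hE' hd
  subst hg' hE'
  by_cases hu : g'.natAbs = 1
  · exact mul_dvd_mul_right ((Int.isUnit_iff_natAbs_eq.2 hu).dvd) d
  exfalso
  obtain ⟨p, hp, hpg⟩ := Int.exists_prime_and_dvd hu
  have hco : IsCoprime g' E' := Int.isCoprime_iff_gcd_eq_one.2 hc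
  have hv : ∀ a, p ∣ v a := by
    refine i3Z hq hp fun f3 c => ?_
    have k1 := key f3 c
    rw [← mul_assoc, mul_dvd_mul_iff_right hd] at k1
    exact hp.dvd_of_dvd_pow (hpg.trans (hco.dvd_of_dvd_mul_right k1))
  have : p ∣ BV u v := by
    unfold BV
    refine dvd_add (dvd_add (dvd_add (dvd_add (dvd_add ?_ ?_) ?_) ?_) ?_)
      (dvd_add (dvd_add (dvd_add (dvd_add ?_ ?_) ?_) ?_) ?_) <;> exact (hv _).mul_left _
  rw [h] at this
  exact hp.not_dvd_one this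

theorem mrel_dot (x y : Fin 16 → ℝ) : |x ⬝ᵥ y| ≤ 16 * ‖x‖ * ‖y‖ := by
  unfold dotProduct
  refine (Finset.abs_sum_le_sum_abs _ _).trans ?_
  have : ∀ i ∈ (Finset.univ : Finset (Fin 16)), |x i * y i| ≤ ‖x‖ * ‖y‖ := fun i _ => by
    rw [abs_mul]
    exact mul_le_mul (norm_le_pi_norm x i) (norm_le_pi_norm y i) (abs_nonneg _) (norm_nonneg _)
  refine (Finset.sum_le_sum this).trans (le_of_eq ?_)
  simp only [Finset.sum_const, Finset.card_univ, Fintype.card_fin, nsmul_eq_mul]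
  push_cast
  ring

theorem mrel_err {a b : Fin 10 → ℝ} {r w : Fin 16 → ℝ} {μ V : ℝ} (ha : ‖a‖ ≤ 6) (hb : ‖b‖ ≤ 6)
    (hr : ‖r‖ ≤ 8 * μ) (hw : ‖w‖ ≤ V) : |r ⬝ᵥ gat a (gam b w)| ≤ 115200 * μ * V := by
  have hV : 0 ≤ V := (norm_nonneg _).trans hw
  have hμ : 0 ≤ 8 * μ := (norm_nonneg _).trans hr
  have h1 : ‖gam b w‖ ≤ 30 * V := by
    refine (norm_gam b w).trans ?_
    calc 5 * ‖b‖ * ‖w‖ ≤ 5 * 6 * V := by gcongr
      _ = 30 * V := by ring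
  have h2 : ‖gat a (gam b w)‖ ≤ 900 * V := by
    refine (norm_gat a _).trans ?_
    calc 5 * ‖a‖ * ‖gam b w‖ ≤ 5 * 6 * (30 * V) := by gcongr
      _ = 900 * V := by ring
  refine (mrel_dot _ _).trans ?_
  calc 16 * ‖r‖ * ‖gat a (gam b w)‖ ≤ 16 * (8 * μ) * (900 * V) := by gcongr
    _ = 115200 * μ * V := by ring

theorem mrel_prod {P Q e e' p ε : ℝ} (hP : |P| ≤ p) (hQ : |Q| ≤ p) (he : |e| ≤ ε)
    (he' : |e'| ≤ ε) : |P * e' + Q * e + e * e'| ≤ 2 * p * ε + ε ^ 2 := by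
  have hp : 0 ≤ p := (abs_nonneg _).trans hP
  have hε : 0 ≤ ε := (abs_nonneg _).trans he
  have h1 : |P * e'| ≤ p * ε := by rw [abs_mul]; gcongr
  have h2 : |Q * e| ≤ p * ε := by rw [abs_mul]; gcongr
  have h3 : |e * e'| ≤ ε * ε := by rw [abs_mul]; gcongr
  have h4 := abs_add_three (P * e') (Q * e) (e * e')
  nlinarith

theorem mrelR : ∃ c : ℝ, 1 ≤ c ∧ ∀ (v : Fin 10 → ℝ) (V : ℝ), qV v = 0 → BdM 4 (KV v) V →
    ‖v‖ ^ 2 * yM (m2 v) ≤ c * V := by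
  obtain ⟨c3, hc3, H3⟩ := i3R
  obtain ⟨a, hab, ha⟩ := exists_rep
  obtain ⟨h1, h2⟩ := ha ℝ
  set C : ℝ := 230400 with hC
  have hC0 : 0 < C := by norm_num [hC]
  refine ⟨288 + 12 * C * c3 + C ^ 2 * c3 ^ 2, by nlinarith [sq_nonneg (C * c3)], ?_⟩
  intro v V hq hV
  have hV0 : 0 ≤ V := (abs_nonneg _).trans (hV (fun _ => 0) id)
  have hm : Ent (m2 v) (12 * ‖v‖) := ent_MM false v
  have hv0 := norm_nonneg v
  have hc30 : 0 ≤ c3 := by linarith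
  by_cases hcase : ‖v‖ ^ 4 ≤ V
  · have hy := yM_le (hm.bdM 2)
    have : ‖v‖ ^ 2 * yM (m2 v) ≤ 288 * V := by
      calc ‖v‖ ^ 2 * yM (m2 v) ≤ ‖v‖ ^ 2 * (((2 : ℕ).factorial : ℝ) * (12 * ‖v‖) ^ 2) := by gcongr
        _ = 288 * ‖v‖ ^ 4 := by norm_num [Nat.factorial]; ring
        _ ≤ 288 * V := by gcongr
    refine this.trans ?_
    have : 0 ≤ 12 * C * c3 + C ^ 2 * c3 ^ 2 := by positivity
    nlinarith
  push Not at hcase
  have hvpos : 0 < ‖v‖ := by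
    rcases hv0.eq_or_lt with h | h
    · rw [← h] at hcase
      norm_num at hcase
      linarith
    · exact h
  obtain ⟨⟨f3, c⟩, hmax⟩ := Finite.exists_max
    (fun x : (Fin 3 → Fin 16) × Fin 4 => |((KV v).submatrix x.1 x.2.succAbove).det|)
  set μ : ℝ := |((KV v).submatrix f3 c.succAbove).det| with hμ
  have hlo : ‖v‖ ^ 3 ≤ c3 * μ := H3 v μ hq fun f b => hmax (f, b)
  have hμ0 : 0 < μ := by
    by_contra hn
    have : μ = 0 := le_antisymm (not_lt.1 hn) (abs_nonneg _)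
    rw [this, mul_zero] at hlo
    have := pow_pos hvpos 3
    linarith
  obtain ⟨κ, hκ, hM⟩ := exists_cross (KV v) f3
  have hκb : ∀ b, |κ b| ≤ μ := fun b => by
    have := hmax (f3, b)
    rcases hκ b with h | h <;> rw [h]
    · exact this
    · rw [abs_neg]; exact this
  have hκc : |κ c| = μ := by
    rcases hκ c with h | h <;> rw [h]
    rw [abs_neg]
  have hκn : ‖κ‖ ≤ μ := (pi_norm_le_iff_of_nonneg hμ0.le).2 hκb
  have hr : ‖(kkM : Matrix (Fin 16) (Fin 4) ℝ) *ᵥ κ‖ ≤ 8 * μ := by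
    refine (norm_mulVec_le (by norm_num) ent_kkM κ).trans ?_
    simp only [Fintype.card_fin]
    push_cast
    linarith
  have hw : ‖KV v *ᵥ κ‖ ≤ V := by
    refine (pi_norm_le_iff_of_nonneg hV0).2 fun i => ?_
    rw [hM]
    exact hV _ _
  have han : ∀ i j, ‖vc ℝ (a i j)‖ ≤ 6 := fun i j => by
    refine (pi_norm_le_iff_of_nonneg (by norm_num)).2 fun k => ?_
    have := hab i j k
    simp only [vc, Real.norm_eq_abs]
    exact_mod_cast this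
  have he : ∀ i j, ∃ e, |e| ≤ C * μ * V ∧
      4 * m2 v i j * κ c ^ 2 = 4 * m2 v c c * κ i * κ j + e := by
    intro i j
    refine ⟨_, ?_, mrel_rel h1 h2 v κ c i j⟩
    refine (abs_sub _ _).trans ?_
    have e1 := mrel_err (han i j) (han c c) hr hw
    have e2 := mrel_err (han c c) (han i j) hr hw
    rw [hC]
    linarith
  choose e heb he using he
  have hP : ∀ i j, |4 * m2 v c c * κ i * κ j| ≤ 48 * ‖v‖ * μ ^ 2 := fun i j => by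
    rw [abs_mul, abs_mul, abs_mul]
    have := hm c c
    calc |(4 : ℝ)| * |m2 v c c| * |κ i| * |κ j| ≤ 4 * (12 * ‖v‖) * μ * μ := by
          rw [abs_of_pos (by norm_num : (0 : ℝ) < 4)]
          gcongr
          exacts [hκb i, hκb j]
      _ = 48 * ‖v‖ * μ ^ 2 := by ring
  have hD : BdM 2 (m2 v) ((12 * C * c3 + C ^ 2 * c3 ^ 2) * V / ‖v‖ ^ 2) := by
    intro f f'
    rw [le_div_iff₀ (by positivity)]
    set D := ((m2 v).submatrix f f').det with hDd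
    have e1 : (4 * m2 v (f 0) (f' 0) * κ c ^ 2) * (4 * m2 v (f 1) (f' 1) * κ c ^ 2) -
        (4 * m2 v (f 0) (f' 1) * κ c ^ 2) * (4 * m2 v (f 1) (f' 0) * κ c ^ 2) = _ := rfl
    conv_rhs at e1 => rw [he (f 0) (f' 0), he (f 1) (f' 1), he (f 0) (f' 1), he (f 1) (f' 0)]
    have e2 : 16 * κ c ^ 4 * D =
        (4 * m2 v c c * κ (f 0) * κ (f' 0) * e (f 1) (f' 1) +
          4 * m2 v c c * κ (f 1) * κ (f' 1) * e (f 0) (f' 0) + e (f 0) (f' 0) * e (f 1) (f' 1)) -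
        (4 * m2 v c c * κ (f 0) * κ (f' 1) * e (f 1) (f' 0) +
          4 * m2 v c c * κ (f 1) * κ (f' 0) * e (f 0) (f' 1) + e (f 0) (f' 1) * e (f 1) (f' 0)) := by
      rw [hDd, mrel_det]
      linear_combination e1
    have b1 := mrel_prod (hP (f 0) (f' 0)) (hP (f 1) (f' 1)) (heb (f 0) (f' 0)) (heb (f 1) (f' 1))
    have b2 := mrel_prod (hP (f 0) (f' 1)) (hP (f 1) (f' 0)) (heb (f 0) (f' 1)) (heb (f 1) (f' 0))
    have e3 : |16 * κ c ^ 4 * D| = 16 * μ ^ 4 * |D| := by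
      rw [abs_mul, abs_mul, abs_pow, hκc, abs_of_pos (by norm_num : (0 : ℝ) < 16)]
    have b3 : 16 * μ ^ 4 * |D| ≤ 2 * (2 * (48 * ‖v‖ * μ ^ 2) * (C * μ * V) + (C * μ * V) ^ 2) := by
      rw [← e3, e2]
      refine (abs_sub _ _).trans ?_
      linarith
    have hD0 := abs_nonneg D
    have b4 : ‖v‖ ^ 2 * V ≤ c3 ^ 2 * μ ^ 2 := by
      calc ‖v‖ ^ 2 * V ≤ ‖v‖ ^ 2 * ‖v‖ ^ 4 := by gcongr
        _ = (‖v‖ ^ 3) ^ 2 := by ring
        _ ≤ (c3 * μ) ^ 2 := by gcongr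
        _ = c3 ^ 2 * μ ^ 2 := by ring
    have b5 : 16 * μ ^ 4 * (|D| * ‖v‖ ^ 2) ≤ 16 * μ ^ 4 * ((12 * C * c3 + C ^ 2 * c3 ^ 2) * V) := by
      calc 16 * μ ^ 4 * (|D| * ‖v‖ ^ 2) = 16 * μ ^ 4 * |D| * ‖v‖ ^ 2 := by ring
        _ ≤ 2 * (2 * (48 * ‖v‖ * μ ^ 2) * (C * μ * V) + (C * μ * V) ^ 2) * ‖v‖ ^ 2 := by gcongr
        _ = 192 * C * μ ^ 3 * V * ‖v‖ ^ 3 + 2 * C ^ 2 * μ ^ 2 * V * (‖v‖ ^ 2 * V) := by ring
        _ ≤ 192 * C * μ ^ 3 * V * (c3 * μ) + 2 * C ^ 2 * μ ^ 2 * V * (c3 ^ 2 * μ ^ 2) := by gcongr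
        _ = 16 * μ ^ 4 * ((12 * C * c3) * V) + 2 * (μ ^ 4 * (C ^ 2 * c3 ^ 2 * V)) := by ring
        _ ≤ 16 * μ ^ 4 * ((12 * C * c3) * V) + 16 * (μ ^ 4 * (C ^ 2 * c3 ^ 2 * V)) := by
          gcongr
          norm_num
        _ = 16 * μ ^ 4 * ((12 * C * c3 + C ^ 2 * c3 ^ 2) * V) := by ring
    exact le_of_mul_le_mul_left b5 (by positivity)
  have hy := yM_le hD
  rw [le_div_iff₀ (by positivity)] at hy
  nlinarith

end Pool.Agent.Lib.MP_af4c59_nt.H57
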