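import Pool.Agent.Lib.MP_af4c59_nt.H57DualR
import Pool.Agent.Lib.MP_af4c59_nt.H57Mrel
import Pool.Agent.Lib.MP_af4c59_nt.H57Pure
import Pool.Agent.Lib.MP_af4c59_nt.H57Nat

/-!
The quadric surface attached to a null vector.
-/

set_option autoImplicit false

namespace Pool.Agent.Lib.MP_af4c59_nt.H57

open Matrix

/-- The quadric surface attached to a null vector, with its lattice and real frame. -/
structure Geom (c t : ℝ) (v : Fin 10 → ℤ) (A : Matrix (Fin 4) (Fin 4) ℤ)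
    (P : Matrix (Fin 4) (Fin 4) ℝ) (ν : Fin 4 → ℝ) (J : Matrix (Fin 16) (Fin 4) ℤ) : Prop where
  symm : A.IsSymm
  diag : mc ℝ A = Pᵀ * Matrix.diagonal ν * P
  detP : P.det ≠ 0
  sorted : ∀ i j, i ≤ j → |ν j| ≤ |ν i|
  span : ∀ s : Fin 16 → ℤ, gam v s = 0 → (∀ j, kk j ⬝ᵥ s = 0) → ∃ ξ, s = J *ᵥ ξ
  mu_eq : ∀ ξ ξ', mu (J *ᵥ ξ) (J *ᵥ ξ') = bf A ξ ξ' • v
  up : ∀ ξ, ‖P *ᵥ vc ℝ ξ‖ ≤ c * ‖tS t (J *ᵥ ξ)‖
  lo : ∀ ξ, ‖tS t (J *ᵥ ξ)‖ ≤ c * ‖P *ᵥ vc ℝ ξ‖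
  area : ∀ ξ ξ', ar (tS t (J *ᵥ ξ)) (tS t (J *ᵥ ξ')) ≤ c * ar (P *ᵥ vc ℝ ξ) (P *ᵥ vc ℝ ξ')
  np : ∀ ξ ξ', NP ξ ξ' → NP (J *ᵥ ξ) (J *ᵥ ξ')
  det_le : |A.det| ≤ |(MK v).det|
  dvd : ∀ k ≤ 4, ∀ d : ℤ, DvdM k A d → DvdM k (MK v) d
  nu0 : |ν 0| * ‖tV t v‖ ≤ c
  cov : |P.det| ≤ c * ‖tV t v‖ ^ 4
  idx : ‖tV t v‖ ^ 2 * yM (m2 (tV t v)) ≤ c * gM (m2 v) * |P.det|
  nu01 : yM (MK (tV t v)) ≤ c * ‖tV t v‖ ^ 4 * |ν 0 * ν 1|

theorem geom_gk {R : Type} [CommRing R] (v : Fin 10 → R) :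
    gatM v * (kkM : Matrix (Fin 16) (Fin 4) R) = KV v := gatM_kkM v

theorem geom_kv {R : Type} [CommRing R] (v : Fin 10 → R) :
    (kkM : Matrix (Fin 16) (Fin 4) R)ᵀ * KV v = MK v := kkM_KV v

theorem geom_mc_KV (v : Fin 10 → ℤ) : mc ℝ (KV v) = KV (vc ℝ v) := by
  rw [← geom_gk, mc_mul, mc_gatM, mc_kkM, geom_gk]

theorem geom_diag_scS (t : ℝ) (x : Fin 16 → ℝ) :
    Matrix.diagonal (fun i => t ^ (-wS i)) *ᵥ x = scS t x := by
  funext i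
  rw [Matrix.mulVec_diagonal]
  rfl

theorem rk4_KV {v : Fin 10 → ℤ} (hq : qV v = 0) (h : Rk 3 (m2 v)) :
    Rk 4 (KV v) := by
  rw [← Rk_mc (R := ℝ), geom_mc_KV]
  by_contra hn
  have hb : BdM 4 (KV (vc ℝ v)) 0 := by
    intro f g
    by_contra hc
    refine hn ⟨f, g, fun h0 => hc ?_⟩
    rw [h0, abs_zero]
  obtain ⟨c, _, hc⟩ := mrelR
  have hq' : qV (vc ℝ v) = 0 := by rw [← cast_qV, hq, Int.cast_zero]
  have h1 := hc _ _ hq' hb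
  have h2 : Rk 2 (m2 (vc ℝ v)) := by
    rw [← mc_m2, Rk_mc]
    exact h.pred
  obtain ⟨f, g, hfg⟩ := h2
  have h3 : 0 < yM (m2 (vc ℝ v)) := lt_of_lt_of_le (abs_pos.2 hfg) (bdM_yM _ f g)
  have h4 : yM (m2 (vc ℝ v)) ≤ 288 * ‖vc ℝ v‖ ^ 2 := yM_MM_le false (vc ℝ v)
  have h5 : 0 < ‖vc ℝ v‖ ^ 2 := by linarith
  have h6 := mul_pos h5 h3
  linarith

theorem beta_le {t : ℝ} (ht : t ≠ 0) {u v : Fin 10 → ℤ} (h : BV u v = 1) (hq : qV v = 0)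
    (x y : Fin 16 → ℝ) (hx : mc ℝ (gatM v * gamM u) *ᵥ x = x)
    (hy : mc ℝ (gatM v * gamM u) *ᵥ y = y) :
    ‖tV t v‖ * |bf (mc ℝ (gamM u)) x y| ≤
      8 * ‖Matrix.diagonal (fun i => t ^ (-wS i)) *ᵥ x‖ *
        ‖Matrix.diagonal (fun i => t ^ (-wS i)) *ᵥ y‖ := by
  have h' : BV (vc ℝ u) (vc ℝ v) = 1 := by rw [← cast_BV, h, Int.cast_one]
  have hq' : qV (vc ℝ v) = 0 := by rw [← cast_qV, hq, Int.cast_zero]
  rw [mc_mul, mc_gatM, mc_gamM, proj_iff h' hq'] at hx hy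
  have h1 := mu_eq_smul h' hx hy
  have h2 := norm_mu (scS t x) (scS t y)
  rw [mu_sc ht, h1, scV_smul, norm_smul, Real.norm_eq_abs] at h2
  rw [geom_diag_scS, geom_diag_scS, mc_gamM, bf, gamM_mulVec, mul_comm]
  exact h2

theorem geom_pair {ν : Fin 4 → ℝ} (h : ∀ i j, i ≤ j → |ν j| ≤ |ν i|) {a b : Fin 4} (hab : a ≠ b) :
    |ν a * ν b| ≤ |ν 0 * ν 1| := by
  have key : ∀ a b : Fin 4, a < b → |ν a * ν b| ≤ |ν 0 * ν 1| := by
    intro a b hlt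
    rw [abs_mul, abs_mul]
    refine mul_le_mul (h 0 a (Fin.zero_le a)) (h 1 b ?_) (abs_nonneg _) (abs_nonneg _)
    have h1 : a.val < b.val := hlt
    exact Fin.le_def.2 (by simp only [Fin.val_one]; omega)
  rcases lt_or_gt_of_ne hab with hlt | hlt
  · exact key a b hlt
  · rw [mul_comm]
    exact key b a hlt

theorem geom_bd_diag {ν : Fin 4 → ℝ} (h : ∀ i j, i ≤ j → |ν j| ≤ |ν i|) :
    BdM 2 (Matrix.diagonal ν) |ν 0 * ν 1| := by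
  intro f g
  rw [Matrix.det_fin_two]
  simp only [Matrix.submatrix_apply]
  by_cases hf : f 0 = f 1
  · rw [hf, mul_comm, sub_self, abs_zero]
    exact abs_nonneg _
  · have hp := geom_pair h hf
    by_cases h0 : f 0 = g 0
    · have h1 : f 1 ≠ g 0 := fun e => hf (h0.trans e.symm)
      rw [Matrix.diagonal_apply_ne _ h1, mul_zero, sub_zero, ← h0, Matrix.diagonal_apply_eq]
      by_cases h2 : f 1 = g 1
      · rw [← h2, Matrix.diagonal_apply_eq]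
        exact hp
      · rw [Matrix.diagonal_apply_ne _ h2, mul_zero, abs_zero]
        exact abs_nonneg _
    · rw [Matrix.diagonal_apply_ne _ h0, zero_mul, zero_sub, abs_neg]
      by_cases h1 : f 0 = g 1
      · by_cases h2 : f 1 = g 0
        · rw [← h1, ← h2, Matrix.diagonal_apply_eq, Matrix.diagonal_apply_eq]
          exact hp
        · rw [Matrix.diagonal_apply_ne _ h2, mul_zero, abs_zero]
          exact abs_nonneg _
      · rw [Matrix.diagonal_apply_ne _ h1, zero_mul, abs_zero]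
        exact abs_nonneg _

theorem bdM_diag {U : Matrix (Fin 4) (Fin 4) ℝ} (hU : Ent U 1) {ν : Fin 4 → ℝ}
    (h : ∀ i j, i ≤ j → |ν j| ≤ |ν i|) :
    BdM 2 (Uᵀ * Matrix.diagonal ν * U) (256 * |ν 0 * ν 1|) := by
  have h1 := (geom_bd_diag h).mul_left zero_le_one (abs_nonneg _) hU.transpose
  have h2 := h1.mul_right zero_le_one (by positivity) hU
  intro f g
  refine (h2 f g).trans (le_of_eq ?_)
  simp only [Fintype.card_fin]
  norm_num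
  ring

theorem geom_gatM {t : ℝ} (ht : t ≠ 0) (v : Fin 10 → ℤ) :
    gatM (tV t v) = Matrix.diagonal (fun i => t ^ (-wS i)) * mc ℝ (gatM v) *
      Matrix.diagonal (fun i => t ^ (-wS i)) := by
  ext i j
  rw [Matrix.mul_diagonal, Matrix.diagonal_mul, mc_gatM, tV, gatM_sc ht]

theorem geom_kk {t : ℝ} (ht : t ≠ 0) :
    Matrix.diagonal (fun i => t ^ (-wS i)) * (kkM : Matrix (Fin 16) (Fin 4) ℝ) =
      mc ℝ kkM * Matrix.diagonal (fun j => t ^ (-wK j)) := by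
  ext i j
  rw [Matrix.mul_diagonal, Matrix.diagonal_mul, mc_kkM]
  exact (kk_sc ht i j).symm

theorem geom_prod {t : ℝ} (ht : t ≠ 0) : ∏ j, t ^ (-wK j) = 1 := by
  rw [Fin.prod_univ_four]
  simp only [wK_c, neg_neg, _root_.zpow_neg, zpow_one]
  field_simp

theorem geom_tS (t : ℝ) (J : Matrix (Fin 16) (Fin 4) ℤ) (ξ : Fin 4 → ℤ) :
    tS t (J *ᵥ ξ) = (Matrix.diagonal (fun i => t ^ (-wS i)) * mc ℝ J) *ᵥ vc ℝ ξ := by
  rw [← Matrix.mulVec_mulVec, geom_diag_scS, tS, vc_mulVec]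

theorem geom_sub_le (M : Matrix (Fin 16) (Fin 4) ℝ) (f : Fin 4 → Fin 16) (x : Fin 4 → ℝ) :
    ‖M.submatrix f id *ᵥ x‖ ≤ ‖M *ᵥ x‖ :=
  (pi_norm_le_iff_of_nonneg (norm_nonneg _)).2 fun i => norm_le_pi_norm (M *ᵥ x) (f i)

theorem geom_nu {U A' : Matrix (Fin 4) (Fin 4) ℝ} {ν : Fin 4 → ℝ} {a : ℝ} (hUU : U * Uᵀ = 1)
    (hU : Ent U 1) (hA : A' = Uᵀ * Matrix.diagonal ν * U) (ha : 0 ≤ a) (hE : Ent A' a) :
    |ν 0| ≤ 16 * a := by
  have h1 : U * A' * Uᵀ = Matrix.diagonal ν := by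
    rw [hA, ← Matrix.mul_assoc, ← Matrix.mul_assoc, hUU, Matrix.one_mul, Matrix.mul_assoc, hUU,
      Matrix.mul_one]
  have h2 := Ent.mul (by positivity) (Ent.mul zero_le_one hU hE) hU.transpose 0 0
  rw [h1, Matrix.diagonal_apply_eq] at h2
  simp only [Fintype.card_fin] at h2
  push_cast at h2
  linarith

theorem geom_detG {u v : Fin 10 → ℤ} (h : BV u v = 1) (hq : qV v = 0) (hr : Rk 3 (m2 v)) {g : ℤ}
    (hg : DvdM 4 (KV v) g) : |(g : ℝ)| ≤ 16 * (gM (m2 v) : ℝ) := by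
  have h1 : g ∣ 16 * (gM (m2 v) : ℤ) := dvd_mul_gM fun f f' => mrelZ h hq hg f f'
  have h2 : (0 : ℤ) < gM (m2 v) := by exact_mod_cast gM_pos hr.pred
  have h3 : |g| ≤ 16 * (gM (m2 v) : ℤ) := Int.le_of_dvd (by linarith) ((abs_dvd _ _).2 h1)
  exact_mod_cast h3

theorem geom : ∃ c : ℝ, 1 ≤ c ∧ ∀ (t : ℝ) (u v : Fin 10 → ℤ), 1 ≤ t → BV u v = 1 → qV v = 0 →
    Rk 3 (m2 v) → ∃ A P ν J, Geom c t v A P ν J := by
  obtain ⟨c1, hc1, hR⟩ := dualR 8 (by norm_num)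
  obtain ⟨c2, hc2, hM⟩ := mrelR
  have h12 : 1 ≤ c1 * c2 := one_le_mul_of_one_le_of_one_le hc1 hc2
  have h1c : c1 ≤ c1 * c2 := le_mul_of_one_le_right (by linarith) hc2
  refine ⟨256 * (c1 * c2), by linarith, fun t u v ht huv hq hr => ?_⟩
  have ht0 : t ≠ 0 := by linarith
  have hv : v ≠ 0 := by
    rintro rfl
    simp [BV] at huv
  have hT : 0 < ‖tV t v‖ := by
    refine lt_of_le_of_ne (norm_nonneg _) fun h0 => ?_
    have := tV_lo ht hv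
    rw [← h0] at this
    linarith
  obtain ⟨J, Lf, H, G, hD⟩ := dualZ (gatM_symm v) (gamM_symm u) (gat_gam_gat huv hq)
    (by rw [trace_gatM_gamM, huv]; norm_num) (K := kkM) (by rw [geom_gk]; exact rk4_KV hq hr)
  obtain ⟨f, R, P, A', hP, hdet, hRe, hJ, hA's, hA', hE, hcov, hB4, hB2⟩ :=
    hR (gatM v) (gamM u) kkM J Lf H G (fun i => t ^ (-wS i)) (fun j => t ^ (-wK j)) ‖tV t v‖
      (gatM (tV t v)) kkM hD (fun i => zpow_ne_zero _ ht0) (geom_prod ht0) hT (geom_gatM ht0 v)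
      (geom_kk ht0) (fun i j => (ent_gatM _ i j).trans (by linarith))
      (fun i j => (ent_kkM i j).trans (by norm_num)) (beta_le ht0 huv hq)
  obtain ⟨U, ν, hUU, hUU', hU, hA, hs⟩ := spec A' hA's
  have hdU : |U.det| = 1 := by
    have h1 := congrArg Matrix.det hUU
    rw [Matrix.det_mul, Matrix.det_transpose, Matrix.det_one] at h1
    rcases mul_self_eq_one_iff.1 h1 with h2 | h2 <;> rw [h2] <;> simp
  have hdP : |(U * P).det| = |P.det| := by rw [Matrix.det_mul, abs_mul, hdU, one_mul]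
  have hw : ∀ ξ, tS t (J.toCols₁ *ᵥ ξ) = (R * Uᵀ) *ᵥ ((U * P) *ᵥ vc ℝ ξ) := fun ξ => by
    rw [geom_tS, hJ, Matrix.mulVec_mulVec, Matrix.mul_assoc, ← Matrix.mul_assoc Uᵀ, hUU,
      Matrix.one_mul]
  have hRU : Ent (R * Uᵀ) 4 := fun i j => by
    have h1 := Ent.mul zero_le_one hRe hU.transpose i j
    simpa using h1
  have hker : ∀ ξ, gam v (J.toCols₁ *ᵥ ξ) = 0 := fun ξ => by
    rw [← proj_iff huv hq, Matrix.mulVec_mulVec, hD.mem1]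
  have hqT : qV (tV t v) = 0 := by rw [tV, qV_sc ht0, ← cast_qV, hq, Int.cast_zero]
  refine ⟨J.toCols₁ᵀ * gamM u * J.toCols₁, U * P, ν, J.toCols₁, ?_, ?_, ?_, hs, ?_, ?_, ?_, ?_, ?_,
    ?_, ?_, ?_, ?_, ?_, ?_, ?_⟩
  · rw [Matrix.IsSymm, Matrix.transpose_mul, Matrix.transpose_mul, Matrix.transpose_transpose,
      (gamM_symm u).eq, Matrix.mul_assoc]
  · rw [hA', hA, Matrix.transpose_mul]
    simp only [Matrix.mul_assoc]
  · rw [← abs_ne_zero, hdP, abs_ne_zero]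
    exact hdet
  · intro s hs1 hs2
    exact hD.span s ((proj_iff huv hq s).2 hs1) (funext hs2)
  · intro ξ ξ'
    rw [mu_eq_smul huv (hker ξ) (hker ξ'), bf_conj, bf, gamM_mulVec]
  · intro ξ
    have h1 := norm_mulVec_le zero_le_one hU (P *ᵥ vc ℝ ξ)
    have h2 : ‖P *ᵥ vc ℝ ξ‖ ≤ ‖tS t (J.toCols₁ *ᵥ ξ)‖ := by
      rw [geom_tS, hP]
      exact geom_sub_le _ f _
    simp only [Fintype.card_fin] at h1
    push_cast at h1
    rw [← Matrix.mulVec_mulVec]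
    nlinarith [norm_nonneg (tS t (J.toCols₁ *ᵥ ξ))]
  · intro ξ
    have h1 := norm_mulVec_le (by norm_num) hRU ((U * P) *ᵥ vc ℝ ξ)
    simp only [Fintype.card_fin] at h1
    push_cast at h1
    rw [hw]
    nlinarith [norm_nonneg ((U * P) *ᵥ vc ℝ ξ)]
  · intro ξ ξ'
    have h1 := ar_mulVec (by norm_num) hRU ((U * P) *ᵥ vc ℝ ξ) ((U * P) *ᵥ vc ℝ ξ')
    simp only [Fintype.card_fin] at h1
    push_cast at h1
    rw [hw, hw]
    nlinarith [ar_nonneg ((U * P) *ᵥ vc ℝ ξ) ((U * P) *ᵥ vc ℝ ξ')]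
  · intro ξ ξ' hn
    rw [← NP_vc (R := ℝ), vc_mulVec, vc_mulVec]
    refine NP_mulVec (Q := mc ℝ Lf.toRows₁) ?_ (NP_vc.2 hn)
    rw [← mc_mul, hD.linv1, mc_one]
  · have h1 := hD.det_le
    rwa [geom_gk, geom_kv] at h1
  · intro k hk d hd
    have h1 := hD.dvdM hk hd
    rwa [geom_gk, geom_kv] at h1
  · have h1 := geom_nu hUU' hU hA (by positivity) hE
    rw [← mul_div_assoc, le_div_iff₀ hT] at h1
    linarith
  · rw [hdP]
    nlinarith [pow_pos hT 4]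
  · rw [geom_gk] at hB4
    have h1 := hM _ _ hqT hB4
    have h2 := hD.dvd4
    rw [geom_gk] at h2
    have h3 := geom_detG huv hq hr h2
    have h4 : |((G.det : ℤ) : ℝ)| * |P.det| ≤ 16 * (gM (m2 v) : ℝ) * |P.det| :=
      mul_le_mul_of_nonneg_right h3 (abs_nonneg _)
    have h5 := mul_le_mul_of_nonneg_left h4 (by linarith : 0 ≤ c1 * c2)
    have h6 : 0 ≤ c1 * c2 * ((gM (m2 v) : ℝ) * |P.det|) := by positivity
    rw [hdP]
    linarith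
  · have h1 := hB2 _ (by rw [hA]; exact bdM_diag hU hs)
    rw [geom_gk, geom_kv] at h1
    have h2 := yM_le h1
    have h3 : 0 ≤ ‖tV t v‖ ^ 4 * |ν 0 * ν 1| := by positivity
    have h4 := mul_le_mul_of_nonneg_right h1c h3
    linarith

end Pool.Agent.Lib.MP_af4c59_nt.H57
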