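import Pool.Agent.Lib.MP_af4c59_nt.H57Scale
import Pool.Agent.Lib.MP_af4c59_nt.H57Lin

/-!
The rank of the four odd spinors modulo a null vector.
-/

set_option autoImplicit false

namespace Pool.Agent.Lib.MP_af4c59_nt.H57

open Matrix

section

variable {R : Type} [CommRing R]

theorem KV_c (v : Fin 10 → R) :
    KV v 0 0 = 0 ∧
    KV v 0 1 = 0 ∧
    KV v 0 2 = v 5 ∧
    KV v 0 3 = -2 * v 5 + v 7 ∧
    KV v 1 0 = 0 ∧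
    KV v 1 1 = 0 ∧
    KV v 1 2 = v 6 + v 7 ∧
    KV v 1 3 = -v 5 - v 6 - v 7 ∧
    KV v 2 0 = -v 6 ∧
    KV v 2 1 = -v 7 ∧
    KV v 2 2 = -v 3 ∧
    KV v 2 3 = 2 * v 3 - v 9 ∧
    KV v 3 0 = v 6 + v 7 ∧
    KV v 3 1 = v 7 ∧
    KV v 3 2 = -v 4 ∧
    KV v 3 3 = 2 * v 4 + v 8 ∧
    KV v 4 0 = v 5 ∧
    KV v 4 1 = 0 ∧
    KV v 4 2 = v 9 ∧
    KV v 4 3 = -v 9 ∧
    KV v 5 0 = -v 5 ∧
    KV v 5 1 = v 7 ∧
    KV v 5 2 = -v 8 ∧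
    KV v 5 3 = v 8 ∧
    KV v 6 0 = 0 ∧
    KV v 6 1 = v 5 ∧
    KV v 6 2 = v 9 ∧
    KV v 6 3 = -v 3 - v 9 ∧
    KV v 7 0 = -v 5 ∧
    KV v 7 1 = -v 5 - v 6 ∧
    KV v 7 2 = -v 8 ∧
    KV v 7 3 = -v 4 + v 8 ∧
    KV v 8 0 = v 8 - v 9 ∧
    KV v 8 1 = 0 ∧
    KV v 8 2 = -v 1 ∧
    KV v 8 3 = 2 * v 1 ∧
    KV v 9 0 = -v 9 ∧
    KV v 9 1 = v 8 - v 9 ∧
    KV v 9 2 = -v 2 ∧
    KV v 9 3 = v 0 + 2 * v 2 ∧
    KV v 10 0 = 0 ∧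
    KV v 10 1 = -v 9 ∧
    KV v 10 2 = 0 ∧
    KV v 10 3 = v 1 ∧
    KV v 11 0 = -v 3 - v 4 ∧
    KV v 11 1 = 0 ∧
    KV v 11 2 = v 0 ∧
    KV v 11 3 = -v 0 + v 1 ∧
    KV v 12 0 = -v 3 ∧
    KV v 12 1 = -v 3 - v 4 ∧
    KV v 12 2 = v 0 ∧
    KV v 12 3 = -v 0 + v 2 ∧
    KV v 13 0 = 0 ∧
    KV v 13 1 = -v 3 ∧
    KV v 13 2 = v 1 - v 2 ∧
    KV v 13 3 = -v 1 + v 2 ∧
    KV v 14 0 = v 2 ∧
    KV v 14 1 = -v 1 ∧
    KV v 14 2 = 0 ∧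
    KV v 14 3 = 0 ∧
    KV v 15 0 = v 1 - v 2 ∧
    KV v 15 1 = -v 0 + v 1 ∧
    KV v 15 2 = 0 ∧
    KV v 15 3 = 0 := by
  simp only [KV, of_apply, gat_c, kk_c]
  refine ⟨?_, ?_, ?_, ?_, ?_, ?_, ?_, ?_, ?_, ?_, ?_, ?_, ?_, ?_, ?_, ?_, ?_, ?_, ?_, ?_, ?_, ?_, ?_, ?_, ?_, ?_, ?_, ?_, ?_, ?_, ?_, ?_, ?_, ?_, ?_, ?_, ?_, ?_, ?_, ?_, ?_, ?_, ?_, ?_, ?_, ?_, ?_, ?_, ?_, ?_, ?_, ?_, ?_, ?_, ?_, ?_, ?_, ?_, ?_, ?_, ?_, ?_, ?_, ?_⟩ <;> ring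

/-- A three by three minor. -/
def mn3 (v : Fin 10 → R) (i j k : Fin 16) (b : Fin 4) : R :=
  ((KV v).submatrix ![i, j, k] b.succAbove).det

theorem sa_c : (0 : Fin 4).succAbove 0 = 1 ∧ (0 : Fin 4).succAbove 1 = 2 ∧ (0 : Fin 4).succAbove 2 = 3 ∧ (1 : Fin 4).succAbove 0 = 0 ∧ (1 : Fin 4).succAbove 1 = 2 ∧ (1 : Fin 4).succAbove 2 = 3 ∧ (2 : Fin 4).succAbove 0 = 0 ∧ (2 : Fin 4).succAbove 1 = 1 ∧ (2 : Fin 4).succAbove 2 = 3 ∧ (3 : Fin 4).succAbove 0 = 0 ∧ (3 : Fin 4).succAbove 1 = 1 ∧ (3 : Fin 4).succAbove 2 = 2 := by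
  decide

theorem cube0 (v : Fin 10 → R) :
    v 0 ^ 3 = (1) * mn3 v 9 11 15 0 + (1) * mn3 v 8 9 15 0 + (1) * mn3 v 12 14 15 3 + (-1) * mn3 v 8 10 14 1 := by
  simp only [mn3, det_fin_three, submatrix_apply, sa_c, cons_val_zero, cons_val_one, cons_val_two,
    vecHead, vecTail, Function.comp_apply, Fin.succ_zero_eq_one, KV_c]
  ring

theorem cube1 (v : Fin 10 → R) :
    v 1 ^ 3 = (1) * mn3 v 8 10 14 0 := by
  simp only [mn3, det_fin_three, submatrix_apply, sa_c, cons_val_zero, cons_val_one, cons_val_two,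
    vecHead, vecTail, Function.comp_apply, Fin.succ_zero_eq_one, KV_c]
  ring

theorem cube2 (v : Fin 10 → R) :
    v 2 ^ 3 = (1) * mn3 v 12 13 14 1 + (-1) * mn3 v 9 10 14 1 := by
  simp only [mn3, det_fin_three, submatrix_apply, sa_c, cons_val_zero, cons_val_one, cons_val_two,
    vecHead, vecTail, Function.comp_apply, Fin.succ_zero_eq_one, KV_c]
  ring

theorem cube3 (v : Fin 10 → R) :
    v 3 ^ 3 = (-1) * mn3 v 2 12 13 3 + (-v 0 * v 3 * v 6 + v 1 * v 3 * v 6 - v 1 * v 3 * v 7 + v 1 * v 4 * v 6 - v 2 * v 3 * v 6 + v 2 * v 3 * v 7 - v 2 * v 4 * v 6) := by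
  simp only [mn3, det_fin_three, submatrix_apply, sa_c, cons_val_zero, cons_val_one, cons_val_two,
    vecHead, vecTail, Function.comp_apply, Fin.succ_zero_eq_one, KV_c]
  ring

theorem cube4 (v : Fin 10 → R) :
    v 4 ^ 3 = (-1) * mn3 v 3 11 12 3 + (2) * mn3 v 3 11 13 3 + (-1) * mn3 v 3 12 13 3 + (v 0 * v 4 * v 6 + 2 * v 0 * v 4 * v 7 - v 1 * v 3 * v 6 - 2 * v 1 * v 3 * v 7 - v 1 * v 4 * v 6 - 3 * v 1 * v 4 * v 7 + v 2 * v 3 * v 6 + 2 * v 2 * v 3 * v 7 + v 2 * v 4 * v 6 + 3 * v 2 * v 4 * v 7) := by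
  simp only [mn3, det_fin_three, submatrix_apply, sa_c, cons_val_zero, cons_val_one, cons_val_two,
    vecHead, vecTail, Function.comp_apply, Fin.succ_zero_eq_one, KV_c]
  ring

theorem cube5 (v : Fin 10 → R) :
    v 5 ^ 3 = (1) * mn3 v 0 6 7 3 := by
  simp only [mn3, det_fin_three, submatrix_apply, sa_c, cons_val_zero, cons_val_one, cons_val_two,
    vecHead, vecTail, Function.comp_apply, Fin.succ_zero_eq_one, KV_c]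
  ring

theorem cube6 (v : Fin 10 → R) :
    v 6 ^ 3 = (1) * mn3 v 1 2 5 3 + (-2) * mn3 v 0 2 5 3 + (2) * mn3 v 0 3 4 3 + (1) * mn3 v 1 2 3 3 + (1) * mn3 v 1 2 7 3 + (1) * mn3 v 1 2 6 3 + (-1) * mn3 v 0 2 3 2 := by
  simp only [mn3, det_fin_three, submatrix_apply, sa_c, cons_val_zero, cons_val_one, cons_val_two,
    vecHead, vecTail, Function.comp_apply, Fin.succ_zero_eq_one, KV_c]
  ring

theorem cube7 (v : Fin 10 → R) :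
    v 7 ^ 3 = (1) * mn3 v 0 2 3 2 + (2) * mn3 v 0 2 3 3 := by
  simp only [mn3, det_fin_three, submatrix_apply, sa_c, cons_val_zero, cons_val_one, cons_val_two,
    vecHead, vecTail, Function.comp_apply, Fin.succ_zero_eq_one, KV_c]
  ring

theorem cube8 (v : Fin 10 → R) :
    v 8 ^ 3 = (1) * mn3 v 5 8 9 2 + (1) * mn3 v 5 9 10 2 + (2) * mn3 v 5 8 10 3 + (v 0 * v 5 * v 9 + v 0 * v 7 * v 8 - v 0 * v 7 * v 9 - v 1 * v 5 * v 8 - v 1 * v 5 * v 9 + v 1 * v 7 * v 9 + 2 * v 2 * v 5 * v 9 + 2 * v 2 * v 7 * v 8 - 2 * v 2 * v 7 * v 9) := by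
  simp only [mn3, det_fin_three, submatrix_apply, sa_c, cons_val_zero, cons_val_one, cons_val_two,
    vecHead, vecTail, Function.comp_apply, Fin.succ_zero_eq_one, KV_c]
  ring

theorem cube9 (v : Fin 10 → R) :
    v 9 ^ 3 = (1) * mn3 v 6 9 10 3 := by
  simp only [mn3, det_fin_three, submatrix_apply, sa_c, cons_val_zero, cons_val_one, cons_val_two,
    vecHead, vecTail, Function.comp_apply, Fin.succ_zero_eq_one, KV_c]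
  ring

end

theorem i3Z {v : Fin 10 → ℤ} (_hq : qV v = 0) {p : ℤ} (hp : Prime p)
    (h : ∀ (f : Fin 3 → Fin 16) (b : Fin 4), p ∣ ((KV v).submatrix f b.succAbove).det)
    (a : Fin 10) : p ∣ v a := by
  have h' : ∀ i j k b, p ∣ mn3 v i j k b := fun i j k b => h _ b
  have h0 : p ∣ v 0 := hp.dvd_of_dvd_pow (n := 3) (by
    rw [cube0]
    repeat (first | exact Dvd.dvd.mul_left (h' _ _ _ _) _ | refine dvd_add ?_ ?_))
  have h1 : p ∣ v 1 := hp.dvd_of_dvd_pow (n := 3) (by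
    rw [cube1]
    repeat (first | exact Dvd.dvd.mul_left (h' _ _ _ _) _ | refine dvd_add ?_ ?_))
  have h2 : p ∣ v 2 := hp.dvd_of_dvd_pow (n := 3) (by
    rw [cube2]
    repeat (first | exact Dvd.dvd.mul_left (h' _ _ _ _) _ | refine dvd_add ?_ ?_))
  have h5 : p ∣ v 5 := hp.dvd_of_dvd_pow (n := 3) (by
    rw [cube5]
    repeat (first | exact Dvd.dvd.mul_left (h' _ _ _ _) _ | refine dvd_add ?_ ?_))
  have h6 : p ∣ v 6 := hp.dvd_of_dvd_pow (n := 3) (by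
    rw [cube6]
    repeat (first | exact Dvd.dvd.mul_left (h' _ _ _ _) _ | refine dvd_add ?_ ?_))
  have h7 : p ∣ v 7 := hp.dvd_of_dvd_pow (n := 3) (by
    rw [cube7]
    repeat (first | exact Dvd.dvd.mul_left (h' _ _ _ _) _ | refine dvd_add ?_ ?_))
  have h9 : p ∣ v 9 := hp.dvd_of_dvd_pow (n := 3) (by
    rw [cube9]
    repeat (first | exact Dvd.dvd.mul_left (h' _ _ _ _) _ | refine dvd_add ?_ ?_))
  have h3 : p ∣ v 3 := hp.dvd_of_dvd_pow (n := 3) (by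
    rw [cube3]
    refine dvd_add ?_ ?_
    · repeat (first | exact Dvd.dvd.mul_left (h' _ _ _ _) _ | refine dvd_add ?_ ?_)
    · obtain ⟨a0, e0⟩ := h0
      obtain ⟨a1, e1⟩ := h1
      obtain ⟨a2, e2⟩ := h2
      rw [e0, e1, e2]
      exact ⟨-a0 * v 3 * v 6 + a1 * v 3 * v 6 - a1 * v 3 * v 7 + a1 * v 4 * v 6 - a2 * v 3 * v 6 + a2 * v 3 * v 7 - a2 * v 4 * v 6, by ring⟩)
  have h4 : p ∣ v 4 := hp.dvd_of_dvd_pow (n := 3) (by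
    rw [cube4]
    refine dvd_add ?_ ?_
    · repeat (first | exact Dvd.dvd.mul_left (h' _ _ _ _) _ | refine dvd_add ?_ ?_)
    · obtain ⟨a0, e0⟩ := h0
      obtain ⟨a1, e1⟩ := h1
      obtain ⟨a2, e2⟩ := h2
      rw [e0, e1, e2]
      exact ⟨a0 * v 4 * v 6 + 2 * a0 * v 4 * v 7 - a1 * v 3 * v 6 - 2 * a1 * v 3 * v 7 - a1 * v 4 * v 6 - 3 * a1 * v 4 * v 7 + a2 * v 3 * v 6 + 2 * a2 * v 3 * v 7 + a2 * v 4 * v 6 + 3 * a2 * v 4 * v 7, by ring⟩)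
  have h8 : p ∣ v 8 := hp.dvd_of_dvd_pow (n := 3) (by
    rw [cube8]
    refine dvd_add ?_ ?_
    · repeat (first | exact Dvd.dvd.mul_left (h' _ _ _ _) _ | refine dvd_add ?_ ?_)
    · obtain ⟨a0, e0⟩ := h0
      obtain ⟨a1, e1⟩ := h1
      obtain ⟨a2, e2⟩ := h2
      rw [e0, e1, e2]
      exact ⟨a0 * v 5 * v 9 + a0 * v 7 * v 8 - a0 * v 7 * v 9 - a1 * v 5 * v 8 - a1 * v 5 * v 9 + a1 * v 7 * v 9 + 2 * a2 * v 5 * v 9 + 2 * a2 * v 7 * v 8 - 2 * a2 * v 7 * v 9, by ring⟩)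
  revert a
  exact all10 h0 h1 h2 h3 h4 h5 h6 h7 h8 h9

theorem i3_b1 {x y z m n : ℝ} (hx : |x| ≤ m) (hy : |y| ≤ m) (hz : |z| ≤ n) :
    |x * y * z| ≤ m * m * n := by
  have hm : 0 ≤ m := (abs_nonneg _).trans hx
  rw [abs_mul, abs_mul]
  gcongr

theorem i3_b2 {x y z m n : ℝ} (hx : |x| ≤ m) (hy : |y| ≤ n) (hz : |z| ≤ m) :
    |x * y * z| ≤ m * m * n := by
  rw [mul_right_comm]
  exact i3_b1 hx hz hy

theorem i3R : ∃ c : ℝ, 1 ≤ c ∧ ∀ (v : Fin 10 → ℝ) (μ : ℝ), qV v = 0 →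
    (∀ (f : Fin 3 → Fin 16) (b : Fin 4), |((KV v).submatrix f b.succAbove).det| ≤ μ) →
    ‖v‖ ^ 3 ≤ c * μ := by
  refine ⟨1944, by norm_num, fun v μ _ h => ?_⟩
  have h' : ∀ i j k b, |mn3 v i j k b| ≤ μ := fun i j k b => h _ b
  have hμ : 0 ≤ μ := (abs_nonneg _).trans (h' 0 0 0 0)
  have hn : ∀ a, |v a| ≤ ‖v‖ := fun a => by simpa using norm_le_pi_norm v a
  have h0 : |v 0| ^ 3 ≤ 9 * μ := by
    rw [← abs_pow, cube0, abs_le]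
    have d0 := abs_le.1 (h' 9 11 15 0)
    have d1 := abs_le.1 (h' 8 9 15 0)
    have d2 := abs_le.1 (h' 12 14 15 3)
    have d3 := abs_le.1 (h' 8 10 14 1)
    constructor <;> linarith [d0.1, d0.2, d1.1, d1.2, d2.1, d2.2, d3.1, d3.2]
  have h1 : |v 1| ^ 3 ≤ 9 * μ := by
    rw [← abs_pow, cube1, abs_le]
    have d0 := abs_le.1 (h' 8 10 14 0)
    constructor <;> linarith [d0.1, d0.2]
  have h2 : |v 2| ^ 3 ≤ 9 * μ := by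
    rw [← abs_pow, cube2, abs_le]
    have d0 := abs_le.1 (h' 12 13 14 1)
    have d1 := abs_le.1 (h' 9 10 14 1)
    constructor <;> linarith [d0.1, d0.2, d1.1, d1.2]
  have h5 : |v 5| ^ 3 ≤ 9 * μ := by
    rw [← abs_pow, cube5, abs_le]
    have d0 := abs_le.1 (h' 0 6 7 3)
    constructor <;> linarith [d0.1, d0.2]
  have h6 : |v 6| ^ 3 ≤ 9 * μ := by
    rw [← abs_pow, cube6, abs_le]
    have d0 := abs_le.1 (h' 1 2 5 3)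
    have d1 := abs_le.1 (h' 0 2 5 3)
    have d2 := abs_le.1 (h' 0 3 4 3)
    have d3 := abs_le.1 (h' 1 2 3 3)
    have d4 := abs_le.1 (h' 1 2 7 3)
    have d5 := abs_le.1 (h' 1 2 6 3)
    have d6 := abs_le.1 (h' 0 2 3 2)
    constructor <;> linarith [d0.1, d0.2, d1.1, d1.2, d2.1, d2.2, d3.1, d3.2, d4.1, d4.2, d5.1, d5.2, d6.1, d6.2]
  have h7 : |v 7| ^ 3 ≤ 9 * μ := by
    rw [← abs_pow, cube7, abs_le]
    have d0 := abs_le.1 (h' 0 2 3 2)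
    have d1 := abs_le.1 (h' 0 2 3 3)
    constructor <;> linarith [d0.1, d0.2, d1.1, d1.2]
  have h9 : |v 9| ^ 3 ≤ 9 * μ := by
    rw [← abs_pow, cube9, abs_le]
    have d0 := abs_le.1 (h' 6 9 10 3)
    constructor <;> linarith [d0.1, d0.2]
  obtain ⟨m, hm0, hm⟩ : ∃ m : ℝ, 0 ≤ m ∧ m ^ 3 = 9 * μ :=
    ⟨(9 * μ) ^ ((3 : ℕ) : ℝ)⁻¹, by positivity, Real.rpow_inv_natCast_pow (by positivity) (by norm_num)⟩
  have key : ∀ x : ℝ, |x| ^ 3 ≤ 9 * μ → |x| ≤ m := fun x hx =>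
    le_of_pow_le_pow_left₀ (n := 3) (by norm_num) hm0 (by rw [hm]; exact hx)
  have m0 := key _ h0
  have m1 := key _ h1
  have m2 := key _ h2
  have m5 := key _ h5
  have m6 := key _ h6
  have m7 := key _ h7
  have hP : 0 ≤ m * m * ‖v‖ := by positivity
  have h3 : |v 3| ^ 3 ≤ 4 * μ + 17 * (m * m * ‖v‖) := by
    rw [← abs_pow, cube3, abs_le]
    have d0 := abs_le.1 (h' 2 12 13 3)
    have t0 := abs_le.1 (i3_b2 m0 (hn 3) m6)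
    have t1 := abs_le.1 (i3_b2 m1 (hn 3) m6)
    have t2 := abs_le.1 (i3_b2 m1 (hn 3) m7)
    have t3 := abs_le.1 (i3_b2 m1 (hn 4) m6)
    have t4 := abs_le.1 (i3_b2 m2 (hn 3) m6)
    have t5 := abs_le.1 (i3_b2 m2 (hn 3) m7)
    have t6 := abs_le.1 (i3_b2 m2 (hn 4) m6)
    constructor <;> linarith [d0.1, d0.2, t0.1, t0.2, t1.1, t1.2, t2.1, t2.2, t3.1, t3.2, t4.1, t4.2, t5.1, t5.2, t6.1, t6.2]
  have h4 : |v 4| ^ 3 ≤ 4 * μ + 17 * (m * m * ‖v‖) := by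
    rw [← abs_pow, cube4, abs_le]
    have d0 := abs_le.1 (h' 3 11 12 3)
    have d1 := abs_le.1 (h' 3 11 13 3)
    have d2 := abs_le.1 (h' 3 12 13 3)
    have t0 := abs_le.1 (i3_b2 m0 (hn 4) m6)
    have t1 := abs_le.1 (i3_b2 m0 (hn 4) m7)
    have t2 := abs_le.1 (i3_b2 m1 (hn 3) m6)
    have t3 := abs_le.1 (i3_b2 m1 (hn 3) m7)
    have t4 := abs_le.1 (i3_b2 m1 (hn 4) m6)
    have t5 := abs_le.1 (i3_b2 m1 (hn 4) m7)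
    have t6 := abs_le.1 (i3_b2 m2 (hn 3) m6)
    have t7 := abs_le.1 (i3_b2 m2 (hn 3) m7)
    have t8 := abs_le.1 (i3_b2 m2 (hn 4) m6)
    have t9 := abs_le.1 (i3_b2 m2 (hn 4) m7)
    constructor <;> linarith [d0.1, d0.2, d1.1, d1.2, d2.1, d2.2, t0.1, t0.2, t1.1, t1.2, t2.1, t2.2, t3.1, t3.2, t4.1, t4.2, t5.1, t5.2, t6.1, t6.2, t7.1, t7.2, t8.1, t8.2, t9.1, t9.2]
  have h8 : |v 8| ^ 3 ≤ 4 * μ + 17 * (m * m * ‖v‖) := by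
    rw [← abs_pow, cube8, abs_le]
    have d0 := abs_le.1 (h' 5 8 9 2)
    have d1 := abs_le.1 (h' 5 9 10 2)
    have d2 := abs_le.1 (h' 5 8 10 3)
    have t0 := abs_le.1 (i3_b1 m0 m5 (hn 9))
    have t1 := abs_le.1 (i3_b1 m0 m7 (hn 8))
    have t2 := abs_le.1 (i3_b1 m0 m7 (hn 9))
    have t3 := abs_le.1 (i3_b1 m1 m5 (hn 8))
    have t4 := abs_le.1 (i3_b1 m1 m5 (hn 9))
    have t5 := abs_le.1 (i3_b1 m1 m7 (hn 9))
    have t6 := abs_le.1 (i3_b1 m2 m5 (hn 9))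
    have t7 := abs_le.1 (i3_b1 m2 m7 (hn 8))
    have t8 := abs_le.1 (i3_b1 m2 m7 (hn 9))
    constructor <;> linarith [d0.1, d0.2, d1.1, d1.2, d2.1, d2.2, t0.1, t0.2, t1.1, t1.2, t2.1, t2.2, t3.1, t3.2, t4.1, t4.2, t5.1, t5.2, t6.1, t6.2, t7.1, t7.2, t8.1, t8.2]
  have hall : ∀ a, |v a| ^ 3 ≤ 9 * μ + 17 * (m * m * ‖v‖) := by
    apply all10 <;> linarith
  obtain ⟨a, ha⟩ : ∃ a, ‖v‖ = |v a| := by
    obtain ⟨a, -, ha⟩ := Finset.exists_max_image Finset.univ (fun a => |v a|) Finset.univ_nonempty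
    exact ⟨a, le_antisymm ((pi_norm_le_iff_of_nonneg (abs_nonneg _)).2 fun i => by
      simpa using ha i (Finset.mem_univ _)) (hn a)⟩
  have h1' := hall a
  rw [← ha] at h1'
  have hv : 0 ≤ ‖v‖ := norm_nonneg v
  rcases le_total ‖v‖ (6 * m) with hc | hc
  · calc ‖v‖ ^ 3 ≤ (6 * m) ^ 3 := by gcongr
      _ = 1944 * μ := by rw [mul_pow, hm]; ring
  · have h2' : 36 * (m * m * ‖v‖) ≤ ‖v‖ ^ 3 := by
      have : (6 * m) * (6 * m) * ‖v‖ ≤ ‖v‖ * ‖v‖ * ‖v‖ := by gcongr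
      nlinarith
    linarith

end Pool.Agent.Lib.MP_af4c59_nt.H57
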