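import Pool.Agent.Lib.MP_af4c59_nt.H57Lin

/-!
Minors of a block of the inverse matrix.
-/

set_option autoImplicit false

namespace Pool.Agent.Lib.MP_af4c59_nt.H57

open Matrix

/-- The number of indices in the first block. -/
def cntl {α β : Type} {n : ℕ} (f : Fin n → α ⊕ β) : ℕ :=
  (Finset.univ.filter fun i => (f i).isLeft = true).card

theorem jac_cntl_eq {α β : Type} {n : ℕ} (f : Fin n → α ⊕ β) :
    cntl f = ∑ i, if (f i).isLeft = true then 1 else 0 := by
  rw [cntl, Finset.card_filter]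

theorem jac_cntl_le {α β : Type} {n : ℕ} (f : Fin n → α ⊕ β) : cntl f ≤ n := by
  have := Finset.card_filter_le (Finset.univ : Finset (Fin n)) fun i => (f i).isLeft = true
  simpa [cntl] using this

theorem jac_cntl_succ {α β : Type} {n : ℕ} (f : Fin (n + 1) → α ⊕ β) (i : Fin (n + 1)) :
    cntl f = (if (f i).isLeft = true then 1 else 0) + cntl (f ∘ i.succAbove) := by
  rw [jac_cntl_eq, jac_cntl_eq, Fin.sum_univ_succAbove _ i]
  rfl

theorem jac_all_left {α β : Type} {n : ℕ} (f : Fin n → α ⊕ β) (h : n ≤ cntl f) :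
    ∃ f' : Fin n → α, f = Sum.inl ∘ f' := by
  have h1 : (Finset.univ.filter fun i => (f i).isLeft = true) = Finset.univ :=
    Finset.eq_univ_of_card _ (le_antisymm (Finset.card_le_univ _) (by simpa [cntl] using h))
  have h2 : ∀ i, ∃ a, f i = Sum.inl a := fun i => by
    have : i ∈ Finset.univ.filter fun i => (f i).isLeft = true := by
      rw [h1]
      exact Finset.mem_univ i
    exact Sum.isLeft_iff.1 (Finset.mem_filter.1 this).2
  choose f' hf' using h2
  exact ⟨f', funext hf'⟩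

theorem jac_cntl_all {α β : Type} {n : ℕ} (f : Fin n → α ⊕ β) (h : ∀ i, (f i).isLeft = true) :
    cntl f = n := by
  simp [cntl, h]

theorem jac_sign {R : Type} [CommRing R] (n : ℕ) (x : R) : (-1) ^ n * x = x ∨ (-1) ^ n * x = -x := by
  rcases neg_one_pow_eq_or R n with h | h <;> simp [h]

/-- Laplace expansion down to minors of the first block. -/
theorem jac_ind {R α β γ δ : Type} [CommRing R] (M : Matrix (α ⊕ β) (γ ⊕ δ) R) {k : ℕ}
    (P : ℕ → R → Prop)
    (base : ∀ (f : Fin k → α) (g : Fin k → γ), P k (M.toBlocks₁₁.submatrix f g).det)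
    (step : ∀ n, k ≤ n → ∀ c x : Fin (n + 1) → R, (∀ i, ∃ a b, c i = M a b ∨ c i = -M a b) →
      (∀ i, P n (x i)) → P (n + 1) (∑ i, c i * x i))
    (n : ℕ) : ∀ (f : Fin n → α ⊕ β) (g : Fin n → γ ⊕ δ), n + k ≤ cntl f + cntl g →
      P n (M.submatrix f g).det := by
  have hb : ∀ (n : ℕ) (f : Fin n → α ⊕ β) (g : Fin n → γ ⊕ δ), n + k ≤ cntl f + cntl g → n ≤ k →
      P n (M.submatrix f g).det := by
    intro n f g hc hn
    have h1 := jac_cntl_le f
    have h2 := jac_cntl_le g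
    obtain rfl : n = k := by omega
    obtain ⟨f', rfl⟩ := jac_all_left f (by omega)
    obtain ⟨g', rfl⟩ := jac_all_left g (by omega)
    exact base f' g'
  induction n with
  | zero => exact fun f g hc => hb 0 f g hc (Nat.zero_le k)
  | succ n ih =>
    intro f g hc
    rcases le_or_gt (n + 1) k with hn | hn
    · exact hb _ f g hc hn
    have hk : k ≤ n := by omega
    have hcol : ∀ j, (∀ i, n + k ≤ cntl (f ∘ Fin.succAbove i) + cntl (g ∘ Fin.succAbove j)) →
        P (n + 1) (M.submatrix f g).det := fun j hj => by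
      rw [det_succ_column _ j]
      exact step n hk _ _ (fun i => ⟨f i, g j, jac_sign _ _⟩) fun i => ih _ _ (hj i)
    have hrow : ∀ i, (∀ j, n + k ≤ cntl (f ∘ Fin.succAbove i) + cntl (g ∘ Fin.succAbove j)) →
        P (n + 1) (M.submatrix f g).det := fun i hi => by
      rw [det_succ_row _ i]
      exact step n hk _ _ (fun j => ⟨f i, g j, jac_sign _ _⟩) fun j => ih _ _ (hi j)
    by_cases hg : ∀ j, (g j).isLeft = true
    · by_cases hf : ∀ i, (f i).isLeft = true
      · refine hcol 0 fun i => ?_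
        rw [jac_cntl_all (f ∘ Fin.succAbove i) fun a => hf _,
          jac_cntl_all (g ∘ Fin.succAbove 0) fun a => hg _]
        omega
      · obtain ⟨i, hi⟩ := not_forall.1 hf
        refine hrow i fun j => ?_
        have h1 := jac_cntl_succ f i
        have h2 := jac_cntl_succ g j
        rw [if_neg hi] at h1
        rw [if_pos (hg j)] at h2
        omega
    · obtain ⟨j, hj⟩ := not_forall.1 hg
      refine hcol j fun i => ?_
      have h1 := jac_cntl_succ f i
      have h2 := jac_cntl_succ g j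
      rw [if_neg hj] at h2
      split_ifs at h1 <;> omega

theorem lapD {α β γ δ : Type} (M : Matrix (α ⊕ β) (γ ⊕ δ) ℤ) {k : ℕ} {d : ℤ}
    (h : DvdM k M.toBlocks₁₁ d) (n : ℕ) (f : Fin n → α ⊕ β) (g : Fin n → γ ⊕ δ)
    (hc : n + k ≤ cntl f + cntl g) : d ∣ (M.submatrix f g).det := by
  refine jac_ind M (fun _ x => d ∣ x) h ?_ n f g hc
  intro n _ c x _ hx
  exact Finset.dvd_sum fun i _ => (hx i).mul_left _

theorem lapR {α β γ δ : Type} (M : Matrix (α ⊕ β) (γ ⊕ δ) ℝ) {k : ℕ} {μ a : ℝ} (ha : 0 ≤ a)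
    (hM : Ent M a) (h : BdM k M.toBlocks₁₁ μ) (n : ℕ) (f : Fin n → α ⊕ β) (g : Fin n → γ ⊕ δ)
    (hc : n + k ≤ cntl f + cntl g) :
    |(M.submatrix f g).det| ≤ (n.factorial : ℝ) * a ^ (n - k) * μ := by
  refine jac_ind M (fun n x => |x| ≤ (n.factorial : ℝ) * a ^ (n - k) * μ) ?_ ?_ n f g hc
  · intro f g
    have h1 := h f g
    have h2 : 0 ≤ μ := (abs_nonneg _).trans h1
    have h3 : (1 : ℝ) ≤ k.factorial := by exact_mod_cast Nat.factorial_pos k
    rw [Nat.sub_self, pow_zero, mul_one]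
    nlinarith
  · intro n hn c x hc hx
    have h1 : ∀ i, |c i| ≤ a := fun i => by
      obtain ⟨u, v, h | h⟩ := hc i
      · rw [h]
        exact hM u v
      · rw [h, abs_neg]
        exact hM u v
    calc |∑ i, c i * x i| ≤ ∑ i, |c i * x i| := Finset.abs_sum_le_sum_abs _ _
      _ ≤ ∑ _i : Fin (n + 1), a * ((n.factorial : ℝ) * a ^ (n - k) * μ) := by
        refine Finset.sum_le_sum fun i _ => ?_
        rw [abs_mul]
        exact mul_le_mul (h1 i) (hx i) (abs_nonneg _) ha
      _ = ((n + 1).factorial : ℝ) * a ^ (n + 1 - k) * μ := by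
        rw [Finset.sum_const, Finset.card_univ, Fintype.card_fin, nsmul_eq_mul, Nat.factorial_succ,
          Nat.sub_add_comm hn, pow_succ]
        push_cast
        ring

theorem jac_block {R m n : Type} [CommRing R] [Fintype m] [Fintype n] [DecidableEq m]
    [DecidableEq n] (G H : Matrix (m ⊕ n) (m ⊕ n) R) (h : G * H = 1) :
    G.det * H.toBlocks₂₂.det = G.toBlocks₁₁.det := by
  have h1 := h
  rw [← fromBlocks_toBlocks G, ← fromBlocks_toBlocks H, fromBlocks_multiply, ← fromBlocks_one,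
    fromBlocks_inj] at h1
  obtain ⟨-, h2, -, h3⟩ := h1
  have h4 : G * fromBlocks 1 H.toBlocks₁₂ 0 H.toBlocks₂₂ =
      fromBlocks G.toBlocks₁₁ 0 G.toBlocks₂₁ 1 := by
    conv_lhs => rw [← fromBlocks_toBlocks G, fromBlocks_multiply, h2, h3]
    simp
  have h5 := congrArg det h4
  rw [det_mul, det_fromBlocks_zero₂₁, det_fromBlocks_zero₁₂, det_one, det_one, one_mul,
    mul_one] at h5
  exact h5

theorem jac_equiv {k : ℕ} (f : Fin k → Fin 4) (hf : Function.Injective f) :
    ∃ e : Fin (8 - k) ⊕ Fin k ≃ Fin 4 ⊕ Fin 4, (∀ i, e (Sum.inr i) = Sum.inr (f i)) ∧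
      cntl (e ∘ Sum.inl) = 4 := by
  classical
  have hu : Function.Injective fun i => (Sum.inr (f i) : Fin 4 ⊕ Fin 4) :=
    Sum.inr_injective.comp hf
  set u : Fin k → Fin 4 ⊕ Fin 4 := fun i => Sum.inr (f i) with hu'
  have hcard : Fintype.card {x // ¬x ∈ Set.range u} = 8 - k := by
    rw [Fintype.card_subtype_compl]
    have := Set.card_range_of_injective hu
    rw [Fintype.card_fin] at this
    simp only [Fintype.card_sum, Fintype.card_fin]
    exact congrArg (8 - ·) ((Fintype.card_congr (Equiv.refl _)).trans this)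
  let e : Fin (8 - k) ⊕ Fin k ≃ Fin 4 ⊕ Fin 4 :=
    ((Equiv.sumCongr (Fintype.equivFinOfCardEq hcard).symm (Equiv.ofInjective u hu)).trans
      (Equiv.sumComm _ _)).trans (Equiv.sumCompl fun x => x ∈ Set.range u)
  have he : ∀ i, e (Sum.inr i) = Sum.inr (f i) := fun i => rfl
  refine ⟨e, he, ?_⟩
  have h1 := e.sum_comp fun y : Fin 4 ⊕ Fin 4 => if y.isLeft = true then 1 else 0
  rw [Fintype.sum_sum_type, Fintype.sum_sum_type] at h1
  simp only [he] at h1
  rw [jac_cntl_eq]
  simpa using h1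

theorem jac_det_equiv {R m n : Type} [CommRing R] [Fintype m] [Fintype n] [DecidableEq m]
    [DecidableEq n] (G : Matrix n n R) (e₁ e₂ : m ≃ n) :
    (G.submatrix e₁ e₂).det = G.det ∨ (G.submatrix e₁ e₂).det = -G.det := by
  have h1 : G.submatrix e₁ e₂ = (G.submatrix (e₂.symm.trans e₁) id).submatrix e₂ e₂ := by
    ext i j
    simp
  rw [h1, det_submatrix_equiv_self, det_permute]
  rcases Int.units_eq_one_or (Equiv.Perm.sign (e₂.symm.trans e₁)) with h | h <;> simp [h]

theorem jac_zero {R m n : Type} [CommRing R] (A : Matrix m n R) {k : ℕ} (f : Fin k → m)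
    (g : Fin k → n) (h : ¬(Function.Injective f ∧ Function.Injective g)) :
    (A.submatrix f g).det = 0 := by
  rcases not_and_or.1 h with h | h
  · obtain ⟨i, j, h1, h2⟩ := Function.not_injective_iff.1 h
    exact det_zero_of_row_eq h2 (funext fun l => by simp [h1])
  · obtain ⟨i, j, h1, h2⟩ := Function.not_injective_iff.1 h
    exact det_zero_of_column_eq h2 fun l => by simp [h1]

/-- Jacobi's complementary minor theorem, up to sign. -/
theorem jac {R : Type} [CommRing R] (G H : Matrix (Fin 4 ⊕ Fin 4) (Fin 4 ⊕ Fin 4) R)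
    (h : G * H = 1) {k : ℕ} (hk : k ≤ 4) (f g : Fin k → Fin 4) (hf : Function.Injective f)
    (hg : Function.Injective g) :
    ∃ f' g' : Fin (8 - k) → Fin 4 ⊕ Fin 4, cntl f' = 4 ∧ cntl g' = 4 ∧
      (G.det * (H.toBlocks₂₂.submatrix f g).det = (G.submatrix f' g').det ∨
        G.det * (H.toBlocks₂₂.submatrix f g).det = -(G.submatrix f' g').det) := by
  obtain ⟨e₁, he₁, hc₁⟩ := jac_equiv g hg
  obtain ⟨e₂, he₂, hc₂⟩ := jac_equiv f hf
  have _ := hk
  have h1 : G.submatrix e₁ e₂ * H.submatrix e₂ e₁ = 1 := by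
    rw [submatrix_mul_equiv, h, submatrix_one_equiv]
  have h2 := jac_block _ _ h1
  have h3 : (H.submatrix e₂ e₁).toBlocks₂₂ = H.toBlocks₂₂.submatrix f g := by
    ext i j
    simp [toBlocks₂₂, he₁, he₂]
  have h4 : (G.submatrix e₁ e₂).toBlocks₁₁ = G.submatrix (e₁ ∘ Sum.inl) (e₂ ∘ Sum.inl) := rfl
  rw [h3, h4] at h2
  refine ⟨e₁ ∘ Sum.inl, e₂ ∘ Sum.inl, hc₁, hc₂, ?_⟩
  rcases jac_det_equiv G e₁ e₂ with h5 | h5
  · left
    rw [← h2, h5]
  · right
    rw [← h2, h5]
    ring

theorem jacD (G H : Matrix (Fin 4 ⊕ Fin 4) (Fin 4 ⊕ Fin 4) ℤ) (h : G * H = 1) {k : ℕ}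
    (hk : k ≤ 4) {d : ℤ} (hd : DvdM k G.toBlocks₁₁ d) : DvdM k H.toBlocks₂₂ d := by
  intro f g
  by_cases hi : Function.Injective f ∧ Function.Injective g
  · obtain ⟨f', g', hf', hg', h1⟩ := jac G H h hk f g hi.1 hi.2
    have h2 := lapD G hd (8 - k) f' g' (by omega)
    have h3 : G.det * H.det = 1 := by rw [← det_mul, h, det_one]
    have h4 : d ∣ G.det * (H.toBlocks₂₂.submatrix f g).det := by
      rcases h1 with h1 | h1
      · rwa [h1]
      · rw [h1]
        exact (dvd_neg).2 h2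
    have h5 : (H.toBlocks₂₂.submatrix f g).det =
        H.det * (G.det * (H.toBlocks₂₂.submatrix f g).det) := by
      rw [← mul_assoc, mul_comm H.det, h3, one_mul]
    rw [h5]
    exact h4.mul_left _
  · rw [jac_zero _ f g hi]
    exact dvd_zero d

theorem jac_det {R : Type} [CommRing R] (G H : Matrix (Fin 4 ⊕ Fin 4) (Fin 4 ⊕ Fin 4) R)
    (h : G * H = 1) : G.det * H.toBlocks₂₂.det = G.toBlocks₁₁.det := by
  exact jac_block G H h

theorem jacR (G H : Matrix (Fin 4 ⊕ Fin 4) (Fin 4 ⊕ Fin 4) ℝ) (h : G * H = 1) {a μ : ℝ}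
    (ha : 0 ≤ a) (hG : Ent G a) (hμ : BdM 2 G.toBlocks₁₁ μ) :
    BdM 2 H.toBlocks₂₂ (720 * a ^ 4 * μ * |H.det|) := by
  intro f g
  have hμ0 : 0 ≤ μ := (abs_nonneg _).trans (hμ f g)
  by_cases hi : Function.Injective f ∧ Function.Injective g
  · obtain ⟨f', g', hf', hg', h1⟩ := jac G H h (by norm_num : 2 ≤ 4) f g hi.1 hi.2
    have h2 := lapR G ha hG hμ (8 - 2) f' g' (by omega)
    have h3 : G.det * H.det = 1 := by rw [← det_mul, h, det_one]
    have h4 : |G.det * (H.toBlocks₂₂.submatrix f g).det| ≤ 720 * a ^ 4 * μ := by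
      have e : (((8 - 2).factorial : ℕ) : ℝ) * a ^ (8 - 2 - 2) * μ = 720 * a ^ 4 * μ := by
        norm_num [Nat.factorial]
      rw [e] at h2
      rcases h1 with h1 | h1
      · rwa [h1]
      · rwa [h1, abs_neg]
    have h5 : (H.toBlocks₂₂.submatrix f g).det =
        (G.det * (H.toBlocks₂₂.submatrix f g).det) * H.det := by
      rw [mul_right_comm, h3, one_mul]
    rw [h5, abs_mul]
    exact mul_le_mul_of_nonneg_right h4 (abs_nonneg _)
  · rw [jac_zero _ f g hi, abs_zero]
    positivity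

end Pool.Agent.Lib.MP_af4c59_nt.H57
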