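import Pool.Agent.Lib.MP_af4c59_nt.H57Lin

/-!
Diagonalisation over the p-adic numbers.
-/

set_option autoImplicit false

namespace Pool.Agent.Lib.MP_af4c59_nt.H57

open Matrix

variable {p : ℕ} [Fact p.Prime]

theorem norm_two : ‖(2 : ℚ_[p])‖ = (p : ℝ) ^ (-(e2v p : ℤ)) := by
  rw [Padic.norm_eq_zpow_neg_valuation two_ne_zero, Padic.valuation_ofNat]
  rfl

theorem e2v_le (p : ℕ) [Fact p.Prime] : e2v p ≤ 1 := by
  have hp : p.Prime := Fact.out
  have h1 : p ^ padicValNat p 2 ∣ 2 := pow_padicValNat_dvd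
  have h2 : 2 ^ padicValNat p 2 ≤ 2 ^ 1 :=
    le_trans (Nat.pow_le_pow_left hp.two_le _) (Nat.le_of_dvd (by norm_num) h1)
  exact (Nat.pow_le_pow_iff_right (by norm_num)).1 h2

theorem dvd_of_norm_le {b : ℤ} {k : ℤ} (h : ‖(b : ℚ_[p])‖ ≤ (p : ℝ) ^ (-k)) :
    (p : ℤ) ^ k.toNat ∣ b := by
  rcases le_total k 0 with hk | hk
  · rw [Int.toNat_eq_zero.2 hk]; simp
  · rw [← Padic.norm_int_le_pow_iff_dvd, Int.toNat_of_nonneg hk]; exact h

theorem jordanp_two_pos : 0 < ‖(2 : ℚ_[p])‖ := norm_pos_iff.2 two_ne_zero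

theorem jordanp_two_le : ‖(2 : ℚ_[p])‖ ≤ 1 := by
  simpa using Padic.norm_int_le_one (p := p) 2

theorem jordanp_add_le {x y : ℚ_[p]} {M : ℝ} (hx : ‖x‖ ≤ M) (hy : ‖y‖ ≤ M) : ‖x + y‖ ≤ M :=
  (IsUltrametricDist.norm_add_le_max x y).trans (max_le hx hy)

theorem jordanp_add_lt {x y : ℚ_[p]} {M : ℝ} (hx : ‖x‖ < M) (hy : ‖y‖ < M) : ‖x + y‖ < M :=
  (IsUltrametricDist.norm_add_le_max x y).trans_lt (max_lt hx hy)

theorem jordanp_apply {n : Type} [Fintype n] [DecidableEq n] (L : Matrix n n ℚ_[p])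
    (d : n → ℚ_[p]) (a b : n) :
    (Lᵀ * Matrix.diagonal d * L) a b = ∑ k, L k a * d k * L k b := by
  rw [Matrix.mul_apply]
  simp [Matrix.mul_diagonal]

/-- An unsorted diagonalisation. -/
def jordanp_Dec {n : ℕ} (A : Matrix (Fin n) (Fin n) ℚ_[p]) (M : ℝ) : Prop :=
  ∃ (L : Matrix (Fin n) (Fin n) ℚ_[p]) (d : Fin n → ℚ_[p]), A = Lᵀ * Matrix.diagonal d * L ∧
    (∀ i j, ‖L i j‖ ≤ ‖(2 : ℚ_[p])‖⁻¹) ∧ ‖L.det‖ = 1 ∧ ∀ i, ‖(2 : ℚ_[p])‖ ^ n * ‖d i‖ ≤ M

theorem jordanp_sign {n : ℕ} (σ : Equiv.Perm (Fin n)) (x : ℚ_[p]) :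
    ‖(((Equiv.Perm.sign σ : ℤˣ) : ℤ) : ℚ_[p]) * x‖ = ‖x‖ := by
  rcases Int.units_eq_one_or (Equiv.Perm.sign σ) with h | h <;> simp [h]

theorem jordanp_zero {n : ℕ}
    (ih : ∀ (A : Matrix (Fin n) (Fin n) ℚ_[p]), A.IsSymm → ∀ M : ℝ, (∀ i j, ‖A i j‖ ≤ M) →
      jordanp_Dec A M)
    (A : Matrix (Fin (n + 1)) (Fin (n + 1)) ℚ_[p]) (hA : A.IsSymm) (M : ℝ) (hM0 : 0 < M)
    (hM : ∀ i j, ‖A i j‖ ≤ M) (h0 : ‖(2 : ℚ_[p])‖ * M ≤ ‖A 0 0‖) : jordanp_Dec A M := by
  have h2 := jordanp_two_pos (p := p)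
  have h2' := jordanp_two_le (p := p)
  have hn : 0 < ‖A 0 0‖ := lt_of_lt_of_le (by positivity) h0
  have hne : A 0 0 ≠ 0 := norm_pos_iff.1 hn
  have hinv : 1 ≤ ‖(2 : ℚ_[p])‖⁻¹ := one_le_inv₀ h2 |>.2 h2'
  have hr : ∀ j, ‖A 0 j / A 0 0‖ ≤ ‖(2 : ℚ_[p])‖⁻¹ := fun j => by
    rw [norm_div, div_le_iff₀ hn, inv_mul_eq_div, le_div_iff₀ h2]
    refine le_trans ?_ h0
    rw [mul_comm]
    exact mul_le_mul_of_nonneg_left (hM 0 j) h2.le
  obtain ⟨L, d, hL, hLe, hLd, hd⟩ := ih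
    (Matrix.of fun i j => A i.succ j.succ + -(A 0 i.succ * (A 0 j.succ / A 0 0)))
    (by
      ext i j
      simp only [Matrix.transpose_apply, Matrix.of_apply]
      rw [hA.apply i.succ j.succ]
      ring) (M * ‖(2 : ℚ_[p])‖⁻¹)
    (fun i j => by
      refine jordanp_add_le ((hM _ _).trans (le_mul_of_one_le_right hM0.le hinv)) ?_
      rw [norm_neg, norm_mul]
      exact mul_le_mul (hM _ _) (hr _) (norm_nonneg _) hM0.le)
  refine ⟨Matrix.of (Fin.cons (fun j => A 0 j / A 0 0) fun i => Fin.cons 0 (L i)),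
    Fin.cons (A 0 0) d, ?_, ?_, ?_, ?_⟩
  · ext a b
    rw [jordanp_apply, Fin.sum_univ_succ]
    simp only [Matrix.of_apply, Fin.cons_zero, Fin.cons_succ]
    refine Fin.cases ?_ (fun a' => ?_) a
    · simp only [Fin.cons_zero, zero_mul, Finset.sum_const_zero, add_zero]
      field_simp
    · refine Fin.cases ?_ (fun b' => ?_) b
      · simp only [Fin.cons_zero, mul_zero, Finset.sum_const_zero, add_zero]
        rw [hA.apply 0 a'.succ]
        field_simp
      · simp only [Fin.cons_succ]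
        rw [← jordanp_apply, ← hL, Matrix.of_apply]
        field_simp
        ring
  · intro a b
    refine Fin.cases ?_ (fun a' => ?_) a
    · exact hr b
    · refine Fin.cases ?_ (fun b' => ?_) b
      · simp
      · exact hLe a' b'
  · rw [Matrix.det_succ_column_zero, Fin.sum_univ_succ]
    simp only [Matrix.of_apply, Fin.cons_zero, Fin.cons_succ, mul_zero, zero_mul,
      Finset.sum_const_zero, add_zero, Fin.val_zero, pow_zero, one_mul, div_self hne,
      Fin.succAbove_zero]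
    rw [← hLd]
    congr 2
  · intro a
    refine Fin.cases ?_ (fun a' => ?_) a
    · simp only [Fin.cons_zero]
      exact (mul_le_of_le_one_left (norm_nonneg _) (pow_le_one₀ h2.le h2')).trans (hM 0 0)
    · simp only [Fin.cons_succ]
      have := hd a'
      rw [← div_eq_mul_inv, le_div_iff₀ h2] at this
      rw [pow_succ]
      linarith

theorem jordanp_diag {n : ℕ}
    (ih : ∀ (A : Matrix (Fin n) (Fin n) ℚ_[p]), A.IsSymm → ∀ M : ℝ, (∀ i j, ‖A i j‖ ≤ M) →
      jordanp_Dec A M)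
    (A : Matrix (Fin (n + 1)) (Fin (n + 1)) ℚ_[p]) (hA : A.IsSymm) (M : ℝ) (hM0 : 0 < M)
    (hM : ∀ i j, ‖A i j‖ ≤ M) (i : Fin (n + 1)) (h0 : ‖(2 : ℚ_[p])‖ * M ≤ ‖A i i‖) :
    jordanp_Dec A M := by
  obtain ⟨L, d, hL, hLe, hLd, hd⟩ := jordanp_zero ih
    (A.submatrix (Equiv.swap 0 i) (Equiv.swap 0 i)) (hA.submatrix _) M hM0 (fun a b => hM _ _)
    (by simpa using h0)
  refine ⟨L.submatrix id (Equiv.swap 0 i), d, ?_, fun a b => hLe _ _, ?_, hd⟩
  · ext a b
    have := congrFun (congrFun hL (Equiv.swap 0 i a)) (Equiv.swap 0 i b)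
    rw [jordanp_apply] at this ⊢
    simpa using this
  · rw [Matrix.det_permute', jordanp_sign, hLd]

theorem jordanp_tr_left {n : ℕ} {X : Matrix (Fin n) (Fin n) ℚ_[p]} {M : ℝ}
    (h : ∀ a b, ‖X a b‖ ≤ M) (i j : Fin n) {c : ℚ_[p]} (hc : ‖c‖ = 1) (a b : Fin n) :
    ‖(Matrix.transvection i j c * X) a b‖ ≤ M := by
  by_cases ha : a = i
  · subst ha
    rw [Matrix.transvection_mul_apply_same]
    exact jordanp_add_le (h _ _) (by rw [norm_mul, hc, one_mul]; exact h _ _)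
  · rw [Matrix.transvection_mul_apply_of_ne _ _ _ _ ha]
    exact h _ _

theorem jordanp_tr_right {n : ℕ} {X : Matrix (Fin n) (Fin n) ℚ_[p]} {M : ℝ}
    (h : ∀ a b, ‖X a b‖ ≤ M) (i j : Fin n) {c : ℚ_[p]} (hc : ‖c‖ = 1) (a b : Fin n) :
    ‖(X * Matrix.transvection i j c) a b‖ ≤ M := by
  by_cases hb : b = j
  · subst hb
    rw [Matrix.mul_transvection_apply_same]
    exact jordanp_add_le (h _ _) (by rw [norm_mul, hc, one_mul]; exact h _ _)
  · rw [Matrix.mul_transvection_apply_of_ne _ _ _ _ hb]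
    exact h _ _

theorem jordanp_tr_T {n : ℕ} (i j : Fin n) (c : ℚ_[p]) :
    (Matrix.transvection i j c)ᵀ = Matrix.transvection j i c := by
  simp [Matrix.transvection, Matrix.transpose_single]

theorem jordanp_dec (n : ℕ) : ∀ (A : Matrix (Fin n) (Fin n) ℚ_[p]), A.IsSymm → ∀ M : ℝ,
    (∀ i j, ‖A i j‖ ≤ M) → jordanp_Dec A M := by
  have h2 := jordanp_two_pos (p := p)
  have h2' := jordanp_two_le (p := p)
  induction n with
  | zero =>
    intro A _ M _
    exact ⟨1, 0, Subsingleton.elim _ _, fun i => i.elim0, by simp, fun i => i.elim0⟩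
  | succ n ih =>
    intro A hA M hM
    obtain ⟨⟨i, j⟩, hij⟩ := Finite.exists_max fun q : Fin (n + 1) × Fin (n + 1) => ‖A q.1 q.2‖
    have hmax : ∀ a b, ‖A a b‖ ≤ ‖A i j‖ := fun a b => hij (a, b)
    by_cases hz : A i j = 0
    · have hA0 : A = 0 := by
        ext a b
        have := hmax a b
        rw [hz, norm_zero] at this
        exact norm_le_zero_iff.1 this
      refine ⟨1, 0, by simp [hA0], fun a b => ?_, by simp, fun a => ?_⟩
      · have hinv : 1 ≤ ‖(2 : ℚ_[p])‖⁻¹ := one_le_inv₀ h2 |>.2 h2'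
        by_cases hab : a = b
        · subst hab; simpa using hinv
        · simp [Matrix.one_apply_ne hab]
      · simpa using (norm_nonneg _).trans (hM 0 0)
    have hpos : 0 < ‖A i j‖ := norm_pos_iff.2 hz
    suffices h : jordanp_Dec A ‖A i j‖ by
      obtain ⟨L, d, hL, hLe, hLd, hd⟩ := h
      exact ⟨L, d, hL, hLe, hLd, fun a => (hd a).trans (hM i j)⟩
    by_cases hd : ∃ k, ‖(2 : ℚ_[p])‖ * ‖A i j‖ ≤ ‖A k k‖
    · obtain ⟨k, hk⟩ := hd
      exact jordanp_diag ih A hA _ hpos hmax k hk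
    push Not at hd
    have hne : i ≠ j := by
      rintro rfl
      have := hd i
      nlinarith
    obtain ⟨L, d, hL, hLe, hLd, hd'⟩ := jordanp_diag ih
      (Matrix.transvection i j 1 * A * Matrix.transvection j i 1)
      (by
        unfold Matrix.IsSymm
        rw [Matrix.transpose_mul, Matrix.transpose_mul, jordanp_tr_T, jordanp_tr_T, hA.eq,
          Matrix.mul_assoc]) _ hpos
      (jordanp_tr_right (jordanp_tr_left hmax i j norm_one) j i norm_one) i
      (by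
        rw [Matrix.mul_transvection_apply_same, Matrix.transvection_mul_apply_same,
          Matrix.transvection_mul_apply_same, hA.apply i j]
        have e : A i i + 1 * A i j + 1 * (A i j + 1 * A j j) = 2 * A i j + (A i i + A j j) := by
          ring
        have h3 : ‖A i i + A j j‖ < ‖2 * A i j‖ := by
          rw [norm_mul]; exact jordanp_add_lt (hd i) (hd j)
        rw [e, IsUltrametricDist.norm_add_eq_max_of_norm_ne_norm h3.ne', norm_mul]
        exact le_max_left _ _)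
    refine ⟨L * Matrix.transvection j i (-1), d, ?_,
      jordanp_tr_right hLe j i (by simp), ?_, hd'⟩
    · rw [Matrix.transpose_mul, jordanp_tr_T]
      calc A = (Matrix.transvection i j (-1) * Matrix.transvection i j 1) * A *
            (Matrix.transvection j i 1 * Matrix.transvection j i (-1)) := by
            rw [Matrix.transvection_mul_transvection_same _ _ hne,
              Matrix.transvection_mul_transvection_same _ _ hne.symm]
            simp
        _ = Matrix.transvection i j (-1) *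
            (Matrix.transvection i j 1 * A * Matrix.transvection j i 1) *
            Matrix.transvection j i (-1) := by simp only [Matrix.mul_assoc]
        _ = _ := by rw [hL]; simp only [Matrix.mul_assoc]
    · rw [Matrix.det_mul, Matrix.det_transvection_of_ne _ _ hne.symm, mul_one, hLd]

theorem jordanP (n : ℕ) (A : Matrix (Fin n) (Fin n) ℚ_[p]) (hA : A.IsSymm) (M : ℝ)
    (hM : ∀ i j, ‖A i j‖ ≤ M) :
    ∃ (L : Matrix (Fin n) (Fin n) ℚ_[p]) (d : Fin n → ℚ_[p]), A = Lᵀ * Matrix.diagonal d * L ∧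
      (∀ i j, ‖(2 : ℚ_[p])‖ * ‖L i j‖ ≤ 1) ∧ ‖L.det‖ = 1 ∧ (∀ i j, i ≤ j → ‖d j‖ ≤ ‖d i‖) ∧
      ∀ i, ‖(2 : ℚ_[p])‖ ^ n * ‖d i‖ ≤ M := by
  have h2 := jordanp_two_pos (p := p)
  obtain ⟨L, d, hL, hLe, hLd, hd⟩ := jordanp_dec n A hA M hM
  obtain ⟨σ, hσ⟩ : ∃ σ : Equiv.Perm (Fin n), Monotone ((fun i => -‖d i‖) ∘ σ) :=
    ⟨_, Tuple.monotone_sort _⟩
  refine ⟨L.submatrix σ id, d ∘ σ, ?_, fun i j => ?_, ?_, fun i j hij => ?_, fun i => hd _⟩
  · ext a b
    rw [hL, jordanp_apply, jordanp_apply]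
    exact (Equiv.sum_comp σ fun k => L k a * d k * L k b).symm
  · have := hLe (σ i) j
    rw [← one_div, le_div_iff₀ h2, mul_comm] at this
    exact this
  · rw [Matrix.det_permute, jordanp_sign, hLd]
  · have := hσ hij
    simpa using this

end Pool.Agent.Lib.MP_af4c59_nt.H57
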