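import Pool.Agent.Lib.MP_af4c59_nt.H57CT
import Pool.Agent.Lib.MP_af4c59_nt.H57Det

/-!
The number of fields at one level.
-/

set_option autoImplicit false

namespace Pool.Agent.Lib.MP_af4c59_nt.H57

open Matrix

theorem field_eq {L L' : IntermediateField ℚ Ω} (h : Module.finrank ℚ L = 5)
    (h' : Module.finrank ℚ L' = 5) {a : Ω} (ha : a ∈ L) (ha' : a ∈ L')
    (h0 : a ∉ (⊥ : IntermediateField ℚ Ω)) : L = L' := by
  have key : ∀ {M : IntermediateField ℚ Ω}, Module.finrank ℚ M = 5 → L ⊓ L' ≤ M → L ⊓ L' = M := by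
    intro M hM hle
    have : FiniteDimensional ℚ M := Module.finite_of_finrank_pos (by omega)
    have hd := IntermediateField.finrank_dvd_of_le_right hle
    rw [hM] at hd
    rcases (Nat.dvd_prime (by norm_num)).1 hd with h1 | h5
    · rw [IntermediateField.finrank_eq_one_iff] at h1
      exact absurd (h1 ▸ (show a ∈ L ⊓ L' from ⟨ha, ha'⟩)) h0
    · exact IntermediateField.eq_of_le_of_finrank_eq hle (h5.trans hM.symm)
  exact (key h inf_le_left).symm.trans (key h' inf_le_right)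

theorem exists_box_O {t : ℝ} (ht : 1 ≤ t) :
    ∃ S : Finset O, t ^ 4 ≤ (S.card : ℝ) ∧ ∀ a ∈ S, OB a (t ^ 2) := by
  classical
  set m := ⌊t ^ 2⌋₊ with hm
  have h0 : 0 ≤ t ^ 2 := sq_nonneg t
  have hinj : Function.Injective fun p : ℕ × ℕ => (⟨p.1, p.2⟩ : O) := by
    intro p q hpq
    have h1 : (p.1 : ℤ) = q.1 := congrArg QuadraticAlgebra.re hpq
    have h2 : (p.2 : ℤ) = q.2 := congrArg QuadraticAlgebra.im hpq
    exact Prod.ext (by exact_mod_cast h1) (by exact_mod_cast h2)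
  refine ⟨(Finset.range (m + 1) ×ˢ Finset.range (m + 1)).image fun p => ⟨p.1, p.2⟩, ?_, ?_⟩
  · rw [Finset.card_image_of_injective _ hinj, Finset.card_product, Finset.card_range]
    have h1 : t ^ 2 ≤ (m : ℝ) + 1 := (Nat.lt_floor_add_one _).le
    push_cast
    calc t ^ 4 = t ^ 2 * t ^ 2 := by ring
      _ ≤ _ := mul_le_mul h1 h1 h0 (by positivity)
  · intro a ha
    obtain ⟨p, hp, rfl⟩ := Finset.mem_image.1 ha
    obtain ⟨h1, h2⟩ := Finset.mem_product.1 hp
    have key : ∀ j : ℕ, j ∈ Finset.range (m + 1) → |(((j : ℤ) : ℝ))| ≤ t ^ 2 := fun j hj => by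
      have hj' : (j : ℝ) ≤ m := by exact_mod_cast Nat.lt_succ_iff.1 (Finset.mem_range.1 hj)
      rw [Int.cast_natCast, Nat.abs_cast]
      exact hj'.trans (Nat.floor_le h0)
    exact ⟨key _ h1, key _ h2⟩

theorem level_count (c : ℝ) (hc : 1 ≤ c) : ∃ f, SP f ∧ ∀ (ι : Ω →+* ℂ) (B t : ℝ)
    (F : Finset (IntermediateField ℚ Ω)), 1 ≤ B → 1 ≤ t → t ≤ c * B → (∀ L ∈ F, Rep ι c B t L) →
    (F.card : ℝ) ≤ f B * B ^ 4 := by
  classical
  obtain ⟨f, hf, hCT⟩ := CT c hc
  refine ⟨fun x => 150 * f x, hf.cmul (by norm_num), fun ι B t F hB ht htB hF => ?_⟩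
  obtain ⟨S, hS, hSb⟩ := exists_box_O ht
  have hF1 : ∀ L ∈ F, ∃ (i : Fin 5) (X Y : Fin 5 → ℂ) (a : Ω),
      a ∈ L ∧ a ∉ (⊥ : IntermediateField ℚ Ω) ∧ ι a = ift X i ∧
        ∀ α : O, OB α (t ^ 2) → Att c B t X (lc α 1 X Y) := fun L hL => (hF L hL).2
  choose! i X Y a haL ha0 hai hAtt using hF1
  have hW : ∀ w ∈ F ×ˢ S, ∃ (s₀ : Fin 16 → ℤ) (s : Fin 6 → O) (n : ℤ), n ≠ 0 ∧ iota s = n • s₀ ∧
      SCO (X w.1) (lc w.2 1 (X w.1) (Y w.1)) s ∧ d1 (X w.1) (lc w.2 1 (X w.1) (Y w.1)) ≠ 0 ∧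
      d2 (X w.1) (lc w.2 1 (X w.1) (Y w.1)) ≠ 0 ∧ ∃ v, GoodV c B t v ∧ Adm c B t v s₀ := by
    intro w hw
    obtain ⟨h1, h2⟩ := Finset.mem_product.1 hw
    obtain ⟨e1, e2, s, n, s₀, v, hn, hs, hsc, hv, had⟩ := hAtt w.1 h1 w.2 (hSb _ h2)
    exact ⟨s₀, s, n, hn, hs, hsc, e1, e2, v, hv, had⟩
  choose! s₀ s n hn hs hsc hd1 hd2 hv using hW
  have hcard : (((F ×ˢ S).card : ℕ) : ℝ) ≤ f B * B ^ 4 * t ^ 4 * 150 := by
    refine card_le_fib s₀ ((F ×ˢ S).image s₀) (fun w hw => Finset.mem_image_of_mem _ hw)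
      (hCT B t _ hB ht htB fun k hk => ?_) (by norm_num) fun k _ C hC hk => ?_
    · obtain ⟨w, hw, rfl⟩ := Finset.mem_image.1 hk
      exact hv w hw
    · obtain ⟨Z, hZ, hZ'⟩ := fibre30 k
      have hp : ∀ w ∈ C, ∃ p ∈ Z, Eq0 (X w.1) ((n w : ℂ) • p.1) ∧
          Eq0 (lc w.2 1 (X w.1) (Y w.1)) ((n w : ℂ) • p.2) := fun w hw =>
        hZ' _ _ (s w) (n w) (hn w (hC hw)) (by rw [← hk w hw]; exact hs w (hC hw))
          (hsc w (hC hw)) (hd1 w (hC hw)) (hd2 w (hC hw))
      choose! p hpZ hp1 hp2 using hp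
      have h150 : (((Z ×ˢ (Finset.univ : Finset (Fin 5))).card : ℕ) : ℝ) ≤ 150 := by
        rw [Finset.card_product, Finset.card_univ, Fintype.card_fin]
        exact_mod_cast (by omega : Z.card * 5 ≤ 150)
      have := card_le_fib (X := C) (n := 1) (fun w => (p w, i w.1)) (Z ×ˢ Finset.univ)
        (fun w hw => Finset.mem_product.2 ⟨hpZ w hw, Finset.mem_univ _⟩) h150 zero_le_one
        fun q _ D hD hq => ?_
      · simpa using this
      · have : D.card ≤ 1 := by
          refine Finset.card_le_one.2 fun w hw w' hw' => ?_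
          have hwC := hD hw
          have hwC' := hD hw'
          obtain ⟨hw1, -⟩ := Finset.mem_product.1 (hC hwC)
          obtain ⟨hw1', -⟩ := Finset.mem_product.1 (hC hwC')
          have hqq := (hq w hw).trans (hq w' hw').symm
          have hpp : p w = p w' := congrArg Prod.fst hqq
          have hii : i w.1 = i w'.1 := congrArg Prod.snd hqq
          have e1 : ι (a w.1) = (n w : ℂ) * ift (p w).1 (i w.1) := by
            rw [hai _ hw1, ift_congr (hp1 w hwC), ift_smul]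
            rfl
          have e2 : ι (a w'.1) = (n w' : ℂ) * ift (p w).1 (i w.1) := by
            rw [hai _ hw1', ift_congr (hp1 w' hwC'), ift_smul, hpp, hii]
            rfl
          have e3 : (n w' : Ω) * a w.1 = (n w : Ω) * a w'.1 := by
            apply ι.injective
            rw [map_mul, map_mul, map_intCast, map_intCast, e1, e2]
            ring
          have hn' : (n w' : Ω) ≠ 0 := Int.cast_ne_zero.2 (hn w' (hC hwC'))
          have hmem : a w.1 ∈ w'.1 := by
            have e4 : a w.1 = (n w : Ω) * a w'.1 / (n w' : Ω) := by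
              rw [eq_div_iff hn', ← e3, mul_comm]
            rw [e4]
            exact div_mem (mul_mem (intCast_mem _ _) (haL _ hw1')) (intCast_mem _ _)
          have hL : w.1 = w'.1 :=
            field_eq (hF _ hw1).1 (hF _ hw1').1 (haL _ hw1) hmem (ha0 _ hw1)
          have hane : a w.1 ≠ 0 := fun h => ha0 _ hw1 (h ▸ zero_mem _)
          have hnn : n w' = n w := by
            rw [← hL] at e3
            exact_mod_cast mul_right_cancel₀ hane e3
          have hj : ∃ j : Fin 5, j ≠ 0 ∧ X w.1 j ≠ 0 := by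
            by_contra hcon
            have h1 : X w.1 1 = 0 := by_contra fun h => hcon ⟨1, by decide, h⟩
            have h4 : X w.1 4 = 0 := by_contra fun h => hcon ⟨4, by decide, h⟩
            apply hd1 w (hC hwC)
            unfold d1
            rw [h1, h4]
            ring
          obtain ⟨j, hj0, hj⟩ := hj
          have e5 := hp2 w hwC j hj0
          have e6 := hp2 w' hwC' j hj0
          rw [← hL, ← hpp, hnn, ← e5] at e6
          have e7 : ec j w'.2 * X w.1 j = ec j w.2 * X w.1 j := add_right_cancel e6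
          exact Prod.ext hL (ec_inj j (mul_right_cancel₀ hj e7)).symm
        exact_mod_cast this
  rw [Finset.card_product] at hcard
  push_cast at hcard
  have ht4 : 0 < t ^ 4 := by positivity
  refine le_of_mul_le_mul_right ?_ ht4
  calc (F.card : ℝ) * t ^ 4 ≤ F.card * S.card := mul_le_mul_of_nonneg_left hS (Nat.cast_nonneg _)
    _ ≤ _ := hcard
    _ = _ := by ring

end Pool.Agent.Lib.MP_af4c59_nt.H57
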