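import Pool.Agent.Lib.MP_af4c59_nt.H57Gram

/-!
Minors of products.
-/

set_option autoImplicit false

namespace Pool.Agent.Lib.MP_af4c59_nt.H57

open Matrix

section

variable {l m n o : Type}

/-- Expansion of a minor of a product. -/
theorem det_mul_sub {R : Type} [CommRing R] [Fintype m] [DecidableEq m] {k : ℕ} (X : Matrix l m R)
    (Y : Matrix m n R) (f : Fin k → l) (g : Fin k → n) :
    ((X * Y).submatrix f g).det =
      ∑ h : Fin k → m, (∏ i, X (f i) (h i)) * (Y.submatrix h g).det := by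
  have e : ∀ M : Matrix (Fin k) (Fin k) R, M.det =
      ∑ σ : Equiv.Perm (Fin k), ((Equiv.Perm.sign σ : ℤ) : R) * ∏ i, M i (σ i) := fun M => by
    rw [← det_transpose, det_apply']
    rfl
  simp only [e, submatrix_apply, mul_apply, Finset.prod_univ_sum, Finset.mul_sum,
    Fintype.piFinset_univ, Finset.prod_mul_distrib]
  rw [Finset.sum_comm]
  refine Finset.sum_congr rfl fun h _ => Finset.sum_congr rfl fun σ _ => ?_
  ring

theorem lin0_tr {R : Type} [CommRing R] {k : ℕ} (Y : Matrix m n R) (f : Fin k → m)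
    (g : Fin k → n) : (Yᵀ.submatrix g f).det = (Y.submatrix f g).det := by
  rw [← transpose_submatrix, det_transpose]

theorem DvdM.mul_left [Fintype m] {k : ℕ} {Y : Matrix m n ℤ} {d : ℤ} (h : DvdM k Y d)
    (X : Matrix l m ℤ) : DvdM k (X * Y) d := by
  classical
  intro f g
  rw [det_mul_sub]
  exact Finset.dvd_sum fun p _ => (h p g).mul_left _

theorem DvdM.mul_right [Fintype n] {k : ℕ} {Y : Matrix m n ℤ} {d : ℤ} (h : DvdM k Y d)
    (Z : Matrix n o ℤ) : DvdM k (Y * Z) d := by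
  intro f g
  have h' : DvdM k Yᵀ d := fun f g => by rw [lin0_tr]; exact h g f
  rw [← lin0_tr, transpose_mul]
  exact h'.mul_left _ g f

theorem BdM.mul_left [Fintype m] {k : ℕ} {Y : Matrix m n ℝ} {μ a : ℝ} (h : BdM k Y μ)
    {X : Matrix l m ℝ} (ha : 0 ≤ a) (hμ : 0 ≤ μ) (hX : Ent X a) :
    BdM k (X * Y) (((Fintype.card m : ℝ) * a) ^ k * μ) := by
  classical
  intro f g
  rw [det_mul_sub]
  refine (Finset.abs_sum_le_sum_abs _ _).trans ?_
  have key : ∀ p : Fin k → m, |(∏ i, X (f i) (p i)) * (Y.submatrix p g).det| ≤ a ^ k * μ := by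
    intro p
    rw [abs_mul, Finset.abs_prod]
    refine mul_le_mul ?_ (h p g) (abs_nonneg _) (pow_nonneg ha k)
    refine (Finset.prod_le_prod (fun i _ => abs_nonneg _) fun i _ => hX (f i) (p i)).trans ?_
    simp
  refine (Finset.sum_le_sum fun p _ => key p).trans (le_of_eq ?_)
  simp only [Finset.sum_const, Finset.card_univ, Fintype.card_fun, Fintype.card_fin, nsmul_eq_mul,
    Nat.cast_pow, mul_pow]
  ring

theorem BdM.mul_right [Fintype n] {k : ℕ} {Y : Matrix m n ℝ} {μ a : ℝ} (h : BdM k Y μ)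
    {Z : Matrix n o ℝ} (ha : 0 ≤ a) (hμ : 0 ≤ μ) (hZ : Ent Z a) :
    BdM k (Y * Z) (((Fintype.card n : ℝ) * a) ^ k * μ) := by
  intro f g
  have h' : BdM k Yᵀ μ := fun f g => by rw [lin0_tr]; exact h g f
  rw [← lin0_tr, transpose_mul]
  exact h'.mul_left ha hμ (fun i j => hZ j i) g f

theorem Ent.bdM {Y : Matrix m n ℝ} {a : ℝ} (h : Ent Y a) (k : ℕ) :
    BdM k Y ((k.factorial : ℝ) * a ^ k) := by
  intro f g
  have := Matrix.det_le (A := Y.submatrix f g) (abv := AbsoluteValue.abs) (x := a)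
    fun i j => h (f i) (g j)
  simpa using this

theorem Ent.det_le [Fintype n] [DecidableEq n] {Y : Matrix n n ℝ} {a : ℝ} (h : Ent Y a) :
    |Y.det| ≤ ((Fintype.card n).factorial : ℝ) * a ^ Fintype.card n := by
  have := Matrix.det_le (A := Y) (abv := AbsoluteValue.abs) (x := a) fun i j => h i j
  simpa using this

theorem Ent.mul [Fintype m] {X : Matrix l m ℝ} {Y : Matrix m n ℝ} {a b : ℝ} (ha : 0 ≤ a)
    (hX : Ent X a) (hY : Ent Y b) : Ent (X * Y) ((Fintype.card m : ℝ) * a * b) := by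
  intro i j
  rw [mul_apply]
  refine (Finset.abs_sum_le_sum_abs _ _).trans ?_
  have key : ∀ p, |X i p * Y p j| ≤ a * b := fun p => by
    rw [abs_mul]
    exact mul_le_mul (hX i p) (hY p j) (abs_nonneg _) ha
  refine (Finset.sum_le_sum fun p _ => key p).trans (le_of_eq ?_)
  simp [mul_assoc]

theorem Ent.transpose {X : Matrix l m ℝ} {a : ℝ} (hX : Ent X a) : Ent Xᵀ a := fun i j => hX j i

theorem Rk.of_mul_left {R : Type} [CommRing R] [Fintype m] {k : ℕ} {X : Matrix l m R}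
    {Y : Matrix m n R} (h : Rk k (X * Y)) : Rk k Y := by
  classical
  obtain ⟨f, g, hfg⟩ := h
  rw [det_mul_sub] at hfg
  obtain ⟨p, -, hp⟩ := Finset.exists_ne_zero_of_sum_ne_zero hfg
  exact ⟨p, g, right_ne_zero_of_mul hp⟩

theorem Rk.of_mul_right {R : Type} [CommRing R] [Fintype m] {k : ℕ} {X : Matrix l m R}
    {Y : Matrix m n R} (h : Rk k (X * Y)) : Rk k X := by
  obtain ⟨f, g, hfg⟩ := h
  rw [← lin0_tr, transpose_mul] at hfg
  obtain ⟨f', g', h'⟩ := Rk.of_mul_left ⟨g, f, hfg⟩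
  rw [lin0_tr] at h'
  exact ⟨g', f', h'⟩

theorem Rk_mc {R : Type} [CommRing R] [CharZero R] {k : ℕ} {X : Matrix l m ℤ} :
    Rk k (mc R X) ↔ Rk k X := by
  have e : ∀ (f : Fin k → l) (g : Fin k → m),
      ((mc R X).submatrix f g).det = (((X.submatrix f g).det : ℤ) : R) := fun f g => by
    rw [Int.cast_det]
    rfl
  simp only [Rk, e, Int.cast_ne_zero]

theorem Rk.of_smul {R : Type} [CommRing R] {k : ℕ} {X : Matrix l m R} {c : R}
    (h : Rk k (c • X)) : Rk k X := by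
  obtain ⟨f, g, hfg⟩ := h
  have e : (c • X).submatrix f g = c • X.submatrix f g := rfl
  rw [e, det_smul] at hfg
  exact ⟨f, g, right_ne_zero_of_mul hfg⟩

theorem Rk.smul {R : Type} [CommRing R] [IsDomain R] {k : ℕ} {X : Matrix l m R} {c : R}
    (h : Rk k X) (hc : c ≠ 0) : Rk k (c • X) := by
  obtain ⟨f, g, hfg⟩ := h
  have e : (c • X).submatrix f g = c • X.submatrix f g := rfl
  refine ⟨f, g, ?_⟩
  rw [e, det_smul]
  exact mul_ne_zero (pow_ne_zero _ hc) hfg

theorem Rk.pred {R : Type} [CommRing R] {k : ℕ} {X : Matrix l m R} (h : Rk (k + 1) X) :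
    Rk k X := by
  obtain ⟨f, g, hfg⟩ := h
  rw [det_succ_row_zero] at hfg
  obtain ⟨j, -, hj⟩ := Finset.exists_ne_zero_of_sum_ne_zero hfg
  exact ⟨f ∘ Fin.succ, g ∘ j.succAbove, right_ne_zero_of_mul hj⟩

end

theorem gM_dvd (A : Matrix (Fin 4) (Fin 4) ℤ) : DvdM 2 A (gM A) := by
  intro f g
  rw [Int.natCast_dvd]
  exact Finset.gcd_dvd (f := fun p : (Fin 2 → Fin 4) × (Fin 2 → Fin 4) =>
    (A.submatrix p.1 p.2).det.natAbs) (Finset.mem_univ (f, g))

theorem gcdDvd_gM (A : Matrix (Fin 4) (Fin 4) ℤ) : GcdDvd 2 A (gM A) := by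
  intro d hd
  rw [Int.dvd_natCast]
  exact Finset.dvd_gcd fun p _ => Int.natAbs_dvd_natAbs.2 (hd p.1 p.2)

theorem gM_pos {A : Matrix (Fin 4) (Fin 4) ℤ} (h : Rk 2 A) : 0 < gM A := by
  obtain ⟨f, g, hfg⟩ := h
  refine Nat.pos_of_ne_zero fun h0 => hfg ?_
  have := gM_dvd A f g
  rw [h0] at this
  simpa using this

theorem dvd_mul_gM {A : Matrix (Fin 4) (Fin 4) ℤ} {c d : ℤ}
    (h : ∀ f g : Fin 2 → Fin 4, d ∣ c * (A.submatrix f g).det) : d ∣ c * gM A := by
  rw [← Int.natAbs_dvd_natAbs, Int.natAbs_mul, Int.natAbs_natCast]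
  have e := Finset.gcd_mul_left (s := (Finset.univ : Finset ((Fin 2 → Fin 4) × (Fin 2 → Fin 4))))
    (f := fun p => (A.submatrix p.1 p.2).det.natAbs) (a := c.natAbs)
  rw [normalize_eq] at e
  unfold gM
  rw [← e]
  refine Finset.dvd_gcd fun p _ => ?_
  rw [← Int.natAbs_mul]
  exact Int.natAbs_dvd_natAbs.2 (h p.1 p.2)

theorem bdM_yM (A : Matrix (Fin 4) (Fin 4) ℝ) : BdM 2 A (yM A) := by
  intro f g
  exact norm_le_pi_norm
    (fun p : (Fin 2 → Fin 4) × (Fin 2 → Fin 4) => (A.submatrix p.1 p.2).det) (f, g)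

theorem yM_le {A : Matrix (Fin 4) (Fin 4) ℝ} {μ : ℝ} (h : BdM 2 A μ) : yM A ≤ μ := by
  have h0 : 0 ≤ μ := (abs_nonneg _).trans (h 0 0)
  exact (pi_norm_le_iff_of_nonneg h0).2 fun p => h p.1 p.2

end Pool.Agent.Lib.MP_af4c59_nt.H57
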