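import Pool.Agent.Lib.MP_af4c59_nt.Gen

/-!
A relative unit of a real cyclic quartic field whose twist is not a fifth power.
-/

set_option autoImplicit false

namespace Pool.Agent.Lib.MP_af4c59_nt.H57

open NumberField IntermediateField

theorem low_mem {a y : Ω} (h : ∀ g : Ω ≃ₐ[ℚ] Ω, g a = a → g y = y) : y ∈ ℚ⟮a⟯ := by
  rw [← InfiniteGalois.fixedField_fixingSubgroup ℚ⟮a⟯, IntermediateField.mem_fixedField_iff]
  intro g hg
  exact h g ((IntermediateField.mem_fixingSubgroup_iff _ _).1 hg a (mem_adjoin_simple_self ℚ a))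

theorem low_fix {a : Ω} {g : Ω ≃ₐ[ℚ] Ω} (h : g a = a) {y : Ω} (hy : y ∈ ℚ⟮a⟯) : g y = y := by
  induction hy using IntermediateField.adjoin_induction with
  | mem x hx => rw [Set.mem_singleton_iff.1 hx, h]
  | algebraMap x => exact g.commutes x
  | add x y _ _ hx hy => rw [map_add, hx, hy]
  | inv x _ hx => rw [map_inv₀, hx]
  | mul x y _ _ hx hy => rw [map_mul, hx, hy]

theorem low_nf (a : Ω) : NumberField ℚ⟮a⟯ :=
  @NumberField.mk _ _ inferInstance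
    (IntermediateField.adjoin.finiteDimensional (Algebra.IsIntegral.isIntegral a))

theorem low_emb (ι : Ω →+* ℂ) (F : IntermediateField ℚ Ω) [NumberField F] (φ : F →+* ℂ) :
    ∃ g : Ω ≃ₐ[ℚ] Ω, ∀ x : F, φ x = ι (g x) := by
  classical
  let f : (F →ₐ[ℚ] Ω) → (F →+* ℂ) := fun ψ => ι.comp ψ.toRingHom
  have hf : Function.Injective f := by
    intro ψ ψ' h
    ext x
    exact ι.injective (RingHom.congr_fun h x)
  have hb : Function.Bijective f := by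
    rw [Fintype.bijective_iff_injective_and_card]
    exact ⟨hf, by rw [AlgHom.card, NumberField.Embeddings.card]⟩
  obtain ⟨ψ, rfl⟩ := hb.2 φ
  obtain ⟨g, hg⟩ := exists_extend F ψ
  exact ⟨g, fun x => by rw [hg]; rfl⟩

/-- The logarithmic size. -/
noncomputable def lsz (ι : Ω →+* ℂ) (y : Ω) : ℝ := Real.log ‖ι y‖

theorem lsz_mul (ι : Ω →+* ℂ) {x y : Ω} (hx : x ≠ 0) (hy : y ≠ 0) :
    lsz ι (x * y) = lsz ι x + lsz ι y := by
  unfold lsz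
  rw [map_mul, norm_mul, Real.log_mul] <;> simpa

theorem lsz_pow (ι : Ω →+* ℂ) (x : Ω) (k : ℕ) : lsz ι (x ^ k) = k * lsz ι x := by
  unfold lsz
  rw [map_pow, norm_pow, Real.log_pow]

theorem lsz_inv (ι : Ω →+* ℂ) (x : Ω) : lsz ι x⁻¹ = -lsz ι x := by
  unfold lsz
  rw [map_inv₀, norm_inv, Real.log_inv]

theorem lsz_of_mul (ι : Ω →+* ℂ) {x y : Ω} (h : x * y = 1) : lsz ι y = -lsz ι x := by
  rw [eq_inv_of_mul_eq_one_right h, lsz_inv]

theorem lsz_le (ι : Ω →+* ℂ) {x : Ω} {q : ℝ} (h : lsz ι x ^ 2 ≤ q) :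
    ‖ι x‖ ≤ Real.exp (1 + q) := by
  refine (Real.le_exp_log _).trans (Real.exp_le_exp.2 ?_)
  unfold lsz at h
  nlinarith [sq_nonneg (Real.log ‖ι x‖ - 1)]

theorem low_unit (ι : Ω →+* ℂ) {w : Ω} {σ : Ω ≃ₐ[ℚ] Ω} (hw : w ≠ 0) (h2 : σ (σ w) = -w)
    (hr : (starRingEnd ℂ) (ι w) = ι w) (hfix : ∀ g : Ω ≃ₐ[ℚ] Ω, g w = w → g (σ w) = σ w)
    (hall : ∀ g : Ω ≃ₐ[ℚ] Ω, g w = w ∨ g w = σ w ∨ g w = σ (σ w) ∨ g w = σ (σ (σ w))) :
    ∃ u ∈ ℚ⟮w⟯, IsIntegral ℤ u ∧ u * σ (σ u) = 1 ∧ ∀ y ∈ ℚ⟮w⟯, y ^ 5 ≠ u ^ 2 * σ u := by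
  classical
  have := low_nf w
  have hσ : ∀ y ∈ ℚ⟮w⟯, σ y ∈ ℚ⟮w⟯ := by
    intro y hy
    refine low_mem fun g hg => ?_
    have h1 : (σ⁻¹ * g * σ) w = w := by
      simp only [AlgEquiv.mul_apply, hfix g hg]
      exact σ.symm_apply_apply w
    have h3 := congrArg σ (low_fix h1 hy)
    simp only [AlgEquiv.mul_apply] at h3
    exact (σ.apply_symm_apply _).symm.trans h3
  have h4 : ∀ y ∈ ℚ⟮w⟯, σ (σ (σ (σ y))) = y := by
    intro y hy
    have h1 : (σ * σ * σ * σ) w = w := by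
      simp only [AlgEquiv.mul_apply, h2, map_neg, neg_neg]
    exact low_fix h1 hy
  have hag : ∀ g τ : Ω ≃ₐ[ℚ] Ω, g w = τ w → ∀ y ∈ ℚ⟮w⟯, g y = τ y := by
    intro g τ h y hy
    have h1 : (τ⁻¹ * g) w = w := by
      simp only [AlgEquiv.mul_apply, h]
      exact τ.symm_apply_apply w
    have h3 := congrArg τ (low_fix h1 hy)
    simp only [AlgEquiv.mul_apply] at h3
    rw [← h3]
    exact (τ.apply_symm_apply _).symm
  let Q : Ω → ℝ := fun y => lsz ι y ^ 2 + lsz ι (σ y) ^ 2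
  let U : Set Ω := {y | y ∈ ℚ⟮w⟯ ∧ IsIntegral ℤ y ∧ y * σ (σ y) = 1 ∧ 0 < Q y}
  have hint : ∀ {y : Ω}, IsIntegral ℤ y → IsIntegral ℤ (σ y) := fun hy =>
    hy.map (σ.toAlgHom.restrictScalars ℤ)
  have hquo : ∀ y ∈ ℚ⟮w⟯, y ≠ 0 → IsIntegral ℤ y → IsIntegral ℤ y⁻¹ →
      y * σ (σ y⁻¹) ∈ ℚ⟮w⟯ ∧ IsIntegral ℤ (y * σ (σ y⁻¹)) ∧
        y * σ (σ y⁻¹) * σ (σ (y * σ (σ y⁻¹))) = 1 := by
    intro y hy h0 hi hi'
    refine ⟨mul_mem hy (hσ _ (hσ _ (inv_mem hy))), hi.mul (hint (hint hi')), ?_⟩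
    have h5 : σ (σ y) ≠ 0 := by simpa using h0
    simp only [map_mul, map_inv₀, h4 _ hy]
    field_simp
  have hex : ∃ u, u ∈ U := by
    let φ₀ : ℚ⟮w⟯ →+* ℂ := ι.comp ℚ⟮w⟯.val.toRingHom
    let φ₂ : ℚ⟮w⟯ →+* ℂ := ι.comp (((σ * σ).toAlgHom.comp ℚ⟮w⟯.val).toRingHom)
    obtain ⟨v, hv⟩ := Units.dirichletUnitTheorem.exists_unit ℚ⟮w⟯ (InfinitePlace.mk φ₀)
    have hne : InfinitePlace.mk φ₀ ≠ InfinitePlace.mk φ₂ := by
      intro h
      have hw' : ι w ≠ 0 := by simpa using hw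
      have e2 : φ₂ ⟨w, mem_adjoin_simple_self ℚ w⟩ = -ι w := by
        change ι (σ (σ w)) = _
        rw [h2, map_neg]
      have e0 : φ₀ ⟨w, mem_adjoin_simple_self ℚ w⟩ = ι w := rfl
      apply hw'
      rcases InfinitePlace.mk_eq_iff.1 h with h | h
      · rw [← h, e0] at e2
        linear_combination e2 / 2
      · rw [← h, ComplexEmbedding.conjugate_coe_eq, e0, hr] at e2
        linear_combination e2 / 2
    have hneg := hv _ hne.symm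
    have hpos : 0 ≤ Real.log (InfinitePlace.mk φ₀ (v : ℚ⟮w⟯)) := by
      by_contra hc
      have hs := Units.sum_mult_mul_log v
      refine absurd hs (ne_of_lt (Finset.sum_neg (fun p _ => ?_) Finset.univ_nonempty))
      refine mul_neg_of_pos_of_neg (by exact_mod_cast InfinitePlace.mult_pos) ?_
      by_cases hp : p = InfinitePlace.mk φ₀
      · rw [hp]; exact not_le.1 hc
      · exact hv p hp
    set y : Ω := (((v : 𝓞 ℚ⟮w⟯) : ℚ⟮w⟯) : Ω) with hy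
    have hym : y ∈ ℚ⟮w⟯ := ((v : 𝓞 ℚ⟮w⟯) : ℚ⟮w⟯).2
    have hyi : ∀ z : 𝓞 ℚ⟮w⟯, IsIntegral ℤ ((z : ℚ⟮w⟯) : Ω) := fun z =>
      z.isIntegral_coe.map (ℚ⟮w⟯.val.restrictScalars ℤ)
    have hy1 : y * ((((v⁻¹ : (𝓞 ℚ⟮w⟯)ˣ) : 𝓞 ℚ⟮w⟯) : ℚ⟮w⟯) : Ω) = 1 := by
      have := congrArg (ℚ⟮w⟯.val.toRingHom.comp (algebraMap (𝓞 ℚ⟮w⟯) ℚ⟮w⟯)) v.mul_inv
      rw [map_mul, map_one] at this
      exact this
    have hy0 : y ≠ 0 := left_ne_zero_of_mul_eq_one hy1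
    have hyv : IsIntegral ℤ y⁻¹ := by
      rw [← eq_inv_of_mul_eq_one_right hy1]
      exact hyi _
    obtain ⟨a1, a2, a3⟩ := hquo y hym hy0 (hyi _) hyv
    refine ⟨_, a1, a2, a3, ?_⟩
    have e1 : lsz ι (y * σ (σ y⁻¹)) = lsz ι y - lsz ι (σ (σ y)) := by
      rw [lsz_mul ι hy0 (by simpa using hy0), map_inv₀, map_inv₀, lsz_inv]
      ring
    have e2 : 0 ≤ lsz ι y := hpos
    have e3 : lsz ι (σ (σ y)) < 0 := hneg
    have e4 : 0 < lsz ι (y * σ (σ y⁻¹)) := by linarith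
    positivity
  obtain ⟨u₀, hu₀⟩ := hex
  have hfin : {y | y ∈ U ∧ Q y ≤ Q u₀}.Finite := by
    refine Set.Finite.subset ((Embeddings.finite_of_norm_le ℚ⟮w⟯ ℂ
      (Real.exp (1 + Q u₀))).image fun z : ℚ⟮w⟯ => (z : Ω)) ?_
    rintro y ⟨⟨hy, hi, h1, -⟩, hq⟩
    refine ⟨⟨y, hy⟩, ⟨?_, fun φ => ?_⟩, rfl⟩
    · exact (isIntegral_algHom_iff (ℚ⟮w⟯.val.restrictScalars ℤ) Subtype.val_injective).1 hi
    · obtain ⟨g, hg⟩ := low_emb ι _ φ
      rw [hg]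
      apply lsz_le
      have h1' : σ y * σ (σ (σ y)) = 1 := by rw [← map_mul, h1, map_one]
      have q1 := sq_nonneg (lsz ι y)
      have q2 := sq_nonneg (lsz ι (σ y))
      simp only [Q] at hq ⊢
      rcases hall g with h | h | h | h
      · rw [hag g 1 h y hy, AlgEquiv.one_apply]
        linarith
      · rw [hag g σ h y hy]
        linarith
      · rw [hag g (σ * σ) h y hy, AlgEquiv.mul_apply, lsz_of_mul ι h1, neg_sq]
        linarith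
      · rw [hag g (σ * σ * σ) h y hy, AlgEquiv.mul_apply, AlgEquiv.mul_apply, lsz_of_mul ι h1',
          neg_sq]
        linarith
  obtain ⟨u, ⟨⟨hu, hi, h1, hq⟩, hle⟩, hmin⟩ := Set.exists_min_image _ Q hfin ⟨u₀, hu₀, le_rfl⟩
  refine ⟨u, hu, hi, h1, fun y hy h5 => ?_⟩
  have hu0 : u ≠ 0 := left_ne_zero_of_mul_eq_one h1
  have hs0 : σ u ≠ 0 := by simpa using hu0
  have h1' : σ u * σ (σ (σ u)) = 1 := by rw [← map_mul, h1, map_one]
  have hy0 : y ≠ 0 := by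
    rintro rfl
    exact mul_ne_zero (pow_ne_zero 2 hu0) hs0 (by rw [← h5]; simp)
  have hyi : IsIntegral ℤ y := IsIntegral.of_pow (n := 5) (by norm_num)
    (h5 ▸ (hi.pow 2).mul (hint hi))
  have hyv : IsIntegral ℤ y⁻¹ := by
    refine IsIntegral.of_pow (n := 5) (by norm_num) ?_
    have : y⁻¹ ^ 5 = σ (σ u) ^ 2 * σ (σ (σ u)) := by
      rw [inv_pow, h5, eq_inv_of_mul_eq_one_right h1', eq_inv_of_mul_eq_one_right h1]
      field_simp
    rw [this]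
    exact ((hint (hint hi)).pow 2).mul (hint (hint (hint hi)))
  obtain ⟨a1, a2, a3⟩ := hquo y hy hy0 hyi hyv
  have key : ∀ τ : Ω ≃ₐ[ℚ] Ω, 5 * lsz ι (τ y) = 2 * lsz ι (τ u) + lsz ι (τ (σ u)) := by
    intro τ
    have := congrArg (fun z => lsz ι (τ z)) h5
    simp only [map_pow, map_mul] at this
    rw [lsz_pow, lsz_mul ι (by simpa using hu0) (by simpa using hu0), lsz_pow] at this
    exact_mod_cast this
  have k0 := key 1
  have k1 := key σ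
  have k2 := key (σ * σ)
  have k3 := key (σ * σ * σ)
  simp only [AlgEquiv.mul_apply, AlgEquiv.one_apply, h4 u hu, lsz_of_mul ι h1,
    lsz_of_mul ι h1'] at k0 k1 k2 k3
  have e1 : lsz ι (y * σ (σ y⁻¹)) = lsz ι y - lsz ι (σ (σ y)) := by
    rw [lsz_mul ι hy0 (by simpa using hy0), map_inv₀, map_inv₀, lsz_inv]
    ring
  have e2 : lsz ι (σ (y * σ (σ y⁻¹))) = lsz ι (σ y) - lsz ι (σ (σ (σ y))) := by
    rw [map_mul, lsz_mul ι (by simpa using hy0) (by simpa using hy0), map_inv₀, map_inv₀,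
      map_inv₀, lsz_inv]
    ring
  have e3 : Q (y * σ (σ y⁻¹)) = 4 / 5 * Q u := by
    simp only [Q, e1, e2]
    have f1 : lsz ι y - lsz ι (σ (σ y)) = 2 / 5 * (2 * lsz ι u + lsz ι (σ u)) := by linarith
    have f2 : lsz ι (σ y) - lsz ι (σ (σ (σ y))) = 2 / 5 * (2 * lsz ι (σ u) - lsz ι u) := by
      linarith
    rw [f1, f2]
    ring
  have := hmin _ ⟨⟨a1, a2, a3, by rw [e3]; linarith⟩, by rw [e3]; linarith⟩
  rw [e3] at this
  linarith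

end Pool.Agent.Lib.MP_af4c59_nt.H57
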