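import Pool.Agent.Lib.MP_af4c59_nt.H57LowA
import Pool.Agent.Lib.MP_af4c59_nt.H57Four0

/-!
The Kummer construction of a dihedral quintic field.
-/

set_option autoImplicit false

namespace Pool.Agent.Lib.MP_af4c59_nt.H57

open NumberField IntermediateField

/-- Powers of a fifth root of unity. -/
noncomputable def cE (ζ : Ω) (k : Fin 5) : Ω := ζ ^ k.val

/-- The action of an automorphism on the root of unity and on the square root. -/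
def Cls (ζ δ : Ω) (g : Ω ≃ₐ[ℚ] Ω) (a s : Fin 5) : Prop :=
  g ζ = cE ζ a ∧ a ≠ 0 ∧ ((s = 1 ∧ g δ = δ) ∨ (s = -1 ∧ g δ = -δ))

/-- Families that are permuted by the twisted cyclotomic character. -/
def Eqv (ζ δ : Ω) (B : Fin 5 → Ω) : Prop :=
  ∀ g a s, Cls ζ δ g a s → ∀ j, j ≠ 0 → g (B j) = B (j * (s * a))

/-- The odd family. -/
noncomputable def cW (ζ δ : Ω) (j : Fin 5) : Ω := δ * (cE ζ j - cE ζ (-j))

/-- The even family. -/
noncomputable def cT (ζ : Ω) (j : Fin 5) : Ω := cE ζ j + cE ζ (-j)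

/-- The resolvent sums. -/
noncomputable def xx (ζ : Ω) (ρ B : Fin 5 → Ω) (i : Fin 5) : Ω :=
  ∑ j, cE ζ (-(i * j)) * B j * ρ j

variable {ζ δ : Ω}

theorem cE_add (h : ζ ^ 5 = 1) (k l : Fin 5) : cE ζ (k + l) = cE ζ k * cE ζ l := by
  unfold cE
  rw [← pow_add, Fin.val_add, ← pow_eq_pow_mod _ h]

theorem cE_map (h : ζ ^ 5 = 1) {g : Ω ≃ₐ[ℚ] Ω} {a : Fin 5} (hg : g ζ = cE ζ a) (k : Fin 5) :
    g (cE ζ k) = cE ζ (a * k) := by
  unfold cE at *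
  rw [map_pow, hg, ← pow_mul, Fin.val_mul, ← pow_eq_pow_mod _ h]

theorem cE_root (h : IsPrimitiveRoot ζ 5) {x : Ω} (hx : x ^ 5 = 1) : ∃ e, x = cE ζ e := by
  obtain ⟨i, hi, rfl⟩ := h.eq_pow_of_pow_eq_one hx
  exact ⟨⟨i, hi⟩, rfl⟩

theorem cls_exists (h : IsPrimitiveRoot ζ 5) {n : ℕ} (hδ : δ ^ 2 = -(n : Ω)) (g : Ω ≃ₐ[ℚ] Ω) :
    ∃ a s, Cls ζ δ g a s := by
  obtain ⟨a, ha⟩ := cE_root h (x := g ζ) (by rw [← map_pow, h.pow_eq_one, map_one])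
  have ha0 : a ≠ 0 := by
    rintro rfl
    apply h.ne_one (by norm_num)
    apply g.injective
    rw [ha, map_one]
    simp [cE]
  have h2 : (g δ) ^ 2 = δ ^ 2 := by rw [← map_pow, hδ, map_neg, map_natCast]
  rcases sq_eq_sq_iff_eq_or_eq_neg.1 h2 with h3 | h3
  · exact ⟨a, 1, ha, ha0, Or.inl ⟨rfl, h3⟩⟩
  · exact ⟨a, -1, ha, ha0, Or.inr ⟨rfl, h3⟩⟩

theorem cW_map (h : ζ ^ 5 = 1) {g : Ω ≃ₐ[ℚ] Ω} {a s : Fin 5} (hg : Cls ζ δ g a s) (j : Fin 5) :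
    g (cW ζ δ j) = cW ζ δ (j * (s * a)) := by
  obtain ⟨h1, -, ⟨rfl, h2⟩ | ⟨rfl, h2⟩⟩ := hg
  · have e : ∀ a j : Fin 5, j * (1 * a) = a * j ∧ -(a * j) = a * -j := by decide
    simp only [cW, map_mul, map_sub, cE_map h h1, h2, (e a j).1, (e a j).2]
  · have e : ∀ a j : Fin 5, j * (-1 * a) = a * -j ∧ -(a * -j) = a * j := by decide
    simp only [cW, map_mul, map_sub, cE_map h h1, h2, (e a j).1, (e a j).2]
    ring

theorem eqv_cW (h : ζ ^ 5 = 1) : Eqv ζ δ (cW ζ δ) := fun _ _ _ hg j _ => cW_map h hg j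

theorem eqv_cT (h : ζ ^ 5 = 1) : Eqv ζ δ (cT ζ) := by
  rintro g a s ⟨h1, -, ⟨rfl, h2⟩ | ⟨rfl, h2⟩⟩ j -
  · have e : ∀ a j : Fin 5, j * (1 * a) = a * j ∧ -(a * j) = a * -j := by decide
    simp only [cT, map_add, cE_map h h1, (e a j).1, (e a j).2]
  · have e : ∀ a j : Fin 5, j * (-1 * a) = a * -j ∧ -(a * -j) = a * j := by decide
    simp only [cT, map_add, cE_map h h1, (e a j).1, (e a j).2]
    ring

theorem eqv_one : Eqv ζ δ 1 := fun _ _ _ _ _ _ => by simp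

theorem Eqv.mul {A B : Fin 5 → Ω} (hA : Eqv ζ δ A) (hB : Eqv ζ δ B) : Eqv ζ δ (A * B) := by
  intro g a s hg j hj
  simp only [Pi.mul_apply, map_mul, hA g a s hg j hj, hB g a s hg j hj]

theorem cW_c : cW ζ δ 0 = 0 ∧ cW ζ δ 1 = δ * (ζ - ζ ^ 4) ∧ cW ζ δ 2 = δ * (ζ ^ 2 - ζ ^ 3) ∧
    cW ζ δ 3 = δ * (ζ ^ 3 - ζ ^ 2) ∧ cW ζ δ 4 = δ * (ζ ^ 4 - ζ) := by
  refine ⟨?_, ?_, ?_, ?_, ?_⟩
  · change δ * (ζ ^ 0 - ζ ^ 0) = 0
    ring
  · change δ * (ζ ^ 1 - ζ ^ 4) = _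
    ring
  · rfl
  · rfl
  · change δ * (ζ ^ 4 - ζ ^ 1) = _
    ring

theorem low_sum (h : IsPrimitiveRoot ζ 5) : 1 + ζ + ζ ^ 2 + ζ ^ 3 + ζ ^ 4 = 0 := by
  have := h.geom_sum_eq_zero (by norm_num)
  simpa [Finset.sum_range_succ] using this

theorem cW_inj (h : IsPrimitiveRoot ζ 5) (h0 : δ ≠ 0) {m : Fin 5}
    (hm : cW ζ δ m = cW ζ δ 1) : m = 1 := by
  have hs := low_sum h
  obtain ⟨c0, c1, c2, c3, c4⟩ := cW_c (ζ := ζ) (δ := δ)
  have h5 : (5 : Ω) * δ ≠ 0 := mul_ne_zero (by norm_num) h0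
  have h10 : (10 : Ω) * δ ≠ 0 := mul_ne_zero (by norm_num) h0
  revert hm
  refine all5 (p := fun m => cW ζ δ m = cW ζ δ 1 → m = 1) ?_ ?_ ?_ ?_ ?_ m
  · intro hm
    rw [c0, c1] at hm
    exact absurd (by
      linear_combination ((2) * ζ ^ 0 + (4) * ζ ^ 1 + (1) * ζ ^ 2 + (3) * ζ ^ 3) * hm + δ * ((5) * ζ ^ 0 + (-3) * ζ ^ 1 + (2) * ζ ^ 2 + (-3) * ζ ^ 3) * hs) h5
  · exact fun _ => rfl
  · intro hm
    rw [c2, c1] at hm
    exact absurd (by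
      linear_combination ((3) * ζ ^ 0 + (6) * ζ ^ 1 + (4) * ζ ^ 2 + (2) * ζ ^ 3) * hm + δ * ((5) * ζ ^ 0 + (-2) * ζ ^ 1 + (-2) * ζ ^ 3) * hs) h5
  · intro hm
    rw [c3, c1] at hm
    exact absurd (by
      linear_combination ((-1) * ζ ^ 0 + (-2) * ζ ^ 1 + (2) * ζ ^ 2 + (-4) * ζ ^ 3) * hm + δ * ((5) * ζ ^ 0 + (-6) * ζ ^ 1 + (-2) * ζ ^ 2 + (4) * ζ ^ 3) * hs) h5
  · intro hm
    rw [c4, c1] at hm
    exact absurd (by
      linear_combination ((2) * ζ ^ 0 + (4) * ζ ^ 1 + (1) * ζ ^ 2 + (3) * ζ ^ 3) * hm + δ * ((10) * ζ ^ 0 + (-6) * ζ ^ 1 + (4) * ζ ^ 2 + (-6) * ζ ^ 3) * hs) h10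

theorem xx_map (h : ζ ^ 5 = 1) {ρ B : Fin 5 → Ω} (h0 : ρ 0 = 0) (hB : Eqv ζ δ B)
    {g : Ω ≃ₐ[ℚ] Ω} {a s e : Fin 5} (hg : Cls ζ δ g a s)
    (hρ : ∀ j, g (ρ j) = cE ζ (j * e) * ρ (j * (s * a))) (i : Fin 5) :
    g (xx ζ ρ B i) = xx ζ ρ B (s * i - e * ((s * a) * (s * a) * (s * a))) := by
  have hs : s = 1 ∨ s = -1 := hg.2.2.imp And.left And.left
  have hb : ∀ a s : Fin 5, a ≠ 0 → (s = 1 ∨ s = -1) →
      Function.Bijective fun j : Fin 5 => j * (s * a) := by decide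
  have he : ∀ a s e i j : Fin 5, a ≠ 0 → (s = 1 ∨ s = -1) →
      -((s * i - e * ((s * a) * (s * a) * (s * a))) * (j * (s * a))) = a * -(i * j) + j * e := by
    decide +kernel
  unfold xx
  rw [map_sum]
  refine Fintype.sum_bijective _ (hb a s hg.2.1 hs) _ _ fun j => ?_
  by_cases hj : j = 0
  · subst hj
    simp [h0]
  · rw [map_mul, map_mul, cE_map h hg.1, hB g a s hg j hj, hρ, he a s e i j hg.2.1 hs, cE_add h]
    ring

theorem low_sigma (h : IsPrimitiveRoot ζ 5) {n : ℕ} (hδ : δ ^ 2 = -(n : Ω)) :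
    ∃ σ : Ω ≃ₐ[ℚ] Ω, ∀ j, σ (cW ζ δ j) = cW ζ δ (j * 2) := by
  have h2 : IsPrimitiveRoot (ζ ^ 2) 5 := h.pow_of_coprime 2 (by norm_num)
  have hc : IsConjRoot ℚ (ζ ^ 2) ζ := by
    unfold IsConjRoot
    rw [← Polynomial.cyclotomic_eq_minpoly_rat h (by norm_num),
      ← Polynomial.cyclotomic_eq_minpoly_rat h2 (by norm_num)]
  obtain ⟨g, hg⟩ := hc.exists_algEquiv
  obtain ⟨a, s, -, -, ⟨-, h3⟩ | ⟨-, h3⟩⟩ := cls_exists h hδ g
  · exact ⟨g, fun j => cW_map h.pow_eq_one (a := 2) (s := 1)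
      ⟨hg, by decide, Or.inl ⟨rfl, h3⟩⟩ j⟩
  · have h4 := cW_map h.pow_eq_one (a := 2) (s := -1) ⟨hg, by decide, Or.inr ⟨rfl, h3⟩⟩
    refine ⟨g * g * g, fun j => ?_⟩
    have e : ∀ j : Fin 5, j * (-1 * 2) * (-1 * 2) * (-1 * 2) = j * 2 := by decide
    rw [AlgEquiv.mul_apply, AlgEquiv.mul_apply, h4, h4, h4, e]

theorem low_kummer (ι : Ω →+* ℂ) (h : IsPrimitiveRoot ζ 5) {n : ℕ} (hδ : δ ^ 2 = -(n : Ω))
    (h0 : δ ≠ 0) (hr : (starRingEnd ℂ) (ι (cW ζ δ 1)) = ι (cW ζ δ 1)) :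
    ∃ ρ : Fin 5 → Ω, ρ 0 = 0 ∧ (∀ j, IsIntegral ℤ (ρ j)) ∧ ρ 1 * ρ 4 = 1 ∧ ρ 2 * ρ 3 = 1 ∧
      (∀ g : Ω ≃ₐ[ℚ] Ω, ∃ b : Fin 5,
        (g δ = δ ∧ ∀ B, Eqv ζ δ B → ∀ i, g (xx ζ ρ B i) = xx ζ ρ B (b + i)) ∨
        (g δ = -δ ∧ ∀ B, Eqv ζ δ B → ∀ i, g (xx ζ ρ B i) = xx ζ ρ B (b - i))) ∧
      ∃ (g : Ω ≃ₐ[ℚ] Ω) (b : Fin 5), b ≠ 0 ∧ ∀ i, g (xx ζ ρ 1 i) = xx ζ ρ 1 (b + i) := by
  have h5 := h.pow_eq_one
  obtain ⟨σ, hσ⟩ := low_sigma h hδ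
  obtain ⟨c0, c1, c2, c3, c4⟩ := cW_c (ζ := ζ) (δ := δ)
  set w := cW ζ δ 1 with hw
  have s1 : σ w = cW ζ δ 2 := hσ 1
  have s2 : σ (σ w) = cW ζ δ 4 := by rw [s1]; exact hσ 2
  have s3 : σ (σ (σ w)) = cW ζ δ 3 := by rw [s2]; exact hσ 4
  have hw0 : w ≠ 0 := fun hh => absurd (cW_inj h h0 (m := 0) (c0.trans hh.symm)) (by decide)
  have hm0 : ∀ {g a s}, Cls ζ δ g a s → s * a ≠ 0 := by
    intro g a s hg
    have e : ∀ a s : Fin 5, a ≠ 0 → (s = 1 ∨ s = -1) → s * a ≠ 0 := by decide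
    exact e a s hg.2.1 (hg.2.2.imp And.left And.left)
  have hgw : ∀ {g a s}, Cls ζ δ g a s → g w = cW ζ δ (s * a) := by
    intro g a s hg
    rw [hw, cW_map h5 hg, one_mul]
  obtain ⟨u, hu, hi, h1, hne⟩ := low_unit ι hw0 (σ := σ) (by rw [s2, c4, c1]; ring) hr
    (by
      intro g hg
      obtain ⟨a, s, hc⟩ := cls_exists h hδ g
      have := cW_inj h h0 ((hgw hc).symm.trans hg)
      rw [s1, cW_map h5 hc, this, mul_one])
    (by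
      intro g
      obtain ⟨a, s, hc⟩ := cls_exists h hδ g
      rw [hgw hc, s3, s2, s1]
      have := hm0 hc
      revert this
      refine all5 (p := fun m => m ≠ 0 → cW ζ δ m = cW ζ δ 1 ∨ cW ζ δ m = cW ζ δ 2 ∨
        cW ζ δ m = cW ζ δ 4 ∨ cW ζ δ m = cW ζ δ 3) ?_ ?_ ?_ ?_ ?_ (s * a) <;> simp)
  have hag : ∀ g τ : Ω ≃ₐ[ℚ] Ω, g w = τ w → ∀ y ∈ ℚ⟮w⟯, g y = τ y := by
    intro g τ h y hy
    have h1 : (τ⁻¹ * g) w = w := by
      simp only [AlgEquiv.mul_apply, h]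
      exact τ.symm_apply_apply w
    have h3 := congrArg τ (low_fix h1 hy)
    simp only [AlgEquiv.mul_apply] at h3
    exact (τ.apply_symm_apply _).symm.trans h3
  let τ : Fin 5 → (Ω ≃ₐ[ℚ] Ω) := ![1, 1, σ, σ * σ * σ, σ * σ]
  have hτ : ∀ j, j ≠ 0 → τ j w = cW ζ δ j :=
    all5 (fun hh => absurd rfl hh) (fun _ => rfl) (fun _ => s1) (fun _ => s3) (fun _ => s2)
  let U : Fin 5 → Ω := fun j => τ j u
  have hU : Eqv ζ δ U := by
    intro g a s hg j hj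
    have e : ∀ j m : Fin 5, j ≠ 0 → m ≠ 0 → j * m ≠ 0 := by decide
    refine hag (g * τ j) (τ (j * (s * a))) ?_ u hu
    rw [AlgEquiv.mul_apply, hτ j hj, hτ _ (e _ _ hj (hm0 hg)), cW_map h5 hg]
  have hu0 : u ≠ 0 := left_ne_zero_of_mul_eq_one h1
  have hs0 : σ u ≠ 0 := by simpa using hu0
  have h1' : σ u * σ (σ (σ u)) = 1 := by rw [← map_mul, h1, map_one]
  have U1 : U 1 = u := rfl
  have U2 : U 2 = σ u := rfl
  have U3 : U 3 = (σ u)⁻¹ := eq_inv_of_mul_eq_one_right h1'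
  have U4 : U 4 = u⁻¹ := eq_inv_of_mul_eq_one_right h1
  obtain ⟨r, hr5⟩ := IsAlgClosed.exists_pow_nat_eq (u ^ 2 * σ u) (n := 5) (by norm_num)
  have hr0 : r ≠ 0 := by
    rintro rfl
    exact mul_ne_zero (pow_ne_zero 2 hu0) hs0 (by rw [← hr5]; simp)
  have hsu : σ u = r ^ 5 / u ^ 2 := by rw [hr5]; field_simp
  let ρ : Fin 5 → Ω := ![0, r, r ^ 2 / u, u / r ^ 2, r⁻¹]
  have r0 : ρ 0 = 0 := rfl
  have r1 : ρ 1 = r := rfl
  have r2 : ρ 2 = r ^ 2 / u := rfl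
  have r3 : ρ 3 = u / r ^ 2 := rfl
  have r4 : ρ 4 = r⁻¹ := rfl
  have hUi : ∀ j, IsIntegral ℤ (U j) := fun j => hi.map ((τ j).toAlgHom.restrictScalars ℤ)
  have hU0 : ∀ j, U j ≠ 0 := fun j => by simpa [U] using hu0
  have hrec : ∀ j, ρ (j * 2) = ρ j ^ 2 / U j := by
    refine all5 ?_ ?_ ?_ ?_ ?_
    · change ρ 0 = _
      simp [r0]
    · rfl
    · change ρ 4 = _
      rw [r4, r2, U2, hsu]
      field_simp
    · change ρ 1 = _
      rw [r1, r3, U3, hsu]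
      field_simp
    · change ρ 3 = _
      rw [r3, r4, U4]
      field_simp
  have hp5 : ∀ j, j ≠ 0 → ρ j ^ 5 = U j ^ 2 * U (j * 2) := by
    refine all5 (fun hh => absurd rfl hh) (fun _ => hr5) (fun _ => ?_) (fun _ => ?_) (fun _ => ?_)
    · change _ = _ * U 4
      rw [r2, U2, U4, hsu]
      field_simp
    · change _ = _ * U 1
      rw [r3, U3, U1, hsu]
      field_simp
    · change _ = _ * U 3
      rw [r4, U4, U3, hsu]
      field_simp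
  have hρ0 : ∀ j, j ≠ 0 → ρ j ≠ 0 := by
    intro j hj hh
    have := hp5 j hj
    rw [hh] at this
    exact mul_ne_zero (pow_ne_zero 2 (hU0 _)) (hU0 _) (by rw [← this]; simp)
  have hact : ∀ {g a s}, Cls ζ δ g a s →
      ∃ e, ∀ j, g (ρ j) = cE ζ (j * e) * ρ (j * (s * a)) := by
    intro g a s hg
    have hm := hm0 hg
    obtain ⟨e, he⟩ := cE_root h (x := g r / ρ (s * a)) (by
      have e1 := hU g a s hg 1 (by decide)
      have e2 := hU g a s hg 2 (by decide)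
      rw [div_pow, ← map_pow, hr5, hp5 _ hm, map_mul, map_pow, ← U2, ← U1, e1, e2, one_mul,
        mul_comm (s * a) 2]
      exact div_self (mul_ne_zero (pow_ne_zero 2 (hU0 _)) (hU0 _)))
    have p1 : g (ρ 1) = cE ζ (1 * e) * ρ (1 * (s * a)) := by
      rw [one_mul, one_mul, ← he, r1, div_mul_cancel₀ _ (hρ0 _ hm)]
    have step : ∀ j, j ≠ 0 → g (ρ j) = cE ζ (j * e) * ρ (j * (s * a)) →
        g (ρ (j * 2)) = cE ζ (j * 2 * e) * ρ (j * 2 * (s * a)) := by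
      intro j hj hh
      have e1 : ∀ j e m : Fin 5, j * 2 * e = j * e + j * e ∧ j * 2 * m = j * m * 2 := by decide
      rw [hrec, map_div₀, map_pow, hh, hU g a s hg j hj, (e1 j e (s * a)).1, (e1 j e (s * a)).2,
        hrec, cE_add h5]
      ring
    have p2 := step 1 (by decide) p1
    have p4 := step 2 (by decide) p2
    have p3 := step 4 (by decide) p4
    refine ⟨e, all5 ?_ p1 p2 p3 p4⟩
    simp [r0]
  refine ⟨ρ, r0, ?_, by rw [r1, r4]; field_simp, by rw [r2, r3]; field_simp, ?_, ?_⟩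
  · intro j
    by_cases hj : j = 0
    · rw [hj, r0]
      exact isIntegral_zero
    · refine IsIntegral.of_pow (n := 5) (by norm_num) ?_
      rw [hp5 j hj]
      exact ((hUi _).pow 2).mul (hUi _)
  · intro g
    obtain ⟨a, s, hg⟩ := cls_exists h hδ g
    obtain ⟨e, he⟩ := hact hg
    refine ⟨-(e * ((s * a) * (s * a) * (s * a))), ?_⟩
    have e1 : ∀ i b : Fin 5, 1 * i - b = -b + i ∧ -1 * i - b = -b - i := by decide
    rcases hg.2.2 with ⟨hs, h3⟩ | ⟨hs, h3⟩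
    · refine Or.inl ⟨h3, fun B hB i => ?_⟩
      rw [xx_map h5 r0 hB hg he, ← (e1 _ _).1, hs]
    · refine Or.inr ⟨h3, fun B hB i => ?_⟩
      rw [xx_map h5 r0 hB hg he, ← (e1 _ _).2, hs]
  · by_contra hc
    have hfix : ∀ g : Ω ≃ₐ[ℚ] Ω, g ζ = ζ → g δ = δ → g r = r := by
      intro g g1 g2
      have hg : Cls ζ δ g 1 1 := ⟨by simpa [cE] using g1, by decide, Or.inl ⟨rfl, g2⟩⟩
      obtain ⟨e, he⟩ := hact hg
      by_cases h3 : e = 0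
      · have := he 1
        rw [h3] at this
        simpa [cE, r1] using this
      · refine absurd ⟨g, -e, neg_ne_zero.2 h3, fun i => ?_⟩ hc
        have e1 : ∀ i e : Fin 5, 1 * i - e * ((1 * 1) * (1 * 1) * (1 * 1)) = -e + i := by decide
        rw [xx_map h5 r0 eqv_one hg he, e1]
    have hK : ∀ g : Ω ≃ₐ[ℚ] Ω, g w = w →
        (g ζ = ζ ∧ g δ = δ) ∨ (Cls ζ δ g (-1) (-1) ∧ g δ = -δ) := by
      intro g hg
      obtain ⟨a, s, hcl⟩ := cls_exists h hδ g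
      have hm := cW_inj h h0 ((hgw hcl).symm.trans hg)
      have e1 : ∀ a : Fin 5, (1 * a = 1 → a = 1) ∧ (-1 * a = 1 → a = -1) := by decide
      rcases hcl.2.2 with ⟨rfl, h3⟩ | ⟨rfl, h3⟩
      · obtain rfl := (e1 a).1 hm
        exact Or.inl ⟨by simpa [cE] using hcl.1, h3⟩
      · obtain rfl := (e1 a).2 hm
        exact Or.inr ⟨hcl, h3⟩
    by_cases hex : ∃ g₀ : Ω ≃ₐ[ℚ] Ω, Cls ζ δ g₀ (-1) (-1) ∧ g₀ δ = -δ
    · obtain ⟨g₀, hg₀, hd₀⟩ := hex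
      obtain ⟨e, he⟩ := hact hg₀
      have he1 : g₀ r = cE ζ (1 * e) * r := he 1
      have hy : g₀ (cE ζ (3 * e) * r) = cE ζ (3 * e) * r := by
        have e1 : ∀ e : Fin 5, -1 * (3 * e) + 1 * e = 3 * e := by decide
        rw [map_mul, cE_map h5 hg₀.1, he1, ← mul_assoc, ← cE_add h5, e1]
      have hy' : ∀ g : Ω ≃ₐ[ℚ] Ω, g ζ = ζ → g δ = δ →
          g (cE ζ (3 * e) * r) = cE ζ (3 * e) * r := by
        intro g g1 g2
        rw [map_mul, hfix g g1 g2, cE, map_pow, g1]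
      refine hne (cE ζ (3 * e) * r) (low_mem fun g hg => ?_) ?_
      · rcases hK g hg with ⟨g1, g2⟩ | ⟨g1, g2⟩
        · exact hy' g g1 g2
        · have := hy' (g₀⁻¹ * g) (by
            rw [AlgEquiv.mul_apply, g1.1, ← hg₀.1]; exact g₀.symm_apply_apply _) (by
            rw [AlgEquiv.mul_apply, g2, ← hd₀]; exact g₀.symm_apply_apply _)
          have h7 := congrArg g₀ this
          rw [hy, AlgEquiv.mul_apply] at h7
          exact (g₀.apply_symm_apply _).symm.trans h7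
      · rw [mul_pow, hr5, cE, ← pow_mul, mul_comm _ 5, pow_mul, h5, one_pow, one_mul]
    · refine hne r (low_mem fun g hg => ?_) hr5
      rcases hK g hg with ⟨g1, g2⟩ | hh
      · exact hfix g g1 g2
      · exact absurd ⟨g, hh⟩ hex

end Pool.Agent.Lib.MP_af4c59_nt.H57
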