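import Pool.Agent.Lib.MP_af4c59_nt.H57Defs

/-!
The pentagon of embeddings.
-/

set_option autoImplicit false

namespace Pool.Agent.Lib.MP_af4c59_nt.H57

open Matrix

open NumberField

/-- Elements of the dihedral group are rotations or reflections. -/
theorem mem_D5 {τ : Equiv.Perm (Fin 5)} (h : τ ∈ D5) :
    ∃ a : Fin 5, (∀ i, τ i = a + i) ∨ ∀ i, τ i = a - i := by
  unfold D5 at h
  induction h using Subgroup.closure_induction with
  | mem x hx =>
    rcases hx with rfl | rfl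
    · exact ⟨1, Or.inl (by decide)⟩
    · exact ⟨4, Or.inr (by decide)⟩
  | one => exact ⟨0, Or.inl fun i => by simp⟩
  | mul x y _ _ hx hy =>
    obtain ⟨a, ha | ha⟩ := hx <;> obtain ⟨b, hb | hb⟩ := hy
    · exact ⟨a + b, Or.inl fun i => by rw [Equiv.Perm.mul_apply, hb, ha]; abel⟩
    · exact ⟨a + b, Or.inr fun i => by rw [Equiv.Perm.mul_apply, hb, ha]; abel⟩
    · exact ⟨a - b, Or.inr fun i => by rw [Equiv.Perm.mul_apply, hb, ha]; abel⟩
    · exact ⟨a - b, Or.inl fun i => by rw [Equiv.Perm.mul_apply, hb, ha]; abel⟩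
  | inv x _ hx =>
    obtain ⟨a, ha | ha⟩ := hx
    · refine ⟨-a, Or.inl fun i => x.injective ?_⟩
      rw [Equiv.Perm.inv_def, Equiv.apply_symm_apply, ha]; abel
    · refine ⟨a, Or.inr fun i => x.injective ?_⟩
      rw [Equiv.Perm.inv_def, Equiv.apply_symm_apply, ha]; abel

theorem penta_base (L : IntermediateField ℚ Ω) (e : (↥L →ₐ[ℚ] Ω) ≃ Fin 5) :
    ∃ i : Fin 5, ∀ x : L, e.symm i x = x :=
  ⟨e L.val, fun x => DFunLike.congr_fun (e.symm_apply_apply L.val) x⟩

/-- Galois descent for families indexed by the embeddings. -/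
theorem descent (L : IntermediateField ℚ Ω) [NumberField L] (e : (↥L →ₐ[ℚ] Ω) ≃ Fin 5)
    (z : Fin 5 → Ω)
    (h : ∀ (σ : Ω ≃ₐ[ℚ] Ω) (i : Fin 5), σ (z i) = z (e (σ.toAlgHom.comp (e.symm i)))) :
    ∃ y : L, ∀ i, e.symm i y = z i := by
  obtain ⟨i0, hi0⟩ := penta_base L e
  have hmem : z i0 ∈ IntermediateField.fixedField L.fixingSubgroup := by
    rw [IntermediateField.mem_fixedField_iff]
    intro σ hσ
    rw [h σ]
    congr 1
    rw [← Equiv.eq_symm_apply]
    refine AlgHom.ext fun x => ?_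
    show σ (e.symm i0 x) = e.symm i0 x
    rw [hi0]
    exact (IntermediateField.mem_fixingSubgroup_iff L σ).1 hσ x x.2
  rw [InfiniteGalois.fixedField_fixingSubgroup L] at hmem
  refine ⟨⟨z i0, hmem⟩, fun i => ?_⟩
  obtain ⟨σ, hσ⟩ := exists_extend L (e.symm i)
  rw [← hσ]
  show σ (z i0) = z i
  rw [h σ]
  congr 1
  rw [← Equiv.eq_symm_apply]
  refine AlgHom.ext fun x => ?_
  show σ (e.symm i0 x) = e.symm i x
  rw [hi0]
  exact hσ x

/-- The permutation of the embeddings induced by an automorphism. -/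
noncomputable def penta_perm {L : IntermediateField ℚ Ω} (e : (↥L →ₐ[ℚ] Ω) ≃ Fin 5) (σ : Ω ≃ₐ[ℚ] Ω) :
    Equiv.Perm (Fin 5) where
  toFun i := e (σ.toAlgHom.comp (e.symm i))
  invFun i := e (σ.symm.toAlgHom.comp (e.symm i))
  left_inv i := by
    simp only [Equiv.symm_apply_apply]
    rw [← Equiv.eq_symm_apply]
    ext x
    simp
  right_inv i := by
    simp only [Equiv.symm_apply_apply]
    rw [← Equiv.eq_symm_apply]
    ext x
    simp

theorem penta_desc (L : IntermediateField ℚ Ω) [NumberField L] (e : (↥L →ₐ[ℚ] Ω) ≃ Fin 5)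
    (z : Fin 5 → Ω) (hz : IsIntegral ℤ (z 0))
    (h : ∀ (σ : Ω ≃ₐ[ℚ] Ω) (i : Fin 5), σ (z i) = z (penta_perm e σ i)) :
    ∃ y : 𝓞 L, ∀ i, e.symm i (y : L) = z i := by
  obtain ⟨y, hy⟩ := descent L e z h
  refine ⟨⟨y, ?_⟩, hy⟩
  rw [← hy 0] at hz
  exact (isIntegral_algHom_iff (e.symm 0).toRingHom.toIntAlgHom (e.symm 0).injective).1 hz

theorem pent_exists (ι : Ω →+* ℂ) (L : IntermediateField ℚ Ω) [NumberField L]
    (h5 : Module.finrank ℚ L = 5) (hG : HasGal 5 D5 L) :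
    ∃ φ : Fin 5 → (L →+* ℂ), Pent φ ∧ ∃ i, ∀ x : L, φ i x = ι x := by
  obtain ⟨e, he⟩ := hG
  have hD : ∀ σ : Ω ≃ₐ[ℚ] Ω, ∃ a : Fin 5,
      (∀ i, penta_perm e σ i = a + i) ∨ ∀ i, penta_perm e σ i = a - i := fun σ =>
    mem_D5 ((he _).2 ⟨σ, fun φ => by
      show e (σ.toAlgHom.comp (e.symm (e φ))) = _
      rw [e.symm_apply_apply]⟩)
  have hσ : ∀ (σ : Ω ≃ₐ[ℚ] Ω) (i : Fin 5) (x : L),
      σ (e.symm i x) = e.symm (penta_perm e σ i) x := fun σ i x => by
    show _ = e.symm (e (σ.toAlgHom.comp (e.symm i))) x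
    rw [e.symm_apply_apply]
    rfl
  have hI : ∀ (i : Fin 5) (x : 𝓞 L), IsIntegral ℤ (e.symm i (x : L)) := fun i x =>
    map_isIntegral_int (e.symm i) x.2
  obtain ⟨i0, hi0⟩ := penta_base L e
  refine ⟨fun i => ι.comp (e.symm i).toRingHom, ⟨h5, ?_, ?_, ?_⟩, i0, fun x => ?_⟩
  · intro i j hij
    apply e.symm.injective
    ext x
    exact ι.injective (congrArg (fun f : L →+* ℂ => f x) hij)
  · intro x
    obtain ⟨y, hy⟩ := penta_desc L e (fun i => e.symm (i + 1) (x : L) + e.symm (i - 1) (x : L))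
      ((hI _ x).add (hI _ x)) (fun σ i => by
        obtain ⟨a, ha | ha⟩ := hD σ
        · rw [map_add, hσ, hσ, ha, ha, ha, add_assoc, add_sub_assoc]
        · rw [map_add, hσ, hσ, ha, ha, ha, add_comm, ← sub_add, ← sub_sub])
    refine ⟨y, funext fun i => ?_⟩
    show ι (e.symm i (y : L)) = ι (e.symm (i + 1) (x : L)) + ι (e.symm (i - 1) (x : L))
    rw [hy, map_add]
  · intro x y
    obtain ⟨w, hw⟩ := penta_desc L e
      (fun i => ∑ b : Fin 5, e.symm (i + b) (x : L) * e.symm (i - b) (y : L))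
      (IsIntegral.sum _ fun b _ => (hI _ x).mul (hI _ y)) (fun σ i => by
        obtain ⟨a, ha | ha⟩ := hD σ
        · rw [map_sum]
          refine Finset.sum_congr rfl fun b _ => ?_
          rw [map_mul, hσ, hσ, ha, ha, ha, add_assoc, add_sub_assoc]
        · rw [map_sum]
          refine Fintype.sum_equiv (Equiv.neg _) _ _ fun b => ?_
          rw [map_mul, hσ, hσ, ha, ha, ha, Equiv.neg_apply, sub_neg_eq_add, ← sub_eq_add_neg,
            ← sub_add, ← sub_sub])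
    refine ⟨w, funext fun i => ?_⟩
    show ι (e.symm i (w : L)) =
      ∑ b : Fin 5, ι (e.symm (i + b) (x : L)) * ι (e.symm (i - b) (y : L))
    rw [hw, map_sum]
    simp only [map_mul]
  · show ι (e.symm i0 x) = ι x
    rw [hi0]

end Pool.Agent.Lib.MP_af4c59_nt.H57
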