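import Pool.Agent.Lib.MP_af4c59_nt.H57LowB
import Pool.Agent.Lib.MP_af4c59_nt.H57Four
import Pool.Agent.Lib.MP_af4c59_nt.H57PentA

/-!
A dihedral quintic field of small discriminant over every imaginary quadratic field.
-/

set_option autoImplicit false

namespace Pool.Agent.Lib.MP_af4c59_nt.H57

open NumberField IntermediateField

theorem ft_ift (X : Fin 5 → ℂ) : Eq0 (ft (ift X)) ((5 : ℂ) • X) := by
  obtain ⟨-, c1, c2, c3, c4⟩ := ft_c (ift X)
  refine all5 (fun h => absurd rfl h) (fun _ => ?_) (fun _ => ?_) (fun _ => ?_) (fun _ => ?_)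
  · rw [c1]
    simp only [ift, Pi.smul_apply, smul_eq_mul, Fin.coe_ofNat_eq_mod]
    ring_nf; simp only [four0_p, four0_p4]; ring
  · rw [c2]
    simp only [ift, Pi.smul_apply, smul_eq_mul, Fin.coe_ofNat_eq_mod]
    ring_nf; simp only [four0_p, four0_p4]; ring
  · rw [c3]
    simp only [ift, Pi.smul_apply, smul_eq_mul, Fin.coe_ofNat_eq_mod]
    ring_nf; simp only [four0_p, four0_p4]; ring
  · rw [c4]
    simp only [ift, Pi.smul_apply, smul_eq_mul, Fin.coe_ofNat_eq_mod]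
    ring_nf; simp only [four0_p, four0_p4]; ring

theorem low_iota {ι : Ω →+* ℂ} {ζ : Ω} (hι : ι ζ = z5) {ρ : Fin 5 → Ω} (h0 : ρ 0 = 0)
    (B : Fin 5 → Ω) (i : Fin 5) : ι (xx ζ ρ B i) = ift (fun j => ι (B j) * ι (ρ j)) i := by
  have e : ∀ i : Fin 5, (-(i * 1)).val = 4 * i.val % 5 ∧ (-(i * 2)).val = 3 * i.val % 5 ∧
      (-(i * 3)).val = 2 * i.val % 5 ∧ (-(i * 4)).val = i.val % 5 := by decide
  obtain ⟨e1, e2, e3, e4⟩ := e i
  simp only [xx, ift, cE, Fin.sum_univ_five, map_add, map_mul, map_pow, hι, h0, e1, e2, e3, e4,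
    ← pow_eq_pow_mod _ z5_pow, map_zero]
  ring

theorem low_D5 (b : Fin 5) : (∃ τ ∈ D5, ∀ i, τ i = b + i) ∧ ∃ τ ∈ D5, ∀ i, τ i = b - i := by
  have h1 : finRotate 5 ∈ D5 := Subgroup.subset_closure (by simp)
  have h2 : (Fin.revPerm : Equiv.Perm (Fin 5)) ∈ D5 := Subgroup.subset_closure (by simp)
  refine ⟨⟨finRotate 5 ^ b.val, D5.pow_mem h1 _, ?_⟩,
    finRotate 5 ^ (b.val + 1) * Fin.revPerm, D5.mul_mem (D5.pow_mem h1 _) h2, ?_⟩
  · revert b
    decide +kernel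
  · revert b
    decide +kernel

theorem low_field (n : ℕ) (hn : 0 < n) : ∃ L ∈ FS 5 D5 ((5000 * (n : ℝ)) ^ 2), ∃ δ : Ω,
    δ ^ 2 = -(n : Ω) ∧ ∀ g : Ω ≃ₐ[ℚ] Ω,
      (g δ = δ ↔ ∀ h : Ω ≃ₐ[ℚ] Ω, ∀ y ∈ L, g (g (g (g (g (h y))))) = h y) := by
  classical
  have ι : Ω →+* ℂ := (IsAlgClosed.lift (R := ℚ) (S := Ω) (M := ℂ)).toRingHom
  obtain ⟨ζ, hι⟩ : ∃ ζ : Ω, ι ζ = z5 := by
    obtain ⟨ζ₀, h₀⟩ := HasEnoughRootsOfUnity.exists_primitiveRoot Ω 5
    obtain ⟨i, -, hi⟩ := (h₀.map_of_injective ι.injective).eq_pow_of_pow_eq_one z5_pow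
    exact ⟨ζ₀ ^ i, by rw [map_pow, hi]⟩
  have hζ : IsPrimitiveRoot ζ 5 :=
    IsPrimitiveRoot.of_map_of_injective (hι ▸ four0_prim) ι.injective
  have h5 := hζ.pow_eq_one
  obtain ⟨δ, hδ⟩ := IsAlgClosed.exists_pow_nat_eq (-(n : Ω)) (n := 2) (by norm_num)
  have hn' : (0 : ℝ) < n := by exact_mod_cast hn
  have h0 : δ ≠ 0 := by
    rintro rfl
    have : (n : Ω) = 0 := by linear_combination hδ
    exact hn.ne' (by exact_mod_cast this)
  have hd2 : ι δ ^ 2 = -(n : ℂ) := by rw [← map_pow, hδ, map_neg, map_natCast]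
  have hdn : ‖ι δ‖ ^ 2 = n := by rw [← norm_pow, hd2, norm_neg, Complex.norm_natCast]
  have hdc : (starRingEnd ℂ) (ι δ) = -ι δ := by
    have h1 := Complex.mul_conj (ι δ)
    rw [Complex.normSq_eq_norm_sq, hdn] at h1
    have h2 : ι δ ≠ 0 := by simpa using h0
    apply mul_left_cancel₀ h2
    rw [h1]
    push_cast
    linear_combination hd2
  obtain ⟨c0, c1, c2, c3, c4⟩ := cW_c (ζ := ζ) (δ := δ)
  obtain ⟨ρ, r0, ri, r14, r23, hall, g₁, b₁, hb₁, hg₁⟩ := low_kummer ι hζ hδ h0 (by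
    rw [c1]
    simp only [map_mul, map_sub, map_pow, hι, hdc, conj_z5]
    ring_nf; simp only [four0_p]; ring)
  set a := xx ζ ρ 1 with ha
  have hrot : ∀ c, ∃ g : Ω ≃ₐ[ℚ] Ω, ∀ i, g (a i) = a (c + i) := by
    have hadd : ∀ c d, (∃ g : Ω ≃ₐ[ℚ] Ω, ∀ i, g (a i) = a (c + i)) →
        (∃ g : Ω ≃ₐ[ℚ] Ω, ∀ i, g (a i) = a (d + i)) →
        ∃ g : Ω ≃ₐ[ℚ] Ω, ∀ i, g (a i) = a (c + d + i) := by
      rintro c d ⟨g, hg⟩ ⟨g', hg'⟩
      exact ⟨g * g', fun i => by rw [AlgEquiv.mul_apply, hg', hg, add_assoc]⟩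
    have k1 : ∃ g : Ω ≃ₐ[ℚ] Ω, ∀ i, g (a i) = a (b₁ + i) := ⟨g₁, hg₁⟩
    have k2 := hadd _ _ k1 k1
    have k3 := hadd _ _ k2 k1
    have k4 := hadd _ _ k3 k1
    have k5 := hadd _ _ k4 k1
    have e : ∀ b c : Fin 5, b ≠ 0 → c = b ∨ c = b + b ∨ c = b + b + b ∨ c = b + b + b + b ∨
        c = b + b + b + b + b := by decide
    intro c
    rcases e b₁ c hb₁ with h | h | h | h | h <;> rw [h] <;> assumption
  have hr1 : ι (ρ 1) * ι (ρ 4) = 1 := by rw [← map_mul, r14, map_one]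
  have hr2 : ι (ρ 2) * ι (ρ 3) = 1 := by rw [← map_mul, r23, map_one]
  have hinj : Function.Injective a := by
    intro i i' hii
    by_contra hne
    have hsh : ∀ c, a (c + i) = a (c + i') := by
      intro c
      obtain ⟨g, hg⟩ := hrot c
      rw [← hg, ← hg, hii]
    have hd : ∀ c, a (c + (i' - i)) = a c := by
      intro c
      have := hsh (c - i)
      rw [sub_add_cancel] at this
      rw [this]
      congr 1
      abel
    have e : ∀ d c : Fin 5, d ≠ 0 → c = 0 ∨ c = 0 + d ∨ c = 0 + d + d ∨ c = 0 + d + d + d ∨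
        c = 0 + d + d + d + d := by decide
    have hc : ∀ c, a c = a 0 := by
      intro c
      rcases e (i' - i) c (sub_ne_zero.2 (Ne.symm hne)) with h | h | h | h | h <;> rw [h] <;>
        simp only [hd]
    have h1 := ft_ift (fun j => ι ((1 : Fin 5 → Ω) j) * ι (ρ j)) 1 (by decide)
    rw [(ft_c _).2.1] at h1
    simp only [← low_iota hι r0, ← ha, hc] at h1
    simp only [Pi.smul_apply, Pi.one_apply, map_one, one_mul, smul_eq_mul] at h1
    have h2 : ι (ρ 1) = 0 := by linear_combination (ι (a 0) * z5_sum - h1) / 5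
    rw [h2, zero_mul] at hr1
    exact zero_ne_one hr1
  have hrefl : ∃ (g : Ω ≃ₐ[ℚ] Ω) (b : Fin 5), ∀ i, g (a i) = a (b - i) := by
    have : ∃ g : Ω ≃ₐ[ℚ] Ω, g δ ≠ δ := by
      by_contra hc
      have hm : δ ∈ ℚ⟮(0 : Ω)⟯ := low_mem fun g _ => not_not.1 fun hh => hc ⟨g, hh⟩
      rw [adjoin_zero] at hm
      obtain ⟨q, hq⟩ := IntermediateField.mem_bot.1 hm
      rw [← hq, ← map_pow, ← map_natCast (algebraMap ℚ Ω), ← map_neg] at hδ
      have h1 := (algebraMap ℚ Ω).injective hδ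
      have h2 : (0 : ℚ) < n := by exact_mod_cast hn
      nlinarith [sq_nonneg q]
    obtain ⟨g, hg⟩ := this
    obtain ⟨b, ⟨h1, -⟩ | ⟨-, h1⟩⟩ := hall g
    · exact absurd h1 hg
    · exact ⟨g, b, h1 1 eqv_one⟩
  have := low_nf (a 0)
  obtain ⟨hdeg, hgal, e, he⟩ := gal_of_roots D5 a hinj 0 ℚ⟮a 0⟯ (mem_adjoin_simple_self ℚ _)
    (fun σ hσ x hx => low_fix hσ hx)
    (fun σ => by
      obtain ⟨b, ⟨-, h1⟩ | ⟨-, h1⟩⟩ := hall σ
      · obtain ⟨τ, hτ, h2⟩ := (low_D5 b).1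
        exact ⟨τ, hτ, fun i => by rw [h2]; exact h1 1 eqv_one i⟩
      · obtain ⟨τ, hτ, h2⟩ := (low_D5 b).2
        exact ⟨τ, hτ, fun i => by rw [h2]; exact h1 1 eqv_one i⟩)
    (fun τ hτ => by
      obtain ⟨c, h1 | h1⟩ := mem_D5 hτ
      · obtain ⟨g, hg⟩ := hrot c
        exact ⟨g, fun i => by rw [h1, hg]⟩
      · obtain ⟨g, b, hg⟩ := hrefl
        obtain ⟨g', hg'⟩ := hrot (c - b)
        refine ⟨g' * g, fun i => ?_⟩
        rw [h1, AlgEquiv.mul_apply, hg, hg']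
        congr 1
        abel)
    (fun i => by
      obtain ⟨τ, hτ, h2⟩ := (low_D5 i).1
      exact ⟨τ, hτ, by rw [h2, add_zero]⟩)
  have hval : ∀ (g : Ω ≃ₐ[ℚ] Ω) (i : Fin 5), g (a 0) = a i → ∀ B, Eqv ζ δ B →
      g (xx ζ ρ B 0) = xx ζ ρ B i := by
    intro g i hg B hB
    obtain ⟨b, ⟨-, h1⟩ | ⟨-, h1⟩⟩ := hall g
    · have h2 := hinj ((h1 1 eqv_one 0).symm.trans hg)
      rw [h1 B hB, h2]
    · have h2 := hinj ((h1 1 eqv_one 0).symm.trans hg)
      rw [h1 B hB, h2]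
  refine ⟨ℚ⟮a 0⟯, mem_FS hdeg hgal ?_, δ, hδ, fun g => ⟨fun hg h y hy => ?_, fun hg => ?_⟩⟩
  · have hmem : ∀ B, Eqv ζ δ B → xx ζ ρ B 0 ∈ ℚ⟮a 0⟯ := fun B hB =>
      low_mem fun g hg => hval g 0 hg B hB
    have hζi : ∀ k, IsIntegral ℤ (cE ζ k) := fun k => (hζ.isIntegral (by norm_num)).pow _
    have hδi : IsIntegral ℤ δ := IsIntegral.of_pow (n := 2) (by norm_num)
      (hδ ▸ (isIntegral_natCast n).neg)
    have hxi : ∀ B : Fin 5 → Ω, (∀ j, IsIntegral ℤ (B j)) → IsIntegral ℤ (xx ζ ρ B 0) :=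
      fun B hB => IsIntegral.sum _ fun j _ => ((hζi _).mul (hB j)).mul (ri j)
    have hT : ∀ j, IsIntegral ℤ (cT ζ j) := fun j => (hζi _).add (hζi _)
    have hW : ∀ j, IsIntegral ℤ (cW ζ δ j) := fun j => hδi.mul ((hζi _).sub (hζi _))
    have q1 : Eqv ζ δ 1 := eqv_one
    have q2 : Eqv ζ δ (cT ζ) := eqv_cT h5
    have q3 : Eqv ζ δ (cW ζ δ) := eqv_cW h5
    have q4 := q2.mul q3
    let b : Fin 5 → ℚ⟮a 0⟯ := ![1, ⟨_, hmem _ q1⟩, ⟨_, hmem _ q2⟩, ⟨_, hmem _ q3⟩, ⟨_, hmem _ q4⟩]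
    have hbi : ∀ k, IsIntegral ℤ (b k) := by
      have hh : ∀ z : ℚ⟮a 0⟯, IsIntegral ℤ (z : Ω) → IsIntegral ℤ z := fun z hz =>
        (isIntegral_algHom_iff (ℚ⟮a 0⟯.val.restrictScalars ℤ) Subtype.val_injective).1 hz
      exact all5 isIntegral_one (hh _ (hxi _ fun _ => isIntegral_one)) (hh _ (hxi _ hT))
        (hh _ (hxi _ hW)) (hh _ (hxi _ fun j => (hT j).mul (hW j)))
    let X : (Fin 5 → Ω) → Fin 5 → ℂ := fun B j => ι (B j) * ι (ρ j)
    let M : Fin 5 → Fin 5 → ℂ :=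
      ![fun _ => 1, ift (X 1), ift (X (cT ζ)), ift (X (cW ζ δ)), ift (X (cT ζ * cW ζ δ))]
    have hM : ι.mapMatrix (Algebra.embeddingsMatrixReindex ℚ Ω b e) = Matrix.of M := by
      ext k i
      obtain ⟨g, hg⟩ := hrot i
      have hg0 : g (a 0) = a i := by rw [hg, add_zero]
      change ι (e i (b k)) = M k i
      rw [he g i hg0]
      revert k
      refine all5 ?_ ?_ ?_ ?_ ?_
      · change ι (g 1) = 1
        simp
      · exact (congrArg ι (hval g i hg0 _ q1)).trans (low_iota hι r0 _ i)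
      · exact (congrArg ι (hval g i hg0 _ q2)).trans (low_iota hι r0 _ i)
      · exact (congrArg ι (hval g i hg0 _ q3)).trans (low_iota hι r0 _ i)
      · exact (congrArg ι (hval g i hg0 _ q4)).trans (low_iota hι r0 _ i)
    have hdisc : |((Algebra.discr ℚ b : ℚ) : ℝ)| = ‖(Matrix.of M).det‖ ^ 2 := by
      have h1 := congrArg ι (Algebra.discr_eq_det_embeddingsMatrixReindex_pow_two ℚ Ω b e)
      rw [map_pow, RingHom.map_det, hM, eq_ratCast, map_ratCast] at h1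
      rw [← norm_pow, ← h1, Complex.norm_ratCast]
    have hθ : ∀ j, j ≠ 0 → ι (cT ζ j) = ec j om := by
      obtain ⟨o1, o2, o3, o4⟩ := ec_om
      refine all5 (fun h => absurd rfl h) (fun _ => ?_) (fun _ => ?_) (fun _ => ?_) (fun _ => ?_)
      · change ι (ζ ^ 1 + ζ ^ 4) = _
        rw [o1, ← z5_th1, map_add, map_pow, map_pow, hι, pow_one]
      · change ι (ζ ^ 2 + ζ ^ 3) = _
        rw [o2, ← z5_th2, map_add, map_pow, map_pow, hι]
      · change ι (ζ ^ 3 + ζ ^ 2) = _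
        rw [o3, ← z5_th2, map_add, map_pow, map_pow, hι, add_comm]
      · change ι (ζ ^ 4 + ζ ^ 1) = _
        rw [o4, ← z5_th1, map_add, map_pow, map_pow, hι, pow_one, add_comm]
    have hF : (Matrix.of fun k j => ft (M k) j) = Matrix.of ![![5, 0, 0, 0, 0], ft (ift (X 1)),
        ft (ift (X (cT ζ))), ft (ift (X (cW ζ δ))), ft (ift (X (cT ζ * cW ζ δ)))] := by
      ext k j
      revert k
      refine all5 ?_ rfl rfl rfl rfl
      change ft (fun _ => 1) j = (![5, 0, 0, 0, 0] : Fin 5 → ℂ) j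
      obtain ⟨f0, f1, f2, f3, f4⟩ := ft_c fun _ => 1
      revert j
      refine all5 (f0.trans ?_) (f1.trans ?_) (f2.trans ?_) (f3.trans ?_) (f4.trans ?_)
      · change _ = (5 : ℂ)
        norm_num
      all_goals
        change _ = (0 : ℂ)
        linear_combination z5_sum
    have hdet := det_ft M
    rw [hF, det_frame _ _ _ _ (fun j hj => by
        beta_reduce
        rw [ft_ift _ j hj, ft_ift _ j hj]
        simp only [X, Pi.smul_apply, smul_eq_mul, hθ j hj, Pi.one_apply, map_one]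
        ring) (fun j hj => by
        beta_reduce
        rw [ft_ift _ j hj, ft_ift _ j hj]
        simp only [X, Pi.smul_apply, smul_eq_mul, Pi.mul_apply, map_mul, hθ j hj]
        ring), (d_congr (ft_ift _) (ft_ift _)).1, (d_congr (ft_ift _) (ft_ift _)).2] at hdet
    have hw4 : ι (cW ζ δ 4) = -ι (cW ζ δ 1) := by rw [← map_neg, c4, c1]; congr 1; ring
    have hw3 : ι (cW ζ δ 3) = -ι (cW ζ δ 2) := by rw [← map_neg, c3, c2]; congr 1; ring
    have hprod : d1 ((5 : ℂ) • X 1) ((5 : ℂ) • X (cW ζ δ)) * d2 ((5 : ℂ) • X 1) ((5 : ℂ) • X (cW ζ δ))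
        = 2500 * (ι (cW ζ δ 1) * ι (cW ζ δ 2)) := by
      have e1 : d1 ((5 : ℂ) • X 1) ((5 : ℂ) • X (cW ζ δ)) = -50 * ι (cW ζ δ 1) := by
        simp only [d1, X, Pi.smul_apply, smul_eq_mul, Pi.one_apply, map_one, hw4]
        linear_combination (-50 * ι (cW ζ δ 1)) * hr1
      have e2 : d2 ((5 : ℂ) • X 1) ((5 : ℂ) • X (cW ζ δ)) = -50 * ι (cW ζ δ 2) := by
        simp only [d2, X, Pi.smul_apply, smul_eq_mul, Pi.one_apply, map_one, hw3]
        linear_combination (-50 * ι (cW ζ δ 2)) * hr2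
      rw [e1, e2]
      ring
    have hsq : (ι (cW ζ δ 1) * ι (cW ζ δ 2)) ^ 2 = 5 * (n : ℂ) ^ 2 := by
      have e1 : ((z5 - z5 ^ 4) * (z5 ^ 2 - z5 ^ 3)) ^ 2 = 5 := by
        ring_nf; simp only [four0_p, four0_p4]; ring
      rw [c1, c2]
      simp only [map_mul, map_sub, map_pow, hι]
      calc _ = (ι δ ^ 2) ^ 2 * ((z5 - z5 ^ 4) * (z5 ^ 2 - z5 ^ 3)) ^ 2 := by ring
        _ = _ := by rw [hd2, e1]; ring
    have hnq : ‖ι (cW ζ δ 1) * ι (cW ζ δ 2)‖ ^ 2 = 5 * (n : ℝ) ^ 2 := by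
      rw [← norm_pow, hsq]
      simp
    rw [hprod, norm_mul, mul_pow, mul_pow, hnq, ← hdisc] at hdet
    have h2500 : ‖(2500 : ℂ)‖ = 2500 := by simp
    rw [h2500] at hdet
    have hb0 : Algebra.discr ℚ b ≠ 0 := by
      intro hh
      rw [hh] at hdet
      simp only [Rat.cast_zero, abs_zero, mul_zero] at hdet
      exact absurd hdet (by positivity)
    have hle := abs_discr_le (by rw [hdeg, Fintype.card_fin]) b hbi hb0
    have hle' : ((|discr ℚ⟮a 0⟯| : ℤ) : ℝ) ≤ |((Algebra.discr ℚ b : ℚ) : ℝ)| := by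
      exact_mod_cast hle
    nlinarith [sq_nonneg (n : ℝ)]
  · obtain ⟨b, ⟨-, h1⟩ | ⟨h1, -⟩⟩ := hall g
    · obtain ⟨i, hi⟩ : ∃ i, h (a 0) = a i := by
        obtain ⟨c, ⟨-, h2⟩ | ⟨-, h2⟩⟩ := hall h
        · exact ⟨_, h2 1 eqv_one 0⟩
        · exact ⟨_, h2 1 eqv_one 0⟩
      have h2 := h1 1 eqv_one
      have e1 : ∀ b i : Fin 5, b + (b + (b + (b + (b + i)))) = i := by decide
      have h3 : (h⁻¹ * (g * g * g * g * g) * h) (a 0) = a 0 := by
        simp only [AlgEquiv.mul_apply, hi]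
        rw [h2, h2, h2, h2, h2, e1, ← ha, ← hi]
        exact h.symm_apply_apply _
      have h4 := congrArg h (low_fix h3 hy)
      simp only [AlgEquiv.mul_apply] at h4
      exact (h.apply_symm_apply _).symm.trans h4
    · exact absurd (by linear_combination (h1 - hg) / 2) h0
  · obtain ⟨b, ⟨h1, -⟩ | ⟨-, h1⟩⟩ := hall g
    · exact h1
    · exfalso
      have h2 := h1 1 eqv_one
      have h3 : ∀ i, b - i = i := by
        intro i
        obtain ⟨h, hh⟩ := hrot i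
        have h4 := hg h (a 0) (mem_adjoin_simple_self ℚ _)
        have e1 : ∀ b i : Fin 5, b - (b - (b - (b - (b - i)))) = b - i := by decide
        rw [hh, add_zero, h2, h2, h2, h2, h2, e1] at h4
        exact hinj h4
      have e2 : ∀ b : Fin 5, ¬ ∀ i, b - i = i := by decide
      exact e2 b h3

end Pool.Agent.Lib.MP_af4c59_nt.H57
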