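import Pool.Agent.Lib.MP_af4c59_nt.H57LowC

/-!
The lower bound for dihedral quintic fields.
-/

set_option autoImplicit false

namespace Pool.Agent.Lib.MP_af4c59_nt.H57

open NumberField IntermediateField

theorem low_sqf (N : ℕ) :
    (N : ℝ) / 4 ≤ (((Finset.Ioc 0 N).filter fun n => Squarefree n).card : ℝ) := by
  classical
  rcases Nat.eq_zero_or_pos N with rfl | hN
  · simp
  have h1 := Finset.card_filter_add_card_filter_not (s := Finset.Ioc 0 N) fun n => Squarefree n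
  rw [Nat.card_Ioc, Nat.sub_zero] at h1
  have h2 : ((Finset.Ioc 0 N).filter fun n => ¬ Squarefree n) ⊆
      (Finset.Ioc 1 (N + 1)).biUnion fun k => (Finset.Ioc 0 N).filter fun n => k ^ 2 ∣ n := by
    intro n hn
    obtain ⟨hn1, hn2⟩ := Finset.mem_filter.1 hn
    rw [Nat.squarefree_iff_prime_squarefree] at hn2
    push Not at hn2
    obtain ⟨p, hp, hd⟩ := hn2
    obtain ⟨hn3, hn4⟩ := Finset.mem_Ioc.1 hn1
    have h3 : p ≤ n := Nat.le_of_dvd hn3 (Dvd.dvd.trans (Dvd.intro _ rfl) hd)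
    exact Finset.mem_biUnion.2 ⟨p, Finset.mem_Ioc.2 ⟨hp.one_lt, by omega⟩,
      Finset.mem_filter.2 ⟨hn1, by rwa [sq]⟩⟩
  have h3 : (((Finset.Ioc 0 N).filter fun n => ¬ Squarefree n).card : ℝ) ≤
      ∑ k ∈ Finset.Ioc 1 (N + 1), (N : ℝ) * ((k : ℝ) ^ 2)⁻¹ := by
    have h4 := (Finset.card_le_card h2).trans Finset.card_biUnion_le
    have h5 : (((Finset.Ioc 0 N).filter fun n => ¬ Squarefree n).card : ℝ) ≤
        ∑ k ∈ Finset.Ioc 1 (N + 1),
          (((Finset.Ioc 0 N).filter fun n => k ^ 2 ∣ n).card : ℝ) := by exact_mod_cast h4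
    refine h5.trans (Finset.sum_le_sum fun k _ => ?_)
    rw [Nat.Ioc_filter_dvd_card_eq_div, ← div_eq_mul_inv]
    exact_mod_cast Nat.cast_div_le
  rw [← Finset.mul_sum, ← Finset.sum_Ioc_consecutive _ (by norm_num : 1 ≤ 2) (by omega)] at h3
  have h6 := sum_Ioc_inv_sq_le_sub (α := ℝ) (k := 2) (n := N + 1) (by norm_num) (by omega)
  have h7 : ∑ k ∈ Finset.Ioc 1 2, (((k : ℕ) : ℝ) ^ 2)⁻¹ = 1 / 4 := by
    rw [show Finset.Ioc 1 2 = {2} from rfl, Finset.sum_singleton]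
    norm_num
  rw [h7] at h3
  have h8 : (0 : ℝ) ≤ (((N + 1 : ℕ) : ℝ))⁻¹ := by positivity
  have h9 : (0 : ℝ) ≤ N := by positivity
  have h10 : ((((Finset.Ioc 0 N).filter fun n => Squarefree n).card : ℝ)) +
      (((Finset.Ioc 0 N).filter fun n => ¬ Squarefree n).card : ℝ) = N := by exact_mod_cast h1
  push_cast at h6 h8
  nlinarith

theorem low_eq {m n : ℕ} (hm : Squarefree m) (hn : Squarefree n) (h : IsSquare (m * n)) :
    m = n := by
  obtain ⟨k, hk⟩ := h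
  have h1 : m ∣ k := (hm.dvd_pow_iff_dvd (n := 2) (by norm_num)).1 ⟨n, by rw [sq, ← hk]⟩
  obtain ⟨l, rfl⟩ := h1
  have h2 : n = m * (l * l) := by
    apply Nat.eq_of_mul_eq_mul_left (Nat.pos_of_ne_zero hm.ne_zero)
    rw [hk]
    ring
  have h3 : l = 1 := Nat.isUnit_iff.1 (hn l ⟨m, by rw [h2]; ring⟩)
  rw [h2, h3, mul_one, mul_one]

theorem lower_bound : ∃ c : ℝ, 0 < c ∧ ∃ X₀ : ℝ, ∀ X : ℝ, X₀ ≤ X →
    c * X ^ ((1 : ℝ) / 2) ≤ ((FS 5 D5 X).ncard : ℝ) := by
  classical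
  choose! F hF δ hδ hc using low_field
  refine ⟨1 / 40000, by norm_num, 5000 ^ 2, fun X hX => ?_⟩
  rw [← Real.sqrt_eq_rpow]
  have hs : 5000 ≤ √X := Real.le_sqrt_of_sq_le hX
  have hX2 : √X ^ 2 = X := Real.sq_sqrt (by linarith)
  set N := ⌊√X / 5000⌋₊ with hN
  have hN1 : (N : ℝ) ≤ √X / 5000 := Nat.floor_le (by positivity)
  have hN2 : √X / 5000 < N + 1 := Nat.lt_floor_add_one _
  have hN3 : (1 : ℝ) ≤ N := by
    have : 1 ≤ N := Nat.le_floor (by rw [Nat.cast_one, le_div_iff₀ (by norm_num)]; linarith)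
    exact_mod_cast this
  have h1 := low_sqf N
  have h2 : ((Finset.Ioc 0 N).filter fun n => Squarefree n).card ≤ (FS 5 D5 X).ncard := by
    rw [← Set.ncard_coe_finset]
    refine Set.ncard_le_ncard_of_injOn F ?_ ?_ (FS_finite (by norm_num) D5 X)
    · intro n hn
      obtain ⟨hn1, hn2⟩ := Finset.mem_Ioc.1 (Finset.mem_filter.1 hn).1
      refine FS_mono D5 ?_ (hF n hn1)
      have h3 : (n : ℝ) ≤ N := by exact_mod_cast hn2
      rw [← hX2]
      have h4 : (0 : ℝ) ≤ n := by positivity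
      gcongr
      linarith
    · intro m hm n hn hmn
      obtain ⟨hm1, hm2⟩ := Finset.mem_filter.1 hm
      obtain ⟨hn1, hn2⟩ := Finset.mem_filter.1 hn
      have hm0 := (Finset.mem_Ioc.1 hm1).1
      have hn0 := (Finset.mem_Ioc.1 hn1).1
      apply low_eq hm2 hn2
      have hsign : ∀ k, 0 < k → ∀ g : Ω ≃ₐ[ℚ] Ω, g (δ k) = δ k ∨ g (δ k) = -δ k := by
        intro k hk g
        apply sq_eq_sq_iff_eq_or_eq_neg.1
        rw [← map_pow, hδ k hk, map_neg, map_natCast]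
      have hmem : δ m * δ n ∈ ℚ⟮(0 : Ω)⟯ := by
        refine low_mem fun g _ => ?_
        have hiff : g (δ m) = δ m ↔ g (δ n) = δ n := by rw [hc m hm0, hc n hn0, hmn]
        rw [map_mul]
        by_cases hg : g (δ m) = δ m
        · rw [hg, hiff.1 hg]
        · rw [(hsign m hm0 g).resolve_left hg,
            (hsign n hn0 g).resolve_left fun hh => hg (hiff.2 hh)]
          ring
      rw [adjoin_zero] at hmem
      obtain ⟨q, hq⟩ := IntermediateField.mem_bot.1 hmem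
      have h5 : q * q = ((m * n : ℕ) : ℚ) := by
        apply (algebraMap ℚ Ω).injective
        rw [map_mul, hq, map_natCast, Nat.cast_mul]
        linear_combination (δ n) ^ 2 * hδ m hm0 - (m : Ω) * hδ n hn0
      exact Rat.isSquare_natCast_iff.1 ⟨q, h5.symm⟩
  have h3 : (((Finset.Ioc 0 N).filter fun n => Squarefree n).card : ℝ) ≤ (FS 5 D5 X).ncard := by
    exact_mod_cast h2
  linarith

end Pool.Agent.Lib.MP_af4c59_nt.H57
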