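import Pool.Agent.Lib.MP_af4c59_nt.H57Four

/-!
The equations of the symmetric tensor at the two places.
-/

set_option autoImplicit false

namespace Pool.Agent.Lib.MP_af4c59_nt.H57

open Matrix

/-- The component of a symmetric matrix at a pair of places. -/
noncomputable def pc (m : Matrix (Fin 4) (Fin 4) ℤ) (θ θ' : ℂ) (a a' b b' : Fin 4) : ℂ :=
  (m a b : ℂ) + θ' * m a b' + θ * m a' b + θ * θ' * m a' b'

theorem MF.eq {X Y l : Fin 5 → ℂ} {m : Matrix (Fin 4) (Fin 4) ℤ} (h : MF X Y l m) (j k : Fin 5)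
    (hj : j ≠ 0) (hk : k ≠ 0) :
    X j * X k * pc m (ec j om) (ec k om) 0 1 0 1 + X j * Y k * pc m (ec j om) (ec k om) 0 1 2 3 +
      Y j * X k * pc m (ec j om) (ec k om) 2 3 0 1 + Y j * Y k * pc m (ec j om) (ec k om) 2 3 2 3 =
      l (j + k) := by
  rw [← h.2 j k hj hk]
  have f0 : fr X Y 0 = X := rfl
  have f1 : fr X Y 1 = fun j => ec j om * X j := rfl
  have f2 : fr X Y 2 = Y := rfl
  have f3 : fr X Y 3 = fun j => ec j om * Y j := rfl
  simp only [Fin.sum_univ_four, pc, f0, f1, f2, f3]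
  ring

/-- Cramer's rule for a tensor. -/
theorem cramer2 {x y x' y' u w u' w' A B C D l₁ l₂ l₃ l₄ : ℂ}
    (h₁ : x * u * A + x * w * B + y * u * C + y * w * D = l₁)
    (h₂ : x * u' * A + x * w' * B + y * u' * C + y * w' * D = l₂)
    (h₃ : x' * u * A + x' * w * B + y' * u * C + y' * w * D = l₃)
    (h₄ : x' * u' * A + x' * w' * B + y' * u' * C + y' * w' * D = l₄) :
    (x * y' - x' * y) * (u * w' - u' * w) * A = y' * w' * l₁ - y' * w * l₂ - y * w' * l₃ + y * w * l₄ ∧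
    (x * y' - x' * y) * (u * w' - u' * w) * B = -y' * u' * l₁ + y' * u * l₂ + y * u' * l₃ - y * u * l₄ ∧
    (x * y' - x' * y) * (u * w' - u' * w) * C = -x' * w' * l₁ + x' * w * l₂ + x * w' * l₃ - x * w * l₄ ∧
    (x * y' - x' * y) * (u * w' - u' * w) * D = x' * u' * l₁ - x' * u * l₂ - x * u' * l₃ + x * u * l₄ := by
  subst h₁ h₂ h₃ h₄
  refine ⟨?_, ?_, ?_, ?_⟩ <;> ring

/-- Cramer's rule for a vector. -/
theorem cramer1 {x y x' y' a b p p' : ℂ} (h : p = a * x + b * y) (h' : p' = a * x' + b * y') :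
    (x * y' - x' * y) * a = p * y' - p' * y ∧ (x * y' - x' * y) * b = p' * x - p * x' := by
  subst h h'
  constructor <;> ring

end Pool.Agent.Lib.MP_af4c59_nt.H57
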