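import Pool.Agent.Lib.MP_af4c59_nt.H57Adm
import Pool.Agent.Lib.MP_af4c59_nt.H57Frame

/-!
Every dihedral quintic field is represented.
-/

set_option autoImplicit false

namespace Pool.Agent.Lib.MP_af4c59_nt.H57

open Matrix

open NumberField

theorem Att.mono {c c' B t : ℝ} {X Y : Fin 5 → ℂ} (h : Att c B t X Y) (hc : c ≤ c') (hB : 0 ≤ B) :
    Att c' B t X Y := by
  obtain ⟨h1, h2, s, n, s₀, v, hn, he, hs, hg, ha⟩ := h
  have hB2 : c * B ^ 2 ≤ c' * B ^ 2 := mul_le_mul_of_nonneg_right hc (by positivity)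
  refine ⟨h1, h2, s, n, s₀, v, hn, he, hs,
    ⟨hg.prim, hg.q, hg.rK, hg.rm, hg.T5.trans hB2, hg.T4.trans hB2⟩,
    ⟨ha.prim, ha.lin, ha.pure, ha.ann, ha.bd.trans (mul_le_mul_of_nonneg_right hc hB), ?_⟩⟩
  intro s' h3 h4
  exact (ha.line s' h3 h4).trans (mul_le_mul_of_nonneg_right hB2 (ar_nonneg _ _))

theorem rep_exists : ∃ c : ℝ, 1 ≤ c ∧ ∀ (ι : Ω →+* ℂ) (L : IntermediateField ℚ Ω) [NumberField L]
    (B : ℝ), Module.finrank ℚ L = 5 → HasGal 5 D5 L → 1 ≤ B → B ^ 8 ≤ |((discr L : ℤ) : ℝ)| →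
    |((discr L : ℤ) : ℝ)| ≤ (2 * B) ^ 8 → ∃ k : ℕ, (2 : ℝ) ^ k ≤ c * B ∧ Rep ι c B (2 ^ k) L := by
  obtain ⟨cf, hcf, hf⟩ := frame_exists
  obtain ⟨ca, hca, ha⟩ := adm_exists (4 * cf) (by linarith)
  have h1 : cf ≤ cf * ca := le_mul_of_one_le_right (by linarith) hca
  have h2 : ca ≤ cf * ca := le_mul_of_one_le_left (by linarith) hcf
  refine ⟨cf * ca, by linarith, ?_⟩
  intro ι L _ B h5 hG hB hlo hhi
  obtain ⟨φ, hP, i, hi⟩ := pent_exists ι L h5 hG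
  obtain ⟨k, x, y, hk, hsp, hsh⟩ := hf L φ B hP hB hlo hhi
  have hB0 : 0 < B := by linarith
  have ht : (1 : ℝ) ≤ 2 ^ k := one_le_pow₀ (by norm_num)
  refine ⟨k, hk.trans (mul_le_mul_of_nonneg_right h1 hB0.le), h5, ?_⟩
  obtain ⟨a, ha1, ha2, -⟩ := hP.tf ((5 : ℤ) • x)
  rw [hat_zsmul] at ha1 ha2
  have h55 : ((5 : ℤ) : ℂ) = 5 := by norm_num
  rw [h55] at ha1 ha2
  refine ⟨i, (5 : ℂ) • hat φ x, (5 : ℂ) • hat φ y, ((a : L) : Ω), (a : L).2, ?_, ?_, ?_⟩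
  · intro hb
    obtain ⟨q, hq⟩ := IntermediateField.mem_bot.1 hb
    have hq' : (a : L) = algebraMap ℚ L q := by
      apply Subtype.ext
      rw [← hq]
      rfl
    have hem : em φ a = (q : ℂ) • em φ 1 := by
      funext j
      simp [em, hq']
    have hh : hat φ a = (q : ℂ) • hat φ 1 := by
      unfold hat
      rw [hem, ft_smul]
    rw [hat_one] at hh
    have h2' := ha2 2 (by decide)
    have h3' := ha2 3 (by decide)
    rw [hh] at h2' h3'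
    simp at h2' h3'
    apply (hsh.d_lo hB0).2.2
    simp [d2, h2', h3']
  · rw [← hi, ← ha1]
    rfl
  · intro α hα
    obtain ⟨z, hz⟩ := hP.act α 1 x y
    have hx : Eq0 (hat φ x) (lc 1 0 (hat φ x) (hat φ y)) := by
      intro j _
      simp [lc]
    have hsp' : Span φ 5 x z := hsp.change (a := 1) (b := 0) (c := α) (d := 1) (by simp) hx hz
    have hsh' : Shape (4 * cf) B (2 ^ k) (hat φ x) (hat φ z) :=
      (hsh.translate (by linarith) hα).congr (fun _ _ => rfl) fun j hj => (hz j hj).symm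
    refine ((ha L φ B (2 ^ k) x z hP hB ht hhi hsp' hsh').mono h2 hB0.le).congr
      (fun _ _ => rfl) ?_
    intro j hj
    simp only [Pi.smul_apply, smul_eq_mul, hz j hj, lc]
    ring

end Pool.Agent.Lib.MP_af4c59_nt.H57
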