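import Pool.Agent.Lib.MP_af4c59_nt.H57Level
import Pool.Agent.Lib.MP_af4c59_nt.H57Rep

/-!
The upper bound for dihedral quintic fields.
-/

set_option autoImplicit false

namespace Pool.Agent.Lib.MP_af4c59_nt.H57

open Matrix

theorem main_scale {D X : ℝ} (h1 : 1 ≤ D) (h2 : D ≤ X) :
    ∃ b : ℕ, ((2 : ℝ) ^ b) ^ 8 ≤ D ∧ D ≤ (2 * (2 : ℝ) ^ b) ^ 8 := by
  obtain ⟨i, -, hi1, hi2⟩ := exists_level (a := 1) (x := D) one_pos h1 (L := lg X)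
    (by rw [mul_one]; exact h2.trans (le_two_pow_lg X))
  rw [mul_one] at hi1 hi2
  refine ⟨i / 8, ?_, ?_⟩
  · rw [← pow_mul]
    exact (pow_le_pow_right₀ one_le_two (by omega)).trans hi1
  · rw [← pow_succ', ← pow_mul]
    exact hi2.trans (pow_le_pow_right₀ one_le_two (by omega))

theorem main_le_lg {k : ℕ} {Y : ℝ} (h : (2 : ℝ) ^ k ≤ Y) : k ≤ lg Y :=
  (pow_le_pow_iff_right₀ one_lt_two).1 (h.trans (le_two_pow_lg Y))

theorem main_colour : ∃ c : ℝ, 1 ≤ c ∧ ∀ (ι : Ω →+* ℂ) (X : ℝ), ∀ L ∈ FS 5 D5 X,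
    ∃ p : ℕ × ℕ, ((2 : ℝ) ^ p.1) ^ 8 ≤ X ∧ (2 : ℝ) ^ p.2 ≤ c * 2 ^ p.1 ∧
      Rep ι c (2 ^ p.1) (2 ^ p.2) L := by
  obtain ⟨c, hc, h⟩ := rep_exists
  refine ⟨c, hc, fun ι X L hL => ?_⟩
  obtain ⟨h1, hG, b, hb⟩ := hL
  have hfin : FiniteDimensional ℚ L := Module.finite_of_finrank_pos (by omega)
  have : NumberField L := @NumberField.mk _ _ inferInstance hfin
  have hD : |((NumberField.discr L : ℤ) : ℝ)| ≤ X := by
    rw [← NumberField.discr_eq_discr L b, ← Int.cast_abs]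
    exact hb
  have hD1 : (1 : ℝ) ≤ |((NumberField.discr L : ℤ) : ℝ)| := by
    rw [← Int.cast_abs]
    exact_mod_cast Int.one_le_abs (NumberField.discr_ne_zero L)
  obtain ⟨n, hn1, hn2⟩ := main_scale hD1 hD
  obtain ⟨k, hk1, hk2⟩ := h ι L (2 ^ n) h1 hG (one_le_pow₀ one_le_two) hn1 hn2
  exact ⟨(n, k), hn1.trans hD, hk1, hk2⟩

theorem main_half {B X : ℝ} (h : B ^ 8 ≤ X) : B ^ 4 ≤ X ^ ((1 : ℝ) / 2) := by
  rw [← Real.sqrt_eq_rpow]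
  refine Real.le_sqrt_of_sq_le ?_
  rw [← pow_mul]
  exact h

theorem main_count : ∃ g, SP g ∧ ∀ X : ℝ, 1 ≤ X →
    ((FS 5 D5 X).ncard : ℝ) ≤ g X * X ^ ((1 : ℝ) / 2) := by
  classical
  obtain ⟨c, hc, hcol⟩ := main_colour
  obtain ⟨f, hf, hlev⟩ := level_count c hc
  have ι : Ω →+* ℂ := (IsAlgClosed.lift (R := ℚ) (S := Ω) (M := ℂ)).toRingHom
  refine ⟨fun x => ((lg (c * x ^ 1) : ℝ) + 1) ^ 2 * f x, ((SP_lg.comp hc 1).pow 2).mul hf,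
    fun X hX => ?_⟩
  have hfin := FS_finite (n := 5) (by norm_num) D5 X
  choose! col h1 h2 h3 using hcol ι X
  have hB : ∀ L ∈ FS 5 D5 X, (2 : ℝ) ^ (col L).1 ≤ X := fun L hL =>
    (le_self_pow₀ (one_le_pow₀ one_le_two) (by norm_num)).trans (h1 L hL)
  rw [Set.ncard_eq_toFinset_card _ hfin, mul_assoc]
  refine card_le_fib col
    (Finset.range (lg (c * X ^ 1) + 1) ×ˢ Finset.range (lg (c * X ^ 1) + 1)) ?_ ?_ ?_ ?_
  · intro L hL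
    have hL' : L ∈ FS 5 D5 X := hfin.mem_toFinset.1 hL
    have hX0 : 0 ≤ X := zero_le_one.trans hX
    have hc0 : 0 ≤ c := zero_le_one.trans hc
    rw [Finset.mem_product, Finset.mem_range, Finset.mem_range, pow_one]
    refine ⟨Nat.lt_succ_of_le (main_le_lg ((hB L hL').trans ?_)),
      Nat.lt_succ_of_le (main_le_lg ((h2 L hL').trans ?_))⟩
    · exact le_mul_of_one_le_left hX0 hc
    · exact mul_le_mul_of_nonneg_left (hB L hL') hc0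
  · rw [Finset.card_product, Finset.card_range]
    push_cast
    exact le_of_eq (sq _).symm
  · exact mul_nonneg (hf.pos hX).le (Real.rpow_nonneg (zero_le_one.trans hX) _)
  · intro p _ C hC hp
    rcases C.eq_empty_or_nonempty with rfl | ⟨L₀, hL₀⟩
    · rw [Finset.card_empty, Nat.cast_zero]
      exact mul_nonneg (hf.pos hX).le (Real.rpow_nonneg (zero_le_one.trans hX) _)
    have hm : ∀ L ∈ C, L ∈ FS 5 D5 X := fun L hL => hfin.mem_toFinset.1 (hC hL)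
    have e0 := hp L₀ hL₀
    have hB1 : (1 : ℝ) ≤ 2 ^ p.1 := one_le_pow₀ one_le_two
    have hcount := hlev ι (2 ^ p.1) (2 ^ p.2) C hB1 (one_le_pow₀ one_le_two)
      (e0 ▸ h2 L₀ (hm L₀ hL₀)) (fun L hL => hp L hL ▸ h3 L (hm L hL))
    refine hcount.trans (mul_le_mul (hf.mono _ _ hB1 (e0 ▸ hB L₀ (hm L₀ hL₀)))
      (main_half (e0 ▸ h1 L₀ (hm L₀ hL₀))) (by positivity) (hf.pos hX).le)

theorem upper_bound {ε : ℝ} (hε : 0 < ε) : ∃ C : ℝ, 0 < C ∧ ∀ X : ℝ, 1 ≤ X →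
    ((FS 5 D5 X).ncard : ℝ) ≤ C * X ^ ((1 : ℝ) / 2 + ε) := by
  obtain ⟨g, hg, h⟩ := main_count
  obtain ⟨C, hC, hb⟩ := hg.sub ε hε
  refine ⟨C, hC, fun X hX => (h X hX).trans ?_⟩
  have hX0 : 0 < X := one_pos.trans_le hX
  rw [add_comm, Real.rpow_add hX0, ← mul_assoc]
  exact mul_le_mul_of_nonneg_right (hb X hX) (Real.rpow_nonneg hX0.le _)

end Pool.Agent.Lib.MP_af4c59_nt.H57
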