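import Pool.Agent.Lib.MP_af4c59_nt.H57Defs

/-!
The ring of the golden ratio is a principal ideal domain.
-/

set_option autoImplicit false

namespace Pool.Agent.Lib.MP_af4c59_nt.H57

open Matrix

theorem e1_apply (a : O) : e1 a = (a.re : ℝ) + (a.im : ℝ) * th1 := rfl

theorem e2_apply (a : O) : e2 a = (a.re : ℝ) + (a.im : ℝ) * th2 := rfl

theorem c1_apply (a : O) : c1 a = ((e1 a : ℝ) : ℂ) := rfl

theorem c2_apply (a : O) : c2 a = ((e2 a : ℝ) : ℂ) := rfl

theorem ec_c : ec 1 = c1 ∧ ec 2 = c2 ∧ ec 3 = c2 ∧ ec 4 = c1 := ⟨rfl, rfl, rfl, rfl⟩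

theorem th2_eq : th2 = -1 - th1 := by
  unfold th1 th2
  ring

theorem th1_mul_th2 : th1 * th2 = -1 := by
  rw [th2_eq]
  linear_combination -th1_sq

theorem th1_bd : 0.618 < th1 ∧ th1 < 0.619 := by
  have h1 : 2.236 < √5 := Real.lt_sqrt_of_sq_lt (by norm_num)
  have h2 : √5 < 2.238 := (Real.sqrt_lt' (by norm_num)).2 (by norm_num)
  unfold th1
  constructor <;> linarith

theorem e1_om : e1 om = th1 := by
  simp [e1_apply, om]

theorem e2_om : e2 om = th2 := by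
  simp [e2_apply, om]

theorem e1_s5 : e1 s5 = √5 := by
  simp only [e1_apply, s5, th1]
  push_cast
  ring

theorem e2_s5 : e2 s5 = -√5 := by
  simp only [e2_apply, s5, th2]
  push_cast
  ring

theorem e1_star (a : O) : e1 (star a) = e2 a := by
  rw [e1_apply, e2_apply, QuadraticAlgebra.re_star, QuadraticAlgebra.im_star, th2_eq]
  push_cast
  ring

theorem e2_star (a : O) : e2 (star a) = e1 a := by
  rw [← e1_star, star_star]

theorem e1_mul_e2 (a : O) : e1 a * e2 a = ((QuadraticAlgebra.norm a : ℤ) : ℝ) := by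
  rw [e1_apply, e2_apply, QuadraticAlgebra.norm_def, th2_eq]
  push_cast
  linear_combination (-((a.im : ℝ) * a.im)) * th1_sq

theorem o0_e1_zero {a : O} (h : e1 a = 0) : a = 0 := by
  have hi : Irrational (√5) := by
    simpa using Nat.Prime.irrational_sqrt (p := 5) (by norm_num)
  rw [e1_apply, th1] at h
  have h1 : a.im = 0 := by
    by_contra h1
    refine (hi.intCast_mul h1).ne_int (a.im - 2 * a.re) ?_
    push_cast
    linarith
  have h2 : a.re = 0 := by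
    rw [h1] at h
    simpa using h
  exact QuadraticAlgebra.ext h2 h1

theorem o0_e2_zero {a : O} (h : e2 a = 0) : a = 0 := by
  rw [← e1_star] at h
  exact star_eq_zero.1 (o0_e1_zero h)

theorem norm_eq_zero {a : O} (h : QuadraticAlgebra.norm a = 0) : a = 0 := by
  have h1 := e1_mul_e2 a
  rw [h, Int.cast_zero] at h1
  exact (mul_eq_zero.1 h1).elim o0_e1_zero o0_e2_zero

theorem e1_inj : Function.Injective e1 := by
  exact (injective_iff_map_eq_zero e1).2 fun _ => o0_e1_zero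

theorem e2_inj : Function.Injective e2 := by
  exact (injective_iff_map_eq_zero e2).2 fun _ => o0_e2_zero

theorem ec_inj (j : Fin 5) : Function.Injective (ec j) := by
  have h1 : Function.Injective c1 := Complex.ofReal_injective.comp e1_inj
  have h2 : Function.Injective c2 := Complex.ofReal_injective.comp e2_inj
  fin_cases j
  exacts [h1, h1, h2, h2, h1]

instance : IsDomain O := by
  exact e1_inj.isDomain e1

theorem o0_round (x y : ℝ) : ∃ (a : O) (r s : ℝ), |r| ≤ 1 / 2 ∧ |s| ≤ 1 / 2 ∧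
    x - e1 a = r + s * th1 ∧ y - e2 a = r + s * th2 := by
  have h0 : 2 * th1 + 1 ≠ 0 := by linarith [th1_bd.1]
  obtain ⟨v, hv⟩ : ∃ v : ℝ, v * (2 * th1 + 1) = x - y := ⟨(x - y) / (2 * th1 + 1), by field_simp⟩
  refine ⟨⟨round (x - v * th1), round v⟩, x - v * th1 - round (x - v * th1), v - round v,
    abs_sub_round _, abs_sub_round _, ?_, ?_⟩
  · rw [e1_apply]
    ring
  · rw [e2_apply, th2_eq]
    linear_combination hv

theorem o0_div (a : O) {b : O} (hb : b ≠ 0) : ∃ q : O,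
    (QuadraticAlgebra.norm (a - q * b)).natAbs < (QuadraticAlgebra.norm b).natAbs := by
  have h1 : e1 b ≠ 0 := fun h => hb (o0_e1_zero h)
  have h2 : e2 b ≠ 0 := fun h => hb (o0_e2_zero h)
  obtain ⟨q, r, s, hr, hs, hx, hy⟩ := o0_round (e1 a / e1 b) (e2 a / e2 b)
  refine ⟨q, ?_⟩
  have a1 : e1 (a - q * b) = e1 b * (r + s * th1) := by
    rw [← hx, map_sub, map_mul]
    field_simp
  have a2 : e2 (a - q * b) = e2 b * (r + s * th2) := by
    rw [← hy, map_sub, map_mul]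
    field_simp
  have a3 : (r + s * th1) * (r + s * th2) = r * r - r * s - s * s := by
    rw [th2_eq]
    linear_combination (-(s * s)) * th1_sq
  have a4 : ((QuadraticAlgebra.norm (a - q * b) : ℤ) : ℝ) =
      ((QuadraticAlgebra.norm b : ℤ) : ℝ) * (r * r - r * s - s * s) := by
    rw [← e1_mul_e2, ← e1_mul_e2, a1, a2, ← a3]
    ring
  have a5 : |r * r - r * s - s * s| < 1 := by
    obtain ⟨r1, r2⟩ := abs_le.1 hr
    obtain ⟨s1, s2⟩ := abs_le.1 hs
    rw [abs_lt]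
    constructor <;> nlinarith
  have a6 : 0 < |((QuadraticAlgebra.norm b : ℤ) : ℝ)| := by
    rw [← e1_mul_e2]
    exact abs_pos.2 (mul_ne_zero h1 h2)
  have a7 : |((QuadraticAlgebra.norm (a - q * b) : ℤ) : ℝ)| <
      |((QuadraticAlgebra.norm b : ℤ) : ℝ)| := by
    rw [a4, abs_mul]
    exact mul_lt_of_lt_one_right a6 a5
  have a8 : |QuadraticAlgebra.norm (a - q * b)| < |QuadraticAlgebra.norm b| := by
    exact_mod_cast a7
  rw [Int.abs_eq_natAbs, Int.abs_eq_natAbs] at a8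
  exact_mod_cast a8

instance : IsPrincipalIdealRing O := by
  refine ⟨fun I => ?_⟩
  classical
  by_cases hI : ∃ b ∈ I, b ≠ 0
  · have hex : ∃ n : ℕ, ∃ b ∈ I, b ≠ 0 ∧ (QuadraticAlgebra.norm b).natAbs = n := by
      obtain ⟨b, hb, hb0⟩ := hI
      exact ⟨_, b, hb, hb0, rfl⟩
    obtain ⟨b, hb, hb0, hn⟩ := Nat.find_spec hex
    refine ⟨b, le_antisymm (fun a ha => ?_) ((Submodule.span_singleton_le_iff_mem b I).2 hb)⟩
    obtain ⟨q, hq⟩ := o0_div a hb0
    have h1 : a - q * b = 0 := by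
      by_contra h1
      rw [hn] at hq
      exact Nat.find_min hex hq ⟨_, I.sub_mem ha (I.mul_mem_left q hb), h1, rfl⟩
    exact Submodule.mem_span_singleton.2 ⟨q, (sub_eq_zero.1 h1).symm⟩
  · refine ⟨0, le_antisymm (fun a ha => ?_)
      ((Submodule.span_singleton_le_iff_mem 0 I).2 I.zero_mem)⟩
    have h1 : a = 0 := by
      by_contra h1
      exact hI ⟨a, ha, h1⟩
    rw [h1]
    exact Submodule.zero_mem _

theorem OB.e_le {a : O} {Z : ℝ} (h : OB a Z) : |e1 a| ≤ 3 * Z ∧ |e2 a| ≤ 3 * Z := by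
  obtain ⟨h1, h2⟩ := h
  obtain ⟨t1, t2⟩ := th1_bd
  obtain ⟨a1, a2⟩ := abs_le.1 h1
  obtain ⟨b1, b2⟩ := abs_le.1 h2
  rw [e1_apply, e2_apply, th2_eq, abs_le, abs_le]
  refine ⟨⟨?_, ?_⟩, ?_, ?_⟩ <;> nlinarith

theorem OB.of_e {a : O} {Z : ℝ} (h1 : |e1 a| ≤ Z) (h2 : |e2 a| ≤ Z) : OB a (2 * Z) := by
  obtain ⟨t1, t2⟩ := th1_bd
  rw [e1_apply] at h1
  rw [e2_apply, th2_eq] at h2
  obtain ⟨a1, a2⟩ := abs_le.1 h1
  obtain ⟨b1, b2⟩ := abs_le.1 h2
  have hZ : 0 ≤ Z := by linarith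
  have c1 : (a.im : ℝ) ≤ Z := by
    by_contra hc
    rw [not_le] at hc
    nlinarith
  have c2 : -Z ≤ (a.im : ℝ) := by
    by_contra hc
    rw [not_le] at hc
    nlinarith
  exact ⟨abs_le.2 ⟨by nlinarith, by nlinarith⟩, abs_le.2 ⟨by linarith, by linarith⟩⟩

theorem OB.ec_le {a : O} {Z : ℝ} (h : OB a Z) (j : Fin 5) : ‖ec j a‖ ≤ 3 * Z := by
  have h1 : ‖c1 a‖ ≤ 3 * Z := by
    rw [c1_apply, Complex.norm_real]
    exact h.e_le.1
  have h2 : ‖c2 a‖ ≤ 3 * Z := by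
    rw [c2_apply, Complex.norm_real]
    exact h.e_le.2
  fin_cases j
  exacts [h1, h1, h2, h2, h1]

theorem round_O (x y : ℝ) : ∃ a : O, |x - e1 a| ≤ 2 ∧ |y - e2 a| ≤ 2 := by
  obtain ⟨a, r, s, hr, hs, hx, hy⟩ := o0_round x y
  obtain ⟨t1, t2⟩ := th1_bd
  obtain ⟨r1, r2⟩ := abs_le.1 hr
  obtain ⟨s1, s2⟩ := abs_le.1 hs
  refine ⟨a, ?_, ?_⟩
  · rw [hx, abs_le]
    constructor <;> nlinarith
  · rw [hy, th2_eq, abs_le]
    constructor <;> nlinarith

end Pool.Agent.Lib.MP_af4c59_nt.H57
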