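import Pool.Agent.Lib.MP_af4c59_nt.H57PentA
import Pool.Agent.Lib.MP_af4c59_nt.H57Four

/-!
Quintic fields whose embeddings form a pentagon.
-/

set_option autoImplicit false

namespace Pool.Agent.Lib.MP_af4c59_nt.H57

open Matrix

open NumberField

variable {L : Type} [Field L] [NumberField L] {φ : Fin 5 → (L →+* ℂ)}

theorem em_add (x y : 𝓞 L) : em φ (x + y) = em φ x + em φ y := by
  funext i
  simp [em]

theorem em_mul (x y : 𝓞 L) : em φ (x * y) = em φ x * em φ y := by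
  funext i
  simp [em]

theorem em_zsmul (n : ℤ) (x : 𝓞 L) : em φ (n • x) = (n : ℂ) • em φ x := by
  funext i
  simp [em]

theorem em_intCast (n : ℤ) : em φ (n : 𝓞 L) = fun _ => (n : ℂ) := by
  funext i
  simp [em]

theorem hat_add (x y : 𝓞 L) : hat φ (x + y) = hat φ x + hat φ y := by
  unfold hat
  rw [em_add, ft_add]

theorem hat_zsmul (n : ℤ) (x : 𝓞 L) : hat φ (n • x) = (n : ℂ) • hat φ x := by
  unfold hat
  rw [em_zsmul, ft_smul]

theorem hat_one : hat φ 1 = ![5, 0, 0, 0, 0] := by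
  have h1 : em φ 1 = fun _ => (1 : ℂ) := by
    funext i
    simp [em]
  unfold hat
  rw [h1]
  obtain ⟨a0, a1, a2, a3, a4⟩ := ft_c (fun _ => (1 : ℂ))
  have hs := z5_sum
  funext j
  fin_cases j
  · simp only [Fin.zero_eta, Matrix.cons_val_zero]
    rw [a0]; norm_num
  · show ft _ 1 = 0
    rw [a1]; linear_combination hs
  · show ft _ 2 = 0
    rw [a2]; linear_combination hs
  · show ft _ 3 = 0
    rw [a3]; linear_combination hs
  · show ft _ 4 = 0
    rw [a4]; linear_combination hs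

theorem pent_bij (h : Pent φ) : Function.Bijective φ := by
  refine (Fintype.bijective_iff_injective_and_card φ).2 ⟨h.inj, ?_⟩
  rw [NumberField.Embeddings.card L ℂ, h.deg]
  simp

/-- The embeddings as algebra maps. -/
noncomputable def pentEquiv (h : Pent φ) : Fin 5 ≃ (L →ₐ[ℚ] ℂ) :=
  (Equiv.ofBijective φ (pent_bij h)).trans (RingHom.equivRatAlgHom L ℂ)

theorem pent_em_ne {x : 𝓞 L} (hx : x ≠ 0) (i : Fin 5) : em φ x i ≠ 0 := by
  intro h0
  apply hx
  apply RingOfIntegers.ext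
  have : φ i (x : L) = 0 := h0
  simpa using this

theorem Pent.surj (h : Pent φ) (ψ : L →+* ℂ) : ∃ i, φ i = ψ := by
  exact (pent_bij h).2 ψ

theorem Pent.sum_trace (h : Pent φ) (x : L) :
    ∑ i, φ i x = ((Algebra.trace ℚ L x : ℚ) : ℂ) := by
  have h1 := trace_eq_sum_embeddings ℂ (K := ℚ) (x := x)
  rw [eq_ratCast] at h1
  rw [h1]
  exact Fintype.sum_equiv (pentEquiv h) _ _ (fun i => rfl)

theorem Pent.sum_int (h : Pent φ) (x : 𝓞 L) : ∃ n : ℤ, ∑ i, em φ x i = n := by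
  refine ⟨Algebra.trace ℤ (𝓞 L) x, ?_⟩
  have h1 := h.sum_trace (x : L)
  rw [← Algebra.coe_trace_int] at h1
  simpa [em] using h1

theorem Pent.act (h : Pent φ) (a b : O) (x y : 𝓞 L) :
    ∃ z : 𝓞 L, Eq0 (hat φ z) (lc a b (hat φ x) (hat φ y)) := by
  obtain ⟨x', hx'⟩ := h.hT x
  obtain ⟨y', hy'⟩ := h.hT y
  refine ⟨a.re • x + a.im • x' + (b.re • y + b.im • y'), fun j hj => ?_⟩
  have e1 : hat φ x' j = ec j om * hat φ x j := by
    unfold hat; rw [hx', ft_opT _ _ hj]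
  have e2 : hat φ y' j = ec j om * hat φ y j := by
    unfold hat; rw [hy', ft_opT _ _ hj]
  simp only [hat_add, hat_zsmul, Pi.add_apply, Pi.smul_apply, smul_eq_mul, lc]
  rw [e1, e2, ec_apply j a, ec_apply j b]
  ring

theorem pent_sum_im (h : Pent φ) (x y : 𝓞 L) :
    (∑ i, em φ y i * (starRingEnd ℂ) (em φ x i)).im = 0 := by
  choose bar hbar using fun i => h.surj ((starRingEnd ℂ).comp (φ i))
  have hinv : Function.Involutive bar := by
    intro i
    apply h.inj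
    rw [hbar, hbar]
    ext a
    simp
  have hc : ∀ (u : 𝓞 L) (i : Fin 5), (starRingEnd ℂ) (em φ u i) = em φ u (bar i) := by
    intro u i
    unfold em
    rw [hbar]
    rfl
  rw [← Complex.conj_eq_iff_im, map_sum]
  refine Fintype.sum_equiv hinv.toPerm _ _ (fun i => ?_)
  simp only [map_mul, Function.Involutive.coe_toPerm, hc]

theorem pent_herm_im (h : Pent φ) (x y : 𝓞 L) :
    (hat φ y 1 * (starRingEnd ℂ) (hat φ x 1) + hat φ y 4 * (starRingEnd ℂ) (hat φ x 4) +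
      (hat φ y 2 * (starRingEnd ℂ) (hat φ x 2) + hat φ y 3 * (starRingEnd ℂ) (hat φ x 3))).im
      = 0 := by
  have h1 := ft_conj (em φ y) (em φ x)
  have h2 := pent_sum_im h x y
  obtain ⟨n, hn⟩ := h.sum_int x
  obtain ⟨m, hm⟩ := h.sum_int y
  have h3 : ft (em φ x) 0 = n := by
    rw [(ft_c _).1, ← hn, Fin.sum_univ_five]
  have h4 : ft (em φ y) 0 = m := by
    rw [(ft_c _).1, ← hm, Fin.sum_univ_five]
  rw [Fin.sum_univ_five (fun j => ft (em φ y) j * (starRingEnd ℂ) (ft (em φ x) j)), h3, h4,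
    map_intCast] at h1
  have h5 : hat φ y 1 * (starRingEnd ℂ) (hat φ x 1) + hat φ y 4 * (starRingEnd ℂ) (hat φ x 4) +
      (hat φ y 2 * (starRingEnd ℂ) (hat φ x 2) + hat φ y 3 * (starRingEnd ℂ) (hat φ x 3)) =
      ((5 : ℝ) : ℂ) * (∑ i, em φ y i * (starRingEnd ℂ) (em φ x i)) - ((m * n : ℤ) : ℂ) := by
    unfold hat
    push_cast
    linear_combination -h1
  rw [h5, Complex.sub_im, Complex.im_ofReal_mul, h2, Complex.intCast_im]
  simp

theorem Pent.herm (h : Pent φ) (x y : 𝓞 L) :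
    (hat φ y 1 * (starRingEnd ℂ) (hat φ x 1) + hat φ y 4 * (starRingEnd ℂ) (hat φ x 4)).im = 0 ∧
    (hat φ y 2 * (starRingEnd ℂ) (hat φ x 2) + hat φ y 3 * (starRingEnd ℂ) (hat φ x 3)).im = 0 := by
  obtain ⟨y', hy'⟩ := h.hT y
  have r1 := pent_herm_im h x y
  have r2 := pent_herm_im h x y'
  obtain ⟨o1, o2, o3, o4⟩ := ec_om
  have e1 : hat φ y' 1 = (th1 : ℂ) * hat φ y 1 := by
    unfold hat; rw [hy', ft_opT _ _ (by decide), o1]
  have e2 : hat φ y' 2 = (th2 : ℂ) * hat φ y 2 := by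
    unfold hat; rw [hy', ft_opT _ _ (by decide), o2]
  have e3 : hat φ y' 3 = (th2 : ℂ) * hat φ y 3 := by
    unfold hat; rw [hy', ft_opT _ _ (by decide), o3]
  have e4 : hat φ y' 4 = (th1 : ℂ) * hat φ y 4 := by
    unfold hat; rw [hy', ft_opT _ _ (by decide), o4]
  rw [e1, e2, e3, e4] at r2
  set A := hat φ y 1 * (starRingEnd ℂ) (hat φ x 1) + hat φ y 4 * (starRingEnd ℂ) (hat φ x 4)
    with hA
  set B := hat φ y 2 * (starRingEnd ℂ) (hat φ x 2) + hat φ y 3 * (starRingEnd ℂ) (hat φ x 3)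
    with hB
  have r3 : ((th1 : ℂ) * A + (th2 : ℂ) * B).im = 0 := by
    rw [← r2, hA, hB]
    congr 1
    ring
  simp only [Complex.add_im, Complex.re_ofReal_mul, Complex.im_ofReal_mul] at r1 r3
  have hne : th1 - th2 ≠ 0 := by
    have : th1 - th2 = √5 := by unfold th1 th2; ring
    rw [this]
    exact (Real.sqrt_pos.2 (by norm_num)).ne'
  have hA0 : A.im = 0 := by
    have : (th1 - th2) * A.im = 0 := by linear_combination r3 - th2 * r1
    exact (mul_eq_zero.1 this).resolve_left hne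
  exact ⟨hA0, by linarith⟩

theorem Pent.one_le (h : Pent φ) {x : 𝓞 L} (hx : x ≠ 0) : 1 ≤ ‖em φ x‖ := by
  have h1 := Algebra.norm_eq_prod_embeddings ℚ ℂ (x : L)
  rw [eq_ratCast, ← Algebra.coe_norm_int] at h1
  have h2 : ∏ i, em φ x i = ((Algebra.norm ℤ x : ℤ) : ℂ) := by
    have := Fintype.prod_equiv (pentEquiv h) (fun i => em φ x i) (fun σ => σ (x : L)) (fun i => rfl)
    rw [this, ← h1]
    simp
  have h3 : Algebra.norm ℤ x ≠ 0 := by
    intro h0
    rw [h0] at h2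
    simp only [Int.cast_zero] at h2
    obtain ⟨i, -, hi⟩ := Finset.prod_eq_zero_iff.1 h2
    exact pent_em_ne hx i hi
  have h4 : (1 : ℝ) ≤ ‖∏ i, em φ x i‖ := by
    rw [h2, Complex.norm_intCast]
    exact_mod_cast Int.one_le_abs h3
  by_contra hlt
  push Not at hlt
  have h5 : ‖∏ i, em φ x i‖ ≤ ‖em φ x‖ ^ 5 := by
    rw [norm_prod]
    calc ∏ i, ‖em φ x i‖ ≤ ∏ _i : Fin 5, ‖em φ x‖ :=
          Finset.prod_le_prod (fun i _ => norm_nonneg _) (fun i _ => norm_le_pi_norm _ i)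
      _ = ‖em φ x‖ ^ 5 := by simp
  have h6 : ‖em φ x‖ ^ 5 < 1 := pow_lt_one₀ (norm_nonneg _) hlt (by norm_num)
  linarith

theorem Pent.const (h : Pent φ) {x : 𝓞 L} (hx : Eq0 (hat φ x) 0) : ∃ n : ℤ, x = n := by
  obtain ⟨n, hn⟩ := h.sum_int x
  have h0 : ft (em φ x) 0 = n := by
    rw [(ft_c _).1, ← hn, Fin.sum_univ_five]
  have h1 : ift (hat φ x) 0 = 0 := by
    rw [ift_congr hx]
    simp [ift]
  have h2 : 5 * em φ x 0 = n := by
    have := ift_ft (em φ x) 0
    unfold hat at h1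
    rw [h1, h0] at this
    linear_combination -this
  have h3 : (x : L) = algebraMap ℚ L ((n : ℚ) / 5) := by
    apply (φ 0).injective
    have : φ 0 (x : L) = em φ x 0 := rfl
    rw [this, eq_ratCast, map_ratCast]
    push_cast
    linear_combination h2 / 5
  have h4 : IsIntegral ℤ ((n : ℚ) / 5) := by
    have hi : IsIntegral ℤ (x : L) := x.isIntegral_coe
    rw [h3] at hi
    exact (isIntegral_algebraMap_iff (algebraMap ℚ L).injective).1 hi
  obtain ⟨m, hm⟩ := IsIntegrallyClosed.isIntegral_iff.1 h4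
  refine ⟨m, ?_⟩
  apply RingOfIntegers.ext
  rw [h3, ← hm]
  simp

/-- Five times the trace free part. -/
theorem Pent.tf (h : Pent φ) (x : 𝓞 L) :
    ∃ a : 𝓞 L, em φ a = ift (hat φ x) ∧ Eq0 (hat φ a) ((5 : ℂ) • hat φ x) ∧ hat φ a 0 = 0 := by
  obtain ⟨n, hn⟩ := h.sum_int x
  have h0 : ft (em φ x) 0 = n := by
    rw [(ft_c _).1, ← hn, Fin.sum_univ_five]
  have hh : hat φ ((5 : ℤ) • x + (-n) • (1 : 𝓞 L)) =
      ((5 : ℤ) : ℂ) • hat φ x + ((-n : ℤ) : ℂ) • ![5, 0, 0, 0, 0] := by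
    rw [hat_add, hat_zsmul, hat_zsmul, hat_one]
  refine ⟨(5 : ℤ) • x + (-n) • (1 : 𝓞 L), ?_, ?_, ?_⟩
  · funext i
    unfold hat
    rw [ift_ft, h0, em_add, em_zsmul, em_zsmul]
    simp [em]
    ring
  · intro j hj
    rw [hh]
    fin_cases j
    · exact absurd rfl hj
    all_goals simp
  · rw [hh]
    have : hat φ x 0 = n := h0
    simp [this]
    ring

theorem Pent.hat_lo (h : Pent φ) {x : 𝓞 L} (hx : ¬ Eq0 (hat φ x) 0) {r : ℝ}
    (hr : Bd0 (hat φ x) r) : 1 ≤ 4 * r := by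
  obtain ⟨a, ha, ha1, -⟩ := h.tf x
  have hne : a ≠ 0 := by
    rintro rfl
    apply hx
    intro j hj
    have h1 := ha1 j hj
    have h2 : hat φ (0 : 𝓞 L) = 0 := by
      have := hat_zsmul (φ := φ) 0 (0 : 𝓞 L)
      simpa using this
    rw [h2] at h1
    simp only [Pi.zero_apply, Pi.smul_apply, smul_eq_mul] at h1 ⊢
    linear_combination -h1 / 5
  have h1 := h.one_le hne
  have hr0 : 0 ≤ r := le_trans (norm_nonneg _) (hr 1 (by decide))
  refine h1.trans ?_
  rw [ha]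
  exact (pi_norm_le_iff_of_nonneg (by positivity)).2 fun i => norm_ift hr i

theorem em_ne_zero {x : 𝓞 L} (hx : x ≠ 0) (i : Fin 5) : em φ x i ≠ 0 := by
  exact pent_em_ne hx i

theorem Pent.add_ne (h : Pent φ) {x : 𝓞 L} (hx : x ≠ 0) (i j : Fin 5) :
    em φ x i + em φ x j ≠ 0 := by
  obtain ⟨y, hy⟩ := h.hT x
  obtain ⟨w, hw⟩ := h.hT y
  have hz := pent_em_ne (φ := φ) hx
  have k1 : ∀ k : Fin 5, em φ x (k + 1) + em φ x (k - 1) ≠ 0 := by
    intro k hk
    have hy0 : y = 0 := by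
      by_contra hne
      exact pent_em_ne (φ := φ) hne k (by rw [hy]; exact hk)
    have h0 : opT (em φ x) = 0 := by
      rw [← hy, hy0]; funext i; simp [em]
    have a0 : em φ x 1 + em φ x 4 = 0 := congrFun h0 0
    have a1 : em φ x 2 + em φ x 0 = 0 := congrFun h0 1
    have a2 : em φ x 3 + em φ x 1 = 0 := congrFun h0 2
    have a3 : em φ x 4 + em φ x 2 = 0 := congrFun h0 3
    have a4 : em φ x 0 + em φ x 3 = 0 := congrFun h0 4
    exact hz 0 (by linear_combination (a0 + a1 - a2 - a3 + a4) / 2)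
  have hu : ∀ k : Fin 5, em φ (w + (-2 : ℤ) • x) k = em φ x (k + 2) + em φ x (k - 2) := by
    intro k
    rw [em_add, em_zsmul, hw, hy]
    simp only [opT, Pi.add_apply, Pi.smul_apply, smul_eq_mul]
    have b1 : k + 1 + 1 = k + 2 := by revert k; decide
    have b2 : k + 1 - 1 = k := by revert k; decide
    have b3 : k - 1 + 1 = k := by revert k; decide
    have b4 : k - 1 - 1 = k - 2 := by revert k; decide
    rw [b1, b2, b3, b4]
    push_cast
    ring
  have k2 : ∀ k : Fin 5, em φ x (k + 2) + em φ x (k - 2) ≠ 0 := by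
    intro k hk
    have hy0 : w + (-2 : ℤ) • x = 0 := by
      by_contra hne
      exact pent_em_ne (φ := φ) hne k (by rw [hu]; exact hk)
    have h0 : ∀ k : Fin 5, em φ x (k + 2) + em φ x (k - 2) = 0 := by
      intro k
      rw [← hu, hy0]; simp [em]
    have a0 : em φ x 2 + em φ x 3 = 0 := h0 0
    have a1 : em φ x 3 + em φ x 4 = 0 := h0 1
    have a2 : em φ x 4 + em φ x 0 = 0 := h0 2
    have a3 : em φ x 0 + em φ x 1 = 0 := h0 3
    have a4 : em φ x 1 + em φ x 2 = 0 := h0 4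
    exact hz 0 (by linear_combination (a0 - a1 + a2 + a3 - a4) / 2)
  have hc : ∀ i j : Fin 5, i = j ∨ ∃ k : Fin 5, (i = k + 1 ∧ j = k - 1) ∨ (j = k + 1 ∧ i = k - 1) ∨
      (i = k + 2 ∧ j = k - 2) ∨ (j = k + 2 ∧ i = k - 2) := by decide
  rcases hc i j with rfl | ⟨k, ⟨rfl, rfl⟩ | ⟨rfl, rfl⟩ | ⟨rfl, rfl⟩ | ⟨rfl, rfl⟩⟩
  · intro h2
    exact hz i (by linear_combination h2 / 2)
  · exact k1 k
  · rw [add_comm]; exact k1 k
  · exact k2 k
  · rw [add_comm]; exact k2 k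

theorem Pent.det_sq (h : Pent φ) (b : Module.Basis (Fin 5) ℤ (𝓞 L)) :
    ‖(Matrix.of fun k => em φ (b k)).det‖ ^ 2 = |((discr L : ℤ) : ℝ)| := by
  set M : Matrix (Fin 5) (Fin 5) ℂ := Matrix.of fun k => em φ (b k) with hM
  have h1 : M * Mᵀ = (Algebra.traceMatrix ℤ b).map (Int.castRingHom ℂ) := by
    ext k l
    have h2 := h.sum_trace ((b k * b l : 𝓞 L) : L)
    rw [← Algebra.coe_trace_int] at h2
    simp only [Matrix.mul_apply, Matrix.transpose_apply, hM, Matrix.of_apply, Matrix.map_apply,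
      Algebra.traceMatrix_apply, Algebra.traceForm_apply, eq_intCast]
    simpa [em] using h2
  have h3 : M.det ^ 2 = ((discr L : ℤ) : ℂ) := by
    rw [← NumberField.discr_eq_discr L b, Algebra.discr_def, sq]
    nth_rewrite 2 [← Matrix.det_transpose M]
    rw [← Matrix.det_mul, h1]
    exact ((Int.castRingHom ℂ).map_det _).symm
  rw [← norm_pow, h3, Complex.norm_intCast]

theorem Pent.basis (h : Pent φ) : Nonempty (Module.Basis (Fin 5) ℤ (𝓞 L)) := by
  exact ⟨Module.finBasisOfFinrankEq ℤ (𝓞 L) (by rw [RingOfIntegers.rank, h.deg])⟩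

end Pool.Agent.Lib.MP_af4c59_nt.H57
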