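import Pool.Agent.Lib.MP_af4c59_nt.H57QuatL

/-!
Local and global cells on a quadric surface.
-/

set_option autoImplicit false

namespace Pool.Agent.Lib.MP_af4c59_nt.H57

open Matrix

theorem globQuat : ∃ f, SP f ∧ ∀ (N : ℝ) (A : Matrix (Fin 4) (Fin 4) ℤ) (S k c : ℕ)
    (X : Finset (Fin 4 → ℤ)), A.IsSymm → A.det.natAbs = S * k ^ 2 → Squarefree S → k ≠ 0 →
    c ≠ 0 → GcdDvd 2 A (c : ℤ) → |((A.det : ℤ) : ℝ)| ≤ N → (∀ x ∈ X, bf A x x = 0) →
    ∃ σ F u : ℕ, 0 < σ ∧ 0 < F ∧ 0 < u ∧ Cov X (LD A (u : ℤ)) (f N) ∧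
      Part X (fun x y => (σ : ℤ) ∣ bf A x y) (f N * F) ∧ F ≤ 1024 * k ∧ F * k ≤ 1024 * c * σ ∧
      A.det.natAbs ≤ 1024 * c * u := by
  obtain ⟨f₁, hf₁, h₁⟩ := SP_div (K := 9) (by norm_num) 1
  obtain ⟨f₂, hf₂, h₂⟩ := SP_div (K := 200) (by norm_num) 2
  refine ⟨fun N => f₁ N + f₂ N, hf₁.add hf₂, ?_⟩
  intro N A S k c X hA hD hS hk hc hg hN h0
  have hloc : ∀ p : ℕ, ∃ s f u : ℕ, p.Prime →
      Cov X (LD A ((p : ℤ) ^ u)) (9 * ((padicValNat p A.det.natAbs : ℝ) + 1)) ∧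
      Part X (fun x y => (p : ℤ) ^ s ∣ bf A x y)
        (200 * ((padicValNat p A.det.natAbs : ℝ) + 1) ^ 2 * (p : ℝ) ^ f) ∧
      f ≤ padicValNat p k + 10 * e2v p ∧
      f + padicValNat p k ≤ padicValNat p c + s + 10 * e2v p ∧
      padicValNat p A.det.natAbs ≤ padicValNat p c + u + 10 * e2v p := fun p => by
    by_cases hp : p.Prime
    · have := Fact.mk hp
      obtain ⟨s, f, u, h⟩ := locQuat p hA hD hS hk hc hg h0
      exact ⟨s, f, u, fun _ => h⟩
    · exact ⟨0, 0, 0, fun h => absurd h hp⟩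
  choose s f u hl using hloc
  have hN' : ((A.det.natAbs : ℕ) : ℝ) ≤ N := by
    rw [Nat.cast_natAbs, Int.cast_abs]; exact hN
  have hn : A.det.natAbs ≠ 0 := by
    rw [hD]; exact mul_ne_zero hS.ne_zero (pow_ne_zero 2 hk)
  generalize A.det.natAbs = n at hD hl hN' hn ⊢
  have hN1 : 1 ≤ N := le_trans (by exact_mod_cast Nat.pos_of_ne_zero hn) hN'
  have p₁ := (hf₁.pos hN1).le
  have p₂ := (hf₂.pos hN1).le
  have hpos : ∀ a : ℕ → ℕ, 0 < ∏ p ∈ n.primeFactors, p ^ a p := fun a =>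
    Finset.prod_pos fun p hp => pow_pos (Nat.prime_of_mem_primeFactors hp).pos _
  refine ⟨∏ p ∈ n.primeFactors, p ^ s p, ∏ p ∈ n.primeFactors, p ^ f p,
    ∏ p ∈ n.primeFactors, p ^ u p, hpos _, hpos _, hpos _, ?_, ?_, ?_, ?_, ?_⟩
  · have h := glob X hn (fun p => LD A ((p : ℤ) ^ u p)) (fun p => her_LD A _) 9 1 (fun _ => 0)
      (fun p hp => by
        have hp' := Nat.prime_of_mem_primeFactors hp
        rw [Nat.factorization_def n hp', pow_one, pow_zero, mul_one]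
        exact (hl p hp').1)
    refine (h.imp fun C _ hC => ?_).mono ?_
    · intro x₁ hx₁ x₂ hx₂ y₁ hy₁ y₂ hy₂ hx hy
      exact prod_pow_dvd u fun p hp => hC p hp x₁ hx₁ x₂ hx₂ y₁ hy₁ y₂ hy₂ hx hy
    · have := h₁ N n hn hN'
      simp only [pow_zero, Finset.prod_const_one, Nat.cast_one, mul_one]
      linarith
  · have h := glob X hn (fun p => Clq fun x y => (p : ℤ) ^ s p ∣ bf A x y) (fun p => her_clq _)
      200 2 f (fun p hp => by
        have hp' := Nat.prime_of_mem_primeFactors hp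
        rw [Nat.factorization_def n hp']
        exact (hl p hp').2.1)
    refine (h.imp fun C _ hC => ?_).mono ?_
    · intro x hx y hy
      exact prod_pow_dvd s fun p hp => hC p hp x hx y hy
    · have := h₂ N n hn hN'
      gcongr
      linarith
  · have h := prod_pow_le (n := n) (a := 1) (b := k) one_ne_zero hk f (fun _ => 0) 10
      (fun p hp h => absurd (Nat.dvd_one.1 h) hp.ne_one)
      (fun p hp => by
        have := (hl p (Nat.prime_of_mem_primeFactors hp)).2.2.1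
        simp only [padicValNat_one_right]
        omega)
    simpa using h
  · have h := prod_pow_le (n := n) (a := k) (b := c) hk hc f s 10
      (fun p hp h => Nat.mem_primeFactors.2 ⟨hp, by
        rw [hD]; exact Dvd.dvd.mul_left (h.trans (dvd_pow_self k two_ne_zero)) S, hn⟩)
      (fun p hp => (hl p (Nat.prime_of_mem_primeFactors hp)).2.2.2.1)
    simpa using h
  · have h := prod_pow_le (n := n) (a := n) (b := c) hn hc (fun _ => 0) u 10
      (fun p hp h => Nat.mem_primeFactors.2 ⟨hp, h, hn⟩)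
      (fun p hp => by
        have := (hl p (Nat.prime_of_mem_primeFactors hp)).2.2.2.2
        omega)
    simpa using h

end Pool.Agent.Lib.MP_af4c59_nt.H57
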