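import Pool.Agent.Lib.MP_af4c59_nt.H57RichB

/-!
Points on lines of a quadric surface.
-/

set_option autoImplicit false

namespace Pool.Agent.Lib.MP_af4c59_nt.H57

open Matrix

section

variable {A : Matrix (Fin 4) (Fin 4) ℤ} {P : Matrix (Fin 4) (Fin 4) ℝ} {ν : Fin 4 → ℝ}
  {X : Finset (Fin 4 → ℤ)} {N B H Y : ℝ}

theorem rich_cast (h : QD A P ν X N B H) (x₁ x₂ y₁ y₂ : Fin 4 → ℤ) :
    ((dd A x₁ x₂ y₁ y₂ : ℤ) : ℝ) = dd (Matrix.diagonal ν) (P *ᵥ vc ℝ x₁) (P *ᵥ vc ℝ x₂)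
      (P *ᵥ vc ℝ y₁) (P *ᵥ vc ℝ y₂) := by
  unfold dd
  rw [Int.cast_sub, Int.cast_mul, Int.cast_mul, h.bf_eq, h.bf_eq, h.bf_eq, h.bf_eq]

theorem rich_ar_pos (h : QD A P ν X N B H) {x y : Fin 4 → ℤ} (hx : x ∈ X) (hy : y ∈ X)
    (hne : x ≠ y) : 0 < ar (P *ᵥ vc ℝ x) (P *ᵥ vc ℝ y) :=
  ar_pos.2 (NP_mulVec (Q := P⁻¹) (Matrix.nonsing_inv_mul P (isUnit_iff_ne_zero.2 h.detP))
    (NP_vc.2 (h.pw x hx y hy hne)))

theorem rich_ne (h : QD A P ν X N B H) (h3 : ν 3 ≠ 0) (i : Fin 4) : ν i ≠ 0 := by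
  have h1 := h.sorted i 3 (Fin.le_last i)
  have h2 := abs_pos.2 h3
  exact abs_pos.1 (lt_of_lt_of_le h2 h1)

/-- The pairing determinants of the largest and of the smallest pairs. -/
theorem rich_pair (h : QD A P ν X N B H) {l l' w w' : ℝ} {C D : Finset (Fin 4 → ℤ)}
    {a b a' b' c d c' d' : Fin 4 → ℤ} (hCX : C ⊆ X) (hDX : D ⊆ X)
    (hC : OnLine A P ν l C a b a' b') (hD : OnLine A P ν l' D c d c' d') (hw' : 0 ≤ w')
    (h1 : w * ar (P *ᵥ vc ℝ a) (P *ᵥ vc ℝ b) ≤ ar (P *ᵥ vc ℝ a') (P *ᵥ vc ℝ b'))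
    (h2 : w' * ar (P *ᵥ vc ℝ c) (P *ᵥ vc ℝ d) ≤ ar (P *ᵥ vc ℝ c') (P *ᵥ vc ℝ d')) :
    w * w' * |((dd A a b c d : ℤ) : ℝ)| ≤ |((dd A a' b' c' d' : ℤ) : ℝ)| := by
  obtain ⟨s₁, t₁, e₁⟩ := hC.plane a' hC.ha'
  obtain ⟨s₂, t₂, e₂⟩ := hC.plane b' hC.hb'
  obtain ⟨s₃, t₃, e₃⟩ := hD.plane c' hD.ha'
  obtain ⟨s₄, t₄, e₄⟩ := hD.plane d' hD.hb'
  have p1 := rich_ar_pos h (hCX hC.ha) (hCX hC.hb) hC.ne
  have p2 := rich_ar_pos h (hDX hD.ha) (hDX hD.hb) hD.ne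
  rw [e₁, e₂, ar_comb] at h1
  rw [e₃, e₄, ar_comb] at h2
  have q1 := le_of_mul_le_mul_right h1 p1
  have q2 := le_of_mul_le_mul_right h2 p2
  rw [rich_cast h a' b' c' d', e₁, e₂, e₃, e₄, dd_comb, ← rich_cast h, abs_mul, abs_mul]
  exact mul_le_mul_of_nonneg_right (mul_le_mul q1 q2 hw' (abs_nonneg _)) (abs_nonneg _)

theorem rich_top (h : QD A P ν X N B H) (h3 : ν 3 ≠ 0)
    (hY : ∀ x ∈ X, ∀ y ∈ X, |((bf A x y : ℤ) : ℝ)| ≤ Y) {a b c d : Fin 4 → ℤ} (ha : a ∈ X)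
    (hb : b ∈ X) (hc : c ∈ X) (hd : d ∈ X) (h1 : bf A a b = 0) (h2 : bf A c d = 0) :
    |((dd A a b c d : ℤ) : ℝ)| ≤ min (8 * |ν 3| * B ^ 2 * Y) (2 * N ^ 2) := by
  refine le_min (realLine h h3 hY ha hb hc hd h1 h2) ?_
  unfold dd
  rw [Int.cast_sub, Int.cast_mul, Int.cast_mul]
  have h0 : (0 : ℝ) ≤ N := le_trans zero_le_one h.oneN
  have e1 := mul_le_mul (h.bN a ha c hc) (h.bN b hb d hd) (abs_nonneg _) h0
  have e2 := mul_le_mul (h.bN a ha d hd) (h.bN b hb c hc) (abs_nonneg _) h0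
  refine (abs_sub _ _).trans ?_
  rw [abs_mul, abs_mul]
  nlinarith

theorem rich_num {Q Z : ℝ} {i L : ℕ} (hi : i ≤ L) (h1 : (2 : ℝ) ^ i * 2 ^ i ≤ Q) (h2 : Q ≤ 8 * Z) :
    ((L : ℝ) + 5) * (16 * √(Q / (2 ^ i * 2 ^ i)) + 2) *
      ((2 * ((i + 1 : ℕ) : ℝ) + 5) * (16 * 2 ^ (i + 1) + 2)) ≤ 64260 * ((L : ℝ) + 1) ^ 2 * √Z := by
  have ht : (1 : ℝ) ≤ 2 ^ i := one_le_pow₀ (by norm_num)
  have ht0 : (0 : ℝ) < 2 ^ i := by positivity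
  have hQ0 : 0 ≤ Q := le_trans (by positivity) h1
  have e1 : √(Q / (2 ^ i * 2 ^ i)) = √Q / 2 ^ i := by
    rw [Real.sqrt_div hQ0, Real.sqrt_mul_self ht0.le]
  have e2 : (2 : ℝ) ^ i ≤ √Q := Real.le_sqrt_of_sq_le (by rw [sq]; exact h1)
  have e3 : √Q ≤ 3 * √Z := by
    have hZ : 0 ≤ Z := by linarith
    rw [Real.sqrt_le_left (by positivity), mul_pow, Real.sq_sqrt hZ]
    linarith
  have e4 : 16 * √(Q / (2 ^ i * 2 ^ i)) + 2 ≤ 18 * (√Q / 2 ^ i) := by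
    have : 1 ≤ √Q / 2 ^ i := (one_le_div ht0).2 e2
    rw [e1]
    linarith
  have e5 : (16 : ℝ) * 2 ^ (i + 1) + 2 ≤ 34 * 2 ^ i := by
    rw [pow_succ]
    linarith
  have hiL : (i : ℝ) ≤ L := by exact_mod_cast hi
  have hL0 : (0 : ℝ) ≤ L := Nat.cast_nonneg L
  have e6 : (L : ℝ) + 5 ≤ 5 * ((L : ℝ) + 1) := by linarith
  have e7 : 2 * ((i + 1 : ℕ) : ℝ) + 5 ≤ 7 * ((L : ℝ) + 1) := by
    push_cast
    linarith
  calc ((L : ℝ) + 5) * (16 * √(Q / (2 ^ i * 2 ^ i)) + 2) *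
        ((2 * ((i + 1 : ℕ) : ℝ) + 5) * (16 * 2 ^ (i + 1) + 2))
      ≤ (5 * ((L : ℝ) + 1)) * (18 * (√Q / 2 ^ i)) * ((7 * ((L : ℝ) + 1)) * (34 * 2 ^ i)) := by
        gcongr
    _ = 21420 * ((L : ℝ) + 1) ^ 2 * √Q := by
        field_simp
        ring
    _ ≤ 21420 * ((L : ℝ) + 1) ^ 2 * (3 * √Z) := by gcongr
    _ = 64260 * ((L : ℝ) + 1) ^ 2 * √Z := by ring

/-- The lines of one colour. -/
theorem rich_col (h : QD A P ν X N B H) (h3 : ν 3 ≠ 0) {u : ℕ} (hu : 0 < u) (hLD : LD A (u : ℤ) X)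
    (hY : ∀ x ∈ X, ∀ y ∈ X, |((bf A x y : ℤ) : ℝ)| ≤ Y) {l : ℝ} (T : Finset (Finset (Fin 4 → ℤ)))
    (a b a' b' : Finset (Fin 4 → ℤ) → Fin 4 → ℤ)
    (hT : ∀ C ∈ T, C ⊆ X ∧ OnLine A P ν l C (a C) (b C) (a' C) (b' C))
    (hdd : ∀ C ∈ T, ∀ D ∈ T, C ≠ D → dd A (a C) (b C) (a D) (b D) ≠ 0) {i L : ℕ}
    (hL : 2 * N ^ 2 ≤ 2 ^ L) (hi : i ≤ L)
    (hW : ∀ C ∈ T, 2 ^ i * ar (P *ᵥ vc ℝ (a C)) (P *ᵥ vc ℝ (b C)) ≤
        ar (P *ᵥ vc ℝ (a' C)) (P *ᵥ vc ℝ (b' C)) ∧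
      (ar (P *ᵥ vc ℝ (a' C)) (P *ᵥ vc ℝ (b' C)) ≤ 2 ^ (i + 1) * ar (P *ᵥ vc ℝ (a C)) (P *ᵥ vc ℝ (b C)) ∨
        2 * 2 ^ L * ar (P *ᵥ vc ℝ (a C)) (P *ᵥ vc ℝ (b C)) ≤ ar (P *ᵥ vc ℝ (a' C)) (P *ᵥ vc ℝ (b' C))))
    (h2 : 1 < T.card) (Z : Finset (Fin 4 → ℤ)) (c : (Fin 4 → ℤ) → Finset (Fin 4 → ℤ))
    (hc : ∀ x ∈ Z, c x ∈ T ∧ x ∈ c x) :
    (Z.card : ℝ) ≤ 64260 * ((L : ℝ) + 1) ^ 2 * √(|ν 3| * B ^ 2 * Y / u) := by
  classical
  have hu1 : (1 : ℝ) ≤ u := by exact_mod_cast hu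
  have hu0 : (0 : ℝ) < u := by linarith
  have hν : 0 < |ν 3| := abs_pos.2 h3
  have ht0 : (0 : ℝ) < 2 ^ i := by positivity
  set Q0 := min (8 * |ν 3| * B ^ 2 * Y) (2 * N ^ 2) with hQ0
  have hlow : ∀ C ∈ T, ∀ D ∈ T, C ≠ D → (u : ℝ) ≤ |((dd A (a C) (b C) (a D) (b D) : ℤ) : ℝ)| := by
    intro C hC D hD hne
    obtain ⟨hCX, oC⟩ := hT C hC
    obtain ⟨hDX, oD⟩ := hT D hD
    have h1 := hLD _ (hCX oC.ha) _ (hCX oC.hb) _ (hDX oD.ha) _ (hDX oD.hb)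
      (oC.orth _ oC.ha _ oC.hb) (oD.orth _ oD.ha _ oD.hb)
    have h4 := Int.le_of_dvd (abs_pos.2 (hdd C hC D hD hne)) ((dvd_abs _ _).2 h1)
    exact_mod_cast h4
  have hup : ∀ C ∈ T, ∀ D ∈ T, ∀ w w' : ℝ, 0 ≤ w' →
      w * ar (P *ᵥ vc ℝ (a C)) (P *ᵥ vc ℝ (b C)) ≤ ar (P *ᵥ vc ℝ (a' C)) (P *ᵥ vc ℝ (b' C)) →
      w' * ar (P *ᵥ vc ℝ (a D)) (P *ᵥ vc ℝ (b D)) ≤ ar (P *ᵥ vc ℝ (a' D)) (P *ᵥ vc ℝ (b' D)) →
      w * w' * |((dd A (a C) (b C) (a D) (b D) : ℤ) : ℝ)| ≤ Q0 := by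
    intro C hC D hD w w' hw' e1 e2
    obtain ⟨hCX, oC⟩ := hT C hC
    obtain ⟨hDX, oD⟩ := hT D hD
    exact (rich_pair h hCX hDX oC oD hw' e1 e2).trans
      (rich_top h h3 hY (hCX oC.ha') (hCX oC.hb') (hDX oD.ha') (hDX oD.hb')
        (oC.orth _ oC.ha' _ oC.hb') (oD.orth _ oD.ha' _ oD.hb'))
  have hQL : Q0 ≤ 2 ^ L := (min_le_right _ _).trans hL
  have hW2 : ∀ C ∈ T, ar (P *ᵥ vc ℝ (a' C)) (P *ᵥ vc ℝ (b' C)) ≤
      2 ^ (i + 1) * ar (P *ᵥ vc ℝ (a C)) (P *ᵥ vc ℝ (b C)) := by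
    intro C hC
    rcases (hW C hC).2 with e | e
    · exact e
    · exfalso
      obtain ⟨D, hD, hne⟩ := Finset.exists_mem_ne h2 C
      have e1 := hup C hC D hD (2 * 2 ^ L) 1 zero_le_one e
        (by rw [one_mul]; exact (hT D hD).2.max _ (hT D hD).2.ha _ (hT D hD).2.hb)
      have e2 := hlow C hC D hD hne.symm
      have e3 : (0 : ℝ) < 2 ^ L := by positivity
      nlinarith
  have hQ1 : (2 : ℝ) ^ i * 2 ^ i ≤ Q0 / u := by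
    obtain ⟨C, hC, D, hD, hne⟩ := Finset.one_lt_card.1 h2
    have e1 := hup C hC D hD _ _ ht0.le (hW C hC).1 (hW D hD).1
    have e2 := hlow C hC D hD hne
    rw [le_div_iff₀ hu0]
    exact (mul_le_mul_of_nonneg_left e2 (by positivity)).trans e1
  have hz : ∀ C ∈ T, ∀ D ∈ T,
      |bf (Matrix.diagonal fun k : Fin 3 => ν k.castSucc)
        (fun k => zv (P *ᵥ vc ℝ (a C)) (P *ᵥ vc ℝ (b C)) k.castSucc)
        (fun k => zv (P *ᵥ vc ℝ (a D)) (P *ᵥ vc ℝ (b D)) k.castSucc)| =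
        |((dd A (a C) (b C) (a D) (b D) : ℤ) : ℝ)| / (2 * |ν 3|) := by
    intro C hC D hD
    rw [← bf_zv3, rich_cast h, rul_same (rich_ne h h3) (hT C hC).2.rul (hT D hD).2.rul (hT C hC).2.sq,
      abs_mul, abs_mul, abs_two]
    field_simp
  have hcard := packR (A := Matrix.diagonal fun k : Fin 3 => ν k.castSucc) (X := T)
    (x := fun C k => zv (P *ᵥ vc ℝ (a C)) (P *ᵥ vc ℝ (b C)) k.castSucc)
    (σ := u / (2 * |ν 3|)) (Y := Q0 / (2 ^ i * 2 ^ i) / (2 * |ν 3|)) (L := L)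
    (Matrix.isSymm_diagonal _) (by positivity)
    (by
      intro C hC
      have e := hz C hC C hC
      have oC := (hT C hC).2
      have e0 : dd A (a C) (b C) (a C) (b C) = 0 := by
        unfold dd
        rw [oC.orth _ oC.ha _ oC.ha, oC.orth _ oC.ha _ oC.hb]
        ring
      rw [e0] at e
      simpa using e)
    (by
      intro C hC D hD hne
      rw [hz C hC D hD]
      exact div_le_div_of_nonneg_right (hlow C hC D hD hne) (by positivity))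
    (by
      intro C hC D hD
      rw [hz C hC D hD]
      refine div_le_div_of_nonneg_right ?_ (by positivity)
      rw [le_div_iff₀ (by positivity), mul_comm]
      exact hup C hC D hD _ _ ht0.le (hW C hC).1 (hW D hD).1)
    (by
      rw [← mul_div_assoc]
      refine div_le_div_of_nonneg_right ?_ (by positivity)
      have e1 : (1 : ℝ) ≤ 2 ^ i := one_le_pow₀ (by norm_num)
      have e2 : (0 : ℝ) < 2 ^ L := by positivity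
      have e3 : Q0 / (2 ^ i * 2 ^ i) ≤ 2 ^ L := by
        rw [div_le_iff₀ (by positivity)]
        nlinarith [mul_le_mul e1 e1 zero_le_one ht0.le]
      nlinarith)
  have hrat : Q0 / (2 ^ i * 2 ^ i) / (2 * |ν 3|) / (u / (2 * |ν 3|)) = Q0 / u / (2 ^ i * 2 ^ i) := by
    field_simp
  rw [hrat] at hcard
  have hline : ∀ C ∈ T, (C.card : ℝ) ≤ (2 * ((i + 1 : ℕ) : ℝ) + 5) * (16 * 2 ^ (i + 1) + 2) := by
    intro C hC
    obtain ⟨hCX, oC⟩ := hT C hC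
    have p1 := rich_ar_pos h (hCX oC.ha) (hCX oC.hb) oC.ne
    have e := packDet (X := C) (σ := ar (P *ᵥ vc ℝ (a C)) (P *ᵥ vc ℝ (b C)))
      (Y := 2 ^ (i + 1) * ar (P *ᵥ vc ℝ (a C)) (P *ᵥ vc ℝ (b C))) (L := i + 1)
      (P *ᵥ vc ℝ (a C)) (P *ᵥ vc ℝ (b C)) (fun x => P *ᵥ vc ℝ x) oC.plane p1 (by positivity)
      oC.min (fun x hx y hy => (oC.max x hx y hy).trans (hW2 C hC)) le_rfl
    rwa [mul_div_assoc, div_self p1.ne', mul_one] at e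
  have hfin := card_le_fib (X := Z) (n := (2 * ((i + 1 : ℕ) : ℝ) + 5) * (16 * 2 ^ (i + 1) + 2))
    c T (fun x hx => (hc x hx).1) hcard (by positivity)
    (fun C hC D hDZ hD => by
      refine le_trans ?_ (hline C hC)
      have : D ⊆ C := fun x hx => by
        have := (hc x (hDZ hx)).2
        rwa [hD x hx] at this
      exact_mod_cast Finset.card_le_card this)
  refine hfin.trans (rich_num hi hQ1 ?_)
  rw [← mul_div_assoc]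
  refine div_le_div_of_nonneg_right ((min_le_left _ _).trans (le_of_eq ?_)) hu0.le
  ring

end

theorem richCount : ∃ f, SP f ∧ ∀ (A : Matrix (Fin 4) (Fin 4) ℤ) (P : Matrix (Fin 4) (Fin 4) ℝ)
    (ν : Fin 4 → ℝ) (X : Finset (Fin 4 → ℤ)) (N B H Y : ℝ) (u : ℕ), QD A P ν X N B H → ν 3 ≠ 0 →
    0 < u → LD A (u : ℤ) X → 0 ≤ Y → (∀ x ∈ X, ∀ y ∈ X, |((bf A x y : ℤ) : ℝ)| ≤ Y) →
    (∀ x ∈ X, ∃ y ∈ X, x ≠ y ∧ bf A x y = 0) →
    (X.card : ℝ) ≤ f N * (1 + B ^ 2 / H + √(|ν 3| * B ^ 2 * Y / u)) := by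
  classical
  obtain ⟨f, hf, hl⟩ := lineCount
  have hg : SP fun x => (lg (4 * x ^ 2) : ℝ) + 1 := SP_lg.comp (by norm_num) 2
  refine ⟨fun x => (2 * ((lg (4 * x ^ 2) : ℝ) + 1)) * (f x + 64260 * ((lg (4 * x ^ 2) : ℝ) + 1) ^ 2),
    (hg.cmul (by norm_num)).mul (hf.add ((hg.pow 2).cmul (by norm_num))), ?_⟩
  intro A P ν X N B H Y u h h3 hu hLD _ hY hX
  obtain ⟨l, S, s, a, b, a', b', hcov, hS, hdd⟩ := exists_lines h h3 hX
  set L := lg (4 * N ^ 2) with hLdef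
  have hL : 2 * N ^ 2 ≤ 2 ^ L := le_trans (by nlinarith [sq_nonneg N]) (le_two_pow_lg _)
  have hlev : ∀ C ∈ S, ∃ i : ℕ, i ≤ L ∧ 2 ^ i * ar (P *ᵥ vc ℝ (a C)) (P *ᵥ vc ℝ (b C)) ≤
        ar (P *ᵥ vc ℝ (a' C)) (P *ᵥ vc ℝ (b' C)) ∧
      (ar (P *ᵥ vc ℝ (a' C)) (P *ᵥ vc ℝ (b' C)) ≤ 2 ^ (i + 1) * ar (P *ᵥ vc ℝ (a C)) (P *ᵥ vc ℝ (b C)) ∨
        2 * 2 ^ L * ar (P *ᵥ vc ℝ (a C)) (P *ᵥ vc ℝ (b C)) ≤
          ar (P *ᵥ vc ℝ (a' C)) (P *ᵥ vc ℝ (b' C))) := by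
    intro C hC
    obtain ⟨hCX, -, oC⟩ := hS C hC
    have p1 := rich_ar_pos h (hCX oC.ha) (hCX oC.hb) oC.ne
    by_cases e : ar (P *ᵥ vc ℝ (a' C)) (P *ᵥ vc ℝ (b' C)) ≤
        2 ^ L * ar (P *ᵥ vc ℝ (a C)) (P *ᵥ vc ℝ (b C))
    · obtain ⟨i, hi, e1, e2⟩ := exists_level p1 (oC.max _ oC.ha _ oC.hb) e
      exact ⟨i, hi, e1, Or.inl e2⟩
    · refine ⟨L, le_rfl, (not_le.1 e).le, ?_⟩
      rw [pow_succ, mul_comm ((2 : ℝ) ^ L) 2]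
      exact le_total _ _
  choose! lev hlev using hlev
  choose! c hc using hcov
  have hfN := hf.pos h.oneN
  have hBH : 0 ≤ B ^ 2 / H := div_nonneg (sq_nonneg _) h.Hpos.le
  have hsq := Real.sqrt_nonneg (|ν 3| * B ^ 2 * Y / u)
  have hL0 : (0 : ℝ) ≤ L := Nat.cast_nonneg L
  have hmain := card_le_fib (X := X) (fun x => (s (c x), lev (c x)))
    (({l, -l} : Finset ℝ) ×ˢ Finset.range (L + 1)) (J := 2 * ((L : ℝ) + 1))
    (n := (f N + 64260 * ((L : ℝ) + 1) ^ 2) * (1 + B ^ 2 / H + √(|ν 3| * B ^ 2 * Y / u)))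
    (by
      intro x hx
      have hcx := (hc x hx).1
      rw [Finset.mem_product, Finset.mem_insert, Finset.mem_singleton, Finset.mem_range]
      exact ⟨(hS _ hcx).2.1, Nat.lt_succ_of_le (hlev _ hcx).1⟩)
    (by
      rw [Finset.card_product, Finset.card_range]
      have e : ({l, -l} : Finset ℝ).card ≤ 2 := Finset.card_le_two
      have e2 : (({l, -l} : Finset ℝ).card : ℝ) ≤ 2 := by exact_mod_cast e
      push_cast
      gcongr)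
    (by positivity)
    (by
      rintro ⟨l', i⟩ hk Z hZX hZ
      have hiL : i ≤ L := Nat.lt_succ_iff.1 (Finset.mem_range.1 (Finset.mem_product.1 hk).2)
      let T := S.filter fun C => s C = l' ∧ lev C = i
      have hcT : ∀ x ∈ Z, c x ∈ T ∧ x ∈ c x := fun x hx =>
        ⟨Finset.mem_filter.2 ⟨(hc x (hZX hx)).1, Prod.mk.inj (hZ x hx)⟩, (hc x (hZX hx)).2⟩
      have hT : ∀ C ∈ T, C ⊆ X ∧ OnLine A P ν l' C (a C) (b C) (a' C) (b' C) := by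
        intro C hC
        obtain ⟨hCS, e1, -⟩ := Finset.mem_filter.1 hC
        exact ⟨(hS C hCS).1, e1 ▸ (hS C hCS).2.2⟩
      by_cases h2 : 1 < T.card
      · have e := rich_col h h3 hu hLD hY T a b a' b' hT
          (fun C hC D hD hne => hdd C (Finset.mem_filter.1 hC).1 D (Finset.mem_filter.1 hD).1 hne
            ((Finset.mem_filter.1 hC).2.1.trans (Finset.mem_filter.1 hD).2.1.symm))
          hL hiL (fun C hC => by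
            have e1 := (hlev C (Finset.mem_filter.1 hC).1).2
            rwa [(Finset.mem_filter.1 hC).2.2] at e1) h2 Z c hcT
        refine e.trans ?_
        have e0 : (0 : ℝ) ≤ 64260 * ((L : ℝ) + 1) ^ 2 := by positivity
        exact mul_le_mul (by linarith) (by linarith) hsq (by positivity)
      · have e := card_le_fib (X := Z) c T (fun x hx => (hcT x hx).1) (J := 1)
          (n := f N * (1 + B ^ 2 / H)) (by exact_mod_cast not_lt.1 h2) (by positivity)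
          (fun C hC D hDZ hD => by
            obtain ⟨hCX, oC⟩ := hT C hC
            have hDC : D ⊆ C := fun x hx => by
              have := (hcT x (hDZ hx)).2
              rwa [hD x hx] at this
            exact hl A P ν D N B H _ _ (h.sub (hDC.trans hCX)) (fun x hx => oC.plane x (hDC hx))
              (fun x hx y hy => oC.orth x (hDC hx) y (hDC hy)))
        rw [one_mul] at e
        refine e.trans ?_
        have e0 : (0 : ℝ) ≤ 64260 * ((L : ℝ) + 1) ^ 2 := by positivity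
        exact mul_le_mul (by linarith) (by linarith) (by positivity) (by positivity))
  refine hmain.trans (le_of_eq ?_)
  ring

end Pool.Agent.Lib.MP_af4c59_nt.H57
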