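import Pool.Agent.Lib.MP_af4c59_nt.H57RealC
import Pool.Agent.Lib.MP_af4c59_nt.H57Cell
import Pool.Agent.Lib.MP_af4c59_nt.H57Quat
import Pool.Agent.Lib.MP_af4c59_nt.H57Cone
import Pool.Agent.Lib.MP_af4c59_nt.H57Rich

/-!
A uniform bound for points on quadric surfaces.
-/

set_option autoImplicit false

namespace Pool.Agent.Lib.MP_af4c59_nt.H57

open Matrix

theorem thmq_rich {m n2 n3 B d c u : ℝ} (hm : 0 < m) (hu : 0 < u) (hc : 1 ≤ c)
    (hd : d = m ^ 2 * (n2 * n3)) (h : d ≤ 1024 * c * u) :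
    √(n3 * B ^ 2 * (18 * n2 * B ^ 2) / u) ≤ 136 * (c * B ^ 2 / m) := by
  have hc0 : 0 ≤ c := by linarith
  rw [Real.sqrt_le_left (by positivity), div_le_iff₀ hu]
  have e1 : (136 * (c * B ^ 2 / m)) ^ 2 * u = (18496 * c * (c * u)) * (B ^ 2) ^ 2 / m ^ 2 := by
    field_simp
    ring
  rw [e1, le_div_iff₀ (by positivity)]
  have e2 : n3 * B ^ 2 * (18 * n2 * B ^ 2) * m ^ 2 = (18 * d) * (B ^ 2) ^ 2 := by
    rw [hd]; ring
  rw [e2]
  refine mul_le_mul_of_nonneg_right ?_ (by positivity)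
  have h1 : 0 ≤ c * u := by positivity
  nlinarith

theorem thmq_nol {m n2 n3 B S k F σ c : ℝ} (hm : 0 < m) (h2 : 0 < n2) (h3 : 0 < n3) (hk : 0 < k)
    (hS : 0 < S) (hσ : 0 < σ) (hd : S * k ^ 2 = m ^ 2 * (n2 * n3)) (hF : F ≤ 1024 * k)
    (hF' : F * k ≤ 1024 * c * σ) :
    √(n2 / n3) * F * (√S + 10 * n3 * B ^ 2 / (σ * √S)) ≤
      1024 * (m * n2) + 10240 * (c * B ^ 2 / m) := by
  obtain ⟨r2, hr2, rfl⟩ : ∃ r : ℝ, 0 < r ∧ n2 = r ^ 2 :=
    ⟨√n2, Real.sqrt_pos.2 h2, (Real.sq_sqrt h2.le).symm⟩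
  obtain ⟨r3, hr3, rfl⟩ : ∃ r : ℝ, 0 < r ∧ n3 = r ^ 2 :=
    ⟨√n3, Real.sqrt_pos.2 h3, (Real.sq_sqrt h3.le).symm⟩
  obtain ⟨s, hs, rfl⟩ : ∃ r : ℝ, 0 < r ∧ S = r ^ 2 :=
    ⟨√S, Real.sqrt_pos.2 hS, (Real.sq_sqrt hS.le).symm⟩
  have e0 : s * k = m * (r2 * r3) := by
    have : (s * k) ^ 2 = (m * (r2 * r3)) ^ 2 := by linear_combination hd
    exact (pow_left_inj₀ (by positivity) (by positivity) two_ne_zero).1 this
  rw [← div_pow, Real.sqrt_sq (by positivity), Real.sqrt_sq hs.le, mul_add]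
  have hs' : s = m * (r2 * r3) / k := by
    rw [← e0]; field_simp
  refine add_le_add ?_ ?_
  · calc r2 / r3 * F * s ≤ r2 / r3 * (1024 * k) * s := by gcongr
      _ = 1024 * (m * r2 ^ 2) := by
        rw [hs']; field_simp
  · have hF2 : F ≤ 1024 * c * σ / k := by rwa [le_div_iff₀ hk]
    calc r2 / r3 * F * (10 * r3 ^ 2 * B ^ 2 / (σ * s))
        ≤ r2 / r3 * (1024 * c * σ / k) * (10 * r3 ^ 2 * B ^ 2 / (σ * s)) := by gcongr
      _ = 10240 * (c * B ^ 2 / m) := by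
        rw [hs']; field_simp; ring

theorem main4 : ∃ f, SP f ∧ ∀ (A : Matrix (Fin 4) (Fin 4) ℤ) (P : Matrix (Fin 4) (Fin 4) ℝ)
    (ν : Fin 4 → ℝ) (X : Finset (Fin 4 → ℤ)) (N B H : ℝ) (c : ℕ), QD A P ν X N B H →
    A.det ≠ 0 → |((A.det : ℤ) : ℝ)| ≤ N → c ≠ 0 → GcdDvd 2 A (c : ℤ) →
    (X.card : ℝ) ≤ f N * (1 + B ^ 2 / H + |P.det| * ν 0 ^ 2 +
      c * B ^ 2 / (|P.det| * √|ν 0 * ν 1|)) := by
  classical
  obtain ⟨fq, hfq, hq⟩ := globQuat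
  obtain ⟨fC, hfC, hC⟩ := realCoarse
  obtain ⟨fF, hfF, hF⟩ := realFine
  obtain ⟨fr, hfr, hr⟩ := richCount
  obtain ⟨fc, hfc, hc⟩ := cell
  refine ⟨fun N => fq N * fC N * (136 * fr N + 10240 * (fF N * fq N * fc N)),
    (hfq.mul hfC).mul ((hfr.cmul (by norm_num)).add
      (((hfF.mul hfq).mul hfc).cmul (by norm_num))), ?_⟩
  intro A P ν X N B H c hQ hD hDN hc0 hg
  have hN := hQ.oneN
  have pq := hfq.pos hN
  have pC := hfC.pos hN
  have pF := hfF.pos hN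
  have pr := hfr.pos hN
  have pc := hfc.pos hN
  have hH := hQ.Hpos
  obtain ⟨S, k, hSk, hS⟩ := Nat.sq_mul_squarefree A.det.natAbs
  have hSk' : A.det.natAbs = S * k ^ 2 := by rw [← hSk]; ring
  have hk0 : k ≠ 0 := by
    rintro rfl
    apply hD
    simpa using hSk'
  obtain ⟨σ, F, u, hσ, hF0, hu, hLD, hPσ, hFk, hFσ, hdu⟩ :=
    hq N A S k c X hQ.symm hSk' hS hk0 hc0 hg hDN hQ.iso
  have hDr : ((A.det : ℤ) : ℝ) ≠ 0 := by exact_mod_cast hD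
  have hde := hQ.det_eq
  have h3 : ν 3 ≠ 0 := by
    intro h; apply hDr; rw [hde, h]; ring
  have n3 : 0 < |ν 3| := abs_pos.2 h3
  have n2 : 0 < |ν 2| := n3.trans_le (hQ.sorted 2 3 (by decide))
  have n1 : 0 < |ν 1| := n3.trans_le (hQ.sorted 1 3 (by decide))
  have n0 : 0 < |ν 0| := n3.trans_le (hQ.sorted 0 3 (by decide))
  have hP : 0 < |P.det| := abs_pos.2 hQ.detP
  have h01 : 0 < |ν 0 * ν 1| := by rw [abs_mul]; positivity
  set m : ℝ := |P.det| * √|ν 0 * ν 1| with hm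
  have hm0 : 0 < m := mul_pos hP (Real.sqrt_pos.2 h01)
  have habs : ((A.det.natAbs : ℕ) : ℝ) = m ^ 2 * (|ν 2| * |ν 3|) := by
    rw [Nat.cast_natAbs, Int.cast_abs, hde, hm, mul_pow, Real.sq_sqrt h01.le, abs_mul, abs_mul,
      abs_mul, abs_pow]
    ring
  have hmn : m * |ν 2| ≤ |P.det| * ν 0 ^ 2 := by
    rw [hm, mul_assoc]
    refine mul_le_mul_of_nonneg_left ?_ hP.le
    have k1 : √|ν 0 * ν 1| ≤ |ν 0| := by
      rw [Real.sqrt_le_left n0.le, abs_mul, sq]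
      exact mul_le_mul_of_nonneg_left (hQ.sorted 0 1 (by decide)) n0.le
    rw [← sq_abs, sq]
    exact mul_le_mul k1 (hQ.sorted 0 2 (by decide)) n2.le n0.le
  have hc1 : (1 : ℝ) ≤ c := by exact_mod_cast Nat.one_le_iff_ne_zero.2 hc0
  have t1 : 0 ≤ B ^ 2 / H := by positivity
  have t2 : 0 ≤ |P.det| * ν 0 ^ 2 := by positivity
  have t3 : 0 ≤ c * B ^ 2 / m := by positivity
  have hcov := Cov.and (her_LD A u) (her_clq _) hLD (hC A P ν X N B H hQ)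
  beta_reduce
  rw [mul_assoc]
  refine hcov.card_le (by positivity) ?_
  rintro C hCX ⟨hl, hcl⟩
  have hQC := hQ.sub hCX
  have hsplit := Finset.card_filter_add_card_filter_not (s := C)
    (fun x => ∃ y ∈ C, x ≠ y ∧ bf A x y = 0)
  set X1 := C.filter (fun x => ∃ y ∈ C, x ≠ y ∧ bf A x y = 0) with hX1
  set X2 := C.filter (fun x => ¬ ∃ y ∈ C, x ≠ y ∧ bf A x y = 0) with hX2
  have s1 : X1 ⊆ C := Finset.filter_subset _ _
  have s2 : X2 ⊆ C := Finset.filter_subset _ _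
  have b1 : (X1.card : ℝ) ≤ fr N * (1 + B ^ 2 / H + 136 * (c * B ^ 2 / m)) := by
    refine (hr A P ν X1 N B H (18 * |ν 2| * B ^ 2) u (hQC.sub s1) h3 hu (her_LD A u C X1 s1 hl)
      (by positivity) (fun x hx y hy => hcl x (s1 hx) y (s1 hy)) ?_).trans ?_
    · intro x hx
      obtain ⟨hxC, y, hy, hxy, h0⟩ := Finset.mem_filter.1 hx
      exact ⟨y, Finset.mem_filter.2 ⟨hy, x, hxC, hxy.symm, by rw [bf_comm hQ.symm, h0]⟩, hxy, h0⟩
    · refine mul_le_mul_of_nonneg_left (add_le_add le_rfl ?_) pr.le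
      exact thmq_rich hm0 (by exact_mod_cast hu) hc1 habs (by exact_mod_cast hdu)
  have hNo : NoL A X2 := by
    refine ⟨(hQC.sub s2).iso, (hQC.sub s2).pw, fun x hx y hy hxy h0 => ?_⟩
    exact (Finset.mem_filter.1 hx).2 ⟨y, s2 hy, hxy, h0⟩
  have hS0 : (0 : ℝ) < S := by exact_mod_cast Nat.pos_of_ne_zero hS.ne_zero
  have hσ0 : (0 : ℝ) < σ := by exact_mod_cast hσ
  have hk1 : (0 : ℝ) < k := by exact_mod_cast Nat.pos_of_ne_zero hk0
  have b2 : (X2.card : ℝ) ≤ fF N * fq N * fc N *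
      (1024 * (|P.det| * ν 0 ^ 2) + 10240 * (c * B ^ 2 / m)) := by
    have c1 := hF A P ν X2 N B H (hQC.sub s2) h3 (fun x hx y hy => hcl x (s2 hx) y (s2 hy))
    have c2 := Cov.sub (her_clq _) hPσ (s2.trans hCX)
    have c3 := Cov.and (her_clq _) (her_clq _) c1 c2
    have c4 := c3.card_le (n := fc N * (√S + 10 * |ν 3| * B ^ 2 / (σ * √S))) (by positivity) (by
      rintro Z hZ ⟨z1, z2⟩
      exact hc N (10 * |ν 3| * B ^ 2) A S k σ Z hN hQ.symm hSk' hS hk0 hσ (by positivity)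
        (hNo.sub hZ) fun x hx x' hx' => ⟨z2 x hx x' hx', z1 x hx x' hx',
          hQ.bN x (hCX (s2 (hZ hx))) x' (hCX (s2 (hZ hx')))⟩)
    have c5 := thmq_nol (B := B) (F := F) (c := c) hm0 n2 n3 hk1 hS0 hσ0
      (by rw [← habs, hSk']; push_cast; ring) (by exact_mod_cast hFk) (by exact_mod_cast hFσ)
    refine c4.trans ?_
    have e1 : fF N * √(|ν 2| / |ν 3|) * (fq N * F) * (fc N * (√S + 10 * |ν 3| * B ^ 2 / (σ * √S))) =
        fF N * fq N * fc N * (√(|ν 2| / |ν 3|) * F * (√S + 10 * |ν 3| * B ^ 2 / (σ * √S))) := by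
      ring
    rw [e1]
    refine mul_le_mul_of_nonneg_left (c5.trans ?_) (by positivity)
    linarith
  have hsum : (C.card : ℝ) = X1.card + X2.card := by exact_mod_cast hsplit.symm
  rw [hsum, add_mul]
  refine add_le_add (b1.trans ?_) (b2.trans ?_)
  · rw [mul_comm 136 (fr N), mul_assoc (fr N)]
    refine mul_le_mul_of_nonneg_left ?_ pr.le
    linarith
  · rw [mul_comm 10240 (fF N * fq N * fc N), mul_assoc (fF N * fq N * fc N)]
    refine mul_le_mul_of_nonneg_left ?_ (by positivity)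
    linarith

theorem thmQ : ∃ f, SP f ∧ ∀ (A : Matrix (Fin 4) (Fin 4) ℤ) (P : Matrix (Fin 4) (Fin 4) ℝ)
    (ν : Fin 4 → ℝ) (X : Finset (Fin 4 → ℤ)) (N B H : ℝ) (D₀ : ℤ) (c : ℕ), QD A P ν X N B H →
    |((A.det : ℤ) : ℝ)| ≤ N → D₀ ≠ 0 → |(D₀ : ℝ)| ≤ N → GcdDvd 3 A D₀ → c ≠ 0 →
    GcdDvd 2 A (c : ℤ) →
    (X.card : ℝ) ≤ f N * (1 + B ^ 2 / H + |P.det| * ν 0 ^ 2 + B * √|ν 0| +
      c * B ^ 2 / (|P.det| * √|ν 0 * ν 1|)) := by
  obtain ⟨f4, hf4, h4⟩ := main4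
  obtain ⟨fC, hfC, hC⟩ := realCoarse
  obtain ⟨fk, hfk, hk⟩ := cone
  refine ⟨fun N => f4 N + fC N * fk N, hf4.add (hfC.mul hfk), ?_⟩
  intro A P ν X N B H D₀ c hQ hDN hD0 hD0N hg3 hc0 hg
  have hN := hQ.oneN
  have p4 := hf4.pos hN
  have pC := hfC.pos hN
  have pk := hfk.pos hN
  have hH := hQ.Hpos
  have hB := hQ.Bpos
  have t1 : 0 ≤ B ^ 2 / H := by positivity
  have t2 : 0 ≤ |P.det| * ν 0 ^ 2 := by positivity
  have t3 : 0 ≤ c * B ^ 2 / (|P.det| * √|ν 0 * ν 1|) := by positivity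
  have t4 : 0 ≤ B * √|ν 0| := by positivity
  beta_reduce
  rw [add_mul]
  by_cases hD : A.det = 0
  · have c1 := Cov.card_le (hC A P ν X N B H hQ)
      (n := fk N * (1 + B ^ 2 / H + B * √|ν 0| + c * B ^ 2 / (|P.det| * √|ν 0 * ν 1|)))
      (by positivity)
      (fun C hCX hcl => hk A P ν C N B H D₀ c (hQ.sub hCX) hD hD0 hD0N hg3 hc0 hg hcl)
    refine c1.trans (le_add_of_nonneg_of_le (by positivity) ?_)
    rw [mul_assoc]
    exact mul_le_mul_of_nonneg_left (mul_le_mul_of_nonneg_left (by linarith) pk.le) pC.le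
  · refine (h4 A P ν X N B H c hQ hD hDN hc0 hg).trans (le_add_of_le_of_nonneg ?_ (by positivity))
    exact mul_le_mul_of_nonneg_left (by linarith) p4.le

end Pool.Agent.Lib.MP_af4c59_nt.H57
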