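import Pool.Agent.Lib.MP_af4c59_nt.H57Geom
import Pool.Agent.Lib.MP_af4c59_nt.H57ThmQ

/-!
The count for one null vector.
-/

set_option autoImplicit false

namespace Pool.Agent.Lib.MP_af4c59_nt.H57

open Matrix

theorem perv_ne {u v : Fin 10 → ℤ} (h : BV u v = 1) : v ≠ 0 := by
  rintro rfl
  simp [BV] at h

theorem perv_pos {t T : ℝ} (h : 1 ≤ t ^ 2 * T) : 0 < T := by
  by_contra h0
  have := mul_nonpos_of_nonneg_of_nonpos (sq_nonneg t) (not_lt.1 h0)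
  linarith

theorem perv_num {g c B T d n0 n1 γ1 γ2 y1 y2 : ℝ} (hg : 1 ≤ g) (hc : 1 ≤ c) (hB : 1 ≤ B)
    (hT : 0 < T) (h5 : T ^ 5 ≤ c * B ^ 2) (hd : 0 < d) (hn0 : |n0| * T ≤ g) (hcov : d ≤ g * T ^ 4)
    (hidx : T ^ 2 * y2 ≤ g * γ2 * d) (hn01 : y1 ≤ g * T ^ 4 * |n0 * n1|) (hγ1 : 1 ≤ γ1)
    (hγ2 : 1 ≤ γ2) (hy1 : γ1 ≤ y1) (hy2 : γ2 ≤ y2) (hy : y1 ≤ 288 * T ^ 2) :
    1 + (g * c * B) ^ 2 / (T ^ 3 / g) + d * n0 ^ 2 + g * c * B * √|n0| +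
      γ1 * (g * c * B) ^ 2 / (d * √|n0 * n1|) ≤
      331793 * (g ^ 4 * c ^ 2) * (B ^ 2 / T ^ 3) *
        ((γ1 * T ^ 2 / y1) ^ 2 + (γ2 * T ^ 2 / y2) ^ 2) := by
  have hg0 : 0 < g := by linarith
  have hc0 : 0 < c := by linarith
  have hB0 : 0 < B := by linarith
  have hy10 : 0 < y1 := by linarith
  have hy20 : 0 < y2 := by linarith
  have hγ20 : 0 < γ2 := by linarith
  have hcB : 1 ≤ c * B ^ 2 := one_le_mul_of_one_le_of_one_le hc (one_le_pow₀ hB)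
  set W := B ^ 2 / T ^ 3 with hW
  have hW0 : 0 < W := by positivity
  set E := g ^ 4 * c ^ 2 with hE
  have hE1 : ∀ i j : ℕ, i ≤ 4 → j ≤ 2 → g ^ i * c ^ j * W ≤ E * W := fun i j hi hj =>
    mul_le_mul_of_nonneg_right (mul_le_mul (pow_le_pow_right₀ hg hi) (pow_le_pow_right₀ hc hj)
      (by positivity) (by positivity)) hW0.le
  have t1 : 1 ≤ E * W := by
    have h3 : T ^ 3 ≤ c * B ^ 2 := by
      rcases le_total T 1 with h | h
      · exact (pow_le_one₀ hT.le h).trans hcB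
      · exact (pow_le_pow_right₀ h (by norm_num)).trans h5
    refine le_trans ?_ (hE1 0 1 (by norm_num) (by norm_num))
    rw [hW, pow_zero, pow_one, one_mul, ← mul_div_assoc, le_div_iff₀ (by positivity), one_mul]
    exact h3
  have t2 : (g * c * B) ^ 2 / (T ^ 3 / g) ≤ E * W := by
    refine le_trans (le_of_eq ?_) (hE1 3 2 (by norm_num) (by norm_num))
    rw [hW]
    field_simp
  have hn : |n0| ≤ g / T := (le_div_iff₀ hT).2 hn0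
  have t3 : d * n0 ^ 2 ≤ E * W := by
    refine le_trans ?_ (hE1 3 1 (by norm_num) (by norm_num))
    have h1 : n0 ^ 2 ≤ (g / T) ^ 2 := by
      rw [← sq_abs]
      exact pow_le_pow_left₀ (abs_nonneg _) hn 2
    calc d * n0 ^ 2 ≤ g * T ^ 4 * (g / T) ^ 2 := mul_le_mul hcov h1 (sq_nonneg _) (by positivity)
      _ = g ^ 3 * T ^ 5 / T ^ 3 := by field_simp
      _ ≤ g ^ 3 * (c * B ^ 2) / T ^ 3 := by gcongr
      _ = g ^ 3 * c ^ 1 * W := by rw [hW]; ring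
  have t4 : g * c * B * √|n0| ≤ E * W := by
    refine le_trans ?_ (hE1 2 2 (by norm_num) (by norm_num))
    have h1 : √|n0| ≤ g * c * B / T ^ 3 := by
      refine Real.sqrt_le_iff.2 ⟨by positivity, hn.trans ?_⟩
      have h2 : T ^ 5 ≤ g * c * (c * B ^ 2) :=
        h5.trans (le_mul_of_one_le_left (by positivity) (one_le_mul_of_one_le_of_one_le hg hc))
      calc g / T = g * T ^ 5 / T ^ 6 := by field_simp
        _ ≤ g * (g * c * (c * B ^ 2)) / T ^ 6 := by gcongr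
        _ = (g * c * B / T ^ 3) ^ 2 := by field_simp
    calc g * c * B * √|n0| ≤ g * c * B * (g * c * B / T ^ 3) := by gcongr
      _ = g ^ 2 * c ^ 2 * W := by rw [hW]; ring
  have t5 : γ1 * (g * c * B) ^ 2 / (d * √|n0 * n1|) ≤
      17 * (E * W) * (γ1 * T ^ 2 / y1 * (γ2 * T ^ 2 / y2)) := by
    have h1 : y1 / (17 * g * T ^ 3) ≤ √|n0 * n1| := by
      refine Real.le_sqrt_of_sq_le ?_
      rw [div_pow, div_le_iff₀ (by positivity)]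
      have h2 : 0 ≤ g * T ^ 6 * |n0 * n1| := by positivity
      calc y1 ^ 2 = y1 * y1 := sq y1
        _ ≤ 288 * T ^ 2 * (g * T ^ 4 * |n0 * n1|) := mul_le_mul hy hn01 hy10.le (by positivity)
        _ = 288 * 1 * (g * T ^ 6 * |n0 * n1|) := by ring
        _ ≤ 289 * g * (g * T ^ 6 * |n0 * n1|) := by gcongr; norm_num
        _ = |n0 * n1| * (17 * g * T ^ 3) ^ 2 := by ring
    have h3 : T ^ 2 * y2 / (g * γ2) ≤ d := by
      rw [div_le_iff₀ (by positivity)]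
      linarith
    calc γ1 * (g * c * B) ^ 2 / (d * √|n0 * n1|)
        ≤ γ1 * (g * c * B) ^ 2 / (T ^ 2 * y2 / (g * γ2) * (y1 / (17 * g * T ^ 3))) := by gcongr
      _ = _ := by rw [hE, hW]; field_simp
  have hw : 1 ≤ 288 * (γ1 * T ^ 2 / y1) := by
    rw [← mul_div_assoc, le_div_iff₀ hy10, one_mul]
    exact hy.trans (by gcongr; exact le_mul_of_one_le_left (by positivity) hγ1)
  set w1 := γ1 * T ^ 2 / y1
  set w2 := γ2 * T ^ 2 / y2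
  have hS1 : 1 ≤ 82944 * (w1 ^ 2 + w2 ^ 2) := by nlinarith [sq_nonneg w2]
  have hS2 : w1 * w2 ≤ w1 ^ 2 + w2 ^ 2 := by nlinarith [sq_nonneg (w1 - w2), sq_nonneg (w1 + w2)]
  have hEW : 0 ≤ E * W := by linarith
  have h6 := mul_le_mul_of_nonneg_left hS1 hEW
  have h7 := mul_le_mul_of_nonneg_left hS2 hEW
  calc _ ≤ 4 * (E * W) + 17 * (E * W) * (w1 * w2) := by linarith
    _ ≤ 331793 * (E * W * (w1 ^ 2 + w2 ^ 2)) := by linarith
    _ = _ := by ring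

theorem perv_N {g c B : ℝ} (hg : 1 ≤ g) (hc : 1 ≤ c) (hB : 1 ≤ B) {a : ℝ} (_ha0 : 0 ≤ a)
    (ha : a ≤ 497664) {i j k : ℕ} (hi : i ≤ 3) (hj : j ≤ 8) (hk : k ≤ 8) :
    a * (g ^ i * c ^ j) * B ^ k ≤ 497664 * (g ^ 3 * c ^ 8) * B ^ 8 := by
  have hg0 : 0 < g := by linarith
  have hc0 : 0 < c := by linarith
  have hB0 : 0 < B := by linarith
  gcongr

theorem perv_minor {g c B t : ℝ} (hg : 1 ≤ g) (hc : 1 ≤ c) (hB : 1 ≤ B) (ht : 1 ≤ t)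
    (htB : t ≤ c * B) {v : Fin 10 → ℤ} (hv0 : v ≠ 0) (h4 : ‖tV t v‖ ^ 4 * t ^ 2 ≤ c * B ^ 2)
    {k : ℕ} (hk : k ≤ 4) (f f' : Fin k → Fin 4) :
    |((((MK v).submatrix f f').det : ℤ) : ℝ)| ≤ 497664 * (g ^ 3 * c ^ 8) * B ^ 8 := by
  have h1 := (ent_MM true (vc ℝ v)).bdM k f f'
  have h2 : MM true (vc ℝ v) = mc ℝ (MK v) := (mc_MK v).symm
  rw [h2, ← mc_submatrix, mc_det] at h1
  have h3 := tV_lo ht hv0
  have h5 := norm_vc_le_tV ht v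
  have ht0 : 0 < t := by linarith
  have h6 : (k.factorial : ℝ) ≤ 24 := by
    exact_mod_cast (Nat.factorial_le hk).trans (by norm_num [Nat.factorial])
  calc _ ≤ (k.factorial : ℝ) * (12 * ‖vc ℝ v‖) ^ k := h1
    _ ≤ 24 * (12 * (t ^ 2 * ‖tV t v‖)) ^ k := by gcongr
    _ ≤ 24 * (12 * (t ^ 2 * ‖tV t v‖)) ^ 4 :=
        mul_le_mul_of_nonneg_left (pow_le_pow_right₀ (by linarith) hk) (by norm_num)
    _ = 497664 * t ^ 6 * (‖tV t v‖ ^ 4 * t ^ 2) := by ring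
    _ ≤ 497664 * (c * B) ^ 6 * (c * B ^ 2) := by gcongr
    _ = 497664 * (g ^ 0 * c ^ 7) * B ^ 8 := by ring
    _ ≤ _ := perv_N hg hc hB (by norm_num) le_rfl (by norm_num) (by norm_num) le_rfl

theorem perv_QD {g c B t : ℝ} (hg : 1 ≤ g) (hc : 1 ≤ c) (hB : 1 ≤ B) (ht : 1 ≤ t)
    (htB : t ≤ c * B) {v : Fin 10 → ℤ} (hv0 : v ≠ 0) {A : Matrix (Fin 4) (Fin 4) ℤ}
    {P : Matrix (Fin 4) (Fin 4) ℝ} {ν : Fin 4 → ℝ} {J : Matrix (Fin 16) (Fin 4) ℤ}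
    (hG : Geom g t v A P ν J) (X : Finset (Fin 4 → ℤ)) (hX : ∀ x ∈ X, Adm c B t v (J *ᵥ x))
    (hP : ∀ x ∈ X, ∀ y ∈ X, x ≠ y → NP (J *ᵥ x) (J *ᵥ y)) :
    QD A P ν X (497664 * (g ^ 3 * c ^ 8) * B ^ 8) (g * c * B) (‖tV t v‖ ^ 3 / g) := by
  have hg0 : 0 < g := by linarith
  have hc0 : 0 < c := by linarith
  have hB0 : 0 < B := by linarith
  have ht0 : 0 < t := by linarith
  have hT1 := tV_lo ht hv0
  have hT : 0 < ‖tV t v‖ := perv_pos hT1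
  refine ⟨hG.symm, hG.diag, hG.detP, hG.sorted, fun x hx => ?_,
    fun x hx y hy hxy => NP_of_mulVec (hP x hx y hy hxy), fun x hx => ?_, fun x hx => ?_,
    fun x hx y hy => ?_, ?_, by positivity, by positivity, ?_, fun x hx y hy hxy hb => ?_⟩
  · have h1 := (hX x hx).pure
    rw [hG.mu_eq] at h1
    exact (smul_eq_zero.1 h1).resolve_right hv0
  · calc _ ≤ g * ‖tS t (J *ᵥ x)‖ := hG.up x
      _ ≤ g * (c * B) := mul_le_mul_of_nonneg_left (hX x hx).bd hg0.le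
      _ = _ := by ring
  · have h0 : J *ᵥ x ≠ 0 := by
      obtain ⟨w, hw⟩ := (hX x hx).prim
      intro h
      rw [h, zero_dotProduct] at hw
      exact zero_ne_one hw
    have h1 := tS_lo ht h0
    have h2 := hG.lo x
    calc g * c * B = g * c * B * 1 := (mul_one _).symm
      _ ≤ g * c * B * (t ^ 3 * ‖tS t (J *ᵥ x)‖) := by gcongr
      _ ≤ g * c * B * ((c * B) ^ 3 * (g * ‖P *ᵥ vc ℝ x‖)) := by gcongr
      _ = 1 * (g ^ 2 * c ^ 4) * B ^ 4 * ‖P *ᵥ vc ℝ x‖ := by ring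
      _ ≤ _ := mul_le_mul_of_nonneg_right (perv_N hg hc hB (by norm_num) (by norm_num)
          (by norm_num) (by norm_num) (by norm_num)) (norm_nonneg _)
  · have h1 : ((bf A x y : ℤ) : ℝ) • tV t v = mu (tS t (J *ᵥ x)) (tS t (J *ᵥ y)) := by
      rw [← tV_smul, ← hG.mu_eq, tS, tS, mu_sc ht0.ne', ← vc_mu, tV]
    have h2 := norm_mu (tS t (J *ᵥ x)) (tS t (J *ᵥ y))
    rw [← h1, norm_smul, Real.norm_eq_abs] at h2
    have h3 := (hX x hx).bd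
    have h4 := (hX y hy).bd
    calc |((bf A x y : ℤ) : ℝ)| = |((bf A x y : ℤ) : ℝ)| * 1 := (mul_one _).symm
      _ ≤ |((bf A x y : ℤ) : ℝ)| * (t ^ 2 * ‖tV t v‖) := by gcongr
      _ = t ^ 2 * (|((bf A x y : ℤ) : ℝ)| * ‖tV t v‖) := by ring
      _ ≤ (c * B) ^ 2 * (8 * ‖tS t (J *ᵥ x)‖ * ‖tS t (J *ᵥ y)‖) := by gcongr
      _ ≤ (c * B) ^ 2 * (8 * (c * B) * (c * B)) := by gcongr
      _ = 8 * (g ^ 0 * c ^ 4) * B ^ 4 := by ring
      _ ≤ _ := perv_N hg hc hB (by norm_num) (by norm_num) (by norm_num) (by norm_num)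
          (by norm_num)
  · have h1 := perv_N hg hc hB zero_le_one (by norm_num) (Nat.zero_le 3) (Nat.zero_le 8)
      (Nat.zero_le 8)
    simpa using h1
  · rw [← mul_div_assoc, le_div_iff₀ hg0]
    calc (g * c * B) ^ 2 * g = (g * c * B) ^ 2 * g * 1 ^ 3 := by ring
      _ ≤ (g * c * B) ^ 2 * g * (t ^ 2 * ‖tV t v‖) ^ 3 := by gcongr
      _ ≤ (g * c * B) ^ 2 * g * ((c * B) ^ 2 * ‖tV t v‖) ^ 3 := by gcongr
      _ = 1 * (g ^ 3 * c ^ 8) * B ^ 8 * ‖tV t v‖ ^ 3 := by ring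
      _ ≤ _ := mul_le_mul_of_nonneg_right (perv_N hg hc hB (by norm_num) (by norm_num)
          le_rfl le_rfl le_rfl) (by positivity)
  · have h1 := (hX x hx).line (J *ᵥ y) (by rw [hG.mu_eq, hb, zero_smul]) (hP x hx y hy hxy)
    have h2 := hG.area x y
    have h3 := hG.up x
    have h4 := ar_nonneg (P *ᵥ vc ℝ x) (P *ᵥ vc ℝ y)
    calc ‖tV t v‖ ^ 3 / g * ‖P *ᵥ vc ℝ x‖ ^ 2
        ≤ ‖tV t v‖ ^ 3 / g * (g * ‖tS t (J *ᵥ x)‖) ^ 2 := by gcongr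
      _ = g * (‖tV t v‖ ^ 3 * ‖tS t (J *ᵥ x)‖ ^ 2) := by field_simp
      _ ≤ g * (c * B ^ 2 * (g * ar (P *ᵥ vc ℝ x) (P *ᵥ vc ℝ y))) :=
          mul_le_mul_of_nonneg_left
            (h1.trans (mul_le_mul_of_nonneg_left h2 (by positivity))) hg0.le
      _ = 1 * (g ^ 2 * c * B ^ 2 * ar (P *ᵥ vc ℝ x) (P *ᵥ vc ℝ y)) := by ring
      _ ≤ c * (g ^ 2 * c * B ^ 2 * ar (P *ᵥ vc ℝ x) (P *ᵥ vc ℝ y)) := by gcongr
      _ = _ := by ring

theorem perV (c : ℝ) (hc : 1 ≤ c) : ∃ f, SP f ∧ ∀ (B t : ℝ) (v : Fin 10 → ℤ)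
    (S : Finset (Fin 16 → ℤ)), 1 ≤ B → 1 ≤ t → t ≤ c * B → GoodV c B t v →
    (∀ s ∈ S, Adm c B t v s) →
    (S.card : ℝ) ≤ f B * (B ^ 2 / ‖tV t v‖ ^ 3) *
      (wt true t ‖tV t v‖ v ^ 2 + wt false t ‖tV t v‖ v ^ 2) := by
  classical
  obtain ⟨g, hg, hgeom⟩ := geom
  obtain ⟨fQ, hfQ, hQ⟩ := thmQ
  have hK : 1 ≤ 497664 * (g ^ 3 * c ^ 8) := by
    have := one_le_mul_of_one_le_of_one_le (one_le_pow₀ hg (n := 3)) (one_le_pow₀ hc (n := 8))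
    linarith
  have hK2 : 1 ≤ 2 * (331793 * (g ^ 4 * c ^ 2)) := by
    have := one_le_mul_of_one_le_of_one_le (one_le_pow₀ hg (n := 4)) (one_le_pow₀ hc (n := 2))
    linarith
  refine ⟨fun x => 2 * (331793 * (g ^ 4 * c ^ 2)) * fQ (497664 * (g ^ 3 * c ^ 8) * x ^ 8),
    (hfQ.comp hK 8).cmul hK2, ?_⟩
  intro B t v S hB ht htB hv hS
  obtain ⟨u, hu⟩ := hv.prim
  have hv0 : v ≠ 0 := perv_ne hu
  obtain ⟨A, P, ν, J, hG⟩ := hgeom t u v ht hu hv.q hv.rm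
  have hT1 := tV_lo ht hv0
  have hT : 0 < ‖tV t v‖ := perv_pos hT1
  have hN : 1 ≤ 497664 * (g ^ 3 * c ^ 8) * B ^ 8 :=
    one_le_mul_of_one_le_of_one_le hK (one_le_pow₀ hB)
  have hf := hfQ.pos hN
  obtain ⟨f3, g3, hD⟩ := hv.rK
  have hw1 := wt_minor true ht hv.rK
  have hw2 := wt_minor false ht hv.rm
  have hnum := perv_num (g := g) (c := c) (B := B) (T := ‖tV t v‖) (d := |P.det|) (n0 := ν 0)
    (n1 := ν 1) (γ1 := gM (MK v)) (γ2 := gM (m2 v)) (y1 := yM (MK (tV t v)))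
    (y2 := yM (m2 (tV t v))) hg hc hB hT hv.T5 (abs_pos.2 hG.detP) hG.nu0 hG.cov hG.idx hG.nu01
    (by exact_mod_cast hw1.1) (by exact_mod_cast hw2.1) hw1.2 hw2.2 (yM_MM_le true _)
  have hspan : ∀ s ∈ S, ∃ ξ, s = J *ᵥ ξ := fun s hs => hG.span s (hS s hs).ann (hS s hs).lin
  choose! ξ hξ using hspan
  have key := (halve S fun s hs => (hS s hs).prim).card_le
    (n := fQ (497664 * (g ^ 3 * c ^ 8) * B ^ 8) * (331793 * (g ^ 4 * c ^ 2) *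
      (B ^ 2 / ‖tV t v‖ ^ 3) * (wt true t ‖tV t v‖ v ^ 2 + wt false t ‖tV t v‖ v ^ 2)))
    (by positivity) ?_
  · calc (S.card : ℝ) ≤ _ := key
      _ = _ := by ring
  intro C hC hPW
  have hinj : Set.InjOn ξ C := fun s hs s' hs' h => by
    rw [hξ s (hC hs), hξ s' (hC hs'), h]
  rw [← Finset.card_image_of_injOn hinj]
  have hQD := perv_QD hg hc hB ht htB hv0 hG (C.image ξ)
    (fun x hx => by
      obtain ⟨s, hs, rfl⟩ := Finset.mem_image.1 hx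
      rw [← hξ s (hC hs)]
      exact hS s (hC hs))
    (fun x hx y hy hxy => by
      obtain ⟨s, hs, rfl⟩ := Finset.mem_image.1 hx
      obtain ⟨s', hs', rfl⟩ := Finset.mem_image.1 hy
      rw [← hξ s (hC hs), ← hξ s' (hC hs')]
      exact hPW s hs s' hs' fun h => hxy (by rw [h]))
  have hdet : |((A.det : ℤ) : ℝ)| ≤ 497664 * (g ^ 3 * c ^ 8) * B ^ 8 := by
    have h1 : |((A.det : ℤ) : ℝ)| ≤ |(((MK v).det : ℤ) : ℝ)| := by exact_mod_cast hG.det_le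
    exact h1.trans (perv_minor hg hc hB ht htB hv0 hv.T4 le_rfl id id)
  refine (hQ A P ν _ _ _ _ _ (gM (MK v)) hQD hdet hD
    (perv_minor hg hc hB ht htB hv0 hv.T4 (by norm_num) f3 g3)
    (fun d hd => hG.dvd 3 (by norm_num) d hd f3 g3) (Nat.one_le_iff_ne_zero.1 hw1.1)
    (fun d hd => gcdDvd_gM _ d (hG.dvd 2 (by norm_num) d hd))).trans ?_
  exact mul_le_mul_of_nonneg_left hnum hf.le

end Pool.Agent.Lib.MP_af4c59_nt.H57
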