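import Pool.Agent.Lib.MP_af4c59_nt.H57PlaneLB
import Pool.Agent.Lib.MP_af4c59_nt.H57Conic0

/-!
Points of a quadric surface on one plane.
-/

set_option autoImplicit false

namespace Pool.Agent.Lib.MP_af4c59_nt.H57

open Matrix

lemma plane_pos {R n y B S j : ℝ} (hR : 0 < R) (hn : R ≤ n) (hS : 0 < S)
    (hj : 0 < j) (h : n ^ 2 * (S * j ^ 2) ≤ 400 * y ^ 2 * B) : 0 < B := by
  have hn0 : 0 < n := lt_of_lt_of_le hR hn
  have h1 : 0 < n ^ 2 * (S * j ^ 2) := by positivity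
  by_contra hB
  have hB' : B ≤ 0 := not_lt.mp hB
  have h2 : 0 ≤ 400 * y ^ 2 := by positivity
  have h3 : 400 * y ^ 2 * B ≤ 0 := mul_nonpos_of_nonneg_of_nonpos h2 hB'
  linarith

lemma plane_ineq {R n y B S j : ℝ} (hR : 0 < R) (hn : R ≤ n) (hy : 0 < y) (hS : 0 < S)
    (hj : 0 < j) (h : n ^ 2 * (S * j ^ 2) ≤ 400 * y ^ 2 * B) :
    j * 3 / √B ≤ 60 * (y / (R * √S)) := by
  have hB : 0 < B := plane_pos hR hn hS hj h
  have hsB : 0 < √B := Real.sqrt_pos.mpr hB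
  have hsS : 0 < √S := Real.sqrt_pos.mpr hS
  have hB2 : √B ^ 2 = B := Real.sq_sqrt hB.le
  have hS2 : √S ^ 2 = S := Real.sq_sqrt hS.le
  have hRn : R ^ 2 ≤ n ^ 2 := pow_le_pow_left₀ hR.le hn 2
  have h1 : (R * √S * j) ^ 2 ≤ (20 * y * √B) ^ 2 := by
    have e1 : (R * √S * j) ^ 2 = R ^ 2 * (S * j ^ 2) := by rw [mul_pow, mul_pow, hS2]; ring
    have e2 : (20 * y * √B) ^ 2 = 400 * y ^ 2 * B := by rw [mul_pow, mul_pow, hB2]; ring
    rw [e1, e2]
    have h4 : 0 ≤ S * j ^ 2 := by positivity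
    exact le_trans (mul_le_mul_of_nonneg_right hRn h4) h
  have h2 : R * √S * j ≤ 20 * y * √B :=
    (pow_le_pow_iff_left₀ (by positivity) (by positivity) two_ne_zero).mp h1
  have e3 : 60 * (y / (R * √S)) = 60 * y / (R * √S) := by ring
  rw [e3, div_le_div_iff₀ hsB (by positivity)]
  nlinarith

lemma plane_two {A : Matrix (Fin 3) (Fin 3) ℤ} (hA : A.IsSymm) (hD : A.det = 0)
    {ι : Type} (X : Finset ι) (ξ : ι → Fin 3 → ℤ) (hiso : ∀ x ∈ X, bf A (ξ x) (ξ x) = 0)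
    (hne : ∀ x ∈ X, ∀ x' ∈ X, x ≠ x' → bf A (ξ x) (ξ x') ≠ 0) : X.card ≤ 2 := by
  classical
  by_contra h
  have h' : 2 < X.card := not_le.mp h
  obtain ⟨a, ha, b, hb, c, hc, hab, hac, hbc⟩ := Finset.two_lt_card.mp h'
  have hg := gram_iso hA (hiso a ha) (hiso b hb) (hiso c hc)
  rw [hD, zero_mul] at hg
  have h1 := hne a ha b hb hab
  have h2 := hne b hb c hc hbc
  have h3 := hne a ha c hc hac
  have : (2 : ℤ) * bf A (ξ a) (ξ b) * bf A (ξ b) (ξ c) * bf A (ξ a) (ξ c) ≠ 0 :=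
    mul_ne_zero (mul_ne_zero (mul_ne_zero two_ne_zero h1) h2) h3
  exact this hg.symm

theorem planeCount : ∃ f, SP f ∧ ∀ (N y R : ℝ) (G M : Matrix (Fin 4) (Fin 4) ℤ) (S j : ℕ)
    (c : Fin 4 → ℤ) (X : Finset (Fin 4 → ℤ)), G.IsSymm → G.det.natAbs = S * j ^ 2 →
    Squarefree S → j ≠ 0 → M.det ≠ 0 → Ent (mc ℝ (Mᵀ * G * M)) y → 1 ≤ y → y ≤ N → Prim c →
    0 < R → R ≤ ‖vc ℝ (c ᵥ* M)‖ → ‖vc ℝ (c ᵥ* M)‖ ≤ N → NoL G X →
    (∀ x ∈ X, ∀ x' ∈ X, |((bf G x x' : ℤ) : ℝ)| ≤ y) → (∀ x ∈ X, c ⬝ᵥ x = 0 ∧ InBox M x) →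
    (X.card : ℝ) ≤ f N * (1 + y / (R * √S)) := by
  classical
  obtain ⟨f0, hf0, hcon⟩ := conic
  refine ⟨fun x => 60 * f0 (400 * x ^ 5), (hf0.comp (by norm_num) 5).cmul (by norm_num), ?_⟩
  intro N y R G M S j c X hG hdet hS hj hM hy hy1 hyN hc hR hRc hcN hX hb hin
  have hN1 : 1 ≤ N := le_trans hy1 hyN
  have hy0 : 0 < y := lt_of_lt_of_le one_pos hy1
  have hN5 : 1 ≤ N ^ 5 := one_le_pow₀ hN1
  have hN' : 1 ≤ 400 * N ^ 5 := by linarith
  have hf1 : 1 ≤ f0 (400 * N ^ 5) := hf0.one_le _ hN'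
  have hS0 : (0 : ℝ) < S := by
    have : S ≠ 0 := hS.ne_zero
    positivity
  have hj0 : (0 : ℝ) < j := by positivity
  have hq : 0 ≤ y / (R * √S) := by positivity
  obtain ⟨U, U', hU, hcU⟩ := compl4 hc
  have hmem : ∀ x : Fin 4 → ℤ, ∃ ξ : Fin 3 → ℤ, x ∈ X → x = col3 U *ᵥ ξ := by
    intro x
    by_cases hx : x ∈ X
    · obtain ⟨ξ, hξ⟩ := mem_plane hU hcU (hin x hx).1
      exact ⟨ξ, fun _ => hξ⟩
    · exact ⟨0, fun h => absurd h hx⟩
  choose ξ hξ using hmem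
  set A : Matrix (Fin 3) (Fin 3) ℤ := (col3 U)ᵀ * G * col3 U with hA
  have hAs : A.IsSymm := by
    have hG' : Gᵀ = G := hG
    show Aᵀ = A
    rw [hA, Matrix.transpose_mul, Matrix.transpose_mul, Matrix.transpose_transpose, hG',
      Matrix.mul_assoc]
  have hbf : ∀ x ∈ X, ∀ x' ∈ X, bf A (ξ x) (ξ x') = bf G x x' := by
    intro x hx x' hx'
    rw [hA, bf_conj, ← hξ x hx, ← hξ x' hx']
  by_cases hD : A.det = 0
  · have h2 : X.card ≤ 2 := by
      refine plane_two hAs hD X ξ (fun x hx => ?_) (fun x hx x' hx' hne => ?_)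
      · rw [hbf x hx x hx]; exact hX.iso x hx
      · rw [hbf x hx x' hx']; exact hX.ne x hx x' hx' hne
    have h2' : (X.card : ℝ) ≤ 2 := by exact_mod_cast h2
    show (X.card : ℝ) ≤ 60 * f0 (400 * N ^ 5) * (1 + y / (R * √S))
    nlinarith
  · obtain ⟨hdA, w, hw, hlow⟩ := planeLB hG hU hcU hM hy
    rw [← hA] at hdA hlow
    have hinj : Set.InjOn ξ X := by
      intro x hx x' hx' h
      rw [hξ x hx, hξ x' hx', h]
    have hcard : (X.image ξ).card = X.card := Finset.card_image_of_injOn hinj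
    have hdG : |((G.det : ℤ) : ℝ)| = (S : ℝ) * (j : ℝ) ^ 2 := by
      rw [← Int.cast_abs, ← Int.natCast_natAbs, hdet]
      push_cast
      ring
    rw [hdG] at hlow
    have hBpos := plane_pos hR hRc hS0 hj0 hlow
    have hn0 : 0 ≤ ‖vc ℝ (c ᵥ* M)‖ := norm_nonneg _
    have hdN : |((A.det : ℤ) : ℝ)| ≤ 400 * N ^ 5 := by
      refine le_trans hdA ?_
      have e1 : y ^ 3 ≤ N ^ 3 := pow_le_pow_left₀ hy0.le hyN 3
      have e2 : ‖vc ℝ (c ᵥ* M)‖ ^ 2 ≤ N ^ 2 := pow_le_pow_left₀ hn0 hcN 2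
      have e3 : y ^ 3 * ‖vc ℝ (c ᵥ* M)‖ ^ 2 ≤ N ^ 3 * N ^ 2 :=
        mul_le_mul e1 e2 (by positivity) (by positivity)
      nlinarith
    have hgcd : GcdDvd 2 A ((S * j ^ 2 : ℕ) : ℤ) := by
      intro d hd
      have h1 : d ∣ G.det := gcd_plane hG hU d hd
      rw [← hdet]
      exact Int.dvd_natAbs.mpr h1
    have hyN' : y ≤ 400 * N ^ 5 := by
      have : N ≤ N ^ 5 := le_self_pow₀ hN1 (by norm_num)
      linarith
    have hmain := hcon (400 * N ^ 5) A S j (X.image ξ) w 3 hN' hAs hD hdN hS hj hgcd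
      (by
        intro v hv
        obtain ⟨x, hx, rfl⟩ := Finset.mem_image.mp hv
        rw [hbf x hx x hx]; exact hX.iso x hx)
      (by
        intro v hv v' hv' hne
        obtain ⟨x, hx, rfl⟩ := Finset.mem_image.mp hv
        obtain ⟨x', hx', rfl⟩ := Finset.mem_image.mp hv'
        have hxx : x ≠ x' := fun h => hne (by rw [h])
        have h1 := hX.pw x hx x' hx' hxx
        rw [hξ x hx, hξ x' hx'] at h1
        exact NP_of_mulVec h1)
      (by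
        intro v hv v' hv'
        obtain ⟨x, hx, rfl⟩ := Finset.mem_image.mp hv
        obtain ⟨x', hx', rfl⟩ := Finset.mem_image.mp hv'
        rw [hbf x hx x' hx']
        exact le_trans (hb x hx x' hx') hyN')
      (by norm_num)
      (by
        intro v hv
        obtain ⟨x, hx, rfl⟩ := Finset.mem_image.mp hv
        apply hw
        rw [← hξ x hx]
        exact (hin x hx).2)
      (abs_pos.mp hBpos)
    rw [hcard] at hmain
    have hi := plane_ineq hR hRc hy0 hS0 hj0 hlow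
    show (X.card : ℝ) ≤ 60 * f0 (400 * N ^ 5) * (1 + y / (R * √S))
    refine le_trans hmain ?_
    have h5 : 1 + (j : ℝ) * 3 / √|bf (mc ℝ A).adjugate w w| ≤ 60 * (1 + y / (R * √S)) := by
      linarith
    calc f0 (400 * N ^ 5) * (1 + (j : ℝ) * 3 / √|bf (mc ℝ A).adjugate w w|)
        ≤ f0 (400 * N ^ 5) * (60 * (1 + y / (R * √S))) :=
          mul_le_mul_of_nonneg_left h5 (by linarith)
      _ = 60 * f0 (400 * N ^ 5) * (1 + y / (R * √S)) := by ring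

end Pool.Agent.Lib.MP_af4c59_nt.H57
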