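import Pool.Agent.Lib.MP_af4c59_nt.H57Lin

/-!
The ternary form on a plane.
-/

set_option autoImplicit false

namespace Pool.Agent.Lib.MP_af4c59_nt.H57

open Matrix

/-- The first three columns. -/
def col3 {R : Type} (U : Matrix (Fin 4) (Fin 4) R) : Matrix (Fin 4) (Fin 3) R :=
  U.submatrix id Fin.castSucc

/-- The upper left block. -/
def planelb_blk {R : Type} (S : Matrix (Fin 4) (Fin 4) R) : Matrix (Fin 3) (Fin 3) R :=
  S.submatrix Fin.castSucc Fin.castSucc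

theorem planelb_det4 {R : Type} [CommRing R] (S : Matrix (Fin 4) (Fin 4) R) :
    S.det = S 3 3 * (planelb_blk S).det -
      ∑ i : Fin 3, ∑ j : Fin 3, S 3 i.castSucc * (planelb_blk S).adjugate i j * S j.castSucc 3 := by
  have h0 : (Fin.castSucc (0 : Fin 3) : Fin 4) = 0 := rfl
  have h1 : (Fin.castSucc (1 : Fin 3) : Fin 4) = 1 := rfl
  have h2 : (Fin.castSucc (2 : Fin 3) : Fin 4) = 2 := rfl
  rw [adjugate_fin_three, det_fin_three, det_succ_row_zero]
  simp only [Fin.sum_univ_four, Fin.sum_univ_three, det_fin_three, planelb_blk, submatrix_apply,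
    h0, h1, h2, of_apply, cons_val', cons_val_zero, cons_val_one, cons_val_two, cons_val_fin_one,
    head_cons, tail_cons, empty_val', head_fin_const]
  simp [Fin.succAbove]
  ring

theorem planelb_blk_conj {R : Type} [CommRing R] (G U : Matrix (Fin 4) (Fin 4) R) :
    planelb_blk (Uᵀ * G * U) = (col3 U)ᵀ * G * col3 U := by
  ext i j
  simp [planelb_blk, col3, Matrix.mul_apply]

theorem planelb_det3 {R : Type} [CommRing R] (A : Matrix (Fin 3) (Fin 3) R) :
    A.det = ∑ j, A 0 j * A.adjugate j 0 := by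
  have h := congrFun (congrFun (mul_adjugate A) 0) 0
  rw [Matrix.mul_apply] at h
  rw [h]; simp

theorem planelb_detU {U U' : Matrix (Fin 4) (Fin 4) ℤ} (hU : U * U' = 1) :
    U.det ^ 2 = 1 ∧ U'.det ^ 2 = 1 := by
  have h : U.det * U'.det = 1 := by rw [← det_mul, hU, det_one]
  rcases Int.eq_one_or_neg_one_of_mul_eq_one' h with ⟨h1, h2⟩ | ⟨h1, h2⟩ <;>
    rw [h1, h2] <;> norm_num

theorem gcd_plane {G U U' : Matrix (Fin 4) (Fin 4) ℤ} (hG : G.IsSymm) (hU : U * U' = 1) :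
    GcdDvd 2 ((col3 U)ᵀ * G * col3 U) G.det := by
  have _ := hG
  intro d hd
  rw [← planelb_blk_conj] at hd
  have hadj : ∀ i j, d ∣ (planelb_blk (Uᵀ * G * U)).adjugate i j := by
    intro i j
    rw [adjugate_fin_succ_eq_det_submatrix]
    exact (hd _ _).mul_left _
  have hdet : d ∣ (planelb_blk (Uᵀ * G * U)).det := by
    rw [planelb_det3]
    exact Finset.dvd_sum fun j _ => (hadj j 0).mul_left _
  have h1 : (Uᵀ * G * U).det = G.det := by
    rw [det_mul, det_mul, det_transpose]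
    linear_combination G.det * (planelb_detU hU).1
  rw [← h1, planelb_det4]
  refine dvd_sub (hdet.mul_left _) (Finset.dvd_sum fun i _ => Finset.dvd_sum fun j _ => ?_)
  exact ((hadj i j).mul_left _).mul_right _

theorem planelb_row {R : Type} [CommRing R] {U U' : Matrix (Fin 4) (Fin 4) R} (hU : U * U' = 1)
    {c : Fin 4 → R} (hc : c ᵥ* U = Pi.single 3 1) : c = U' 3 := by
  have h : c ᵥ* (U * U') = (Pi.single 3 1 : Fin 4 → R) ᵥ* U' := by rw [← vecMul_vecMul, hc]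
  rw [hU, vecMul_one, single_one_vecMul] at h
  exact h

theorem mem_plane {U U' : Matrix (Fin 4) (Fin 4) ℤ} (hU : U * U' = 1) {c x : Fin 4 → ℤ}
    (hc : c ᵥ* U = Pi.single 3 1) (hx : c ⬝ᵥ x = 0) : ∃ ξ : Fin 3 → ℤ, x = col3 U *ᵥ ξ := by
  refine ⟨fun i => (U' *ᵥ x) i.castSucc, ?_⟩
  have h1 : (U' *ᵥ x) 3 = 0 := by rw [planelb_row hU hc] at hx; exact hx
  have h2 : x = U *ᵥ (U' *ᵥ x) := by rw [mulVec_mulVec, hU, one_mulVec]
  generalize U' *ᵥ x = t at h1 h2
  rw [h2]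
  ext i
  simp only [mulVec, dotProduct, col3, submatrix_apply, id]
  rw [Fin.sum_univ_castSucc]
  have h3 : t (Fin.last 3) = 0 := h1
  rw [h3, mul_zero, add_zero]

/-- A vertex of the cube where a symmetric form is comparable with its largest entry. -/
theorem planelb_vertex {B : Matrix (Fin 3) (Fin 3) ℝ} (hB : B.IsSymm) :
    ∃ ω : Fin 3 → ℝ, (∀ i, |ω i| ≤ 1) ∧ Ent B (2 * |bf B ω ω|) := by
  obtain ⟨s, hs⟩ := Finite.exists_max fun s : Fin 3 → Fin 2 =>
    |bf B (fun i => ((s i : ℕ) : ℝ)) (fun i => ((s i : ℕ) : ℝ))|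
  refine ⟨fun i => ((s i : ℕ) : ℝ), fun i => ?_, ?_⟩
  · have h := (s i).2
    have h1 : ((s i : ℕ) : ℝ) ≤ 1 := by exact_mod_cast Nat.lt_succ_iff.1 h
    exact (abs_of_nonneg (Nat.cast_nonneg _)).le.trans h1
  · generalize |bf B (fun i => ((s i : ℕ) : ℝ)) (fun i => ((s i : ℕ) : ℝ))| = ν at hs
    have h10 : B 1 0 = B 0 1 := hB.apply 0 1
    have h20 : B 2 0 = B 0 2 := hB.apply 0 2
    have h21 : B 2 1 = B 1 2 := hB.apply 1 2
    have a0 := hs ![1, 0, 0]
    have a1 := hs ![0, 1, 0]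
    have a2 := hs ![0, 0, 1]
    have a3 := hs ![1, 1, 0]
    have a4 := hs ![1, 0, 1]
    have a5 := hs ![0, 1, 1]
    simp [bf, mulVec, dotProduct, Fin.sum_univ_three, h10, h20, h21] at a0 a1 a2 a3 a4 a5
    rw [abs_le] at a0 a1 a2 a3 a4 a5
    intro i j
    rw [abs_le]
    fin_cases i <;> fin_cases j <;> simp only [Fin.zero_eta, Fin.mk_one, Fin.reduceFinMk] <;>
      constructor <;> linarith [a0.1, a0.2, a1.1, a1.2, a2.1, a2.2, a3.1, a3.2, a4.1, a4.2,
        a5.1, a5.2]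

theorem planelb_blk_mul {X H : Matrix (Fin 4) (Fin 4) ℝ} (hX : ∀ j : Fin 3, X 3 j.castSucc = 0) :
    planelb_blk (Xᵀ * H * X) = (planelb_blk X)ᵀ * planelb_blk H * planelb_blk X := by
  ext i j
  have h3 : ∀ j : Fin 3, X (Fin.last 3) j.castSucc = 0 := hX
  simp only [planelb_blk, submatrix_apply, Matrix.mul_apply, transpose_apply]
  rw [Fin.sum_univ_castSucc, h3, mul_zero, add_zero]
  refine Finset.sum_congr rfl fun k _ => ?_
  rw [Fin.sum_univ_castSucc, h3, zero_mul, add_zero]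

theorem planelb_det_blk {X : Matrix (Fin 4) (Fin 4) ℝ} (hX : ∀ j : Fin 3, X 3 j.castSucc = 0) :
    X.det = X 3 3 * (planelb_blk X).det := by
  rw [planelb_det4]
  simp [hX]

/-- The shear which clears the last row. -/
def planelb_V (r : Fin 3 → ℝ) : Matrix (Fin 4) (Fin 4) ℝ :=
  !![1, 0, 0, 0; 0, 1, 0, 0; 0, 0, 1, 0; -r 0, -r 1, -r 2, 1]

theorem planelb_V_det (r : Fin 3 → ℝ) : (planelb_V r).det = 1 := by
  rw [planelb_det4]
  simp [planelb_V, planelb_blk, det_fin_three, Fin.sum_univ_three]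

theorem planelb_mul_V (X : Matrix (Fin 4) (Fin 4) ℝ) (r : Fin 3 → ℝ) (i : Fin 4) :
    (∀ j : Fin 3, (X * planelb_V r) i j.castSucc = X i j.castSucc - X i 3 * r j) ∧
      (X * planelb_V r) i 3 = X i 3 := by
  refine ⟨fun j => ?_, ?_⟩
  · fin_cases j <;> simp [planelb_V, Matrix.mul_apply, Fin.sum_univ_four] <;> ring
  · simp [planelb_V, Matrix.mul_apply, Fin.sum_univ_four]

theorem planelb_V_mul (X : Matrix (Fin 4) (Fin 4) ℝ) (r : Fin 3 → ℝ) (j : Fin 4) :
    (∀ i : Fin 3, ((planelb_V r)ᵀ * X) i.castSucc j = X i.castSucc j - X 3 j * r i) ∧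
      ((planelb_V r)ᵀ * X) 3 j = X 3 j := by
  have h := planelb_mul_V Xᵀ r j
  have e : (planelb_V r)ᵀ * X = (Xᵀ * planelb_V r)ᵀ := by rw [transpose_mul, transpose_transpose]
  rw [e]
  exact h

theorem planelb_sub_le {a b r y : ℝ} (ha : |a| ≤ y) (hb : |b| ≤ y) (hr : |r| ≤ 1) :
    |a - b * r| ≤ 2 * y := by
  have h1 : |b * r| ≤ y := by
    rw [abs_mul]; exact (mul_le_of_le_one_right (abs_nonneg _) hr).trans hb
  have h2 := abs_sub a (b * r)
  linarith

theorem planelb_ent {Γ : Matrix (Fin 4) (Fin 4) ℝ} {y : ℝ} (hy : Ent Γ y) {r : Fin 3 → ℝ}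
    (hr : ∀ i, |r i| ≤ 1) :
    Ent (planelb_blk ((planelb_V r)ᵀ * Γ * planelb_V r)) (4 * y) ∧
      (∀ i : Fin 3, |((planelb_V r)ᵀ * Γ * planelb_V r) i.castSucc 3| ≤ 2 * y) ∧
      (∀ i : Fin 3, |((planelb_V r)ᵀ * Γ * planelb_V r) 3 i.castSucc| ≤ 2 * y) ∧
      |((planelb_V r)ᵀ * Γ * planelb_V r) 3 3| ≤ y := by
  have h1 : ∀ (i : Fin 3) (j : Fin 4), |((planelb_V r)ᵀ * Γ) i.castSucc j| ≤ 2 * y := by
    intro i j
    rw [(planelb_V_mul Γ r j).1 i]
    exact planelb_sub_le (hy _ _) (hy _ _) (hr i)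
  refine ⟨fun i j => ?_, fun i => ?_, fun i => ?_, ?_⟩
  · simp only [planelb_blk, submatrix_apply]
    rw [(planelb_mul_V _ r _).1 j]
    have := planelb_sub_le (h1 i j.castSucc) (h1 i 3) (hr j)
    linarith
  · rw [(planelb_mul_V _ r _).2]; exact h1 i 3
  · rw [(planelb_mul_V _ r _).1 i, (planelb_V_mul Γ r _).2, (planelb_V_mul Γ r _).2]
    exact planelb_sub_le (hy _ _) (hy _ _) (hr i)
  · rw [(planelb_mul_V _ r _).2, (planelb_V_mul Γ r _).2]; exact hy _ _

theorem planelb_det_le {S : Matrix (Fin 4) (Fin 4) ℝ} {y μ : ℝ}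
    (h1 : Ent (planelb_blk S) (4 * y)) (h2 : ∀ i : Fin 3, |S i.castSucc 3| ≤ 2 * y)
    (h3 : ∀ i : Fin 3, |S 3 i.castSucc| ≤ 2 * y) (h4 : |S 3 3| ≤ y)
    (hμ : Ent (planelb_blk S).adjugate μ) : |S.det| ≤ 48 * y ^ 2 * μ := by
  have hy : 0 ≤ y := (abs_nonneg _).trans h4
  have hμ0 : 0 ≤ μ := (abs_nonneg _).trans (hμ 0 0)
  have a1 : |(planelb_blk S).det| ≤ 12 * y * μ := by
    rw [planelb_det3]
    refine (Finset.abs_sum_le_sum_abs _ _).trans ?_
    have : ∀ j ∈ (Finset.univ : Finset (Fin 3)),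
        |planelb_blk S 0 j * (planelb_blk S).adjugate j 0| ≤ 4 * y * μ := fun j _ => by
      rw [abs_mul]; exact mul_le_mul (h1 _ _) (hμ _ _) (abs_nonneg _) (by positivity)
    refine (Finset.sum_le_sum this).trans ?_
    simp only [Finset.sum_const, Finset.card_univ, Fintype.card_fin, nsmul_eq_mul]
    push_cast; linarith
  have a2 : |∑ i : Fin 3, ∑ j : Fin 3,
      S 3 i.castSucc * (planelb_blk S).adjugate i j * S j.castSucc 3| ≤ 36 * y ^ 2 * μ := by
    refine (Finset.abs_sum_le_sum_abs _ _).trans ?_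
    have : ∀ i ∈ (Finset.univ : Finset (Fin 3)), |∑ j : Fin 3,
        S 3 i.castSucc * (planelb_blk S).adjugate i j * S j.castSucc 3| ≤ 12 * y ^ 2 * μ := by
      intro i _
      refine (Finset.abs_sum_le_sum_abs _ _).trans ?_
      have : ∀ j ∈ (Finset.univ : Finset (Fin 3)),
          |S 3 i.castSucc * (planelb_blk S).adjugate i j * S j.castSucc 3| ≤
            2 * y * μ * (2 * y) := fun j _ => by
        rw [abs_mul, abs_mul]
        exact mul_le_mul (mul_le_mul (h3 _) (hμ _ _) (abs_nonneg _) (by positivity)) (h2 _)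
          (abs_nonneg _) (by positivity)
      refine (Finset.sum_le_sum this).trans ?_
      simp only [Finset.sum_const, Finset.card_univ, Fintype.card_fin, nsmul_eq_mul]
      push_cast; linarith
    refine (Finset.sum_le_sum this).trans ?_
    simp only [Finset.sum_const, Finset.card_univ, Fintype.card_fin, nsmul_eq_mul]
    push_cast; linarith
  have a3 : |S 3 3 * (planelb_blk S).det| ≤ y * (12 * y * μ) := by
    rw [abs_mul]; exact mul_le_mul h4 a1 (abs_nonneg _) hy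
  rw [planelb_det4]
  refine (abs_sub _ _).trans ?_
  linarith

theorem planelb_core {N H : Matrix (Fin 4) (Fin 4) ℝ} (hH : H.IsSymm) (hN : 1 ≤ N.det ^ 2)
    (hz : ∀ j, |N 3 j| ≤ |N 3 3|) {y : ℝ} (hy : Ent (Nᵀ * H * N) y) :
    |(planelb_blk H).det| ≤ 400 * y ^ 3 * |N 3 3| ^ 2 ∧
    ∃ w : Fin 3 → ℝ, (∀ (ξ : Fin 3 → ℝ) (u : Fin 4 → ℝ), (∀ i, |u i| ≤ 1) →
        (∀ i : Fin 3, ξ i = (N *ᵥ u) i.castSucc) → (N *ᵥ u) 3 = 0 → |w ⬝ᵥ ξ| ≤ 3) ∧
      |N 3 3| ^ 2 * |H.det| ≤ 400 * y ^ 2 * |bf (planelb_blk H).adjugate w w| := by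
  have hy0 : 0 ≤ y := (abs_nonneg _).trans (hy 0 0)
  have hz0 : N 3 3 ≠ 0 := by
    intro h
    have : N.det = 0 := det_eq_zero_of_row_eq_zero 3 fun j => by
      have := hz j
      rw [h, abs_zero] at this
      exact abs_nonpos_iff.1 this
    rw [this] at hN; norm_num at hN
  obtain ⟨r, hr⟩ : ∃ r : Fin 3 → ℝ, r = fun j => N 3 j.castSucc / N 3 3 := ⟨_, rfl⟩
  have hr1 : ∀ i, |r i| ≤ 1 := by
    intro i
    rw [hr, abs_div]
    exact (div_le_one (abs_pos.2 hz0)).2 (hz _)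
  have hX : ∀ j : Fin 3, (N * planelb_V r) 3 j.castSucc = 0 := by
    intro j
    rw [(planelb_mul_V N r 3).1 j, hr]
    field_simp
    ring
  obtain ⟨W, hW⟩ : ∃ W, W = planelb_blk (N * planelb_V r) := ⟨_, rfl⟩
  have hdN : N.det = N 3 3 * W.det := by
    have h := planelb_det_blk hX
    rw [det_mul, planelb_V_det, mul_one, (planelb_mul_V N r 3).2, ← hW] at h
    exact h
  have hW0 : W.det ≠ 0 := by
    intro h
    rw [hdN, h] at hN; norm_num at hN
  obtain ⟨S, hS⟩ : ∃ S, S = (planelb_V r)ᵀ * (Nᵀ * H * N) * planelb_V r := ⟨_, rfl⟩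
  have hS' : S = (N * planelb_V r)ᵀ * H * (N * planelb_V r) := by
    rw [hS, transpose_mul]; simp only [Matrix.mul_assoc]
  have hS3 : planelb_blk S = Wᵀ * planelb_blk H * W := by rw [hS', planelb_blk_mul hX, ← hW]
  obtain ⟨e1, e2, e3, e4⟩ := planelb_ent hy hr1
  rw [← hS] at e1 e2 e3 e4
  have hA : (planelb_blk H).IsSymm := hH.submatrix _
  have hdS : S.det = N 3 3 ^ 2 * W.det ^ 2 * H.det := by
    rw [hS', det_mul, det_mul, det_transpose, det_mul, planelb_V_det, hdN]; ring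
  have hW2 : 0 < W.det ^ 2 := by positivity
  refine ⟨?_, ?_⟩
  · have h1 := e1.det_le
    rw [hS3, det_mul, det_mul, det_transpose] at h1
    have h2 : |W.det * (planelb_blk H).det * W.det| = W.det ^ 2 * |(planelb_blk H).det| := by
      rw [show W.det * (planelb_blk H).det * W.det = W.det ^ 2 * (planelb_blk H).det by ring,
        abs_mul, abs_of_pos hW2]
    rw [h2] at h1
    simp only [Fintype.card_fin, Nat.factorial] at h1
    push_cast at h1
    rw [sq_abs]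
    rw [hdN, mul_pow] at hN
    have h3 : 0 ≤ N 3 3 ^ 2 := sq_nonneg _
    calc |(planelb_blk H).det| ≤ (N 3 3 ^ 2 * W.det ^ 2) * |(planelb_blk H).det| :=
          le_mul_of_one_le_left (abs_nonneg _) hN
      _ = N 3 3 ^ 2 * (W.det ^ 2 * |(planelb_blk H).det|) := by ring
      _ ≤ N 3 3 ^ 2 * (400 * y ^ 3) := by
          refine mul_le_mul_of_nonneg_left (h1.trans ?_) h3
          have : 0 ≤ y ^ 3 := by positivity
          linarith
      _ = 400 * y ^ 3 * N 3 3 ^ 2 := by ring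
  · have hsym : (planelb_blk S).adjugate.IsSymm := by
      have h1 : (planelb_blk S).IsSymm := by
        rw [hS3]
        unfold Matrix.IsSymm
        rw [transpose_mul, transpose_mul, transpose_transpose, hA.eq, Matrix.mul_assoc]
      unfold Matrix.IsSymm
      rw [adjugate_transpose, h1.eq]
    obtain ⟨ω, hω, hμ⟩ := planelb_vertex hsym
    have hd := planelb_det_le e1 e2 e3 e4 hμ
    refine ⟨(W.det)⁻¹ • (W.adjugateᵀ *ᵥ ω), fun ξ u hu hξ h0 => ?_, ?_⟩
    · have hu3 : u 3 = -∑ j : Fin 3, r j * u j.castSucc := by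
        have h1 : ∑ j : Fin 3, N 3 j.castSucc * u j.castSucc + N 3 3 * u 3 = 0 := by
          have := h0
          simp only [mulVec, dotProduct] at this
          rw [Fin.sum_univ_castSucc] at this
          exact this
        have h2 : ∑ j : Fin 3, r j * u j.castSucc =
            (∑ j : Fin 3, N 3 j.castSucc * u j.castSucc) / N 3 3 := by
          rw [Finset.sum_div]
          refine Finset.sum_congr rfl fun j _ => ?_
          rw [hr]; ring
        rw [h2, eq_neg_of_add_eq_zero_left h1]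
        field_simp
      have hξW : ξ = W *ᵥ fun j : Fin 3 => u j.castSucc := by
        ext i
        rw [hξ i, hW]
        simp only [mulVec, dotProduct, planelb_blk, submatrix_apply, (planelb_mul_V N r _).1]
        rw [Fin.sum_univ_castSucc]
        have h3 : (Fin.last 3 : Fin 4) = 3 := rfl
        rw [h3, hu3]
        simp only [Fin.sum_univ_three]
        ring
      have h4 : ((W.det)⁻¹ • (W.adjugateᵀ *ᵥ ω)) ⬝ᵥ ξ = ω ⬝ᵥ fun j : Fin 3 => u j.castSucc := by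
        rw [hξW, smul_dotProduct, mulVec_transpose, ← dotProduct_mulVec, mulVec_mulVec,
          adjugate_mul, smul_mulVec, one_mulVec, dotProduct_smul, smul_smul, inv_mul_cancel₀ hW0,
          one_smul]
      rw [h4]
      simp only [dotProduct]
      refine (Finset.abs_sum_le_sum_abs _ _).trans ?_
      have : ∀ j ∈ (Finset.univ : Finset (Fin 3)), |ω j * u j.castSucc| ≤ 1 := fun j _ => by
        rw [abs_mul]; exact mul_le_one₀ (hω j) (abs_nonneg _) (hu _)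
      refine (Finset.sum_le_sum this).trans ?_
      simp
    · have h1 : bf (planelb_blk S).adjugate ω ω = W.det ^ 2 * bf (planelb_blk H).adjugate
          ((W.det)⁻¹ • (W.adjugateᵀ *ᵥ ω)) ((W.det)⁻¹ • (W.adjugateᵀ *ᵥ ω)) := by
        rw [bf_smul_left, bf_smul_right, ← bf_conj, hS3, adjugate_mul_distrib,
          adjugate_mul_distrib, transpose_transpose, adjugate_transpose, Matrix.mul_assoc]
        field_simp
      rw [h1, hdS, abs_mul, abs_mul, abs_mul, abs_of_pos hW2, abs_of_nonneg (sq_nonneg _)] at hd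
      rw [sq_abs]
      generalize |bf (planelb_blk H).adjugate ((W.det)⁻¹ • (W.adjugateᵀ *ᵥ ω))
        ((W.det)⁻¹ • (W.adjugateᵀ *ᵥ ω))| = q at hd ⊢
      have h5 : W.det ^ 2 * (N 3 3 ^ 2 * |H.det|) ≤ W.det ^ 2 * (96 * y ^ 2 * q) := by linarith
      have h6 := le_of_mul_le_mul_left h5 hW2
      have h7 : 0 ≤ N 3 3 ^ 2 * |H.det| := by positivity
      linarith

/-- A real linear form on the plane with a large value of the adjoint form. -/
theorem planeLB {G U U' M : Matrix (Fin 4) (Fin 4) ℤ} (hG : G.IsSymm) (hU : U * U' = 1)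
    {c : Fin 4 → ℤ} (hc : c ᵥ* U = Pi.single 3 1) (hM : M.det ≠ 0) {y : ℝ}
    (hy : Ent (mc ℝ (Mᵀ * G * M)) y) :
    |((((col3 U)ᵀ * G * col3 U).det : ℤ) : ℝ)| ≤ 400 * y ^ 3 * ‖vc ℝ (c ᵥ* M)‖ ^ 2 ∧
    ∃ w : Fin 3 → ℝ, (∀ ξ : Fin 3 → ℤ, InBox M (col3 U *ᵥ ξ) → |w ⬝ᵥ vc ℝ ξ| ≤ 3) ∧
      ‖vc ℝ (c ᵥ* M)‖ ^ 2 * |((G.det : ℤ) : ℝ)| ≤
        400 * y ^ 2 * |bf (mc ℝ ((col3 U)ᵀ * G * col3 U)).adjugate w w| := by
  obtain ⟨k, hk⟩ := Finite.exists_max fun k : Fin 4 => |vc ℝ (c ᵥ* M) k|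
  have hnorm : ‖vc ℝ (c ᵥ* M)‖ = |vc ℝ (c ᵥ* M) k| :=
    le_antisymm ((pi_norm_le_iff_of_nonneg (abs_nonneg _)).2 hk) (norm_le_pi_norm (vc ℝ (c ᵥ* M)) k)
  have hU' : U' * U = 1 := mul_eq_one_comm.1 hU
  obtain ⟨σ, hσ⟩ : ∃ σ : Equiv.Perm (Fin 4), σ = Equiv.swap k 3 := ⟨_, rfl⟩
  have hσ3 : σ 3 = k := by rw [hσ, Equiv.swap_apply_right]
  obtain ⟨N, hN⟩ : ∃ N : Matrix (Fin 4) (Fin 4) ℤ, N = (U' * M).submatrix id σ := ⟨_, rfl⟩
  obtain ⟨H, hH⟩ : ∃ H : Matrix (Fin 4) (Fin 4) ℤ, H = Uᵀ * G * U := ⟨_, rfl⟩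
  have hrow : ∀ j, mc ℝ N 3 j = vc ℝ (c ᵥ* M) (σ j) := by
    intro j
    rw [planelb_row hU hc, hN]
    rfl
  have hHs : (mc ℝ H).IsSymm := by
    unfold Matrix.IsSymm
    rw [← mc_transpose, hH, transpose_mul, transpose_mul, transpose_transpose, hG.eq,
      Matrix.mul_assoc]
  have hdN : (1 : ℝ) ≤ (mc ℝ N).det ^ 2 := by
    rw [mc_det]
    have h1 : N.det ^ 2 = M.det ^ 2 := by
      rw [hN, det_permute', det_mul, mul_pow, mul_pow, (planelb_detU hU).2, one_mul]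
      rcases Int.units_eq_one_or (Equiv.Perm.sign σ) with h | h <;> simp [h]
    have h2 : 1 ≤ M.det ^ 2 := by
      have := sq_pos_of_ne_zero hM
      omega
    rw [← h1] at h2
    exact_mod_cast h2
  have hΓ : Nᵀ * H * N = (Mᵀ * G * M).submatrix σ σ := by
    have h1 : (U' * M)ᵀ * H * (U' * M) = Mᵀ * G * M := by
      rw [hH, transpose_mul]
      calc Mᵀ * U'ᵀ * (Uᵀ * G * U) * (U' * M) = Mᵀ * (U * U')ᵀ * G * (U * U') * M := by
            rw [transpose_mul]; simp only [Matrix.mul_assoc]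
        _ = Mᵀ * G * M := by rw [hU, transpose_one, Matrix.mul_one, Matrix.mul_one]
    rw [← h1, hN]
    ext i j
    simp [Matrix.mul_apply]
  have hy' : Ent ((mc ℝ N)ᵀ * mc ℝ H * mc ℝ N) y := by
    rw [← mc_transpose, ← mc_mul, ← mc_mul, hΓ]
    exact fun i j => hy _ _
  obtain ⟨h1, w, h2, h3⟩ := planelb_core hHs hdN
    (fun j => by rw [hrow, hrow, hσ3]; exact hk _) hy'
  have hA : planelb_blk (mc ℝ H) = mc ℝ ((col3 U)ᵀ * G * col3 U) := by
    rw [← planelb_blk_conj, ← hH]; rfl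
  have hdH : (mc ℝ H).det = ((G.det : ℤ) : ℝ) := by
    rw [mc_det, hH, det_mul, det_mul, det_transpose]
    congr 1
    linear_combination G.det * (planelb_detU hU).1
  rw [hA, hrow, hσ3, ← hnorm] at h1 h3
  rw [mc_det] at h1
  rw [hdH] at h3
  refine ⟨h1, w, fun ξ hξ => ?_, h3⟩
  obtain ⟨u, hu, hx⟩ := hξ
  have h4 : mc ℝ N *ᵥ (u ∘ σ) = vc ℝ ((U' * col3 U) *ᵥ ξ) := by
    rw [← mulVec_mulVec, vc_mulVec, hx, mulVec_mulVec, ← mc_mul, hN, mc_submatrix]
    ext i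
    simp only [mulVec, dotProduct, submatrix_apply, id, Function.comp]
    exact Equiv.sum_comp σ fun j => mc ℝ (U' * M) i j * u j
  have h5 : U' * col3 U = col3 1 := by
    rw [← hU']
    ext i j
    simp [col3, Matrix.mul_apply]
  rw [h5] at h4
  refine h2 (vc ℝ ξ) (u ∘ σ) (fun i => hu _) (fun i => ?_) ?_
  · rw [h4]
    fin_cases i <;> simp [vc, col3, mulVec, dotProduct, Fin.sum_univ_three, one_apply]
  · rw [h4]
    simp [vc, col3, mulVec, dotProduct, Fin.sum_univ_three, one_apply]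

end Pool.Agent.Lib.MP_af4c59_nt.H57
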