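import Pool.Agent.Lib.MP_af4c59_nt.H57CoreP
import Pool.Agent.Lib.MP_af4c59_nt.H57Jordan
import Pool.Agent.Lib.MP_af4c59_nt.H57Line

/-!
Local cells on a quadric surface.
-/

set_option autoImplicit false

namespace Pool.Agent.Lib.MP_af4c59_nt.H57

open Matrix

section aux

variable {p : ℕ} [Fact p.Prime]

theorem quatl_one_le : (1 : ℝ) ≤ (p : ℝ) := by
  exact_mod_cast (Fact.out : p.Prime).one_lt.le

theorem quatl_pos : (0 : ℝ) < (p : ℝ) := lt_of_lt_of_le one_pos quatl_one_le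

theorem quatl_mono {u : ℚ_[p]} {k k' : ℤ} (h : ‖u‖ ≤ (p : ℝ) ^ (-k')) (hk : k ≤ k') :
    ‖u‖ ≤ (p : ℝ) ^ (-k) :=
  h.trans (zpow_le_zpow_right₀ quatl_one_le (by omega))

theorem quatl_add {u v : ℚ_[p]} {r : ℝ} (hu : ‖u‖ ≤ r) (hv : ‖v‖ ≤ r) : ‖u + v‖ ≤ r :=
  (IsUltrametricDist.norm_add_le_max u v).trans (max_le hu hv)

theorem quatl_sub {u v : ℚ_[p]} {r : ℝ} (hu : ‖u‖ ≤ r) (hv : ‖v‖ ≤ r) : ‖u - v‖ ≤ r := by
  rw [sub_eq_add_neg]
  exact quatl_add hu (by rwa [norm_neg])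

theorem quatl_mul {u v : ℚ_[p]} {k l : ℤ} (hu : ‖u‖ ≤ (p : ℝ) ^ (-k)) (hv : ‖v‖ ≤ (p : ℝ) ^ (-l)) :
    ‖u * v‖ ≤ (p : ℝ) ^ (-(k + l)) := by
  rw [norm_mul, neg_add, zpow_add₀ quatl_pos.ne']
  exact mul_le_mul hu hv (norm_nonneg _) (zpow_pos quatl_pos _).le

theorem quatl_half {u : ℚ_[p]} {k : ℤ} (hu : ‖2 * u‖ ≤ (p : ℝ) ^ (-k)) :
    ‖u‖ ≤ (p : ℝ) ^ (-(k - e2v p)) := by
  rw [norm_mul, norm_two] at hu
  have h1 : (0 : ℝ) < (p : ℝ) ^ (-(e2v p : ℤ)) := zpow_pos quatl_pos _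
  have h2 : (p : ℝ) ^ (-k) = (p : ℝ) ^ (-(e2v p : ℤ)) * (p : ℝ) ^ (-(k - e2v p)) := by
    rw [← zpow_add₀ quatl_pos.ne']
    congr 1
    ring
  rw [h2] at hu
  exact le_of_mul_le_mul_left hu h1

theorem quatl_bf3 (d0 d1 d2 x0 x1 x2 y0 y1 y2 : ℚ_[p]) :
    bf (Matrix.diagonal ![d0, d1, d2]) ![x0, x1, x2] ![y0, y1, y2] =
      d0 * x0 * y0 + d1 * x1 * y1 + d2 * x2 * y2 := by
  rw [bf_diag, Fin.sum_univ_three]
  simp

end aux

theorem locQuat (p : ℕ) [Fact p.Prime] {A : Matrix (Fin 4) (Fin 4) ℤ} (hA : A.IsSymm) {S k c : ℕ}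
    (hD : A.det.natAbs = S * k ^ 2) (hS : Squarefree S) (hk : k ≠ 0) (hc : c ≠ 0)
    (hg : GcdDvd 2 A (c : ℤ)) {X : Finset (Fin 4 → ℤ)} (h0 : ∀ x ∈ X, bf A x x = 0) :
    ∃ s f u : ℕ, Cov X (LD A ((p : ℤ) ^ u)) (9 * ((padicValNat p A.det.natAbs : ℝ) + 1)) ∧
      Part X (fun x y => (p : ℤ) ^ s ∣ bf A x y)
        (200 * ((padicValNat p A.det.natAbs : ℝ) + 1) ^ 2 * (p : ℝ) ^ f) ∧
      f ≤ padicValNat p k + 10 * e2v p ∧
      f + padicValNat p k ≤ padicValNat p c + s + 10 * e2v p ∧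
      padicValNat p A.det.natAbs ≤ padicValNat p c + u + 10 * e2v p := by
  have hS0 : S ≠ 0 := hS.ne_zero
  have hdet : A.det ≠ 0 := by
    intro h
    rw [h] at hD
    exact (mul_ne_zero hS0 (pow_ne_zero 2 hk)) (by simpa using hD.symm)
  have hc' : (c : ℤ) ≠ 0 := by exact_mod_cast hc
  obtain ⟨L, d, a, hL, hz, hd, hmono, hsum, hlo, h01⟩ := jordanZ p 2 A hA hdet hc' hg
  have hv : padicValNat p A.det.natAbs = padicValNat p S + 2 * padicValNat p k := by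
    rw [hD, padicValNat.mul hS0 (pow_ne_zero 2 hk), padicValNat.pow]
  have hvS : padicValNat p S ≤ 1 := by
    rw [← Nat.factorization_def _ (Fact.out : p.Prime)]
    exact Squarefree.natFactorization_le_one p hS
  have he := e2v_le p
  rw [Int.natAbs_natCast] at h01
  rw [Fin.sum_univ_four] at hsum
  have m01 : a 0 ≤ a 1 := hmono (by decide)
  have m12 : a 1 ≤ a 2 := hmono (by decide)
  have m23 : a 2 ≤ a 3 := hmono (by decide)
  have l0 := hlo 0
  have l1 := hlo 1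
  have l2 := hlo 2
  push_cast at l0 l1 l2
  set n := padicValNat p A.det.natAbs with hn
  set e := e2v p with he'
  let z : (Fin 4 → ℤ) → Fin 4 → ℚ_[p] := fun x => L *ᵥ vc ℚ_[p] x
  have hz' : ∀ x i, ‖z x i‖ ≤ (p : ℝ) ^ (-(-(e : ℤ))) := by
    intro x i
    rw [neg_neg]
    exact hz x i
  have hcast : ∀ x y, ((bf A x y : ℤ) : ℚ_[p]) = bf (Matrix.diagonal d) (z x) (z y) := by
    intro x y
    rw [bf_cast, hL, bf_conj]
  have hexp : ∀ x y, ((bf A x y : ℤ) : ℚ_[p]) = d 0 * z x 0 * z y 0 + d 1 * z x 1 * z y 1 +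
      d 2 * z x 2 * z y 2 + d 3 * z x 3 * z y 3 := by
    intro x y
    rw [hcast, bf_diag, Fin.sum_univ_four]
  have ht : ∀ x y i, ‖d i * z x i * z y i‖ ≤ (p : ℝ) ^ (-(a i - 2 * e)) := by
    intro x y i
    have := quatl_mul (quatl_mul (hd i).le (hz' x i)) (hz' y i)
    exact quatl_mono this (by omega)
  have hd0 : ∀ i, d i ≠ 0 := by
    intro i h
    have := hd i
    rw [h, norm_zero] at this
    exact (zpow_pos (quatl_pos (p := p)) _).ne this
  -- coarse cells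
  obtain ⟨h, hh⟩ : ∃ h : ℕ, (h : ℤ) = a 2 - a 0 := ⟨(a 2 - a 0).toNat, by omega⟩
  have hPA := PA (p := p) (A := Matrix.diagonal ![d 0, d 1, 0]) (X := X)
    (x := fun x => ![z x 0, z x 1, 0]) (y := a 0 - 2 * e) (Matrix.isSymm_diagonal _)
    (by rw [Matrix.det_diagonal, Fin.prod_univ_three]; simp) h
    (by
      intro x hx
      rw [quatl_bf3]
      have h1 := hexp x x
      rw [h0 x hx] at h1
      have h2 : d 0 * z x 0 * z x 0 + d 1 * z x 1 * z x 1 + 0 * 0 * 0 =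
          -(d 2 * z x 2 * z x 2 + d 3 * z x 3 * z x 3) := by
        push_cast at h1
        linear_combination -h1
      rw [h2, norm_neg]
      exact quatl_add (quatl_mono (ht x x 2) (by omega)) (quatl_mono (ht x x 3) (by omega)))
    (by
      intro x _ y _
      rw [quatl_bf3, mul_zero, add_zero]
      exact quatl_add (ht x y 0) (quatl_mono (ht x y 1) (by omega)))
  have hco : Part X (fun x y => ‖((bf A x y : ℤ) : ℚ_[p])‖ ≤ (p : ℝ) ^ (-(a 2 - 3 * e)))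
      (9 * ((n : ℝ) + 1)) := by
    refine Cov.mono (Part.imp hPA ?_) ?_
    · intro x _ y _ hxy
      have h1 := quatl_half hxy
      rw [quatl_bf3, mul_zero, add_zero] at h1
      rw [hexp]
      exact quatl_add (quatl_add (quatl_mono h1 (by omega)) (quatl_mono (ht x y 2) (by omega)))
        (quatl_mono (ht x y 3) (by omega))
    · have : h + 1 ≤ 9 * (n + 1) := by omega
      exact_mod_cast this
  obtain ⟨f, hf⟩ : ∃ f : ℕ, (f : ℤ) = (a 3 - a 2 + e) / 2 :=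
    ⟨((a 3 - a 2 + e) / 2).toNat, by omega⟩
  refine ⟨(a 2 - 4 * e + 2 * f).toNat, f, (a 2 + a 3 - 4 * e).toNat, ?_, ?_, by omega, by omega,
    by omega⟩
  · refine Cov.imp hco ?_
    intro C hC hcl x₁ hx₁ x₂ hx₂ y₁ hy₁ y₂ hy₂ hx hy
    apply dvd_of_norm_le
    have hdd : ((dd A x₁ x₂ y₁ y₂ : ℤ) : ℚ_[p]) =
        dd (Matrix.diagonal d) (z x₁) (z x₂) (z y₁) (z y₂) := by
      unfold dd
      push_cast
      rw [hcast, hcast, hcast, hcast]
    have hq : ∀ u ∈ C, ∀ v ∈ C, bf A u v = 0 → OnQ d (z u) (z v) := by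
      intro u hu v hv huv
      refine ⟨?_, ?_, ?_⟩
      · rw [← hcast, h0 u (hC hu)]; simp
      · rw [← hcast, huv]; simp
      · rw [← hcast, h0 v (hC hv)]; simp
    rw [hdd]
    rcases lineId hd0 (hq _ hx₁ _ hx₂ hx) (hq _ hy₁ _ hy₂ hy) with h1 | h1
    · rw [h1, norm_zero]
      exact (zpow_pos quatl_pos _).le
    · rw [h1, bf_zv]
      have hterm : ∀ u ∈ C, ∀ v ∈ C, ∀ u' v', ‖z u' 3 * z v' 3 * bf (Matrix.diagonal d) (z u) (z v)‖ ≤
          (p : ℝ) ^ (-(a 2 - 5 * e)) := by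
        intro u hu v hv u' v'
        have h2 : ‖((bf A u v : ℤ) : ℚ_[p])‖ ≤ (p : ℝ) ^ (-(a 2 - 3 * e)) := hcl u hu v hv
        rw [hcast] at h2
        exact quatl_mono (quatl_mul (quatl_mul (hz' u' 3) (hz' v' 3)) h2) (by omega)
      have h2 := quatl_add (quatl_sub (quatl_sub (hterm _ hx₁ _ hy₁ x₂ y₂)
        (hterm _ hx₁ _ hy₂ x₂ y₁)) (hterm _ hx₂ _ hy₁ x₁ y₂)) (hterm _ hx₂ _ hy₂ x₁ y₁)
      exact quatl_mono (quatl_mul (quatl_mul (norm_two (p := p)).le (hd 3).le) h2) (by omega)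
  · have hb : Cov X (Clq fun x y => (p : ℤ) ^ (a 2 - 4 * e + 2 * f).toNat ∣ bf A x y)
        (9 * ((n : ℝ) + 1) * ((2 * (f : ℝ) + 1) * (p : ℝ) ^ f)) := by
      refine Cov.bind hco (by positivity) ?_
      intro C hC hcl
      have hPB := PB (p := p) (A := Matrix.diagonal ![d 0, d 1, d 2]) (X := C)
        (x := fun x => ![z x 0, z x 1, z x 2]) (y := a 2 - 3 * e) (Matrix.isSymm_diagonal _) f
        (by
          intro x hx
          rw [quatl_bf3]
          have h1 := hexp x x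
          rw [h0 x (hC hx)] at h1
          have h2 : d 0 * z x 0 * z x 0 + d 1 * z x 1 * z x 1 + d 2 * z x 2 * z x 2 =
              -(d 3 * z x 3 * z x 3) := by
            push_cast at h1
            linear_combination -h1
          rw [h2, norm_neg]
          exact quatl_mono (ht x x 3) (by omega))
        (by
          intro x hx y hy
          rw [quatl_bf3]
          have h2 : d 0 * z x 0 * z y 0 + d 1 * z x 1 * z y 1 + d 2 * z x 2 * z y 2 =
              ((bf A x y : ℤ) : ℚ_[p]) - d 3 * z x 3 * z y 3 := by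
            rw [hexp]; ring
          rw [h2]
          exact quatl_sub (hcl x hx y hy) (quatl_mono (ht x y 3) (by omega)))
      refine Part.imp hPB ?_
      intro x _ y _ hxy
      apply dvd_of_norm_le
      have h1 := quatl_half hxy
      rw [quatl_bf3] at h1
      rw [hexp]
      exact quatl_add (quatl_mono h1 (by omega)) (quatl_mono (ht x y 3) (by omega))
    refine Cov.mono hb ?_
    have h1 : (2 * (f : ℝ) + 1) ≤ 18 * ((n : ℝ) + 1) := by
      have : 2 * f + 1 ≤ 18 * (n + 1) := by omega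
      exact_mod_cast this
    have h2 : (0 : ℝ) < (p : ℝ) ^ f := pow_pos quatl_pos _
    have h3 : (0 : ℝ) < (n : ℝ) + 1 := by positivity
    calc 9 * ((n : ℝ) + 1) * ((2 * (f : ℝ) + 1) * (p : ℝ) ^ f)
        ≤ 9 * ((n : ℝ) + 1) * ((18 * ((n : ℝ) + 1)) * (p : ℝ) ^ f) := by gcongr
      _ = 162 * (((n : ℝ) + 1) ^ 2 * (p : ℝ) ^ f) := by ring
      _ ≤ 200 * (((n : ℝ) + 1) ^ 2 * (p : ℝ) ^ f) := by gcongr; norm_num
      _ = _ := by ring

end Pool.Agent.Lib.MP_af4c59_nt.H57
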