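import Pool.Agent.Lib.MP_af4c59_nt.H57CoreR

/-!
Real cells on a quadric surface.
-/

set_option autoImplicit false

namespace Pool.Agent.Lib.MP_af4c59_nt.H57

open Matrix

section Aux

variable {A : Matrix (Fin 4) (Fin 4) ℤ} {P : Matrix (Fin 4) (Fin 4) ℝ} {ν : Fin 4 → ℝ}
  {X : Finset (Fin 4 → ℤ)} {N B H : ℝ}

/-- The first three coordinates in the real frame. -/
def realcZ (P : Matrix (Fin 4) (Fin 4) ℝ) (x : Fin 4 → ℤ) : Fin 3 → ℝ :=
  fun i => (P *ᵥ vc ℝ x) i.castSucc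

theorem realc_term (h : QD A P ν X N B H) {x y : Fin 4 → ℤ} (hx : x ∈ X) (hy : y ∈ X)
    (i : Fin 4) : |ν i * (P *ᵥ vc ℝ x) i * (P *ᵥ vc ℝ y) i| ≤ |ν i| * B ^ 2 := by
  have h1 : |(P *ᵥ vc ℝ x) i| ≤ B := (norm_le_pi_norm (P *ᵥ vc ℝ x) i).trans (h.bd x hx)
  have h2 : |(P *ᵥ vc ℝ y) i| ≤ B := (norm_le_pi_norm (P *ᵥ vc ℝ y) i).trans (h.bd y hy)
  rw [mul_assoc, abs_mul, abs_mul, sq]
  exact mul_le_mul_of_nonneg_left (mul_le_mul h1 h2 (abs_nonneg _) h.Bpos.le) (abs_nonneg _)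

theorem realc_two (h : QD A P ν X N B H) {x y : Fin 4 → ℤ} (hx : x ∈ X) (hy : y ∈ X) :
    |((bf A x y : ℤ) : ℝ) - bf (Matrix.diagonal ![ν 0, ν 1, 0]) (realcZ P x) (realcZ P y)| ≤
      2 * |ν 2| * B ^ 2 := by
  have e : ((bf A x y : ℤ) : ℝ) - bf (Matrix.diagonal ![ν 0, ν 1, 0]) (realcZ P x) (realcZ P y) =
      ν 2 * (P *ᵥ vc ℝ x) 2 * (P *ᵥ vc ℝ y) 2 + ν 3 * (P *ᵥ vc ℝ x) 3 * (P *ᵥ vc ℝ y) 3 := by
    rw [h.bf_eq, bf_diag, bf_diag, Fin.sum_univ_four, Fin.sum_univ_three]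
    simp [realcZ]
    ring
  have h2 := realc_term h hx hy 2
  have h3 := realc_term h hx hy 3
  have h4 := mul_le_mul_of_nonneg_right (h.sorted 2 3 (by decide)) (sq_nonneg B)
  rw [e]
  exact (abs_add_le _ _).trans (by linarith)

theorem realc_three (h : QD A P ν X N B H) {x y : Fin 4 → ℤ} (hx : x ∈ X) (hy : y ∈ X) :
    |((bf A x y : ℤ) : ℝ) - bf (Matrix.diagonal ![ν 0, ν 1, ν 2]) (realcZ P x) (realcZ P y)| ≤
      |ν 3| * B ^ 2 := by
  have e : ((bf A x y : ℤ) : ℝ) - bf (Matrix.diagonal ![ν 0, ν 1, ν 2]) (realcZ P x) (realcZ P y) =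
      ν 3 * (P *ᵥ vc ℝ x) 3 * (P *ᵥ vc ℝ y) 3 := by
    rw [h.bf_eq, bf_diag, bf_diag, Fin.sum_univ_four, Fin.sum_univ_three]
    simp [realcZ]
  rw [e]
  exact realc_term h hx hy 3

end Aux

theorem realc_int {b : ℤ} {e c : ℝ} (he : 0 ≤ e) (hc0 : 0 ≤ c) (hc : c ≤ 10)
    (h : |(b : ℝ)| ≤ c * max e (1 / 20)) : |(b : ℝ)| ≤ c * e := by
  rcases le_total e (1 / 20) with h1 | h1
  · rw [max_eq_right h1] at h
    have h2 : |(b : ℝ)| < 1 := by linarith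
    have h3 : |b| < 1 := by exact_mod_cast h2
    rw [Int.abs_lt_one_iff.1 h3]
    simpa using mul_nonneg hc0 he
  · rwa [max_eq_left h1] at h

theorem realc_level {N e : ℝ} (hN : 1 ≤ N) :
    N + e ≤ 2 ^ lg (21 * N ^ 1) * max e (1 / 20) := by
  have h1 := le_two_pow_lg (21 * N ^ 1)
  have h2 : e ≤ max e (1 / 20) := le_max_left _ _
  have h3 : 1 / 20 ≤ max e (1 / 20) := le_max_right _ _
  have h4 : 0 ≤ max e (1 / 20) := by linarith
  have h5 := mul_le_mul_of_nonneg_right h1 h4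
  rw [pow_one] at h5 ⊢
  nlinarith

theorem realCoarse : ∃ f, SP f ∧ ∀ (A : Matrix (Fin 4) (Fin 4) ℤ) (P : Matrix (Fin 4) (Fin 4) ℝ)
    (ν : Fin 4 → ℝ) (X : Finset (Fin 4 → ℤ)) (N B H : ℝ), QD A P ν X N B H →
    Part X (fun x y => |((bf A x y : ℤ) : ℝ)| ≤ 18 * |ν 2| * B ^ 2) (f N) := by
  refine ⟨fun x => (lg (21 * x ^ 1) : ℝ) + 1, SP_lg.comp (by norm_num) 1, ?_⟩
  intro A P ν X N B H h
  have he : 0 ≤ 2 * |ν 2| * B ^ 2 := by positivity
  have hE : 2 * |ν 2| * B ^ 2 ≤ max (2 * |ν 2| * B ^ 2) (1 / 20) := le_max_left _ _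
  have h1 := RA (A := Matrix.diagonal ![ν 0, ν 1, 0]) (X := X) (x := realcZ P)
    (E := max (2 * |ν 2| * B ^ 2) (1 / 20)) (Y := N + 2 * |ν 2| * B ^ 2)
    (L := lg (21 * N ^ 1)) (Matrix.isSymm_diagonal _) (by simp [Fin.prod_univ_three])
    (lt_max_of_lt_right (by norm_num)) (fun x hx => ?_) (fun x hx y hy => ?_)
    (realc_level h.oneN)
  · refine h1.imp fun x hx y hy hxy => ?_
    have h2 := realc_two h hx hy
    have h3 := abs_sub_abs_le_abs_sub ((bf A x y : ℤ) : ℝ)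
      (bf (Matrix.diagonal ![ν 0, ν 1, 0]) (realcZ P x) (realcZ P y))
    have h4 := realc_int (b := bf A x y) (c := 9) he (by norm_num) (by norm_num) (by linarith)
    linarith
  · have h2 := realc_two h hx hx
    rw [h.iso x hx, Int.cast_zero, zero_sub, abs_neg] at h2
    exact h2.trans hE
  · have h2 := realc_two h hx hy
    have h3 := abs_sub_abs_le_abs_sub
      (bf (Matrix.diagonal ![ν 0, ν 1, 0]) (realcZ P x) (realcZ P y)) ((bf A x y : ℤ) : ℝ)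
    rw [abs_sub_comm] at h3
    have h4 := h.bN x hx y hy
    linarith

theorem realFine : ∃ f, SP f ∧ ∀ (A : Matrix (Fin 4) (Fin 4) ℤ) (P : Matrix (Fin 4) (Fin 4) ℝ)
    (ν : Fin 4 → ℝ) (X : Finset (Fin 4 → ℤ)) (N B H : ℝ), QD A P ν X N B H → ν 3 ≠ 0 →
    (∀ x ∈ X, ∀ y ∈ X, |((bf A x y : ℤ) : ℝ)| ≤ 18 * |ν 2| * B ^ 2) →
    Part X (fun x y => |((bf A x y : ℤ) : ℝ)| ≤ 10 * |ν 3| * B ^ 2) (f N * √(|ν 2| / |ν 3|)) := by
  refine ⟨fun x => 27 * ((lg (21 * x ^ 1) : ℝ) + 1),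
    (SP_lg.comp (by norm_num) 1).cmul (by norm_num), ?_⟩
  intro A P ν X N B H h h3 hb
  have hν : 0 < |ν 3| := abs_pos.2 h3
  have hB := h.Bpos
  have he : 0 < |ν 3| * B ^ 2 := by positivity
  have hE : |ν 3| * B ^ 2 ≤ max (|ν 3| * B ^ 2) (1 / 20) := le_max_left _ _
  have hs : |ν 3| ≤ |ν 2| := h.sorted 2 3 (by decide)
  have h1 := RB (A := Matrix.diagonal ![ν 0, ν 1, ν 2]) (X := X) (x := realcZ P)
    (E := max (|ν 3| * B ^ 2) (1 / 20)) (Y := min (18 * |ν 2| * B ^ 2) N + |ν 3| * B ^ 2)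
    (L := lg (21 * N ^ 1)) (Matrix.isSymm_diagonal _)
    (lt_max_of_lt_right (by norm_num)) (fun x hx => ?_) (fun x hx y hy => ?_)
    (le_trans (by linarith [min_le_right (18 * |ν 2| * B ^ 2) N]) (realc_level h.oneN))
  · refine Cov.mono (h1.imp fun x hx y hy hxy => ?_) ?_
    · have h2 := realc_three h hx hy
      have h3 := abs_sub_abs_le_abs_sub ((bf A x y : ℤ) : ℝ)
        (bf (Matrix.diagonal ![ν 0, ν 1, ν 2]) (realcZ P x) (realcZ P y))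
      have h4 := realc_int (b := bf A x y) (c := 10) he.le (by norm_num) (by norm_num) (by linarith)
      linarith
    · have hr : 1 ≤ |ν 2| / |ν 3| := (one_le_div hν).2 hs
      have k1 : (min (18 * |ν 2| * B ^ 2) N + |ν 3| * B ^ 2) / max (|ν 3| * B ^ 2) (1 / 20) ≤
          5 ^ 2 * (|ν 2| / |ν 3|) := by
        rw [div_le_iff₀ (he.trans_le hE)]
        have k2 := mul_le_mul_of_nonneg_left hE (by positivity : 0 ≤ 5 ^ 2 * (|ν 2| / |ν 3|))
        have k3 : 5 ^ 2 * (|ν 2| / |ν 3|) * (|ν 3| * B ^ 2) = 25 * |ν 2| * B ^ 2 := by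
          field_simp
          ring
        have k4 := mul_le_mul_of_nonneg_right hs (sq_nonneg B)
        have k5 := min_le_left (18 * |ν 2| * B ^ 2) N
        linarith
      have k2 := Real.sqrt_le_sqrt k1
      rw [Real.sqrt_mul (by norm_num), Real.sqrt_sq (by norm_num)] at k2
      have k3 : 1 ≤ √(|ν 2| / |ν 3|) := Real.one_le_sqrt.2 hr
      have k4 : (0 : ℝ) ≤ (lg (21 * N ^ 1) : ℝ) + 1 := by positivity
      calc _ ≤ ((lg (21 * N ^ 1) : ℝ) + 1) * (27 * √(|ν 2| / |ν 3|)) :=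
            mul_le_mul_of_nonneg_left (by linarith) k4
        _ = _ := by ring
  · have h2 := realc_three h hx hx
    rw [h.iso x hx, Int.cast_zero, zero_sub, abs_neg] at h2
    exact h2.trans hE
  · have h2 := realc_three h hx hy
    have h3 := abs_sub_abs_le_abs_sub
      (bf (Matrix.diagonal ![ν 0, ν 1, ν 2]) (realcZ P x) (realcZ P y)) ((bf A x y : ℤ) : ℝ)
    rw [abs_sub_comm] at h3
    have h4 := le_min (hb x hx y hy) (h.bN x hx y hy)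
    linarith

end Pool.Agent.Lib.MP_af4c59_nt.H57
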