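import Pool.Agent.Lib.MP_af4c59_nt.H57RichA

/-!
Covering by lines.
-/

set_option autoImplicit false

namespace Pool.Agent.Lib.MP_af4c59_nt.H57

open Matrix

/-- The set `C` lies on a line of the ruling `l`, has at least two points, and its smallest and
largest areas are attained by the pairs `a, b` and `a', b'`. -/
structure OnLine (A : Matrix (Fin 4) (Fin 4) ℤ) (P : Matrix (Fin 4) (Fin 4) ℝ) (ν : Fin 4 → ℝ)
    (l : ℝ) (C : Finset (Fin 4 → ℤ)) (a b a' b' : Fin 4 → ℤ) : Prop where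
  ha : a ∈ C
  hb : b ∈ C
  ha' : a' ∈ C
  hb' : b' ∈ C
  ne : a ≠ b
  sq : l ^ 2 * ν 3 = ν 0 * ν 1 * ν 2
  rul : Rul ν (P *ᵥ vc ℝ a) (P *ᵥ vc ℝ b) l
  orth : ∀ x ∈ C, ∀ y ∈ C, bf A x y = 0
  plane : ∀ x ∈ C, ∃ s t : ℝ, P *ᵥ vc ℝ x = s • (P *ᵥ vc ℝ a) + t • (P *ᵥ vc ℝ b)
  min : ∀ x ∈ C, ∀ y ∈ C, x ≠ y →
    ar (P *ᵥ vc ℝ a) (P *ᵥ vc ℝ b) ≤ ar (P *ᵥ vc ℝ x) (P *ᵥ vc ℝ y)
  max : ∀ x ∈ C, ∀ y ∈ C, ar (P *ᵥ vc ℝ x) (P *ᵥ vc ℝ y) ≤ ar (P *ᵥ vc ℝ a') (P *ᵥ vc ℝ b')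

theorem richb_np {A : Matrix (Fin 4) (Fin 4) ℤ} {P : Matrix (Fin 4) (Fin 4) ℝ}
    {ν : Fin 4 → ℝ} {X : Finset (Fin 4 → ℤ)} {N B H : ℝ} (h : QD A P ν X N B H)
    {x y : Fin 4 → ℤ} (hx : x ∈ X) (hy : y ∈ X) (hxy : x ≠ y) :
    NP (P *ᵥ vc ℝ x) (P *ᵥ vc ℝ y) :=
  NP_mulVec (Matrix.nonsing_inv_mul P (isUnit_iff_ne_zero.2 h.detP))
    (NP_vc.2 (h.pw x hx y hy hxy))

theorem richb_ne {A : Matrix (Fin 4) (Fin 4) ℤ} {P : Matrix (Fin 4) (Fin 4) ℝ}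
    {ν : Fin 4 → ℝ} {X : Finset (Fin 4 → ℤ)} {N B H : ℝ} (h : QD A P ν X N B H) (h3 : ν 3 ≠ 0)
    (i : Fin 4) : ν i ≠ 0 := by
  intro h0
  have := h.sorted i 3 (Fin.le_last i)
  rw [h0, abs_zero] at this
  exact h3 (abs_nonpos_iff.1 this)

theorem richb_orth {ν p q : Fin 4 → ℝ} (hq : OnQ ν p q) (s t s' t' : ℝ) :
    bf (Matrix.diagonal ν) (s • p + t • q) (s' • p + t' • q) = 0 := by
  have h4 : bf (Matrix.diagonal ν) q p = 0 := by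
    rw [bf_comm (Matrix.isSymm_diagonal ν)]; exact hq.2.1
  simp only [bf_add_left, bf_add_right, bf_smul_left, bf_smul_right, hq.1, hq.2.1, hq.2.2, h4]
  ring

theorem richb_onq {A : Matrix (Fin 4) (Fin 4) ℤ} {P : Matrix (Fin 4) (Fin 4) ℝ}
    {ν : Fin 4 → ℝ} {X : Finset (Fin 4 → ℤ)} {N B H : ℝ} (h : QD A P ν X N B H)
    {x y : Fin 4 → ℤ} (hx : x ∈ X) (hy : y ∈ X) (hxy : bf A x y = 0) :
    OnQ ν (P *ᵥ vc ℝ x) (P *ᵥ vc ℝ y) := by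
  refine ⟨?_, ?_, ?_⟩
  · rw [← h.bf_eq, h.iso x hx, Int.cast_zero]
  · rw [← h.bf_eq, hxy, Int.cast_zero]
  · rw [← h.bf_eq, h.iso y hy, Int.cast_zero]

theorem richb_trans {u a b p q : Fin 4 → ℝ} (hu : ∃ s t : ℝ, u = s • a + t • b)
    (ha : ∃ s t : ℝ, a = s • p + t • q) (hb : ∃ s t : ℝ, b = s • p + t • q) :
    ∃ s t : ℝ, u = s • p + t • q := by
  obtain ⟨s, t, rfl⟩ := hu
  obtain ⟨s1, t1, rfl⟩ := ha
  obtain ⟨s2, t2, rfl⟩ := hb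
  exact ⟨s * s1 + t * s2, s * t1 + t * t2, by module⟩

theorem richb_inv {u a b p q : Fin 4 → ℝ} (hn : NP a b) (hu : ∃ s t : ℝ, u = s • p + t • q)
    (ha : ∃ s t : ℝ, a = s • p + t • q) (hb : ∃ s t : ℝ, b = s • p + t • q) :
    ∃ s t : ℝ, u = s • a + t • b := by
  obtain ⟨s, t, rfl⟩ := hu
  obtain ⟨s1, t1, rfl⟩ := ha
  obtain ⟨s2, t2, rfl⟩ := hb
  have hpos := ar_pos.2 hn
  rw [ar_comb] at hpos
  have hD : s1 * t2 - t1 * s2 ≠ 0 := by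
    intro h0
    rw [h0, abs_zero, zero_mul] at hpos
    exact lt_irrefl _ hpos
  obtain ⟨e, he⟩ : ∃ e : ℝ, (s1 * t2 - t1 * s2) * e = 1 := ⟨_, mul_inv_cancel₀ hD⟩
  refine ⟨(s * t2 - t * s2) * e, (t * s1 - s * t1) * e, ?_⟩
  funext i
  simp only [Pi.add_apply, Pi.smul_apply, smul_eq_mul]
  linear_combination (-(s * p i + t * q i)) * he

/-- The set `C` consists of the points of `X` on a line of the quadric, and has two points. -/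
def richbLine (P : Matrix (Fin 4) (Fin 4) ℝ) (ν : Fin 4 → ℝ) (X C : Finset (Fin 4 → ℤ)) : Prop :=
  ∃ p q : Fin 4 → ℝ, OnQ ν p q ∧ (∃ x ∈ C, ∃ y ∈ C, x ≠ y) ∧
    ∀ y, y ∈ C ↔ y ∈ X ∧ ∃ s t : ℝ, P *ᵥ vc ℝ y = s • p + t • q

theorem richb_line {A : Matrix (Fin 4) (Fin 4) ℤ} {P : Matrix (Fin 4) (Fin 4) ℝ}
    {ν : Fin 4 → ℝ} {X : Finset (Fin 4 → ℤ)} {N B H : ℝ} (h : QD A P ν X N B H) (h3 : ν 3 ≠ 0)
    {C : Finset (Fin 4 → ℤ)} (hC : richbLine P ν X C) :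
    ∃ (l : ℝ) (a b a' b' : Fin 4 → ℤ), OnLine A P ν l C a b a' b' ∧
      ∀ y ∈ X, (∃ s t : ℝ, P *ᵥ vc ℝ y = s • (P *ᵥ vc ℝ a) + t • (P *ᵥ vc ℝ b)) → y ∈ C := by
  classical
  obtain ⟨p, q, hq, ⟨x0, hx0, y0, hy0, hne0⟩, hmem⟩ := hC
  obtain ⟨⟨a, b⟩, hab, hmin⟩ := Finset.exists_min_image ((C ×ˢ C).filter fun z => z.1 ≠ z.2)
    (fun z => ar (P *ᵥ vc ℝ z.1) (P *ᵥ vc ℝ z.2))
    ⟨(x0, y0), Finset.mem_filter.2 ⟨Finset.mem_product.2 ⟨hx0, hy0⟩, hne0⟩⟩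
  obtain ⟨⟨a', b'⟩, hab', hmax⟩ := Finset.exists_max_image (C ×ˢ C)
    (fun z => ar (P *ᵥ vc ℝ z.1) (P *ᵥ vc ℝ z.2)) ⟨(x0, y0), Finset.mem_product.2 ⟨hx0, hy0⟩⟩
  obtain ⟨hab1, hne⟩ := Finset.mem_filter.1 hab
  obtain ⟨ha, hb⟩ := Finset.mem_product.1 hab1
  obtain ⟨ha', hb'⟩ := Finset.mem_product.1 hab'
  have horth : ∀ x ∈ C, ∀ y ∈ C, bf A x y = 0 := by
    intro x hx y hy
    obtain ⟨s, t, e⟩ := ((hmem x).1 hx).2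
    obtain ⟨s', t', e'⟩ := ((hmem y).1 hy).2
    have := h.bf_eq x y
    rw [e, e', richb_orth hq] at this
    exact_mod_cast this
  have haX := ((hmem a).1 ha).1
  have hbX := ((hmem b).1 hb).1
  have hn := richb_np h haX hbX hne
  obtain ⟨l, hl1, hl2⟩ := rul_exists (richb_ne h h3) (richb_onq h haX hbX (horth a ha b hb)) hn
  refine ⟨l, a, b, a', b', ⟨ha, hb, ha', hb', hne, hl2, hl1, horth, fun x hx => ?_,
    fun x hx y hy hxy => ?_, fun x hx y hy => ?_⟩, fun y hy hs => ?_⟩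
  · exact richb_inv hn ((hmem x).1 hx).2 ((hmem a).1 ha).2 ((hmem b).1 hb).2
  · exact hmin (x, y) (Finset.mem_filter.2 ⟨Finset.mem_product.2 ⟨hx, hy⟩, hxy⟩)
  · exact hmax (x, y) (Finset.mem_product.2 ⟨hx, hy⟩)
  · exact (hmem y).2 ⟨hy, richb_trans hs ((hmem a).1 ha).2 ((hmem b).1 hb).2⟩

theorem richb_dd {A : Matrix (Fin 4) (Fin 4) ℤ} {P : Matrix (Fin 4) (Fin 4) ℝ}
    {ν : Fin 4 → ℝ} {X : Finset (Fin 4 → ℤ)} {N B H : ℝ} (h : QD A P ν X N B H)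
    (a b a' b' : Fin 4 → ℤ) : ((dd A a b a' b' : ℤ) : ℝ) = dd (Matrix.diagonal ν)
      (P *ᵥ vc ℝ a) (P *ᵥ vc ℝ b) (P *ᵥ vc ℝ a') (P *ᵥ vc ℝ b') := by
  unfold dd
  push_cast
  simp only [h.bf_eq]

theorem richb_sub {A : Matrix (Fin 4) (Fin 4) ℤ} {P : Matrix (Fin 4) (Fin 4) ℝ}
    {ν : Fin 4 → ℝ} {X : Finset (Fin 4 → ℤ)} {N B H : ℝ} (h : QD A P ν X N B H) (h3 : ν 3 ≠ 0)
    {C D : Finset (Fin 4 → ℤ)} {l : ℝ} {a b a' b' c d c' d' : Fin 4 → ℤ} (hCX : C ⊆ X)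
    (hDX : D ⊆ X) (hC : OnLine A P ν l C a b a' b') (hD : OnLine A P ν l D c d c' d')
    (hcl : ∀ y ∈ X, (∃ s t : ℝ, P *ᵥ vc ℝ y = s • (P *ᵥ vc ℝ a) + t • (P *ᵥ vc ℝ b)) → y ∈ C)
    (h0 : dd A a b c d = 0) : D ⊆ C := by
  have h0' := richb_dd h a b c d
  rw [h0, Int.cast_zero] at h0'
  obtain ⟨e1, e2⟩ := rul_plane (richb_ne h h3)
    (richb_onq h (hCX hC.ha) (hCX hC.hb) (hC.orth a hC.ha b hC.hb))
    (richb_np h (hCX hC.ha) (hCX hC.hb) hC.ne)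
    (richb_onq h (hDX hD.ha) (hDX hD.hb) (hD.orth c hD.ha d hD.hb))
    (richb_np h (hDX hD.ha) (hDX hD.hb) hD.ne) hC.rul hD.rul hC.sq h0'.symm
  intro y hy
  exact hcl y (hDX hy) (richb_trans (hD.plane y hy) e1 e2)

/-- The points with an orthogonal partner are covered by lines of two rulings, and two different
lines of one ruling have a nonzero pairing determinant. -/
theorem exists_lines {A : Matrix (Fin 4) (Fin 4) ℤ} {P : Matrix (Fin 4) (Fin 4) ℝ}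
    {ν : Fin 4 → ℝ} {X : Finset (Fin 4 → ℤ)} {N B H : ℝ} (h : QD A P ν X N B H) (h3 : ν 3 ≠ 0)
    (hX : ∀ x ∈ X, ∃ y ∈ X, x ≠ y ∧ bf A x y = 0) :
    ∃ (l : ℝ) (S : Finset (Finset (Fin 4 → ℤ))) (s : Finset (Fin 4 → ℤ) → ℝ)
      (a b a' b' : Finset (Fin 4 → ℤ) → Fin 4 → ℤ),
      (∀ x ∈ X, ∃ C ∈ S, x ∈ C) ∧
      (∀ C ∈ S, C ⊆ X ∧ (s C = l ∨ s C = -l) ∧ OnLine A P ν (s C) C (a C) (b C) (a' C) (b' C)) ∧
      ∀ C ∈ S, ∀ D ∈ S, C ≠ D → s C = s D → dd A (a C) (b C) (a D) (b D) ≠ 0 := by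
  classical
  have H0 : ∀ C : Finset (Fin 4 → ℤ), ∃ (l : ℝ) (a b a' b' : Fin 4 → ℤ), richbLine P ν X C →
      OnLine A P ν l C a b a' b' ∧ ∀ y ∈ X,
        (∃ s t : ℝ, P *ᵥ vc ℝ y = s • (P *ᵥ vc ℝ a) + t • (P *ᵥ vc ℝ b)) → y ∈ C := by
    intro C
    by_cases hC : richbLine P ν X C
    · obtain ⟨l, a, b, a', b', h1⟩ := richb_line h h3 hC
      exact ⟨l, a, b, a', b', fun _ => h1⟩
    · exact ⟨0, 0, 0, 0, 0, fun h1 => absurd h1 hC⟩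
  choose s a b a' b' hs using H0
  refine ⟨√(ν 0 * ν 1 * ν 2 / ν 3), X.powerset.filter (richbLine P ν X), s, a, b, a', b',
    fun x hx => ?_, fun C hC => ?_, fun C hC D hD hne hsd h0 => hne ?_⟩
  · obtain ⟨y, hy, hxy, h0⟩ := hX x hx
    have hxm : x ∈ X.filter fun z => ∃ s t : ℝ,
        P *ᵥ vc ℝ z = s • (P *ᵥ vc ℝ x) + t • (P *ᵥ vc ℝ y) :=
      Finset.mem_filter.2 ⟨hx, 1, 0, by module⟩
    have hym : y ∈ X.filter fun z => ∃ s t : ℝ,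
        P *ᵥ vc ℝ z = s • (P *ᵥ vc ℝ x) + t • (P *ᵥ vc ℝ y) :=
      Finset.mem_filter.2 ⟨hy, 0, 1, by module⟩
    refine ⟨_, Finset.mem_filter.2 ⟨Finset.mem_powerset.2 (Finset.filter_subset _ _),
      P *ᵥ vc ℝ x, P *ᵥ vc ℝ y, richb_onq h hx hy h0, ⟨x, hxm, y, hym, hxy⟩,
      fun z => Finset.mem_filter⟩, hxm⟩
  · obtain ⟨hCX, hL⟩ := Finset.mem_filter.1 hC
    refine ⟨Finset.mem_powerset.1 hCX, ?_, (hs C hL).1⟩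
    have e : ν 0 * ν 1 * ν 2 / ν 3 = s C ^ 2 := by
      rw [← (hs C hL).1.sq]; field_simp
    rw [e, Real.sqrt_sq_eq_abs]
    rcases le_total 0 (s C) with h1 | h1
    · left; rw [abs_of_nonneg h1]
    · right; rw [abs_of_nonpos h1, neg_neg]
  · obtain ⟨hCX, hLC⟩ := Finset.mem_filter.1 hC
    obtain ⟨hDX, hLD⟩ := Finset.mem_filter.1 hD
    rw [Finset.mem_powerset] at hCX hDX
    have h1 := (hs C hLC).1
    have h2 := (hs D hLD).1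
    rw [← hsd] at h2
    have h0' : dd A (a D) (b D) (a C) (b C) = 0 := by
      rw [← h0]
      unfold dd
      rw [bf_comm h.symm (a D) (a C), bf_comm h.symm (b D) (b C), bf_comm h.symm (a D) (b C),
        bf_comm h.symm (b D) (a C)]
      ring
    exact Finset.Subset.antisymm (richb_sub h h3 hDX hCX h2 h1 (hs D hLD).2 h0')
      (richb_sub h h3 hCX hDX h1 h2 (hs C hLC).2 h0)

end Pool.Agent.Lib.MP_af4c59_nt.H57
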