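import Pool.Agent.Lib.MP_af4c59_nt.H57Pent

/-!
Existence of a basis over the quadratic ring.
-/

set_option autoImplicit false

namespace Pool.Agent.Lib.MP_af4c59_nt.H57

open Matrix

open NumberField

variable {L : Type} [Field L] [NumberField L] {φ : Fin 5 → (L →+* ℂ)}

/-- Vectors of Fourier coefficients with the action of the quadratic ring. -/
def SpanaW : Type := Fin 5 → ℂ

noncomputable instance : AddCommGroup SpanaW := inferInstanceAs (AddCommGroup (Fin 5 → ℂ))

noncomputable instance : Module O SpanaW where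
  smul a X := fun j => ec j a * X j
  one_smul X := funext fun j => by
    change ec j 1 * X j = X j
    rw [map_one, one_mul]
  mul_smul a b X := funext fun j => by
    change ec j (a * b) * X j = ec j a * (ec j b * X j)
    rw [map_mul, mul_assoc]
  smul_zero a := funext fun j => mul_zero (ec j a)
  smul_add a X Y := funext fun j => mul_add (ec j a) (X j) (Y j)
  add_smul a b X := funext fun j => by
    change ec j (a + b) * X j = ec j a * X j + ec j b * X j
    rw [map_add, add_mul]
  zero_smul X := funext fun j => by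
    change ec j 0 * X j = 0
    rw [map_zero, zero_mul]

instance : Module.IsTorsionFree O SpanaW :=
  Module.IsTorsionFree.of_smul_eq_zero fun a X h => by
    by_cases ha : a = 0
    · exact Or.inl ha
    · refine Or.inr (funext fun j => ?_)
      have h1 : ec j a * X j = 0 := congrFun h j
      have h2 : ec j a ≠ 0 := fun h0 => ha (ec_inj j (h0.trans (map_zero _).symm))
      exact (mul_eq_zero.1 h1).resolve_left h2

/-- The coefficients of nonzero frequency. -/
noncomputable def spanaT (φ : Fin 5 → (L →+* ℂ)) : 𝓞 L →+ SpanaW :=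
  AddMonoidHom.mk' (fun x => fun j => if j = 0 then 0 else hat φ x j) fun x y => funext fun j => by
    change (if j = 0 then 0 else hat φ (x + y) j) =
      (if j = 0 then 0 else hat φ x j) + if j = 0 then 0 else hat φ y j
    rw [hat_add]
    split_ifs <;> simp

theorem spanaT_apply (x : 𝓞 L) {j : Fin 5} (hj : j ≠ 0) : spanaT φ x j = hat φ x j := if_neg hj

theorem spanaT_zero (x : 𝓞 L) : spanaT φ x 0 = 0 := rfl

/-- The image of the ring of integers. -/
noncomputable def spanaM (h : Pent φ) : Submodule O SpanaW where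
  carrier := Set.range (spanaT φ)
  add_mem' := by
    rintro _ _ ⟨x, rfl⟩ ⟨y, rfl⟩
    exact ⟨x + y, map_add _ x y⟩
  zero_mem' := ⟨0, map_zero _⟩
  smul_mem' := by
    rintro a _ ⟨x, rfl⟩
    obtain ⟨z, hz⟩ := h.act a 0 x x
    refine ⟨z, funext fun j => ?_⟩
    change spanaT φ z j = ec j a * spanaT φ x j
    by_cases hj : j = 0
    · rw [hj, spanaT_zero, spanaT_zero, mul_zero]
    · rw [spanaT_apply z hj, spanaT_apply x hj, hz j hj]
      simp [lc]

theorem spana_two {M : Type} [AddCommGroup M] [Module O M] [Module.Finite O M] [Module.Free O M]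
    (h : Module.finrank O M ≤ 2) : ∃ u v : M, ∀ w, ∃ a b : O, w = a • u + b • v := by
  obtain ⟨n, hn⟩ : ∃ n, Module.finrank O M = n := ⟨_, rfl⟩
  have b := Module.finBasisOfFinrankEq O M hn
  rw [hn] at h
  interval_cases n
  · refine ⟨0, 0, fun w => ⟨0, 0, ?_⟩⟩
    rw [← b.sum_repr w]
    simp
  · refine ⟨b 0, 0, fun w => ⟨b.repr w 0, 0, ?_⟩⟩
    conv_lhs => rw [← b.sum_repr w]
    simp
  · refine ⟨b 0, b 1, fun w => ⟨b.repr w 0, b.repr w 1, ?_⟩⟩
    conv_lhs => rw [← b.sum_repr w]
    rw [Fin.sum_univ_two]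

theorem span_exists (h : Pent φ) : ∃ x y : 𝓞 L, Span φ 1 x y := by
  let T : 𝓞 L →ₗ[ℤ] spanaM h :=
    (AddMonoidHom.mk' (fun x => (⟨spanaT φ x, x, rfl⟩ : spanaM h)) fun x y =>
      Subtype.ext (map_add (spanaT φ) x y)).toIntLinearMap
  have hT : Function.Surjective T := by
    rintro ⟨_, x, rfl⟩
    exact ⟨x, rfl⟩
  have : Module.Finite ℤ (spanaM h) := Module.Finite.of_surjective T hT
  have : Module.Finite O (spanaM h) := Module.Finite.of_restrictScalars_finite ℤ O _
  have h1 : Module.finrank ℤ (spanaM h) ≤ 5 := by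
    have := LinearMap.finrank_le_finrank_of_surjective hT
    rwa [RingOfIntegers.rank, h.deg] at this
  have h2 := Module.finrank_mul_finrank ℤ O (spanaM h)
  rw [QuadraticAlgebra.finrank_eq_two] at h2
  obtain ⟨⟨_, x, rfl⟩, ⟨_, y, rfl⟩, huv⟩ := spana_two (M := spanaM h) (by omega)
  refine ⟨x, y, fun z => ?_⟩
  obtain ⟨a, b, hab⟩ := huv ⟨spanaT φ z, z, rfl⟩
  refine ⟨a, b, fun j hj => ?_⟩
  have h3 : spanaT φ z j = ec j a * spanaT φ x j + ec j b * spanaT φ y j :=
    congrFun (congrArg Subtype.val hab) j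
  rw [spanaT_apply z hj, spanaT_apply x hj, spanaT_apply y hj] at h3
  simpa [lc] using h3

end Pool.Agent.Lib.MP_af4c59_nt.H57
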