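import Pool.Agent.Lib.MP_af4c59_nt.H57Lin

/-!
A bounded real basis adapted to a subspace.
-/

set_option autoImplicit false

namespace Pool.Agent.Lib.MP_af4c59_nt.H57

open Matrix

theorem twostep_sel (f : Fin 4 → Fin 16) (M : Matrix (Fin 16) (Fin 4) ℝ) :
    (1 : Matrix (Fin 16) (Fin 16) ℝ).submatrix f id * M = M.submatrix f id := by
  ext i j
  simp [Matrix.mul_apply, Matrix.one_apply]

theorem twostep_sub (f : Fin 4 → Fin 16) (M : Matrix (Fin 16) (Fin 4) ℝ)
    (N : Matrix (Fin 4) (Fin 4) ℝ) : (M * N).submatrix f id = M.submatrix f id * N := rfl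

theorem twostep_cancel {M P : Matrix (Fin 4) (Fin 4) ℝ} (hP : P.det ≠ 0) (h : M * P = 0) :
    M = 0 := by
  rw [← Matrix.mul_nonsing_inv_cancel_right P M (isUnit_iff_ne_zero.2 hP), h, Matrix.zero_mul]

theorem twostep_rk {L : Matrix (Fin 4) (Fin 16) ℝ} {M : Matrix (Fin 16) (Fin 4) ℝ}
    (h : L * M = 1) : Rk 4 M := by
  refine Rk.of_mul_left (X := L) ⟨id, id, ?_⟩
  rw [h, Matrix.submatrix_id_id, Matrix.det_one]
  exact one_ne_zero

theorem twostep_one (f : Fin 4 → Fin 16) :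
    Ent ((1 : Matrix (Fin 16) (Fin 16) ℝ).submatrix f id) 1 := by
  intro i j
  rw [Matrix.submatrix_apply, Matrix.one_apply]
  split_ifs <;> simp

theorem twostep_ent {f : Fin 4 → Fin 16} (hf : Function.Injective f)
    {T : Matrix (Fin 4) (Fin 4) ℝ} (hT : Ent T 1) :
    Ent (T * (1 : Matrix (Fin 16) (Fin 16) ℝ).submatrix f id) 1 := by
  intro i j
  rw [Matrix.mul_apply]
  by_cases h : ∃ k, f k = j
  · obtain ⟨k, rfl⟩ := h
    rw [Finset.sum_eq_single k]
    · rw [Matrix.submatrix_apply, id, Matrix.one_apply_eq, mul_one]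
      exact hT i k
    · intro k' _ hk
      rw [Matrix.submatrix_apply, id, Matrix.one_apply_ne (hf.ne hk), mul_zero]
    · exact fun a => absurd (Finset.mem_univ _) a
  · rw [Finset.sum_eq_zero, abs_zero]
    · exact zero_le_one
    · intro k _
      rw [Matrix.submatrix_apply, id, Matrix.one_apply_ne fun e => h ⟨k, e⟩, mul_zero]

/-- A real basis with bounded entries and a bounded left inverse, adapted to the first block. -/
theorem two_step (J : Matrix (Fin 16) (Fin 4 ⊕ Fin 4) ℝ) (Lf : Matrix (Fin 4 ⊕ Fin 4) (Fin 16) ℝ)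
    (h : Lf * J = 1) :
    ∃ (f : Fin 4 → Fin 16) (Z : Matrix (Fin 16) (Fin 4 ⊕ Fin 4) ℝ)
      (Lz : Matrix (Fin 4 ⊕ Fin 4) (Fin 16) ℝ) (Q P₁ : Matrix (Fin 4) (Fin 4) ℝ),
      (J.toCols₁.submatrix f id).det ≠ 0 ∧ P₁.det ≠ 0 ∧ Ent Z 1 ∧ Ent Lz 2 ∧ Lz * Z = 1 ∧
      J = Z * Matrix.fromBlocks (J.toCols₁.submatrix f id) Q 0 P₁ := by
  rw [← Matrix.fromRows_toRows Lf, ← Matrix.fromCols_toCols J, Matrix.fromRows_mul_fromCols,
    ← Matrix.fromBlocks_one, Matrix.fromBlocks_inj] at h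
  obtain ⟨h11, -, h21, h22⟩ := h
  obtain ⟨f, R₁, d₁, e₁, j₁, s₁⟩ := auerbach J.toCols₁ (twostep_rk h11)
  have a : Lf.toRows₂ * R₁ = 0 := twostep_cancel d₁ (by rw [Matrix.mul_assoc, ← j₁, h21])
  obtain ⟨K, hK⟩ : ∃ K, K = J.toCols₂ - R₁ * J.toCols₂.submatrix f id := ⟨_, rfl⟩
  have b : Lf.toRows₂ * K = 1 := by
    rw [hK, Matrix.mul_sub, ← Matrix.mul_assoc, a, h22, Matrix.zero_mul, sub_zero]
  have c : K.submatrix f id = 0 := by
    rw [hK, ← twostep_sel, Matrix.mul_sub, twostep_sel, twostep_sel, twostep_sub, s₁,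
      Matrix.one_mul, sub_self]
  obtain ⟨g, R₂, d₂, e₂, j₂, s₂⟩ := auerbach K (twostep_rk b)
  have s₃ : R₂.submatrix f id = 0 := twostep_cancel d₂ (by rw [← twostep_sub, ← j₂, c])
  have hf : Function.Injective f := by
    intro k k' e
    by_contra ne
    have a1 : R₁ (f k) k = 1 := (congrFun (congrFun s₁ k) k).trans (Matrix.one_apply_eq k)
    have a2 : R₁ (f k') k = 0 :=
      (congrFun (congrFun s₁ k') k).trans (Matrix.one_apply_ne (Ne.symm ne))
    rw [e, a2] at a1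
    exact zero_ne_one a1
  refine ⟨f, Matrix.fromCols R₁ R₂,
    Matrix.fromRows ((1 : Matrix (Fin 16) (Fin 16) ℝ).submatrix f id)
      ((1 : Matrix (Fin 16) (Fin 16) ℝ).submatrix g id -
        R₁.submatrix g id * (1 : Matrix (Fin 16) (Fin 16) ℝ).submatrix f id),
    J.toCols₂.submatrix f id, K.submatrix g id, d₁, d₂, ?_, ?_, ?_, ?_⟩
  · rintro i (j | j)
    · exact e₁ i j
    · exact e₂ i j
  · rintro (i | i) j
    · exact (twostep_one f i j).trans one_le_two
    · rw [Matrix.fromRows_apply_inr, Matrix.sub_apply]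
      have a1 := twostep_one g i j
      have a2 := twostep_ent hf (T := R₁.submatrix g id) (fun i j => e₁ (g i) j) i j
      exact (abs_sub _ _).trans (by linarith)
  · rw [Matrix.fromRows_mul_fromCols, Matrix.sub_mul, Matrix.sub_mul, Matrix.mul_assoc,
      Matrix.mul_assoc, twostep_sel, twostep_sel, twostep_sel, twostep_sel, s₁, s₂, s₃,
      Matrix.mul_one, Matrix.mul_zero, sub_self, sub_zero, Matrix.fromBlocks_one]
  · rw [Matrix.fromCols_mul_fromBlocks, Matrix.mul_zero, add_zero, ← j₁, ← j₂, hK,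
      add_sub_cancel, Matrix.fromCols_toCols]

end Pool.Agent.Lib.MP_af4c59_nt.H57
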