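import Pool.Agent.Lib.MP_af4c59_nt.H57VCa

/-!
Counting in natural coordinates.
-/

set_option autoImplicit false

namespace Pool.Agent.Lib.MP_af4c59_nt.H57

open Matrix

/-- At most `J` objects have the property `Q`. -/
def VcFew {κ : Type} (Q : κ → Prop) (J : ℝ) : Prop :=
  ∀ T : Finset κ, (∀ k ∈ T, Q k) → (T.card : ℝ) ≤ J

theorem VcFew.nonneg {κ : Type} {Q : κ → Prop} {J : ℝ} (h : VcFew Q J) : 0 ≤ J := by
  simpa using h ∅ (by simp)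

theorem VcFew.pair {κ ι : Type} {Q : κ → Prop} {R : κ → ι → Prop} {J n : ℝ} [Inhabited κ]
    (hQ : VcFew Q J) (h : ∀ k, VcFew (R k) n) :
    VcFew (fun p : κ × ι => Q p.1 ∧ R p.1 p.2) (J * n) := by
  classical
  intro T hT
  refine card_le_fib Prod.fst (T.image Prod.fst) (fun x hx => Finset.mem_image_of_mem _ hx)
    (hQ _ ?_) (h default).nonneg ?_
  · intro k hk
    obtain ⟨w, hw, rfl⟩ := Finset.mem_image.1 hk
    exact (hT w hw).1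
  · intro k _ C hC hk
    have h1 : (C.image Prod.snd).card = C.card := Finset.card_image_of_injOn fun x hx y hy hxy =>
      Prod.ext ((hk x hx).trans (hk y hy).symm) hxy
    rw [← h1]
    refine h k _ fun l hl => ?_
    obtain ⟨w, hw, rfl⟩ := Finset.mem_image.1 hl
    rw [← hk w hw]
    exact (hT w (hC hw)).2

theorem VcFew.inj {κ ι : Type} {Q : κ → Prop} {P : ι → Prop} {J : ℝ} (hQ : VcFew Q J) (c : ι → κ)
    (hc : ∀ w, P w → Q (c w)) (hi : ∀ w w', P w → P w' → c w = c w' → w = w') : VcFew P J := by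
  classical
  intro T hT
  have h1 : (T.image c).card = T.card := Finset.card_image_of_injOn fun x hx y hy hxy =>
    hi x y (hT x hx) (hT y hy) hxy
  rw [← h1]
  refine hQ _ fun l hl => ?_
  obtain ⟨w, hw, rfl⟩ := Finset.mem_image.1 hl
  exact hc w (hT w hw)

theorem VcFew.or {κ : Type} {P Q : κ → Prop} {J J' : ℝ} (hP : VcFew P J) (hQ : VcFew Q J') :
    VcFew (fun k => P k ∨ Q k) (J + J') := by
  classical
  intro T hT
  have h1 := hP (T.filter P) fun k hk => (Finset.mem_filter.1 hk).2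
  have h2 := hQ (T.filter fun k => ¬P k) fun k hk =>
    (hT k (Finset.mem_filter.1 hk).1).resolve_left (Finset.mem_filter.1 hk).2
  have h3 := Finset.card_filter_add_card_filter_not (s := T) P
  have h4 : (T.card : ℝ) = (T.filter P).card + (T.filter fun k => ¬P k).card := by
    exact_mod_cast h3.symm
  linarith

theorem vc_of_mem {κ : Type} {Q : κ → Prop} {J : ℝ} (S : Finset κ) (hS : (S.card : ℝ) ≤ J)
    (h : ∀ k, Q k → k ∈ S) : VcFew Q J := fun T hT =>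
  le_trans (by exact_mod_cast Finset.card_le_card fun k hk => h k (hT k hk)) hS

theorem vc_sq {R : Type} [CommRing R] [IsDomain R] {c : R} (hc : c ≠ 0) (D : R) :
    VcFew (fun x : R => c * (x * x) = D) 2 := by
  classical
  by_cases h : ∃ x₀ : R, c * (x₀ * x₀) = D
  · obtain ⟨x₀, h0⟩ := h
    refine vc_of_mem {x₀, -x₀} (by exact_mod_cast Finset.card_le_two) fun x hx => ?_
    have h1 := mul_self_eq_mul_self_iff.1 (mul_left_cancel₀ hc (hx.trans h0.symm))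
    simpa using h1
  · exact vc_of_mem ∅ (by simp) fun x hx => (h ⟨x, hx⟩).elim

theorem vc_OD {g : ℤ} (hg : 0 < g) {Y : ℝ} (hY : (g : ℝ) ≤ Y) :
    VcFew (fun a : O => OD g a ∧ OB a Y) (9 * (Y / g) ^ 2) := by
  obtain ⟨S, hS, h⟩ := card_OD hg hY
  exact vc_of_mem S hS fun a ha => h a ha.1 ha.2

theorem vc_ZD {g : ℤ} (hg : 0 < g) {Y : ℝ} (hY : (g : ℝ) ≤ Y) :
    VcFew (fun a : ℤ => g ∣ a ∧ |(a : ℝ)| ≤ Y) (3 * (Y / g)) := by
  obtain ⟨S, hS, h⟩ := card_ZD hg hY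
  exact vc_of_mem S hS fun a ha => h a ha.1 ha.2

theorem vc_OB {Z : ℝ} (hZ : 1 ≤ Z) : VcFew (fun a : O => OB a Z) (9 * Z ^ 2) := by
  have h := vc_OD (g := 1) one_pos (Y := Z) (by simpa using hZ)
  rw [Int.cast_one, div_one] at h
  exact fun T hT => h T fun k hk => ⟨⟨one_dvd _, one_dvd _⟩, hT k hk⟩

theorem vc_ZB {Z : ℝ} (hZ : 1 ≤ Z) : VcFew (fun a : ℤ => |(a : ℝ)| ≤ Z) (3 * Z) := by
  have h := vc_ZD (g := 1) one_pos (Y := Z) (by simpa using hZ)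
  rw [Int.cast_one, div_one] at h
  exact fun T hT => h T fun k hk => ⟨one_dvd _, hT k hk⟩

theorem vc_ext {w w' : Nat6} (h0 : w.f0 = w'.f0) (h1 : w.f1 = w'.f1) (h2 : w.f2 = w'.f2)
    (h3 : w.h12 = w'.h12) (h4 : w.h11 = w'.h11) (h5 : w.h22 = w'.h22) : w = w' := by
  cases w
  cases w'
  simp only [Nat6.mk.injEq]
  exact ⟨h0, h1, h2, h3, h4, h5⟩

section Cases

variable {a b g : ℤ} {Y Z u F₁ F₃ : ℝ}

/-- The case of two nonzero diagonal terms. -/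
theorem vc_caseA (hg : 0 < g) (hY : (g : ℝ) ≤ Y) (hZ : 1 ≤ Z)
    (r1 : ∀ m : ℤ, VcFew (fun x : O => OB x Z ∧ b * QuadraticAlgebra.norm x = m) F₁)
    (r3 : ∀ c : ℤ, VcFew (fun p : ℤ × ℤ => |(p.1 : ℝ)| ≤ Z ∧ |(p.2 : ℝ)| ≤ Z ∧ p.1 * p.2 = c ∧
      p.1 * p.2 ≠ 0) F₃) :
    VcFew (fun w : Nat6 => VCond a b g Y Z u w ∧ w.f0 * w.f2 = 0 ∧ w.h11 * w.h22 ≠ 0)
      (9 * (Y / g) ^ 2 * (2 * (3 * (Y / g) * (F₁ * (F₃ * (9 * Z ^ 2 + 9 * Z ^ 2)))))) := by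
  have h0 : VcFew (fun p : O × O => (p.1 = 0 ∧ OB p.2 Z) ∨ (p.2 = 0 ∧ OB p.1 Z))
      (9 * Z ^ 2 + 9 * Z ^ 2) :=
    VcFew.or ((vc_OB hZ).inj Prod.snd (fun _ h => h.2) fun _ _ h h' e =>
      Prod.ext (h.1.trans h'.1.symm) e) ((vc_OB hZ).inj Prod.fst (fun _ h => h.2) fun _ _ h h' e =>
      Prod.ext e (h.1.trans h'.1.symm))
  have h1 := (vc_OD hg hY).pair fun D => (vc_sq (c := (-1 : O)) (by simp) D).pair fun f1 =>
    (vc_ZD hg hY).pair fun E => (r1 (E - a * QuadraticAlgebra.norm f1)).pair fun h12 =>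
      (r3 (QuadraticAlgebra.trace (-om * D) + QuadraticAlgebra.norm h12)).pair fun _ => h0
  refine h1.inj (fun w => (w.f0 * w.f2 - w.f1 * w.f1, w.f1,
    a * QuadraticAlgebra.norm w.f1 + b * QuadraticAlgebra.norm w.h12, w.h12, (w.h11, w.h22),
    (w.f0, w.f2))) ?_ ?_
  · rintro w ⟨h, hf, hh⟩
    refine ⟨⟨h.dD, h.bD⟩, ?_, ⟨h.dE, h.bE⟩, ⟨h.b12, ?_⟩, ⟨h.b11, h.b22, ?_, hh⟩, ?_⟩
    · simp only [hf]
      ring
    · simp only
      ring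
    · simp only [h.q]
      ring
    · rcases mul_eq_zero.1 hf with h' | h'
      · exact Or.inl ⟨h', h.b2⟩
      · exact Or.inr ⟨h', h.b0⟩
  · intro w w' _ _ e
    simp only [Prod.mk.injEq] at e
    obtain ⟨-, e1, -, e2, ⟨e3, e4⟩, e5, e6⟩ := e
    exact vc_ext e5 e1 e6 e2 e3 e4

theorem vc_norm12 {w : Nat6} (h : VCond a b g Y Z u w) (hh : w.h11 * w.h22 = 0) :
    b * QuadraticAlgebra.norm w.h12 =
      -(b * QuadraticAlgebra.trace (-om * (w.f0 * w.f2 - w.f1 * w.f1))) := by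
  rw [h.q, hh]
  ring

theorem vc_caseB1 (hg : 0 < g) (hY : (g : ℝ) ≤ Y) (hZ : 1 ≤ Z)
    (r1 : ∀ m : ℤ, VcFew (fun x : O => OB x Z ∧ b * QuadraticAlgebra.norm x = m) F₁)
    (r2 : ∀ m : ℤ, VcFew (fun x : O => OB x Z ∧ a * QuadraticAlgebra.norm x = m) F₁) :
    VcFew (fun w : Nat6 => VCond a b g Y Z u w ∧ w.f0 = 0 ∧ w.h11 * w.h22 = 0)
      (9 * (Y / g) ^ 2 * (2 * (F₁ * (3 * (Y / g) * (3 * Z * (3 * Z * F₁)))))) := by
  have h1 := (vc_OD hg hY).pair fun D => (vc_sq (c := (-1 : O)) (by simp) D).pair fun _ =>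
    (r1 (-(b * QuadraticAlgebra.trace (-om * D)))).pair fun _ => (vc_ZD hg hY).pair fun E =>
      (vc_ZB hZ).pair fun _ => (vc_ZB hZ).pair fun h22 => r2 (E - b * h22 ^ 2)
  refine h1.inj (fun w => (w.f0 * w.f2 - w.f1 * w.f1, w.f1, w.h12,
    a * QuadraticAlgebra.norm w.f2 + b * w.h22 ^ 2, w.h11, w.h22, w.f2)) ?_ ?_
  · rintro w ⟨h, hf, hh⟩
    refine ⟨⟨h.dD, h.bD⟩, ?_, ⟨h.b12, vc_norm12 h hh⟩, ⟨h.dE2, h.bE2⟩, h.b11, h.b22, h.b2, ?_⟩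
    · simp only [hf]
      ring
    · simp only
      ring
  · intro w w' hw hw' e
    simp only [Prod.mk.injEq] at e
    obtain ⟨-, e1, e2, -, e3, e4, e6⟩ := e
    exact vc_ext (hw.2.1.trans hw'.2.1.symm) e1 e6 e2 e3 e4

theorem vc_caseB2 (hg : 0 < g) (hY : (g : ℝ) ≤ Y) (hZ : 1 ≤ Z) (hu : 1 ≤ u)
    (r1 : ∀ m : ℤ, VcFew (fun x : O => OB x Z ∧ b * QuadraticAlgebra.norm x = m) F₁)
    (r2 : ∀ m : ℤ, VcFew (fun x : O => OB x Z ∧ a * QuadraticAlgebra.norm x = m) F₁) :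
    VcFew (fun w : Nat6 => VCond a b g Y Z u w ∧ w.f2 = 0 ∧ w.h22 = 0)
      (9 * (Y / g) ^ 2 * (2 * (F₁ * (3 * (Y * u / g) * (3 * Z * F₁))))) := by
  have hg' : (0 : ℝ) < g := by exact_mod_cast hg
  have hY' : (g : ℝ) ≤ Y * u := hY.trans (le_mul_of_one_le_right (hg'.le.trans hY) hu)
  have h1 := (vc_OD hg hY).pair fun D => (vc_sq (c := (-1 : O)) (by simp) D).pair fun _ =>
    (r1 (-(b * QuadraticAlgebra.trace (-om * D)))).pair fun _ => (vc_ZD hg hY').pair fun E =>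
      (vc_ZB hZ).pair fun h11 => r2 (E - b * h11 ^ 2)
  refine h1.inj (fun w => (w.f0 * w.f2 - w.f1 * w.f1, w.f1, w.h12,
    a * QuadraticAlgebra.norm w.f0 + b * w.h11 ^ 2, w.h11, w.f0)) ?_ ?_
  · rintro w ⟨h, hf, hh⟩
    refine ⟨⟨h.dD, h.bD⟩, ?_, ⟨h.b12, vc_norm12 h (by rw [hh, mul_zero])⟩, ⟨h.dE0, h.bE0⟩, h.b11,
      h.b0, ?_⟩
    · simp only [hf]
      ring
    · simp only
      ring
  · intro w w' hw hw' e
    simp only [Prod.mk.injEq] at e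
    obtain ⟨-, e1, e2, -, e3, e6⟩ := e
    exact vc_ext e6 e1 (hw.2.1.trans hw'.2.1.symm) e2 e3 (hw.2.2.trans hw'.2.2.symm)

theorem vc_caseB3 (hb : b ≠ 0) (hg : 0 < g) (hY : (g : ℝ) ≤ Y) (hZ : 1 ≤ Z)
    (r1 : ∀ m : ℤ, VcFew (fun x : O => OB x Z ∧ b * QuadraticAlgebra.norm x = m) F₁) :
    VcFew (fun w : Nat6 => VCond a b g Y Z u w ∧ w.f2 = 0 ∧ w.h11 = 0)
      (9 * (Y / g) ^ 2 * (2 * (F₁ * (3 * (Y / g) * (2 * (9 * Z ^ 2)))))) := by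
  have h1 := (vc_OD hg hY).pair fun D => (vc_sq (c := (-1 : O)) (by simp) D).pair fun _ =>
    (r1 (-(b * QuadraticAlgebra.trace (-om * D)))).pair fun _ => (vc_ZD hg hY).pair fun E =>
      (vc_sq hb E).pair fun _ => vc_OB hZ
  refine h1.inj (fun w => (w.f0 * w.f2 - w.f1 * w.f1, w.f1, w.h12,
    a * QuadraticAlgebra.norm w.f2 + b * w.h22 ^ 2, w.h22, w.f0)) ?_ ?_
  · rintro w ⟨h, hf, hh⟩
    refine ⟨⟨h.dD, h.bD⟩, ?_, ⟨h.b12, vc_norm12 h (by rw [hh, zero_mul])⟩, ⟨h.dE2, h.bE2⟩, ?_,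
      h.b0⟩
    · simp only [hf]
      ring
    · simp only [hf, QuadraticAlgebra.norm_zero]
      ring
  · intro w w' hw hw' e
    simp only [Prod.mk.injEq] at e
    obtain ⟨-, e1, e2, -, e4, e6⟩ := e
    exact vc_ext e6 e1 (hw.2.1.trans hw'.2.1.symm) e2 (hw.2.2.trans hw'.2.2.symm) e4

end Cases

theorem vcB : ∃ f, SP f ∧ ∀ (a b g : ℤ) (Y Z u : ℝ) (S : Finset Nat6), a ≠ 0 → b ≠ 0 → 0 < g →
    (g : ℝ) ≤ Y → 1 ≤ Z → 1 ≤ u → (∀ w ∈ S, VCond a b g Y Z u w) →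
    (∀ w ∈ S, w.f0 * w.f2 = 0) → (S.card : ℝ) ≤ f Z * (Y / g) ^ 3 * (Z ^ 2 + Z * u) := by
  obtain ⟨f₁, hf₁, r1⟩ := rep1
  obtain ⟨f₃, hf₃, r3⟩ := rep3
  refine ⟨fun x => 972 * (f₁ x * f₃ x) + 486 * (f₁ x * f₁ x) + 972 * f₁ x,
    (((hf₁.mul hf₃).cmul (by norm_num)).add ((hf₁.mul hf₁).cmul (by norm_num))).add
      (hf₁.cmul (by norm_num)), ?_⟩
  intro a b g Y Z u S ha hb hg hY hZ hu hS h0
  have q1 : ∀ c : ℤ, c ≠ 0 → ∀ m : ℤ,
      VcFew (fun x : O => OB x Z ∧ c * QuadraticAlgebra.norm x = m) (f₁ Z) := fun c hc m T hT =>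
    r1 Z (m / c) T hZ fun x hx => ⟨(hT x hx).1, by
      rw [← (hT x hx).2, Int.mul_ediv_cancel_left _ hc]⟩
  have q3 : ∀ c : ℤ, VcFew (fun p : ℤ × ℤ => |(p.1 : ℝ)| ≤ Z ∧ |(p.2 : ℝ)| ≤ Z ∧ p.1 * p.2 = c ∧
      p.1 * p.2 ≠ 0) (f₃ Z) := fun c T hT => by
    by_cases hc : c = 0
    · have : T = ∅ := Finset.eq_empty_of_forall_notMem fun p hp =>
        (hT p hp).2.2.2 ((hT p hp).2.2.1.trans hc)
      rw [this]
      simpa using (hf₃.pos hZ).le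
    · exact r3 Z c T hZ hc fun p hp => ⟨(hT p hp).1, (hT p hp).2.1, (hT p hp).2.2.1⟩
  have hA := vc_caseA (a := a) (u := u) hg hY hZ (q1 b hb) q3
  have hB1 := vc_caseB1 (u := u) hg hY hZ (q1 b hb) (q1 a ha)
  have hB2 := vc_caseB2 hg hY hZ hu (q1 b hb) (q1 a ha)
  have hB3 := vc_caseB3 (a := a) (u := u) hb hg hY hZ (q1 b hb)
  have hall := (hA.or (hB1.or (hB2.or hB3))) S fun w hw => by
    by_cases hh : w.h11 * w.h22 = 0
    · rcases mul_eq_zero.1 (h0 w hw) with hf | hf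
      · exact Or.inr (Or.inl ⟨hS w hw, hf, hh⟩)
      · rcases mul_eq_zero.1 hh with h' | h'
        · exact Or.inr (Or.inr (Or.inr ⟨hS w hw, hf, h'⟩))
        · exact Or.inr (Or.inr (Or.inl ⟨hS w hw, hf, h'⟩))
    · exact Or.inl ⟨hS w hw, h0 w hw, hh⟩
  have hg' : (0 : ℝ) < g := by exact_mod_cast hg
  have hρ : 0 ≤ Y / g := div_nonneg (hg'.le.trans hY) hg'.le
  have e : Y * u / g = Y / g * u := by ring
  rw [e] at hall
  generalize Y / (g : ℝ) = ρ at hall hρ ⊢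
  have p1 := (hf₁.pos hZ).le
  have p3 := (hf₃.pos hZ).le
  have hZ0 : 0 ≤ Z := by linarith
  have hu0 : 0 ≤ u := by linarith
  have k : 0 ≤ (972 * (f₁ Z * f₃ Z) + 324 * (f₁ Z * f₁ Z) + 972 * f₁ Z) * ρ ^ 3 * (Z * u) := by
    positivity
  refine hall.trans ?_
  nlinarith [k]

theorem vcount : ∃ f, SP f ∧ ∀ (a b g : ℤ) (Y Z u : ℝ) (S : Finset Nat6), a ≠ 0 → b ≠ 0 → 0 < g →
    (g : ℝ) ≤ Y → 1 ≤ Z → 1 ≤ u → (∀ w ∈ S, VCond a b g Y Z u w) →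
    (S.card : ℝ) ≤ f Z * (Y / g) ^ 3 * (Z ^ 2 + Z * u) := by
  classical
  obtain ⟨f₁, hf₁, hA⟩ := vcA
  obtain ⟨f₂, hf₂, hB⟩ := vcB
  refine ⟨fun x => f₁ x + f₂ x, hf₁.add hf₂, ?_⟩
  intro a b g Y Z u S ha hb hg hY hZ hu hS
  have h1 := hB a b g Y Z u (S.filter fun w => w.f0 * w.f2 = 0) ha hb hg hY hZ hu
    (fun w hw => hS w (Finset.mem_filter.1 hw).1) fun w hw => (Finset.mem_filter.1 hw).2
  have h2 := hA a b g Y Z u (S.filter fun w => ¬w.f0 * w.f2 = 0) ha hb hg hY hZ hu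
    (fun w hw => hS w (Finset.mem_filter.1 hw).1) fun w hw => (Finset.mem_filter.1 hw).2
  have h3 := Finset.card_filter_add_card_filter_not (s := S) fun w => w.f0 * w.f2 = 0
  have h4 : (S.card : ℝ) = (S.filter fun w => w.f0 * w.f2 = 0).card +
      (S.filter fun w => ¬w.f0 * w.f2 = 0).card := by exact_mod_cast h3.symm
  have hg' : (0 : ℝ) < g := by exact_mod_cast hg
  have hρ : 0 ≤ Y / g := div_nonneg (hg'.le.trans hY) hg'.le
  have p1 := (hf₁.pos hZ).le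
  have hZ0 : 0 ≤ Z := by linarith
  have hu0 : 0 ≤ u := by linarith
  have k : 0 ≤ f₁ Z * (Y / g) ^ 3 * (Z * u) := by positivity
  nlinarith [k]

end Pool.Agent.Lib.MP_af4c59_nt.H57
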