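import Pool.Agent.Lib.MP_af4c59_nt.H57Conic

/-!
Counting in natural coordinates, generic case.
-/

set_option autoImplicit false

namespace Pool.Agent.Lib.MP_af4c59_nt.H57

open Matrix

theorem vca_ZD {g : ℤ} (hg : 0 < g) {Y : ℝ} (hY : (g : ℝ) ≤ Y) :
    ∃ S : Finset ℤ, (S.card : ℝ) ≤ 3 * (Y / g) ∧ ∀ a : ℤ, g ∣ a → |(a : ℝ)| ≤ Y → a ∈ S := by
  have hg' : (0 : ℝ) < g := by exact_mod_cast hg
  refine ⟨(Finset.Icc (-⌊Y⌋) ⌊Y⌋).filter fun a => g ∣ a, ?_, ?_⟩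
  · have h1 := card_le_int (X := (Finset.Icc (-⌊Y⌋) ⌊Y⌋).filter fun a => g ∣ a) (fun a => a)
      (fun _ _ _ _ h => h) hg (a := 0) (r := Y) (by linarith) (by
        intro x hx
        obtain ⟨hx1, hx2⟩ := Finset.mem_filter.1 hx
        obtain ⟨e1, e2⟩ := Finset.mem_Icc.1 hx1
        have e3 : ((-⌊Y⌋ : ℤ) : ℝ) ≤ x := by exact_mod_cast e1
        have e4 : (x : ℝ) ≤ (⌊Y⌋ : ℤ) := by exact_mod_cast e2
        have e5 := Int.floor_le Y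
        push_cast at e3
        refine ⟨hx2, ?_⟩
        rw [sub_zero, abs_le]
        constructor <;> linarith)
    have h2 : 1 ≤ Y / g := (one_le_div hg').2 hY
    rw [mul_div_assoc] at h1
    linarith
  · intro a h1 h2
    rw [abs_le] at h2
    refine Finset.mem_filter.2 ⟨Finset.mem_Icc.2 ⟨?_, Int.le_floor.2 h2.2⟩, h1⟩
    have : -a ≤ ⌊Y⌋ := Int.le_floor.2 (by push_cast; linarith [h2.1])
    omega

/-- Multiples of `g` in a box. -/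
theorem card_OD {g : ℤ} (hg : 0 < g) {Y : ℝ} (hY : (g : ℝ) ≤ Y) :
    ∃ S : Finset O, (S.card : ℝ) ≤ 9 * (Y / g) ^ 2 ∧ ∀ a, OD g a → OB a Y → a ∈ S := by
  classical
  obtain ⟨T, hT, hmem⟩ := vca_ZD hg hY
  refine ⟨(T ×ˢ T).image fun p => (⟨p.1, p.2⟩ : O), ?_, ?_⟩
  · have h1 : (((T ×ˢ T).image fun p => (⟨p.1, p.2⟩ : O)).card : ℝ) ≤ T.card * T.card := by
      exact_mod_cast Finset.card_image_le.trans (Finset.card_product T T).le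
    have h2 := mul_le_mul hT hT (Nat.cast_nonneg _) (le_trans (Nat.cast_nonneg _) hT)
    nlinarith
  · intro a h1 h2
    exact Finset.mem_image.2 ⟨(a.re, a.im),
      Finset.mem_product.2 ⟨hmem _ h1.1 h2.1, hmem _ h1.2 h2.2⟩, rfl⟩

theorem card_ZD {g : ℤ} (hg : 0 < g) {Y : ℝ} (hY : (g : ℝ) ≤ Y) :
    ∃ S : Finset ℤ, (S.card : ℝ) ≤ 3 * (Y / g) ∧ ∀ a : ℤ, g ∣ a → |(a : ℝ)| ≤ Y → a ∈ S :=
  vca_ZD hg hY

/-- Counting by fibres through the image. -/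
theorem vca_fib {ι κ : Type} {X : Finset ι} (c : ι → κ) {J n : ℝ} (hJ0 : 0 ≤ J) (hn : 0 ≤ n)
    (hJ : ∀ x₀ ∈ X, ∀ T : Finset κ, (∀ k ∈ T, ∃ x ∈ X, c x = k) → (T.card : ℝ) ≤ J)
    (h : ∀ C ⊆ X, (∀ x ∈ C, ∀ y ∈ C, c x = c y) → (C.card : ℝ) ≤ n) : (X.card : ℝ) ≤ J * n := by
  classical
  rcases X.eq_empty_or_nonempty with rfl | ⟨x₀, hx₀⟩
  · simpa using mul_nonneg hJ0 hn
  exact card_le_fib c (X.image c) (fun x hx => Finset.mem_image_of_mem c hx)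
    (hJ x₀ hx₀ _ fun k hk => Finset.mem_image.1 hk) hn
    fun k _ C hC hk => h C hC fun x hx y hy => (hk x hx).trans (hk y hy).symm

theorem vca_sub {κ : Type} {T S : Finset κ} {J : ℝ} (hS : (S.card : ℝ) ≤ J) (h : T ⊆ S) :
    (T.card : ℝ) ≤ J :=
  le_trans (by exact_mod_cast Finset.card_le_card h) hS

/-- The count when the norm of `h12` is fixed. -/
theorem vca_tail {f₁ f₂ : ℝ → ℝ} {a b g : ℤ} {Y Z u K : ℝ} (hZ : 1 ≤ Z) (p1 : 0 ≤ f₁ Z)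
    (p2 : 0 ≤ f₂ Z) (hK : 0 ≤ K)
    (r1 : ∀ (Z : ℝ) (n : ℤ) (X : Finset O), 1 ≤ Z →
      (∀ a ∈ X, OB a Z ∧ QuadraticAlgebra.norm a = n) → (X.card : ℝ) ≤ f₁ Z)
    (r2 : ∀ (Z : ℝ) (c : O) (X : Finset (O × O)), 1 ≤ Z → c ≠ 0 →
      (∀ a ∈ X, OB a.1 Z ∧ OB a.2 Z ∧ a.1 * a.2 = c) → (X.card : ℝ) ≤ f₂ Z)
    {C : Finset Nat6} (hV : ∀ w ∈ C, VCond a b g Y Z u w) (h0 : ∀ w ∈ C, w.f0 * w.f2 ≠ 0)
    (hD : ∀ w ∈ C, ∀ w' ∈ C, w.f0 * w.f2 - w.f1 * w.f1 = w'.f0 * w'.f2 - w'.f1 * w'.f1)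
    (h1 : ∀ w ∈ C, ∀ w' ∈ C, w.f1 = w'.f1)
    (hN : ∀ w ∈ C, ∀ w' ∈ C, QuadraticAlgebra.norm w.h12 = QuadraticAlgebra.norm w'.h12)
    (hh : ∀ w₀ ∈ C, ∀ T : Finset (ℤ × ℤ), (∀ k ∈ T, ∃ w ∈ C, (w.h11, w.h22) = k) →
      (T.card : ℝ) ≤ K) : (C.card : ℝ) ≤ f₁ Z * (f₂ Z * (K * 1)) := by
  refine vca_fib (fun w => w.h12) p1 (by positivity) ?_ fun C₁ s₁ e₁ => ?_
  · intro w₀ hw₀ T hT
    refine r1 Z (QuadraticAlgebra.norm w₀.h12) T hZ fun k hk => ?_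
    obtain ⟨w, hw, rfl⟩ := hT k hk
    exact ⟨(hV w hw).b12, hN w hw w₀ hw₀⟩
  refine vca_fib (fun w => (w.f0, w.f2)) p2 (by positivity) ?_ fun C₂ s₂ e₂ => ?_
  · intro w₀ hw₀ T hT
    refine r2 Z (w₀.f0 * w₀.f2) T hZ (h0 w₀ (s₁ hw₀)) fun k hk => ?_
    obtain ⟨w, hw, rfl⟩ := hT k hk
    refine ⟨(hV w (s₁ hw)).b0, (hV w (s₁ hw)).b2, ?_⟩
    have e := hD w (s₁ hw) w₀ (s₁ hw₀)
    rw [h1 w (s₁ hw) w₀ (s₁ hw₀)] at e
    exact sub_left_injective e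
  refine vca_fib (fun w => (w.h11, w.h22)) hK zero_le_one ?_ fun C₃ s₃ e₃ => ?_
  · intro w₀ hw₀ T hT
    refine hh w₀ (s₁ (s₂ hw₀)) T fun k hk => ?_
    obtain ⟨w, hw, e⟩ := hT k hk
    exact ⟨w, s₁ (s₂ hw), e⟩
  have : C₃.card ≤ 1 := by
    refine Finset.card_le_one.2 fun w hw w' hw' => ?_
    have a1 := h1 w (s₁ (s₂ (s₃ hw))) w' (s₁ (s₂ (s₃ hw')))
    have a2 := e₁ w (s₂ (s₃ hw)) w' (s₂ (s₃ hw'))
    have a3 := Prod.mk.inj (e₂ w (s₃ hw) w' (s₃ hw'))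
    have a4 := Prod.mk.inj (e₃ w hw w' hw')
    cases w
    cases w'
    simp only [Nat6.mk.injEq]
    exact ⟨a3.1, a1, a3.2, a2, a4.1, a4.2⟩
  exact_mod_cast this

theorem vcA : ∃ f, SP f ∧ ∀ (a b g : ℤ) (Y Z u : ℝ) (S : Finset Nat6), a ≠ 0 → b ≠ 0 → 0 < g →
    (g : ℝ) ≤ Y → 1 ≤ Z → 1 ≤ u → (∀ w ∈ S, VCond a b g Y Z u w) →
    (∀ w ∈ S, w.f0 * w.f2 ≠ 0) → (S.card : ℝ) ≤ f Z * (Y / g) ^ 3 * Z ^ 2 := by
  classical
  obtain ⟨f₁, hf₁, r1⟩ := rep1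
  obtain ⟨f₂, hf₂, r2⟩ := rep2
  obtain ⟨f₃, hf₃, r3⟩ := rep3
  refine ⟨fun x => 27 * (9 * (f₁ x * (f₂ x * f₃ x)) + 6 * (f₁ x * (f₁ x * f₂ x))),
    (((hf₁.mul (hf₂.mul hf₃)).cmul (by norm_num)).add
      ((hf₁.mul (hf₁.mul hf₂)).cmul (by norm_num))).cmul (by norm_num), ?_⟩
  intro a b g Y Z u S ha hb hg hY hZ _ hV h0
  have p1 := (hf₁.pos hZ).le
  have p2 := (hf₂.pos hZ).le
  have p3 := (hf₃.pos hZ).le
  have hg' : (0 : ℝ) < g := by exact_mod_cast hg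
  have hYg : 0 ≤ Y / g := div_nonneg (by linarith) hg'.le
  have hZ0 : 0 ≤ Z := by linarith
  obtain ⟨SD, cD, mD⟩ := card_OD hg hY
  obtain ⟨SE, cE, mE⟩ := card_ZD hg hY
  obtain ⟨S1, c1, m1⟩ := card_OD (g := 1) one_pos (Y := Z) (by exact_mod_cast hZ)
  obtain ⟨S2, c2, m2⟩ := card_ZD (g := 1) one_pos (Y := Z) (by exact_mod_cast hZ)
  rw [Int.cast_one, div_one] at c1 c2
  have key : (S.card : ℝ) ≤ 9 * (Y / g) ^ 2 * (3 * (Y / g) *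
      (9 * Z ^ 2 * (f₁ Z * (f₂ Z * (f₃ Z * 1))) + f₁ Z * (f₁ Z * (f₂ Z * (6 * Z * 1))))) := by
    refine vca_fib (fun w => w.f0 * w.f2 - w.f1 * w.f1) (by positivity) (by positivity) ?_
      fun C₁ s₁ eD => ?_
    · intro _ _ T hT
      refine vca_sub cD fun k hk => ?_
      obtain ⟨w, hw, rfl⟩ := hT k hk
      exact mD _ (hV w hw).dD (hV w hw).bD
    refine vca_fib (fun w => a * QuadraticAlgebra.norm w.f1 + b * QuadraticAlgebra.norm w.h12)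
      (by positivity) (by positivity) ?_ fun C₂ s₂ eE => ?_
    · intro _ _ T hT
      refine vca_sub cE fun k hk => ?_
      obtain ⟨w, hw, rfl⟩ := hT k hk
      exact mE _ (hV w (s₁ hw)).dE (hV w (s₁ hw)).bE
    rw [← Finset.card_filter_add_card_filter_not (s := C₂) fun w => w.h11 * w.h22 ≠ 0, Nat.cast_add]
    refine add_le_add ?_ ?_
    · refine vca_fib (fun w => w.f1) (by positivity) (by positivity) ?_ fun C₃ s₃ e1 => ?_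
      · intro _ _ T hT
        refine vca_sub c1 fun k hk => ?_
        obtain ⟨w, hw, rfl⟩ := hT k hk
        exact m1 _ ⟨one_dvd _, one_dvd _⟩ (hV w (s₁ (s₂ (Finset.mem_filter.1 hw).1))).b1
      have s₄ : C₃ ⊆ C₂ := s₃.trans (Finset.filter_subset _ _)
      have hN : ∀ w ∈ C₃, ∀ w' ∈ C₃,
          QuadraticAlgebra.norm w.h12 = QuadraticAlgebra.norm w'.h12 := by
        intro w hw w' hw'
        have e := eE w (s₄ hw) w' (s₄ hw')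
        have e' : w.f1 = w'.f1 := e1 w hw w' hw'
        simp only [e'] at e
        exact mul_left_cancel₀ hb (add_left_cancel e)
      refine vca_tail hZ p1 p2 p3 r1 r2 (fun w hw => hV w (s₁ (s₂ (s₄ hw))))
        (fun w hw => h0 w (s₁ (s₂ (s₄ hw)))) (fun w hw w' hw' => eD w (s₂ (s₄ hw)) w' (s₂ (s₄ hw')))
        e1 hN ?_
      intro w₀ hw₀ T hT
      refine r3 Z (w₀.h11 * w₀.h22) T hZ (Finset.mem_filter.1 (s₃ hw₀)).2 fun k hk => ?_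
      obtain ⟨w, hw, rfl⟩ := hT k hk
      have v := hV w (s₁ (s₂ (s₄ hw)))
      have v₀ := hV w₀ (s₁ (s₂ (s₄ hw₀)))
      refine ⟨v.b11, v.b22, ?_⟩
      have q := v.q
      have q₀ := v₀.q
      have e : w.f0 * w.f2 - w.f1 * w.f1 = w₀.f0 * w₀.f2 - w₀.f1 * w₀.f1 :=
        eD w (s₂ (s₄ hw)) w₀ (s₂ (s₄ hw₀))
      rw [e, q₀, hN w hw w₀ hw₀] at q
      exact (sub_left_injective q).symm
    · have hz : ∀ w ∈ C₂.filter fun w => ¬w.h11 * w.h22 ≠ 0, w.h11 * w.h22 = 0 :=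
        fun w hw => not_not.1 (Finset.mem_filter.1 hw).2
      have s₃ : (C₂.filter fun w => ¬w.h11 * w.h22 ≠ 0) ⊆ C₂ := Finset.filter_subset _ _
      generalize (C₂.filter fun w => ¬w.h11 * w.h22 ≠ 0) = C₃ at hz s₃
      have hN : ∀ w ∈ C₃, ∀ w' ∈ C₃,
          QuadraticAlgebra.norm w.h12 = QuadraticAlgebra.norm w'.h12 := by
        intro w hw w' hw'
        have q := (hV w (s₁ (s₂ (s₃ hw)))).q
        have q' := (hV w' (s₁ (s₂ (s₃ hw')))).q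
        have e : w.f0 * w.f2 - w.f1 * w.f1 = w'.f0 * w'.f2 - w'.f1 * w'.f1 :=
          eD w (s₂ (s₃ hw)) w' (s₂ (s₃ hw'))
        rw [e, q', hz w hw, hz w' hw'] at q
        omega
      refine vca_fib (fun w => w.f1) p1 (by positivity) ?_ fun C₄ s₄ e1 => ?_
      · intro w₀ hw₀ T hT
        refine r1 Z (QuadraticAlgebra.norm w₀.f1) T hZ fun k hk => ?_
        obtain ⟨w, hw, rfl⟩ := hT k hk
        refine ⟨(hV w (s₁ (s₂ (s₃ hw)))).b1, ?_⟩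
        have e := eE w (s₃ hw) w₀ (s₃ hw₀)
        simp only [hN w hw w₀ hw₀] at e
        exact mul_left_cancel₀ ha (add_right_cancel e)
      refine vca_tail hZ p1 p2 (by positivity) r1 r2 (fun w hw => hV w (s₁ (s₂ (s₃ (s₄ hw)))))
        (fun w hw => h0 w (s₁ (s₂ (s₃ (s₄ hw)))))
        (fun w hw w' hw' => eD w (s₂ (s₃ (s₄ hw))) w' (s₂ (s₃ (s₄ hw')))) e1
        (fun w hw w' hw' => hN w (s₄ hw) w' (s₄ hw')) ?_
      intro _ _ T hT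
      have cU : (((S2.image fun k => (k, (0 : ℤ))) ∪ S2.image fun k => ((0 : ℤ), k)).card : ℝ) ≤
          6 * Z := by
        have e : ((S2.image fun k => (k, (0 : ℤ))) ∪ S2.image fun k => ((0 : ℤ), k)).card ≤
            S2.card + S2.card :=
          (Finset.card_union_le _ _).trans (add_le_add Finset.card_image_le Finset.card_image_le)
        have e' : (((S2.image fun k => (k, (0 : ℤ))) ∪ S2.image fun k => ((0 : ℤ), k)).card : ℝ) ≤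
            S2.card + S2.card := by exact_mod_cast e
        linarith
      refine vca_sub cU fun k hk => ?_
      obtain ⟨w, hw, rfl⟩ := hT k hk
      have v := hV w (s₁ (s₂ (s₃ (s₄ hw))))
      rcases mul_eq_zero.1 (hz w (s₄ hw)) with e | e
      · exact Finset.mem_union_right _ (Finset.mem_image.2 ⟨w.h22, m2 _ (one_dvd _) v.b22, by rw [e]⟩)
      · exact Finset.mem_union_left _ (Finset.mem_image.2 ⟨w.h11, m2 _ (one_dvd _) v.b11, by rw [e]⟩)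
  refine key.trans ?_
  have hZ2 : Z ≤ Z ^ 2 := by nlinarith
  calc 9 * (Y / g) ^ 2 * (3 * (Y / g) *
        (9 * Z ^ 2 * (f₁ Z * (f₂ Z * (f₃ Z * 1))) + f₁ Z * (f₁ Z * (f₂ Z * (6 * Z * 1)))))
      ≤ 9 * (Y / g) ^ 2 * (3 * (Y / g) *
        (9 * Z ^ 2 * (f₁ Z * (f₂ Z * (f₃ Z * 1))) + f₁ Z * (f₁ Z * (f₂ Z * (6 * Z ^ 2 * 1))))) := by
        gcongr
    _ = _ := by ring

end Pool.Agent.Lib.MP_af4c59_nt.H57
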