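import Pool.Agent.Lib.MP_af4c59_nt.K9Defs
import Pool.Agent.Lib.MP_af4c59_nt.H32Div
import Pool.Agent.Shared.Subspace.Lattice

/-!
The number of cubic fields of bounded discriminant (part B0).
-/

set_option autoImplicit false

namespace Pool.Agent.Lib.MP_af4c59_nt.K9

open NumberField Module IsDedekindDomain

namespace CubicAux

open Matrix

/-- The determinant of the rows `1`, `X`, `Y`. -/
def DC (X Y : Fin 3 → ℂ) : ℂ := (X 1 - X 0) * (Y 2 - Y 0) - (X 2 - X 0) * (Y 1 - Y 0)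

section Geo

variable {K : Type} [Field K] [NumberField K]

/-- The vector of conjugates. -/
def em (φ : Fin 3 → (K →+* ℂ)) (x : 𝓞 K) : Fin 3 → ℂ := fun i => φ i (x : K)

/-- The real model of the vector of conjugates. -/
noncomputable def rm (φ : Fin 3 → (K →+* ℂ)) (x : 𝓞 K) : Fin 3 → ℝ :=
  fun i => (em φ x i).re + (em φ x i).im

/-- The real model modulo the integers. -/
noncomputable def FF (φ : Fin 3 → (K →+* ℂ)) : 𝓞 K →+ (Fin 2 → ℝ) where
  toFun x := fun i => rm φ x i.succ - rm φ x 0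
  map_zero' := by ext i; simp [rm, em]
  map_add' x y := by ext i; simp [rm, em]; ring

variable {φ : Fin 3 → (K →+* ℂ)}

lemma FF_zero (x : 𝓞 K) : FF φ x 0 = rm φ x 1 - rm φ x 0 := rfl

lemma FF_one (x : 𝓞 K) : FF φ x 1 = rm φ x 2 - rm φ x 0 := rfl

lemma FF_int (n : ℤ) : FF φ (n : 𝓞 K) = 0 := by
  ext i
  show rm φ _ i.succ - rm φ _ 0 = 0
  simp [rm, em]

omit [NumberField K] in
lemma key (h : Function.Bijective φ) (x y : 𝓞 K) :
    ∑ i, (em φ x i).re * (em φ y i).im = 0 := by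
  choose s hs using fun i => h.2 ((starRingEnd ℂ).comp (φ i))
  have hinj : Function.Injective s := by
    intro i j hij
    apply h.1
    ext z
    have h1 : (starRingEnd ℂ).comp (φ i) z = (starRingEnd ℂ).comp (φ j) z := by
      rw [← hs i, ← hs j, hij]
    exact (starRingEnd ℂ).injective h1
  have hσ : ∀ (z : 𝓞 K) (i : Fin 3), em φ z (s i) = (starRingEnd ℂ) (em φ z i) := by
    intro z i
    show φ (s i) (z : K) = _
    rw [hs i]
    rfl
  have h1 := Equiv.sum_comp (Equiv.ofBijective s (Finite.injective_iff_bijective.1 hinj))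
    fun i => (em φ x i).re * (em φ y i).im
  simp only [Equiv.ofBijective_apply, hσ, Complex.conj_re, Complex.conj_im, mul_neg,
    Finset.sum_neg_distrib] at h1
  linarith

omit [NumberField K] in
lemma rm_dot (h : Function.Bijective φ) (x y : 𝓞 K) :
    ((rm φ x ⬝ᵥ rm φ y : ℝ) : ℂ) = ∑ i, em φ x i * (starRingEnd ℂ) (em φ y i) := by
  have k1 := key h x y
  have k2 := key h y x
  simp only [Fin.sum_univ_three] at k1 k2
  apply Complex.ext
  · simp only [Complex.ofReal_re, dotProduct, rm, Fin.sum_univ_three, Complex.add_re,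
      Complex.mul_re, Complex.conj_re, Complex.conj_im]
    linarith
  · simp only [Complex.ofReal_im, Fin.sum_univ_three, Complex.add_im,
      Complex.mul_im, Complex.conj_re, Complex.conj_im]
    linarith

omit [NumberField K] in
lemma gram (h : Function.Bijective φ) (l : Fin 3 → 𝓞 K) :
    (Matrix.of fun k => rm φ (l k)).det ^ 2 = ‖(Matrix.of fun k => em φ (l k)).det‖ ^ 2 := by
  set R : Matrix (Fin 3) (Fin 3) ℝ := Matrix.of fun k => rm φ (l k) with hR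
  set E : Matrix (Fin 3) (Fin 3) ℂ := Matrix.of fun k => em φ (l k) with hE
  have h1 : Complex.ofRealHom.mapMatrix (R * Rᵀ) = E * Eᴴ := by
    ext i j
    exact rm_dot h (l i) (l j)
  have h2 := congrArg Matrix.det h1
  rw [← RingHom.map_det, det_mul, det_mul, det_transpose, det_conjTranspose,
    Complex.star_def, Complex.mul_conj, Complex.normSq_eq_norm_sq] at h2
  rw [sq]
  exact Complex.ofReal_injective h2

lemma gram2 (h : Function.Bijective φ) (x y : 𝓞 K) :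
    |FF φ x 0 * FF φ y 1 - FF φ x 1 * FF φ y 0| = ‖DC (em φ x) (em φ y)‖ := by
  have h1 := gram h ![1, x, y]
  have e1 : (Matrix.of fun k => rm φ (![1, x, y] k)).det =
      FF φ x 0 * FF φ y 1 - FF φ x 1 * FF φ y 0 := by
    have h0 : ∀ i, rm φ 1 i = 1 := fun i => by simp [rm, em]
    rw [det_fin_three]
    simp only [of_apply, cons_val_zero, cons_val_one, cons_val, h0, FF_zero, FF_one]
    ring
  have e2 : (Matrix.of fun k => em φ (![1, x, y] k)).det = DC (em φ x) (em φ y) := by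
    have h0 : ∀ i, em φ 1 i = 1 := fun i => by simp [em]
    rw [det_fin_three]
    simp only [of_apply, cons_val_zero, cons_val_one, cons_val, h0, DC]
    ring
  rw [e1, e2, ← sq_abs] at h1
  exact (pow_left_inj₀ (abs_nonneg _) (norm_nonneg _) two_ne_zero).1 h1

lemma near (h : Function.Bijective φ) (x : 𝓞 K) (i : Fin 3) :
    ‖em φ x i - (rm φ x 0 : ℝ)‖ ≤ 2 * ‖FF φ x‖ := by
  have k1 := key h x x
  have k2 := key h 1 x
  have h0 : ∀ j, em φ 1 j = 1 := fun j => by simp [em]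
  simp only [Fin.sum_univ_three, h0, Complex.one_re, one_mul] at k1 k2
  have a0 : |FF φ x 0| ≤ ‖FF φ x‖ := norm_le_pi_norm (FF φ x) 0
  have a1 : |FF φ x 1| ≤ ‖FF φ x‖ := norm_le_pi_norm (FF φ x) 1
  have b0 := pow_le_pow_left₀ (abs_nonneg _) a0 2
  have b1 := pow_le_pow_left₀ (abs_nonneg _) a1 2
  rw [sq_abs] at b0 b1
  have hs : ∑ j, ‖em φ x j - (rm φ x 0 : ℝ)‖ ^ 2 = FF φ x 0 ^ 2 + FF φ x 1 ^ 2 := by
    simp only [Fin.sum_univ_three, Complex.sq_norm, Complex.normSq_apply, Complex.sub_re,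
      Complex.sub_im, Complex.ofReal_re, Complex.ofReal_im, FF_zero, FF_one, rm]
    linear_combination (-2) * k1 + 2 * ((em φ x 0).re + (em φ x 0).im) * k2
  have h5 : ‖em φ x i - (rm φ x 0 : ℝ)‖ ^ 2 ≤ ∑ j, ‖em φ x j - (rm φ x 0 : ℝ)‖ ^ 2 :=
    Finset.single_le_sum (f := fun j => ‖em φ x j - (rm φ x 0 : ℝ)‖ ^ 2)
      (fun j _ => sq_nonneg _) (Finset.mem_univ i)
  refine le_of_sq_le_sq ?_ (by positivity)
  nlinarith [sq_nonneg ‖FF φ x‖]

lemma near2 (h : Function.Bijective φ) (x : 𝓞 K) (i : Fin 3) :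
    ‖em φ x i - em φ x 0‖ ≤ 4 * ‖FF φ x‖ := by
  have h1 := near h x i
  have h2 := near h x 0
  have h3 := norm_sub_le (em φ x i - (rm φ x 0 : ℝ)) (em φ x 0 - (rm φ x 0 : ℝ))
  rw [sub_sub_sub_cancel_right] at h3
  linarith

lemma sum_trace (h : Function.Bijective φ) (x : K) :
    ∑ i, φ i x = ((Algebra.trace ℚ K x : ℚ) : ℂ) := by
  have h1 := trace_eq_sum_embeddings ℂ (K := ℚ) (x := x)
  rw [eq_ratCast] at h1
  rw [h1]
  exact Fintype.sum_equiv ((Equiv.ofBijective φ h).trans (RingHom.equivRatAlgHom K ℂ)) _ _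
    (fun i => rfl)

lemma ker_int (h : Function.Bijective φ) {x : 𝓞 K} (hx : FF φ x = 0) : ∃ n : ℤ, x = n := by
  have h1 : ∀ i, em φ x i = em φ x 0 := fun i => by
    have := near2 h x i
    rw [hx, norm_zero, mul_zero] at this
    exact sub_eq_zero.1 (norm_le_zero_iff.1 this)
  have h2 := sum_trace h (x : K)
  rw [Fin.sum_univ_three] at h2
  have h3 : (x : K) = algebraMap ℚ K (Algebra.trace ℚ K (x : K) / 3) := by
    apply (φ 0).injective
    have e1 : φ 1 (x : K) = φ 0 (x : K) := h1 1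
    have e2 : φ 2 (x : K) = φ 0 (x : K) := h1 2
    rw [eq_ratCast, map_ratCast]
    push_cast
    linear_combination (h2 - e1 - e2) / 3
  have h4 : IsIntegral ℤ (Algebra.trace ℚ K (x : K) / 3) := by
    have hi : IsIntegral ℤ (x : K) := x.isIntegral_coe
    rw [h3] at hi
    exact (isIntegral_algebraMap_iff (algebraMap ℚ K).injective).1 hi
  obtain ⟨m, hm⟩ := IsIntegrallyClosed.isIntegral_iff.1 h4
  refine ⟨m, ?_⟩
  apply RingOfIntegers.ext
  rw [h3, ← hm]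
  simp

lemma fin_range (h : Function.Bijective φ) (r : ℝ) :
    {v | v ∈ (FF φ).range ∧ ‖v‖ ≤ r}.Finite := by
  have h1 := (NumberField.Embeddings.finite_of_norm_le K ℂ (2 * r + 1)).preimage
    (f := fun x : 𝓞 K => (x : K)) (RingOfIntegers.coe_injective.injOn)
  refine (h1.image (FF φ)).subset ?_
  rintro _ ⟨⟨x, rfl⟩, hr⟩
  have e1 : FF φ (x - (round (rm φ x 0) : ℤ)) = FF φ x := by rw [map_sub, FF_int, sub_zero]
  refine ⟨x - (round (rm φ x 0) : ℤ), ⟨RingOfIntegers.isIntegral_coe _, fun ψ => ?_⟩, e1⟩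
  obtain ⟨i, rfl⟩ := h.2 ψ
  have h2 := near h x i
  have h3 : |rm φ x 0 - round (rm φ x 0)| ≤ 1 / 2 := abs_sub_round _
  have e2 : φ i ((x - (round (rm φ x 0) : ℤ) : 𝓞 K) : K) =
      (em φ x i - (rm φ x 0 : ℝ)) + ((rm φ x 0 - round (rm φ x 0) : ℝ) : ℂ) := by
    simp [em]
  have hr' : ‖FF φ x‖ ≤ r := hr
  show ‖φ i _‖ ≤ _
  rw [e2]
  refine (norm_add_le _ _).trans ?_
  rw [Complex.norm_real, Real.norm_eq_abs]
  linarith

lemma det_sq (h : Function.Bijective φ) (b : Module.Basis (Fin 3) ℤ (𝓞 K)) :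
    ‖(Matrix.of fun k => em φ (b k)).det‖ ^ 2 = |((discr K : ℤ) : ℝ)| := by
  set M : Matrix (Fin 3) (Fin 3) ℂ := Matrix.of fun k => em φ (b k) with hM
  have h1 : M * Mᵀ = (Algebra.traceMatrix ℤ b).map (Int.castRingHom ℂ) := by
    ext k l
    have h2 := sum_trace h ((b k * b l : 𝓞 K) : K)
    rw [← Algebra.coe_trace_int] at h2
    simp only [Matrix.mul_apply, Matrix.transpose_apply, hM, Matrix.of_apply, Matrix.map_apply,
      Algebra.traceMatrix_apply, Algebra.traceForm_apply, eq_intCast]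
    simpa [em] using h2
  have h3 : M.det ^ 2 = ((discr K : ℤ) : ℂ) := by
    rw [← NumberField.discr_eq_discr K b, Algebra.discr_def, sq]
    nth_rewrite 2 [← Matrix.det_transpose M]
    rw [← Matrix.det_mul, h1]
    exact ((Int.castRingHom ℂ).map_det _).symm
  rw [← norm_pow, h3, Complex.norm_intCast]

lemma DC_le (h : Function.Bijective φ) (b : Module.Basis (Fin 3) ℤ (𝓞 K)) (x y : 𝓞 K)
    (hs : ∀ z : 𝓞 K, ∃ r s t : ℤ, z = r + s * x + t * y) :
    ‖DC (em φ x) (em φ y)‖ ^ 2 ≤ |((discr K : ℤ) : ℝ)| := by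
  choose r s t hz using hs
  set N : ℤ := r (b 0) * s (b 1) * t (b 2) - r (b 0) * t (b 1) * s (b 2) -
    s (b 0) * r (b 1) * t (b 2) + s (b 0) * t (b 1) * r (b 2) + t (b 0) * r (b 1) * s (b 2) -
    t (b 0) * s (b 1) * r (b 2) with hN
  have e1 : ∀ z i, em φ z i = r z + s z * em φ x i + t z * em φ y i := fun z i => by
    conv_lhs => rw [hz z]
    simp [em]
  have e2 : (Matrix.of fun k => em φ (b k)).det = N * DC (em φ x) (em φ y) := by
    rw [det_fin_three]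
    simp only [of_apply, e1 (b 0), e1 (b 1), e1 (b 2), DC, hN]
    push_cast
    ring
  have h1 := det_sq h b
  rw [e2, norm_mul, Complex.norm_intCast, mul_pow] at h1
  have h7 : ((discr K : ℤ) : ℝ) ≠ 0 := by exact_mod_cast discr_ne_zero K
  have hN0 : N ≠ 0 := by
    intro h0
    rw [h0] at h1
    simp only [Int.cast_zero, abs_zero, ne_eq, OfNat.ofNat_ne_zero, not_false_eq_true, zero_pow,
      zero_mul] at h1
    exact h7 (abs_eq_zero.1 h1.symm)
  have h2 : (1 : ℝ) ≤ |(N : ℝ)| := by exact_mod_cast Int.one_le_abs hN0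
  rw [← h1]
  exact le_mul_of_one_le_left (sq_nonneg _) (one_le_pow₀ h2)

lemma span_range (h : Function.Bijective φ) (b : Module.Basis (Fin 3) ℤ (𝓞 K)) (w : Fin 2 → ℝ)
    (hw : ∀ v ∈ (FF φ).range, w ⬝ᵥ v = 0) : w = 0 := by
  have h1 := (gram h b).trans (det_sq h b)
  have h7 : ((discr K : ℤ) : ℝ) ≠ 0 := by exact_mod_cast discr_ne_zero K
  have h2 : (Matrix.of fun k => rm φ (b k)).det ≠ 0 := by
    intro h0
    rw [h0] at h1
    exact h7 (abs_eq_zero.1 (by rw [← h1]; norm_num))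
  have h3 : (![-(w 0 + w 1), w 0, w 1] : Fin 3 → ℝ) = 0 :=
    eq_zero_of_mulVec_eq_zero h2 (funext fun k => by
      have := hw _ ⟨b k, rfl⟩
      simp only [dotProduct, Fin.sum_univ_two, FF_zero, FF_one] at this
      simp only [mulVec, dotProduct, Fin.sum_univ_three, of_apply, cons_val_zero, cons_val_one,
        cons_val, Pi.zero_apply]
      linarith)
  ext i
  fin_cases i
  · simpa using congrFun h3 1
  · simpa using congrFun h3 2

end Geo

theorem basis_data : ∃ C : ℝ, 1 ≤ C ∧ ∀ (K : Type) [Field K] [NumberField K], finrank ℚ K = 3 →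
    ∃ (φ : Fin 3 → (K →+* ℂ)) (x y : 𝓞 K) (U V : ℝ), 0 < U ∧ U ≤ V ∧
      (∀ z : 𝓞 K, ∃ r s t : ℤ, z = r + s * x + t * y) ∧
      (∀ i, ‖em φ x i - em φ x 0‖ ≤ U) ∧ (∀ i, ‖em φ y i - em φ y 0‖ ≤ V) ∧
      U * V ≤ C * ‖DC (em φ x) (em φ y)‖ ∧
      ‖DC (em φ x) (em φ y)‖ ^ 2 ≤ |((discr K : ℤ) : ℝ)| := by
  obtain ⟨C, hC, hred⟩ := Pool.Agent.Subspace.lattice_reduction 2
  refine ⟨16 * C ^ 3, by nlinarith [one_le_pow₀ (n := 3) hC], fun K _ _ hK => ?_⟩
  have hc : Fintype.card (K →+* ℂ) = 3 := by rw [NumberField.Embeddings.card K ℂ, hK]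
  let φ : Fin 3 → (K →+* ℂ) := (Fintype.equivFinOfCardEq hc).symm
  have h : Function.Bijective φ := (Fintype.equivFinOfCardEq hc).symm.bijective
  let b : Module.Basis (Fin 3) ℤ (𝓞 K) :=
    Module.finBasisOfFinrankEq ℤ (𝓞 K) (by rw [RingOfIntegers.rank, hK])
  obtain ⟨v, pm, lam, hv, hgen, hpos, hmono, hbd, hprod⟩ :=
    hred (FF φ).range (fin_range h) (span_range h b)
  choose l hl using hv
  have hs : ∀ z : 𝓞 K, ∃ r s t : ℤ, z = r + s * l 0 + t * l 1 := by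
    intro z
    obtain ⟨t, ht⟩ := hgen _ ⟨z, rfl⟩
    have h1 : FF φ (z - t 0 • l 0 - t 1 • l 1) = 0 := by
      rw [map_sub, map_sub, map_zsmul, map_zsmul, hl, hl, ht, Fin.sum_univ_two]
      abel
    obtain ⟨n, hn⟩ := ker_int h h1
    refine ⟨n, t 0, t 1, ?_⟩
    rw [← hn]
    simp only [zsmul_eq_mul]
    ring
  have hb : ∀ k i, ‖em φ (l k) i - em φ (l k) 0‖ ≤ 4 * C * lam k := by
    intro k i
    have h1 : ‖v k‖ ≤ C * lam k := by
      refine (pi_norm_le_iff_of_nonneg (mul_nonneg (by linarith) (hpos k).le)).2 fun i => ?_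
      have h2 := hbd (pm.symm i) k
      rw [Equiv.apply_symm_apply] at h2
      exact h2.trans (mul_le_mul_of_nonneg_left (min_le_right _ _) (by linarith))
    have h2 := near2 h (l k) i
    rw [hl k] at h2
    linarith
  refine ⟨φ, l 0, l 1, 4 * C * lam 0, 4 * C * lam 1, by have := hpos 0; positivity,
    mul_le_mul_of_nonneg_left (hmono (by decide)) (by linarith), hs, hb 0, hb 1, ?_,
    DC_le h b _ _ hs⟩
  rw [← gram2 h, hl, hl]
  rw [Fin.prod_univ_two, det_fin_two] at hprod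
  simp only [of_apply] at hprod
  have h3 := mul_le_mul_of_nonneg_left hprod (by positivity : 0 ≤ 16 * C ^ 2)
  calc _ = 16 * C ^ 2 * (lam 0 * lam 1) := by ring
    _ ≤ _ := h3
    _ = _ := by ring

lemma alg {X Y : Fin 3 → ℂ} {a b c d m n l : ℤ} (h1 : ∀ i, X i ^ 2 = m + b * X i + a * Y i)
    (h2 : ∀ i, X i * Y i = n) (h3 : ∀ i, Y i ^ 2 = l + d * X i + c * Y i) (hD : DC X Y ≠ 0) :
    n = a * d ∧ m = -(a * c) := by
  have e : ∀ i, ((n : ℂ) - a * d) * X i - (m + a * c) * Y i - (b * n + a * l) = 0 := fun i => by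
    linear_combination Y i * h1 i - (X i - b) * h2 i + a * h3 i
  have e1 : ((n : ℂ) - a * d) * DC X Y = 0 := by
    unfold DC
    linear_combination (Y 2 - Y 0) * (e 1 - e 0) - (Y 1 - Y 0) * (e 2 - e 0)
  have e2 : ((m : ℂ) + a * c) * DC X Y = 0 := by
    unfold DC
    linear_combination (X 2 - X 0) * (e 1 - e 0) - (X 1 - X 0) * (e 2 - e 0)
  have f1 : (n : ℂ) = a * d := sub_eq_zero.1 ((mul_eq_zero.1 e1).resolve_right hD)
  have f2 : (m : ℂ) = -(a * c) := eq_neg_of_add_eq_zero_left ((mul_eq_zero.1 e2).resolve_right hD)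
  exact ⟨by exact_mod_cast f1, by exact_mod_cast f2⟩

lemma n3 {x y z : ℂ} {A B C : ℝ} (hx : ‖x‖ ≤ A) (hy : ‖y‖ ≤ B) (hz : ‖z‖ ≤ C) :
    ‖x * y * z‖ ≤ A * B * C := by
  rw [norm_mul, norm_mul]
  have := (norm_nonneg x).trans hx
  have := (norm_nonneg y).trans hy
  gcongr

lemma bounds {X Y : Fin 3 → ℂ} {a b c d m n l : ℤ} {U V : ℝ}
    (h1 : ∀ i, X i ^ 2 = m + b * X i + a * Y i)
    (h2 : ∀ i, X i * Y i = n) (h3 : ∀ i, Y i ^ 2 = l + d * X i + c * Y i)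
    (hU : ∀ i, ‖X i - X 0‖ ≤ U) (hV : ∀ i, ‖Y i - Y 0‖ ≤ V) :
    |(a : ℝ)| * ‖DC X Y‖ ≤ 2 * U ^ 3 ∧ |(b : ℝ)| * ‖DC X Y‖ ≤ 6 * U ^ 2 * V ∧
      |(c : ℝ)| * ‖DC X Y‖ ≤ 6 * U * V ^ 2 ∧ |(d : ℝ)| * ‖DC X Y‖ ≤ 2 * V ^ 3 := by
  set u1 := X 1 - X 0 with hu1
  set u2 := X 2 - X 0 with hu2
  set v1 := Y 1 - Y 0 with hv1
  set v2 := Y 2 - Y 0 with hv2
  have a1 : ‖u1‖ ≤ U := hU 1
  have a2 : ‖u2‖ ≤ U := hU 2
  have b1 : ‖v1‖ ≤ V := hV 1
  have b2 : ‖v2‖ ≤ V := hV 2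
  have ea : (a : ℂ) * DC X Y = u1 * u2 * u2 - u2 * u1 * u1 := by
    simp only [DC, hu1, hu2]
    linear_combination (X 2 - X 0) * (h1 1 - h1 0) - (X 1 - X 0) * (h1 2 - h1 0)
  have eb : (b : ℂ) * DC X Y = u1 * u1 * v2 - u2 * u2 * v1 +
      (u1 * u2 * v1 - u1 * u2 * v2 + (u1 * u2 * v1 - u1 * u2 * v2)) := by
    simp only [DC, hu1, hu2, hv1, hv2]
    linear_combination (Y 1 - Y 0) * (h1 2 - h1 0) - (Y 2 - Y 0) * (h1 1 - h1 0) +
      2 * (X 1 - X 0) * (h2 2 - h2 0) - 2 * (X 2 - X 0) * (h2 1 - h2 0)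
  have ec : (c : ℂ) * DC X Y = u1 * v2 * v2 - u2 * v1 * v1 +
      (u2 * v1 * v2 - u1 * v1 * v2 + (u2 * v1 * v2 - u1 * v1 * v2)) := by
    simp only [DC, hu1, hu2, hv1, hv2]
    linear_combination (X 2 - X 0) * (h3 1 - h3 0) - (X 1 - X 0) * (h3 2 - h3 0) +
      2 * (Y 2 - Y 0) * (h2 1 - h2 0) - 2 * (Y 1 - Y 0) * (h2 2 - h2 0)
  have ed : (d : ℂ) * DC X Y = v1 * v1 * v2 - v2 * v2 * v1 := by
    simp only [DC, hv1, hv2]
    linear_combination (Y 1 - Y 0) * (h3 2 - h3 0) - (Y 2 - Y 0) * (h3 1 - h3 0)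
  have nn : ∀ (k : ℤ) (z : ℂ), |(k : ℝ)| * ‖z‖ = ‖(k : ℂ) * z‖ := fun k z => by
    rw [norm_mul, Complex.norm_intCast]
  rw [nn, nn, nn, nn, ea, eb, ec, ed]
  refine ⟨?_, ?_, ?_, ?_⟩
  · refine (norm_sub_le_of_le (n3 a1 a2 a2) (n3 a2 a1 a1)).trans (le_of_eq (by ring))
  · refine (norm_add_le_of_le (norm_sub_le_of_le (n3 a1 a1 b2) (n3 a2 a2 b1))
      (norm_add_le_of_le (norm_sub_le_of_le (n3 a1 a2 b1) (n3 a1 a2 b2))
        (norm_sub_le_of_le (n3 a1 a2 b1) (n3 a1 a2 b2)))).trans (le_of_eq (by ring))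
  · refine (norm_add_le_of_le (norm_sub_le_of_le (n3 a1 b2 b2) (n3 a2 b1 b1))
      (norm_add_le_of_le (norm_sub_le_of_le (n3 a2 b1 b2) (n3 a1 b1 b2))
        (norm_sub_le_of_le (n3 a2 b1 b2) (n3 a1 b1 b2)))).trans (le_of_eq (by ring))
  · refine (norm_sub_le_of_le (n3 b1 b1 b2) (n3 b2 b2 b1)).trans (le_of_eq (by ring))

theorem field_data : ∃ C : ℝ, 1 ≤ C ∧ ∀ (K : Type) [Field K] [NumberField K], finrank ℚ K = 3 →
    ∃ (w : K) (a b c d : ℤ) (U V : ℝ), 0 < U ∧ U ≤ V ∧ a ≠ 0 ∧ (∀ q : ℚ, w ≠ (q : K)) ∧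
      w ^ 3 - b * w ^ 2 + a * c * w - a ^ 2 * d = 0 ∧ |(a : ℝ)| * V ≤ C * U ^ 2 ∧
      |(b : ℝ)| ≤ C * U ∧ |(c : ℝ)| ≤ C * V ∧ |(d : ℝ)| * U ≤ C * V ^ 2 ∧
      (U * V) ^ 2 ≤ C ^ 2 * |((discr K : ℤ) : ℝ)| := by
  obtain ⟨C, hC, hb⟩ := basis_data
  refine ⟨6 * C, by linarith, fun K _ _ hK => ?_⟩
  obtain ⟨φ, x, y, U, V, hU0, hUV, hs, hU, hV, hD, hY⟩ := hb K hK
  obtain ⟨m, b, a, h1⟩ := hs (x * x)
  obtain ⟨n, p, q, h2⟩ := hs (x * y)
  obtain ⟨l, d, c, h3⟩ := hs (y * y)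
  have hV0 : 0 < V := hU0.trans_le hUV
  set X : Fin 3 → ℂ := fun i => em φ x i - q with hX
  set Y : Fin 3 → ℂ := fun i => em φ y i - p with hYY
  have hDD : DC X Y = DC (em φ x) (em φ y) := by simp only [DC, hX, hYY]; ring
  have g : ∀ (z w : 𝓞 K) (r s t : ℤ), z * w = r + s * x + t * y → ∀ i,
      em φ z i * em φ w i = r + s * em φ x i + t * em φ y i := fun z w r s t h i => by
    have := congrArg (fun u : 𝓞 K => em φ u i) h
    simpa [em] using this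
  have k1 : ∀ i, X i ^ 2 = ((m + q ^ 2 + (b - 2 * q) * q + a * p : ℤ) : ℂ) +
      ((b - 2 * q : ℤ) : ℂ) * X i + a * Y i := fun i => by
    simp only [hX, hYY]
    push_cast
    linear_combination g _ _ _ _ _ h1 i
  have k2 : ∀ i, X i * Y i = ((n + p * q : ℤ) : ℂ) := fun i => by
    simp only [hX, hYY]
    push_cast
    linear_combination g _ _ _ _ _ h2 i
  have k3 : ∀ i, Y i ^ 2 = ((l + p ^ 2 + d * q + (c - 2 * p) * p : ℤ) : ℂ) + d * X i +
      ((c - 2 * p : ℤ) : ℂ) * Y i := fun i => by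
    simp only [hX, hYY]
    push_cast
    linear_combination g _ _ _ _ _ h3 i
  have hD0 : 0 < ‖DC X Y‖ := by
    rw [hDD]
    by_contra hcon
    have := mul_pos hU0 hV0
    nlinarith [norm_nonneg (DC (em φ x) (em φ y))]
  have hD1 : DC X Y ≠ 0 := norm_pos_iff.1 hD0
  obtain ⟨f1, f2⟩ := alg k1 k2 k3 hD1
  obtain ⟨ba, bb, bc, bd⟩ := bounds (U := U) (V := V) k1 k2 k3
    (fun i => by simpa [hX] using hU i) (fun i => by simpa [hYY] using hV i)
  rw [← hDD] at hD hY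
  have hq : ∀ r : ℚ, (x : K) - q ≠ (r : K) := by
    intro r hr
    apply hD1
    have : ∀ i, X i = r := fun i => by
      have := congrArg (φ i) hr
      simpa [hX, em] using this
    simp [DC, this]
  have step : ∀ (k : ℤ) (Z : ℝ), |(k : ℝ)| * ‖DC X Y‖ ≤ Z → |(k : ℝ)| * (U * V) ≤ C * Z :=
    fun k Z h => by
      have e1 := mul_le_mul_of_nonneg_left hD (abs_nonneg (k : ℝ))
      have e2 := mul_le_mul_of_nonneg_left h (by linarith : 0 ≤ C)
      linarith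
  refine ⟨(x : K) - q, a, b - 2 * q, c - 2 * p, d, U, V, hU0, hUV, ?_, hq, ?_, ?_, ?_, ?_, ?_, ?_⟩
  · rintro rfl
    have e1 := k1 0
    rw [f2] at e1
    have e2 : X 0 * (X 0 - ((b - 2 * q : ℤ) : ℂ)) = 0 := by
      push_cast at e1 ⊢
      linear_combination e1
    rcases mul_eq_zero.1 e2 with e3 | e3
    · refine hq 0 ((φ 0).injective ?_)
      simpa [hX, em] using e3
    · refine hq ((b - 2 * q : ℤ) : ℚ) ((φ 0).injective ?_)
      have e4 := sub_eq_zero.1 e3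
      simpa [hX, em, map_ofNat] using e4
  · apply (φ 0).injective
    have e1 := k1 0
    have e2 := k2 0
    rw [f2] at e1
    rw [f1] at e2
    have e3 : φ 0 ((x : K) - q) = X 0 := by simp [hX, em]
    simp only [map_sub _ _ (_ * _), map_add, map_mul, map_pow, map_intCast, map_zero, e3]
    push_cast at e1 e2 ⊢
    linear_combination X 0 * e1 + a * e2
  · have := step _ _ ba
    refine le_of_mul_le_mul_right ?_ hU0
    nlinarith [pow_pos hU0 3]
  · have := step _ _ bb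
    refine le_of_mul_le_mul_right ?_ (mul_pos hU0 hV0)
    linarith
  · have := step _ _ bc
    refine le_of_mul_le_mul_right ?_ (mul_pos hU0 hV0)
    linarith
  · have := step _ _ bd
    refine le_of_mul_le_mul_right ?_ hV0
    nlinarith [pow_pos hV0 3]
  · have e1 := pow_le_pow_left₀ (mul_pos hU0 hV0).le hD 2
    have e2 := mul_le_mul_of_nonneg_left hY (sq_nonneg C)
    nlinarith [mul_nonneg (sq_nonneg C) (abs_nonneg ((discr K : ℤ) : ℝ))]

lemma dyadic {C U V W a b c d : ℝ} (hU : 0 < U) (hUV : U ≤ V) (hW : 0 ≤ W)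
    (ha : |a| * V ≤ C * U ^ 2) (hb : |b| ≤ C * U) (hc : |c| ≤ C * V) (hd : |d| * U ≤ C * V ^ 2)
    (h : C ^ 2 * (U * V) ≤ W ^ 2) :
    ∃ j : ℕ, |a| * 8 ^ j ≤ W ∧ |b| * 2 ^ j ≤ W ∧ |c| ≤ 2 * W * 2 ^ j ∧ |d| ≤ 8 * W * 8 ^ j := by
  have hV : 0 < V := hU.trans_le hUV
  obtain ⟨j, h1, h2⟩ := exists_nat_pow_near ((one_le_div hU).2 hUV) (by norm_num : (1 : ℝ) < 4)
  rw [le_div_iff₀ hU] at h1
  rw [div_lt_iff₀ hU, pow_succ] at h2
  set t : ℝ := 2 ^ j with ht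
  have t0 : 0 < t := by positivity
  have e4 : (4 : ℝ) ^ j = t ^ 2 := by rw [ht, ← pow_mul, mul_comm, pow_mul]; norm_num
  have e8 : (8 : ℝ) ^ j = t ^ 3 := by rw [ht, ← pow_mul, mul_comm, pow_mul]; norm_num
  rw [e4] at h1 h2
  refine ⟨j, ?_, ?_, ?_, ?_⟩
  · rw [e8]
    refine le_of_sq_le_sq ?_ hW
    have g1 := pow_le_pow_left₀ (by positivity) ha 2
    have g2 := pow_le_pow_left₀ (by positivity) h1 3
    refine le_trans (le_of_mul_le_mul_right ?_ (pow_pos hU 3)) h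
    calc (|a| * t ^ 3) ^ 2 * U ^ 3 = |a| ^ 2 * (t ^ 2 * U) ^ 3 := by ring
      _ ≤ |a| ^ 2 * V ^ 3 := mul_le_mul_of_nonneg_left g2 (sq_nonneg _)
      _ = (|a| * V) ^ 2 * V := by ring
      _ ≤ (C * U ^ 2) ^ 2 * V := mul_le_mul_of_nonneg_right g1 hV.le
      _ = _ := by ring
  · refine le_of_sq_le_sq ?_ hW
    have g1 := pow_le_pow_left₀ (abs_nonneg _) hb 2
    refine le_trans ?_ h
    calc (|b| * t) ^ 2 = |b| ^ 2 * t ^ 2 := by ring
      _ ≤ (C * U) ^ 2 * t ^ 2 := mul_le_mul_of_nonneg_right g1 (sq_nonneg _)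
      _ = C ^ 2 * U * (t ^ 2 * U) := by ring
      _ ≤ C ^ 2 * U * V := mul_le_mul_of_nonneg_left h1 (by positivity)
      _ = _ := by ring
  · refine le_of_sq_le_sq ?_ (by positivity)
    have g1 := pow_le_pow_left₀ (abs_nonneg _) hc 2
    calc |c| ^ 2 ≤ (C * V) ^ 2 := g1
      _ = C ^ 2 * V * V := by ring
      _ ≤ C ^ 2 * V * (t ^ 2 * 4 * U) := mul_le_mul_of_nonneg_left h2.le (by positivity)
      _ = 4 * t ^ 2 * (C ^ 2 * (U * V)) := by ring
      _ ≤ 4 * t ^ 2 * W ^ 2 := mul_le_mul_of_nonneg_left h (by positivity)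
      _ = _ := by ring
  · rw [e8]
    refine le_of_sq_le_sq ?_ (by positivity)
    have g1 := pow_le_pow_left₀ (by positivity) hd 2
    have g2 := pow_le_pow_left₀ hV.le h2.le 3
    refine le_of_mul_le_mul_right ?_ (pow_pos hU 3)
    calc |d| ^ 2 * U ^ 3 = (|d| * U) ^ 2 * U := by ring
      _ ≤ (C * V ^ 2) ^ 2 * U := mul_le_mul_of_nonneg_right g1 hU.le
      _ = C ^ 2 * (U * V) * V ^ 3 := by ring
      _ ≤ W ^ 2 * (t ^ 2 * 4 * U) ^ 3 := mul_le_mul h g2 (by positivity) (sq_nonneg _)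
      _ = _ := by ring

/-- The integers of absolute value at most `R`. -/
noncomputable def II (R : ℝ) : Finset ℤ := Finset.Icc (-⌊R⌋) ⌊R⌋

lemma mem_II {R : ℝ} {k : ℤ} (h : |(k : ℝ)| ≤ R) : k ∈ II R := by
  have h1 : |k| ≤ ⌊R⌋ := Int.le_floor.2 (by exact_mod_cast h)
  exact Finset.mem_Icc.2 (abs_le.1 h1)

lemma card_II {R : ℝ} (h : 1 ≤ R) : ((II R).card : ℝ) ≤ 3 * R := by
  have h0 : 0 ≤ ⌊R⌋ := Int.floor_nonneg.2 (by linarith)
  have h1 : ((II R).card : ℤ) = 2 * ⌊R⌋ + 1 := by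
    rw [II, Int.card_Icc_of_le _ _ (by omega)]
    ring
  have h2 : ((II R).card : ℝ) = 2 * (⌊R⌋ : ℝ) + 1 := by exact_mod_cast h1
  linarith [Int.floor_le R]

/-- A dyadic box of coefficients. -/
noncomputable def BB (W : ℝ) (j : ℕ) : Finset (ℤ × ℤ × ℤ × ℤ) :=
  II (W / 8 ^ j) ×ˢ II (W / 2 ^ j) ×ˢ II (2 * W * 2 ^ j) ×ˢ II (8 * W * 8 ^ j)

lemma card_BB {W : ℝ} {j : ℕ} (h : 8 ^ j ≤ W) : ((BB W j).card : ℝ) ≤ 1296 * W ^ 4 := by
  have h2 : (1 : ℝ) ≤ 2 ^ j := one_le_pow₀ (by norm_num)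
  have h28 : (2 : ℝ) ^ j ≤ 8 ^ j := pow_le_pow_left₀ (by norm_num) (by norm_num) j
  have hW : 1 ≤ W := by linarith
  have c1 := card_II (R := W / 8 ^ j) ((one_le_div (by positivity)).2 h)
  have c2 := card_II (R := W / 2 ^ j) ((one_le_div (by positivity)).2 (h28.trans h))
  have c3 := card_II (R := 2 * W * 2 ^ j) (by nlinarith)
  have c4 := card_II (R := 8 * W * 8 ^ j) (by nlinarith)
  simp only [BB, Finset.card_product, Nat.cast_mul]
  calc _ ≤ 3 * (W / 8 ^ j) * (3 * (W / 2 ^ j) * (3 * (2 * W * 2 ^ j) * (3 * (8 * W * 8 ^ j)))) := by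
        gcongr
    _ = _ := by field_simp; ring

lemma eq_adjoin {K : IntermediateField ℚ Ω} (hK : finrank ℚ K = 3) (w : K)
    (hw : ∀ q : ℚ, w ≠ (q : K)) : K = IntermediateField.adjoin ℚ {(w : Ω)} := by
  have hfd : FiniteDimensional ℚ K := Module.finite_of_finrank_eq_succ hK
  have hle : IntermediateField.adjoin ℚ {(w : Ω)} ≤ K :=
    IntermediateField.adjoin_simple_le_iff.2 w.2
  have hd := IntermediateField.finrank_dvd_of_le_right hle
  rw [hK] at hd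
  rcases (Nat.dvd_prime Nat.prime_three).1 hd with h1 | h1
  · obtain ⟨q, hq⟩ := IntermediateField.mem_bot.1
      (IntermediateField.finrank_adjoin_simple_eq_one_iff.1 h1)
    refine absurd (Subtype.ext ?_) (hw q)
    rw [← hq]
    simp
  · exact (IntermediateField.eq_of_le_of_finrank_eq hle (h1.trans hK.symm)).symm

lemma roots_le (a b c d : ℤ) (T : Finset Ω)
    (hT : ∀ w ∈ T, w ^ 3 - b * w ^ 2 + a * c * w - a ^ 2 * d = 0) : T.card ≤ 3 := by
  let p : Polynomial Ω := Polynomial.X ^ 3 - Polynomial.C (b : Ω) * Polynomial.X ^ 2 +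
    Polynomial.C ((a : Ω) * c) * Polynomial.X - Polynomial.C ((a : Ω) ^ 2 * d)
  have hp : p.natDegree = 3 := by
    simp only [p]
    compute_degree!
  have hp0 : p ≠ 0 := fun h => by rw [h] at hp; simp at hp
  rw [← hp]
  refine Polynomial.card_le_degree_of_subset_roots fun w hw => ?_
  rw [Polynomial.mem_roots hp0, Polynomial.IsRoot.def]
  simp only [p, Polynomial.eval_sub, Polynomial.eval_add, Polynomial.eval_mul, Polynomial.eval_pow,
    Polynomial.eval_X, Polynomial.eval_C]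
  exact hT w hw

end CubicAux

open CubicAux in
theorem cubic_count {ε : ℝ} (hε : 0 < ε) : ∃ C : ℝ, 0 < C ∧ ∀ Y : ℝ, 1 ≤ Y →
    ∀ S : Finset (IntermediateField ℚ Ω), (∀ K ∈ S, finrank ℚ K = 3 ∧ (dK K : ℝ) ≤ Y) →
      (S.card : ℝ) ≤ C * Y ^ (1 + ε) := by
  classical
  obtain ⟨C, hC, hf⟩ := field_data
  have hs : (1 : ℝ) < 8 ^ (4 * ε) := Real.one_lt_rpow (by norm_num) (by linarith)
  set A : ℝ := 1 + 1 / ((8 : ℝ) ^ (4 * ε) - 1) with hA
  have hA0 : 0 < A := by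
    have : 0 < 1 / ((8 : ℝ) ^ (4 * ε) - 1) := one_div_pos.2 (by linarith)
    linarith
  have hC6 : (1 : ℝ) ≤ C ^ 6 := one_le_pow₀ hC
  refine ⟨3 * A * 1296 * (C ^ 6) ^ (1 + ε), by positivity, fun Y hY S hS => ?_⟩
  set W : ℝ := √(√(C ^ 6 * Y)) with hW
  have hCY : 1 ≤ C ^ 6 * Y := one_le_mul_of_one_le_of_one_le hC6 hY
  have hW2 : W ^ 2 = √(C ^ 6 * Y) := Real.sq_sqrt (Real.sqrt_nonneg _)
  have hW4 : W ^ 4 = C ^ 6 * Y := by
    rw [show W ^ 4 = (W ^ 2) ^ 2 by ring, hW2, Real.sq_sqrt (by linarith)]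
  have hW1 : 1 ≤ W := Real.one_le_sqrt.2 (Real.one_le_sqrt.2 hCY)
  obtain ⟨n, hn1, hn2⟩ := exists_nat_pow_near hW1 (by norm_num : (1 : ℝ) < 8)
  have hdat : ∀ K ∈ S, ∃ (w : Ω) (q : ℤ × ℤ × ℤ × ℤ), K = IntermediateField.adjoin ℚ {w} ∧
      w ^ 3 - q.2.1 * w ^ 2 + q.1 * q.2.2.1 * w - q.1 ^ 2 * q.2.2.2 = 0 ∧
      q ∈ (Finset.range (n + 1)).biUnion (BB W) := by
    intro K hK
    obtain ⟨h3, hd⟩ := hS K hK
    have hfd : FiniteDimensional ℚ K := Module.finite_of_finrank_eq_succ h3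
    have hnf : NumberField K := @NumberField.mk K _ inferInstance hfd
    obtain ⟨w, a, b, c, d, U, V, hU, hUV, ha0, hw, hr, ba, bb, bc, bd, hD⟩ := hf K h3
    rw [dK_eq, Nat.cast_natAbs, Int.cast_abs] at hd
    have hCW : C ^ 2 * (U * V) ≤ W ^ 2 := by
      rw [hW2]
      refine Real.le_sqrt_of_sq_le ?_
      calc (C ^ 2 * (U * V)) ^ 2 = C ^ 4 * (U * V) ^ 2 := by ring
        _ ≤ C ^ 4 * (C ^ 2 * Y) := mul_le_mul_of_nonneg_left
            (hD.trans (mul_le_mul_of_nonneg_left hd (sq_nonneg _))) (by positivity)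
        _ = _ := by ring
    obtain ⟨j, j1, j2, j3, j4⟩ := dyadic hU hUV (by linarith) ba bb bc bd hCW
    have ha1 : (1 : ℝ) ≤ |(a : ℝ)| := by exact_mod_cast Int.one_le_abs ha0
    have hj : j < n + 1 := by
      have h8 : (8 : ℝ) ^ j ≤ W := (le_mul_of_one_le_left (by positivity) ha1).trans j1
      exact (pow_lt_pow_iff_right₀ (by norm_num : (1 : ℝ) < 8)).1 (h8.trans_lt hn2)
    refine ⟨w, (a, b, c, d), eq_adjoin h3 w hw, ?_, ?_⟩
    · have := congrArg (fun z : K => (z : Ω)) hr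
      simpa using this
    · refine Finset.mem_biUnion.2 ⟨j, Finset.mem_range.2 hj, ?_⟩
      simp only [BB, Finset.mem_product]
      exact ⟨mem_II ((le_div_iff₀ (by positivity)).2 j1), mem_II ((le_div_iff₀ (by positivity)).2 j2),
        mem_II j3, mem_II j4⟩
  choose! w q hw hq hB using hdat
  have h1 : S.card ≤ 3 * ((Finset.range (n + 1)).biUnion (BB W)).card := by
    refine Finset.card_le_mul_card_image_of_maps_to hB 3 fun z _ => ?_
    have hinj : Set.InjOn w (S.filter fun K => q K = z : Finset _) := by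
      intro K hK K' hK' h
      rw [hw K (Finset.mem_filter.1 hK).1, hw K' (Finset.mem_filter.1 hK').1, h]
    rw [← Finset.card_image_of_injOn hinj]
    refine roots_le z.1 z.2.1 z.2.2.1 z.2.2.2 _ fun x hx => ?_
    obtain ⟨K, hK, rfl⟩ := Finset.mem_image.1 hx
    rw [← (Finset.mem_filter.1 hK).2]
    exact hq K (Finset.mem_filter.1 hK).1
  have h2 : (((Finset.range (n + 1)).biUnion (BB W)).card : ℝ) ≤ (n + 1) * (1296 * W ^ 4) := by
    have e1 : (((Finset.range (n + 1)).biUnion (BB W)).card : ℝ) ≤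
        ∑ j ∈ Finset.range (n + 1), ((BB W j).card : ℝ) := by
      exact_mod_cast Finset.card_biUnion_le
    refine e1.trans ((Finset.sum_le_card_nsmul _ _ (1296 * W ^ 4) fun j hj => card_BB ?_).trans ?_)
    · exact (pow_le_pow_right₀ (by norm_num) (Nat.lt_succ_iff.1 (Finset.mem_range.1 hj))).trans hn1
    · simp
  have h3 : (n : ℝ) + 1 ≤ A * (C ^ 6 * Y) ^ ε := by
    refine (H32.succ_le_mul_pow hs n).trans (mul_le_mul_of_nonneg_left ?_ hA0.le)
    calc ((8 : ℝ) ^ (4 * ε)) ^ n = ((8 : ℝ) ^ n) ^ (4 * ε) :=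
          Real.rpow_pow_comm (by norm_num) _ _
      _ ≤ W ^ (4 * ε) := Real.rpow_le_rpow (by positivity) hn1 (by linarith)
      _ = (W ^ 4) ^ ε := by
          rw [Real.rpow_mul (by linarith)]
          norm_num
      _ = _ := by rw [hW4]
  have h4 : (S.card : ℝ) ≤ 3 * (((Finset.range (n + 1)).biUnion (BB W)).card : ℝ) := by
    exact_mod_cast h1
  calc (S.card : ℝ) ≤ 3 * ((n + 1) * (1296 * W ^ 4)) := by linarith
    _ ≤ 3 * (A * (C ^ 6 * Y) ^ ε * (1296 * W ^ 4)) := by gcongr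
    _ = 3 * A * 1296 * ((C ^ 6 * Y) ^ (1 : ℝ) * (C ^ 6 * Y) ^ ε) := by
        rw [hW4, Real.rpow_one]; ring
    _ = _ := by
        rw [← Real.rpow_add (by linarith), Real.mul_rpow (by linarith) (by linarith)]
        ring

end Pool.Agent.Lib.MP_af4c59_nt.K9
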