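import Pool.Agent.Lib.MP_af4c59_nt.H59Count
import Pool.Agent.Lib.MP_af4c59_nt.H32Main
import Pool.Agent.Lib.MP_af4c59_nt.H57Main
import Pool.Agent.Lib.MP_af4c59_nt.K9Cubic

/-!
Groups with a regular abelian normal subgroup, and the three basic groups.
-/

namespace Pool.Agent.Lib.MP_af4c59_nt.H59

open NumberField Equiv

theorem rr_affine {n : ℕ} (G : Subgroup (Perm (Fin n))) (i0 : Fin n) (v : Fin n → Perm (Fin n))
    (hv : ∀ j, v j ∈ G) (h0 : ∀ j, v j i0 = j)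
    (h1 : ∀ g ∈ G, ∀ j, g * v j = v (g j) * (v (g i0))⁻¹ * g)
    (h2 : ∀ i j, v i * v j = v j * v i) (κ : Fin n → Fin n) {w : ℕ} (hw0 : 0 < w)
    (hw : n ≤ w + (Finset.univ.image κ).card) (hκ : ∀ g ∈ G, g i0 = i0 → ∀ i, κ (g i) = κ i)
    (hc : ∀ ε : ℝ, 0 < ε → ∃ C : ℝ, 0 < C ∧ ∀ X : ℝ, 1 ≤ X →
      ((FS n G X).ncard : ℝ) ≤ C * X ^ ((1 : ℝ) / w + ε))
    (hK : ∀ K : Subgroup G, K ≠ ⊤ → RR K) : RR G := by
  classical
  let π : G →* G := MonoidHom.mk' (fun g => (⟨v (g.1 i0), hv _⟩ : G)⁻¹ * g) fun g h =>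
    Subtype.ext (by
      have h3 := h1 g.1 g.2 (h.1 i0)
      simp only [Subgroup.coe_mul, Subgroup.coe_inv, Perm.mul_apply]
      calc _ = (v (g.1 i0))⁻¹ * (v (g.1 (h.1 i0)) * (v (g.1 i0))⁻¹ * g.1 * g.1⁻¹)⁻¹ * g.1 * h.1 := by
            group
        _ = _ := by rw [← h3]; group)
  have hπ : ∀ g : G, (π g).1 = (v (g.1 i0))⁻¹ * g.1 := fun _ => rfl
  have hπ0 : ∀ g : G, (π g).1 i0 = i0 := fun g => by
    rw [hπ, Perm.mul_apply, Perm.inv_eq_iff_eq, h0]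
  have hv0 : v i0 = 1 := by
    have h3 := (hπ 1).symm.trans (congrArg Subtype.val (map_one π))
    simpa using h3
  refine rr_split π (fun g => Subtype.ext (by rw [hπ (π g), hπ0, hv0, inv_one, one_mul]))
    (fun x y hx hy => Subtype.ext ?_) hK n fun b hb => ?_
  · have h3 := inv_mul_eq_one.1 ((hπ x).symm.trans (congrArg Subtype.val hx))
    have h4 := inv_mul_eq_one.1 ((hπ y).symm.trans (congrArg Subtype.val hy))
    rw [Subgroup.coe_mul, Subgroup.coe_mul, ← h3, ← h4, h2]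
  refine bd_of_cond (α := fun d => d.Γ →* G)
    (fun d r ρ => Unr d b r ρ ∧ Function.Surjective ρ ∧ Min d b π ρ)
    (fun d r r' ρ h h' => ⟨h.1.gcd h'.1, h.2⟩) fun ε hε => ?_
  have hw1 : (0 : ℝ) < w := by exact_mod_cast hw0
  obtain ⟨C, hC, hc⟩ := hc (ε / w) (by positivity)
  set B : ℝ := (b.factorial : ℝ) ^ n ^ 2 with hB
  have hB1 : 1 ≤ B := one_le_pow₀ (by exact_mod_cast b.factorial_pos)
  refine ⟨n ^ n * (C * B ^ ((1 : ℝ) / w + ε / w)), by positivity, fun d y hy S hS => ?_⟩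
  have h3 := card_le_FS G i0 (fun i => ⟨v i, hv i, h0 i⟩) hb κ hw d y
    (S.image G.subtype.comp) fun ρ hρ => by
      obtain ⟨ρ, hρ', rfl⟩ := Finset.mem_image.1 hρ
      obtain ⟨f, f1, f2, f3, f4, f5⟩ := hS ρ hρ'
      refine ⟨?_, ⟨f, f1, f2, f3.comp _⟩, fun p a c σ hσ => hκ _ (ρ σ).2 ?_⟩
      · rw [MonoidHom.range_comp, MonoidHom.range_eq_top.2 f4, ← MonoidHom.range_eq_map,
          Subgroup.range_subtype]
      · have h4 := hπ0 (ρ σ)
        rwa [f5 p a c σ hσ] at h4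
  rw [Finset.card_image_of_injective _ fun ρ ρ' h =>
    MonoidHom.ext fun σ => Subtype.ext (DFunLike.congr_fun h σ)] at h3
  have h4 := hc (B * y ^ w) (one_le_mul_of_one_le_of_one_le hB1 (one_le_pow₀ hy))
  have h5 : (y ^ w) ^ ((1 : ℝ) / w + ε / w) = y ^ (1 + ε) := by
    rw [← Real.rpow_natCast, ← Real.rpow_mul (by linarith)]
    congr 1
    field_simp
  rw [Real.mul_rpow (by linarith) (by positivity), h5] at h4
  rw [← hB] at h3
  clear_value B
  calc (S.card : ℝ) ≤ n ^ n * ((FS n G (B * y ^ w)).ncard : ℝ) := by exact_mod_cast h3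
    _ ≤ n ^ n * (C * (B ^ ((1 : ℝ) / w + ε / w) * y ^ (1 + ε))) := by gcongr
    _ = _ := by ring

theorem rr_S3 (hK : ∀ K : Subgroup (⊤ : Subgroup (Perm (Fin 3))), K ≠ ⊤ → RR K) :
    RR (⊤ : Subgroup (Perm (Fin 3))) := by
  refine rr_affine ⊤ 0 (fun j => finRotate 3 ^ j.1) (fun _ => trivial) (by decide)
    (fun g h => by clear h; revert g; decide) (by decide) ![0, 1, 1] one_pos (by decide)
    (fun g h => by clear h; revert g; decide) (fun ε hε => ?_) hK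
  obtain ⟨C, hC, h⟩ := K9.cubic_count hε
  refine ⟨C, hC, fun X hX => ?_⟩
  have hfin := FS_finite (n := 3) (by norm_num) ⊤ X
  rw [Set.ncard_eq_toFinset_card _ hfin, Nat.cast_one, div_one]
  refine h X hX _ fun K hK => ?_
  obtain ⟨h1, -, b, hb⟩ := hfin.mem_toFinset.1 hK
  have : FiniteDimensional ℚ K := Module.finite_of_finrank_pos (by omega)
  have : NumberField K := ⟨⟩
  rw [K9.dK_eq, Nat.cast_natAbs, ← discr_eq_discr K b]
  exact ⟨h1, hb⟩

theorem rr_A4 (hK : ∀ K : Subgroup (alternatingGroup (Fin 4)), K ≠ ⊤ → RR K) :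
    RR (alternatingGroup (Fin 4)) :=
  rr_affine _ 0 ![1, swap 0 1 * swap 2 3, swap 0 2 * swap 1 3, swap 0 3 * swap 1 2]
    (fun j => by rw [Perm.mem_alternatingGroup]; revert j; decide) (by decide)
    (fun g h => by clear h; revert g; decide +kernel) (by decide) ![0, 1, 1, 1] two_pos (by decide)
    (fun g h => by clear h; revert g; decide +kernel) (fun ε hε => by exact_mod_cast H32.upper_bound hε) hK

theorem rr_D5 (hK : ∀ K : Subgroup H57.D5, K ≠ ⊤ → RR K) : RR H57.D5 := by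
  have k1 : ∀ g : Perm (Fin 5), ∀ a : Fin 5, ((∀ i, g i = a + i) ∨ ∀ i, g i = a - i) →
      (∀ j : Fin 5, g * finRotate 5 ^ j.1 =
        finRotate 5 ^ (g j).1 * (finRotate 5 ^ (g 0).1)⁻¹ * g) ∧
      (g 0 = 0 → ∀ i, (![0, 1, 2, 2, 1] : Fin 5 → Fin 5) (g i) = ![0, 1, 2, 2, 1] i) := by
    decide +kernel
  exact rr_affine _ 0 (fun j => finRotate 5 ^ j.1)
    (fun _ => pow_mem (Subgroup.subset_closure (by simp)) _) (by decide)
    (fun g hg => by obtain ⟨a, h⟩ := H57.mem_D5 hg; exact (k1 g a h).1) (by decide)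
    ![0, 1, 2, 2, 1] two_pos (by decide)
    (fun g hg => by obtain ⟨a, h⟩ := H57.mem_D5 hg; exact (k1 g a h).2)
    (fun ε hε => by exact_mod_cast H57.upper_bound hε) hK

end Pool.Agent.Lib.MP_af4c59_nt.H59
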