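import Mathlib

/-!
Finite abelian groups with an action of the symmetric group on three points.
-/

namespace Pool.Agent.Lib.MP_af4c59_nt.H59

lemma index_le_of_types {G β : Type} [Group G] [Finite β] (H : Subgroup G) (θ : G → β)
    (h : ∀ a a', θ a = θ a' → a⁻¹ * a' ∈ H) : H.index ≤ Nat.card β :=
  Nat.card_le_card_of_injective (fun q : G ⧸ H => θ q.out) fun q q' e => by
    rw [← q.out_eq, ← q'.out_eq]
    exact QuotientGroup.eq.2 (h _ _ e)

variable {A C : Type} [CommGroup A] [CommGroup C]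

lemma mem_of_sq {R : Subgroup A} (h3 : ∀ a, a ^ 3 ∈ R) {a : A} (h : a ^ 2 ∈ R) : a ∈ R := by
  have := R.mul_mem (h3 a) (R.inv_mem h)
  rwa [pow_succ', mul_inv_cancel_right] at this

/-- The two layers of the invariant part. -/
theorem index_le_layers [Finite A] [Finite C] (s t : A →* A) (j : C →* A)
    (s3 : ∀ a, s (s (s a)) = a) (t2 : ∀ a, t (t a) = a) (ts : ∀ a, t (s a) = s (s (t a)))
    (tj : ∀ c, t (j c) = j c) (hp : ∀ a, ∃ c, j c = a * t a)
    (hν : ∀ a, a * t a * s (a * t a) * s (s (a * t a)) = 1) (R : Subgroup A)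
    (h3 : ∀ a, a ^ 3 ∈ R) (hs : ∀ a, s a * a⁻¹ ∈ R) (hf : ∀ a, s a = a → a ∈ R) :
    R.index ≤ Nat.card {c : C // c ^ 3 = 1} := by
  let p : A →* A := MonoidHom.id A * t
  let m : A →* A := MonoidHom.id A * t⁻¹
  let l : A →* A := s * (s.comp s)⁻¹
  have hp' : ∀ a, p a = a * t a := fun _ => rfl
  have hm' : ∀ a, m a = a * (t a)⁻¹ := fun _ => rfl
  have hl' : ∀ a, l a = s a * (s (s a))⁻¹ := fun _ => rfl
  have hl : ∀ a, l a ∈ R := fun a => by
    have := R.inv_mem (hs (s a))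
    rwa [mul_inv_rev, inv_inv] at this
  have htl : ∀ a, t (l (m a)) = l (m a) := fun a => by
    simp only [hl', hm', map_mul, map_inv, ts, t2, s3, mul_inv_rev, inv_inv]
    simp only [mul_comm, mul_left_comm]
  let μ : A →* A := p.comp (l.comp m)
  have hμ : ∀ a, μ a = l (m a) ^ 2 := fun a => by
    show p (l (m a)) = _
    rw [hp', htl, sq]
  let B3 : Subgroup A := (j.comp (powMonoidHom 3)).range
  let W : Subgroup A := B3 ⊔ μ.range
  have hpj : p.range ≤ j.range := by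
    rintro _ ⟨a, rfl⟩
    exact hp a
  have hB : B3 ≤ j.range := by
    rintro _ ⟨c, rfl⟩
    exact ⟨_, rfl⟩
  have hW : W ≤ j.range := sup_le hB fun _ ⟨a, ha⟩ => hpj ⟨_, ha⟩
  have hWR : W ≤ R := sup_le (by
    rintro _ ⟨c, rfl⟩
    simpa using h3 (j c)) (by
    rintro _ ⟨a, rfl⟩
    rw [hμ]
    exact R.pow_mem (hl _) 2)
  have key : W.comap p ⊓ B3.comap μ ≤ R := by
    rintro a ⟨h1, c, hc⟩
    have h2 : j c ^ 3 = l (m a) ^ 2 := by rw [← hμ, ← hc]; simp
    have h4 := hν (j c)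
    rw [tj] at h4
    have h5 : l ((m a ^ 2 * l (j c)) ^ 2) = 1 := by
      rw [map_pow, map_mul, map_pow, ← h2, ← h4]
      simp only [hl', map_mul, map_inv, s3, mul_inv_rev, inv_inv]
      apply Additive.ofMul.injective
      simp only [ofMul_mul, ofMul_pow, ofMul_inv]
      abel
    rw [hl', mul_inv_eq_one] at h5
    have h6 := hf _ (by simpa only [s3] using congrArg (fun x => s (s x)) h5.symm)
    have h7 := mem_of_sq h3 ((R.mul_mem_cancel_right (hl _)).1 (mem_of_sq h3 h6))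
    refine mem_of_sq h3 ?_
    have h8 := R.mul_mem (hWR h1) h7
    rwa [hp', hm', mul_mul_mul_comm, mul_inv_cancel, mul_one, ← sq] at h8
  have hne : ∀ X Y : Subgroup A, X.relIndex Y ≠ 0 := fun X Y =>
    Subgroup.FiniteIndex.index_ne_zero
  calc R.index ≤ (W.comap p ⊓ B3.comap μ).index := Subgroup.index_antitone key
    _ ≤ W.relIndex p.range * B3.relIndex μ.range := by
      rw [← Subgroup.index_comap, ← Subgroup.index_comap]
      exact Subgroup.index_inf_le
    _ ≤ W.relIndex j.range * B3.relIndex W := Nat.mul_le_mul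
      (Subgroup.relIndex_le_of_le_right hpj (hne _ _))
      (Subgroup.relIndex_le_of_le_right le_sup_right (hne _ _))
    _ = (B3.comap j).index := by
      rw [mul_comm, Subgroup.relIndex_mul_relIndex _ _ _ le_sup_left hW, Subgroup.index_comap]
    _ ≤ (powMonoidHom 3 : C →* C).range.index := Subgroup.index_antitone (by
      rintro _ ⟨c, rfl⟩
      exact ⟨c, rfl⟩)
    _ = _ := by
      rw [Subgroup.index_range]
      rfl

/-- Nakayama for an automorphism of order three modulo cubes. -/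
lemma nakayama (s : A →* A) (s3 : ∀ a, s (s (s a)) = a) (H : Subgroup A) (h3 : ∀ a, a ^ 3 ∈ H)
    (hs : ∀ a ∈ H, s a ∈ H) (h : H ⊔ (s * (MonoidHom.id A)⁻¹).range = ⊤) : H = ⊤ := by
  have key : ∀ a, ∃ b, a * (s b * b⁻¹)⁻¹ ∈ H := fun a => by
    obtain ⟨x, hx, _, ⟨b, rfl⟩, rfl⟩ := Subgroup.mem_sup.1 (h ▸ Subgroup.mem_top a)
    exact ⟨b, (mul_inv_cancel_right x (s b * b⁻¹)).symm ▸ hx⟩
  have hd : ∀ a ∈ H, s a * a⁻¹ ∈ H := fun a ha => H.mul_mem (hs a ha) (H.inv_mem ha)
  refine (Subgroup.eq_top_iff' H).2 fun a => ?_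
  obtain ⟨b, hb⟩ := key a
  obtain ⟨c, hc⟩ := key b
  obtain ⟨e, he⟩ := key c
  have h1 := H.mul_mem (H.mul_mem (H.mul_mem hb (hd _ hc)) (hd _ (hd _ he)))
    (h3 (s e * (s (s e))⁻¹))
  convert h1 using 1
  simp only [map_mul, map_inv, s3]
  apply Additive.ofMul.injective
  simp only [ofMul_mul, ofMul_pow, ofMul_inv]
  abel

end Pool.Agent.Lib.MP_af4c59_nt.H59
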