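import Pool.Agent.Lib.MP_af4c59_nt.H59Unr
import Pool.Agent.Lib.MP_af4c59_nt.H59Mod

/-!
A small saturated set of primes in a Galois field whose group is the symmetric group on three
points.
-/

namespace Pool.Agent.Lib.MP_af4c59_nt.H59

open NumberField Module IsDedekindDomain K9
open scoped nonZeroDivisors Pointwise

lemma exists_cls {R S : Type} [CommRing R] [CommRing S] [IsDedekindDomain R] [IsDedekindDomain S]
    (f : R →+* S) (hf : Function.Injective f) : ∃ F : ClassGroup R →* ClassGroup S,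
      ∀ (I : (Ideal R)⁰) (J : (Ideal S)⁰), (J : Ideal S) = I.1.map f →
        F (ClassGroup.mk0 I) = ClassGroup.mk0 J := by
  let _ := f.toAlgebra
  have : FaithfulSMul R S := (faithfulSMul_iff_algebraMap_injective R S).2 hf
  refine ⟨ClassGroup.extendedHom R S, fun I J h => ?_⟩
  rw [ClassGroup.extendedHom_mk0]
  exact congrArg _ (Subtype.ext h.symm)

variable {N : Type} [Field N] [NumberField N]

lemma norm_ideal (k : Type) [Field k] [NumberField k] [Algebra k N] [IsGalois k N]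
    (I : (Ideal (𝓞 N))⁰) : ∃ J : (Ideal (𝓞 k))⁰,
      ∏ g : N ≃ₐ[k] N, g • I.1 = J.1.map (algebraMap (𝓞 k) (𝓞 N)) := by
  obtain ⟨h, x, h0, hx⟩ : ∃ (h : ℕ) (x : 𝓞 N), h ≠ 0 ∧ I.1 ^ h = Ideal.span {x} := by
    have h1 : ClassGroup.mk0 (I ^ Nat.card (ClassGroup (𝓞 N))) = 1 := by
      rw [map_pow, pow_card_eq_one']
    obtain ⟨x, hx⟩ := (ClassGroup.mk0_eq_one_iff (I ^ Nat.card (ClassGroup (𝓞 N))).2).1 h1
    exact ⟨_, x, Nat.card_pos.ne', hx⟩
  have h2 : ∏ g : N ≃ₐ[k] N, g • x = algebraMap (𝓞 k) (𝓞 N) (Algebra.intNorm (𝓞 k) (𝓞 N) x) := by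
    apply RingOfIntegers.ext
    have h2 := congrArg (algebraMap k N) (Algebra.algebraMap_intNorm (A := 𝓞 k) (K := k) (L := N) x)
    rw [Algebra.norm_eq_prod_automorphisms] at h2
    refine Eq.trans ?_ h2.symm
    exact map_prod (algebraMap (𝓞 N) N) _ _
  refine ⟨⟨Ideal.relNorm (𝓞 k) I.1, mem_nonZeroDivisors_of_ne_zero
    (Ideal.relNorm_eq_bot_iff.not.2 (nonZeroDivisors.ne_zero I.2))⟩,
    pow_left_injective (M := Ideal (𝓞 N)) h0 ?_⟩
  beta_reduce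
  rw [← Ideal.map_pow, ← map_pow, hx, Ideal.relNorm_singleton, Ideal.map_span, Set.image_singleton,
    ← Finset.prod_pow, ← h2, ← Ideal.prod_span_singleton]
  refine Finset.prod_congr rfl fun g _ => ?_
  rw [← smul_pow', hx, Ideal.pointwise_smul_def, Ideal.map_span, Set.image_singleton]
  rfl

lemma smul_mem0 (g : N ≃ₐ[ℚ] N) (I : (Ideal (𝓞 N))⁰) : g • I.1 ∈ (Ideal (𝓞 N))⁰ :=
  mem_nonZeroDivisors_of_ne_zero ((smul_ne_zero_iff_ne g).2 (nonZeroDivisors.ne_zero I.2))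

lemma smul_span (g : N ≃ₐ[ℚ] N) (x : 𝓞 N) :
    g • (Ideal.span {x} : Ideal (𝓞 N)) = Ideal.span {g • x} := by
  rw [Ideal.pointwise_smul_def, Ideal.map_span, Set.image_singleton]
  rfl

/-- The action on ideal classes. -/
lemma exists_act {G : Type} [Group G] (ψ : G ≃* (N ≃ₐ[ℚ] N)) :
    ∃ F : G → ClassGroup (𝓞 N) →* ClassGroup (𝓞 N), (∀ a, F 1 a = a) ∧
      (∀ g h a, F g (F h a) = F (g * h) a) ∧ ∀ g (I J : (Ideal (𝓞 N))⁰),
        (J : Ideal (𝓞 N)) = ψ g • I.1 → F g (ClassGroup.mk0 I) = ClassGroup.mk0 J := by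
  choose F hF using fun g : G => exists_cls (MulSemiringAction.toRingHom _ (𝓞 N) (ψ g))
    (MulAction.injective (ψ g))
  replace hF : ∀ g (I J : (Ideal (𝓞 N))⁰), (J : Ideal (𝓞 N)) = ψ g • I.1 →
    F g (ClassGroup.mk0 I) = ClassGroup.mk0 J := hF
  refine ⟨F, fun a => ?_, fun g h a => ?_, hF⟩
  · obtain ⟨I, rfl⟩ := ClassGroup.mk0_surjective a
    exact hF 1 I I (by rw [map_one, one_smul])
  · obtain ⟨I, rfl⟩ := ClassGroup.mk0_surjective a
    rw [hF h I ⟨_, smul_mem0 _ I⟩ rfl, hF g _ ⟨_, smul_mem0 _ ⟨_, smul_mem0 (ψ h) I⟩⟩ rfl]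
    exact (hF (g * h) I _ (by rw [map_mul, mul_smul])).symm

/-- Units modulo cubes. -/
lemma unit_types (hw : ∀ x : N, x ^ 3 = 1 → x = 1) :
    ∃ θ : (𝓞 N)ˣ → Fin (Units.rank N) → ZMod 3, ∀ a b, θ a = θ b → ∃ η, b = a * η ^ 3 := by
  obtain ⟨k, j, -, ⟨c, hc⟩, hk⟩ := exists_exponent N hw
  choose z hz using fun x => (Units.exist_unique_eq_mul_prod N x).exists
  refine ⟨fun a i => (z a).2 i, fun a b h => ?_⟩
  choose e he using fun i => (ZMod.intCast_eq_intCast_iff_dvd_sub _ _ 3).1 (congrFun h i)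
  obtain ⟨n, hn, h1⟩ := isOfFinOrder_iff_pow_eq_one.1 ((z a).1 * (z b).1⁻¹).2
  set ζ : (𝓞 N)ˣ := ((z a).1 * (z b).1⁻¹).1 with hζ
  have h2 : ζ ^ k = 1 := Units.ext (RingOfIntegers.ext (by
    simpa using hk ((ζ : 𝓞 N) : N) n hn.ne' (by
      simpa using congrArg (fun y : (𝓞 N)ˣ => ((y : 𝓞 N) : N)) h1)))
  have h3 : (ζ ^ j) ^ 3 * ζ = 1 := by
    rw [← pow_mul, ← pow_succ, mul_comm, hc, pow_mul, h2, one_pow]
  refine ⟨ζ ^ j * ∏ i, Units.fundSystem N i ^ e i, ?_⟩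
  have h4 : ∀ i, (z b).2 i = (z a).2 i + e i * (3 : ℕ) := fun i => by linarith [he i]
  rw [mul_pow, eq_inv_of_mul_eq_one_left h3, ← Finset.prod_pow]
  conv_lhs => rw [hz b]
  conv_rhs => rw [hz a]
  simp only [h4, zpow_add, zpow_mul, zpow_natCast, Finset.prod_mul_distrib, hζ, Subgroup.coe_mul,
    Subgroup.coe_inv, mul_inv_rev, inv_inv]
  apply Additive.ofMul.injective
  simp only [ofMul_mul, ofMul_inv]
  abel

/-- An ambiguous class with a trivial unit invariant contains an invariant ideal. -/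
lemma exists_inv [IsGalois ℚ N] (hw : ∀ x : N, x ^ 3 = 1 → x = 1) {σ : N ≃ₐ[ℚ] N}
    (hσ : orderOf σ = 3) {I : (Ideal (𝓞 N))⁰} {x y : 𝓞 N} (hx : x ≠ 0) (hy : y ≠ 0)
    (h : Ideal.span {x} * σ • I.1 = Ideal.span {y} * I.1) (η : (𝓞 N)ˣ)
    (hη : y * σ • y * σ • σ • y = x * σ • x * σ • σ • x * η ^ 3) :
    ∃ J : (Ideal (𝓞 N))⁰, σ • J.1 = J.1 ∧ ClassGroup.mk0 J = ClassGroup.mk0 I := by
  let F := IntermediateField.fixedField (Subgroup.zpowers σ)
  have hF : finrank F N = 3 := by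
    rw [IntermediateField.finrank_fixedField_eq_card, Nat.card_zpowers, hσ]
  let σ' : N ≃ₐ[F] N := { σ.toRingEquiv with commutes' := fun x => x.2 ⟨σ, Subgroup.mem_zpowers σ⟩ }
  have h1 : σ' ≠ 1 := fun e => by
    have : σ = 1 := AlgEquiv.ext fun x => DFunLike.congr_fun e x
    rw [this, orderOf_one] at hσ
    omega
  have h3 : ∀ z : 𝓞 N, σ • σ • σ • z = z := fun z => by
    rw [← mul_smul, ← mul_smul, ← pow_three', ← hσ, pow_orderOf_eq_one, one_smul]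
  have hn : ∀ z : 𝓞 N, z ≠ 0 → z * σ • z * σ • σ • z ≠ 0 := fun z hz => by
    simp [hz, smul_eq_zero_iff_eq]
  have h4 : σ • (η : 𝓞 N) = η := by
    have h5 := congrArg (σ • ·) hη
    simp only [smul_mul', h3, smul_pow'] at h5
    have h6 : (σ • (η : 𝓞 N) * ↑η⁻¹) ^ 3 = 1 := by
      apply mul_left_cancel₀ (mul_ne_zero (hn x hx) (pow_ne_zero 3 η.ne_zero))
      rw [mul_one, mul_pow, mul_assoc, mul_left_comm ((η : 𝓞 N) ^ 3), ← mul_pow, η.mul_inv, one_pow,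
        mul_one, ← hη]
      linear_combination -h5
    have h7 : σ • (η : 𝓞 N) * ↑η⁻¹ = 1 := RingOfIntegers.ext (hw _ (by
      simpa using congrArg (fun z : 𝓞 N => (z : N)) h6))
    exact (Units.mul_inv_eq_one).1 h7
  have hc : ∀ z : 𝓞 N, σ' (z : N) = ((σ • z : 𝓞 N) : N) := fun _ => rfl
  have hy' : (y : N) ≠ 0 := by simpa using hy
  obtain ⟨z, hz0, hz⟩ := UnrAAux.exists_int hF h1 (u := ((x * η : 𝓞 N) : N) / y) (by
    have h5 := congrArg (fun z : 𝓞 N => (z : N)) hη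
    have h6 : ((y * σ • y * σ • σ • y : 𝓞 N) : N) ≠ 0 :=
      RingOfIntegers.coe_eq_zero_iff.not.2 (hn y hy)
    simp only [map_div₀, hc, smul_mul', h4]
    rw [div_mul_div_comm, div_mul_div_comm, div_eq_one_iff_eq (by simpa using h6)]
    simp only [map_mul, map_pow] at h5 ⊢
    linear_combination -h5)
  have h5 : x * η * z = y * σ • z := RingOfIntegers.ext (by
    rw [div_mul_eq_mul_div, div_eq_iff hy', hc] at hz
    simpa [mul_comm] using hz)
  have hz1 : Ideal.span {z} ∈ (Ideal (𝓞 N))⁰ := mem_nonZeroDivisors_of_ne_zero (by simpa using hz0)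
  refine ⟨⟨_, hz1⟩ * I, ?_, ?_⟩
  · apply mul_left_cancel₀ (a := Ideal.span {x}) (by simpa using hx)
    rw [Submonoid.coe_mul, smul_mul', mul_left_comm, h, ← mul_assoc, ← mul_assoc, smul_span,
      Ideal.span_singleton_mul_span_singleton, Ideal.span_singleton_mul_span_singleton,
      mul_comm _ y, ← h5, mul_right_comm,
      Ideal.span_singleton_mul_right_unit η.isUnit]
  · rw [map_mul, (ClassGroup.mk0_eq_one_iff hz1).2 ⟨z, rfl⟩, one_mul]

/-- The class of an invariant ideal. -/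
lemma inv_mem {σ : N ≃ₐ[ℚ] N} (h3 : ∀ I : Ideal (𝓞 N), σ • σ • σ • I = I)
    (s : ClassGroup (𝓞 N) →* ClassGroup (𝓞 N))
    (hs : ∀ I J : (Ideal (𝓞 N))⁰, (J : Ideal (𝓞 N)) = σ • I.1 →
      s (ClassGroup.mk0 I) = ClassGroup.mk0 J) (R : Subgroup (ClassGroup (𝓞 N)))
    (r1 : ∀ P : HeightOneSpectrum (𝓞 N), σ • P.asIdeal = P.asIdeal → cls P ∈ R)
    (r2 : ∀ a, a ^ 3 ∈ R) (r3 : ∀ a, s a * a⁻¹ ∈ R) (J : Ideal (𝓞 N)) :
    ∀ hJ : J ∈ (Ideal (𝓞 N))⁰, σ • J = J → ClassGroup.mk0 ⟨J, hJ⟩ ∈ R := by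
  induction J using (wellFounded_dvdNotUnit (α := Ideal (𝓞 N))).induction with
  | _ J ih =>
  intro hJ hσ
  by_cases hu : IsUnit J
  · have : (⟨J, hJ⟩ : (Ideal (𝓞 N))⁰) = 1 := Subtype.ext (by simpa using Ideal.isUnit_iff.1 hu)
    rw [this, map_one]
    exact R.one_mem
  obtain ⟨Q, q1, ⟨J', rfl⟩, q3, q4⟩ : ∃ Q : (Ideal (𝓞 N))⁰, ¬ IsUnit Q.1 ∧ Q.1 ∣ J ∧
      σ • Q.1 = Q.1 ∧ ClassGroup.mk0 Q ∈ R := by
    obtain ⟨P, p1, p2⟩ := WfDvdMonoid.exists_irreducible_factor hu (nonZeroDivisors.ne_zero hJ)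
    have hP := Ideal.isPrime_of_prime p1.prime
    let P0 : (Ideal (𝓞 N))⁰ := ⟨P, mem_nonZeroDivisors_of_ne_zero p1.ne_zero⟩
    by_cases h : σ • P = P
    · exact ⟨P0, p1.not_isUnit, p2, h, r1 ⟨P, hP, p1.ne_zero⟩ h⟩
    let P1 : (Ideal (𝓞 N))⁰ := ⟨_, smul_mem0 σ P0⟩
    let P2 : (Ideal (𝓞 N))⁰ := ⟨_, smul_mem0 σ P1⟩
    have hc : IsCoprime P (σ • P) := Ideal.isCoprime_iff_sup_eq.2
      ((hP.isMaximal p1.ne_zero).coprime_of_ne (Ideal.IsPrime.isMaximal inferInstance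
        (nonZeroDivisors.ne_zero P1.2)) (Ne.symm h))
    let f := MulSemiringAction.toRingHom (N ≃ₐ[ℚ] N) (Ideal (𝓞 N)) σ
    have hc1 : IsCoprime (σ • P) (σ • σ • P) := hc.map f
    have hc2 : IsCoprime (σ • σ • P) (σ • σ • σ • P) := hc1.map f
    have d1 : σ • P ∣ J := hσ ▸ map_dvd f p2
    rw [h3] at hc2
    refine ⟨P0 * P1 * P2, fun e => p1.not_isUnit (isUnit_of_mul_isUnit_left
      (isUnit_of_mul_isUnit_left e)), (hc2.symm.mul_left hc1).mul_dvd (hc.mul_dvd p2 d1)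
        (hσ ▸ map_dvd f d1), ?_, ?_⟩
    · show σ • (P * σ • P * σ • σ • P) = P * σ • P * σ • σ • P
      rw [smul_mul', smul_mul', h3]
      ring
    · rw [map_mul, map_mul, ← hs P1 P2 rfl, ← hs P0 P1 rfl]
      convert R.mul_mem (R.mul_mem (r2 (ClassGroup.mk0 P0)) (R.pow_mem (r3 (ClassGroup.mk0 P0)) 2))
        (r3 (s (ClassGroup.mk0 P0))) using 1
      apply Additive.ofMul.injective
      simp only [ofMul_mul, ofMul_pow, ofMul_inv]
      abel
  have h0 : J' ≠ 0 := right_ne_zero_of_mul (nonZeroDivisors.ne_zero hJ)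
  rw [smul_mul', q3] at hσ
  have h1 := R.mul_mem q4 (ih J' ⟨h0, Q.1, q1, mul_comm _ _⟩ (mem_nonZeroDivisors_of_ne_zero h0)
    (mul_left_cancel₀ (nonZeroDivisors.ne_zero Q.2) hσ))
  rwa [← map_mul] at h1

/-- Ambiguous classes modulo the classes of invariant ideals. -/
lemma amb_index [IsGalois ℚ N] (hw : ∀ x : N, x ^ 3 = 1 → x = 1) {σ : N ≃ₐ[ℚ] N}
    (hσ : orderOf σ = 3) (s : ClassGroup (𝓞 N) →* ClassGroup (𝓞 N))
    (hs : ∀ I J : (Ideal (𝓞 N))⁰, (J : Ideal (𝓞 N)) = σ • I.1 →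
      s (ClassGroup.mk0 I) = ClassGroup.mk0 J) (R : Subgroup (ClassGroup (𝓞 N)))
    (r1 : ∀ J : (Ideal (𝓞 N))⁰, σ • J.1 = J.1 → ClassGroup.mk0 J ∈ R) (r2 : ∀ a, a ^ 3 ∈ R) :
    R.relIndex (s.eqLocus (MonoidHom.id _)) ≤ 3 ^ finrank ℚ N := by
  have h3 : ∀ I : Ideal (𝓞 N), σ • σ • σ • I = I := fun z => by
    rw [← mul_smul, ← mul_smul, ← pow_three', ← hσ, pow_orderOf_eq_one, one_smul]
  have hex : ∀ a : s.eqLocus (MonoidHom.id _), ∃ (I : (Ideal (𝓞 N))⁰) (x y : 𝓞 N) (ε : (𝓞 N)ˣ),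
      ClassGroup.mk0 I = a ∧ x ≠ 0 ∧ y ≠ 0 ∧ Ideal.span {x} * σ • I.1 = Ideal.span {y} * I.1 ∧
        y * σ • y * σ • σ • y = x * σ • x * σ • σ • x * ε := by
    rintro ⟨a, ha⟩
    obtain ⟨I, rfl⟩ := ClassGroup.mk0_surjective a
    obtain ⟨x, y, hx, hy, h⟩ := ClassGroup.mk0_eq_mk0_iff.1
      ((hs I ⟨_, smul_mem0 σ I⟩ rfl).symm.trans ha)
    have h1 := congrArg (σ • ·) h
    have h2 := congrArg (σ • ·) h1
    simp only [smul_mul', smul_span, h3] at h h1 h2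
    obtain ⟨ε, hε⟩ := (Ideal.span_singleton_eq_span_singleton (x := x * σ • x * σ • σ • x)
      (y := y * σ • y * σ • σ • y)).1 (by
        apply mul_right_cancel₀ (b := σ • I.1 * σ • σ • I.1 * I.1) (nonZeroDivisors.ne_zero
          (mul_mem (mul_mem (smul_mem0 σ I) (smul_mem0 σ ⟨_, smul_mem0 σ I⟩)) I.2))
        simp only [← Ideal.span_singleton_mul_span_singleton]
        rw [mul_mul_mul_comm, mul_mul_mul_comm (Ideal.span {x}), h, h1, h2]
        ring)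
    exact ⟨I, x, y, ε, rfl, hx, hy, h, hε.symm⟩
  choose I x y ε e1 e2 e3 e4 e5 using hex
  obtain ⟨θ, hθ⟩ := unit_types hw
  refine (index_le_of_types _ (fun a => θ (ε a)) fun a b h => ?_).trans ?_
  · obtain ⟨η, hη⟩ := hθ _ _ h
    obtain ⟨J, j1, j2⟩ := exists_inv hw hσ (I := I a * I a * I b) (x := x a * x a * x b)
      (y := y a * y a * y b) (by simp [e2]) (by simp [e3]) (by
        simp only [← Ideal.span_singleton_mul_span_singleton, Submonoid.coe_mul, smul_mul']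
        rw [mul_mul_mul_comm, mul_mul_mul_comm (Ideal.span {x a}), e4, e4]
        ring) (ε a * η) (by
        have h1 := e5 a
        have h2 := e5 b
        rw [hη] at h2
        simp only [smul_mul', Units.val_mul, Units.val_pow_eq_pow_val] at h2 ⊢
        calc _ = (y a * σ • y a * σ • σ • y a) ^ 2 * (y b * σ • y b * σ • σ • y b) := by ring
          _ = _ := by rw [h1, h2]; ring)
    have h1 := R.mul_mem (R.inv_mem (r2 a)) (j2 ▸ r1 J j1)
    rwa [map_mul, map_mul, e1, e1, ← mul_assoc, pow_three, mul_inv_rev, mul_comm _ (a.1)⁻¹,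
      inv_mul_cancel_right] at h1
  · rw [Nat.card_fun, Nat.card_zmod, Nat.card_fin]
    refine Nat.pow_le_pow_right (by norm_num) ?_
    have := InfinitePlace.card_add_two_mul_card_eq_rank N
    have := InfinitePlace.card_eq_nrRealPlaces_add_nrComplexPlaces N
    simp only [Units.rank]
    omega

lemma rank_six [IsGalois ℚ N] (ψ : Equiv.Perm (Fin 3) ≃* (N ≃ₐ[ℚ] N)) : finrank ℚ N = 6 := by
  rw [← IsGalois.card_aut_eq_finrank, ← Nat.card_congr ψ.toEquiv, Nat.card_perm, Nat.card_fin]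
  rfl

lemma layers [IsGalois ℚ N] (ψ : Equiv.Perm (Fin 3) ≃* (N ≃ₐ[ℚ] N))
    (K : Type) [Field K] [NumberField K] [Algebra K N]
    (hK : finrank ℚ K = 3) (hτ : ∀ x : K, ψ (Equiv.swap 1 2) (algebraMap K N x) = algebraMap K N x)
    {F : Equiv.Perm (Fin 3) → ClassGroup (𝓞 N) →* ClassGroup (𝓞 N)} (F1 : ∀ a, F 1 a = a)
    (F2 : ∀ g h a, F g (F h a) = F (g * h) a) (hF : ∀ g (I J : (Ideal (𝓞 N))⁰),
      (J : Ideal (𝓞 N)) = ψ g • I.1 → F g (ClassGroup.mk0 I) = ClassGroup.mk0 J)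
    (R : Subgroup (ClassGroup (𝓞 N))) (r1 : ∀ a, a ^ 3 ∈ R)
    (r2 : ∀ a, F (finRotate 3) a * a⁻¹ ∈ R) (r3 : ∀ a, F (finRotate 3) a = a → a ∈ R) :
    R.index ≤ h3 K := by
  classical
  obtain ⟨j, hj⟩ := exists_cls (algebraMap (𝓞 K) (𝓞 N)) (FaithfulSMul.algebraMap_injective _ _)
  have : IsGalois K N := IsGalois.tower_top_of_isGalois ℚ K N
  let τ' : N ≃ₐ[K] N := { (ψ (Equiv.swap 1 2)).toRingEquiv with commutes' := hτ }
  have h1 : 1 ≠ τ' := fun e => absurd (ψ.injective ((map_one ψ).trans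
    (AlgEquiv.ext fun x => DFunLike.congr_fun e x : 1 = ψ (Equiv.swap 1 2)))) (by decide)
  have hu : (Finset.univ : Finset (N ≃ₐ[K] N)) = {1, τ'} := by
    have h2 := finrank_mul_finrank ℚ K N
    refine (Finset.eq_univ_of_card _ ?_).symm
    rw [Finset.card_pair h1, ← Nat.card_eq_fintype_card, IsGalois.card_aut_eq_finrank]
    rw [hK, rank_six ψ] at h2
    omega
  refine index_le_layers (F (finRotate 3)) (F (Equiv.swap 1 2)) j (fun a => ?_) (fun a => ?_)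
    (fun a => ?_) (fun c => ?_) (fun a => ?_) (fun a => ?_) R r1 r2 r3
  · rw [F2, F2, show finRotate 3 * finRotate 3 * finRotate 3 = 1 by decide, F1]
  · rw [F2, Equiv.swap_mul_self, F1]
  · rw [F2, F2, F2]
    exact congrArg (F · a) (by decide)
  · obtain ⟨I, rfl⟩ := ClassGroup.mk0_surjective c
    rw [hj I (ClassGroup.extendedIdeal _ _ I) rfl]
    refine hF _ _ _ ?_
    rw [Ideal.pointwise_smul_def, Ideal.map_map]
    exact congrArg I.1.map (RingHom.ext fun x => RingOfIntegers.ext (hτ x).symm)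
  · obtain ⟨I, rfl⟩ := ClassGroup.mk0_surjective a
    obtain ⟨J, hJ⟩ := norm_ideal K I
    rw [hu, Finset.prod_pair h1, one_smul] at hJ
    have h2 : τ' • I.1 = ψ (Equiv.swap 1 2) • I.1 := rfl
    refine ⟨ClassGroup.mk0 J, ?_⟩
    rw [hF _ I ⟨_, smul_mem0 _ I⟩ rfl, ← map_mul]
    refine hj _ _ ?_
    rw [Submonoid.coe_mul, ← hJ, h2]
  · obtain ⟨I, rfl⟩ := ClassGroup.mk0_surjective a
    obtain ⟨J, hJ⟩ := norm_ideal ℚ I
    have := (classNumber_eq_one_iff (K := ℚ)).1 Rat.classNumber_eq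
    obtain ⟨z, hz⟩ := (IsPrincipalIdealRing.principal J.1).principal
    have h0 : ∀ X : (Ideal (𝓞 N))⁰, X.1.IsPrincipal → ClassGroup.mk0 X = 1 := fun X =>
      (ClassGroup.mk0_eq_one_iff X.2).2
    have h1 := h0 (∏ g, ⟨_, smul_mem0 g I⟩) ⟨algebraMap (𝓞 ℚ) _ z, by
      rw [Submonoid.coe_finsetProd, hJ, hz, Ideal.submodule_span_eq, Ideal.map_span,
        Set.image_singleton, Ideal.submodule_span_eq]⟩
    rw [map_prod, ← Equiv.prod_comp ψ.toEquiv, Finset.prod_congr rfl fun π _ =>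
      (hF π I ⟨_, smul_mem0 (ψ.toEquiv π) I⟩ rfl).symm] at h1
    have h2 : (Finset.univ : Finset (Equiv.Perm (Fin 3))) = {1, Equiv.swap 1 2, finRotate 3,
      finRotate 3 * Equiv.swap 1 2, finRotate 3 * finRotate 3,
      finRotate 3 * (finRotate 3 * Equiv.swap 1 2)} := by decide
    rw [h2, Finset.prod_insert (by decide), Finset.prod_insert (by decide),
      Finset.prod_insert (by decide), Finset.prod_insert (by decide),
      Finset.prod_pair (by decide), F1] at h1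
    simp only [map_mul, F2, mul_assoc, h1]

theorem exists_T [IsGalois ℚ N] (ψ : Equiv.Perm (Fin 3) ≃* (N ≃ₐ[ℚ] N))
    (hw : ∀ x : N, x ^ 3 = 1 → x = 1) (K : Type) [Field K] [NumberField K] [Algebra K N]
    (hK : finrank ℚ K = 3) (hτ : ∀ x : K, ψ (Equiv.swap 1 2) (algebraMap K N x) = algebraMap K N x) :
    ∃ T0 T : Finset (HeightOneSpectrum (𝓞 N)), 3 ^ T0.card ≤ 3 ^ 6 * h3 K ∧ Sat T ∧
      ∀ P ∈ T, ψ (finRotate 3) • P.asIdeal = P.asIdeal ∨
        ∃ P0 ∈ T0, ∃ g : N ≃ₐ[ℚ] N, P.asIdeal = g • P0.asIdeal := by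
  classical
  obtain ⟨F, F1, F2, hF⟩ := exists_act ψ
  have hL := layers ψ K hK hτ F1 F2 hF
  have hs := hF (finRotate 3)
  have s3 : ∀ a, F (finRotate 3) (F (finRotate 3) (F (finRotate 3) a)) = a := fun a => by
    rw [F2, F2, show finRotate 3 * finRotate 3 * finRotate 3 = 1 by decide, F1]
  have hσ3 : orderOf (ψ (finRotate 3)) = 3 := by
    have : Fact (Nat.Prime 3) := ⟨Nat.prime_three⟩
    rw [MulEquiv.orderOf_eq]
    exact orderOf_eq_prime (by decide) (by decide)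
  generalize ψ (finRotate 3) = σ at hs hσ3
  generalize F (finRotate 3) = s at hL hs s3
  let C3 := (powMonoidHom 3 : ClassGroup (𝓞 N) →* _).range
  let R := Subgroup.closure (cls '' {P : HeightOneSpectrum (𝓞 N) | σ • P.asIdeal = P.asIdeal}) ⊔
    C3 ⊔ (s * (MonoidHom.id _)⁻¹).range
  have r2 : ∀ a, a ^ 3 ∈ R := fun a => Subgroup.mem_sup_left (Subgroup.mem_sup_right ⟨a, rfl⟩)
  have r3 : ∀ a, s a * a⁻¹ ∈ R := fun a => Subgroup.mem_sup_right ⟨a, rfl⟩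
  have i1 := amb_index hw hσ3 s hs R (fun J hJ => inv_mem (fun z => by
    rw [← mul_smul, ← mul_smul, ← pow_three', ← hσ3, pow_orderOf_eq_one, one_smul]) s hs R
    (fun P hP => Subgroup.mem_sup_left (Subgroup.mem_sup_left (Subgroup.subset_closure
      ⟨P, hP, rfl⟩))) r2 r3 J.1 J.2 hJ) r2
  have i2 := hL (R ⊔ s.eqLocus (MonoidHom.id _)) (fun a => Subgroup.mem_sup_left (r2 a))
    (fun a => Subgroup.mem_sup_left (r3 a)) fun a ha => Subgroup.mem_sup_right ha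
  obtain ⟨T0, -, t1, t2⟩ := AlgAux.greedy (cls (K := N)) _ AlgAux.eq_top_of_cls R r2 _ ∅
    (by simp) (by simp) rfl
  let S : Set (HeightOneSpectrum (𝓞 N)) := {P | σ • P.asIdeal = P.asIdeal ∨
    ∃ P0 ∈ T0, ∃ g : N ≃ₐ[ℚ] N, P.asIdeal = g • P0.asIdeal}
  obtain ⟨T, t3, t4⟩ := (Finset.subset_set_image_iff (s := S) (f := cls)
    (t := (cls '' S).toFinset)).1 (by simp)
  refine ⟨T0, T, t1.trans ?_, AlgAux.sat_of_top _ ?_, t3⟩
  · rw [← Subgroup.relIndex_mul_index (le_sup_left : R ≤ R ⊔ s.eqLocus (MonoidHom.id _)),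
      Subgroup.relIndex_sup_left]
    exact Nat.mul_le_mul (rank_six ψ ▸ i1) i2
  rw [← Finset.coe_image, t4, Set.coe_toFinset]
  refine nakayama s s3 _ (fun a => Subgroup.mem_sup_right ⟨a, rfl⟩) ?_ (top_le_iff.1 ?_)
  · refine fun a ha => Subgroup.mem_comap.1 (sup_le (c := Subgroup.comap s _)
      ((Subgroup.closure_le _).2 ?_) ?_ ha)
    · rintro _ ⟨P, hP, rfl⟩
      have := P.isPrime
      refine Subgroup.mem_sup_left (Subgroup.subset_closure ⟨⟨σ • P.asIdeal, inferInstance,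
        (smul_ne_zero_iff_ne σ).2 P.ne_bot⟩, ?_, (hs _ _ rfl).symm⟩)
      rcases hP with h | ⟨P0, h, g, e⟩
      · exact Or.inl (congrArg (σ • ·) h)
      · exact Or.inr ⟨P0, h, σ * g, by rw [mul_smul, ← e]⟩
    · rintro _ ⟨a, rfl⟩
      exact Subgroup.mem_sup_right ⟨s a, (map_pow s a 3).symm⟩
  · rw [← t2, ← sup_assoc, ← sup_assoc]
    refine sup_le_sup_right (sup_le_sup_right (sup_le (Subgroup.closure_mono (Set.image_mono ?_))
      (Subgroup.closure_mono (Set.image_mono ?_))) _) _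
    · exact fun P hP => Or.inr ⟨P, hP, 1, (one_smul _ _).symm⟩
    · exact fun P hP => Or.inl hP

end Pool.Agent.Lib.MP_af4c59_nt.H59
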