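import Pool.Agent.Lib.MP_af4c59_nt.H59Defs
import Pool.Agent.Lib.MP_af4c59_nt.H32Div

/-!
Elementary estimates for averaged counts.
-/

namespace Pool.Agent.Lib.MP_af4c59_nt.H59

open Finset

lemma Bd.mono {a a' : Dat → ℕ → ℕ} (h : Bd a') (hle : ∀ d r, 1 ≤ r → a d r ≤ a' d r) : Bd a := by
  intro ε hε
  obtain ⟨C, hC, h⟩ := h ε hε
  refine ⟨C, hC, fun d N => le_trans (sum_le_sum fun r hr => ?_) (h d N)⟩
  exact_mod_cast hle d r (mem_Icc.1 hr).1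

lemma Sm.mono {a a' : Dat → ℕ → ℕ} (h : Sm a') (hle : ∀ d r, 1 ≤ r → a d r ≤ a' d r) : Sm a := by
  intro ε hε
  obtain ⟨C, hC, h⟩ := h ε hε
  refine ⟨C, hC, fun d r hr => le_trans ?_ (h d r hr)⟩
  exact_mod_cast hle d r hr

lemma Sm.mul {s a : Dat → ℕ → ℕ} (hs : Sm s) (ha : Bd a) : Bd fun d r => s d r * a d r := by
  intro ε hε
  obtain ⟨C, hC, h⟩ := hs (ε / 2) (half_pos hε)
  obtain ⟨C', hC', h'⟩ := ha (ε / 2) (half_pos hε)
  refine ⟨C * C', by positivity, fun d N => ?_⟩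
  have h1 : ∑ r ∈ Icc 1 N, ((s d r * a d r : ℕ) : ℝ) ≤
      ∑ r ∈ Icc 1 N, C * (N : ℝ) ^ (ε / 2) * (a d r : ℝ) := sum_le_sum fun r hr => by
    obtain ⟨h2, h3⟩ := mem_Icc.1 hr
    have h4 : (r : ℝ) ≤ N := by exact_mod_cast h3
    rw [Nat.cast_mul]
    refine mul_le_mul_of_nonneg_right ((h d r h2).trans ?_) (Nat.cast_nonneg _)
    gcongr
  rw [← mul_sum] at h1
  refine h1.trans ((mul_le_mul_of_nonneg_left (h' d N) (by positivity)).trans_eq ?_)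
  have h2 : (N : ℝ) ^ (1 + ε) = (N : ℝ) ^ (ε / 2) * (N : ℝ) ^ (1 + ε / 2) := by
    rw [← Real.rpow_add' (Nat.cast_nonneg _) (by positivity)]
    congr 1
    ring
  rw [h2]
  ring

lemma Bd.sum {ι : Type} (T : Finset ι) {a : ι → Dat → ℕ → ℕ} (h : ∀ i ∈ T, Bd (a i)) :
    Bd fun d r => ∑ i ∈ T, a i d r := by
  intro ε hε
  choose! C hC h using fun i hi => h i hi ε hε
  refine ⟨∑ i ∈ T, C i, sum_nonneg hC, fun d N => ?_⟩
  simp only [Nat.cast_sum]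
  rw [sum_comm, sum_mul]
  exact sum_le_sum fun i hi => h i hi d N

lemma bd_one : Bd fun _ _ => 1 := by
  intro ε hε
  refine ⟨1, zero_le_one, fun _ N => ?_⟩
  rcases Nat.eq_zero_or_pos N with rfl | hN
  · simp
    positivity
  · have h1 : (1 : ℝ) ≤ N := by exact_mod_cast hN
    simpa using Real.rpow_le_rpow_of_exponent_le h1 (by linarith : (1 : ℝ) ≤ 1 + ε)

lemma sm_omega (c k : ℕ) : Sm fun _ r => c ^ r.primeFactors.card * k := by
  intro ε hε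
  obtain ⟨C, hC, h⟩ := H32.omega_bound c hε
  refine ⟨C * k, by positivity, fun _ r hr => ?_⟩
  have h1 : (c : ℝ) ≤ 2 ^ c := by exact_mod_cast (Nat.lt_two_pow_self (n := c)).le
  have h2 := (pow_le_pow_left₀ (Nat.cast_nonneg c) h1 _).trans (h r (by omega))
  push_cast
  rw [mul_right_comm]
  gcongr

/-- From a count by the least conductor to the averaged count. -/
lemma bd_of_cond {α : Dat → Type} [∀ d, Finite (α d)] (Q : ∀ d, ℕ → α d → Prop)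
    (hg : ∀ d r r' x, Q d r x → Q d r' x → Q d (Nat.gcd r r') x)
    (hA : ∀ ε : ℝ, 0 < ε → ∃ C : ℝ, 0 ≤ C ∧ ∀ (d : Dat) (y : ℝ), 1 ≤ y → ∀ S : Finset (α d),
      (∀ x ∈ S, ∃ f : ℕ, 0 < f ∧ (f : ℝ) ≤ y ∧ Q d f x) → (S.card : ℝ) ≤ C * y ^ (1 + ε)) :
    Bd fun d r => Nat.card {x // Q d r x} := by
  classical
  intro ε hε
  obtain ⟨C, hC, hA⟩ := hA ε hε
  have hsum : Summable fun m : ℕ => ((m : ℝ) ^ (1 + ε))⁻¹ :=
    Real.summable_nat_rpow_inv.2 (by linarith)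
  set T : ℝ := ∑' m : ℕ, ((m : ℝ) ^ (1 + ε))⁻¹ with hT
  have hT0 : 0 ≤ T := tsum_nonneg fun m => by positivity
  refine ⟨C * T, by positivity, fun d N => ?_⟩
  have := Fintype.ofFinite (α d)
  let R : ℕ → α d → Prop := fun k x => ∃ f : ℕ, 0 < f ∧ (f : ℝ) ≤ (N : ℝ) / k ∧ Q d f x
  have h1 : ∑ r ∈ Icc 1 N, Nat.card {x // Q d r x} ≤ ∑ k ∈ Icc 1 N, #(univ.filter (R k)) := by
    simp only [Nat.card_eq_fintype_card, Fintype.card_subtype, card_filter]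
    rw [sum_comm, sum_comm (s := Icc 1 N)]
    refine sum_le_sum fun x _ => ?_
    rw [← card_filter, ← card_filter]
    by_cases hx : ∃ f, 0 < f ∧ Q d f x
    swap
    · rw [filter_false_of_mem fun r hr h => hx ⟨r, (mem_Icc.1 hr).1, h⟩]
      exact Nat.zero_le _
    obtain ⟨f1, f2⟩ := Nat.find_spec hx
    have hd : ∀ r, Q d r x → Nat.find hx ∣ r := fun r hr => by
      have h2 := Nat.find_min' hx ⟨Nat.gcd_pos_of_pos_left r f1, hg d _ _ x f2 hr⟩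
      rw [le_antisymm h2 (Nat.gcd_le_left r f1)]
      exact Nat.gcd_dvd_right _ _
    refine card_le_card_of_injOn (fun r => r / Nat.find hx) (fun r hr => ?_) fun r hr r' hr' e => ?_
    · obtain ⟨h2, h3⟩ := mem_filter.1 (mem_coe.1 hr)
      obtain ⟨h4, h5⟩ := mem_Icc.1 h2
      obtain ⟨k, hk⟩ := hd r h3
      have hk0 : 0 < k := Nat.pos_of_ne_zero fun h => by rw [h, mul_zero] at hk; omega
      have h6 : r / Nat.find hx = k := Nat.div_eq_of_eq_mul_right f1 hk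
      refine mem_coe.2 (mem_filter.2 ⟨mem_Icc.2 ⟨by simp only [h6]; exact hk0,
        (Nat.div_le_self _ _).trans h5⟩, _, f1, ?_, f2⟩)
      simp only [h6]
      rw [le_div_iff₀ (by exact_mod_cast hk0)]
      exact_mod_cast hk ▸ h5
    · rw [← Nat.div_mul_cancel (hd r (mem_filter.1 (mem_coe.1 hr)).2),
        ← Nat.div_mul_cancel (hd r' (mem_filter.1 (mem_coe.1 hr')).2)]
      exact congrArg (· * _) e
  have h2 : ∑ k ∈ Icc 1 N, (#(univ.filter (R k)) : ℝ) ≤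
      ∑ k ∈ Icc 1 N, C * (N : ℝ) ^ (1 + ε) * ((k : ℝ) ^ (1 + ε))⁻¹ := sum_le_sum fun k hk => by
    obtain ⟨h3, h4⟩ := mem_Icc.1 hk
    have h5 : (0 : ℝ) < k := by exact_mod_cast h3
    refine (hA d _ ((one_le_div h5).2 (by exact_mod_cast h4)) _
      fun x hx => (mem_filter.1 hx).2).trans_eq ?_
    rw [Real.div_rpow (Nat.cast_nonneg _) h5.le, div_eq_mul_inv, mul_assoc]
  rw [← mul_sum] at h2
  have h3 : ∑ k ∈ Icc 1 N, ((k : ℝ) ^ (1 + ε))⁻¹ ≤ T :=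
    hsum.sum_le_tsum _ fun m _ => by positivity
  calc _ ≤ ∑ k ∈ Icc 1 N, (#(univ.filter (R k)) : ℝ) := by exact_mod_cast h1
    _ ≤ _ := h2
    _ ≤ C * (N : ℝ) ^ (1 + ε) * T := by gcongr
    _ = _ := by ring

end Pool.Agent.Lib.MP_af4c59_nt.H59
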