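import Pool.Agent.Lib.MP_af4c59_nt.H59Field
import Pool.Agent.Lib.MP_af4c59_nt.H59Sum

/-!
Twisting steps for the count of homomorphisms with restricted ramification.
-/

namespace Pool.Agent.Lib.MP_af4c59_nt.H59

variable {H K : Type} [Group H] [Group K] {d : Dat} {b r : ℕ}

instance [Finite H] : Finite (d.Γ →* H) := DFunLike.finite _

lemma Unr.comp {ρ : d.Γ →* K} (h : Unr d b r ρ) (f : K →* H) : Unr d b r (f.comp ρ) :=
  fun p h1 h2 h3 σ hσ => by rw [MonoidHom.comp_apply, h p h1 h2 h3 σ hσ, map_one]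

lemma Unr.gcd {r' : ℕ} {ρ : d.Γ →* H} (h : Unr d b r ρ) (h' : Unr d b r' ρ) :
    Unr d b (Nat.gcd r r') ρ := fun p h1 h2 h3 => by
  by_cases h4 : p ∣ r
  · exact h' p h1 h2 fun h5 => h3 (Nat.dvd_gcd h4 h5)
  · exact h p h1 h2 h4

instance : Nonempty {ρ : d.Γ →* H // Unr d b r ρ} := ⟨⟨1, fun _ _ _ _ _ _ => rfl⟩⟩

lemma u_mono [Finite H] {b' : ℕ} (h : b ≤ b') : u H d b r ≤ u H d b' r :=
  Nat.card_le_card_of_injective (fun ρ => ⟨ρ.1, fun p h1 h2 => ρ.2 p h1 (by omega)⟩)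
    fun _ _ e => Subtype.ext (congrArg Subtype.val e :)

lemma u_inj [Finite H] (f : K →* H) (hf : Function.Injective f) : u K d b r ≤ u H d b r :=
  Nat.card_le_card_of_injective (fun ρ => ⟨f.comp ρ.1, ρ.2.comp f⟩) fun _ _ e =>
    Subtype.ext (MonoidHom.ext fun σ => hf (DFunLike.congr_fun (congrArg Subtype.val e) σ))

lemma RR.of_inj [Finite H] (h : RR H) (f : K →* H) (hf : Function.Injective f) : RR K :=
  fun b => (h b).mono fun _ _ _ => u_inj f hf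

lemma RR.of_large [Finite H] (b0 : ℕ) (h : ∀ b, b0 ≤ b → Bd fun d r => u H d b r) : RR H :=
  fun b => (h (max b b0) (le_max_right _ _)).mono fun _ _ _ => u_mono (le_max_left _ _)

/-- Splitting according to the image. -/
lemma card_split [Finite H] [Fintype (Subgroup H)] (Q : (d.Γ →* H) → Prop) :
    Nat.card {ρ // Q ρ} ≤
      ∑ K : Subgroup H, Nat.card {ρ : d.Γ →* K // Function.Surjective ρ ∧ Q (K.subtype.comp ρ)} := by
  rw [← Nat.card_sigma]
  refine Nat.card_le_card_of_surjective (fun z => ⟨z.1.subtype.comp z.2.1, z.2.2.2⟩) fun ρ =>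
    ⟨⟨ρ.1.range, ρ.1.rangeRestrict, ρ.1.rangeRestrict_surjective, ρ.2⟩, rfl⟩

lemma card_surj_one (K : Type) [Group K] [Finite K] (b : ℕ) : ∃ C : ℕ, ∀ d : Dat,
    Nat.card {ρ : d.Γ →* K // Function.Surjective ρ ∧ Unr d b 1 ρ} ≤ C := by
  classical
  set n := Nat.card K with hn
  let e : K ≃ Fin n := Finite.equivFin K
  let l : K →* Equiv.Perm (Fin n) := e.permCongrHom.toMonoidHom.comp (MulAction.toPermHom K K)
  have hl : Function.Injective l := e.permCongrHom.injective.comp MulAction.toPerm_injective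
  refine ⟨n ^ n * (FS n l.range (((max b n).factorial : ℝ) ^ n ^ 2 * 1 ^ 0)).ncard, fun d => ?_⟩
  have := Fintype.ofFinite {ρ : d.Γ →* K // Function.Surjective ρ ∧ Unr d b 1 ρ}
  refine le_trans ?_ (card_le_FS l.range (e 1) (fun i => ⟨l (e.symm i), ⟨_, rfl⟩, by simp [l]⟩)
    (le_max_right b n) id (by simp) d 1 (Finset.univ.image
      fun ρ : {ρ : d.Γ →* K // Function.Surjective ρ ∧ Unr d b 1 ρ} => l.comp ρ.1) fun ρ hρ => ?_)
  · rw [Finset.card_image_of_injective _ fun ρ ρ' h =>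
      Subtype.ext (MonoidHom.ext fun σ => hl (DFunLike.congr_fun h σ)), Nat.card_eq_fintype_card]
    rfl
  · obtain ⟨⟨ρ, h1, h2⟩, -, rfl⟩ := Finset.mem_image.1 hρ
    have h3 : Unr d (max b n) 1 (l.comp ρ) := fun p a c =>
      h2.comp l p a (lt_of_le_of_lt (le_max_left _ _) c)
    refine ⟨?_, ⟨1, one_pos, by simp, h3⟩, fun p a c σ hσ i => ?_⟩
    · rw [MonoidHom.range_comp, MonoidHom.range_eq_top.2 h1, MonoidHom.range_eq_map]
    · rw [h3 p a c a.not_dvd_one σ hσ]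
      rfl

/-- Boundedly many homomorphisms are unramified above `b`. -/
lemma u_one (H : Type) [Group H] [Finite H] (b : ℕ) : ∃ C : ℕ, ∀ d : Dat, u H d b 1 ≤ C := by
  have := Fintype.ofFinite (Subgroup H)
  choose C hC using fun K : Subgroup H => card_surj_one K b
  refine ⟨∑ K, C K, fun d => (card_split _).trans (Finset.sum_le_sum fun K _ => ?_)⟩
  refine le_trans (Nat.card_le_card_of_injective (fun ρ => ⟨ρ.1, ρ.2.1,
    fun p h1 h2 h3 σ hσ => Subtype.ext (ρ.2.2 p h1 h2 h3 σ hσ)⟩) fun _ _ e => ?_) (hC K d)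
  exact Subtype.ext (congrArg Subtype.val e :)

/-- All tame inertia is fixed by `π`. -/
def Min (d : Dat) (b : ℕ) (π : H →* H) (ρ : d.Γ →* H) : Prop :=
  ∀ p : ℕ, p.Prime → b < p → ∀ σ ∈ d.I p, π (ρ σ) = ρ σ

/-- Twisting by cocycles with values in an abelian normal subgroup with a complement. -/
lemma u_split [Finite H] (π : H →* H) (hπ : ∀ x, π (π x) = π x)
    (hV : ∀ x y, π x = 1 → π y = 1 → x * y = y * x) (hb : Nat.card H ≤ b) (hr : 1 ≤ r) :
    u H d b r ≤ Nat.card H ^ r.primeFactors.card *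
      Nat.card {ρ : d.Γ →* H // Unr d b r ρ ∧ Min d b π ρ} := by
  classical
  choose g hg using d.gen
  let A := {ρ : d.Γ →* H // Unr d b r ρ}
  let cls : A → (r.primeFactors → H) × (d.Γ →* H) := fun ρ => (fun p => ρ.1 (g p), π.comp ρ.1)
  let rep : A → A := fun ρ => Function.invFun cls (cls ρ)
  have h0 : ∀ ρ, cls (rep ρ) = cls ρ := fun ρ => Function.invFun_eq ⟨ρ, rfl⟩
  have h1 : ∀ ρ σ, π ((rep ρ).1 σ) = π (ρ.1 σ) := fun ρ σ =>
    DFunLike.congr_fun (congrArg Prod.snd (h0 ρ)) σ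
  have h2 : ∀ (ρ : A) (p : ℕ), p.Prime → b < p → ∀ σ ∈ d.I p, (rep ρ).1 σ = ρ.1 σ := by
    intro ρ p hp hbp σ hσ
    by_cases h : p ∣ r
    · exact hg p hp H (by omega) _ _ (congrFun (congrArg Prod.fst (h0 ρ))
        ⟨p, Nat.mem_primeFactors.2 ⟨hp, h, by omega⟩⟩) σ hσ
    · rw [(rep ρ).2 p hp hbp h σ hσ, ρ.2 p hp hbp h σ hσ]
  let tw : A → (d.Γ →* H) := fun ρ =>
    MonoidHom.mk' (fun σ => ρ.1 σ * ((rep ρ).1 σ)⁻¹ * π (ρ.1 σ)) fun σ τ => by
      have h3 := hV (ρ.1 τ * ((rep ρ).1 τ)⁻¹) (((rep ρ).1 σ)⁻¹ * π (ρ.1 σ))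
        (by rw [map_mul, map_inv, h1, mul_inv_cancel])
        (by rw [map_mul, map_inv, h1, hπ, inv_mul_cancel])
      simp only [map_mul, mul_inv_rev]
      calc _ = ρ.1 σ * ((ρ.1 τ * ((rep ρ).1 τ)⁻¹) * (((rep ρ).1 σ)⁻¹ * π (ρ.1 σ))) * π (ρ.1 τ) := by
            group
        _ = _ := by rw [h3]; group
  have h3 : ∀ ρ σ, tw ρ σ = ρ.1 σ * ((rep ρ).1 σ)⁻¹ * π (ρ.1 σ) := fun _ _ => rfl
  have h4 : ∀ ρ σ, π (tw ρ σ) = π (ρ.1 σ) := fun ρ σ => by
    rw [h3, map_mul, map_mul, map_inv, h1, hπ, mul_inv_cancel, one_mul]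
  have h5 : ∀ (ρ : A) (p : ℕ), p.Prime → b < p → ∀ σ ∈ d.I p, tw ρ σ = π (ρ.1 σ) :=
    fun ρ p hp hbp σ hσ => by rw [h3, h2 ρ p hp hbp σ hσ, mul_inv_cancel, one_mul]
  let F : A → (r.primeFactors → H) × {ρ : d.Γ →* H // Unr d b r ρ ∧ Min d b π ρ} := fun ρ =>
    ((cls ρ).1, ⟨tw ρ, fun p hp hbp h σ hσ => by
      rw [h5 ρ p hp hbp σ hσ, ρ.2 p hp hbp h σ hσ, map_one], fun p hp hbp σ hσ => by
      rw [h5 ρ p hp hbp σ hσ, hπ]⟩)
  refine (Nat.card_le_card_of_injective F fun ρ ρ' e => ?_).trans_eq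
    (by rw [Nat.card_prod, Nat.card_fun, Nat.card_eq_finsetCard])
  have e1 : tw ρ = tw ρ' := congrArg (fun z => z.2.1) e
  have e2 : ∀ σ, π (ρ.1 σ) = π (ρ'.1 σ) := fun σ => by rw [← h4, e1, h4]
  have e3 : rep ρ = rep ρ' := congrArg (Function.invFun cls)
    (Prod.ext (congrArg Prod.fst e :) (MonoidHom.ext e2))
  refine Subtype.ext (MonoidHom.ext fun σ => ?_)
  have e4 := DFunLike.congr_fun e1 σ
  rwa [h3, h3, e2, e3, mul_left_inj, mul_left_inj] at e4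

lemma sm_comm (A : Type) [Group A] [Finite A] (h : ∀ x y : A, x * y = y * x) (b : ℕ) :
    Sm fun d r => u A d b r := by
  obtain ⟨C, hC⟩ := u_one A (max b (Nat.card A))
  refine (sm_omega (Nat.card A) C).mono fun d r hr => (u_mono (le_max_left b (Nat.card A))).trans
    ((u_split 1 (fun _ => rfl) (fun x y _ _ => h x y) (le_max_right _ _) hr).trans
      (Nat.mul_le_mul_left _ (le_trans ?_ (hC d))))
  exact Nat.card_le_card_of_injective (fun ρ => ⟨ρ.1, fun p h1 h2 _ σ hσ =>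
    (ρ.2.2 p h1 h2 σ hσ).symm⟩) fun _ _ e => Subtype.ext (congrArg Subtype.val e :)

lemma rr_comm (A : Type) [Group A] [Finite A] (h : ∀ x y : A, x * y = y * x) : RR A :=
  fun b => ((sm_comm A h b).mul bd_one).mono fun _ _ _ => (mul_one _).ge

/-- Central extensions. -/
lemma u_central [Finite H] [Finite K] (f : H →* K) (hf : ∀ x, f x = 1 → x ∈ Subgroup.center H) :
    u H d b r ≤ u (Subgroup.center H) d b r * u K d b r := by
  classical
  let A := {ρ : d.Γ →* H // Unr d b r ρ}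
  let cls : A → {ρ : d.Γ →* K // Unr d b r ρ} := fun ρ => ⟨f.comp ρ.1, ρ.2.comp f⟩
  let rep : A → A := fun ρ => Function.invFun cls (cls ρ)
  have h0 : ∀ ρ, cls (rep ρ) = cls ρ := fun ρ => Function.invFun_eq ⟨ρ, rfl⟩
  have h1 : ∀ ρ σ, ((rep ρ).1 σ)⁻¹ * ρ.1 σ ∈ Subgroup.center H := fun ρ σ => hf _ (by
    have h2 : f ((rep ρ).1 σ) = f (ρ.1 σ) := DFunLike.congr_fun (congrArg Subtype.val (h0 ρ)) σ
    rw [map_mul, map_inv, h2, inv_mul_cancel])
  let tw : A → (d.Γ →* Subgroup.center H) := fun ρ =>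
    MonoidHom.mk' (fun σ => ⟨_, h1 ρ σ⟩) fun σ τ => Subtype.ext (by
      have h3 := Subgroup.mem_center_iff.1 (h1 ρ σ) ((rep ρ).1 τ)⁻¹
      simp only [map_mul, mul_inv_rev, Subgroup.coe_mul]
      calc _ = ((rep ρ).1 τ)⁻¹ * (((rep ρ).1 σ)⁻¹ * ρ.1 σ) * ρ.1 τ := by group
        _ = _ := by rw [h3]; group)
  let F : A → {ρ : d.Γ →* Subgroup.center H // Unr d b r ρ} × {ρ : d.Γ →* K // Unr d b r ρ} :=
    fun ρ => (⟨tw ρ, fun p hp hbp h σ hσ => Subtype.ext (by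
      show ((rep ρ).1 σ)⁻¹ * ρ.1 σ = 1
      rw [(rep ρ).2 p hp hbp h σ hσ, ρ.2 p hp hbp h σ hσ, inv_mul_cancel])⟩, cls ρ)
  refine (Nat.card_le_card_of_injective F fun ρ ρ' e => ?_).trans_eq (Nat.card_prod _ _)
  have e1 : tw ρ = tw ρ' := congrArg (fun z => z.1.1) e
  have e3 : rep ρ = rep ρ' := congrArg (Function.invFun cls) (congrArg Prod.snd e)
  refine Subtype.ext (MonoidHom.ext fun σ => ?_)
  have e4 : ((rep ρ).1 σ)⁻¹ * ρ.1 σ = ((rep ρ').1 σ)⁻¹ * ρ'.1 σ :=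
    congrArg Subtype.val (DFunLike.congr_fun e1 σ)
  rwa [e3, mul_right_inj] at e4

lemma RR.central [Finite H] [Finite K] (h : RR K) (f : H →* K)
    (hf : ∀ x, f x = 1 → x ∈ Subgroup.center H) : RR H := fun b =>
  ((sm_comm (Subgroup.center H) (fun x y => Subtype.ext (Subgroup.mem_center_iff.1 y.2 x)) b).mul
    (h b)).mono fun _ _ _ => u_central f hf

/-- The split step: it is enough to count surjections with inertia in the complement. -/
lemma rr_split [Finite H] (π : H →* H) (hπ : ∀ x, π (π x) = π x)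
    (hV : ∀ x y, π x = 1 → π y = 1 → x * y = y * x) (hK : ∀ K : Subgroup H, K ≠ ⊤ → RR K) (b0 : ℕ)
    (hS : ∀ b, b0 ≤ b → Bd fun d r =>
      Nat.card {ρ : d.Γ →* H // Unr d b r ρ ∧ Function.Surjective ρ ∧ Min d b π ρ}) : RR H := by
  classical
  have := Fintype.ofFinite (Subgroup H)
  refine RR.of_large (max b0 (Nat.card H)) fun b hb => ?_
  have h1 : ∀ K ∈ (Finset.univ : Finset (Subgroup H)), Bd fun d r => Nat.card {ρ : d.Γ →* K //
      Function.Surjective ρ ∧ Unr d b r (K.subtype.comp ρ) ∧ Min d b π (K.subtype.comp ρ)} := by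
    intro K _
    by_cases h : K = ⊤
    · refine (hS b (le_of_max_le_left hb)).mono fun d r _ => Nat.card_le_card_of_injective
        (fun ρ => ⟨K.subtype.comp ρ.1, ρ.2.2.1, fun x => ?_, ρ.2.2.2⟩) fun _ _ e =>
          Subtype.ext (MonoidHom.ext fun σ =>
            Subtype.ext (DFunLike.congr_fun (congrArg Subtype.val e) σ))
      obtain ⟨σ, hσ⟩ := ρ.2.1 ⟨x, h ▸ Subgroup.mem_top x⟩
      exact ⟨σ, congrArg Subtype.val hσ⟩
    · exact (hK K h b).mono fun d r _ => Nat.card_le_card_of_injective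
        (fun ρ => ⟨ρ.1, fun p h1 h2 h3 σ hσ => Subtype.ext (ρ.2.2.1 p h1 h2 h3 σ hσ)⟩)
        fun _ _ e => Subtype.ext (congrArg Subtype.val e :)
  refine ((sm_omega (Nat.card H) 1).mul (Bd.sum _ h1)).mono fun d r hr => ?_
  rw [mul_one]
  exact (u_split π hπ hV (le_of_max_le_right hb) hr).trans (Nat.mul_le_mul_left _ (card_split _))

end Pool.Agent.Lib.MP_af4c59_nt.H59
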