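import Pool.Agent.Lib.MP_af4c59_nt.H50Inertia
import Pool.Agent.Lib.MP_af4c59_nt.Gen

/-!
Finite Galois fields with a chosen prime above every rational prime, and homomorphisms from
their Galois groups with restricted ramification.
-/

namespace Pool.Agent.Lib.MP_af4c59_nt.H59

open NumberField

/-- A finite Galois field together with a prime above every rational prime. -/
structure Dat where
  M : IntermediateField ℚ Ω
  nf : NumberField M
  gal : IsGalois ℚ M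
  P : ℕ → Ideal (𝓞 M)
  max : ∀ p : ℕ, p.Prime → (P p).IsMaximal
  mem : ∀ p : ℕ, p.Prime → (p : 𝓞 M) ∈ P p

attribute [instance] Dat.nf Dat.gal

/-- The Galois group. -/
abbrev Dat.Γ (d : Dat) : Type := d.M ≃ₐ[ℚ] d.M

/-- The inertia group at the chosen prime above `p`. -/
noncomputable def Dat.I (d : Dat) (p : ℕ) : Subgroup d.Γ := (d.P p).inertia d.Γ

lemma Dat.mem_I (d : Dat) (p : ℕ) (σ : d.Γ) :
    σ ∈ d.I p ↔ ∀ y : 𝓞 d.M, σ • y - y ∈ d.P p := Iff.rfl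

lemma Dat.int_mem (d : Dat) {p : ℕ} (hp : p.Prime) {z : ℤ} (hz : (z : 𝓞 d.M) ∈ d.P p) :
    (p : ℤ) ∣ z := by
  by_contra h
  obtain ⟨a, c, hac⟩ : IsCoprime (p : ℤ) z :=
    (Irreducible.coprime_iff_not_dvd (Nat.prime_iff_prime_int.1 hp).irreducible).2 h
  refine (d.max p hp).ne_top ((Ideal.eq_top_iff_one _).2 ?_)
  have h1 : (a : 𝓞 d.M) * (p : 𝓞 d.M) + (c : 𝓞 d.M) * (z : 𝓞 d.M) = 1 := by
    exact_mod_cast congrArg (Int.cast (R := 𝓞 d.M)) hac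
  rw [← h1]
  exact add_mem (Ideal.mul_mem_left _ _ (d.mem p hp)) (Ideal.mul_mem_left _ _ hz)

/-- Inertia is cyclic modulo wild inertia. -/
theorem Dat.tame (d : Dat) {p : ℕ} (hp : p.Prime) : ∃ g : d.Γ, ∀ σ ∈ d.I p, ∃ (t : ℤ) (k : ℕ),
    (σ * (g ^ t)⁻¹) ^ p ^ k = 1 := by
  classical
  have hm := d.max p hp
  have hP0 : d.P p ≠ ⊥ := fun h => by
    have h1 := d.mem p hp
    rw [h, Ideal.mem_bot] at h1
    exact hp.ne_zero (by exact_mod_cast h1)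
  have hGal : IsGaloisGroup d.Γ ℤ (𝓞 d.M) :=
    IsGaloisGroup.of_isFractionRing d.Γ ℤ (𝓞 d.M) ℚ d.M
  set 𝔓 := d.P p with h𝔓
  set J := d.I p with hJ
  let r : J → 𝓞 d.M →+* 𝓞 d.M := fun σ => MulSemiringAction.toRingHom d.Γ (𝓞 d.M) σ.1
  have hr : ∀ σ y, r σ y - y ∈ 𝔓 := fun σ y => σ.2 y
  obtain ⟨a, ha1, ha2⟩ := Ideal.exists_mem_pow_notMem_pow_succ 𝔓 hP0 hm.ne_top 1
  rw [pow_one] at ha1
  choose u hu using fun σ : J => H50.in_exists hP0 ha1 ha2 (hr σ)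
  let χ : J →* 𝓞 d.M ⧸ 𝔓 :=
    { toFun := fun σ => Ideal.Quotient.mk 𝔓 (u σ)
      map_one' := by
        rw [← map_one (Ideal.Quotient.mk 𝔓), Ideal.Quotient.eq]
        refine H50.in_unique ha2 (hu 1 a ha1) ?_
        have h : r 1 a = a := one_smul d.Γ a
        rw [h, one_mul, sub_self]
        exact zero_mem _
      map_mul' := fun σ τ => by
        rw [← map_mul, Ideal.Quotient.eq]
        refine H50.in_unique ha2 (hu (σ * τ) a ha1) ?_
        have h : r (σ * τ) a = r σ (r τ a) := mul_smul σ.1 τ.1 a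
        rw [h]
        exact H50.in_mul (hr σ) (hu σ) (hu τ) a ha1 }
  have hχ : ∀ σ, χ σ = Ideal.Quotient.mk 𝔓 (u σ) := fun _ => rfl
  have hker : ∀ σ : J, χ σ = 1 → ∀ n : ℕ, ¬ p ∣ n → σ ^ n = 1 → σ = 1 := by
    intro σ hσ n hn hσn
    rw [hχ, ← map_one (Ideal.Quotient.mk 𝔓), Ideal.Quotient.eq] at hσ
    have h1 : ∀ t y, (r σ)^[t] y = r (σ ^ t) y := by
      intro t y
      induction t with
      | zero => exact (one_smul d.Γ y).symm
      | succ t ih =>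
        rw [Function.iterate_succ_apply', ih, pow_succ']
        exact (mul_smul σ.1 (σ ^ t).1 y).symm
    have hn' : (n : 𝓞 d.M) ∉ 𝔓 := fun h =>
      hn (Int.natCast_dvd_natCast.1 (d.int_mem hp (z := n) (by simpa using h)))
    have h2 := H50.in_faithful (hr σ) (H50.in_congr (hu σ) hσ) hn' fun y => by
      rw [h1, hσn]
      exact one_smul d.Γ y
    have := hGal.faithful
    exact Subtype.ext (eq_of_smul_eq_smul (α := 𝓞 d.M) fun y => (h2 y).trans (one_smul _ y).symm)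
  let ψ := χ.toHomUnits
  have hcyc : IsCyclic ψ.range := inferInstance
  obtain ⟨c, hc⟩ := IsCyclic.exists_generator (α := ψ.range)
  obtain ⟨g, hg⟩ := c.2
  refine ⟨g.1, fun σ hσ => ?_⟩
  obtain ⟨t, ht⟩ := hc ⟨ψ ⟨σ, hσ⟩, _, rfl⟩
  set x : J := ⟨σ, hσ⟩ * (g ^ t)⁻¹ with hx
  have h1 : ψ x = 1 := by
    have h2 : (c : (𝓞 d.M ⧸ 𝔓)ˣ) ^ t = ψ ⟨σ, hσ⟩ := congrArg Subtype.val ht
    rw [hx, map_mul, map_inv, map_zpow, hg, h2, mul_inv_cancel]
  have h2 : χ x = 1 := by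
    have := congrArg Units.val h1
    simpa [ψ] using this
  obtain ⟨k, n, hn, hkn⟩ := Nat.exists_eq_pow_mul_and_not_dvd (orderOf_pos x).ne' p hp.ne_one
  refine ⟨t, k, congrArg Subtype.val (hker (x ^ p ^ k) (by rw [map_pow, h2, one_pow]) n hn ?_)⟩
  rw [← pow_mul, ← hkn, pow_orderOf_eq_one]

/-- A homomorphism to a group of order less than `p` is determined on inertia by one value. -/
theorem Dat.gen (d : Dat) (p : ℕ) : ∃ g : d.Γ, p.Prime → ∀ (H : Type) [Group H] [Finite H],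
    Nat.card H < p → ∀ ρ ρ' : d.Γ →* H, ρ g = ρ' g → ∀ σ ∈ d.I p, ρ σ = ρ' σ := by
  by_cases hp : p.Prime
  swap
  · exact ⟨1, fun h => absurd h hp⟩
  obtain ⟨g, h⟩ := d.tame hp
  refine ⟨g, fun _ H _ _ hH ρ ρ' hρ σ hσ => ?_⟩
  obtain ⟨t, k, hk⟩ := h σ hσ
  have hc : (p ^ k).Coprime (Nat.card H) := Nat.Coprime.pow_left _
    ((Nat.Prime.coprime_iff_not_dvd hp).2 (Nat.not_dvd_of_pos_of_lt Nat.card_pos hH))
  have key : ∀ τ : d.Γ →* H, τ σ = τ g ^ t := fun τ => by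
    have h1 : τ (σ * (g ^ t)⁻¹) ^ p ^ k = 1 := by rw [← map_pow, hk, map_one]
    have h2 : τ (σ * (g ^ t)⁻¹) = 1 :=
      (pow_eq_one_iff_of_coprime hc).1 ⟨h1, pow_card_eq_one'⟩
    rwa [map_mul, map_inv, map_zpow, mul_inv_eq_one] at h2
  rw [key ρ, key ρ', hρ]

variable {H : Type} [Group H]

/-- Unramified at all primes above `b` that do not divide `r`. -/
def Unr (d : Dat) (b r : ℕ) (ρ : d.Γ →* H) : Prop :=
  ∀ p : ℕ, p.Prime → b < p → ¬ p ∣ r → ∀ σ ∈ d.I p, ρ σ = 1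

/-- The number of homomorphisms unramified outside `r` and the primes up to `b`. -/
noncomputable def u (H : Type) [Group H] (d : Dat) (b r : ℕ) : ℕ :=
  Nat.card {ρ : d.Γ →* H // Unr d b r ρ}

/-- Bounded on average. -/
def Bd (a : Dat → ℕ → ℕ) : Prop := ∀ ε : ℝ, 0 < ε → ∃ C : ℝ, 0 ≤ C ∧ ∀ (d : Dat) (N : ℕ),
  ∑ r ∈ Finset.Icc 1 N, (a d r : ℝ) ≤ C * (N : ℝ) ^ (1 + ε)

/-- Pointwise small. -/
def Sm (a : Dat → ℕ → ℕ) : Prop := ∀ ε : ℝ, 0 < ε → ∃ C : ℝ, 0 ≤ C ∧ ∀ (d : Dat) (r : ℕ),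
  1 ≤ r → (a d r : ℝ) ≤ C * (r : ℝ) ^ ε

/-- The sharp bound for the count by the product of the ramified primes. -/
def RR (H : Type) [Group H] : Prop := ∀ b : ℕ, Bd fun d r => u H d b r

end Pool.Agent.Lib.MP_af4c59_nt.H59
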