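import Pool.Agent.Lib.MP_af4c59_nt.H59Defs
import Pool.Agent.Lib.MP_af4c59_nt.H50Val
import Pool.Agent.Lib.MP_af4c59_nt.H50Arith

/-!
Fields attached to permutation representations and their discriminants.
-/

namespace Pool.Agent.Lib.MP_af4c59_nt.H59

open NumberField Module

variable {n : ℕ} {d : Dat} {L : IntermediateField ℚ Ω} {φ : Fin n → (L →ₐ[ℚ] d.M)}
  {ρ : d.Γ →* Equiv.Perm (Fin n)}

/-- `ρ` is the action on the embeddings `φ i` of `L`. -/
structure Rep (d : Dat) (L : IntermediateField ℚ Ω) (φ : Fin n → (L →ₐ[ℚ] d.M))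
    (ρ : d.Γ →* Equiv.Perm (Fin n)) : Prop where
  rk : finrank ℚ L = n
  inj : Function.Injective φ
  act : ∀ σ i x, φ (ρ σ i) x = σ (φ i x)

lemma Rep.unique {ρ' : d.Γ →* Equiv.Perm (Fin n)} (h : Rep d L φ ρ) (h' : Rep d L φ ρ') :
    ρ = ρ' := by
  ext σ i : 2
  exact h.inj (AlgHom.ext fun x => by rw [h.act, h'.act])

lemma Rep.equiv [NumberField L] (h : Rep d L φ ρ) :
    ∃ e : Fin n ≃ (L →ₐ[ℚ] Ω), ∀ i x, e i x = φ i x := by
  let f : Fin n → (L →ₐ[ℚ] Ω) := fun i => d.M.val.comp (φ i)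
  have hf : Function.Injective f := fun i j e => h.inj (AlgHom.ext fun x =>
    Subtype.ext (DFunLike.congr_fun e x))
  refine ⟨Equiv.ofBijective f ((Fintype.bijective_iff_injective_and_card f).2 ⟨hf, ?_⟩),
    fun _ _ => rfl⟩
  rw [AlgHom.card ℚ L Ω, h.rk, Fintype.card_fin]

lemma Rep.ram [NumberField L] (h : Rep d L φ ρ) {p : ℕ} (hp : p.Prime) {σ : d.Γ}
    (hσ : σ ∈ d.I p) (h1 : ρ σ ≠ 1) : (p : ℤ) ∣ discr L := by
  classical
  obtain ⟨e, he⟩ := h.equiv
  obtain ⟨b, hb, hd⟩ := H50.exists_disc e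
  let A : Matrix (Fin n) (Fin n) (𝓞 d.M) := fun i j =>
    ⟨φ i (b j), map_isIntegral_int (φ i) (hb j)⟩
  let c : 𝓞 d.M →+* Ω := (algebraMap d.M Ω).comp (algebraMap (𝓞 d.M) d.M)
  have hc : Function.Injective c := (algebraMap d.M Ω).injective.comp RingOfIntegers.coe_injective
  have hA : c.mapMatrix A = Matrix.of fun i j => e i (b j) := by
    ext i j
    exact (he i (b j)).symm
  have hdet : A.det ^ 2 = ((discr L : ℤ) : 𝓞 d.M) := by
    apply hc
    rw [map_pow, RingHom.map_det, hA, ← hd, map_intCast]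
  obtain ⟨i, hi⟩ : ∃ i, ρ σ i ≠ i := by
    by_contra hcon
    push Not at hcon
    exact h1 (Equiv.ext hcon)
  have hmem : A.det ∈ d.P p := by
    rw [← Ideal.Quotient.eq_zero_iff_mem, RingHom.map_det]
    refine Matrix.det_zero_of_row_eq hi (funext fun j => ?_)
    simp only [RingHom.mapMatrix_apply, Matrix.map_apply]
    rw [Ideal.Quotient.eq]
    have h2 : A (ρ σ i) j = σ • A i j := RingOfIntegers.ext (h.act σ i (b j))
    rw [h2]
    exact hσ _
  exact d.int_mem hp (hdet ▸ (d.P p).pow_mem_of_mem hmem 2 (by norm_num))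

lemma card_image_le {α β γ : Type} [Fintype α] [DecidableEq β] [DecidableEq γ] (χ : α → β)
    (κ : α → γ) (h : ∀ i j, χ i = χ j → κ i = κ j) :
    (Finset.univ.image κ).card ≤ (Finset.univ.image χ).card := by
  classical
  rcases isEmpty_or_nonempty α with _ | _
  · simp
  refine le_trans (Finset.card_le_card fun y hy => ?_) (Finset.card_image_le
    (s := Finset.univ.image χ) (f := fun x => κ (Function.invFun χ x)))
  obtain ⟨i, -, rfl⟩ := Finset.mem_image.1 hy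
  exact Finset.mem_image.2 ⟨χ i, Finset.mem_image_of_mem _ (Finset.mem_univ _),
    h _ _ (Function.invFun_eq ⟨i, rfl⟩)⟩

lemma Rep.val [NumberField L] (h : Rep d L φ ρ) {p : ℕ} (hp : p.Prime) (hn : n < p)
    (κ : Fin n → Fin n) (hκ : ∀ σ ∈ d.I p, ∀ i, κ (ρ σ i) = κ i) :
    padicValNat p (discr L).natAbs + (Finset.univ.image κ).card ≤ n := by
  classical
  have hm := d.max p hp
  let _ := Ideal.Quotient.field (d.P p)
  let χ : Fin n → (𝓞 L →+* 𝓞 d.M ⧸ d.P p) := fun i =>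
    (Ideal.Quotient.mk _).comp (RingOfIntegers.mapRingHom (φ i : L →+* d.M))
  have d1 := H50.tame_disc L hp (h.rk ▸ hn) (k := 𝓞 d.M ⧸ d.P p)
    (by rw [← map_natCast (Ideal.Quotient.mk (d.P p)), Ideal.Quotient.eq_zero_iff_mem]
        exact d.mem p hp) (Finset.univ.image χ)
  have d2 := card_image_le χ κ fun i j hij => by
    obtain ⟨σ, s1, s2⟩ := H50.same_orbit (d.P p) hm (φ i) (φ j) fun a =>
      ⟨RingOfIntegers.mapRingHom (φ i : L →+* d.M) a -
        RingOfIntegers.mapRingHom (φ j : L →+* d.M) a,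
        Ideal.Quotient.eq.1 (DFunLike.congr_fun hij a), rfl⟩
    have h3 : ρ σ i = j := h.inj (AlgHom.ext fun x => by rw [h.act, s2])
    rw [← h3, hκ σ fun y => (H50.in_iff σ y).1 (s1 y)]
  rw [h.rk] at d1
  omega

lemma Rep.disc_le [NumberField L] (h : Rep d L φ ρ) {b f w : ℕ} (hb : n ≤ b) (hf : 0 < f)
    (hu : Unr d b f ρ) (κ : Fin n → Fin n) (hw : n ≤ w + (Finset.univ.image κ).card)
    (hκ : ∀ p : ℕ, p.Prime → b < p → ∀ σ ∈ d.I p, ∀ i, κ (ρ σ i) = κ i) :
    (discr L).natAbs ≤ b.factorial ^ n ^ 2 * f ^ w := by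
  have hD : (discr L).natAbs ≠ 0 := Int.natAbs_ne_zero.2 (discr_ne_zero L)
  refine (H50.le_tamePart b (n ^ 2) hD fun p hp => h.rk ▸ H50.wild L hp).trans
    (Nat.mul_le_mul_left _ (Nat.le_of_dvd (pow_pos hf w) ?_))
  rw [← Int.natCast_dvd_natCast, ← pow_one ((H50.tamePart b _ : ℕ) : ℤ)]
  refine H50.tamePart_pow_dvd b _ 1 _ fun p hp hbp => ?_
  rw [one_mul, Nat.cast_pow]
  by_cases hpf : p ∣ f
  · have h1 := h.val hp (by omega) κ (hκ p hp hbp)
    exact (pow_dvd_pow _ (by omega)).trans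
      (pow_dvd_pow_of_dvd (Int.natCast_dvd_natCast.2 hpf) w)
  · have h1 := h.val hp (by omega) id fun σ hσ i => by rw [hu p hp hbp hpf σ hσ]; rfl
    rw [Finset.image_id, Finset.card_univ, Fintype.card_fin] at h1
    rw [show padicValNat p (discr L).natAbs = 0 by omega, pow_zero]
    exact one_dvd _

theorem exists_rep (G : Subgroup (Equiv.Perm (Fin n))) (i0 : Fin n)
    (hG : ∀ i, ∃ g ∈ G, g i0 = i) (hρ : ρ.range = G) :
    ∃ (L : IntermediateField ℚ Ω) (_ : NumberField L) (φ : Fin n → (L →ₐ[ℚ] d.M)),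
      Rep d L φ ρ ∧ HasGal n G L := by
  let U : Subgroup d.Γ := (MulAction.stabilizer (Equiv.Perm (Fin n)) i0).comap ρ
  have hU : ∀ σ, σ ∈ U ↔ ρ σ i0 = i0 := fun _ => Iff.rfl
  let F : IntermediateField ℚ d.M := IntermediateField.fixedField U
  have := Field.finite_intermediateField_of_exists_primitive_element ℚ d.M
    (Field.exists_primitive_element ℚ d.M)
  obtain ⟨α, hα⟩ := Field.exists_primitive_element_of_finite_intermediateField ℚ d.M F
  have hαF : α ∈ F := hα ▸ IntermediateField.mem_adjoin_simple_self ℚ α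
  have hfix : ∀ σ : d.Γ, σ α = α ↔ σ ∈ U := fun σ => by
    refine ⟨fun h => ?_, fun h => (IntermediateField.mem_fixedField_iff _ _).1 hαF σ h⟩
    rw [← IntermediateField.fixingSubgroup_fixedField U]
    change σ ∈ F.fixingSubgroup
    rw [← hα, IntermediateField.mem_fixingSubgroup_iff]
    intro x hx
    induction hx using IntermediateField.adjoin_induction with
    | mem x hx => rw [hx, h]
    | algebraMap x => exact σ.commutes x
    | add x y _ _ a b => rw [map_add, a, b]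
    | inv x _ a => rw [map_inv₀, a]
    | mul x y _ _ a b => rw [map_mul, a, b]
  have hs : ∀ i, ∃ s : d.Γ, ρ s i0 = i := fun i => by
    obtain ⟨g, hg, e⟩ := hG i
    obtain ⟨s, rfl⟩ : g ∈ ρ.range := hρ ▸ hg
    exact ⟨s, e⟩
  choose s hs using hs
  have hact : ∀ σ i, ∀ x ∈ F, s (ρ σ i) x = σ (s i x) := fun σ i x hx => by
    have h1 : (s (ρ σ i))⁻¹ * σ * s i ∈ U := by
      rw [hU, map_mul, map_mul, map_inv, Equiv.Perm.mul_apply, Equiv.Perm.mul_apply, hs,
        Equiv.Perm.inv_eq_iff_eq, hs]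
    have h2 := (IntermediateField.mem_fixedField_iff _ _).1 hx _ h1
    conv_lhs => rw [← h2]
    simp
  have hinj : ∀ i j, s i α = s j α → i = j := fun i j h => by
    have h1 : (s j)⁻¹ * s i ∈ U := (hfix _).1 (by
      rw [AlgEquiv.mul_apply, h]; exact (s j).symm_apply_apply α)
    rwa [hU, map_mul, map_inv, Equiv.Perm.mul_apply, hs, Equiv.Perm.inv_eq_iff_eq, hs] at h1
  let L : IntermediateField ℚ Ω := IntermediateField.lift F
  have hL : L ≤ d.M := IntermediateField.lift_le F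
  have hmem : ∀ x : L, IntermediateField.inclusion hL x ∈ F := fun x =>
    (IntermediateField.mem_lift _).1 x.2
  have : FiniteDimensional ℚ L := Module.Finite.of_injective
    (IntermediateField.inclusion hL).toLinearMap (IntermediateField.inclusion_injective hL)
  have h0 : s i0 α = α := (hfix _).2 (hs i0)
  obtain ⟨h1, h2, -⟩ := gal_of_roots G (fun i => (s i α : Ω))
    (fun i j h => hinj i j (Subtype.ext h)) i0 L
    (by rw [h0]; exact (IntermediateField.mem_lift _).2 hαF)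
    (fun σ hσ x hx => by
      have h3 : σ.restrictNormal d.M ∈ U := (hfix _).1 (Subtype.ext (by
        rw [h0] at hσ
        exact (σ.restrictNormal_commutes d.M α).trans hσ))
      have h4 := (IntermediateField.mem_fixedField_iff _ _).1 (hmem ⟨x, hx⟩) _ h3
      exact (σ.restrictNormal_commutes d.M _).symm.trans (congrArg Subtype.val h4))
    (fun σ => ⟨ρ (σ.restrictNormal d.M), hρ ▸ ⟨_, rfl⟩, fun i => by
      rw [hact _ _ _ hαF]
      exact (σ.restrictNormal_commutes d.M _).symm⟩)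
    (fun g hg => by
      obtain ⟨τ, rfl⟩ : g ∈ ρ.range := hρ ▸ hg
      refine ⟨τ.liftNormal Ω, fun i => ?_⟩
      rw [hact _ _ _ hαF]
      exact τ.liftNormal_commutes Ω _) hG
  refine ⟨L, ⟨⟩, fun i => (s i).toAlgHom.comp (IntermediateField.inclusion hL),
    ⟨h1, fun i j h => hinj i j ?_, fun σ i x => hact σ i _ (hmem x)⟩, h2⟩
  exact DFunLike.congr_fun h ⟨α, (IntermediateField.mem_lift _).2 hαF⟩

/-- Representations with image `G` are counted by fields. -/
theorem card_le_FS (G : Subgroup (Equiv.Perm (Fin n))) (i0 : Fin n)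
    (hG : ∀ i, ∃ g ∈ G, g i0 = i) {b w : ℕ} (hb : n ≤ b) (κ : Fin n → Fin n)
    (hw : n ≤ w + (Finset.univ.image κ).card) (d : Dat) (y : ℝ)
    (S : Finset (d.Γ →* Equiv.Perm (Fin n)))
    (hS : ∀ ρ ∈ S, ρ.range = G ∧ (∃ f : ℕ, 0 < f ∧ (f : ℝ) ≤ y ∧ Unr d b f ρ) ∧
      ∀ p : ℕ, p.Prime → b < p → ∀ σ ∈ d.I p, ∀ i, κ (ρ σ i) = κ i) :
    S.card ≤ n ^ n * (FS n G ((b.factorial : ℝ) ^ n ^ 2 * y ^ w)).ncard := by
  classical
  have hfin := FS_finite (Fin.pos i0) G ((b.factorial : ℝ) ^ n ^ 2 * y ^ w)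
  have hex : ∀ ρ : d.Γ →* Equiv.Perm (Fin n), ∃ L : IntermediateField ℚ Ω, ρ ∈ S →
      L ∈ hfin.toFinset ∧ ∃ φ, Rep d L φ ρ := fun ρ => by
    by_cases h : ρ ∈ S
    swap
    · exact ⟨⊥, fun h' => absurd h' h⟩
    obtain ⟨h1, ⟨f, f1, f2, f3⟩, h3⟩ := hS ρ h
    obtain ⟨L, _, φ, h4, h5⟩ := exists_rep G i0 hG h1
    refine ⟨L, fun _ => ⟨hfin.mem_toFinset.2 (mem_FS h4.rk h5 ?_), φ, h4⟩⟩
    have h6 : (((discr L).natAbs : ℕ) : ℝ) ≤ (b.factorial : ℝ) ^ n ^ 2 * (f : ℝ) ^ w := by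
      exact_mod_cast h4.disc_le hb f1 f3 κ hw h3
    rw [Nat.cast_natAbs] at h6
    exact h6.trans (by gcongr)
  choose Lf hLf using hex
  rw [Set.ncard_eq_toFinset_card _ hfin]
  refine Finset.card_le_mul_card_image_of_maps_to (f := Lf) (fun ρ h => (hLf ρ h).1) _
    fun L hL => ?_
  obtain ⟨h1, -⟩ := hfin.mem_toFinset.1 hL
  have : FiniteDimensional ℚ L := Module.finite_of_finrank_pos (h1 ▸ Fin.pos i0)
  have hex : ∀ ρ : (S.filter fun ρ => Lf ρ = L), ∃ φ, Rep d L φ ρ.1 := fun ρ => by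
    obtain ⟨a, b⟩ := Finset.mem_filter.1 ρ.2
    have c := (hLf _ a).2
    rwa [b] at c
  choose Φ hΦ using hex
  rw [← Nat.card_eq_finsetCard]
  refine (Nat.card_le_card_of_injective Φ fun ρ ρ' e =>
    Subtype.ext ((hΦ ρ).unique (e ▸ hΦ ρ'))).trans ?_
  rw [Nat.card_fun, Nat.card_fin]
  exact Nat.pow_le_pow_left (h1 ▸ card_algHom_le_finrank ℚ L d.M) n

end Pool.Agent.Lib.MP_af4c59_nt.H59
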