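import Pool.Agent.Lib.MP_af4c59_nt.H50Val

/-!
The valuation of the discriminant at a large ramified prime is at least the least index.
-/

namespace Pool.Agent.Lib.MP_af4c59_nt.H59

open NumberField H50

variable {I Ω : Type} [Fintype I] [DecidableEq I] [Field Ω] [CharZero Ω] [IsAlgClosed Ω]
  [IsGalois ℚ Ω]

theorem orb_index (π : Equiv.Perm I) :
    orb π + π.cycleType.sum ≤ Fintype.card I + Multiset.card π.cycleType := by
  classical
  have hne : ∀ c : π.cycleFactorsFinset, ∃ x, x ∈ c.1.support := fun c =>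
    (Equiv.Perm.mem_cycleFactorsFinset_iff.mp c.2).1.nonempty_support
  choose pt hpt using hne
  let f : {i // i ∉ π.support} ⊕ π.cycleFactorsFinset →
      Quotient (Equiv.Perm.SameCycle.setoid π) :=
    Sum.elim (fun i => Quotient.mk _ i.1) fun c => Quotient.mk _ (pt c)
  have hf : Function.Surjective f := by
    intro q
    obtain ⟨i, rfl⟩ := Quotient.mk_surjective q
    by_cases hi : i ∈ π.support
    · let c : π.cycleFactorsFinset :=
        ⟨π.cycleOf i, Equiv.Perm.cycleOf_mem_cycleFactorsFinset_iff.mpr hi⟩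
      exact ⟨Sum.inr c, Quotient.sound (Equiv.Perm.mem_support_cycleOf_iff.mp (hpt c)).1.symm⟩
    · exact ⟨Sum.inl ⟨i, hi⟩, rfl⟩
  have h1 := Nat.card_le_card_of_surjective f hf
  rw [Nat.card_sum, Nat.card_eq_fintype_card (α := {i // i ∉ π.support}),
    Fintype.card_subtype_compl, Fintype.card_coe,
    Nat.card_eq_fintype_card (α := π.cycleFactorsFinset), Fintype.card_coe] at h1
  have h2 : Multiset.card π.cycleType = π.cycleFactorsFinset.card := by
    rw [Equiv.Perm.cycleType_def, Multiset.card_map]; rfl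
  have h4 : π.support.card ≤ Fintype.card I := Finset.card_le_univ _
  rw [Equiv.Perm.sum_cycleType]
  unfold orb
  omega

theorem local_low (Γ : Subgroup (Equiv.Perm I)) {m : ℕ}
    (hm : ∀ π ∈ Γ, π ≠ 1 → m ≤ π.cycleType.sum - Multiset.card π.cycleType) :
    ∃ p0 : ℕ, ∀ (L : Type) [Field L] [NumberField L]
      (e : I ≃ (L →ₐ[ℚ] Ω)), Mon Γ e → ∀ p : ℕ, p.Prime → p0 < p →
      p ∣ (discr L).natAbs → p ^ m ∣ (discr L).natAbs := by
  classical
  choose B u hE using fun q : Cond Ω Γ => exists_eig q.1.1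
    (isOfFinOrder_iff_pow_eq_one.2 ⟨_, Nat.card_pos, q.2.2.2.1⟩).orderOf_pos
    (IsPrimitiveRoot.orderOf q.1.2) q.2.2.2.2
  obtain ⟨S, -, f, hf⟩ := eig_cond (Ω := Ω) Γ
  have : Finite (Cond Ω Γ) := Finite.of_injective f hf
  have : Fintype (Cond Ω Γ) := Fintype.ofFinite _
  have : Algebra.IsAlgebraic ℤ ℚ := IsLocalization.isAlgebraic ℚ (nonZeroDivisors ℤ)
  have : Algebra.IsAlgebraic ℤ Ω := Algebra.IsAlgebraic.trans ℤ ℚ Ω
  obtain ⟨c, hc0, hc⟩ := Algebra.IsAlgebraic.exists_integral_multiples ℤ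
    (Finset.univ.image fun z : Cond Ω Γ × I × I => (B z.1)⁻¹ z.2.1 z.2.2)
  refine ⟨Fintype.card I + Nat.card Γ + c.natAbs, ?_⟩
  intro L _ _ e hΓ p hp hp0 hpD
  have : Fact p.Prime := ⟨hp⟩
  obtain ⟨π, hπΓ, ζ, n, O, γ, hn, hnΓ, hζ, hπn, hO, hγ, hvp, hS, hD⟩ :=
    tame_val Γ e hΓ hp (by omega) (by omega)
  by_cases hπ : π = 1
  · rw [hπ, orb_one] at hD
    have h0 := one_le_padicValNat_of_dvd (Int.natAbs_ne_zero.2 (discr_ne_zero L)) hpD
    omega
  have hord : orderOf ζ = n := hζ.eq_orderOf.symm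
  let q : Cond Ω Γ := ⟨(π, ζ), hπΓ, hπ, by
    obtain ⟨c', hc'⟩ := hnΓ
    show ζ ^ Nat.card Γ = 1
    rw [hc', pow_mul, hζ.pow_eq_one, one_pow], by
    show π ^ orderOf ζ = 1
    rw [hord, hπn]⟩
  have E : Eig π ζ n (B q) (u q) := by
    have := hE q
    rwa [show orderOf q.1.2 = n from hord] at this
  have hζ0 : ζ ≠ 0 := hζ.ne_zero hn.ne'
  have hv : O.valuation (p : Ω) < 1 := by
    rw [hvp]
    exact pow_lt_one' hγ hn.ne'
  have hΓpos : 0 < Nat.card Γ := Nat.card_pos
  have hcv : O.valuation (c : Ω) = 1 := by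
    refine val_int_one O hp hv fun h => ?_
    have h1 := Nat.le_of_dvd (Int.natAbs_pos.2 hc0) (Int.natCast_dvd.1 h)
    omega
  have hnv : O.valuation (n : Ω) = 1 := by
    have h1 : ¬ (p : ℤ) ∣ (n : ℤ) := fun h => by
      have h2 := Nat.le_of_dvd hn (Int.natCast_dvd_natCast.1 h)
      have h3 := Nat.le_of_dvd hΓpos hnΓ
      omega
    simpa using val_int_one O hp hv h1
  have hinv : ∀ k i, O.valuation ((B q)⁻¹ k i) ≤ 1 := by
    intro k i
    have h1 := hc _ (Finset.mem_image_of_mem _ (Finset.mem_univ (q, k, i)))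
    have h2 := (O.valuation_le_one_iff _).2 (hO _ h1)
    rwa [zsmul_eq_mul, map_mul, hcv, one_mul] at h2
  have hB : ∀ i k, B q i k ∈ O := by
    intro i k
    refine hO _ ?_
    have h1 : Algebra.adjoin ℤ ({ζ} : Set Ω) ≤ integralClosure ℤ Ω := by
      rw [Algebra.adjoin_le_iff, Set.singleton_subset_iff]
      exact hζ.isIntegral hn
    exact h1 (E.mem i k)
  have hy : ∀ a : L, IsIntegral ℤ a → ∀ k,
      O.valuation (((B q)⁻¹.mulVec fun i => e i a) k) ≤ γ ^ u q k := by
    intro a ha k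
    have h1 := congrArg O.valuation (E.coord hζ0 (fun i => e i a) k)
    rw [map_mul, hnv, one_mul] at h1
    rw [h1]
    refine Valuation.map_sum_le _ fun i _ => ?_
    rw [map_mul]
    exact (mul_le_of_le_one_left' (hinv k i)).trans (hS a ha i _ (E.lt k))
  have hu : IsUnit (B q).det := isUnit_iff_ne_zero.2 E.det
  obtain ⟨b, hb, hdisc⟩ := exists_disc e
  let Y : Matrix I I Ω := (B q)⁻¹ * Matrix.of fun i j => e i (b j)
  have hY : B q * Y = Matrix.of fun i j => e i (b j) := by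
    rw [← Matrix.mul_assoc, Matrix.mul_nonsing_inv _ hu, Matrix.one_mul]
  have h1 : O.valuation Y.det ≤ γ ^ ∑ k, u q k :=
    val_det_le O γ Y (u q) fun k j => hy (b j) (hb j) k
  have h2 : O.valuation (B q).det ≤ 1 := by
    simpa using val_det_le O γ (B q) (fun _ => 0) fun k i => by
      simpa using (O.valuation_le_one_iff _).2 (hB k i)
  have h3 : O.valuation ((discr L : ℤ) : Ω) ≤ O.valuation (p : Ω) ^ io (u q) := by
    rw [hdisc, ← hY, Matrix.det_mul, map_pow, map_mul, hvp, ← pow_mul, ← E.sym, mul_comm 2,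
      pow_mul]
    exact pow_le_pow_left' ((mul_le_of_le_one_left' h2).trans h1) 2
  have h5 : p ^ io (u q) ∣ (discr L).natAbs := by
    have := Int.natAbs_dvd_natAbs.2 (dvd_of_val O hp hv _ _ h3)
    simpa [Int.natAbs_pow] using this
  have h7 := hm π hπΓ hπ
  have h8 := orb_index π
  have h9 := E.orb
  exact (pow_dvd_pow p (by omega)).trans h5

end Pool.Agent.Lib.MP_af4c59_nt.H59
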