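import Pool.Agent.Lib.MP_af4c59_nt.H59Small
import Pool.Agent.Lib.MP_af4c59_nt.H59Low

/-!
From the count by the product of ramified primes to the count by the discriminant.
-/

namespace Pool.Agent.Lib.MP_af4c59_nt.H59

open NumberField Module

lemma exists_max (M : Type) [Field M] [NumberField M] (p : ℕ) :
    ∃ P : Ideal (𝓞 M), p.Prime → P.IsMaximal ∧ (p : 𝓞 M) ∈ P := by
  by_cases hp : p.Prime
  swap
  · exact ⟨⊥, fun h => absurd h hp⟩
  have hp' : Prime (p : ℤ) := Nat.prime_iff_prime_int.mp hp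
  have hqm : (Ideal.span {(p : ℤ)} : Ideal ℤ).IsMaximal :=
    ((Ideal.span_singleton_prime hp'.ne_zero).2 hp').isMaximal
      (Ideal.span_singleton_eq_bot.not.mpr hp'.ne_zero)
  obtain ⟨Q, hQm, hQl⟩ :=
    Ideal.exists_maximal_ideal_liesOver_of_isIntegral (S := 𝓞 M) (Ideal.span {(p : ℤ)})
  have h1 : (p : ℤ) ∈ Q.under ℤ := hQl.over ▸ Ideal.mem_span_singleton_self _
  rw [Ideal.under_def, Ideal.mem_comap] at h1
  exact ⟨Q, fun _ => ⟨hQm, by simpa using h1⟩⟩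

lemma exists_dat (S : Finset (IntermediateField ℚ Ω)) (hS : ∀ L ∈ S, FiniteDimensional ℚ L) :
    ∃ d : Dat, ∀ L ∈ S, ∀ (ψ : L →ₐ[ℚ] Ω) (x : L), ψ x ∈ d.M := by
  have : ∀ L : S, FiniteDimensional ℚ (L.1 : IntermediateField ℚ Ω) := fun L => hS L.1 L.2
  let K : IntermediateField ℚ Ω := ⨆ L : S, L.1
  let M : IntermediateField ℚ Ω := IntermediateField.normalClosure ℚ K Ω
  have : IsGalois ℚ Ω := IsAlgClosure.isGalois ℚ Ω
  have : Normal ℚ M := normalClosure.normal ℚ K Ω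
  have : NumberField M := ⟨⟩
  have : IsGalois ℚ M := ⟨⟩
  choose P hP using exists_max M
  refine ⟨⟨M, inferInstance, inferInstance, P, fun p h => (hP p h).1, fun p h => (hP p h).2⟩,
    fun L hL ψ x => ?_⟩
  obtain ⟨σ, hσ⟩ := exists_extend L ψ
  rw [← hσ]
  exact (σ.toAlgHom.comp K.val).fieldRange_le_normalClosure
    ⟨⟨x, le_iSup (fun L : S => L.1) ⟨L, hL⟩ x.2⟩, rfl⟩

variable {n : ℕ} {G : Subgroup (Equiv.Perm (Fin n))}

lemma exists_hom (d : Dat) {L : IntermediateField ℚ Ω} (h1 : finrank ℚ L = n) (h2 : HasGal n G L)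
    (hM : ∀ (ψ : L →ₐ[ℚ] Ω) (x : L), ψ x ∈ d.M) :
    ∃ (φ : Fin n → (L →ₐ[ℚ] d.M)) (ρ : d.Γ →* G) (i : Fin n),
      Rep d L φ (G.subtype.comp ρ) ∧ ∀ x, (φ i x : Ω) = x := by
  obtain ⟨e, he⟩ := h2
  let φ : Fin n → (L →ₐ[ℚ] d.M) := fun i => (e.symm i).codRestrict d.M.toSubalgebra (hM _)
  have hφ : ∀ i x, (φ i x : Ω) = e.symm i x := fun _ _ => rfl
  have hinj : Function.Injective φ := fun i j h => e.symm.injective (AlgHom.ext fun x => by
    rw [← hφ, ← hφ, h])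
  have hex : ∀ σ : d.Γ, ∃ τ : G, ∀ i x, φ (τ.1 i) x = σ (φ i x) := fun σ => by
    let s : Ω ≃ₐ[ℚ] Ω := σ.liftNormal Ω
    let t : (L →ₐ[ℚ] Ω) ≃ (L →ₐ[ℚ] Ω) :=
      ⟨fun ψ => s.toAlgHom.comp ψ, fun ψ => s.symm.toAlgHom.comp ψ,
        fun ψ => AlgHom.ext fun x => s.symm_apply_apply _,
        fun ψ => AlgHom.ext fun x => s.apply_symm_apply _⟩
    refine ⟨⟨e.permCongr t, (he _).2 ⟨s, fun ψ => by simp [t]⟩⟩, fun i x => Subtype.ext ?_⟩
    rw [hφ, Equiv.permCongr_apply, e.symm_apply_apply]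
    exact σ.liftNormal_commutes Ω (φ i x)
  choose τ hτ using hex
  refine ⟨φ, MonoidHom.mk' τ fun σ σ' => Subtype.ext (Equiv.ext fun i =>
    hinj (AlgHom.ext fun x => ?_)), e L.val, ⟨h1, hinj, hτ⟩, fun x => ?_⟩
  · rw [hτ, Subgroup.coe_mul, Equiv.Perm.mul_apply, hτ, hτ, AlgEquiv.mul_apply]
  · exact DFunLike.congr_fun (e.symm_apply_apply L.val) x

lemma Rep.mem_iff {d : Dat} {L : IntermediateField ℚ Ω} {φ : Fin n → (L →ₐ[ℚ] d.M)}
    {ρ : d.Γ →* Equiv.Perm (Fin n)} (h : Rep d L φ ρ) {i : Fin n} (hi : ∀ x, (φ i x : Ω) = x)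
    (x : Ω) : x ∈ L ↔ ∃ y : d.M, (y : Ω) = x ∧ ∀ σ, ρ σ i = i → σ y = y := by
  refine ⟨fun hx => ⟨φ i ⟨x, hx⟩, hi _, fun σ hσ => by rw [← h.act, hσ]⟩, ?_⟩
  rintro ⟨y, rfl, hy⟩
  have : IsGalois ℚ Ω := IsAlgClosure.isGalois ℚ Ω
  rw [← InfiniteGalois.fixedField_fixingSubgroup L, IntermediateField.mem_fixedField_iff]
  intro g hg
  have h1 := hy (g.restrictNormal d.M) (h.inj (AlgHom.ext fun x => Subtype.ext (by
    rw [h.act]
    refine (g.restrictNormal_commutes d.M _).trans ?_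
    change g (φ i x : Ω) = _
    rw [hi]
    exact (IntermediateField.mem_fixingSubgroup_iff _ _).1 hg x x.2)))
  exact (g.restrictNormal_commutes d.M y).symm.trans (congrArg Subtype.val h1)

theorem upper_bound (hn : 0 < n) (hG : RR G) {m : ℕ} (hm0 : 0 < m)
    (hm : ∀ g ∈ G, g ≠ 1 → m ≤ g.cycleType.sum - Multiset.card g.cycleType) {ε : ℝ} (hε : 0 < ε) :
    ∃ C : ℝ, 0 ≤ C ∧ ∀ X : ℝ, 1 ≤ X → ((FS n G X).ncard : ℝ) ≤ C * X ^ ((1 : ℝ) / m + ε) := by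
  classical
  have : IsGalois ℚ Ω := IsAlgClosure.isGalois ℚ Ω
  obtain ⟨b, hb⟩ := local_low (Ω := Ω) G hm
  have hm1 : (0 : ℝ) < m := by exact_mod_cast hm0
  obtain ⟨C, hC, h⟩ := hG b (ε * m) (by positivity)
  refine ⟨n * C, by positivity, fun X hX => ?_⟩
  have hfin := FS_finite hn G X
  have hfd : ∀ L ∈ hfin.toFinset, FiniteDimensional ℚ L := fun L hL =>
    Module.finite_of_finrank_pos ((hfin.mem_toFinset.1 hL).1 ▸ hn)
  obtain ⟨d, hd⟩ := exists_dat _ hfd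
  set N := ⌊X ^ ((1 : ℝ) / m)⌋₊ with hN
  have hex : ∀ L : hfin.toFinset,
      ∃ z : Fin n × (r : Finset.Icc 1 N) × {ρ : d.Γ →* G // Unr d b r ρ}, ∀ x : Ω, x ∈ L.1 ↔
        ∃ y : d.M, (y : Ω) = x ∧ ∀ σ, (z.2.2.1 σ).1 z.1 = z.1 → σ y = y := by
    rintro ⟨L, hL⟩
    have := hfd L hL
    have : NumberField L := ⟨⟩
    obtain ⟨h1, h2, β, hβ⟩ := hfin.mem_toFinset.1 hL
    obtain ⟨φ, ρ, i, h3, h4⟩ := exists_hom d h1 h2 (hd L hL)
    obtain ⟨e, he⟩ := h3.equiv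
    have hMon : H50.Mon G e := fun g => ⟨ρ (g.restrictNormal d.M), (ρ _).2, fun j a => by
      rw [he, he]
      exact (congrArg Subtype.val (h3.act _ j a)).trans (g.restrictNormal_commutes d.M _)⟩
    set D := (discr L).natAbs with hD
    have hD0 : D ≠ 0 := Int.natAbs_ne_zero.2 (discr_ne_zero L)
    set T := D.primeFactors.filter (b < ·) with hT
    have hT1 : ∀ p ∈ T, p.Prime := fun p hp =>
      Nat.prime_of_mem_primeFactors (Finset.mem_filter.1 hp).1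
    have h5 : (∏ p ∈ T, p) ^ m ∣ D := by
      have h6 := H50.prod_prime_pow_dvd T hT1 (fun _ => m) D fun p hp => by
        exact_mod_cast hb L e hMon p (hT1 p hp) (Finset.mem_filter.1 hp).2
          (Nat.dvd_of_mem_primeFactors (Finset.mem_filter.1 hp).1)
      rw [Finset.prod_pow, ← Nat.cast_prod] at h6
      exact_mod_cast h6
    have h6 : (((∏ p ∈ T, p : ℕ) : ℝ)) ^ m ≤ X := by
      rw [discr_eq_discr, ← Nat.cast_natAbs] at hβ
      exact le_trans (by exact_mod_cast Nat.le_of_dvd (Nat.pos_of_ne_zero hD0) h5) hβ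
    refine ⟨(i, ⟨⟨∏ p ∈ T, p, Finset.mem_Icc.2 ⟨Finset.prod_pos fun p hp => (hT1 p hp).pos,
      Nat.le_floor ?_⟩⟩, ρ, fun p hp hbp hpr σ hσ => ?_⟩), h3.mem_iff h4⟩
    · rw [one_div, Real.le_rpow_inv_iff_of_pos (by positivity) (by linarith) hm1, Real.rpow_natCast]
      exact h6
    · by_contra h7
      exact hpr (Finset.dvd_prod_of_mem _ (Finset.mem_filter.2 ⟨Nat.mem_primeFactors.2 ⟨hp,
        Int.natCast_dvd.1 (h3.ram hp hσ fun h8 => h7 (Subtype.ext h8)), hD0⟩, hbp⟩))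
  choose z hz using hex
  have h1 := Nat.card_le_card_of_injective z fun L L' e =>
    Subtype.ext (IntermediateField.ext fun x => by rw [hz, hz, e])
  rw [Nat.card_eq_finsetCard, Nat.card_prod, Nat.card_fin, Nat.card_sigma] at h1
  replace h1 := h1.trans_eq
    (congrArg (n * ·) (Finset.sum_coe_sort (Finset.Icc 1 N) fun r => u G d b r))
  have h2 : (N : ℝ) ^ (1 + ε * m) ≤ X ^ ((1 : ℝ) / m + ε) := by
    refine (Real.rpow_le_rpow (Nat.cast_nonneg _) (Nat.floor_le (by positivity))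
      (by positivity)).trans_eq ?_
    rw [← Real.rpow_mul (by linarith)]
    congr 1
    field_simp
  rw [Set.ncard_eq_toFinset_card _ hfin]
  calc (hfin.toFinset.card : ℝ) ≤ n * ∑ r ∈ Finset.Icc 1 N, (u G d b r : ℝ) := by
        exact_mod_cast h1
    _ ≤ n * (C * X ^ ((1 : ℝ) / m + ε)) := by
        gcongr
        exact (h d N).trans (by gcongr)
    _ = _ := by ring

end Pool.Agent.Lib.MP_af4c59_nt.H59
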