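import Pool.Agent.Lib.MP_af4c59_nt.H59Cls
import Pool.Agent.Lib.MP_af4c59_nt.H59Field

/-!
Unramified lifts of a quadratic character are counted by the class group of a cubic field.
-/

namespace Pool.Agent.Lib.MP_af4c59_nt.H59

open NumberField Module IsDedekindDomain IntermediateField
open scoped Pointwise

variable {d : Dat}

lemma trans_sub (V : Subgroup d.Γ) (P Q : Ideal (𝓞 d.M)) [P.IsPrime] [Q.IsPrime]
    (h : P.under (𝓞 (fixedField V)) = Q.under (𝓞 (fixedField V))) : ∃ v ∈ V, Q = v • P := by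
  have : IsGaloisGroup V (fixedField V) d.M := IsGaloisGroup.subgroup d.Γ ℚ d.M V
  have h1 : IsGaloisGroup V (𝓞 (fixedField V)) (𝓞 d.M) :=
    .of_isFractionRing V _ _ (fixedField V) d.M
  have := h1.isInvariant
  have := h1.commutes
  obtain ⟨g, hg⟩ := Algebra.IsInvariant.exists_smul_of_under_eq (𝓞 (fixedField V)) (𝓞 d.M) V P Q h
  exact ⟨g.1, g.2, hg⟩

lemma exists_conj (P : Ideal (𝓞 d.M)) [hP : P.IsMaximal] {s : d.Γ} (hs : s ∈ P.inertia d.Γ) :
    ∃ (p : ℕ) (g : d.Γ), p.Prime ∧ g⁻¹ * s * g ∈ d.I p := by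
  obtain ⟨p, -, -, h1, hp, -⟩ := Ideal.exists_prime_and_absNorm_eq_pow P
  have hm := d.max p hp
  have h2 : IsGaloisGroup d.Γ ℤ (𝓞 d.M) := inferInstance
  have := h2.isInvariant
  have h3 : (Ideal.span {(p : ℤ)}).IsMaximal := PrincipalIdealRing.isMaximal_of_irreducible
    (Nat.prime_iff_prime_int.1 hp).irreducible
  have h4 : ∀ Q : Ideal (𝓞 d.M), Q.IsMaximal → (p : 𝓞 d.M) ∈ Q →
      Ideal.span {(p : ℤ)} = Q.under ℤ := fun Q _ h => h3.eq_of_le (Ideal.IsPrime.under ℤ Q).ne_top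
    ((Ideal.span_singleton_le_iff_mem _).2 (by simpa [Ideal.mem_comap] using h))
  obtain ⟨g, rfl⟩ := Algebra.IsInvariant.exists_smul_of_under_eq ℤ (𝓞 d.M) d.Γ (d.P p) P
    ((h4 _ hm (d.mem p hp)).symm.trans (h4 _ hP h1))
  refine ⟨p, g, hp, fun y => ?_⟩
  have h5 := Ideal.mem_pointwise_smul_iff_inv_smul_mem.1 (hs (g • y))
  rwa [smul_sub, inv_smul_smul, ← mul_smul, ← mul_smul] at h5

/-- Decomposition groups are cyclic modulo inertia. -/
lemma exists_frob (V : Subgroup d.Γ) (P : Ideal (𝓞 d.M)) [hP : P.IsMaximal] :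
    ∃ f ∈ V, ∀ g ∈ V, g • P = P → ∃ n : ℤ, g * (f ^ n)⁻¹ ∈ P.inertia d.Γ := by
  have : (P.under ℤ).IsMaximal := Ideal.IsMaximal.under ℤ P
  let _ := Ideal.Quotient.field P
  let _ := Ideal.Quotient.field (P.under ℤ)
  have : Finite (𝓞 d.M ⧸ P) := Ideal.finiteQuotientOfFreeOfNeBot _
    (Ring.ne_bot_of_isMaximal_of_not_isField hP (RingOfIntegers.not_isField _))
  let ψ := Ideal.Quotient.stabilizerHom P (P.under ℤ) d.Γ
  obtain ⟨⟨_, f, hf, rfl⟩, h⟩ := IsCyclic.exists_generator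
    (α := (V.subgroupOf (MulAction.stabilizer d.Γ P)).map ψ)
  refine ⟨f.1, hf, fun g hg h1 => ?_⟩
  obtain ⟨n, hn⟩ := h ⟨_, ⟨g, h1⟩, hg, rfl⟩
  have h2 : ψ f ^ n = ψ ⟨g, h1⟩ := congrArg Subtype.val hn
  have h3 : ⟨g, h1⟩ * (f ^ n)⁻¹ ∈ ψ.ker := by
    rw [MonoidHom.mem_ker, map_mul, map_inv, map_zpow, h2, mul_inv_cancel]
  rw [Ideal.Quotient.ker_stabilizerHom] at h3
  exact ⟨n, h3⟩

lemma under_smul (N : IntermediateField ℚ d.M) [Normal ℚ N] (g : d.Γ) (P : Ideal (𝓞 d.M)) :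
    (g • P).under (𝓞 N) = AlgEquiv.restrictNormalHom N g • P.under (𝓞 N) := by
  ext x
  rw [Ideal.mem_pointwise_smul_iff_inv_smul_mem, ← map_inv, Ideal.mem_comap, Ideal.mem_comap,
    Ideal.mem_pointwise_smul_iff_inv_smul_mem]
  exact Iff.of_eq (congrArg (· ∈ P) (RingOfIntegers.ext (g⁻¹.restrictNormal_commutes N x).symm))

/-- The Galois-theoretic form of the absence of unramified cubic extensions. -/
lemma no_sub (V U : Subgroup d.Γ) [hn : U.Normal] (hUV : U ≤ V) (h3 : U.relIndex V = 3)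
    (hw : ∀ x : d.M, x ^ 3 = 1 → (∀ u ∈ U, u x = x) → x = 1)
    (hI : ∀ P : Ideal (𝓞 d.M), P.IsMaximal → ∀ g ∈ V, g ∈ P.inertia d.Γ → g ∈ U)
    (T : Finset (HeightOneSpectrum (𝓞 (fixedField V)))) (hT : K9.Sat T)
    (hS : ∀ q ∈ T, ∃ P : Ideal (𝓞 d.M), P.IsPrime ∧ P.under (𝓞 (fixedField V)) = q.asIdeal ∧
      ∀ g ∈ V, g • P = P → g ∈ U) : False := by
  have hle : fixedField V ≤ fixedField U := fixedField_antitone hUV
  let _ : Algebra (fixedField V) (fixedField U) := (inclusion hle).toAlgebra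
  have : IsScalarTower (fixedField V) (fixedField U) d.M := .of_algebraMap_eq fun _ => rfl
  have : IsGalois ℚ (fixedField U) := .of_fixedField_normal_subgroup U
  have : IsGalois (fixedField V) (fixedField U) := .tower_top_of_isGalois ℚ _ _
  obtain ⟨v, hv, hvU⟩ : ∃ v ∈ V, v ∉ U := by
    by_contra h
    push Not at h
    rw [Subgroup.relIndex_eq_one.2 h] at h3
    omega
  have hfix : ∀ g : d.Γ, (∀ a : fixedField U, g a = a) → g ∈ U := fun g h => by
    rw [← fixingSubgroup_fixedField U, IntermediateField.mem_fixingSubgroup_iff]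
    exact fun x hx => h ⟨x, hx⟩
  let σ : fixedField U ≃ₐ[fixedField V] fixedField U :=
    { (v.restrictNormal (fixedField U)).toRingEquiv with
      commutes' := fun x => Subtype.ext ((v.restrictNormal_commutes (fixedField U)
        (inclusion hle x)).trans (x.2 ⟨v, hv⟩)) }
  have hσ : ∀ x : fixedField U, (σ x : d.M) = v x := fun x => v.restrictNormal_commutes _ x
  have hσ' : ∀ x : 𝓞 (fixedField U), algebraMap _ (𝓞 d.M) (σ • x) = v • algebraMap _ (𝓞 d.M) x :=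
    fun x => RingOfIntegers.ext (hσ x)
  refine no_unram (fixedField V) (fixedField U) ?_
    (fun x hx => Subtype.ext (hw x (congrArg Subtype.val hx) fun u hu => x.2 ⟨u, hu⟩)) σ
    (fun e => hvU (hfix v fun a => by rw [← hσ, e]; rfl)) (fun P hP h0 => ?_) T hT fun q hq => ?_
  · have h1 := finrank_mul_finrank (fixedField V) (fixedField U) d.M
    have h2 := (U.subgroupOf V).index_mul_card
    rw [finrank_fixedField_eq_card, finrank_fixedField_eq_card, ← h2,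
      Nat.card_congr (Subgroup.subgroupOfEquivOfLe hUV).toEquiv] at h1
    exact (Nat.eq_of_mul_eq_mul_right Nat.card_pos h1).trans h3
  · by_contra h
    push Not at h
    have := hP.isMaximal h0
    obtain ⟨Q, hQ, hl⟩ := Ideal.exists_maximal_ideal_liesOver_of_isIntegral (S := 𝓞 d.M) P
    obtain ⟨s, s1, s2⟩ := H50.same_aux Q hQ (L := fixedField U) v fun a => by
      have h1 := h a (σ • a) rfl
      rwa [hl.over, Ideal.mem_comap, map_sub, hσ'] at h1
    have h1 : v⁻¹ * s ∈ U := hfix _ fun a => by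
      rw [AlgEquiv.mul_apply]
      exact (congrArg _ (s2 a)).trans (v.symm_apply_apply _)
    exact hvU ((U.mul_mem_cancel_right (hI Q hQ s
      ((V.mul_mem_cancel_left (V.inv_mem hv)).1 (hUV h1)) s1)).1 h1 |> U.inv_mem_iff.1)
  · obtain ⟨P, hP, h1, h2⟩ := hS q hq
    refine ⟨P.under _, inferInstance, ⟨by rw [Ideal.under_under, h1]⟩, ?_⟩
    by_contra h
    push Not at h
    have h4 : (P.under (𝓞 (fixedField U))).IsMaximal := Ideal.IsPrime.isMaximal inferInstance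
      fun e => q.ne_bot (by rw [← h1, ← Ideal.under_under (B := 𝓞 (fixedField U)), e]; simp)
    obtain ⟨u, hu, e⟩ := trans_sub U P (v⁻¹ • P) (h4.eq_of_le (Ideal.IsPrime.ne_top inferInstance)
      fun x hx => by
        have h5 := h x (σ • x) rfl hx
        rwa [Ideal.mem_comap, hσ', ← inv_inv v, ← Ideal.mem_pointwise_smul_iff_inv_smul_mem] at h5)
    exact hvU ((U.mul_mem_cancel_right hu).1 (h2 _ (V.mul_mem hv (hUV hu))
      (by rw [mul_smul, ← e, smul_inv_smul])))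

/-- A lift of the character `χ` that is unramified over the kernel of `χ`. -/
def Good (d : Dat) (χ : d.Γ →* ℤˣ) (ρ : d.Γ →* Equiv.Perm (Fin 3)) : Prop :=
  (∀ σ, Equiv.Perm.sign (ρ σ) = χ σ) ∧ ∀ p : ℕ, p.Prime → ∀ σ ∈ d.I p, χ σ = 1 → ρ σ = 1

lemma Good.inertia {χ : d.Γ →* ℤˣ} {ρ : d.Γ →* Equiv.Perm (Fin 3)} (h : Good d χ ρ)
    (P : Ideal (𝓞 d.M)) [P.IsMaximal] {s : d.Γ} (hs : s ∈ P.inertia d.Γ) (h1 : χ s = 1) :
    ρ s = 1 := by
  obtain ⟨p, g, hp, h2⟩ := exists_conj P hs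
  have h3 := h.2 p hp _ h2 (by simp [h1])
  rwa [map_mul, map_mul, map_inv, mul_assoc, inv_mul_eq_one, right_eq_mul] at h3

lemma cube_root (g : d.Γ) {x : d.M} (hx : x ^ 3 = 1) : g x = x ∨ g x = x ^ 2 := by
  by_cases h : x = 1
  · exact Or.inl (by rw [h, map_one])
  have h1 : ∀ y : d.M, y ^ 3 = 1 → y ≠ 1 → y ^ 2 + y + 1 = 0 := fun y a b =>
    mul_left_cancel₀ (sub_ne_zero.2 b) (by linear_combination a)
  have h2 := h1 (g x) (by rw [← map_pow, hx, map_one]) fun e => h (g.injective (by simpa using e))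
  rw [← sub_eq_zero, ← sub_eq_zero (a := g x) (b := x ^ 2), ← mul_eq_zero]
  linear_combination h2 - g x * h1 x hx h + hx

theorem card_good {χ : d.Γ →* ℤˣ} {ρ1 : d.Γ →* Equiv.Perm (Fin 3)} (h1 : Good d χ ρ1)
    (hs : Function.Surjective ρ1) {K : IntermediateField ℚ Ω} [NumberField K]
    {φ : Fin 3 → (K →ₐ[ℚ] d.M)} (hR : Rep d K φ ρ1)
    (hw : ∀ x : d.M, x ^ 3 = 1 → (∀ v ∈ ρ1.ker, v x = x) → x = 1) :
    Nat.card {ρ // Good d χ ρ} ≤ 3 ^ 6 * K9.h3 K * 6 ^ 6 := by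
  classical
  set V := ρ1.ker with hV
  have : IsGalois ℚ (fixedField V) := .of_fixedField_normal_subgroup V
  let ψ : Equiv.Perm (Fin 3) ≃* (fixedField V ≃ₐ[ℚ] fixedField V) :=
    (QuotientGroup.quotientKerEquivOfSurjective ρ1 hs).symm.trans
      (IsGalois.normalAutEquivQuotient V)
  have hψ : ∀ g, ψ (ρ1 g) = AlgEquiv.restrictNormalHom (fixedField V) g := fun g =>
    congrArg (IsGalois.normalAutEquivQuotient V)
      ((QuotientGroup.quotientKerEquivOfSurjective ρ1 hs).symm_apply_apply g)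
  let ι : K →+* fixedField V := (φ 0 : K →+* d.M).codRestrict (fixedField V) fun x g => by
    have h := hR.act g.1 0 x
    rw [show ρ1 g.1 = 1 from g.2] at h
    exact h.symm
  let _ := ι.toAlgebra
  obtain ⟨T0, T, t1, t2, t3⟩ := exists_T ψ
    (fun x hx => Subtype.ext (hw x (congrArg Subtype.val hx) fun u hu => x.2 ⟨u, hu⟩)) K hR.rk
    fun x => by
      obtain ⟨g, hg⟩ := hs (Equiv.swap 1 2)
      have h := hR.act g 0 x
      rw [hg, show Equiv.swap (1 : Fin 3) 2 0 = 0 by decide] at h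
      rw [← hg, hψ]
      exact Subtype.ext ((g.restrictNormal_commutes (fixedField V) (ι x)).trans h.symm)
  have hex : ∀ q : HeightOneSpectrum (𝓞 (fixedField V)), ∃ P : Ideal (𝓞 d.M), P.IsMaximal ∧
      P.under _ = q.asIdeal := fun q => by
    have := q.isMaximal
    obtain ⟨Q, hQ, hl⟩ := Ideal.exists_maximal_ideal_liesOver_of_isIntegral (S := 𝓞 d.M) q.asIdeal
    exact ⟨Q, hQ, hl.over.symm⟩
  choose Q hQ hQ' using hex
  choose f hf hf' using fun q => exists_frob V (Q q)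
  have hχ : ∀ v ∈ V, χ v = 1 := fun v hv => by rw [← h1.1, show ρ1 v = 1 from hv, map_one]
  choose s hs' using id hs
  let Θ : {ρ // Good d χ ρ} → (T0 → alternatingGroup (Fin 3)) ×
      (Equiv.Perm (Fin 3) → Equiv.Perm (Fin 3)) := fun ρ =>
    (fun q => ⟨ρ.1 (f q), (ρ.2.1 _).trans (hχ _ (hf q))⟩, fun π => ρ.1 (s π))
  have hA : Nat.card (alternatingGroup (Fin 3)) = 3 := by
    rw [Nat.card_eq_fintype_card]
    decide
  refine (Nat.card_le_card_of_injective Θ ?_).trans ?_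
  swap
  · rw [Nat.card_prod, Nat.card_fun, Nat.card_fun, hA, Nat.card_perm, Nat.card_fin,
      Nat.card_eq_finsetCard]
    exact Nat.mul_le_mul_right _ t1
  rintro ⟨ρ, hρ⟩ ⟨ρ', hρ'⟩ e
  suffices h : ∀ v ∈ V, ρ v = ρ' v from Subtype.ext (MonoidHom.ext fun g => by
    have h2 := h (g * (s (ρ1 g))⁻¹) (by rw [hV, MonoidHom.mem_ker, map_mul, map_inv, hs',
      mul_inv_cancel])
    have h3 : ρ (s (ρ1 g)) = ρ' (s (ρ1 g)) := congrFun (congrArg Prod.snd e) _
    rwa [map_mul, map_mul, map_inv, map_inv, h3, mul_left_inj] at h2)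
  by_contra hne
  let U := V ⊓ ρ.eqLocus ρ'
  have hU : ∀ g, g ∈ U ↔ g ∈ V ∧ ρ g = ρ' g := fun _ => Iff.rfl
  have hn : U.Normal := ⟨fun u hu g => ⟨(inferInstance : V.Normal).conj_mem u hu.1 g, by
    have h2 : ∀ a b c : Equiv.Perm (Fin 3), a.sign = b.sign → c.sign = 1 →
      a * c * a⁻¹ = b * c * b⁻¹ := by decide
    show ρ _ = ρ' _
    simp only [map_mul, map_inv, ← ((hU u).1 hu).2]
    exact h2 _ _ _ ((hρ.1 g).trans (hρ'.1 g).symm) ((hρ.1 u).trans (hχ u hu.1))⟩⟩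
  have hI : ∀ P : Ideal (𝓞 d.M), P.IsMaximal → ∀ g ∈ V, g ∈ P.inertia d.Γ → g ∈ U :=
    fun P _ g hg h => ⟨hg, (hρ.inertia P h (hχ g hg)).trans (hρ'.inertia P h (hχ g hg)).symm⟩
  have h8 : ∀ a : Equiv.Perm (Fin 3), a.sign = 1 → a ^ 3 = 1 := by decide
  refine no_sub V U inf_le_left ?_ (fun x hx h => hw x hx fun v hv => ?_) hI T t2 fun q hq => ?_
  · have h2 : ∀ a b c e : Equiv.Perm (Fin 3), a.sign = 1 → b.sign = 1 → c.sign = 1 → e.sign = 1 →
      a * c * (b * e)⁻¹ = a * b⁻¹ * (c * e⁻¹) := by decide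
    have h3 : ∀ v : V, (ρ v).sign = 1 := fun v => (hρ.1 _).trans (hχ _ v.2)
    have h4 : ∀ v : V, (ρ' v).sign = 1 := fun v => (hρ'.1 _).trans (hχ _ v.2)
    let δ : V →* alternatingGroup (Fin 3) := MonoidHom.mk' (fun v => ⟨ρ v * (ρ' v)⁻¹, by
      simp [h3, h4]⟩) fun v w => Subtype.ext (by
        simp only [Subgroup.coe_mul, map_mul]
        exact h2 _ _ _ _ (h3 v) (h4 v) (h3 w) (h4 w))
    have h5 : ∀ v, δ v = 1 ↔ ρ v = ρ' v := fun v => Subtype.ext_iff.trans mul_inv_eq_one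
    have h6 : U.subgroupOf V = δ.ker := Subgroup.ext fun v =>
      ((hU v).trans (and_iff_right v.2)).trans (h5 v).symm
    have : Fact (Nat.card (alternatingGroup (Fin 3))).Prime := ⟨by rw [hA]; exact Nat.prime_three⟩
    rw [Subgroup.relIndex, h6, Subgroup.index_ker,
      (δ.range.eq_bot_or_eq_top_of_prime_card).resolve_left fun h => hne fun v hv =>
        (h5 ⟨v, hv⟩).1 (Subgroup.mem_bot.1 (h ▸ ⟨_, rfl⟩)), Subgroup.card_top, hA]
  · have h2 := h (v ^ 3) ⟨V.pow_mem hv 3, by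
      show ρ _ = ρ' _
      rw [map_pow, map_pow, h8 _ ((hρ.1 v).trans (hχ v hv)), h8 _ ((hρ'.1 v).trans (hχ v hv))]⟩
    rcases cube_root v hx with h3 | h3
    · exact h3
    · rw [pow_three, AlgEquiv.mul_apply, AlgEquiv.mul_apply, h3, map_pow, h3, ← pow_mul,
        show 2 * 2 = 3 + 1 from rfl, pow_succ, hx, one_mul] at h2
      exact h2
  rcases t3 q hq with h | ⟨q0, h0, g0, h⟩
  · have := hQ q
    refine ⟨Q q, inferInstance, hQ' q, fun g hg h2 => ?_⟩
    obtain ⟨v, hv, h3⟩ := trans_sub V (s (finRotate 3) • Q q) (Q q) (by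
      rw [under_smul, ← hψ, hs', hQ', h])
    obtain ⟨c, hc, h4⟩ := exists_frob χ.ker (Q q)
    have h5 : ρ1 (v * s (finRotate 3)) = finRotate 3 := by
      rw [map_mul, hs', show ρ1 v = 1 from hv, one_mul]
    have key : ∀ ρ, Good d χ ρ → ∀ x ∈ χ.ker, x • Q q = Q q → ∀ n : ℤ,
        x * (c ^ n)⁻¹ ∈ (Q q).inertia d.Γ → ρ x = ρ c ^ n := fun ρ hρ x hx _ n h => by
      have := hρ.inertia _ h (χ.ker.mul_mem hx (χ.ker.inv_mem (χ.ker.zpow_mem hc n)))
      rwa [map_mul, map_inv, map_zpow, mul_inv_eq_one] at this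
    have h6 : v * s (finRotate 3) ∈ χ.ker := by
      rw [MonoidHom.mem_ker, ← h1.1, h5]
      decide
    have h7 : (v * s (finRotate 3)) • Q q = Q q := by rw [mul_smul, ← h3]
    obtain ⟨n, hn⟩ := h4 _ h6 h7
    obtain ⟨m, hm⟩ := h4 g (hχ g hg) h2
    have : Fact (Nat.Prime 3) := ⟨Nat.prime_three⟩
    have h9 : orderOf (ρ1 c) = 3 := orderOf_eq_prime (h8 _ ((h1.1 c).trans hc)) fun e => by
      have := key ρ1 h1 _ h6 h7 n hn
      rw [h5, e, one_zpow] at this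
      exact absurd this (by decide)
    obtain ⟨k, rfl⟩ : ((3 : ℕ) : ℤ) ∣ m := h9 ▸ orderOf_dvd_iff_zpow_eq_one.2
      ((key ρ1 h1 g (hχ g hg) h2 m hm).symm.trans hg)
    refine ⟨hg, (key ρ hρ g (hχ g hg) h2 _ hm).trans ((key ρ' hρ' g (hχ g hg) h2 _ hm).trans ?_).symm⟩
    rw [zpow_mul, zpow_mul, zpow_natCast, zpow_natCast, h8 _ ((hρ.1 c).trans hc),
      h8 _ ((hρ'.1 c).trans hc)]
  · have := hQ q0
    obtain ⟨π, rfl⟩ := ψ.surjective g0
    refine ⟨s π • Q q0, inferInstance, by rw [under_smul, ← hψ, hs', hQ', h], fun g hg h2 => ?_⟩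
    have h3 : (s π)⁻¹ * g * s π ∈ V := (inferInstance : V.Normal).conj_mem' g hg _
    obtain ⟨n, h4⟩ := hf' q0 _ h3 (by rw [mul_smul, mul_smul, h2, inv_smul_smul])
    have h5 : f q0 ∈ U := ⟨hf q0, congrArg Subtype.val (congrFun (congrArg Prod.fst e) ⟨q0, h0⟩)⟩
    have h6 := hn.conj_mem _ ((U.mul_mem_cancel_right (U.inv_mem (U.zpow_mem h5 n))).1
      (hI _ this _ (V.mul_mem h3 (V.inv_mem (V.zpow_mem (hf q0) n))) h4)) (s π)
    rwa [← mul_assoc, ← mul_assoc, mul_inv_cancel, one_mul, mul_inv_cancel_right] at h6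

end Pool.Agent.Lib.MP_af4c59_nt.H59
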