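import Pool.Agent.Lib.MP_af4c59_nt.H59Count

/-!
Boundedly many restrictions to an inertia group, wild primes included.
-/

namespace Pool.Agent.Lib.MP_af4c59_nt.H59

open NumberField Module Polynomial IsDedekindDomain WithZero

variable {n : ℕ} {d : Dat}

lemma Rep.mat {L : IntermediateField ℚ Ω} {φ : Fin n → (L →ₐ[ℚ] d.M)}
    {ρ : d.Γ →* Equiv.Perm (Fin n)} [NumberField L] (h : Rep d L φ ρ) :
    ∃ A : Matrix (Fin n) (Fin n) (𝓞 d.M), A.det ^ 2 = ((discr L : ℤ) : 𝓞 d.M) ∧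
      ∀ σ i k, A (ρ σ i) k = σ • A i k := by
  classical
  obtain ⟨e, he⟩ := h.equiv
  obtain ⟨b, hb, hd⟩ := H50.exists_disc e
  let A : Matrix (Fin n) (Fin n) (𝓞 d.M) := fun i j =>
    ⟨φ i (b j), map_isIntegral_int (φ i) (hb j)⟩
  let c : 𝓞 d.M →+* Ω := (algebraMap d.M Ω).comp (algebraMap (𝓞 d.M) d.M)
  have hc : Function.Injective c := (algebraMap d.M Ω).injective.comp RingOfIntegers.coe_injective
  have hA : c.mapMatrix A = Matrix.of fun i j => e i (b j) := by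
    ext i j
    exact (he i (b j)).symm
  refine ⟨A, hc ?_, fun σ i k => RingOfIntegers.ext (h.act σ i (b k))⟩
  rw [map_pow, RingHom.map_det, hA, ← hd, map_intCast]

/-- A power of the chosen prime that measures closeness. -/
lemma exists_level (d : Dat) {p : ℕ} (hp : p.Prime) (hn : 0 < n) : ∃ t : ℕ,
    (∀ x : Fin n → 𝓞 d.M, (p : 𝓞 d.M) ^ n ^ 3 ∣ ∏ j, x j → ∃ j, x j ∈ d.P p ^ t) ∧
    ∀ (x : 𝓞 d.M) (z : ℤ), x ∈ d.P p ^ t → x ^ 2 = z → z ≠ 0 → n ^ 2 < padicValNat p z.natAbs := by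
  have hm := d.max p hp
  have hp0 : (p : 𝓞 d.M) ≠ 0 := by exact_mod_cast hp.ne_zero
  have hP0 : d.P p ≠ ⊥ := fun h => hp0 (by simpa [h] using d.mem p hp)
  let v : HeightOneSpectrum (𝓞 d.M) := ⟨d.P p, hm.isPrime, hP0⟩
  obtain ⟨e, he⟩ : ∃ e : ℕ, v.intValuation (p : 𝓞 d.M) = exp (-(e : ℤ)) :=
    ⟨_, v.intValuation_eq_exp_neg_multiplicity hp0⟩
  have he0 : 0 < e := by
    have h1 := (v.intValuation_lt_one_iff_mem _).2 (d.mem p hp)
    rw [he, ← exp_zero, exp_lt_exp] at h1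
    omega
  have hmem : ∀ (x : 𝓞 d.M) (t : ℕ), x ∈ d.P p ^ t ↔ v.intValuation x ≤ exp (-(t : ℤ)) :=
    fun x t => (v.intValuation_le_pow_iff_mem x t).symm
  refine ⟨e * n ^ 2, fun x hx => ?_, fun x z hx hz h0 => ?_⟩
  · by_contra hcon
    push Not at hcon
    obtain ⟨c, hc⟩ := hx
    have h1 : v.intValuation (∏ j, x j) ≤ exp (-((e * n ^ 2 : ℕ) : ℤ)) ^ n := by
      rw [hc, map_mul, map_pow, he]
      refine (mul_le_of_le_one_right' (v.intValuation_le_one c)).trans_eq ?_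
      rw [← exp_nsmul, ← exp_nsmul]
      congr 1
      push_cast
      ring
    have h2 : ∏ _j : Fin n, (exp (-((e * n ^ 2 : ℕ) : ℤ)) : ℤᵐ⁰) < ∏ j, v.intValuation (x j) :=
      Finset.prod_lt_prod_of_nonempty (fun _ _ => exp_pos) (fun j _ => not_le.1 fun h =>
        hcon j ((hmem _ _).2 h)) ⟨⟨0, hn⟩, Finset.mem_univ _⟩
    rw [Finset.prod_const, Finset.card_univ, Fintype.card_fin, ← map_prod] at h2
    exact absurd h1 (not_le.2 h2)
  · have := Fact.mk hp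
    obtain ⟨a, y, hy, hay⟩ := Nat.exists_eq_pow_mul_and_not_dvd (Int.natAbs_ne_zero.2 h0) p
      hp.ne_one
    have h1 : v.intValuation (y : 𝓞 d.M) = 1 := HeightOneSpectrum.intValuation_eq_one_iff.2
      fun h => hy (Int.natCast_dvd_natCast.1 (d.int_mem hp (z := y) (by simpa using h)))
    have h2 : v.intValuation (z : 𝓞 d.M) = exp (-(e : ℤ)) ^ a := by
      have h3 : v.intValuation (z : 𝓞 d.M) = v.intValuation ((z.natAbs : ℕ) : 𝓞 d.M) := by
        rcases Int.natAbs_eq z with h | h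
        · rw [h]; simp
        · rw [h]; simp
      rw [h3, hay, Nat.cast_mul, Nat.cast_pow, map_mul, map_pow, he, h1, mul_one]
    have h3 := pow_le_pow_left' ((hmem _ _).1 hx) 2
    rw [← map_pow, hz, h2, ← exp_nsmul, ← exp_nsmul, exp_le_exp] at h3
    have h4 : 2 * (e * n ^ 2) ≤ a * e := by
      simp only [nsmul_eq_mul] at h3
      zify
      push_cast at h3
      linarith
    have h5 : padicValNat p z.natAbs = a := by
      rw [hay, padicValNat.mul (pow_ne_zero _ hp.ne_zero) (fun h : y = 0 => hy (h ▸ dvd_zero p)),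
        padicValNat.prime_pow, padicValNat.eq_zero_of_not_dvd hy, add_zero]
    have h6 : 0 < n ^ 2 := pow_pos hn 2
    rw [h5]
    nlinarith

/-- Integers with few conjugates fall into boundedly many classes. -/
lemma exists_types (d : Dat) (q : ℕ) (J : Ideal (𝓞 d.M))
    (hJ : ∀ x : Fin n → 𝓞 d.M, (q : 𝓞 d.M) ∣ ∏ j, x j → ∃ j, x j ∈ J) {α : Type}
    (y : α → Fin n → 𝓞 d.M)
    (hy : ∀ a (σ : d.Γ), ∃ π : Equiv.Perm (Fin n), ∀ i, y a (π i) = σ • y a i) :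
    ∃ θ : α → Fin n → (Fin (n + 1) → ZMod q) × Fin n,
      ∀ a i a' i', θ a i = θ a' i' → y a i - y a' i' ∈ J := by
  classical
  rcases isEmpty_or_nonempty α with _ | _
  · exact ⟨fun a => isEmptyElim a, fun a => isEmptyElim a⟩
  have hGal : IsGaloisGroup d.Γ ℤ (𝓞 d.M) :=
    IsGaloisGroup.of_isFractionRing d.Γ ℤ (𝓞 d.M) ℚ d.M
  let F : α → (𝓞 d.M)[X] := fun a => ∏ i, (X - C (y a i))
  have hdeg : ∀ a, (F a).natDegree < n + 1 := fun a => by
    rw [natDegree_prod_of_monic _ _ fun i _ => monic_X_sub_C _]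
    simp
  have hz : ∀ a j, ∃ z : ℤ, (z : 𝓞 d.M) = (F a).coeff j := fun a j => by
    obtain ⟨z, hz⟩ := hGal.isInvariant.isInvariant ((F a).coeff j) fun σ => by
      obtain ⟨π, hπ⟩ := hy a σ
      have h1 : (F a).map (MulSemiringAction.toRingHom d.Γ (𝓞 d.M) σ) = F a := by
        rw [Polynomial.map_prod]
        refine Eq.trans ?_ (Equiv.prod_comp π fun i => X - C (y a i))
        refine Finset.prod_congr rfl fun i _ => ?_
        rw [hπ]
        simp
      have h2 := congrArg (fun f => f.coeff j) h1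
      simpa using h2
    exact ⟨z, by simpa using hz⟩
  choose z hz using hz
  let t : α → Fin (n + 1) → ZMod q := fun a j => z a j
  let rep : α → α := fun a => Function.invFun t (t a)
  have h0 : ∀ a, t (rep a) = t a := fun a => Function.invFun_eq ⟨a, rfl⟩
  have h1 : ∀ a i, ∃ j, y a i - y (rep a) j ∈ J := fun a i => hJ _ (by
    have h2 : (F a).eval (y a i) = 0 := by
      rw [eval_prod]
      exact Finset.prod_eq_zero (Finset.mem_univ i) (by simp)
    have h3 : ∏ j, (y a i - y (rep a) j) = (F (rep a)).eval (y a i) - (F a).eval (y a i) := by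
      rw [h2, sub_zero, eval_prod]
      simp
    rw [h3, eval_eq_sum_range' (hdeg _), eval_eq_sum_range' (hdeg _), ← Finset.sum_sub_distrib]
    refine Finset.dvd_sum fun j hj => ?_
    rw [← sub_mul, ← hz, ← hz, ← Int.cast_sub]
    have h4 := (ZMod.intCast_eq_intCast_iff_dvd_sub _ _ q).1
      (congrFun (h0 a) ⟨j, Finset.mem_range.1 hj⟩).symm
    exact Dvd.dvd.mul_right (by simpa using map_dvd (Int.castRingHom (𝓞 d.M)) h4) _)
  choose s hs using h1
  refine ⟨fun a i => (t a, s a i), fun a i a' i' h => ?_⟩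
  have h2 : rep a = rep a' := congrArg (Function.invFun t) (congrArg Prod.fst h :)
  have h3 : s a i = s a' i' := congrArg Prod.snd h
  have h4 := J.sub_mem (hs a i) (hs a' i')
  rwa [h2, h3, sub_sub_sub_cancel_right] at h4

lemma loc_perm (G : Subgroup (Equiv.Perm (Fin n))) (i0 : Fin n) (hG : ∀ i, ∃ g ∈ G, g i0 = i)
    {p : ℕ} (hp : p.Prime) (d : Dat) :
    ∃ θ : {ρ : d.Γ →* Equiv.Perm (Fin n) // ρ.range = G} →
        Fin n → Fin n → (Fin (n + 1) → ZMod (p ^ n ^ 3)) × Fin n,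
      ∀ ρ ρ', θ ρ = θ ρ' → ∀ σ ∈ d.I p, ρ.1 σ = ρ'.1 σ := by
  classical
  obtain ⟨t, t1, t2⟩ := exists_level d hp (Fin.pos i0)
  have hex : ∀ ρ : {ρ : d.Γ →* Equiv.Perm (Fin n) // ρ.range = G},
      ∃ A : Matrix (Fin n) (Fin n) (𝓞 d.M), (∀ σ i k, A (ρ.1 σ i) k = σ • A i k) ∧
        ∀ i j, (∀ k, A i k - A j k ∈ d.P p ^ t) → i = j := fun ρ => by
    obtain ⟨L, _, φ, h, -⟩ := exists_rep G i0 hG ρ.2
    obtain ⟨A, h1, h2⟩ := h.mat
    refine ⟨A, h2, fun i j hij => by_contra fun hne => ?_⟩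
    have h3 : A.det ∈ d.P p ^ t := by
      rw [← Ideal.Quotient.eq_zero_iff_mem, RingHom.map_det]
      exact Matrix.det_zero_of_row_eq hne (funext fun k => Ideal.Quotient.eq.2 (hij k))
    have h4 := t2 _ _ h3 h1 (discr_ne_zero L)
    have h5 := H50.wild L hp
    rw [h.rk] at h5
    omega
  choose A A1 A2 using hex
  obtain ⟨θ, hθ⟩ := exists_types d (p ^ n ^ 3) (d.P p ^ t) (by simpa using t1)
    (α := {ρ : d.Γ →* Equiv.Perm (Fin n) // ρ.range = G} × Fin n) (fun a i => A a.1 i a.2)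
    fun a σ => ⟨a.1.1 σ, fun i => A1 _ _ _ _⟩
  refine ⟨fun ρ k i => θ (ρ, k) i, fun ρ ρ' h σ hσ => Equiv.ext fun i => A2 ρ _ _ fun k => ?_⟩
  have h1 : ∀ i, A ρ i k - A ρ' i k ∈ d.P p ^ t := fun i =>
    hθ (ρ, k) i (ρ', k) i (congrFun (congrFun h k) i)
  have h2 := H50.in_map (g := MulSemiringAction.toRingHom d.Γ (𝓞 d.M) σ) hσ t (h1 i)
  have h3 := Ideal.sub_mem _ h2 (h1 (ρ'.1 σ i))
  rw [map_sub, A1 ρ', MulSemiringAction.toRingHom_apply, MulSemiringAction.toRingHom_apply,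
    sub_sub_sub_cancel_right, ← A1] at h3
  exact h3

/-- Local finiteness. -/
theorem loc_fin (H : Type) [Group H] [Finite H] (p : ℕ) : ∃ (β : Type) (_ : Finite β),
    ∀ d : Dat, ∃ θ : (d.Γ →* H) → β,
      p.Prime → ∀ ρ ρ', θ ρ = θ ρ' → ∀ σ ∈ d.I p, ρ σ = ρ' σ := by
  classical
  by_cases hp : p.Prime
  swap
  · exact ⟨Unit, inferInstance, fun _ => ⟨fun _ => (), fun h => absurd h hp⟩⟩
  have : ∀ k : ℕ, NeZero (p ^ k) := fun k => ⟨pow_ne_zero _ hp.ne_zero⟩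
  let e := fun K : Subgroup H => Finite.equivFin K
  let l : ∀ K : Subgroup H, K →* Equiv.Perm (Fin (Nat.card K)) := fun K =>
    (e K).permCongrHom.toMonoidHom.comp (MulAction.toPermHom K K)
  have hl : ∀ K, Function.Injective (l K) := fun K =>
    (e K).permCongrHom.injective.comp MulAction.toPerm_injective
  refine ⟨(K : Subgroup H) × (Fin (Nat.card K) → Fin (Nat.card K) →
    (Fin (Nat.card K + 1) → ZMod (p ^ Nat.card K ^ 3)) × Fin (Nat.card K)), inferInstance,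
    fun d => ?_⟩
  choose θ hθ using fun K : Subgroup H => loc_perm (l K).range (e K 1)
    (fun i => ⟨l K ((e K).symm i), ⟨_, rfl⟩, by simp [l]⟩) hp d
  have hr : ∀ z : (K : Subgroup H) × {ρ : d.Γ →* K // Function.Surjective ρ},
      ((l z.1).comp z.2.1).range = (l z.1).range := fun z => by
    rw [MonoidHom.range_comp, MonoidHom.range_eq_top.2 z.2.2, MonoidHom.range_eq_map]
  have key : ∀ z z' : (K : Subgroup H) × {ρ : d.Γ →* K // Function.Surjective ρ},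
      (⟨z.1, θ z.1 ⟨_, hr z⟩⟩ : (K : Subgroup H) × (Fin (Nat.card K) → Fin (Nat.card K) →
        (Fin (Nat.card K + 1) → ZMod (p ^ Nat.card K ^ 3)) × Fin (Nat.card K))) =
        ⟨z'.1, θ z'.1 ⟨_, hr z'⟩⟩ →
      ∀ σ ∈ d.I p, (z.2.1 σ : H) = z'.2.1 σ := by
    rintro ⟨K, ρ⟩ ⟨K', ρ'⟩ h σ hσ
    obtain rfl : K = K' := congrArg Sigma.fst h
    exact congrArg Subtype.val (hl K (hθ K ⟨_, hr ⟨K, ρ⟩⟩ ⟨_, hr ⟨K, ρ'⟩⟩
      (eq_of_heq (Sigma.mk.inj h).2) σ hσ))
  exact ⟨fun ρ => ⟨ρ.range, θ _ ⟨_, hr ⟨ρ.range, ρ.rangeRestrict, ρ.rangeRestrict_surjective⟩⟩⟩,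
    fun _ ρ ρ' h => key ⟨ρ.range, ρ.rangeRestrict, ρ.rangeRestrict_surjective⟩
      ⟨ρ'.range, ρ'.rangeRestrict, ρ'.rangeRestrict_surjective⟩ h⟩

end Pool.Agent.Lib.MP_af4c59_nt.H59
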