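import Pool.Agent.Lib.MP_af4c59_nt.H59Aff

/-!
Groups of order less than fourteen and their iterated central extensions.
-/

namespace Pool.Agent.Lib.MP_af4c59_nt.H59

open Equiv

variable {H : Type} [Group H] [Finite H]

/-- The action on the cosets of a non-normal subgroup of prime order. -/
lemma exists_perm {p k : ℕ} [hp : Fact p.Prime] (hk : Nat.card H = k * p)
    (hN : ∀ U : Subgroup H, Nat.card U = p → ¬ U.Normal) :
    ∃ f : H →* Perm (Fin k), Function.Injective f := by
  obtain ⟨U, hU⟩ := Sylow.exists_subgroup_card_pow_prime (G := H) p (n := 1)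
    (by rw [hk, pow_one]; exact dvd_mul_left _ _)
  rw [pow_one] at hU
  have h1 : Nat.card (H ⧸ U) = k := by
    have := Subgroup.card_eq_card_quotient_mul_card_subgroup U
    rw [hk, hU] at this
    exact (Nat.eq_of_mul_eq_mul_right hp.out.pos this).symm
  refine ⟨(Finite.equivFinOfCardEq h1).permCongrHom.toMonoidHom.comp
    (MulAction.toPermHom H (H ⧸ U)), (Finite.equivFinOfCardEq h1).permCongrHom.injective.comp
      (?_ : Function.Injective (MulAction.toPermHom H (H ⧸ U)))⟩
  rw [← MonoidHom.ker_eq_bot_iff, ← Subgroup.normalCore_eq_ker]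
  have h2 := Subgroup.card_dvd_of_le U.normalCore_le
  rw [hU, Nat.dvd_prime hp.out] at h2
  rcases h2 with h2 | h2
  · exact Subgroup.card_eq_one.1 h2
  · have h3 := Subgroup.eq_of_le_of_card_ge U.normalCore_le (by rw [hU, h2])
    exact absurd (h3 ▸ inferInstance) (hN U hU)

omit [Finite H] in
lemma not_normal_two (hZ : Subgroup.center H = ⊥) (U : Subgroup H) (hU : Nat.card U = 2) :
    ¬ U.Normal := fun hN => by
  obtain ⟨y, hy, hu⟩ := (Nat.card_eq_two_iff' (1 : U)).1 hU
  have h1 : y.1 ∈ Subgroup.center H := Subgroup.mem_center_iff.2 fun g => by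
    have h2 := hu ⟨g * y.1 * g⁻¹, hN.conj_mem _ y.2 g⟩ fun h => hy (Subtype.ext (by
      simpa using congrArg Subtype.val h))
    exact mul_inv_eq_iff_eq_mul.1 (congrArg Subtype.val h2)
  rw [hZ, Subgroup.mem_bot] at h1
  exact hy (Subtype.ext h1)

lemma not_normal_three (hZ : Subgroup.center H = ⊥) (h : Nat.card H = 12) (U : Subgroup H)
    (hU : Nat.card U = 3) : ¬ U.Normal := fun hN => by
  have : Fact (Nat.Prime 2) := ⟨Nat.prime_two⟩
  have : Fact (Nat.Prime 3) := ⟨Nat.prime_three⟩
  obtain ⟨P, hP⟩ := Sylow.exists_subgroup_card_pow_prime (G := H) 2 (n := 2) (by rw [h]; norm_num)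
  have hc : IsCyclic U := isCyclic_of_prime_card hU
  have h1 : ¬ Function.Injective ((MulAut.conjNormal (H := U)).comp P.subtype) := fun hi => by
    have h2 := Nat.card_le_card_of_injective _ hi
    rw [hP, IsCyclic.card_mulAut, hU] at h2
    revert h2
    decide
  rw [injective_iff_map_eq_one] at h1
  push Not at h1
  obtain ⟨t, t1, t2⟩ := h1
  have t3 : ∀ x ∈ U, Commute t.1 x := fun x hx =>
    mul_inv_eq_iff_eq_mul.1 (congrArg Subtype.val (DFunLike.congr_fun t1 ⟨x, hx⟩) :)
  have t4 : t.1 ^ 4 = 1 := by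
    have h2 : t ^ Nat.card P = 1 := pow_card_eq_one'
    rw [hP] at h2
    exact congrArg Subtype.val h2
  have hQ : Nat.card (H ⧸ U) = 2 ^ 2 := by
    have := Subgroup.card_eq_card_quotient_mul_card_subgroup U
    rw [h, hU] at this
    omega
  have h2 : t.1 ∈ Subgroup.center H := Subgroup.mem_center_iff.2 fun g => by
    have h3 : t.1⁻¹ * (g * t.1 * g⁻¹) ∈ U := by
      rw [← QuotientGroup.eq, QuotientGroup.mk_mul, QuotientGroup.mk_mul,
        (IsPGroup.isMulCommutative_of_card_eq_prime_sq hQ).is_comm.comm (g : H ⧸ U),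
        QuotientGroup.mk_inv, mul_inv_cancel_right]
    have h4 : (t.1⁻¹ * (g * t.1 * g⁻¹)) ^ 3 = 1 := by
      have h5 : (⟨_, h3⟩ : U) ^ Nat.card U = 1 := pow_card_eq_one'
      rw [hU] at h5
      exact congrArg Subtype.val h5
    have h5 := (t3 _ h3).mul_pow 4
    rw [mul_inv_cancel_left, conj_pow, t4, pow_succ _ 3, h4] at h5
    have h6 : t.1⁻¹ * (g * t.1 * g⁻¹) = 1 := by simpa using h5.symm
    exact mul_inv_eq_iff_eq_mul.1 (inv_mul_eq_one.1 h6).symm
  rw [hZ, Subgroup.mem_bot] at h2
  exact t2 (Subtype.ext h2)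

lemma exists_D5 (h : Nat.card H = 10) (f : H →* Perm (Fin 5)) (hf : Function.Injective f) :
    ∃ f' : H →* H57.D5, Function.Injective f' := by
  have : Fact (Nat.Prime 5) := ⟨by norm_num⟩
  obtain ⟨x, hx⟩ := exists_prime_orderOf_dvd_card' (G := H) 5 (by rw [h]; norm_num)
  have h1 : orderOf (f x) = Fintype.card (Fin 5) := by rw [orderOf_injective f hf, hx]; rfl
  have h2 := Perm.isCycle_of_prime_order'' (by norm_num) h1
  obtain ⟨c, hc⟩ := isConj_iff.1 (h2.isConj (isCycle_finRotate (n := 3))
    (by rw [← h2.orderOf, h1, support_finRotate]; rfl))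
  let f' : H →* Perm (Fin 5) := (MulAut.conj c).toMonoidHom.comp f
  have h3 : f' x = finRotate 5 := hc
  have h4 : (Subgroup.zpowers x).index = 2 := by
    have := (Subgroup.zpowers x).index_mul_card
    rw [Nat.card_zpowers, hx, h] at this
    omega
  have h5 : ∀ y ∈ Subgroup.zpowers x, ∃ k : Fin 5, f' y = finRotate 5 ^ k.1 := fun y hy => by
    classical
    obtain ⟨k, hk, rfl⟩ := Finset.mem_image.1 (mem_zpowers_iff_mem_range_orderOf.1 hy)
    exact ⟨⟨k, hx ▸ Finset.mem_range.1 hk⟩, by rw [map_pow, h3]⟩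
  have key : ∀ g : Perm (Fin 5), (∃ k : Fin 5, g * finRotate 5 * g⁻¹ = finRotate 5 ^ k.1) →
      (∃ k : Fin 5, g * g = finRotate 5 ^ k.1) →
      ∃ k : Fin 5, g = finRotate 5 ^ k.1 ∨ g = finRotate 5 ^ k.1 * Fin.revPerm := by
    decide +kernel
  have h6 : ∀ y, f' y ∈ H57.D5 := fun y => by
    have a1 : finRotate 5 ∈ H57.D5 := Subgroup.subset_closure (by simp)
    have a2 : Fin.revPerm ∈ H57.D5 := Subgroup.subset_closure (by simp)
    obtain ⟨k, hk | hk⟩ := key (f' y)
      (by simpa only [map_mul, map_inv, h3] using h5 _ ((Subgroup.normal_of_index_eq_two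
        h4).conj_mem _ (Subgroup.mem_zpowers x) y))
      (by simpa only [map_mul] using h5 _ (Subgroup.mul_self_mem_of_index_two h4 y))
    · exact hk ▸ pow_mem a1 _
    · exact hk ▸ mul_mem (pow_mem a1 _) a2
  exact ⟨f'.codRestrict _ h6, fun a b e =>
    hf ((MulAut.conj c).injective (congrArg Subtype.val e))⟩

lemma card_D5 : Nat.card H57.D5 ≤ 10 := by
  have h : ∀ g : H57.D5, ∃ z : Fin 5 × Bool, ∀ i, g.1 i = if z.2 then z.1 + i else z.1 - i :=
    fun g => by
      obtain ⟨a, h | h⟩ := H57.mem_D5 g.2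
      · exact ⟨(a, true), h⟩
      · exact ⟨(a, false), h⟩
  choose z hz using h
  refine (Nat.card_le_card_of_injective z fun g g' e => Subtype.ext (Equiv.ext fun i => ?_)).trans
    (by simp)
  rw [hz, hz, e]

theorem rr_small (n : ℕ) : n < 14 → ∀ (H : Type) [Group H] [Finite H], Nat.card H = n → RR H := by
  induction n using Nat.strong_induction_on with
  | _ n ih =>
  intro hn H _ _ hH
  have sub : ∀ (G : Type) [Group G] [Finite G], Nat.card G ≤ n → ∀ K : Subgroup G, K ≠ ⊤ → RR K :=
    fun G _ _ hG K hK => by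
      have h1 : Nat.card K < Nat.card G := lt_of_not_ge fun h => hK (K.eq_top_of_le_card h)
      exact ih _ (by omega) (by omega) K rfl
  by_cases hZ : Subgroup.center H = ⊥
  swap
  · have h1 := Subgroup.card_eq_card_quotient_mul_card_subgroup (Subgroup.center H)
    have h2 := (Subgroup.one_lt_card_iff_ne_bot _).2 hZ
    have h3 : Nat.card (H ⧸ Subgroup.center H) < n := by
      rw [← hH, h1]
      exact lt_mul_of_one_lt_right Nat.card_pos h2
    exact (ih _ h3 (by omega) _ rfl).central (QuotientGroup.mk' _)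
      fun x hx => (QuotientGroup.eq_one_iff x).1 hx
  have pg : ∀ p k : ℕ, p.Prime → n = p ^ k → RR H := fun p k hp h => by
    have := Fact.mk hp
    rcases subsingleton_or_nontrivial H with _ | _
    · exact rr_comm H fun _ _ => Subsingleton.elim _ _
    · exact absurd hZ ((Subgroup.nontrivial_iff_ne_bot _).1
        (IsPGroup.of_card (hH.trans h)).center_nontrivial)
  have : Fact (Nat.Prime 2) := ⟨Nat.prime_two⟩
  have : Fact (Nat.Prime 3) := ⟨Nat.prime_three⟩
  have h0 : 0 < n := hH ▸ Nat.card_pos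
  interval_cases n
  · exact pg 2 0 (by norm_num) rfl
  · exact pg 2 1 (by norm_num) rfl
  · exact pg 3 1 (by norm_num) rfl
  · exact pg 2 2 (by norm_num) rfl
  · exact pg 5 1 (by norm_num) rfl
  · obtain ⟨f, hf⟩ := exists_perm (p := 2) (k := 3) hH (not_normal_two hZ)
    exact (rr_S3 (sub _ (by simp [Fintype.card_perm, Nat.factorial]))).of_inj
      (f.codRestrict ⊤ fun _ => trivial) fun a b e => hf (congrArg Subtype.val e)
  · exact pg 7 1 (by norm_num) rfl
  · exact pg 2 3 (by norm_num) rfl
  · exact pg 3 2 (by norm_num) rfl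
  · obtain ⟨f, hf⟩ := exists_perm (p := 2) (k := 5) hH (not_normal_two hZ)
    obtain ⟨f', hf'⟩ := exists_D5 hH f hf
    exact (rr_D5 (sub _ card_D5)).of_inj f' hf'
  · exact pg 11 1 (by norm_num) rfl
  · obtain ⟨f, hf⟩ := exists_perm (p := 3) (k := 4) hH (not_normal_three hZ hH)
    have h1 : Nat.card f.range = 12 := (Nat.card_congr (MonoidHom.ofInjective hf).toEquiv).symm.trans hH
    have h2 : f.range = alternatingGroup (Fin 4) := Perm.eq_alternatingGroup_of_index_eq_two (by
      have := f.range.index_mul_card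
      rw [h1, Nat.card_perm, Nat.card_fin] at this
      simp only [Nat.factorial] at this
      omega)
    exact (rr_A4 (sub _ (h2 ▸ h1.le))).of_inj (f.codRestrict _ fun x => h2 ▸ ⟨x, rfl⟩)
      fun a b e => hf (congrArg Subtype.val e)
  · exact pg 13 1 (by norm_num) rfl

theorem rr_hyper (k : ℕ) : ∀ (H : Type) [Group H] [Finite H],
    (Subgroup.upperCentralSeries H k).index < 14 → RR H := by
  induction k with
  | zero =>
    intro H _ _ h
    rw [Subgroup.upperCentralSeries_zero, Subgroup.index_bot] at h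
    exact rr_small _ h H rfl
  | succ k ih =>
    intro H _ _ h
    rw [← Subgroup.comap_upperCentralSeries_quotient_center,
      Subgroup.index_comap_of_surjective _ (QuotientGroup.mk'_surjective _)] at h
    exact (ih _ h).central (QuotientGroup.mk' _) fun x hx => (QuotientGroup.eq_one_iff x).1 hx

end Pool.Agent.Lib.MP_af4c59_nt.H59
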