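import Pool.Agent.Lib.MP_af4c59_nt.K9Defs

/-!
The small element and its invariants (part B2).
-/

set_option autoImplicit false

namespace Pool.Agent.Lib.MP_af4c59_nt.K9

open NumberField Module IsDedekindDomain

namespace QuadBAux

open scoped nonZeroDivisors NNReal ENNReal

/-- Minkowski's theorem for a box and a fractional ideal. -/
theorem mink (K : Type) [Field K] [NumberField K] (I : (FractionalIdeal (𝓞 K)⁰ K)ˣ)
    (f : InfinitePlace K → ℝ≥0)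
    (h1 : ((FractionalIdeal.absNorm I.1 : ℚ) : ℝ) * √|(discr K : ℝ)| <
      ∏ w : InfinitePlace K, (f w : ℝ) ^ w.mult) :
    ∃ a ∈ I.1, a ≠ 0 ∧ ∀ w : InfinitePlace K, w a < f w := by
  classical
  have hP0 : 0 ≤ ∏ w : InfinitePlace K, (f w : ℝ) ^ w.mult := by positivity
  have hI0 : (0 : ℝ) ≤ ((FractionalIdeal.absNorm I.1 : ℚ) : ℝ) := by
    exact_mod_cast FractionalIdeal.absNorm_nonneg I.1
  have hlt : mixedEmbedding.minkowskiBound K I <
      MeasureTheory.volume (mixedEmbedding.convexBodyLT K f) := by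
    rw [mixedEmbedding.convexBodyLT_volume,
      ← ENNReal.toReal_lt_toReal (mixedEmbedding.minkowskiBound_lt_top K I).ne
        (ENNReal.mul_ne_top ENNReal.coe_ne_top ENNReal.coe_ne_top)]
    simp_rw [mixedEmbedding.minkowskiBound,
      mixedEmbedding.volume_fundamentalDomain_fractionalIdealLatticeBasis,
      mixedEmbedding.volume_fundamentalDomain_latticeBasis, ENNReal.toReal_mul, ENNReal.toReal_pow,
      ENNReal.toReal_inv, ENNReal.coe_toReal, ENNReal.toReal_ofNat, mixedEmbedding.finrank]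
    rw [ENNReal.toReal_ofReal hI0, ← InfinitePlace.card_add_two_mul_card_eq_rank]
    simp only [Real.coe_sqrt, coe_nnnorm, Int.norm_eq_abs, NNReal.coe_mul, NNReal.coe_pow,
      NNReal.coe_ofNat, NNReal.coe_real_pi, NNReal.coe_prod]
    set r₁ := InfinitePlace.nrRealPlaces K
    set r₂ := InfinitePlace.nrComplexPlaces K
    set N : ℝ := ((FractionalIdeal.absNorm I.1 : ℚ) : ℝ)
    have h2 : (2 : ℝ) ^ r₂ ≤ Real.pi ^ r₂ := pow_le_pow_left₀ (by norm_num) Real.two_le_pi _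
    have h3 : N * ((2 : ℝ)⁻¹ ^ r₂ * √|(discr K : ℝ)|) * 2 ^ (r₁ + 2 * r₂) =
        2 ^ r₁ * 2 ^ r₂ * (N * √|(discr K : ℝ)|) := by
      rw [pow_add, two_mul, pow_add, inv_pow]
      field_simp
    rw [h3]
    calc (2 : ℝ) ^ r₁ * 2 ^ r₂ * (N * √|(discr K : ℝ)|)
        < 2 ^ r₁ * 2 ^ r₂ * ∏ w : InfinitePlace K, (f w : ℝ) ^ w.mult :=
          mul_lt_mul_of_pos_left h1 (by positivity)
      _ ≤ 2 ^ r₁ * Real.pi ^ r₂ * ∏ w : InfinitePlace K, (f w : ℝ) ^ w.mult := by gcongr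
  exact mixedEmbedding.exists_ne_zero_mem_ideal_lt K I hlt

/-- A prime that divides the different is ramified. -/
theorem norm_mem_sq (K : Type) [Field K] [NumberField K] (P : Ideal (𝓞 K)) (hP : Prime P)
    (h : P ∣ differentIdeal ℤ (𝓞 K)) : ((Ideal.absNorm P : ℕ) : 𝓞 K) ∈ P ^ 2 := by
  have hP0 : P ≠ ⊥ := hP.ne_zero
  have : P.IsPrime := Ideal.isPrime_of_prime hP
  have hp : P.under ℤ ≠ ⊥ := mt Ideal.eq_bot_of_comap_eq_bot hP0
  have h1 : ¬ Algebra.IsUnramifiedAt ℤ P := dvd_differentIdeal_iff.1 h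
  rw [← Ideal.ramificationIdx_eq_one_iff,
    ← Ideal.ramificationIdx'_eq_ramificationIdx (P.under ℤ) P hp] at h1
  have h2 := (Ideal.ramificationIdx'_ne_one_iff Ideal.map_comap_le).1 h1
  apply h2
  have h3 : ((Ideal.absNorm P : ℕ) : ℤ) ∈ P.under ℤ := by
    simpa [Ideal.under, Ideal.mem_comap] using Ideal.absNorm_mem P
  have h4 := Ideal.mem_map_of_mem (algebraMap ℤ (𝓞 K)) h3
  rwa [map_natCast] at h4

theorem norm_mem_sq_of (K : Type) [Field K] [NumberField K] (J : Ideal (𝓞 K))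
    (h : ∀ P : Ideal (𝓞 K), Prime P → P ∣ J → ((Ideal.absNorm P : ℕ) : 𝓞 K) ∈ P ^ 2) :
    ((Ideal.absNorm J : ℕ) : 𝓞 K) ∈ J ^ 2 := by
  induction J using UniqueFactorizationMonoid.induction_on_prime with
  | h₁ => simp
  | h₂ x hx =>
    rw [Ideal.isUnit_iff.1 hx, Ideal.top_pow]
    exact Submodule.mem_top
  | h₃ a P _ hP ih =>
    rw [map_mul, Nat.cast_mul, mul_pow]
    exact Ideal.mul_mem_mul (h P hP (dvd_mul_right _ _))
      (ih fun Q hQ hd => h Q hQ (hd.mul_left _))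

/-- The discriminant lies in the square of the different. -/
theorem discr_mem (K : Type) [Field K] [NumberField K] :
    ((discr K : ℤ) : 𝓞 K) ∈ differentIdeal ℤ (𝓞 K) ^ 2 := by
  have h := norm_mem_sq_of K _ (norm_mem_sq K)
  rw [absNorm_differentIdeal K] at h
  rcases Int.natAbs_eq (discr K) with e | e
  · rw [e, Int.cast_natCast]
    exact h
  · rw [e, Int.cast_neg, Int.cast_natCast]
    exact neg_mem h

/-- An element of the inverse different has integral trace. -/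
theorem trace_int (K : Type) [Field K] [NumberField K] (α : K)
    (h : α ∈ ((differentIdeal ℤ (𝓞 K) : FractionalIdeal (𝓞 K)⁰ K))⁻¹) :
    ∃ s : ℤ, Algebra.trace ℚ K α = s := by
  have h1 : (1 : FractionalIdeal (𝓞 K)⁰ K) ≠ 0 := @one_ne_zero (FractionalIdeal (𝓞 K)⁰ K) _ _ _
  rw [coeIdeal_differentIdeal ℤ ℚ K (𝓞 K), inv_inv, FractionalIdeal.mem_dual h1] at h
  obtain ⟨s, hs⟩ := h 1 (FractionalIdeal.one_mem_one _)
  exact ⟨s, by simpa using hs.symm⟩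

/-- The symmetric functions through the complex embeddings. -/
theorem emb (K : Type) [Field K] [NumberField K] (hK : finrank ℚ K = 3) :
    ∃ φ : Fin 3 → (K →ₐ[ℚ] ℂ), ∀ α : K,
      ((Algebra.trace ℚ K α : ℚ) : ℂ) = φ 0 α + φ 1 α + φ 2 α ∧
      ((Algebra.norm ℚ α : ℚ) : ℂ) = φ 0 α * φ 1 α * φ 2 α := by
  classical
  have hc : Fintype.card (K →ₐ[ℚ] ℂ) = 3 := by rw [AlgHom.card, hK]
  let e := (Fintype.equivFinOfCardEq hc).symm
  refine ⟨e, fun α => ⟨?_, ?_⟩⟩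
  · have h := trace_eq_sum_embeddings (K := ℚ) (L := K) ℂ (x := α)
    rw [← e.sum_comp, Fin.sum_univ_three] at h
    simpa using h
  · have h := Algebra.norm_eq_prod_embeddings ℚ ℂ α
    rw [← e.prod_comp, Fin.prod_univ_three] at h
    simpa using h

/-- The small element of the inverse of an ideal of norm `N(I) |disc|`. -/
theorem small (K : Type) [Field K] [NumberField K] (hK : finrank ℚ K = 3) (δ : 𝓞 K)
    (I : Ideal (𝓞 K)) (hI : I ≠ ⊥) (hδ : I ^ 3 = Ideal.span {δ}) :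
    ∃ x ∈ ((I * differentIdeal ℤ (𝓞 K) : Ideal (𝓞 K)) : FractionalIdeal (𝓞 K)⁰ K)⁻¹, x ≠ 0 ∧
      ∀ w : InfinitePlace K, w ((discr K : K) * δ * x ^ 3) ≤ 2 * √|(discr K : ℝ)| := by
  classical
  have hD : differentIdeal ℤ (𝓞 K) ≠ ⊥ := differentIdeal_ne_bot
  have hA : ((I * differentIdeal ℤ (𝓞 K) : Ideal (𝓞 K)) : FractionalIdeal (𝓞 K)⁰ K) ≠ 0 :=
    FractionalIdeal.coeIdeal_ne_zero.2 (mul_ne_zero hI hD)
  have hδ0 : δ ≠ 0 := by
    intro h
    rw [h, Ideal.span_singleton_zero] at hδ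
    exact pow_ne_zero 3 hI hδ
  have hδK : (δ : K) ≠ 0 := by exact_mod_cast hδ0
  set R : ℝ := √|(discr K : ℝ)| with hR
  have hd0 : (0 : ℝ) < |(discr K : ℝ)| := abs_pos.2 (by exact_mod_cast discr_ne_zero K)
  have hR0 : 0 < R := Real.sqrt_pos.2 hd0
  have hRR : R ^ 2 = |(discr K : ℝ)| := Real.sq_sqrt hd0.le
  have hw : ∀ w : InfinitePlace K, 0 < w (δ : K) := fun w => InfinitePlace.pos_iff.2 hδK
  have hq : ∀ w : InfinitePlace K, 0 ≤ 2 / (R * w (δ : K)) := fun w => by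
    have := hw w
    positivity
  let f : InfinitePlace K → ℝ≥0 := fun w =>
    ⟨(2 / (R * w (δ : K))) ^ ((3 : ℕ) : ℝ)⁻¹, Real.rpow_nonneg (hq w) _⟩
  have hf : ∀ w, (f w : ℝ) ^ 3 = 2 / (R * w (δ : K)) := fun w =>
    Real.rpow_inv_natCast_pow (hq w) three_ne_zero
  set M : ℝ := (Ideal.absNorm I : ℝ) with hM
  have hM0 : 0 < M := by
    have : Ideal.absNorm I ≠ 0 := mt Ideal.absNorm_eq_zero_iff.1 hI
    rw [hM]
    exact_mod_cast Nat.pos_of_ne_zero this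
  have hN : ((|Algebra.norm ℚ (δ : K)| : ℚ) : ℝ) = M ^ 3 := by
    have h1 := congrArg Ideal.absNorm hδ
    rw [map_pow, Ideal.absNorm_span_singleton] at h1
    rw [← Algebra.coe_norm_int, hM, ← Nat.cast_pow, h1, Nat.cast_natAbs]
    push_cast
    rfl
  have hP : (∏ w : InfinitePlace K, (f w : ℝ) ^ w.mult) ^ 3 = (2 / (R * M)) ^ 3 := by
    rw [← Finset.prod_pow]
    have : ∀ w : InfinitePlace K, ((f w : ℝ) ^ w.mult) ^ 3 =
        (2 / R) ^ w.mult / w (δ : K) ^ w.mult := by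
      intro w
      rw [← pow_mul, mul_comm w.mult 3, pow_mul, hf, ← div_pow, div_div]
    simp only [this, Finset.prod_div_distrib, Finset.prod_pow_eq_pow_sum,
      InfinitePlace.sum_mult_eq, InfinitePlace.prod_eq_abs_norm, hK, hN]
    rw [← div_pow, div_div]
  have hP0 : 0 ≤ ∏ w : InfinitePlace K, (f w : ℝ) ^ w.mult := by positivity
  have hP1 : ∏ w : InfinitePlace K, (f w : ℝ) ^ w.mult = 2 / (R * M) :=
    (pow_left_inj₀ hP0 (by positivity) three_ne_zero).1 hP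
  obtain ⟨x, hx, hx0, hlt⟩ := mink K (Units.mk0 _ (inv_ne_zero hA)) f (by
    rw [hP1, Units.val_mk0, map_inv₀, FractionalIdeal.coeIdeal_absNorm, map_mul,
      absNorm_differentIdeal K]
    push_cast
    rw [Nat.cast_natAbs, Int.cast_abs, ← hM, ← hR, ← hRR]
    rw [lt_div_iff₀ (by positivity)]
    field_simp
    norm_num)
  refine ⟨x, hx, hx0, fun w => ?_⟩
  have h1 : w x ^ 3 ≤ 2 / (R * w (δ : K)) := by
    rw [← hf]
    exact pow_le_pow_left₀ (apply_nonneg w x) (hlt w).le 3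
  have h2 : w ((discr K : ℤ) : K) = R ^ 2 := by
    rw [hRR, ← InfinitePlace.norm_embedding_eq]
    simp
  rw [map_mul, map_mul, map_pow, h2]
  have h3 := hw w
  calc R ^ 2 * w (δ : K) * w x ^ 3 ≤ R ^ 2 * w (δ : K) * (2 / (R * w (δ : K))) := by gcongr
    _ = 2 * R := by field_simp

/-- The arithmetic of the small element. -/
theorem arith (K : Type) [Field K] [NumberField K] (hK : finrank ℚ K = 3) (δ : 𝓞 K)
    (I : Ideal (𝓞 K)) (hI : I ≠ ⊥) (hδ : I ^ 3 = Ideal.span {δ}) (x : K)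
    (hx : x ∈ ((I * differentIdeal ℤ (𝓞 K) : Ideal (𝓞 K)) : FractionalIdeal (𝓞 K)⁰ K)⁻¹)
    (hx0 : x ≠ 0) :
    ∃ (s n : ℤ) (b : 𝓞 K), Algebra.trace ℚ K ((discr K : K) * δ * x ^ 3) = s ∧
      Algebra.norm ℚ ((discr K : K) * δ * x ^ 3) = (n : ℚ) ^ 3 ∧ n ≠ 0 ∧
      (δ : K) * x ^ 3 * b = (n : K) ^ 3 := by
  set D := differentIdeal ℤ (𝓞 K) with hDdef
  have hD : D ≠ ⊥ := differentIdeal_ne_bot
  have hA : ((I * D : Ideal (𝓞 K)) : FractionalIdeal (𝓞 K)⁰ K) ≠ 0 :=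
    FractionalIdeal.coeIdeal_ne_zero.2 (mul_ne_zero hI hD)
  have hD' : (D : FractionalIdeal (𝓞 K)⁰ K) ≠ 0 := FractionalIdeal.coeIdeal_ne_zero.2 hD
  have hle : FractionalIdeal.spanSingleton (𝓞 K)⁰ x *
      ((I * D : Ideal (𝓞 K)) : FractionalIdeal (𝓞 K)⁰ K) ≤ 1 := by
    intro y hy
    obtain ⟨y', hy', rfl⟩ := FractionalIdeal.mem_singleton_mul.1 hy
    exact (FractionalIdeal.mem_inv_iff hA).1 hx y' hy'
  obtain ⟨J, hJ⟩ := FractionalIdeal.le_one_iff_exists_coeIdeal.1 hle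
  have hδI : δ ∈ I ^ 3 := by
    rw [hδ]
    exact Ideal.mem_span_singleton_self δ
  -- the trace
  obtain ⟨s, hs⟩ := trace_int K ((discr K : K) * δ * x ^ 3) (by
    rw [FractionalIdeal.mem_inv_iff hD']
    intro y hy
    obtain ⟨t, ht, rfl⟩ := (FractionalIdeal.mem_coeIdeal _).1 hy
    have h1 : δ * (((discr K : ℤ) : 𝓞 K) * t) ∈ (I * D) ^ 3 := by
      rw [mul_pow, pow_succ D 2]
      exact Ideal.mul_mem_mul hδI (Ideal.mul_mem_mul (discr_mem K) ht)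
    have h2 : ((J ^ 3 : Ideal (𝓞 K)) : FractionalIdeal (𝓞 K)⁰ K) =
        FractionalIdeal.spanSingleton (𝓞 K)⁰ (x ^ 3) *
          (((I * D) ^ 3 : Ideal (𝓞 K)) : FractionalIdeal (𝓞 K)⁰ K) := by
      rw [FractionalIdeal.coeIdeal_pow, FractionalIdeal.coeIdeal_pow, hJ, mul_pow,
        FractionalIdeal.spanSingleton_pow]
    refine FractionalIdeal.coeIdeal_le_one (I := J ^ 3) ?_
    rw [h2]
    refine FractionalIdeal.mem_singleton_mul.2 ⟨_, (FractionalIdeal.mem_coeIdeal _).2 ⟨_, h1, rfl⟩, ?_⟩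
    simp only [map_mul, map_intCast]
    change _ = x ^ 3 * ((δ : K) * _)
    ring)
  -- the norm
  have hN : |Algebra.norm ℚ (δ : K)| = (Ideal.absNorm I : ℚ) ^ 3 := by
    have h1 := congrArg Ideal.absNorm hδ
    rw [map_pow, Ideal.absNorm_span_singleton] at h1
    rw [← Algebra.coe_norm_int, ← Nat.cast_pow, h1, Nat.cast_natAbs]
    push_cast
    rfl
  have hNJ : (Ideal.absNorm J : ℚ) =
      |Algebra.norm ℚ x| * ((Ideal.absNorm I : ℚ) * |(discr K : ℚ)|) := by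
    have h1 := congrArg FractionalIdeal.absNorm hJ
    rw [map_mul, FractionalIdeal.coeIdeal_absNorm, FractionalIdeal.coeIdeal_absNorm,
      FractionalIdeal.absNorm_span_singleton, map_mul, absNorm_differentIdeal K] at h1
    rw [h1]
    push_cast
    rw [Nat.cast_natAbs, Int.cast_abs]
  have hNd : Algebra.norm ℚ ((discr K : ℤ) : K) = (discr K : ℚ) ^ 3 := by
    have : ((discr K : ℤ) : K) = algebraMap ℚ K (discr K : ℚ) := by simp
    rw [this, Algebra.norm_algebraMap, hK]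
  have hNα : |Algebra.norm ℚ ((discr K : K) * δ * x ^ 3)| = (Ideal.absNorm J : ℚ) ^ 3 := by
    rw [map_mul, map_mul, map_pow, hNd, abs_mul, abs_mul, abs_pow, abs_pow, hN, hNJ]
    ring
  have hJ0 : Ideal.absNorm J ≠ 0 := by
    rw [Ne, Ideal.absNorm_eq_zero_iff]
    rintro rfl
    refine mul_ne_zero (FractionalIdeal.spanSingleton_ne_zero_iff.2 hx0) hA ?_
    rw [← hJ]
    simp
  obtain ⟨n, hn, hn0, hnJ⟩ : ∃ n : ℤ,
      Algebra.norm ℚ ((discr K : K) * δ * x ^ 3) = (n : ℚ) ^ 3 ∧ n ≠ 0 ∧ (n : 𝓞 K) ∈ J := by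
    rcases abs_eq (by positivity) |>.1 hNα with h | h
    · exact ⟨Ideal.absNorm J, by simpa using h, by exact_mod_cast hJ0,
        by simpa using Ideal.absNorm_mem J⟩
    · refine ⟨-Ideal.absNorm J, ?_, by simpa using hJ0, by simpa using Ideal.absNorm_mem J⟩
      rw [h]
      push_cast
      ring
  have h1 : algebraMap (𝓞 K) K (n : 𝓞 K) ∈ (J : FractionalIdeal (𝓞 K)⁰ K) :=
    (FractionalIdeal.mem_coeIdeal _).2 ⟨_, hnJ, rfl⟩
  rw [hJ] at h1
  obtain ⟨y', hy', h2⟩ := FractionalIdeal.mem_singleton_mul.1 h1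
  obtain ⟨y, hy, rfl⟩ := (FractionalIdeal.mem_coeIdeal _).1 hy'
  have h3 : y ^ 3 ∈ Ideal.span {δ} := by
    rw [← hδ]
    exact Ideal.pow_mem_pow (Ideal.mul_le_left hy) 3
  obtain ⟨b, hb⟩ := Ideal.mem_span_singleton.1 h3
  refine ⟨s, n, b, hs, hn, hn0, ?_⟩
  have h4 := congrArg (algebraMap (𝓞 K) K) hb
  rw [map_pow, map_mul] at h4
  rw [map_intCast] at h2
  rw [h2, mul_pow, h4]
  change (δ : K) * x ^ 3 * (b : K) = x ^ 3 * ((δ : K) * (b : K))
  ring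

end QuadBAux

theorem quad_mink (K : Type) [Field K] [NumberField K] (hK : finrank ℚ K = 3) (δ : 𝓞 K)
    (I : Ideal (𝓞 K)) (hI : I ≠ ⊥) (hδ : I ^ 3 = Ideal.span {δ}) {Y : ℝ}
    (hY : |(discr K : ℝ)| ≤ Y) :
    ∃ (s n σ : ℤ) (α z : K), z ≠ 0 ∧ α = (discr K : K) * δ * z ^ 3 ∧
      Algebra.norm ℚ α = (n : ℚ) ^ 3 ∧ n ≠ 0 ∧
      (discr K : K) * α ^ 3 - s * discr K * α ^ 2 + σ * α - n ^ 3 * discr K = 0 ∧
      |(s : ℝ)| ≤ 6 * √Y ∧ |(n : ℝ)| ≤ 6 * √Y ∧ |(σ : ℝ)| ≤ 1296 * Y ^ 2 := by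
  obtain ⟨x, hx, hx0, hw⟩ := QuadBAux.small K hK δ I hI hδ
  obtain ⟨s, n, b, hs, hn, hn0, hb⟩ := QuadBAux.arith K hK δ I hI hδ x hx hx0
  obtain ⟨φ, hφ⟩ := QuadBAux.emb K hK
  set α : K := (discr K : K) * δ * x ^ 3 with hα
  have hY0 : 0 ≤ Y := (abs_nonneg _).trans hY
  have hR0 : 0 ≤ √Y := Real.sqrt_nonneg Y
  have hRR : √Y ^ 2 = Y := Real.sq_sqrt hY0
  have hsm : ∀ i, ‖φ i α‖ ≤ 2 * √Y := fun i => by
    have h := hw (InfinitePlace.mk (φ i).toRingHom)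
    rw [InfinitePlace.apply] at h
    exact h.trans (by gcongr)
  obtain ⟨e1, e3⟩ := hφ α
  rw [hs] at e1
  rw [hn] at e3
  push_cast at e1 e3
  have hab : α * b = (discr K : K) * (n : K) ^ 3 := by
    rw [← hb, hα]
    ring
  have hab' : ∀ i, φ i α * φ i b = (discr K : ℂ) * (φ 0 α * φ 1 α * φ 2 α) := fun i => by
    rw [← map_mul, hab, ← e3]
    simp
  have hn' : (n : ℂ) ^ 3 ≠ 0 := pow_ne_zero 3 (by exact_mod_cast hn0)
  rw [e3] at hn'
  have h0 : φ 0 α ≠ 0 := fun h => hn' (by simp [h])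
  have h1 : φ 1 α ≠ 0 := fun h => hn' (by simp [h])
  have h2 : φ 2 α ≠ 0 := fun h => hn' (by simp [h])
  have b0 : φ 0 b = (discr K : ℂ) * (φ 1 α * φ 2 α) :=
    mul_left_cancel₀ h0 (by linear_combination hab' 0)
  have b1 : φ 1 b = (discr K : ℂ) * (φ 0 α * φ 2 α) :=
    mul_left_cancel₀ h1 (by linear_combination hab' 1)
  have b2 : φ 2 b = (discr K : ℂ) * (φ 0 α * φ 1 α) :=
    mul_left_cancel₀ h2 (by linear_combination hab' 2)
  have e2 := (hφ b).1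
  rw [← Algebra.coe_trace_int, b0, b1, b2] at e2
  set σ : ℤ := Algebra.trace ℤ (𝓞 K) b
  push_cast at e2
  refine ⟨s, n, σ, α, x, hx0, rfl, hn, hn0, ?_, ?_, ?_, ?_⟩
  · apply (φ 0).toRingHom.injective
    simp only [AlgHom.toRingHom_eq_coe, RingHom.coe_coe, map_sub, map_add, map_mul, map_pow,
      map_intCast, map_zero]
    rw [e1, e2, e3]
    ring
  · have : |(s : ℝ)| = ‖(s : ℂ)‖ := by simp
    rw [this, e1]
    refine norm_add₃_le.trans ?_
    linarith [hsm 0, hsm 1, hsm 2]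
  · have h3 : |(n : ℝ)| ^ 3 = ‖(n : ℂ) ^ 3‖ := by simp
    refine le_trans (le_of_pow_le_pow_left₀ three_ne_zero (by positivity) (b := 2 * √Y) ?_)
      (by linarith)
    rw [h3, e3, norm_mul, norm_mul]
    calc ‖φ 0 α‖ * ‖φ 1 α‖ * ‖φ 2 α‖ ≤ (2 * √Y) * (2 * √Y) * (2 * √Y) := by
          gcongr <;> exact hsm _
      _ = (2 * √Y) ^ 3 := by ring
  · have h3 : |(σ : ℝ)| = ‖(σ : ℂ)‖ := by simp
    have h4 : ∀ i j, ‖(discr K : ℂ) * (φ i α * φ j α)‖ ≤ 4 * Y ^ 2 := fun i j => by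
      have h5 : ‖(discr K : ℂ)‖ ≤ Y := by simpa using hY
      rw [norm_mul, norm_mul]
      calc ‖(discr K : ℂ)‖ * (‖φ i α‖ * ‖φ j α‖) ≤ Y * ((2 * √Y) * (2 * √Y)) := by
            gcongr <;> exact hsm _
        _ = 4 * Y * √Y ^ 2 := by ring
        _ = 4 * Y ^ 2 := by rw [hRR]; ring
    rw [h3, e2]
    refine norm_add₃_le.trans ?_
    nlinarith [h4 1 2, h4 0 2, h4 0 1, sq_nonneg Y]

end Pool.Agent.Lib.MP_af4c59_nt.K9
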