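import Pool.Agent.Lib.MP_af4c59_nt.K9QuadA
import Pool.Agent.Lib.MP_af4c59_nt.K9QuadB

/-!
The quadruple attached to a class of order three (part B2).
-/

set_option autoImplicit false

namespace Pool.Agent.Lib.MP_af4c59_nt.K9

open NumberField Module IsDedekindDomain

namespace QuadAux

lemma exists_basis (K : Type) [Field K] [NumberField K] (hK : finrank ℚ K = 3) {α : K}
    (hirr : ∀ q : ℚ, α ≠ (q : K)) :
    ∃ b : Basis (Fin 3) ℚ K, ∀ i, b i = α ^ (i : ℕ) := by
  have hint : IsIntegral ℚ α := Algebra.IsIntegral.isIntegral α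
  have hdvd : (minpoly ℚ α).natDegree ∣ 3 := hK ▸ minpoly.degree_dvd hint
  have hne : (minpoly ℚ α).natDegree ≠ 1 := by
    intro h
    obtain ⟨q, hq⟩ := minpoly.natDegree_eq_one_iff.1 h
    exact hirr q (by rw [← hq]; simp)
  have h3 : (minpoly ℚ α).natDegree = 3 := by
    rcases (Nat.dvd_prime Nat.prime_three).1 hdvd with h | h
    · exact absurd h hne
    · exact h
  have hli := linearIndependent_pow (K := ℚ) α
  rw [h3] at hli
  refine ⟨basisOfLinearIndependentOfCardEqFinrank hli (by simp [hK]), fun i => ?_⟩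
  rw [coe_basisOfLinearIndependentOfCardEqFinrank]

lemma trace_eq (K : Type) [Field K] [NumberField K] (b : Basis (Fin 3) ℚ K) (x : K) :
    Algebra.trace ℚ K x =
      b.repr (x * b 0) 0 + b.repr (x * b 1) 1 + b.repr (x * b 2) 2 := by
  rw [Algebra.trace_eq_matrix_trace b, Matrix.trace, Fin.sum_univ_three]
  simp only [Matrix.diag_apply, Algebra.leftMulMatrix_eq_repr_mul]

lemma discr_pow (K : Type) [Field K] [NumberField K] (hK : finrank ℚ K = 3) {α : K}
    (b : Basis (Fin 3) ℚ K) (hb : ∀ i, b i = α ^ (i : ℕ)) {s t c : ℚ}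
    (h : α ^ 3 = s • α ^ 2 - t • α + c • (1 : K)) :
    Algebra.discr ℚ b = s ^ 2 * t ^ 2 - 4 * t ^ 3 - 4 * s ^ 3 * c + 18 * s * t * c - 27 * c ^ 2 := by
  have b0 : b 0 = 1 := by rw [hb]; simp
  have b1 : b 1 = α := by rw [hb]; simp
  have b2 : b 2 = α ^ 2 := by rw [hb]; simp
  have hrep : ∀ (u v w : ℚ) (i : Fin 3),
      b.repr (u • (1 : K) + v • α + w • α ^ 2) i = ![u, v, w] i := by
    intro u v w i
    rw [← b2, ← b0]
    conv_lhs => rw [← b1]
    fin_cases i <;> simp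
  have h4 : α ^ 4 = (s * c) • (1 : K) + (c - s * t) • α + (s ^ 2 - t) • α ^ 2 := by
    have : α ^ 4 = α * α ^ 3 := by ring
    rw [this, h]
    have e2 : α * (s • α ^ 2 - t • α + c • (1 : K)) = s • α ^ 3 - t • α ^ 2 + c • α := by
      simp only [Algebra.smul_def]; ring
    rw [e2, h]
    simp only [Algebra.smul_def, map_mul, map_sub, map_pow]; ring
  have h3 : α ^ 3 = c • (1 : K) + (-t) • α + s • α ^ 2 := by
    rw [h]; simp only [Algebra.smul_def, map_neg]; ring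
  have h2 : α ^ 2 = (0 : ℚ) • (1 : K) + (0 : ℚ) • α + (1 : ℚ) • α ^ 2 := by simp
  have h1 : α = (0 : ℚ) • (1 : K) + (1 : ℚ) • α + (0 : ℚ) • α ^ 2 := by simp
  have t0 : Algebra.trace ℚ K 1 = 3 := by
    have := Algebra.trace_algebraMap (R := ℚ) (S := K) 1
    rw [map_one, hK] at this
    rw [this]; simp
  have t1 : Algebra.trace ℚ K α = s := by
    rw [trace_eq K b, b0, b1, b2, mul_one, show α * α = α ^ 2 by ring,
      show α * α ^ 2 = α ^ 3 by ring, h3, hrep]
    have e1 : b.repr α 0 = 0 := by rw [h1, hrep]; simp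
    have e2 : b.repr (α ^ 2) 1 = 0 := by rw [h2, hrep]; simp
    rw [e1, e2]; simp
  have t2 : Algebra.trace ℚ K (α ^ 2) = s ^ 2 - 2 * t := by
    rw [trace_eq K b, b0, b1, b2, mul_one, show α ^ 2 * α = α ^ 3 by ring,
      show α ^ 2 * α ^ 2 = α ^ 4 by ring, h3, h4, hrep, hrep]
    have e2 : b.repr (α ^ 2) 0 = 0 := by rw [h2, hrep]; simp
    rw [e2]; simp; ring
  have t3 : Algebra.trace ℚ K (α ^ 3) = 3 * c - t * s + s * (s ^ 2 - 2 * t) := by
    rw [h3]
    simp only [map_add, map_smul, t0, t1, t2, smul_eq_mul]; ring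
  have t4 : Algebra.trace ℚ K (α ^ 4) =
      3 * (s * c) + (c - s * t) * s + (s ^ 2 - t) * (s ^ 2 - 2 * t) := by
    rw [h4]
    simp only [map_add, map_smul, t0, t1, t2, smul_eq_mul]; ring
  rw [Algebra.discr_def, Matrix.det_fin_three]
  simp only [Algebra.traceMatrix_apply, Algebra.traceForm_apply, b0, b1, b2, mul_one, one_mul]
  rw [show α * α = α ^ 2 by ring, show α * α ^ 2 = α ^ 3 by ring,
    show α ^ 2 * α = α ^ 3 by ring, show α ^ 2 * α ^ 2 = α ^ 4 by ring, t0, t1, t2, t3, t4]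
  ring

lemma discr_ratio (K : Type) [Field K] [NumberField K] (hK : finrank ℚ K = 3)
    (b : Basis (Fin 3) ℚ K) : ∃ r : ℚ, Algebra.discr ℚ b = r ^ 2 * (discr K : ℚ) := by
  classical
  have hc : Fintype.card (Free.ChooseBasisIndex ℤ (𝓞 K)) = 3 := by
    rw [← finrank_eq_card_basis (integralBasis K), hK]
  let f : Free.ChooseBasisIndex ℤ (𝓞 K) ≃ Fin 3 := Fintype.equivFinOfCardEq hc
  let b' : Basis (Fin 3) ℚ K := (integralBasis K).reindex f
  refine ⟨(b'.toMatrix b).det, ?_⟩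
  have e1 : Algebra.discr ℚ b' = (discr K : ℚ) := by
    rw [coe_discr, ← Algebra.discr_reindex ℚ (integralBasis K) f]
    simp only [b', Basis.coe_reindex]
  rw [← e1, ← Algebra.discr_of_matrix_vecMul, Basis.toMatrix_map_vecMul]

lemma Gf_scale (s n x y e : ℤ) : Gf s n (e * x) (e * y) = e ^ 3 * Gf s n x y := by
  unfold Gf; ring

lemma squarefree_part {e m G v : ℤ} (hm : m ≠ 0) (hv : v ≠ 0) (hsq : e * G = v ^ 2)
    (hev : ∀ p : ℕ, p.Prime → ¬ (p : ℤ) ∣ m → Even (e.natAbs.factorization p)) :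
    ∃ e' w : ℤ, Squarefree e' ∧ e' ∣ m ∧ w ≠ 0 ∧ e' * G = w ^ 2 := by
  have he : e ≠ 0 := by
    rintro rfl
    exact hv (by simpa using hsq.symm)
  obtain ⟨a, c, hac, ha⟩ := Nat.sq_mul_squarefree e.natAbs
  have hE : e.natAbs ≠ 0 := Int.natAbs_ne_zero.2 he
  have ha0 : a ≠ 0 := by rintro rfl; exact hE (by simpa using hac.symm)
  have hc0 : c ≠ 0 := by rintro rfl; exact hE (by simpa using hac.symm)
  have hcz : (c : ℤ) ≠ 0 := by exact_mod_cast hc0
  have hdvd : a ∣ m.natAbs := by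
    rw [← Nat.factorization_prime_le_iff_dvd ha0 (Int.natAbs_ne_zero.2 hm)]
    intro p hp
    by_cases hpa : p ∣ a
    · have h1 := Nat.factorization_eq_one_of_squarefree ha hp hpa
      have hpm : (p : ℤ) ∣ m := by
        by_contra hn
        have h2 := hev p hp hn
        rw [← hac, Nat.factorization_mul (pow_ne_zero 2 hc0) ha0, Nat.factorization_pow] at h2
        simp only [Finsupp.add_apply, Finsupp.smul_apply, smul_eq_mul, h1] at h2
        obtain ⟨k, hk⟩ := h2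
        omega
      rw [h1]
      exact (hp.dvd_iff_one_le_factorization (Int.natAbs_ne_zero.2 hm)).1
        (Int.natCast_dvd.1 hpm)
    · rw [Nat.factorization_eq_zero_of_not_dvd hpa]
      exact Nat.zero_le _
  have hee : e = (c : ℤ) ^ 2 * (e.sign * a) := by
    have h1 : (e.natAbs : ℤ) = (c : ℤ) ^ 2 * a := by rw [← hac]; push_cast; ring
    have h2 := Int.sign_mul_natAbs e
    rw [h1] at h2
    linear_combination -h2
  have hcv : (c : ℤ) ∣ v := by
    rw [← Int.pow_dvd_pow_iff (two_ne_zero)]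
    exact ⟨e.sign * a * G, by linear_combination G * hee - hsq⟩
  obtain ⟨w, hw⟩ := hcv
  have hab : (e.sign * (a : ℤ)).natAbs = a := by
    rw [Int.natAbs_mul, Int.natAbs_sign_of_ne_zero he, one_mul, Int.natAbs_natCast]
  refine ⟨e.sign * a, w, ?_, ?_, ?_, ?_⟩
  · rw [← Int.squarefree_natAbs, hab]; exact ha
  · rw [← Int.natAbs_dvd_natAbs, hab]; exact hdvd
  · rintro rfl
    exact hv (by simpa using hw)
  · apply mul_left_cancel₀ (pow_ne_zero 2 hcz)
    rw [← mul_assoc, ← hee, hsq, hw]; ring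

end QuadAux

theorem quad_disc (K : Type) [Field K] [NumberField K] (hK : finrank ℚ K = 3) {s n σ : ℤ} {α : K}
    (hirr : ∀ q : ℚ, α ≠ (q : K))
    (heq : (discr K : K) * α ^ 3 - s * discr K * α ^ 2 + σ * α - n ^ 3 * discr K = 0) :
    ∃ v : ℤ, v ≠ 0 ∧ Gf s n σ (discr K) = v ^ 2 := by
  obtain ⟨b, hb⟩ := QuadAux.exists_basis K hK hirr
  have hD : (discr K : ℚ) ≠ 0 := by exact_mod_cast discr_ne_zero K
  have hDK : (discr K : K) ≠ 0 := by exact_mod_cast discr_ne_zero K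
  have h3 : α ^ 3 = (s : ℚ) • α ^ 2 - ((σ : ℚ) / discr K) • α + ((n : ℚ) ^ 3) • (1 : K) := by
    simp only [Algebra.smul_def, map_div₀, map_pow, map_intCast]
    field_simp
    linear_combination heq
  have hd := QuadAux.discr_pow K hK b hb h3
  obtain ⟨r, hr⟩ := QuadAux.discr_ratio K hK b
  have hne := Algebra.discr_not_zero_of_basis ℚ b
  have hG : ((Gf s n σ (discr K) : ℤ) : ℚ) = (discr K : ℚ) ^ 3 * Algebra.discr ℚ b := by
    rw [hd]; unfold Gf; push_cast; field_simp; ring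
  have hsq : IsSquare ((Gf s n σ (discr K) : ℤ) : ℚ) :=
    ⟨(discr K : ℚ) ^ 2 * r, by rw [hG, hr]; ring⟩
  obtain ⟨v, hv⟩ := Rat.isSquare_intCast_iff.1 hsq
  refine ⟨v, ?_, by rw [hv]; ring⟩
  rintro rfl
  rw [hv] at hG
  exact mul_ne_zero (pow_ne_zero 3 hD) hne (by simpa using hG.symm)

theorem quad_of_class (K : Type) [Field K] [NumberField K] (hK : finrank ℚ K = 3) (δ : 𝓞 K)
    (I : Ideal (𝓞 K)) (hI : I ≠ ⊥) (hδ : I ^ 3 = Ideal.span {δ})
    (hnd : ∀ (d : ℚ) (y : K), (δ : K) ≠ d * y ^ 3) {Y : ℝ} (hY : |(discr K : ℝ)| ≤ Y) :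
    ∃ (s n x y : ℤ) (α z : K), QH (6 * √Y) (s, n, x, y) ∧
      (y : K) * α ^ 3 - s * y * α ^ 2 + x * α - n ^ 3 * y = 0 ∧ (∀ q : ℚ, α ≠ (q : K)) ∧
      z ≠ 0 ∧ α = (discr K : K) * δ * z ^ 3 := by
  obtain ⟨s, n, σ, α, z, hz, hα, hN, hn, heq, hs, hnb, hσ⟩ := quad_mink K hK δ I hI hδ hY
  have hD : discr K ≠ 0 := discr_ne_zero K
  have hDK : (discr K : K) ≠ 0 := by exact_mod_cast hD
  have hirr : ∀ q : ℚ, α ≠ (q : K) := by
    intro q hq
    apply hnd (q / discr K) z⁻¹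
    push_cast
    rw [← hq, hα]
    field_simp
  obtain ⟨v, hv, hG⟩ := quad_disc K hK hirr heq
  have hg : 0 < Int.gcd σ (discr K) := Int.gcd_pos_of_ne_zero_right _ hD
  obtain ⟨x', y', hco, hx', hy'⟩ := Int.exists_gcd_one hg
  set g : ℤ := (Int.gcd σ (discr K) : ℤ) with hgdef
  have hg' : 0 < g := by rw [hgdef]; exact_mod_cast hg
  have hy0 : y' ≠ 0 := by
    rintro rfl
    exact hD (by simpa using hy')
  obtain ⟨e, x, y, hxy, hy, he, hex, hey⟩ :
      ∃ e x y : ℤ, IsCoprime x y ∧ 0 < y ∧ e ≠ 0 ∧ e * x = σ ∧ e * y = discr K := by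
    have hco' : IsCoprime x' y' := Int.isCoprime_iff_gcd_eq_one.2 hco
    rcases lt_or_gt_of_ne hy0 with h | h
    · exact ⟨-g, -x', -y', hco'.neg_neg, by omega, by omega, by linear_combination -hx',
        by linear_combination -hy'⟩
    · exact ⟨g, x', y', hco', h, by omega, by linear_combination -hx', by linear_combination -hy'⟩
  have heK : (e : K) ≠ 0 := by exact_mod_cast he
  have hexK : (e : K) * x = σ := by exact_mod_cast congrArg (Int.cast : ℤ → K) hex
  have heyK : (e : K) * y = discr K := by exact_mod_cast congrArg (Int.cast : ℤ → K) hey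
  have heq' : (y : K) * α ^ 3 - s * y * α ^ 2 + x * α - n ^ 3 * y = 0 := by
    apply mul_left_cancel₀ heK
    rw [← hexK, ← heyK] at heq
    linear_combination heq
  have hG' : e ^ 3 * Gf s n x y = v ^ 2 := by rw [← QuadAux.Gf_scale, hex, hey, hG]
  have hev : e ∣ v := by
    rw [← Int.pow_dvd_pow_iff (two_ne_zero)]
    exact ⟨e * Gf s n x y, by rw [← hG']; ring⟩
  obtain ⟨v', hv'⟩ := hev
  have hv0 : v' ≠ 0 := by
    rintro rfl
    exact hv (by simpa using hv')
  have hsq : e * Gf s n x y = v' ^ 2 := by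
    apply mul_left_cancel₀ (pow_ne_zero 2 he)
    rw [hv'] at hG'
    linear_combination hG'
  have hpt : ∃ e' w : ℤ, Squarefree e' ∧ e' ∣ 6 * n ∧ w ≠ 0 ∧ e' * Gf s n x y = w ^ 2 :=
    QuadAux.squarefree_part (mul_ne_zero (by norm_num) hn) hv0 hsq fun p hp hpn =>
      quad_even K hK δ I hδ hα hN hn heq' hxy hey hv0 hsq hp hpn
  have hDD : DD s n ≠ 0 := by
    unfold DD
    refine mul_ne_zero hn fun h => ?_
    have h3 : s = 3 * n :=
      (Odd.strictMono_pow (by decide : Odd 3)).injective (by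
        show s ^ 3 = (3 * n) ^ 3
        linear_combination h)
    have hsK : (s : K) = 3 * n := by rw [h3]; push_cast; ring
    have hcube : (α - n) ^ 3 = ((3 * n ^ 2 * discr K - σ : ℤ) : K) * δ * z ^ 3 := by
      apply mul_left_cancel₀ hDK
      rw [hsK] at heq
      push_cast
      linear_combination heq + (3 * (n : K) ^ 2 * discr K - σ) * hα
    by_cases hc : (3 * n ^ 2 * discr K - σ : ℤ) = 0
    · rw [hc] at hcube
      have : α - n = 0 := pow_eq_zero_iff (three_ne_zero) |>.1 (by simpa using hcube)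
      exact hirr n (by push_cast; linear_combination this)
    · have hcK : ((3 * n ^ 2 * discr K - σ : ℤ) : K) ≠ 0 := by exact_mod_cast hc
      apply hnd (1 / ((3 * n ^ 2 * discr K - σ : ℤ) : ℚ)) ((α - n) / z)
      rw [div_pow, hcube, Rat.cast_div, Rat.cast_one, Rat.cast_intCast]
      field_simp
  have hY0 : 0 ≤ Y := (abs_nonneg _).trans hY
  have hsqY : √Y ^ 2 = Y := Real.sq_sqrt hY0
  have he1 : (1 : ℝ) ≤ |(e : ℝ)| := by
    have : (1 : ℤ) ≤ |e| := Int.one_le_abs he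
    exact_mod_cast this
  refine ⟨s, n, x, y, α, z, ⟨hs, hnb, hDD, ?_, ?_, hy, hxy, hpt⟩, heq', hirr, hz, hα⟩
  · show |(x : ℝ)| ≤ (6 * √Y) ^ 4
    have h1 : (6 * √Y) ^ 4 = 1296 * Y ^ 2 := by
      conv_rhs => rw [← hsqY]
      ring
    have h2 : |(σ : ℝ)| = |(e : ℝ)| * |(x : ℝ)| := by
      rw [← abs_mul, ← hex]; push_cast; rfl
    rw [h1]
    nlinarith [abs_nonneg (x : ℝ)]
  · show (y : ℝ) ≤ (6 * √Y) ^ 2
    have h1 : (6 * √Y) ^ 2 = 36 * Y := by
      conv_rhs => rw [← hsqY]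
      ring
    have h2 : |(discr K : ℝ)| = |(e : ℝ)| * |(y : ℝ)| := by
      rw [← abs_mul, ← hey]; push_cast; rfl
    rw [h1]
    nlinarith [abs_nonneg (y : ℝ), le_abs_self (y : ℝ)]

end Pool.Agent.Lib.MP_af4c59_nt.K9
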