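import Pool.Agent.Lib.MP_af4c59_nt.K9Sum
import Pool.Agent.Lib.MP_af4c59_nt.K9Quad
import Pool.Agent.Lib.MP_af4c59_nt.K9Cubic

/-!
The average of the three-torsion of the class groups of cubic fields (parts B1 and B).
-/

set_option autoImplicit false

namespace Pool.Agent.Lib.MP_af4c59_nt.K9

open NumberField Module IsDedekindDomain

namespace AvgAux

open scoped nonZeroDivisors in
theorem gen_ne_zero {K : Type} [Field K] [NumberField K] {I : (Ideal (𝓞 K))⁰} {δ : 𝓞 K}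
    (h : (I : Ideal (𝓞 K)) ^ 3 = Ideal.span {δ}) : δ ≠ 0 := by
  intro h0
  have h1 : (I : Ideal (𝓞 K)) ≠ 0 := nonZeroDivisors.coe_ne_zero I
  have h2 : (I : Ideal (𝓞 K)) ^ 3 ≠ 0 := pow_ne_zero _ h1
  apply h2
  rw [h, h0]
  simp

theorem exists_frac {K : Type} [Field K] [NumberField K] (z : K) :
    ∃ a b : 𝓞 K, b ≠ 0 ∧ (b : K) * z = a := by
  obtain ⟨a, b, hb, h⟩ := IsFractionRing.div_surjective (A := 𝓞 K) z
  have hb0 : b ≠ 0 := nonZeroDivisors.ne_zero hb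
  refine ⟨a, b, hb0, ?_⟩
  have hb1 : (algebraMap (𝓞 K) K b) ≠ 0 := by
    simpa using hb0
  rw [← h]
  change algebraMap (𝓞 K) K b * _ = algebraMap (𝓞 K) K a
  field_simp

end AvgAux

open scoped nonZeroDivisors in
theorem cls_eq {K : Type} [Field K] [NumberField K] {I I' : (Ideal (𝓞 K))⁰} {δ δ' : 𝓞 K}
    (h : (I : Ideal (𝓞 K)) ^ 3 = Ideal.span {δ}) (h' : (I' : Ideal (𝓞 K)) ^ 3 = Ideal.span {δ'})
    {z : K} (hz : (δ' : K) = δ * z ^ 3) : ClassGroup.mk0 I = ClassGroup.mk0 I' := by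
  obtain ⟨a, b, hb, hab⟩ := AvgAux.exists_frac z
  have hδ' := AvgAux.gen_ne_zero h'
  have e1 : b ^ 3 * δ' = a ^ 3 * δ := by
    apply RingOfIntegers.ext
    change (b : K) ^ 3 * (δ' : K) = (a : K) ^ 3 * (δ : K)
    rw [hz, ← hab]
    ring
  have ha : a ≠ 0 := by
    intro h0
    rw [h0] at e1
    simp [hb, hδ'] at e1
  have e2 : (Ideal.span {a} * (I : Ideal (𝓞 K))) ^ 3 =
      (Ideal.span {b} * (I' : Ideal (𝓞 K))) ^ 3 := by
    rw [mul_pow, mul_pow, h, h', Ideal.span_singleton_pow, Ideal.span_singleton_pow,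
      Ideal.span_singleton_mul_span_singleton, Ideal.span_singleton_mul_span_singleton, e1]
  have e3 : Ideal.span {a} * (I : Ideal (𝓞 K)) = Ideal.span {b} * (I' : Ideal (𝓞 K)) := by
    apply dvd_antisymm
    · exact (UniqueFactorizationMonoid.pow_dvd_pow_iff_dvd (n := 3) (by norm_num)).1 (e2 ▸ dvd_rfl)
    · exact (UniqueFactorizationMonoid.pow_dvd_pow_iff_dvd (n := 3) (by norm_num)).1 (e2 ▸ dvd_rfl)
  exact ClassGroup.mk0_eq_mk0_iff.2 ⟨a, b, ha, hb, e3⟩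

namespace AvgAux

/-- A rational multiple of a cube is a natural multiple of a cube. -/
theorem nat_form {K : Type} [Field K] [NumberField K] {x : K} (hx : x ≠ 0) {d : ℚ} {y : K}
    (h : x = d * y ^ 3) : ∃ (m : ℕ) (y' : K), m ≠ 0 ∧ x = m * y' ^ 3 := by
  have hd : d ≠ 0 := by
    intro h0
    apply hx
    rw [h, h0]
    simp
  have hden : (d.den : K) ≠ 0 := by exact_mod_cast d.den_ne_zero
  have hdk : (d : K) = (d.num : K) / (d.den : K) := by
    rw [Rat.cast_def]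
  have hnum : d.num ≠ 0 := Rat.num_ne_zero.2 hd
  refine ⟨d.num.natAbs * d.den ^ 2, (d.num.sign : K) * y / d.den, ?_, ?_⟩
  · exact mul_ne_zero (Int.natAbs_ne_zero.2 hnum) (pow_ne_zero _ d.den_ne_zero)
  · have e : ((d.num.natAbs : ℤ) : K) * (d.num.sign : K) ^ 3 = (d.num : K) := by
      rcases lt_or_gt_of_ne hnum with h1 | h1
      · rw [Int.sign_eq_neg_one_of_neg h1, Int.ofNat_natAbs_of_nonpos h1.le]
        push_cast
        ring
      · rw [Int.sign_eq_one_of_pos h1, Int.natAbs_of_nonneg h1.le]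
        push_cast
        ring
    have e' : (d.num.natAbs : K) * (d.num.sign : K) ^ 3 = (d.num : K) := by
      rw [← e, Int.cast_natCast]
    rw [h, hdk, ← e']
    push_cast
    field_simp

/-- At an unramified prime the multiplicity of `p` is one. -/
theorem mult_p {K : Type} [Field K] [NumberField K] {p : ℕ} (hp : p.Prime)
    (h : ¬ (p : ℤ) ∣ discr K) (P : HeightOneSpectrum (𝓞 K)) (hP : (p : 𝓞 K) ∈ P.asIdeal) :
    multiplicity P.asIdeal (Ideal.span {(p : 𝓞 K)}) = 1 := by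
  have hp' : Prime (p : ℤ) := Nat.prime_iff_prime_int.mp hp
  have hPp := P.isPrime
  have hpP : ((p : ℤ) : 𝓞 K) ∈ P.asIdeal := by simpa using hP
  have hu : Algebra.IsUnramifiedAt ℤ P.asIdeal :=
    (not_dvd_discr_iff_forall_mem K (𝓞 K) hp').mp h P.asIdeal hPp hpP
  have hq0 : (Ideal.span {(p : ℤ)} : Ideal ℤ) ≠ ⊥ :=
    Ideal.span_singleton_eq_bot.not.mpr hp'.ne_zero
  have hqp : (Ideal.span {(p : ℤ)} : Ideal ℤ).IsPrime :=
    (Ideal.span_singleton_prime hp'.ne_zero).2 hp'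
  have hqm : (Ideal.span {(p : ℤ)} : Ideal ℤ).IsMaximal := hqp.isMaximal hq0
  have hl : P.asIdeal.LiesOver (Ideal.span {(p : ℤ)}) := by
    refine ⟨hqm.eq_of_le (Ideal.IsPrime.under ℤ P.asIdeal).ne_top ?_⟩
    rw [Ideal.span_le, Set.singleton_subset_iff]
    exact hpP
  have he : (Ideal.span {(p : ℤ)} : Ideal ℤ).ramificationIdx' P.asIdeal = 1 := by
    rw [Ideal.ramificationIdx'_eq_ramificationIdx _ P.asIdeal hq0]
    exact Ideal.ramificationIdx_eq_one P.asIdeal ℤ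
  have hqpr : Prime (Ideal.span {(p : ℤ)} : Ideal ℤ) := Ideal.prime_of_isPrime hq0 hqp
  have hm := Ideal.IsDedekindDomain.emultiplicity_map_eq_ramificationIdx'_mul (S := 𝓞 K)
    (v := Ideal.span {(p : ℤ)}) (w := P.asIdeal) hq0 hqpr.irreducible P.irreducible P.ne_bot
  have hfin : FiniteMultiplicity (Ideal.span {(p : ℤ)} : Ideal ℤ) (Ideal.span {(p : ℤ)}) :=
    FiniteMultiplicity.of_prime_left hqpr hq0
  rw [he, Nat.cast_one, one_mul, Ideal.map_span, Set.image_singleton,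
    hfin.emultiplicity_self] at hm
  apply multiplicity_eq_of_emultiplicity_eq_some
  simpa using hm

theorem mult_pow {R : Type*} [CommRing R] [IsDedekindDomain R] (P : HeightOneSpectrum R)
    {J : Ideal R} (hJ : J ≠ ⊥) (k : ℕ) :
    multiplicity P.asIdeal (J ^ k) = k * multiplicity P.asIdeal J :=
  FiniteMultiplicity.multiplicity_pow P.prime (FiniteMultiplicity.of_prime_left P.prime hJ)

theorem mult_mul {R : Type*} [CommRing R] [IsDedekindDomain R] (P : HeightOneSpectrum R)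
    {J J' : Ideal R} (hJ : J ≠ ⊥) (hJ' : J' ≠ ⊥) :
    multiplicity P.asIdeal (J * J') = multiplicity P.asIdeal J + multiplicity P.asIdeal J' :=
  multiplicity_mul P.prime (FiniteMultiplicity.of_prime_left P.prime (mul_ne_zero hJ hJ'))

theorem mult_nat {K : Type} [Field K] [NumberField K] {p : ℕ} (hp : p.Prime)
    (h : ¬ (p : ℤ) ∣ discr K) (P : HeightOneSpectrum (𝓞 K)) (hP : (p : 𝓞 K) ∈ P.asIdeal)
    {m : ℕ} (hm : m ≠ 0) :
    multiplicity P.asIdeal (Ideal.span {(m : 𝓞 K)}) = m.factorization p := by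
  obtain ⟨k, m', hm', rfl⟩ := Nat.exists_eq_pow_mul_and_not_dvd hm p hp.ne_one
  have hm0 : m' ≠ 0 := right_ne_zero_of_mul hm
  have h1 : (Ideal.span {(p : 𝓞 K)} : Ideal (𝓞 K)) ≠ ⊥ :=
    Ideal.span_singleton_eq_bot.not.mpr (by exact_mod_cast hp.ne_zero)
  have h2 : (Ideal.span {(m' : 𝓞 K)} : Ideal (𝓞 K)) ≠ ⊥ :=
    Ideal.span_singleton_eq_bot.not.mpr (by exact_mod_cast hm0)
  have h3 : multiplicity P.asIdeal (Ideal.span {(m' : 𝓞 K)}) = 0 := by
    rw [multiplicity_eq_zero, Ideal.dvd_span_singleton]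
    intro hmem
    have hc : IsCoprime (p : ℤ) (m' : ℤ) :=
      Nat.isCoprime_iff_coprime.2 ((Nat.Prime.coprime_iff_not_dvd hp).2 hm')
    obtain ⟨u, v, huv⟩ := hc
    apply P.isPrime.ne_top
    rw [Ideal.eq_top_iff_one]
    have e : (1 : 𝓞 K) = (u : 𝓞 K) * p + (v : 𝓞 K) * m' := by
      exact_mod_cast congrArg (fun t : ℤ => (t : 𝓞 K)) huv.symm
    rw [e]
    exact P.asIdeal.add_mem (P.asIdeal.mul_mem_left _ hP) (P.asIdeal.mul_mem_left _ hmem)
  rw [Nat.cast_mul, Nat.cast_pow, ← Ideal.span_singleton_mul_span_singleton,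
    ← Ideal.span_singleton_pow, mult_mul P (pow_ne_zero _ h1) h2, mult_pow P h1, mult_p hp h P hP,
    h3, Nat.factorization_mul (pow_ne_zero _ hp.ne_zero) hm0, Finsupp.add_apply,
    hp.factorization_pow, Finsupp.single_eq_same, Nat.factorization_eq_zero_of_not_dvd hm']
  ring

theorem exists_above (K : Type) [Field K] [NumberField K] {p : ℕ} (hp : p.Prime) :
    ∃ P : HeightOneSpectrum (𝓞 K), (p : 𝓞 K) ∈ P.asIdeal := by
  have hp' : Prime (p : ℤ) := Nat.prime_iff_prime_int.mp hp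
  have hq0 : (Ideal.span {(p : ℤ)} : Ideal ℤ) ≠ ⊥ :=
    Ideal.span_singleton_eq_bot.not.mpr hp'.ne_zero
  have hqp : (Ideal.span {(p : ℤ)} : Ideal ℤ).IsPrime :=
    (Ideal.span_singleton_prime hp'.ne_zero).2 hp'
  have hqm : (Ideal.span {(p : ℤ)} : Ideal ℤ).IsMaximal := hqp.isMaximal hq0
  obtain ⟨Q, hQm, hQl⟩ :=
    Ideal.exists_maximal_ideal_liesOver_of_isIntegral (S := 𝓞 K) (Ideal.span {(p : ℤ)})
  refine ⟨⟨Q, hQm.isPrime, Ideal.ne_bot_of_liesOver_of_ne_bot hq0 Q⟩, ?_⟩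
  have h1 : (p : ℤ) ∈ Q.under ℤ := hQl.over ▸ Ideal.mem_span_singleton_self _
  rw [Ideal.under_def, Ideal.mem_comap] at h1
  simpa using h1

open scoped nonZeroDivisors in
theorem three_dvd {K : Type} [Field K] [NumberField K] {I : (Ideal (𝓞 K))⁰} {δ : 𝓞 K}
    (h : (I : Ideal (𝓞 K)) ^ 3 = Ideal.span {δ}) {m : ℕ} (hm : m ≠ 0) {y : K}
    (hy : (δ : K) = m * y ^ 3) {p : ℕ} (hp : p.Prime) (hd : ¬ (p : ℤ) ∣ discr K) :
    3 ∣ m.factorization p := by
  obtain ⟨a, b, hb, hab⟩ := exists_frac y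
  obtain ⟨P, hP⟩ := exists_above K hp
  have hδ := gen_ne_zero h
  have e1 : b ^ 3 * δ = a ^ 3 * (m : 𝓞 K) := by
    apply RingOfIntegers.ext
    change (b : K) ^ 3 * (δ : K) = (a : K) ^ 3 * (m : K)
    rw [hy, ← hab]
    ring
  have ha : a ≠ 0 := by
    intro h0
    rw [h0] at e1
    simp [hb, hδ] at e1
  have hI : (I : Ideal (𝓞 K)) ≠ ⊥ := nonZeroDivisors.coe_ne_zero I
  have hA : (Ideal.span {a} : Ideal (𝓞 K)) ≠ ⊥ := Ideal.span_singleton_eq_bot.not.mpr ha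
  have hB : (Ideal.span {b} : Ideal (𝓞 K)) ≠ ⊥ := Ideal.span_singleton_eq_bot.not.mpr hb
  have hM : (Ideal.span {(m : 𝓞 K)} : Ideal (𝓞 K)) ≠ ⊥ :=
    Ideal.span_singleton_eq_bot.not.mpr (by exact_mod_cast hm)
  have e2 : Ideal.span {b} ^ 3 * (I : Ideal (𝓞 K)) ^ 3 =
      Ideal.span {a} ^ 3 * Ideal.span {(m : 𝓞 K)} := by
    rw [h, Ideal.span_singleton_pow, Ideal.span_singleton_pow,
      Ideal.span_singleton_mul_span_singleton, Ideal.span_singleton_mul_span_singleton, e1]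
  have e3 := congrArg (multiplicity P.asIdeal) e2
  rw [mult_mul P (pow_ne_zero _ hB) (pow_ne_zero _ hI), mult_mul P (pow_ne_zero _ hA) hM,
    mult_pow P hB, mult_pow P hI, mult_pow P hA, mult_nat hp hd P hP hm] at e3
  omega

theorem cube_of_fact {m : ℕ} (hm : m ≠ 0) (h : ∀ p : ℕ, p.Prime → 3 ∣ m.factorization p) :
    ∃ k : ℕ, m = k ^ 3 := by
  refine ⟨m.factorization.prod fun p e => p ^ (e / 3), ?_⟩
  conv_lhs => rw [← Nat.prod_factorization_pow_eq_self hm]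
  rw [Finsupp.prod, Finsupp.prod, ← Finset.prod_pow]
  refine Finset.prod_congr rfl fun p hp => ?_
  rw [← pow_mul, Nat.div_mul_cancel (h p (Nat.prime_of_mem_primeFactors hp))]

end AvgAux

open scoped nonZeroDivisors in
theorem deg_card {K : Type} [Field K] [NumberField K] (S : Finset (ClassGroup (𝓞 K)))
    (hS : ∀ c ∈ S, ∃ (I : (Ideal (𝓞 K))⁰) (δ : 𝓞 K) (d : ℚ) (y : K), ClassGroup.mk0 I = c ∧
      (I : Ideal (𝓞 K)) ^ 3 = Ideal.span {δ} ∧ (δ : K) = d * y ^ 3) :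
    S.card ≤ 3 ^ om (discr K) := by
  classical
  have hS' : ∀ c : S, ∃ (I : (Ideal (𝓞 K))⁰) (δ : 𝓞 K) (m : ℕ) (y : K), ClassGroup.mk0 I = c ∧
      (I : Ideal (𝓞 K)) ^ 3 = Ideal.span {δ} ∧ m ≠ 0 ∧ (δ : K) = m * y ^ 3 := by
    intro c
    obtain ⟨I, δ, d, y, h1, h2, h3⟩ := hS c c.2
    have hδ : (δ : K) ≠ 0 := by
      have := AvgAux.gen_ne_zero h2
      simpa using this
    obtain ⟨m, y', hm, h4⟩ := AvgAux.nat_form hδ h3
    exact ⟨I, δ, m, y', h1, h2, hm, h4⟩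
  choose I δ m y h1 h2 h3 h4 using hS'
  let f : S → ((discr K).natAbs.primeFactors → Fin 3) := fun c p =>
    ⟨(m c).factorization p % 3, Nat.mod_lt _ (by norm_num)⟩
  have hf : Function.Injective f := by
    intro c c' hcc
    have hall : ∀ p : ℕ, p.Prime → 3 ∣ (m c * m c' ^ 2).factorization p := by
      intro p hp
      rw [Nat.factorization_mul (h3 c) (pow_ne_zero _ (h3 c')), Finsupp.add_apply,
        Nat.factorization_pow, Finsupp.smul_apply, smul_eq_mul]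
      by_cases hd : (p : ℤ) ∣ discr K
      · have hmem : p ∈ (discr K).natAbs.primeFactors :=
          Nat.mem_primeFactors.2 ⟨hp, Int.natCast_dvd.1 hd,
            Int.natAbs_ne_zero.2 (discr_ne_zero K)⟩
        have e := congrArg Fin.val (congrFun hcc ⟨p, hmem⟩)
        simp only [f] at e
        omega
      · have e1 := AvgAux.three_dvd (h2 c) (h3 c) (h4 c) hp hd
        have e2 := AvgAux.three_dvd (h2 c') (h3 c') (h4 c') hp hd
        omega
    have hne : m c * m c' ^ 2 ≠ 0 := mul_ne_zero (h3 c) (pow_ne_zero _ (h3 c'))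
    obtain ⟨k, hk⟩ := AvgAux.cube_of_fact hne hall
    have hk0 : (k : K) ≠ 0 := by
      have : k ≠ 0 := by
        intro h0
        apply hne
        rw [hk, h0]
        simp
      exact_mod_cast this
    have hkK : (m c : K) * (m c' : K) ^ 2 = (k : K) ^ 3 := by exact_mod_cast hk
    have hy0 : y c ≠ 0 := by
      intro h0
      have := AvgAux.gen_ne_zero (h2 c)
      apply this
      apply RingOfIntegers.ext
      rw [h4 c, h0]
      simp
    apply Subtype.ext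
    rw [← h1 c, ← h1 c']
    refine cls_eq (h2 c) (h2 c') (z := (m c' : K) * y c' / (k * y c)) ?_
    rw [h4 c, h4 c']
    field_simp
    linear_combination (-(y c' ^ 3) * (m c' : K)) * hkK
  have := Fintype.card_le_of_injective f hf
  simpa [om] using this

namespace AvgAux

open IntermediateField

/-- The cubic equation attached to a quadruple. -/
def Rt (q : ℤ × ℤ × ℤ × ℤ) (α : Ω) : Prop :=
  (q.2.2.2 : Ω) * α ^ 3 - q.1 * q.2.2.2 * α ^ 2 + q.2.2.1 * α - (q.2.1 : Ω) ^ 3 * q.2.2.2 = 0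

theorem adjoin_eq (K : IntermediateField ℚ Ω) (hK : finrank ℚ K = 3) (α : K)
    (hα : ∀ q : ℚ, α ≠ (q : K)) : ℚ⟮(α : Ω)⟯ = K := by
  have hfd : FiniteDimensional ℚ K := Module.finite_of_finrank_pos (by omega)
  have hle : ℚ⟮(α : Ω)⟯ ≤ K := by
    rw [adjoin_simple_le_iff]
    exact α.2
  have hdvd : finrank ℚ ℚ⟮(α : Ω)⟯ ∣ 3 := hK ▸ finrank_dvd_of_le_right hle
  rcases (Nat.dvd_prime Nat.prime_three).1 hdvd with h1 | h1
  · exfalso
    rw [finrank_adjoin_simple_eq_one_iff, mem_bot] at h1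
    obtain ⟨q, hq⟩ := h1
    apply hα q
    apply Subtype.ext
    rw [← hq]
    simp
  · exact eq_of_le_of_finrank_eq hle (by rw [h1, hK])

open scoped nonZeroDivisors in
theorem exists_gen {R : Type} [CommRing R] [IsDedekindDomain R] (I : (Ideal R)⁰)
    (h : ClassGroup.mk0 I ^ 3 = 1) : ∃ δ : R, (I : Ideal R) ^ 3 = Ideal.span {δ} := by
  have hmem : (I : Ideal R) ^ 3 ∈ (Ideal R)⁰ := pow_mem I.2 3
  have e : (⟨(I : Ideal R) ^ 3, hmem⟩ : (Ideal R)⁰) = I ^ 3 := rfl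
  have hpr : ClassGroup.mk0 (⟨(I : Ideal R) ^ 3, hmem⟩ : (Ideal R)⁰) = 1 := by
    rw [e, map_pow, h]
  obtain ⟨δ, hδ⟩ := (ClassGroup.mk0_eq_one_iff hmem).1 hpr
  exact ⟨δ, hδ⟩

open scoped nonZeroDivisors in
theorem abs_bound (K : Type) [Field K] [NumberField K] (hK : finrank ℚ K = 3) {Y : ℝ}
    (hY : |(discr K : ℝ)| ≤ Y) :
    ∃ A : Finset ((ℤ × ℤ × ℤ × ℤ) × K),
      (∀ a ∈ A, QH (6 * √Y) a.1 ∧ (a.1.2.2.2 : K) * a.2 ^ 3 - a.1.1 * a.1.2.2.2 * a.2 ^ 2 +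
        a.1.2.2.1 * a.2 - (a.1.2.1 : K) ^ 3 * a.1.2.2.2 = 0 ∧ ∀ r : ℚ, a.2 ≠ (r : K)) ∧
        h3 K ≤ 3 ^ om (discr K) + A.card := by
  classical
  let Dg : ClassGroup (𝓞 K) → Prop := fun c =>
    ∃ (I : (Ideal (𝓞 K))⁰) (δ : 𝓞 K) (d : ℚ) (y : K), ClassGroup.mk0 I = c ∧
      (I : Ideal (𝓞 K)) ^ 3 = Ideal.span {δ} ∧ (δ : K) = d * y ^ 3
  let T : Finset (ClassGroup (𝓞 K)) := Finset.univ.filter fun c => c ^ 3 = 1
  have hT : h3 K = T.card := by
    rw [h3, Nat.card_eq_fintype_card, Fintype.card_subtype]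
  have hsplit : (T.filter Dg).card + (T.filter fun c => ¬ Dg c).card = T.card :=
    Finset.card_filter_add_card_filter_not _
  have hdeg : (T.filter Dg).card ≤ 3 ^ om (discr K) :=
    deg_card _ fun c hc => (Finset.mem_filter.1 hc).2
  have hex : ∀ c : (T.filter fun c => ¬ Dg c), ∃ (I : (Ideal (𝓞 K))⁰) (δ : 𝓞 K)
      (q : ℤ × ℤ × ℤ × ℤ) (α z : K), ClassGroup.mk0 I = c ∧
        (I : Ideal (𝓞 K)) ^ 3 = Ideal.span {δ} ∧ QH (6 * √Y) q ∧
          (q.2.2.2 : K) * α ^ 3 - q.1 * q.2.2.2 * α ^ 2 +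
            q.2.2.1 * α - (q.2.1 : K) ^ 3 * q.2.2.2 = 0 ∧
          (∀ r : ℚ, α ≠ (r : K)) ∧ z ≠ 0 ∧ α = (discr K : K) * δ * z ^ 3 := by
    rintro ⟨c, hc⟩
    obtain ⟨hc1, hc2⟩ := Finset.mem_filter.1 hc
    have hc3 : c ^ 3 = 1 := (Finset.mem_filter.1 hc1).2
    obtain ⟨I, hI⟩ := ClassGroup.mk0_surjective c
    obtain ⟨δ, hδ'⟩ := exists_gen I (by rw [hI, hc3])
    obtain ⟨s, n, x, y, α, z, g1, g2, g3, g4, g5⟩ :=
      quad_of_class K hK δ I (nonZeroDivisors.coe_ne_zero I) hδ'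
        (fun d y h => hc2 ⟨I, δ, d, y, hI, hδ', h⟩) hY
    exact ⟨I, δ, (s, n, x, y), α, z, hI, hδ', g1, g2, g3, g4, g5⟩
  choose I δ q α z g0 g1 g2 g3 g4 g5 g6 using hex
  let f : (T.filter fun c => ¬ Dg c) → (ℤ × ℤ × ℤ × ℤ) × K := fun c => (q c, α c)
  have hf : Function.Injective f := by
    intro c c' hcc
    have e : α c = α c' := congrArg Prod.snd hcc
    apply Subtype.ext
    rw [← g0 c, ← g0 c']
    refine cls_eq (g1 c) (g1 c') (z := z c / z c') ?_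
    have hD : (discr K : K) ≠ 0 := by exact_mod_cast discr_ne_zero K
    rw [g6 c, g6 c'] at e
    have hz := g5 c'
    have e' : (δ c : K) * z c ^ 3 = (δ c' : K) * z c' ^ 3 := by
      apply mul_left_cancel₀ hD
      linear_combination e
    field_simp
    linear_combination -e'
  refine ⟨Finset.univ.image f, ?_, ?_⟩
  · intro a ha
    obtain ⟨c, -, rfl⟩ := Finset.mem_image.1 ha
    exact ⟨g2 c, g3 c, g4 c⟩
  · rw [Finset.card_image_of_injective _ hf, Finset.card_univ, Fintype.card_coe]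
    omega

theorem field_bound (K : IntermediateField ℚ Ω) (hK : finrank ℚ K = 3) {Y : ℝ}
    (hY : (dK K : ℝ) ≤ Y) :
    dK K ≠ 0 ∧ ∃ A : Finset ((ℤ × ℤ × ℤ × ℤ) × Ω),
      (∀ a ∈ A, QH (6 * √Y) a.1 ∧ Rt a.1 a.2 ∧ ℚ⟮a.2⟯ = K) ∧
        h3 K ≤ 3 ^ (dK K).primeFactors.card + A.card := by
  classical
  have hfd : FiniteDimensional ℚ K := Module.finite_of_finrank_pos (by omega)
  have : NumberField K := @NumberField.mk K _ inferInstance hfd
  have hd := dK_eq K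
  have hY' : |(discr K : ℝ)| ≤ Y := by
    rw [hd, Nat.cast_natAbs, Int.cast_abs] at hY
    exact hY
  refine ⟨by rw [hd]; exact Int.natAbs_ne_zero.2 (discr_ne_zero K), ?_⟩
  obtain ⟨A, hA, hh⟩ := abs_bound K hK hY'
  let f : (ℤ × ℤ × ℤ × ℤ) × K → (ℤ × ℤ × ℤ × ℤ) × Ω := fun a => (a.1, (a.2 : Ω))
  have hf : Function.Injective f := by
    intro a b hab
    have e1 : (f a).1 = (f b).1 := by rw [hab]
    have e2 : (f a).2 = (f b).2 := by rw [hab]
    exact Prod.ext e1 (Subtype.ext e2)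
  refine ⟨A.image f, ?_, ?_⟩
  · intro a ha
    obtain ⟨b, hb, rfl⟩ := Finset.mem_image.1 ha
    obtain ⟨g1, g2, g3⟩ := hA b hb
    refine ⟨g1, ?_, adjoin_eq K hK b.2 g3⟩
    have := congrArg (fun t : K => (t : Ω)) g2
    simpa [Rt, f] using this
  · rw [Finset.card_image_of_injective _ hf, hd]
    exact hh

open Polynomial in
theorem roots_le (q : ℤ × ℤ × ℤ × ℤ) (hq : q.2.2.2 ≠ 0) (R : Finset Ω) (hR : ∀ a ∈ R, Rt q a) :
    R.card ≤ 3 := by
  classical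
  let P : Polynomial Ω := C (q.2.2.2 : Ω) * X ^ 3 + C (-(q.1 * q.2.2.2 : Ω)) * X ^ 2 +
    C (q.2.2.1 : Ω) * X + C (-((q.2.1 : Ω) ^ 3 * q.2.2.2))
  have hq' : (q.2.2.2 : Ω) ≠ 0 := by exact_mod_cast hq
  have hdeg : P.natDegree = 3 := natDegree_cubic hq'
  have hP0 : P ≠ 0 := by
    intro h0
    rw [h0] at hdeg
    simp at hdeg
  rw [← hdeg]
  refine card_le_degree_of_subset_roots fun a ha => ?_
  rw [mem_roots hP0]
  have := hR a ha
  simp only [Rt] at this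
  simp only [P, IsRoot.def, eval_add, eval_mul, eval_C, eval_pow, eval_X]
  linear_combination this

end AvgAux

theorem avg_bound {ε : ℝ} (hε : 0 < ε) : ∃ C : ℝ, 0 < C ∧ ∀ Y : ℝ, 1 ≤ Y →
    ∀ S : Finset (IntermediateField ℚ Ω), (∀ K ∈ S, finrank ℚ K = 3 ∧ (dK K : ℝ) ≤ Y) →
      ∑ K ∈ S, (h3 K : ℝ) ≤ C * Y ^ (1 + ε) := by
  classical
  obtain ⟨C0, hC0, h0⟩ := cubic_count (ε := ε / 2) (by positivity)
  obtain ⟨C1, hC1, h1⟩ := H32.omega_bound 2 (η := ε / 2) (by positivity)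
  obtain ⟨C2, hC2, h2⟩ := quad_bound (ε := 2 * ε) (by positivity)
  refine ⟨C0 * C1 + 3 * C2 * 6 ^ (2 + 2 * ε), by positivity, fun Y hY S hS => ?_⟩
  have hY0 : 0 < Y := by linarith
  have hex : ∀ K : IntermediateField ℚ Ω, ∃ A : Finset ((ℤ × ℤ × ℤ × ℤ) × Ω), K ∈ S →
      (∀ a ∈ A, QH (6 * √Y) a.1 ∧ AvgAux.Rt a.1 a.2 ∧ IntermediateField.adjoin ℚ {a.2} = K) ∧
        (h3 K : ℝ) ≤ C1 * Y ^ (ε / 2) + A.card := by
    intro K
    by_cases hK : K ∈ S
    · obtain ⟨hne, A, hA, hh⟩ := AvgAux.field_bound K (hS K hK).1 (hS K hK).2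
      refine ⟨A, fun _ => ⟨hA, ?_⟩⟩
      have e1 : (h3 K : ℝ) ≤ (3 : ℝ) ^ (dK K).primeFactors.card + A.card := by exact_mod_cast hh
      have e2 : (3 : ℝ) ^ (dK K).primeFactors.card ≤ ((2 : ℝ) ^ 2) ^ (dK K).primeFactors.card :=
        pow_le_pow_left₀ (by norm_num) (by norm_num) _
      have e3 := h1 (dK K) hne
      have e4 : (dK K : ℝ) ^ (ε / 2) ≤ Y ^ (ε / 2) :=
        Real.rpow_le_rpow (by positivity) (hS K hK).2 (by positivity)
      have e5 : C1 * (dK K : ℝ) ^ (ε / 2) ≤ C1 * Y ^ (ε / 2) :=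
        mul_le_mul_of_nonneg_left e4 (by linarith)
      exact e1.trans (add_le_add ((e2.trans e3).trans e5) le_rfl)
    · exact ⟨∅, fun h => absurd h hK⟩
  choose A hA using hex
  have hdisj : (S : Set (IntermediateField ℚ Ω)).PairwiseDisjoint A := by
    intro K hK K' hK' hne
    rw [Function.onFun, Finset.disjoint_left]
    intro a ha ha'
    exact hne (((hA K hK).1 a ha).2.2.symm.trans ((hA K' hK').1 a ha').2.2)
  have hU : ∀ a ∈ S.biUnion A, QH (6 * √Y) a.1 ∧ AvgAux.Rt a.1 a.2 := by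
    intro a ha
    obtain ⟨K, hK, ha'⟩ := Finset.mem_biUnion.1 ha
    exact ⟨((hA K hK).1 a ha').1, ((hA K hK).1 a ha').2.1⟩
  have hcard : (S.biUnion A).card ≤ 3 * ((S.biUnion A).image Prod.fst).card := by
    refine Finset.card_le_mul_card_image _ 3 fun q hq => ?_
    obtain ⟨a0, ha0, rfl⟩ := Finset.mem_image.1 hq
    have hy : a0.1.2.2.2 ≠ 0 := (hU a0 ha0).1.2.2.2.2.2.1.ne'
    rw [← Finset.card_image_of_injOn (f := Prod.snd)]
    · refine AvgAux.roots_le a0.1 hy _ fun b hb => ?_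
      obtain ⟨a, ha, rfl⟩ := Finset.mem_image.1 hb
      obtain ⟨ha1, ha2⟩ := Finset.mem_filter.1 ha
      rw [← ha2]
      exact (hU a ha1).2
    · intro a ha b hb hab
      have ha2 := (Finset.mem_filter.1 (Finset.mem_coe.1 ha)).2
      have hb2 := (Finset.mem_filter.1 (Finset.mem_coe.1 hb)).2
      exact Prod.ext (ha2.trans hb2.symm) hab
  have hsq : 1 ≤ √Y := Real.one_le_sqrt.2 hY
  have hq := h2 (6 * √Y) (by linarith) ((S.biUnion A).image Prod.fst) fun q hq => by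
    obtain ⟨a, ha, rfl⟩ := Finset.mem_image.1 hq
    exact (hU a ha).1
  have hpow : (6 * √Y) ^ (2 + 2 * ε) = 6 ^ (2 + 2 * ε) * Y ^ (1 + ε) := by
    rw [Real.mul_rpow (by norm_num) (Real.sqrt_nonneg _), Real.sqrt_eq_rpow, ← Real.rpow_mul hY0.le]
    congr 2
    ring
  have hsum : ∑ K ∈ S, ((A K).card : ℝ) ≤ 3 * C2 * 6 ^ (2 + 2 * ε) * Y ^ (1 + ε) := by
    have e1 : ∑ K ∈ S, ((A K).card : ℝ) = ((S.biUnion A).card : ℝ) := by
      rw [Finset.card_biUnion hdisj]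
      push_cast
      rfl
    have e2 : ((S.biUnion A).card : ℝ) ≤ 3 * (((S.biUnion A).image Prod.fst).card : ℝ) := by
      exact_mod_cast hcard
    rw [hpow] at hq
    rw [e1]
    nlinarith
  have hS' := h0 Y hY S hS
  have hmul : Y ^ (1 + ε / 2) * Y ^ (ε / 2) = Y ^ (1 + ε) := by
    rw [← Real.rpow_add hY0]
    congr 1
    ring
  calc ∑ K ∈ S, (h3 K : ℝ) ≤ ∑ K ∈ S, (C1 * Y ^ (ε / 2) + ((A K).card : ℝ)) :=
        Finset.sum_le_sum fun K hK => (hA K hK).2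
    _ = S.card * (C1 * Y ^ (ε / 2)) + ∑ K ∈ S, ((A K).card : ℝ) := by
        rw [Finset.sum_add_distrib, Finset.sum_const, nsmul_eq_mul]
    _ ≤ C0 * Y ^ (1 + ε / 2) * (C1 * Y ^ (ε / 2)) + 3 * C2 * 6 ^ (2 + 2 * ε) * Y ^ (1 + ε) :=
        add_le_add (mul_le_mul_of_nonneg_right hS' (by positivity)) hsum
    _ = _ := by
        rw [← hmul]
        ring

end Pool.Agent.Lib.MP_af4c59_nt.K9
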