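import Pool.Agent.Lib.MP_af4c59_nt.H59Gal
import Pool.Agent.Lib.MP_af4c59_nt.H59Loc
import Pool.Agent.Lib.MP_af4c59_nt.H59Small
import Pool.Agent.Lib.MP_af4c59_nt.K9Avg

/-!
The second moment of the number of lifts of a quadratic character.
-/

namespace Pool.Agent.Lib.MP_af4c59_nt.H59

open NumberField Module Equiv

variable {d : Dat} {b r : ℕ}

/-- A lift of `χ` whose inertia groups fix the first point. -/
def Gd (d : Dat) (χ : d.Γ →* ℤˣ) (ρ : d.Γ →* Perm (Fin 3)) : Prop :=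
  (∀ σ, (ρ σ).sign = χ σ) ∧ ∀ p : ℕ, p.Prime → ∀ σ ∈ d.I p, ρ σ 0 = 0

lemma Gd.good {χ : d.Γ →* ℤˣ} {ρ : d.Γ →* Perm (Fin 3)} (h : Gd d χ ρ) : Good d χ ρ :=
  ⟨h.1, fun p hp σ hσ e => (by decide : ∀ a : Perm (Fin 3), a.sign = 1 → a 0 = 0 → a = 1) _
    ((h.1 σ).trans e) (h.2 p hp σ hσ)⟩

/-- The number of lifts of `χ` with restricted ramification. -/
noncomputable def lifts (d : Dat) (b r : ℕ) (χ : d.Γ →* ℤˣ) : ℕ :=
  Nat.card {ρ : d.Γ →* Perm (Fin 3) // Unr d b r ρ ∧ ∀ σ, (ρ σ).sign = χ σ}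

lemma lifts_le (hb : 6 ≤ b) : ∃ B : ℕ, ∀ (d : Dat) (r : ℕ) (χ : d.Γ →* ℤˣ), 1 ≤ r →
    lifts d b r χ ≤ 6 ^ r.primeFactors.card * B * Nat.card {ρ // Unr d b r ρ ∧ Gd d χ ρ} := by
  classical
  choose β hβ θ hθ using loc_fin (Perm (Fin 3))
  refine ⟨Nat.card ((p : Fin (b + 1)) → β p), fun d r χ hr => ?_⟩
  choose g hg using d.gen
  let A := {ρ : d.Γ →* Perm (Fin 3) // Unr d b r ρ ∧ ∀ σ, (ρ σ).sign = χ σ}
  rcases isEmpty_or_nonempty A with _ | _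
  · exact (Nat.card_of_isEmpty (α := A)).trans_le (Nat.zero_le _)
  let cls : A → (r.primeFactors → Perm (Fin 3)) × ((p : Fin (b + 1)) → β p) := fun ρ =>
    (fun p => ρ.1 (g p), fun p => θ p d ρ.1)
  let rep : A → A := fun ρ => Function.invFun cls (cls ρ)
  have h0 : ∀ ρ, cls (rep ρ) = cls ρ := fun ρ => Function.invFun_eq ⟨ρ, rfl⟩
  have h2 : ∀ (ρ : A) (p : ℕ), p.Prime → ∀ σ ∈ d.I p, (rep ρ).1 σ = ρ.1 σ := by
    intro ρ p hp σ hσ
    by_cases hbp : p ≤ b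
    · exact hθ p d hp _ _ (congrFun (congrArg Prod.snd (h0 ρ)) ⟨p, by omega⟩) σ hσ
    by_cases h : p ∣ r
    · exact hg p hp _ (by simp [Fintype.card_perm, Nat.factorial]; omega) _ _
        (congrFun (congrArg Prod.fst (h0 ρ)) ⟨p, Nat.mem_primeFactors.2 ⟨hp, h, by omega⟩⟩) σ hσ
    · rw [(rep ρ).2.1 p hp (by omega) h σ hσ, ρ.2.1 p hp (by omega) h σ hσ]
  let π : ℤˣ → Perm (Fin 3) := fun e => if e = 1 then 1 else swap 1 2
  have k1 : ∀ a c a' c' : Perm (Fin 3), a'.sign = a.sign → c'.sign = c.sign →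
      a * c * (a' * c')⁻¹ * π (a.sign * c.sign) = a * a'⁻¹ * π a.sign * (c * c'⁻¹ * π c.sign) := by
    decide +kernel
  have k2 : ∀ a a' : Perm (Fin 3), a'.sign = a.sign → (a * a'⁻¹ * π a.sign).sign = a.sign := by
    decide
  let tw : A → (d.Γ →* Perm (Fin 3)) := fun ρ =>
    MonoidHom.mk' (fun σ => ρ.1 σ * ((rep ρ).1 σ)⁻¹ * π (χ σ)) fun σ τ => by
      simp only [map_mul, ← ρ.2.2]
      exact k1 _ _ _ _ (((rep ρ).2.2 σ).trans (ρ.2.2 σ).symm) (((rep ρ).2.2 τ).trans (ρ.2.2 τ).symm)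
  have h3 : ∀ ρ σ, tw ρ σ = ρ.1 σ * ((rep ρ).1 σ)⁻¹ * π (χ σ) := fun _ _ => rfl
  have h5 : ∀ (ρ : A) (p : ℕ), p.Prime → ∀ σ ∈ d.I p, tw ρ σ = π (χ σ) :=
    fun ρ p hp σ hσ => by rw [h3, h2 ρ p hp σ hσ, mul_inv_cancel, one_mul]
  let F : A → ((r.primeFactors → Perm (Fin 3)) × ((p : Fin (b + 1)) → β p)) ×
      {ρ // Unr d b r ρ ∧ Gd d χ ρ} := fun ρ =>
    (cls ρ, ⟨tw ρ, fun p hp hbp h σ hσ => by
      rw [h5 ρ p hp σ hσ, ← ρ.2.2, ρ.2.1 p hp hbp h σ hσ, map_one]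
      rfl, fun σ => by
      rw [h3, ← ρ.2.2]
      exact k2 _ _ (((rep ρ).2.2 σ).trans (ρ.2.2 σ).symm), fun p hp σ hσ => by
      rw [h5 ρ p hp σ hσ]
      generalize χ σ = e
      revert e
      decide⟩)
  refine (Nat.card_le_card_of_injective F fun ρ ρ' e => ?_).trans_eq (by
    rw [Nat.card_prod, Nat.card_prod, Nat.card_fun, Nat.card_eq_finsetCard, Nat.card_perm,
      Nat.card_fin]
    rfl)
  have e1 : tw ρ = tw ρ' := congrArg (fun z => z.2.1) e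
  have e3 : rep ρ = rep ρ' := congrArg (Function.invFun cls) (congrArg Prod.fst e)
  refine Subtype.ext (MonoidHom.ext fun σ => ?_)
  have e4 := DFunLike.congr_fun e1 σ
  rwa [h3, h3, e3, mul_left_inj, mul_left_inj] at e4

lemma no_root {ρ : d.Γ →* Perm (Fin 3)} (hs : Function.Surjective ρ) (hb : 3 ≤ b)
    (h : ¬ Unr d b 1 (Perm.sign.comp ρ)) (x : d.M) (hx : x ^ 3 = 1) (hf : ∀ v ∈ ρ.ker, v x = x) :
    x = 1 := by
  unfold Unr at h
  push Not at h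
  obtain ⟨p, hp, hbp, -, σ, hσ, h1⟩ := h
  by_contra hne
  have h2 : x ^ 2 + x + 1 = 0 := mul_left_cancel₀ (sub_ne_zero.2 hne) (by linear_combination hx)
  have h3 : σ x = x := (cube_root σ hx).resolve_right fun e => by
    let y : 𝓞 d.M := ⟨x, IsIntegral.of_pow three_pos (hx ▸ isIntegral_one)⟩
    have h4 : ((3 : ℤ) : 𝓞 d.M) = -(σ • y - y) * (σ • y - y) := RingOfIntegers.ext (by
      show ((3 : ℤ) : d.M) = -(σ x - x) * (σ x - x)
      rw [e]
      push_cast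
      linear_combination (x ^ 2 - 3 * x + 3) * h2)
    have h5 := Int.le_of_dvd (by norm_num) (d.int_mem hp (h4 ▸ Ideal.mul_mem_left _ _ (hσ y)))
    omega
  have h4 : ∀ g : d.Γ, (g * σ * g⁻¹) x = x := fun g => by
    have h5 : σ (g⁻¹ x) = g⁻¹ x := by
      rcases cube_root g⁻¹ hx with e | e <;> simp only [e, map_pow, h3]
    rw [AlgEquiv.mul_apply, AlgEquiv.mul_apply, h5]
    exact g.apply_symm_apply x
  have h5 : ∀ g : d.Γ, g x = x := fun g => by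
    have k : ∀ a c : Perm (Fin 3), a.sign ≠ 1 → ∃ s t : Perm (Fin 3),
      c = s * a * s⁻¹ ∨ c = s * a * s⁻¹ * (t * a * t⁻¹) := by decide +kernel
    obtain ⟨s, t, e⟩ := k (ρ σ) (ρ g) h1
    obtain ⟨s, rfl⟩ := hs s
    obtain ⟨t, rfl⟩ := hs t
    have key : ∀ w : d.Γ, w x = x → ρ g = ρ w → g x = x := fun w a c => by
      have := hf (w⁻¹ * g) (by rw [MonoidHom.mem_ker, map_mul, map_inv, c, inv_mul_cancel])
      rw [← mul_inv_cancel_left w g, AlgEquiv.mul_apply, this, a]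
    rcases e with e | e
    · exact key _ (h4 s) (by simpa using e)
    · exact key (s * σ * s⁻¹ * (t * σ * t⁻¹)) (by rw [AlgEquiv.mul_apply, h4, h4]) (by simpa using e)
  obtain ⟨q, rfl⟩ := (IsGalois.mem_range_algebraMap_iff_fixed x).2 h5
  have h6 : q ^ 2 + q + 1 = 0 := (algebraMap ℚ d.M).injective (by simpa using h2)
  nlinarith [sq_nonneg (2 * q + 1)]

/-- The pairs in general position. -/
def Pr (d : Dat) (b r : ℕ) (z : (d.Γ →* Perm (Fin 3)) × (d.Γ →* Perm (Fin 3))) : Prop :=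
  Unr d b r z.1 ∧ Function.Surjective z.1 ∧ Gd d (Perm.sign.comp z.1) z.1 ∧
    Gd d (Perm.sign.comp z.1) z.2 ∧ ¬ Unr d b 1 (Perm.sign.comp z.1)

lemma bd_pairs (hb : 3 ≤ b) : Bd fun d r => Nat.card {z // Pr d b r z} := by
  classical
  refine bd_of_cond (fun d r z => Pr d b r z) (fun d r r' z h h' => ⟨h.1.gcd h'.1, h.2⟩)
    fun ε hε => ?_
  obtain ⟨C, hC, hc⟩ := K9.avg_bound hε
  set B : ℝ := (b.factorial : ℝ) ^ 3 ^ 2 with hB
  have hB1 : 1 ≤ B := one_le_pow₀ (by exact_mod_cast b.factorial_pos)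
  refine ⟨3 ^ 6 * 6 ^ 6 * 3 ^ 3 * (C * B ^ (1 + ε)), by positivity, fun d y hy S hS => ?_⟩
  have hex : ∀ ρ : d.Γ →* Perm (Fin 3), ∃ L : IntermediateField ℚ Ω, Function.Surjective ρ →
      ∃ φ, Rep d L φ ρ := fun ρ => by
    by_cases h : Function.Surjective ρ
    · obtain ⟨L, _, φ, h4, -⟩ := exists_rep ⊤ 0 (fun i => ⟨swap 0 i, trivial, by simp⟩)
        (MonoidHom.range_eq_top.2 h)
      exact ⟨L, fun _ => ⟨φ, h4⟩⟩
    · exact ⟨⊥, fun h' => absurd h' h⟩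
  choose Lf hLf using hex
  have h1 : S.card ≤ ∑ K ∈ S.image fun z => Lf z.1, 3 ^ 6 * K9.h3 K * 6 ^ 6 * 3 ^ 3 := by
    rw [Finset.card_eq_sum_card_image fun z => Lf z.1]
    refine Finset.sum_le_sum fun K hK => ?_
    have hex : ∀ ρ : ((S.filter fun z => Lf z.1 = K).image Prod.fst), ∃ φ, Rep d K φ ρ.1 := by
      rintro ⟨_, h⟩
      obtain ⟨z, hz, rfl⟩ := Finset.mem_image.1 h
      obtain ⟨a, rfl⟩ := Finset.mem_filter.1 hz
      obtain ⟨_, _, _, h⟩ := hS z a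
      exact hLf _ h.2.1
    choose Φ hΦ using hex
    obtain ⟨z0, hz0, e0⟩ := Finset.mem_image.1 hK
    have h3 := (hΦ ⟨_, Finset.mem_image_of_mem _ (Finset.mem_filter.2 ⟨hz0, e0⟩)⟩).rk
    have : FiniteDimensional ℚ K := Module.finite_of_finrank_pos (by omega)
    have : NumberField K := ⟨⟩
    refine (Finset.card_le_mul_card_image (f := Prod.fst) _ _ fun ρ hρ => ?_).trans
      (Nat.mul_le_mul_left _ ?_)
    · obtain ⟨z, hz, rfl⟩ := Finset.mem_image.1 hρ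
      obtain ⟨_, _, _, h⟩ := hS z (Finset.mem_filter.1 hz).1
      refine le_trans ?_ (card_good h.2.2.1.good h.2.1 (hΦ ⟨_, hρ⟩) (no_root h.2.1 hb h.2.2.2.2))
      rw [← Nat.card_eq_finsetCard]
      refine Nat.card_le_card_of_injective (fun w => ⟨w.1.2, ?_⟩) fun w w' e => Subtype.ext
        (Prod.ext ((Finset.mem_filter.1 w.2).2.trans (Finset.mem_filter.1 w'.2).2.symm)
          (congrArg Subtype.val e :))
      obtain ⟨a, c⟩ := Finset.mem_filter.1 w.2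
      obtain ⟨_, _, _, h⟩ := hS w (Finset.mem_filter.1 a).1
      have h4 := h.2.2.2.1.good
      rwa [c] at h4
    · rw [← Nat.card_eq_finsetCard]
      refine (Nat.card_le_card_of_injective Φ fun ρ ρ' e =>
        Subtype.ext ((hΦ ρ).unique (e ▸ hΦ ρ'))).trans ?_
      rw [Nat.card_fun, Nat.card_fin]
      exact Nat.pow_le_pow_left (h3 ▸ card_algHom_le_finrank ℚ K d.M) 3
  have h2 := hc (B * y) (one_le_mul_of_one_le_of_one_le hB1 hy) (S.image fun z => Lf z.1)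
    fun K hK => by
      obtain ⟨z, hz, rfl⟩ := Finset.mem_image.1 hK
      obtain ⟨f, f1, f2, h⟩ := hS z hz
      obtain ⟨φ, hφ⟩ := hLf _ h.2.1
      have h3 := hφ.rk
      have : FiniteDimensional ℚ (Lf z.1) := Module.finite_of_finrank_pos (by omega)
      have : NumberField (Lf z.1) := ⟨⟩
      have h4 := hφ.disc_le hb f1 h.1 ![0, 1, 1] (w := 1) (by decide) fun p hp _ σ hσ =>
        (by decide : ∀ g : Perm (Fin 3), g 0 = 0 → ∀ i,
          (![0, 1, 1] : Fin 3 → Fin 3) (g i) = ![0, 1, 1] i) _ (h.2.2.1.2 p hp σ hσ)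
      have h5 : (((discr (Lf z.1)).natAbs : ℕ) : ℝ) ≤ B * (f : ℝ) ^ 1 := by
        rw [hB]
        exact_mod_cast h4
      rw [K9.dK_eq]
      exact ⟨h3, h5.trans (by rw [pow_one]; gcongr)⟩
  rw [Real.mul_rpow (by linarith) (by linarith)] at h2
  clear_value B
  calc (S.card : ℝ) ≤ ∑ K ∈ S.image fun z => Lf z.1, 3 ^ 6 * (K9.h3 K : ℝ) * 6 ^ 6 * 3 ^ 3 := by
        exact_mod_cast h1
    _ = 3 ^ 6 * 6 ^ 6 * 3 ^ 3 * ∑ K ∈ S.image fun z => Lf z.1, (K9.h3 K : ℝ) := by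
        rw [Finset.mul_sum]
        exact Finset.sum_congr rfl fun _ _ => by ring
    _ ≤ 3 ^ 6 * 6 ^ 6 * 3 ^ 3 * (C * (B ^ (1 + ε) * y ^ (1 + ε))) := by gcongr
    _ = _ := by ring

lemma Bd.add {a a' : Dat → ℕ → ℕ} (h : Bd a) (h' : Bd a') : Bd fun d r => a d r + a' d r := by
  have := Bd.sum (a := ![a, a']) Finset.univ fun i _ => by fin_cases i <;> assumption
  simpa using this

lemma Sm.sum {ι : Type} (T : Finset ι) {a : ι → Dat → ℕ → ℕ} (h : ∀ i ∈ T, Sm (a i)) :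
    Sm fun d r => ∑ i ∈ T, a i d r := by
  intro ε hε
  choose! C hC h using fun i hi => h i hi ε hε
  refine ⟨∑ i ∈ T, C i, Finset.sum_nonneg hC, fun d r hr => ?_⟩
  rw [Nat.cast_sum, Finset.sum_mul]
  exact Finset.sum_le_sum fun i hi => h i hi d r hr

lemma sm_proper (b : ℕ) : Sm fun d r =>
    Nat.card {ρ : d.Γ →* Perm (Fin 3) // Unr d b r ρ ∧ ¬ Function.Surjective ρ} := by
  have := Fintype.ofFinite (Subgroup (Perm (Fin 3)))
  refine (Sm.sum Finset.univ fun K _ => ?_).mono fun d r _ => card_split _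
  by_cases h : K = ⊤
  · refine (sm_omega 0 0).mono fun d r _ => (Nat.card_eq_zero.2
      (Or.inl ⟨fun ρ => ρ.2.2.2 fun x => ?_⟩)).trans_le (Nat.zero_le _)
    obtain ⟨σ, hσ⟩ := ρ.2.1 ⟨x, h ▸ Subgroup.mem_top x⟩
    exact ⟨σ, congrArg Subtype.val hσ⟩
  refine (sm_comm K (fun x y => Subtype.ext (by_contra fun hne => h ((Subgroup.eq_top_iff' K).2
    fun c => ?_))) b).mono fun d r _ => Nat.card_le_card_of_injective
      (fun ρ => ⟨ρ.1, fun p h1 h2 h3 σ hσ => Subtype.ext (ρ.2.2.1 p h1 h2 h3 σ hσ)⟩)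
      fun _ _ e => Subtype.ext (congrArg Subtype.val e :)
  have k : ∀ a b c : Perm (Fin 3), a * b ≠ b * a → c = 1 ∨ c = a ∨ c = b ∨ c = a * b ∨ c = b * a ∨
    c = a * b * a ∨ c = a * a ∨ c = b * b := by decide +kernel
  rcases k x y c hne with e | e | e | e | e | e | e | e <;> rw [e]
  exacts [K.one_mem, x.2, y.2, (x * y).2, (y * x).2, (x * y * x).2, (x * x).2, (y * y).2]

/-- The second moment. -/
theorem moment (hb : 6 ≤ b) : ∃ m : Dat → ℕ → ℕ, (∀ d r χ, lifts d b r χ ≤ m d r) ∧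
    Bd fun d r => m d r * m d r := by
  classical
  choose χ hχ using fun (d : Dat) (r : ℕ) => Finite.exists_max (lifts d b r)
  obtain ⟨B, hB⟩ := lifts_le hb
  obtain ⟨C, hC⟩ := u_one (Perm (Fin 3)) b
  have h3 : RR (Perm (Fin 3)) := rr_small 6 (by norm_num) _ (by rw [Nat.card_perm, Nat.card_fin]; rfl)
  refine ⟨fun d r => lifts d b r (χ d r), hχ, ((sm_omega 6 B).mul ((sm_omega 6 B).mul
    ((((sm_omega 1 (C * C)).mul bd_one).add ((sm_proper b).mul (h3 b))).add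
      (bd_pairs (b := b) (by omega))))).mono fun d r hr => ?_⟩
  refine (Nat.mul_le_mul (hB d r _ hr) (hB d r _ hr)).trans ?_
  rw [mul_mul_mul_comm, mul_assoc]
  refine Nat.mul_le_mul_left _ (Nat.mul_le_mul_left _ ?_)
  by_cases h : Unr d b 1 (χ d r)
  · have h1 : Nat.card {ρ // Unr d b r ρ ∧ Gd d (χ d r) ρ} ≤ C := by
      refine le_trans (Nat.card_le_card_of_injective (fun ρ => ⟨ρ.1, fun p a c e σ hσ =>
        ρ.2.2.good.2 p a σ hσ (h p a c e σ hσ)⟩) fun _ _ e => ?_) (hC d)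
      exact Subtype.ext (congrArg Subtype.val e :)
    rw [one_pow, one_mul, mul_one, add_assoc]
    exact (Nat.mul_le_mul h1 h1).trans (Nat.le_add_right _ _)
  rw [add_assoc, u, ← Nat.card_prod, ← Nat.card_prod, ← Nat.card_sum]
  refine le_trans ?_ (Nat.le_add_left _ _)
  have he : ∀ ρ : {ρ // Unr d b r ρ ∧ Gd d (χ d r) ρ}, Perm.sign.comp ρ.1 = χ d r := fun ρ =>
    MonoidHom.ext ρ.2.2.1
  refine Nat.card_le_card_of_injective (fun z => if hz : Function.Surjective z.1.1 then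
    Sum.inr ⟨(z.1.1, z.2.1), z.1.2.1, hz, by rw [he]; exact z.1.2.2, by rw [he]; exact z.2.2.2,
      by rw [he]; exact h⟩ else Sum.inl (⟨z.1.1, z.1.2.1, hz⟩, ⟨z.2.1, z.2.2.1⟩)) fun z w e => ?_
  beta_reduce at e
  split_ifs at e <;> simp only [Sum.inl.injEq, Sum.inr.injEq, Subtype.mk.injEq, Prod.mk.injEq] at e <;>
    exact Prod.ext (Subtype.ext e.1) (Subtype.ext e.2)

end Pool.Agent.Lib.MP_af4c59_nt.H59
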