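import Pool.Agent.Lib.MP_af4c59_nt.H59Mom

/-!
Groups with at most two non-central layers, each of order three.
-/

namespace Pool.Agent.Lib.MP_af4c59_nt.H59

open Equiv

variable {H K : Type} [Group H] [Finite H] [Group K] [Finite K] {d : Dat} {b r : ℕ}

/-- A layer of order three. -/
lemma u_layer (f : H →* K) (hf : Nat.card f.ker ∣ 3) {m : ℕ} (hm : ∀ χ, lifts d b r χ ≤ m) :
    u H d b r ≤ m * u K d b r := by
  classical
  rcases (Nat.dvd_prime Nat.prime_three).1 hf with h | h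
  · have : Nonempty {ρ : d.Γ →* Perm (Fin 3) // Unr d b r ρ ∧ ∀ σ, (ρ σ).sign = (1 : _ →* ℤˣ) σ} :=
      ⟨⟨1, fun _ _ _ _ _ _ => rfl, fun _ => rfl⟩⟩
    exact (u_inj f ((MonoidHom.ker_eq_bot_iff f).1 (Subgroup.card_eq_one.1 h))).trans
      (Nat.le_mul_of_pos_left _ (lt_of_lt_of_le Nat.card_pos (hm 1)))
  let e := Finite.equivFinOfCardEq h
  let cls : {ρ : d.Γ →* H // Unr d b r ρ} → {ρ : d.Γ →* K // Unr d b r ρ} := fun ρ =>
    ⟨f.comp ρ.1, ρ.2.comp f⟩
  have := Fintype.ofFinite {ρ : d.Γ →* K // Unr d b r ρ}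
  rw [u, ← Nat.card_congr (sigmaFiberEquiv cls), Nat.card_sigma, u, Nat.card_eq_fintype_card,
    mul_comm]
  refine Finset.sum_le_card_nsmul _ _ _ fun κ _ => ?_
  rcases isEmpty_or_nonempty {ρ // cls ρ = κ} with _ | ⟨⟨ρ0⟩⟩
  · simp
  have h1 : ∀ (ρ : {ρ // cls ρ = κ}) σ, f (ρ.1.1 σ) = f (ρ0.1.1 σ) := fun ρ σ =>
    DFunLike.congr_fun (congrArg Subtype.val (ρ.2.trans ρ0.2.symm)) σ
  let Φ : {ρ // cls ρ = κ} → d.Γ →* Perm f.ker := fun ρ => MonoidHom.toHomPerm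
    { toFun := fun σ x => ⟨ρ.1.1 σ * x * (ρ0.1.1 σ)⁻¹, by
        rw [MonoidHom.mem_ker, map_mul, map_mul, map_inv, x.2, h1, mul_one, mul_inv_cancel]⟩
      map_one' := funext fun x => Subtype.ext (by simp; rfl)
      map_mul' := fun σ τ => funext fun x => Subtype.ext (by
        show _ = ρ.1.1 σ * (ρ.1.1 τ * x * (ρ0.1.1 τ)⁻¹) * (ρ0.1.1 σ)⁻¹
        simp only [map_mul, mul_inv_rev, mul_assoc]) }
  have hΦ : ∀ ρ σ x, (Φ ρ σ x).1 = ρ.1.1 σ * x * (ρ0.1.1 σ)⁻¹ := fun _ _ _ => rfl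
  have := Fintype.ofFinite f.ker
  have h2 : ∀ ρ, Unr d b r (Φ ρ) := fun ρ p a c g σ hσ => Equiv.ext fun x => Subtype.ext (by
    rw [hΦ, ρ.1.2 p a c g σ hσ, ρ0.1.2 p a c g σ hσ, one_mul, inv_one, mul_one]
    rfl)
  have h3 : ∀ ρ σ, Φ ρ σ = MulAction.toPermHom f.ker f.ker (Φ ρ σ 1) * Φ ρ0 σ := fun ρ σ =>
    Equiv.ext fun x => Subtype.ext (by
      show _ = (Φ ρ σ 1).1 * (Φ ρ0 σ x).1
      simp only [hΦ, Subgroup.coe_one]
      group)
  have h4 : ∀ c : f.ker, (MulAction.toPermHom f.ker f.ker c).sign = 1 := fun c => by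
    have h4 : (MulAction.toPermHom f.ker f.ker c).sign ^ 3 = 1 := by
      rw [← map_pow, ← map_pow, ← h, pow_card_eq_one', map_one, map_one]
    rwa [pow_succ, Int.units_sq, one_mul] at h4
  refine le_trans (Nat.card_le_card_of_injective (fun ρ => ⟨e.permCongrHom.toMonoidHom.comp (Φ ρ),
    (h2 ρ).comp _, fun σ => (Perm.sign_permCongr e _).trans (by
      rw [h3, map_mul, h4, one_mul]; rfl)⟩) fun ρ ρ' g => ?_) (hm (Perm.sign.comp (Φ ρ0)))
  refine Subtype.ext (Subtype.ext (MonoidHom.ext fun σ => ?_))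
  have h5 : (Φ ρ σ 1).1 = (Φ ρ' σ 1).1 := congrArg (fun z : Perm f.ker => (z 1).1)
    (e.permCongrHom.injective (DFunLike.congr_fun (congrArg Subtype.val g) σ))
  simpa only [hΦ, mul_left_inj] using h5

lemma bd_upper {a : Dat → ℕ → ℕ} (k : ℕ)
    (h : Bd fun d r => u (H ⧸ Subgroup.upperCentralSeries H k) d b r * a d r) :
    Bd fun d r => u H d b r * a d r := by
  induction k with
  | zero =>
    refine h.mono fun d r _ => Nat.mul_le_mul_right _ (u_inj (QuotientGroup.mk' _) ?_)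
    rw [← MonoidHom.ker_eq_bot_iff, QuotientGroup.ker_mk', Subgroup.upperCentralSeries_zero]
  | succ k ih =>
    refine ih (((sm_comm (Subgroup.center (H ⧸ Subgroup.upperCentralSeries H k))
      (fun x y => Subtype.ext (Subgroup.mem_center_iff.1 y.2 x)) b).mul h).mono fun d r _ => ?_)
    rw [← mul_assoc]
    refine Nat.mul_le_mul_right _ (u_central (QuotientGroup.map _ _ (MonoidHom.id H)
      (Subgroup.upperCentralSeries_mono H k.le_succ)) fun x hx =>
        Subgroup.mem_center_iff.2 fun y => ?_)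
    obtain ⟨x, rfl⟩ := QuotientGroup.mk_surjective x
    obtain ⟨y, rfl⟩ := QuotientGroup.mk_surjective y
    have h1 := (QuotientGroup.eq_one_iff _).2
      (Subgroup.mem_upperCentralSeries_succ_iff.1 ((QuotientGroup.eq_one_iff x).1 hx) y)
    rw [commutatorElement_def, QuotientGroup.mk_mul, QuotientGroup.mk_mul, QuotientGroup.mk_mul,
      QuotientGroup.mk_inv, QuotientGroup.mk_inv, mul_inv_eq_one, mul_inv_eq_iff_eq_mul] at h1
    exact h1.symm

lemma u_quot (A B : Subgroup H) [A.Normal] [B.Normal] (h : A ≤ B) (h3 : A.relIndex B ∣ 3) {m : ℕ}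
    (hm : ∀ χ, lifts d b r χ ≤ m) : u (H ⧸ A) d b r ≤ m * u (H ⧸ B) d b r := by
  refine u_layer (QuotientGroup.map A B (MonoidHom.id H) h) ?_ hm
  rwa [QuotientGroup.ker_map, Subgroup.comap_id, ← Subgroup.relIndex_ker, QuotientGroup.ker_mk']

theorem rr_layers (k : ℕ) (A B : Subgroup H) [A.Normal] [B.Normal]
    (h1 : Subgroup.upperCentralSeries H k ≤ A) (h2 : A ≤ B)
    (h3 : (Subgroup.upperCentralSeries H k).relIndex A ∣ 3) (h4 : A.relIndex B ∣ 3)
    (h5 : Group.IsNilpotent (H ⧸ B)) : RR H := by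
  refine RR.of_large 6 fun b hb => ?_
  obtain ⟨m, hm, hM⟩ := moment hb
  obtain ⟨l, hl⟩ := h5.nilpotent
  have : Subsingleton ((H ⧸ B) ⧸ Subgroup.upperCentralSeries (H ⧸ B) l) := by
    rw [hl]
    exact QuotientGroup.subsingleton_quotient_top
  have h6 := bd_upper (H := H ⧸ B) l ((sm_comm _ (fun _ _ => Subsingleton.elim _ _) b).mul hM)
  refine (bd_upper (a := fun _ _ => 1) k (h6.mono fun d r _ => ?_)).mono fun _ _ _ => (mul_one _).ge
  rw [mul_one, mul_comm, mul_assoc]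
  exact (u_quot _ A h1 h3 (hm d r)).trans (Nat.mul_le_mul_left _ (u_quot A B h2 h4 (hm d r)))

end Pool.Agent.Lib.MP_af4c59_nt.H59
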