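import Pool.Agent.Lib.MP_af4c59_nt.K9Unr

/-!
No unramified cyclic cubic extension without cube roots of unity splits a saturated set of primes.
-/

namespace Pool.Agent.Lib.MP_af4c59_nt.H59

open NumberField Module IsDedekindDomain K9 K9.UnrAux

lemma exists_exponent (N : Type) [Field N] [NumberField N] (hw : ∀ x : N, x ^ 3 = 1 → x = 1) :
    ∃ k j : ℕ, k ≠ 0 ∧ k ∣ 3 * j + 1 ∧ ∀ (x : N) (n : ℕ), n ≠ 0 → x ^ n = 1 → x ^ k = 1 := by
  have h0 : Nat.card (Units.torsion N) ≠ 0 := Nat.card_pos.ne'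
  have h3 : ¬ 3 ∣ Nat.card (Units.torsion N) := fun h => by
    have : Fact (Nat.Prime 3) := ⟨Nat.prime_three⟩
    obtain ⟨x, hx⟩ := exists_prime_orderOf_dvd_card' 3 h
    have h1 : x ^ 3 = 1 := hx ▸ pow_orderOf_eq_one x
    have h2 := hw ((x.1 : 𝓞 N) : N) (by
      have := congrArg (fun y : Units.torsion N => ((y.1 : 𝓞 N) : N)) h1
      simpa using this)
    have h4 : x = 1 := Subtype.ext (Units.ext (RingOfIntegers.ext h2))
    rw [h4, orderOf_one] at hx
    omega
  set k := Nat.card (Units.torsion N) with hk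
  obtain ⟨j, hj⟩ : ∃ j, k ∣ 3 * j + 1 := by
    rcases (by omega : k % 3 = 1 ∨ k % 3 = 2) with h | h
    · exact ⟨k / 3, 1, by omega⟩
    · exact ⟨2 * (k / 3) + 1, 2, by omega⟩
  refine ⟨k, j, h0, hj, fun x n hn hx => ?_⟩
  have h1 : IsIntegral ℤ x := IsIntegral.of_pow (Nat.pos_of_ne_zero hn) (hx ▸ isIntegral_one)
  obtain ⟨x', hx'⟩ : ∃ x' : 𝓞 N, (x' : N) = x := ⟨⟨x, h1⟩, rfl⟩
  have h2 : x' ^ n = 1 := RingOfIntegers.ext (by simpa [hx'] using hx)
  obtain ⟨u, hu⟩ : ∃ u : (𝓞 N)ˣ, (u : 𝓞 N) = x' := ⟨Units.ofPowEqOne _ n h2 hn, rfl⟩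
  have h4 : u ∈ Units.torsion N := isOfFinOrder_iff_pow_eq_one.2
    ⟨n, Nat.pos_of_ne_zero hn, Units.ext (by simpa [hu] using h2)⟩
  have h5 : (⟨u, h4⟩ : Units.torsion N) ^ k = 1 := pow_card_eq_one'
  have := congrArg (fun y : Units.torsion N => ((y.1 : 𝓞 N) : N)) h5
  simpa [hu, hx'] using this

/-- The abstract rank count. -/
lemma core {U : Type} [AddCommGroup U] [Module.Finite ℤ U] (σ : U →ₗ[ℤ] U) (k : ℤ) (hk : k ≠ 0)
    (h3 : ∀ u, σ (σ (σ u)) = u) (ht : ∀ (n : ℤ) (u : U), n ≠ 0 → n • u = 0 → k • u = 0)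
    (h : ∀ u, k • (u + σ u + σ (σ u)) = 0 →
      ∃ y, k • u = k • (σ y - y)) :
    finrank ℤ U ≤ 3 * finrank ℤ (LinearMap.ker (σ - LinearMap.id)) := by
  let M : Submodule ℤ U := LinearMap.range (LinearMap.lsmul ℤ U k)
  have hM : ∀ x, x ∈ M ↔ ∃ u, k • u = x := fun x => Iff.rfl
  have hσ : ∀ x ∈ M, σ x ∈ M := by
    intro x hx
    obtain ⟨u, rfl⟩ := (hM x).1 hx
    exact (hM _).2 ⟨σ u, by rw [map_smul]⟩
  have : Module.IsTorsionFree ℤ M := by
    refine Module.IsTorsionFree.of_smul_eq_zero fun n m hm => ?_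
    by_cases hn : n = 0
    · exact Or.inl hn
    · right
      obtain ⟨u, hu⟩ := (hM _).1 m.2
      apply Subtype.ext
      have h1 : n • (m : U) = 0 := congrArg Subtype.val hm
      rw [← hu, smul_smul] at h1
      rw [← hu]
      exact ht _ u (mul_ne_zero hn hk) h1
  have h1 := rank_le (M := M) (σ.restrict hσ) (fun u => Subtype.ext (h3 u)) (by
    intro m hm
    obtain ⟨u, hu⟩ := (hM _).1 m.2
    have h1 : (m : U) + σ m + σ (σ m) = 0 := congrArg Subtype.val hm
    obtain ⟨y, hy⟩ := h u (by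
      rw [← hu, map_smul, map_smul] at h1
      rw [smul_add, smul_add, h1])
    refine ⟨⟨k • y, (hM _).2 ⟨y, rfl⟩⟩, Subtype.ext ?_⟩
    show (m : U) = σ (k • y) - k • y
    rw [← hu, hy, map_smul, smul_sub])
  have h2 : finrank ℤ (U ⧸ M) = 0 := by
    rw [Module.finrank_eq_zero_iff]
    intro x
    obtain ⟨u, rfl⟩ := Submodule.Quotient.mk_surjective M x
    refine ⟨k, hk, ?_⟩
    rw [← Submodule.Quotient.mk_smul, Submodule.Quotient.mk_eq_zero]
    exact (hM _).2 ⟨u, rfl⟩
  have h4 := Submodule.finrank_quotient_add_finrank M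
  have h5 : finrank ℤ (LinearMap.ker (σ.restrict hσ - LinearMap.id)) ≤
      finrank ℤ (LinearMap.ker (σ - LinearMap.id)) := by
    rw [← Submodule.finrank_map_subtype_eq M]
    refine Submodule.finrank_mono ?_
    rintro _ ⟨m, hm, rfl⟩
    exact congrArg Subtype.val hm
  omega

theorem no_unram (K N : Type) [Field K] [NumberField K] [Field N] [NumberField N] [Algebra K N]
    [IsGalois K N] (hN : finrank K N = 3) (hw : ∀ x : N, x ^ 3 = 1 → x = 1) (σ : N ≃ₐ[K] N) (hσ : σ ≠ 1)
    (hU : ∀ P : Ideal (𝓞 N), P.IsPrime → P ≠ ⊥ →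
      ∃ x y : 𝓞 N, (y : N) = σ (x : N) ∧ y - x ∉ P)
    (T : Finset (HeightOneSpectrum (𝓞 K))) (hT : Sat T)
    (hS : ∀ q ∈ T, ∃ P : Ideal (𝓞 N), P.IsPrime ∧ P.LiesOver q.asIdeal ∧
      ∃ x y : 𝓞 N, (y : N) = σ (x : N) ∧ x ∈ P ∧ y ∉ P) : False := by
  obtain ⟨S, hST⟩ := exists_S (N := N) T
  have hc : Nat.card (N ≃ₐ[K] N) = 3 := by rw [IsGalois.card_aut_eq_finrank, hN]
  have h3 : σ * σ * σ = 1 := by
    rw [← pow_three', ← hc]
    exact pow_card_eq_one'
  have hcard := card_S σ h3 T S hST hS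
  obtain ⟨k, j, hk0, hkj, hk⟩ := exists_exponent N hw
  obtain ⟨hfN, hrN⟩ := sunit_rank N S
  obtain ⟨hfK, hrK⟩ := sunit_rank K T
  set G := (S : Set (HeightOneSpectrum (𝓞 N))).unit N with hG
  set H := (T : Set (HeightOneSpectrum (𝓞 K))).unit K with hH
  let s0 : G →* G := ((Units.map (σ : N →* N)).comp G.subtype).codRestrict G
    fun u => map_mem σ T S hST u u.2
  let s : Additive G →ₗ[ℤ] Additive G := (MonoidHom.toAdditive s0).toIntLinearMap
  let val : Additive G → N := fun u => ((Additive.toMul u : G) : Nˣ)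
  have val_inj : ∀ u v, val u = val v → u = v := fun u v h =>
    Additive.toMul.injective (Subtype.ext (Units.ext h))
  have val_s : ∀ u, val (s u) = σ (val u) := fun u => rfl
  have val_add : ∀ u v, val (u + v) = val u * val v := fun u v => rfl
  have val_zero : val 0 = 1 := rfl
  have val_nsmul : ∀ (n : ℕ) u, val (n • u) = val u ^ n := by
    intro n u
    induction n with
    | zero => rw [zero_smul, pow_zero, val_zero]
    | succ n ih => rw [succ_nsmul, val_add, ih, pow_succ]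
  have s3 : ∀ u, s (s (s u)) = u := fun u => val_inj _ _ (by
    rw [val_s, val_s, val_s]
    exact congrArg (fun g : N ≃ₐ[K] N => g (val u)) h3)
  have h1 := core s k (by exact_mod_cast hk0) s3
    (by
      intro n u hn hu
      apply val_inj
      rw [natCast_zsmul, val_nsmul, val_zero]
      refine hk _ n.natAbs (Int.natAbs_ne_zero.2 hn) ?_
      rw [← val_nsmul, natAbs_nsmul_eq_zero.2 hu, val_zero])
    (by
      intro u hu
      set z := u + s u + s (s u) with hz
      have hsz : s z = z := by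
        rw [hz, map_add, map_add, s3]
        abel
      obtain ⟨c, hc⟩ := hkj
      have h2 : (u + j • z) + s (u + j • z) + s (s (u + j • z)) = 0 := by
        have h4 : ((3 * j + 1 : ℕ) : ℤ) • z = 0 := by
          rw [hc, Nat.cast_mul, mul_comm, mul_smul, hu, smul_zero]
        rw [← h4, natCast_zsmul]
        simp only [map_add, map_nsmul, hsz, add_smul, mul_smul, one_smul]
        rw [hz]
        abel
      have h4 := congrArg val h2
      rw [val_zero, val_add, val_add, val_s, val_s, val_s] at h4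
      obtain ⟨y, hy, hy1⟩ := h90_unit K N hN σ hσ hU T hT S (fun P => by
        rw [Finset.mem_coe, hST]
        constructor
        · intro h
          exact ⟨_, h, (liesOver_iff P _).2 rfl⟩
        · rintro ⟨q, hq, hl⟩
          rw [(liesOver_iff P q).1 hl]
          exact hq) _ (Additive.toMul (u + j • z)).2 h4
      refine ⟨Additive.ofMul ⟨y, hy⟩, ?_⟩
      have h5 : u + j • z + Additive.ofMul ⟨y, hy⟩ = s (Additive.ofMul ⟨y, hy⟩) :=
        val_inj _ _ (by rw [val_add, val_s]; exact hy1)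
      rw [← h5, add_sub_cancel_right, zsmul_add, ← natCast_zsmul z j, ← mul_zsmul, mul_comm,
        mul_zsmul, hu, zsmul_zero, add_zero])
  have h5 : finrank ℤ (LinearMap.ker (s - LinearMap.id)) ≤ finrank ℤ (Additive H) := by
    let j : LinearMap.ker (s - LinearMap.id) →ₗ[ℤ] Additive Nˣ :=
      (MonoidHom.toAdditive G.subtype).toIntLinearMap.comp (Submodule.subtype _)
    let ι : Additive H →ₗ[ℤ] Additive Nˣ :=
      (MonoidHom.toAdditive
        ((Units.map (algebraMap K N : K →* N)).comp H.subtype)).toIntLinearMap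
    have hj : Function.Injective j := by
      intro a b hab
      exact Subtype.ext (val_inj _ _ (congrArg (fun x : Additive Nˣ => ((Additive.toMul x : Nˣ) : N))
        hab))
    rw [← LinearMap.finrank_range_of_inj hj]
    refine le_trans (Submodule.finrank_mono ?_) (LinearMap.finrank_range_le ι)
    rintro _ ⟨a, rfl⟩
    have ha : s a = a := sub_eq_zero.1 a.2
    obtain ⟨b, hb⟩ := fixed_mem hN σ hσ (val a) (by rw [← val_s, ha])
    have hb0 : b ≠ 0 := by
      rintro rfl
      rw [map_zero] at hb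
      exact ((Additive.toMul (a : Additive G) : G) : Nˣ).ne_zero hb.symm
    have he : Units.map (algebraMap K N : K →* N) (Units.mk0 b hb0) =
        ((Additive.toMul (a : Additive G) : G) : Nˣ) := Units.ext hb
    refine ⟨Additive.ofMul ⟨Units.mk0 b hb0, unit_of_map T S hST _ ?_⟩, ?_⟩
    · rw [he]
      exact (Additive.toMul (a : Additive G)).2
    · exact congrArg Additive.ofMul he
  have : IsUnramifiedAtInfinitePlaces K N :=
    IsUnramifiedAtInfinitePlaces_of_odd_finrank (by rw [hN]; decide)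
  have h6 := IsUnramifiedAtInfinitePlaces.card_infinitePlace K N
  have h7 : 0 < Fintype.card (InfinitePlace K) := Fintype.card_pos
  rw [hN] at h6
  rw [hrN] at h1
  rw [hrK] at h5
  simp only [Units.rank] at h1 h5
  omega

end Pool.Agent.Lib.MP_af4c59_nt.H59
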