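import Pool.Agent.Lib.MP_af4c59_nt.H88Orb

/-!
The bound for the number of extensions of given degree and bounded discriminant whose embeddings
have a colouring that is preserved by no nontrivial element of the Galois group.
-/

namespace Pool.Agent.Lib.MP_af4c59_nt.H88

open MvPolynomial Module NumberField Pool.Agent.Lib.MP_af4c59_nt.H11
open scoped IntermediateField

theorem count_data (K : Type) [Field K] [NumberField K] (n : ℕ) (hn : 2 ≤ n) (r : ℕ) (hr1 : 0 < r)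
    (Γ : Subgroup (Equiv.Perm ((K →ₐ[ℚ] AlgebraicClosure K) × Fin n)))
    (col : (K →ₐ[ℚ] AlgebraicClosure K) × Fin n → Fin r → Bool)
    (hcol : ∀ π ∈ Γ, (∀ i, (π i).1 = i.1) → (∀ i, col (π i) = col i) → π = 1) :
    ∃ c : ℕ, ∀ ρ : ℕ, 1 ≤ ρ → ∀ S : Finset (IntermediateField K (AlgebraicClosure K)),
      (∀ L ∈ S, finrank K L = n ∧ ∃ _ : NumberField L,
        5 ^ (finrank ℚ K * n) * (discr L).natAbs < ρ ^ (finrank ℚ K * n) ∧
        ∃ e : (K →ₐ[ℚ] AlgebraicClosure K) × Fin n ≃ (L →ₐ[ℚ] AlgebraicClosure K),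
          (∀ i a, e i (algebraMap K L a) = i.1 a) ∧
          ∀ g : AlgebraicClosure K ≃ₐ[ℚ] AlgebraicClosure K, ∃ π ∈ Γ,
            ∀ i a, e (π i) a = g (e i a)) →
      S.card ≤ c * (ρ ^ (finrank ℚ K * n)) ^ (532 * r) := by
  classical
  set Ω := AlgebraicClosure K with hΩ
  have : Algebra.IsAlgebraic ℚ Ω := Algebra.IsAlgebraic.trans ℚ K Ω
  have : IsAlgClosure ℚ Ω := ⟨inferInstance, inferInstance⟩
  have : IsGalois ℚ Ω := IsAlgClosure.isGalois ℚ Ω
  let ε : Ω →+* ℂ := (IsAlgClosed.lift : Ω →ₐ[ℚ] ℂ).toRingHom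
  set dd := finrank ℚ K * n with hdd
  have hdd1 : 0 < dd := Nat.mul_pos finrank_pos (by omega)
  let E := K →ₐ[ℚ] Ω
  let I := E × Fin n
  have hI : Fintype.card I = dd := by simp [I, E, hdd]
  set N := dd * r with hN
  have hN1 : 0 < N := Nat.mul_pos hdd1 hr1
  obtain ⟨θ, hθ1, hθ2⟩ := exists_gen (L := K) (Ω := Ω)
  let z : E → Ω := fun τ => τ θ
  obtain ⟨U, hU⟩ := exists_sep (ν := Fin n) z hθ2
  let l0 : Fin r := ⟨0, hr1⟩
  obtain ⟨Θ, hΘ0, hΘ⟩ := exists_theta (Ω := Ω) (E := E) (ν := Fin n) (σ := Fin r) Γ col hcol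
    l0 (16 * N)
  obtain ⟨cθ, hc1, hc2⟩ : ∃ c : ℕ, 2 ≤ c ∧ ∀ τ, ‖ε (z τ)‖ ≤ c := by
    obtain ⟨c, hc⟩ := exists_nat_ge (∑ τ, ‖ε (z τ)‖)
    refine ⟨c + 2, by omega, fun τ => ?_⟩
    have := Finset.single_le_sum (f := fun τ => ‖ε (z τ)‖) (fun _ _ => norm_nonneg _)
      (Finset.mem_univ τ)
    push_cast
    linarith
  let d : Setup (I ⊕ I × Fin r) (Deg I U.totalDegree × Deg (I × Fin r) (33 * N)) Ω :=
    ⟨ε, kz I (Fin r), fam Γ (Fin r) U.totalDegree (33 * N), 33 * N, 16 * N,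
      Nat.card Γ * cθ ^ U.totalDegree⟩
  have hK0 : d.K0ᶜ.card = N := by
    simp [d, kz, Finset.card_compl, hI, hN]
  obtain ⟨c, hc⟩ := d.count (by show 1 ≤ 16 * N; omega) (by rw [hK0])
  set c1 := cθ + dd * Θ.totalDegree * 4 with hc1def
  refine ⟨dd * (c * c1 ^ (266 * N)), fun ρ hρ S hS => ?_⟩
  set H := c1 * ρ ^ 2 with hH
  have hρ2 : 1 ≤ ρ ^ 2 := Nat.one_le_pow _ _ hρ
  have hcH : cθ ≤ H := le_trans (by omega) (Nat.le_mul_of_pos_right c1 hρ2)
  have hpt : ∀ L ∈ S, ∃ x : I ⊕ I × Fin r → Ω, (∀ i, x (Sum.inl i) = z i.1) ∧ d.Gd H x ∧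
      ∃ i, K⟮x (Sum.inr (i, l0))⟯ = L := by
    intro L hL
    obtain ⟨h1, _, h2, e, he, hΓ⟩ := hS L hL
    have hfr : finrank ℚ L = dd := by rw [hdd, ← h1, finrank_mul_finrank]
    obtain ⟨α, hα1, hα2⟩ := exists_good e e.injective (R := 4 * ρ ^ 2) (by positivity)
      (span_short (by rwa [hfr])) hΘ0
    obtain ⟨h3, h4⟩ := hΘ _ hα2
    let x : I ⊕ I × Fin r → Ω := Sum.elim (fun i => z i.1) fun p => e p.1 (α p.2)
    have hx1 : ∀ v, IsIntegral ℤ (x v) := by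
      rintro (i | p)
      · exact hθ1.map (i.1 : K →ₐ[ℚ] Ω).toRingHom.toIntAlgHom
      · exact (hα1 p.2).1.map (e p.1).toRingHom.toIntAlgHom
    have hx2 : ∀ p, ‖ε (x (Sum.inr p))‖ ≤ H := by
      intro p
      refine ((hα1 p.2).2 (ε.comp (e p.1).toRingHom)).trans ?_
      rw [hfr]
      have : dd * Θ.totalDegree * (4 * ρ ^ 2) ≤ H := by
        rw [hH, ← mul_assoc]; exact Nat.mul_le_mul_right _ (by omega)
      exact_mod_cast this
    have hx3 : ∀ g : Ω ≃ₐ[ℚ] Ω, ∃ π ∈ Γ,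
        (∀ i, g (x (Sum.inl i)) = x (Sum.inl (π i))) ∧
        ∀ i l, g (x (Sum.inr (i, l))) = x (Sum.inr (π i, l)) := by
      intro g
      obtain ⟨π, hπ0, hπ⟩ := hΓ g
      refine ⟨π, hπ0, fun i => ?_, fun i l => (hπ i _).symm⟩
      show g (i.1 θ) = (π i).1 θ
      rw [← he, ← he, hπ]
    refine ⟨x, fun _ => rfl, ⟨⟨hx1, ?_, fun g => ?_⟩, fun a => ?_, fun P => ?_⟩,
      e.symm (L.val.restrictScalars ℚ), ?_⟩
    · rintro (i | p)
      · exact (hc2 i.1).trans (by exact_mod_cast hcH)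
      · exact hx2 p
    · obtain ⟨π, -, h5, h6⟩ := hx3 g
      refine ⟨Equiv.sumCongr π (Equiv.prodCongr π (Equiv.refl _)), ?_⟩
      rintro (i | ⟨i, l⟩)
      · exact h5 i
      · exact h6 i l
    · exact fam_int Γ ε (by omega) (by omega) x hx1 (fun i => hc2 i.1) hx2 hx3 a
    · exact span_jets Γ hU x (fun _ => rfl) (j := 16 * N)
        (by rw [Fintype.card_prod, hI, Fintype.card_fin]; omega) h3 P
    · have : Module.Finite K L := Module.Finite.of_restrictScalars_finite ℚ K L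
      have h5 : K⟮α l0⟯ = ⊤ := by
        rw [Field.primitive_element_iff_algHom_eq_of_eval' K Ω (fun _ => IsAlgClosed.splits _)]
        intro φ ψ h
        apply AlgHom.restrictScalars_injective ℚ
        apply e.symm.injective
        apply h4
        simpa using h
      have h6 := congrArg IntermediateField.lift h5
      rw [IntermediateField.lift_adjoin_simple, IntermediateField.lift_top] at h6
      refine Eq.trans ?_ h6
      simp [x]
  choose! x hx1 hx2 hx3 using hpt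
  have h1 := card_le_of_cover S (Finset.univ : Finset I)
    (fun L i => K⟮x L (Sum.inr (i, l0))⟯ = L) (c * H ^ (266 * N))
    (fun L hL => (hx3 L hL).imp fun i hi => ⟨Finset.mem_univ _, hi⟩) (by
      intro i _ S' hS'
      have hinj : Set.InjOn x S' := by
        intro L hL L' hL' h
        rw [← (hS' L hL).2, ← (hS' L' hL').2, h]
      rw [← Finset.card_image_of_injOn hinj]
      have h2 := hc H (by omega) (S'.image x) (by
        intro y hy
        obtain ⟨L, hL, rfl⟩ := Finset.mem_image.mp hy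
        exact hx2 L (hS' L hL).1) (by
        intro u hu y hy y' hy'
        obtain ⟨L, hL, rfl⟩ := Finset.mem_image.mp hy
        obtain ⟨L', hL', rfl⟩ := Finset.mem_image.mp hy'
        obtain ⟨i', -, rfl⟩ := Finset.mem_map.mp hu
        exact (hx1 L (hS' L hL).1 i').trans (hx1 L' (hS' L' hL').1 i').symm)
      rw [hK0] at h2
      convert h2 using 3
      show 266 * N = 8 * (33 * N) + 2 * N
      ring)
  refine h1.trans (le_of_eq ?_)
  rw [Finset.card_univ, hI, hH, mul_pow, ← pow_mul, ← pow_mul, hN]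
  ring

theorem exists_data {K : Type} [Field K] [NumberField K] {n r : ℕ}
    (L : IntermediateField K (AlgebraicClosure K)) [NumberField L] (hL : finrank K L = n)
    (χ : (L →ₐ[K] AlgebraicClosure K) → Fin r → Bool)
    (hχ : ∀ σ : AlgebraicClosure K ≃ₐ[K] AlgebraicClosure K,
      (∀ φ, χ (σ.toAlgHom.comp φ) = χ φ) → ∀ φ : L →ₐ[K] AlgebraicClosure K,
        σ.toAlgHom.comp φ = φ) :
    ∃ (Γ : Subgroup (Equiv.Perm ((K →ₐ[ℚ] AlgebraicClosure K) × Fin n)))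
      (col : (K →ₐ[ℚ] AlgebraicClosure K) × Fin n → Fin r → Bool),
      (∀ π ∈ Γ, (∀ i, (π i).1 = i.1) → (∀ i, col (π i) = col i) → π = 1) ∧
      ∃ e : (K →ₐ[ℚ] AlgebraicClosure K) × Fin n ≃ (L →ₐ[ℚ] AlgebraicClosure K),
        (∀ i a, e i (algebraMap K L a) = i.1 a) ∧
        ∀ g : AlgebraicClosure K ≃ₐ[ℚ] AlgebraicClosure K, ∃ π ∈ Γ,
          ∀ i a, e (π i) a = g (e i a) := by
  set Ω := AlgebraicClosure K with hΩ
  have : Algebra.IsAlgebraic ℚ Ω := Algebra.IsAlgebraic.trans ℚ K Ω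
  have : IsAlgClosure ℚ Ω := ⟨inferInstance, inferInstance⟩
  have : IsGalois ℚ Ω := IsAlgClosure.isGalois ℚ Ω
  obtain ⟨e, he⟩ := exists_index (Ω := Ω) hL
  have hs : ∀ τ : K →ₐ[ℚ] Ω, ∃ s : Ω ≃ₐ[ℚ] Ω, ∀ a, s (algebraMap K Ω a) = τ a := fun τ =>
    ⟨AlgEquiv.ofBijective (τ.liftNormal Ω) (AlgHom.normal_bijective ℚ Ω Ω _), fun a => by
      simpa using τ.liftNormal_commutes Ω a⟩
  choose s hs using hs
  let Γ : Subgroup (Equiv.Perm ((K →ₐ[ℚ] Ω) × Fin n)) :=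
    { carrier := {π | ∃ g : Ω ≃ₐ[ℚ] Ω, ∀ i a, e (π i) a = g (e i a)}
      one_mem' := ⟨1, fun _ _ => rfl⟩
      mul_mem' := by
        rintro π π' ⟨g, hg⟩ ⟨g', hg'⟩
        exact ⟨g * g', fun i a => by rw [Equiv.Perm.mul_apply, hg, hg']; rfl⟩
      inv_mem' := by
        rintro π ⟨g, hg⟩
        refine ⟨g.symm, fun i a => ?_⟩
        have := hg (π⁻¹ i) a
        rw [show π (π⁻¹ i) = i by simp] at this
        rw [this, AlgEquiv.symm_apply_apply] }
  let ph : (K →ₐ[ℚ] Ω) × Fin n → (L →ₐ[K] Ω) := fun i =>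
    { ((s i.1).symm.toAlgHom.comp (e i)).toRingHom with
      commutes' := fun a => by
        show (s i.1).symm (e i (algebraMap K L a)) = algebraMap K Ω a
        rw [he, ← hs, AlgEquiv.symm_apply_apply] }
  have hph : ∀ i a, ph i a = (s i.1).symm (e i a) := fun _ _ => rfl
  refine ⟨Γ, fun i => χ (ph i), ?_, e, he, fun g => ?_⟩
  · rintro π ⟨g, hg⟩ h1 h2
    refine Equiv.ext fun i0 => ?_
    have hg0 : ∀ a, g (i0.1 a) = i0.1 a := fun a => by rw [← he, ← hg, he, h1, he]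
    let σ : Ω ≃ₐ[K] Ω :=
      { (((s i0.1).trans g).trans (s i0.1).symm).toRingEquiv with
        commutes' := fun a => by
          show (s i0.1).symm (g (s i0.1 (algebraMap K Ω a))) = algebraMap K Ω a
          rw [hs, hg0, ← hs, AlgEquiv.symm_apply_apply] }
    have hσ : ∀ a, σ a = (s i0.1).symm (g (s i0.1 a)) := fun _ => rfl
    have h3 := hχ σ (fun φ => by
      obtain ⟨i, hi⟩ := e.surjective ((s i0.1).toAlgHom.comp (φ.restrictScalars ℚ))
      have h4 : ∀ a, e i a = s i0.1 (φ a) := fun a => by rw [hi]; rfl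
      have h5 : i.1 = i0.1 := AlgHom.ext fun a => by rw [← he, h4, φ.commutes, hs]
      have h6 : ph i = φ := AlgHom.ext fun a => by
        rw [hph, h4, h5, AlgEquiv.symm_apply_apply]
      have h7 : ph (π i) = σ.toAlgHom.comp φ := AlgHom.ext fun a => by
        rw [hph, hg, h4, h1, h5]; rfl
      rw [← h7, ← h6]
      exact h2 i) (ph i0)
    apply e.injective
    refine AlgHom.ext fun a => ?_
    have h8 : σ (ph i0 a) = ph i0 a := DFunLike.congr_fun h3 a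
    rw [hσ, hph, AlgEquiv.apply_symm_apply] at h8
    rw [hg]
    exact (s i0.1).symm.injective h8
  · let π : Equiv.Perm ((K →ₐ[ℚ] Ω) × Fin n) :=
      (e.trans (AlgEquiv.arrowCongr AlgEquiv.refl g)).trans e.symm
    have hπ : ∀ i a, e (π i) a = g (e i a) := by intro i a; simp [π]
    exact ⟨π, ⟨g, hπ⟩, hπ⟩

theorem count_fields (K : Type) [Field K] [NumberField K] (n : ℕ) (hn : 2 ≤ n) (r : ℕ)
    (hr1 : 0 < r) :
    ∃ c : ℕ, ∀ ρ : ℕ, 1 ≤ ρ → ∀ S : Finset (IntermediateField K (AlgebraicClosure K)),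
      (∀ L ∈ S, finrank K L = n ∧
        (∃ χ : (L →ₐ[K] AlgebraicClosure K) → Fin r → Bool,
          ∀ σ : AlgebraicClosure K ≃ₐ[K] AlgebraicClosure K,
            (∀ φ, χ (σ.toAlgHom.comp φ) = χ φ) → ∀ φ : L →ₐ[K] AlgebraicClosure K,
              σ.toAlgHom.comp φ = φ) ∧ ∃ _ : NumberField L,
        5 ^ (finrank ℚ K * n) * (discr L).natAbs < ρ ^ (finrank ℚ K * n)) →
      S.card ≤ c * (ρ ^ (finrank ℚ K * n)) ^ (532 * r) := by
  classical
  let I := (K →ₐ[ℚ] AlgebraicClosure K) × Fin n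
  let D := {p : Subgroup (Equiv.Perm I) × (I → Fin r → Bool) //
    ∀ π ∈ p.1, (∀ i, (π i).1 = i.1) → (∀ i, p.2 (π i) = p.2 i) → π = 1}
  have : Fintype D := Fintype.ofFinite D
  choose c hc using fun p : D => count_data K n hn r hr1 p.1.1 p.1.2 p.2
  refine ⟨Fintype.card D * Finset.univ.sup c, fun ρ hρ S hS => ?_⟩
  rw [mul_assoc]
  refine card_le_of_cover S (Finset.univ : Finset D) (fun L p => finrank K L = n ∧
    ∃ _ : NumberField L, 5 ^ (finrank ℚ K * n) * (discr L).natAbs < ρ ^ (finrank ℚ K * n) ∧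
      ∃ e : (K →ₐ[ℚ] AlgebraicClosure K) × Fin n ≃ (L →ₐ[ℚ] AlgebraicClosure K),
        (∀ i a, e i (algebraMap K L a) = i.1 a) ∧
        ∀ g : AlgebraicClosure K ≃ₐ[ℚ] AlgebraicClosure K, ∃ π ∈ p.1.1,
          ∀ i a, e (π i) a = g (e i a)) _ (fun L hL => ?_) fun p _ S' hS' => ?_
  · obtain ⟨h1, ⟨χ, hχ⟩, inst, h2⟩ := hS L hL
    obtain ⟨Γ, col, h3, h4⟩ := exists_data L h1 χ hχ
    exact ⟨⟨(Γ, col), h3⟩, Finset.mem_univ _, h1, inst, h2, h4⟩
  · exact (hc p ρ hρ S' fun L hL => (hS' L hL).2).trans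
      (Nat.mul_le_mul_right _ (Finset.le_sup (f := c) (Finset.mem_univ p)))

end Pool.Agent.Lib.MP_af4c59_nt.H88
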