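import Pool.Agent.Lib.MP_af4c59_nt.H11Good

/-!
Invariants of a subgroup of the symmetric group span all jets at generic points, in low degree,
as soon as some point of the discrete cube has trivial stabiliser.
-/

namespace Pool.Agent.Lib.MP_af4c59_nt.H88

open MvPolynomial Pool.Agent.Lib.MP_af4c59_nt.H11

section gen

variable {σ Ω : Type} [Fintype σ] [Field Ω]

lemma generic_at {n : Type} [Fintype n] (c : n → σ → Ω) (hc : Function.Injective c)
    (h01 : ∀ i l, c i l = 0 ∨ c i l = 1) (k : ℕ) :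
    ∃ Θ : MvPolynomial (n × σ) Ω, eval (fun p => c p.1 p.2) Θ ≠ 0 ∧
      ∀ y, eval y Θ ≠ 0 → Itp y k := by
  classical
  let J := {β : σ →₀ ℕ // β.degree ≤ k}
  have : Finite J := (Finsupp.finite_of_degree_le k).to_subtype
  have : Fintype J := Fintype.ofFinite J
  choose g hg1 hg2 using fun p : n × J => cube_interp c hc h01 k
    fun i => if i = p.1 then sh (-c i) (monomial p.2.1 (1 : Ω)) else 0
  let B : ∀ (R : Type) [CommRing R] [Algebra Ω R], (n × σ → R) → Matrix (n × J) (n × J) R :=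
    fun R _ _ y => Matrix.of fun p p' => (sh (fun l => y (p'.1, l)) (g p)).coeff p'.2.1
  have hB : ∀ y : n × σ → Ω, eval y (B _ X).det = (B Ω y).det := by
    intro y
    rw [RingHom.map_det]
    congr 1
    refine Matrix.ext fun p p' => ?_
    have := map_sh (aeval y : MvPolynomial (n × σ) Ω →ₐ[Ω] Ω) (fun l => X (p'.1, l)) (g p)
    simp only [aeval_X] at this
    simp only [B, RingHom.mapMatrix_apply, Matrix.map_apply, Matrix.of_apply]
    rw [← this, coeff_map]; rfl
  refine ⟨(B _ X).det, fun h0 => ?_, fun y hy q => ?_⟩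
  · have h1 := hB fun p => c p.1 p.2
    have h2 : B Ω (fun p => c p.1 p.2) = 1 := by
      refine Matrix.ext fun p p' => ?_
      have h3 := (mem_pow_iff_sh _ _ _).mp (hg2 p p'.1) p'.2.1 (Nat.lt_succ_of_le p'.2.2)
      rw [map_sub, coeff_sub, sub_eq_zero] at h3
      simp only [B, Matrix.of_apply]
      refine h3.trans ?_
      rw [Matrix.one_apply]
      by_cases h : p'.1 = p.1
      · rw [if_pos h, sh_neg_sh, coeff_monomial]
        by_cases h' : p.2 = p'.2
        · rw [if_pos (by rw [h']), if_pos (Prod.ext h.symm h')]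
        · rw [if_neg (fun e => h' (Subtype.ext e)), if_neg (fun e => h' (by rw [e]))]
      · rw [if_neg h, if_neg (fun e => h (by rw [e]))]; simp
    rw [h0, h2] at h1
    simp at h1
  · rw [hB] at hy
    let t : n × J → Ω := fun p => (sh (fun l => y (p.1, l)) (q p.1)).coeff p.2.1
    let a := Matrix.vecMul t (B Ω y)⁻¹
    have ha : Matrix.vecMul a (B Ω y) = t := by
      rw [Matrix.vecMul_vecMul, Matrix.nonsing_inv_mul _ (isUnit_iff_ne_zero.mpr hy),
        Matrix.vecMul_one]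
    refine ⟨∑ p, a p • g p, ?_, fun i => ?_⟩
    · exact (totalDegree_finsetSum _ _).trans
        (Finset.sup_le fun p _ => (totalDegree_smul_le _ _).trans (hg1 p))
    · rw [mem_pow_iff_sh]
      intro β hβ
      have := congrFun ha (i, ⟨β, Nat.le_of_lt_succ hβ⟩)
      rw [map_sub, coeff_sub, sub_eq_zero, map_sum, coeff_sum]
      simp only [map_smul, coeff_smul, smul_eq_mul]
      exact this

end gen

section rey

variable {I σ : Type} [Fintype I] [DecidableEq I]

open Classical in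
/-- Sum over a subgroup of a product of polynomials in the two groups of variables. -/
noncomputable def rey (Γ : Subgroup (Equiv.Perm I)) {R : Type} [CommRing R] (U : MvPolynomial I R)
    (V : MvPolynomial (I × σ) R) : MvPolynomial (I ⊕ I × σ) R :=
  ∑ π : Γ, rename (fun i => Sum.inl (π.1 i)) U
    * rename (fun p : I × σ => Sum.inr (π.1 p.1, p.2)) V

lemma map_rey (Γ : Subgroup (Equiv.Perm I)) {R S : Type} [CommRing R] [CommRing S] (φ : R →+* S)
    (U : MvPolynomial I R) (V : MvPolynomial (I × σ) R) :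
    map φ (rey Γ U V) = rey Γ (map φ U) (map φ V) := by
  simp only [rey, map_sum, map_mul, map_rename]

/-- The orbit sums of monomials. -/
noncomputable def fam {I : Type} [Fintype I] [DecidableEq I] (Γ : Subgroup (Equiv.Perm I))
    (σ : Type) (T' T : ℕ) (a : Deg I T' × Deg (I × σ) T) : MvPolynomial (I ⊕ I × σ) ℤ :=
  rey Γ (monomial a.1.1 1) (monomial a.2.1 1)

lemma rey_mem_span (Γ : Subgroup (Equiv.Perm I)) {Ω : Type} [Field Ω] {T' T : ℕ}
    {U : MvPolynomial I Ω}
    {V : MvPolynomial (I × σ) Ω} (hU : U.totalDegree ≤ T') (hV : V.totalDegree ≤ T) :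
    rey Γ U V ∈ Submodule.span Ω (Set.range fun a => mp Ω (fam Γ σ T' T a)) := by
  have h : rey Γ U V = ∑ ν ∈ U.support, ∑ μ ∈ V.support,
      (U.coeff ν * V.coeff μ) • rey Γ (monomial ν (1 : Ω)) (monomial μ (1 : Ω)) := by
    conv_lhs => rw [U.as_sum, V.as_sum]
    simp only [rey, map_sum, Finset.sum_mul_sum, Finset.smul_sum]
    rw [Finset.sum_comm]
    refine Finset.sum_congr rfl fun ν _ => ?_
    rw [Finset.sum_comm]
    refine Finset.sum_congr rfl fun μ _ => Finset.sum_congr rfl fun π _ => ?_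
    rw [← smul_mul_smul_comm, ← map_smul, ← map_smul (rename _), smul_monomial, smul_monomial]
    simp
  rw [h]
  refine Submodule.sum_mem _ fun ν hν => Submodule.sum_mem _ fun μ hμ =>
    Submodule.smul_mem _ _ (Submodule.subset_span
      ⟨(⟨ν, (le_totalDegree hν).trans hU⟩, ⟨μ, (le_totalDegree hμ).trans hV⟩), ?_⟩)
  simp [fam, map_rey, map_monomial]

open Classical in
lemma aeval_rey (Γ : Subgroup (Equiv.Perm I)) {S : Type} [CommRing S] (x : I ⊕ I × σ → S)
    (U : MvPolynomial I ℤ)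
    (V : MvPolynomial (I × σ) ℤ) : aeval x (rey Γ U V) = ∑ π : Γ,
      aeval (fun i => x (Sum.inl (π.1 i))) U
        * aeval (fun p : I × σ => x (Sum.inr (π.1 p.1, p.2))) V := by
  simp only [rey, map_sum, map_mul, aeval_rename]; rfl

lemma fam_int (Γ : Subgroup (Equiv.Perm I)) {Ω : Type} [Field Ω] [CharZero Ω] [IsGalois ℚ Ω]
    (ε : Ω →+* ℂ) {H c T' T : ℕ}
    (hH : 1 ≤ H) (hc : 1 ≤ c) (x : I ⊕ I × σ → Ω) (h1 : ∀ v, IsIntegral ℤ (x v))
    (h2 : ∀ i, ‖ε (x (Sum.inl i))‖ ≤ c) (h3 : ∀ p, ‖ε (x (Sum.inr p))‖ ≤ H)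
    (h4 : ∀ g : Ω ≃ₐ[ℚ] Ω, ∃ π ∈ Γ, (∀ i, g (x (Sum.inl i)) = x (Sum.inl (π i))) ∧
      ∀ i l, g (x (Sum.inr (i, l))) = x (Sum.inr (π i, l))) (a : Deg I T' × Deg (I × σ) T) :
    ∃ n : ℤ, (n : Ω) = aeval x (fam Γ σ T' T a) ∧
      n.natAbs ≤ (Nat.card Γ * c ^ T') * H ^ T := by
  classical
  obtain ⟨n, hn⟩ := int_of_fixed (isIntegral_aeval h1 (fam Γ σ T' T a)) (by
    intro g
    obtain ⟨π', hπ', h5, h6⟩ := h4 g
    rw [fam, aeval_rey, map_sum]
    conv_rhs => rw [← Equiv.sum_comp (Equiv.mulLeft (⟨π', hπ'⟩ : Γ))]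
    refine Finset.sum_congr rfl fun π _ => ?_
    have e1 := ringHom_aeval (g : Ω →+* Ω) (fun i => x (Sum.inl (π.1 i))) (monomial a.1.1 1)
    have e2 := ringHom_aeval (g : Ω →+* Ω) (fun p : I × σ => x (Sum.inr (π.1 p.1, p.2)))
      (monomial a.2.1 1)
    simp only [RingHom.coe_coe, h5, h6] at e1 e2
    rw [map_mul, e1, e2]; rfl)
  refine ⟨n, hn, natAbs_le_of_norm ε ?_⟩
  rw [hn, fam, aeval_rey, map_sum]
  refine (norm_sum_le _ _).trans ((Finset.sum_le_card_nsmul _ _ ((c : ℝ) ^ T' * (H : ℝ) ^ T)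
    fun π _ => ?_).trans (le_of_eq ?_))
  · rw [map_mul, norm_mul, ringHom_aeval, ringHom_aeval]
    exact mul_le_mul
      (norm_aeval_monomial _ _ (by exact_mod_cast hc) (fun i => h2 _) _ a.1.2)
      (norm_aeval_monomial _ _ (by exact_mod_cast hH) (fun p => h3 _) _ a.2.2)
      (norm_nonneg _) (by positivity)
  · simp [mul_assoc]

end rey

variable {E ν σ Ω : Type} [Fintype E] [DecidableEq E] [Fintype ν] [DecidableEq ν] [Fintype σ]
  [Field Ω]

/-- The elements of the group that keep the first coordinate. -/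
abbrev Vert (Γ : Subgroup (Equiv.Perm (E × ν))) : Type := {π : Γ // ∀ i, (π.1 i).1 = i.1}

theorem span_jets (Γ : Subgroup (Equiv.Perm (E × ν))) {z : E → Ω} {U : MvPolynomial (E × ν) Ω}
    (hU : ∀ b : E × ν → E, eval (fun i => z (b i)) U = if ∀ i, b i = i.1 then 1 else 0)
    (x : (E × ν) ⊕ (E × ν) × σ → Ω) (hx : ∀ i, x (Sum.inl i) = z i.1) {j T : ℕ}
    (hT : 2 * j + Fintype.card ((E × ν) × σ) ≤ T)
    (hI : Itp (fun q : Vert Γ × ((E × ν) × σ) => x (Sum.inr (q.1.1.1 q.2.1, q.2.2))) j)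
    (P : MvPolynomial ((E × ν) ⊕ (E × ν) × σ) Ω) :
    ∃ Q ∈ Submodule.span Ω (Set.range fun a => mp Ω (fam Γ σ U.totalDegree T a)),
      P - Q ∈ eqI (fun u => X u) (kz (E × ν) σ) x ⊔ mx x ^ (j + 1) := by
  classical
  set N := eqI (fun u => (X u : MvPolynomial _ Ω)) (kz (E × ν) σ) x with hN
  have hXN : ∀ i, X (Sum.inl i) - C (x (Sum.inl i)) ∈ N := fun i =>
    Ideal.subset_span ⟨Sum.inl i, by simp [kz], by simp⟩
  obtain ⟨P0, hP0⟩ : ∃ P0 : MvPolynomial ((E × ν) × σ) Ω, P - rename Sum.inr P0 ∈ N := by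
    induction P using MvPolynomial.induction_on with
    | C a => exact ⟨C a, by simp⟩
    | add p q hp hq =>
      obtain ⟨p0, hp⟩ := hp
      obtain ⟨q0, hq⟩ := hq
      refine ⟨p0 + q0, ?_⟩
      have := add_mem hp hq
      convert this using 1
      rw [map_add]; ring
    | mul_X p v hp =>
      obtain ⟨p0, hp⟩ := hp
      rcases v with i | w
      · refine ⟨p0 * C (x (Sum.inl i)), ?_⟩
        have := add_mem (Ideal.mul_mem_right (C (x (Sum.inl i))) _ hp)
          (Ideal.mul_mem_left _ p (hXN i))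
        convert this using 1
        rw [map_mul, rename_C]; ring
      · refine ⟨p0 * X w, ?_⟩
        have := Ideal.mul_mem_right (X (Sum.inr w)) _ hp
        convert this using 1
        rw [map_mul, rename_X]; ring
  obtain ⟨V, hV1, hV2⟩ := hI fun π => if π.1 = 1 then P0 else 0
  refine ⟨rey Γ U V, rey_mem_span Γ le_rfl (hV1.trans hT), ?_⟩
  set M : MvPolynomial ((E × ν) ⊕ (E × ν) × σ) Ω := rename Sum.inr P0 with hM
  have hsum : M = ∑ π : Γ, if π = 1 then M else 0 := by simp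
  have key : M - rey Γ U V ∈ N ⊔ mx x ^ (j + 1) := by
    rw [hsum, rey, ← Finset.sum_sub_distrib]
    refine Submodule.sum_mem _ fun π _ => ?_
    set W := rename (fun p : (E × ν) × σ => (Sum.inr (π.1 p.1, p.2) : (E × ν) ⊕ (E × ν) × σ)) V
      with hW
    have hR : rename (fun i => (Sum.inl (π.1 i) : (E × ν) ⊕ (E × ν) × σ)) U
        - C (if ∀ i, (π.1 i).1 = i.1 then 1 else 0) ∈ N := by
      have := map_mx_le (rename (fun i => (Sum.inl (π.1 i) : (E × ν) ⊕ (E × ν) × σ)) :
        MvPolynomial (E × ν) Ω →ₐ[Ω] _).toRingHom (fun i => z (π.1 i).1) N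
        (fun i => by simpa [hx] using hXN (π.1 i)) (Ideal.mem_map_of_mem _ (sub_C_mem _ U))
      rw [hU] at this
      simpa using this
    have hrest : (if π = 1 then M else 0) - C (if ∀ i, (π.1 i).1 = i.1 then 1 else 0)
        * W ∈ mx x ^ (j + 1) := by
      by_cases hπ : ∀ i, (π.1 i).1 = i.1
      · rw [if_pos hπ, C_1, one_mul]
        have h1 := map_mem_pow (rename (fun p : (E × ν) × σ =>
          (Sum.inr (π.1 p.1, p.2) : (E × ν) ⊕ (E × ν) × σ)) :
            MvPolynomial ((E × ν) × σ) Ω →ₐ[Ω] _).toRingHom _ (mx x)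
          (fun p => by simpa using X_sub_mem x (Sum.inr (π.1 p.1, p.2))) (hV2 ⟨π, hπ⟩)
        have h2 := neg_mem h1
        convert h2 using 1
        simp only [AlgHom.toRingHom_eq_coe, RingHom.coe_coe, map_sub, neg_sub]
        congr 1
        split_ifs with h
        · subst h; rfl
        · simp
      · have : π ≠ 1 := by rintro rfl; exact hπ fun i => rfl
        rw [if_neg hπ, if_neg this]; simp
    have := sub_mem (Ideal.mem_sup_right hrest : _ ∈ N ⊔ mx x ^ (j + 1))
      (Ideal.mem_sup_left (Ideal.mul_mem_right W _ hR))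
    convert this using 1
    ring
  have := add_mem (Ideal.mem_sup_left hP0 : _ ∈ N ⊔ mx x ^ (j + 1)) key
  convert this using 1
  ring

lemma exists_theta (Γ : Subgroup (Equiv.Perm (E × ν))) (col : E × ν → σ → Bool)
    (hcol : ∀ π ∈ Γ, (∀ i, (π i).1 = i.1) → (∀ i, col (π i) = col i) → π = 1) (l0 : σ) (j : ℕ) :
    ∃ Θ : MvPolynomial ((E × ν) × σ) Ω, Θ ≠ 0 ∧ ∀ y, eval y Θ ≠ 0 →
      Itp (fun q : Vert Γ × ((E × ν) × σ) => y (q.1.1.1 q.2.1, q.2.2)) j ∧
        Function.Injective fun i => y (i, l0) := by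
  classical
  have : Fintype (Vert Γ) := Fintype.ofFinite _
  let y0 : (E × ν) × σ → Ω := fun p => if col p.1 p.2 then 1 else 0
  let c : Vert Γ → (E × ν) × σ → Ω := fun π p => y0 (π.1.1 p.1, p.2)
  have hc : Function.Injective c := by
    intro π π' h
    have h1 : ∀ i, col (π.1.1 i) = col (π'.1.1 i) := by
      intro i
      funext l
      have := congrFun h (i, l)
      simp only [c, y0] at this
      cases h1 : col (π.1.1 i) l <;> cases h2 : col (π'.1.1 i) l <;> simp_all
    have h2 := hcol (π.1.1 * π'.1.1⁻¹) (Γ.mul_mem π.1.2 (Γ.inv_mem π'.1.2)) (fun i => by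
      have h3 := π'.2 (π'.1.1⁻¹ i)
      rw [Equiv.Perm.mul_apply, π.2, ← h3]; simp) (fun i => by
      rw [Equiv.Perm.mul_apply, h1]; simp)
    exact Subtype.ext (Subtype.ext (mul_inv_eq_one.mp h2))
  obtain ⟨Θ, h1, h2⟩ := generic_at c hc (fun π p => by
    simp only [c, y0]; split_ifs <;> simp) j
  let f : Vert Γ × ((E × ν) × σ) → (E × ν) × σ := fun q => (q.1.1.1 q.2.1, q.2.2)
  refine ⟨rename f Θ *
    ∏ q ∈ (Finset.univ : Finset (E × ν)).offDiag, (X (q.1, l0) - X (q.2, l0)),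
    mul_ne_zero (fun h => h1 ?_)
      (Finset.prod_ne_zero_iff.mpr fun q hq => ?_), fun y hy => ?_⟩
  · have := congrArg (eval y0) h
    rwa [eval_rename, map_zero] at this
  · rw [sub_ne_zero]
    intro h
    exact (Finset.mem_offDiag.mp hq).2.2 (congrArg Prod.fst (X_injective h))
  · rw [map_mul, map_prod] at hy
    refine ⟨h2 _ ?_, fun i i' h => ?_⟩
    · have := left_ne_zero_of_mul hy
      rwa [eval_rename] at this
    · by_contra hne
      have := Finset.prod_ne_zero_iff.mp (right_ne_zero_of_mul hy) (i, i')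
        (Finset.mem_offDiag.mpr ⟨Finset.mem_univ _, Finset.mem_univ _, hne⟩)
      simp only [map_sub, eval_X] at this
      exact this (sub_eq_zero.mpr h)

end Pool.Agent.Lib.MP_af4c59_nt.H88
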