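import Pool.Agent.Lib.MP_af4c59_nt.H59Sum

/-!
A trilinear sum is bounded by the second moment.
-/

namespace Pool.Agent.Lib.MP_af4c59_nt.H59

open Finset

lemma Bd.dirichlet {a : Dat → ℕ → ℕ} (h : Bd a) {ε : ℝ} (hε : 0 < ε) : ∃ C : ℝ, 0 ≤ C ∧
    ∀ (d : Dat) (M : ℕ), ∑ t ∈ Icc 1 M, (a d t : ℝ) * ((t : ℝ) ^ (1 + ε))⁻¹ ≤ C := by
  obtain ⟨C, hC, h⟩ := h (ε / 2) (half_pos hε)
  have hsum : Summable fun m : ℕ => ((m : ℝ) ^ (1 + ε / 2))⁻¹ :=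
    Real.summable_nat_rpow_inv.2 (by linarith)
  set T : ℝ := ∑' m : ℕ, ((m : ℝ) ^ (1 + ε / 2))⁻¹ with hT
  have hT0 : 0 ≤ T := tsum_nonneg fun m => by positivity
  refine ⟨2 ^ (2 + ε) * (C * T), by positivity, fun d M => ?_⟩
  have h1 : ∀ t ∈ Icc 1 M, (a d t : ℝ) * ((t : ℝ) ^ (1 + ε))⁻¹ ≤ 2 ^ (2 + ε) *
      ∑ k ∈ Icc 1 (2 * M), if t ≤ k then (a d t : ℝ) * ((k : ℝ) ^ (2 + ε))⁻¹ else 0 := by
    intro t ht
    obtain ⟨h2, h3⟩ := mem_Icc.1 ht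
    have h4 : (0 : ℝ) < t := by exact_mod_cast h2
    have h5 : (t : ℝ) * ((a d t : ℝ) * (((2 : ℝ) * t) ^ (2 + ε))⁻¹) ≤
        ∑ k ∈ Icc 1 (2 * M), if t ≤ k then (a d t : ℝ) * ((k : ℝ) ^ (2 + ε))⁻¹ else 0 := by
      rw [← sum_filter]
      refine le_trans ?_ (sum_le_sum_of_subset_of_nonneg (s := Ico t (2 * t)) (fun k hk => ?_)
        fun _ _ _ => by positivity)
      · refine le_trans (le_of_eq ?_) (card_nsmul_le_sum _ _
          ((a d t : ℝ) * (((2 : ℝ) * t) ^ (2 + ε))⁻¹) fun k hk => ?_)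
        · rw [Nat.card_Ico, nsmul_eq_mul, show 2 * t - t = t by omega]
        · obtain ⟨h6, h7⟩ := mem_Ico.1 hk
          have h8 : (0 : ℝ) < k := by exact_mod_cast (by omega : 0 < k)
          have h9 : (k : ℝ) ≤ 2 * t := by exact_mod_cast h7.le
          gcongr
      · obtain ⟨h6, h7⟩ := mem_Ico.1 hk
        exact mem_filter.2 ⟨mem_Icc.2 ⟨by omega, by omega⟩, h6⟩
    refine le_trans (le_of_eq ?_) (mul_le_mul_of_nonneg_left h5 (by positivity))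
    have h6 : (t : ℝ) ^ (2 + ε) = t * t ^ (1 + ε) := by
      rw [show 2 + ε = 1 + (1 + ε) by ring, Real.rpow_add h4, Real.rpow_one]
    rw [Real.mul_rpow zero_le_two h4.le, h6]
    field_simp
  refine (sum_le_sum h1).trans ?_
  rw [← mul_sum, sum_comm]
  refine mul_le_mul_of_nonneg_left ?_ (by positivity)
  refine le_trans (sum_le_sum fun k hk => ?_) (le_trans (le_of_eq (mul_sum _ _ C).symm)
    (mul_le_mul_of_nonneg_left (hsum.sum_le_tsum (Icc 1 (2 * M)) fun m _ => by positivity) hC))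
  have h4 : (0 : ℝ) < k := by exact_mod_cast (mem_Icc.1 hk).1
  rw [← sum_filter, ← sum_mul]
  have h2 : ∑ t ∈ (Icc 1 M).filter (· ≤ k), (a d t : ℝ) ≤ C * (k : ℝ) ^ (1 + ε / 2) :=
    le_trans (sum_le_sum_of_subset_of_nonneg (fun t ht => mem_Icc.2
      ⟨(mem_Icc.1 (mem_filter.1 ht).1).1, (mem_filter.1 ht).2⟩) fun _ _ _ => by positivity) (h d k)
  refine (mul_le_mul_of_nonneg_right h2 (by positivity)).trans_eq ?_
  have h6 : (k : ℝ) ^ (2 + ε) = k ^ (1 + ε / 2) * k ^ (1 + ε / 2) := by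
    rw [← Real.rpow_add h4]
    congr 1
    ring
  rw [h6]
  field_simp

lemma finner (s : Finset ℕ) (F : ℕ → ℕ → ℝ) :
    ∑ y ∈ s, ∑ z ∈ s, ∑ x ∈ s, F y z * (F x z * F x y) ≤
      (∑ y ∈ s, ∑ z ∈ s, F y z ^ 2) + (∑ y ∈ s, ∑ z ∈ s, F y z ^ 2) ^ 2 := by
  have h1 : (∑ y ∈ s, ∑ z ∈ s, F y z ^ 2) ^ 2 =
      ∑ y ∈ s, ∑ z ∈ s, (∑ x ∈ s, F x z ^ 2) * ∑ x ∈ s, F x y ^ 2 := by
    rw [sum_comm, sq, sum_mul_sum, sum_comm]
  rw [h1, ← sum_add_distrib]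
  refine sum_le_sum fun y _ => ?_
  rw [← sum_add_distrib]
  refine sum_le_sum fun z _ => ?_
  rw [← mul_sum]
  have h2 := sum_mul_sq_le_sq_mul_sq s (fun x => F x z) fun x => F x y
  nlinarith [sq_nonneg (F y z - ∑ x ∈ s, F x z * F x y), sq_nonneg (F y z),
    sq_nonneg (∑ x ∈ s, F x z * F x y)]

/-- Factorisations into three factors. -/
def tri (r : ℕ) : Finset (ℕ × ℕ × ℕ) :=
  (Icc 1 r ×ˢ Icc 1 r ×ˢ Icc 1 r).filter fun w => w.1 * w.2.1 * w.2.2 = r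

lemma sm_tau : Sm fun _ r => r.divisors.card := fun _ hε => by
  obtain ⟨C, hC, h⟩ := H32.divisor_bound hε
  exact ⟨C, by linarith, fun _ r _ => h r⟩

theorem Bd.tri {m : Dat → ℕ → ℕ} (h : Bd fun d r => m d r * m d r) :
    Bd fun d r => ∑ w ∈ tri r, m d (w.1 * w.2.1) * (m d (w.2.2 * w.2.1) * m d (w.2.2 * w.1)) := by
  intro ε hε
  obtain ⟨C, hC, h⟩ := (sm_tau.mul h).dirichlet hε
  refine ⟨C + C ^ 2, by positivity, fun d N => ?_⟩
  let F : ℕ → ℕ → ℝ := fun y z => (m d (y * z) : ℝ) * (((y * z : ℕ) : ℝ) ^ ((1 + ε) / 2))⁻¹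
  have h1 : ∑ y ∈ Icc 1 N, ∑ z ∈ Icc 1 N, F y z ^ 2 ≤ C := by
    refine le_trans ?_ (h d (N * N))
    rw [← sum_product', ← sum_fiberwise_of_maps_to (g := fun w : ℕ × ℕ => w.1 * w.2)
      (t := Icc 1 (N * N)) fun w hw => ?_]
    · refine sum_le_sum fun t ht => ?_
      have h4 : (0 : ℝ) < t := by exact_mod_cast (mem_Icc.1 ht).1
      refine le_trans (sum_le_card_nsmul _ _ ((m d t * m d t : ℕ) * ((t : ℝ) ^ (1 + ε))⁻¹)
        fun w hw => le_of_eq ?_) ?_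
      · simp only [F, (mem_filter.1 hw).2]
        rw [mul_pow, inv_pow, ← Real.rpow_natCast, ← Real.rpow_natCast, ← Real.rpow_mul h4.le]
        push_cast
        rw [div_mul_cancel₀ _ two_ne_zero, Real.rpow_two, sq]
      · rw [nsmul_eq_mul, Nat.cast_mul t.divisors.card, mul_assoc]
        refine mul_le_mul_of_nonneg_right ?_ (by positivity)
        rw [Nat.cast_le]
        refine card_le_card_of_injOn Prod.fst (fun w hw => ?_) fun w hw w' hw' e => ?_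
        · exact mem_coe.2 (Nat.mem_divisors.2 ⟨⟨_, (mem_filter.1 (mem_coe.1 hw)).2.symm⟩,
            by have := (mem_Icc.1 ht).1; omega⟩)
        · obtain ⟨h5, h6⟩ := mem_filter.1 (mem_coe.1 hw)
          have h7 := (mem_filter.1 (mem_coe.1 hw')).2
          rw [← e, ← h6] at h7
          exact Prod.ext e (Nat.eq_of_mul_eq_mul_left (mem_Icc.1 (mem_product.1 h5).1).1 h7).symm
    · obtain ⟨h5, h6⟩ := mem_product.1 hw
      obtain ⟨h7, h8⟩ := mem_Icc.1 h5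
      obtain ⟨h9, h10⟩ := mem_Icc.1 h6
      exact mem_Icc.2 ⟨Nat.mul_pos h7 h9, Nat.mul_le_mul h8 h10⟩
  have h0 : 0 ≤ ∑ y ∈ Icc 1 N, ∑ z ∈ Icc 1 N, F y z ^ 2 :=
    sum_nonneg fun _ _ => sum_nonneg fun _ _ => sq_nonneg _
  have h2 := (finner (Icc 1 N) F).trans (add_le_add h1 (pow_le_pow_left₀ h0 h1 2))
  refine le_trans ?_ (mul_le_mul_of_nonneg_right h2 (by positivity))
  have h3 : ∑ y ∈ Icc 1 N, ∑ z ∈ Icc 1 N, ∑ x ∈ Icc 1 N, F y z * (F x z * F x y) =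
      ∑ w ∈ Icc 1 N ×ˢ Icc 1 N ×ˢ Icc 1 N, F w.1 w.2.1 * (F w.2.2 w.2.1 * F w.2.2 w.1) := by
    simp only [sum_product]
  rw [h3, sum_mul]
  refine le_trans (sum_le_sum fun r hr => ?_) (sum_fiberwise_le_sum_of_sum_fiber_nonneg
    (g := fun w : ℕ × ℕ × ℕ => w.1 * w.2.1 * w.2.2) (t := Icc 1 N)
    fun _ _ => sum_nonneg fun _ _ => by positivity)
  obtain ⟨h4, h5⟩ := mem_Icc.1 hr
  rw [Nat.cast_sum]
  refine le_trans (sum_le_sum fun w hw => ?_) (sum_le_sum_of_subset_of_nonneg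
    (filter_subset_filter _ (product_subset_product (Icc_subset_Icc_right h5)
      (product_subset_product (Icc_subset_Icc_right h5) (Icc_subset_Icc_right h5))))
    fun _ _ _ => by positivity)
  have h6 := (mem_filter.1 hw).2
  have h7 : (0 : ℝ) < r := by exact_mod_cast h4
  have h8 : ((w.1 * w.2.1 : ℕ) : ℝ) ^ ((1 + ε) / 2) * (((w.2.2 * w.2.1 : ℕ) : ℝ) ^ ((1 + ε) / 2) *
      ((w.2.2 * w.1 : ℕ) : ℝ) ^ ((1 + ε) / 2)) = (r : ℝ) ^ (1 + ε) := by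
    rw [← Real.mul_rpow (by positivity) (by positivity),
      ← Real.mul_rpow (by positivity) (by positivity)]
    have h9 : ((w.1 * w.2.1 : ℕ) : ℝ) * (((w.2.2 * w.2.1 : ℕ) : ℝ) * ((w.2.2 * w.1 : ℕ) : ℝ)) =
        (r : ℝ) ^ (2 : ℝ) := by
      rw [← h6, Real.rpow_two]
      push_cast
      ring
    rw [h9, ← Real.rpow_mul h7.le]
    congr 1
    ring
  have h9 : (r : ℝ) ^ (1 + ε) ≤ (N : ℝ) ^ (1 + ε) := by
    have : (r : ℝ) ≤ N := by exact_mod_cast h5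
    gcongr
  simp only [F]
  rw [mul_mul_mul_comm (m d (w.2.2 * w.2.1) : ℝ), mul_mul_mul_comm, ← mul_inv, ← mul_inv, h8,
    mul_assoc]
  push_cast
  refine le_mul_of_one_le_right (by positivity) ?_
  rw [inv_mul_eq_div, one_le_div (by positivity)]
  exact h9

end Pool.Agent.Lib.MP_af4c59_nt.H59
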