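import Pool.Agent.Lib.MP_af4c59_nt.H59Ser
import Pool.Agent.Lib.MP_af4c59_nt.H90Sum

/-!
Groups with three non-central layers of order three, no element acting on all of them.
-/

namespace Pool.Agent.Lib.MP_af4c59_nt.H59

open Equiv

variable {H K : Type} [Group H] [Finite H] [Group K] [Finite K] {d : Dat} {b r : ℕ}

/-- A layer of order three that is centralised by the inertia outside `c`. -/
lemma card_layer (f : H →* K) (hf : Nat.card f.ker ∣ 3) {m c : ℕ}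
    (hm : ∀ χ, Unr d b c χ → lifts d b r χ ≤ m) (Q : (d.Γ →* H) → Prop) (Q' : (d.Γ →* K) → Prop)
    (k1 : ∀ ρ, Q ρ → Q' (f.comp ρ)) (k2 : ∀ ρ, Q ρ → Unr d b r ρ)
    (k3 : ∀ ρ, Q ρ → ∀ p : ℕ, p.Prime → b < p → ¬ p ∣ c → ∀ σ ∈ d.I p, ∀ x ∈ f.ker,
      ρ σ * x = x * ρ σ) :
    Nat.card {ρ // Q ρ} ≤ m * Nat.card {κ // Q' κ} := by
  classical
  let cls : {ρ // Q ρ} → {κ // Q' κ} := fun ρ => ⟨f.comp ρ.1, k1 _ ρ.2⟩
  rcases (Nat.dvd_prime Nat.prime_three).1 hf with h | h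
  · have : Nonempty {ρ : d.Γ →* Perm (Fin 3) // Unr d b r ρ ∧ ∀ σ, (ρ σ).sign = (1 : _ →* ℤˣ) σ} :=
      ⟨⟨1, fun _ _ _ _ _ _ => rfl, fun _ => rfl⟩⟩
    exact (Nat.card_le_card_of_injective cls fun _ _ e => Subtype.ext (MonoidHom.ext fun σ =>
      (MonoidHom.ker_eq_bot_iff f).1 (Subgroup.card_eq_one.1 h)
        (DFunLike.congr_fun (congrArg Subtype.val e) σ))).trans
      (Nat.le_mul_of_pos_left _ (lt_of_lt_of_le Nat.card_pos (hm 1 fun _ _ _ _ _ _ => rfl)))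
  let e := Finite.equivFinOfCardEq h
  have := Fintype.ofFinite {κ // Q' κ}
  rw [← Nat.card_congr (sigmaFiberEquiv cls), Nat.card_sigma, Nat.card_eq_fintype_card, mul_comm]
  refine Finset.sum_le_card_nsmul _ _ _ fun κ _ => ?_
  rcases isEmpty_or_nonempty {ρ // cls ρ = κ} with _ | ⟨⟨ρ0⟩⟩
  · simp
  have h1 : ∀ (ρ : {ρ // cls ρ = κ}) σ, f (ρ.1.1 σ) = f (ρ0.1.1 σ) := fun ρ σ =>
    DFunLike.congr_fun (congrArg Subtype.val (ρ.2.trans ρ0.2.symm)) σ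
  let Φ : {ρ // cls ρ = κ} → d.Γ →* Perm f.ker := fun ρ => MonoidHom.toHomPerm
    { toFun := fun σ x => ⟨ρ.1.1 σ * x * (ρ0.1.1 σ)⁻¹, by
        rw [MonoidHom.mem_ker, map_mul, map_mul, map_inv, x.2, h1, mul_one, mul_inv_cancel]⟩
      map_one' := funext fun x => Subtype.ext (by simp; rfl)
      map_mul' := fun σ τ => funext fun x => Subtype.ext (by
        show _ = ρ.1.1 σ * (ρ.1.1 τ * x * (ρ0.1.1 τ)⁻¹) * (ρ0.1.1 σ)⁻¹
        simp only [map_mul, mul_inv_rev, mul_assoc]) }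
  have hΦ : ∀ ρ σ x, (Φ ρ σ x).1 = ρ.1.1 σ * x * (ρ0.1.1 σ)⁻¹ := fun _ _ _ => rfl
  have := Fintype.ofFinite f.ker
  have h2 : ∀ ρ, Unr d b r (Φ ρ) := fun ρ p a c g σ hσ => Equiv.ext fun x => Subtype.ext (by
    rw [hΦ, k2 _ ρ.1.2 p a c g σ hσ, k2 _ ρ0.1.2 p a c g σ hσ, one_mul, inv_one, mul_one]
    rfl)
  have h2' : Unr d b c (Φ ρ0) := fun p a c g σ hσ => Equiv.ext fun x => Subtype.ext (by
    rw [hΦ, k3 _ ρ0.1.2 p a c g σ hσ x x.2, mul_inv_cancel_right]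
    rfl)
  have h3 : ∀ ρ σ, Φ ρ σ = MulAction.toPermHom f.ker f.ker (Φ ρ σ 1) * Φ ρ0 σ := fun ρ σ =>
    Equiv.ext fun x => Subtype.ext (by
      show _ = (Φ ρ σ 1).1 * (Φ ρ0 σ x).1
      simp only [hΦ, Subgroup.coe_one]
      group)
  have h4 : ∀ c : f.ker, (MulAction.toPermHom f.ker f.ker c).sign = 1 := fun c => by
    have h4 : (MulAction.toPermHom f.ker f.ker c).sign ^ 3 = 1 := by
      rw [← map_pow, ← map_pow, ← h, pow_card_eq_one', map_one, map_one]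
    rwa [pow_succ, Int.units_sq, one_mul] at h4
  refine le_trans (Nat.card_le_card_of_injective (fun ρ => ⟨e.permCongrHom.toMonoidHom.comp (Φ ρ),
    (h2 ρ).comp _, fun σ => (Perm.sign_permCongr e _).trans (by
      rw [h3, map_mul, h4, one_mul]; rfl)⟩) fun ρ ρ' g => ?_)
    (hm (Perm.sign.comp (Φ ρ0)) (h2'.comp _))
  refine Subtype.ext (Subtype.ext (MonoidHom.ext fun σ => ?_))
  have h5 : (Φ ρ σ 1).1 = (Φ ρ' σ 1).1 := congrArg (fun z : Perm f.ker => (z 1).1)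
    (e.permCongrHom.injective (DFunLike.congr_fun (congrArg Subtype.val g) σ))
  simpa only [hΦ, mul_left_inj] using h5

/-- Inertia outside `c i` lies in the image of `S i`. -/
def Pat (d : Dat) (b r : ℕ) (c : Fin 3 → ℕ) (S : Fin 3 → Subgroup H) (N : Subgroup H) [N.Normal]
    (κ : d.Γ →* H ⧸ N) : Prop :=
  Unr d b r κ ∧ ∀ (i : Fin 3) (p : ℕ), p.Prime → b < p → ¬ p ∣ c i → ∀ σ ∈ d.I p,
    κ σ ∈ (S i).map (QuotientGroup.mk' N)

lemma pat_step (c : Fin 3 → ℕ) (S : Fin 3 → Subgroup H) (A B : Subgroup H) [A.Normal] [B.Normal]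
    (h : A ≤ B) (h3 : A.relIndex B ∣ 3) (i : Fin 3)
    (hS : ∀ g ∈ S i, ∀ x ∈ B, (g : H ⧸ A) * x = x * g) {m : ℕ}
    (hm : ∀ χ, Unr d b (c i) χ → lifts d b r χ ≤ m) :
    Nat.card {κ // Pat d b r c S A κ} ≤ m * Nat.card {κ // Pat d b r c S B κ} := by
  refine card_layer (QuotientGroup.map A B (MonoidHom.id H) h) ?_ hm _ _
    (fun ρ hρ => ⟨hρ.1.comp _, fun j p a1 a2 a3 σ hσ => ?_⟩) (fun ρ hρ => hρ.1)
    fun ρ hρ p a1 a2 a3 σ hσ x hx => ?_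
  · rwa [QuotientGroup.ker_map A B (MonoidHom.id H) h, Subgroup.comap_id, ← Subgroup.relIndex_ker,
      QuotientGroup.ker_mk']
  · obtain ⟨g, hg, e⟩ := hρ.2 j p a1 a2 a3 σ hσ
    exact ⟨g, hg, by rw [MonoidHom.comp_apply, ← e]; rfl⟩
  · obtain ⟨g, hg, e⟩ := hρ.2 i p a1 a2 a3 σ hσ
    obtain ⟨x, rfl⟩ := QuotientGroup.mk_surjective x
    rw [← e]
    exact hS g hg x ((QuotientGroup.eq_one_iff x).1 hx)

lemma pat_cover (S : Fin 3 → Subgroup H) (hS : ∀ g, ∃ i, g ∈ S i) (N : Subgroup H) [N.Normal]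
    (hb : Nat.card H ≤ b) (hr : 1 ≤ r) : u (H ⧸ N) d b r ≤ ∑ w ∈ tri r,
      Nat.card {κ // Pat d b r ![w.1 * w.2.1, w.2.2 * w.2.1, w.2.2 * w.1] S N κ} := by
  classical
  rw [← Finset.sum_coe_sort, ← Nat.card_sigma]
  refine Nat.card_le_card_of_surjective (fun z => ⟨z.2.1, z.2.2.1⟩) fun ρ => ?_
  have h1 : ∀ p : ℕ, ∃ i, p.Prime → b < p → ∀ σ ∈ d.I p,
      ρ.1 σ ∈ (S i).map (QuotientGroup.mk' N) := fun p => by
    by_cases hp : p.Prime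
    swap
    · exact ⟨0, fun h => absurd h hp⟩
    obtain ⟨g, h⟩ := d.tame hp
    obtain ⟨x, hx⟩ := QuotientGroup.mk_surjective (ρ.1 g)
    obtain ⟨i, hi⟩ := hS x
    refine ⟨i, fun _ hbp σ hσ => ?_⟩
    obtain ⟨t, k, hk⟩ := h σ hσ
    have h0 : Nat.card (H ⧸ N) ≤ Nat.card H :=
      Nat.card_le_card_of_surjective _ QuotientGroup.mk_surjective
    have hc : (p ^ k).Coprime (Nat.card (H ⧸ N)) := Nat.Coprime.pow_left _
      ((Nat.Prime.coprime_iff_not_dvd hp).2 (Nat.not_dvd_of_pos_of_lt Nat.card_pos (by omega)))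
    have h2 : ρ.1 (σ * (g ^ t)⁻¹) = 1 := (pow_eq_one_iff_of_coprime hc).1
      ⟨by rw [← map_pow, hk, map_one], pow_card_eq_one'⟩
    rw [map_mul, map_inv, map_zpow, mul_inv_eq_one] at h2
    rw [h2]
    exact zpow_mem (Subgroup.mem_map.2 ⟨x, hi, hx⟩) t
  choose a ha using h1
  let P : Fin 3 → ℕ := fun i => ∏ p ∈ r.primeFactors.filter (a · = i), p
  have h2 : ∀ i p, p.Prime → p ∣ r → (p ∣ P i ↔ a p = i) := fun i p hp hpr => by
    refine ⟨fun h => ?_, fun h => Finset.dvd_prod_of_mem _ (Finset.mem_filter.2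
      ⟨Nat.mem_primeFactors.2 ⟨hp, hpr, by omega⟩, h⟩)⟩
    obtain ⟨q, hq, h⟩ := (Prime.dvd_finsetProd_iff hp.prime _).1 h
    obtain ⟨h3, h4⟩ := Finset.mem_filter.1 hq
    rwa [(Nat.prime_dvd_prime_iff_eq hp (Nat.prime_of_mem_primeFactors h3)).1 h]
  have h3 : P 1 * P 2 ∣ r := by
    refine Dvd.dvd.trans ?_ (Nat.prod_primeFactors_dvd r)
    rw [← Finset.prod_union (Finset.disjoint_filter.2 fun p _ h h' =>
      absurd (h.symm.trans h') (by decide))]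
    exact Finset.prod_dvd_prod_of_subset _ _ _
      (Finset.union_subset (Finset.filter_subset _ _) (Finset.filter_subset _ _))
  obtain ⟨z, hz⟩ := h3
  have h4 : ∀ t, t ∣ r → t ∈ Finset.Icc 1 r := fun t ht =>
    Finset.mem_Icc.2 ⟨Nat.pos_of_dvd_of_pos ht hr, Nat.le_of_dvd hr ht⟩
  refine ⟨⟨⟨(P 1, P 2, z), Finset.mem_filter.2 ⟨Finset.mem_product.2 ⟨h4 _ ⟨P 2 * z, by
    rw [← mul_assoc]; exact hz⟩, Finset.mem_product.2 ⟨h4 _ ⟨P 1 * z, by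
    rw [← mul_assoc, mul_comm (P 2)]; exact hz⟩, h4 _ ⟨P 1 * P 2, by
    rw [mul_comm]; exact hz⟩⟩⟩, hz.symm⟩⟩, ρ.1, ρ.2, fun i p hp hbp hc σ hσ => ?_⟩, rfl⟩
  by_cases hpr : p ∣ r
  swap
  · rw [ρ.2 p hp hbp hpr σ hσ]
    exact one_mem _
  have h5 : a p = i := by
    have h6 := hpr
    rw [hz, hp.dvd_mul, hp.dvd_mul, h2 1 p hp hpr, h2 2 p hp hpr] at h6
    have h7 : ∀ j : Fin 3, j ≠ 1 → j ≠ 2 → j = 0 := by decide
    fin_cases i
    · have hc' : ¬ p ∣ P 1 * P 2 := hc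
      rw [hp.dvd_mul, h2 1 p hp hpr, h2 2 p hp hpr, not_or] at hc'
      exact h7 _ hc'.1 hc'.2
    · have hc' : ¬ p ∣ z * P 2 := hc
      rw [hp.dvd_mul, h2 2 p hp hpr, not_or] at hc'
      exact ((h6.resolve_right hc'.1).resolve_right hc'.2 :)
    · have hc' : ¬ p ∣ z * P 1 := hc
      rw [hp.dvd_mul, h2 1 p hp hpr, not_or] at hc'
      exact ((h6.resolve_right hc'.1).resolve_left hc'.2 :)
  exact h5 ▸ ha p hp hbp σ hσ

/-- The elements that centralise a layer. -/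
def cen (A B : Subgroup H) [A.Normal] : Subgroup H :=
  (Subgroup.centralizer (B.map (QuotientGroup.mk' A))).comap (QuotientGroup.mk' A)

omit [Finite H] in
lemma mem_cen {A B : Subgroup H} [A.Normal] {g : H} (h : ∀ x ∈ B, g * x * g⁻¹ * x⁻¹ ∈ A) :
    g ∈ cen A B := by
  rintro _ ⟨x, hx, rfl⟩
  have h1 := (QuotientGroup.eq_one_iff _).2 (h x hx)
  rw [QuotientGroup.mk_mul, QuotientGroup.mk_mul, QuotientGroup.mk_mul,
    QuotientGroup.mk_inv, QuotientGroup.mk_inv, mul_inv_eq_one, mul_inv_eq_iff_eq_mul] at h1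
  exact h1.symm

theorem rr_three (k : ℕ) (A B C : Subgroup H) [A.Normal] [B.Normal] [C.Normal]
    (h1 : Subgroup.upperCentralSeries H k ≤ A) (h2 : A ≤ B) (h2' : B ≤ C)
    (h3 : (Subgroup.upperCentralSeries H k).relIndex A ∣ 3) (h4 : A.relIndex B ∣ 3)
    (h4' : B.relIndex C ∣ 3) (h5 : Group.IsNilpotent (H ⧸ C))
    (h7 : ∀ g : H, (∀ x ∈ A, g * x * g⁻¹ * x⁻¹ ∈ Subgroup.upperCentralSeries H k) ∨
      (∀ x ∈ B, g * x * g⁻¹ * x⁻¹ ∈ A) ∨ ∀ x ∈ C, g * x * g⁻¹ * x⁻¹ ∈ B) : RR H := by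
  refine RR.of_large (max 6 (Nat.card H)) fun b hb => ?_
  obtain ⟨m, hm, hM⟩ := moment (le_of_max_le_left hb)
  obtain ⟨D, hD⟩ := lifts_le (le_of_max_le_left hb)
  obtain ⟨l, hl⟩ := h5.nilpotent
  have : Subsingleton ((H ⧸ C) ⧸ Subgroup.upperCentralSeries (H ⧸ C) l) := by
    rw [hl]
    exact QuotientGroup.subsingleton_quotient_top
  have h6 := (sm_omega 6 D).mul ((sm_omega 6 D).mul ((sm_omega 6 D).mul (bd_upper (H := H ⧸ C) l
    ((sm_comm _ (fun _ _ => Subsingleton.elim _ _) b).mul hM.tri))))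
  refine (bd_upper (a := fun _ _ => 1) k (h6.mono fun d r hr => ?_)).mono
    fun _ _ _ => (mul_one _).ge
  have h8 : ∀ c χ, Unr d b c χ → lifts d b r χ ≤ 6 ^ r.primeFactors.card * D * m d c :=
    fun c χ hχ => by
      have a0 : Nat.card {ρ // Unr d b r ρ ∧ Gd d χ ρ} ≤ lifts d b c χ :=
        Nat.card_le_card_of_injective (fun ρ => ⟨ρ.1, fun p a1 a2 a3 σ hσ =>
          ρ.2.2.good.2 p a1 σ hσ (hχ p a1 a2 a3 σ hσ), ρ.2.2.1⟩)
          fun _ _ e => Subtype.ext (congrArg Subtype.val e :)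
      exact (hD d r χ hr).trans (Nat.mul_le_mul_left _ (a0.trans (hm d c χ)))
  let S : Fin 3 → Subgroup H := ![cen (Subgroup.upperCentralSeries H k) A, cen A B, cen B C]
  have h9 : ∀ g, ∃ i, g ∈ S i := fun g => by
    rcases h7 g with h | h | h
    exacts [⟨0, mem_cen h⟩, ⟨1, mem_cen h⟩, ⟨2, mem_cen h⟩]
  rw [mul_one]
  refine (pat_cover S h9 _ (le_of_max_le_right hb) hr).trans ?_
  simp only [Finset.mul_sum]
  refine Finset.sum_le_sum fun w _ => ?_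
  have a3 : Nat.card {κ // Pat d b r ![w.1 * w.2.1, w.2.2 * w.2.1, w.2.2 * w.1] S C κ} ≤
      u (H ⧸ C) d b r := Nat.card_le_card_of_injective (fun ρ => ⟨ρ.1, ρ.2.1⟩)
    fun _ _ e => Subtype.ext (congrArg Subtype.val e :)
  refine ((pat_step _ S _ A h1 h3 0 (fun g hg x hx => (hg _ ⟨x, hx, rfl⟩).symm) (h8 _)).trans
    (Nat.mul_le_mul_left _ ((pat_step _ S A B h2 h4 1 (fun g hg x hx => (hg _ ⟨x, hx, rfl⟩).symm)
      (h8 _)).trans (Nat.mul_le_mul_left _ ((pat_step _ S B C h2' h4' 2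
        (fun g hg x hx => (hg _ ⟨x, hx, rfl⟩).symm) (h8 _)).trans
          (Nat.mul_le_mul_left _ a3)))))).trans_eq ?_
  show _ * m d (w.1 * w.2.1) * (_ * m d (w.2.2 * w.2.1) * (_ * m d (w.2.2 * w.1) * _)) = _
  ring

end Pool.Agent.Lib.MP_af4c59_nt.H59
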