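import Pool.Agent.Lib.MP_af4c59_nt.K9Defs

/-!
A rank inequality for modules with an operator of order three (part A3) and the choice of
the auxiliary primes (part A5).
-/

set_option autoImplicit false

namespace Pool.Agent.Lib.MP_af4c59_nt.K9

open NumberField Module IsDedekindDomain

namespace AlgAux

/-- If `τ` preserves `A` and `τ ^ 3` maps into `A`, the index of `A` is at most the cube of the
index of `A` in its preimage. -/
theorem index_le_cube {M : Type} [AddCommGroup M] (τ : M →+ M) (A : AddSubgroup M)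
    (hA : A.index ≠ 0) (h1 : A ≤ A.comap τ) (h3 : ∀ u, τ (τ (τ u)) ∈ A) :
    A.index ≤ A.relIndex (A.comap τ) ^ 3 := by
  have hne : ∀ B : AddSubgroup M, A.relIndex B ≠ 0 := fun B h =>
    hA (AddSubgroup.index_eq_zero_of_relIndex_eq_zero h)
  have h2 : A.comap τ ≤ (A.comap τ).comap τ := AddSubgroup.comap_mono h1
  have e1 := AddSubgroup.relIndex_mul_index h1
  have e2 := AddSubgroup.relIndex_mul_index h2
  have b1 : (A.comap τ).relIndex ((A.comap τ).comap τ) ≤ A.relIndex (A.comap τ) := by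
    rw [AddSubgroup.relIndex_comap]
    exact AddSubgroup.relIndex_le_of_le_right (AddSubgroup.map_comap_le _ _) (hne _)
  have b2 : ((A.comap τ).comap τ).index ≤ A.relIndex (A.comap τ) := by
    rw [AddSubgroup.comap_comap, AddSubgroup.index_comap]
    refine AddSubgroup.relIndex_le_of_le_right ?_ (hne _)
    rintro _ ⟨u, rfl⟩
    exact h3 u
  rw [← e1, ← e2]
  calc _ ≤ A.relIndex (A.comap τ) * (A.relIndex (A.comap τ) * A.relIndex (A.comap τ)) :=
        Nat.mul_le_mul_left _ (Nat.mul_le_mul b1 b2)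
    _ = _ := by ring

variable {K : Type} [Field K] [NumberField K]

theorem mem_of_coprime (H : Subgroup (ClassGroup (𝓞 K)))
    (hH : ∀ q : HeightOneSpectrum (𝓞 K), (3 : 𝓞 K) ∉ q.asIdeal → cls q ∈ H) (I : Ideal (𝓞 K)) :
    ∀ hI : I ≠ 0, Ideal.span {(3 : 𝓞 K)} ⊔ I = ⊤ →
      ClassGroup.mk0 ⟨I, mem_nonZeroDivisors_of_ne_zero hI⟩ ∈ H := by
  induction I using UniqueFactorizationMonoid.induction_on_prime with
  | h₁ => intro hI; exact absurd rfl hI
  | h₂ I hu =>
    intro hI _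
    have : (⟨I, mem_nonZeroDivisors_of_ne_zero hI⟩ : nonZeroDivisors (Ideal (𝓞 K))) = 1 :=
      Subtype.ext (by simpa using Ideal.isUnit_iff.1 hu)
    rw [this, map_one]
    exact H.one_mem
  | h₃ I p hI0 hp ih =>
    intro hI hc
    have hpp : p.IsPrime := Ideal.isPrime_of_prime hp
    have h1 : Ideal.span {(3 : 𝓞 K)} ⊔ I = ⊤ :=
      top_le_iff.1 (hc ▸ sup_le_sup_left Ideal.mul_le_right _)
    have h2 : (3 : 𝓞 K) ∉ p := fun h => hpp.ne_top (top_le_iff.1 (hc ▸
      sup_le ((Ideal.span_singleton_le_iff_mem _).2 h) Ideal.mul_le_left))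
    have h3 := hH ⟨p, hpp, hp.ne_zero⟩ h2
    have : (⟨p * I, mem_nonZeroDivisors_of_ne_zero hI⟩ : nonZeroDivisors (Ideal (𝓞 K))) =
        ⟨p, mem_nonZeroDivisors_of_ne_zero hp.ne_zero⟩ *
          ⟨I, mem_nonZeroDivisors_of_ne_zero hI0⟩ := rfl
    rw [this, map_mul]
    exact H.mul_mem h3 (ih hI0 h1)

theorem eq_top_of_cls (H : Subgroup (ClassGroup (𝓞 K)))
    (hH : ∀ q : HeightOneSpectrum (𝓞 K), (3 : 𝓞 K) ∉ q.asIdeal → cls q ∈ H) : H = ⊤ := by
  rw [eq_top_iff]
  intro c _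
  obtain ⟨⟨J, hJ⟩, hc⟩ := ClassGroup.mk0_surjective c⁻¹
  have hJ0 : J ≠ 0 := nonZeroDivisors.ne_zero hJ
  have h30 : Ideal.span {(3 : 𝓞 K)} ≠ 0 := by simp
  have h3u : Ideal.span {(3 : 𝓞 K)} ≠ ⊤ := by
    rw [Ne, Ideal.span_singleton_eq_top]
    intro h
    have h' : IsUnit (algebraMap ℤ (𝓞 K) 3) := by simpa using h
    have := (isUnit_map_iff (algebraMap ℤ (𝓞 K)) 3).1 h'
    rw [Int.isUnit_iff] at this
    omega
  obtain ⟨a, ha⟩ := IsDedekindDomain.exists_sup_span_eq
    (I := J * Ideal.span {(3 : 𝓞 K)}) (J := J) Ideal.mul_le_left (mul_ne_zero hJ0 h30)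
  obtain ⟨I, hI⟩ : J ∣ Ideal.span {a} := Ideal.dvd_iff_le.2 (ha ▸ le_sup_right)
  have hco : Ideal.span {(3 : 𝓞 K)} ⊔ I = ⊤ := by
    rw [hI, ← Ideal.mul_sup] at ha
    apply mul_left_cancel₀ hJ0
    rw [ha, Ideal.mul_top]
  have hI0 : I ≠ 0 := by
    rintro rfl
    exact h3u (by simpa using hco)
  have ha0 : a ≠ 0 := by
    rintro rfl
    exact mul_ne_zero hJ0 hI0 (by simpa using hI.symm)
  have key : ClassGroup.mk0 ⟨I, mem_nonZeroDivisors_of_ne_zero hI0⟩ =
      (ClassGroup.mk0 ⟨J, hJ⟩)⁻¹ :=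
    ClassGroup.mk0_eq_mk0_inv_iff.2 ⟨a, ha0, by rw [hI, mul_comm]⟩
  rw [hc, inv_inv] at key
  exact key ▸ mem_of_coprime H hH I hI0 hco

/-- Greedy choice of generators modulo cubes. -/
theorem greedy {G ι : Type} [CommGroup G] [Finite G] (f : ι → G) (good : ι → Prop)
    (hgen : ∀ H : Subgroup G, (∀ q, good q → f q ∈ H) → H = ⊤) (P : Subgroup G)
    (hP : ∀ x : G, x ^ 3 ∈ P) (n : ℕ) :
    ∀ T : Finset ι, (∀ q ∈ T, good q) →
      3 ^ T.card * (Subgroup.closure (f '' (T : Set ι)) ⊔ P).index ≤ P.index →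
      (Subgroup.closure (f '' (T : Set ι)) ⊔ P).index = n →
      ∃ T : Finset ι, (∀ q ∈ T, good q) ∧ 3 ^ T.card ≤ P.index ∧
        Subgroup.closure (f '' (T : Set ι)) ⊔ P = ⊤ := by
  classical
  induction n using Nat.strong_induction_on with
  | _ n ih =>
    intro T hT hle hn
    by_cases htop : Subgroup.closure (f '' (T : Set ι)) ⊔ P = ⊤
    · exact ⟨T, hT, by simpa [htop] using hle, htop⟩
    obtain ⟨q, hq, hqH⟩ : ∃ q, good q ∧ f q ∉ Subgroup.closure (f '' (T : Set ι)) ⊔ P := by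
      by_contra hcon
      push Not at hcon
      exact htop (hgen _ hcon)
    set H := Subgroup.closure (f '' (T : Set ι)) ⊔ P with hH
    set H' := Subgroup.closure (f '' ((insert q T : Finset ι) : Set ι)) ⊔ P with hH'
    have hHH : H ≤ H' := sup_le_sup_right
      (Subgroup.closure_mono (Set.image_mono (by simp))) _
    have hqH' : f q ∈ H' := Subgroup.mem_sup_left (Subgroup.subset_closure ⟨q, by simp, rfl⟩)
    have e := Subgroup.relIndex_mul_index hHH
    have hpow : f q ^ H.relIndex H' ∈ H := H.pow_relIndex_mem hqH'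
    have h3 : f q ^ 3 ∈ H := Subgroup.mem_sup_right (hP _)
    have hi : H.index ≠ 0 := Subgroup.FiniteIndex.index_ne_zero
    have hi' : H'.index ≠ 0 := Subgroup.FiniteIndex.index_ne_zero
    have hr : 3 ≤ H.relIndex H' := by
      by_contra hlt
      have h0 : H.relIndex H' ≠ 0 := fun h => hi (by rw [← e, h, zero_mul])
      rcases (by omega : H.relIndex H' = 1 ∨ H.relIndex H' = 2) with h | h
      · rw [h, pow_one] at hpow
        exact hqH hpow
      · rw [h] at hpow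
        have := H.mul_mem h3 (H.inv_mem hpow)
        rw [pow_succ', mul_inv_cancel_right] at this
        exact hqH this
    have hm : 3 * H'.index ≤ H.index := e ▸ Nat.mul_le_mul_right _ hr
    refine ih H'.index (by omega) (insert q T) ?_ ?_ rfl
    · intro x hx
      rcases Finset.mem_insert.1 hx with rfl | hx
      · exact hq
      · exact hT x hx
    · calc 3 ^ (insert q T).card * H'.index ≤ 3 ^ (T.card + 1) * H'.index :=
            Nat.mul_le_mul_right _ (Nat.pow_le_pow_right (by norm_num) (Finset.card_insert_le _ _))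
        _ = 3 ^ T.card * (3 * H'.index) := by ring
        _ ≤ 3 ^ T.card * H.index := Nat.mul_le_mul_left _ hm
        _ ≤ _ := hle

theorem sat_of_top {G : Type} [CommGroup G] [Finite G] (A : Subgroup G)
    (h : A ⊔ (powMonoidHom 3 : G →* G).range = ⊤) (c : G) (hc : c ^ 3 ∈ A) : c ∈ A := by
  have hs : Function.Surjective fun x : G ⧸ A => x ^ 3 := by
    intro x
    obtain ⟨g, rfl⟩ := QuotientGroup.mk_surjective x
    have hg : g ∈ A ⊔ (powMonoidHom 3 : G →* G).range := h ▸ Subgroup.mem_top g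
    obtain ⟨a, ha, _, ⟨y, rfl⟩, rfl⟩ := Subgroup.mem_sup.1 hg
    refine ⟨(y : G ⧸ A), ?_⟩
    simp [(QuotientGroup.eq_one_iff a).2 ha]
  have hi := Finite.injective_iff_surjective.2 hs
  refine (QuotientGroup.eq_one_iff c).1 (hi ?_)
  simp only [one_pow]
  rw [← QuotientGroup.mk_pow]
  exact (QuotientGroup.eq_one_iff _).2 hc

end AlgAux

theorem rank_le {M : Type} [AddCommGroup M] [Module.Free ℤ M] [Module.Finite ℤ M]
    (σ : M →ₗ[ℤ] M) (h3 : ∀ u, σ (σ (σ u)) = u)
    (h : ∀ u, u + σ u + σ (σ u) = 0 → ∃ y, u = σ y - y) :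
    finrank ℤ M ≤ 3 * finrank ℤ (LinearMap.ker (σ - LinearMap.id)) := by
  let τ : M →+ M := (σ - LinearMap.id).toAddMonoidHom
  have hτ : ∀ u, τ u = σ u - u := fun u => rfl
  let A : AddSubgroup M := (nsmulAddMonoidHom (α := M) 3).range
  have hA : A.index = 3 ^ finrank ℤ M := AddSubgroup.index_range_nsmul M 3
  let F : AddSubgroup M := (LinearMap.ker (σ - LinearMap.id)).toAddSubgroup
  have h1 : A ≤ A.comap τ := by
    rintro _ ⟨u, rfl⟩
    exact ⟨τ u, by simp⟩
  have h2 : ∀ u, τ (τ (τ u)) ∈ A := fun u => ⟨σ u - σ (σ u), by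
    simp only [hτ, map_sub, h3, nsmulAddMonoidHom_apply]
    abel⟩
  have h4 : A.comap τ ≤ F ⊔ A := by
    rintro u ⟨v, hv⟩
    simp only [nsmulAddMonoidHom_apply, hτ] at hv
    have hN : v + σ v + σ (σ v) = 0 := by
      have : (3 : ℤ) • (v + σ v + σ (σ v)) = 0 := by
        have e1 : (3 : ℤ) • v = σ u - u := by rw [← hv]; norm_cast
        rw [smul_add, smul_add, ← map_smul, ← map_smul, ← map_smul, e1]
        simp only [map_sub, h3]
        abel
      exact (smul_eq_zero.1 this).resolve_left (by norm_num)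
    obtain ⟨y, rfl⟩ := h v hN
    refine AddSubgroup.mem_sup.2 ⟨u - 3 • y, ?_, 3 • y, ⟨y, rfl⟩, by abel⟩
    show σ (u - 3 • y) - (u - 3 • y) = 0
    simp only [map_sub, map_nsmul]
    rw [← sub_eq_zero] at hv
    rw [← neg_eq_zero, ← hv]
    simp only [smul_sub]
    abel
  have hA0 : A.index ≠ 0 := by rw [hA]; positivity
  have hne : ∀ B : AddSubgroup M, A.relIndex B ≠ 0 := fun B h =>
    hA0 (AddSubgroup.index_eq_zero_of_relIndex_eq_zero h)
  have hF : (F.map (nsmulAddMonoidHom (α := M) 3)).relIndex F =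
      3 ^ finrank ℤ (LinearMap.ker (σ - LinearMap.id)) := AddSubgroup.relIndex_map_nsmul 3 F
  have h5 : A.relIndex (A.comap τ) ≤ 3 ^ finrank ℤ (LinearMap.ker (σ - LinearMap.id)) := by
    refine (AddSubgroup.relIndex_le_of_le_right h4 (hne _)).trans ?_
    rw [AddSubgroup.relIndex_sup_right, ← hF]
    exact AddSubgroup.relIndex_le_of_le_left (AddSubgroup.map_le_range _ _)
      (by rw [hF]; positivity)
  have h6 := (AlgAux.index_le_cube τ A hA0 h1 h2).trans (Nat.pow_le_pow_left h5 3)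
  rw [hA, ← pow_mul, mul_comm] at h6
  exact (Nat.pow_le_pow_iff_right (by norm_num)).1 h6

theorem choose_T (K : Type) [Field K] [NumberField K] :
    ∃ T : Finset (HeightOneSpectrum (𝓞 K)), (∀ q ∈ T, (3 : 𝓞 K) ∉ q.asIdeal) ∧
      3 ^ T.card ≤ h3 K ∧ Sat T := by
  have hP : (powMonoidHom 3 : ClassGroup (𝓞 K) →* _).range.index = h3 K := by
    rw [Subgroup.index_range]
    rfl
  obtain ⟨T, h1, h2, h3⟩ := AlgAux.greedy (cls (K := K)) (fun q => (3 : 𝓞 K) ∉ q.asIdeal)
    AlgAux.eq_top_of_cls (powMonoidHom 3 : ClassGroup (𝓞 K) →* _).range (fun x => ⟨x, rfl⟩) _ ∅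
    (by simp) (by simp) rfl
  exact ⟨T, h1, hP ▸ h2, AlgAux.sat_of_top _ h3⟩

end Pool.Agent.Lib.MP_af4c59_nt.K9
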