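import Pool.Agent.Lib.MP_af4c59_nt.K9Aux1
import Pool.Agent.Lib.MP_af4c59_nt.H32ConicA

/-!
The types at the auxiliary prime (part C2).
-/

set_option autoImplicit false

namespace Pool.Agent.Lib.MP_af4c59_nt.K9

open NumberField Module IsDedekindDomain

namespace AuxAux

/-- Choice of a reference point in every class. -/
theorem types {X I : Type} (On : X → Prop) (s : X → I) (R R' : X → X → Prop)
    (h1 : ∀ x y, On x → On y → s x = s y → R x y ∨ R' x y)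
    (h2 : ∀ x y r, On x → On y → On r → (R x r ∧ R y r) ∨ (R' x r ∧ R' y r) → R x y) :
    ∃ t : X → Bool, ∀ x y, On x → On y → s x = s y → t x = t y → R x y := by
  classical
  rcases isEmpty_or_nonempty X with hX | hX
  · exact ⟨fun _ => true, fun x => isEmptyElim x⟩
  have hr : ∀ i : I, ∃ r, (∃ x, On x ∧ s x = i) → On r ∧ s r = i := fun i => by
    by_cases h : ∃ x, On x ∧ s x = i
    · obtain ⟨x, hx⟩ := h
      exact ⟨x, fun _ => hx⟩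
    · exact ⟨Classical.arbitrary X, fun h' => absurd h' h⟩
  choose r hr using hr
  refine ⟨fun x => decide (R x (r (s x))), fun x y hx hy e1 e2 => ?_⟩
  obtain ⟨r1, r2⟩ := hr (s x) ⟨x, hx, rfl⟩
  simp only [← e1, decide_eq_decide] at e2
  refine h2 x y (r (s x)) hx hy r1 ?_
  by_cases hR : R x (r (s x))
  · exact Or.inl ⟨hR, e2.1 hR⟩
  · exact Or.inr ⟨(h1 _ _ hx r1 r2.symm).resolve_left hR,
      (h1 _ _ hy r1 (e1.symm.trans r2.symm)).resolve_left fun h' => hR (e2.2 h')⟩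

section Ultra

variable {K : Type} [NormedField K] [IsUltrametricDist K]

theorem nadd {x y : K} {r : ℝ} (hx : ‖x‖ ≤ r) (hy : ‖y‖ ≤ r) : ‖x + y‖ ≤ r :=
  (IsUltrametricDist.norm_add_le_max x y).trans (max_le hx hy)

theorem nsub {x y : K} {r : ℝ} (hx : ‖x‖ ≤ r) (hy : ‖y‖ ≤ r) : ‖x - y‖ ≤ r := by
  rw [sub_eq_add_neg]
  exact nadd hx (by rwa [norm_neg])

theorem nadd_lt {x y : K} {r : ℝ} (hx : ‖x‖ < r) (hy : ‖y‖ < r) : ‖x + y‖ < r :=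
  (IsUltrametricDist.norm_add_le_max x y).trans_lt (max_lt hx hy)

theorem nsub_lt {x y : K} {r : ℝ} (hx : ‖x‖ < r) (hy : ‖y‖ < r) : ‖x - y‖ < r := by
  rw [sub_eq_add_neg]
  exact nadd_lt hx (by rwa [norm_neg])

omit [IsUltrametricDist K] in
theorem nmul {x y : K} {r : ℝ} (hx : ‖x‖ ≤ 1) (hy : ‖y‖ ≤ r) : ‖x * y‖ ≤ r := by
  rw [norm_mul]
  exact (mul_le_of_le_one_left (norm_nonneg _) hx).trans hy

omit [IsUltrametricDist K] in
theorem nmul' {x y : K} {r : ℝ} (hx : ‖x‖ ≤ r) (hy : ‖y‖ ≤ 1) : ‖x * y‖ ≤ r := by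
  rw [mul_comm]
  exact nmul hy hx

theorem root_le {t a b c : K} (ha : ‖a‖ ≤ 1) (hb : ‖b‖ ≤ 1) (hc : ‖c‖ ≤ 1)
    (h : t ^ 3 = a * t ^ 2 + b * t + c) : ‖t‖ ≤ 1 := by
  by_contra hlt
  have h1 : 1 < ‖t‖ := not_le.1 hlt
  have h2 : ‖t‖ ≤ ‖t‖ ^ 2 := by nlinarith
  have h3 : ‖a * t ^ 2 + b * t + c‖ ≤ ‖t‖ ^ 2 :=
    nadd (nadd (nmul ha (norm_pow t 2).le) (nmul hb h2)) (hc.trans (h1.le.trans h2))
  rw [← h, norm_pow] at h3
  nlinarith [pow_pos (lt_trans one_pos h1) 2]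

/-- Two points of one residue class: one of the two signs is small. -/
theorem sign_small {u v : K} {π : ℝ} (hπ : π < 1) (h2 : ‖(2 : K)‖ = 1)
    (hu : ‖u‖ = 1 ∨ ‖u‖ ≤ π) (hv : ‖v‖ = 1 ∨ ‖v‖ ≤ π) (h : ‖u ^ 2 - v ^ 2‖ ≤ π) :
    ‖u - v‖ ≤ π ∨ ‖u + v‖ ≤ π := by
  have h0 : 0 ≤ π := (norm_nonneg _).trans h
  have hv1 : ‖v‖ ≤ 1 := hv.elim le_of_eq fun h => h.trans hπ.le
  rcases hu with hu | hu
  · rw [show u ^ 2 - v ^ 2 = (u - v) * (u + v) by ring, norm_mul] at h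
    have a1 := nsub hu.le hv1
    have a2 := nadd hu.le hv1
    rcases a1.eq_or_lt with e | e
    · right
      rwa [e, one_mul] at h
    rcases a2.eq_or_lt with e' | e'
    · left
      rwa [e', mul_one] at h
    have := nadd_lt e e'
    rw [show u - v + (u + v) = 2 * u by ring, norm_mul, h2, hu] at this
    norm_num at this
  · rcases hv with hv | hv
    · exfalso
      have a1 : ‖u ^ 2‖ ≤ π := by
        rw [pow_two]
        exact nmul (hu.trans hπ.le) hu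
      have a2 := nsub a1 h
      rw [show u ^ 2 - (u ^ 2 - v ^ 2) = v ^ 2 by ring, norm_pow, hv] at a2
      linarith
    · exact Or.inl (nsub hu hv)

/-- Transfer of the sign through a reference point. -/
theorem sign_trans {xa xb ya yb ra rb e : K} {π : ℝ} (he : e * e = 1) (h1 : ‖xa‖ ≤ 1)
    (h2 : ‖xb‖ ≤ 1) (h3 : ‖ya‖ ≤ 1) (h4 : ‖yb‖ ≤ 1) (hr : ‖ra‖ = 1 ∨ ‖rb‖ = 1)
    (hx : ‖xa * rb - e * (xb * ra)‖ ≤ π) (hy : ‖ya * rb - e * (yb * ra)‖ ≤ π) :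
    ‖xa * yb - xb * ya‖ ≤ π := by
  rcases hr with hr | hr
  · have hn : ‖e‖ = 1 := by
      have := congrArg norm he
      rw [norm_mul, norm_one] at this
      nlinarith [norm_nonneg e]
    have := nsub (nmul h3 hx) (nmul h1 hy)
    rwa [show ya * (xa * rb - e * (xb * ra)) - xa * (ya * rb - e * (yb * ra)) =
      e * (ra * (xa * yb - xb * ya)) by ring, norm_mul, norm_mul, hn, hr, one_mul, one_mul] at this
  · have := nsub (nmul h4 hx) (nmul h2 hy)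
    rwa [show yb * (xa * rb - e * (xb * ra)) - xb * (ya * rb - e * (yb * ra)) =
      rb * (xa * yb - xb * ya) by ring, norm_mul, hr, one_mul] at this

/-- The last step, with a unit index `0`. -/
theorem top_small {x0 x1 x2 y0 y1 y2 T0 T1 T2 c : K} {π : ℝ} (h2 : ‖(2 : K)‖ = 1)
    (hx : ‖x0‖ = 1) (hy : ‖y0‖ = 1) (d1 : ‖T0 - T1‖ = 1) (d2 : ‖T0 - T2‖ = 1)
    (d3 : ‖T1 - T2‖ = 1)
    (ex : x0 ^ 2 * (T1 - T2) + x1 ^ 2 * (T2 - T0) + x2 ^ 2 * (T0 - T1) = 0)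
    (ey : y0 ^ 2 * (T1 - T2) + y1 ^ 2 * (T2 - T0) + y2 ^ 2 * (T0 - T1) = 0)
    (exy : x0 * y0 * (T1 - T2) + x1 * y1 * (T2 - T0) + x2 * y2 * (T0 - T1) =
      c * ((T0 - T1) * (T0 - T2) * (T1 - T2)))
    (r1 : ‖x0 * y1 - x1 * y0‖ ≤ π) (r2 : ‖x0 * y2 - x2 * y0‖ ≤ π) : ‖c‖ ≤ π ^ 2 := by
  have a1 : ‖(x0 * y1 - x1 * y0) ^ 2‖ ≤ π ^ 2 := by
    rw [norm_pow]
    exact pow_le_pow_left₀ (norm_nonneg _) r1 2
  have a2 : ‖(x0 * y2 - x2 * y0) ^ 2‖ ≤ π ^ 2 := by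
    rw [norm_pow]
    exact pow_le_pow_left₀ (norm_nonneg _) r2 2
  have a3 := nsub (nmul d2.le a1) (nmul d1.le a2)
  have e : (T0 - T2) * (x0 * y1 - x1 * y0) ^ 2 - (T0 - T1) * (x0 * y2 - x2 * y0) ^ 2 =
      2 * (x0 * (y0 * (c * ((T0 - T1) * (T0 - T2) * (T1 - T2))))) := by
    linear_combination (-y0 ^ 2) * ex - x0 ^ 2 * ey + 2 * x0 * y0 * exy
  rw [e] at a3
  simpa only [norm_mul, h2, hx, hy, d1, d2, d3, one_mul, mul_one] using a3

end Ultra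

section Padic

variable {p : ℕ} [Fact p.Prime]

theorem norm_int (m : ℤ) : ‖(m : PadicAlgCl p)‖ = ‖(m : ℚ_[p])‖ := by
  rw [← PadicAlgCl.norm_extends, map_intCast]

theorem int_le (m : ℤ) : ‖(m : PadicAlgCl p)‖ ≤ 1 := by
  rw [norm_int]
  exact Padic.norm_int_le_one m

theorem int_lt {m : ℤ} : ‖(m : PadicAlgCl p)‖ < 1 ↔ (p : ℤ) ∣ m := by
  rw [norm_int]
  exact Padic.norm_intCast_lt_one_iff

theorem int_eq {m : ℤ} (h : ¬ (p : ℤ) ∣ m) : ‖(m : PadicAlgCl p)‖ = 1 :=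
  (int_le m).eq_or_lt.resolve_right fun h' => h (int_lt.1 h')

theorem int_pow {m : ℤ} {k : ℕ} : ‖(m : PadicAlgCl p)‖ ≤ ((p : ℝ)⁻¹) ^ k ↔ (p : ℤ) ^ k ∣ m := by
  rw [norm_int, ← Padic.norm_int_le_pow_iff_dvd, inv_pow, zpow_neg, zpow_natCast]

theorem int_small {m : ℤ} (h : (p : ℤ) ∣ m) : ‖(m : PadicAlgCl p)‖ ≤ (p : ℝ)⁻¹ := by
  have := (int_pow (p := p) (m := m) (k := 1)).2 (by rwa [pow_one])
  rwa [pow_one] at this

theorem res_type : ∃ t : ℤ × ℤ → Option (ZMod p), ∀ x y : ℤ × ℤ, t x = t y →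
    (p : ℤ) ∣ x.1 * y.2 - y.1 * x.2 := by
  classical
  refine ⟨fun x => if (x.2 : ZMod p) = 0 then none else some ((x.1 : ZMod p) / x.2),
    fun x y h => ?_⟩
  rw [← ZMod.intCast_zmod_eq_zero_iff_dvd]
  push_cast
  by_cases h1 : (x.2 : ZMod p) = 0 <;> by_cases h2 : (y.2 : ZMod p) = 0
  · rw [h1, h2]; ring
  · simp [h1, h2] at h
  · simp [h1, h2] at h
  · simp only [h1, h2, if_false, Option.some.injEq] at h
    rw [div_eq_div_iff h1 h2] at h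
    exact sub_eq_zero.2 h

variable {H : ℝ} {g s n : ℤ} {S : Finset (ℤ × ℤ)} {c : ℤ × ℤ → ℤ × ℤ → Fin 3 → ℚ}
  {T : Fin 3 → PadicAlgCl p} {w : ℤ × ℤ → Fin 3 → PadicAlgCl p}

theorem T_le (h : Pad (PadicAlgCl p) g s n S c T w) (a : Fin 3) : ‖T a‖ ≤ 1 := by
  refine root_le (int_le (s ^ 2)) (int_le (72 * s * n ^ 3))
    (int_le (-16 * (4 * s ^ 3 * n ^ 3 + 27 * n ^ 6))) ?_
  push_cast
  linear_combination root_eq h.e1 h.e2 h.e3 a

theorem w_le (h : Pad (PadicAlgCl p) g s n S c T w) {x : ℤ × ℤ} (hx : x ∈ S) (a : Fin 3) :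
    ‖w x a‖ ≤ 1 := by
  have h1 := nsub (int_le (p := p) (4 * x.1)) (nmul (int_le (x.2 * g ^ 2)) (T_le h a))
  push_cast at h1
  rw [← h.sq x hx a, norm_pow] at h1
  exact (sq_le_one_iff₀ (norm_nonneg _)).1 h1

theorem diff_eq (h : Pad (PadicAlgCl p) g s n S c T w) (hd : ¬ (p : ℤ) ∣ 6 * g * DD s n) :
    ‖T 0 - T 1‖ = 1 ∧ ‖T 0 - T 2‖ = 1 ∧ ‖T 1 - T 2‖ = 1 := by
  have hp : Prime (p : ℤ) := Nat.prime_iff_prime_int.1 Fact.out
  have h1 : ¬ (p : ℤ) ∣ 256 * DD s n ^ 3 := fun h' => by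
    rcases hp.dvd_or_dvd h' with h' | h'
    · have : (p : ℤ) ∣ 2 := hp.dvd_of_dvd_pow (n := 8) (by norm_num; exact h')
      exact hd ((this.trans ⟨3, by norm_num⟩).mul_right _ |>.mul_right _)
    · exact hd ((hp.dvd_of_dvd_pow h').mul_left _)
  have h2 := int_eq h1
  have e : ((256 * DD s n ^ 3 : ℤ) : PadicAlgCl p) =
      ((T 0 - T 1) * (T 0 - T 2) * (T 1 - T 2)) ^ 2 := by
    have e0 : ∀ a b d : PadicAlgCl p, ((a - b) * (a - d) * (b - d)) ^ 2 =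
        (a + b + d) ^ 2 * (a * b + a * d + b * d) ^ 2 - 4 * (a * b + a * d + b * d) ^ 3 -
          4 * (a + b + d) ^ 3 * (a * b * d) +
          18 * (a + b + d) * (a * b + a * d + b * d) * (a * b * d) - 27 * (a * b * d) ^ 2 := by
      intro a b d
      ring
    rw [e0, h.e1, h.e2, h.e3, DD]
    push_cast
    ring
  rw [e, norm_pow, norm_mul, norm_mul] at h2
  have a1 := nsub (T_le h 0) (T_le h 1)
  have a2 := nsub (T_le h 0) (T_le h 2)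
  have a3 := nsub (T_le h 1) (T_le h 2)
  have b1 := norm_nonneg (T 0 - T 1)
  have b2 := norm_nonneg (T 0 - T 2)
  have b3 := norm_nonneg (T 1 - T 2)
  generalize ‖T 0 - T 1‖ = u at *
  generalize ‖T 0 - T 2‖ = v at *
  generalize ‖T 1 - T 2‖ = z at *
  have h3 : u * v * z = 1 := (pow_eq_one_iff_of_nonneg (by positivity) two_ne_zero).1 h2
  have c1 : v * z ≤ 1 := mul_le_one₀ a2 b3 a3
  have c2 : u * z ≤ 1 := mul_le_one₀ a1 b3 a3
  have c3 : u * v ≤ 1 := mul_le_one₀ a1 b2 a2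
  refine ⟨le_antisymm a1 ?_, le_antisymm a2 ?_, le_antisymm a3 ?_⟩ <;> nlinarith

theorem diff_ne (h : Pad (PadicAlgCl p) g s n S c T w) (hd : ¬ (p : ℤ) ∣ 6 * g * DD s n)
    {a b : Fin 3} (hab : a ≠ b) : ‖T a - T b‖ = 1 := by
  obtain ⟨h1, h2, h3⟩ := diff_eq h hd
  fin_cases a <;> fin_cases b <;>
    first | exact absurd rfl hab | assumption | (rw [norm_sub_rev]; assumption)

theorem two_eq (hd : ¬ (p : ℤ) ∣ 6 * g * DD s n) : ‖(2 : PadicAlgCl p)‖ = 1 := by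
  have := int_eq (p := p) (m := 2) fun h' =>
    hd ((h'.trans ⟨3, by norm_num⟩).mul_right _ |>.mul_right _)
  simpa using this

/-- At most one index is not a unit. -/
theorem unit_or (h : Pad (PadicAlgCl p) g s n S c T w) (hd : ¬ (p : ℤ) ∣ 6 * g * DD s n)
    {x : ℤ × ℤ} (hx : x ∈ S) (hb : Box H g s n x) {a b : Fin 3} (hab : a ≠ b) :
    ‖w x a‖ = 1 ∨ ‖w x b‖ = 1 := by
  have hp : Prime (p : ℤ) := Nat.prime_iff_prime_int.1 Fact.out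
  by_contra hc
  obtain ⟨h1, h2⟩ := not_or.1 hc
  have a1 : ‖w x a ^ 2‖ < 1 := by
    rw [norm_pow]
    exact pow_lt_one₀ (norm_nonneg _) ((w_le h hx a).lt_of_ne h1) two_ne_zero
  have a2 : ‖w x b ^ 2‖ < 1 := by
    rw [norm_pow]
    exact pow_lt_one₀ (norm_nonneg _) ((w_le h hx b).lt_of_ne h2) two_ne_zero
  have hg : ‖(g : PadicAlgCl p)‖ = 1 := int_eq fun h' => hd ((h'.mul_left _).mul_right _)
  have a3 := nsub_lt a2 a1
  rw [h.sq x hx a, h.sq x hx b, show 4 * (x.1 : PadicAlgCl p) - x.2 * g ^ 2 * T b -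
    (4 * x.1 - x.2 * g ^ 2 * T a) = x.2 * (g ^ 2 * (T a - T b)) by ring, norm_mul, norm_mul,
    norm_pow, hg, diff_ne h hd hab, one_pow, mul_one, mul_one] at a3
  have a4 : ‖(x.2 : PadicAlgCl p) * g ^ 2 * T a‖ < 1 :=
    lt_of_le_of_lt (nmul' (nmul' le_rfl (by rw [norm_pow, hg, one_pow])) (T_le h a)) a3
  have a5 := nadd_lt a1 a4
  rw [h.sq x hx a, sub_add_cancel, show (4 : PadicAlgCl p) = 2 * 2 by norm_num, norm_mul, norm_mul,
    two_eq hd, one_mul, one_mul] at a5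
  exact hp.not_isUnit (hb.2.2.2.1.isUnit_of_dvd' (int_lt.1 a5) (int_lt.1 a3))

/-- A square root is a unit or divisible by `p`. -/
theorem unit_or_small (h : Pad (PadicAlgCl p) g s n S c T w) (hd : ¬ (p : ℤ) ∣ 6 * g * DD s n)
    {x : ℤ × ℤ} (hx : x ∈ S) (hb : Box H g s n x) (a : Fin 3) :
    ‖w x a‖ = 1 ∨ ‖w x a‖ ≤ (p : ℝ)⁻¹ := by
  have hp : Prime (p : ℤ) := Nat.prime_iff_prime_int.1 Fact.out
  by_cases h1 : ‖w x a‖ = 1
  · exact Or.inl h1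
  right
  obtain ⟨e, m, -, he, -, hm⟩ := hb.2.2.2.2
  have hen : ‖(e : PadicAlgCl p)‖ = 1 := int_eq fun h' => hd (by
    have := (h'.trans he).mul_right (s ^ 3 - 27 * n ^ 3)
    rwa [show 6 * (g * n) * (s ^ 3 - 27 * n ^ 3) = 6 * g * DD s n by rw [DD]; ring] at this)
  have e1 : (e : PadicAlgCl p) * (w x 0 * w x 1 * w x 2) ^ 2 = -(2 * 2 * m) ^ 2 := by
    have e2 : ((e * Gf (g * s) (g * n) x.1 x.2 : ℤ) : PadicAlgCl p) = ((m ^ 2 : ℤ) : PadicAlgCl p) :=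
      congrArg _ hm
    rw [Gf] at e2
    push_cast at e2
    rw [mul_pow, mul_pow, h.sq x hx, h.sq x hx, h.sq x hx]
    linear_combination (-16) * e2 - 16 * e * x.1 ^ 2 * x.2 * g ^ 2 * h.e1 +
      4 * e * x.1 * x.2 ^ 2 * g ^ 4 * h.e2 - e * x.2 ^ 3 * g ^ 6 * h.e3
  have e3 := congrArg norm e1
  rw [norm_mul, hen, one_mul, norm_neg, norm_pow, norm_pow, norm_mul, norm_mul, norm_mul, norm_mul,
    two_eq hd, one_mul, one_mul] at e3
  have e4 := (pow_left_inj₀ (by positivity) (norm_nonneg _) two_ne_zero).1 e3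
  have e5 : ‖w x a‖ = ‖(m : PadicAlgCl p)‖ := by
    have u : ∀ b, a ≠ b → ‖w x b‖ = 1 := fun b hab => (unit_or h hd hx hb hab).resolve_left h1
    rw [← e4]
    fin_cases a
    · rw [u 1 (by decide), u 2 (by decide), mul_one, mul_one]; rfl
    · rw [u 0 (by decide), u 2 (by decide), mul_one, one_mul]; rfl
    · rw [u 0 (by decide), u 1 (by decide), one_mul, one_mul]; rfl
  rw [e5] at h1 ⊢
  exact int_small (int_lt.1 ((int_le m).lt_of_ne h1))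

theorem mul_or {x y : PadicAlgCl p} (hx : ‖x‖ = 1 ∨ ‖x‖ ≤ (p : ℝ)⁻¹)
    (hy : ‖y‖ = 1 ∨ ‖y‖ ≤ (p : ℝ)⁻¹) (hx1 : ‖x‖ ≤ 1) (hy1 : ‖y‖ ≤ 1) :
    ‖x * y‖ = 1 ∨ ‖x * y‖ ≤ (p : ℝ)⁻¹ := by
  rcases hx with hx | hx
  · rcases hy with hy | hy
    · left; rw [norm_mul, hx, hy, mul_one]
    · exact Or.inr (nmul hx1 hy)
  · exact Or.inr (nmul' hx hy1)

/-- The type for one pair of indices. -/
theorem pair_type (h : Pad (PadicAlgCl p) g s n S c T w) (hd : ¬ (p : ℤ) ∣ 6 * g * DD s n)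
    (hS : ∀ x ∈ S, Box H g s n x) {I : Type} (r : ℤ × ℤ → I)
    (hr : ∀ x y : ℤ × ℤ, r x = r y → (p : ℤ) ∣ x.1 * y.2 - y.1 * x.2) {a b : Fin 3} (hab : a ≠ b) :
    ∃ t : ℤ × ℤ → Bool, ∀ x ∈ S, ∀ y ∈ S, r x = r y → t x = t y →
      ‖w x a * w y b - w x b * w y a‖ ≤ (p : ℝ)⁻¹ := by
  have hπ : (p : ℝ)⁻¹ < 1 :=
    inv_lt_one_of_one_lt₀ (by exact_mod_cast (Fact.out : p.Prime).one_lt)
  obtain ⟨t, ht⟩ := types (fun x => x ∈ S) r
    (fun x y => ‖w x a * w y b - w x b * w y a‖ ≤ (p : ℝ)⁻¹)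
    (fun x y => ‖w x a * w y b + w x b * w y a‖ ≤ (p : ℝ)⁻¹) (fun x y hx hy e => by
      refine sign_small hπ (two_eq hd)
        (mul_or (unit_or_small h hd hx (hS x hx) a) (unit_or_small h hd hy (hS y hy) b)
          (w_le h hx a) (w_le h hy b))
        (mul_or (unit_or_small h hd hx (hS x hx) b) (unit_or_small h hd hy (hS y hy) a)
          (w_le h hx b) (w_le h hy a)) ?_
      have h1 := nmul (nmul (int_le (p := p) (4 * g ^ 2)) (diff_ne h hd hab).le)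
        (int_small (hr x y e))
      push_cast at h1
      rw [mul_pow, mul_pow, h.sq x hx, h.sq x hx, h.sq y hy, h.sq y hy]
      convert h1 using 2
      ring) (fun x y z hx hy hz H => by
      rcases H with ⟨H1, H2⟩ | ⟨H1, H2⟩
      · exact sign_trans (e := 1) (one_mul 1) (w_le h hx a) (w_le h hx b) (w_le h hy a)
          (w_le h hy b) (unit_or h hd hz (hS z hz) hab) (by rwa [one_mul]) (by rwa [one_mul])
      · exact sign_trans (e := -1) (by ring) (w_le h hx a) (w_le h hx b) (w_le h hy a)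
          (w_le h hy b) (unit_or h hd hz (hS z hz) hab) (by rwa [neg_one_mul, sub_neg_eq_add])
          (by rwa [neg_one_mul, sub_neg_eq_add]))
  exact ⟨t, fun x hx y hy => ht x y hx hy⟩

theorem c_small (h : Pad (PadicAlgCl p) g s n S c T w) (hd : ¬ (p : ℤ) ∣ 6 * g * DD s n)
    (hS : ∀ x ∈ S, Box H g s n x) {x y : ℤ × ℤ} (hx : x ∈ S) (hy : y ∈ S)
    (r01 : ‖w x 0 * w y 1 - w x 1 * w y 0‖ ≤ (p : ℝ)⁻¹)
    (r02 : ‖w x 0 * w y 2 - w x 2 * w y 0‖ ≤ (p : ℝ)⁻¹)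
    (r12 : ‖w x 1 * w y 2 - w x 2 * w y 1‖ ≤ (p : ℝ)⁻¹) :
    ‖(c x y 2 : PadicAlgCl p)‖ ≤ (p : ℝ)⁻¹ ^ 2 := by
  have key : ∀ a b d : Fin 3, a ≠ b → a ≠ d → b ≠ d → ‖w x a‖ = 1 → ‖w y a‖ = 1 →
      ‖w x a * w y b - w x b * w y a‖ ≤ (p : ℝ)⁻¹ → ‖w x a * w y d - w x d * w y a‖ ≤ (p : ℝ)⁻¹ →
      ‖(c x y 2 : PadicAlgCl p)‖ ≤ (p : ℝ)⁻¹ ^ 2 := by
    intro a b d hab had hbd u1 u2 r1 r2
    refine top_small (x1 := w x b) (x2 := w x d) (y1 := w y b) (y2 := w y d) (two_eq hd) u1 u2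
      (diff_ne h hd hab) (diff_ne h hd had) (diff_ne h hd hbd) ?_ ?_ ?_ r1 r2
    · rw [h.sq x hx, h.sq x hx, h.sq x hx]; ring
    · rw [h.sq y hy, h.sq y hy, h.sq y hy]; ring
    · rw [h.mul x hx y hy, h.mul x hx y hy, h.mul x hx y hy]; ring
  have ux := fun (a b : Fin 3) (hab : a ≠ b) => unit_or h hd hx (hS x hx) hab
  have uy := fun (a b : Fin 3) (hab : a ≠ b) => unit_or h hd hy (hS y hy) hab
  by_cases h0 : ‖w x 0‖ = 1 ∧ ‖w y 0‖ = 1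
  · exact key 0 1 2 (by decide) (by decide) (by decide) h0.1 h0.2 r01 r02
  by_cases h1 : ‖w x 1‖ = 1 ∧ ‖w y 1‖ = 1
  · exact key 1 0 2 (by decide) (by decide) (by decide) h1.1 h1.2 (by rwa [norm_sub_rev]) r12
  have h2 : ‖w x 2‖ = 1 ∧ ‖w y 2‖ = 1 := by
    have a1 := ux 0 1 (by decide)
    have a2 := ux 0 2 (by decide)
    have a3 := ux 1 2 (by decide)
    have b1 := uy 0 1 (by decide)
    have b2 := uy 0 2 (by decide)
    have b3 := uy 1 2 (by decide)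
    tauto
  exact key 2 0 1 (by decide) (by decide) (by decide) h2.1 h2.2 (by rwa [norm_sub_rev])
    (by rwa [norm_sub_rev])

end Padic

end AuxAux

open AuxAux in
theorem aux_types {H : ℝ} {g s n : ℤ} (hP : Par H g s n) {T : Fin 3 → ℂ} (hT : Roots s n T)
    {S : Finset (ℤ × ℤ)} (hS : ∀ p ∈ S, Box H g s n p) {c : ℤ × ℤ → ℤ × ℤ → Fin 3 → ℚ}
    (hc : Sys g T S c) {p₀ : ℕ} (hp₀ : p₀.Prime) (hd : ¬ (p₀ : ℤ) ∣ 6 * g * DD s n) :
    ∃ t : ℤ × ℤ → ℕ, (∀ p ∈ S, t p < 8 * (p₀ + 1)) ∧ ∀ p ∈ S, ∀ q ∈ S, t p = t q →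
      ∀ m : ℤ, 648 * c p q 2 = m * (g : ℚ) ^ 2 → (p₀ : ℤ) ^ 2 ∣ m := by
  have : Fact p₀.Prime := ⟨hp₀⟩
  obtain ⟨T', w, h⟩ := exists_pad (PadicAlgCl p₀) hT hS hc
  obtain ⟨r, hr⟩ := res_type (p := p₀)
  obtain ⟨t1, h1⟩ := pair_type h hd hS r hr (a := 0) (b := 1) (by decide)
  obtain ⟨t2, h2⟩ := pair_type h hd hS r hr (a := 0) (b := 2) (by decide)
  obtain ⟨t3, h3⟩ := pair_type h hd hS r hr (a := 1) (b := 2) (by decide)
  have hcard : Fintype.card (Option (ZMod p₀) × Bool × Bool × Bool) = 8 * (p₀ + 1) := by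
    simp only [Fintype.card_prod, Fintype.card_option, ZMod.card, Fintype.card_bool]
    ring
  let e := Fintype.equivFinOfCardEq hcard
  refine ⟨fun x => e (r x, t1 x, t2 x, t3 x), fun x _ => (e _).2, fun x hx y hy ht m hm => ?_⟩
  have h4 := e.injective (Fin.ext ht)
  simp only [Prod.mk.injEq] at h4
  obtain ⟨e0, e1, e2, e3⟩ := h4
  have h5 := c_small h hd hS hx hy (h1 x hx y hy e0 e1) (h2 x hx y hy e0 e2) (h3 x hx y hy e0 e3)
  have h6 := nmul (int_le (p := p₀) 648) h5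
  have h7 := congrArg (Rat.cast : ℚ → PadicAlgCl p₀) hm
  have hg : ‖(g : PadicAlgCl p₀)‖ = 1 := int_eq fun h' => hd ((h'.mul_left _).mul_right _)
  push_cast at h6 h7
  rw [h7, norm_mul, norm_pow, hg, one_pow, mul_one] at h6
  exact int_pow.1 h6

end Pool.Agent.Lib.MP_af4c59_nt.K9
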