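import Pool.Agent.Lib.MP_af4c59_nt.K9Sys

/-!
Transfer of a compatible system of square roots to an algebraically closed field.
-/

set_option autoImplicit false

namespace Pool.Agent.Lib.MP_af4c59_nt.K9

namespace AuxAux

/-- A system of square roots `w` of the descent elements over the field `K`. -/
structure Pad (K : Type) [Field K] (g s n : ℤ) (S : Finset (ℤ × ℤ))
    (c : ℤ × ℤ → ℤ × ℤ → Fin 3 → ℚ) (T : Fin 3 → K) (w : ℤ × ℤ → Fin 3 → K) : Prop where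
  e1 : T 0 + T 1 + T 2 = (s : K) ^ 2
  e2 : T 0 * T 1 + T 0 * T 2 + T 1 * T 2 = -72 * (s : K) * (n : K) ^ 3
  e3 : T 0 * T 1 * T 2 = -16 * (4 * (s : K) ^ 3 * (n : K) ^ 3 + 27 * (n : K) ^ 6)
  sq : ∀ p ∈ S, ∀ a, w p a ^ 2 = 4 * (p.1 : K) - (p.2 : K) * (g : K) ^ 2 * T a
  mul : ∀ p ∈ S, ∀ q ∈ S, ∀ a,
    w p a * w q a = (c p q 0 : K) + (c p q 1 : K) * T a + (c p q 2 : K) * T a ^ 2

theorem Gf_ne {H : ℝ} {g s n : ℤ} {p : ℤ × ℤ} (h : Box H g s n p) :
    Gf (g * s) (g * n) p.1 p.2 ≠ 0 := by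
  obtain ⟨-, -, -, -, e, w, -, -, hw, he⟩ := h
  intro h0
  rw [h0, mul_zero] at he
  exact pow_ne_zero 2 hw he.symm

theorem root_eq {K : Type} [Field K] {s n : K} {T : Fin 3 → K} (e1 : T 0 + T 1 + T 2 = s ^ 2)
    (e2 : T 0 * T 1 + T 0 * T 2 + T 1 * T 2 = -72 * s * n ^ 3)
    (e3 : T 0 * T 1 * T 2 = -16 * (4 * s ^ 3 * n ^ 3 + 27 * n ^ 6)) (a : Fin 3) :
    T a ^ 3 - s ^ 2 * T a ^ 2 - 72 * s * n ^ 3 * T a +
      16 * (4 * s ^ 3 * n ^ 3 + 27 * n ^ 6) = 0 := by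
  fin_cases a
  · show T 0 ^ 3 - s ^ 2 * T 0 ^ 2 - 72 * s * n ^ 3 * T 0 + _ = 0
    linear_combination T 0 ^ 2 * e1 - T 0 * e2 + e3
  · show T 1 ^ 3 - s ^ 2 * T 1 ^ 2 - 72 * s * n ^ 3 * T 1 + _ = 0
    linear_combination T 1 ^ 2 * e1 - T 1 * e2 + e3
  · show T 2 ^ 3 - s ^ 2 * T 2 ^ 2 - 72 * s * n ^ 3 * T 2 + _ = 0
    linear_combination T 2 ^ 2 * e1 - T 2 * e2 + e3

theorem integral_root {s n : ℤ} {T : Fin 3 → ℂ} (hT : Roots s n T) (a : Fin 3) :
    IsIntegral ℚ (T a) := by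
  have h := root_eq hT.e1 hT.e2 hT.e3 a
  refine ⟨(⟨1, -(s : ℚ) ^ 2, -72 * s * (n : ℚ) ^ 3,
    16 * (4 * (s : ℚ) ^ 3 * (n : ℚ) ^ 3 + 27 * (n : ℚ) ^ 6)⟩ : Cubic ℚ).toPoly,
    Cubic.monic_of_a_eq_one', ?_⟩
  simp only [Cubic.toPoly, Polynomial.eval₂_add, Polynomial.eval₂_mul, Polynomial.eval₂_C,
    Polynomial.eval₂_X_pow, Polynomial.eval₂_X, eq_ratCast]
  push_cast
  linear_combination h

theorem exists_pad (K : Type) [Field K] [CharZero K] [IsAlgClosed K] {H : ℝ} {g s n : ℤ}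
    {T : Fin 3 → ℂ} (hT : Roots s n T) {S : Finset (ℤ × ℤ)} (hS : ∀ p ∈ S, Box H g s n p)
    {c : ℤ × ℤ → ℤ × ℤ → Fin 3 → ℚ} (hc : Sys g T S c) :
    ∃ (T' : Fin 3 → K) (w : ℤ × ℤ → Fin 3 → K), Pad K g s n S c T' w := by
  let F := algebraicClosure ℚ ℂ
  have : Algebra.IsAlgebraic ℚ F := algebraicClosure.isAlgebraic ℚ ℂ
  let φ : F →ₐ[ℚ] K := IsAlgClosed.lift
  let t : Fin 3 → F := fun a => ⟨T a, mem_algebraicClosure_iff'.2 (integral_root hT a)⟩
  have ht : ∀ a, F.val (t a) = T a := fun _ => rfl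
  have key : ∀ x y : F, F.val x = F.val y → φ x = φ y := fun x y h =>
    congrArg φ (Subtype.ext h)
  let E : ℤ × ℤ → Fin 3 → K := fun p a => 4 * (p.1 : K) - (p.2 : K) * (g : K) ^ 2 * φ (t a)
  let V : ℤ × ℤ → ℤ × ℤ → Fin 3 → K := fun p q a =>
    (c p q 0 : K) + (c p q 1 : K) * φ (t a) + (c p q 2 : K) * φ (t a) ^ 2
  have hE : ∀ p ∈ S, ∀ a, E p a ≠ 0 := by
    intro p hp a h0
    have h1 : φ (4 * (p.1 : F) - (p.2 : F) * (g : F) ^ 2 * t a) = 0 := by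
      simpa only [map_sub, map_mul, map_pow, map_ofNat, map_intCast] using h0
    have h2 := congrArg F.val ((map_eq_zero φ).1 h1)
    simp only [map_sub, map_mul, map_pow, map_ofNat, map_intCast, map_zero, ht] at h2
    have h3 := eta_prod (g := g) hT p
    have h4 : (-16 * (Gf (g * s) (g * n) p.1 p.2 : ℂ)) ≠ 0 :=
      mul_ne_zero (by norm_num) (by exact_mod_cast Gf_ne (hS p hp))
    rw [← h3] at h4
    have h5 : eta g (T a) p = 0 := h2
    fin_cases a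
    · exact h4 (by rw [show eta g (T 0) p = 0 from h5]; ring)
    · exact h4 (by rw [show eta g (T 1) p = 0 from h5]; ring)
    · exact h4 (by rw [show eta g (T 2) p = 0 from h5]; ring)
  have h1 : ∀ p ∈ S, ∀ q ∈ S, ∀ a, V p q a ^ 2 = E p a * E q a := by
    intro p hp q hq a
    have := key (((c p q 0 : F) + (c p q 1 : F) * t a + (c p q 2 : F) * t a ^ 2) ^ 2)
      ((4 * (p.1 : F) - (p.2 : F) * (g : F) ^ 2 * t a) *
        (4 * (q.1 : F) - (q.2 : F) * (g : F) ^ 2 * t a)) (by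
      simp only [map_add, map_sub, map_mul, map_pow, map_ofNat, map_intCast, map_ratCast, ht]
      exact hc.1 p hp q hq a)
    simpa only [map_add, map_sub, map_mul, map_pow, map_ofNat, map_intCast, map_ratCast] using this
  have h2 : ∀ p ∈ S, ∀ q ∈ S, ∀ r ∈ S, ∀ a, V p q a * E r a = V p r a * V q r a := by
    intro p hp q hq r hr a
    have := key (((c p q 0 : F) + (c p q 1 : F) * t a + (c p q 2 : F) * t a ^ 2) *
        (4 * (r.1 : F) - (r.2 : F) * (g : F) ^ 2 * t a))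
      (((c p r 0 : F) + (c p r 1 : F) * t a + (c p r 2 : F) * t a ^ 2) *
        ((c q r 0 : F) + (c q r 1 : F) * t a + (c q r 2 : F) * t a ^ 2)) (by
      simp only [map_add, map_sub, map_mul, map_pow, map_ofNat, map_intCast, map_ratCast, ht]
      exact hc.2 p hp q hq r hr a)
    simpa only [map_add, map_sub, map_mul, map_pow, map_ofNat, map_intCast, map_ratCast] using this
  have hw : ∃ w : ℤ × ℤ → Fin 3 → K, (∀ p ∈ S, ∀ a, w p a ^ 2 = E p a) ∧
      ∀ p ∈ S, ∀ q ∈ S, ∀ a, w p a * w q a = V p q a := by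
    rcases S.eq_empty_or_nonempty with rfl | ⟨r, hr⟩
    · exact ⟨fun _ _ => 0, by simp, by simp⟩
    choose z hz using fun a => IsAlgClosed.exists_pow_nat_eq (E r a) two_pos
    refine ⟨fun p a => V p r a / z a, fun p hp a => ?_, fun p hp q hq a => ?_⟩
    · rw [div_pow, hz, h1 p hp r hr, mul_div_cancel_right₀ _ (hE r hr a)]
    · rw [div_mul_div_comm, ← h2 p hp q hq r hr, ← pow_two, hz,
        mul_div_cancel_right₀ _ (hE r hr a)]
  obtain ⟨w, w1, w2⟩ := hw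
  refine ⟨fun a => φ (t a), w, ?_, ?_, ?_, w1, w2⟩
  · have := key (t 0 + t 1 + t 2) ((s : F) ^ 2) (by
      simp only [map_add, map_pow, map_intCast, ht]; exact hT.e1)
    simpa only [map_add, map_pow, map_intCast] using this
  · have := key (t 0 * t 1 + t 0 * t 2 + t 1 * t 2) (-72 * (s : F) * (n : F) ^ 3) (by
      simp only [map_add, map_mul, map_neg, map_ofNat, map_pow, map_intCast, ht]; exact hT.e2)
    simpa only [map_add, map_mul, map_neg, map_ofNat, map_pow, map_intCast] using this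
  · have := key (t 0 * t 1 * t 2) (-16 * (4 * (s : F) ^ 3 * (n : F) ^ 3 + 27 * (n : F) ^ 6)) (by
      simp only [map_add, map_mul, map_neg, map_ofNat, map_pow, map_intCast, ht]; exact hT.e3)
    simpa only [map_add, map_mul, map_neg, map_ofNat, map_pow, map_intCast] using this

end AuxAux

end Pool.Agent.Lib.MP_af4c59_nt.K9
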