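import Pool.Agent.Lib.MP_af4c59_nt.K9Sys
import Pool.Agent.Lib.MP_af4c59_nt.H32Div
import Pool.Agent.Lib.MP_af4c59_nt.H32ConicA

/-!
The types at the bad primes (part C1).
-/

set_option autoImplicit false

namespace Pool.Agent.Lib.MP_af4c59_nt.K9

open NumberField Module IsDedekindDomain

namespace LocAux

open WithZero

theorem exists_val (F : Type) [Field F] [NumberField F] (p : ℕ) (hp : p.Prime) :
    ∃ v : Valuation F ℤᵐ⁰, (∀ x : F, IsIntegral ℤ x → v x ≤ 1) ∧ v p < 1 ∧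
      ∀ M K : ℕ, M ≠ 0 → v M ≤ exp (-(K : ℤ)) → K ≤ finrank ℚ F * M.factorization p := by
  have hd : finrank ℤ (𝓞 F) = finrank ℚ F := RingOfIntegers.rank F
  have hd0 : finrank ℚ F ≠ 0 := finrank_pos.ne'
  have hne : Ideal.span {(p : 𝓞 F)} ≠ ⊤ := by
    intro h
    have h1 := Ideal.absNorm_span_natCast (S := 𝓞 F) p
    rw [h, Ideal.absNorm_top, hd] at h1
    exact hp.one_lt.ne' ((Nat.pow_eq_one.1 h1.symm).resolve_right hd0)
  obtain ⟨P, hP, hle⟩ := Ideal.exists_le_maximal _ hne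
  have hpP : (p : 𝓞 F) ∈ P := hle (Ideal.mem_span_singleton_self _)
  have hP0 : P ≠ ⊥ := by
    rintro rfl
    exact hp.ne_zero (by exact_mod_cast Ideal.mem_bot.1 hpP)
  have hN : p ∣ Ideal.absNorm P := by
    have h1 := Ideal.absNorm_dvd_absNorm_of_le hle
    rw [Ideal.absNorm_span_natCast] at h1
    obtain ⟨j, -, hj⟩ := (Nat.dvd_prime_pow hp).1 h1
    rcases Nat.eq_zero_or_pos j with rfl | h0
    · exact absurd (Ideal.absNorm_eq_one_iff.1 (by simpa using hj)) hP.ne_top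
    · rw [hj]
      exact dvd_pow_self p h0.ne'
  let q : HeightOneSpectrum (𝓞 F) := ⟨P, hP.isPrime, hP0⟩
  refine ⟨q.valuation F, fun x hx => q.valuation_le_one (K := F) ⟨x, hx⟩, ?_, fun M K hM h => ?_⟩
  · have := (q.valuation_lt_one_iff_mem (K := F) (p : 𝓞 F)).2 hpP
    simpa using this
  · have h1 : q.intValuation (M : 𝓞 F) ≤ exp (-(K : ℤ)) := by
      rw [← q.valuation_of_algebraMap (K := F)]
      simpa using h
    have h2 := map_dvd Ideal.absNorm ((q.intValuation_le_pow_iff_dvd _ K).1 h1)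
    rw [map_pow, Ideal.absNorm_span_natCast, hd] at h2
    have h3 : p ^ K ∣ M ^ finrank ℚ F := (pow_dvd_pow_of_dvd hN K).trans h2
    have h4 := (hp.pow_dvd_iff_le_factorization (pow_ne_zero _ hM)).1 h3
    simpa [Nat.factorization_pow] using h4

section val

variable {F : Type} [Field F] (v : Valuation F ℤᵐ⁰)

theorem le_of_sq {r a b : F} {m : ℤᵐ⁰} (h : r ^ 2 = a * b) (ha : v a ≤ m) (hb : v b ≤ m) :
    v r ≤ m := by
  have h1 : v r ^ 2 ≤ m ^ 2 := by
    rw [← map_pow, h, map_mul, sq]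
    exact mul_le_mul' ha hb
  exact (pow_le_pow_iff_left₀ zero_le zero_le two_ne_zero).1 h1

theorem eq_of_sq {r a b : F} {m : ℤᵐ⁰} (h : r ^ 2 = a * b) (ha : v a = m) (hb : v b = m) :
    v r = m := by
  have h1 : v r ^ 2 = m ^ 2 := by rw [← map_pow, h, map_mul, sq, ha, hb]
  exact (pow_left_inj₀ zero_le zero_le two_ne_zero).1 h1

theorem two_le (h2 : v 2 ≤ 1) {x : F} {m : ℤᵐ⁰} (h : v x ≤ m) : v (2 * x) ≤ m := by
  rw [map_mul]
  exact (mul_le_of_le_one_left' h2).trans h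

theorem small (h2 : v 2 ≤ 1) {a b a' b' r r' κ : F} (ha : v (a - a') ≤ v κ)
    (hb : v (b - b') ≤ v κ) (h : r ^ 2 = a * b) (h' : r' ^ 2 = a' * b') (h1 : v a ≤ v κ)
    (h3 : v b ≤ v κ) : v (2 * (r - r')) ≤ v κ := by
  have ha' : v a' ≤ v κ := by
    have := v.map_sub_le h1 ha
    rwa [sub_sub_cancel] at this
  have hb' : v b' ≤ v κ := by
    have := v.map_sub_le h3 hb
    rwa [sub_sub_cancel] at this
  exact two_le v h2 (v.map_sub_le (le_of_sq v h h1 h3) (le_of_sq v h' ha' hb'))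

theorem big_eq {a a' κ : F} (ha : v (a - a') ≤ v κ) (h : v κ < v a) : v a' = v a := by
  have := v.map_sub_eq_of_lt_left (lt_of_le_of_lt ha h)
  rwa [sub_sub_cancel] at this

theorem pair_types (h2 : v 2 ≤ 1) {X : Type} (On : X → Prop) (α β : X → F) (r r' : X → X → F)
    (κ : F) (K : ℕ) (hK : exp (-(K : ℤ)) ≤ v κ) (hκ : v κ ≤ 1) (hα : ∀ i, v (α i) ≤ 1)
    (hd : ∀ i, v (α i - β i) ≤ v κ)
    (hr : ∀ i k, On i → On k → r i k ^ 2 = α i * α k)
    (hr' : ∀ i k, On i → On k → r' i k ^ 2 = β i * β k)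
    (hc : ∀ i k l, On i → On k → On l → r i k * α l = r i l * r k l)
    (hc' : ∀ i k l, On i → On k → On l → r' i k * β l = r' i l * r' k l) :
    ∃ t : X → Fin (K + 1) × Bool, ∀ i k, On i → On k → t i = t k →
      v (2 * (r i k - r' i k)) ≤ v κ := by
  have hκ0 : 0 < v κ := lt_of_lt_of_le exp_pos hK
  have hμ0 : ∀ i, max (v (α i)) (v κ) ≠ 0 := fun i => (lt_of_lt_of_le hκ0 (le_max_right _ _)).ne'
  have hl1 : ∀ i, log (max (v (α i)) (v κ)) ≤ 0 := fun i =>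
    (log_le_iff_le_exp (hμ0 i)).2 (by simpa using ⟨hα i, hκ⟩)
  have hl2 : ∀ i, -(K : ℤ) ≤ log (max (v (α i)) (v κ)) := fun i =>
    (le_log_iff_exp_le (hμ0 i)).2 (hK.trans (le_max_right _ _))
  let s : X → Fin (K + 1) := fun i => ⟨(-log (max (v (α i)) (v κ))).toNat, by
    have := hl1 i
    have := hl2 i
    omega⟩
  have hs : ∀ i k, s i = s k → (v (α i) ≤ v κ ∧ v (α k) ≤ v κ) ∨
      (v κ < v (α k) ∧ v (α i) = v (α k)) := by
    intro i k h
    have h1 : (-log (max (v (α i)) (v κ))).toNat = (-log (max (v (α k)) (v κ))).toNat :=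
      Fin.mk.inj h
    have h3 : log (max (v (α i)) (v κ)) = log (max (v (α k)) (v κ)) := by
      have := hl1 i
      have := hl1 k
      omega
    have h4 : max (v (α i)) (v κ) = max (v (α k)) (v κ) := by
      rw [← exp_log (hμ0 i), h3, exp_log (hμ0 k)]
    rcases le_or_gt (v (α k)) (v κ) with h5 | h5
    · rw [max_eq_right h5] at h4
      exact Or.inl ⟨h4 ▸ le_max_left _ _, h5⟩
    · rw [max_eq_left h5.le] at h4
      refine Or.inr ⟨h5, ?_⟩
      rcases max_choice (v (α i)) (v κ) with h6 | h6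
      · rw [← h6, h4]
      · exact absurd (h6.symm.trans h4) h5.ne
  refine H32.ConicA.types On s (fun i k => v (2 * (r i k - r' i k)) ≤ v κ)
    (fun i k => v (2 * (r i k + r' i k)) ≤ v κ) ?_ ?_
  · intro i k hi hk h
    rcases hs i k h with ⟨h1, h3⟩ | ⟨h1, h3⟩
    · exact Or.inl (small v h2 (hd i) (hd k) (hr i k hi hk) (hr' i k hi hk) h1 h3)
    · have hm : 0 < v (α k) := hκ0.trans h1
      have hbi : v (β i) = v (α k) := (big_eq v (hd i) (h3 ▸ h1)).trans h3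
      have hv : v (r i k) = v (α k) := eq_of_sq v (hr i k hi hk) h3 rfl
      have hp : v (r i k - r' i k) * v (r i k + r' i k) ≤ v κ * v (α k) := by
        have e : (r i k - r' i k) * (r i k + r' i k) =
            (α i - β i) * α k + (α k - β k) * β i := by
          linear_combination hr i k hi hk - hr' i k hi hk
        rw [← map_mul, e]
        refine v.map_add_le ?_ ?_ <;> rw [map_mul]
        · exact mul_le_mul' (hd i) le_rfl
        · exact mul_le_mul' (hd k) hbi.le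
      have hq : v 2 * v (α k) ≤ max (v (r i k - r' i k)) (v (r i k + r' i k)) := by
        have e : 2 * r i k = (r i k - r' i k) + (r i k + r' i k) := by ring
        rw [← hv, ← map_mul, e]
        exact v.map_add _ _
      rcases le_max_iff.1 hq with h5 | h5
      · refine Or.inr (le_of_mul_le_mul_right ?_ hm)
        rw [map_mul, mul_right_comm]
        exact (mul_le_mul' h5 le_rfl).trans hp
      · refine Or.inl (le_of_mul_le_mul_right ?_ hm)
        rw [map_mul, mul_right_comm]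
        exact (mul_le_mul' h5 le_rfl).trans (by rwa [mul_comm])
  · intro i k l hi hk hl hil hkl h
    rcases hs i l hil with ⟨h1, h3⟩ | ⟨h1, h3⟩
    · rcases hs k l hkl with ⟨h4, -⟩ | ⟨h4, -⟩
      · exact small v h2 (hd i) (hd k) (hr i k hi hk) (hr' i k hi hk) h1 h4
      · exact absurd h4 (not_lt.2 h3)
    rcases hs k l hkl with ⟨-, h4⟩ | ⟨-, h4⟩
    · exact absurd h1 (not_lt.2 h4)
    have hm : 0 < v (α l) := hκ0.trans h1
    have hbi : v (β i) = v (α l) := (big_eq v (hd i) (h3 ▸ h1)).trans h3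
    have hbk : v (β k) = v (α l) := (big_eq v (hd k) (h4 ▸ h1)).trans h4
    have hbl : v (β l) = v (α l) := big_eq v (hd l) h1
    have v1 : v (r k l) = v (α l) := eq_of_sq v (hr k l hk hl) h4 rfl
    have v2 : v (r' i l) = v (α l) := eq_of_sq v (hr' i l hi hl) hbi hbl
    have v3 : v (r' i k) = v (α l) := eq_of_sq v (hr' i k hi hk) hbi hbk
    have v4 : v (2 * (α l - β l) * r' i k) ≤ v κ * v (α l) := by
      rw [map_mul]
      exact mul_le_mul' (two_le v h2 (hd l)) v3.le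
    refine le_of_mul_le_mul_right ?_ hm
    rw [← map_mul]
    rcases h with ⟨h5, h6⟩ | ⟨h5, h6⟩
    · have e : 2 * (r i k - r' i k) * α l = 2 * (r i l - r' i l) * r k l +
          2 * (r k l - r' k l) * r' i l - 2 * (α l - β l) * r' i k := by
        linear_combination 2 * hc i k l hi hk hl - 2 * hc' i k l hi hk hl
      rw [e]
      refine v.map_sub_le (v.map_add_le ?_ ?_) v4 <;> rw [map_mul]
      · exact mul_le_mul' h5 v1.le
      · exact mul_le_mul' h6 v2.le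
    · have e : 2 * (r i k - r' i k) * α l = 2 * (r i l + r' i l) * r k l -
          2 * (r k l + r' k l) * r' i l - 2 * (α l - β l) * r' i k := by
        linear_combination 2 * hc i k l hi hk hl - 2 * hc' i k l hi hk hl
      rw [e]
      refine v.map_sub_le (v.map_sub_le ?_ ?_) v4 <;> rw [map_mul]
      · exact mul_le_mul' h5 v1.le
      · exact mul_le_mul' h6 v2.le

theorem int_le (z : ℤ) : v z ≤ 1 := by
  induction z using Int.induction_on with
  | zero => simp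
  | succ n h => push_cast at h ⊢; exact v.map_add_le h (by simp)
  | pred n h => push_cast at h ⊢; exact v.map_sub_le h (by simp)

theorem int_mul_le (z : ℤ) {x : F} (h : v x ≤ 1) : v (z * x) ≤ 1 := by
  rw [map_mul]
  exact mul_le_one' (int_le v z) h

theorem final {s n : ℤ} (hsn : IsCoprime s n) {A B C u : F}
    (hV : (A * B * C) ^ 2 = 256 * (DD s n : F) ^ 3) (hP : A ^ 2 + B ^ 2 + C ^ 2 = 2 * (PQ s n : F))
    (hA : v (u * A) ≤ 1) (hB : v (u * B) ≤ 1) (hC : v (u * C) ≤ 1) : v (324 * u) ≤ 1 := by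
  have sq1 : ∀ x : F, v x ≤ 1 → v (x ^ 2) ≤ 1 := fun x hx => by
    rw [map_pow]
    exact pow_le_one' hx 2
  have h1 : v (2 * (PQ s n : F) * u ^ 2) ≤ 1 := by
    have e : 2 * (PQ s n : F) * u ^ 2 = (u * A) ^ 2 + (u * B) ^ 2 + (u * C) ^ 2 := by
      linear_combination (-u ^ 2) * hP
    rw [e]
    exact v.map_add_le (v.map_add_le (sq1 _ hA) (sq1 _ hB)) (sq1 _ hC)
  have h2 : v (8 * (DD s n : F) * u ^ 2) ≤ 1 := by
    have e : (8 * (DD s n : F) * u ^ 2) ^ 3 = ((2 : ℤ) : F) * (u * A * (u * B) * (u * C)) ^ 2 := by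
      push_cast
      linear_combination (-2 * u ^ 6) * hV
    have h3 : v (8 * (DD s n : F) * u ^ 2) ^ 3 ≤ 1 := by
      rw [← map_pow, e]
      refine int_mul_le v 2 (sq1 _ ?_)
      rw [map_mul, map_mul]
      exact mul_le_one' (mul_le_one' hA hB) hC
    exact (pow_le_one_iff_of_nonneg zero_le three_ne_zero).1 h3
  obtain ⟨a, b, hab⟩ : IsCoprime (s ^ 7) (n ^ 7) := hsn.pow
  have hab' : (a : F) * s ^ 7 + b * n ^ 7 = 1 := by exact_mod_cast congrArg (Int.cast : ℤ → F) hab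
  have e : (324 * u) ^ 2 =
      ((a * 52488 * (s ^ 3 - 24 * n ^ 3) + b * 8 * s ^ 2 * n : ℤ) : F) * (2 * (PQ s n : F) * u ^ 2) -
      ((a * 2519424 * s * n ^ 2 + b * 2 * (s ^ 3 + 243 * n ^ 3) : ℤ) : F) *
        (8 * (DD s n : F) * u ^ 2) := by
    simp only [PQ, DD]
    push_cast
    linear_combination (-104976 * u ^ 2) * hab'
  have h4 : v (324 * u) ^ 2 ≤ 1 := by
    rw [← map_pow, e]
    exact v.map_sub_le (int_mul_le v _ h1) (int_mul_le v _ h2)
  exact (pow_le_one_iff_of_nonneg zero_le two_ne_zero).1 h4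

theorem not_dvd_den [CharZero F] {p : ℕ} (hp : v p < 1) {w : ℚ} (hw : v w ≤ 1) : ¬ p ∣ w.den := by
  rintro ⟨k, hk⟩
  have h1 : v (w.den : F) < 1 := by
    rw [hk, Nat.cast_mul, map_mul]
    exact mul_lt_one_of_lt_of_le hp (by simpa using int_le v k)
  have h2 : v (w.num : F) < 1 := by
    have e : (w.num : F) = w.den * w := by
      rw [mul_comm]
      exact_mod_cast (Rat.mul_den_eq_num w).symm
    rw [e, map_mul]
    exact mul_lt_one_of_lt_of_le h1 hw
  obtain ⟨a, b, hab⟩ := Rat.isCoprime_num_den w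
  have hab' : (a : F) * w.num + b * w.den = 1 := by
    exact_mod_cast congrArg (Int.cast : ℤ → F) hab
  have h3 : v ((a : F) * w.num + b * w.den) < 1 := by
    refine v.map_add_lt ?_ ?_ <;> rw [map_mul, mul_comm]
    · exact mul_lt_one_of_lt_of_le h2 (int_le v a)
    · exact mul_lt_one_of_lt_of_le h1 (int_le v b)
  rw [hab', map_one] at h3
  exact lt_irrefl _ h3

end val

section core

variable {F : Type} [Field F] [CharZero F]

/-- The descent element in an arbitrary field. -/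
def etaF (g : ℤ) (t : F) (p : ℤ × ℤ) : F := 4 * (p.1 : F) - (p.2 : F) * (g : F) ^ 2 * t

/-- The value of a rational quadratic polynomial in an arbitrary field. -/
def evF (c : Fin 3 → ℚ) (t : F) : F := (c 0 : F) + (c 1 : F) * t + (c 2 : F) * t ^ 2

/-- The data used at every prime. -/
structure Core (g s n : ℤ) (T : Fin 3 → F) (S : Finset (ℤ × ℤ))
    (c : ℤ × ℤ → ℤ × ℤ → Fin 3 → ℚ) : Prop where
  hg : g ≠ 0
  hsn : IsCoprime s n
  hD : DD s n ≠ 0
  hV : ((T 0 - T 1) * (T 0 - T 2) * (T 1 - T 2)) ^ 2 = 256 * (DD s n : F) ^ 3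
  hP : (T 0 - T 1) ^ 2 + (T 0 - T 2) ^ 2 + (T 1 - T 2) ^ 2 = 2 * (PQ s n : F)
  h1 : ∀ p ∈ S, ∀ q ∈ S, ∀ a, evF (c p q) (T a) ^ 2 = etaF g (T a) p * etaF g (T a) q
  h2 : ∀ p ∈ S, ∀ q ∈ S, ∀ r ∈ S, ∀ a,
    evF (c p q) (T a) * etaF g (T a) r = evF (c p r) (T a) * evF (c q r) (T a)

variable (v : Valuation F ℤᵐ⁰) {g s n : ℤ} {T : Fin 3 → F} {S : Finset (ℤ × ℤ)}
  {c : ℤ × ℤ → ℤ × ℤ → Fin 3 → ℚ}

/-- The bad number. -/
def MM (g s n : ℤ) : ℕ := (256 * g ^ 12 * DD s n ^ 3).natAbs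

omit [CharZero F] in
theorem kap_le (hT : ∀ a, v (T a) ≤ 1) (g : ℤ) (a b : Fin 3) :
    v ((g : F) ^ 2 * (T a - T b)) ≤ 1 := by
  have := int_mul_le v (g ^ 2) (v.map_sub_le (hT a) (hT b))
  simpa using this

omit [CharZero F] in
theorem eta_le (hT : ∀ a, v (T a) ≤ 1) (g : ℤ) (a : Fin 3) (p : ℤ × ℤ) :
    v (etaF g (T a) p) ≤ 1 := by
  have h1 := int_le v (4 * p.1)
  have h2 := int_mul_le v (p.2 * g ^ 2) (hT a)
  push_cast at h1 h2
  exact v.map_sub_le h1 h2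

omit [CharZero F] in
theorem eta_sub_le (g : ℤ) (a b : Fin 3) (p : ℤ × ℤ) :
    v (etaF g (T a) p - etaF g (T b) p) ≤ v ((g : F) ^ 2 * (T a - T b)) := by
  have e : etaF g (T a) p - etaF g (T b) p = ((-p.2 : ℤ) : F) * ((g : F) ^ 2 * (T a - T b)) := by
    simp only [etaF]
    push_cast
    ring
  rw [e, map_mul]
  exact mul_le_of_le_one_left' (int_le v _)

omit [CharZero F] in
theorem MM_le (h : Core g s n T S c) (hT : ∀ a, v (T a) ≤ 1) :
    v (MM g s n : F) ≤ v ((g : F) ^ 2 * (T 0 - T 1)) ∧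
      v (MM g s n : F) ≤ v ((g : F) ^ 2 * (T 0 - T 2)) ∧
      v (MM g s n : F) ≤ v ((g : F) ^ 2 * (T 1 - T 2)) := by
  have e1 : v (MM g s n : F) = v ((256 * g ^ 12 * DD s n ^ 3 : ℤ) : F) := by
    unfold MM
    rcases Int.natAbs_eq (256 * g ^ 12 * DD s n ^ 3) with h | h
    · conv_rhs => rw [h, Int.cast_natCast]
    · conv_rhs => rw [h, Int.cast_neg, Int.cast_natCast, v.map_neg]
  have e2 : ((256 * g ^ 12 * DD s n ^ 3 : ℤ) : F) = ((g : F) ^ 2 * (T 0 - T 1) *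
      ((g : F) ^ 2 * (T 0 - T 2)) * ((g : F) ^ 2 * (T 1 - T 2))) ^ 2 := by
    push_cast
    linear_combination (-(g : F) ^ 12) * h.hV
  rw [e1, e2, map_pow, map_mul, map_mul]
  have a1 := kap_le v hT g 0 1
  have a2 := kap_le v hT g 0 2
  have a3 := kap_le v hT g 1 2
  generalize v ((g : F) ^ 2 * (T 0 - T 1)) = x at *
  generalize v ((g : F) ^ 2 * (T 0 - T 2)) = y at *
  generalize v ((g : F) ^ 2 * (T 1 - T 2)) = z at *
  have a4 : (x * y * z) ^ 2 ≤ x * y * z := by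
    rw [sq]
    exact mul_le_of_le_one_right' (mul_le_one' (mul_le_one' a1 a2) a3)
  refine ⟨a4.trans ?_, a4.trans ?_, a4.trans ?_⟩
  · exact (mul_le_of_le_one_right' a3).trans (mul_le_of_le_one_right' a2)
  · exact (mul_le_of_le_one_right' a3).trans (mul_le_of_le_one_left' a1)
  · exact mul_le_of_le_one_left' (mul_le_one' a1 a2)

theorem div_le (hg : g ≠ 0) {a b : F} (hab : a - b ≠ 0) (d : Fin 3 → ℚ)
    (h : v (2 * (evF d a - evF d b)) ≤ v ((g : F) ^ 2 * (a - b))) :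
    v (2 * ((d 1 : F) + d 2 * (a + b)) / (g : F) ^ 2) ≤ 1 := by
  have hg' : (g : F) ≠ 0 := Int.cast_ne_zero.2 hg
  have e : 2 * ((d 1 : F) + d 2 * (a + b)) / (g : F) ^ 2 =
      2 * (evF d a - evF d b) / ((g : F) ^ 2 * (a - b)) := by
    simp only [evF]
    field_simp
    ring
  rw [e, map_div₀]
  exact div_le_one_of_le₀ h zero_le

theorem of_pairs (h : Core g s n T S c) (d : Fin 3 → ℚ)
    (h1 : v (2 * (evF d (T 0) - evF d (T 1))) ≤ v ((g : F) ^ 2 * (T 0 - T 1)))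
    (h2 : v (2 * (evF d (T 0) - evF d (T 2))) ≤ v ((g : F) ^ 2 * (T 0 - T 2)))
    (h3 : v (2 * (evF d (T 1) - evF d (T 2))) ≤ v ((g : F) ^ 2 * (T 1 - T 2))) :
    v ((648 * d 2 / (g : ℚ) ^ 2 : ℚ) : F) ≤ 1 := by
  have hD : (DD s n : F) ≠ 0 := Int.cast_ne_zero.2 h.hD
  have hne : (T 0 - T 1) * (T 0 - T 2) * (T 1 - T 2) ≠ 0 := by
    intro h0
    have := h.hV
    rw [h0] at this
    exact (mul_ne_zero (by norm_num) (pow_ne_zero 3 hD)) (this.symm.trans (by simp))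
  have b1 := div_le v h.hg (left_ne_zero_of_mul (left_ne_zero_of_mul hne)) d h1
  have b2 := div_le v h.hg (right_ne_zero_of_mul (left_ne_zero_of_mul hne)) d h2
  have b3 := div_le v h.hg (right_ne_zero_of_mul hne) d h3
  have key := final v h.hsn (u := 2 * (d 2 : F) / (g : F) ^ 2) h.hV h.hP
    (by convert v.map_sub_le b2 b3 using 2; ring) (by convert v.map_sub_le b1 b3 using 2; ring)
    (by convert v.map_sub_le b1 b2 using 2; ring)
  convert key using 2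
  push_cast
  ring

theorem local_types (h : Core g s n T S c) (hT : ∀ a, v (T a) ≤ 1) (K : ℕ)
    (hK : exp (-(K : ℤ)) ≤ v (MM g s n : F)) :
    ∃ t : ℤ × ℤ → (Fin (K + 1) × Bool) × (Fin (K + 1) × Bool) × (Fin (K + 1) × Bool),
      ∀ p ∈ S, ∀ q ∈ S, t p = t q → v ((648 * c p q 2 / (g : ℚ) ^ 2 : ℚ) : F) ≤ 1 := by
  have h2 : v 2 ≤ 1 := by simpa using int_le v 2
  have key : ∀ a b : Fin 3, v (MM g s n : F) ≤ v ((g : F) ^ 2 * (T a - T b)) →
      ∃ t : ℤ × ℤ → Fin (K + 1) × Bool, ∀ p q, p ∈ S → q ∈ S → t p = t q →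
        v (2 * (evF (c p q) (T a) - evF (c p q) (T b))) ≤ v ((g : F) ^ 2 * (T a - T b)) :=
    fun a b hab => pair_types v h2 (fun p => p ∈ S) (etaF g (T a)) (etaF g (T b))
      (fun p q => evF (c p q) (T a)) (fun p q => evF (c p q) (T b)) _ K (hK.trans hab)
      (kap_le v hT g a b) (eta_le v hT g a) (eta_sub_le v g a b)
      (fun p q hp hq => h.h1 p hp q hq a) (fun p q hp hq => h.h1 p hp q hq b)
      (fun p q r hp hq hr => h.h2 p hp q hq r hr a) (fun p q r hp hq hr => h.h2 p hp q hq r hr b)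
  obtain ⟨m1, m2, m3⟩ := MM_le v h hT
  obtain ⟨t1, ht1⟩ := key 0 1 m1
  obtain ⟨t2, ht2⟩ := key 0 2 m2
  obtain ⟨t3, ht3⟩ := key 1 2 m3
  refine ⟨fun p => (t1 p, t2 p, t3 p), fun p hp q hq hpq => ?_⟩
  simp only [Prod.mk.injEq] at hpq
  exact of_pairs v h _ (ht1 p q hp hq hpq.1) (ht2 p q hp hq hpq.2.1) (ht3 p q hp hq hpq.2.2)

theorem local_good (h : Core g s n T S c) (hT : ∀ a, v (T a) ≤ 1) (hK : 1 ≤ v (MM g s n : F)) :
    ∀ p ∈ S, ∀ q ∈ S, v ((648 * c p q 2 / (g : ℚ) ^ 2 : ℚ) : F) ≤ 1 := by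
  intro p hp q hq
  have h2 : v 2 ≤ 1 := by simpa using int_le v 2
  have key : ∀ a b : Fin 3, v (MM g s n : F) ≤ v ((g : F) ^ 2 * (T a - T b)) →
      v (2 * (evF (c p q) (T a) - evF (c p q) (T b))) ≤ v ((g : F) ^ 2 * (T a - T b)) :=
    fun a b hab => small v h2 (eta_sub_le v g a b p) (eta_sub_le v g a b q) (h.h1 p hp q hq a)
      (h.h1 p hp q hq b) ((eta_le v hT g a p).trans (hK.trans hab))
      ((eta_le v hT g a q).trans (hK.trans hab))
  obtain ⟨m1, m2, m3⟩ := MM_le v h hT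
  exact of_pairs v h _ (key 0 1 m1) (key 0 2 m2) (key 1 2 m3)

end core

theorem MM_ne {g s n : ℤ} (hg : g ≠ 0) (hD : DD s n ≠ 0) : MM g s n ≠ 0 := by
  unfold MM
  rw [Int.natAbs_ne_zero]
  positivity

theorem global_types {F : Type} [Field F] [NumberField F] (hF : finrank ℚ F ≤ 27) {g s n : ℤ}
    {T : Fin 3 → F} {S : Finset (ℤ × ℤ)} {c : ℤ × ℤ → ℤ × ℤ → Fin 3 → ℚ} (h : Core g s n T S c)
    (hT : ∀ a, IsIntegral ℤ (T a)) : ∃ (N : ℕ) (t : ℤ × ℤ → ℕ),
      N ≤ (64 ^ (MM g s n).primeFactors.card * (MM g s n).divisors.card) ^ 3 ∧ (∀ p, t p < N) ∧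
        ∀ p ∈ S, ∀ q ∈ S, t p = t q → ∃ m : ℤ, 648 * c p q 2 = m * (g : ℚ) ^ 2 := by
  classical
  have hM := MM_ne h.hg h.hD
  set M := MM g s n with hMdef
  choose v hv1 hv2 hv3 using exists_val F
  have hK : ∀ (l : ℕ) (hl : l.Prime), exp (-((27 * M.factorization l : ℕ) : ℤ)) ≤ v l hl (M : F) := by
    intro l hl
    by_contra hlt
    have h1 : v l hl (M : F) ≤ exp (-((27 * M.factorization l + 1 : ℕ) : ℤ)) := by
      rw [← lt_mul_exp_iff_le exp_ne_zero, ← exp_add]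
      convert not_le.1 hlt using 2
      push_cast
      ring
    have h2 := hv3 l hl M _ hM h1
    have h3 := Nat.mul_le_mul_right (M.factorization l) hF
    omega
  have hloc := fun l : M.primeFactors => local_types (v l (Nat.prime_of_mem_primeFactors l.2)) h
    (fun a => hv1 _ _ _ (hT a)) _ (hK l (Nat.prime_of_mem_primeFactors l.2))
  choose tt htt using hloc
  let τ : Type := (l : M.primeFactors) → (Fin (27 * M.factorization l + 1) × Bool) ×
    (Fin (27 * M.factorization l + 1) × Bool) × (Fin (27 * M.factorization l + 1) × Bool)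
  refine ⟨Fintype.card τ, fun p => (Fintype.equivFin τ (fun l => tt l p) : ℕ), ?_,
    fun p => Fin.is_lt _, fun p hp q hq hpq => ?_⟩
  · rw [Fintype.card_pi, Nat.card_divisors hM, ← Finset.prod_const, ← Finset.prod_mul_distrib,
      ← Finset.prod_pow, ← Finset.prod_coe_sort M.primeFactors]
    refine Finset.prod_le_prod' fun l _ => ?_
    simp only [Fintype.card_prod, Fintype.card_fin, Fintype.card_bool]
    have : (27 * M.factorization l + 1) * 2 ≤ 64 * (M.factorization l + 1) := by omega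
    calc _ = ((27 * M.factorization l + 1) * 2) ^ 3 := by ring
      _ ≤ _ := Nat.pow_le_pow_left this 3
  · have h1 : (fun l => tt l p) = fun l => tt l q := (Fintype.equivFin τ).injective (Fin.ext hpq)
    have h2 : (648 * c p q 2 / (g : ℚ) ^ 2).den = 1 := by
      by_contra hne
      obtain ⟨l, hl, hd⟩ := Nat.exists_prime_and_dvd hne
      refine not_dvd_den (v l hl) (hv2 l hl) ?_ hd
      by_cases hm : l ∈ M.primeFactors
      · exact htt ⟨l, hm⟩ p hp q hq (congrFun h1 ⟨l, hm⟩)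
      · refine local_good _ h (fun a => hv1 _ _ _ (hT a)) ?_ p hp q hq
        have h3 : M.factorization l = 0 := by
          rwa [← Nat.support_factorization, Finsupp.notMem_support_iff] at hm
        simpa [h3] using hK l hl
    refine ⟨(648 * c p q 2 / (g : ℚ) ^ 2).num, ?_⟩
    have hg : (g : ℚ) ≠ 0 := Int.cast_ne_zero.2 h.hg
    rw [(Rat.den_eq_one_iff _).1 h2]
    field_simp

open Polynomial in
theorem root_data {s n : ℤ} {T : Fin 3 → ℂ} (hT : Roots s n T) (a : Fin 3) :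
    ∃ f : ℤ[X], f.Monic ∧ f.natDegree = 3 ∧ aeval (T a) f = 0 := by
  refine ⟨X ^ 3 - C (s ^ 2) * X ^ 2 - C (72 * s * n ^ 3) * X +
    C (16 * (4 * s ^ 3 * n ^ 3 + 27 * n ^ 6)), by monicity!, by compute_degree!, ?_⟩
  have e1 := hT.e1
  have e2 := hT.e2
  have e3 := hT.e3
  simp only [map_add, map_sub, map_mul, map_pow, aeval_X, eq_intCast, map_intCast,
    map_ofNat]
  fin_cases a
  · simp only [Fin.zero_eta]
    linear_combination T 0 ^ 2 * e1 - T 0 * e2 + e3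
  · simp only [Fin.mk_one]
    linear_combination T 1 ^ 2 * e1 - T 1 * e2 + e3
  · simp only [Fin.reduceFinMk]
    linear_combination T 2 ^ 2 * e1 - T 2 * e2 + e3

open Polynomial IntermediateField in
theorem exists_field {s n : ℤ} {T : Fin 3 → ℂ} (hT : Roots s n T) :
    ∃ F : IntermediateField ℚ ℂ, FiniteDimensional ℚ F ∧ finrank ℚ F ≤ 27 ∧ (∀ a, T a ∈ F) ∧
      ∀ a, IsIntegral ℤ (T a) := by
  have hi : ∀ a, IsIntegral ℤ (T a) := fun a => by
    obtain ⟨f, h1, -, h3⟩ := root_data hT a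
    exact ⟨f, h1, h3⟩
  have hq : ∀ a, IsIntegral ℚ (T a) := fun a => (hi a).tower_top
  have hr : ∀ a, finrank ℚ ℚ⟮T a⟯ ≤ 3 := fun a => by
    obtain ⟨f, h1, h2, h3⟩ := root_data hT a
    rw [adjoin.finrank (hq a)]
    have h4 := minpoly.min ℚ (T a) (h1.map (algebraMap ℤ ℚ)) (by rwa [aeval_map_algebraMap])
    have h5 := natDegree_le_natDegree h4
    rwa [h1.natDegree_map, h2] at h5
  have f0 := adjoin.finiteDimensional (hq 0)
  have f1 := adjoin.finiteDimensional (hq 1)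
  have f2 := adjoin.finiteDimensional (hq 2)
  refine ⟨ℚ⟮T 0⟯ ⊔ ℚ⟮T 1⟯ ⊔ ℚ⟮T 2⟯, inferInstance, ?_, fun a => ?_, hi⟩
  · calc _ ≤ finrank ℚ ↥(ℚ⟮T 0⟯ ⊔ ℚ⟮T 1⟯) * finrank ℚ ℚ⟮T 2⟯ := finrank_sup_le _ _
      _ ≤ (finrank ℚ ℚ⟮T 0⟯ * finrank ℚ ℚ⟮T 1⟯) * finrank ℚ ℚ⟮T 2⟯ :=
        Nat.mul_le_mul_right _ (finrank_sup_le _ _)
      _ ≤ (3 * 3) * 3 := Nat.mul_le_mul (Nat.mul_le_mul (hr 0) (hr 1)) (hr 2)
  · fin_cases a
    · exact (le_sup_left.trans le_sup_left : _ ≤ ℚ⟮T 0⟯ ⊔ ℚ⟮T 1⟯ ⊔ ℚ⟮T 2⟯)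
        (mem_adjoin_simple_self ℚ (T 0))
    · exact (le_sup_right.trans le_sup_left : _ ≤ ℚ⟮T 0⟯ ⊔ ℚ⟮T 1⟯ ⊔ ℚ⟮T 2⟯)
        (mem_adjoin_simple_self ℚ (T 1))
    · exact (le_sup_right : _ ≤ ℚ⟮T 0⟯ ⊔ ℚ⟮T 1⟯ ⊔ ℚ⟮T 2⟯) (mem_adjoin_simple_self ℚ (T 2))

theorem MM_bound {H : ℝ} {g s n : ℤ} (h : Par H g s n) :
    (MM g s n : ℝ) ≤ 256 * 28 ^ 3 * H ^ 24 := by
  obtain ⟨h1, h2, -, h4, h5, h6⟩ := h
  have hg : (1 : ℝ) ≤ g := by exact_mod_cast h2
  have hn0 : n ≠ 0 := by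
    rintro rfl
    exact h4 (by simp [DD])
  have hn : (1 : ℝ) ≤ |(n : ℝ)| := by exact_mod_cast Int.one_le_abs hn0
  have a1 : (g : ℝ) ≤ H := by nlinarith
  have a2 : |(s : ℝ)| ≤ H := by nlinarith [abs_nonneg (s : ℝ)]
  have a3 : |(n : ℝ)| ≤ H := by nlinarith
  have a4 : |(DD s n : ℝ)| ≤ 28 * H ^ 4 := by
    simp only [DD]
    push_cast
    rw [abs_mul]
    have b1 : |(s : ℝ) ^ 3 - 27 * (n : ℝ) ^ 3| ≤ 28 * H ^ 3 := by
      have b2 := abs_sub ((s : ℝ) ^ 3) (27 * (n : ℝ) ^ 3)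
      rw [abs_mul, abs_pow, abs_pow, abs_of_pos (by norm_num : (0 : ℝ) < 27)] at b2
      have b3 : |(s : ℝ)| ^ 3 ≤ H ^ 3 := by gcongr
      have b4 : |(n : ℝ)| ^ 3 ≤ H ^ 3 := by gcongr
      linarith
    calc _ ≤ H * (28 * H ^ 3) := by gcongr
      _ = _ := by ring
  unfold MM
  rw [Nat.cast_natAbs]
  push_cast
  rw [abs_mul, abs_mul, abs_pow, abs_pow, abs_of_pos (by norm_num : (0 : ℝ) < 256),
    abs_of_pos (by linarith : (0 : ℝ) < g)]
  calc _ ≤ 256 * H ^ 12 * (28 * H ^ 4) ^ 3 := by gcongr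
    _ = _ := by ring

end LocAux

open LocAux in
theorem loc_types {ε : ℝ} (hε : 0 < ε) : ∃ C : ℝ, 0 < C ∧ ∀ (H : ℝ) (g s n : ℤ), Par H g s n →
    ∀ T : Fin 3 → ℂ, Roots s n T → ∀ S : Finset (ℤ × ℤ), (∀ p ∈ S, Box H g s n p) →
      ∀ c, Sys g T S c → ∃ (N : ℕ) (t : ℤ × ℤ → ℕ), (N : ℝ) ≤ C * H ^ ε ∧ (∀ p ∈ S, t p < N) ∧
        ∀ p ∈ S, ∀ q ∈ S, t p = t q → ∃ m : ℤ, 648 * c p q 2 = m * (g : ℚ) ^ 2 := by
  obtain ⟨C₁, hC₁, b₁⟩ := H32.omega_bound 6 (η := ε / 144) (by positivity)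
  obtain ⟨C₂, hC₂, b₂⟩ := H32.divisor_bound (η := ε / 144) (by positivity)
  refine ⟨(C₁ * C₂) ^ 3 * (256 * 28 ^ 3) ^ (ε / 24), by positivity, ?_⟩
  intro H g s n hP T hT S _ c hc
  obtain ⟨F, hF, hF27, hmem, hint⟩ := exists_field hT
  have : NumberField F := NumberField.mk
  let T' : Fin 3 → F := fun a => ⟨T a, hmem a⟩
  have inj : Function.Injective (algebraMap F ℂ) := (algebraMap F ℂ).injective
  have hT' : ∀ a, algebraMap F ℂ (T' a) = T a := fun a => rfl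
  have he : ∀ a p, algebraMap F ℂ (etaF g (T' a) p) = eta g (T a) p := fun a p => by
    simp only [etaF, eta, map_sub, map_mul, map_pow, map_intCast, map_ofNat, hT']
  have hev : ∀ d a, algebraMap F ℂ (evF d (T' a)) = ev d (T a) := fun d a => by
    simp only [evF, ev, map_add, map_mul, map_pow, map_ratCast, hT']
  obtain ⟨d1, d2⟩ := disc_roots hT
  have hcore : Core g s n T' S c :=
    { hg := hP.2.1.ne'
      hsn := hP.2.2.1
      hD := hP.2.2.2.1
      hV := inj (by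
        simpa only [map_sub, map_mul, map_pow, map_intCast, map_ofNat, hT'] using d1)
      hP := inj (by
        simpa only [map_add, map_sub, map_mul, map_pow, map_intCast, map_ofNat, hT'] using d2)
      h1 := fun p hp q hq a => inj (by
        simpa only [map_mul, map_pow, he, hev] using hc.1 p hp q hq a)
      h2 := fun p hp q hq r hr a => inj (by
        simpa only [map_mul, he, hev] using hc.2 p hp q hq r hr a) }
  obtain ⟨N, t, hN, ht, htt⟩ := global_types hF27 hcore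
    (fun a => (isIntegral_algebraMap_iff inj).1 (hint a))
  refine ⟨N, t, ?_, fun p _ => ht p, htt⟩
  have hM := MM_ne hcore.hg hcore.hD
  have hb := MM_bound hP
  have hH : 0 < H := lt_of_lt_of_le one_pos hP.1
  have a1 := b₁ _ hM
  have a2 := b₂ (MM g s n)
  have a3 : (N : ℝ) ≤ ((2 ^ 6) ^ (MM g s n).primeFactors.card * (MM g s n).divisors.card) ^ 3 := by
    exact_mod_cast hN
  have hM0 : (0 : ℝ) < MM g s n := by exact_mod_cast Nat.pos_of_ne_zero hM
  have a4 : ((MM g s n : ℝ) ^ (ε / 144) * (MM g s n : ℝ) ^ (ε / 144)) ^ 3 =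
      (MM g s n : ℝ) ^ (ε / 24) := by
    rw [← Real.rpow_add hM0, ← Real.rpow_natCast, ← Real.rpow_mul hM0.le]
    congr 1
    push_cast
    ring
  have a5 : (MM g s n : ℝ) ^ (ε / 24) ≤ (256 * 28 ^ 3) ^ (ε / 24) * H ^ ε := by
    have e : H ^ ε = (H ^ 24) ^ (ε / 24) := by
      rw [← Real.rpow_natCast, ← Real.rpow_mul hH.le]
      congr 1
      push_cast
      ring
    rw [e, ← Real.mul_rpow (by positivity) (by positivity)]
    exact Real.rpow_le_rpow hM0.le hb (by positivity)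
  calc (N : ℝ) ≤ _ := a3
    _ ≤ (C₁ * (MM g s n : ℝ) ^ (ε / 144) * (C₂ * (MM g s n : ℝ) ^ (ε / 144))) ^ 3 := by gcongr
    _ = (C₁ * C₂) ^ 3 * (MM g s n : ℝ) ^ (ε / 24) := by
      rw [← a4]
      ring
    _ ≤ (C₁ * C₂) ^ 3 * ((256 * 28 ^ 3) ^ (ε / 24) * H ^ ε) := by gcongr
    _ = _ := by ring

end Pool.Agent.Lib.MP_af4c59_nt.K9
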