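import Pool.Agent.Lib.MP_af4c59_nt.K9Gram
import Pool.Agent.Lib.MP_af4c59_nt.K9Loc
import Pool.Agent.Lib.MP_af4c59_nt.K9Aux
import Pool.Agent.Lib.MP_af4c59_nt.H32ConicB

/-!
The size of a class (part C).
-/

set_option autoImplicit false

namespace Pool.Agent.Lib.MP_af4c59_nt.K9

open NumberField Module IsDedekindDomain

namespace ClassAux

/-- a nonzero multiple of `p ^ 2` -/
theorem low {x : ℚ} {g m : ℤ} {p : ℕ} (hx : x ≠ 0) (h : 648 * x = m * (g : ℚ) ^ 2)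
    (hd : (p : ℤ) ^ 2 ∣ m) : (p : ℝ) ^ 2 * (g : ℝ) ^ 2 ≤ 648 * |(x : ℝ)| := by
  have hm : m ≠ 0 := by
    rintro rfl
    simp at h
    exact hx h
  have h1 : (p : ℤ) ^ 2 ≤ |m| := Int.le_of_dvd (abs_pos.2 hm) ((dvd_abs _ _).2 hd)
  have h2 : (p : ℝ) ^ 2 ≤ |(m : ℝ)| := by exact_mod_cast h1
  have h3 : (648 : ℝ) * x = m * (g : ℝ) ^ 2 := by exact_mod_cast h
  have h4 : 648 * |(x : ℝ)| = |(m : ℝ)| * (g : ℝ) ^ 2 := by
    rw [← abs_of_nonneg (by norm_num : (0 : ℝ) ≤ 648), ← abs_mul, h3, abs_mul,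
      abs_of_nonneg (sq_nonneg (g : ℝ))]
  rw [h4]
  exact mul_le_mul_of_nonneg_right h2 (sq_nonneg _)

theorem one_le_max {s n : ℤ} (h : DD s n ≠ 0) : (1 : ℝ) ≤ max |(s : ℝ)| |(n : ℝ)| := by
  have hn : n ≠ 0 := by
    rintro rfl
    exact h (by simp [DD])
  have : (1 : ℝ) ≤ |(n : ℝ)| := by exact_mod_cast Int.one_le_abs hn
  exact this.trans (le_max_right _ _)

theorem bad_le {H : ℝ} {g s n : ℤ} (hP : Par H g s n) :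
    (((6 * g * DD s n).natAbs : ℕ) : ℝ) ≤ 168 * H ^ 4 := by
  obtain ⟨hH, hg, -, -, hs, hn⟩ := hP
  have hg1 : (1 : ℝ) ≤ g := by exact_mod_cast hg
  have a0 := abs_nonneg (s : ℝ)
  have b0 := abs_nonneg (n : ℝ)
  have hs' : |(s : ℝ)| ≤ H := by nlinarith
  have hn' : |(n : ℝ)| ≤ H := by nlinarith
  rw [Nat.cast_natAbs, Int.cast_abs]
  unfold DD
  push_cast
  have h1 : |(s : ℝ) ^ 3 - 27 * (n : ℝ) ^ 3| ≤ 28 * H ^ 3 := by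
    have e1 : |(s : ℝ) ^ 3| ≤ H ^ 3 := by
      rw [abs_pow]; exact pow_le_pow_left₀ a0 hs' 3
    have e2 : |(n : ℝ) ^ 3| ≤ H ^ 3 := by
      rw [abs_pow]; exact pow_le_pow_left₀ b0 hn' 3
    have e3 := abs_sub ((s : ℝ) ^ 3) (27 * (n : ℝ) ^ 3)
    rw [abs_mul, abs_of_nonneg (by norm_num : (0 : ℝ) ≤ 27)] at e3
    linarith
  rw [abs_mul, abs_mul, abs_mul, abs_of_nonneg (by norm_num : (0 : ℝ) ≤ 6),
    abs_of_nonneg (by linarith : (0 : ℝ) ≤ g)]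
  calc 6 * (g : ℝ) * (|(n : ℝ)| * |(s : ℝ) ^ 3 - 27 * (n : ℝ) ^ 3|)
      = 6 * (((g : ℝ) * |(n : ℝ)|) * |(s : ℝ) ^ 3 - 27 * (n : ℝ) ^ 3|) := by ring
    _ ≤ 6 * (H * (28 * H ^ 3)) := by gcongr
    _ = 168 * H ^ 4 := by ring

/-- the pigeonhole count -/
theorem count {H CG : ℝ} {g s n : ℤ} (hP : Par H g s n) {T : Fin 3 → ℂ} (hT : Roots s n T)
    {S : Finset (ℤ × ℤ)} (hS : ∀ p ∈ S, Box H g s n p) {c : ℤ × ℤ → ℤ × ℤ → Fin 3 → ℚ}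
    (hc : Sys g T S c) {N₁ N₂ : ℕ} {t₁ t₂ : ℤ × ℤ → ℕ} (h1 : ∀ p ∈ S, t₁ p < N₁)
    (h2 : ∀ p ∈ S, t₂ p < N₂)
    (k1 : ∀ p ∈ S, ∀ q ∈ S, t₁ p = t₁ q → ∃ m : ℤ, 648 * c p q 2 = m * (g : ℚ) ^ 2)
    (k2 : ∀ p ∈ S, ∀ q ∈ S, ∀ r ∈ S, t₂ p = t₂ q → t₂ p = t₂ r →
      |((c p q 2 * c p r 2 * c q r 2 : ℚ) : ℝ)| * (max |(s : ℝ)| |(n : ℝ)|) ^ 8 ≤
        CG * H ^ 8 * (g : ℝ) ^ 4)
    {p₀ : ℕ} (hp₀ : p₀.Prime) (hd : ¬ (p₀ : ℤ) ∣ 6 * g * DD s n)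
    (hbig : 648 ^ 3 * (CG * H ^ 8) < (p₀ : ℝ) ^ 6 * (g : ℝ) ^ 2 * (max |(s : ℝ)| |(n : ℝ)|) ^ 8) :
    S.card ≤ 2 * (N₁ * (N₂ * (8 * (p₀ + 1)))) := by
  classical
  obtain ⟨t₃, h3, k3⟩ := aux_types hP hT hS hc hp₀ hd
  have key := Finset.card_le_mul_card_image_of_maps_to (s := S)
    (t := Finset.range N₁ ×ˢ Finset.range N₂ ×ˢ Finset.range (8 * (p₀ + 1)))
    (f := fun x => (t₁ x, t₂ x, t₃ x)) (fun x hx => by
      simp only [Finset.mem_product, Finset.mem_range]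
      exact ⟨h1 x hx, h2 x hx, h3 x hx⟩) 2 (by
    intro u _
    by_contra hcon
    obtain ⟨x, y, z, hx, hy, hz, hxy, hxz, hyz⟩ := Finset.two_lt_card_iff.1 (not_le.1 hcon)
    obtain ⟨hx, ex⟩ := Finset.mem_filter.1 hx
    obtain ⟨hy, ey⟩ := Finset.mem_filter.1 hy
    obtain ⟨hz, ez⟩ := Finset.mem_filter.1 hz
    have lo : ∀ p ∈ S, ∀ q ∈ S, p ≠ q → (t₁ p, t₂ p, t₃ p) = u → (t₁ q, t₂ q, t₃ q) = u →
        (p₀ : ℝ) ^ 2 * (g : ℝ) ^ 2 ≤ 648 * |(c p q 2 : ℝ)| := by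
      intro p hp q hq hpq e e'
      have e1 := e.trans e'.symm
      simp only [Prod.mk.injEq] at e1
      obtain ⟨m, hm⟩ := k1 p hp q hq e1.1
      exact low (c_ne hP hT hS hc hp hq hpq) hm (k3 p hp q hq e1.2.2 m hm)
    have l1 := lo x hx y hy hxy ex ey
    have l2 := lo x hx z hz hxz ex ez
    have l3 := lo y hy z hz hyz ey ez
    have e1 := ex.trans ey.symm
    have e2 := ex.trans ez.symm
    simp only [Prod.mk.injEq] at e1 e2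
    have up := k2 x hx y hy z hz e1.2.1 e2.2.1
    push_cast at up
    rw [abs_mul, abs_mul] at up
    have hg : (0 : ℝ) < g := by exact_mod_cast hP.2.1
    have h0 : (0 : ℝ) ≤ (p₀ : ℝ) ^ 2 * (g : ℝ) ^ 2 := by positivity
    have l4 : ((p₀ : ℝ) ^ 2 * (g : ℝ) ^ 2) * ((p₀ : ℝ) ^ 2 * (g : ℝ) ^ 2) *
        ((p₀ : ℝ) ^ 2 * (g : ℝ) ^ 2) ≤
        (648 * |(c x y 2 : ℝ)|) * (648 * |(c x z 2 : ℝ)|) * (648 * |(c y z 2 : ℝ)|) := by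
      gcongr
    generalize max |(s : ℝ)| |(n : ℝ)| = M at up hbig
    have hM : 0 ≤ M ^ 8 := by positivity
    have l5 := mul_le_mul_of_nonneg_right l4 hM
    have l6 := mul_lt_mul_of_pos_right hbig (by positivity : 0 < (g : ℝ) ^ 4)
    nlinarith)
  simpa [Finset.card_product] using key

end ClassAux

theorem class_bound {ε : ℝ} (hε : 0 < ε) : ∃ C : ℝ, 0 < C ∧ ∀ (H : ℝ) (g s n : ℤ), Par H g s n →
    ∀ T : Fin 3 → ℂ, Roots s n T → ∀ p₀ : ℤ × ℤ, Box H g s n p₀ → ∀ S : Finset (ℤ × ℤ),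
      (∀ p ∈ S, Box H g s n p ∧ Rel g T p₀ p) →
        (S.card : ℝ) ≤ C * H ^ ε * (H / max |(s : ℝ)| |(n : ℝ)|) ^ ((4 : ℝ) / 3) *
          (g : ℝ) ^ (-(1 : ℝ) / 3) := by
  have hη : 0 < ε / 3 := by positivity
  have hη' : 0 < ε / 12 := by positivity
  obtain ⟨C₁, hC₁, hloc⟩ := loc_types hη
  obtain ⟨C₂, hC₂, hgram⟩ := gram_types hη
  obtain ⟨C₃, hC₃, hω⟩ := H32.omega_bound 1 hη'
  set K : ℝ := 648 ^ 3 * C₂ + 1 with hK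
  have hK1 : 1 ≤ K := by rw [hK]; nlinarith
  refine ⟨64 * (C₁ * C₂ * (C₃ * 168 ^ (ε / 12))) * (K + 2), by positivity,
    fun H g s n hP T hT q₀ hq₀ S hS => ?_⟩
  obtain ⟨c, hc⟩ := sys_exists hT hq₀ fun p hp => (hS p hp).2
  have hB : ∀ p ∈ S, Box H g s n p := fun p hp => (hS p hp).1
  obtain ⟨N₁, t₁, hN₁, h1, k1⟩ := hloc H g s n hP T hT S hB c hc
  obtain ⟨N₂, t₂, hN₂, h2, k2⟩ := hgram H g s n hP T hT S hB c hc
  have hcount := @ClassAux.count H C₂ g s n hP T hT S hB c hc N₁ N₂ t₁ t₂ h1 h2 k1 k2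
  have hM1 := ClassAux.one_le_max hP.2.2.2.1
  have hbad := ClassAux.bad_le hP
  obtain ⟨hH, hg, -, hD, hs, hn⟩ := hP
  have hg1 : (1 : ℝ) ≤ g := by exact_mod_cast hg
  have hgM : (g : ℝ) * max |(s : ℝ)| |(n : ℝ)| ≤ H := by
    rw [mul_max_of_nonneg _ _ (by linarith)]
    exact max_le hs hn
  generalize max |(s : ℝ)| |(n : ℝ)| = M at hcount hM1 hgM ⊢
  have hHM : (g : ℝ) ≤ H / M := by
    rw [le_div_iff₀ (by linarith)]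
    exact hgM
  set Q : ℝ := (H / M) ^ ((4 : ℝ) / 3) * (g : ℝ) ^ (-(1 : ℝ) / 3) with hQ
  have hQ0 : 0 ≤ Q := by
    have : 0 ≤ H / M := by linarith
    positivity
  have hQ3 : Q ^ 3 * (g : ℝ) = (H / M) ^ 4 := by
    have a1 : ((H / M) ^ ((4 : ℝ) / 3)) ^ 3 = (H / M) ^ 4 := by
      rw [← Real.rpow_natCast, ← Real.rpow_mul (by linarith), ← Real.rpow_natCast]
      norm_num
    have a2 : ((g : ℝ) ^ (-(1 : ℝ) / 3)) ^ 3 = (g : ℝ)⁻¹ := by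
      rw [← Real.rpow_natCast, ← Real.rpow_mul (by linarith), ← Real.rpow_neg_one]
      norm_num
    rw [hQ, mul_pow, a1, a2]
    field_simp
  have hQ1 : 1 ≤ Q := by
    by_contra h
    have a1 : Q ^ 3 ≤ 1 := pow_le_one₀ hQ0 (not_le.1 h).le
    have a2 : Q ^ 3 ≠ 1 := (pow_lt_one₀ hQ0 (not_le.1 h) (by norm_num)).ne
    have a3 : (g : ℝ) ≤ (H / M) ^ 4 :=
      hHM.trans (le_self_pow₀ (by linarith) (by norm_num))
    have a4 := lt_of_le_of_ne a1 a2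
    nlinarith
  have hQ6 : Q ^ 6 * (g : ℝ) ^ 2 * M ^ 8 = H ^ 8 := by
    have : Q ^ 6 * (g : ℝ) ^ 2 = (Q ^ 3 * (g : ℝ)) ^ 2 := by ring
    rw [this, hQ3]
    field_simp
  have hN0 : (6 * g * DD s n).natAbs ≠ 0 :=
    Int.natAbs_ne_zero.2 (mul_ne_zero (mul_ne_zero (by norm_num) hg.ne') hD)
  obtain ⟨p₀, hp, hP1, hP2, hpd⟩ :=
    H32.exists_prime_not_dvd (6 * g * DD s n).natAbs (⌈K * Q⌉₊ + 1) hN0 (Nat.succ_ne_zero _)
  have hp1 : K * Q < p₀ := by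
    have h5 : ((⌈K * Q⌉₊ + 1 : ℕ) : ℝ) < p₀ := by exact_mod_cast hP1
    push_cast at h5
    linarith [Nat.le_ceil (K * Q)]
  have hcard := hcount hp (fun h => hpd (Int.natCast_dvd.1 h)) (by
    have h5 : (K * Q) ^ 6 < (p₀ : ℝ) ^ 6 := pow_lt_pow_left₀ hp1 (by positivity) (by norm_num)
    have h6 := mul_lt_mul_of_pos_right h5 (by positivity : 0 < (g : ℝ) ^ 2 * M ^ 8)
    have h7 : (K * Q) ^ 6 * ((g : ℝ) ^ 2 * M ^ 8) = K ^ 6 * H ^ 8 := by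
      rw [← hQ6]; ring
    have h8 : K ≤ K ^ 6 := le_self_pow₀ hK1 (by norm_num)
    have h9 : 0 < H ^ 8 := by positivity
    rw [h7] at h6
    have h10 : 648 ^ 3 * (C₂ * H ^ 8) ≤ K ^ 6 * H ^ 8 := by
      rw [← mul_assoc]
      exact mul_le_mul_of_nonneg_right (by linarith) h9.le
    linarith)
  have b3 : (2 : ℝ) ^ (6 * g * DD s n).natAbs.primeFactors.card ≤
      C₃ * 168 ^ (ε / 12) * H ^ (ε / 3) := by
    have h5 := hω _ hN0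
    rw [pow_one] at h5
    refine h5.trans ?_
    have h6 : (((6 * g * DD s n).natAbs : ℕ) : ℝ) ^ (ε / 12) ≤ (168 * H ^ 4) ^ (ε / 12) :=
      Real.rpow_le_rpow (Nat.cast_nonneg _) hbad hη'.le
    have h7 : (168 * H ^ 4) ^ (ε / 12) = 168 ^ (ε / 12) * H ^ (ε / 3) := by
      rw [Real.mul_rpow (by norm_num) (by positivity), ← Real.rpow_natCast,
        ← Real.rpow_mul (by linarith)]
      congr 2
      push_cast
      ring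
    rw [mul_assoc C₃, ← h7]
    exact mul_le_mul_of_nonneg_left h6 (by linarith)
  have b4 : (p₀ : ℝ) + 1 ≤ 4 * (C₃ * 168 ^ (ε / 12) * H ^ (ε / 3) * ((K + 2) * Q)) := by
    have h5 : (p₀ : ℝ) ≤ 2 ^ ((6 * g * DD s n).natAbs.primeFactors.card + 1) *
        ((⌈K * Q⌉₊ : ℝ) + 1) := by exact_mod_cast hP2
    have h6 : (⌈K * Q⌉₊ : ℝ) + 1 ≤ (K + 2) * Q := by
      have := Nat.ceil_lt_add_one (by positivity : 0 ≤ K * Q)
      nlinarith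
    have h7 : (1 : ℝ) ≤ p₀ := by exact_mod_cast hp.one_le
    have h8 : (2 : ℝ) ^ (6 * g * DD s n).natAbs.primeFactors.card * ((⌈K * Q⌉₊ : ℝ) + 1) ≤
        C₃ * 168 ^ (ε / 12) * H ^ (ε / 3) * ((K + 2) * Q) := by gcongr
    rw [pow_succ] at h5
    linarith
  have eε : H ^ ε = H ^ (ε / 3) * H ^ (ε / 3) * H ^ (ε / 3) := by
    rw [← Real.rpow_add (by linarith), ← Real.rpow_add (by linarith)]
    congr 1
    ring
  have b5 : (S.card : ℝ) ≤ 2 * (N₁ * (N₂ * (8 * ((p₀ : ℝ) + 1)))) := by exact_mod_cast hcard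
  have hH0 : 0 ≤ H ^ (ε / 3) := by positivity
  calc (S.card : ℝ) ≤ 2 * (N₁ * (N₂ * (8 * ((p₀ : ℝ) + 1)))) := b5
    _ ≤ 2 * ((C₁ * H ^ (ε / 3)) * ((C₂ * H ^ (ε / 3)) *
        (8 * (4 * (C₃ * 168 ^ (ε / 12) * H ^ (ε / 3) * ((K + 2) * Q)))))) := by gcongr
    _ = _ := by
      rw [eε, mul_assoc _ ((H / M) ^ ((4 : ℝ) / 3)), ← hQ]
      ring

end Pool.Agent.Lib.MP_af4c59_nt.K9
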