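import Pool.Agent.Lib.MP_af4c59_nt.H32Defs

/-!
Definitions for the count of fields of degree nine whose group is the sum-zero subgroup of the
wreath product of the cyclic group of order three with the symmetric group on three points.
-/

set_option autoImplicit false

namespace Pool.Agent.Lib.MP_af4c59_nt.K9

open NumberField Module IsDedekindDomain
open scoped Classical

/-! ### Integer data -/

/-- The discriminant form of the pencil. -/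
def DD (s n : ℤ) : ℤ := n * (s ^ 3 - 27 * n ^ 3)

/-- The quartic invariant of the pencil. -/
def PQ (s n : ℤ) : ℤ := s * (s ^ 3 + 216 * n ^ 3)

/-- `y ^ 3` times the discriminant of `t ^ 3 - s t ^ 2 + (x / y) t - n ^ 3`. -/
def Gf (s n x y : ℤ) : ℤ :=
  -4 * x ^ 3 + s ^ 2 * x ^ 2 * y + 18 * s * n ^ 3 * x * y ^ 2 -
    (4 * s ^ 3 * n ^ 3 + 27 * n ^ 6) * y ^ 3

/-- The arithmetic conditions on a point. -/
def Pt (s n x y : ℤ) : Prop :=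
  0 < y ∧ IsCoprime x y ∧
    ∃ e w : ℤ, Squarefree e ∧ e ∣ 6 * n ∧ w ≠ 0 ∧ e * Gf s n x y = w ^ 2

/-- The quadruples `(s, n, x, y)` that are counted. -/
def QH (H : ℝ) (q : ℤ × ℤ × ℤ × ℤ) : Prop :=
  |(q.1 : ℝ)| ≤ H ∧ |(q.2.1 : ℝ)| ≤ H ∧ DD q.1 q.2.1 ≠ 0 ∧ |(q.2.2.1 : ℝ)| ≤ H ^ 4 ∧
    (q.2.2.2 : ℝ) ≤ H ^ 2 ∧ Pt q.1 q.2.1 q.2.2.1 q.2.2.2

/-- The points over the pair `(g s, g n)`. -/
def Box (H : ℝ) (g s n : ℤ) (p : ℤ × ℤ) : Prop :=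
  |(p.1 : ℝ)| ≤ H ^ 4 ∧ (p.2 : ℝ) ≤ H ^ 2 ∧ Pt (g * s) (g * n) p.1 p.2

/-- The standing conditions on `g`, `s`, `n`. -/
def Par (H : ℝ) (g s n : ℤ) : Prop :=
  1 ≤ H ∧ 0 < g ∧ IsCoprime s n ∧ DD s n ≠ 0 ∧ (g : ℝ) * |(s : ℝ)| ≤ H ∧ (g : ℝ) * |(n : ℝ)| ≤ H

/-- The number of prime factors. -/
def om (m : ℤ) : ℕ := m.natAbs.primeFactors.card

/-- `T 0`, `T 1`, `T 2` are the roots of the resolvent cubic. -/
structure Roots (s n : ℤ) (T : Fin 3 → ℂ) : Prop where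
  e1 : T 0 + T 1 + T 2 = (s : ℂ) ^ 2
  e2 : T 0 * T 1 + T 0 * T 2 + T 1 * T 2 = -72 * (s : ℂ) * (n : ℂ) ^ 3
  e3 : T 0 * T 1 * T 2 = -16 * (4 * (s : ℂ) ^ 3 * (n : ℂ) ^ 3 + 27 * (n : ℂ) ^ 6)

/-- The descent element of a point. -/
def eta (g : ℤ) (t : ℂ) (p : ℤ × ℤ) : ℂ := 4 * (p.1 : ℂ) - (p.2 : ℂ) * (g : ℂ) ^ 2 * t

/-- The value of a rational quadratic polynomial. -/
def ev (c : Fin 3 → ℚ) (t : ℂ) : ℂ := (c 0 : ℂ) + (c 1 : ℂ) * t + (c 2 : ℂ) * t ^ 2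

/-- Two points lie in the same square class. -/
def Rel (g : ℤ) (T : Fin 3 → ℂ) (p q : ℤ × ℤ) : Prop :=
  ∃ c : Fin 3 → ℚ, ∀ a, ev c (T a) ^ 2 = eta g (T a) p * eta g (T a) q

/-- A compatible system of square roots on a set of points. -/
def Sys (g : ℤ) (T : Fin 3 → ℂ) (S : Finset (ℤ × ℤ)) (c : ℤ × ℤ → ℤ × ℤ → Fin 3 → ℚ) : Prop :=
  (∀ p ∈ S, ∀ q ∈ S, ∀ a, ev (c p q) (T a) ^ 2 = eta g (T a) p * eta g (T a) q) ∧
    ∀ p ∈ S, ∀ q ∈ S, ∀ r ∈ S, ∀ a,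
      ev (c p q) (T a) * eta g (T a) r = ev (c p r) (T a) * ev (c q r) (T a)

/-- The cubic `n r ^ 3 - s r + 2 n` has a rational root. -/
def Red (s n : ℤ) : Prop := ∃ r : ℚ, (n : ℚ) * r ^ 3 - s * r + 2 * n = 0

/-- `n ^ 2` times the norm of `a + b r + c r ^ 2`. -/
def QN (q : ℤ × ℤ × ℤ) (s n : ℤ) : ℤ :=
  q.1 * q.2.2 ^ 2 * s ^ 2 + (-q.1 * q.2.1 ^ 2 + 2 * q.1 ^ 2 * q.2.2 + 2 * q.2.1 * q.2.2 ^ 2) * s * n +
    (q.1 ^ 3 + 6 * q.1 * q.2.1 * q.2.2 - 2 * q.2.1 ^ 3 + 4 * q.2.2 ^ 3) * n ^ 2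

/-- First factor of the discriminant of the norm form. -/
def dd (q : ℤ × ℤ × ℤ) : ℤ := q.2.1 ^ 2 - 4 * q.1 * q.2.2

/-- Second factor of the discriminant of the norm form. -/
def jj (q : ℤ × ℤ × ℤ) : ℤ := q.1 * q.2.1 + 2 * q.2.2 ^ 2

/-- The bad number of a degenerate class. -/
def B1 (u v : ℤ) : ℤ := 6 * u * v * (u ^ 3 - v ^ 3) * (u ^ 3 + 8 * v ^ 3)

/-- The linear form of a degenerate class. -/
def ell (u v s n : ℤ) : ℤ := n * (u ^ 3 + 2 * v ^ 3) - s * (u * v ^ 2)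

/-- The nondegenerate small triples. -/
noncomputable def Non (T s n : ℤ) : Finset (ℤ × ℤ × ℤ) :=
  (H32.box T).filter fun q => dd q * jj q ≠ 0 ∧ ∃ w : ℤ, w ≠ 0 ∧ QN q s n = w ^ 2

/-- The degenerate classes. -/
noncomputable def Deg (T s n : ℤ) : Finset (ℤ × ℤ) :=
  (Finset.Icc (-(2 * T)) (2 * T) ×ˢ Finset.Icc (-(2 * T)) (2 * T)).filter fun x =>
    x.1 ^ 2 ≤ 2 * T ∧ x.2 ^ 2 ≤ 2 * T ∧ IsCoprime x.1 x.2 ∧ B1 x.1 x.2 ≠ 0 ∧
      ∃ e w : ℤ, Squarefree e ∧ e ∣ B1 x.1 x.2 ∧ w ≠ 0 ∧ ell x.1 x.2 s n = e * w ^ 2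

/-- Coprime pairs in a box. -/
def Prs (X : ℝ) (S : Finset (ℤ × ℤ)) : Prop :=
  ∀ x ∈ S, IsCoprime x.1 x.2 ∧ DD x.1 x.2 ≠ 0 ∧ |(x.1 : ℝ)| ≤ X ∧ |(x.2 : ℝ)| ≤ X

/-! ### Number fields -/

/-- A bound for the totally positive Selmer classes. -/
def SelLe (F : Type) [Field F] [NumberField F] (k : ℕ) : Prop :=
  ∀ T : Finset (𝓞 F), (∀ δ ∈ T, H32.SelP δ) → H32.Ineq T → T.card ≤ k

/-- `r` is an irrational root of `n r ^ 3 - s r + 2 n` in a cubic field. -/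
structure Gen (A : Type) [Field A] [NumberField A] (s n : ℤ) (r : A) : Prop where
  rank : finrank ℚ A = 3
  root : (n : A) * r ^ 3 - s * r + 2 * n = 0
  irr : ∀ q : ℚ, r ≠ (q : A)

/-- The degenerate element attached to `(u, v)`. -/
def q0 {A : Type} [Field A] (u v : ℤ) (r : A) : A := -2 * (v : A) ^ 2 + (u : A) ^ 2 * r + u * v * r ^ 2

/-- The element `a + b r + c r ^ 2`. -/
def qv {A : Type} [Field A] (q : ℤ × ℤ × ℤ) (r : A) : A :=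
  (q.1 : A) + (q.2.1 : A) * r + (q.2.2 : A) * r ^ 2

/-- The absolute value of the discriminant of a subfield of the algebraic closure. -/
noncomputable def dK (K : IntermediateField ℚ Ω) : ℕ :=
  if h : FiniteDimensional ℚ K then (@discr K _ (@NumberField.mk K _ inferInstance h)).natAbs else 0

lemma dK_eq (K : IntermediateField ℚ Ω) [NumberField K] : dK K = (discr K).natAbs := by
  have h : FiniteDimensional ℚ K := inferInstance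
  simp only [dK, dif_pos h]

/-- The number of ideal classes killed by three. -/
noncomputable def h3 (K : Type) [Field K] : ℕ := Nat.card {c : ClassGroup (𝓞 K) // c ^ 3 = 1}

/-- The class of a nonzero prime. -/
noncomputable def cls {K : Type} [Field K] [NumberField K] (q : HeightOneSpectrum (𝓞 K)) :
    ClassGroup (𝓞 K) :=
  ClassGroup.mk0 ⟨q.asIdeal, mem_nonZeroDivisors_of_ne_zero q.ne_bot⟩

/-- The quotient of the class group by the classes of `T` has no element of order three. -/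
def Sat {K : Type} [Field K] [NumberField K] (T : Finset (HeightOneSpectrum (𝓞 K))) : Prop :=
  ∀ c : ClassGroup (𝓞 K), c ^ 3 ∈ Subgroup.closure (cls '' (T : Set _)) →
    c ∈ Subgroup.closure (cls '' (T : Set _))

/-! ### Kummer data -/

/-- A pair of resolvents over `K`; `w` is a primitive cube root of unity. -/
def Kum (K : IntermediateField ℚ Ω) (w z zb : Ω) : Prop :=
  z ≠ 0 ∧ zb ≠ 0 ∧ ∀ g : Ω ≃ₐ[ℚ] Ω, (∀ x ∈ K, g x = x) → ∃ ζ : Ω, ζ ^ 3 = 1 ∧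
    ((g w = w ∧ g z = ζ * z ∧ g zb = ζ ^ 2 * zb) ∨
      (g w = w ^ 2 ∧ g z = ζ ^ 2 * zb ∧ g zb = ζ * z))

/-- The data attached to a field `L` of degree nine over its cubic subfield `K`. -/
def Dat (K : IntermediateField ℚ Ω) (w : Ω) (m : ℕ) (L : IntermediateField ℚ Ω) : Prop :=
  ∃ z zb : Ω, Kum K w z zb ∧ IsIntegral ℤ z ∧ IsIntegral ℤ zb ∧
    (∀ g : Ω ≃ₐ[ℚ] Ω, (∀ x ∈ L, g x = x) ↔ (∀ x ∈ K, g x = x) ∧ g (g z) = z) ∧
    ∃ M : IntermediateField ℚ Ω, FiniteDimensional ℚ M ∧ K ≤ M ∧ w ∈ M ∧ z ∈ M ∧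
      ∀ p : ℕ, p.Prime → p ∣ dK M → p ∣ m

/-- The embeddings of `L` with the action of the group. -/
structure Emb (L : IntermediateField ℚ Ω) (φ : Fin 3 → Fin 3 → (L →ₐ[ℚ] Ω)) : Prop where
  bij : Function.Bijective fun x : Fin 3 × Fin 3 => φ x.1 x.2
  inc : ∀ x : L, φ 0 0 x = x
  act : ∀ g : Ω ≃ₐ[ℚ] Ω, ∃ (π : Equiv.Perm (Fin 3)) (v : Fin 3 → Fin 3), v 0 + v 1 + v 2 = 0 ∧
    ∀ (i a : Fin 3) (x : L), g (φ i a x) = φ (π i) (a + v i) x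

/-- The first resolvent of the block `i`. -/
noncomputable def res {L : IntermediateField ℚ Ω} (w : Ω) (φ : Fin 3 → Fin 3 → (L →ₐ[ℚ] Ω))
    (i : Fin 3) (x : L) : Ω := φ i 0 x + w ^ 2 * φ i 1 x + w * φ i 2 x

/-- The second resolvent of the block `i`. -/
noncomputable def resb {L : IntermediateField ℚ Ω} (w : Ω) (φ : Fin 3 → Fin 3 → (L →ₐ[ℚ] Ω))
    (i : Fin 3) (x : L) : Ω := φ i 0 x + w * φ i 1 x + w ^ 2 * φ i 2 x

/-- `K` is the subfield of `L` that belongs to the block `0`. -/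
def Sub {L : IntermediateField ℚ Ω} (φ : Fin 3 → Fin 3 → (L →ₐ[ℚ] Ω))
    (K : IntermediateField ℚ Ω) : Prop :=
  finrank ℚ K = 3 ∧ K ≤ L ∧ ∀ g : Ω ≃ₐ[ℚ] Ω,
    (∀ y ∈ K, g y = y) ↔ ∃ a : Fin 3, ∀ x : L, g (φ 0 0 x) = φ 0 a x

/-- The ideal `Q` of the larger field lies over the prime `q`. -/
def Over {K K' : IntermediateField ℚ Ω} (q : HeightOneSpectrum (𝓞 K)) (Q : Ideal (𝓞 K')) : Prop :=
  ∀ (x : 𝓞 K) (x' : 𝓞 K'), ((x : K) : Ω) = ((x' : K') : Ω) → (x' ∈ Q ↔ x ∈ q.asIdeal)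

/-- `N` is the cyclic cubic extension of `K` cut out by the pair, and `g` generates its group. -/
def IsN (K : IntermediateField ℚ Ω) (w z zb : Ω) (N : IntermediateField ℚ Ω) (g : Ω ≃ₐ[ℚ] Ω) :
    Prop :=
  K ≤ N ∧ (∀ x ∈ K, g x = x) ∧ g w = w ∧ g z = w * z ∧ g zb = w ^ 2 * zb ∧
    ∀ y : Ω, y ∈ N ↔ ∀ h : Ω ≃ₐ[ℚ] Ω, (∀ x ∈ K, h x = x) → h (h z) = z → h y = y

/-- The group. -/
def InG (τ : Equiv.Perm (Fin 9)) : Prop :=
  ∃ (π : Equiv.Perm (Fin 3)) (v : Fin 3 → Fin 3), v 0 + v 1 + v 2 = 0 ∧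
    ∀ i a : Fin 3, τ (finProdFinEquiv (i, a)) = finProdFinEquiv (π i, a + v i)

end Pool.Agent.Lib.MP_af4c59_nt.K9
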