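import Pool.Agent.Lib.MP_af4c59_nt.K9Defs
import Pool.Agent.Lib.MP_af4c59_nt.H32Tor

/-!
Degenerate representatives (part D2 iv, v).
-/

set_option autoImplicit false

namespace Pool.Agent.Lib.MP_af4c59_nt.K9

open NumberField Module IsDedekindDomain

namespace DegAux

open Polynomial

variable {A : Type} [Field A] [NumberField A]

lemma natDeg (h3 : finrank ℚ A = 3) {x : A} (hx : ∀ q : ℚ, x ≠ (q : A)) :
    (minpoly ℚ x).natDegree = 3 := by
  have hi : IsIntegral ℚ x := Algebra.IsIntegral.isIntegral x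
  have hd := minpoly.degree_dvd hi
  rw [h3] at hd
  rcases (Nat.dvd_prime Nat.prime_three).mp hd with h1 | h1
  · exfalso
    obtain ⟨q, hq⟩ := minpoly.natDegree_eq_one_iff.mp h1
    exact hx q (by rw [← hq]; simp)
  · exact h1

lemma indep (h3 : finrank ℚ A = 3) {r : A} (hr : ∀ q : ℚ, r ≠ (q : A)) (x y z : ℚ)
    (e : (x : A) + y * r + z * r ^ 2 = 0) : x = 0 ∧ y = 0 ∧ z = 0 := by
  have hP : (C z * X ^ 2 + C y * X + C x : ℚ[X]) = 0 := by
    by_contra hne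
    have h1 := minpoly.degree_le_of_ne_zero ℚ r hne (by
      simp only [map_add, map_mul, aeval_C, aeval_X, map_pow, eq_ratCast]
      linear_combination e)
    have h2 := natDegree_le_natDegree h1
    rw [natDeg h3 hr] at h2
    have h4 : (C z * X ^ 2 + C y * X + C x : ℚ[X]).natDegree ≤ 2 := natDegree_quadratic_le
    omega
  refine ⟨?_, ?_, ?_⟩
  · simpa using congrArg (fun p : ℚ[X] => p.coeff 0) hP
  · simpa using congrArg (fun p : ℚ[X] => p.coeff 1) hP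
  · simpa [coeff_X, coeff_C] using congrArg (fun p : ℚ[X] => p.coeff 2) hP

/-- The trace of an irrational root of a depressed cubic vanishes. -/
lemma trace_zero (h3 : finrank ℚ A = 3) {x : A} (hx : ∀ q : ℚ, x ≠ (q : A)) (a b : ℚ)
    (e : x ^ 3 + a * x + b = 0) : Algebra.trace ℚ A x = 0 := by
  have hi : IsIntegral ℚ x := Algebra.IsIntegral.isIntegral x
  have hdeg : (X ^ 3 + C a * X + C b : ℚ[X]).natDegree = 3 := by compute_degree!
  have hm : (X ^ 3 + C a * X + C b : ℚ[X]).Monic := by monicity!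
  have hdv : minpoly ℚ x ∣ X ^ 3 + C a * X + C b := minpoly.dvd ℚ x (by
    simp only [map_add, map_mul, aeval_C, aeval_X, map_pow, eq_ratCast]
    exact e)
  have heq : X ^ 3 + C a * X + C b = minpoly ℚ x :=
    eq_of_monic_of_dvd_of_natDegree_le (minpoly.monic hi) hm hdv (by rw [hdeg, natDeg h3 hx])
  rw [trace_eq_finrank_mul_minpoly_nextCoeff, ← heq, nextCoeff, hdeg]
  simp

lemma int_dvd {p : ℕ} (hp : p.Prime) (Q : Ideal (𝓞 A)) (hQ : Q ≠ ⊤) (hpQ : (p : 𝓞 A) ∈ Q)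
    (z : ℤ) (hz : (z : 𝓞 A) ∈ Q) : (p : ℤ) ∣ z := by
  by_contra hn
  have hpr : Prime (p : ℤ) := Nat.prime_iff_prime_int.mp hp
  obtain ⟨a, b, hab⟩ := (hpr.irreducible.coprime_iff_not_dvd).mpr hn
  apply hQ
  rw [Ideal.eq_top_iff_one]
  have h1 : (1 : 𝓞 A) = (a : 𝓞 A) * (p : 𝓞 A) + (b : 𝓞 A) * (z : 𝓞 A) := by
    exact_mod_cast congrArg (fun t : ℤ => (t : 𝓞 A)) hab.symm
  rw [h1]
  exact Q.add_mem (Q.mul_mem_left _ hpQ) (Q.mul_mem_left _ hz)

lemma mult_zero (Q : HeightOneSpectrum (𝓞 A)) {a : 𝓞 A} (ha : a ∉ Q.asIdeal) :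
    multiplicity Q.asIdeal (Ideal.span {a}) = 0 := by
  rw [multiplicity_eq_zero, Ideal.dvd_span_singleton]
  exact ha

/-- A prime that does not divide the discriminant of the cubic is unramified. -/
lemma mult_one (h3 : finrank ℚ A = 3) (θ : 𝓞 A) (hθ : ∀ q : ℚ, (θ : A) ≠ (q : A)) (a b : ℤ)
    (e : θ ^ 3 + a * θ + b = 0) {p : ℕ} (hp : p.Prime) (hd : ¬ (p : ℤ) ∣ 4 * a ^ 3 + 27 * b ^ 2)
    (Q : HeightOneSpectrum (𝓞 A)) (hpQ : (p : 𝓞 A) ∈ Q.asIdeal) :
    multiplicity Q.asIdeal (Ideal.span {(p : 𝓞 A)}) = 1 := by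
  refine multiplicity_eq_of_dvd_of_not_dvd ?_ ?_
  · rw [pow_one, Ideal.dvd_span_singleton]; exact hpQ
  intro h2
  have hpr : Prime (p : ℤ) := Nat.prime_iff_prime_int.mp hp
  have hmax : (Ideal.span {(p : ℤ)}).IsMaximal :=
    PrincipalIdealRing.isMaximal_of_irreducible hpr.irreducible
  have h0 : Ideal.span {(p : ℤ)} ≠ ⊥ := by simpa using hp.ne_zero
  have h4 : Q.asIdeal ^ (2 - 1) ∣ differentIdeal ℤ (𝓞 A) :=
    pow_sub_one_dvd_differentIdeal_aux ℤ ℚ A Q.asIdeal (by norm_num) h0 (by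
      rw [Ideal.map_span, Set.image_singleton]
      simpa using h2)
  have hadj : Algebra.adjoin ℚ {algebraMap (𝓞 A) A θ} = ⊤ := by
    refine Algebra.adjoin_eq_top_of_primitive_element (Algebra.IsAlgebraic.isAlgebraic _) ?_
    rw [Field.primitive_element_iff_minpoly_natDegree_eq, h3]
    exact natDeg h3 hθ
  have h5 := aeval_derivative_mem_differentIdeal ℤ ℚ A θ hadj
  have hi : IsIntegral ℤ θ := Algebra.IsIntegral.isIntegral θ
  have hdv : minpoly ℤ θ ∣ X ^ 3 + C a * X + C b := minpoly.isIntegrallyClosed_dvd hi (by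
    simp only [map_add, map_mul, aeval_X, map_pow, eq_intCast, map_intCast]
    exact e)
  obtain ⟨g, hg⟩ := hdv
  have h6 : 3 * θ ^ 2 + a = aeval θ (derivative (minpoly ℤ θ)) * aeval θ g := by
    have := congrArg (fun f : ℤ[X] => aeval θ (derivative f)) hg
    simp only [derivative_mul, map_add, map_mul, minpoly.aeval, zero_mul, add_zero] at this
    rw [← this]
    simp [map_ofNat]
  have h7 : 3 * θ ^ 2 + a ∈ Q.asIdeal := by
    rw [h6]
    refine Ideal.mul_mem_right _ _ ?_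
    have := Ideal.le_of_dvd h4
    simpa using this h5
  apply hd
  refine int_dvd hp Q.asIdeal Q.isPrime.ne_top hpQ _ ?_
  have h8 : ((4 * a ^ 3 + 27 * b ^ 2 : ℤ) : 𝓞 A) =
      (3 * θ ^ 2 + a) * (4 * a ^ 2 + θ * (6 * a * θ - 9 * b)) := by
    push_cast
    linear_combination (-(18 * a * θ - 27 * b)) * e
  rw [h8]
  exact Ideal.mul_mem_right _ _ h7

lemma even_sq (Q : HeightOneSpectrum (𝓞 A)) {y : 𝓞 A} (hy : y ≠ 0) :
    Even (multiplicity Q.asIdeal (Ideal.span {y * y})) := by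
  rw [H32.Tor.mult_mul Q hy hy]
  exact ⟨_, rfl⟩

lemma even_sel (Q : HeightOneSpectrum (𝓞 A)) {δ : 𝓞 A} (hδ : H32.SelP δ) :
    Even (multiplicity Q.asIdeal (Ideal.span {δ})) := by
  obtain ⟨h0, -, -, I, hI⟩ := hδ
  have hne : I * I ≠ 0 := by
    rw [← sq, hI]
    simpa using h0
  rw [← hI, sq, multiplicity_mul Q.prime (FiniteMultiplicity.of_prime_left Q.prime hne)]
  exact ⟨_, rfl⟩

/-- The parity of the valuation of the linear form outside the bad number. -/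
lemma key {s n : ℤ} {r : A} (h : Gen A s n r) (hc : IsCoprime s n) (hn : n ≠ 0) {δ : 𝓞 A}
    (hδ : H32.SelP δ) {u v : ℤ} (hq0 : q0 u v r ≠ 0)
    (hs : IsSquare ((δ : A) * (-2 * q0 u v r))) {e w : ℤ} (he : Squarefree e) (hw : w ≠ 0)
    (hl : ell u v s n = e * w ^ 2) {p : ℕ} (hp : p.Prime) (hpe : (p : ℤ) ∣ e) :
    (p : ℤ) ∣ B1 u v := by
  by_contra hB
  have hpr : Prime (p : ℤ) := Nat.prime_iff_prime_int.mp hp
  have hpl : (p : ℤ) ∣ ell u v s n := by rw [hl]; exact hpe.mul_right _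
  have hnA : (n : A) ≠ 0 := by exact_mod_cast hn
  have hp2 : ¬ (p : ℤ) ∣ 2 := fun hh => hB (hh.trans ⟨3 * u * v * (u ^ 3 - v ^ 3) *
    (u ^ 3 + 8 * v ^ 3), by unfold B1; ring⟩)
  have hp3 : ¬ (p : ℤ) ∣ 3 := fun hh => hB (hh.trans ⟨2 * u * v * (u ^ 3 - v ^ 3) *
    (u ^ 3 + 8 * v ^ 3), by unfold B1; ring⟩)
  have hpu : ¬ (p : ℤ) ∣ u := fun hh => hB (hh.trans ⟨6 * v * (u ^ 3 - v ^ 3) *
    (u ^ 3 + 8 * v ^ 3), by unfold B1; ring⟩)
  have hpv : ¬ (p : ℤ) ∣ v := fun hh => hB (hh.trans ⟨6 * u * (u ^ 3 - v ^ 3) *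
    (u ^ 3 + 8 * v ^ 3), by unfold B1; ring⟩)
  have hpa : ¬ (p : ℤ) ∣ u ^ 3 - v ^ 3 := fun hh => hB (hh.trans ⟨6 * u * v *
    (u ^ 3 + 8 * v ^ 3), by unfold B1; ring⟩)
  have hpb : ¬ (p : ℤ) ∣ u ^ 3 + 8 * v ^ 3 := fun hh => hB (hh.trans ⟨6 * u * v *
    (u ^ 3 - v ^ 3), by unfold B1; ring⟩)
  have hpn : ¬ (p : ℤ) ∣ n := by
    intro hh
    have h1 : (p : ℤ) ∣ s * (u * v ^ 2) := by
      have : s * (u * v ^ 2) = n * (u ^ 3 + 2 * v ^ 3) - ell u v s n := by unfold ell; ring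
      rw [this]
      exact dvd_sub (hh.mul_right _) hpl
    rcases hpr.dvd_or_dvd h1 with h2 | h2
    · exact hpr.not_unit (hc.isUnit_of_dvd' h2 hh)
    · rcases hpr.dvd_or_dvd h2 with h3 | h3
      · exact hpu h3
      · exact hpv (hpr.dvd_of_dvd_pow h3)
  have hpD : ¬ (p : ℤ) ∣ s ^ 3 - 27 * n ^ 3 := by
    intro hh
    have h1 : (p : ℤ) ∣ n ^ 3 * ((u ^ 3 - v ^ 3) ^ 2 * (u ^ 3 + 8 * v ^ 3)) := by
      have : n ^ 3 * ((u ^ 3 - v ^ 3) ^ 2 * (u ^ 3 + 8 * v ^ 3)) =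
          (s ^ 3 - 27 * n ^ 3) * (u * v ^ 2) ^ 3 + ell u v s n *
            ((n * (u ^ 3 + 2 * v ^ 3)) ^ 2 + n * (u ^ 3 + 2 * v ^ 3) * (s * (u * v ^ 2)) +
              (s * (u * v ^ 2)) ^ 2) := by unfold ell; ring
      rw [this]
      exact dvd_add (hh.mul_right _) (hpl.mul_right _)
    rcases hpr.dvd_or_dvd h1 with h2 | h2
    · exact hpn (hpr.dvd_of_dvd_pow h2)
    · rcases hpr.dvd_or_dvd h2 with h3 | h3
      · exact hpa (hpr.dvd_of_dvd_pow h3)
      · exact hpb h3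
  have hroot : ((n : A) * r) ^ 3 - s * n * (n * r) + 2 * (n : A) ^ 3 = 0 := by
    linear_combination (n : A) ^ 2 * h.root
  have hint : IsIntegral ℤ ((n : A) * r) := by
    refine ⟨X ^ 3 + C (-(s * n)) * X + C (2 * n ^ 3), by monicity!, ?_⟩
    rw [eval₂_add, eval₂_add, eval₂_mul, eval₂_pow, eval₂_X, eval₂_C, eval₂_C, eq_intCast,
      eq_intCast]
    push_cast
    linear_combination hroot
  obtain ⟨θ, hθ⟩ : ∃ θ : 𝓞 A, (θ : A) = n * r := ⟨⟨_, hint⟩, rfl⟩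
  have hθ' : algebraMap (𝓞 A) A θ = n * r := hθ
  have hθq : ∀ q : ℚ, (θ : A) ≠ (q : A) := by
    intro q hq
    apply h.irr (q / n)
    push_cast
    rw [← hq, hθ]
    field_simp
  have hθe : θ ^ 3 + ((-(s * n) : ℤ) : 𝓞 A) * θ + ((2 * n ^ 3 : ℤ) : 𝓞 A) = 0 := by
    apply RingOfIntegers.coe_injective
    simp only [map_add, map_mul, map_pow, map_intCast, map_zero, hθ']
    push_cast
    linear_combination hroot
  have hθe' : θ ^ 3 - (s : 𝓞 A) * n * θ + 2 * (n : 𝓞 A) ^ 3 = 0 := by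
    push_cast at hθe
    linear_combination hθe
  have htr : Algebra.trace ℚ A (θ : A) = 0 := by
    refine trace_zero h.rank hθq (-(s * n)) (2 * n ^ 3) ?_
    push_cast
    rw [hθ]
    linear_combination hroot
  set ξ : 𝓞 A := (n : 𝓞 A) * u - v * θ with hξ
  set ξ' : 𝓞 A := ((n : 𝓞 A) * u) ^ 2 + n * u * (v * θ) + (v * θ) ^ 2 - s * n * v ^ 2 with hξ'
  have hprod : ξ * ξ' = (n : 𝓞 A) ^ 2 * ((ell u v s n : ℤ) : 𝓞 A) := by
    rw [hξ, hξ']
    unfold ell
    push_cast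
    linear_combination (-(v : 𝓞 A) ^ 3) * hθe'
  obtain ⟨l', hl'⟩ := hpl
  have hQ : ∃ Q : HeightOneSpectrum (𝓞 A), (p : 𝓞 A) ∈ Q.asIdeal ∧ ξ' ∈ Q.asIdeal := by
    by_cases htop : Ideal.span {(p : 𝓞 A), ξ'} = ⊤
    · exfalso
      have h1 : (1 : 𝓞 A) ∈ Ideal.span {(p : 𝓞 A), ξ'} := by rw [htop]; trivial
      obtain ⟨α, β, hαβ⟩ := Ideal.mem_span_pair.mp h1
      have h2 : ξ = (p : 𝓞 A) * (α * ξ + β * (n : 𝓞 A) ^ 2 * l') := by
        have h3 : ξ * ξ' = (n : 𝓞 A) ^ 2 * ((p : 𝓞 A) * l') := by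
          rw [hprod, hl']; push_cast; ring
        linear_combination (-ξ) * hαβ + β * h3
      set γ : 𝓞 A := α * ξ + β * (n : 𝓞 A) ^ 2 * l' with hγ
      have h4 : IsIntegral ℤ (Algebra.trace ℚ A (γ : A)) :=
        Algebra.isIntegral_trace γ.isIntegral_coe
      obtain ⟨z, hz⟩ := IsIntegrallyClosed.isIntegral_iff.mp h4
      have h5 : algebraMap ℚ A ((n : ℚ) * u) - (v : ℚ) • (θ : A) = (p : ℚ) • (γ : A) := by
        have := congrArg (algebraMap (𝓞 A) A) h2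
        rw [hξ] at this
        simp only [map_sub, map_mul, map_intCast, map_natCast] at this
        simp only [Algebra.smul_def, map_mul, map_intCast, map_natCast]
        exact this
      have h6 := congrArg (Algebra.trace ℚ A) h5
      rw [map_sub, map_smul, map_smul, htr, Algebra.trace_algebraMap, h.rank, ← hz] at h6
      have h7 : (3 * (n * u) : ℤ) = p * z := by
        have : ((3 * (n * u) : ℤ) : ℚ) = ((p * z : ℤ) : ℚ) := by
          push_cast
          simpa using h6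
        exact_mod_cast this
      rcases hpr.dvd_or_dvd ⟨z, h7⟩ with h8 | h8
      · exact hp3 h8
      · rcases hpr.dvd_or_dvd h8 with h9 | h9
        · exact hpn h9
        · exact hpu h9
    · obtain ⟨M, hM, hle⟩ := Ideal.exists_le_maximal _ htop
      have hpM : (p : 𝓞 A) ∈ M := hle (Ideal.subset_span (by simp))
      have hξM : ξ' ∈ M := hle (Ideal.subset_span (by simp))
      refine ⟨⟨M, hM.isPrime, ?_⟩, hpM, hξM⟩
      rintro rfl
      rw [Ideal.mem_bot] at hpM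
      exact hp.ne_zero (by exact_mod_cast hpM)
  obtain ⟨Q, hpQ, hξ'Q⟩ := hQ
  have hint' : ∀ z : ℤ, ¬ (p : ℤ) ∣ z → (z : 𝓞 A) ∉ Q.asIdeal := fun z hz hm =>
    hz (int_dvd hp Q.asIdeal Q.isPrime.ne_top hpQ z hm)
  have hξQ : ξ ∉ Q.asIdeal := by
    intro hm
    have h1 : ((n * (3 * n * u ^ 2 - s * v ^ 2) : ℤ) : 𝓞 A) ∈ Q.asIdeal := by
      have : ((n * (3 * n * u ^ 2 - s * v ^ 2) : ℤ) : 𝓞 A) =
          ξ' + ξ * (2 * n * u + v * θ) := by
        rw [hξ, hξ']; push_cast; ring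
      rw [this]
      exact Q.asIdeal.add_mem hξ'Q (Q.asIdeal.mul_mem_right _ hm)
    refine hint' _ ?_ h1
    intro h2
    rcases hpr.dvd_or_dvd h2 with h3 | h3
    · exact hpn h3
    have h4 : (p : ℤ) ∣ 2 * (n * (u ^ 3 - v ^ 3)) := by
      have : 2 * (n * (u ^ 3 - v ^ 3)) = (3 * n * u ^ 2 - s * v ^ 2) * u - ell u v s n := by
        unfold ell; ring
      rw [this]
      exact dvd_sub (h3.mul_right _) ⟨l', hl'⟩
    rcases hpr.dvd_or_dvd h4 with h5 | h5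
    · exact hp2 h5
    · rcases hpr.dvd_or_dvd h5 with h6 | h6
      · exact hpn h6
      · exact hpa h6
  have hθQ : θ ∉ Q.asIdeal := by
    intro hm
    have h1 : ((2 * n ^ 3 : ℤ) : 𝓞 A) ∈ Q.asIdeal := by
      have : ((2 * n ^ 3 : ℤ) : 𝓞 A) = θ * (s * n - θ ^ 2) := by
        push_cast
        linear_combination hθe'
      rw [this]
      exact Q.asIdeal.mul_mem_right _ hm
    refine hint' _ ?_ h1
    intro h2
    rcases hpr.dvd_or_dvd h2 with h3 | h3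
    · exact hp2 h3
    · exact hpn (hpr.dvd_of_dvd_pow h3)
  have hone : multiplicity Q.asIdeal (Ideal.span {(p : 𝓞 A)}) = 1 := by
    refine mult_one h.rank θ hθq _ _ hθe hp ?_ Q hpQ
    intro h1
    have h2 : 4 * (-(s * n)) ^ 3 + 27 * (2 * n ^ 3) ^ 2 =
        2 * (2 * (n ^ 3 * (-(s ^ 3 - 27 * n ^ 3)))) := by ring
    rw [h2] at h1
    rcases hpr.dvd_or_dvd h1 with h3 | h3
    · exact hp2 h3
    rcases hpr.dvd_or_dvd h3 with h3 | h3
    · exact hp2 h3
    rcases hpr.dvd_or_dvd h3 with h3 | h3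
    · exact hpn (hpr.dvd_of_dvd_pow h3)
    · exact hpD (dvd_neg.mp h3)
  obtain ⟨e', he'⟩ := hpe
  have hpe' : ¬ (p : ℤ) ∣ e' := by
    rintro ⟨e2, h2⟩
    exact hpr.not_unit (he p ⟨e2, by rw [he', h2]; ring⟩)
  set Z : 𝓞 A := -2 * (-2 * (v : 𝓞 A) ^ 2 * (n : 𝓞 A) ^ 2 + (u : 𝓞 A) ^ 2 * n * θ +
    u * v * θ ^ 2) with hZ
  have hZA : (Z : A) = (n : A) ^ 2 * (-2 * q0 u v r) := by
    change algebraMap (𝓞 A) A Z = _
    rw [hZ]
    simp only [map_add, map_mul, map_pow, map_neg, map_intCast, map_ofNat, hθ']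
    unfold q0
    ring
  have hZ0 : Z ≠ 0 := by
    intro h0
    rw [h0] at hZA
    exact mul_ne_zero (pow_ne_zero 2 hnA) (mul_ne_zero (by norm_num : (-2 : A) ≠ 0) hq0)
      (by rw [← hZA]; simp)
  obtain ⟨y, hy⟩ := hs
  have hyint : IsIntegral ℤ ((n : A) * y) := by
    refine IsIntegral.of_pow (n := 2) (by norm_num) ?_
    have : ((n : A) * y) ^ 2 = ((δ * Z : 𝓞 A) : A) := by
      change _ = (δ : A) * (Z : A)
      rw [hZA]
      linear_combination (-(n : A) ^ 2) * hy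
    rw [this]
    exact (δ * Z).isIntegral_coe
  obtain ⟨y', hy'⟩ : ∃ y' : 𝓞 A, (y' : A) = n * y := ⟨⟨_, hyint⟩, rfl⟩
  have hyy : δ * Z = y' * y' := by
    apply RingOfIntegers.ext
    change (δ : A) * (Z : A) = (y' : A) * (y' : A)
    rw [hZA, hy']
    linear_combination (n : A) ^ 2 * hy
  have hy0 : y' ≠ 0 := by
    intro h0
    rw [h0, mul_zero] at hyy
    exact mul_ne_zero hδ.1 hZ0 hyy
  have hE1 := even_sq Q hy0
  rw [← hyy, H32.Tor.mult_mul Q hδ.1 hZ0] at hE1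
  have hE2 : Even (multiplicity Q.asIdeal (Ideal.span {Z})) :=
    (Nat.even_add.mp hE1).mp (even_sel Q hδ)
  have hw0 : (w : 𝓞 A) ≠ 0 := by exact_mod_cast hw
  have hp0 : (p : 𝓞 A) ≠ 0 := by exact_mod_cast hp.ne_zero
  have hU : (((-2 * n * e' : ℤ) : 𝓞 A) * θ) ∉ Q.asIdeal := by
    intro hm
    rcases Q.isPrime.mem_or_mem hm with h1 | h1
    · refine hint' _ ?_ h1
      intro h2
      rcases hpr.dvd_or_dvd h2 with h3 | h3
      · rcases hpr.dvd_or_dvd h3 with h4 | h4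
        · exact hp2 (dvd_neg.mp h4)
        · exact hpn h4
      · exact hpe' h3
    · exact hθQ h1
  have hU0 : (((-2 * n * e' : ℤ) : 𝓞 A) * θ) ≠ 0 := fun h0 => hU (h0 ▸ Q.asIdeal.zero_mem)
  have hξ0 : ξ ≠ 0 := fun h0 => hξQ (h0 ▸ Q.asIdeal.zero_mem)
  have hmain : Z * ξ = (p : 𝓞 A) * ((w * w) * (((-2 * n * e' : ℤ) : 𝓞 A) * θ)) := by
    have h1 : ((ell u v s n : ℤ) : 𝓞 A) = (p : 𝓞 A) * e' * w ^ 2 := by
      rw [hl, he']; push_cast; ring
    unfold ell at h1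
    push_cast at h1
    rw [hZ, hξ]
    push_cast
    linear_combination (-2 * (n : 𝓞 A) * θ) * h1 + (2 * (u : 𝓞 A) * v ^ 2) * hθe'
  have hm : multiplicity Q.asIdeal (Ideal.span {Z * ξ}) = multiplicity Q.asIdeal
      (Ideal.span {(p : 𝓞 A) * ((w * w) * (((-2 * n * e' : ℤ) : 𝓞 A) * θ))}) := by rw [hmain]
  rw [H32.Tor.mult_mul Q hZ0 hξ0, H32.Tor.mult_mul Q hp0 (mul_ne_zero (mul_ne_zero hw0 hw0) hU0),
    H32.Tor.mult_mul Q (mul_ne_zero hw0 hw0) hU0, mult_zero Q hξQ, mult_zero Q hU, hone] at hm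
  obtain ⟨k1, hk1⟩ := hE2
  obtain ⟨k2, hk2⟩ := even_sq Q hw0
  omega

lemma sqf (l : ℤ) (hl : l ≠ 0) : ∃ e w : ℤ, Squarefree e ∧ w ≠ 0 ∧ l = e * w ^ 2 := by
  obtain ⟨a, b, hab, ha⟩ := Nat.sq_mul_squarefree l.natAbs
  have hb : b ≠ 0 := by
    rintro rfl
    simp at hab
    omega
  have h1 : ((l.natAbs : ℕ) : ℤ) = (a : ℤ) * (b : ℤ) ^ 2 := by rw [← hab]; push_cast; ring
  rcases Int.natAbs_eq l with h | h
  · exact ⟨a, b, Int.squarefree_natAbs.mp (by simpa using ha), by exact_mod_cast hb,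
      by rw [← h1]; exact h⟩
  · exact ⟨-a, b, Int.squarefree_natAbs.mp (by simpa using ha), by exact_mod_cast hb,
      by rw [neg_mul, ← h1]; exact h⟩

lemma dvd_of_primes {e B : ℤ} (he : Squarefree e) (hB : B ≠ 0)
    (h : ∀ p : ℕ, p.Prime → (p : ℤ) ∣ e → (p : ℤ) ∣ B) : e ∣ B := by
  rw [← Int.natAbs_dvd_natAbs,
    ← Nat.prod_primeFactors_of_squarefree (Int.squarefree_natAbs.mpr he),
    Nat.prod_primeFactors_dvd_iff (Int.natAbs_ne_zero.mpr hB)]
  intro p hp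
  obtain ⟨h1, h2, -⟩ := Nat.mem_primeFactors.mp hp
  exact Nat.mem_primeFactors.mpr ⟨h1, Int.natCast_dvd.mp (h p h1 (Int.natCast_dvd.mpr h2)),
    Int.natAbs_ne_zero.mpr hB⟩

/-- A rational multiple of a Selmer element of a cubic field is a square only trivially. -/
lemma sq_of_rat (h3 : finrank ℚ A = 3) {δ : 𝓞 A} (hδ : H32.SelP δ) {k : ℚ} (hk : k ≠ 0)
    (hs : IsSquare ((δ : A) * (k : A))) : IsSquare (δ : A) := by
  obtain ⟨h0, ⟨m, hm⟩, -, -⟩ := hδ
  obtain ⟨y, hy⟩ := hs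
  have hδA : (δ : A) ≠ 0 := by simpa using h0
  have hm0 : m ≠ 0 := by
    rintro rfl
    exact (Algebra.norm_ne_zero_iff (R := ℚ)).mpr hδA (by rw [hm, mul_zero])
  have h1 := congrArg (Algebra.norm ℚ) hy
  have h2 : Algebra.norm ℚ (k : A) = k ^ 3 := by
    rw [← h3, ← Algebra.norm_algebraMap]
    simp
  rw [map_mul, map_mul, hm, h2] at h1
  obtain ⟨t, ht⟩ : ∃ t : ℚ, k = t * t :=
    ⟨Algebra.norm ℚ y / (m * k), by field_simp; linear_combination h1⟩
  have ht0 : (t : A) ≠ 0 := by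
    have : t ≠ 0 := by rintro rfl; exact hk (by simpa using ht)
    exact_mod_cast this
  refine ⟨y / t, ?_⟩
  rw [ht] at hy
  push_cast at hy
  field_simp
  linear_combination hy

end DegAux

theorem q0_ne {A : Type} [Field A] [NumberField A] {s n : ℤ} {r : A} (h : Gen A s n r) {u v : ℤ}
    (hu : u ≠ 0) : q0 u v r ≠ 0 := by
  intro h0
  have := DegAux.indep h.rank h.irr (-2 * (v : ℚ) ^ 2) ((u : ℚ) ^ 2) (u * v) (by
    push_cast
    exact h0)
  apply hu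
  have h1 : (u : ℚ) = 0 := by simpa using this.2.1
  exact_mod_cast h1

theorem deg_q {A : Type} [Field A] [NumberField A] {s n : ℤ} {r : A} (h : Gen A s n r)
    (hc : IsCoprime s n) (hD : DD s n ≠ 0) {T : ℤ} {δ : 𝓞 A} (hδ : H32.SelP δ) {q : ℤ × ℤ × ℤ}
    (hq : q ∈ H32.box T) (h0 : qv q r ≠ 0) (hs : IsSquare ((δ : A) * qv q r))
    (hw : ∃ w : ℤ, w ≠ 0 ∧ QN q s n = w ^ 2) (hdj : dd q * jj q = 0) :
    IsSquare (δ : A) ∨ ∃ x : ℤ × ℤ, x.1 ≠ 0 ∧
      (x ∈ ({(1, 0), (1, 1), (-2, 1)} : Finset (ℤ × ℤ)) ∨ x ∈ Deg T s n) ∧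
        IsSquare ((δ : A) * (-2 * q0 x.1 x.2 r)) := by
  obtain ⟨a, b, c⟩ := q
  have hn : n ≠ 0 := by
    rintro rfl
    exact hD (by simp [DD])
  simp only [H32.box, Finset.mem_product, Finset.mem_Icc] at hq
  obtain ⟨⟨ha1, ha2⟩, ⟨hb1, hb2⟩, hc1, hc2⟩ := hq
  obtain ⟨y, hy⟩ := hs
  simp only [qv] at h0 hy
  by_cases hd : dd (a, b, c) = 0
  · left
    simp only [dd] at hd
    have hdA : (b : A) ^ 2 - 4 * a * c = 0 := by exact_mod_cast congrArg (fun t : ℤ => (t : A)) hd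
    by_cases hc0 : c = 0
    · subst hc0
      have hb0 : b = 0 := by simpa using hd
      subst hb0
      have ha0 : a ≠ 0 := by
        rintro rfl
        exact h0 (by simp)
      refine DegAux.sq_of_rat h.rank hδ (k := a) (by exact_mod_cast ha0) ⟨y, ?_⟩
      simpa using hy
    · have hcA : (c : A) ≠ 0 := by exact_mod_cast hc0
      have h1 : 4 * (c : A) * ((a : A) + b * r + c * r ^ 2) = (b + 2 * c * r) ^ 2 := by
        linear_combination -hdA
      have h2 : (b : A) + 2 * c * r ≠ 0 := by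
        intro h3
        rw [h3] at h1
        exact mul_ne_zero (mul_ne_zero (by norm_num : (4 : A) ≠ 0) hcA) h0 (by rw [h1]; simp)
      refine DegAux.sq_of_rat h.rank hδ (k := c) (by exact_mod_cast hc0)
        ⟨2 * c * y / (b + 2 * c * r), ?_⟩
      push_cast
      rw [div_mul_div_comm, eq_div_iff (mul_ne_zero h2 h2)]
      linear_combination (-(δ : A) * c) * h1 + 4 * (c : A) ^ 2 * hy
  right
  have hj : jj (a, b, c) = 0 := (mul_eq_zero.mp hdj).resolve_left hd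
  simp only [jj] at hj
  simp only [dd] at hd
  have hb0 : b ≠ 0 := by
    rintro rfl
    have : c = 0 := by simpa using hj
    subst this
    exact hd (by simp)
  have hg : 0 < Int.gcd b c := Int.gcd_pos_of_ne_zero_left c hb0
  obtain ⟨u, v, huv, hbu, hcv⟩ := Int.exists_gcd_one hg
  set g : ℤ := (Int.gcd b c : ℤ) with hgdef
  have hg0 : g ≠ 0 := by rw [hgdef]; exact_mod_cast hg.ne'
  have hcop : IsCoprime u v := Int.isCoprime_iff_gcd_eq_one.mpr huv
  have hu : u ≠ 0 := by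
    rintro rfl
    exact hb0 (by simpa using hbu)
  have h1 : a * u + 2 * g * v ^ 2 = 0 := by
    apply mul_left_cancel₀ hg0
    rw [hbu, hcv] at hj
    linear_combination hj
  have h2 : u ∣ 2 * g := by
    refine (hcop.pow_right (n := 2)).dvd_of_dvd_mul_right ⟨-a, ?_⟩
    linear_combination h1
  obtain ⟨k, hk⟩ := h2
  have hk0 : k ≠ 0 := by
    rintro rfl
    exact hg0 (by omega)
  have e1 : a = -k * v ^ 2 := by
    apply mul_left_cancel₀ hu
    linear_combination h1 - v ^ 2 * hk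
  have e2 : 2 * b = k * u ^ 2 := by
    rw [hbu]; linear_combination u * hk
  have e3 : 2 * c = k * (u * v) := by
    rw [hcv]; linear_combination v * hk
  obtain ⟨w, hw0, hw⟩ := hw
  have e4 : 4 * w ^ 2 = -k ^ 3 * ell u v s n ^ 2 := by
    have : 8 * QN (a, b, c) s n = QN (2 * a, 2 * b, 2 * c) s n := by
      simp only [QN]; ring
    rw [hw, e1, e2, e3] at this
    simp only [QN] at this
    unfold ell
    have h2 : (2 : ℤ) ≠ 0 := two_ne_zero
    apply mul_left_cancel₀ h2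
    linear_combination this
  have hl0 : ell u v s n ≠ 0 := by
    intro hl
    rw [hl] at e4
    apply hw0
    have : w ^ 2 = 0 := by linarith
    exact pow_eq_zero_iff (by norm_num) |>.mp this
  have hsq : IsSquare ((δ : A) * (-2 * q0 u v r)) := by
    have f1 : (a : A) = -k * v ^ 2 := by exact_mod_cast congrArg (fun t : ℤ => (t : A)) e1
    have f2 : 2 * (b : A) = k * u ^ 2 := by exact_mod_cast congrArg (fun t : ℤ => (t : A)) e2
    have f3 : 2 * (c : A) = k * (u * v) := by exact_mod_cast congrArg (fun t : ℤ => (t : A)) e3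
    have f4 : 4 * (w : A) ^ 2 = -k ^ 3 * ((ell u v s n : ℤ) : A) ^ 2 := by
      exact_mod_cast congrArg (fun t : ℤ => (t : A)) e4
    have f5 : (k : A) * q0 u v r = 2 * ((a : A) + b * r + c * r ^ 2) := by
      unfold q0
      linear_combination (-2) * f1 - r * f2 - r ^ 2 * f3
    have hwA : (w : A) ≠ 0 := by exact_mod_cast hw0
    have hkA : (k : A) ≠ 0 := by exact_mod_cast hk0
    refine ⟨y * k * (ell u v s n : ℤ) / w, ?_⟩
    field_simp
    apply mul_left_cancel₀ hkA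
    linear_combination (-2 * (δ : A) * (w : A) ^ 2) * f5 - 4 * (w : A) ^ 2 * hy - y ^ 2 * f4
  by_cases hB : B1 u v = 0
  · have hcase : v = 0 ∨ u = v ∨ u = -2 * v := by
      unfold B1 at hB
      rcases mul_eq_zero.mp hB with h3 | h3
      · rcases mul_eq_zero.mp h3 with h4 | h4
        · rcases mul_eq_zero.mp h4 with h5 | h5
          · exact absurd (by omega) hu
          · exact Or.inl h5
        · refine Or.inr (Or.inl ?_)
          exact (Odd.pow_inj (by decide : Odd 3)).mp (by linarith)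
      · refine Or.inr (Or.inr ?_)
        exact (Odd.pow_inj (by decide : Odd 3)).mp (by linarith)
    rcases hcase with rfl | rfl | rfl
    · have hu1 : u = 1 ∨ u = -1 := Int.isUnit_iff.mp (isCoprime_zero_right.mp hcop)
      refine ⟨(1, 0), by simp, Or.inl (by simp), ?_⟩
      rcases hu1 with rfl | rfl <;> simpa [q0] using hsq
    · have hu1 : u = 1 ∨ u = -1 := Int.isUnit_iff.mp (isCoprime_self.mp hcop)
      refine ⟨(1, 1), by simp, Or.inl (by simp), ?_⟩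
      rcases hu1 with rfl | rfl <;> simpa [q0] using hsq
    · have hu1 : v = 1 ∨ v = -1 :=
        Int.isUnit_iff.mp (hcop.isUnit_of_dvd' (Dvd.intro_left _ rfl) dvd_rfl)
      refine ⟨(-2, 1), by simp, Or.inl (by simp), ?_⟩
      have : q0 (-2 * v) v r = q0 (-2) 1 r := by
        rcases hu1 with rfl | rfl <;> simp [q0]
      rw [this] at hsq
      exact hsq
  · refine ⟨(u, v), hu, Or.inr ?_, hsq⟩
    obtain ⟨e, w', he, hw', hl⟩ := DegAux.sqf _ hl0
    have hk1 : 1 ≤ |k| := Int.one_le_abs hk0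
    have b1 : u ^ 2 ≤ 2 * T := by
      have : |k| * u ^ 2 = |2 * b| := by rw [e2, abs_mul, abs_of_nonneg (sq_nonneg u)]
      have h3 : |2 * b| ≤ 2 * T := abs_le.mpr ⟨by omega, by omega⟩
      nlinarith [sq_nonneg u]
    have b2 : v ^ 2 ≤ 2 * T := by
      have : |k| * v ^ 2 = |a| := by rw [e1, abs_mul, abs_neg, abs_of_nonneg (sq_nonneg v)]
      have h3 : |a| ≤ T := abs_le.mpr ⟨ha1, ha2⟩
      nlinarith [sq_nonneg v]
    have b3 : ∀ z : ℤ, z ^ 2 ≤ 2 * T → -(2 * T) ≤ z ∧ z ≤ 2 * T := by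
      intro z hz
      constructor <;> nlinarith [sq_nonneg (2 * z + 1), sq_nonneg (2 * z - 1), Int.le_self_sq z,
        Int.le_self_sq (-z)]
    simp only [Deg, Finset.mem_filter, Finset.mem_product, Finset.mem_Icc]
    refine ⟨⟨b3 u b1, b3 v b2⟩, b1, b2, hcop, hB, e, w', he, ?_, hw', hl⟩
    exact DegAux.dvd_of_primes he hB fun p hp hpe =>
      DegAux.key h hc hn hδ (q0_ne h hu) hsq he hw' hl hp hpe

end Pool.Agent.Lib.MP_af4c59_nt.K9
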