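import Pool.Agent.Lib.MP_af4c59_nt.K9Small2

/-!
A small representative of a Selmer class (part D2 ii).
-/

set_option autoImplicit false

namespace Pool.Agent.Lib.MP_af4c59_nt.K9

open NumberField Module IsDedekindDomain

namespace SmallAux

variable {A : Type} [Field A] [NumberField A] {s n : ℤ} {r : A}
  {φ : Fin 3 → (A →ₐ[ℚ] ℂ)} {σ : Equiv.Perm (Fin 3)}

theorem root_le {s n : ℤ} {X : ℝ} (hs : |(s : ℝ)| ≤ X) (hn : |(n : ℝ)| ≤ X) {z : ℂ}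
    (h : (n : ℂ) * z ^ 3 - s * z + 2 * n = 0) : |(n : ℝ)| * ‖z‖ ^ 2 ≤ 3 * X := by
  have h0 : 0 ≤ X := (abs_nonneg _).trans hs
  have hz := norm_nonneg z
  have hn0 := abs_nonneg (n : ℝ)
  rcases le_total ‖z‖ 1 with h1 | h1
  · have : ‖z‖ ^ 2 ≤ 1 := pow_le_one₀ hz h1
    nlinarith
  · have h2 : (n : ℂ) * z ^ 3 = s * z - 2 * n := by linear_combination h
    have h3 := congrArg norm h2
    have h4 := norm_sub_le ((s : ℂ) * z) (2 * n)
    rw [← h3] at h4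
    simp only [norm_mul, norm_pow, Complex.norm_intCast, Complex.norm_ofNat] at h4
    have h5 : (|(n : ℝ)| * ‖z‖ ^ 2) * ‖z‖ ≤ 3 * X * ‖z‖ := by nlinarith
    exact le_of_mul_le_mul_right h5 (by linarith)

theorem Tri.root (_h : Tri s n r φ σ) (hg : Gen A s n r) (j : Fin 3) :
    (n : ℂ) * φ j r ^ 3 - s * φ j r + 2 * n = 0 := by
  have := congrArg (φ j) hg.root
  simpa only [map_add, map_sub, map_mul, map_pow, map_intCast, map_ofNat, map_zero] using this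

theorem Tri.pi_le (h : Tri s n r φ σ) (hg : Gen A s n r) {X : ℝ} (hs : |(s : ℝ)| ≤ X)
    (hn : |(n : ℝ)| ≤ X) :
    |(n : ℝ)| * ((1 + ‖φ 0 r‖) * (1 + ‖φ 1 r‖) * (1 + ‖φ 2 r‖)) ≤ 18 * X := by
  have a0 := root_le hs hn (h.root hg 0)
  have a1 := root_le hs hn (h.root hg 1)
  have a2 := root_le hs hn (h.root hg 2)
  have e3 := congrArg (fun t : ℂ => ‖t‖) h.e3
  simp only [norm_mul, norm_neg, Complex.norm_ofNat] at e3
  have hn0 := abs_nonneg (n : ℝ)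
  generalize ‖φ 0 r‖ = x at *
  generalize ‖φ 1 r‖ = y at *
  generalize ‖φ 2 r‖ = z at *
  generalize |(n : ℝ)| = m at *
  have b1 := mul_nonneg hn0 (sq_nonneg (x - y))
  have b2 := mul_nonneg hn0 (sq_nonneg (x - z))
  have b3 := mul_nonneg hn0 (sq_nonneg (y - z))
  have c1 := mul_nonneg hn0 (sq_nonneg (x - 1))
  have c2 := mul_nonneg hn0 (sq_nonneg (y - 1))
  have c3 := mul_nonneg hn0 (sq_nonneg (z - 1))
  have d : m * (x * y * z) = 2 * m := by rw [e3]; ring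
  nlinarith

theorem term_le {q D w : ℂ} {ρ t u P m : ℝ} (hD : D ≠ 0) (hq : ‖q‖ ≤ ρ * (‖D‖ * t)) (hρ : 0 ≤ ρ)
    (ht : 0 ≤ t) (hw : ‖w‖ ≤ u) (hP : t * u ≤ P) (hm : 0 ≤ m) :
    m * ‖q / D * w‖ ≤ ρ * (m * P) := by
  have h1 : ‖q / D‖ ≤ ρ * t := by
    rw [norm_div, div_le_iff₀ (norm_pos_iff.2 hD)]
    linarith
  rw [norm_mul]
  have h2 : ‖q / D‖ * ‖w‖ ≤ ρ * t * u := by gcongr
  have h3 : ρ * (t * u) ≤ ρ * P := by gcongr
  nlinarith

/-- Interpolation at the three roots. -/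
theorem coef_le {x y z : ℂ} {n : ℤ} (hn : (n : ℂ) ≠ 0) (hxy : x - y ≠ 0) (hxz : x - z ≠ 0)
    (hyz : y - z ≠ 0) {a b c : ℤ} {ρ : ℝ} (hρ : 0 ≤ ρ)
    (h0 : ‖(a : ℂ) + b * x + c * x ^ 2‖ ≤ ρ * (‖n * (x - y) * (x - z)‖ * (1 + ‖x‖)))
    (h1 : ‖(a : ℂ) + b * y + c * y ^ 2‖ ≤ ρ * (‖-(n * (x - y) * (y - z))‖ * (1 + ‖y‖)))
    (h2 : ‖(a : ℂ) + b * z + c * z ^ 2‖ ≤ ρ * (‖n * (x - z) * (y - z)‖ * (1 + ‖z‖))) :
    |(a : ℝ)| ≤ 3 * (ρ * (|(n : ℝ)| * ((1 + ‖x‖) * (1 + ‖y‖) * (1 + ‖z‖)))) ∧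
    |(b : ℝ)| ≤ 3 * (ρ * (|(n : ℝ)| * ((1 + ‖x‖) * (1 + ‖y‖) * (1 + ‖z‖)))) ∧
    |(c : ℝ)| ≤ 3 * (ρ * (|(n : ℝ)| * ((1 + ‖x‖) * (1 + ‖y‖) * (1 + ‖z‖)))) := by
  have D0 : (n : ℂ) * (x - y) * (x - z) ≠ 0 := mul_ne_zero (mul_ne_zero hn hxy) hxz
  have D1 : -((n : ℂ) * (x - y) * (y - z)) ≠ 0 :=
    neg_ne_zero.2 (mul_ne_zero (mul_ne_zero hn hxy) hyz)
  have D2 : (n : ℂ) * (x - z) * (y - z) ≠ 0 := mul_ne_zero (mul_ne_zero hn hxz) hyz
  have nx := norm_nonneg x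
  have ny := norm_nonneg y
  have nz := norm_nonneg z
  have key : ∀ (k : ℤ) (w0 w1 w2 : ℂ), (k : ℂ) = n *
      (((a : ℂ) + b * x + c * x ^ 2) / (n * (x - y) * (x - z)) * w0 +
        ((a : ℂ) + b * y + c * y ^ 2) / (-(n * (x - y) * (y - z))) * w1 +
        ((a : ℂ) + b * z + c * z ^ 2) / (n * (x - z) * (y - z)) * w2) →
      ‖w0‖ ≤ (1 + ‖y‖) * (1 + ‖z‖) → ‖w1‖ ≤ (1 + ‖x‖) * (1 + ‖z‖) →
      ‖w2‖ ≤ (1 + ‖x‖) * (1 + ‖y‖) →
      |(k : ℝ)| ≤ 3 * (ρ * (|(n : ℝ)| * ((1 + ‖x‖) * (1 + ‖y‖) * (1 + ‖z‖)))) := by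
    intro k w0 w1 w2 hk g0 g1 g2
    have t0 := term_le (P := (1 + ‖x‖) * (1 + ‖y‖) * (1 + ‖z‖)) D0 h0 hρ (by linarith) g0
      (le_of_eq (by ring)) (abs_nonneg (n : ℝ))
    have t1 := term_le (P := (1 + ‖x‖) * (1 + ‖y‖) * (1 + ‖z‖)) D1 h1 hρ (by linarith) g1
      (le_of_eq (by ring)) (abs_nonneg (n : ℝ))
    have t2 := term_le (P := (1 + ‖x‖) * (1 + ‖y‖) * (1 + ‖z‖)) D2 h2 hρ (by linarith) g2
      (le_of_eq (by ring)) (abs_nonneg (n : ℝ))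
    have h3 := congrArg norm hk
    rw [norm_mul, Complex.norm_intCast, Complex.norm_intCast] at h3
    rw [h3]
    refine (mul_le_mul_of_nonneg_left norm_add₃_le (abs_nonneg _)).trans ?_
    linarith
  refine ⟨key a (y * z) (x * z) (x * y) (by field_simp; ring) ?_ ?_ ?_,
    key b (-(y + z)) (-(x + z)) (-(x + y)) (by field_simp; ring) ?_ ?_ ?_,
    key c 1 1 1 (by field_simp; ring) ?_ ?_ ?_⟩
  · rw [norm_mul]; nlinarith
  · rw [norm_mul]; nlinarith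
  · rw [norm_mul]; nlinarith
  · rw [norm_neg]; nlinarith [norm_add_le y z]
  · rw [norm_neg]; nlinarith [norm_add_le x z]
  · rw [norm_neg]; nlinarith [norm_add_le x y]
  · rw [norm_one]; nlinarith
  · rw [norm_one]; nlinarith
  · rw [norm_one]; nlinarith

/-- The short element of the lattice. -/
theorem exists_gam : ∃ C : ℝ, 0 < C ∧ ∀ (A : Type) [Field A] [NumberField A] (s n : ℤ) (r : A)
    (φ : Fin 3 → (A →ₐ[ℚ] ℂ)) (σ : Equiv.Perm (Fin 3)), Gen A s n r → n ≠ 0 → Tri s n r φ σ →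
      ∀ (δ : 𝓞 A) (I : Ideal (𝓞 A)), δ ≠ 0 → I ^ 2 = Ideal.span {δ} →
        ∃ (x y z : ℤ) (κ : 𝓞 A), (x : A) + y * r + z * (n * r ^ 2) ≠ 0 ∧
          ((n : A) * ((x : A) + y * r + z * (n * r ^ 2))) ^ 2 = δ * κ ∧ ∀ j,
          ‖φ j ((x : A) + y * r + z * (n * r ^ 2))‖ ^ 6 *
              (|(n : ℝ)| * ((1 + ‖φ 0 r‖) * (1 + ‖φ 1 r‖) * (1 + ‖φ 2 r‖))) ≤
            C * (‖φ j δ‖ * (‖φ j (3 * n * r ^ 2 - s)‖ * (1 + ‖φ j r‖))) ^ 3 := by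
  obtain ⟨C, hC, hsh⟩ := short3
  refine ⟨C, hC, fun A _ _ s n r φ σ hg hn ht δ I hδ hI => ?_⟩
  let θ : 𝓞 A := ⟨n * r, int_theta hg⟩
  have hθ : (θ : A) = n * r := rfl
  let f : (Fin 3 → ℤ) →+ 𝓞 A :=
    { toFun := fun x => n * x 0 + x 1 * θ + x 2 * θ ^ 2
      map_zero' := by simp
      map_add' := fun x y => by simp only [Pi.add_apply, Int.cast_add]; ring }
  have hI0 : I ≠ ⊥ := by
    rintro rfl
    rw [← Ideal.zero_eq_bot, zero_pow two_ne_zero, Ideal.zero_eq_bot, eq_comm,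
      Ideal.span_singleton_eq_bot] at hI
    exact hδ hI
  have hN : I.toAddSubgroup.index = Ideal.absNorm I := rfl
  have hN0 : Ideal.absNorm I ≠ 0 := by rwa [Ne, Ideal.absNorm_eq_zero_iff]
  have hle : (I.toAddSubgroup.comap f).index ≤ Ideal.absNorm I := by
    rw [AddSubgroup.index_comap, ← hN, ← AddSubgroup.relIndex_top_right]
    exact AddSubgroup.relIndex_le_of_le_right le_top
      (by rwa [AddSubgroup.relIndex_top_right, hN])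
  have hne : (I.toAddSubgroup.comap f).index ≠ 0 := by
    rw [AddSubgroup.index_comap]
    intro h0
    have := AddSubgroup.relIndex_eq_zero_of_le_right (le_top (a := f.range)) h0
    rw [AddSubgroup.relIndex_top_right, hN] at this
    exact hN0 this
  obtain ⟨a, ha, hdet⟩ := exists_family _ hne
  have hdet0 : a.det ≠ 0 := fun h0 => hne (by rw [← hdet, h0]; rfl)
  have hn' : (n : ℂ) ≠ 0 := by exact_mod_cast hn
  have d01 : φ 0 r - φ 1 r ≠ 0 := sub_ne_zero.2 fun h' => absurd (ht.inj h') (by decide)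
  have d02 : φ 0 r - φ 2 r ≠ 0 := sub_ne_zero.2 fun h' => absurd (ht.inj h') (by decide)
  have d12 : φ 1 r - φ 2 r ≠ 0 := sub_ne_zero.2 fun h' => absurd (ht.inj h') (by decide)
  have D0 : φ 0 (3 * n * r ^ 2 - s) = n * (φ 0 r - φ 1 r) * (φ 0 r - φ 2 r) := by
    simp only [map_sub, map_mul, map_pow, map_intCast, map_ofNat]
    linear_combination -ht.e2 + 2 * n * φ 0 r * ht.e1
  have D1 : φ 1 (3 * n * r ^ 2 - s) = -(n * (φ 0 r - φ 1 r) * (φ 1 r - φ 2 r)) := by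
    simp only [map_sub, map_mul, map_pow, map_intCast, map_ofNat]
    linear_combination -ht.e2 + 2 * n * φ 1 r * ht.e1
  have D2 : φ 2 (3 * n * r ^ 2 - s) = n * (φ 0 r - φ 2 r) * (φ 1 r - φ 2 r) := by
    simp only [map_sub, map_mul, map_pow, map_intCast, map_ofNat]
    linear_combination -ht.e2 + 2 * n * φ 2 r * ht.e1
  let u : Fin 3 → ℝ := fun j => ‖φ j δ‖ * (‖φ j (3 * n * r ^ 2 - s)‖ * (1 + ‖φ j r‖))
  have hδ' : (δ : A) ≠ 0 := by exact_mod_cast hδ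
  have hu : ∀ j, 0 < u j := fun j => by
    have a1 : 0 < ‖φ j δ‖ := norm_pos_iff.2 ((map_ne_zero _).2 hδ')
    have a2 : 0 < ‖φ j (3 * n * r ^ 2 - s)‖ := norm_pos_iff.2 (by
      fin_cases j
      · exact D0 ▸ mul_ne_zero (mul_ne_zero hn' d01) d02
      · exact D1 ▸ neg_ne_zero.2 (mul_ne_zero (mul_ne_zero hn' d01) d12)
      · exact D2 ▸ mul_ne_zero (mul_ne_zero hn' d02) d12)
    positivity
  let τ : Fin 3 → ℝ := fun j => √(u j)
  have hτ : ∀ j, 0 < τ j := fun j => Real.sqrt_pos.2 (hu j)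
  have hτ2 : ∀ j, τ j ^ 2 = u j := fun j => Real.sq_sqrt (hu j).le
  have hτ' : ∀ j, (τ j : ℂ) ≠ 0 := fun j => by exact_mod_cast (hτ j).ne'
  let E : Matrix (Fin 3) (Fin 3) ℂ := Matrix.of fun k j =>
    φ j ((a k 0 : A) + a k 1 * r + a k 2 * (n * r ^ 2)) / τ j
  have hE : E.det * (τ 0 * τ 1 * τ 2) =
      -(a.det * (n * ((φ 0 r - φ 1 r) * (φ 0 r - φ 2 r) * (φ 1 r - φ 2 r)))) := by
    have t0 := hτ' 0
    have t1 := hτ' 1
    have t2 := hτ' 2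
    simp only [E, Matrix.det_fin_three, Matrix.of_apply, map_add, map_mul, map_pow, map_intCast]
    push_cast
    field_simp
    ring
  have hE0 : E.det ≠ 0 := fun h0 => by
    rw [h0, zero_mul, eq_comm, neg_eq_zero] at hE
    exact mul_ne_zero (by exact_mod_cast hdet0)
      (mul_ne_zero hn' (mul_ne_zero (mul_ne_zero d01 d02) d12)) hE
  obtain ⟨x, hx0, hx⟩ := hsh E σ (fun k j => by
    have : τ (σ j) = τ j := by simp only [τ, u, ht.conj, Complex.norm_conj]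
    simp only [E, Matrix.of_apply, ht.conj, this, map_div₀, Complex.conj_ofReal]) hE0
  have hmem : Matrix.vecMul x a ∈ I.toAddSubgroup.comap f := by
    rw [Matrix.vecMul_eq_sum]
    exact AddSubgroup.sum_mem _ fun k _ => AddSubgroup.zsmul_mem _ (ha k) _
  set y := Matrix.vecMul x a with hy
  have hy0 : y ≠ 0 := fun h0 => hx0 (Matrix.eq_zero_of_vecMul_eq_zero hdet0 h0)
  have hfy : f y ∈ I := hmem
  have hsq : f y ^ 2 ∈ Ideal.span {δ} := hI ▸ Ideal.pow_mem_pow hfy 2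
  obtain ⟨κ, hκ⟩ := Ideal.mem_span_singleton.1 hsq
  refine ⟨y 0, y 1, y 2, κ, fun h0 => hy0 ?_, ?_, fun j => ?_⟩
  · obtain ⟨b0, b1, b2⟩ := indep hg (y 0) (y 1) (y 2 * n) (by push_cast; linear_combination h0)
    have b2' : y 2 = 0 := by
      have : y 2 * n = 0 := by exact_mod_cast b2
      exact (mul_eq_zero.1 this).resolve_right hn
    ext i
    fin_cases i
    · exact_mod_cast b0
    · exact_mod_cast b1
    · exact b2'
  · have h1 := congrArg (fun t : 𝓞 A => (t : A)) hκ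
    simp only [f, AddMonoidHom.coe_mk, ZeroHom.coe_mk] at h1
    push_cast at h1
    change ((n : A) * (y 0 : A) + (y 1 : A) * (θ : A) + (y 2 : A) * (θ : A) ^ 2) ^ 2 =
      (δ : A) * (κ : A) at h1
    rw [hθ] at h1
    linear_combination h1
  · have h1 : ∑ k, (x k : ℂ) * E k j = φ j ((y 0 : A) + y 1 * r + y 2 * (n * r ^ 2)) / τ j := by
      simp only [E, hy, Matrix.of_apply, Matrix.vecMul, dotProduct, Fin.sum_univ_three, map_add,
        map_mul, map_pow, map_intCast, Int.cast_add, Int.cast_mul]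
      ring
    have h2 := hx j
    rw [h1, norm_div, div_pow, Complex.norm_real, Real.norm_of_nonneg (hτ j).le,
      div_le_iff₀ (pow_pos (hτ j) 6), show τ j ^ 6 = u j ^ 3 by rw [← hτ2]; ring] at h2
    have h3 := congrArg (fun t : ℂ => ‖t‖ ^ 2) hE
    simp only [norm_mul, norm_neg, mul_pow, Complex.norm_real, Real.norm_eq_abs, sq_abs, hτ2,
      Complex.norm_intCast] at h3
    have h4 : ‖φ 0 δ‖ * ‖φ 1 δ‖ * ‖φ 2 δ‖ = (Ideal.absNorm I : ℝ) ^ 2 := by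
      have a1 := congrArg norm (ht.norm (δ : A))
      rw [norm_mul, norm_mul, Complex.norm_ratCast] at a1
      have a2 := congrArg Ideal.absNorm hI
      rw [map_pow, Ideal.absNorm_span_singleton] at a2
      rw [← a1, ← Algebra.coe_norm_int, ← Nat.cast_pow, a2, Nat.cast_natAbs]
      push_cast
      rfl
    have h5 : ((a.det : ℤ) : ℝ) ^ 2 ≤ (Ideal.absNorm I : ℝ) ^ 2 := by
      rw [← sq_abs, ← Int.cast_abs, ← Nat.cast_natAbs, hdet]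
      gcongr
    have h6 : u 0 * u 1 * u 2 = (Ideal.absNorm I : ℝ) ^ 2 *
        ((n : ℝ) ^ 2 * (‖φ 0 r - φ 1 r‖ ^ 2 * ‖φ 0 r - φ 2 r‖ ^ 2 * ‖φ 1 r - φ 2 r‖ ^ 2)) *
        (|(n : ℝ)| * ((1 + ‖φ 0 r‖) * (1 + ‖φ 1 r‖) * (1 + ‖φ 2 r‖))) := by
      simp only [u, D0, D1, D2, norm_mul, norm_neg, Complex.norm_intCast]
      rw [← h4, ← sq_abs (n : ℝ)]
      ring
    have hW : 0 < (Ideal.absNorm I : ℝ) ^ 2 *
        ((n : ℝ) ^ 2 * (‖φ 0 r - φ 1 r‖ ^ 2 * ‖φ 0 r - φ 2 r‖ ^ 2 * ‖φ 1 r - φ 2 r‖ ^ 2)) := by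
      have a1 := norm_pos_iff.2 d01
      have a2 := norm_pos_iff.2 d02
      have a3 := norm_pos_iff.2 d12
      have a4 : (n : ℝ) ≠ 0 := by exact_mod_cast hn
      have a5 : (Ideal.absNorm I : ℝ) ≠ 0 := by exact_mod_cast hN0
      positivity
    have h7 : ‖E.det‖ ^ 2 *
        (|(n : ℝ)| * ((1 + ‖φ 0 r‖) * (1 + ‖φ 1 r‖) * (1 + ‖φ 2 r‖))) ≤ 1 := by
      refine le_of_mul_le_mul_right ?_ hW
      rw [h6] at h3
      rw [one_mul]
      calc _ = _ := by ring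
        _ = _ := h3
        _ ≤ _ := by gcongr
    have h8 : 0 ≤ |(n : ℝ)| * ((1 + ‖φ 0 r‖) * (1 + ‖φ 1 r‖) * (1 + ‖φ 2 r‖)) := by positivity
    have h9 : 0 ≤ C * u j ^ 3 := by have := hu j; positivity
    calc _ ≤ C * ‖E.det‖ ^ 2 * u j ^ 3 *
          (|(n : ℝ)| * ((1 + ‖φ 0 r‖) * (1 + ‖φ 1 r‖) * (1 + ‖φ 2 r‖))) := by gcongr
      _ = C * u j ^ 3 * (‖E.det‖ ^ 2 *
          (|(n : ℝ)| * ((1 + ‖φ 0 r‖) * (1 + ‖φ 1 r‖) * (1 + ‖φ 2 r‖)))) := by ring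
      _ ≤ C * u j ^ 3 * 1 := by gcongr
      _ = _ := mul_one _

end SmallAux

open SmallAux in
theorem small_q : ∃ C₀ : ℝ, 0 < C₀ ∧ ∀ (A : Type) [Field A] [NumberField A] (s n : ℤ) (r : A),
    Gen A s n r → DD s n ≠ 0 → ∀ X : ℝ, 1 ≤ X → |(s : ℝ)| ≤ X → |(n : ℝ)| ≤ X → ∀ T : ℤ,
      C₀ * X ^ 2 ≤ (T : ℝ) ^ 3 → ∀ δ : 𝓞 A, H32.SelP δ →
        ((4 * n ^ 4 * DD s n : ℤ) : 𝓞 A) ∣ δ - 1 →
          ∃ q ∈ H32.box T, qv q r ≠ 0 ∧ IsSquare ((δ : A) * qv q r) ∧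
            ∃ w : ℤ, w ≠ 0 ∧ QN q s n = w ^ 2 := by
  obtain ⟨C, hC, hgam⟩ := exists_gam
  refine ⟨27 * C * 18 ^ 2, by positivity,
    fun A _ _ s n r hg hD X hX hs hnX T hT δ hδ hdv => ?_⟩
  have hn : n ≠ 0 := fun h0 => hD (by simp [DD, h0])
  obtain ⟨φ, σ, ht⟩ := exists_tri hg hn
  obtain ⟨hδ0, ⟨ρ₀, hρ₀⟩, -, I, hI⟩ := hδ
  obtain ⟨x, y, z, κ, hγ0, hκ, hbd⟩ := hgam A s n r φ σ hg hn ht δ I hδ0 hI
  obtain ⟨y₀, hy₀⟩ := hdv
  obtain ⟨a', b', c', hint⟩ := disc_mul hg hn (y₀ * κ)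
  have hδ' : (δ : A) ≠ 0 := by exact_mod_cast hδ0
  have hnA : (n : A) ≠ 0 := by exact_mod_cast hn
  set γ : A := (x : A) + y * r + z * (n * r ^ 2) with hγ
  let q : ℤ × ℤ × ℤ := (x ^ 2 - 4 * n * y * z - a', 2 * x * y + 2 * s * y * z - 2 * n ^ 2 * z ^ 2 - b' * n,
    y ^ 2 + 2 * n * x * z + s * n * z ^ 2 - c' * n ^ 2)
  have hy₁ : (δ : A) - 1 = ((4 * n ^ 4 * DD s n : ℤ) : A) * (y₀ : A) := by
    have := congrArg (algebraMap (𝓞 A) A) hy₀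
    rwa [map_sub, map_one, map_mul, map_intCast] at this
  have hint' : ((4 * n ^ 2 * DD s n : ℤ) : A) * ((y₀ : A) * (κ : A)) =
      a' + b' * (n * r) + c' * (n * r) ^ 2 := hint
  have hq1 : qv q r = γ ^ 2 - (a' + b' * (n * r) + c' * (n * r) ^ 2) := by
    simp only [qv, q, hγ]
    push_cast
    linear_combination -(2 * (y : A) * z + n * z ^ 2 * r) * hg.root
  have hq : (δ : A) * qv q r = γ ^ 2 := by
    apply mul_left_cancel₀ (pow_ne_zero 2 hnA)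
    rw [hq1, ← hint']
    push_cast at hy₁ ⊢
    linear_combination ((δ : A) - 1) * hκ + (δ : A) * (κ : A) * hy₁
  have hq0 : qv q r ≠ 0 := fun h0 => by
    rw [h0, mul_zero] at hq
    exact pow_ne_zero 2 hγ0 hq.symm
  refine ⟨q, ?_, hq0, ⟨γ, by rw [hq, sq]⟩, ?_⟩
  · have hn' : (n : ℂ) ≠ 0 := by exact_mod_cast hn
    have d01 : φ 0 r - φ 1 r ≠ 0 := sub_ne_zero.2 fun h' => absurd (ht.inj h') (by decide)
    have d02 : φ 0 r - φ 2 r ≠ 0 := sub_ne_zero.2 fun h' => absurd (ht.inj h') (by decide)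
    have d12 : φ 1 r - φ 2 r ≠ 0 := sub_ne_zero.2 fun h' => absurd (ht.inj h') (by decide)
    have D0 : φ 0 (3 * n * r ^ 2 - s) = n * (φ 0 r - φ 1 r) * (φ 0 r - φ 2 r) := by
      simp only [map_sub, map_mul, map_pow, map_intCast, map_ofNat]
      linear_combination -ht.e2 + 2 * n * φ 0 r * ht.e1
    have D1 : φ 1 (3 * n * r ^ 2 - s) = -(n * (φ 0 r - φ 1 r) * (φ 1 r - φ 2 r)) := by
      simp only [map_sub, map_mul, map_pow, map_intCast, map_ofNat]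
      linear_combination -ht.e2 + 2 * n * φ 1 r * ht.e1
    have D2 : φ 2 (3 * n * r ^ 2 - s) = n * (φ 0 r - φ 2 r) * (φ 1 r - φ 2 r) := by
      simp only [map_sub, map_mul, map_pow, map_intCast, map_ofNat]
      linear_combination -ht.e2 + 2 * n * φ 2 r * ht.e1
    have hP := ht.pi_le hg hs hnX
    set P : ℝ := |(n : ℝ)| * ((1 + ‖φ 0 r‖) * (1 + ‖φ 1 r‖) * (1 + ‖φ 2 r‖)) with hPdef
    have hP0 : 0 < P := by
      have : 0 < |(n : ℝ)| := abs_pos.2 (by exact_mod_cast hn)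
      positivity
    obtain ⟨ρ, hρ0, hρ⟩ : ∃ ρ : ℝ, 0 ≤ ρ ∧ ρ ^ 3 = C / P :=
      ⟨(C / P) ^ ((3 : ℕ) : ℝ)⁻¹, by positivity,
        Real.rpow_inv_natCast_pow (by positivity) (by norm_num)⟩
    have hqj : ∀ j, ‖(q.1 : ℂ) + q.2.1 * φ j r + q.2.2 * φ j r ^ 2‖ ≤
        ρ * (‖φ j (3 * n * r ^ 2 - s)‖ * (1 + ‖φ j r‖)) := fun j => by
      have a1 := congrArg (fun t => ‖φ j t‖ ^ 3) hq
      simp only [qv, map_add, map_mul, map_pow, map_intCast, norm_mul, norm_pow] at a1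
      have a2 := hbd j
      have a3 : 0 < ‖φ j δ‖ := norm_pos_iff.2 ((map_ne_zero _).2 hδ')
      refine (pow_le_pow_iff_left₀ (norm_nonneg _) (by positivity)
        (by norm_num : (3 : ℕ) ≠ 0)).1 ?_
      rw [mul_pow, hρ, div_mul_eq_mul_div, le_div_iff₀ hP0]
      refine le_of_mul_le_mul_left ?_ (pow_pos a3 3)
      rw [show ‖φ j γ‖ ^ 6 = (‖φ j γ‖ ^ 2) ^ 3 by ring, ← a1] at a2
      calc _ = _ := by ring
        _ ≤ _ := a2
        _ = _ := by ring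
    have hc := coef_le hn' d01 d02 d12 hρ0 (D0 ▸ hqj 0) (D1 ▸ hqj 1) (D2 ▸ hqj 2)
    rw [← hPdef] at hc
    have hT0 : (0 : ℝ) ≤ T := by
      by_contra h0
      have : (T : ℝ) ^ 3 < 0 := Odd.pow_neg (by decide) (not_le.1 h0)
      have : 0 < 27 * C * 18 ^ 2 * X ^ 2 := by positivity
      linarith
    have hB : 3 * (ρ * P) ≤ T := by
      refine (pow_le_pow_iff_left₀ (by positivity) hT0 (by norm_num : (3 : ℕ) ≠ 0)).1 ?_
      calc (3 * (ρ * P)) ^ 3 = 27 * C * P ^ 2 := by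
            rw [mul_pow, mul_pow, hρ]; field_simp; norm_num
        _ ≤ 27 * C * (18 * X) ^ 2 := by gcongr
        _ ≤ _ := by rw [mul_pow, ← mul_assoc]; exact hT
    have b1 : |q.1| ≤ T := by exact_mod_cast hc.1.trans hB
    have b2 : |q.2.1| ≤ T := by exact_mod_cast hc.2.1.trans hB
    have b3 : |q.2.2| ≤ T := by exact_mod_cast hc.2.2.trans hB
    simp only [H32.box, Finset.mem_product, Finset.mem_Icc]
    exact ⟨abs_le.1 b1, abs_le.1 b2, abs_le.1 b3⟩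
  · have h1 := ht.norm_qv q
    have h2 := congrArg (Algebra.norm ℚ) hq
    rw [map_mul, map_pow, hρ₀] at h2
    have h3 : ρ₀ ≠ 0 := fun h0 => by
      rw [h0, mul_zero] at hρ₀
      exact (Algebra.norm_ne_zero_iff.2 hδ') hρ₀
    have h4 : IsSquare ((QN q s n : ℤ) : ℚ) :=
      ⟨n * Algebra.norm ℚ γ / ρ₀, by rw [h1]; field_simp; linear_combination h2⟩
    obtain ⟨w, hw⟩ := Rat.isSquare_intCast_iff.1 h4
    refine ⟨w, fun h0 => ?_, by rw [hw, sq]⟩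
    rw [hw, h0] at h1
    have h5 : (n : ℚ) ≠ 0 := by exact_mod_cast hn
    exact mul_ne_zero (pow_ne_zero 2 h5) (Algebra.norm_ne_zero_iff.2 hq0) (by simpa using h1.symm)

end Pool.Agent.Lib.MP_af4c59_nt.K9
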