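import Pool.Agent.Lib.MP_af4c59_nt.K9Mod
import Pool.Agent.Lib.MP_af4c59_nt.K9Small
import Pool.Agent.Lib.MP_af4c59_nt.K9DegA

/-!
The bound for the Selmer classes (part D2).
-/

set_option autoImplicit false

namespace Pool.Agent.Lib.MP_af4c59_nt.K9

open NumberField Module IsDedekindDomain

namespace DegAux

theorem sq_trans {A : Type} [Field A] {a b t : A} (ht : t ≠ 0) (h1 : IsSquare (a * t))
    (h2 : IsSquare (b * t)) : IsSquare (a * b) := by
  obtain ⟨x, hx⟩ := h1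
  obtain ⟨y, hy⟩ := h2
  refine ⟨x * y / t, ?_⟩
  field_simp
  linear_combination (b * t) * hx + (x * x) * hy

theorem card_le {A : Type} [Field A] [NumberField A] (T : Finset (𝓞 A)) (hI : H32.Ineq T)
    (R : Finset A) (h : ∀ δ ∈ T, ∃ t ∈ R, t ≠ 0 ∧ IsSquare ((δ : A) * t)) : T.card ≤ R.card := by
  classical
  choose! f hf h0 hs using h
  refine Finset.card_le_card_of_injOn f (fun δ hδ => hf δ hδ) fun δ hδ δ' hδ' e => ?_
  by_contra hne
  exact hI δ hδ δ' hδ' hne (sq_trans (h0 δ hδ) (hs δ hδ) (e ▸ hs δ' hδ'))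

theorem om_eq {s n : ℤ} (hD : DD s n ≠ 0) : om (4 * n ^ 4 * DD s n) = om (2 * DD s n) := by
  have hn : n ≠ 0 := fun h0 => hD (by simp [DD, h0])
  have h1 : (4 * n ^ 4 * DD s n).natAbs ≠ 0 :=
    Int.natAbs_ne_zero.2 (mul_ne_zero (mul_ne_zero (by norm_num) (pow_ne_zero 4 hn)) hD)
  have h2 : (2 * DD s n).natAbs ≠ 0 := Int.natAbs_ne_zero.2 (mul_ne_zero (by norm_num) hD)
  unfold om
  congr 1
  ext p
  simp only [Nat.mem_primeFactors, h1, h2, ne_eq, not_false_eq_true, and_true]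
  refine and_congr_right fun hp => ?_
  rw [← Int.natCast_dvd, ← Int.natCast_dvd]
  have hp' := Nat.prime_iff_prime_int.1 hp
  constructor
  · intro h
    refine hp'.dvd_of_dvd_pow (n := 5) (h.trans ⟨8 * (s ^ 3 - 27 * n ^ 3) ^ 4, ?_⟩)
    simp only [DD]
    ring
  · intro h
    exact h.trans ⟨2 * n ^ 4, by ring⟩

end DegAux

theorem sel_small : ∃ C₀ : ℝ, 0 < C₀ ∧ ∀ (A : Type) [Field A] [NumberField A] (s n : ℤ) (r : A),
    Gen A s n r → IsCoprime s n → DD s n ≠ 0 → ∀ X : ℝ, 1 ≤ X → |(s : ℝ)| ≤ X → |(n : ℝ)| ≤ X →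
      ∀ T : ℤ, C₀ * X ^ 2 ≤ (T : ℝ) ^ 3 →
        SelLe A (8 * 8 ^ om (2 * DD s n) * (4 + (Non T s n).card + (Deg T s n).card)) := by
  classical
  obtain ⟨C₀, hC₀, hsm⟩ := small_q
  refine ⟨C₀, hC₀, fun A _ _ s n r hg hc hD X hX hs hn T hT => ?_⟩
  have hn0 : n ≠ 0 := fun h0 => hD (by simp [DD, h0])
  rw [← DegAux.om_eq hD]
  refine sel_mod hg.rank.le _
    (mul_ne_zero (mul_ne_zero (by norm_num) (pow_ne_zero 4 hn0)) hD) _ fun S hS hI => ?_
  let E : Finset (ℤ × ℤ) := {(1, 0), (1, 1), (-2, 1)}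
  let R : Finset A := insert 1 ((E.image fun x => -2 * q0 x.1 x.2 r) ∪
    (((Non T s n).image fun q => qv q r) ∪ (Deg T s n).image fun x => -2 * q0 x.1 x.2 r))
  refine (DegAux.card_le S hI R fun δ hδ => ?_).trans ?_
  · obtain ⟨q, hq, h0, hsq, hw⟩ := hsm A s n r hg hD X hX hs hn T hT δ (hS δ hδ).1 (hS δ hδ).2
    by_cases hdj : dd q * jj q = 0
    · rcases deg_q hg hc hD (hS δ hδ).1 hq h0 hsq hw hdj with h | ⟨x, hx0, hx, h⟩
      · exact ⟨1, Finset.mem_insert_self _ _, one_ne_zero, by rwa [mul_one]⟩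
      · refine ⟨_, Finset.mem_insert_of_mem ?_,
          mul_ne_zero (neg_ne_zero.2 two_ne_zero) (q0_ne hg hx0), h⟩
        rcases hx with hx | hx
        · exact Finset.mem_union_left _ (Finset.mem_image_of_mem _ hx)
        · exact Finset.mem_union_right _ (Finset.mem_union_right _ (Finset.mem_image_of_mem _ hx))
    · refine ⟨_, Finset.mem_insert_of_mem (Finset.mem_union_right _ (Finset.mem_union_left _
        (Finset.mem_image_of_mem _ ?_))), h0, hsq⟩
      simp only [Non, Finset.mem_filter]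
      exact ⟨hq, hdj, hw⟩
  · refine (Finset.card_insert_le _ _).trans ?_
    have h1 := Finset.card_union_le (E.image fun x => -2 * q0 x.1 x.2 r)
      (((Non T s n).image fun q => qv q r) ∪ (Deg T s n).image fun x => -2 * q0 x.1 x.2 r)
    have h2 := Finset.card_union_le ((Non T s n).image fun q => qv q r)
      ((Deg T s n).image fun x => -2 * q0 x.1 x.2 r)
    have h3 : (E.image fun x => -2 * q0 x.1 x.2 r).card ≤ 3 :=
      Finset.card_image_le.trans Finset.card_le_three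
    have h4 : ((Non T s n).image fun q => qv q r).card ≤ (Non T s n).card := Finset.card_image_le
    have h5 : ((Deg T s n).image fun x => -2 * q0 x.1 x.2 r).card ≤ (Deg T s n).card :=
      Finset.card_image_le
    omega

end Pool.Agent.Lib.MP_af4c59_nt.K9
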