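import Pool.Agent.Lib.MP_af4c59_nt.K9Defs
import Pool.Agent.Lib.MP_af4c59_nt.H32SumA

/-!
The sum over the degenerate classes (part D2 v).
-/

set_option autoImplicit false

namespace Pool.Agent.Lib.MP_af4c59_nt.K9

open NumberField Module IsDedekindDomain

namespace DegSumAux

open Finset
open scoped Classical

theorem line {b : ℤ} (hb : b ≠ 0) {X : ℝ} (N : Finset ℤ) (hN : ∀ n ∈ N, |(n : ℝ)| ≤ X)
    (hd : ∀ n ∈ N, ∀ m ∈ N, b ∣ 2 * (n - m)) : N.card ≤ ⌊4 * X / |(b : ℝ)|⌋₊ + 1 := by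
  rcases N.eq_empty_or_nonempty with h | h
  · simp [h]
  have hb' : (0 : ℝ) < |(b : ℝ)| := abs_pos.2 (by exact_mod_cast hb)
  set m := N.min' h with hm
  have hmN : m ∈ N := N.min'_mem h
  have key : ∀ n ∈ N, |b| * ((2 * (n - m) / b).natAbs : ℤ) = 2 * (n - m) := fun n hn => by
    have h1 : m ≤ n := N.min'_le n hn
    rw [Int.natCast_natAbs, ← abs_mul, Int.mul_ediv_cancel' (hd n hn m hmN),
      abs_of_nonneg (by omega)]
  rw [← card_range (⌊4 * X / |(b : ℝ)|⌋₊ + 1)]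
  refine card_le_card_of_injOn (fun n => (2 * (n - m) / b).natAbs) (fun n hn => ?_)
    fun n hn n' hn' e => ?_
  · refine mem_coe.2 (mem_range.2 (Nat.lt_succ_of_le (Nat.le_floor ?_)))
    rw [le_div_iff₀ hb']
    have h1 : |(b : ℝ)| * ((2 * (n - m) / b).natAbs : ℝ) = 2 * ((n : ℝ) - m) := by
      have h0 := congrArg (Int.cast : ℤ → ℝ) (key n hn)
      rw [Int.cast_mul, Int.cast_natCast, Int.cast_abs] at h0
      rw [h0]
      push_cast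
      rfl
    have h2 := abs_le.1 (hN n hn)
    have h3 := abs_le.1 (hN m hmN)
    linarith [h2.2, h3.1]
  · have h1 := key n hn
    have h2 := key n' hn'
    simp only at e
    rw [e] at h1
    omega

theorem dvd_two {u v d t : ℤ} (h : IsCoprime u v) (e : d * (u ^ 3 + 2 * v ^ 3) = t * (u * v ^ 2)) :
    u * v ^ 2 ∣ 2 * d := by
  have h1 : u ∣ 2 * d := by
    refine (h.pow_right (n := 3)).dvd_of_dvd_mul_right ⟨t * v ^ 2 - d * u ^ 2, ?_⟩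
    linear_combination e
  have h2 : v ^ 2 ∣ d := by
    refine (h.symm.pow (m := 2) (n := 3)).dvd_of_dvd_mul_right ⟨t * u - 2 * d * v, ?_⟩
    linear_combination e
  exact (h.pow_right (n := 2)).mul_dvd h1 (h2.mul_left 2)

theorem fibre {u v : ℤ} (h : IsCoprime u v) (hb : u * v ^ 2 ≠ 0) {X : ℝ} (S : Finset (ℤ × ℤ))
    (hS : ∀ x ∈ S, |(x.2 : ℝ)| ≤ X) (l : ℤ) :
    (S.filter fun x => ell u v x.1 x.2 = l).card ≤ ⌊4 * X / |((u * v ^ 2 : ℤ) : ℝ)|⌋₊ + 1 := by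
  set F := S.filter fun x => ell u v x.1 x.2 = l with hF
  have hinj : Set.InjOn Prod.snd (F : Set (ℤ × ℤ)) := fun x hx y hy e => by
    have h1 := (mem_filter.1 (mem_coe.1 hx)).2
    have h2 := (mem_filter.1 (mem_coe.1 hy)).2
    simp only [ell] at h1 h2
    rw [e] at h1
    exact Prod.ext (mul_right_cancel₀ hb (by linarith)) e
  rw [← card_image_of_injOn hinj]
  refine line hb _ (fun n hn => ?_) fun n hn m hm => ?_
  · obtain ⟨x, hx, rfl⟩ := mem_image.1 hn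
    exact hS x (mem_filter.1 hx).1
  · obtain ⟨x, hx, rfl⟩ := mem_image.1 hn
    obtain ⟨y, hy, rfl⟩ := mem_image.1 hm
    have h1 := (mem_filter.1 hx).2
    have h2 := (mem_filter.1 hy).2
    simp only [ell] at h1 h2
    exact dvd_two (t := x.1 - y.1) h (by linear_combination h1 - h2)

theorem values {u v B : ℤ} (h : IsCoprime u v) (hb : u * v ^ 2 ≠ 0) (hB : B ≠ 0) {X W : ℝ}
    (hW : 0 ≤ W) (S : Finset (ℤ × ℤ)) (hS : ∀ x ∈ S, |(x.2 : ℝ)| ≤ X)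
    (hl : ∀ x ∈ S, |(ell u v x.1 x.2 : ℝ)| ≤ W ^ 2)
    (he : ∀ x ∈ S, ∃ e w : ℤ, e ∣ B ∧ ell u v x.1 x.2 = e * w ^ 2) :
    S.card ≤ (⌊4 * X / |((u * v ^ 2 : ℤ) : ℝ)|⌋₊ + 1) *
      (B.natAbs.divisors.card * (2 * (⌊W⌋₊ + 1))) := by
  set t := (B.natAbs.divisors ×ˢ ({1, -1} : Finset ℤ) ×ˢ range (⌊W⌋₊ + 1)).image
    fun p : ℕ × ℤ × ℕ => p.2.1 * (p.1 : ℤ) * (p.2.2 : ℤ) ^ 2 with ht
  have h1 : t.card ≤ B.natAbs.divisors.card * (2 * (⌊W⌋₊ + 1)) := by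
    refine card_image_le.trans (le_of_eq ?_)
    rw [card_product, card_product, card_range, card_pair (by norm_num)]
  refine le_trans (card_le_mul_card_image_of_maps_to (f := fun x => ell u v x.1 x.2) (t := t)
    (fun x hx => ?_) _ fun l _ => fibre h hb S hS l) (Nat.mul_le_mul_left _ h1)
  obtain ⟨e, w, h2, h3⟩ := he x hx
  have he0 : e ≠ 0 := fun h0 => hB (zero_dvd_iff.1 (h0 ▸ h2))
  have h4 : (w.natAbs : ℝ) ≤ W := by
    have h5 := hl x hx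
    rw [h3] at h5
    push_cast at h5
    rw [abs_mul, abs_pow] at h5
    have h6 : (1 : ℝ) ≤ |(e : ℝ)| := by exact_mod_cast Int.one_le_abs he0
    rw [Nat.cast_natAbs, Int.cast_abs]
    refine le_of_pow_le_pow_left₀ (n := 2) (by norm_num) hW ?_
    nlinarith [sq_nonneg |(w : ℝ)|]
  refine mem_image.2 ⟨(e.natAbs, e.sign, w.natAbs), mem_product.2 ⟨Nat.mem_divisors.2
    ⟨Int.natAbs_dvd_natAbs.2 h2, Int.natAbs_ne_zero.2 hB⟩, mem_product.2 ⟨?_,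
      mem_range.2 (Nat.lt_succ_of_le (Nat.le_floor h4))⟩⟩, ?_⟩
  · rcases lt_or_gt_of_ne he0 with h5 | h5
    · simp [Int.sign_eq_neg_one_of_neg h5]
    · simp [Int.sign_eq_one_of_pos h5]
  · simp only [h3, Int.sign_mul_natAbs, Int.natAbs_sq]

theorem sizes {c X T p q : ℝ} (hc : 1 ≤ c) (hX : 1 ≤ X) (hT : T ^ 3 ≤ c * X ^ 2) (hp : 0 ≤ p)
    (hq : 0 ≤ q) (h1 : p ^ 2 ≤ 2 * T) (h2 : q ^ 2 ≤ 2 * T) :
    p ^ 3 ≤ 3 * c * X ∧ q ^ 3 ≤ 3 * c * X ∧ p * q ^ 2 ≤ 3 * c * X := by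
  have key : ∀ r : ℝ, 0 ≤ r → r ^ 2 ≤ 2 * T → r ^ 3 ≤ 3 * c * X := fun r hr h => by
    refine le_of_pow_le_pow_left₀ (n := 2) (by norm_num) (by positivity) ?_
    have h3 : (r ^ 2) ^ 3 ≤ (2 * T) ^ 3 := pow_le_pow_left₀ (sq_nonneg r) h 3
    have h4 : c * X ^ 2 ≤ c * c * X ^ 2 := by
      have : c ≤ c * c := le_mul_of_one_le_left (by linarith) hc
      gcongr
    have h5 : 0 ≤ c * c * X ^ 2 := by positivity
    nlinarith
  refine ⟨key p hp h1, key q hq h2, ?_⟩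
  rcases le_total p q with h | h
  · exact le_trans (by nlinarith [mul_le_mul_of_nonneg_right h (sq_nonneg q)]) (key q hq h2)
  · have : q ^ 2 ≤ p ^ 2 := pow_le_pow_left₀ hq h 2
    exact le_trans (by nlinarith [mul_le_mul_of_nonneg_left this hp]) (key p hp h1)

theorem pair {c X C η : ℝ} (hc : 1 ≤ c) (hX : 1 ≤ X) (hC : 1 ≤ C) (hη : 0 < η)
    (hdiv : ∀ n : ℕ, (n.divisors.card : ℝ) ≤ C * (n : ℝ) ^ η) {T u v : ℤ}
    (hT : (T : ℝ) ^ 3 ≤ c * X ^ 2) (h1 : u ^ 2 ≤ 2 * T) (h2 : v ^ 2 ≤ 2 * T) (h : IsCoprime u v)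
    (hB : B1 u v ≠ 0) (S : Finset (ℤ × ℤ)) (hS : ∀ x ∈ S, |(x.1 : ℝ)| ≤ X ∧ |(x.2 : ℝ)| ≤ X)
    (he : ∀ x ∈ S, ∃ e w : ℤ, e ∣ B1 u v ∧ ell u v x.1 x.2 = e * w ^ 2) :
    (S.card : ℝ) ≤ 70 * c ^ 2 * X ^ 2 * (C * (3000 * c ^ 3 * X ^ 3) ^ η) *
      (1 / |(u : ℝ)| * (1 / |(v : ℝ)|)) := by
  have hu : u ≠ 0 := by rintro rfl; simp [B1] at hB
  have hv : v ≠ 0 := by rintro rfl; simp [B1] at hB
  set p := |(u : ℝ)| with hp
  set q := |(v : ℝ)| with hq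
  have hp1 : 1 ≤ p := by rw [hp]; exact_mod_cast Int.one_le_abs hu
  have hq1 : 1 ≤ q := by rw [hq]; exact_mod_cast Int.one_le_abs hv
  obtain ⟨k1, k2, k3⟩ := sizes hc hX hT (abs_nonneg (u : ℝ)) (abs_nonneg (v : ℝ))
    (by rw [sq_abs]; exact_mod_cast h1) (by rw [sq_abs]; exact_mod_cast h2)
  rw [← hp] at k1 k3
  rw [← hq] at k2 k3
  have hcX : 1 ≤ c * X := one_le_mul_of_one_le_of_one_le hc hX
  have hb : |((u * v ^ 2 : ℤ) : ℝ)| = p * q ^ 2 := by push_cast; rw [abs_mul, abs_pow]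
  have ha : ∀ k : ℝ, |(u : ℝ) ^ 3 + k * (v : ℝ) ^ 3| ≤ (1 + |k|) * (3 * c * X) := fun k => by
    refine (abs_add_le _ _).trans ?_
    rw [abs_mul, abs_pow, abs_pow, ← hp, ← hq]
    nlinarith [mul_le_mul_of_nonneg_left k2 (abs_nonneg k)]
  have hl : ∀ x ∈ S, |(ell u v x.1 x.2 : ℝ)| ≤ (4 * c * X) ^ 2 := fun x hx => by
    have h3 := ha 2
    rw [abs_two] at h3
    have h4 : |(x.2 : ℝ) * ((u : ℝ) ^ 3 + 2 * (v : ℝ) ^ 3)| ≤ X * ((1 + 2) * (3 * c * X)) := by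
      rw [abs_mul]
      exact mul_le_mul (hS x hx).2 h3 (abs_nonneg _) (by linarith)
    have h5 : |(x.1 : ℝ) * ((u : ℝ) * (v : ℝ) ^ 2)| ≤ X * (3 * c * X) := by
      rw [abs_mul, abs_mul, abs_pow]
      exact mul_le_mul (hS x hx).1 k3 (by positivity) (by linarith)
    have h6 : c * X ^ 2 ≤ c * c * X ^ 2 := by
      have : c ≤ c * c := le_mul_of_one_le_left (by linarith) hc
      gcongr
    have h7 : 0 ≤ c * c * X ^ 2 := by positivity
    simp only [ell]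
    push_cast
    refine (abs_sub _ _).trans ?_
    nlinarith
  have h3 := values h (mul_ne_zero hu (pow_ne_zero 2 hv)) hB (W := 4 * c * X) (by positivity) S
    (fun x hx => (hS x hx).2) hl he
  have h4 : (S.card : ℝ) ≤ ((⌊4 * X / (p * q ^ 2)⌋₊ : ℝ) + 1) *
      (((B1 u v).natAbs.divisors.card : ℝ) * (2 * ((⌊4 * c * X⌋₊ : ℝ) + 1))) := by
    rw [hb] at h3
    exact_mod_cast h3
  have hpq : 0 < p * q ^ 2 := by positivity
  have h5 : (⌊4 * X / (p * q ^ 2)⌋₊ : ℝ) + 1 ≤ 7 * c * X * (1 / p * (1 / q)) := by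
    have h6 : (⌊4 * X / (p * q ^ 2)⌋₊ : ℝ) ≤ 4 * X / (p * q ^ 2) := Nat.floor_le (by positivity)
    have h7 : 4 * X / (p * q ^ 2) + 1 ≤ 7 * c * X / (p * q ^ 2) := by
      rw [div_add_one hpq.ne']
      refine div_le_div_of_nonneg_right ?_ hpq.le
      nlinarith [mul_le_mul_of_nonneg_right hc (by linarith : (0 : ℝ) ≤ X)]
    have h8 : 7 * c * X / (p * q ^ 2) ≤ 7 * c * X / (p * q) := by
      refine div_le_div_of_nonneg_left (by positivity) (by positivity) ?_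
      gcongr
      exact le_self_pow₀ hq1 (by norm_num)
    have h9 : 7 * c * X / (p * q) = 7 * c * X * (1 / p * (1 / q)) := by field_simp
    linarith
  have h6 : 2 * ((⌊4 * c * X⌋₊ : ℝ) + 1) ≤ 10 * (c * X) := by
    have : (⌊4 * c * X⌋₊ : ℝ) ≤ 4 * c * X := Nat.floor_le (by positivity)
    linarith
  have h7 : ((B1 u v).natAbs.divisors.card : ℝ) ≤ C * (3000 * c ^ 3 * X ^ 3) ^ η := by
    refine (hdiv _).trans (mul_le_mul_of_nonneg_left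
      (Real.rpow_le_rpow (Nat.cast_nonneg _) ?_ hη.le) (by linarith))
    have h8 := ha (-1)
    have h9 := ha 8
    rw [abs_neg, abs_one, neg_one_mul, ← sub_eq_add_neg] at h8
    rw [abs_of_pos (by norm_num : (0 : ℝ) < 8)] at h9
    have h10 : p * q ≤ 3 * c * X := by
      refine le_trans ?_ k3
      gcongr
      exact le_self_pow₀ hq1 (by norm_num)
    rw [Nat.cast_natAbs, Int.cast_abs]
    simp only [B1]
    push_cast
    rw [abs_mul, abs_mul, abs_mul, abs_mul, ← hp, ← hq, abs_of_pos (by norm_num : (0 : ℝ) < 6),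
      mul_assoc 6 p q]
    calc _ ≤ 6 * (3 * c * X) * ((1 + 1) * (3 * c * X)) * ((1 + 8) * (3 * c * X)) := by gcongr
      _ = 2916 * (c ^ 3 * X ^ 3) := by ring
      _ ≤ 3000 * (c ^ 3 * X ^ 3) := by gcongr; norm_num
      _ = _ := by ring
  calc _ ≤ _ := h4
    _ ≤ 7 * c * X * (1 / p * (1 / q)) * (C * (3000 * c ^ 3 * X ^ 3) ^ η * (10 * (c * X))) := by
      gcongr
    _ = _ := by ring

end DegSumAux

open Finset in
open scoped Classical in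
theorem deg_sum (C₀ : ℝ) {ε : ℝ} (hε : 0 < ε) : ∃ C : ℝ, 0 < C ∧ ∀ X : ℝ, 1 ≤ X → ∀ T : ℤ, 1 ≤ T →
    (T : ℝ) ^ 3 ≤ C₀ * X ^ 2 → ∀ S : Finset (ℤ × ℤ), Prs X S →
      ∑ x ∈ S, ((Deg T x.1 x.2).card : ℝ) ≤ C * X ^ (2 + ε) := by
  obtain ⟨η, hη, rfl⟩ : ∃ η : ℝ, 0 < η ∧ ε = 5 * η := ⟨ε / 5, by positivity, by ring⟩
  obtain ⟨C, hC, hdiv⟩ := H32.divisor_bound hη
  obtain ⟨K, hK, hharm⟩ := H32.SumA.harm hη
  set c := max C₀ 1 with hcd
  have hc : 1 ≤ c := le_max_right _ _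
  refine ⟨70 * c ^ 2 * (C * (3000 * c ^ 3) ^ η) * (K * (2 * c) ^ η) ^ 2, by positivity,
    fun X hX T hT hTX S hS => ?_⟩
  have hX0 : 0 < X := by linarith
  have hT3 : (T : ℝ) ^ 3 ≤ c * X ^ 2 :=
    hTX.trans (mul_le_mul_of_nonneg_right (le_max_left _ _) (sq_nonneg X))
  have hT1 : (1 : ℝ) ≤ T := by exact_mod_cast hT
  have hTc : (T : ℝ) ≤ c * X := by
    refine le_of_pow_le_pow_left₀ (n := 3) (by norm_num) (by positivity) (hT3.trans ?_)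
    rw [mul_pow]
    exact mul_le_mul (le_self_pow₀ hc (by norm_num)) (pow_le_pow_right₀ hX (by norm_num))
      (by positivity) (by positivity)
  set I := Icc (-(2 * T)) (2 * T) with hI
  set D := 70 * c ^ 2 * X ^ 2 * (C * (3000 * c ^ 3 * X ^ 3) ^ η) with hD
  have hD0 : 0 ≤ D := by positivity
  have h1 : ∑ x ∈ S, ((Deg T x.1 x.2).card : ℝ) =
      ∑ y ∈ I ×ˢ I, ((S.filter fun x => y ∈ Deg T x.1 x.2).card : ℝ) := by
    have h2 : ∀ x ∈ S, (Deg T x.1 x.2).card = ((I ×ˢ I).filter fun y => y ∈ Deg T x.1 x.2).card :=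
      fun x _ => by
        have h0 : Deg T x.1 x.2 ⊆ I ×ˢ I := filter_subset _ _
        rw [filter_mem_eq_inter, inter_eq_right.2 h0]
    have h3 := sum_card_bipartiteAbove_eq_sum_card_bipartiteBelow (s := S) (t := I ×ˢ I)
      fun x y => y ∈ Deg T x.1 x.2
    have h4 := (sum_congr rfl h2).trans h3
    exact_mod_cast h4
  have h2 : ∀ y ∈ I ×ˢ I, ((S.filter fun x => y ∈ Deg T x.1 x.2).card : ℝ) ≤
      D * (1 / |(y.1 : ℝ)| * (1 / |(y.2 : ℝ)|)) := fun y _ => by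
    rcases (S.filter fun x => y ∈ Deg T x.1 x.2).eq_empty_or_nonempty with h | ⟨x₀, hx₀⟩
    · rw [h, card_empty, Nat.cast_zero]
      positivity
    obtain ⟨-, k1, k2, k3, k4, -⟩ := mem_filter.1 (mem_filter.1 hx₀).2
    refine DegSumAux.pair hc hX hC hη hdiv hT3 k1 k2 k3 k4 _
      (fun x hx => (hS x (mem_filter.1 hx).1).2.2) fun x hx => ?_
    obtain ⟨-, -, -, -, -, e, w, -, k5, -, k6⟩ := mem_filter.1 (mem_filter.1 hx).2
    exact ⟨e, w, k5, k6⟩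
  have h3 : ∑ n ∈ I, 1 / |(n : ℝ)| ≤ K * ((2 * c) ^ η * X ^ η) := by
    have h4 := hharm I 0 (2 * c * X) (by positivity) fun n hn => by
      have h5 : |n| ≤ 2 * T := abs_le.2 (mem_Icc.1 hn)
      have h6 : |(n : ℝ)| ≤ 2 * T := by exact_mod_cast h5
      rw [sub_zero]
      linarith
    rw [Real.mul_rpow (by positivity) hX0.le] at h4
    simpa only [sub_zero] using h4
  have h4 : 0 ≤ ∑ n ∈ I, 1 / |(n : ℝ)| := sum_nonneg fun n _ => by positivity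
  have h5 : X ^ (2 + 5 * η) = X ^ 2 * (X ^ 3) ^ η * (X ^ η) ^ 2 := by
    rw [← Real.rpow_natCast X 2, ← Real.rpow_natCast X 3, ← Real.rpow_natCast (X ^ η) 2,
      ← Real.rpow_mul hX0.le, ← Real.rpow_mul hX0.le, ← Real.rpow_add hX0, ← Real.rpow_add hX0]
    congr 1
    push_cast
    ring
  rw [h1]
  calc _ ≤ ∑ y ∈ I ×ˢ I, D * (1 / |(y.1 : ℝ)| * (1 / |(y.2 : ℝ)|)) := sum_le_sum h2
    _ = D * ((∑ n ∈ I, 1 / |(n : ℝ)|) * ∑ n ∈ I, 1 / |(n : ℝ)|) := by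
      rw [← mul_sum, sum_mul_sum, sum_product]
    _ ≤ D * ((K * ((2 * c) ^ η * X ^ η)) * (K * ((2 * c) ^ η * X ^ η))) := by gcongr
    _ = _ := by
      rw [h5, hD, Real.mul_rpow (by positivity) (by positivity)]
      ring

end Pool.Agent.Lib.MP_af4c59_nt.K9
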