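import Pool.Agent.Lib.MP_af4c59_nt.K9Defs
import Pool.Agent.Lib.MP_af4c59_nt.H32Ram

/-!
The discriminant of the field of degree nine (part A2).
-/

set_option autoImplicit false

namespace Pool.Agent.Lib.MP_af4c59_nt.K9

open NumberField Module IsDedekindDomain

namespace DiscAux

/-- The element `y` of the algebraic closure lies in the ideal `P`. -/
def In (P : Ideal (𝓞 Ω)) (y : Ω) : Prop := ∃ z ∈ P, (z : Ω) = y

lemma In.add {P : Ideal (𝓞 Ω)} {y y' : Ω} (h : In P y) (h' : In P y') : In P (y + y') := by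
  obtain ⟨z, hz, rfl⟩ := h
  obtain ⟨z', hz', rfl⟩ := h'
  exact ⟨z + z', P.add_mem hz hz', by simp⟩

lemma In.mul {P : Ideal (𝓞 Ω)} {c y : Ω} (hc : IsIntegral ℤ c) (h : In P y) : In P (c * y) := by
  obtain ⟨z, hz, rfl⟩ := h
  let c' : 𝓞 Ω := ⟨c, hc⟩
  exact ⟨c' * z, P.mul_mem_left _ hz, rfl⟩

lemma In.mem {P : Ideal (𝓞 Ω)} {z : 𝓞 Ω} (h : In P (z : Ω)) : z ∈ P := by
  obtain ⟨z', hz', e⟩ := h
  have : z' = z := RingOfIntegers.ext e
  exact this ▸ hz'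

/-- `P` lies over `p`. -/
def Ov (P : Ideal (𝓞 Ω)) (p : ℕ) : Prop := ∀ n : ℤ, (n : 𝓞 Ω) ∈ P ↔ (p : ℤ) ∣ n

/-- `g` acts trivially modulo `P` on the integers of `F`. -/
def Cong (F : IntermediateField ℚ Ω) (P : Ideal (𝓞 Ω)) (g : Ω ≃ₐ[ℚ] Ω) : Prop :=
  ∀ y ∈ F, IsIntegral ℤ y → In P (g y - y)

lemma ov_of {F : IntermediateField ℚ Ω} {p : ℕ} (Q : Ideal (𝓞 F)) (P : Ideal (𝓞 Ω))
    (h1 : Q.LiesOver (Ideal.span {(p : ℤ)})) (h2 : P.LiesOver Q) : Ov P p := by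
  intro n
  rw [← Ideal.mem_span_singleton, h1.over, Ideal.under_def, Ideal.mem_comap, h2.over,
    Ideal.under_def, Ideal.mem_comap]
  simp

lemma inertia_lift (F : IntermediateField ℚ Ω) [NumberField F] [IsGalois ℚ F] {p : ℕ}
    (hp : p.Prime) (h : (p : ℤ) ∣ discr F) :
    ∃ (P : Ideal (𝓞 Ω)) (g : Ω ≃ₐ[ℚ] Ω), P.IsPrime ∧ Ov P p ∧ (∃ y ∈ F, g y ≠ y) ∧
      Cong F P g := by
  obtain ⟨Q, g, hQ, hQl, hg1, hg⟩ := H32.Ram.exists_inertia F p hp h
  have hp' : Prime (p : ℤ) := Nat.prime_iff_prime_int.mp hp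
  have hQ0 : Q ≠ ⊥ :=
    Ideal.ne_bot_of_liesOver_of_ne_bot (Ideal.span_singleton_eq_bot.not.mpr hp'.ne_zero) Q
  have hQm : Q.IsMaximal := hQ.isMaximal hQ0
  obtain ⟨P, hPm, hPl⟩ := Ideal.exists_maximal_ideal_liesOver_of_isIntegral (S := 𝓞 Ω) Q
  obtain ⟨σ, hσ⟩ := exists_extend F (F.val.comp g.toAlgHom)
  have hσ' : ∀ x : F, σ x = (g x : F) := hσ
  refine ⟨P, σ, hPm.isPrime, ov_of Q P hQl hPl, ?_, ?_⟩
  · by_contra hcon
    push Not at hcon
    apply hg1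
    ext x
    rw [← hσ' x, hcon x x.2]
    rfl
  · intro y hy hint
    have hi : IsIntegral ℤ (⟨y, hy⟩ : F) :=
      (isIntegral_algHom_iff (F.val.toRingHom.toIntAlgHom) F.val.toRingHom.injective).mp hint
    let x : 𝓞 F := ⟨⟨y, hy⟩, hi⟩
    let z : 𝓞 F := RingOfIntegers.mapRingHom g.toAlgHom.toRingHom x
    have hm : z - x ∈ Q := hg x z rfl
    rw [hPl.over, Ideal.under_def, Ideal.mem_comap] at hm
    refine ⟨_, hm, ?_⟩
    rw [map_sub, hσ' ⟨y, hy⟩]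
    rfl

lemma w_int {w : Ω} (hw : w ^ 2 + w + 1 = 0) : IsIntegral ℤ w := by
  refine IsIntegral.of_pow (n := 3) (by norm_num) ?_
  have : w ^ 3 = 1 := by linear_combination (w - 1) * hw
  rw [this]
  exact isIntegral_one

lemma root_cases {w : Ω} (hw : w ^ 2 + w + 1 = 0) (g : Ω ≃ₐ[ℚ] Ω) : g w = w ∨ g w = w ^ 2 := by
  have h1 : g w ^ 2 + g w + 1 = 0 := by
    have := congrArg g hw
    simpa using this
  have h2 : (g w - w) * (g w - w ^ 2) = 0 := by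
    linear_combination h1 + (w - 1 - g w) * hw
  rcases mul_eq_zero.mp h2 with h | h
  · exact Or.inl (sub_eq_zero.mp h)
  · exact Or.inr (sub_eq_zero.mp h)

lemma fix_w {F : IntermediateField ℚ Ω} {P : Ideal (𝓞 Ω)} {g : Ω ≃ₐ[ℚ] Ω} {p : ℕ}
    (ho : Ov P p) (hc : Cong F P g) {w : Ω} (hw : w ^ 2 + w + 1 = 0) (hF : w ∈ F)
    (h3 : ¬ (p : ℤ) ∣ 3) : g w = w := by
  rcases root_cases hw g with h | h
  · exact h
  · exfalso
    apply h3
    have h1 := hc w hF (w_int hw)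
    rw [h] at h1
    have h2 := h1.mul (c := w - w ^ 2) ((w_int hw).sub ((w_int hw).pow 2))
    have h4 : (w - w ^ 2) * (w ^ 2 - w) = (((3 : ℤ) : 𝓞 Ω) : Ω) := by
      have : (((3 : ℤ) : 𝓞 Ω) : Ω) = ((3 : ℤ) : Ω) := map_intCast (algebraMap (𝓞 Ω) Ω) 3
      rw [this]
      push_cast
      linear_combination (-w ^ 2 + 3 * w - 3) * hw
    rw [h4] at h2
    exact (ho 3).mp h2.mem

lemma rows (K : Type) [Field K] [NumberField K] (P : Ideal (𝓞 Ω)) (ψ ψ' : K →ₐ[ℚ] Ω)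
    (hne : ψ ≠ ψ') (h : ∀ y : 𝓞 K, In P (ψ y - ψ' y)) : ((discr K : ℤ) : 𝓞 Ω) ∈ P := by
  classical
  let ι := Free.ChooseBasisIndex ℤ (𝓞 K)
  let b := RingOfIntegers.basis K
  have hcard : Fintype.card ι = Fintype.card (K →ₐ[ℚ] Ω) := by
    rw [AlgHom.card ℚ K Ω, ← finrank_eq_card_basis (integralBasis K)]
  let e : ι ≃ (K →ₐ[ℚ] Ω) := Fintype.equivOfCardEq hcard
  let A : Matrix ι ι (𝓞 Ω) := fun i j => RingOfIntegers.mapRingHom (e j).toRingHom (b i)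
  let c : 𝓞 Ω →+* Ω := algebraMap (𝓞 Ω) Ω
  have hc : Function.Injective c := RingOfIntegers.coe_injective
  have hA : c.mapMatrix A = Algebra.embeddingsMatrixReindex ℚ Ω (integralBasis K) e := by
    ext i j
    simp only [Algebra.embeddingsMatrixReindex, RingHom.mapMatrix_apply, Matrix.map_apply,
      Matrix.reindex_apply, Matrix.submatrix_apply, Equiv.refl_symm, Equiv.refl_apply,
      Equiv.symm_symm, Algebra.embeddingsMatrix_apply, integralBasis_apply]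
    rfl
  have hdet : A.det ^ 2 = (discr K : 𝓞 Ω) := by
    apply hc
    rw [map_pow, RingHom.map_det, hA, ← Algebra.discr_eq_det_embeddingsMatrixReindex_pow_two,
      ← coe_discr, map_intCast, map_intCast]
  have hmem : A.det ∈ P := by
    rw [← Ideal.Quotient.eq_zero_iff_mem, RingHom.map_det]
    have hne' : e.symm ψ ≠ e.symm ψ' := fun hh => hne (e.symm.injective hh)
    refine Matrix.det_zero_of_column_eq hne' fun i => ?_
    simp only [RingHom.mapMatrix_apply, Matrix.map_apply]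
    rw [Ideal.Quotient.eq]
    apply In.mem
    simp only [A, Equiv.apply_symm_apply]
    exact h (b i)
  rw [← hdet]
  exact P.pow_mem_of_mem hmem 2 (by norm_num)

lemma fix_K {K : Type} [Field K] [NumberField K] {F : IntermediateField ℚ Ω} {P : Ideal (𝓞 Ω)}
    {g : Ω ≃ₐ[ℚ] Ω} {p : ℕ} (ho : Ov P p) (hc : Cong F P g) (hK : ¬ (p : ℤ) ∣ discr K)
    (ψ : K →ₐ[ℚ] Ω) (hF : ∀ y, ψ y ∈ F) (y : K) : g (ψ y) = ψ y := by
  by_contra hne
  apply hK
  refine (ho _).mp (rows K P (g.toAlgHom.comp ψ) ψ (fun e => hne (DFunLike.congr_fun e y)) ?_)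
  intro x
  exact hc _ (hF x) (map_isIntegral_int ψ.toRingHom x.2)

/-- An automorphism that fixes all conjugates of `K` keeps every block. -/
lemma blocks {L : IntermediateField ℚ Ω} {φ : Fin 3 → Fin 3 → (L →ₐ[ℚ] Ω)} (h : Emb L φ)
    {K : IntermediateField ℚ Ω} (hK : Sub φ K) (g : Ω ≃ₐ[ℚ] Ω)
    (hg : ∀ (ψ : K →ₐ[ℚ] Ω) (y : K), g (ψ y) = ψ y) :
    ∃ v : Fin 3 → Fin 3, v 0 + v 1 + v 2 = 0 ∧
      ∀ (i a : Fin 3) (x : L), g (φ i a x) = φ i (a + v i) x := by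
  obtain ⟨π, v, hv, hact⟩ := h.act g
  have inj : ∀ i a j b, (∀ x, φ i a x = φ j b x) → i = j := by
    intro i a j b hh
    have : (i, a) = (j, b) := h.bij.1 (AlgHom.ext hh)
    exact (Prod.ext_iff.mp this).1
  have hπ : ∀ i, π i = i := by
    intro i
    obtain ⟨σ, hσ⟩ := exists_extend L (φ i 0)
    obtain ⟨π', v', -, hact'⟩ := h.act σ
    have e0 : π' 0 = i := by
      refine inj _ (0 + v' 0) _ 0 fun x => ?_
      rw [← hact', h.inc, hσ]
    have hfix : ∀ y ∈ K, (σ⁻¹ * g * σ) y = y := by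
      intro y hy
      have := hg (σ.toAlgHom.comp K.val) ⟨y, hy⟩
      have e : g (σ y) = σ y := this
      rw [AlgEquiv.mul_apply, AlgEquiv.mul_apply, e]
      exact σ.symm_apply_apply y
    obtain ⟨a, ha⟩ := (hK.2.2 _).mp hfix
    refine inj _ (0 + v i) _ (a + v' 0) fun x => ?_
    rw [← hact, ← e0, ← hact', ← ha x, h.inc, AlgEquiv.mul_apply, AlgEquiv.mul_apply, e0, ← hσ]
    exact (σ.apply_symm_apply _).symm
  exact ⟨v, hv, fun i a x => by rw [hact, hπ]⟩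

lemma det_mem {A : Type} [CommRing A] (c : A →+* Ω) (Q : Ideal A) (j : Fin 3)
    (N : Matrix (Fin 3 × Fin 3) (Fin 3 × Fin 3) Ω)
    (hN : ∀ i k l m, ∃ y : A, c y = N k (i, 0) * N l (i, 1) * N m (i, 2) ∧ (i ≠ j → y ∈ Q)) :
    ∃ D ∈ Q ^ 2, c D = N.det := by
  classical
  choose y hy hQ using hN
  refine ⟨∑ σ : Equiv.Perm (Fin 3 × Fin 3), ((Equiv.Perm.sign σ : ℤ) : A) *
    ∏ i, y i (σ (i, 0)) (σ (i, 1)) (σ (i, 2)), ?_, ?_⟩
  · refine Ideal.sum_mem _ fun σ _ => Ideal.mul_mem_left _ _ ?_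
    rw [Fin.prod_univ_three, pow_two]
    fin_cases j
    · rw [mul_assoc]
      exact Ideal.mul_mem_left _ _ (Ideal.mul_mem_mul (hQ _ _ _ _ (by decide))
        (hQ _ _ _ _ (by decide)))
    · rw [mul_right_comm]
      exact Ideal.mul_mem_right _ _ (Ideal.mul_mem_mul (hQ _ _ _ _ (by decide))
        (hQ _ _ _ _ (by decide)))
    · exact Ideal.mul_mem_right _ _ (Ideal.mul_mem_mul (hQ _ _ _ _ (by decide))
        (hQ _ _ _ _ (by decide)))
  · rw [Matrix.det_apply', map_sum]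
    refine Finset.sum_congr rfl fun σ _ => ?_
    rw [map_mul, map_intCast, map_prod, Fintype.prod_prod_type]
    congr 1
    refine Finset.prod_congr rfl fun i _ => ?_
    rw [hy, Fin.prod_univ_three]

lemma pow_dvd (F : Type) [Field F] [NumberField F] {p : ℕ} (hp : p.Prime)
    (h : ¬ (p : ℤ) ∣ discr F) (Q : Ideal (𝓞 F)) (hQ : Q.IsPrime) (hpQ : ((p : ℤ) : 𝓞 F) ∈ Q)
    {n : ℤ} (hn : n ≠ 0) {k : ℕ} (hk : (n : 𝓞 F) ∈ Q ^ k) : (p : ℤ) ^ k ∣ n := by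
  have hp' : Prime (p : ℤ) := Nat.prime_iff_prime_int.mp hp
  have hs0 : (Ideal.span {(p : ℤ)} : Ideal ℤ) ≠ ⊥ :=
    Ideal.span_singleton_eq_bot.not.mpr hp'.ne_zero
  have hsp : (Ideal.span {(p : ℤ)}).IsPrime := (Ideal.span_singleton_prime hp'.ne_zero).mpr hp'
  have hl : Q.LiesOver (Ideal.span {(p : ℤ)}) :=
    (Ideal.liesOver_span_iff hQ.ne_top hp').mpr (by simpa using hpQ)
  have hQ0 : Q ≠ ⊥ := Ideal.ne_bot_of_liesOver_of_ne_bot hs0 Q
  have hu : Algebra.IsUnramifiedAt ℤ Q :=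
    (not_dvd_discr_iff_forall_mem F (𝓞 F) hp').mp h Q hQ hpQ
  have he : (Ideal.span {(p : ℤ)}).ramificationIdx' Q = 1 := by
    rw [Ideal.ramificationIdx'_eq_ramificationIdx _ Q hs0]
    exact Ideal.ramificationIdx_eq_one Q ℤ
  have hI : (Ideal.span {n} : Ideal ℤ) ≠ ⊥ := Ideal.span_singleton_eq_bot.not.mpr hn
  have hQpr : Prime Q := Ideal.prime_of_isPrime hQ0 hQ
  have hppr : Prime (Ideal.span {(p : ℤ)}) := Ideal.prime_of_isPrime hs0 hsp
  have hm := Ideal.IsDedekindDomain.emultiplicity_map_eq_ramificationIdx'_mul (S := 𝓞 F)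
    (v := Ideal.span {(p : ℤ)}) (w := Q) hI hppr.irreducible hQpr.irreducible hQ0
  rw [he, Nat.cast_one, one_mul, Ideal.map_span, Set.image_singleton] at hm
  have h1 : Q ^ k ∣ Ideal.span {algebraMap ℤ (𝓞 F) n} := by
    rw [Ideal.dvd_span_singleton]
    simpa using hk
  have h2 := pow_dvd_iff_le_emultiplicity.mp h1
  rw [hm] at h2
  have h3 := pow_dvd_iff_le_emultiplicity.mpr h2
  rwa [Ideal.span_singleton_pow, Ideal.dvd_span_singleton, Ideal.mem_span_singleton] at h3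

/-- The three linear forms of a block, with the root of unity `u`. -/
noncomputable def fm {L : IntermediateField ℚ Ω} (u : Ω) (φ : Fin 3 → Fin 3 → (L →ₐ[ℚ] Ω))
    (x : L) (c : Fin 3 × Fin 3) : Ω :=
  φ c.1 0 x + u ^ (c.2 : ℕ) * φ c.1 1 x + (u ^ (c.2 : ℕ)) ^ 2 * φ c.1 2 x

lemma rot {u : Ω} (hu : u ^ 2 + u + 1 = 0) (a b c a' b' c' a'' b'' c'' : Ω) :
    (b + u ^ 0 * c + (u ^ 0) ^ 2 * a) * (b' + u ^ 1 * c' + (u ^ 1) ^ 2 * a') *
        (b'' + u ^ 2 * c'' + (u ^ 2) ^ 2 * a'') =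
      (a + u ^ 0 * b + (u ^ 0) ^ 2 * c) * (a' + u ^ 1 * b' + (u ^ 1) ^ 2 * c') *
        (a'' + u ^ 2 * b'' + (u ^ 2) ^ 2 * c'') := by
  have h3 : u ^ 3 = 1 := by linear_combination (u - 1) * hu
  have e1 : b' + u ^ 1 * c' + (u ^ 1) ^ 2 * a' =
      u ^ 2 * (a' + u ^ 1 * b' + (u ^ 1) ^ 2 * c') := by
    linear_combination (-b' - u * c') * h3
  have e2 : b'' + u ^ 2 * c'' + (u ^ 2) ^ 2 * a'' =
      u * (a'' + u ^ 2 * b'' + (u ^ 2) ^ 2 * c'') := by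
    linear_combination (u * a'' - b'' - u ^ 2 * c'') * h3
  rw [e1, e2]
  linear_combination ((a + b + c) * (a' + u ^ 1 * b' + (u ^ 1) ^ 2 * c') *
    (a'' + u ^ 2 * b'' + (u ^ 2) ^ 2 * c'')) * h3

lemma fm_fix {L : IntermediateField ℚ Ω} {φ : Fin 3 → Fin 3 → (L →ₐ[ℚ] Ω)} {u : Ω}
    (hu : u ^ 2 + u + 1 = 0) (g : Ω ≃ₐ[ℚ] Ω) (hg : g u = u) (i t : Fin 3)
    (ha : ∀ (a : Fin 3) (x : L), g (φ i a x) = φ i (a + t) x) (x y z : L) :
    g (fm u φ x (i, 0) * fm u φ y (i, 1) * fm u φ z (i, 2)) =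
      fm u φ x (i, 0) * fm u φ y (i, 1) * fm u φ z (i, 2) := by
  simp only [fm, map_mul, map_add, map_pow, hg, ha]
  fin_cases t
  · simp
  · exact rot hu _ _ _ _ _ _ _ _ _
  · exact (rot hu _ _ _ _ _ _ _ _ _).symm

lemma fm_int {L : IntermediateField ℚ Ω} {φ : Fin 3 → Fin 3 → (L →ₐ[ℚ] Ω)} {u : Ω}
    (hu : u ^ 2 + u + 1 = 0) (x : 𝓞 L) (c : Fin 3 × Fin 3) : IsIntegral ℤ (fm u φ x c) := by
  have h : ∀ i a, IsIntegral ℤ (φ i a x) := fun i a => map_isIntegral_int (φ i a).toRingHom x.2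
  have h1 := (w_int hu).pow (c.2 : ℕ)
  exact ((h _ _).add (h1.mul (h _ _))).add ((h1.pow 2).mul (h _ _))

lemma fm_in {L : IntermediateField ℚ Ω} {φ : Fin 3 → Fin 3 → (L →ₐ[ℚ] Ω)} {u : Ω}
    (hu : u ^ 2 + u + 1 = 0) {P : Ideal (𝓞 Ω)} (i t : Fin 3) (ht : t ≠ 0) (x : L)
    (h : ∀ a : Fin 3, In P (φ i (a + t) x - φ i a x)) (c : Fin 3) (hc : c ≠ 0) :
    In P (fm u φ x (i, c)) := by
  have hv : (u ^ (c : ℕ)) ^ 2 + u ^ (c : ℕ) + 1 = 0 := by
    fin_cases c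
    · exact absurd rfl hc
    · simpa using hu
    · have : (u ^ 2) ^ 2 + u ^ 2 + 1 = 0 := by linear_combination (u ^ 2 - u + 1) * hu
      exact this
  have hi := w_int hv
  simp only [fm]
  generalize u ^ (c : ℕ) = s at hv hi
  fin_cases t
  · exact absurd rfl ht
  · have h0 : In P (φ i 1 x - φ i 0 x) := h 0
    have h2 : In P (φ i 0 x - φ i 2 x) := h 2
    have := (h0.mul hi).add (h2.mul (c := -s ^ 2) (hi.pow 2).neg)
    convert this using 1
    linear_combination (φ i 0 x) * hv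
  · have h0 : In P (φ i 2 x - φ i 0 x) := h 0
    have h1 : In P (φ i 0 x - φ i 1 x) := h 1
    have := (h0.mul (hi.pow 2)).add (h1.mul (c := -s) hi.neg)
    convert this using 1
    linear_combination (φ i 0 x) * hv

lemma fm_sum {L : IntermediateField ℚ Ω} {φ : Fin 3 → Fin 3 → (L →ₐ[ℚ] Ω)} {w : Ω}
    (hw : w ^ 2 + w + 1 = 0) (x y : L) :
    ∑ c, fm w φ x c * fm (w ^ 2) φ y c = 3 * ∑ c : Fin 3 × Fin 3, φ c.1 c.2 (x * y) := by
  rw [Fintype.sum_prod_type, Fintype.sum_prod_type, Finset.mul_sum]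
  refine Finset.sum_congr rfl fun i _ => ?_
  simp only [Fin.sum_univ_three, fm, map_mul, Fin.val_zero, Fin.val_one, Fin.val_two]
  have h3 : w ^ 3 = 1 := by linear_combination (w - 1) * hw
  have h4 : (w ^ 2) ^ 2 = w := by linear_combination w * h3
  simp only [pow_zero, pow_one, one_pow, one_mul, h4]
  generalize φ i 0 x = a, φ i 1 x = b, φ i 2 x = c, φ i 0 y = a', φ i 1 y = b', φ i 2 y = c'
  linear_combination (a * b' + a * c' + b * a' + c * a') * hw +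
    (2 * b * b' + 2 * c * c') * h3 + (b * c' + c * b') * (w ^ 2 - w + 1) * hw

lemma det_mul {L : IntermediateField ℚ Ω} [NumberField L] {φ : Fin 3 → Fin 3 → (L →ₐ[ℚ] Ω)}
    (h : Emb L φ) {w : Ω} (hw : w ^ 2 + w + 1 = 0) :
    ∃ b : Fin 3 × Fin 3 → 𝓞 L, (Matrix.of fun k c => fm w φ (b k) c).det *
      (Matrix.of fun k c => fm (w ^ 2) φ (b k) c).det = ((3 ^ 9 * discr L : ℤ) : Ω) := by
  classical
  let E : Fin 3 × Fin 3 ≃ (L →ₐ[ℚ] Ω) := Equiv.ofBijective _ h.bij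
  have hc : Fintype.card (Free.ChooseBasisIndex ℤ (𝓞 L)) = Fintype.card (Fin 3 × Fin 3) := by
    rw [Fintype.card_congr E, AlgHom.card ℚ L Ω, ← finrank_eq_card_basis (integralBasis L)]
  let f := Fintype.equivOfCardEq hc
  refine ⟨fun k => RingOfIntegers.basis L (f.symm k), ?_⟩
  have hd : Algebra.discr ℚ (fun k => ((RingOfIntegers.basis L (f.symm k) : 𝓞 L) : L)) =
      (discr L : ℚ) := by
    rw [coe_discr, ← Algebra.discr_reindex ℚ (integralBasis L) f]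
    congr 1
    ext k
    simp
  rw [← Matrix.det_transpose (Matrix.of fun k c => fm (w ^ 2) φ _ c), ← Matrix.det_mul]
  have hm : (Matrix.of fun k c => fm w φ (RingOfIntegers.basis L (f.symm k) : 𝓞 L) c) *
      (Matrix.of fun k c => fm (w ^ 2) φ (RingOfIntegers.basis L (f.symm k) : 𝓞 L) c).transpose =
      (3 : Ω) • (algebraMap ℚ Ω).mapMatrix (Algebra.traceMatrix ℚ
        fun k => ((RingOfIntegers.basis L (f.symm k) : 𝓞 L) : L)) := by
    ext k l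
    simp only [Matrix.mul_apply, Matrix.transpose_apply, Matrix.of_apply, Matrix.smul_apply,
      RingHom.mapMatrix_apply, Matrix.map_apply, Algebra.traceMatrix_apply,
      Algebra.traceForm_apply, smul_eq_mul]
    rw [fm_sum hw, trace_eq_sum_embeddings Ω, ← E.sum_comp]
    rfl
  rw [hm, Matrix.det_smul, ← RingHom.map_det, ← Algebra.discr_def, hd]
  simp only [Fintype.card_prod, Fintype.card_fin, map_intCast]
  push_cast
  norm_num

/-- The automorphisms that fix `w` and all conjugates of `K`. -/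
def HH (K : IntermediateField ℚ Ω) (w : Ω) : Subgroup (Ω ≃ₐ[ℚ] Ω) where
  carrier := {g | g w = w ∧ ∀ (ψ : K →ₐ[ℚ] Ω) (y : K), g (ψ y) = ψ y}
  one_mem' := ⟨rfl, fun _ _ => rfl⟩
  mul_mem' := by
    rintro g g' ⟨h1, h2⟩ ⟨h1', h2'⟩
    exact ⟨by rw [AlgEquiv.mul_apply, h1', h1], fun ψ y => by rw [AlgEquiv.mul_apply, h2', h2]⟩
  inv_mem' := by
    rintro g ⟨h1, h2⟩
    refine ⟨?_, fun ψ y => ?_⟩
    · conv_lhs => rw [← h1]
      exact g.symm_apply_apply _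
    · conv_lhs => rw [← h2]
      exact g.symm_apply_apply _

lemma HH_normal (K : IntermediateField ℚ Ω) {w : Ω} (hw : w ^ 2 + w + 1 = 0) :
    (HH K w).Normal := by
  refine ⟨fun g hg σ => ⟨?_, fun ψ y => ?_⟩⟩
  · have e : g (σ⁻¹ w) = σ⁻¹ w := by
      rcases root_cases hw σ⁻¹ with h | h <;> rw [h]
      · exact hg.1
      · rw [map_pow, hg.1]
    rw [AlgEquiv.mul_apply, AlgEquiv.mul_apply, e]
    exact σ.apply_symm_apply _
  · have e : g (σ⁻¹ (ψ y)) = σ⁻¹ (ψ y) := hg.2 ((σ⁻¹).toAlgHom.comp ψ) y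
    rw [AlgEquiv.mul_apply, AlgEquiv.mul_apply, e]
    exact σ.apply_symm_apply _

end DiscAux

open DiscAux in
theorem four_dvd {L : IntermediateField ℚ Ω} [NumberField L]
    {φ : Fin 3 → Fin 3 → (L →ₐ[ℚ] Ω)} (h : Emb L φ) {K : IntermediateField ℚ Ω} (hK : Sub φ K)
    {w : Ω} (hw : w ^ 2 + w + 1 = 0) (M : IntermediateField ℚ Ω) [NumberField M] [IsGalois ℚ M]
    (h1 : ∀ i a x, φ i a x ∈ M) (h2 : w ∈ M)
    (h3 : ∀ g : Ω ≃ₐ[ℚ] Ω, (∀ i a x, g (φ i a x) = φ i a x) → g w = w → ∀ y ∈ M, g y = y)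
    {p : ℕ} (hp : p.Prime) (hp3 : ¬ p ∣ 3 * dK K) (hM : p ∣ dK M) : p ^ 4 ∣ dK L := by
  classical
  have hKf : FiniteDimensional ℚ K := Module.finite_of_finrank_pos (by rw [hK.1]; norm_num)
  have hKn : NumberField K := @NumberField.mk _ _ inferInstance hKf
  have hp' : Prime (p : ℤ) := Nat.prime_iff_prime_int.mp hp
  have n3 : ¬ (p : ℤ) ∣ 3 := fun hh =>
    hp3 (Dvd.dvd.mul_right (Int.natCast_dvd_natCast.mp hh) _)
  have nK : ¬ (p : ℤ) ∣ discr K := fun hh =>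
    hp3 (Dvd.dvd.mul_left (by rw [dK_eq]; exact Int.natCast_dvd.mp hh) _)
  rw [dK_eq] at hM ⊢
  have hgal : IsGalois ℚ Ω := ⟨⟩
  -- conjugates of `K` lie in `M`
  have hψM : ∀ (ψ : K →ₐ[ℚ] Ω) (y : K), ψ y ∈ M := by
    intro ψ y
    obtain ⟨σ, hσ⟩ := exists_extend K ψ
    obtain ⟨π, v, -, hact⟩ := h.act σ
    have := hact 0 0 ⟨y, hK.2.1 y.2⟩
    rw [h.inc] at this
    rw [← hσ]
    exact this ▸ h1 _ _ _
  -- the field `M0`
  have hnorm := HH_normal K hw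
  let M0 : IntermediateField ℚ Ω := IntermediateField.fixedField (HH K w)
  have mem0 : ∀ y, y ∈ M0 ↔ ∀ g ∈ HH K w, g y = y := fun y =>
    IntermediateField.mem_fixedField_iff _ _
  have hle : M0 ≤ M := by
    rw [← InfiniteGalois.fixedField_fixingSubgroup M]
    intro y hy
    rw [IntermediateField.mem_fixedField_iff]
    intro g hg
    rw [IntermediateField.mem_fixingSubgroup_iff] at hg
    exact (mem0 y).mp hy g ⟨hg w h2, fun ψ y => hg _ (hψM ψ y)⟩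
  have h0f : FiniteDimensional ℚ M0 :=
    FiniteDimensional.of_injective (IntermediateField.inclusion hle).toLinearMap
      (IntermediateField.inclusion_injective hle)
  have h0n : NumberField M0 := @NumberField.mk _ _ inferInstance h0f
  have h0g : IsGalois ℚ M0 := IsGalois.of_fixedField_normal_subgroup (HH K w)
  have n0 : ¬ (p : ℤ) ∣ discr M0 := by
    intro hh
    obtain ⟨P, g, -, ho, ⟨y, hy, hne⟩, hc⟩ := inertia_lift M0 hp hh
    refine hne ((mem0 y).mp hy g ⟨fix_w ho hc hw ((mem0 w).mpr fun g hg => hg.1) n3,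
      fun ψ y => fix_K ho hc nK ψ (fun y => (mem0 _).mpr fun g hg => hg.2 ψ y) y⟩)
  -- the inertia element of `M`
  obtain ⟨P, g, hP, ho, ⟨y, hy, hne⟩, hc⟩ := inertia_lift M hp (Int.natCast_dvd.mpr hM)
  have gw : g w = w := fix_w ho hc hw h2 n3
  obtain ⟨v, hv, hact⟩ := blocks h hK g fun ψ y => fix_K ho hc nK ψ (hψM ψ) y
  have hv0 : v ≠ 0 := by
    rintro rfl
    exact hne (h3 g (fun i a x => by simpa using hact i a x) gw y hy)
  obtain ⟨j, hj⟩ : ∃ j, ∀ i, i ≠ j → v i ≠ 0 := by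
    clear hact
    revert v
    decide
  let Q : Ideal (𝓞 M0) := P.comap (algebraMap (𝓞 M0) (𝓞 Ω))
  let c : 𝓞 M0 →+* Ω := (algebraMap (𝓞 Ω) Ω).comp (algebraMap (𝓞 M0) (𝓞 Ω))
  have hcinj : Function.Injective c :=
    RingOfIntegers.coe_injective.comp (FaithfulSMul.algebraMap_injective _ _)
  have key : ∀ (u : Ω), u ^ 2 + u + 1 = 0 → (∀ g ∈ HH K w, g u = u) →
      ∀ b : Fin 3 × Fin 3 → 𝓞 L,
        ∃ D ∈ Q ^ 2, c D = (Matrix.of fun k c => fm u φ (b k) c).det := by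
    intro u hu hfix b
    refine det_mem c Q j _ fun i k l m => ?_
    simp only [Matrix.of_apply]
    have hint : IsIntegral ℤ (fm u φ (b k) (i, 0) * fm u φ (b l) (i, 1) * fm u φ (b m) (i, 2)) :=
      ((fm_int hu _ _).mul (fm_int hu _ _)).mul (fm_int hu _ _)
    have hmem : fm u φ (b k) (i, 0) * fm u φ (b l) (i, 1) * fm u φ (b m) (i, 2) ∈ M0 := by
      rw [mem0]
      intro g' hg'
      obtain ⟨v', -, hact'⟩ := blocks h hK g' hg'.2
      exact fm_fix hu g' (hfix g' hg') i (v' i) (hact' i) _ _ _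
    have hi : IsIntegral ℤ (⟨_, hmem⟩ : M0) :=
      (isIntegral_algHom_iff (M0.val.toRingHom.toIntAlgHom) M0.val.toRingHom.injective).mp hint
    refine ⟨⟨⟨_, hmem⟩, hi⟩, rfl, fun hij => ?_⟩
    refine Ideal.mem_comap.mpr (In.mem ?_)
    refine In.mul ((fm_int hu _ _).mul (fm_int hu _ _)) ?_
    refine fm_in hu i (v i) (hj i hij) _ (fun a => ?_) 2 (by decide)
    rw [← hact]
    exact hc _ (h1 _ _ _) (map_isIntegral_int (φ i a).toRingHom (b m).2)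
  obtain ⟨b, hb⟩ := det_mul h hw
  obtain ⟨D, hD, eD⟩ := key w hw (fun g hg => hg.1) b
  obtain ⟨D', hD', eD'⟩ := key (w ^ 2) (by linear_combination (w ^ 2 - w + 1) * hw)
    (fun g hg => by rw [map_pow, hg.1]) b
  have hDD : D * D' = ((3 ^ 9 * discr L : ℤ) : 𝓞 M0) := by
    apply hcinj
    rw [map_mul, eD, eD', hb, map_intCast]
  have hmem4 : ((3 ^ 9 * discr L : ℤ) : 𝓞 M0) ∈ Q ^ 4 := by
    rw [← hDD, show 4 = 2 + 2 from rfl, pow_add]
    exact Ideal.mul_mem_mul hD hD'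
  have hpQ : ((p : ℤ) : 𝓞 M0) ∈ Q := by
    refine Ideal.mem_comap.mpr ?_
    rw [map_intCast]
    exact (ho p).mpr dvd_rfl
  have hdv := pow_dvd M0 hp n0 Q (Ideal.comap_isPrime _ P) hpQ
    (mul_ne_zero (by norm_num) (discr_ne_zero L)) hmem4
  have hcop : IsCoprime ((p : ℤ) ^ 4) (3 ^ 9) :=
    ((hp'.irreducible.coprime_iff_not_dvd).mpr n3).pow
  have := hcop.dvd_of_dvd_mul_left hdv
  exact Int.natCast_dvd.mp (by simpa using this)

end Pool.Agent.Lib.MP_af4c59_nt.K9
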