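import Pool.Agent.Lib.MP_af4c59_nt.K9Kum

/-!
The number of fields over a fixed cubic field (part A6, first half).
-/

set_option autoImplicit false

namespace Pool.Agent.Lib.MP_af4c59_nt.K9

open NumberField Module IsDedekindDomain

namespace FixAux

open IntermediateField

lemma galΩ : IsGalois ℚ Ω := IsAlgClosure.isGalois ℚ Ω

lemma mem_of_fixed (L : IntermediateField ℚ Ω) (x : Ω)
    (h : ∀ g : Ω ≃ₐ[ℚ] Ω, (∀ z ∈ L, g z = z) → g x = x) : x ∈ L := by
  have := galΩ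
  rw [← InfiniteGalois.fixedField_fixingSubgroup L, IntermediateField.mem_fixedField_iff]
  intro g hg
  exact h g ((IntermediateField.mem_fixingSubgroup_iff _ _).1 hg)

lemma eq_of_fix {L L' : IntermediateField ℚ Ω}
    (h : ∀ g : Ω ≃ₐ[ℚ] Ω, (∀ x ∈ L, g x = x) ↔ ∀ x ∈ L', g x = x) : L = L' := by
  apply le_antisymm
  · intro x hx
    exact mem_of_fixed L' x fun g hg => (h g).2 hg x hx
  · intro x hx
    exact mem_of_fixed L x fun g hg => (h g).1 hg x hx

/-- The fixed points of one automorphism. -/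
def fixF (g : Ω ≃ₐ[ℚ] Ω) : IntermediateField ℚ Ω where
  carrier := {x | g x = x}
  mul_mem' := by
    intro a b ha hb
    simp only [Set.mem_ofPred_eq] at *
    rw [map_mul, ha, hb]
  one_mem' := map_one g
  add_mem' := by
    intro a b ha hb
    simp only [Set.mem_ofPred_eq] at *
    rw [map_add, ha, hb]
  zero_mem' := map_zero g
  algebraMap_mem' := fun r => g.commutes r
  inv_mem' := by
    intro a ha
    simp only [Set.mem_ofPred_eq] at *
    rw [map_inv₀, ha]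

lemma fix_sup {K : IntermediateField ℚ Ω} {w : Ω} {g : Ω ≃ₐ[ℚ] Ω} (hK : ∀ x ∈ K, g x = x)
    (hw : g w = w) : ∀ x ∈ K ⊔ ℚ⟮w⟯, g x = x := by
  have h : K ⊔ ℚ⟮w⟯ ≤ fixF g := by
    refine sup_le (fun x hx => hK x hx) ?_
    rw [IntermediateField.adjoin_simple_le_iff]
    exact hw
  exact fun x hx => h hx

section
variable {w : Ω} (hw : w ^ 2 + w + 1 = 0)
include hw

lemma w_cube : w ^ 3 = 1 := by linear_combination (w - 1) * hw

lemma w_ne : w ≠ w ^ 2 := by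
  intro h
  have h1 : w * (w - 1) = 0 := by linear_combination -h
  rcases mul_eq_zero.1 h1 with h2 | h2
  · rw [h2] at hw; simp at hw
  · have h3 : w = 1 := by linear_combination h2
    rw [h3] at hw; norm_num at hw

lemma map_w (g : Ω ≃ₐ[ℚ] Ω) : g w = w ∨ g w = w ^ 2 := by
  have h1 : (g w) ^ 2 + g w + 1 = 0 := by
    have := congrArg g hw
    simpa using this
  have h2 : (g w - w) * (g w - w ^ 2) = 0 := by
    linear_combination h1 + (w - 1 - g w) * hw
  rcases mul_eq_zero.1 h2 with h | h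
  · exact Or.inl (sub_eq_zero.1 h)
  · exact Or.inr (sub_eq_zero.1 h)

lemma map_map_w (g : Ω ≃ₐ[ℚ] Ω) : g (g w) = w := by
  rcases map_w hw g with h | h
  · rw [h, h]
  · rw [h, map_pow, h]
    linear_combination w * w_cube hw

lemma w_int : IsIntegral ℤ w := by
  refine ⟨Polynomial.X ^ 3 - 1, ?_, ?_⟩
  · simpa using Polynomial.monic_X_pow_sub_C (1 : ℤ) (by norm_num : (3 : ℕ) ≠ 0)
  · simp [w_cube hw]

lemma rank_w : finrank ℚ ℚ⟮w⟯ ≤ 2 := by
  have hi : IsIntegral ℚ w := (w_int hw).tower_top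
  rw [IntermediateField.adjoin.finrank hi]
  have hp : (Polynomial.X ^ 2 + Polynomial.X + 1 : Polynomial ℚ).Monic := by monicity!
  have hd : (Polynomial.X ^ 2 + Polynomial.X + 1 : Polynomial ℚ).natDegree ≤ 2 := by
    compute_degree
  have h := minpoly.min ℚ w hp (by simpa using hw)
  exact (Polynomial.natDegree_le_natDegree h).trans hd

lemma kum_mul {K : IntermediateField ℚ Ω} {z zb y yb : Ω} (h1 : Kum K w z zb)
    (h2 : Kum K w y yb) : Kum K w (z * y) (zb * yb) := by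
  refine ⟨mul_ne_zero h1.1 h2.1, mul_ne_zero h1.2.1 h2.2.1, fun g hg => ?_⟩
  obtain ⟨a, ha, h3⟩ := h1.2.2 g hg
  obtain ⟨b, hb, h4⟩ := h2.2.2 g hg
  refine ⟨a * b, by rw [mul_pow, ha, hb, mul_one], ?_⟩
  rcases h3 with ⟨e1, e2, e3⟩ | ⟨e1, e2, e3⟩ <;> rcases h4 with ⟨f1, f2, f3⟩ | ⟨f1, f2, f3⟩
  · exact Or.inl ⟨e1, by rw [map_mul, e2, f2]; ring, by rw [map_mul, e3, f3]; ring⟩
  · exact absurd (e1.symm.trans f1) (w_ne hw)
  · exact absurd (f1.symm.trans e1) (w_ne hw)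
  · exact Or.inr ⟨e1, by rw [map_mul, e2, f2]; ring, by rw [map_mul, e3, f3]; ring⟩

lemma kum_base {K : IntermediateField ℚ Ω} {a : Ω} (ha : a ∈ K ⊔ ℚ⟮w⟯) (h0 : a ≠ 0) :
    ∃ ab : Ω, Kum K w a ab := by
  by_cases h : ∃ g0 : Ω ≃ₐ[ℚ] Ω, (∀ x ∈ K, g0 x = x) ∧ g0 w = w ^ 2
  · obtain ⟨g0, hg0, hw0⟩ := h
    have hinv : ∀ x ∈ K, g0.symm x = x := fun x hx => by
      conv_lhs => rw [← hg0 x hx]
      exact g0.symm_apply_apply x
    have hw1 : g0.symm (w ^ 2) = w := by rw [← hw0]; exact g0.symm_apply_apply w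
    refine ⟨g0 a, h0, by simpa using h0, fun g hg => ⟨1, by norm_num, ?_⟩⟩
    rcases map_w hw g with e | e
    · refine Or.inl ⟨e, by rw [one_mul]; exact fix_sup hg e a ha, ?_⟩
      have h1 := fix_sup (K := K) (w := w) (g := g0.trans (g.trans g0.symm))
        (fun x hx => by simp [hg0 x hx, hg x hx, hinv x hx])
        (by simp only [AlgEquiv.trans_apply]; rw [hw0, map_pow, e, hw1]) a ha
      simp only [AlgEquiv.trans_apply] at h1
      have h2 := congrArg g0 h1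
      rw [g0.apply_symm_apply] at h2
      rw [h2]; ring
    · refine Or.inr ⟨e, ?_, ?_⟩
      · have h1 := fix_sup (K := K) (w := w) (g := g.trans g0.symm)
          (fun x hx => by simp [hg x hx, hinv x hx])
          (by simp only [AlgEquiv.trans_apply]; rw [e, hw1]) a ha
        simp only [AlgEquiv.trans_apply] at h1
        have h2 := congrArg g0 h1
        rw [g0.apply_symm_apply] at h2
        rw [h2]; ring
      · have h1 := fix_sup (K := K) (w := w) (g := g0.trans g)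
          (fun x hx => by simp [hg0 x hx, hg x hx])
          (by
            simp only [AlgEquiv.trans_apply]
            rw [hw0, map_pow, e]
            linear_combination w * w_cube hw) a ha
        simp only [AlgEquiv.trans_apply] at h1
        rw [h1]; ring
  · refine ⟨a, h0, h0, fun g hg => ⟨1, by norm_num, ?_⟩⟩
    rcases map_w hw g with e | e
    · have := fix_sup hg e a ha
      exact Or.inl ⟨e, by rw [this]; ring, by rw [this]; ring⟩
    · exact absurd ⟨g, hg, e⟩ h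

lemma cube_mem {K : IntermediateField ℚ Ω} {z zb : Ω} (h : Kum K w z zb) :
    z ^ 3 ∈ K ⊔ ℚ⟮w⟯ := by
  refine mem_of_fixed _ _ fun g hg => ?_
  have hK : ∀ x ∈ K, g x = x := fun x hx => hg x ((le_sup_left : K ≤ K ⊔ ℚ⟮w⟯) hx)
  have hw' : g w = w :=
    hg w ((le_sup_right : ℚ⟮w⟯ ≤ K ⊔ ℚ⟮w⟯) (IntermediateField.mem_adjoin_simple_self ℚ w))
  obtain ⟨a, ha, h3⟩ := h.2.2 g hK
  rcases h3 with ⟨-, e2, -⟩ | ⟨e1, -, -⟩
  · rw [map_pow, e2, mul_pow, ha, one_mul]
  · exact absurd (hw'.symm.trans e1) (w_ne hw)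

lemma gg_base {K : IntermediateField ℚ Ω} {a : Ω} (ha : a ∈ K ⊔ ℚ⟮w⟯) {g : Ω ≃ₐ[ℚ] Ω}
    (hg : ∀ x ∈ K, g x = x) : g (g a) = a := by
  have h1 := fix_sup (K := K) (w := w) (g := g.trans g) (fun x hx => by simp [hg x hx])
    (by simp only [AlgEquiv.trans_apply]; exact map_map_w hw g) a ha
  simpa using h1

end

lemma gg_kum {K : IntermediateField ℚ Ω} {w z zb : Ω} (h : Kum K w z zb) {g : Ω ≃ₐ[ℚ] Ω}
    (hg : ∀ x ∈ K, g x = x) : ∃ e : Ω, e ^ 3 = 1 ∧ g (g z) = e * z := by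
  obtain ⟨a, ha, h3⟩ := h.2.2 g hg
  have hga : (g a) ^ 3 = 1 := by rw [← map_pow, ha, map_one]
  rcases h3 with ⟨-, e2, -⟩ | ⟨-, e2, e3⟩
  · refine ⟨g a * a, by rw [mul_pow, hga, ha, mul_one], ?_⟩
    rw [e2, map_mul, e2]; ring
  · refine ⟨(g a) ^ 2 * a, ?_, ?_⟩
    · rw [mul_pow, ← pow_mul, mul_comm 2 3, pow_mul, hga, ha]; norm_num
    · rw [e2, map_mul, map_pow, e3]; ring

/-- Outside `m` the cube of a resolvent has valuations divisible by three. -/
lemma mult_out {K : IntermediateField ℚ Ω} {w z : Ω} {m : ℕ}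
    (K' : IntermediateField ℚ Ω) [NumberField K'] (hK' : K' = K ⊔ ℚ⟮w⟯)
    (hM : ∃ M : IntermediateField ℚ Ω, FiniteDimensional ℚ M ∧ K ≤ M ∧ w ∈ M ∧ z ∈ M ∧
      ∀ p : ℕ, p.Prime → p ∣ dK M → p ∣ m)
    (γ : 𝓞 K') (h0 : γ ≠ 0) (hγ : ((γ : K') : Ω) = z ^ 3) (P : HeightOneSpectrum (𝓞 K'))
    (hP : (m : 𝓞 K') ∉ P.asIdeal) : 3 ∣ multiplicity P.asIdeal (Ideal.span {γ}) := by
  obtain ⟨M, hfin, hKM, hwM, hzM, hp⟩ := hM
  have : NumberField M := @NumberField.mk _ _ inferInstance hfin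
  have hle : K' ≤ M := by
    rw [hK']
    refine sup_le hKM ?_
    rw [IntermediateField.adjoin_simple_le_iff]
    exact hwM
  let : Algebra K' M := (IntermediateField.inclusion hle).toRingHom.toAlgebra
  have hn : Ideal.absNorm P.asIdeal ≠ 0 := by
    rw [Ne, Ideal.absNorm_eq_zero_iff]; exact P.ne_bot
  obtain ⟨p, hpp, -, hpP⟩ :=
    H32.Tor.exists_prime_mem P.asIdeal P.isPrime _ hn (Ideal.absNorm_mem P.asIdeal)
  refine three_dvd_mult K' M p hpp ?_ γ h0 ⟨z, hzM⟩ ?_ P hpP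
  · intro hd
    have h1 : p ∣ dK M := by
      rw [dK_eq]
      exact Int.natCast_dvd.1 hd
    obtain ⟨k, hk⟩ := hp p hpp h1
    apply hP
    rw [hk, Nat.cast_mul]
    exact Ideal.mul_mem_right _ _ hpP
  · apply Subtype.ext
    exact hγ.symm

lemma card_nine (K' : Type) [Field K'] [NumberField K'] (h6 : finrank ℚ K' ≤ 6) :
    Finite (𝓞 K' ⧸ Ideal.span {((9 : ℕ) : 𝓞 K')}) ∧
      Nat.card (𝓞 K' ⧸ Ideal.span {((9 : ℕ) : 𝓞 K')}) ≤ 3 ^ 12 := by
  have h1 := Ideal.absNorm_span_natCast (S := 𝓞 K') 9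
  rw [RingOfIntegers.rank] at h1
  refine ⟨(Ideal.absNorm_ne_zero_iff _).1 (by rw [h1]; positivity), ?_⟩
  rw [Ideal.absNorm_apply, Submodule.cardQuot_apply] at h1
  rw [h1]
  calc 9 ^ finrank ℚ K' ≤ 9 ^ 6 := Nat.pow_le_pow_right (by norm_num) h6
    _ = 3 ^ 12 := by norm_num

end FixAux

open FixAux IntermediateField in
theorem fixed_bound (K : IntermediateField ℚ Ω) (hK : finrank ℚ K = 3) {w : Ω}
    (hw : w ^ 2 + w + 1 = 0) (m : ℕ) (hm : m ≠ 0) (S : Finset (IntermediateField ℚ Ω))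
    (hS : ∀ L ∈ S, Dat K w m L) :
    S.card ≤ 3 ^ (6 * m.primeFactors.card + 12) * h3 K := by
  classical
  rcases S.eq_empty_or_nonempty with rfl | ⟨L0, hL0⟩
  · simp
  have hfin : FiniteDimensional ℚ K := Module.finite_of_finrank_pos (by omega)
  have : NumberField K := @NumberField.mk _ _ inferInstance hfin
  have hwi : IsIntegral ℚ w := (w_int hw).tower_top
  have : FiniteDimensional ℚ ℚ⟮w⟯ := IntermediateField.adjoin.finiteDimensional hwi
  obtain ⟨K', hK'⟩ : ∃ K' : IntermediateField ℚ Ω, K' = K ⊔ ℚ⟮w⟯ := ⟨_, rfl⟩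
  have hfin' : FiniteDimensional ℚ K' := by rw [hK']; infer_instance
  have : NumberField K' := @NumberField.mk _ _ inferInstance hfin'
  have h6 : finrank ℚ K' ≤ 6 := by
    rw [hK']
    refine (IntermediateField.finrank_sup_le K ℚ⟮w⟯).trans ?_
    have := rank_w hw
    rw [hK]; omega
  have hKK' : K ≤ K' := by rw [hK']; exact le_sup_left
  have hwK' : w ∈ K' := by
    rw [hK']
    exact (le_sup_right : ℚ⟮w⟯ ≤ K ⊔ ℚ⟮w⟯) (IntermediateField.mem_adjoin_simple_self ℚ w)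
  have hint : ∀ x : K', IsIntegral ℤ (x : Ω) → IsIntegral ℤ x := fun x hx =>
    (isIntegral_algHom_iff (K'.val.restrictScalars ℤ) Subtype.val_injective).1 hx
  have hcoe : ∀ x : 𝓞 K', ((x : K') : Ω) ≠ 0 → x ≠ 0 := by
    rintro x hx rfl
    exact hx (by simp)
  obtain ⟨T, h3T, hTc, hT⟩ := choose_T K
  obtain ⟨S1, hS1, hmem⟩ := primes_le (K := K') m hm
  choose Q hQp hQ0 hQo using fun q : HeightOneSpectrum (𝓞 K) => exists_over hKK' q
  choose ty hty using fun q : HeightOneSpectrum (𝓞 K) => cube_types (Q q) (hQp q) (hQ0 q)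
  choose z zb hk hz hzb hL hM using fun i : S => hS i.1 i.2
  have hγ : ∀ i : S, ∃ γ : 𝓞 K', ((γ : K') : Ω) = z i ^ 3 := fun i =>
    ⟨⟨⟨z i ^ 3, by rw [hK']; exact cube_mem hw (hk i)⟩, hint _ ((hz i).pow 3)⟩, rfl⟩
  choose γ hγ using hγ
  have hγ0 : ∀ i, γ i ≠ 0 := fun i => hcoe _ (by rw [hγ]; exact pow_ne_zero _ (hk i).1)
  have : Nonempty S := ⟨⟨L0, hL0⟩⟩
  let t1 : S → (S1 → ZMod 3) := fun i P =>
    (multiplicity P.1.asIdeal (Ideal.span {γ i}) : ZMod 3)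
  let ρ : (S1 → ZMod 3) → S := Function.invFun t1
  have hρ : ∀ i, t1 (ρ (t1 i)) = t1 i := fun i => Function.invFun_eq ⟨i, rfl⟩
  have hcube : ∀ i j : S, t1 j = t1 i →
      ∃ a : Ideal (𝓞 K'), a ^ 3 = Ideal.span {γ i * γ j ^ 2} := by
    intro i j hij
    refine cube_of_mult _ (by simpa using ⟨hγ0 i, hγ0 j⟩) fun P => ?_
    rw [pow_two, H32.Tor.mult_mul P (hγ0 i) (mul_ne_zero (hγ0 j) (hγ0 j)),
      H32.Tor.mult_mul P (hγ0 j) (hγ0 j)]
    by_cases hP : (m : 𝓞 K') ∈ P.asIdeal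
    · have h1 : (multiplicity P.asIdeal (Ideal.span {γ j}) : ZMod 3) =
          (multiplicity P.asIdeal (Ideal.span {γ i}) : ZMod 3) := congrFun hij ⟨P, hmem P hP⟩
      rw [ZMod.natCast_eq_natCast_iff'] at h1
      omega
    · have h1 := mult_out K' hK' (hM i) (γ i) (hγ0 i) (hγ i) P hP
      have h2 := mult_out K' hK' (hM j) (γ j) (hγ0 j) (hγ j) P hP
      omega
  let n : ℕ := 3 * ∏ q ∈ T, Ideal.absNorm q.asIdeal
  have hn : n ≠ 0 := by
    refine mul_ne_zero (by norm_num) (Finset.prod_ne_zero_iff.2 fun q _ => ?_)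
    rw [Ne, Ideal.absNorm_eq_zero_iff]; exact q.ne_bot
  have hn' : Ideal.span {(n : 𝓞 K')} ≠ ⊥ := by
    rw [Ne, Ideal.span_singleton_eq_bot]; exact_mod_cast hn
  have hres : ∀ i : S, ∃ (t : K') (δ : 𝓞 K') (a : Ideal (𝓞 K')), t ≠ 0 ∧
      (δ : K') = (γ i * γ (ρ (t1 i)) ^ 2 : 𝓞 K') * t ^ 3 ∧ a ^ 3 = Ideal.span {δ} ∧
        a ⊔ Ideal.span {(n : 𝓞 K')} = ⊤ := by
    intro i
    obtain ⟨a, ha⟩ := hcube i _ (hρ i)
    exact rescale (by norm_num) (mul_ne_zero (hγ0 i) (pow_ne_zero _ (hγ0 _))) ha hn'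
  choose t δ a ht hδ ha hcop using hres
  have hcop' : ∀ i, IsCoprime (δ i) (n : 𝓞 K') := fun i => by
    rw [← Ideal.sup_eq_top_iff_isCoprime, ← ha i]
    exact Ideal.pow_sup_eq_top (hcop i)
  have hδΩ : ∀ i, ((δ i : K') : Ω) = (z i * z (ρ (t1 i)) ^ 2 * (t i : Ω)) ^ 3 := fun i => by
    rw [hδ i]
    have e1 := hγ i
    have e2 := hγ (ρ (t1 i))
    push_cast
    rw [e1, e2]; ring
  have htm : ∀ i, (t i : Ω) ∈ K ⊔ ℚ⟮w⟯ := fun i => by rw [← hK']; exact (t i).2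
  have hky : ∀ i, ∃ yb, Kum K w (z i * z (ρ (t1 i)) ^ 2 * (t i : Ω)) yb := fun i => by
    obtain ⟨tb, htb⟩ := kum_base hw (htm i) (by simpa using ht i)
    rw [pow_two]
    exact ⟨_, kum_mul hw (kum_mul hw (hk i) (kum_mul hw (hk _) (hk _))) htb⟩
  have hnot : ∀ i, ∀ q ∈ T, ∀ Q' : Ideal (𝓞 K'), Q'.IsPrime → Over q Q' → δ i ∉ Q' := by
    intro i q hq Q' hQ' ho hd
    have h1 : ((Ideal.absNorm q.asIdeal : ℕ) : 𝓞 K') ∈ Q' :=
      (ho (Ideal.absNorm q.asIdeal : ℕ) _ (by simp)).2 (Ideal.absNorm_mem _)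
    have h2 : (n : 𝓞 K') ∈ Q' := by
      obtain ⟨k, hk⟩ : Ideal.absNorm q.asIdeal ∣ n :=
        (Finset.dvd_prod_of_mem _ hq).mul_left 3
      rw [hk, Nat.cast_mul]
      exact Ideal.mul_mem_right _ _ h1
    obtain ⟨u, v, huv⟩ := hcop' i
    apply hQ'.ne_top
    rw [Ideal.eq_top_iff_one, ← huv]
    exact Q'.add_mem (Q'.mul_mem_left _ hd) (Q'.mul_mem_left _ h2)
  have hc3 : ∀ i, IsCoprime (δ i) 3 := fun i => by
    have h1 := hcop' i
    have h2 : (n : 𝓞 K') = 3 * ((∏ q ∈ T, Ideal.absNorm q.asIdeal : ℕ) : 𝓞 K') := by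
      simp only [n, Nat.cast_mul, Nat.cast_ofNat]
    rw [h2] at h1
    exact h1.of_mul_right_left
  obtain ⟨hF9, hc9⟩ := card_nine K' h6
  let F : S → (S1 → ZMod 3) × (𝓞 K' ⧸ Ideal.span {((9 : ℕ) : 𝓞 K')}) × (T → Fin 3) :=
    fun i => (t1 i, Ideal.Quotient.mk _ (δ i), fun q => ty q.1 (δ i))
  have hF : Function.Injective F := by
    intro i j hij
    by_contra hne
    have e1 : t1 i = t1 j := congrArg Prod.fst hij
    have e2 : Ideal.Quotient.mk (Ideal.span {((9 : ℕ) : 𝓞 K')}) (δ i) =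
        Ideal.Quotient.mk _ (δ j) := congrArg (fun x => x.2.1) hij
    have e3 : ∀ q ∈ T, ty q (δ i) = ty q (δ j) := fun q hq =>
      congrFun (congrArg (fun x => x.2.2) hij) ⟨q, hq⟩
    obtain ⟨yi, hyi⟩ := hky i
    obtain ⟨yj, hyj⟩ := hky j
    have hkk := kum_mul hw hyi (kum_mul hw hyj hyj)
    refine kum_contra K hK hw T hT h3T hkk ?_ K' hK' (δ i * δ j ^ 2) ?_ ?_ ?_ ?_ ?_ ?_
    · by_contra hall
      push Not at hall
      apply hne
      apply Subtype.ext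
      apply eq_of_fix
      intro g
      rw [hL i g, hL j g]
      refine and_congr_right fun hg => ?_
      obtain ⟨ei, hei, hi⟩ := gg_kum (hk i) hg
      obtain ⟨ej, hej, hj⟩ := gg_kum (hk j) hg
      obtain ⟨e0, he0, h0⟩ := gg_kum (hk (ρ (t1 j))) hg
      have h1 := hall g hg
      rw [e1] at h1
      simp only [map_mul, map_pow] at h1
      rw [hi, hj, h0, gg_base hw (htm i) hg, gg_base hw (htm j) hg] at h1
      have hX : z i * z (ρ (t1 j)) ^ 2 * (t i : Ω) *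
          (z j * z (ρ (t1 j)) ^ 2 * (t j : Ω) * (z j * z (ρ (t1 j)) ^ 2 * (t j : Ω))) ≠ 0 := by
        have := hkk.1
        rwa [e1] at this
      have h2 : ei * ej ^ 2 * (e0 ^ 3) ^ 2 = 1 := by
        apply mul_right_cancel₀ hX
        linear_combination h1
      have h4 : ei = ej := by
        rw [he0] at h2
        linear_combination ej * h2 - ei * hej
      rw [hi, hj, h4]
      constructor
      · intro h
        have : ej = 1 := mul_right_cancel₀ (hk i).1 (by rw [h, one_mul])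
        rw [this, one_mul]
      · intro h
        have : ej = 1 := mul_right_cancel₀ (hk j).1 (by rw [h, one_mul])
        rw [this, one_mul]
    · have f1 := hδΩ i
      have f2 := hδΩ j
      push_cast
      rw [f1, f2]; ring
    · refine ⟨a i * a j ^ 2, ?_⟩
      rw [mul_pow, ← pow_mul, mul_comm 2 3, pow_mul, ha, ha, Ideal.span_singleton_pow,
        Ideal.span_singleton_mul_span_singleton]
    · exact (hc3 i).mul_left (hc3 j).pow_left
    · rw [Ideal.Quotient.eq, Ideal.mem_span_singleton'] at e2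
      obtain ⟨k, hk9⟩ := e2
      let w' : 𝓞 K' := ⟨⟨w, hwK'⟩, hint _ (w_int hw)⟩
      have hw' : ((w' : K') : Ω) = w := rfl
      refine ⟨δ j, k * δ j ^ 2 * (w' - w' ^ 2), ?_⟩
      have f1 : δ i * δ j ^ 2 - δ j ^ 3 = k * δ j ^ 2 * 9 := by
        have : (k * 9 : 𝓞 K') = δ i - δ j := by simpa using hk9
        linear_combination (-(δ j ^ 2)) * this
      rw [f1]
      have h9 : (((9 : 𝓞 K') : K') : Ω) = 9 := by
        rw [show ((9 : 𝓞 K') : K') = 9 from map_ofNat (algebraMap (𝓞 K') K') 9]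
        exact map_ofNat K'.val 9
      push_cast
      rw [hw', h9]
      linear_combination (-(((k : K') : Ω) * ((δ j : K') : Ω) ^ 2 *
        (w ^ 3 - 5 * w ^ 2 + 10 * w - 9))) * hw
    · intro q hq Q' hQ' ho hd
      rcases hQ'.mem_or_mem hd with h | h
      · exact hnot i q hq Q' hQ' ho h
      · exact hnot j q hq Q' hQ' ho (hQ'.mem_of_pow_mem 2 h)
    · intro q hq
      exact ⟨Q q, hQp q, hQo q, hty q _ _ (hnot i q hq _ (hQp q) (hQo q))
        (hnot j q hq _ (hQp q) (hQo q)) (e3 q hq)⟩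
  have hcard := Nat.card_le_card_of_injective F hF
  rw [Nat.card_eq_fintype_card, Fintype.card_coe, Nat.card_prod, Nat.card_prod] at hcard
  have c1 : Nat.card (S1 → ZMod 3) ≤ 3 ^ (6 * m.primeFactors.card) := by
    rw [Nat.card_eq_fintype_card, Fintype.card_fun, ZMod.card, Fintype.card_coe]
    exact Nat.pow_le_pow_right (by norm_num) (hS1.trans (Nat.mul_le_mul_right _ h6))
  have c3 : Nat.card (T → Fin 3) ≤ h3 K := by
    rw [Nat.card_eq_fintype_card, Fintype.card_fun, Fintype.card_fin, Fintype.card_coe]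
    exact hTc
  calc S.card ≤ _ := hcard
    _ ≤ 3 ^ (6 * m.primeFactors.card) * (3 ^ 12 * h3 K) :=
      Nat.mul_le_mul c1 (Nat.mul_le_mul hc9 c3)
    _ = 3 ^ (6 * m.primeFactors.card + 12) * h3 K := by rw [pow_add, mul_assoc]

end Pool.Agent.Lib.MP_af4c59_nt.K9
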