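import Pool.Agent.Lib.MP_af4c59_nt.K9Sys

/-!
The determinant of three points (part C3).
-/

set_option autoImplicit false

namespace Pool.Agent.Lib.MP_af4c59_nt.K9

open NumberField Module IsDedekindDomain

namespace GramAux

/-- Dyadic classes. -/
theorem dyadic {ε : ℝ} (hε : 0 < ε) : ∃ C : ℝ, 0 < C ∧ ∀ H : ℝ, 1 ≤ H → ∀ u : ℤ × ℤ → ℝ,
    ∃ (N : ℕ) (t : ℤ × ℤ → ℕ), (N : ℝ) ≤ C * H ^ ε ∧
      (∀ p, u p ≤ 4300 * H ^ 8 → t p < N) ∧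
      ∀ p q, 1 ≤ u p → t p = t q → u q ≤ 2 * u p := by
  refine ⟨8601 + 16 / ε, by positivity, fun H hH u => ?_⟩
  have hH0 : 0 < H := by linarith
  refine ⟨Nat.log 2 ⌊4300 * H ^ 8⌋₊ + 1, fun p => Nat.log 2 ⌊u p⌋₊, ?_, ?_, ?_⟩
  · have h8 : 1 ≤ H ^ 8 := one_le_pow₀ hH
    have hne : ⌊4300 * H ^ 8⌋₊ ≠ 0 := by
      have : 1 ≤ ⌊4300 * H ^ 8⌋₊ := Nat.le_floor (by push_cast; linarith)
      omega
    have h1 : ((2 : ℝ)) ^ (Nat.log 2 ⌊4300 * H ^ 8⌋₊) ≤ 4300 * H ^ 8 := by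
      have h2 : 2 ^ (Nat.log 2 ⌊4300 * H ^ 8⌋₊) ≤ ⌊4300 * H ^ 8⌋₊ := Nat.pow_log_le_self 2 hne
      have h3 : ((2 ^ (Nat.log 2 ⌊4300 * H ^ 8⌋₊) : ℕ) : ℝ) ≤ (⌊4300 * H ^ 8⌋₊ : ℝ) := by
        exact_mod_cast h2
      have h4 : (⌊4300 * H ^ 8⌋₊ : ℝ) ≤ 4300 * H ^ 8 := Nat.floor_le (by positivity)
      push_cast at h3
      linarith
    have h5 := Real.log_le_log (by positivity) h1
    rw [Real.log_pow, Real.log_mul (by norm_num) (by positivity), Real.log_pow] at h5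
    have h6 : Real.log 4300 ≤ 4300 := by
      have := Real.log_le_sub_one_of_pos (show (0 : ℝ) < 4300 by norm_num)
      linarith
    have h7 : Real.log H ≤ H ^ ε / ε := Real.log_le_rpow_div hH0.le hε
    have h9 : (1 : ℝ) / 2 ≤ Real.log 2 := by
      have := Real.log_two_gt_d9
      linarith
    have h10 : 1 ≤ H ^ ε := Real.one_le_rpow hH hε.le
    have h11 : (0 : ℝ) ≤ (Nat.log 2 ⌊4300 * H ^ 8⌋₊ : ℝ) := Nat.cast_nonneg _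
    have h12 : (8601 + 16 / ε) * H ^ ε = 8601 * H ^ ε + 16 * (H ^ ε / ε) := by ring
    have h13 := mul_le_mul_of_nonneg_left h9 h11
    push_cast at h5 ⊢
    rw [h12]
    linarith
  · intro p hp
    exact Nat.lt_succ_of_le (Nat.log_mono_right (Nat.floor_mono hp))
  · intro p q hp hpq
    have hne : ⌊u p⌋₊ ≠ 0 := by
      have : 1 ≤ ⌊u p⌋₊ := Nat.le_floor (by push_cast; linarith)
      omega
    have h2 : 2 ^ (Nat.log 2 ⌊u p⌋₊) ≤ ⌊u p⌋₊ := Nat.pow_log_le_self 2 hne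
    have h3 : ⌊u q⌋₊ < 2 ^ (Nat.log 2 ⌊u q⌋₊).succ := Nat.lt_pow_succ_log_self (by norm_num) _
    have hpq' : Nat.log 2 ⌊u p⌋₊ = Nat.log 2 ⌊u q⌋₊ := hpq
    rw [← hpq', Nat.pow_succ] at h3
    have h4 : ⌊u q⌋₊ + 1 ≤ 2 * ⌊u p⌋₊ := by omega
    have h5 : ((⌊u q⌋₊ : ℝ)) + 1 ≤ 2 * (⌊u p⌋₊ : ℝ) := by exact_mod_cast h4
    have h6 : u q < (⌊u q⌋₊ : ℝ) + 1 := Nat.lt_floor_add_one _
    have h7 : (⌊u p⌋₊ : ℝ) ≤ u p := Nat.floor_le (by linarith)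
    linarith

/-- The Gram determinant. -/
theorem gram_id {p0 p1 p2 q0 q1 q2 r0 r1 r2 d0 d1 d2 x y z : ℂ} (hV : d0 * d1 * d2 ≠ 0)
    (hpp : p0 * p0 * d0 + p1 * p1 * d1 + p2 * p2 * d2 = 0)
    (hqq : q0 * q0 * d0 + q1 * q1 * d1 + q2 * q2 * d2 = 0)
    (hrr : r0 * r0 * d0 + r1 * r1 * d1 + r2 * r2 * d2 = 0)
    (hpq : p0 * q0 * d0 + p1 * q1 * d1 + p2 * q2 * d2 = -x * (d0 * d1 * d2))
    (hpr : p0 * r0 * d0 + p1 * r1 * d1 + p2 * r2 * d2 = -y * (d0 * d1 * d2))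
    (hqr : q0 * r0 * d0 + q1 * r1 * d1 + q2 * r2 * d2 = -z * (d0 * d1 * d2)) :
    (p2 * (q0 * r1 - q1 * r0) - q2 * (p0 * r1 - p1 * r0) + r2 * (p0 * q1 - p1 * q0)) ^ 2 =
      -2 * (x * y * z) * (d0 * d1 * d2) ^ 2 := by
  have key : (p2 * (q0 * r1 - q1 * r0) - q2 * (p0 * r1 - p1 * r0) + r2 * (p0 * q1 - p1 * q0)) ^ 2 *
      (d0 * d1 * d2) =
      (p0 * p0 * d0 + p1 * p1 * d1 + p2 * p2 * d2) * (q0 * q0 * d0 + q1 * q1 * d1 + q2 * q2 * d2) *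
          (r0 * r0 * d0 + r1 * r1 * d1 + r2 * r2 * d2) +
        2 * (p0 * q0 * d0 + p1 * q1 * d1 + p2 * q2 * d2) *
          (p0 * r0 * d0 + p1 * r1 * d1 + p2 * r2 * d2) *
          (q0 * r0 * d0 + q1 * r1 * d1 + q2 * r2 * d2) -
        (p0 * p0 * d0 + p1 * p1 * d1 + p2 * p2 * d2) *
          (q0 * r0 * d0 + q1 * r1 * d1 + q2 * r2 * d2) ^ 2 -
        (q0 * q0 * d0 + q1 * q1 * d1 + q2 * q2 * d2) *
          (p0 * r0 * d0 + p1 * r1 * d1 + p2 * r2 * d2) ^ 2 -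
        (r0 * r0 * d0 + r1 * r1 * d1 + r2 * r2 * d2) *
          (p0 * q0 * d0 + p1 * q1 * d1 + p2 * q2 * d2) ^ 2 := by ring
  rw [hpp, hqq, hrr, hpq, hpr, hqr] at key
  apply mul_right_cancel₀ hV
  rw [key]
  ring

/-- A bound for a minor. -/
theorem minor_le {p0 p1 q0 q1 : ℂ} {K : ℝ} (hp : ‖p0 - p1‖ * ‖p0 + p1‖ ≤ K)
    (hq : ‖q0 - q1‖ * ‖q0 + q1‖ ≤ K) (h1 : ‖q0 + q1‖ ≤ 2 * ‖p0 + p1‖)
    (h2 : ‖p0 + p1‖ ≤ 2 * ‖q0 + q1‖) : ‖p0 * q1 - p1 * q0‖ ≤ 2 * K := by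
  have e : 2 * (p0 * q1 - p1 * q0) = (p0 - p1) * (q0 + q1) - (q0 - q1) * (p0 + p1) := by ring
  have h3 : ‖2 * (p0 * q1 - p1 * q0)‖ ≤ ‖p0 - p1‖ * ‖q0 + q1‖ + ‖q0 - q1‖ * ‖p0 + p1‖ := by
    rw [e]
    refine (norm_sub_le _ _).trans ?_
    rw [norm_mul, norm_mul]
  rw [norm_mul, Complex.norm_two] at h3
  have h4 := mul_le_mul_of_nonneg_left h1 (norm_nonneg (p0 - p1))
  have h5 := mul_le_mul_of_nonneg_left h2 (norm_nonneg (q0 - q1))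
  linarith

theorem cubic_le {x z : ℝ} (hz : 0 ≤ z) (h : x ^ 3 ≤ z * x ^ 2 + 72 * z ^ 2 * x + 496 * z ^ 3) :
    x ≤ 13 * z := by
  by_contra hc
  push Not at hc
  obtain ⟨d, hd, rfl⟩ : ∃ d : ℝ, 0 < d ∧ x = 13 * z + d := ⟨x - 13 * z, by linarith, by ring⟩
  have h1 : 0 < d ^ 3 := by positivity
  have h2 : 0 ≤ z * d ^ 2 := by positivity
  have h3 : 0 ≤ z ^ 2 * d := by positivity
  have h4 : 0 ≤ z ^ 3 := by positivity
  nlinarith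

/-- The size of a root. -/
theorem root_le {s n : ℤ} {t : ℂ} {M : ℝ} (hs : |(s : ℝ)| ≤ M) (hn : |(n : ℝ)| ≤ M)
    (h : t ^ 3 = (s : ℂ) ^ 2 * t ^ 2 + 72 * (s : ℂ) * (n : ℂ) ^ 3 * t -
      16 * (4 * (s : ℂ) ^ 3 * (n : ℂ) ^ 3 + 27 * (n : ℂ) ^ 6)) : ‖t‖ ≤ 13 * M ^ 2 := by
  have hM : 0 ≤ M := (abs_nonneg _).trans hs
  have hs' : ‖(s : ℂ)‖ ≤ M := by rw [Complex.norm_intCast]; exact hs
  have hn' : ‖(n : ℂ)‖ ≤ M := by rw [Complex.norm_intCast]; exact hn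
  apply cubic_le (by positivity)
  have h1 : ‖(s : ℂ) ^ 2 * t ^ 2‖ ≤ M ^ 2 * ‖t‖ ^ 2 := by
    rw [norm_mul, norm_pow, norm_pow]
    gcongr
  have h2 : ‖72 * (s : ℂ) * (n : ℂ) ^ 3 * t‖ ≤ 72 * M * M ^ 3 * ‖t‖ := by
    rw [norm_mul, norm_mul, norm_mul, norm_pow, Complex.norm_ofNat]
    gcongr
  have h3 : ‖4 * (s : ℂ) ^ 3 * (n : ℂ) ^ 3‖ ≤ 4 * M ^ 3 * M ^ 3 := by
    rw [norm_mul, norm_mul, norm_pow, norm_pow, Complex.norm_ofNat]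
    gcongr
  have h4 : ‖27 * (n : ℂ) ^ 6‖ ≤ 27 * M ^ 6 := by
    rw [norm_mul, norm_pow, Complex.norm_ofNat]
    gcongr
  have h5 : ‖16 * (4 * (s : ℂ) ^ 3 * (n : ℂ) ^ 3 + 27 * (n : ℂ) ^ 6)‖ ≤
      16 * (4 * M ^ 3 * M ^ 3 + 27 * M ^ 6) := by
    rw [norm_mul, Complex.norm_ofNat]
    have := norm_add_le (4 * (s : ℂ) ^ 3 * (n : ℂ) ^ 3) (27 * (n : ℂ) ^ 6)
    linarith
  have h6 : ‖t ^ 3‖ ≤ ‖(s : ℂ) ^ 2 * t ^ 2‖ + ‖72 * (s : ℂ) * (n : ℂ) ^ 3 * t‖ +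
      ‖16 * (4 * (s : ℂ) ^ 3 * (n : ℂ) ^ 3 + 27 * (n : ℂ) ^ 6)‖ := by
    rw [h]
    refine (norm_sub_le _ _).trans ?_
    have := norm_add_le ((s : ℂ) ^ 2 * t ^ 2) (72 * (s : ℂ) * (n : ℂ) ^ 3 * t)
    linarith
  rw [norm_pow] at h6
  have e1 : 72 * (M ^ 2) ^ 2 * ‖t‖ = 72 * M * M ^ 3 * ‖t‖ := by ring
  have e2 : 496 * (M ^ 2) ^ 3 = 16 * (4 * M ^ 3 * M ^ 3 + 27 * M ^ 6) := by ring
  linarith

theorem roots_le {s n : ℤ} {T : Fin 3 → ℂ} (hT : Roots s n T) {M : ℝ} (hs : |(s : ℝ)| ≤ M)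
    (hn : |(n : ℝ)| ≤ M) (a : Fin 3) : ‖T a‖ ≤ 13 * M ^ 2 := by
  apply root_le hs hn
  have e1 := hT.e1
  have e2 := hT.e2
  have e3 := hT.e3
  have h0 : (T a - T 0) * (T a - T 1) * (T a - T 2) = 0 := by
    fin_cases a <;> simp
  linear_combination h0 + (T a) ^ 2 * e1 - (T a) * e2 + e3

/-- The two invariants control the height. -/
theorem bezout (s n : ℤ) (h : (0 : ℝ) < max |(s : ℝ)| |(n : ℝ)|) :
    (max |(s : ℝ)| |(n : ℝ)|) ^ 4 ≤ 25 * |(PQ s n : ℝ)| + 244 * |(DD s n : ℝ)| := by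
  set M := max |(s : ℝ)| |(n : ℝ)| with hM
  have hs : |(s : ℝ)| ≤ M := le_max_left _ _
  have hn : |(n : ℝ)| ≤ M := le_max_right _ _
  have hP := abs_nonneg (PQ s n : ℝ)
  have hD := abs_nonneg (DD s n : ℝ)
  have hM3 : 0 < M ^ 3 := by positivity
  have hs3 : |(s : ℝ) ^ 3| ≤ M ^ 3 := by rw [abs_pow]; gcongr
  have hn3 : |(n : ℝ) ^ 3| ≤ M ^ 3 := by rw [abs_pow]; gcongr
  apply le_of_mul_le_mul_left _ hM3
  rcases max_choice |(s : ℝ)| |(n : ℝ)| with h1 | h1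
  · have e : (s : ℝ) ^ 7 = ((s : ℝ) ^ 3 - 24 * (n : ℝ) ^ 3) * (PQ s n : ℝ) -
        192 * ((s : ℝ) * (n : ℝ) ^ 2) * (DD s n : ℝ) := by
      simp only [PQ, DD]; push_cast; ring
    have h2 : M ^ 3 * M ^ 4 = |(s : ℝ) ^ 7| := by rw [abs_pow, ← h1, ← hM]; ring
    have h3 : |(s : ℝ) ^ 3 - 24 * (n : ℝ) ^ 3| ≤ 25 * M ^ 3 := by
      have := abs_sub ((s : ℝ) ^ 3) (24 * (n : ℝ) ^ 3)
      rw [abs_mul, abs_of_pos (show (0 : ℝ) < 24 by norm_num)] at this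
      linarith
    have h4 : |(s : ℝ) * (n : ℝ) ^ 2| ≤ M ^ 3 := by
      rw [abs_mul, abs_pow]
      calc |(s : ℝ)| * |(n : ℝ)| ^ 2 ≤ M * M ^ 2 := by gcongr
        _ = M ^ 3 := by ring
    have h5 := abs_sub (((s : ℝ) ^ 3 - 24 * (n : ℝ) ^ 3) * (PQ s n : ℝ))
      (192 * ((s : ℝ) * (n : ℝ) ^ 2) * (DD s n : ℝ))
    rw [← e, abs_mul, abs_mul, abs_mul, abs_of_pos (show (0 : ℝ) < 192 by norm_num)] at h5
    have h6 := mul_le_mul_of_nonneg_right h3 hP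
    have h7 := mul_le_mul_of_nonneg_right h4 hD
    have h8 := mul_nonneg hM3.le hD
    rw [h2]
    linarith
  · have e : 6561 * (n : ℝ) ^ 7 = ((s : ℝ) ^ 2 * (n : ℝ)) * (PQ s n : ℝ) -
        ((s : ℝ) ^ 3 + 243 * (n : ℝ) ^ 3) * (DD s n : ℝ) := by
      simp only [PQ, DD]; push_cast; ring
    have h2 : M ^ 3 * M ^ 4 = |(n : ℝ) ^ 7| := by rw [abs_pow, ← h1, ← hM]; ring
    have h3 : |(s : ℝ) ^ 3 + 243 * (n : ℝ) ^ 3| ≤ 244 * M ^ 3 := by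
      have := abs_add_le ((s : ℝ) ^ 3) (243 * (n : ℝ) ^ 3)
      rw [abs_mul, abs_of_pos (show (0 : ℝ) < 243 by norm_num)] at this
      linarith
    have h4 : |(s : ℝ) ^ 2 * (n : ℝ)| ≤ M ^ 3 := by
      rw [abs_mul, abs_pow]
      calc |(s : ℝ)| ^ 2 * |(n : ℝ)| ≤ M ^ 2 * M := by gcongr
        _ = M ^ 3 := by ring
    have h5 := abs_sub (((s : ℝ) ^ 2 * (n : ℝ)) * (PQ s n : ℝ))
      (((s : ℝ) ^ 3 + 243 * (n : ℝ) ^ 3) * (DD s n : ℝ))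
    rw [← e, abs_mul, abs_mul, abs_mul ((s : ℝ) ^ 3 + 243 * (n : ℝ) ^ 3),
      abs_of_pos (show (0 : ℝ) < 6561 by norm_num)] at h5
    have h6 := mul_le_mul_of_nonneg_right h3 hD
    have h7 := mul_le_mul_of_nonneg_right h4 hP
    have h8 := mul_nonneg hM3.le hP
    have h9 := abs_nonneg ((n : ℝ) ^ 7)
    rw [h2]
    linarith

/-- Facts about the gaps when the first two roots are the closest. -/
theorem gaps {s n : ℤ} {T : Fin 3 → ℂ} (hT : Roots s n T) (hD : DD s n ≠ 0)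
    (h1 : ‖T 0 - T 1‖ ≤ ‖T 0 - T 2‖) (h2 : ‖T 0 - T 1‖ ≤ ‖T 1 - T 2‖) :
    16 ≤ ‖T 0 - T 1‖ * (‖T 0 - T 2‖ * ‖T 1 - T 2‖) ∧
      (max |(s : ℝ)| |(n : ℝ)|) ^ 4 ≤ 307 * (‖T 0 - T 2‖ * ‖T 1 - T 2‖) := by
  obtain ⟨e1, e2⟩ := disc_roots hT
  have hn : n ≠ 0 := by
    rintro rfl
    simp [DD] at hD
  have hM : (0 : ℝ) < max |(s : ℝ)| |(n : ℝ)| :=
    lt_max_of_lt_right (abs_pos.2 (by exact_mod_cast hn))
  set k := ‖T 0 - T 1‖ with hk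
  set u := ‖T 0 - T 2‖ with hu
  set v := ‖T 1 - T 2‖ with hv
  have hk0 : 0 ≤ k := norm_nonneg _
  have hu0 : 0 ≤ u := norm_nonneg _
  have hv0 : 0 ≤ v := norm_nonneg _
  have hD1 : (1 : ℝ) ≤ |(DD s n : ℝ)| := by
    have : (1 : ℤ) ≤ |DD s n| := Int.one_le_abs hD
    exact_mod_cast this
  have f1 : (k * (u * v)) ^ 2 = 256 * |(DD s n : ℝ)| ^ 3 := by
    have := congrArg norm e1
    rw [norm_pow, norm_mul, norm_mul, norm_mul, norm_pow, Complex.norm_ofNat,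
      Complex.norm_intCast] at this
    rw [← this]; ring
  have f2 : 2 * |(PQ s n : ℝ)| ≤ k ^ 2 + u ^ 2 + v ^ 2 := by
    have h3 := congrArg norm e2
    rw [norm_mul, Complex.norm_two, Complex.norm_intCast] at h3
    rw [← h3]
    refine (norm_add_le _ _).trans ?_
    have := norm_add_le ((T 0 - T 1) ^ 2) ((T 0 - T 2) ^ 2)
    rw [norm_pow, norm_pow] at this
    rw [norm_pow]
    linarith
  have huv : u ≤ k + v := by
    have : T 0 - T 2 = (T 0 - T 1) + (T 1 - T 2) := by ring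
    rw [hu, this]; exact norm_add_le _ _
  have hvu : v ≤ k + u := by
    have : T 1 - T 2 = (T 0 - T 2) - (T 0 - T 1) := by ring
    rw [hv, this]
    have := norm_sub_le (T 0 - T 2) (T 0 - T 1)
    linarith
  have g1 : k ^ 2 ≤ u * v := by rw [sq]; exact mul_le_mul h1 h2 hk0 hu0
  have g2 : u ^ 2 ≤ 2 * (u * v) := by nlinarith
  have g3 : v ^ 2 ≤ 2 * (u * v) := by nlinarith
  have hm : 0 ≤ u * v := mul_nonneg hu0 hv0
  have g4 : |(DD s n : ℝ)| ≤ u * v := by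
    apply le_of_pow_le_pow_left₀ (n := 3) (by norm_num) hm
    have h3 : (k * (u * v)) ^ 2 ≤ (u * v) ^ 3 := by
      calc (k * (u * v)) ^ 2 = k ^ 2 * (u * v) ^ 2 := by ring
        _ ≤ (u * v) * (u * v) ^ 2 := by gcongr
        _ = (u * v) ^ 3 := by ring
    have h4 : 0 ≤ |(DD s n : ℝ)| ^ 3 := by positivity
    linarith
  constructor
  · apply le_of_pow_le_pow_left₀ (n := 2) (by norm_num) (by positivity)
    have : (1 : ℝ) ≤ |(DD s n : ℝ)| ^ 3 := one_le_pow₀ hD1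
    rw [f1]; linarith
  · have := bezout s n hM
    linarith

/-- Square roots compatible with the system. -/
theorem roots_exist {H : ℝ} {g s n : ℤ} {T : Fin 3 → ℂ} (hT : Roots s n T) {S : Finset (ℤ × ℤ)}
    (hS : ∀ p ∈ S, Box H g s n p) {c : ℤ × ℤ → ℤ × ℤ → Fin 3 → ℚ} (hc : Sys g T S c) :
    ∃ w : ℤ × ℤ → Fin 3 → ℂ, (∀ p ∈ S, ∀ a, w p a * w p a = eta g (T a) p) ∧
      ∀ p ∈ S, ∀ q ∈ S, ∀ a, w p a * w q a = ev (c p q) (T a) := by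
  rcases S.eq_empty_or_nonempty with rfl | ⟨o, ho⟩
  · exact ⟨fun _ _ => 0, by simp, by simp⟩
  have hne : ∀ a, eta g (T a) o ≠ 0 := by
    obtain ⟨-, -, -, -, e, w, -, -, hw, he⟩ := hS o ho
    have hG : Gf (g * s) (g * n) o.1 o.2 ≠ 0 := by
      intro h0
      rw [h0, mul_zero] at he
      exact hw (pow_eq_zero_iff (two_ne_zero) |>.1 he.symm)
    have h1 : eta g (T 0) o * eta g (T 1) o * eta g (T 2) o ≠ 0 := by
      rw [eta_prod hT o]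
      exact mul_ne_zero (by norm_num) (by exact_mod_cast hG)
    intro a h0
    apply h1
    fin_cases a
    · simp only [Fin.zero_eta] at h0; rw [h0]; ring
    · simp only [Fin.mk_one] at h0; rw [h0]; ring
    · simp only [Fin.reduceFinMk] at h0; rw [h0]; ring
  have hz : ∀ a, ∃ z : ℂ, z * z = eta g (T a) o := fun a => by
    obtain ⟨z, hz⟩ := IsAlgClosed.exists_eq_mul_self (eta g (T a) o)
    exact ⟨z, hz.symm⟩
  choose z hz using hz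
  have hz0 : ∀ a, z a ≠ 0 := fun a h0 => hne a (by rw [← hz a, h0, mul_zero])
  refine ⟨fun p a => ev (c p o) (T a) / z a, fun p hp a => ?_, fun p hp q hq a => ?_⟩
  · have h1 := hc.1 p hp o ho a
    rw [div_mul_div_comm, hz a, div_eq_iff (hne a), ← h1, sq]
  · have h1 := hc.2 p hp q hq o ho a
    rw [div_mul_div_comm, hz a, div_eq_iff (hne a), ← h1]

/-- The statement when the first two roots are the closest. -/
theorem core {ε : ℝ} (hε : 0 < ε) : ∃ C : ℝ, 0 < C ∧ ∀ (H : ℝ) (g s n : ℤ), Par H g s n →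
    ∀ T : Fin 3 → ℂ, Roots s n T → ‖T 0 - T 1‖ ≤ ‖T 0 - T 2‖ → ‖T 0 - T 1‖ ≤ ‖T 1 - T 2‖ →
    ∀ S : Finset (ℤ × ℤ), (∀ p ∈ S, Box H g s n p) →
      ∀ c, Sys g T S c → ∃ (N : ℕ) (t : ℤ × ℤ → ℕ), (N : ℝ) ≤ C * H ^ ε ∧ (∀ p ∈ S, t p < N) ∧
        ∀ p ∈ S, ∀ q ∈ S, ∀ r ∈ S, t p = t q → t p = t r →
          |((c p q 2 * c p r 2 * c q r 2 : ℚ) : ℝ)| * (max |(s : ℝ)| |(n : ℝ)|) ^ 8 ≤
            C * H ^ 8 * (g : ℝ) ^ 4 := by
  obtain ⟨C, hC, hdy⟩ := dyadic hε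
  refine ⟨C + 450 * 307 ^ 2, by positivity, ?_⟩
  intro H g s n hP T hT h01 h02 S hS c hc
  obtain ⟨hH, hg, -, hD, hgs, hgn⟩ := hP
  have hH0 : 0 < H := by linarith
  have hg1 : (1 : ℝ) ≤ g := by exact_mod_cast hg
  have hg0 : (0 : ℝ) < g := by linarith
  obtain ⟨w, hw1, hw2⟩ := roots_exist hT hS hc
  obtain ⟨hk1, hk2⟩ := gaps hT hD h01 h02
  set M := max |(s : ℝ)| |(n : ℝ)| with hM
  have hM0 : 0 ≤ M := (abs_nonneg _).trans (le_max_left _ _)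
  have hgM : (g : ℝ) * M ≤ H := by
    rcases max_choice |(s : ℝ)| |(n : ℝ)| with h | h <;> rw [hM, h] <;> assumption
  have hMH : M ≤ H := by nlinarith
  have hTle : ∀ a, ‖T a‖ ≤ 13 * M ^ 2 := roots_le hT (le_max_left _ _) (le_max_right _ _)
  set k := ‖T 0 - T 1‖ with hk
  set m := ‖T 0 - T 2‖ * ‖T 1 - T 2‖ with hm
  have hk0 : 0 ≤ k := norm_nonneg _
  have hm0 : 0 ≤ m := mul_nonneg (norm_nonneg _) (norm_nonneg _)
  have hkpos : 0 < k := by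
    rcases hk0.eq_or_lt with h | h
    · rw [← h] at hk1; linarith
    · exact h
  have hmle : m ≤ 676 * H ^ 4 := by
    have a1 : ‖T 0 - T 2‖ ≤ 26 * M ^ 2 := by
      have := norm_sub_le (T 0) (T 2); have := hTle 0; have := hTle 2; linarith
    have a2 : ‖T 1 - T 2‖ ≤ 26 * M ^ 2 := by
      have := norm_sub_le (T 1) (T 2); have := hTle 1; have := hTle 2; linarith
    calc m ≤ (26 * M ^ 2) * (26 * M ^ 2) := mul_le_mul a1 a2 (norm_nonneg _) (by positivity)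
      _ = 676 * M ^ 4 := by ring
      _ ≤ 676 * H ^ 4 := by gcongr
  have hkH : 1 ≤ 43 * H ^ 4 * k := by
    have := mul_le_mul_of_nonneg_left hmle hk0
    have h4 : 0 ≤ H ^ 4 * k := by positivity
    linarith
  -- sizes of the square roots
  have hwle : ∀ p ∈ S, ∀ a, ‖w p a‖ ≤ 5 * H ^ 2 := by
    intro p hp a
    obtain ⟨hx, hy, hy0, -⟩ := hS p hp
    have hy0' : (0 : ℝ) ≤ p.2 := by exact_mod_cast hy0.le
    apply le_of_pow_le_pow_left₀ (n := 2) (by norm_num) (by positivity)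
    have a1 : ‖w p a‖ ^ 2 = ‖eta g (T a) p‖ := by rw [← hw1 p hp a, norm_mul, sq]
    have a2 : ‖eta g (T a) p‖ ≤ 4 * |(p.1 : ℝ)| + (p.2 : ℝ) * (g : ℝ) ^ 2 * ‖T a‖ := by
      unfold eta
      refine (norm_sub_le _ _).trans ?_
      rw [norm_mul, norm_mul, norm_mul, norm_pow, Complex.norm_ofNat, Complex.norm_intCast,
        Complex.norm_intCast, Complex.norm_intCast, abs_of_nonneg hy0', abs_of_pos hg0]
    have a3 : (p.2 : ℝ) * (g : ℝ) ^ 2 * ‖T a‖ ≤ 13 * H ^ 4 := by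
      calc (p.2 : ℝ) * (g : ℝ) ^ 2 * ‖T a‖ ≤ H ^ 2 * (g : ℝ) ^ 2 * (13 * M ^ 2) := by
            have := hTle a
            gcongr
        _ = 13 * H ^ 2 * ((g : ℝ) * M) ^ 2 := by ring
        _ ≤ 13 * H ^ 2 * H ^ 2 := by gcongr
        _ = 13 * H ^ 4 := by ring
    have a4 : (5 * H ^ 2) ^ 2 = 25 * H ^ 4 := by ring
    have a5 : 0 ≤ H ^ 4 := by positivity
    linarith
  have hAB : ∀ p ∈ S, ‖w p 0 - w p 1‖ * ‖w p 0 + w p 1‖ = (p.2 : ℝ) * (g : ℝ) ^ 2 * k := by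
    intro p hp
    obtain ⟨-, -, hy0, -⟩ := hS p hp
    have hy0' : (0 : ℝ) ≤ p.2 := by exact_mod_cast hy0.le
    have a1 : (w p 0 - w p 1) * (w p 0 + w p 1) = -((p.2 : ℂ) * (g : ℂ) ^ 2 * (T 0 - T 1)) := by
      have b0 := hw1 p hp 0
      have b1 := hw1 p hp 1
      unfold eta at b0 b1
      linear_combination b0 - b1
    rw [← norm_mul, a1, norm_neg, norm_mul, norm_mul, norm_pow, Complex.norm_intCast,
      Complex.norm_intCast, abs_of_nonneg hy0', abs_of_pos hg0]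
  have hABle : ∀ p ∈ S, ‖w p 0 - w p 1‖ * ‖w p 0 + w p 1‖ ≤ H ^ 2 * (g : ℝ) ^ 2 * k := by
    intro p hp
    rw [hAB p hp]
    have := (hS p hp).2.1
    gcongr
  have hulo : ∀ p ∈ S, 1 ≤ 430 * H ^ 6 * ‖w p 0 + w p 1‖ := by
    intro p hp
    have hy1 : (1 : ℝ) ≤ p.2 := by exact_mod_cast (hS p hp).2.2.1
    have a1 : ‖w p 0 - w p 1‖ ≤ 10 * H ^ 2 := by
      have := norm_sub_le (w p 0) (w p 1); have := hwle p hp 0; have := hwle p hp 1; linarith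
    have a2 : k ≤ 10 * H ^ 2 * ‖w p 0 + w p 1‖ := by
      calc k = 1 * 1 ^ 2 * k := by ring
        _ ≤ (p.2 : ℝ) * (g : ℝ) ^ 2 * k := by gcongr
        _ = ‖w p 0 - w p 1‖ * ‖w p 0 + w p 1‖ := (hAB p hp).symm
        _ ≤ 10 * H ^ 2 * ‖w p 0 + w p 1‖ := by gcongr
    calc (1 : ℝ) ≤ 43 * H ^ 4 * k := hkH
      _ ≤ 43 * H ^ 4 * (10 * H ^ 2 * ‖w p 0 + w p 1‖) := by gcongr
      _ = 430 * H ^ 6 * ‖w p 0 + w p 1‖ := by ring
  have huhi : ∀ p ∈ S, 430 * H ^ 6 * ‖w p 0 + w p 1‖ ≤ 4300 * H ^ 8 := by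
    intro p hp
    have a1 : ‖w p 0 + w p 1‖ ≤ 10 * H ^ 2 := by
      have := norm_add_le (w p 0) (w p 1); have := hwle p hp 0; have := hwle p hp 1; linarith
    calc 430 * H ^ 6 * ‖w p 0 + w p 1‖ ≤ 430 * H ^ 6 * (10 * H ^ 2) := by gcongr
      _ = 4300 * H ^ 8 := by ring
  obtain ⟨N, t, hN, ht1, ht2⟩ := hdy H hH fun p => 430 * H ^ 6 * ‖w p 0 + w p 1‖
  have hB : ∀ p ∈ S, ∀ q, t p = t q → ‖w q 0 + w q 1‖ ≤ 2 * ‖w p 0 + w p 1‖ := by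
    intro p hp q hpq
    have a1 := ht2 p q (hulo p hp) hpq
    have a2 : 0 < 430 * H ^ 6 := by positivity
    apply le_of_mul_le_mul_left _ a2
    linarith
  have hmin : ∀ p ∈ S, ∀ q ∈ S, t p = t q →
      ‖w p 0 * w q 1 - w p 1 * w q 0‖ ≤ 2 * (H ^ 2 * (g : ℝ) ^ 2 * k) := fun p hp q hq hpq =>
    minor_le (hABle p hp) (hABle q hq) (hB p hp q hpq) (hB q hq p hpq.symm)
  have hdiag : ∀ p ∈ S, w p 0 * w p 0 * (T 1 - T 2) + w p 1 * w p 1 * (T 2 - T 0) +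
      w p 2 * w p 2 * (T 0 - T 1) = 0 := by
    intro p hp
    rw [hw1 p hp 0, hw1 p hp 1, hw1 p hp 2]
    unfold eta
    ring
  have hoff : ∀ p ∈ S, ∀ q ∈ S, w p 0 * w q 0 * (T 1 - T 2) + w p 1 * w q 1 * (T 2 - T 0) +
      w p 2 * w q 2 * (T 0 - T 1) =
        -(c p q 2 : ℂ) * ((T 1 - T 2) * (T 2 - T 0) * (T 0 - T 1)) := by
    intro p hp q hq
    rw [hw2 p hp q hq 0, hw2 p hp q hq 1, hw2 p hp q hq 2]
    unfold ev
    ring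
  have hVn : ‖(T 1 - T 2) * (T 2 - T 0) * (T 0 - T 1)‖ = k * m := by
    rw [norm_mul, norm_mul, norm_sub_rev (T 2) (T 0), hm, hk]; ring
  have hV : (T 1 - T 2) * (T 2 - T 0) * (T 0 - T 1) ≠ 0 := by
    intro h0
    rw [h0, norm_zero] at hVn
    linarith
  have hHe : 0 ≤ H ^ ε := by positivity
  refine ⟨N, t, hN.trans ?_, fun p hp => ht1 p (huhi p hp), ?_⟩
  · have : (0 : ℝ) ≤ 450 * 307 ^ 2 * H ^ ε := by positivity
    linarith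
  intro p hp q hq r hr hpq hpr
  have hid := gram_id hV (hdiag p hp) (hdiag q hq) (hdiag r hr) (hoff p hp q hq) (hoff p hp r hr)
    (hoff q hq r hr)
  have b1 := hmin q hq r hr (hpq.symm.trans hpr)
  have b2 := hmin p hp r hr hpr
  have b3 := hmin p hp q hq hpq
  set K := 2 * (H ^ 2 * (g : ℝ) ^ 2 * k) with hK
  have hK0 : 0 ≤ K := by positivity
  have hdet : ‖w p 2 * (w q 0 * w r 1 - w q 1 * w r 0) - w q 2 * (w p 0 * w r 1 - w p 1 * w r 0) +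
      w r 2 * (w p 0 * w q 1 - w p 1 * w q 0)‖ ≤ 3 * (5 * H ^ 2 * K) := by
    have a1 : ‖w p 2 * (w q 0 * w r 1 - w q 1 * w r 0)‖ ≤ 5 * H ^ 2 * K := by
      rw [norm_mul]; exact mul_le_mul (hwle p hp 2) b1 (norm_nonneg _) (by positivity)
    have a2 : ‖w q 2 * (w p 0 * w r 1 - w p 1 * w r 0)‖ ≤ 5 * H ^ 2 * K := by
      rw [norm_mul]; exact mul_le_mul (hwle q hq 2) b2 (norm_nonneg _) (by positivity)
    have a3 : ‖w r 2 * (w p 0 * w q 1 - w p 1 * w q 0)‖ ≤ 5 * H ^ 2 * K := by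
      rw [norm_mul]; exact mul_le_mul (hwle r hr 2) b3 (norm_nonneg _) (by positivity)
    refine (norm_add_le _ _).trans ?_
    have := norm_sub_le (w p 2 * (w q 0 * w r 1 - w q 1 * w r 0))
      (w q 2 * (w p 0 * w r 1 - w p 1 * w r 0))
    linarith
  set X := |((c p q 2 * c p r 2 * c q r 2 : ℚ) : ℝ)| with hX
  have hX0 : 0 ≤ X := abs_nonneg _
  have hXn : ‖(c p q 2 : ℂ) * (c p r 2 : ℂ) * (c q r 2 : ℂ)‖ = X := by
    rw [hX, ← Complex.norm_ratCast]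
    push_cast
    rfl
  have hsq : 2 * X * (k * m) ^ 2 ≤ (3 * (5 * H ^ 2 * K)) ^ 2 := by
    have a1 := congrArg norm hid
    rw [norm_pow, norm_mul (-2 * _), norm_mul (-2), norm_pow, hVn, hXn, norm_neg,
      Complex.norm_two] at a1
    rw [← a1]
    gcongr
  have hXm : X * m ^ 2 ≤ 450 * H ^ 8 * (g : ℝ) ^ 4 := by
    have a1 : 0 < 2 * k ^ 2 := by positivity
    apply le_of_mul_le_mul_left _ a1
    calc 2 * k ^ 2 * (X * m ^ 2) = 2 * X * (k * m) ^ 2 := by ring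
      _ ≤ (3 * (5 * H ^ 2 * K)) ^ 2 := hsq
      _ = 2 * k ^ 2 * (450 * H ^ 8 * (g : ℝ) ^ 4) := by rw [hK]; ring
  have hCH : 0 ≤ C * H ^ 8 * (g : ℝ) ^ 4 := by positivity
  calc X * M ^ 8 = X * (M ^ 4) ^ 2 := by ring
    _ ≤ X * (307 * m) ^ 2 := by gcongr
    _ = 307 ^ 2 * (X * m ^ 2) := by ring
    _ ≤ 307 ^ 2 * (450 * H ^ 8 * (g : ℝ) ^ 4) := by gcongr
    _ ≤ (C + 450 * 307 ^ 2) * H ^ 8 * (g : ℝ) ^ 4 := by linarith

theorem sys_comp {g : ℤ} {T : Fin 3 → ℂ} {S : Finset (ℤ × ℤ)}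
    {c : ℤ × ℤ → ℤ × ℤ → Fin 3 → ℚ} (hc : Sys g T S c) (σ : Fin 3 → Fin 3) :
    Sys g (fun a => T (σ a)) S c :=
  ⟨fun p hp q hq a => hc.1 p hp q hq (σ a), fun p hp q hq r hr a => hc.2 p hp q hq r hr (σ a)⟩

end GramAux

theorem gram_types {ε : ℝ} (hε : 0 < ε) : ∃ C : ℝ, 0 < C ∧ ∀ (H : ℝ) (g s n : ℤ), Par H g s n →
    ∀ T : Fin 3 → ℂ, Roots s n T → ∀ S : Finset (ℤ × ℤ), (∀ p ∈ S, Box H g s n p) →
      ∀ c, Sys g T S c → ∃ (N : ℕ) (t : ℤ × ℤ → ℕ), (N : ℝ) ≤ C * H ^ ε ∧ (∀ p ∈ S, t p < N) ∧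
        ∀ p ∈ S, ∀ q ∈ S, ∀ r ∈ S, t p = t q → t p = t r →
          |((c p q 2 * c p r 2 * c q r 2 : ℚ) : ℝ)| * (max |(s : ℝ)| |(n : ℝ)|) ^ 8 ≤
            C * H ^ 8 * (g : ℝ) ^ 4 := by
  obtain ⟨C, hC, h⟩ := GramAux.core hε
  refine ⟨C, hC, fun H g s n hP T hT S hS c hc => ?_⟩
  have e1 := hT.e1
  have e2 := hT.e2
  have e3 := hT.e3
  have caseB : ‖T 0 - T 2‖ ≤ ‖T 0 - T 1‖ → ‖T 0 - T 2‖ ≤ ‖T 1 - T 2‖ → _ := fun h1 h2 =>
    h H g s n hP (fun a => T (![0, 2, 1] a))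
      ⟨by simp only [Matrix.cons_val]; linear_combination e1,
        by simp only [Matrix.cons_val]; linear_combination e2,
        by simp only [Matrix.cons_val]; linear_combination e3⟩
      (by simpa only [Matrix.cons_val] using h1)
      (by simp only [Matrix.cons_val]; rw [norm_sub_rev (T 2) (T 1)]; exact h2)
      S hS c (GramAux.sys_comp hc _)
  have caseC : ‖T 1 - T 2‖ ≤ ‖T 0 - T 1‖ → ‖T 1 - T 2‖ ≤ ‖T 0 - T 2‖ → _ := fun h1 h2 =>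
    h H g s n hP (fun a => T (![1, 2, 0] a))
      ⟨by simp only [Matrix.cons_val]; linear_combination e1,
        by simp only [Matrix.cons_val]; linear_combination e2,
        by simp only [Matrix.cons_val]; linear_combination e3⟩
      (by simp only [Matrix.cons_val]; rw [norm_sub_rev (T 1) (T 0)]; exact h1)
      (by simp only [Matrix.cons_val]; rw [norm_sub_rev (T 2) (T 0)]; exact h2)
      S hS c (GramAux.sys_comp hc _)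
  rcases le_total ‖T 0 - T 1‖ ‖T 0 - T 2‖ with h1 | h1
  · rcases le_total ‖T 0 - T 1‖ ‖T 1 - T 2‖ with h2 | h2
    · exact h H g s n hP T hT h1 h2 S hS c hc
    · exact caseC h2 (h2.trans h1)
  · rcases le_total ‖T 0 - T 2‖ ‖T 1 - T 2‖ with h2 | h2
    · exact caseB h1 h2
    · exact caseC (h2.trans h1) h2

end Pool.Agent.Lib.MP_af4c59_nt.K9
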