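import Pool.Agent.Lib.MP_af4c59_nt.K9Defs

/-!
The group and the embeddings (part A1).
-/

set_option autoImplicit false

namespace Pool.Agent.Lib.MP_af4c59_nt.K9

open NumberField Module IsDedekindDomain

namespace GrpAux

/-- The permutation of nine points attached to a permutation of the blocks and three shifts. -/
def mk (π : Equiv.Perm (Fin 3)) (v : Fin 3 → Fin 3) : Equiv.Perm (Fin 9) :=
  (finProdFinEquiv (m := 3) (n := 3)).permCongr (Equiv.prodShear π fun i => Equiv.addRight (v i))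

lemma mk_apply (π : Equiv.Perm (Fin 3)) (v : Fin 3 → Fin 3) (i a : Fin 3) :
    mk π v (finProdFinEquiv (i, a)) = finProdFinEquiv (π i, a + v i) := by
  have h : ∀ x : Fin 3 × Fin 3, (finProdFinEquiv (m := 3) (n := 3)).permCongr
      (Equiv.prodShear π fun i => Equiv.addRight (v i)) (finProdFinEquiv x) =
      finProdFinEquiv (π x.1, x.2 + v x.1) := fun x => by
    rw [Equiv.permCongr_apply, Equiv.symm_apply_apply]
    rfl
  exact h (i, a)

lemma eq_mk {τ : Equiv.Perm (Fin 9)} {π : Equiv.Perm (Fin 3)} {v : Fin 3 → Fin 3}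
    (h : ∀ i a : Fin 3, τ (finProdFinEquiv (i, a)) = finProdFinEquiv (π i, a + v i)) :
    τ = mk π v := by
  refine Equiv.ext fun x => ?_
  obtain ⟨⟨i, a⟩, rfl⟩ := (finProdFinEquiv (m := 3) (n := 3)).surjective x
  exact (h i a).trans (mk_apply π v i a).symm

lemma sum_comp (π : Equiv.Perm (Fin 3)) (v : Fin 3 → Fin 3) :
    v (π 0) + v (π 1) + v (π 2) = v 0 + v 1 + v 2 := by
  have h := Equiv.sum_comp π v
  simpa only [Fin.sum_univ_three] using h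

lemma one : InG 1 := ⟨1, 0, by simp, fun i a => by simp⟩

lemma mul {σ τ : Equiv.Perm (Fin 9)} (hσ : InG σ) (hτ : InG τ) : InG (σ * τ) := by
  obtain ⟨π, v, hv, h⟩ := hσ
  obtain ⟨ρ, w, hw, h'⟩ := hτ
  refine ⟨π * ρ, fun i => w i + v (ρ i), ?_, fun i a => ?_⟩
  · have := sum_comp ρ v
    calc w 0 + v (ρ 0) + (w 1 + v (ρ 1)) + (w 2 + v (ρ 2))
        = (w 0 + w 1 + w 2) + (v (ρ 0) + v (ρ 1) + v (ρ 2)) := by abel
      _ = 0 := by rw [this, hv, hw, add_zero]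
  · exact (congrArg σ (h' i a)).trans ((h _ _).trans (by rw [add_assoc]; rfl))

lemma inv {τ : Equiv.Perm (Fin 9)} (hτ : InG τ) : InG τ⁻¹ := by
  obtain ⟨π, v, hv, h⟩ := hτ
  refine ⟨π⁻¹, fun i => -v (π⁻¹ i), ?_, fun i a => ?_⟩
  · have := sum_comp π⁻¹ v
    calc -v (π⁻¹ 0) + -v (π⁻¹ 1) + -v (π⁻¹ 2) = -(v (π⁻¹ 0) + v (π⁻¹ 1) + v (π⁻¹ 2)) := by abel
      _ = 0 := by rw [this, hv, neg_zero]
  · refine Equiv.Perm.inv_eq_iff_eq.2 (Eq.symm ((h _ _).trans ?_))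
    simp

lemma ind : ∀ (π : Equiv.Perm (Fin 3)) (a b c : Fin 3), a + b + c = 0 → mk π ![a, b, c] ≠ 1 →
    3 ≤ (mk π ![a, b, c]).cycleType.sum - Multiset.card (mk π ![a, b, c]).cycleType := by
  decide +kernel

end GrpAux

open GrpAux

theorem exists_G : ∃ G : Subgroup (Equiv.Perm (Fin 9)), (∀ τ, τ ∈ G ↔ InG τ) ∧
    IsLeast {k : ℕ | ∃ g ∈ G, g ≠ 1 ∧ k = g.cycleType.sum - Multiset.card g.cycleType} 3 := by
  refine ⟨⟨⟨⟨{τ | InG τ}, GrpAux.mul⟩, GrpAux.one⟩, GrpAux.inv⟩, fun _ => Iff.rfl, ?_, ?_⟩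
  · exact ⟨mk (Equiv.swap 1 2) 0, ⟨_, 0, by simp, mk_apply _ _⟩, by decide +kernel,
      by decide +kernel⟩
  · rintro m ⟨g, ⟨π, v, hv, h⟩, hg1, rfl⟩
    have hv' : v = ![v 0, v 1, v 2] := by
      ext i
      fin_cases i <;> rfl
    have hg := eq_mk h
    rw [hv'] at hg
    rw [hg] at hg1 ⊢
    exact ind π _ _ _ hv hg1

theorem exists_emb {G : Subgroup (Equiv.Perm (Fin 9))} (hG : ∀ τ, τ ∈ G ↔ InG τ)
    {L : IntermediateField ℚ Ω} (h : HasGal 9 G L) : ∃ φ, Emb L φ := by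
  obtain ⟨e, he⟩ := h
  obtain ⟨⟨i0, a0⟩, h0⟩ := (finProdFinEquiv (m := 3) (n := 3)).surjective (e L.val)
  let τ0 : Equiv.Perm (Fin 9) := mk (Equiv.swap 0 i0) ![a0, -a0, 0]
  have hτ0 : InG τ0 := ⟨_, _, by simp, mk_apply _ _⟩
  refine ⟨fun i a => e.symm (τ0 (finProdFinEquiv (i, a))), ?_, fun x => ?_, fun g => ?_⟩
  · exact ((finProdFinEquiv (m := 3) (n := 3)).trans (τ0.trans e.symm)).bijective
  · have h1 : τ0 (finProdFinEquiv ((0 : Fin 3), (0 : Fin 3))) = e L.val := by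
      refine (mk_apply _ _ _ _).trans (Eq.trans ?_ h0)
      simp
    simp only [h1, Equiv.symm_apply_apply]
    rfl
  · let c : Equiv.Perm (L →ₐ[ℚ] Ω) :=
      ⟨fun φ => g.toAlgHom.comp φ, fun φ => g.symm.toAlgHom.comp φ,
        fun φ => AlgHom.ext fun x => g.symm_apply_apply _,
        fun φ => AlgHom.ext fun x => g.apply_symm_apply _⟩
    have hc : ∀ φ, e.permCongr c (e φ) = e (g.toAlgHom.comp φ) := fun φ => by
      rw [Equiv.permCongr_apply, Equiv.symm_apply_apply]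
      rfl
    have hτ : InG (e.permCongr c) := (hG _).1 ((he _).2 ⟨g, hc⟩)
    obtain ⟨π, v, hv, h1⟩ := GrpAux.mul (GrpAux.inv hτ0) (GrpAux.mul hτ hτ0)
    refine ⟨π, v, hv, fun i a x => ?_⟩
    have h2 : e.permCongr c (τ0 (finProdFinEquiv (i, a))) =
        τ0 (finProdFinEquiv (π i, a + v i)) := Equiv.Perm.inv_eq_iff_eq.1 (h1 i a)
    have h3 := hc (e.symm (τ0 (finProdFinEquiv (i, a))))
    rw [Equiv.apply_symm_apply, h2] at h3
    rw [h3, Equiv.symm_apply_apply]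
    rfl

end Pool.Agent.Lib.MP_af4c59_nt.K9
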