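import Pool.Agent.Lib.MP_af4c59_nt.K9Defs
import Pool.Agent.Lib.MP_af4c59_nt.H32Ram
import Pool.Agent.Lib.MP_af4c59_nt.H32Tor

/-!
Lemmas on ideals, cubes and residues.
-/

set_option autoImplicit false

namespace Pool.Agent.Lib.MP_af4c59_nt.K9

open NumberField Module IsDedekindDomain

theorem cube_of_mult {R : Type} [CommRing R] [IsDedekindDomain R] (J : Ideal R) (hJ : J ≠ ⊥)
    (h : ∀ P : HeightOneSpectrum R, 3 ∣ multiplicity P.asIdeal J) : ∃ a : Ideal R, a ^ 3 = J := by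
  classical
  have h2 : ∀ a ∈ UniqueFactorizationMonoid.normalizedFactors J,
      3 ∣ Multiset.count a (UniqueFactorizationMonoid.normalizedFactors J) := by
    intro a ha
    have hp : Prime a := UniqueFactorizationMonoid.prime_of_normalized_factor a ha
    have := h ⟨a, Ideal.isPrime_of_prime hp, hp.ne_zero⟩
    rwa [UniqueFactorizationMonoid.multiplicity_eq_count_normalizedFactors hp.irreducible hJ,
      normalize_eq] at this
  obtain ⟨u, hu⟩ := Multiset.exists_smul_of_dvd_count _ h2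
  refine ⟨u.prod, ?_⟩
  rw [← Multiset.prod_nsmul, ← hu, Ideal.prod_normalizedFactors_eq_self hJ]

theorem three_dvd_mult (K M : Type) [Field K] [NumberField K] [Field M] [NumberField M]
    [Algebra K M] (p : ℕ) (hp : p.Prime) (h : ¬ (p : ℤ) ∣ discr M) (δ : 𝓞 K) (hδ : δ ≠ 0)
    (y : M) (hy : y ^ 3 = algebraMap K M (δ : K)) (P : HeightOneSpectrum (𝓞 K))
    (hP : (p : 𝓞 K) ∈ P.asIdeal) : 3 ∣ multiplicity P.asIdeal (Ideal.span {δ}) := by
  have hp' : Prime (p : ℤ) := Nat.prime_iff_prime_int.mp hp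
  have hyint : IsIntegral ℤ y := by
    refine IsIntegral.of_pow (n := 3) (by norm_num) ?_
    rw [hy]
    exact (δ.isIntegral_coe).map (algebraMap K M).toIntAlgHom
  let y' : 𝓞 M := ⟨y, hyint⟩
  have hy' : y' ^ 3 = algebraMap (𝓞 K) (𝓞 M) δ := by
    apply RingOfIntegers.ext
    exact hy
  have hPp := P.isPrime
  have hPm := P.isMaximal
  obtain ⟨Q, hQm, hQl⟩ := Ideal.exists_maximal_ideal_liesOver_of_isIntegral (S := 𝓞 M) P.asIdeal
  have hQp := hQm.isPrime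
  have hQ0 : Q ≠ ⊥ := Ideal.ne_bot_of_liesOver_of_ne_bot P.ne_bot Q
  have hpQ : ((p : ℤ) : 𝓞 M) ∈ Q := by
    have h1 : (p : 𝓞 K) ∈ Q.under (𝓞 K) := hQl.over ▸ hP
    rw [Ideal.under_def, Ideal.mem_comap] at h1
    simpa using h1
  have hu : Algebra.IsUnramifiedAt ℤ Q :=
    (not_dvd_discr_iff_forall_mem M (𝓞 M) hp').mp h Q hQp hpQ
  have hu' : Algebra.IsUnramifiedAt (𝓞 K) Q := Algebra.IsUnramifiedAt.of_restrictScalars ℤ Q
  have he : P.asIdeal.ramificationIdx' Q = 1 := by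
    rw [Ideal.ramificationIdx'_eq_ramificationIdx P.asIdeal Q P.ne_bot]
    exact Ideal.ramificationIdx_eq_one Q (𝓞 K)
  have hI : (Ideal.span {δ} : Ideal (𝓞 K)) ≠ ⊥ := Ideal.span_singleton_eq_bot.not.mpr hδ
  have hQpr : Prime Q := Ideal.prime_of_isPrime hQ0 hQp
  have hm := Ideal.IsDedekindDomain.emultiplicity_map_eq_ramificationIdx'_mul (S := 𝓞 M)
    (v := P.asIdeal) (w := Q) hI P.irreducible hQpr.irreducible hQ0
  rw [he, Nat.cast_one, one_mul, Ideal.map_span, Set.image_singleton, ← hy',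
    ← Ideal.span_singleton_pow, emultiplicity_pow hQpr] at hm
  have hy0 : y' ≠ 0 := by
    intro h0
    rw [h0] at hy'
    apply hδ
    apply FaithfulSMul.algebraMap_injective (𝓞 K) (𝓞 M)
    rw [← hy']
    simp
  have hf1 : FiniteMultiplicity Q (Ideal.span {y'}) :=
    FiniteMultiplicity.of_prime_left hQpr (Ideal.span_singleton_eq_bot.not.mpr hy0)
  have hf2 : FiniteMultiplicity P.asIdeal (Ideal.span {δ}) :=
    FiniteMultiplicity.of_prime_left P.prime hI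
  rw [hf1.emultiplicity_eq_multiplicity, hf2.emultiplicity_eq_multiplicity] at hm
  have hm' : 3 * multiplicity Q (Ideal.span {y'}) = multiplicity P.asIdeal (Ideal.span {δ}) := by
    exact_mod_cast hm
  exact ⟨_, hm'.symm⟩

theorem rescale {K : Type} [Field K] [NumberField K] {k : ℕ} (hk : k ≠ 0) {γ : 𝓞 K} (hγ : γ ≠ 0)
    {a : Ideal (𝓞 K)} (ha : a ^ k = Ideal.span {γ}) {m : Ideal (𝓞 K)} (hm : m ≠ ⊥) :
    ∃ (t : K) (γ' : 𝓞 K) (a' : Ideal (𝓞 K)), t ≠ 0 ∧ (γ' : K) = γ * t ^ k ∧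
      a' ^ k = Ideal.span {γ'} ∧ a' ⊔ m = ⊤ := by
  by_cases hmt : m = ⊤
  · exact ⟨1, γ, a, one_ne_zero, by simp, ha, by simp [hmt]⟩
  have ha0 : a ≠ ⊥ := by
    rintro rfl
    rw [← Ideal.zero_eq_bot, zero_pow hk, Ideal.zero_eq_bot] at ha
    exact hγ (Ideal.span_singleton_eq_bot.mp ha.symm)
  obtain ⟨x, hxa, hx0⟩ := Submodule.exists_mem_ne_zero_of_ne_bot ha0
  obtain ⟨b, hb⟩ : a ∣ Ideal.span {x} :=
    Ideal.dvd_iff_le.mpr ((Ideal.span_singleton_le_iff_mem a).mpr hxa)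
  have hx1 : (Ideal.span {x} : Ideal (𝓞 K)) ≠ ⊥ := Ideal.span_singleton_eq_bot.not.mpr hx0
  have hb0 : b ≠ ⊥ := by
    rintro rfl
    exact hx1 (by simpa using hb)
  have hbm : b * m ≠ 0 := mul_ne_zero hb0 hm
  obtain ⟨y, hy⟩ := IsDedekindDomain.exists_sup_span_eq (I := b * m) (J := b)
    Ideal.mul_le_left hbm
  obtain ⟨a', ha'⟩ : b ∣ Ideal.span {y} := Ideal.dvd_iff_le.mpr (hy ▸ le_sup_right)
  have hcop : a' ⊔ m = ⊤ := by
    have h1 : b * (a' ⊔ m) = b * 1 := by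
      rw [Ideal.mul_sup, ← ha', sup_comm, hy, mul_one]
    have h2 := mul_left_cancel₀ (show b ≠ 0 from hb0) h1
    simpa using h2
  have hy0 : y ≠ 0 := by
    rintro rfl
    have h1 : b * a' = 0 := by
      rw [← ha']
      simp
    rcases mul_eq_zero.mp h1 with h | h
    · exact hb0 h
    · rw [h] at hcop
      exact hmt (by simpa using hcop)
  have hrel : Ideal.span {x ^ k} * a' ^ k = Ideal.span {γ * y ^ k} := by
    rw [← Ideal.span_singleton_mul_span_singleton, ← Ideal.span_singleton_pow,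
      ← Ideal.span_singleton_pow, ← ha, hb, ha']
    ring
  obtain ⟨γ', hγ'⟩ : x ^ k ∣ γ * y ^ k := by
    rw [← Ideal.span_singleton_le_span_singleton, ← hrel]
    exact Ideal.mul_le_left
  have hxK : (x : K) ≠ 0 := by simpa using hx0
  have hyK : (y : K) ≠ 0 := by simpa using hy0
  refine ⟨(y : K) / x, γ', a', div_ne_zero hyK hxK, ?_, ?_, hcop⟩
  · have h1 : (γ : K) * (y : K) ^ k = (x : K) ^ k * γ' := by
      have := congrArg (algebraMap (𝓞 K) K) hγ'
      simpa using this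
    rw [div_pow, ← mul_div_assoc, h1, eq_div_iff (pow_ne_zero _ hxK), mul_comm]
  · rw [hγ', ← Ideal.span_singleton_mul_span_singleton] at hrel
    refine mul_left_cancel₀ ?_ hrel
    exact Ideal.span_singleton_eq_bot.not.mpr (pow_ne_zero _ hx0)

theorem cube_types {K : Type} [Field K] [NumberField K] (Q : Ideal (𝓞 K)) (hQ : Q.IsPrime)
    (h0 : Q ≠ ⊥) : ∃ t : 𝓞 K → Fin 3, ∀ x y : 𝓞 K, x ∉ Q → y ∉ Q → t x = t y →
      ∃ c : 𝓞 K, x * y ^ 2 - c ^ 3 ∈ Q := by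
  classical
  have hmax : Q.IsMaximal := hQ.isMaximal h0
  have hfin : Finite (𝓞 K ⧸ Q) := Ideal.finiteQuotientOfFreeOfNeBot Q h0
  let _ : Field (𝓞 K ⧸ Q) := Ideal.Quotient.field Q
  obtain ⟨g, hg⟩ := IsCyclic.exists_monoid_generator (α := (𝓞 K ⧸ Q)ˣ)
  have hex : ∀ z : 𝓞 K ⧸ Q, ∃ n : ℕ, z ≠ 0 → (g : 𝓞 K ⧸ Q) ^ n = z := by
    intro z
    by_cases hz : z = 0
    · exact ⟨0, fun h => absurd hz h⟩
    · obtain ⟨n, hn⟩ := hg (Units.mk0 z hz)
      refine ⟨n, fun _ => ?_⟩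
      have := congrArg (fun u : (𝓞 K ⧸ Q)ˣ => (u : 𝓞 K ⧸ Q)) hn
      simpa using this
  choose n hn using hex
  refine ⟨fun x => ⟨n (Ideal.Quotient.mk Q x) % 3, Nat.mod_lt _ (by norm_num)⟩, ?_⟩
  intro x y hx hy hxy
  have hx' : Ideal.Quotient.mk Q x ≠ 0 := fun h => hx (Ideal.Quotient.eq_zero_iff_mem.mp h)
  have hy' : Ideal.Quotient.mk Q y ≠ 0 := fun h => hy (Ideal.Quotient.eq_zero_iff_mem.mp h)
  have hmod : n (Ideal.Quotient.mk Q x) % 3 = n (Ideal.Quotient.mk Q y) % 3 :=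
    congrArg Fin.val hxy
  obtain ⟨j, hj⟩ : ∃ j : ℕ, n (Ideal.Quotient.mk Q x) + n (Ideal.Quotient.mk Q y) * 2 = j * 3 :=
    ⟨(n (Ideal.Quotient.mk Q x) + n (Ideal.Quotient.mk Q y) * 2) / 3, by omega⟩
  obtain ⟨c, hc⟩ := Ideal.Quotient.mk_surjective ((g : 𝓞 K ⧸ Q) ^ j)
  refine ⟨c, ?_⟩
  rw [← Ideal.Quotient.eq, map_mul, map_pow, map_pow, hc, ← pow_mul, ← hj, pow_add, pow_mul,
    hn _ hx', hn _ hy']

theorem primes_le {K : Type} [Field K] [NumberField K] (m : ℕ) (hm : m ≠ 0) :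
    ∃ S : Finset (HeightOneSpectrum (𝓞 K)), S.card ≤ finrank ℚ K * m.primeFactors.card ∧
      ∀ P : HeightOneSpectrum (𝓞 K), (m : 𝓞 K) ∈ P.asIdeal → P ∈ S := by
  classical
  have hinj : Function.Injective (fun P : HeightOneSpectrum (𝓞 K) => P.asIdeal) :=
    fun P P' h => HeightOneSpectrum.ext h
  let S0 : Finset (Ideal (𝓞 K)) := m.primeFactors.biUnion
    (fun p => IsDedekindDomain.primesOverFinset (Ideal.span {(p : ℤ)}) (𝓞 K))
  refine ⟨S0.preimage (fun P : HeightOneSpectrum (𝓞 K) => P.asIdeal) hinj.injOn, ?_, ?_⟩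
  · refine le_trans (b := S0.card) ?_ ?_
    · refine Finset.card_le_card_of_injOn (fun P => P.asIdeal) ?_ hinj.injOn
      intro P hP
      simpa using hP
    · rw [mul_comm]
      refine Finset.card_biUnion_le_card_mul _ _ _ ?_
      intro p hp
      have hp' : p.Prime := Nat.prime_of_mem_primeFactors hp
      have hq : Prime (p : ℤ) := Nat.prime_iff_prime_int.mp hp'
      have : (Ideal.span {(p : ℤ)}).IsMaximal :=
        PrincipalIdealRing.isMaximal_of_irreducible hq.irreducible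
      have h0 : Ideal.span {(p : ℤ)} ≠ ⊥ := by simpa using hp'.ne_zero
      exact Ideal.card_primesOverFinset_le_finrank (𝓞 K) ℚ K h0
  · intro P hP
    rw [Finset.mem_preimage]
    obtain ⟨p, hp, hd, hmem⟩ := H32.Tor.exists_prime_mem P.asIdeal P.isPrime m hm hP
    have hq : Prime (p : ℤ) := Nat.prime_iff_prime_int.mp hp
    have hmax : (Ideal.span {(p : ℤ)}).IsMaximal :=
      PrincipalIdealRing.isMaximal_of_irreducible hq.irreducible
    have h0 : Ideal.span {(p : ℤ)} ≠ ⊥ := by simpa using hp.ne_zero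
    refine Finset.mem_biUnion.mpr ⟨p, Nat.mem_primeFactors.mpr ⟨hp, hd, hm⟩, ?_⟩
    rw [IsDedekindDomain.mem_primesOverFinset_iff h0]
    refine ⟨P.isPrime, ⟨?_⟩⟩
    refine hmax.eq_of_le ?_ ?_
    · exact Ideal.comap_ne_top _ P.isPrime.ne_top
    · rw [Ideal.span_singleton_le_iff_mem]
      simpa [Ideal.mem_comap] using hmem

theorem exists_over {K K' : IntermediateField ℚ Ω} [NumberField K] [NumberField K'] (h : K ≤ K')
    (q : HeightOneSpectrum (𝓞 K)) : ∃ Q : Ideal (𝓞 K'), Q.IsPrime ∧ Q ≠ ⊥ ∧ Over q Q := by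
  let _ : Algebra K K' := (IntermediateField.inclusion h).toRingHom.toAlgebra
  have hPp := q.isPrime
  have hPm := q.isMaximal
  obtain ⟨Q, hQm, hQl⟩ := Ideal.exists_maximal_ideal_liesOver_of_isIntegral (S := 𝓞 K') q.asIdeal
  refine ⟨Q, hQm.isPrime, Ideal.ne_bot_of_liesOver_of_ne_bot q.ne_bot Q, ?_⟩
  intro x x' hxx
  have e : x' = algebraMap (𝓞 K) (𝓞 K') x := by
    apply RingOfIntegers.ext
    apply Subtype.ext
    exact hxx.symm
  rw [e, hQl.over, Ideal.under_def, Ideal.mem_comap]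

end Pool.Agent.Lib.MP_af4c59_nt.K9
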