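import Pool.Agent.Lib.MP_af4c59_nt.K9Ide

/-!
Square classes with even valuation outside a finite set (part D1).
-/

set_option autoImplicit false

namespace Pool.Agent.Lib.MP_af4c59_nt.K9

open NumberField Module IsDedekindDomain

namespace TorAux

theorem card_real {F : Type} [Field F] [NumberField F] (h3 : finrank ℚ F ≤ 3) :
    Fintype.card (F →+* ℝ) ≤ 3 := by
  have h1 : Fintype.card (F →+* ℂ) ≤ 3 := by rw [Embeddings.card]; exact h3
  refine le_trans ?_ h1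
  refine Fintype.card_le_of_injective (fun φ => Complex.ofRealHom.comp φ) ?_
  intro φ ψ h
  ext x
  have := RingHom.congr_fun h x
  simpa using this

theorem mult_zero {R : Type} [CommRing R] [IsDedekindDomain R] (P : HeightOneSpectrum R) {a : R}
    (ha : a ∉ P.asIdeal) : multiplicity P.asIdeal (Ideal.span {a}) = 0 := by
  rw [multiplicity_eq_zero, Ideal.dvd_span_singleton]
  exact ha

/-- If `a * b` is a nonzero square and `b` is prime to `P`, then `a` has even valuation. -/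
theorem even_of_mul {R : Type} [CommRing R] [IsDedekindDomain R] (P : HeightOneSpectrum R)
    {a b w : R} (hw : w ≠ 0) (h : a * b = w * w) (hb : b ∉ P.asIdeal) :
    Even (multiplicity P.asIdeal (Ideal.span {a})) := by
  have hab : a * b ≠ 0 := by rw [h]; exact mul_ne_zero hw hw
  have h1 := H32.Tor.mult_mul P (left_ne_zero_of_mul hab) (right_ne_zero_of_mul hab)
  rw [h, H32.Tor.mult_mul P hw hw, mult_zero P hb, add_zero] at h1
  exact ⟨_, h1.symm⟩

end TorAux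

theorem torsor_le {F : Type} [Field F] [NumberField F] (h3 : finrank ℚ F ≤ 3) (k : ℕ)
    (hk : SelLe F k) (D : ℕ) (hD : D ≠ 0) (T : Finset (𝓞 F)) (hT : ∀ δ ∈ T, H32.Good D δ)
    (hI : H32.Ineq T) : T.card ≤ 8 ^ (D.primeFactors.card + 1) * k := by
  classical
  obtain ⟨S, hS, hmem⟩ := primes_le (K := F) D hD
  have hS3 : S.card ≤ 3 * D.primeFactors.card := hS.trans (Nat.mul_le_mul_right _ h3)
  let f : 𝓞 F → (S → Bool) × ((F →+* ℝ) → Bool) := fun δ =>
    (fun P => decide (Even (multiplicity P.1.asIdeal (Ideal.span {δ}))), fun φ => decide (0 < φ (δ : F)))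
  have hfib : ∀ b ∈ (Finset.univ : Finset ((S → Bool) × ((F →+* ℝ) → Bool))),
      (T.filter (fun a => f a = b)).card ≤ k := by
    intro b _
    rcases (T.filter (fun a => f a = b)).eq_empty_or_nonempty with h | ⟨δ0, h0⟩
    · simp [h]
    obtain ⟨h0T, h0b⟩ := Finset.mem_filter.mp h0
    obtain ⟨h0ne, h0sq, h0ev⟩ := hT δ0 h0T
    have h0F : (δ0 : F) ≠ 0 := by simpa using h0ne
    have hinj : Function.Injective (fun δ : 𝓞 F => δ * δ0) := mul_left_injective₀ h0ne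
    rw [← Finset.card_image_of_injective _ hinj]
    refine hk _ ?_ ?_
    · intro x hx
      obtain ⟨δ, hδ, rfl⟩ := Finset.mem_image.mp hx
      obtain ⟨hδT, hδb⟩ := Finset.mem_filter.mp hδ
      obtain ⟨hne, hsq, hev⟩ := hT δ hδT
      have hF : (δ : F) ≠ 0 := by simpa using hne
      have hff : f δ = f δ0 := hδb.trans h0b.symm
      refine ⟨mul_ne_zero hne h0ne, ?_, ?_, ?_⟩
      · have : ((δ * δ0 : 𝓞 F) : F) = (δ : F) * (δ0 : F) := by simp
        rw [this, map_mul]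
        exact hsq.mul h0sq
      · intro φ
        have h2 : decide (0 < φ (δ : F)) = decide (0 < φ (δ0 : F)) :=
          congrFun (congrArg Prod.snd hff) φ
        have h2' : (0 < φ (δ : F)) ↔ (0 < φ (δ0 : F)) := by simpa using h2
        have : ((δ * δ0 : 𝓞 F) : F) = (δ : F) * (δ0 : F) := by simp
        rw [this, map_mul]
        have ha : φ (δ : F) ≠ 0 := (map_ne_zero φ).mpr hF
        have hb : φ (δ0 : F) ≠ 0 := (map_ne_zero φ).mpr h0F
        by_cases hc : 0 < φ (δ : F)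
        · exact mul_pos hc (h2'.mp hc)
        · have hc' : ¬ 0 < φ (δ0 : F) := fun h => hc (h2'.mpr h)
          exact mul_pos_of_neg_of_neg (lt_of_le_of_ne (not_lt.mp hc) ha)
            (lt_of_le_of_ne (not_lt.mp hc') hb)
      · refine H32.Tor.sq_of_even _ (by simpa using ⟨hne, h0ne⟩) ?_
        intro P
        rw [H32.Tor.mult_mul P hne h0ne, Nat.even_add]
        by_cases hP : (D : 𝓞 F) ∈ P.asIdeal
        · have h2 : decide (Even (multiplicity P.asIdeal (Ideal.span {δ}))) =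
              decide (Even (multiplicity P.asIdeal (Ideal.span {δ0}))) :=
            congrFun (congrArg Prod.fst hff) ⟨P, hmem P hP⟩
          simpa using h2
        · exact iff_of_true (hev P hP) (h0ev P hP)
    · intro x hx y hy hxy hsq
      obtain ⟨δ, hδ, rfl⟩ := Finset.mem_image.mp hx
      obtain ⟨δ', hδ', rfl⟩ := Finset.mem_image.mp hy
      have hne : δ ≠ δ' := fun h => hxy (by rw [h])
      refine hI δ (Finset.mem_filter.mp hδ).1 δ' (Finset.mem_filter.mp hδ').1 hne ?_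
      obtain ⟨r, hr⟩ := hsq
      refine ⟨r / (δ0 : F), ?_⟩
      have e1 : ((δ * δ0 : 𝓞 F) : F) = (δ : F) * (δ0 : F) := by simp
      have e2 : ((δ' * δ0 : 𝓞 F) : F) = (δ' : F) * (δ0 : F) := by simp
      simp only [e1, e2] at hr
      field_simp
      linear_combination hr
  have h1 := Finset.card_le_mul_card_image_of_maps_to (f := f) (s := T)
    (t := Finset.univ) (fun a _ => Finset.mem_univ _) k hfib
  have h2 : (Finset.univ : Finset ((S → Bool) × ((F →+* ℝ) → Bool))).card ≤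
      8 ^ (D.primeFactors.card + 1) := by
    rw [Finset.card_univ, Fintype.card_prod, Fintype.card_fun, Fintype.card_fun,
      Fintype.card_bool, Fintype.card_coe, ← pow_add, show (8 : ℕ) = 2 ^ 3 by norm_num, ← pow_mul]
    refine Nat.pow_le_pow_right (by norm_num) ?_
    have := TorAux.card_real h3
    omega
  calc T.card ≤ k * _ := h1
    _ ≤ k * 8 ^ (D.primeFactors.card + 1) := Nat.mul_le_mul_left _ h2
    _ = _ := mul_comm _ _

theorem even_eta {F : Type} [Field F] [NumberField F] {H : ℝ} {g s n : ℤ} {p : ℤ × ℤ}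
    (hp : Box H g s n p) (θ : 𝓞 F)
    (hθ : θ ^ 3 - (s : 𝓞 F) ^ 2 * θ ^ 2 - 72 * s * n ^ 3 * θ +
      16 * (4 * s ^ 3 * n ^ 3 + 27 * n ^ 6) = 0) :
    (4 * (p.1 : 𝓞 F) - p.2 * g ^ 2 * θ) ≠ 0 ∧ ∀ P : HeightOneSpectrum (𝓞 F),
      ((6 * g * DD s n : ℤ) : 𝓞 F) ∉ P.asIdeal →
        Even (multiplicity P.asIdeal (Ideal.span {4 * (p.1 : 𝓞 F) - p.2 * g ^ 2 * θ})) := by
  obtain ⟨x, y⟩ := p
  obtain ⟨-, -, -, hco, e, w, -, he, hw, hG⟩ := hp
  dsimp only at hco hG ⊢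
  have hG' : (e : 𝓞 F) * ((Gf (g * s) (g * n) x y : ℤ) : 𝓞 F) = (w : 𝓞 F) ^ 2 := by
    exact_mod_cast congrArg (fun t : ℤ => (t : 𝓞 F)) hG
  simp only [Gf] at hG'
  push_cast at hG'
  set η : 𝓞 F := 4 * (x : 𝓞 F) - y * g ^ 2 * θ with hη
  set η' : 𝓞 F := (4 * (x : 𝓞 F)) ^ 2 + 4 * x * (y * g ^ 2) * (θ - s ^ 2) +
    (y * g ^ 2) ^ 2 * (θ ^ 2 - s ^ 2 * θ - 72 * s * n ^ 3) with hη'
  have hw' : (4 * (w : 𝓞 F)) ≠ 0 :=
    mul_ne_zero (by norm_num) (Int.cast_ne_zero.mpr hw)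
  have key : η * (-(e : 𝓞 F) * η') = (4 * w) * (4 * w) := by
    rw [hη, hη']
    linear_combination 16 * hG' + (e * (y * g ^ 2) ^ 3 : 𝓞 F) * hθ
  have hne : η ≠ 0 := by
    intro h0
    rw [h0, zero_mul] at key
    exact mul_ne_zero hw' hw' key.symm
  refine ⟨hne, fun P hP => ?_⟩
  by_cases hηP : η ∈ P.asIdeal
  swap
  · rw [TorAux.mult_zero P hηP]
    exact Even.zero
  have hpr := P.isPrime
  have hdv : ∀ a : ℤ, a ∣ 6 * g * DD s n → (a : 𝓞 F) ∉ P.asIdeal := by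
    rintro a ⟨b, hb⟩ ha
    apply hP
    rw [hb, Int.cast_mul]
    exact P.asIdeal.mul_mem_right _ ha
  have h2 : (2 : 𝓞 F) ∉ P.asIdeal := by
    have := hdv 2 ⟨3 * g * DD s n, by ring⟩
    simpa using this
  have h3 : (3 : 𝓞 F) ∉ P.asIdeal := by
    have := hdv 3 ⟨2 * g * DD s n, by ring⟩
    simpa using this
  have hg : (g : 𝓞 F) ∉ P.asIdeal := hdv g ⟨6 * DD s n, by ring⟩
  have hDD : ((DD s n : ℤ) : 𝓞 F) ∉ P.asIdeal := hdv _ ⟨6 * g, by ring⟩
  have heP : (e : 𝓞 F) ∉ P.asIdeal :=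
    hdv e (he.trans ⟨s ^ 3 - 27 * n ^ 3, by simp only [DD]; ring⟩)
  have hy : (y : 𝓞 F) ∉ P.asIdeal := by
    intro hy
    have hx4 : (2 : 𝓞 F) ^ 2 * x ∈ P.asIdeal := by
      have : (2 : 𝓞 F) ^ 2 * x = η + y * (g ^ 2 * θ) := by rw [hη]; ring
      rw [this]
      exact P.asIdeal.add_mem hηP (P.asIdeal.mul_mem_right _ hy)
    have hx : (x : 𝓞 F) ∈ P.asIdeal :=
      (hpr.mem_or_mem hx4).resolve_left fun h => h2 (hpr.mem_of_pow_mem _ h)
    obtain ⟨u, v, huv⟩ := hco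
    have h1 : (u : 𝓞 F) * x + v * y = 1 := by
      exact_mod_cast congrArg (fun t : ℤ => (t : 𝓞 F)) huv
    apply hpr.ne_top
    rw [Ideal.eq_top_iff_one, ← h1]
    exact P.asIdeal.add_mem (P.asIdeal.mul_mem_left _ hx) (P.asIdeal.mul_mem_left _ hy)
  have hd : (3 * θ ^ 2 - 2 * s ^ 2 * θ - 72 * s * n ^ 3 : 𝓞 F) ∉ P.asIdeal := by
    intro hd
    have e1 : (3 : 𝓞 F) ^ 2 * (2 ^ 8 * ((DD s n : ℤ) : 𝓞 F) ^ 3) =
        (3 * θ ^ 2 - 2 * s ^ 2 * θ - 72 * s * n ^ 3) *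
          ((3 * θ - s ^ 2) * (6 * (s ^ 4 + 216 * s * n ^ 3) * θ -
            3 * (72 * s ^ 3 * n ^ 3 - 144 * (4 * s ^ 3 * n ^ 3 + 27 * n ^ 6)) -
            4 * s ^ 2 * (s ^ 4 + 216 * s * n ^ 3)) - 4 * (s ^ 4 + 216 * s * n ^ 3) ^ 2) := by
      simp only [DD]
      push_cast
      linear_combination (-9 * (6 * (s ^ 4 + 216 * s * n ^ 3) * θ -
        3 * (72 * s ^ 3 * n ^ 3 - 144 * (4 * s ^ 3 * n ^ 3 + 27 * n ^ 6)) -
        4 * s ^ 2 * (s ^ 4 + 216 * s * n ^ 3)) : 𝓞 F) * hθ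
    have hm : (3 : 𝓞 F) ^ 2 * (2 ^ 8 * ((DD s n : ℤ) : 𝓞 F) ^ 3) ∈ P.asIdeal := by
      rw [e1]
      exact P.asIdeal.mul_mem_right _ hd
    rcases hpr.mem_or_mem hm with h | h
    · exact h3 (hpr.mem_of_pow_mem _ h)
    · rcases hpr.mem_or_mem h with h | h
      · exact h2 (hpr.mem_of_pow_mem _ h)
      · exact hDD (hpr.mem_of_pow_mem _ h)
  have hη'P : η' ∉ P.asIdeal := by
    intro h
    have e2 : ((y : 𝓞 F) * g ^ 2) ^ 2 * (3 * θ ^ 2 - 2 * s ^ 2 * θ - 72 * s * n ^ 3) =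
        η' - η * (4 * x + y * g ^ 2 * (2 * θ - s ^ 2)) := by
      rw [hη, hη']
      ring
    have hm : ((y : 𝓞 F) * g ^ 2) ^ 2 * (3 * θ ^ 2 - 2 * s ^ 2 * θ - 72 * s * n ^ 3) ∈
        P.asIdeal := by
      rw [e2]
      exact P.asIdeal.sub_mem h (P.asIdeal.mul_mem_right _ hηP)
    rcases hpr.mem_or_mem hm with h | h
    · rcases hpr.mem_or_mem (hpr.mem_of_pow_mem _ h) with h | h
      · exact hy h
      · exact hg (hpr.mem_of_pow_mem _ h)
    · exact hd h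
  refine TorAux.even_of_mul P hw' key fun h => ?_
  rcases hpr.mem_or_mem h with h | h
  · exact heP ((Ideal.neg_mem_iff _).mp h)
  · exact hη'P h

end Pool.Agent.Lib.MP_af4c59_nt.K9
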