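import Pool.Agent.Lib.MP_af4c59_nt.K9Sys
import Pool.Agent.Lib.MP_af4c59_nt.K9Tor

/-!
The number of square classes, irreducible case (part D1).
-/

set_option autoImplicit false

namespace Pool.Agent.Lib.MP_af4c59_nt.K9

open NumberField Module IsDedekindDomain

namespace IrrAux

open Polynomial

/-- The root of the resolvent cubic attached to a root of the cubic. -/
def th {A : Type*} [CommRing A] (s n : ℤ) (r : A) : A :=
  (s : A) ^ 2 + 6 * (n : A) ^ 2 * r - s * n * r ^ 2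

theorem th_root {A : Type*} [CommRing A] {s n : ℤ} {r : A}
    (h : (n : A) * r ^ 3 - s * r + 2 * n = 0) :
    th s n r ^ 3 - (s : A) ^ 2 * th s n r ^ 2 - 72 * s * n ^ 3 * th s n r +
      16 * (4 * s ^ 3 * n ^ 3 + 27 * n ^ 6) = 0 := by
  unfold th
  linear_combination ((-1) * r ^ 3 * s ^ 3 * n ^ 2 + 18 * r ^ 2 * s ^ 2 * n ^ 3 + r * s ^ 4 * n +
    (-108) * r * s * n ^ 4 + (-4) * s ^ 3 * n ^ 2 + 216 * (n : A) ^ 5) * h

theorem roots_of {s n : ℤ} (hn : n ≠ 0) {a b c : ℂ} (hab : a ≠ b) (hac : a ≠ c) (hbc : b ≠ c)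
    (ha : (n : ℂ) * a ^ 3 - s * a + 2 * n = 0) (hb : (n : ℂ) * b ^ 3 - s * b + 2 * n = 0)
    (hc : (n : ℂ) * c ^ 3 - s * c + 2 * n = 0) {T : Fin 3 → ℂ} (h0 : T 0 = th s n a)
    (h1 : T 1 = th s n b) (h2 : T 2 = th s n c) : Roots s n T := by
  have hn' : (n : ℂ) ≠ 0 := by exact_mod_cast hn
  have e1 : (n : ℂ) * (a ^ 2 + a * b + b ^ 2) = s := by
    apply mul_left_cancel₀ (sub_ne_zero.2 hab)
    linear_combination ha - hb
  have e2 : (n : ℂ) * (a ^ 2 + a * c + c ^ 2) = s := by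
    apply mul_left_cancel₀ (sub_ne_zero.2 hac)
    linear_combination ha - hc
  have e3 : c = -a - b := by
    apply mul_left_cancel₀ (mul_ne_zero hn' (sub_ne_zero.2 hbc))
    linear_combination e1 - e2
  have e4 : a * b * (a + b) - 2 = 0 := by
    apply mul_left_cancel₀ hn'
    linear_combination a * e1 - ha
  subst e3
  refine ⟨?_, ?_, ?_⟩
  · rw [h0, h1, h2]
    unfold th
    rw [← e1]
    ring
  · rw [h0, h1, h2]
    unfold th
    rw [← e1]
    linear_combination (n : ℂ) ^ 4 * ((-18) * a ^ 2 + (-18) * a * b + (-18) * b ^ 2) * e4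
  · rw [h0, h1, h2]
    unfold th
    rw [← e1]
    linear_combination (n : ℂ) ^ 6 * ((-1) * a ^ 8 * b + (-4) * a ^ 7 * b ^ 2 +
      (-9) * a ^ 6 * b ^ 3 + (-14) * a ^ 6 + (-13) * a ^ 5 * b ^ 4 + (-42) * a ^ 5 * b +
      (-13) * a ^ 4 * b ^ 5 + (-84) * a ^ 4 * b ^ 2 + (-9) * a ^ 3 * b ^ 6 +
      (-98) * a ^ 3 * b ^ 3 + (-4) * a ^ 2 * b ^ 7 + (-84) * a ^ 2 * b ^ 4 + (-1) * a * b ^ 8 +
      (-42) * a * b ^ 5 + (-14) * b ^ 6 + (-216)) * e4

theorem th_int {A : Type*} [CommRing A] {s n : ℤ} {r : A}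
    (h : (n : A) * r ^ 3 - s * r + 2 * n = 0) : IsIntegral ℤ (th s n r) := by
  refine ⟨X ^ 3 - C (s ^ 2) * X ^ 2 - C (72 * s * n ^ 3) * X +
    C (16 * (4 * s ^ 3 * n ^ 3 + 27 * n ^ 6)), by monicity!, ?_⟩
  have := th_root h
  simp only [eval₂_add, eval₂_sub, eval₂_mul, eval₂_pow, eval₂_C, eval₂_X]
  simp only [algebraMap_int_eq, eq_intCast]
  push_cast
  linear_combination this

theorem coords {A : Type*} [Field A] [CharZero A] {s n : ℤ} (hD : DD s n ≠ 0) {r : A}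
    (h : (n : A) * r ^ 3 - s * r + 2 * n = 0) (a0 a1 a2 : ℚ) :
    ∃ c : Fin 3 → ℚ, (a0 : A) + a1 * r + a2 * r ^ 2 =
      c 0 + c 1 * th s n r + c 2 * th s n r ^ 2 := by
  have hn : n ≠ 0 := left_ne_zero_of_mul hD
  have hd : s ^ 3 - 27 * n ^ 3 ≠ 0 := right_ne_zero_of_mul hD
  have hn' : (n : A) ≠ 0 := by exact_mod_cast hn
  have hd' : (s : A) ^ 3 - 27 * (n : A) ^ 3 ≠ 0 := by exact_mod_cast hd
  set d : ℚ := -8 * (n : ℚ) ^ 3 * ((s : ℚ) ^ 3 - 27 * (n : ℚ) ^ 3) with hdd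
  have hdA : (d : A) = -8 * (n : A) ^ 3 * ((s : A) ^ 3 - 27 * (n : A) ^ 3) := by
    rw [hdd]; push_cast; ring
  have hd0 : (d : A) ≠ 0 := by
    rw [hdA]
    exact mul_ne_zero (mul_ne_zero (by norm_num) (pow_ne_zero 3 hn')) hd'
  set u : A := th s n r - (s : A) ^ 2 with hu
  have hu1 : u = 6 * (n : A) ^ 2 * r - s * n * r ^ 2 := by rw [hu]; unfold th; ring
  have hu2 : u ^ 2 = 24 * s * (n : A) ^ 3 - 14 * (s : A) ^ 2 * (n : A) ^ 2 * r +
      (36 * (n : A) ^ 4 + (s : A) ^ 3 * n) * r ^ 2 := by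
    rw [hu1]
    linear_combination ((s : A) ^ 2 * n * r - 12 * s * (n : A) ^ 2) * h
  have hr1 : (d : A) * r = (36 * (n : A) ^ 4 + (s : A) ^ 3 * n) * u +
      s * n * (u ^ 2 - 24 * s * (n : A) ^ 3) := by
    rw [hu2, hu1, hdA]; ring
  have hr2 : (d : A) * r ^ 2 = 14 * (s : A) ^ 2 * (n : A) ^ 2 * u +
      6 * (n : A) ^ 2 * (u ^ 2 - 24 * s * (n : A) ^ 3) := by
    rw [hu2, hu1, hdA]; ring
  set k1 : ℚ := a1 * (36 * (n : ℚ) ^ 4 + (s : ℚ) ^ 3 * n) + a2 * (14 * (s : ℚ) ^ 2 * (n : ℚ) ^ 2)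
    with hk1
  set k2 : ℚ := a1 * (s * n) + a2 * (6 * (n : ℚ) ^ 2) with hk2
  refine ⟨![a0 + (-k1 * (s : ℚ) ^ 2 + k2 * ((s : ℚ) ^ 4 - 24 * s * (n : ℚ) ^ 3)) / d,
    (k1 - 2 * k2 * (s : ℚ) ^ 2) / d, k2 / d], ?_⟩
  simp only [Matrix.cons_val_zero, Matrix.cons_val_one, Matrix.cons_val]
  have ht : th s n r = u + (s : A) ^ 2 := by rw [hu]; ring
  rw [ht, hk1, hk2]
  push_cast
  apply mul_left_cancel₀ hd0
  field_simp
  linear_combination (a1 : A) * hr1 + (a2 : A) * hr2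

theorem exists_field {s n : ℤ} (hn : n ≠ 0) (hR : ¬ Red s n) :
    ∃ (A : Type) (_ : Field A) (_ : NumberField A) (r : A), Gen A s n r ∧
      (∀ z : A, ∃ a0 a1 a2 : ℚ, z = a0 + a1 * r + a2 * r ^ 2) := by
  set f : ℚ[X] := C (n : ℚ) * X ^ 3 - C (s : ℚ) * X + C (2 * n : ℚ) with hf
  have hn' : (n : ℚ) ≠ 0 := by exact_mod_cast hn
  have hdeg : f.natDegree = 3 := by
    rw [hf]
    compute_degree!
  have hf0 : f ≠ 0 := by
    intro h
    rw [h] at hdeg
    simp at hdeg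
  have hirr : Irreducible f := by
    rw [irreducible_iff_roots_eq_zero_of_degree_le_three (by omega) (by omega)]
    by_contra h
    obtain ⟨q, hq⟩ := Multiset.exists_mem_of_ne_zero h
    rw [mem_roots hf0, IsRoot.def, hf] at hq
    exact hR ⟨q, by simpa using hq⟩
  have : Fact (Irreducible f) := ⟨hirr⟩
  let pb := AdjoinRoot.powerBasis hf0
  have hroot : (n : AdjoinRoot f) * AdjoinRoot.root f ^ 3 - s * AdjoinRoot.root f + 2 * n = 0 := by
    have h1 : aeval (AdjoinRoot.root f) f = 0 :=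
      (AdjoinRoot.aeval_eq f).trans AdjoinRoot.mk_self
    have h2 : ∀ x : AdjoinRoot f, aeval x (C (n : ℚ) * X ^ 3 - C (s : ℚ) * X + C (2 * n : ℚ)) =
        (n : AdjoinRoot f) * x ^ 3 - s * x + 2 * n := by
      intro x
      simp [map_ofNat]
    rw [← h2]
    exact h1
  have : CharZero (AdjoinRoot f) := algebraRat.charZero _
  have : FiniteDimensional ℚ (AdjoinRoot f) := pb.finite
  have : NumberField (AdjoinRoot f) := ⟨⟩
  refine ⟨AdjoinRoot f, inferInstance, inferInstance, AdjoinRoot.root f, ⟨?_, hroot, ?_⟩, ?_⟩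
  · rw [pb.finrank, AdjoinRoot.powerBasis_dim, hdeg]
  · intro q hq
    apply hR
    refine ⟨q, ?_⟩
    rw [hq] at hroot
    exact_mod_cast hroot
  · intro z
    obtain ⟨g, hg, hz⟩ := pb.exists_eq_aeval z
    rw [AdjoinRoot.powerBasis_dim, hdeg] at hg
    rw [aeval_eq_sum_range' hg, AdjoinRoot.powerBasis_gen] at hz
    refine ⟨g.coeff 0, g.coeff 1, g.coeff 2, ?_⟩
    rw [hz]
    simp [Finset.sum_range_succ, Algebra.smul_def]

theorem exists_max {α : Type*} (S : Finset α) (E : α → α → Prop) (hr : ∀ p ∈ S, E p p)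
    (hs : ∀ p q, E p q → E q p) : ∃ R : Finset α, R ⊆ S ∧ (∀ p ∈ S, ∃ q ∈ R, E q p) ∧
      ∀ p ∈ R, ∀ q ∈ R, p ≠ q → ¬ E p q := by
  classical
  obtain ⟨R, hR, hmax⟩ := Finset.exists_max_image
    (S.powerset.filter fun R => ∀ p ∈ R, ∀ q ∈ R, p ≠ q → ¬ E p q) Finset.card
    ⟨∅, by simp⟩
  simp only [Finset.mem_filter, Finset.mem_powerset] at hR hmax
  refine ⟨R, hR.1, ?_, hR.2⟩
  intro p hp
  by_contra hc
  push Not at hc
  have hpR : p ∉ R := fun h => hc p h (hr p hp)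
  have := hmax (insert p R) (by
    refine ⟨Finset.insert_subset hp hR.1, ?_⟩
    intro a ha b hb hab
    rw [Finset.mem_insert] at ha hb
    rcases ha with rfl | ha
    · rcases hb with rfl | hb
      · exact absurd rfl hab
      · exact fun h => hc b hb (hs _ _ h)
    · rcases hb with rfl | hb
      · exact hc a ha
      · exact hR.2 a ha b hb hab)
  rw [Finset.card_insert_of_notMem hpR] at this
  omega

theorem sqf_eq {e e' : ℤ} (he : Squarefree e) (he' : Squarefree e')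
    (h1 : decide (0 < e) = decide (0 < e'))
    (h2 : e.natAbs.primeFactors = e'.natAbs.primeFactors) : e = e' := by
  have h3 := Nat.prod_primeFactors_of_squarefree (Int.squarefree_natAbs.2 he)
  have h4 := Nat.prod_primeFactors_of_squarefree (Int.squarefree_natAbs.2 he')
  rw [h2, h4] at h3
  have h5 : (0 < e ↔ 0 < e') := by simpa using h1
  omega

end IrrAux

open IrrAux

theorem cover_irr {s n : ℤ} (hD : DD s n ≠ 0) (hR : ¬ Red s n) (k : ℕ)
    (hk : ∀ (A : Type) [Field A] [NumberField A] (r : A), Gen A s n r → SelLe A k) :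
    ∃ T : Fin 3 → ℂ, Roots s n T ∧ ∀ (H : ℝ) (g : ℤ), Par H g s n → ∀ S : Finset (ℤ × ℤ),
      (∀ p ∈ S, Box H g s n p) → ∃ R : Finset (ℤ × ℤ), R ⊆ S ∧
        (∀ p ∈ S, ∃ p₀ ∈ R, Rel g T p₀ p) ∧ R.card ≤ 16 ^ (om (6 * g * DD s n) + 1) * k := by
  classical
  have hn : n ≠ 0 := left_ne_zero_of_mul hD
  obtain ⟨A, _, _, r, hG, hspan⟩ := exists_field hn hR
  have hsel := hk A r hG
  have hcard : Fintype.card (A →ₐ[ℚ] ℂ) = 3 := by rw [AlgHom.card, hG.rank]
  let ψ : Fin 3 ≃ (A →ₐ[ℚ] ℂ) := (Fintype.equivFinOfCardEq hcard).symm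
  have hinj : ∀ a b : Fin 3, a ≠ b → ψ a r ≠ ψ b r := by
    intro a b hab h
    apply hab
    apply ψ.injective
    ext z
    obtain ⟨a0, a1, a2, rfl⟩ := hspan z
    simp [h]
  have hroot : ∀ a : Fin 3, (n : ℂ) * ψ a r ^ 3 - s * ψ a r + 2 * n = 0 := by
    intro a
    have := congrArg (ψ a) hG.root
    simpa [map_ofNat] using this
  have hth : ∀ a : Fin 3, ψ a (th s n r) = th s n (ψ a r) := by
    intro a
    simp [th, map_ofNat]
  set T : Fin 3 → ℂ := fun a => th s n (ψ a r) with hT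
  have hRoots : Roots s n T :=
    roots_of hn (hinj 0 1 (by decide)) (hinj 0 2 (by decide)) (hinj 1 2 (by decide))
      (hroot 0) (hroot 1) (hroot 2) rfl rfl rfl
  refine ⟨T, hRoots, ?_⟩
  intro H g hP S hS
  let θ : 𝓞 A := ⟨th s n r, th_int hG.root⟩
  have hθA : (θ : A) = th s n r := rfl
  have hθ : θ ^ 3 - (s : 𝓞 A) ^ 2 * θ ^ 2 - 72 * s * n ^ 3 * θ +
      16 * (4 * s ^ 3 * n ^ 3 + 27 * n ^ 6) = 0 := by
    apply RingOfIntegers.coe_injective
    have := th_root hG.root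
    simpa [map_ofNat, ← hθA] using this
  let η : ℤ × ℤ → 𝓞 A := fun p => 4 * (p.1 : 𝓞 A) - p.2 * g ^ 2 * θ
  have hηA : ∀ p, ((η p : 𝓞 A) : A) = 4 * (p.1 : A) - p.2 * g ^ 2 * th s n r := by
    intro p
    simp [η, map_ofNat, ← hθA]
  have hηψ : ∀ p a, ψ a (η p : A) = eta g (T a) p := by
    intro p a
    rw [hηA]
    simp [eta, hT, hth, map_ofNat]
  have he : ∀ p : ℤ × ℤ, ∃ e : ℤ, p ∈ S → ∃ w : ℤ, Squarefree e ∧ e ∣ 6 * (g * n) ∧ w ≠ 0 ∧
      e * Gf (g * s) (g * n) p.1 p.2 = w ^ 2 := by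
    intro p
    by_cases hp : p ∈ S
    · obtain ⟨-, -, -, -, e, w, h⟩ := hS p hp
      exact ⟨e, fun _ => ⟨w, h⟩⟩
    · exact ⟨0, fun h => absurd h hp⟩
  choose e he using he
  have hm : 6 * g * DD s n ≠ 0 := mul_ne_zero (mul_ne_zero (by norm_num) hP.2.1.ne') hD
  have hdvd : ∀ p ∈ S, e p ∣ 6 * g * DD s n := by
    intro p hp
    obtain ⟨w, -, h, -⟩ := he p hp
    refine h.trans ⟨s ^ 3 - 27 * n ^ 3, ?_⟩
    unfold DD
    ring
  obtain ⟨R, hRS, hcov, hsep⟩ := exists_max S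
    (fun p q => e p = e q ∧ IsSquare ((η p : A) * (η q : A)))
    (fun p _ => ⟨rfl, IsSquare.mul_self _⟩)
    (fun p q h => ⟨h.1.symm, by rw [mul_comm]; exact h.2⟩)
  refine ⟨R, hRS, ?_, ?_⟩
  · intro p hp
    obtain ⟨q, hq, -, z, hz⟩ := hcov p hp
    refine ⟨q, hq, ?_⟩
    obtain ⟨a0, a1, a2, hz'⟩ := hspan z
    obtain ⟨c, hc⟩ := coords hD hG.root a0 a1 a2
    refine ⟨c, fun a => ?_⟩
    rw [← hηψ, ← hηψ, ← map_mul, hz, hz', hc]
    simp [ev, hT, hth, sq]
  · set D : ℕ := (6 * g * DD s n).natAbs with hDdef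
    have hD0 : D ≠ 0 := Int.natAbs_ne_zero.2 hm
    let δ : ℤ × ℤ → 𝓞 A := fun p => ((-e p : ℤ) : 𝓞 A) * η p
    have hδA : ∀ p, ((δ p : 𝓞 A) : A) = -(e p : A) * (η p : A) := by
      intro p
      simp [δ]
    have hgood : ∀ p ∈ S, H32.Good D (δ p) := by
      intro p hp
      obtain ⟨w, hsq, -, hw, hew⟩ := he p hp
      obtain ⟨hη0, hev⟩ := even_eta (hS p hp) θ hθ
      have he0 : ((-e p : ℤ) : 𝓞 A) ≠ 0 := by
        have : e p ≠ 0 := hsq.ne_zero
        exact_mod_cast neg_ne_zero.2 this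
      refine ⟨mul_ne_zero he0 hη0, ⟨((4 * e p * w : ℤ) : ℚ), ?_⟩, ?_⟩
      · apply (algebraMap ℚ ℂ).injective
        rw [Algebra.norm_eq_prod_embeddings, ← Equiv.prod_comp ψ, Fin.prod_univ_three, hδA]
        simp only [map_mul, map_neg, map_intCast, hηψ]
        have h1 := eta_prod (g := g) hRoots p
        have h2 : (e p : ℂ) * (Gf (g * s) (g * n) p.1 p.2 : ℂ) = (w : ℂ) ^ 2 := by
          exact_mod_cast hew
        push_cast
        linear_combination (-(e p : ℂ) ^ 3) * h1 + 16 * (e p : ℂ) ^ 2 * h2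
      · intro P hPD
        have hm' : ((6 * g * DD s n : ℤ) : 𝓞 A) ∉ P.asIdeal := by
          intro h
          apply hPD
          rcases Int.natAbs_eq (6 * g * DD s n) with h' | h'
          · rw [h', ← hDdef, Int.cast_natCast] at h
            exact h
          · rw [h', ← hDdef, Int.cast_neg, Int.cast_natCast] at h
            exact neg_mem_iff.1 h
        have h0 : multiplicity P.asIdeal (Ideal.span {((-e p : ℤ) : 𝓞 A)}) = 0 := by
          rw [multiplicity_eq_zero, Ideal.dvd_span_singleton]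
          intro h
          apply hm'
          obtain ⟨c, hc⟩ := hdvd p hp
          rw [hc]
          have := P.asIdeal.mul_mem_right ((-c : ℤ) : 𝓞 A) h
          simpa using this
        show Even (multiplicity P.asIdeal (Ideal.span {((-e p : ℤ) : 𝓞 A) * η p}))
        rw [H32.Tor.mult_mul P he0 hη0, h0, zero_add]
        exact hev P hm'
    let t : ℤ × ℤ → Bool × Finset ℕ := fun p => (decide (0 < e p), (e p).natAbs.primeFactors)
    have hmaps : ∀ p ∈ R, t p ∈ (Finset.univ : Finset Bool) ×ˢ D.primeFactors.powerset := by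
      intro p hp
      rw [Finset.mem_product, Finset.mem_powerset]
      exact ⟨Finset.mem_univ _,
        Nat.primeFactors_mono (Int.natAbs_dvd_natAbs.2 (hdvd p (hRS hp))) hD0⟩
    have hfib : ∀ a ∈ (Finset.univ : Finset Bool) ×ˢ D.primeFactors.powerset,
        (R.filter fun p => t p = a).card ≤ 8 ^ (D.primeFactors.card + 1) * k := by
      intro a _
      have heq : ∀ p ∈ R.filter (fun p => t p = a), ∀ q ∈ R.filter (fun p => t p = a),
          e p = e q := by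
        intro p hp q hq
        rw [Finset.mem_filter] at hp hq
        obtain ⟨_, h1, -⟩ := he p (hRS hp.1)
        obtain ⟨_, h2, -⟩ := he q (hRS hq.1)
        have h3 : t p = t q := hp.2.trans hq.2.symm
        exact sqf_eq h1 h2 (congrArg Prod.fst h3) (congrArg Prod.snd h3)
      have hns : ∀ p ∈ R.filter (fun p => t p = a), ∀ q ∈ R.filter (fun p => t p = a), p ≠ q →
          ¬ IsSquare ((δ p : A) * (δ q : A)) := by
        intro p hp q hq hpq hsq
        have h1 := heq p hp q hq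
        rw [Finset.mem_filter] at hp hq
        refine hsep p hp.1 q hq.1 hpq ⟨h1, ?_⟩
        obtain ⟨_, h2, -⟩ := he q (hRS hq.1)
        have h3 : (e q : A) ≠ 0 := by exact_mod_cast h2.ne_zero
        obtain ⟨z, hz⟩ := hsq
        rw [hδA, hδA, h1] at hz
        refine ⟨z / e q, ?_⟩
        field_simp
        linear_combination hz
      have hinjδ : Set.InjOn δ (R.filter fun p => t p = a) := by
        intro p hp q hq h
        by_contra hpq
        refine hns p hp q hq hpq ?_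
        rw [h]
        exact IsSquare.mul_self _
      rw [← Finset.card_image_of_injOn hinjδ]
      refine torsor_le hG.rank.le k hsel D hD0 _ ?_ ?_
      · intro x hx
        obtain ⟨p, hp, rfl⟩ := Finset.mem_image.1 hx
        exact hgood p (hRS (Finset.mem_filter.1 hp).1)
      · intro x hx y hy hxy
        obtain ⟨p, hp, rfl⟩ := Finset.mem_image.1 hx
        obtain ⟨q, hq, rfl⟩ := Finset.mem_image.1 hy
        exact hns p hp q hq fun h => hxy (by rw [h])
    have hfin := Finset.card_le_mul_card_image_of_maps_to hmaps _ hfib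
    rw [Finset.card_product, Finset.card_powerset, Finset.card_univ, Fintype.card_bool] at hfin
    refine hfin.trans (le_of_eq ?_)
    show _ = 16 ^ (D.primeFactors.card + 1) * k
    rw [show (16 : ℕ) = 8 * 2 by norm_num, mul_pow, pow_succ 2]
    ring

end Pool.Agent.Lib.MP_af4c59_nt.K9
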