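import Pool.Agent.Lib.MP_af4c59_nt.K9Ide

/-!
The extension cut out by a pair with trivial types is unramified (part A6).
-/

set_option autoImplicit false

namespace Pool.Agent.Lib.MP_af4c59_nt.K9

open NumberField Module IsDedekindDomain

namespace KumBAux

lemma w_cube {w : Ω} (hw : w ^ 2 + w + 1 = 0) : w ^ 3 = 1 := by
  linear_combination (w - 1) * hw

lemma w_ne_sq {w : Ω} (hw : w ^ 2 + w + 1 = 0) : w ≠ w ^ 2 := by
  intro h
  have h3 : (3 : Ω) = 0 := by
    linear_combination (3 - 2 * w) * hw - (2 * w + 1) * h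
  exact three_ne_zero h3

lemma cube_cases {w ζ : Ω} (hw : w ^ 2 + w + 1 = 0) (hζ : ζ ^ 3 = 1) :
    ζ = 1 ∨ ζ = w ∨ ζ = w ^ 2 := by
  have h : (ζ - 1) * ((ζ - w) * (ζ - w ^ 2)) = 0 := by
    linear_combination hζ + (-ζ ^ 2 + ζ * w - (w - 1)) * hw
  rcases mul_eq_zero.1 h with h | h
  · exact Or.inl (sub_eq_zero.1 h)
  · rcases mul_eq_zero.1 h with h | h
    · exact Or.inr (Or.inl (sub_eq_zero.1 h))
    · exact Or.inr (Or.inr (sub_eq_zero.1 h))

lemma w_int {w : Ω} (hw : w ^ 2 + w + 1 = 0) : IsIntegral ℤ w :=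
  IsIntegral.of_pow (n := 3) (by norm_num) (by rw [w_cube hw]; exact isIntegral_one)

lemma w_not_mem (K : IntermediateField ℚ Ω) [NumberField K] (hK : finrank ℚ K = 3) {w : Ω}
    (hw : w ^ 2 + w + 1 = 0) : w ∉ K := by
  intro h
  have e : (2 * (⟨w, h⟩ : K) + 1) * (2 * (⟨w, h⟩ : K) + 1) = algebraMap ℚ K (-3) := by
    apply Subtype.ext
    have e1 : ((algebraMap ℚ K (-3) : K) : Ω) = -3 := by
      change algebraMap ℚ Ω (-3) = -3
      simp
    have e2 : (((2 * (⟨w, h⟩ : K) + 1) * (2 * (⟨w, h⟩ : K) + 1) : K) : Ω) =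
        (2 * w + 1) * (2 * w + 1) := by
      push_cast
      rfl
    rw [e1, e2]
    linear_combination 4 * hw
  have h2 := congrArg (Algebra.norm ℚ) e
  rw [map_mul, Algebra.norm_algebraMap, hK] at h2
  nlinarith [mul_self_nonneg (Algebra.norm ℚ (2 * (⟨w, h⟩ : K) + 1))]

open IntermediateField in
lemma fix_sup {K : IntermediateField ℚ Ω} {w : Ω} {h : Ω ≃ₐ[ℚ] Ω} (h1 : ∀ x ∈ K, h x = x)
    (h2 : h w = w) : ∀ x ∈ K ⊔ ℚ⟮w⟯, h x = x := by
  have key : ∀ x, h x = x → x ∈ fixedField (Subgroup.zpowers h) := by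
    intro x hx
    have hst : Subgroup.zpowers h ≤ MulAction.stabilizer (Ω ≃ₐ[ℚ] Ω) x := by
      rw [Subgroup.zpowers_le]
      exact hx
    intro σ
    exact hst σ.2
  have hle : K ⊔ ℚ⟮w⟯ ≤ fixedField (Subgroup.zpowers h) :=
    sup_le (fun x hx => key x (h1 x hx)) (adjoin_simple_le_iff.2 (key w h2))
  intro x hx
  exact hle hx ⟨h, Subgroup.mem_zpowers h⟩

lemma types {K : IntermediateField ℚ Ω} {w z zb : Ω} (hw : w ^ 2 + w + 1 = 0)
    (hk : Kum K w z zb) {h : Ω ≃ₐ[ℚ] Ω} (h1 : ∀ x ∈ K, h x = x) (h2 : h (h z) = z) :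
    (h w = w ∧ h z = z ∧ h zb = zb) ∨ (h w = w ^ 2 ∧ h z = zb ∧ h zb = z) := by
  obtain ⟨hz, -, hk⟩ := hk
  obtain ⟨ζ, hζ, hc⟩ := hk h h1
  have h3 := w_cube hw
  have one : ζ ^ 2 * z = z → ζ = 1 := fun e => by
    have e2 : ζ ^ 2 = 1 := mul_right_cancel₀ hz (by rw [e, one_mul])
    linear_combination hζ - ζ * e2
  rcases hc with ⟨a, b, c⟩ | ⟨a, b, c⟩
  · have hh : h ζ = ζ := by
      rcases cube_cases hw hζ with e | e | e <;> rw [e] <;> simp [a]
    have e : ζ = 1 := one (by rw [b, map_mul, hh, b] at h2; linear_combination h2)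
    rw [e] at b c
    exact Or.inl ⟨a, by simpa using b, by simpa using c⟩
  · have hh : h ζ = ζ ^ 2 := by
      rcases cube_cases hw hζ with e | e | e <;> rw [e] <;> simp [a]
    have e : ζ = 1 := one (by
      rw [b, map_mul, map_pow, hh, c] at h2
      linear_combination h2 - ζ ^ 2 * z * hζ)
    rw [e] at b c
    exact Or.inr ⟨a, by simpa using b, by simpa using c⟩

lemma exists_tau (K : IntermediateField ℚ Ω) [NumberField K] (hK : finrank ℚ K = 3) {w : Ω}
    (hw : w ^ 2 + w + 1 = 0) {z zb : Ω} (hk : Kum K w z zb) {g : Ω ≃ₐ[ℚ] Ω}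
    (g1 : ∀ x ∈ K, g x = x) (g2 : g w = w) (g3 : g z = w * z) (g4 : g zb = w ^ 2 * zb) :
    ∃ τ : Ω ≃ₐ[ℚ] Ω, (∀ x ∈ K, τ x = x) ∧ τ w = w ^ 2 ∧ τ z = zb ∧ τ zb = z := by
  have hgal : IsGalois ℚ Ω := ⟨⟩
  have h3 := w_cube hw
  obtain ⟨g0, h1, h2⟩ : ∃ g0 : Ω ≃ₐ[ℚ] Ω, (∀ x ∈ K, g0 x = x) ∧ g0 w ≠ w := by
    by_contra hcon
    push Not at hcon
    apply w_not_mem K hK hw
    rw [← InfiniteGalois.fixedField_fixingSubgroup K]
    intro σ
    exact hcon σ.1 fun x hx => (IntermediateField.mem_fixingSubgroup_iff K σ.1).1 σ.2 x hx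
  obtain ⟨ζ, hζ, hc⟩ := hk.2.2 g0 h1
  rcases hc with ⟨a, -, -⟩ | ⟨a, b, c⟩
  · exact absurd a h2
  rcases cube_cases hw hζ with e | e | e <;> rw [e] at b c
  · exact ⟨g0, h1, a, by simpa using b, by simpa using c⟩
  · refine ⟨g0 * (g * g), fun x hx => by simp [g1 x hx, h1 x hx], by simp [g2, a], ?_, ?_⟩
    · simp only [AlgEquiv.mul_apply, g3, map_mul, g2, a, b]
      linear_combination (w ^ 3 + 1) * zb * h3
    · simp only [AlgEquiv.mul_apply, g4, map_mul, map_pow, g2, a, c]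
      linear_combination (w ^ 6 + w ^ 3 + 1) * z * h3
  · refine ⟨g0 * g, fun x hx => by simp [g1 x hx, h1 x hx], by simp [g2, a], ?_, ?_⟩
    · simp only [AlgEquiv.mul_apply, g3, map_mul, a, b]
      linear_combination (w ^ 3 + 1) * zb * h3
    · simp only [AlgEquiv.mul_apply, g4, map_mul, map_pow, a, c]
      linear_combination (w ^ 3 + 1) * z * h3

/-- `u` lies in the field generated by `K`, `w`, `z`, `zb`. -/
def Fx (K : IntermediateField ℚ Ω) (w z zb u : Ω) : Prop :=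
  ∀ h : Ω ≃ₐ[ℚ] Ω, (∀ x ∈ K, h x = x) → h w = w → h z = z → h zb = zb → h u = u

lemma trace {K : IntermediateField ℚ Ω} {w z zb : Ω} (hw : w ^ 2 + w + 1 = 0)
    (hk : Kum K w z zb) {N : IntermediateField ℚ Ω} {g : Ω ≃ₐ[ℚ] Ω} (hN : IsN K w z zb N g)
    {τ : Ω ≃ₐ[ℚ] Ω} (t1 : ∀ x ∈ K, τ x = x) (t2 : τ w = w ^ 2) (t3 : τ z = zb) (t4 : τ zb = z)
    {u : Ω} (hu : Fx K w z zb u) : u + τ u ∈ N ∧ g (τ u) = τ (g u) := by
  obtain ⟨-, g1, g2, g3, g4, hN⟩ := hN
  have h3 := w_cube hw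
  have t2' : τ (w ^ 2) = w := by
    rw [map_pow, t2]
    linear_combination w * h3
  -- two automorphisms that agree on the generators agree at `u`
  have agree : ∀ a b : Ω ≃ₐ[ℚ] Ω, (∀ x ∈ K, a x = b x) → a w = b w → a z = b z → a zb = b zb →
      a u = b u := by
    intro a b k1 k2 k3 k4
    have f : ∀ x, a x = b x → (b⁻¹ * a) x = x := fun x hx => by
      rw [AlgEquiv.mul_apply, hx]
      exact b.symm_apply_apply x
    have := hu (b⁻¹ * a) (fun x hx => f x (k1 x hx)) (f _ k2) (f _ k3) (f _ k4)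
    rw [AlgEquiv.mul_apply] at this
    conv_rhs => rw [← this]
    exact (b.apply_symm_apply _).symm
  constructor
  · rw [hN]
    intro h h1 h2
    rw [map_add]
    rcases types hw hk h1 h2 with ⟨a, b, c⟩ | ⟨a, b, c⟩
    · rw [hu h h1 a b c]
      congr 1
      exact agree (h * τ) τ (fun x hx => by simp [t1 x hx, h1 x hx]) (by simp [t2, a])
        (by simp [t3, c]) (by simp [t4, b])
    · have e1 : h u = τ u :=
        agree h τ (fun x hx => by rw [t1 x hx, h1 x hx]) (by rw [a, t2]) (by rw [b, t3])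
          (by rw [c, t4])
      have e2 : h (τ u) = u :=
        hu (h * τ) (fun x hx => by simp [t1 x hx, h1 x hx])
          (by
            simp only [AlgEquiv.mul_apply, t2, map_pow, a]
            linear_combination w * h3)
          (by simp [t3, c]) (by simp [t4, b])
      rw [e1, e2, add_comm]
  · exact agree (g * τ) (τ * g) (fun x hx => by simp [t1 x hx, g1 x hx]) (by simp [t2, g2])
      (by simp [t3, g3, g4, t2])
      (by simp only [AlgEquiv.mul_apply, t4, g3, g4, map_mul, t2'])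

lemma int_map (h : Ω ≃ₐ[ℚ] Ω) {u : Ω} (hu : IsIntegral ℤ u) : IsIntegral ℤ (h u) :=
  hu.map (h.toAlgHom.restrictScalars ℤ)

lemma int_sub (N : IntermediateField ℚ Ω) {u : Ω} (hN : u ∈ N) (hu : IsIntegral ℤ u) :
    IsIntegral ℤ (⟨u, hN⟩ : N) :=
  (isIntegral_algHom_iff (N.val.restrictScalars ℤ) Subtype.val_injective).1 hu

lemma int_coe {N : IntermediateField ℚ Ω} (x : 𝓞 N) : IsIntegral ℤ ((x : N) : Ω) :=
  x.isIntegral_coe.map (N.val.restrictScalars ℤ)

/-- Membership of an algebraic number in an ideal of the ring of all algebraic integers. -/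
def In (Q : Ideal (𝓞 Ω)) (u : Ω) : Prop := ∃ x ∈ Q, (x : Ω) = u

variable {Q : Ideal (𝓞 Ω)}

lemma lift {u : Ω} (hu : IsIntegral ℤ u) : ∃ x : 𝓞 Ω, (x : Ω) = u := ⟨⟨u, hu⟩, rfl⟩

lemma In.add {u v : Ω} (hu : In Q u) (hv : In Q v) : In Q (u + v) := by
  obtain ⟨x, hx, rfl⟩ := hu
  obtain ⟨y, hy, rfl⟩ := hv
  exact ⟨x + y, Q.add_mem hx hy, by simp⟩

lemma In.mul {u v : Ω} (hu : IsIntegral ℤ u) (hv : In Q v) : In Q (u * v) := by
  obtain ⟨y, hy, rfl⟩ := hv
  obtain ⟨x, rfl⟩ := lift hu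
  exact ⟨x * y, Q.mul_mem_left _ hy, by simp⟩

lemma In.prime (hQ : Q.IsPrime) {u v : Ω} (hu : IsIntegral ℤ u) (hv : IsIntegral ℤ v)
    (h : In Q (u * v)) : In Q u ∨ In Q v := by
  obtain ⟨y, hy, e⟩ := h
  obtain ⟨x, rfl⟩ := lift hu
  obtain ⟨x', rfl⟩ := lift hv
  have : y = x * x' := RingOfIntegers.ext (by simpa using e)
  rw [this] at hy
  exact (hQ.mem_or_mem hy).imp (fun h => ⟨_, h, rfl⟩) (fun h => ⟨_, h, rfl⟩)

lemma not_In_one (hQ : Q.IsPrime) : ¬ In Q 1 := by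
  rintro ⟨y, hy, e⟩
  have : y = 1 := RingOfIntegers.ext (by simpa using e)
  exact hQ.ne_top ((Ideal.eq_top_iff_one Q).2 (this ▸ hy))

lemma In_iff (F : IntermediateField ℚ Ω) (x : 𝓞 F) :
    In Q ((x : F) : Ω) ↔ x ∈ Q.comap (algebraMap (𝓞 F) (𝓞 Ω)) := by
  rw [Ideal.mem_comap]
  constructor
  · rintro ⟨y, hy, e⟩
    have : y = algebraMap (𝓞 F) (𝓞 Ω) x := RingOfIntegers.ext e
    exact this ▸ hy
  · exact fun h => ⟨_, h, rfl⟩

end KumBAux

open KumBAux IntermediateField in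
theorem unram_loc (K : IntermediateField ℚ Ω) [NumberField K] (hK : finrank ℚ K = 3) {w : Ω}
    (hw : w ^ 2 + w + 1 = 0) {z zb : Ω} (hk : Kum K w z zb)
    (K' : IntermediateField ℚ Ω) [NumberField K'] (hK' : K' = K ⊔ ℚ⟮w⟯) (γ : 𝓞 K')
    (hγ : ((γ : K') : Ω) = z ^ 3) (hcube : ∃ a : Ideal (𝓞 K'), a ^ 3 = Ideal.span {γ})
    (h3 : IsCoprime γ 3)
    (h3' : ∃ c d : 𝓞 K', (((γ - c ^ 3 : 𝓞 K') : K') : Ω) = (1 - w) ^ 3 * ((d : K') : Ω))
    (N : IntermediateField ℚ Ω) [NumberField N] (g : Ω ≃ₐ[ℚ] Ω) (hN : IsN K w z zb N g)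
    (P : Ideal (𝓞 N)) (hP : P.IsPrime) (hP0 : P ≠ ⊥) :
    ∃ x y : 𝓞 N, ((y : N) : Ω) = g ((x : N) : Ω) ∧ y - x ∉ P := by
  by_contra hcon
  push Not at hcon
  obtain ⟨Q, hQ, hQP⟩ := Ideal.exists_ideal_over_prime_of_isIntegral_of_isDomain (S := 𝓞 Ω) P
    (by rw [RingOfIntegers.ker_algebraMap_eq_bot]; exact bot_le)
  have g1 := hN.2.1
  have g2 := hN.2.2.1
  have g3 := hN.2.2.2.1
  have g4 := hN.2.2.2.2.1
  obtain ⟨τ, t1, t2, t3, t4⟩ := exists_tau K hK hw hk g1 g2 g3 g4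
  have hw3 := w_cube hw
  have hwi := w_int hw
  have hfix : ∀ (h : Ω ≃ₐ[ℚ] Ω), (∀ x ∈ K, h x = x) → h w = w → ∀ x : K', h (x : Ω) = x :=
    fun h h1 h2 x => fix_sup h1 h2 x (hK' ▸ x.2)
  -- the traces of `g u - u` lie in `Q`
  have key : ∀ u : Ω, IsIntegral ℤ u → Fx K w z zb u → Fx K w z zb (g u) →
      In Q ((g u - u) + τ (g u - u)) := by
    intro u hu f1 f2
    obtain ⟨m1, e1⟩ := trace hw hk hN t1 t2 t3 t4 f1
    obtain ⟨m2, -⟩ := trace hw hk hN t1 t2 t3 t4 f2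
    have i1 : IsIntegral ℤ (u + τ u) := hu.add (int_map τ hu)
    have i2 : IsIntegral ℤ (g u + τ (g u)) := (int_map g hu).add (int_map τ (int_map g hu))
    have h := hcon ⟨⟨_, m1⟩, int_sub N m1 i1⟩ ⟨⟨_, m2⟩, int_sub N m2 i2⟩
      (by
        change g u + τ (g u) = g (u + τ u)
        rw [map_add, e1])
    rw [← hQP, ← In_iff] at h
    convert h using 1
    change g u - u + τ (g u - u) = (g u + τ (g u)) - (u + τ u)
    rw [map_sub]
    ring
  have hzi : IsIntegral ℤ z := IsIntegral.of_pow (n := 3) (by norm_num) (hγ ▸ int_coe γ)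
  have i3 : IsIntegral ℤ (3 : Ω) := by
    simpa using (isIntegral_algebraMap (R := ℤ) (A := Ω) (x := 3))
  by_cases hQ3 : In Q 3
  · obtain ⟨c, d, hcd⟩ := h3'
    obtain ⟨a, b, hab⟩ := h3
    have hab' : ((a : K') : Ω) * z ^ 3 + ((b : K') : Ω) * 3 = 1 := by
      have := congrArg (algebraMap (𝓞 K') Ω) hab
      rw [map_add, map_mul, map_mul, map_ofNat, map_one] at this
      rw [← hγ]
      exact this
    have hcd' : z ^ 3 - ((c : K') : Ω) ^ 3 = (1 - w) ^ 3 * ((d : K') : Ω) := by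
      rw [← hcd, ← hγ]
      simp
    have ia := int_coe a
    have ib := int_coe b
    have ic := int_coe c
    have id := int_coe d
    have fa := fun h h1 h2 => hfix h h1 h2 (a : K')
    have fc := fun h h1 h2 => hfix h h1 h2 (c : K')
    generalize ((a : K') : Ω) = A at *
    generalize ((b : K') : Ω) = B at *
    generalize ((c : K') : Ω) = C at *
    generalize ((d : K') : Ω) = D at *
    have hl : 1 - w ≠ 0 := fun h => w_ne_sq hw (by linear_combination w * h)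
    have il : IsIntegral ℤ (1 - w) := isIntegral_one.sub hwi
    have hlQ : In Q (1 - w) := by
      have h1 : In Q ((1 - w) * (1 - w)) := by
        have := In.mul hwi.neg hQ3
        convert this using 1
        linear_combination hw
      exact (In.prime hQ il il h1).elim (fun h => h) (fun h => h)
    obtain ⟨u, hu⟩ : ∃ u : Ω, z = C + (1 - w) * u := ⟨(z - C) / (1 - w), by field_simp; ring⟩
    have hu' : u = (z - C) / (1 - w) := by rw [hu]; field_simp; ring
    have hueq : u ^ 3 - w ^ 2 * (1 - w) * C * u ^ 2 - w ^ 2 * C ^ 2 * u - D = 0 := by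
      apply mul_left_cancel₀ (pow_ne_zero 3 hl)
      rw [hu] at hcd'
      linear_combination hcd' + (-(C * (1 - w) ^ 2 * u ^ 2 + C ^ 2 * (1 - w) * u) *
        (w ^ 2 - 3 * w + 3)) * hw
    have iu : IsIntegral ℤ u := by
      have hR : IsIntegral (𝓞 Ω) u := by
        obtain ⟨c2, e2⟩ := lift (((hwi.pow 2).mul il).mul ic)
        obtain ⟨c1, e1⟩ := lift ((hwi.pow 2).mul (ic.pow 2))
        obtain ⟨c0, e0⟩ := lift id
        rw [RingOfIntegers.coe_eq_algebraMap] at e0 e1 e2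
        refine ⟨Polynomial.X ^ 3 - (Polynomial.C c2 * Polynomial.X ^ 2 +
          Polynomial.C c1 * Polynomial.X + Polynomial.C c0), ?_, ?_⟩
        · exact Polynomial.monic_X_pow_sub
            (lt_of_le_of_lt Polynomial.degree_quadratic_le (by norm_num))
        · simp only [Polynomial.eval₂_sub, Polynomial.eval₂_add, Polynomial.eval₂_mul,
            Polynomial.eval₂_X_pow, Polynomial.eval₂_C, Polynomial.eval₂_X, e2, e1, e0]
          linear_combination hueq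
      exact isIntegral_trans (A := 𝓞 Ω) u hR
    have hgu : g u = u - z := by
      rw [hu', map_div₀, map_sub, map_sub, map_one, g2, g3, fc g g1 g2]
      field_simp
      ring
    have fu : Fx K w z zb u := fun h h1 h2 h3 _ => by
      rw [hu', map_div₀, map_sub, map_sub, map_one, h2, h3, fc h h1 h2]
    have iU : IsIntegral ℤ (-(A * C ^ 2 * u)) := ((ia.mul (ic.pow 2)).mul iu).neg
    have hgU : g (-(A * C ^ 2 * u)) = -(A * C ^ 2 * (u - z)) := by
      rw [map_neg, map_mul, map_mul, map_pow, fa g g1 g2, fc g g1 g2, hgu]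
    have h := key _ iU
      (fun h h1 h2 h3 h4 => by
        rw [map_neg, map_mul, map_mul, map_pow, fa h h1 h2, fc h h1 h2, fu h h1 h2 h3 h4])
      (fun h h1 h2 h3 h4 => by
        rw [hgU, map_neg, map_mul, map_mul, map_pow, map_sub, fa h h1 h2, fc h h1 h2,
          fu h h1 h2 h3 h4, h3])
    obtain ⟨k, ik, hk1⟩ : ∃ k : Ω, IsIntegral ℤ k ∧
        g (-(A * C ^ 2 * u)) - -(A * C ^ 2 * u) = 1 + (1 - w) * k := by
      refine ⟨w ^ 2 * (1 - w) * B - A * z * u * (z + C),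
        (((hwi.pow 2).mul il).mul ib).sub (((ia.mul hzi).mul iu).mul (hzi.add ic)), ?_⟩
      rw [hgU]
      linear_combination hab' - A * z * (z + C) * hu - B * (w ^ 2 - 3 * w + 3) * hw
    rw [hk1, map_add, map_mul, map_sub, map_one, t2] at h
    apply not_In_one hQ
    have h1 := In.mul (ik.add ((isIntegral_one.add hwi).mul (int_map τ ik))) hlQ
    have h2 := (hQ3.add (In.mul isIntegral_one.neg h)).add h1
    convert h2 using 1
    ring
  · obtain ⟨a, ha⟩ := hcube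
    have hγ0 : γ ≠ 0 := by
      rintro rfl
      exact pow_ne_zero 3 hk.1 (by simpa using hγ.symm)
    have hm : Q.comap (algebraMap (𝓞 K') (𝓞 Ω)) ≠ ⊥ := by
      have hQ0 : Q ≠ ⊥ := by
        rintro rfl
        apply hP0
        rw [← hQP, ← RingHom.ker_eq_comap_bot, RingOfIntegers.ker_algebraMap_eq_bot]
      exact fun h => hQ0 (Ideal.eq_bot_of_comap_eq_bot h)
    obtain ⟨t, γ', a', -, e1, e2, e3⟩ := rescale (k := 3) (by norm_num) hγ0 ha hm
    have hγ' : ((γ' : K') : Ω) = ((t : Ω) * z) ^ 3 := by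
      rw [e1, mul_pow, ← hγ]
      push_cast
      ring
    have hmp : (Q.comap (algebraMap (𝓞 K') (𝓞 Ω))).IsPrime := Ideal.IsPrime.comap _
    have hnot : ¬ In Q (((t : Ω) * z) ^ 3) := by
      rw [← hγ', In_iff]
      intro h
      have h1 : a' ^ 3 ≤ Q.comap (algebraMap (𝓞 K') (𝓞 Ω)) := by
        rw [e2, Ideal.span_singleton_le_iff_mem]
        exact h
      have h2 := hmp.le_of_pow_le h1
      rw [sup_eq_right.2 h2] at e3
      exact hmp.ne_top e3
    have iZ : IsIntegral ℤ ((t : Ω) * z) :=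
      IsIntegral.of_pow (n := 3) (by norm_num) (hγ' ▸ int_coe γ')
    have fZ : Fx K w z zb ((t : Ω) * z) := fun h h1 h2 h3 _ => by
      rw [map_mul, hfix h h1 h2 t, h3]
    have gZ : g ((t : Ω) * z) = w * ((t : Ω) * z) := by
      rw [map_mul, hfix g g1 g2 t, g3]
      ring
    generalize (t : Ω) * z = Z at *
    have fw : ∀ u, Fx K w z zb u → Fx K w z zb (w * u) := fun u hu h h1 h2 h3 h4 => by
      rw [map_mul, h2, hu h h1 h2 h3 h4]
    have k1 := key Z iZ fZ (gZ ▸ fw Z fZ)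
    have gZ' : g (w * Z) = w * (w * Z) := by rw [map_mul, g2, gZ]
    have k2 := key (w * Z) (hwi.mul iZ) (fw Z fZ) (gZ' ▸ fw _ (fw Z fZ))
    rw [gZ] at k1
    rw [gZ'] at k2
    simp only [map_sub, map_mul, t2] at k1 k2
    have k3 : In Q (3 * Z) := by
      have := (In.mul isIntegral_one.neg k1).add (In.mul hwi k2)
      convert this using 1
      linear_combination (-(w - 2) * Z - (w ^ 3 - w ^ 2 - w + 1) * τ Z) * hw
    rcases In.prime hQ i3 iZ k3 with h | h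
    · exact hQ3 h
    · apply hnot
      have := In.mul (iZ.pow 2) h
      convert this using 1
      ring

end Pool.Agent.Lib.MP_af4c59_nt.K9
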