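import Pool.Agent.Lib.MP_af4c59_nt.K9Ide

/-!
The auxiliary primes split (part A6).
-/

set_option autoImplicit false

namespace Pool.Agent.Lib.MP_af4c59_nt.K9

open NumberField Module IsDedekindDomain

namespace KumCAux

theorem not_mem (K : IntermediateField ℚ Ω) [NumberField K] (hK : finrank ℚ K = 3) {w : Ω}
    (hw : w ^ 2 + w + 1 = 0) : w ∉ K := by
  intro h
  have h1 : (⟨w, h⟩ : K) ^ 2 + ⟨w, h⟩ + 1 = 0 := Subtype.ext hw
  have h3 : (⟨w, h⟩ : K) ^ 3 = 1 := by linear_combination ((⟨w, h⟩ : K) - 1) * h1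
  have hne : (⟨w, h⟩ : K) ≠ 1 := by
    intro e
    rw [e] at h1
    norm_num at h1
  have : Fact (Nat.Prime 3) := ⟨Nat.prime_three⟩
  have hp : IsPrimitiveRoot (⟨w, h⟩ : K) 3 :=
    IsPrimitiveRoot.iff_orderOf.2 (orderOf_eq_prime h3 hne)
  have a := InfinitePlace.IsPrimitiveRoot.nrRealPlaces_eq_zero_of_two_lt (by norm_num) hp
  have b := InfinitePlace.card_add_two_mul_card_eq_rank K
  omega

theorem exists_conj (K : IntermediateField ℚ Ω) {w : Ω} (h : w ∉ K) :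
    ∃ g : Ω ≃ₐ[ℚ] Ω, (∀ x ∈ K, g x = x) ∧ g w ≠ w := by
  by_contra hn
  push Not at hn
  apply h
  rw [← InfiniteGalois.fixedField_fixingSubgroup K, IntermediateField.mem_fixedField_iff]
  intro f hf
  exact hn f ((IntermediateField.mem_fixingSubgroup_iff K f).1 hf)

open IntermediateField in
theorem agree (K : IntermediateField ℚ Ω) {w : Ω} (h h' : Ω →ₐ[ℚ] Ω)
    (h1 : ∀ x ∈ K, h x = h' x) (h2 : h w = h' w) : ∀ x ∈ K ⊔ ℚ⟮w⟯, h x = h' x := by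
  let E : IntermediateField ℚ Ω := (AlgHom.equalizer h h').toIntermediateField (by
    intro x hx
    have hx' : h x = h' x := hx
    show h x⁻¹ = h' x⁻¹
    rw [map_inv₀, map_inv₀, hx'])
  have : K ⊔ ℚ⟮w⟯ ≤ E := sup_le (fun x hx => h1 x hx) (adjoin_simple_le_iff.2 h2)
  exact fun x hx => this hx

theorem cube_root {w ζ : Ω} (hw : w ^ 2 + w + 1 = 0) (h : ζ ^ 3 = 1) :
    ζ = 1 ∨ ζ = w ∨ ζ = w ^ 2 := by
  have : (ζ - 1) * ((ζ - w) * (ζ - w ^ 2)) = 0 := by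
    linear_combination h + (-ζ ^ 2 + w * ζ - (w - 1)) * hw
  rcases mul_eq_zero.1 this with h | h
  · exact Or.inl (sub_eq_zero.1 h)
  · rcases mul_eq_zero.1 h with h | h
    · exact Or.inr (Or.inl (sub_eq_zero.1 h))
    · exact Or.inr (Or.inr (sub_eq_zero.1 h))

/-- The elements of the group that fixes `N` either fix the data or swap the pair. -/
theorem fix_cases {K : IntermediateField ℚ Ω} {w z zb : Ω} (hw : w ^ 2 + w + 1 = 0)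
    (hk : Kum K w z zb) (h : Ω ≃ₐ[ℚ] Ω) (h1 : ∀ x ∈ K, h x = x) (h2 : h (h z) = z) :
    (h w = w ∧ h z = z ∧ h zb = zb) ∨ (h w = w ^ 2 ∧ h z = zb ∧ h zb = z) := by
  obtain ⟨ζ, hζ, hc⟩ := hk.2.2 h h1
  have hw3 : w ^ 3 = 1 := by linear_combination (w - 1) * hw
  have key : ζ ^ 2 * z = z → ζ = 1 := by
    intro e
    have e1 : ζ ^ 2 = 1 := mul_right_cancel₀ hk.1 (by rw [e, one_mul])
    calc ζ = ζ * ζ ^ 2 := by rw [e1, mul_one]
      _ = 1 := by rw [← hζ]; ring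
  rcases hc with ⟨a, b, c⟩ | ⟨a, b, c⟩
  · left
    have hz : h ζ = ζ := by
      rcases cube_root hw hζ with e | e | e <;> simp [e, a]
    have : ζ = 1 := key (by
      rw [b, map_mul, hz, b] at h2
      linear_combination h2)
    subst this
    exact ⟨a, by simpa using b, by simpa using c⟩
  · right
    have hz : h ζ = ζ ^ 2 := by
      rcases cube_root hw hζ with e | e | e <;> simp [e, a]
    have : ζ = 1 := key (by
      rw [b, map_mul, map_pow, hz, c] at h2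
      linear_combination h2 - ζ ^ 2 * z * hζ)
    subst this
    exact ⟨a, by simpa using b, by simpa using c⟩

end KumCAux

open IntermediateField in
theorem split_loc (K : IntermediateField ℚ Ω) [NumberField K] (hK : finrank ℚ K = 3) {w : Ω}
    (hw : w ^ 2 + w + 1 = 0) {z zb : Ω} (hk : Kum K w z zb)
    (K' : IntermediateField ℚ Ω) [NumberField K'] (hK' : K' = K ⊔ ℚ⟮w⟯) (γ : 𝓞 K')
    (hγ : ((γ : K') : Ω) = z ^ 3) (q : HeightOneSpectrum (𝓞 K)) (h3 : (3 : 𝓞 K) ∉ q.asIdeal)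
    (hq : ∀ Q : Ideal (𝓞 K'), Q.IsPrime → Over q Q → γ ∉ Q)
    (hq' : ∃ Q : Ideal (𝓞 K'), Q.IsPrime ∧ Over q Q ∧ ∃ c : 𝓞 K', γ - c ^ 3 ∈ Q)
    (N : IntermediateField ℚ Ω) [NumberField N] (g : Ω ≃ₐ[ℚ] Ω) (hN : IsN K w z zb N g) :
    ∃ P : Ideal (𝓞 N), P.IsPrime ∧ Over q P ∧
      ∃ x y : 𝓞 N, ((y : N) : Ω) = g ((x : N) : Ω) ∧ x ∈ P ∧ y ∉ P := by
  obtain ⟨Q, hQ, hQo, c, hc⟩ := hq'
  obtain ⟨hKN, hg1, hg2, hg3, hg4, hNm⟩ := hN
  have hKK' : K ≤ K' := hK' ▸ le_sup_left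
  have hwK' : w ∈ K' := hK' ▸ (le_sup_right : ℚ⟮w⟯ ≤ K ⊔ ℚ⟮w⟯) (mem_adjoin_simple_self ℚ w)
  have hw3 : w ^ 3 = 1 := by linear_combination (w - 1) * hw
  obtain ⟨g0, g01, g02⟩ := KumCAux.exists_conj K (KumCAux.not_mem K hK hw)
  obtain ⟨ζ, hζ, hc0⟩ := hk.2.2 g0 g01
  obtain ⟨g0w, g0z, -⟩ := hc0.resolve_left fun h => g02 h.1
  obtain ⟨𝔓, h𝔓, hcomap⟩ := Ideal.exists_ideal_over_prime_of_isIntegral_of_isDomain
    (S := 𝓞 Ω) Q (by
      rw [(RingHom.injective_iff_ker_eq_bot _).1 (RingOfIntegers.algebraMap.injective K' Ω)]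
      exact bot_le)
  have coeK' : ∀ a : 𝓞 K', ((algebraMap (𝓞 K') (𝓞 Ω) a : 𝓞 Ω) : Ω) = ((a : K') : Ω) :=
    fun _ => rfl
  have coeN : ∀ a : 𝓞 N, ((algebraMap (𝓞 N) (𝓞 Ω) a : 𝓞 Ω) : Ω) = ((a : N) : Ω) :=
    fun _ => rfl
  have memQ : ∀ a : 𝓞 K', a ∈ Q ↔ algebraMap (𝓞 K') (𝓞 Ω) a ∈ 𝔓 := fun a => by
    rw [← hcomap]; rfl
  have intO : ∀ a : 𝓞 Ω, IsIntegral ℤ (a : Ω) := fun a => a.isIntegral_coe
  let σ : 𝓞 Ω →+* 𝓞 Ω := RingOfIntegers.mapRingHom (g0 : Ω →+* Ω)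
  have coeσ : ∀ a : 𝓞 Ω, ((σ a : 𝓞 Ω) : Ω) = g0 (a : Ω) := fun _ => rfl
  set Γ : 𝓞 Ω := algebraMap (𝓞 K') (𝓞 Ω) γ with hΓ
  have hzi : IsIntegral ℤ z := by
    refine IsIntegral.of_pow (n := 3) (by norm_num) ?_
    rw [← hγ]; exact intO Γ
  have hzb3 : zb ^ 3 = ((σ Γ : 𝓞 Ω) : Ω) := by
    rw [coeσ, hΓ, coeK', hγ, map_pow, g0z]
    linear_combination (-(zb ^ 3) * (ζ ^ 3 + 1)) * hζ
  have hzbi : IsIntegral ℤ zb := by
    refine IsIntegral.of_pow (n := 3) (by norm_num) ?_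
    rw [hzb3]; exact intO _
  have hwi : IsIntegral ℤ w := by
    refine IsIntegral.of_pow (n := 3) (by norm_num) ?_
    rw [hw3]; exact isIntegral_one
  let Z : 𝓞 Ω := ⟨z, hzi⟩
  let Zb : 𝓞 Ω := ⟨zb, hzbi⟩
  let W : 𝓞 Ω := ⟨w, hwi⟩
  have hW : W ^ 2 + W + 1 = 0 := RingOfIntegers.ext hw
  have hZ3 : Z ^ 3 = Γ := RingOfIntegers.ext hγ.symm
  have hZb3 : Zb ^ 3 = σ Γ := RingOfIntegers.ext hzb3
  -- every element of the ring of integers of `K` has a copy in that of `K'`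
  have lift : ∀ x : 𝓞 K, ∃ x' : 𝓞 K', ((x : K) : Ω) = ((x' : K') : Ω) := by
    intro x
    have hx : IsIntegral ℤ ((x : K) : Ω) := x.isIntegral_coe.map (K.val.restrictScalars ℤ)
    have hx' : IsIntegral ℤ (⟨((x : K) : Ω), hKK' (x : K).2⟩ : K') :=
      (isIntegral_algHom_iff (K'.val.restrictScalars ℤ) Subtype.val_injective).1 hx
    exact ⟨⟨_, hx'⟩, rfl⟩
  have memq : ∀ (x : 𝓞 K) (a : 𝓞 Ω), ((x : K) : Ω) = (a : Ω) → (a ∈ 𝔓 ↔ x ∈ q.asIdeal) := by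
    intro x a ha
    obtain ⟨x', hx'⟩ := lift x
    rw [← hQo x x' hx', memQ]
    have : algebraMap (𝓞 K') (𝓞 Ω) x' = a := RingOfIntegers.ext (by rw [coeK', ← hx', ha])
    rw [this]
  have h3P : (3 : 𝓞 Ω) ∉ 𝔓 := fun h => h3 ((memq 3 3 rfl).1 h)
  have hW1 : 1 - W ∉ 𝔓 := by
    intro h
    apply h3P
    have : (3 : 𝓞 Ω) = (1 - W) * (2 + W) := by linear_combination hW
    rw [this]
    exact 𝔓.mul_mem_right _ h
  have hWP : W ∉ 𝔓 := by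
    intro h
    apply h𝔓.ne_top
    rw [Ideal.eq_top_iff_one]
    have : (1 : 𝓞 Ω) = W * (-W - 1) := by linear_combination hW
    rw [this]
    exact 𝔓.mul_mem_right _ h
  have hZP : Z ∉ 𝔓 := by
    intro h
    apply hq Q hQ hQo
    rw [memQ, ← hΓ, ← hZ3]
    exact 𝔓.pow_mem_of_mem h 3 (by norm_num)
  have hZbP : Zb ∉ 𝔓 := by
    intro h
    apply hq (𝔓.comap (σ.comp (algebraMap (𝓞 K') (𝓞 Ω)))) (Ideal.comap_isPrime _ _)
    · intro x x' hx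
      rw [Ideal.mem_comap]
      apply memq
      rw [RingHom.comp_apply, coeσ, coeK', ← hx, g01 _ (x : K).2]
    · rw [Ideal.mem_comap, RingHom.comp_apply, ← hΓ, ← hZb3]
      exact 𝔓.pow_mem_of_mem h 3 (by norm_num)
  -- a cube root of the residue
  obtain ⟨C, hC1, hC2⟩ : ∃ C : 𝓞 Ω, (C : Ω) ∈ K' ∧ Z - C ∈ 𝔓 := by
    set C0 : 𝓞 Ω := algebraMap (𝓞 K') (𝓞 Ω) c with hC0
    have hm : (C0 : Ω) ∈ K' := (c : K').2
    have h1 : (Z - C0) * ((Z - W * C0) * (Z - W ^ 2 * C0)) ∈ 𝔓 := by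
      have h2 := (memQ _).1 hc
      rw [map_sub, map_pow, ← hΓ, ← hZ3, ← hC0] at h2
      have e : (Z - C0) * ((Z - W * C0) * (Z - W ^ 2 * C0)) = Z ^ 3 - C0 ^ 3 := by
        linear_combination (-Z ^ 2 * C0 + W * Z * C0 ^ 2 - (W - 1) * C0 ^ 3) * hW
      rwa [e]
    rcases h𝔓.mem_or_mem h1 with h | h
    · exact ⟨C0, hm, h⟩
    · rcases h𝔓.mem_or_mem h with h | h
      · exact ⟨W * C0, K'.mul_mem hwK' hm, h⟩
      · exact ⟨W ^ 2 * C0, K'.mul_mem (pow_mem hwK' 2) hm, h⟩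
  set Cb : 𝓞 Ω := σ C with hCb
  have hcb : (Cb : Ω) = g0 (C : Ω) := rfl
  have hC1' : (C : Ω) ∈ K ⊔ ℚ⟮w⟯ := hK' ▸ hC1
  have fixC : ∀ h : Ω ≃ₐ[ℚ] Ω, (∀ x ∈ K, h x = x) → h w = w →
      h (C : Ω) = C ∧ h (Cb : Ω) = Cb := by
    intro h h1 h2
    refine ⟨KumCAux.agree K (h : Ω →ₐ[ℚ] Ω) (AlgHom.id ℚ Ω) h1 h2 _ hC1', ?_⟩
    exact KumCAux.agree K ((h : Ω →ₐ[ℚ] Ω).comp (g0 : Ω →ₐ[ℚ] Ω)) (g0 : Ω →ₐ[ℚ] Ω)
      (fun x hx => by simp [g01 x hx, h1 x hx]) (by simp [g0w, h2]) _ hC1'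
  have swapC : ∀ h : Ω ≃ₐ[ℚ] Ω, (∀ x ∈ K, h x = x) → h w = w ^ 2 →
      h (C : Ω) = Cb ∧ h (Cb : Ω) = C := by
    intro h h1 h2
    refine ⟨KumCAux.agree K (h : Ω →ₐ[ℚ] Ω) (g0 : Ω →ₐ[ℚ] Ω)
      (fun x hx => by simp [g01 x hx, h1 x hx]) (by simp [g0w, h2]) _ hC1', ?_⟩
    refine KumCAux.agree K ((h : Ω →ₐ[ℚ] Ω).comp (g0 : Ω →ₐ[ℚ] Ω)) (AlgHom.id ℚ Ω)
      (fun x hx => by simp [g01 x hx, h1 x hx]) ?_ _ hC1'
    show h (g0 w) = w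
    rw [g0w, map_pow, h2]
    linear_combination w * hw3
  let X : ℕ → 𝓞 Ω := fun i => (W ^ i * Z - C) * (W ^ (2 * i) * Zb - Cb)
  have hX : ∀ i, (X i : Ω) = (w ^ i * z - C) * (w ^ (2 * i) * zb - Cb) := fun _ => rfl
  have hXN : ∀ i, (X i : Ω) ∈ N := by
    intro i
    rw [hNm]
    intro h h1 h2
    rw [hX]
    rcases KumCAux.fix_cases hw hk h h1 h2 with ⟨a, b, d⟩ | ⟨a, b, d⟩
    · obtain ⟨e1, e2⟩ := fixC h h1 a
      simp only [map_mul, map_sub, map_pow, a, b, d, e1, e2]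
    · obtain ⟨e1, e2⟩ := swapC h h1 a
      simp only [map_mul, map_sub, map_pow, a, b, d, e1, e2]
      have e3 : (w ^ 2) ^ (2 * i) = w ^ i := by
        rw [← pow_mul, show 2 * (2 * i) = 3 * i + i by ring, pow_add, pow_mul, hw3, one_pow,
          one_mul]
      rw [e3, ← pow_mul, mul_comm]
  have hgX : ∀ i, (X (i + 1) : Ω) = g (X i : Ω) := by
    intro i
    obtain ⟨e1, e2⟩ := fixC g hg1 hg2
    rw [hX, hX]
    simp only [map_mul, map_sub, map_pow, hg2, hg3, hg4, e1, e2]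
    ring
  have hx : ∀ i, ∃ x : 𝓞 N, algebraMap (𝓞 N) (𝓞 Ω) x = X i := by
    intro i
    have hx' : IsIntegral ℤ (⟨(X i : Ω), hXN i⟩ : N) :=
      (isIntegral_algHom_iff (N.val.restrictScalars ℤ) Subtype.val_injective).1 (intO (X i))
    exact ⟨⟨_, hx'⟩, RingOfIntegers.ext rfl⟩
  choose x hx using hx
  have hxg : ∀ i, ((x (i + 1) : N) : Ω) = g ((x i : N) : Ω) := by
    intro i
    rw [← coeN, ← coeN, hx, hx, hgX]
  have h0 : X 0 ∈ 𝔓 := by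
    apply 𝔓.mul_mem_right
    simpa using hC2
  have h12 : X 1 ∈ 𝔓 → X 2 ∉ 𝔓 := by
    intro a b
    have a' : W ^ (2 * 1) * Zb - Cb ∈ 𝔓 := by
      refine (h𝔓.mem_or_mem a).resolve_left fun h => ?_
      have := 𝔓.sub_mem hC2 h
      have e : Z - C - (W ^ 1 * Z - C) = (1 - W) * Z := by ring
      rw [e] at this
      exact (h𝔓.mem_or_mem this).elim hW1 hZP
    have b' : W ^ (2 * 2) * Zb - Cb ∈ 𝔓 := by
      refine (h𝔓.mem_or_mem b).resolve_left fun h => ?_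
      have := 𝔓.sub_mem h hC2
      have e : W ^ 2 * Z - C - (Z - C) = (1 - W) * (W * (W * Z)) := by
        linear_combination ((W - 1) * Z) * hW
      rw [e] at this
      exact (h𝔓.mem_or_mem this).elim hW1 fun h => (h𝔓.mem_or_mem h).elim hWP
        fun h => (h𝔓.mem_or_mem h).elim hWP hZP
    have := 𝔓.sub_mem b' a'
    have e : W ^ (2 * 2) * Zb - Cb - (W ^ (2 * 1) * Zb - Cb) = (1 - W) * (W * Zb) := by
      linear_combination (W * (W - 1) * Zb) * hW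
    rw [e] at this
    exact (h𝔓.mem_or_mem this).elim hW1 fun h => (h𝔓.mem_or_mem h).elim hWP hZbP
  refine ⟨𝔓.comap (algebraMap (𝓞 N) (𝓞 Ω)), Ideal.comap_isPrime _ _, fun a a' ha => ?_, ?_⟩
  · rw [Ideal.mem_comap]
    exact memq a _ (by rw [coeN, ha])
  · by_cases h1 : X 1 ∈ 𝔓
    · refine ⟨x 1, x 2, hxg 1, ?_, ?_⟩
      · rw [Ideal.mem_comap, hx]; exact h1
      · rw [Ideal.mem_comap, hx]; exact h12 h1
    · refine ⟨x 0, x 1, hxg 0, ?_, ?_⟩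
      · rw [Ideal.mem_comap, hx]; exact h0
      · rw [Ideal.mem_comap, hx]; exact h1

end Pool.Agent.Lib.MP_af4c59_nt.K9
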