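import Pool.Agent.Lib.MP_af4c59_nt.K9KumA
import Pool.Agent.Lib.MP_af4c59_nt.K9KumB
import Pool.Agent.Lib.MP_af4c59_nt.K9KumC

/-!
Kummer data with trivial local types do not exist (part A6, second half).
-/

set_option autoImplicit false

namespace Pool.Agent.Lib.MP_af4c59_nt.K9

open NumberField Module IsDedekindDomain

open IntermediateField in
theorem kum_contra (K : IntermediateField ℚ Ω) [NumberField K] (hK : finrank ℚ K = 3) {w : Ω}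
    (hw : w ^ 2 + w + 1 = 0) (T : Finset (HeightOneSpectrum (𝓞 K))) (hT : Sat T)
    (h3T : ∀ q ∈ T, (3 : 𝓞 K) ∉ q.asIdeal) {z zb : Ω} (hk : Kum K w z zb)
    (hne : ∃ g : Ω ≃ₐ[ℚ] Ω, (∀ x ∈ K, g x = x) ∧ g (g z) ≠ z)
    (K' : IntermediateField ℚ Ω) [NumberField K'] (hK' : K' = K ⊔ ℚ⟮w⟯) (γ : 𝓞 K')
    (hγ : ((γ : K') : Ω) = z ^ 3) (hcube : ∃ a : Ideal (𝓞 K'), a ^ 3 = Ideal.span {γ})
    (h3 : IsCoprime γ 3)
    (h3' : ∃ c d : 𝓞 K', (((γ - c ^ 3 : 𝓞 K') : K') : Ω) = (1 - w) ^ 3 * ((d : K') : Ω))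
    (hq : ∀ q ∈ T, ∀ Q : Ideal (𝓞 K'), Q.IsPrime → Over q Q → γ ∉ Q)
    (hq' : ∀ q ∈ T, ∃ Q : Ideal (𝓞 K'), Q.IsPrime ∧ Over q Q ∧ ∃ c : 𝓞 K', γ - c ^ 3 ∈ Q) :
    False := by
  exact unram_omega K hK hw hk hne T hT
    (fun N _ g hN P hP hP0 => unram_loc K hK hw hk K' hK' γ hγ hcube h3 h3' N g hN P hP hP0)
    (fun N _ g hN q hqT => split_loc K hK hw hk K' hK' γ hγ q (h3T q hqT) (hq q hqT) (hq' q hqT)
      N g hN)

end Pool.Agent.Lib.MP_af4c59_nt.K9
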