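import Pool.Agent.Lib.MP_af4c59_nt.K9Unr

/-!
The cyclic cubic extension cut out by a pair of resolvents (part A6).
-/

set_option autoImplicit false

namespace Pool.Agent.Lib.MP_af4c59_nt.K9

open NumberField Module IsDedekindDomain

namespace KumAAux

lemma mem_iff (N : IntermediateField ℚ Ω) (y : Ω) :
    y ∈ N ↔ ∀ h : Ω ≃ₐ[ℚ] Ω, (∀ x ∈ N, h x = x) → h y = y := by
  constructor
  · intro hy h hh
    exact hh y hy
  · intro hy
    rw [← InfiniteGalois.fixedField_fixingSubgroup N, IntermediateField.mem_fixedField_iff]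
    intro h hh
    exact hy h ((IntermediateField.mem_fixingSubgroup_iff N h).1 hh)

lemma w_cube {w : Ω} (hw : w ^ 2 + w + 1 = 0) : w ^ 3 = 1 := by
  linear_combination (w - 1) * hw

lemma w_ne_one {w : Ω} (hw : w ^ 2 + w + 1 = 0) : w ≠ 1 := by
  intro h
  rw [h] at hw
  norm_num at hw

lemma w_ne_zero {w : Ω} (hw : w ^ 2 + w + 1 = 0) : w ≠ 0 := by
  intro h
  rw [h] at hw
  norm_num at hw

lemma root_cases {w : Ω} (hw : w ^ 2 + w + 1 = 0) {η : Ω} (h : η ^ 3 = 1) :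
    η = 1 ∨ η = w ∨ η = w ^ 2 := by
  have h3 := w_cube hw
  have : (η - 1) * ((η - w) * (η - w ^ 2)) = 0 := by
    linear_combination h - η ^ 2 * hw + η * w * hw - h3
  rcases mul_eq_zero.1 this with h1 | h1
  · exact Or.inl (sub_eq_zero.1 h1)
  · rcases mul_eq_zero.1 h1 with h2 | h2
    · exact Or.inr (Or.inl (sub_eq_zero.1 h2))
    · exact Or.inr (Or.inr (sub_eq_zero.1 h2))

lemma fix_root {w : Ω} (hw : w ^ 2 + w + 1 = 0) (h : Ω ≃ₐ[ℚ] Ω) (hh : h w = w) {η : Ω}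
    (hη : η ^ 3 = 1) : h η = η := by
  rcases root_cases hw hη with r | r | r <;> rw [r] <;> simp [hh]

lemma sq_root {w : Ω} (hw : w ^ 2 + w + 1 = 0) (h : Ω ≃ₐ[ℚ] Ω) (hh : h w = w ^ 2) {η : Ω}
    (hη : η ^ 3 = 1) : h η = η ^ 2 := by
  rcases root_cases hw hη with r | r | r <;> rw [r] <;> simp [hh]

/-- The action of an automorphism over `K` on the three conjugates. -/
lemma act {K : IntermediateField ℚ Ω} {w : Ω} (hw : w ^ 2 + w + 1 = 0) {z zb : Ω}
    (hk : Kum K w z zb) (h : Ω ≃ₐ[ℚ] Ω) (hh : ∀ x ∈ K, h x = x) :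
    ∃ ζ : Ω, ζ ^ 3 = 1 ∧
      (∀ η : Ω, η ^ 3 = 1 → h (η * z + η ^ 2 * zb) = (η * ζ) * z + (η * ζ) ^ 2 * zb) ∧
      h (h w) = w ∧ h (h z) = ζ ^ 2 * z ∧ h (h zb) = ζ * zb := by
  obtain ⟨ζ, hζ, hc⟩ := hk.2.2 h hh
  have h3 := w_cube hw
  refine ⟨ζ, hζ, ?_⟩
  rcases hc with ⟨h1, h2, h4⟩ | ⟨h1, h2, h4⟩
  · have hf := fun η (hη : η ^ 3 = 1) => fix_root hw h h1 hη
    refine ⟨fun η hη => ?_, by rw [h1, h1], ?_, ?_⟩
    · rw [map_add, map_mul, map_mul, map_pow, hf η hη, h2, h4]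
      ring
    · rw [h2, map_mul, hf ζ hζ, h2]
      ring
    · rw [h4, map_mul, map_pow, hf ζ hζ, h4]
      linear_combination ζ * zb * hζ
  · have hf := fun η (hη : η ^ 3 = 1) => sq_root hw h h1 hη
    refine ⟨fun η hη => ?_, ?_, ?_, ?_⟩
    · rw [map_add, map_mul, map_mul, map_pow, hf η hη, h2, h4]
      linear_combination η * ζ * z * hη
    · rw [h1, map_pow, h1]
      linear_combination w * h3
    · rw [h2, map_mul, map_pow, hf ζ hζ, h4]
      linear_combination ζ ^ 2 * z * hζ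
    · rw [h4, map_mul, hf ζ hζ, h2]
      linear_combination ζ * zb * hζ

/-- A generator with the standard action. -/
lemma exists_gen {K : IntermediateField ℚ Ω} {w : Ω} (hw : w ^ 2 + w + 1 = 0) {z zb : Ω}
    (hk : Kum K w z zb) (hne : ∃ g : Ω ≃ₐ[ℚ] Ω, (∀ x ∈ K, g x = x) ∧ g (g z) ≠ z) :
    ∃ g : Ω ≃ₐ[ℚ] Ω, (∀ x ∈ K, g x = x) ∧ g w = w ∧ g z = w * z ∧ g zb = w ^ 2 * zb := by
  obtain ⟨g, hg, hz⟩ := hne
  obtain ⟨ζ, hζ, -, h1, h2, h4⟩ := act hw hk g hg
  have h3 := w_cube hw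
  rcases root_cases hw hζ with r | r | r
  · rw [r] at h2
    exact absurd (by rw [h2]; ring) hz
  · rw [r] at h2 h4
    refine ⟨(g * g) * (g * g), fun x hx => ?_, ?_, ?_, ?_⟩
    · simp [AlgEquiv.mul_apply, hg x hx]
    · simp only [AlgEquiv.mul_apply, h1]
    · simp only [AlgEquiv.mul_apply]
      rw [h2, map_mul, map_mul, map_pow, map_pow, h1, h2]
      linear_combination w * z * h3
    · simp only [AlgEquiv.mul_apply]
      rw [h4, map_mul, map_mul, h1, h4]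
      ring
  · rw [r] at h2 h4
    refine ⟨g * g, fun x hx => ?_, ?_, ?_, ?_⟩
    · simp [AlgEquiv.mul_apply, hg x hx]
    · simp only [AlgEquiv.mul_apply, h1]
    · simp only [AlgEquiv.mul_apply]
      rw [h2]
      linear_combination w * z * h3
    · simp only [AlgEquiv.mul_apply]
      rw [h4]

/-- The three conjugates are distinct. -/
lemma inj {w : Ω} (hw : w ^ 2 + w + 1 = 0) {z zb : Ω} (hz : z ≠ 0) (g : Ω ≃ₐ[ℚ] Ω)
    (g1 : g w = w) (g2 : g z = w * z) (g3 : g zb = w ^ 2 * zb) {ζ : Ω} (hζ : ζ ^ 3 = 1)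
    (he : ζ * z + ζ ^ 2 * zb = z + zb) : ζ = 1 := by
  by_contra hne
  have h0 : ζ ^ 2 + ζ + 1 = 0 := by
    have : (ζ - 1) * (ζ ^ 2 + ζ + 1) = 0 := by linear_combination hζ
    exact (mul_eq_zero.1 this).resolve_left (sub_ne_zero.2 hne)
  have h1 : z = ζ ^ 2 * zb := by
    have : (ζ - 1) * (z - ζ ^ 2 * zb) = 0 := by
      linear_combination he - (ζ - 1) * zb * h0
    exact sub_eq_zero.1 ((mul_eq_zero.1 this).resolve_left (sub_ne_zero.2 hne))
  have h2 : g z = g (ζ ^ 2 * zb) := by rw [← h1]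
  rw [g2, map_mul, map_pow, fix_root hw g g1 hζ, g3] at h2
  have h4 : w * ((1 - w) * z) = 0 := by linear_combination h2 - w ^ 2 * h1
  rcases mul_eq_zero.1 h4 with h5 | h5
  · exact w_ne_zero hw h5
  · rcases mul_eq_zero.1 h5 with h6 | h6
    · exact w_ne_one hw (sub_eq_zero.1 h6).symm
    · exact hz h6

/-- The restriction of an automorphism to a stable subfield. -/
noncomputable def restr {K N : IntermediateField ℚ Ω} [Algebra K N]
    (hal : ∀ x : K, ((algebraMap K N x : N) : Ω) = (x : Ω))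
    (hst : ∀ h : Ω ≃ₐ[ℚ] Ω, (∀ x ∈ K, h x = x) → ∀ y ∈ N, h y ∈ N)
    (h : Ω ≃ₐ[ℚ] Ω) (hh : ∀ x ∈ K, h x = x) : N ≃ₐ[K] N where
  toFun y := ⟨h y, hst h hh y y.2⟩
  invFun y := ⟨h.symm y, hst h.symm (fun x hx => by
    rw [AlgEquiv.symm_apply_eq, hh x hx]) y y.2⟩
  left_inv y := by
    apply Subtype.ext
    simp
  right_inv y := by
    apply Subtype.ext
    simp
  map_mul' a b := by
    apply Subtype.ext
    simp
  map_add' a b := by
    apply Subtype.ext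
    simp
  commutes' x := by
    apply Subtype.ext
    change h ((algebraMap K N x : N) : Ω) = ((algebraMap K N x : N) : Ω)
    rw [hal x, hh x x.2]

lemma restr_apply {K N : IntermediateField ℚ Ω} [Algebra K N]
    (hal : ∀ x : K, ((algebraMap K N x : N) : Ω) = (x : Ω))
    (hst : ∀ h : Ω ≃ₐ[ℚ] Ω, (∀ x ∈ K, h x = x) → ∀ y ∈ N, h y ∈ N)
    (h : Ω ≃ₐ[ℚ] Ω) (hh : ∀ x ∈ K, h x = x) (y : N) :
    ((restr hal hst h hh y : N) : Ω) = h y := rfl

end KumAAux

open KumAAux IntermediateField in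
theorem unram_omega (K : IntermediateField ℚ Ω) [NumberField K] (hK : finrank ℚ K = 3) {w : Ω}
    (hw : w ^ 2 + w + 1 = 0) {z zb : Ω} (hk : Kum K w z zb)
    (hne : ∃ g : Ω ≃ₐ[ℚ] Ω, (∀ x ∈ K, g x = x) ∧ g (g z) ≠ z)
    (T : Finset (HeightOneSpectrum (𝓞 K))) (hT : Sat T)
    (hU : ∀ (N : IntermediateField ℚ Ω) [NumberField N] (g : Ω ≃ₐ[ℚ] Ω), IsN K w z zb N g →
      ∀ P : Ideal (𝓞 N), P.IsPrime → P ≠ ⊥ →
        ∃ x y : 𝓞 N, ((y : N) : Ω) = g ((x : N) : Ω) ∧ y - x ∉ P)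
    (hS : ∀ (N : IntermediateField ℚ Ω) [NumberField N] (g : Ω ≃ₐ[ℚ] Ω), IsN K w z zb N g →
      ∀ q ∈ T, ∃ P : Ideal (𝓞 N), P.IsPrime ∧ Over q P ∧
        ∃ x y : 𝓞 N, ((y : N) : Ω) = g ((x : N) : Ω) ∧ x ∈ P ∧ y ∉ P) : False := by
  classical
  obtain ⟨g, hg, g1, g2, g3⟩ := exists_gen hw hk hne
  have hz : z ≠ 0 := hk.1
  have h3 := w_cube hw
  have hinj : ∀ ζ : Ω, ζ ^ 3 = 1 → ζ * z + ζ ^ 2 * zb = z + zb → ζ = 1 :=
    fun ζ hζ he => inj hw hz g g1 g2 g3 hζ he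
  -- the value of an automorphism at the first conjugate
  have hval : ∀ h : Ω ≃ₐ[ℚ] Ω, (∀ x ∈ K, h x = x) → ∃ ζ : Ω, ζ ^ 3 = 1 ∧
      h (z + zb) = ζ * z + ζ ^ 2 * zb ∧
      (∀ η : Ω, η ^ 3 = 1 → h (η * z + η ^ 2 * zb) = (η * ζ) * z + (η * ζ) ^ 2 * zb) ∧
      h (h z) = ζ ^ 2 * z := by
    intro h hh
    obtain ⟨ζ, hζ, ha, -, hb, -⟩ := act hw hk h hh
    refine ⟨ζ, hζ, ?_, ha, hb⟩
    have := ha 1 (by norm_num)
    simpa using this
  have hker : ∀ h : Ω ≃ₐ[ℚ] Ω, (∀ x ∈ K, h x = x) → (h (h z) = z ↔ h (z + zb) = z + zb) := by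
    intro h hh
    obtain ⟨ζ, hζ, ha, -, hb⟩ := hval h hh
    constructor
    · intro h1
      have h2 : (ζ ^ 2 - 1) * z = 0 := by linear_combination h1 - hb
      have h4 : ζ ^ 2 = 1 := sub_eq_zero.1 ((mul_eq_zero.1 h2).resolve_right hz)
      have h5 : ζ = 1 := by linear_combination hζ - ζ * h4
      rw [ha, h5]
      ring
    · intro h1
      have h5 : ζ = 1 := hinj ζ hζ (by rw [← ha, h1])
      rw [hb, h5]
      ring
  let S : Subgroup (Ω ≃ₐ[ℚ] Ω) := K.fixingSubgroup ⊓ MulAction.stabilizer (Ω ≃ₐ[ℚ] Ω) (z + zb)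
  let N : IntermediateField ℚ Ω := fixedField S
  have hmem : ∀ y : Ω, y ∈ N ↔
      ∀ h : Ω ≃ₐ[ℚ] Ω, (∀ x ∈ K, h x = x) → h (z + zb) = z + zb → h y = y := by
    intro y
    rw [IntermediateField.mem_fixedField_iff]
    constructor
    · intro H h hh h1
      exact H h ⟨(IntermediateField.mem_fixingSubgroup_iff K h).2 hh, h1⟩
    · intro H h hh
      exact H h ((IntermediateField.mem_fixingSubgroup_iff K h).1 hh.1) hh.2
  have hKN : K ≤ N := fun x hx => (hmem x).2 fun h hh _ => hh x hx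
  have hyN : z + zb ∈ N := (hmem _).2 fun h _ h1 => h1
  have hle : N ≤ K ⊔ ℚ⟮z + zb⟯ := by
    intro y hy
    rw [mem_iff]
    intro h hh
    refine (hmem y).1 hy h (fun x hx => hh x (le_sup_left (a := K) (b := ℚ⟮z + zb⟯) hx)) ?_
    exact hh _ (le_sup_right (a := K) (b := ℚ⟮z + zb⟯) (mem_adjoin_simple_self ℚ (z + zb)))
  haveI : FiniteDimensional ℚ ℚ⟮z + zb⟯ :=
    adjoin.finiteDimensional (Algebra.IsIntegral.isIntegral (z + zb))
  haveI : FiniteDimensional ℚ N :=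
    Module.Finite.of_injective (inclusion hle).toLinearMap (inclusion_injective hle)
  haveI : NumberField N := NumberField.mk
  have hN : IsN K w z zb N g := by
    refine ⟨hKN, hg, g1, g2, g3, fun y => ?_⟩
    rw [hmem y]
    constructor
    · intro H h hh h1
      exact H h hh ((hker h hh).1 h1)
    · intro H h hh h1
      exact H h hh ((hker h hh).2 h1)
  have hst : ∀ h : Ω ≃ₐ[ℚ] Ω, (∀ x ∈ K, h x = x) → ∀ y ∈ N, h y ∈ N := by
    intro h hh y hy
    rw [hmem]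
    intro k hkK hk1
    obtain ⟨ζ, hζ, ha, -, -⟩ := hval h hh
    obtain ⟨ξ, hξ, hb, hc, -⟩ := hval k hkK
    have hξ1 : ξ = 1 := hinj ξ hξ (by rw [← hb, hk1])
    have h1 := (hmem y).1 hy (h.symm * k * h) (fun x hx => by
      simp only [AlgEquiv.mul_apply]
      rw [hh x hx, hkK x hx, AlgEquiv.symm_apply_eq, hh x hx]) (by
      simp only [AlgEquiv.mul_apply]
      rw [AlgEquiv.symm_apply_eq, ha, hc ζ hζ, hξ1, mul_one])
    simp only [AlgEquiv.mul_apply] at h1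
    rwa [AlgEquiv.symm_apply_eq] at h1
  have hg1 : g (z + zb) = w * z + w ^ 2 * zb := by rw [map_add, g2, g3]
  have hg2 : g (g (z + zb)) = w ^ 2 * z + (w ^ 2) ^ 2 * zb := by
    rw [hg1, map_add, map_mul, map_mul, map_pow, g1, g2, g3]
    ring
  have htri : ∀ h : Ω ≃ₐ[ℚ] Ω, (∀ x ∈ K, h x = x) →
      (∀ y ∈ N, h y = y) ∨ (∀ y ∈ N, h y = g y) ∨ (∀ y ∈ N, h y = g (g y)) := by
    intro h hh
    obtain ⟨ζ, hζ, ha, -, -⟩ := hval h hh
    rcases root_cases hw hζ with r | r | r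
    · refine Or.inl fun y hy => (hmem y).1 hy h hh ?_
      rw [ha, r]
      ring
    · refine Or.inr (Or.inl fun y hy => ?_)
      have h1 := (hmem y).1 hy (g.symm * h) (fun x hx => by
        simp only [AlgEquiv.mul_apply]
        rw [hh x hx, AlgEquiv.symm_apply_eq, hg x hx]) (by
        simp only [AlgEquiv.mul_apply]
        rw [AlgEquiv.symm_apply_eq, ha, hg1, r])
      simp only [AlgEquiv.mul_apply] at h1
      rwa [AlgEquiv.symm_apply_eq] at h1
    · refine Or.inr (Or.inr fun y hy => ?_)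
      have h1 := (hmem y).1 hy (g.symm * (g.symm * h)) (fun x hx => by
        simp only [AlgEquiv.mul_apply]
        rw [hh x hx, AlgEquiv.symm_apply_eq, AlgEquiv.symm_apply_eq, hg x hx, hg x hx]) (by
        simp only [AlgEquiv.mul_apply]
        rw [AlgEquiv.symm_apply_eq, AlgEquiv.symm_apply_eq, ha, hg2, r])
      simp only [AlgEquiv.mul_apply] at h1
      rwa [AlgEquiv.symm_apply_eq, AlgEquiv.symm_apply_eq] at h1
  letI : Algebra K N := (inclusion hKN).toRingHom.toAlgebra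
  have hal : ∀ x : K, ((algebraMap K N x : N) : Ω) = (x : Ω) := fun x => rfl
  haveI : IsScalarTower ℚ K N := IsScalarTower.of_algebraMap_eq fun x => by
    apply Subtype.ext
    rw [hal]
    simp
  haveI : FiniteDimensional K N := Module.Finite.of_restrictScalars_finite ℚ K N
  let σ : N ≃ₐ[K] N := restr hal hst g hg
  have hσ : ∀ y : N, ((σ y : N) : Ω) = g y := fun y => rfl
  haveI : IsGalois K N := by
    apply IsGalois.of_fixedField_eq_bot
    rw [eq_bot_iff]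
    intro y hy
    rw [IntermediateField.mem_fixedField_iff] at hy
    have hyK : (y : Ω) ∈ K := by
      rw [mem_iff]
      intro h hh
      have := hy (restr hal hst h hh) (Subgroup.mem_top _)
      exact congrArg Subtype.val this
    exact IntermediateField.mem_bot.2 ⟨⟨y, hyK⟩, Subtype.ext rfl⟩
  have hw2 : (w ^ 2) ^ 3 = 1 := by linear_combination (w ^ 3 + 1) * h3
  have hww : w ^ 2 ≠ 1 := by
    intro h
    apply w_ne_one hw
    linear_combination h3 - w * h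
  have hσ1 : σ ≠ 1 := by
    intro h
    have h1 := hσ ⟨z + zb, hyN⟩
    rw [h] at h1
    exact w_ne_one hw (hinj w h3 (by rw [← hg1]; exact h1.symm))
  have hσ2 : σ * σ ≠ 1 := by
    intro h
    have h1 : (((σ * σ) ⟨z + zb, hyN⟩ : N) : Ω) = g (g (z + zb)) := rfl
    rw [h] at h1
    exact hww (hinj (w ^ 2) hw2 (by rw [← hg2]; exact h1.symm))
  have hσ3 : σ ≠ σ * σ := by
    intro h
    apply hσ1
    have := mul_left_cancel (a := σ) (b := 1) (c := σ) (by rw [mul_one]; exact h)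
    exact this.symm
  have hall : (Set.univ : Set (N ≃ₐ[K] N)) = {1, σ, σ * σ} := by
    symm
    rw [Set.eq_univ_iff_forall]
    intro τ
    obtain ⟨h, hh⟩ := exists_extend N (N.val.comp (τ.toAlgHom.restrictScalars ℚ))
    have hh' : ∀ y : N, h y = ((τ y : N) : Ω) := hh
    have hhK : ∀ x ∈ K, h x = x := by
      intro x hx
      have h1 := hh' (algebraMap K N ⟨x, hx⟩)
      rw [τ.commutes] at h1
      exact h1
    rcases htri h hhK with r | r | r
    · refine Or.inl (AlgEquiv.ext fun y => Subtype.ext ?_)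
      rw [← hh' y]
      exact r y y.2
    · refine Or.inr (Or.inl (AlgEquiv.ext fun y => Subtype.ext ?_))
      rw [← hh' y]
      exact r y y.2
    · refine Or.inr (Or.inr (AlgEquiv.ext fun y => Subtype.ext ?_))
      rw [← hh' y]
      exact r y y.2
  have hrank : finrank K N = 3 := by
    rw [← IsGalois.card_aut_eq_finrank, ← Set.ncard_univ, Set.ncard_eq_three]
    exact ⟨1, σ, σ * σ, hσ1.symm, hσ2.symm, hσ3, hall⟩
  refine no_unram K N hrank (by rw [hK]; decide) σ hσ1 (fun P hP hP0 => ?_) T hT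
    (fun q hq => ?_)
  · obtain ⟨x, y, hxy, hn⟩ := hU N g hN P hP hP0
    exact ⟨x, y, Subtype.ext hxy, hn⟩
  · obtain ⟨P, hP, hO, x, y, hxy, hx, hy⟩ := hS N g hN q hq
    refine ⟨P, hP, ⟨?_⟩, x, y, Subtype.ext hxy, hx, hy⟩
    ext a
    rw [Ideal.under_def, Ideal.mem_comap]
    exact (hO a (algebraMap (𝓞 K) (𝓞 N) a) rfl).symm

end Pool.Agent.Lib.MP_af4c59_nt.K9
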