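import Pool.Agent.Lib.MP_af4c59_nt.K9Defs

/-!
The cubic subfield and the resolvents (part A1).
-/

set_option autoImplicit false

namespace Pool.Agent.Lib.MP_af4c59_nt.K9

open NumberField Module IsDedekindDomain

namespace ResAux

lemma mem_of_fixed (L : IntermediateField ℚ Ω) (x : Ω)
    (h : ∀ g : Ω ≃ₐ[ℚ] Ω, (∀ z ∈ L, g z = z) → g x = x) : x ∈ L := by
  have : IsGalois ℚ Ω := IsAlgClosure.isGalois ℚ Ω
  rw [← InfiniteGalois.fixedField_fixingSubgroup L, IntermediateField.mem_fixedField_iff]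
  intro g hg
  exact h g ((IntermediateField.mem_fixingSubgroup_iff _ _).1 hg)

lemma fix_adjoin (a : Ω) (g : Ω ≃ₐ[ℚ] Ω) (h : g a = a) :
    ∀ x ∈ IntermediateField.adjoin ℚ {a}, g x = x := by
  intro x hx
  induction hx using IntermediateField.adjoin_induction with
  | mem x hx => rw [Set.mem_singleton_iff.1 hx]; exact h
  | algebraMap x => exact g.commutes x
  | add x y _ _ hx hy => rw [map_add, hx, hy]
  | inv x _ hx => rw [map_inv₀, hx]
  | mul x y _ _ hx hy => rw [map_mul, hx, hy]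

lemma exists_prim (L : IntermediateField ℚ Ω) [FiniteDimensional ℚ L] :
    ∃ α : L, IsIntegral ℤ α ∧ Function.Injective fun φ : L →ₐ[ℚ] Ω => φ α := by
  obtain ⟨α, hα⟩ := Field.exists_primitive_element ℚ L
  have h1 := (Field.primitive_element_iff_algHom_eq_of_eval' ℚ Ω
    (fun s => IsAlgClosed.splits _) α).1 hα
  have h2 : IsAlgebraic ℤ α :=
    (IsFractionRing.isAlgebraic_iff ℤ ℚ L).2 (Algebra.IsAlgebraic.isAlgebraic α)
  obtain ⟨d, hd, hi⟩ := h2.exists_integral_multiple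
  refine ⟨d • α, hi, fun φ ψ h => h1 ?_⟩
  simp only [map_zsmul] at h
  exact smul_right_injective Ω hd h

/-- Two equal embeddings have equal indices. -/
lemma idx {L : IntermediateField ℚ Ω} {φ : Fin 3 → Fin 3 → (L →ₐ[ℚ] Ω)} (h : Emb L φ)
    {i a j b : Fin 3} (e : ∀ x : L, φ i a x = φ j b x) : i = j ∧ a = b := by
  have e1 : φ i a = φ j b := AlgHom.ext e
  have e2 : ((i, a) : Fin 3 × Fin 3) = (j, b) := h.bij.1 e1
  exact Prod.ext_iff.1 e2

/-- An automorphism that keeps the block `0` rotates it. -/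
lemma rot {L : IntermediateField ℚ Ω} {φ : Fin 3 → Fin 3 → (L →ₐ[ℚ] Ω)} (h : Emb L φ)
    (g : Ω ≃ₐ[ℚ] Ω) {c : Fin 3} (e : ∀ x : L, g (φ 0 0 x) = φ 0 c x) (b : Fin 3) (x : L) :
    g (φ 0 b x) = φ 0 (b + c) x := by
  obtain ⟨π, v, -, hv⟩ := h.act g
  obtain ⟨e1, e2⟩ := idx h (i := π 0) (a := 0 + v 0) (j := 0) (b := c)
    (fun y => by rw [← hv, e])
  rw [zero_add] at e2
  rw [hv, e1, e2]

/-- An integer at which the three block polynomials take distinct values. -/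
lemma exists_shift (y : Fin 3 → Fin 3 → Ω) (hy : ∀ i j a b, y i a = y j b → i = j) :
    ∃ k : ℕ, Function.Injective fun i : Fin 3 => ∏ a : Fin 3, ((k : Ω) - y i a) := by
  classical
  let P : Fin 3 → Polynomial Ω := fun i => ∏ a : Fin 3, (Polynomial.X - Polynomial.C (y i a))
  have hev : ∀ (i : Fin 3) (t : Ω), (P i).eval t = ∏ a : Fin 3, (t - y i a) := by
    intro i t
    simp [P, Polynomial.eval_prod]
  have hP : ∀ i j, i ≠ j → P i - P j ≠ 0 := by
    intro i j hij e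
    have e1 : (P i).eval (y i 0) = (P j).eval (y i 0) := by rw [sub_eq_zero.1 e]
    rw [hev, hev, Finset.prod_eq_zero (Finset.mem_univ (0 : Fin 3)) (sub_self _)] at e1
    obtain ⟨a, -, ha⟩ := Finset.prod_eq_zero_iff.1 e1.symm
    exact hij (hy i j 0 a (sub_eq_zero.1 ha))
  have hQ : (P 0 - P 1) * (P 0 - P 2) * (P 1 - P 2) ≠ 0 :=
    mul_ne_zero (mul_ne_zero (hP 0 1 (by decide)) (hP 0 2 (by decide))) (hP 1 2 (by decide))
  have hk : ∃ k : ℕ, ((P 0 - P 1) * (P 0 - P 2) * (P 1 - P 2)).eval (k : Ω) ≠ 0 := by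
    by_contra hne
    push Not at hne
    apply hQ
    apply Polynomial.eq_zero_of_infinite_isRoot
    refine (Set.infinite_range_of_injective (Nat.cast_injective (R := Ω))).mono ?_
    rintro _ ⟨k, rfl⟩
    exact hne k
  obtain ⟨k, hk⟩ := hk
  simp only [Polynomial.eval_mul, Polynomial.eval_sub, hev, ne_eq, mul_eq_zero, not_or,
    sub_eq_zero] at hk
  obtain ⟨⟨h01, h02⟩, h12⟩ := hk
  refine ⟨k, fun i j e => ?_⟩
  fin_cases i <;> fin_cases j
  · rfl
  · exact absurd e h01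
  · exact absurd e h02
  · exact absurd e.symm h01
  · rfl
  · exact absurd e h12
  · exact absurd e.symm h02
  · exact absurd e.symm h12
  · rfl

/-- The permutations of three numbers that come from automorphisms. -/
def Img (t : Fin 3 → Ω) : Subgroup (Equiv.Perm (Fin 3)) where
  carrier := {π | ∃ σ : Ω ≃ₐ[ℚ] Ω, ∀ i, σ (t i) = t (π i)}
  mul_mem' := by
    rintro a b ⟨σ, hσ⟩ ⟨τ, hτ⟩
    exact ⟨σ * τ, fun i => by rw [AlgEquiv.mul_apply, hτ, hσ, Equiv.Perm.mul_apply]⟩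
  one_mem' := ⟨1, fun i => rfl⟩
  inv_mem' := by
    rintro a ⟨σ, hσ⟩
    refine ⟨σ.symm, fun i => ?_⟩
    apply σ.injective
    rw [σ.apply_symm_apply, hσ]
    simp

/-- The action on the two resolvents. -/
lemma key {w : Ω} (hw : w ^ 2 + w + 1 = 0) (g : Ω ≃ₐ[ℚ] Ω) (c : Fin 3) (y : Fin 3 → Ω)
    (hy : ∀ b, g (y b) = y (b + c)) :
    (g w = w ∧ g (y 0 + w ^ 2 * y 1 + w * y 2) = w ^ c.val * (y 0 + w ^ 2 * y 1 + w * y 2) ∧
        g (y 0 + w * y 1 + w ^ 2 * y 2) = (w ^ c.val) ^ 2 * (y 0 + w * y 1 + w ^ 2 * y 2)) ∨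
      (g w = w ^ 2 ∧
        g (y 0 + w ^ 2 * y 1 + w * y 2) = (w ^ c.val) ^ 2 * (y 0 + w * y 1 + w ^ 2 * y 2) ∧
        g (y 0 + w * y 1 + w ^ 2 * y 2) = w ^ c.val * (y 0 + w ^ 2 * y 1 + w * y 2)) := by
  have h3 : w ^ 3 = 1 := by linear_combination (w - 1) * hw
  have hg : g w ^ 2 + g w + 1 = 0 := by
    have := congrArg g hw
    simpa using this
  have hgw : g w = w ∨ g w = w ^ 2 := by
    have : (g w - w) * (g w - w ^ 2) = 0 := by
      linear_combination hg - (g w + 1 - w) * hw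
    rcases mul_eq_zero.1 this with e | e
    · exact Or.inl (sub_eq_zero.1 e)
    · exact Or.inr (sub_eq_zero.1 e)
  have h0 := hy 0
  have h1 := hy 1
  have h2 := hy 2
  have hc : c = 0 ∨ c = 1 ∨ c = 2 := by fin_cases c <;> simp
  rcases hgw with e | e
  · left
    refine ⟨e, ?_⟩
    simp only [map_add, map_mul, map_pow, e, h0, h1, h2]
    rcases hc with rfl | rfl | rfl
    · simp
    · have a0 : (0 : Fin 3) + 1 = 1 := rfl
      have a1 : (1 : Fin 3) + 1 = 2 := rfl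
      have a2 : (2 : Fin 3) + 1 = 0 := rfl
      have a3 : ((1 : Fin 3) : ℕ) = 1 := rfl
      rw [a0, a1, a2, a3]
      constructor
      · linear_combination (-y 1) * h3
      · linear_combination (-y 1 - w * y 2) * h3
    · have a0 : (0 : Fin 3) + 2 = 2 := rfl
      have a1 : (1 : Fin 3) + 2 = 0 := rfl
      have a2 : (2 : Fin 3) + 2 = 1 := rfl
      have a3 : ((2 : Fin 3) : ℕ) = 2 := rfl
      rw [a0, a1, a2, a3]
      constructor
      · linear_combination (-y 2 - w * y 1) * h3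
      · linear_combination (-w * y 0 - w ^ 2 * y 1 - (w ^ 3 + 1) * y 2) * h3
  · right
    refine ⟨e, ?_⟩
    simp only [map_add, map_mul, map_pow, e, h0, h1, h2]
    rcases hc with rfl | rfl | rfl
    · simp only [add_zero, Fin.val_zero, pow_zero, one_pow, one_mul]
      constructor
      · linear_combination (w * y 1) * h3
      · linear_combination (w * y 2) * h3
    · have a0 : (0 : Fin 3) + 1 = 1 := rfl
      have a1 : (1 : Fin 3) + 1 = 2 := rfl
      have a2 : (2 : Fin 3) + 1 = 0 := rfl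
      have a3 : ((1 : Fin 3) : ℕ) = 1 := rfl
      rw [a0, a1, a2, a3]
      constructor
      · linear_combination (-y 1) * h3
      · linear_combination (w * y 0 - y 1) * h3
    · have a0 : (0 : Fin 3) + 2 = 2 := rfl
      have a1 : (1 : Fin 3) + 2 = 0 := rfl
      have a2 : (2 : Fin 3) + 2 = 1 := rfl
      have a3 : ((2 : Fin 3) : ℕ) = 2 := rfl
      rw [a0, a1, a2, a3]
      constructor
      · linear_combination (-w ^ 2 * y 1 - (w ^ 3 + 1) * y 2) * h3
      · linear_combination (-y 2) * h3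

/-- Three numbers with nonzero first weight cannot kill `1`, `a`, `a ^ 2`. -/
lemma vdm {a0 a1 a2 u v : Ω} (h1 : a0 ≠ a1) (h2 : a0 ≠ a2) (e0 : 1 + u + v = 0)
    (e1 : a0 + u * a1 + v * a2 = 0) : a0 ^ 2 + u * a1 ^ 2 + v * a2 ^ 2 ≠ 0 := by
  intro e2
  have : (a0 - a1) * (a0 - a2) = 0 := by
    linear_combination e2 - (a1 + a2) * e1 + a1 * a2 * e0
  rcases mul_eq_zero.1 this with e | e
  · exact h1 (sub_eq_zero.1 e)
  · exact h2 (sub_eq_zero.1 e)

/-- An integer with both resolvents nonzero. -/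
lemma exists_ne {L : IntermediateField ℚ Ω} [NumberField L]
    {φ : Fin 3 → Fin 3 → (L →ₐ[ℚ] Ω)} (h : Emb L φ) {w : Ω} (hw : w ^ 2 + w + 1 = 0) :
    ∃ x : 𝓞 L, res w φ 0 x ≠ 0 ∧ resb w φ 0 x ≠ 0 := by
  obtain ⟨α, hi, hα⟩ := exists_prim L
  have hne : ∀ b : Fin 3, b ≠ 0 → φ 0 0 α ≠ φ 0 b α := by
    intro b hb e
    have e1 : φ 0 0 = φ 0 b := hα e
    exact hb (idx h (fun x => by rw [e1])).2.symm
  have n1 := hne 1 (by decide)
  have n2 := hne 2 (by decide)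
  have hA : res w φ 0 α = 0 → res w φ 0 (α ^ 2) ≠ 0 := by
    intro e
    simp only [res, map_pow] at e ⊢
    exact vdm n1 n2 (by linear_combination hw) e
  have hB : resb w φ 0 α = 0 → resb w φ 0 (α ^ 2) ≠ 0 := by
    intro e
    simp only [resb, map_pow] at e ⊢
    exact vdm n1 n2 (by linear_combination hw) e
  have aA : res w φ 0 (α + α ^ 2) = res w φ 0 α + res w φ 0 (α ^ 2) := by
    simp only [res, map_add]; ring
  have aB : resb w φ 0 (α + α ^ 2) = resb w φ 0 α + resb w φ 0 (α ^ 2) := by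
    simp only [resb, map_add]; ring
  have fin : ∀ x : L, IsIntegral ℤ x → res w φ 0 x ≠ 0 → resb w φ 0 x ≠ 0 →
      ∃ x : 𝓞 L, res w φ 0 x ≠ 0 ∧ resb w φ 0 x ≠ 0 :=
    fun x hx e1 e2 => ⟨⟨x, hx⟩, e1, e2⟩
  by_cases p1 : res w φ 0 α = 0
  · by_cases q2 : resb w φ 0 (α ^ 2) = 0
    · refine fin (α + α ^ 2) (hi.add (hi.pow 2)) ?_ ?_
      · rw [aA, p1, zero_add]; exact hA p1
      · rw [aB, q2, add_zero]; exact fun e => hB e q2
    · exact fin (α ^ 2) (hi.pow 2) (hA p1) q2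
  · by_cases q1 : resb w φ 0 α = 0
    · by_cases p2 : res w φ 0 (α ^ 2) = 0
      · refine fin (α + α ^ 2) (hi.add (hi.pow 2)) ?_ ?_
        · rw [aA, p2, add_zero]; exact p1
        · rw [aB, q1, zero_add]; exact hB q1
      · exact fin (α ^ 2) (hi.pow 2) p2 (hB q1)
    · exact fin α hi p1 q1

end ResAux

open ResAux

theorem exists_sub {L : IntermediateField ℚ Ω} [NumberField L]
    {φ : Fin 3 → Fin 3 → (L →ₐ[ℚ] Ω)} (h : Emb L φ) : ∃ K, Sub φ K := by
  obtain ⟨α, -, hα⟩ := exists_prim L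
  obtain ⟨k, hk⟩ := exists_shift (fun i a => φ i a α) (fun i j a b e => by
    have e1 : φ i a = φ j b := hα e
    exact (idx h (fun x => by rw [e1])).1)
  set t : Fin 3 → Ω := fun i : Fin 3 => ∏ a : Fin 3, ((k : Ω) - φ i a α) with ht
  have hact : ∀ (g : Ω ≃ₐ[ℚ] Ω) (π : Equiv.Perm (Fin 3)) (v : Fin 3 → Fin 3),
      (∀ (i a : Fin 3) (x : L), g (φ i a x) = φ (π i) (a + v i) x) → ∀ i, g (t i) = t (π i) := by
    intro g π v hv i
    simp only [ht, map_prod, map_sub, map_natCast, hv]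
    exact Equiv.prod_comp (Equiv.addRight (v i)) (fun a => (k : Ω) - φ (π i) a α)
  have hiff : ∀ g : Ω ≃ₐ[ℚ] Ω, g (t 0) = t 0 ↔ ∃ a : Fin 3, ∀ x : L, g (φ 0 0 x) = φ 0 a x := by
    intro g
    obtain ⟨π, v, -, hv⟩ := h.act g
    rw [hact g π v hv 0]
    constructor
    · intro e
      have e1 : π 0 = 0 := hk e
      exact ⟨0 + v 0, fun x => by rw [hv, e1]⟩
    · rintro ⟨a, ha⟩
      rw [(idx h (i := π 0) (a := 0 + v 0) (j := 0) (b := a) (fun y => by rw [← hv, ha])).1]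
  let K : IntermediateField ℚ Ω := IntermediateField.adjoin ℚ {t 0}
  have hfin : FiniteDimensional ℚ K :=
    IntermediateField.adjoin.finiteDimensional (Algebra.IsIntegral.isIntegral (t 0))
  have hmem : t 0 ∈ K := IntermediateField.mem_adjoin_simple_self ℚ _
  refine ⟨K, ?_, ?_, fun g => ?_⟩
  · refine (gal_of_roots (Img t) t hk 0 K hmem (fun σ hσ => fix_adjoin _ σ hσ) ?_ ?_ ?_).1
    · intro σ
      obtain ⟨π, v, -, hv⟩ := h.act σ
      exact ⟨π, ⟨σ, hact σ π v hv⟩, hact σ π v hv⟩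
    · intro π hπ
      exact hπ
    · intro i
      obtain ⟨σ, hσ⟩ := exists_extend L (φ i 0)
      obtain ⟨π, v, -, hv⟩ := h.act σ
      refine ⟨π, ⟨σ, hact σ π v hv⟩, ?_⟩
      exact (idx h (i := π 0) (a := 0 + v 0) (j := i) (b := 0)
        (fun y => by rw [← hv, h.inc, hσ])).1
  · rw [IntermediateField.adjoin_simple_le_iff]
    apply mem_of_fixed
    intro g hg
    exact (hiff g).2 ⟨0, fun x => by rw [h.inc, hg _ x.2]⟩
  · rw [← hiff g]
    exact ⟨fun hg => hg _ hmem, fun hg => fix_adjoin _ g hg⟩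

theorem exists_res {L : IntermediateField ℚ Ω} [NumberField L]
    {φ : Fin 3 → Fin 3 → (L →ₐ[ℚ] Ω)} (h : Emb L φ) {K : IntermediateField ℚ Ω} (hK : Sub φ K)
    {w : Ω} (hw : w ^ 2 + w + 1 = 0) :
    ∃ x : 𝓞 L, Kum K w (res w φ 0 x) (resb w φ 0 x) ∧ ∀ g : Ω ≃ₐ[ℚ] Ω,
      (∀ y ∈ L, g y = y) ↔ (∀ y ∈ K, g y = y) ∧ g (g (res w φ 0 x)) = res w φ 0 x := by
  obtain ⟨x, hz, hzb⟩ := exists_ne h hw
  have h3 : w ^ 3 = 1 := by linear_combination (w - 1) * hw
  have hζ : ∀ c : ℕ, (w ^ c) ^ 3 = 1 := fun c => by rw [← pow_mul, mul_comm, pow_mul, h3, one_pow]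
  have hkey : ∀ (g : Ω ≃ₐ[ℚ] Ω) (c : Fin 3), (∀ y : L, g (φ 0 0 y) = φ 0 c y) →
      (g w = w ∧ g (res w φ 0 x) = w ^ c.val * res w φ 0 x ∧
        g (resb w φ 0 x) = (w ^ c.val) ^ 2 * resb w φ 0 x) ∨
      (g w = w ^ 2 ∧ g (res w φ 0 x) = (w ^ c.val) ^ 2 * resb w φ 0 x ∧
        g (resb w φ 0 x) = w ^ c.val * res w φ 0 x) :=
    fun g c e => key hw g c (fun b => φ 0 b x) (fun b => rot h g e b x)
  have hsq : ∀ (g : Ω ≃ₐ[ℚ] Ω) (c : Fin 3), (∀ y : L, g (φ 0 0 y) = φ 0 c y) →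
      g (g (res w φ 0 x)) = (w ^ c.val) ^ 2 * res w φ 0 x := by
    intro g c e
    rcases hkey g c e with ⟨e1, e2, -⟩ | ⟨e1, e2, e3⟩
    · rw [e2, map_mul, map_pow, e1, e2]; ring
    · rw [e2, map_mul, map_pow, map_pow, e1, e3, ← pow_mul w 2, mul_comm 2, pow_mul]
      linear_combination (w ^ c.val) ^ 2 * res w φ 0 x * hζ c.val
  refine ⟨x, ⟨hz, hzb, fun g hg => ?_⟩, fun g => ⟨fun hg => ⟨fun y hy => hg y (hK.2.1 hy), ?_⟩, ?_⟩⟩
  · obtain ⟨c, hc⟩ := (hK.2.2 g).1 hg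
    exact ⟨w ^ c.val, hζ _, hkey g c hc⟩
  · rw [hsq g 0 (fun y => by rw [h.inc, hg _ y.2])]
    simp
  · rintro ⟨hg, e⟩ y hy
    obtain ⟨c, hc⟩ := (hK.2.2 g).1 hg
    rw [hsq g c hc] at e
    have e1 : (w ^ c.val) ^ 2 = 1 := mul_right_cancel₀ hz (by rw [e, one_mul])
    have e2 : w ^ c.val = 1 := by linear_combination hζ c.val - w ^ c.val * e1
    have hw1 : w ≠ 1 := by
      rintro rfl
      norm_num at hw
    have hc0 : c = 0 := by
      have hcc : c = 0 ∨ c = 1 ∨ c = 2 := by fin_cases c <;> simp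
      rcases hcc with rfl | rfl | rfl
      · rfl
      · exact absurd (by simpa using e2) hw1
      · have e3 : w ^ 2 = 1 := e2
        exact absurd (by linear_combination h3 - w * e3) hw1
    have e4 := hc ⟨y, hy⟩
    rw [hc0, h.inc] at e4
    exact e4

end Pool.Agent.Lib.MP_af4c59_nt.K9
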