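import Pool.Agent.Lib.MP_af4c59_nt.K9Grp
import Pool.Agent.Lib.MP_af4c59_nt.K9Res
import Pool.Agent.Lib.MP_af4c59_nt.K9Disc

/-!
The data attached to a field of degree nine (parts A1, A2).
-/

set_option autoImplicit false

namespace Pool.Agent.Lib.MP_af4c59_nt.K9

open NumberField Module IsDedekindDomain

namespace ResvAux

open scoped IntermediateField

/-- The elements fixed by one automorphism. -/
noncomputable def fixF (g : Ω ≃ₐ[ℚ] Ω) : IntermediateField ℚ Ω :=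
  (AlgHom.equalizer (g : Ω →ₐ[ℚ] Ω) (AlgHom.id ℚ Ω)).toIntermediateField fun x hx => by
    have h : g x = x := hx
    change g x⁻¹ = x⁻¹
    rw [map_inv₀, h]

lemma mem_fixF {g : Ω ≃ₐ[ℚ] Ω} {x : Ω} : x ∈ fixF g ↔ g x = x := Iff.rfl

lemma integral_w {w : Ω} (hw : w ^ 2 + w + 1 = 0) : IsIntegral ℤ w := by
  have h : w ^ 3 = 1 := by linear_combination (w - 1) * hw
  exact IsIntegral.of_pow (n := 3) (by norm_num) (h ▸ isIntegral_one)

lemma closure_w_le {w : Ω} (hw : w ^ 2 + w + 1 = 0) {E : IntermediateField ℚ Ω} (hE : w ∈ E) :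
    IntermediateField.normalClosure ℚ ℚ⟮w⟯ Ω ≤ E := by
  refine normalClosure_le_iff.2 fun f => ?_
  obtain ⟨σ, hσ⟩ := exists_extend _ f
  have h1 : σ w ^ 2 + σ w + 1 = 0 := by simpa using congrArg σ hw
  have h2 : (σ w - w) * (σ w - w ^ 2) = 0 := by
    linear_combination h1 + (w - 1 - σ w) * hw
  have h3 : σ w ∈ E := by
    rcases mul_eq_zero.1 h2 with h | h
    · rw [sub_eq_zero.1 h]; exact hE
    · rw [sub_eq_zero.1 h]; exact pow_mem hE 2
  have h4 : ℚ⟮w⟯ ≤ E.comap (σ : Ω →ₐ[ℚ] Ω) := IntermediateField.adjoin_simple_le_iff.2 h3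
  rintro _ ⟨x, rfl⟩
  have h5 : σ x ∈ E := h4 x.2
  rw [hσ] at h5
  exact h5

lemma cube_dvd {K L : IntermediateField ℚ Ω} [NumberField K] [NumberField L] (h : K ≤ L)
    (hK : finrank ℚ K = 3) (hL : finrank ℚ L = 9) : dK K ^ 3 ∣ dK L := by
  let _ : Algebra K L := (IntermediateField.inclusion h).toRingHom.toAlgebra
  have h1 := finrank_mul_finrank ℚ K L
  have h2 : finrank K L = 3 := by
    rw [hK, hL] at h1
    omega
  rw [dK_eq, dK_eq, natAbs_discr_eq_absNorm_differentIdeal_mul_natAbs_discr_pow K (𝓞 K) L (𝓞 L),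
    h2]
  exact dvd_mul_left _ _

end ResvAux

open ResvAux in
open scoped IntermediateField in
theorem resolvent {G : Subgroup (Equiv.Perm (Fin 9))} (hG : ∀ τ, τ ∈ G ↔ InG τ) {X : ℝ}
    {L : IntermediateField ℚ Ω} (hL : L ∈ FS 9 G X) {w : Ω} (hw : w ^ 2 + w + 1 = 0) :
    ∃ (K : IntermediateField ℚ Ω) (P : ℕ), finrank ℚ K = 3 ∧ P ≠ 0 ∧
      (P : ℝ) ^ 4 * (dK K : ℝ) ^ 3 ≤ X ∧ Dat K w (3 * P * dK K) L := by
  classical
  obtain ⟨h9, hgal, b, hb⟩ := hL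
  have : FiniteDimensional ℚ L := Module.finite_of_finrank_pos (by omega)
  have : NumberField L := ⟨⟩
  obtain ⟨φ, hφ⟩ := exists_emb hG hgal
  obtain ⟨K, hK⟩ := exists_sub hφ
  obtain ⟨x, hKum, hfix⟩ := exists_res hφ hK hw
  have : FiniteDimensional ℚ K := Module.finite_of_finrank_pos (by rw [hK.1]; norm_num)
  have : NumberField K := ⟨⟩
  have hwi := integral_w hw
  have : FiniteDimensional ℚ ℚ⟮w⟯ :=
    IntermediateField.adjoin.finiteDimensional hwi.tower_top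
  obtain ⟨M, hM⟩ : ∃ M : IntermediateField ℚ Ω, M = IntermediateField.normalClosure ℚ L Ω ⊔
    IntermediateField.normalClosure ℚ ℚ⟮w⟯ Ω := ⟨_, rfl⟩
  have hfin : FiniteDimensional ℚ M := by rw [hM]; infer_instance
  have : NumberField M := ⟨⟩
  have : Normal ℚ Ω := IsAlgClosure.normal ℚ Ω
  have : Normal ℚ M := by
    rw [hM]
    exact @IntermediateField.normal_sup ℚ Ω _ _ _ _ _ (normalClosure.normal ℚ L Ω)
      (normalClosure.normal ℚ ℚ⟮w⟯ Ω)
  have : IsGalois ℚ M := ⟨⟩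
  have h1 : ∀ i a y, φ i a y ∈ M := fun i a y => by
    rw [hM]
    exact SetLike.le_def.1 le_sup_left ((φ i a).fieldRange_le_normalClosure ⟨y, rfl⟩)
  have h2 : w ∈ M := by
    rw [hM]
    exact SetLike.le_def.1 le_sup_right (IntermediateField.le_normalClosure _
      (IntermediateField.mem_adjoin_simple_self ℚ w))
  have h3 : ∀ g : Ω ≃ₐ[ℚ] Ω, (∀ i a y, g (φ i a y) = φ i a y) → g w = w → ∀ y ∈ M, g y = y := by
    intro g hg hgw
    have : M ≤ fixF g := by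
      rw [hM]
      refine sup_le (normalClosure_le_iff.2 fun f => ?_) (closure_w_le hw hgw)
      obtain ⟨⟨i, a⟩, rfl⟩ := hφ.bij.2 f
      rintro _ ⟨y, rfl⟩
      exact hg i a y
    exact fun y hy => this hy
  have hKM : K ≤ M := fun y hy => by
    have := h1 0 0 ⟨y, hK.2.1 hy⟩
    rwa [hφ.inc] at this
  have hint : ∀ i a, IsIntegral ℤ (φ i a x) := fun i a => map_isIntegral_int _ x.2
  obtain ⟨S, hS⟩ : ∃ S : Finset ℕ,
    S = (dK M).primeFactors.filter fun p => ¬p ∣ 3 * dK K := ⟨_, rfl⟩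
  have hSm : ∀ p ∈ S, p.Prime ∧ p ∣ dK M ∧ ¬p ∣ 3 * dK K := fun p hp => by
    rw [hS, Finset.mem_filter, Nat.mem_primeFactors] at hp
    exact ⟨hp.1.1, hp.1.2.1, hp.2⟩
  have hne : ∀ (E : IntermediateField ℚ Ω) [NumberField E], dK E ≠ 0 := fun E _ => by
    rw [dK_eq]
    exact Int.natAbs_ne_zero.2 (discr_ne_zero E)
  refine ⟨K, ∏ p ∈ S, p, hK.1, Finset.prod_ne_zero_iff.2 fun p hp => (hSm p hp).1.ne_zero, ?_,
    _, _, hKum, ?_, ?_, hfix, M, hfin, hKM, h2, ?_, fun p hp hpM => ?_⟩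
  · have e1 : (∏ p ∈ S, p) ^ 4 ∣ dK L := by
      rw [← Finset.prod_pow]
      refine Finset.prod_dvd_of_isRelPrime (fun p hp q hq hpq => ?_) fun p hp =>
        four_dvd hφ hK hw M h1 h2 h3 (hSm p hp).1 (hSm p hp).2.2 (hSm p hp).2.1
      exact Nat.coprime_iff_isRelPrime.1 (Nat.Coprime.pow 4 4
        ((Nat.coprime_primes (hSm p hp).1 (hSm q hq).1).2 hpq))
    have e2 : ((∏ p ∈ S, p) ^ 4).Coprime (dK K ^ 3) :=
      Nat.Coprime.pow 4 3 (Nat.Coprime.prod_left fun p hp =>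
        (Nat.Prime.coprime_iff_not_dvd (hSm p hp).1).2 fun h => (hSm p hp).2.2 (h.mul_left 3))
    have e3 := Nat.le_of_dvd (Nat.pos_of_ne_zero (hne L))
      (e2.mul_dvd_of_dvd_of_dvd e1 (cube_dvd hK.2.1 hK.1 h9))
    rw [discr_eq_discr L b, ← Nat.cast_natAbs, ← dK_eq] at hb
    refine le_trans ?_ hb
    exact_mod_cast e3
  · exact ((hint 0 0).add ((hwi.pow 2).mul (hint 0 1))).add (hwi.mul (hint 0 2))
  · exact ((hint 0 0).add (hwi.mul (hint 0 1))).add ((hwi.pow 2).mul (hint 0 2))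
  · exact add_mem (add_mem (h1 _ _ _) (mul_mem (pow_mem h2 2) (h1 _ _ _))) (mul_mem h2 (h1 _ _ _))
  · by_cases h : p ∣ 3 * dK K
    · rw [mul_right_comm]
      exact h.mul_right _
    · refine Dvd.dvd.mul_right (Dvd.dvd.mul_left (Finset.dvd_prod_of_mem (fun p : ℕ => p) ?_) 3) _
      rw [hS]
      exact Finset.mem_filter.2 ⟨Nat.mem_primeFactors.2 ⟨hp, hpM, hne M⟩, h⟩

end Pool.Agent.Lib.MP_af4c59_nt.K9
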