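import Pool.Agent.Lib.MP_af4c59_nt.K9Avg
import Pool.Agent.Lib.MP_af4c59_nt.K9Fix
import Pool.Agent.Lib.MP_af4c59_nt.K9Resv
import Pool.Agent.Lib.MP_af4c59_nt.H32Div

/-!
The upper bound (part A7).
-/

set_option autoImplicit false

namespace Pool.Agent.Lib.MP_af4c59_nt.K9

open NumberField Module IsDedekindDomain

namespace MainAux

lemma exists_w : ∃ w : Ω, w ^ 2 + w + 1 = 0 := by
  obtain ⟨y, hy⟩ := IsAlgClosed.exists_eq_mul_self (-3 : Ω)
  refine ⟨(-1 + y) / 2, ?_⟩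
  linear_combination (-1 / 4 : Ω) * hy

lemma one_le_dK {K : IntermediateField ℚ Ω} (hK : finrank ℚ K = 3) : 1 ≤ dK K := by
  have : FiniteDimensional ℚ K := Module.finite_of_finrank_pos (by omega)
  have : NumberField K := ⟨⟩
  rw [dK_eq]
  exact Int.natAbs_pos.2 (discr_ne_zero K)

/-- The factor that depends on the ramified primes. -/
lemma factor_le {η : ℝ} (hη : 0 < η) : ∃ C : ℝ, 0 < C ∧ ∀ X : ℝ, 1 ≤ X → ∀ m : ℕ, m ≠ 0 →
    (m : ℝ) ≤ 3 * X → (3 : ℝ) ^ (6 * m.primeFactors.card + 12) ≤ C * X ^ η := by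
  obtain ⟨C, hC, h⟩ := H32.omega_bound 10 hη
  refine ⟨3 ^ 12 * (C * 3 ^ η), by positivity, fun X hX m hm hle => ?_⟩
  have h1 := h m hm
  have h2 : (m : ℝ) ^ η ≤ (3 * X) ^ η := Real.rpow_le_rpow (by positivity) hle hη.le
  rw [Real.mul_rpow (by norm_num) (by linarith)] at h2
  have h3 : ((3 : ℝ) ^ 6) ^ m.primeFactors.card ≤ ((2 : ℝ) ^ 10) ^ m.primeFactors.card :=
    pow_le_pow_left₀ (by positivity) (by norm_num) _
  have h4 : C * (m : ℝ) ^ η ≤ C * (3 ^ η * X ^ η) := mul_le_mul_of_nonneg_left h2 (by linarith)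
  rw [pow_add, pow_mul, mul_comm, mul_assoc, mul_assoc]
  exact mul_le_mul_of_nonneg_left (h3.trans (h1.trans h4)) (by positivity)

/-- The sum over the cubic fields for one value of `P`. -/
lemma inner_le {η : ℝ} (hη : 0 < η) : ∃ C : ℝ, 0 < C ∧ ∀ X : ℝ, 1 ≤ X → ∀ P : ℕ, P ≠ 0 →
    ∀ S : Finset (IntermediateField ℚ Ω),
      (∀ K ∈ S, finrank ℚ K = 3 ∧ (P : ℝ) ^ 4 * (dK K : ℝ) ^ 3 ≤ X) →
      ∑ K ∈ S, (h3 K : ℝ) ≤ C * X ^ ((1 : ℝ) / 3 + η) * ((P : ℝ) ^ ((4 : ℝ) / 3))⁻¹ := by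
  obtain ⟨C, hC, h⟩ := avg_bound hη
  refine ⟨C, hC, fun X hX P hP S hS => ?_⟩
  have hP1 : (1 : ℝ) ≤ P := by exact_mod_cast Nat.pos_of_ne_zero hP
  have hP0 : (0 : ℝ) < P := by linarith
  have hX0 : (0 : ℝ) < X := by linarith
  rcases S.eq_empty_or_nonempty with rfl | ⟨K₀, hK₀⟩
  · rw [Finset.sum_empty]; positivity
  set Y : ℝ := (X / (P : ℝ) ^ 4) ^ ((1 : ℝ) / 3) with hY
  have hle : ∀ K ∈ S, (dK K : ℝ) ≤ Y := by
    intro K hK
    have h1 : (dK K : ℝ) ^ 3 ≤ X / (P : ℝ) ^ 4 := by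
      rw [le_div_iff₀ (by positivity), mul_comm]
      exact (hS K hK).2
    have h2 : ((dK K : ℝ) ^ 3) ^ ((1 : ℝ) / 3) ≤ Y :=
      Real.rpow_le_rpow (by positivity) h1 (by norm_num)
    rwa [← Real.rpow_natCast, ← Real.rpow_mul (by positivity), show ((3 : ℕ) : ℝ) * (1 / 3) = 1 by
      norm_num, Real.rpow_one] at h2
  have hY1 : 1 ≤ Y := le_trans (by exact_mod_cast one_le_dK (hS K₀ hK₀).1) (hle K₀ hK₀)
  have hY0 : 0 < Y := by linarith
  have hYe : Y = X ^ ((1 : ℝ) / 3) * ((P : ℝ) ^ ((4 : ℝ) / 3))⁻¹ := by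
    rw [hY, Real.div_rpow hX0.le (by positivity), ← Real.rpow_natCast, ← Real.rpow_mul hP0.le,
      div_eq_mul_inv]
    norm_num
  have hYX : Y ≤ X := by
    have h1 : X / (P : ℝ) ^ 4 ≤ X := div_le_self hX0.le (one_le_pow₀ hP1)
    have h2 : Y ≤ X ^ ((1 : ℝ) / 3) := Real.rpow_le_rpow (by positivity) h1 (by norm_num)
    exact h2.trans (Real.rpow_le_self_of_one_le hX (by norm_num))
  refine (h Y hY1 S fun K hK => ⟨(hS K hK).1, hle K hK⟩).trans ?_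
  rw [mul_assoc]
  refine mul_le_mul_of_nonneg_left ?_ hC.le
  have h3 : Y ^ η ≤ X ^ η := Real.rpow_le_rpow hY0.le hYX hη.le
  rw [Real.rpow_add hY0, Real.rpow_one, Real.rpow_add hX0, mul_right_comm, ← hYe]
  exact mul_le_mul_of_nonneg_left h3 hY0.le

lemma mul_le {P d : ℕ} (hP : P ≠ 0) (hd : 1 ≤ d) {X : ℝ} (h : (P : ℝ) ^ 4 * (d : ℝ) ^ 3 ≤ X) :
    (P : ℝ) * d ≤ X ∧ (P : ℝ) ≤ X := by
  have hP1 : (1 : ℝ) ≤ P := by exact_mod_cast Nat.pos_of_ne_zero hP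
  have hd1 : (1 : ℝ) ≤ d := by exact_mod_cast hd
  have h1 : (P : ℝ) ≤ (P : ℝ) ^ 4 := le_self_pow₀ hP1 (by norm_num)
  have h2 : (d : ℝ) ≤ (d : ℝ) ^ 3 := le_self_pow₀ hd1 (by norm_num)
  have h3 : (P : ℝ) * d ≤ X := (mul_le_mul h1 h2 (by positivity) (by positivity)).trans h
  exact ⟨h3, le_trans (le_mul_of_one_le_right (by positivity) hd1) h3⟩

end MainAux

theorem upper_bound {G : Subgroup (Equiv.Perm (Fin 9))} (hG : ∀ τ, τ ∈ G ↔ InG τ) {ε : ℝ}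
    (hε : 0 < ε) : ∃ C : ℝ, 0 < C ∧ ∀ X : ℝ, 1 ≤ X →
      ((FS 9 G X).ncard : ℝ) ≤ C * X ^ ((1 : ℝ) / 3 + ε) := by
  classical
  have hη : 0 < ε / 2 := half_pos hε
  obtain ⟨C1, hC1, h1⟩ := MainAux.factor_le hη
  obtain ⟨C2, hC2, h2⟩ := MainAux.inner_le hη
  obtain ⟨w, hw⟩ := MainAux.exists_w
  have hsum : Summable fun m : ℕ => ((m : ℝ) ^ ((4 : ℝ) / 3))⁻¹ :=
    Real.summable_nat_rpow_inv.2 (by norm_num)
  set T : ℝ := ∑' m : ℕ, ((m : ℝ) ^ ((4 : ℝ) / 3))⁻¹ with hT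
  have hT0 : 0 ≤ T := tsum_nonneg fun m => by positivity
  refine ⟨C1 * C2 * (T + 1), by positivity, fun X hX => ?_⟩
  have hX0 : (0 : ℝ) < X := by linarith
  have hfin := FS_finite (n := 9) (by norm_num) G X
  set A := hfin.toFinset with hA
  have hAm : ∀ L ∈ A, L ∈ FS 9 G X := fun L hL => by simpa [hA] using hL
  rw [Set.ncard_eq_toFinset_card _ hfin, ← hA]
  choose! Kf Pf hK3 hP0 hle hdat using fun L (hL : L ∈ A) => resolvent hG (hAm L hL) hw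
  have hfib : ∀ P ∈ A.image Pf, ((A.filter fun L => Pf L = P).card : ℝ) ≤
      C1 * C2 * X ^ ((1 : ℝ) / 3 + ε) * ((P : ℝ) ^ ((4 : ℝ) / 3))⁻¹ := by
    intro P hP
    obtain ⟨L₀, hL₀, hL₀'⟩ := Finset.mem_image.1 hP
    have hPne : P ≠ 0 := hL₀' ▸ hP0 L₀ hL₀
    set B := A.filter fun L => Pf L = P with hB
    have hS : ∀ K ∈ B.image Kf, finrank ℚ K = 3 ∧ (P : ℝ) ^ 4 * (dK K : ℝ) ^ 3 ≤ X := by
      intro K hK
      obtain ⟨L, hL, rfl⟩ := Finset.mem_image.1 hK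
      obtain ⟨hLA, hLP⟩ := Finset.mem_filter.1 hL
      exact ⟨hK3 L hLA, hLP ▸ hle L hLA⟩
    have hone : ∀ K ∈ B.image Kf, ((B.filter fun L => Kf L = K).card : ℝ) ≤
        C1 * X ^ (ε / 2) * (h3 K : ℝ) := by
      intro K hK
      obtain ⟨e1, e2⟩ := hS K hK
      have hd := MainAux.one_le_dK e1
      have hm : 3 * P * dK K ≠ 0 := by positivity
      have e3 := fixed_bound K e1 hw (3 * P * dK K) hm (B.filter fun L => Kf L = K) (by
        intro L hL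
        obtain ⟨hLB, hLK⟩ := Finset.mem_filter.1 hL
        obtain ⟨hLA, hLP⟩ := Finset.mem_filter.1 hLB
        have := hdat L hLA
        rwa [hLK, hLP] at this)
      have e4 := h1 X hX _ hm (by
        have := (MainAux.mul_le hPne hd e2).1
        push_cast
        linarith)
      have e5 : ((B.filter fun L => Kf L = K).card : ℝ) ≤
          (3 : ℝ) ^ (6 * (3 * P * dK K).primeFactors.card + 12) * (h3 K : ℝ) := by
        exact_mod_cast e3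
      exact e5.trans (mul_le_mul_of_nonneg_right e4 (by positivity))
    rw [Finset.card_eq_sum_card_fiberwise (f := Kf) (t := B.image Kf)
      (fun L hL => Finset.mem_image_of_mem _ hL), Nat.cast_sum]
    refine (Finset.sum_le_sum hone).trans ?_
    rw [← Finset.mul_sum]
    refine (mul_le_mul_of_nonneg_left (h2 X hX P hPne _ hS) (by positivity)).trans (le_of_eq ?_)
    rw [show (1 : ℝ) / 3 + ε = ε / 2 + (1 / 3 + ε / 2) by ring, Real.rpow_add hX0 (ε / 2)]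
    ring
  rw [Finset.card_eq_sum_card_fiberwise (f := Pf) (t := A.image Pf)
    (fun L hL => Finset.mem_image_of_mem _ hL), Nat.cast_sum]
  refine (Finset.sum_le_sum hfib).trans ?_
  rw [← Finset.mul_sum, mul_right_comm _ (T + 1)]
  refine mul_le_mul_of_nonneg_left ?_ (by positivity)
  exact (hsum.sum_le_tsum _ fun m _ => by positivity).trans (by linarith)

end Pool.Agent.Lib.MP_af4c59_nt.K9
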