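import Pool.Agent.Lib.MP_af4c59_nt.K9Ide

/-!
Reduction to Selmer elements congruent to one (part D2 i).
-/

set_option autoImplicit false

namespace Pool.Agent.Lib.MP_af4c59_nt.K9

open NumberField Module IsDedekindDomain

namespace ModAux

variable {A : Type} [Field A] [NumberField A]

lemma dvd_of_val {m y : 𝓞 A} (hm : m ≠ 0)
    (h : ∀ P : HeightOneSpectrum (𝓞 A), P.intValuation y ≤ P.intValuation m) : m ∣ y := by
  have hm' : (algebraMap (𝓞 A) A m) ≠ 0 := by simpa using hm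
  obtain ⟨c, hc⟩ := HeightOneSpectrum.mem_integers_of_valuation_le_one (R := 𝓞 A) A
    (algebraMap (𝓞 A) A y / algebraMap (𝓞 A) A m) (fun P => by
      rw [map_div₀, P.valuation_of_algebraMap, P.valuation_of_algebraMap]
      exact div_le_one_of_le₀ (h P) zero_le)
  refine ⟨c, IsFractionRing.injective (𝓞 A) A ?_⟩
  rw [map_mul, hc, mul_div_cancel₀ _ hm']

lemma sign (P : HeightOneSpectrum (𝓞 A)) {m x : 𝓞 A} (h : m ∣ x ^ 2 - 1) :
    P.intValuation (2 * (x - 1)) ≤ P.intValuation m ∨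
      P.intValuation (2 * (x + 1)) ≤ P.intValuation m := by
  obtain ⟨c, hc⟩ := h
  have h1 : P.intValuation ((x - 1) * (x + 1)) ≤ P.intValuation m := by
    rw [show (x - 1) * (x + 1) = m * c by rw [← hc]; ring, map_mul]
    exact mul_le_of_le_one_right' (P.intValuation_le_one c)
  rcases le_total (P.intValuation (x - 1)) (P.intValuation (x + 1)) with h2 | h2
  · left
    have h3 : P.intValuation ((x - 1) * (x - 1)) ≤ P.intValuation m := by
      refine le_trans ?_ h1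
      rw [map_mul, map_mul]
      exact mul_le_mul_right h2 _
    rw [show 2 * (x - 1) = (x - 1) * (x + 1) - (x - 1) * (x - 1) by ring]
    exact Valuation.map_sub_le _ h1 h3
  · right
    have h3 : P.intValuation ((x + 1) * (x + 1)) ≤ P.intValuation m := by
      refine le_trans ?_ h1
      rw [map_mul, map_mul]
      exact mul_le_mul_left h2 _
    rw [show 2 * (x + 1) = (x + 1) * (x + 1) - (x - 1) * (x + 1) by ring]
    exact Valuation.map_sub_le _ h3 h1

lemma card_two_tors (h3 : finrank ℚ A ≤ 3) (I : Ideal (𝓞 A)) [Finite (𝓞 A ⧸ I)] :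
    Nat.card (nsmulAddMonoidHom (α := 𝓞 A ⧸ I) 2).ker ≤ 8 := by
  rw [← AddSubgroup.index_range]
  have h1 := AddSubgroup.index_range_nsmul (𝓞 A) 2
  have h2 : ((nsmulAddMonoidHom (α := 𝓞 A) 2).range.map
      (Ideal.Quotient.mk I).toAddMonoidHom) = (nsmulAddMonoidHom (α := 𝓞 A ⧸ I) 2).range := by
    ext y
    constructor
    · rintro ⟨_, ⟨x, rfl⟩, rfl⟩
      exact ⟨Ideal.Quotient.mk I x, by simp [map_ofNat]⟩
    · rintro ⟨x, rfl⟩
      obtain ⟨x, rfl⟩ := Ideal.Quotient.mk_surjective x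
      exact ⟨_, ⟨x, rfl⟩, by simp [map_ofNat]⟩
  have h4 := AddSubgroup.index_map_dvd (nsmulAddMonoidHom (α := 𝓞 A) 2).range
    (f := (Ideal.Quotient.mk I).toAddMonoidHom) Ideal.Quotient.mk_surjective
  rw [h2, h1, RingOfIntegers.rank] at h4
  calc _ ≤ 2 ^ finrank ℚ A := Nat.le_of_dvd (by positivity) h4
    _ ≤ 2 ^ 3 := Nat.pow_le_pow_right (by norm_num) h3

lemma card_roots (h3 : finrank ℚ A ≤ 3) (M : ℤ) (hM : M ≠ 0)
    (s : Finset (𝓞 A ⧸ Ideal.span {(M : 𝓞 A)})) (hs : ∀ x ∈ s, x ^ 2 = 1) :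
    s.card ≤ 8 * 8 ^ om M := by
  classical
  have hm : (M : 𝓞 A) ≠ 0 := by exact_mod_cast hM
  have hI : Ideal.span {(M : 𝓞 A)} ≠ ⊥ := by simpa using hm
  have : Finite (𝓞 A ⧸ Ideal.span {(M : 𝓞 A)}) := Ideal.finiteQuotientOfFreeOfNeBot _ hI
  obtain ⟨S, hS, hS'⟩ := primes_le (K := A) M.natAbs (by simpa using hM)
  choose l hl using Ideal.Quotient.mk_surjective (I := Ideal.span {(M : 𝓞 A)})
  let f : (𝓞 A ⧸ Ideal.span {(M : 𝓞 A)}) → Finset (HeightOneSpectrum (𝓞 A)) := fun x =>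
    S.filter fun P => P.intValuation (2 * (l x - 1)) ≤ P.intValuation (M : 𝓞 A)
  have hd : ∀ x ∈ s, (M : 𝓞 A) ∣ l x ^ 2 - 1 := fun x hx => by
    rw [← Ideal.mem_span_singleton, ← Ideal.Quotient.eq_zero_iff_mem, map_sub, map_pow, hl,
      hs x hx, map_one, sub_self]
  have key : ∀ x ∈ s, ∀ y ∈ s, f x = f y → 2 • (x - y) = 0 := by
    intro x hx y hy hxy
    have h1 : (M : 𝓞 A) ∣ 2 * (l x - l y) := by
      refine dvd_of_val hm fun P => ?_
      by_cases hP : P ∈ S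
      · have h2 : P ∈ f x ↔ P ∈ f y := by rw [hxy]
        simp only [f, Finset.mem_filter, hP, true_and] at h2
        by_cases h4 : P.intValuation (2 * (l x - 1)) ≤ P.intValuation (M : 𝓞 A)
        · rw [show 2 * (l x - l y) = 2 * (l x - 1) - 2 * (l y - 1) by ring]
          exact Valuation.map_sub_le _ h4 (h2.1 h4)
        · rw [show 2 * (l x - l y) = 2 * (l x + 1) - 2 * (l y + 1) by ring]
          exact Valuation.map_sub_le _ ((sign P (hd x hx)).resolve_left h4)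
            ((sign P (hd y hy)).resolve_left (fun h => h4 (h2.2 h)))
      · have h2 : (M : 𝓞 A) ∉ P.asIdeal := fun h => hP (hS' P (by
          rcases Int.natAbs_eq M with h5 | h5
          · rw [h5] at h; simpa using h
          · rw [h5] at h; simpa using h))
        rw [HeightOneSpectrum.intValuation_eq_one_iff.2 h2]
        exact P.intValuation_le_one _
    rw [← Ideal.mem_span_singleton, ← Ideal.Quotient.eq_zero_iff_mem, map_mul, map_sub, hl,
      hl] at h1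
    rw [nsmul_eq_mul]
    simpa [map_ofNat] using h1
  have h8 := card_two_tors h3 (Ideal.span {(M : 𝓞 A)})
  have hc := Finset.card_le_mul_card_image_of_maps_to (f := f) (s := s) (t := S.powerset)
    (fun x _ => Finset.mem_powerset.2 (Finset.filter_subset _ _)) 8 (fun b _ => by
      rcases (s.filter fun a => f a = b).eq_empty_or_nonempty with h | ⟨y, hy⟩
      · rw [h]; simp
      · refine le_trans ?_ h8
        rw [Finset.mem_filter] at hy
        rw [← Nat.card_eq_finsetCard]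
        refine Nat.card_le_card_of_injective
          (fun x : (s.filter fun a => f a = b) => (⟨x.1 - y, by
            have := Finset.mem_filter.1 x.2
            exact key _ this.1 _ hy.1 (this.2.trans hy.2.symm)⟩ :
              (nsmulAddMonoidHom (α := 𝓞 A ⧸ Ideal.span {(M : 𝓞 A)}) 2).ker)) ?_
        intro x x' h
        exact Subtype.ext (sub_left_injective (congrArg Subtype.val h)))
  refine hc.trans (Nat.mul_le_mul_left _ ?_)
  rw [Finset.card_powerset, show (8 : ℕ) = 2 ^ 3 by norm_num, ← pow_mul]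
  exact Nat.pow_le_pow_right (by norm_num) (hS.trans (Nat.mul_le_mul_right _ h3))

lemma card_classes (h3 : finrank ℚ A ≤ 3) (M : ℤ) (hM : M ≠ 0) :
    Nat.card ((𝓞 A ⧸ Ideal.span {(M : 𝓞 A)})ˣ ⧸
      (powMonoidHom (α := (𝓞 A ⧸ Ideal.span {(M : 𝓞 A)})ˣ) 2).range) ≤ 8 * 8 ^ om M := by
  classical
  have hm : (M : 𝓞 A) ≠ 0 := by exact_mod_cast hM
  have hI : Ideal.span {(M : 𝓞 A)} ≠ ⊥ := by simpa using hm
  have : Finite (𝓞 A ⧸ Ideal.span {(M : 𝓞 A)}) := Ideal.finiteQuotientOfFreeOfNeBot _ hI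
  rw [← Subgroup.index_eq_card, Subgroup.index_range]
  have := Fintype.ofFinite (powMonoidHom (α := (𝓞 A ⧸ Ideal.span {(M : 𝓞 A)})ˣ) 2).ker
  rw [Nat.card_eq_fintype_card, ← Finset.card_univ, ← Finset.card_image_of_injective _
    (f := fun x : (powMonoidHom (α := (𝓞 A ⧸ Ideal.span {(M : 𝓞 A)})ˣ) 2).ker =>
      ((x.1 : (𝓞 A ⧸ Ideal.span {(M : 𝓞 A)})ˣ) : 𝓞 A ⧸ Ideal.span {(M : 𝓞 A)}))
    (fun x y h => Subtype.ext (Units.ext h))]
  refine card_roots h3 M hM _ fun x hx => ?_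
  obtain ⟨u, -, rfl⟩ := Finset.mem_image.1 hx
  have := u.2
  rw [MonoidHom.mem_ker, powMonoidHom_apply] at this
  rw [← Units.val_pow_eq_pow_val, this, Units.val_one]

lemma selP_mul {a b : 𝓞 A} (ha : H32.SelP a) (hb : H32.SelP b) : H32.SelP (a * b) := by
  obtain ⟨a0, a1, a2, I, a3⟩ := ha
  obtain ⟨b0, b1, b2, J, b3⟩ := hb
  refine ⟨mul_ne_zero a0 b0, ?_, fun φ => ?_, I * J, ?_⟩
  · push_cast
    rw [map_mul]
    exact a1.mul b1
  · push_cast
    rw [map_mul]
    exact mul_pos (a2 φ) (b2 φ)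
  · rw [mul_pow, a3, b3, Ideal.span_singleton_mul_span_singleton]

lemma selP_sq {z : 𝓞 A} (hz : z ≠ 0) : H32.SelP (z ^ 2) := by
  refine ⟨pow_ne_zero _ hz, ?_, fun φ => ?_, Ideal.span {z}, ?_⟩
  · push_cast
    rw [map_pow]
    exact IsSquare.sq _
  · push_cast
    rw [map_pow]
    have : φ (z : A) ≠ 0 := by simpa using hz
    positivity
  · rw [Ideal.span_singleton_pow]

lemma exists_unit {δ : 𝓞 A} (h : H32.SelP δ) {m : Ideal (𝓞 A)} (hm : m ≠ ⊥) :
    ∃ (t : A) (γ : 𝓞 A) (u : (𝓞 A ⧸ m)ˣ), t ≠ 0 ∧ (γ : A) = δ * t ^ 2 ∧ H32.SelP γ ∧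
      (u : 𝓞 A ⧸ m) = Ideal.Quotient.mk m γ := by
  obtain ⟨a0, a1, a2, I, a3⟩ := h
  obtain ⟨t, γ, J, ht, h1, h2, h4⟩ := rescale two_ne_zero a0 a3 hm
  have h5 : Ideal.span {γ} ⊔ m = ⊤ := by
    rw [← h2]
    exact Ideal.pow_sup_eq_top h4
  obtain ⟨y, hy, w, hw, hyw⟩ := Submodule.mem_sup.1 ((Ideal.eq_top_iff_one _).1 h5)
  obtain ⟨c, rfl⟩ := Ideal.mem_span_singleton'.1 hy
  have h6 : Ideal.Quotient.mk m γ * Ideal.Quotient.mk m c = 1 := by
    have := congrArg (Ideal.Quotient.mk m) hyw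
    rwa [map_add, Ideal.Quotient.eq_zero_iff_mem.2 hw, add_zero, map_mul, map_one,
      mul_comm] at this
  have h0 : (δ : A) ≠ 0 := by simpa using a0
  refine ⟨t, γ, Units.mkOfMulEqOne _ _ h6, ht, h1, ⟨?_, ?_, fun φ => ?_, J, h2⟩, rfl⟩
  · intro h
    rw [h] at h1
    exact mul_ne_zero h0 (pow_ne_zero 2 ht) (by simpa using h1.symm)
  · rw [h1, map_mul, map_pow]
    exact a1.mul (IsSquare.sq _)
  · rw [h1, map_mul, map_pow]
    have : φ t ≠ 0 := by simpa using ht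
    exact mul_pos (a2 φ) (by positivity)

end ModAux

open ModAux in
theorem sel_mod {A : Type} [Field A] [NumberField A] (h3 : finrank ℚ A ≤ 3) (M : ℤ) (hM : M ≠ 0)
    (k : ℕ) (hk : ∀ T : Finset (𝓞 A), (∀ δ ∈ T, H32.SelP δ ∧ (M : 𝓞 A) ∣ δ - 1) → H32.Ineq T →
      T.card ≤ k) : SelLe A (8 * 8 ^ om M * k) := by
  classical
  intro T hT hI
  have hm : (M : 𝓞 A) ≠ 0 := by exact_mod_cast hM
  have hI0 : Ideal.span {(M : 𝓞 A)} ≠ ⊥ := by simpa using hm
  have : Finite (𝓞 A ⧸ Ideal.span {(M : 𝓞 A)}) := Ideal.finiteQuotientOfFreeOfNeBot _ hI0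
  choose! t γ u ht hγ hs hu using fun δ (h : δ ∈ T) => exists_unit (hT δ h) hI0
  have := Fintype.ofFinite ((𝓞 A ⧸ Ideal.span {(M : 𝓞 A)})ˣ ⧸
    (powMonoidHom (α := (𝓞 A ⧸ Ideal.span {(M : 𝓞 A)})ˣ) 2).range)
  have hc := Finset.card_le_mul_card_image_of_maps_to (s := T) (t := Finset.univ)
    (f := fun δ => (QuotientGroup.mk (u δ) : (𝓞 A ⧸ Ideal.span {(M : 𝓞 A)})ˣ ⧸
      (powMonoidHom (α := (𝓞 A ⧸ Ideal.span {(M : 𝓞 A)})ˣ) 2).range))
    (fun _ _ => Finset.mem_univ _) k (fun b _ => by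
      set F := T.filter fun δ => (QuotientGroup.mk (u δ) : (𝓞 A ⧸ Ideal.span {(M : 𝓞 A)})ˣ ⧸
        (powMonoidHom (α := (𝓞 A ⧸ Ideal.span {(M : 𝓞 A)})ˣ) 2).range) = b with hF
      rcases F.eq_empty_or_nonempty with h | ⟨e, he⟩
      · rw [h]; simp
      have he' := Finset.mem_filter.1 he
      have hz : ∀ δ ∈ F, ∃ z : 𝓞 A, z ≠ 0 ∧ (M : 𝓞 A) ∣ γ δ * γ e * z ^ 2 - 1 := by
        intro δ hδ
        have hδ' := Finset.mem_filter.1 hδ
        obtain ⟨v, hv⟩ := QuotientGroup.eq.1 (hδ'.2.trans he'.2.symm)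
        rw [powMonoidHom_apply] at hv
        obtain ⟨z, hz⟩ := Ideal.Quotient.mk_surjective
          ((v * (u e)⁻¹ : (𝓞 A ⧸ Ideal.span {(M : 𝓞 A)})ˣ) : 𝓞 A ⧸ Ideal.span {(M : 𝓞 A)})
        have h1 : u δ * u e * (v * (u e)⁻¹) ^ 2 = 1 := by
          rw [mul_pow, hv, pow_two, mul_comm (u δ) (u e), mul_assoc (u e), ← mul_assoc (u δ),
            mul_inv_cancel_left, mul_inv_cancel_left, mul_inv_cancel]
        have h2 : (M : 𝓞 A) ∣ γ δ * γ e * z ^ 2 - 1 := by
          rw [← Ideal.mem_span_singleton, ← Ideal.Quotient.eq_zero_iff_mem, map_sub, map_mul,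
            map_mul, map_pow, hz, ← hu δ hδ'.1, ← hu e he'.1, map_one, sub_eq_zero]
          simpa only [Units.val_mul, Units.val_pow_eq_pow_val, Units.val_one] using
            congrArg Units.val h1
        by_cases h0 : z = 0
        · refine ⟨M, hm, ?_⟩
          rw [h0] at h2
          have h4 : (M : 𝓞 A) ∣ 1 := by simpa using h2
          exact h4.trans (one_dvd _)
        · exact ⟨z, h0, h2⟩
      choose! z hz0 hz1 using hz
      have hsq : ∀ δ ∈ F, ∀ ε ∈ F, δ ≠ ε → ¬ IsSquare (((γ δ * γ e * z δ ^ 2 : 𝓞 A) : A) *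
          ((γ ε * γ e * z ε ^ 2 : 𝓞 A) : A)) := by
        intro δ hδ ε hε hne ⟨r, hr⟩
        have hδ' := (Finset.mem_filter.1 hδ).1
        have hε' := (Finset.mem_filter.1 hε).1
        apply hI δ hδ' ε hε' hne
        have e1 : (γ e : A) ≠ 0 := by simpa using (hs e he'.1).1
        have e2 : (z δ : A) ≠ 0 := by simpa using hz0 δ hδ
        have e3 : (z ε : A) ≠ 0 := by simpa using hz0 ε hε
        have e4 := ht δ hδ'
        have e5 := ht ε hε'
        refine ⟨r / (t δ * t ε * γ e * z δ * z ε), ?_⟩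
        replace hr : (γ δ : A) * (γ e : A) * (z δ : A) ^ 2 *
            ((γ ε : A) * (γ e : A) * (z ε : A) ^ 2) = r * r := by
          rw [← hr]
          simp only [RingOfIntegers.coe_eq_algebraMap, map_mul, map_pow]
        rw [hγ δ hδ', hγ ε hε'] at hr
        field_simp
        linear_combination hr
      have hinj : Set.InjOn (fun δ => γ δ * γ e * z δ ^ 2) F := by
        intro δ hδ ε hε h
        by_contra hne
        apply hsq δ hδ ε hε hne
        have h' : γ δ * γ e * z δ ^ 2 = γ ε * γ e * z ε ^ 2 := h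
        rw [h']
        exact ⟨_, rfl⟩
      rw [← Finset.card_image_of_injOn hinj]
      refine hk _ (fun β hβ => ?_) (fun β hβ β' hβ' hne => ?_)
      · obtain ⟨δ, hδ, rfl⟩ := Finset.mem_image.1 hβ
        exact ⟨selP_mul (selP_mul (hs δ (Finset.mem_filter.1 hδ).1) (hs e he'.1))
          (selP_sq (hz0 δ hδ)), hz1 δ hδ⟩
      · obtain ⟨δ, hδ, rfl⟩ := Finset.mem_image.1 hβ
        obtain ⟨ε, hε, rfl⟩ := Finset.mem_image.1 hβ'
        exact hsq δ hδ ε hε (fun h => hne (by rw [h])))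
  rw [Finset.card_univ, ← Nat.card_eq_fintype_card, mul_comm] at hc
  exact hc.trans (Nat.mul_le_mul_right _ (card_classes h3 M hM))

end Pool.Agent.Lib.MP_af4c59_nt.K9
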