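import Pool.Agent.Lib.MP_af4c59_nt.K9Defs
import Pool.Agent.Lib.MP_af4c59_nt.H32Core

/-!
The sum over the nondegenerate triples (part D2 iii).
-/

set_option autoImplicit false

namespace Pool.Agent.Lib.MP_af4c59_nt.K9

open NumberField Module IsDedekindDomain

namespace NonAux

open H32

theorem sum_recip (m : ℤ) (hm : m ≠ 0) {ε : ℝ} (hε : 0 < ε) : ∃ C : ℝ, 0 < C ∧ ∀ T : ℤ, 1 ≤ T →
    ∑ x ∈ box T, 1 / |((x.1 ^ 2 - x.2.1 ^ 2 - m * x.2.2 ^ 2 : ℤ) : ℝ)| ≤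
      C * (T : ℝ) ^ (1 + ε) := by
  obtain ⟨η, hη, rfl⟩ : ∃ η : ℝ, 0 < η ∧ ε = 4 * η := ⟨ε / 4, by positivity, by ring⟩
  obtain ⟨C, hC, h1⟩ := divisor_bound hη
  obtain ⟨K, hK, h2⟩ := SumA.harm hη
  have hm1 : 1 ≤ |m| := Int.one_le_abs hm
  obtain ⟨M, hM⟩ : ∃ M : ℤ, M = 1 + |m| := ⟨_, rfl⟩
  have hM0 : (0 : ℝ) < M := by exact_mod_cast (show 0 < M by omega)
  refine ⟨6 * C * K * (M : ℝ) ^ η + 6 * K, by positivity, fun T hT => ?_⟩
  have hT' : (1 : ℝ) ≤ T := by exact_mod_cast hT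
  have hT0 : (0 : ℝ) < T := by linarith
  obtain ⟨I, hI⟩ : ∃ I, Finset.Icc (-T) T = I := ⟨_, rfl⟩
  have h3 : ∀ x ∈ I, x ^ 2 ≤ T ^ 2 := fun x hx => by
    rw [← hI, Finset.mem_Icc] at hx
    exact sq_le_sq' hx.1 hx.2
  have h4 : (I.card : ℝ) ≤ 3 * T := by
    have h4 : (I.card : ℤ) ≤ 3 * T := by
      rw [← hI, Int.card_Icc, Int.toNat_of_nonneg (by omega)]
      omega
    exact_mod_cast h4
  have h5 : ∀ y ∈ I, ∑ p ∈ I ×ˢ I, 1 / |((p.1 ^ 2 - p.2 ^ 2 - m * y ^ 2 : ℤ) : ℝ)| ≤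
      C * ((T : ℝ) ^ 2) ^ η * 2 * (K * ((M : ℝ) * (T : ℝ) ^ 2) ^ η) +
        6 * T * (1 / |((y - 0 : ℤ) : ℝ)|) := fun y hy => by
    refine (SumA.fibre I (Finset.Icc (-T ^ 2) (T ^ 2)) (fun p hp => ?_)
      (D := C * ((T : ℝ) ^ 2) ^ η) (by positivity) (fun n hn => (h1 _).trans ?_)
      (fun n => 1 / |((n - m * y ^ 2 : ℤ) : ℝ)|) fun _ => by positivity).trans
        (add_le_add (mul_le_mul_of_nonneg_left (h2 _ _ _ (by positivity) fun n hn => ?_)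
          (by positivity)) (mul_le_mul (by linarith) ?_ (by positivity) (by positivity)))
    · have k1 := h3 _ (Finset.mem_product.1 hp).1
      have k2 := h3 _ (Finset.mem_product.1 hp).2
      exact Finset.mem_Icc.2 ⟨by linarith [sq_nonneg p.1], by linarith [sq_nonneg p.2]⟩
    · refine mul_le_mul_of_nonneg_left (Real.rpow_le_rpow (by positivity) ?_ hη.le) (by positivity)
      have k1 : ((n.natAbs : ℤ) : ℝ) ≤ ((T ^ 2 : ℤ) : ℝ) :=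
        Int.cast_le.2 (by rw [Int.natCast_natAbs]; exact abs_le.2 (Finset.mem_Icc.1 hn))
      rwa [Int.cast_natCast, Int.cast_pow] at k1
    · have k1 := abs_le.2 (Finset.mem_Icc.1 hn)
      have k2 := h3 y hy
      have k3 : |n - m * y ^ 2| ≤ M * T ^ 2 := by
        refine (abs_sub _ _).trans ?_
        rw [abs_mul, abs_of_nonneg (sq_nonneg y), hM]
        have := mul_le_mul_of_nonneg_left k2 (abs_nonneg m)
        linarith
      exact_mod_cast k3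
    · rcases eq_or_ne y 0 with rfl | k1
      · simp
      · have k2 : 0 < |y - 0| := by simpa using k1
        have k3 : |y - 0| ≤ |0 - m * y ^ 2| := by
          rw [sub_zero, zero_sub, abs_neg, abs_mul, abs_of_nonneg (sq_nonneg y), ← sq_abs y]
          nlinarith [abs_pos.2 k1, mul_le_mul_of_nonneg_right hm1 (sq_nonneg |y|)]
        exact one_div_le_one_div_of_le (by exact_mod_cast k2) (by exact_mod_cast k3)
  have h6 := h2 I 0 T hT0.le fun n hn => by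
    have k1 : |n - 0| ≤ T := by
      rw [← hI, Finset.mem_Icc] at hn
      exact abs_le.2 (by simpa using hn)
    exact_mod_cast k1
  have h7 : ∑ x ∈ box T, 1 / |((x.1 ^ 2 - x.2.1 ^ 2 - m * x.2.2 ^ 2 : ℤ) : ℝ)| =
      ∑ y ∈ I, ∑ p ∈ I ×ˢ I, 1 / |((p.1 ^ 2 - p.2 ^ 2 - m * y ^ 2 : ℤ) : ℝ)| := by
    rw [box, hI, Finset.sum_comm]
    simp only [Finset.sum_product]
  have h8 : ((T : ℝ) ^ 2) ^ η = (T : ℝ) ^ η * (T : ℝ) ^ η := by
    rw [sq, Real.mul_rpow hT0.le hT0.le]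
  have h9 : (T : ℝ) ^ (1 + 4 * η) = T * ((T : ℝ) ^ η) ^ 4 := by
    rw [Real.rpow_add hT0, Real.rpow_one, mul_comm 4 η, Real.rpow_mul hT0.le]
    norm_num
  have h10 : 1 ≤ (T : ℝ) ^ η := Real.one_le_rpow hT' hη.le
  rw [h7, h9]
  refine (Finset.sum_le_sum h5).trans ?_
  rw [Finset.sum_add_distrib, Finset.sum_const, nsmul_eq_mul, ← Finset.mul_sum,
    Real.mul_rpow hM0.le (by positivity), h8, add_mul]
  generalize (T : ℝ) ^ η = A at *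
  refine add_le_add ((mul_le_mul_of_nonneg_right h4 (by positivity)).trans (le_of_eq (by ring)))
    ((mul_le_mul_of_nonneg_left h6 (by positivity)).trans ?_)
  have h11 : A ≤ A ^ 4 := le_self_pow₀ h10 (by norm_num)
  calc 6 * (T : ℝ) * (K * A) ≤ 6 * T * (K * A ^ 4) := by gcongr
    _ = _ := by ring

/-- The term for primitive vectors. -/
noncomputable def FF (x : ℤ × ℤ × ℤ) : ℝ := (1 / |((jj x ^ 2 * dd x : ℤ) : ℝ)|) ^ ((1 : ℝ) / 3)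

lemma FF_nonneg (x : ℤ × ℤ × ℤ) : 0 ≤ FF x := by
  unfold FF
  positivity

lemma FF_le (x : ℤ × ℤ × ℤ) : FF x ≤ 1 / |((jj x : ℤ) : ℝ)| + 1 / |((dd x : ℤ) : ℝ)| := by
  unfold FF
  rw [Int.cast_mul, Int.cast_pow, abs_mul, abs_pow, one_div, mul_inv, ← inv_pow, one_div, one_div,
    one_div]
  have ha : 0 ≤ |((jj x : ℤ) : ℝ)|⁻¹ := by positivity
  have hb : 0 ≤ |((dd x : ℤ) : ℝ)|⁻¹ := by positivity
  generalize |((jj x : ℤ) : ℝ)|⁻¹ = a at ha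
  generalize |((dd x : ℤ) : ℝ)|⁻¹ = b at hb
  have h1 : a ^ 2 * b ≤ (a + b) ^ 3 := by
    have : (a + b) ^ 3 = a ^ 2 * b + (a ^ 3 + 2 * (a ^ 2 * b) + 3 * (a * b ^ 2) + b ^ 3) := by
      ring
    rw [this]
    exact le_add_of_nonneg_right (by positivity)
  refine (Real.rpow_le_rpow (by positivity) h1 (by norm_num)).trans (le_of_eq ?_)
  have := Real.pow_rpow_inv_natCast (add_nonneg ha hb) (n := 3) (by norm_num)
  simpa using this

lemma inner {ε : ℝ} (hε : 0 < ε) : ∃ C : ℝ, 0 < C ∧ ∀ T : ℤ, 0 ≤ T →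
    ∑ x ∈ box T, FF x ≤ C * (T : ℝ) ^ (1 + ε) := by
  obtain ⟨C, hC, h⟩ := sum_recip (-8) (by norm_num) hε
  obtain ⟨C', hC', h'⟩ := sum_recip 1 (by norm_num) hε
  refine ⟨(4 * C + C') * 2 ^ (1 + ε), by positivity, fun T hT => ?_⟩
  rcases hT.eq_or_lt with rfl | hT
  · have : box 0 = {(0, 0, 0)} := by simp [box]
    rw [this, Finset.sum_singleton]
    have e : FF (0, 0, 0) = 0 := by simp [FF, jj, dd]
    rw [e]
    positivity
  have h3 := h (2 * T) (by omega)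
  have h3' := h' (2 * T) (by omega)
  have hq : ∑ x ∈ box T, 1 / |((jj x : ℤ) : ℝ)| ≤
      ∑ x ∈ box (2 * T), 4 * (1 / |((x.1 ^ 2 - x.2.1 ^ 2 - -8 * x.2.2 ^ 2 : ℤ) : ℝ)|) := by
    refine SumB.sum_le_of_inj _ _ (fun x => (x.1 + x.2.1, x.1 - x.2.1, x.2.2)) ?_ ?_ _ _ ?_
      fun y => by positivity
    · rintro ⟨a, b, c⟩ - ⟨a', b', c'⟩ - e
      simp only [Prod.mk.injEq] at e ⊢
      omega
    · intro x hx
      rw [SumB.mem_box] at hx ⊢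
      dsimp only
      omega
    · intro x _
      have : ((x.1 + x.2.1) ^ 2 - (x.1 - x.2.1) ^ 2 - -8 * x.2.2 ^ 2 : ℤ) = 4 * jj x := by
        simp only [jj]; ring
      dsimp only
      rw [this, Int.cast_mul, abs_mul]
      refine le_of_eq ?_
      norm_num
      ring
  have hr : ∑ x ∈ box T, 1 / |((dd x : ℤ) : ℝ)| ≤
      ∑ x ∈ box (2 * T), 1 / |((x.1 ^ 2 - x.2.1 ^ 2 - 1 * x.2.2 ^ 2 : ℤ) : ℝ)| := by
    refine SumB.sum_le_of_inj _ _ (fun x => (x.1 + x.2.2, x.1 - x.2.2, x.2.1)) ?_ ?_ _ _ ?_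
      fun y => by positivity
    · rintro ⟨a, b, c⟩ - ⟨a', b', c'⟩ - e
      simp only [Prod.mk.injEq] at e ⊢
      omega
    · intro x hx
      rw [SumB.mem_box] at hx ⊢
      dsimp only
      omega
    · intro x _
      have : ((x.1 + x.2.2) ^ 2 - (x.1 - x.2.2) ^ 2 - 1 * x.2.1 ^ 2 : ℤ) = -dd x := by
        simp only [dd]; ring
      dsimp only
      rw [this, Int.cast_neg, abs_neg]
  rw [← Finset.mul_sum] at hq
  have h4 := Finset.sum_le_sum fun x (_ : x ∈ box T) => FF_le x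
  rw [Finset.sum_add_distrib] at h4
  have h5 : (((2 * T : ℤ) : ℝ)) ^ (1 + ε) = 2 ^ (1 + ε) * (T : ℝ) ^ (1 + ε) := by
    rw [Int.cast_mul, Real.mul_rpow (by norm_num) (by exact_mod_cast hT.le)]
    norm_num
  rw [h5] at h3 h3'
  linarith

lemma fibre {ε C : ℝ} (hε : 0 < ε) (hC : 0 < C)
    (h : ∀ T : ℤ, 0 ≤ T → ∑ x ∈ box T, FF x ≤ C * (T : ℝ) ^ (1 + ε)) {T : ℤ} (hT : 0 ≤ T)
    (k : ℕ) :
    ∑ x ∈ box T with gcd3 x = k, (((gcd3 x : ℝ) ^ 6) /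
      |((jj x ^ 2 * dd x : ℤ) : ℝ)|) ^ ((1 : ℝ) / 3) ≤
      C * (T : ℝ) ^ (1 + ε) * ((k : ℝ) ^ (1 + ε))⁻¹ := by
  rcases eq_or_ne k 0 with rfl | hk
  · refine le_of_eq_of_le (Finset.sum_eq_zero fun x hx => ?_) (by positivity)
    rw [(Finset.mem_filter.1 hx).2]
    simp
  have hk' : (0 : ℝ) < k := by exact_mod_cast Nat.pos_of_ne_zero hk
  have hkz : (0 : ℤ) < k := by exact_mod_cast Nat.pos_of_ne_zero hk
  have hd : ∀ x : ℤ × ℤ × ℤ, gcd3 x = k →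
      x = ((k : ℤ) * (x.1 / k), (k : ℤ) * (x.2.1 / k), (k : ℤ) * (x.2.2 / k)) := by
    intro x hx
    rw [← hx]
    exact SumB.decomp x
  refine (SumB.sum_le_of_inj _ (box (T / k)) (fun x => (x.1 / k, x.2.1 / k, x.2.2 / k)) ?_ ?_ _ FF
    ?_ FF_nonneg).trans ((h _ (Int.ediv_nonneg hT hkz.le)).trans ?_)
  · intro x hx y hy e
    simp only [Prod.mk.injEq] at e
    rw [hd x (Finset.mem_filter.1 hx).2, hd y (Finset.mem_filter.1 hy).2, e.1, e.2.1, e.2.2]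
  · intro x hx
    obtain ⟨h1, h2⟩ := Finset.mem_filter.1 hx
    rw [hd x h2, SumB.mem_box] at h1
    rw [SumB.mem_box]
    exact ⟨SumB.div_mem hk h1.1, SumB.div_mem hk h1.2.1, SumB.div_mem hk h1.2.2⟩
  · intro x hx
    obtain ⟨-, h2⟩ := Finset.mem_filter.1 hx
    have e : jj x ^ 2 * dd x = (k : ℤ) ^ 6 *
        (jj (x.1 / k, x.2.1 / k, x.2.2 / k) ^ 2 * dd (x.1 / k, x.2.1 / k, x.2.2 / k)) := by
      have := hd x h2
      generalize x.1 / k = a at this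
      generalize x.2.1 / k = b at this
      generalize x.2.2 / k = c at this
      rw [this]
      simp only [jj, dd]
      ring
    refine le_of_eq ?_
    unfold FF
    rw [e, h2, Int.cast_mul, abs_mul, Int.cast_pow, Int.cast_natCast,
      abs_of_pos (pow_pos hk' 6), div_mul_eq_div_div, div_self (pow_pos hk' 6).ne']
  · rw [mul_assoc, ← div_eq_mul_inv, ← Real.div_rpow (by exact_mod_cast hT) hk'.le]
    refine mul_le_mul_of_nonneg_left (Real.rpow_le_rpow ?_ ?_ (by positivity)) hC.le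
    · exact_mod_cast Int.ediv_nonneg hT hkz.le
    · rw [le_div_iff₀ hk']
      exact_mod_cast Int.ediv_mul_le T hkz.ne'

theorem sum_disc {ε : ℝ} (hε : 0 < ε) : ∃ C : ℝ, 0 < C ∧ ∀ T : ℤ, 1 ≤ T →
    ∑ x ∈ box T, (((gcd3 x : ℝ) ^ 6) / |((jj x ^ 2 * dd x : ℤ) : ℝ)|) ^ ((1 : ℝ) / 3) ≤
      C * (T : ℝ) ^ (1 + ε) := by
  obtain ⟨C, hC, h⟩ := inner hε
  have hs : Summable fun k : ℕ => ((k : ℝ) ^ (1 + ε))⁻¹ :=
    Real.summable_nat_rpow_inv.2 (by linarith)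
  have h0 : 0 ≤ ∑' k : ℕ, ((k : ℝ) ^ (1 + ε))⁻¹ := tsum_nonneg fun k => by positivity
  refine ⟨C * (∑' k : ℕ, ((k : ℝ) ^ (1 + ε))⁻¹ + 1), by positivity, fun T hT => ?_⟩
  have hT0 : 0 ≤ T := by omega
  have hT' : (0 : ℝ) ≤ T := by exact_mod_cast hT0
  rw [← Finset.sum_fiberwise_of_maps_to (t := (box T).image gcd3) (g := gcd3)
    fun x hx => Finset.mem_image_of_mem _ hx]
  refine (Finset.sum_le_sum fun k _ => fibre hε hC h hT0 k).trans ?_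
  rw [← Finset.mul_sum]
  have h1 := hs.sum_le_tsum ((box T).image gcd3) fun k _ => by positivity
  have h2 : 0 ≤ C * (T : ℝ) ^ (1 + ε) := by positivity
  have h3 := mul_le_mul_of_nonneg_left h1 h2
  nlinarith

/-- first coefficient -/
def cA (a _b c : ℤ) : ℤ := a * c ^ 2

/-- second coefficient -/
def cB (a b c : ℤ) : ℤ := -a * b ^ 2 + 2 * a ^ 2 * c + 2 * b * c ^ 2

/-- third coefficient -/
def cC (a b c : ℤ) : ℤ := a ^ 3 + 6 * a * b * c - 2 * b ^ 3 + 4 * c ^ 3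

lemma prim {g m a b c : ℤ} (ha : g ∣ m * cA a b c) (hb : g ∣ m * cB a b c)
    (hc : g ∣ m * cC a b c) : g ∣ 4 * m * (gcd3 (a, b, c) : ℤ) ^ 7 := by
  have h0 : g ∣ 4 * m * a ^ 7 := by
    have : 4 * m * a ^ 7 =
        m * cA a b c * (4 * (-8 * b ^ 3 * c + 8 * a * b * c ^ 2 + 8 * a ^ 2 * b ^ 2 - 4 * a ^ 3 * c))
        + m * cB a b c * (4 * (4 * a * b ^ 2 * c - 2 * a ^ 3 * b))
        + m * cC a b c * (4 * (a ^ 4 - 2 * a ^ 2 * b * c)) := by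
      simp only [cA, cB, cC]; ring
    rw [this]
    exact ((ha.mul_right _).add (hb.mul_right _)).add (hc.mul_right _)
  have h1 : g ∣ 4 * m * b ^ 7 := by
    have : 4 * m * b ^ 7 =
        m * cA a b c * (2 * (92 * b ^ 2 * c ^ 2 - 32 * a * c ^ 3 + 40 * a ^ 2 * b * c + 4 * a ^ 4))
        + m * cB a b c * (2 * (16 * c ^ 4 - 6 * b ^ 3 * c - 14 * a * b * c ^ 2 - a ^ 2 * b ^ 2
          - 2 * a ^ 3 * c))
        + m * cC a b c * (-2 * (8 * b * c ^ 3 + b ^ 4)) := by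
      simp only [cA, cB, cC]; ring
    rw [this]
    exact ((ha.mul_right _).add (hb.mul_right _)).add (hc.mul_right _)
  have h2 : g ∣ 4 * m * c ^ 7 := by
    have : 4 * m * c ^ 7 =
        m * cA a b c * (b ^ 4 - 10 * b * c ^ 3 - 5 * a ^ 2 * c ^ 2)
        + m * cB a b c * (b ^ 2 * c ^ 2 + 2 * a * c ^ 3) + m * cC a b c * c ^ 4 := by
      simp only [cA, cB, cC]; ring
    rw [this]
    exact ((ha.mul_right _).add (hb.mul_right _)).add (hc.mul_right _)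
  exact SumB.dvd_mul_gcd_pow h0 (SumB.dvd_mul_gcd_pow h1 h2)

theorem content_dvd (x : ℤ × ℤ × ℤ) (g : ℤ) (ha : g ∣ cA x.1 x.2.1 x.2.2)
    (hb : g ∣ cB x.1 x.2.1 x.2.2) (hc : g ∣ cC x.1 x.2.1 x.2.2) :
    g ∣ 4 * (gcd3 x : ℤ) ^ 3 := by
  rcases eq_or_ne (gcd3 x) 0 with h0 | h0
  · rw [h0]
    simp
  have hd := SumB.decomp x
  have h1 := SumB.gcd3_div h0
  generalize x.1 / gcd3 x = a at hd h1
  generalize x.2.1 / gcd3 x = b at hd h1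
  generalize x.2.2 / gcd3 x = c at hd h1
  generalize (gcd3 x : ℤ) = k at hd
  subst hd
  have := prim (g := g) (m := k ^ 3) (a := a) (b := b) (c := c)
    (by refine ha.trans (dvd_of_eq ?_); simp only [cA]; ring)
    (by refine hb.trans (dvd_of_eq ?_); simp only [cB]; ring)
    (by refine hc.trans (dvd_of_eq ?_); simp only [cC]; ring)
  rw [h1] at this
  simpa using this

lemma QN_le {x : ℤ × ℤ × ℤ} {M N s n : ℤ} (hx : x ∈ box M) (hs : |s| ≤ N) (hn : |n| ≤ N) :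
    QN x s n ≤ 19 * M ^ 3 * N ^ 2 := by
  obtain ⟨x1, x2, x3⟩ := Core.mem_box.1 hx
  have m1 := abs_le.1 (Core.mono3 x1 x3 x3)
  have m2 := abs_le.1 (Core.mono3 x1 x2 x2)
  have m3 := abs_le.1 (Core.mono3 x1 x1 x3)
  have m4 := abs_le.1 (Core.mono3 x2 x3 x3)
  have m5 := abs_le.1 (Core.mono3 x1 x1 x1)
  have m6 := abs_le.1 (Core.mono3 x1 x2 x3)
  have m7 := abs_le.1 (Core.mono3 x2 x2 x2)
  have m8 := abs_le.1 (Core.mono3 x3 x3 x3)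
  have ea : |cA x.1 x.2.1 x.2.2| ≤ M ^ 3 := by
    simp only [cA]; exact abs_le.2 ⟨by linarith [m1.1], by linarith [m1.2]⟩
  have eb : |cB x.1 x.2.1 x.2.2| ≤ 5 * M ^ 3 := by
    simp only [cB]
    exact abs_le.2 ⟨by linarith [m2.2, m3.1, m4.1], by linarith [m2.1, m3.2, m4.2]⟩
  have ec : |cC x.1 x.2.1 x.2.2| ≤ 13 * M ^ 3 := by
    simp only [cC]
    exact abs_le.2 ⟨by linarith [m5.1, m6.1, m7.2, m8.1], by linarith [m5.2, m6.2, m7.1, m8.2]⟩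
  have hN : 0 ≤ N := (abs_nonneg _).trans hs
  have hM : 0 ≤ M ^ 3 := (abs_nonneg _).trans ea
  have key : ∀ u v A B : ℤ, |u| ≤ N → |v| ≤ N → |A| ≤ B → A * (u * v) ≤ B * N ^ 2 := by
    intro u v A B hu hv hA
    refine (le_abs_self _).trans ?_
    rw [abs_mul, abs_mul, sq]
    have := (abs_nonneg _).trans hA
    gcongr
  have e : QN x s n = cA x.1 x.2.1 x.2.2 * (s * s) + cB x.1 x.2.1 x.2.2 * (s * n)
      + cC x.1 x.2.1 x.2.2 * (n * n) := by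
    simp only [QN, cA, cB, cC]; ring
  rw [e]
  linarith [key s s _ _ hs hs ea, key s n _ _ hs hn eb, key n n _ _ hn hn ec]

lemma disc_le {x : ℤ × ℤ × ℤ} {M : ℤ} (hx : x ∈ box M) : |jj x ^ 2 * dd x| ≤ 45 * M ^ 6 := by
  obtain ⟨x1, x2, x3⟩ := Core.mem_box.1 hx
  have hM : 0 ≤ M := (abs_nonneg _).trans x1
  have key : ∀ u v : ℤ, |u| ≤ M → |v| ≤ M → |u * v| ≤ M ^ 2 := by
    intro u v hu hv
    rw [abs_mul, sq]
    gcongr
  have m1 := abs_le.1 (key _ _ x1 x2)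
  have m2 := abs_le.1 (key _ _ x3 x3)
  have m3 := abs_le.1 (key _ _ x2 x2)
  have m4 := abs_le.1 (key _ _ x1 x3)
  have e1 : |jj x| ≤ 3 * M ^ 2 := by
    simp only [jj]; exact abs_le.2 ⟨by linarith [m1.1, m2.1], by linarith [m1.2, m2.2]⟩
  have e2 : |dd x| ≤ 5 * M ^ 2 := by
    simp only [dd]; exact abs_le.2 ⟨by linarith [m3.1, m4.2], by linarith [m3.2, m4.1]⟩
  rw [abs_mul, abs_pow]
  calc |jj x| ^ 2 * |dd x| ≤ (3 * M ^ 2) ^ 2 * (5 * M ^ 2) := by gcongr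
    _ = 45 * M ^ 6 := by ring

lemma np_of_sign (S : Finset (ℤ × ℤ)) (hc : ∀ x ∈ S, IsCoprime x.1 x.2)
    (hs : ∀ x ∈ S, ∀ y ∈ S, 0 < x.2 * y.2) : NP S := by
  intro x hx y hy hne e
  have d1 : x.2 ∣ y.2 := (hc x hx).symm.dvd_of_dvd_mul_left ⟨y.1, e⟩
  have d2 : y.2 ∣ x.2 := (hc y hy).symm.dvd_of_dvd_mul_right ⟨x.1, by rw [← e]; ring⟩
  have h0 := hs x hx y hy
  have h2 : x.2 = y.2 := by
    rcases Int.natAbs_eq_natAbs_iff.1 (Int.natAbs_eq_of_dvd_dvd d1 d2) with h | h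
    · exact h
    · rw [h] at h0
      nlinarith [sq_nonneg y.2]
  have hy0 : y.2 ≠ 0 := by
    rintro h
    rw [h, mul_zero] at h0
    exact lt_irrefl _ h0
  refine hne (Prod.ext (mul_right_cancel₀ hy0 ?_) h2)
  rw [e, h2, mul_comm]

/-- The bound for one coefficient vector. -/
lemma one {η C : ℝ} (hη : 0 < η) (hC : 0 < C)
    (hcon : ∀ (a b c g : ℤ), g ≠ 0 → b ^ 2 - 4 * a * c ≠ 0 →
      (∀ p : ℕ, p.Prime → ¬ ((p : ℤ) ∣ a ∧ (p : ℤ) ∣ b ∧ (p : ℤ) ∣ c)) →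
      ∀ (B W : ℝ), 0 ≤ B → 0 ≤ W → ∀ S : Finset (ℤ × ℤ), NP S →
        (∀ x ∈ S, |(x.1 : ℝ)| ≤ B ∧ |(x.2 : ℝ)| ≤ B ∧
          ∃ w : ℤ, |(w : ℝ)| ≤ W ∧ OnC a b c g (x.1, x.2, w)) →
        (S.card : ℝ) ≤ C * |((g * (b ^ 2 - 4 * a * c) : ℤ) : ℝ)| ^ η *
          (1 + (B ^ 2 * W / |((b ^ 2 - 4 * a * c : ℤ) : ℝ)|) ^ ((1 : ℝ) / 3)))
    {y K : ℝ} (hy : 1 ≤ y) (hK : 1 ≤ K) {T : ℤ} (hT : (T : ℝ) ≤ K * y ^ 2) {x : ℤ × ℤ × ℤ}
    (hx : x ∈ box T) (S : Finset (ℤ × ℤ)) (hS : NP S)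
    (hY : ∀ b ∈ S, |(b.1 : ℝ)| ≤ y ^ 3 ∧ |(b.2 : ℝ)| ≤ y ^ 3) (hP : ∀ b ∈ S, x ∈ Non T b.1 b.2) :
    (S.card : ℝ) ≤ C * (45 * K ^ 6 * y ^ 12) ^ η * (1 + 5 * K * y ^ 4 * (((gcd3 x : ℝ) ^ 6) /
      |((jj x ^ 2 * dd x : ℤ) : ℝ)|) ^ ((1 : ℝ) / 3)) := by
  classical
  have hy0 : 0 < y := by linarith
  have hK0 : 0 < K := by linarith
  rcases S.eq_empty_or_nonempty with rfl | ⟨b0, hb0⟩
  · simp only [Finset.card_empty, Nat.cast_zero]
    positivity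
  have h0 := (Finset.mem_filter.1 (hP b0 hb0)).2.1
  have hH0 : (0 : ℝ) ≤ T := by exact_mod_cast (abs_nonneg _).trans (Core.mem_box.1 hx).1
  set P : ℤ := jj x ^ 2 * dd x with hPdef
  have hP0 : P ≠ 0 := mul_ne_zero (pow_ne_zero _ (right_ne_zero_of_mul h0)) (left_ne_zero_of_mul h0)
  have hd' : cB x.1 x.2.1 x.2.2 ^ 2 - 4 * cA x.1 x.2.1 x.2.2 * cC x.1 x.2.1 x.2.2 = P := by
    simp only [hPdef, cA, cB, cC, jj, dd]; ring
  obtain ⟨g, a, b, c, hg, ha, hb, hc, hprim⟩ := Core.prim (cA x.1 x.2.1 x.2.2) (cB x.1 x.2.1 x.2.2)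
    (cC x.1 x.2.1 x.2.2) (by rw [hd']; exact hP0)
  set D : ℤ := b ^ 2 - 4 * a * c with hD
  have hgD : g ^ 2 * D = P := by rw [← hd', ha, hb, hc, hD]; ring
  have hD0 : D ≠ 0 := by
    intro h
    rw [h, mul_zero] at hgD
    exact hP0 hgD.symm
  have key := hcon a b c g hg.ne' hD0 hprim (y ^ 3) (5 * K ^ 2 * y ^ 6)
    (by positivity) (by positivity) S hS (fun z hz => by
      obtain ⟨l1, l2⟩ := hY z hz
      refine ⟨l1, l2, ?_⟩
      obtain ⟨w, -, hw⟩ := (Finset.mem_filter.1 (hP z hz)).2.2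
      refine ⟨w, abs_le_of_sq_le_sq ?_ (by positivity), ?_⟩
      · have e1 := QN_le hx (le_max_left |z.1| |z.2|) (le_max_right |z.1| |z.2|)
        rw [hw] at e1
        have e2 : (w : ℝ) ^ 2 ≤ 19 * (T : ℝ) ^ 3 * (max |(z.1 : ℝ)| |(z.2 : ℝ)|) ^ 2 := by
          exact_mod_cast e1
        have e3 : 19 * (T : ℝ) ^ 3 * (max |(z.1 : ℝ)| |(z.2 : ℝ)|) ^ 2
            ≤ 19 * (K * y ^ 2) ^ 3 * (y ^ 3) ^ 2 := by
          have := max_le l1 l2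
          gcongr
        have e4 : 0 ≤ K ^ 3 * y ^ 12 := by positivity
        have e5 := mul_le_mul_of_nonneg_left hK e4
        nlinarith
      · have e : QN x z.1 z.2 = cA x.1 x.2.1 x.2.2 * z.1 ^ 2 + cB x.1 x.2.1 x.2.2 * z.1 * z.2
            + cC x.1 x.2.1 x.2.2 * z.2 ^ 2 := by
          simp only [QN, cA, cB, cC]
        unfold OnC
        rw [e, ha, hb, hc] at hw
        dsimp only
        linear_combination -hw)
  refine key.trans ?_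
  have hgR : (1 : ℝ) ≤ g := by exact_mod_cast hg
  have hDR : 0 < |(D : ℝ)| := abs_pos.2 (by exact_mod_cast hD0)
  have hPR : 0 < |(P : ℝ)| := abs_pos.2 (by exact_mod_cast hP0)
  have hgDR : (g : ℝ) ^ 2 * |(D : ℝ)| = |(P : ℝ)| := by
    have e : (g : ℝ) ^ 2 * (D : ℝ) = (P : ℝ) := by exact_mod_cast hgD
    rw [← e, abs_mul, abs_of_nonneg (sq_nonneg (g : ℝ))]
  have hA : |((g * D : ℤ) : ℝ)| ≤ 45 * K ^ 6 * y ^ 12 := by
    have e1 : |(P : ℝ)| ≤ 45 * (T : ℝ) ^ 6 := by exact_mod_cast disc_le hx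
    have e2 : (T : ℝ) ^ 6 ≤ (K * y ^ 2) ^ 6 := by gcongr
    rw [Int.cast_mul, abs_mul, abs_of_pos (by linarith)]
    have e3 : (g : ℝ) * |(D : ℝ)| ≤ (g : ℝ) ^ 2 * |(D : ℝ)| := by
      gcongr
      nlinarith
    nlinarith
  have hk : (g : ℝ) ≤ 4 * (gcd3 x : ℝ) ^ 3 := by
    have e1 := content_dvd x g ⟨a, ha⟩ ⟨b, hb⟩ ⟨c, hc⟩
    have e2 : 0 < gcd3 x := Nat.pos_of_ne_zero fun h => by
      have hd := SumB.decomp x
      rw [h] at hd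
      apply h0
      rw [hd]
      simp [dd]
    have e3 : g ≤ 4 * (gcd3 x : ℤ) ^ 3 := Int.le_of_dvd (by positivity) e1
    exact_mod_cast e3
  have hB : (y ^ 3) ^ 2 * (5 * K ^ 2 * y ^ 6) / |(D : ℝ)| ≤
      (5 * K * y ^ 4) ^ 3 * ((gcd3 x : ℝ) ^ 6 / |(P : ℝ)|) := by
    rw [← mul_div_assoc, div_le_div_iff₀ hDR hPR]
    have e1 : (g : ℝ) ^ 2 ≤ (4 * (gcd3 x : ℝ) ^ 3) ^ 2 := by gcongr
    have e2 : |(P : ℝ)| ≤ (4 * (gcd3 x : ℝ) ^ 3) ^ 2 * |(D : ℝ)| := by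
      rw [← hgDR]; gcongr
    have e3 : 0 ≤ K ^ 2 * y ^ 12 := by positivity
    have e4 : 0 ≤ K ^ 2 * y ^ 12 * ((gcd3 x : ℝ) ^ 6 * |(D : ℝ)|) := by positivity
    have e5 := mul_le_mul_of_nonneg_left e2 e3
    have e6 := mul_le_mul_of_nonneg_left hK e4
    nlinarith
  have hB' : ((y ^ 3) ^ 2 * (5 * K ^ 2 * y ^ 6) / |(D : ℝ)|) ^ ((1 : ℝ) / 3) ≤
      5 * K * y ^ 4 * ((gcd3 x : ℝ) ^ 6 / |(P : ℝ)|) ^ ((1 : ℝ) / 3) := by
    refine (Real.rpow_le_rpow (by positivity) hB (by norm_num)).trans (le_of_eq ?_)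
    rw [Real.mul_rpow (by positivity) (by positivity), one_div,
      show (3 : ℝ)⁻¹ = ((3 : ℕ) : ℝ)⁻¹ by norm_num,
      Real.pow_rpow_inv_natCast (by positivity) (by norm_num)]
  gcongr

end NonAux

theorem non_sum (C₀ : ℝ) {ε : ℝ} (hε : 0 < ε) : ∃ C : ℝ, 0 < C ∧ ∀ X : ℝ, 1 ≤ X → ∀ T : ℤ, 1 ≤ T →
    (T : ℝ) ^ 3 ≤ C₀ * X ^ 2 → ∀ S : Finset (ℤ × ℤ), Prs X S →
      ∑ x ∈ S, ((Non T x.1 x.2).card : ℝ) ≤ C * X ^ (2 + ε) := by
  classical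
  obtain ⟨C1, hC1, hcon⟩ := H32.conic_bound (ε := ε / 8) (by positivity)
  obtain ⟨C2, hC2, hsum⟩ := NonAux.sum_disc (ε := ε / 2) (by positivity)
  obtain ⟨K, hK, hK0⟩ : ∃ K : ℝ, 1 ≤ K ∧ C₀ ≤ K := ⟨max 1 C₀, le_max_left _ _, le_max_right _ _⟩
  have hKp : 0 < K := by linarith
  refine ⟨2 * C1 * (45 * K ^ 6) ^ (ε / 8) * (27 * K ^ 3 + 5 * K * C2 * (K * K ^ (ε / 2))),
    by positivity, fun Y hY T hT1 hT S hS => ?_⟩
  have hY0 : 0 < Y := by linarith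
  set y : ℝ := Y ^ ((3 : ℕ) : ℝ)⁻¹ with hydef
  have hy3 : y ^ 3 = Y := Real.rpow_inv_natCast_pow hY0.le (by norm_num)
  have hy : 1 ≤ y := Real.one_le_rpow hY (by positivity)
  have hy0 : 0 < y := by linarith
  have hTR : (1 : ℝ) ≤ T := by exact_mod_cast hT1
  have hH2 : (T : ℝ) ≤ K * y ^ 2 := by
    refine le_of_pow_le_pow_left₀ (n := 3) (by norm_num) (by positivity) (hT.trans ?_)
    have e : (K * y ^ 2) ^ 3 = K ^ 3 * Y ^ 2 := by rw [← hy3]; ring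
    rw [e]
    have : K ≤ K ^ 3 := le_self_pow₀ hK (by norm_num)
    gcongr
    linarith
  have hcard : ∀ b ∈ S, ((Non T b.1 b.2).card : ℝ) =
      ∑ x ∈ H32.box T, if x ∈ Non T b.1 b.2 then (1 : ℝ) else 0 := by
    intro b _
    have : Non T b.1 b.2 = (H32.box T).filter (· ∈ Non T b.1 b.2) := by
      ext x
      rw [Finset.mem_filter]
      exact ⟨fun h => ⟨(Finset.mem_filter.1 h).1, h⟩, fun h => h.2⟩
    conv_lhs => rw [this, Finset.card_filter]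
    push_cast
    rfl
  rw [Finset.sum_congr rfl hcard, Finset.sum_comm]
  have hfib : ∀ x ∈ H32.box T, (∑ b ∈ S, if x ∈ Non T b.1 b.2 then (1 : ℝ) else 0) ≤
      2 * C1 * (45 * K ^ 6 * y ^ 12) ^ (ε / 8) * (1 + 5 * K * y ^ 4 * (((H32.gcd3 x : ℝ) ^ 6) /
      |((jj x ^ 2 * dd x : ℤ) : ℝ)|) ^ ((1 : ℝ) / 3)) := by
    intro x hx
    obtain ⟨A, hA, p4⟩ : ∃ A : Finset (ℤ × ℤ), (∀ b ∈ A, b ∈ S ∧ x ∈ Non T b.1 b.2) ∧
        (A.card : ℝ) = ∑ b ∈ S, if x ∈ Non T b.1 b.2 then (1 : ℝ) else 0 := by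
      refine ⟨S.filter fun b => x ∈ Non T b.1 b.2, fun b hb => Finset.mem_filter.1 hb, ?_⟩
      rw [Finset.card_filter]
      push_cast
      rfl
    have hone := fun (S' : Finset (ℤ × ℤ)) (h1 : S' ⊆ A)
        (h2 : ∀ u ∈ S', ∀ v ∈ S', 0 < u.2 * v.2) =>
      NonAux.one (η := ε / 8) (by positivity) hC1 hcon hy hK hH2 hx S'
        (NonAux.np_of_sign S' (fun u hu => (hS u (hA u (h1 hu)).1).1) h2)
        (fun b h => by rw [hy3]; exact (hS b (hA b (h1 h)).1).2.2)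
        (fun b h => (hA b (h1 h)).2)
    have p1 := hone (A.filter fun b => 0 < b.2) (Finset.filter_subset _ _)
      fun u hu v hv => mul_pos (Finset.mem_filter.1 hu).2 (Finset.mem_filter.1 hv).2
    have hneg : ∀ u ∈ A.filter fun b => ¬ 0 < b.2, u.2 < 0 := by
      intro u hu
      obtain ⟨h1, h2⟩ := Finset.mem_filter.1 hu
      have h3 := (hS u (hA u h1).1).2.1
      have h4 : u.2 ≠ 0 := left_ne_zero_of_mul h3
      omega
    have p2 := hone (A.filter fun b => ¬ 0 < b.2) (Finset.filter_subset _ _)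
      fun u hu v hv => mul_pos_of_neg_of_neg (hneg u hu) (hneg v hv)
    have p3 : ((A.filter fun b => 0 < b.2).card : ℝ) + ((A.filter fun b => ¬ 0 < b.2).card : ℝ)
        = (A.card : ℝ) := by
      exact_mod_cast Finset.card_filter_add_card_filter_not _
    linarith
  refine (Finset.sum_le_sum hfib).trans ?_
  rw [← Finset.mul_sum, Finset.sum_add_distrib, ← Finset.mul_sum, Finset.sum_const, nsmul_eq_mul,
    mul_one, H32.Core.card_box (by omega)]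
  have e1 : (2 * (T : ℝ) + 1) ^ 3 ≤ 27 * K ^ 3 * Y ^ 2 := by
    have e : 27 * K ^ 3 * Y ^ 2 = (3 * (K * y ^ 2)) ^ 3 := by rw [← hy3]; ring
    rw [e]
    gcongr
    linarith
  have e2 := hsum T hT1
  have e3 : (T : ℝ) ^ (1 + ε / 2) ≤ K * y ^ 2 * (K ^ (ε / 2) * Y ^ (ε / 2)) := by
    rw [Real.rpow_add (by linarith), Real.rpow_one, ← Real.mul_rpow hKp.le hY0.le]
    have : K * y ^ 2 ≤ K * Y := by
      rw [← hy3]
      gcongr
      norm_num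
    gcongr
    linarith
  have e4 : (45 * K ^ 6 * y ^ 12 : ℝ) ^ (ε / 8) = (45 * K ^ 6) ^ (ε / 8) * Y ^ (ε / 2) := by
    have : y ^ 12 = Y ^ ((4 : ℕ) : ℝ) := by
      rw [Real.rpow_natCast, ← hy3]; ring
    rw [Real.mul_rpow (by positivity) (by positivity), this, ← Real.rpow_mul hY0.le]
    congr 2
    push_cast
    ring
  have e5 : Y ^ (2 + ε) = Y ^ 2 * Y ^ (ε / 2) * Y ^ (ε / 2) := by
    rw [Real.rpow_add hY0, Real.rpow_two, mul_assoc, ← Real.rpow_add hY0]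
    congr 2
    ring
  have e6 : 1 ≤ Y ^ (ε / 2) := Real.one_le_rpow hY (by positivity)
  have e7 : (2 * (T : ℝ) + 1) ^ 3 + 5 * K * y ^ 4 * ∑ x ∈ H32.box T, (((H32.gcd3 x : ℝ) ^ 6) /
      |((jj x ^ 2 * dd x : ℤ) : ℝ)|) ^ ((1 : ℝ) / 3) ≤
      (27 * K ^ 3 + 5 * K * C2 * (K * K ^ (ε / 2))) * (Y ^ 2 * Y ^ (ε / 2)) := by
    have f1 : 27 * K ^ 3 * Y ^ 2 ≤ 27 * K ^ 3 * (Y ^ 2 * Y ^ (ε / 2)) := by
      gcongr
      exact le_mul_of_one_le_right (by positivity) e6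
    have f2 := e2.trans (mul_le_mul_of_nonneg_left e3 hC2.le)
    have f3 := mul_le_mul_of_nonneg_left f2 (show 0 ≤ 5 * K * y ^ 4 by positivity)
    have f4 : 5 * K * y ^ 4 * (C2 * (K * y ^ 2 * (K ^ (ε / 2) * Y ^ (ε / 2)))) =
        5 * K * C2 * (K * K ^ (ε / 2)) * (Y ^ 2 * Y ^ (ε / 2)) := by
      have : Y ^ 2 = y ^ 6 := by rw [← hy3]; ring
      rw [this]
      ring
    linarith
  rw [e4, e5]
  calc 2 * C1 * ((45 * K ^ 6) ^ (ε / 8) * Y ^ (ε / 2)) * _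
      ≤ 2 * C1 * ((45 * K ^ 6) ^ (ε / 8) * Y ^ (ε / 2)) *
        ((27 * K ^ 3 + 5 * K * C2 * (K * K ^ (ε / 2))) * (Y ^ 2 * Y ^ (ε / 2))) := by gcongr
    _ = _ := by ring

end Pool.Agent.Lib.MP_af4c59_nt.K9
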