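import Pool.Agent.Lib.MP_af4c59_nt.K9Defs
import Pool.Agent.Lib.MP_af4c59_nt.H32Tor

/-!
Tameness and the parity of the common divisor (part B2).
-/

set_option autoImplicit false

namespace Pool.Agent.Lib.MP_af4c59_nt.K9

open NumberField Module IsDedekindDomain

namespace QuadAAux

/-- The trace of a nonzero idempotent is its rank. -/
theorem tame_idem {k R : Type} [Field k] [CommRing R] [Algebra k R] [Module.Finite k R] {x : R}
    (hx : x * x = x) (h0 : x ≠ 0) :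
    ∃ n : ℕ, 1 ≤ n ∧ n ≤ Module.finrank k R ∧ Algebra.trace k R x = n := by
  have hp : LinearMap.IsProj (LinearMap.range (Algebra.lmul k R x)) (Algebra.lmul k R x) := by
    refine ⟨fun y => ⟨y, rfl⟩, ?_⟩
    rintro _ ⟨y, rfl⟩
    change x * (x * y) = x * y
    rw [← mul_assoc, hx]
  refine ⟨Module.finrank k (LinearMap.range (Algebra.lmul k R x)), ?_, Submodule.finrank_le _, ?_⟩
  · rw [Submodule.one_le_finrank_iff]
    intro h
    have h1 : x ∈ LinearMap.range (Algebra.lmul k R x) := ⟨1, mul_one x⟩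
    rw [h] at h1
    exact h0 h1
  · rw [Algebra.trace_apply]
    exact hp.trace

set_option linter.deprecated false in
theorem tame_not_dvd (L : Type) [Field L] [NumberField L] (h3 : Module.finrank ℚ L = 3) {p : ℕ}
    (hp : p.Prime) (h5 : 5 ≤ p) (J Q : Ideal (𝓞 L)) (hJ : J ≠ ⊤) (hc : J ⊔ Q = ⊤)
    (hm : J * Q = Ideal.map (algebraMap ℤ (𝓞 L)) (Ideal.span {(p : ℤ)})) :
    ¬ J ∣ differentIdeal ℤ (𝓞 L) := by
  have hpp : Prime (p : ℤ) := Nat.prime_iff_prime_int.1 hp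
  have hmax : (Ideal.span {(p : ℤ)}).IsMaximal :=
    ((Ideal.span_singleton_prime hpp.ne_zero).2 hpp).isMaximal (by simpa using hp.ne_zero)
  obtain ⟨a, ha, x, hx, hax⟩ := Submodule.mem_sup.1 ((Ideal.eq_top_iff_one _).1 hc)
  refine not_dvd_differentIdeal_of_intTrace_not_mem ℤ J Q hm x hx ?_
  rw [← Ideal.Quotient.eq_zero_iff_mem, ← Algebra.trace_quotient_eq_of_isDedekindDomain]
  let := Ideal.Quotient.field (Ideal.span {(p : ℤ)})
  have hfin : Module.Finite (ℤ ⧸ Ideal.span {(p : ℤ)})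
      (𝓞 L ⧸ Ideal.map (algebraMap ℤ (𝓞 L)) (Ideal.span {(p : ℤ)})) :=
    Module.Finite.of_restrictScalars_finite ℤ _ _
  have h1 : Ideal.Quotient.mk (Ideal.map (algebraMap ℤ (𝓞 L)) (Ideal.span {(p : ℤ)})) x *
      Ideal.Quotient.mk _ x = Ideal.Quotient.mk _ x := by
    rw [← map_mul, Ideal.Quotient.eq, ← hm]
    have : x * x - x = -(a * x) := by linear_combination x * hax
    rw [this]
    exact neg_mem (Ideal.mul_mem_mul ha hx)
  have h2 : Ideal.Quotient.mk (Ideal.map (algebraMap ℤ (𝓞 L)) (Ideal.span {(p : ℤ)})) x ≠ 0 := by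
    rw [Ne, Ideal.Quotient.eq_zero_iff_mem, ← hm]
    intro h
    apply hJ
    rw [Ideal.eq_top_iff_one, ← hax]
    have h' : J * Q ≤ J := Ideal.mul_le_left
    exact add_mem ha (h' h)
  obtain ⟨n, hn1, hn2, hn⟩ := tame_idem (k := ℤ ⧸ Ideal.span {(p : ℤ)}) h1 h2
  rw [Ideal.finrank_quotient_map (Ideal.span {(p : ℤ)}) ℚ L, h3] at hn2
  intro h
  have h3' : ((n : ℤ) : ℤ ⧸ Ideal.span {(p : ℤ)}) = 0 := by
    rw [Int.cast_natCast, ← hn]
    exact h
  have h4 : (n : ℤ) ∈ Ideal.span {(p : ℤ)} := Ideal.Quotient.eq_zero_iff_mem.1 h3'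
  rw [Ideal.mem_span_singleton, Int.natCast_dvd_natCast] at h4
  have := Nat.le_of_dvd hn1 h4
  omega

theorem map_span (L : Type) [Field L] [NumberField L] (p : ℕ) :
    Ideal.map (algebraMap ℤ (𝓞 L)) (Ideal.span {(p : ℤ)}) = Ideal.span {(p : 𝓞 L)} := by
  rw [Ideal.map_span, Set.image_singleton, map_natCast]

/-- An integer in a proper ideal that contains the prime `p` is divisible by `p`. -/
theorem dvd_of_mem {R : Type} [CommRing R] {P : Ideal R} (hP : P ≠ ⊤) {p : ℕ} (hp : p.Prime)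
    (hpP : (p : R) ∈ P) {m : ℤ} (hm : (m : R) ∈ P) : (p : ℤ) ∣ m := by
  by_contra h
  have hpp : Prime (p : ℤ) := Nat.prime_iff_prime_int.1 hp
  obtain ⟨a, b, hab⟩ := (hpp.irreducible.coprime_iff_not_dvd).2 h
  apply hP
  rw [Ideal.eq_top_iff_one]
  have h1 : (1 : R) = (a : R) * (p : R) + (b : R) * (m : R) := by
    have := congrArg (fun t : ℤ => (t : R)) hab
    simpa using this.symm
  rw [h1]
  exact add_mem (P.mul_mem_left _ hpP) (P.mul_mem_left _ hm)

theorem mult_zero {R : Type} [CommRing R] [IsDedekindDomain R] (P : HeightOneSpectrum R) {a : R}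
    (ha : a ∉ P.asIdeal) : multiplicity P.asIdeal (Ideal.span {a}) = 0 := by
  rw [multiplicity_eq_zero, Ideal.dvd_span_singleton]
  exact ha

theorem mult_cube {R : Type} [CommRing R] [IsDedekindDomain R] (P : HeightOneSpectrum R) {a : R}
    (ha : a ≠ 0) : multiplicity P.asIdeal (Ideal.span {a ^ 3}) =
      3 * multiplicity P.asIdeal (Ideal.span {a}) := by
  have h : a ^ 3 = a * (a * a) := by ring
  rw [h, H32.Tor.mult_mul P ha (mul_ne_zero ha ha), H32.Tor.mult_mul P ha ha]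
  ring

/-- If the cube of a prime above `p` divides `p`, then `p ^ 2` divides the discriminant. -/
theorem sq_dvd_discr (K : Type) [Field K] [NumberField K] {p : ℕ} (hp : p.Prime)
    (P : Ideal (𝓞 K)) (hP : P.IsMaximal) (hpP : (p : 𝓞 K) ∈ P)
    (h3 : P ^ 3 ∣ Ideal.span {(p : 𝓞 K)}) : (p : ℤ) ^ 2 ∣ discr K := by
  have hpp : Prime (p : ℤ) := Nat.prime_iff_prime_int.1 hp
  have hmax : (Ideal.span {(p : ℤ)}).IsMaximal :=
    ((Ideal.span_singleton_prime hpp.ne_zero).2 hpp).isMaximal (by simpa using hp.ne_zero)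
  have h0 : Ideal.span {(p : ℤ)} ≠ ⊥ := by simpa using hp.ne_zero
  have h2 : P ^ (3 - 1) ∣ differentIdeal ℤ (𝓞 K) :=
    pow_sub_one_dvd_differentIdeal ℤ P 3 h0 (by rw [map_span]; exact h3)
  have h4 := map_dvd Ideal.absNorm h2
  rw [absNorm_differentIdeal K, map_pow] at h4
  have h5 : p ∣ Ideal.absNorm P := by
    have h6 : ((Ideal.absNorm P : ℤ) : 𝓞 K) ∈ P := by
      simpa using Ideal.absNorm_mem P
    exact_mod_cast dvd_of_mem hP.ne_top hp hpP h6
  have h7 : p ^ 2 ∣ (discr K).natAbs := (pow_dvd_pow_of_dvd h5 2).trans h4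
  rw [← Int.dvd_natAbs]
  exact_mod_cast h7

end QuadAAux

open QuadAAux in
theorem not_cube_dvd (K : Type) [Field K] [NumberField K] (hK : finrank ℚ K = 3) {p : ℕ}
    (hp : p.Prime) (h5 : 5 ≤ p) : ¬ (p : ℤ) ^ 3 ∣ discr K := by
  intro hd
  have hmap := map_span K p
  have hp0 : Ideal.span {(p : 𝓞 K)} ≠ ⊥ := by
    rw [Ne, Ideal.span_singleton_eq_bot]
    exact_mod_cast hp.ne_zero
  obtain ⟨D, Q, H, hrel, hD, hQ⟩ := UniqueFactorizationMonoid.exists_reduced_factors'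
    (differentIdeal ℤ (𝓞 K)) (Ideal.span {(p : 𝓞 K)}) hp0
  have hN : Ideal.absNorm (Ideal.span {(p : 𝓞 K)}) = p ^ 3 := by
    rw [Ideal.absNorm_span_natCast, RingOfIntegers.rank, hK]
  have hHQ : Ideal.absNorm H * Ideal.absNorm Q = p ^ 3 := by
    rw [← map_mul, hQ, hN]
  have hd' : p ^ 3 ∣ Ideal.absNorm H * Ideal.absNorm D := by
    rw [← map_mul, hD, absNorm_differentIdeal K, ← Int.natCast_dvd_natCast, Int.dvd_natAbs]
    exact_mod_cast hd
  have hpD : ¬ p ∣ Ideal.absNorm D := by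
    intro hpD
    obtain ⟨P, hP, hPp, hPD⟩ := Ideal.exists_isMaximal_dvd_of_dvd_absNorm' hp D hpD
    have hpP : (p : 𝓞 K) ∈ P := by
      have : (p : ℤ) ∈ P.under ℤ := by rw [hPp]; exact Ideal.mem_span_singleton_self _
      simpa [Ideal.under, Ideal.mem_comap] using this
    obtain ⟨Q', hc, hm⟩ := Ideal.eq_prime_pow_mul_coprime hp0 P
    generalize Multiset.count P _ = e at hm
    have he : e ≠ 0 := by
      rintro rfl
      rw [pow_zero, one_mul] at hm
      apply hP.ne_top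
      rw [← hc, ← hm]
      exact (sup_eq_left.2 ((Ideal.span_singleton_le_iff_mem _).2 hpP)).symm
    have hP0 : P ≠ ⊥ := by
      rintro rfl
      exact hp.ne_zero (by exact_mod_cast (Ideal.mem_bot.1 hpP))
    have hprime : Prime P := Ideal.prime_of_isPrime hP0 hP.isPrime
    have hPQ : ¬ P ∣ Q := fun h => hprime.not_isUnit (hrel hPD h)
    have h1 : P ^ e ∣ H := by
      refine hprime.pow_dvd_of_dvd_mul_right e hPQ ?_
      rw [hQ, hm]
      exact dvd_mul_right _ _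
    refine tame_not_dvd K hK hp h5 (P ^ e) Q' ?_ (Ideal.pow_sup_eq_top hc) (by rw [hmap, ← hm]) ?_
    · intro h
      exact hP.ne_top (top_le_iff.1 (h ▸ Ideal.pow_le_self he))
    · rw [← hD]
      exact h1.mul_right _
  have hH : p ^ 3 ∣ Ideal.absNorm H :=
    (Nat.Coprime.pow_left 3 ((Nat.Prime.coprime_iff_not_dvd hp).2 hpD)).dvd_of_dvd_mul_right hd'
  have hQ1 : Ideal.absNorm Q = 1 := by
    obtain ⟨c, hc⟩ := hH
    rw [hc, mul_assoc] at hHQ
    have h1 : c * Ideal.absNorm Q = 1 :=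
      Nat.eq_of_mul_eq_mul_left (pow_pos hp.pos 3) (by rw [hHQ, mul_one])
    exact Nat.eq_one_of_mul_eq_one_left h1
  rw [Ideal.absNorm_eq_one_iff] at hQ1
  rw [hQ1, Ideal.mul_top] at hQ
  refine tame_not_dvd K hK hp h5 H ⊤ ?_ (by simp) (by rw [hmap, ← hQ, Ideal.mul_top]) ?_
  · intro h
    rw [← hQ, h, Ideal.absNorm_top] at hN
    have : 1 < p ^ 3 := Nat.one_lt_pow (by norm_num) hp.one_lt
    omega
  · rw [← hD]
    exact dvd_mul_right _ _

open QuadAAux in
theorem quad_even (K : Type) [Field K] [NumberField K] (hK : finrank ℚ K = 3) (δ : 𝓞 K)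
    (I : Ideal (𝓞 K)) (hδ : I ^ 3 = Ideal.span {δ}) {s n x y e v : ℤ} {α z : K}
    (hα : α = (discr K : K) * δ * z ^ 3) (hN : Algebra.norm ℚ α = (n : ℚ) ^ 3) (hn : n ≠ 0)
    (heq : (y : K) * α ^ 3 - s * y * α ^ 2 + x * α - n ^ 3 * y = 0) (hxy : IsCoprime x y)
    (he : e * y = discr K) (hv : v ≠ 0) (hsq : e * Gf s n x y = v ^ 2) {p : ℕ} (hp : p.Prime)
    (hpn : ¬ (p : ℤ) ∣ 6 * n) : Even (e.natAbs.factorization p) := by
  by_contra hodd
  have hpp : Prime (p : ℤ) := Nat.prime_iff_prime_int.1 hp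
  have hΔ : discr K ≠ 0 := discr_ne_zero K
  have he0 : e ≠ 0 := fun h => hΔ (by rw [← he, h, zero_mul])
  have hy0 : y ≠ 0 := fun h => hΔ (by rw [← he, h, mul_zero])
  have hG0 : Gf s n x y ≠ 0 := fun h => pow_ne_zero 2 hv (by rw [← hsq, h, mul_zero])
  have hp6 : ¬ (p : ℤ) ∣ 6 := fun h => hpn (h.mul_right _)
  have hpn' : ¬ (p : ℤ) ∣ n := fun h => hpn (h.mul_left _)
  have h5 : 5 ≤ p := by
    by_contra h
    have h2 := hp.two_le
    have h4 : p < 5 := not_le.1 h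
    interval_cases p
    · exact hp6 (by norm_num)
    · exact hp6 (by norm_num)
    · exact absurd hp (by norm_num)
  have hpG : (p : ℤ) ∣ Gf s n x y := by
    by_contra h
    have h1 : (Gf s n x y).natAbs.factorization p = 0 :=
      Nat.factorization_eq_zero_of_not_dvd (fun h' => h (Int.natCast_dvd.2 h'))
    have h2 := congrArg (fun t : ℤ => t.natAbs.factorization p) hsq
    simp only [Int.natAbs_mul, Int.natAbs_pow] at h2
    rw [Nat.factorization_mul (Int.natAbs_ne_zero.2 he0) (Int.natAbs_ne_zero.2 hG0),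
      Nat.factorization_pow] at h2
    simp only [Finsupp.add_apply, Finsupp.smul_apply, smul_eq_mul, h1, add_zero] at h2
    exact hodd ⟨v.natAbs.factorization p, by omega⟩
  have hpy : ¬ (p : ℤ) ∣ y := by
    intro h
    have h1 : (p : ℤ) ∣ 4 * x ^ 3 := by
      have h2 : 4 * x ^ 3 = y * (s ^ 2 * x ^ 2 + 18 * s * n ^ 3 * x * y -
          (4 * s ^ 3 * n ^ 3 + 27 * n ^ 6) * y ^ 2) - Gf s n x y := by
        unfold Gf; ring
      rw [h2]
      exact dvd_sub (h.mul_right _) hpG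
    rcases hpp.dvd_or_dvd h1 with h2 | h2
    · have h3 : (p : ℤ) ∣ 2 := hpp.dvd_of_dvd_pow (n := 2) (by simpa using h2)
      exact hp6 (h3.trans (by norm_num))
    · exact hpp.not_isUnit (hxy.isUnit_of_dvd' (hpp.dvd_of_dvd_pow h2) h)
  -- the exponent of `p` in `e` is one
  have hk3 : ¬ p ^ 3 ∣ e.natAbs := by
    intro h
    apply not_cube_dvd K hK hp h5
    rw [← he]
    refine Dvd.dvd.mul_right ?_ _
    rw [← Int.dvd_natAbs]
    exact_mod_cast h
  rw [hp.pow_dvd_iff_le_factorization (Int.natAbs_ne_zero.2 he0)] at hk3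
  have hk1 : e.natAbs.factorization p = 1 := by
    rcases Nat.even_or_odd (e.natAbs.factorization p) with h | ⟨k, hk⟩
    · exact absurd h hodd
    · omega
  have hpe : (p : ℤ) ∣ e := by
    rw [← Int.dvd_natAbs, Int.natCast_dvd_natCast, ← pow_one p,
      hp.pow_dvd_iff_le_factorization (Int.natAbs_ne_zero.2 he0), hk1]
  have hpe2 : ¬ (p : ℤ) ^ 2 ∣ discr K := by
    intro h
    rw [← he] at h
    have h1 : (p : ℤ) ^ 2 ∣ e := hpp.pow_dvd_of_dvd_mul_right 2 hpy h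
    have h2 : p ^ 2 ∣ e.natAbs := by
      rw [← Int.natCast_dvd_natCast, Int.dvd_natAbs]
      exact_mod_cast h1
    rw [hp.pow_dvd_iff_le_factorization (Int.natAbs_ne_zero.2 he0)] at h2
    omega
  obtain ⟨u, hu⟩ : (p : ℤ) ∣ discr K := he ▸ hpe.mul_right y
  have hpu : ¬ (p : ℤ) ∣ u := by
    intro h
    apply hpe2
    rw [hu, pow_two]
    exact mul_dvd_mul_left _ h
  -- a prime above `p`
  have hp0 : (p : 𝓞 K) ≠ 0 := by exact_mod_cast hp.ne_zero
  obtain ⟨P0, hP0, hPp, -⟩ := Ideal.exists_isMaximal_dvd_of_dvd_absNorm' hp (⊥ : Ideal (𝓞 K))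
    (by simp)
  have hpP : (p : 𝓞 K) ∈ P0 := by
    have : (p : ℤ) ∈ P0.under ℤ := by rw [hPp]; exact Ideal.mem_span_singleton_self _
    simpa [Ideal.under, Ideal.mem_comap] using this
  have hPb : P0 ≠ ⊥ := by
    rintro rfl
    exact hp0 (Ideal.mem_bot.1 hpP)
  let P : HeightOneSpectrum (𝓞 K) := ⟨P0, hP0.isPrime, hPb⟩
  have hnm : ∀ m : ℤ, ¬ (p : ℤ) ∣ m → (m : 𝓞 K) ∉ P.asIdeal := fun m hm h =>
    hm (dvd_of_mem hP0.ne_top hp hpP h)
  -- the integral element `y α`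
  have hβeq : ((y : K) * α) ^ 3 - (s * y : K) * ((y : K) * α) ^ 2 + (x * y : K) * ((y : K) * α) -
      (n : K) ^ 3 * (y : K) ^ 3 = 0 := by
    linear_combination (y : K) ^ 2 * heq
  have hint : IsIntegral ℤ ((y : K) * α) := by
    refine ⟨Polynomial.X ^ 3 - Polynomial.C (s * y) * Polynomial.X ^ 2 +
      Polynomial.C (x * y) * Polynomial.X - Polynomial.C (n ^ 3 * y ^ 3), ?_, ?_⟩
    · monicity!
    · simp only [Polynomial.eval₂_sub, Polynomial.eval₂_add, Polynomial.eval₂_mul,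
        Polynomial.eval₂_pow, Polynomial.eval₂_X, Polynomial.eval₂_C]
      simpa using hβeq
  let β : 𝓞 K := ⟨(y : K) * α, hint⟩
  have hβ : algebraMap (𝓞 K) K β = (y : K) * α := rfl
  have hβO : β * (β ^ 2 - ((s * y : ℤ) : 𝓞 K) * β + ((x * y : ℤ) : 𝓞 K)) =
      (((n * y) ^ 3 : ℤ) : 𝓞 K) := by
    apply FaithfulSMul.algebraMap_injective (𝓞 K) K
    simp only [map_mul, map_add, map_sub, map_pow, map_intCast, hβ]
    push_cast
    linear_combination hβeq
  have hβP : β ∉ P.asIdeal := by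
    intro h
    have h1 : (((n * y) ^ 3 : ℤ) : 𝓞 K) ∈ P.asIdeal := hβO ▸ P.asIdeal.mul_mem_right _ h
    refine hnm _ (fun h2 => ?_) h1
    rcases hpp.dvd_or_dvd (hpp.dvd_of_dvd_pow h2) with h3 | h3
    · exact hpn' h3
    · exact hpy h3
  have hβ0 : β ≠ 0 := fun h => hβP (h ▸ P.asIdeal.zero_mem)
  obtain ⟨a, b, hb, hab⟩ := IsFractionRing.div_surjective (A := 𝓞 K) z
  have hb0 : b ≠ 0 := nonZeroDivisors.ne_zero hb
  have hbK : algebraMap (𝓞 K) K b ≠ 0 := by simpa using hb0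
  have hkey : β * b ^ 3 = (((y * u : ℤ) : 𝓞 K) * (p : 𝓞 K)) * (δ * a ^ 3) := by
    apply FaithfulSMul.algebraMap_injective (𝓞 K) K
    have h1 : z * algebraMap (𝓞 K) K b = algebraMap (𝓞 K) K a := by
      rw [← hab]
      exact div_mul_cancel₀ _ hbK
    have h2 : (discr K : K) = (p : K) * (u : K) := by rw [hu]; push_cast; ring
    have h3 : α = (discr K : K) * algebraMap (𝓞 K) K δ * z ^ 3 := hα
    simp only [map_mul, map_pow, map_intCast, map_natCast, hβ]
    push_cast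
    rw [h3, h2, ← h1]
    ring
  have hl0 : β * b ^ 3 ≠ 0 := mul_ne_zero hβ0 (pow_ne_zero _ hb0)
  have hr0 := hkey ▸ hl0
  have hδa : δ * a ^ 3 ≠ 0 := right_ne_zero_of_mul hr0
  have hδ0 : δ ≠ 0 := left_ne_zero_of_mul hδa
  have ha0 : a ≠ 0 := fun h => hδa (by rw [h]; simp)
  have hyu : ((y * u : ℤ) : 𝓞 K) ∉ P.asIdeal := hnm _ fun h => by
    rcases hpp.dvd_or_dvd h with h3 | h3
    · exact hpy h3
    · exact hpu h3
  have hyu0 : ((y * u : ℤ) : 𝓞 K) ≠ 0 := fun h => hyu (h ▸ P.asIdeal.zero_mem)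
  have hI0 : I ≠ 0 := by
    rintro rfl
    rw [zero_pow (by norm_num)] at hδ
    exact hδ0 (Ideal.span_singleton_eq_bot.1 hδ.symm)
  have hmδ : multiplicity P.asIdeal (Ideal.span {δ}) = 3 * multiplicity P.asIdeal I := by
    rw [← hδ]
    exact FiniteMultiplicity.multiplicity_pow P.prime (FiniteMultiplicity.of_prime_left P.prime hI0)
  have hm : multiplicity P.asIdeal (Ideal.span {β * b ^ 3}) = multiplicity P.asIdeal
      (Ideal.span {(((y * u : ℤ) : 𝓞 K) * (p : 𝓞 K)) * (δ * a ^ 3)}) := by rw [hkey]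
  rw [H32.Tor.mult_mul P hβ0 (pow_ne_zero _ hb0), H32.Tor.mult_mul P (mul_ne_zero hyu0 hp0) hδa,
    H32.Tor.mult_mul P hyu0 hp0, H32.Tor.mult_mul P hδ0 (pow_ne_zero _ ha0), mult_cube P hb0,
    mult_cube P ha0, mult_zero P hβP, mult_zero P hyu, hmδ] at hm
  have hm1 : multiplicity P.asIdeal (Ideal.span {(p : 𝓞 K)}) ≠ 0 := by
    rw [multiplicity_ne_zero, Ideal.dvd_span_singleton]
    exact hpP
  have hm3 : 3 ≤ multiplicity P.asIdeal (Ideal.span {(p : 𝓞 K)}) := by omega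
  exact hpe2 (sq_dvd_discr K hp P0 hP0 hpP (pow_dvd_of_le_multiplicity hm3))

end Pool.Agent.Lib.MP_af4c59_nt.K9
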