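import Pool.Agent.Lib.MP_af4c59_nt.K9Defs

/-!
Reducible members of the pencil and quadratic fields (part D1).
-/

set_option autoImplicit false

namespace Pool.Agent.Lib.MP_af4c59_nt.K9

open NumberField Module IsDedekindDomain

namespace RedAAux

open scoped nonZeroDivisors NNReal ENNReal in
/-- Minkowski's theorem for a box adapted to `δ`, all infinite places. -/
theorem mink (K : Type*) [Field K] [NumberField K] (J : Ideal (𝓞 K)) (hJ : J ≠ ⊥) (δ : K)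
    (T : ℝ) (hT : 0 < T)
    (h : (Ideal.absNorm J : ℝ) ^ 2 * |(discr K : ℝ)| <
      T ^ finrank ℚ K * |((Algebra.norm ℚ δ : ℚ) : ℝ)|) :
    ∃ z ∈ J, z ≠ 0 ∧ ∀ w : InfinitePlace K, w (z : K) ^ 2 ≤ T * w δ := by
  classical
  let I : (FractionalIdeal (𝓞 K)⁰ K)ˣ :=
    Units.mk0 (J : FractionalIdeal (𝓞 K)⁰ K) (FractionalIdeal.coeIdeal_ne_zero.2 hJ)
  let f : InfinitePlace K → ℝ≥0 := fun w => ⟨√(T * w δ), Real.sqrt_nonneg _⟩
  have hf : ∀ w, (f w : ℝ) = √(T * w δ) := fun _ => rfl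
  have hw : ∀ w : InfinitePlace K, 0 ≤ T * w δ := fun w => mul_nonneg hT.le (apply_nonneg w δ)
  have hP : (∏ w : InfinitePlace K, (f w : ℝ) ^ w.mult) ^ 2 =
      T ^ finrank ℚ K * |((Algebra.norm ℚ δ : ℚ) : ℝ)| := by
    rw [← Finset.prod_pow]
    have : ∀ w : InfinitePlace K, ((f w : ℝ) ^ w.mult) ^ 2 = T ^ w.mult * w δ ^ w.mult := by
      intro w
      rw [← pow_mul, mul_comm w.mult 2, pow_mul, hf, Real.sq_sqrt (hw w), mul_pow]
    simp only [this, Finset.prod_mul_distrib, Finset.prod_pow_eq_pow_sum,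
      InfinitePlace.sum_mult_eq, InfinitePlace.prod_eq_abs_norm, Rat.cast_abs]
  have hP0 : 0 ≤ ∏ w : InfinitePlace K, (f w : ℝ) ^ w.mult := by positivity
  have h1 : (Ideal.absNorm J : ℝ) * √|(discr K : ℝ)| <
      ∏ w : InfinitePlace K, (f w : ℝ) ^ w.mult := by
    refine lt_of_pow_lt_pow_left₀ 2 hP0 ?_
    rw [hP, mul_pow, Real.sq_sqrt (abs_nonneg _)]
    exact h
  have hlt : mixedEmbedding.minkowskiBound K I <
      MeasureTheory.volume (mixedEmbedding.convexBodyLT K f) := by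
    rw [mixedEmbedding.convexBodyLT_volume,
      ← ENNReal.toReal_lt_toReal (mixedEmbedding.minkowskiBound_lt_top K I).ne
        (ENNReal.mul_ne_top ENNReal.coe_ne_top ENNReal.coe_ne_top)]
    have hI : FractionalIdeal.absNorm I.1 = Ideal.absNorm J := FractionalIdeal.coeIdeal_absNorm J
    simp_rw [mixedEmbedding.minkowskiBound,
      mixedEmbedding.volume_fundamentalDomain_fractionalIdealLatticeBasis,
      mixedEmbedding.volume_fundamentalDomain_latticeBasis, ENNReal.toReal_mul, ENNReal.toReal_pow,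
      ENNReal.toReal_inv, ENNReal.coe_toReal, ENNReal.toReal_ofNat, mixedEmbedding.finrank, hI]
    rw [ENNReal.toReal_ofReal (by positivity), ← InfinitePlace.card_add_two_mul_card_eq_rank]
    simp only [Real.coe_sqrt, coe_nnnorm, Int.norm_eq_abs, NNReal.coe_mul, NNReal.coe_pow,
      NNReal.coe_ofNat, NNReal.coe_real_pi, NNReal.coe_prod, Rat.cast_natCast]
    set r₁ := InfinitePlace.nrRealPlaces K
    set r₂ := InfinitePlace.nrComplexPlaces K
    have h2 : (2 : ℝ) ^ r₂ ≤ Real.pi ^ r₂ := pow_le_pow_left₀ (by norm_num) Real.two_le_pi _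
    have h3 : (Ideal.absNorm J : ℝ) * ((2 : ℝ)⁻¹ ^ r₂ * √|(discr K : ℝ)|) * 2 ^ (r₁ + 2 * r₂) =
        2 ^ r₁ * 2 ^ r₂ * ((Ideal.absNorm J : ℝ) * √|(discr K : ℝ)|) := by
      rw [pow_add, two_mul, pow_add, inv_pow]
      field_simp
    rw [h3]
    calc (2 : ℝ) ^ r₁ * 2 ^ r₂ * ((Ideal.absNorm J : ℝ) * √|(discr K : ℝ)|)
        < 2 ^ r₁ * 2 ^ r₂ * ∏ w : InfinitePlace K, (f w : ℝ) ^ w.mult :=
          mul_lt_mul_of_pos_left h1 (by positivity)
      _ ≤ 2 ^ r₁ * Real.pi ^ r₂ * ∏ w : InfinitePlace K, (f w : ℝ) ^ w.mult := by gcongr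
  obtain ⟨a, ha, ha0, hlt'⟩ := mixedEmbedding.exists_ne_zero_mem_ideal_lt K I hlt
  obtain ⟨z, hz, rfl⟩ := (FractionalIdeal.mem_coeIdeal _).1 ha
  refine ⟨z, hz, fun h0 => ha0 (by simp [h0]), fun w => ?_⟩
  have h4 := (hlt' w).le
  rw [hf] at h4
  have h5 := pow_le_pow_left₀ (apply_nonneg w _) h4 2
  rwa [Real.sq_sqrt (hw w)] at h5

lemma cube_le {A B X : ℝ} (hA : 0 ≤ A) (h1 : A * B ^ 2 ≤ 2 * X)
    (h2 : A ^ 3 ≤ 2 * X + 2 * B ^ 3) (h3 : 2 * B ^ 3 ≤ 2 * X + A ^ 3) :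
    A ^ 3 ≤ 8 * X ∧ B ^ 3 ≤ 8 * X := by
  have hX : 0 ≤ X := by nlinarith [mul_nonneg hA (sq_nonneg B)]
  rcases le_total A B with h | h
  · have h4 : A ^ 3 ≤ A * B ^ 2 := by
      have := mul_le_mul_of_nonneg_left (pow_le_pow_left₀ hA h 2) hA
      nlinarith
    constructor <;> linarith
  · have h4 : B ^ 3 ≤ A * B ^ 2 := by
      have := mul_le_mul_of_nonneg_right h (sq_nonneg B)
      nlinarith
    constructor <;> linarith

/-- a small representative with its trace and the square root of its norm -/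
lemma small (F : Type) [Field F] [NumberField F] (h2 : finrank ℚ F = 2) (N : ℕ)
    (hN : (discr F).natAbs < N ^ 2) (δ : 𝓞 F) (hδ : H32.SelP δ) :
    ∃ (q z : F) (t m : ℤ), q ≠ 0 ∧ (δ : F) * q = z ^ 2 ∧ q ^ 2 - t * q + m ^ 2 = 0 ∧
      t ∈ Finset.Icc (-(2 * N : ℤ)) (2 * N) ∧ m ∈ Finset.Icc (0 : ℤ) N := by
  obtain ⟨h0, ⟨c, hc⟩, -, I, hI⟩ := hδ
  have h0' : (δ : F) ≠ 0 := by simpa using h0
  have hI0 : I ≠ ⊥ := by
    rintro rfl
    rw [← Ideal.zero_eq_bot, zero_pow two_ne_zero, eq_comm, Ideal.zero_eq_bot,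
      Ideal.span_singleton_eq_bot] at hI
    exact h0 hI
  have hN0 : (0 : ℝ) < N := by
    have : 0 < N := Nat.pos_of_ne_zero (by rintro rfl; simp at hN)
    exact_mod_cast this
  have hn : (Ideal.absNorm I : ℝ) ^ 2 = |((Algebra.norm ℚ (δ : F) : ℚ) : ℝ)| := by
    have h1 := congrArg Ideal.absNorm hI
    rw [map_pow, Ideal.absNorm_span_singleton] at h1
    rw [← Algebra.coe_norm_int, Rat.cast_intCast, ← Int.cast_abs, ← Nat.cast_natAbs]
    exact_mod_cast h1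
  have hn0 : (0 : ℝ) < |((Algebra.norm ℚ (δ : F) : ℚ) : ℝ)| := by
    rw [abs_pos, Rat.cast_ne_zero]
    exact Algebra.norm_ne_zero_iff.2 h0'
  obtain ⟨z, hz, hz0, hw⟩ := mink F I hI0 (δ : F) N hN0 (by
    rw [hn, h2, mul_comm]
    refine mul_lt_mul_of_pos_right ?_ hn0
    rw [← Int.cast_abs, ← Nat.cast_natAbs]
    exact_mod_cast hN)
  have hz2 : z ^ 2 ∈ Ideal.span {δ} := hI ▸ Ideal.pow_mem_pow hz 2
  obtain ⟨q, hq⟩ := Ideal.mem_span_singleton.1 hz2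
  have hq' : (δ : F) * (q : F) = (z : F) ^ 2 := by
    exact_mod_cast congrArg (fun x : 𝓞 F => (x : F)) hq.symm
  have hz0' : (z : F) ≠ 0 := by simpa using hz0
  have hq0 : (q : F) ≠ 0 := fun h => by
    rw [h, mul_zero] at hq'
    exact pow_ne_zero 2 hz0' hq'.symm
  have hb : ∀ σ : F →ₐ[ℚ] ℂ, ‖σ (q : F)‖ ≤ N := fun σ => by
    have h1 := hw (InfinitePlace.mk σ.toRingHom)
    rw [← map_pow, ← hq', map_mul, mul_comm] at h1
    exact le_of_mul_le_mul_right h1 (InfinitePlace.pos_iff.2 h0')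
  have hsq : IsSquare (Algebra.norm ℤ q) := by
    rw [← Rat.isSquare_intCast_iff, Algebra.coe_norm_int]
    have h1 := congrArg (Algebra.norm ℚ) hq'
    rw [map_mul, map_pow, hc] at h1
    have hc0 : c ≠ 0 := by
      rintro rfl
      exact Algebra.norm_ne_zero_iff.2 h0' (hc.trans (mul_zero _))
    refine ⟨Algebra.norm ℚ (z : F) / c, ?_⟩
    field_simp
    linear_combination h1
  obtain ⟨m, hm⟩ := hsq
  let e : Fin 2 ≃ (F →ₐ[ℚ] ℂ) := (Fintype.equivFinOfCardEq ((AlgHom.card ℚ F ℂ).trans h2)).symm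
  have ht : ((Algebra.trace ℤ (𝓞 F) q : ℤ) : ℂ) = e 0 (q : F) + e 1 (q : F) := by
    have h1 := trace_eq_sum_embeddings ℂ (K := ℚ) (L := F) (x := (q : F))
    rw [← Algebra.coe_trace_int, ← e.sum_comp, Fin.sum_univ_two] at h1
    simpa using h1
  have hm' : ((|m| : ℤ) : ℂ) ^ 2 = e 0 (q : F) * e 1 (q : F) := by
    have h1 := Algebra.norm_eq_prod_embeddings ℚ ℂ (q : F)
    rw [← Algebra.coe_norm_int, ← e.prod_comp, Fin.prod_univ_two, hm] at h1
    rw [← h1, ← Int.cast_pow, sq_abs, sq]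
    simp
  refine ⟨q, z, Algebra.trace ℤ (𝓞 F) q, |m|, hq0, hq', ?_, ?_, ?_⟩
  · refine (e 0).toRingHom.injective ?_
    simp only [AlgHom.toRingHom_eq_coe, map_add, map_sub, map_mul, map_pow, map_intCast, map_zero,
      RingHom.coe_coe]
    rw [ht, hm']
    ring
  · rw [Finset.mem_Icc, ← abs_le]
    have h1 : ‖((Algebra.trace ℤ (𝓞 F) q : ℤ) : ℂ)‖ ≤ 2 * N := by
      rw [ht]
      exact (norm_add_le _ _).trans (by linarith [hb (e 0), hb (e 1)])
    rw [Complex.norm_intCast] at h1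
    exact_mod_cast h1
  · rw [Finset.mem_Icc]
    refine ⟨abs_nonneg _, ?_⟩
    have h1 : ‖((|m| : ℤ) : ℂ) ^ 2‖ ≤ (N : ℝ) ^ 2 := by
      rw [hm', norm_mul, sq]
      exact mul_le_mul (hb _) (hb _) (norm_nonneg _) hN0.le
    rw [norm_pow, Complex.norm_intCast] at h1
    have h3 := le_of_pow_le_pow_left₀ two_ne_zero hN0.le h1
    rw [Int.cast_abs, abs_abs] at h3
    exact_mod_cast h3

end RedAAux

theorem red_param {s n : ℤ} (hc : IsCoprime s n) (hD : DD s n ≠ 0) (hR : Red s n) {X : ℝ}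
    (hs : |(s : ℝ)| ≤ X) (hn : |(n : ℝ)| ≤ X) :
    ∃ a b k : ℤ, IsCoprime a b ∧ a ≠ 0 ∧ b ≠ 0 ∧ k ∣ 2 ∧ k * s = a ^ 3 + 2 * b ^ 3 ∧
      k * n = a * b ^ 2 ∧ |(a : ℝ)| ^ 3 ≤ 8 * X ∧ |(b : ℝ)| ^ 3 ≤ 8 * X := by
  obtain ⟨r, hr⟩ := hR
  have hn0 : n ≠ 0 := by
    rintro rfl
    exact hD (by simp [DD])
  obtain ⟨a, b, hb0, hab, hrb⟩ : ∃ a b : ℤ, b ≠ 0 ∧ IsCoprime a b ∧ r * b = a :=
    ⟨r.num, r.den, by exact_mod_cast r.den_ne_zero,
      Int.isCoprime_iff_gcd_eq_one.2 (by simpa [Int.gcd] using r.reduced),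
      by simp [Rat.mul_den_eq_num]⟩
  have he : n * (a ^ 3 + 2 * b ^ 3) = s * (a * b ^ 2) := by
    have : (n : ℚ) * ((a : ℚ) ^ 3 + 2 * (b : ℚ) ^ 3) = s * (a * b ^ 2) := by
      rw [← hrb]
      linear_combination (b : ℚ) ^ 3 * hr
    exact_mod_cast this
  have ha0 : a ≠ 0 := by
    rintro rfl
    simp [hn0, hb0] at he
  obtain ⟨k, hk⟩ : n ∣ a * b ^ 2 := hc.symm.dvd_of_dvd_mul_left ⟨_, he.symm⟩
  have hks : k * s = a ^ 3 + 2 * b ^ 3 := by
    refine mul_left_cancel₀ hn0 ?_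
    rw [he, hk]
    ring
  have hkb : IsCoprime k b := by
    have h1 : IsCoprime (a ^ 3 + 2 * b ^ 3) b := by
      have := (hab.pow_left (m := 3)).add_mul_right_left (2 * b ^ 2)
      rwa [show a ^ 3 + 2 * b ^ 2 * b = a ^ 3 + 2 * b ^ 3 by ring] at this
    rw [← hks] at h1
    exact h1.of_mul_left_left
  have hka : k ∣ a := (hkb.pow_right (n := 2)).dvd_of_dvd_mul_right ⟨n, by rw [hk]; ring⟩
  have hk2 : k ∣ 2 := by
    refine (hkb.pow_right (n := 3)).dvd_of_dvd_mul_right ?_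
    have h1 : 2 * b ^ 3 = k * s - a ^ 3 := by rw [hks]; ring
    rw [h1]
    exact dvd_sub (dvd_mul_right _ _) (dvd_pow hka three_ne_zero)
  have hk' : |(k : ℝ)| ≤ 2 := by exact_mod_cast Int.le_of_dvd two_pos ((abs_dvd _ _).2 hk2)
  have hX : 0 ≤ X := (abs_nonneg _).trans hs
  have e1 : |(a : ℝ) * (b : ℝ) ^ 2| ≤ 2 * X := by
    have : (a : ℝ) * (b : ℝ) ^ 2 = k * n := by exact_mod_cast hk.trans (mul_comm _ _)
    rw [this, abs_mul]
    exact mul_le_mul hk' hn (abs_nonneg _) two_pos.le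
  have e2 : |(a : ℝ) ^ 3 + 2 * (b : ℝ) ^ 3| ≤ 2 * X := by
    have : (a : ℝ) ^ 3 + 2 * (b : ℝ) ^ 3 = k * s := by exact_mod_cast hks.symm
    rw [this, abs_mul]
    exact mul_le_mul hk' hs (abs_nonneg _) two_pos.le
  have e3 : |2 * (b : ℝ) ^ 3| = 2 * |(b : ℝ)| ^ 3 := by rw [abs_mul, abs_pow, abs_two]
  have key := RedAAux.cube_le (abs_nonneg (a : ℝ)) (B := |(b : ℝ)|) (X := X)
    (by rwa [abs_mul, abs_pow] at e1)
    (by
      have := abs_sub ((a : ℝ) ^ 3 + 2 * (b : ℝ) ^ 3) (2 * (b : ℝ) ^ 3)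
      rw [add_sub_cancel_right, abs_pow, e3] at this
      linarith)
    (by
      have := abs_sub ((a : ℝ) ^ 3 + 2 * (b : ℝ) ^ 3) ((a : ℝ) ^ 3)
      rw [add_sub_cancel_left, abs_pow, e3] at this
      linarith)
  exact ⟨a, b, k, hab, ha0, hb0, hk2, hks, (mul_comm _ _).trans hk.symm, key.1, key.2⟩

theorem red_count : ∃ C : ℝ, 0 < C ∧ ∀ X : ℝ, 1 ≤ X → ∀ S : Finset (ℤ × ℤ), Prs X S →
    (∀ x ∈ S, Red x.1 x.2) → (S.card : ℝ) ≤ C * X ^ ((2 : ℝ) / 3) := by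
  refine ⟨125, by norm_num, fun X hX S hS hR => ?_⟩
  have hX0 : 0 ≤ X := by linarith
  set Y : ℝ := X ^ ((1 : ℝ) / 3) with hY
  have hY1 : 1 ≤ Y := Real.one_le_rpow hX (by norm_num)
  have hY3 : Y ^ 3 = X := by
    rw [hY, ← Real.rpow_natCast, ← Real.rpow_mul hX0]
    norm_num
  have hY2 : X ^ ((2 : ℝ) / 3) = Y ^ 2 := by
    rw [hY, ← Real.rpow_natCast, ← Real.rpow_mul hX0]
    norm_num
  set M : ℕ := ⌊2 * Y⌋₊ with hM
  have hMY : (M : ℝ) ≤ 2 * Y := Nat.floor_le (by linarith)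
  have hmem : ∀ a : ℤ, |(a : ℝ)| ^ 3 ≤ 8 * X → a ∈ Finset.Icc (-(M : ℤ)) M := fun a ha => by
    have h1 : |(a : ℝ)| ≤ 2 * Y := by
      refine le_of_pow_le_pow_left₀ three_ne_zero (by linarith) ?_
      rw [mul_pow, hY3]
      linarith
    have h2 : a.natAbs ≤ M := Nat.le_floor (by rwa [Nat.cast_natAbs, Int.cast_abs])
    rw [Finset.mem_Icc]
    omega
  choose! a b k h using fun x hx =>
    red_param (hS x hx).1 (hS x hx).2.1 (hR x hx) (hS x hx).2.2.1 (hS x hx).2.2.2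
  have hcard : S.card ≤ (Finset.Icc (-(M : ℤ)) M ×ˢ Finset.Icc (-(M : ℤ)) M ×ˢ
      Finset.Icc (-2 : ℤ) 2).card := by
    refine Finset.card_le_card_of_injOn (fun x => (a x, b x, k x)) (fun x hx => ?_) ?_
    · obtain ⟨-, -, -, h4, -, -, h7, h8⟩ := h x hx
      simp only [Finset.coe_product, Set.mem_prod, Finset.mem_coe]
      refine ⟨hmem _ h7, hmem _ h8, ?_⟩
      rw [Finset.mem_Icc, ← abs_le]
      exact Int.le_of_dvd two_pos ((abs_dvd _ _).2 h4)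
    · intro x hx y hy hxy
      simp only [Prod.mk.injEq] at hxy
      obtain ⟨-, -, -, h4, h5, h6, -⟩ := h x hx
      obtain ⟨-, -, -, -, h5', h6', -⟩ := h y hy
      have hk0 : k x ≠ 0 := fun h0 => by simp [h0] at h4
      rw [← hxy.1, ← hxy.2.1, ← hxy.2.2] at h5' h6'
      exact Prod.ext (mul_left_cancel₀ hk0 (h5.trans h5'.symm))
        (mul_left_cancel₀ hk0 (h6.trans h6'.symm))
  have h1 : (Finset.Icc (-(M : ℤ)) M).card = 2 * M + 1 := by
    rw [Int.card_Icc]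
    omega
  rw [Finset.card_product, Finset.card_product, h1, Int.card_Icc] at hcard
  have h2 : (S.card : ℝ) ≤ (2 * M + 1) * ((2 * M + 1) * 5) := by exact_mod_cast hcard
  have h3 : (2 * (M : ℝ) + 1) ≤ 5 * Y := by linarith
  have h4 : (0 : ℝ) ≤ 2 * M + 1 := by positivity
  rw [hY2]
  nlinarith [mul_le_mul h3 h3 h4 (by linarith)]

theorem sel_quadratic : ∃ C : ℕ, ∀ (F : Type) [Field F] [NumberField F], finrank ℚ F = 2 →
    SelLe F (C * (discr F).natAbs) := by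
  classical
  refine ⟨80, fun F _ _ h2 T hT hI => ?_⟩
  set D := (discr F).natAbs with hD
  have hD1 : 1 ≤ D := Int.natAbs_pos.2 (discr_ne_zero F)
  have hs1 : 1 ≤ D.sqrt := Nat.sqrt_pos.2 hD1
  have hs2 : D.sqrt * D.sqrt ≤ D := Nat.sqrt_le D
  choose! q z t m h using fun δ hδ =>
    RedAAux.small F h2 (D.sqrt + 1) (Nat.lt_succ_sqrt' D) δ (hT δ hδ)
  have hinj : Set.InjOn q T := fun δ hδ δ' hδ' e => by
    by_contra hne
    refine hI δ hδ δ' hδ' hne ⟨z δ * z δ' / q δ, ?_⟩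
    have h0 := (h δ hδ).1
    have h1 := (h δ hδ).2.1
    have h3 := (h δ' hδ').2.1
    rw [← e] at h3
    field_simp
    linear_combination (δ' : F) * q δ * h1 + z δ ^ 2 * h3
  have hcard := Finset.card_le_mul_card_image_of_maps_to (f := fun δ => (t δ, m δ)) (s := T)
    (t := Finset.Icc (-(2 * (D.sqrt + 1 : ℕ) : ℤ)) (2 * (D.sqrt + 1 : ℕ)) ×ˢ
      Finset.Icc (0 : ℤ) (D.sqrt + 1 : ℕ))
    (fun δ hδ => Finset.mem_product.2 ⟨(h δ hδ).2.2.2.1, (h δ hδ).2.2.2.2⟩) 2 (fun y _ => by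
      rcases (T.filter fun δ => (t δ, m δ) = y).eq_empty_or_nonempty with he | ⟨δ0, h0⟩
      · simp [he]
      · obtain ⟨h0T, h0y⟩ := Finset.mem_filter.1 h0
        refine le_trans (Finset.card_le_card_of_injOn q (t := {q δ0, t δ0 - q δ0})
          (fun δ hδ => ?_) (hinj.mono (Finset.coe_subset.2 (Finset.filter_subset _ _)))) Finset.card_le_two
        obtain ⟨hδT, hδy⟩ := Finset.mem_filter.1 hδ
        have e := hδy.trans h0y.symm
        simp only [Prod.mk.injEq] at e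
        have h1 := (h δ hδT).2.2.1
        have h3 := (h δ0 h0T).2.2.1
        rw [e.1, e.2] at h1
        have h4 : (q δ - q δ0) * (q δ - (t δ0 - q δ0)) = 0 := by linear_combination h1 - h3
        simpa [sub_eq_zero] using h4)
  rw [Finset.card_product, Int.card_Icc, Int.card_Icc] at hcard
  have e1 : ((2 * (D.sqrt + 1 : ℕ) : ℤ) + 1 - -(2 * (D.sqrt + 1 : ℕ) : ℤ)).toNat =
      4 * D.sqrt + 5 := by omega
  have e2 : (((D.sqrt + 1 : ℕ) : ℤ) + 1 - 0).toNat = D.sqrt + 2 := by omega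
  rw [e1, e2] at hcard
  nlinarith

end Pool.Agent.Lib.MP_af4c59_nt.K9
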