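import Pool.Agent.Lib.MP_af4c59_nt.K9Sys
import Pool.Agent.Lib.MP_af4c59_nt.K9Tor
import Pool.Agent.Lib.MP_af4c59_nt.K9RedA

/-!
The number of square classes, reducible case (part D1).
-/

set_option autoImplicit false

namespace Pool.Agent.Lib.MP_af4c59_nt.K9

open NumberField Module IsDedekindDomain

namespace RedAux

/-! ### Finite combinatorics -/

theorem cover {P ι : Type} (S : Finset P) (I : Finset ι) (τ : P → ι) (hτ : ∀ p ∈ S, τ p ∈ I)
    (Rl : P → P → Prop) (K : ℕ)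
    (h : ∀ S' : Finset P, S' ⊆ S → (∀ p ∈ S', ∀ q ∈ S', τ p = τ q) →
      ∃ R : Finset P, R ⊆ S' ∧ (∀ p ∈ S', ∃ p₀ ∈ R, Rl p₀ p) ∧ R.card ≤ K) :
    ∃ R : Finset P, R ⊆ S ∧ (∀ p ∈ S, ∃ p₀ ∈ R, Rl p₀ p) ∧ R.card ≤ I.card * K := by
  classical
  have h' : ∀ i : ι, ∃ R : Finset P, R ⊆ S.filter (fun p => τ p = i) ∧
      (∀ p ∈ S.filter (fun p => τ p = i), ∃ p₀ ∈ R, Rl p₀ p) ∧ R.card ≤ K := fun i =>
    h _ (Finset.filter_subset _ _) fun p hp q hq => by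
      rw [(Finset.mem_filter.1 hp).2, (Finset.mem_filter.1 hq).2]
  choose R h1 h2 h3 using h'
  refine ⟨I.biUnion R, ?_, fun p hp => ?_, Finset.card_biUnion_le_card_mul _ _ _ fun i _ => h3 i⟩
  · intro p hp
    obtain ⟨i, -, hi⟩ := Finset.mem_biUnion.1 hp
    exact (Finset.mem_filter.1 (h1 i hi)).1
  · obtain ⟨p₀, hp₀, hr⟩ := h2 (τ p) p (Finset.mem_filter.2 ⟨hp, rfl⟩)
    exact ⟨p₀, Finset.mem_biUnion.2 ⟨τ p, hτ p hp, hp₀⟩, hr⟩

theorem maximal {P : Type} (Sq : P → P → Prop) (hr : ∀ p, Sq p p) (hs : ∀ p q, Sq p q → Sq q p)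
    (S : Finset P) : ∃ R : Finset P, R ⊆ S ∧ (∀ p ∈ R, ∀ q ∈ R, p ≠ q → ¬ Sq p q) ∧
      ∀ p ∈ S, ∃ q ∈ R, Sq q p := by
  classical
  induction S using Finset.induction_on with
  | empty => exact ⟨∅, by simp, by simp, by simp⟩
  | insert a S ha ih =>
    obtain ⟨R, h1, h2, h3⟩ := ih
    by_cases h : ∃ q ∈ R, Sq q a
    · refine ⟨R, h1.trans (Finset.subset_insert _ _), h2, fun p hp => ?_⟩
      rcases Finset.mem_insert.1 hp with rfl | hp
      · exact h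
      · exact h3 p hp
    · refine ⟨insert a R, Finset.insert_subset_insert _ h1, fun p hp q hq hpq => ?_, fun p hp => ?_⟩
      · rcases Finset.mem_insert.1 hp with rfl | hp'
        · rcases Finset.mem_insert.1 hq with rfl | hq'
          · exact absurd rfl hpq
          · exact fun hh => h ⟨q, hq', hs _ _ hh⟩
        · rcases Finset.mem_insert.1 hq with rfl | hq'
          · exact fun hh => h ⟨p, hp', hh⟩
          · exact h2 p hp' q hq' hpq
      · rcases Finset.mem_insert.1 hp with rfl | hp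
        · exact ⟨p, Finset.mem_insert_self _ _, hr p⟩
        · obtain ⟨q, hq, hh⟩ := h3 p hp
          exact ⟨q, Finset.mem_insert_of_mem hq, hh⟩

/-! ### Squarefree parts -/

/-- The signed squarefree numbers built from the primes of `B`. -/
def EE (B : ℤ) : Finset ℤ :=
  (({1, -1} : Finset ℤ) ×ˢ B.natAbs.primeFactors.powerset).image
    fun x => x.1 * ((∏ p ∈ x.2, p : ℕ) : ℤ)

theorem EE_card (B : ℤ) : (EE B).card ≤ 2 ^ (om B + 1) := by
  refine Finset.card_image_le.trans ?_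
  rw [Finset.card_product, Finset.card_powerset, pow_succ, mul_comm]
  exact Nat.mul_le_mul_left _ Finset.card_le_two

theorem mem_EE {B e : ℤ} (hB : B ≠ 0) (he : Squarefree e)
    (h : ∀ p : ℕ, p.Prime → (p : ℤ) ∣ e → (p : ℤ) ∣ B) : e ∈ EE B := by
  have h1 := Nat.prod_primeFactors_of_squarefree (Int.squarefree_natAbs.2 he)
  have h2 : e.natAbs.primeFactors ∈ B.natAbs.primeFactors.powerset := by
    refine Finset.mem_powerset.2 fun p hp => ?_
    have hp' := Nat.mem_primeFactors.1 hp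
    exact Nat.mem_primeFactors.2 ⟨hp'.1, Int.natCast_dvd.1 (h p hp'.1 (Int.natCast_dvd.2 hp'.2.1)),
      Int.natAbs_ne_zero.2 hB⟩
  rcases Int.natAbs_eq e with h3 | h3
  · exact Finset.mem_image.2 ⟨(1, e.natAbs.primeFactors), Finset.mem_product.2 ⟨by simp, h2⟩,
      by simp only [h1]; omega⟩
  · exact Finset.mem_image.2 ⟨(-1, e.natAbs.primeFactors), Finset.mem_product.2 ⟨by simp, h2⟩,
      by simp only [h1]; omega⟩

theorem exists_sqfree (m : ℤ) : ∃ e w : ℤ, Squarefree e ∧ m = e * w ^ 2 := by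
  obtain ⟨a, b, h1, h2⟩ := Nat.sq_mul_squarefree m.natAbs
  have h3 : (m.natAbs : ℤ) = (a : ℤ) * (b : ℤ) ^ 2 := by
    rw [← h1]; push_cast; ring
  rcases Int.natAbs_eq m with h | h
  · exact ⟨a, b, Int.squarefree_natCast.2 h2, by rw [← h3]; exact h⟩
  · refine ⟨-a, b, Int.squarefree_natAbs.1 (by simpa using h2), ?_⟩
    rw [neg_mul, ← h3]; exact h

theorem odd_val {p : ℕ} (hp : p.Prime) {c w W : ℤ} (hc : ¬ (p : ℤ) ∣ c) (hW : W ≠ 0)
    (h : p * c * w ^ 2 = W ^ 2) : False := by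
  have : Fact p.Prime := ⟨hp⟩
  have hc0 : c ≠ 0 := by rintro rfl; exact hc (dvd_zero _)
  have hp0 : (p : ℤ) ≠ 0 := by exact_mod_cast hp.ne_zero
  have hw : w ≠ 0 := by
    rintro rfl
    apply hW
    simpa using h.symm
  have := congrArg (padicValInt p) h
  rw [pow_two, pow_two, padicValInt.mul (mul_ne_zero hp0 hc0) (mul_ne_zero hw hw),
    padicValInt.mul hp0 hc0, padicValInt.mul hw hw, padicValInt.mul hW hW, padicValInt_self,
    padicValInt.eq_zero_of_not_dvd hc] at this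
  omega

/-- The rational component of the descent element. -/
theorem int_eta {H : ℝ} {g s n : ℤ} (hB : 6 * g * DD s n ≠ 0) {p : ℤ × ℤ} (hp : Box H g s n p)
    {t : ℤ} (ht : t ^ 3 - s ^ 2 * t ^ 2 - 72 * s * n ^ 3 * t +
      16 * (4 * s ^ 3 * n ^ 3 + 27 * n ^ 6) = 0) :
    ∃ e w : ℤ, e ∈ EE (6 * g * DD s n) ∧ e * w ≠ 0 ∧ 4 * p.1 - p.2 * g ^ 2 * t = e * w ^ 2 := by
  obtain ⟨-, -, -, hco, e₀, W, he₀, hd, hW, hG⟩ := hp
  obtain ⟨x, y⟩ := p
  dsimp only at hco hG ⊢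
  obtain ⟨e, w, he, hm⟩ := exists_sqfree (4 * x - y * g ^ 2 * t)
  set m' : ℤ := (4 * x) ^ 2 + (t - s ^ 2) * (4 * x) * (y * g ^ 2) +
    (t ^ 2 - s ^ 2 * t - 72 * s * n ^ 3) * (y * g ^ 2) ^ 2 with hm'
  have hprod : (4 * x - y * g ^ 2 * t) * m' = -16 * Gf (g * s) (g * n) x y := by
    simp only [hm', Gf]
    linear_combination (-(y * g ^ 2) ^ 3) * ht
  have hsq : e * (-(m' * e₀)) * w ^ 2 = (4 * W) ^ 2 := by
    linear_combination (m' * e₀) * hm - e₀ * hprod + 16 * hG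
  have hW4 : 4 * W ≠ 0 := mul_ne_zero (by norm_num) hW
  refine ⟨e, w, mem_EE hB he fun q hq hqe => ?_, ?_, hm⟩
  · by_contra hqB
    have hq' : Prime (q : ℤ) := Nat.prime_iff_prime_int.1 hq
    have h2 : ¬ (q : ℤ) ∣ 2 := fun h => hqB (h.trans ⟨3 * g * DD s n, by ring⟩)
    have hg : ¬ (q : ℤ) ∣ g := fun h => hqB (h.trans ⟨6 * DD s n, by ring⟩)
    have hD : ¬ (q : ℤ) ∣ DD s n := fun h => hqB (h.trans ⟨6 * g, by ring⟩)
    have h0 : ¬ (q : ℤ) ∣ e₀ := fun h =>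
      hqB ((h.trans hd).trans ⟨s ^ 3 - 27 * n ^ 3, by simp only [DD]; ring⟩)
    have hqm : (q : ℤ) ∣ 4 * x - y * g ^ 2 * t := by
      rw [hm]; exact hqe.mul_right _
    have hy : ¬ (q : ℤ) ∣ y := fun h => by
      have h4 : (q : ℤ) ∣ 2 * 2 * x := by
        have := hqm.add ((h.mul_right (g ^ 2)).mul_right t)
        rwa [show 4 * x - y * g ^ 2 * t + y * g ^ 2 * t = 2 * 2 * x by ring] at this
      rcases hq'.dvd_or_dvd h4 with h5 | h5
      · rcases hq'.dvd_or_dvd h5 with h6 | h6 <;> exact h2 h6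
      · exact hq'.not_isUnit (hco.isUnit_of_dvd' h5 h)
    have hP : ¬ (q : ℤ) ∣ 3 * t ^ 2 - 2 * s ^ 2 * t - 72 * s * n ^ 3 := fun h => by
      have e1 : (3 * t ^ 2 - 2 * s ^ 2 * t - 72 * s * n ^ 3) *
          ((3 * t ^ 2 - 2 * s ^ 2 * t - 72 * s * n ^ 3) *
            ((t - s ^ 2) ^ 2 - 4 * (t ^ 2 - s ^ 2 * t - 72 * s * n ^ 3))) =
          2 ^ 8 * DD s n ^ 3 := by
        simp only [DD]
        linear_combination (-(4 * s ^ 6 + 18 * s ^ 2 * (72 * s * n ^ 3) -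
          27 * (16 * (4 * s ^ 3 * n ^ 3 + 27 * n ^ 6) -
            (t ^ 3 - s ^ 2 * t ^ 2 - 72 * s * n ^ 3 * t)))) * ht
      have h3 : (q : ℤ) ∣ 2 ^ 8 * DD s n ^ 3 := e1 ▸ h.mul_right _
      rcases hq'.dvd_or_dvd h3 with h4 | h4
      · exact h2 (hq'.dvd_of_dvd_pow h4)
      · exact hD (hq'.dvd_of_dvd_pow h4)
    have hm1 : ¬ (q : ℤ) ∣ m' := fun h => by
      have h3 : (q : ℤ) ∣ (y * g ^ 2) ^ 2 * (3 * t ^ 2 - 2 * s ^ 2 * t - 72 * s * n ^ 3) := by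
        have := h.sub (hqm.mul_right (4 * x + y * g ^ 2 * t + (t - s ^ 2) * (y * g ^ 2)))
        rwa [show m' - (4 * x - y * g ^ 2 * t) * (4 * x + y * g ^ 2 * t + (t - s ^ 2) * (y * g ^ 2)) =
          (y * g ^ 2) ^ 2 * (3 * t ^ 2 - 2 * s ^ 2 * t - 72 * s * n ^ 3) by
            simp only [hm']; ring] at this
      rcases hq'.dvd_or_dvd h3 with h4 | h4
      · rcases hq'.dvd_or_dvd (hq'.dvd_of_dvd_pow h4) with h5 | h5
        · exact hy h5
        · exact hg (hq'.dvd_of_dvd_pow h5)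
      · exact hP h4
    obtain ⟨e', rfl⟩ := hqe
    have he' : ¬ (q : ℤ) ∣ e' := fun h =>
      hq'.not_isUnit (he _ (mul_dvd_mul_left _ h))
    refine odd_val hq (c := e' * (-(m' * e₀))) (w := w) (fun h => ?_) hW4 (by rw [← hsq]; ring)
    rcases hq'.dvd_or_dvd h with h4 | h4
    · exact he' h4
    · rcases hq'.dvd_or_dvd (dvd_neg.1 h4) with h5 | h5
      · exact hm1 h5
      · exact h0 h5
  · intro h
    apply pow_ne_zero 2 hW4
    rw [← hsq]
    linear_combination (-(m' * e₀) * w) * h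

theorem int_gf {H : ℝ} {g s n : ℤ} (hB : 6 * g * DD s n ≠ 0) {p : ℤ × ℤ} (hp : Box H g s n p) :
    ∃ e W : ℤ, e ∈ EE (6 * g * DD s n) ∧ e ≠ 0 ∧ e * Gf (g * s) (g * n) p.1 p.2 = W ^ 2 := by
  obtain ⟨-, -, -, -, e₀, W, he₀, hd, -, hG⟩ := hp
  exact ⟨e₀, W, mem_EE hB he₀ fun q _ h =>
    (h.trans hd).trans ⟨s ^ 3 - 27 * n ^ 3, by simp only [DD]; ring⟩, he₀.ne_zero, hG⟩

/-! ### The roots of the resolvent cubic -/

theorem psi_int {K : Type} [Field K] {s n : ℤ} {x : K}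
    (h : x ^ 3 - (s : K) ^ 2 * x ^ 2 - 72 * s * n ^ 3 * x +
      16 * (4 * s ^ 3 * n ^ 3 + 27 * n ^ 6) = 0) : IsIntegral ℤ x := by
  refine ⟨Polynomial.X ^ 3 - Polynomial.C (s ^ 2) * Polynomial.X ^ 2 -
    Polynomial.C (72 * s * n ^ 3) * Polynomial.X +
    Polynomial.C (16 * (4 * s ^ 3 * n ^ 3 + 27 * n ^ 6)), by monicity!, ?_⟩
  simp only [Polynomial.eval₂_add, Polynomial.eval₂_sub, Polynomial.eval₂_mul,
    Polynomial.eval₂_C, Polynomial.eval₂_X_pow, Polynomial.eval₂_X]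
  simp only [eq_intCast]
  push_cast
  exact h

theorem rat_int {s n : ℤ} {x : ℚ}
    (h : x ^ 3 - (s : ℚ) ^ 2 * x ^ 2 - 72 * s * n ^ 3 * x +
      16 * (4 * s ^ 3 * n ^ 3 + 27 * n ^ 6) = 0) :
    ∃ t : ℤ, (t : ℚ) = x ∧ t ^ 3 - s ^ 2 * t ^ 2 - 72 * s * n ^ 3 * t +
      16 * (4 * s ^ 3 * n ^ 3 + 27 * n ^ 6) = 0 := by
  obtain ⟨t, ht⟩ := IsIntegrallyClosed.isIntegral_iff.1 (psi_int h)
  have ht' : (t : ℚ) = x := by simpa using ht
  refine ⟨t, ht', ?_⟩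
  rw [← ht'] at h
  exact_mod_cast h

/-- The elementary symmetric functions of the three explicit roots. -/
theorem sym {K : Type} [Field K] [CharZero K] {s n a b k : ℤ} (hk : k ≠ 0)
    (hs : k * s = a ^ 3 + 2 * b ^ 3) (hn : k * n = a * b ^ 2) {δ : K}
    (hδ : δ ^ 2 = ((a * (a ^ 3 + 8 * b ^ 3) : ℤ) : K)) {t u v : ℚ}
    (ht : t = 4 * b ^ 3 * (2 * a ^ 3 + b ^ 3) / k ^ 2)
    (hu : u = a ^ 3 * (a ^ 3 - 4 * b ^ 3) / (2 * k ^ 2))
    (hv : v = a * (a ^ 3 + 8 * b ^ 3) / (2 * k ^ 2)) :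
    (t : K) + (u + v * δ) + (u - v * δ) = (s : K) ^ 2 ∧
      (t : K) * (u + v * δ) + t * (u - v * δ) + (u + v * δ) * (u - v * δ) =
        -72 * (s : K) * (n : K) ^ 3 ∧
      (t : K) * (u + v * δ) * (u - v * δ) =
        -16 * (4 * (s : K) ^ 3 * (n : K) ^ 3 + 27 * (n : K) ^ 6) := by
  have hk' : (k : K) ≠ 0 := by exact_mod_cast hk
  have hs' : (s : K) = (a ^ 3 + 2 * b ^ 3) / k := by
    rw [eq_div_iff hk', mul_comm]; exact_mod_cast hs
  have hn' : (n : K) = a * b ^ 2 / k := by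
    rw [eq_div_iff hk', mul_comm]; exact_mod_cast hn
  have e : ((u : K) + v * δ) * (u - v * δ) = u ^ 2 - v ^ 2 * (a * (a ^ 3 + 8 * b ^ 3)) := by
    push_cast at hδ
    linear_combination (-(v : K) ^ 2) * hδ
  have e' : (t : K) * (u + v * δ) + t * (u - v * δ) = 2 * t * u := by ring
  have e'' : (t : K) + (u + v * δ) + (u - v * δ) = t + 2 * u := by ring
  rw [mul_assoc (t : K), e, e', e'', hs', hn', ht, hu, hv]
  push_cast
  refine ⟨?_, ?_, ?_⟩ <;> field_simp <;> ring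

theorem rel_of {g : ℤ} {T : Fin 3 → ℂ} {p q : ℤ × ℤ} {t σ π : ℚ} (h0 : T 0 = t)
    (h1 : T 1 + T 2 = σ) (h2 : T 1 * T 2 = π) (hne : (T 0 - T 1) * (T 0 - T 2) ≠ 0)
    {ρ l0 l1 : ℚ} (hρ : (ρ : ℂ) ^ 2 = eta g (T 0) p * eta g (T 0) q)
    (hl1 : ((l0 : ℂ) + l1 * T 1) ^ 2 = eta g (T 1) p * eta g (T 1) q)
    (hl2 : ((l0 : ℂ) + l1 * T 2) ^ 2 = eta g (T 2) p * eta g (T 2) q) : Rel g T p q := by
  have hq : (T 0 - T 1) * (T 0 - T 2) = ((t ^ 2 - σ * t + π : ℚ) : ℂ) := by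
    push_cast
    rw [← h0, ← h1, ← h2]
    ring
  have hq0 : t ^ 2 - σ * t + π ≠ 0 := by
    intro h
    rw [hq, h] at hne
    exact hne (by simp)
  obtain ⟨lam, hlam⟩ : ∃ lam : ℚ, lam * (t ^ 2 - σ * t + π) = ρ - l0 - l1 * t :=
    ⟨(ρ - l0 - l1 * t) / (t ^ 2 - σ * t + π), div_mul_cancel₀ _ hq0⟩
  have hlam' : (lam : ℂ) * ((t : ℂ) ^ 2 - σ * t + π) = ρ - l0 - l1 * t := by exact_mod_cast hlam
  refine ⟨![l0 + lam * π, l1 - lam * σ, lam], fun a => ?_⟩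
  have hev : ∀ z : ℂ, ev ![l0 + lam * π, l1 - lam * σ, lam] z =
      l0 + l1 * z + lam * (z ^ 2 - σ * z + π) := by
    intro z
    simp only [ev, Matrix.cons_val_zero, Matrix.cons_val_one, Matrix.cons_val]
    push_cast
    ring
  rw [hev]
  fin_cases a
  · simp only [Fin.zero_eta]
    rw [← hρ, h0, hlam']
    ring
  · simp only [Fin.mk_one]
    rw [← hl1, ← h1, ← h2]
    ring
  · simp only [Fin.reduceFinMk]
    rw [← hl2, ← h1, ← h2]
    ring

/-! ### Quadratic fields -/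

theorem exists_field {d : ℤ} (hd : ¬ IsSquare d) : ∃ (F : Type) (_ : Field F) (_ : NumberField F)
    (δ : F), finrank ℚ F = 2 ∧ δ ^ 2 = d := by
  have hirr : Irreducible (Polynomial.X ^ 2 - Polynomial.C (d : ℚ)) := by
    refine X_pow_sub_C_irreducible_of_prime Nat.prime_two fun b hb => hd ?_
    exact Rat.isSquare_intCast_iff.1 ⟨b, by rw [← hb]; ring⟩
  have : Fact (Irreducible (Polynomial.X ^ 2 - Polynomial.C (d : ℚ))) := ⟨hirr⟩
  refine ⟨AdjoinRoot (Polynomial.X ^ 2 - Polynomial.C (d : ℚ)), inferInstance, inferInstance,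
    AdjoinRoot.root _, ?_, ?_⟩
  · have := (AdjoinRoot.powerBasis hirr.ne_zero).finrank
    rw [AdjoinRoot.powerBasis_dim, Polynomial.natDegree_X_pow_sub_C] at this
    convert this using 2
  · have := AdjoinRoot.eval₂_root (Polynomial.X ^ 2 - Polynomial.C (d : ℚ))
    rw [Polynomial.eval₂_sub, Polynomial.eval₂_X_pow, Polynomial.eval₂_C] at this
    exact (sub_eq_zero.1 this).trans (map_intCast _ d)

theorem quad_data {F : Type} [Field F] [NumberField F] (h2 : finrank ℚ F = 2) {d : ℤ}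
    (hd : ¬ IsSquare d) {δ : F} (hδ : δ ^ 2 = d) :
    (∀ z : F, ∃ α β : ℚ, z = α + β * δ) ∧ ∃ σ₁ σ₂ : F →ₐ[ℚ] ℂ, σ₂ δ = -σ₁ δ ∧
      (∀ z : F, ((Algebra.norm ℚ z : ℚ) : ℂ) = σ₁ z * σ₂ z) ∧
      ∀ z : F, ((Algebra.trace ℚ F z : ℚ) : ℂ) = σ₁ z + σ₂ z := by
  classical
  have hli : LinearIndependent ℚ ![(1 : F), δ] := by
    rw [LinearIndependent.pair_iff' one_ne_zero]
    intro c hc
    apply hd
    refine Rat.isSquare_intCast_iff.1 ⟨c, ?_⟩
    have h1 : ((c * c : ℚ) : F) = ((d : ℚ) : F) := by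
      rw [Rat.smul_one_eq_cast] at hc
      push_cast
      rw [hc, ← hδ]
      ring
    exact (Rat.cast_injective h1).symm
  have hspan : ∀ z : F, ∃ α β : ℚ, z = α + β * δ := by
    intro z
    have h1 := hli.span_eq_top_of_card_eq_finrank (by simp [h2])
    have h3 : z ∈ Submodule.span ℚ (Set.range ![(1 : F), δ]) := by rw [h1]; trivial
    rw [Matrix.range_cons_cons_empty, Submodule.mem_span_pair] at h3
    obtain ⟨α, β, h4⟩ := h3
    exact ⟨α, β, by rw [← h4, Rat.smul_one_eq_cast, Rat.smul_def]⟩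
  refine ⟨hspan, ?_⟩
  have hc : (Finset.univ : Finset (F →ₐ[ℚ] ℂ)).card = 2 := by
    rw [Finset.card_univ, AlgHom.card, h2]
  obtain ⟨σ₁, σ₂, hne, hu⟩ := Finset.card_eq_two.1 hc
  refine ⟨σ₁, σ₂, ?_, fun z => ?_, fun z => ?_⟩
  · have e1 : σ₁ δ ^ 2 = d := by rw [← map_pow, hδ, map_intCast]
    have e2 : σ₂ δ ^ 2 = d := by rw [← map_pow, hδ, map_intCast]
    rcases sq_eq_sq_iff_eq_or_eq_neg.1 (e2.trans e1.symm) with h | h
    · exfalso
      apply hne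
      ext z
      obtain ⟨α, β, rfl⟩ := hspan z
      simp [h]
    · exact h
  · have := Algebra.norm_eq_prod_embeddings ℚ ℂ z
    rw [hu, Finset.prod_pair hne] at this
    simpa using this
  · have := trace_eq_sum_embeddings ℂ (K := ℚ) (x := z)
    rw [hu, Finset.sum_pair hne] at this
    simpa using this

theorem quad_discr {F : Type} [Field F] [NumberField F] (h2 : finrank ℚ F = 2) {d : ℤ}
    (hd : ¬ IsSquare d) {δ : F} (hδ : δ ^ 2 = d) : (discr F).natAbs ≤ 4 * d.natAbs := by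
  obtain ⟨-, σ₁, σ₂, hσ, -, htr⟩ := quad_data h2 hd hδ
  have hd0 : d ≠ 0 := by rintro rfl; exact hd IsSquare.zero
  have hint : IsIntegral ℤ δ := by
    refine IsIntegral.of_pow two_pos ?_
    rw [hδ]
    exact isIntegral_algebraMap (R := ℤ) (A := F) (x := d)
  let δ' : 𝓞 F := ⟨δ, hint⟩
  have hr : finrank ℤ (𝓞 F) = 2 := by rw [RingOfIntegers.rank, h2]
  let b := Module.finBasisOfFinrankEq ℤ (𝓞 F) hr
  have h1 := Algebra.discr_of_matrix_vecMul (A := ℤ) b (b.toMatrix ![1, δ'])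
  rw [Basis.toMatrix_map_vecMul, NumberField.discr_eq_discr] at h1
  have t1 : ∀ z : 𝓞 F, ((Algebra.trace ℤ (𝓞 F) z : ℤ) : ℂ) = σ₁ z + σ₂ z := by
    intro z
    rw [← htr, ← Algebra.coe_trace_int]
    simp
  have e1 : σ₁ δ ^ 2 = d := by rw [← map_pow, hδ, map_intCast]
  have h3 : Algebra.discr ℤ ![1, δ'] = 4 * d := by
    have : ((Algebra.discr ℤ ![1, δ'] : ℤ) : ℂ) = ((4 * d : ℤ) : ℂ) := by
      rw [Algebra.discr_def, Matrix.det_fin_two]
      simp only [Algebra.traceMatrix_apply, Algebra.traceForm_apply, Matrix.cons_val_zero,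
        Matrix.cons_val_one]
      push_cast
      simp only [t1]
      have hδ' : ((δ' : 𝓞 F) : F) = δ := rfl
      push_cast
      simp only [hδ', map_mul, map_one, hσ]
      linear_combination 4 * e1
    exact_mod_cast this
  have h4 : discr F ∣ 4 * d := ⟨_, by rw [← h3, h1, mul_comm]⟩
  have h5 := Int.natAbs_dvd_natAbs.2 h4
  rw [Int.natAbs_mul] at h5
  exact Nat.le_of_dvd (Nat.mul_pos (by norm_num) (Int.natAbs_pos.2 hd0)) h5

/-! ### The two cases -/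

theorem eta_int {g : ℤ} {z : ℂ} {t : ℤ} (h : z = t) (p : ℤ × ℤ) :
    eta g z p = ((4 * p.1 - p.2 * g ^ 2 * t : ℤ) : ℂ) := by
  simp [eta, h]

theorem ne_of_roots {s n : ℤ} (hD : DD s n ≠ 0) {T : Fin 3 → ℂ} (hT : Roots s n T) :
    (T 0 - T 1) * (T 0 - T 2) ≠ 0 ∧ T 1 - T 2 ≠ 0 := by
  have h1 := (disc_roots hT).1
  have h2 : (DD s n : ℂ) ≠ 0 := by exact_mod_cast hD
  have h3 : (T 0 - T 1) * (T 0 - T 2) * (T 1 - T 2) ≠ 0 := by
    intro h
    rw [h] at h1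
    exact mul_ne_zero (by norm_num : (256 : ℂ) ≠ 0) (pow_ne_zero 3 h2) (by rw [← h1]; ring)
  exact ⟨left_ne_zero_of_mul h3, right_ne_zero_of_mul h3⟩

theorem split_case {s n : ℤ} (hD : DD s n ≠ 0) (t : Fin 3 → ℤ)
    (ht : ∀ i, t i ^ 3 - s ^ 2 * t i ^ 2 - 72 * s * n ^ 3 * t i +
      16 * (4 * s ^ 3 * n ^ 3 + 27 * n ^ 6) = 0)
    (hT : Roots s n fun i => (t i : ℂ)) {H : ℝ} {g : ℤ} (hg : g ≠ 0) (S : Finset (ℤ × ℤ))
    (hS : ∀ p ∈ S, Box H g s n p) : ∃ R : Finset (ℤ × ℤ), R ⊆ S ∧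
      (∀ p ∈ S, ∃ p₀ ∈ R, Rel g (fun i => (t i : ℂ)) p₀ p) ∧
      R.card ≤ 8 ^ (om (6 * g * DD s n) + 1) := by
  have hB : 6 * g * DD s n ≠ 0 := mul_ne_zero (mul_ne_zero (by norm_num) hg) hD
  have h1 : ∀ (i : Fin 3) (p : ℤ × ℤ), ∃ e w : ℤ, p ∈ S → e ∈ EE (6 * g * DD s n) ∧
      4 * p.1 - p.2 * g ^ 2 * t i = e * w ^ 2 := by
    intro i p
    by_cases hp : p ∈ S
    · obtain ⟨e, w, h1, -, h2⟩ := int_eta hB (hS p hp) (ht i)
      exact ⟨e, w, fun _ => ⟨h1, h2⟩⟩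
    · exact ⟨0, 0, fun h => absurd h hp⟩
  choose e w hew using h1
  obtain ⟨hn1, hn2⟩ := ne_of_roots hD hT
  obtain ⟨R, h1, h2, h3⟩ := cover S
    (EE (6 * g * DD s n) ×ˢ EE (6 * g * DD s n) ×ˢ EE (6 * g * DD s n))
    (fun p => (e 0 p, e 1 p, e 2 p))
    (fun p hp => Finset.mem_product.2 ⟨(hew 0 p hp).1,
      Finset.mem_product.2 ⟨(hew 1 p hp).1, (hew 2 p hp).1⟩⟩)
    (Rel g fun i => (t i : ℂ)) 1 (by
      intro S' hS' hτ
      rcases S'.eq_empty_or_nonempty with rfl | ⟨p₀, hp₀⟩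
      · exact ⟨∅, by simp, by simp, by simp⟩
      refine ⟨{p₀}, by simpa using hp₀, fun p hp => ⟨p₀, Finset.mem_singleton_self _, ?_⟩, by simp⟩
      have he : ∀ i, e i p₀ = e i p := by
        have := hτ p₀ hp₀ p hp
        simp only [Prod.mk.injEq] at this
        intro i
        fin_cases i
        exacts [this.1, this.2.1, this.2.2]
      have hρ : ∀ i, (((e i p * w i p₀ * w i p : ℤ) : ℚ) : ℂ) ^ 2 =
          eta g (t i) p₀ * eta g (t i) p := by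
        intro i
        rw [eta_int rfl, eta_int rfl, (hew i p₀ (hS' hp₀)).2, (hew i p (hS' hp)).2, he]
        push_cast
        ring
      have h12 : (t 1 : ℚ) - t 2 ≠ 0 := by
        intro h
        apply hn2
        exact_mod_cast h
      obtain ⟨l1, hl1⟩ : ∃ l1 : ℚ, l1 * ((t 1 : ℚ) - t 2) =
          ((e 1 p * w 1 p₀ * w 1 p : ℤ) : ℚ) - ((e 2 p * w 2 p₀ * w 2 p : ℤ) : ℚ) :=
        ⟨_ / ((t 1 : ℚ) - t 2), div_mul_cancel₀ _ h12⟩
      have hl1' : (l1 : ℂ) * ((t 1 : ℂ) - t 2) =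
          (((e 1 p * w 1 p₀ * w 1 p : ℤ) : ℚ) : ℂ) - (((e 2 p * w 2 p₀ * w 2 p : ℤ) : ℚ) : ℂ) := by
        exact_mod_cast hl1
      refine rel_of (t := t 0) (σ := t 1 + t 2) (π := t 1 * t 2) (by simp) (by simp) (by simp) hn1
        (hρ 0) (l0 := ((e 1 p * w 1 p₀ * w 1 p : ℤ) : ℚ) - l1 * t 1) (l1 := l1) ?_ ?_
      · rw [← hρ 1]
        congr 1
        push_cast
        ring
      · rw [← hρ 2]
        congr 1
        push_cast at hl1' ⊢
        linear_combination -hl1')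
  refine ⟨R, h1, h2, h3.trans ?_⟩
  have := EE_card (6 * g * DD s n)
  rw [mul_one, Finset.card_product, Finset.card_product, show 8 = 2 * (2 * 2) by norm_num, mul_pow,
    mul_pow]
  gcongr

theorem field_case {s n : ℤ} (hD : DD s n ≠ 0) {F : Type} [Field F] [NumberField F]
    (h2 : finrank ℚ F = 2) {k : ℕ} (hk : SelLe F k) {δ : F}
    (hspan : ∀ z : F, ∃ α β : ℚ, z = α + β * δ) {σ₁ σ₂ : F →ₐ[ℚ] ℂ} (hσ : σ₂ δ = -σ₁ δ)
    (hN : ∀ z : F, ((Algebra.norm ℚ z : ℚ) : ℂ) = σ₁ z * σ₂ z) {d : ℤ} (hδ : δ ^ 2 = d) {t : ℤ}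
    (ht : t ^ 3 - s ^ 2 * t ^ 2 - 72 * s * n ^ 3 * t + 16 * (4 * s ^ 3 * n ^ 3 + 27 * n ^ 6) = 0)
    {u v : ℚ} (hθ : ((u : F) + v * δ) ^ 3 - (s : F) ^ 2 * (u + v * δ) ^ 2 -
      72 * s * n ^ 3 * (u + v * δ) + 16 * (4 * s ^ 3 * n ^ 3 + 27 * n ^ 6) = 0)
    {T : Fin 3 → ℂ} (hT : Roots s n T) (h0 : T 0 = t) (h1 : T 1 = u + v * σ₁ δ)
    (h1' : T 2 = u - v * σ₁ δ) {H : ℝ} {g : ℤ} (hg : g ≠ 0) (S : Finset (ℤ × ℤ))
    (hS : ∀ p ∈ S, Box H g s n p) : ∃ R : Finset (ℤ × ℤ), R ⊆ S ∧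
      (∀ p ∈ S, ∃ p₀ ∈ R, Rel g T p₀ p) ∧ R.card ≤ 32 ^ (om (6 * g * DD s n) + 1) * k := by
  classical
  have hB : 6 * g * DD s n ≠ 0 := mul_ne_zero (mul_ne_zero (by norm_num) hg) hD
  have ha : ∀ p : ℤ × ℤ, ∃ e w : ℤ, p ∈ S → e ∈ EE (6 * g * DD s n) ∧ e * w ≠ 0 ∧
      4 * p.1 - p.2 * g ^ 2 * t = e * w ^ 2 := by
    intro p
    by_cases hp : p ∈ S
    · obtain ⟨e, w, h⟩ := int_eta hB (hS p hp) ht
      exact ⟨e, w, fun _ => h⟩
    · exact ⟨0, 0, fun h => absurd h hp⟩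
  have hb : ∀ p : ℤ × ℤ, ∃ e W : ℤ, p ∈ S → e ∈ EE (6 * g * DD s n) ∧ e ≠ 0 ∧
      e * Gf (g * s) (g * n) p.1 p.2 = W ^ 2 := by
    intro p
    by_cases hp : p ∈ S
    · obtain ⟨e, w, h⟩ := int_gf hB (hS p hp)
      exact ⟨e, w, fun _ => h⟩
    · exact ⟨0, 0, fun h => absurd h hp⟩
  choose e w hew using ha
  choose e' W hW using hb
  obtain ⟨hn1, hn2⟩ := ne_of_roots hD hT
  have hv : v ≠ 0 := by
    rintro rfl
    apply hn2
    rw [h1, h1']
    simp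
  let θ : 𝓞 F := ⟨u + v * δ, psi_int hθ⟩
  have hθc : ((θ : 𝓞 F) : F) = u + v * δ := rfl
  have hθ' : θ ^ 3 - (s : 𝓞 F) ^ 2 * θ ^ 2 - 72 * s * n ^ 3 * θ +
      16 * (4 * s ^ 3 * n ^ 3 + 27 * n ^ 6) = 0 := by
    apply RingOfIntegers.ext
    simp only [map_add, map_sub, map_mul, map_pow, map_intCast, map_ofNat, map_zero]
    exact hθ
  let η : ℤ × ℤ → 𝓞 F := fun p => 4 * (p.1 : 𝓞 F) - p.2 * g ^ 2 * θ
  have hη : ∀ p, ((η p : 𝓞 F) : F) = 4 * (p.1 : F) - p.2 * g ^ 2 * (u + v * δ) := by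
    intro p
    simp only [η, map_sub, map_mul, map_pow, map_intCast, map_ofNat]
    rfl
  have hσ1 : ∀ p, σ₁ (η p : F) = eta g (T 1) p := by
    intro p
    rw [hη, h1]
    simp [eta, map_ofNat]
  have hσ2 : ∀ p, σ₂ (η p : F) = eta g (T 2) p := by
    intro p
    rw [hη, h1']
    simp [eta, map_ofNat, hσ, sub_eq_add_neg]
  have hδc : σ₁ δ ^ 2 = d := by rw [← map_pow, hδ, map_intCast]
  have hE : ∀ p ∈ S, eta g (T 0) p = (e p : ℂ) * (w p : ℂ) ^ 2 := by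
    intro p hp
    rw [eta_int h0, (hew p hp).2.2]
    push_cast
    ring
  obtain ⟨R, hR1, hR2, hR3⟩ := cover S (EE (6 * g * DD s n) ×ˢ EE (6 * g * DD s n))
    (fun p => (e p, e' p)) (fun p hp => Finset.mem_product.2 ⟨(hew p hp).1, (hW p hp).1⟩)
    (Rel g T) (8 ^ (om (6 * g * DD s n) + 1) * k) (by
      intro S' hS' hτ
      rcases S'.eq_empty_or_nonempty with rfl | ⟨p₀, hp₀⟩
      · exact ⟨∅, by simp, by simp, by simp⟩
      obtain ⟨R, r1, r2, r3⟩ := maximal (fun p q => IsSquare ((η p : F) * (η q : F)))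
        (fun p => ⟨_, rfl⟩) (fun p q h => by rwa [mul_comm]) S'
      have hev := fun p (hp : p ∈ S') => even_eta (hS p (hS' hp)) θ hθ'
      have h00 : η p₀ ≠ 0 := (hev p₀ hp₀).1
      have h00' : (η p₀ : F) ≠ 0 := by simpa using h00
      refine ⟨R, r1, fun p hp => ?_, ?_⟩
      · obtain ⟨q, hq, ρ, hρ⟩ := r3 p hp
        refine ⟨q, hq, ?_⟩
        obtain ⟨α, β, rfl⟩ := hspan ρ
        have he : e q = e p := congrArg Prod.fst (hτ q (r1 hq) p hp)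
        have hv' : (v : ℂ) ≠ 0 := by exact_mod_cast hv
        refine rel_of (t := t) (σ := 2 * u) (π := u ^ 2 - v ^ 2 * d) (by simp [h0]) ?_ ?_ hn1
          (ρ := e p * w q * w p) (l0 := α - β / v * u) (l1 := β / v) ?_ ?_ ?_
        · rw [h1, h1']; push_cast; ring
        · rw [h1, h1']; push_cast; linear_combination (-(v : ℂ) ^ 2) * hδc
        · rw [hE q (hS' (r1 hq)), hE p (hS' hp), he]
          push_cast
          ring
        · rw [← hσ1, ← hσ1, ← map_mul, hρ, h1, pow_two]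
          simp only [map_mul, map_add, map_ratCast]
          push_cast
          field_simp
          ring
        · rw [← hσ2, ← hσ2, ← map_mul, hρ, h1', pow_two]
          simp only [map_mul, map_add, map_ratCast, hσ]
          push_cast
          field_simp
          ring
      · have hinj : Set.InjOn (fun p => η p * η p₀) R := by
          intro p hp q hq h
          by_contra hpq
          have h' : η p = η q := mul_right_cancel₀ h00 h
          exact r2 p hp q hq hpq ⟨_, by rw [h']⟩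
        rw [← Finset.card_image_of_injOn hinj]
        refine torsor_le (by omega) k hk (6 * g * DD s n).natAbs (Int.natAbs_ne_zero.2 hB) _
          (fun x hx => ?_) (fun x hx y hy hxy => ?_)
        · obtain ⟨p, hp, rfl⟩ := Finset.mem_image.1 hx
          have hp' := r1 hp
          refine ⟨mul_ne_zero (hev p hp').1 h00, ?_, fun P hP => ?_⟩
          · have he : e p = e p₀ := congrArg Prod.fst (hτ p hp' p₀ hp₀)
            have he' : e' p = e' p₀ := congrArg Prod.snd (hτ p hp' p₀ hp₀)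
            have key : ∀ r ∈ S, (e' r : ℂ) * ((e r : ℂ) * (w r : ℂ) ^ 2) *
                (eta g (T 1) r * eta g (T 2) r) = -16 * (W r : ℂ) ^ 2 := by
              intro r hr
              have a1 := eta_prod (g := g) hT r
              have a2 : (e' r : ℂ) * (Gf (g * s) (g * n) r.1 r.2 : ℂ) = (W r : ℂ) ^ 2 := by
                exact_mod_cast (hW r hr).2.2
              rw [hE r hr] at a1
              linear_combination (e' r : ℂ) * a1 - 16 * a2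
            have k1 := key p (hS' hp')
            have k2 := key p₀ (hS' hp₀)
            rw [he, he'] at k1
            have n1 : (e p₀ : ℂ) ≠ 0 := by exact_mod_cast left_ne_zero_of_mul (hew p₀ (hS' hp₀)).2.1
            have n2 : (w p₀ : ℂ) ≠ 0 := by exact_mod_cast right_ne_zero_of_mul (hew p₀ (hS' hp₀)).2.1
            have n3 : (w p : ℂ) ≠ 0 := by exact_mod_cast right_ne_zero_of_mul (hew p (hS' hp')).2.1
            have n4 : (e' p₀ : ℂ) ≠ 0 := by exact_mod_cast (hW p₀ (hS' hp₀)).2.1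
            refine ⟨16 * W p * W p₀ / (e' p₀ * e p₀ * w p * w p₀), ?_⟩
            apply Rat.cast_injective (α := ℂ)
            rw [hN]
            simp only [map_mul, hσ1, hσ2]
            push_cast
            field_simp
            linear_combination (-16 * (W p₀ : ℂ) ^ 2) * k1 + ((e' p₀ : ℂ) * ((e p₀ : ℂ) * (w p : ℂ) ^ 2) *
                (eta g (T 1) p * eta g (T 2) p)) * k2
          · have hP' : ((6 * g * DD s n : ℤ) : 𝓞 F) ∉ P.asIdeal := by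
              intro h
              apply hP
              rcases Int.natAbs_eq (6 * g * DD s n) with h' | h'
              · rw [h', Int.cast_natCast] at h
                exact h
              · rw [h', Int.cast_neg, Int.cast_natCast] at h
                exact (Ideal.neg_mem_iff _).1 h
            rw [H32.Tor.mult_mul P (hev p hp').1 h00]
            exact ((hev p hp').2 P hP').add ((hev p₀ hp₀).2 P hP')
        · obtain ⟨p, hp, rfl⟩ := Finset.mem_image.1 hx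
          obtain ⟨q, hq, rfl⟩ := Finset.mem_image.1 hy
          rintro ⟨ρ, hρ⟩
          refine r2 p hp q hq (fun h => hxy (by rw [h])) ⟨ρ / (η p₀ : F), ?_⟩
          simp only [map_mul] at hρ
          field_simp
          linear_combination hρ)
  refine ⟨R, hR1, hR2, hR3.trans ?_⟩
  have := EE_card (6 * g * DD s n)
  rw [Finset.card_product, show 32 = 2 * 2 * 8 by norm_num, mul_pow, mul_pow, mul_assoc (_ * _)]
  gcongr

theorem root_of_sym {K : Type} [Field K] {x y z A B C : K} (h1 : x + y + z = A)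
    (h2 : x * y + x * z + y * z = B) (h3 : x * y * z = C) :
    (x ^ 3 - A * x ^ 2 + B * x - C = 0) ∧ (y ^ 3 - A * y ^ 2 + B * y - C = 0) ∧
      z ^ 3 - A * z ^ 2 + B * z - C = 0 := by
  subst h1 h2 h3
  refine ⟨by ring, by ring, by ring⟩

theorem d_le {a b : ℤ} {X : ℝ} (hX : 1 ≤ X) (ha : |(a : ℝ)| ^ 3 ≤ 8 * X)
    (hb : |(b : ℝ)| ^ 3 ≤ 8 * X) :
    ((a * (a ^ 3 + 8 * b ^ 3)).natAbs : ℝ) ≤ 144 * X ^ ((4 : ℝ) / 3) := by
  have hX0 : 0 ≤ X := by linarith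
  have hY0 : 0 ≤ X ^ ((1 : ℝ) / 3) := Real.rpow_nonneg hX0 _
  have hY3 : (X ^ ((1 : ℝ) / 3)) ^ 3 = X := by
    rw [← Real.rpow_natCast, ← Real.rpow_mul hX0]; norm_num
  have hY4 : X ^ ((4 : ℝ) / 3) = X ^ ((1 : ℝ) / 3) * X := by
    rw [← Real.rpow_add_one (by linarith)]; norm_num
  have ha' : |(a : ℝ)| ≤ 2 * X ^ ((1 : ℝ) / 3) := by
    refine (pow_le_pow_iff_left₀ (abs_nonneg _) (by positivity) three_ne_zero).1 ?_
    rw [mul_pow, hY3]
    linarith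
  rw [Nat.cast_natAbs, hY4]
  push_cast
  rw [abs_mul]
  have h1 : |(a : ℝ) ^ 3 + 8 * (b : ℝ) ^ 3| ≤ 72 * X := by
    refine (abs_add_le _ _).trans ?_
    rw [abs_mul, abs_pow, abs_pow, abs_of_pos (by norm_num : (0 : ℝ) < 8)]
    linarith
  calc |(a : ℝ)| * |(a : ℝ) ^ 3 + 8 * (b : ℝ) ^ 3| ≤ (2 * X ^ ((1 : ℝ) / 3)) * (72 * X) := by
        gcongr
    _ = _ := by ring

end RedAux

open RedAux in
theorem cover_red : ∃ C : ℝ, 0 < C ∧ ∀ (s n : ℤ) (X : ℝ), IsCoprime s n → DD s n ≠ 0 → Red s n →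
    1 ≤ X → |(s : ℝ)| ≤ X → |(n : ℝ)| ≤ X →
    ∃ T : Fin 3 → ℂ, Roots s n T ∧ ∀ (H : ℝ) (g : ℤ), Par H g s n → ∀ S : Finset (ℤ × ℤ),
      (∀ p ∈ S, Box H g s n p) → ∃ R : Finset (ℤ × ℤ), R ⊆ S ∧
        (∀ p ∈ S, ∃ p₀ ∈ R, Rel g T p₀ p) ∧
        (R.card : ℝ) ≤ C * 32 ^ (om (6 * g * DD s n) + 1) * X ^ ((4 : ℝ) / 3) := by
  obtain ⟨C, hC⟩ := sel_quadratic
  refine ⟨576 * C + 1, by positivity, fun s n X hc hD hR hX hs hn => ?_⟩
  obtain ⟨a, b, k, -, -, -, hk2, hks, hkn, ha, hb⟩ := red_param hc hD hR hs hn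
  have hk : k ≠ 0 := by
    rintro rfl
    simp at hk2
  have hX1 : 1 ≤ X ^ ((4 : ℝ) / 3) := Real.one_le_rpow hX (by norm_num)
  obtain ⟨t, ht⟩ : ∃ t : ℚ, t = 4 * b ^ 3 * (2 * a ^ 3 + b ^ 3) / k ^ 2 := ⟨_, rfl⟩
  obtain ⟨u, hu⟩ : ∃ u : ℚ, u = a ^ 3 * (a ^ 3 - 4 * b ^ 3) / (2 * k ^ 2) := ⟨_, rfl⟩
  obtain ⟨v, hv⟩ : ∃ v : ℚ, v = a * (a ^ 3 + 8 * b ^ 3) / (2 * k ^ 2) := ⟨_, rfl⟩
  by_cases hd : IsSquare (a * (a ^ 3 + 8 * b ^ 3))
  · obtain ⟨δ, hδ⟩ := hd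
    have hδ' : (δ : ℚ) ^ 2 = ((a * (a ^ 3 + 8 * b ^ 3) : ℤ) : ℚ) := by
      rw [hδ]; push_cast; ring
    obtain ⟨e1, e2, e3⟩ := sym hk hks hkn hδ' ht hu hv
    simp only [Rat.cast_id] at e1 e2 e3
    obtain ⟨r0, r1, r2⟩ := root_of_sym e1 e2 e3
    obtain ⟨t0, a0, b0⟩ := rat_int (s := s) (n := n) (x := t) (by linear_combination r0)
    obtain ⟨t1, a1, b1⟩ := rat_int (s := s) (n := n) (x := u + v * δ) (by linear_combination r1)
    obtain ⟨t2, a2, b2⟩ := rat_int (s := s) (n := n) (x := u - v * δ) (by linear_combination r2)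
    rw [← a1, ← a2, ← a0] at e1 e2 e3
    have hT : Roots s n fun i => ((![t0, t1, t2] i : ℤ) : ℂ) := by
      constructor
      · simp only [Matrix.cons_val_zero, Matrix.cons_val_one, Matrix.cons_val]
        exact_mod_cast e1
      · simp only [Matrix.cons_val_zero, Matrix.cons_val_one, Matrix.cons_val]
        exact_mod_cast e2
      · simp only [Matrix.cons_val_zero, Matrix.cons_val_one, Matrix.cons_val]
        exact_mod_cast e3
    refine ⟨_, hT, fun H g hP S hS => ?_⟩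
    obtain ⟨R, h1, h2, h3⟩ := split_case hD ![t0, t1, t2]
      (by intro i; fin_cases i; exacts [b0, b1, b2]) hT hP.2.1.ne' S hS
    refine ⟨R, h1, h2, ?_⟩
    have h4 : (R.card : ℝ) ≤ 32 ^ (om (6 * g * DD s n) + 1) := by
      exact_mod_cast h3.trans (Nat.pow_le_pow_left (by norm_num) _)
    calc (R.card : ℝ) ≤ 1 * 32 ^ (om (6 * g * DD s n) + 1) * 1 := by linarith
      _ ≤ _ := by
        gcongr
        have : (0 : ℝ) ≤ C := Nat.cast_nonneg _
        linarith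
  · obtain ⟨F, _, _, δ, h2, hδ⟩ := exists_field hd
    obtain ⟨hspan, σ₁, σ₂, hσ, hN, -⟩ := quad_data h2 hd hδ
    have hδc : σ₁ δ ^ 2 = ((a * (a ^ 3 + 8 * b ^ 3) : ℤ) : ℂ) := by
      rw [← map_pow, hδ, map_intCast]
    obtain ⟨e1, e2, e3⟩ := sym hk hks hkn hδc ht hu hv
    obtain ⟨f1, f2, f3⟩ := sym hk hks hkn hδ ht hu hv
    obtain ⟨r0, r1, -⟩ := root_of_sym f1 f2 f3
    obtain ⟨t0, a0, b0⟩ := rat_int (s := s) (n := n) (x := t) (by
      apply Rat.cast_injective (α := F)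
      push_cast
      linear_combination r0)
    have hT : Roots s n ![(t : ℂ), u + v * σ₁ δ, u - v * σ₁ δ] := ⟨e1, e2, e3⟩
    refine ⟨_, hT, fun H g hP S hS => ?_⟩
    obtain ⟨R, h1, h3, h4⟩ := field_case hD h2 (hC F h2) hspan hσ hN hδ b0 (u := u) (v := v)
      (by linear_combination r1) hT (by simp [← a0]) rfl rfl hP.2.1.ne' S hS
    refine ⟨R, h1, h3, ?_⟩
    have h5 : ((discr F).natAbs : ℝ) ≤ 4 * (144 * X ^ ((4 : ℝ) / 3)) := by
      have h6 : ((discr F).natAbs : ℝ) ≤ 4 * ((a * (a ^ 3 + 8 * b ^ 3)).natAbs : ℝ) := by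
        exact_mod_cast quad_discr h2 hd hδ
      linarith [d_le hX ha hb]
    have h7 : (R.card : ℝ) ≤ 32 ^ (om (6 * g * DD s n) + 1) * (C * ((discr F).natAbs : ℝ)) := by
      exact_mod_cast h4
    calc (R.card : ℝ) ≤ 32 ^ (om (6 * g * DD s n) + 1) * (C * (4 * (144 * X ^ ((4 : ℝ) / 3)))) :=
          h7.trans (by gcongr)
      _ = (576 * C) * 32 ^ (om (6 * g * DD s n) + 1) * X ^ ((4 : ℝ) / 3) := by ring
      _ ≤ _ := by gcongr; linarith

end Pool.Agent.Lib.MP_af4c59_nt.K9
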