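import Pool.Agent.Lib.MP_af4c59_nt.K9Defs

/-!
The rank of the group of units outside a finite set of primes.
-/

set_option autoImplicit false

namespace Pool.Agent.Lib.MP_af4c59_nt.K9

open NumberField Module IsDedekindDomain

namespace SUnitAux

variable {K : Type} [Field K] [NumberField K]

/-- An integer that lies in one prime only. -/
theorem exists_only (v : HeightOneSpectrum (𝓞 K)) :
    ∃ a : 𝓞 K, a ≠ 0 ∧ a ∈ v.asIdeal ∧ ∀ w : HeightOneSpectrum (𝓞 K), w ≠ v → a ∉ w.asIdeal := by
  classical
  have hpos : 0 < Fintype.card (ClassGroup (𝓞 K)) := Fintype.card_pos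
  have hmem : v.asIdeal ^ Fintype.card (ClassGroup (𝓞 K)) ∈ nonZeroDivisors (Ideal (𝓞 K)) :=
    pow_mem (mem_nonZeroDivisors_of_ne_zero v.ne_bot) _
  have h1 : ClassGroup.mk0 ⟨_, hmem⟩ = 1 := by
    have : (⟨_, hmem⟩ : nonZeroDivisors (Ideal (𝓞 K))) =
        (⟨v.asIdeal, mem_nonZeroDivisors_of_ne_zero v.ne_bot⟩ :
          nonZeroDivisors (Ideal (𝓞 K))) ^ Fintype.card (ClassGroup (𝓞 K)) := rfl
    rw [this, map_pow, pow_card_eq_one]
  obtain ⟨a, ha⟩ := (ClassGroup.mk0_eq_one_iff hmem).1 h1
  have ha' : v.asIdeal ^ Fintype.card (ClassGroup (𝓞 K)) = Ideal.span {a} := ha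
  refine ⟨a, ?_, ?_, fun w hw hmw => hw ?_⟩
  · rintro rfl
    rw [Ideal.span_singleton_zero] at ha'
    exact v.ne_bot (pow_eq_zero_iff hpos.ne' |>.1 ha')
  · exact Ideal.pow_le_self hpos.ne' (ha' ▸ Ideal.mem_span_singleton_self a)
  · have h2 : v.asIdeal ^ Fintype.card (ClassGroup (𝓞 K)) ≤ w.asIdeal := by
      rw [ha', Ideal.span_singleton_le_iff_mem]
      exact hmw
    have h3 : v.asIdeal ≤ w.asIdeal := Ideal.IsPrime.le_of_pow_le h2
    exact (HeightOneSpectrum.ext (v.isMaximal.eq_of_le w.isPrime.ne_top h3)).symm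

/-- The valuations at the primes of `S`. -/
noncomputable def val (S : Finset (HeightOneSpectrum (𝓞 K))) :
    Additive ((S : Set (HeightOneSpectrum (𝓞 K))).unit K) →ₗ[ℤ] (S → ℤ) :=
  AddMonoidHom.toIntLinearMap
    { toFun := fun x v =>
        Multiplicative.toAdd (v.1.valuationOfNeZero ((Additive.toMul x).1 : Kˣ))
      map_zero' := by
        funext v
        simp
      map_add' := fun x y => by
        funext v
        simp }

theorem val_apply (S : Finset (HeightOneSpectrum (𝓞 K)))
    (x : Additive ((S : Set (HeightOneSpectrum (𝓞 K))).unit K)) (v : S) :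
    val S x v = Multiplicative.toAdd (v.1.valuationOfNeZero ((Additive.toMul x).1 : Kˣ)) := rfl

theorem val_eq_zero_iff (S : Finset (HeightOneSpectrum (𝓞 K)))
    (x : Additive ((S : Set (HeightOneSpectrum (𝓞 K))).unit K)) (v : S) :
    val S x v = 0 ↔ v.1.valuation K (((Additive.toMul x).1 : Kˣ) : K) = 1 := by
  rw [val_apply, toAdd_eq_zero, ← HeightOneSpectrum.valuationOfNeZero_eq, ← WithZero.coe_one,
    WithZero.coe_inj]

theorem val_unit (v : HeightOneSpectrum (𝓞 K)) (u : (𝓞 K)ˣ) :
    v.valuation K ((Units.map (algebraMap (𝓞 K) K : 𝓞 K →* K) u : Kˣ) : K) = 1 := by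
  rw [← HeightOneSpectrum.valuationOfNeZero_eq, HeightOneSpectrum.valuation_of_unit_eq]
  rfl

/-- The inclusion of the units. -/
noncomputable def inc (S : Finset (HeightOneSpectrum (𝓞 K))) :
    Additive (𝓞 K)ˣ →ₗ[ℤ] Additive ((S : Set (HeightOneSpectrum (𝓞 K))).unit K) :=
  AddMonoidHom.toIntLinearMap (MonoidHom.toAdditive
    ((Units.map (algebraMap (𝓞 K) K : 𝓞 K →* K)).codRestrict _ fun u v _ => val_unit v u))

theorem inc_apply (S : Finset (HeightOneSpectrum (𝓞 K))) (u : Additive (𝓞 K)ˣ) :
    ((Additive.toMul (inc S u)).1 : Kˣ) =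
      Units.map (algebraMap (𝓞 K) K : 𝓞 K →* K) (Additive.toMul u) := rfl

theorem inc_injective (S : Finset (HeightOneSpectrum (𝓞 K))) : Function.Injective (inc S) := by
  intro u u' h
  have h1 := congrArg (fun x => ((Additive.toMul x).1 : Kˣ)) h
  simp only [inc_apply] at h1
  exact Additive.toMul.injective
    (Units.map_injective (f := (algebraMap (𝓞 K) K : 𝓞 K →* K))
      (IsFractionRing.injective (𝓞 K) K) h1)

theorem range_inc (S : Finset (HeightOneSpectrum (𝓞 K))) :
    LinearMap.range (inc S) = LinearMap.ker (val S) := by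
  ext x
  rw [LinearMap.mem_ker, LinearMap.mem_range]
  constructor
  · rintro ⟨u, rfl⟩
    funext v
    exact (val_eq_zero_iff S _ v).2 (val_unit v.1 _)
  · intro h
    have h1 : ∀ v : HeightOneSpectrum (𝓞 K),
        v.valuation K (((Additive.toMul x).1 : Kˣ) : K) = 1 := fun v => by
      by_cases hv : v ∈ S
      · exact (val_eq_zero_iff S x ⟨v, hv⟩).1 (congrFun h _)
      · exact (Additive.toMul x).2 v hv
    obtain ⟨a, ha⟩ := HeightOneSpectrum.mem_integers_of_valuation_le_one K
      (((Additive.toMul x).1 : Kˣ) : K) fun v => (h1 v).le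
    obtain ⟨b, hb⟩ := HeightOneSpectrum.mem_integers_of_valuation_le_one K
      ((((Additive.toMul x).1 : Kˣ)⁻¹ : Kˣ) : K) fun v => by
        rw [Units.val_inv_eq_inv_val, map_inv₀, h1 v, inv_one]
    have hab : a * b = 1 := by
      apply IsFractionRing.injective (𝓞 K) K
      rw [map_mul, ha, hb, map_one, Units.mul_inv]
    refine ⟨Additive.ofMul (Units.mkOfMulEqOne a b hab), ?_⟩
    apply Additive.toMul.injective
    apply Subtype.ext
    apply Units.ext
    exact ha

theorem finrank_range_val (S : Finset (HeightOneSpectrum (𝓞 K))) :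
    finrank ℤ (LinearMap.range (val S)) = S.card := by
  classical
  refine le_antisymm ?_ ?_
  · simpa using Submodule.finrank_le (LinearMap.range (val S))
  · choose a ha0 ha1 ha2 using exists_only (K := K)
    have hK : ∀ v, algebraMap (𝓞 K) K (a v) ≠ 0 := fun v => by
      simpa using ha0 v
    let x : S → Additive ((S : Set (HeightOneSpectrum (𝓞 K))).unit K) := fun v =>
      Additive.ofMul ⟨Units.mk0 _ (hK v.1), fun w hw =>
        (HeightOneSpectrum.valuation_eq_one_iff_notMem w).2
          (ha2 v.1 w fun h => hw (h ▸ v.2))⟩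
    have hx : ∀ v w : S, val S (x v) w = 0 ↔ a v.1 ∉ w.1.asIdeal := fun v w =>
      (val_eq_zero_iff S _ w).trans (HeightOneSpectrum.valuation_eq_one_iff_notMem w.1)
    have hli : LinearIndependent ℤ fun v : S =>
        (⟨val S (x v), LinearMap.mem_range_self _ _⟩ : LinearMap.range (val S)) := by
      apply LinearIndependent.of_comp (LinearMap.range (val S)).subtype
      rw [Fintype.linearIndependent_iff]
      intro g hg w
      have h1 := congrFun hg w
      rw [Finset.sum_apply, Finset.sum_eq_single w] at h1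
      · have h2 : val S (x w) w ≠ 0 := fun h => (hx w w).1 h (ha1 w.1)
        simpa [h2] using h1
      · intro v _ hv
        have h2 : val S (x v) w = 0 :=
          (hx v w).2 (ha2 v.1 w.1 fun h => hv (Subtype.ext h).symm)
        simp [h2]
      · simp
    simpa using hli.fintype_card_le_finrank

end SUnitAux

open SUnitAux in
theorem sunit_rank (K : Type) [Field K] [NumberField K] (S : Finset (HeightOneSpectrum (𝓞 K))) :
    Module.Finite ℤ (Additive ((S : Set (HeightOneSpectrum (𝓞 K))).unit K)) ∧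
      finrank ℤ (Additive ((S : Set (HeightOneSpectrum (𝓞 K))).unit K)) =
        Units.rank K + S.card := by
  have hfin : Module.Finite ℤ (Additive ((S : Set (HeightOneSpectrum (𝓞 K))).unit K)) := by
    refine ⟨Submodule.fg_of_fg_map_of_fg_inf_ker (val S) (IsNoetherian.noetherian _) ?_⟩
    rw [top_inf_eq, ← range_inc, LinearMap.range_eq_map]
    exact Submodule.FG.map _ Module.Finite.fg_top
  refine ⟨hfin, ?_⟩
  have h1 := (LinearMap.ker (val S)).finrank_quotient_add_finrank
  rw [(val S).quotKerEquivRange.finrank_eq, finrank_range_val, ← range_inc,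
    ← (LinearEquiv.ofInjective _ (inc_injective S)).finrank_eq, Units.finrank_eq] at h1
  omega

end Pool.Agent.Lib.MP_af4c59_nt.K9
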