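import Pool.Agent.Lib.MP_af4c59_nt.K9Defs
import Pool.Agent.Shared.Subspace.Lattice

/-!
A short vector in a lattice of rank three given by three complex linear forms that are permuted
by conjugation.
-/

set_option autoImplicit false

namespace Pool.Agent.Lib.MP_af4c59_nt.K9.SmallAux

open Matrix

theorem short_real : ∃ C : ℝ, 0 < C ∧ ∀ R : Matrix (Fin 3) (Fin 3) ℝ, R.det ≠ 0 →
    ∃ x : Fin 3 → ℤ, x ≠ 0 ∧ ∀ j, |∑ k, (x k : ℝ) * R k j| ^ 3 ≤ C * |R.det| := by
  obtain ⟨C, hC, hred⟩ := Pool.Agent.Subspace.lattice_reduction 3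
  refine ⟨C ^ 4, by positivity, fun R hR => ?_⟩
  have hli : LinearIndependent ℝ R.row := Matrix.linearIndependent_rows_of_det_ne_zero hR
  let b : Module.Basis (Fin 3) ℝ (Fin 3 → ℝ) :=
    basisOfLinearIndependentOfCardEqFinrank hli (by simp)
  have hb : ∀ k, b k = R k := fun k => by
    exact congrFun (coe_basisOfLinearIndependentOfCardEqFinrank hli _) k
  have hmem : ∀ k, R k ∈ (Submodule.span ℤ (Set.range b)).toAddSubgroup := fun k =>
    Submodule.subset_span ⟨k, hb k⟩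
  obtain ⟨v, pm, lam, hv, hgen, hpos, hmono, hbd, hprod⟩ :=
    hred (Submodule.span ℤ (Set.range b)).toAddSubgroup
      (fun r => (ZSpan.setFinite_inter b (Metric.isBounded_closedBall (x := 0) (r := r))).subset
        (fun x hx => ⟨by simpa using hx.2, hx.1⟩))
      (fun w hw => eq_zero_of_mulVec_eq_zero hR (funext fun k => by
        have := hw _ (hmem k)
        rw [dotProduct_comm] at this
        exact this))
  choose t ht using fun k => hgen _ (hmem k)
  have hd : R.det = ((Matrix.of t).det : ℝ) * (Matrix.of v).det := by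
    have h1 : R = (Int.castRingHom ℝ).mapMatrix (Matrix.of t) * Matrix.of v := by
      ext k i
      have := congrFun (ht k) i
      simp only [Finset.sum_apply, zsmul_eq_mul] at this
      simp [Matrix.mul_apply, this]
    conv_lhs => rw [h1]
    rw [det_mul, ← RingHom.map_det]
    rfl
  have ht0 : (Matrix.of t).det ≠ 0 := fun h0 => hR (by rw [hd, h0]; simp)
  have hv0 : (Matrix.of v).det ≠ 0 := fun h0 => hR (by rw [hd, h0]; simp)
  have hle : |(Matrix.of v).det| ≤ |R.det| := by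
    rw [hd, abs_mul]
    refine le_mul_of_one_le_left (abs_nonneg _) ?_
    exact_mod_cast Int.one_le_abs ht0
  obtain ⟨x, hx⟩ := (Submodule.mem_span_range_iff_exists_fun ℤ).1 (hv 0)
  refine ⟨x, fun h0 => hv0 (det_eq_zero_of_row_eq_zero 0 fun i => ?_), fun j => ?_⟩
  · have := congrFun hx i
    simpa [h0] using this.symm
  · have h1 := congrFun hx j
    have h1' : ∑ k, (x k : ℝ) * R k j = v 0 j := by
      rw [← h1, Finset.sum_apply]
      exact Finset.sum_congr rfl fun k _ => by rw [hb, Pi.smul_apply, zsmul_eq_mul]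
    rw [h1']
    have h2 := hbd (pm.symm j) 0
    rw [Equiv.apply_symm_apply] at h2
    have h3 : |v 0 j| ≤ C * lam 0 :=
      h2.trans (mul_le_mul_of_nonneg_left (min_le_right _ _) (by linarith))
    have h4 : lam 0 ^ 3 ≤ ∏ k, lam k := by
      rw [Fin.prod_univ_three]
      have a1 : lam 0 ≤ lam 1 := hmono (by decide)
      have a2 : lam 0 ≤ lam 2 := hmono (by decide)
      have a0 := hpos 0
      calc lam 0 ^ 3 = lam 0 * lam 0 * lam 0 := by ring
        _ ≤ _ := by gcongr; exact le_trans a0.le a1 |> fun h => mul_nonneg a0.le h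
    calc |v 0 j| ^ 3 ≤ (C * lam 0) ^ 3 := by gcongr
      _ = C ^ 3 * lam 0 ^ 3 := by ring
      _ ≤ C ^ 3 * (C * |R.det|) := by
        gcongr
        exact h4.trans (hprod.trans (by gcongr))
      _ = _ := by ring

theorem dot_eq (σ : Equiv.Perm (Fin 3)) (u w : Fin 3 → ℂ)
    (hu : ∀ j, u (σ j) = (starRingEnd ℂ) (u j)) (hw : ∀ j, w (σ j) = (starRingEnd ℂ) (w j)) :
    ((∑ j, ((u j).re + (u j).im) * ((w j).re + (w j).im) : ℝ) : ℂ) =
      ∑ j, u j * (starRingEnd ℂ) (w j) := by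
  have k1 := Equiv.sum_comp σ fun i => (u i).re * (w i).im
  have k2 := Equiv.sum_comp σ fun i => (w i).re * (u i).im
  simp only [hu, hw, Complex.conj_re, Complex.conj_im, mul_neg, Finset.sum_neg_distrib] at k1 k2
  simp only [Fin.sum_univ_three] at k1 k2 ⊢
  apply Complex.ext
  · simp only [Complex.ofReal_re, Complex.add_re, Complex.mul_re, Complex.conj_re, Complex.conj_im]
    linarith
  · simp only [Complex.ofReal_im, Complex.add_im, Complex.mul_im, Complex.conj_re, Complex.conj_im]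
    linarith

theorem short3 : ∃ C : ℝ, 0 < C ∧ ∀ (E : Matrix (Fin 3) (Fin 3) ℂ) (σ : Equiv.Perm (Fin 3)),
    (∀ k j, E k (σ j) = (starRingEnd ℂ) (E k j)) → E.det ≠ 0 →
    ∃ x : Fin 3 → ℤ, x ≠ 0 ∧ ∀ j, ‖∑ k, (x k : ℂ) * E k j‖ ^ 6 ≤ C * ‖E.det‖ ^ 2 := by
  obtain ⟨C, hC, h⟩ := short_real
  refine ⟨27 * C ^ 2, by positivity, fun E σ hσ hE => ?_⟩
  set R : Matrix (Fin 3) (Fin 3) ℝ := Matrix.of fun k j => (E k j).re + (E k j).im with hR
  have h1 : Complex.ofRealHom.mapMatrix (R * Rᵀ) = E * Eᴴ := by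
    ext i j
    exact dot_eq σ (E i) (E j) (hσ i) (hσ j)
  have h2 := congrArg Matrix.det h1
  rw [← RingHom.map_det, det_mul, det_mul, det_transpose, det_conjTranspose,
    Complex.star_def, Complex.mul_conj, Complex.normSq_eq_norm_sq] at h2
  have h3 : R.det * R.det = ‖E.det‖ ^ 2 := Complex.ofReal_injective h2
  have hR0 : R.det ≠ 0 := fun h0 => hE (by
    rw [h0, mul_zero] at h3
    exact norm_eq_zero.1 (pow_eq_zero_iff two_ne_zero |>.1 h3.symm))
  obtain ⟨x, hx0, hx⟩ := h R hR0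
  refine ⟨x, hx0, fun j => ?_⟩
  set z : Fin 3 → ℂ := fun j => ∑ k, (x k : ℂ) * E k j with hz
  have hzσ : ∀ j, z (σ j) = (starRingEnd ℂ) (z j) := fun j => by
    simp only [hz, hσ, map_sum, map_mul, map_intCast]
  have h4 := dot_eq σ z z hzσ hzσ
  simp only [Complex.mul_conj, Complex.normSq_eq_norm_sq] at h4
  have h5 : ∑ j, ((z j).re + (z j).im) * ((z j).re + (z j).im) = ∑ j, ‖z j‖ ^ 2 := by
    exact_mod_cast h4
  have h6 : ∀ j, (z j).re + (z j).im = ∑ k, (x k : ℝ) * R k j := fun j => by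
    simp only [hz, hR, Fin.sum_univ_three, Complex.add_re, Complex.add_im, Complex.mul_re,
      Complex.mul_im, Complex.intCast_re, Complex.intCast_im, Matrix.of_apply]
    ring
  obtain ⟨m, hm0, hm⟩ : ∃ m : ℝ, 0 ≤ m ∧ m ^ 3 = C * |R.det| :=
    ⟨(C * |R.det|) ^ ((3 : ℕ) : ℝ)⁻¹, by positivity,
      Real.rpow_inv_natCast_pow (by positivity) (by norm_num)⟩
  have h7 : ∀ j, ((z j).re + (z j).im) * ((z j).re + (z j).im) ≤ m ^ 2 := fun j => by
    have a1 := hx j
    rw [← h6, ← hm] at a1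
    have a2 := (pow_le_pow_iff_left₀ (abs_nonneg _) hm0 (by norm_num : (3 : ℕ) ≠ 0)).1 a1
    rw [← sq, ← sq_abs]
    gcongr
  have h8 : ‖z j‖ ^ 2 ≤ 3 * m ^ 2 := by
    have a1 : ‖z j‖ ^ 2 ≤ ∑ j, ‖z j‖ ^ 2 :=
      Finset.single_le_sum (f := fun j => ‖z j‖ ^ 2) (fun i _ => by positivity) (Finset.mem_univ j)
    rw [← h5, Fin.sum_univ_three] at a1
    linarith [h7 0, h7 1, h7 2]
  calc ‖z j‖ ^ 6 = (‖z j‖ ^ 2) ^ 3 := by ring
    _ ≤ (3 * m ^ 2) ^ 3 := by gcongr
    _ = 27 * (m ^ 3) ^ 2 := by ring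
    _ = _ := by rw [hm, mul_pow, sq_abs, sq R.det, h3]; ring

/-- A subgroup of finite index of `ℤ ^ 3` contains three vectors whose determinant is the index. -/
theorem exists_family (L : AddSubgroup (Fin 3 → ℤ)) (hL : L.index ≠ 0) :
    ∃ a : Matrix (Fin 3) (Fin 3) ℤ, (∀ k, a k ∈ L) ∧ a.det.natAbs = L.index := by
  have hfin : Finite ((Fin 3 → ℤ) ⧸ L.toIntSubmodule) := by
    have : L.FiniteIndex := ⟨hL⟩
    exact (inferInstance : Finite ((Fin 3 → ℤ) ⧸ L))
  have hr : Module.finrank ℤ L.toIntSubmodule = 3 := by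
    rw [(Submodule.finiteQuotient_iff _).1 hfin]; simp
  let bL := Module.finBasisOfFinrankEq ℤ L.toIntSubmodule hr
  have h := Submodule.natAbs_det_basis_change (Pi.basisFun ℤ (Fin 3)) L.toIntSubmodule bL
  refine ⟨Matrix.of fun k => (bL k : Fin 3 → ℤ), fun k => (bL k).2, ?_⟩
  rw [Pi.basisFun_det_apply] at h
  exact h

end Pool.Agent.Lib.MP_af4c59_nt.K9.SmallAux
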