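import Pool.Agent.Lib.MP_af4c59_nt.K9Small1

/-!
The cubic field generated by a root of `n r ^ 3 - s r + 2 n`: basis, embeddings, order.
-/

set_option autoImplicit false

namespace Pool.Agent.Lib.MP_af4c59_nt.K9.SmallAux

open NumberField Module Polynomial

variable {A : Type} [Field A] [NumberField A] {s n : ℤ} {r : A}

theorem indep (h : Gen A s n r) (a b c : ℚ) (h0 : (a : A) + b * r + c * r ^ 2 = 0) :
    a = 0 ∧ b = 0 ∧ c = 0 := by
  have hint : IsIntegral ℚ r := Algebra.IsIntegral.isIntegral r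
  have hd : (minpoly ℚ r).natDegree ∣ 3 := h.rank ▸ minpoly.degree_dvd hint
  have h3 : (minpoly ℚ r).natDegree = 3 := by
    rcases (Nat.dvd_prime Nat.prime_three).1 hd with h1 | h1
    · obtain ⟨q, hq⟩ := minpoly.natDegree_eq_one_iff.1 h1
      exact absurd hq.symm (h.irr q)
    · exact h1
  have hp : (C c * X ^ 2 + C b * X + C a : ℚ[X]) = 0 := by
    by_contra hne
    have h1 := minpoly.degree_le_of_ne_zero ℚ r hne (by
      simp only [map_add, map_mul, aeval_C, aeval_X_pow, aeval_X, eq_ratCast]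
      linear_combination h0)
    have h2 := natDegree_le_natDegree h1
    have h4 : (C c * X ^ 2 + C b * X + C a : ℚ[X]).natDegree ≤ 2 := natDegree_quadratic_le
    omega
  have c0 := congrArg (fun p => coeff p 0) hp
  have c1 := congrArg (fun p => coeff p 1) hp
  have c2 := congrArg (fun p => coeff p 2) hp
  simp [coeff_X, coeff_C] at c0 c1 c2
  exact ⟨c0, c1, c2⟩

theorem span (h : Gen A s n r) (y : A) : ∃ a b c : ℚ, y = a + b * r + c * r ^ 2 := by
  have hli : LinearIndependent ℚ ![(1 : A), r, r ^ 2] := by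
    rw [Fintype.linearIndependent_iff]
    intro g hg
    simp only [Fin.sum_univ_three, Matrix.cons_val_zero, Matrix.cons_val_one, Matrix.cons_val,
      Algebra.smul_def, eq_ratCast, mul_one] at hg
    obtain ⟨a0, a1, a2⟩ := indep h _ _ _ hg
    intro i
    fin_cases i <;> assumption
  let b := basisOfLinearIndependentOfCardEqFinrank hli (by simp [h.rank])
  have hb : (b : Fin 3 → A) = ![(1 : A), r, r ^ 2] :=
    coe_basisOfLinearIndependentOfCardEqFinrank hli _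
  refine ⟨b.repr y 0, b.repr y 1, b.repr y 2, ?_⟩
  conv_lhs => rw [← b.sum_repr y]
  simp [Fin.sum_univ_three, hb, Algebra.smul_def]

/-- The three complex embeddings. -/
structure Tri (s n : ℤ) (r : A) (φ : Fin 3 → (A →ₐ[ℚ] ℂ)) (σ : Equiv.Perm (Fin 3)) : Prop where
  bij : Function.Bijective φ
  inj : Function.Injective fun j => φ j r
  conj : ∀ j x, φ (σ j) x = (starRingEnd ℂ) (φ j x)
  e1 : φ 0 r + φ 1 r + φ 2 r = 0
  e2 : (n : ℂ) * (φ 0 r * φ 1 r + φ 0 r * φ 2 r + φ 1 r * φ 2 r) = -s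
  e3 : φ 0 r * φ 1 r * φ 2 r = -2

theorem exists_tri (h : Gen A s n r) (hn : n ≠ 0) : ∃ φ σ, Tri s n r φ σ := by
  have hc : Fintype.card (A →ₐ[ℚ] ℂ) = 3 := by rw [AlgHom.card, h.rank]
  let e := (Fintype.equivFinOfCardEq hc).symm
  have hinj : Function.Injective fun j => e j r := by
    intro i j hij
    apply e.injective
    ext y
    obtain ⟨a, b, c, rfl⟩ := span h y
    have hij' : e i r = e j r := hij
    simp only [map_add, map_mul, map_pow, map_ratCast, hij']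
  let cj : (A →ₐ[ℚ] ℂ) → (A →ₐ[ℚ] ℂ) := fun ψ =>
    (Complex.conjAe.toAlgHom.restrictScalars ℚ).comp ψ
  have hcj : Function.Involutive cj := fun ψ => by
    ext y
    simp [cj]
  have hroot : ∀ j, (n : ℂ) * e j r ^ 3 - s * e j r + 2 * n = 0 := fun j => by
    have := congrArg (e j) h.root
    simpa only [map_add, map_sub, map_mul, map_pow, map_intCast, map_ofNat, map_zero] using this
  have hn' : (n : ℂ) ≠ 0 := by exact_mod_cast hn
  have d01 : e 0 r - e 1 r ≠ 0 := sub_ne_zero.2 fun h' => absurd (hinj h') (by decide)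
  have d02 : e 0 r - e 2 r ≠ 0 := sub_ne_zero.2 fun h' => absurd (hinj h') (by decide)
  have d12 : e 1 r - e 2 r ≠ 0 := sub_ne_zero.2 fun h' => absurd (hinj h') (by decide)
  have r0 := hroot 0
  have r1 := hroot 1
  have r2 := hroot 2
  have q01 : (n : ℂ) * (e 0 r ^ 2 + e 0 r * e 1 r + e 1 r ^ 2) - s = 0 :=
    (mul_eq_zero.1 (show (e 0 r - e 1 r) * _ = 0 by linear_combination r0 - r1)).resolve_left d01
  have q02 : (n : ℂ) * (e 0 r ^ 2 + e 0 r * e 2 r + e 2 r ^ 2) - s = 0 :=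
    (mul_eq_zero.1 (show (e 0 r - e 2 r) * _ = 0 by linear_combination r0 - r2)).resolve_left d02
  have e1 : e 0 r + e 1 r + e 2 r = 0 :=
    (mul_eq_zero.1 (show ((n : ℂ) * (e 1 r - e 2 r)) * _ = 0 by
      linear_combination q01 - q02)).resolve_left (mul_ne_zero hn' d12)
  have e2 : (n : ℂ) * (e 0 r * e 1 r + e 0 r * e 2 r + e 1 r * e 2 r) = -s := by
    linear_combination -q01 + (n : ℂ) * (e 0 r + e 1 r) * e1
  refine ⟨e, e.trans (hcj.toPerm.trans e.symm), e.bijective, hinj, fun j x => ?_, e1, e2, ?_⟩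
  · simp [cj]
  · apply mul_left_cancel₀ hn'
    linear_combination r0 - (n : ℂ) * e 0 r ^ 2 * e1 + e 0 r * e2

variable {φ : Fin 3 → (A →ₐ[ℚ] ℂ)} {σ : Equiv.Perm (Fin 3)}

theorem Tri.trace (h : Tri s n r φ σ) (x : A) :
    ((Algebra.trace ℚ A x : ℚ) : ℂ) = φ 0 x + φ 1 x + φ 2 x := by
  have h1 := trace_eq_sum_embeddings ℂ (K := ℚ) (L := A) (x := x)
  rw [← (Equiv.ofBijective φ h.bij).sum_comp, Fin.sum_univ_three] at h1
  exact h1

theorem Tri.norm (h : Tri s n r φ σ) (x : A) :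
    ((Algebra.norm ℚ x : ℚ) : ℂ) = φ 0 x * φ 1 x * φ 2 x := by
  have h1 := Algebra.norm_eq_prod_embeddings ℚ ℂ x
  rw [← (Equiv.ofBijective φ h.bij).prod_comp, Fin.prod_univ_three] at h1
  exact h1

theorem Tri.norm_qv (h : Tri s n r φ σ) (q : ℤ × ℤ × ℤ) :
    ((QN q s n : ℤ) : ℚ) = (n : ℚ) ^ 2 * Algebra.norm ℚ (qv q r) := by
  have : (((QN q s n : ℤ) : ℚ) : ℂ) = (((n : ℚ) ^ 2 * Algebra.norm ℚ (qv q r) : ℚ) : ℂ) := by
    rw [Rat.cast_mul, h.norm]
    have e1 := h.e1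
    have e2 := h.e2
    have e3 := h.e3
    have hs : (s : ℂ) = -((n : ℂ) * (φ 0 r * φ 1 r + φ 0 r * φ 2 r + φ 1 r * φ 2 r)) := by
      linear_combination e2
    have h2 : φ 2 r = -φ 0 r - φ 1 r := by linear_combination e1
    simp only [QN, qv, map_add, map_mul, map_pow, map_intCast]
    push_cast
    rw [hs]
    rw [h2] at e3 ⊢
    generalize φ 0 r = x at e3 ⊢
    generalize φ 1 r = y at e3 ⊢
    generalize (q.1 : ℂ) = a
    generalize (q.2.1 : ℂ) = b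
    generalize (q.2.2 : ℂ) = c
    linear_combination (n : ℂ) ^ 2 * (3 * a * b * c - b ^ 3 +
      b * c ^ 2 * (x ^ 2 + x * y + y ^ 2) - c ^ 3 * (x * y * (-x - y) - 2)) * e3
  exact_mod_cast this

theorem int_theta (h : Gen A s n r) : IsIntegral ℤ ((n : A) * r) := by
  refine ⟨X ^ 3 + (C (-(s * n)) * X + C (2 * n ^ 3)), ?_, ?_⟩
  · refine monic_X_pow_add (lt_of_le_of_lt degree_linear_le (by norm_num))
  · simp only [eval₂_add, eval₂_mul, eval₂_pow, eval₂_X, eval₂_C]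
    simp only [eq_intCast]
    push_cast
    linear_combination (n : A) ^ 2 * h.root

theorem tr_int (x : 𝓞 A) : ∃ m : ℤ, Algebra.trace ℚ A (x : A) = m :=
  ⟨Algebra.trace ℤ (𝓞 A) x, (Algebra.coe_trace_int x).symm⟩

/-- The discriminant of `n r` carries the ring of integers into the order. -/
theorem disc_mul (h : Gen A s n r) (hn : n ≠ 0) (y : 𝓞 A) : ∃ a b c : ℤ,
    ((4 * n ^ 2 * DD s n : ℤ) : A) * y = a + b * (n * r) + c * (n * r) ^ 2 := by
  obtain ⟨φ, σ, ht⟩ := exists_tri h hn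
  obtain ⟨a, b, c, hy⟩ := span h (y : A)
  let θ : 𝓞 A := ⟨n * r, int_theta h⟩
  have hθ : (θ : A) = n * r := rfl
  obtain ⟨m0, h0⟩ := tr_int y
  obtain ⟨m1, h1⟩ := tr_int (y * θ)
  obtain ⟨m2, h2⟩ := tr_int (y * θ ^ 2)
  have e1 := ht.e1
  have e2 := ht.e2
  have e3 := ht.e3
  have t0 := ht.trace (y : A)
  have t1 := ht.trace ((y * θ : 𝓞 A) : A)
  have t2 := ht.trace ((y * θ ^ 2 : 𝓞 A) : A)
  rw [h0] at t0
  rw [h1] at t1
  rw [h2] at t2
  simp only [map_mul, map_pow] at t1 t2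
  change _ = φ 0 (y : A) * φ 0 (θ : A) + φ 1 (y : A) * φ 1 (θ : A) + φ 2 (y : A) * φ 2 (θ : A) at t1
  change _ = φ 0 (y : A) * φ 0 (θ : A) ^ 2 + φ 1 (y : A) * φ 1 (θ : A) ^ 2 +
    φ 2 (y : A) * φ 2 (θ : A) ^ 2 at t2
  rw [hθ] at t1 t2
  rw [hy] at t0 t1 t2
  simp only [map_add, map_mul, map_pow, map_ratCast, map_intCast, Rat.cast_intCast] at t0 t1 t2
  have hs : (s : ℂ) = -((n : ℂ) * (φ 0 r * φ 1 r + φ 0 r * φ 2 r + φ 1 r * φ 2 r)) := by
    linear_combination e2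
  have h2' : φ 2 r = -φ 0 r - φ 1 r := by linear_combination e1
  rw [h2'] at t0 t1 t2 hs e3
  generalize φ 0 r = u at t0 t1 t2 hs e3
  generalize φ 1 r = v at t0 t1 t2 hs e3
  have u0 : (n : ℂ) * m0 = 3 * n * a + 2 * s * c := by
    rw [t0, hs]; ring
  have u1 : (m1 : ℂ) = 2 * s * b - 6 * n * c := by
    rw [t1, hs]; linear_combination 3 * (n : ℂ) * c * e3
  have u2 : (m2 : ℂ) = 2 * s * n * a - 6 * n ^ 2 * b + 2 * s ^ 2 * c := by
    rw [t2, hs]; linear_combination 3 * (n : ℂ) ^ 2 * b * e3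
  have v0 : (n : ℚ) * m0 = 3 * n * a + 2 * s * c := by exact_mod_cast u0
  have v1 : (m1 : ℚ) = 2 * s * b - 6 * n * c := by exact_mod_cast u1
  have v2 : (m2 : ℚ) = 2 * s * n * a - 6 * n ^ 2 * b + 2 * s ^ 2 * c := by exact_mod_cast u2
  have hn' : (n : ℚ) ≠ 0 := by exact_mod_cast hn
  have w0 : (4 * n ^ 2 * (n * (s ^ 3 - 27 * n ^ 3)) : ℚ) * a =
      (4 * s ^ 3 * n ^ 3 - 36 * n ^ 6) * m0 - 12 * s * n ^ 4 * m1 - 4 * s ^ 2 * n ^ 2 * m2 := by
    rw [v1, v2]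
    linear_combination -(4 * (s : ℚ) ^ 3 * n ^ 2 - 36 * n ^ 5) * v0
  have w1 : (4 * n ^ 2 * (n * (s ^ 3 - 27 * n ^ 3)) : ℚ) * b =
      n * (-12 * s * n ^ 4 * m0 + 2 * s ^ 2 * n ^ 2 * m1 + 18 * n ^ 3 * m2) := by
    rw [v1, v2]
    linear_combination (12 * (s : ℚ) * n ^ 4) * v0
  have w2 : (4 * n ^ 2 * (n * (s ^ 3 - 27 * n ^ 3)) : ℚ) * c =
      n ^ 2 * (-4 * s ^ 2 * n ^ 2 * m0 + 18 * n ^ 3 * m1 + 6 * s * n * m2) := by
    rw [v1, v2]
    linear_combination (4 * (s : ℚ) ^ 2 * n ^ 3) * v0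
  refine ⟨(4 * s ^ 3 * n ^ 3 - 36 * n ^ 6) * m0 - 12 * s * n ^ 4 * m1 - 4 * s ^ 2 * n ^ 2 * m2,
    -12 * s * n ^ 4 * m0 + 2 * s ^ 2 * n ^ 2 * m1 + 18 * n ^ 3 * m2,
    -4 * s ^ 2 * n ^ 2 * m0 + 18 * n ^ 3 * m1 + 6 * s * n * m2, ?_⟩
  have x0 := congrArg (fun t : ℚ => (t : A)) w0
  have x1 := congrArg (fun t : ℚ => (t : A)) w1
  have x2 := congrArg (fun t : ℚ => (t : A)) w2
  simp only [DD]
  push_cast at x0 x1 x2 ⊢
  rw [hy]
  linear_combination x0 + r * x1 + r ^ 2 * x2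

end Pool.Agent.Lib.MP_af4c59_nt.K9.SmallAux
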