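import Pool.Agent.Lib.MP_af4c59_nt.K9Class
import Pool.Agent.Lib.MP_af4c59_nt.K9Irr
import Pool.Agent.Lib.MP_af4c59_nt.K9Red
import Pool.Agent.Lib.MP_af4c59_nt.K9Deg
import Pool.Agent.Lib.MP_af4c59_nt.K9Non
import Pool.Agent.Lib.MP_af4c59_nt.K9DegSum

/-!
The number of quadruples (part D3).
-/

set_option autoImplicit false

namespace Pool.Agent.Lib.MP_af4c59_nt.K9

open NumberField Module IsDedekindDomain

namespace SumAux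

open scoped Classical

lemma one_le_max {s n : ℤ} (hD : DD s n ≠ 0) : (1 : ℝ) ≤ max |(s : ℝ)| |(n : ℝ)| := by
  have hn : n ≠ 0 := by
    rintro rfl
    exact hD (by simp [DD])
  have : (1 : ℤ) ≤ |n| := Int.one_le_abs hn
  have h2 : (1 : ℝ) ≤ |(n : ℝ)| := by exact_mod_cast this
  exact h2.trans (le_max_right _ _)

lemma DD_le {s n : ℤ} {M : ℝ} (hs : |(s : ℝ)| ≤ M) (hn : |(n : ℝ)| ≤ M) :
    |((DD s n : ℤ) : ℝ)| ≤ 28 * M ^ 4 := by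
  have hM : 0 ≤ M := (abs_nonneg _).trans hs
  have h3 : |(s : ℝ)| ^ 3 ≤ M ^ 3 := pow_le_pow_left₀ (abs_nonneg _) hs 3
  have h4 : |(n : ℝ)| ^ 3 ≤ M ^ 3 := pow_le_pow_left₀ (abs_nonneg _) hn 3
  have e : ((DD s n : ℤ) : ℝ) = (n : ℝ) * ((s : ℝ) ^ 3 - 27 * (n : ℝ) ^ 3) := by
    simp [DD]
  rw [e, abs_mul]
  have h5 : |(s : ℝ) ^ 3 - 27 * (n : ℝ) ^ 3| ≤ 28 * M ^ 3 := by
    refine (abs_sub _ _).trans ?_
    rw [abs_mul, abs_pow, abs_pow, abs_of_pos (by norm_num : (0 : ℝ) < 27)]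
    linarith
  calc _ ≤ M * (28 * M ^ 3) := mul_le_mul hn h5 (abs_nonneg _) hM
    _ = _ := by ring

lemma omH {η : ℝ} (hη : 0 < η) : ∃ C : ℝ, 1 ≤ C ∧ ∀ H : ℝ, 1 ≤ H → ∀ m : ℤ, m ≠ 0 →
    |(m : ℝ)| ≤ 168 * H ^ 5 → (32 : ℝ) ^ om m ≤ C * H ^ η := by
  obtain ⟨C, hC, h⟩ := H32.omega_bound 5 (η := η / 5) (by positivity)
  refine ⟨C * 168 ^ (η / 5), ?_, fun H hH m hm hb => ?_⟩
  · exact one_le_mul_of_one_le_of_one_le hC (Real.one_le_rpow (by norm_num) (by positivity))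
  have h1 := h m.natAbs (Int.natAbs_ne_zero.2 hm)
  have e : ((m.natAbs : ℕ) : ℝ) = |(m : ℝ)| := by
    rw [← Int.cast_abs, ← Int.natCast_natAbs, Int.cast_natCast]
  have h2 : ((m.natAbs : ℕ) : ℝ) ^ (η / 5) ≤ (168 * H ^ 5) ^ (η / 5) :=
    Real.rpow_le_rpow (Nat.cast_nonneg _) (by rw [e]; exact hb) (by positivity)
  have h3 : (168 * H ^ 5) ^ (η / 5) = 168 ^ (η / 5) * H ^ η := by
    rw [Real.mul_rpow (by norm_num) (by positivity), ← Real.rpow_natCast,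
      ← Real.rpow_mul (by linarith)]
    congr 2
    push_cast
    ring
  calc (32 : ℝ) ^ om m = ((2 : ℝ) ^ 5) ^ m.natAbs.primeFactors.card := by
        rw [om]; norm_num
    _ ≤ C * ((m.natAbs : ℕ) : ℝ) ^ (η / 5) := h1
    _ ≤ C * (168 ^ (η / 5) * H ^ η) := by rw [← h3]; gcongr
    _ = _ := by ring

/-- The weight of a pair. -/
noncomputable def W (X : ℝ) (T s n : ℤ) : ℝ :=
  if Red s n then X ^ ((4 : ℝ) / 3) else 4 + (Non T s n).card + (Deg T s n).card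

lemma par_bounds {H : ℝ} {g s n : ℤ} (hP : Par H g s n) :
    |((6 * g * DD s n : ℤ) : ℝ)| ≤ 168 * H ^ 5 ∧ |((2 * DD s n : ℤ) : ℝ)| ≤ 168 * H ^ 5 := by
  obtain ⟨hH, hg, -, hD, hs, hn⟩ := hP
  have g1 : (1 : ℝ) ≤ g := by exact_mod_cast hg
  have hs' : |(s : ℝ)| ≤ H := by nlinarith [abs_nonneg (s : ℝ)]
  have hn' : |(n : ℝ)| ≤ H := by nlinarith [abs_nonneg (n : ℝ)]
  have hm := one_le_max hD
  have gH : (g : ℝ) ≤ H := by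
    rcases le_total |(s : ℝ)| |(n : ℝ)| with h | h
    · rw [max_eq_right h] at hm; nlinarith
    · rw [max_eq_left h] at hm; nlinarith
  have hd := DD_le hs' hn'
  have H4 : 0 ≤ H ^ 4 := by positivity
  constructor
  · push_cast
    rw [abs_mul, abs_mul, abs_of_pos (by norm_num : (0 : ℝ) < 6), abs_of_pos (by linarith)]
    calc 6 * (g : ℝ) * |((DD s n : ℤ) : ℝ)| ≤ 6 * H * (28 * H ^ 4) := by gcongr
      _ = _ := by ring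
  · push_cast
    rw [abs_mul, abs_of_pos (by norm_num : (0 : ℝ) < 2)]
    have : H ^ 4 ≤ H ^ 5 := pow_le_pow_right₀ hH (by norm_num)
    linarith

lemma cover {η : ℝ} (hη : 0 < η) : ∃ C₀ C : ℝ, 0 < C₀ ∧ 0 < C ∧ ∀ (H : ℝ) (g s n : ℤ),
    Par H g s n → ∀ X : ℝ, 1 ≤ X → |(s : ℝ)| ≤ X → |(n : ℝ)| ≤ X → ∀ T : ℤ,
      C₀ * X ^ 2 ≤ (T : ℝ) ^ 3 → ∀ F : Finset (ℤ × ℤ), (∀ p ∈ F, Box H g s n p) →
        ∃ (Tt : Fin 3 → ℂ) (R : Finset (ℤ × ℤ)), Roots s n Tt ∧ R ⊆ F ∧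
          (∀ p ∈ F, ∃ p₀ ∈ R, Rel g Tt p₀ p) ∧ (R.card : ℝ) ≤ C * H ^ η * W X T s n := by
  obtain ⟨C₀, hC₀, hsel⟩ := sel_small
  obtain ⟨C₁, hC₁, hred⟩ := cover_red
  obtain ⟨K, hK, hom⟩ := omH (η := η / 2) (by positivity)
  refine ⟨C₀, (32 * C₁ + 128) * K ^ 2, hC₀, by positivity, ?_⟩
  intro H g s n hP X hX hs hn T hT F hF
  obtain ⟨b1, b2⟩ := par_bounds hP
  have hH := hP.1
  have hg := hP.2.1
  have hc := hP.2.2.1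
  have hD := hP.2.2.2.1
  have o1 := hom H hH _ (mul_ne_zero (mul_ne_zero (by norm_num) hg.ne') hD) b1
  have o2 := hom H hH _ (mul_ne_zero (by norm_num) hD) b2
  have hh : 1 ≤ H ^ (η / 2) := Real.one_le_rpow hH (by positivity)
  have sq : H ^ η = H ^ (η / 2) * H ^ (η / 2) := by
    rw [← Real.rpow_add (by linarith)]; congr 1; ring
  have hKH : 1 ≤ K * H ^ (η / 2) := one_le_mul_of_one_le_of_one_le hK hh
  by_cases hR : Red s n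
  · obtain ⟨Tt, hr, h⟩ := hred s n X hc hD hR hX hs hn
    obtain ⟨R, h1, h2, h3⟩ := h H g hP F hF
    refine ⟨Tt, R, hr, h1, h2, h3.trans ?_⟩
    rw [W, if_pos hR, pow_succ, sq]
    refine mul_le_mul_of_nonneg_right ?_ (by positivity)
    calc C₁ * (32 ^ om (6 * g * DD s n) * 32) ≤ C₁ * (K * H ^ (η / 2) * 32) := by gcongr
      _ = 32 * C₁ * (K * H ^ (η / 2)) * 1 := by ring
      _ ≤ (32 * C₁ + 128) * (K * H ^ (η / 2)) * (K * H ^ (η / 2)) := by gcongr; linarith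
      _ = _ := by ring
  · obtain ⟨Tt, hr, h⟩ := cover_irr hD hR _
      (fun A _ _ r hG => hsel A s n r hG hc hD X hX hs hn T hT)
    obtain ⟨R, h1, h2, h3⟩ := h H g hP F hF
    refine ⟨Tt, R, hr, h1, h2, ?_⟩
    have h4 : (R.card : ℝ) ≤ 16 ^ (om (6 * g * DD s n) + 1) *
        (8 * 8 ^ om (2 * DD s n) * (4 + (Non T s n).card + (Deg T s n).card)) := by
      exact_mod_cast h3
    refine h4.trans ?_
    rw [W, if_neg hR, ← mul_assoc, pow_succ, sq]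
    refine mul_le_mul_of_nonneg_right ?_ (by positivity)
    have p1 : (16 : ℝ) ^ om (6 * g * DD s n) ≤ K * H ^ (η / 2) :=
      (pow_le_pow_left₀ (by norm_num) (by norm_num) _).trans o1
    have p2 : (8 : ℝ) ^ om (2 * DD s n) ≤ K * H ^ (η / 2) :=
      (pow_le_pow_left₀ (by norm_num) (by norm_num) _).trans o2
    calc (16 : ℝ) ^ om (6 * g * DD s n) * 16 * (8 * 8 ^ om (2 * DD s n))
        ≤ (K * H ^ (η / 2)) * 16 * (8 * (K * H ^ (η / 2))) := by gcongr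
      _ = 128 * (K * H ^ (η / 2)) * (K * H ^ (η / 2)) := by ring
      _ ≤ (32 * C₁ + 128) * (K * H ^ (η / 2)) * (K * H ^ (η / 2)) := by gcongr; linarith
      _ = _ := by ring

lemma fibre {η : ℝ} (hη : 0 < η) : ∃ C₀ C : ℝ, 0 < C₀ ∧ 0 < C ∧ ∀ (H : ℝ) (g s n : ℤ),
    Par H g s n → ∀ Y : ℝ, 1 ≤ Y → Y ≤ max |(s : ℝ)| |(n : ℝ)| → |(s : ℝ)| ≤ 2 * Y →
      |(n : ℝ)| ≤ 2 * Y → ∀ T : ℤ, C₀ * (2 * Y) ^ 2 ≤ (T : ℝ) ^ 3 → ∀ F : Finset (ℤ × ℤ),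
        (∀ p ∈ F, Box H g s n p) → (F.card : ℝ) ≤
          C * H ^ η * (H / Y) ^ ((4 : ℝ) / 3) * (g : ℝ) ^ (-(1 : ℝ) / 3) * W (2 * Y) T s n := by
  obtain ⟨C₀, C₁, hC₀, hC₁, hcov⟩ := cover (η := η / 2) (by positivity)
  obtain ⟨C₂, hC₂, hcl⟩ := class_bound (ε := η / 2) (by positivity)
  refine ⟨C₀, C₁ * C₂, hC₀, by positivity, ?_⟩
  intro H g s n hP Y hY hYm hs hn T hT F hF
  obtain ⟨Tt, R, hr, h1, h2, h3⟩ := hcov H g s n hP (2 * Y) (by linarith) hs hn T hT F hF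
  have hH := hP.1
  have hg : (0 : ℝ) < g := by exact_mod_cast hP.2.1
  set B : ℝ := C₂ * H ^ (η / 2) * (H / Y) ^ ((4 : ℝ) / 3) * (g : ℝ) ^ (-(1 : ℝ) / 3) with hB
  have hB0 : 0 ≤ B := by positivity
  have each : ∀ p₀ ∈ R, ((F.filter fun p => Rel g Tt p₀ p).card : ℝ) ≤ B := by
    intro p₀ hp₀
    refine (hcl H g s n hP Tt hr p₀ (hF _ (h1 hp₀)) _ fun p hp => ?_).trans ?_
    · exact ⟨hF _ (Finset.mem_filter.1 hp).1, (Finset.mem_filter.1 hp).2⟩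
    · have : H / max |(s : ℝ)| |(n : ℝ)| ≤ H / Y := by gcongr
      have h0 : 0 ≤ H / max |(s : ℝ)| |(n : ℝ)| := by positivity
      rw [hB]
      gcongr
  have sub : F ⊆ R.biUnion fun p₀ => F.filter fun p => Rel g Tt p₀ p := by
    intro p hp
    obtain ⟨p₀, hp₀, h⟩ := h2 p hp
    exact Finset.mem_biUnion.2 ⟨p₀, hp₀, Finset.mem_filter.2 ⟨hp, h⟩⟩
  have c1 : (F.card : ℝ) ≤ ∑ p₀ ∈ R, ((F.filter fun p => Rel g Tt p₀ p).card : ℝ) := by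
    exact_mod_cast (Finset.card_le_card sub).trans Finset.card_biUnion_le
  have c2 : ∑ p₀ ∈ R, ((F.filter fun p => Rel g Tt p₀ p).card : ℝ) ≤ R.card * B := by
    simpa using Finset.sum_le_card_nsmul R _ B each
  have sq : H ^ η = H ^ (η / 2) * H ^ (η / 2) := by
    rw [← Real.rpow_add (by linarith)]; congr 1; ring
  calc (F.card : ℝ) ≤ R.card * B := c1.trans c2
    _ ≤ C₁ * H ^ (η / 2) * W (2 * Y) T s n * B := by gcongr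
    _ = _ := by rw [hB, sq]; ring

lemma card_prs {X : ℝ} (hX : 1 ≤ X) {S : Finset (ℤ × ℤ)} (hS : Prs X S) :
    (S.card : ℝ) ≤ 9 * X ^ 2 := by
  have f0 : (0 : ℤ) ≤ ⌊X⌋ := Int.floor_nonneg.2 (by linarith)
  have sub : S ⊆ Finset.Icc (-⌊X⌋) ⌊X⌋ ×ˢ Finset.Icc (-⌊X⌋) ⌊X⌋ := by
    intro x hx
    obtain ⟨-, -, h1, h2⟩ := hS x hx
    have a1 : |x.1| ≤ ⌊X⌋ := Int.le_floor.2 (by push_cast; exact h1)
    have a2 : |x.2| ≤ ⌊X⌋ := Int.le_floor.2 (by push_cast; exact h2)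
    simp only [Finset.mem_product, Finset.mem_Icc]
    exact ⟨abs_le.1 a1, abs_le.1 a2⟩
  have e : ((Finset.Icc (-⌊X⌋) ⌊X⌋).card : ℝ) = 2 * (⌊X⌋ : ℝ) + 1 := by
    have : ((Finset.Icc (-⌊X⌋) ⌊X⌋).card : ℤ) = 2 * ⌊X⌋ + 1 := by
      rw [Int.card_Icc, Int.toNat_of_nonneg (by linarith)]; ring
    exact_mod_cast this
  have h3 : (S.card : ℝ) ≤ (2 * (⌊X⌋ : ℝ) + 1) * (2 * (⌊X⌋ : ℝ) + 1) := by
    rw [← e]
    exact_mod_cast (Finset.card_le_card sub).trans_eq (Finset.card_product _ _)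
  have h4 := Int.floor_le X
  have h5 : (0 : ℝ) ≤ ⌊X⌋ := by exact_mod_cast f0
  nlinarith

lemma sumW (C₀ : ℝ) {η : ℝ} (hη : 0 < η) : ∃ C : ℝ, 0 < C ∧ ∀ X : ℝ, 1 ≤ X → ∀ T : ℤ, 1 ≤ T →
    (T : ℝ) ^ 3 ≤ C₀ * X ^ 2 → ∀ S : Finset (ℤ × ℤ), Prs X S →
      ∑ x ∈ S, W X T x.1 x.2 ≤ C * X ^ (2 + η) := by
  obtain ⟨C₁, hC₁, h1⟩ := red_count
  obtain ⟨C₂, hC₂, h2⟩ := non_sum C₀ hη
  obtain ⟨C₃, hC₃, h3⟩ := deg_sum C₀ hη
  refine ⟨C₁ + 36 + C₂ + C₃, by positivity, fun X hX T hT hT3 S hS => ?_⟩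
  have x2 : X ^ 2 ≤ X ^ (2 + η) := by
    rw [← Real.rpow_natCast]
    exact Real.rpow_le_rpow_of_exponent_le hX (by push_cast; linarith)
  have a1 := h1 X hX (S.filter fun x => Red x.1 x.2)
    (fun x hx => hS x (Finset.mem_filter.1 hx).1) fun x hx => (Finset.mem_filter.1 hx).2
  have a2 := h2 X hX T hT hT3 S hS
  have a3 := h3 X hX T hT hT3 S hS
  have a4 := card_prs hX hS
  have le : ∑ x ∈ S, W X T x.1 x.2 ≤ ∑ x ∈ S, ((if Red x.1 x.2 then X ^ ((4 : ℝ) / 3) else 0) +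
      (4 + ((Non T x.1 x.2).card : ℝ) + ((Deg T x.1 x.2).card : ℝ))) := by
    refine Finset.sum_le_sum fun x _ => ?_
    rw [W]
    split_ifs
    · exact le_add_of_nonneg_right (by positivity)
    · rw [zero_add]
  refine le.trans ?_
  rw [Finset.sum_add_distrib, Finset.sum_add_distrib, Finset.sum_add_distrib, ← Finset.sum_filter,
    Finset.sum_const, Finset.sum_const, nsmul_eq_mul, nsmul_eq_mul]
  have e : X ^ ((2 : ℝ) / 3) * X ^ ((4 : ℝ) / 3) = X ^ 2 := by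
    rw [← Real.rpow_add (by linarith), ← Real.rpow_natCast]; norm_num
  have b1 : ((S.filter fun x => Red x.1 x.2).card : ℝ) * X ^ ((4 : ℝ) / 3) ≤ C₁ * X ^ (2 + η) :=
    calc _ ≤ C₁ * X ^ ((2 : ℝ) / 3) * X ^ ((4 : ℝ) / 3) := by gcongr
      _ = C₁ * X ^ 2 := by rw [mul_assoc, e]
      _ ≤ _ := by gcongr
  nlinarith

lemma exists_T {C₀ X : ℝ} (hC : 0 < C₀) (hX : 1 ≤ X) : ∃ T : ℤ, 1 ≤ T ∧
    C₀ * X ^ 2 ≤ (T : ℝ) ^ 3 ∧ (T : ℝ) ^ 3 ≤ 4 * (C₀ + 1) * X ^ 2 := by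
  have h0 : 0 < C₀ * X ^ 2 := by positivity
  set a : ℝ := (C₀ * X ^ 2) ^ (((3 : ℕ) : ℝ)⁻¹) with ha
  have a0 : 0 < a := by positivity
  have a3 : a ^ 3 = C₀ * X ^ 2 := Real.rpow_inv_natCast_pow h0.le (by norm_num)
  refine ⟨⌈a⌉, Int.one_le_ceil_iff.2 a0, ?_, ?_⟩
  · rw [← a3]; exact pow_le_pow_left₀ a0.le (Int.le_ceil a) 3
  · have h1 : (⌈a⌉ : ℝ) ≤ a + 1 := (Int.ceil_lt_add_one a).le
    have h2 : (⌈a⌉ : ℝ) ^ 3 ≤ (a + 1) ^ 3 :=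
      pow_le_pow_left₀ (a0.le.trans (Int.le_ceil a)) h1 3
    have h3 : (a + 1) ^ 3 ≤ 4 * (a ^ 3 + 1) := by
      nlinarith [mul_nonneg (sq_nonneg (a - 1)) (by linarith : 0 ≤ a + 1)]
    have h4 : 1 ≤ X ^ 2 := one_le_pow₀ hX
    nlinarith

lemma expo {η H Y g : ℝ} (hη : 0 < η) (hY : 1 ≤ Y) (hg : 1 ≤ g) (h : g * Y ≤ H) :
    (H / Y) ^ ((4 : ℝ) / 3) * g ^ (-(1 : ℝ) / 3) * (2 * Y) ^ (2 + η) ≤
      2 ^ (2 + η) * H ^ (2 + η) * (1 / g) := by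
  have Y0 : 0 < Y := by linarith
  have g0 : 0 < g := by linarith
  have YH : Y ≤ H := by nlinarith
  have H0 : 0 < H := by linarith
  have e1 : (H / Y) ^ ((4 : ℝ) / 3) * Y ^ (2 + η) =
      H ^ ((4 : ℝ) / 3) * (Y ^ ((2 : ℝ) / 3) * Y ^ η) := by
    rw [Real.div_rpow H0.le Y0.le, ← Real.rpow_add Y0,
      show (2 : ℝ) + η = 4 / 3 + (2 / 3 + η) by ring, Real.rpow_add Y0]
    field_simp
  have e2 : Y ^ ((2 : ℝ) / 3) ≤ H ^ ((2 : ℝ) / 3) * g ^ (-(2 : ℝ) / 3) := by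
    have : Y ≤ H / g := by rw [le_div_iff₀ g0]; linarith
    refine (Real.rpow_le_rpow Y0.le this (by norm_num)).trans_eq ?_
    rw [Real.div_rpow H0.le g0.le, neg_div, Real.rpow_neg g0.le, div_eq_mul_inv]
  have e3 : Y ^ η ≤ H ^ η := Real.rpow_le_rpow Y0.le YH hη.le
  have e4 : g ^ (-(2 : ℝ) / 3) * g ^ (-(1 : ℝ) / 3) = 1 / g := by
    rw [← Real.rpow_add g0, one_div, ← Real.rpow_neg_one]; congr 1; ring
  have e5 : H ^ ((4 : ℝ) / 3) * H ^ ((2 : ℝ) / 3) * H ^ η = H ^ (2 + η) := by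
    rw [← Real.rpow_add H0, ← Real.rpow_add H0]; congr 1; ring
  rw [Real.mul_rpow (by norm_num) Y0.le]
  calc _ = 2 ^ (2 + η) * ((H / Y) ^ ((4 : ℝ) / 3) * Y ^ (2 + η)) * g ^ (-(1 : ℝ) / 3) := by ring
    _ ≤ 2 ^ (2 + η) * (H ^ ((4 : ℝ) / 3) * (H ^ ((2 : ℝ) / 3) * g ^ (-(2 : ℝ) / 3) * H ^ η)) *
          g ^ (-(1 : ℝ) / 3) := by rw [e1]; gcongr
    _ = _ := by rw [← e4, ← e5]; ring

lemma block {η : ℝ} (hη : 0 < η) : ∃ C : ℝ, 0 < C ∧ ∀ (H : ℝ) (g : ℤ) (Y : ℝ), 1 ≤ H → 0 < g →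
    1 ≤ Y → ∀ S : Finset (ℤ × ℤ × ℤ × ℤ), (∀ q ∈ S, ∃ s n : ℤ, q.1 = g * s ∧ q.2.1 = g * n ∧
      Par H g s n ∧ Box H g s n q.2.2 ∧ Y ≤ max |(s : ℝ)| |(n : ℝ)| ∧ |(s : ℝ)| ≤ 2 * Y ∧
        |(n : ℝ)| ≤ 2 * Y) → (S.card : ℝ) ≤ C * H ^ (2 + η) * (1 / (g : ℝ)) := by
  obtain ⟨C₀, C₁, hC₀, hC₁, hf⟩ := fibre (η := η / 2) (by positivity)
  obtain ⟨C₂, hC₂, hw⟩ := sumW (4 * (C₀ + 1)) (η := η / 2) (by positivity)
  refine ⟨C₁ * C₂ * 2 ^ (2 + η / 2), by positivity, fun H g Y hH hg hY S hS => ?_⟩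
  have g1 : (1 : ℝ) ≤ g := by exact_mod_cast hg
  rcases S.eq_empty_or_nonempty with rfl | ⟨q₀, hq₀⟩
  · simp only [Finset.card_empty, Nat.cast_zero]; positivity
  have gY : (g : ℝ) * Y ≤ H := by
    obtain ⟨s, n, -, -, hP, -, h1, -⟩ := hS q₀ hq₀
    refine (mul_le_mul_of_nonneg_left h1 (by linarith)).trans ?_
    rcases le_total |(s : ℝ)| |(n : ℝ)| with h | h
    · rw [max_eq_right h]; exact hP.2.2.2.2.2
    · rw [max_eq_left h]; exact hP.2.2.2.2.1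
  obtain ⟨T, hT1, hT2, hT3⟩ := exists_T hC₀ (X := 2 * Y) (by linarith)
  set ψ : ℤ × ℤ × ℤ × ℤ → ℤ × ℤ := fun q => (q.1 / g, q.2.1 / g) with hψ
  have key : ∀ q ∈ S, q.1 = g * (ψ q).1 ∧ q.2.1 = g * (ψ q).2 ∧ Par H g (ψ q).1 (ψ q).2 ∧
      Box H g (ψ q).1 (ψ q).2 q.2.2 ∧ Y ≤ max |((ψ q).1 : ℝ)| |((ψ q).2 : ℝ)| ∧
        |((ψ q).1 : ℝ)| ≤ 2 * Y ∧ |((ψ q).2 : ℝ)| ≤ 2 * Y := by
    intro q hq
    obtain ⟨s, n, e1, e2, h⟩ := hS q hq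
    have : ψ q = (s, n) := by
      simp only [hψ, e1, e2, Int.mul_ediv_cancel_left _ hg.ne']
    rw [this]
    exact ⟨e1, e2, h⟩
  have hP : Prs (2 * Y) (S.image ψ) := by
    intro x hx
    obtain ⟨q, hq, rfl⟩ := Finset.mem_image.1 hx
    obtain ⟨-, -, h1, -, -, h2, h3⟩ := key q hq
    exact ⟨h1.2.2.1, h1.2.2.2.1, h2, h3⟩
  set B : ℝ := C₁ * H ^ (η / 2) * (H / Y) ^ ((4 : ℝ) / 3) * (g : ℝ) ^ (-(1 : ℝ) / 3) with hB
  have hB0 : 0 ≤ B := by positivity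
  have each : ∀ x ∈ S.image ψ, ((S.filter fun q => ψ q = x).card : ℝ) ≤ B * W (2 * Y) T x.1 x.2 := by
    intro x hx
    obtain ⟨q₁, hq₁, rfl⟩ := Finset.mem_image.1 hx
    obtain ⟨-, -, h1, -, h2, h3, h4⟩ := key q₁ hq₁
    have inj : Set.InjOn (fun q : ℤ × ℤ × ℤ × ℤ => q.2.2) (S.filter fun q => ψ q = ψ q₁) := by
      intro a ha b hb hab
      have ha' := Finset.mem_filter.1 (Finset.mem_coe.1 ha)
      have hb' := Finset.mem_filter.1 (Finset.mem_coe.1 hb)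
      obtain ⟨a1, a2, -⟩ := key a ha'.1
      obtain ⟨b1, b2, -⟩ := key b hb'.1
      refine Prod.ext ?_ (Prod.ext ?_ hab)
      · rw [a1, b1, ha'.2, hb'.2]
      · rw [a2, b2, ha'.2, hb'.2]
    rw [← Finset.card_image_of_injOn inj]
    refine hf H g _ _ h1 Y hY h2 h3 h4 T hT2 _ fun p hp => ?_
    obtain ⟨q, hq, rfl⟩ := Finset.mem_image.1 hp
    have hq' := Finset.mem_filter.1 hq
    have := (key q hq'.1).2.2.2.1
    rwa [hq'.2] at this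
  have c1 : (S.card : ℝ) = ∑ x ∈ S.image ψ, ((S.filter fun q => ψ q = x).card : ℝ) := by
    exact_mod_cast Finset.card_eq_sum_card_image ψ S
  have c2 := hw (2 * Y) (by linarith) T hT1 hT3 _ hP
  have c3 := expo (η := η / 2) (by positivity) hY g1 gY
  have sq : H ^ (2 + η) = H ^ (η / 2) * H ^ (2 + η / 2) := by
    rw [← Real.rpow_add (by linarith)]; congr 1; ring
  calc (S.card : ℝ) ≤ ∑ x ∈ S.image ψ, B * W (2 * Y) T x.1 x.2 :=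
        c1.trans_le (Finset.sum_le_sum each)
    _ = B * ∑ x ∈ S.image ψ, W (2 * Y) T x.1 x.2 := by rw [Finset.mul_sum]
    _ ≤ B * (C₂ * (2 * Y) ^ (2 + η / 2)) := by gcongr
    _ = C₁ * C₂ * H ^ (η / 2) *
          ((H / Y) ^ ((4 : ℝ) / 3) * (g : ℝ) ^ (-(1 : ℝ) / 3) * (2 * Y) ^ (2 + η / 2)) := by
        rw [hB]; ring
    _ ≤ C₁ * C₂ * H ^ (η / 2) * (2 ^ (2 + η / 2) * H ^ (2 + η / 2) * (1 / (g : ℝ))) := by gcongr
    _ = _ := by rw [sq]; ring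

lemma decomp {H : ℝ} (hH : 1 ≤ H) {q : ℤ × ℤ × ℤ × ℤ} (hq : QH H q) : ∃ (g : ℤ) (j : ℕ),
    0 < g ∧ (g : ℝ) ≤ H ∧ (2 : ℝ) ^ j ≤ H ∧ ∃ s n : ℤ, q.1 = g * s ∧ q.2.1 = g * n ∧
      Par H g s n ∧ Box H g s n q.2.2 ∧ (2 : ℝ) ^ j ≤ max |(s : ℝ)| |(n : ℝ)| ∧
        |(s : ℝ)| ≤ 2 * 2 ^ j ∧ |(n : ℝ)| ≤ 2 * 2 ^ j := by
  obtain ⟨h1, h2, hD, h3, h4, h5⟩ := hq
  have n0 : q.2.1 ≠ 0 := fun h => hD (by simp [DD, h])
  have gpos : 0 < Int.gcd q.1 q.2.1 := Int.gcd_pos_of_ne_zero_right _ n0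
  obtain ⟨g', s, n, hg', hc, e1, e2⟩ := Int.exists_gcd_one' gpos
  have hg : (0 : ℤ) < g' := by exact_mod_cast hg'
  have g1 : (1 : ℝ) ≤ ((g' : ℤ) : ℝ) := by exact_mod_cast hg
  rw [mul_comm] at e1 e2
  have hD' : DD s n ≠ 0 := by
    intro h
    apply hD
    have : DD (g' * s) (g' * n) = (g' : ℤ) ^ 4 * DD s n := by simp only [DD]; ring
    rw [e1, e2, this, h, mul_zero]
  have b1 : ((g' : ℤ) : ℝ) * |(s : ℝ)| ≤ H := by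
    rw [e1] at h1; push_cast at h1 ⊢
    rwa [abs_mul, abs_of_nonneg (Nat.cast_nonneg _)] at h1
  have b2 : ((g' : ℤ) : ℝ) * |(n : ℝ)| ≤ H := by
    rw [e2] at h2; push_cast at h2 ⊢
    rwa [abs_mul, abs_of_nonneg (Nat.cast_nonneg _)] at h2
  have hm := one_le_max hD'
  have gm : ((g' : ℤ) : ℝ) * max |(s : ℝ)| |(n : ℝ)| ≤ H := by
    rcases le_total |(s : ℝ)| |(n : ℝ)| with h | h
    · rwa [max_eq_right h]
    · rwa [max_eq_left h]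
  obtain ⟨j, j1, j2⟩ := exists_nat_pow_near hm (by norm_num : (1 : ℝ) < 2)
  rw [pow_succ'] at j2
  refine ⟨g', j, hg, by nlinarith, by nlinarith, s, n, e1, e2,
    ⟨hH, hg, Int.isCoprime_iff_gcd_eq_one.2 hc, hD', b1, b2⟩, ⟨h3, h4, ?_⟩, j1,
    ((le_max_left _ _).trans j2.le), ((le_max_right _ _).trans j2.le)⟩
  rw [← e1, ← e2]
  exact h5

lemma scales {η : ℝ} (hη : 0 < η) : ∃ K : ℝ, 0 < K ∧ ∀ H : ℝ, 1 ≤ H → ∃ J : ℕ,
    (J : ℝ) ≤ K * H ^ η ∧ ∀ j : ℕ, (2 : ℝ) ^ j ≤ H → j < J := by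
  have hs : (1 : ℝ) < 2 ^ η := Real.one_lt_rpow (by norm_num) hη
  have h0 : 0 < 1 / ((2 : ℝ) ^ η - 1) := one_div_pos.2 (by linarith)
  refine ⟨1 + 1 / ((2 : ℝ) ^ η - 1), by linarith, fun H hH => ?_⟩
  obtain ⟨a, a1, a2⟩ := exists_nat_pow_near hH (by norm_num : (1 : ℝ) < 2)
  refine ⟨a + 1, ?_, fun j hj => ?_⟩
  · push_cast
    refine (H32.succ_le_mul_pow hs a).trans (mul_le_mul_of_nonneg_left ?_ (by linarith))
    rw [← Real.rpow_natCast, ← Real.rpow_mul (by norm_num), mul_comm, Real.rpow_mul (by norm_num),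
      Real.rpow_natCast]
    exact Real.rpow_le_rpow (by positivity) a1 hη.le
  · exact (pow_lt_pow_iff_right₀ (by norm_num : (1 : ℝ) < 2)).1 (hj.trans_lt a2)

end SumAux

theorem quad_bound {ε : ℝ} (hε : 0 < ε) : ∃ C : ℝ, 0 < C ∧ ∀ H : ℝ, 1 ≤ H →
    ∀ S : Finset (ℤ × ℤ × ℤ × ℤ), (∀ q ∈ S, QH H q) → (S.card : ℝ) ≤ C * H ^ (2 + ε) := by
  classical
  obtain ⟨C, hC, hb⟩ := SumAux.block (η := ε / 3) (by positivity)
  obtain ⟨K₁, hK₁, h1⟩ := SumAux.scales (η := ε / 3) (by positivity)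
  obtain ⟨K₂, hK₂, h2⟩ := H32.SumA.harm (η := ε / 3) (by positivity)
  refine ⟨C * K₁ * K₂, by positivity, fun H hH S hS => ?_⟩
  obtain ⟨J, hJ, hj⟩ := h1 H hH
  set G : Finset ℤ := Finset.Icc 1 ⌊H⌋ with hG
  let P : ℤ → ℕ → ℤ × ℤ × ℤ × ℤ → Prop := fun g j q => ∃ s n : ℤ, q.1 = g * s ∧ q.2.1 = g * n ∧
    Par H g s n ∧ Box H g s n q.2.2 ∧ (2 : ℝ) ^ j ≤ max |(s : ℝ)| |(n : ℝ)| ∧
      |(s : ℝ)| ≤ 2 * 2 ^ j ∧ |(n : ℝ)| ≤ 2 * 2 ^ j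
  have sub : S ⊆ G.biUnion fun g => (Finset.range J).biUnion fun j => S.filter (P g j) := by
    intro q hq
    obtain ⟨g, j, g0, gH, jH, h⟩ := SumAux.decomp hH (hS q hq)
    exact Finset.mem_biUnion.2 ⟨g, Finset.mem_Icc.2 ⟨g0, Int.le_floor.2 gH⟩,
      Finset.mem_biUnion.2 ⟨j, Finset.mem_range.2 (hj j jH), Finset.mem_filter.2 ⟨hq, h⟩⟩⟩
  have c1 : (S.card : ℝ) ≤ ∑ g ∈ G, ∑ j ∈ Finset.range J, ((S.filter (P g j)).card : ℝ) := by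
    exact_mod_cast (Finset.card_le_card sub).trans (Finset.card_biUnion_le.trans
      (Finset.sum_le_sum fun g _ => Finset.card_biUnion_le))
  have c2 : ∀ g ∈ G, ∑ j ∈ Finset.range J, ((S.filter (P g j)).card : ℝ) ≤
      J * (C * H ^ (2 + ε / 3)) * (1 / |((g - 0 : ℤ) : ℝ)|) := by
    intro g hg
    have g0 : 0 < g := (Finset.mem_Icc.1 hg).1
    have g0' : (0 : ℝ) < g := by exact_mod_cast g0
    have := Finset.sum_le_card_nsmul (Finset.range J) (fun j => ((S.filter (P g j)).card : ℝ))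
      (C * H ^ (2 + ε / 3) * (1 / (g : ℝ))) fun j _ =>
        hb H g (2 ^ j) hH g0 (one_le_pow₀ (by norm_num)) _ fun q hq => (Finset.mem_filter.1 hq).2
    rw [Finset.card_range, nsmul_eq_mul] at this
    rw [sub_zero, abs_of_pos g0', mul_assoc]
    exact this
  have c3 := h2 G 0 H (by linarith) fun g hg => by
    have g0 : (0 : ℝ) < g := by exact_mod_cast (Finset.mem_Icc.1 hg).1
    rw [sub_zero, abs_of_pos g0]
    exact Int.le_floor.1 (Finset.mem_Icc.1 hg).2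
  have e : H ^ (2 + ε) = H ^ (ε / 3) * H ^ (2 + ε / 3) * H ^ (ε / 3) := by
    rw [← Real.rpow_add (by linarith), ← Real.rpow_add (by linarith)]; congr 1; ring
  calc (S.card : ℝ) ≤ ∑ g ∈ G, J * (C * H ^ (2 + ε / 3)) * (1 / |((g - 0 : ℤ) : ℝ)|) :=
        c1.trans (Finset.sum_le_sum c2)
    _ = J * (C * H ^ (2 + ε / 3)) * ∑ g ∈ G, 1 / |((g - 0 : ℤ) : ℝ)| := by rw [Finset.mul_sum]
    _ ≤ (K₁ * H ^ (ε / 3)) * (C * H ^ (2 + ε / 3)) * (K₂ * H ^ (ε / 3)) := by gcongr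
    _ = _ := by rw [e]; ring

end Pool.Agent.Lib.MP_af4c59_nt.K9
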