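import Pool.Agent.Lib.MP_af4c59_nt.K9Defs

/-!
Compatible square roots (part C).
-/

set_option autoImplicit false

namespace Pool.Agent.Lib.MP_af4c59_nt.K9

open NumberField Module IsDedekindDomain

theorem eta_prod {g s n : ℤ} {T : Fin 3 → ℂ} (hT : Roots s n T) (p : ℤ × ℤ) :
    eta g (T 0) p * eta g (T 1) p * eta g (T 2) p = -16 * (Gf (g * s) (g * n) p.1 p.2 : ℂ) := by
  simp only [eta, Gf]
  push_cast
  linear_combination (-16 * (p.1 : ℂ) ^ 2 * p.2 * g ^ 2) * hT.e1 +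
    (4 * (p.1 : ℂ) * p.2 ^ 2 * g ^ 4) * hT.e2 - ((p.2 : ℂ) ^ 3 * g ^ 6) * hT.e3

theorem disc_roots {s n : ℤ} {T : Fin 3 → ℂ} (hT : Roots s n T) :
    ((T 0 - T 1) * (T 0 - T 2) * (T 1 - T 2)) ^ 2 = 256 * (DD s n : ℂ) ^ 3 ∧
      (T 0 - T 1) ^ 2 + (T 0 - T 2) ^ 2 + (T 1 - T 2) ^ 2 = 2 * (PQ s n : ℂ) := by
  have h1 : ((T 0 - T 1) * (T 0 - T 2) * (T 1 - T 2)) ^ 2 =
      (T 0 + T 1 + T 2) ^ 2 * (T 0 * T 1 + T 0 * T 2 + T 1 * T 2) ^ 2 -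
        4 * (T 0 * T 1 + T 0 * T 2 + T 1 * T 2) ^ 3 -
        4 * (T 0 + T 1 + T 2) ^ 3 * (T 0 * T 1 * T 2) +
        18 * (T 0 + T 1 + T 2) * (T 0 * T 1 + T 0 * T 2 + T 1 * T 2) * (T 0 * T 1 * T 2) -
        27 * (T 0 * T 1 * T 2) ^ 2 := by ring
  have h2 : (T 0 - T 1) ^ 2 + (T 0 - T 2) ^ 2 + (T 1 - T 2) ^ 2 =
      2 * (T 0 + T 1 + T 2) ^ 2 - 6 * (T 0 * T 1 + T 0 * T 2 + T 1 * T 2) := by ring
  rw [h1, h2, hT.e1, hT.e2, hT.e3]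
  simp only [DD, PQ]
  push_cast
  constructor <;> ring

namespace SysAux

/-- The functions on the three roots given by a rational quadratic polynomial. -/
def IsEv (T : Fin 3 → ℂ) (f : Fin 3 → ℂ) : Prop := ∃ c : Fin 3 → ℚ, ∀ a, ev c (T a) = f a

theorem cubic {s n : ℤ} {T : Fin 3 → ℂ} (hT : Roots s n T) (a : Fin 3) :
    T a ^ 3 = (s : ℂ) ^ 2 * T a ^ 2 + 72 * (s : ℂ) * (n : ℂ) ^ 3 * T a -
      16 * (4 * (s : ℂ) ^ 3 * (n : ℂ) ^ 3 + 27 * (n : ℂ) ^ 6) := by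
  have h : (T a - T 0) * (T a - T 1) * (T a - T 2) = 0 := by
    fin_cases a <;> simp
  linear_combination h + T a ^ 2 * hT.e1 - T a * hT.e2 + hT.e3

theorem IsEv.add {T f f' : Fin 3 → ℂ} (h : IsEv T f) (h' : IsEv T f') :
    IsEv T fun a => f a + f' a := by
  obtain ⟨c, hc⟩ := h
  obtain ⟨c', hc'⟩ := h'
  refine ⟨c + c', fun a => ?_⟩
  beta_reduce
  rw [← hc a, ← hc' a]
  simp only [ev, Pi.add_apply]
  push_cast
  ring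

theorem IsEv.smul {T f : Fin 3 → ℂ} (h : IsEv T f) (r : ℚ) : IsEv T fun a => (r : ℂ) * f a := by
  obtain ⟨c, hc⟩ := h
  refine ⟨fun i => r * c i, fun a => ?_⟩
  beta_reduce
  rw [← hc a]
  simp only [ev]
  push_cast
  ring

theorem IsEv.mulT {s n : ℤ} {T f : Fin 3 → ℂ} (hT : Roots s n T) (h : IsEv T f) :
    IsEv T fun a => T a * f a := by
  obtain ⟨c, hc⟩ := h
  refine ⟨![-(16 * (4 * (s : ℚ) ^ 3 * (n : ℚ) ^ 3 + 27 * (n : ℚ) ^ 6)) * c 2,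
    c 0 + 72 * (s : ℚ) * (n : ℚ) ^ 3 * c 2, c 1 + (s : ℚ) ^ 2 * c 2], fun a => ?_⟩
  beta_reduce
  rw [← hc a]
  simp only [ev, Matrix.cons_val_zero, Matrix.cons_val_one, Matrix.cons_val_two,
    Matrix.head_cons, Matrix.tail_cons]
  push_cast
  linear_combination (-(c 2 : ℂ)) * cubic hT a

theorem IsEv.mul {s n : ℤ} {T f f' : Fin 3 → ℂ} (hT : Roots s n T) (h : IsEv T f)
    (h' : IsEv T f') : IsEv T fun a => f a * f' a := by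
  obtain ⟨c, hc⟩ := h
  obtain ⟨e, he⟩ := ((h'.smul (c 0)).add ((h'.mulT hT).smul (c 1))).add
    (((h'.mulT hT).mulT hT).smul (c 2))
  refine ⟨e, fun a => ?_⟩
  rw [he a]
  beta_reduce
  rw [← hc a]
  simp only [ev]
  ring

theorem gf_ne {H : ℝ} {g s n : ℤ} {p : ℤ × ℤ} (h : Box H g s n p) :
    Gf (g * s) (g * n) p.1 p.2 ≠ 0 := by
  obtain ⟨-, -, -, -, e, w, -, -, hw, he⟩ := h
  intro h0
  rw [h0, mul_zero] at he
  exact pow_ne_zero 2 hw he.symm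

theorem eta_ne {H : ℝ} {g s n : ℤ} {T : Fin 3 → ℂ} (hT : Roots s n T) {p : ℤ × ℤ}
    (h : Box H g s n p) (a : Fin 3) : eta g (T a) p ≠ 0 := by
  have h1 := eta_prod (g := g) hT p
  have h2 : (Gf (g * s) (g * n) p.1 p.2 : ℂ) ≠ 0 := by exact_mod_cast gf_ne h
  intro h0
  apply h2
  have h3 : eta g (T 0) p * eta g (T 1) p * eta g (T 2) p = 0 := by
    fin_cases a
    · simp only [Fin.zero_eta] at h0
      simp [h0]
    · simp only [Fin.mk_one] at h0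
      simp [h0]
    · simp only [Fin.reduceFinMk] at h0
      simp [h0]
  linear_combination (1 / 16 : ℂ) * h1 - (1 / 16 : ℂ) * h3

theorem isEv_inv {H : ℝ} {g s n : ℤ} {T : Fin 3 → ℂ} (hT : Roots s n T) {p : ℤ × ℤ}
    (h : Box H g s n p) : IsEv T fun a => (eta g (T a) p)⁻¹ := by
  have h2 : (Gf (g * s) (g * n) p.1 p.2 : ℂ) ≠ 0 := by exact_mod_cast gf_ne h
  have h0 : IsEv T fun a => 16 * (p.1 : ℂ) ^ 2 - 4 * p.1 * p.2 * g ^ 2 * (s ^ 2 - T a) +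
      (p.2 : ℂ) ^ 2 * g ^ 4 * (T a ^ 2 - s ^ 2 * T a - 72 * s * n ^ 3) := by
    refine ⟨![16 * (p.1 : ℚ) ^ 2 - 4 * p.1 * p.2 * g ^ 2 * s ^ 2 -
      (p.2 : ℚ) ^ 2 * g ^ 4 * (72 * s * n ^ 3),
      4 * p.1 * p.2 * g ^ 2 - (p.2 : ℚ) ^ 2 * g ^ 4 * s ^ 2, (p.2 : ℚ) ^ 2 * g ^ 4], fun a => ?_⟩
    simp only [ev, Matrix.cons_val_zero, Matrix.cons_val_one, Matrix.cons_val_two,
      Matrix.head_cons, Matrix.tail_cons]
    push_cast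
    ring
  obtain ⟨c, hc⟩ := h0.smul (-16 * (Gf (g * s) (g * n) p.1 p.2 : ℚ))⁻¹
  refine ⟨c, fun a => ?_⟩
  rw [hc a]
  have h3 := eta_ne hT h a
  have h4 : (16 * (p.1 : ℂ) ^ 2 - 4 * p.1 * p.2 * g ^ 2 * (s ^ 2 - T a) +
      (p.2 : ℂ) ^ 2 * g ^ 4 * (T a ^ 2 - s ^ 2 * T a - 72 * s * n ^ 3)) * eta g (T a) p =
      -16 * (Gf (g * s) (g * n) p.1 p.2 : ℂ) := by
    simp only [eta, Gf]
    push_cast
    linear_combination (-((p.2 : ℂ) ^ 3 * g ^ 6)) * cubic hT a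
  refine eq_inv_of_mul_eq_one_left ?_
  push_cast
  rw [mul_assoc, h4]
  exact inv_mul_cancel₀ (mul_ne_zero (by norm_num) h2)

theorem quad_zero {A B C t₀ t₁ t₂ : ℂ} (h01 : t₀ - t₁ ≠ 0) (h02 : t₀ - t₂ ≠ 0) (h12 : t₁ - t₂ ≠ 0)
    (h₀ : A + B * t₀ + C * t₀ ^ 2 = 0) (h₁ : A + B * t₁ + C * t₁ ^ 2 = 0)
    (h₂ : A + B * t₂ + C * t₂ ^ 2 = 0) : A = 0 ∧ B = 0 ∧ C = 0 := by
  have e1 : B + C * (t₀ + t₁) = 0 :=
    mul_left_cancel₀ h01 (by linear_combination h₀ - h₁)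
  have e2 : B + C * (t₀ + t₂) = 0 :=
    mul_left_cancel₀ h02 (by linear_combination h₀ - h₂)
  have hC : C = 0 := mul_left_cancel₀ h12 (by linear_combination e1 - e2)
  have hB : B = 0 := by linear_combination e1 - (t₀ + t₁) * hC
  exact ⟨by linear_combination h₀ - t₀ * hB - t₀ ^ 2 * hC, hB, hC⟩

end SysAux

theorem sys_exists {H : ℝ} {g s n : ℤ} {T : Fin 3 → ℂ} (hT : Roots s n T) {p₀ : ℤ × ℤ}
    (h₀ : Box H g s n p₀) {S : Finset (ℤ × ℤ)} (hS : ∀ p ∈ S, Rel g T p₀ p) :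
    ∃ c, Sys g T S c := by
  classical
  have hr : ∀ p : ℤ × ℤ, ∃ r : Fin 3 → ℚ, p ∈ S →
      ∀ a, ev r (T a) ^ 2 = eta g (T a) p₀ * eta g (T a) p := by
    intro p
    by_cases hp : p ∈ S
    · obtain ⟨r, hr⟩ := hS p hp
      exact ⟨r, fun _ => hr⟩
    · exact ⟨0, fun h => absurd h hp⟩
  choose r hr using hr
  have hc : ∀ p q : ℤ × ℤ, ∃ c : Fin 3 → ℚ, ∀ a,
      ev c (T a) = ev (r p) (T a) * ev (r q) (T a) * (eta g (T a) p₀)⁻¹ := fun p q =>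
    SysAux.IsEv.mul hT (SysAux.IsEv.mul hT (f := fun a => ev (r p) (T a))
      (f' := fun a => ev (r q) (T a)) ⟨r p, fun _ => rfl⟩ ⟨r q, fun _ => rfl⟩)
      (SysAux.isEv_inv hT h₀)
  choose c hc using hc
  refine ⟨c, fun p hp q hq a => ?_, fun p _ q _ t ht a => ?_⟩
  · have h0 := SysAux.eta_ne hT h₀ a
    rw [hc, mul_pow, mul_pow, hr p hp, hr q hq]
    field_simp
  · have h0 := SysAux.eta_ne hT h₀ a
    rw [hc, hc, hc]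
    have h1 := hr t ht a
    field_simp
    linear_combination (-(ev (r p) (T a) * ev (r q) (T a))) * h1

theorem c_ne {H : ℝ} {g s n : ℤ} (hP : Par H g s n) {T : Fin 3 → ℂ} (hT : Roots s n T)
    {S : Finset (ℤ × ℤ)} (hS : ∀ p ∈ S, Box H g s n p) {c : ℤ × ℤ → ℤ × ℤ → Fin 3 → ℚ}
    (hc : Sys g T S c) {p q : ℤ × ℤ} (hp : p ∈ S) (hq : q ∈ S) (hpq : p ≠ q) : c p q 2 ≠ 0 := by
  intro h2
  obtain ⟨-, hg, -, hD, -, -⟩ := hP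
  have hD' : (DD s n : ℂ) ≠ 0 := by exact_mod_cast hD
  have hg' : (g : ℂ) ≠ 0 := by exact_mod_cast hg.ne'
  have hV : (T 0 - T 1) * (T 0 - T 2) * (T 1 - T 2) ≠ 0 := by
    intro h0
    have := (disc_roots hT).1
    rw [h0] at this
    exact mul_ne_zero (by norm_num : (256 : ℂ) ≠ 0) (pow_ne_zero 3 hD') (by rw [← this]; ring)
  have h01 : T 0 - T 1 ≠ 0 := fun h => hV (by rw [h]; ring)
  have h02 : T 0 - T 2 ≠ 0 := fun h => hV (by rw [h]; ring)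
  have h12 : T 1 - T 2 ≠ 0 := fun h => hV (by rw [h]; ring)
  have key : ∀ a, ((c p q 0 : ℂ) ^ 2 - 16 * p.1 * q.1) +
      (2 * (c p q 0 : ℂ) * c p q 1 + 4 * g ^ 2 * (p.1 * q.2 + q.1 * p.2)) * T a +
      ((c p q 1 : ℂ) ^ 2 - p.2 * q.2 * g ^ 4) * T a ^ 2 = 0 := by
    intro a
    have := hc.1 p hp q hq a
    simp only [ev, eta, h2] at this
    push_cast at this
    linear_combination this
  obtain ⟨hA, hB, hC⟩ := SysAux.quad_zero h01 h02 h12 (key 0) (key 1) (key 2)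
  have h3 : (16 * (g : ℂ) ^ 4) * ((p.1 : ℂ) * q.2 - q.1 * p.2) ^ 2 = 0 := by
    linear_combination (4 * (c p q 1 : ℂ) ^ 2) * hA + (64 * (p.1 : ℂ) * q.1) * hC -
      (2 * (c p q 0 : ℂ) * c p q 1 - 4 * g ^ 2 * (p.1 * q.2 + q.1 * p.2)) * hB
  have h4 : (p.1 : ℂ) * q.2 - q.1 * p.2 = 0 :=
    pow_eq_zero_iff (two_ne_zero) |>.1 ((mul_eq_zero.1 h3).resolve_left
      (mul_ne_zero (by norm_num) (pow_ne_zero 4 hg')))
  have h5 : p.1 * q.2 = q.1 * p.2 := by exact_mod_cast sub_eq_zero.1 h4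
  obtain ⟨-, -, hp0, hpc, -⟩ := hS p hp
  obtain ⟨-, -, hq0, hqc, -⟩ := hS q hq
  have d1 : p.2 ∣ q.2 := hpc.symm.dvd_of_dvd_mul_left ⟨q.1, by rw [h5]; ring⟩
  have d2 : q.2 ∣ p.2 := hqc.symm.dvd_of_dvd_mul_left ⟨p.1, by rw [← h5]; ring⟩
  have h6 : p.2 = q.2 := Int.dvd_antisymm hp0.le hq0.le d1 d2
  refine hpq (Prod.ext ?_ h6)
  rw [← h6] at h5
  exact mul_right_cancel₀ hp0.ne' h5

end Pool.Agent.Lib.MP_af4c59_nt.K9
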