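import Pool.Agent.Lib.MP_af4c59_nt.K9Defs

/-!
Units of norm one come from Hilbert 90 inside the group of units outside `T` (part A4).
-/

set_option autoImplicit false

namespace Pool.Agent.Lib.MP_af4c59_nt.K9

open NumberField Module IsDedekindDomain
open scoped nonZeroDivisors

namespace UnrAAux

section ideals

variable {R : Type} [CommRing R] [IsDedekindDomain R]

/-- The ideal is prime to every prime outside `T`. -/
def Supp (T : Finset (HeightOneSpectrum R)) (t : Ideal R) : Prop :=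
  ∀ q : HeightOneSpectrum R, q ∉ T → ¬ t ≤ q.asIdeal

variable {T : Finset (HeightOneSpectrum R)}

omit [IsDedekindDomain R] in
lemma Supp.one : Supp T 1 := fun q _ h =>
  q.isPrime.ne_top (top_le_iff.1 (by simpa using h))

omit [IsDedekindDomain R] in
lemma Supp.mul {s t : Ideal R} (hs : Supp T s) (ht : Supp T t) : Supp T (s * t) := fun q hq h =>
  (q.isPrime.mul_le.1 h).elim (hs q hq) (ht q hq)

omit [IsDedekindDomain R] in
lemma Supp.pow {s : Ideal R} (hs : Supp T s) (n : ℕ) : Supp T (s ^ n) := by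
  induction n with
  | zero => simpa using Supp.one
  | succ n ih => rw [pow_succ]; exact ih.mul hs

lemma Supp.self {p : HeightOneSpectrum R} (hp : p ∈ T) : Supp T p.asIdeal := fun q hq h => by
  have : p = q := HeightOneSpectrum.ext (p.isMaximal.eq_of_le q.isPrime.ne_top h)
  exact hq (this ▸ hp)

lemma val_le {α β : R} {t t' : Ideal R} (h : Ideal.span {α} * t = Ideal.span {β} * t')
    (q : HeightOneSpectrum R) (ht : ¬ t ≤ q.asIdeal) : q.intValuation α ≤ q.intValuation β := by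
  obtain ⟨τ, hτ, hτq⟩ := SetLike.not_le_iff_exists.1 ht
  have h1 : α * τ ∈ Ideal.span {β} := by
    refine Ideal.mul_le_left (J := t') ?_
    rw [← h]
    exact Ideal.mul_mem_mul (Ideal.mem_span_singleton_self α) hτ
  obtain ⟨c, hc⟩ := Ideal.mem_span_singleton'.1 h1
  have h2 : q.intValuation τ = 1 := (q.intValuation_eq_one_iff_mem_primeCompl τ).2 hτq
  calc q.intValuation α = q.intValuation (α * τ) := by rw [map_mul, h2, mul_one]
    _ = q.intValuation c * q.intValuation β := by rw [← hc, map_mul]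
    _ ≤ q.intValuation β := mul_le_of_le_one_left' (q.intValuation_le_one c)

end ideals

section classes

variable {K : Type} [Field K] [NumberField K] {T : Finset (HeightOneSpectrum (𝓞 K))}

lemma of_mem_closure {c : ClassGroup (𝓞 K)} (hc : c ∈ Subgroup.closure (cls '' (T : Set _))) :
    ∃ s t : (Ideal (𝓞 K))⁰, Supp T s ∧ Supp T t ∧ c * ClassGroup.mk0 s = ClassGroup.mk0 t := by
  induction hc using Subgroup.closure_induction with
  | mem x hx =>
    obtain ⟨q, hq, rfl⟩ := hx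
    exact ⟨1, ⟨q.asIdeal, mem_nonZeroDivisors_of_ne_zero q.ne_bot⟩, Supp.one, Supp.self hq,
      by rw [map_one, mul_one]; rfl⟩
  | one => exact ⟨1, 1, Supp.one, Supp.one, by rw [one_mul]⟩
  | mul x y _ _ hx hy =>
    obtain ⟨s, t, hs, ht, h⟩ := hx
    obtain ⟨s', t', hs', ht', h'⟩ := hy
    refine ⟨s * s', t * t', hs.mul hs', ht.mul ht', ?_⟩
    rw [map_mul, map_mul, ← h, ← h', mul_mul_mul_comm]
  | inv x _ hx =>
    obtain ⟨s, t, hs, ht, h⟩ := hx
    exact ⟨t, s, ht, hs, by rw [← h, inv_mul_cancel_left]⟩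

lemma decomp {J : Ideal (𝓞 K)} (hJ : J ≠ ⊥)
    (h : ∀ q : HeightOneSpectrum (𝓞 K), q ∉ T → 3 ∣ multiplicity q.asIdeal J) :
    ∃ a t : (Ideal (𝓞 K))⁰, J = a ^ 3 * t ∧ Supp T t ∧
      ClassGroup.mk0 t ∈ Subgroup.closure (cls '' (T : Set _)) := by
  classical
  let s := (Ideal.finite_factors hJ).toFinset
  let I : HeightOneSpectrum (𝓞 K) → (Ideal (𝓞 K))⁰ := fun q =>
    ⟨q.asIdeal, mem_nonZeroDivisors_of_ne_zero q.ne_bot⟩
  have h1 : ∏ q ∈ s, q.asIdeal ^ multiplicity q.asIdeal J = J := by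
    rw [← finprod_eq_prod_of_mulSupport_subset, Ideal.finprod_heightOneSpectrum_pow_multiplicity hJ]
    intro q hq
    simp only [s, Set.Finite.coe_toFinset, Set.mem_ofPred]
    by_contra hn
    exact hq (by simp [multiplicity_eq_zero.2 hn])
  refine ⟨∏ q ∈ s.filter (· ∉ T), I q ^ (multiplicity q.asIdeal J / 3),
    ∏ q ∈ s.filter (· ∈ T), I q ^ multiplicity q.asIdeal J, ?_, ?_, ?_⟩
  · refine h1.symm.trans ?_
    rw [← Finset.prod_filter_mul_prod_filter_not s (· ∈ T), mul_comm]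
    simp only [Submonoid.coe_finsetProd, SubmonoidClass.coe_pow, I]
    congr 1
    rw [← Finset.prod_pow]
    refine Finset.prod_congr rfl fun q hq => ?_
    rw [← pow_mul, Nat.div_mul_cancel (h q (Finset.mem_filter.1 hq).2)]
  · rw [Submonoid.coe_finsetProd]
    refine Finset.prod_induction _ (Supp T) (fun _ _ => Supp.mul) Supp.one fun q hq => ?_
    exact (Supp.self (Finset.mem_filter.1 hq).2).pow _
  · rw [map_prod]
    refine Subgroup.prod_mem _ fun q hq => ?_
    rw [map_pow]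
    refine Subgroup.pow_mem _ (Subgroup.subset_closure ?_) _
    exact ⟨q, (Finset.mem_filter.1 hq).2, rfl⟩

/-- An element whose valuations outside `T` are divisible by three is a cube up to `T`. -/
lemma cube_outside (hT : Sat T) {n : 𝓞 K} (hn : n ≠ 0)
    (h : ∀ q : HeightOneSpectrum (𝓞 K), q ∉ T → 3 ∣ multiplicity q.asIdeal (Ideal.span {n})) :
    ∃ x y : 𝓞 K, x ≠ 0 ∧ y ≠ 0 ∧ ∀ q : HeightOneSpectrum (𝓞 K), q ∉ T →
      q.intValuation (x ^ 3 * n) = q.intValuation (y ^ 3) := by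
  have hJ : Ideal.span {n} ≠ ⊥ := by simpa using hn
  obtain ⟨a, t, hat, ht, hc⟩ := decomp hJ h
  have h1 : ClassGroup.mk0 (a ^ 3 * t) = 1 := by
    rw [ClassGroup.mk0_eq_one_iff]
    simp only [Submonoid.coe_mul, SubmonoidClass.coe_pow]
    rw [← hat]
    exact ⟨n, rfl⟩
  have h2 : ClassGroup.mk0 a ∈ Subgroup.closure (cls '' (T : Set _)) := by
    apply hT
    rw [map_mul, map_pow] at h1
    rw [eq_inv_of_mul_eq_one_left h1]
    exact Subgroup.inv_mem _ hc
  obtain ⟨s, r, hs, hr, h3⟩ := of_mem_closure h2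
  rw [← map_mul, ClassGroup.mk0_eq_mk0_iff] at h3
  obtain ⟨x, y, hx, hy, h4⟩ := h3
  have h5 : Ideal.span {x ^ 3 * n} * (s : Ideal (𝓞 K)) ^ 3 =
      Ideal.span {y ^ 3} * ((r : Ideal (𝓞 K)) ^ 3 * t) := by
    rw [← Ideal.span_singleton_mul_span_singleton, ← Ideal.span_singleton_pow,
      ← Ideal.span_singleton_pow, hat, ← mul_assoc (Ideal.span {y} ^ 3), ← mul_pow, ← h4,
      Submonoid.coe_mul]
    ring
  exact ⟨x, y, hx, hy, fun q hq => le_antisymm (val_le h5 q (hs.pow 3 q hq))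
    (val_le h5.symm q (((hr.pow 3).mul ht) q hq))⟩

end classes

section galois

variable {K N : Type} [Field K] [NumberField K] [Field N] [NumberField N] [Algebra K N]
  [IsGalois K N]

lemma card_gal (hN : finrank K N = 3) : Nat.card Gal(N/K) = 3 := by
  rw [IsGalois.card_aut_eq_finrank, hN]

lemma norm_eq (hN : finrank K N = 3) {σ : N ≃ₐ[K] N} (hσ : σ ≠ 1) (x : N) :
    algebraMap K N (Algebra.norm K x) = x * σ x * σ (σ x) := by
  classical
  have hc := card_gal hN
  have : Fact (Nat.Prime 3) := ⟨Nat.prime_three⟩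
  have ho : orderOf σ = 3 := orderOf_eq_prime (by rw [← hc]; exact pow_card_eq_one') hσ
  have h2 : σ * σ ≠ 1 := by
    rw [← pow_two]
    exact pow_ne_one_of_lt_orderOf two_ne_zero (by omega)
  have h3 : σ ≠ σ * σ := fun h => hσ (left_eq_mul.1 h)
  have hu : (Finset.univ : Finset Gal(N/K)) = {1, σ, σ * σ} := by
    symm
    apply Finset.eq_univ_of_card
    rw [← Nat.card_eq_fintype_card, hc, Finset.card_eq_three]
    exact ⟨1, σ, σ * σ, hσ.symm, h2.symm, h3, rfl⟩
  rw [Algebra.norm_eq_prod_automorphisms, hu, Finset.prod_insert (by simp [hσ.symm, h2.symm]),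
    Finset.prod_pair h3, mul_assoc]
  rfl

lemma ram_one (hN : finrank K N = 3) {σ : N ≃ₐ[K] N}
    (hU : ∀ P : Ideal (𝓞 N), P.IsPrime → P ≠ ⊥ →
      ∃ x y : 𝓞 N, (y : N) = σ (x : N) ∧ y - x ∉ P)
    (q : HeightOneSpectrum (𝓞 K)) (P : HeightOneSpectrum (𝓞 N)) [P.asIdeal.LiesOver q.asIdeal] :
    q.asIdeal.ramificationIdx' P.asIdeal = 1 := by
  have hG : IsGaloisGroup Gal(N/K) (𝓞 K) (𝓞 N) :=
    IsGaloisGroup.of_isFractionRing Gal(N/K) (𝓞 K) (𝓞 N) K N
  have hq := q.isMaximal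
  have hP := P.isPrime
  have hfin : Finite (𝓞 K ⧸ q.asIdeal) := Ideal.finiteQuotientOfFreeOfNeBot _ q.ne_bot
  have hperf : PerfectField q.asIdeal.ResidueField := inferInstance
  have hc := Ideal.card_inertia_eq_ramificationIdxIn (G := Gal(N/K)) q.asIdeal P.asIdeal
  rw [Ideal.ramificationIdxIn_eq_ramificationIdx q.asIdeal P.asIdeal Gal(N/K)] at hc
  rw [Ideal.ramificationIdx'_eq_ramificationIdx q.asIdeal P.asIdeal q.ne_bot, ← hc]
  have : Fact (Nat.card Gal(N/K)).Prime := ⟨by rw [card_gal hN]; exact Nat.prime_three⟩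
  rcases (P.asIdeal.inertia Gal(N/K)).eq_bot_or_eq_top_of_prime_card with h | h
  · rw [h]; simp
  · exfalso
    obtain ⟨x, y, hxy, hne⟩ := hU P.asIdeal hP P.ne_bot
    have h1 : σ ∈ P.asIdeal.inertia Gal(N/K) := by rw [h]; trivial
    have h2 : σ • x - x ∈ P.asIdeal := h1 x
    have h3 : y = σ • x := by
      apply RingOfIntegers.ext
      rw [hxy]
      rfl
    exact hne (h3 ▸ h2)

omit [NumberField K] [IsGalois K N] in
lemma conj_le {T : Finset (HeightOneSpectrum (𝓞 K))} {S : Set (HeightOneSpectrum (𝓞 N))}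
    (hS : ∀ P, P ∈ S ↔ ∃ q ∈ T, P.asIdeal.LiesOver q.asIdeal) {u : N}
    (hu : ∀ P, P ∉ S → P.valuation N u ≤ 1) (g : N ≃ₐ[K] N) (P : HeightOneSpectrum (𝓞 N))
    (hP : P ∉ S) : P.valuation N (g u) ≤ 1 := by
  let f : 𝓞 N ≃+* 𝓞 N := RingOfIntegers.mapRingEquiv g.toRingEquiv
  have hf : ∀ x : 𝓞 N, ((f x : 𝓞 N) : N) = g x := fun x => rfl
  let P' := HeightOneSpectrum.comap (f : 𝓞 N →+* 𝓞 N) f.surjective P
  have hP' : P' ∉ S := by
    intro h
    obtain ⟨q, hq, hl⟩ := (hS P').1 h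
    refine hP ((hS P).2 ⟨q, hq, ⟨?_⟩⟩)
    rw [hl.over]
    ext x
    have : f (algebraMap (𝓞 K) (𝓞 N) x) = algebraMap (𝓞 K) (𝓞 N) x := by
      apply RingOfIntegers.ext
      rw [hf]
      exact g.commutes (x : K)
    simp only [Ideal.under, Ideal.mem_comap, P', HeightOneSpectrum.comap_asIdeal, RingHom.coe_coe,
      this]
  obtain ⟨n, d, hnd⟩ := P'.exists_primeCompl_mul_eq_of_integer u (hu P' hP')
  have h1 : g u * (f d : 𝓞 N) = (f n : 𝓞 N) := by
    rw [hf, hf, ← map_mul]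
    exact congrArg g hnd
  have h2 : P.valuation N ((f d : 𝓞 N) : N) = 1 :=
    P.valuation_eq_one_iff_notMem.2 d.2
  calc P.valuation N (g u) = P.valuation N (g u * (f d : 𝓞 N)) := by rw [map_mul, h2, mul_one]
    _ ≤ 1 := by rw [h1]; exact P.valuation_le_one _

lemma exists_int (hN : finrank K N = 3) {σ : N ≃ₐ[K] N} (hσ : σ ≠ 1) {u : N}
    (h1 : u * σ u * σ (σ u) = 1) : ∃ y : 𝓞 N, y ≠ 0 ∧ u * y = σ y := by
  have : Fact (Nat.Prime 3) := ⟨Nat.prime_three⟩
  have hn : Algebra.norm K u⁻¹ = 1 := by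
    have : Algebra.norm K u = 1 :=
      (algebraMap K N).injective (by rw [norm_eq hN hσ, h1, map_one])
    simp [Algebra.norm_inv, this]
  have : IsCyclic Gal(N/K) := isCyclic_of_prime_card (card_gal hN)
  obtain ⟨y, hy⟩ := groupCohomology.exists_div_of_norm_eq_one (g := σ)
    (fun x => mem_zpowers_of_prime_card (card_gal hN) hσ) hn
  have hu : u ≠ 0 := by rintro rfl; simp at h1
  have hσy : σ (y : N) ≠ 0 := by simp
  have h2 : u * y = σ y := by
    field_simp at hy
    rw [← hy]; ring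
  have halg : IsAlgebraic ℤ (y : N) :=
    (IsFractionRing.isAlgebraic_iff ℤ ℚ N).2 (Algebra.IsAlgebraic.isAlgebraic _)
  obtain ⟨m, hm, hint⟩ := halg.exists_integral_multiple
  refine ⟨⟨m • (y : N), hint⟩, fun h => ?_, ?_⟩
  · have : m • (y : N) = 0 := congrArg (fun z : 𝓞 N => (z : N)) h
    simp [hm] at this
  · change u * (m • (y : N)) = σ (m • (y : N))
    rw [map_zsmul, ← h2, mul_smul_comm]

end galois

end UnrAAux

open UnrAAux in
theorem h90_unit (K N : Type) [Field K] [NumberField K] [Field N] [NumberField N] [Algebra K N]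
    [IsGalois K N] (hN : finrank K N = 3) (σ : N ≃ₐ[K] N) (hσ : σ ≠ 1)
    (hU : ∀ P : Ideal (𝓞 N), P.IsPrime → P ≠ ⊥ →
      ∃ x y : 𝓞 N, (y : N) = σ (x : N) ∧ y - x ∉ P)
    (T : Finset (HeightOneSpectrum (𝓞 K))) (hT : Sat T) (S : Set (HeightOneSpectrum (𝓞 N)))
    (hS : ∀ P, P ∈ S ↔ ∃ q ∈ T, P.asIdeal.LiesOver q.asIdeal) (u : Nˣ) (hu : u ∈ S.unit N)
    (h1 : (u : N) * σ u * σ (σ u) = 1) :
    ∃ y : Nˣ, y ∈ S.unit N ∧ (u : N) * y = σ y := by
  obtain ⟨y, hy0, hy⟩ := exists_int hN hσ h1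
  have hu1 : ∀ P, P ∉ S → P.valuation N (u : N) = 1 := hu
  have hu2 : ∀ P, P ∉ S → P.valuation N (σ u) = 1 := fun P hP => by
    have a1 := conj_le hS (fun P hP => (hu1 P hP).le) σ P hP
    have a2 := conj_le hS (conj_le hS (fun P hP => (hu1 P hP).le) σ) σ P hP
    have a3 := congrArg (P.valuation N) h1
    rw [map_mul, map_mul, hu1 P hP, one_mul, map_one] at a3
    refine le_antisymm a1 ?_
    rw [← a3]
    exact mul_le_of_le_one_right' a2
  set n : 𝓞 K := RingOfIntegers.norm K y with hn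
  have hyN : (y : N) ≠ 0 := by simpa using hy0
  have hn0 : n ≠ 0 := fun h => by
    have : Algebra.norm K (y : N) = 0 := congrArg (fun z : 𝓞 K => (z : K)) h
    exact hyN (Algebra.norm_eq_zero_iff.1 this)
  have hval : ∀ (q : HeightOneSpectrum (𝓞 K)) (P : HeightOneSpectrum (𝓞 N)),
      P.asIdeal.LiesOver q.asIdeal → ∀ x : 𝓞 K,
        P.valuation N (algebraMap K N x) = q.intValuation x := fun q P hl x => by
    rw [← HeightOneSpectrum.valuation_liesOver N q P, ram_one hN hU q P, pow_one,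
      HeightOneSpectrum.valuation_of_algebraMap]
  have hcube : ∀ P, P ∉ S → P.valuation N (algebraMap K N n) = P.valuation N (y : N) ^ 3 :=
    fun P hP => by
      have : algebraMap K N n = y * σ y * σ (σ y) := norm_eq hN hσ (y : N)
      rw [this, ← hy, map_mul σ, ← hy]
      simp only [map_mul, hu1 P hP, hu2 P hP, one_mul]
      rw [pow_three, mul_assoc]
  obtain ⟨a, b, ha, hb, hab⟩ := cube_outside hT hn0 fun q hq => by
    have := q.isMaximal
    obtain ⟨P, hPm, hl⟩ := Ideal.exists_maximal_ideal_liesOver_of_isIntegral (S := 𝓞 N) q.asIdeal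
    let P' : HeightOneSpectrum (𝓞 N) :=
      ⟨P, hPm.isPrime, Ideal.ne_bot_of_liesOver_of_ne_bot q.ne_bot P⟩
    have hP' : P' ∉ S := fun h => by
      obtain ⟨q', hq', hl'⟩ := (hS P').1 h
      exact hq ((HeightOneSpectrum.ext (hl'.over.trans hl.over.symm) : q' = q) ▸ hq')
    have e := hcube P' hP'
    rw [hval q P' hl, HeightOneSpectrum.valuation_of_algebraMap,
      q.intValuation_eq_exp_neg_multiplicity hn0, P'.intValuation_eq_exp_neg_multiplicity hy0,
      ← WithZero.exp_nsmul, WithZero.exp_inj, nsmul_eq_mul] at e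
    refine ⟨multiplicity P'.asIdeal (Ideal.span {y}), ?_⟩
    push_cast at e
    omega
  have ha' : algebraMap K N a ≠ 0 := by simpa using ha
  have hb' : algebraMap K N b ≠ 0 := by simpa using hb
  refine ⟨Units.mk0 (y * algebraMap K N a / algebraMap K N b)
    (div_ne_zero (mul_ne_zero hyN ha') hb'), fun P hP => ?_, ?_⟩
  · have hl : P.asIdeal.LiesOver (P.under (𝓞 K)).asIdeal := ⟨rfl⟩
    have hq : P.under (𝓞 K) ∉ T := fun h => hP ((hS P).2 ⟨_, h, hl⟩)
    have e := hab _ hq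
    rw [map_mul, map_pow, map_pow, ← hval _ P hl, ← hval _ P hl, ← hval _ P hl, hcube P hP,
      ← mul_pow] at e
    have e' := pow_left_injective (by norm_num : (3 : ℕ) ≠ 0) e
    rw [Units.val_mk0, map_div₀, map_mul, mul_comm, e']
    exact div_self ((P.valuation N).ne_zero_iff.2 hb')
  · simp only [Units.val_mk0, map_div₀, map_mul, AlgEquiv.commutes, ← hy]
    ring

end Pool.Agent.Lib.MP_af4c59_nt.K9
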