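import Pool.Agent.Lib.MP_af4c59_nt.K9Alg
import Pool.Agent.Lib.MP_af4c59_nt.K9SUnit
import Pool.Agent.Lib.MP_af4c59_nt.K9UnrA

/-!
No unramified cyclic cubic extension splits a saturated set of primes (part A4).
-/

set_option autoImplicit false

namespace Pool.Agent.Lib.MP_af4c59_nt.K9

open NumberField Module IsDedekindDomain

namespace UnrAux

variable {K N : Type} [Field K] [NumberField K] [Field N] [NumberField N] [Algebra K N]

/-- The automorphism of the ring of integers. -/
def ri (τ : N ≃ₐ[K] N) : 𝓞 N ≃+* 𝓞 N := RingOfIntegers.mapRingEquiv τ.toRingEquiv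

omit [NumberField K] [NumberField N] in
lemma ri_coe (τ : N ≃ₐ[K] N) (x : 𝓞 N) : ((ri τ x : 𝓞 N) : N) = τ (x : N) := rfl

/-- The pull-back of a prime. -/
def act (τ : N ≃ₐ[K] N) (P : HeightOneSpectrum (𝓞 N)) : HeightOneSpectrum (𝓞 N) :=
  HeightOneSpectrum.comap (ri τ : 𝓞 N →+* 𝓞 N) (ri τ).surjective P

omit [NumberField K] [NumberField N] in
lemma mem_act (τ : N ≃ₐ[K] N) (P : HeightOneSpectrum (𝓞 N)) (x : 𝓞 N) :
    x ∈ (act τ P).asIdeal ↔ ri τ x ∈ P.asIdeal := Iff.rfl

omit [NumberField K] [NumberField N] in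
lemma act_act (τ ρ : N ≃ₐ[K] N) (P : HeightOneSpectrum (𝓞 N)) :
    act τ (act ρ P) = act (ρ * τ) P := by
  ext x
  rw [mem_act, mem_act, mem_act]
  have : ri ρ (ri τ x) = ri (ρ * τ) x := by
    apply RingOfIntegers.coe_injective
    rfl
  rw [this]

omit [NumberField K] [NumberField N] in
lemma act_one (P : HeightOneSpectrum (𝓞 N)) : act (1 : N ≃ₐ[K] N) P = P := by
  ext x
  rw [mem_act]
  have : ri (1 : N ≃ₐ[K] N) x = x := by
    apply RingOfIntegers.coe_injective
    rfl
  rw [this]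

omit [NumberField K] [NumberField N] in
lemma under_act (τ : N ≃ₐ[K] N) (P : HeightOneSpectrum (𝓞 N)) :
    (act τ P).under (𝓞 K) = P.under (𝓞 K) := by
  ext x
  simp only [HeightOneSpectrum.under_asIdeal, Ideal.under_def, Ideal.mem_comap]
  rw [mem_act]
  have : ri τ (algebraMap (𝓞 K) (𝓞 N) x) = algebraMap (𝓞 K) (𝓞 N) x := by
    apply RingOfIntegers.coe_injective
    exact τ.commutes (x : K)
  rw [this]

omit [NumberField K] in
lemma val_act (τ : N ≃ₐ[K] N) (P : HeightOneSpectrum (𝓞 N)) (x : N)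
    (h : (act τ P).valuation N x = 1) : P.valuation N (τ x) = 1 := by
  obtain ⟨n, d, hnd⟩ := (act τ P).exists_primeCompl_mul_eq_of_integer x h.le
  have hd : (d : 𝓞 N) ∉ (act τ P).asIdeal := d.2
  have hn : n ∉ (act τ P).asIdeal := by
    rw [← HeightOneSpectrum.valuation_eq_one_iff_notMem (K := N), ← hnd, map_mul, h, one_mul,
      HeightOneSpectrum.valuation_eq_one_iff_notMem]
    exact hd
  rw [mem_act, ← HeightOneSpectrum.valuation_eq_one_iff_notMem (K := N)] at hd hn
  have h2 : τ x * algebraMap (𝓞 N) N (ri τ d) = algebraMap (𝓞 N) N (ri τ n) := by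
    have := congrArg τ hnd
    rw [map_mul] at this
    exact this
  have h3 := congrArg (P.valuation N) h2
  rwa [map_mul, hd, hn, mul_one] at h3

omit [NumberField K] [NumberField N] in
lemma liesOver_iff (P : HeightOneSpectrum (𝓞 N)) (q : HeightOneSpectrum (𝓞 K)) :
    P.asIdeal.LiesOver q.asIdeal ↔ P.under (𝓞 K) = q := by
  constructor
  · intro h
    ext1
    exact h.over.symm
  · rintro rfl
    exact ⟨rfl⟩

/-- The primes above `T`. -/
lemma exists_S (T : Finset (HeightOneSpectrum (𝓞 K))) :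
    ∃ S : Finset (HeightOneSpectrum (𝓞 N)), ∀ P, P ∈ S ↔ P.under (𝓞 K) ∈ T := by
  have hfin : {P : HeightOneSpectrum (𝓞 N) | P.under (𝓞 K) ∈ T}.Finite := by
    have h1 : ∀ q : HeightOneSpectrum (𝓞 K),
        {P : HeightOneSpectrum (𝓞 N) | P.under (𝓞 K) = q}.Finite := by
      intro q
      have := q.isMaximal
      have h2 := IsDedekindDomain.primesOver_finite q.asIdeal (𝓞 N)
      refine Set.Finite.of_finite_image (f := fun P => P.asIdeal) (h2.subset ?_) ?_
      · rintro _ ⟨P, hP, rfl⟩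
        exact ⟨P.isPrime, (liesOver_iff P q).2 hP⟩
      · intro P _ Q _ h
        exact HeightOneSpectrum.ext h
    refine (T.finite_toSet.biUnion fun q _ => h1 q).subset ?_
    intro P hP
    exact Set.mem_biUnion (x := P.under (𝓞 K)) hP rfl
  exact ⟨hfin.toFinset, fun P => by simp⟩

omit [NumberField K] [NumberField N] in
lemma card_S (σ : N ≃ₐ[K] N) (h3 : σ * σ * σ = 1) (T : Finset (HeightOneSpectrum (𝓞 K)))
    (S : Finset (HeightOneSpectrum (𝓞 N))) (hS : ∀ P, P ∈ S ↔ P.under (𝓞 K) ∈ T)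
    (h : ∀ q ∈ T, ∃ P : Ideal (𝓞 N), P.IsPrime ∧ P.LiesOver q.asIdeal ∧
      ∃ x y : 𝓞 N, (y : N) = σ (x : N) ∧ x ∈ P ∧ y ∉ P) : 3 * T.card ≤ S.card := by
  classical
  refine Finset.mul_card_image_le_card_of_maps_to (f := fun P => P.under (𝓞 K))
    (fun P hP => (hS P).1 hP) 3 ?_
  intro q hq
  obtain ⟨P0, hP, hl, x, y, hxy, hx, hy⟩ := h q hq
  have hne : P0 ≠ ⊥ := Ideal.ne_bot_of_liesOver_of_ne_bot q.ne_bot P0
  let P : HeightOneSpectrum (𝓞 N) := ⟨P0, hP, hne⟩
  have hu : P.under (𝓞 K) = q := (liesOver_iff P q).1 hl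
  have h1 : act σ P ≠ P := by
    intro e
    have hx' : x ∈ (act σ P).asIdeal := by rw [e]; exact hx
    rw [mem_act] at hx'
    have : ri σ x = y := by
      apply RingOfIntegers.coe_injective
      exact hxy.symm
    rw [this] at hx'
    exact hy hx'
  have h2 : act (σ * σ) P ≠ P := by
    intro e
    have := congrArg (act σ) e
    rw [act_act, h3, act_one] at this
    exact h1 this.symm
  have h4 : act σ P ≠ act (σ * σ) P := by
    intro e
    have := congrArg (act (σ * σ)) e
    rw [act_act, act_act, ← mul_assoc, h3, act_one, ← mul_assoc, h3, one_mul] at this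
    exact h1 this.symm
  have hc : ({P, act σ P, act (σ * σ) P} : Finset _).card = 3 :=
    Finset.card_eq_three.2 ⟨_, _, _, h1.symm, h2.symm, h4, rfl⟩
  rw [← hc]
  refine Finset.card_le_card ?_
  intro Q hQ
  simp only [Finset.mem_insert, Finset.mem_singleton] at hQ
  have hQu : Q.under (𝓞 K) = q := by
    rcases hQ with rfl | rfl | rfl
    · exact hu
    · rw [under_act, hu]
    · rw [under_act, hu]
  exact Finset.mem_filter.2 ⟨(hS Q).2 (hQu ▸ hq), hQu⟩

omit [NumberField K] in
lemma sq_eq_one_of_pow (hN : Odd (finrank ℚ N)) (x : N) (n : ℕ) (hn : n ≠ 0) (h : x ^ n = 1) :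
    x ^ 2 = 1 := by
  classical
  obtain ⟨w, hw⟩ := Fintype.card_pos_iff.1 (InfinitePlace.nrRealPlaces_pos_of_odd_finrank hN)
  let φ : N →+* ℝ := InfinitePlace.embedding_of_isReal hw
  apply φ.injective
  have h1 : φ x ^ n = 1 := by rw [← map_pow, h, map_one]
  have h2 : |φ x| ^ n = 1 := by rw [← abs_pow, h1, abs_one]
  have h3 : |φ x| = 1 := (pow_eq_one_iff_of_nonneg (abs_nonneg _) hn).1 h2
  rw [map_pow, map_one, ← sq_abs, h3, one_pow]

lemma fixed_mem [IsGalois K N] (hN : finrank K N = 3) (σ : N ≃ₐ[K] N) (hσ : σ ≠ 1) (x : N)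
    (hx : σ x = x) : ∃ b : K, algebraMap K N b = x := by
  have hc : Nat.card (N ≃ₐ[K] N) = 3 := by rw [IsGalois.card_aut_eq_finrank, hN]
  have : Fact (Nat.Prime 3) := ⟨Nat.prime_three⟩
  have ht : Subgroup.zpowers σ = ⊤ := zpowers_eq_top_of_prime_card hc hσ
  have hall : ∀ g : N ≃ₐ[K] N, g x = x := by
    intro g
    have hg : g ∈ MulAction.stabilizer (N ≃ₐ[K] N) x := by
      have : Subgroup.zpowers σ ≤ MulAction.stabilizer (N ≃ₐ[K] N) x :=
        (Subgroup.zpowers_le).2 hx
      exact this (ht ▸ Subgroup.mem_top g)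
    exact hg
  exact (IsGalois.mem_range_algebraMap_iff_fixed x).2 hall

lemma unit_of_map (T : Finset (HeightOneSpectrum (𝓞 K)))
    (S : Finset (HeightOneSpectrum (𝓞 N))) (hS : ∀ P, P ∈ S ↔ P.under (𝓞 K) ∈ T) (b : Kˣ)
    (hb : Units.map (algebraMap K N : K →* N) b ∈ (S : Set (HeightOneSpectrum (𝓞 N))).unit N) :
    b ∈ (T : Set (HeightOneSpectrum (𝓞 K))).unit K := by
  intro q hq
  have := q.isMaximal
  obtain ⟨P0, hP, hl⟩ := Ideal.exists_maximal_ideal_liesOver_of_isIntegral (S := 𝓞 N) q.asIdeal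
  have hne : P0 ≠ ⊥ := Ideal.ne_bot_of_liesOver_of_ne_bot q.ne_bot P0
  let P : HeightOneSpectrum (𝓞 N) := ⟨P0, hP.isPrime, hne⟩
  have hl' : P.asIdeal.LiesOver q.asIdeal := hl
  have hu : P.under (𝓞 K) = q := (liesOver_iff P q).1 hl
  have hPS : P ∉ (S : Set (HeightOneSpectrum (𝓞 N))) := fun h =>
    hq (hu ▸ (hS P).1 h)
  have h1 : P.valuation N (algebraMap K N (b : K)) = 1 := hb P hPS
  rw [← HeightOneSpectrum.valuation_liesOver N q P] at h1
  exact (pow_eq_one_iff.1 h1).resolve_right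
    (Ideal.IsDedekindDomain.ramificationIdx'_ne_zero_of_liesOver P.asIdeal q.ne_bot)

omit [NumberField K] in
lemma map_mem (τ : N ≃ₐ[K] N) (T : Finset (HeightOneSpectrum (𝓞 K)))
    (S : Finset (HeightOneSpectrum (𝓞 N))) (hS : ∀ P, P ∈ S ↔ P.under (𝓞 K) ∈ T) (u : Nˣ)
    (hu : u ∈ (S : Set (HeightOneSpectrum (𝓞 N))).unit N) :
    Units.map (τ : N →* N) u ∈ (S : Set (HeightOneSpectrum (𝓞 N))).unit N := by
  intro P hP
  refine val_act τ P u (hu _ fun h => hP ?_)
  have := (hS _).1 h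
  rw [under_act] at this
  exact (hS P).2 this

/-- The abstract rank count. -/
lemma core {U : Type} [AddCommGroup U] [Module.Finite ℤ U] (σ : U →ₗ[ℤ] U)
    (h3 : ∀ u, σ (σ (σ u)) = u) (ht : ∀ (n : ℤ) (u : U), n ≠ 0 → n • u = 0 → (2 : ℤ) • u = 0)
    (h : ∀ u, (2 : ℤ) • (u + σ u + σ (σ u)) = 0 →
      ∃ y, (2 : ℤ) • u = (2 : ℤ) • (σ y - y)) :
    finrank ℤ U ≤ 3 * finrank ℤ (LinearMap.ker (σ - LinearMap.id)) := by
  let M : Submodule ℤ U := LinearMap.range (LinearMap.lsmul ℤ U 2)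
  have hM : ∀ x, x ∈ M ↔ ∃ u, (2 : ℤ) • u = x := fun x => Iff.rfl
  have hσ : ∀ x ∈ M, σ x ∈ M := by
    intro x hx
    obtain ⟨u, rfl⟩ := (hM x).1 hx
    exact (hM _).2 ⟨σ u, by rw [map_smul]⟩
  have : Module.IsTorsionFree ℤ M := by
    refine Module.IsTorsionFree.of_smul_eq_zero fun n m hm => ?_
    by_cases hn : n = 0
    · exact Or.inl hn
    · right
      obtain ⟨u, hu⟩ := (hM _).1 m.2
      apply Subtype.ext
      have h1 : n • (m : U) = 0 := congrArg Subtype.val hm
      rw [← hu, smul_smul] at h1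
      rw [← hu]
      exact ht _ u (mul_ne_zero hn two_ne_zero) h1
  have h1 := rank_le (M := M) (σ.restrict hσ) (fun u => Subtype.ext (h3 u)) (by
    intro m hm
    obtain ⟨u, hu⟩ := (hM _).1 m.2
    have h1 : (m : U) + σ m + σ (σ m) = 0 := congrArg Subtype.val hm
    obtain ⟨y, hy⟩ := h u (by
      rw [← hu, map_smul, map_smul] at h1
      rw [smul_add, smul_add, h1])
    refine ⟨⟨(2 : ℤ) • y, (hM _).2 ⟨y, rfl⟩⟩, Subtype.ext ?_⟩
    show (m : U) = σ ((2 : ℤ) • y) - (2 : ℤ) • y
    rw [← hu, hy, map_smul, smul_sub])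
  have h2 : finrank ℤ (U ⧸ M) = 0 := by
    rw [Module.finrank_eq_zero_iff]
    intro x
    obtain ⟨u, rfl⟩ := Submodule.Quotient.mk_surjective M x
    refine ⟨2, two_ne_zero, ?_⟩
    rw [← Submodule.Quotient.mk_smul, Submodule.Quotient.mk_eq_zero]
    exact (hM _).2 ⟨u, rfl⟩
  have h4 := Submodule.finrank_quotient_add_finrank M
  have h5 : finrank ℤ (LinearMap.ker (σ.restrict hσ - LinearMap.id)) ≤
      finrank ℤ (LinearMap.ker (σ - LinearMap.id)) := by
    rw [← Submodule.finrank_map_subtype_eq M]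
    refine Submodule.finrank_mono ?_
    rintro _ ⟨m, hm, rfl⟩
    exact congrArg Subtype.val hm
  omega

end UnrAux

open UnrAux in
theorem no_unram (K N : Type) [Field K] [NumberField K] [Field N] [NumberField N] [Algebra K N]
    [IsGalois K N] (hN : finrank K N = 3) (hK : Odd (finrank ℚ K)) (σ : N ≃ₐ[K] N) (hσ : σ ≠ 1)
    (hU : ∀ P : Ideal (𝓞 N), P.IsPrime → P ≠ ⊥ →
      ∃ x y : 𝓞 N, (y : N) = σ (x : N) ∧ y - x ∉ P)
    (T : Finset (HeightOneSpectrum (𝓞 K))) (hT : Sat T)
    (hS : ∀ q ∈ T, ∃ P : Ideal (𝓞 N), P.IsPrime ∧ P.LiesOver q.asIdeal ∧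
      ∃ x y : 𝓞 N, (y : N) = σ (x : N) ∧ x ∈ P ∧ y ∉ P) : False := by
  obtain ⟨S, hST⟩ := exists_S (N := N) T
  have hc : Nat.card (N ≃ₐ[K] N) = 3 := by rw [IsGalois.card_aut_eq_finrank, hN]
  have h3 : σ * σ * σ = 1 := by
    rw [← pow_three', ← hc]
    exact pow_card_eq_one'
  have hcard := card_S σ h3 T S hST hS
  have hodd : Odd (finrank ℚ N) := by
    rw [← finrank_mul_finrank ℚ K N, hN]
    exact hK.mul (by decide)
  obtain ⟨hfN, hrN⟩ := sunit_rank N S
  obtain ⟨hfK, hrK⟩ := sunit_rank K T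
  set G := (S : Set (HeightOneSpectrum (𝓞 N))).unit N with hG
  set H := (T : Set (HeightOneSpectrum (𝓞 K))).unit K with hH
  let s0 : G →* G := ((Units.map (σ : N →* N)).comp G.subtype).codRestrict G
    fun u => map_mem σ T S hST u u.2
  let s : Additive G →ₗ[ℤ] Additive G := (MonoidHom.toAdditive s0).toIntLinearMap
  let val : Additive G → N := fun u => ((Additive.toMul u : G) : Nˣ)
  have val_inj : ∀ u v, val u = val v → u = v := fun u v h =>
    Additive.toMul.injective (Subtype.ext (Units.ext h))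
  have val_s : ∀ u, val (s u) = σ (val u) := fun u => rfl
  have val_add : ∀ u v, val (u + v) = val u * val v := fun u v => rfl
  have val_zero : val 0 = 1 := rfl
  have val_two : ∀ u, val ((2 : ℤ) • u) = val u ^ 2 := by
    intro u
    rw [two_zsmul, val_add, sq]
  have val_nsmul : ∀ (n : ℕ) u, val (n • u) = val u ^ n := by
    intro n u
    induction n with
    | zero => rw [zero_smul, pow_zero, val_zero]
    | succ n ih => rw [succ_nsmul, val_add, ih, pow_succ]
  have h1 := core s (fun u => val_inj _ _ (by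
      rw [val_s, val_s, val_s]
      exact congrArg (fun g : N ≃ₐ[K] N => g (val u)) h3))
    (by
      intro n u hn hu
      apply val_inj
      rw [val_two, val_zero]
      refine sq_eq_one_of_pow hodd _ n.natAbs (Int.natAbs_ne_zero.2 hn) ?_
      rw [← val_nsmul, natAbs_nsmul_eq_zero.2 hu, val_zero])
    (by
      intro u hu
      have h2 := congrArg val hu
      rw [val_two, val_zero, val_add, val_add, val_s, val_s, val_s] at h2
      have key : ∀ w : Nˣ, w ∈ G → (w : N) * σ w * σ (σ w) = 1 → (w : N) ^ 2 = val u ^ 2 →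
          ∃ y, (2 : ℤ) • u = (2 : ℤ) • (s y - y) := by
        intro w hw hw1 hw2
        obtain ⟨y, hy, hy1⟩ := h90_unit K N hN σ hσ hU T hT S (fun P => by
          rw [Finset.mem_coe, hST]
          constructor
          · intro h
            exact ⟨_, h, (liesOver_iff P _).2 rfl⟩
          · rintro ⟨q, hq, hl⟩
            rw [(liesOver_iff P q).1 hl]
            exact hq) w hw hw1
        refine ⟨Additive.ofMul ⟨y, hy⟩, ?_⟩
        rw [zsmul_sub, eq_sub_iff_add_eq]
        apply val_inj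
        rw [val_add, val_two, val_two, val_two, val_s, ← hw2, ← mul_pow]
        exact congrArg (· ^ 2) hy1
      rcases sq_eq_one_iff.1 h2 with h4 | h4
      · exact key _ (Additive.toMul u).2 h4 rfl
      · refine key (-((Additive.toMul u : G) : Nˣ)) ?_ ?_ ?_
        · intro v hv
          rw [Units.val_neg, Valuation.map_neg]
          exact (Additive.toMul u).2 v hv
        · rw [Units.val_neg, map_neg, map_neg]
          show -val u * -σ (val u) * -σ (σ (val u)) = 1
          linear_combination -h4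
        · rw [Units.val_neg, neg_sq])
  have h5 : finrank ℤ (LinearMap.ker (s - LinearMap.id)) ≤ finrank ℤ (Additive H) := by
    let j : LinearMap.ker (s - LinearMap.id) →ₗ[ℤ] Additive Nˣ :=
      (MonoidHom.toAdditive G.subtype).toIntLinearMap.comp (Submodule.subtype _)
    let ι : Additive H →ₗ[ℤ] Additive Nˣ :=
      (MonoidHom.toAdditive
        ((Units.map (algebraMap K N : K →* N)).comp H.subtype)).toIntLinearMap
    have hj : Function.Injective j := by
      intro a b hab
      exact Subtype.ext (val_inj _ _ (congrArg (fun x : Additive Nˣ => ((Additive.toMul x : Nˣ) : N))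
        hab))
    rw [← LinearMap.finrank_range_of_inj hj]
    refine le_trans (Submodule.finrank_mono ?_) (LinearMap.finrank_range_le ι)
    rintro _ ⟨a, rfl⟩
    have ha : s a = a := sub_eq_zero.1 a.2
    obtain ⟨b, hb⟩ := fixed_mem hN σ hσ (val a) (by rw [← val_s, ha])
    have hb0 : b ≠ 0 := by
      rintro rfl
      rw [map_zero] at hb
      exact ((Additive.toMul (a : Additive G) : G) : Nˣ).ne_zero hb.symm
    have he : Units.map (algebraMap K N : K →* N) (Units.mk0 b hb0) =
        ((Additive.toMul (a : Additive G) : G) : Nˣ) := Units.ext hb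
    refine ⟨Additive.ofMul ⟨Units.mk0 b hb0, unit_of_map T S hST _ ?_⟩, ?_⟩
    · rw [he]
      exact (Additive.toMul (a : Additive G)).2
    · exact congrArg Additive.ofMul he
  have : IsUnramifiedAtInfinitePlaces K N :=
    IsUnramifiedAtInfinitePlaces_of_odd_finrank (by rw [hN]; decide)
  have h6 := IsUnramifiedAtInfinitePlaces.card_infinitePlace K N
  have h7 : 0 < Fintype.card (InfinitePlace K) := Fintype.card_pos
  rw [hN] at h6
  rw [hrN] at h1
  rw [hrK] at h5
  simp only [Units.rank] at h1 h5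
  omega

end Pool.Agent.Lib.MP_af4c59_nt.K9
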