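import Pool.Agent.Lib.MP_af4c59_nt.Tower
import Pool.Agent.Lib.MP_af4c59_nt.Cfg

set_option autoImplicit false

namespace Pool.Agent.Lib.MP_af4c59_nt

open IntermediateField Cfg NumberField

/-- The twisting data for the two groups. -/
structure Tw (k : Fin 8) (μ ν : O) (κ : ℤ) : Prop where
  h : (k = 7 ∧ κ = 1) ∨ (k = 3 ∧ κ = -1)
  hμ : μ * star μ = 2 * ν ^ 2
  hν : star ν = κ * ν
  ν0 : ν ≠ 0
  bd : |μ.norm| ≤ 4

lemma tw7 : Tw 7 ⟨2, 1⟩ 1 1 :=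
  ⟨Or.inl ⟨rfl, rfl⟩, by ext <;> simp, by ext <;> simp, one_ne_zero, by simp [O_norm_def]⟩

lemma tw3 : Tw 3 ⟨2, 0⟩ ⟨0, 1⟩ (-1) :=
  ⟨Or.inr ⟨rfl, rfl⟩, by ext <;> simp [sq], by ext <;> simp, by simp [Zsqrtd.ext_iff],
    by simp [O_norm_def]⟩

lemma Tw.μ0 {k : Fin 8} {μ ν : O} {κ : ℤ} (t : Tw k μ ν κ) : μ ≠ 0 := by
  rintro rfl
  have := t.hμ
  rw [zero_mul] at this
  exact mul_ne_zero two_ne_zero (pow_ne_zero 2 t.ν0) this.symm

/-- The configuration attached to a point of the conic. -/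
noncomputable def cfg (μ ν η ξ : O) (w : ℤ) : Cfg Ω :=
  ⟨s2, em ν, em μ, em (star μ), em ξ * rt (em η), em (star ξ) * rt (em (star η)),
    rt (em μ * (w + em ξ * rt (em η)))⟩

lemma rt_ne {x : Ω} (h : x ≠ 0) : rt x ≠ 0 := by
  intro h0; apply h; rw [← rt_sq x, h0]; ring

section
variable {k : Fin 8} {μ ν η ξ : O} {κ w : ℤ}

lemma cfg_valid (t : Tw k μ ν κ) (hη : η ≠ 0) (hξ : ξ ≠ 0) (h : Bf η ξ ξ = w ^ 2) :
    Valid (κ : Ω) w (cfg μ ν η ξ w) where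
  hκ := by rcases t.h with ⟨-, rfl⟩ | ⟨-, rfl⟩ <;> norm_num
  hu := by
    simp only [cfg, mul_pow, rt_sq]
    rw [conic_em h]; ring
  hμ := by
    simp only [cfg]
    rw [← map_mul, t.hμ]; simp [map_ofNat]
  ha := rt_sq _
  ν0 := em_ne t.ν0
  u00 := mul_ne_zero (em_ne hξ) (rt_ne (em_ne hη))
  u10 := mul_ne_zero (em_ne (by simpa using hξ)) (rt_ne (em_ne (by simpa using hη)))

lemma valid_map {c : Cfg Ω} (h : Valid (κ : Ω) w c) (σ : Ω ≃ₐ[ℚ] Ω) :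
    Valid (κ : Ω) w (c.map (σ : Ω →+* Ω)) where
  hκ := h.hκ
  hu := by have := congrArg σ h.hu; simpa [Cfg.map] using this
  hμ := by have := congrArg σ h.hμ; simpa [Cfg.map, map_ofNat] using this
  ha := by have := congrArg σ h.ha; simpa [Cfg.map] using this
  ν0 := by simpa [Cfg.map] using h.ν0
  u00 := by simpa [Cfg.map] using h.u00
  u10 := by simpa [Cfg.map] using h.u10

lemma s2_cases (σ : Ω ≃ₐ[ℚ] Ω) : σ s2 = s2 ∨ σ s2 = -s2 := by
  apply sq_eq_sq_iff_eq_or_eq_neg.1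
  rw [← map_pow, s2_sq, map_ofNat]

lemma cfg_classify (t : Tw k μ ν κ) (hη : η ≠ 0) (hξ : ξ ≠ 0) (h : Bf η ξ ξ = w ^ 2)
    (σ : Ω ≃ₐ[ℚ] Ω) : ∃ j, (cfg μ ν η ξ w).map (σ : Ω →+* Ω) = (rot (κ : Ω) w)^[j] (cfg μ ν η ξ w) ∨
      (cfg μ ν η ξ w).map (σ : Ω →+* Ω) = ref ((rot (κ : Ω) w)^[j] (cfg μ ν η ξ w)) := by
  have hv := cfg_valid t hη hξ h
  apply classify hv (valid_map hv σ)
  rcases s2_cases σ with h1 | h1
  · left
    refine ⟨h1, em_fix h1 _, em_fix h1 _, em_fix h1 _, ?_⟩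
    show (σ (em ξ * rt (em η))) ^ 2 = (em ξ * rt (em η)) ^ 2
    rw [← map_pow, mul_pow, rt_sq, map_mul, map_pow, em_fix h1, em_fix h1]
  · right
    refine ⟨h1, ?_, em_swap h1 _, ?_, ?_⟩
    · show σ (em ν) = κ * em ν
      rw [em_swap h1, t.hν, map_mul, map_intCast]
    · show σ (em (star μ)) = em μ
      rw [em_swap h1, star_star]
    · show (σ (em ξ * rt (em η))) ^ 2 = (em (star ξ) * rt (em (star η))) ^ 2
      rw [← map_pow, mul_pow, mul_pow, rt_sq, rt_sq, map_mul, map_pow, em_swap h1, em_swap h1]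

lemma exists_neg {x : Ω} {m : ℤ} (hx : x ^ 2 = m) (hm : ¬ IsSquare m) :
    ∃ σ : Ω ≃ₐ[ℚ] Ω, σ x = -x := by
  by_contra hcon
  push Not at hcon
  have : x ∈ (⊥ : IntermediateField ℚ Ω) := by
    rw [InfiniteGalois.mem_bot_iff_fixed]
    intro σ
    refine (sq_eq_sq_iff_eq_or_eq_neg.1 ?_).resolve_right (hcon σ)
    rw [← map_pow, hx, map_intCast]
  obtain ⟨q, rfl⟩ := mem_bot.1 this
  apply hm
  rw [← Rat.isSquare_intCast_iff]
  refine ⟨q, ?_⟩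
  have : ((q ^ 2 : ℚ) : Ω) = ((m : ℚ) : Ω) := by simpa using hx
  have h2 : q ^ 2 = m := by exact_mod_cast this
  rw [← h2, sq]

lemma exists_signs {x : Ω} {m : ℤ} (hx : x ^ 2 = m) (hm : ¬ IsSquare m) (hm2 : ¬ IsSquare (2 * m)) :
    (∃ σ : Ω ≃ₐ[ℚ] Ω, σ s2 = -s2 ∧ σ x = -x) ∧ (∃ σ : Ω ≃ₐ[ℚ] Ω, σ s2 = s2 ∧ σ x = -x) := by
  have hxc : ∀ σ : Ω ≃ₐ[ℚ] Ω, σ x = x ∨ σ x = -x := fun σ => by
    apply sq_eq_sq_iff_eq_or_eq_neg.1
    rw [← map_pow, hx, map_intCast]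
  have hx0 : x ≠ 0 := by
    rintro rfl
    have : m = 0 := by
      have : (m : Ω) = 0 := by rw [← hx]; ring
      exact_mod_cast this
    exact hm (this ▸ IsSquare.zero)
  obtain ⟨α, hα⟩ := exists_neg (m := 2) (by exact_mod_cast s2_sq)
    (by rintro ⟨r, hr⟩; exact two_ne_sq r hr)
  obtain ⟨β, hβ⟩ := exists_neg hx hm
  obtain ⟨γ, hγ⟩ := exists_neg (x := s2 * x) (m := 2 * m) (by
    rw [mul_pow, s2_sq, hx]; push_cast; ring) hm2
  rw [map_mul] at hγ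
  have hγ' : (γ s2 = s2 ∧ γ x = -x) ∨ (γ s2 = -s2 ∧ γ x = x) := by
    have h2 : (2 : Ω) * (s2 * x) ≠ 0 := mul_ne_zero two_ne_zero (mul_ne_zero s2_ne hx0)
    rcases s2_cases γ with h1 | h1 <;> rcases hxc γ with h3 | h3
    · exfalso; apply h2; rw [h1, h3] at hγ; linear_combination hγ
    · exact Or.inl ⟨h1, h3⟩
    · exact Or.inr ⟨h1, h3⟩
    · exfalso; apply h2; rw [h1, h3] at hγ; linear_combination hγ
  rcases hγ' with ⟨g1, g2⟩ | ⟨g1, g2⟩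
  · refine ⟨?_, γ, g1, g2⟩
    rcases hxc α with h | h
    · exact ⟨α * γ, by simp [g1, hα], by simp [g2, h]⟩
    · exact ⟨α, hα, h⟩
  · rcases s2_cases β with h | h
    · exact ⟨⟨β * γ, by simp [g1, h], by simp [g2, hβ]⟩, β, h, hβ⟩
    · exact ⟨⟨β, h, hβ⟩, β * γ, by simp [g1, h], by simp [g2, hβ]⟩

lemma map_mul_cfg (σ τ : Ω ≃ₐ[ℚ] Ω) (c : Cfg Ω) :
    c.map ((σ * τ : Ω ≃ₐ[ℚ] Ω) : Ω →+* Ω) = (c.map (τ : Ω →+* Ω)).map (σ : Ω →+* Ω) := rfl

lemma map_pow_cfg {c : Cfg Ω} {σ : Ω ≃ₐ[ℚ] Ω} {j : ℕ}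
    (h : c.map (σ : Ω →+* Ω) = (rot (κ : Ω) w)^[j] c) (m : ℕ) :
    c.map ((σ ^ m : Ω ≃ₐ[ℚ] Ω) : Ω →+* Ω) = (rot (κ : Ω) w)^[j * m] c := by
  induction m with
  | zero => rfl
  | succ m ih =>
    rw [pow_succ', map_mul_cfg, ih, map_iter _ (by simp) (by simp), h,
      ← Function.iterate_add_apply, mul_add, mul_one]

lemma iter_mod {c : Cfg Ω} (h : Valid (κ : Ω) w c) (j : ℕ) :
    (rot (κ : Ω) w)^[j] c = (rot (κ : Ω) w)^[j % 8] c := by
  conv_lhs => rw [← Nat.mod_add_div j 8, Function.iterate_add_apply]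
  congr 1
  generalize j / 8 = m
  induction m with
  | zero => rfl
  | succ m ih => rw [mul_add, mul_one, Function.iterate_add_apply, iter_eight h, ih]

lemma exists_gens (t : Tw k μ ν κ) (hη : ¬ IsSquare η.norm) (hη2 : ¬ IsSquare (2 * η.norm))
    (hξ : ξ ≠ 0) (h : Bf η ξ ξ = w ^ 2) :
    (∃ σ : Ω ≃ₐ[ℚ] Ω, (cfg μ ν η ξ w).map (σ : Ω →+* Ω) = rot (κ : Ω) w (cfg μ ν η ξ w)) ∧
    (∃ (σ : Ω ≃ₐ[ℚ] Ω) (j : ℕ),
      (cfg μ ν η ξ w).map (σ : Ω →+* Ω) = ref ((rot (κ : Ω) w)^[j] (cfg μ ν η ξ w))) := by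
  have h0 := eta_ne hη
  have hv := cfg_valid t h0 hξ h
  have hx : (rt (em η) * rt (em (star η))) ^ 2 = (η.norm : ℤ) := by
    rw [mul_pow, rt_sq, rt_sq, ← map_mul, ← Zsqrtd.norm_eq_mul_conj, map_intCast]
  obtain ⟨⟨α, a1, a2⟩, β, b1, b2⟩ := exists_signs hx hη hη2
  have hu : ∀ σ : Ω ≃ₐ[ℚ] Ω, σ (rt (em η) * rt (em (star η))) = -(rt (em η) * rt (em (star η))) →
      ((cfg μ ν η ξ w).map (σ : Ω →+* Ω)).u0 * ((cfg μ ν η ξ w).map (σ : Ω →+* Ω)).u1 =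
      -((cfg μ ν η ξ w).u0 * (cfg μ ν η ξ w).u1) := by
    intro σ hσ
    have e : (cfg μ ν η ξ w).u0 * (cfg μ ν η ξ w).u1 =
        (ξ.norm : ℤ) * (rt (em η) * rt (em (star η))) := by
      simp only [cfg]
      rw [← map_intCast em, Zsqrtd.norm_eq_mul_conj, map_mul]; ring
    show σ _ * σ _ = _
    rw [← map_mul, e, map_mul, hσ, map_intCast]; ring
  constructor
  · obtain ⟨j, hj, e⟩ := odd_of_signs hv s2_ne (cfg_classify t h0 hξ h α) a1 (hu α a2)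
    refine ⟨α ^ j, ?_⟩
    rw [map_pow_cfg e, iter_mod hv]
    have : j * j % 8 = 1 := by
      obtain ⟨m, rfl⟩ := hj
      have : m % 4 = 0 ∨ m % 4 = 1 ∨ m % 4 = 2 ∨ m % 4 = 3 := by omega
      have e2 : (2 * m + 1) * (2 * m + 1) = 4 * (m * (m + 1)) + 1 := by ring
      have e3 : m * (m + 1) % 2 = 0 := Nat.even_iff.1 (Nat.even_mul_succ_self m)
      omega
    rw [this]; rfl
  · obtain ⟨j, e⟩ := ref_of_signs hv s2_ne (cfg_classify t h0 hξ h β) b1 (hu β b2)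
    exact ⟨β, j, e⟩

lemma seq_ref' (t : Tw k μ ν κ) (c : Cfg Ω) (i : Fin 8) :
    seq (κ : Ω) w (ref c) i = seq (κ : Ω) w c (k * i) := by
  rcases t.h with ⟨rfl, rfl⟩ | ⟨rfl, rfl⟩
  · simpa using seq_ref_one c i
  · simpa using seq_ref_neg c i

lemma det4 {K : Type*} [CommRing K] (s t0 t1 t2 t3 : K) :
    Matrix.det !![1, 1, 1, 1; s, -s, s, -s; t0, t1, t2, t3; s * t0, -s * t1, s * t2, -s * t3] =
      4 * s ^ 2 * ((t0 - t2) * (t1 - t3)) := by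
  simp [Matrix.det_succ_row_zero, Fin.sum_univ_succ, Fin.succAbove]
  ring

lemma det_blocks {K : Type*} [CommRing K] (E F : Matrix (Fin 4) (Fin 4) K) :
    (Matrix.fromBlocks E E F (-F)).det = 16 * (E.det * F.det) := by
  have : Matrix.fromBlocks E E F (-F) =
      Matrix.fromBlocks E 0 F ((-2 : K) • F) * Matrix.fromBlocks 1 1 0 1 := by
    rw [Matrix.fromBlocks_multiply]
    congr 1 <;> simp
    ext i j; simp; ring
  rw [this, Matrix.det_mul, Matrix.det_fromBlocks_zero₁₂, Matrix.det_fromBlocks_zero₂₁,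
    Matrix.det_smul]
  simp; ring

lemma bij_aff (t : Tw k μ ν κ) (b : Fin 8) : Function.Bijective (fun i : Fin 8 => k * i + b) := by
  rcases t.h with ⟨rfl, -⟩ | ⟨rfl, -⟩ <;> revert b <;> decide

theorem octic_mem (t : Tw k μ ν κ) (G : Subgroup (Equiv.Perm (Fin 8)))
    (hG : ∀ τ, τ ∈ G ↔ ∃ b, (∀ i, τ i = i + b) ∨ (∀ i, τ i = k * i + b))
    (hη : ¬ IsSquare η.norm) (hη2 : ¬ IsSquare (2 * η.norm))
    (hξ : ξ ≠ 0) (h : Bf η ξ ξ = w ^ 2) (hc : IsCoprime ξ (star ξ)) {X : ℝ}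
    (hX : 2 ^ 32 * ((|η.norm| : ℤ) : ℝ) ^ 3 ≤ X) : F3 μ η ξ w ∈ FS 8 G X := by
  classical
  have h0 := eta_ne hη
  have hv := cfg_valid t h0 hξ h
  obtain ⟨⟨σ₀, hσ₀⟩, τ₀, j₀, hτ₀⟩ := exists_gens t hη hη2 hξ h
  set c := cfg μ ν η ξ w with hcdef
  set a := seq (κ : Ω) w c with hadef
  have hmap : ∀ (σ : Ω ≃ₐ[ℚ] Ω) (i : Fin 8), σ (a i) = seq (κ : Ω) w (c.map (σ : Ω →+* Ω)) i :=
    fun σ i => seq_map (σ : Ω →+* Ω) (by simp) (by simp) c i
  have hpow : ∀ m : ℕ, c.map ((σ₀ ^ m : Ω ≃ₐ[ℚ] Ω) : Ω →+* Ω) = (rot (κ : Ω) w)^[m] c := by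
    intro m
    have := map_pow_cfg (κ := κ) (w := w) (j := 1) hσ₀ m
    rwa [one_mul] at this
  have hrot : ∀ (b i : Fin 8), (σ₀ ^ b.val) (a i) = a (i + b) := by
    intro b i
    rw [hmap, hpow, seq_iter hv]; simp [hadef]
  have hinj : Function.Injective a := by
    intro i j hij
    by_contra hne
    have h1 : ∀ x, a x = a (x + (j - i)) := by
      intro x
      have := congrArg (σ₀ ^ (x - i).val) hij
      rw [hrot, hrot] at this
      convert this using 2 <;> abel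
    have h2 : ∀ m : ℕ, a 0 = a (m • (j - i)) := by
      intro m
      induction m with
      | zero => simp
      | succ m ih => rw [ih, h1, succ_nsmul]
    have h3 : ∀ d : Fin 8, d ≠ 0 → ∃ m : Fin 8, m.val • d = 4 := by decide
    obtain ⟨m, hm⟩ := h3 (j - i) (sub_ne_zero.2 (Ne.symm hne))
    have h4 := h2 m
    rw [hm] at h4
    have h5 : c.a = -c.a := h4
    exact mul_ne_zero (two_ne_zero (α := Ω)) hv.a0 (by linear_combination h5)
  have hall : ∀ σ : Ω ≃ₐ[ℚ] Ω, ∃ b, (∀ i, σ (a i) = a (i + b)) ∨ (∀ i, σ (a i) = a (k * i + b)) := by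
    intro σ
    obtain ⟨j, hj | hj⟩ := cfg_classify t h0 hξ h σ
    · exact ⟨Fin.ofNat 8 j, Or.inl fun i => by rw [hmap, hj, seq_iter hv]⟩
    · exact ⟨Fin.ofNat 8 j, Or.inr fun i => by rw [hmap, hj, seq_ref' t, seq_iter hv]⟩
  have hfix : ∀ σ : Ω ≃ₐ[ℚ] Ω, σ (a 0) = a 0 → ∀ x ∈ F3 μ η ξ w, σ x = x := by
    intro σ hσ
    have key : σ s2 = s2 ∧ σ c.u0 = c.u0 := by
      obtain ⟨j, hj⟩ := cfg_classify t h0 hξ h σ
      have e1 : (c.map (σ : Ω →+* Ω)).a = ((rot (κ : Ω) w)^[j] c).a := by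
        rcases hj with hj | hj <;> rw [hj]; rfl
      rw [iter_a hv] at e1
      have e2 : Fin.ofNat 8 j = 0 := hinj (e1.symm.trans hσ)
      have e3 : j % 8 = 0 := by simpa [Fin.ext_iff] using e2
      rw [iter_mod hv, e3] at hj
      rcases hj with hj | hj
      · exact ⟨congrArg Cfg.s hj, congrArg Cfg.u0 hj⟩
      · exact ⟨congrArg Cfg.s hj, congrArg Cfg.u0 hj⟩
    refine fix_Qx (a_sq_mem μ η ξ w) (fix_Qx (rt_sq_mem η) (fix_Qx s2_sq_mem ?_ key.1) ?_) hσ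
    · intro x hx
      obtain ⟨q, rfl⟩ := mem_bot.1 hx
      exact σ.commutes q
    · have := key.2
      simp only [hcdef, cfg, map_mul, em_fix key.1] at this
      exact mul_left_cancel₀ (em_ne hξ) this
  obtain ⟨hrank, hgal, e, he⟩ := gal_of_roots G a hinj 0 (F3 μ η ξ w) (self_mem_Qx _ _) hfix
    (fun σ => by
      obtain ⟨b, hb | hb⟩ := hall σ
      · exact ⟨Equiv.addRight b, (hG _).2 ⟨b, Or.inl fun _ => rfl⟩, hb⟩
      · exact ⟨Equiv.ofBijective _ (bij_aff t b), (hG _).2 ⟨b, Or.inr fun _ => rfl⟩, hb⟩)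
    (fun g hg => by
      obtain ⟨b, hb | hb⟩ := (hG g).1 hg
      · exact ⟨σ₀ ^ b.val, fun i => by rw [hrot, hb]⟩
      · refine ⟨σ₀ ^ (b - Fin.ofNat 8 j₀).val * τ₀, fun i => ?_⟩
        rw [AlgEquiv.mul_apply, hmap τ₀, hτ₀, seq_ref' t, seq_iter hv, hrot, hb]
        congr 1; abel)
    (fun i => ⟨Equiv.addRight i, (hG _).2 ⟨i, Or.inl fun _ => rfl⟩, by simp⟩)
  have : NumberField (F3 μ η ξ w) := @NumberField.mk _ _ inferInstance inferInstance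
  refine mem_FS hrank hgal ?_
  -- the discriminant
  obtain ⟨p, q, hpq⟩ := hc
  have hξ' : star ξ ≠ 0 := by simpa using hξ
  have hx0 := em_ne hξ
  have hx1 := em_ne hξ'
  set θ := rt (em η) with hθdef
  have hθ : θ ^ 2 = em η := rt_sq _
  set T := (θ - em (w * p)) / em (star ξ) with hT
  have hs : s2 ∈ F3 μ η ξ w := le_Qx _ _ (le_Qx _ _ (self_mem_Qx _ _))
  have hθm : θ ∈ F3 μ η ξ w := le_Qx _ _ (self_mem_Qx _ _)
  have ham : c.a ∈ F3 μ η ξ w := self_mem_Qx _ _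
  have hem : ∀ z, em z ∈ F3 μ η ξ w := fun z => le_Qx _ _ (le_Qx _ _ (em_mem z))
  have hTm : T ∈ F3 μ η ξ w := div_mem (sub_mem hθm (hem _)) (hem _)
  let v : Fin 4 ⊕ Fin 4 → Ω := Sum.elim ![1, s2, θ, s2 * θ] ![c.a, s2 * c.a, T * c.a, s2 * (T * c.a)]
  have hvm : ∀ i, v i ∈ F3 μ η ξ w := by
    rintro (i | i) <;> fin_cases i
    · exact one_mem _
    · exact hs
    · exact hθm
    · exact mul_mem hs hθm
    · exact ham
    · exact mul_mem hs ham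
    · exact mul_mem hTm ham
    · exact mul_mem hs (mul_mem hTm ham)
  have is2 : IsIntegral ℤ s2 := by simpa [em_apply] using em_int ⟨0, 1⟩
  have iθ : IsIntegral ℤ θ := IsIntegral.of_pow two_pos (by rw [hθ]; exact em_int η)
  have iw : IsIntegral ℤ (w : Ω) := isIntegral_algebraMap (R := ℤ) (x := w)
  have ha2 : c.a ^ 2 = em μ * (w + em ξ * θ) := hv.ha
  have ia : IsIntegral ℤ c.a := IsIntegral.of_pow two_pos (by
    rw [ha2]; exact (em_int μ).mul (iw.add ((em_int ξ).mul iθ)))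
  have iT : IsIntegral ℤ (T * c.a) := by
    have e1 : em p * em ξ + em q * em (star ξ) = 1 := by
      rw [← map_mul, ← map_mul, ← map_add, hpq, map_one]
    have e2 : T * c.a = em q * θ * c.a - em p * (c.a * (w - em ξ * θ) / em (star ξ)) := by
      rw [hT, map_mul, map_intCast]
      field_simp
      linear_combination (-θ * c.a) * e1
    rw [e2]
    refine (((em_int q).mul iθ).mul ia).sub ((em_int p).mul (IsIntegral.of_pow two_pos ?_))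
    have e3 : (c.a * (w - em ξ * θ) / em (star ξ)) ^ 2 = em μ * (w - em ξ * θ) * em (star η) := by
      have hw := conic_em h
      field_simp
      rw [ha2]
      linear_combination em μ * (w - em ξ * θ) * hw - em μ * (w - em ξ * θ) * em ξ ^ 2 * hθ
    rw [e3]
    exact ((em_int μ).mul (iw.sub ((em_int ξ).mul iθ))).mul (em_int _)
  have hvi : ∀ i, IsIntegral ℤ (v i) := by
    rintro (i | i) <;> fin_cases i
    · exact isIntegral_one
    · exact is2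
    · exact iθ
    · exact is2.mul iθ
    · exact ia
    · exact is2.mul ia
    · exact iT
    · exact is2.mul iT
  let b : Fin 4 ⊕ Fin 4 → F3 μ η ξ w := fun i => ⟨v i, hvm i⟩
  have hbi : ∀ i, IsIntegral ℤ (b i) := fun i =>
    (isIntegral_algHom_iff ((F3 μ η ξ w).val.restrictScalars ℤ) Subtype.val_injective).1 (hvi i)
  have hdet := Algebra.discr_eq_det_embeddingsMatrixReindex_pow_two ℚ Ω b (finSumFinEquiv.trans e)
  have hM : Algebra.embeddingsMatrixReindex ℚ Ω b (finSumFinEquiv.trans e) =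
      Matrix.of fun i j => (σ₀ ^ (finSumFinEquiv j).val) (v i) := by
    ext i j
    simp only [Algebra.embeddingsMatrixReindex, Matrix.reindex_apply, Equiv.refl_symm,
      Equiv.coe_refl, Equiv.symm_symm, Matrix.submatrix_apply, id, Algebra.embeddingsMatrix_apply,
      Matrix.of_apply, Equiv.trans_apply]
    exact he _ _ (by rw [hrot, zero_add]) _
  have s1 : σ₀ s2 = -s2 := congrArg Cfg.s hσ₀
  set θ' := σ₀ θ with hθ'
  have t1 : em (star ξ) * θ' = c.u1 := by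
    have : σ₀ (em ξ * θ) = c.u1 := congrArg Cfg.u0 hσ₀
    rwa [map_mul, em_swap s1] at this
  have t2 : σ₀ θ' = -θ := by
    have : σ₀ c.u1 = -(em ξ * θ) := congrArg Cfg.u1 hσ₀
    rw [← t1, map_mul, em_swap s1, star_star] at this
    apply mul_left_cancel₀ hx0; rw [this]; ring
  have hθ'2 : θ' ^ 2 = em (star η) := by rw [hθ', ← map_pow, hθ, em_swap s1]
  have a1 : ∀ i, σ₀ (a i) = a (i + 1) := fun i => by simpa using hrot 1 i
  have a4 : ∀ i, a (i + 4) = - a i := fun i => by fin_cases i <;> simp [hadef, seq]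
  have a0 : c.a = a 0 := rfl
  let E : Matrix (Fin 4) (Fin 4) Ω :=
    !![1, 1, 1, 1; s2, -s2, s2, -s2; θ, θ', -θ, -θ'; s2 * θ, -s2 * θ', s2 * -θ, -s2 * -θ']
  set T1 := (θ' - em (star (w * p))) / em ξ with hT1
  set T2 := (-θ - em (w * p)) / em (star ξ) with hT2
  set T3 := (-θ' - em (star (w * p))) / em ξ with hT3
  have u0 : σ₀ T = T1 := by rw [hT, hT1, map_div₀, map_sub, em_swap s1, em_swap s1, star_star]
  have u1 : σ₀ T1 = T2 := by
    rw [hT1, hT2, map_div₀, map_sub, em_swap s1, em_swap s1, star_star, t2]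
  have u2 : σ₀ T2 = T3 := by
    rw [hT2, hT3, map_div₀, map_sub, map_neg, em_swap s1, em_swap s1, star_star]
  have u3 : σ₀ T3 = T := by
    rw [hT3, hT, map_div₀, map_sub, map_neg, em_swap s1, em_swap s1, star_star, t2, neg_neg]
  let F : Matrix (Fin 4) (Fin 4) Ω :=
    !![1, 1, 1, 1; s2, -s2, s2, -s2; T, T1, T2, T3; s2 * T, -s2 * T1, s2 * T2, -s2 * T3] *
      Matrix.diagonal ![a 0, a 1, a 2, a 3]
  have b4 : a 4 = - a 0 := a4 0
  have b5 : a 5 = - a 1 := a4 1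
  have b6 : a 6 = - a 2 := a4 2
  have b7 : a 7 = - a 3 := a4 3
  have c0 : σ₀ (a 0) = a 1 := a1 0
  have c1 : σ₀ (a 1) = a 2 := a1 1
  have c2 : σ₀ (a 2) = a 3 := a1 2
  have c3 : σ₀ (a 3) = - a 0 := (a1 3).trans b4
  have hM2 : (Matrix.of fun i j => (σ₀ ^ (finSumFinEquiv j).val) (v i)) =
      Matrix.fromBlocks E E F (-F) := by
    have f1 : ∀ j : Fin 4, (finSumFinEquiv (Sum.inl j : Fin 4 ⊕ Fin 4)).val = j.val := fun _ => rfl
    have f2 : ∀ j : Fin 4, (finSumFinEquiv (Sum.inr j : Fin 4 ⊕ Fin 4)).val = 4 + j.val :=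
      fun _ => rfl
    have pw : ∀ (m : ℕ) (x : Ω), (σ₀ ^ (m + 1)) x = (σ₀ ^ m) (σ₀ x) := fun m x => by
      rw [pow_succ]; rfl
    have p0 : ∀ x : Ω, (σ₀ ^ 0) x = x := fun _ => rfl
    have p1 : ∀ x : Ω, (σ₀ ^ 1) x = σ₀ x := fun _ => rfl
    have p2 : ∀ x : Ω, (σ₀ ^ 2) x = σ₀ (σ₀ x) := fun x => by rw [pw, p1]
    have p3 : ∀ x : Ω, (σ₀ ^ 3) x = σ₀ (σ₀ (σ₀ x)) := fun x => by rw [pw, p2]
    have p4 : ∀ (j : ℕ) (x : Ω), (σ₀ ^ (4 + j)) x = (σ₀ ^ j) (σ₀ (σ₀ (σ₀ (σ₀ x)))) := fun j x => by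
      rw [add_comm, pw, pw, pw, pw]
    have hF : ∀ i j, F i j = (!![1, 1, 1, 1; s2, -s2, s2, -s2; T, T1, T2, T3;
        s2 * T, -s2 * T1, s2 * T2, -s2 * T3] : Matrix (Fin 4) (Fin 4) Ω) i j *
        ![a 0, a 1, a 2, a 3] j := fun i j => Matrix.mul_diagonal _ _ _ _
    have q1 : ∀ i, σ₀ (σ₀ (σ₀ (σ₀ (v (Sum.inl i))))) = v (Sum.inl i) := by
      intro i
      fin_cases i <;> simp [v, s1, ← hθ', t2]
    have q2 : ∀ i, σ₀ (σ₀ (σ₀ (σ₀ (v (Sum.inr i))))) = - v (Sum.inr i) := by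
      intro i
      fin_cases i <;> simp [v, s1, a0, u0, u1, u2, u3, c0, c1, c2, c3]
    have r1 : ∀ (i j : Fin 4), (σ₀ ^ j.val) (v (Sum.inl i)) = E i j := by
      intro i j
      fin_cases j
      · show (σ₀ ^ 0) _ = _
        rw [p0]; fin_cases i <;> simp [v, E]
      · show (σ₀ ^ 1) _ = _
        rw [p1]; fin_cases i <;> simp [v, E, s1, ← hθ']
      · show (σ₀ ^ 2) _ = _
        rw [p2]; fin_cases i <;> simp [v, E, s1, ← hθ', t2]
      · show (σ₀ ^ 3) _ = _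
        rw [p3]; fin_cases i <;> simp [v, E, s1, ← hθ', t2]
    have r2 : ∀ (i j : Fin 4), (σ₀ ^ j.val) (v (Sum.inr i)) = F i j := by
      intro i j
      rw [hF]
      fin_cases j
      · show (σ₀ ^ 0) _ = _
        rw [p0]; fin_cases i <;> simp [v, a0, mul_assoc]
      · show (σ₀ ^ 1) _ = _
        rw [p1]; fin_cases i <;> simp [v, a0, s1, u0, c0, mul_assoc]
      · show (σ₀ ^ 2) _ = _
        rw [p2]; fin_cases i <;> simp [v, a0, s1, u0, c0, u1, c1, mul_assoc]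
      · show (σ₀ ^ 3) _ = _
        rw [p3]; fin_cases i <;> simp [v, a0, s1, u0, c0, u1, c1, u2, c2, mul_assoc]
    ext (i | i) (j | j)
    · rw [Matrix.of_apply, f1, r1]; rfl
    · rw [Matrix.of_apply, f2, p4, q1, r1]; rfl
    · rw [Matrix.of_apply, f1, r2]; rfl
    · rw [Matrix.of_apply, f2, p4, q2, map_neg, r2]; rfl
  have hprod : (a 0 * a 1 * a 2 * a 3) ^ 2 = ((μ.norm ^ 2 * ξ.norm ^ 2 * η.norm : ℤ) : Ω) := by
    have v0 := hv.ha
    have v1 := (hv.iter 1).ha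
    have v2 := (hv.iter 2).ha
    have v3 := (hv.iter 3).ha
    rw [iter_a hv] at v1 v2 v3
    have w0 : a 0 ^ 2 = c.μ0 * (w + c.u0) := v0
    have w1 : a 1 ^ 2 = c.μ1 * (w + c.u1) := v1
    have w2 : a 2 ^ 2 = c.μ0 * (w + -c.u0) := v2
    have w3 : a 3 ^ 2 = c.μ1 * (w + -c.u1) := v3
    have n1 : ((μ.norm : ℤ) : Ω) = c.μ0 * c.μ1 := by
      rw [← map_intCast em, Zsqrtd.norm_eq_mul_conj, map_mul]; rfl
    have n2 : (((ξ.norm ^ 2 * η.norm : ℤ)) : Ω) = c.u0 ^ 2 * c.u1 ^ 2 := by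
      push_cast
      rw [← map_intCast em, ← map_intCast em, Zsqrtd.norm_eq_mul_conj, Zsqrtd.norm_eq_mul_conj,
        map_mul, map_mul, ← t1, mul_pow (em (star ξ)), hθ'2]
      show _ = (em ξ * θ) ^ 2 * _
      rw [mul_pow (em ξ) θ, hθ]; ring
    rw [mul_pow, mul_pow, mul_pow, w0, w1, w2, w3, mul_assoc (μ.norm ^ 2), Int.cast_mul, n2,
      Int.cast_pow, n1]
    have hu := hv.hu
    linear_combination (-(c.μ0 * c.μ1) ^ 2 * (w ^ 2)) * hu
  have hval : Algebra.discr ℚ b = ((2 ^ 28 * μ.norm ^ 2 * η.norm ^ 3 : ℤ) : ℚ) := by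
    apply (algebraMap ℚ Ω).injective
    rw [hdet, hM, hM2, det_blocks, det4, Matrix.det_mul, det4, Matrix.det_diagonal,
      Fin.prod_univ_four, s2_sq]
    have n3 : ((η.norm : ℤ) : Ω) = θ ^ 2 * θ' ^ 2 := by
      rw [← map_intCast em, Zsqrtd.norm_eq_mul_conj, map_mul, hθ, hθ'2]
    have n4 : ((ξ.norm : ℤ) : Ω) = em ξ * em (star ξ) := by
      rw [← map_intCast em, Zsqrtd.norm_eq_mul_conj, map_mul]
    have d1 : T - T2 = 2 * θ / em (star ξ) := by rw [hT, hT2]; ring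
    have d2 : T1 - T3 = 2 * θ' / em ξ := by rw [hT1, hT3]; ring
    simp only [Matrix.cons_val_zero, Matrix.cons_val_one, Matrix.cons_val]
    rw [d1, d2, mul_pow, mul_pow, mul_pow _ (a 0 * a 1 * a 2 * a 3), hprod]
    simp only [eq_ratCast]
    push_cast
    rw [n3, n4]
    field_simp
    ring
  have hN0 : η.norm ≠ 0 := fun h1 => h0 (O_norm_eq_zero.1 h1)
  have hμ0 : μ.norm ≠ 0 := fun h1 => t.μ0 (O_norm_eq_zero.1 h1)
  have hle := abs_discr_le (L := F3 μ η ξ w) (by rw [hrank]; simp) b hbi (by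
    rw [hval]; exact_mod_cast (by positivity : (2 ^ 28 * μ.norm ^ 2 * η.norm ^ 3 : ℤ) ≠ 0))
  rw [hval] at hle
  have hle2 : |discr (F3 μ η ξ w)| ≤ |2 ^ 28 * μ.norm ^ 2 * η.norm ^ 3| := by exact_mod_cast hle
  have hle3 : |discr (F3 μ η ξ w)| ≤ 2 ^ 32 * |η.norm| ^ 3 := by
    refine hle2.trans ?_
    rw [abs_mul, abs_mul, abs_pow, abs_pow, abs_pow]
    have h1 : |μ.norm| ^ 2 ≤ 4 ^ 2 := pow_le_pow_left₀ (abs_nonneg _) t.bd 2
    calc _ ≤ |(2 : ℤ)| ^ 28 * 4 ^ 2 * |η.norm| ^ 3 := by gcongr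
      _ = _ := by norm_num
  refine le_trans ?_ hX
  exact_mod_cast hle3

end

end Pool.Agent.Lib.MP_af4c59_nt
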