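import Pool.Agent.Lib.MP_af4c59_nt.Dat
import Pool.Agent.Lib.MP_af4c59_nt.Octic

set_option autoImplicit false

namespace Pool.Agent.Lib.MP_af4c59_nt

open Finset

/-- Index type of the family. -/
abbrev Ix := ℕ × O × O × O × ℤ

/-- The predicate on the index type. -/
abbrev DatI (Z : ℕ) (a : Ix) : Prop := Dat Z a.1 a.2.1 a.2.2.1 a.2.2.2.1 a.2.2.2.2

lemma fib_le {Z g : ℕ} (hZ : 0 < Z) {ρ η : O} (S : Finset Ix) (hS : ∀ a ∈ S, DatI Z a)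
    (h1 : ∀ a ∈ S, a.1 = g ∧ a.2.1 = ρ ∧ a.2.2.1 = η)
    (hrel : ∀ a ∈ S, ∀ b ∈ S, Rel (ρ * ρ * η) a.2.2.2 b.2.2.2) :
    (S.card : ℝ) ≤ 24 * g * ht ρ := by
  classical
  rcases S.eq_empty_or_nonempty with rfl | ⟨a₀, ha₀⟩
  · simp only [card_empty, Nat.cast_zero]; positivity
  have hd : ∀ a ∈ S, Dat Z g ρ η a.2.2.2.1 a.2.2.2.2 := fun a ha => by
    have := hS a ha
    obtain ⟨e1, e2, e3⟩ := h1 a ha
    rw [← e1, ← e2, ← e3]; exact this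
  have d₀ := hd a₀ ha₀
  have hc := card_fibre_le hZ d₀.gpos d₀.ρ0 (by have := d₀.ypos; have := d₀.bal; omega) d₀.y0
    d₀.npos d₀.n4 d₀.hsf d₀.hrp (S.image (fun a => a.2.2.2))
    (fun P hP => by obtain ⟨a, ha, rfl⟩ := mem_image.1 hP; exact (hd a ha).pt)
    (fun P hP P' hP' => by
      obtain ⟨a, ha, rfl⟩ := mem_image.1 hP
      obtain ⟨b, hb, rfl⟩ := mem_image.1 hP'
      exact hrel a ha b hb)
  rw [card_image_of_injOn (fun a ha b hb hab => by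
    obtain ⟨e1, e2, e3⟩ := h1 a ha
    obtain ⟨f1, f2, f3⟩ := h1 b hb
    exact Prod.ext (e1.trans f1.symm) (Prod.ext (e2.trans f2.symm)
      (Prod.ext (e3.trans f3.symm) hab)))] at hc
  have h2 := two_pow_omega_le ρ.norm.natAbs (Int.natAbs_ne_zero.2 d₀.ρ0)
  have h3 : √(ρ.norm.natAbs : ℝ) ≤ 2 * ht ρ := by
    rw [Real.sqrt_le_left (by positivity)]
    have h4 := abs_norm_le ρ
    rw [← Int.natCast_natAbs] at h4
    have h5 : (ρ.norm.natAbs : ℝ) ≤ 2 * (ht ρ : ℝ) ^ 2 := by exact_mod_cast h4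
    nlinarith [sq_nonneg (ht ρ : ℝ)]
  have h4 : (1 : ℝ) ≤ g := by exact_mod_cast d₀.gpos
  calc (S.card : ℝ) ≤ (2 * g + 1) * 2 ^ ρ.norm.natAbs.primeFactors.card := by exact_mod_cast hc
    _ ≤ (3 * g) * (4 * (2 * ht ρ)) := by
        gcongr
        · linarith
        · exact h2.trans (by gcongr)
    _ = _ := by ring

lemma bad_one : ∃ C : ℝ, 0 < C ∧ ∀ (Z g : ℕ) (ρ : O), 0 < Z → ∀ S : Finset Ix,
    (∀ a ∈ S, DatI Z a) → (∀ a ∈ S, a.1 = g ∧ a.2.1 = ρ) →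
    (S.card : ℝ) ≤ C * (Z : ℝ) ^ 4 * (1 / (g : ℝ) ^ 2) * (1 / (ht ρ : ℝ) ^ 3) := by
  classical
  obtain ⟨C, hC, hsm⟩ := small_count
  refine ⟨C * 27648 ^ 2 * 24, by positivity, fun Z g ρ hZ S hS h1 => ?_⟩
  rcases S.eq_empty_or_nonempty with rfl | ⟨a₀, ha₀⟩
  · simp only [card_empty, Nat.cast_zero]; positivity
  have hd : ∀ a ∈ S, Dat Z g ρ a.2.2.1 a.2.2.2.1 a.2.2.2.2 := fun a ha => by
    have := hS a ha
    obtain ⟨e1, e2⟩ := h1 a ha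
    rw [← e1, ← e2]; exact this
  have hg := (hd a₀ ha₀).gpos
  have hh := (hd a₀ ha₀).ht_pos
  have hex : ∀ a : Ix, ∃ (g' : ℕ) (ξ' : O) (w' : ℤ), a ∈ S → Sm a.2.2.1 g' ξ' w' ∧
      ∃ s : ℤ, s ≠ 0 ∧ 2 * (a.2.2.2.2 * (g' * w') + Bf a.2.2.1 (ρ * a.2.2.2.1) (g' * ξ')) = s ^ 2 := by
    intro a
    by_cases ha : a ∈ S
    · have d := hd a ha
      obtain ⟨g', ξ', w', h⟩ := descent d.sf d.npos1 (d.wpos hZ) d.prim
        (by rw [Dat.Bf_mul]; exact d.pt.eq)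
      exact ⟨g', ξ', w', fun _ => h⟩
    · exact ⟨0, 0, 0, fun h => absurd h ha⟩
  choose g' ξ' w' hch using hex
  set T : ℕ := 27648 * Z ^ 2 / (g ^ 2 * ht ρ ^ 2) with hT
  let π : Ix → O × ℕ × O × ℤ := fun a => (a.2.2.1, g' a, ξ' a, w' a)
  have hI := hsm T (S.image π) (fun b hb => by
    obtain ⟨a, ha, rfl⟩ := mem_image.1 hb
    have d := hd a ha
    refine ⟨⟨d.sf, d.n41, d.bal1, ?_⟩, (hch a ha).1⟩
    have h2 := d.size
    rw [hT]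
    push_cast
    exact Int.le_ediv_of_mul_le (by positivity) h2)
  have hF := card_le_mul_fib S π (S.image π) (24 * g * ht ρ) (fun a ha => mem_image_of_mem π ha)
    (fun b _ => fib_le (η := b.1) hZ _ (fun a ha => hS a (mem_filter.1 ha).1)
      (fun a ha => ⟨(h1 a (mem_filter.1 ha).1).1, (h1 a (mem_filter.1 ha).1).2,
        congrArg Prod.fst (mem_filter.1 ha).2⟩)
      (fun a ha a' ha' => by
        obtain ⟨m1, m2⟩ := mem_filter.1 ha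
        obtain ⟨m3, m4⟩ := mem_filter.1 ha'
        obtain ⟨n1, s, hs, n2⟩ := hch a m1
        obtain ⟨-, s', hs', n4⟩ := hch a' m3
        have e := m4.trans m2.symm
        simp only [π, Prod.mk.injEq] at e
        obtain ⟨e1, e2, e3, e4⟩ := e
        have d := hd a m1
        have d' := hd a' m3
        rw [e1] at d'
        rw [e1, e2, e3, e4] at n4
        have e5 : b.1 = a.2.2.1 := (congrArg Prod.fst m2).symm
        right
        rw [e5, ← Dat.Bf_mul]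
        refine three_point (ξ₃ := g' a * ξ' a) (w₃ := g' a * w' a) ?_ ?_ ?_ hs hs' n2 n4
        · rw [Dat.Bf_mul]; exact d.pt.eq
        · rw [Dat.Bf_mul]; exact d'.pt.eq
        · rw [mul_pow, ← n1.eq, Bf_eq, Bf_eq]
          simp only [Zsqrtd.re_mul, Zsqrtd.im_mul, Zsqrtd.re_natCast, Zsqrtd.im_natCast]
          ring))
  have hg' : (0 : ℝ) < g := by exact_mod_cast hg
  have hg1 : (1 : ℝ) ≤ g := by exact_mod_cast hg
  have hh' : (0 : ℝ) < ht ρ := by exact_mod_cast hh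
  have hT' : (T : ℝ) ≤ 27648 * (Z : ℝ) ^ 2 / ((g : ℝ) ^ 2 * (ht ρ : ℝ) ^ 2) := by
    rw [hT]
    refine Nat.cast_div_le.trans (le_of_eq ?_)
    push_cast; ring
  calc (S.card : ℝ) ≤ (C * (27648 * (Z : ℝ) ^ 2 / ((g : ℝ) ^ 2 * (ht ρ : ℝ) ^ 2)) ^ 2) *
        (24 * g * ht ρ) := hF.trans (by gcongr; exact hI.trans (by gcongr))
    _ = C * 27648 ^ 2 * 24 * (Z : ℝ) ^ 4 * (1 / (g : ℝ) ^ 2) * (1 / (ht ρ : ℝ) ^ 3) * (1 / g) := by
        field_simp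
    _ ≤ _ := mul_le_of_le_one_right (by positivity) (by rw [div_le_one hg']; exact hg1)

lemma bad_sum : ∃ C : ℝ, 0 < C ∧ ∀ (Z A B : ℕ), 0 < Z → ∀ S : Finset Ix,
    (∀ a ∈ S, DatI Z a) → (∀ a ∈ S, A < a.1 ∧ B < ht a.2.1) →
    (S.card : ℝ) ≤ C * (Z : ℝ) ^ 4 / ((A + 1) * (B + 1)) := by
  classical
  obtain ⟨C, hC, h⟩ := bad_one
  refine ⟨C * 48, by positivity, fun Z A B hZ S hS h1 => ?_⟩
  have k1 : ∀ g : ℕ, ((S.filter (fun a => a.1 = g)).card : ℝ) ≤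
      C * (Z : ℝ) ^ 4 * (1 / (g : ℝ) ^ 2) * (12 * (2 / (B + 1))) := by
    intro g
    set S' := S.filter (fun a => a.1 = g)
    have k2 := card_le_sum_fib S' (fun a => a.2.1) (S'.image (fun a => a.2.1))
      (fun ρ => C * (Z : ℝ) ^ 4 * (1 / (g : ℝ) ^ 2) * (1 / (ht ρ : ℝ) ^ 3))
      (fun a ha => mem_image_of_mem _ ha)
      (fun ρ _ => h Z g ρ hZ _ (fun a ha => hS a (mem_filter.1 (mem_filter.1 ha).1).1)
        (fun a ha => ⟨(mem_filter.1 (mem_filter.1 ha).1).2, (mem_filter.1 ha).2⟩))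
    refine k2.trans ?_
    rw [← mul_sum]
    gcongr
    have hB : ∀ x ∈ (S'.image (fun a => a.2.1)).image ht, B < x := by
      intro x hx
      obtain ⟨ρ, hρ, rfl⟩ := mem_image.1 hx
      obtain ⟨a, ha, rfl⟩ := mem_image.1 hρ
      exact (h1 a (mem_filter.1 ha).1).2
    have k3 := sum_shell (S'.image (fun a => a.2.1)) (fun x => 1 / (x : ℝ) ^ 3)
      (fun x => by positivity) ((S'.image (fun a => a.2.1)).image ht)
      (fun h0 => by have := hB 0 h0; omega) (fun ρ hρ => mem_image_of_mem _ hρ)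
    refine k3.trans ?_
    refine le_trans (le_of_eq ?_) (mul_le_mul_of_nonneg_left (sum_inv_sq_tail _ B hB) (by norm_num))
    rw [mul_sum]
    refine sum_congr rfl fun x hx => ?_
    have : (0 : ℝ) < x := by have := hB x hx; exact_mod_cast (by omega : 0 < x)
    field_simp
  have k4 := card_le_sum_fib S (fun a => a.1) (S.image (fun a => a.1)) _
    (fun a ha => mem_image_of_mem _ ha) (fun g _ => k1 g)
  refine k4.trans ?_
  rw [← sum_mul, ← mul_sum]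
  have k5 := sum_inv_sq_tail (S.image (fun a => a.1)) A (fun g hg => by
    obtain ⟨a, ha, rfl⟩ := mem_image.1 hg; exact (h1 a ha).1)
  calc _ ≤ C * (Z : ℝ) ^ 4 * (2 / (A + 1)) * (12 * (2 / (B + 1))) := by gcongr
    _ = _ := by field_simp; ring

lemma same_unit {Z : ℕ} {μ : O} (hμ : μ ≠ 0) {a b : Ix} (ha : DatI Z a) (hb : DatI Z b)
    (e : F3 μ (a.2.1 * a.2.1 * a.2.2.1) a.2.2.2.1 a.2.2.2.2 =
      F3 μ (b.2.1 * b.2.1 * b.2.2.1) b.2.2.2.1 b.2.2.2.2) :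
    ∃ u : O, ht u ≤ 1 ∧ b.2.2.1 = u * u * a.2.2.1 := by
  obtain ⟨g, ρ, η, ξ, w⟩ := a
  obtain ⟨g', ρ', η', ξ', w'⟩ := b
  simp only at e ⊢
  obtain ⟨c, m, hm, h⟩ := same_field_eta hμ ha.nsq hb.nsq ha.ξ0 ha.pt.eq e
  have hρ' : ρ' ≠ 0 := fun h0 => hb.ρ0 (by simp [h0])
  have h0 : (m : O) * ρ' ≠ 0 := mul_ne_zero (by exact_mod_cast hm) hρ'
  obtain ⟨u, hu⟩ := dvd_of_sq_dvd_squarefree_mul (c := ρ * c) ha.sf h0
    ⟨η', by linear_combination -h⟩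
  have e2 : η' = u * u * η := by
    apply mul_left_cancel₀ (mul_ne_zero h0 h0)
    linear_combination h + η * (ρ * c + m * ρ' * u) * hu
  refine ⟨u, ?_, e2⟩
  have hun : IsUnit u := hb.sf u ⟨η, e2⟩
  rw [Zsqrtd.isUnit_iff_norm_isUnit, Int.isUnit_iff_abs_eq] at hun
  have h1 := (ht_sq_le_Af u).trans (Af_le_of_bal ha.pos1 ha.bal1 (by rw [← e2]; exact hb.bal1))
  rw [hun] at h1
  have h2 : ht u ^ 2 ≤ 3 := by exact_mod_cast h1
  by_contra hc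
  nlinarith

lemma good_fib {Z M : ℕ} (hZ : 0 < Z) {μ : O} (hμ : μ ≠ 0) (S : Finset Ix) (hS : ∀ a ∈ S, DatI Z a)
    (h1 : ∀ a ∈ S, a.1 ≤ M ∧ ht a.2.1 ≤ M) (L : IntermediateField ℚ Ω)
    (hL : ∀ a ∈ S, F3 μ (a.2.1 * a.2.1 * a.2.2.1) a.2.2.2.1 a.2.2.2.2 = L) :
    (S.card : ℝ) ≤ ((M + 1) * ((2 * M + 1) ^ 2 * 9) : ℕ) * (24 * M * M) := by
  classical
  rcases S.eq_empty_or_nonempty with rfl | ⟨a₀, ha₀⟩
  · simp only [card_empty, Nat.cast_zero]; positivity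
  have hex : ∀ b : Ix, ∃ u : O, b ∈ S → ht u ≤ 1 ∧ b.2.2.1 = u * u * a₀.2.2.1 := by
    intro b
    by_cases hb : b ∈ S
    · obtain ⟨u, hu⟩ := same_unit hμ (hS a₀ ha₀) (hS b hb) ((hL a₀ ha₀).trans (hL b hb).symm)
      exact ⟨u, fun _ => hu⟩
    · exact ⟨0, fun h => absurd h hb⟩
  choose u hu using hex
  let π : Ix → ℕ × O × O := fun a => (a.1, a.2.1, u a)
  have hF := card_le_mul_fib S π (range (M + 1) ×ˢ S.image (fun a => a.2.1) ×ˢ S.image u)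
    (24 * M * M)
    (fun a ha => by
      simp only [π, mem_product, mem_range]
      exact ⟨Nat.lt_succ_of_le (h1 a ha).1, mem_image_of_mem _ ha, mem_image_of_mem _ ha⟩)
    (fun b hb => by
      have hk : ∀ a ∈ S.filter (fun a => π a = b),
          a.1 = b.1 ∧ a.2.1 = b.2.1 ∧ a.2.2.1 = b.2.2 * b.2.2 * a₀.2.2.1 := fun a ha => by
        obtain ⟨m1, rfl⟩ := mem_filter.1 ha
        exact ⟨rfl, rfl, (hu a m1).2⟩
      refine (fib_le hZ _ (fun a ha => hS a (mem_filter.1 ha).1) hk (fun a ha a' ha' => ?_)).trans ?_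
      · obtain ⟨-, e2, e3⟩ := hk a ha
        obtain ⟨-, f2, f3⟩ := hk a' ha'
        have d := hS a (mem_filter.1 ha).1
        have d' := hS a' (mem_filter.1 ha').1
        have e := (hL a (mem_filter.1 ha).1).trans (hL a' (mem_filter.1 ha').1).symm
        have p := d.pt.eq
        have p' := d'.pt.eq
        have q := d.nsq
        rw [f2, f3] at p' e
        rw [e2, e3] at p e q
        exact same_field_rel hμ q d.ξ0 d'.ξ0 p p' e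
      · simp only [mem_product, mem_range, mem_image] at hb
        obtain ⟨b1, ⟨a, ha, b2⟩, -⟩ := hb
        have c1 : (b.1 : ℝ) ≤ M := by exact_mod_cast Nat.le_of_lt_succ b1
        have c2 : (ht b.2.1 : ℝ) ≤ M := by rw [← b2]; exact_mod_cast (h1 a ha).2
        gcongr)
  refine hF.trans ?_
  gcongr
  rw [card_product, card_product, card_range]
  gcongr
  · exact card_ht_le _ M (fun ρ hρ => by
      obtain ⟨a, ha, rfl⟩ := mem_image.1 hρ; exact (h1 a ha).2)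
  · exact card_ht_le _ 1 (fun ρ hρ => by
      obtain ⟨a, ha, rfl⟩ := mem_image.1 hρ; exact (hu a ha).1)

theorem many_fields {k : Fin 8} {μ ν : O} {κ : ℤ} (t : Tw k μ ν κ) (G : Subgroup (Equiv.Perm (Fin 8)))
    (hG : ∀ τ, τ ∈ G ↔ ∃ b, (∀ i, τ i = i + b) ∨ (∀ i, τ i = k * i + b)) :
    ∃ c : ℝ, 0 < c ∧ ∀ Z : ℕ, 10 ^ 8 ≤ Z →
      c * (Z : ℝ) ^ 4 ≤ (FS 8 G (2 ^ 32 * 4608 ^ 6 * (Z : ℝ) ^ 12)).ncard := by
  classical
  obtain ⟨C, hC, hbad⟩ := bad_sum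
  obtain ⟨M, hM⟩ := exists_nat_ge (4 * C)
  have hM0 : (0 : ℝ) < M := by linarith
  set K : ℝ := ((M + 1) * ((2 * M + 1) ^ 2 * 9) : ℕ) * (24 * M * M) with hK
  have hK0 : 0 < K := by positivity
  refine ⟨1 / (2 * K), by positivity, fun Z hZ => ?_⟩
  have hZ0 : 0 < Z := lt_of_lt_of_le (by norm_num) hZ
  obtain ⟨S, hS, hc⟩ := dat_card Z hZ
  set S0 := S.filter (fun a => a.1 ≤ M ∧ ht a.2.1 ≤ M)
  set S1 := S.filter (fun a => M < a.1)
  set S2 := S.filter (fun a => M < ht a.2.1)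
  have hcov : S ⊆ S0 ∪ S1 ∪ S2 := by
    intro a ha
    simp only [S0, S1, S2, mem_union, mem_filter, ha, true_and]
    omega
  have h0 : (S.card : ℝ) ≤ S0.card + S1.card + S2.card := by
    have := (card_le_card hcov).trans ((card_union_le _ _).trans
      (Nat.add_le_add_right (card_union_le _ _) _))
    exact_mod_cast this
  have h1 := hbad Z M 0 hZ0 S1 (fun a ha => hS a (mem_filter.1 ha).1)
    (fun a ha => ⟨(mem_filter.1 ha).2, (hS a (mem_filter.1 ha).1).ht_pos⟩)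
  have h2 := hbad Z 0 M hZ0 S2 (fun a ha => hS a (mem_filter.1 ha).1)
    (fun a ha => ⟨(hS a (mem_filter.1 ha).1).gpos, (mem_filter.1 ha).2⟩)
  have h3 : C * (Z : ℝ) ^ 4 / (M + 1) ≤ (Z : ℝ) ^ 4 / 4 := by
    rw [div_le_div_iff₀ (by positivity) (by norm_num)]
    have : (0 : ℝ) ≤ (Z : ℝ) ^ 4 := by positivity
    nlinarith
  simp only [Nat.cast_zero, zero_add, mul_one, one_mul] at h1 h2
  have hfin := FS_finite (by norm_num : 0 < 8) G (2 ^ 32 * 4608 ^ 6 * (Z : ℝ) ^ 12)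
  have h4 := card_le_mul_fib S0 (fun a => F3 μ (a.2.1 * a.2.1 * a.2.2.1) a.2.2.2.1 a.2.2.2.2)
    hfin.toFinset K
    (fun a ha => by
      have d := hS a (mem_filter.1 ha).1
      rw [Set.Finite.mem_toFinset]
      refine octic_mem t G hG d.nsq d.nsq2 d.ξ0 d.pt.eq (coprime_star d.kodd d.pt.cop) ?_
      have e : ((|(a.2.1 * a.2.1 * a.2.2.1).norm| : ℤ) : ℝ) ≤ (4608 * (Z : ℝ) ^ 2) ^ 2 := by
        exact_mod_cast d.norm_le
      calc _ ≤ 2 ^ 32 * ((4608 * (Z : ℝ) ^ 2) ^ 2) ^ 3 := by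
            gcongr
        _ = _ := by ring)
    (fun L _ => good_fib hZ0 t.μ0 _ (fun a ha => hS a (mem_filter.1 (mem_filter.1 ha).1).1)
      (fun a ha => (mem_filter.1 (mem_filter.1 ha).1).2) L (fun a ha => (mem_filter.1 ha).2))
  rw [Set.ncard_eq_toFinset_card _ hfin, one_div, inv_mul_le_iff₀ (by positivity)]
  nlinarith

theorem lower_of_many {n : ℕ} (hn : 0 < n) (G : Subgroup (Equiv.Perm (Fin n))) {D c : ℝ} {a b Z₀ : ℕ}
    (hD : 0 < D) (hc : 0 < c) (hb : b ≠ 0)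
    (h : ∀ Z : ℕ, Z₀ ≤ Z → c * (Z : ℝ) ^ a ≤ (FS n G (D * (Z : ℝ) ^ b)).ncard) :
    ∃ c₁ : ℝ, 0 < c₁ ∧ ∃ X₀ : ℝ, 1 ≤ X₀ ∧ ∀ X : ℝ, X₀ ≤ X →
      c₁ * X ^ ((a : ℝ) / b) ≤ (FS n G X).ncard := by
  refine ⟨c / (2 ^ a * D ^ ((a : ℝ) / b)), by positivity, max 1 (D * ((Z₀ : ℝ) + 1) ^ b),
    le_max_left _ _, fun X hX => ?_⟩
  have hX1 : D * ((Z₀ : ℝ) + 1) ^ b ≤ X := (le_max_right _ _).trans hX
  have hX0 : 0 < X := lt_of_lt_of_le one_pos ((le_max_left _ _).trans hX)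
  set Y := (X / D) ^ ((b : ℝ)⁻¹) with hY
  have hYb : Y ^ b = X / D := Real.rpow_inv_natCast_pow (by positivity) hb
  have hY0 : 0 ≤ Y := by positivity
  have hY1 : (Z₀ : ℝ) + 1 ≤ Y := by
    apply (pow_le_pow_iff_left₀ (by positivity) hY0 hb).1
    rw [hYb, le_div_iff₀' hD]; exact hX1
  have hZ : Z₀ ≤ ⌊Y⌋₊ := Nat.le_floor (by linarith)
  have hZ1 : (1 : ℝ) ≤ ⌊Y⌋₊ := by
    have : 1 ≤ ⌊Y⌋₊ := Nat.le_floor (by
      have : (0 : ℝ) ≤ Z₀ := by positivity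
      push_cast; linarith)
    exact_mod_cast this
  have hZ2 : Y ≤ 2 * ⌊Y⌋₊ := by have := Nat.lt_floor_add_one Y; linarith
  have h1 := h _ hZ
  have h2 : D * ((⌊Y⌋₊ : ℕ) : ℝ) ^ b ≤ X := by
    rw [← le_div_iff₀' hD, ← hYb]
    exact pow_le_pow_left₀ (by positivity) (Nat.floor_le hY0) b
  have h3 : (FS n G (D * ((⌊Y⌋₊ : ℕ) : ℝ) ^ b)).ncard ≤ (FS n G X).ncard :=
    Set.ncard_le_ncard (FS_mono G h2) (FS_finite hn G X)
  have h4 : X ^ ((a : ℝ) / b) = D ^ ((a : ℝ) / b) * Y ^ a := by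
    rw [hY, ← Real.rpow_natCast, ← Real.rpow_mul (by positivity), ← div_eq_inv_mul,
      ← Real.mul_rpow hD.le (by positivity), mul_div_cancel₀ _ hD.ne']
  have h5 : Y ^ a ≤ 2 ^ a * ((⌊Y⌋₊ : ℕ) : ℝ) ^ a := by
    rw [← mul_pow]; exact pow_le_pow_left₀ hY0 hZ2 a
  calc c / (2 ^ a * D ^ ((a : ℝ) / b)) * X ^ ((a : ℝ) / b) = c * (Y ^ a / 2 ^ a) := by
        rw [h4]; field_simp
    _ ≤ c * ((⌊Y⌋₊ : ℕ) : ℝ) ^ a := by
        gcongr; rw [div_le_iff₀' (by positivity)]; exact h5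
    _ ≤ _ := h1.trans (by exact_mod_cast h3)

theorem lower_bound (k : Fin 8) (hk : k = 3 ∨ k = 7) (G : Subgroup (Equiv.Perm (Fin 8)))
    (hG : ∀ τ, τ ∈ G ↔ ∃ b, (∀ i, τ i = i + b) ∨ (∀ i, τ i = k * i + b)) :
    ∃ c₁ : ℝ, 0 < c₁ ∧ ∃ X₀ : ℝ, 1 ≤ X₀ ∧ ∀ X : ℝ, X₀ ≤ X →
      c₁ * X ^ ((1 : ℝ) / 3) ≤ (FS 8 G X).ncard := by
  have : ∃ μ ν κ, Tw k μ ν κ := by
    rcases hk with rfl | rfl
    · exact ⟨_, _, _, tw3⟩
    · exact ⟨_, _, _, tw7⟩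
  obtain ⟨μ, ν, κ, t⟩ := this
  obtain ⟨c, hc, h⟩ := many_fields t G hG
  have := lower_of_many (by norm_num : 0 < 8) G (by positivity) hc (by norm_num) h
  norm_num at this ⊢
  exact this

end Pool.Agent.Lib.MP_af4c59_nt
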