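import Pool.Agent.Lib.MP_af4c59_nt.Descent
import Pool.Agent.Lib.MP_af4c59_nt.Count

set_option autoImplicit false

namespace Pool.Agent.Lib.MP_af4c59_nt

open Finset

/-- Balanced squarefree elements of bounded size. -/
structure Bal (T : ℕ) (η : O) : Prop where
  sf : Squarefree η
  n4 : ¬ 4 ∣ η.norm
  bal : 2 * |η.im| ≤ η.re
  le : η.re ≤ T

/-- The positive definite form measuring the size of `ξ`. -/
def Af (ξ : O) : ℤ := ξ.re ^ 2 + 2 * ξ.im ^ 2

lemma Af_pos {ξ : O} (h : IsCoprime ξ.re ξ.im) : 0 < Af ξ := by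
  unfold Af
  by_contra hcon
  have h1 : ξ.re = 0 := by nlinarith [sq_nonneg ξ.re, sq_nonneg ξ.im]
  have h2 : ξ.im = 0 := by nlinarith [sq_nonneg ξ.re, sq_nonneg ξ.im]
  rw [h1, h2] at h; exact not_isCoprime_zero_zero h

lemma ht_sq_le_Af (ξ : O) : ((ht ξ : ℕ) : ℤ) ^ 2 ≤ Af ξ := by
  unfold ht Af
  rcases le_total ξ.re.natAbs ξ.im.natAbs with h | h
  · rw [max_eq_right h, Int.natCast_natAbs, sq_abs]; nlinarith [sq_nonneg ξ.re, sq_nonneg ξ.im]
  · rw [max_eq_left h, Int.natCast_natAbs, sq_abs]; nlinarith [sq_nonneg ξ.re, sq_nonneg ξ.im]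

lemma Bf_bounds {η ξ : O} (hb : 2 * |η.im| ≤ η.re) :
    η.re * Af ξ ≤ 2 * Bf η ξ ξ ∧ Bf η ξ ξ ≤ 4 * η.re * Af ξ := by
  have hx : 0 ≤ η.re := le_trans (by positivity) hb
  have h1 : 8 * |ξ.re * ξ.im| ≤ 3 * Af ξ := by
    unfold Af
    rw [abs_mul, ← sq_abs ξ.re, ← sq_abs ξ.im]
    nlinarith [sq_nonneg (3 * |ξ.re| - 4 * |ξ.im|), sq_nonneg |ξ.im|]
  have h2 : |η.im * (ξ.re * ξ.im)| * 16 ≤ η.re * (3 * Af ξ) := by
    rw [abs_mul]
    have := mul_le_mul hb h1 (by positivity) hx
    linarith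
  have h3 := abs_le.1 (le_refl |η.im * (ξ.re * ξ.im)|)
  have hA : 0 ≤ η.re * Af ξ := mul_nonneg hx (by unfold Af; positivity)
  have e : Bf η ξ ξ = 2 * (η.re * Af ξ) + 8 * (η.im * (ξ.re * ξ.im)) := by
    rw [Bf_eq, Af]; ring
  rw [e]
  constructor <;> nlinarith [h3.1, h3.2]

lemma Sm.size {T g : ℕ} {η ξ : O} {w : ℤ} (hb : Bal T η) (h : Sm η g ξ w) :
    (g : ℤ) ^ 2 * Af ξ ≤ 32 * T ∧ w ^ 2 ≤ 4 * T * Af ξ := by
  obtain ⟨h1, h2⟩ := Bf_bounds (ξ := ξ) hb.bal
  rw [h.eq] at h1 h2
  have hA := Af_pos h.cop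
  have hx : 0 < η.re := by
    have := h.wpos
    by_contra hcon
    have : η.re = 0 := by have := hb.bal; have := abs_nonneg η.im; omega
    rw [this] at h2; nlinarith
  have hs := h.small
  have hN : η.norm ≤ η.re ^ 2 := by rw [O_norm_def]; nlinarith [sq_nonneg η.im]
  have hT := hb.le
  constructor
  · have : η.re * ((g : ℤ) ^ 2 * Af ξ) ≤ η.re * (32 * η.re) := by nlinarith [sq_nonneg (g : ℤ)]
    have := le_of_mul_le_mul_left this hx
    linarith
  · nlinarith

/-- A chosen prime above a rational prime. -/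
noncomputable def piOf (p : ℕ) : O := Classical.epsilon (fun π : O => Prime π ∧ π ∣ ((p : ℤ) : O))

lemma piOf_spec {p : ℕ} (hp : p.Prime) : Prime (piOf p) ∧ piOf p ∣ ((p : ℤ) : O) :=
  Classical.epsilon_spec (exists_prime_dvd (Nat.prime_iff_prime_int.1 hp))

lemma line_count {T g : ℕ} {ξ : O} {w : ℤ} (S : Finset O) (hS : ∀ η ∈ S, Bal T η ∧ Sm η g ξ w) :
    (S.card : ℝ) ≤ 2 ^ g.primeFactors.card * (1056 * T / (Af ξ * g)) := by
  classical
  rcases S.eq_empty_or_nonempty with rfl | ⟨η₀, hη₀⟩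
  · have : (0 : ℝ) ≤ Af ξ := by exact_mod_cast (by unfold Af; positivity : 0 ≤ Af ξ)
    simp only [card_empty, Nat.cast_zero]; positivity
  obtain ⟨hb₀, hs₀⟩ := hS η₀ hη₀
  have hA := Af_pos hs₀.cop
  have hg : (0 : ℤ) < g := by exact_mod_cast hs₀.gpos
  have hAg : Af ξ * g ≤ 32 * T := by
    have := (hs₀.size hb₀).1
    nlinarith [mul_pos hA hg]
  have hAg0 : 0 < Af ξ * g := mul_pos hA hg
  let f : O → ℕ × Finset ℕ := fun η =>
    ((512 * (η.im + T) / (Af ξ * g)).toNat, g.primeFactors.filter (fun q => piOf q ∣ η))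
  let N : ℕ := (1024 * T / (Af ξ * g)).toNat
  have hcard : S.card ≤ (N + 1) * 2 ^ g.primeFactors.card := by
    rw [← Finset.card_range (N + 1), ← Finset.card_powerset, ← Finset.card_product]
    apply Finset.card_le_card_of_injOn f
    · intro η hη
      obtain ⟨hb, hs⟩ := hS η hη
      simp only [f, Finset.coe_product, Set.mem_prod, Finset.mem_coe, Finset.mem_range,
        Finset.mem_powerset]
      refine ⟨?_, Finset.filter_subset _ _⟩
      have h1 : 512 * (η.im + T) ≤ 1024 * T := by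
        have := hb.bal; have := hb.le; have := le_abs_self η.im; have := abs_nonneg η.im
        omega
      have := Int.ediv_le_ediv hAg0 h1
      simp only [N]; omega
    · intro η hη η' hη' hf
      obtain ⟨hb, hs⟩ := hS η hη
      obtain ⟨hb', hs'⟩ := hS η' hη'
      simp only [f, Prod.mk.injEq] at hf
      obtain ⟨hf1, hf2⟩ := hf
      have hlin : (η.re - η'.re) * Af ξ + 4 * (η.im - η'.im) * (ξ.re * ξ.im) = 0 := by
        have e1 := hs.eq; have e2 := hs'.eq
        rw [Bf_eq] at e1 e2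
        unfold Af
        linarith
      have hAd : Af ξ ∣ 8 * (η.im - η'.im) := by
        have h1 : Af ξ ∣ 4 * (η.im - η'.im) * (ξ.re * ξ.im) :=
          ⟨-(η.re - η'.re), by linear_combination hlin⟩
        have h2 : Af ξ ∣ 8 * (η.im - η'.im) * ξ.re ^ 3 := by
          have : 8 * (η.im - η'.im) * ξ.re ^ 3 = 8 * (η.im - η'.im) * ξ.re * Af ξ -
            4 * ξ.im * (4 * (η.im - η'.im) * (ξ.re * ξ.im)) := by unfold Af; ring
          rw [this]; exact dvd_sub (dvd_mul_left _ _) (Dvd.dvd.mul_left h1 _)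
        have h3 : Af ξ ∣ 8 * (η.im - η'.im) * ξ.im ^ 3 := by
          have : 8 * (η.im - η'.im) * ξ.im ^ 3 = 4 * (η.im - η'.im) * ξ.im * Af ξ -
            ξ.re * (4 * (η.im - η'.im) * (ξ.re * ξ.im)) := by unfold Af; ring
          rw [this]; exact dvd_sub (dvd_mul_left _ _) (Dvd.dvd.mul_left h1 _)
        obtain ⟨a, b, hab⟩ : IsCoprime (ξ.re ^ 3) (ξ.im ^ 3) := hs.cop.pow
        have : 8 * (η.im - η'.im) = a * (8 * (η.im - η'.im) * ξ.re ^ 3) +
          b * (8 * (η.im - η'.im) * ξ.im ^ 3) := by linear_combination (-8 * (η.im - η'.im)) * hab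
        rw [this]; exact dvd_add (Dvd.dvd.mul_left h2 _) (Dvd.dvd.mul_left h3 _)
      obtain ⟨j, hj⟩ := hAd
      have hjx : 8 * (η.re - η'.re) = - 4 * j * (ξ.re * ξ.im) := by
        apply mul_left_cancel₀ hA.ne'
        linear_combination 8 * hlin - 4 * (ξ.re * ξ.im) * hj
      have hO : (8 : O) * (η - η') = (j : O) * (Zsqrtd.sqrtd * (star ξ * star ξ)) := by
        unfold Af at hj
        ext
        · simp; linear_combination hjx
        · simp; linear_combination hj
      have hgj : (g : ℤ) ∣ 64 * j := by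
        rw [← Int.natAbs_dvd_natAbs, Nat.dvd_iff_prime_pow_dvd_dvd]
        intro q k hq hk
        have hp : Prime (q : ℤ) := Nat.prime_iff_prime_int.1 hq
        have hk' : (q : ℤ) ^ k ∣ g := by
          rw [← Int.natAbs_dvd_natAbs]; simpa using hk
        suffices (q : ℤ) ^ k ∣ 64 * j by
          rw [← Int.natAbs_dvd_natAbs] at this; simpa using this
        rcases Nat.eq_zero_or_pos k with rfl | hkpos
        · simp
        by_cases hp2 : (q : ℤ) ∣ 2
        · have hq2 : q = 2 := (Nat.prime_dvd_prime_iff_eq hq Nat.prime_two).1 (by exact_mod_cast hp2)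
          subst hq2
          have : k ≤ 6 := by
            by_contra hcon
            apply hb.n4
            have h7 : ((2 : ℕ) : ℤ) ^ 7 ∣ 32 * η.norm :=
              (pow_dvd_pow _ (by omega)).trans (hk'.trans hs.gdvd)
            have : (32 : ℤ) * 4 ∣ 32 * η.norm := by simpa using h7
            exact (mul_dvd_mul_iff_left (by norm_num)).1 this
          apply Dvd.dvd.mul_right
          have h64 : (64 : ℤ) = ((2 : ℕ) : ℤ) ^ 6 := by norm_num
          rw [h64]; exact pow_dvd_pow _ this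
        have hk1 : k = 1 := by
          by_contra hcon
          exact hs.gsf q hp hp2 ((pow_dvd_pow _ (by omega)).trans hk')
        subst hk1
        rw [pow_one] at hk' ⊢
        apply Dvd.dvd.mul_left
        have h32 : ¬ (q : ℤ) ∣ 32 := fun h9 => hp2 (hp.dvd_of_dvd_pow (n := 5) (by simpa using h9))
        have hd : (q : ℤ) ∣ η.norm := (hp.dvd_or_dvd (hk'.trans hs.gdvd)).resolve_left h32
        have hd' : (q : ℤ) ∣ η'.norm := (hp.dvd_or_dvd (hk'.trans hs'.gdvd)).resolve_left h32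
        obtain ⟨hπ, hπq⟩ := piOf_spec hq
        have hmem : q ∈ g.primeFactors := by
          rw [Nat.mem_primeFactors]
          exact ⟨hq, by exact_mod_cast hk', hs.gpos.ne'⟩
        have ht : piOf q ∣ η ↔ piOf q ∣ η' := by
          have := Finset.ext_iff.1 hf2 q
          simpa [Finset.mem_filter, hmem] using this
        have hor : ∀ a : O, (q : ℤ) ∣ a.norm → piOf q ∣ a ∨ star (piOf q) ∣ a := by
          intro a ha
          have : piOf q ∣ a * star a := by
            rw [← Zsqrtd.norm_eq_mul_conj]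
            exact hπq.trans ((Zsqrtd.intCast_dvd_intCast (d := 2) q a.norm).2 ha)
          exact (hπ.dvd_or_dvd this).imp id dvd_star_iff.1
        obtain ⟨π, hπ, hπq, h1, h2⟩ : ∃ π : O, Prime π ∧ π ∣ ((q : ℤ) : O) ∧ π ∣ η ∧ π ∣ η' := by
          by_cases h1 : piOf q ∣ η
          · exact ⟨_, hπ, hπq, h1, ht.1 h1⟩
          · exact ⟨_, prime_star hπ, by rw [← dvd_star_iff, star_intCast']; exact hπq,
              (hor η hd).resolve_left h1, (hor η' hd').resolve_left (fun h => h1 (ht.2 h))⟩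
        have h3 : π ∣ (j : O) * (Zsqrtd.sqrtd * (star ξ * star ξ)) := by
          rw [← hO]; exact Dvd.dvd.mul_left (dvd_sub h1 h2) _
        have h4 : ¬ π ∣ star ξ := not_dvd_star_xi hp hp2 hπ hπq hb.sf hs.cop h1 hs.eq
        rcases hπ.dvd_or_dvd h3 with h5 | h5
        · exact int_dvd_of_prime_dvd hp hπ hπq h5
        · exfalso
          rcases hπ.dvd_or_dvd h5 with h6 | h6
          · apply hp2
            apply int_dvd_of_prime_dvd hp hπ hπq
            rw [← Zsqrtd.dmuld]; exact Dvd.dvd.mul_right h6 _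
          · exact h4 ((hπ.dvd_or_dvd h6).elim id id)
      have hj0 : j = 0 := by
        by_contra hj0
        have h1 : (g : ℤ) ≤ 64 * |j| := by
          have := Int.le_of_dvd (by positivity : 0 < |64 * j|) ((dvd_abs _ _).2 hgj)
          rwa [abs_mul] at this
        have y1 : 0 ≤ η.im + T := by
          have := hb.bal; have := hb.le; have := neg_abs_le η.im; have := abs_nonneg η.im; omega
        have y2 : 0 ≤ η'.im + T := by
          have := hb'.bal; have := hb'.le; have := neg_abs_le η'.im; have := abs_nonneg η'.im; omega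
        have hq : 512 * (η.im + T) / (Af ξ * g) = 512 * (η'.im + T) / (Af ξ * g) := by
          have a1 : 0 ≤ 512 * (η.im + T) / (Af ξ * g) := Int.ediv_nonneg (by positivity) hAg0.le
          have a2 : 0 ≤ 512 * (η'.im + T) / (Af ξ * g) := Int.ediv_nonneg (by positivity) hAg0.le
          omega
        have r1 := Int.emod_add_mul_ediv (512 * (η.im + T)) (Af ξ * g)
        have r2 := Int.emod_add_mul_ediv (512 * (η'.im + T)) (Af ξ * g)
        have r3 := Int.emod_nonneg (512 * (η.im + T)) hAg0.ne'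
        have r4 := Int.emod_lt_of_pos (512 * (η.im + T)) hAg0
        have r5 := Int.emod_nonneg (512 * (η'.im + T)) hAg0.ne'
        have r6 := Int.emod_lt_of_pos (512 * (η'.im + T)) hAg0
        rw [← hq] at r2
        have h2 : |64 * (Af ξ * j)| < Af ξ * g := by
          rw [← hj, abs_lt]; constructor <;> omega
        rw [abs_mul, abs_mul, abs_of_pos hA] at h2
        have h3 : |(64 : ℤ)| = 64 := by norm_num
        rw [h3] at h2
        nlinarith
      rw [hj0] at hj hjx
      ext <;> omega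
  have hN : (N : ℝ) ≤ 1024 * T / (Af ξ * g) := by
    have h1 : ((N : ℤ) : ℝ) ≤ 1024 * T / (Af ξ * g) := by
      have h2 : (N : ℤ) = 1024 * T / (Af ξ * g) :=
        Int.toNat_of_nonneg (Int.ediv_nonneg (by positivity) hAg0.le)
      rw [h2, le_div_iff₀ (by exact_mod_cast hAg0)]
      exact_mod_cast Int.ediv_mul_le _ hAg0.ne'
    exact_mod_cast h1
  have h1 : (1 : ℝ) ≤ 32 * T / (Af ξ * g) := by
    rw [le_div_iff₀ (by exact_mod_cast hAg0), one_mul]; exact_mod_cast hAg
  calc (S.card : ℝ) ≤ (N + 1) * 2 ^ g.primeFactors.card := by exact_mod_cast hcard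
    _ ≤ (1024 * T / (Af ξ * g) + 32 * T / (Af ξ * g)) * 2 ^ g.primeFactors.card := by gcongr
    _ = _ := by ring

lemma xi_count {T g : ℕ} {ξ : O} (S : Finset (O × ℤ))
    (hS : ∀ a ∈ S, Bal T a.1 ∧ Sm a.1 g ξ a.2) :
    (S.card : ℝ) ≤ 8448 * (T * √T) / √g * (1 / (ht ξ : ℕ)) := by
  classical
  rcases S.eq_empty_or_nonempty with rfl | ⟨a₀, ha₀⟩
  · simp only [card_empty, Nat.cast_zero]; positivity
  obtain ⟨hb₀, hs₀⟩ := hS a₀ ha₀
  have hA := Af_pos hs₀.cop
  have hA' : (0 : ℝ) < Af ξ := by exact_mod_cast hA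
  have hg : (0 : ℝ) < g := by exact_mod_cast hs₀.gpos
  have hh : 0 < ht ξ := by
    by_contra hcon
    have h0 : ht ξ = 0 := by omega
    unfold ht at h0
    have h1 : ξ.re = 0 := by omega
    have h2 : ξ.im = 0 := by omega
    unfold Af at hA; rw [h1, h2] at hA; simp at hA
  have hh' : (0 : ℝ) < (ht ξ : ℕ) := by exact_mod_cast hh
  have hhA : ((ht ξ : ℕ) : ℝ) ≤ √(Af ξ) := by
    apply Real.le_sqrt_of_sq_le
    exact_mod_cast ht_sq_le_Af ξ
  have h1 := card_le_mul_fib S (fun a => a.2) (Icc (1 : ℤ) ⌊2 * √T * √(Af ξ)⌋)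
    (4 * √g * (1056 * T / (Af ξ * g))) (by
      intro a ha
      obtain ⟨hb, hs⟩ := hS a ha
      rw [mem_Icc, Int.le_floor]
      refine ⟨hs.wpos, ?_⟩
      have h2 : ((a.2 : ℤ) : ℝ) ^ 2 ≤ (2 * √T * √(Af ξ)) ^ 2 := by
        rw [mul_pow, mul_pow, Real.sq_sqrt (Nat.cast_nonneg T), Real.sq_sqrt hA'.le]
        have := (hs.size hb).2
        norm_num
        exact_mod_cast this
      exact le_trans (le_abs_self _) (abs_le_of_sq_le_sq h2 (by positivity))) (by
      intro w _
      have h2 := line_count (T := T) (g := g) (ξ := ξ) (w := w)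
        ((S.filter (fun a => a.2 = w)).image (fun a => a.1)) (by
          intro η hη
          obtain ⟨a, ha, rfl⟩ := mem_image.1 hη
          obtain ⟨ha1, ha2⟩ := mem_filter.1 ha
          exact ha2 ▸ hS a ha1)
      rw [card_image_of_injOn (by
        intro a ha b hb hab
        exact Prod.ext hab (((mem_filter.1 ha).2).trans ((mem_filter.1 hb).2).symm))] at h2
      refine h2.trans ?_
      gcongr
      exact two_pow_omega_le g hs₀.gpos.ne')
  refine h1.trans ?_
  have h3 : (((Icc (1 : ℤ) ⌊2 * √T * √(Af ξ)⌋).card : ℕ) : ℝ) ≤ 2 * √T * √(Af ξ) := by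
    rw [Int.card_Icc]
    have h4 : 0 ≤ ⌊2 * √T * √(Af ξ)⌋ := Int.floor_nonneg.2 (by positivity)
    have h5 : ((((⌊2 * √T * √(Af ξ)⌋ + 1 - 1).toNat : ℕ) : ℤ) : ℝ) = ⌊2 * √T * √(Af ξ)⌋ := by
      congr 1; omega
    rw [← Int.cast_natCast, h5]; exact Int.floor_le _
  calc _ ≤ (2 * √T * √(Af ξ)) * (4 * √g * (1056 * T / (Af ξ * g))) := by gcongr
    _ = 8448 * (T * √T) / √g * (1 / √(Af ξ)) := by
      have e1 : (Af ξ : ℝ) = √(Af ξ) * √(Af ξ) := (Real.mul_self_sqrt hA'.le).symm
      have e2 : (g : ℝ) = √g * √g := (Real.mul_self_sqrt hg.le).symm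
      have p1 : 0 < √(Af ξ : ℝ) := Real.sqrt_pos.2 hA'
      have p2 : 0 < √(g : ℝ) := Real.sqrt_pos.2 hg
      set a := √(Af ξ : ℝ)
      set b := √(g : ℝ)
      rw [e1, e2]
      field_simp
      ring
    _ ≤ _ := by gcongr

lemma g_count {T g : ℕ} (S : Finset (O × O × ℤ))
    (hS : ∀ a ∈ S, Bal T a.1 ∧ Sm a.1 g a.2.1 a.2.2) :
    (S.card : ℝ) ≤ 608256 * (T : ℝ) ^ 2 * (1 / (g * √g)) := by
  classical
  rcases S.eq_empty_or_nonempty with rfl | ⟨a₀, ha₀⟩
  · simp only [card_empty, Nat.cast_zero]; positivity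
  obtain ⟨hb₀, hs₀⟩ := hS a₀ ha₀
  have hg : (0 : ℝ) < g := by exact_mod_cast hs₀.gpos
  have h1 := card_le_sum_fib S (fun a => a.2.1) (S.image (fun a => a.2.1))
    (fun ξ => 8448 * (T * √T) / √g * (1 / (ht ξ : ℕ))) (fun a ha => mem_image_of_mem _ ha) (by
      intro ξ _
      have h2 := xi_count (T := T) (g := g) (ξ := ξ)
        ((S.filter (fun a => a.2.1 = ξ)).image (fun a => (a.1, a.2.2))) (by
          intro b hb
          obtain ⟨a, ha, rfl⟩ := mem_image.1 hb
          obtain ⟨ha1, ha2⟩ := mem_filter.1 ha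
          exact ha2 ▸ hS a ha1)
      rwa [card_image_of_injOn (by
        intro a ha b hb hab
        simp only [Prod.mk.injEq] at hab
        exact Prod.ext hab.1 (Prod.ext (((mem_filter.1 ha).2).trans ((mem_filter.1 hb).2).symm)
          hab.2))] at h2)
  refine h1.trans ?_
  have h2 := sum_shell (S.image (fun a => a.2.1)) (fun h => 8448 * (T * √T) / √g * (1 / (h : ℝ)))
    (fun h => by positivity) (Icc 1 ⌊6 * √T / g⌋₊) (by simp) (by
      intro ξ hξ
      obtain ⟨a, ha, rfl⟩ := mem_image.1 hξ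
      obtain ⟨hb, hs⟩ := hS a ha
      rw [mem_Icc]
      constructor
      · by_contra hcon
        have h0 : ht a.2.1 = 0 := by omega
        unfold ht at h0
        have h1 : a.2.1.re = 0 := by omega
        have h2 : a.2.1.im = 0 := by omega
        have hA := Af_pos hs.cop
        unfold Af at hA; rw [h1, h2] at hA; simp at hA
      · apply Nat.le_floor
        rw [le_div_iff₀ hg]
        have h3 := (hs.size hb).1
        have h4 := ht_sq_le_Af a.2.1
        have h5 : (((ht a.2.1 : ℕ) : ℤ) * g) ^ 2 ≤ 36 * T := by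
          have : (0 : ℤ) ≤ T := by positivity
          nlinarith [sq_nonneg (g : ℤ)]
        have h6 : (((ht a.2.1 : ℕ) : ℝ) * g) ^ 2 ≤ (6 * √T) ^ 2 := by
          rw [mul_pow 6, Real.sq_sqrt (Nat.cast_nonneg T)]
          norm_num
          exact_mod_cast h5
        exact le_trans (le_abs_self _) (abs_le_of_sq_le_sq h6 (by positivity)))
  refine h2.trans ?_
  rw [Finset.sum_congr rfl (g := fun _ => 12 * (8448 * (T * √T) / √g)) (by
    intro h hh
    have : (h : ℝ) ≠ 0 := by
      have := (mem_Icc.1 hh).1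
      positivity
    field_simp)]
  rw [sum_const, Nat.card_Icc, nsmul_eq_mul, Nat.add_sub_cancel]
  calc _ ≤ (6 * √T / g) * (12 * (8448 * (T * √T) / √g)) := by
        gcongr; exact Nat.floor_le (by positivity)
    _ = 608256 * (T * (√T * √T)) * (1 / (g * √g)) := by field_simp; ring
    _ = _ := by rw [Real.mul_self_sqrt (Nat.cast_nonneg T), sq]

/-- The number of small points over balanced squarefree elements of size at most `T`. -/
theorem small_count : ∃ C : ℝ, 0 < C ∧ ∀ (T : ℕ) (S : Finset (O × ℕ × O × ℤ)),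
    (∀ a ∈ S, Bal T a.1 ∧ Sm a.1 a.2.1 a.2.2.1 a.2.2.2) → (S.card : ℝ) ≤ C * (T : ℝ) ^ 2 := by
  classical
  obtain ⟨C, hC, hsum⟩ := exists_sum_three_halves
  refine ⟨608256 * C, by positivity, fun T S hS => ?_⟩
  have h1 := card_le_sum_fib S (fun a => a.2.1) (S.image (fun a => a.2.1))
    (fun g => 608256 * (T : ℝ) ^ 2 * (1 / (g * √g))) (fun a ha => mem_image_of_mem _ ha) (by
      intro g _
      have h2 := g_count (T := T) (g := g)
        ((S.filter (fun a => a.2.1 = g)).image (fun a => (a.1, a.2.2))) (by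
          intro b hb
          obtain ⟨a, ha, rfl⟩ := mem_image.1 hb
          obtain ⟨ha1, ha2⟩ := mem_filter.1 ha
          exact ha2 ▸ hS a ha1)
      rwa [card_image_of_injOn (by
        intro a ha b hb hab
        simp only [Prod.mk.injEq] at hab
        exact Prod.ext hab.1 (Prod.ext (((mem_filter.1 ha).2).trans ((mem_filter.1 hb).2).symm)
          hab.2))] at h2)
  refine h1.trans ?_
  rw [← mul_sum]
  calc _ ≤ 608256 * (T : ℝ) ^ 2 * C := by gcongr; exact hsum _
    _ = _ := by ring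

end Pool.Agent.Lib.MP_af4c59_nt
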