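import Pool.Agent.Lib.MP_af4c59_nt.Gen
import Pool.Agent.Lib.MP_af4c59_nt.Descent

set_option autoImplicit false

namespace Pool.Agent.Lib.MP_af4c59_nt

open IntermediateField

/-- A chosen square root. -/
noncomputable def rt (x : Ω) : Ω := Classical.choose (IsAlgClosed.exists_pow_nat_eq x two_pos)

lemma rt_sq (x : Ω) : rt x ^ 2 = x := Classical.choose_spec (IsAlgClosed.exists_pow_nat_eq x two_pos)

/-- Adjoining one element. -/
noncomputable def Qx (E : IntermediateField ℚ Ω) (a : Ω) : IntermediateField ℚ Ω := E ⊔ ℚ⟮a⟯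

instance (a : Ω) : FiniteDimensional ℚ ℚ⟮a⟯ :=
  adjoin.finiteDimensional (Algebra.IsIntegral.isIntegral a)

instance (E : IntermediateField ℚ Ω) [FiniteDimensional ℚ E] (a : Ω) :
    FiniteDimensional ℚ (Qx E a) := by unfold Qx; infer_instance

lemma le_Qx (E : IntermediateField ℚ Ω) (a : Ω) : E ≤ Qx E a := le_sup_left

lemma self_mem_Qx (E : IntermediateField ℚ Ω) (a : Ω) : a ∈ Qx E a :=
  (le_sup_right : ℚ⟮a⟯ ≤ Qx E a) (mem_adjoin_simple_self ℚ a)

lemma mem_Qx {E : IntermediateField ℚ Ω} {a : Ω} (h : a ^ 2 ∈ E) {x : Ω} (hx : x ∈ Qx E a) :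
    ∃ u ∈ E, ∃ v ∈ E, x = u + v * a := by
  let R : IntermediateField ℚ Ω :=
    { carrier := {x | ∃ u ∈ E, ∃ v ∈ E, x = u + v * a}
      mul_mem' := by
        rintro _ _ ⟨u, hu, v, hv, rfl⟩ ⟨u', hu', v', hv', rfl⟩
        exact ⟨u * u' + v * v' * a ^ 2, E.add_mem (E.mul_mem hu hu') (E.mul_mem (E.mul_mem hv hv') h),
          u * v' + v * u', E.add_mem (E.mul_mem hu hv') (E.mul_mem hv hu'), by ring⟩
      add_mem' := by
        rintro _ _ ⟨u, hu, v, hv, rfl⟩ ⟨u', hu', v', hv', rfl⟩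
        exact ⟨u + u', E.add_mem hu hu', v + v', E.add_mem hv hv', by ring⟩
      algebraMap_mem' := fun r => ⟨_, E.algebraMap_mem r, 0, E.zero_mem, by simp⟩
      inv_mem' := by
        rintro _ ⟨u, hu, v, hv, rfl⟩
        by_cases h0 : u + v * a = 0
        · exact ⟨0, E.zero_mem, 0, E.zero_mem, by simp [h0]⟩
        by_cases h1 : u - v * a = 0
        · refine ⟨(u + u)⁻¹, E.inv_mem (E.add_mem hu hu), 0, E.zero_mem, ?_⟩
          rw [zero_mul, add_zero]; congr 1; linear_combination -h1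
        · have hN : u * u - v * v * a ^ 2 ∈ E :=
            E.sub_mem (E.mul_mem hu hu) (E.mul_mem (E.mul_mem hv hv) h)
          have e : u * u - v * v * a ^ 2 = (u + v * a) * (u - v * a) := by ring
          refine ⟨u / (u * u - v * v * a ^ 2), E.div_mem hu hN, -v / (u * u - v * v * a ^ 2),
            E.div_mem (E.neg_mem hv) hN, ?_⟩
          rw [e]; field_simp; ring }
  have : Qx E a ≤ R := by
    apply sup_le
    · intro y hy; exact ⟨y, hy, 0, E.zero_mem, by simp⟩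
    · rw [adjoin_simple_le_iff]; exact ⟨0, E.zero_mem, 1, E.one_mem, by simp⟩
  exact this hx

lemma coeff_eq {E : IntermediateField ℚ Ω} {a : Ω} (ha : a ∉ E) {u v u' v' : Ω} (hu : u ∈ E)
    (hv : v ∈ E) (hu' : u' ∈ E) (hv' : v' ∈ E) (h : u + v * a = u' + v' * a) : u = u' ∧ v = v' := by
  have : v = v' := by
    by_contra hne
    apply ha
    have h1 : v - v' ≠ 0 := sub_ne_zero.2 hne
    have : a = (u' - u) / (v - v') := by field_simp; linear_combination h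
    rw [this]; exact E.div_mem (E.sub_mem hu' hu) (E.sub_mem hv hv')
  exact ⟨by rw [this] at h; linear_combination h, this⟩

lemma sq_mem_cases {E : IntermediateField ℚ Ω} {a : Ω} (h : a ^ 2 ∈ E) (ha : a ∉ E) {x : Ω}
    (hx : x ∈ Qx E a) (h2 : x ^ 2 ∈ E) : x ∈ E ∨ ∃ v ∈ E, x = v * a := by
  obtain ⟨u, hu, v, hv, rfl⟩ := mem_Qx h hx
  have := (coeff_eq ha (E.add_mem (E.mul_mem hu hu) (E.mul_mem (E.mul_mem hv hv) h))
    (E.add_mem (E.mul_mem hu hv) (E.mul_mem hu hv)) h2 E.zero_mem (by ring)).2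
  have h3 : u * v = 0 := by linear_combination (1 / 2 : Ω) * this
  rcases mul_eq_zero.1 h3 with rfl | rfl
  · exact Or.inr ⟨v, hv, by ring⟩
  · exact Or.inl (by simpa using hu)

lemma fix_Qx {E : IntermediateField ℚ Ω} {a : Ω} (h : a ^ 2 ∈ E) {σ : Ω ≃ₐ[ℚ] Ω}
    (hE : ∀ x ∈ E, σ x = x) (ha : σ a = a) : ∀ x ∈ Qx E a, σ x = x := by
  intro x hx
  obtain ⟨u, hu, v, hv, rfl⟩ := mem_Qx h hx
  rw [map_add, map_mul, hE u hu, hE v hv, ha]

/-- The square root of two. -/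
noncomputable def s2 : Ω := rt 2

lemma s2_sq : s2 ^ 2 = 2 := rt_sq 2

lemma s2_ne : s2 ≠ 0 := by
  intro h; have := s2_sq; rw [h] at this; norm_num at this

/-- The embedding of the quadratic ring. -/
noncomputable def em : O →+* Ω := Zsqrtd.lift ⟨s2, by rw [← sq, s2_sq]; norm_num⟩

lemma em_apply (z : O) : em z = z.re + z.im * s2 := rfl

lemma em_inj : Function.Injective em := Zsqrtd.lift_injective _ two_ne_sq

lemma em_ne {z : O} (h : z ≠ 0) : em z ≠ 0 := fun h0 => h (em_inj (by rw [h0, map_zero]))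

lemma em_fix {σ : Ω ≃ₐ[ℚ] Ω} (h : σ s2 = s2) (z : O) : σ (em z) = em z := by
  simp [em_apply, h]

lemma em_swap {σ : Ω ≃ₐ[ℚ] Ω} (h : σ s2 = -s2) (z : O) : σ (em z) = em (star z) := by
  simp [em_apply, h]

lemma em_int (z : O) : IsIntegral ℤ (em z) := by
  have hs : IsIntegral ℤ s2 := by
    apply IsIntegral.of_pow two_pos
    rw [s2_sq]; exact_mod_cast isIntegral_algebraMap (R := ℤ) (A := Ω) (x := 2)
  rw [em_apply]
  exact (isIntegral_algebraMap (R := ℤ) (x := z.re)).add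
    ((isIntegral_algebraMap (R := ℤ) (x := z.im)).mul hs)

lemma em_trace {η ξ ξ' : O} : em (η * ξ * ξ') + em (star η * star ξ * star ξ') = Bf η ξ ξ' := by
  rw [← map_add, ← star_mul', ← star_mul', add_star_eq, map_intCast, Bf]

/-- The quadratic field. -/
noncomputable def F1 : IntermediateField ℚ Ω := Qx ⊥ s2

instance : FiniteDimensional ℚ F1 := by unfold F1; infer_instance

lemma s2_sq_mem : s2 ^ 2 ∈ (⊥ : IntermediateField ℚ Ω) := by
  rw [s2_sq]; exact_mod_cast (⊥ : IntermediateField ℚ Ω).natCast_mem 2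

lemma em_mem (z : O) : em z ∈ F1 := by
  rw [em_apply]
  exact F1.add_mem (F1.intCast_mem _) (F1.mul_mem (F1.intCast_mem _) (self_mem_Qx _ _))

lemma mem_F1 {x : Ω} (hx : x ∈ F1) : ∃ (a : O) (m : ℤ), m ≠ 0 ∧ x * m = em a := by
  obtain ⟨u, hu, v, hv, rfl⟩ := mem_Qx s2_sq_mem hx
  obtain ⟨p, rfl⟩ := mem_bot.1 hu
  obtain ⟨q, rfl⟩ := mem_bot.1 hv
  refine ⟨⟨p.num * q.den, q.num * p.den⟩, p.den * q.den, by positivity, ?_⟩
  rw [em_apply]
  have h1 : (p : Ω) * p.den = p.num := by exact_mod_cast p.mul_den_eq_num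
  have h2 : (q : Ω) * q.den = q.num := by exact_mod_cast q.mul_den_eq_num
  simp only [eq_ratCast]
  push_cast
  rw [← h1, ← h2]; ring

lemma not_sq_F1 {η : O} (hη : ¬ IsSquare η.norm) {x c : Ω} (hx : x ∈ F1) (hc : c ∈ F1) (hc0 : c ≠ 0)
    (h : x ^ 2 = c ^ 2 * em η) : False := by
  obtain ⟨a, m, hm, ha⟩ := mem_F1 (F1.div_mem hx hc)
  apply hη
  have : (m : O) * m * η = a * a := by
    apply em_inj
    simp only [map_mul, map_intCast, ← ha]
    field_simp
    linear_combination -h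
  have h2 := congrArg Zsqrtd.norm this
  simp only [Zsqrtd.norm_mul, Zsqrtd.norm_intCast] at h2
  exact isSquare_of_mul_sq (s := m * m) (t := a.norm) (mul_ne_zero hm hm) (by linear_combination h2)

/-- The quartic field. -/
noncomputable def F2 (η : O) : IntermediateField ℚ Ω := Qx F1 (rt (em η))

instance (η : O) : FiniteDimensional ℚ (F2 η) := by unfold F2; infer_instance

lemma rt_sq_mem (η : O) : rt (em η) ^ 2 ∈ F1 := by rw [rt_sq]; exact em_mem η

lemma rt_not_mem {η : O} (hη : ¬ IsSquare η.norm) : rt (em η) ∉ F1 := fun h =>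
  not_sq_F1 hη h F1.one_mem one_ne_zero (by rw [rt_sq]; ring)

lemma conic_em {η ξ : O} {w : ℤ} (h : Bf η ξ ξ = w ^ 2) :
    (w : Ω) ^ 2 = em η * em ξ ^ 2 + em (star η) * em (star ξ) ^ 2 := by
  have := em_trace (η := η) (ξ := ξ) (ξ' := ξ)
  rw [h] at this
  simp only [map_mul] at this
  push_cast at this
  linear_combination -this

lemma not_sq_F2 {η ξ : O} {w : ℤ} (hη : ¬ IsSquare η.norm) (hξ : ξ ≠ 0) (h : Bf η ξ ξ = w ^ 2)
    {y c : Ω} (hy : y ∈ F2 η) (hc : c ∈ F1) (hc0 : c ≠ 0)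
    (e : y ^ 2 = c * (w + em ξ * rt (em η))) : False := by
  obtain ⟨u, hu, v, hv, rfl⟩ := mem_Qx (rt_sq_mem η) hy
  have hθ := rt_sq (em η)
  obtain ⟨e1, e2⟩ := coeff_eq (rt_not_mem hη)
    (F1.add_mem (F1.mul_mem hu hu) (F1.mul_mem (F1.mul_mem hv hv) (em_mem η)))
    (F1.add_mem (F1.mul_mem hu hv) (F1.mul_mem hu hv)) (F1.mul_mem hc (F1.intCast_mem w))
    (F1.mul_mem hc (em_mem ξ)) (by linear_combination e - v ^ 2 * hθ)
  have hη' : ¬ IsSquare (star η).norm := by rwa [Zsqrtd.norm_conj]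
  have hξ' : star ξ ≠ 0 := by simpa using hξ
  refine not_sq_F1 hη' (F1.sub_mem (F1.mul_mem hu hu) (F1.mul_mem (F1.mul_mem hv hv) (em_mem η)))
    (F1.mul_mem hc (em_mem (star ξ))) (mul_ne_zero hc0 (em_ne hξ')) ?_
  have hw := conic_em h
  linear_combination (u * u + v * v * em η + c * w) * e1 - em η * (u * v + u * v + c * em ξ) * e2
    + c ^ 2 * hw

/-- The octic field. -/
noncomputable def F3 (μ η ξ : O) (w : ℤ) : IntermediateField ℚ Ω :=
  Qx (F2 η) (rt (em μ * (w + em ξ * rt (em η))))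

instance (μ η ξ : O) (w : ℤ) : FiniteDimensional ℚ (F3 μ η ξ w) := by unfold F3; infer_instance

lemma gamma_mem (η ξ : O) (w : ℤ) : (w + em ξ * rt (em η)) ∈ F2 η :=
  (F2 η).add_mem ((F2 η).intCast_mem w) ((F2 η).mul_mem (le_Qx _ _ (em_mem ξ)) (self_mem_Qx _ _))

lemma a_sq_mem (μ η ξ : O) (w : ℤ) : rt (em μ * (w + em ξ * rt (em η))) ^ 2 ∈ F2 η := by
  rw [rt_sq]; exact (F2 η).mul_mem (le_Qx _ _ (em_mem μ)) (gamma_mem η ξ w)

lemma a_not_mem {μ η ξ : O} {w : ℤ} (hμ : μ ≠ 0) (hη : ¬ IsSquare η.norm) (hξ : ξ ≠ 0)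
    (h : Bf η ξ ξ = w ^ 2) : rt (em μ * (w + em ξ * rt (em η))) ∉ F2 η := fun hm =>
  not_sq_F2 hη hξ h hm (em_mem μ) (em_ne hμ) (rt_sq _)

lemma eta_ne {η : O} (hη : ¬ IsSquare η.norm) : η ≠ 0 := by
  rintro rfl; exact hη (by simp)

theorem same_field_eta {μ η ξ η' ξ' : O} {w w' : ℤ} (hμ : μ ≠ 0) (hη : ¬ IsSquare η.norm)
    (hη' : ¬ IsSquare η'.norm) (hξ : ξ ≠ 0) (h : Bf η ξ ξ = w ^ 2)
    (e : F3 μ η ξ w = F3 μ η' ξ' w') :
    ∃ (a : O) (m : ℤ), m ≠ 0 ∧ (m : O) * m * η' = η * (a * a) := by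
  have h1 : rt (em η') ∈ F3 μ η ξ w := by rw [e]; exact le_Qx _ _ (self_mem_Qx _ _)
  rcases sq_mem_cases (a_sq_mem μ η ξ w) (a_not_mem hμ hη hξ h) h1 (le_Qx _ _ (rt_sq_mem η'))
    with h2 | ⟨v, hv, h2⟩
  · rcases sq_mem_cases (rt_sq_mem η) (rt_not_mem hη) h2 (rt_sq_mem η') with h3 | ⟨v, hv, h3⟩
    · exact absurd h3 (rt_not_mem hη')
    · obtain ⟨a, m, hm, ha⟩ := mem_F1 hv
      refine ⟨a, m, hm, em_inj ?_⟩
      simp only [map_mul, map_intCast, ← ha]
      rw [← rt_sq (em η'), h3, ← rt_sq (em η), rt_sq (em η)]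
      have := rt_sq (em η)
      linear_combination (m : Ω) ^ 2 * v ^ 2 * this
  · exfalso
    have h0 : em η' ≠ 0 := em_ne (eta_ne hη')
    have h3 := rt_sq (em η')
    rw [h2, mul_pow, rt_sq] at h3
    have hv0 : v ≠ 0 := by rintro rfl; apply h0; rw [← h3]; ring
    refine not_sq_F2 hη hξ h ((F2 η).div_mem (le_Qx _ _ (em_mem η')) hv)
      (F1.mul_mem (em_mem η') (em_mem μ)) (mul_ne_zero h0 (em_ne hμ)) ?_
    field_simp
    linear_combination -h3

theorem same_field_rel {μ η ξ ξ' : O} {w w' : ℤ} (hμ : μ ≠ 0) (hη : ¬ IsSquare η.norm)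
    (hξ : ξ ≠ 0) (hξ' : ξ' ≠ 0) (h : Bf η ξ ξ = w ^ 2) (h' : Bf η ξ' ξ' = w' ^ 2)
    (e : F3 μ η ξ w = F3 μ η ξ' w') : Rel η (ξ, w) (ξ', w') := by
  have h1 : rt (em μ * (w' + em ξ' * rt (em η))) ∈ F3 μ η ξ w := by rw [e]; exact self_mem_Qx _ _
  rcases sq_mem_cases (a_sq_mem μ η ξ w) (a_not_mem hμ hη hξ h) h1 (a_sq_mem μ η ξ' w')
    with h2 | ⟨v, hv, h2⟩
  · exact absurd h2 (a_not_mem hμ hη hξ' h')
  have h3 := rt_sq (em μ * (w' + em ξ' * rt (em η)))
  rw [h2, mul_pow, rt_sq] at h3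
  have hθ := rt_sq (em η)
  have hw := conic_em h
  have hw' := conic_em h'
  have hγ0 : (w : Ω) + em ξ * rt (em η) ≠ 0 := fun h0 =>
    not_sq_F2 hη hξ h (F2 η).zero_mem F1.one_mem one_ne_zero (by rw [h0]; ring)
  have hγ0' : (w' : Ω) + em ξ' * rt (em η) ≠ 0 := fun h0 =>
    not_sq_F2 hη hξ' h' (F2 η).zero_mem F1.one_mem one_ne_zero (by rw [h0]; ring)
  have hμ0 := em_ne hμ
  have hv0 : v ≠ 0 := by
    rintro rfl; exact mul_ne_zero hμ0 hγ0' (by rw [← h3]; ring)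
  have h4 : v ^ 2 * (w + em ξ * rt (em η)) = w' + em ξ' * rt (em η) := by
    apply mul_left_cancel₀ hμ0; linear_combination h3
  have hB := em_trace (η := η) (ξ := ξ) (ξ' := ξ')
  simp only [map_mul] at hB
  set θ := rt (em η)
  set γ := (w : Ω) + em ξ * θ with hγ
  set γ' := (w' : Ω) + em ξ' * θ with hγ'
  set c := em (star η) * em (star ξ) * em (star ξ') with hc
  have hy : (γ * γ' + c) / (v * γ) ∈ F2 η :=
    (F2 η).div_mem ((F2 η).add_mem ((F2 η).mul_mem (gamma_mem η ξ w) (gamma_mem η ξ' w'))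
      (le_Qx _ _ (F1.mul_mem (F1.mul_mem (em_mem _) (em_mem _)) (em_mem _))))
      ((F2 η).mul_mem hv (gamma_mem η ξ w))
  have hy2 : ((γ * γ' + c) / (v * γ)) ^ 2 = ((2 * (w * w' + Bf η ξ ξ') : ℤ) : Ω) := by
    have e1 : (v * γ) ^ 2 = γ * γ' := by rw [← h4]; ring
    have e2 : c ^ 2 = γ * γ' * ((w - em ξ * θ) * (w' - em ξ' * θ)) := by
      have a1 : γ * (w - em ξ * θ) = em (star η) * em (star ξ) ^ 2 := by
        rw [hγ]; linear_combination hw - em ξ ^ 2 * hθ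
      have a2 : γ' * (w' - em ξ' * θ) = em (star η) * em (star ξ') ^ 2 := by
        rw [hγ']; linear_combination hw' - em ξ' ^ 2 * hθ
      rw [hc]; linear_combination (- (em (star η) * em (star ξ') ^ 2)) * a1 -
        (γ * (w - em ξ * θ)) * a2
    rw [div_pow, e1, div_eq_iff (mul_ne_zero hγ0 hγ0')]
    push_cast
    rw [← hB]
    linear_combination e2 + 2 * γ * γ' * em ξ * em ξ' * hθ
  set R := w * w' + Bf η ξ ξ' with hR
  show IsSquare R ∨ IsSquare (2 * R)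
  rcases sq_mem_cases (rt_sq_mem η) (rt_not_mem hη) hy (by rw [hy2]; exact F1.intCast_mem _)
    with h5 | ⟨y, hy5, h5⟩
  · obtain ⟨a, m, hm, ha⟩ := mem_F1 h5
    have e3 : ((2 * R * m ^ 2 : ℤ) : O) = a * a := by
      apply em_inj
      rw [map_mul, ← ha, map_intCast]
      push_cast at hy2 ⊢
      linear_combination (-(m : Ω) ^ 2) * hy2
    have e4 := congrArg Zsqrtd.re e3
    have e5 := congrArg Zsqrtd.im e3
    simp only [Zsqrtd.re_intCast, Zsqrtd.im_intCast, Zsqrtd.re_mul, Zsqrtd.im_mul] at e4 e5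
    have : a.re * a.im = 0 := by linarith
    rcases mul_eq_zero.1 this with h6 | h6
    · left; exact isSquare_of_mul_sq (t := a.im) hm (by rw [h6] at e4; linarith)
    · right; exact isSquare_of_mul_sq (t := a.re) hm (by rw [h6] at e4; linarith)
  · obtain ⟨a, m, hm, ha⟩ := mem_F1 hy5
    have e3 : ((2 * R * m ^ 2 : ℤ) : O) = a * a * η := by
      apply em_inj
      rw [map_mul, map_mul, ← ha, map_intCast]
      rw [h5] at hy2
      push_cast at hy2 ⊢
      linear_combination (-(m : Ω) ^ 2) * hy2 + (m : Ω) ^ 2 * y ^ 2 * hθ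
    have e4 := congrArg Zsqrtd.norm e3
    simp only [Zsqrtd.norm_mul, Zsqrtd.norm_intCast] at e4
    by_cases ha0 : a.norm = 0
    · right
      rw [ha0] at e4
      have : 2 * R * m ^ 2 = 0 := by nlinarith
      rcases mul_eq_zero.1 this with h6 | h6
      · rw [h6]; exact IsSquare.zero
      · exact absurd (pow_eq_zero_iff two_ne_zero |>.1 h6) hm
    · exact absurd (isSquare_of_mul_sq (t := 2 * R * m ^ 2) ha0 (by linear_combination -e4)) hη

end Pool.Agent.Lib.MP_af4c59_nt
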