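import Mathlib

set_option autoImplicit false

namespace Pool.Agent.Lib.MP_af4c59_nt

/-- The ring of integers of the field generated by the square root of two. -/
abbrev O := Zsqrtd 2

lemma two_ne_sq : ∀ n : ℤ, (2 : ℤ) ≠ n * n := by
  intro n h
  have h1 : n ≤ 1 := by nlinarith
  have h2 : -1 ≤ n := by nlinarith
  interval_cases n <;> omega

lemma O_norm_eq_zero {a : O} : a.norm = 0 ↔ a = 0 := Zsqrtd.norm_eq_zero two_ne_sq a

instance : NoZeroDivisors O where
  eq_zero_or_eq_zero_of_mul_eq_zero := by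
    intro a b h
    have : a.norm * b.norm = 0 := by rw [← Zsqrtd.norm_mul, h]; simp
    rcases mul_eq_zero.1 this with h1 | h1
    · exact Or.inl (O_norm_eq_zero.1 h1)
    · exact Or.inr (O_norm_eq_zero.1 h1)

instance : IsDomain O := NoZeroDivisors.to_isDomain O

lemma O_norm_def (a : O) : a.norm = a.re ^ 2 - 2 * a.im ^ 2 := by
  rw [Zsqrtd.norm_def]; ring

lemma exists_round (a n : ℤ) (hn : n ≠ 0) : ∃ q : ℤ, 2 * |a - n * q| ≤ |n| := by
  have hpos : 0 < |n| := abs_pos.2 hn
  have h1 := Int.emod_nonneg a hn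
  have h2 := Int.emod_lt_abs a hn
  have h3 := Int.emod_add_mul_ediv a n
  by_cases h : 2 * (a % n) ≤ |n|
  · refine ⟨a / n, ?_⟩
    have : a - n * (a / n) = a % n := by omega
    rw [this, abs_of_nonneg h1]; exact h
  · rcases lt_or_gt_of_ne hn with hneg | hp
    · refine ⟨a / n - 1, ?_⟩
      have : a - n * (a / n - 1) = a % n + n := by ring_nf; omega
      rw [this]
      rw [abs_of_neg hneg] at h h2 ⊢
      rw [abs_of_nonpos (by omega)]; omega
    · refine ⟨a / n + 1, ?_⟩
      have : a - n * (a / n + 1) = a % n - n := by ring_nf; omega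
      rw [this]
      rw [abs_of_pos hp] at h h2 ⊢
      rw [abs_of_nonpos (by omega)]; omega

lemma exists_div (x y : O) (hy : y ≠ 0) : ∃ q : O, |(x - y * q).norm| < |y.norm| := by
  have hn : y.norm ≠ 0 := fun h => hy (O_norm_eq_zero.1 h)
  obtain ⟨q1, h1⟩ := exists_round (x * star y).re y.norm hn
  obtain ⟨q2, h2⟩ := exists_round (x * star y).im y.norm hn
  refine ⟨⟨q1, q2⟩, ?_⟩
  have key : (x - y * ⟨q1, q2⟩).norm * y.norm =
      ((x * star y).re - y.norm * q1) ^ 2 - 2 * ((x * star y).im - y.norm * q2) ^ 2 := by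
    simp only [O_norm_def, Zsqrtd.re_mul, Zsqrtd.im_mul, Zsqrtd.re_sub, Zsqrtd.im_sub,
      Zsqrtd.re_star, Zsqrtd.im_star]
    ring
  set A := (x * star y).re - y.norm * q1
  set B := (x * star y).im - y.norm * q2
  set n := y.norm
  set m := (x - y * ⟨q1, q2⟩).norm
  have hpos : 0 < |n| := abs_pos.2 hn
  have hA : 4 * A ^ 2 ≤ n ^ 2 := by
    have := abs_nonneg A
    rw [← sq_abs A, ← sq_abs n]; nlinarith
  have hB : 4 * B ^ 2 ≤ n ^ 2 := by
    have := abs_nonneg B
    rw [← sq_abs B, ← sq_abs n]; nlinarith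
  have h3 : |m| * |n| < |n| * |n| := by
    rw [← abs_mul, key, abs_mul_abs_self]
    have hn2 : 0 < n ^ 2 := by positivity
    rw [abs_lt]; constructor <;> nlinarith [sq_nonneg A, sq_nonneg B]
  exact lt_of_mul_lt_mul_right h3 hpos.le

instance : IsPrincipalIdealRing O where
  principal := by
    intro I
    by_cases hI : ∃ x ∈ I, x ≠ 0
    · have hex : ∃ n : ℕ, ∃ x ∈ I, x ≠ 0 ∧ x.norm.natAbs = n := by
        obtain ⟨x, hx, hx0⟩ := hI
        exact ⟨_, x, hx, hx0, rfl⟩
      classical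
      obtain ⟨y, hyI, hy0, hyn⟩ := Nat.find_spec hex
      refine ⟨⟨y, ?_⟩⟩
      apply le_antisymm
      · intro x hx
        obtain ⟨q, hq⟩ := exists_div x y hy0
        have hmem : x - y * q ∈ I := I.sub_mem hx (I.mul_mem_right q hyI)
        by_cases h0 : x - y * q = 0
        · exact Submodule.mem_span_singleton.2 ⟨q, by rw [smul_eq_mul]; linear_combination -h0⟩
        · exfalso
          have := Nat.find_min' hex ⟨_, hmem, h0, rfl⟩
          rw [← hyn] at this
          have h2 : ((y.norm.natAbs : ℕ) : ℤ) ≤ ((x - y * q).norm.natAbs : ℤ) := by exact_mod_cast this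
          rw [Int.natCast_natAbs, Int.natCast_natAbs] at h2
          omega
      · rw [Submodule.span_le]; simpa using hyI
    · push Not at hI
      refine ⟨⟨0, ?_⟩⟩
      apply le_antisymm
      · intro x hx; rw [hI x hx]; exact Submodule.zero_mem _
      · rw [Submodule.span_le]; simp

lemma star_dvd_star {a b : O} (h : a ∣ b) : star a ∣ star b := by
  obtain ⟨c, rfl⟩ := h
  exact ⟨star c, by rw [star_mul']⟩

lemma dvd_star_iff {a b : O} : a ∣ star b ↔ star a ∣ b :=
  ⟨fun h => by simpa using star_dvd_star h, fun h => by simpa using star_dvd_star h⟩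

lemma star_intCast' (n : ℤ) : star (n : O) = n := by ext <;> simp

lemma prime_star {π : O} (h : Prime π) : Prime (star π) := by
  refine ⟨fun h0 => h.ne_zero (by simpa using congrArg star h0), fun hu => h.not_isUnit ?_, ?_⟩
  · simpa using hu.star
  · intro a b hab
    have : π ∣ star a * star b := by rw [← star_mul']; exact dvd_star_iff.2 hab
    rcases h.dvd_or_dvd this with h1 | h1
    · exact Or.inl (dvd_star_iff.1 h1)
    · exact Or.inr (dvd_star_iff.1 h1)

lemma squarefree_star {η : O} (h : Squarefree η) : Squarefree (star η) := by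
  intro a ha
  have : star a * star a ∣ η := by rw [← star_mul']; exact dvd_star_iff.1 ha
  simpa using (h _ this).star

lemma not_isUnit_of_prime {p : ℤ} (hp : Prime p) : ¬ IsUnit (p : O) := by
  intro hu
  rw [Zsqrtd.isUnit_iff_norm_isUnit, Zsqrtd.norm_intCast] at hu
  exact hp.not_isUnit (isUnit_of_mul_isUnit_left hu)

lemma exists_prime_dvd {p : ℤ} (hp : Prime p) : ∃ π : O, Prime π ∧ π ∣ (p : O) := by
  have h0 : (p : O) ≠ 0 := by exact_mod_cast hp.ne_zero
  obtain ⟨π, hπ, hd⟩ := WfDvdMonoid.exists_irreducible_factor (not_isUnit_of_prime hp) h0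
  exact ⟨π, hπ.prime, hd⟩

lemma int_dvd_of_prime_dvd {p m : ℤ} (hp : Prime p) {π : O} (hπ : Prime π) (h1 : π ∣ (p : O))
    (h2 : π ∣ (m : O)) : p ∣ m := by
  by_contra hn
  have hc : IsCoprime p m := (hp.irreducible.coprime_iff_not_dvd).2 hn
  obtain ⟨a, b, hab⟩ := hc
  have : π ∣ ((a * p + b * m : ℤ) : O) := by
    push_cast
    exact dvd_add (Dvd.dvd.mul_left h1 _) (Dvd.dvd.mul_left h2 _)
  rw [hab] at this
  exact hπ.not_isUnit (isUnit_of_dvd_one (by simpa using this))

lemma add_star_eq (a : O) : a + star a = ((2 * a.re : ℤ) : O) := by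
  ext <;> simp; ring

lemma sub_star_mul (a : O) : (a - star a) * Zsqrtd.sqrtd = ((4 * a.im : ℤ) : O) := by
  ext <;> simp; ring

/-- A prime above an odd rational prime dividing an element and its conjugate forces the rational
prime to divide both coordinates. -/
lemma dvd_coords_of_dvd_star {p : ℤ} (hp : Prime p) (hp2 : ¬ p ∣ 2) {π a : O} (hπ : Prime π)
    (h1 : π ∣ (p : O)) (ha : π ∣ a) (hb : π ∣ star a) : p ∣ a.re ∧ p ∣ a.im := by
  constructor
  · have : p ∣ 2 * a.re := int_dvd_of_prime_dvd hp hπ h1 (by rw [← add_star_eq]; exact dvd_add ha hb)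
    exact (hp.dvd_or_dvd this).resolve_left hp2
  · have : p ∣ 4 * a.im := int_dvd_of_prime_dvd hp hπ h1 (by
      rw [← sub_star_mul]; exact Dvd.dvd.mul_right (dvd_sub ha hb) _)
    rcases hp.dvd_or_dvd this with h | h
    · exfalso
      have h4 : p ∣ 2 * 2 := by simpa using h
      exact hp2 ((hp.dvd_or_dvd h4).elim id id)
    · exact h

lemma exists_prime_dvd_of_dvd_norm {p : ℤ} (hp : Prime p) {η : O} (h : p ∣ η.norm) :
    ∃ π : O, Prime π ∧ π ∣ (p : O) ∧ π ∣ η := by
  obtain ⟨π, hπ, hd⟩ := exists_prime_dvd hp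
  have : π ∣ η * star η := by
    rw [← Zsqrtd.norm_eq_mul_conj]
    exact hd.trans ((Zsqrtd.intCast_dvd_intCast (d := 2) p η.norm).2 h)
  rcases hπ.dvd_or_dvd this with h1 | h1
  · exact ⟨π, hπ, hd, h1⟩
  · exact ⟨star π, prime_star hπ, by rw [← dvd_star_iff, star_intCast']; exact hd, dvd_star_iff.1 h1⟩

/-- For squarefree `η`, an odd prime whose square divides the norm divides `η`. -/
lemma dvd_of_sq_dvd_norm {p : ℤ} (hp : Prime p) (hp2 : ¬ p ∣ 2) {η : O} (hη : Squarefree η)
    (h : p ^ 2 ∣ η.norm) : p ∣ η.re ∧ p ∣ η.im := by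
  obtain ⟨π, hπ, hd, hπη⟩ := exists_prime_dvd_of_dvd_norm hp ((dvd_pow_self p two_ne_zero).trans h)
  by_cases hb : π ∣ star η
  · exact dvd_coords_of_dvd_star hp hp2 hπ hd hπη hb
  · exfalso
    have h2 : π ^ 2 ∣ η * star η := by
      rw [← Zsqrtd.norm_eq_mul_conj]
      refine (pow_dvd_pow_of_dvd hd 2).trans ?_
      have := (Zsqrtd.intCast_dvd_intCast (d := 2) (p ^ 2) η.norm).2 h
      exact_mod_cast this
    have h3 : π ^ 2 ∣ η := hπ.pow_dvd_of_dvd_mul_right 2 hb h2
    exact hπ.not_isUnit (hη π (by rwa [← sq]))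

lemma not_sq_dvd_of_squarefree {p : ℤ} (hp : Prime p) {η : O} (hη : Squarefree η)
    (h1 : p ^ 2 ∣ η.re) (h2 : p ^ 2 ∣ η.im) : False := by
  have : ((p ^ 2 : ℤ) : O) ∣ η := (Zsqrtd.intCast_dvd _ _).2 ⟨h1, h2⟩
  exact not_isUnit_of_prime hp (hη p (by rw [← sq]; exact_mod_cast this))

/-- Non-degeneracy of the root count on a line. -/
lemma not_dvd_star_xi {p : ℤ} (hp : Prime p) (hp2 : ¬ p ∣ 2) {π η ξ : O} {w : ℤ} (hπ : Prime π)
    (h1 : π ∣ (p : O)) (hη : Squarefree η) (hξ : IsCoprime ξ.re ξ.im) (hπη : π ∣ η)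
    (hw : 2 * (η * ξ * ξ).re = w ^ 2) : ¬ π ∣ star ξ := by
  intro hb
  have e : η * ξ * ξ + star η * star ξ * star ξ = (w : O) ^ 2 := by
    have := add_star_eq (η * ξ * ξ)
    rw [hw] at this
    rw [← star_mul', ← star_mul']
    exact_mod_cast this
  have hπξ : ¬ π ∣ ξ := by
    intro ha
    obtain ⟨h3, h4⟩ := dvd_coords_of_dvd_star hp hp2 hπ h1 ha hb
    exact hp.not_isUnit (hξ.isUnit_of_dvd' h3 h4)
  have h5 : π ∣ (w : O) := by
    apply hπ.dvd_of_dvd_pow (n := 2)
    rw [← e]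
    exact dvd_add (Dvd.dvd.mul_right (Dvd.dvd.mul_right hπη _) _) (Dvd.dvd.mul_left hb _)
  have h6 : π ^ 2 ∣ η * ξ * ξ := by
    have : η * ξ * ξ = (w : O) ^ 2 - star η * (star ξ) ^ 2 := by rw [← e]; ring
    rw [this]
    exact dvd_sub (pow_dvd_pow_of_dvd h5 2) (Dvd.dvd.mul_left (pow_dvd_pow_of_dvd hb 2) _)
  have h7 : π ^ 2 ∣ η := hπ.pow_dvd_of_dvd_mul_right 2 hπξ (hπ.pow_dvd_of_dvd_mul_right 2 hπξ h6)
  exact hπ.not_isUnit (hη π (by rwa [← sq]))

lemma dvd_of_sq_dvd_squarefree_mul {η b c : O} (hη : Squarefree η) (hb : b ≠ 0)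
    (h : b * b ∣ η * (c * c)) : b ∣ c := by
  classical
  let : GCDMonoid O := UniqueFactorizationMonoid.toGCDMonoid O
  obtain ⟨b', c', hb', hc', hu⟩ := extract_gcd b c
  have hg : gcd b c ≠ 0 := fun h0 => hb ((gcd_eq_zero_iff b c).1 h0).1
  set g := gcd b c
  have hrel : IsRelPrime b' c' := gcd_isUnit_iff_isRelPrime.1 hu
  have h2 : b' * b' ∣ η * (c' * c') := by
    have : (g * g) * (b' * b') ∣ (g * g) * (η * (c' * c')) := by
      convert h using 1
      · rw [hb']; ring
      · rw [hc']; ring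
    exact (mul_dvd_mul_iff_left (mul_ne_zero hg hg)).1 this
  have h3 : b' * b' ∣ η := by
    have hrel2 : IsRelPrime (b' * b') (c' * c') :=
      (hrel.mul_left hrel).mul_right (hrel.mul_left hrel)
    exact hrel2.dvd_of_dvd_mul_right h2
  have hu' : IsUnit b' := hη b' h3
  rw [hb', hc']
  exact mul_dvd_mul_left g hu'.dvd

lemma exists_sq_mul_sqfree (η : O) (h0 : η ≠ 0) : ∃ ρ η₁ : O, η = ρ * ρ * η₁ ∧ Squarefree η₁ := by
  induction hn : η.norm.natAbs using Nat.strong_induction_on generalizing η with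
  | _ n ih =>
    by_cases hs : Squarefree η
    · exact ⟨1, η, by ring, hs⟩
    · unfold Squarefree at hs
      push Not at hs
      obtain ⟨a, ⟨c, hc⟩, ha⟩ := hs
      have hc0 : c ≠ 0 := by rintro rfl; exact h0 (by simpa using hc)
      have ha0 : a ≠ 0 := by rintro rfl; exact h0 (by simpa using hc)
      have hna : 2 ≤ a.norm.natAbs := by
        have h1 : a.norm.natAbs ≠ 1 := fun h => ha (Zsqrtd.norm_eq_one_iff.1 h)
        have h2 : a.norm.natAbs ≠ 0 := fun h => ha0 (O_norm_eq_zero.1 (Int.natAbs_eq_zero.1 h))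
        omega
      have hnc : 0 < c.norm.natAbs :=
        Nat.pos_of_ne_zero fun h => hc0 (O_norm_eq_zero.1 (Int.natAbs_eq_zero.1 h))
      have hlt : c.norm.natAbs < n := by
        rw [← hn, hc, Zsqrtd.norm_mul, Zsqrtd.norm_mul, Int.natAbs_mul, Int.natAbs_mul]
        have h4 : 2 * 2 ≤ a.norm.natAbs * a.norm.natAbs := Nat.mul_le_mul hna hna
        nlinarith
      obtain ⟨ρ, η₁, h1, h2⟩ := ih _ hlt c hc0 rfl
      exact ⟨a * ρ, η₁, by rw [hc, h1]; ring, h2⟩

/-- Multiplying by an even power of the fundamental unit balances a totally positive element. -/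
lemma exists_balance (η : O) (hx : 0 < η.re) (hN : 0 < η.norm) :
    ∃ u η' : O, u.norm.natAbs = 1 ∧ η = u * u * η' ∧ 0 < η'.re ∧ 2 * |η'.im| ≤ η'.re := by
  induction hn : η.re.natAbs using Nat.strong_induction_on generalizing η with
  | _ n ih =>
    by_cases hb : 2 * |η.im| ≤ η.re
    · exact ⟨1, η, by simp, by ring, hx, hb⟩
    · push Not at hb
      rw [O_norm_def] at hN
      rcases le_or_gt 0 η.im with hy | hy
      · rw [abs_of_nonneg hy] at hb
        let η' : O := ⟨3 * η.re - 4 * η.im, -2 * η.re + 3 * η.im⟩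
        have h1 : 0 < η'.re := by
          show 0 < 3 * η.re - 4 * η.im
          by_contra hcon
          push Not at hcon
          nlinarith
        have h2 : 0 < η'.norm := by
          rw [O_norm_def]; show 0 < (3 * η.re - 4 * η.im) ^ 2 - 2 * (-2 * η.re + 3 * η.im) ^ 2
          nlinarith
        have h3 : η'.re.natAbs < n := by
          rw [← hn]; show (3 * η.re - 4 * η.im).natAbs < _
          have : 0 < 3 * η.re - 4 * η.im := h1
          omega
        obtain ⟨u, η'', hu, he, h4, h5⟩ := ih _ h3 η' h1 h2 rfl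
        refine ⟨⟨1, 1⟩ * u, η'', ?_, ?_, h4, h5⟩
        · rw [Zsqrtd.norm_mul, Int.natAbs_mul, hu]; rfl
        · have : η = ⟨1, 1⟩ * ⟨1, 1⟩ * η' := by ext <;> simp [η'] <;> ring
          rw [this, he]; ring
      · rw [abs_of_neg hy] at hb
        let η' : O := ⟨3 * η.re + 4 * η.im, 2 * η.re + 3 * η.im⟩
        have h1 : 0 < η'.re := by
          show 0 < 3 * η.re + 4 * η.im
          by_contra hcon
          push Not at hcon
          nlinarith
        have h2 : 0 < η'.norm := by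
          rw [O_norm_def]; show 0 < (3 * η.re + 4 * η.im) ^ 2 - 2 * (2 * η.re + 3 * η.im) ^ 2
          nlinarith
        have h3 : η'.re.natAbs < n := by
          rw [← hn]; show (3 * η.re + 4 * η.im).natAbs < _
          have : 0 < 3 * η.re + 4 * η.im := h1
          omega
        obtain ⟨u, η'', hu, he, h4, h5⟩ := ih _ h3 η' h1 h2 rfl
        refine ⟨⟨1, -1⟩ * u, η'', ?_, ?_, h4, h5⟩
        · rw [Zsqrtd.norm_mul, Int.natAbs_mul, hu]; rfl
        · have : η = ⟨1, -1⟩ * ⟨1, -1⟩ * η' := by ext <;> simp [η'] <;> ring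
          rw [this, he]; ring

/-- Every totally positive element is a square times a balanced squarefree element. -/
lemma exists_decomp (η : O) (hx : 0 < η.re) (hN : 0 < η.norm) :
    ∃ ρ η₁ : O, η = ρ * ρ * η₁ ∧ Squarefree η₁ ∧ 0 < η₁.re ∧ 2 * |η₁.im| ≤ η₁.re := by
  have h0 : η ≠ 0 := by rintro rfl; simp at hx
  obtain ⟨ρ, η₁, he, hs⟩ := exists_sq_mul_sqfree η h0
  have hρ : ρ.norm ≠ 0 := by
    intro h; rw [O_norm_eq_zero.1 h] at he; exact h0 (by simpa using he)
  have hN1 : 0 < η₁.norm := by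
    rw [he, Zsqrtd.norm_mul, Zsqrtd.norm_mul] at hN
    have : 0 < ρ.norm * ρ.norm := mul_self_pos.2 hρ
    exact (pos_iff_pos_of_mul_pos hN).1 this
  have hx1 : 0 < η₁.re := by
    by_contra hcon
    push Not at hcon
    rw [he] at hx
    simp only [Zsqrtd.re_mul, Zsqrtd.im_mul] at hx
    rw [O_norm_def] at hN1
    set a := ρ.re; set b := ρ.im; set x := η₁.re; set y := η₁.im
    have hA : 0 ≤ a * a + 2 * b * b := by nlinarith [mul_self_nonneg a, mul_self_nonneg b]
    have h1 : 0 < 2 * (a * b + b * a) * y - (a * a + 2 * b * b) * (-x) := by linarith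
    have h2 : (2 * (a * b + b * a) * y) ^ 2 ≤ ((a * a + 2 * b * b) * (-x)) ^ 2 := by
      have h3 : (2 * (a * b + b * a)) ^ 2 ≤ 2 * (a * a + 2 * b * b) ^ 2 := by
        nlinarith [sq_nonneg (a * a - 2 * b * b)]
      have h4 : 2 * y ^ 2 ≤ x ^ 2 := by linarith
      calc (2 * (a * b + b * a) * y) ^ 2 = (2 * (a * b + b * a)) ^ 2 * y ^ 2 := by ring
        _ ≤ 2 * (a * a + 2 * b * b) ^ 2 * y ^ 2 := by gcongr
        _ = (a * a + 2 * b * b) ^ 2 * (2 * y ^ 2) := by ring
        _ ≤ (a * a + 2 * b * b) ^ 2 * x ^ 2 := by gcongr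
        _ = _ := by ring
    have h5 : 0 ≤ (a * a + 2 * b * b) * (-x) := mul_nonneg hA (by linarith)
    nlinarith
  obtain ⟨u, η₂, hu, he2, h3, h4⟩ := exists_balance η₁ hx1 hN1
  refine ⟨ρ * u, η₂, by rw [he, he2]; ring, ?_, h3, h4⟩
  rw [he2] at hs
  exact hs.of_mul_right

end Pool.Agent.Lib.MP_af4c59_nt
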